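import Mathlib

/-! PROJECT RES, part A: a closed cone of parameters that misses a linear family of large
dimension over every point does not dominate the parameter space. -/

namespace Pool.Agent.MP_19ffc6_ag.Res.Codim

open MvPolynomial Algebra

section Points

variable {k : Type} [Field k]

/-- A proper ideal of a finitely generated algebra vanishes at a rational point. -/
lemma exists_pt [IsAlgClosed k] {D : Type} [CommRing D] [Algebra k D] [FiniteType k D]
    (I : Ideal D) (hI : I ≠ ⊤) : ∃ y : D →ₐ[k] k, ∀ d ∈ I, y d = 0 := by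
  obtain ⟨m, hm, hle⟩ := I.exists_le_maximal hI
  let _ := Ideal.Quotient.field m
  have := finite_of_finite_type_of_isJacobsonRing k (D ⧸ m)
  have hb := IsAlgClosed.algebraMap_bijective_of_isIntegral (k := k) (K := D ⧸ m)
  refine ⟨(AlgEquiv.ofBijective (Algebra.ofId k _) hb).symm.toAlgHom.comp (Ideal.Quotient.mkₐ k m),
    fun d hd => ?_⟩
  rw [AlgHom.comp_apply, Ideal.Quotient.mkₐ_eq_mk, Ideal.Quotient.eq_zero_iff_mem.2 (hle hd),
    map_zero]

/-- A rational point of a prime at which a given element outside the prime is nonzero. -/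
lemma exists_pt_ne [IsAlgClosed k] {D : Type} [CommRing D] [Algebra k D] [FiniteType k D]
    (p : Ideal D) [hp : p.IsPrime] {s : D} (hs : s ∉ p) :
    ∃ y : D →ₐ[k] k, y s ≠ 0 ∧ ∀ d ∈ p, y d = 0 := by
  have : IsJacobsonRing D := isJacobsonRing_of_finiteType (A := k)
  rw [← IsJacobsonRing.out ‹_› hp.isRadical, Ideal.jacobson, Ideal.mem_sInf] at hs
  push Not at hs
  obtain ⟨m, ⟨hle, hm⟩, hsm⟩ := hs
  obtain ⟨y, hy⟩ := exists_pt (k := k) m hm.ne_top
  refine ⟨y, fun h0 => hsm ?_, fun d hd => hy d (hle hd)⟩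
  rw [hm.eq_of_le (RingHom.ker_ne_top y) hy]
  exact h0

variable {Ω : Type} [Field Ω] [Algebra k Ω]

lemma exists_pt_val [IsAlgClosed k] {D : Type} [CommRing D] [Algebra k D] [FiniteType k D]
    (W : ValuationSubring Ω) (θ : D →ₐ[k] Ω) (hθ : ∀ d, θ d ∈ W) :
    ∃ y : D →ₐ[k] k, ∀ d, W.valuation (θ d) < 1 → y d = 0 := by
  let f : D →+* W := θ.toRingHom.codRestrict W hθ
  obtain ⟨y, hy⟩ := exists_pt (k := k) ((IsLocalRing.maximalIdeal W).comap f)
    (Ideal.comap_ne_top _ (IsLocalRing.maximalIdeal.isMaximal W).ne_top)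
  exact ⟨y, fun d hd => hy d ((W.valuation_lt_one_iff (f d)).2 hd)⟩

lemma exists_val {D : Type} [CommRing D] [Algebra k D] (χ : D →ₐ[k] Ω) (y : D →ₐ[k] k)
    (h : ∀ d, χ d = 0 → y d = 0) : ∃ W : ValuationSubring Ω, (∀ d, χ d ∈ W) ∧
      ∀ d, y d = 0 → W.valuation (χ d) < 1 := by
  let f : D →+* χ.toRingHom.range := χ.toRingHom.rangeRestrict
  have hf : Function.Surjective f := χ.toRingHom.rangeRestrict_surjective
  obtain ⟨W, h1, h2⟩ := Ideal.image_subset_nonunits_valuationSubring ((RingHom.ker y).map f) (by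
    rw [Ideal.ne_top_iff_one]
    intro h1
    obtain ⟨d, hd, e⟩ := (Ideal.mem_map_iff_of_surjective f hf).1 h1
    have h2 := h (d - 1) (by
      rw [map_sub, map_one, sub_eq_zero]; exact congrArg Subtype.val e)
    rw [map_sub, map_one, RingHom.mem_ker.1 hd, zero_sub, neg_eq_zero] at h2
    exact one_ne_zero h2)
  exact ⟨W, fun d => h1 ⟨d, rfl⟩, fun d hd =>
    W.mem_nonunits_iff.1 (h2 ⟨f d, Ideal.mem_map_of_mem f hd, rfl⟩)⟩

/-- Finitely many nonzero polynomials are nonzero at a common rational point. -/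
lemma avoid [Infinite k] {σ ι : Type} (T : Finset ι) (d : ι → MvPolynomial σ k)
    (hd : ∀ i ∈ T, d i ≠ 0) : ∃ a : σ → k, ∀ i ∈ T, eval a (d i) ≠ 0 := by
  have h : ∏ i ∈ T, d i ≠ 0 := Finset.prod_ne_zero_iff.2 hd
  by_contra H
  push Not at H
  refine h (MvPolynomial.funext fun a => ?_)
  obtain ⟨i, hi, e⟩ := H a
  rw [map_prod, map_zero]
  exact Finset.prod_eq_zero hi e

end Points

section Cone

variable {k R Ω : Type} [Field k] [CommRing R] [Algebra k R] [Field Ω] [Algebra k Ω]
  {μ ι : Type} [Fintype μ] [Fintype ι]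

open Classical in
/-- Coordinates of a vector with entries in an algebra with respect to a rational basis. -/
noncomputable def cf (v : Module.Basis ι k (μ → k)) {E : Type} [CommRing E] [Algebra k E]
    (u : μ → E) (l : ι) : E := ∑ i, v.repr (Pi.single i 1) l • u i

lemma map_cf (v : Module.Basis ι k (μ → k)) {E E' : Type} [CommRing E] [Algebra k E] [CommRing E']
    [Algebra k E'] (f : E →ₐ[k] E') (u : μ → E) (l : ι) : f (cf v u l) = cf v (f ∘ u) l := by
  simp [cf]

lemma sum_cf (v : Module.Basis ι k (μ → k)) {E : Type} [CommRing E] [Algebra k E]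
    (u : μ → E) (j : μ) : ∑ l, v l j • cf v u l = u j := by
  classical
  simp only [cf, Finset.smul_sum, smul_smul]
  rw [Finset.sum_comm]
  have : ∀ i, ∑ l, v l j * v.repr (Pi.single i 1) l = (Pi.single i 1 : μ → k) j := fun i => by
    conv_rhs => rw [← v.sum_repr (Pi.single i 1)]
    simp [mul_comm]
  simp only [← Finset.sum_smul]
  convert_to ∑ i, (Pi.single i 1 : μ → k) j • u i = u j
  · exact Finset.sum_congr rfl fun i _ => by rw [← this i]
  · simp [Pi.single_apply]

lemma cf_mul (v : Module.Basis ι k (μ → k)) (u : μ → Ω) (c : Ω) (l : ι) :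
    cf v (fun i => c * u i) l = c * cf v u l := by
  simp [cf, Finset.mul_sum]

lemma tower_ext {E : Type} [CommRing E] [Algebra k E] {ν : Type} {f g : MvPolynomial ν R →ₐ[k] E}
    (h1 : ∀ r, f (C r) = g (C r)) (h2 : ∀ i, f (X i) = g (X i)) : f = g :=
  AlgHom.coe_ringHom_injective (MvPolynomial.ringHom_ext h1 h2)

lemma ker_le {κ : Type} (φ : R →ₐ[k] Ω) (β : κ → Ω) {α : Ω}
    (hα : Transcendental (adjoin k (Set.range φ ∪ Set.range β)) α) (Q : MvPolynomial κ R)
    (hQ : aevalTower φ (fun j => β j * α⁻¹) Q = 0) : φ (constantCoeff Q) = 0 := by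
  set F := adjoin k (Set.range φ ∪ Set.range β)
  let φ' : R →ₐ[k] F := φ.codRestrict F fun r => subset_adjoin (Or.inl ⟨r, rfl⟩)
  let β' : κ → F := fun j => ⟨β j, subset_adjoin (Or.inr ⟨j, rfl⟩)⟩
  let Θ : MvPolynomial κ R →ₐ[k] Polynomial F :=
    aevalTower ((IsScalarTower.toAlgHom k F _).comp φ') fun j => Polynomial.C (β' j) * .X
  have h1 : ((Polynomial.aeval α⁻¹).restrictScalars k).comp Θ =
      aevalTower φ fun j => β j * α⁻¹ :=
    tower_ext (fun r => by simp [Θ, φ']) (fun j => by simp [Θ, β'])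
  have h2 : (φ'.toRingHom.comp constantCoeff : MvPolynomial κ R →+* F) =
      Polynomial.constantCoeff.comp Θ.toRingHom :=
    MvPolynomial.ringHom_ext (fun r => by simp [Θ]) (fun j => by simp [Θ])
  have hα' : Transcendental F α⁻¹ := fun h => hα (IsAlgebraic.inv_iff.1 h)
  have h3 : Θ Q = 0 := transcendental_iff.1 hα' _ (by rw [← hQ, ← h1]; rfl)
  have h4 : φ' (constantCoeff Q) = 0 := by
    have := RingHom.congr_fun h2 Q
    simpa [h3] using this
  exact congrArg Subtype.val h4

lemma core [IsAlgClosed k] [FiniteType k R] {κ ν : Type} [Fintype κ] [Fintype ν]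
    (v : Module.Basis (ν ⊕ κ) k (μ → k)) (φ : R →ₐ[k] Ω) (lam : μ → Ω) (x : R →ₐ[k] k)
    (hx : ∀ r, φ r = 0 → x r = 0) (i0 : ν)
    (hα : Transcendental (adjoin k (Set.range φ ∪ Set.range fun j => cf v lam (.inr j)))
      (cf v lam (.inl i0))) :
    ∃ a : ν → k, a ≠ 0 ∧ ∀ P : MvPolynomial μ R,
      (∀ c : Ω, aevalTower φ (fun i => c * lam i) P = 0) →
        aevalTower x (∑ i, a i • v (.inl i)) P = 0 := by
  have h0 : cf v lam (.inl i0) ≠ 0 := fun e => hα (e ▸ isAlgebraic_zero)
  obtain ⟨W, hW, hW'⟩ := exists_val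
    (aevalTower φ fun j => cf v lam (.inr j) * (cf v lam (.inl i0))⁻¹)
    (aevalTower x fun _ : κ => 0) fun Q hQ => by
      have h1 : (aevalTower x (fun _ : κ => 0) : MvPolynomial κ R →+* k) =
          x.toRingHom.comp constantCoeff :=
        MvPolynomial.ringHom_ext (fun r => by simp) (fun j => by simp)
      exact (RingHom.congr_fun h1 Q).trans (hx _ (ker_le φ _ hα Q hQ))
  obtain ⟨i1, -, hi1⟩ := Finset.exists_max_image Finset.univ
    (fun i => W.valuation (cf v lam (.inl i))) ⟨i0, Finset.mem_univ _⟩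
  set c := cf v lam (.inl i1)
  have hv0 : 0 < W.valuation (cf v lam (.inl i0)) := (Valuation.pos_iff _).2 h0
  have hvc : 0 < W.valuation c := hv0.trans_le (hi1 i0 (Finset.mem_univ _))
  have hc : c ≠ 0 := (Valuation.pos_iff _).1 hvc
  have hl : ∀ i, W.valuation (c⁻¹ * cf v lam (.inl i)) ≤ 1 := fun i => by
    rw [map_mul, map_inv₀, inv_mul_le_one₀ hvc]; exact hi1 i (Finset.mem_univ _)
  have hr : ∀ j, W.valuation (c⁻¹ * cf v lam (.inr j)) < 1 := fun j => by
    have h1 := hW' (X j) (by simp)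
    rw [aevalTower_X] at h1
    have : c⁻¹ * cf v lam (.inr j) = (c⁻¹ * cf v lam (.inl i0)) *
        (cf v lam (.inr j) * (cf v lam (.inl i0))⁻¹) := by field_simp
    rw [this, map_mul]
    exact (mul_le_of_le_one_left' (hl i0)).trans_lt h1
  have hφ : ∀ r, φ r ∈ W := fun r => by simpa using hW (C r)
  have hk : ∀ a : k, algebraMap k Ω a ∈ W := fun a => by simpa using hφ (algebraMap k R a)
  let θ : MvPolynomial μ R →ₐ[k] Ω := aevalTower φ fun i => c⁻¹ * lam i
  have hθX : θ ∘ X = fun i => c⁻¹ * lam i := funext fun i => aevalTower_X _ _ _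
  have hθ : ∀ P, θ P ∈ W := fun P => by
    induction P using MvPolynomial.induction_on with
    | C r => simpa [θ] using hφ r
    | add p q hp hq => rw [map_add]; exact add_mem hp hq
    | mul_X p i hp =>
      rw [map_mul]
      refine mul_mem hp ?_
      rw [show θ (X i) = (θ ∘ X) i from rfl, ← sum_cf v (θ ∘ X) i, hθX]
      refine sum_mem fun l _ => ?_
      rw [Algebra.smul_def, cf_mul]
      refine mul_mem (hk _) ((W.valuation_le_one_iff _).1 ?_)
      rcases l with l | l
      exacts [hl l, (hr l).le]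
  obtain ⟨y, hy⟩ := exists_pt_val W θ hθ
  have hyC : ∀ r, y (C r) = x r := fun r => by
    have h1 := hy (C (r - algebraMap k R (x r))) (by
      simpa [θ] using hW' (C (r - algebraMap k R (x r))) (by simp))
    rw [map_sub, map_sub, sub_eq_zero] at h1
    rw [h1]
    exact y.commutes _
  have hcf : ∀ l, θ (cf v X l) = c⁻¹ * cf v lam l := fun l => by rw [map_cf, hθX, cf_mul]
  refine ⟨fun i => y (cf v X (.inl i)), fun e => ?_, fun P hP => ?_⟩
  · have h1 := hy (cf v X (.inl i1) - 1) (by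
      rw [map_sub, hcf, inv_mul_cancel₀ hc, map_one, sub_self, map_zero]; exact zero_lt_one)
    rw [map_sub, map_one, show y (cf v X (.inl i1)) = 0 from congrFun e i1, zero_sub,
      neg_eq_zero] at h1
    exact one_ne_zero h1
  · have h1 : aevalTower x (∑ i, y (cf v X (.inl i)) • v (.inl i)) = y := by
      refine tower_ext (fun r => by rw [aevalTower_C, hyC]) fun j => ?_
      rw [aevalTower_X, ← sum_cf v X j, map_sum, Fintype.sum_sum_type]
      have : ∀ l, y (cf v X (.inr l)) = 0 := fun l => hy _ (by rw [hcf]; exact hr l)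
      simp [this, mul_comm]
    rw [h1]
    exact hy P (by rw [show θ P = 0 from hP c⁻¹, map_zero]; exact zero_lt_one)

lemma exists_basis {n : ℕ} (τ : (Fin n → k) →ₗ[k] (μ → k)) (hτ : Function.Injective τ) :
    ∃ (m : ℕ) (v : Module.Basis (Fin n ⊕ Fin m) k (μ → k)), n + m = Fintype.card μ ∧
      ∀ a, ∑ i, a i • v (.inl i) = τ a := by
  obtain ⟨W, hW⟩ := (LinearMap.range τ).exists_isCompl
  let e := (LinearEquiv.ofInjective τ hτ).prodCongr (LinearEquiv.refl k W)
  let v := ((Pi.basisFun k (Fin n)).prod (Module.finBasis k W)).map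
    (e.trans (Submodule.prodEquivOfIsCompl _ _ hW))
  refine ⟨_, v, ?_, fun a => ?_⟩
  · have := Module.finrank_eq_card_basis v
    simpa using this.symm
  · have : ∀ i, v (.inl i) = τ (Pi.basisFun k (Fin n) i) := fun i => by
      simp [v, e, Submodule.coe_prodEquivOfIsCompl']
    simp only [this, ← map_smul, ← map_sum]
    congr 1
    exact (Pi.basisFun k (Fin n)).sum_repr a

lemma exists_transc {κ ν σ : Type} [Fintype κ] [Fintype ν] [Fintype σ]
    (v : Module.Basis (ν ⊕ κ) k (μ → k)) (φ : R →ₐ[k] Ω) (lam : μ → Ω) (e : σ → R) {N : ℕ}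
    (hind : AlgebraicIndependent k (Sum.elim (φ ∘ e) lam)) (hN : trdeg k φ.range ≤ N)
    (hlt : N + Fintype.card κ < Fintype.card σ + Fintype.card μ) :
    ∃ i, Transcendental (adjoin k (Set.range φ ∪ Set.range fun j => cf v lam (.inr j)))
      (cf v lam (.inl i)) := by
  by_contra H
  simp only [Transcendental, not_exists, not_not] at H
  set S := Set.range φ ∪ Set.range fun j => cf v lam (.inr j)
  let M := AlgebraicIndependent.matroid k Ω
  have hS : ∀ z ∈ S, IsAlgebraic (adjoin k S) z := fun z hz =>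
    isAlgebraic_algebraMap (⟨z, subset_adjoin hz⟩ : adjoin k S)
  have h1 : Set.range (Sum.elim (φ ∘ e) lam) ⊆ M.closure S := by
    rw [AlgebraicIndependent.matroid_closure_eq]
    rintro _ ⟨i | i, rfl⟩
    · exact hS _ (Or.inl ⟨_, rfl⟩)
    · change lam i ∈ (Subalgebra.algebraicClosure (adjoin k S) Ω).restrictScalars k
      rw [← sum_cf v lam i]
      refine sum_mem fun l _ => Subalgebra.smul_mem _ ?_ _
      rcases l with l | l
      exacts [H l, hS _ (Or.inr ⟨_, rfl⟩)]
  have h2 := Matroid.Indep.cardinalMk_le_cRk_of_subset (M := M) hind.to_subtype_range h1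
  have h3 : M.cRk (Set.range φ) ≤ N := by
    refine Matroid.cRk_le_iff.2 fun I hI => le_trans ?_ hN
    exact AlgebraicIndependent.cardinalMk_le_trdeg (x := fun z : I => (⟨z, hI.subset z.2⟩ : φ.range))
      (AlgebraicIndependent.of_comp φ.range.val hI.indep)
  have h4 : M.cRk (Set.range fun j => cf v lam (.inr j)) ≤ Fintype.card κ :=
    (M.cRk_le_cardinalMk _).trans (Cardinal.mk_range_le.trans_eq (Cardinal.mk_fintype κ))
  rw [Matroid.cRk_closure, Cardinal.mk_range_eq _ hind.injective] at h2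
  have h5 := (h2.trans (le_add_self.trans (M.cRk_inter_add_cRk_union_le _ _))).trans
    (add_le_add h3 h4)
  rw [Cardinal.mk_fintype, Fintype.card_sum] at h5
  exact absurd (by exact_mod_cast h5) hlt.not_ge

/-- Polynomials that vanish on a cone vanish after scaling at every point of the closure. -/
lemma scale [Infinite k] (Z : (R →ₐ[k] k) → (μ → k) → Prop)
    (hcone : ∀ x l (t : k), t ≠ 0 → Z x l → Z x (t • l)) (χ : MvPolynomial μ R →ₐ[k] Ω)
    (hχ : ∀ P, (∀ x l, Z x l → aevalTower x l P = 0) → χ P = 0) (P : MvPolynomial μ R)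
    (hP : ∀ x l, Z x l → aevalTower x l P = 0) (c : Ω) :
    aevalTower (χ.comp (IsScalarTower.toAlgHom k R _)) (fun i => c * χ (X i)) P = 0 := by
  let sc : MvPolynomial μ R →+* Polynomial (MvPolynomial μ R) :=
    eval₂Hom (Polynomial.C.comp C) fun i => .X * Polynomial.C (X i)
  have key : ∀ {E : Type} [CommRing E] [Algebra k E] (f : MvPolynomial μ R →ₐ[k] E) (t : E),
      aevalTower (f.comp (IsScalarTower.toAlgHom k R _)) (fun i => t * f (X i)) P =
        ((sc P).map f.toRingHom).eval t := fun {E} _ _ f t => by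
    have : (aevalTower (f.comp (IsScalarTower.toAlgHom k R _)) (fun i => t * f (X i)) :
        MvPolynomial μ R →+* E) =
        (Polynomial.evalRingHom t).comp ((Polynomial.mapRingHom f.toRingHom).comp sc) :=
      MvPolynomial.ringHom_ext (fun r => by simp [sc]) (fun i => by simp [sc]; exact mul_comm _ _)
    exact RingHom.congr_fun this P
  rw [key]
  suffices (sc P).map χ.toRingHom = 0 by rw [this, Polynomial.eval_zero]
  ext d
  rw [Polynomial.coeff_map, Polynomial.coeff_zero]
  refine hχ _ fun x l hZ => ?_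
  have h1 : (sc P).map (aevalTower x l).toRingHom = 0 := by
    refine Polynomial.eq_zero_of_infinite_isRoot _
      (((Set.finite_singleton (0 : k)).infinite_compl).mono fun t ht => ?_)
    have h2 := key (aevalTower x l) t
    rw [aevalTower_comp_toAlgHom] at h2
    simp only [aevalTower_X] at h2
    exact h2.symm.trans (hP x _ (hcone x l t ht hZ))
  simpa using congrArg (Polynomial.coeff · d) h1

/-- The codimension lemma. -/
theorem codim [IsAlgClosed k] [FiniteType k R] {σ : Type} [Fintype σ] (e : σ → R) (s : R) (n : ℕ)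
    (Z : (R →ₐ[k] k) → (μ → k) → Prop) (hs : ∀ x l, Z x l → x s ≠ 0)
    (hcone : ∀ x l (t : k), t ≠ 0 → Z x l → Z x (t • l))
    (hcl : ∀ x l, x s ≠ 0 → ¬ Z x l → ∃ P : MvPolynomial μ R, aevalTower x l P ≠ 0 ∧
      ∀ x' l', Z x' l' → aevalTower x' l' P = 0)
    (hdim : ∀ p : Ideal R, p.IsPrime → s ∉ p → (∀ r, (∀ x l, Z x l → x r = 0) → r ∈ p) →
      trdeg k (R ⧸ p) ≤ (n + Fintype.card σ : ℕ))
    (hτ : ∀ x : R →ₐ[k] k, x s ≠ 0 → ∃ τ : (Fin (n + 1) → k) →ₗ[k] (μ → k),
      ∀ a, a ≠ 0 → ¬ Z x (τ a)) :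
    ∃ d : MvPolynomial (σ ⊕ μ) k, d ≠ 0 ∧
      ∀ x l, Z x l → eval (Sum.elim (x ∘ e) l) d = 0 := by
  by_contra H
  push Not at H
  let I : Ideal (MvPolynomial μ R) :=
    { carrier := {P | ∀ x l, Z x l → aevalTower x l P = 0}
      add_mem' := fun h1 h2 x l h => by rw [map_add, h1 x l h, h2 x l h, add_zero]
      zero_mem' := fun x l _ => map_zero _
      smul_mem' := fun c P h1 x l h => by rw [smul_eq_mul, map_mul, h1 x l h, mul_zero] }
  let g : MvPolynomial (σ ⊕ μ) k →ₐ[k] MvPolynomial μ R := aeval (Sum.elim (C ∘ e) X)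
  have hg : ∀ (x : R →ₐ[k] k) l d, aevalTower x l (g d) = eval (Sum.elim (x ∘ e) l) d := by
    intro x l d
    have : (aevalTower x l).comp g = aeval (Sum.elim (x ∘ e) l) := by
      ext (i | i) <;> simp [g]
    exact AlgHom.congr_fun this d
  obtain ⟨q, hq, hIq, hdis⟩ := I.exists_le_prime_disjoint
    ((nonZeroDivisors _).map g.toRingHom.toMonoidHom ⊔ Submonoid.powers (C s)) (by
      rw [Set.disjoint_right]
      intro z hz hzI
      obtain ⟨_, ⟨d, hd, rfl⟩, _, ⟨m, rfl⟩, rfl⟩ := Submonoid.mem_sup.1 hz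
      obtain ⟨x, l, hZ, hne⟩ := H d (nonZeroDivisors.ne_zero hd)
      have := hzI x l hZ
      rw [map_mul, map_pow, aevalTower_C] at this
      exact mul_ne_zero (hg x l d ▸ hne) (pow_ne_zero _ (hs x l hZ)) this)
  let Ω := FractionRing (MvPolynomial μ R ⧸ q)
  let χ : MvPolynomial μ R →ₐ[k] Ω :=
    (IsScalarTower.toAlgHom k (MvPolynomial μ R ⧸ q) Ω).comp (Ideal.Quotient.mkₐ k q)
  have hχ : ∀ P, χ P = 0 ↔ P ∈ q := fun P =>
    (map_eq_zero_iff _ (IsFractionRing.injective (MvPolynomial μ R ⧸ q) Ω)).trans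
      Ideal.Quotient.eq_zero_iff_mem
  let φ : R →ₐ[k] Ω := χ.comp (IsScalarTower.toAlgHom k R _)
  have hsq : s ∉ RingHom.ker φ := fun h => Set.disjoint_left.1 hdis ((hχ _).1 h)
    (Submonoid.mem_sup_right (Submonoid.mem_powers _))
  have hp : (RingHom.ker φ).IsPrime := RingHom.ker_isPrime _
  have hind : AlgebraicIndependent k (Sum.elim (φ ∘ e) fun i => χ (X i)) := by
    rw [algebraicIndependent_iff]
    intro d hd
    by_contra h0
    have h1 : χ.comp g = aeval (Sum.elim (φ ∘ e) fun i => χ (X i)) := by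
      ext (i | i) <;> simp [g, φ]
    refine Set.disjoint_left.1 hdis ((hχ (g d)).1 ((AlgHom.congr_fun h1 d).trans hd))
      (Submonoid.mem_sup_left ⟨d, mem_nonZeroDivisors_of_ne_zero h0, rfl⟩)
  have hN : trdeg k φ.range ≤ (n + Fintype.card σ : ℕ) := by
    rw [← (Ideal.quotientKerEquivRange φ).trdeg_eq]
    exact hdim _ hp hsq fun r hr => (hχ (C r)).2 (hIq fun x l h => by simpa using hr x l h)
  obtain ⟨x, hxs, hx⟩ := exists_pt_ne (k := k) (RingHom.ker φ) hsq
  obtain ⟨τ, hτ⟩ := hτ x hxs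
  have hsc := scale Z hcone χ fun P hP => (hχ P).2 (hIq hP)
  have hinj : Function.Injective τ := by
    rw [injective_iff_map_eq_zero]
    intro a ha
    by_contra h0
    obtain ⟨P, hP, hPZ⟩ := hcl x _ hxs (hτ a h0)
    have h1 := hsc P hPZ 0
    have h2 : ∀ {E : Type} [CommRing E] [Algebra k E] (f : R →ₐ[k] E),
        aevalTower f (fun _ : μ => 0) P = f (constantCoeff P) := fun f =>
      RingHom.congr_fun (f := (aevalTower f (fun _ : μ => 0) : MvPolynomial μ R →+* _))
        (g := f.toRingHom.comp constantCoeff)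
        (MvPolynomial.ringHom_ext (fun r => by simp) (fun j => by simp)) P
    simp only [zero_mul] at h1
    rw [h2] at h1
    rw [ha] at hP
    exact hP ((h2 x).trans (hx _ h1))
  obtain ⟨m, v, hm, hv⟩ := exists_basis τ hinj
  obtain ⟨i0, hi0⟩ := exists_transc v φ _ e hind hN (by simp; omega)
  obtain ⟨a, ha, h⟩ := core v φ _ x hx i0 hi0
  obtain ⟨P, hP, hPZ⟩ := hcl x _ hxs (hτ a ha)
  exact hP (hv a ▸ h P (hsc P hPZ))

end Cone

end Pool.Agent.MP_19ffc6_ag.Res.Codim
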