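import Mathlib.RingTheory.Ideal.AssociatedPrime.Finiteness
import Mathlib.RingTheory.Polynomial.Basic
import Mathlib.Algebra.Algebra.Operations
import Mathlib.Algebra.MvPolynomial.Eval
import Mathlib.Algebra.Module.Submodule.Union
import Mathlib.LinearAlgebra.Dimension.Constructions
import Mathlib.LinearAlgebra.FiniteDimensional.Lemmas

/-! PROJECT RES, part A: superficial elements of bigraded families of subspaces. -/

namespace Pool.Agent.MP_19ffc6_ag.Res.Sup

open Submodule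

/-- An increasing chain modulo which `N` is finitely generated stabilizes, and the zero divisors
of the quotient lie in finitely many annihilators. -/
theorem core {R M : Type*} [CommRing R] [IsNoetherianRing R] [AddCommGroup M] [Module R M]
    {N S : Submodule R M} {B : ℕ → Submodule R M} (hB : Monotone B) (hS : S.FG) (hSN : S ≤ N)
    (hN : N ≤ S ⊔ B 0) :
    ∃ (β₀ : ℕ) (P : Set (Ideal R)), (∀ β, β₀ ≤ β → ∀ f ∈ N, f ∈ B β → f ∈ B β₀) ∧ P.Finite ∧
      (∀ p ∈ P, ∃ f ∈ N, f ∉ B β₀ ∧ ∀ r ∈ p, r • f ∈ B β₀) ∧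
      ∀ r, (∀ p ∈ P, r ∉ p) → ∀ f ∈ N, r • f ∈ B β₀ → f ∈ B β₀ := by
  have fg : ∀ β, (N.map (B β).mkQ).FG := fun β => by
    have e : N.map (B β).mkQ = S.map (B β).mkQ := by
      refine le_antisymm ?_ (map_mono hSN)
      rw [map_le_iff_le_comap, comap_map_mkQ, sup_comm]
      exact hN.trans (sup_le_sup_left (hB (Nat.zero_le β)) _)
    rw [e]
    exact hS.map _
  have hn : IsNoetherian R (N.map (B 0).mkQ) := isNoetherian_of_fg_of_noetherian _ (fg 0)
  obtain ⟨β₀, hβ⟩ := monotone_stabilizes_iff_noetherian.2 hn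
    ⟨fun β => ((B β).map (B 0).mkQ).comap (N.map (B 0).mkQ).subtype,
      fun _ _ e => comap_mono (map_mono (hB e))⟩
  have : Module.Finite R (N.map (B β₀).mkQ) := Module.Finite.iff_fg.2 (fg β₀)
  have hz : ∀ (r : R) (f) (hf : f ∈ N),
      r • (⟨(B β₀).mkQ f, mem_map_of_mem hf⟩ : N.map (B β₀).mkQ) = 0 ↔ r • f ∈ B β₀ := by
    intro r f hf
    rw [Subtype.ext_iff]
    change r • (B β₀).mkQ f = 0 ↔ _
    rw [← map_smul, mkQ_apply, Quotient.mk_eq_zero]
  refine ⟨β₀, associatedPrimes R (N.map (B β₀).mkQ), fun β e f hf hf' => ?_,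
    associatedPrimes.finite _ _, fun p hp => ?_, fun r hr f hf hrf => ?_⟩
  · have h1 : (⟨(B 0).mkQ f, mem_map_of_mem hf⟩ : N.map (B 0).mkQ) ∈
        ((B β₀).map (B 0).mkQ).comap (N.map (B 0).mkQ).subtype := by
      have := hβ β e
      simp only [OrderHom.coe_mk] at this
      rw [this]
      exact mem_map_of_mem hf'
    have h2 : f ∈ ((B β₀).map (B 0).mkQ).comap (B 0).mkQ := h1
    rwa [comap_map_mkQ, sup_eq_right.2 (hB (Nat.zero_le _))] at h2
  · obtain ⟨hpr, ⟨_, f, hf, rfl⟩, rfl⟩ := isAssociatedPrime_iff.1 hp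
    refine ⟨f, hf, fun h0 => hpr.ne_top ((Ideal.eq_top_iff_one _).2 ?_), fun r hr => ?_⟩
    · rw [mem_colon_singleton, mem_bot]
      exact (hz 1 f hf).2 (smul_mem _ _ h0)
    · rw [mem_colon_singleton, mem_bot] at hr
      exact (hz r f hf).1 hr
  · by_contra hne
    have h1 : r ∈ ⋃ p ∈ associatedPrimes R (N.map (B β₀).mkQ), (p : Set R) := by
      rw [biUnion_associatedPrimes_eq_zero_divisors]
      refine ⟨⟨(B β₀).mkQ f, mem_map_of_mem hf⟩, fun h0 => hne ?_, (hz r f hf).2 hrf⟩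
      simpa using (hz 1 f hf).1 (by rw [h0, smul_zero])
    obtain ⟨p, hp, h2⟩ := Set.mem_iUnion₂.1 h1
    exact hr p hp h2

variable {k K : Type*} [Field k] [CommRing K] [Algebra k K]

/-- A bigraded family of subquotients `F c b / G c b`, generated in bidegree zero under
multiplication by `T` (first degree) and `J` (second degree). -/
structure Bi (T J : Submodule k K) (F G : ℕ → ℕ → Submodule k K) : Prop where
  le : ∀ c b, G c b ≤ F c b
  tF : ∀ c b, T * F c b ≤ F (c + 1) b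
  jF : ∀ c b, J * F c b ≤ F c (b + 1)
  tG : ∀ c b, T * G c b ≤ G (c + 1) b
  jG : ∀ c b, J * G c b ≤ G c (b + 1)
  tS : ∀ c b, F (c + 1) b ≤ T * F c b ⊔ G (c + 1) b
  jS : ∀ b, F 0 (b + 1) ≤ J * F 0 b ⊔ G 0 (b + 1)
  fin : ∃ E : Submodule k K, E.FG ∧ E ≤ F 0 0 ∧ F 0 0 ≤ E ⊔ G 0 0

/-- Elements moved into `G` by `m` multiplications with elements of `J`. -/
def Gd (J : Submodule k K) (G : ℕ → ℕ → Submodule k K) : ℕ → ℕ → ℕ → Submodule k K
  | 0, c, b => G c b
  | m + 1, c, b => Gd J G m c (b + 1) / J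

variable {T J : Submodule k K} {F G : ℕ → ℕ → Submodule k K}

theorem mem_Gd_succ {m c b : ℕ} {x : K} :
    x ∈ Gd J G (m + 1) c b ↔ ∀ j ∈ J, x * j ∈ Gd J G m c (b + 1) :=
  Submodule.mem_div_iff_forall_mul_mem

theorem Bi.t_Gd (h : Bi T J F G) {t : K} (ht : t ∈ T) (m : ℕ) :
    ∀ c b x, x ∈ Gd J G m c b → t * x ∈ Gd J G m (c + 1) b := by
  induction m with
  | zero => exact fun c b x hx => h.tG c b (mul_mem_mul ht hx)
  | succ m ih =>
    intro c b x hx
    refine mem_Gd_succ.2 fun j hj => ?_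
    rw [mul_assoc]
    exact ih _ _ _ (mem_Gd_succ.1 hx j hj)

theorem Bi.Gd_le_succ (h : Bi T J F G) (m : ℕ) : ∀ c b, Gd J G m c b ≤ Gd J G (m + 1) c b := by
  induction m with
  | zero =>
    intro c b x hx
    refine mem_Gd_succ.2 fun j hj => ?_
    rw [mul_comm]
    exact h.jG c b (mul_mem_mul hj hx)
  | succ m ih =>
    intro c b x hx
    exact mem_Gd_succ.2 fun j hj => ih _ _ (mem_Gd_succ.1 hx j hj)

theorem Bi.Gd_mono (h : Bi T J F G) (c b : ℕ) : Monotone fun m => Gd J G m c b :=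
  monotone_nat_of_le_succ fun m => h.Gd_le_succ m c b

theorem Bi.j_Gd (h : Bi T J F G) {j : K} (hj : j ∈ J) (β c b : ℕ) {x : K}
    (hx : x ∈ Gd J G (β - b) c b) : j * x ∈ Gd J G (β - (b + 1)) c (b + 1) := by
  rcases le_or_gt β b with hb | hb
  · rw [Nat.sub_eq_zero_of_le hb] at hx
    rw [Nat.sub_eq_zero_of_le (hb.trans (Nat.le_succ b))]
    exact h.jG c b (mul_mem_mul hj hx)
  · obtain ⟨m, rfl⟩ := Nat.exists_eq_add_of_lt hb
    have e1 : b + m + 1 - b = m + 1 := by omega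
    have e2 : b + m + 1 - (b + 1) = m := by omega
    rw [e1] at hx
    rw [e2, mul_comm]
    exact mem_Gd_succ.1 hx j hj

/-- The coefficient of bidegree `(c, b)`. -/
noncomputable def cf (f : Polynomial (Polynomial K)) (c b : ℕ) : K := (f.coeff b).coeff c

/-- The monomial of bidegree `(c, b)`. -/
noncomputable def mo (c b : ℕ) (x : K) : Polynomial (Polynomial K) :=
  Polynomial.monomial b (Polynomial.monomial c x)

theorem cf_mo (c b : ℕ) (x : K) (c' b' : ℕ) :
    cf (mo c b x) c' b' = if c = c' ∧ b = b' then x else 0 := by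
  unfold cf mo
  rw [Polynomial.coeff_monomial]
  by_cases hb : b = b'
  · simp [hb, Polynomial.coeff_monomial]
  · simp [hb]

theorem mo_mul_mo (c b : ℕ) (x : K) (c' b' : ℕ) (y : K) :
    mo c b x * mo c' b' y = mo (c + c') (b + b') (x * y) := by
  simp [mo, Polynomial.monomial_mul_monomial]

theorem mo_add (c b : ℕ) (x y : K) : mo c b (x + y) = mo c b x + mo c b y := by simp [mo]

theorem mo_zero (c b : ℕ) : mo c b (0 : K) = 0 := by simp [mo]

theorem cf_add (f g : Polynomial (Polynomial K)) (c b : ℕ) :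
    cf (f + g) c b = cf f c b + cf g c b := by simp [cf]

theorem cf_zero (c b : ℕ) : cf (0 : Polynomial (Polynomial K)) c b = 0 := by simp [cf]

theorem cf_c_mul (x : K) (f : Polynomial (Polynomial K)) (c b : ℕ) :
    cf (mo 0 0 x * f) c b = x * cf f c b := by
  simp [cf, mo]

theorem cf_t_mul_zero (x : K) (f : Polynomial (Polynomial K)) (b : ℕ) :
    cf (mo 1 0 x * f) 0 b = 0 := by
  simp [cf, mo, ← Polynomial.C_mul_X_eq_monomial, mul_assoc]

theorem cf_t_mul_succ (x : K) (f : Polynomial (Polynomial K)) (c b : ℕ) :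
    cf (mo 1 0 x * f) (c + 1) b = x * cf f c b := by
  simp only [cf, mo, Polynomial.monomial_zero_left, Polynomial.coeff_C_mul]
  rw [← Polynomial.C_mul_X_eq_monomial, mul_assoc, Polynomial.coeff_C_mul, Polynomial.coeff_X_mul]

theorem cf_j_mul_zero (x : K) (f : Polynomial (Polynomial K)) (c : ℕ) :
    cf (mo 0 1 x * f) c 0 = 0 := by
  simp [cf, mo, ← Polynomial.C_mul_X_eq_monomial, mul_assoc]

theorem cf_j_mul_succ (x : K) (f : Polynomial (Polynomial K)) (c b : ℕ) :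
    cf (mo 0 1 x * f) c (b + 1) = x * cf f c b := by
  simp only [cf, mo, Polynomial.monomial_zero_left]
  rw [← Polynomial.C_mul_X_eq_monomial, mul_assoc, Polynomial.coeff_C_mul, Polynomial.coeff_X_mul,
    Polynomial.coeff_C_mul]

theorem mem_of_mo {S : AddSubmonoid (Polynomial (Polynomial K))} {f : Polynomial (Polynomial K)}
    (h : ∀ c b, mo c b (cf f c b) ∈ S) : f ∈ S := by
  rw [f.as_sum_support]
  refine sum_mem fun b _ => ?_
  rw [(f.coeff b).as_sum_support, map_sum]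
  exact sum_mem fun c _ => h c b

/-- The algebra generated by `T` in bidegree `(1, 0)` and `J` in bidegree `(0, 1)`. -/
noncomputable def Rg (T J : Submodule k K) : Subalgebra k (Polynomial (Polynomial K)) :=
  Algebra.adjoin k (mo 1 0 '' (T : Set K) ∪ mo 0 1 '' (J : Set K))

/-- `mo c b` as a linear map. -/
noncomputable def moL (k : Type*) [Field k] [Algebra k K] (c b : ℕ) :
    K →ₗ[k] Polynomial (Polynomial K) :=
  ((Polynomial.monomial b).restrictScalars k).comp ((Polynomial.monomial c).restrictScalars k)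

theorem moL_apply (c b : ℕ) (x : K) : moL k c b x = mo c b x := rfl

theorem Rg_noeth (hT : T.FG) (hJ : J.FG) : IsNoetherianRing (Rg T J) := by
  classical
  have h : (T.map (moL k 1 0) ⊔ J.map (moL k 0 1)).FG := (hT.map _).sup (hJ.map _)
  obtain ⟨s, hs⟩ := h
  have e : Rg T J = Algebra.adjoin k (s : Set _) := by
    rw [← Algebra.adjoin_span k (s := (s : Set (Polynomial (Polynomial K)))), hs]
    refine le_antisymm (Algebra.adjoin_mono ?_) (Algebra.adjoin_le ?_)
    · rintro _ (⟨x, hx, rfl⟩ | ⟨x, hx, rfl⟩)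
      · exact mem_sup_left (mem_map_of_mem hx)
      · exact mem_sup_right (mem_map_of_mem hx)
    · intro f hf
      obtain ⟨_, ⟨x, hx, rfl⟩, _, ⟨y, hy, rfl⟩, rfl⟩ := mem_sup.1 hf
      exact add_mem (Algebra.subset_adjoin (.inl ⟨x, hx, rfl⟩))
        (Algebra.subset_adjoin (.inr ⟨y, hy, rfl⟩))
  exact isNoetherianRing_of_fg ⟨s, e.symm⟩

/-- The module of bigraded sequences with values in `X`. -/
def Nm (T J : Submodule k K) (X : ℕ → ℕ → Submodule k K)
    (hT : ∀ t ∈ T, ∀ c b x, x ∈ X c b → t * x ∈ X (c + 1) b)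
    (hJ : ∀ j ∈ J, ∀ c b x, x ∈ X c b → j * x ∈ X c (b + 1)) :
    Submodule (Rg T J) (Polynomial (Polynomial K)) where
  carrier := {f | ∀ c b, cf f c b ∈ X c b}
  add_mem' hf hg c b := by rw [cf_add]; exact add_mem (hf c b) (hg c b)
  zero_mem' c b := by rw [cf_zero]; exact zero_mem _
  smul_mem' := by
    rintro ⟨r, hr⟩ f hf
    change ∀ c b, cf (r * f) c b ∈ X c b
    induction hr using Algebra.adjoin_induction generalizing f with
    | mem r hr =>
      rcases hr with ⟨t, ht, rfl⟩ | ⟨j, hj, rfl⟩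
      · rintro (_ | c) b
        · rw [cf_t_mul_zero]; exact zero_mem _
        · rw [cf_t_mul_succ]; exact hT t ht _ _ _ (hf c b)
      · rintro c (_ | b)
        · rw [cf_j_mul_zero]; exact zero_mem _
        · rw [cf_j_mul_succ]; exact hJ j hj _ _ _ (hf c b)
    | algebraMap a =>
      intro c b
      have : algebraMap k (Polynomial (Polynomial K)) a = mo 0 0 (algebraMap k K a) := by
        simp [mo, Polynomial.algebraMap_apply]
      rw [this, cf_c_mul, ← Algebra.smul_def]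
      exact smul_mem _ _ (hf c b)
    | add r s _ _ ihr ihs =>
      intro c b
      rw [add_mul, cf_add]
      exact add_mem (ihr hf c b) (ihs hf c b)
    | mul r s _ _ ihr ihs =>
      rw [mul_assoc]
      exact ihr (ihs hf)

theorem mem_Nm {X : ℕ → ℕ → Submodule k K} {hT hJ} {f : Polynomial (Polynomial K)} :
    f ∈ Nm T J X hT hJ ↔ ∀ c b, cf f c b ∈ X c b := Iff.rfl

theorem mo_mem_Nm {X : ℕ → ℕ → Submodule k K} {hT hJ} {c b : ℕ} {x : K} :
    mo c b x ∈ Nm T J X hT hJ ↔ x ∈ X c b := by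
  rw [mem_Nm]
  constructor
  · intro h
    simpa [cf_mo] using h c b
  · intro h c' b'
    rw [cf_mo]
    split_ifs with e
    · exact e.1 ▸ e.2 ▸ h
    · exact zero_mem _

/-- The module of the family `F`. -/
def Bi.NF (h : Bi T J F G) : Submodule (Rg T J) (Polynomial (Polynomial K)) :=
  Nm T J F (fun _ ht c b _ hx => h.tF c b (mul_mem_mul ht hx))
    fun _ hj c b _ hx => h.jF c b (mul_mem_mul hj hx)

/-- The sequences moved into `G` in the degrees at least `β`. -/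
def Bi.NB (h : Bi T J F G) (β : ℕ) : Submodule (Rg T J) (Polynomial (Polynomial K)) :=
  Nm T J (fun c b => Gd J G (β - b) c b) (fun _ ht c b x hx => h.t_Gd ht _ c b x hx)
    fun _ hj c b _ hx => h.j_Gd hj β c b hx

theorem Bi.NB_mono (h : Bi T J F G) : Monotone h.NB := fun _ _ e _ hf c b =>
  h.Gd_mono c b (Nat.sub_le_sub_right e b) (hf c b)

theorem Bi.mo_mem_NB (h : Bi T J F G) (β : ℕ) {c b : ℕ} {x : K} (hx : x ∈ G c b) :
    mo c b x ∈ h.NB β :=
  mo_mem_Nm.2 (h.Gd_mono c b (Nat.zero_le _) hx)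

theorem Bi.fg_map (h : Bi T J F G) : ∃ S, S.FG ∧ S ≤ h.NF ∧ h.NF ≤ S ⊔ h.NB 0 := by
  classical
  obtain ⟨E, ⟨s, rfl⟩, hE, hE'⟩ := h.fin
  set S : Submodule (Rg T J) (Polynomial (Polynomial K)) := span _ (mo 0 0 '' (s : Set K)) with hS
  have hmul : ∀ (A X : Submodule k K) (c b c' b' : ℕ), (∀ a ∈ A, mo c b a ∈ Rg T J) →
      (∀ x ∈ X, mo c' b' x ∈ S ⊔ h.NB 0) → ∀ y ∈ A * X, mo (c + c') (b + b') y ∈ S ⊔ h.NB 0 := by
    intro A X c b c' b' hA hX y hy
    refine Submodule.mul_induction_on hy (fun a ha x hx => ?_) fun y z hy hz => ?_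
    · rw [← mo_mul_mo]
      exact (S ⊔ h.NB 0).smul_mem ⟨_, hA a ha⟩ (hX x hx)
    · rw [mo_add]; exact add_mem hy hz
  have hsup : ∀ (X : Submodule k K) (c b : ℕ), (∀ x ∈ X, mo c b x ∈ S ⊔ h.NB 0) →
      ∀ y ∈ X ⊔ G c b, mo c b y ∈ S ⊔ h.NB 0 := by
    intro X c b hX y hy
    obtain ⟨x, hx, z, hz, rfl⟩ := mem_sup.1 hy
    rw [mo_add]
    exact add_mem (hX x hx) (mem_sup_right (h.mo_mem_NB 0 hz))
  have h00 : ∀ x ∈ F 0 0, mo 0 0 x ∈ S ⊔ h.NB 0 := fun x hx => by
    refine hsup _ 0 0 (fun y hy => mem_sup_left ?_) x (hE' hx)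
    have : span k (s : Set K) ≤ (S.restrictScalars k).comap (moL k 0 0) :=
      span_le.2 fun z hz => subset_span ⟨z, hz, rfl⟩
    exact this hy
  have h0 : ∀ b, ∀ x ∈ F 0 b, mo 0 b x ∈ S ⊔ h.NB 0 := by
    intro b
    induction b with
    | zero => exact h00
    | succ b ih =>
      intro x hx
      refine hsup _ 0 (b + 1) (fun y hy => ?_) x (h.jS b hx)
      have := hmul J _ 0 1 0 b (fun a ha => Algebra.subset_adjoin (.inr ⟨a, ha, rfl⟩)) ih y hy
      rwa [add_comm 1 b] at this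
  have h1 : ∀ c b, ∀ x ∈ F c b, mo c b x ∈ S ⊔ h.NB 0 := by
    intro c
    induction c with
    | zero => exact h0
    | succ c ih =>
      intro b x hx
      refine hsup _ (c + 1) b (fun y hy => ?_) x (h.tS c b hx)
      have := hmul T _ 1 0 c b (fun a ha => Algebra.subset_adjoin (.inl ⟨a, ha, rfl⟩)) (ih b) y hy
      rwa [add_comm 1 c, zero_add] at this
  refine ⟨S, fg_span (s.finite_toSet.image _), span_le.2 ?_, fun f hf =>
    mem_of_mo (S := (S ⊔ h.NB 0).toAddSubmonoid) fun c b => h1 c b _ (hf c b)⟩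
  rintro _ ⟨x, hx, rfl⟩
  exact mo_mem_Nm.2 (hE (subset_span hx))

theorem Bi.sat (h : Bi T J F G) {β₀ : ℕ} {f : Polynomial (Polynomial K)}
    (hf : ∀ j ∈ J, mo 0 1 j * f ∈ h.NB β₀) : ∃ β, β₀ ≤ β ∧ f ∈ h.NB β := by
  refine ⟨β₀ + f.natDegree + 1, by omega, fun c b => ?_⟩
  rcases le_or_gt b f.natDegree with hb | hb
  · have e : β₀ + f.natDegree + 1 - b = (β₀ + f.natDegree - b) + 1 := by omega
    change cf f c b ∈ Gd J G _ c b
    rw [e]
    refine mem_Gd_succ.2 fun j hj => ?_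
    have h1 : cf (mo 0 1 j * f) c (b + 1) ∈ Gd J G (β₀ - (b + 1)) c (b + 1) := hf j hj c (b + 1)
    rw [cf_j_mul_succ, mul_comm] at h1
    exact h.Gd_mono c (b + 1) (by omega) h1
  · have : cf f c b = 0 := by simp [cf, Polynomial.coeff_eq_zero_of_natDegree_lt hb]
    rw [this]
    exact zero_mem _

/-- `W` is injective from bidegree `(c, b)` to bidegree `(c, b + 1)` for `b ≥ b₀`. -/
def Inj (F G : ℕ → ℕ → Submodule k K) (W : K) (b₀ : ℕ) : Prop :=
  ∀ c b, b₀ ≤ b → ∀ x ∈ F c b, W * x ∈ G c (b + 1) → x ∈ G c b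

/-- Existence of superficial elements. -/
theorem Bi.exists_inj (h : Bi T J F G) (hT : T.FG) (hJ : J.FG) :
    ∃ (P : Set (Submodule k K)) (b₀ : ℕ), P.Finite ∧ (∀ p ∈ P, ¬ J ≤ p) ∧
      ∀ W ∈ J, (∀ p ∈ P, W ∉ p) → Inj F G W b₀ := by
  have := Rg_noeth hT hJ
  obtain ⟨S, s1, s2, s3⟩ := h.fg_map
  obtain ⟨β₀, P, hβ, hP, hP1, hP2⟩ :=
    core (R := Rg T J) (M := Polynomial (Polynomial K)) h.NB_mono s1 s2 s3
  let ι : Ideal (Rg T J) → Submodule k K := fun p =>
    ((p.restrictScalars k).map (Rg T J).val.toLinearMap).comap (moL k 0 1)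
  have hι : ∀ p (W : K) (hW : W ∈ J), W ∈ ι p ↔
      (⟨mo 0 1 W, Algebra.subset_adjoin (.inr ⟨W, hW, rfl⟩)⟩ : Rg T J) ∈ p := by
    intro p W hW
    constructor
    · rintro ⟨r, hr, e⟩
      have : r = ⟨mo 0 1 W, Algebra.subset_adjoin (.inr ⟨W, hW, rfl⟩)⟩ := Subtype.ext e
      exact this ▸ hr
    · exact fun hr => ⟨_, hr, rfl⟩
  refine ⟨ι '' P, β₀, hP.image _, ?_, ?_⟩
  · rintro _ ⟨p, hp, rfl⟩ hle
    obtain ⟨f, hf, hf0, hf1⟩ := hP1 p hp
    obtain ⟨β, e, hfβ⟩ := h.sat (β₀ := β₀) (f := f) fun j hj => by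
      have h1 := hf1 _ ((hι p j hj).1 (hle hj))
      rwa [Subalgebra.smul_def, smul_eq_mul] at h1
    exact hf0 (hβ β e f hf hfβ)
  · intro W hW hWP c b hb x hx hWx
    have h2 : mo c b x ∈ h.NB β₀ := by
      refine hP2 _ (fun p hp h2 => hWP _ ⟨p, hp, rfl⟩ ((hι p W hW).2 h2)) _ (mo_mem_Nm.2 hx) ?_
      rw [Subalgebra.smul_def, smul_eq_mul, mo_mul_mo, zero_add, add_comm 1 b]
      exact h.mo_mem_NB β₀ hWx
    have h3 : x ∈ Gd J G (β₀ - b) c b :=
      (mo_mem_Nm (X := fun c b => Gd J G (β₀ - b) c b)).1 h2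
    rwa [Nat.sub_eq_zero_of_le hb] at h3

end Pool.Agent.MP_19ffc6_ag.Res.Sup
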