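import Pool.Agent.MP_19ffc6_ag.Res.ADefs
import Pool.Agent.MP_19ffc6_ag.Res.Sup

/-! PROJECT RES, part A: numerical consequences of the existence of superficial elements. -/

namespace Pool.Agent.MP_19ffc6_ag.Res.PA.Num

open Submodule Pool.Agent.MP_19ffc6_ag.Res.Sup

variable {k K : Type} [Field k] [Field K] [Algebra k K]

theorem rank_le_of_ker {V A B : Type*} [AddCommGroup V] [Module k V] [AddCommGroup A] [Module k A]
    [AddCommGroup B] [Module k B] (φ : V →ₗ[k] A) (ψ : V →ₗ[k] B)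
    (h : LinearMap.ker φ ≤ LinearMap.ker ψ) (hφ : (LinearMap.range φ).FG) :
    (LinearMap.range ψ).FG ∧
      Module.finrank k (LinearMap.range ψ) ≤ Module.finrank k (LinearMap.range φ) := by
  have : Module.Finite k (LinearMap.range φ) := Module.Finite.iff_fg.2 hφ
  let f : LinearMap.range φ →ₗ[k] LinearMap.range ψ :=
    (ψ.quotKerEquivRange.toLinearMap.comp (factor h)).comp φ.quotKerEquivRange.symm.toLinearMap
  have hf : Function.Surjective f :=
    (ψ.quotKerEquivRange.surjective.comp (factor_surjective h)).comp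
      φ.quotKerEquivRange.symm.surjective
  exact ⟨Module.Finite.iff_fg.1 (Module.Finite.of_surjective f hf),
    LinearMap.finrank_le_finrank_of_surjective hf⟩

/-- Multiplication by `W` embeds `P / Q` into `P' / Q'`. -/
theorem cod_le_of_inj {P Q P' Q' : Submodule k K} (W : K) (h1 : ∀ x ∈ P, W * x ∈ P')
    (h2 : ∀ x ∈ P, W * x ∈ Q' → x ∈ Q) (hf : Fd P' Q') : Fd P Q ∧ cod P Q ≤ cod P' Q' := by
  let φ : P →ₗ[k] K ⧸ Q' := Q'.mkQ.comp ((LinearMap.mulLeft k W).comp P.subtype)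
  let ψ : P →ₗ[k] K ⧸ Q := Q.mkQ.comp P.subtype
  have e : LinearMap.range ψ = P.map Q.mkQ := by
    rw [LinearMap.range_comp, range_subtype]
  have hle : LinearMap.range φ ≤ P'.map Q'.mkQ := by
    rintro _ ⟨x, rfl⟩
    exact mem_map_of_mem (h1 x x.2)
  have : Module.Finite k (P'.map Q'.mkQ) := Module.Finite.iff_fg.2 hf
  have h := rank_le_of_ker φ ψ (fun x hx => by
    rw [LinearMap.mem_ker] at hx ⊢
    exact (Quotient.mk_eq_zero _).2 (h2 x x.2 ((Quotient.mk_eq_zero _).1 hx)))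
    (Module.Finite.iff_fg.1 (finiteDimensional_of_le hle))
  rw [e] at h
  exact ⟨h.1, h.2.trans (finrank_mono hle)⟩

theorem cod_mono {P Q P' Q' : Submodule k K} (h1 : P ≤ P') (h2 : ∀ x ∈ P, x ∈ Q' → x ∈ Q)
    (hf : Fd P' Q') : Fd P Q ∧ cod P Q ≤ cod P' Q' :=
  cod_le_of_inj 1 (fun x hx => by simpa using h1 hx) (fun x hx h => h2 x hx (by simpa using h)) hf

/-- Additivity of the codimension. -/
theorem cod_add {P Q R : Submodule k K} (h : R ≤ P) (hf : Fd P Q) :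
    cod P (Q ⊔ R) + cod R Q = cod P Q := by
  have : Module.Finite k (P.map Q.mkQ) := Module.Finite.iff_fg.2 hf
  let f : P.map Q.mkQ →ₗ[k] K ⧸ (Q ⊔ R) := (factor le_sup_left).comp (P.map Q.mkQ).subtype
  have e1 : LinearMap.range f = P.map (Q ⊔ R).mkQ := by
    rw [LinearMap.range_comp, range_subtype, ← map_comp, factor_comp_mk]
  have e2 : LinearMap.ker f = (R.map Q.mkQ).comap (P.map Q.mkQ).subtype := by
    ext ⟨_, x, hx, rfl⟩
    change (Q ⊔ R).mkQ x = 0 ↔ x ∈ (R.map Q.mkQ).comap Q.mkQ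
    rw [comap_map_mkQ, mkQ_apply, Quotient.mk_eq_zero]
  have h3 := f.finrank_range_add_finrank_ker
  rw [e1, e2, (comapSubtypeEquivOfLe (map_mono h)).finrank_eq] at h3
  exact h3

theorem mem_pr_mul {W y : K} {X : Submodule k K} : y ∈ pr k W * X ↔ ∃ x ∈ X, W * x = y :=
  Submodule.mem_span_singleton_mul

theorem cod_pr_mul {P Q Q' : Submodule k K} (W : K) (h1 : ∀ x ∈ Q, W * x ∈ Q')
    (h2 : ∀ x ∈ P, W * x ∈ Q' → x ∈ Q) (hf : Fd P Q) : cod (pr k W * P) Q' = cod P Q := by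
  let φ : P →ₗ[k] K ⧸ Q' := Q'.mkQ.comp ((LinearMap.mulLeft k W).comp P.subtype)
  let ψ : P →ₗ[k] K ⧸ Q := Q.mkQ.comp P.subtype
  have e : LinearMap.range ψ = P.map Q.mkQ := by
    rw [LinearMap.range_comp, range_subtype]
  have e' : LinearMap.range φ = (pr k W * P).map Q'.mkQ := by
    refine le_antisymm ?_ ?_
    · rintro _ ⟨x, rfl⟩
      exact mem_map_of_mem (mem_pr_mul.2 ⟨x, x.2, rfl⟩)
    · rintro _ ⟨y, hy, rfl⟩
      obtain ⟨x, hx, rfl⟩ := mem_pr_mul.1 hy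
      exact ⟨⟨x, hx⟩, rfl⟩
  have a1 := rank_le_of_ker ψ φ (fun x hx => by
    rw [LinearMap.mem_ker] at hx ⊢
    exact (Quotient.mk_eq_zero _).2 (h1 x ((Quotient.mk_eq_zero _).1 hx))) (e ▸ hf)
  have a2 := rank_le_of_ker φ ψ (fun x hx => by
    rw [LinearMap.mem_ker] at hx ⊢
    exact (Quotient.mk_eq_zero _).2 (h2 x x.2 ((Quotient.mk_eq_zero _).1 hx))) a1.1
  rw [e, e'] at a1 a2
  exact le_antisymm a1.2 a2.2

theorem fd_of_le {P Q E : Submodule k K} (hE : E.FG) (h : P ≤ E ⊔ Q) : Fd P Q := by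
  have : Module.Finite k (E.map Q.mkQ) := Module.Finite.iff_fg.2 (hE.map _)
  refine Module.Finite.iff_fg.1 (finiteDimensional_of_le (S₂ := E.map Q.mkQ) ?_)
  rw [map_le_iff_le_comap, comap_map_mkQ, sup_comm]
  exact h

/-- A vector of `J` outside finitely many subspaces that do not contain `J`. -/
theorem exists_avoid [Infinite k] {J : Submodule k K} {P : Set (Submodule k K)} (hP : P.Finite)
    (h : ∀ p ∈ P, ¬ J ≤ p) : ∃ W ∈ J, ∀ p ∈ P, W ∉ p := by
  have := hP.to_subtype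
  obtain ⟨W, hW⟩ := Submodule.exists_forall_notMem_of_forall_ne_top
    (fun p : P => (p : Submodule k K).comap J.subtype) fun p e => h p p.2 fun x hx => by
      have : (⟨x, hx⟩ : J) ∈ (p : Submodule k K).comap J.subtype := e ▸ mem_top
      exact this
  exact ⟨W, W.2, fun p hp => hW ⟨p, hp⟩⟩

/-- A family of `k[T]`-modules generated by a finitely generated one under multiplication
by `J`. -/
structure Fam (T J : Submodule k K) (M : ℕ → Submodule k K) : Prop where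
  tfg : T.FG
  jfg : J.FG
  le : ∀ b, T * M b ≤ M b
  succ : ∀ b, M (b + 1) = J * M b
  fin : ∃ E : Submodule k K, E.FG ∧ E ≤ M 0 ∧ M 0 ≤ E ⊔ T * M 0

theorem one_mem_alg (T : Submodule k K) : (1 : K) ∈ alg T := (Algebra.adjoin k (T : Set K)).one_mem

theorem alg_le (T : Submodule k K) : alg T ≤ 1 ⊔ T * alg T := by
  have hT : T * alg T ≤ alg T := mul_le.2 fun _ hx _ hy =>
    (Algebra.adjoin k (T : Set K)).mul_mem (Algebra.subset_adjoin hx) hy
  have hm : ∀ x ∈ T * alg T, ∀ y ∈ alg T, x * y ∈ T * alg T := fun x hx y hy => by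
    have : T * alg T * alg T ≤ T * alg T := by
      rw [mul_assoc]
      exact mul_le_mul_right (mul_le.2 fun _ hx _ hy =>
        (Algebra.adjoin k (T : Set K)).mul_mem hx hy) _
    exact this (mul_mem_mul hx hy)
  intro x hx
  induction hx using Algebra.adjoin_induction with
  | mem x hx =>
    refine mem_sup_right ?_
    simpa using mul_mem_mul hx (one_mem_alg T)
  | algebraMap a => exact mem_sup_left (algebraMap_mem a)
  | add x y _ _ hx hy => exact add_mem hx hy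
  | mul x y _ hy' hx hy =>
    obtain ⟨a, ha, z, hz, rfl⟩ := mem_sup.1 hx
    obtain ⟨c, rfl⟩ := mem_one.1 ha
    rw [add_mul, ← Algebra.smul_def]
    exact add_mem (smul_mem _ _ hy) (mem_sup_right (hm z hz y hy'))

theorem fam_Mb {T J MM : Submodule k K} (hT : T.FG) (hJ : J.FG) (hM : MM.FG) :
    Fam T J (Mb T J MM) where
  tfg := hT
  jfg := hJ
  le b := by
    unfold Mb
    rw [← mul_assoc]
    exact mul_le_mul_left (mul_le.2 fun _ hx _ hy =>
      (Algebra.adjoin k (T : Set K)).mul_mem (Algebra.subset_adjoin hx) hy) _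
  succ b := by unfold Mb; ring
  fin := by
    refine ⟨MM, hM, fun x hx => ?_, ?_⟩
    · simpa [Mb] using mul_mem_mul (one_mem_alg T) hx
    · unfold Mb
      rw [pow_zero, mul_one]
      refine (mul_le_mul_left (alg_le T) _).trans ?_
      rw [Submodule.sup_mul, one_mul, mul_assoc]

variable {T J : Submodule k K} {M : ℕ → Submodule k K}

theorem Fam.pow_succ_le (h : Fam T J M) (c b : ℕ) : T ^ (c + 1) * M b ≤ T ^ c * M b := by
  rw [pow_succ, mul_assoc]
  exact mul_le_mul_right (h.le b) _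

theorem Fam.anti (h : Fam T J M) (b : ℕ) : Antitone fun c => T ^ c * M b :=
  antitone_nat_of_succ_le fun c => h.pow_succ_le c b

theorem Fam.pow_le (h : Fam T J M) (c b : ℕ) : T ^ c * M b ≤ M b := by
  simpa using h.anti b (Nat.zero_le c)

theorem Fam.fin' (h : Fam T J M) (b : ℕ) :
    ∃ E : Submodule k K, E.FG ∧ E ≤ M b ∧ M b ≤ E ⊔ T * M b := by
  induction b with
  | zero => exact h.fin
  | succ b ih =>
    obtain ⟨E, h1, h2, h3⟩ := ih
    refine ⟨J * E, h.jfg.mul h1, ?_, ?_⟩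
    · rw [h.succ]; exact mul_le_mul_right h2 _
    · rw [h.succ]
      refine (mul_le_mul_right h3 _).trans ?_
      rw [Submodule.mul_sup, mul_left_comm]

theorem Fam.fd (h : Fam T J M) (b L : ℕ) : Fd (M b) (T ^ L * M b) := by
  obtain ⟨E, h1, -, h3⟩ := h.fin' b
  suffices ∃ E' : Submodule k K, E'.FG ∧ M b ≤ E' ⊔ T ^ L * M b by
    obtain ⟨E', e1, e2⟩ := this
    exact fd_of_le e1 e2
  induction L with
  | zero => exact ⟨⊥, fg_bot, by simp⟩
  | succ L ih =>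
    obtain ⟨E', e1, e2⟩ := ih
    refine ⟨E' ⊔ T ^ L * E, e1.sup ((h.tfg.pow L).mul h1), e2.trans ?_⟩
    rw [sup_assoc]
    refine sup_le_sup_left ((mul_le_mul_right h3 _).trans ?_) _
    rw [Submodule.mul_sup, pow_succ, mul_assoc]

theorem Fam.fd' (h : Fam T J M) {b L : ℕ} {P Q : Submodule k K} (hP : P ≤ M b)
    (hQ : T ^ L * M b ≤ Q) : Fd P Q :=
  (cod_mono hP (fun _ _ hx => hQ hx) (h.fd b L)).1

theorem Fam.bi (h : Fam T J M) :
    Bi T J (fun c b => T ^ c * M b) fun c b => T ^ (c + 1) * M b where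
  le c b := h.pow_succ_le c b
  tF c b := le_of_eq (by ring)
  jF c b := le_of_eq (by rw [h.succ]; ring)
  tG c b := le_of_eq (by ring)
  jG c b := le_of_eq (by rw [h.succ]; ring)
  tS c b := le_sup_of_le_left (le_of_eq (by ring))
  jS b := le_sup_of_le_left (le_of_eq (by rw [h.succ]; ring))
  fin := by simpa using h.fin

theorem Fam.bi_swap (h : Fam T J M) :
    Bi J T (fun b c => T ^ c * M b) fun b c => T ^ (c + 1) * M b where
  le b c := h.pow_succ_le c b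
  tF b c := le_of_eq (by rw [h.succ]; ring)
  jF b c := le_of_eq (by ring)
  tG b c := le_of_eq (by rw [h.succ]; ring)
  jG b c := le_of_eq (by ring)
  tS b c := le_sup_of_le_left (le_of_eq (by rw [h.succ]; ring))
  jS c := le_sup_of_le_left (le_of_eq (by ring))
  fin := by simpa using h.fin

theorem Fam.bi_quot (h : Fam T J M) {W : K} (hW : W ∈ J) :
    Bi T J (fun c b => T ^ c * M (b + 1))
      fun c b => T ^ (c + 1) * M (b + 1) ⊔ pr k W * (T ^ c * M b) where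
  le c b := sup_le (h.pow_succ_le c _) (by
    rw [h.succ, mul_left_comm (T ^ c)]
    exact mul_le_mul_left ((span_singleton_le_iff_mem _ _).2 hW) _)
  tF c b := le_of_eq (by ring)
  jF c b := le_of_eq (by rw [h.succ (b + 1)]; ring)
  tG c b := le_of_eq (by rw [Submodule.mul_sup]; congr 1 <;> ring)
  jG c b := le_of_eq (by
    rw [Submodule.mul_sup]
    congr 1
    · rw [h.succ (b + 1)]; ring
    · rw [h.succ b]; ring)
  tS c b := le_sup_of_le_left (le_of_eq (by ring))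
  jS b := le_sup_of_le_left (le_of_eq (by rw [h.succ (b + 1)]; ring))
  fin := by
    obtain ⟨E, h1, h2, h3⟩ := h.fin' 1
    refine ⟨E, h1, by simpa using h2, ?_⟩
    rw [← sup_assoc]
    exact le_sup_of_le_left (by simpa using h3)

/-- `W` maps `M b` to `M (b + 1)` and is injective on all graded pieces for `b ≥ b₀`. -/
structure SupW (T : Submodule k K) (M : ℕ → Submodule k K) (W : K) (b₀ : ℕ) : Prop where
  mem : ∀ b, ∀ x ∈ M b, W * x ∈ M (b + 1)
  inj : Inj (fun c b => T ^ c * M b) (fun c b => T ^ (c + 1) * M b) W b₀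

theorem mul_mem_pow_mul {W : K} {A X Y : Submodule k K} (h : ∀ x ∈ X, W * x ∈ Y) {x : K}
    (hx : x ∈ A * X) : W * x ∈ A * Y := by
  refine Submodule.mul_induction_on hx (fun a ha y hy => ?_) fun y z hy hz => ?_
  · rw [mul_left_comm]; exact mul_mem_mul ha (h y hy)
  · rw [mul_add]; exact add_mem hy hz

/-- Only the class of `W` modulo `T` matters. -/
theorem SupW.congr (h : Fam T J M) {W W' : K} {b₀ : ℕ} (hW : SupW T M W b₀) {u : k} (hu : u ≠ 0)
    (hW' : ∀ b, ∀ x ∈ M b, (W' - u • W) * x ∈ T * M (b + 1)) : SupW T M W' b₀ where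
  mem b x hx := by
    have e : W' * x = (W' - u • W) * x + u • (W * x) := by
      rw [sub_mul, smul_mul_assoc, sub_add_cancel]
    rw [e]
    exact add_mem (h.le _ (hW' b x hx)) (smul_mem _ _ (hW.mem b x hx))
  inj c b hb x hx h1 := by
    refine hW.inj c b hb x hx ((smul_mem_iff _ hu).1 ?_)
    have h2 := mul_mem_pow_mul (hW' b) hx
    rw [← mul_assoc, ← pow_succ] at h2
    have e : u • (W * x) = W' * x - (W' - u • W) * x := by
      rw [sub_mul, smul_mul_assoc, sub_sub_cancel]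
    rw [e]
    exact sub_mem h1 h2

theorem SupW.inj' (h : Fam T J M) {W : K} {b₀ : ℕ} (hW : SupW T M W b₀) {b : ℕ} (hb : b₀ ≤ b)
    (L : ℕ) : ∀ x ∈ M b, W * x ∈ T ^ L * M (b + 1) → x ∈ T ^ L * M b := by
  intro x hx
  induction L with
  | zero => exact fun _ => by simpa using hx
  | succ L ih => exact fun h1 => hW.inj L b hb x (ih (h.pow_succ_le L _ h1)) h1

/-- The Hilbert-Samuel function. -/
noncomputable def lam (T : Submodule k K) (M : ℕ → Submodule k K) (b L : ℕ) : ℕ :=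
  cod (M b) (T ^ L * M b)

theorem SupW.cod_add (h : Fam T J M) {W : K} {b₀ : ℕ} (hW : SupW T M W b₀) {b : ℕ} (hb : b₀ ≤ b)
    (L : ℕ) :
    cod (M (b + 1)) (T ^ L * M (b + 1) ⊔ pr k W * M b) + lam T M b L = lam T M (b + 1) L := by
  unfold lam
  rw [← cod_pr_mul W (fun x hx => mul_mem_pow_mul (hW.mem b) hx) (hW.inj' h hb L) (h.fd b L)]
  refine Num.cod_add (fun y hy => ?_) (h.fd _ _)
  obtain ⟨x, hx, rfl⟩ := mem_pr_mul.1 hy
  exact hW.mem b x hx

theorem Fam.exists_supW (h : Fam T J M) :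
    ∃ (P : Set (Submodule k K)) (b₀ : ℕ), P.Finite ∧ (∀ p ∈ P, ¬ J ≤ p) ∧
      ∀ W ∈ J, (∀ p ∈ P, W ∉ p) → SupW T M W b₀ := by
  obtain ⟨P, b₀, h1, h2, h3⟩ := h.bi.exists_inj h.tfg h.jfg
  exact ⟨P, b₀, h1, h2, fun W hW hP =>
    ⟨fun b x hx => by rw [h.succ]; exact mul_mem_mul hW hx, h3 W hW hP⟩⟩

/-- The Hilbert-Samuel function is eventually increasing and convex in `b`. -/
theorem Fam.convex [Infinite k] (h : Fam T J M) :
    ∃ b₁, ∀ b, b₁ ≤ b → ∀ L, lam T M b L ≤ lam T M (b + 1) L ∧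
      2 * lam T M (b + 1) L ≤ lam T M b L + lam T M (b + 2) L := by
  obtain ⟨P, b₀, h1, h2, h3⟩ := h.exists_supW
  obtain ⟨W, hW, hP⟩ := exists_avoid h1 h2
  have hs := h3 W hW hP
  obtain ⟨P', b₁, g1, g2, g3⟩ := (h.bi_quot hW).exists_inj h.tfg h.jfg
  obtain ⟨W', hW', hP'⟩ := exists_avoid g1 g2
  have hi := g3 W' hW' hP'
  refine ⟨b₀ + b₁, fun b hb L => ?_⟩
  have e1 := hs.cod_add h (b := b) (by omega) L
  have e2 := hs.cod_add h (b := b + 1) (by omega) L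
  have hJ : ∀ b, ∀ x ∈ M b, W' * x ∈ M (b + 1) := fun b x hx => by
    rw [h.succ]; exact mul_mem_mul hW' hx
  have e3 : cod (M (b + 1)) (T ^ L * M (b + 1) ⊔ pr k W * M b) ≤
      cod (M (b + 1 + 1)) (T ^ L * M (b + 1 + 1) ⊔ pr k W * M (b + 1)) := by
    refine (cod_le_of_inj W' (hJ _) (fun x hx hx' => ?_) (h.fd' le_rfl le_sup_left)).2
    obtain ⟨r, hr, _, hz₀, e⟩ := mem_sup.1 hx'
    obtain ⟨z, hz, rfl⟩ := mem_pr_mul.1 hz₀
    suffices ∀ c ≤ L, x ∈ T ^ c * M (b + 1) ⊔ pr k W * M b from this L le_rfl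
    intro c hc
    induction c with
    | zero => exact mem_sup_left (by simpa using hx)
    | succ c ih =>
      obtain ⟨x', hx₁, _, hy₀, rfl⟩ := mem_sup.1 (ih (by omega))
      obtain ⟨y, hy, rfl⟩ := mem_pr_mul.1 hy₀
      have e4 : W' * x' = r + W * (z - W' * y) := by linear_combination -e
      have h5 : z - W' * y ∈ T ^ c * M (b + 1) := by
        refine hs.inj' h (by omega) c _ (sub_mem hz (hJ b y hy)) ?_
        rw [← sub_eq_iff_eq_add'.2 e4]
        exact sub_mem (mul_mem_pow_mul (hJ _) hx₁) (h.anti _ (by omega : c ≤ L) hr)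
      have h6 := hi c b (by omega) x' hx₁ (by
        rw [e4]
        exact add_mem (mem_sup_left (h.anti _ hc hr)) (mem_sup_right (mem_pr_mul.2 ⟨_, h5, rfl⟩)))
      refine add_mem ?_ (mem_sup_right (mem_pr_mul.2 ⟨y, hy, rfl⟩))
      exact sup_le_sup_left (mul_le_mul_right (h.pow_le c b) _) _ h6
  change _ ∧ _ ≤ _ + lam T M (b + 1 + 1) L
  omega

theorem convex_bound {f : ℕ → ℕ} {b : ℕ}
    (h : ∀ a, b ≤ a → f a ≤ f (a + 1) ∧ 2 * f (a + 1) ≤ f a + f (a + 2)) (i : ℕ) :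
    f (b + 1) - f b ≤ f (b + i + 1) - f (b + i) ∧ f b + i * (f (b + 1) - f b) ≤ f (b + i) := by
  induction i with
  | zero => simp
  | succ i ih =>
    have h1 := h (b + i) (by omega)
    rw [← add_assoc, Nat.succ_mul]
    change _ ≤ f (b + i + 2) - _ ∧ _
    omega

/-- Bounds by the diagonal Hilbert-Samuel function. -/
theorem Fam.diag [Infinite k] (h : Fam T J M) :
    ∃ b₁, ∀ b, b₁ ≤ b → ∀ b', b ≤ b' → ∀ L, lam T M b L ≤ lam T M b' L ∧
      ∀ W b₀, SupW T M W b₀ → b₀ ≤ b →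
        (b' - b) * cod (M (b + 1)) (T ^ L * M (b + 1) ⊔ pr k W * M b) ≤ lam T M b' L := by
  obtain ⟨b₁, h1⟩ := h.convex
  refine ⟨b₁, fun b hb b' hb' L => ?_⟩
  obtain ⟨i, rfl⟩ := Nat.exists_eq_add_of_le hb'
  have h2 := (convex_bound (f := fun a => lam T M a L) (b := b)
    (fun a ha => h1 a (hb.trans ha) L) i).2
  refine ⟨by omega, fun W b₀ hW h0 => ?_⟩
  have h3 := hW.cod_add h h0 L
  rw [Nat.add_sub_cancel_left, Nat.eq_sub_of_add_eq h3]
  omega

/-- `l` lies in `T` and is injective on all graded pieces of degree `c ≥ c₀`. -/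
structure SupL (T : Submodule k K) (M : ℕ → Submodule k K) (l : K) (c₀ : ℕ) : Prop where
  mem : l ∈ T
  inj : ∀ b c, c₀ ≤ c → ∀ x ∈ T ^ c * M b, l * x ∈ T ^ (c + 1 + 1) * M b → x ∈ T ^ (c + 1) * M b

theorem Fam.exists_supL (h : Fam T J M) :
    ∃ (P : Set (Submodule k K)) (c₀ : ℕ), P.Finite ∧ (∀ p ∈ P, ¬ T ≤ p) ∧
      ∀ l ∈ T, (∀ p ∈ P, l ∉ p) → SupL T M l c₀ := by
  obtain ⟨P, c₀, h1, h2, h3⟩ := h.bi_swap.exists_inj h.jfg h.tfg
  exact ⟨P, c₀, h1, h2, fun l hl hP => ⟨hl, h3 l hl hP⟩⟩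

theorem SupL.mul_mem {l : K} {c₀ : ℕ} (hl : SupL T M l c₀) {b c : ℕ} {x : K}
    (hx : x ∈ T ^ c * M b) : l * x ∈ T ^ (c + 1) * M b := by
  rw [pow_succ', mul_assoc]
  exact mul_mem_mul hl.mem hx

theorem Fam.lam_succ (h : Fam T J M) (b c : ℕ) :
    lam T M b c + cod (T ^ c * M b) (T ^ (c + 1) * M b) = lam T M b (c + 1) := by
  have := cod_add (h.pow_le c b) (h.fd b (c + 1))
  rwa [sup_eq_right.2 (h.pow_succ_le c b)] at this

theorem SupL.bound (h : Fam T J M) {l : K} {c₀ : ℕ} (hl : SupL T M l c₀) (b : ℕ) {c : ℕ}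
    (hc : c₀ ≤ c) (i : ℕ) :
    cod (T ^ c * M b) (T ^ (c + 1) * M b) ≤ cod (T ^ (c + i) * M b) (T ^ (c + i + 1) * M b) ∧
      lam T M b c + i * cod (T ^ c * M b) (T ^ (c + 1) * M b) ≤ lam T M b (c + i) := by
  induction i with
  | zero => simp
  | succ i ih =>
    have h1 := h.lam_succ b (c + i)
    have h2 := (cod_le_of_inj l (fun x hx => hl.mul_mem hx) (hl.inj b (c + i) (by omega))
      (h.fd' (h.pow_le _ b) le_rfl)).2
    rw [← add_assoc, Nat.succ_mul]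
    omega

theorem SupL.cod_le (h : Fam T J M) {l : K} {c₀ : ℕ} (hl : SupL T M l c₀) (b : ℕ) {c : ℕ}
    (hc : c₀ ≤ c) : cod (M b) (T ^ (c + 1) * M b ⊔ pr k l * M b) ≤
      cod (T ^ c * M b) (T ^ (c + 1) * M b) + lam T M b c₀ := by
  have hm : ∀ x ∈ M b, l * x ∈ M b := fun x hx => h.le b (mul_mem_mul hl.mem hx)
  have hle : pr k l * M b ≤ M b := fun y hy => by
    obtain ⟨x, hx, rfl⟩ := mem_pr_mul.1 hy
    exact hm x hx
  have e1 := cod_add hle (h.fd b (c + 1))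
  have e2 : cod (T ^ c₀ * M b) (T ^ c * M b) ≤ cod (pr k l * M b) (T ^ (c + 1) * M b) := by
    refine (cod_le_of_inj l (fun x hx => mem_pr_mul.2 ⟨x, h.pow_le _ _ hx, rfl⟩)
      (fun x hx hx' => ?_) (h.fd' hle le_rfl)).2
    suffices ∀ i, c₀ + i ≤ c → x ∈ T ^ (c₀ + i) * M b by
      obtain ⟨i, rfl⟩ := Nat.exists_eq_add_of_le hc
      exact this i le_rfl
    intro i hi
    induction i with
    | zero => exact hx
    | succ i ih =>
      exact hl.inj b (c₀ + i) (by omega) x (ih (by omega)) (h.anti b (by omega) hx')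
  have e3 := cod_add (h.pow_le c₀ b) (h.fd b c)
  rw [sup_eq_right.2 (show T ^ c * M b ≤ T ^ c₀ * M b from h.anti b hc)] at e3
  have e4 := h.lam_succ b c
  unfold lam at *
  omega

theorem half_bound {q i L μ e : ℕ} (hL : 0 < L) (hi : L ≤ 2 * i) (h : i * q ≤ μ * L ^ (e + 1)) :
    q ≤ 2 * μ * L ^ e := by
  refine Nat.le_of_mul_le_mul_left ?_ hL
  calc L * q ≤ 2 * i * q := Nat.mul_le_mul_right _ hi
    _ = 2 * (i * q) := by ring
    _ ≤ 2 * (μ * L ^ (e + 1)) := Nat.mul_le_mul_left _ h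
    _ = L * (2 * μ * L ^ e) := by ring

/-- All numerical bounds, at one and the same `L`. -/
theorem Fam.num [Infinite k] (h : Fam T J M) :
    ∃ (P P' : Set (Submodule k K)) (b₀ : ℕ), P.Finite ∧ (∀ p ∈ P, ¬ J ≤ p) ∧ P'.Finite ∧
      (∀ p ∈ P', ¬ T ≤ p) ∧ ∀ b, b₀ ≤ b → ∃ C : ℕ, ∀ μ e L : ℕ, 2 * b < L →
        lam T M L L ≤ μ * L ^ (e + 1) → lam T M b L ≤ μ * L ^ (e + 1) ∧
        (∀ W ∈ J, (∀ p ∈ P, W ∉ p) → ∀ u : k, u ≠ 0 → ∀ W' : K,
          (∀ b, ∀ x ∈ M b, (W' - u • W) * x ∈ T * M (b + 1)) →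
          cod (M (b + 1)) (T ^ L * M (b + 1) ⊔ pr k W' * M b) ≤ 2 * μ * L ^ e) ∧
        ∀ l ∈ T, (∀ p ∈ P', l ∉ p) → ∀ c, 2 * c ≤ L + 2 →
          cod (M b) (T ^ c * M b ⊔ pr k l * M b) ≤ 2 * μ * L ^ e + C := by
  obtain ⟨P, b₀, h1, h2, h3⟩ := h.exists_supW
  obtain ⟨P', c₀, g1, g2, g3⟩ := h.exists_supL
  obtain ⟨b₁, h4⟩ := h.diag
  refine ⟨P, P', b₀ + b₁, h1, h2, g1, g2, fun b hb => ⟨lam T M b c₀, fun μ e L hL hs => ?_⟩⟩
  obtain ⟨h5, h6⟩ := h4 b (by omega) L (by omega) L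
  refine ⟨h5.trans hs, fun W hW hP u hu W' hW' => ?_, fun l hl hP c hc => ?_⟩
  · exact half_bound (by omega) (by omega)
      ((h6 W' b₀ ((h3 W hW hP).congr h hu hW') (by omega)).trans hs)
  · rcases le_or_gt c c₀ with hc' | hc'
    · refine le_add_left (cod_mono le_rfl (fun x _ hx => mem_sup_left (h.anti b hc' hx))
        (h.fd b c₀)).2
    · obtain ⟨c, rfl⟩ := Nat.exists_eq_add_one_of_ne_zero (show c ≠ 0 by omega)
      refine ((g3 l hl hP).cod_le h b (by omega)).trans (Nat.add_le_add_right ?_ _)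
      have h7 := ((g3 l hl hP).bound h b (show c₀ ≤ c by omega) (L - c)).2
      rw [Nat.add_sub_cancel' (by omega)] at h7
      exact half_bound (i := L - c) (by omega) (by omega) (by omega)

/-- The numerical bounds in terms of growth. -/
theorem sm_gr [Infinite k] {T J MM : Submodule k K} (hT : T.FG) (hJ : J.FG) (hM : MM.FG) :
    ∃ (P P' : Set (Submodule k K)) (b₀ : ℕ), P.Finite ∧ (∀ p ∈ P, ¬ J ≤ p) ∧ P'.Finite ∧
      (∀ p ∈ P', ¬ T ≤ p) ∧ ∀ b, b₀ ≤ b → ∀ μ e : ℕ, Sm (e + 1) μ T J MM →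
        Gr (e + 1) μ T (Mb T J MM b) ⊥ ∧
        (∀ W ∈ J, (∀ p ∈ P, W ∉ p) → ∀ u : k, u ≠ 0 → ∀ W' : K,
          (∀ b, ∀ x ∈ Mb T J MM b, (W' - u • W) * x ∈ T * Mb T J MM (b + 1)) →
          Gr e (2 * μ) T (Mb T J MM (b + 1)) (pr k W' * Mb T J MM b)) ∧
        ∀ l ∈ T, (∀ p ∈ P', l ∉ p) → 0 < e →
          Gr e (2 ^ (e + 1) * μ + 1) T (Mb T J MM b) (pr k l * Mb T J MM b) := by
  obtain ⟨P, P', b₀, h1, h2, h3, h4, h5⟩ := (fam_Mb hT hJ hM).num
  refine ⟨P, P', b₀, h1, h2, h3, h4, fun b hb μ e hs => ?_⟩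
  obtain ⟨C, hC⟩ := h5 b hb
  have hs' := hs.and_eventually (Filter.eventually_gt_atTop (2 * b))
  refine ⟨hs'.mono fun L hL => ?_, fun W hW hP u hu W' hW' => hs'.mono fun L hL =>
    (hC μ e L hL.2 hL.1).2.1 W hW hP u hu W' hW', fun l hl hP he => ?_⟩
  · rw [sup_bot_eq]
    exact (hC μ e L hL.2 hL.1).1
  · refine Filter.frequently_atTop.2 fun a => ?_
    obtain ⟨L, hL, h6, h7⟩ := Filter.frequently_atTop.1 hs' (2 * (a + C))
    refine ⟨L / 2 + 1, by omega, ((hC μ e L h7 h6).2.2 l hl hP _ (by omega)).trans ?_⟩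
    have e1 : L ^ e ≤ 2 ^ e * (L / 2 + 1) ^ e := by
      rw [← mul_pow]
      exact Nat.pow_le_pow_left (by omega) _
    have e2 : C ≤ (L / 2 + 1) ^ e := (show C ≤ L / 2 + 1 by omega).trans (Nat.le_self_pow he.ne' _)
    calc 2 * μ * L ^ e + C ≤ 2 * μ * (2 ^ e * (L / 2 + 1) ^ e) + (L / 2 + 1) ^ e :=
          Nat.add_le_add (Nat.mul_le_mul_left _ e1) e2
      _ = (2 ^ (e + 1) * μ + 1) * (L / 2 + 1) ^ e := by ring

end Pool.Agent.MP_19ffc6_ag.Res.PA.Num
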