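import Pool.Agent.MP_19ffc6_ag.Res.Wr
import Pool.Agent.MP_19ffc6_ag.Res.Num

/-! PROJECT RES, part A: discrete valuations, weak approximation and the drop of dimension
caused by fixed divisors. -/

namespace Pool.Agent.MP_19ffc6_ag.Res.PA.St

open Submodule Module Pool.Agent.MP_19ffc6_ag.Res.PA.Num

variable {k K : Type} [Field k] [Field K] [Algebra k K]

section Ord

variable (w : DV k K) {x y σ : K} {a b : ℤ} {U U' V : Submodule k K}

theorem ord_one : w.ord 1 = 0 := by simpa using w.cst 1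

theorem ord_inv (x : K) : w.ord x⁻¹ = -w.ord x := by
  by_cases hx : x = 0
  · simp [hx, w.zero]
  have := w.mul x x⁻¹ hx (inv_ne_zero hx)
  rw [mul_inv_cancel₀ hx, ord_one] at this
  omega

theorem ord_div (hx : x ≠ 0) (hy : y ≠ 0) : w.ord (x / y) = w.ord x - w.ord y := by
  rw [div_eq_mul_inv, w.mul _ _ hx (inv_ne_zero hy), ord_inv, sub_eq_add_neg]

theorem ord_pow (x : K) (n : ℕ) : w.ord (x ^ n) = n * w.ord x := by
  by_cases hx : x = 0
  · cases n with
    | zero => simp [ord_one]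
    | succ n => simp [hx, w.zero]
  induction n with
  | zero => simp [ord_one]
  | succ n ih => rw [pow_succ, w.mul _ _ (pow_ne_zero _ hx) hx, ih]; push_cast; ring

theorem ord_zpow (x : K) (n : ℤ) : w.ord (x ^ n) = n * w.ord x := by
  obtain ⟨n, rfl | rfl⟩ := n.eq_nat_or_neg
  · rw [zpow_natCast, ord_pow]
  · rw [zpow_neg, ord_inv, zpow_natCast, ord_pow, neg_mul]

variable {w}

theorem mem_fil (hx : x ≠ 0) : x ∈ w.fil a ↔ a ≤ w.ord x :=
  ⟨fun h => h.resolve_left hx, Or.inr⟩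

theorem mem_fil_of_le (h : a ≤ w.ord x) : x ∈ w.fil a := Or.inr h

theorem fil_anti (h : a ≤ b) : w.fil b ≤ w.fil a := fun _ hx => hx.imp id h.trans

theorem mul_le_fil (hU : U ≤ w.fil a) (hV : V ≤ w.fil b) : U * V ≤ w.fil (a + b) :=
  mul_le.2 fun _ hx _ hy => DV.mul_fil (hU hx) (hV hy)

theorem one_le_fil : (1 : Submodule k K) ≤ w.fil 0 :=
  one_le.2 (mem_fil_of_le (ord_one w).ge)

theorem pow_le_fil (hU : U ≤ w.fil a) (n : ℕ) : U ^ n ≤ w.fil (n * a) := by
  induction n with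
  | zero => simpa using one_le_fil
  | succ n ih =>
    rw [pow_succ]
    refine (mul_le_fil ih hU).trans (le_of_eq ?_)
    push_cast
    rw [add_mul, one_mul]

/-- Multiplication by a nonzero element shifts the filtration. -/
theorem mul_mem_fil (hσ : σ ≠ 0) : σ * x ∈ w.fil (w.ord σ + a) ↔ x ∈ w.fil a := by
  by_cases hx : x = 0
  · simp [hx]
  rw [mem_fil (mul_ne_zero hσ hx), mem_fil hx, w.mul _ _ hσ hx]
  omega

theorem ord_add (hx : x ≠ 0) (hy : y ∈ w.fil (w.ord x + 1)) :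
    x + y ≠ 0 ∧ w.ord (x + y) = w.ord x := by
  have h1 : x + y ∉ w.fil (w.ord x + 1) := fun h => by
    have := (mem_fil hx).1 ((add_mem_cancel_right hy).1 h)
    omega
  have h2 : x + y ≠ 0 := fun e => h1 (e ▸ zero_mem _)
  have h3 := (mem_fil h2).1 (add_mem (mem_fil_of_le (le_refl (w.ord x)))
    (fil_anti (by omega) hy))
  rw [mem_fil h2] at h1
  exact ⟨h2, by omega⟩

theorem exists_le_fil (w : DV k K) (hV : V.FG) : ∃ a, V ≤ w.fil a := by
  refine Submodule.fg_induction (motive := fun V _ => ∃ a, V ≤ w.fil a) (fun x => ?_) ?_ V hV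
  · exact ⟨w.ord x, (span_singleton_le_iff_mem _ _).2 (mem_fil_of_le le_rfl)⟩
  · rintro U V _ _ ⟨a, ha⟩ ⟨b, hb⟩
    exact ⟨min a b, sup_le (ha.trans (fil_anti (min_le_left _ _)))
      (hb.trans (fil_anti (min_le_right _ _)))⟩

theorem le_fil_ordS (w : DV k K) (hV : V.FG) : V ≤ w.fil (w.ordS V) := fun x hx => by
  by_cases h0 : x = 0
  · exact Or.inl h0
  obtain ⟨a, ha⟩ := exists_le_fil w hV
  exact mem_fil_of_le (csInf_le ⟨a, by
    rintro _ ⟨y, ⟨h1, h2⟩, rfl⟩
    exact (mem_fil h2).1 (ha h1)⟩ ⟨x, ⟨hx, h0⟩, rfl⟩)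

theorem exists_min (w : DV k K) (hV : V.FG) (h0 : V ≠ ⊥) : ∃ σ, w.Min V σ := by
  obtain ⟨a, ha⟩ := exists_le_fil w hV
  obtain ⟨x, hx, hx0⟩ := exists_mem_ne_zero_of_ne_bot h0
  obtain ⟨σ, ⟨h1, h2⟩, h3⟩ := Int.csInf_mem (s := w.ord '' {x | x ∈ V ∧ x ≠ 0})
    ⟨_, x, ⟨hx, hx0⟩, rfl⟩ ⟨a, by
      rintro _ ⟨y, ⟨h1, h2⟩, rfl⟩
      exact (mem_fil h2).1 (ha h1)⟩
  exact ⟨σ, h1, h2, h3⟩

theorem min_of_le (h1 : σ ∈ V) (h2 : σ ≠ 0) (h : V ≤ w.fil (w.ord σ)) : w.Min V σ :=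
  ⟨h1, h2, (IsLeast.csInf_eq (s := w.ord '' {x | x ∈ V ∧ x ≠ 0}) ⟨⟨σ, ⟨h1, h2⟩, rfl⟩, by
    rintro _ ⟨y, ⟨h3, h4⟩, rfl⟩
    exact (mem_fil h4).1 (h h3)⟩).symm⟩

theorem le_ordS (hV : V.FG) (h0 : V ≠ ⊥) (h : V ≤ w.fil a) : a ≤ w.ordS V := by
  obtain ⟨σ, h1, h2, h3⟩ := exists_min w hV h0
  exact h3 ▸ (mem_fil h2).1 (h h1)

theorem ordS_le (hV : V.FG) (hx : x ∈ V) (h0 : x ≠ 0) : w.ordS V ≤ w.ord x :=
  (mem_fil h0).1 (le_fil_ordS w hV hx)

theorem min_pow (hV : V.FG) (h : w.Min V σ) (n : ℕ) : w.Min (V ^ n) (σ ^ n) :=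
  min_of_le (pow_mem_pow _ h.1 n) (pow_ne_zero _ h.2.1)
    (by rw [ord_pow, h.2.2]; exact pow_le_fil (le_fil_ordS w hV) n)

theorem ordS_pow (hV : V.FG) (h0 : V ≠ ⊥) (n : ℕ) : w.ordS (V ^ n) = n * w.ordS V := by
  obtain ⟨σ, h⟩ := exists_min w hV h0
  rw [← (min_pow hV h n).2.2, ord_pow, h.2.2]

/-- Distinct normalized valuations have incomparable rings. -/
theorem exists_neg {w w' : DV k K} (h : w ≠ w') : ∃ x, x ≠ 0 ∧ 0 ≤ w.ord x ∧ w'.ord x < 0 := by
  by_contra hc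
  push Not at hc
  obtain ⟨π, p0, p1⟩ := w.unif
  obtain ⟨π', q0, q1⟩ := w'.unif
  have key : ∀ x, w'.ord x = w.ord x * w'.ord π := fun x => by
    by_cases hx : x = 0
    · simp [hx, w.zero, w'.zero]
    have h0 : π ^ w.ord x ≠ 0 := zpow_ne_zero _ p0
    have h1 : w.ord (x / π ^ w.ord x) = 0 := by rw [ord_div w hx h0, ord_zpow, p1]; omega
    have h2 := hc _ (div_ne_zero hx h0) h1.ge
    have h3 := hc _ (inv_ne_zero (div_ne_zero hx h0)) (by rw [ord_inv, h1]; rfl)
    rw [ord_inv] at h3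
    rw [ord_div w' hx h0, ord_zpow] at h2 h3
    omega
  have h4 : w'.ord π = 1 := Int.eq_one_of_mul_eq_one_left (hc π p0 (by omega)) (q1 ▸ key π').symm
  exact h (DV.ext (funext fun x => by rw [key x, h4, mul_one]))

theorem exists_sep (w : DV k K) (D : Finset (DV k K)) (hw : w ∉ D) :
    ∃ x, x ≠ 0 ∧ w.ord x < 0 ∧ ∀ w' ∈ D, 0 < w'.ord x := by
  classical
  induction D using Finset.induction_on with
  | empty =>
    obtain ⟨π, p0, p1⟩ := w.unif
    exact ⟨π⁻¹, inv_ne_zero p0, by rw [ord_inv, p1]; norm_num, by simp⟩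
  | insert v D hv ih =>
    obtain ⟨b, b0, b1, b2⟩ := ih fun h => hw (Finset.mem_insert_of_mem h)
    have hne : w ≠ v := fun e => hw (e ▸ Finset.mem_insert_self _ _)
    obtain ⟨x, x0, x1, x2⟩ := exists_neg hne
    obtain ⟨y, y0, y1, y2⟩ := exists_neg hne.symm
    have a0 : y / x ≠ 0 := div_ne_zero y0 x0
    have a1 : w.ord (y / x) < 0 := by rw [ord_div w y0 x0]; omega
    have a2 : 0 < v.ord (y / x) := by rw [ord_div v y0 x0]; omega
    generalize y / x = a at a0 a1 a2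
    obtain ⟨r, hr⟩ := Finset.exists_le (D.image fun w' => (w'.ord a).natAbs)
    have hr' : ∀ w' ∈ D, 0 < w'.ord a + (r + 1 : ℕ) * w'.ord b := fun w' h => by
      have h1 := hr _ (Finset.mem_image_of_mem _ h)
      have h2 := b2 w' h
      have h3 : ((r + 1 : ℕ) : ℤ) * 1 ≤ (r + 1 : ℕ) * w'.ord b :=
        mul_le_mul_of_nonneg_left h2 (by positivity)
      omega
    have c0 : b ^ (r + 1) ≠ 0 := pow_ne_zero _ b0
    have neg : ∀ u : DV k K, u.ord b < 0 → u.ord (b ^ (r + 1)) < 0 := fun u hu => by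
      rw [ord_pow]; exact mul_neg_of_pos_of_neg (by positivity) hu
    by_cases hb : 0 ≤ v.ord b
    · refine ⟨a * b ^ (r + 1), mul_ne_zero a0 c0, ?_, fun w' h => ?_⟩
      · have := neg w b1
        rw [w.mul _ _ a0 c0]; omega
      · rw [w'.mul _ _ a0 c0, ord_pow]
        rcases Finset.mem_insert.1 h with rfl | h
        · positivity
        · exact hr' w' h
    · have un : ∀ u : DV k K, u.ord b < 0 → b ^ (r + 1) + 1 ≠ 0 ∧
          u.ord (b ^ (r + 1) + 1) = u.ord (b ^ (r + 1)) := fun u hu =>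
        ord_add c0 (mem_fil_of_le (by have := neg u hu; rw [ord_one]; omega))
      have d0 := (un w b1).1
      have e0 := div_ne_zero c0 d0
      refine ⟨a * (b ^ (r + 1) / (b ^ (r + 1) + 1)), mul_ne_zero a0 e0, ?_, fun w' h => ?_⟩
      · rw [w.mul _ _ a0 e0, ord_div w c0 d0, (un w b1).2]; omega
      · rw [w'.mul _ _ a0 e0, ord_div w' c0 d0]
        rcases Finset.mem_insert.1 h with rfl | h
        · rw [(un w' (by omega)).2]; omega
        · have h1 := (ord_add (w := w') (y := b ^ (r + 1)) one_ne_zero (mem_fil_of_le (by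
            have := mul_pos (show (0 : ℤ) < (r + 1 : ℕ) by positivity) (b2 w' h)
            rw [ord_one, ord_pow]; omega))).2
          rw [add_comm (b ^ (r + 1)), h1, ord_one, ord_pow, sub_zero]
          exact hr' w' h

/-- Weak approximation. -/
theorem exists_approx (D : Finset (DV k K)) : ∃ e : DV k K → K, ∀ w, e w ≠ 0 ∧
    w.ord (e w) = 0 ∧ ∀ w' ∈ D, w' ≠ w → e w ∈ w'.fil 1 := by
  classical
  refine (Classical.skolem (p := fun (w : DV k K) (e : K) => e ≠ 0 ∧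
    w.ord e = 0 ∧ ∀ w' ∈ D, w' ≠ w → e ∈ w'.fil 1)).1 fun w => ?_
  obtain ⟨x, x0, x1, x2⟩ := exists_sep w (D.erase w) (Finset.notMem_erase _ _)
  obtain ⟨h1, h2⟩ := ord_add (w := w) (y := 1) x0 (mem_fil_of_le (by rw [ord_one]; omega))
  refine ⟨x / (x + 1), div_ne_zero x0 h1, by rw [ord_div w x0 h1, h2, sub_self],
    fun w' h h' => mem_fil_of_le ?_⟩
  have h3 := x2 w' (Finset.mem_erase.2 ⟨h', h⟩)
  have h4 := (ord_add (w := w') (y := x) one_ne_zero (mem_fil_of_le (by rw [ord_one]; omega))).2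
  rw [ord_div w' x0 h1, add_comm x, h4, ord_one]
  omega

end Ord

section Cod

variable {P P' Q X X' Z Z' : Submodule k K}

theorem fd_of_fg (hP : P.FG) (Q : Submodule k K) : Fd P Q := hP.map _

theorem fg_of_le (hX : X.FG) (h : X' ≤ X) : X'.FG := by
  have : Module.Finite k X := Module.Finite.iff_fg.2 hX
  exact Module.Finite.iff_fg.1 (finiteDimensional_of_le h)

theorem finrank_le (hX : X.FG) (h : X' ≤ X) : finrank k X' ≤ finrank k X := by
  have : Module.Finite k X := Module.Finite.iff_fg.2 hX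
  exact finrank_mono h

theorem finrank_inf_add (hX : X.FG) (Q : Submodule k K) :
    finrank k (X ⊓ Q :) + cod X Q = finrank k X := by
  have : Module.Finite k X := Module.Finite.iff_fg.2 hX
  have h := (Q.mkQ.comp X.subtype).finrank_range_add_finrank_ker
  rw [LinearMap.range_comp, range_subtype, LinearMap.ker_comp, ker_mkQ,
    show Q.comap X.subtype = (X ⊓ Q).comap X.subtype by ext x; simp,
    (comapSubtypeEquivOfLe inf_le_left).finrank_eq, add_comm] at h
  exact h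

theorem cod_le_of_le_sup (hX : Fd X Q) (h : P ≤ X ⊔ Q) : cod P Q ≤ cod X Q := by
  have : Module.Finite k (X.map Q.mkQ) := Module.Finite.iff_fg.2 hX
  refine finrank_mono ?_
  rw [map_le_iff_le_comap, comap_map_mkQ, sup_comm]
  exact h

/-- The drop of dimension at a point. -/
theorem drop (hX : X.FG) (h1 : X' ≤ X) (h2 : X' ≤ P') (h3 : P ≤ X ⊔ P') :
    finrank k X' + cod P P' ≤ finrank k X := by
  rw [← finrank_inf_add hX P']
  exact add_le_add (finrank_le (fg_of_le hX inf_le_left) (le_inf h1 h2))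
    (cod_le_of_le_sup (fd_of_fg hX _) h3)

theorem finrank_add_sum_le {ι : Type} (D : Finset ι) (Q R : ι → Submodule k K) (hZ : Z.FG)
    (h1 : Z' ≤ Z) (h2 : ∀ w ∈ D, Z' ≤ Q w) (h3 : ∀ w ∈ D, R w ≤ Z)
    (h4 : ∀ w ∈ D, ∀ w' ∈ D, w' ≠ w → R w ≤ Q w') :
    finrank k Z' + ∑ w ∈ D, cod (R w) (Q w) ≤ finrank k Z := by
  classical
  induction D using Finset.induction_on generalizing Z with
  | empty => simpa using finrank_le hZ h1
  | insert v D hv ih =>
    have a := Finset.mem_insert_self v D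
    have := ih (Z := Z ⊓ Q v) (fg_of_le hZ inf_le_left) (le_inf h1 (h2 v a))
      (fun w h => h2 w (Finset.mem_insert_of_mem h))
      (fun w h => le_inf (h3 w (Finset.mem_insert_of_mem h))
        (h4 w (Finset.mem_insert_of_mem h) v a fun e => hv (e ▸ h)))
      fun w h w' h' => h4 w (Finset.mem_insert_of_mem h) w' (Finset.mem_insert_of_mem h')
    have b := cod_le_of_le_sup (Q := Q v) (fd_of_fg hZ _) ((h3 v a).trans le_sup_left)
    rw [Finset.sum_insert hv, ← finrank_inf_add hZ (Q v)]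
    omega

end Cod

/-- The drop of dimension caused by fixed divisors. -/
theorem div' (D : Finset (DV k K)) : ∃ M₀ : Submodule k K, M₀.FG ∧ ∀ MM A A' : Submodule k K,
    MM.FG → M₀ ≤ MM → A.FG → A' ≠ ⊥ → A' ≤ A → (∀ w ∈ D, w.ordS A < w.ordS A') → ∃ c : ℕ,
      ∀ U : Submodule k K, U.FG → ∀ L : ℕ, finrank k (MM * (U * A' ^ L) :) +
        (L - c) * ∑ w ∈ D, w.lead U ≤ finrank k (MM * (U * A ^ L) :) := by
  classical
  obtain ⟨e, he⟩ := exists_approx D
  refine ⟨span k (D.image e), fg_span (Finset.finite_toSet _),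
    fun MM A A' hM hM0 hA h0 hle hD => ?_⟩
  have hA' := fg_of_le hA hle
  choose a ha using fun w : DV k K => exists_min w hA fun h => h0 (le_bot_iff.1 (h ▸ hle))
  choose a' ha' using fun w : DV k K => exists_min w hA' h0
  obtain ⟨c, hc⟩ := Finset.exists_le (D.image fun w => (w.ordS MM).natAbs)
  refine ⟨c, fun U hU L => ?_⟩
  have hX : (MM * (U * A ^ L)).FG := hM.mul (hU.mul (hA.pow L))
  have hXX : MM * (U * A' ^ L) ≤ MM * (U * A ^ L) := by gcongr
  by_cases hL : L < c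
  · rw [Nat.sub_eq_zero_of_le hL.le, zero_mul, add_zero]
    exact finrank_le hX hXX
  obtain ⟨l, rfl⟩ := Nat.exists_eq_add_of_le (not_lt.1 hL)
  rw [Nat.add_sub_cancel_left]
  let o : DV k K → ℕ → ℤ := fun w j => w.ordS U + ((c + l : ℕ) * w.ordS A +
    j * (w.ordS A' - w.ordS A))
  let Z : ℕ → Submodule k K := fun j => MM * (U * A ^ (c + l)) ⊓ D.inf fun w => w.fil (o w j)
  have stp : ∀ j, j < l → finrank k (Z (j + 1)) + ∑ w ∈ D, w.lead U ≤ finrank k (Z j) := by
    intro j hj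
    obtain ⟨i, hi⟩ := Nat.exists_eq_add_of_le (show j ≤ c + l by omega)
    let s : DV k K → K := fun w => a w ^ i * a' w ^ j
    have s0 : ∀ w, s w ≠ 0 := fun w =>
      mul_ne_zero (pow_ne_zero _ (ha w).2.1) (pow_ne_zero _ (ha' w).2.1)
    have s1 : ∀ w, s w ∈ A ^ (c + l) := fun w => by
      rw [hi, add_comm, pow_add]
      exact mul_mem_mul (pow_mem_pow _ (ha w).1 _) (pow_mem_pow _ (hle (ha' w).1) _)
    have oo : ∀ w : DV k K, o w j = w.ordS U + (i * w.ordS A + j * w.ordS A') := fun w => by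
      simp only [o, hi]; push_cast; ring
    have s2 : ∀ w w' : DV k K, ∀ u ∈ U, u * s w ∈ w'.fil (o w' j) := fun w w' u hu => by
      rw [oo]
      exact DV.mul_fil (le_fil_ordS w' hU hu) (DV.mul_fil
        (pow_le_fil (le_fil_ordS w' hA) _ (pow_mem_pow _ (ha w).1 _))
        (pow_le_fil (le_fil_ordS w' hA') _ (pow_mem_pow _ (ha' w).1 _)))
    have s3 : ∀ w ∈ D, ∀ w' ∈ D, w' ≠ w → pr k (e w * s w) * U ≤ w'.fil (o w' j + 1) := by
      intro w h w' h' hne x hx
      obtain ⟨u, hu, rfl⟩ := mem_pr_mul.1 hx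
      rw [mul_assoc, mul_comm (s w), add_comm]
      exact DV.mul_fil ((he w).2.2 w' h' hne) (s2 w w' u hu)
    have o1 : ∀ w ∈ D, o w j + 1 ≤ o w (j + 1) := fun w h => by
      have := hD w h
      simp only [o]; push_cast; linarith
    have s4 : ∀ w ∈ D, pr k (e w * s w) * U ≤ Z j := by
      intro w h
      refine le_inf (fun x hx => ?_) (Finset.le_inf fun w' h' => ?_)
      · obtain ⟨u, hu, rfl⟩ := mem_pr_mul.1 hx
        rw [mul_assoc, mul_comm (s w)]
        exact mul_mem_mul (hM0 (subset_span (by simpa using ⟨w, h, rfl⟩))) (mul_mem_mul hu (s1 w))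
      · by_cases hne : w' = w
        · intro x hx
          obtain ⟨u, hu, rfl⟩ := mem_pr_mul.1 hx
          rw [mul_assoc, mul_comm (s w), hne, ← zero_add (o w j)]
          exact DV.mul_fil (mem_fil_of_le (he w).2.1.ge) (s2 w w u hu)
        · exact (s3 w h w' h' hne).trans (fil_anti (by omega))
    refine le_trans (add_le_add le_rfl (Finset.sum_le_sum fun w h => ?_))
      (finrank_add_sum_le D (fun w => w.fil (o w j + 1)) (fun w => pr k (e w * s w) * U)
        (fg_of_le hX inf_le_left) (inf_le_inf le_rfl (Finset.le_inf fun w h =>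
          (Finset.inf_le h).trans (fil_anti (by have := o1 w h; omega))))
        (fun w h => inf_le_right.trans ((Finset.inf_le h).trans (fil_anti (o1 w h)))) s4 s3)
    refine (cod_le_of_inj (e w * s w) (fun x hx => mem_pr_mul.2 ⟨x, hx, rfl⟩) (fun x _ hx => ?_)
      (fd_of_fg (fg_of_le hX ((s4 w h).trans inf_le_left)) _)).2
    refine (mul_mem_fil (mul_ne_zero (he w).1 (s0 w))).1 ?_
    convert hx using 2
    rw [w.mul _ _ (he w).1 (s0 w), (he w).2.1, oo, w.mul _ _ (pow_ne_zero _ (ha w).2.1)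
      (pow_ne_zero _ (ha' w).2.1), ord_pow, ord_pow, (ha w).2.2, (ha' w).2.2]
    ring
  have tel : ∀ j, j ≤ l → finrank k (Z j) + j * ∑ w ∈ D, w.lead U ≤ finrank k (Z 0) := by
    intro j hj
    induction j with
    | zero => simp
    | succ j ih =>
      have h1 := stp j hj
      have h2 := ih (by omega)
      rw [add_mul, one_mul]
      omega
  refine le_trans (add_le_add (finrank_le (fg_of_le hX inf_le_left) (le_inf hXX
    (Finset.le_inf fun w h => ?_))) le_rfl) ((tel l le_rfl).trans (finrank_le hX inf_le_left))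
  refine (mul_le_fil (le_fil_ordS w hM) (mul_le_fil (le_fil_ordS w hU)
    (pow_le_fil (le_fil_ordS w hA') _))).trans (fil_anti ?_)
  have h1 := hc _ (Finset.mem_image_of_mem _ h)
  have h2 := hD w h
  have h3 : (c : ℤ) * 1 ≤ c * (w.ordS A' - w.ordS A) :=
    mul_le_mul_of_nonneg_left (by omega) (by positivity)
  have h4 : -(c : ℤ) ≤ w.ordS MM := by omega
  simp only [o]; push_cast; linarith

theorem div {A A' : Submodule k K} (hA : A.FG) (hle : A' ≤ A) (h0 : A' ≠ ⊥) (D : Finset (DV k K))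
    (hD : ∀ w ∈ D, w.ordS A < w.ordS A') :
    ∃ M₀ : Submodule k K, M₀.FG ∧ ∀ MM : Submodule k K, MM.FG → M₀ ≤ MM → ∃ c : ℕ,
      ∀ U : Submodule k K, U.FG → ∀ L : ℕ, finrank k (MM * (U * A' ^ L) :) +
        (L - c) * ∑ w ∈ D, w.lead U ≤ finrank k (MM * (U * A ^ L) :) :=
  let ⟨M₀, h1, h2⟩ := div' D
  ⟨M₀, h1, fun MM hM hM0 => h2 MM A A' hM hM0 hA h0 hle hD⟩

end Pool.Agent.MP_19ffc6_ag.Res.PA.St
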