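import Pool.Agent.MP_19ffc6_ag.Res.ADefs

/-! PROJECT RES, part A: Jacobians, Wronskians and dual derivations. -/

namespace Pool.Agent.MP_19ffc6_ag.Res.PA

open Pool.Agent.MP_19ffc6_ag.Wild Matrix Finset Function Polynomial

variable {k K : Type} [Field k] [Field K] [Algebra k K] {m : ℕ}

/-- The matrix of derivatives. -/
def jacM (d : Fin (m + 1) → Derivation k K K) (g : Fin (m + 1) → K) : Matrix (Fin (m + 1)) (Fin (m + 1)) K :=
  Matrix.of fun i j => d j (g i)

/-- The determinant with first column `p` and the derivatives of `v`. -/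
def WrE (d : Fin (m + 1) → Derivation k K K) (p v : Fin (m + 2) → K) : K :=
  (Matrix.of fun i => (Fin.cons (p i) fun j => d j (v i) : Fin (m + 2) → K)).det

/-- Linear combinations of the derivations with the columns of `B` as coefficients. -/
noncomputable def comb (d : Fin (m + 1) → Derivation k K K) (B : Matrix (Fin (m + 1)) (Fin (m + 1)) K)
    (i : Fin (m + 1)) : Derivation k K K := ∑ j, B j i • d j

/-- The derivations dual to `g`. -/
noncomputable def dual (d : Fin (m + 1) → Derivation k K K) (g : Fin (m + 1) → K) :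
    Fin (m + 1) → Derivation k K K := comb d (jacM d g)⁻¹

/-- The derivations preserve `O`. -/
def Pres (D : Fin (m + 1) → Derivation k K K) (O : Subalgebra k K) : Prop := ∀ i, ∀ x ∈ O, D i x ∈ O

variable {d : Fin (m + 1) → Derivation k K K} {g h : Fin (m + 1) → K} {p v : Fin (m + 2) → K}
  {T T' V V' N : Submodule k K} {A O : Subalgebra k K} {σ : K}

theorem jac_eq (g : Fin (m + 1) → K) : Jac d g = (jacM d g).det := rfl

theorem wr_eq (v : Fin (m + 2) → K) : Wr d v = WrE d v v := rfl

theorem jac_mem (hg : ∀ i, g i ∈ T) : Jac d g ∈ JJ d T := Submodule.subset_span ⟨g, hg, rfl⟩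

theorem wr_mem (hv : ∀ i, v i ∈ V) : Wr d v ∈ WW d V := Submodule.subset_span ⟨v, hv, rfl⟩

theorem JJ_le (hN : ∀ g : Fin (m + 1) → K, (∀ i, g i ∈ T) → Jac d g ∈ N) : JJ d T ≤ N :=
  Submodule.span_le.2 fun _ ⟨g, a, b⟩ => b ▸ hN g a

theorem WW_le (hN : ∀ v : Fin (m + 2) → K, (∀ i, v i ∈ V) → Wr d v ∈ N) : WW d V ≤ N :=
  Submodule.span_le.2 fun _ ⟨g, a, b⟩ => b ▸ hN g a

theorem JJ_mono (hT : T ≤ T') : JJ d T ≤ JJ d T' := JJ_le fun _ a => jac_mem fun i => hT (a i)

theorem WW_mono (hV : V ≤ V') : WW d V ≤ WW d V' := WW_le fun _ a => wr_mem fun i => hV (a i)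

/-! ### Multilinearity -/

/-- The Jacobian as an alternating map. -/
noncomputable def jacA (d : Fin (m + 1) → Derivation k K K) : K [⋀^Fin (m + 1)]→ₗ[k] K where
  toMultilinearMap := ((detRowAlternating (n := Fin (m + 1)) (R := K)).toMultilinearMap.restrictScalars
    k).compLinearMap fun _ => LinearMap.pi fun j => (d j).toLinearMap
  map_eq_zero_of_eq' := fun g i j e ne => det_zero_of_row_eq ne (by
    funext l
    simp [e])

theorem jacA_apply (g : Fin (m + 1) → K) : jacA d g = Jac d g := rfl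

/-- The Wronskian as an alternating map. -/
noncomputable def wrA (d : Fin (m + 1) → Derivation k K K) : K [⋀^Fin (m + 2)]→ₗ[k] K where
  toMultilinearMap := ((detRowAlternating (n := Fin (m + 2))
    (R := K)).toMultilinearMap.restrictScalars k).compLinearMap fun _ =>
      LinearMap.pi (Fin.cons LinearMap.id fun j => (d j).toLinearMap :
        Fin (m + 2) → K →ₗ[k] K)
  map_eq_zero_of_eq' := fun g i j e ne => det_zero_of_row_eq ne (by
    funext l
    simp [e])

theorem wrA_apply (v : Fin (m + 2) → K) : wrA d v = Wr d v := by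
  change det _ = det _
  congr 1
  funext i j
  refine Fin.cases ?_ (fun j => ?_) j <;> simp

theorem der_sum {ι : Type} (s : Finset ι) (c : ι → K) (D : ι → Derivation k K K) (f : K) :
    (∑ j ∈ s, c j • D j) f = ∑ j ∈ s, c j * D j f := by
  classical
  induction s using Finset.induction_on with
  | empty => simp
  | insert a s ha ih => simp [sum_insert ha, ih]

theorem jac_mix (B : Matrix (Fin (m + 1)) (Fin (m + 1)) k) (g : Fin (m + 1) → K) :
    Jac d (fun i => ∑ j, B i j • g j) = B.det • Jac d g := by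
  rw [Algebra.smul_def, RingHom.map_det, Jac, Jac, ← det_mul]
  congr 1
  ext i j
  simp [jacM, mul_apply, Algebra.smul_def]

theorem wr_mix (B : Matrix (Fin (m + 2)) (Fin (m + 2)) k) (v : Fin (m + 2) → K) :
    Wr d (fun i => ∑ j, B i j • v j) = B.det • Wr d v := by
  rw [Algebra.smul_def, RingHom.map_det, Wr, Wr, ← det_mul]
  congr 1
  ext i j
  refine Fin.cases ?_ (fun j => ?_) j <;> simp [mul_apply, Algebra.smul_def]

theorem fg_of_multi {r : ℕ} (f : MultilinearMap k (fun _ : Fin r => K) K) (hV : V.FG) :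
    (Submodule.span k {x | ∃ v : Fin r → K, (∀ i, v i ∈ V) ∧ x = f v}).FG := by
  obtain ⟨s, rfl⟩ := hV
  classical
  refine ⟨(Fintype.piFinset fun _ : Fin r => s).image f, le_antisymm (Submodule.span_mono ?_)
    (Submodule.span_le.2 ?_)⟩
  · intro x hx
    obtain ⟨v, a, b⟩ := mem_image.1 hx
    exact ⟨v, fun i => Submodule.subset_span (Fintype.mem_piFinset.1 a i), b.symm⟩
  · rintro _ ⟨v, a, rfl⟩
    choose c hc using fun i => Submodule.mem_span_finset.1 (a i)
    have : v = fun i => ∑ x ∈ s, c i x • x := funext fun i => (hc i).2.symm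
    rw [this, f.map_sum_finset]
    refine Submodule.sum_mem _ fun r hr => ?_
    rw [f.map_smul_univ]
    exact Submodule.smul_mem _ _ (Submodule.subset_span (mem_coe.2 (mem_image_of_mem _ hr)))

theorem JJ_fg (hT : T.FG) : (JJ d T).FG := fg_of_multi (jacA d).toMultilinearMap hT

theorem WW_fg (hV : V.FG) : (WW d V).FG := by
  have := fg_of_multi (wrA d).toMultilinearMap hV
  simpa only [AlternatingMap.coe_multilinearMap, wrA_apply, WW] using this

/-! ### Expansions -/

theorem wrE_expand (p v : Fin (m + 2) → K) :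
    WrE d p v = ∑ i : Fin (m + 2), (-1) ^ (i : ℕ) * p i * Jac d fun r => v (i.succAbove r) := by
  rw [WrE, det_succ_column_zero]
  rfl

theorem wr_expand (v : Fin (m + 2) → K) :
    Wr d v = ∑ i : Fin (m + 2), (-1) ^ (i : ℕ) * v i * Jac d fun r => v (i.succAbove r) :=
  wrE_expand v v

theorem wr_cons_one (g : Fin (m + 1) → K) : Wr d (Fin.cons 1 g) = Jac d g := by
  rw [wr_eq, WrE, det_succ_row_zero, Fin.sum_univ_succ]
  simp [Jac, jacM]
  rfl

theorem wr_mul (u : K) (v : Fin (m + 2) → K) :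
    Wr d (fun i => u * v i) = u ^ (m + 2) * Wr d v := by
  let P : Matrix (Fin (m + 2)) (Fin (m + 2)) K := Matrix.of fun i j =>
    if i = j then u else if i = 0 then (Fin.cons 0 fun l => d l u : Fin (m + 2) → K) j else 0
  have hP : P.det = u ^ (m + 2) := by
    rw [det_of_isUpperTriangular]
    · simp [P]
    · intro i j hij
      have h1 : i ≠ j := ne_of_gt hij
      have h2 : i ≠ 0 := ne_of_gt (lt_of_le_of_lt (Fin.zero_le _) hij)
      simp [P, h1, h2]
  rw [← hP, mul_comm, Wr, Wr, ← det_mul]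
  congr 1
  ext i j
  rw [mul_apply, Fin.sum_univ_succ]
  refine Fin.cases ?_ (fun j => ?_) j
  · simp [P, mul_comm]
  · simp [P, (Fin.succ_ne_zero _).symm, Fin.succ_ne_zero, mul_comm, add_comm]

theorem wr_cons_mul (σ : K) (g : Fin (m + 1) → K) :
    Wr d (Fin.cons σ fun i => σ * g i) = σ ^ (m + 2) * Jac d g := by
  rw [← wr_cons_one, ← wr_mul]
  congr 1
  funext i
  refine Fin.cases ?_ (fun j => ?_) i <;> simp

theorem wr_cons_div (hσ : σ ≠ 0) (l : Fin (m + 1) → K) :
    Wr d (Fin.cons σ l) = σ ^ (m + 2) * Jac d fun i => l i / σ := by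
  rw [← wr_cons_mul]
  simp only [mul_div_cancel₀ _ hσ]

theorem wr_div (hσ : σ ≠ 0) (v : Fin (m + 2) → K) :
    Wr d v = σ ^ (m + 2) * Wr d fun i => v i / σ := by
  rw [← wr_mul]
  simp only [mul_div_cancel₀ _ hσ]

theorem mul_wr (σ : K) (l : Fin (m + 2) → K) : σ * Wr d l =
    ∑ i : Fin (m + 2), (-1) ^ (i : ℕ) * l i * Wr d (Fin.cons σ fun r => l (i.succAbove r)) := by
  by_cases hσ : σ = 0
  · subst hσ
    rw [zero_mul]
    refine (sum_eq_zero fun i _ => ?_).symm
    rw [← wrA_apply, (wrA d).map_coord_zero 0 (by simp), mul_zero]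
  · rw [wr_div hσ l, wr_expand, mul_sum, mul_sum]
    refine sum_congr rfl fun i _ => ?_
    rw [wr_cons_div hσ]
    field_simp

/-! ### Slots -/

theorem wrE_slot (p v : Fin (m + 2) → K) (i : Fin (m + 2)) : ∃ (a : K) (c : Fin (m + 1) → K),
    ∀ x f, WrE d (update p i x) (update v i f) = x * a + (∑ j, c j • d j) f := by
  let M : Matrix (Fin (m + 2)) (Fin (m + 2)) K :=
    Matrix.of fun i => (Fin.cons (p i) fun j => d j (v i) : Fin (m + 2) → K)
  refine ⟨(-1) ^ (i : ℕ) * (M.submatrix i.succAbove (Fin.succAbove 0)).det,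
    fun j => (-1) ^ (i + j.succ : ℕ) * (M.submatrix i.succAbove j.succ.succAbove).det,
    fun x f => ?_⟩
  have e : ∀ j : Fin (m + 2), (Matrix.of fun r => (Fin.cons (update p i x r) fun j =>
      d j (update v i f r) : Fin (m + 2) → K)).submatrix i.succAbove j.succAbove =
      M.submatrix i.succAbove j.succAbove := fun j => by
    ext r s
    simp [M, update_of_ne (Fin.succAbove_ne i r)]
  rw [WrE, det_succ_row _ i, Fin.sum_univ_succ]
  simp only [e, der_sum]
  congr 1
  · simp [mul_comm, mul_left_comm, mul_assoc]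
  · refine sum_congr rfl fun j _ => ?_
    simp [mul_comm, mul_left_comm, mul_assoc]

theorem wr_slot (v : Fin (m + 2) → K) (i : Fin (m + 2)) : ∃ (a : K) (c : Fin (m + 1) → K),
    ∀ f, Wr d (update v i f) = f * a + (∑ j, c j • d j) f := by
  obtain ⟨a, c, e⟩ := wrE_slot (d := d) v v i
  exact ⟨a, c, fun f => e f f⟩

theorem jac_slot (g : Fin (m + 1) → K) (i : Fin (m + 1)) : ∃ c : Fin (m + 1) → K,
    ∀ f, Jac d (update g i f) = (∑ j, c j • d j) f := by
  obtain ⟨a, c, e⟩ := wrE_slot (d := d) (Fin.cons 1 0) (Fin.cons 1 g) i.succ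
  refine ⟨c, fun f => ?_⟩
  have := e 0 f
  rw [← Fin.cons_update, ← Fin.cons_update, zero_mul, zero_add, wrE_expand, Fin.sum_univ_succ,
    sum_eq_zero] at this
  · simpa using this
  · intro r _
    simp

theorem jac_const (g : Fin (m + 1) → K) (i : Fin (m + 1)) (c : k) (e : g i = algebraMap k K c) :
    Jac d g = 0 := det_eq_zero_of_row_eq_zero i fun j => by simp [jacM, e]

/-- Induction over the slots of a tuple. -/
theorem slot_ind {r : ℕ} {P Q : K → Prop} {R : (Fin r → K) → Prop}
    (h0 : ∀ g, (∀ i, P (g i)) → R g)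
    (h1 : ∀ g i, (∀ f, P f → R (update g i f)) → ∀ f, Q f → R (update g i f))
    (g : Fin r → K) (hg : ∀ i, Q (g i)) : R g := by
  suffices H : ∀ s : Finset (Fin r), ∀ g : Fin r → K, (∀ i ∈ s, Q (g i)) →
      (∀ i ∉ s, P (g i)) → R g from H univ g (fun i _ => hg i) (by simp)
  intro s
  induction s using Finset.induction_on with
  | empty => exact fun g _ b => h0 g fun i => b i (by simp)
  | insert i s hi ih =>
    intro g a b
    rw [← update_eq_self i g]
    refine h1 g i (fun f hf => ih _ (fun j hj => ?_) fun j hj => ?_) _ (a i (by simp))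
    · rw [update_of_ne (ne_of_mem_of_not_mem hj hi)]
      exact a j (by simp [hj])
    · by_cases e : j = i
      · rwa [e, update_self]
      · rw [update_of_ne e]
        exact b j (by simp [e, hj])

theorem mul_mem_alg {J : Submodule k K} {a x : K} (ha : a ∈ A)
    (hx : x ∈ Subalgebra.toSubmodule A * J) : a * x ∈ Subalgebra.toSubmodule A * J := by
  refine Submodule.mul_induction_on hx (fun b hb y hy => ?_) fun x y h1 h2 => ?_
  · rw [← mul_assoc]
    exact Submodule.mul_mem_mul (A.mul_mem ha hb) hy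
  · rw [mul_add]
    exact add_mem h1 h2

theorem le_alg_mul (J : Submodule k K) : J ≤ Subalgebra.toSubmodule A * J := fun x hx => by
  simpa using Submodule.mul_mem_mul (show (1 : K) ∈ Subalgebra.toSubmodule A from A.one_mem) hx

theorem JJ_adjoin (T : Submodule k K) : JJ d (Subalgebra.toSubmodule (Algebra.adjoin k (T : Set K)))
    ≤ Subalgebra.toSubmodule (Algebra.adjoin k (T : Set K)) * JJ d T := by
  refine JJ_le fun g hg => slot_ind (P := (· ∈ T)) (Q := (· ∈ Algebra.adjoin k (T : Set K)))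
    (R := fun g => Jac d g ∈ Subalgebra.toSubmodule (Algebra.adjoin k (T : Set K)) * JJ d T)
    (fun g a => le_alg_mul _ (jac_mem a)) (fun g i a f hf => ?_) g hg
  obtain ⟨c, e⟩ := jac_slot (d := d) g i
  simp only [e] at a ⊢
  induction hf using Algebra.adjoin_induction with
  | mem x hx => exact a x hx
  | algebraMap r => simp
  | add x y _ _ h1 h2 => rw [map_add]; exact add_mem h1 h2
  | mul x y hx hy h1 h2 =>
    rw [Derivation.leibniz]
    exact add_mem (mul_mem_alg hx h2) (mul_mem_alg hy h1)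

theorem JJ_sup_one (T : Submodule k K) : JJ d (T ⊔ 1) = JJ d T := by
  refine le_antisymm (JJ_le fun g hg => slot_ind (P := (· ∈ T)) (Q := (· ∈ T ⊔ 1))
    (R := fun g => Jac d g ∈ JJ d T) (fun g a => jac_mem a) (fun g i a f hf => ?_) g hg)
    (JJ_mono le_sup_left)
  obtain ⟨c, e⟩ := jac_slot (d := d) g i
  simp only [e] at a ⊢
  obtain ⟨x, hx, y, hy, rfl⟩ := Submodule.mem_sup.1 hf
  obtain ⟨r, rfl⟩ := Submodule.mem_one.1 hy
  simpa using a x hx

/-! ### Products -/

theorem wrE_pow (e : Fin (m + 2) → ℕ) (v : Fin (m + 2) → K) (hv : ∀ i, v i ∈ V ^ (e i + 1)) :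
    WrE d (fun i => (e i + 1 : ℕ) * v i) v ∈ V ^ (∑ i, e i) * WW d V := by
  induction hs : ∑ i, e i using Nat.strong_induction_on generalizing e v with
  | _ s ih =>
  by_cases h0 : ∀ i, e i = 0
  · have : s = 0 := by simp [← hs, h0]
    simpa [this, h0, wr_eq] using wr_mem (d := d) (V := V) fun i => by simpa [h0] using hv i
  obtain ⟨i, hi⟩ := not_forall.1 h0
  obtain ⟨c, hc⟩ := Nat.exists_eq_succ_of_ne_zero hi
  obtain ⟨a, c', e'⟩ := wrE_slot (d := d) (fun i => (e i + 1 : ℕ) * v i) v i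
  have hsum := add_sum_erase univ e (mem_univ i)
  have key : ∀ r ≤ c, ∀ f ∈ V ^ (r + 1), ((r + 1 : ℕ) * f) * a + (∑ j, c' j • d j) f ∈
      V ^ (r + ∑ x ∈ univ.erase i, e x) * WW d V := by
    intro r hm f hf
    have := ih (r + ∑ x ∈ univ.erase i, e x) (by omega) (update e i r) (update v i f)
      (fun j => by
        by_cases c : j = i
        · simpa [c] using hf
        · simpa [c] using hv j) (by rw [sum_update_of_mem (mem_univ i), sdiff_singleton_eq_erase])
    rw [← e']
    convert this using 2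
    funext j
    by_cases c : j = i <;> simp [c]
  have := e' ((e i + 1 : ℕ) * v i) (v i)
  rw [update_eq_self, update_eq_self] at this
  rw [this, hc]
  have hvi := hv i
  rw [hc, pow_succ] at hvi
  refine Submodule.mul_induction_on hvi (fun x hx y hy => ?_) fun x y h1 h2 => ?_
  · have k1 := Submodule.mul_mem_mul hy (key c le_rfl x hx)
    have k2 := Submodule.mul_mem_mul hx (key 0 (by omega) y (by simpa using hy))
    rw [← mul_assoc, ← pow_succ', show c + ∑ x ∈ univ.erase i, e x + 1 = s by omega] at k1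
    rw [← mul_assoc, ← pow_add, show c + 1 + (0 + ∑ x ∈ univ.erase i, e x) = s by omega] at k2
    convert add_mem k1 k2 using 1
    rw [Derivation.leibniz]
    push_cast
    simp only [smul_eq_mul]
    ring
  · convert add_mem h1 h2 using 1
    rw [map_add]
    ring

theorem WW_pow {r : ℕ} (hm : ((r + 1 : ℕ) : k) ≠ 0) :
    WW d (V ^ (r + 1)) ≤ V ^ ((m + 2) * r) * WW d V := by
  refine WW_le fun v hv => ?_
  have := wrE_pow (d := d) (fun _ => r) v hv
  rw [sum_const, card_fin, smul_eq_mul] at this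
  rw [← Submodule.smul_mem_iff _ hm]
  convert this using 1
  rw [wr_expand, wrE_expand, smul_sum]
  refine sum_congr rfl fun i _ => ?_
  rw [Algebra.smul_def, map_natCast]
  ring

/-! ### Charts -/

theorem pow_mul_mem_WW (hσ : σ ∈ V) (hT : ∀ t ∈ T, σ * t ∈ V) {x : K} (hx : x ∈ JJ d T) :
    σ ^ (m + 2) * x ∈ WW d V := by
  refine JJ_le (N := (WW d V).comap (LinearMap.mulLeft k (σ ^ (m + 2)))) (fun g hg => ?_) hx
  rw [Submodule.mem_comap, LinearMap.mulLeft_apply, ← wr_cons_mul]
  exact wr_mem fun i => Fin.cases hσ (fun j => hT _ (hg j)) i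

theorem WW_le_mul : WW d T ≤ T * JJ d T := WW_le fun v hv => by
  rw [wr_expand]
  refine Submodule.sum_mem _ fun i _ => ?_
  have : ((-1 : K)) ^ (i : ℕ) * v i ∈ T := by
    rcases neg_one_pow_eq_or K i with e | e <;> simp [e, hv i]
  exact Submodule.mul_mem_mul this (jac_mem fun r => hv _)

theorem div_pow_mem_WW (hσ : σ ≠ 0) (hT : ∀ v ∈ V, v / σ ∈ T) {x : K} (hx : x ∈ WW d V) :
    x / σ ^ (m + 2) ∈ WW d T := by
  have := WW_le (N := (WW d T).comap (LinearMap.mulRight k (σ ^ (m + 2))⁻¹)) (fun v hv => by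
    rw [Submodule.mem_comap, LinearMap.mulRight_apply, wr_div hσ, mul_comm, ← mul_assoc,
      inv_mul_cancel₀ (pow_ne_zero _ hσ), one_mul]
    exact wr_mem fun i => hT _ (hv i)) hx
  rwa [div_eq_mul_inv]

theorem div_pow_mem (hσ : σ ≠ 0) (hT : ∀ v ∈ V, v / σ ∈ T) {x : K} (hx : x ∈ WW d V) :
    x / σ ^ (m + 2) ∈ T * JJ d T := WW_le_mul (div_pow_mem_WW hσ hT hx)

theorem div_pow_mem' (hσ : σ ≠ 0) (hT : ∀ v ∈ V, v / σ ∈ T ⊔ 1) {x : K} (hx : x ∈ WW d V) :
    x / σ ^ (m + 2) ∈ (T ⊔ 1) * JJ d T := JJ_sup_one (d := d) T ▸ div_pow_mem hσ hT hx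

/-! ### The factorisation -/

theorem jac_scale {F : Fin (m + 1) → K} (q : Fin (m + 1) → K) (hF : ∀ i j, d j (F i) = q i * d j (g i)) :
    Jac d F = (∏ i, q i) * Jac d g := by
  rw [Jac, Jac, ← det_mul_column]
  congr 1
  ext i j
  simp [jacM, hF]

/-- Wronskian of `S₀` and functions `F i = u i * p i` with `d (F i) = u i * q i * d (l i)`. -/
theorem wr_factor (hN : ∀ a ∈ A, ∀ x ∈ N, a * x ∈ N) {S₀ : K} {F u p q l : Fin (m + 1) → K}
    (hS : S₀ ∈ A) (hl : ∀ i, l i ∈ A) (hq : ∀ i, q i ∈ A) (hp : ∀ i, p i ∈ N)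
    (hF : ∀ i, F i = u i * p i) (hd : ∀ i j, d j (F i) = u i * q i * d j (l i)) :
    ∃ W, Wr d (Fin.cons S₀ F) = (∏ i, u i) * W ∧
      W - S₀ * (∏ i, q i) * Jac d l ∈ N * JJ d (Subalgebra.toSubmodule A) := by
  let q' : Fin (m + 2) → K := Fin.cons 1 q
  let u' : Fin (m + 2) → K := Fin.cons 1 u
  let p' : Fin (m + 2) → K := Fin.cons S₀ p
  let l' : Fin (m + 2) → K := Fin.cons S₀ l
  refine ⟨∑ i : Fin (m + 2), (-1) ^ (i : ℕ) * p' i * ((∏ r, q' (i.succAbove r)) *
    Jac d fun r => l' (i.succAbove r)), ?_, ?_⟩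
  · rw [wr_expand, mul_sum]
    refine sum_congr rfl fun i _ => ?_
    have e1 : ∏ i, u i = u' i * ∏ r, u' (i.succAbove r) := by
      rw [← Fin.prod_univ_succAbove, Fin.prod_univ_succ u']
      simp [u']
    have e2 : (Fin.cons S₀ F : Fin (m + 2) → K) i = u' i * p' i :=
      Fin.cases (by simp [u', p']) (fun j => by simp [u', p', hF]) i
    have e3 : ∀ i j, d j ((Fin.cons S₀ F : Fin (m + 2) → K) i) = u' i * q' i * d j (l' i) :=
      fun i j => Fin.cases (by simp [u', q', l']) (fun r => by simp [u', q', l', hd]) i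
    rw [e1, e2, jac_scale (g := fun r => l' (i.succAbove r))
      (fun r => u' (i.succAbove r) * q' (i.succAbove r)) fun r j => e3 _ j, prod_mul_distrib]
    ring
  · rw [Fin.sum_univ_succ]
    simp only [Fin.val_zero, pow_zero, one_mul, Fin.succAbove_zero, p', q', l', Fin.cons_zero,
      Fin.cons_succ, mul_assoc, add_sub_cancel_left]
    refine Submodule.sum_mem _ fun i _ => ?_
    rw [← mul_assoc, ← mul_assoc, mul_right_comm _ (p i)]
    refine Submodule.mul_mem_mul (hN _ (mul_mem (pow_mem (neg_mem A.one_mem) _)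
      (prod_mem fun r _ => ?_)) _ (hp i)) (jac_mem fun r => ?_)
    · exact Fin.cases (motive := fun j => (Fin.cons 1 q : Fin (m + 2) → K) j ∈ A) A.one_mem hq _
    · exact Fin.cases (motive := fun j => (Fin.cons S₀ l : Fin (m + 2) → K) j ∈ A) hS hl _

theorem aeval_sub_mem (hN : ∀ a ∈ A, ∀ x ∈ N, a * x ∈ N) {l : K} (hl : l ∈ A) (hl' : l ∈ N)
    (f : k[X]) : aeval l f ∈ A ∧ aeval l f - algebraMap k K (f.coeff 0) ∈ N := by
  have h1 : ∀ f : k[X], aeval l f ∈ A := fun f =>
    Algebra.adjoin_le (S := A) (by simpa using hl) (aeval_mem_adjoin_singleton k l)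
  refine ⟨h1 f, ?_⟩
  have := congrArg (aeval l) (divX_mul_X_add f)
  simp only [map_add, map_mul, aeval_X, aeval_C] at this
  rw [← this, add_sub_cancel_right]
  exact hN _ (h1 _) _ hl'

theorem prod_sub_mem (hN : ∀ a ∈ A, ∀ x ∈ N, a * x ∈ N) {ι : Type} (s : Finset ι) {q : ι → K}
    {c : ι → k} (hq : ∀ i, q i ∈ A) (hc : ∀ i, q i - algebraMap k K (c i) ∈ N) :
    ∏ i ∈ s, q i - algebraMap k K (∏ i ∈ s, c i) ∈ N := by
  classical
  induction s using Finset.induction_on with
  | empty => simp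
  | insert a s ha ih =>
    rw [prod_insert ha, prod_insert ha, map_mul]
    convert add_mem (hN _ (hq a) _ ih) (hN _ (A.algebraMap_mem (∏ i ∈ s, c i)) _ (hc a)) using 1
    ring

/-- The exact factorisation of the Wronskian of `S₀` and `f (l i)`, `f = X ^ (j + 1) * f₀`. -/
theorem wr_poly (hN : ∀ a ∈ A, ∀ x ∈ N, a * x ∈ N) {S₀ : K} {s₀ : k} {l : Fin (m + 1) → K}
    (hS : S₀ ∈ A) (hs : S₀ - algebraMap k K s₀ ∈ N) (hl : ∀ i, l i ∈ A) (hl' : ∀ i, l i ∈ N)
    (j : ℕ) (f₀ : k[X]) :
    ∃ W, Wr d (Fin.cons S₀ fun i => aeval (l i) (X ^ (j + 1) * f₀)) = (∏ i, l i ^ j) * W ∧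
      W - (s₀ * (((j + 1 : ℕ) : k) * f₀.coeff 0) ^ (m + 1)) • Jac d l ∈
        N * JJ d (Subalgebra.toSubmodule A) := by
  let f₁ : k[X] := C ((j + 1 : ℕ) : k) * f₀ + X * derivative f₀
  obtain ⟨W, h1, h2⟩ := wr_factor (d := d) hN (F := fun i => aeval (l i) (X ^ (j + 1) * f₀))
    (u := fun i => l i ^ j) (p := fun i => aeval (l i) f₀ * l i) (q := fun i => aeval (l i) f₁)
    hS hl (fun i => (aeval_sub_mem hN (hl i) (hl' i) _).1)
    (fun i => hN _ (aeval_sub_mem hN (hl i) (hl' i) _).1 _ (hl' i))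
    (fun i => by simp; ring) (fun i r => by
      rw [Derivation.map_aeval, smul_eq_mul]
      simp [f₁, derivative_X_pow_succ]
      left
      ring)
  refine ⟨W, h1, ?_⟩
  have h3 := prod_sub_mem hN univ (q := fun i => aeval (l i) f₁) (c := fun _ => f₁.coeff 0)
    (fun i => (aeval_sub_mem hN (hl i) (hl' i) _).1) fun i => (aeval_sub_mem hN (hl i) (hl' i) _).2
  have h4 := add_mem (hN _ hS _ h3) (hN _ (A.algebraMap_mem (∏ _ : Fin (m + 1), f₁.coeff 0)) _ hs)
  convert add_mem h2 (Submodule.mul_mem_mul h4 (jac_mem (d := d)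
    (T := Subalgebra.toSubmodule A) hl)) using 1
  simp [f₁, Algebra.smul_def]
  ring

/-! ### Dual derivations -/

theorem comb_apply (B : Matrix (Fin (m + 1)) (Fin (m + 1)) K) (i : Fin (m + 1)) (f : K) :
    comb d B i f = ∑ j, B j i * d j f := der_sum _ _ _ _

theorem jacM_comb (B : Matrix (Fin (m + 1)) (Fin (m + 1)) K) (g : Fin (m + 1) → K) :
    jacM (comb d B) g = jacM d g * B := by
  ext i j
  simp [jacM, comb_apply, mul_apply, mul_comm]

theorem jac_comb (B : Matrix (Fin (m + 1)) (Fin (m + 1)) K) (g : Fin (m + 1) → K) :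
    Jac (comb d B) g = Jac d g * B.det := by
  rw [jac_eq, jacM_comb, det_mul, jac_eq]

theorem wrE_comb (B : Matrix (Fin (m + 1)) (Fin (m + 1)) K) (p v : Fin (m + 2) → K) :
    WrE (comb d B) p v = WrE d p v * B.det := by
  simp only [wrE_expand, jac_comb, sum_mul, mul_assoc]

theorem comb_comb (B B' : Matrix (Fin (m + 1)) (Fin (m + 1)) K) : comb (comb d B) B' = comb d (B * B') := by
  funext i
  ext f
  simp only [comb_apply, mul_apply, mul_sum, sum_mul]
  rw [sum_comm]
  exact sum_congr rfl fun _ _ => sum_congr rfl fun _ _ => by ring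

theorem comb_one : comb d 1 = d := by
  funext i
  ext f
  simp [comb_apply, one_apply]

theorem jac_dual (g h : Fin (m + 1) → K) : Jac (dual d g) h = Jac d h / Jac d g := by
  rw [dual, jac_comb, det_nonsing_inv, Ring.inverse_eq_inv', div_eq_mul_inv, jac_eq, jac_eq]

theorem wr_dual (g : Fin (m + 1) → K) (v : Fin (m + 2) → K) : Wr (dual d g) v = Wr d v / Jac d g := by
  rw [dual, wr_eq, wrE_comb, det_nonsing_inv, Ring.inverse_eq_inv', div_eq_mul_inv, jac_eq, wr_eq]

theorem jacM_dual (hg : Jac d g ≠ 0) : jacM (dual d g) g = 1 := by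
  rw [dual, jacM_comb, mul_nonsing_inv (jacM d g) (Ne.isUnit hg)]

theorem dual_apply (hg : Jac d g ≠ 0) (i j : Fin (m + 1)) :
    dual d g j (g i) = if i = j then 1 else 0 := by
  rw [← one_apply, ← jacM_dual hg]
  rfl

theorem comb_dual (hg : Jac d g ≠ 0) : comb (dual d g) (jacM d g) = d := by
  rw [dual, comb_comb, nonsing_inv_mul (jacM d g) (Ne.isUnit hg), comb_one]

/-- The chain rule. -/
theorem chain (hg : Jac d g ≠ 0) (j : Fin (m + 1)) (f : K) :
    d j f = ∑ i, d j (g i) * dual d g i f := by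
  conv_lhs => rw [← comb_dual hg, comb_apply]
  rfl

theorem sum_chain (hg : Jac d g ≠ 0) (c : Fin (m + 1) → K) (f : K) :
    (∑ j, c j • d j) f = ∑ i, (∑ j, c j • d j) (g i) * dual d g i f := by
  simp only [der_sum, chain hg _ f, mul_sum, sum_mul, mul_assoc]
  exact sum_comm

theorem dual_dual (hg : Jac d g ≠ 0) (h : Fin (m + 1) → K) : dual (dual d g) h = dual d h := by
  rw [dual, dual, comb_comb, jacM_comb, Matrix.mul_inv_rev, ← Matrix.mul_assoc,
    mul_nonsing_inv _ (isUnit_nonsing_inv_det (jacM d g) (Ne.isUnit hg)), Matrix.one_mul, dual]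

theorem dual_self {t : Fin (m + 1) → K} (ht : ∀ i j, d j (t i) = if i = j then 1 else 0) :
    Jac d t = 1 ∧ dual d t = d := by
  have : jacM d t = 1 := by
    ext i j
    simp [jacM, ht, one_apply]
  rw [jac_eq, dual, this, det_one, inv_one, comb_one]
  exact ⟨rfl, rfl⟩

theorem det_mem {r : ℕ} {B : Matrix (Fin r) (Fin r) K} (hB : ∀ i j, B i j ∈ O) : B.det ∈ O := by
  rw [det_apply']
  exact sum_mem fun _ _ => mul_mem (intCast_mem O _) (prod_mem fun _ _ => hB _ _)

theorem Pres.jac_mem (hd : Pres d O) (hh : ∀ i, h i ∈ O) : Jac d h ∈ O :=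
  det_mem fun i j => hd j _ (hh i)

theorem Pres.wr_mem (hd : Pres d O) (hv : ∀ i, v i ∈ O) : Wr d v ∈ O :=
  det_mem fun i j => Fin.cases (hv i) (fun j => hd j _ (hv i)) j

theorem Pres.comb (hd : Pres d O) {B : Matrix (Fin (m + 1)) (Fin (m + 1)) K} (hB : ∀ i j, B i j ∈ O) :
    Pres (comb d B) O := fun i x hx => by
  rw [comb_apply]
  exact sum_mem fun j _ => mul_mem (hB _ _) (hd j x hx)

theorem Pres.dual (hd : Pres d O) (hh : ∀ i, h i ∈ O) (hJ : (Jac d h)⁻¹ ∈ O) :
    Pres (dual d h) O := hd.comb fun i j => by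
  rw [Matrix.inv_def, Ring.inverse_eq_inv', Matrix.smul_apply, smul_eq_mul, adjugate_apply]
  refine mul_mem hJ (det_mem fun a b => ?_)
  rw [updateRow_apply]
  split_ifs
  · by_cases e : b = i <;> simp [e]
  · exact hd _ _ (hh a)

theorem Pres.jac_div_mem (hd : Pres (PA.dual d g) O) (hh : ∀ i, h i ∈ O) :
    Jac d h / Jac d g ∈ O := jac_dual (d := d) g h ▸ hd.jac_mem hh

theorem Pres.wr_div_mem (hd : Pres (PA.dual d g) O) (hv : ∀ i, v i ∈ O) :
    Wr d v / Jac d g ∈ O := wr_dual (d := d) g v ▸ hd.wr_mem hv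

theorem Pres.dual_of (hd : Pres (PA.dual d g) O) (hg : Jac d g ≠ 0) (hh : ∀ i, h i ∈ O)
    (hJ : Jac d g / Jac d h ∈ O) : Pres (PA.dual d h) O :=
  dual_dual hg h ▸ hd.dual hh (by rwa [jac_dual, inv_div])

/-! ### Unramified systems -/

variable {w : DV k K}

theorem DV.mul_fil {a b : ℤ} {x y : K} (hx : x ∈ w.fil a) (hy : y ∈ w.fil b) :
    x * y ∈ w.fil (a + b) := by
  by_cases h1 : x = 0
  · exact Or.inl (by rw [h1, zero_mul])
  by_cases h2 : y = 0
  · exact Or.inl (by rw [h2, mul_zero])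
  exact Or.inr (w.mul x y h1 h2 ▸ add_le_add (hx.resolve_left h1) (hy.resolve_left h2))

/-- The valuation ring. -/
def DV.vr (w : DV k K) : Subalgebra k K where
  carrier := w.fil 0
  mul_mem' := fun a b => DV.mul_fil a b
  add_mem' := fun a b => add_mem a b
  algebraMap_mem' := fun c => Or.inr (w.cst c).ge

theorem DV.mem_vr {x : K} : x ∈ w.vr ↔ x ∈ w.fil 0 := Iff.rfl

theorem dual_iff : Dual d w g ↔ Jac d g ≠ 0 ∧ Pres (dual d g) w.vr := by
  constructor
  · rintro ⟨c, h1, h2⟩
    have e : jacM d g * (Matrix.of c)ᵀ = 1 := by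
      ext l i
      have := h2 i l
      simp only [mul_comm (c i _)] at this
      simp [mul_apply, jacM, this, one_apply, eq_comm]
    refine ⟨left_ne_zero_of_mul_eq_one (by rw [jac_eq, ← det_mul, e, det_one]), fun i x hx => ?_⟩
    rw [dual, inv_eq_right_inv e, comb_apply]
    exact h1 i x hx
  · rintro ⟨h1, h2⟩
    refine ⟨fun i j => (jacM d g)⁻¹ j i, fun i x hx => ?_, fun i l => ?_⟩
    · rw [← comb_apply]
      exact h2 i x hx
    · rw [← comb_apply, show comb d (jacM d g)⁻¹ = dual d g from rfl, dual_apply h1]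
      simp [eq_comm]

theorem Dual.jac_ne (hD : Dual d w g) : Jac d g ≠ 0 := (dual_iff.1 hD).1

theorem Dual.jac_div (hD : Dual d w g) (hh : ∀ i, h i ∈ w.fil 0) :
    Jac d h / Jac d g ∈ w.fil 0 := (dual_iff.1 hD).2.jac_div_mem hh

theorem Dual.wr_div (hD : Dual d w g) (hv : ∀ i, v i ∈ w.fil 0) :
    Wr d v / Jac d g ∈ w.fil 0 := (dual_iff.1 hD).2.wr_div_mem hv

theorem Dual.of (hD : Dual d w g) (hh : ∀ i, h i ∈ w.fil 0) (h0 : Jac d h ≠ 0)
    (hJ : Jac d g / Jac d h ∈ w.fil 0) : Dual d w h :=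
  dual_iff.2 ⟨h0, (dual_iff.1 hD).2.dual_of hD.jac_ne hh hJ⟩

theorem Dual.JJ_div (hD : Dual d w g) (hT : T ≤ w.fil 0) {x : K} (hx : x ∈ JJ d T) :
    x / Jac d g ∈ w.fil 0 := by
  have := JJ_le (N := (w.fil 0).comap (LinearMap.mulRight k (Jac d g)⁻¹)) (fun h a => by
    rw [Submodule.mem_comap, LinearMap.mulRight_apply, ← div_eq_mul_inv]
    exact hD.jac_div fun i => hT (a i)) hx
  rwa [div_eq_mul_inv]

theorem Dual.WW_div (hD : Dual d w g) (hT : T ≤ w.fil 0) {x : K} (hx : x ∈ WW d T) :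
    x / Jac d g ∈ w.fil 0 := by
  have := WW_le (N := (w.fil 0).comap (LinearMap.mulRight k (Jac d g)⁻¹)) (fun h a => by
    rw [Submodule.mem_comap, LinearMap.mulRight_apply, ← div_eq_mul_inv]
    exact hD.wr_div fun i => hT (a i)) hx
  rwa [div_eq_mul_inv]

/-- A Jacobian of least order has dual derivations that preserve the ring. -/
theorem exists_jac_unit (hD : Dual d w g) (hT : T ≤ w.fil 0) {x : K} (hx : x ∈ JJ d T)
    (hu : x / Jac d g ∉ w.fil 1) : ∃ h : Fin (m + 1) → K, (∀ i, h i ∈ T) ∧ Dual d w h := by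
  by_contra hc
  push Not at hc
  apply hu
  have := JJ_le (N := (w.fil 1).comap (LinearMap.mulRight k (Jac d g)⁻¹)) (fun h a => by
    rw [Submodule.mem_comap, LinearMap.mulRight_apply, ← div_eq_mul_inv]
    by_contra c
    have h0 : Jac d h / Jac d g ≠ 0 := fun e => c (Or.inl e)
    refine hc h a (hD.of (fun i => hT (a i)) (div_ne_zero_iff.1 h0).1 (Or.inr ?_))
    have e := w.mul _ _ h0 (inv_ne_zero h0)
    have e1 := w.cst 1
    rw [mul_inv_cancel₀ h0, inv_div] at e
    rw [map_one] at e1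
    have : ¬ 1 ≤ w.ord (Jac d h / Jac d g) := fun z => c (Or.inr z)
    omega) hx
  rwa [div_eq_mul_inv]

/-! ### Degenerate systems and separability -/

theorem exists_der_of_JJ (hT : JJ d T = ⊥) :
    ∃ c : Fin (m + 1) → K, c ≠ 0 ∧ ∀ x ∈ T, ∑ j, c j * d j x = 0 := by
  have : Submodule.span K (Set.range fun (x : T) j => d j x) < ⊤ := by
    rw [lt_top_iff_ne_top]
    intro e
    have := MultilinearMap.ext_of_span_eq_top (g := fun {_ : Fin (m + 1)} (x : T) j => d j x)
      (fun _ => e) (φ := (detRowAlternating (n := Fin (m + 1)) (R := K)).toMultilinearMap)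
      (φ' := 0) fun x => (Submodule.mem_bot k).1 (hT ▸ jac_mem (d := d) fun i => (x i).2)
    have := DFunLike.congr_fun this (1 : Matrix (Fin (m + 1)) (Fin (m + 1)) K)
    exact one_ne_zero (det_one.symm.trans this)
  obtain ⟨f, f0, f1⟩ := Submodule.exists_le_ker_of_lt_top _ this
  refine ⟨fun j => f (Pi.single j 1), fun e => f0 ?_, fun x hx => ?_⟩
  · ext j
    simpa using congrFun e j
  · have := f1 (Submodule.subset_span ⟨⟨x, hx⟩, rfl⟩)
    rw [LinearMap.mem_ker, LinearMap.pi_apply_eq_sum_univ] at this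
    rw [← this]
    refine sum_congr rfl fun j _ => ?_
    rw [mul_comm, smul_eq_mul]
    congr 1
    refine congrArg f (funext fun i => ?_)
    simp [Pi.single_apply, eq_comm]

/-- If the Wronskians vanish then `V` meets `t i * V` trivially for some `i`. -/
theorem big {t : Fin (m + 1) → K} (ht : ∀ i j, d j (t i) = if i = j then 1 else 0)
    (hV : WW d V = ⊥) : ∃ i, ∀ x ∈ V, t i * x ∈ V → x = 0 := by
  by_cases h0 : ∀ x ∈ V, x = 0
  · exact ⟨0, fun x a _ => h0 x a⟩
  push Not at h0
  obtain ⟨σ, s1, s2⟩ := h0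
  obtain ⟨c, c0, c1⟩ := exists_der_of_JJ (d := d) (T := V.comap (LinearMap.mulLeft k σ)) (by
    rw [eq_bot_iff]
    intro x hx
    have := pow_mul_mem_WW s1 (fun _ a => a) hx
    rw [hV, Submodule.mem_bot] at this
    exact (mul_eq_zero.1 this).resolve_left (pow_ne_zero _ s2))
  obtain ⟨i, hi⟩ := Function.ne_iff.1 c0
  refine ⟨i, fun x a b => ?_⟩
  have h1 := c1 (x / σ) (by simpa [mul_div_cancel₀ _ s2] using a)
  have h2 := c1 (t i * (x / σ)) (by
    rwa [Submodule.mem_comap, LinearMap.mulLeft_apply, mul_left_comm, mul_div_cancel₀ _ s2])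
  simp only [Derivation.leibniz, smul_eq_mul, ht, mul_add, sum_add_distrib, mul_left_comm _ (t i),
    ← mul_sum, h1] at h2
  simpa [show c i ≠ 0 from hi, s2] using h2

open IntermediateField in
theorem der_eq_zero {S : Set K} [Algebra.IsSeparable (adjoin k S) K] (D : Derivation k K K)
    (hD : ∀ x ∈ S, D x = 0) : D = 0 := by
  have h1 : ∀ x ∈ adjoin k S, D x = 0 := fun x hx => by
    induction hx using IntermediateField.adjoin_induction with
    | mem x hx => exact hD x hx
    | algebraMap x => simp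
    | add x y _ _ a b => simp [a, b]
    | inv x _ a => simp [Derivation.leibniz_inv, a]
    | mul x y _ _ a b => simp [a, b]
  let D' : Derivation (adjoin k S) K K :=
    { toFun := D
      map_add' := map_add D
      map_smul' := fun c x => by
        simp [IntermediateField.smul_def, h1 c c.2]
      map_one_eq_zero' := D.map_one_eq_zero
      leibniz' := D.leibniz }
  have := Algebra.FormallyUnramified.of_isSeparable (adjoin k S) K
  ext x
  have e := D'.liftKaehlerDifferential_comp_D x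
  rw [Subsingleton.elim (KaehlerDifferential.D _ K x) 0, map_zero] at e
  exact e.symm

theorem Fr.der_eq {t : Fin (m + 1) → K} (hF : Fr t d) (D : Derivation k K K) :
    D = ∑ j, D (t j) • d j := by
  have := hF.sep
  refine sub_eq_zero.1 (der_eq_zero (S := Set.range t) _ ?_)
  rintro _ ⟨i, rfl⟩
  simp [der_sum, hF.dual]

theorem Fr.essFiniteType {t : Fin (m + 1) → K} (hF : Fr t d) : Algebra.EssFiniteType k K := by
  have := hF.fin
  have : Algebra.EssFiniteType k (IntermediateField.adjoin k (Set.range t)) :=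
    IntermediateField.essFiniteType_iff.2
      (IntermediateField.fg_adjoin_of_finite (Set.finite_range t))
  exact .comp _ (IntermediateField.adjoin k (Set.range t)) _

open scoped IntermediateField.algebraAdjoinAdjoin in
theorem Fr.trdeg {t : Fin (m + 1) → K} (hF : Fr t d) : Algebra.trdeg k K = (m + 1 : ℕ) := by
  have := hF.fin
  have : Algebra.IsAlgebraic (Algebra.adjoin k (Set.range t)) K :=
    IntermediateField.isAlgebraic_adjoin_iff_top.1 inferInstance
  rw [← (hF.ind.isTranscendenceBasis_iff_isAlgebraic.2 this).cardinalMk_eq_trdeg]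
  simp

/-- A tuple with nonzero Jacobian is a separating transcendence basis. -/
theorem Fr.of_jac {t : Fin (m + 1) → K} (hF : Fr t d) (hg : Jac d g ≠ 0) :
    Fr g (PA.dual d g) := by
  have := hF.essFiniteType
  have := Algebra.EssFiniteType.of_comp k (IntermediateField.adjoin k (Set.range g)) K
  have : Algebra.FormallyUnramified (IntermediateField.adjoin k (Set.range g)) K := by
    constructor
    rw [← Module.subsingleton_dual_iff K]
    refine subsingleton_of_forall_eq 0 fun f => Derivation.liftKaehlerDifferential_unique _ _ ?_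
    ext x
    let D := (f.compDer (KaehlerDifferential.D (IntermediateField.adjoin k (Set.range g))
      K)).restrictScalars k
    have h0 : ∀ i, D (g i) = 0 := fun i => (f.compDer (KaehlerDifferential.D
      (IntermediateField.adjoin k (Set.range g)) K)).map_algebraMap
        ⟨g i, IntermediateField.subset_adjoin _ _ ⟨i, rfl⟩⟩
    have : D x = 0 := by
      rw [hF.der_eq D, sum_chain hg, ← hF.der_eq D]
      simp [h0]
    exact this
  have hs := Algebra.FormallyUnramified.isSeparable (IntermediateField.adjoin k (Set.range g)) K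
  have : Algebra.IsAlgebraic (Algebra.adjoin k (Set.range g)) K :=
    IntermediateField.isAlgebraic_adjoin_iff_top.1 inferInstance
  exact ⟨(Algebra.IsAlgebraic.isTranscendenceBasis_of_le_trdeg_of_finite k g
    (by simp [hF.trdeg])).1, Algebra.FormallyUnramified.finite_of_free _ _, hs, dual_apply hg⟩

open scoped IntermediateField.algebraAdjoinAdjoin in
theorem exists_fr {t : Fin (m + 1) → K} (ht : AlgebraicIndependent k t)
    [FiniteDimensional (IntermediateField.adjoin k (Set.range t)) K]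
    [Algebra.IsSeparable (IntermediateField.adjoin k (Set.range t)) K] :
    ∃ d : Fin (m + 1) → Derivation k K K, Fr t d := by
  let A := Algebra.adjoin k (Set.range t)
  let e := ht.aevalEquiv
  have h1 : Algebra.FormallyEtale A (IntermediateField.adjoin k (Set.range t)) :=
    Algebra.FormallyEtale.of_isLocalization (nonZeroDivisors A)
  have h2 : Algebra.FormallyEtale (IntermediateField.adjoin k (Set.range t)) K :=
    Algebra.FormallyEtale.of_isSeparable _ _
  have h3 : Algebra.FormallyEtale A K :=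
    Algebra.FormallyEtale.comp A (IntermediateField.adjoin k (Set.range t)) K
  have he : ∀ a : A, MvPolynomial.aeval t (e.symm a) = a := fun a => by
    conv_rhs => rw [← e.apply_symm_apply a]
    exact (ht.algebraMap_aevalEquiv _).symm
  let δ : Fin (m + 1) → Derivation k A K := fun j =>
    { toLinearMap := (MvPolynomial.aeval t).toLinearMap ∘ₗ (MvPolynomial.pderiv j).toLinearMap ∘ₗ
        e.symm.toLinearMap
      map_one_eq_zero' := by simp
      leibniz' := fun a b => by
        simp [he, Subalgebra.smul_def] }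
  refine ⟨fun j => LinearMap.compDer ((δ j).liftKaehlerDifferential.liftBaseChange K ∘ₗ
    (KaehlerDifferential.tensorKaehlerEquivOfFormallyEtale k A K).symm.toLinearMap)
    (KaehlerDifferential.D k K), ht, inferInstance, inferInstance, fun i j => ?_⟩
  let t' : A := ⟨t i, Algebra.subset_adjoin ⟨i, rfl⟩⟩
  have h7 : e.symm t' = MvPolynomial.X i := by
    rw [AlgEquiv.symm_apply_eq]
    exact Subtype.ext (by simp [e, t'])
  have h8 : δ j t' = if i = j then 1 else 0 := by
    change MvPolynomial.aeval t (MvPolynomial.pderiv j (e.symm t')) = _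
    rw [h7, MvPolynomial.pderiv_X]
    by_cases c : i = j <;> simp [c]
  have h4 := congrArg (LinearMap.liftBaseChange K (δ j).liftKaehlerDifferential)
    (KaehlerDifferential.tensorKaehlerEquivOfFormallyEtale_symm_D_algebraMap k A K t')
  exact h4.trans (by simpa using h8)

end Pool.Agent.MP_19ffc6_ag.Res.PA
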