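import Pool.Agent.MP_19ffc6_ag.Res.Num
import Pool.Agent.MP_19ffc6_ag.Res.Wr

/-! PROJECT RES, part A: calculus of local degrees. -/

namespace Pool.Agent.MP_19ffc6_ag.Res.PA.LocK

open Submodule Finset Filter Pool.Agent.MP_19ffc6_ag.Res.PA.Num

variable {k K : Type} [Field k] [Field K] [Algebra k K] {T P P' P'' Q Q' : Submodule k K}
  {ρ ρ' : ℕ}

theorem sp_of_fintype {ι : Type} [Fintype ι] (e : ι → K) (he : ∀ i, e i ∈ P)
    (h : P ≤ span k (Set.range e) ⊔ Q) (hc : Fintype.card ι ≤ ρ) : Sp ρ P Q := by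
  obtain ⟨f⟩ : Nonempty (ι ↪ Fin ρ) := Function.Embedding.nonempty_of_card_le (by simpa using hc)
  refine ⟨Function.extend f e 0, fun i => ?_, h.trans (sup_le_sup_right (span_mono ?_) _)⟩
  · by_cases c : ∃ a, f a = i
    · obtain ⟨a, rfl⟩ := c
      rw [f.injective.extend_apply]
      exact he a
    · rw [Function.extend_apply' _ _ _ c]
      exact P.zero_mem
  · rintro _ ⟨a, rfl⟩
    exact ⟨f a, f.injective.extend_apply _ _ _⟩

theorem sp_mono (h : Sp ρ P Q) (hρ : ρ ≤ ρ') (hQ : Q ≤ Q') : Sp ρ' P Q' := by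
  obtain ⟨e, h1, h2⟩ := h
  exact sp_of_fintype e h1 (h2.trans (sup_le_sup_left hQ _)) (by simpa using hρ)

theorem sp_of_cod (hf : Fd P Q) (h : cod P Q ≤ ρ) : Sp ρ P Q := by
  have : Module.Finite k (P.map Q.mkQ) := Module.Finite.iff_fg.2 hf
  let b := Module.finBasis k (P.map Q.mkQ)
  choose e h1 h2 using fun i => (b i).2
  refine sp_of_fintype e h1 (fun x hx => ?_) (by simpa [cod] using h)
  have := congrArg Subtype.val (b.sum_repr ⟨_, mem_map_of_mem hx⟩)
  simp only [AddSubmonoidClass.coe_finsetSum, SetLike.val_smul, ← h2, ← map_smul,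
    ← map_sum] at this
  have h3 := (Submodule.Quotient.eq Q).1 this.symm
  rw [← add_sub_cancel (∑ i, b.repr ⟨_, mem_map_of_mem hx⟩ i • e i) x]
  exact add_mem (mem_sup_left (sum_mem fun i _ => smul_mem _ _ (subset_span ⟨i, rfl⟩)))
    (mem_sup_right h3)

theorem sp_chain {x : K} {Q₁ Q₂ : Submodule k K} (h₁ : Sp ρ P (pr k x * P' ⊔ Q₁))
    (h₂ : Sp ρ' P' Q₂) (hx : pr k x * P' ≤ P) (hQ₁ : Q₁ ≤ Q) (hQ₂ : pr k x * Q₂ ≤ Q) :
    Sp (ρ + ρ') P Q := by
  obtain ⟨e, a1, a2⟩ := h₁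
  obtain ⟨f, b1, b2⟩ := h₂
  refine sp_of_fintype (Sum.elim e fun i => x * f i) ?_ (a2.trans (sup_le ?_ (sup_le ?_ ?_)))
    (by simp)
  · rintro (i | i)
    exacts [a1 i, hx (mem_pr_mul.2 ⟨_, b1 i, rfl⟩)]
  · exact le_sup_of_le_left (span_mono fun _ ⟨i, e⟩ => ⟨Sum.inl i, e⟩)
  · refine (mul_le_mul_right b2 _).trans ?_
    rw [Submodule.mul_sup]
    refine sup_le_sup ?_ hQ₂
    rw [pr, span_mul_span]
    refine span_mono ?_
    rintro _ ⟨_, rfl, _, ⟨i, rfl⟩, rfl⟩
    exact ⟨Sum.inr i, rfl⟩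
  · exact le_sup_of_le_right hQ₁

/-- `P` is a module over the algebra generated by `T`. -/
def Md (T P : Submodule k K) : Prop := alg T * P ≤ P

theorem le_alg (T : Submodule k K) : T ≤ alg T := fun _ h => Algebra.subset_adjoin h

theorem Md.mem (h : Md T P) {a x : K} (ha : a ∈ alg T) (hx : x ∈ P) : a * x ∈ P :=
  h (mul_mem_mul ha hx)

theorem md_alg (T : Submodule k K) : Md T (alg T) :=
  mul_le.2 fun _ a _ b => (Algebra.adjoin k (T : Set K)).mul_mem a b

theorem Md.le (h : Md T P) {Y : Submodule k K} (hY : Y ≤ alg T) : Y * P ≤ P :=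
  (mul_le_mul_left hY _).trans h

theorem Md.mul (h : Md T P) (Y : Submodule k K) : Md T (Y * P) := by
  rw [Md, mul_left_comm]
  exact mul_le_mul_right h _

theorem Md.mul' (h : Md T P) (Y : Submodule k K) : Md T (P * Y) := mul_comm Y P ▸ h.mul Y

theorem Md.sup (h : Md T P) (h' : Md T P') : Md T (P ⊔ P') := by
  rw [Md, Submodule.mul_sup]
  exact sup_le_sup h h'

theorem md_bot : Md T ⊥ := by simp [Md]

theorem md_Mb (T J MM : Submodule k K) (b : ℕ) : Md T (Mb T J MM b) := (md_alg T).mul' _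

theorem md_nn (T : Submodule k K) : Md T (nn T) := (md_alg T).mul _

theorem pow_le_alg {Y : Submodule k K} (hY : Y ≤ alg T) (c : ℕ) : Y ^ c ≤ alg T := by
  induction c with
  | zero => simpa using one_mem_alg T
  | succ c ih => rw [pow_succ]; exact (mul_le_mul' ih hY).trans (md_alg T)

theorem Md.anti (h : Md T P) {a b : ℕ} (hab : a ≤ b) : T ^ b * P ≤ T ^ a * P := by
  obtain ⟨c, rfl⟩ := Nat.exists_eq_add_of_le hab
  rw [pow_add, mul_assoc]
  exact mul_le_mul_right (h.le (pow_le_alg (le_alg T) c)) _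

theorem md_fil {w : DV k K} (hT : T ≤ w.fil 0) (a : ℤ) : Md T (w.fil a) :=
  mul_le.2 fun x hx y hy => by
    simpa using DV.mul_fil (Algebra.adjoin_le (S := w.vr) hT hx) hy

section
variable {e : ℕ} {h : Fin e → K}

theorem mon_mem (hh : ∀ i, h i ∈ alg T) (α : Fin e → ℕ) : ∏ i, h i ^ α i ∈ alg T :=
  (Algebra.adjoin k (T : Set K)).prod_mem fun i _ => (Algebra.adjoin k (T : Set K)).pow_mem (hh i) _

theorem mon_mem_qq (hP : Md T P) (hh : ∀ i, h i ∈ alg T) {α : Fin e → ℕ} {r : ℕ} {i : Fin e}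
    (hi : r ≤ α i) {x : K} (hx : x ∈ P) : (∏ i, h i ^ α i) * x ∈ qq k h r * P := by
  have : ∏ j, h j ^ α j = h i ^ r * ∏ j, h j ^ (Function.update α i (α i - r) j) := by
    rw [← mul_prod_erase univ _ (mem_univ i), ← mul_prod_erase univ _ (mem_univ i), ← mul_assoc,
      Function.update_self, ← pow_add, Nat.add_sub_cancel' hi]
    congr 1
    exact prod_congr rfl fun j hj => by rw [Function.update_of_ne (ne_of_mem_erase hj)]
  rw [this, mul_assoc]
  exact mul_mem_mul (subset_span ⟨i, rfl⟩) (hP.mem (mon_mem hh _) hx)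

theorem mon_succ (α : Fin e → ℕ) (i : Fin e) :
    ∏ j, h j ^ (α + Pi.single i 1 : Fin e → ℕ) j = (∏ j, h j ^ α j) * h i := by
  simp only [Pi.add_apply, pow_add, prod_mul_distrib]
  simp [Pi.single_apply, apply_ite]

theorem span_mul_ind {C : K → Prop} {x : K} (hx : x ∈ span k (Set.range h) * P)
    (h0 : C 0) (h1 : ∀ i, ∀ y ∈ P, C (h i * y)) (h2 : ∀ x y, C x → C y → C (x + y)) : C x := by
  refine Submodule.mul_induction_on hx (fun a ha y hy => ?_) h2
  obtain ⟨c, rfl⟩ := (mem_span_range_iff_exists_fun k).1 ha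
  rw [sum_mul]
  refine sum_induction _ C h2 h0 fun i _ => ?_
  rw [smul_mul_assoc, ← mul_smul_comm]
  exact h1 i _ (P.smul_mem _ hy)

theorem sp_pow (hP : Md T P) (hQ : Md T Q) (hh : ∀ i, h i ∈ alg T)
    (hs : Sp ρ P (span k (Set.range h) * P ⊔ Q)) (r : ℕ) (hr : 0 < r) :
    Sp (ρ * r ^ e) P (qq k h r * P ⊔ Q) := by
  obtain ⟨f, f1, f2⟩ := hs
  refine sp_of_fintype (fun p : Fin ρ × (Fin e → Fin r) => (∏ i, h i ^ (p.2 i : ℕ)) * f p.1)
    (fun p => hP.mem (mon_mem hh _) (f1 _)) ?_ (by simp)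
  set F := span k (Set.range fun p : Fin ρ × (Fin e → Fin r) =>
    (∏ i, h i ^ (p.2 i : ℕ)) * f p.1) ⊔ (qq k h r * P ⊔ Q)
  suffices H : ∀ n (α : Fin e → ℕ), e * r - ∑ i, α i = n → ∀ x ∈ P, (∏ i, h i ^ α i) * x ∈ F by
    intro x hx
    simpa using H _ 0 rfl x hx
  intro n
  induction n using Nat.strong_induction_on with
  | _ n ih =>
  intro α hn x hx
  by_cases c : ∃ i, r ≤ α i
  · obtain ⟨i, hi⟩ := c
    exact mem_sup_right (mem_sup_left (mon_mem_qq hP hh hi hx))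
  push Not at c
  obtain ⟨y, hy, z', hz', rfl⟩ := mem_sup.1 (f2 hx)
  obtain ⟨z, hz, u, hu, rfl⟩ := mem_sup.1 hz'
  rw [mul_add, mul_add]
  refine add_mem (mem_sup_left ?_) (add_mem ?_
    (mem_sup_right (mem_sup_right (hQ.mem (mon_mem hh _) hu))))
  · obtain ⟨c', rfl⟩ := (mem_span_range_iff_exists_fun k).1 hy
    rw [mul_sum]
    refine sum_mem fun i _ => ?_
    rw [mul_smul_comm]
    exact smul_mem _ _ (subset_span ⟨(i, fun j => ⟨α j, c j⟩), rfl⟩)
  · refine span_mul_ind (C := fun z => (∏ i, h i ^ α i) * z ∈ F) hz (by simp) (fun i y hy => ?_)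
      fun x y a b => by simpa only [mul_add] using add_mem a b
    rw [← mul_assoc, ← mon_succ]
    refine ih _ ?_ _ rfl y hy
    have : ∑ j, α j < ∑ _ : Fin e, r := sum_lt_sum_of_nonempty ⟨i, mem_univ i⟩ fun j _ => c j
    simp only [sum_const, card_fin, smul_eq_mul] at this
    simp only [Pi.add_apply, sum_add_distrib, sum_pi_single', mem_univ, if_true]
    omega

theorem pow_mul_le_qq (hP : Md T P) (hh : ∀ i, h i ∈ alg T) (a : ℕ) :
    span k (Set.range h) ^ (e * a + 1) * P ≤ qq k h a * P := by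
  suffices H : ∀ N (α : Fin e → ℕ), e * a < ∑ i, α i + N → ∀ x ∈ span k (Set.range h) ^ N * P,
      (∏ i, h i ^ α i) * x ∈ qq k h a * P by
    intro x hx
    simpa using H _ 0 (by simp) x hx
  intro N
  induction N with
  | zero =>
    intro α hα x hx
    obtain ⟨i, -, hi⟩ := exists_lt_of_sum_lt (s := univ) (f := fun _ => a) (g := α)
      (by simpa using hα)
    exact mon_mem_qq hP hh hi.le (by simpa using hx)
  | succ N ih =>
    intro α hα x hx
    rw [pow_succ', mul_assoc] at hx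
    refine span_mul_ind (C := fun z => (∏ i, h i ^ α i) * z ∈ qq k h a * P) hx (by simp)
      (fun i y hy => ?_) fun x y a b => by simpa only [mul_add] using add_mem a b
    rw [← mul_assoc, ← mon_succ]
    refine ih _ ?_ y hy
    simp only [Pi.add_apply, sum_add_distrib, sum_pi_single', mem_univ, if_true]
    omega

theorem span_le_alg {ι : Type} {y : ι → K} (hy : ∀ i, y i ∈ alg T) :
    span k (Set.range y) ≤ alg T := span_le.2 fun _ ⟨i, e⟩ => e ▸ hy i

/-- Iteration of a reduction. -/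
theorem rd_iter {ι : Type} {j : ℕ} {y : ι → K} (hP : Md T P) (hQ : Md T Q)
    (hy : ∀ i, y i ∈ alg T) (h : Rd T j y P Q) :
    ∃ e₀, ∀ c L, T ^ (e₀ + j * c) * P ≤ span k (Set.range y) ^ c * P ⊔ T ^ L * P ⊔ Q := by
  obtain ⟨e₀, h⟩ := h
  set Y := span k (Set.range y)
  have h1 : ∀ s, T ^ (e₀ + s + j) * P ≤ Y * (T ^ (e₀ + s) * P) ⊔ T ^ (e₀ + s + j + 1) * P ⊔ Q := by
    intro s
    have := mul_le_mul_right h (T ^ s)
    rw [Submodule.mul_sup, Submodule.mul_sup] at this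
    refine le_of_eq_of_le (by ring) (this.trans (sup_le_sup (sup_le_sup (le_of_eq (by ring))
      (le_of_eq (by ring))) (hQ.le (pow_le_alg (le_alg T) s))))
  have h2 : ∀ s L, T ^ (e₀ + s + j) * P ≤
      Y * (T ^ (e₀ + s) * P) ⊔ T ^ (e₀ + s + j + L) * P ⊔ Q := by
    intro s L
    induction L with
    | zero => exact le_sup_of_le_left le_sup_right
    | succ L ih =>
      refine ih.trans (sup_le (sup_le (le_sup_of_le_left le_sup_left) ?_) le_sup_right)
      refine le_of_eq_of_le (by ring) ((h1 (s + L)).trans (sup_le_sup_right (sup_le_sup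
        (mul_le_mul_right (hP.anti (by omega)) _) (le_of_eq (by ring))) _))
  refine ⟨e₀, fun c L => ?_⟩
  induction c with
  | zero =>
    refine le_sup_of_le_left (le_sup_of_le_left ?_)
    simpa using hP.anti (Nat.zero_le e₀)
  | succ c ih =>
    refine le_of_eq_of_le (by ring) ((h2 (j * c) L).trans (sup_le (sup_le ?_
      (le_sup_of_le_left (le_sup_of_le_right (hP.anti (by omega))))) le_sup_right))
    refine (mul_le_mul_right ih _).trans ?_
    rw [Submodule.mul_sup, Submodule.mul_sup]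
    exact sup_le_sup (sup_le_sup (le_of_eq (by ring)) ((hP.mul _).le (span_le_alg hy)))
      (hQ.le (span_le_alg hy))

/-- Growth and a reduction bound the local degree. -/
theorem ld_of_gr {μ j : ℕ} (hP : Md T P) (hQ : Md T Q) (hh : ∀ i, h i ∈ alg T)
    (hf : ∀ L, Fd P (T ^ L * P ⊔ Q)) (hG : Gr e μ T P Q) (hR : Rd T j h P Q) :
    Ld (μ * (2 * (j + 1) * (e + 1)) ^ e) T h P Q := by
  obtain ⟨e₀, h1⟩ := rd_iter hP hQ hh hR
  set q := (j + 1) * (e + 1) with hq
  have q0 : 0 < q := by positivity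
  obtain ⟨L₀, h2, h3⟩ := (hG.and_eventually (eventually_ge_atTop (e₀ + q * (e₀ + 1)))).exists
  set a := (L₀ - e₀) / q with ha
  have a1 : e₀ + 1 ≤ a := (Nat.le_div_iff_mul_le q0).2 (by rw [mul_comm]; omega)
  have a2 : q * a ≤ L₀ - e₀ := Nat.mul_div_le _ _
  have a3 : L₀ - e₀ < q * (a + 1) := Nat.lt_mul_div_succ _ q0
  have a4 : L₀ ≤ 2 * q * a := by nlinarith [Nat.sub_add_cancel (show e₀ ≤ L₀ by omega)]
  refine ⟨a, by omega, fun L => sp_mono (sp_of_cod (hf L₀) h2) ?_ (sup_le ?_ le_sup_right)⟩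
  · rw [mul_assoc, ← mul_pow, mul_assoc 2, ← hq]
    exact Nat.mul_le_mul_left _ (Nat.pow_le_pow_left a4 _)
  · refine (hP.anti (show e₀ + j * (e * a + 1) ≤ L₀ from ?_)).trans ((h1 _ L).trans
      (sup_le_sup_right (sup_le_sup_right (pow_mul_le_qq hP hh a) _) _))
    have : j * (e * a + 1) ≤ q * a := by rw [hq]; nlinarith
    omega

theorem ld_mul {C : ℕ} (hP : Md T P) (hQ : Md T Q) (hh : ∀ i, h i ∈ alg T) {a : ℕ}
    (H : ∀ L : ℕ, Sp (C * a ^ e) P (qq k h a * P ⊔ T ^ L * P ⊔ Q)) {r : ℕ} (hr : 0 < r) (L : ℕ) :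
    Sp (C * (a * r) ^ e) P (qq k h (a * r) * P ⊔ T ^ L * P ⊔ Q) := by
  have := sp_pow (h := fun i => h i ^ a) hP ((hP.mul (T ^ L)).sup hQ)
    (fun i => (Algebra.adjoin k (T : Set K)).pow_mem (hh i) _) (sup_assoc _ _ Q ▸ H L) r hr
  simpa only [qq, ← pow_mul, mul_assoc, ← mul_pow, sup_assoc] using this

theorem ld_mono {C C' : ℕ} (H : Ld C T h P Q) (hC : C ≤ C') (hQ : Q ≤ Q') : Ld C' T h P Q' := by
  obtain ⟨a, a0, H⟩ := H
  exact ⟨a, a0, fun L => sp_mono (H L) (Nat.mul_le_mul_right _ hC) (sup_le_sup_left hQ _)⟩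

theorem ld_chain {C C' : ℕ} {x : K} (hP : Md T P) (hP' : Md T P') (hQ : Md T Q)
    (hh : ∀ i, h i ∈ alg T) (hx : pr k x * P' ≤ P) (H : Ld C T h P (pr k x * P'))
    (H' : Ld C' T h P' Q) : Ld (C + C') T h P (pr k x * Q) := by
  obtain ⟨a, a0, H⟩ := H
  obtain ⟨b, b0, H'⟩ := H'
  refine ⟨a * b, by positivity, fun L => ?_⟩
  have h1 := ld_mul hP (hP'.mul _) hh H b0 L
  have h2 := ld_mul hP' hQ hh H' a0 L
  rw [mul_comm b a] at h2
  rw [sup_comm] at h1
  rw [add_mul]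
  refine sp_chain h1 h2 hx le_sup_left ?_
  rw [Submodule.mul_sup, Submodule.mul_sup, mul_left_comm, mul_left_comm _ (T ^ L)]
  exact sup_le_sup_right (sup_le_sup (mul_le_mul_right hx _) (mul_le_mul_right hx _)) _

theorem pr_mul_pr (x y : K) : pr k x * pr k y = pr k (x * y) := by
  simp [pr, span_mul_span]

theorem ld_self (hP : Md T P) : Ld 0 T h P (pr k 1 * P) := by
  refine ⟨1, one_pos, fun L => sp_of_fintype (ι := Empty) Empty.elim (fun i => i.elim)
    (le_sup_of_le_right (le_sup_of_le_right fun x hx => mem_pr_mul.2 ⟨x, hx, one_mul x⟩)) (by simp)⟩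

theorem ld_prod {C : ℕ} {ι : Type} (hP : Md T P) (hh : ∀ i, h i ∈ alg T) (s : Multiset ι)
    {x : ι → K} (hx : ∀ i, x i ∈ alg T) (H : ∀ i ∈ s, Ld C T h P (pr k (x i) * P)) :
    Ld (s.card * C) T h P (pr k (s.map x).prod * P) := by
  induction s using Multiset.induction_on with
  | empty => simpa using ld_self hP
  | cons i s ih =>
    have := ld_chain hP hP (hP.mul _) hh (hP.le ((span_singleton_le_iff_mem _ _).2 (hx i)))
      (H i (by simp)) (ih fun j hj => H j (by simp [hj]))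
    rw [← mul_assoc, pr_mul_pr] at this
    simpa [add_mul, add_comm] using this

end

/-- Reductions depend only on leading terms. -/
theorem rd_congr {ι : Type} {j : ℕ} {y y' : ι → K} {u : k} (hu : u ≠ 0) (hP : Md T P)
    (hy : ∀ i, y' i - u • y i ∈ T ^ (j + 1) * alg T) (h : Rd T j y P Q) : Rd T j y' P Q := by
  obtain ⟨e, h⟩ := h
  refine ⟨e, h.trans (sup_le_sup_right (sup_le ?_ le_sup_right) _)⟩
  have : span k (Set.range y) ≤ span k (Set.range y') ⊔ T ^ (j + 1) * alg T := by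
    refine span_le.2 ?_
    rintro _ ⟨i, rfl⟩
    have := smul_mem _ u⁻¹ (sub_mem (mem_sup_left (subset_span ⟨i, rfl⟩ : y' i ∈
      span k (Set.range y'))) (mem_sup_right (hy i)))
    simpa [smul_smul, hu] using this
  refine (mul_le_mul_left this _).trans ?_
  rw [Submodule.sup_mul]
  refine sup_le_sup_left (le_of_eq_of_le (b := T ^ (e + j + 1) * (alg T * P)) (by ring) ?_) _
  exact mul_le_mul_right hP _

end Pool.Agent.MP_19ffc6_ag.Res.PA.LocK
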