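import Pool.Agent.MP_19ffc6_ag.Res.ASpec
import Pool.Agent.MP_19ffc6_ag.Res.LocK
import Pool.Agent.MP_19ffc6_ag.Res.Div
import Pool.Agent.MP_19ffc6_ag.Res.Codim

/-! PROJECT RES, part A: general points, charts, rational points and units. -/

namespace Pool.Agent.MP_19ffc6_ag.Res.PA

open Submodule Pool.Agent.MP_19ffc6_ag.Res.PA.Num Pool.Agent.MP_19ffc6_ag.Res.PA.LocK

variable {k K : Type} [Field k] [Field K] [Algebra k K] {m : ℕ}

/-! ### General points -/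

section Gen

variable {J : Type} {P Q : (J → k) → Prop}

theorem Gen.of_forall (h : ∀ l, P l) : Gen P := ⟨1, one_ne_zero, fun l _ => h l⟩

theorem Gen.mono (h : Gen P) (hPQ : ∀ l, P l → Q l) : Gen Q :=
  let ⟨D, h0, h1⟩ := h
  ⟨D, h0, fun l hl => hPQ l (h1 l hl)⟩

theorem Gen.and (h : Gen P) (h' : Gen Q) : Gen fun l => P l ∧ Q l := by
  obtain ⟨D, h0, h1⟩ := h
  obtain ⟨D', h0', h1'⟩ := h'
  refine ⟨D * D', mul_ne_zero h0 h0', fun l hl => ?_⟩
  rw [map_mul] at hl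
  exact ⟨h1 l (left_ne_zero_of_mul hl), h1' l (right_ne_zero_of_mul hl)⟩

theorem Gen.finite {ι : Type} {s : Set ι} (hs : s.Finite) {R : ι → (J → k) → Prop}
    (h : ∀ i ∈ s, Gen (R i)) : Gen fun l => ∀ i ∈ s, R i l := by
  induction s, hs using Set.Finite.induction_on with
  | empty => exact .of_forall fun _ _ hi => hi.elim
  | insert _ _ ih =>
    refine ((h _ (Set.mem_insert _ _)).and (ih fun i hi => h i (Set.mem_insert_of_mem _ hi))).mono
      fun l hl i hi => ?_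
    rcases hi with rfl | hi
    exacts [hl.1, hl.2 i hi]

theorem Gen.all {ι : Type} [Finite ι] {R : ι → (J → k) → Prop} (h : ∀ i, Gen (R i)) :
    Gen fun l => ∀ i, R i l :=
  (Gen.finite Set.finite_univ fun i _ => h i).mono fun _ hl i => hl i trivial

theorem Gen.exists [Infinite k] (h : Gen P) : ∃ l, P l := by
  obtain ⟨D, h0, h1⟩ := h
  by_contra hc
  exact h0 (MvPolynomial.funext fun l => by
    by_contra h2
    exact hc ⟨l, h1 l (by simpa using h2)⟩)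

theorem Gen.of_eval {D : MvPolynomial J k} {l₀ : J → k} (h0 : MvPolynomial.eval l₀ D ≠ 0)
    (h : ∀ l, MvPolynomial.eval l D ≠ 0 → P l) : Gen P :=
  ⟨D, fun e => h0 (by rw [e, map_zero]), h⟩

end Gen

/-! ### Charts -/

variable {T U V : Submodule k K} {a b σ : K}

theorem mem_alg : a ∈ alg T ↔ a ∈ Algebra.adjoin k (T : Set K) := Iff.rfl

theorem alg_mono (h : T ≤ U) : alg T ≤ alg U := fun _ hx => Algebra.adjoin_mono h hx

theorem alg_mul (ha : a ∈ alg T) (hb : b ∈ alg T) : a * b ∈ alg T := (md_alg T).mem ha hb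

theorem alg_pow (ha : a ∈ alg T) (n : ℕ) : a ^ n ∈ alg T :=
  (Algebra.adjoin k (T : Set K)).pow_mem ha n

theorem cst_mem_alg (T : Submodule k K) (c : k) : algebraMap k K c ∈ alg T :=
  (Algebra.adjoin k (T : Set K)).algebraMap_mem c

theorem one_le_alg (T : Submodule k K) : 1 ≤ alg T := one_le.2 (one_mem_alg T)

theorem alg_eq_of_le (h : T ≤ U) (h' : U ≤ alg T) : alg U = alg T :=
  le_antisymm (fun _ hx => Algebra.adjoin_le (S := Algebra.adjoin k (T : Set K)) h' hx) (alg_mono h)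

theorem alg_one_sup (T : Submodule k K) : alg (1 ⊔ T) = alg T :=
  alg_eq_of_le le_sup_right (sup_le (one_le_alg T) (le_alg T))

theorem alg_alg (T : Submodule k K) : alg (alg T) = alg T := alg_eq_of_le (le_alg T) le_rfl

theorem alg_mul_alg (T : Submodule k K) : alg T * alg T = alg T :=
  le_antisymm (md_alg T) fun x hx => by simpa using mul_mem_mul (one_mem_alg T) hx

theorem JJ_one_sup (d : Fin (m + 1) → Derivation k K K) (T : Submodule k K) :
    JJ d (1 ⊔ T) = JJ d T := by rw [sup_comm, JJ_sup_one]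

theorem le_nn (T : Submodule k K) : T ≤ nn T := fun x hx => by
  simpa [nn] using mul_mem_mul hx (one_mem_alg T)

theorem nn_le (T : Submodule k K) : nn T ≤ alg T := (md_alg T).le (le_alg T)

theorem mul_mem_nn (ha : a ∈ alg T) (hb : b ∈ nn T) : a * b ∈ nn T := (md_nn T).mem ha hb

theorem exists_cst (ha : a ∈ alg T) : ∃ c : k, a - algebraMap k K c ∈ nn T := by
  obtain ⟨x, hx, y, hy, rfl⟩ := mem_sup.1 (alg_le T ha)
  obtain ⟨c, rfl⟩ := mem_one.1 hx
  exact ⟨c, by rw [add_sub_cancel_left]; exact hy⟩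

theorem cst_eq_zero (h1 : (1 : K) ∉ nn T) {c : k} (hc : algebraMap k K c ∈ nn T) : c = 0 := by
  by_contra h
  have := (nn T).smul_mem c⁻¹ hc
  rw [Algebra.smul_def, ← map_mul, inv_mul_cancel₀ h, map_one] at this
  exact h1 this

theorem exists_cst_ne (ha : a ∈ alg T) (ha' : a ∉ nn T) :
    ∃ c : k, c ≠ 0 ∧ a - algebraMap k K c ∈ nn T := by
  obtain ⟨c, hc⟩ := exists_cst ha
  exact ⟨c, fun e => ha' (by simpa [e] using hc), hc⟩

/-- A unit at the point acts as a nonzero constant modulo `T P`. -/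
theorem mem_of_unit_mul {P Q : Submodule k K} (hP : Md T P) (ha : a ∈ alg T) (ha' : a ∉ nn T)
    (hQ : T * P ≤ Q) {x : K} (hx : x ∈ P) (h : a * x ∈ Q) : x ∈ Q := by
  obtain ⟨c, h0, hc⟩ := exists_cst_ne ha ha'
  have h1 : (a - algebraMap k K c) * x ∈ Q := by
    refine hQ ((?_ : nn T * P ≤ T * P) (mul_mem_mul hc hx))
    rw [nn, mul_assoc]; exact mul_le_mul_right hP _
  have h2 := Q.smul_mem c⁻¹ (Q.sub_mem h h1)
  rwa [sub_mul, sub_sub_cancel, ← Algebra.smul_def, inv_smul_smul₀ h0] at h2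

theorem mul_notMem_nn (ha : a ∈ alg T) (hb : b ∈ alg T) (ha' : a ∉ nn T) (hb' : b ∉ nn T) :
    a * b ∉ nn T := fun h => hb' (mem_of_unit_mul (md_alg T) ha ha' le_rfl hb h)

theorem pow_notMem_nn (h1 : (1 : K) ∉ nn T) (ha : a ∈ alg T) (ha' : a ∉ nn T) (n : ℕ) :
    a ^ n ∉ nn T := by
  induction n with
  | zero => simpa using h1
  | succ n ih => rw [pow_succ]; exact mul_notMem_nn (alg_pow ha n) ha ih ha'

/-- A unit at the point is invertible modulo every power of `T`. -/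
theorem exists_inv (ha : a ∈ alg T) (ha' : a ∉ nn T) (L : ℕ) :
    ∃ b ∈ alg T, a * b - 1 ∈ T ^ L * alg T := by
  obtain ⟨c, h0, hc⟩ := exists_cst_ne ha ha'
  have h1 : 1 - c⁻¹ • a ∈ nn T := by
    have := (nn T).neg_mem ((nn T).smul_mem c⁻¹ hc)
    rwa [smul_sub, Algebra.algebraMap_eq_smul_one, inv_smul_smul₀ h0, neg_sub] at this
  refine ⟨c⁻¹ • ∑ i ∈ Finset.range L, (1 - c⁻¹ • a) ^ i, (alg T).smul_mem _
    (Submodule.sum_mem _ fun i _ => alg_pow (nn_le T h1) i), ?_⟩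
  have h2 : a * c⁻¹ • ∑ i ∈ Finset.range L, (1 - c⁻¹ • a) ^ i - 1 = -(1 - c⁻¹ • a) ^ L := by
    have := mul_neg_geom_sum (1 - c⁻¹ • a) L
    rw [sub_sub_cancel] at this
    rw [mul_smul_comm, ← smul_mul_assoc, this]; ring
  rw [h2]
  refine neg_mem ((?_ : nn T ^ L ≤ _) (pow_mem_pow _ h1 L))
  rw [nn, mul_pow]
  exact mul_le_mul_right (pow_le_alg le_rfl L) _

/-- A module is generated by its multiples by a unit modulo every power of `T`. -/
theorem le_unit_mul {P : Submodule k K} (hP : Md T P) (ha : a ∈ alg T) (ha' : a ∉ nn T) (L : ℕ) :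
    P ≤ pr k a * P ⊔ T ^ L * P := fun x hx => by
  obtain ⟨b, hb, h⟩ := exists_inv ha ha' L
  have e : x = a * (b * x) - (a * b - 1) * x := by ring
  rw [e]
  refine sub_mem (mem_sup_left (mem_pr_mul.2 ⟨_, hP.mem hb hx, rfl⟩)) (mem_sup_right ?_)
  refine (?_ : T ^ L * alg T * P ≤ _) (mul_mem_mul h hx)
  rw [mul_assoc]; exact mul_le_mul_right hP _

theorem pr_one : pr k (1 : K) = 1 := one_eq_span.symm

theorem pr_pow (a : K) (n : ℕ) : pr k a ^ n = pr k (a ^ n) := by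
  rw [pr, pr, span_pow, Set.singleton_pow]

theorem pr_fg (a : K) : (pr k a).FG := fg_span_singleton a

theorem pr_inv_mul (ha : a ≠ 0) (P : Submodule k K) : pr k a⁻¹ * (pr k a * P) = P := by
  rw [← mul_assoc, pr_mul_pr, inv_mul_cancel₀ ha, pr_one, one_mul]

theorem pr_mul_inv (ha : a ≠ 0) (P : Submodule k K) : pr k a * (pr k a⁻¹ * P) = P := by
  rw [← mul_assoc, pr_mul_pr, mul_inv_cancel₀ ha, pr_one, one_mul]

theorem mem_pr_inv_mul (hσ : σ ≠ 0) : a ∈ pr k σ⁻¹ * V ↔ σ * a ∈ V := by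
  rw [mem_pr_mul]
  exact ⟨fun ⟨x, hx, e⟩ => by rwa [← e, mul_inv_cancel_left₀ hσ],
    fun h => ⟨_, h, inv_mul_cancel_left₀ hσ _⟩⟩

theorem div_pow_mem_chart (n : ℕ) (ha : a ∈ V ^ n) : a / σ ^ n ∈ (pr k σ⁻¹ * V) ^ n := by
  rw [mul_pow, pr_pow, mem_pr_mul]
  exact ⟨a, ha, by rw [inv_pow, div_eq_inv_mul]⟩

theorem Hyp.chart (h : Hyp V σ T) : pr k σ⁻¹ * V = 1 ⊔ T := by rw [h.eq, pr_inv_mul h.ne]

theorem Hyp.pnt (h : Hyp V σ T) (h1 : (1 : K) ∉ nn T) : Pnt (pr k σ⁻¹ * V) T := ⟨h.chart, h1⟩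

theorem Pnt.hyp (hσ : σ ≠ 0) (h : Pnt (pr k σ⁻¹ * V) T) : Hyp V σ T :=
  ⟨hσ, by rw [← h.1, pr_mul_inv hσ], fun h1 => h.2 (le_nn T h1)⟩

theorem Hyp.mem (h : Hyp V σ T) : σ ∈ V := by
  rw [h.eq]; exact mem_pr_mul.2 ⟨1, mem_sup_left (one_le.1 le_rfl), mul_one σ⟩

theorem Hyp.mul_mem (h : Hyp V σ T) (ha : a ∈ T) : σ * a ∈ V := h.le (mem_pr_mul.2 ⟨a, ha, rfl⟩)

theorem Hyp.div_mem (h : Hyp V σ T) (ha : a ∈ V) : a / σ ∈ 1 ⊔ T := by
  rw [← h.chart, mem_pr_inv_mul h.ne, mul_div_cancel₀ _ h.ne]; exact ha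

theorem Hyp.div_pow_mem (h : Hyp V σ T) (n : ℕ) (ha : a ∈ V ^ n) : a / σ ^ n ∈ alg T := by
  have := div_pow_mem_chart (σ := σ) n ha
  rw [h.chart] at this
  exact pow_le_alg (sup_le (one_le_alg T) (le_alg T)) n this

theorem Pnt.le (h : Pnt U T) : T ≤ U := h.1 ▸ le_sup_right

theorem Pnt.one (h : Pnt U T) : (1 : K) ∈ U := h.1 ▸ mem_sup_left (one_le.1 le_rfl)

theorem Pnt.alg (h : Pnt U T) : alg U = alg T := by rw [h.1, alg_one_sup]

theorem Pnt.JJ (h : Pnt U T) (d : Fin (m + 1) → Derivation k K K) : JJ d U = JJ d T := by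
  rw [h.1, JJ_one_sup]

theorem Pnt.fg (h : Pnt U T) (hU : U.FG) : T.FG := St.fg_of_le hU h.le

theorem Hyp.fg (h : Hyp V σ T) (hV : V.FG) : T.FG :=
  St.fg_of_le ((pr_fg σ⁻¹).mul hV) (h.chart ▸ le_sup_right)

theorem chart_le_fil {w : DV k K} (hV : V.FG) (h : w.Min V σ) : pr k σ⁻¹ * V ≤ w.fil 0 := by
  intro x hx
  have h1 := St.le_fil_ordS w hV ((mem_pr_inv_mul h.2.1).1 hx)
  rwa [← h.2.2, ← add_zero (w.ord σ), St.mul_mem_fil h.2.1] at h1

theorem alg_le_fil {w : DV k K} (h : T ≤ w.fil 0) : alg T ≤ w.fil 0 := fun _ hx =>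
  Algebra.adjoin_le (S := w.vr) h hx

theorem Hyp.le_fil {w : DV k K} (h : Hyp V σ T) (hV : V.FG) (hw : w.Min V σ) : T ≤ w.fil 0 :=
  le_trans (h.chart ▸ le_sup_right) (chart_le_fil hV hw)

/-! ### Rational points and homomorphisms -/

theorem finiteType_alg (hU : U.FG) : Algebra.FiniteType k (Algebra.adjoin k (U : Set K)) := by
  obtain ⟨s, rfl⟩ := hU
  rw [Algebra.adjoin_span]
  exact (Subalgebra.fg_iff_finiteType _).1 (Subalgebra.fg_adjoin_finset s)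

/-- The point defined by a homomorphism. -/
def ptOf (U : Submodule k K) (y : Algebra.adjoin k (U : Set K) →ₐ[k] k) : Submodule k K :=
  U ⊓ (LinearMap.ker y.toLinearMap).map (Algebra.adjoin k (U : Set K)).val.toLinearMap

variable {y : Algebra.adjoin k (U : Set K) →ₐ[k] k}

theorem mem_ptOf : a ∈ ptOf U y ↔ ∃ h : a ∈ U, y ⟨a, Algebra.subset_adjoin h⟩ = 0 :=
  ⟨fun ⟨h, _, hx, e⟩ => ⟨h, by subst e; exact hx⟩, fun ⟨h, e⟩ => ⟨h, _, e, rfl⟩⟩

theorem eq_sup_ptOf (h1 : (1 : K) ∈ U) : U = 1 ⊔ ptOf U y := by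
  refine le_antisymm (fun x hx => mem_sup.2 ⟨algebraMap k K (y ⟨x, Algebra.subset_adjoin hx⟩),
    mem_one.2 ⟨_, rfl⟩, x - _, mem_ptOf.2 ⟨U.sub_mem hx (one_le.2 h1 (mem_one.2 ⟨_, rfl⟩)), ?_⟩,
    add_sub_cancel _ _⟩) (sup_le (one_le.2 h1) inf_le_left)
  have := map_sub y ⟨x, Algebra.subset_adjoin hx⟩ (algebraMap k _ (y ⟨x, Algebra.subset_adjoin hx⟩))
  rw [y.commutes, Algebra.algebraMap_self_apply, sub_self] at this
  exact this

theorem map_nn_ptOf (ha : a ∈ nn (ptOf U y)) : ∃ h, y ⟨a, h⟩ = 0 := by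
  refine Submodule.mul_induction_on ha (fun t ht b hb => ?_) fun _ _ ⟨h1, e1⟩ ⟨h2, e2⟩ =>
    ⟨add_mem h1 h2, (map_add y ⟨_, h1⟩ ⟨_, h2⟩).trans (by rw [e1, e2, add_zero])⟩
  obtain ⟨h, e⟩ := mem_ptOf.1 ht
  have h2 : b ∈ Algebra.adjoin k (U : Set K) := alg_mono (T := ptOf U y) inf_le_left hb
  exact ⟨mul_mem (Algebra.subset_adjoin h) h2,
    (map_mul y ⟨_, Algebra.subset_adjoin h⟩ ⟨_, h2⟩).trans (by rw [e, zero_mul])⟩

theorem pnt_ptOf (h1 : (1 : K) ∈ U) (y : Algebra.adjoin k (U : Set K) →ₐ[k] k) :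
    Pnt U (ptOf U y) := ⟨eq_sup_ptOf h1, fun h => by
  obtain ⟨_, e⟩ := map_nn_ptOf h
  exact one_ne_zero ((map_one y).symm.trans e)⟩

theorem mem_nn_ptOf (h1 : (1 : K) ∈ U) (x : Algebra.adjoin k (U : Set K)) :
    (x : K) ∈ nn (ptOf U y) ↔ y x = 0 := by
  refine ⟨fun h => (map_nn_ptOf h).2, fun h => ?_⟩
  obtain ⟨c, hc⟩ := exists_cst ((pnt_ptOf h1 y).alg ▸ (show (x : K) ∈ alg U from x.2))
  obtain ⟨_, e⟩ := map_nn_ptOf hc
  have h2 := (map_sub y x (algebraMap k _ c)).symm.trans e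
  rw [h, y.commutes, Algebra.algebraMap_self_apply, zero_sub, neg_eq_zero] at h2
  simpa [h2] using hc

/-- The evaluation at a rational point. -/
theorem Pnt.exists_ev (h : Pnt U T) : ∃ y : Algebra.adjoin k (U : Set K) →ₐ[k] k,
    (∀ x, x.1 - algebraMap k K (y x) ∈ nn T) ∧ (∀ x, x.1 ∈ nn T ↔ y x = 0) ∧ T = ptOf U y := by
  have h0 : ∀ x : Algebra.adjoin k (U : Set K), (x : K) ∈ PA.alg T := fun x => h.alg ▸ x.2
  choose f hf using fun x => exists_cst (h0 x)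
  have u : ∀ x c, x.1 - algebraMap k K c ∈ nn T → f x = c := fun x c hc => by
    have := sub_mem hc (hf x)
    rw [sub_sub_sub_cancel_left, ← map_sub] at this
    exact sub_eq_zero.1 (cst_eq_zero h.2 this)
  let y : Algebra.adjoin k (U : Set K) →ₐ[k] k :=
    { toFun := f
      map_one' := u _ _ (by simp)
      map_zero' := u _ _ (by simp)
      map_add' := fun x z => u _ _ (by
        have := add_mem (hf x) (hf z)
        rwa [sub_add_sub_comm, ← map_add] at this)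
      map_mul' := fun x z => u _ _ (by
        have := add_mem (mul_mem_nn (h0 x) (hf z)) (mul_mem_nn (cst_mem_alg T (f z)) (hf x))
        rwa [show (x : K) * (z - algebraMap k K (f z)) + algebraMap k K (f z) *
          (x - algebraMap k K (f x)) = x * z - algebraMap k K (f x * f z) by
            rw [map_mul]; ring] at this)
      commutes' := fun c => u _ _ (by simp) }
  have h2 : ∀ x, x.1 ∈ nn T ↔ y x = 0 := fun x =>
    ⟨fun hx => u _ _ (by simpa using hx), fun hx => by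
      have := hf x
      rwa [show f x = 0 from hx, map_zero, sub_zero] at this⟩
  refine ⟨y, hf, h2, le_antisymm (fun x hx => mem_ptOf.2 ⟨h.le hx, (h2 _).1 (le_nn T hx)⟩)
    fun x hx => ?_⟩
  obtain ⟨h3, h4⟩ := mem_ptOf.1 hx
  obtain ⟨_, h5, t, ht, rfl⟩ := mem_sup.1 (h.1.le h3)
  obtain ⟨c, rfl⟩ := mem_one.1 h5
  have h6 := sub_mem ((h2 _).2 h4) (le_nn T ht)
  rw [cst_eq_zero (c := c) h.2 (by simpa using h6), map_zero, zero_add]
  exact ht

/-- A proper ideal of the chart vanishes at a rational point. -/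
theorem exists_pnt [IsAlgClosed k] (hU : U.FG) (h1 : (1 : K) ∈ U) {N : Submodule k K}
    (hN : Md U N) (h : (1 : K) ∉ N) : ∃ T, Pnt U T ∧ N ⊓ alg U ≤ nn T := by
  have := finiteType_alg hU
  let I : Ideal (Algebra.adjoin k (U : Set K)) :=
    { carrier := {x | (x : K) ∈ N}
      add_mem' := fun a b => N.add_mem a b
      zero_mem' := N.zero_mem
      smul_mem' := fun c _ hx => hN.mem c.2 hx }
  obtain ⟨y, hy⟩ := Codim.exists_pt (k := k) I fun e => h ((Ideal.eq_top_iff_one I).1 e)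
  exact ⟨_, pnt_ptOf h1 y, fun x hx => (mem_nn_ptOf h1 ⟨x, hx.2⟩).2 (hy _ hx.1)⟩

/-! ### Local degrees -/

variable {e C : ℕ} {g : Fin e → K} {P Q : Submodule k K}

theorem Sp.fd {ρ : ℕ} (h : Sp ρ P Q) : Fd P Q ∧ cod P Q ≤ ρ := by
  obtain ⟨v, h1, h2⟩ := h
  have h3 : (span k (Set.range v)).FG := fg_span (Set.finite_range v)
  refine ⟨fd_of_le h3 h2, (St.cod_le_of_le_sup (St.fd_of_fg h3 Q) h2).trans ?_⟩
  have : Module.Finite k (span k (Set.range v)) := Module.Finite.iff_fg.2 h3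
  refine (finrank_map_le _ _).trans ?_
  simpa [Set.finrank] using finrank_range_le_card (R := k) v

theorem sp_iff {ρ : ℕ} : Sp ρ P Q ↔ Fd P Q ∧ cod P Q ≤ ρ := ⟨Sp.fd, fun h => sp_of_cod h.1 h.2⟩

theorem Sp.pr_mul {ρ : ℕ} (h : Sp ρ P Q) (c : K) : Sp ρ (pr k c * P) (pr k c * Q) := by
  obtain ⟨v, h1, h2⟩ := h
  refine ⟨fun i => c * v i, fun i => mem_pr_mul.2 ⟨_, h1 i, rfl⟩, ?_⟩
  refine (mul_le_mul_right h2 _).trans ?_
  rw [Submodule.mul_sup, pr, span_mul_span, Set.singleton_mul, ← Set.range_comp]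
  rfl

theorem Ld.pr_mul (h : Ld C T g P Q) (c : K) : Ld C T g (pr k c * P) (pr k c * Q) := by
  obtain ⟨a, h0, h⟩ := h
  refine ⟨a, h0, fun L => ?_⟩
  have := (h L).pr_mul c
  rwa [Submodule.mul_sup, Submodule.mul_sup, mul_left_comm, mul_left_comm _ (T ^ L)] at this

/-- The numerators may be multiplied by units. -/
theorem Ld.unit (h1 : (1 : K) ∉ nn T) (hP : Md T P) {u : Fin e → K} (hu : ∀ i, u i ∈ alg T)
    (hu' : ∀ i, u i ∉ nn T) (hg : ∀ i, g i ∈ alg T) (h : Ld C T g P Q) :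
    Ld C T (fun i => u i * g i) P Q := by
  obtain ⟨a, h0, h⟩ := h
  refine ⟨a, h0, fun L => sp_mono (h L) le_rfl (sup_le_sup_right (sup_le ?_ le_sup_right) _)⟩
  refine mul_le.2 fun z hz x hx => ?_
  refine span_induction (p := fun z _ => z * x ∈ _) ?_ (by simp)
    (fun _ _ _ _ h1 h2 => by rw [add_mul]; exact add_mem h1 h2)
    (fun c _ _ h1 => by rw [smul_mul_assoc]; exact smul_mem _ c h1) hz
  rintro _ ⟨i, rfl⟩
  obtain ⟨_, h2, z, hz, rfl⟩ := mem_sup.1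
    (le_unit_mul hP (alg_pow (hu i) a) (pow_notMem_nn h1 (hu i) (hu' i) a) L hx)
  obtain ⟨x', hx', rfl⟩ := mem_pr_mul.1 h2
  rw [mul_add, ← mul_assoc, ← mul_pow, mul_comm (g i)]
  exact add_mem (mem_sup_left (mul_mem_mul (subset_span ⟨i, rfl⟩) hx'))
    (mem_sup_right ((hP.mul _).mem (alg_pow (hg i) a) hz))

end Pool.Agent.MP_19ffc6_ag.Res.PA
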