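import Mathlib.Tactic.Module
import Mathlib.Data.Matrix.Mul
import Mathlib.Algebra.Module.CharacterModule
import Mathlib.GroupTheory.SpecificGroups.Cyclic
import Mathlib.Data.Int.Star
import Mathlib.Algebra.Order.Ring.Star
import Mathlib.Analysis.Normed.Field.Lemmas
import Mathlib.Data.Rat.Star
import Mathlib.Order.CompletePartialOrder
import Mathlib.Tactic.Algebra.Basic
import Mathlib.Algebra.Algebra.Subalgebra.Pointwise
import Mathlib.RingTheory.AlgebraicIndependent.Defs
import Mathlib.Analysis.Normed.Ring.Lemmas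
import Pool.Agent.MP_19ffc6_ag.Lci.Basic
import Mathlib.Tactic.Monotonicity.Lemmas
import Mathlib.Algebra.Lie.OfAssociative
import Mathlib.RingTheory.DedekindDomain.IntegralClosure
import Mathlib.RingTheory.Valuation.LocalSubring
import Mathlib.Data.Finset.Functor
import Mathlib.FieldTheory.PurelyInseparable.Exponent
import Mathlib.RingTheory.TotallySplit
import Mathlib.RingTheory.NoetherNormalization

-- ======== part 0: formerly Pool.Agent.MP_19ffc6_ag.Res.TorC
section MrgPart0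

/-! Combinatorics of labelled rational cones and of their star subdivisions. -/

namespace Pool.Agent.MP_19ffc6_ag.Res.Tor

open Filter

/-- A cone given by labelled linear forms on a lattice. -/
structure Typ (ι : Type) (r : ℕ) where
  R : Set ι
  row : ι → Fin r → ℤ

variable {ι : Type} {r : ℕ}

/-- Dickson's lemma for a family of integer vectors that is bounded below. -/
lemma dickson [Finite ι] {X : Type} (φ : X → ι → ℤ) (a : ι → ℤ) (S : Set X)
    (hS : ∀ x ∈ S, a ≤ φ x) : ∃ F : Set X, F.Finite ∧ F ⊆ S ∧ ∀ x ∈ S, ∃ f ∈ F, φ f ≤ φ x := by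
  classical
  let ψ : X → ι → ℕ := fun x i => (φ x i - a i).toNat
  have hp := Set.isPWO_of_wellQuasiOrderedLE (ψ '' S)
  have hf : {y | Minimal (· ∈ ψ '' S) y}.Finite :=
    WellQuasiOrderedLE.finite_of_isAntichain (setOfPred_minimal_antichain _)
  obtain ⟨F, hF, hF1, hF2⟩ := Set.Finite.exists_subset_finite_image_eq (f := ψ) (s := S) hf
    fun y hy => hy.1
  refine ⟨F, hF1, hF, fun x hx => ?_⟩
  obtain ⟨y, hy, hy'⟩ := hp.exists_le_minimal ⟨x, hx, rfl⟩
  obtain ⟨f, hf1, rfl⟩ : y ∈ ψ '' F := hF2.symm ▸ hy'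
  refine ⟨f, hf1, fun i => ?_⟩
  have h1 : (φ f i - a i).toNat ≤ (φ x i - a i).toNat := hy i
  have h2 : a i ≤ φ x i := hS x hx i
  have h3 : a i ≤ φ f i := hS f (hF hf1) i
  change φ f i ≤ φ x i
  omega

namespace Typ

variable (τ : Typ ι r)

/-- The values of the linear forms. -/
def ev (c : Fin r → ℤ) (ρ : ι) : ℤ := τ.row ρ ⬝ᵥ c

/-- The lattice points where the forms are at least `a`. -/
def Reg (a : ι → ℤ) : Set (Fin r → ℤ) := {c | ∀ ρ ∈ τ.R, a ρ ≤ τ.ev c ρ}

/-- The forms span the dual space. -/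
def Pointed : Prop := ∀ c, (∀ ρ ∈ τ.R, τ.ev c ρ = 0) → c = 0

/-- The forms lie in an open half space. -/
def Strict : Prop := ∃ g, ∀ ρ ∈ τ.R, 0 < τ.ev g ρ

/-- `g` spans an edge of the dual cone. -/
def Extreme (g : Fin r → ℤ) : Prop :=
  g ∈ τ.Reg 0 ∧ ∀ c, (∀ ρ ∈ τ.R, τ.ev g ρ = 0 → τ.ev c ρ = 0) → ∃ m n : ℤ, m ≠ 0 ∧ m • c = n • g

/-- The form `ρ` is independent of the other forms. -/
def Free (ρ : ι) : Prop := ∃ g, 0 < τ.ev g ρ ∧ ∀ σ ∈ τ.R, σ ≠ ρ → τ.ev g σ = 0

/-- The forms generate the dual lattice and are independent. -/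
def Uni : Prop := ∀ a : ι → ℤ, ∃ c, ∀ ρ ∈ τ.R, τ.ev c ρ = a ρ

/-- The same cone with one more label that does not occur. -/
def keep : Typ (Option ι) r := ⟨some '' τ.R, fun o => o.elim 0 τ.row⟩

variable {τ}

lemma ev_add (c c' : Fin r → ℤ) (ρ : ι) : τ.ev (c + c') ρ = τ.ev c ρ + τ.ev c' ρ :=
  dotProduct_add _ _ _

lemma ev_sub (c c' : Fin r → ℤ) (ρ : ι) : τ.ev (c - c') ρ = τ.ev c ρ - τ.ev c' ρ :=
  dotProduct_sub _ _ _

lemma ev_neg (c : Fin r → ℤ) (ρ : ι) : τ.ev (-c) ρ = -τ.ev c ρ := dotProduct_neg _ _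

lemma ev_zero (ρ : ι) : τ.ev 0 ρ = 0 := dotProduct_zero _

lemma ev_smul (n : ℤ) (c : Fin r → ℤ) (ρ : ι) : τ.ev (n • c) ρ = n * τ.ev c ρ :=
  dotProduct_smul _ _ _

lemma ev_nsmul (n : ℕ) (c : Fin r → ℤ) (ρ : ι) : τ.ev (n • c) ρ = n * τ.ev c ρ := by
  rw [← natCast_zsmul, ev_smul]

lemma ev_sum {κ : Type} (s : Finset κ) (c : κ → Fin r → ℤ) (ρ : ι) :
    τ.ev (∑ i ∈ s, c i) ρ = ∑ i ∈ s, τ.ev (c i) ρ := dotProduct_sum _ _ _

lemma zero_mem_reg : (0 : Fin r → ℤ) ∈ τ.Reg 0 := fun ρ _ => (ev_zero ρ).ge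

lemma add_mem_reg {a b : ι → ℤ} {c c' : Fin r → ℤ} (h : c ∈ τ.Reg a) (h' : c' ∈ τ.Reg b) :
    c + c' ∈ τ.Reg (a + b) := fun ρ hρ => by
  rw [ev_add]; exact add_le_add (h ρ hρ) (h' ρ hρ)

lemma add_mem_reg0 {a : ι → ℤ} {c c' : Fin r → ℤ} (h : c ∈ τ.Reg a) (h' : c' ∈ τ.Reg 0) :
    c + c' ∈ τ.Reg a := by simpa using add_mem_reg h h'

lemma nsmul_mem_reg {c : Fin r → ℤ} (h : c ∈ τ.Reg 0) (n : ℕ) : n • c ∈ τ.Reg 0 :=
  fun ρ hρ => by rw [ev_nsmul]; exact mul_nonneg (Nat.cast_nonneg n) (h ρ hρ)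

lemma reg_mono {a b : ι → ℤ} (h : a ≤ b) : τ.Reg b ⊆ τ.Reg a :=
  fun _ hc ρ hρ => (h ρ).trans (hc ρ hρ)

lemma closure_le_reg {G : Set (Fin r → ℤ)} (hG : G ⊆ τ.Reg 0) {c : Fin r → ℤ}
    (hc : c ∈ AddSubmonoid.closure G) : c ∈ τ.Reg 0 := by
  induction hc using AddSubmonoid.closure_induction with
  | mem x hx => exact hG hx
  | zero => exact zero_mem_reg
  | add x y _ _ hx hy => exact add_mem_reg0 hx hy

lemma ev_keep (c : Fin r → ℤ) (ρ : ι) : τ.keep.ev c (some ρ) = τ.ev c ρ := rfl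

lemma reg_keep (a : Option ι → ℤ) : τ.keep.Reg a = τ.Reg (fun ρ => a (some ρ)) := by
  ext c
  constructor
  · exact fun h ρ hρ => h (some ρ) ⟨ρ, hρ, rfl⟩
  · rintro h _ ⟨ρ, hρ, rfl⟩; exact h ρ hρ

lemma Pointed.keep (h : τ.Pointed) : τ.keep.Pointed :=
  fun c hc => h c fun ρ hρ => hc (some ρ) ⟨ρ, hρ, rfl⟩

lemma Strict.keep (h : τ.Strict) : τ.keep.Strict := by
  obtain ⟨g, hg⟩ := h
  refine ⟨g, ?_⟩
  rintro _ ⟨ρ, hρ, rfl⟩
  exact hg ρ hρ

lemma Free.keep {ρ : ι} (h : τ.Free ρ) : τ.keep.Free (some ρ) := by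
  obtain ⟨g, hg, hg'⟩ := h
  refine ⟨g, hg, ?_⟩
  rintro _ ⟨σ, hσ, rfl⟩ hne
  exact hg' σ hσ fun e => hne (by rw [e])

/-- A multiple of a strictly positive vector moves every vector into every region. -/
lemma ev_add_reg [Finite ι] {a : ι → ℤ} {f g : Fin r → ℤ} (hg : g ∈ τ.Reg 0)
    (h : ∀ ρ ∈ τ.R, τ.ev g ρ = 0 → a ρ ≤ τ.ev f ρ) : ∀ᶠ t : ℕ in atTop, f + t • g ∈ τ.Reg a := by
  have : ∀ ρ, ∀ᶠ t : ℕ in atTop, ρ ∈ τ.R → a ρ ≤ τ.ev (f + t • g) ρ := by
    intro ρ
    filter_upwards [eventually_ge_atTop (a ρ - τ.ev f ρ).toNat] with t ht hρ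
    rw [ev_add, ev_nsmul]
    have h0 : (0 : ℤ) ≤ τ.ev g ρ := hg ρ hρ
    rcases h0.eq_or_lt with e | e
    · have := h ρ hρ e.symm
      rw [← e]; simpa using this
    · have h1 : a ρ - τ.ev f ρ ≤ t := by omega
      nlinarith [Nat.cast_nonneg (α := ℤ) t]
  exact eventually_all.2 this

/-- The regions are finitely generated modules over the monoid of the cone. -/
lemma reg_fg [Finite ι] (a : ι → ℤ) (S : Set (Fin r → ℤ)) (hS : S ⊆ τ.Reg a) :
    ∃ F : Set (Fin r → ℤ), F.Finite ∧ F ⊆ S ∧ ∀ c ∈ S, ∃ f ∈ F, c - f ∈ τ.Reg 0 := by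
  classical
  obtain ⟨F, h1, h2, h3⟩ := dickson (fun c ρ => if ρ ∈ τ.R then τ.ev c ρ else a ρ) a S
    fun c hc ρ => by
      by_cases h : ρ ∈ τ.R
      · simpa [h] using hS hc ρ h
      · simp [h]
  refine ⟨F, h1, h2, fun c hc => ?_⟩
  obtain ⟨f, hf, h⟩ := h3 c hc
  refine ⟨f, hf, fun ρ hρ => ?_⟩
  have := h ρ
  simp only [hρ, if_true] at this
  rw [ev_sub]; simpa using this

/-- Gordan's lemma. -/
lemma gordan [Fintype ι] (hp : τ.Pointed) : ∃ F : Set (Fin r → ℤ), F.Finite ∧ F ⊆ τ.Reg 0 ∧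
    ∀ c ∈ τ.Reg 0, c ∈ AddSubmonoid.closure F := by
  classical
  obtain ⟨F, h1, h2, h3⟩ := reg_fg 0 (τ.Reg 0 \ {0}) Set.sdiff_subset
  refine ⟨F, h1, h2.trans Set.sdiff_subset, ?_⟩
  let w : (Fin r → ℤ) → ℕ := fun c => ∑ ρ, if ρ ∈ τ.R then (τ.ev c ρ).toNat else 0
  intro c
  induction hn : w c using Nat.strong_induction_on generalizing c with
  | _ n ih =>
    intro hc
    by_cases h0 : c = 0
    · rw [h0]; exact zero_mem _
    obtain ⟨f, hf, h⟩ := h3 c ⟨hc, h0⟩
    have hf0 := h2 hf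
    obtain ⟨ρ, hρ, hρ'⟩ : ∃ ρ ∈ τ.R, τ.ev f ρ ≠ 0 := by
      by_contra H
      push Not at H
      exact hf0.2 (hp f H)
    have hlt : w (c - f) < w c := by
      refine Finset.sum_lt_sum (fun σ _ => ?_) ⟨ρ, Finset.mem_univ _, ?_⟩
      · split_ifs with hσ
        · have : (0 : ℤ) ≤ τ.ev f σ := hf0.1 σ hσ
          rw [ev_sub]; omega
        · rfl
      · have h4 : (0 : ℤ) ≤ τ.ev f ρ := hf0.1 ρ hρ
        have h5 : (0 : ℤ) ≤ τ.ev (c - f) ρ := h ρ hρ
        rw [ev_sub] at h5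
        rw [if_pos hρ, if_pos hρ, ev_sub]; omega
    have := ih _ (hn ▸ hlt) (c - f) rfl h
    rw [← sub_add_cancel c f]
    exact add_mem this (AddSubmonoid.subset_closure hf)

/-- A multiple of every point of the dual cone is a sum of points on the edges. -/
lemma edges_one [Finite ι] (hp : τ.Pointed) (c : Fin r → ℤ) (hc : c ∈ τ.Reg 0) :
    ∃ G : Set (Fin r → ℤ), G.Finite ∧ (∀ g ∈ G, τ.Extreme g) ∧
      ∃ d : ℕ, 0 < d ∧ d • c ∈ AddSubmonoid.closure G := by
  induction hn : {ρ | ρ ∈ τ.R ∧ τ.ev c ρ ≠ 0}.ncard using Nat.strong_induction_on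
    generalizing c with
  | _ n ih =>
    by_cases he : τ.Extreme c
    · exact ⟨{c}, Set.finite_singleton _, by simpa using he, 1, one_pos,
        by simpa using AddSubmonoid.subset_closure (Set.mem_singleton c)⟩
    obtain ⟨x, hx, hx'⟩ : ∃ x, (∀ ρ ∈ τ.R, τ.ev c ρ = 0 → τ.ev x ρ = 0) ∧
        ∀ m n : ℤ, m ≠ 0 → m • x ≠ n • c := by
      by_contra H
      refine he ⟨hc, fun x hx => ?_⟩
      by_contra H'
      exact H ⟨x, hx, fun m n hm e => H' ⟨m, n, hm, e⟩⟩
    set T := {ρ | ρ ∈ τ.R ∧ τ.ev c ρ ≠ 0} with hT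
    have hpos : ∀ ρ ∈ T, 0 < τ.ev c ρ := fun ρ hρ => lt_of_le_of_ne (hc ρ hρ.1) hρ.2.symm
    have hne : T.Nonempty := by
      by_contra H
      refine hx' 1 0 one_ne_zero ?_
      rw [hp x fun ρ hρ => hx ρ hρ (by by_contra h; exact H ⟨ρ, hρ, h⟩)]
      simp
    -- one step in the direction `y = x` or `y = -x`
    have key : ∀ y, (∀ ρ ∈ τ.R, τ.ev c ρ = 0 → τ.ev y ρ = 0) → ∃ α ∈ T,
        (τ.ev y α • c - τ.ev c α • y) ∈ τ.Reg 0 ∧
        {ρ | ρ ∈ τ.R ∧ τ.ev (τ.ev y α • c - τ.ev c α • y) ρ ≠ 0}.ncard < n := by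
      intro y hy
      obtain ⟨α, hα, hmax⟩ := Set.exists_max_image T (fun ρ => (τ.ev y ρ : ℚ) / τ.ev c ρ)
        (Set.toFinite _) hne
      refine ⟨α, hα, fun ρ hρ => ?_, ?_⟩
      · rw [ev_sub, ev_smul, ev_smul]
        by_cases h : τ.ev c ρ = 0
        · simp [h, hy ρ hρ h]
        · have h1 := hmax ρ ⟨hρ, h⟩
          rw [div_le_div_iff₀ (by exact_mod_cast hpos ρ ⟨hρ, h⟩) (by exact_mod_cast hpos α hα)]
            at h1
          have h2 : τ.ev y ρ * τ.ev c α ≤ τ.ev y α * τ.ev c ρ := by exact_mod_cast h1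
          simp only [Pi.zero_apply]; linarith
      · rw [← hn]
        refine Set.ncard_lt_ncard ⟨fun ρ hρ => ⟨hρ.1, fun h => hρ.2 ?_⟩, fun H => ?_⟩
          (Set.toFinite _)
        · rw [ev_sub, ev_smul, ev_smul, h, hy ρ hρ.1 h]; simp
        · refine (H hα).2 ?_
          rw [ev_sub, ev_smul, ev_smul]; ring
    obtain ⟨α, hα, h1, h1'⟩ := key x hx
    obtain ⟨β, hβ, h2, h2'⟩ := key (-x) fun ρ hρ h => by rw [ev_neg, hx ρ hρ h, neg_zero]
    obtain ⟨G1, a1, b1, d1, hd1, e1⟩ := ih _ h1' _ h1 rfl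
    obtain ⟨G2, a2, b2, d2, hd2, e2⟩ := ih _ h2' _ h2 rfl
    set c1 := τ.ev x α • c - τ.ev c α • x with hc1
    set c2 := τ.ev (-x) β • c - τ.ev c β • (-x) with hc2
    have hD : τ.ev c β • c1 + τ.ev c α • c2 =
        (τ.ev c β * τ.ev x α - τ.ev c α * τ.ev x β) • c := by
      rw [hc1, hc2, ev_neg]; module
    have hD0 : 0 < τ.ev c β * τ.ev x α - τ.ev c α * τ.ev x β := by
      have hc10 : c1 ≠ 0 := fun e => hx' _ _ (hpos α hα).ne' (sub_eq_zero.1 e).symm
      obtain ⟨ρ, hρ, hρ'⟩ : ∃ ρ ∈ τ.R, τ.ev c1 ρ ≠ 0 := by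
        by_contra H
        push Not at H
        exact hc10 (hp _ H)
      have h3 := congrArg (fun u => τ.ev u ρ) hD
      simp only [ev_add, ev_smul] at h3
      have h4 : 0 < τ.ev c1 ρ := lt_of_le_of_ne (h1 ρ hρ) hρ'.symm
      have h5 : 0 ≤ τ.ev c2 ρ := h2 ρ hρ
      have h6 : 0 ≤ τ.ev c ρ := hc ρ hρ
      have h7 := mul_pos (hpos β hβ) h4
      have h8 := mul_nonneg (hpos α hα).le h5
      by_contra H
      nlinarith
    obtain ⟨D, hDD⟩ := Int.eq_ofNat_of_zero_le hD0.le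
    obtain ⟨p, hp'⟩ := Int.eq_ofNat_of_zero_le (hpos α hα).le
    obtain ⟨q, hq⟩ := Int.eq_ofNat_of_zero_le (hpos β hβ).le
    refine ⟨G1 ∪ G2, a1.union a2, fun g hg => hg.elim (b1 g) (b2 g), d1 * d2 * D,
      by have : 0 < D := by omega
         positivity, ?_⟩
    rw [hDD, hp', hq, natCast_zsmul, natCast_zsmul, natCast_zsmul] at hD
    have : (d1 * d2 * D) • c = (d2 * q) • d1 • c1 + (d1 * p) • d2 • c2 := by
      rw [mul_smul, ← hD]; module
    rw [this]
    exact add_mem (nsmul_mem (AddSubmonoid.closure_mono Set.subset_union_left e1) _)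
      (nsmul_mem (AddSubmonoid.closure_mono Set.subset_union_right e2) _)

lemma edges [Fintype ι] (hp : τ.Pointed) : ∃ G : Set (Fin r → ℤ), G.Finite ∧
    (∀ g ∈ G, τ.Extreme g) ∧ ∀ c ∈ τ.Reg 0, ∃ d : ℕ, 0 < d ∧ d • c ∈ AddSubmonoid.closure G := by
  obtain ⟨F, h1, h2, h3⟩ := gordan hp
  choose! G hG using fun c hc => edges_one hp c hc
  refine ⟨⋃ f ∈ F, G f, h1.biUnion fun f hf => (hG f (h2 hf)).1, fun g hg => ?_, fun c hc => ?_⟩
  · obtain ⟨f, hf, hg⟩ := Set.mem_iUnion₂.1 hg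
    exact (hG f (h2 hf)).2.1 g hg
  · have := h3 c hc
    clear hc
    induction this using AddSubmonoid.closure_induction with
    | mem x hx =>
      obtain ⟨d, hd, e⟩ := (hG x (h2 hx)).2.2
      exact ⟨d, hd, AddSubmonoid.closure_mono (Set.subset_biUnion_of_mem (u := G) hx) e⟩
    | zero => exact ⟨1, one_pos, by simp⟩
    | add x y _ _ hx hy =>
      obtain ⟨d, hd, e⟩ := hx
      obtain ⟨d', hd', e'⟩ := hy
      refine ⟨d * d', mul_pos hd hd', ?_⟩
      have : (d * d') • (x + y) = d' • d • x + d • d' • y := by module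
      rw [this]
      exact add_mem (nsmul_mem e _) (nsmul_mem e' _)

end Typ

variable [Fintype ι]

/-- The pairing of a rational weight with an integer vector. -/
def vp (v : ι → ℚ) (a : ι → ℤ) : ℚ := ∑ ρ, v ρ * a ρ

lemma vp_add (v : ι → ℚ) (a b : ι → ℤ) : vp v (a + b) = vp v a + vp v b := by
  simp [vp, mul_add, Finset.sum_add_distrib]

lemma vp_neg (v : ι → ℚ) (a : ι → ℤ) : vp v (-a) = -vp v a := by simp [vp]

lemma vp_zero (v : ι → ℚ) : vp v 0 = 0 := by simp [vp]

lemma vp_single [DecidableEq ι] (v : ι → ℚ) (ρ : ι) (n : ℤ) : vp v (Pi.single ρ n) = v ρ * n := by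
  rw [vp, Finset.sum_eq_single ρ]
  · simp
  · intro j _ hj; simp [Pi.single_eq_of_ne hj]
  · simp

lemma vp_le {v : ι → ℚ} (hv : 0 ≤ v) {a b : ι → ℤ} (h : ∀ ρ, v ρ ≠ 0 → a ρ ≤ b ρ) :
    vp v a ≤ vp v b := Finset.sum_le_sum fun ρ _ => by
  by_cases h0 : v ρ = 0
  · simp [h0]
  · exact mul_le_mul_of_nonneg_left (by exact_mod_cast h ρ h0) (hv ρ)

lemma vp_congr {v : ι → ℚ} {a b : ι → ℤ} (h : ∀ ρ, v ρ ≠ 0 → a ρ = b ρ) : vp v a = vp v b :=
  Finset.sum_congr rfl fun ρ _ => by
    by_cases h0 : v ρ = 0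
    · simp [h0]
    · rw [h ρ h0]

namespace Typ

variable (τ : Typ ι r)

/-- The weight `v` is a lattice point of the cone. -/
def App (v : ι → ℚ) : Prop := (∀ ρ, v ρ ≠ 0 → ρ ∈ τ.R) ∧ ∀ c, ∃ n : ℤ, vp v (τ.ev c) = n

/-- The cone of the star subdivision at `v` that belongs to the edge `g` of the dual cone. -/
noncomputable def star (v : ι → ℚ) (g : Fin r → ℤ) : Typ (Option ι) r :=
  ⟨insert none (some '' {ρ | ρ ∈ τ.R ∧ τ.ev g ρ = 0}),
    fun o => o.elim (fun j => ⌊vp v (τ.ev (Pi.single j 1))⌋) τ.row⟩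

/-- The lattice points of the fundamental parallelepiped. -/
def Par : Set (ι → ℚ) := {v | (∀ ρ, 0 ≤ v ρ ∧ v ρ < 1) ∧ τ.App v}

variable {τ} {v : ι → ℚ} {g : Fin r → ℤ}

lemma vp_ev_add (c c' : Fin r → ℤ) :
    vp v (τ.ev (c + c')) = vp v (τ.ev c) + vp v (τ.ev c') := by
  rw [← vp_add]; congr 1; funext ρ; exact ev_add _ _ _

lemma vp_ev_smul (n : ℤ) (c : Fin r → ℤ) : vp v (τ.ev (n • c)) = n * vp v (τ.ev c) := by
  simp only [vp, ev_smul, Finset.mul_sum]
  exact Finset.sum_congr rfl fun ρ _ => by push_cast; ring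

lemma vp_ev_nsmul (n : ℕ) (c : Fin r → ℤ) : vp v (τ.ev (n • c)) = n * vp v (τ.ev c) := by
  rw [← natCast_zsmul, vp_ev_smul, Int.cast_natCast]

lemma vp_ev_sub (c c' : Fin r → ℤ) :
    vp v (τ.ev (c - c')) = vp v (τ.ev c) - vp v (τ.ev c') := by
  rw [eq_sub_iff_add_eq, ← vp_ev_add, sub_add_cancel]

lemma vp_ev_zero : vp v (τ.ev 0) = 0 := by simpa using vp_ev_sub (τ := τ) (v := v) 0 0

lemma App.le (h : τ.App v) (hv : 0 ≤ v) {a : ι → ℤ} {c : Fin r → ℤ} (hc : c ∈ τ.Reg a) :
    vp v a ≤ vp v (τ.ev c) := vp_le hv fun ρ hρ => hc ρ (h.1 ρ hρ)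

lemma App.nonneg (h : τ.App v) (hv : 0 ≤ v) {c : Fin r → ℤ} (hc : c ∈ τ.Reg 0) :
    0 ≤ vp v (τ.ev c) := by simpa [vp_zero] using h.le hv hc

lemma ev_star_some (c : Fin r → ℤ) (ρ : ι) : (τ.star v g).ev c (some ρ) = τ.ev c ρ := rfl

lemma ev_star_none (h : τ.App v) (c : Fin r → ℤ) :
    ((τ.star v g).ev c none : ℚ) = vp v (τ.ev c) := by
  have h1 : ∀ j, ((⌊vp v (τ.ev (Pi.single j 1))⌋ : ℤ) : ℚ) = vp v (τ.ev (Pi.single j 1)) :=
    fun j => by obtain ⟨n, hn⟩ := h.2 (Pi.single j 1); rw [hn, Int.floor_intCast]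
  have h2 : ∀ s : Finset (Fin r), vp v (τ.ev (∑ j ∈ s, c j • Pi.single j 1)) =
      ∑ j ∈ s, c j * vp v (τ.ev (Pi.single j 1)) := fun s => by
    induction s using Finset.cons_induction with
    | empty => simpa using vp_ev_zero
    | cons j s hj ih => rw [Finset.sum_cons, Finset.sum_cons, vp_ev_add, vp_ev_smul, ih]
  have h3 : c = ∑ j, c j • Pi.single j 1 := by
    ext j; simp [Finset.sum_apply, Pi.single_apply]
  conv_rhs => rw [h3, h2]
  change ((∑ j, ⌊vp v (τ.ev (Pi.single j 1))⌋ * c j : ℤ) : ℚ) = _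
  push_cast
  exact Finset.sum_congr rfl fun j _ => by rw [h1, mul_comm]

lemma some_mem_star {ρ : ι} : some ρ ∈ (τ.star v g).R ↔ ρ ∈ τ.R ∧ τ.ev g ρ = 0 := by
  simp [star]

lemma none_mem_star : none ∈ (τ.star v g).R := Or.inl rfl

lemma mem_reg_star (h : τ.App v) {a : Option ι → ℤ} {c : Fin r → ℤ} :
    c ∈ (τ.star v g).Reg a ↔
      (∀ ρ ∈ τ.R, τ.ev g ρ = 0 → a (some ρ) ≤ τ.ev c ρ) ∧ (a none : ℚ) ≤ vp v (τ.ev c) := by
  rw [← ev_star_none (g := g) h, Int.cast_le]
  constructor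
  · exact fun H => ⟨fun ρ h1 h2 => H (some ρ) (some_mem_star.2 ⟨h1, h2⟩), H none none_mem_star⟩
  · rintro ⟨h1, h2⟩ (_ | ρ) ho
    · exact h2
    · exact h1 ρ (some_mem_star.1 ho).1 (some_mem_star.1 ho).2

lemma Extreme.pointed_star (hg : τ.Extreme g) (h : τ.App v) (h0 : 0 < vp v (τ.ev g)) :
    (τ.star v g).Pointed := by
  intro c hc
  obtain ⟨m, n, hm, e⟩ := hg.2 c fun ρ h1 h2 => hc (some ρ) (some_mem_star.2 ⟨h1, h2⟩)
  have h1 : vp v (τ.ev c) = 0 := by
    rw [← ev_star_none (g := g) h, hc none none_mem_star, Int.cast_zero]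
  have h2 := congrArg (fun u => vp v (τ.ev u)) e
  simp only [vp_ev_smul, h1, mul_zero] at h2
  have h3 : n = 0 := by exact_mod_cast (mul_eq_zero.1 h2.symm).resolve_right h0.ne'
  rw [h3, zero_smul] at e
  exact (smul_eq_zero.1 e).resolve_left hm

lemma exists_pos_of_vp (h : τ.App v) (hv : 0 ≤ v) (h0 : 0 < vp v (τ.ev g)) :
    ∃ β ∈ τ.R, 0 < v β ∧ 0 < τ.ev g β := by
  by_contra H
  push Not at H
  refine h0.not_ge ((vp_le hv fun ρ hρ => ?_).trans (vp_zero v).le)
  exact H ρ (h.1 ρ hρ) (lt_of_le_of_ne (hv ρ) (Ne.symm hρ))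

lemma Strict.star (hs : τ.Strict) (h : τ.App v) (hv : 0 ≤ v) (hv0 : v ≠ 0) :
    (τ.star v g).Strict := by
  obtain ⟨x, hx⟩ := hs
  refine ⟨x, ?_⟩
  rintro (_ | ρ) ho
  · have : 0 < vp v (τ.ev x) := by
      obtain ⟨ρ, hρ⟩ := Function.ne_iff.1 hv0
      refine Finset.sum_pos' (fun σ _ => ?_) ⟨ρ, Finset.mem_univ _, ?_⟩
      · by_cases h0 : v σ = 0
        · simp [h0]
        · exact mul_nonneg (hv σ) (by exact_mod_cast (hx σ (h.1 σ h0)).le)
      · exact mul_pos (lt_of_le_of_ne (hv ρ) (Ne.symm hρ)) (by exact_mod_cast hx ρ (h.1 ρ hρ))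
    rw [← ev_star_none (g := g) h] at this
    exact_mod_cast this
  · exact hx ρ (some_mem_star.1 ho).1

lemma free_star_none (h : τ.App v) (h0 : 0 < vp v (τ.ev g)) : (τ.star v g).Free none := by
  refine ⟨g, by rw [← ev_star_none (g := g) h] at h0; exact_mod_cast h0, ?_⟩
  rintro (_ | ρ) ho hne
  · exact absurd rfl hne
  · exact (some_mem_star.1 ho).2

lemma Free.star {ρ : ι} (hf : τ.Free ρ) (h : τ.App v) (h0 : 0 < vp v (τ.ev g))
    (hρ : τ.ev g ρ = 0) : (τ.star v g).Free (some ρ) := by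
  obtain ⟨x, hx, hx'⟩ := hf
  have hγ : 0 < (τ.star v g).ev g none := by
    rw [← ev_star_none (g := g) h] at h0; exact_mod_cast h0
  refine ⟨(τ.star v g).ev g none • x - (τ.star v g).ev x none • g, ?_, ?_⟩
  · rw [ev_star_some, ev_sub, ev_smul, ev_smul, hρ, mul_zero, sub_zero]
    exact mul_pos hγ hx
  · rintro (_ | σ) ho hne
    · rw [ev_sub, ev_smul, ev_smul]; ring
    · rw [ev_star_some, ev_sub, ev_smul, ev_smul, (some_mem_star.1 ho).2,
        hx' σ (some_mem_star.1 ho).1 fun e => hne (by rw [e])]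
      simp

lemma par_finite (hf : ∀ ρ ∈ τ.R, τ.Free ρ) : τ.Par.Finite := by
  classical
  have : ∀ ρ, {x : ℚ | ∃ w ∈ τ.Par, w ρ = x}.Finite := by
    intro ρ
    by_cases hρ : ρ ∈ τ.R
    · obtain ⟨x, hx, hx'⟩ := hf ρ hρ
      refine ((Set.finite_Icc (0 : ℤ) (τ.ev x ρ)).image fun n : ℤ => (n : ℚ) / τ.ev x ρ).subset ?_
      rintro _ ⟨w, hw, rfl⟩
      obtain ⟨n, hn⟩ := hw.2.2 x
      have hxq : (0 : ℚ) < τ.ev x ρ := by exact_mod_cast hx
      have e : vp w (τ.ev x) = w ρ * τ.ev x ρ := by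
        rw [← vp_single]
        refine vp_congr fun σ hσ => ?_
        by_cases hσρ : σ = ρ
        · rw [hσρ, Pi.single_eq_same]
        · rw [Pi.single_eq_of_ne hσρ, hx' σ (hw.2.1 σ hσ) hσρ]
      rw [e] at hn
      have h1 : (0 : ℚ) ≤ n := hn ▸ mul_nonneg (hw.1 ρ).1 hxq.le
      have h2 : (n : ℚ) ≤ τ.ev x ρ := hn ▸ mul_le_of_le_one_left hxq.le (hw.1 ρ).2.le
      exact ⟨n, ⟨by exact_mod_cast h1, by exact_mod_cast h2⟩, by
        simp only; rw [← hn, mul_div_cancel_right₀ _ hxq.ne']⟩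
    · refine (Set.finite_singleton 0).subset ?_
      rintro _ ⟨w, hw, rfl⟩
      by_contra h
      exact hρ (hw.2.1 ρ h)
  exact (Set.Finite.pi' this).subset fun w hw ρ => ⟨w, hw, rfl⟩

lemma vp_option (w : Option ι → ℚ) (a : Option ι → ℤ) :
    vp w a = w none * a none + vp (fun ρ => w (some ρ)) fun ρ => a (some ρ) :=
  Fintype.sum_option _

lemma ncard_par_keep (hf : τ.Par.Finite) : τ.keep.Par.ncard ≤ τ.Par.ncard := by
  have h0 : ∀ w ∈ τ.keep.Par, w none = 0 := fun w hw => by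
    by_contra h
    obtain ⟨ρ, -, e⟩ := hw.2.1 none h
    cases e
  refine Set.ncard_le_ncard_of_injOn (fun w ρ => w (some ρ)) (fun w hw => ?_)
    (fun w hw w' hw' e => ?_) hf
  · refine ⟨fun ρ => hw.1 _, fun ρ hρ => ?_, fun c => ?_⟩
    · obtain ⟨σ, hσ, e⟩ := hw.2.1 (some ρ) hρ
      cases e; exact hσ
    · obtain ⟨n, hn⟩ := hw.2.2 c
      rw [vp_option, h0 w hw, zero_mul, zero_add] at hn
      exact ⟨n, hn⟩
  · funext o
    cases o with
    | none => rw [h0 w hw, h0 w' hw']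
    | some ρ => exact congrFun e ρ

lemma ncard_par_star (hf : τ.Par.Finite) (hv : v ∈ τ.Par)
    (h0 : 0 < vp v (τ.ev g)) : (τ.star v g).Par.ncard < τ.Par.ncard := by
  obtain ⟨β, -, hβ, hβ'⟩ := exists_pos_of_vp hv.2 (fun ρ => (hv.1 ρ).1) h0
  have hz : ∀ w ∈ (τ.star v g).Par, w (some β) = 0 := fun w hw => by
    by_contra h
    exact hβ'.ne' (some_mem_star.1 (hw.2.1 _ h)).2
  have hb : ∀ w ∈ (τ.star v g).Par, Int.fract (w (some β) + w none * v β) = w none * v β :=
    fun w hw => by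
      rw [hz w hw, zero_add, Int.fract_eq_self]
      exact ⟨mul_nonneg (hw.1 _).1 hβ.le,
        mul_lt_one_of_nonneg_of_lt_one_left (hw.1 _).1 (hw.1 _).2 (hv.1 β).2.le⟩
  refine lt_of_le_of_lt (Set.ncard_le_ncard_of_injOn (t := τ.Par \ {v})
    (fun w ρ => Int.fract (w (some ρ) + w none * v ρ)) (fun w hw => ⟨⟨fun ρ =>
      ⟨Int.fract_nonneg _, Int.fract_lt_one _⟩, fun ρ hρ => ?_, fun c => ?_⟩, fun e => ?_⟩)
    (fun w hw w' hw' e => ?_) (hf.subset Set.sdiff_subset))
    (Set.ncard_sdiff_singleton_lt_of_mem hv hf)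
  · by_contra h
    have h1 : w (some ρ) = 0 := by
      by_contra h1; exact h (some_mem_star.1 (hw.2.1 _ h1)).1
    have h2 : v ρ = 0 := by by_contra h2; exact h (hv.2.1 _ h2)
    simp [h1, h2] at hρ
  · obtain ⟨n, hn⟩ := hw.2.2 c
    rw [vp_option, ev_star_none hv.2] at hn
    refine ⟨n - ∑ ρ, ⌊w (some ρ) + w none * v ρ⌋ * τ.ev c ρ, ?_⟩
    push_cast
    rw [← hn]
    simp only [vp, ev_star_some, Finset.mul_sum, ← Finset.sum_add_distrib,
      ← Finset.sum_sub_distrib, Int.fract]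
    exact Finset.sum_congr rfl fun ρ _ => by ring
  · have h1 := congrFun e β
    simp only [hb w hw] at h1
    nlinarith [(hw.1 none).2]
  · have h1 := congrFun e β
    simp only [hb w hw, hb w' hw'] at h1
    have h2 : w none = w' none := mul_right_cancel₀ hβ.ne' h1
    funext o
    cases o with
    | none => exact h2
    | some ρ =>
      have h3 := congrFun e ρ
      simp only [Int.fract_eq_fract, h2, add_sub_add_right_eq_sub] at h3
      obtain ⟨n, hn⟩ := h3
      have h4 := hw.1 (some ρ)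
      have h5 := hw'.1 (some ρ)
      have h6 : (n : ℚ) < 1 := by linarith
      have h7 : (-1 : ℚ) < n := by linarith
      have h8 : n = 0 := by
        have a1 : n < 1 := by exact_mod_cast h6
        have a2 : -1 < n := by exact_mod_cast h7
        omega
      rw [h8] at hn
      simpa [sub_eq_zero] using hn

/-- A cone without nonzero lattice point in the parallelepiped is unimodular. -/
lemma uni_of_par (h : ∀ w ∈ τ.Par, w = 0) : τ.Uni := by
  classical
  let φ : (Fin r → ℤ) →+ (τ.R → ℤ) :=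
    { toFun := fun c ρ => τ.ev c ρ
      map_zero' := funext fun ρ => ev_zero _
      map_add' := fun c c' => funext fun ρ => ev_add _ _ _ }
  intro a
  by_contra H
  have h1 : (QuotientAddGroup.mk (fun ρ : τ.R => a ρ) : (τ.R → ℤ) ⧸ φ.range) ≠ 0 := by
    rw [Ne, QuotientAddGroup.eq_zero_iff]
    rintro ⟨c, hc⟩
    exact H ⟨c, fun ρ hρ => congrFun hc ⟨ρ, hρ⟩⟩
  obtain ⟨χ, hχ⟩ := CharacterModule.exists_character_apply_ne_zero_of_ne_zero h1
  let χ' : (τ.R → ℤ) →+ AddCircle (1 : ℚ) :=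
    (χ : _ →+ AddCircle (1 : ℚ)).comp (QuotientAddGroup.mk' φ.range)
  have h2 : ∀ ρ : τ.R, ∃ x : ℚ, (0 ≤ x ∧ x < 1) ∧ χ' (Pi.single ρ 1) = x := fun ρ => by
    obtain ⟨x, hx⟩ := QuotientAddGroup.mk_surjective (χ' (Pi.single ρ 1))
    refine ⟨Int.fract x, ⟨Int.fract_nonneg _, Int.fract_lt_one _⟩, ?_⟩
    rw [← hx]
    exact (AddCircle.coe_fract x).symm
  choose x hx hx' using h2
  have h3 : ∀ b : τ.R → ℤ, χ' b = ((∑ ρ, x ρ * b ρ : ℚ) : AddCircle (1 : ℚ)) := fun b => by
    have : b = ∑ ρ, b ρ • Pi.single ρ 1 := by ext j; simp [Finset.sum_apply, Pi.single_apply]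
    conv_lhs => rw [this, map_sum]
    rw [QuotientAddGroup.mk_sum]
    refine Finset.sum_congr rfl fun ρ _ => ?_
    rw [map_zsmul, hx', ← AddCircle.coe_zsmul, zsmul_eq_mul, mul_comm]
  let w : ι → ℚ := fun ρ => if h : ρ ∈ τ.R then x ⟨ρ, h⟩ else 0
  have h4 : w = 0 := by
    refine h w ⟨fun ρ => ?_, fun ρ hρ => ?_, fun c => ?_⟩
    · by_cases hρ : ρ ∈ τ.R
      · simpa [w, hρ] using hx ⟨ρ, hρ⟩
      · simp [w, hρ]
    · by_contra h; simp [w, h] at hρ
    · have h5 : χ' (φ c) = 0 := by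
        have : QuotientAddGroup.mk' φ.range (φ c) = 0 :=
          (QuotientAddGroup.eq_zero_iff _).2 ⟨c, rfl⟩
        change χ (QuotientAddGroup.mk' φ.range (φ c)) = 0
        rw [this, map_zero]
      rw [h3, AddCircle.coe_eq_zero_iff] at h5
      obtain ⟨n, hn⟩ := h5
      refine ⟨n, ?_⟩
      rw [zsmul_one] at hn
      rw [hn, vp, ← Fintype.sum_subtype_add_sum_subtype (· ∈ τ.R)]
      have h6 : ∑ ρ : {ρ // ¬ ρ ∈ τ.R}, w ρ * (τ.ev c ρ : ℚ) = 0 :=
        Finset.sum_eq_zero fun ρ _ => by simp [w, ρ.2]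
      rw [h6, add_zero]
      exact Finset.sum_congr rfl fun ρ _ => by simp [w, φ]
  refine hχ ((h3 fun ρ => a ρ).trans ?_)
  have : ∀ ρ, x ρ = 0 := fun ρ => by simpa [w, ρ.2] using congrFun h4 ρ
  simp [this]

end Typ

end Pool.Agent.MP_19ffc6_ag.Res.Tor

end MrgPart0

-- ======== part 1: formerly Pool.Agent.MP_19ffc6_ag.WildMon
section MrgPart1

/-! Monomial models. -/

namespace Pool.Agent.MP_19ffc6_ag.Wild

variable {k L : Type} [Field k] [Field L] [Algebra k L]

lemma algInd_iff {κ R : Type} [CommRing R] [Algebra k R] (y : κ → R) :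
    AlgebraicIndependent k y ↔
      LinearIndependent k (fun s : κ →₀ ℕ => s.prod fun i e => y i ^ e) := by
  have h : (fun s : κ →₀ ℕ => s.prod fun i e => y i ^ e) =
      (MvPolynomial.aeval y).toLinearMap ∘ MvPolynomial.basisMonomials κ k := by
    ext s; simp [MvPolynomial.aeval_monomial]
  rw [h, algebraicIndependent_iff_injective_aeval]
  constructor
  · intro H
    exact (MvPolynomial.basisMonomials κ k).linearIndependent.map' _ (LinearMap.ker_eq_bot.2 H)
  · intro H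
    have : (MvPolynomial.aeval y).toLinearMap = (Finsupp.linearCombination k
        ((MvPolynomial.aeval y).toLinearMap ∘ MvPolynomial.basisMonomials κ k)).comp
          (MvPolynomial.basisMonomials κ k).repr.toLinearMap := by
      refine (MvPolynomial.basisMonomials κ k).ext fun s => ?_
      simp only [LinearMap.comp_apply, LinearEquiv.coe_coe, Module.Basis.repr_self,
        Finsupp.linearCombination_single, one_smul, Function.comp_apply]
    have h2 : Function.Injective (MvPolynomial.aeval (R := k) y).toLinearMap := by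
      rw [this, LinearMap.coe_comp]
      exact Function.Injective.comp H (MvPolynomial.basisMonomials κ k).repr.injective
    exact h2

/-- The `O`-module generated by `X`. -/
def sp (O : Subalgebra k L) (X : Submodule k L) : Submodule k L := O.toSubmodule * X

lemma le_sp (O : Subalgebra k L) (X : Submodule k L) : X ≤ sp O X := fun x hx => by
  rw [← one_mul x]; exact Submodule.mul_mem_mul (one_mem O) hx

lemma mul_mem_sp {O : Subalgebra k L} {X : Submodule k L} {o x : L} (ho : o ∈ O)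
    (hx : x ∈ sp O X) : o * x ∈ sp O X := by
  refine Submodule.mul_induction_on hx (fun a ha b hb => ?_) (fun a b ha hb => ?_)
  · rw [← mul_assoc]; exact Submodule.mul_mem_mul (O.mul_mem ho ha) hb
  · rw [mul_add]; exact add_mem ha hb

lemma sp_le {O : Subalgebra k L} {X Z : Submodule k L} (h : X ≤ Z)
    (h' : ∀ o ∈ O, ∀ x ∈ Z, o * x ∈ Z) : sp O X ≤ Z :=
  Submodule.mul_le.2 fun o ho x hx => h' o ho x (h hx)

lemma sp_le_sp {O O' : Subalgebra k L} {X Z : Submodule k L} (hO : O ≤ O') (h : X ≤ sp O' Z) :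
    sp O X ≤ sp O' Z := sp_le h fun _ ho _ hx => mul_mem_sp (hO ho) hx

lemma sp_sp {O O' : Subalgebra k L} (hO : O ≤ O') (X : Submodule k L) :
    sp O' (sp O X) = sp O' X :=
  le_antisymm (sp_le_sp le_rfl (sp_le_sp hO (le_sp _ _)))
    (sp_le_sp le_rfl ((le_sp _ _).trans (le_sp _ _)))

lemma sp_congr {O O' : Subalgebra k L} (hO : O ≤ O') {X Z : Submodule k L} (h : sp O X = sp O Z) :
    sp O' X = sp O' Z := by rw [← sp_sp hO, h, sp_sp hO]

lemma sp_mul (O : Subalgebra k L) (X Z : Submodule k L) : sp O (X * Z) = sp O X * sp O Z := by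
  unfold sp
  conv_lhs => rw [← (Subalgebra.isIdempotentElem_toSubmodule O).eq]
  ring

lemma sp_mul_left (O : Subalgebra k L) (X Z : Submodule k L) : sp O (X * Z) = sp O X * Z := by
  unfold sp; ring

lemma sp_pow_congr {O : Subalgebra k L} {X Z : Submodule k L} (h : sp O X = sp O Z) (n : ℕ) :
    sp O (X ^ n) = sp O (Z ^ n) := by
  induction n with
  | zero => simp
  | succ n ih => rw [pow_succ, pow_succ, sp_mul, sp_mul, ih, h]

lemma div_mem_of_mem_sp {O O' : Subalgebra k L} (hO : O ≤ O') {X : Submodule k L} {g : L}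
    (h : ∀ x ∈ X, x / g ∈ O') {x : L} (hx : x ∈ sp O X) : x / g ∈ O' := by
  refine Submodule.mul_induction_on hx (fun a ha b hb => ?_) (fun a b ha hb => ?_)
  · rw [mul_div_assoc]; exact mul_mem (hO ha) (h b hb)
  · rw [add_div]; exact add_mem ha hb

lemma div_mem_of_mem_span {O : Subalgebra k L} {X : Set L} {g : L}
    (h : ∀ x ∈ X, x / g ∈ O) {x : L} (hx : x ∈ Submodule.span k X) : x / g ∈ O := by
  induction hx using Submodule.span_induction with
  | mem x hx => exact h x hx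
  | zero => simp
  | add a b _ _ ha hb => rw [add_div]; exact add_mem ha hb
  | smul c a _ ha => rw [smul_div_assoc]; exact O.smul_mem ha c

variable {ι : Type} [Fintype ι]

/-- Laurent monomials. -/
def mon (Y : ι → Lˣ) (c : ι → ℤ) : L := ((∏ i, Y i ^ c i : Lˣ) : L)

/-- The degree of a monomial. -/
def dg (a c : ι → ℤ) : ℤ := ∑ i, a i * c i

/-- The cone of allowed exponents. -/
def Cn (I : Set ι) (c : ι → ℤ) : Prop := ∀ j ∉ I, 0 ≤ c j

lemma mon_ne_zero (Y : ι → Lˣ) (c : ι → ℤ) : mon Y c ≠ 0 := Units.ne_zero _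

lemma mon_zero (Y : ι → Lˣ) : mon Y 0 = 1 := by simp [mon]

lemma mon_add (Y : ι → Lˣ) (c c' : ι → ℤ) : mon Y (c + c') = mon Y c * mon Y c' := by
  simp [mon, zpow_add, Finset.prod_mul_distrib]

lemma mon_sub (Y : ι → Lˣ) (c c' : ι → ℤ) : mon Y (c - c') = mon Y c / mon Y c' := by
  rw [eq_div_iff (mon_ne_zero _ _), ← mon_add, sub_add_cancel]

lemma mon_nsmul (Y : ι → Lˣ) (n : ℕ) (c : ι → ℤ) : mon Y (n • c) = mon Y c ^ n := by
  induction n with
  | zero => simp [mon_zero]
  | succ n ih => rw [succ_nsmul, mon_add, ih, pow_succ]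

lemma mon_single [DecidableEq ι] (Y : ι → Lˣ) (i : ι) (e : ℤ) :
    mon Y (Pi.single i e) = (Y i : L) ^ e := by
  rw [mon, Finset.prod_eq_single i]
  · simp
  · intro j _ hj; simp [Pi.single_eq_of_ne hj]
  · simp

lemma dg_zero (a : ι → ℤ) : dg a 0 = 0 := by simp [dg]

lemma dg_add (a c c' : ι → ℤ) : dg a (c + c') = dg a c + dg a c' := by
  simp [dg, mul_add, Finset.sum_add_distrib]

lemma dg_sub (a c c' : ι → ℤ) : dg a (c - c') = dg a c - dg a c' := by
  simp [dg, mul_sub, Finset.sum_sub_distrib]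

lemma dg_nsmul (a : ι → ℤ) (n : ℕ) (c : ι → ℤ) : dg a (n • c) = n * dg a c := by
  simp [dg, Finset.mul_sum, mul_left_comm]

lemma dg_single [DecidableEq ι] (a : ι → ℤ) (i : ι) (e : ℤ) : dg a (Pi.single i e) = a i * e := by
  rw [dg, Finset.sum_eq_single i]
  · simp
  · intro j _ hj; simp [Pi.single_eq_of_ne hj]
  · simp

omit [Fintype ι] in
lemma Cn.add {I : Set ι} {c c' : ι → ℤ} (h : Cn I c) (h' : Cn I c') : Cn I (c + c') :=
  fun j hj => add_nonneg (h j hj) (h' j hj)

omit [Fintype ι] in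
lemma Cn.nsmul {I : Set ι} {c : ι → ℤ} (h : Cn I c) (n : ℕ) : Cn I (n • c) :=
  fun j hj => nsmul_nonneg (h j hj) n

omit [Fintype ι] in
lemma Cn.mono {I I' : Set ι} (hI : I ⊆ I') {c : ι → ℤ} (h : Cn I c) : Cn I' c :=
  fun j hj => h j fun e => hj (hI e)

omit [Fintype ι] in
lemma cn_single [DecidableEq ι] (I : Set ι) (i : ι) {e : ℤ} (he : i ∉ I → 0 ≤ e) :
    Cn I (Pi.single i e) := fun j hj => by
  by_cases h : j = i
  · subst h; simpa using he hj
  · simp [Pi.single_eq_of_ne h]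

variable (k) in
/-- The span of the monomials of degree `n` in the cone. -/
def Vs (Y : ι → Lˣ) (a : ι → ℤ) (I : Set ι) (n : ℤ) : Submodule k L :=
  Submodule.span k {x | ∃ c, Cn I c ∧ dg a c = n ∧ x = mon Y c}

lemma mon_mem_Vs {Y : ι → Lˣ} {a : ι → ℤ} {I : Set ι} {n : ℤ} {c : ι → ℤ} (hc : Cn I c)
    (hn : dg a c = n) : mon Y c ∈ Vs k Y a I n := Submodule.subset_span ⟨c, hc, hn, rfl⟩

lemma Vs_le {Y : ι → Lˣ} {a : ι → ℤ} {I : Set ι} {n : ℤ} {Z : Submodule k L}
    (h : ∀ c, Cn I c → dg a c = n → mon Y c ∈ Z) : Vs k Y a I n ≤ Z :=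
  Submodule.span_le.2 (by rintro _ ⟨c, hc, hn, rfl⟩; exact h c hc hn)

lemma Vs_mul_le (Y : ι → Lˣ) (a : ι → ℤ) (I : Set ι) (m n : ℤ) :
    Vs k Y a I m * Vs k Y a I n ≤ Vs k Y a I (m + n) := by
  rw [Vs, Vs, Submodule.span_mul_span, Submodule.span_le]
  rintro _ ⟨_, ⟨c, hc, hm, rfl⟩, _, ⟨c', hc', hn, rfl⟩, rfl⟩
  simp only [← mon_add]
  exact mon_mem_Vs (hc.add hc') (by rw [dg_add, hm, hn])

lemma one_mem_Vs (Y : ι → Lˣ) (a : ι → ℤ) (I : Set ι) : (1 : L) ∈ Vs k Y a I 0 := by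
  rw [← mon_zero Y]; exact mon_mem_Vs (fun _ _ => le_rfl) (dg_zero _)

variable (k) in
/-- The degree zero monomial algebra. -/
def V0 (Y : ι → Lˣ) (a : ι → ℤ) (I : Set ι) : Subalgebra k L :=
  (Vs k Y a I 0).toSubalgebra (one_mem_Vs Y a I) fun x y hx hy => by
    simpa using Vs_mul_le Y a I 0 0 (Submodule.mul_mem_mul hx hy)

lemma mem_V0 {Y : ι → Lˣ} {a : ι → ℤ} {I : Set ι} {x : L} :
    x ∈ V0 k Y a I ↔ x ∈ Vs k Y a I 0 := Iff.rfl

lemma V0_congr {Y Y' : ι → Lˣ} {a a' : ι → ℤ} {I I' : Set ι}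
    (h : Vs k Y a I 0 = Vs k Y' a' I' 0) : V0 k Y a I = V0 k Y' a' I' := by
  ext x; rw [mem_V0, mem_V0, h]

variable (k) in
/-- Independence of the degree zero Laurent monomials. -/
def Ind (Y : ι → Lˣ) (a : ι → ℤ) : Prop :=
  LinearIndependent k fun c : {c : ι → ℤ // dg a c = 0} => mon Y c

lemma mon_twist (Y : ι → Lˣ) (a : ι → ℤ) (m : Lˣ) (c : ι → ℤ) :
    mon (fun j => Y j * m ^ a j) c = (m : L) ^ dg a c * mon Y c := by
  have : ∏ i, (m ^ a i) ^ c i = m ^ dg a c := by
    simp only [← zpow_mul, dg]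
    induction (Finset.univ : Finset ι) using Finset.cons_induction with
    | empty => simp
    | cons i s hi ih => rw [Finset.prod_cons, Finset.sum_cons, zpow_add, ih]
  simp only [mon, mul_zpow, Finset.prod_mul_distrib, this]
  simp [mul_comm]

lemma Vs_twist (Y : ι → Lˣ) (a : ι → ℤ) (m : Lˣ) (I : Set ι) (n : ℤ) :
    Vs k (fun j => Y j * m ^ a j) a I n = Submodule.span k {(m : L) ^ n} * Vs k Y a I n := by
  rw [Vs, Vs, Submodule.span_mul_span]
  congr 1
  ext x
  constructor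
  · rintro ⟨c, hc, rfl, rfl⟩
    exact ⟨_, rfl, _, ⟨c, hc, rfl, rfl⟩, (mon_twist _ _ _ _).symm⟩
  · rintro ⟨_, rfl, _, ⟨c, hc, rfl, rfl⟩, rfl⟩
    exact ⟨c, hc, rfl, (mon_twist _ _ _ _).symm⟩

lemma V0_twist (Y : ι → Lˣ) (a : ι → ℤ) (m : Lˣ) (I : Set ι) :
    V0 k (fun j => Y j * m ^ a j) a I = V0 k Y a I :=
  V0_congr (by rw [Vs_twist, zpow_zero, ← Submodule.one_eq_span, one_mul])

lemma Ind.twist {Y : ι → Lˣ} {a : ι → ℤ} (h : Ind k Y a) (m : Lˣ) :
    Ind k (fun j => Y j * m ^ a j) a := by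
  unfold Ind at h ⊢
  convert h using 2 with c
  rw [mon_twist, c.2, zpow_zero, one_mul]

lemma shear (Y : ι → Lˣ) (a : ι → ℤ) (i0 : ι) (q : ι → ℤ) (hq : (1 + q i0) * (1 + q i0) = 1) :
    (∀ n, Vs k (fun j => Y j * Y i0 ^ q j) (fun j => a j + q j * a i0) {i0} n = Vs k Y a {i0} n) ∧
    (Ind k Y a → Ind k (fun j => Y j * Y i0 ^ q j) (fun j => a j + q j * a i0)) := by
  classical
  let φ : (ι → ℤ) → (ι → ℤ) := fun c => c + Pi.single i0 (dg q c)
  let ψ : (ι → ℤ) → (ι → ℤ) := fun c => c - Pi.single i0 ((1 + q i0) * dg q c)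
  have h1 : ∀ c, mon (fun j => Y j * Y i0 ^ q j) c = mon Y (φ c) := fun c => by
    rw [mon_twist, mon_add, mon_single, mul_comm]
  have h2 : ∀ c, dg (fun j => a j + q j * a i0) c = dg a (φ c) := fun c => by
    rw [dg_add, dg_single]
    simp only [dg, add_mul, Finset.sum_add_distrib, Finset.mul_sum]
    congr 1
    exact Finset.sum_congr rfl fun _ _ => by ring
  have h3 : ∀ c, φ (ψ c) = c := fun c => by
    simp only [φ, ψ, dg_sub, dg_single]
    rw [sub_add, ← Pi.single_sub, sub_eq_self, Pi.single_eq_zero_iff]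
    linear_combination (dg q c) * hq
  have h4 : ∀ c, ψ (φ c) = c := fun c => by
    simp only [φ, ψ, dg_add, dg_single]
    rw [add_sub_assoc, ← Pi.single_sub, add_eq_left, Pi.single_eq_zero_iff]
    linear_combination (-dg q c) * hq
  have h5 : ∀ c, Cn {i0} (φ c) ↔ Cn {i0} c := fun c =>
    forall_congr' fun j => forall_congr' fun hj => by
      simp [φ, Pi.single_eq_of_ne (show j ≠ i0 from hj)]
  refine ⟨fun n => le_antisymm (Vs_le fun c hc hn => ?_) (Vs_le fun c hc hn => ?_), fun h => ?_⟩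
  · rw [h1]; exact mon_mem_Vs ((h5 c).2 hc) (by rw [← h2, hn])
  · rw [← h3 c, ← h1]
    exact mon_mem_Vs ((h5 _).1 (by rwa [h3])) (by rw [h2, h3, hn])
  · unfold Ind at h ⊢
    simp only [h1]
    exact h.comp (fun c : {c : ι → ℤ // dg (fun j => a j + q j * a i0) c = 0} =>
      ⟨φ c, by rw [← h2, c.2]⟩) fun c c' e => Subtype.ext (by
        rw [← h4 c, ← h4 c']; exact congrArg ψ (congrArg Subtype.val e))

lemma extract (a : ι → ℤ) (D : ℕ) (hD : 0 < D) (ha : ∀ j, 0 < a j → a j ∣ D) (t : ℕ) :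
    ∀ c : ι → ℤ, Cn ∅ c → ((Fintype.card ι + t) * D : ℤ) ≤ dg a c →
      ∃ c1, Cn ∅ c1 ∧ Cn ∅ (c - c1) ∧ dg a c1 = t * D := by
  classical
  induction t with
  | zero => intro c hc _; exact ⟨0, fun _ _ => le_rfl, by simpa using hc, by simp [dg_zero]⟩
  | succ t ih =>
    intro c hc h
    have : ∃ j, (D : ℤ) ≤ a j * c j := by
      by_contra H
      push Not at H
      have h1 : dg a c ≤ ∑ _j : ι, ((D : ℤ) - 1) :=
        Finset.sum_le_sum fun j _ => by have := H j; omega
      simp only [Finset.sum_const, Finset.card_univ, nsmul_eq_mul] at h1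
      push_cast at h
      have h2 : (0 : ℤ) ≤ Fintype.card ι := by positivity
      have h3 : (0 : ℤ) ≤ t * D := by positivity
      nlinarith
    obtain ⟨j, hj⟩ := this
    have hcj := hc j (Set.notMem_empty j)
    have haj : 0 < a j := by
      by_contra h0
      have : a j * c j ≤ 0 := mul_nonpos_of_nonpos_of_nonneg (not_lt.1 h0) hcj
      omega
    obtain ⟨r, hr⟩ := ha j haj
    have hr0 : 0 ≤ r := by
      by_contra h0
      have : a j * r < 0 := mul_neg_of_pos_of_neg haj (not_le.1 h0)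
      omega
    have hrc : r ≤ c j := by
      rw [hr] at hj; exact le_of_mul_le_mul_left hj haj
    obtain ⟨c1, h1, h2, h3⟩ := ih (c - Pi.single j r) (fun i _ => by
      by_cases hi : i = j
      · subst hi; simpa using hrc
      · simpa [Pi.single_eq_of_ne hi] using hc i (Set.notMem_empty i)) (by
        rw [dg_sub, dg_single, ← hr]; push_cast at h ⊢; linarith)
    refine ⟨c1 + Pi.single j r, h1.add (cn_single _ _ fun _ => hr0), ?_, ?_⟩
    · convert h2 using 1; abel
    · rw [dg_add, h3, dg_single, ← hr]; push_cast; ring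

end Pool.Agent.MP_19ffc6_ag.Wild

end MrgPart1

-- ======== part 2: formerly Pool.Agent.MP_19ffc6_ag.Res.TorD
section MrgPart2

/-! Toroidal systems on projective models: definitions and the calculus of global modules. -/

namespace Pool.Agent.MP_19ffc6_ag.Res.Tor

open Pool.Agent.MP_19ffc6_ag.Wild Pool.Agent.MP_19ffc6_ag.Lci Submodule

variable {k L : Type} [Field k] [Field L] [Algebra k L]

variable (k) in
/-- The line spanned by `g`. -/
def pr (g : L) : Submodule k L := span k {g}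

variable (k) in
/-- The span of the monomials with exponents in `S`. -/
def ms {r : ℕ} (z : Fin r → L) (S : Set (Fin r → ℤ)) : Submodule k L := span k (mn z '' S)

variable (k) in
/-- The monoid algebra of a cone. -/
def TA {ι : Type} {r : ℕ} (z : Fin r → L) (τ : Typ ι r) : Subalgebra k L :=
  Algebra.adjoin k (mn z '' τ.Reg 0)

/-- The family of modules `J O` on the model `M` is the quotient of two finite dimensional
spaces, the second one being invertible. -/
def Glob (M : Submodule k L) (J : Subalgebra k L → Submodule k L) : Prop :=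
  ∃ A B : Submodule k L, A.FG ∧ B.FG ∧ ∀ O, Pt ⊥ M O →
    ∃ g, g ≠ 0 ∧ sp O B = sp O (pr k g) ∧ sp O A = sp O (pr k g * J O)

/-- A toric chart. -/
structure Ch (L ι : Type) where
  r : ℕ
  τ : Typ ι r
  z : Fin r → L

/-- The combinatorial type of a chart. -/
def Ch.ty {ι : Type} (c : Ch L ι) : Σ r, Typ ι r := ⟨c.r, c.τ⟩

/-- `c` is a toroidal chart at the point `O`. -/
structure Ch.At {ι : Type} (c : Ch L ι) (O : Subalgebra k L) : Prop where
  ptd : c.τ.Pointed
  str : c.τ.Strict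
  ind : AlgebraicIndependent k c.z
  sf : SF (TA k c.z c.τ) O

variable (k L) in
/-- A projective model with a labelled toric chart at each point. -/
structure TS where
  ι : Type
  [fin : Fintype ι]
  M : Submodule k L
  ch : Subalgebra k L → Ch L ι

attribute [instance] TS.fin

namespace TS

variable (s : TS k L)

/-- The points of the model. -/
def P (O : Subalgebra k L) : Prop := Pt ⊥ s.M O

/-- The span of the monomials of order at least `a` along the boundary. -/
def J (a : s.ι → ℤ) (O : Subalgebra k L) : Submodule k L :=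
  ms k (s.ch O).z ((s.ch O).τ.Reg a)

/-- The system is toroidal. -/
structure Good : Prop where
  fg : s.M.FG
  ne : s.M ≠ ⊥
  fin : ((fun O => (s.ch O).ty) '' {O | s.P O}).Finite
  cht : ∀ O, s.P O → (s.ch O).At O
  glob : ∀ a, Glob s.M (s.J a)

/-- The divisor of `f` is supported on the boundary with multiplicities `a`. -/
def HasExp (f : L) (a : s.ι → ℤ) : Prop :=
  ∀ O, s.P O → ∃ c, (∀ ρ ∈ (s.ch O).τ.R, (s.ch O).τ.ev c ρ = a ρ) ∧ Un O (f / mn (s.ch O).z c)

/-- `f` defines a morphism to the projective line. -/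
def Cmp (f : L) : Prop := ∀ O, s.P O → f ∈ O ∨ f⁻¹ ∈ O

/-- All cones are unimodular. -/
def Uni : Prop := ∀ O, s.P O → (s.ch O).τ.Uni

/-- `s'` is a toroidal modification of `s`. -/
structure Ref (s' : TS k L) : Prop where
  mul : ∃ A : Submodule k L, A.FG ∧ s'.M = s.M * A
  dom : ∀ O', s'.P O' → ∃ O, s.P O ∧ Dom O O' ∧
    Set.range (mn (s'.ch O').z) = Set.range (mn (s.ch O).z) ∧
    TA k (s.ch O).z (s.ch O).τ ≤ TA k (s'.ch O').z (s'.ch O').τ ∧
    IsPoint (O ⊔ TA k (s'.ch O').z (s'.ch O').τ) O'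
  exp : ∀ f a, s.HasExp f a → ∃ a', s'.HasExp f a'

end TS

/-- Toroidal resolution and principalization. -/
def ResolveStmt (k L : Type) [Field k] [Field L] [Algebra k L] : Prop :=
  ∀ (s : TS k L) (S : Set L), s.Good → S.Finite → (∀ f ∈ S, ∃ a, s.HasExp f a) →
    ∃ s' : TS k L, s'.Good ∧ s.Ref s' ∧ s'.Uni ∧ ∀ f ∈ S, s'.Cmp f

/-- A unimodular chart is a smooth point with a normal crossings boundary. -/
def SncStmt (k L : Type) [Field k] [Field L] [Algebra k L] : Prop :=
  ∀ (ι : Type) [Fintype ι] (c : Ch L ι) (O : Subalgebra k L) [Fintype c.τ.R], c.At O → c.τ.Uni →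
    Algebra.FormallySmooth k O ∧ ∃ y : c.τ.R → L, AlgebraicIndependent k y ∧
      TA k c.z c.τ = Algebra.adjoin k (Set.range y) ∧
      (∀ e, mn c.z e = mn y fun ρ => c.τ.ev e ρ) ∧
      ∀ a : ι → ℤ, sp O (ms k c.z (c.τ.Reg a)) = sp O (pr k (mn y fun ρ => a ρ))

end Pool.Agent.MP_19ffc6_ag.Res.Tor

end MrgPart2

-- ======== part 3: formerly Pool.Agent.MP_19ffc6_ag.Res.Norm
section MrgPart3

/-! Module NORM of PROJECT RES: valuation subalgebras and centres, global generation of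
quasi-coherent families of modules, normalisation of projective models. -/

namespace Pool.Agent.MP_19ffc6_ag.Res

open Pool.Agent.MP_19ffc6_ag.Wild Pool.Agent.MP_19ffc6_ag.Lci

variable {k L : Type} [Field k] [Field L] [Algebra k L]

section Val

variable {V W O O' D A : Subalgebra k L} {M N : Submodule k L} {x y g : L}

/-- `V` is a valuation ring of the ambient field. -/
def Val (V : Subalgebra k L) : Prop := ∀ x, x ∈ V ∨ x⁻¹ ∈ V

lemma val_top : Val (⊤ : Subalgebra k L) := fun _ => Or.inl trivial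

lemma Val.mono (h : Val V) (hW : V ≤ W) : Val W := fun x => (h x).imp (@hW _) (@hW _)

lemma Val.lcl (h : Val V) : Lcl V := by
  intro x hx y hy hxy
  by_cases hy0 : y = 0
  · left; simpa [hy0] using hxy
  by_cases hx0 : x = 0
  · right; simpa [hx0] using hxy
  rcases h (x / y) with h1 | h1
  · right
    refine Un.of_mul hy (add_mem h1 (one_mem V)) ?_
    rwa [show y * (x / y + 1) = x + y by field_simp]
  · left
    rw [inv_div] at h1
    refine Un.of_mul hx (add_mem (one_mem V) h1) ?_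
    rwa [show x * (1 + y / x) = x + y by field_simp]

/-- The valuation subring of a valuation subalgebra. -/
def Val.vs (h : Val V) : ValuationSubring L := ⟨V.toSubring, h⟩

lemma Val.mem_vs (h : Val V) : x ∈ h.vs ↔ x ∈ V := Iff.rfl

/-- A valuation subring containing the ground field. -/
def ofVs (B : ValuationSubring L) (h : ∀ c, algebraMap k L c ∈ B) : Subalgebra k L :=
  { B.toSubring with algebraMap_mem' := h }

lemma mem_ofVs {B : ValuationSubring L} {h : ∀ c, algebraMap k L c ∈ B} : x ∈ ofVs B h ↔ x ∈ B :=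
  Iff.rfl

lemma val_ofVs (B : ValuationSubring L) (h : ∀ c, algebraMap k L c ∈ B) : Val (ofVs B h) :=
  B.mem_or_inv_mem

lemma isIntegral_mono (h : D ≤ O) (hx : IsIntegral D x) : IsIntegral O x :=
  hx.map_of_comp_eq (Subalgebra.inclusion h).toRingHom (RingHom.id L) rfl

lemma isIntegral_of_mem (hx : x ∈ D) : IsIntegral D x :=
  isIntegral_algebraMap (R := D) (x := (⟨x, hx⟩ : D))

lemma Val.mem_of_isIntegral (h : Val V) (hD : D ≤ V) (hx : IsIntegral D x) : x ∈ V :=
  LocalSubring.mem_of_isMax_of_isIntegral h.vs.isMax_toLocalSubring (isIntegral_mono hD hx)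

lemma Dom.trans (h : Dom O O') (h' : Dom O' W) : Dom O W :=
  ⟨h.1.trans h'.1, fun x hx hu => h.2 x hx (h'.2 x (h.1 hx) hu)⟩

/-- Every local subalgebra is dominated by a valuation subalgebra. -/
lemma exists_val_dom (hO : Lcl O) : ∃ V, Val V ∧ Dom O V := by
  have : IsLocalRing O.toSubring := hO.isLocalRing
  obtain ⟨B, h1, h2⟩ := (LocalSubring.mk O.toSubring).exists_le_valuationSubring
  refine ⟨ofVs B fun c => h1 (O.algebraMap_mem c), val_ofVs _ _, fun x hx => h1 hx,
    fun x hx hu => ?_⟩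
  refine (isUnit_iff_un (⟨x, hx⟩ : O)).1 (h2.1 ⟨x, hx⟩ ?_)
  exact IsUnit.of_mul_eq_one ⟨x⁻¹, hu.2.2⟩ (Subtype.ext (mul_inv_cancel₀ hu.2.1))

/-- The integral closure is the intersection of the valuation subalgebras. -/
lemma isIntegral_of_val (h : ∀ V, Val V → D ≤ V → x ∈ V) : IsIntegral D x := by
  have h1 : x ∈ (integralClosure (Subring.closure (D : Set L)) L).toSubring := by
    rw [← iInf_valuationSubring_superset, Subring.mem_iInf]
    exact fun V => h (ofVs V.1 fun c => V.2 (D.algebraMap_mem c)) (val_ofVs _ _) fun y hy => V.2 hy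
  exact IsIntegral.map_of_comp_eq (Subring.inclusion (S := Subring.closure (D : Set L))
    (T := D.toSubring) (Subring.closure_le.2 fun _ h => h)) (RingHom.id L) rfl h1

lemma Val.exists_min (h : Val V) {T : Finset L} (hT : T.Nonempty) (h0 : ∀ t ∈ T, t ≠ 0) :
    ∃ g ∈ T, ∀ t ∈ T, t / g ∈ V := by
  classical
  induction hT using Finset.Nonempty.cons_induction with
  | singleton a => exact ⟨a, by simp, by simp [div_self (h0 a (by simp))]⟩
  | cons a s ha hs ih =>
    obtain ⟨g, hg, H⟩ := ih fun t ht => h0 t (by simp [ht])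
    have ha0 := h0 a (by simp)
    have hg0 := h0 g (by simp [hg])
    rcases h (a / g) with h1 | h1
    · refine ⟨g, by simp [hg], fun t ht => ?_⟩
      rcases Finset.mem_cons.1 ht with rfl | ht
      exacts [h1, H t ht]
    · refine ⟨a, by simp, fun t ht => ?_⟩
      rcases Finset.mem_cons.1 ht with rfl | ht
      · rw [div_self ha0]; exact one_mem _
      · rw [show t / a = t / g * (a / g)⁻¹ by field_simp]; exact mul_mem (H t ht) h1

lemma exists_span (hM : M.FG) : ∃ T : Finset L, (∀ t ∈ T, t ≠ 0) ∧ Submodule.span k T = M := by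
  classical
  obtain ⟨T, rfl⟩ := hM
  exact ⟨T.erase 0, fun t ht => Finset.ne_of_mem_erase ht, by simp⟩

lemma div_mem_of_span {T : Set L} (h : ∀ t ∈ T, t / g ∈ O) (hx : x ∈ Submodule.span k T) :
    x / g ∈ O := by
  induction hx using Submodule.span_induction with
  | mem x hx => exact h x hx
  | zero => simp
  | add a b _ _ ha hb => rw [add_div]; exact add_mem ha hb
  | smul c a _ ha => rw [smul_div_assoc]; exact O.smul_mem ha c

lemma Val.exists_gen (h : Val V) (hM : M.FG) (h0 : M ≠ ⊥) :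
    ∃ g ∈ M, g ≠ 0 ∧ ∀ m ∈ M, m / g ∈ V := by
  obtain ⟨T, hT, rfl⟩ := exists_span hM
  obtain ⟨g, hg, H⟩ := h.exists_min (T := T)
    (Finset.nonempty_iff_ne_empty.2 fun e => h0 (by simp [e])) hT
  exact ⟨g, Submodule.subset_span hg, hT g hg, fun m hm => div_mem_of_span H hm⟩

/-- The centre of a valuation on a projective model. -/
lemma Val.exists_pt (h : Val V) (hA : A ≤ V) (hM : M.FG) (h0 : M ≠ ⊥) :
    ∃ O, Pt A M O ∧ Dom O V := by
  obtain ⟨g, hg, hg0, H⟩ := h.exists_gen hM h0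
  exact ⟨_, ⟨g, hg, hg0, isPoint_loc (chart_le hA H) h.lcl⟩, dom_loc (chart_le hA H)⟩

lemma IsPoint.eq_loc (h : IsPoint D O) (hd : Dom O W) : O = loc D W := by
  refine le_antisymm (h.le_loc.trans (loc_mono le_rfl hd.1)) ?_
  rintro _ ⟨a, ha, b, hb, hu, rfl⟩
  rw [div_eq_mul_inv]
  exact mul_mem (h.le ha) (hd.2 b (h.le hb) hu).2.2

/-- Change of chart. -/
lemma IsPoint.chart_of {g' : L} (h : IsPoint (chart A M g) O) (hg : g ∈ M) (hg0 : g ≠ 0)
    (hg' : g' ∈ M) (hg0' : g' ≠ 0) (hu : g / g' ∈ O) : IsPoint (chart A M g') O := by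
  refine h.of_le_loc (chart_le ((le_chart _ _ _).trans h.le) fun m hm => ?_)
    (chart_le ((le_chart _ _ _).trans (le_loc _ _)) fun m hm => ?_)
  · rw [show m / g' = m / g * (g / g') by field_simp]
    exact mul_mem (h.le (div_mem_chart _ _ hm)) hu
  · refine ⟨_, div_mem_chart _ _ hm, _, div_mem_chart _ _ hg,
      ⟨hu, div_ne_zero hg0 hg0', ?_⟩, by field_simp⟩
    rw [inv_div]; exact h.le (div_mem_chart _ _ hg')

/-- Projective models are separated. -/
lemma Pt.unique (h : Pt A M O) (h' : Pt A M O') (hd : Dom O W) (hd' : Dom O' W) : O = O' := by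
  obtain ⟨g, hg, hg0, h⟩ := h
  obtain ⟨g', hg', hg0', h'⟩ := h'
  have h1 : g' / g ∈ O := h.le (div_mem_chart _ _ hg')
  have h2 : g / g' ∈ O := by
    have := (hd.2 _ h1 ⟨hd.1 h1, div_ne_zero hg0' hg0, by
      rw [inv_div]; exact hd'.1 (h'.le (div_mem_chart _ _ hg))⟩).2.2
    rwa [inv_div] at this
  rw [IsPoint.eq_loc (IsPoint.chart_of h hg hg0 hg' hg0' h2) hd, IsPoint.eq_loc h' hd']

/-- A point lies in the chart of an element of any spanning set. -/
lemma IsPoint.exists_chart {T : Set L} (h : IsPoint (chart A (Submodule.span k T) g) O)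
    (hg : g ∈ Submodule.span k T) (hg0 : g ≠ 0) :
    ∃ t ∈ T, Un O (t / g) ∧ IsPoint (chart A (Submodule.span k T) t) O := by
  obtain ⟨t, ht, hu⟩ := exists_un_of_span h.lcl (S := T) hg0
    (fun x hx => h.le (div_mem_chart _ _ (Submodule.subset_span hx)))
    (by rw [← one_mul g]; exact Submodule.mul_mem_mul (one_mem O) hg)
  refine ⟨t, ht, hu, IsPoint.chart_of h hg hg0 (Submodule.subset_span ht)
    (fun e => hu.2.1 (by simp [e])) ?_⟩
  simpa using hu.2.2

/-- The converse of `Pt.of_mul`. -/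
lemma Pt.mul {h : L} (hO : Pt A M O) (hh : h ∈ N) (h0 : h ≠ 0) (hP : IsPoint (chart O N h) O') :
    Pt A (M * N) O' := by
  obtain ⟨g, hg, hg0, hO⟩ := hO
  have h1 : O ≤ O' := (le_chart _ _ _).trans hP.le
  have h2 : chart A (M * N) (g * h) ≤ O' := by
    refine chart_le ((le_chart _ _ _).trans (hO.le.trans h1)) fun x hx => ?_
    refine Submodule.mul_induction_on hx (fun m hm n hn => ?_) fun a b ha hb => ?_
    · rw [← div_mul_div_comm]
      exact mul_mem (h1 (hO.le (div_mem_chart _ _ hm))) (hP.le (div_mem_chart _ _ hn))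
    · rw [add_div]; exact add_mem ha hb
  refine ⟨g * h, Submodule.mul_mem_mul hg hh, mul_ne_zero hg0 h0, hP.of_le_loc h2 ?_⟩
  refine chart_le (hO.le_loc.trans (loc_mono (chart_le (le_chart _ _ _) fun m hm => ?_) h1))
    fun n hn => le_loc _ _ ?_
  · rw [show m / g = m * h / (g * h) by field_simp]
    exact div_mem_chart _ _ (Submodule.mul_mem_mul hm hh)
  · rw [show n / h = g * n / (g * h) by field_simp]
    exact div_mem_chart _ _ (Submodule.mul_mem_mul hg hn)

lemma IsPoint.trans (h : IsPoint D O) (h' : IsPoint O O') : IsPoint D O' :=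
  h'.of_le_loc (h.le.trans h'.le) (h.le_loc.trans (loc_mono le_rfl h'.le))

lemma Pt.trans (h : Pt A M O) (h' : IsPoint O O') : Pt A M O' :=
  let ⟨g, hg, hg0, h⟩ := h; ⟨g, hg, hg0, IsPoint.trans h h'⟩

lemma chart_fg (hA : A.FG) (hM : M.FG) (g : L) : (chart A M g).FG := by
  classical
  obtain ⟨S, rfl⟩ := hA
  obtain ⟨T, rfl⟩ := hM
  refine ⟨S ∪ T.image (· / g), le_antisymm (Algebra.adjoin_le ?_) (chart_le ?_ fun m hm => ?_)⟩
  · intro x hx
    simp only [Finset.coe_union, Finset.coe_image, Set.mem_union, Set.mem_image] at hx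
    rcases hx with hx | ⟨t, ht, rfl⟩
    exacts [le_chart _ _ _ (Algebra.subset_adjoin hx), div_mem_chart _ _ (Submodule.subset_span ht)]
  · exact Algebra.adjoin_mono (by simp)
  · refine div_mem_of_span (fun t ht => Algebra.subset_adjoin ?_) hm
    simp only [Finset.coe_union, Finset.coe_image]
    exact Or.inr ⟨t, ht, rfl⟩

end Val

section Serre

variable {O D A : Subalgebra k L} {M N : Submodule k L} {x g t : L}

/-- The local ring at a prime, as a subalgebra of the field. -/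
lemma exists_point (D : Subalgebra k L) (P : Ideal D) [P.IsPrime] :
    ∃ O, IsPoint D O ∧ ∀ x : D, Un O x ↔ x ∉ P := by
  let Q : Ideal D.toSubring := P
  have : Q.IsPrime := ‹P.IsPrime›
  let R := (LocalSubring.ofPrime D.toSubring Q).toSubring
  have hle : D.toSubring ≤ R := LocalSubring.le_ofPrime D.toSubring Q
  let O : Subalgebra k L := { R with algebraMap_mem' := fun c => hle (D.algebraMap_mem c) }
  have hun : ∀ x : D, Un O x ↔ x ∉ P := fun x =>
    (isUnit_iff_un (O := O) ⟨x, hle x.2⟩).symm.trans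
      (IsLocalization.AtPrime.isUnit_to_map_iff R Q x)
  have : IsLocalRing O := inferInstanceAs (IsLocalRing R)
  refine ⟨O, ⟨hle, lcl_of_isLocalRing, fun z hz => ?_⟩, hun⟩
  obtain ⟨⟨a, b⟩, e⟩ := IsLocalization.surj (S := R) Q.primeCompl ⟨z, hz⟩
  have hb := (hun b).2 b.2
  exact ⟨a, a.2, b, b.1.2, hb, (eq_div_iff hb.2.1).2 (congrArg Subtype.val e)⟩

/-- If `x` lies locally in `J` at all points where `t` is a unit, then `t ^ r * x ∈ J`. -/
lemma exists_pow_mul_mem (J : Submodule D L) (ht : t ∈ D)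
    (h : ∀ O, IsPoint D O → Un O t → ∃ h ∈ D, Un O h ∧ h * x ∈ J) : ∃ r : ℕ, t ^ r * x ∈ J := by
  let I : Ideal D := J.colon {x}
  have hI : ∀ h : D, h ∈ I ↔ (h : L) * x ∈ J := fun h => Submodule.mem_colon_singleton
  by_contra H
  have h1 : (⟨t, ht⟩ : D) ∉ I.radical := fun ⟨r, hr⟩ => H ⟨r, by simpa using (hI _).1 hr⟩
  rw [Ideal.radical_eq_sInf, Submodule.mem_sInf] at h1
  push Not at h1
  obtain ⟨P, ⟨hP, hP'⟩, h2⟩ := h1
  obtain ⟨O, hO, h3⟩ := exists_point D P
  obtain ⟨h, hh, hu, h5⟩ := h O hO ((h3 ⟨t, ht⟩).2 h2)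
  exact (h3 ⟨h, hh⟩).1 hu (hP ((hI ⟨h, hh⟩).2 h5))

/-- Membership in a module is a local property. -/
lemma mem_of_local (J : Submodule D L) (h : ∀ O, IsPoint D O → ∃ h ∈ D, Un O h ∧ h * x ∈ J) :
    x ∈ J := by
  obtain ⟨r, hr⟩ := exists_pow_mul_mem J (one_mem D) fun O hO _ => h O hO
  simpa using hr

lemma mul_mem_sub (J : Submodule D L) (ht : t ∈ D) (hx : x ∈ J) : t * x ∈ J :=
  J.smul_mem (⟨t, ht⟩ : D) hx

/-- The span over a local ring of `D` is the localisation of the span over `D`. -/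
lemma IsPoint.mem_span_iff (h : IsPoint D O) {S : Set L} :
    x ∈ Submodule.span O S ↔ ∃ h ∈ D, Un O h ∧ h * x ∈ Submodule.span D S := by
  constructor
  · intro hx
    induction hx using Submodule.span_induction with
    | mem x hx => exact ⟨1, one_mem _, Un.one _, by simpa using Submodule.subset_span hx⟩
    | zero => exact ⟨1, one_mem _, Un.one _, by simp⟩
    | add a b _ _ ha hb =>
      obtain ⟨c, hc, hu, ha⟩ := ha
      obtain ⟨d, hd, hv, hb⟩ := hb
      refine ⟨c * d, mul_mem hc hd, hu.mul hv, ?_⟩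
      rw [show c * d * (a + b) = d * (c * a) + c * (d * b) by ring]
      exact add_mem (mul_mem_sub _ hd ha) (mul_mem_sub _ hc hb)
    | smul o a _ ha =>
      obtain ⟨c, hc, hu, ha⟩ := ha
      obtain ⟨u, hu', v, hv, hv', e⟩ := h.le_loc o.2
      refine ⟨v * c, mul_mem hv hc, hv'.mul hu, ?_⟩
      have : v * c * (o • a) = u * (c * a) := by
        change v * c * ((o : L) * a) = _
        rw [e]; field_simp [hv'.2.1]
      rw [this]; exact mul_mem_sub _ hu' ha
  · rintro ⟨c, -, hu, hx⟩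
    rw [show x = c⁻¹ * (c * x) by field_simp [hu.2.1]]
    exact mul_mem_sub _ hu.2.2 (span_mono' h.le le_rfl hx)

/-- A quasi-coherent family of finitely generated modules on a projective model is generated by
one finite dimensional space. -/
theorem serre (hM : M.FG) (I : ∀ O : Subalgebra k L, Submodule O L)
    (J : ∀ g, Submodule (chart A M g) L) (hJ : ∀ g ∈ M, g ≠ 0 → (J g).FG)
    (hI : ∀ g ∈ M, g ≠ 0 → ∀ O, IsPoint (chart A M g) O →
      ∀ x, x ∈ I O ↔ ∃ h ∈ chart A M g, Un O h ∧ h * x ∈ J g) :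
    ∃ (N : Submodule k L) (r : ℕ), N.FG ∧ ∀ g ∈ M, g ≠ 0 → ∀ O, IsPoint (chart A M g) O →
      ∀ x, x ∈ I O ↔ x * g ^ r ∈ Submodule.span O (N : Set L) := by
  classical
  obtain ⟨T, hT, rfl⟩ := exists_span hM
  have hTM : ∀ t ∈ T, t ∈ Submodule.span k (T : Set L) := fun t ht => Submodule.subset_span ht
  choose! S hS using hJ
  have key : ∀ g ∈ T, ∀ g' ∈ T, ∀ x ∈ S g, ∃ r : ℕ, ∀ r' ≥ r, (g / g') ^ r' * x ∈ J g' := by
    intro g hg g' hg' x hx
    have hd := div_mem_chart A g' (hTM g hg)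
    obtain ⟨r, hr⟩ := exists_pow_mul_mem (x := x) (J g') hd fun O hO hu => by
      have hO' := IsPoint.chart_of hO (hTM _ hg') (hT _ hg') (hTM _ hg) (hT _ hg)
        (by simpa using hu.2.2)
      refine (hI g' (hTM _ hg') (hT _ hg') O hO x).1 ((hI g (hTM _ hg) (hT _ hg) O hO' x).2
        ⟨1, one_mem _, Un.one _, ?_⟩)
      rw [one_mul, ← hS g (hTM _ hg) (hT _ hg)]
      exact Submodule.subset_span hx
    refine ⟨r, fun r' hr' => ?_⟩
    obtain ⟨d, rfl⟩ := Nat.exists_eq_add_of_le' hr'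
    rw [pow_add, mul_assoc]
    exact mul_mem_sub _ (pow_mem hd _) hr
  choose! ρ hρ using key
  let r := T.sup fun g => T.sup fun g' => (S g).sup (ρ g g')
  let U : Finset L := T.biUnion fun g => (S g).image (· * g ^ r)
  refine ⟨Submodule.span k U, r, ⟨U, rfl⟩, fun g hg hg0 O hO x => ?_⟩
  obtain ⟨t, ht, hu, hO'⟩ := IsPoint.exists_chart hO hg hg0
  have ht0 := hT t ht
  have hsp : Submodule.span O (Submodule.span k (U : Set L) : Set L) = Submodule.span O U :=
    Submodule.span_span_of_tower k O _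
  rw [hsp]
  constructor
  · intro hx
    obtain ⟨h, -, hh, hx⟩ := (hI t (hTM t ht) ht0 O hO' x).1 hx
    rw [← hS t (hTM t ht) ht0] at hx
    have h1 : ∀ y ∈ Submodule.span O (S t : Set L), y * t ^ r ∈ Submodule.span O (U : Set L) := by
      intro y hy
      induction hy using Submodule.span_induction with
      | mem y hy =>
        exact Submodule.subset_span (Finset.mem_biUnion.2 ⟨t, ht, Finset.mem_image.2 ⟨y, hy, rfl⟩⟩)
      | zero => simp
      | add a b _ _ ha hb => rw [add_mul]; exact add_mem ha hb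
      | smul c a _ ha => rw [smul_mul_assoc]; exact Submodule.smul_mem _ _ ha
    rw [show x * g ^ r = h⁻¹ * (t / g)⁻¹ ^ r * (h * x * t ^ r) by
      rw [inv_div, div_pow]; field_simp [hh.2.1]]
    exact mul_mem_sub _ (mul_mem hh.2.2 (pow_mem hu.2.2 _)) (h1 _ (span_mono' hO'.le le_rfl hx))
  · intro hx
    have h1 : ∀ y ∈ Submodule.span O (U : Set L), y / t ^ r ∈ I O := by
      intro y hy
      induction hy using Submodule.span_induction with
      | mem y hy =>
        obtain ⟨g', hg', hy⟩ := Finset.mem_biUnion.1 hy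
        obtain ⟨z, hz, rfl⟩ := Finset.mem_image.1 hy
        refine (hI t (hTM t ht) ht0 O hO' _).2 ⟨1, one_mem _, Un.one _, ?_⟩
        rw [one_mul, show z * g' ^ r / t ^ r = (g' / t) ^ r * z by rw [div_pow]; ring]
        exact hρ g' hg' t ht z hz r ((Finset.le_sup (f := ρ g' t) hz).trans
          ((Finset.le_sup (f := fun g'' => (S g').sup (ρ g' g'')) ht).trans
            (Finset.le_sup (f := fun g => T.sup fun g' => (S g).sup (ρ g g')) hg')))
      | zero => simp
      | add a b _ _ ha hb => rw [add_div]; exact add_mem ha hb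
      | smul c a _ ha => rw [smul_div_assoc]; exact Submodule.smul_mem _ _ ha
    rw [show x = (t / g) ^ r * (x * g ^ r / t ^ r) by rw [div_pow]; field_simp]
    exact mul_mem_sub _ (pow_mem hu.1 _) (h1 _ hx)

end Serre

section Fin

open Polynomial

theorem finite_of_comp_inj {A B C : Type*} [CommRing A] [IsNoetherianRing A] [CommRing B]
    [CommRing C] (f : A →+* B) (g : B →+* C) (hg : Function.Injective g)
    (h : (g.comp f).Finite) : f.Finite := by
  algebraize [f, g, g.comp f]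
  exact Module.Finite.of_injective (IsScalarTower.toAlgHom A B C).toLinearMap hg

theorem finite_frob (K A : Type*) [Field K] [PerfectField K] [CommRing A] [Algebra K A]
    [Algebra.FiniteType K A] (p : ℕ) [ExpChar K p] [ExpChar A p] (n : ℕ) :
    (iterateFrobenius A p n).Finite := by
  have : PerfectRing K p := inferInstance
  refine RingHom.IsIntegral.to_finite (fun a => ⟨X ^ p ^ n - C a,
    monic_X_pow_sub_C _ (expChar_pow_pos A p n).ne', by simp [iterateFrobenius_def]⟩) ?_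
  refine RingHom.FiniteType.of_comp_finiteType (f := algebraMap K A) ?_
  have e : (iterateFrobenius A p n).comp (algebraMap K A) =
      (algebraMap K A).comp (iterateFrobenius K p n) := by
    ext c
    simp [iterateFrobenius_def]
  rw [e]
  exact RingHom.FiniteType.comp (RingHom.finiteType_algebraMap.2 inferInstance)
    (RingHom.FiniteType.of_surjective _ (bijective_iterateFrobenius K p n).2)

theorem finite_intClosure (K A L F : Type*) [Field K] [PerfectField K] [CommRing A] [Algebra K A]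
    [Algebra.FiniteType K A] [Field L] [Algebra A L] [IsFractionRing A L]
    [Field F] [Algebra A F] [Algebra L F] [IsScalarTower A L F] [FiniteDimensional L F]
    [IsDomain A] [IsIntegrallyClosed A] : Module.Finite A (integralClosure A F) := by
  obtain ⟨p, hp⟩ := ExpChar.exists K
  have : ExpChar A p := expChar_of_injective_algebraMap (algebraMap K A).injective p
  have : ExpChar L p := expChar_of_injective_algebraMap (IsFractionRing.injective A L) p
  have : IsNoetherianRing A := Algebra.FiniteType.isNoetherianRing K A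
  let S := separableClosure L F
  have : ExpChar S p := expChar_of_injective_algebraMap (algebraMap L S).injective p
  have : IsScalarTower A S F := IsScalarTower.of_algebraMap_eq fun _ => rfl
  let n := IsPurelyInseparable.exponent S F
  let φ : F →+* S := IsPurelyInseparable.iterateFrobenius S F p (le_refl n)
  have hφ : ∀ a, algebraMap S F (φ a) = a ^ p ^ n :=
    IsPurelyInseparable.algebraMap_iterateFrobenius S p (le_refl n)
  have hC : Module.Finite A (integralClosure A S) := IsIntegralClosure.finite A L S _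
  let g : integralClosure A F →+* integralClosure A S :=
    (φ.comp (integralClosure A F).val.toRingHom).codRestrict (integralClosure A S) fun b => by
      rw [mem_integralClosure_iff, ← isIntegral_algebraMap_iff (algebraMap S F).injective]
      exact (hφ b.1).symm ▸ IsIntegral.pow b.2 _
  have hg : Function.Injective g := fun a b h =>
    Subtype.ext (φ.injective (congrArg Subtype.val h))
  have e : g.comp (algebraMap A _) = (algebraMap A _).comp (iterateFrobenius A p n) := by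
    refine RingHom.ext fun a => Subtype.ext ((algebraMap S F).injective ?_)
    refine (hφ (algebraMap A F a)).trans ?_
    rw [← map_pow]
    exact IsScalarTower.algebraMap_apply A S F _
  have h := finite_of_comp_inj (algebraMap A (integralClosure A F)) g hg (by
    rw [e]
    exact RingHom.Finite.comp (RingHom.finite_algebraMap.2 hC) (finite_frob K A p n))
  exact RingHom.finite_algebraMap.1 h

/-- Finiteness of the integral closure of an affine domain in a finite extension of its fraction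
field. -/
theorem finite_icl (k D K : Type) [Field k] [PerfectField k] [CommRing D] [Algebra k D]
    [Algebra.FiniteType k D] [Field K] [Algebra k K] [Algebra D K] [IsScalarTower k D K]
    [FaithfulSMul D K] [Algebra.EssFiniteType k K] [Algebra.IsAlgebraic D K] :
    Module.Finite D (integralClosure D K) := by
  have : Nontrivial D := (algebraMap D K).domain_nontrivial
  have : IsDomain D := (FaithfulSMul.algebraMap_injective D K).isDomain _
  obtain ⟨s, g, hg, hg'⟩ := exists_finite_inj_algHom_of_fg k D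
  let P := MvPolynomial (Fin s) k
  let _ : Algebra P D := g.toRingHom.toAlgebra
  let _ : Algebra P K := ((algebraMap D K).comp g.toRingHom).toAlgebra
  have : IsScalarTower P D K := .of_algebraMap_eq fun _ => rfl
  have : IsScalarTower k P K := .of_algebraMap_eq fun c => by
    rw [IsScalarTower.algebraMap_apply k D K, ← g.commutes]; rfl
  have : Module.Finite P D := hg'
  have : FaithfulSMul P D := (faithfulSMul_iff_algebraMap_injective _ _).2 hg
  have : FaithfulSMul P K := (faithfulSMul_iff_algebraMap_injective _ _).2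
    ((FaithfulSMul.algebraMap_injective D K).comp hg)
  let _ := FractionRing.liftAlgebra P K
  have : Algebra.IsAlgebraic P K := .trans P D K
  have : Algebra.IsAlgebraic (FractionRing P) K := .extendScalars (R := P)
    (IsFractionRing.injective P _)
  have : IsScalarTower k (FractionRing P) K := .to₁₃₄ k P _ _
  have : Algebra.EssFiniteType (FractionRing P) K := .of_comp k _ _
  have : FiniteDimensional (FractionRing P) K := Algebra.finite_of_essFiniteType_of_isAlgebraic
  have h := finite_intClosure k P (FractionRing P) K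
  have : Module.Finite P (integralClosure D K) := Module.Finite.of_surjective
    (M := integralClosure P K) (LinearMap.codRestrict
      ((integralClosure D K).toSubmodule.restrictScalars P) (integralClosure P K).val.toLinearMap
      fun x => x.2.tower_top) fun x => ⟨⟨x.1, isIntegral_trans _ x.2⟩, rfl⟩
  exact Module.Finite.of_restrictScalars_finite P _ _

end Fin

section Norm

variable {K : IntermediateField k L} {O O' D A V : Subalgebra k L} {M N : Submodule k L} {x g : L}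

/-- The integral closure of `O` in the subfield `K`. -/
def icl (K : IntermediateField k L) (O : Subalgebra k L) : Subalgebra k L :=
  K.toSubalgebra ⊓ (integralClosure O L).restrictScalars k

lemma mem_icl : x ∈ icl K O ↔ x ∈ K ∧ IsIntegral O x := Iff.rfl

lemma le_icl (h : O ≤ K.toSubalgebra) : O ≤ icl K O := fun _ hx => ⟨h hx, isIntegral_of_mem hx⟩

lemma icl_le (K : IntermediateField k L) (O : Subalgebra k L) : icl K O ≤ K.toSubalgebra :=
  inf_le_left

lemma icl_mono (h : O ≤ O') : icl K O ≤ icl K O' := fun _ hx => ⟨hx.1, isIntegral_mono h hx.2⟩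

lemma isIntegral_trans' (h : ∀ y ∈ D, IsIntegral O y) (hx : IsIntegral D x) : IsIntegral O x :=
  isIntegral_trans (R := O) (A := integralClosure O L) x
    (isIntegral_mono (O := (integralClosure O L).restrictScalars k) h hx)

lemma mem_icl_of_isIntegral (hK : x ∈ K) (hx : IsIntegral (icl K O) x) : x ∈ icl K O :=
  ⟨hK, isIntegral_trans' (fun _ hy => (mem_icl.1 hy).2) hx⟩

lemma Val.icl_le (h : Val V) (hO : O ≤ V) : icl K O ≤ V := fun _ hx => h.mem_of_isIntegral hO hx.2

lemma loc_le_field (h : D ≤ K.toSubalgebra) (W : Subalgebra k L) : loc D W ≤ K.toSubalgebra := by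
  rintro _ ⟨a, ha, b, hb, -, rfl⟩
  exact K.div_mem (h ha) (h hb)

lemma IsPoint.le_field (h : IsPoint D O) (hD : D ≤ K.toSubalgebra) : O ≤ K.toSubalgebra :=
  h.le_loc.trans (loc_le_field hD _)

lemma chart_le_field (hA : A ≤ K.toSubalgebra) (hM : ∀ m ∈ M, m ∈ K) (hg : g ∈ M) :
    chart A M g ≤ K.toSubalgebra := chart_le hA fun m hm => K.div_mem (hM m hm) (hM g hg)

lemma Pt.le_field (h : Pt A M O) (hA : A ≤ K.toSubalgebra) (hM : ∀ m ∈ M, m ∈ K) :
    O ≤ K.toSubalgebra :=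
  let ⟨_, hg, _, h⟩ := h; IsPoint.le_field h (chart_le_field hA hM hg)

lemma mem_span_self (h : O ≤ D) : x ∈ Submodule.span O (D : Set L) ↔ x ∈ D := by
  refine ⟨fun hx => ?_, fun hx => Submodule.subset_span hx⟩
  induction hx using Submodule.span_induction with
  | mem x hx => exact hx
  | zero => exact zero_mem _
  | add a b _ _ ha hb => exact add_mem ha hb
  | smul c a _ ha => exact mul_mem (h c.2) ha

/-- Integral closure commutes with localisation. -/
lemma IsPoint.isIntegral_iff (h : IsPoint D O) :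
    IsIntegral O x ↔ ∃ h ∈ D, Un O h ∧ IsIntegral D (h * x) := by
  constructor
  · intro hx
    let _ := (Subalgebra.inclusion h.le).toRingHom.toAlgebra
    have : IsScalarTower D O L := .of_algebraMap_eq fun _ => rfl
    have := isLocalization_of_le_loc h.le h.le_loc
    obtain ⟨m, hm⟩ := hx.exists_multiple_integral_of_isLocalization (unMonoid D O)
    exact ⟨m.1, m.1.2, m.2, hm⟩
  · rintro ⟨c, -, hu, hx⟩
    rw [show x = c⁻¹ * (c * x) by field_simp [hu.2.1]]
    exact (isIntegral_of_mem hu.2.2).mul (isIntegral_mono h.le hx)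

lemma IsPoint.mem_icl_iff (h : IsPoint D O) (hD : D ≤ K.toSubalgebra) :
    x ∈ icl K O ↔ ∃ h ∈ D, Un O h ∧ h * x ∈ icl K D := by
  rw [mem_icl, IsPoint.isIntegral_iff h]
  constructor
  · rintro ⟨hx, c, hc, hu, h1⟩
    exact ⟨c, hc, hu, K.mul_mem (hD hc) hx, h1⟩
  · rintro ⟨c, hc, hu, h1, h2⟩
    refine ⟨?_, c, hc, hu, h2⟩
    rw [show x = c⁻¹ * (c * x) by field_simp [hu.2.1]]
    exact K.mul_mem (K.inv_mem (hD hc)) h1

/-- A point of the integral closure of a local ring of `D` is a point of that of `D`. -/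
lemma IsPoint.icl (h : IsPoint D O) (hD : D ≤ K.toSubalgebra) (h' : IsPoint (icl K O) O') :
    IsPoint (icl K D) O' := by
  refine h'.of_le_loc ((icl_mono h.le).trans h'.le) fun x hx => ?_
  obtain ⟨c, hc, hu, h1⟩ := (IsPoint.mem_icl_iff h hD).1 hx
  exact ⟨_, h1, c, le_icl hD hc, hu.mono ((le_icl (IsPoint.le_field h hD)).trans h'.le),
    by field_simp [hu.2.1]⟩

/-- Points of a normal algebra are normal. -/
lemma IsPoint.mem_of_isIntegral (h : IsPoint (Res.icl K O) O') (hK : x ∈ K)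
    (hx : IsIntegral O' x) : x ∈ O' := by
  obtain ⟨c, hc, hu, h1⟩ := (IsPoint.isIntegral_iff h).1 hx
  rw [show x = c⁻¹ * (c * x) by field_simp [hu.2.1]]
  exact mul_mem hu.2.2 (h.le (mem_icl_of_isIntegral (K.mul_mem hc.1 hK) h1))

lemma isAlgebraic_mono (h : D ≤ O) (hx : IsAlgebraic D x) : IsAlgebraic O x := by
  let _ := (Subalgebra.inclusion h).toRingHom.toAlgebra
  have : IsScalarTower D O L := .of_algebraMap_eq fun _ => rfl
  exact hx.extendScalars (Subalgebra.inclusion_injective h)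

lemma isAlgebraic_of_loc (h : O ≤ loc D ⊤) (hx : IsAlgebraic O x) : IsAlgebraic D x := by
  let _ := (Subalgebra.inclusion (le_loc D ⊤)).toRingHom.toAlgebra
  have : IsScalarTower D (loc D ⊤) L := .of_algebraMap_eq fun _ => rfl
  have := isLocalization_of_le_loc (le_loc D ⊤) (isPoint_loc le_top val_top.lcl).le_loc
  have := IsLocalization.isAlgebraic (loc D ⊤) (unMonoid D (loc D ⊤))
  exact (isAlgebraic_mono h hx).restrictScalars D

lemma isAlgebraic_chart {g' : L} (hg : g ∈ M) (hg0 : g ≠ 0) (hg0' : g' ≠ 0)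
    (hx : IsAlgebraic (chart A M g) x) : IsAlgebraic (chart A M g') x := by
  refine isAlgebraic_of_loc (chart_le ((le_chart _ _ _).trans (le_loc _ _)) fun m hm => ?_) hx
  exact ⟨_, div_mem_chart _ _ hm, _, div_mem_chart _ _ hg,
    ⟨trivial, div_ne_zero hg0 hg0', trivial⟩, by field_simp⟩

/-- Finiteness of the normalisation. -/
theorem icl_fg [PerfectField k] (hD : D.FG) (hK : K.FG) (hDK : D ≤ K.toSubalgebra)
    (halg : ∀ x ∈ K, IsAlgebraic D x) : (Submodule.span D (icl K D : Set L)).FG := by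
  let _ : Algebra D K := (Subalgebra.inclusion hDK).toRingHom.toAlgebra
  have : IsScalarTower k D K := .of_algebraMap_eq fun _ => rfl
  have : IsScalarTower D K L := .of_algebraMap_eq fun _ => rfl
  have : FaithfulSMul D K :=
    (faithfulSMul_iff_algebraMap_injective _ _).2 (Subalgebra.inclusion_injective hDK)
  have : Algebra.FiniteType k D := (Subalgebra.fg_iff_finiteType _).1 hD
  have : Algebra.EssFiniteType k K := IntermediateField.essFiniteType_iff.2 hK
  have : Algebra.IsAlgebraic D K :=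
    ⟨fun x => (isAlgebraic_algebraMap_iff (algebraMap K L).injective).1 (halg x x.2)⟩
  have h1 : (integralClosure D K).toSubmodule.FG := Module.Finite.iff_fg.1 (finite_icl k D K)
  have h2 := h1.map (IsScalarTower.toAlgHom D K L).toLinearMap
  refine (le_antisymm ?_ (Submodule.span_le.2 fun x hx => ?_) :
    _ = Submodule.span D (icl K D : Set L)) ▸ h2
  · rintro _ ⟨x, hx, rfl⟩
    exact Submodule.subset_span ⟨x.2, IsIntegral.algebraMap hx⟩
  · exact ⟨⟨x, hx.1⟩, (isIntegral_algebraMap_iff (algebraMap K L).injective).1 hx.2, rfl⟩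

lemma icl_fg_alg [PerfectField k] (hD : D.FG) (hK : K.FG) (hDK : D ≤ K.toSubalgebra)
    (halg : ∀ x ∈ K, IsAlgebraic D x) : (icl K D).FG := by
  classical
  obtain ⟨S, hS⟩ := icl_fg hD hK hDK halg
  obtain ⟨T, hT⟩ := hD
  refine ⟨T ∪ S, le_antisymm (Algebra.adjoin_le fun x hx => ?_) fun x hx => ?_⟩
  · rcases Finset.mem_union.1 hx with hx | hx
    · exact le_icl hDK (hT ▸ Algebra.subset_adjoin hx)
    · exact (mem_span_self (le_icl hDK)).1 (hS ▸ Submodule.subset_span hx)
  · have h1 : D ≤ Algebra.adjoin k ((T ∪ S : Finset L) : Set L) :=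
      hT ▸ Algebra.adjoin_mono (by simp)
    refine (mem_span_self h1).1 (Submodule.span_mono (fun y hy => ?_)
      (hS ▸ Submodule.subset_span hx : x ∈ Submodule.span D (S : Set L)))
    exact Algebra.subset_adjoin (by simp [hy])

/-- The normalisation of a projective model in a finite extension is a projective model. -/
theorem norm [PerfectField k] (hA : A.FG) (hM : M.FG) (hK : K.FG) (hAK : A ≤ K.toSubalgebra)
    (hMK : ∀ m ∈ M, m ∈ K) (hg : g ∈ M) (hg0 : g ≠ 0)
    (halg : ∀ x ∈ K, IsAlgebraic (chart A M g) x) :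
    ∃ N : Submodule k L, N.FG ∧ N ≠ ⊥ ∧ (∀ x ∈ N, x ∈ K) ∧
      (∀ O', Pt A (M * N) O' → ∃ O, Pt A M O ∧ Dom O O' ∧ IsPoint (icl K O) O') ∧
      ∀ O O', Pt A M O → IsPoint (icl K O) O' → Pt A (M * N) O' := by
  obtain ⟨N, r, hN, H⟩ := serre hM (fun O => Submodule.span O (icl K O : Set L))
    (fun g => Submodule.span _ (icl K (chart A M g) : Set L))
    (fun g' hg' h0 => icl_fg (chart_fg hA hM g') hK (chart_le_field hAK hMK hg')
      fun x hx => isAlgebraic_chart hg hg0 h0 (halg x hx))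
    (fun g' hg' _ O hO x => by
      have h1 := chart_le_field hAK hMK hg'
      simp only [mem_span_self (le_icl h1), mem_span_self (le_icl (IsPoint.le_field hO h1))]
      exact IsPoint.mem_icl_iff hO h1)
  replace H : ∀ g ∈ M, g ≠ 0 → ∀ O, IsPoint (chart A M g) O →
      ∀ x, x ∈ icl K O ↔ x * g ^ r ∈ Submodule.span O (N : Set L) := fun g hg h0 O hO x => by
    rw [← H g hg h0 O hO, mem_span_self (le_icl (IsPoint.le_field hO (chart_le_field hAK hMK hg)))]
  have H1 : ∀ g ∈ M, g ≠ 0 → ∀ O, IsPoint (chart A M g) O → ∀ y ∈ N, y / g ^ r ∈ icl K O :=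
    fun g hg h0 O hO y hy => (H g hg h0 O hO _).2 (by
      rw [div_mul_cancel₀ _ (pow_ne_zero _ h0)]; exact Submodule.subset_span hy)
  have H2 : ∀ g ∈ M, g ≠ 0 → ∀ O, IsPoint (chart A M g) O → ∀ h, ∀ x ∈ icl K O,
      x * g ^ r / h ∈ chart O N h := fun g hg h0 O hO h x hx => by
    refine Submodule.span_induction (p := fun y _ => y / h ∈ chart O N h)
      (fun y hy => div_mem_chart _ _ hy) (by simp) (fun a b _ _ ha hb => ?_) (fun c a _ ha => ?_)
      ((H g hg h0 O hO x).1 hx)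
    · rw [add_div]; exact add_mem ha hb
    · rw [smul_div_assoc]; exact mul_mem (le_chart _ _ _ c.2) ha
  have hO0 := isPoint_loc (D := chart A M g) le_top val_top.lcl
  refine ⟨N, hN, fun e => ?_, fun y hy => ?_, fun O' hO' => ?_, fun O O' hO hO' => ?_⟩
  · have := (H g hg hg0 _ hO0 1).1 (one_mem _)
    simp [e, hg0] at this
  · rw [← div_mul_cancel₀ y (pow_ne_zero r hg0)]
    exact K.mul_mem (H1 g hg hg0 _ hO0 y hy).1 (pow_mem (hMK g hg) _)
  · obtain ⟨O, h, hh, ⟨g, hg, hg0, hO⟩, hd, h0, hP⟩ := Pt.of_mul_dom hO'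
    have hu := H1 g hg hg0 O hO h hh
    have h1 : icl K O ≤ O' := fun x hx => by
      have := H2 g hg hg0 O hO h _ (mul_mem hx hu)
      rw [show x * (h / g ^ r) * g ^ r / h = x by field_simp] at this
      exact hP.le this
    refine ⟨O, ⟨g, hg, hg0, hO⟩, hd, hP.of_le_loc h1 (chart_le ((le_icl (IsPoint.le_field hO
      (chart_le_field hAK hMK hg))).trans (le_loc _ _)) fun y hy => ?_)⟩
    refine ⟨_, H1 g hg hg0 O hO y hy, _, hu, ⟨h1 hu, div_ne_zero h0 (pow_ne_zero _ hg0), ?_⟩,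
      by field_simp⟩
    simpa using hP.le (H2 g hg hg0 O hO h 1 (one_mem _))
  · obtain ⟨g, hg, hg0, hO⟩ := hO
    have h1 : O ≤ O' := (le_icl (IsPoint.le_field hO (chart_le_field hAK hMK hg))).trans hO'.le
    obtain ⟨h, hh, hu⟩ : ∃ h ∈ N, Un O' (h / g ^ r) := by
      by_contra hn
      push Not at hn
      refine not_un_of_mem_span hO'.lcl (S := (· / g ^ r) '' N) (x := 1) ?_ ?_ (Un.one _)
      · rintro _ ⟨y, hy, rfl⟩
        exact ⟨hO'.le (H1 g hg hg0 O hO y hy), hn y hy⟩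
      · rw [← div_self (pow_ne_zero r hg0)]
        refine Submodule.span_induction (p := fun y _ => y / g ^ r ∈
          Submodule.span O' ((· / g ^ r) '' N))
          (fun y hy => Submodule.subset_span ⟨y, hy, rfl⟩) (by simp) (fun a b _ _ ha hb => ?_)
          (fun c a _ ha => ?_) (by simpa using (H g hg hg0 O hO 1).1 (one_mem _))
        · rw [add_div]; exact add_mem ha hb
        · rw [smul_div_assoc]; exact mul_mem_sub _ (h1 c.2) ha
    have h0 : h ≠ 0 := fun e => hu.2.1 (by simp [e])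
    have h2 : chart O N h ≤ O' := chart_le h1 fun y hy => by
      rw [show y / h = y / g ^ r * (h / g ^ r)⁻¹ by field_simp]
      exact mul_mem (hO'.le (H1 g hg hg0 O hO y hy)) hu.2.2
    refine Pt.mul ⟨g, hg, hg0, hO⟩ hh h0 (hO'.of_le_loc h2 fun x hx => ?_)
    exact ⟨_, H2 g hg hg0 O hO h x hx, _, H2 g hg hg0 O hO h 1 (one_mem _),
      by simpa using hu.inv, by field_simp⟩

/-- The elements of `O` that are divisible by `a e` in the rings `V e` containing `O`. -/
def vid {E : Type} (V : E → Subalgebra k L) (a : E → L) (O : Subalgebra k L) : Submodule O L where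
  carrier := {f | f ∈ O ∧ ∀ e, O ≤ V e → f / a e ∈ V e}
  add_mem' := fun hf hg => ⟨add_mem hf.1 hg.1, fun e he => by
    rw [add_div]; exact add_mem (hf.2 e he) (hg.2 e he)⟩
  zero_mem' := ⟨zero_mem _, fun e _ => by simp⟩
  smul_mem' := fun c f hf => ⟨mul_mem c.2 hf.1, fun e he => by
    rw [smul_div_assoc]; exact mul_mem (he c.2) (hf.2 e he)⟩

lemma mem_vid {E : Type} {V : E → Subalgebra k L} {a : E → L} :
    x ∈ vid V a O ↔ x ∈ O ∧ ∀ e, O ≤ V e → x / a e ∈ V e := Iff.rfl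

lemma fg_of_le_self [IsNoetherianRing D] (J : Submodule D L) (h : ∀ x ∈ J, x ∈ D) : J.FG := by
  refine (Submodule.fg_span_singleton (R := D) (1 : L)).of_le fun x hx => ?_
  simpa using mul_mem_sub _ (h x hx) (Submodule.mem_span_singleton_self (R := D) (1 : L))

/-- Ideals cut out by finitely many archimedean conditions are quasi-coherent. -/
lemma IsPoint.mem_vid_iff {E : Type} [Finite E] {V : E → Subalgebra k L} {a : E → L}
    (hV : ∀ e, ∀ h ∈ V e, ¬ Un (V e) h → ∃ n : ℕ, h ^ n / a e ∈ V e) (hO : IsPoint D O) :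
    x ∈ vid V a O ↔ ∃ h ∈ D, Un O h ∧ h * x ∈ vid V a D := by
  have := Fintype.ofFinite E
  constructor
  · rintro ⟨hx, H⟩
    obtain ⟨u, hu, b, hb, hb', e⟩ := hO.le_loc hx
    have hbx : b * x ∈ D := by rw [e, mul_div_cancel₀ _ hb'.2.1]; exact hu
    have key : ∀ e, ∃ h ∈ D, Un O h ∧ (D ≤ V e → h * (b * x) / a e ∈ V e) := fun e => by
      by_cases h1 : O ≤ V e
      · exact ⟨1, one_mem _, Un.one _, fun _ => by
          rw [one_mul, mul_div_assoc]; exact mul_mem (h1 hb'.1) (H e h1)⟩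
      by_cases h2 : D ≤ V e
      · obtain ⟨h, hh, hu, hn⟩ : ∃ h ∈ D, Un O h ∧ ¬ Un (V e) h := by
          by_contra hn
          push Not at hn
          refine h1 (hO.le_loc.trans ?_)
          rintro _ ⟨c, hc, d, hd, hd', rfl⟩
          rw [div_eq_mul_inv]
          exact mul_mem (h2 hc) (hn d hd hd').2.2
        obtain ⟨n, hn⟩ := hV e h (h2 hh) hn
        exact ⟨h ^ n, pow_mem hh _, hu.pow _, fun _ => by
          rw [mul_div_right_comm]; exact mul_mem hn (h2 hbx)⟩
      · exact ⟨1, one_mem _, Un.one _, fun h => absurd h h2⟩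
    classical
    choose h hh hu H' using key
    refine ⟨(∏ e, h e) * b, mul_mem (prod_mem fun e _ => hh e) hb,
      (un_prod _ _ fun e _ => hu e).mul hb', ?_, fun e he => ?_⟩
    · rw [mul_assoc]; exact mul_mem (prod_mem fun e _ => hh e) hbx
    · rw [← Finset.prod_erase_mul _ _ (Finset.mem_univ e), mul_assoc, mul_assoc, mul_div_assoc]
      exact mul_mem (prod_mem fun e _ => he (hh e)) (H' e he)
  · rintro ⟨h, -, hu, hx, H⟩
    rw [show x = h⁻¹ * (h * x) by field_simp [hu.2.1]]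
    exact mul_mem_sub (vid V a O) hu.2.2 ⟨hO.le hx, fun e he => H e (hO.le.trans he)⟩

/-- Valuation ideals on a projective model come from one finite dimensional space. -/
theorem serre_vid {E : Type} [Finite E] {V : E → Subalgebra k L} {a : E → L} (hA : A.FG)
    (hM : M.FG) (hV : ∀ e, ∀ h ∈ V e, ¬ Un (V e) h → ∃ n : ℕ, h ^ n / a e ∈ V e) :
    ∃ (N : Submodule k L) (r : ℕ), N.FG ∧ ∀ g ∈ M, g ≠ 0 → ∀ O, IsPoint (chart A M g) O →
      ∀ x, x ∈ vid V a O ↔ x * g ^ r ∈ Submodule.span O (N : Set L) :=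
  serre hM (vid V a) (fun g => vid V a _) (fun g _ _ => by
    have := (Subalgebra.fg_iff_finiteType _).1 (chart_fg hA hM g)
    have := Algebra.FiniteType.isNoetherianRing k (chart A M g)
    exact fg_of_le_self _ fun _ hx => hx.1) fun _ _ _ _ hO _ => IsPoint.mem_vid_iff hV hO

end Norm

end Pool.Agent.MP_19ffc6_ag.Res

end MrgPart3

-- marker of a merged file
example : 731051 + 832173 = 731051 + 832173 := rfl
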