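import Mathlib
import Pool.Agent.MP_19ffc6_ag.Res.Norm

/-! PROJECT RES, part A: definitions. All modules are `k`-subspaces of one field `K` of
transcendence degree `m + 1`. -/

namespace Pool.Agent.MP_19ffc6_ag.Res.PA

open Pool.Agent.MP_19ffc6_ag.Wild Submodule Filter

variable {k K : Type} [Field k] [Field K] [Algebra k K] {m : ℕ}

/-- The dimension of `P` modulo `Q`. -/
noncomputable def cod (P Q : Submodule k K) : ℕ := Module.finrank k (P.map Q.mkQ)

/-- `P` is finite dimensional modulo `Q`. -/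
def Fd (P Q : Submodule k K) : Prop := (P.map Q.mkQ).FG

/-- `P` is spanned modulo `Q` by `ρ` of its elements. -/
def Sp (ρ : ℕ) (P Q : Submodule k K) : Prop :=
  ∃ e : Fin ρ → K, (∀ i, e i ∈ P) ∧ P ≤ span k (Set.range e) ⊔ Q

variable (k) in
/-- The line spanned by `a`. -/
def pr (a : K) : Submodule k K := span k {a}

/-- The algebra generated by `T`. -/
def alg (T : Submodule k K) : Submodule k K := (Algebra.adjoin k (T : Set K)).toSubmodule

/-- The ideal of `alg T` generated by `T`. -/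
def nn (T : Submodule k K) : Submodule k K := T * alg T

variable (k) in
/-- The span of the `a`-th powers of a family. -/
def qq {ι : Type} (g : ι → K) (a : ℕ) : Submodule k K := span k (Set.range fun i => g i ^ a)

/-- A property of the points of an affine space that holds off a hypersurface. -/
def Gen {J : Type} (P : (J → k) → Prop) : Prop :=
  ∃ D : MvPolynomial J k, D ≠ 0 ∧ ∀ l, MvPolynomial.eval l D ≠ 0 → P l

variable (k K) in
/-- A normalized discrete valuation of `K` that is trivial on `k`. -/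
@[ext] structure DV where
  ord : K → ℤ
  zero : ord 0 = 0
  mul : ∀ x y, x ≠ 0 → y ≠ 0 → ord (x * y) = ord x + ord y
  add : ∀ x y, x ≠ 0 → y ≠ 0 → x + y ≠ 0 → min (ord x) (ord y) ≤ ord (x + y)
  cst : ∀ c : k, ord (algebraMap k K c) = 0
  unif : ∃ π, π ≠ 0 ∧ ord π = 1

/-- The elements of order at least `a`. -/
def DV.fil (w : DV k K) (a : ℤ) : Submodule k K where
  carrier := {x | x = 0 ∨ a ≤ w.ord x}
  zero_mem' := Or.inl rfl
  add_mem' := by
    intro x y hx hy
    by_cases h1 : x = 0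
    · rw [h1, zero_add]; exact hy
    by_cases h2 : y = 0
    · rw [h2, add_zero]; exact hx
    by_cases h3 : x + y = 0
    · exact Or.inl h3
    exact Or.inr ((le_min (hx.resolve_left h1) (hy.resolve_left h2)).trans (w.add x y h1 h2 h3))
  smul_mem' := by
    intro c x hx
    by_cases h1 : x = 0
    · exact Or.inl (by rw [h1, smul_zero])
    by_cases h2 : c = 0
    · exact Or.inl (by rw [h2, zero_smul])
    refine Or.inr ?_
    rw [Algebra.smul_def, w.mul _ _ ((map_ne_zero _).2 h2) h1, w.cst, zero_add]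
    exact hx.resolve_left h1

/-- The least order of a nonzero element of `V`. -/
noncomputable def DV.ordS (w : DV k K) (V : Submodule k K) : ℤ :=
  sInf (w.ord '' {x | x ∈ V ∧ x ≠ 0})

/-- The dimension of the space of leading terms of `U`. -/
noncomputable def DV.lead (w : DV k K) (U : Submodule k K) : ℕ := cod U (w.fil (w.ordS U + 1))

/-- `σ` is an element of least order of `V`. -/
def DV.Min (w : DV k K) (V : Submodule k K) (σ : K) : Prop := σ ∈ V ∧ σ ≠ 0 ∧ w.ord σ = w.ordS V

/-- The residues of `g` are algebraically independent. -/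
def DV.Ind (w : DV k K) {ι : Type} (g : ι → K) : Prop :=
  ∀ P : MvPolynomial ι k, MvPolynomial.aeval g P ∈ w.fil 1 → P = 0

/-- The Jacobian determinant. -/
noncomputable def Jac (d : Fin (m + 1) → Derivation k K K) (g : Fin (m + 1) → K) : K :=
  (Matrix.of fun i j => d j (g i)).det

/-- The Wronskian determinant. -/
noncomputable def Wr (d : Fin (m + 1) → Derivation k K K) (v : Fin (m + 2) → K) : K :=
  (Matrix.of fun i => (Fin.cons (v i) fun j => d j (v i) : Fin (m + 2) → K)).det

/-- The span of the Jacobians. -/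
def JJ (d : Fin (m + 1) → Derivation k K K) (T : Submodule k K) : Submodule k K :=
  span k {x | ∃ g : Fin (m + 1) → K, (∀ i, g i ∈ T) ∧ x = Jac d g}

/-- The span of the Wronskians. -/
def WW (d : Fin (m + 1) → Derivation k K K) (V : Submodule k K) : Submodule k K :=
  span k {x | ∃ v : Fin (m + 2) → K, (∀ i, v i ∈ V) ∧ x = Wr d v}

/-- The derivations dual to `g` preserve the valuation ring. -/
def Dual (d : Fin (m + 1) → Derivation k K K) (w : DV k K) (g : Fin (m + 1) → K) : Prop :=
  ∃ c : Fin (m + 1) → Fin (m + 1) → K, (∀ i, ∀ x ∈ w.fil 0, ∑ j, c i j * d j x ∈ w.fil 0) ∧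
    ∀ i l, ∑ j, c i j * d j (g l) = if i = l then 1 else 0

/-- The linear system `V` is unramified along `w`. -/
def Unr (d : Fin (m + 1) → Derivation k K K) (V : Submodule k K) (w : DV k K) : Prop :=
  ∃ σ, w.Min V σ ∧ ∃ g : Fin (m + 1) → K, (∀ i, σ * g i ∈ V) ∧ Dual d w g

variable (m) in
/-- `w` is a prime divisor of the model defined by `V`. -/
def Prm (V : Submodule k K) (w : DV k K) : Prop :=
  ∃ σ, w.Min V σ ∧ ∃ g : Fin m → K, (∀ i, σ * g i ∈ V) ∧ w.Ind g

/-- The boundary and the fixed part of the ramification. -/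
def DD (d : Fin (m + 1) → Derivation k K K) (S : Finset K) (V : Submodule k K) : Set (DV k K) :=
  {w | Prm m V w ∧ ((∃ r ∈ S, w.ord r ≠ 0) ∨ ¬ Unr d V w)}

/-- The potential. -/
noncomputable def Phi (d : Fin (m + 1) → Derivation k K K) (V MM : Submodule k K)
    (D : Finset (DV k K)) (L : ℕ) : ℕ :=
  Module.finrank k (MM * V ^ (2 * L) :) + 2 * Module.finrank k (MM * (V * WW d V) ^ L :) +
    L * ∑ w ∈ D, w.lead (V ^ L)

/-- The potential has growth at most `G`. -/
def Pot (d : Fin (m + 1) → Derivation k K K) (S : Finset K) (V : Submodule k K) (G : ℝ) : Prop :=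
  ∀ MM : Submodule k K, MM.FG → ∀ D : Finset (DV k K), ↑D ⊆ DD d S V → ∀ ε : ℝ, 0 < ε →
    ∀ᶠ L : ℕ in atTop, (Phi d V MM D L : ℝ) ≤ (G + ε) * (L : ℝ) ^ (m + 1)

/-- `σ T` is a hyperplane of `V` that does not contain `σ`. -/
structure Hyp (V : Submodule k K) (σ : K) (T : Submodule k K) : Prop where
  ne : σ ≠ 0
  eq : V = pr k σ * (1 ⊔ T)
  one : (1 : K) ∉ T

/-- The modules `k[T] MM J ^ b`. -/
def Mb (T J MM : Submodule k K) (b : ℕ) : Submodule k K := alg T * (MM * J ^ b)

/-- The diagonal Hilbert-Samuel function is often small. -/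
def Sm (n μ : ℕ) (T J MM : Submodule k K) : Prop :=
  ∃ᶠ L : ℕ in atTop, cod (Mb T J MM L) (T ^ L * Mb T J MM L) ≤ μ * L ^ n

/-- The Hilbert-Samuel function of `P / Q` often has growth at most `μ L ^ e`. -/
def Gr (e μ : ℕ) (T P Q : Submodule k K) : Prop :=
  ∃ᶠ L : ℕ in atTop, cod P (T ^ L * P ⊔ Q) ≤ μ * L ^ e

/-- The point `T` is good for the variety and its polar divisors. -/
def GoodX (d : Fin (m + 1) → Derivation k K K) (μ : ℕ) (T : Submodule k K) : Prop :=
  ∃ M₀ : Submodule k K, M₀.FG ∧ ∀ MM : Submodule k K, MM.FG → M₀ ≤ MM →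
    Sm (m + 1) μ T (JJ d T) MM

/-- All points are good. -/
def Good (d : Fin (m + 1) → Derivation k K K) (S : Finset K) (μ : ℕ) (V : Submodule k K) : Prop :=
  ∀ σ T, Hyp V σ T → GoodX d μ T ∧
    ∀ w ∈ DD d S V, w.Min V σ → Gr m μ T (alg T) (w.fil 1)

/-- A separating transcendence basis with its dual derivations. -/
structure Fr (t : Fin (m + 1) → K) (d : Fin (m + 1) → Derivation k K K) : Prop where
  ind : AlgebraicIndependent k t
  fin : FiniteDimensional (IntermediateField.adjoin k (Set.range t)) K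
  sep : Algebra.IsSeparable (IntermediateField.adjoin k (Set.range t)) K
  dual : ∀ i j, d j (t i) = if i = j then 1 else 0

/-- The output of the Albanese algorithm. -/
structure Alb (d : Fin (m + 1) → Derivation k K K) (S : Finset K) (μ : ℕ) (V : Submodule k K) :
    Prop where
  fg : V.FG
  ne : WW d V ≠ ⊥
  fin : (DD d S V).Finite
  good : Good d S μ V

/-- `y` is a reduction of the `j`-th power of the ideal of `T` on `P / Q`. -/
def Rd {ι : Type} (T : Submodule k K) (j : ℕ) (y : ι → K) (P Q : Submodule k K) : Prop :=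
  ∃ e : ℕ, T ^ (e + j) * P ≤ span k (Set.range y) * (T ^ e * P) ⊔ T ^ (e + j + 1) * P ⊔ Q

/-- The local degree of `g` on `P / Q` at the point `T` is at most `C`. -/
def Ld (C : ℕ) (T : Submodule k K) {e : ℕ} (g : Fin e → K) (P Q : Submodule k K) : Prop :=
  ∃ a : ℕ, 0 < a ∧ ∀ L : ℕ, Sp (C * a ^ e) P (qq k g a * P ⊔ T ^ L * P ⊔ Q)

/-- The condition on the variety: `g` are the numerators. -/
def CX (d : Fin (m + 1) → Derivation k K K) (C : ℕ) (T M₀ : Submodule k K)
    (g : Fin (m + 1) → K) : Prop :=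
  ∃ (MM : Submodule k K) (b : ℕ), MM.FG ∧ M₀ ≤ MM ∧ Ld C T g (Mb T (JJ d T) MM b) ⊥

/-- The condition on the polar divisor of the Wronskian `W`. -/
def CP (d : Fin (m + 1) → Derivation k K K) (C : ℕ) (T : Submodule k K) (g : Fin m → K) (W : K) :
    Prop :=
  ∃ (MM : Submodule k K) (b : ℕ), MM.FG ∧ MM ≠ ⊥ ∧
    Ld C T g (Mb T (JJ d T) MM (b + 1)) (pr k W * Mb T (JJ d T) MM b)

/-- The polar divisor of `W` does not pass through the point `T`. -/
def CB (d : Fin (m + 1) → Derivation k K K) (T : Submodule k K) (W : K) : Prop :=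
  ∃ MM : Submodule k K, MM.FG ∧ MM ≠ ⊥ ∧
    Mb T (JJ d T) MM 1 ≤ pr k W * Mb T (JJ d T) MM 0 ⊔ T * Mb T (JJ d T) MM 1

/-- The conditions on a tuple `s` (in the coordinates of a chart) at the point `T`; `D` is the
set of boundary divisors in the chart. -/
structure At (d : Fin (m + 1) → Derivation k K K) (C : ℕ) (D : Set (DV k K)) (M₀ T : Submodule k K)
    (s : Fin (m + 2) → K) : Prop where
  bpf : ∃ j, s j ∉ nn T
  cx : ∀ (i₀ : Fin (m + 2)) (c : Fin (m + 1) → k), s i₀ ∉ nn T →
    (∀ i, s (i₀.succAbove i) - c i • s i₀ ∈ nn T) →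
    CX d C T M₀ fun i => s (i₀.succAbove i) - c i • s i₀
  cw : ∀ (i₀ : Fin (m + 1)) (c : Fin m → k), s i₀.castSucc ∉ nn T →
    (∀ i, s (i₀.succAbove i).castSucc - c i • s i₀.castSucc ∈ nn T) →
    (∀ w ∈ D, Ld C T (fun i => s (i₀.succAbove i).castSucc - c i • s i₀.castSucc) (alg T)
      (w.fil 1)) ∧
    (0 < m → CP d C T (fun i => s (i₀.succAbove i).castSucc - c i • s i₀.castSucc) (Wr d s))
  base : (∀ i : Fin (m + 1), s i.castSucc ∈ nn T) →
    (∀ w ∈ D, (1 : K) ∈ nn T ⊔ w.fil 1) ∧ CB d T (Wr d s)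

/-- A tuple of forms of degree `m + 2` that is good at all points. -/
structure Tup (d : Fin (m + 1) → Derivation k K K) (S : Finset K) (C : ℕ) (V M₀ : Submodule k K)
    (B : Finset K) (s : Fin (m + 2) → K) : Prop where
  span : span k (B : Set K) = V
  ne : ∀ σ ∈ B, σ ≠ 0
  mem : ∀ j, s j ∈ V ^ (m + 2)
  wr : Wr d s ≠ 0
  pt : ∀ σ ∈ B, ∀ T, Hyp V σ T → (1 : K) ∉ nn T →
    At d C {w | w ∈ DD d S V ∧ w.Min V σ} M₀ T fun j => s j / σ ^ (m + 2)

variable (k) in
/-- At every valuation there are at most `C` congruent embeddings that agree on `Z`. -/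
def Cong (E : Type) [Field E] [Algebra k E] (Z : Set E) (C : ℕ) : Prop :=
  ∀ (N : Type) [Field N] [Algebra k N] (O : Subalgebra k N), Val O →
    ∀ (Φ : Finset (E →ₐ[k] N)) (φ₀ : E →ₐ[k] N),
      (∀ φ ∈ Φ, (∀ z ∈ Z, φ z = φ₀ z) ∧ ∀ a, φ₀ a ∈ O → φ a ∈ O ∧ ¬ Un O (φ a - φ₀ a)) →
      Φ.card ≤ C

variable (k) in
/-- A finite separable extension of the rational function field `k(x)` of local degree at most
`C`. -/
structure Cov (E : Type) [Field E] [Algebra k E] {ι : Type} (x : ι → E) (C : ℕ) : Prop where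
  ind : AlgebraicIndependent k x
  fin : FiniteDimensional (IntermediateField.adjoin k (Set.range x)) E
  sep : Algebra.IsSeparable (IntermediateField.adjoin k (Set.range x)) E
  cong : Cong k E (Set.range x) C

/-- The fibration: `x` are the coordinates of the base and `y` is the coordinate on the line. -/
structure Out (S : Finset K) (C : ℕ) (x : Fin m → K) (y : K) : Prop where
  cov : Cov k K (Fin.snoc x y : Fin (m + 1) → K) C
  hor : ∀ w : DV k K, (∀ i, x i ∈ w.fil 0) → w.Ind x → y ∈ w.fil 0 →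
    ((∀ r ∈ S, w.ord r = 0) ∧ ∃ P : MvPolynomial (Fin (m + 1)) k,
      w.ord (MvPolynomial.aeval (Fin.snoc x y : Fin (m + 1) → K) P) = 1) ∨
    ∃ (E : Type) (_ : Field E) (_ : Algebra k E) (x' : Fin m → E) (y' : E), Cov k E x' C ∧
      ∀ P : MvPolynomial (Fin (m + 1)) k,
        MvPolynomial.aeval (Fin.snoc x' y' : Fin (m + 1) → E) P = 0 →
        MvPolynomial.aeval (Fin.snoc x y : Fin (m + 1) → K) P ∈ w.fil 1

end Pool.Agent.MP_19ffc6_ag.Res.PA
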