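import Pool.Agent.MP_19ffc6_ag.Res.AFinA

/-! PROJECT RES, part A: from a good tuple to the fibration. -/

namespace Pool.Agent.MP_19ffc6_ag.Res.PA.Fl

open Pool.Agent.MP_19ffc6_ag.Wild Submodule Pool.Agent.MP_19ffc6_ag.Res.PA.Num

variable {k K E : Type} [Field k] [Field K] [Algebra k K] [Field E] [Algebra k E] {m : ℕ}

theorem spn_of_top {T M : Submodule k E} (hT : IntermediateField.adjoin k (T : Set E) = ⊤)
    (hM : M ≠ ⊥) (x : E) : ∃ a ∈ alg T, a ≠ 0 ∧ a * x ∈ alg T * M := by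
  obtain ⟨y, hy, h0⟩ := (Submodule.ne_bot_iff M).1 hM
  obtain ⟨a, ha, b, hb, e⟩ := IntermediateField.mem_adjoin_iff_div.1
    (hT.ge (IntermediateField.mem_top (x := x / y)))
  by_cases h : b = 0
  · rw [h, div_zero, div_eq_zero_iff, or_iff_left h0] at e
    exact ⟨1, one_mem_alg T, one_ne_zero, by simp [e]⟩
  refine ⟨b, hb, h, ?_⟩
  rw [show b * x = a * y by field_simp at e; linear_combination e]
  exact mul_mem_mul ha hy

theorem alg_le_adjoin {T : Submodule k E} {x : E} (hx : x ∈ alg T) :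
    x ∈ IntermediateField.adjoin k (T : Set E) :=
  IntermediateField.algebra_adjoin_le_adjoin k _ hx

theorem Hyp.div_mem_adjoin {V T : Submodule k E} {σ u v : E} (h : Hyp V σ T) (hu : u ∈ V)
    (hv : v ∈ V) : u / v ∈ IntermediateField.adjoin k (T : Set E) := by
  rw [← div_div_div_cancel_right₀ h.ne]
  exact _root_.div_mem (alg_le_adjoin (one_sup_le T (Hyp.div_mem h hu)))
    (alg_le_adjoin (one_sup_le T (Hyp.div_mem h hv)))

theorem div_pow_mem_comap {V : Submodule k K} {σ : K} (h0 : σ ≠ 0) (n : ℕ) {x : K}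
    (hx : x ∈ V ^ n) : x / σ ^ n ∈ V.comap (LinearMap.mulLeft k σ) ^ n := by
  induction hx using Submodule.pow_induction_on_left' with
  | algebraMap c => simp
  | add x y i _ _ hx hy => rw [add_div]; exact add_mem hx hy
  | mem_mul v hv i x _ hx =>
    rw [pow_succ', pow_succ', mul_div_mul_comm]
    refine mul_mem_mul ?_ hx
    change σ * _ ∈ V
    rwa [mul_div_cancel₀ _ h0]

theorem exists_min (w : DV k K) {B : Finset K} (hB : ∀ σ ∈ B, σ ≠ 0) (hne : B.Nonempty) :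
    ∃ σ ∈ B, ∀ v ∈ span k (B : Set K), v / σ ∈ w.fil 0 := by
  obtain ⟨σ, h1, h2⟩ := (val_vr w).exists_min hne hB
  exact ⟨σ, h1, fun v hv => div_mem_of_span (O := w.vr) h2 hv⟩

theorem nonempty_of {B : Finset K} {n : ℕ} {x : K} (hx : x ∈ span k (B : Set K) ^ (n + 1))
    (h0 : x ≠ 0) : B.Nonempty := Finset.nonempty_iff_ne_empty.2 fun e => h0 (by
  simpa [e, pow_succ] using hx)

theorem lt_of_big (p : ℕ) [Fact p.Prime] [CharP k p] {C : ℕ} (h : Big k C) : C < p :=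
  not_le.1 fun c => h p (Fact.out : p.Prime).pos c (CharP.cast_eq_zero k p)

theorem resi [IsAlgClosed k] (low : LowStmt k) (p : ℕ) [Fact p.Prime] [CharP k p] :
    ResiStmt k K m := by
  classical
  rintro C _ B s w hC rfl hB hs h0 hord hi hn H
  obtain ⟨σ₀, h1, h2⟩ := exists_min w hB (nonempty_of (hs 0) h0)
  have hσ₀ := hB _ h1
  have hU : (span k (B : Set K)).comap (LinearMap.mulLeft k σ₀) ≤ w.fil 0 := fun x hx => by
    simpa [hσ₀] using h2 _ hx
  obtain ⟨E, _, _, r, A, h⟩ := exists_rs w hU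
  set U := (span k (B : Set K)).comap (LinearMap.mulLeft k σ₀) with hUd
  have hp := h.map_pow h.le (m + 2)
  have hsA : ∀ j, s j / σ₀ ^ (m + 2) ∈ A := fun j => hp.1 _ (div_pow_mem_comap hσ₀ _ (hs j))
  have h3 : r (s 0 / σ₀ ^ (m + 2)) ≠ 0 := fun e => by
    have h3 := (h.ker _ (hsA 0) e).resolve_left (div_ne_zero h0 (pow_ne_zero _ hσ₀))
    rw [ord_div h0 (pow_ne_zero _ hσ₀), ord_pow hσ₀, hord, (min_of (subset_span h1) hσ₀ h2).2.2] at h3
    omega
  have h4 : ∀ j, s j / s 0 ∈ A ∧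
      r (s j / s 0) = r (s j / σ₀ ^ (m + 2)) / r (s 0 / σ₀ ^ (m + 2)) := fun j => by
    simpa only [div_div_div_cancel_right₀ (pow_ne_zero _ hσ₀)] using h.div (hsA j) (hsA 0) h3
  let B' : Finset E := (B.image fun σ => r (σ / σ₀)).erase 0
  have h5 : span k (B' : Set E) = U.map r := by
    refine le_antisymm (span_le.2 fun z hz => ?_) ?_
    · obtain ⟨σ, hσ, rfl⟩ := Finset.mem_image.1 (Finset.mem_of_mem_erase hz)
      refine mem_map_of_mem (?_ : σ₀ * _ ∈ span k (B : Set K))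
      rw [mul_div_cancel₀ _ hσ₀]
      exact subset_span hσ
    · rintro _ ⟨x, hx, rfl⟩
      have : ∀ v ∈ span k (B : Set K), r (v / σ₀) ∈ span k (B' : Set E) := fun v hv => by
        induction hv using span_induction with
        | mem b hb =>
          by_cases c : r (b / σ₀) = 0
          · rw [c]; exact zero_mem _
          · exact subset_span (Finset.mem_erase.2 ⟨c, Finset.mem_image_of_mem _ hb⟩)
        | zero => simp
        | add a b _ _ ha hb => rw [add_div, map_add]; exact add_mem ha hb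
        | smul c a _ ha => rw [smul_div_assoc, map_smul]; exact smul_mem _ _ ha
      simpa [hσ₀] using this _ hx
  have h6 : (1 : E) ∈ U.map r := ⟨1, by simpa [hUd] using subset_span h1, h.one⟩
  have hx : (fun i : Fin m => r (s i.succ.castSucc / σ₀ ^ (m + 2)) / r (s 0 / σ₀ ^ (m + 2))) =
      fun i => r ((Fin.init (crd s) : Fin m → K) i) := funext fun i => (h4 _).2.symm
  have hxA : ∀ i, (Fin.init (crd s) : Fin m → K) i ∈ A := fun i => (h4 _).1
  have hind := (h.ind_iff hxA).2 hi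
  have hfin : FiniteDimensional (IntermediateField.adjoin k
      (Set.range fun i => r ((Fin.init (crd s) : Fin m → K) i))) E := by
    set F := IntermediateField.adjoin k (Set.range fun i => r ((Fin.init (crd s) : Fin m → K) i))
    have h7 : FiniteDimensional F (IntermediateField.adjoin F (B' : Set E)) := by
      refine IntermediateField.finiteDimensional_adjoin fun z hz => ?_
      obtain ⟨a, ha, rfl⟩ : z ∈ U.map r := h5 ▸ subset_span hz
      refine (IntermediateField.isAlgebraic_adjoin_iff.2 (not_not.1 fun c => ?_)).isIntegral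
      have hg : ∀ i, (Fin.cons a (Fin.init (crd s)) : Fin (m + 1) → K) i ∈ A :=
        Fin.cases (h.le a ha) hxA
      refine hn _ (fun i => h.vr _ (hg i)) ((h.ind_iff hg).1 ?_)
      have := ((hind.option_iff_transcendental _).2 c).comp _ (finSuccEquiv m).injective
      refine (congrArg (fun f : Fin (m + 1) → E => AlgebraicIndependent k f)
        (funext fun i => ?_)).mp this
      induction i using Fin.cases <;> simp
    have h8 : IntermediateField.adjoin F (B' : Set E) = ⊤ := by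
      refine eq_top_iff.2 fun z _ => ?_
      have : IntermediateField.adjoin k (U.map r : Set E) ≤
          (IntermediateField.adjoin F (B' : Set E)).restrictScalars k :=
        IntermediateField.adjoin_le_iff.2 (h5 ▸ (span_le (p := ((IntermediateField.adjoin F
          (B' : Set E)).restrictScalars k).toSubalgebra.toSubmodule)).2
          (IntermediateField.subset_adjoin F _))
      exact this (h.top.ge IntermediateField.mem_top)
    rw [h8] at h7
    exact IntermediateField.topEquiv.toLinearEquiv.finiteDimensional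
  refine ⟨E, inferInstance, inferInstance, fun i => r ((Fin.init (crd s) : Fin m → K) i),
    r (crd s (Fin.last m)), ?_, fun P hP => ?_⟩
  · have := ExpChar.prime (R := k) (Fact.out : p.Prime)
    rw [← hx] at hind hfin ⊢
    refine cov_of (low_of low) p (r := m + 2) (lt_of_big p hC) B'
      (fun σ hσ => Finset.ne_of_mem_erase hσ) ⟨1, Finset.mem_erase.2 ⟨one_ne_zero,
        Finset.mem_image.2 ⟨σ₀, h1, by rw [div_self hσ₀, h.one]⟩⟩⟩
      (fun j : Fin (m + 1) => r (s j.castSucc / σ₀ ^ (m + 2))) h3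
      (fun j => by rw [h5, ← hp.2]; exact mem_map_of_mem (div_pow_mem_comap hσ₀ _ (hs _)))
      hind hfin fun σ' hσ' T' hT' h7 => ?_
    obtain ⟨σ, hσ, rfl⟩ := Finset.mem_image.1 (Finset.mem_of_mem_erase hσ')
    rw [h5] at hT'
    obtain ⟨T, hT, rfl, hA, hmin⟩ := h.pull hσ₀ (fun _ => Iff.rfl) (subset_span hσ) hT'
    have h8 : ∀ j, r (s j / σ₀ ^ (m + 2)) / r (σ / σ₀) ^ (m + 2) = r (s j / σ ^ (m + 2)) :=
      fun j => by
        have h9 : σ / σ₀ ∈ A := h.le _ (by simpa [hUd, mul_div_cancel₀ _ hσ₀] using subset_span hσ)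
        have := (h.div (hsA j) (A.pow_mem h9 (m + 2))
          (by rw [h.pow h9]; exact pow_ne_zero _ hT'.ne)).2
        rw [h.pow h9, div_pow, div_div_div_cancel_right₀ (pow_ne_zero _ hσ₀)] at this
        exact this.symm
    have h9 : ∀ j, s j / σ ^ (m + 2) ∈ alg T := fun j => Hyp.div_pow_mem hT _ (hs j)
    obtain ⟨⟨i₀, h10⟩, h11⟩ := H σ hσ hmin T hT fun e => h7 (by
      obtain ⟨a, ha, b, hb, e⟩ := mem_sup.1 e
      have := congrArg r e
      rw [map_add, h.zero b hb, add_zero, h.one] at this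
      exact this ▸ h.map_nn hA ▸ mem_map_of_mem ha)
    simp only [h8]
    refine ⟨i₀, fun e => h10 ((h.mem_nn hA h7 (h9 _)).2 e), fun c hc => ?_⟩
    have h12 : ∀ i, num (fun j => s j / σ ^ (m + 2)) i₀ c i ∈ alg T := fun i =>
      sub_mem (h9 _) (smul_mem _ _ (h9 _))
    obtain ⟨X, h13, h14, h15, h16⟩ := h11 i₀ c h10 fun i =>
      (h.mem_nn hA h7 (h12 i)).2 (by simpa only [num, map_sub, map_smul] using hc i)
    obtain ⟨z, h17, h18⟩ := SetLike.not_le_iff_exists.1 h15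
    let l := r ∘ₗ LinearMap.mulRight k z⁻¹
    have h19 : ∀ a ∈ A, ∀ x ∈ w.fil 0, l (a * x) = r a * l x := fun a ha x hx =>
      (congrArg r (mul_assoc _ _ _)).trans (h.mul a ha _ (DV.mul_fil hx (inv_mem_fil h18)))
    have h20 := h.ld hA (l := l) (fun i => Rs.alg_le hA (h12 i)) (fun a ha x hx => h19 a ha x
      (mul_le.2 (fun a ha x hx => DV.mul_fil (h.vr a (Rs.alg_le hA ha)) (h14 hx)) hx))
      (fun x hx => h.zero _ (DV.mul_fil hx (inv_mem_fil h18))) h16
    rw [Rs.map_mul fun a ha x hx => h19 a (Rs.alg_le hA ha) x (h14 hx), h.map_alg hA] at h20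
    refine ⟨X.map l, h13.map _, spn_of_top (eq_top_iff.2 (h.top.ge.trans
      (IntermediateField.adjoin_le_iff.2 fun u hu => ?_))) ((Submodule.ne_bot_iff _).2
        ⟨1, ⟨z, h17, ?_⟩, one_ne_zero⟩), by simpa only [num, map_sub, map_smul] using h20⟩
    · simpa using Hyp.div_mem_adjoin hT' hu h6
    · exact (congrArg r (mul_inv_cancel₀ fun e => h18 (Or.inl e))).trans h.one
  · have hA : ∀ i, crd s i ∈ A := fun i => (h4 _).1
    refine h.ker _ (h.aeval hA P).1 ((h.aeval hA P).2.trans (Eq.trans ?_ hP))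
    congr 2
    funext i
    induction i using Fin.lastCases <;> simp [Fin.init]

theorem uni [IsAlgClosed k] (p : ℕ) [Fact p.Prime] [CharP k p] : UniStmt k K m :=
  fun _ _ _ _ hF hg => ⟨not_ind hF.trdeg (Fintype.card_fin _) hg, exists_unif p hF hg⟩

theorem wr_crd {d : Fin (m + 1) → Derivation k K K} {s : Fin (m + 2) → K} (h : Wr d s ≠ 0) :
    s 0 ≠ 0 ∧ Wr d s = s 0 ^ (m + 2) * Jac d (crd s) := by
  have h0 : s 0 ≠ 0 := fun e => h ((wrA_apply s).symm.trans ((wrA d).map_coord_zero 0 e))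
  exact ⟨h0, (congrArg (Wr d) (Fin.cons_self_tail s).symm).trans (wr_cons_div h0 _)⟩

theorem mul_mem_Mb {T J MM : Submodule k K} {b : ℕ} {W x : K} (hW : W ∈ alg T * J)
    (hx : x ∈ Mb T J MM b) : W * x ∈ Mb T J MM (b + 1) := by
  have h : alg T * J * Mb T J MM b ≤ Mb T J MM (b + 1) := by
    rw [Mb, Mb, show alg T * J * (alg T * (MM * J ^ b)) = alg T * alg T * (MM * J ^ (b + 1)) by ring]
    exact mul_le_mul_left (mul_le.2 fun _ a _ b => alg_mul a b) _
  exact h (mul_mem_mul hW hx)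

theorem finX [IsAlgClosed k] (low : LowStmt k) : FinXStmt k K m where
  spn t d V hF hV := by
    obtain ⟨v, hv, h⟩ : ∃ v : Fin (m + 2) → K, (∀ i, v i ∈ V) ∧ Wr d v ≠ 0 := by
      by_contra c
      push Not at c
      exact hV (eq_bot_iff.2 (WW_le c))
    obtain ⟨h0, h1⟩ := wr_crd h
    have := (hF.of_jac (right_ne_zero_of_mul (h1 ▸ h))).fin
    obtain ⟨Y, hY⟩ := Module.Finite.fg_top (R := IntermediateField.adjoin k (Set.range (crd v)))
      (M := K)
    refine ⟨span k Y, ⟨Y, rfl⟩, fun σ T hT z => ?_⟩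
    have hle : IntermediateField.adjoin k (Set.range (crd v)) ≤
        IntermediateField.adjoin k (T : Set K) := IntermediateField.adjoin_le_iff.2 (by
      rintro _ ⟨i, rfl⟩; exact Hyp.div_mem_adjoin hT (hv _) (hv _))
    have hm : ∀ a ∈ alg T, ∀ x ∈ alg T * span k (Y : Set K), a * x ∈ alg T * span k (Y : Set K) :=
      fun a ha x hx => mul_mem_alg ha hx
    induction hY.ge (mem_top (x := z)) using span_induction with
    | mem y hy => exact ⟨1, one_mem_alg T, one_ne_zero,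
        mul_mem_mul (one_mem_alg T) (subset_span hy)⟩
    | zero => exact ⟨1, one_mem_alg T, one_ne_zero, by simp⟩
    | add x y _ _ hx hy =>
      obtain ⟨a, h2, h3, h4⟩ := hx
      obtain ⟨b, h5, h6, h7⟩ := hy
      refine ⟨a * b, alg_mul h2 h5, mul_ne_zero h3 h6, ?_⟩
      rw [show a * b * (x + y) = b * (a * x) + a * (b * y) by ring]
      exact add_mem (hm b h5 _ h4) (hm a h2 _ h7)
    | smul c x _ hx =>
      obtain ⟨a, h2, h3, h4⟩ := hx
      obtain ⟨u, hu, u', hu', e⟩ := IntermediateField.mem_adjoin_iff_div.1 (hle c.2)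
      by_cases h5 : u' = 0
      · exact ⟨1, one_mem_alg T, one_ne_zero, by simp [IntermediateField.smul_def, e, h5]⟩
      refine ⟨a * u', alg_mul h2 hu', mul_ne_zero h3 h5, ?_⟩
      rw [IntermediateField.smul_def, e, smul_eq_mul,
        show a * u' * (u / u' * x) = u * (a * x) by field_simp]
      exact hm u hu _ h4
  cov t d S C V M₀ B s hF _ hM h := by
    obtain ⟨h0, h1⟩ := wr_crd h.wr
    have hG := hF.of_jac (right_ne_zero_of_mul (h1 ▸ h.wr))
    obtain rfl := h.span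
    refine ⟨hG.ind, hG.fin, hG.sep, fun N _ _ O hO Φ φ₀ hΦ => ?_⟩
    have key := cong_of (low_of low) (C := C) B h.ne (nonempty_of (h.mem 0) h0) s h0 h.mem hG.ind
      hG.fin (fun σ hσ T hT h2 => ?_) N O hO Φ φ₀ hΦ
    · exact (mul_one _).ge.trans ((Nat.mul_le_mul_left _
        ((isSeparable_iff_finInsepDegree_eq_one _ _).1 hG.sep).ge).trans key)
    obtain ⟨i₀, h3⟩ := (h.pt σ hσ T hT h2).bpf
    refine ⟨i₀, h3, fun c hc => ?_⟩
    obtain ⟨MM, b, h4, h5, h6⟩ := (h.pt σ hσ T hT h2).cx i₀ c h3 hc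
    refine ⟨_, h4.mul ((JJ_fg (Hyp.fg hT ⟨B, rfl⟩)).pow b), fun z => ?_, h6⟩
    obtain ⟨W, h7, h8⟩ : ∃ W ∈ JJ d T, W ≠ 0 := (Submodule.ne_bot_iff _).1 fun e => by
      have h7 : Wr d (fun j => s j / σ ^ (m + 2)) ∈ alg T * JJ d (alg T) :=
        WW_le_mul (wr_mem fun j => Hyp.div_pow_mem hT _ (h.mem j))
      have h8 := mul_le_mul_right (JJ_adjoin (d := d) T) (alg T) h7
      rw [e, mul_bot, mul_bot, mem_bot] at h8
      exact h.wr (by rw [wr_div (pow_ne_zero (m + 2) hT.ne), h8, mul_zero])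
    obtain ⟨a, h9, h10, h11⟩ := hM σ T hT (z / W ^ b)
    refine ⟨a, h9, h10, ?_⟩
    rw [← mul_assoc, show a * z = a * (z / W ^ b) * W ^ b by field_simp]
    exact mul_mem_mul (mul_le_mul_right h5 _ h11) (pow_mem_pow _ h7 b)

theorem nak {T X : Submodule k E} (hX : X.FG) (h0 : X ≠ ⊥) (h : X ≤ nn T * X) :
    (1 : E) ∈ nn T := by
  let A := Algebra.adjoin k (T : Set E)
  let I : Ideal A :=
    { carrier := {a | a.1 ∈ nn T}
      add_mem' := fun a b => (nn T).add_mem a b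
      zero_mem' := zero_mem (nn T)
      smul_mem' := fun c x hx => by
        have : alg T * nn T ≤ nn T := by
          rw [nn, mul_left_comm]
          exact mul_le_mul_right (mul_le.2 fun _ a _ b => alg_mul a b) _
        exact this (mul_mem_mul c.2 hx) }
  obtain ⟨Y, rfl⟩ := hX
  obtain ⟨a, h1, h2⟩ := exists_sub_one_mem_and_smul_eq_zero_of_fg_of_le_smul I
    (span A (Y : Set E)) ⟨Y, rfl⟩ (span_le.2 fun y hy => by
      refine Submodule.mul_induction_on (h (subset_span hy)) (fun a ha x hx => ?_)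
        fun _ _ a b => add_mem a b
      exact smul_mem_smul (r := (⟨a, nn_le T ha⟩ : A)) ha (span_le_restrictScalars k A _ hx))
  obtain ⟨y, hy, h3⟩ := (Submodule.ne_bot_iff _).1 h0
  have h4 : a = 0 := Subtype.ext ((mul_eq_zero.1
    (h2 y (span_le_restrictScalars k A _ hy))).resolve_right h3)
  rw [h4, zero_sub] at h1
  exact neg_mem_iff.1 h1

section

variable {w : DV k K} {T X : Submodule k K}

theorem nak_fil (hT : T ≤ w.fil 0) (hX : X.FG) (h0 : X ≤ w.fil 0) (h1 : (1 : K) ∈ X)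
    (h : X ≤ w.fil 1 ⊔ nn T * X) : (1 : K) ∈ nn T ⊔ w.fil 1 := by
  obtain ⟨E, _, _, r, A, H⟩ := exists_rs w hT
  have h2 : X.map r ≤ nn (T.map r) * X.map r := by
    refine (map_mono h).trans ?_
    rw [Submodule.map_sup, Rs.map_mul fun a ha x hx =>
      H.mul a (Rs.alg_le H.le (nn_le T ha)) x (h0 hx), H.map_nn H.le]
    exact sup_le (map_le_iff_le_comap.2 fun x hx => mem_comap.2 (H.zero x hx ▸ zero_mem _)) le_rfl
  obtain ⟨a, ha, e⟩ := (H.map_nn H.le).ge (nak (hX.map r)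
    ((Submodule.ne_bot_iff _).2 ⟨1, ⟨1, h1, H.one⟩, one_ne_zero⟩) h2)
  exact mem_sup.2 ⟨a, ha, 1 - a, H.ker _ (sub_mem A.one_mem (Rs.alg_le H.le (nn_le T ha)))
    (by rw [map_sub, e, H.one, sub_self]), by ring⟩

theorem ld_zero [IsAlgClosed k] {C : ℕ} (hC : 0 < C) (hT : T ≤ w.fil 0)
    (hn : ∀ g : Fin 1 → K, (∀ i, g i ∈ w.fil 0) → ¬ w.Ind g) (g : Fin 0 → K) :
    Ld C T g (alg T * 1) (w.fil 1) := by
  obtain ⟨E, _, _, r, A, H⟩ := exists_rs w hT
  rw [mul_one]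
  refine ⟨1, one_pos, fun L => ⟨fun _ => 1, fun _ => one_mem_alg T, fun a ha => ?_⟩⟩
  have h1 := Rs.alg_le H.le ha
  have h2 : IsAlgebraic k (r a) := not_not.1 fun c => hn (fun _ => a) (fun _ => H.vr a h1)
    ((H.ind_iff fun _ => h1).1 (algebraicIndependent_unique_type_iff.2 c))
  obtain ⟨c, hc⟩ := minpoly.mem_range_of_degree_eq_one k _
    (IsAlgClosed.degree_eq_one_of_irreducible k (minpoly.irreducible h2.isIntegral))
  refine mem_sup.2 ⟨c • 1, smul_mem _ _ (subset_span ⟨⟨0, by simpa using hC⟩, rfl⟩),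
    a - algebraMap k K c, mem_sup_right (H.ker _ (sub_mem h1 (A.algebraMap_mem c))
      (by rw [map_sub, H.cst, hc, sub_self])), by simp [Algebra.smul_def]⟩

theorem map_mulRight (z : K) (X P : Submodule k K) :
    (X * P).map (LinearMap.mulRight k z) = X * P.map (LinearMap.mulRight k z) := by
  rw [Rs.map_mul (r := LinearMap.id) fun a _ x _ => mul_assoc a x z, map_id]

theorem ld_scale {P Q Q' : Submodule k K} {C e : ℕ} {g : Fin e → K} (z : K)
    (hQ : ∀ x ∈ Q, x * z ∈ Q') (H : Ld C T g P Q) :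
    Ld C T g (P.map (LinearMap.mulRight k z)) Q' := by
  obtain ⟨a, ha, H⟩ := H
  refine ⟨a, ha, fun L => ?_⟩
  obtain ⟨u, h1, h2⟩ := H L
  refine ⟨fun i => u i * z, fun i => mem_map_of_mem (h1 i), (map_mono h2).trans ?_⟩
  rw [Submodule.map_sup, Submodule.map_sup, Submodule.map_sup, map_span, ← Set.range_comp,
    map_mulRight, map_mulRight]
  exact sup_le_sup le_rfl (sup_le_sup le_rfl (map_le_iff_le_comap.2 hQ))

theorem polar (hT : T ≤ w.fil 0) {J MM : Submodule k K} (hJ : J.FG) (hM : MM.FG) (h0 : MM ≠ ⊥)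
    {W W₁ : K} (h1 : W₁ ∈ alg T * J) (h2 : W₁ ≠ 0) (h3 : W / W₁ ∈ w.fil 1) (b : ℕ) :
    ∃ z ∈ MM * J ^ (b + 1), z ≠ 0 ∧ (MM * J ^ (b + 1)).map (LinearMap.mulRight k z⁻¹) ≤ w.fil 0 ∧
      ∀ x ∈ pr k W * Mb T J MM b, x * z⁻¹ ∈ w.fil 1 := by
  have h4 : J ≠ ⊥ := fun e => h2 (by simpa [e] using h1)
  obtain ⟨z, h5, h6, h7⟩ := (val_vr w).exists_gen (hM.mul (hJ.pow (b + 1)))
    (mul_ne_zero h0 (pow_ne_zero _ h4))
  refine ⟨z, h5, h6, map_le_iff_le_comap.2 fun x hx =>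
    show x * z⁻¹ ∈ w.fil 0 from div_eq_mul_inv x z ▸ h7 x hx, fun x hx => ?_⟩
  obtain ⟨y, hy, rfl⟩ := mem_pr_mul.1 hx
  have h8 : ∀ u ∈ Mb T J MM (b + 1), u * z⁻¹ ∈ w.fil 0 := fun u hu =>
    Submodule.mul_induction_on hu (fun a ha x hx => mul_assoc a x z⁻¹ ▸ w.vr.mul_mem
      (Rs.alg_le (A := w.vr) hT ha) (div_eq_mul_inv x z ▸ h7 x hx))
      fun x y hx hy => add_mul x y z⁻¹ ▸ add_mem hx hy
  rw [show W * y * z⁻¹ = W₁ * y * z⁻¹ * (W / W₁) by field_simp]
  exact mul_fil_one (h8 _ (mul_mem_Mb h1 hy)) h3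

open scoped IntermediateField.algebraAdjoinAdjoin in
theorem prm_of {V : Submodule k K} {σ : K} (hσ : σ ∈ V) (h0 : σ ≠ 0)
    (h2 : ∀ v ∈ V, v / σ ∈ w.fil 0) {s : Fin (m + 2) → K} (hs : ∀ j, s j ∈ V ^ (m + 2))
    (h3 : s 0 / σ ^ (m + 2) ∉ w.fil 1) (hi : w.Ind (Fin.init (crd s) : Fin m → K)) :
    Prm m V w := by
  obtain ⟨E, _, _, r, A, h⟩ := exists_rs w (U := V.comap (LinearMap.mulLeft k σ)) fun x hx => by
    simpa [h0] using h2 _ hx
  have hA : ∀ j, s j / σ ^ (m + 2) ∈ A := fun j =>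
    (h.map_pow h.le (m + 2)).1 _ (div_pow_mem_comap h0 _ (hs j))
  have h4 : ∀ j, s j / s 0 ∈ A := fun j => by
    simpa only [div_div_div_cancel_right₀ (pow_ne_zero _ h0)] using
      (h.div (hA j) (hA 0) fun e => h3 (h.ker _ (hA 0) e)).1
  have h5 := ((h.ind_iff (g := (Fin.init (crd s) : Fin m → K)) fun i => h4 _).2
    hi).lift_cardinalMk_le_trdeg
  have : Algebra.IsAlgebraic
      (Algebra.adjoin k ((V.comap (LinearMap.mulLeft k σ)).map r : Set E)) E := by
    rw [← IntermediateField.isAlgebraic_adjoin_iff_top, h.top, Algebra.isAlgebraic_iff_isIntegral]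
    exact Algebra.isIntegral_of_surjective IntermediateField.topEquiv.surjective
  obtain ⟨Y, h6, h7⟩ := exists_isTranscendenceBasis_subset (R := k)
    ((V.comap (LinearMap.mulLeft k σ)).map r : Set E)
  rw [← h7.cardinalMk_eq_trdeg, Cardinal.lift_id, Cardinal.lift_id] at h5
  obtain ⟨f⟩ := (Cardinal.le_def _ _).1 h5
  choose g hg e using fun i => h6 (f i).2
  refine ⟨σ, min_of hσ h0 h2, g, hg, (h.ind_iff fun i => h.le _ (hg i)).1 ?_⟩
  simp only [e]
  exact h7.1.comp f f.injective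

end

theorem finW [IsAlgClosed k] (low : LowStmt k) (p : ℕ) [Fact p.Prime] [CharP k p] :
    FinWStmt k K m := by
  intro t d S C V M₀ B s w hC hC0 hF h hg hi
  obtain ⟨h0, h1⟩ := wr_crd h.wr
  obtain rfl := h.span
  have hn : ∀ g : Fin (m + 1) → K, (∀ i, g i ∈ w.fil 0) → ¬ w.Ind g :=
    fun g => not_ind hF.trdeg (Fintype.card_fin _)
  obtain ⟨σ₀, h2, T₀, hT₀, h3, R, ψ, h4, h5, h6⟩ := exists_point B h.ne (nonempty_of (h.mem 0) h0)
    (val_vr w) {AlgHom.id k K} (AlgHom.id k K) (by simp [Un])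
  have h7 : T₀ ≤ kerS R ψ := h4 _ (Finset.mem_singleton_self _)
  have h8 : ∀ x ∈ alg T₀, x ∈ R := fun x => Rs.alg_le fun t ht => (mem_kerS.1 (h7 ht)).1
  have h9 : ∀ v ∈ span k (B : Set K), v / σ₀ ∈ w.fil 0 := fun v hv =>
    h5 (h8 _ (one_sup_le _ (Hyp.div_mem hT₀ hv)))
  have hm₀ := min_of (subset_span h2) hT₀.ne h9
  have h10 : s 0 / σ₀ ^ (m + 2) ∉ w.fil 1 := fun c => by
    obtain ⟨j, hj⟩ := (h.pt σ₀ h2 T₀ hT₀ h3).bpf
    have h10 : s j / σ₀ ^ (m + 2) ∈ w.fil 1 := by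
      rw [show s j / σ₀ ^ (m + 2) = s j / s 0 * (s 0 / σ₀ ^ (m + 2)) by field_simp]
      refine mul_fil_one (Fin.cases ?_ hg j) c
      rw [div_self h0]
      exact w.vr.one_mem
    have h11 := Hyp.div_pow_mem hT₀ _ (h.mem j)
    obtain ⟨a, ha⟩ := exists_val h11
    obtain ⟨h12, h13⟩ := mem_kerS.1 (nn_le_kerS h7 ha)
    have e : (⟨_, h12⟩ : R) = ⟨_, h8 _ h11⟩ - algebraMap k R a := rfl
    rw [e, map_sub, AlgHom.commutes, h6 _ fun u => one_notMem_fil
      (inv_mul_cancel₀ u.2.1 ▸ mul_fil_one u.2.2 h10), zero_sub, neg_eq_zero] at h13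
    exact hj (by simpa [show a = 0 from h13] using ha)
  have hord : w.ord (s 0) = (m + 2 : ℕ) * w.ordS (span k (B : Set K)) := by
    have h11 := (h5 (h8 _ (Hyp.div_pow_mem hT₀ _ (h.mem 0)))).resolve_left
      (div_ne_zero h0 (pow_ne_zero _ hT₀.ne))
    rw [mem_fil, not_or] at h10
    rw [ord_div h0 (pow_ne_zero _ hT₀.ne), ord_pow hT₀.ne, hm₀.2.2] at h10 h11
    omega
  have hmin : ∀ σ, w.Min (span k (B : Set K)) σ → ∀ v ∈ span k (B : Set K), v / σ ∈ w.fil 0 :=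
    fun σ hσ v hv => by
      rw [show v / σ = v / σ₀ * (σ₀ / σ) by have := hT₀.ne; field_simp]
      exact w.vr.mul_mem (h9 v hv) (Or.inr (by rw [ord_div hT₀.ne hσ.2.1, hσ.2.2, hm₀.2.2]; omega))
  by_cases hD : w ∈ DD d S (span k (B : Set K))
  · refine Or.inr (resi low p C _ B s w hC rfl h.ne h.mem h0 hord hi hn fun σ hσ hm T hT h11 => ?_)
    have hA := h.pt σ hσ T hT fun e => h11 (mem_sup_left e)
    refine ⟨by_contra fun c => h11 ((hA.base fun i => not_not.1 fun e => c ⟨i, e⟩).1 w ⟨hD, hm⟩),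
      fun i₀ c h12 h13 => ⟨1, ⟨{1}, by simp [one_eq_span]⟩, one_le.2 w.vr.one_mem,
        fun e => one_notMem_fil (one_le.1 e), ?_⟩⟩
    rw [mul_one]
    exact (hA.cw i₀ c h12 h13).1 w ⟨hD, hm⟩
  rw [DD, Set.mem_ofPred_eq, not_and, not_or, not_not] at hD
  obtain ⟨h11, σ₁, hm₁, g, h12, h13⟩ := hD (prm_of (subset_span h2) hT₀.ne h9 h.mem h10 hi)
  by_cases hJ : Jac d (crd s) / Jac d g ∉ w.fil 1
  · exact Or.inl ⟨fun r hr => not_not.1 fun c => h11 ⟨r, hr, c⟩, exists_unif p hF hg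
      (h13.of hg (right_ne_zero_of_mul (h1 ▸ h.wr)) (inv_div (Jac d (crd s)) _ ▸ inv_mem_fil hJ))⟩
  refine Or.inr (resi low p C _ B s w hC rfl h.ne h.mem h0 hord hi hn fun σ hσ hm T hT h14 => ?_)
  have hA := h.pt σ hσ T hT fun e => h14 (mem_sup_left e)
  have h15 : T ≤ w.fil 0 := fun x hx => by
    simpa [hT.ne] using hmin σ hm _ ((Hyp.mem hT).2 (mem_sup_right hx))
  have h16 : σ₁ ^ (m + 2) * Jac d g / σ ^ (m + 2) ∈ alg T * JJ d T := by
    have e : (T ⊔ 1) * JJ d T ≤ alg T * JJ d T := mul_le_mul_left (sup_comm T 1 ▸ one_sup_le T) _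
    refine e (div_pow_mem' hT.ne (fun v hv => sup_comm 1 T ▸ Hyp.div_mem hT hv) ?_)
    rw [← wr_cons_mul]
    exact wr_mem (Fin.cases hm₁.1 h12)
  have h17 : σ₁ ^ (m + 2) * Jac d g / σ ^ (m + 2) ≠ 0 := div_ne_zero
    (mul_ne_zero (pow_ne_zero _ hm₁.2.1) h13.jac_ne) (pow_ne_zero _ hT.ne)
  have h18 : Wr d (fun j => s j / σ ^ (m + 2)) / (σ₁ ^ (m + 2) * Jac d g / σ ^ (m + 2)) ∈
      w.fil 1 := by
    have e := (wr_div (d := d) (pow_ne_zero (m + 2) hT.ne) s).symm.trans h1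
    rw [eq_div_of_mul_eq (pow_ne_zero _ (pow_ne_zero _ hT.ne)) ((mul_comm _ _).trans e),
      show s 0 ^ (m + 2) * Jac d (crd s) / (σ ^ (m + 2)) ^ (m + 2) /
        (σ₁ ^ (m + 2) * Jac d g / σ ^ (m + 2)) = (s 0 / σ ^ (m + 2) * (σ / σ₁)) ^ (m + 2) *
        (Jac d (crd s) / Jac d g) by rw [mul_pow, div_pow, div_pow]; field_simp]
    exact mul_fil_one (w.vr.pow_mem (w.vr.mul_mem (Rs.alg_le (A := w.vr) h15
      (Hyp.div_pow_mem hT _ (h.mem 0))) (hmin σ₁ hm₁ σ hm.1)) _) (not_not.1 hJ)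
  have hJT := JJ_fg (d := d) (Hyp.fg hT ⟨B, rfl⟩)
  refine ⟨by_contra fun c => ?_, fun i₀ c h19 h20 => ?_⟩
  · obtain ⟨MM, h19, h20, h21⟩ := (hA.base fun i => not_not.1 fun e => c ⟨i, e⟩).2
    obtain ⟨z, h22, h23, h24, h25⟩ := polar h15 hJT h19 h20 h16 h17 h18 0
    refine h14 (nak_fil h15 ((h19.mul (hJT.pow _)).map _) h24 ⟨z, h22, mul_inv_cancel₀ h23⟩ ?_)
    refine (map_mono ((le_alg_mul _).trans h21)).trans ?_
    rw [Submodule.map_sup, Mb, Mb, ← mul_assoc T, map_mulRight _ (T * alg T)]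
    exact sup_le_sup (map_le_iff_le_comap.2 h25) le_rfl
  · rcases Nat.eq_zero_or_pos m with rfl | hm0
    · exact ⟨1, ⟨{1}, by simp [one_eq_span]⟩, one_le.2 w.vr.one_mem,
        fun e => one_notMem_fil (one_le.1 e), ld_zero hC0 h15 hn _⟩
    obtain ⟨MM, b, h21, h22, h23⟩ := (hA.cw i₀ c h19 h20).2 hm0
    obtain ⟨z, h24, h25, h26, h27⟩ := polar h15 hJT h21 h22 h16 h17 h18 b
    exact ⟨_, (h21.mul (hJT.pow _)).map _, h26,
      fun e => one_notMem_fil (e ⟨z, h24, mul_inv_cancel₀ h25⟩),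
      map_mulRight z⁻¹ (alg T) _ ▸ ld_scale z⁻¹ h27 h23⟩

end Pool.Agent.MP_19ffc6_ag.Res.PA.Fl
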