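import Pool.Agent.MP_19ffc6_ag.Res.ASpec

/-! PROJECT RES, part A: points, coverings and residue maps. -/

namespace Pool.Agent.MP_19ffc6_ag.Res.PA.Fl

open Pool.Agent.MP_19ffc6_ag.Wild Submodule Pool.Agent.MP_19ffc6_ag.Res.PA.Num

variable {k K E N : Type} [Field k] [Field K] [Algebra k K] [Field E] [Algebra k E] [Field N]
  [Algebra k N] {m : ℕ}

/-! ### Points -/

theorem exists_psi [IsAlgClosed k] {O D : Subalgebra k N} (hO : Lcl O) (h : D ≤ O) (hD : D.FG) :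
    ∃ ψ : D →ₐ[k] k, ∀ x : D, ¬ Un O x → ψ x = 0 := by
  let I : Ideal D :=
    { carrier := {x | ¬ Un O x}
      add_mem' := fun {x y} hx hy hxy => (hO _ (h x.2) _ (h y.2) hxy).elim hx hy
      zero_mem' := fun hu => hu.2.1 rfl
      smul_mem' := fun c x hx hu => hx (Un.of_mul (h x.2) (h c.2) (by rw [mul_comm]; exact hu)) }
  obtain ⟨M, hM, hle⟩ := I.exists_le_maximal fun e =>
    (show (1 : D) ∈ I from e ▸ trivial) (Un.one O)
  have := (Subalgebra.fg_iff_finiteType _).1 hD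
  let _ := Ideal.Quotient.field M
  have : Module.Finite k (D ⧸ M) := finite_of_finite_type_of_isJacobsonRing k _
  let e : k ≃ₐ[k] D ⧸ M := AlgEquiv.ofBijective (Algebra.ofId k _)
    (IsAlgClosed.algebraMap_bijective_of_isIntegral (k := k) (K := D ⧸ M))
  refine ⟨(e.symm : _ →ₐ[k] k).comp (Ideal.Quotient.mkₐ k M), fun x hx => ?_⟩
  have : Ideal.Quotient.mkₐ k M x = 0 := Ideal.Quotient.eq_zero_iff_mem.2 (hle hx)
  rw [AlgHom.comp_apply, this, map_zero]

/-- The elements that vanish at a point. -/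
def kerS (A : Subalgebra k E) (χ : A →ₐ[k] k) : Submodule k E :=
  (LinearMap.ker χ.toLinearMap).map A.val.toLinearMap

theorem mem_kerS {A : Subalgebra k E} {χ : A →ₐ[k] k} {x : E} :
    x ∈ kerS A χ ↔ ∃ h : x ∈ A, χ ⟨x, h⟩ = 0 :=
  ⟨by rintro ⟨y, hy, rfl⟩; exact ⟨y.2, hy⟩, fun ⟨h, e⟩ => ⟨⟨x, h⟩, e, rfl⟩⟩

theorem mem_alg {T : Submodule k E} {x : E} : x ∈ alg T ↔ x ∈ Algebra.adjoin k (T : Set E) :=
  Iff.rfl

theorem le_alg (T : Submodule k E) : T ≤ alg T := fun _ hx => Algebra.subset_adjoin hx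

theorem alg_mul {T : Submodule k E} {x y : E} (hx : x ∈ alg T) (hy : y ∈ alg T) :
    x * y ∈ alg T := Subalgebra.mul_mem _ hx hy

theorem nn_le (T : Submodule k E) : nn T ≤ alg T :=
  mul_le.2 fun _ hx _ hy => alg_mul (le_alg T hx) hy

theorem nn_le_kerS {A : Subalgebra k E} {χ : A →ₐ[k] k} {T : Submodule k E} (h : T ≤ kerS A χ) :
    nn T ≤ kerS A χ := by
  have hA : ∀ x ∈ alg T, x ∈ A := fun x hx =>
    Algebra.adjoin_le (S := A) (fun y hy => (mem_kerS.1 (h hy)).1) hx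
  refine mul_le.2 fun x hx y hy => ?_
  obtain ⟨h1, h2⟩ := mem_kerS.1 (h hx)
  refine mem_kerS.2 ⟨A.mul_mem h1 (hA y hy), ?_⟩
  have : χ (⟨x, h1⟩ * ⟨y, hA y hy⟩) = 0 := by rw [map_mul, h2, zero_mul]
  exact this

theorem one_notMem_kerS (A : Subalgebra k E) (χ : A →ₐ[k] k) : (1 : E) ∉ kerS A χ := fun h => by
  obtain ⟨h1, h2⟩ := mem_kerS.1 h
  exact one_ne_zero ((map_one χ).symm.trans h2)

theorem Hyp.mem {V T : Submodule k E} {σ : E} (h : Hyp V σ T) {x : E} :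
    σ * x ∈ V ↔ x ∈ 1 ⊔ T := by
  rw [h.eq, mem_pr_mul]
  exact ⟨fun ⟨y, hy, e⟩ => mul_left_cancel₀ h.ne e ▸ hy, fun hx => ⟨x, hx, rfl⟩⟩

/-- The hyperplane defined by a linear condition. -/
theorem hyp_of {V H : Submodule k E} {σ : E} (h0 : σ ≠ 0) (hσ : σ ∈ V) (h1 : (1 : E) ∉ H)
    (h : ∀ x, σ * x ∈ V → ∃ c : k, x - algebraMap k E c ∈ H) :
    Hyp V σ (V.comap (LinearMap.mulLeft k σ) ⊓ H) where
  ne := h0
  one := fun e => h1 e.2
  eq := le_antisymm (fun v hv => by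
      have e : σ * (v / σ) = v := mul_div_cancel₀ _ h0
      obtain ⟨c, hc⟩ := h (v / σ) (e.symm ▸ hv)
      refine mem_pr_mul.2 ⟨v / σ, mem_sup.2 ⟨algebraMap k E c, mem_one.2 ⟨c, rfl⟩, _, ⟨?_, hc⟩,
        by ring⟩, e⟩
      change σ * (v / σ - algebraMap k E c) ∈ V
      rw [mul_sub, e, mul_comm, ← Algebra.smul_def]
      exact sub_mem hv (smul_mem _ _ hσ))
    fun v hv => by
      obtain ⟨x, hx, rfl⟩ := mem_pr_mul.1 hv
      obtain ⟨_, hc, t, ht, rfl⟩ := mem_sup.1 hx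
      obtain ⟨c, rfl⟩ := mem_one.1 hc
      rw [mul_add, mul_comm, ← Algebra.smul_def]
      exact add_mem (smul_mem _ _ hσ) ht.1

/-- Congruent embeddings define a point of a chart. -/
theorem exists_point [IsAlgClosed k] (B : Finset E) (hB : ∀ σ ∈ B, σ ≠ 0) (hne : B.Nonempty)
    {O : Subalgebra k N} (hO : Val O) (Φ : Finset (E →ₐ[k] N)) (φ₀ : E →ₐ[k] N)
    (hΦ : ∀ φ ∈ Φ, ∀ a, φ₀ a ∈ O → φ a ∈ O ∧ ¬ Un O (φ a - φ₀ a)) :
    ∃ σ ∈ B, ∃ T, Hyp (span k (B : Set E)) σ T ∧ (1 : E) ∉ nn T ∧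
      ∃ (R : Subalgebra k N) (ψ : R →ₐ[k] k), (∀ φ ∈ Φ, ∀ t ∈ T, φ t ∈ kerS R ψ) ∧ R ≤ O ∧
        ∀ x : R, ¬ Un O x → ψ x = 0 := by
  classical
  obtain ⟨_, hg, hmin⟩ := hO.exists_min (T := B.image φ₀) (hne.image _) (by
    intro t ht
    obtain ⟨b, hb, rfl⟩ := Finset.mem_image.1 ht
    exact (map_ne_zero _).2 (hB b hb))
  obtain ⟨σ, hσ, rfl⟩ := Finset.mem_image.1 hg
  have h0 : ∀ b ∈ B, φ₀ (b / σ) ∈ O := fun b hb => by
    rw [map_div₀]; exact hmin _ (Finset.mem_image_of_mem _ hb)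
  let R : Subalgebra k N := Algebra.adjoin k
    (((insert φ₀ Φ ×ˢ B).image fun z => z.1 (z.2 / σ) : Finset N) : Set N)
  have hR : ∀ φ ∈ insert φ₀ Φ, ∀ x, σ * x ∈ span k (B : Set E) → φ x ∈ R ∧ φ₀ x ∈ O := by
    intro φ hφ x hx
    have : ∀ v ∈ span k (B : Set E), φ (v / σ) ∈ R ∧ φ₀ (v / σ) ∈ O := fun v hv => by
      induction hv using span_induction with
      | mem b hb => exact ⟨Algebra.subset_adjoin (Finset.mem_coe.2 (Finset.mem_image.2
          ⟨(φ, b), Finset.mem_product.2 ⟨hφ, hb⟩, rfl⟩)), h0 b hb⟩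
      | zero => simp
      | add a b _ _ ha hb => simpa [add_div] using ⟨add_mem (by simpa using ha.1) (by simpa using hb.1),
          add_mem (by simpa using ha.2) (by simpa using hb.2)⟩
      | smul c a _ ha =>
        rw [smul_div_assoc, map_smul, map_smul]
        exact ⟨R.smul_mem ha.1 c, O.smul_mem ha.2 c⟩
    simpa [mul_div_cancel_left₀ _ (hB σ hσ)] using this _ hx
  have hRO : R ≤ O := Algebra.adjoin_le fun z hz => by
    obtain ⟨⟨φ, b⟩, h1, rfl⟩ := Finset.mem_image.1 (Finset.mem_coe.1 hz)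
    obtain ⟨h2, h3⟩ := Finset.mem_product.1 h1
    rcases Finset.mem_insert.1 h2 with rfl | h2
    · exact h0 b h3
    · exact (hΦ φ h2 _ (h0 b h3)).1
  obtain ⟨ψ, hψ⟩ := exists_psi hO.lcl hRO ⟨_, rfl⟩
  let χ : R.comap φ₀ →ₐ[k] k := ψ.comp ((φ₀.comp (R.comap φ₀).val).codRestrict R fun x => x.2)
  refine ⟨σ, hσ, _, hyp_of (H := kerS _ χ) (hB σ hσ) (subset_span hσ) (one_notMem_kerS _ _)
    fun x hx => ?_, fun h => one_notMem_kerS _ χ (nn_le_kerS inf_le_right h), R, ψ,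
    fun φ hφ t ht => ?_, hRO, hψ⟩
  · have h1 : x ∈ R.comap φ₀ := (hR φ₀ (Finset.mem_insert_self _ _) x hx).1
    refine ⟨χ ⟨x, h1⟩, mem_kerS.2 ⟨sub_mem h1 (Subalgebra.algebraMap_mem _ _), ?_⟩⟩
    have : χ (⟨x, h1⟩ - algebraMap k _ (χ ⟨x, h1⟩)) = 0 := by simp
    exact this
  · obtain ⟨h1, h2⟩ := mem_kerS.1 ht.2
    obtain ⟨h3, h4⟩ := hR φ (Finset.mem_insert_of_mem hφ) t ht.1
    have h5 := hψ (⟨φ t, h3⟩ - ⟨φ₀ t, h1⟩) (hΦ φ hφ t h4).2
    rw [map_sub, show ψ ⟨φ₀ t, h1⟩ = 0 from h2, sub_zero] at h5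
    exact mem_kerS.2 ⟨h3, h5⟩

/-! ### Coverings -/

variable (k) in
/-- The lower bound for the local degree. -/
def LowH : Prop :=
  ∀ (E : Type) [Field E] [Algebra k E] (e C : ℕ) (T MM : Submodule k E) (s₀ : E) (g : Fin e → E)
    (c : Fin e → k), T.FG → MM.FG → (∀ x : E, ∃ a ∈ alg T, a ≠ 0 ∧ a * x ∈ alg T * MM) →
    s₀ ∈ alg T → s₀ ∉ nn T → (∀ i, s₀ * g i - c i • s₀ ∈ nn T) → AlgebraicIndependent k g →
    FiniteDimensional (IntermediateField.adjoin k (Set.range g)) E →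
    Ld C T (fun i => s₀ * g i - c i • s₀) (alg T * MM) ⊥ →
    ∀ (N : Type) [Field N] [Algebra k N] (Φ : Finset (E →ₐ[k] N)) (φ₀ : E →ₐ[k] N)
      (R : Subalgebra k N) (ψ : R →ₐ[k] k),
      (∀ φ ∈ Φ, (∀ i, φ (g i) = φ₀ (g i)) ∧ ∀ t ∈ T, φ t ∈ kerS R ψ) →
      Φ.card * Field.finInsepDegree (IntermediateField.adjoin k (Set.range g)) E ≤ C

theorem Hyp.fg {V T : Submodule k E} {σ : E} (h : Hyp V σ T) (hV : V.FG) : T.FG := by
  have : Module.Finite k V := Module.Finite.iff_fg.2 hV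
  refine Module.Finite.iff_fg.1 (Module.Finite.of_injective
    (((LinearMap.mulLeft k σ).comp T.subtype).codRestrict V fun x =>
      (Hyp.mem h).2 (mem_sup_right x.2)) fun x y e => ?_)
  exact Subtype.ext (mul_left_cancel₀ h.ne (congrArg Subtype.val e))

theorem Hyp.div_mem {V T : Submodule k E} {σ : E} (h : Hyp V σ T) {v : E} (hv : v ∈ V) :
    v / σ ∈ 1 ⊔ T := (Hyp.mem h).1 (by rwa [mul_div_cancel₀ _ h.ne])

theorem one_sup_le (T : Submodule k E) : 1 ⊔ T ≤ alg T :=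
  sup_le (one_le.2 (one_mem_alg T)) (le_alg T)

theorem Hyp.div_pow_mem {V T : Submodule k E} {σ : E} (h : Hyp V σ T) (r : ℕ) {x : E}
    (hx : x ∈ V ^ r) : x / σ ^ r ∈ alg T := by
  induction hx using Submodule.pow_induction_on_left' with
  | algebraMap c =>
    rw [pow_zero, div_one]
    exact (Algebra.adjoin k (T : Set E)).algebraMap_mem c
  | add x y i _ _ hx hy => rw [add_div]; exact add_mem hx hy
  | mem_mul v hv i x _ hx =>
    rw [pow_succ', mul_div_mul_comm]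
    exact alg_mul (one_sup_le T (Hyp.div_mem h hv)) hx

theorem exists_val {T : Submodule k E} {x : E} (hx : x ∈ alg T) :
    ∃ c : k, x - algebraMap k E c ∈ nn T := by
  obtain ⟨_, hc, y, hy, rfl⟩ := mem_sup.1 (alg_le T hx)
  obtain ⟨c, rfl⟩ := mem_one.1 hc
  exact ⟨c, by rw [add_sub_cancel_left]; exact hy⟩

theorem exists_ratio {T : Submodule k E} {x y : E} (hx : x ∈ alg T) (hy : y ∈ alg T)
    (h : y ∉ nn T) : ∃ c : k, x - c • y ∈ nn T := by
  obtain ⟨a, ha⟩ := exists_val hx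
  obtain ⟨b, hb⟩ := exists_val hy
  have hb0 : b ≠ 0 := fun e => h (by simpa [e] using hb)
  refine ⟨a / b, ?_⟩
  have : x - (a / b) • y = x - algebraMap k E a - (a / b) • (y - algebraMap k E b) := by
    rw [smul_sub, Algebra.smul_def (a / b) (algebraMap k E b), ← map_mul, div_mul_cancel₀ _ hb0]
    ring
  rw [this]
  exact sub_mem ha (smul_mem _ _ hb)

theorem ratio_mem {e : ℕ} (s : Fin (e + 1) → E) {a : Fin (e + 1)} (ha : s a ≠ 0)
    (i j : Fin (e + 1)) :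
    s i / s j ∈ IntermediateField.adjoin k (Set.range fun l => s (a.succAbove l) / s a) := by
  have h : ∀ i, s i / s a ∈
      IntermediateField.adjoin k (Set.range fun l => s (a.succAbove l) / s a) := fun i => by
    induction i using Fin.succAboveCases a with
    | x => rw [div_self ha]; exact one_mem _
    | p l => exact IntermediateField.subset_adjoin _ _ ⟨l, rfl⟩
  rw [← div_div_div_cancel_right₀ ha]
  exact div_mem (h i) (h j)

open scoped IntermediateField.algebraAdjoinAdjoin in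
theorem low_of (low : LowStmt k) : LowH k := by
  intro E _ _ e C T MM s₀ g c hT hM hs h1 h2 h3 hind hfin hL N _ _ Φ φ₀ R ψ hΦ
  have h0 : s₀ ≠ 0 := fun e => h2 (e ▸ zero_mem _)
  have e1 : ∀ i, (s₀ * g i - c i • s₀) / s₀ = g i - algebraMap k E (c i) := fun i => by
    rw [Algebra.smul_def]; field_simp
  have hF : IntermediateField.adjoin k (Set.range g) =
      IntermediateField.adjoin k (Set.range fun i => (s₀ * g i - c i • s₀) / s₀) := by
    refine le_antisymm (IntermediateField.adjoin_le_iff.2 ?_)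
      (IntermediateField.adjoin_le_iff.2 ?_) <;> rintro _ ⟨i, rfl⟩
    · rw [← sub_add_cancel (g i) (algebraMap k E (c i)), ← e1]
      exact add_mem (IntermediateField.subset_adjoin _ _ ⟨i, rfl⟩)
        (IntermediateField.algebraMap_mem _ _)
    · simp only [e1]
      exact sub_mem (IntermediateField.subset_adjoin _ _ ⟨i, rfl⟩)
        (IntermediateField.algebraMap_mem _ _)
  have hfin' : FiniteDimensional
    (IntermediateField.adjoin k (Set.range fun i => (s₀ * g i - c i • s₀) / s₀)) E := hF ▸ hfin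
  have : Algebra.IsAlgebraic
      (Algebra.adjoin k (Set.range fun i => (s₀ * g i - c i • s₀) / s₀)) E :=
    IntermediateField.isAlgebraic_adjoin_iff_top.1 inferInstance
  have : (RingHom.ker ψ).IsPrime := RingHom.ker_isPrime ψ
  obtain ⟨O, hO, hu⟩ := Res.exists_point R (RingHom.ker ψ)
  have := hO.lcl.isLocalRing
  have hk : ∀ x ∈ kerS R ψ, ∀ y ∈ O, ∃ b ∈ IsLocalRing.maximalIdeal O, (b : N) = x * y :=
    fun x hx y hy => by
      obtain ⟨a, b⟩ := mem_kerS.1 hx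
      exact ⟨_, Ideal.mul_mem_right ⟨y, hy⟩ _ ((IsLocalRing.mem_maximalIdeal ⟨x, hO.le a⟩).2
        fun u => (hu ⟨x, a⟩).1 ((isUnit_iff_un _).1 u) b), rfl⟩
  rw [hF]
  refine low E N e C T MM s₀ _ O (IsLocalRing.maximalIdeal O) Φ hT hM hs h1 h0
    (fun i => nn_le T (h3 i)) (Algebra.IsAlgebraic.isTranscendenceBasis_of_le_trdeg_of_finite k _
      (by simpa using hind.lift_cardinalMk_le_trdeg)).1 hfin' (Ideal.IsMaximal.ne_top inferInstance)
    (fun φ hφ t ht => by simpa using hk _ ((hΦ φ hφ).2 t ht) 1 (one_mem _)) (fun i => ?_) hL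
  rcases Φ.eq_empty_or_nonempty with rfl | ⟨φ, hφ⟩
  · exact ⟨0, zero_mem _, by simp⟩
  let χ : R.comap φ →ₐ[k] k := ψ.comp ((φ.comp (R.comap φ).val).codRestrict R fun x => x.2)
  have h4 : ∀ x ∈ nn T, φ x ∈ kerS R ψ := fun x hx => by
    have h4 : T ≤ kerS _ χ := fun t ht => by
      obtain ⟨a, b⟩ := mem_kerS.1 ((hΦ φ hφ).2 t ht)
      exact mem_kerS.2 ⟨a, b⟩
    obtain ⟨a, b⟩ := mem_kerS.1 (nn_le_kerS h4 hx)
    exact mem_kerS.2 ⟨a, b⟩
  obtain ⟨a, ha⟩ := exists_val h1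
  obtain ⟨h5, h6⟩ := mem_kerS.1 (h4 _ ha)
  have h7 : φ s₀ ∈ R := by simpa using add_mem h5 (R.algebraMap_mem a)
  have h8 : Un O (φ s₀) := (hu ⟨_, h7⟩).2 fun h => h2 (by
    have e : (⟨φ s₀, h7⟩ : R) = ⟨_, h5⟩ + algebraMap k R a := Subtype.ext (by simp)
    rw [RingHom.mem_ker, e, map_add, h6, AlgHom.commutes, zero_add] at h
    simpa [show a = 0 from h] using ha)
  obtain ⟨b, hb, e⟩ := hk _ (h4 _ (h3 i)) _ h8.2.2
  refine ⟨b, hb, fun φ' hφ' => ?_⟩
  rw [e, ← div_eq_mul_inv, ← map_div₀, e1, map_sub, map_sub, (hΦ φ hφ).1, (hΦ φ' hφ').1,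
    AlgHom.commutes, AlgHom.commutes]

/-- The local conditions at the point `T` for the forms `s` of the chart. -/
def Lc (C : ℕ) (T : Submodule k E) {e : ℕ} (s : Fin (e + 1) → E) : Prop :=
  ∃ i₀, s i₀ ∉ nn T ∧ ∀ c : Fin e → k, (∀ i, s (i₀.succAbove i) - c i • s i₀ ∈ nn T) →
    ∃ MM : Submodule k E, MM.FG ∧ (∀ x : E, ∃ a ∈ alg T, a ≠ 0 ∧ a * x ∈ alg T * MM) ∧
      Ld C T (fun i => s (i₀.succAbove i) - c i • s i₀) (alg T * MM) ⊥

open scoped IntermediateField.algebraAdjoinAdjoin in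
theorem cong_of [IsAlgClosed k] (low : LowH k) {C e r : ℕ}
    (B : Finset E) (hB : ∀ σ ∈ B, σ ≠ 0) (hne : B.Nonempty) (s : Fin (e + 1) → E) (h0 : s 0 ≠ 0)
    (hs : ∀ j, s j ∈ span k (B : Set E) ^ r)
    (hind : AlgebraicIndependent k fun i : Fin e => s i.succ / s 0)
    (hfin : FiniteDimensional
      (IntermediateField.adjoin k (Set.range fun i : Fin e => s i.succ / s 0)) E)
    (h : ∀ σ ∈ B, ∀ T, Hyp (span k (B : Set E)) σ T → (1 : E) ∉ nn T →
      Lc C T fun j => s j / σ ^ r) (N : Type) [Field N] [Algebra k N]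
    (O : Subalgebra k N) (hO : Val O) (Φ : Finset (E →ₐ[k] N)) (φ₀ : E →ₐ[k] N)
    (hΦ : ∀ φ ∈ Φ, (∀ z ∈ Set.range fun i : Fin e => s i.succ / s 0, φ z = φ₀ z) ∧
      ∀ a, φ₀ a ∈ O → φ a ∈ O ∧ ¬ Un O (φ a - φ₀ a)) :
    Φ.card * Field.finInsepDegree
      (IntermediateField.adjoin k (Set.range fun i : Fin e => s i.succ / s 0)) E ≤ C := by
  obtain ⟨σ, hσ, T, hT, h1, R, ψ, hψ, -⟩ := exists_point B hB hne hO Φ φ₀ fun φ a => (hΦ φ a).2
  obtain ⟨i₀, h2, h3⟩ := h σ hσ T hT h1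
  have ha : ∀ j, s j / σ ^ r ∈ alg T := fun j => Hyp.div_pow_mem hT r (hs j)
  choose c hc using fun i => exists_ratio (ha (i₀.succAbove i)) (ha i₀) h2
  obtain ⟨MM, h4, h5, h6⟩ := h3 c hc
  have hi : s i₀ ≠ 0 := fun e => h2 (by simp [e])
  have hF : IntermediateField.adjoin k (Set.range fun i : Fin e => s i.succ / s 0) =
      IntermediateField.adjoin k (Set.range fun l => s (i₀.succAbove l) / s i₀) :=
    le_antisymm (IntermediateField.adjoin_le_iff.2 (by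
      rintro _ ⟨i, rfl⟩; exact ratio_mem s hi _ _)) (IntermediateField.adjoin_le_iff.2 (by
      rintro _ ⟨i, rfl⟩; simpa using ratio_mem (k := k) s h0 (i₀.succAbove i) i₀))
  have hfin' : FiniteDimensional
    (IntermediateField.adjoin k (Set.range fun l => s (i₀.succAbove l) / s i₀)) E := hF ▸ hfin
  have : Algebra.IsAlgebraic
      (Algebra.adjoin k (Set.range fun l => s (i₀.succAbove l) / s i₀)) E :=
    IntermediateField.isAlgebraic_adjoin_iff_top.1 inferInstance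
  have e1 : ∀ i, s i₀ / σ ^ r * (s (i₀.succAbove i) / s i₀) = s (i₀.succAbove i) / σ ^ r :=
    fun i => by field_simp
  rw [hF]
  refine low E e C T MM (s i₀ / σ ^ r) _ c (Hyp.fg hT ⟨B, rfl⟩) h4 h5 (ha _) h2
    (fun i => e1 i ▸ hc i) (Algebra.IsAlgebraic.isTranscendenceBasis_of_le_trdeg_of_finite k _
      (by simpa using hind.lift_cardinalMk_le_trdeg)).1 hfin' (by simpa only [e1] using h6)
    N Φ φ₀ R ψ fun φ hφ => ⟨fun i => ?_, hψ φ hφ⟩
  have h7 : ∀ j, φ (s j / s 0) = φ₀ (s j / s 0) := fun j => by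
    induction j using Fin.cases with
    | zero => simp [div_self h0]
    | succ j => exact (hΦ φ hφ).1 _ ⟨j, rfl⟩
  rw [← div_div_div_cancel_right₀ h0, map_div₀, map_div₀ φ₀, h7, h7]

theorem cov_of [IsAlgClosed k] (low : LowH k) (p : ℕ) [ExpChar k p] {C e r : ℕ} (hC : C < p)
    (B : Finset E) (hB : ∀ σ ∈ B, σ ≠ 0) (hne : B.Nonempty) (s : Fin (e + 1) → E) (h0 : s 0 ≠ 0)
    (hs : ∀ j, s j ∈ span k (B : Set E) ^ r)
    (hind : AlgebraicIndependent k fun i : Fin e => s i.succ / s 0)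
    (hfin : FiniteDimensional
      (IntermediateField.adjoin k (Set.range fun i : Fin e => s i.succ / s 0)) E)
    (h : ∀ σ ∈ B, ∀ T, Hyp (span k (B : Set E)) σ T → (1 : E) ∉ nn T →
      Lc C T fun j => s j / σ ^ r) : Cov k E (fun i : Fin e => s i.succ / s 0) C := by
  have key := cong_of low B hB hne s h0 hs hind hfin h
  have h1 := key E ⊤ val_top {AlgHom.id k E} (AlgHom.id k E) (by simp [Un])
  have := expChar_of_injective_algebraMap (algebraMap k
    (IntermediateField.adjoin k (Set.range fun i : Fin e => s i.succ / s 0))).injective p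
  obtain ⟨n, hn⟩ := finInsepDegree_eq_pow
    (IntermediateField.adjoin k (Set.range fun i : Fin e => s i.succ / s 0)) E p
  have hn0 : n = 0 := by
    by_contra h2
    have := Nat.le_self_pow h2 p
    rw [hn, Finset.card_singleton] at h1
    omega
  rw [hn0, pow_zero] at hn
  exact ⟨hind, hfin, (isSeparable_iff_finInsepDegree_eq_one _ _).2 hn,
    fun N _ _ O hO Φ φ₀ hΦ => by simpa [hn] using key N O hO Φ φ₀ hΦ⟩

/-! ### Discrete valuations -/

section dv

variable {w : DV k K} {x y : K} {a b : ℤ}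

theorem mem_fil : x ∈ w.fil a ↔ x = 0 ∨ a ≤ w.ord x := Iff.rfl

theorem fil_anti (h : a ≤ b) : w.fil b ≤ w.fil a := fun _ hx => hx.imp id h.trans

theorem ord_one : w.ord 1 = 0 := by simpa using w.cst 1

theorem ord_inv (hx : x ≠ 0) : w.ord x⁻¹ = -w.ord x := by
  have := w.mul x x⁻¹ hx (inv_ne_zero hx)
  rw [mul_inv_cancel₀ hx, ord_one] at this
  omega

theorem ord_div (hx : x ≠ 0) (hy : y ≠ 0) : w.ord (x / y) = w.ord x - w.ord y := by
  rw [div_eq_mul_inv, w.mul _ _ hx (inv_ne_zero hy), ord_inv hy]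
  rfl

theorem ord_pow (hx : x ≠ 0) (n : ℕ) : w.ord (x ^ n) = n * w.ord x := by
  induction n with
  | zero => simpa using ord_one
  | succ n ih => rw [pow_succ, w.mul _ _ (pow_ne_zero _ hx) hx, ih]; push_cast; ring

theorem inv_mem_fil (hx : x ∉ w.fil 1) : x⁻¹ ∈ w.fil 0 := by
  rw [mem_fil, not_or] at hx
  exact Or.inr (by rw [ord_inv hx.1]; omega)

theorem val_vr (w : DV k K) : Val w.vr := fun x => by
  by_cases h : x ∈ w.fil 1
  · exact Or.inl (fil_anti zero_le_one h)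
  · exact Or.inr (inv_mem_fil h)

theorem mul_fil_one (hx : x ∈ w.fil 0) (hy : y ∈ w.fil 1) : x * y ∈ w.fil 1 := DV.mul_fil hx hy

theorem one_notMem_fil : (1 : K) ∉ w.fil 1 := by simp [mem_fil, ord_one]

theorem fil_prime (hx : x ∉ w.fil 1) (hy : y ∉ w.fil 1) : x * y ∉ w.fil 1 := by
  rw [mem_fil, not_or] at hx hy ⊢
  exact ⟨mul_ne_zero hx.1 hy.1, by rw [w.mul _ _ hx.1 hy.1]; omega⟩

theorem min_of {V : Submodule k K} {σ : K} (hσ : σ ∈ V) (h0 : σ ≠ 0)
    (h : ∀ v ∈ V, v / σ ∈ w.fil 0) : w.Min V σ := by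
  refine ⟨hσ, h0, (IsLeast.csInf_eq (s := w.ord '' {x | x ∈ V ∧ x ≠ 0})
    ⟨⟨σ, ⟨hσ, h0⟩, rfl⟩, ?_⟩).symm⟩
  rintro _ ⟨v, ⟨hv, hv0⟩, rfl⟩
  have := (h v hv).resolve_left (div_ne_zero hv0 h0)
  rw [ord_div hv0 h0] at this
  omega

theorem aeval_mem_fil {ι : Type} {g : ι → K} (hg : ∀ i, g i ∈ w.fil 0) (P : MvPolynomial ι k) :
    MvPolynomial.aeval g P ∈ w.fil 0 :=
  Algebra.adjoin_le (S := w.vr) (Set.range_subset_iff.2 hg)
    ((Algebra.adjoin_range_eq_range_aeval k g).ge (AlgHom.mem_range_self _ P))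

/-- The residue field has smaller transcendence degree. -/
theorem not_ind {ι : Type} [Fintype ι] (hK : Algebra.trdeg k K = (m + 1 : ℕ))
    (hι : Fintype.card ι = m + 1) {g : ι → K} (hg : ∀ i, g i ∈ w.fil 0) : ¬ w.Ind g := by
  intro h
  have hi : AlgebraicIndependent k g :=
    algebraicIndependent_iff.2 fun P hP => h P (by rw [hP]; exact zero_mem _)
  have hb := hi.isTranscendenceBasis_of_trdeg_le_of_finite (by simp [hK, hι])
  obtain ⟨π, h0, h1⟩ := w.unif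
  obtain ⟨Q, h2, h3⟩ := (hb.isAlgebraic.isAlgebraic π).exists_nonzero_coeff_and_aeval_eq_zero
    (mem_nonZeroDivisors_of_ne_zero h0)
  have hA : Algebra.adjoin k (Set.range g) ≤ w.vr := Algebra.adjoin_le (Set.range_subset_iff.2 hg)
  obtain ⟨P, hP⟩ : (Q.coeff 0 : K) ∈ (MvPolynomial.aeval g).range :=
    (Algebra.adjoin_range_eq_range_aeval k g).le (Q.coeff 0).2
  have h4 : Polynomial.aeval π Q.divX ∈ w.fil 0 := by
    rw [Polynomial.aeval_eq_sum_range]
    exact w.vr.sum_mem fun i _ => w.vr.mul_mem (hA (Q.divX.coeff i).2)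
      (w.vr.pow_mem (Or.inr (by omega)) i)
  have h5 : (Q.coeff 0 : K) = -(Polynomial.aeval π Q.divX * π) := by
    rw [← Polynomial.divX_mul_X_add Q, map_add, map_mul, Polynomial.aeval_X,
      Polynomial.aeval_C] at h3
    exact eq_neg_of_add_eq_zero_right h3
  have h6 : P = 0 := h P (by
    rw [show MvPolynomial.aeval g P = _ from hP, h5]
    exact neg_mem (mul_fil_one h4 (Or.inr h1.ge)))
  exact h2 (Subtype.ext (by simpa [h6] using hP.symm))

theorem exists_pow [IsAlgClosed k] (p : ℕ) [Fact p.Prime] [CharP k p] {ι : Type}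
    (P : MvPolynomial ι k) (h : ∀ i, MvPolynomial.pderiv i P = 0) :
    ∃ Q : MvPolynomial ι k, P = Q ^ p := by
  classical
  have hp : ∀ α ∈ P.support, ∀ i, p ∣ α i := fun α hα i => by
    by_cases h0 : α i = 0
    · simp [h0]
    have h1 := MvPolynomial.coeff_pderiv (i := i) P (α - Finsupp.single i 1)
    rw [h i, tsub_add_cancel_of_le (by simp; omega), Finsupp.tsub_apply, Finsupp.single_eq_same,
      MvPolynomial.coeff_zero] at h1
    have h2 := (mul_eq_zero.1 h1.symm).resolve_left (MvPolynomial.mem_support_iff.1 hα)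
    rw [← Nat.cast_succ, CharP.cast_eq_zero_iff k p] at h2
    rwa [Nat.succ_eq_add_one, Nat.sub_add_cancel (by omega)] at h2
  choose! β hβ using hp
  choose c hc using fun a : k => IsAlgClosed.exists_pow_nat_eq a (Fact.out : p.Prime).pos
  refine ⟨∑ α ∈ P.support, MvPolynomial.monomial (α.mapRange (· / p) (by simp))
    (c (P.coeff α)), ?_⟩
  rw [sum_pow_char]
  conv_lhs => rw [P.as_sum]
  refine Finset.sum_congr rfl fun α hα => ?_
  rw [MvPolynomial.monomial_pow, hc]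
  congr 2
  ext i
  simp [hβ α hα i, (Fact.out : p.Prime).pos]

/-- If the dual derivations preserve the valuation ring, it is unramified. -/
theorem exists_unif [IsAlgClosed k] (p : ℕ) [Fact p.Prime] [CharP k p]
    {d : Fin (m + 1) → Derivation k K K} {t g : Fin (m + 1) → K} (hF : Fr t d)
    (hg : ∀ i, g i ∈ w.fil 0) (hD : Dual d w g) :
    ∃ P : MvPolynomial (Fin (m + 1)) k, w.ord (MvPolynomial.aeval g P) = 1 := by
  classical
  have hI := not_ind (w := w) hF.trdeg (Fintype.card_fin _) hg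
  have hex : ∃ n, ∃ P : MvPolynomial (Fin (m + 1)) k, P ≠ 0 ∧ P.totalDegree = n ∧
      MvPolynomial.aeval g P ∈ w.fil 1 := by
    by_contra hc
    exact hI fun P hP => by_contra fun h0 => hc ⟨_, P, h0, rfl, hP⟩
  obtain ⟨P, h0, h1, h2⟩ := Nat.find_spec hex
  have hmin : ∀ Q : MvPolynomial (Fin (m + 1)) k, Q.totalDegree < P.totalDegree →
      MvPolynomial.aeval g Q ∈ w.fil 1 → Q = 0 := fun Q a b =>
    by_contra fun c => Nat.find_min hex (h1 ▸ a) ⟨Q, c, rfl, b⟩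
  obtain ⟨hJ, hP⟩ := dual_iff.1 hD
  have h3 : MvPolynomial.aeval g P ≠ 0 := fun e =>
    h0 (algebraicIndependent_iff.1 (hF.of_jac hJ).ind P e)
  have hdeg : 0 < P.totalDegree := Nat.pos_of_ne_zero fun e => by
    rw [MvPolynomial.totalDegree_eq_zero_iff_eq_C] at e
    rw [e, MvPolynomial.aeval_C] at h2 h3
    have := h2.resolve_left h3
    rw [w.cst] at this
    omega
  refine ⟨P, by_contra fun hc => ?_⟩
  have h4 := h2.resolve_left h3
  obtain ⟨π, h5, h6⟩ := w.unif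
  have hπ : π ∈ w.fil 1 := Or.inr h6.ge
  have h7 : MvPolynomial.aeval g P / π ∈ w.fil 1 := Or.inr (by rw [ord_div h3 h5]; omega)
  have h8 : ∀ i, MvPolynomial.pderiv i P = 0 := fun i => by
    have e : ∀ Q : MvPolynomial (Fin (m + 1)) k, MvPolynomial.aeval g (MvPolynomial.pderiv i Q) =
        dual d g i (MvPolynomial.aeval g Q) := fun Q => by
      induction Q using MvPolynomial.induction_on with
      | C a => simp
      | add a b ha hb => simp [ha, hb]
      | mul_X a j ha =>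
        by_cases c : j = i
        · simp [ha, c, dual_apply hJ]
        · simp [ha, c, dual_apply hJ]
    refine hmin _ ((Finset.sup_lt_iff hdeg).2 fun α hα => ?_) ?_
    · rw [MvPolynomial.mem_support_iff, MvPolynomial.coeff_pderiv] at hα
      have := MvPolynomial.le_totalDegree
        (MvPolynomial.mem_support_iff.2 (left_ne_zero_of_mul hα))
      rw [Finsupp.sum_add_index' (fun _ => rfl) (fun _ _ _ => rfl),
        Finsupp.sum_single_index rfl] at this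
      exact this
    · rw [e, ← mul_div_cancel₀ (MvPolynomial.aeval g P) h5, Derivation.leibniz, smul_eq_mul,
        smul_eq_mul, mul_comm π, mul_comm (_ / π)]
      exact add_mem (mul_fil_one (hP i _ (fil_anti zero_le_one h7)) hπ)
        (mul_fil_one (hP i _ (fil_anti zero_le_one hπ)) h7)
  obtain ⟨Q, rfl⟩ := exists_pow p P h8
  have hQ : Q ≠ 0 := fun e => h0 (by rw [e, zero_pow (Fact.out : p.Prime).ne_zero])
  have h9 : ∀ n, (Q ^ n).totalDegree = n * Q.totalDegree := fun n => by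
    induction n with
    | zero => simp
    | succ n ih => rw [pow_succ, MvPolynomial.totalDegree_mul_of_isDomain (pow_ne_zero _ hQ) hQ, ih,
        Nat.succ_mul]
  refine hQ (hmin Q ?_ (by_contra fun c => ?_))
  · rw [h9] at hdeg ⊢
    exact lt_mul_of_one_lt_left (Nat.pos_of_mul_pos_left hdeg) (Fact.out : p.Prime).one_lt
  · have : ∀ n, MvPolynomial.aeval g Q ^ n ∉ w.fil 1 := fun n => by
      induction n with
      | zero => simpa using one_notMem_fil
      | succ n ih => exact pow_succ (MvPolynomial.aeval g Q) n ▸ fil_prime ih c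
    exact this p (by rwa [map_pow] at h2)

end dv

/-! ### Residue maps -/

/-- `r` is the residue map on `A`, and it is `A`-linear on the valuation ring. -/
structure Rs (w : DV k K) (U : Submodule k K) (r : K →ₗ[k] E) (A : Subalgebra k K) : Prop where
  le : ∀ x ∈ U, x ∈ A
  vr : ∀ x ∈ A, x ∈ w.fil 0
  one : r 1 = 1
  mul : ∀ a ∈ A, ∀ x ∈ w.fil 0, r (a * x) = r a * r x
  zero : ∀ x ∈ w.fil 1, r x = 0
  ker : ∀ a ∈ A, r a = 0 → a ∈ w.fil 1
  inv : ∀ a ∈ A, a ∉ w.fil 1 → a⁻¹ ∈ A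
  top : IntermediateField.adjoin k (U.map r : Set E) = ⊤

theorem exists_rs (w : DV k K) {U : Submodule k K} (hU : U ≤ w.fil 0) :
    ∃ (E : Type) (_ : Field E) (_ : Algebra k E) (r : K →ₗ[k] E) (A : Subalgebra k K),
      Rs w U r A := by
  let I : Ideal w.vr :=
    { carrier := {x | x.1 ∈ w.fil 1}
      add_mem' := fun a b => (w.fil 1).add_mem a b
      zero_mem' := zero_mem (w.fil 1)
      smul_mem' := fun c x hx => mul_fil_one c.2 hx }
  have : I.IsPrime := ⟨fun e => one_notMem_fil (w := w) (show (1 : w.vr) ∈ I from e ▸ trivial),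
    fun {x y} h => by_contra fun c => fil_prime (not_or.1 c).1 (not_or.1 c).2 h⟩
  let ρ : w.vr →ₐ[k] I.ResidueField := IsScalarTower.toAlgHom k _ _
  have hρ : ∀ x, ρ x = 0 ↔ x.1 ∈ w.fil 1 := fun x => Ideal.algebraMap_residueField_eq_zero
  let F := IntermediateField.adjoin k (ρ '' {x | x.1 ∈ U})
  obtain ⟨π, hπ⟩ := (Algebra.linearMap F I.ResidueField).exists_leftInverse_of_injective
    (LinearMap.ker_eq_bot.2 (algebraMap F I.ResidueField).injective)
  have hπ' : ∀ e : F, π e = e := fun e => LinearMap.congr_fun hπ e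
  obtain ⟨r, hr⟩ := LinearMap.exists_extend (p := w.vr.toSubmodule)
    (π.restrictScalars k ∘ₗ ρ.toLinearMap ∘ₗ w.vr.toSubmoduleEquiv.toLinearMap)
  have hr' : ∀ x : w.vr, r x = π (ρ x) := fun x => LinearMap.congr_fun hr ⟨x.1, x.2⟩
  have h1 : ∀ x : w.vr, ρ x ∈ F → (r x : I.ResidueField) = ρ x := fun x hx => by
    rw [hr', show π (ρ x) = ⟨ρ x, hx⟩ from hπ' ⟨ρ x, hx⟩]
  refine ⟨F, inferInstance, inferInstance, r, (F.toSubalgebra.comap ρ).map w.vr.val,
    fun x hx => ⟨⟨x, hU hx⟩, IntermediateField.subset_adjoin _ _ ⟨_, hx, rfl⟩, rfl⟩,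
    ?_, Subtype.ext ((h1 1 (by simp)).trans (map_one ρ)), ?_, fun x hx => ?_, ?_, ?_, ?_⟩
  · rintro _ ⟨x, -, rfl⟩
    exact x.2
  · rintro _ ⟨a, ha, rfl⟩ x hx
    have e := hr' (a * ⟨x, hx⟩)
    rw [map_mul, ← h1 a ha] at e
    exact e.trans ((π.map_smul (r a) _).trans (congrArg _ (hr' ⟨x, hx⟩).symm))
  · rw [show r x = _ from hr' ⟨x, fil_anti zero_le_one hx⟩, (hρ _).2 hx, map_zero]
  · rintro _ ⟨a, ha, rfl⟩ h
    exact (hρ a).1 ((h1 a ha).symm.trans (congrArg _ h))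
  · rintro _ ⟨a, ha, rfl⟩ h
    refine ⟨⟨a.1⁻¹, inv_mem_fil h⟩, ?_, rfl⟩
    have h0 : a.1 ≠ 0 := fun e => h (Or.inl e)
    have : ρ ⟨a.1⁻¹, inv_mem_fil h⟩ = (ρ a)⁻¹ := eq_inv_of_mul_eq_one_left (by
      rw [← map_mul, ← map_one ρ]
      exact congrArg _ (Subtype.ext (inv_mul_cancel₀ h0)))
    change ρ _ ∈ F
    rw [this]
    exact inv_mem ha
  · apply IntermediateField.lift_injective
    rw [IntermediateField.lift_adjoin, IntermediateField.lift_top]
    congr 1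
    ext z
    constructor
    · rintro ⟨_, ⟨x, hx, rfl⟩, rfl⟩
      exact ⟨⟨x, hU hx⟩, hx, (h1 ⟨x, hU hx⟩
        (IntermediateField.subset_adjoin _ _ ⟨_, hx, rfl⟩)).symm⟩
    · rintro ⟨x, hx, rfl⟩
      exact ⟨r x, ⟨x, hx, rfl⟩, h1 x (IntermediateField.subset_adjoin _ _ ⟨_, hx, rfl⟩)⟩

namespace Rs

variable {w : DV k K} {U T P : Submodule k K} {r l : K →ₗ[k] E} {A : Subalgebra k K}
  (h : Rs w U r A)
include h

/-- The residue map as a homomorphism. -/
def hom : A →ₐ[k] E := AlgHom.ofLinearMap (r ∘ₗ A.val.toLinearMap) h.one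
  fun a b => h.mul a a.2 b (h.vr b b.2)

theorem div {a b : K} (ha : a ∈ A) (hb : b ∈ A) (h0 : r b ≠ 0) :
    a / b ∈ A ∧ r (a / b) = r a / r b := by
  have h1 : b ∉ w.fil 1 := fun e => h0 (h.zero b e)
  have h2 : a / b ∈ A := by rw [div_eq_mul_inv]; exact A.mul_mem ha (h.inv b hb h1)
  refine ⟨h2, eq_div_of_mul_eq h0 ?_⟩
  rw [← h.mul _ h2 _ (h.vr b hb), div_mul_cancel₀ _ fun e => h1 (Or.inl e)]

theorem pow {a : K} (ha : a ∈ A) (n : ℕ) : r (a ^ n) = r a ^ n := map_pow h.hom ⟨a, ha⟩ n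

theorem cst (c : k) : r (algebraMap k K c) = algebraMap k E c := h.hom.commutes c

theorem aeval {ι : Type} {g : ι → K} (hg : ∀ i, g i ∈ A) (Q : MvPolynomial ι k) :
    MvPolynomial.aeval g Q ∈ A ∧
      r (MvPolynomial.aeval g Q) = MvPolynomial.aeval (fun i => r (g i)) Q := by
  have e := MvPolynomial.comp_aeval_apply (fun i => (⟨g i, hg i⟩ : A)) A.val Q
  have e' := MvPolynomial.comp_aeval_apply (fun i => (⟨g i, hg i⟩ : A)) h.hom Q
  exact ⟨(show _ = MvPolynomial.aeval g Q from e) ▸ Subtype.prop _,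
    (congrArg r e.symm).trans e'⟩

theorem ind_iff {ι : Type} {g : ι → K} (hg : ∀ i, g i ∈ A) :
    AlgebraicIndependent k (fun i => r (g i)) ↔ w.Ind g := by
  rw [algebraicIndependent_iff]
  refine forall_congr' fun Q => imp_congr_left ?_
  rw [← (h.aeval hg Q).2]
  exact ⟨h.ker _ (h.aeval hg Q).1, h.zero _⟩

omit h in
theorem alg_le (hT : ∀ x ∈ T, x ∈ A) {x : K} (hx : x ∈ alg T) : x ∈ A :=
  Algebra.adjoin_le (S := A) hT hx

omit h in
theorem map_mul {X : Submodule k K} (hl : ∀ a ∈ X, ∀ x ∈ P, l (a * x) = r a * l x) :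
    (X * P).map l = X.map r * P.map l := by
  refine le_antisymm (map_le_iff_le_comap.2 (mul_le.2 fun a ha x hx => ?_)) (mul_le.2 ?_)
  · rw [mem_comap, hl a ha x hx]
    exact mul_mem_mul (mem_map_of_mem ha) (mem_map_of_mem hx)
  · rintro _ ⟨a, ha, rfl⟩ _ ⟨x, hx, rfl⟩
    exact ⟨_, mul_mem_mul ha hx, hl a ha x hx⟩

theorem map_pow (hT : ∀ x ∈ T, x ∈ A) (L : ℕ) :
    (∀ x ∈ T ^ L, x ∈ A) ∧ (T ^ L).map r = T.map r ^ L := by
  induction L with
  | zero =>
    refine ⟨fun x hx => ?_, ?_⟩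
    · obtain ⟨c, rfl⟩ := mem_one.1 (pow_zero T ▸ hx)
      exact A.algebraMap_mem c
    · rw [pow_zero, pow_zero, one_eq_span, map_span, Set.image_singleton, h.one, one_eq_span]
  | succ L ih =>
    rw [pow_succ, pow_succ, map_mul fun a ha x hx => h.mul a (ih.1 a ha) x (h.vr x (hT x hx)), ih.2]
    exact ⟨(mul_le (P := A.toSubmodule)).2 fun a ha x hx => A.mul_mem (ih.1 a ha) (hT x hx), rfl⟩

theorem map_alg (hT : ∀ x ∈ T, x ∈ A) : (alg T).map r = alg (T.map r) := by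
  refine le_antisymm (map_le_iff_le_comap.2 fun x hx => ?_) fun x hx => ?_
  · change r x ∈ Algebra.adjoin k _
    induction hx using Algebra.adjoin_induction with
    | mem x hx => exact Algebra.subset_adjoin (mem_map_of_mem hx)
    | algebraMap c => rw [h.cst]; exact Subalgebra.algebraMap_mem _ c
    | add a b _ _ ha hb => rw [map_add]; exact add_mem ha hb
    | mul a b h1 h2 ha hb =>
      rw [h.mul a (alg_le hT h1) b (h.vr b (alg_le hT h2))]
      exact mul_mem ha hb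
  · induction hx using Algebra.adjoin_induction with
    | mem x hx => exact map_mono (le_alg T) hx
    | algebraMap c => exact ⟨_, Subalgebra.algebraMap_mem _ c, h.cst c⟩
    | add a b _ _ ha hb => exact add_mem ha hb
    | mul a b _ _ ha hb =>
      obtain ⟨a, ha, rfl⟩ := ha
      obtain ⟨b, hb, rfl⟩ := hb
      exact ⟨_, alg_mul ha hb, h.mul a (alg_le hT ha) b (h.vr b (alg_le hT hb))⟩

theorem map_nn (hT : ∀ x ∈ T, x ∈ A) : (nn T).map r = nn (T.map r) := by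
  rw [nn, map_mul fun a ha x hx => h.mul a (hT a ha) x (h.vr x (alg_le hT hx)), h.map_alg hT, nn]

theorem mem_nn (hT : ∀ x ∈ T, x ∈ A) (h1 : (1 : E) ∉ nn (T.map r)) {x : K} (hx : x ∈ alg T) :
    x ∈ nn T ↔ r x ∈ nn (T.map r) := by
  refine ⟨fun a => h.map_nn hT ▸ mem_map_of_mem a, fun a => ?_⟩
  obtain ⟨c, hc⟩ := exists_val hx
  have h2 : r (x - algebraMap k K c) ∈ nn (T.map r) := h.map_nn hT ▸ mem_map_of_mem hc
  by_cases h0 : c = 0
  · simpa [h0] using hc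
  refine absurd ?_ h1
  have := smul_mem _ c⁻¹ (sub_mem a h2)
  rwa [map_sub, h.cst, sub_sub_cancel, Algebra.smul_def, ← _root_.map_mul, inv_mul_cancel₀ h0,
    map_one] at this

theorem ld (hT : ∀ x ∈ T, x ∈ A) {Q : Submodule k K} {C e : ℕ} {g : Fin e → K}
    (hg : ∀ i, g i ∈ A) (hl : ∀ a ∈ A, ∀ x ∈ P, l (a * x) = r a * l x) (hQ : ∀ x ∈ Q, l x = 0)
    (H : Ld C T g P Q) : Ld C (T.map r) (fun i => r (g i)) (P.map l) ⊥ := by
  obtain ⟨a, ha, H⟩ := H
  refine ⟨a, ha, fun L => ?_⟩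
  obtain ⟨u, h1, h2⟩ := H L
  refine ⟨fun i => l (u i), fun i => mem_map_of_mem (h1 i), (map_mono h2).trans ?_⟩
  have h3 : qq k g a ≤ A.toSubmodule := span_le.2 (by rintro _ ⟨i, rfl⟩; exact A.pow_mem (hg i) a)
  rw [Submodule.map_sup, Submodule.map_sup, Submodule.map_sup, map_span, ← Set.range_comp, map_mul fun a ha => hl a (h3 ha),
    map_mul fun a ha => hl a ((h.map_pow hT L).1 a ha), (h.map_pow hT L).2, qq, map_span,
    ← Set.range_comp]
  refine sup_le_sup le_rfl (sup_le_sup (le_of_eq ?_) (map_le_iff_le_comap.2 hQ))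
  simp only [qq, Function.comp_def, h.pow (hg _)]

/-- A point of the divisor is a point of the variety. -/
theorem pull {V : Submodule k K} {σ₀ σ : K} (h0 : σ₀ ≠ 0) (hU : ∀ x, x ∈ U ↔ σ₀ * x ∈ V)
    (hσ : σ ∈ V) {T' : Submodule k E} (hT : Hyp (U.map r) (r (σ / σ₀)) T') :
    ∃ T, Hyp V σ T ∧ T.map r = T' ∧ (∀ x ∈ T, x ∈ A) ∧ w.Min V σ := by
  have h1 : ∀ v ∈ V, v / σ₀ ∈ U := fun v hv => (hU _).2 (by rwa [mul_div_cancel₀ _ h0])
  have hσ0 : σ ≠ 0 := fun e => hT.ne (by simp [e])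
  have h2 : ∀ v ∈ V, v / σ ∈ A ∧ r (v / σ) = r (v / σ₀) / r (σ / σ₀) := fun v hv => by
    simpa only [div_div_div_cancel_right₀ h0] using h.div (h.le _ (h1 v hv)) (h.le _ (h1 σ hσ)) hT.ne
  have h3 : ∀ x, σ * x ∈ V → x ∈ A ∧ r x ∈ 1 ⊔ T' := fun x hx => by
    have := h2 _ hx
    rw [mul_div_cancel_left₀ _ hσ0] at this
    exact ⟨this.1, this.2 ▸ Hyp.div_mem hT (mem_map_of_mem (h1 _ hx))⟩
  refine ⟨_, hyp_of (H := T'.comap r) hσ0 hσ (fun e => hT.one (h.one ▸ e)) fun x hx => ?_,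
    le_antisymm (map_le_iff_le_comap.2 inf_le_right) fun y hy => ?_, fun x hx => (h3 x hx.1).1,
    min_of hσ hσ0 fun v hv => h.vr _ (h2 v hv).1⟩
  · obtain ⟨_, hc, y, hy, e⟩ := mem_sup.1 (h3 x hx).2
    obtain ⟨c, rfl⟩ := mem_one.1 hc
    exact ⟨c, by rwa [mem_comap, map_sub, h.cst, ← e, add_sub_cancel_left]⟩
  · obtain ⟨x, hx, e⟩ := (Hyp.mem hT).2 (mem_sup_right hy)
    have e' : r (σ₀ * x / σ) = y := by
      rw [(h2 _ ((hU x).1 hx)).2, mul_div_cancel_left₀ _ h0, e, mul_div_cancel_left₀ _ hT.ne]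
    refine ⟨σ₀ * x / σ, ⟨?_, mem_comap.2 (e'.symm ▸ hy)⟩, e'⟩
    change σ * _ ∈ V
    rw [mul_div_cancel₀ _ hσ0]
    exact (hU x).1 hx

end Rs

end Pool.Agent.MP_19ffc6_ag.Res.PA.Fl
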