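import Mathlib
import Pool.Agent.MP_19ffc6_ag.Res.Norm

-- ======== part 0: formerly Pool.Agent.MP_19ffc6_ag.Res.TorS
section MrgPart0

/-! The calculus of global modules and the star subdivision of a toroidal system. -/

namespace Pool.Agent.MP_19ffc6_ag.Res.Tor

open Pool.Agent.MP_19ffc6_ag.Wild Pool.Agent.MP_19ffc6_ag.Lci Submodule Filter

variable {k L : Type} [Field k] [Field L] [Algebra k L]

section Glob

variable {O O' : Subalgebra k L} {M X X' Y Y' : Submodule k L} {g x : L}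
  {J J' : Subalgebra k L → Submodule k L}

lemma mem_pr (g : L) : g ∈ pr k g := mem_span_singleton_self g

lemma pr_le (h : g ∈ X) : pr k g ≤ X := (span_singleton_le_iff_mem _ _).2 h

lemma pr_mul (g h : L) : pr k g * pr k h = pr k (g * h) := by
  rw [pr, pr, span_mul_span, Set.singleton_mul_singleton, pr]

lemma pr_one : pr k (1 : L) = 1 := one_eq_span.symm

lemma pr_fg (g : L) : (pr k g).FG := fg_span_singleton g

lemma pr_pow (g : L) (n : ℕ) : pr k g ^ n = pr k (g ^ n) := by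
  induction n with
  | zero => rw [pow_zero, pow_zero, pr_one]
  | succ n ih => rw [pow_succ, pow_succ, ih, pr_mul]

lemma mem_sp_pr : x ∈ sp O (pr k g) ↔ ∃ o ∈ O, x = o * g := by
  constructor
  · intro h
    refine Submodule.mul_induction_on h (fun o ho y hy => ?_) ?_
    · obtain ⟨c, rfl⟩ := mem_span_singleton.1 hy
      exact ⟨c • o, O.smul_mem ho c, by simp⟩
    · rintro _ _ ⟨o, ho, rfl⟩ ⟨o', ho', rfl⟩
      exact ⟨o + o', add_mem ho ho', by ring⟩
  · rintro ⟨o, ho, rfl⟩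
    exact mul_mem_mul ho (mem_pr g)

lemma mem_sp_pr_iff (hg : g ≠ 0) : x ∈ sp O (pr k g) ↔ x / g ∈ O := by
  rw [mem_sp_pr]
  exact ⟨by rintro ⟨o, ho, rfl⟩; rwa [mul_div_cancel_right₀ _ hg],
    fun h => ⟨_, h, (div_mul_cancel₀ _ hg).symm⟩⟩

lemma sp_sup (O : Subalgebra k L) (X Y : Submodule k L) : sp O (X ⊔ Y) = sp O X ⊔ sp O Y :=
  Submodule.mul_sup _ _ _

lemma sp_mul_congr (h : sp O X = sp O X') (h' : sp O Y = sp O Y') :
    sp O (X * Y) = sp O (X' * Y') := by rw [sp_mul, sp_mul, h, h']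

lemma sp_eq_of_le (h : X ≤ sp O Y) (h' : Y ≤ sp O X) : sp O X = sp O Y :=
  le_antisymm (sp_le_sp le_rfl h) (sp_le_sp le_rfl h')

lemma Glob.congr (h : Glob M J) (e : ∀ O, Pt ⊥ M O → sp O (J O) = sp O (J' O)) : Glob M J' := by
  obtain ⟨A, B, hA, hB, h⟩ := h
  refine ⟨A, B, hA, hB, fun O hO => ?_⟩
  obtain ⟨g, h0, h1, h2⟩ := h O hO
  exact ⟨g, h0, h1, h2.trans (sp_mul_congr rfl (e O hO))⟩

lemma Glob.const (M : Submodule k L) (h : X.FG) : Glob M fun _ => X :=
  ⟨X, pr k 1, h, pr_fg _, fun _ _ => ⟨1, one_ne_zero, rfl, by rw [pr_one, one_mul]⟩⟩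

lemma Glob.mul (h : Glob M J) (h' : Glob M J') : Glob M fun O => J O * J' O := by
  obtain ⟨A, B, hA, hB, h⟩ := h
  obtain ⟨A', B', hA', hB', h'⟩ := h'
  refine ⟨A * A', B * B', hA.mul hA', hB.mul hB', fun O hO => ?_⟩
  obtain ⟨g, h0, h1, h2⟩ := h O hO
  obtain ⟨g', h0', h1', h2'⟩ := h' O hO
  refine ⟨g * g', mul_ne_zero h0 h0', by rw [sp_mul_congr h1 h1', pr_mul], ?_⟩
  rw [sp_mul_congr h2 h2', ← pr_mul]
  congr 1; ring

lemma Glob.sup (h : Glob M J) (h' : Glob M J') : Glob M fun O => J O ⊔ J' O := by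
  obtain ⟨A, B, hA, hB, h⟩ := h
  obtain ⟨A', B', hA', hB', h'⟩ := h'
  refine ⟨A * B' ⊔ B * A', B * B', (hA.mul hB').sup (hB.mul hA'), hB.mul hB', fun O hO => ?_⟩
  obtain ⟨g, h0, h1, h2⟩ := h O hO
  obtain ⟨g', h0', h1', h2'⟩ := h' O hO
  refine ⟨g * g', mul_ne_zero h0 h0', by rw [sp_mul_congr h1 h1', pr_mul], ?_⟩
  rw [sp_sup, sp_mul_congr h2 h1', sp_mul_congr h1 h2', ← sp_sup, ← pr_mul, Submodule.mul_sup]
  congr 2 <;> ring

lemma Glob.pow (h : Glob M J) (n : ℕ) : Glob M fun O => J O ^ n := by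
  induction n with
  | zero => simpa [pr_one] using Glob.const M (pr_fg (k := k) (1 : L))
  | succ n ih => simpa [pow_succ] using ih.mul h

lemma Glob.biSup {κ : Type} {S : Set κ} (hS : S.Finite) {F : κ → Subalgebra k L → Submodule k L}
    (h : ∀ i ∈ S, Glob M (F i)) : Glob M fun O => ⨆ i ∈ S, F i O := by
  induction S, hS using Set.Finite.induction_on with
  | empty => simpa using Glob.const M fg_bot
  | @insert i S _ _ ih =>
    simpa only [iSup_insert] using (h i (Set.mem_insert _ _)).sup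
      (ih fun j hj => h j (Set.mem_insert_of_mem _ hj))

lemma Glob.pull (h : Glob M J) {M' : Submodule k L} (c : Subalgebra k L → Subalgebra k L)
    (hc : ∀ O', Pt ⊥ M' O' → Pt ⊥ M (c O') ∧ c O' ≤ O') : Glob M' fun O' => J (c O') := by
  obtain ⟨A, B, hA, hB, h⟩ := h
  refine ⟨A, B, hA, hB, fun O' hO' => ?_⟩
  obtain ⟨g, h0, h1, h2⟩ := h _ (hc O' hO').1
  exact ⟨g, h0, sp_congr (hc O' hO').2 h1, sp_congr (hc O' hO').2 h2⟩

lemma Glob.inv {u : Subalgebra k L → L} (h : Glob M fun O => pr k (u O))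
    (hu : ∀ O, Pt ⊥ M O → u O ≠ 0) : Glob M fun O => pr k (u O)⁻¹ := by
  obtain ⟨A, B, hA, hB, h⟩ := h
  refine ⟨B, A, hB, hA, fun O hO => ?_⟩
  obtain ⟨g, h0, h1, h2⟩ := h O hO
  refine ⟨g * u O, mul_ne_zero h0 (hu O hO), by rw [h2, pr_mul], ?_⟩
  rw [h1, pr_mul, mul_inv_cancel_right₀ (hu O hO)]

lemma exists_pt (h : M ≠ ⊥) : ∃ O, Pt ⊥ M O := by
  obtain ⟨g, hg, h0⟩ := exists_mem_ne_zero_of_ne_bot h
  refine ⟨_, g, hg, h0, isPoint_loc (O := ⊤) le_top fun x _ y _ hxy => ?_⟩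
  by_cases hx : x = 0
  · exact Or.inr (by simpa [hx] using hxy)
  · exact Or.inl ⟨trivial, hx, trivial⟩

end Glob

section Ms

variable {ι : Type} {r : ℕ} {z : Fin r → L} {S T U : Set (Fin r → ℤ)} {c : Fin r → ℤ}
  {τ : Typ ι r} {O : Subalgebra k L}

lemma mn_mem_ms (h : c ∈ S) : mn z c ∈ ms k z S := subset_span ⟨c, h, rfl⟩

lemma ms_le {Z : Submodule k L} (h : ∀ c ∈ S, mn z c ∈ Z) : ms k z S ≤ Z :=
  span_le.2 (by rintro _ ⟨c, hc, rfl⟩; exact h c hc)

lemma ms_mono (h : S ⊆ T) : ms k z S ≤ ms k z T := span_mono (Set.image_mono h)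

lemma ms_mul_le (hz : ∀ j, z j ≠ 0) (h : ∀ c ∈ S, ∀ c' ∈ T, c + c' ∈ U) :
    ms k z S * ms k z T ≤ ms k z U := by
  rw [ms, ms, span_mul_span, span_le]
  rintro _ ⟨_, ⟨c, hc, rfl⟩, _, ⟨c', hc', rfl⟩, rfl⟩
  simp only [← mn_add hz]
  exact mn_mem_ms (h c hc c' hc')

lemma pr_mul_ms_le {x : L} {Z : Submodule k L} (h : ∀ c ∈ S, x * mn z c ∈ Z) :
    pr k x * ms k z S ≤ Z := by
  rw [ms, pr, span_mul_span, span_le]
  rintro _ ⟨_, rfl, _, ⟨c', hc', rfl⟩, rfl⟩
  exact h c' hc'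

lemma mn_nsmul (z : Fin r → L) (n : ℕ) (c : Fin r → ℤ) : mn z (n • c) = mn z c ^ n := by
  rw [← natCast_zsmul, mn_smul, zpow_natCast]

lemma mn_mem_TA (h : c ∈ τ.Reg 0) : mn z c ∈ TA k z τ := Algebra.subset_adjoin ⟨c, h, rfl⟩

lemma TA_le (h : ∀ c ∈ τ.Reg 0, mn z c ∈ O) : TA k z τ ≤ O :=
  Algebra.adjoin_le (by rintro _ ⟨c, hc, rfl⟩; exact h c hc)

lemma mn_mem_of_closure (hz : ∀ j, z j ≠ 0) (h : ∀ c ∈ S, mn z c ∈ O)
    (hc : c ∈ AddSubmonoid.closure S) : mn z c ∈ O := by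
  induction hc using AddSubmonoid.closure_induction with
  | mem x hx => exact h x hx
  | zero => rw [mn_zero]; exact one_mem _
  | add x y _ _ hx hy => rw [mn_add hz]; exact mul_mem hx hy

lemma Ch.At.ne {c : Ch L ι} (h : c.At O) (j : Fin c.r) : c.z j ≠ 0 := h.ind.ne_zero j

lemma Ch.At.mem {c : Ch L ι} (h : c.At O) {e : Fin c.r → ℤ} (he : e ∈ c.τ.Reg 0) :
    mn c.z e ∈ O := h.sf.le (mn_mem_TA he)

lemma Ch.At.sp_zero {c : Ch L ι} (h : c.At O) :
    sp O (ms k c.z (c.τ.Reg 0)) = sp O (pr k 1) :=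
  sp_eq_of_le (ms_le fun _ he => mem_sp_pr.2 ⟨_, h.mem he, (mul_one _).symm⟩)
    ((pr_le (by simpa [mn_zero] using mn_mem_ms (z := c.z) Typ.zero_mem_reg)).trans (le_sp _ _))

/-- Enlarging the monoid of a chart. -/
lemma sf_of_isPoint [Finite ι] {ι' : Type} {τ' : Typ ι' r} {O' : Subalgebra k L}
    (hz : ∀ j, z j ≠ 0) (hs : τ.Strict) (h : SF (TA k z τ) O) (hle : τ.Reg 0 ⊆ τ'.Reg 0)
    (hP : IsPoint (O ⊔ TA k z τ') O') : SF (TA k z τ') O' := by
  refine (h.baseChange (TA_le fun c hc => mn_mem_TA (hle hc)) fun x hx => ?_).trans hP.sf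
  obtain ⟨g, hg⟩ := hs
  have hg0 : g ∈ τ.Reg 0 := fun ρ hρ => (hg ρ hρ).le
  induction hx using Algebra.adjoin_induction with
  | mem x hx =>
    obtain ⟨c, -, rfl⟩ := hx
    obtain ⟨t, ht⟩ := (Typ.ev_add_reg (a := 0) (f := c) hg0
      fun ρ hρ e => absurd e (hg ρ hρ).ne').exists
    exact ⟨_, mn_mem_TA (Typ.nsmul_mem_reg hg0 t), mn_ne_zero hz _, by
      rw [← mn_add hz, add_comm]; exact mn_mem_TA ht⟩
  | algebraMap a => exact ⟨1, one_mem _, one_ne_zero, by simp⟩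
  | add x y _ _ hx hy =>
    obtain ⟨d, hd, h0, hx⟩ := hx
    obtain ⟨d', hd', h0', hy⟩ := hy
    refine ⟨d * d', mul_mem hd hd', mul_ne_zero h0 h0', ?_⟩
    have : d * d' * (x + y) = d' * (d * x) + d * (d' * y) := by ring
    rw [this]; exact add_mem (mul_mem hd' hx) (mul_mem hd hy)
  | mul x y _ _ hx hy =>
    obtain ⟨d, hd, h0, hx⟩ := hx
    obtain ⟨d', hd', h0', hy⟩ := hy
    refine ⟨d * d', mul_mem hd hd', mul_ne_zero h0 h0', ?_⟩
    have : d * d' * (x * y) = (d * x) * (d' * y) := by ring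
    rw [this]; exact mul_mem hx hy

end Ms

section Star

variable {ι : Type} [Fintype ι] {r : ℕ} {z : Fin r → L} {τ : Typ ι r} {v : ι → ℚ}
  {O O' : Subalgebra k L}

/-- The exponents of order at least `a` and of weight at least `n`. -/
def Typ.Ex (τ : Typ ι r) (v : ι → ℚ) (a : ι → ℤ) (n : ℚ) : Set (Fin r → ℤ) :=
  {c | c ∈ τ.Reg a ∧ n ≤ vp v (τ.ev c)}

/-- The vertex `q • g` generates the monoid of its cone in the star subdivision. -/
def Typ.Vert (τ : Typ ι r) (v : ι → ℚ) (g : Fin r → ℤ) (N : ℕ) : Prop :=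
  ∃ q : ℕ, q * vp v (τ.ev g) = N ∧ ∀ c ∈ (τ.star v g).Reg 0,
    c ∈ AddSubmonoid.closure {f | f ∈ (τ.star v g).Reg 0 ∧ f + q • g ∈ τ.Reg 0}

lemma Typ.Extreme.vert {g : Fin r → ℤ} (hg : τ.Extreme g) (h : τ.App v)
    (h0 : 0 < vp v (τ.ev g)) : ∀ᶠ n : ℕ in atTop, τ.Vert v g n.factorial := by
  obtain ⟨F, h1, h2, h3⟩ := Typ.gordan (hg.pointed_star h h0)
  have h4 : ∀ᶠ q : ℕ in atTop, ∀ f ∈ F, f + q • g ∈ τ.Reg 0 :=
    (eventually_all_finite h1).2 fun f hf => Typ.ev_add_reg hg.1 fun ρ hρ e =>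
      ((Typ.mem_reg_star h).1 (h2 hf)).1 ρ hρ e
  obtain ⟨Q, hQ⟩ := eventually_atTop.1 h4
  obtain ⟨m, hm⟩ := h.2 g
  have hm0 : 0 < m := by rw [hm] at h0; exact_mod_cast h0
  obtain ⟨m, rfl⟩ := Int.eq_ofNat_of_zero_le hm0.le
  have hm1 : 0 < m := by exact_mod_cast hm0
  filter_upwards [eventually_ge_atTop (m * (Q + 1))] with n hn
  obtain ⟨q, hq⟩ := Nat.dvd_factorial hm1 (show m ≤ n by nlinarith)
  have hQq : Q ≤ q := by
    have := Nat.self_le_factorial n
    by_contra H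
    nlinarith
  refine ⟨q, by rw [hm, hq]; push_cast; ring, fun c hc => ?_⟩
  refine AddSubmonoid.closure_mono (fun f hf => ?_) (h3 c hc)
  exact ⟨h2 hf, hQ q hQq f hf⟩

lemma exists_vertex (hz : ∀ j, z j ≠ 0) (h : τ.App v) (hv : 0 ≤ v) {G : Set (Fin r → ℤ)}
    (hG : G ⊆ τ.Reg 0) {N : ℕ} (hN : 0 < N) (q : (Fin r → ℤ) → ℕ)
    (hq : ∀ g ∈ G, 0 < vp v (τ.ev g) → q g * vp v (τ.ev g) = N) {c : Fin r → ℤ}
    (hc : c ∈ τ.Ex v 0 N) {d : ℕ} (hd : 0 < d) (hdc : d • c ∈ AddSubmonoid.closure G)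
    (h1 : ∀ e ∈ τ.Reg 0, mn z e ∈ O) (h2 : ∀ e ∈ τ.Ex v 0 N, mn z (e - c) ∈ O) :
    ∃ g ∈ G, 0 < vp v (τ.ev g) ∧ Un O (mn z (q g • g - c)) := by
  by_contra H
  push Not at H
  have key : ∀ x ∈ AddSubmonoid.closure G, ∃ n : ℕ, (n : ℚ) = vp v (τ.ev x) ∧
      mn z (N • x - n • c) ∈ O ∧ (0 < n → ¬ Un O (mn z (N • x - n • c))) := by
    intro x hx
    induction hx using AddSubmonoid.closure_induction with
    | mem g hg =>
      rcases (h.nonneg hv (hG hg)).eq_or_lt with e | e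
      · exact ⟨0, by simpa using e, by simpa using h1 _ (Typ.nsmul_mem_reg (hG hg) N),
          fun h => absurd h (lt_irrefl _)⟩
      · obtain ⟨m, hm⟩ := h.2 g
        have hm0 : 0 < m := by rw [hm] at e; exact_mod_cast e
        obtain ⟨m, rfl⟩ := Int.eq_ofNat_of_zero_le hm0.le
        have hN' : q g * m = N := by have := hq g hg e; rw [hm] at this; exact_mod_cast this
        have h3 : N • g - m • c = m • (q g • g - c) := by rw [← hN']; module
        have h4 : mn z (q g • g - c) ∈ O := h2 _ ⟨Typ.nsmul_mem_reg (hG hg) _, by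
          rw [Typ.vp_ev_nsmul, hq g hg e]⟩
        refine ⟨m, by rw [hm]; simp, ?_, fun hm1 hu => H g hg e ?_⟩
        · rw [h3, mn_nsmul]; exact pow_mem h4 _
        · obtain ⟨m, rfl⟩ := Nat.exists_eq_succ_of_ne_zero hm1.ne'
          rw [h3, mn_nsmul, pow_succ'] at hu
          exact Un.of_mul h4 (pow_mem h4 _) hu
    | zero => exact ⟨0, by simpa using Typ.vp_ev_zero.symm, by simp [mn_zero],
        fun h => absurd h (lt_irrefl _)⟩
    | add x y _ _ hx hy =>
      obtain ⟨n, a1, a2, a3⟩ := hx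
      obtain ⟨m, b1, b2, b3⟩ := hy
      have h3 : N • (x + y) - (n + m) • c = (N • x - n • c) + (N • y - m • c) := by module
      refine ⟨n + m, by rw [Typ.vp_ev_add, ← a1, ← b1, Nat.cast_add], ?_, fun h0 hu => ?_⟩
      · rw [h3, mn_add hz]; exact mul_mem a2 b2
      · rw [h3, mn_add hz] at hu
        rcases Nat.eq_zero_or_pos n with e | e
        · exact b3 (by omega) (Un.of_mul b2 a2 (by rwa [mul_comm]))
        · exact a3 e (Un.of_mul a2 b2 hu)
  obtain ⟨n, a1, a2, a3⟩ := key _ hdc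
  rw [Typ.vp_ev_nsmul] at a1
  have h3 : d * N ≤ n := by
    have : (d : ℚ) * N ≤ n := a1 ▸ mul_le_mul_of_nonneg_left hc.2 (Nat.cast_nonneg d)
    exact_mod_cast this
  obtain ⟨e, rfl⟩ := Nat.exists_eq_add_of_le h3
  refine a3 (by positivity) ⟨a2, mn_ne_zero hz _, ?_⟩
  have : N • d • c - (d * N + e) • c = -(e • c) := by module
  rw [this, mn_neg, inv_inv]
  exact h1 _ (Typ.nsmul_mem_reg hc.1 e)

/-- A point of the weighted blow-up lies in the chart of a vertex. -/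
lemma star_chart (hz : ∀ j, z j ≠ 0) (h : τ.App v) (hv : 0 ≤ v) {G : Set (Fin r → ℤ)}
    (hG : G ⊆ τ.Reg 0) (hG' : ∀ c ∈ τ.Reg 0, ∃ d : ℕ, 0 < d ∧ d • c ∈ AddSubmonoid.closure G)
    {N : ℕ} (hN : 0 < N) (hV : ∀ g ∈ G, 0 < vp v (τ.ev g) → τ.Vert v g N)
    (hT : TA k z τ ≤ O) {A : Submodule k L} {a b : L} (hb : b ≠ 0)
    (hA : sp O A = sp O (pr k b * ms k z (τ.Ex v 0 N))) (ha : a ∈ A) (ha0 : a ≠ 0)
    (hP : IsPoint (chart O A a) O') :
    ∃ g ∈ G, 0 < vp v (τ.ev g) ∧ ∃ q : ℕ, q * vp v (τ.ev g) = N ∧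
      IsPoint (O ⊔ TA k z (τ.star v g)) O' := by
  have hO : O ≤ O' := (le_chart _ _ _).trans hP.le
  have h1 : ∀ c ∈ τ.Ex v 0 N, b * mn z c / a ∈ O' := fun c hc =>
    div_mem_of_mem_sp hO (fun x hx => hP.le (div_mem_chart _ _ hx))
      (hA ▸ le_sp _ _ (mul_mem_mul (mem_pr b) (mn_mem_ms hc)))
  obtain ⟨_, ⟨c, hc, rfl⟩, hu⟩ := exists_un_of_span hP.lcl
    (S := (fun c => b * mn z c) '' τ.Ex v 0 N) ha0 (by rintro _ ⟨c, hc, rfl⟩; exact h1 c hc)
    (sp_le_sp hO ((pr_mul_ms_le fun c hc => subset_span (Set.mem_image_of_mem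
      (fun c => b * mn z c) hc)).trans (le_sp _ _)) (hA ▸ le_sp _ _ ha))
  choose! q hq hq' using hV
  obtain ⟨d, hd, hdc⟩ := hG' c hc.1
  have h2 : ∀ e ∈ τ.Ex v 0 N, mn z (e - c) ∈ O' := fun e he => by
    have : mn z (e - c) = b * mn z e / a * (b * mn z c / a)⁻¹ := by
      have := mn_ne_zero hz c
      rw [mn_sub hz]; field_simp
    rw [this]; exact mul_mem (h1 e he) hu.2.2
  obtain ⟨g, hg, h0, hu'⟩ := exists_vertex hz h hv hG hN q hq hc hd hdc
    (fun e he => hO (hT (mn_mem_TA he))) h2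
  have hw : vp v (τ.ev (q g • g)) = N := by rw [Typ.vp_ev_nsmul, hq g hg h0]
  have h3 : ∀ x ∈ sp O (pr k b * ms k z (τ.Ex v 0 N)),
      x / (b * mn z (q g • g)) ∈ O ⊔ TA k z (τ.star v g) := fun x hx => by
    refine div_mem_of_mem_sp le_sup_left (fun y hy => ?_) hx
    rw [← mem_sp_pr_iff (mul_ne_zero hb (mn_ne_zero hz _))]
    refine pr_mul_ms_le (fun e he => ?_) hy
    rw [mem_sp_pr_iff (mul_ne_zero hb (mn_ne_zero hz _)), mul_div_mul_left _ _ hb, ← mn_sub hz]
    refine (le_sup_right : TA k z (τ.star v g) ≤ _) (mn_mem_TA ((Typ.mem_reg_star h).2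
      ⟨fun ρ hρ e0 => ?_, ?_⟩))
    · rw [Typ.ev_sub, Typ.ev_nsmul, e0]; simpa using he.1 ρ hρ
    · rw [Typ.vp_ev_sub, hw]; simpa using he.2
  refine ⟨g, hg, h0, q g, hq g hg h0, hP.of_le_loc (sup_le hO (TA_le fun e he =>
    mn_mem_of_closure hz (fun f hf => ?_) (hq' g hg h0 e he))) (chart_le
      (le_sup_left.trans (le_loc _ _)) fun x hx => ?_)⟩
  · have : mn z f = mn z (f + q g • g - c) * (mn z (q g • g - c))⁻¹ := by
      rw [← mn_neg, ← mn_add hz]; congr 1; abel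
    rw [this]
    refine mul_mem (h2 _ ⟨hf.2, ?_⟩) hu'.2.2
    rw [Typ.vp_ev_add, hw]
    simpa using ((Typ.mem_reg_star h).1 hf.1).2
  · refine ⟨_, h3 x (hA ▸ le_sp _ _ hx), _, h3 a (hA ▸ le_sp _ _ ha), ?_, ?_⟩
    · have : a / (b * mn z (q g • g)) = (b * mn z c / a * mn z (q g • g - c))⁻¹ := by
        have := mn_ne_zero hz c
        have := mn_ne_zero hz (q g • g)
        rw [mn_sub hz]; field_simp
      rw [this]; exact (hu.mul hu').inv
    · have := mn_ne_zero hz (q g • g)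
      field_simp

end Star

end Pool.Agent.MP_19ffc6_ag.Res.Tor

end MrgPart0

-- ======== part 1: formerly Pool.Agent.MP_19ffc6_ag.Res.Tor
section MrgPart1

/-! Toroidal resolution and principalization. -/

namespace Pool.Agent.MP_19ffc6_ag.Res.Tor

open Pool.Agent.MP_19ffc6_ag.Wild Pool.Agent.MP_19ffc6_ag.Lci Submodule Filter

variable {k L : Type} [Field k] [Field L] [Algebra k L]

/-- The chart with one more label that does not occur. -/
def Ch.keep {ι : Type} (c : Ch L ι) : Ch L (Option ι) := ⟨c.r, c.τ.keep, c.z⟩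

/-- A chart of the star subdivision. -/
noncomputable def Ch.star {ι : Type} [Fintype ι] (c : Ch L ι) (v : ι → ℚ) (g : Fin c.r → ℤ) :
    Ch L (Option ι) := ⟨c.r, c.τ.star v g, c.z⟩

lemma isPoint_self {O D : Subalgebra k L} (h : Lcl O) (hD : D ≤ O) : IsPoint (O ⊔ D) O :=
  ⟨sup_le le_rfl hD, h, le_sup_left.trans (le_loc _ _)⟩

namespace TS

variable {s : TS k L} {v : s.ι → ℚ}

lemma P.lcl {O : Subalgebra k L} (h : s.P O) : Lcl O := let ⟨_, _, _, h⟩ := h; h.lcl

open Classical in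
/-- The monomials of order at least `a` and, where `v` is a lattice point, of weight at
least `n`. -/
noncomputable def X (s : TS k L) (v : s.ι → ℚ) (a : s.ι → ℤ) (n : ℚ) (O : Subalgebra k L) :
    Submodule k L :=
  if (s.ch O).τ.App v then ms k (s.ch O).z ((s.ch O).τ.Ex v a n) else s.J a O

lemma X_pos {a : s.ι → ℤ} {n : ℚ} {O : Subalgebra k L} (h : (s.ch O).τ.App v) :
    s.X v a n O = ms k (s.ch O).z ((s.ch O).τ.Ex v a n) := if_pos h

lemma X_neg {a : s.ι → ℤ} {n : ℚ} {O : Subalgebra k L} (h : ¬ (s.ch O).τ.App v) :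
    s.X v a n O = s.J a O := if_neg h

lemma Good.glob_X (hs : s.Good) (hv : 0 ≤ v) (a : s.ι → ℤ) (n : ℚ) : Glob s.M (s.X v a n) := by
  classical
  obtain ⟨𝒜, a1, a2, a3⟩ := dickson id a {b | a ≤ b ∧ n ≤ vp v b} fun b hb => hb.1
  have hB : ∀ t : Σ r, Typ s.ι r, ∃ b : s.ι → ℤ, (¬ ∀ c, ∃ m : ℤ, vp v (t.2.ev c) = m) →
      (∀ m : ℤ, vp v b ≠ m) ∧ ∃ c, b = t.2.ev c := fun t => by
    by_cases h : ∀ c, ∃ m : ℤ, vp v (t.2.ev c) = m
    · exact ⟨0, fun h' => absurd h h'⟩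
    · push Not at h
      obtain ⟨c, hc⟩ := h
      exact ⟨_, fun _ => ⟨hc, c, rfl⟩⟩
  choose b hb using hB
  let ℬ : Set (s.ι → ℤ) := b '' ((fun O => (s.ch O).ty) '' {O | s.P O}) ∩ {x | ∀ m : ℤ, vp v x ≠ m}
  have hℬ : ℬ.Finite := (hs.fin.image b).inter_of_left _
  obtain ⟨t, ht⟩ := exists_nat_ge (n - vp v a)
  refine ((Glob.biSup a1 fun x _ => hs.glob x).sup (((Glob.biSup hℬ fun x _ =>
    (hs.glob x).mul (hs.glob (-x))).pow t).mul (hs.glob a))).congr fun O hO => ?_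
  congr 1
  have hz := (hs.cht O hO).ne
  set K := ⨆ x ∈ ℬ, s.J x O * s.J (-x) O with hK
  have h1 : ⨆ x ∈ 𝒜, s.J x O ≤ s.J a O := iSup₂_le fun x hx => ms_mono (Typ.reg_mono (a2 hx).1)
  have h2 : K ≤ s.J 0 O := iSup₂_le fun x _ => ms_mul_le hz fun c hc c' hc' => by
    simpa using Typ.add_mem_reg hc hc'
  have h3 : ∀ t : ℕ, K ^ t * s.J a O ≤ s.J a O := fun t => by
    induction t with
    | zero => simp
    | succ t ih =>
      rw [pow_succ', mul_assoc]
      exact (mul_le_mul' h2 ih).trans (ms_mul_le hz fun c hc c' hc' => by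
        rw [add_comm]; exact Typ.add_mem_reg0 hc' hc)
  have h4 : ∀ c x, a ≤ x → n ≤ vp v x → (∀ ρ ∈ (s.ch O).τ.R, x ρ = (s.ch O).τ.ev c ρ) →
      mn (s.ch O).z c ∈ ⨆ x ∈ 𝒜, s.J x O := fun c x e1 e2 e3 => by
    obtain ⟨y, hy, hy'⟩ := a3 x ⟨e1, e2⟩
    exact mem_iSup_of_mem y (mem_iSup_of_mem hy (mn_mem_ms fun ρ hρ => e3 ρ hρ ▸ hy' ρ))
  have h5 : ∀ c ∈ (s.ch O).τ.Reg a,
      a ≤ fun ρ => if ρ ∈ (s.ch O).τ.R then (s.ch O).τ.ev c ρ else a ρ := fun c hc ρ => by
    by_cases h : ρ ∈ (s.ch O).τ.R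
    · simpa [h] using hc ρ h
    · simp [h]
  by_cases h : (s.ch O).τ.App v
  · rw [X_pos h]
    refine le_antisymm (sup_le (iSup₂_le fun x hx => ms_mono fun c hc =>
      ⟨Typ.reg_mono (a2 hx).1 hc, (a2 hx).2.trans (h.le hv hc)⟩) ?_)
      (le_sup_of_le_left (ms_le fun c hc => h4 c _ (h5 c hc.1) ?_ fun ρ hρ => if_pos hρ))
    · have h6 : K ≤ ms k (s.ch O).z ((s.ch O).τ.Ex v 0 1) := by
        refine iSup₂_le fun x hx => ms_mul_le hz fun c hc c' hc' =>
          ⟨by simpa using Typ.add_mem_reg hc hc', ?_⟩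
        obtain ⟨m, hm⟩ := h.2 c
        obtain ⟨m', hm'⟩ := h.2 (c + c')
        have e1 := lt_of_le_of_ne (h.le hv hc) (hm ▸ hx.2 m)
        have e2 := h.le hv hc'
        have e3 : (0 : ℚ) < m' := by rw [← hm', Typ.vp_ev_add]; rw [vp_neg] at e2; linarith
        rw [hm']
        have : 0 < m' := by exact_mod_cast e3
        exact_mod_cast this
      have h7 : ∀ t : ℕ, K ^ t * s.J a O ≤
          ms k (s.ch O).z ((s.ch O).τ.Ex v a (t + vp v a)) := fun t => by
        induction t with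
        | zero =>
          rw [pow_zero, one_mul]
          exact ms_mono fun c hc => ⟨hc, by simpa using h.le hv hc⟩
        | succ t ih =>
          rw [pow_succ', mul_assoc]
          refine (mul_le_mul' h6 ih).trans (ms_mul_le hz fun c hc c' hc' =>
            ⟨by rw [add_comm]; exact Typ.add_mem_reg0 hc'.1 hc.1, ?_⟩)
          rw [Typ.vp_ev_add]; push_cast; linarith [hc.2, hc'.2]
      exact (h7 t).trans (ms_mono fun c hc => ⟨hc.1, by linarith [hc.2]⟩)
    · exact hc.2.trans (vp_congr fun ρ hρ => (if_pos (h.1 ρ hρ)).symm).le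
  · rw [X_neg h]
    refine le_antisymm (sup_le h1 (h3 t)) ?_
    by_cases h' : ∀ ρ, v ρ ≠ 0 → ρ ∈ (s.ch O).τ.R
    · obtain ⟨e1, c, e2⟩ : (∀ m : ℤ, vp v (b (s.ch O).ty) ≠ m) ∧ ∃ c : Fin (s.ch O).r → ℤ,
          b (s.ch O).ty = (s.ch O).τ.ev c := hb (s.ch O).ty fun H => h ⟨h', H⟩
      have h6 : (1 : L) ∈ K := by
        refine mem_iSup_of_mem (b (s.ch O).ty) (mem_iSup_of_mem ⟨⟨_, ⟨O, hO, rfl⟩, rfl⟩, e1⟩ ?_)
        rw [← mul_inv_cancel₀ (mn_ne_zero hz c), ← mn_neg, e2]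
        exact mul_mem_mul (mn_mem_ms fun ρ _ => le_rfl) (mn_mem_ms fun ρ _ => (Typ.ev_neg c ρ).ge)
      refine le_sup_of_le_right fun x hx => ?_
      simpa using mul_mem_mul (pow_mem_pow K h6 t) hx
    · push Not at h'
      obtain ⟨ρ, h0, hρ⟩ := h'
      have h0' : 0 < v ρ := lt_of_le_of_ne (hv ρ) (Ne.symm h0)
      refine le_sup_of_le_left (ms_le fun c hc => ?_)
      set x : s.ι → ℤ := fun ρ => if ρ ∈ (s.ch O).τ.R then (s.ch O).τ.ev c ρ else a ρ with hx
      obtain ⟨m, hm⟩ := exists_nat_ge ((n - vp v x) / v ρ)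
      refine h4 c (x + Pi.single ρ (m : ℤ)) ((h5 c hc).trans (le_add_of_nonneg_right
        (Pi.single_nonneg.2 (Nat.cast_nonneg m)))) ?_ fun σ hσ => ?_
      · rw [vp_add, vp_single, div_le_iff₀ h0'] at *
        push_cast; linarith
      · have : σ ≠ ρ := fun e => hρ (e ▸ hσ)
        simp [hx, hσ, Pi.single_eq_of_ne this]

/-- The star subdivision of a toroidal system at the weight `v`. -/
theorem Good.star (hs : s.Good) (hv : 0 ≤ v) (hv0 : v ≠ 0) :
    ∃ (M : Submodule k L) (ch : Subalgebra k L → Ch L (Option s.ι)),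
      (TS.mk (Option s.ι) M ch).Good ∧ s.Ref (TS.mk (Option s.ι) M ch) ∧
      (∀ f a, s.HasExp f a →
        (TS.mk (Option s.ι) M ch).HasExp f fun o => o.elim ⌊vp v a⌋ a) ∧
      ∀ O', Pt ⊥ M O' → ∃ O, s.P O ∧ ((¬ (s.ch O).τ.App v ∧ ch O' = (s.ch O).keep) ∨
        ((s.ch O).τ.App v ∧ ∃ g, 0 < vp v ((s.ch O).τ.ev g) ∧ ch O' = (s.ch O).star v g)) := by
  classical
  choose! G G1 G2 G3 using fun (t : Σ r, Typ s.ι r) (h : t.2.Pointed) => Typ.edges h
  set 𝒯 := (fun O => (s.ch O).ty) '' {O | s.P O} with h𝒯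
  have hT : ∀ t ∈ 𝒯, t.2.Pointed := by rintro _ ⟨O, hO, rfl⟩; exact (hs.cht O hO).ptd
  obtain ⟨n, hn⟩ : ∃ n : ℕ, ∀ t ∈ 𝒯, ∀ g ∈ G t, t.2.App v → 0 < vp v (t.2.ev g) →
      t.2.Vert v g n.factorial := by
    refine Eventually.exists (f := atTop) ((eventually_all_finite hs.fin).2 fun t ht =>
      (eventually_all_finite (G1 t (hT t ht))).2 fun g hg => ?_)
    by_cases h : t.2.App v ∧ 0 < vp v (t.2.ev g)
    · filter_upwards [(G2 t (hT t ht) g hg).vert h.1 h.2] with n hn _ _ using hn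
    · exact Eventually.of_forall fun _ h1 h2 => absurd ⟨h1, h2⟩ h
  set N := n.factorial with hN
  have hN0 : 0 < N := n.factorial_pos
  obtain ⟨A, B, hA, hB, hAB⟩ := hs.glob_X hv 0 N
  have key : ∀ O', ∃ (O : Subalgebra k L) (c : Ch L (Option s.ι)) (u : L), Pt ⊥ (s.M * A) O' →
      s.P O ∧ Dom O O' ∧ IsPoint (O ⊔ TA k c.z c.τ) O' ∧
      ((¬ (s.ch O).τ.App v ∧ c = (s.ch O).keep ∧ u = 1) ∨
        ((s.ch O).τ.App v ∧ ∃ g : Fin (s.ch O).r → ℤ, g ∈ G (s.ch O).ty ∧
          0 < vp v ((s.ch O).τ.ev g) ∧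
          c = (s.ch O).star v g ∧ ∃ q : ℕ, q * vp v ((s.ch O).τ.ev g) = N ∧
            u = mn (s.ch O).z (q • g))) := by
    intro O'
    by_cases hO' : Pt ⊥ (s.M * A) O'
    swap
    · exact ⟨O', (s.ch O').keep, 1, fun h => absurd h hO'⟩
    obtain ⟨O, a, ha, hO, hD, ha0, hP⟩ := Pt.of_mul_dom hO'
    obtain ⟨b, hb, -, e⟩ := hAB O hO
    have hc := hs.cht O hO
    by_cases h : (s.ch O).τ.App v
    · rw [X_pos h] at e
      obtain ⟨g, hg, h0, q, hq, hP'⟩ := star_chart hc.ne h hv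
        (fun g hg => (G2 (s.ch O).ty hc.ptd g hg).1) (G3 (s.ch O).ty hc.ptd) hN0
        (fun g hg => hn _ ⟨O, hO, rfl⟩ g hg h) hc.sf.le hb e ha ha0 hP
      exact ⟨O, (s.ch O).star v g, _, fun _ => ⟨hO, hD, hP', Or.inr ⟨h, g, hg, h0, rfl, q, hq, rfl⟩⟩⟩
    · rw [X_neg h, J, sp_mul_congr rfl hc.sp_zero, pr_mul, mul_one] at e
      have h1 : ∀ x ∈ A, x / b ∈ O := fun x hx => (mem_sp_pr_iff hb).1 (e ▸ le_sp _ _ hx)
      have h2 : b / a ∈ O' := div_mem_of_mem_sp hD.1 (fun x hx => hP.le (div_mem_chart _ _ hx))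
        (e ▸ le_sp _ _ (mem_pr b))
      have h3 : Un O (a / b) := hD.2 _ (h1 a ha) ⟨hD.1 (h1 a ha), div_ne_zero ha0 hb, by
        rwa [inv_div]⟩
      have h4 : O' = O := hD.eq_of_isPoint (hP.of_le_loc hD.1 ((chart_le le_rfl fun x hx => by
        have : x / a = x / b * (a / b)⁻¹ := by field_simp
        rw [this]; exact mul_mem (h1 x hx) h3.2.2).trans (le_loc _ _)))
      subst h4
      refine ⟨O', (s.ch O').keep, 1, fun _ => ⟨hO, hD, isPoint_self hP.lcl (TA_le fun c hc' =>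
        hc.mem ?_), Or.inl ⟨h, rfl, rfl⟩⟩⟩
      exact Typ.reg_keep (τ := (s.ch O').τ) 0 ▸ hc'
  choose ctr ch u H using key
  have hreg : ∀ O', Pt ⊥ (s.M * A) O' → (ch O').At O' ∧
      Set.range (mn (ch O').z) = Set.range (mn (s.ch (ctr O')).z) ∧
      TA k (s.ch (ctr O')).z (s.ch (ctr O')).τ ≤ TA k (ch O').z (ch O').τ := by
    intro O' hO'
    obtain ⟨hO, -, hP, h⟩ := H O' hO'
    have hc := hs.cht _ hO
    rcases h with ⟨-, e, -⟩ | ⟨h, g, hg, h0, e, -⟩
    · rw [e] at hP ⊢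
      have hle : (s.ch (ctr O')).τ.Reg 0 ⊆ (s.ch (ctr O')).τ.keep.Reg 0 :=
        (Typ.reg_keep (τ := (s.ch (ctr O')).τ) 0).ge
      exact ⟨⟨hc.ptd.keep, hc.str.keep, hc.ind, sf_of_isPoint hc.ne hc.str hc.sf hle hP⟩, rfl,
        TA_le fun c hc => mn_mem_TA (hle hc)⟩
    · rw [e] at hP ⊢
      have hle : (s.ch (ctr O')).τ.Reg 0 ⊆ ((s.ch (ctr O')).τ.star v g).Reg 0 := fun c hc =>
        (Typ.mem_reg_star h).2 ⟨fun ρ hρ _ => hc ρ hρ, by simpa using h.nonneg hv hc⟩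
      exact ⟨⟨(G2 (s.ch (ctr O')).ty hc.ptd g hg).pointed_star h h0, hc.str.star h hv hv0, hc.ind,
        sf_of_isPoint hc.ne hc.str hc.sf hle hP⟩, rfl, TA_le fun c hc => mn_mem_TA (hle hc)⟩
  have hexp : ∀ f a, s.HasExp f a →
      (TS.mk (Option s.ι) (s.M * A) ch).HasExp f fun o => o.elim ⌊vp v a⌋ a := by
    intro f a hf O' hO'
    obtain ⟨hO, hD, -, h⟩ := H O' hO'
    obtain ⟨c, h1, h2⟩ := hf _ hO
    change ∃ c, (∀ ρ ∈ (ch O').τ.R, (ch O').τ.ev c ρ = _) ∧ Un O' (f / mn (ch O').z c)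
    rcases h with ⟨-, e, -⟩ | ⟨h, g, -, -, e, -⟩
    · rw [e]
      refine ⟨c, ?_, h2.mono hD.1⟩
      rintro _ ⟨ρ, hρ, rfl⟩
      exact h1 ρ hρ
    · rw [e]
      refine ⟨c, ?_, h2.mono hD.1⟩
      rintro (_ | ρ) hρ
      · change ((s.ch (ctr O')).τ.star v g).ev c none = ⌊vp v a⌋
        rw [← vp_congr fun ρ hρ => h1 ρ (h.1 ρ hρ), ← Typ.ev_star_none (g := g) h,
          Int.floor_intCast]
      · exact h1 ρ (Typ.some_mem_star.1 hρ).1
  have hu0 : ∀ O', Pt ⊥ (s.M * A) O' → u O' ≠ 0 := fun O' hO' => by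
    obtain ⟨hO, -, -, ⟨-, -, e⟩ | ⟨-, g, -, -, -, q, -, e⟩⟩ := H O' hO'
    · rw [e]; exact one_ne_zero
    · rw [e]; exact mn_ne_zero (hs.cht _ hO).ne _
  have hpull : ∀ a n, Glob (s.M * A) fun O' => s.X v a n (ctr O') := fun a n =>
    (hs.glob_X hv a n).pull ctr fun O' hO' => ⟨(H O' hO').1, (H O' hO').2.1.1⟩
  -- the new modules in terms of the old ones
  have hnew : ∀ (a : Option s.ι → ℤ) (t : ℕ), (∀ τ ∈ 𝒯, ∀ g ∈ G τ, τ.2.App v →
      ∀ c ∈ (τ.2.star v g).Reg a, ∃ f, c - f ∈ (τ.2.star v g).Reg 0 ∧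
        f ∈ (τ.2.star v g).Reg a ∧ f + t • g ∈ τ.2.Reg fun ρ => a (some ρ)) →
      ∀ O', Pt ⊥ (s.M * A) O' →
        sp O' (pr k (u O')⁻¹ ^ t * s.X v (fun ρ => a (some ρ)) (a none + t * N) (ctr O')) =
          sp O' (ms k (ch O').z ((ch O').τ.Reg a)) := by
    intro a t ht O' hO'
    have hAt := (hreg O' hO').1
    obtain ⟨hO, -, -, ⟨h, e, e'⟩ | ⟨h, g, hg, h0, e, q, hq, e'⟩⟩ := H O' hO'
    · rw [X_neg h, e, e', inv_one, pr_one, one_pow, one_mul]
      exact congrArg (fun S => sp O' (ms k _ S)) (Typ.reg_keep (τ := (s.ch (ctr O')).τ) a).symm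
    · have hz := (hs.cht _ hO).ne
      have hg0 : g ∈ (s.ch (ctr O')).τ.Reg 0 := (G2 (s.ch (ctr O')).ty (hs.cht _ hO).ptd g hg).1
      have hw : vp v ((s.ch (ctr O')).τ.ev (t • q • g)) = t * N := by
        rw [Typ.vp_ev_nsmul, Typ.vp_ev_nsmul, hq]
      rw [e] at hAt
      rw [X_pos h, e, e', pr_pow, inv_pow, ← mn_nsmul, ← mn_neg]
      change _ = sp O' (ms k (s.ch (ctr O')).z (((s.ch (ctr O')).τ.star v g).Reg a))
      refine sp_eq_of_le ((pr_mul_ms_le fun c hc => ?_).trans (le_sp _ _)) (ms_le fun c hc => ?_)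
      · rw [← mn_add hz, neg_add_eq_sub]
        refine mn_mem_ms ((Typ.mem_reg_star h).2 ⟨fun ρ hρ e0 => ?_, ?_⟩)
        · rw [Typ.ev_sub, Typ.ev_nsmul, Typ.ev_nsmul, e0]; simpa using hc.1 ρ hρ
        · rw [Typ.vp_ev_sub, hw]; linarith [hc.2]
      · obtain ⟨f, f1, f2, f3⟩ : ∃ f : Fin (s.ch (ctr O')).r → ℤ,
            c - f ∈ ((s.ch (ctr O')).τ.star v g).Reg 0 ∧ f ∈ ((s.ch (ctr O')).τ.star v g).Reg a ∧
            f + t • g ∈ (s.ch (ctr O')).τ.Reg fun ρ => a (some ρ) := ht _ ⟨_, hO, rfl⟩ g hg h c hc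
        have hq0 : q ≠ 0 := by
          rintro rfl
          have : (N : ℚ) = 0 := by simpa using hq.symm
          exact hN0.ne' (by exact_mod_cast this)
        obtain ⟨q, rfl⟩ := Nat.exists_eq_succ_of_ne_zero hq0
        have e1 : mn (s.ch (ctr O')).z c = mn (s.ch (ctr O')).z (c - f) *
            (mn (s.ch (ctr O')).z (-(t • q.succ • g)) *
              mn (s.ch (ctr O')).z (f + t • q.succ • g)) := by
          rw [← mn_add hz, ← mn_add hz]; congr 1; abel
        refine e1 ▸ mul_mem_sp (hAt.mem f1) (le_sp _ _ (mul_mem_mul (mem_pr _)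
          (mn_mem_ms ⟨?_, ?_⟩)))
        · have : f + t • q.succ • g = (f + t • g) + (t * q) • g := by
            rw [Nat.succ_eq_add_one]; module
          rw [this]
          exact Typ.add_mem_reg0 f3 (Typ.nsmul_mem_reg hg0 _)
        · rw [Typ.vp_ev_add, hw]
          linarith [((Typ.mem_reg_star h).1 f2).2]
  have hinv : Glob (s.M * A) fun O' => pr k (u O')⁻¹ := by
    refine Glob.inv ((hpull 0 N).congr fun O' hO' => ?_) hu0
    have hAt := (hreg O' hO').1
    obtain ⟨hO, hD, -, ⟨h, -, e'⟩ | ⟨h, g, hg, h0, e, q, hq, e'⟩⟩ := H O' hO'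
    · rw [X_neg h, e']; exact sp_congr hD.1 (hs.cht _ hO).sp_zero
    · have hz := (hs.cht _ hO).ne
      have hg0 : g ∈ (s.ch (ctr O')).τ.Reg 0 := (G2 (s.ch (ctr O')).ty (hs.cht _ hO).ptd g hg).1
      have hw : vp v ((s.ch (ctr O')).τ.ev (q • g)) = N := by rw [Typ.vp_ev_nsmul, hq]
      rw [e] at hAt
      rw [X_pos h, e']
      refine sp_eq_of_le (ms_le fun c hc => ?_) ((pr_le (mn_mem_ms
        (And.intro (Typ.nsmul_mem_reg hg0 q) hw.ge))).trans (le_sp _ _))
      rw [mem_sp_pr_iff (mn_ne_zero hz _), ← mn_sub hz]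
      refine hAt.mem ((Typ.mem_reg_star h).2 ⟨fun ρ hρ e0 => ?_, ?_⟩)
      · rw [Typ.ev_sub, Typ.ev_nsmul, e0]; simpa using hc.1 ρ hρ
      · rw [Typ.vp_ev_sub, hw]; simpa using hc.2
  refine ⟨s.M * A, ch, ⟨hs.fg.mul hA, ?_, ?_, fun O' hO' => (hreg O' hO').1, fun a => ?_⟩,
    ⟨⟨A, hA, rfl⟩, fun O' hO' => ⟨ctr O', (H O' hO').1, (H O' hO').2.1, (hreg O' hO').2.1,
      (hreg O' hO').2.2, (H O' hO').2.2.1⟩, fun f a h => ⟨_, hexp f a h⟩⟩, hexp, fun O' hO' => ?_⟩
  · rw [Ne, Submodule.mul_eq_bot, not_or]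
    refine ⟨hs.ne, fun e => ?_⟩
    obtain ⟨O, hO⟩ := exists_pt hs.ne
    obtain ⟨b, hb, -, e'⟩ := hAB O hO
    have hc := hs.cht O hO
    obtain ⟨c, hc'⟩ : ∃ c, mn (s.ch O).z c ∈ s.X v 0 N O := by
      by_cases h : (s.ch O).τ.App v
      · obtain ⟨g, hg⟩ := (hc.str.star (g := 0) h hv hv0)
        have h1 := hg none Typ.none_mem_star
        have h2 : (1 : ℚ) ≤ vp v ((s.ch O).τ.ev g) := by
          rw [← Typ.ev_star_none (g := 0) h]; exact_mod_cast h1
        refine ⟨N • g, X_pos (s := s) h ▸ mn_mem_ms ⟨Typ.nsmul_mem_reg (fun ρ hρ =>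
          (hg (some ρ) (Typ.some_mem_star.2 ⟨hρ, Typ.ev_zero ρ⟩)).le) N, ?_⟩⟩
        rw [Typ.vp_ev_nsmul]
        exact le_mul_of_one_le_right (Nat.cast_nonneg N) h2
      · exact ⟨0, X_neg (s := s) h ▸ mn_mem_ms Typ.zero_mem_reg⟩
    have := e' ▸ le_sp O _ (mul_mem_mul (mem_pr b) hc')
    rw [e, sp, Submodule.mul_bot, Submodule.mem_bot] at this
    exact mul_ne_zero hb (mn_ne_zero hc.ne c) this
  · refine ((hs.fin.image fun t => (⟨t.1, t.2.keep⟩ : Σ r, Typ (Option s.ι) r)).union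
      (hs.fin.biUnion fun t ht => (G1 t (hT t ht)).image
        fun g => (⟨t.1, t.2.star v g⟩ : Σ r, Typ (Option s.ι) r))).subset ?_
    rintro _ ⟨O', hO', rfl⟩
    obtain ⟨hO, -, -, ⟨-, e, -⟩ | ⟨-, g, hg, -, e, -⟩⟩ := H O' hO'
    · exact Or.inl ⟨_, ⟨_, hO, rfl⟩, (congrArg Ch.ty e).symm⟩
    · exact Or.inr (Set.mem_biUnion ⟨_, hO, rfl⟩ ⟨g, hg, (congrArg Ch.ty e).symm⟩)
  · obtain ⟨t, ht⟩ : ∃ t : ℕ, ∀ τ ∈ 𝒯, ∀ g ∈ G τ, τ.2.App v →
        ∀ c ∈ (τ.2.star v g).Reg a, ∃ f, c - f ∈ (τ.2.star v g).Reg 0 ∧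
          f ∈ (τ.2.star v g).Reg a ∧ f + t • g ∈ τ.2.Reg fun ρ => a (some ρ) := by
      refine Eventually.exists (f := atTop) ((eventually_all_finite hs.fin).2 fun τ hτ =>
        (eventually_all_finite (G1 τ (hT τ hτ))).2 fun g hg => ?_)
      by_cases h : τ.2.App v
      · obtain ⟨F, F1, F2, F3⟩ := Typ.reg_fg (τ := τ.2.star v g) a _ subset_rfl
        have : ∀ᶠ t : ℕ in atTop, ∀ f ∈ F, f + t • g ∈ τ.2.Reg fun ρ => a (some ρ) :=
          (eventually_all_finite F1).2 fun f hf => Typ.ev_add_reg (G2 τ (hT τ hτ) g hg).1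
            ((Typ.mem_reg_star h).1 (F2 hf)).1
        filter_upwards [this] with t ht _ c hc
        obtain ⟨f, hf, hf'⟩ := F3 c hc
        exact ⟨f, hf', F2 hf, ht f hf⟩
      · exact Eventually.of_forall fun _ h1 => absurd h1 h
    exact ((hinv.pow t).mul (hpull _ _)).congr (hnew a t ht)
  · obtain ⟨hO, -, -, ⟨h, e, -⟩ | ⟨h, g, -, h0, e, -⟩⟩ := H O' hO'
    · exact ⟨_, hO, Or.inl ⟨h, e⟩⟩
    · exact ⟨_, hO, Or.inr ⟨h, g, h0, e⟩⟩

lemma Ref.refl (s : TS k L) (hs : s.Good) : s.Ref s :=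
  ⟨⟨1, by rw [← pr_one]; exact pr_fg _, (mul_one _).symm⟩, fun O hO =>
    ⟨O, hO, Dom.refl O, rfl, le_rfl, isPoint_self hO.lcl (hs.cht O hO).sf.le⟩, fun _ a h => ⟨a, h⟩⟩

lemma Ref.trans {s' s'' : TS k L} (h : s.Ref s') (h' : s'.Ref s'') : s.Ref s'' := by
  obtain ⟨A, hA, e⟩ := h.mul
  obtain ⟨A', hA', e'⟩ := h'.mul
  refine ⟨⟨A * A', hA.mul hA', by rw [e', e, mul_assoc]⟩, fun O'' hO'' => ?_, fun f a hf => ?_⟩
  · obtain ⟨O', hO', d', r', t', p'⟩ := h'.dom O'' hO''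
    obtain ⟨O, hO, d, r, t, p⟩ := h.dom O' hO'
    refine ⟨O, hO, ⟨d.1.trans d'.1, fun x hx hu => d.2 x hx (d'.2 x (d.1 hx) hu)⟩, r'.trans r,
      t.trans t', p'.of_le_loc (sup_le (d.1.trans d'.1) (le_sup_right.trans p'.le)) (sup_le
        (p.le_loc.trans (loc_mono (sup_le_sup_left t' _) d'.1)) (le_sup_right.trans (le_loc _ _)))⟩
  · obtain ⟨a', hf'⟩ := h.exp f a hf
    exact h'.exp f a' hf'

lemma Ref.cmp {s' : TS k L} (h : s.Ref s') {f : L} (hf : s.Cmp f) : s'.Cmp f := fun O' hO' => by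
  obtain ⟨O, hO, d, -⟩ := h.dom O' hO'
  exact (hf O hO).imp (fun h => d.1 h) fun h => d.1 h

/-- Principalization of one monomial function. -/
lemma cmp_one (f : L) (n : ℕ) : ∀ (s : TS k L) (a : s.ι → ℤ), s.Good → s.HasExp f a →
    {p : s.ι × s.ι | 0 < a p.1 ∧ a p.2 < 0 ∧ ∃ O, s.P O ∧ p.1 ∈ (s.ch O).τ.R ∧
      p.2 ∈ (s.ch O).τ.R}.ncard ≤ n → ∃ s' : TS k L, s'.Good ∧ s.Ref s' ∧ s'.Cmp f := by
  classical
  induction n using Nat.strong_induction_on with
  | _ n ih =>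
    intro s a hs hf hn
    by_cases hB : ∃ p : s.ι × s.ι, 0 < a p.1 ∧ a p.2 < 0 ∧ ∃ O, s.P O ∧ p.1 ∈ (s.ch O).τ.R ∧
      p.2 ∈ (s.ch O).τ.R
    swap
    · refine ⟨s, hs, Ref.refl s hs, fun O hO => ?_⟩
      obtain ⟨c, h1, h2⟩ := hf O hO
      have hc := hs.cht O hO
      by_cases h : c ∈ (s.ch O).τ.Reg 0
      · left
        rw [← div_mul_cancel₀ f (mn_ne_zero hc.ne c)]
        exact mul_mem h2.1 (hc.mem h)
      · right
        simp only [Typ.Reg, Set.mem_ofPred_eq, not_forall, not_le] at h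
        obtain ⟨σ, hσ, h⟩ := h
        have h3 : -c ∈ (s.ch O).τ.Reg 0 := fun ρ hρ => by
          rw [Typ.ev_neg, h1 ρ hρ]
          by_contra H
          exact hB ⟨(ρ, σ), by simpa using H, by simpa [h1 σ hσ] using h, O, hO, hρ, hσ⟩
        have : f⁻¹ = (f / mn (s.ch O).z c)⁻¹ * mn (s.ch O).z (-c) := by
          have := mn_ne_zero hc.ne c
          rw [mn_neg]; field_simp
        rw [this]; exact mul_mem h2.2.2 (hc.mem h3)
    obtain ⟨⟨α, β⟩, hα, hβ, hαβ⟩ := hB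
    have hne : α ≠ β := fun e => by subst e; simp only at hα hβ; omega
    let v : s.ι → ℚ := Pi.single α (-a β : ℤ) + Pi.single β (a α : ℤ)
    have hvp : ∀ b, vp v b = (-a β * b α + a α * b β : ℤ) := fun b => by
      simp only [vp, v, Pi.add_apply, add_mul, Finset.sum_add_distrib, Pi.single_apply, ite_mul,
        zero_mul, Finset.sum_ite_eq', Finset.mem_univ, if_true]
      push_cast; ring
    have hsup : ∀ ρ, v ρ ≠ 0 → ρ = α ∨ ρ = β := fun ρ hρ => by
      by_contra H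
      push Not at H
      simp [v, Pi.single_eq_of_ne H.1, Pi.single_eq_of_ne H.2] at hρ
    have hv : 0 ≤ v := add_nonneg (Pi.single_nonneg.2 (by simp only at hβ; exact_mod_cast by omega))
      (Pi.single_nonneg.2 (by simp only at hα; exact_mod_cast hα.le))
    have hv0 : v ≠ 0 := fun e => by
      have := congrFun e β
      simp [v, Pi.single_eq_of_ne hne.symm] at this
      simp only at hα; omega
    obtain ⟨M, ch, h1, h2, h3, h4⟩ := hs.star hv hv0
    have h0 : ⌊vp v a⌋ = 0 := by rw [hvp, Int.floor_intCast]; ring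
    have h5 := h3 f a hf
    rw [h0] at h5
    set B := {p : s.ι × s.ι | 0 < a p.1 ∧ a p.2 < 0 ∧ ∃ O, s.P O ∧ p.1 ∈ (s.ch O).τ.R ∧
      p.2 ∈ (s.ch O).τ.R} with hB
    have hmem : (α, β) ∈ B := ⟨hα, hβ, hαβ⟩
    obtain ⟨s', a1, a2, a3⟩ := ih _ (lt_of_lt_of_le (lt_of_le_of_lt (Set.ncard_image_le
      (f := Prod.map some some) (Set.toFinite _)) (Set.ncard_sdiff_singleton_lt_of_mem hmem)) hn)
      _ _ h1 h5 (Set.ncard_le_ncard (by
        rintro ⟨_ | ρ, _ | σ⟩ ⟨b1, b2, O', hO', b3, b4⟩ <;> try simp at b1 b2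
        obtain ⟨O, hO, ⟨h, e⟩ | ⟨h, g, hg, e⟩⟩ := h4 O' hO'
        · change some ρ ∈ (ch O').τ.R at b3
          change some σ ∈ (ch O').τ.R at b4
          rw [e] at b3 b4
          have c3 : ρ ∈ (s.ch O).τ.R := by simpa [Ch.keep, Typ.keep] using b3
          have c4 : σ ∈ (s.ch O).τ.R := by simpa [Ch.keep, Typ.keep] using b4
          refine ⟨(ρ, σ), ⟨⟨b1, b2, O, hO, c3, c4⟩, fun e' => h ⟨fun τ hτ => ?_,
            fun c => ⟨_, hvp _⟩⟩⟩, rfl⟩
          cases e'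
          rcases hsup τ hτ with rfl | rfl <;> assumption
        · change some ρ ∈ (ch O').τ.R at b3
          change some σ ∈ (ch O').τ.R at b4
          rw [e] at b3 b4
          have c3 := (Typ.some_mem_star (τ := (s.ch O).τ) (g := g)).1 b3
          have c4 := (Typ.some_mem_star (τ := (s.ch O).τ) (g := g)).1 b4
          refine ⟨(ρ, σ), ⟨⟨b1, b2, O, hO, c3.1, c4.1⟩, fun e' => ?_⟩, rfl⟩
          cases e'
          rw [hvp, c3.2, c4.2] at hg
          simp at hg) (Set.toFinite _))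
    exact ⟨s', a1, h2.trans a2, a3⟩

/-- Triangulation. -/
lemma free_all (n : ℕ) : ∀ s : TS k L, s.Good →
    {ρ : s.ι | ∃ O, s.P O ∧ ρ ∈ (s.ch O).τ.R ∧ ¬ (s.ch O).τ.Free ρ}.ncard ≤ n →
    ∃ s' : TS k L, s'.Good ∧ s.Ref s' ∧ ∀ O, s'.P O → ∀ ρ ∈ (s'.ch O).τ.R, (s'.ch O).τ.Free ρ := by
  classical
  induction n using Nat.strong_induction_on with
  | _ n ih =>
    intro s hs hn
    by_cases hB : ∃ ρ, ∃ O, s.P O ∧ ρ ∈ (s.ch O).τ.R ∧ ¬ (s.ch O).τ.Free ρ
    swap
    · refine ⟨s, hs, Ref.refl s hs, fun O hO ρ hρ => ?_⟩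
      by_contra H
      exact hB ⟨ρ, O, hO, hρ, H⟩
    obtain ⟨α, hα⟩ := hB
    let v : s.ι → ℚ := Pi.single α 1
    have hvp : ∀ b, vp v b = b α := fun b => by simp [vp, v, Pi.single_apply]
    have hv0 : v ≠ 0 := fun e => by simpa [v] using congrFun e α
    obtain ⟨M, ch, h1, h2, -, h4⟩ := hs.star (v := v) (Pi.single_nonneg.2 zero_le_one) hv0
    set B := {ρ : s.ι | ∃ O, s.P O ∧ ρ ∈ (s.ch O).τ.R ∧ ¬ (s.ch O).τ.Free ρ} with hB
    have hmem : α ∈ B := hα
    obtain ⟨s', a1, a2, a3⟩ := ih _ (lt_of_lt_of_le (lt_of_le_of_lt (Set.ncard_image_le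
      (f := some) (Set.toFinite _)) (Set.ncard_sdiff_singleton_lt_of_mem hmem)) hn)
      _ h1 (Set.ncard_le_ncard (by
        rintro o ⟨O', hO', b1, b2⟩
        change o ∈ (ch O').τ.R at b1
        change ¬ (ch O').τ.Free o at b2
        obtain ⟨O, hO, ⟨h, e⟩ | ⟨h, g, hg, e⟩⟩ := h4 O' hO'
        · rw [e] at b1 b2
          obtain ⟨ρ, hρ, rfl⟩ := b1
          refine ⟨ρ, ⟨⟨O, hO, hρ, fun H => b2 H.keep⟩, fun e' => h ⟨fun τ hτ => ?_,
            fun c => ⟨_, hvp _⟩⟩⟩, rfl⟩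
          cases e'
          by_contra H
          exact hτ (Pi.single_eq_of_ne (fun e : τ = α => H (e ▸ hρ)) _)
        · rw [e] at b1 b2
          cases o with
          | none => exact absurd (Typ.free_star_none h hg) b2
          | some ρ =>
            have c1 := (Typ.some_mem_star (τ := (s.ch O).τ) (g := g)).1 b1
            refine ⟨ρ, ⟨⟨O, hO, c1.1, fun H => b2 (H.star h hg c1.2)⟩, fun e' => ?_⟩, rfl⟩
            cases e'
            rw [hvp, c1.2] at hg
            simp at hg) (Set.toFinite _))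
    exact ⟨s', a1, h2.trans a2, a3⟩

/-- Reduction of the multiplicity of simplicial cones. -/
lemma uni_all (W : ℕ) : ∀ (n : ℕ) (s : TS k L), s.Good →
    (∀ O, s.P O → ∀ ρ ∈ (s.ch O).τ.R, (s.ch O).τ.Free ρ) →
    (∀ O, s.P O → (s.ch O).τ.Par.ncard ≤ W) →
    {t | t ∈ (fun O => (s.ch O).ty) '' {O | s.P O} ∧ t.2.Par.ncard = W}.ncard ≤ n →
    ∃ s' : TS k L, s'.Good ∧ s.Ref s' ∧ s'.Uni := by
  induction W using Nat.strong_induction_on with
  | _ W ihW =>
  intro n
  induction n using Nat.strong_induction_on with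
  | _ n ih =>
    intro s hs hF hW hn
    by_cases hU : s.Uni
    · exact ⟨s, hs, Ref.refl s hs, hU⟩
    have hfin : ∀ O, s.P O → (s.ch O).τ.Par.Finite := fun O hO => Typ.par_finite (hF O hO)
    have hzero : ∀ O, (0 : s.ι → ℚ) ∈ (s.ch O).τ.Par := fun O =>
      ⟨fun _ => ⟨le_rfl, zero_lt_one⟩, fun _ h => absurd rfl h, fun _ => ⟨0, by simp [vp]⟩⟩
    have hW2 : 1 < W := by
      by_contra H
      refine hU fun O hO => Typ.uni_of_par fun w hw => ?_
      exact (Set.ncard_le_one (hfin O hO)).1 ((hW O hO).trans (by omega)) w hw 0 (hzero O)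
    by_cases hB : ∃ O, s.P O ∧ (s.ch O).τ.Par.ncard = W
    swap
    · refine ihW (W - 1) (by omega) _ s hs hF (fun O hO => ?_) le_rfl
      have := hW O hO
      have : (s.ch O).τ.Par.ncard ≠ W := fun e => hB ⟨O, hO, e⟩
      omega
    obtain ⟨O₀, hO₀, e₀⟩ := hB
    obtain ⟨v, hv, hv0⟩ := Set.exists_ne_of_one_lt_ncard (e₀ ▸ hW2) 0
    obtain ⟨M, ch, h1, h2, -, h4⟩ := hs.star (v := v) (fun ρ => (hv.1 ρ).1) hv0
    set B := {t | t ∈ (fun O => (s.ch O).ty) '' {O | s.P O} ∧ t.2.Par.ncard = W} with hB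
    have hmem : (s.ch O₀).ty ∈ B := ⟨⟨O₀, hO₀, rfl⟩, e₀⟩
    have hBf : B.Finite := hs.fin.subset fun t ht => ht.1
    refine (ih _ (lt_of_lt_of_le (lt_of_le_of_lt (Set.ncard_image_le
      (f := fun t => (⟨t.1, t.2.keep⟩ : Σ r, Typ (Option s.ι) r)) (hBf.subset Set.sdiff_subset))
      (Set.ncard_sdiff_singleton_lt_of_mem hmem hBf)) hn) _ h1 (fun O' hO' o ho => ?_)
      (fun O' hO' => ?_) (Set.ncard_le_ncard ?_ ((hBf.subset Set.sdiff_subset).image _))).imp
      fun s' a => ⟨a.1, h2.trans a.2.1, a.2.2⟩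
    · change o ∈ (ch O').τ.R at ho
      change (ch O').τ.Free o
      obtain ⟨O, hO, ⟨h, e⟩ | ⟨h, g, hg, e⟩⟩ := h4 O' hO'
      · rw [e] at ho ⊢
        obtain ⟨ρ, hρ, rfl⟩ := ho
        exact (hF O hO ρ hρ).keep
      · rw [e] at ho ⊢
        cases o with
        | none => exact Typ.free_star_none h hg
        | some ρ =>
          have c1 := Typ.some_mem_star.1 ho
          exact (hF O hO ρ c1.1).star h hg c1.2
    · change (ch O').τ.Par.ncard ≤ W
      obtain ⟨O, hO, ⟨h, e⟩ | ⟨h, g, hg, e⟩⟩ := h4 O' hO'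
      · rw [e]; exact (Typ.ncard_par_keep (hfin O hO)).trans (hW O hO)
      · rw [e]; exact (Typ.ncard_par_star (hfin O hO) ⟨hv.1, h⟩ hg).le.trans (hW O hO)
    · rintro _ ⟨⟨O', hO', rfl⟩, b⟩
      change (ch O').τ.Par.ncard = W at b
      obtain ⟨O, hO, ⟨h, e⟩ | ⟨h, g, hg, e⟩⟩ := h4 O' hO'
      · rw [e] at b
        refine ⟨(s.ch O).ty, ⟨⟨⟨O, hO, rfl⟩, le_antisymm (hW O hO)
          (b ▸ Typ.ncard_par_keep (hfin O hO))⟩, fun e' => h ?_⟩, (congrArg Ch.ty e).symm⟩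
        have : ∀ t t' : Σ r, Typ s.ι r, t = t' → t'.2.App v → t.2.App v := by
          rintro _ _ rfl h; exact h
        exact this _ _ e' hv.2
      · rw [e] at b
        have := (Typ.ncard_par_star (hfin O hO) ⟨hv.1, h⟩ hg).trans_le (hW O hO)
        exact absurd b this.ne

end TS

theorem resolve : ResolveStmt k L := by
  intro s S hs hS hm
  obtain ⟨s1, a1, a2, a3⟩ : ∃ s' : TS k L, s'.Good ∧ s.Ref s' ∧ ∀ f ∈ S, s'.Cmp f := by
    induction S, hS using Set.Finite.induction_on with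
    | empty => exact ⟨s, hs, TS.Ref.refl s hs, fun _ h => h.elim⟩
    | @insert f S _ _ ih =>
      obtain ⟨s1, a1, a2, a3⟩ := ih fun g hg => hm g (Set.mem_insert_of_mem _ hg)
      obtain ⟨a, ha⟩ := hm f (Set.mem_insert _ _)
      obtain ⟨a', ha'⟩ := a2.exp f a ha
      obtain ⟨s2, b1, b2, b3⟩ := TS.cmp_one f _ s1 a' a1 ha' le_rfl
      refine ⟨s2, b1, a2.trans b2, ?_⟩
      rintro g (rfl | hg)
      exacts [b3, b2.cmp (a3 g hg)]
  obtain ⟨s2, b1, b2, b3⟩ := TS.free_all _ s1 a1 le_rfl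
  obtain ⟨W, hW⟩ := (b1.fin.image fun t => t.2.Par.ncard).bddAbove
  obtain ⟨s3, c1, c2, c3⟩ := TS.uni_all W _ s2 b1 b3
    (fun O hO => hW ⟨_, ⟨O, hO, rfl⟩, rfl⟩) le_rfl
  exact ⟨s3, c1, (a2.trans b2).trans c2, c3, fun f hf => c2.cmp (b2.cmp (a3 f hf))⟩

lemma linearIndependent_mn {r : ℕ} {z : Fin r → L} (h : AlgebraicIndependent k z) :
    LinearIndependent k (mn z) := by
  have hz := h.ne_zero
  rw [linearIndependent_iff_finset_linearIndependent]
  intro s
  obtain ⟨n, hn⟩ := ((s.finite_toSet.prod Set.finite_univ).image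
    fun p : (Fin r → ℤ) × Fin r => -p.1 p.2).bddAbove
  have h0 : ∀ (c : s) (j : Fin r), 0 ≤ c.1 j + n := fun c j => by
    have : -c.1 j ≤ n := hn ⟨(c.1, j), ⟨c.2, trivial⟩, rfl⟩
    omega
  let φ : s → (Fin r →₀ ℕ) := fun c => Finsupp.equivFunOnFinite.symm fun j => (c.1 j + n).toNat
  have hφ : Function.Injective φ := fun c c' e => Subtype.ext (funext fun j => by
    have : (c.1 j + n).toNat = (c'.1 j + n).toNat := DFunLike.congr_fun e j
    have := h0 c j
    have := h0 c' j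
    omega)
  have h1 := ((algInd_iff z).1 h).comp φ hφ
  refine LinearIndependent.of_comp (LinearMap.mulLeft k (mn z fun _ => n)) ?_
  refine (congrArg (fun v => LinearIndependent k v) (funext fun c => ?_)).mp h1
  simp only [Function.comp_apply, LinearMap.mulLeft_apply]
  rw [← mn_add hz, Finsupp.prod_fintype _ _ (by simp), mn]
  refine Finset.prod_congr rfl fun j _ => ?_
  rw [← zpow_natCast]
  congr 1
  change (((c.1 j + n).toNat : ℕ) : ℤ) = n + c.1 j
  have := h0 c j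
  omega

theorem snc : SncStmt k L := by
  classical
  intro ι _ c O _ hc hU
  have hz := hc.ne
  choose b hb using fun ρ : c.τ.R => hU (Pi.single ρ 1)
  let y : c.τ.R → L := fun ρ => mn c.z (b ρ)
  have hy : ∀ e : c.τ.R → ℤ, mn y e = mn c.z (∑ ρ, e ρ • b ρ) := fun e => by
    rw [mn]
    induction (Finset.univ : Finset c.τ.R) using Finset.cons_induction with
    | empty => simp [mn_zero]
    | cons ρ s _ ih => rw [Finset.prod_cons, Finset.sum_cons, mn_add hz, ih, mn_smul]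
  have hev : ∀ (e : c.τ.R → ℤ) (σ : c.τ.R), c.τ.ev (∑ ρ, e ρ • b ρ) σ = e σ := fun e σ => by
    rw [Typ.ev_sum, Finset.sum_eq_single σ]
    · rw [Typ.ev_smul, hb σ σ σ.2]; simp
    · intro ρ _ hρ
      rw [Typ.ev_smul, hb ρ σ σ.2, Pi.single_eq_of_ne (fun e => hρ (Subtype.ext e.symm)), mul_zero]
    · simp
  have hzy : ∀ e, mn c.z e = mn y fun ρ => c.τ.ev e ρ := fun e => by
    rw [hy]
    congr 1
    refine (sub_eq_zero.1 (hc.ptd _ fun ρ hρ => ?_))
    rw [Typ.ev_sub, hev _ ⟨ρ, hρ⟩, sub_self]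
  have hind : AlgebraicIndependent k y := by
    rw [algInd_iff]
    have := (linearIndependent_mn hc.ind).comp
      (fun e : c.τ.R →₀ ℕ => ∑ ρ, (e ρ : ℤ) • b ρ) fun e e' h => Finsupp.ext fun σ => by
        have := congrArg (fun u => c.τ.ev u σ) h
        simp only [hev] at this
        exact_mod_cast this
    refine (congrArg (fun v => LinearIndependent k v) (funext fun e => ?_)).mp this
    simp only [Function.comp_apply]
    rw [← hy, Finsupp.prod_fintype _ _ (by simp), mn]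
    exact Finset.prod_congr rfl fun ρ _ => zpow_natCast _ _
  have hTA : TA k c.z c.τ = Algebra.adjoin k (Set.range y) := by
    refine le_antisymm (TA_le fun e he => ?_) (Algebra.adjoin_le ?_)
    · rw [hzy]
      refine prod_mem fun ρ _ => ?_
      obtain ⟨n, hn⟩ := Int.eq_ofNat_of_zero_le (he ρ ρ.2)
      simp only [hn, zpow_natCast]
      exact pow_mem (Algebra.subset_adjoin (Set.mem_range_self ρ)) n
    · rintro _ ⟨ρ, rfl⟩
      exact mn_mem_TA fun σ hσ => by rw [hb ρ σ hσ]; exact Pi.single_nonneg.2 zero_le_one σ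
  refine ⟨?_, y, hind, hTA, hzy, fun a => ?_⟩
  · have : Algebra.FormallySmooth k (TA k c.z c.τ) := by
      rw [hTA]; exact .of_equiv hind.aevalEquiv
    exact hc.sf.formallySmooth
  · rw [hy]
    refine sp_eq_of_le (ms_le fun e he => ?_) ((pr_le (mn_mem_ms (S := c.τ.Reg a)
      fun σ hσ => (hev (fun ρ => a ρ) ⟨σ, hσ⟩).ge)).trans (le_sp _ _))
    rw [mem_sp_pr_iff (mn_ne_zero hz _), ← mn_sub hz]
    refine hc.mem fun σ hσ => ?_
    rw [Typ.ev_sub, hev _ ⟨σ, hσ⟩]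
    simpa using he σ hσ

end Pool.Agent.MP_19ffc6_ag.Res.Tor

end MrgPart1

-- ======== part 2: formerly Pool.Agent.MP_19ffc6_ag.Res.Etale
section MrgPart2

/-! Module ETALE of PROJECT RES: a local ring whose maximal ideal is generated by elements of a
normal subring is etale over it; toroidal charts at rational points. -/

namespace Pool.Agent.MP_19ffc6_ag.Res

open Pool.Agent.MP_19ffc6_ag.Wild Pool.Agent.MP_19ffc6_ag.Lci Polynomial Tor

variable {k L : Type} [Field k] [Field L] [Algebra k L]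

/-- Every element of `O` is a constant modulo the ideal generated by `S`. -/
def Par (O : Subalgebra k L) (S : Set L) : Prop :=
  ∀ x ∈ O, ∃ c : k, x - algebraMap k L c ∈ Submodule.span O S

section Par

variable {A D O : Subalgebra k L} {S S' : Set L}

lemma un_algebraMap (O : Subalgebra k L) {c : k} (hc : c ≠ 0) : Un O (algebraMap k L c) :=
  ⟨O.algebraMap_mem c, (_root_.map_ne_zero _).2 hc, by rw [← map_inv₀]; exact O.algebraMap_mem _⟩

lemma Par.mono (h : Par O S) (hS : ∀ s ∈ S, s ∈ Submodule.span O S') : Par O S' :=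
  fun x hx => (h x hx).imp fun _ hc => span_le_span le_rfl hS hc

lemma Par.mem_span (h : Par O S) (hO : Lcl O) (hS : ∀ s ∈ S, s ∈ O ∧ ¬ Un O s) {x : L}
    (hx : x ∈ O) (hu : ¬ Un O x) : x ∈ Submodule.span O S := by
  obtain ⟨c, hc⟩ := h x hx
  by_cases h0 : c = 0
  · simpa [h0] using hc
  · have h1 : x - algebraMap k L c ∈ mx hO :=
      ⟨sub_mem hx (O.algebraMap_mem c), not_un_of_mem_span hO hS hc⟩
    have h2 := sub_mem (show x ∈ mx hO from ⟨hx, hu⟩) h1
    rw [sub_sub_cancel] at h2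
    exact absurd (un_algebraMap O h0) h2.2

/-- The centre of a local ring on a subring. -/
def cen (h : D ≤ O) (hO : Lcl O) : Ideal D where
  carrier := {a | ¬ Un O (a : L)}
  add_mem' := fun {a b} ha hb hab => (hO _ (h a.2) _ (h b.2) hab).elim ha hb
  zero_mem' := fun h0 => h0.2.1 rfl
  smul_mem' := fun c a ha hu => ha (Un.of_mul (h a.2) (h c.2) (by rwa [mul_comm]))

lemma mem_cen {h : D ≤ O} {hO : Lcl O} {a : D} : a ∈ cen h hO ↔ ¬ Un O (a : L) := Iff.rfl

instance cen_isPrime (h : D ≤ O) (hO : Lcl O) : (cen h hO).IsPrime where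
  ne_top' := fun e => by
    have : (1 : D) ∈ cen h hO := by rw [e]; trivial
    exact this (Un.one O)
  mem_or_mem' := fun {a b} hab => by
    by_contra H
    rw [not_or, mem_cen, mem_cen, not_not, not_not] at H
    exact hab (H.1.mul H.2)

lemma cen_isMaximal (h : D ≤ O) (hO : Lcl O)
    (hr : ∀ x ∈ O, ∃ c : k, ¬ Un O (x - algebraMap k L c)) : (cen h hO).IsMaximal := by
  rw [Ideal.isMaximal_iff]
  refine ⟨fun h1 => h1 (Un.one O), fun J a hJ ha haJ => ?_⟩
  obtain ⟨c, hc⟩ := hr a (h a.2)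
  have hc0 : c ≠ 0 := by
    rintro rfl
    exact ha (by simpa [mem_cen] using hc)
  have h3 : a - algebraMap k D c ∈ J := hJ hc
  have h4 : algebraMap k D c ∈ J := by simpa using J.sub_mem haJ h3
  have := J.mul_mem_left (algebraMap k D c⁻¹) h4
  rwa [← map_mul, inv_mul_cancel₀ hc0, map_one] at this

lemma Par.res (h : Par O S) (hO : Lcl O) (hS : ∀ s ∈ S, s ∈ O ∧ ¬ Un O s) :
    ∀ x ∈ O, ∃ c : k, ¬ Un O (x - algebraMap k L c) :=
  fun x hx => (h x hx).imp fun _ hc => not_un_of_mem_span hO hS hc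

lemma aeval_mem (hA : A ≤ O) {η : L} (hη : η ∈ O) (P : A[X]) : aeval η P ∈ O := by
  rw [aeval_eq_sum_range]
  exact sum_mem fun i _ => mul_mem (hA (P.coeff i).2) (pow_mem hη i)

lemma isUnramifiedAt_of (k A : Type) {B : Type} [Field k] [CommRing A] [CommRing B] [Algebra k A]
    [Algebra k B] [Algebra A B] [IsScalarTower k A B] [Algebra.FiniteType A B] (Q : Ideal B)
    [Q.IsMaximal] (h1 : ∀ b : B, ∃ c : k, b - algebraMap k B c ∈ Q)
    (h2 : ∀ a ∈ Q, ∃ u ∉ Q, u * a ∈ (Q.under A).map (algebraMap A B)) :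
    Algebra.IsUnramifiedAt A Q := by
  let p := Q.under A
  let _ := Localization.AtPrime.algebraOfLiesOver p Q
  rw [Algebra.isUnramifiedAt_iff_map_eq A p Q]
  constructor
  · refine ⟨fun y => ?_⟩
    obtain ⟨y, rfl⟩ := Q.bijective_algebraMap_quotient_residueField.2 y
    obtain ⟨a, rfl⟩ := Ideal.Quotient.mk_surjective y
    obtain ⟨c, hc⟩ := h1 a
    have h1 : algebraMap B Q.ResidueField (a - algebraMap k B c) = 0 :=
      Ideal.algebraMap_residueField_eq_zero.2 hc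
    have h2 : algebraMap (B ⧸ Q) Q.ResidueField (Ideal.Quotient.mk Q a) =
        algebraMap p.ResidueField Q.ResidueField
          (algebraMap A p.ResidueField (algebraMap k A c)) := by
      rw [← IsScalarTower.algebraMap_apply A p.ResidueField,
        IsScalarTower.algebraMap_apply A B Q.ResidueField,
        ← IsScalarTower.algebraMap_apply k A B]
      rw [map_sub, sub_eq_zero] at h1
      exact h1
    rw [h2]
    exact isSeparable_algebraMap _
  · rw [← Localization.AtPrime.map_eq_maximalIdeal]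
    refine le_antisymm ?_ ?_
    · rw [IsScalarTower.algebraMap_eq A B, ← Ideal.map_map]
      exact Ideal.map_mono Ideal.map_comap_le
    · rw [Ideal.map_le_iff_le_comap]
      intro a ha
      obtain ⟨u, hu, e⟩ := h2 a ha
      have hun : IsUnit (algebraMap B (Localization.AtPrime Q) u) :=
        IsLocalization.map_units _ (⟨u, hu⟩ : Q.primeCompl)
      rw [Ideal.mem_comap, ← Ideal.unit_mul_mem_iff_mem _ hun, ← map_mul,
        IsScalarTower.algebraMap_eq A B, ← Ideal.map_map]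
      exact Ideal.mem_map_of_mem _ e

lemma mem_sup_adjoin (A : Subalgebra k L) (T : Set L) (x : L) :
    x ∈ A ⊔ Algebra.adjoin k T ↔ x ∈ Algebra.adjoin A T := by
  have := Algebra.restrictScalars_adjoin k A T
  rw [Algebra.adjoin_union, Algebra.adjoin_eq] at this
  rw [← this]
  exact Subalgebra.mem_restrictScalars k

/-- The local structure of unramified extensions. -/
theorem exists_eta (hD : D.FG) (hP : IsPoint D O) (hA : A ≤ O)
    (hS : ∀ s ∈ S, s ∈ A ∧ ¬ Un O s) (h : Par O S) :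
    ∃ (η : L) (P : A[X]), η ∈ O ∧ P.Monic ∧ aeval η P = 0 ∧ Un O (aeval η (derivative P)) ∧
      ∀ x ∈ O, ∃ U G : A[X], Un O (aeval η U) ∧ x = aeval η G / aeval η U := by
  let B : Subalgebra k L := D ⊔ A
  have hB : B ≤ O := sup_le hP.le hA
  have hAB : A ≤ B := le_sup_right
  have hS' : ∀ s ∈ S, s ∈ O ∧ ¬ Un O s := fun s hs => ⟨hA (hS s hs).1, (hS s hs).2⟩
  let _ : Algebra A B := (Subalgebra.inclusion hAB).toRingHom.toAlgebra
  have : IsScalarTower A B L := .of_algebraMap_eq fun _ => rfl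
  have : IsScalarTower k A B := .of_algebraMap_eq fun _ => rfl
  have : Algebra.FiniteType A B := by
    obtain ⟨T, hT⟩ := hD
    let j : B →ₐ[A] L := IsScalarTower.toAlgHom A B L
    have hj : Function.Injective j := Subtype.val_injective
    refine ⟨Subalgebra.fg_of_fg_map _ j hj ⟨T, ?_⟩⟩
    rw [Algebra.map_top]
    refine le_antisymm (Algebra.adjoin_le fun x hx => ⟨⟨x, (le_sup_left : D ≤ B)
      (hT ▸ Algebra.subset_adjoin hx)⟩, rfl⟩) ?_
    rintro _ ⟨x, rfl⟩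
    refine (mem_sup_adjoin A _ _).1 ?_
    rw [hT, sup_comm]
    exact x.2
  let Q := cen hB hP.lcl
  have : Q.IsMaximal := cen_isMaximal hB hP.lcl (h.res hP.lcl hS')
  let p := Q.under A
  have key : ∀ y ∈ Submodule.span O S, ∃ u : B, Un O (u : L) ∧
      ∃ b ∈ p.map (algebraMap A B), (u : L) * y = b := by
    intro y hy
    induction hy using Submodule.span_induction with
    | mem s hs =>
      exact ⟨1, Un.one O, _, Ideal.mem_map_of_mem _
        (show (⟨s, (hS s hs).1⟩ : A) ∈ p from (hS s hs).2), one_mul _⟩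
    | zero => exact ⟨1, Un.one O, 0, zero_mem _, mul_zero _⟩
    | add y y' _ _ hy hy' =>
      obtain ⟨u, hu, b, hb, e⟩ := hy
      obtain ⟨u', hu', b', hb', e'⟩ := hy'
      refine ⟨u * u', hu.mul hu', u' * b + u * b',
        add_mem (Ideal.mul_mem_left _ _ hb) (Ideal.mul_mem_left _ _ hb'), ?_⟩
      push_cast
      rw [← e, ← e']; ring
    | smul o y _ hy =>
      obtain ⟨u, hu, b, hb, e⟩ := hy
      obtain ⟨d, hd, d', hd', hu', e'⟩ := hP.le_loc o.2
      refine ⟨u * ⟨d', (le_sup_left : D ≤ B) hd'⟩, hu.mul hu',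
        ⟨d, (le_sup_left : D ≤ B) hd⟩ * b, Ideal.mul_mem_left _ _ hb, ?_⟩
      change (u : L) * d' * ((o : L) * y) = d * b
      rw [← e, e']
      have := hu'.2.1
      field_simp
  have : Algebra.IsUnramifiedAt A Q := isUnramifiedAt_of k A Q
    (fun a => h.res hP.lcl hS' a (hB a.2)) fun a ha => by
      obtain ⟨u, hu, b, hb, e⟩ := key a (h.mem_span hP.lcl hS' (hB a.2) ha)
      exact ⟨u, fun h => h hu, (show u * a = b from Subtype.ext e) ▸ hb⟩
  obtain ⟨f, hf, P, φ, hφ⟩ := Algebra.IsUnramifiedAt.exists_hasStandardEtaleSurjectionOn (R := A) Q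
  have hf1 : Un O (f : L) := not_not.1 hf
  let j : B →ₐ[A] L := IsScalarTower.toAlgHom A B L
  have hfu : IsUnit (j f) := IsUnit.mk0 _ hf1.2.1
  let ψ : Localization.Away f →ₐ[A] L := IsLocalization.Away.liftAlgHom f (f := j) hfu
  have hψ : ∀ a : B, ψ (algebraMap B _ a) = a := fun a =>
    IsLocalization.Away.lift_eq f (g := j.toRingHom) hfu a
  have hle : ∀ y, ψ y ∈ O := by
    intro y
    obtain ⟨⟨a, _, n, rfl⟩, e⟩ := IsLocalization.surj (Submonoid.powers f) y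
    have h1 := congrArg ψ e
    simp only [map_mul, hψ, SubmonoidClass.coe_pow] at h1
    rw [eq_div_of_mul_eq (pow_ne_zero n hf1.2.1) h1, div_eq_mul_inv]
    exact mul_mem (hB a.2) (hf1.pow n).2.2
  have hun : ∀ y, IsUnit y → Un O (ψ y) := by
    intro y hy
    obtain ⟨y', e⟩ := hy.exists_right_inv
    refine Un.of_mul (hle y) (hle y') ?_
    rw [← map_mul, e, map_one]
    exact Un.one O
  have hev : ∀ g : A[X], aeval (ψ (φ P.X)) g = ψ (φ (aeval P.X g)) := fun g => by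
    rw [← aeval_algHom_apply, ← aeval_algHom_apply]
  have hX := P.hasMap_X
  have hBx : ∀ a ∈ B, ∃ U G : A[X], Un O (aeval (ψ (φ P.X)) U) ∧
      a = aeval (ψ (φ P.X)) G / aeval (ψ (φ P.X)) U := by
    intro a ha
    obtain ⟨y, hy⟩ := hφ (algebraMap B _ ⟨a, ha⟩)
    let P' : StandardEtalePresentation A P.Ring :=
      ⟨P, P.X, hX, by rw [P.lift_X_left]; exact Function.bijective_id⟩
    obtain ⟨g, n, e⟩ := P'.exists_mul_aeval_x_g_pow_eq_aeval_x y
    have h1 : Un O (aeval (ψ (φ P.X)) (P.g ^ n)) := by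
      rw [hev, map_pow]
      exact hun _ ((hX.2.pow n).map φ)
    refine ⟨P.g ^ n, g, h1, eq_div_of_mul_eq h1.2.1 ?_⟩
    have e' : y * aeval P.X P.g ^ n = aeval P.X g := e
    rw [hev, hev, ← e', map_mul, map_mul, hy, hψ, map_pow (aeval P.X)]
  refine ⟨ψ (φ P.X), P.f, hle _, P.monic_f, ?_, ?_, fun x hx => ?_⟩
  · rw [hev, hX.1, map_zero, map_zero]
  · rw [hev]
    exact hun _ (hX.isUnit_derivative_f.map φ)
  · obtain ⟨a, ha, b, hb, hu, rfl⟩ := hP.le_loc hx
    obtain ⟨U, G, h1, rfl⟩ := hBx a ((le_sup_left : D ≤ B) ha)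
    obtain ⟨U', G', h2, rfl⟩ := hBx b ((le_sup_left : D ≤ B) hb)
    have h3 := hu.mul h2
    rw [div_mul_cancel₀ _ h2.2.1] at h3
    refine ⟨U * G', G * U', by rw [map_mul]; exact h1.mul h3, ?_⟩
    rw [map_mul, map_mul]
    have := h1.2.1; have := h2.2.1; have := h3.2.1
    field_simp

lemma sf_of_range {E : Subalgebra k L} (h : A ≤ E) {R : Type} [CommRing R] [Algebra A R]
    [Algebra.FormallySmooth A R] [Module.Flat A R] (φ : R →ₐ[A] L) (hφ : Function.Injective φ)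
    (hr : ∀ x, x ∈ E ↔ x ∈ φ.range) : SF A E := by
  let _ : Algebra A E := (Subalgebra.inclusion h).toRingHom.toAlgebra
  let ψ : R →ₐ[A] E :=
    { φ.toRingHom.codRestrict E fun r => (hr _).2 ⟨r, rfl⟩ with
      commutes' := fun a => Subtype.ext (φ.commutes a) }
  have hψ : Function.Bijective ψ := ⟨fun x y e => hφ (congrArg Subtype.val e), fun x => by
    obtain ⟨r, e⟩ := (hr x).1 x.2
    exact ⟨r, Subtype.ext e⟩⟩
  let e := AlgEquiv.ofBijective ψ hψ
  exact ⟨h, Algebra.FormallySmooth.of_equiv e, Module.Flat.of_linearEquiv e.symm.toLinearEquiv⟩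

/-- The etale criterion: unramified over a normal subring implies formally smooth and flat. -/
theorem sf_of_par (hD : D.FG) (hP : IsPoint D O) (hA : A ≤ O) [IsIntegrallyClosed A]
    (hS : ∀ s ∈ S, s ∈ A ∧ ¬ Un O s) (h : Par O S) : SF A O := by
  obtain ⟨η, P, hη, hm, h0, h1, h2⟩ := exists_eta hD hP hA hS h
  have hi : IsIntegral A η := ⟨P, hm, h0⟩
  obtain ⟨q, hq⟩ := minpoly.isIntegrallyClosed_dvd hi h0
  have h3 : Un O (aeval η (derivative (minpoly A η))) := by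
    rw [hq, derivative_mul, map_add, map_mul, map_mul, minpoly.aeval, zero_mul, add_zero] at h1
    exact Un.of_mul (aeval_mem hA hη _) (aeval_mem hA hη _) h1
  let P' : StandardEtalePair A := ⟨minpoly A η, minpoly.monic hi, derivative (minpoly A η),
    1, 0, 1, by simp⟩
  have hm' : P'.HasMap η := ⟨minpoly.aeval A η, IsUnit.mk0 _ h3.2.1⟩
  let φ := P'.lift η hm'
  have hev : ∀ g : A[X], φ (aeval P'.X g) = aeval η g := fun g => by
    rw [← aeval_algHom_apply, StandardEtalePair.lift_X]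
  let P'' : StandardEtalePresentation A P'.Ring :=
    ⟨P', P'.X, P'.hasMap_X, by rw [P'.lift_X_left]; exact Function.bijective_id⟩
  have hφ : Function.Injective φ := by
    rw [injective_iff_map_eq_zero]
    intro y hy
    obtain ⟨g, n, e⟩ := P''.exists_mul_aeval_x_g_pow_eq_aeval_x y
    have e' : y * aeval P'.X P'.g ^ n = aeval P'.X g := e
    have h4 : aeval η g = 0 := by rw [← hev, ← e', map_mul, hy, zero_mul]
    obtain ⟨q', hq'⟩ := minpoly.isIntegrallyClosed_dvd hi h4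
    rw [hq', map_mul, show aeval P'.X (minpoly A η) = 0 from P'.hasMap_X.1, zero_mul] at e'
    exact (P'.hasMap_X.2.pow n).mul_left_eq_zero.1 e'
  let E : Subalgebra k L := φ.range.restrictScalars k
  have hE : E ≤ O := by
    rintro _ ⟨y, rfl⟩
    obtain ⟨g, n, e⟩ := P''.exists_mul_aeval_x_g_pow_eq_aeval_x y
    have e' : y * aeval P'.X P'.g ^ n = aeval P'.X g := e
    have h4 := congrArg φ e'
    rw [map_mul, map_pow, hev, hev] at h4
    change φ y ∈ O
    rw [eq_div_of_mul_eq (h3.pow n).2.1 h4, div_eq_mul_inv]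
    exact mul_mem (aeval_mem hA hη _) (h3.pow n).2.2
  have hAE : A ≤ E := fun a ha => ⟨algebraMap A _ ⟨a, ha⟩, φ.commutes _⟩
  refine (sf_of_range hAE φ hφ fun _ => Iff.rfl).trans (sf_of_le_loc hE fun x hx => ?_)
  obtain ⟨U, G, h4, rfl⟩ := h2 x hx
  exact ⟨_, ⟨_, hev G⟩, _, ⟨_, hev U⟩, h4, rfl⟩

/-- An unramified local ring is algebraic over the subring. -/
theorem isAlgebraic_of_par (hD : D.FG) (hP : IsPoint D O) (hA : A ≤ O)
    (hS : ∀ s ∈ S, s ∈ A ∧ ¬ Un O s) (h : Par O S) {x : L} (hx : x ∈ O) : IsAlgebraic A x := by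
  obtain ⟨η, P, hη, hm, h0, -, h2⟩ := exists_eta hD hP hA hS h
  have hi : IsIntegral A η := ⟨P, hm, h0⟩
  have h3 : ∀ g : A[X], IsAlgebraic A (aeval η g) := fun g =>
    (IsIntegral.of_mem_of_fg _ hi.fg_adjoin_singleton _ (aeval_mem_adjoin_singleton A η)).isAlgebraic
  obtain ⟨U, G, -, rfl⟩ := h2 x hx
  rw [div_eq_mul_inv]
  exact (h3 G).mul (h3 U).inv

end Par

section Normal

variable {A B : Subalgebra k L}

lemma mem_of_integral [IsIntegrallyClosed B] {z q : L} (hq : q ∈ B) (hq0 : q ≠ 0)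
    (hp : q * z ∈ B) (hz : IsIntegral B z) : z ∈ B := by
  let _ := FractionRing.liftAlgebra B L
  have := FractionRing.isScalarTower_liftAlgebra B L
  let w : FractionRing B := algebraMap B _ ⟨_, hp⟩ / algebraMap B _ ⟨q, hq⟩
  have hw : algebraMap _ L w = z := by
    rw [map_div₀, ← IsScalarTower.algebraMap_apply, ← IsScalarTower.algebraMap_apply]
    exact mul_div_cancel_left₀ z hq0
  rw [← hw, isIntegral_algebraMap_iff (algebraMap (FractionRing B) L).injective] at hz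
  obtain ⟨y, hy⟩ := IsIntegrallyClosed.isIntegral_iff.1 hz
  rw [← hw, ← hy, ← IsScalarTower.algebraMap_apply]
  exact y.2

lemma normal_of_mem (h : ∀ z q : L, q ∈ A → q ≠ 0 → q * z ∈ A → IsIntegral A z → z ∈ A) :
    IsIntegrallyClosed A := by
  let _ := FractionRing.liftAlgebra A L
  have := FractionRing.isScalarTower_liftAlgebra A L
  refine (isIntegrallyClosed_iff (FractionRing A)).2 fun {w} hw => ?_
  obtain ⟨p, q, hq, rfl⟩ := IsFractionRing.div_surjective (A := A) w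
  have hq0 : (q : L) ≠ 0 := fun e => nonZeroDivisors.ne_zero hq (Subtype.ext e)
  have e : algebraMap _ L (algebraMap A (FractionRing A) p / algebraMap A _ q) = p / q := by
    rw [map_div₀, ← IsScalarTower.algebraMap_apply, ← IsScalarTower.algebraMap_apply]; rfl
  have h1 := h (p / q) q q.2 hq0 (by rw [mul_div_cancel₀ _ hq0]; exact p.2)
    (e ▸ hw.map (IsScalarTower.toAlgHom A _ L))
  refine ⟨⟨_, h1⟩, (algebraMap (FractionRing A) L).injective ?_⟩
  rw [e, ← IsScalarTower.algebraMap_apply]; rfl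

lemma normal_of_le_loc [IsIntegrallyClosed A] (h : A ≤ B) (h' : B ≤ loc A B) :
    IsIntegrallyClosed B := by
  let _ := (Subalgebra.inclusion h).toRingHom.toAlgebra
  have := isLocalization_of_le_loc h h'
  exact isIntegrallyClosed_of_isLocalization B (unMonoid A B) fun b hb =>
    mem_nonZeroDivisors_of_ne_zero fun e => hb.2.1 (by rw [e]; rfl)

/-- Independence from a count of the transcendence degree. -/
lemma indep {σ σ' : Type} [Finite σ] (x : σ → L) {y : σ' → L} (hy : AlgebraicIndependent k y)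
    (hc : Cardinal.mk σ ≤ Cardinal.mk σ')
    (h : ∀ i, IsAlgebraic (Algebra.adjoin k (Set.range x)) (y i)) : AlgebraicIndependent k x := by
  let C := (Subalgebra.algebraicClosure (Algebra.adjoin k (Set.range x)) L).restrictScalars k
  let x' : σ → C := fun i => ⟨x i, isAlgebraic_algebraMap
    (⟨x i, Algebra.subset_adjoin ⟨i, rfl⟩⟩ : Algebra.adjoin k (Set.range x))⟩
  have e : (Algebra.adjoin k (Set.range x')).map C.val = Algebra.adjoin k (Set.range x) := by
    rw [AlgHom.map_adjoin, ← Set.range_comp]; rfl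
  let f : Algebra.adjoin k (Set.range x') →+* Algebra.adjoin k (Set.range x) :=
    (C.val.toRingHom.comp (Algebra.adjoin k (Set.range x')).val.toRingHom).codRestrict _
      fun z => e ▸ ⟨z, z.2, rfl⟩
  have hf : Function.Surjective f := fun z => by
    obtain ⟨w, hw, h1⟩ : (z : L) ∈ (Algebra.adjoin k (Set.range x')).map C.val := by
      rw [e]; exact z.2
    exact ⟨⟨w, hw⟩, Subtype.ext h1⟩
  have : Algebra.IsAlgebraic (Algebra.adjoin k (Set.range x')) C := ⟨fun z =>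
    IsAlgebraic.of_ringHom_of_comp_eq f C.val.toRingHom z.2 hf Subtype.val_injective
      (RingHom.ext fun _ => rfl)⟩
  have h1 : AlgebraicIndependent k (fun i => (⟨y i, h i⟩ : C)) := .of_comp C.val hy
  exact (Algebra.IsAlgebraic.isTranscendenceBasis_of_le_trdeg_of_finite k x'
    (hc.trans h1.cardinalMk_le_trdeg)).1.map' (f := C.val) Subtype.val_injective

lemma normal_mvPolynomial (σ R : Type) [Finite σ] [CommRing R] [IsDomain R]
    [IsIntegrallyClosed R] : IsIntegrallyClosed (MvPolynomial σ R) := by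
  induction σ using Finite.induction_empty_option with
  | of_equiv e ih => exact .of_equiv (MvPolynomial.renameEquiv R e).toRingEquiv
  | h_empty => exact .of_equiv (MvPolynomial.isEmptyRingEquiv R PEmpty).symm
  | h_option ih => exact .of_equiv (MvPolynomial.optionEquivLeft R _).symm.toRingEquiv

variable {κ : Type} [Fintype κ] {z : κ → L}

lemma mn_natCast (z : κ → L) (c : κ → ℕ) : mn z (fun i => c i) = ∏ i, z i ^ c i := by simp [mn]

lemma mn_mem_adjoin (z : κ → L) {c : κ → ℤ} (hc : 0 ≤ c) :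
    mn z c ∈ Algebra.adjoin k (Set.range z) := by
  refine prod_mem fun i _ => ?_
  obtain ⟨n, hn⟩ := Int.eq_ofNat_of_zero_le (hc i)
  rw [hn, zpow_natCast]
  exact pow_mem (Algebra.subset_adjoin (Set.mem_range_self i)) n

lemma mn_eq_div (hz : ∀ i, z i ≠ 0) (c : κ → ℤ) : mn z c = mn z c⁺ / mn z c⁻ := by
  rw [← mn_sub hz, posPart_sub_negPart]

lemma li_mn (hz : AlgebraicIndependent k z) : LinearIndependent k (mn z) := by
  classical
  have h0 : ∀ i, z i ≠ 0 := hz.ne_zero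
  rw [linearIndependent_iff_finset_linearIndependent]
  intro s
  let N : κ → ℤ := ∑ c ∈ s, c⁻
  have hN : ∀ c ∈ s, 0 ≤ c + N := fun c hc => by
    have h1 : c⁻ ≤ N := Finset.single_le_sum (f := fun c : κ → ℤ => c⁻)
      (fun c _ => negPart_nonneg c) hc
    have h2 := neg_le_negPart c
    intro i
    have := h1 i; have := h2 i
    simp only [Pi.add_apply, Pi.neg_apply, Pi.zero_apply] at *
    omega
  let φ : s → κ →₀ ℕ := fun c => Finsupp.equivFunOnFinite.symm fun i => ((c.1 + N) i).toNat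
  have hφ : ∀ (c : s) (i : κ), (φ c i : ℤ) = (c.1 + N) i := fun c i =>
    Int.toNat_of_nonneg (hN c c.2 i)
  have h1 := ((algInd_iff z).1 hz).comp φ fun c c' e => Subtype.ext (funext fun i => by
    have h2 := hφ c i
    rw [e, hφ] at h2
    exact add_right_cancel h2.symm)
  have h2 := h1.map' (LinearMap.mulRight k (mn z N)⁻¹)
    (LinearMap.ker_eq_bot.2 (mul_left_injective₀ (inv_ne_zero (mn_ne_zero h0 N))))
  have h3 : (mn z ∘ (Subtype.val : s → κ → ℤ)) = (LinearMap.mulRight k (mn z N)⁻¹) ∘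
      (fun s : κ →₀ ℕ => s.prod fun i e => z i ^ e) ∘ φ := by
    funext c
    simp only [Function.comp_apply, LinearMap.mulRight_apply]
    rw [Finsupp.prod_fintype _ _ (by simp), ← mn_natCast, funext (hφ c), mn_add h0,
      mul_inv_cancel_right₀ (mn_ne_zero h0 N)]
  rwa [h3]

/-- The character of the lattice with values in `L`. -/
noncomputable def mnHom (hz : ∀ i, z i ≠ 0) : Multiplicative (κ → ℤ) →* L where
  toFun c := mn z c.toAdd
  map_one' := mn_zero z
  map_mul' _ _ := mn_add hz _ _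

/-- A Laurent polynomial that is integral over a ring generated by monomials on which an additive
form is nonnegative has its support in the half space. -/
lemma support_nonneg (hz : AlgebraicIndependent k z) (ℓ : (κ → ℤ) →+ ℤ) {P : Set (κ → ℤ)}
    (hP : ∀ c ∈ P, 0 ≤ ℓ c) (f : AddMonoidAlgebra k (κ → ℤ))
    (hf : IsIntegral (Algebra.adjoin k (mn z '' P))
      (AddMonoidAlgebra.lift k L _ (mnHom hz.ne_zero) f)) : ∀ c ∈ f.coeff.support, 0 ≤ ℓ c := by
  classical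
  let ev := AddMonoidAlgebra.lift k L _ (mnHom hz.ne_zero)
  have hev : ∀ f, ev f = Finsupp.linearCombination k (mn z) f.coeff := fun f =>
    AddMonoidAlgebra.lift_apply _ _
  have hinj : Function.Injective ev := fun f g e => by
    rw [hev, hev] at e
    exact AddMonoidAlgebra.coeff_injective (li_mn hz e)
  let T : Multiplicative (κ → ℤ) →* HahnSeries ℤ L :=
    { toFun := fun c => HahnSeries.single (ℓ c.toAdd) (mn z c.toAdd)
      map_one' := by simp [mn_zero]
      map_mul' := fun c c' => by simp [HahnSeries.single_mul_single, mn_add hz.ne_zero] }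
  let θ : AddMonoidAlgebra k (κ → ℤ) →+* HahnSeries ℤ L := AddMonoidAlgebra.liftNCRingHom
    (HahnSeries.C.comp (algebraMap k L)) T fun _ _ => .all _ _
  have hθ : ∀ c a, θ (.single c a) = HahnSeries.single (ℓ c) (a • mn z c) := fun c a => by
    simp [θ, T, HahnSeries.C_apply, HahnSeries.single_mul_single, Algebra.smul_def]
  let θ' : ev.range →+* HahnSeries ℤ L :=
    θ.comp (AlgEquiv.ofInjective ev hinj).symm.toRingEquiv.toRingHom
  have hθ' : ∀ f, θ' ⟨ev f, f, rfl⟩ = θ f := fun f =>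
    congrArg θ ((AlgEquiv.ofInjective ev hinj).symm_apply_apply f)
  let v := AddValuation.toValuation (HahnSeries.addVal ℤ L)
  have hv : ∀ y, y ∈ v.integer ↔ 0 ≤ y.orderTop := fun y => Iff.rfl
  let A := Algebra.adjoin k (mn z '' P)
  have hA : ∀ a ∈ A, ∃ f, ev f = a ∧ θ f ∈ v.integer := by
    intro a ha
    induction ha using Algebra.adjoin_induction with
    | mem _ hx =>
      obtain ⟨c, hc, rfl⟩ := hx
      refine ⟨.single c 1, by simp [ev, mnHom], ?_⟩
      rw [hθ, hv]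
      exact le_trans (WithTop.coe_le_coe.2 (hP c hc)) HahnSeries.orderTop_single_le
    | algebraMap a =>
      refine ⟨.single 0 a, by simp [ev, mnHom, mn_zero, Algebra.smul_def], ?_⟩
      rw [hθ, hv, map_zero]
      exact HahnSeries.orderTop_single_le (a := (0 : ℤ))
    | add _ _ _ _ ha hb =>
      obtain ⟨f, rfl, hf⟩ := ha
      obtain ⟨g, rfl, hg⟩ := hb
      exact ⟨f + g, map_add _ _ _, by rw [map_add]; exact add_mem hf hg⟩
    | mul _ _ _ _ ha hb =>
      obtain ⟨f, rfl, hf⟩ := ha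
      obtain ⟨g, rfl, hg⟩ := hb
      exact ⟨f * g, map_mul _ _ _, by rw [map_mul]; exact mul_mem hf hg⟩
  have hA' : A ≤ ev.range := fun a ha => (hA a ha).imp fun _ h => h.1
  let _ : Algebra A ev.range := (Subalgebra.inclusion hA').toRingHom.toAlgebra
  have : IsScalarTower A ev.range L := .of_algebraMap_eq fun _ => rfl
  have h1 : IsIntegral A (⟨ev f, f, rfl⟩ : ev.range) :=
    (isIntegral_algebraMap_iff (B := L) Subtype.val_injective).1 hf
  let φ : A →+* v.integer := (θ'.comp (algebraMap A ev.range)).codRestrict _ fun a => by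
    obtain ⟨g, e, hg⟩ := hA a a.2
    have : algebraMap A ev.range a = ⟨ev g, g, rfl⟩ := Subtype.ext e.symm
    rwa [RingHom.comp_apply, this, hθ']
  have h2 := (Valuation.integer.integers v).mem_of_integral
    (h1.map_of_comp_eq φ θ' (RingHom.ext fun _ => rfl))
  have h3 : 0 ≤ (θ f).orderTop := hθ' f ▸ (hv _).1 h2
  intro c hc
  by_contra H
  have h4 := HahnSeries.coeff_eq_zero_of_lt_orderTop
    (lt_of_lt_of_le (WithTop.coe_lt_coe.2 (not_le.1 H)) h3)
  have h5 : (θ f).coeff (ℓ c) =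
      ∑ c' ∈ f.coeff.support, (if ℓ c = ℓ c' then f.coeff c' else 0) • mn z c' := by
    conv_lhs => rw [← AddMonoidAlgebra.sum_coeff_single f, Finsupp.sum, map_sum]
    rw [HahnSeries.coeff_sum]
    refine Finset.sum_congr rfl fun c' _ => ?_
    rw [hθ, HahnSeries.coeff_single]
    split_ifs <;> simp
  have hli : LinearIndependent k (mn z) := li_mn hz
  rw [linearIndependent_iff'] at hli
  have h6 := hli _ _ (h5.symm.trans h4) c hc
  rw [if_pos rfl] at h6
  exact Finsupp.mem_support_iff.1 hc h6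

lemma normal_laurent (hz : AlgebraicIndependent k z) :
    IsIntegrallyClosed (Algebra.adjoin k (Set.range (mn z))) := by
  classical
  have h0 : ∀ i, z i ≠ 0 := hz.ne_zero
  have : IsIntegrallyClosed (Algebra.adjoin k (Set.range z)) :=
    .of_equiv hz.aevalEquiv.toRingEquiv
  have h1 : Algebra.adjoin k (Set.range z) ≤ Algebra.adjoin k (Set.range (mn z)) :=
    Algebra.adjoin_mono (by
      rintro _ ⟨i, rfl⟩
      exact ⟨Pi.single i 1, by rw [mn_single, zpow_one]⟩)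
  refine normal_of_le_loc h1 (Algebra.adjoin_le ?_)
  rintro _ ⟨c, rfl⟩
  exact ⟨_, mn_mem_adjoin z (posPart_nonneg c), _, mn_mem_adjoin z (negPart_nonneg c),
    ⟨Algebra.subset_adjoin ⟨_, rfl⟩, mn_ne_zero h0 _, Algebra.subset_adjoin ⟨_, mn_neg z _⟩⟩,
    mn_eq_div h0 c⟩

variable {ι : Type} {r : ℕ}

/-- The algebra of a cone is normal. -/
theorem normal_TA {z : Fin r → L} (hz : AlgebraicIndependent k z) (τ : Typ ι r) :
    IsIntegrallyClosed (TA k z τ) := by
  have := normal_laurent hz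
  have h1 : TA k z τ ≤ Algebra.adjoin k (Set.range (mn z)) :=
    Algebra.adjoin_mono (Set.image_subset_range _ _)
  refine normal_of_mem fun x q hq hq0 hqx hx => ?_
  have h2 := mem_of_integral (h1 hq) hq0 (h1 hqx) (isIntegral_mono h1 hx)
  let ev := AddMonoidAlgebra.lift k L _ (mnHom hz.ne_zero)
  have h3 : Algebra.adjoin k (Set.range (mn z)) ≤ ev.range := Algebra.adjoin_le (by
    rintro _ ⟨c, rfl⟩
    exact ⟨.single c 1, by simp [ev, mnHom]⟩)
  obtain ⟨f, rfl⟩ := h3 h2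
  change AddMonoidAlgebra.lift k L _ (mnHom hz.ne_zero) f ∈ _
  rw [AddMonoidAlgebra.lift_apply]
  refine sum_mem fun c hc => Subalgebra.smul_mem _
    (Algebra.subset_adjoin (Set.mem_image_of_mem (mn z) fun ρ hρ => ?_)) _
  exact support_nonneg hz ⟨⟨fun c => τ.ev c ρ, Typ.ev_zero ρ⟩, fun c c' => Typ.ev_add c c' ρ⟩
    (P := τ.Reg 0) (fun c hc => hc ρ hρ) f hx c hc

lemma TA_le_field (z : Fin r → L) (τ : Typ ι r) :
    TA k z τ ≤ (IntermediateField.adjoin k (Set.range z)).toSubalgebra := by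
  refine Algebra.adjoin_le ?_
  rintro _ ⟨c, -, rfl⟩
  exact prod_mem fun i _ => 
    zpow_mem (IntermediateField.subset_adjoin k _ (Set.mem_range_self i)) _

omit [Fintype κ] in
/-- A polynomial extension of a subalgebra of `k(z)`. -/
lemma sf_poly {σ : Type} [Finite σ] {t : σ → L} (h : AlgebraicIndependent k (Sum.elim z t))
    (hA : A ≤ (IntermediateField.adjoin k (Set.range z)).toSubalgebra) [IsIntegrallyClosed A] :
    SF A (A ⊔ Algebra.adjoin k (Set.range t)) ∧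
      IsIntegrallyClosed ↥(A ⊔ Algebra.adjoin k (Set.range t)) := by
  have h1 : AlgebraicIndependent k (Sum.elim t z) := by
    have := h.comp Sum.swap Sum.swap_leftInverse.injective
    rwa [show Sum.elim z t ∘ Sum.swap = Sum.elim t z from funext fun i => by cases i <;> rfl]
      at this
  have h2 := IntermediateField.algebraicIndependent_adjoin_iff.2
    (AlgebraicIndependent.sumElim_iff.1 h1).2
  let _ : Algebra A (IntermediateField.adjoin k (Set.range z)) :=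
    (Subalgebra.inclusion hA).toRingHom.toAlgebra
  have : IsScalarTower A (IntermediateField.adjoin k (Set.range z)) L :=
    .of_algebraMap_eq fun _ => rfl
  have h3 : AlgebraicIndependent A t := h2.restrictScalars (Subalgebra.inclusion_injective hA)
  have h4 := mem_sup_adjoin A (Set.range t)
  refine ⟨sf_of_range le_sup_left (MvPolynomial.aeval t) h3 fun x => ?_, ?_⟩
  · rw [h4, Algebra.adjoin_range_eq_range_aeval]
  · have := normal_mvPolynomial σ A
    have : IsIntegrallyClosed (Algebra.adjoin A (Set.range t)) :=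
      .of_equiv h3.aevalEquiv.toRingEquiv
    exact .of_equiv (R := Algebra.adjoin A (Set.range t))
      (RingEquiv.subringCongr (s := (Algebra.adjoin A (Set.range t)).toSubring)
        (t := (A ⊔ Algebra.adjoin k (Set.range t)).toSubring) (Subring.ext fun x => (h4 x).symm))

variable {D O : Subalgebra k L} {S : Set L}

/-- A local ring that is unramified over a normal subring is normal. -/
theorem normal_of_par (hD : D.FG) (hP : IsPoint D O) (hA : A ≤ O) [IsIntegrallyClosed A]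
    (hS : ∀ s ∈ S, s ∈ A ∧ ¬ Un O s) (h : Par O S) : IsIntegrallyClosed O := by
  obtain ⟨η, P, hη, hm, h0, h1, h2⟩ := exists_eta hD hP hA hS h
  have hi : IsIntegral A η := ⟨P, hm, h0⟩
  obtain ⟨q, hq⟩ := minpoly.isIntegrallyClosed_dvd hi h0
  have h3 : Un O (aeval η (derivative (minpoly A η))) := by
    rw [hq, derivative_mul, map_add, map_mul, map_mul, minpoly.aeval, zero_mul, add_zero] at h1
    exact Un.of_mul (aeval_mem hA hη _) (aeval_mem hA hη _) h1
  let E : Subalgebra k L := (Algebra.adjoin A {η}).restrictScalars k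
  have hE : E ≤ O := fun x hx => by
    obtain ⟨g, rfl⟩ := Algebra.adjoin_mem_exists_aeval A η hx
    exact aeval_mem hA hη g
  have hE' : IsPoint E O := ⟨hE, hP.lcl, fun x hx => by
    obtain ⟨U, G, h4, rfl⟩ := h2 x hx
    exact ⟨_, aeval_mem_adjoin_singleton A η, _, aeval_mem_adjoin_singleton A η, h4, rfl⟩⟩
  let F := FractionRing A
  let _ := FractionRing.liftAlgebra A L
  have := FractionRing.isScalarTower_liftAlgebra A L
  let B : IntermediateField F L := IntermediateField.adjoin F {η}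
  have hF : IsIntegral F η := hi.tower_top
  let η' : B := IntermediateField.AdjoinSimple.gen F η
  have hOB : ∀ x ∈ O, x ∈ B := fun x hx => by
    obtain ⟨U, G, -, rfl⟩ := h2 x hx
    have : ∀ g : A[X], aeval η g ∈ B := fun g => by
      rw [← aeval_map_algebraMap F]
      exact IntermediateField.algebra_adjoin_le_adjoin F _ (aeval_mem_adjoin_singleton F η)
    exact div_mem (this _) (this _)
  refine normal_of_mem fun x q hq hq0 hqx hx => ?_
  obtain ⟨s, hs, hu, hsx⟩ := (IsPoint.isIntegral_iff hE').1 hx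
  have h4 : IsIntegral A (s * x) := by
    have : Algebra.IsIntegral A (Algebra.adjoin A {η}) :=
      Algebra.IsIntegral.adjoin (by simpa using hi)
    have hsx' : IsIntegral (Algebra.adjoin A {η}) (s * x) := hsx
    exact isIntegral_trans _ hsx'
  have h5 : s * x ∈ B := by
    rw [show s * x = s * (q * x) / q by field_simp]
    exact div_mem (mul_mem (hOB _ hu.1) (hOB _ hqx)) (hOB _ hq)
  let φ : F[X] →ₐ[A] B := (aeval η').restrictScalars A
  have hφ : ∀ g, (φ g : L) = aeval η g := fun g => by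
    change algebraMap B L (aeval η' g) = _
    rw [← aeval_algebraMap_apply]; rfl
  have hφ' : Function.Surjective φ := fun y => by
    have h6 : (y : L) ∈ Algebra.adjoin F {η} := by
      rw [← IntermediateField.adjoin_simple_toSubalgebra_of_isAlgebraic hF.isAlgebraic]
      exact y.2
    obtain ⟨g, hg⟩ := Algebra.adjoin_mem_exists_aeval F η h6
    exact ⟨g, Subtype.ext ((hφ g).trans hg)⟩
  have hmp := minpoly.isIntegrallyClosed_eq_field_fractions' F hi
  have : IsScalarTower A B L := .of_algebraMap_eq fun _ => rfl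
  obtain ⟨g, hg, hg'⟩ := exists_derivative_mul_eq_and_isIntegral_coeff hφ'
    (f := minpoly F η) (minpoly.monic hF)
    (fun i => by rw [hmp, coeff_map]; exact isIntegral_algebraMap)
    (Ideal.ext fun g => by
      rw [RingHom.mem_ker, Ideal.mem_span_singleton, minpoly.dvd_iff, ← hφ]
      exact Subtype.ext_iff)
    (y := ⟨_, h5⟩) ((isIntegral_algebraMap_iff (B := L) Subtype.val_injective).1 h4)
  have h6 : aeval η (derivative (minpoly A η)) * (s * x) = aeval η g := by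
    have := congrArg (fun y : B => (y : L)) hg
    simp only [MulMemClass.coe_mul, hφ] at this
    rwa [hmp, derivative_map, aeval_map_algebraMap] at this
  have h7 : aeval η g ∈ O := by
    rw [aeval_eq_sum_range]
    refine sum_mem fun i _ => ?_
    obtain ⟨a, ha⟩ := IsIntegrallyClosed.isIntegral_iff.1 (hg' i)
    rw [← ha, algebraMap_smul]
    exact mul_mem (hA a.2) (pow_mem hη i)
  rw [← h6, ← mul_assoc] at h7
  have h8 := mul_mem (h3.mul hu).2.2 h7
  rwa [inv_mul_cancel_left₀ (h3.mul hu).2.1] at h8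

variable {σ : Type} [Finite σ] {w : Fin r → L} {t : σ → L}

/-- A rational point whose maximal ideal is generated by elements of `k[P][t]` is toroidal. -/
theorem chart_of_par (τ : Typ ι r) (hD : D.FG) (hP : IsPoint D O) (hw : TA k w τ ≤ O)
    (ht : ∀ j, t j ∈ O) (hS : ∀ s ∈ S, s ∈ TA k w τ ⊔ Algebra.adjoin k (Set.range t) ∧ ¬ Un O s)
    (h : Par O S) (hi : AlgebraicIndependent k (Sum.elim w t)) :
    SF (TA k w τ) O ∧ SF (TA k w τ ⊔ Algebra.adjoin k (Set.range t)) O ∧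
      IsIntegrallyClosed O := by
  have := normal_TA (z := w) (hi.comp Sum.inl Sum.inl_injective) τ
  obtain ⟨h1, h2⟩ := sf_poly hi (TA_le_field w τ)
  have h3 : TA k w τ ⊔ Algebra.adjoin k (Set.range t) ≤ O :=
    sup_le hw (Algebra.adjoin_le (by rintro _ ⟨j, rfl⟩; exact ht j))
  have h4 := sf_of_par hD hP h3 hS h
  exact ⟨h1.trans h4, h4, normal_of_par hD hP h3 hS h⟩

/-- The independence of the parameters follows from a count of the transcendence degree. -/
theorem indep_of_par (τ : Typ ι r) (hD : D.FG) (hP : IsPoint D O) (hw : TA k w τ ≤ O)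
    (ht : ∀ j, t j ∈ O) (hS : ∀ s ∈ S, s ∈ TA k w τ ⊔ Algebra.adjoin k (Set.range t) ∧ ¬ Un O s)
    (h : Par O S) {σ' : Type} {y : σ' → L} (hy : AlgebraicIndependent k y)
    (hc : Cardinal.mk (Fin r ⊕ σ) ≤ Cardinal.mk σ') (hyO : ∀ i, IsAlgebraic O (y i)) :
    AlgebraicIndependent k (Sum.elim w t) := by
  have h3 : TA k w τ ⊔ Algebra.adjoin k (Set.range t) ≤ O :=
    sup_le hw (Algebra.adjoin_le (by rintro _ ⟨j, rfl⟩; exact ht j))
  let K := IntermediateField.adjoin k (Set.range (Sum.elim w t))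
  have h4 : TA k w τ ⊔ Algebra.adjoin k (Set.range t) ≤ K.toSubalgebra :=
    sup_le ((TA_le_field w τ).trans (IntermediateField.adjoin.mono k _ _
      (by rintro _ ⟨i, rfl⟩; exact ⟨.inl i, rfl⟩))) (Algebra.adjoin_le (by
        rintro _ ⟨j, rfl⟩; exact IntermediateField.subset_adjoin k _ ⟨.inr j, rfl⟩))
  refine indep _ hy hc fun i => ?_
  rw [← IntermediateField.isAlgebraic_adjoin_iff]
  let _ := (Subalgebra.inclusion h3).toRingHom.toAlgebra
  have : IsScalarTower ↥(TA k w τ ⊔ Algebra.adjoin k (Set.range t)) O L :=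
    .of_algebraMap_eq fun _ => rfl
  have : Algebra.IsAlgebraic ↥(TA k w τ ⊔ Algebra.adjoin k (Set.range t)) O := ⟨fun x =>
    (isAlgebraic_algebraMap_iff (A := L) Subtype.val_injective).1
      (isAlgebraic_of_par hD hP h3 hS h x.2)⟩
  exact isAlgebraic_mono h4 ((hyO i).restrictScalars _)

end Normal

end Pool.Agent.MP_19ffc6_ag.Res

end MrgPart2

-- marker of a merged file
example : 731051 + 154526 = 731051 + 154526 := rfl
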