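import Mathlib.Tactic.Monotonicity.Lemmas
import Mathlib.RingTheory.Ideal.HasGoingUp
import Mathlib.RingTheory.KrullDimension.Polynomial
import Mathlib.RingTheory.NoetherNormalization
import Pool.Agent.MP_19ffc6_ag.Lci.Basic
import Pool.Agent.MP_19ffc6_ag.Lci.Bridge

-- ======== part 0: formerly Pool.Agent.MP_19ffc6_ag.WildBridge
section MrgPart0

/-! From an ideal whose blow-up has smooth local rings to a resolution of singularities. -/

namespace Pool.Agent.MP_19ffc6_ag.Wild

open AlgebraicGeometry CategoryTheory Polynomial HomogeneousLocalization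

variable {k L : Type} [Field k] [Field L] [Algebra k L]

lemma smooth_of_points (D : Subalgebra k L) [Algebra.FiniteType k D]
    (H : ∀ O, IsPoint D O → Algebra.FormallySmooth k O) : Algebra.Smooth k D := by
  have : Algebra.FinitePresentation k D := Algebra.FinitePresentation.of_finiteType.1 inferInstance
  refine ⟨Algebra.smoothLocus_eq_univ_iff.1 (Set.eq_univ_iff_forall.2 fun q => ?_), this⟩
  let ℓ : Localization.AtPrime q.asIdeal →ₐ[k] L :=
    IsLocalization.liftAlgHom (M := q.asIdeal.primeCompl) (f := D.val) fun y =>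
      Ne.isUnit fun e => y.2 (by
        have : (y : D) = 0 := Subtype.ext e
        rw [this]; exact zero_mem _)
  have hℓ : ∀ a : D, ℓ (algebraMap D _ a) = a := fun a => by simp [ℓ]
  have hinj : Function.Injective ℓ := by
    rw [injective_iff_map_eq_zero]
    intro z hz
    obtain ⟨a, b, rfl⟩ := IsLocalization.exists_mk'_eq q.asIdeal.primeCompl z
    have h1 := congrArg ℓ (IsLocalization.mk'_spec (Localization.AtPrime q.asIdeal) a b)
    rw [map_mul, hz, zero_mul, hℓ] at h1
    have : a = 0 := Subtype.ext h1.symm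
    rw [this, IsLocalization.mk'_zero]
  let e := AlgEquiv.ofInjective ℓ hinj
  have : IsLocalRing ℓ.range := e.toRingEquiv.isLocalRing
  have hP : IsPoint D ℓ.range := by
    refine ⟨fun a ha => ⟨algebraMap D _ ⟨a, ha⟩, hℓ _⟩, lcl_of_isLocalRing, ?_⟩
    rintro _ ⟨z, rfl⟩
    obtain ⟨a, b, rfl⟩ := IsLocalization.exists_mk'_eq q.asIdeal.primeCompl z
    have h1 := congrArg ℓ (IsLocalization.mk'_spec (Localization.AtPrime q.asIdeal) a b)
    rw [map_mul, hℓ, hℓ] at h1
    have hb : Un ℓ.range ((b : D) : L) := by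
      have := (isUnit_iff_un _).1
        ((IsLocalization.map_units (Localization.AtPrime q.asIdeal) b).map e)
      rwa [show ((e (algebraMap D _ (b : D)) : ℓ.range) : L) = (b : D) from hℓ _] at this
    exact ⟨a, a.2, (b : D), (b : D).2, hb, by rw [eq_div_iff hb.2.1]; exact h1⟩
  have := H _ hP
  exact Algebra.FormallySmooth.of_equiv e.symm

section Abstract

variable {S : Type} [CommRing S] (𝒜 : ℕ → AddSubgroup S) [GradedRing 𝒜] (ev : S →+* L)

/-- The chart of the blow-up inside `L`. -/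
noncomputable def toL (f : S) (hf : ev f ≠ 0) : Away 𝒜 f →+* L :=
  (IsLocalization.Away.lift f (g := ev) (Ne.isUnit hf)).comp
    (algebraMap (Away 𝒜 f) (Localization.Away f))

lemma toL_mk {f : S} (hf : ev f ≠ 0) {d : ℕ} (hd : f ∈ 𝒜 d) (n : ℕ)
    (x : S) (hx : x ∈ 𝒜 (n • d)) :
    toL 𝒜 ev f hf (Away.mk _ hd n x hx) = ev x / ev f ^ n := by
  simp only [toL, RingHom.comp_apply, HomogeneousLocalization.algebraMap_apply, Away.val_mk,
    Localization.mk_eq_mk']
  rw [IsLocalization.Away.lift, IsLocalization.lift_mk'_spec]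
  simp only [map_pow]
  rw [mul_div_cancel₀ _ (pow_ne_zero _ hf)]

lemma toL_zero {f : S} (hf : ev f ≠ 0) (a : 𝒜 0) :
    toL 𝒜 ev f hf (fromZeroRingHom _ _ a) = ev a := by
  have : (algebraMap (Away 𝒜 f) (Localization.Away f))
      (fromZeroRingHom _ _ a) = algebraMap S _ a := rfl
  rw [toL, RingHom.comp_apply, this, IsLocalization.Away.lift_eq]

lemma toL_injective (hev : ∀ n, ∀ x ∈ 𝒜 n, ev x = 0 → x = 0) {f : S} (hf : ev f ≠ 0) {d : ℕ}
    (hd : f ∈ 𝒜 d) : Function.Injective (toL 𝒜 ev f hf) := by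
  rw [injective_iff_map_eq_zero]
  intro z hz
  obtain ⟨n, x, hx, rfl⟩ := Away.mk_surjective _ hd z
  rw [toL_mk, div_eq_zero_iff, or_iff_left (pow_ne_zero _ hf)] at hz
  exact mk_eq_zero_of_num _ (Subtype.ext (hev _ _ hx hz))

variable {A : Type} [CommRing A] [Algebra k A] (ι : A →ₐ[k] L) (M : Submodule k L)

/-- The ideal of `A` generated by `M`. -/
def idl : Ideal A := Ideal.span {a | ι a ∈ M}

lemma mem_idl {a : A} (ha : ι a ∈ M) : a ∈ idl ι M := Ideal.subset_span ha

variable (z : A →+* 𝒜 0) (hz : ∀ a, ev (z a) = ι a)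
  (him : ∀ n, ∀ x ∈ 𝒜 n, ∃ b ∈ idl ι M ^ n, ι b = ev x)
  (him' : ∀ n, ∀ b ∈ idl ι M ^ n, ∃ x ∈ 𝒜 n, ev x = ι b)

include hz him him' in
lemma range_toL (hM : M ≤ ι.range.toSubmodule) {f : S} (hf : f ∈ 𝒜 1) (h0 : ev f ≠ 0) (x : L) :
    (∃ y, toL 𝒜 ev f h0 y = x) ↔ x ∈ chart ι.range M (ev f) := by
  have hI : ∀ b ∈ idl ι M, ι b / ev f ∈ chart ι.range M (ev f) := by
    intro b hb
    induction hb using Submodule.span_induction with
    | mem b hb => exact div_mem_chart _ _ hb
    | zero => simp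
    | add b c _ _ hb hc => rw [map_add, add_div]; exact add_mem hb hc
    | smul c b _ hb =>
      rw [smul_eq_mul, map_mul, mul_div_assoc]
      exact mul_mem (le_chart _ _ _ ⟨c, rfl⟩) hb
  have hIn : ∀ n, ∀ b ∈ idl ι M ^ n, ι b / ev f ^ n ∈ chart ι.range M (ev f) := by
    intro n
    induction n with
    | zero => intro b _; simpa using le_chart ι.range M _ ⟨b, rfl⟩
    | succ n ih =>
      intro b hb
      rw [pow_succ] at hb
      refine Submodule.mul_induction_on hb (fun c hc d hd => ?_) (fun c d hc hd => ?_)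
      · rw [map_mul, pow_succ, ← div_mul_div_comm]; exact mul_mem (ih c hc) (hI d hd)
      · rw [map_add, add_div]; exact add_mem hc hd
  constructor
  · rintro ⟨y, rfl⟩
    obtain ⟨n, x, hx, rfl⟩ := Away.mk_surjective _ hf y
    obtain ⟨b, hb, e⟩ := him _ _ hx
    rw [toL_mk, ← e]
    exact hIn n b (by simpa using hb)
  · let Z : Subalgebra k L :=
      { (toL 𝒜 ev f h0).rangeS with
        algebraMap_mem' := fun r =>
          ⟨_, (toL_zero _ _ h0 (z (algebraMap k A r))).trans (by simp [hz])⟩ }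
    have : chart ι.range M (ev f) ≤ Z := by
      refine chart_le ?_ fun m hm => ?_
      · rintro _ ⟨b, rfl⟩; exact ⟨_, (toL_zero _ _ h0 (z b)).trans (hz b)⟩
      · obtain ⟨b, rfl⟩ := hM hm
        obtain ⟨x, hx, e⟩ := him' (1 • 1) b (by simpa using mem_idl ι M hm)
        refine ⟨Away.mk _ hf 1 x hx, ?_⟩
        rw [toL_mk, e, pow_one]; rfl
    exact fun hx => this hx

include hz him him' in
lemma smooth_away [Algebra.FiniteType k A] [Algebra.FiniteType (𝒜 0) S]
    (hev : ∀ n, ∀ x ∈ 𝒜 n, ev x = 0 → x = 0) (hzs : Function.Surjective z)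
    (hM : M ≤ ι.range.toSubmodule) (H : ∀ O, Pt ι.range M O → Algebra.FormallySmooth k O)
    {f : S} (hf : f ∈ 𝒜 1) (h0 : ev f ≠ 0) (hfM : ev f ∈ M) :
    ((fromZeroRingHom 𝒜 (Submonoid.powers f)).comp (z.comp (algebraMap k A))).Smooth := by
  let E0 : Away 𝒜 f →+* chart ι.range M (ev f) :=
    (toL 𝒜 ev f h0).codRestrict _
      fun x => (range_toL 𝒜 ev ι M z hz him him' hM hf h0 _).1 ⟨x, rfl⟩
  have hE0 : Function.Bijective E0 := by
    constructor
    · intro x y hxy
      exact toL_injective _ _ hev h0 hf (congrArg Subtype.val hxy)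
    · rintro ⟨x, hx⟩
      obtain ⟨z, rfl⟩ := (range_toL 𝒜 ev ι M z hz him him' hM hf h0 _).2 hx
      exact ⟨z, rfl⟩
  let E := RingEquiv.ofBijective E0 hE0
  have hE : E0.comp ((fromZeroRingHom 𝒜 (Submonoid.powers f)).comp (z.comp (algebraMap k A))) =
      algebraMap k _ := by
    ext r
    exact (toL_zero _ _ h0 (z (algebraMap k A r))).trans (by simp [hz])
  have hft : Algebra.FiniteType k (chart ι.range M (ev f)) := by
    rw [← RingHom.finiteType_algebraMap, ← hE]
    refine (RingHom.FiniteType.of_surjective _ hE0.2).comp (RingHom.FiniteType.comp ?_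
      ((RingHom.FiniteType.of_surjective _ hzs).comp
        (RingHom.finiteType_algebraMap.2 inferInstance)))
    exact Away.finiteType _ 1 hf
  have hs := smooth_of_points _ fun O hO => H O ⟨_, hfM, h0, hO⟩
  have : (fromZeroRingHom 𝒜 (Submonoid.powers f)).comp (z.comp (algebraMap k A)) =
      E.symm.toRingHom.comp (algebraMap k _) := by
    rw [← hE]; ext1 r; exact (E.symm_apply_apply _).symm
  rw [this]
  exact (RingHom.smooth_algebraMap.2 hs).comp (.of_bijective E.symm.bijective)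

include hz him him' in
lemma irrelevant_le (hev : ∀ n, ∀ x ∈ 𝒜 n, ev x = 0 → x = 0) :
    (HomogeneousIdeal.irrelevant 𝒜).toIdeal ≤
      Ideal.span (Set.range fun f : {f : S // f ∈ 𝒜 1 ∧ ev f ≠ 0 ∧ ev f ∈ M} => f.1) := by
  classical
  set J := Ideal.span (Set.range fun f : {f : S // f ∈ 𝒜 1 ∧ ev f ≠ 0 ∧ ev f ∈ M} => f.1)
  have hone : ∀ b ∈ idl ι M, ∃ x ∈ 𝒜 1, x ∈ J ∧ ev x = ι b := by
    intro b hb
    induction hb using Submodule.span_induction with
    | mem b hb =>
      obtain ⟨x, hx, e⟩ := him' 1 b (by simpa using mem_idl ι M hb)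
      by_cases h0 : ev x = 0
      · exact ⟨0, zero_mem _, zero_mem _, by rw [map_zero, ← e, h0]⟩
      · exact ⟨x, hx, Ideal.subset_span ⟨⟨x, hx, h0, by rw [e]; exact hb⟩, rfl⟩, e⟩
    | zero => exact ⟨0, zero_mem _, zero_mem _, by simp⟩
    | add b c _ _ hb hc =>
      obtain ⟨x, hx, hx', e⟩ := hb
      obtain ⟨y, hy, hy', e'⟩ := hc
      exact ⟨x + y, add_mem hx hy, add_mem hx' hy', by simp [e, e']⟩
    | smul c b _ hb =>
      obtain ⟨x, hx, hx', e⟩ := hb
      refine ⟨z c * x, ?_, Ideal.mul_mem_left _ _ hx', by simp [e, hz]⟩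
      simpa using SetLike.mul_mem_graded (z c).2 hx
  have hn : ∀ n, ∀ b ∈ idl ι M ^ (n + 1), ∃ x ∈ 𝒜 (n + 1), x ∈ J ∧ ev x = ι b := by
    intro n b hb
    rw [pow_succ] at hb
    refine Submodule.mul_induction_on hb (fun c hc d hd => ?_) (fun c d hc hd => ?_)
    · obtain ⟨x, hx, e⟩ := him' n c hc
      obtain ⟨y, hy, hy', e'⟩ := hone d hd
      exact ⟨x * y, SetLike.mul_mem_graded hx hy, Ideal.mul_mem_left _ _ hy', by simp [e, e']⟩
    · obtain ⟨x, hx, hx', e⟩ := hc
      obtain ⟨y, hy, hy', e'⟩ := hd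
      exact ⟨x + y, add_mem hx hy, add_mem hx' hy', by simp [e, e']⟩
  intro x hx
  rw [← DirectSum.sum_support_decompose 𝒜 x]
  refine Ideal.sum_mem _ fun n _ => ?_
  cases n with
  | zero =>
    have : (DirectSum.decompose 𝒜 x 0 : S) = 0 := hx
    rw [this]; exact zero_mem _
  | succ n =>
    have h1 := (DirectSum.decompose 𝒜 x (n + 1)).2
    obtain ⟨b, hb, e⟩ := him _ _ h1
    obtain ⟨y, hy, hy', e'⟩ := hn n b hb
    have := hev _ _ (sub_mem h1 hy) (by rw [map_sub, e', e, sub_self])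
    rw [sub_eq_zero.1 this]; exact hy'

include hz him him' in
theorem bridge_abstract [IsDomain S] [IsDomain A] [Algebra.FiniteType k A]
    [Algebra.FiniteType (𝒜 0) S] (hι : Function.Injective ι)
    (hev : ∀ n, ∀ x ∈ 𝒜 n, ev x = 0 → x = 0) (hzb : Function.Bijective z)
    (hM : M ≤ ι.range.toSubmodule) (hM0 : M ≠ ⊥)
    (H : ∀ O, Pt ι.range M O → Algebra.FormallySmooth k O) :
    ∃ (Y : Scheme.{0}) (sY : Y ⟶ Spec (CommRingCat.of k)) (f : Y ⟶ Spec (CommRingCat.of A)),
      IsIntegral Y ∧ Smooth sY ∧ f ≫ Spec.map (CommRingCat.ofHom (algebraMap k A)) = sY ∧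
      IsProper f ∧ ∃ V : (Spec (CommRingCat.of A)).Opens, V ≠ ⊥ ∧ IsIso (f ∣_ V) := by
  let κ := {f : S // f ∈ 𝒜 1 ∧ ev f ≠ 0 ∧ ev f ∈ M}
  let 𝒰 := (Proj.affineOpenCoverOfIrrelevantLESpan 𝒜 (fun f : κ => f.1) (fun f => f.2.1)
    (fun _ => one_pos) (irrelevant_le 𝒜 ev ι M z hz him him' hev)).openCover
  let e0 := RingEquiv.ofBijective _ hzb
  have : IsIso (CommRingCat.ofHom z) := e0.toCommRingCatIso.isIso_hom
  let f : Proj 𝒜 ⟶ Spec (CommRingCat.of A) :=
    Proj.toSpecZero 𝒜 ≫ Spec.map (CommRingCat.ofHom z)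
  have hf : ∀ {x : S} {m : ℕ} (hx : x ∈ 𝒜 m) (hm : 0 < m),
      Proj.awayι 𝒜 x hx hm ≫ f = Spec.map (CommRingCat.ofHom
        ((fromZeroRingHom 𝒜 (Submonoid.powers x)).comp z)) := by
    intro x m hx hm
    rw [Proj.awayι_toSpecZero_assoc, ← Spec.map_comp]; rfl
  obtain ⟨m0, hm0, hm00⟩ := (Submodule.ne_bot_iff _).1 hM0
  obtain ⟨a0, rfl⟩ := hM hm0
  replace hm00 : ι a0 ≠ 0 := hm00
  obtain ⟨g0, hg0, eg0⟩ := him' 1 a0 (by simpa using mem_idl ι M hm0)
  refine ⟨Proj 𝒜, _, f, ?_, ?_, rfl, inferInstance, ?_⟩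
  · have : ∀ i, IsReduced (𝒰.X i) := fun a => by
      have : IsDomain (Away 𝒜 a.1) := (toL_injective 𝒜 ev hev a.2.2.1 a.2.1).isDomain _
      exact (inferInstance : IsReduced (Spec (CommRingCat.of (Away 𝒜 a.1))))
    have := IsReduced.of_openCover _ 𝒰
    let η : ProjectiveSpectrum 𝒜 := ⟨⊥, by simpa using Ideal.isPrime_bot, fun h => by
      have : g0 ∈ HomogeneousIdeal.irrelevant 𝒜 := by
        rw [HomogeneousIdeal.mem_irrelevant_iff, GradedRing.proj_apply]
        exact DirectSum.decompose_of_mem_ne _ hg0 one_ne_zero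
      have h2 : g0 = 0 := Ideal.mem_bot.1 (h this)
      exact hm00 (by rw [← eg0, h2, map_zero])⟩
    have : IrreducibleSpace (Proj 𝒜) := by
      change IrreducibleSpace (ProjectiveSpectrum 𝒜)
      rw [irreducibleSpace_def]
      have : closure {η} = (⊤ : Set (ProjectiveSpectrum 𝒜)) :=
        top_le_iff.1 fun y _ => (ProjectiveSpectrum.le_iff_mem_closure _ η y).1
          (show (⊥ : HomogeneousIdeal 𝒜) ≤ _ from bot_le)
      rw [← this]
      exact isIrreducible_singleton.closure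
    exact isIntegral_of_irreducibleSpace_of_isReduced _
  · refine IsZariskiLocalAtSource.of_openCover (P := @Smooth) 𝒰 fun a => ?_
    change Smooth (Proj.awayι 𝒜 a.1 a.2.1 one_pos ≫ f ≫ _)
    rw [← Category.assoc, hf, ← Spec.map_comp, HasRingHomProperty.Spec_iff (P := @Smooth)]
    exact smooth_away 𝒜 ev ι M z hz him him' hev hzb.2 hM H a.2.1 a.2.2.1 a.2.2.2
  · let x : S := z a0 * g0
    have hx : x ∈ 𝒜 1 := by simpa using SetLike.mul_mem_graded (z a0).2 hg0
    have hevx : ev x = ι a0 ^ 2 := by rw [map_mul, hz, eg0, pow_two]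
    have hx0 : ev x ≠ 0 := by rw [hevx]; exact pow_ne_zero _ hm00
    let ψ := (fromZeroRingHom 𝒜 (Submonoid.powers x)).comp z
    have hψ : ∀ b, toL 𝒜 ev x hx0 (ψ b) = ι b := fun b => (toL_zero _ _ hx0 _).trans (hz b)
    have hinj := toL_injective 𝒜 ev hev hx0 hx
    let := ψ.toAlgebra
    have hloc : IsLocalization.Away a0 (Away 𝒜 x) := by
      refine IsLocalization.Away.mk _ ?_ (fun y => ?_) (fun {b c} hbc => ⟨0, ?_⟩)
      · refine IsUnit.of_mul_eq_one (Away.mk _ hx 1 g0 hg0) (hinj ?_)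
        rw [map_mul, toL_mk, hevx, map_one, eg0]
        change toL 𝒜 ev x hx0 (ψ a0) * _ = 1
        rw [hψ]
        field_simp
      · obtain ⟨n, y, hy, rfl⟩ := Away.mk_surjective _ hx y
        obtain ⟨b, hb, e⟩ := him _ _ hy
        refine ⟨2 * n, b, hinj ?_⟩
        rw [map_mul, toL_mk, hevx, map_pow]
        change _ * toL 𝒜 ev x hx0 (ψ a0) ^ _ = toL 𝒜 ev x hx0 (ψ b)
        rw [hψ, hψ, pow_mul, div_mul_cancel₀ _ (pow_ne_zero _ (pow_ne_zero _ hm00)), e]
      · have := congrArg (toL 𝒜 ev x hx0) hbc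
        change toL 𝒜 ev x hx0 (ψ b) = toL 𝒜 ev x hx0 (ψ c) at this
        rw [hψ, hψ] at this
        rw [hι this]
    let V : (Spec (CommRingCat.of A)).Opens := PrimeSpectrum.basicOpen a0
    let j := Proj.awayι 𝒜 x hx one_pos
    have hj : j ≫ f = Spec.map (CommRingCat.ofHom (algebraMap A (Away 𝒜 x))) := hf hx one_pos
    have hoi : IsOpenImmersion (j ≫ f) := by
      rw [hj]; exact IsOpenImmersion.of_isLocalization a0
    have hr1 : Set.range (j ≫ f) = Set.range V.ι := by
      rw [hj, Scheme.Opens.range_ι]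
      exact PrimeSpectrum.localization_away_comap_range _ a0
    have hr2 : Set.range j = Set.range (f ⁻¹ᵁ V).ι := by
      rw [Scheme.Opens.range_ι]
      apply le_antisymm
      · rintro _ ⟨y, rfl⟩
        have : (j ≫ f) y ∈ Set.range V.ι := hr1 ▸ ⟨y, rfl⟩
        rw [Scheme.Opens.range_ι] at this
        exact this
      · intro p hp
        obtain ⟨a, y, rfl⟩ := 𝒰.exists_eq p
        change _ ∈ j.opensRange
        rw [Proj.opensRange_awayι]
        change y ∈ Proj.awayι 𝒜 a.1 a.2.1 one_pos ⁻¹ᵁ Proj.basicOpen 𝒜 x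
        rw [Proj.awayι_preimage_basicOpen _ a.2.1 one_pos hx one_pos]
        have hp' : (Proj.awayι 𝒜 a.1 a.2.1 one_pos ≫ f) y ∈ V := hp
        rw [hf] at hp'
        intro hy
        apply hp'
        change fromZeroRingHom 𝒜 (Submonoid.powers a.1) (z a0) ∈ y.asIdeal
        apply y.isPrime.mem_of_pow_mem 2
        obtain ⟨b, -, e⟩ := him _ _ a.2.1
        have : fromZeroRingHom 𝒜 (Submonoid.powers a.1) (z a0) ^ 2 =
            fromZeroRingHom 𝒜 (Submonoid.powers a.1) (z b) * Away.isLocalizationElem a.2.1 hx := by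
          apply toL_injective 𝒜 ev hev a.2.2.1 a.2.1
          rw [map_mul, map_pow, toL_zero, toL_zero, toL_mk, pow_one, pow_one, hevx, hz, hz, e,
            mul_div_cancel₀ _ a.2.2.1]
        exact this ▸ Ideal.mul_mem_left _ _ hy
    refine ⟨V, ?_, ?_⟩
    · intro hV
      have : (⟨⊥, Ideal.isPrime_bot⟩ : PrimeSpectrum A) ∈ V := by
        change a0 ∉ (⊥ : Ideal A)
        rw [Ideal.mem_bot]; rintro rfl; exact hm00 (map_zero _)
      rw [hV] at this
      exact this
    · have : (IsOpenImmersion.isoOfRangeEq j (f ⁻¹ᵁ V).ι hr2).hom ≫ f ∣_ V =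
          (IsOpenImmersion.isoOfRangeEq (j ≫ f) V.ι hr1).hom := by
        rw [← cancel_mono V.ι]; simp
      exact IsIso.of_isIso_fac_left this

end Abstract

section Rees

variable {A : Type} [CommRing A] (I : Ideal A)

/-- The grading of the Rees algebra. -/
noncomputable def gr (n : ℕ) : AddSubgroup (reesAlgebra I) where
  carrier := {x | ∃ a, monomial n a = (x : A[X])}
  add_mem' := by
    rintro x y ⟨a, ha⟩ ⟨b, hb⟩
    exact ⟨a + b, by rw [map_add, ha, hb]; rfl⟩
  zero_mem' := ⟨0, by simp⟩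
  neg_mem' := by
    rintro x ⟨a, ha⟩
    exact ⟨-a, by rw [map_neg, ha]; rfl⟩

/-- The homogeneous element `a t ^ n`. -/
noncomputable def mono (n : ℕ) (a : A) (ha : a ∈ I ^ n) : reesAlgebra I :=
  ⟨monomial n a, reesAlgebra.monomial_mem.2 ha⟩

lemma mono_mem (n : ℕ) (a : A) (ha : a ∈ I ^ n) : mono I n a ha ∈ gr I n := ⟨a, rfl⟩

lemma exists_mono {n : ℕ} {x : reesAlgebra I} (hx : x ∈ gr I n) : ∃ a ha, x = mono I n a ha := by
  obtain ⟨a, ha⟩ := hx
  exact ⟨a, reesAlgebra.monomial_mem.1 (by rw [ha]; exact x.2), Subtype.ext ha.symm⟩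

/-- The homogeneous component. -/
noncomputable def cpt (n : ℕ) : reesAlgebra I →+ gr I n where
  toFun x := ⟨mono I n ((x : A[X]).coeff n) (x.2 n), mono_mem _ _ _ _⟩
  map_zero' := Subtype.ext (Subtype.ext (by simp [mono]))
  map_add' x y := Subtype.ext (Subtype.ext (by simp [mono]))

lemma cpt_val (n : ℕ) (x : reesAlgebra I) :
    ((cpt I n x : reesAlgebra I) : A[X]) = monomial n ((x : A[X]).coeff n) := rfl

lemma sum_cpt (x : reesAlgebra I) :
    ∑ n ∈ (x : A[X]).support, (cpt I n x : reesAlgebra I) = x := by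
  apply Subtype.ext
  rw [AddSubmonoidClass.coe_finsetSum]
  simp only [cpt_val]
  exact (as_sum_support _).symm

noncomputable instance : GradedRing (gr I) where
  one_mem := ⟨1, rfl⟩
  mul_mem := by
    rintro i j x y ⟨a, ha⟩ ⟨b, hb⟩
    refine ⟨a * b, ?_⟩
    rw [← monomial_mul_monomial, ha, hb]; rfl
  decompose' x := ∑ n ∈ (x : A[X]).support, DirectSum.of (fun n => gr I n) n (cpt I n x)
  left_inv x := by
    simp only [map_sum, DirectSum.coeAddMonoidHom_of]
    exact sum_cpt I x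
  right_inv z := by
    have h1 : ∀ (x : reesAlgebra I) i,
        (∑ n ∈ (x : A[X]).support, DirectSum.of (fun n => gr I n) n (cpt I n x)) i =
          cpt I i x := by
      intro x i
      rw [DirectSum.sum_apply, Finset.sum_eq_single i]
      · exact DirectSum.of_eq_same _ _
      · intro j _ hj; exact DirectSum.of_eq_of_ne _ _ _ hj.symm
      · intro hi
        rw [DirectSum.of_eq_same]
        exact Subtype.ext (Subtype.ext (by rw [cpt_val, notMem_support_iff.1 hi]; simp))
    ext1 i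
    rw [h1]
    induction z using DirectSum.induction_on with
    | zero => simp
    | of j x =>
      rw [DirectSum.coeAddMonoidHom_of]
      obtain ⟨x, a, ha⟩ := x
      replace ha : monomial j a = (x : A[X]) := ha
      by_cases hij : i = j
      · subst hij
        rw [DirectSum.of_eq_same]
        exact Subtype.ext (Subtype.ext (by rw [cpt_val, ← ha]; simp))
      · rw [DirectSum.of_eq_of_ne _ _ _ hij]
        exact Subtype.ext (Subtype.ext (by
          rw [cpt_val, ← ha, coeff_monomial, if_neg (Ne.symm hij)]; simp))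
    | add x y hx hy => rw [map_add, map_add, hx, hy]; rfl

/-- The degree zero part of the Rees algebra. -/
noncomputable def zeroHom : A →+* gr I 0 where
  toFun a := ⟨algebraMap A _ a, a, rfl⟩
  map_one' := Subtype.ext (map_one _)
  map_mul' a b := Subtype.ext (map_mul _ a b)
  map_zero' := Subtype.ext (map_zero _)
  map_add' a b := Subtype.ext (map_add _ a b)

lemma zeroHom_bijective : Function.Bijective (zeroHom I) := by
  constructor
  · intro a b h
    have : (C a : A[X]) = C b := congrArg (fun x : gr I 0 => ((x : reesAlgebra I) : A[X])) h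
    exact C_injective this
  · rintro ⟨x, a, ha⟩
    exact ⟨a, Subtype.ext (Subtype.ext ha)⟩

lemma finiteType_gr [IsNoetherianRing A] : Algebra.FiniteType (gr I 0) (reesAlgebra I) := by
  rw [← RingHom.finiteType_algebraMap]
  refine RingHom.FiniteType.of_comp_finiteType (f := zeroHom I) ?_
  exact (RingHom.finiteType_algebraMap (A := A) (B := reesAlgebra I)).2 inferInstance

/-- Evaluation at `t = 1`. -/
noncomputable def evOne (ι : A →+* L) : reesAlgebra I →+* L :=
  (eval₂RingHom ι 1).comp (reesAlgebra I).val.toRingHom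

lemma evOne_mono (ι : A →+* L) (n : ℕ) (a : A) (ha : a ∈ I ^ n) :
    evOne I ι (mono I n a ha) = ι a := by
  simp [evOne, mono]

end Rees

theorem bridge {A : Type} [CommRing A] [Algebra k A] (ι : A →ₐ[k] L) (M : Submodule k L)
    [IsDomain A] [Algebra.FiniteType k A] (hι : Function.Injective ι)
    (hM : M ≤ ι.range.toSubmodule) (hM0 : M ≠ ⊥)
    (H : ∀ O, Pt ι.range M O → Algebra.FormallySmooth k O) :
    ∃ (Y : Scheme.{0}) (sY : Y ⟶ Spec (CommRingCat.of k)) (f : Y ⟶ Spec (CommRingCat.of A)),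
      IsIntegral Y ∧ Smooth sY ∧ f ≫ Spec.map (CommRingCat.ofHom (algebraMap k A)) = sY ∧
      IsProper f ∧ ∃ V : (Spec (CommRingCat.of A)).Opens, V ≠ ⊥ ∧ IsIso (f ∣_ V) := by
  have : IsNoetherianRing A := Algebra.FiniteType.isNoetherianRing k A
  have := finiteType_gr (idl ι M)
  refine bridge_abstract (gr (idl ι M)) (evOne _ ι.toRingHom) ι M (zeroHom _) (fun a => ?_)
    (fun n x hx => ?_) (fun n b hb => ⟨_, mono_mem _ n b hb, evOne_mono _ _ _ _ _⟩) hι
    (fun n x hx h0 => ?_) (zeroHom_bijective _) hM hM0 H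
  · simp [evOne, zeroHom]
  · obtain ⟨b, hb, rfl⟩ := exists_mono _ hx
    exact ⟨b, hb, (evOne_mono _ _ _ _ _).symm⟩
  · obtain ⟨b, hb, rfl⟩ := exists_mono _ hx
    rw [evOne_mono] at h0
    have : b = 0 := hι (by simpa using h0)
    subst this
    exact Subtype.ext (by simp [mono])

end Pool.Agent.MP_19ffc6_ag.Wild

end MrgPart0

-- ======== part 1: formerly Pool.Agent.MP_19ffc6_ag.Res.Bridge
section MrgPart1

/-! Module BRIDGE of PROJECT RES: from smooth projective models of function fields to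
resolutions of schemes of bounded dimension. -/

namespace Pool.Agent.MP_19ffc6_ag.Res

open Pool.Agent.MP_19ffc6_ag.Wild Pool.Agent.MP_19ffc6_ag.Lci Pool.Agent.MP_19ffc6_ag.Lci.Bridge
open AlgebraicGeometry CategoryTheory Limits

set_option backward.isDefEq.respectTransparency false

/-- Every finitely generated extension of `k` of transcendence degree at most `n` has a smooth
projective model on which given generators define morphisms to the projective line. -/
def ModelS (k : Type) [Field k] (n : ℕ) : Prop :=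
  ∀ (K : Type) [Field K] [Algebra k K] (S : Set K), S.Finite →
    IntermediateField.adjoin k S = ⊤ → Algebra.trdeg k K ≤ n →
    ∃ (L : Type) (_ : Field L) (_ : Algebra k L) (j : K →ₐ[k] L) (M : Submodule k L),
      M.FG ∧ M ≠ ⊥ ∧ (∀ x ∈ M, x ∈ j.range) ∧ ∀ O : Subalgebra k L, Pt ⊥ M O →
        (∀ r ∈ S, j r ∈ O ∨ (j r)⁻¹ ∈ O) ∧ Algebra.FormallySmooth k O

/-- Resolution of singularities over `k` in dimension at most `n`. -/
def ResDim (k : Type) [Field k] (n : ℕ) : Prop :=
  ∀ (X : Scheme.{0}) (sX : X ⟶ Spec (CommRingCat.of k)),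
    IsIntegral X → IsSeparated sX → LocallyOfFiniteType sX → QuasiCompact sX →
    topologicalKrullDim X ≤ n →
    ∃ (Y : Scheme.{0}) (sY : Y ⟶ Spec (CommRingCat.of k)) (f : Y ⟶ X),
      IsIntegral Y ∧ Smooth sY ∧ f ≫ sX = sY ∧ IsProper f ∧
      ∃ V : X.Opens, V ≠ ⊥ ∧ IsIso (morphismRestrict f V)

namespace BridgeM

lemma dim_le_of_integral {R S : Type} [CommRing R] [CommRing S] [Algebra R S]
    [Algebra.IsIntegral R S] [FaithfulSMul R S] : ringKrullDim R ≤ ringKrullDim S := by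
  refine iSup_le fun l => ?_
  have := l.head.isPrime
  obtain ⟨⟨P, hP, hP'⟩⟩ := Ideal.nonempty_primesOver (S := S) l.head.asIdeal
  obtain ⟨l', h, -⟩ := Ideal.exists_ltSeries_of_hasGoingUp l P
  rw [← h]
  exact Order.LTSeries.length_le_krullDim l'

variable {k K : Type} [Field k] [Field K] [Algebra k K]

/-- The transcendence degree of the fraction field is at most the dimension. -/
lemma trdeg_le (A : Subalgebra k K) (hA : A.FG) (hfr : ∀ x, ∃ b ∈ A, b ≠ 0 ∧ b * x ∈ A) {n : ℕ}
    (h : ringKrullDim A ≤ n) : Algebra.trdeg k K ≤ n := by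
  have : Algebra.FiniteType k A := (Subalgebra.fg_iff_finiteType _).1 hA
  obtain ⟨s, g, hg, hg'⟩ := exists_integral_inj_algHom_of_fg k A
  let _ := g.toRingHom.toAlgebra
  have : Algebra.IsIntegral (MvPolynomial (Fin s) k) A := ⟨hg'⟩
  have : FaithfulSMul (MvPolynomial (Fin s) k) A :=
    (faithfulSMul_iff_algebraMap_injective _ _).2 hg
  have h1 : (s : WithBot ℕ∞) ≤ n := by
    have h2 := (dim_le_of_integral (R := MvPolynomial (Fin s) k) (S := A)).trans h
    rwa [MvPolynomial.ringKrullDim_of_isNoetherianRing, ringKrullDim_eq_zero_of_field, zero_add,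
      Nat.card_eq_fintype_card, Fintype.card_fin] at h2
  have h2 : s ≤ n := by exact_mod_cast h1
  let x : Fin s → K := fun i => g (MvPolynomial.X i)
  have h3 : ∀ a : A, IsAlgebraic (Algebra.adjoin k (Set.range x)) (a : K) := by
    intro a
    obtain ⟨P, hP, hPa⟩ := hg' a
    let ψ : MvPolynomial (Fin s) k →ₐ[k] Algebra.adjoin k (Set.range x) :=
      MvPolynomial.aeval fun i => ⟨x i, Algebra.subset_adjoin ⟨i, rfl⟩⟩
    have hψ : (Algebra.adjoin k (Set.range x)).val.comp ψ = A.val.comp g := by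
      ext i; simp [ψ, x]
    refine IsIntegral.isAlgebraic ⟨P.map ψ.toRingHom, hP.map _, ?_⟩
    rw [Polynomial.eval₂_map]
    have h4 := congrArg A.val.toRingHom hPa
    rw [Polynomial.hom_eval₂, map_zero] at h4
    have h5 : (algebraMap (Algebra.adjoin k (Set.range x)) K).comp ψ.toRingHom =
        A.val.toRingHom.comp g.toRingHom := congrArg AlgHom.toRingHom hψ
    rw [h5]
    exact h4
  have : Algebra.IsAlgebraic (Algebra.adjoin k (Set.range x)) K := ⟨fun y => by
    obtain ⟨b, hb, hb0, hby⟩ := hfr y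
    have h4 := (h3 ⟨_, hby⟩).mul (h3 ⟨_, hb⟩).inv
    rwa [show b * y * b⁻¹ = y by field_simp] at h4⟩
  refine (Algebra.IsAlgebraic.trdeg_le_cardinalMk k (Set.range x)).trans ?_
  refine Cardinal.mk_range_le.trans ?_
  rw [Cardinal.mk_fin]
  exact_mod_cast h2

end BridgeM

open BridgeM in
theorem main_of {k : Type} [Field k] {n : ℕ} (hM : ModelS k n) : ResDim k n := by
  intro X sX hint _ hlft hqc hdim
  obtain ⟨K, _, _, η0, ι, hι, A0, c0, hη0, hc0, hcov0, hfr0⟩ := exists_atlas X sX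
  choose t ht using fun i => (hc0 i).fg hη0
  obtain ⟨i0, -⟩ := hcov0 (genericPoint X)
  have hgen : IntermediateField.adjoin k (⋃ i, (t i : Set K)) = ⊤ := by
    have h1 : ∀ a ∈ A0 i0, a ∈ IntermediateField.adjoin k (⋃ i, (t i : Set K)) := fun a ha => by
      rw [← ht i0] at ha
      exact IntermediateField.algebra_adjoin_le_adjoin k _
        (Algebra.adjoin_mono (Set.subset_iUnion (fun i => (t i : Set K)) i0) ha)
    refine eq_top_iff.2 fun x _ => ?_
    obtain ⟨b, hb, hb0, hbx⟩ := hfr0 i0 x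
    have h2 := mul_mem (inv_mem (h1 _ hb)) (h1 _ hbx)
    rwa [inv_mul_cancel_left₀ hb0] at h2
  have htr : Algebra.trdeg k K ≤ n := by
    refine trdeg_le (A0 i0) ((hc0 i0).fg hη0) (hfr0 i0) ?_
    have := (hc0 i0).opn
    rw [← PrimeSpectrum.topologicalKrullDim_eq_ringKrullDim]
    exact (c0 i0).isOpenEmbedding.isInducing.topologicalKrullDim_le.trans hdim
  obtain ⟨L, _, _, φ, M, ⟨T0, rfl⟩, hM0, hMφ, hP⟩ := hM K (⋃ i, (t i : Set K))
    (Set.finite_iUnion fun i => (t i).finite_toSet) hgen htr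
  obtain ⟨T, hT, hT0, hTM⟩ : ∃ T : Set L, T.Finite ∧ (∀ m ∈ T, m ≠ 0) ∧
      Submodule.span k (T0 : Set L) = Submodule.span k T :=
    ⟨(T0 : Set L) \ {0}, T0.finite_toSet.sdiff, fun m hm => hm.2,
      Submodule.span_sdiff_singleton_zero.symm⟩
  rw [hTM] at hM0 hMφ hP
  obtain ⟨m0⟩ : Nonempty T := by
    by_contra H
    rw [not_nonempty_iff, Set.isEmpty_coe_sort] at H
    exact hM0 (by rw [H, Submodule.span_empty])
  have hη : (sp φ.toRingHom ≫ η0) ≫ sX = sp (algebraMap k L) := by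
    rw [Category.assoc, hη0, sp_comp]
    congr 2
    exact RingHom.ext φ.commutes
  have hch : ∀ i, ∃ c, IsChart (sp φ.toRingHom ≫ η0) ((A0 i).map φ) c ∧
      Set.range c = Set.range (c0 i) := fun i => by
    have := (hc0 i).opn
    refine chart_of_injective (c0 i) (φ.toRingHom.comp (A0 i).val.toRingHom)
      (φ.toRingHom.injective.comp Subtype.val_injective)
      (by rw [← sp_comp, Category.assoc, (hc0 i).gen]) _ fun x => ?_
    exact ⟨fun ⟨y, hy, e⟩ => ⟨⟨y, hy⟩, e⟩, fun ⟨y, e⟩ => ⟨y, y.2, e⟩⟩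
  choose c hc hc' using hch
  obtain ⟨P, sP, ζ, κ, hpr, hζ, hκ, hκ'⟩ := proj_model (k := k) T hT hT0 m0
  choose j hj hjf hjc using fun i (m : T) => prod_chart hη hζ (hc i) (hκ m)
  have hcov : ∀ y, ∃ i m, y ∈ Set.range (j i m) := fun y => by
    obtain ⟨i, hi⟩ := hcov0 _
    obtain ⟨m, hm⟩ := hκ' _
    exact ⟨i, m, hjc i m y (hc' i ▸ hi) hm⟩
  refine ⟨_, _, (pullback.lift (sp φ.toRingHom ≫ η0) ζ (hη.trans hζ.symm)).imageι ≫
    pullback.fst sX sP, isIntegral_of_charts (k := k) (Scheme.Hom.toImage _) fun y => ?_,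
    ?_, rfl, inferInstance, ?_⟩
  · obtain ⟨i, m, h⟩ := hcov y
    exact ⟨_, _, hj i m, h⟩
  · have h1 : (pullback.lift (sp φ.toRingHom ≫ η0) ζ (hη.trans hζ.symm)).toImage ≫
        ((pullback.lift (sp φ.toRingHom ≫ η0) ζ (hη.trans hζ.symm)).imageι ≫
          pullback.fst sX sP) ≫ sX = sp (algebraMap k L) := by
      rw [← Category.assoc, Scheme.Hom.toImage_imageι_assoc, pullback.lift_fst]
      exact hη
    refine IsZariskiLocalAtSource.of_openCover (P := @Smooth)
      (Scheme.Cover.mkOfCovers (P := @IsOpenImmersion) (ι × T) _ (fun a => j a.1 a.2)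
        (fun y => by
          obtain ⟨i, m, z, h⟩ := hcov y
          exact ⟨(i, m), z, h⟩) fun a => (hj a.1 a.2).opn) fun a => ?_
    obtain ⟨i, m⟩ := a
    change Smooth (j i m ≫ _)
    rw [(hj i m).over h1, HasRingHomProperty.Spec_iff (P := @Smooth)]
    have := (Subalgebra.fg_iff_finiteType _).1 ((hj i m).fg h1)
    refine RingHom.smooth_algebraMap.2 (smooth_of_points _ fun O hO => ?_)
    refine (hP O (pt_of_cmp (Submodule.subset_span m.2) (hT0 m m.2) hO (S := φ '' t i) ?_ ?_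
      fun O' hO' => ?_)).2
    · rw [← ht i, AlgHom.map_adjoin]
    · rintro _ ⟨r, hr, rfl⟩
      exact ⟨r, ht i ▸ Algebra.subset_adjoin hr, rfl⟩
    · rintro _ ⟨r, hr, rfl⟩
      exact (hP O' hO').1 r (Set.mem_iUnion.2 ⟨i, hr⟩)
  · have := hT.to_subtype
    have := (hc i0).opn
    obtain ⟨a, ha, ha0, hat⟩ := exists_denom ((A0 i0).map φ) (fun x : T × T => (x.1 : L) / x.2)
      fun x => by
        obtain ⟨u, hu⟩ := hMφ _ (Submodule.subset_span x.1.2)
        obtain ⟨v, hv⟩ := hMφ _ (Submodule.subset_span x.2.2)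
        obtain ⟨b, hb, hb0, hb'⟩ := hfr0 i0 (u / v)
        refine ⟨φ b, ⟨b, hb, rfl⟩, (map_ne_zero φ).2 hb0, _, hb', ?_⟩
        rw [← hu, ← hv]
        simp
    refine birational _ (c i0) ha ha0 m0 _ (fun _ => le_sup_left)
      (fun m => sup_le (le_adj _ _) (chart_le bot_le fun y hy => ?_)) (j i0) (hj i0) (hjf i0)
      fun y hy => ?_
    · induction hy using Submodule.span_induction with
      | mem y hy => exact hat (⟨y, hy⟩, m)
      | zero => simp
      | add a b _ _ ha hb => rw [add_div]; exact add_mem ha hb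
      | smul c a _ ha => rw [smul_div_assoc]; exact Subalgebra.smul_mem _ ha c
    · obtain ⟨m, hm⟩ := hκ' _
      exact ⟨m, hjc i0 m y hy hm⟩

end Pool.Agent.MP_19ffc6_ag.Res

end MrgPart1

-- marker of a merged file
example : 731051 + 9672 = 731051 + 9672 := rfl
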