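import Mathlib.Algebra.Algebra.IsSimpleRing
import Mathlib.RingTheory.Flat.TorsionFree
import Mathlib.RingTheory.PicardGroup
import Mathlib.RingTheory.Unramified.LocalStructure
import Mathlib.RingTheory.Finiteness.ModuleFinitePresentation
import Mathlib.FieldTheory.PurelyInseparable.Exponent
import Mathlib.RingTheory.TotallySplit
import Mathlib.RingTheory.Etale.Weakly
import Pool.Agent.MP_19ffc6_ag.Res.Bridge

/-! Module SPREAD of PROJECT RES: smooth models descend to algebraically closed subfields. -/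

namespace Pool.Agent.MP_19ffc6_ag.Res

open Pool.Agent.MP_19ffc6_ag.Wild Pool.Agent.MP_19ffc6_ag.Lci Pool.Agent.MP_19ffc6_ag.Lci.Bridge
open Polynomial TensorProduct

set_option linter.unusedSectionVars false

namespace SpreadM

lemma dom_std {P S K : Type} [CommRing P] [IsDomain P] [IsIntegrallyClosed P] [CommRing S]
    [Algebra P S] [Algebra.IsStandardEtale P S] [Field K] (ρ : S →+* K)
    (hρ : ∀ b, ρ b = 0 → ∃ h, ρ h ≠ 0 ∧ h * b = 0) (𝔭 : Ideal S) [h𝔭 : 𝔭.IsPrime]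
    (hp : ∀ b, ρ b = 0 → b ∈ 𝔭) : ∃ t ∉ 𝔭, ∀ b, ρ b = 0 → t * b = 0 := by
  obtain ⟨Q⟩ : Nonempty (StandardEtalePresentation P S) := inferInstance
  let _ : Algebra P K := (ρ.comp (algebraMap P S)).toAlgebra
  let ρ' : S →ₐ[P] K := { ρ with commutes' := fun _ => rfl }
  have hρ' : ∀ b, ρ' b = ρ b := fun _ => rfl
  have hinj : Function.Injective (algebraMap P K) := by
    rw [injective_iff_map_eq_zero]
    intro a ha
    by_contra h0
    obtain ⟨h, h1, h2⟩ := hρ (algebraMap P S a) ha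
    have h3 := Module.Flat.isSMulRegular_of_nonZeroDivisors (M := S)
      (mem_nonZeroDivisors_of_ne_zero h0)
    have h4 : h = 0 := h3 (by simp only [Algebra.smul_def]; rw [mul_comm, h2, mul_zero])
    exact h1 (by rw [h4, map_zero])
  have : FaithfulSMul P K := (faithfulSMul_iff_algebraMap_injective _ _).2 hinj
  have hev : ∀ p : P[X], aeval (ρ Q.x) p = ρ (aeval Q.x p) := fun p => by
    rw [← hρ', ← hρ', aeval_algHom_apply]
  have hf : aeval (ρ Q.x) Q.f = 0 := by rw [hev, Q.hasMap.1, map_zero]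
  have hint : IsIntegral P (ρ Q.x) := ⟨Q.f, Q.monic_f, hf⟩
  obtain ⟨g, hg⟩ := minpoly.isIntegrallyClosed_dvd hint hf
  have hm : aeval Q.x (minpoly P (ρ Q.x)) ∈ 𝔭 := hp _ (by rw [← hev, minpoly.aeval])
  refine ⟨aeval Q.x g, fun h => ?_, fun b hb => ?_⟩
  · have h1 := StandardEtalePair.HasMap.isUnit_derivative_f _ Q.hasMap
    refine h𝔭.ne_top (Ideal.eq_top_of_isUnit_mem _ ?_ h1)
    rw [hg, derivative_mul, map_add, map_mul, map_mul]
    exact add_mem (Ideal.mul_mem_left _ _ h) (Ideal.mul_mem_right _ _ hm)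
  · obtain ⟨p, n, hp⟩ := Q.exists_mul_aeval_x_g_pow_eq_aeval_x b
    obtain ⟨c, hc⟩ := minpoly.isIntegrallyClosed_dvd hint (p := p)
      (by rw [hev, ← hp, map_mul, hb, zero_mul])
    refine (Q.hasMap.2.pow n).mul_left_eq_zero.1 ?_
    have h2 := Q.hasMap.1
    rw [hg, map_mul] at h2
    rw [mul_assoc, hp, hc, map_mul]
    linear_combination aeval Q.x c * h2

/-- In a smooth algebra over a field, a minimal prime dies in the local rings along it. -/
lemma dom_smooth {k S K : Type} [Field k] [CommRing S] [Algebra k S] [Algebra.Smooth k S]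
    [Field K] (ρ : S →+* K) (hρ : ∀ b, ρ b = 0 → ∃ h, ρ h ≠ 0 ∧ h * b = 0) (𝔭 : Ideal S)
    [h𝔭 : 𝔭.IsPrime] (hp : ∀ b, ρ b = 0 → b ∈ 𝔭) (b : S) (hb : ρ b = 0) :
    ∃ t ∉ 𝔭, t * b = 0 := by
  have : Algebra.IsSmoothAt k 𝔭 := by
    have h := Algebra.smoothLocus_eq_univ (R := k) (A := S)
    exact (Set.eq_univ_iff_forall.1 h ⟨𝔭, h𝔭⟩ :)
  obtain ⟨f, hf, n, _, _, _⟩ := Algebra.IsSmoothAt.exists_isStandardEtale_mvPolynomial (R := k)
    (p := 𝔭)
  have hf0 : ρ f ≠ 0 := fun h => hf (hp f h)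
  let ρ' : Localization.Away f →+* K := IsLocalization.Away.lift f (g := ρ) hf0.isUnit
  have hρ' : ∀ a, ρ' (algebraMap S _ a) = ρ a := fun a => IsLocalization.Away.lift_eq f _ a
  have hdis : Disjoint ((Submonoid.powers f : Submonoid S) : Set S) 𝔭 :=
    (Ideal.disjoint_powers_iff_notMem_of_isPrime _).mpr hf
  have hpr : (𝔭.map (algebraMap S (Localization.Away f))).IsPrime :=
    IsLocalization.isPrime_of_isPrime_disjoint (.powers f) _ _ h𝔭 hdis
  have hz : ∀ z, ρ' z = 0 → ∃ a : S, ρ a = 0 ∧ ∃ u, z = algebraMap S _ a * u := fun z hz => by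
    obtain ⟨a, s, rfl⟩ := IsLocalization.exists_mk'_eq (.powers f) z
    refine ⟨a, ?_, IsLocalization.mk' _ 1 s, IsLocalization.mk'_eq_mul_mk'_one _ _⟩
    rw [← hρ', ← IsLocalization.mk'_spec _ a s, map_mul, hz, zero_mul]
  obtain ⟨t, ht, H⟩ := dom_std (P := MvPolynomial (Fin n) k) ρ' (fun z h => by
      obtain ⟨a, ha, u, rfl⟩ := hz z h
      obtain ⟨h, h1, h2⟩ := hρ a ha
      exact ⟨algebraMap S _ h, by rwa [hρ'], by rw [← mul_assoc, ← map_mul, h2, map_zero, zero_mul]⟩)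
    (𝔭.map (algebraMap S (Localization.Away f))) (fun z h => by
      obtain ⟨a, ha, u, rfl⟩ := hz z h
      exact Ideal.mul_mem_right _ _ (Ideal.mem_map_of_mem _ (hp a ha)))
  obtain ⟨a, s, rfl⟩ := IsLocalization.exists_mk'_eq (.powers f) t
  have h1 := H _ ((hρ' b).trans hb)
  have h2 : algebraMap S (Localization.Away f) (a * b) = 0 := by
    rw [map_mul, ← IsLocalization.mk'_spec _ a s, mul_right_comm, h1, zero_mul]
  obtain ⟨m, hm⟩ := (IsLocalization.map_eq_zero_iff (.powers f) _ _).1 h2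
  refine ⟨m * a, fun h => ?_, by rw [mul_assoc, hm]⟩
  rcases h𝔭.mem_or_mem h with h | h
  · exact Set.disjoint_left.1 hdis m.2 h
  · refine ht ?_
    rw [IsLocalization.mk'_eq_mul_mk'_one]
    exact Ideal.mul_mem_right _ _ (Ideal.mem_map_of_mem _ h)

/-- Points of the image of a smooth algebra whose kernel is a minimal prime. -/
lemma smooth_pt {k S K : Type} [Field k] [CommRing S] [Algebra k S] [Algebra.Smooth k S]
    [Field K] [Algebra k K] (ρ : S →ₐ[k] K) (hρ : ∀ b, ρ b = 0 → ∃ h, ρ h ≠ 0 ∧ h * b = 0)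
    {O : Subalgebra k K} (hO : IsPoint ρ.range O) : Algebra.FormallySmooth k O := by
  have hm : ∀ s, ρ s ∈ O := fun s => hO.le ⟨s, rfl⟩
  let σ : S →ₐ[k] O := ρ.codRestrict O hm
  let _ : Algebra S O := σ.toRingHom.toAlgebra
  have : IsScalarTower k S O := .of_algebraMap_eq fun c => (σ.commutes c).symm
  have := hO.lcl.isLocalRing
  let 𝔭 : Ideal S := (IsLocalRing.maximalIdeal O).comap σ
  have h𝔭 : ∀ s, s ∉ 𝔭 ↔ Un O (ρ s) := fun s => by
    simp only [𝔭, Ideal.mem_comap, IsLocalRing.mem_maximalIdeal, mem_nonunits_iff, not_not]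
    exact isUnit_iff_un _
  have : IsLocalization 𝔭.primeCompl O := by
    refine ⟨fun y => (isUnit_iff_un _).2 ((h𝔭 _).1 y.2), fun z => ?_, fun {x y} hxy => ?_⟩
    · obtain ⟨_, ⟨a, rfl⟩, _, ⟨b, rfl⟩, hu, e⟩ := hO.le_loc z.2
      refine ⟨⟨a, ⟨b, (h𝔭 _).2 hu⟩⟩, Subtype.ext ?_⟩
      change (z : K) * ρ b = ρ a
      rw [e]
      exact div_mul_cancel₀ _ hu.2.1
    · have h1 : ρ (x - y) = 0 := by
        rw [map_sub, sub_eq_zero]
        exact congrArg Subtype.val hxy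
      obtain ⟨t, ht, h2⟩ := dom_smooth (k := k) ρ.toRingHom hρ 𝔭 (fun b hb => by
        by_contra h
        exact ((h𝔭 b).1 h).2.1 hb) _ h1
      exact ⟨⟨t, ht⟩, by rwa [mul_sub, sub_eq_zero] at h2⟩
  have : Algebra.FormallySmooth S O := .of_isLocalization 𝔭.primeCompl
  exact .comp k S O

section Place

variable {k k2 K L : Type} [Field k] [Field k2] [Field K] [Field L] [Algebra k k2] [Algebra k K]
  [Algebra k L] [Algebra k2 L] [IsScalarTower k k2 L]

variable (k2) in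
/-- The graph of a place of `L` with values in `K` that extends a point of `T ≤ k2`. -/
structure Plc (ι : K →ₐ[k] L) where
  T : Subalgebra k k2
  ψ : T →ₐ[k] k
  G : Subalgebra k (L × K)
  fn : ∀ y, (0, y) ∈ G → y = 0
  spT : ∀ t : T, (algebraMap k2 L t, algebraMap k K (ψ t)) ∈ G
  spK : ∀ y, (ι y, y) ∈ G
  inv : ∀ x y, (x, y) ∈ G → y ≠ 0 → (x⁻¹, y⁻¹) ∈ G
  frac : ∀ x y, (x, y) ∈ G → ∃ u ∈ Algebra.adjoin k (algebraMap k2 L '' T ∪ Set.range ι),
    ∃ v ∈ Algebra.adjoin k (algebraMap k2 L '' T ∪ Set.range ι), ∃ w, w ≠ 0 ∧ (v, w) ∈ G ∧ x * v = u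

namespace Plc

variable {ι : K →ₐ[k] L} (P : Plc k2 ι) {x x' : L} {y y' : K}

lemma uniq (h : (x, y) ∈ P.G) (h' : (x, y') ∈ P.G) : y = y' :=
  sub_eq_zero.1 (P.fn _ (by simpa using sub_mem h h'))

lemma mul (h : (x, y) ∈ P.G) (h' : (x', y') ∈ P.G) : (x * x', y * y') ∈ P.G := mul_mem h h'

lemma add (h : (x, y) ∈ P.G) (h' : (x', y') ∈ P.G) : (x + x', y + y') ∈ P.G := add_mem h h'

lemma ne (h : (x, y) ∈ P.G) (hy : y ≠ 0) : x ≠ 0 := fun e => hy (P.fn _ (e ▸ h))

lemma exists_hom {B : Type} [CommRing B] (Θ : B →+* L) (h : ∀ b, ∃ y, (Θ b, y) ∈ P.G) :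
    ∃ g : B →+* K, ∀ b, (Θ b, g b) ∈ P.G := by
  choose g hg using h
  exact ⟨{ toFun := g
           map_one' := P.uniq (hg 1) (by rw [map_one]; exact one_mem P.G)
           map_zero' := P.uniq (hg 0) (by rw [map_zero]; exact zero_mem P.G)
           map_mul' := fun a b => P.uniq (hg _) (by rw [map_mul]; exact P.mul (hg a) (hg b))
           map_add' := fun a b => P.uniq (hg _) (by rw [map_add]; exact P.add (hg a) (hg b)) }, hg⟩

/-- Elements of the algebra generated by `T` and elements with a value. -/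
lemma exists_val {X : Set L} {D : Subalgebra k K} (hX : ∀ x ∈ X, ∃ y ∈ D, (x, y) ∈ P.G)
    (hx : x ∈ Algebra.adjoin k (algebraMap k2 L '' P.T ∪ X)) : ∃ y ∈ D, (x, y) ∈ P.G := by
  induction hx using Algebra.adjoin_induction with
  | mem x hx =>
    rcases hx with ⟨t, ht, rfl⟩ | hx
    exacts [⟨_, D.algebraMap_mem _, P.spT ⟨t, ht⟩⟩, hX x hx]
  | algebraMap c => exact ⟨_, D.algebraMap_mem c, P.G.algebraMap_mem c⟩
  | add a b _ _ ha hb =>
    obtain ⟨y, hy, h⟩ := ha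
    obtain ⟨y', hy', h'⟩ := hb
    exact ⟨_, add_mem hy hy', P.add h h'⟩
  | mul a b _ _ ha hb =>
    obtain ⟨y, hy, h⟩ := ha
    obtain ⟨y', hy', h'⟩ := hb
    exact ⟨_, mul_mem hy hy', P.mul h h'⟩

/-- The kernel of the value map on a model is locally generated by the kernel of `ψ`. -/
lemma ker_loc {B B' : Type} [CommRing B] [CommRing B'] [Algebra P.T B] (Θ : B →+* L)
    (hΘ : Function.Injective Θ) (hT : ∀ t : P.T, Θ (algebraMap _ B t) = algebraMap k2 L t)
    (g : B →+* K) (hg : ∀ b, (Θ b, g b) ∈ P.G) {S : Set K}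
    (hS : IntermediateField.adjoin k S = ⊤) (hK : ∀ s ∈ S, ∃ w u, g w ≠ 0 ∧ Θ w * ι s = Θ u)
    (π : B →+* B') (hπ : ∀ t : P.T, P.ψ t = 0 → π (algebraMap _ B t) = 0) (b : B) (hb : g b = 0) :
    ∃ h, g h ≠ 0 ∧ π h * π b = 0 := by
  let R : Subalgebra k L :=
    { carrier := {x | ∃ w u, g w ≠ 0 ∧ Θ w * x = Θ u}
      mul_mem' := by
        rintro x x' ⟨w, u, h, e⟩ ⟨w', u', h', e'⟩
        exact ⟨w * w', u * u', by rw [map_mul]; exact mul_ne_zero h h', by
          rw [map_mul, map_mul, ← e, ← e']; ring⟩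
      add_mem' := by
        rintro x x' ⟨w, u, h, e⟩ ⟨w', u', h', e'⟩
        exact ⟨w * w', u * w' + w * u', by rw [map_mul]; exact mul_ne_zero h h', by
          rw [map_add, map_mul, map_mul, map_mul, ← e, ← e']; ring⟩
      algebraMap_mem' := fun c => ⟨1, algebraMap P.T B (algebraMap k _ c), by simp, by
        rw [hT, map_one, one_mul]; exact IsScalarTower.algebraMap_apply k k2 L c⟩ }
  have hR : ∀ x, x ∈ R ↔ ∃ w u, g w ≠ 0 ∧ Θ w * x = Θ u := fun _ => Iff.rfl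
  have hinv : ∀ x ∈ R, ∀ y, (x, y) ∈ P.G → y ≠ 0 → x⁻¹ ∈ R := by
    rintro x ⟨w, u, h, e⟩ y hy hy0
    refine ⟨u, w, ?_, by rw [← e, mul_inv_cancel_right₀ (P.ne hy hy0)]⟩
    rw [P.uniq (hg u) (e ▸ P.mul (hg w) hy)]
    exact mul_ne_zero h hy0
  have hKR : ∀ y, ι y ∈ R := fun y => by
    have h1 : IntermediateField.adjoin k S ≤ (R.comap ι).toIntermediateField fun z hz => by
        by_cases h0 : z = 0
        · rw [h0, inv_zero]; exact zero_mem _
        · rw [Subalgebra.mem_comap, map_inv₀]; exact hinv _ hz _ (P.spK z) h0 :=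
      IntermediateField.adjoin_le_iff.2 hK
    exact h1 (hS ▸ IntermediateField.mem_top)
  have hER : Algebra.adjoin k (algebraMap k2 L '' P.T ∪ Set.range ι) ≤ R := by
    refine Algebra.adjoin_le ?_
    rintro _ (⟨t, ht, rfl⟩ | ⟨y, rfl⟩)
    exacts [⟨1, algebraMap P.T B ⟨t, ht⟩, by simp, by rw [hT, map_one, one_mul]⟩, hKR y]
  let N : L → Prop := fun x => ∃ w u, g w ≠ 0 ∧ π u = 0 ∧ Θ w * x = Θ u
  have hN1 : ∀ x x', N x → N x' → N (x + x') := by
    rintro x x' ⟨w, u, h, h0, e⟩ ⟨w', u', h', h0', e'⟩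
    exact ⟨w * w', u * w' + w * u', by rw [map_mul]; exact mul_ne_zero h h', by simp [h0, h0'], by
      rw [map_add, map_mul, map_mul, map_mul, ← e, ← e']; ring⟩
  have hN2 : ∀ x x', x ∈ R → N x' → N (x * x') := by
    rintro x x' ⟨w, u, h, e⟩ ⟨w', u', h', h0', e'⟩
    exact ⟨w * w', u * u', by rw [map_mul]; exact mul_ne_zero h h', by simp [h0'], by
      rw [map_mul, map_mul, ← e, ← e']; ring⟩
  have hN0 : N 0 := ⟨1, 0, by simp, by simp, by simp⟩
  have hE : ∀ u ∈ Algebra.adjoin k (algebraMap k2 L '' P.T ∪ Set.range ι),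
      ∃ y, (u, y) ∈ P.G ∧ N (u - ι y) := by
    intro u hu
    induction hu using Algebra.adjoin_induction with
    | mem x hx =>
      rcases hx with ⟨t, ht, rfl⟩ | ⟨y, rfl⟩
      · refine ⟨_, P.spT ⟨t, ht⟩, 1, algebraMap P.T B (⟨t, ht⟩ - algebraMap k _ (P.ψ ⟨t, ht⟩)),
          by simp, hπ _ (by simp), ?_⟩
        rw [hT, map_one, one_mul, ι.commutes, IsScalarTower.algebraMap_apply k k2 L, ← map_sub]
        rfl
      · exact ⟨y, P.spK y, by rwa [sub_self]⟩
    | algebraMap c => exact ⟨_, P.G.algebraMap_mem c, by rwa [ι.commutes, sub_self]⟩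
    | add a b _ _ ha hb =>
      obtain ⟨y, hy, h⟩ := ha
      obtain ⟨y', hy', h'⟩ := hb
      exact ⟨_, P.add hy hy', by convert hN1 _ _ h h' using 1; rw [map_add]; ring⟩
    | mul a b ha' _ ha hb =>
      obtain ⟨y, hy, h⟩ := ha
      obtain ⟨y', hy', h'⟩ := hb
      exact ⟨_, P.mul hy hy', by
        convert hN1 _ _ (hN2 _ _ (hER ha') h') (hN2 _ _ (hKR y') h) using 1; rw [map_mul]; ring⟩
  obtain ⟨u, hu, v, hv, w, hw, hvw, e⟩ := P.frac _ _ (hg b)
  obtain ⟨y, hy, h⟩ := hE u hu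
  have hy0 : y = 0 := by rw [P.uniq hy (e ▸ P.mul (hg b) hvw), hb, zero_mul]
  rw [hy0, map_zero, sub_zero] at h
  obtain ⟨h, u', h1, h2, h3⟩ := hN2 _ _ (hinv v (hER hv) w hvw hw) h
  refine ⟨h, h1, ?_⟩
  rw [← map_mul, ← h2]
  congr 1
  apply hΘ
  rw [map_mul, ← h3, ← e, mul_comm (Θ b), inv_mul_cancel_left₀ (P.ne hvw hw)]

/-- The special fibre of a smooth model over `T`. -/
lemma fibre {B : Type} [CommRing B] [Algebra P.T B] [Algebra.Smooth P.T B] (Θ : B →+* L)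
    (hΘ : Function.Injective Θ) (hT : ∀ t : P.T, Θ (algebraMap _ B t) = algebraMap k2 L t)
    {S : Set K} (hS : IntermediateField.adjoin k S = ⊤)
    (hK : ∀ s ∈ S, ∃ w u y, y ≠ 0 ∧ (Θ w, y) ∈ P.G ∧ Θ w * ι s = Θ u) {D O : Subalgebra k K}
    (h1 : ∀ b, ∃ y ∈ D, (Θ b, y) ∈ P.G) (h2 : ∀ y ∈ D, ∃ b, (Θ b, y) ∈ P.G) (hO : IsPoint D O) :
    Algebra.FormallySmooth k O := by
  obtain ⟨g, hg⟩ := P.exists_hom Θ fun b => (h1 b).imp fun _ h => h.2
  let _ : Algebra P.T k := P.ψ.toRingHom.toAlgebra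
  let _ : Algebra P.T K := ((algebraMap k K).comp P.ψ.toRingHom).toAlgebra
  have : IsScalarTower P.T k K := .of_algebraMap_eq fun _ => rfl
  let g' : B →ₐ[P.T] K := { g with commutes' := fun t => P.uniq (hg _) (hT t ▸ P.spT t) }
  let ρ : k ⊗[P.T] B →ₐ[k] K := Algebra.TensorProduct.lift (Algebra.ofId k K) g' fun _ _ => .all _ _
  let π : B →+* k ⊗[P.T] B := (Algebra.TensorProduct.includeRight : B →ₐ[P.T] _).toRingHom
  have hρπ : ∀ b, ρ (π b) = g b := fun b => by simp [ρ, π, g']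
  have hπT : ∀ t : P.T, π (algebraMap _ B t) = algebraMap k _ (P.ψ t) := fun t => by
    change (Algebra.TensorProduct.includeRight : B →ₐ[P.T] _) _ = _
    rw [AlgHom.commutes]
    rfl
  have hπ : Function.Surjective π := fun z => by
    induction z with
    | zero => exact ⟨0, map_zero _⟩
    | tmul c b =>
      refine ⟨algebraMap P.T B (algebraMap k _ c) * b, ?_⟩
      rw [map_mul, hπT, P.ψ.commutes]
      simp [π]
    | add a b ha hb =>
      obtain ⟨a, rfl⟩ := ha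
      obtain ⟨b, rfl⟩ := hb
      exact ⟨a + b, map_add _ _ _⟩
  have hr : ρ.range = D := by
    ext y
    constructor
    · rintro ⟨z, rfl⟩
      obtain ⟨b, rfl⟩ := hπ z
      obtain ⟨y, hy, h⟩ := h1 b
      change ρ (π b) ∈ D
      rwa [hρπ, P.uniq (hg b) h]
    · intro hy
      obtain ⟨b, h⟩ := h2 y hy
      exact ⟨π b, (hρπ b).trans (P.uniq (hg b) h)⟩
  refine smooth_pt ρ (fun z hz => ?_) (hr ▸ hO)
  obtain ⟨b, rfl⟩ := hπ z
  obtain ⟨h, h3, h4⟩ := P.ker_loc Θ hΘ hT g hg hS (fun s hs => by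
    obtain ⟨w, u, y, hy, h, e⟩ := hK s hs
    exact ⟨w, u, P.uniq (hg w) h ▸ hy, e⟩) π (fun t ht => by rw [hπT, ht, map_zero]) b
    ((hρπ b).symm.trans hz)
  exact ⟨π h, by rwa [hρπ], h4⟩

end Plc

end Place

section Exist

variable {k k2 K L : Type} [Field k] [Field k2] [Field K] [Field L] [Algebra k k2] [Algebra k K]
  [Algebra k L] [Algebra k2 L] [IsScalarTower k k2 L]

lemma exists_pt [IsAlgClosed k] {C : Set k2} (hC : C.Finite) :
    ∃ (T : Subalgebra k k2) (ψ : T →ₐ[k] k), ∀ c ∈ C, ∃ h : c ∈ T, c ≠ 0 → ψ ⟨c, h⟩ ≠ 0 := by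
  let T := Algebra.adjoin k (C ∪ C⁻¹)
  have : Algebra.FiniteType k T := (Subalgebra.fg_iff_finiteType _).1
    (Subalgebra.fg_def.2 ⟨_, hC.union hC.inv, rfl⟩)
  obtain ⟨m, hm⟩ := Ideal.exists_maximal T
  let _ := Ideal.Quotient.field m
  have : Module.Finite k (T ⧸ m) := finite_of_finite_type_of_isJacobsonRing k (T ⧸ m)
  refine ⟨T, (IsAlgClosed.lift : (T ⧸ m) →ₐ[k] k).comp (Ideal.Quotient.mkₐ k m), fun c hc =>
    ⟨Algebra.subset_adjoin (Or.inl hc), fun h0 => IsUnit.ne_zero (IsUnit.map _ ?_)⟩⟩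
  exact IsUnit.of_mul_eq_one ⟨c⁻¹, Algebra.subset_adjoin (Or.inr (by simpa using hc))⟩
    (Subtype.ext (mul_inv_cancel₀ h0))

/-- The inclusion of tensor products. -/
noncomputable def inc (K : Type) [Field K] [Algebra k K] (T : Subalgebra k k2) :
    T ⊗[k] K →ₐ[k] k2 ⊗[k] K := Algebra.TensorProduct.map T.val (AlgHom.id k K)

/-- The specialization map. -/
noncomputable def spc (K : Type) [Field K] [Algebra k K] {T : Subalgebra k k2} (ψ : T →ₐ[k] k) :
    T ⊗[k] K →ₐ[k] K := Algebra.TensorProduct.productMap ((Algebra.ofId k K).comp ψ) (AlgHom.id k K)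

lemma inc_inj (T : Subalgebra k k2) : Function.Injective (inc K T) :=
  Module.Flat.rTensor_preserves_injective_linearMap (M := K) T.val.toLinearMap
    Subtype.val_injective

lemma exists_spec [IsAlgClosed k] {C : Set k2} (hC : C.Finite) {Z : Set (k2 ⊗[k] K)}
    (hZ : Z.Finite) : ∃ (T : Subalgebra k k2) (ψ : T →ₐ[k] k), C ⊆ T ∧
      ∀ z ∈ Z, ∃ z', inc K T z' = z ∧ (z ≠ 0 → spc K ψ z' ≠ 0) := by
  let ε := Module.Basis.ofVectorSpace k K
  let β := Algebra.TensorProduct.basis k2 ε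
  obtain ⟨T, ψ, h⟩ := exists_pt (k := k) (hC.union (hZ.biUnion fun z _ => (β.repr z).finite_range))
  refine ⟨T, ψ, fun c hc => (h c (Or.inl hc)).1, fun z hz => ?_⟩
  choose h1 h2 using fun i => h (β.repr z i) (Or.inr (Set.mem_biUnion hz ⟨i, rfl⟩))
  refine ⟨∑ i ∈ (β.repr z).support, (⟨_, h1 i⟩ : T) ⊗ₜ ε i, ?_, fun h0 e => h0 ?_⟩
  · conv_rhs => rw [← β.linearCombination_repr z, Finsupp.linearCombination_apply, Finsupp.sum]
    rw [map_sum]
    refine Finset.sum_congr rfl fun i _ => ?_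
    simp [inc, β, TensorProduct.smul_tmul']
  · rw [map_sum] at e
    have h3 := linearIndependent_iff'.1 ε.linearIndependent (β.repr z).support
      (fun i => ψ ⟨_, h1 i⟩) (by
        rw [← e]
        refine Finset.sum_congr rfl fun i _ => ?_
        simp [spc, Algebra.smul_def])
    refine β.repr.map_eq_zero_iff.1 (Finsupp.ext fun i => ?_)
    by_contra h4
    exact h2 i h4 (h3 i (Finsupp.mem_support_iff.2 h4))

lemma tensor_domain [IsAlgClosed k] : IsDomain (k2 ⊗[k] K) := by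
  have : NoZeroDivisors (k2 ⊗[k] K) := ⟨fun {x y} hxy => by
    by_contra h
    rw [not_or] at h
    obtain ⟨T, ψ, -, H⟩ := exists_spec (k := k) (Set.finite_empty (α := k2))
      (Set.toFinite {x, y})
    obtain ⟨x', rfl, hx⟩ := H x (by simp)
    obtain ⟨y', rfl, hy⟩ := H y (by simp)
    have h1 : x' * y' = 0 := inc_inj T (by rw [map_mul, hxy, map_zero])
    exact mul_ne_zero (hx h.1) (hy h.2) (by rw [← map_mul, h1, map_zero])⟩
  exact NoZeroDivisors.to_isDomain _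

/-- Existence of places. -/
lemma exists_plc [IsAlgClosed k] (ι : K →ₐ[k] L) (φ : k2 ⊗[k] K →ₐ[k] L)
    (hφ : Function.Injective φ) (hφι : ∀ c y, φ (c ⊗ₜ y) = algebraMap k2 L c * ι y) {C : Set k2}
    (hC : C.Finite) {W : Set L} (hW : W.Finite)
    (hfr : ∀ w ∈ W, w ≠ 0 ∧ ∃ z z', z' ≠ 0 ∧ w * φ z' = φ z) :
    ∃ P : Plc k2 ι, C ⊆ P.T ∧ ∀ w ∈ W, ∃ y, y ≠ 0 ∧ (w, y) ∈ P.G := by
  choose! h0 z z' hz' hz using hfr
  obtain ⟨T, ψ, hCT, H⟩ := exists_spec (k := k) hC ((hW.image z).union (hW.image z'))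
  let l := φ.comp (inc K T)
  have hl : Function.Injective l := hφ.comp (inc_inj T)
  have hlt : ∀ (t : T) (y : K), l (t ⊗ₜ y) = algebraMap k2 L t * ι y := fun t y => hφι _ _
  have hst : ∀ (t : T) (y : K), spc K ψ (t ⊗ₜ y) = algebraMap k K (ψ t) * y := fun t y => rfl
  let G : Subalgebra k (L × K) :=
    { carrier := {p | ∃ u v, spc K ψ v ≠ 0 ∧ p.1 * l v = l u ∧ p.2 * spc K ψ v = spc K ψ u}
      mul_mem' := by
        rintro p p' ⟨u, v, h, e1, e2⟩ ⟨u', v', h', e1', e2'⟩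
        refine ⟨u * u', v * v', by rw [map_mul]; exact mul_ne_zero h h', ?_, ?_⟩
        · rw [map_mul, map_mul, ← e1, ← e1', Prod.fst_mul]; ring
        · rw [map_mul, map_mul, ← e2, ← e2', Prod.snd_mul]; ring
      add_mem' := by
        rintro p p' ⟨u, v, h, e1, e2⟩ ⟨u', v', h', e1', e2'⟩
        refine ⟨u * v' + v * u', v * v', by rw [map_mul]; exact mul_ne_zero h h', ?_, ?_⟩
        · rw [map_add, map_mul, map_mul, map_mul, ← e1, ← e1', Prod.fst_add]; ring
        · rw [map_add, map_mul, map_mul, map_mul, ← e2, ← e2', Prod.snd_add]; ring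
      algebraMap_mem' := fun c => ⟨algebraMap k _ c, 1, by simp,
        by rw [map_one, mul_one, AlgHom.commutes]; rfl,
        by rw [map_one, mul_one, AlgHom.commutes]; rfl⟩ }
  have hG : ∀ u, (l u, spc K ψ u) ∈ G := fun u => ⟨u, 1, by simp, by simp, by simp⟩
  have hE : ∀ u, l u ∈ Algebra.adjoin k (algebraMap k2 L '' T ∪ Set.range ι) := fun u => by
    induction u with
    | zero => rw [map_zero]; exact zero_mem _
    | tmul t y =>
      rw [hlt]
      exact mul_mem (Algebra.subset_adjoin (Or.inl ⟨t, t.2, rfl⟩))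
        (Algebra.subset_adjoin (Or.inr ⟨y, rfl⟩))
    | add a b ha hb => rw [map_add]; exact add_mem ha hb
  refine ⟨⟨T, ψ, G, ?_, fun t => ?_, fun y => ?_, ?_, ?_⟩, hCT, fun w hw => ?_⟩
  · rintro y ⟨u, v, h, e1, e2⟩
    have h1 : u = 0 := hl (by rw [← e1, map_zero]; exact zero_mul _)
    rw [h1, map_zero] at e2
    exact (mul_eq_zero.1 e2).resolve_right h
  · simpa [hlt, hst] using hG (t ⊗ₜ 1)
  · simpa [hlt, hst] using hG (1 ⊗ₜ y)
  · rintro x y ⟨u, v, h, e1, e2⟩ hy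
    have h1 : spc K ψ u ≠ 0 := e2 ▸ mul_ne_zero hy h
    have h2 : x ≠ 0 := by
      rintro rfl
      exact h1 (by rw [hl (a₁ := u) (a₂ := 0) (by rw [← e1, map_zero]; exact zero_mul _), map_zero])
    exact ⟨v, u, h1, by rw [← e1]; exact inv_mul_cancel_left₀ h2 _,
      by rw [← e2]; exact inv_mul_cancel_left₀ hy _⟩
  · rintro x y ⟨u, v, h, e1, -⟩
    exact ⟨_, hE u, _, hE v, _, h, hG v, e1⟩
  · obtain ⟨u, hu, hu'⟩ := H _ (Or.inl ⟨w, hw, rfl⟩)
    obtain ⟨v, hv, hv'⟩ := H _ (Or.inr ⟨w, hw, rfl⟩)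
    have h1 := hv' (hz' w hw)
    have h2 : z w ≠ 0 := fun e => mul_ne_zero (h0 w hw)
      ((map_ne_zero_iff φ hφ).2 (hz' w hw)) (by rw [hz w hw, e, map_zero])
    refine ⟨spc K ψ u / spc K ψ v, div_ne_zero (hu' h2) h1, u, v, h1, ?_, div_mul_cancel₀ _ h1⟩
    change w * φ (inc K T v) = φ (inc K T u)
    rw [hu, hv, hz w hw]

lemma fin_coeff {X : Set L} {d : L} (hd : d ∈ Algebra.adjoin k2 X) :
    ∃ C : Set k2, C.Finite ∧ d ∈ Algebra.adjoin k (algebraMap k2 L '' C ∪ X) := by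
  have hm : ∀ {C C' : Set k2}, C ⊆ C' → Algebra.adjoin k (algebraMap k2 L '' C ∪ X) ≤
      Algebra.adjoin k (algebraMap k2 L '' C' ∪ X) := fun h =>
    Algebra.adjoin_mono (Set.union_subset_union_left _ (Set.image_mono h))
  induction hd using Algebra.adjoin_induction with
  | mem x hx => exact ⟨∅, Set.finite_empty, Algebra.subset_adjoin (Or.inr hx)⟩
  | algebraMap c =>
    exact ⟨{c}, Set.finite_singleton c, Algebra.subset_adjoin (Or.inl ⟨c, rfl, rfl⟩)⟩
  | add a b _ _ ha hb =>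
    obtain ⟨C, hC, h⟩ := ha
    obtain ⟨C', hC', h'⟩ := hb
    exact ⟨_, hC.union hC', add_mem (hm Set.subset_union_left h) (hm Set.subset_union_right h')⟩
  | mul a b _ _ ha hb =>
    obtain ⟨C, hC, h⟩ := ha
    obtain ⟨C', hC', h'⟩ := hb
    exact ⟨_, hC.union hC', mul_mem (hm Set.subset_union_left h) (hm Set.subset_union_right h')⟩

lemma fin_coeffs {X Y : Set L} (hY : Y.Finite) (hd : ∀ d ∈ Y, d ∈ Algebra.adjoin k2 X) :
    ∃ C : Set k2, C.Finite ∧ ∀ T : Set k2, C ⊆ T →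
      ∀ d ∈ Y, d ∈ Algebra.adjoin k (algebraMap k2 L '' T ∪ X) := by
  choose! C hC h using fun d hd' => fin_coeff (k := k) (hd d hd')
  exact ⟨_, hY.biUnion hC, fun T hT d hd' => Algebra.adjoin_mono (Set.union_subset_union_left _
    (Set.image_mono ((Set.subset_biUnion_of_mem hd').trans hT))) (h d hd')⟩

end Exist

section Chart

variable {k k2 K L : Type} [Field k] [Field k2] [Field K] [Field L] [Algebra k k2] [Algebra k K]
  [Algebra k L] [Algebra k2 L] [IsScalarTower k k2 L]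

/-- Smoothness of a chart survives a general specialization. -/
lemma chart_smooth (ι : K →ₐ[k] L) {X : Set L} (hX : X.Finite)
    [Algebra.Smooth k2 (Algebra.adjoin k2 X)] {S : Set K} (hSf : S.Finite)
    (hS : IntermediateField.adjoin k S = ⊤)
    (hfr : ∀ s ∈ S, ∃ w ∈ Algebra.adjoin k2 X, w ≠ 0 ∧ w * ι s ∈ Algebra.adjoin k2 X) :
    ∃ C : Set k2, C.Finite ∧ ∃ W : Set L, W.Finite ∧ (∀ w ∈ W, w ∈ Algebra.adjoin k2 X ∧ w ≠ 0) ∧
      ∀ P : Plc k2 ι, C ⊆ P.T → (∀ w ∈ W, ∃ y, y ≠ 0 ∧ (w, y) ∈ P.G) →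
        ∀ Y : Set K, (∀ x ∈ X, ∃ y ∈ Y, (x, y) ∈ P.G) → (∀ y ∈ Y, ∃ x ∈ X, (x, y) ∈ P.G) →
          ∀ O, IsPoint (Algebra.adjoin k Y) O → Algebra.FormallySmooth k O := by
  obtain ⟨A0, B0, _, _, ⟨C0, hC0⟩, hsm, ⟨e⟩⟩ :=
    Algebra.Smooth.exists_subalgebra_fg k k2 (Algebra.adjoin k2 X)
  let E : k2 ⊗[A0] B0 →ₐ[k2] L := (Algebra.adjoin k2 X).val.comp e.symm.toAlgHom
  have hE : Function.Injective E := Subtype.val_injective.comp e.symm.injective
  let θ : B0 → L := fun b => E (1 ⊗ₜ b)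
  have hEt : ∀ c b, E (c ⊗ₜ b) = algebraMap k2 L c * θ b := fun c b => by
    rw [← Algebra.smul_def, ← map_smul, TensorProduct.smul_tmul', smul_eq_mul, mul_one]
  have hD : ∀ d ∈ Algebra.adjoin k2 X, d ∈ Algebra.adjoin k2 (Set.range θ) := fun d hd => by
    obtain ⟨z, hz⟩ := e.symm.surjective ⟨d, hd⟩
    have h1 : E z = d := congrArg Subtype.val hz
    rw [← h1]
    clear hz h1
    induction z with
    | zero => rw [map_zero]; exact zero_mem _
    | tmul c b =>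
      rw [hEt]
      exact mul_mem (Subalgebra.algebraMap_mem _ c) (Algebra.subset_adjoin ⟨b, rfl⟩)
    | add a b ha hb => rw [map_add]; exact add_mem ha hb
  obtain ⟨β, hβ⟩ : (⊤ : Subalgebra A0 B0).FG := Algebra.FiniteType.out
  choose! w hw hw0 hw1 using hfr
  obtain ⟨C1, hC1, H1⟩ := fin_coeffs (k := k) (k2 := k2) (X := Set.range θ)
    (hX.union ((hSf.image w).union (hSf.image fun s => w s * ι s))) (by
      rintro d (hd | ⟨s, hs, rfl⟩ | ⟨s, hs, rfl⟩)
      exacts [hD _ (Algebra.subset_adjoin hd), hD _ (hw s hs), hD _ (hw1 s hs)])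
  obtain ⟨C2, hC2, H2⟩ := fin_coeffs (k := k) (k2 := k2) (X := X) (β.finite_toSet.image θ) (by
    rintro _ ⟨b, -, rfl⟩
    exact (e.symm (1 ⊗ₜ b)).2)
  refine ⟨_, C0.finite_toSet.union (hC1.union hC2), _, hSf.image w, ?_,
    fun P hP hW Y hXY hYX O hO => ?_⟩
  · rintro _ ⟨s, hs, rfl⟩
    exact ⟨hw s hs, hw0 s hs⟩
  have hA : A0 ≤ P.T := hC0 ▸ Algebra.adjoin_le (Set.subset_union_left.trans hP)
  replace H1 := H1 P.T ((Set.subset_union_left.trans Set.subset_union_right).trans hP)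
  replace H2 := H2 P.T ((Set.subset_union_right.trans Set.subset_union_right).trans hP)
  let _ : Algebra A0 P.T := (Subalgebra.inclusion hA).toRingHom.toAlgebra
  have : IsScalarTower A0 P.T k2 := .of_algebraMap_eq fun _ => rfl
  let μ : P.T ⊗[A0] B0 →ₐ[A0] k2 ⊗[A0] B0 :=
    Algebra.TensorProduct.map (IsScalarTower.toAlgHom A0 P.T k2) (AlgHom.id A0 B0)
  have hμ : Function.Injective μ :=
    Module.Flat.rTensor_preserves_injective_linearMap (M := B0)
      (IsScalarTower.toAlgHom A0 P.T k2).toLinearMap Subtype.val_injective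
  let Θ : P.T ⊗[A0] B0 →+* L := E.toRingHom.comp μ.toRingHom
  have hΘt : ∀ (t : P.T) b, Θ (t ⊗ₜ b) = algebraMap k2 L t * θ b := fun t b => hEt _ _
  have hθ1 : θ 1 = 1 := map_one E
  have hT : ∀ t : P.T, Θ (algebraMap _ _ t) = algebraMap k2 L t := fun t => by
    rw [← mul_one (algebraMap k2 L t), ← hθ1, ← hΘt]
    rfl
  have hr : ∀ d ∈ Algebra.adjoin k (algebraMap k2 L '' P.T ∪ Set.range θ), ∃ b, Θ b = d := by
    intro d hd
    induction hd using Algebra.adjoin_induction with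
    | mem x hx =>
      rcases hx with ⟨t, ht, rfl⟩ | ⟨b, rfl⟩
      exacts [⟨_, hT ⟨t, ht⟩⟩, ⟨1 ⊗ₜ b, by simp [hΘt]⟩]
    | algebraMap c =>
      exact ⟨_, (hT (algebraMap k _ c)).trans (IsScalarTower.algebraMap_apply k k2 L c).symm⟩
    | add a b _ _ ha hb =>
      obtain ⟨a, rfl⟩ := ha
      obtain ⟨b, rfl⟩ := hb
      exact ⟨_, map_add _ _ _⟩
    | mul a b _ _ ha hb =>
      obtain ⟨a, rfl⟩ := ha
      obtain ⟨b, rfl⟩ := hb
      exact ⟨_, map_mul _ _ _⟩
  have hTm : ∀ t : P.T, algebraMap k2 L t ∈ Algebra.adjoin k (algebraMap k2 L '' P.T ∪ X) :=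
    fun t => Algebra.subset_adjoin (Or.inl ⟨t, t.2, rfl⟩)
  have hθ : ∀ b, θ b ∈ Algebra.adjoin k (algebraMap k2 L '' P.T ∪ X) := fun b => by
    have hb : b ∈ Algebra.adjoin A0 (β : Set B0) := hβ ▸ Algebra.mem_top
    induction hb using Algebra.adjoin_induction with
    | mem x hx => exact H2 _ ⟨x, hx, rfl⟩
    | algebraMap c =>
      have h1 : θ (algebraMap A0 B0 c) = algebraMap k2 L (algebraMap A0 P.T c) := by
        rw [← hT, ← one_mul (θ _), ← map_one (algebraMap k2 L), ← P.T.coe_one, ← hΘt,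
          Algebra.algebraMap_eq_smul_one, TensorProduct.tmul_smul,
          ← IsScalarTower.algebraMap_apply, Algebra.algebraMap_eq_smul_one]
        rfl
      rw [h1]
      exact hTm _
    | add a b _ _ ha hb =>
      rw [show θ (a + b) = θ a + θ b by simp only [θ, tmul_add, map_add]]
      exact add_mem ha hb
    | mul a b _ _ ha hb =>
      rw [show θ (a * b) = θ a * θ b by
        simp only [θ, ← map_mul, Algebra.TensorProduct.tmul_mul_tmul, mul_one]]
      exact mul_mem ha hb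
  refine P.fibre Θ (hE.comp hμ) hT hS (fun s hs => ?_) (fun b => P.exists_val (X := X)
    (fun x hx => (hXY x hx).imp fun y h => ⟨Algebra.subset_adjoin h.1, h.2⟩) ?_) (fun y hy => ?_) hO
  · obtain ⟨a, ha⟩ := hr _ (H1 _ (Or.inr (Or.inl ⟨s, hs, rfl⟩)))
    obtain ⟨u, hu⟩ := hr _ (H1 _ (Or.inr (Or.inr ⟨s, hs, rfl⟩)))
    obtain ⟨y, hy, h⟩ := hW _ ⟨s, hs, rfl⟩
    exact ⟨a, u, y, hy, ha ▸ h, by rw [ha, hu]⟩
  · induction b with
    | zero => rw [map_zero]; exact zero_mem _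
    | tmul t b => rw [hΘt]; exact mul_mem (hTm t) (hθ b)
    | add a b ha hb => rw [map_add]; exact add_mem ha hb
  · induction hy using Algebra.adjoin_induction with
    | mem y hy =>
      obtain ⟨x, hx, h⟩ := hYX y hy
      obtain ⟨b, rfl⟩ := hr _ (H1 _ (Or.inl hx))
      exact ⟨b, h⟩
    | algebraMap c =>
      refine ⟨algebraMap P.T _ (algebraMap k _ c), ?_⟩
      rw [hT]
      simpa using P.spT (algebraMap k _ c)
    | add a b _ _ ha hb =>
      obtain ⟨a, ha⟩ := ha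
      obtain ⟨b, hb⟩ := hb
      exact ⟨a + b, by rw [map_add]; exact P.add ha hb⟩
    | mul a b _ _ ha hb =>
      obtain ⟨a, ha⟩ := ha
      obtain ⟨b, hb⟩ := hb
      exact ⟨a * b, by rw [map_mul]; exact P.mul ha hb⟩

/-- A certificate for comparability on a chart. -/
lemma cmp_cert {k L : Type} [Field k] [Field L] [Algebra k L] (D : Subalgebra k L) (r : L)
    (h : ∀ O, IsPoint D O → r ∈ O ∨ r⁻¹ ∈ O) :
    ∃ d ∈ D, d * r ∈ D ∧ (1 - d) * r⁻¹ ∈ D := by
  let I : L → Ideal D := fun r =>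
    { carrier := {d | (d : L) * r ∈ D}
      add_mem' := fun {a b} ha hb => by
        change ((a : L) + b) * r ∈ D
        rw [add_mul]; exact add_mem ha hb
      zero_mem' := by
        change (0 : L) * r ∈ D
        rw [zero_mul]; exact zero_mem _
      smul_mem' := fun c a ha => by
        change (c : L) * a * r ∈ D
        rw [mul_assoc]; exact mul_mem c.2 ha }
  have h1 : I r ⊔ I r⁻¹ = ⊤ := by
    by_contra H
    obtain ⟨m, hm, hle⟩ := Ideal.exists_le_maximal _ H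
    obtain ⟨O, hO, hq⟩ := exists_point D ⟨m, hm.isPrime⟩
    have h2 : ∀ x ∈ O, ¬ I x ≤ m := fun x hx hI => by
      obtain ⟨a, ha, b, hb, hu, e⟩ := hO.le_loc hx
      refine hq ⟨b, hb⟩ hu (hI ?_)
      change b * x ∈ D
      rwa [e, mul_div_cancel₀ _ hu.2.1]
    rcases h O hO with h | h
    exacts [h2 _ h (le_sup_left.trans hle), h2 _ h (le_sup_right.trans hle)]
  obtain ⟨d, hd, d', hd', e⟩ := Submodule.mem_sup.1 (h1 ▸ Submodule.mem_top : (1 : D) ∈ I r ⊔ I r⁻¹)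
  refine ⟨d, d.2, hd, ?_⟩
  rw [show (1 : L) - d = d' from (eq_sub_of_add_eq' (congrArg Subtype.val e :)).symm]
  exact hd'

end Chart

section Main

lemma chart_span {k L : Type} [Field k] [Field L] [Algebra k L] (T : Set L) (g : L) :
    chart ⊥ (Submodule.span k T) g = Algebra.adjoin k ((· / g) '' T) := by
  refine le_antisymm (chart_le bot_le fun m hm => ?_) (Algebra.adjoin_le ?_)
  · induction hm using Submodule.span_induction with
    | mem y hy => exact Algebra.subset_adjoin ⟨y, hy, rfl⟩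
    | zero => simp
    | add a b _ _ ha hb => rw [add_div]; exact add_mem ha hb
    | smul c a _ ha => rw [smul_div_assoc]; exact Subalgebra.smul_mem _ ha c
  · rintro _ ⟨m, hm, rfl⟩
    exact div_mem_chart _ _ (Submodule.subset_span hm)

lemma pt_gen {k L : Type} [Field k] [Field L] [Algebra k L] {T : Set L} {O : Subalgebra k L}
    (h : Pt ⊥ (Submodule.span k T) O) : ∃ g ∈ T, IsPoint (Algebra.adjoin k ((· / g) '' T)) O := by
  obtain ⟨g, hg, hg0, hP⟩ := h
  have hmem : ∀ x ∈ Submodule.span k T, x / g ∈ O := fun x hx => hP.le (div_mem_chart _ _ hx)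
  obtain ⟨m, hm, hu⟩ := exists_un_of_span hP.lcl hg0
    (fun x hx => hmem x (Submodule.subset_span hx)) (by
      rw [← one_mul g]
      exact Submodule.mul_mem_mul (one_mem O) hg)
  have hm0 : m ≠ 0 := fun e => hu.2.1 (by simp [e])
  refine ⟨m, hm, chart_span (k := k) T m ▸ hP.of_le_loc (chart_le bot_le fun x hx => ?_)
    (chart_le bot_le fun x hx => ?_)⟩
  · rw [show x / m = x / g * (m / g)⁻¹ by field_simp]
    exact mul_mem (hmem x hx) hu.2.2
  · exact ⟨_, div_mem_chart _ _ hx, _, div_mem_chart _ _ hg, by simpa using hu.inv, by field_simp⟩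

variable {k k2 K L : Type} [Field k] [Field k2] [Field K] [Field L] [Algebra k k2] [Algebra k K]
  [Algebra k L] [Algebra k2 L] [IsScalarTower k k2 L]

/-- A smooth model of the compositum with a linearly disjoint field of constants specializes to a
smooth model over the algebraically closed field `k`. -/
theorem spread_pt [IsAlgClosed k] (ι : K →ₐ[k] L) (φ : k2 ⊗[k] K →ₐ[k] L)
    (hφ : Function.Injective φ) (hφι : ∀ c y, φ (c ⊗ₜ y) = algebraMap k2 L c * ι y) {S : Set K}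
    (hSf : S.Finite) (hS : IntermediateField.adjoin k S = ⊤) (M : Submodule k2 L) (hM : M.FG)
    (hM0 : M ≠ ⊥) (hMf : ∀ x ∈ M, ∃ z z', z' ≠ 0 ∧ x * φ z' = φ z)
    (hP : ∀ O : Subalgebra k2 L, Pt ⊥ M O →
      (∀ r ∈ S, ι r ∈ O ∨ (ι r)⁻¹ ∈ O) ∧ Algebra.FormallySmooth k2 O) :
    ∃ M' : Submodule k K, M'.FG ∧ M' ≠ ⊥ ∧ ∀ O : Subalgebra k K, Pt ⊥ M' O →
      (∀ r ∈ S, r ∈ O ∨ r⁻¹ ∈ O) ∧ Algebra.FormallySmooth k O := by
  obtain ⟨T0, rfl⟩ := hM
  obtain ⟨T, hT, hT0, hTM⟩ : ∃ T : Set L, T.Finite ∧ (∀ m ∈ T, m ≠ 0) ∧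
      Submodule.span k2 (T0 : Set L) = Submodule.span k2 T :=
    ⟨(T0 : Set L) \ {0}, T0.finite_toSet.sdiff, fun m hm => hm.2,
      Submodule.span_sdiff_singleton_zero.symm⟩
  rw [hTM] at hM0 hMf hP
  let F : Subalgebra k2 L :=
    { carrier := {x | ∃ z z', z' ≠ 0 ∧ x * φ z' = φ z}
      mul_mem' := by
        rintro x x' ⟨u, v, h, e⟩ ⟨u', v', h', e'⟩
        refine ⟨u * u', v * v', fun H => mul_ne_zero ((map_ne_zero_iff φ hφ).2 h)
          ((map_ne_zero_iff φ hφ).2 h') (by rw [← map_mul, H, map_zero]), ?_⟩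
        rw [map_mul, map_mul, ← e, ← e']; ring
      add_mem' := by
        rintro x x' ⟨u, v, h, e⟩ ⟨u', v', h', e'⟩
        refine ⟨u * v' + v * u', v * v', fun H => mul_ne_zero ((map_ne_zero_iff φ hφ).2 h)
          ((map_ne_zero_iff φ hφ).2 h') (by rw [← map_mul, H, map_zero]), ?_⟩
        rw [map_add, map_mul, map_mul, map_mul, ← e, ← e']; ring
      algebraMap_mem' := fun c => ⟨c ⊗ₜ 1, 1, fun H => one_ne_zero (α := L) (by
        rw [← map_one φ, H, map_zero]), by simp [hφι]⟩ }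
  have hF : ∀ m ∈ T, Algebra.adjoin k2 ((· / m) '' T) ≤ F := fun m hm => by
    refine Algebra.adjoin_le ?_
    rintro _ ⟨x, hx, rfl⟩
    obtain ⟨u, v, h, e⟩ := hMf m (Submodule.subset_span hm)
    change x / m ∈ F
    rw [div_eq_mul_inv]
    refine mul_mem (s := F) (hMf x (Submodule.subset_span hx)) ⟨v, u, fun H => ?_, ?_⟩
    · exact mul_ne_zero (hT0 m hm) ((map_ne_zero_iff φ hφ).2 h) (by rw [e, H, map_zero])
    · rw [← e, inv_mul_cancel_left₀ (hT0 m hm)]
  have hpt : ∀ m ∈ T, ∀ O, IsPoint (Algebra.adjoin k2 ((· / m) '' T)) O →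
      Pt ⊥ (Submodule.span k2 T) O := fun m hm O hO =>
    ⟨m, Submodule.subset_span hm, hT0 m hm, chart_span (k := k2) T m ▸ hO⟩
  choose! d hd hd1 hd2 using fun m hm r hr =>
    cmp_cert _ (ι r) fun O hO => (hP O (hpt m hm O hO)).1 r hr
  have H1 := fun m (hm : m ∈ T) => by
    have : Algebra.FiniteType k2 (Algebra.adjoin k2 ((· / m) '' T)) :=
      (Subalgebra.fg_iff_finiteType _).1 (Subalgebra.fg_def.2 ⟨_, hT.image _, rfl⟩)
    have := smooth_of_points _ fun O hO => (hP O (hpt m hm O hO)).2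
    exact chart_smooth (k2 := k2) ι (hT.image (· / m)) hSf hS fun r hr => by
      by_cases h0 : d m r = 0
      · by_cases h1 : ι r = 0
        · exact ⟨1, one_mem _, one_ne_zero, by rw [h1, mul_zero]; exact zero_mem _⟩
        · exact ⟨(ι r)⁻¹, by simpa [h0] using hd2 m hm r hr, inv_ne_zero h1, by
            rw [inv_mul_cancel₀ h1]; exact one_mem _⟩
      · exact ⟨_, hd m hm r hr, h0, hd1 m hm r hr⟩
  choose! C hC W hW hWD H1 using H1
  choose! C' hC' H2 using fun m (hm : m ∈ T) => fin_coeffs (k := k) (k2 := k2) (X := (· / m) '' T)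
    ((hSf.image (d m)).union ((hSf.image fun r => d m r * ι r).union
      (hSf.image fun r => (1 - d m r) * (ι r)⁻¹))) (by
    rintro _ (⟨r, hr, rfl⟩ | ⟨r, hr, rfl⟩ | ⟨r, hr, rfl⟩)
    exacts [hd m hm r hr, hd1 m hm r hr, hd2 m hm r hr])
  obtain ⟨P, hPC, hPW⟩ := exists_plc ι φ hφ hφι ((hT.biUnion hC).union (hT.biUnion hC'))
    (hT.union (hT.biUnion hW)) (by
      rintro w (hw | hw)
      · exact ⟨hT0 w hw, hMf w (Submodule.subset_span hw)⟩
      · obtain ⟨m, hm, hw⟩ := Set.mem_iUnion₂.1 hw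
        exact ⟨(hWD m hm w hw).2, hF m hm (hWD m hm w hw).1⟩)
  choose! v hv0 hv using fun m (hm : m ∈ T) => hPW m (Or.inl hm)
  refine ⟨Submodule.span k (v '' T), Submodule.fg_def.2 ⟨_, hT.image v, rfl⟩, fun H => hM0 ?_,
    fun O hO => ?_⟩
  · rw [Submodule.span_eq_bot] at H ⊢
    exact fun m hm => absurd (H _ ⟨m, hm, rfl⟩) (hv0 m hm)
  obtain ⟨_, ⟨m, hm, rfl⟩, hO⟩ := pt_gen hO
  have hq : ∀ x ∈ T, (x / m, v x / v m) ∈ P.G := fun x hx => by
    rw [div_eq_mul_inv, div_eq_mul_inv]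
    exact P.mul (hv x hx) (P.inv _ _ (hv m hm) (hv0 m hm))
  have hXY : ∀ x ∈ (· / m) '' T, ∃ y ∈ (· / v m) '' (v '' T), (x, y) ∈ P.G := by
    rintro _ ⟨x, hx, rfl⟩
    exact ⟨_, ⟨_, ⟨x, hx, rfl⟩, rfl⟩, hq x hx⟩
  refine ⟨fun r hr => ?_, H1 m hm P
    (((Set.subset_biUnion_of_mem hm).trans Set.subset_union_left).trans hPC)
    (fun w hw => hPW w (Or.inr (Set.mem_biUnion hm hw))) _ hXY ?_ O hO⟩
  · have H3 := fun x hx => P.exists_val (D := O)
      (fun x hx => (hXY x hx).imp fun y h => ⟨hO.le (Algebra.subset_adjoin h.1), h.2⟩)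
      (H2 m hm P.T (((Set.subset_biUnion_of_mem hm).trans Set.subset_union_right).trans hPC) x hx)
    obtain ⟨a, ha, h⟩ := H3 _ (Or.inl ⟨r, hr, rfl⟩)
    obtain ⟨b, hb, h'⟩ := H3 _ (Or.inr (Or.inl ⟨r, hr, rfl⟩))
    obtain ⟨c, hc, h''⟩ := H3 _ (Or.inr (Or.inr ⟨r, hr, rfl⟩))
    rw [P.uniq h' (P.mul h (P.spK r))] at hb
    rw [P.uniq h'' (y' := (1 - a) * r⁻¹) (by
      simpa only [map_inv₀] using P.mul (x := 1 - d m r) (y := 1 - a)
        (sub_mem (one_mem P.G) h) (P.spK r⁻¹))] at hc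
    rcases hO.lcl a ha (1 - a) (sub_mem (one_mem _) ha) (by simpa using Un.one O) with hu | hu
    · exact Or.inl (by simpa [hu.2.1] using mul_mem hu.2.2 hb)
    · exact Or.inr (by simpa [hu.2.1] using mul_mem hu.2.2 hc)
  · rintro _ ⟨_, ⟨x, hx, rfl⟩, rfl⟩
    exact ⟨_, ⟨x, hx, rfl⟩, hq x hx⟩

end Main

end SpreadM

open SpreadM in
/-- Smooth models descend from any extension of an algebraically closed field. -/
theorem spread {k k2 : Type} [Field k] [IsAlgClosed k] [Field k2] [Algebra k k2] {n : ℕ}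
    (h : ModelS k2 n) : ModelS k n := by
  intro K _ _ S hSf hS htr
  have := tensor_domain (k := k) (k2 := k2) (K := K)
  let K2 := FractionRing (k2 ⊗[k] K)
  let φ0 : k2 ⊗[k] K →ₐ[k2] K2 := IsScalarTower.toAlgHom k2 _ K2
  have hφ0 : Function.Injective φ0 := IsFractionRing.injective _ K2
  let ι0 : K →ₐ[k] K2 := (φ0.restrictScalars k).comp Algebra.TensorProduct.includeRight
  have hφι : ∀ c y, φ0 (c ⊗ₜ y) = algebraMap k2 K2 c * ι0 y := fun c y => by
    rw [← Algebra.smul_def]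
    change _ = c • φ0 (1 ⊗ₜ y)
    rw [← map_smul, TensorProduct.smul_tmul', smul_eq_mul, mul_one]
  have hfr : ∀ x : K2, ∃ z z', z' ≠ 0 ∧ x * φ0 z' = φ0 z := fun x => by
    obtain ⟨z, z', h, rfl⟩ := IsFractionRing.div_surjective (A := k2 ⊗[k] K) x
    have h1 := nonZeroDivisors.ne_zero h
    exact ⟨z, z', h1, div_mul_cancel₀ _ ((map_ne_zero_iff φ0 hφ0).2 h1)⟩
  have hall : ∀ F : IntermediateField k2 K2, (∀ y, ι0 y ∈ F) → F = ⊤ := fun F hF => by
    have h1 : ∀ z, φ0 z ∈ F := fun z => by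
      induction z with
      | zero => rw [map_zero]; exact zero_mem _
      | tmul c y => rw [hφι]; exact mul_mem (F.algebraMap_mem c) (hF y)
      | add a b ha hb => rw [map_add]; exact add_mem ha hb
    refine eq_top_iff.2 fun x _ => ?_
    obtain ⟨z, z', h, e⟩ := hfr x
    rw [eq_div_of_mul_eq ((map_ne_zero_iff φ0 hφ0).2 h) e]
    exact div_mem (h1 z) (h1 z')
  have hsub : ∀ (B : Set K) (y : K), y ∈ IntermediateField.adjoin k B →
      ι0 y ∈ IntermediateField.adjoin k2 (ι0 '' B) := fun B y hy => by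
    have h1 : IntermediateField.adjoin k B ≤
        ((IntermediateField.adjoin k2 (ι0 '' B)).restrictScalars k).comap ι0 :=
      IntermediateField.adjoin_le_iff.2 fun b hb => IntermediateField.subset_adjoin _ _ ⟨b, hb, rfl⟩
    exact h1 hy
  have htr2 : Algebra.trdeg k2 K2 ≤ n := by
    obtain ⟨B, hB⟩ := exists_isTranscendenceBasis k K
    have h1 := hB.isAlgebraic_field
    rw [Subtype.range_coe] at h1
    let F := IntermediateField.adjoin k2 (ι0 '' B)
    have h2 : ∀ y, IsIntegral F (ι0 y) := fun y => by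
      let τ : IntermediateField.adjoin k B →+* F :=
        (ι0.toRingHom.comp (IntermediateField.adjoin k B).val.toRingHom).codRestrict F
          fun z => hsub B z z.2
      exact (h1.isAlgebraic y).isIntegral.map_of_comp_eq τ ι0.toRingHom (RingHom.ext fun _ => rfl)
    have h3 := hall ((algebraicClosure F K2).restrictScalars k2) fun y =>
      mem_algebraicClosure_iff'.2 (h2 y)
    have : Algebra.IsAlgebraic F K2 := ⟨fun x => mem_algebraicClosure_iff.1
      (show x ∈ (algebraicClosure F K2).restrictScalars k2 from h3 ▸ IntermediateField.mem_top)⟩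
    have : Algebra.IsAlgebraic (Algebra.adjoin k2 (ι0 '' B)) K2 :=
      IntermediateField.isAlgebraic_adjoin_iff_top.1 ‹_›
    refine (Algebra.IsAlgebraic.trdeg_le_cardinalMk k2 (ι0 '' B)).trans
      (Cardinal.mk_image_le.trans (le_of_eq_of_le ?_ htr))
    exact hB.cardinalMk_eq_trdeg
  obtain ⟨L, _, _, j, M, hM, hM0, hMj, hP⟩ := h K2 (ι0 '' S) (hSf.image _)
    (hall _ fun y => hsub S y (hS ▸ IntermediateField.mem_top)) htr2
  let _ : Algebra k L := ((algebraMap k2 L).comp (algebraMap k k2)).toAlgebra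
  have : IsScalarTower k k2 L := .of_algebraMap_eq fun _ => rfl
  obtain ⟨M', h1, h2, h3⟩ := spread_pt ((j.restrictScalars k).comp ι0)
    ((j.comp φ0).restrictScalars k) (j.toRingHom.injective.comp hφ0)
    (fun c y => by simp [hφι]) hSf hS M hM hM0 (fun x hx => by
      obtain ⟨u, rfl⟩ := hMj x hx
      obtain ⟨z, z', h, e⟩ := hfr u
      exact ⟨z, z', h, by simp [← e]⟩)
    fun O hO => ⟨fun r hr => (hP O hO).1 _ ⟨r, hr, rfl⟩, (hP O hO).2⟩
  exact ⟨K, inferInstance, inferInstance, AlgHom.id k K, M', h1, h2, fun x _ => ⟨x, rfl⟩, h3⟩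

/-- It is enough to treat algebraically closed fields of large cardinality. -/
theorem spread_big {k : Type} [Field k] [IsAlgClosed k] (ι : Type) {n : ℕ}
    (h : ModelS (AlgebraicClosure (FractionRing (MvPolynomial ι k))) n) : ModelS k n := spread h

end Pool.Agent.MP_19ffc6_ag.Res
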