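import Pool.Agent.MP_19ffc6_ag.Res.Bez
import Pool.Agent.MP_19ffc6_ag.Res.Etale
import Pool.Agent.MP_19ffc6_ag.Res.Spread

-- ======== part 0: formerly Pool.Agent.MP_19ffc6_ag.Res.ParA
section MrgPart0

-- ======== part 0: formerly Pool.Agent.MP_19ffc6_ag.Res.Tores
section MrgPart0

/-! PROJECT RES, part B: from toroidal models to normal crossings models, dimension zero, smooth
models and the final glue. -/

set_option autoImplicit false

namespace Pool.Agent.MP_19ffc6_ag.Res.B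

open Pool.Agent.MP_19ffc6_ag.Wild Pool.Agent.MP_19ffc6_ag.Lci Pool.Agent.MP_19ffc6_ag.Res.Tor

variable {k L : Type} [Field k] [Field L] [Algebra k L]

/-- `O` is a rational point of an affine model `D` of a field `K` of transcendence degree `n`. -/
structure Aff (n : ℕ) (K : IntermediateField k L) (D O : Subalgebra k L) : Prop where
  deg : Algebra.trdeg k K = n
  fg : D.FG
  le : ∀ x ∈ D, x ∈ K
  frac : ∀ x ∈ K, ∃ b ∈ D, b ≠ 0 ∧ b * x ∈ D
  pt : IsPoint D O
  rt : Rt O

variable (k L) in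
/-- A rational point that is smooth over an affine space has a system of parameters that contains
the coordinates vanishing at the point. -/
def ParStmt : Prop :=
  ∀ (n : ℕ) (K : IntermediateField k L) (D O : Subalgebra k L) (ι : Type) [Fintype ι] (y : ι → L),
    Aff n K D O → AlgebraicIndependent k y → SF (Algebra.adjoin k (Set.range y)) O →
    ∃ (s : ℕ) (t : Fin s → L), Nat.card {i // ¬ Un O (y i)} + s = n ∧
      (∀ j, t j ∈ O ∧ ¬ Un O (t j)) ∧
      ∀ x ∈ O, ¬ Un O x → x ∈ Submodule.span O (y '' {i | ¬ Un O (y i)} ∪ Set.range t)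

variable (k L) in
/-- A regular rational point is smooth. -/
def KitStmt : Prop :=
  ∀ (n : ℕ) (K : IntermediateField k L) (D O : Subalgebra k L) (S : Finset L) (r s : ℕ)
    (x : Fin r → L) (t : Fin s → L), Aff n K D O → Par n S O x t → Algebra.FormallySmooth k O

section Mdl

variable {K : IntermediateField k L} {M M' : Submodule k L} {O D : Subalgebra k L} {g : L}

lemma chart_le_field (h : ∀ m ∈ M, m ∈ K) (hg : g ∈ M) : chart ⊥ M g ≤ K.toSubalgebra :=
  chart_le bot_le fun m hm => K.div_mem (h m hm) (h g hg)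

lemma IsPoint.le_field (h : IsPoint D O) (hD : D ≤ K.toSubalgebra) : O ≤ K.toSubalgebra := by
  intro x hx
  obtain ⟨a, ha, b, hb, -, rfl⟩ := h.le_loc hx
  exact K.div_mem (hD ha) (hD hb)

lemma Mdl.pt_le (h : Mdl K M) (hO : Pt ⊥ M O) : O ≤ K.toSubalgebra :=
  let ⟨_, hg, _, hO⟩ := hO; IsPoint.le_field hO (chart_le_field h.le hg)

lemma Mdl.aff {n : ℕ} (h : Mdl K M) (hn : Algebra.trdeg k K = n) (hO : Pt ⊥ M O) (hr : Rt O) :
    ∃ D, Aff n K D O :=
  let ⟨g, hg, hg0, hO⟩ := hO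
  ⟨_, hn, chart_fg Subalgebra.fg_bot h.fg g, chart_le_field h.le hg, h.frac g hg hg0, hO, hr⟩

/-- The generic point of a chart. -/
lemma isPoint_gen (D : Subalgebra k L) : IsPoint D (loc D ⊤) := isPoint_loc le_top val_top.lcl

lemma chart_scale (M : Submodule k L) {u : L} (hu : u ≠ 0) (g : L) :
    chart ⊥ (M * pr k u) (g * u) = chart ⊥ M g := by
  refine le_antisymm (chart_le bot_le fun x hx => ?_) (chart_le bot_le fun m hm => ?_)
  · refine Submodule.mul_induction_on hx (fun m hm y hy => ?_) fun a b ha hb => ?_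
    · obtain ⟨c, rfl⟩ := Submodule.mem_span_singleton.1 hy
      rw [mul_smul_comm, smul_div_assoc, mul_div_mul_right _ _ hu]
      exact Subalgebra.smul_mem _ (div_mem_chart _ _ hm) c
    · rw [add_div]; exact add_mem ha hb
  · rw [← mul_div_mul_right m g hu]
    exact div_mem_chart _ _ (Submodule.mul_mem_mul hm (mem_pr u))

lemma exists_of_mem_scale {u x : L} (hx : x ∈ M * pr k u) : ∃ m ∈ M, x = m * u := by
  refine Submodule.mul_induction_on hx (fun m hm y hy => ?_) ?_
  · obtain ⟨c, rfl⟩ := Submodule.mem_span_singleton.1 hy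
    exact ⟨c • m, M.smul_mem c hm, by rw [mul_smul_comm, smul_mul_assoc]⟩
  · rintro _ _ ⟨a, ha, rfl⟩ ⟨b, hb, rfl⟩
    exact ⟨a + b, add_mem ha hb, (add_mul _ _ _).symm⟩

lemma pt_of_scale {u : L} (hu : u ≠ 0) (h : Pt ⊥ (M * pr k u) O) : Pt ⊥ M O := by
  obtain ⟨g, hg, hg0, h⟩ := h
  obtain ⟨m, hm, rfl⟩ := exists_of_mem_scale hg
  exact ⟨m, hm, left_ne_zero_of_mul hg0, chart_scale M hu m ▸ h⟩

/-- A model whose points lie in `K` and dominate points of a model of `K` can be rescaled to a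
model of `K`. -/
lemma Mdl.of_dom (h : Mdl K M) (hfg : M'.FG) (h0 : M' ≠ ⊥)
    (hd : ∀ O', Pt ⊥ M' O' → O' ≤ K.toSubalgebra ∧ ∃ O, Pt ⊥ M O ∧ O ≤ O') :
    ∃ M'', Mdl K M'' ∧ ∀ O, Pt ⊥ M'' O → Pt ⊥ M' O := by
  obtain ⟨g, hg, hg0⟩ := Submodule.exists_mem_ne_zero_of_ne_bot h0
  have hu := inv_ne_zero hg0
  refine ⟨M' * pr k g⁻¹, ⟨hfg.mul (pr_fg _), fun e => ?_, fun x hx => ?_, fun a ha ha0 x hx => ?_⟩,
    fun O => pt_of_scale hu⟩
  · have := Submodule.mul_mem_mul hg (mem_pr (k := k) g⁻¹)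
    rw [e, mul_inv_cancel₀ hg0] at this
    exact one_ne_zero this
  · obtain ⟨m, hm, rfl⟩ := exists_of_mem_scale hx
    rw [← div_eq_mul_inv]
    exact (hd _ ⟨g, hg, hg0, isPoint_gen _⟩).1 (le_loc _ _ (div_mem_chart _ _ hm))
  · obtain ⟨m, hm, rfl⟩ := exists_of_mem_scale ha
    rw [chart_scale M' hu]
    obtain ⟨-, O, ⟨g1, hg1, hg10, hO⟩, hle⟩ := hd _ ⟨m, hm, left_ne_zero_of_mul ha0, isPoint_gen _⟩
    obtain ⟨b, hb, hb0, hbx⟩ := h.frac g1 hg1 hg10 x hx
    obtain ⟨p, hp, q, hq, hq', e⟩ := hle (hO.le hb)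
    obtain ⟨p', hp', q', hq1, hq1', e'⟩ := hle (hO.le hbx)
    have hp0 : p ≠ 0 := fun c => hb0 (by rw [e, c, zero_div])
    refine ⟨p * q', mul_mem hp hq1, mul_ne_zero hp0 hq1'.2.1, ?_⟩
    have h1 : p * q' * x = p' * q := by
      have h2 := hq'.2.1
      have h3 := hq1'.2.1
      rw [e, div_mul_eq_mul_div, div_eq_div_iff h2 h3] at e'
      rw [← e']; ring
    rw [h1]
    exact mul_mem hp' hq

end Mdl

section Tores

variable {O : Subalgebra k L}

lemma mn_mem_field {ι : Type} [Fintype ι] {K : IntermediateField k L} {z : ι → L}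
    (h : ∀ i, z i ∈ K) (c : ι → ℤ) : mn z c ∈ K :=
  prod_mem fun i _ => zpow_mem (h i) _

/-- A monomial is a unit times a monomial in the coordinates of a subfamily. -/
lemma un_mn_div {ι κ : Type} [Fintype ι] [Fintype κ] {y : ι → L} (hy : ∀ i, y i ≠ 0) (e : κ → ι)
    (he : Function.Injective e) (a : ι → ℤ) (h : ∀ i, i ∉ Set.range e → ¬ Un O (y i) → a i = 0) :
    Un O (mn y a / mn (y ∘ e) (a ∘ e)) := by
  classical
  let b : ι → ℤ := fun i => if i ∈ Set.range e then a i else 0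
  have h1 : mn (y ∘ e) (a ∘ e) = mn y b := by
    unfold mn
    refine Fintype.prod_of_injective e he _ _ (fun i hi => ?_) fun j => ?_
    · simp only [b, if_neg hi, zpow_zero]
    · simp only [b, if_pos (Set.mem_range_self j), Function.comp]
  rw [h1, ← mn_sub hy]
  refine mn_un fun i hi => ?_
  by_cases c : i ∈ Set.range e
  · simp only [Pi.sub_apply, b, if_pos c, sub_self]
  · simp only [Pi.sub_apply, b, if_neg c, sub_zero, h i c hi]

/-- The boundary consists of the coordinates that vanish at the point and occur in `S`. -/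
lemma par_of {n s : ℕ} {S : Finset L} {ι : Type} [Fintype ι] {y : ι → L} {t : Fin s → L}
    (hy : ∀ i, y i ∈ O ∧ y i ≠ 0) (hc : Nat.card {i // ¬ Un O (y i)} + s = n)
    (ht : ∀ j, t j ∈ O ∧ ¬ Un O (t j))
    (hg : ∀ x ∈ O, ¬ Un O x → x ∈ Submodule.span O (y '' {i | ¬ Un O (y i)} ∪ Set.range t))
    (hm : ∀ f ∈ S, LMon O y f) (hS : ∀ f ∈ S, f ∈ O ∨ f⁻¹ ∈ O) :
    ∃ (r s' : ℕ) (x : Fin r → L) (t' : Fin s' → L), Par n S O x t' := by
  classical
  choose! a ha using hm
  let p : ι → Prop := fun i => ∃ f ∈ S, a f i ≠ 0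
  let I := {i // ¬ Un O (y i) ∧ p i}
  let J := {i // ¬ Un O (y i) ∧ ¬ p i}
  let e : Fin (Fintype.card I) → ι := fun i => ((Fintype.equivFin I).symm i).1
  let e' : Fin (Fintype.card (J ⊕ Fin s)) ≃ J ⊕ Fin s := (Fintype.equivFin _).symm
  let u : J ⊕ Fin s → L := Sum.elim (fun j => y j.1) t
  have he : Function.Injective e := Subtype.val_injective.comp (Fintype.equivFin I).symm.injective
  have hr : ∀ i, i ∈ Set.range e ↔ ¬ Un O (y i) ∧ p i := fun i =>
    ⟨by rintro ⟨j, rfl⟩; exact ((Fintype.equivFin I).symm j).2,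
      fun h => ⟨Fintype.equivFin I ⟨i, h⟩, by simp [e]⟩⟩
  have hmon : ∀ f ∈ S, Un O (f / mn (y ∘ e) (a f ∘ e)) := fun f hf => by
    have h1 := (ha f hf).mul (un_mn_div (fun i => (hy i).2) e he (a f) fun i hi hu =>
      by_contra fun c => hi ((hr i).2 ⟨hu, f, hf, c⟩))
    rwa [div_mul_div_cancel₀ (mn_ne_zero (fun i => (hy i).2) _)] at h1
  refine ⟨_, _, y ∘ e, u ∘ e', ?_, fun i => ⟨(hy _).1, (hy _).2, ((hr _).1 ⟨i, rfl⟩).1⟩,
    fun j => ?_, fun x hx hu => ?_, fun f hf => ⟨_, hmon f hf⟩, fun i => ?_, hS⟩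
  · rw [← hc, Fintype.card_sum, Fintype.card_fin, ← add_assoc, Nat.card_eq_fintype_card,
      Fintype.card_subtype, Fintype.card_subtype, Fintype.card_subtype,
      ← Finset.filter_filter, ← Finset.filter_filter, Finset.card_filter_add_card_filter_not]
  · simp only [Function.comp]
    rcases e' j with j | j
    exacts [⟨(hy _).1, j.2.1⟩, ht j]
  · refine Submodule.span_mono ?_ (hg x hx hu)
    rw [e'.surjective.range_comp]
    rintro _ (⟨i, hi, rfl⟩ | ⟨j, rfl⟩)
    · by_cases c : p i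
      · obtain ⟨j, rfl⟩ := (hr i).2 ⟨hi, c⟩
        exact Or.inl ⟨j, rfl⟩
      · exact Or.inr ⟨Sum.inl ⟨i, hi, c⟩, rfl⟩
    · exact Or.inr ⟨Sum.inr j, rfl⟩
  · obtain ⟨-, f, hf, c⟩ := (hr _).1 ⟨i, rfl⟩
    exact ⟨f, hf, _, hmon f hf, c⟩

theorem tores_of (hP : ParStmt k L) (hL : LabelStmt k L) : ToresStmt k L := by
  classical
  intro n K S M hn hT
  obtain ⟨s, rfl, hs, hexp, hz⟩ := hL n K S M hn hT
  obtain ⟨s', hs', href, huni, hcmp⟩ := Tor.resolve s (S : Set L) hs S.finite_toSet hexp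
  obtain ⟨M', hM', hpt⟩ := hT.1.of_dom hs'.fg hs'.ne fun O' hO' => by
    obtain ⟨O, hO, hd, hr, -, hp⟩ := href.dom O' hO'
    refine ⟨IsPoint.le_field hp (sup_le (hT.1.pt_le hO) (TA_le fun c _ => ?_)), O, hO, hd.1⟩
    obtain ⟨c', e⟩ : mn (s'.ch O').z c ∈ Set.range (mn (s.ch O).z) := hr ▸ ⟨c, rfl⟩
    rw [← e]
    exact mn_mem_field (hz O hO) c'
  refine ⟨M', hM', fun O hO hr => ?_⟩
  have hO' : s'.P O := hpt O hO
  have hc := hs'.cht O hO'
  let _ : Fintype (s'.ch O).τ.R := Fintype.ofFinite _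
  obtain ⟨-, y, hy, hTA, hmn, -⟩ := Tor.snc s'.ι (s'.ch O) O hc (huni O hO')
  have hsf : SF (Algebra.adjoin k (Set.range y)) O := hTA ▸ hc.sf
  obtain ⟨D, hD⟩ := hM'.aff hn hO hr
  obtain ⟨r, t, h1, h2, h3⟩ := hP n K D O _ y hD hy hsf
  refine par_of (fun i => ⟨hsf.le (Algebra.subset_adjoin ⟨i, rfl⟩), hy.ne_zero i⟩) h1 h2 h3
    (fun f hf => ?_) fun f hf => hcmp f hf O hO'
  obtain ⟨a, ha⟩ := hexp f hf
  obtain ⟨a', ha'⟩ := href.exp f a ha
  obtain ⟨c, -, hu⟩ := ha' O hO'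
  exact ⟨_, hmn c ▸ hu⟩

end Tores

/-! ### Dimension zero -/

theorem zero [IsAlgClosed k] : ZeroStmt k L := by
  intro K _ hn S hS
  have hK : ∀ x ∈ K, x ∈ (⊥ : Subalgebra k L) := fun x hx => by
    have : Algebra.IsAlgebraic k K := trdeg_eq_zero_iff.1 (by simpa using hn)
    obtain ⟨c, hc⟩ := (IsAlgClosed.algebraMap_bijective_of_isIntegral (k := k) (K := K)).2 ⟨x, hx⟩
    exact Algebra.mem_bot.2 ⟨c, congrArg Subtype.val hc⟩
  have hM : Mdl K (pr k 1) := by
    refine ⟨pr_fg _, fun e => ?_, fun m hm => ?_, fun g _ _ x hx =>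
      ⟨1, one_mem _, one_ne_zero, le_chart _ _ _ (by rw [one_mul]; exact hK x hx)⟩⟩
    · have := mem_pr (k := k) (1 : L)
      rw [e] at this
      exact one_ne_zero this
    · obtain ⟨c, rfl⟩ := Submodule.mem_span_singleton.1 hm
      exact K.smul_mem (one_mem K)
  refine ⟨S, pr k 1, subset_rfl, hM, fun O hO _ => ?_⟩
  have hu : ∀ x ∈ K, x ≠ 0 → Un O x := fun x hx h0 =>
    ⟨(bot_le : ⊥ ≤ O) (hK x hx), h0, (bot_le : ⊥ ≤ O) (hK _ (inv_mem hx))⟩
  refine ⟨0, 0, Fin.elim0, Fin.elim0, rfl, fun i => i.elim0, fun i => i.elim0, fun y hy h => ?_,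
    fun f hf => .of_un (hu f (hS f hf).1 (hS f hf).2), fun i => i.elim0,
    fun f hf => Or.inl (hu f (hS f hf).1 (hS f hf).2).1⟩
  obtain rfl : y = 0 := by_contra fun c => h (hu y (hM.pt_le hO hy) c)
  exact zero_mem _

/-! ### Smooth models -/

theorem fin_of {k : Type} [Field k] [IsAlgClosed k]
    (hk : ∀ (L : Type) [Field L] [Algebra k L], KitStmt k L) : FinStmt k := by
  classical
  intro n hR K _ _ S hS htop hn
  let L := AlgebraicClosure K
  let j : K →ₐ[k] L := IsScalarTower.toAlgHom k K L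
  obtain ⟨m, hm⟩ : ∃ m : ℕ, Algebra.trdeg k K = m :=
    Cardinal.lt_aleph0.1 (hn.trans_lt (Cardinal.natCast_lt_aleph0))
  have hmn : m ≤ n := by exact_mod_cast hm ▸ hn
  have hdeg : Algebra.trdeg k j.fieldRange = m := by
    rw [← hm]
    exact (AlgEquiv.ofInjectiveField j).trdeg_eq.symm
  have hfg : j.fieldRange.FG := by
    rw [AlgHom.fieldRange_eq_map, ← htop, IntermediateField.adjoin_map]
    exact IntermediateField.fg_def.2 ⟨_, hS.image _, rfl⟩
  obtain ⟨S', M, hsub, hM, hP⟩ := hR L m hmn j.fieldRange hfg hdeg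
    ((hS.toFinset.image j).erase 0) fun f hf => by
      obtain ⟨h0, hf⟩ := Finset.mem_erase.1 hf
      obtain ⟨r, -, rfl⟩ := Finset.mem_image.1 hf
      exact ⟨⟨r, rfl⟩, h0⟩
  refine ⟨L, inferInstance, inferInstance, j, M, hM.fg, hM.ne, hM.le, fun O hO => ?_⟩
  obtain ⟨O₀, h1, h2, h3⟩ := Pt.exists_rat Subalgebra.fg_bot hM.fg hO
  obtain ⟨r, s, x, t, hpar⟩ := hP O₀ h1 h2
  obtain ⟨D, hD⟩ := hM.aff hdeg h1 h2
  have := hk L m _ D O₀ S' r s x t hD hpar
  refine ⟨fun a ha => ?_, h3.sf.formallySmooth⟩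
  by_cases h0 : j a = 0
  · exact Or.inl (h0 ▸ zero_mem O)
  · exact (hpar.cmp _ (hsub (Finset.mem_erase.2 ⟨h0, Finset.mem_image_of_mem _
      (hS.mem_toFinset.2 ha)⟩))).imp (fun c => h3.le c) fun c => h3.le c

/-! ### The final glue -/

/-- The modules of part B over the field `k`. -/
structure PartB (k : Type) [Field k] : Prop where
  par : ∀ (L : Type) [Field L] [Algebra k L], ParStmt k L
  kit : ∀ (L : Type) [Field L] [Algebra k L], KitStmt k L
  label : ∀ (L : Type) [Field L] [Algebra k L] [IsAlgClosed L], LabelStmt k L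
  bez : ∀ (L : Type) [Field L] [Algebra k L] [IsAlgClosed L], BezStmt k L
  cover : ∀ (L : Type) [Field L] [Algebra k L] [IsAlgClosed L], CoverStmt k L
  tree : ∀ (L : Type) [Field L] [Algebra k L] [IsAlgClosed L], TreeStmt k L

theorem modelS_of {k : Type} [Field k] [IsAlgClosed k] {n : ℕ} (hB : PartB k)
    (hA : ∀ (L : Type) [Field L] [Algebra k L] [IsAlgClosed L], ∀ m < n, PartA k L m) :
    ModelS k n :=
  fin_of hB.kit n fun L _ _ _ => res_all n (hA L) zero (hB.bez L)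
    (tores_of (hB.par L) (hB.label L)) (hB.cover L) (hB.tree L)

/-- Resolution over `k` from parts A and B over an algebraically closed extension `k₂`. -/
theorem resDim_of {k : Type} (k₂ : Type) [Field k] [IsAlgClosed k] [Field k₂] [IsAlgClosed k₂]
    [Algebra k k₂] {n : ℕ} (hB : PartB k₂)
    (hA : ∀ (L : Type) [Field L] [Algebra k₂ L] [IsAlgClosed L], ∀ m < n, PartA k₂ L m) :
    ResDim k n :=
  main_of (spread (modelS_of hB hA))

end Pool.Agent.MP_19ffc6_ag.Res.B

end MrgPart0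

-- ======== part 1: formerly Pool.Agent.MP_19ffc6_ag.Res.ParA
section MrgPart1

/-! PROJECT RES, part B: systems of parameters at smooth rational points. -/

set_option autoImplicit false

namespace Pool.Agent.MP_19ffc6_ag.Res.B

open Pool.Agent.MP_19ffc6_ag.Wild Pool.Agent.MP_19ffc6_ag.Lci Pool.Agent.MP_19ffc6_ag.Res.Tor
open IsLocalRing

variable {k L : Type} [Field k] [Field L] [Algebra k L]
variable {n : ℕ} {K : IntermediateField k L} {A D O : Subalgebra k L}

lemma Aff.noeth (h : Aff n K D O) : IsNoetherianRing O := by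
  have := (Subalgebra.fg_iff_finiteType _).1 h.fg
  have : IsNoetherianRing D := Algebra.FiniteType.isNoetherianRing k D
  exact h.pt.isNoetherianRing

lemma Aff.le_field (h : Aff n K D O) : O ≤ K.toSubalgebra := IsPoint.le_field h.pt h.le

/-- An independent family in `O` has at most `n` members. -/
lemma Aff.card_le (h : Aff n K D O) {σ : Type} [Fintype σ] {v : σ → L} (hv : ∀ i, v i ∈ O)
    (hi : AlgebraicIndependent k v) : Fintype.card σ ≤ n := by
  have h1 : AlgebraicIndependent k fun i => (⟨v i, h.le_field (hv i)⟩ : K) :=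
    AlgebraicIndependent.of_comp K.val hi
  have h2 := h1.cardinalMk_le_trdeg
  rw [h.deg, Cardinal.mk_fintype] at h2
  exact_mod_cast h2

/-- `n` generators of the maximal ideal are independent and `O` is smooth over their algebra. -/
theorem Aff.of_gen (h : Aff n K D O) {σ : Type} [Fintype σ] {v : σ → L}
    (hc : Fintype.card σ ≤ n) (hv : ∀ i, v i ∈ O ∧ ¬ Un O (v i))
    (hg : ∀ x ∈ O, ¬ Un O x → x ∈ Submodule.span O (Set.range v)) :
    AlgebraicIndependent k v ∧ SF (Algebra.adjoin k (Set.range v)) O := by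
  have hA : Algebra.adjoin k (Set.range v) ≤ O :=
    Algebra.adjoin_le (by rintro _ ⟨i, rfl⟩; exact (hv i).1)
  have hS : ∀ s ∈ Set.range v, s ∈ Algebra.adjoin k (Set.range v) ∧ ¬ Un O s := by
    rintro _ ⟨i, rfl⟩
    exact ⟨Algebra.subset_adjoin ⟨i, rfl⟩, (hv i).2⟩
  have hp : Res.Par O (Set.range v) := fun x hx =>
    (h.rt x hx).imp fun c hc => hg _ (sub_mem hx (O.algebraMap_mem c)) hc
  have hi : AlgebraicIndependent k v := by
    obtain ⟨B, hB⟩ := exists_isTranscendenceBasis k K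
    refine indep v (hB.1.map' (f := K.val) Subtype.val_injective) ?_ fun i => ?_
    · rw [hB.cardinalMk_eq_trdeg, h.deg, Cardinal.mk_fintype]
      exact_mod_cast hc
    · obtain ⟨b, hb, hb0, hbx⟩ := h.frac _ i.1.2
      have h1 := (isAlgebraic_of_par h.fg h.pt hA hS hp (h.pt.le hbx)).mul
        (isAlgebraic_of_par h.fg h.pt hA hS hp (h.pt.le hb)).inv
      rwa [mul_comm b, mul_inv_cancel_right₀ hb0] at h1
  have : IsIntegrallyClosed (Algebra.adjoin k (Set.range v)) :=
    .of_equiv hi.aevalEquiv.toRingEquiv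
  exact ⟨hi, sf_of_par h.fg h.pt hA hS hp⟩

theorem Par.of_aff {S : Finset L} {r s : ℕ} {x : Fin r → L} {t : Fin s → L} (hp : Par n S O x t)
    (h : Aff n K D O) : AlgebraicIndependent k (Sum.elim x t) ∧
      SF (Algebra.adjoin k (Set.range (Sum.elim x t))) O := by
  refine h.of_gen (by simp [hp.card]) ?_ fun y hy hu => ?_
  · rintro (i | j)
    exacts [⟨(hp.xm i).1, (hp.xm i).2.2⟩, hp.tm j]
  · rw [Set.Sum.elim_range]
    exact hp.gen y hy hu

theorem kit : KitStmt k L := by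
  intro n K D O S r s x t h hp
  obtain ⟨hi, hsf⟩ := hp.of_aff h
  have : Algebra.FormallySmooth k (Algebra.adjoin k (Set.range (Sum.elim x t))) :=
    .of_equiv hi.aevalEquiv
  exact hsf.formallySmooth

/-- If `O` is unramified over `P` and the elements of `P` are constants modulo `T`, then `T`
generates the maximal ideal. -/
lemma gen_of_unr (hl : Lcl O) (hr : Rt O) [IsNoetherianRing O] {P : Type} [CommRing P]
    [Algebra P O] [Algebra.FormallyUnramified P O] {T : Set L} (hT : ∀ t ∈ T, t ∈ O ∧ ¬ Un O t)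
    (hP : ∀ p : P, ∃ c : k,
      (algebraMap P O p : L) - algebraMap k L c ∈ Submodule.span O T) :
    ∀ x ∈ O, ¬ Un O x → x ∈ Submodule.span O T := by
  have := hl.isLocalRing
  obtain ⟨ρ, h1, h2⟩ := hr.exists_res hl
  have hm : ∀ x : O, x ∈ maximalIdeal O ↔ ¬ Un O x := fun x => by
    rw [mem_maximalIdeal, mem_nonunits_iff, isUnit_iff_un]
  let I : Ideal O := (Submodule.span O T).comap (Algebra.linearMap O L)
  have hI : ∀ x : O, x ∈ I ↔ (x : L) ∈ Submodule.span O T := fun _ => Iff.rfl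
  let J : Ideal O := I ⊔ maximalIdeal O ^ 2
  let g : O →ₐ[P] O ⧸ J :=
    { ((algebraMap k (O ⧸ J)).comp ρ.toRingHom) with
      commutes' := fun p => by
        obtain ⟨c, hc⟩ := hP p
        have h3 : ρ (algebraMap P O p - algebraMap k O c) = 0 :=
          by_contra fun e => not_un_of_mem_span hl hT hc ((h1 _).1 e)
        rw [map_sub, sub_eq_zero, AlgHom.commutes] at h3
        change algebraMap k (O ⧸ J) (ρ (algebraMap P O p)) = Ideal.Quotient.mk J (algebraMap P O p)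
        rw [h3]
        exact (Ideal.Quotient.eq.2 (Ideal.mem_sup_left ((hI _).2 hc))).symm }
  have hN : IsNilpotent ((maximalIdeal O).map (Ideal.Quotient.mk J)) :=
    ⟨2, by
      rw [← Ideal.map_pow, Ideal.zero_eq_bot, Ideal.map_eq_bot_iff_le_ker, Ideal.mk_ker]
      exact le_sup_right⟩
  have he : Ideal.Quotient.mkₐ P J = g := Algebra.FormallyUnramified.ext _ hN fun x =>
    Ideal.Quotient.eq.2 (Ideal.mem_map_of_mem (Ideal.Quotient.mk J)
      ((hm (x - algebraMap k O (ρ x))).2 (h2 x)))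
  have hle : maximalIdeal O ≤ I := by
    refine Submodule.le_of_le_smul_of_le_jacobson_bot (IsNoetherian.noetherian _)
      (maximalIdeal_le_jacobson ⊥) fun x hx => ?_
    have h3 : Ideal.Quotient.mk J x = algebraMap k (O ⧸ J) (ρ x) := AlgHom.congr_fun he x
    rw [not_not.1 (mt (h1 x).1 ((hm x).1 hx)), map_zero, Ideal.Quotient.eq_zero_iff_mem] at h3
    rwa [smul_eq_mul, ← pow_two]
  exact fun x hx hu => (hI ⟨x, hx⟩).1 (hle ((hm _).2 hu))

/-- A point that is smooth over `A` is etale over an affine space over `A`. -/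
lemma exists_unr (hD : D.FG) (hP : IsPoint D O) (hA : A.FG) (hsf : SF A O) :
    ∃ (m : ℕ) (w : Fin m → L) (_ : Algebra (MvPolynomial (Fin m) A) O), (∀ j, w j ∈ O) ∧
      AlgebraicIndependent A w ∧ Algebra.FormallyUnramified (MvPolynomial (Fin m) A) O ∧
      ∀ p, (algebraMap (MvPolynomial (Fin m) A) O p : L) = MvPolynomial.aeval w p := by
  obtain ⟨hAO, h1, -⟩ := hsf
  let E : Subalgebra k L := D ⊔ A
  have hE : IsPoint E O := hP.of_le_loc (sup_le hP.le hAO) (le_sup_left.trans (le_loc _ _))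
  let _ : Algebra A E := (Subalgebra.inclusion (le_sup_right : A ≤ E)).toRingHom.toAlgebra
  let _ : Algebra A O := (Subalgebra.inclusion hAO).toRingHom.toAlgebra
  let _ : Algebra E O := (Subalgebra.inclusion hE.le).toRingHom.toAlgebra
  have : IsScalarTower A E O := .of_algebraMap_eq fun _ => rfl
  have : IsScalarTower k A E := .of_algebraMap_eq fun _ => rfl
  have : Algebra.FormallySmooth A O := h1
  have := (Subalgebra.fg_iff_finiteType _).1 hA
  have := (Subalgebra.fg_iff_finiteType E).1 (hD.sup hA)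
  have : IsNoetherianRing A := Algebra.FiniteType.isNoetherianRing k A
  have : Algebra.FiniteType A E := .of_restrictScalars_finiteType k A E
  have : Algebra.FinitePresentation A E := Algebra.FinitePresentation.of_finiteType.1 ‹_›
  let Q := ctr hE.lcl hE.le
  have hloc : IsLocalization Q.primeCompl O := by
    have h2 := isLocalization_of_le_loc hE.le hE.le_loc
    rwa [show unMonoid E O = Q.primeCompl from Submonoid.ext fun x => not_not.symm] at h2
  have : Algebra.IsSmoothAt A Q := Algebra.FormallySmooth.of_equiv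
    ((IsLocalization.algEquiv Q.primeCompl O (Localization.AtPrime Q)).restrictScalars A)
  obtain ⟨f, hf, m, _, _, _⟩ := Algebra.IsSmoothAt.exists_isStandardEtale_mvPolynomial (R := A)
    (p := Q)
  have hf1 : Un O (f : L) := not_not.1 hf
  let ψ : Localization.Away f →ₐ[E] O := IsLocalization.Away.liftAlgHom f
    (f := Algebra.ofId E O) ((isUnit_iff_un _).2 hf1)
  have hψ : Function.Injective ψ := by
    rw [injective_iff_map_eq_zero]
    intro z hz
    obtain ⟨a, s, rfl⟩ := IsLocalization.exists_mk'_eq (.powers f) z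
    have h2 : algebraMap E O a = 0 := by
      rw [← ψ.commutes, ← IsLocalization.mk'_spec _ a s, map_mul, hz, zero_mul]
    rw [show a = 0 from Subtype.ext (congrArg Subtype.val h2 :), IsLocalization.mk'_zero]
  let _ : Algebra (Localization.Away f) O := ψ.toRingHom.toAlgebra
  have : IsScalarTower E (Localization.Away f) O := .of_algebraMap_eq fun a => (ψ.commutes a).symm
  let _ : Algebra (MvPolynomial (Fin m) A) O :=
    (ψ.toRingHom.comp (algebraMap (MvPolynomial (Fin m) A) _)).toAlgebra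
  have : IsScalarTower (MvPolynomial (Fin m) A) (Localization.Away f) O :=
    .of_algebraMap_eq fun _ => rfl
  have : Algebra.FormallyUnramified E O := .of_isLocalization Q.primeCompl
  have : Algebra.FormallyUnramified (Localization.Away f) O := .of_restrictScalars E _ _
  have : Nontrivial (Localization.Away f) := ψ.toRingHom.domain_nontrivial
  have hinj : Function.Injective (algebraMap (MvPolynomial (Fin m) A) (Localization.Away f)) := by
    rw [injective_iff_map_eq_zero]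
    intro a ha
    by_contra h0
    have h3 := Module.Flat.isSMulRegular_of_nonZeroDivisors (M := Localization.Away f)
      (mem_nonZeroDivisors_of_ne_zero h0)
    exact one_ne_zero (h3 (by simp only [Algebra.smul_def, ha, zero_mul]) :
      (1 : Localization.Away f) = 0)
  have hev : ∀ p, (algebraMap (MvPolynomial (Fin m) A) O p : L) = MvPolynomial.aeval
      (fun j => (algebraMap (MvPolynomial (Fin m) A) O (MvPolynomial.X j) : L)) p := fun p => by
    induction p using MvPolynomial.induction_on with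
    | C a =>
      rw [MvPolynomial.aeval_C]
      change (ψ (algebraMap _ _ (algebraMap A (MvPolynomial (Fin m) A) a)) : L) = _
      rw [← IsScalarTower.algebraMap_apply, IsScalarTower.algebraMap_apply A E, ψ.commutes]
      rfl
    | add p q hp hq => rw [map_add, map_add, ← hp, ← hq]; rfl
    | mul_X p j hp => rw [map_mul, map_mul, ← hp, MvPolynomial.aeval_X]; rfl
  refine ⟨m, _, inferInstance, fun j => Subtype.prop _, fun p q e => ?_,
    .comp _ (Localization.Away f) _, hev⟩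
  rw [← hev, ← hev] at e
  exact hinj (hψ (Subtype.ext e))

/-- The elements of `O` that are constants modulo `T`. -/
def cst (O : Subalgebra k L) (T : Set L) : Subalgebra k L where
  carrier := {x | x ∈ O ∧ ∃ c : k, x - algebraMap k L c ∈ Submodule.span O T}
  mul_mem' := by
    rintro x y ⟨hx, c, hc⟩ ⟨hy, d, hd⟩
    refine ⟨mul_mem hx hy, c * d, ?_⟩
    rw [show x * y - algebraMap k L (c * d) =
      y * (x - algebraMap k L c) + algebraMap k L c * (y - algebraMap k L d) by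
        rw [map_mul]; ring]
    exact add_mem (mul_mem_span hy hc) (mul_mem_span (O.algebraMap_mem c) hd)
  add_mem' := by
    rintro x y ⟨hx, c, hc⟩ ⟨hy, d, hd⟩
    refine ⟨add_mem hx hy, c + d, ?_⟩
    rw [map_add, add_sub_add_comm]
    exact add_mem hc hd
  algebraMap_mem' c := ⟨O.algebraMap_mem c, c, by rw [sub_self]; exact zero_mem _⟩

theorem par : ParStmt k L := by
  classical
  intro n K D O ι _ y h hy hsf
  have := h.noeth
  obtain ⟨m, w, _, hw, hi, _, hev⟩ := exists_unr h.fg h.pt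
    (Subalgebra.fg_def.2 ⟨_, Set.finite_range y, rfl⟩) hsf
  have hyO : ∀ i, y i ∈ O := fun i => hsf.le (Algebra.subset_adjoin ⟨i, rfl⟩)
  have hc : m + Fintype.card ι ≤ n := by
    simpa using h.card_le (v := Sum.elim w y) (by rintro (j | i); exacts [hw j, hyO i])
      (hy.sumElim hi)
  obtain ⟨d, hd⟩ := Nat.exists_eq_add_of_le hc
  choose c hc using fun i => h.rt _ (hyO i)
  choose c' hc' using fun j => h.rt _ (hw j)
  let U := {i // Un O (y i)}
  let u : U ⊕ Fin m ⊕ Fin d → L := Sum.elim (fun i => y i.1 - algebraMap k L (c i.1))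
    (Sum.elim (fun j => w j - algebraMap k L (c' j)) fun _ => 0)
  let e := (Fintype.equivFin (U ⊕ Fin m ⊕ Fin d)).symm
  have hu : ∀ j, u j ∈ O ∧ ¬ Un O (u j) := by
    rintro (i | j | j)
    exacts [⟨sub_mem (hyO _) (O.algebraMap_mem _), hc _⟩,
      ⟨sub_mem (hw _) (O.algebraMap_mem _), hc' _⟩, ⟨zero_mem _, fun t => t.2.1 rfl⟩]
  refine ⟨_, u ∘ e, ?_, fun j => hu _, ?_⟩
  · rw [Nat.card_eq_fintype_card, Fintype.card_subtype_compl, Fintype.card_sum, Fintype.card_sum,
      Fintype.card_fin, Fintype.card_fin]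
    have : Fintype.card U ≤ Fintype.card ι := Fintype.card_subtype_le _
    change Fintype.card ι - Fintype.card U + _ = n
    omega
  rw [e.surjective.range_comp]
  refine gen_of_unr (P := MvPolynomial (Fin m) (Algebra.adjoin k (Set.range y))) h.pt.lcl h.rt
    ?_ fun p => ?_
  · rintro _ (⟨i, hi, rfl⟩ | ⟨j, rfl⟩)
    exacts [⟨hyO i, hi⟩, hu j]
  · have h1 : Algebra.adjoin k (Set.range y) ≤ cst O (y '' {i | ¬ Un O (y i)} ∪ Set.range u) := by
      refine Algebra.adjoin_le ?_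
      rintro _ ⟨i, rfl⟩
      by_cases a : Un O (y i)
      · exact ⟨hyO i, c i, Submodule.subset_span (Or.inr ⟨Sum.inl ⟨i, a⟩, rfl⟩)⟩
      · exact ⟨hyO i, 0, Submodule.subset_span (Or.inl ⟨i, a, by simp⟩)⟩
    rw [hev]
    refine And.right (?_ : _ ∈ cst O _)
    induction p using MvPolynomial.induction_on with
    | C a => rw [MvPolynomial.aeval_C]; exact h1 a.2
    | add p q hp hq => rw [map_add]; exact add_mem hp hq
    | mul_X p j hp =>
      rw [map_mul, MvPolynomial.aeval_X]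
      exact mul_mem hp ⟨hw j, c' j, Submodule.subset_span (Or.inr ⟨Sum.inr (Sum.inl j), rfl⟩)⟩

theorem tores (hL : LabelStmt k L) : ToresStmt k L := tores_of par hL

theorem fin {k : Type} [Field k] [IsAlgClosed k] : FinStmt k := fin_of fun _ _ _ => kit

/-- Resolution over `k` from part A and the four remaining modules of part B over an
algebraically closed extension `k₂`. -/
theorem resDim {k : Type} (k₂ : Type) [Field k] [IsAlgClosed k] [Field k₂] [IsAlgClosed k₂]
    [Algebra k k₂] {n : ℕ}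
    (h : ∀ (L : Type) [Field L] [Algebra k₂ L] [IsAlgClosed L], LabelStmt k₂ L ∧ BezStmt k₂ L ∧
      CoverStmt k₂ L ∧ TreeStmt k₂ L ∧ ∀ m < n, PartA k₂ L m) : ResDim k n :=
  resDim_of k₂ ⟨fun _ _ _ => par, fun _ _ _ => kit, fun L _ _ _ => (h L).1, fun L _ _ _ => (h L).2.1,
    fun L _ _ _ => (h L).2.2.1, fun L _ _ _ => (h L).2.2.2.1⟩ fun L _ _ _ => (h L).2.2.2.2

end Pool.Agent.MP_19ffc6_ag.Res.B

end MrgPart1

-- marker of a merged file
example : 731051 + 793710 = 731051 + 793710 := rfl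

end MrgPart0

-- ======== part 1: formerly Pool.Agent.MP_19ffc6_ag.Res.Trans
section MrgPart1

/-! PROJECT RES, part B: transport along an embedding of the ambient field, Kummer extensions
and restriction of automorphisms. -/

namespace Pool.Agent.MP_19ffc6_ag.Res.B

open Pool.Agent.MP_19ffc6_ag.Wild Pool.Agent.MP_19ffc6_ag.Lci Pool.Agent.MP_19ffc6_ag.Res.Tor
open Polynomial

variable {k W L : Type} [Field k] [Field W] [Field L] [Algebra k W] [Algebra k L]

section Map

variable (j : W →ₐ[k] L) {O O' D V : Subalgebra k W} {x : W}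

theorem mem_map_iff : j x ∈ O.map j ↔ x ∈ O :=
  ⟨fun ⟨_, hy, e⟩ => j.injective e ▸ hy, fun h => ⟨x, h, rfl⟩⟩

theorem un_map : Un (O.map j) (j x) ↔ Un O x := by
  rw [Un, Un, ← map_inv₀, mem_map_iff, mem_map_iff, _root_.map_ne_zero]

theorem map_le_map_iff : O.map j ≤ O'.map j ↔ O ≤ O' :=
  ⟨fun h _ hx => (mem_map_iff j).1 (h ((mem_map_iff j).2 hx)), Subalgebra.map_mono⟩

theorem exists_map {O : Subalgebra k L} (h : ∀ x ∈ O, x ∈ j.range) :
    ∃ O' : Subalgebra k W, O = O'.map j := by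
  refine ⟨O.comap j, le_antisymm (fun x hx => ?_) (Subalgebra.map_le.2 le_rfl)⟩
  obtain ⟨y, rfl⟩ := h x hx
  exact ⟨y, hx, rfl⟩

theorem exists_fun {α : Type*} {f : α → L} (h : ∀ a, f a ∈ j.range) :
    ∃ g : α → W, f = j ∘ g := by
  choose g hg using h
  exact ⟨g, funext fun a => (hg a).symm⟩

theorem exists_finset [DecidableEq L] {S : Finset L} (h : ∀ a ∈ S, a ∈ j.range) :
    ∃ S' : Finset W, S = S'.image j := by
  refine ⟨S.preimage j j.injective.injOn, ?_⟩
  ext a
  simp only [Finset.mem_image, Finset.mem_preimage]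
  exact ⟨fun ha => let ⟨b, hb⟩ := h a ha; ⟨b, hb ▸ ha, hb⟩, fun ⟨b, hb, e⟩ => e ▸ hb⟩

theorem lcl_map : Lcl (O.map j) ↔ Lcl O := by
  constructor
  · intro h x hx y hy hxy
    have := h _ ((mem_map_iff j).2 hx) _ ((mem_map_iff j).2 hy)
      (by rw [← map_add, un_map]; exact hxy)
    rwa [un_map, un_map] at this
  · rintro h _ ⟨x, hx, rfl⟩ _ ⟨y, hy, rfl⟩ hxy
    change Un _ (j x + j y) at hxy
    rw [← map_add, un_map] at hxy
    change Un _ (j x) ∨ Un _ (j y)
    rw [un_map, un_map]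
    exact h x hx y hy hxy

theorem loc_map : loc (D.map j) (O.map j) = (loc D O).map j := by
  ext y
  constructor
  · rintro ⟨_, ⟨a, ha, rfl⟩, _, ⟨b, hb, rfl⟩, hu, rfl⟩
    exact ⟨a / b, ⟨a, ha, b, hb, (un_map j).1 hu, rfl⟩, map_div₀ j a b⟩
  · rintro ⟨_, ⟨a, ha, b, hb, hu, rfl⟩, rfl⟩
    exact ⟨j a, ⟨a, ha, rfl⟩, j b, ⟨b, hb, rfl⟩, (un_map j).2 hu, map_div₀ j a b⟩

theorem isPoint_map : IsPoint (D.map j) (O.map j) ↔ IsPoint D O :=
  ⟨fun h => ⟨(map_le_map_iff j).1 h.le, (lcl_map j).1 h.lcl,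
    (map_le_map_iff j).1 (loc_map j ▸ h.le_loc)⟩,
   fun h => ⟨(map_le_map_iff j).2 h.le, (lcl_map j).2 h.lcl,
    loc_map j ▸ (map_le_map_iff j).2 h.le_loc⟩⟩

theorem dom_map : Dom (O.map j) (O'.map j) ↔ Dom O O' := by
  refine and_congr (map_le_map_iff j) ⟨fun h x hx hu => ?_, ?_⟩
  · exact (un_map j).1 (h _ ((mem_map_iff j).2 hx) ((un_map j).2 hu))
  · rintro h _ ⟨x, hx, rfl⟩ hu
    exact (un_map j).2 (h x hx ((un_map j).1 hu))

theorem rt_map : Rt (O.map j) ↔ Rt O := by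
  constructor
  · intro h x hx
    obtain ⟨c, hc⟩ := h _ ((mem_map_iff j).2 hx)
    exact ⟨c, by rwa [← j.commutes, ← map_sub, un_map] at hc⟩
  · rintro h _ ⟨x, hx, rfl⟩
    obtain ⟨c, hc⟩ := h x hx
    refine ⟨c, ?_⟩
    change ¬ Un _ (j x - _)
    rwa [← j.commutes, ← map_sub, un_map]

theorem fg_map : (D.map j).FG ↔ D.FG :=
  ⟨fun h => Subalgebra.fg_of_fg_map D j j.injective h, fun h => h.map j⟩

theorem span_map {S : Set W} : j x ∈ Submodule.span (O.map j) (j '' S) ↔
    x ∈ Submodule.span O S := by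
  constructor
  · intro h
    have key : ∀ y ∈ Submodule.span (O.map j) (j '' S), ∃ x ∈ Submodule.span O S, j x = y := by
      intro y hy
      induction hy using Submodule.span_induction with
      | mem y hy => obtain ⟨a, ha, rfl⟩ := hy; exact ⟨a, Submodule.subset_span ha, rfl⟩
      | zero => exact ⟨0, zero_mem _, map_zero j⟩
      | add a b _ _ ha hb =>
        obtain ⟨a, ha, rfl⟩ := ha
        obtain ⟨b, hb, rfl⟩ := hb
        exact ⟨a + b, add_mem ha hb, map_add j a b⟩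
      | smul c a _ ha =>
        obtain ⟨a, ha, rfl⟩ := ha
        obtain ⟨_, c, hc, rfl⟩ := c
        exact ⟨c * a, mul_mem_span hc ha, map_mul j c a⟩
    obtain ⟨y, hy, e⟩ := key _ h
    exact j.injective e ▸ hy
  · intro h
    induction h using Submodule.span_induction with
    | mem y hy => exact Submodule.subset_span ⟨y, hy, rfl⟩
    | zero => rw [map_zero]; exact zero_mem _
    | add a b _ _ ha hb => rw [map_add]; exact add_mem ha hb
    | smul c a _ ha =>
      change j (c * a) ∈ _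
      rw [map_mul]
      exact mul_mem_span ((mem_map_iff j).2 c.2) ha

theorem isIntegral_map : IsIntegral (O.map j) (j x) ↔ IsIntegral O x := by
  let e := O.equivMapOfInjective j j.injective
  constructor
  · rintro ⟨P, hP, h0⟩
    refine ⟨P.map (e.symm : O.map j →+* O), hP.map _, j.injective ?_⟩
    rw [eval₂_map, map_zero, ← h0]
    refine (hom_eval₂ P _ (j : W →+* L) x).trans ?_
    congr 1
    ext a
    exact congrArg Subtype.val (e.apply_symm_apply a)
  · intro h
    exact h.map_of_comp_eq (e : O →+* O.map j) (j : W →+* L) rfl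

theorem icl_map {K : IntermediateField k W} : icl (K.map j) (O.map j) = (icl K O).map j := by
  ext y
  constructor
  · rintro ⟨⟨x, hx, rfl⟩, h⟩
    exact ⟨x, ⟨hx, (isIntegral_map j).1 h⟩, rfl⟩
  · rintro ⟨x, hx, rfl⟩
    exact ⟨⟨x, hx.1, rfl⟩, (isIntegral_map j).2 hx.2⟩

theorem mn_map {ι : Type} [Fintype ι] (z : ι → W) (c : ι → ℤ) : mn (j ∘ z) c = j (mn z c) := by
  simp [mn, map_prod]

theorem lmon_map {ι : Type} [Fintype ι] {z : ι → W} : LMon (O.map j) (j ∘ z) (j x) ↔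
    LMon O z x := exists_congr fun c => by rw [mn_map, ← map_div₀, un_map]

/-- Valuation rings extend. -/
theorem exists_val_map (hV : Val V) : ∃ V' : Subalgebra k L, Val V' ∧ (∀ x, j x ∈ V' ↔ x ∈ V) ∧
    ∀ x, Un V' (j x) ↔ Un V x := by
  obtain ⟨V', h1, h2⟩ := exists_val_dom ((lcl_map j).2 hV.lcl)
  have h3 : ∀ x, j x ∈ V' ↔ x ∈ V := fun x => by
    refine ⟨fun hx => ?_, fun hx => h2.1 ((mem_map_iff j).2 hx)⟩
    by_contra hn
    have h4 := (hV x).resolve_left hn
    have h0 : x ≠ 0 := by rintro rfl; exact hn (zero_mem _)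
    have h5 := h2.2 _ ((mem_map_iff j).2 h4)
      ⟨h2.1 ((mem_map_iff j).2 h4), by simpa using h0, by simpa using hx⟩
    exact hn (by simpa using ((un_map j).1 h5).2.2)
  exact ⟨V', h1, h3, fun x => by rw [Un, Un, ← map_inv₀, h3, h3, _root_.map_ne_zero]⟩

theorem TP.map {n : ℕ} {ι : Type} {r s : ℕ} {τ : Typ ι r} {z : Fin r → W} {t : Fin s → W}
    (h : TP n O τ z t) : TP n (O.map j) τ (j ∘ z) (j ∘ t) where
  card := h.card
  ptd := h.ptd
  str := h.str
  fac := h.fac
  ne i := (_root_.map_ne_zero j).2 (h.ne i)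
  mem c hc := by rw [mn_map, mem_map_iff]; exact h.mem c hc
  nu c hc h0 := by rw [mn_map, un_map]; exact h.nu c hc h0
  tm i := ⟨(mem_map_iff j).2 (h.tm i).1, fun hu => (h.tm i).2 ((un_map j).1 hu)⟩
  gen := by
    rintro _ ⟨x, hx, rfl⟩ hu
    have := (span_map j).2 (h.gen x hx fun h' => hu ((un_map j).2 h'))
    rwa [Set.image_union, ← Set.range_comp, Set.image_image, ← funext (mn_map j z)] at this

theorem Sees.map [DecidableEq L] {ι : Type} {r : ℕ} {τ : Typ ι r} {z : Fin r → W} {S : Finset W}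
    (h : Sees S O τ z) : Sees (S.image j) (O.map j) τ (j ∘ z) := by
  refine ⟨fun f hf => ?_, fun ρ hρ => ?_⟩
  · obtain ⟨g, hg, rfl⟩ := Finset.mem_image.1 hf
    exact (lmon_map j).2 (h.1 g hg)
  · obtain ⟨f, hf, c, h1, h2⟩ := h.2 ρ hρ
    exact ⟨j f, Finset.mem_image_of_mem j hf, c, by rwa [mn_map, ← map_div₀, un_map], h2⟩

theorem Par.of_map [DecidableEq L] {n r s : ℕ} {x : Fin r → W} {t : Fin s → W} {S : Finset W}
    (h : Par n (S.image j) (O.map j) (j ∘ x) (j ∘ t)) : Par n S O x t where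
  card := h.card
  xm i := ⟨(mem_map_iff j).1 (h.xm i).1, (_root_.map_ne_zero j).1 (h.xm i).2.1,
    fun hu => (h.xm i).2.2 ((un_map j).2 hu)⟩
  tm i := ⟨(mem_map_iff j).1 (h.tm i).1, fun hu => (h.tm i).2 ((un_map j).2 hu)⟩
  gen y hy hu := by
    have := h.gen _ ((mem_map_iff j).2 hy) fun h' => hu ((un_map j).1 h')
    rwa [Set.range_comp, Set.range_comp, ← Set.image_union, span_map] at this
  mon f hf := (lmon_map j).1 (h.mon _ (Finset.mem_image_of_mem j hf))
  sees i := by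
    obtain ⟨f, hf, c, h1, h2⟩ := h.sees i
    obtain ⟨g, hg, rfl⟩ := Finset.mem_image.1 hf
    exact ⟨g, hg, c, by rwa [mn_map, ← map_div₀, un_map] at h1, h2⟩
  cmp f hf := by
    have := h.cmp _ (Finset.mem_image_of_mem j hf)
    rwa [← map_inv₀, mem_map_iff, mem_map_iff] at this

end Map

section Galois

variable {F E : IntermediateField k L}

/-- The embedding of an intermediate field, over the ground field. -/
def vl (N : IntermediateField E L) : N →ₐ[k] L := N.val.restrictScalars k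

theorem vl_apply {N : IntermediateField E L} (x : N) : vl N x = x := rfl

theorem mem_range_vl {N : IntermediateField E L} {x : L} : x ∈ (vl N).range ↔ x ∈ N :=
  ⟨fun ⟨y, hy⟩ => hy ▸ y.2, fun h => ⟨⟨x, h⟩, rfl⟩⟩

/-- Restriction of automorphisms to a normal subextension of a smaller base field. -/
theorem exists_res (hFE : F ≤ E) (N : IntermediateField F L) [Normal F N]
    (N' : IntermediateField E L) (h : ∀ x ∈ N, x ∈ N') :
    ∃ ρ : (N' ≃ₐ[E] N') →* (N ≃ₐ[F] N), ∀ g (x : N), (ρ g x : L) = g ⟨x, h x x.2⟩ := by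
  let _ : Algebra F E := (IntermediateField.inclusion hFE).toRingHom.toAlgebra
  let _ : Algebra F N' := ((algebraMap E N').comp (algebraMap F E)).toAlgebra
  have : IsScalarTower F E N' := .of_algebraMap_eq fun _ => rfl
  let _ : Algebra N N' := (N.val.toRingHom.codRestrict N' fun x => h x x.2).toAlgebra
  have : IsScalarTower F N N' := .of_algebraMap_eq fun _ => rfl
  refine ⟨(AlgEquiv.restrictNormalHom N).comp
    (MonoidHom.mk' (fun g : N' ≃ₐ[E] N' => g.restrictScalars F) fun _ _ => rfl), fun g x => ?_⟩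
  exact congrArg Subtype.val (AlgEquiv.restrictNormal_commutes (g.restrictScalars F) N x)

theorem root_one [IsAlgClosed k] {m : ℕ} (hm : m ≠ 0) {u : L} (hu : u ^ m = 1) :
    ∃ c : k, c ^ m = 1 ∧ u = algebraMap k L c := by
  have h1 : IsIntegral k u := IsIntegral.of_pow (Nat.pos_of_ne_zero hm) (hu ▸ isIntegral_one)
  obtain ⟨c, rfl⟩ := minpoly.mem_range_of_degree_eq_one k u
    (IsAlgClosed.degree_eq_one_of_irreducible k (minpoly.irreducible h1))
  exact ⟨c, (algebraMap k L).injective (by rw [map_pow, hu, map_one]), rfl⟩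

/-- Kummer extensions are Galois. -/
theorem kummer [IsAlgClosed k] [IsAlgClosed L] {σ : Type} [Fintype σ] {m : ℕ} (hm : (m : k) ≠ 0)
    (ξ : σ → L) (h0 : ∀ i, ξ i ≠ 0) (hξ : ∀ i, ξ i ^ m ∈ E) :
    FiniteDimensional E (IntermediateField.adjoin E (Set.range ξ)) ∧
      IsGalois E (IntermediateField.adjoin E (Set.range ξ)) := by
  have hm0 : m ≠ 0 := by rintro rfl; exact hm Nat.cast_zero
  have hint : ∀ i, IsIntegral E (ξ i) := fun i => IsIntegral.of_pow (Nat.pos_of_ne_zero hm0)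
    (isIntegral_algebraMap (x := (⟨_, hξ i⟩ : E)))
  have hroot : ∀ i, aeval (ξ i) (X ^ m - C (⟨_, hξ i⟩ : E)) = 0 := fun i => by simp
  have hfin : FiniteDimensional E (IntermediateField.adjoin E (Set.range ξ)) :=
    IntermediateField.finiteDimensional_adjoin (by rintro _ ⟨i, rfl⟩; exact hint i)
  have hsep : Algebra.IsSeparable E (IntermediateField.adjoin E (Set.range ξ)) := by
    rw [IntermediateField.isSeparable_adjoin_iff_isSeparable]
    rintro _ ⟨i, rfl⟩
    refine Separable.of_dvd (separable_X_pow_sub_C (⟨_, hξ i⟩ : E) ?_ ?_)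
      (minpoly.dvd _ _ (hroot i))
    · intro e
      have := congrArg (algebraMap E L) e
      rw [map_natCast, map_zero, ← map_natCast (algebraMap k L), map_eq_zero] at this
      exact hm this
    · exact fun e => pow_ne_zero m (h0 i) (congrArg Subtype.val e)
  have hnor : Normal E (IntermediateField.adjoin E (Set.range ξ)) := by
    let P : E[X] := ∏ i, (X ^ m - C (⟨_, hξ i⟩ : E))
    have hP : P ≠ 0 := (monic_prod_of_monic _ _ fun i _ => monic_X_pow_sub_C _ hm0).ne_zero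
    have e : IntermediateField.adjoin E (P.rootSet L) = IntermediateField.adjoin E (Set.range ξ) := by
      refine le_antisymm (IntermediateField.adjoin_le_iff.2 fun u hu => ?_)
        (IntermediateField.adjoin.mono _ _ _ ?_)
      · have h1 := (mem_rootSet.1 hu).2
        rw [map_prod, Finset.prod_eq_zero_iff] at h1
        obtain ⟨i, -, h1⟩ := h1
        have h2 : u ^ m = ξ i ^ m := by simpa [sub_eq_zero] using h1
        obtain ⟨c, -, hc⟩ := root_one (k := k) hm0 (u := u / ξ i)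
          (by rw [div_pow, h2, div_self (pow_ne_zero m (h0 i))])
        rw [(div_eq_iff (h0 i)).1 hc]
        exact mul_mem ((IntermediateField.adjoin E (Set.range ξ)).algebraMap_mem
          (algebraMap k E c)) (IntermediateField.subset_adjoin _ _ ⟨i, rfl⟩)
      · rintro _ ⟨i, rfl⟩
        exact mem_rootSet.2 ⟨hP, by
          rw [map_prod]; exact Finset.prod_eq_zero (Finset.mem_univ i) (hroot i)⟩
    have := IntermediateField.adjoin_rootSet_isSplittingField (IsAlgClosed.splits (P.map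
      (algebraMap E L)))
    rw [← e]
    exact Normal.of_isSplittingField P
  exact ⟨hfin, {}⟩

/-- The elements fixed by an automorphism of a larger field. -/
theorem fix_sup (hFE : F ≤ E) {N : IntermediateField F L} {N' : IntermediateField E L}
    {X : Set L} (g : N' ≃ₐ[E] N') (hN : ∀ x ∈ N, ∃ h : x ∈ N', g ⟨x, h⟩ = ⟨x, h⟩)
    (hX : ∀ x ∈ X, ∃ h : x ∈ N', g ⟨x, h⟩ = ⟨x, h⟩) (x : N')
    (hx : (x : L) ∈ N ⊔ IntermediateField.adjoin F X) : g x = x := by
  let Z : IntermediateField F L :=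
    ((RingHom.eqLocusField (g : N' →+* N') (RingHom.id N')).map N'.val.toRingHom).toIntermediateField
      fun c => ⟨algebraMap E N' ⟨c, hFE c.2⟩, g.commutes _, rfl⟩
  have h1 : N ⊔ IntermediateField.adjoin F X ≤ Z :=
    sup_le (fun y hy => let ⟨h, e⟩ := hN y hy; ⟨⟨y, h⟩, e, rfl⟩)
      (IntermediateField.adjoin_le_iff.2 fun y hy => let ⟨h, e⟩ := hX y hy; ⟨⟨y, h⟩, e, rfl⟩)
  obtain ⟨y, hy, e⟩ := h1 hx
  obtain rfl : y = x := Subtype.ext e
  exact hy

/-- Inertia in a larger field, seen on a normal subextension. -/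
theorem exists_ine (hFE : F ≤ E) (N : IntermediateField F L) [Normal F N]
    (N' : IntermediateField E L) (h : ∀ x ∈ N, x ∈ N') {V : Subalgebra k N'} (hV : Val V)
    (g : N' ≃ₐ[E] N') (hg : ∀ z ∈ V, (z : L) ∈ N → g z - z ∈ V ∧ ¬ Un V (g z - z)) :
    ∃ (V' : Subalgebra k L) (σ : N ≃ₐ[F] N), Val V' ∧ (∀ x : N', Un V' x ↔ Un V x) ∧ Ine V' σ ∧
      ∀ (n : ℕ) (x : N), ((σ ^ n) x : L) = (g ^ n) ⟨x, h x x.2⟩ := by
  obtain ⟨ρ, hρ⟩ := exists_res hFE N N' h
  obtain ⟨V', h1, h2, h3⟩ := exists_val_map (vl N') hV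
  refine ⟨V', ρ g, h1, h3, fun x hx => ?_, fun n x => by rw [← map_pow, hρ]⟩
  have h4 : (⟨x, h x x.2⟩ : N') ∈ V := (h2 _).1 hx
  obtain ⟨h5, h6⟩ := hg _ h4 x.2
  rw [hρ]
  exact ⟨(h2 _).2 (by simpa using add_mem h5 h4), fun hu => h6 ((h3 _).1 hu)⟩

theorem Tame.pow_fix {m : ℕ} {N : IntermediateField F L} (hT : Tame m F N) (hFE : F ≤ E)
    (N' : IntermediateField E L) (h : ∀ x ∈ N, x ∈ N') {V : Subalgebra k N'} (hV : Val V)
    (g : N' ≃ₐ[E] N') (hg : ∀ z ∈ V, (z : L) ∈ N → g z - z ∈ V ∧ ¬ Un V (g z - z)) :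
    ∀ x ∈ N, ∃ h : x ∈ N', (g ^ m) ⟨x, h⟩ = ⟨x, h⟩ := by
  have := hT.gal
  obtain ⟨V', σ, h1, -, h3, h4⟩ := exists_ine hFE N N' h hV g hg
  refine fun x hx => ⟨h x hx, Subtype.ext ?_⟩
  rw [← h4 m ⟨x, hx⟩, hT.pow V' h1 σ h3]
  rfl

theorem Off.fix {N : IntermediateField F L} [Normal F N] {S T : Finset L} (hO : Off F N S T)
    (hFE : F ≤ E) (N' : IntermediateField E L) (h : ∀ x ∈ N, x ∈ N') {V : Subalgebra k N'}
    (hV : Val V) (hS : ∀ f ∈ S, ∃ x : N', (x : L) = f ∧ Un V x) (g : N' ≃ₐ[E] N')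
    (hg : ∀ z ∈ V, (z : L) ∈ N → g z - z ∈ V ∧ ¬ Un V (g z - z)) :
    ∀ x ∈ N, ∃ h : x ∈ N', g ⟨x, h⟩ = ⟨x, h⟩ := by
  obtain ⟨V', σ, h1, h2, h3, h4⟩ := exists_ine hFE N N' h hV g hg
  refine fun x hx => ⟨h x hx, Subtype.ext ?_⟩
  have h5 := h4 1 ⟨x, hx⟩
  rw [pow_one, pow_one, (hO V' h1 fun f hf => by
    obtain ⟨y, rfl, hy⟩ := hS f hf
    exact (h2 y).2 hy).1 σ h3] at h5
  exact h5.symm

theorem Off.un {N : IntermediateField F L} {S T : Finset L} (hO : Off F N S T)
    (j : W →ₐ[k] L) {V : Subalgebra k W} (hV : Val V)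
    (hS : ∀ f ∈ S, ∃ x, j x = f ∧ Un V x) {x : W} (hx : j x ∈ T) : Un V x := by
  obtain ⟨V', h1, -, h3⟩ := exists_val_map j hV
  exact (h3 x).1 ((hO V' h1 fun f hf => by
    obtain ⟨y, rfl, hy⟩ := hS f hf
    exact (h3 y).2 hy).2 _ hx)

/-- Automorphisms multiply radicals by roots of unity. -/
theorem aut_rad [IsAlgClosed k] {N' : IntermediateField E L} {m : ℕ} (hm : m ≠ 0) {ξ : N'}
    (h0 : ξ ≠ 0) (hξ : (ξ : L) ^ m ∈ E) (g : N' ≃ₐ[E] N') :
    ∃ c : k, c ^ m = 1 ∧ g ξ = c • ξ := by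
  have h1 : g (ξ ^ m) = ξ ^ m := g.commutes ⟨_, hξ⟩
  obtain ⟨c, hc, e⟩ := root_one (k := k) hm (u := g ξ / ξ)
    (by rw [div_pow, ← map_pow, h1, div_self (pow_ne_zero m h0)])
  exact ⟨c, hc, by rw [Algebra.smul_def, ← e, div_mul_cancel₀ _ h0]⟩

theorem aut_pow_rad [IsAlgClosed k] {N' : IntermediateField E L} {m : ℕ} (hm : m ≠ 0) {ξ : N'}
    (h0 : ξ ≠ 0) (hξ : (ξ : L) ^ m ∈ E) (g : N' ≃ₐ[E] N') : (g ^ m) ξ = ξ := by
  obtain ⟨c, hc, e⟩ := aut_rad (k := k) hm h0 hξ g
  have : ∀ n : ℕ, (g ^ n) ξ = c ^ n • ξ := fun n => by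
    induction n with
    | zero => simp
    | succ n ih =>
      rw [pow_succ', AlgEquiv.mul_apply, ih, ← IsScalarTower.algebraMap_smul E, map_smul, e,
        IsScalarTower.algebraMap_smul, smul_smul, pow_succ]
  rw [this, hc, one_smul]

end Galois

section Aff

variable {n : ℕ} {K : IntermediateField k L} {D O : Subalgebra k L}

theorem exists_mul_mem_icl (hD : D ≤ K.toSubalgebra) {x : L} (hx : x ∈ K) (h : IsAlgebraic D x) :
    ∃ b ∈ D, b ≠ 0 ∧ b * x ∈ icl K D := by
  obtain ⟨b, hb, h1⟩ := h.exists_integral_multiple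
  exact ⟨b, b.2, fun e => hb (Subtype.ext e), K.mul_mem (hD b.2) hx, h1⟩

/-- Rational points of the normalization. -/
theorem aff_icl [PerfectField k] (hn : Algebra.trdeg k K = n) (hK : K.FG) (hD : D.FG)
    (hDK : D ≤ K.toSubalgebra) (halg : ∀ x ∈ K, IsAlgebraic D x) (hO : IsPoint (icl K D) O)
    (hr : Rt O) : Aff n K (icl K D) O :=
  ⟨hn, icl_fg_alg hD hK hDK halg, icl_le K D, fun x hx =>
    let ⟨b, hb, h0, h⟩ := exists_mul_mem_icl hDK hx (halg x hx)
    ⟨b, le_icl hDK hb, h0, h⟩, hO, hr⟩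

theorem isAlgebraic_trans (hDK : D ≤ K.toSubalgebra) (halg : ∀ x ∈ K, IsAlgebraic D x) {x : L}
    (hx : IsAlgebraic K x) : IsAlgebraic D x := by
  let _ : Algebra D K := (Subalgebra.inclusion hDK).toRingHom.toAlgebra
  have : IsScalarTower D K L := .of_algebraMap_eq fun _ => rfl
  have : Algebra.IsAlgebraic D K :=
    ⟨fun x => (isAlgebraic_algebraMap_iff (algebraMap K L).injective).1 (halg x x.2)⟩
  exact hx.restrictScalars D

theorem top_of_finite [FiniteDimensional K L] (hK : K.FG) :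
    (⊤ : IntermediateField k L).FG ∧
      Algebra.trdeg k (⊤ : IntermediateField k L) = Algebra.trdeg k K := by
  have : Algebra.EssFiniteType k K := IntermediateField.essFiniteType_iff.2 hK
  refine ⟨IntermediateField.fg_top_iff.2 (Algebra.EssFiniteType.comp k K L), ?_⟩
  rw [IntermediateField.topEquiv.trdeg_eq, ← trdeg_add_eq k K (A := L),
    trdeg_eq_zero (R := K) (A := L), add_zero]

theorem finite_of_fix (G : Type) [Group G] [Finite G] [MulSemiringAction G L] [SMulCommClass G k L]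
    (hK : ∀ x, x ∈ K ↔ ∀ g : G, g • x = x) : FiniteDimensional K L := by
  obtain rfl : K = FixedPoints.intermediateField G := IntermediateField.ext hK
  exact (inferInstance : FiniteDimensional (FixedPoints.subfield G L) L)

/-- Rational points of the normalization in a Galois ambient field. -/
theorem aff_top [PerfectField k] (G : Type) [Group G] [Finite G] [MulSemiringAction G L]
    [SMulCommClass G k L] (hG : ∀ x, x ∈ K ↔ ∀ g : G, g • x = x) (hn : Algebra.trdeg k K = n)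
    (hK : K.FG) (hD : D.FG) (hDK : D ≤ K.toSubalgebra) (halg : ∀ x ∈ K, IsAlgebraic D x)
    (hO : IsPoint (icl ⊤ D) O) (hr : Rt O) : Aff n ⊤ (icl ⊤ D) O := by
  have := finite_of_fix G hG
  obtain ⟨h1, h2⟩ := top_of_finite hK
  exact aff_icl (h2.trans hn) h1 hD le_top
    (fun x _ => isAlgebraic_trans hDK halg (Algebra.IsAlgebraic.isAlgebraic x)) hO hr

end Aff

variable (k L) in
/-- Module QUOT: the quotient of a toroidal point by a group with tame stabilizer. -/
def QuotStmt : Prop :=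
  ∀ (G : Type) [Group G] [Finite G] [MulSemiringAction G L] [SMulCommClass G k L] (n : ℕ)
    (K : IntermediateField k L) (D O : Subalgebra k L) (ι : Type) [Fintype ι]
    (r s : ℕ) (τ : Typ ι r) (z : Fin r → L) (t : Fin s → L),
    (∀ x, x ∈ K ↔ ∀ g : G, g • x = x) → Algebra.trdeg k K = n → K.FG → D.FG →
    D ≤ K.toSubalgebra → (∀ x ∈ K, IsAlgebraic D x) → IsPoint (icl ⊤ D) O → Rt O →
    (∀ H : Subgroup G, (∀ g ∈ H, ∀ x ∈ O, g • x ∈ O) → (Nat.card H : k) ≠ 0) → TP n O τ z t →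
    (∀ i, (∀ g : G, g • z i / z i ∈ O) ∨ ∀ g : G, z i / g • z i ∈ O) →
    (∀ g : G, (∀ x ∈ O, g • x ∈ O) → (∀ i, ∃ c : k, g • z i = c • z i) ∧ ∀ j, g • t j = t j) →
    ∃ (τ' : Typ ι r) (w : Fin r → L) (t' : Fin s → L), τ'.R = τ.R ∧
      TP n (loc (icl K D) O) τ' w t' ∧ ∀ f ∈ K, ∀ c, Un O (f / mn z c) →
        ∃ c', Un (loc (icl K D) O) (f / mn w c') ∧ ∀ ρ, τ'.ev c' ρ = τ.ev c ρ

end Pool.Agent.MP_19ffc6_ag.Res.B

end MrgPart1

-- ======== part 2: formerly Pool.Agent.MP_19ffc6_ag.Res.Tpk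
section MrgPart2

/-! PROJECT RES, part B: the structure of toroidal points. -/

set_option autoImplicit false

namespace Pool.Agent.MP_19ffc6_ag.Res.B

open Pool.Agent.MP_19ffc6_ag.Wild Pool.Agent.MP_19ffc6_ag.Lci Pool.Agent.MP_19ffc6_ag.Res.Tor

variable {k L : Type} [Field k] [Field L] [Algebra k L]
variable {n : ℕ} {K : IntermediateField k L} {A D O : Subalgebra k L}

lemma Aff.mem_of_integral (h : Aff n K D O) [IsIntegrallyClosed O] {x : L} (hx : x ∈ K)
    (hi : IsIntegral O x) : x ∈ O :=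
  let ⟨_, hb, hb0, hbx⟩ := h.frac x hx
  Res.mem_of_integral (h.pt.le hb) hb0 (h.pt.le hbx) hi

section Kit

variable {ι : Type} {r s : ℕ} {τ : Typ ι r} {z : Fin r → L} {t : Fin s → L}

lemma TP.ta_le (h : TP n O τ z t) : TA k z τ ≤ O := TA_le h.mem

lemma TP.sup_le (h : TP n O τ z t) : TA k z τ ⊔ Algebra.adjoin k (Set.range t) ≤ O :=
  _root_.sup_le h.ta_le (Algebra.adjoin_le (by rintro _ ⟨j, rfl⟩; exact (h.tm j).1))

lemma TP.gens (h : TP n O τ z t) : ∀ x ∈ mn z '' (τ.Reg 0 \ {0}) ∪ Set.range t,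
    x ∈ TA k z τ ⊔ Algebra.adjoin k (Set.range t) ∧ ¬ Un O x := by
  rintro _ (⟨c, hc, rfl⟩ | ⟨j, rfl⟩)
  · exact ⟨(le_sup_left : TA k z τ ≤ _) (mn_mem_TA hc.1), h.nu c hc.1 hc.2⟩
  · exact ⟨(le_sup_right : _ ≤ TA k z τ ⊔ _) (Algebra.subset_adjoin ⟨j, rfl⟩), (h.tm j).2⟩

lemma TP.par (h : TP n O τ z t) (hr : Rt O) :
    Res.Par O (mn z '' (τ.Reg 0 \ {0}) ∪ Set.range t) := fun x hx =>
  (hr x hx).imp fun c hc => h.gen _ (sub_mem hx (O.algebraMap_mem c)) hc

theorem TP.ind (h : TP n O τ z t) (ha : Aff n K D O) : AlgebraicIndependent k (Sum.elim z t) := by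
  obtain ⟨B, hB⟩ := exists_isTranscendenceBasis k K
  refine indep_of_par τ ha.fg ha.pt h.ta_le (fun j => (h.tm j).1) h.gens (h.par ha.rt)
    (hB.1.map' (f := K.val) Subtype.val_injective) ?_ fun i => ?_
  · rw [hB.cardinalMk_eq_trdeg, ha.deg, Cardinal.mk_fintype, ← h.card]
    simp
  · obtain ⟨b, hb, hb0, hbx⟩ := ha.frac _ i.1.2
    have h1 := (isIntegral_of_mem (ha.pt.le hbx)).isAlgebraic.mul
      (isIntegral_of_mem (ha.pt.le hb)).isAlgebraic.inv
    rwa [mul_comm b, mul_inv_cancel_right₀ hb0] at h1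

/-- The toolkit of a toroidal point. -/
theorem TP.kit (h : TP n O τ z t) (ha : Aff n K D O) :
    AlgebraicIndependent k (Sum.elim z t) ∧ SF (TA k z τ ⊔ Algebra.adjoin k (Set.range t)) O ∧
      SF (TA k z τ) O ∧ IsIntegrallyClosed O :=
  let ⟨h1, h2, h3⟩ := chart_of_par τ ha.fg ha.pt h.ta_le (fun j => (h.tm j).1) h.gens
    (h.par ha.rt) (h.ind ha)
  ⟨h.ind ha, h2, h1, h3⟩

theorem TP.normal (h : TP n O τ z t) (ha : Aff n K D O) {x : L} (hx : x ∈ K)
    (hi : IsIntegral O x) : x ∈ O :=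
  have := (h.kit ha).2.2.2
  ha.mem_of_integral hx hi

theorem TP.at (h : TP n O τ z t) (ha : Aff n K D O) : (Ch.mk r τ z).At O :=
  ⟨h.ptd, h.str, (h.ind ha).comp Sum.inl Sum.inl_injective, (h.kit ha).2.2.1⟩

/-- Every lattice vector is a difference of two vectors of the cone. -/
lemma exists_sub [Finite ι] (hs : τ.Strict) (c : Fin r → ℤ) :
    ∃ g ∈ τ.Reg 0, c + g ∈ τ.Reg 0 := by
  obtain ⟨g, hg⟩ := hs
  have h0 : g ∈ τ.Reg 0 := fun ρ hρ => (hg ρ hρ).le
  obtain ⟨m, hm⟩ := (Typ.ev_add_reg (a := 0) (f := c) h0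
    fun ρ hρ e => absurd e (hg ρ hρ).ne').exists
  exact ⟨_, Typ.nsmul_mem_reg h0 m, hm⟩

lemma TP.mn_mem_field [Finite ι] (h : TP n O τ z t) (ha : Aff n K D O) (c : Fin r → ℤ) :
    mn z c ∈ K := by
  obtain ⟨g, hg, hc⟩ := exists_sub h.str c
  rw [← add_sub_cancel_right c g, mn_sub h.ne]
  exact K.div_mem (ha.le_field (h.mem _ hc)) (ha.le_field (h.mem _ hg))

lemma TP.mem_field [Finite ι] (h : TP n O τ z t) (ha : Aff n K D O) (i : Fin r) : z i ∈ K := by
  simpa [mn_single] using h.mn_mem_field ha (Pi.single i 1)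

/-- The coordinates may be multiplied by units. -/
lemma TP.of_un (h : TP n O τ z t) {w : Fin r → L} (hw : ∀ i, Un O (w i / z i)) :
    TP n O τ w t := by
  have h0 : ∀ i, w i ≠ 0 := fun i e => (hw i).2.1 (by rw [e, zero_div])
  have h1 : ∀ c, Un O (mn w c / mn z c) := fun c => by
    have := mn_un (O := O) (u := fun i => w i / z i) (c := c) fun i hi => absurd (hw i) hi
    simpa only [mn, div_zpow, Finset.prod_div_distrib] using this
  have h2 : ∀ c, mn w c = mn w c / mn z c * mn z c := fun c =>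
    (div_mul_cancel₀ _ (mn_ne_zero h.ne c)).symm
  refine ⟨h.card, h.ptd, h.str, h.fac, h0, fun c hc => ?_, fun c hc hc0 hu => ?_, h.tm,
    fun x hx hu => span_le_span le_rfl ?_ (h.gen x hx hu)⟩
  · rw [h2]; exact mul_mem (h1 c).1 (h.mem c hc)
  · refine h.nu c hc hc0 ?_
    have := hu.mul (h1 c).inv
    rwa [inv_div, mul_div_cancel₀ _ (mn_ne_zero h0 c)] at this
  · rintro _ (⟨c, hc, rfl⟩ | ⟨j, rfl⟩)
    · rw [← div_mul_cancel₀ (mn z c) (mn_ne_zero h0 c), ← inv_div]
      exact mul_mem_span (h1 c).2.2 (Submodule.subset_span (Or.inl ⟨c, hc, rfl⟩))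
    · exact Submodule.subset_span (Or.inr ⟨j, rfl⟩)

/-- The positive orthant. -/
def orth (r : ℕ) : Typ (Fin r) r := ⟨Set.univ, fun i => Pi.single i 1⟩

lemma ev_orth (c : Fin r → ℤ) (i : Fin r) : (orth r).ev c i = c i := by
  simp [orth, Typ.ev]

lemma mem_reg_orth {a c : Fin r → ℤ} : c ∈ (orth r).Reg a ↔ a ≤ c :=
  ⟨fun h i => ev_orth c i ▸ h i trivial, fun h i _ => (ev_orth c i).symm ▸ h i⟩

lemma TA_orth (x : Fin r → L) : TA k x (orth r) = Algebra.adjoin k (Set.range x) := by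
  refine le_antisymm (TA_le fun c hc => mn_mem_adjoin x (mem_reg_orth.1 hc)) (Algebra.adjoin_le ?_)
  rintro _ ⟨i, rfl⟩
  have := mn_mem_TA (k := k) (z := x) (mem_reg_orth.2 (Pi.single_nonneg.2 zero_le_one :
    (0 : Fin r → ℤ) ≤ Pi.single i 1))
  rwa [mn_single, zpow_one] at this

variable {S : Finset L} {x : Fin r → L}

/-- A normal crossings point is toroidal. -/
theorem Par.tp (h : Par n S O x t) : TP n O (orth r) x t := by
  have hx : ∀ i, x i ∈ O ∧ x i ≠ 0 := fun i => ⟨(h.xm i).1, (h.xm i).2.1⟩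
  refine ⟨h.card, fun c hc => funext fun i => ev_orth c i ▸ hc i trivial,
    ⟨1, fun i _ => by simp [ev_orth]⟩, fun i _ => ⟨1 - Pi.single i 1, by simp [ev_orth],
      fun j _ hj => by simp [ev_orth, hj]⟩, fun i => (hx i).2,
    fun c hc => mn_mem hx fun i _ => mem_reg_orth.1 hc i, fun c hc h0 => ?_, h.tm,
    fun y hy hu => span_le_span le_rfl ?_ (h.gen y hy hu)⟩
  · obtain ⟨i, hi⟩ := Function.ne_iff.1 h0
    have h1 : 0 ≤ c := mem_reg_orth.1 hc
    intro hu
    rw [← add_sub_cancel (Pi.single i 1) c, mn_add fun i => (hx i).2, mn_single, zpow_one] at hu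
    refine (h.xm i).2.2 (Un.of_mul (hx i).1 (mn_mem hx fun j _ => ?_) hu)
    have := h1 j
    by_cases e : j = i
    · subst e
      simp only [Pi.sub_apply, Pi.single_eq_same, Pi.zero_apply] at *
      omega
    · simpa [e] using this
  · rintro _ (⟨i, rfl⟩ | ⟨j, rfl⟩)
    · refine Submodule.subset_span (Or.inl ⟨Pi.single i 1,
        ⟨mem_reg_orth.2 (Pi.single_nonneg.2 zero_le_one), by simp⟩, ?_⟩)
      rw [mn_single, zpow_one]
    · exact Submodule.subset_span (Or.inr ⟨j, rfl⟩)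

theorem Par.toSees (h : Par n S O x t) : Sees S O (orth r) x :=
  ⟨h.mon, fun i _ => let ⟨f, hf, c, hc, h0⟩ := h.sees i; ⟨f, hf, c, hc, (ev_orth c i).symm ▸ h0⟩⟩

theorem SncForm.torForm {M : Submodule k L} (h : SncForm n K S M) : TorForm n K S M :=
  ⟨h.1, fun O hO hr =>
    let ⟨r, s, x, t, hp⟩ := h.2 O hO hr
    ⟨Fin r, inferInstance, r, s, orth r, x, t, hp.tp, hp.toSees⟩⟩

theorem Par.normal (h : Par n S O x t) (ha : Aff n K D O) {y : L} (hy : y ∈ K)
    (hi : IsIntegral O y) : y ∈ O := h.tp.normal ha hy hi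

end Kit

end Pool.Agent.MP_19ffc6_ag.Res.B

end MrgPart2

-- marker of a merged file
example : 731051 + 563138 = 731051 + 563138 := rfl
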