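import Pool.Agent.MP_19ffc6_ag.Res.Pur
import Pool.Agent.MP_19ffc6_ag.Res.Norm
import Pool.Agent.MP_19ffc6_ag.Res.Tpk

-- ======== part 0: formerly Pool.Agent.MP_19ffc6_ag.Res.AJ
section MrgPart0

/-! # Abhyankar's lemma and the tame Abhyankar-Jung theorem -/

set_option autoImplicit false

namespace Pool.Agent.MP_19ffc6_ag.Res

open Polynomial IsLocalRing

variable {L : Type} [Field L] {G : Type} [Group G] [MulSemiringAction G L]

lemma res_eq_zero (W : ValuationSubring L) (a : W) : residue W a = 0 ↔ W.valuation a.1 < 1 := by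
  rw [residue_eq_zero_iff, W.valuation_lt_one_iff]

lemma val_eval_le (W : ValuationSubring L) {r : L[X]} {a : L} (ha : a ∈ W) {c : W.ValueGroup}
    (h : ∀ i, W.valuation (r.coeff i) ≤ c) : W.valuation (r.eval a) ≤ c := by
  rw [eval_eq_sum_range]
  refine W.valuation.map_sum_le fun i _ => ?_
  rw [map_mul]
  exact (mul_le_of_le_one_right' ((W.valuation_le_one_iff _).2 (pow_mem ha i))).trans (h i)

/-- a simple root modulo the maximal ideal generates an unramified extension -/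
lemma unram (W : ValuationSubring L) (V : Subring L) (hV : ∀ z ∈ V, z ∈ W)
    (hinv : ∀ z ∈ V, W.valuation z = 1 → z⁻¹ ∈ V) {c : W.ValueGroup} (hc : c < 1)
    (hx : ∀ z ∈ V, W.valuation z < 1 → W.valuation z ≤ c) {f p : L[X]} (hf : Cf V f) (hp : Cf V p)
    (hm : f.Monic) {a : L} (ha : a ∈ W) (h0 : f.eval a = 0)
    (h1 : W.valuation (f.derivative.eval a) = 1) (h2 : W.valuation (p.eval a) < 1) :
    W.valuation (p.eval a) ≤ c := by
  let inc : V →+* W := V.subtype.codRestrict W fun z => hV _ z.2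
  let φ : V →+* ResidueField W := (residue W).comp inc
  have hφ : ∀ z : V, φ z = 0 ↔ W.valuation z.1 < 1 := fun z => res_eq_zero W (inc z)
  let K : Subfield (ResidueField W) :=
    { φ.range with
      inv_mem' := by
        rintro _ ⟨z, rfl⟩
        by_cases h : φ z = 0
        · exact ⟨0, by simp [h]⟩
        have hz : W.valuation z.1 = 1 :=
          le_antisymm ((W.valuation_le_one_iff _).2 (hV _ z.2)) (not_lt.1 (mt (hφ z).2 h))
        refine ⟨⟨_, hinv _ z.2 hz⟩, eq_inv_of_mul_eq_one_right ?_⟩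
        rw [← map_mul, ← map_one φ]
        exact congrArg _ (Subtype.ext (mul_inv_cancel₀ (ne_zero_of_val W hz))) }
  let φ0 : V →+* K := φ.codRestrict K fun z => ⟨z, rfl⟩
  have hs : Function.Surjective φ0 := by rintro ⟨_, z, rfl⟩; exact ⟨z, rfl⟩
  let b : ResidueField W := residue W ⟨a, ha⟩
  have hE : ∀ q : V[X], aeval b (q.map φ0) = 0 ↔ W.valuation ((q.map V.subtype).eval a) < 1 := by
    intro q
    have e1 : aeval b (q.map φ0) = residue W (q.eval₂ inc ⟨a, ha⟩) := by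
      rw [hom_eval₂, aeval_def, eval₂_map]; rfl
    have e2 : (q.eval₂ inc ⟨a, ha⟩).1 = (q.map V.subtype).eval a := by
      change W.subtype _ = _
      rw [hom_eval₂, eval_map]; rfl
    rw [e1, res_eq_zero, e2]
  have hW : ∀ q : V[X], W.valuation ((q.map V.subtype).eval a) ≤ 1 := fun q =>
    val_eval_le W ha fun i => by rw [coeff_map]; exact (W.valuation_le_one_iff _).2 (hV _ (q.coeff i).2)
  obtain ⟨f, rfl, -, hm'⟩ := lifts_and_degree_eq_and_monic (f := V.subtype) (cf_iff.1 hf) hm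
  obtain ⟨p, rfl⟩ := cf_iff.1 hp
  obtain ⟨h, hh⟩ := map_surjective φ0 hs (minpoly K b)
  have hdiv : ∀ q : V[X], W.valuation ((q.map V.subtype).eval a) < 1 →
      ∃ u r : V[X], q = h * u + r ∧ ∀ i, W.valuation (r.coeff i).1 ≤ c := fun q hq => by
    obtain ⟨u, hu⟩ := minpoly.dvd K b ((hE q).2 hq)
    obtain ⟨u, rfl⟩ := map_surjective φ0 hs u
    refine ⟨u, q - h * u, by ring, fun i => hx _ (Subtype.mem _) ((hφ _).1 ?_)⟩
    have : (q - h * u).map φ0 = 0 := by rw [Polynomial.map_sub, Polynomial.map_mul, hh, hu, sub_self]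
    have h3 : φ0 ((q - h * u).coeff i) = 0 := by rw [← coeff_map, this, coeff_zero]
    exact congrArg Subtype.val h3
  have hr : ∀ r : V[X], (∀ i, W.valuation (r.coeff i).1 ≤ c) →
      W.valuation ((r.map V.subtype).eval a) ≤ c := fun r h =>
    val_eval_le W ha fun i => by rw [coeff_map]; exact h i
  have hh1 : W.valuation ((h.map V.subtype).eval a) < 1 := (hE h).1 (hh ▸ minpoly.aeval K b)
  obtain ⟨u, r, rfl, k1⟩ := hdiv f (by rw [h0, map_zero]; exact zero_lt_one)
  have hu : W.valuation ((u.map V.subtype).eval a) = 1 := by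
    refine le_antisymm (hW u) (not_lt.1 fun hlt => h1.not_lt ?_)
    rw [derivative_map, derivative_add, derivative_mul]
    simp only [Polynomial.map_add, Polynomial.map_mul, eval_add, eval_mul]
    refine W.valuation.map_add_lt (W.valuation.map_add_lt ?_ ?_) ((hr _ fun i => ?_).trans_lt hc)
    · rw [map_mul]; exact mul_lt_one_of_nonneg_of_lt_one_right (hW _) zero_le hlt
    · rw [map_mul]; exact mul_lt_one_of_nonneg_of_lt_one_left zero_le hh1 (hW _)
    · rw [coeff_derivative, Subring.coe_mul, map_mul]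
      exact (mul_le_of_le_one_right' ((W.valuation_le_one_iff _).2 (hV _ (Subtype.mem _)))).trans
        (k1 _)
  have hh2 : W.valuation ((h.map V.subtype).eval a) ≤ c := by
    rw [Polynomial.map_add, Polynomial.map_mul, eval_add, eval_mul, add_eq_zero_iff_eq_neg] at h0
    have := congrArg W.valuation h0
    rw [map_mul, hu, mul_one, Valuation.map_neg] at this
    exact this ▸ hr r k1
  obtain ⟨u', r', rfl, k2⟩ := hdiv p h2
  change W.valuation (((h * u' + r').map V.subtype).eval a) ≤ c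
  rw [Polynomial.map_add, Polynomial.map_mul, eval_add, eval_mul]
  refine W.valuation.map_add_le ?_ (hr r' k2)
  rw [map_mul]
  exact (mul_le_of_le_one_right' (hW _)).trans hh2

/-- the inertia group of the centre of `W` on a stable subring `A` -/
def inert (A : Subring L) (hA : ∀ (g : G), ∀ z ∈ A, g • z ∈ A) (W : ValuationSubring L) :
    Subgroup G where
  carrier := {g | ∀ s ∈ A, W.valuation (g • s - s) < 1}
  one_mem' := by simp
  mul_mem' := fun {a b} ha hb s hs => by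
    have := W.valuation.map_add_lt (ha _ (hA b s hs)) (hb s hs)
    rwa [sub_add_sub_cancel, ← mul_smul] at this
  inv_mem' := fun {a} ha s hs => by
    have := ha _ (hA a⁻¹ s hs)
    rwa [smul_inv_smul, Valuation.map_sub_swap] at this

/-- the fixed ring of the inertia group is standard etale at the centre of `W` -/
theorem exists_etale {k : Type} [Field k] [Infinite k] [Algebra k L] [Finite G] (A : Subring L)
    (hA : ∀ (g : G), ∀ z ∈ A, g • z ∈ A) (W : ValuationSubring L) (hW : ∀ z ∈ A, z ∈ W)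
    (hk : ∀ c : k, algebraMap k L c ∈ A ∧ Fix G (algebraMap k L c)) :
    ∃ a ∈ A, (∀ g ∈ inert A hA W, g • a = a) ∧ ∀ g ∉ inert A hA W, W.valuation (a - g • a) = 1 := by
  classical
  set H := inert A hA W
  let B : Subring L := A ⊓ (FixedPoints.subfield H L).toSubring
  obtain ⟨a, ha, hsep⟩ := exists_sep (k := k) B W
    (fun c => ⟨⟨(hk c).1, fun g => (hk c).2 g.1⟩, hW _ (hk c).1, (hk c).2⟩) {g : G | g ∉ H}
    fun g hg => by
      by_contra hc
      push Not at hc
      refine hg fun s hs => ?_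
      let _ : Fintype H := Fintype.ofFinite _
      let P := MulSemiringAction.charpoly H s
      have hP : Cf B P := fun i => ⟨cf_iff.2 (cf_nodal Finset.univ (fun h : H => h • s)
        fun h => hA h.1 s hs) i, fun h => MulSemiringAction.smul_coeff_charpoly s i h⟩
      have e0 : (g • P).eval (g • s) = 0 := by
        rw [smul_eval_smul, MulSemiringAction.eval_charpoly, smul_zero]
      have e1 : W.valuation (P.eval (g • s)) < 1 := by
        rw [← Valuation.map_neg, ← zero_sub, ← e0, ← eval_sub, eval_eq_sum_range]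
        refine W.valuation.map_sum_lt one_ne_zero fun i _ => ?_
        rw [map_mul, coeff_sub]
        exact mul_lt_one_of_nonneg_of_lt_one_left zero_le (hc _ (hP i))
          ((W.valuation_le_one_iff _).2 (pow_mem (hW _ (hA g s hs)) i))
      by_contra hn
      have h1 : W.valuation (g • s - s) = 1 := le_antisymm ((W.valuation_le_one_iff _).2
        (sub_mem (hW _ (hA g s hs)) (hW _ hs))) (not_lt.1 hn)
      refine e1.ne ?_
      rw [show P = _ from MulSemiringAction.charpoly_eq H s, eval_prod, map_prod]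
      refine Finset.prod_eq_one fun h _ => ?_
      rw [eval_sub, eval_X, eval_C]
      refine val_eq_one W h1 ?_
      rw [sub_sub_sub_cancel_left, Valuation.map_sub_swap]
      exact h.2 s hs
  refine ⟨a, ha.1, fun g hg => ha.2 ⟨g, hg⟩, fun g hg => ?_⟩
  rw [Valuation.map_sub_swap]
  exact le_antisymm ((W.valuation_le_one_iff _).2 (sub_mem (hW _ (hA g a ha.1)) (hW _ ha.1)))
    (not_lt.1 (hsep g hg))

variable (G) in
/-- the elements all of whose conjugates lie in `W` -/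
def core (W : ValuationSubring L) : Subring L :=
  ⨅ g : G, W.toSubring.comap (MulSemiringAction.toRingHom G L g)

lemma mem_core {W : ValuationSubring L} {z : L} : z ∈ core G W ↔ ∀ g : G, g • z ∈ W := by
  simp [core, Subring.mem_iInf]

lemma core_smul (W : ValuationSubring L) (g : G) (z : L) (hz : z ∈ core G W) : g • z ∈ core G W :=
  mem_core.2 fun h => by rw [← mul_smul]; exact mem_core.1 hz _

lemma core_le (W : ValuationSubring L) (z : L) (hz : z ∈ core G W) : z ∈ W := by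
  simpa using mem_core.1 hz 1

variable (G) in
/-- the inertia group of `W` -/
def inG (W : ValuationSubring L) : Subgroup G := inert (core G W) (core_smul W) W

lemma mem_inG [Finite G] {W : ValuationSubring L} {g : G} : g ∈ inG G W ↔ In W g :=
  ⟨fun h => in_of_core W g fun s hs => h s (mem_core.2 hs), fun h s hs => h s (core_le W s hs)⟩

lemma In.mem {W : ValuationSubring L} {g : G} (h : In W g) {z : L} (hz : z ∈ W) : g • z ∈ W := by
  have := add_mem ((W.valuation_le_one_iff _).1 (h z hz).le) hz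
  rwa [sub_add_cancel] at this

lemma val_card (W : ValuationSubring L) {m n : ℕ} (hm : W.valuation (m : L) = 1) (hn : n ≠ 0)
    (h : ∀ q : ℕ, q.Prime → q ∣ n → q ∣ m) : W.valuation (n : L) = 1 := by
  have : n.primeFactorsList.prod ∈
      (MonoidHom.mker W.valuation).comap (Nat.castRingHom L) := list_prod_mem fun q hq => by
    obtain ⟨c, rfl⟩ := h q (Nat.prime_of_mem_primeFactorsList hq) (Nat.dvd_of_mem_primeFactorsList hq)
    rw [Nat.cast_mul, map_mul] at hm
    exact le_antisymm ((W.valuation_le_one_iff _).2 (natCast_mem _ _)) (hm ▸ mul_le_of_le_one_right'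
      ((W.valuation_le_one_iff _).2 (natCast_mem _ _)))
  rwa [Nat.prod_primeFactorsList hn] at this

section Abh
variable {k : Type} [Field k] [Infinite k] [Algebra k L] [Finite G] {W : ValuationSubring L}
  (hk : ∀ c : k, algebraMap k L c ∈ W ∧ Fix G (algebraMap k L c)) {x : L} (hx : Fix G x)
  (hx0 : x ≠ 0) (hx1 : W.valuation x < 1)
  (hu : ∀ z ∈ W, Fix G z → z ≠ 0 → ∃ n : ℕ, W.valuation z = W.valuation x ^ n)
include hk hx hx0 hx1 hu

/-- the fixed field of the inertia group has the same value group -/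
lemma val_inert {w : L} (hw : ∀ g ∈ inG G W, g • w = w) (h0 : w ≠ 0) :
    ∃ j : ℤ, W.valuation w = W.valuation x ^ j := by
  classical
  let _ : Fintype G := Fintype.ofFinite _
  have hpos : 0 < W.valuation x := (Valuation.pos_iff _).2 hx0
  obtain ⟨a, a1, a2, a3⟩ := exists_etale (k := k) (core G W) (core_smul W) W (core_le W)
    fun c => ⟨mem_core.2 fun g => ((hk c).2 g).symm ▸ (hk c).1, (hk c).2⟩
  obtain ⟨f, h1, h2, h3, h4, h5, h6⟩ := lag (inG G W) a a2
  have hd : W.valuation (f.derivative.eval a) = 1 := h5 (MonoidHom.mker W.valuation) a3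
  let V : Subring L := W.toSubring ⊓ (FixedPoints.subfield G L).toSubring
  have s1 : ∀ s, (∀ g ∈ inG G W, g • s = s) → W.valuation s < 1 →
      W.valuation s ≤ W.valuation x := fun s hs hv => by
    obtain ⟨u, u1, -, u3, u4⟩ := exists_core (G := G) W ((W.valuation_le_one_iff _).1 hv.le)
    obtain ⟨p, p1, p2, p3⟩ := h6 (s * u) fun g hg => by rw [smul_mul', hs g hg, u4 g (hs g hg)]
    have e : W.valuation (p.eval a) = W.valuation s := by rw [p2, map_mul, map_mul, u1, hd]; simp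
    rw [← e] at hv ⊢
    refine unram W V (fun z hz => hz.1) (fun z hz h => ⟨inv_mem_of_val W h,
      (FixedPoints.subfield G L).inv_mem hz.2⟩) hx1
      (fun z hz h => ?_) (fun i => ⟨h4 W.toSubring (mem_core.1 a1) i, h3 i⟩)
      (fun i => ⟨p3 W.toSubring (mem_core.1 a1) u3 i, p1 i⟩) h1 (core_le W a a1) h2 hd hv
    by_cases hz0 : z = 0
    · simp [hz0]
    obtain ⟨n, hn⟩ := hu z hz.1 hz.2 hz0
    rcases n with _ | n
    · exact absurd (hn.trans (pow_zero _)) h.ne
    · rw [hn, pow_succ]; exact mul_le_of_le_one_left' (pow_le_one' hx1.le n)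
  have s2 : ∀ (n : ℕ) w, (∀ g ∈ inG G W, g • w = w) → w ∈ W →
      W.valuation x ^ n ≤ W.valuation w → ∃ j : ℤ, W.valuation w = W.valuation x ^ j := by
    intro n
    induction n with
    | zero => exact fun w _ h1 h2 =>
        ⟨0, le_antisymm ((W.valuation_le_one_iff _).2 h1) (by simpa using h2)⟩
    | succ n ih =>
      intro w h0 h1 h2
      rcases ((W.valuation_le_one_iff _).2 h1).eq_or_lt with h | h
      · exact ⟨0, h⟩
      obtain ⟨j, hj⟩ := ih (w / x) (fun g hg => by rw [smul_div₀', h0 g hg, hx g])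
        ((val_le_iff W _ hx0).1 (s1 w h0 h)) (by rwa [map_div₀, le_div_iff₀ hpos, ← pow_succ])
      rw [map_div₀, div_eq_iff hpos.ne'] at hj
      exact ⟨j + 1, by rw [hj, zpow_add_one₀ hpos.ne']⟩
  have s3 : ∀ w, (∀ g ∈ inG G W, g • w = w) → w ≠ 0 → w ∈ W →
      ∃ j : ℤ, W.valuation w = W.valuation x ^ j := fun w hw h0 h1 => by
    obtain ⟨u, u1, -, u3, -⟩ := exists_core (G := G) W h1
    obtain ⟨n, hn⟩ := hu (∏ g : G, g • (w * u)) (prod_mem fun g _ => u3 g)
      (fun h => Finset.smul_prod_perm _ h) (Finset.prod_ne_zero_iff.2 fun g _ =>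
        (smul_ne_zero_iff_ne g).2 (mul_ne_zero h0 (ne_zero_of_val W u1)))
    refine s2 n w hw h1 (hn ▸ ?_)
    rw [← Finset.mul_prod_erase _ _ (Finset.mem_univ (1 : G)), one_smul, map_mul, map_mul, u1, mul_one]
    exact mul_le_of_le_one_right' ((W.valuation_le_one_iff _).2 (prod_mem fun g _ => u3 g))
  rcases W.mem_or_inv_mem w with h | h
  · exact s3 w hw h0 h
  · obtain ⟨j, hj⟩ := s3 w⁻¹ (fun g hg => by rw [smul_inv'', hw g hg]) (inv_ne_zero h0) h
    exact ⟨-j, by rw [zpow_neg, ← hj, map_inv₀, inv_inv]⟩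

/-- ABHYANKAR's lemma -/
theorem abhyankar [FaithfulSMul G L] {m : ℕ} (hm : W.valuation (m : L) = 1) {y : L}
    (hy : y ^ m = x) (hI : ∀ g : G, In W g → g ^ m = 1) {g : G} (hg : In W g) (hgy : g • y = y) :
    g = 1 := by
  classical
  set I := inG G W
  let _ : Fintype I := Fintype.ofFinite _
  have hm0 : m ≠ 0 := by rintro rfl; simp at hm
  have hy0 : y ≠ 0 := by rintro rfl; exact hx0 (hy ▸ zero_pow hm0)
  have hε : ∀ (h : I) (z : L), h.1 • z / z ∈ W := fun h z => by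
    by_cases hz : z = 0
    · simp [hz]
    have e : ∀ z, z ∈ W ↔ h.1 • z ∈ W := fun z => ⟨(mem_inG.1 h.2).mem, fun hz => by
      simpa using (mem_inG.1 (I.inv_mem h.2)).mem hz⟩
    by_contra hc
    have h1 := (W.mem_or_inv_mem _).resolve_left hc
    have key : ∀ j : ℕ, z / h.1 ^ j • z ∈ W := fun j => by
      induction j with
      | zero => simp [hz]
      | succ j ih =>
        have := mul_mem h1 ((e _).1 ih)
        have h2 : h.1 • z ≠ 0 := (smul_ne_zero_iff_ne _).2 hz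
        rwa [smul_div₀', ← mul_smul, ← pow_succ', inv_div, div_mul_div_cancel₀ h2] at this
    obtain ⟨j, hj⟩ := Nat.exists_eq_succ_of_ne_zero hm0
    have := (e _).1 (key j)
    rw [smul_div₀', ← mul_smul, ← pow_succ', ← Nat.succ_eq_add_one, ← hj,
      hI _ (mem_inG.1 h.2), one_smul] at this
    exact hc this
  have hres : ∀ (h : I) (u : W), residue W ⟨h.1 • u.1, (mem_inG.1 h.2).mem u.2⟩ = residue W u :=
    fun h u => by
      rw [← sub_eq_zero, ← map_sub, res_eq_zero]; exact mem_inG.1 h.2 u.1 u.2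
  let χ : ∀ z : L, z ≠ 0 → I →* ResidueField W := fun z hz =>
    { toFun := fun h => residue W ⟨_, hε h z⟩
      map_one' := by
        rw [← map_one (residue W)]; congr 1; exact Subtype.ext (by simp [hz])
      map_mul' := fun a b => by
        rw [mul_comm (residue W _), ← hres a ⟨_, hε b z⟩, ← map_mul]
        congr 1
        have h2 : a.1 • z ≠ 0 := (smul_ne_zero_iff_ne _).2 hz
        exact Subtype.ext (by simp [mul_smul, smul_div₀', div_mul_div_cancel₀ h2]) }
  have hsum : ∀ (ι : Type) (s : Finset ι) (h : ι → I) (z : L) (hz : z ≠ 0),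
      (∀ i, χ z hz (h i) = 1) → W.valuation (s.card : L) = 1 →
      W.valuation (∑ i ∈ s, (h i).1 • z) = W.valuation z := fun ι s h z hz h1 h2 => by
    have : W.valuation ((∑ i ∈ s, (h i).1 • z) / z) = 1 := by
      refine val_eq_one W h2 ?_
      rw [Finset.sum_div, Finset.card_eq_sum_ones, Nat.cast_sum, ← Finset.sum_sub_distrib]
      refine W.valuation.map_sum_lt one_ne_zero fun i _ => ?_
      have := (res_eq_zero W (⟨_, hε (h i) z⟩ - 1)).1 (by
        rw [map_sub, map_one, sub_eq_zero]; exact h1 i)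
      simpa using this
    rwa [map_div₀, div_eq_one_iff_eq ((Valuation.ne_zero_iff _).2 hz)] at this
  have hcard : W.valuation ((Finset.univ : Finset I).card : L) = 1 :=
    val_card W hm Fintype.card_ne_zero fun q hq hd => by
      have := Fact.mk hq
      obtain ⟨h, hh⟩ := exists_prime_orderOf_dvd_card q hd
      exact hh ▸ orderOf_dvd_of_pow_eq_one (Subtype.ext (hI _ (mem_inG.1 h.2)))
  let g' : I := ⟨g, mem_inG.2 hg⟩
  have htriv : ∀ z hz, χ z hz g' = 1 := fun z hz => by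
    have e := hsum I Finset.univ id (z ^ m) (pow_ne_zero _ hz) (fun h => by
      have : χ z hz (h ^ m) = 1 := by
        rw [show h ^ m = 1 from Subtype.ext (hI _ (mem_inG.1 h.2)), map_one]
      rw [map_pow] at this
      rw [← this]
      change residue W _ = residue W _ ^ m
      rw [← map_pow]
      congr 1
      exact Subtype.ext (by simp [div_pow])) hcard
    obtain ⟨j, hj⟩ := val_inert hk hx hx0 hx1 hu (w := ∑ h : I, h.1 • z ^ m)
      (fun a ha => by
        rw [Finset.smul_sum]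
        exact Fintype.sum_equiv (Equiv.mulLeft (⟨a, ha⟩ : I)) _ _ fun h => (mul_smul _ _ _).symm)
      (fun h0 => by
        simp only [id, h0, map_zero] at e
        exact pow_ne_zero m hz ((Valuation.zero_iff _).1 e.symm))
    have e2 : W.valuation z = W.valuation y ^ j := by
      rw [← pow_left_inj₀ zero_le zero_le hm0, ← map_pow, ← e, ← zpow_natCast (W.valuation y ^ j),
        ← zpow_mul, mul_comm, zpow_mul, zpow_natCast, ← map_pow, hy]
      exact hj
    have hu1 : W.valuation (z / y ^ j) = 1 := by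
      rw [map_div₀, map_zpow₀, e2, div_self (zpow_ne_zero _ ((Valuation.ne_zero_iff _).2 hy0))]
    have hgj : g • y ^ j = y ^ j :=
      (map_zpow₀ (MulSemiringAction.toRingHom G L g) y j).trans (congrArg (· ^ j) hgy)
    have := hg _ ((W.valuation_le_one_iff _).1 hu1.le)
    change residue W _ = 1
    rw [← sub_eq_zero, ← map_one (residue W), ← map_sub, res_eq_zero]
    change W.valuation (g • z / z - 1) < 1
    have hyj := zpow_ne_zero j hy0
    rwa [smul_div₀', hgj, show g • z / y ^ j - z / y ^ j = (g • z / z - 1) * (z / y ^ j) by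
      field_simp, map_mul, hu1, mul_one] at this
  refine eq_of_smul_eq_smul (α := L) fun z => ?_
  rw [one_smul, ← sub_eq_zero]
  by_contra hz
  have := hsum ℕ (Finset.range m) (fun j => g' ^ j) _ hz (fun j => by rw [map_pow, htriv _ hz, one_pow])
    (by simpa using hm)
  have e : ∑ j ∈ Finset.range m, (g' ^ j).1 • (g • z - z) = 0 := by
    have := Finset.sum_range_sub (fun j => g ^ j • z) m
    rw [hI g hg, pow_zero, sub_self] at this
    rw [← this]
    exact Finset.sum_congr rfl fun j _ => by simp [g', smul_sub, pow_succ, mul_smul]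
  rw [e, map_zero] at this
  exact hz ((Valuation.zero_iff _).1 this.symm)

end Abh

/-! ### uniformisers -/

namespace Dv
variable {R : Subring L} {W : ValuationSubring L} (h : Dv G R W) (hfix : ∀ r ∈ R, Fix G r)
  {x : L} (hx : x ∈ R) (hx0 : x ≠ 0) (hv : W.valuation x < 1)
  (hpr : ∀ a ∈ R, ∀ b ∈ R, a * b / x ∈ R → a / x ∈ R ∨ b / x ∈ R)
include h hfix hx hx0 hv hpr

lemma div_mem {b : L} (hb : b ∈ R) (hW : W.valuation b ≤ W.valuation x) : b / x ∈ R := by
  obtain ⟨u, u1, u2, u3⟩ := h.loc _ ((val_le_iff W _ hx0).1 hW) fun g => by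
    rw [smul_div₀', hfix b hb, hfix x hx]
  refine (hpr u u1 b hb (by rwa [mul_div_assoc])).resolve_left fun k => ?_
  exact ((val_le_iff W _ hx0).2 (h.le _ k)).not_gt (u2 ▸ hv)

/-- a prime element of `R` in the centre is a uniformiser -/
lemma unif_of : ∀ z ∈ W, Fix G z → z ≠ 0 → ∃ n : ℕ, W.valuation z = W.valuation x ^ n := by
  obtain ⟨π, p1, p2, p3, p4⟩ := h.unif
  obtain ⟨n, hn⟩ := p4 x hx hx0
  have key : ∀ n : ℕ, π ^ n / x ∈ R → π / x ∈ R := fun n => by
    induction n with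
    | zero => exact fun k => absurd ((val_le_iff W _ hx0).2 (h.le _ k)) (by simpa using hv)
    | succ n ih => exact fun k => (hpr _ (pow_mem p1 n) π p1 (by rwa [← pow_succ])).elim ih id
  have e : W.valuation π = W.valuation x := by
    refine le_antisymm ((val_le_iff W _ hx0).2 (h.le _ (key n
      (h.div_mem hfix hx hx0 hv hpr (pow_mem p1 n) (by rw [map_pow, hn]))))) ?_
    rcases n with _ | n
    · exact absurd (hn.trans (pow_zero _)) hv.ne
    · rw [hn, pow_succ]; exact mul_le_of_le_one_left' (pow_le_one' p3.le n)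
  intro z hz hf h0
  obtain ⟨u, u1, u2, u3⟩ := h.loc z hz hf
  obtain ⟨n, hn⟩ := p4 _ u3 (mul_ne_zero (ne_zero_of_val W u2) h0)
  exact ⟨n, by rwa [map_mul, u2, one_mul, e] at hn⟩

lemma le_of_lt {z : L} (hz : Fix G z) (h1 : W.valuation z < 1) : W.valuation z ≤ W.valuation x := by
  by_cases h0 : z = 0
  · simp [h0]
  obtain ⟨n, hn⟩ := h.unif_of hfix hx hx0 hv hpr z ((W.valuation_le_one_iff _).1 h1.le) hz h0
  rcases n with _ | n
  · exact absurd (hn.trans (pow_zero _)) h1.ne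
  · rw [hn, pow_succ]; exact mul_le_of_le_one_left' (pow_le_one' hv.le n)

end Dv

lemma val_root (W : ValuationSubring L) {y : L} {m : ℕ} (hm : m ≠ 0)
    (h : W.valuation (y ^ m) = 1) : W.valuation y = 1 := by
  rwa [map_pow, pow_eq_one_iff_of_nonneg zero_le hm] at h

/-- KUMMER: the integral closure in the field generated by the roots -/
theorem Fam.kummer [Finite G] {σ : Type} [Fintype σ] {R : Subring L}
    {𝒲 : Set (ValuationSubring L)} (F : Fam G R 𝒲) {x y : σ → L} {m : σ → ℕ} (hx : ∀ i, x i ∈ R)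
    (hx0 : ∀ i, x i ≠ 0) (hy : ∀ i, y i ^ m i = x i) (hm : ∀ i, (m i : L) ≠ 0 ∧ (m i : L)⁻¹ ∈ R)
    (hbd : ∀ W ∈ 𝒲, ∀ i, m i ≠ 1 → W.valuation (x i) < 1 →
      (∀ z, Fix G z → W.valuation z < 1 → W.valuation z ≤ W.valuation (x i)) ∧
      ∀ j, j ≠ i → m j ≠ 1 → W.valuation (x j) = 1)
    {z : L} (hz : z ∈ cl 𝒲) (hf : ∀ g : G, (∀ i, g • y i = y i) → g • z = z) :
    z ∈ Subring.closure (R ∪ Set.range y) := by
  classical
  let H : Subgroup G := ⨅ i, MulAction.stabilizer G (y i)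
  have hH : ∀ g, g ∈ H ↔ ∀ i, g • y i = y i := fun g => Subgroup.mem_iInf
  let _ : Fintype (G ⧸ H) := Fintype.ofFinite _
  have hm0 : ∀ i, m i ≠ 0 := fun i e => (hm i).1 (by simp [e])
  have hy0 : ∀ i, y i ≠ 0 := fun i e => hx0 i (by rw [← hy, e, zero_pow (hm0 i)])
  have hw : ∀ e : σ → ℕ, ∀ g ∈ H, g • (z / ∏ i, y i ^ e i) = z / ∏ i, y i ^ e i := fun e g hg => by
    simp only [smul_div₀', Finset.smul_prod', smul_pow', (hH g).1 hg, hf g ((hH g).1 hg)]
  let c : (σ → ℕ) → L := fun e => ∑ q, ev H _ (hw e) q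
  let ζ : G ⧸ H → σ → L := fun q i => y i / q.out • y i
  have hζ : ∀ q i, ζ q i ^ m i = 1 := fun q i => by
    simp only [ζ]; rw [div_pow, ← smul_pow', hy, F.fix _ (hx i), div_self (hx0 i)]
  have hc : ∀ e, c e * ∏ i, y i ^ e i = ∑ q : G ⧸ H, q.out • z * ∏ i, ζ q i ^ e i := fun e => by
    rw [Finset.sum_mul]
    refine Finset.sum_congr rfl fun q _ => ?_
    have : ev H _ (hw e) q = q.out • (z / ∏ i, y i ^ e i) := by
      conv_lhs => rw [← q.out_eq]
      rfl
    simp only [this, ζ, smul_div₀', Finset.smul_prod', smul_pow', div_pow, Finset.prod_div_distrib]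
    ring
  have hsum : ∑ e ∈ Fintype.piFinset fun i => Finset.range (m i), c e * ∏ i, y i ^ e i =
      z * ∏ i, (m i : L) := by
    simp only [hc]
    rw [Finset.sum_comm]
    have hp : ∀ q, ∑ e ∈ Fintype.piFinset fun i => Finset.range (m i), ∏ i, ζ q i ^ e i =
        ∏ i, ∑ j ∈ Finset.range (m i), ζ q i ^ j := fun q =>
      (Finset.prod_univ_sum (fun i => Finset.range (m i)) fun i j => ζ q i ^ j).symm
    simp only [← Finset.mul_sum, hp]
    rw [Finset.sum_eq_single ((1 : G) : G ⧸ H)]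
    · have h1 := (hH _).1 (show ((1 : G) : G ⧸ H).out ∈ H by
        simpa using QuotientGroup.eq.1 (QuotientGroup.out_eq' ((1 : G) : G ⧸ H)).symm)
      simp [hf _ h1, ζ, h1, hy0]
    · intro q _ hq
      obtain ⟨i, hi⟩ : ∃ i, q.out • y i ≠ y i := by
        by_contra hn
        push Not at hn
        exact hq (by rw [← q.out_eq]; exact QuotientGroup.eq.2 (by simpa using (hH _).2 hn))
      refine mul_eq_zero_of_right _ (Finset.prod_eq_zero (Finset.mem_univ i) ?_)
      have := geom_sum_mul (ζ q i) (m i)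
      rw [hζ, sub_self] at this
      exact (mul_eq_zero.1 this).resolve_right fun h =>
        hi (eq_of_div_eq_one (sub_eq_zero.1 h)).symm
    · simp
  have hcR : ∀ e ∈ Fintype.piFinset fun i => Finset.range (m i), c e ∈ R := fun e he => by
    have he' : ∀ i, e i < m i := by simpa using he
    have hfix : Fix G (c e) := fun g => by
      rw [Finset.smul_sum]
      exact Fintype.sum_equiv (MulAction.toPerm g) _ _ fun q => (ev_smul H _ _ g q).symm
    refine F.kr _ hfix fun W hW => ?_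
    have h1 : W.valuation (c e * ∏ i, y i ^ e i) ≤ 1 := by
      rw [W.valuation_le_one_iff, hc]
      refine sum_mem fun q _ => mul_mem (mem_cl.1 (F.smul_mem hz _) W hW) (prod_mem fun i _ =>
        pow_mem ((W.valuation_le_one_iff _).1 (val_root W (hm0 i) (by rw [hζ, map_one])).le) _)
    have h2 : ∀ j, (m j ≠ 1 → W.valuation (x j) = 1) → W.valuation (y j ^ e j) = 1 := fun j hj => by
      by_cases h : m j = 1
      · rw [show e j = 0 by have := he' j; omega, pow_zero, map_one]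
      · rw [map_pow, val_root W (hm0 j) (by rw [hy, hj h]), one_pow]
    rw [map_mul, map_prod] at h1
    rw [← W.valuation_le_one_iff]
    by_cases hA : ∀ j, m j ≠ 1 → W.valuation (x j) = 1
    · rwa [Finset.prod_eq_one fun j _ => h2 j (hA j), mul_one] at h1
    push Not at hA
    obtain ⟨i, i1, i2⟩ := hA
    have i3 := lt_of_le_of_ne ((W.valuation_le_one_iff _).2 (F.le W hW _ (hx i))) i2
    obtain ⟨k1, k2⟩ := hbd W hW i i1 i3
    rw [Finset.prod_eq_single i (fun j _ hj => h2 j (k2 j hj)) (by simp), map_pow] at h1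
    by_contra hn
    have hn' := not_le.1 hn
    have hpos : 0 < W.valuation (c e) := zero_lt_one.trans hn'
    have k3 := k1 (c e)⁻¹ (fun g => by rw [smul_inv'', hfix g])
      (by rw [map_inv₀]; exact inv_lt_one_of_one_lt₀ hn')
    rw [map_inv₀, inv_le_iff_one_le_mul₀' hpos, ← hy, map_pow] at k3
    have k4 : W.valuation (y i) < 1 := by
      rwa [← hy, map_pow, pow_lt_one_iff_of_nonneg zero_le (hm0 i)] at i3
    exact (k3.trans_lt (mul_lt_mul_of_pos_left (pow_lt_pow_right_of_lt_one₀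
      ((Valuation.pos_iff _).2 (hy0 i)) k4 (he' i)) hpos)).not_ge h1
  have hR : ∀ r ∈ R, r ∈ Subring.closure (R ∪ Set.range y) := fun r hr =>
    Subring.subset_closure (.inl hr)
  have hY : ∀ i, y i ∈ Subring.closure (R ∪ Set.range y) := fun i =>
    Subring.subset_closure (Or.inr ⟨i, rfl⟩)
  have h0 : z * ∏ i, (m i : L) ∈ Subring.closure (R ∪ Set.range y) :=
    hsum ▸ sum_mem fun e he => mul_mem (hR _ (hcR e he)) (prod_mem fun i _ => pow_mem (hY i) _)
  have := mul_mem h0 (prod_mem (t := Finset.univ) fun i _ => hR _ (hm i).2)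
  rwa [mul_assoc, ← Finset.prod_mul_distrib,
    Finset.prod_eq_one fun i _ => mul_inv_cancel₀ (hm i).1, mul_one] at this

/-- the Taylor expansion of a nonzero polynomial in the coordinates does not vanish at a point -/
lemma taylor_inj {k σ : Type} [Field k] [Algebra k L] (O : ValuationSubring L)
    (hk : ∀ c : k, algebraMap k L c ∈ O) {τ : L →+* MvPowerSeries σ L}
    (hc : ∀ c : k, τ (algebraMap k L c) = MvPowerSeries.C (algebraMap k L c)) {y : σ → L}
    (hyO : ∀ i, y i ∈ O) (hy : ∀ i, τ (y i) = MvPowerSeries.C (y i) + MvPowerSeries.X i)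
    (Q : MvPolynomial σ k)
    (h : ∀ α, O.valuation (MvPowerSeries.coeff α (τ (MvPolynomial.aeval y Q))) < 1) : Q = 0 := by
  let ι : k →+* O := (algebraMap k L).codRestrict O hk
  let sh : MvPolynomial σ k →+* MvPolynomial σ O := MvPolynomial.eval₂Hom (MvPolynomial.C.comp ι)
    fun i => MvPolynomial.C ⟨y i, hyO i⟩ + MvPolynomial.X i
  have e1 : τ.comp (MvPolynomial.aeval y : MvPolynomial σ k →ₐ[k] L).toRingHom =
      MvPolynomial.coeToMvPowerSeries.ringHom.comp ((MvPolynomial.map O.subtype).comp sh) :=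
    MvPolynomial.ringHom_ext (fun c => by simp [sh, ι, hc]) fun i => by simp [sh, hy]
  have e2 : (MvPolynomial.eval₂Hom MvPolynomial.C fun i =>
      MvPolynomial.X i - MvPolynomial.C (residue O ⟨y i, hyO i⟩)).comp
      ((MvPolynomial.map (residue O)).comp sh) = MvPolynomial.map ((residue O).comp ι) :=
    MvPolynomial.ringHom_ext (fun c => by simp [sh]) fun i => by simp [sh]
  have e3 : MvPolynomial.map (residue O) (sh Q) = 0 := MvPolynomial.ext _ _ fun α => by
    have := h α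
    rw [show τ (MvPolynomial.aeval y Q) = _ from RingHom.congr_fun e1 Q] at this
    rw [MvPolynomial.coeff_map, MvPolynomial.coeff_zero, res_eq_zero]
    simpa [MvPolynomial.coeff_map] using this
  refine MvPolynomial.map_injective _ ((residue O).comp ι).injective ?_
  rw [← e2, RingHom.comp_apply, RingHom.comp_apply, e3, map_zero, map_zero]

lemma val_unit (W : ValuationSubring L) {z : L} (h : z ∈ W) (h0 : z ≠ 0) (h1 : z⁻¹ ∈ W) :
    W.valuation z = 1 :=
  le_antisymm ((W.valuation_le_one_iff _).2 h) (by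
    simpa using (val_le_iff W 1 h0).2 (by rwa [one_div]))

section Main
open MvPowerSeries (constantCoeff)
variable {k σ : Type} [Field k] [Algebra k L]

/-- Taylor maps with prescribed values on the coordinates -/
lemma exists_tay [Finite σ] (R : Type) [CommRing R] [Algebra k R] (x : σ → R)
    (hsm : (MvPolynomial.aeval x : MvPolynomial σ k →ₐ[k] R).toRingHom.FormallySmooth)
    {B : Type} [CommRing B] (e : R →+* B) (F : σ → MvPowerSeries σ B)
    (hc : ∀ i, constantCoeff (F i) = e (x i)) :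
    ∃ τ : R →+* MvPowerSeries σ B, (∀ r, constantCoeff (τ r) = e r) ∧ (∀ i, τ (x i) = F i) ∧
      ∀ c : k, τ (algebraMap k R c) = MvPowerSeries.C (e (algebraMap k R c)) := by
  let _ := (MvPolynomial.aeval x : MvPolynomial σ k →ₐ[k] R).toRingHom.toAlgebra
  have : Algebra.FormallySmooth (MvPolynomial σ k) R := hsm
  let ψ : MvPolynomial σ k →+* MvPowerSeries σ B :=
    MvPolynomial.eval₂Hom (MvPowerSeries.C.comp (e.comp (algebraMap k R))) F
  have e1 : (constantCoeff : MvPowerSeries σ B →+* B).comp ψ =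
      e.comp (MvPolynomial.aeval x : MvPolynomial σ k →ₐ[k] R).toRingHom :=
    MvPolynomial.ringHom_ext (fun c => by simp [ψ]) fun i => by simp [ψ, hc]
  obtain ⟨τ, h1, h2⟩ := exists_lift ψ e fun p => RingHom.congr_fun e1 p
  refine ⟨τ, h2, fun i => ?_, fun c => ?_⟩
  · simpa [ψ, RingHom.algebraMap_toAlgebra] using h1 (MvPolynomial.X i)
  · simpa [ψ, RingHom.algebraMap_toAlgebra] using h1 (MvPolynomial.C c)

/-- the coordinates are nonzero and pairwise coprime -/
lemma coord [Finite σ] (R : Subalgebra k L) (x : σ → R)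
    (hsm : (MvPolynomial.aeval x : MvPolynomial σ k →ₐ[k] R).toRingHom.FormallySmooth) (i : σ) :
    (x i).1 ≠ 0 ∧ ∀ j, j ≠ i → (x j).1 / (x i).1 ∈ R → (x i).1⁻¹ ∈ R := by
  classical
  obtain ⟨τ, -, h, -⟩ := exists_tay R x hsm (RingHom.id R)
    (fun i => MvPowerSeries.C (x i) + MvPowerSeries.X i) (by simp)
  have hc : ∀ i j, MvPowerSeries.coeff (Finsupp.single j 1) (τ (x i)) = if j = i then 1 else 0 :=
    fun i j => by simp [h, MvPowerSeries.coeff_C, MvPowerSeries.coeff_index_single_X]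
  have h0 : (x i).1 ≠ 0 := fun e => by
    have := hc i i
    rw [show x i = 0 from Subtype.ext e] at this
    simp at this
  refine ⟨h0, fun j hj hr => ?_⟩
  have := hc j j
  rw [show x j = x i * ⟨_, hr⟩ from Subtype.ext (mul_div_cancel₀ _ h0).symm, map_mul, h, add_mul,
    map_add, MvPowerSeries.coeff_C_mul, MvPowerSeries.X_dvd_iff.1 (dvd_mul_right _ _) _
    (Finsupp.single_eq_of_ne hj.symm), add_zero, if_pos rfl] at this
  rw [inv_eq_of_mul_eq_one_right (congrArg Subtype.val this)]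
  exact Subtype.mem _

/-- TAME ABHYANKAR-JUNG -/
theorem aj [Infinite k] [Finite G] [FaithfulSMul G L] [Fintype σ]
    (R : Subalgebra k L) [IsNoetherianRing R] (hfix : ∀ r ∈ R, Fix G r)
    (hfr : ∀ z, Fix G z → ∃ u ∈ R, u ≠ 0 ∧ u * z ∈ R)
    (hn : ∀ z, Fix G z → IsIntegral R z → z ∈ R) (x : σ → R)
    (hsm : (MvPolynomial.aeval x : MvPolynomial σ k →ₐ[k] R).toRingHom.FormallySmooth)
    (halg : ∀ r ∈ R, IsAlgebraic (Algebra.adjoin k (Set.range fun i => (x i).1)) r)
    (m : σ → ℕ) (hm : ∀ i, (m i : k) ≠ 0) (y : σ → L) (hy : ∀ i, y i ^ m i = x i)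
    (hpr : ∀ i, m i ≠ 1 → ∀ a ∈ R, ∀ b ∈ R, a * b / x i ∈ R → a / x i ∈ R ∨ b / x i ∈ R)
    (hI : ∀ W, Dv G R.toSubring W → (∀ i, m i ≠ 1 → W.valuation (x i).1 = 1) →
      ∀ g : G, In W g → (∀ i, g • y i = y i) → g = 1)
    (hT : ∀ W, Dv G R.toSubring W → ∀ i, m i ≠ 1 → W.valuation (x i).1 < 1 →
      ∀ g : G, In W g → g ^ m i = 1)
    (O : ValuationSubring L) (hO : ∀ r ∈ R, r ∈ O) :
    (∀ g : G, (∀ s, IsIntegral R s → O.valuation (g • s - s) < 1) → (∀ i, g • y i = y i) → g = 1) ∧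
    ∃ (a : L) (f : L[X]), f.Monic ∧ (∀ i, f.coeff i ∈ R) ∧ f.eval a = 0 ∧
      O.valuation (f.derivative.eval a) = 1 ∧
      (∀ g : G, (∀ s, IsIntegral R s → O.valuation (g • s - s) < 1) → g • a = a) ∧
      ∃ u ∈ Subring.closure (insert a (R : Set L) ∪ Set.range y), O.valuation u = 1 ∧
        ∀ s, IsIntegral R s → u * s ∈ Subring.closure (insert a (R : Set L) ∪ Set.range y) := by
  classical
  have : IsNoetherianRing R.toSubring := ‹IsNoetherianRing R›
  have F := fam_dv (G := G) (R := R.toSubring) hfix hfr hn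
  set 𝒲 := {W | Dv G R.toSubring W}
  have hcl : ∀ s, s ∈ cl 𝒲 ↔ IsIntegral R s := fun s => F.mem_cl_iff
  have hm0 : ∀ i, m i ≠ 0 := fun i e => hm i (by simp [e])
  have hmL : ∀ i, (m i : L) ≠ 0 ∧ (m i : L)⁻¹ ∈ R.toSubring := fun i => by
    rw [← map_natCast (algebraMap k L), ← map_inv₀]
    exact ⟨(_root_.map_ne_zero _).2 (hm i), R.algebraMap_mem _⟩
  have hx0 : ∀ i, (x i).1 ≠ 0 := fun i => (coord R x hsm i).1
  have hy0 : ∀ i, y i ≠ 0 := fun i e => hx0 i (by rw [← hy, e, zero_pow (hm0 i)])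
  have hun : ∀ W ∈ 𝒲, ∀ z ∈ R, z ≠ 0 → z⁻¹ ∈ R → W.valuation z = 1 := fun W hW z h h0 h1 =>
    val_unit W (hW.le _ h) h0 (hW.le _ h1)
  have hyS : ∀ i, y i ∈ cl 𝒲 := fun i => (hcl _).2 (IsIntegral.of_pow (Nat.pos_of_ne_zero (hm0 i))
    (hy i ▸ isIntegral_algebraMap (x := x i)))
  let H : Subgroup G := ⨅ i, MulAction.stabilizer G (y i)
  have hH : ∀ g, g ∈ H ↔ ∀ i, g • y i = y i := fun g => Subgroup.mem_iInf
  let R' := Subring.closure (R.toSubring ∪ Set.range y : Set L)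
  have hRR : ∀ r ∈ R, r ∈ R' := fun r hr => Subring.subset_closure (Or.inl hr)
  have hyR : ∀ i, y i ∈ R' := fun i => Subring.subset_closure (Or.inr ⟨i, rfl⟩)
  have F' := F.sub H R' fun z => ⟨fun hz => (Subring.closure_le.2 (by
      rintro r (hr | ⟨i, rfl⟩)
      · exact ⟨F.le_cl hr, fun g => hfix r hr g.1⟩
      · exact ⟨hyS i, fun g => (hH _).1 g.2 i⟩) :
        R' ≤ cl 𝒲 ⊓ (FixedPoints.subfield H L).toSubring) hz |>.imp id fun h g hg => h ⟨g, hg⟩,
    fun hz => F.kummer (fun i => (x i).2) hx0 hy hmL (fun W hW i h1 h2 =>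
      ⟨fun z => Dv.le_of_lt hW hfix (x i).2 (hx0 i) h2 (hpr i h1), fun j hj _ => by
        refine le_antisymm ((W.valuation_le_one_iff _).2 (hW.le _ (x j).2)) (not_lt.1 fun h =>
          h2.ne (hun W hW _ (x i).2 (hx0 i) ((coord R x hsm i).2 j hj ?_)))
        exact Dv.div_mem hW hfix (x i).2 (hx0 i) h2 (hpr i h1) (x j).2
          (Dv.le_of_lt hW hfix (x i).2 (hx0 i) h2 (hpr i h1) (hfix _ (x j).2) h)⟩)
      hz.1 fun g hg => hz.2 g ((hH g).2 hg)⟩
  obtain ⟨τ1, t1, t2, t3⟩ := exists_tay R x hsm (R.val.toRingHom.codRestrict R' fun r => hRR _ r.2)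
    (fun i => (MvPowerSeries.C ⟨y i, hyR i⟩ + MvPowerSeries.X i) ^ m i)
    fun i => Subtype.ext (by simp [hy])
  have := formallySmooth (G := G) (R := R.toSubring) hfix hfr
  obtain ⟨τ, u1, u2⟩ := exists_lift (P := R.toSubring) (A := L)
    ((MvPowerSeries.map R'.subtype).comp τ1) (RingHom.id L) fun p =>
      (MvPowerSeries.constantCoeff_map R'.subtype (τ1 p)).trans (congrArg _ (t1 p))
  have u3 : ∀ r : R, τ r = MvPowerSeries.map R'.subtype (τ1 r) := u1
  have hτy : ∀ i, τ (y i) = MvPowerSeries.C (y i) + MvPowerSeries.X i := fun i => by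
    refine IsLocalRing.eq_of_eval_eq_zero_of_not_isUnit_sub (f := X ^ m i - C (τ (x i))) ?_ ?_ ?_ ?_
    · simp [← hy]
    · simp [u3, t2]
    · rw [MvPowerSeries.isUnit_iff_constantCoeff]; simp [u2]
    · simpa [derivative_X_pow] using
        (mul_ne_zero (hmL i).1 (pow_ne_zero (m i - 1) (hy0 i))).isUnit.map τ
  have hov : ∀ r ∈ R', τ r ∈ ov R' := (Subring.closure_le.2 (by
    rintro r (hr | ⟨i, rfl⟩)
    · exact ⟨_, (u3 ⟨r, hr⟩).symm⟩
    · exact ⟨MvPowerSeries.C ⟨y i, hyR i⟩ + MvPowerSeries.X i, by simp [hτy]⟩) : R' ≤ (ov R').comap τ)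
  have hO' : ∀ r ∈ R', r ∈ O := fun r hr => F.cl_le hO (F'.le_cl hr)
  have pur := F'.purity (k := k) (fun c => hRR _ (R.algebraMap_mem c))
    (tay_of F'.fix F'.frac u2 hov) hov (fun W hW g hg => Subtype.ext (by
      by_cases h : ∀ i, m i ≠ 1 → W.valuation (x i).1 = 1
      · exact hI W hW h g.1 hg ((hH _).1 g.2)
      push Not at h
      obtain ⟨i, h1, h2⟩ := h
      have h3 := lt_of_le_of_ne ((W.valuation_le_one_iff _).2 (hW.le _ (x i).2)) h2
      exact abhyankar (k := k) (fun c => ⟨hW.le _ (R.algebraMap_mem c), hfix _ (R.algebraMap_mem c)⟩)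
        (hfix _ (x i).2) (hx0 i) h3 (Dv.unif_of hW hfix (x i).2 (hx0 i) h3 (hpr i h1))
        (hun W hW _ (natCast_mem R _) (hmL i).1 (hmL i).2) (hy i) (hT W hW i h1 h3) hg
        ((hH _).1 g.2 i))) O hO' fun r hr h => by
      set A := Algebra.adjoin k (Set.range y)
      have hA : Algebra.adjoin k (Set.range fun i => (x i).1) ≤ A := Algebra.adjoin_le (by
        rintro _ ⟨i, rfl⟩
        exact (hy i ▸ pow_mem (Algebra.subset_adjoin (Set.mem_range_self i)) _ : (x i).1 ∈ A))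
      have h1 : IsAlgebraic A r := (Subring.closure_le.2 (by
        rintro r (hr | ⟨i, rfl⟩)
        · let _ := (Subalgebra.inclusion hA).toRingHom.toAlgebra
          have : IsScalarTower (Algebra.adjoin k (Set.range fun i => (x i).1)) A L :=
            .of_algebraMap_eq fun _ => rfl
          exact (halg r hr).extendScalars (Subalgebra.inclusion_injective hA)
        · exact isAlgebraic_algebraMap (⟨y i, Algebra.subset_adjoin ⟨i, rfl⟩⟩ : A)) :
          R' ≤ (Subalgebra.algebraicClosure A L).toSubring) hr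
      by_contra h0
      obtain ⟨t, ht, ⟨a, ha⟩, a0, e⟩ := h1.exists_nonzero_eq_adjoin_mul
        (mem_nonZeroDivisors_of_ne_zero h0)
      have hAR : ∀ z ∈ A, z ∈ R' := fun z hz => Algebra.adjoin_induction
        (fun _ ⟨i, e⟩ => e ▸ hyR i) (fun c => hRR _ (R.algebraMap_mem c))
        (fun _ _ _ _ => add_mem) (fun _ _ _ _ => mul_mem) hz
      have ht' : t ∈ R' := Algebra.adjoin_induction (fun _ e => e ▸ hr) (fun c => hAR _ c.2)
        (fun _ _ _ _ => add_mem) (fun _ _ _ _ => mul_mem) ht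
      obtain ⟨Q, rfl⟩ := (Algebra.adjoin_range_eq_range_aeval k y).le ha
      have := taylor_inj O (fun c => hO _ (R.algebraMap_mem c)) (τ := τ) (fun c => by
        rw [show τ (algebraMap k L c) = _ from u3 (algebraMap k R c), t3]; simp)
        (fun i => hO' _ (hyR i)) hτy Q fun α => by
          rw [show MvPolynomial.aeval y Q = r * t from e.symm, map_mul, MvPowerSeries.coeff_mul]
          refine O.valuation.map_sum_lt one_ne_zero fun p _ => ?_
          rw [map_mul]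
          exact mul_lt_one_of_nonneg_of_lt_one_left zero_le (h _)
            ((O.valuation_le_one_iff _).2 (hO' _ (mem_ov.1 (hov t ht') _)))
      exact a0 (Subtype.ext (by simp [this]))
  refine ⟨fun g h1 h2 => congrArg Subtype.val (pur ⟨g, (hH g).2 h2⟩ fun s hs => h1 s ((hcl s).1 hs)),
    ?_⟩
  obtain ⟨a, a1, a2, a3⟩ := exists_etale (k := k) (cl 𝒲) (fun g z hz => F.smul_mem hz g) O
    (fun z => F.cl_le hO) fun c => ⟨F.le_cl (R.algebraMap_mem c), hfix _ (R.algebraMap_mem c)⟩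
  obtain ⟨f, f1, f2, f3, f4, f5, -⟩ := lag _ a a2
  obtain ⟨f', -, -, g3, g4, g5, g6⟩ := lag (⊥ : Subgroup H) a (by simp)
  have hev : ∀ p : L[X], Cf R' p →
      p.eval a ∈ Subring.closure (insert a (R : Set L) ∪ Set.range y) := fun p hp =>
    Cf.eval (fun i => Subring.closure_mono (Set.union_subset_union_left _ (Set.subset_insert _ _))
      (hp i)) (Subring.subset_closure (Or.inl (Set.mem_insert _ _)))
  refine ⟨a, f, f1, F.cf f3 (f4 _ (F.smul_mem a1)), f2, f5 (MonoidHom.mker O.valuation) a3,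
    fun g hg => a2 g fun s hs => hg s ((hcl s).1 hs), _,
    hev _ (F'.cf g3 (g4 _ (F'.smul_mem a1))).derivative,
    g5 (MonoidHom.mker O.valuation) fun g hg => a3 g.1 fun h => hg (pur g h), fun s hs => ?_⟩
  obtain ⟨p, p1, p2, p3⟩ := g6 s (by simp)
  rw [mul_comm, ← p2]
  exact hev _ (F'.cf p1 (p3 _ (F'.smul_mem a1) (F'.smul_mem ((hcl s).2 hs))))

end Main

end Pool.Agent.MP_19ffc6_ag.Res

end MrgPart0

-- ======== part 1: formerly Pool.Agent.MP_19ffc6_ag.Res.AJ2
section MrgPart1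

/-! # The tame Abhyankar-Jung theorem at points of the normalisation -/

set_option autoImplicit false

namespace Pool.Agent.MP_19ffc6_ag.Res

open Pool.Agent.MP_19ffc6_ag.Wild Pool.Agent.MP_19ffc6_ag.Lci Polynomial IsLocalRing

variable {k L : Type} [Field k] [Field L] [Algebra k L] {G : Type} [Group G] [MulSemiringAction G L]

lemma X_dvd_mul {σ κ : Type} [Field κ] (i : σ) {f g : MvPowerSeries σ κ}
    (h : MvPowerSeries.X i ∣ f * g) : MvPowerSeries.X i ∣ f ∨ MvPowerSeries.X i ∣ g := by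
  classical
  have e : ∀ f : MvPowerSeries σ κ, MvPowerSeries.X i ∣ f ↔ f.weightedOrder (Pi.single i 1) ≠ 0 :=
    fun f => by
      rw [MvPowerSeries.X_dvd_iff, ← Order.one_le_iff_ne_zero]
      refine ⟨fun h => MvPowerSeries.nat_le_weightedOrder _ fun d hd => h d ?_, fun h d hd =>
        MvPowerSeries.coeff_eq_zero_of_lt_weightedOrder _ (lt_of_lt_of_le ?_ h)⟩
      · simpa [Finsupp.weight_single_one_apply] using hd
      · simp [Finsupp.weight_single_one_apply, hd]
  rwa [e, MvPowerSeries.weightedOrder_mul, Ne, add_eq_zero, not_and_or, ← Ne, ← Ne, ← e, ← e] at h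

/-- the parameters of a rational smooth point are prime -/
theorem prime_param {σ : Type} [Finite σ] (R : Type) [CommRing R] [Algebra k R] [IsNoetherianRing R]
    [IsLocalRing R]    (x : σ → R) (hsm : (MvPolynomial.aeval x : MvPolynomial σ k →ₐ[k] R).toRingHom.FormallySmooth)
    (hx : ∀ i, ¬ IsUnit (x i))
    (hrat : ∀ r : R, ∃ c : k, r - algebraMap k R c ∈ Ideal.span (Set.range x)) (i : σ) {a b : R}
    (h : x i ∣ a * b) : x i ∣ a ∨ x i ∣ b := by
  classical
  let _ := Fintype.ofFinite σ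
  set J := Ideal.span (Set.range x)
  have hJ : J ≤ maximalIdeal R := Ideal.span_le.2 (by rintro _ ⟨i, rfl⟩; exact hx i)
  obtain ⟨τ, t1, t2, t3⟩ := exists_tay R x hsm (residue R) MvPowerSeries.X fun i => by
    rw [MvPowerSeries.constantCoeff_X, eq_comm, residue_eq_zero_iff]; exact hx i
  have hA : ∀ (N : ℕ) (r : R), ∃ P : MvPolynomial σ k, r - MvPolynomial.aeval x P ∈ J ^ N := by
    intro N
    induction N with
    | zero => exact fun r => ⟨0, by simp⟩
    | succ N ih =>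
      intro r
      obtain ⟨c, hc⟩ := hrat r
      obtain ⟨b, hb⟩ := Ideal.mem_span_range_iff_exists_fun.1 hc
      choose P hP using ih
      refine ⟨MvPolynomial.C c + ∑ j, P (b j) * MvPolynomial.X j, ?_⟩
      simp only [map_add, map_sum, map_mul, MvPolynomial.aeval_C, MvPolynomial.aeval_X]
      rw [← sub_sub, ← hb, ← Finset.sum_sub_distrib, pow_succ]
      exact sum_mem fun j _ => by
        rw [← sub_mul]; exact Ideal.mul_mem_mul (hP _) (Ideal.subset_span ⟨j, rfl⟩)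
  have hB : ∀ (N : ℕ), ∀ z ∈ J ^ N, (N : ℕ∞) ≤ (τ z).order := by
    intro N
    induction N with
    | zero => simp
    | succ N ih =>
      intro z hz
      rw [pow_succ] at hz
      refine Submodule.mul_induction_on hz (fun u hu w hw => ?_) fun u w hu hw => ?_
      · rw [map_mul, Nat.cast_succ]
        refine (add_le_add (ih u hu) (MvPowerSeries.one_le_order_iff_constCoeff_eq_zero.2 ?_)).trans
          MvPowerSeries.le_order_mul
        rw [t1, residue_eq_zero_iff]; exact hJ hw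
      · rw [map_add]; exact (le_min hu hw).trans MvPowerSeries.min_order_le_add
  have e1 : τ.comp (MvPolynomial.aeval x : MvPolynomial σ k →ₐ[k] R).toRingHom =
      MvPolynomial.coeToMvPowerSeries.ringHom.comp
        (MvPolynomial.map ((residue R).comp (algebraMap k R))) :=
    MvPolynomial.ringHom_ext (fun c => by simp [t3]) fun i => by simp [t2]
  have key : ∀ r, MvPowerSeries.X i ∣ τ r → x i ∣ r := fun r hr => by
    rw [← Ideal.mem_span_singleton, ← Ideal.Quotient.eq_zero_iff_mem, ← Submodule.mem_bot (R := R),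
      ← J.iInf_pow_smul_eq_bot_of_isLocalRing (M := R ⧸ Ideal.span {x i})
        (ne_top_of_le_ne_top (maximalIdeal.isMaximal R).ne_top hJ), Submodule.mem_iInf]
    intro N
    obtain ⟨P, hP⟩ := hA N r
    have h1 : MvPolynomial.aeval x P ∈ Ideal.span {x i} ⊔ J ^ N := by
      rw [P.as_sum, map_sum]
      refine sum_mem fun α hα => ?_
      by_cases h : α i = 0
      · refine Ideal.mem_sup_right ?_
        have h2 : MvPolynomial.monomial α (P.coeff α) ∈ MvPolynomial.idealOfVars σ k ^ N := by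
          refine (MvPolynomial.mem_pow_idealOfVars_iff' ..).2 fun β hβ => ?_
          rw [MvPolynomial.coeff_monomial]
          split_ifs with e
          · subst e
            have h3 := MvPowerSeries.coeff_of_lt_order
              (lt_of_lt_of_le (Nat.cast_lt.2 hβ) (hB N _ hP))
            rw [map_sub, map_sub, MvPowerSeries.X_dvd_iff.1 hr α h,
              show τ (MvPolynomial.aeval x P) = _ from RingHom.congr_fun e1 P] at h3
            simpa [MvPolynomial.coeff_map] using h3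
          · rfl
        have := Ideal.mem_map_of_mem (MvPolynomial.aeval x : MvPolynomial σ k →ₐ[k] R) h2
        rwa [Ideal.map_pow, MvPolynomial.idealOfVars, Ideal.map_span, ← Set.range_comp,
          show _ ∘ _ = x from funext fun j => MvPolynomial.aeval_X x j] at this
      · refine Ideal.mem_sup_left (Ideal.mem_span_singleton.2 ?_)
        simpa using map_dvd (MvPolynomial.aeval x) (MvPolynomial.X_dvd_monomial.2 (Or.inr h) :
          MvPolynomial.X i ∣ MvPolynomial.monomial α (P.coeff α))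
    obtain ⟨u, hu, w, hw, e⟩ := Submodule.mem_sup.1 (add_mem (Ideal.mem_sup_right hP) h1)
    rw [sub_add_cancel] at e
    rw [← e, map_add, Ideal.Quotient.eq_zero_iff_mem.2 hu, zero_add, ← mul_one w]
    exact Submodule.smul_mem_smul hw (Submodule.mem_top (x := Ideal.Quotient.mk _ 1))
  exact (X_dvd_mul i (by rw [← map_mul, ← t2]; exact map_dvd τ h)).imp (key a) (key b)

lemma mem_range_of_root [IsAlgClosed k] {Q : Type} [CommRing Q] [IsLocalRing Q] [Algebra k Q]
    {f : k[X]} {a : Q} (h0 : aeval a f = 0) (h1 : IsUnit (aeval a f.derivative)) :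
    a ∈ (algebraMap k Q).range := by
  have hf : f ≠ 0 := by rintro rfl; simp at h1
  obtain ⟨r, hr, h2⟩ : ∃ r ∈ f.roots, ¬ IsUnit (a - algebraMap k Q r) := by
    by_contra hn
    push Not at hn
    refine not_isUnit_zero (h0 ▸ ?_ : IsUnit (0 : Q))
    rw [(IsAlgClosed.splits f).eq_prod_roots, map_mul, map_multiset_prod, aeval_C]
    refine ((leadingCoeff_ne_zero.2 hf).isUnit.map _).mul
      (Multiset.prod_induction _ _ (fun _ _ => IsUnit.mul) isUnit_one ?_)
    intro z hz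
    obtain ⟨_, hw, rfl⟩ := Multiset.mem_map.1 hz
    obtain ⟨r, hr, rfl⟩ := Multiset.mem_map.1 hw
    simpa using hn r hr
  refine ⟨r, (IsLocalRing.eq_of_eval_eq_zero_of_not_isUnit_sub (f := f.map (algebraMap k Q)) ?_ ?_ h2
    ?_).symm⟩
  · rwa [eval_map_algebraMap]
  · rw [← hom_eval, (isRoot_of_mem_roots hr).eq_zero, map_zero]
  · rwa [derivative_map, eval_map_algebraMap]

/-- extension of a valuation ring from a subfield -/
lemma exists_ext (K : IntermediateField k L) (W : ValuationSubring K) :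
    ∃ B : ValuationSubring L, ∀ z : K, z.1 ∈ B ↔ z ∈ W := by
  obtain ⟨B, h1, h2⟩ := (W.toLocalSubring.map (algebraMap K L)).exists_le_valuationSubring
  refine ⟨B, fun z => ⟨fun hz => ?_, fun hz => h1 ⟨z, hz, rfl⟩⟩⟩
  by_contra hn
  have h0 : z.1 ≠ 0 := fun e => hn ((Subtype.ext e : z = 0) ▸ W.zero_mem)
  obtain ⟨⟨_, w, hw, rfl⟩, e⟩ := (h2.1 ⟨_, z⁻¹, (W.mem_or_inv_mem z).resolve_left hn, rfl⟩
    (IsUnit.of_mul_eq_one ⟨z.1, hz⟩ (Subtype.ext (inv_mul_cancel₀ h0)))).exists_right_inv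
  have : z⁻¹ * w = 1 := (algebraMap K L).injective (by simpa using congrArg Subtype.val e)
  exact hn (by rwa [← inv_inv z, inv_eq_of_mul_eq_one_right this])

lemma un_iff {K : IntermediateField k L} {W : ValuationSubring K} {V : Subalgebra k L}
    (h : ∀ z : K, z.1 ∈ V ↔ z ∈ W) (z : K) : Un V z.1 ↔ W.valuation z = 1 :=
  ⟨fun e => val_unit W ((h _).1 e.1) (fun e0 => e.2.1 (congrArg Subtype.val e0)) ((h z⁻¹).1 e.2.2),
    fun e => ⟨(h _).2 ((W.valuation_le_one_iff _).1 e.le),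
      fun e0 => ne_zero_of_val W e (Subtype.ext e0), (h z⁻¹).2 (inv_mem_of_val W e)⟩⟩

/-- the action on a stable subfield -/
@[reducible] def fldAct (K : IntermediateField k L) (hK : ∀ g : G, ∀ z ∈ K, g • z ∈ K) :
    MulSemiringAction G K where
  smul g z := ⟨g • z.1, hK g _ z.2⟩
  one_smul _ := Subtype.ext (one_smul _ _)
  mul_smul _ _ _ := Subtype.ext (mul_smul _ _ _)
  smul_zero _ := Subtype.ext (smul_zero _)
  smul_add _ _ _ := Subtype.ext (smul_add _ _ _)
  smul_one _ := Subtype.ext (smul_one _)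
  smul_mul _ _ _ := Subtype.ext (smul_mul' _ _ _)

variable (G) in
/-- `V` is a valuation ring of the ambient field whose trace on `Frac R` is the discrete valuation
ring of a prime divisor of `R`. -/
structure Cod1 (K : IntermediateField k L) (R V : Subalgebra k L) : Prop where
  val : Val V
  le : R ≤ V
  le_loc : ∀ z ∈ V, z ∈ K → (∀ g : G, g • z = z) → z ∈ loc R V
  unif : ∃ π ∈ R, π ≠ 0 ∧ ¬ Un V π ∧ ∀ r ∈ R, r ≠ 0 → ∃ n : ℕ, Un V (r / π ^ n)

/-- `g` lies in the inertia group of `V ∩ K`. -/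
def Ine (K : IntermediateField k L) (V : Subalgebra k L) (g : G) : Prop :=
  ∀ z ∈ V, z ∈ K → g • z - z ∈ V ∧ ¬ Un V (g • z - z)

/-- formal smoothness over the polynomial ring in the coordinates -/
lemma sf_aeval {σ : Type} {R : Subalgebra k L} {x : σ → L} (hind : AlgebraicIndependent k x)
    (hsf : SF (Algebra.adjoin k (Set.range x)) R) (hx : ∀ i, x i ∈ R) :
    (MvPolynomial.aeval fun i => (⟨x i, hx i⟩ : R) :
      MvPolynomial σ k →ₐ[k] R).toRingHom.FormallySmooth := by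
  obtain ⟨h, h1, -⟩ := hsf
  have : (MvPolynomial.aeval fun i => (⟨x i, hx i⟩ : R)) =
      (Subalgebra.inclusion h).comp hind.aevalEquiv.toAlgHom :=
    MvPolynomial.algHom_ext fun i => Subtype.ext (by simp)
  rw [this]
  exact (RingHom.FormallySmooth.of_bijective (f := hind.aevalEquiv.toAlgHom.toRingHom)
    hind.aevalEquiv.bijective).comp h1

/-- the parameters of a rational smooth point are prime -/
theorem prime_par {σ : Type} [Finite σ] {R : Subalgebra k L} [IsNoetherianRing R] (hR : Lcl R)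
    {x : σ → L} (hind : AlgebraicIndependent k x) (hsf : SF (Algebra.adjoin k (Set.range x)) R)
    (hx : ∀ i, ¬ Un R (x i))
    (hrat : ∀ r ∈ R, ∃ c : k, r - algebraMap k L c ∈ Submodule.span R (Set.range x)) (i : σ) :
    ∀ a ∈ R, ∀ b ∈ R, a * b / x i ∈ R → a / x i ∈ R ∨ b / x i ∈ R := by
  have hxR : ∀ i, x i ∈ R := fun i => hsf.le (Algebra.subset_adjoin ⟨i, rfl⟩)
  have := hR.isLocalRing
  have h0 : x i ≠ 0 := hind.ne_zero i
  have hd : ∀ a : R, (⟨x i, hxR i⟩ : R) ∣ a ↔ a.1 / x i ∈ R := fun a =>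
    ⟨fun ⟨c, e⟩ => by rw [e]; simp [h0], fun h => ⟨⟨_, h⟩, Subtype.ext (mul_div_cancel₀ _ h0).symm⟩⟩
  intro a ha b hb h
  refine (prime_param R _ (sf_aeval hind hsf hxR) (fun i h => hx i ((isUnit_iff_un _).1 h))
    (fun r => ?_) i (a := ⟨a, ha⟩) (b := ⟨b, hb⟩) ((hd _).2 h)).imp (hd _).1 (hd _).1
  obtain ⟨c, hc⟩ := hrat r r.2
  refine ⟨c, ?_⟩
  rw [← Submodule.comap_map_eq_of_injective (f := Algebra.linearMap R L) Subtype.val_injective
    (Ideal.span _), Ideal.span, Submodule.map_span, ← Set.range_comp]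
  exact hc

/-- the valuation form transported to an ambient field -/
theorem aj_amb [Infinite k] [Finite G] {σ : Type} [Fintype σ] (K : IntermediateField k L)
    (hK : ∀ g : G, ∀ z ∈ K, g • z ∈ K) (hfa : ∀ g : G, (∀ z ∈ K, g • z = z) → g = 1)
    (R : Subalgebra k L) [IsNoetherianRing R] (hRK : R ≤ K.toSubalgebra)
    (hfix : ∀ r ∈ R, ∀ g : G, g • r = r)
    (hfr : ∀ z ∈ K, (∀ g : G, g • z = z) → ∃ u ∈ R, u ≠ 0 ∧ u * z ∈ R)
    (hn : ∀ z ∈ K, (∀ g : G, g • z = z) → IsIntegral R z → z ∈ R)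
    (x : σ → L) (hind : AlgebraicIndependent k x) (hsf : SF (Algebra.adjoin k (Set.range x)) R)
    (halg : ∀ r ∈ R, IsAlgebraic (Algebra.adjoin k (Set.range x)) r)
    (m : σ → ℕ) (hm : ∀ i, (m i : k) ≠ 0) (y : σ → L) (hy : ∀ i, y i ∈ K ∧ y i ^ m i = x i)
    (hpr : ∀ i, m i ≠ 1 → ∀ a ∈ R, ∀ b ∈ R, a * b / x i ∈ R → a / x i ∈ R ∨ b / x i ∈ R)
    (hI : ∀ V, Cod1 G K R V → (∀ i, m i ≠ 1 → Un V (x i)) →
      ∀ g : G, Ine K V g → (∀ i, g • y i = y i) → g = 1)
    (hT : ∀ V, Cod1 G K R V → ∀ i, m i ≠ 1 → ¬ Un V (x i) → ∀ g : G, Ine K V g → g ^ m i = 1)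
    (V : Subalgebra k L) (hV : Val V) (hRV : R ≤ V) :
    (∀ g : G, (∀ s ∈ icl K R, ¬ Un V (g • s - s)) → (∀ i, g • y i = y i) → g = 1) ∧
    ∃ a ∈ icl K R, ∃ f : L[X], f.Monic ∧ (∀ i, f.coeff i ∈ R) ∧ f.eval a = 0 ∧
      Un V (f.derivative.eval a) ∧ (∀ g : G, (∀ s ∈ icl K R, ¬ Un V (g • s - s)) → g • a = a) ∧
      ∃ u, Un V u ∧ ∀ Z : Subring L, a ∈ Z → (∀ r ∈ R, r ∈ Z) → (∀ i, y i ∈ Z) →
        u ∈ Z ∧ ∀ s ∈ icl K R, u * s ∈ Z := by
  let _ := fldAct K hK
  have hs : ∀ (g : G) (z : K), (g • z).1 = g • z.1 := fun _ _ => rfl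
  have : FaithfulSMul G K := ⟨fun {a b} h => by
    rw [← mul_inv_eq_one]
    refine hfa _ fun z hz => ?_
    have := congrArg Subtype.val (h (b⁻¹ • ⟨z, hz⟩))
    rwa [smul_inv_smul, hs, hs, ← mul_smul] at this⟩
  have hF : ∀ z : K, Fix G z ↔ ∀ g : G, g • z.1 = z.1 := fun z =>
    forall_congr' fun g => Subtype.ext_iff
  let R' := R.comap K.val
  let e : R' ≃ₐ[k] R := .ofBijective ((K.val.comp R'.val).codRestrict R fun r => r.2)
    ⟨fun a b h => Subtype.ext (Subtype.ext (congrArg (Subtype.val : R → L) h)),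
      fun r => ⟨⟨⟨r.1, hRK r.2⟩, r.2⟩, rfl⟩⟩
  have : IsNoetherianRing R' := isNoetherianRing_of_ringEquiv R e.symm.toRingEquiv
  have hint : ∀ z : K, IsIntegral R' z ↔ IsIntegral R z.1 := fun z =>
    ⟨fun h => h.map_of_comp_eq e.toAlgHom.toRingHom (algebraMap K L) rfl, fun h =>
      (isIntegral_algebraMap_iff (algebraMap K L).injective).1
        (h.map_of_comp_eq e.symm.toAlgHom.toRingHom (RingHom.id L) (RingHom.ext fun r =>
          congrArg Subtype.val (e.apply_symm_apply r)))⟩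
  have hxR : ∀ i, x i ∈ R := fun i => hsf.le (Algebra.subset_adjoin ⟨i, rfl⟩)
  let x' : σ → R' := fun i => ⟨⟨x i, hRK (hxR i)⟩, hxR i⟩
  have hcod : ∀ W, Dv G R'.toSubring W → ∃ V, Cod1 G K R V ∧ (∀ z : K, z.1 ∈ V ↔ z ∈ W) ∧
      ∀ g : G, In W g → Ine K V g := fun W hW => by
    obtain ⟨B, hB⟩ := exists_ext K W
    let V := ofVs B fun c => (hB (algebraMap k K c)).2 (hW.le _ (R'.algebraMap_mem c))
    have hB' : ∀ z : K, z.1 ∈ V ↔ z ∈ W := hB
    refine ⟨V, ⟨val_ofVs _ _, fun r hr => (hB ⟨r, hRK hr⟩).2 (hW.le _ hr), fun z hz h1 h2 => ?_, ?_⟩,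
      hB, fun g hg z hz h1 => ?_⟩
    · obtain ⟨u, u1, u2, u3⟩ := hW.loc ⟨z, h1⟩ ((hB _).1 hz) ((hF _).2 h2)
      have := (un_iff hB' u).2 u2
      exact ⟨_, u3, _, u1, this, (mul_div_cancel_left₀ z this.2.1).symm⟩
    · obtain ⟨π, p1, p2, p3, p4⟩ := hW.unif
      refine ⟨π.1, p1, fun e => p2 (Subtype.ext e), fun h => p3.ne ((un_iff hB' π).1 h),
        fun r hr h0 => ?_⟩
      obtain ⟨n, hn⟩ := p4 ⟨r, hRK hr⟩ hr fun e => h0 (congrArg Subtype.val e)
      exact ⟨n, (un_iff hB' (⟨r, hRK hr⟩ / π ^ n)).2 (by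
        rw [map_div₀, map_pow, hn, div_self (pow_ne_zero _ ((Valuation.ne_zero_iff _).2 p2))])⟩
    · have := hg ⟨z, h1⟩ ((hB _).1 hz)
      exact ⟨(hB _).2 ((W.valuation_le_one_iff _).1 this.le), fun h =>
        this.ne ((un_iff hB' _).1 h)⟩
  let W := hV.vs.comap (algebraMap K L)
  have hW : ∀ z : K, z.1 ∈ V ↔ z ∈ W := fun _ => Iff.rfl
  obtain ⟨k1, a, f, f1, f2, f3, f4, f5, u, u1, u2, u3⟩ := aj (G := G) R'
    (fun r hr => (hF r).2 (hfix _ hr))
    (fun z hz => by
      obtain ⟨u, u1, u2, u3⟩ := hfr z.1 z.2 ((hF z).1 hz)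
      exact ⟨⟨u, hRK u1⟩, u1, fun e => u2 (congrArg Subtype.val e), u3⟩)
    (fun z hz h => hn z.1 z.2 ((hF z).1 hz) ((hint z).1 h)) x'
    (by
      have : MvPolynomial.aeval x' = e.symm.toAlgHom.comp
          (MvPolynomial.aeval fun i => (⟨x i, hxR i⟩ : R)) :=
        MvPolynomial.algHom_ext fun i => by
          rw [AlgHom.comp_apply, MvPolynomial.aeval_X, MvPolynomial.aeval_X]
          exact (e.symm_apply_apply (x' i)).symm
      rw [this]
      exact (sf_aeval hind hsf hxR).comp (RingHom.FormallySmooth.of_bijective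
        (f := e.symm.toAlgHom.toRingHom) e.symm.bijective))
    (fun r hr => by
      set A := Algebra.adjoin k (Set.range fun i => (x' i).1)
      have hA : A.map K.val = Algebra.adjoin k (Set.range x) := by
        rw [AlgHom.map_adjoin, ← Set.range_comp]; rfl
      refine (isAlgebraic_algebraMap_iff (algebraMap K L).injective).1 ?_
      have h1 : IsAlgebraic (A.map K.val) r.1 := hA ▸ halg r.1 hr
      exact (IsAlgebraic.ringHom_of_comp_eq
        ((A.equivMapOfInjective K.val K.val.injective).symm.toAlgHom.toRingHom) (RingHom.id L) h1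
        (A.equivMapOfInjective K.val K.val.injective).symm.injective (RingHom.ext fun r =>
          congrArg Subtype.val ((A.equivMapOfInjective K.val K.val.injective).apply_symm_apply r))))
    m hm (fun i => ⟨y i, (hy i).1⟩) (fun i => Subtype.ext (hy i).2)
    (fun i hi a ha b hb h => hpr i hi a.1 ha b.1 hb h)
    (fun W hW h g hg h1 => by
      obtain ⟨V, v1, v2, v3⟩ := hcod W hW
      exact hI V v1 (fun i hi => (un_iff v2 (x' i).1).2 (h i hi)) g (v3 g hg)
        fun i => congrArg Subtype.val (h1 i))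
    (fun W hW i hi h g hg => by
      obtain ⟨V, v1, v2, v3⟩ := hcod W hW
      exact hT V v1 i hi (fun e => h.ne ((un_iff v2 (x' i).1).1 e)) g (v3 g hg))
    W fun r hr => hRV hr
  have hin : ∀ g : G, (∀ s ∈ icl K R, ¬ Un V (g • s - s)) →
      ∀ s : K, IsIntegral R' s → W.valuation (g • s - s) < 1 := fun g h s h1 => by
    have h2 : IsIntegral R (g • s.1) :=
      ((hint s).1 h1).map_of_comp_eq (RingHom.id R) (MulSemiringAction.toRingHom G L g)
        (RingHom.ext fun r => (hfix _ r.2 g).symm)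
    exact lt_of_le_of_ne ((W.valuation_le_one_iff _).2 (sub_mem (hV.mem_of_isIntegral hRV h2)
      (hV.mem_of_isIntegral hRV ((hint s).1 h1)) : (g • s - s).1 ∈ V))
      fun e => h s.1 ⟨s.2, (hint s).1 h1⟩ ((un_iff hW (g • s - s)).2 e)
  refine ⟨fun g h1 h2 => k1 g (hin g h1) fun i => Subtype.ext (h2 i), a.1,
    ⟨a.2, (hint a).1 (isIntegral_of_cf (R := R'.toSubring) f1 f2 f3)⟩, f.map (algebraMap K L),
    f1.map _, fun i => by rw [coeff_map]; exact f2 i, ?_, ?_,
    fun g h => congrArg Subtype.val (f5 g (hin g h)), u.1, (un_iff hW u).2 u2, fun Z z1 z2 z3 => ?_⟩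
  · exact (hom_eval (algebraMap K L) f a).symm.trans (by rw [f3, map_zero])
  · rw [derivative_map]
    exact hom_eval (algebraMap K L) f.derivative a ▸ (un_iff hW _).2 f4
  have hZ : Subring.closure (insert a (R' : Set K) ∪ Set.range fun i => ⟨y i, (hy i).1⟩) ≤
      Z.comap (algebraMap K L) := Subring.closure_le.2 (by
    rintro r ((rfl | hr) | ⟨i, rfl⟩)
    exacts [z1, z2 _ hr, z3 i])
  exact ⟨hZ u1, fun s hs => hZ (u3 ⟨s, hs.1⟩ ((hint _).2 hs.2))⟩

/-- TAME ABHYANKAR-JUNG at rational points; `K` is a `G`-stable subfield of the ambient field,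
Galois over `Frac R` with group `G`. -/
theorem aj_pt [IsAlgClosed k] [Finite G] {σ : Type} [Fintype σ] (K : IntermediateField k L)
    (hK : ∀ g : G, ∀ z ∈ K, g • z ∈ K) (hfa : ∀ g : G, (∀ z ∈ K, g • z = z) → g = 1)
    (R : Subalgebra k L) [IsNoetherianRing R] (hRK : R ≤ K.toSubalgebra)
    (hfix : ∀ r ∈ R, ∀ g : G, g • r = r)
    (hfr : ∀ z ∈ K, (∀ g : G, g • z = z) → ∃ u ∈ R, u ≠ 0 ∧ u * z ∈ R)
    (hn : ∀ z ∈ K, (∀ g : G, g • z = z) → IsIntegral R z → z ∈ R)
    (x : σ → L) (hind : AlgebraicIndependent k x) (hsf : SF (Algebra.adjoin k (Set.range x)) R)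
    (halg : ∀ r ∈ R, IsAlgebraic (Algebra.adjoin k (Set.range x)) r)
    (hx : ∀ i, ¬ Un R (x i))
    (hrat : ∀ r ∈ R, ∃ c : k, r - algebraMap k L c ∈ Submodule.span R (Set.range x))
    (m : σ → ℕ) (hm : ∀ i, (m i : k) ≠ 0) (y : σ → L) (hy : ∀ i, y i ∈ K ∧ y i ^ m i = x i)
    (hI : ∀ V, Cod1 G K R V → (∀ i, m i ≠ 1 → Un V (x i)) →
      ∀ g : G, Ine K V g → (∀ i, g • y i = y i) → g = 1)
    (hT : ∀ V, Cod1 G K R V → ∀ i, m i ≠ 1 → ¬ Un V (x i) → ∀ g : G, Ine K V g → g ^ m i = 1)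
    (O : Subalgebra k L) (hO : IsPoint (icl K R) O) (hd : Dom R O) :
    (∀ i, y i ∈ O ∧ ¬ Un O (y i)) ∧
    (∀ z ∈ O, ∃ c : k, z - algebraMap k L c ∈ Submodule.span O (Set.range y)) ∧
    (∀ (g : G) i, ∃ c : k, c ^ m i = 1 ∧ g • y i = c • y i) ∧
    (∀ g : G, (∀ z ∈ O, g • z ∈ O) → (∀ i, g • y i = y i) → g = 1) ∧
    ∀ H : Subgroup G, (∀ g ∈ H, ∀ z ∈ O, g • z ∈ O) → (Nat.card H : k) ≠ 0 := by
  have hR : Lcl R := fun a ha b hb h =>
    (hO.lcl a (hd.1 ha) b (hd.1 hb) (h.mono hd.1)).imp (hd.2 a ha) (hd.2 b hb)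
  have hxR : ∀ i, x i ∈ R := fun i => hsf.le (Algebra.subset_adjoin ⟨i, rfl⟩)
  have hm0 : ∀ i, m i ≠ 0 := fun i e => hm i (by simp [e])
  have hy0 : ∀ i, y i ≠ 0 := fun i e => hind.ne_zero i (by rw [← (hy i).2, e, zero_pow (hm0 i)])
  obtain ⟨V, hV, hdV⟩ := exists_val_dom hO.lcl
  obtain ⟨k1, a, a1, f, f1, f2, f3, f4, -, u, u1, u2⟩ := aj_amb K hK hfa R hRK hfix hfr hn x hind hsf
    halg m hm y hy (fun i _ => prime_par hR hind hsf hx hrat i) hI hT V hV (hd.1.trans hdV.1)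
  have c1 : ∀ i, y i ∈ O ∧ ¬ Un O (y i) := fun i =>
    ⟨hO.le ⟨(hy i).1, IsIntegral.of_pow (Nat.pos_of_ne_zero (hm0 i))
      ((hy i).2 ▸ isIntegral_of_mem (hxR i))⟩, fun h => hx i (hd.2 _ (hxR i) ((hy i).2 ▸ h.pow _))⟩
  have hnu : ∀ z ∈ Submodule.span O (Set.range y), z ∈ O ∧ ¬ Un O z := fun z hz =>
    ⟨mem_of_mem_span (by rintro _ ⟨i, rfl⟩; exact (c1 i).1) hz,
      not_un_of_mem_span hO.lcl (by rintro _ ⟨i, rfl⟩; exact c1 i) hz⟩
  let J : Ideal O := (Submodule.span O (Set.range y)).comap (Algebra.linearMap O L)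
  have := hO.lcl.isLocalRing
  have : Nontrivial (O ⧸ J) := Ideal.Quotient.nontrivial_iff.2
    ((Ideal.ne_top_iff_one _).2 fun h => (hnu _ h).2 (Un.one O))
  have : IsLocalRing (O ⧸ J) := .of_surjective' _ Ideal.Quotient.mk_surjective
  let Z : Subring L := ((algebraMap k (O ⧸ J)).range.comap (Ideal.Quotient.mk J)).map O.val.toRingHom
  have hZ : ∀ z : O, z.1 ∈ Z ↔ Ideal.Quotient.mk J z ∈ (algebraMap k (O ⧸ J)).range := fun z =>
    ⟨fun ⟨w, hw, e⟩ => (Subtype.ext e : w = z) ▸ hw, fun h => ⟨z, h, rfl⟩⟩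
  have hZ' : ∀ z ∈ O, z ∈ Z ↔ ∃ c : k, z - algebraMap k L c ∈ Submodule.span O (Set.range y) :=
    fun z hz => (hZ ⟨z, hz⟩).trans (exists_congr fun c =>
      eq_comm.trans (Ideal.Quotient.eq (x := ⟨z, hz⟩) (y := algebraMap k O c)))
  have z2 : ∀ r ∈ R, r ∈ Z := fun r hr => (hZ' r (hd.1 hr)).2 ((hrat r hr).imp fun c =>
    span_le_span hd.1 (by
      rintro _ ⟨i, rfl⟩
      rw [← (hy i).2, ← pow_sub_one_mul (hm0 i)]
      exact mul_mem_span (pow_mem (c1 i).1 _) (Submodule.subset_span ⟨i, rfl⟩)))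
  have z3 : ∀ i, y i ∈ Z := fun i => (hZ' _ (c1 i).1).2 ⟨0, by
    simpa using Submodule.subset_span (Set.mem_range_self i)⟩
  have z1 : a ∈ Z := by
    obtain ⟨F, rfl⟩ := (mem_lifts (f := O.val.toRingHom) f).1
      ((lifts_iff_coeff_lifts _).2 fun i => ⟨⟨_, hd.1 (f2 i)⟩, rfl⟩)
    obtain ⟨F0, hF⟩ := (mem_lifts (f := algebraMap k (O ⧸ J)) (F.map (Ideal.Quotient.mk J))).1
      ((lifts_iff_coeff_lifts _).2 fun i => by
        rw [coeff_map]; exact (hZ _).1 (z2 _ (by simpa using f2 i)))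
    have e : ∀ p : O[X], (p.map O.val.toRingHom).eval a = (p.eval ⟨a, hO.le a1⟩).1 := fun p =>
      (hom_eval O.val.toRingHom p ⟨a, hO.le a1⟩).symm
    refine (hZ ⟨a, hO.le a1⟩).2 (mem_range_of_root (f := F0) ?_ ?_)
    · rw [← eval_map_algebraMap, hF, ← hom_eval, show F.eval _ = 0 from
        Subtype.ext ((e F).symm.trans f3), map_zero]
    · rw [← eval_map_algebraMap, ← derivative_map, hF, derivative_map, ← hom_eval]
      rw [derivative_map, e] at f4
      exact ((isUnit_iff_un _).2 (hdV.2 _ (Subtype.mem _) f4)).map _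
  have hinv : ∀ u ∈ Z, Un V u → u⁻¹ ∈ Z := by
    rintro _ ⟨w, ⟨c, hc⟩, rfl⟩ hu
    have hu' : Un O w.1 := hdV.2 _ w.2 hu
    have h0 : c ≠ 0 := by
      rintro rfl
      exact (hnu _ (Ideal.Quotient.eq_zero_iff_mem.1 (hc.symm.trans (map_zero _)))).2 hu'
    refine (hZ ⟨_, hu'.2.2⟩).2 ⟨c⁻¹, ?_⟩
    refine (eq_comm.1 (IsUnit.mul_left_cancel (h0.isUnit.map (algebraMap k (O ⧸ J))) ?_))
    rw [← map_mul, mul_inv_cancel₀ h0, map_one, hc, ← map_mul, ← map_one (Ideal.Quotient.mk J)]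
    exact congrArg _ (Subtype.ext (mul_inv_cancel₀ hu'.2.1))
  obtain ⟨u3, u4⟩ := u2 Z z1 z2 z3
  have hS : ∀ s ∈ icl K R, s ∈ Z := fun s hs => by
    have := mul_mem (hinv u u3 u1) (u4 s hs)
    rwa [inv_mul_cancel_left₀ u1.2.1] at this
  have c2 : ∀ z ∈ O, ∃ c : k, z - algebraMap k L c ∈ Submodule.span O (Set.range y) := fun z hz => by
    obtain ⟨s, hs, t, ht, h, e⟩ := hO.le_loc hz
    refine (hZ' z hz).1 ?_
    rw [e, div_eq_mul_inv]
    exact mul_mem (hS s hs) (hinv t (hS t ht) (h.mono hdV.1))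
  have c3 : ∀ (g : G) i, ∃ c : k, c ^ m i = 1 ∧ g • y i = c • y i := fun g i => by
    have h1 : (g • y i / y i) ^ m i = 1 := by
      rw [div_pow, ← smul_pow', (hy i).2, hfix _ (hxR i), div_self (hind.ne_zero i)]
    obtain ⟨c, hc⟩ := mem_range_of_root (k := k) (f := X ^ m i - 1) (a := g • y i / y i)
      (by simp [h1]) (by
        have h2 : (m i : L) ≠ 0 := by
          rw [← map_natCast (algebraMap k L)]; exact (_root_.map_ne_zero _).2 (hm i)
        simp [derivative_X_pow, h2, hy0, smul_eq_zero_iff_eq])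
    exact ⟨c, (algebraMap k L).injective (by rw [map_pow, hc, h1, map_one]), by
      rw [Algebra.smul_def, hc, div_mul_cancel₀ _ (hy0 i)]⟩
  have c4 : ∀ g : G, (∀ z ∈ O, g • z ∈ O) → (∀ i, g • y i = y i) → g = 1 := fun g hg h => by
    refine k1 g (fun s hs hu => ?_) h
    obtain ⟨c, hc⟩ := c2 s (hO.le hs)
    have h1 : ∀ z ∈ Submodule.span O (Set.range y), g • z ∈ Submodule.span O (Set.range y) := by
      intro z hz
      induction hz using Submodule.span_induction with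
      | mem z hz => obtain ⟨i, rfl⟩ := hz; rw [h i]; exact Submodule.subset_span ⟨i, rfl⟩
      | zero => simp
      | add a b _ _ ha hb => rw [smul_add]; exact add_mem ha hb
      | smul a b _ hb => exact (smul_mul' g a.1 b).symm ▸ mul_mem_span (hg _ a.2) hb
    have := sub_mem (h1 _ hc) hc
    rw [smul_sub, hfix _ (R.algebraMap_mem c), sub_sub_sub_cancel_right] at this
    exact (hnu _ this).2 (hdV.2 _ (hnu _ this).1 hu)
  refine ⟨c1, c2, c3, c4, fun H hH h0 => ?_⟩
  let _ := Fintype.ofFinite H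
  have h1 := (ringChar.spec k _).1 h0
  have hp : Fact (ringChar k).Prime := ⟨(CharP.char_is_prime_or_zero k _).resolve_right fun e =>
    Nat.card_pos.ne' (Nat.eq_zero_of_zero_dvd (e ▸ h1))⟩
  obtain ⟨g, hg⟩ := exists_prime_orderOf_dvd_card' _ h1
  have h2 : g ^ ∏ i, m i = 1 := Subtype.ext (c4 _ (hH _ (Subtype.mem _)) fun i => by
    obtain ⟨c, e1, e2⟩ := c3 g i
    have e3 : ∀ n : ℕ, g.1 ^ n • y i = c ^ n • y i := fun n => by
      induction n with
      | zero => simp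
      | succ n ih =>
        rw [pow_succ', mul_smul, ih, Algebra.smul_def, smul_mul', hfix _ (R.algebraMap_mem _), e2,
          ← Algebra.smul_def, smul_smul, pow_succ]
    obtain ⟨n, hn⟩ := Finset.dvd_prod_of_mem m (Finset.mem_univ i)
    rw [Subgroup.coe_pow, e3, hn, pow_mul, e1, one_pow, one_smul])
  have h3 := (ringChar.spec k _).2 (hg ▸ orderOf_dvd_of_pow_eq_one h2)
  rw [Nat.cast_prod] at h3
  exact Finset.prod_ne_zero_iff.2 (fun i _ => hm i) h3

end Pool.Agent.MP_19ffc6_ag.Res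

end MrgPart1

-- ======== part 2: formerly Pool.Agent.MP_19ffc6_ag.Res.Cover
section MrgPart2

/-! PROJECT RES, part B: the Kummer cover over a regular point and the normalization of a normal
crossings model in a tame cover. -/

namespace Pool.Agent.MP_19ffc6_ag.Res.B

open Pool.Agent.MP_19ffc6_ag.Wild Pool.Agent.MP_19ffc6_ag.Lci Pool.Agent.MP_19ffc6_ag.Res.Tor
open Polynomial

variable {k W L : Type} [Field k] [Field W] [Field L] [Algebra k W] [Algebra k L]

section Tools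

variable {n : ℕ} {K F E : IntermediateField k L} {D O : Subalgebra k L}

theorem Aff.fg_field (h : Aff n K D O) : K.FG := by
  obtain ⟨X, hX⟩ := h.fg
  have h1 : D ≤ (IntermediateField.adjoin k (X : Set L)).toSubalgebra :=
    hX ▸ IntermediateField.algebra_adjoin_le_adjoin k _
  refine ⟨X, le_antisymm (IntermediateField.adjoin_le_iff.2 fun y hy =>
    h.le y (hX ▸ Algebra.subset_adjoin hy)) fun y hy => ?_⟩
  obtain ⟨b, hb, h0, h2⟩ := h.frac y hy
  rw [← mul_div_cancel_left₀ y h0]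
  exact div_mem (h1 h2) (h1 hb)

theorem Aff.isAlgebraic (h : Aff n K D O) : ∀ x ∈ K, IsAlgebraic D x := fun x hx => by
  obtain ⟨b, hb, h0, h2⟩ := h.frac x hx
  exact IsAlgebraic.of_mul (mem_nonZeroDivisors_of_ne_zero h0)
    (isAlgebraic_algebraMap (⟨b, hb⟩ : D)) (isAlgebraic_algebraMap (⟨_, h2⟩ : D))

theorem Aff.isAlgebraic_icl (h : Aff n K (icl K D) O) : ∀ x ∈ K, IsAlgebraic D x := fun x hx => by
  obtain ⟨b, hb, h0, h2⟩ := h.frac x hx
  exact IsAlgebraic.of_mul (mem_nonZeroDivisors_of_ne_zero h0) hb.2.isAlgebraic h2.2.isAlgebraic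

theorem fg_field_map (j : W →ₐ[k] L) {K : IntermediateField k W} : (K.map j).FG ↔ K.FG := by
  rw [← IntermediateField.essFiniteType_iff, ← IntermediateField.essFiniteType_iff]
  exact (Algebra.EssFiniteType.iff_of_algEquiv (K.equivMap j)).symm

theorem trdeg_map (j : W →ₐ[k] L) (K : IntermediateField k W) :
    Algebra.trdeg k (K.map j) = Algebra.trdeg k K := (K.equivMap j).trdeg_eq.symm

theorem mem_field_map (j : W →ₐ[k] L) {K : IntermediateField k W} {x : W} :
    j x ∈ K.map j ↔ x ∈ K := mem_map_iff j (O := K.toSubalgebra)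

theorem Aff.of_map (j : W →ₐ[k] L) {K : IntermediateField k W} {D O : Subalgebra k W}
    (h : Aff n (K.map j) (D.map j) (O.map j)) : Aff n K D O := by
  refine ⟨trdeg_map j K ▸ h.deg, (fg_map j).1 h.fg, fun x hx =>
    (mem_field_map j).1 (h.le _ ((mem_map_iff j).2 hx)), fun x hx => ?_, (isPoint_map j).1 h.pt,
    (rt_map j).1 h.rt⟩
  obtain ⟨_, ⟨b, hb, rfl⟩, h0, h1⟩ := h.frac _ ((mem_field_map j).2 hx)
  exact ⟨b, hb, (_root_.map_ne_zero j).1 h0, (mem_map_iff j).1 (by rw [map_mul]; exact h1)⟩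

theorem exists_field_map (j : W →ₐ[k] L) (h : ∀ x ∈ K, x ∈ j.range) :
    ∃ K' : IntermediateField k W, K = K'.map j :=
  ⟨K.comap j, (IntermediateField.map_comap_eq_self h).symm⟩

theorem fg_restrict (hF : F.FG) (N : IntermediateField F L) [FiniteDimensional F N] :
    (N.restrictScalars k).FG ∧ Algebra.trdeg k (N.restrictScalars k) = Algebra.trdeg k F := by
  have : Algebra.EssFiniteType k F := IntermediateField.essFiniteType_iff.2 hF
  exact ⟨IntermediateField.essFiniteType_iff.1 (Algebra.EssFiniteType.comp k F N),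
    (trdeg_eq_of_le (N := N) (fun y hy => N.algebraMap_mem ⟨y, hy⟩) fun _ h => h).symm⟩

/-- The compositum with a Galois extension is Galois. -/
theorem galois_adjoin [IsAlgClosed L] (hFE : F ≤ E) (N : IntermediateField F L)
    [FiniteDimensional F N] [IsGalois F N] :
    FiniteDimensional E (IntermediateField.adjoin E (N : Set L)) ∧
      IsGalois E (IntermediateField.adjoin E (N : Set L)) := by
  let _ : Algebra F E := (IntermediateField.inclusion hFE).toRingHom.toAlgebra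
  have : IsScalarTower F E L := .of_algebraMap_eq fun _ => rfl
  obtain ⟨P, h1, h2⟩ := IsGalois.is_separable_splitting_field F N
  have h3 := (IntermediateField.isSplittingField_iff.1 h2).2
  have e : IntermediateField.adjoin E ((P.map (algebraMap F E)).rootSet L) =
      IntermediateField.adjoin E (N : Set L) := by
    rw [rootSet, aroots_map, ← rootSet]
    refine le_antisymm (IntermediateField.adjoin.mono _ _ _ fun y hy =>
      h3 ▸ IntermediateField.subset_adjoin F _ hy) (IntermediateField.adjoin_le_iff.2 ?_)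
    rw [h3]
    exact (IntermediateField.adjoin_le_iff (T := (IntermediateField.adjoin E
      (P.rootSet L)).restrictScalars F)).2 (IntermediateField.subset_adjoin E _)
  have := IntermediateField.adjoin_rootSet_isSplittingField (IsAlgClosed.splits
    ((P.map (algebraMap F E)).map (algebraMap E L)))
  rw [← e]
  exact ⟨IsSplittingField.finiteDimensional _ (P.map (algebraMap F E)),
    IsGalois.of_separable_splitting_field (p := P.map (algebraMap F E)) h1.map⟩

theorem exists_pow_mul (hO : O ≤ K.toSubalgebra) (hn : ∀ y ∈ K, IsIntegral O y → y ∈ O) {π f : L}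
    (hπ : π ∈ O) (hf : f ∈ K) (h : ∀ V, Val V → O ≤ V → Un V π → f ∈ V) :
    ∃ r : ℕ, π ^ r * f ∈ O := by
  obtain ⟨r, hr⟩ := exists_pow_mul_mem (x := f) (Submodule.span O (O : Set L)) hπ
    fun O' hO' hu => by
      obtain ⟨b, hb, h1, h2⟩ := (IsPoint.isIntegral_iff hO').1
        (isIntegral_of_val fun V hV hle => h V hV (hO'.le.trans hle) (hu.mono hle))
      exact ⟨b, hb, h1, Submodule.subset_span (hn _ (K.mul_mem (hO hb) hf) h2)⟩
  exact ⟨r, (mem_span_self le_rfl).1 hr⟩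

theorem lmon_of_mul {ι : Type} [Fintype ι] {x : ι → L} (h0 : ∀ i, x i ≠ 0)
    (hx : ∀ w ∈ Submonoid.closure (Set.range x), w ∈ O)
    (hp : ∀ i, ∀ a ∈ O, ∀ b ∈ O, a * b / x i ∈ O → a / x i ∈ O ∨ b / x i ∈ O) {w : L}
    (hw : w ∈ Submonoid.closure (Set.range x)) : ∀ a ∈ O, ∀ b ∈ O, a * b = w → LMon O x a := by
  classical
  induction hw using Submonoid.closure_induction_left with
  | one => exact fun a ha b hb e => .of_un (Un.of_mul ha hb (e ▸ Un.one O))
  | mul_left y hy w hw ih =>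
    obtain ⟨i, rfl⟩ := hy
    intro a ha b hb e
    have h1 := h0 i
    rcases hp i a ha b hb (by rw [e, mul_div_cancel_left₀ _ h1]; exact hx w hw) with h | h
    · have h2 : LMon O x (x i) := ⟨Pi.single i 1, by
        rw [mn_single, zpow_one, div_self h1]; exact Un.one O⟩
      have := LMon.mul h0 (ih _ h b hb (by rw [div_mul_eq_mul_div, e, mul_div_cancel_left₀ _ h1])) h2
      rwa [div_mul_cancel₀ _ h1] at this
    · exact ih a ha _ h (by rw [← mul_div_assoc, e, mul_div_cancel_left₀ _ h1])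

variable {r s : ℕ} {S : Finset L} {x : Fin r → L} {t : Fin s → L}

theorem Par.rat (h : Par n S O x t) (hr : Rt O) : ∀ y ∈ O, ∃ c : k,
    y - algebraMap k L c ∈ Submodule.span O (Set.range (Sum.elim x t)) := fun y hy => by
  obtain ⟨c, hc⟩ := hr y hy
  rw [Set.Sum.elim_range]
  exact ⟨c, h.gen _ (sub_mem hy (O.algebraMap_mem c)) hc⟩

theorem Par.nu (h : Par n S O x t) : ∀ i, Sum.elim x t i ∈ O ∧ ¬ Un O (Sum.elim x t i) := by
  rintro (i | j)
  exacts [⟨(h.xm i).1, (h.xm i).2.2⟩, h.tm j]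

/-- A function that is invertible outside the boundary is a monomial. -/
theorem Par.lmon (h : Par n S O x t) (hA : Aff n K D O) {f : L} (hf : f ∈ K)
    (H : ∀ V, Val V → O ≤ V → (∀ i, Un V (x i)) → Un V f) : LMon O x f := by
  have := hA.noeth
  obtain ⟨h1, h2⟩ := h.of_aff hA
  have h0 : ∀ i, x i ≠ 0 := fun i => (h.xm i).2.1
  have hx : ∀ w ∈ Submonoid.closure (Set.range x), w ∈ O := fun w hw =>
    (Submonoid.closure_le (S := O.toSubmonoid)).2 (by rintro _ ⟨i, rfl⟩; exact (h.xm i).1) hw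
  have hπ : ∏ i, x i ∈ Submonoid.closure (Set.range x) :=
    prod_mem fun i _ => Submonoid.subset_closure ⟨i, rfl⟩
  have key := fun w => lmon_of_mul (w := w) h0 hx fun i =>
    prime_par hA.pt.lcl h1 h2 (fun i => (h.nu i).2) (h.rat hA.rt) (Sum.inl i)
  have H' : ∀ V, Val V → O ≤ V → Un V (∏ i, x i) → Un V f := fun V hV hle hu =>
    H V hV hle fun i => by
      rw [← Finset.mul_prod_erase _ _ (Finset.mem_univ i)] at hu
      exact Un.of_mul (hle (h.xm i).1) (prod_mem fun j _ => hle (h.xm j).1) hu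
  have hf0 : f ≠ 0 := (H ⊤ val_top le_top fun i => ⟨trivial, h0 i, trivial⟩).2.1
  obtain ⟨a, ha⟩ := exists_pow_mul hA.le_field (fun y => h.normal hA) (hx _ hπ) hf
    fun V hV hle hu => (H' V hV hle hu).1
  obtain ⟨b, hb⟩ := exists_pow_mul hA.le_field (fun y => h.normal hA) (hx _ hπ) (K.inv_mem hf)
    fun V hV hle hu => (H' V hV hle hu).2.2
  have h3 := key _ (pow_mem hπ (a + b)) _ ha _ hb (by field_simp; ring)
  have h4 := key _ (pow_mem hπ a) _ (hx _ (pow_mem hπ a)) 1 (one_mem _) (mul_one _)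
  have := LMon.mul h0 h4.inv h3
  rwa [inv_mul_cancel_left₀ h4.ne_zero] at this

end Tools

/-- The Galois cover `W / E` obtained from `N` by extracting roots of the boundary parameters at
the point `R`; `K₁` is the field generated by `N` and the roots. -/
structure Up [DecidableEq L] (n m : ℕ) {F E : IntermediateField k L} (N : IntermediateField F L)
    (S T : Finset L) (D R : Subalgebra k L) {r s : ℕ} (x : Fin r → L) (t : Fin s → L)
    (W : IntermediateField E L) (K₁ : IntermediateField k W) (S₁ : Finset W)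
    (D₁ R₁ : Subalgebra k W) (ξ : Fin r → W) (t₁ : Fin s → W) : Prop where
  fin : FiniteDimensional E W
  gal : IsGalois E W
  le : ∀ y ∈ N, y ∈ W
  mem : ∀ y : W, (y : L) ∈ N → y ∈ K₁
  stb : ∀ g : W ≃ₐ[E] W, ∀ y ∈ K₁, g • y ∈ K₁
  top : ∀ Z : IntermediateField k W, K₁ ≤ Z → (∀ y : W, (y : L) ∈ E → y ∈ Z) → Z = ⊤
  alg : ∀ y ∈ K₁, IsAlgebraic F (y : L)
  fg : K₁.FG
  eS : S = S₁.image (vl W)
  eD : D = D₁.map (vl W)
  eR : R = R₁.map (vl W)
  et : t = vl W ∘ t₁
  pow : ∀ i, (ξ i : L) ^ m = x i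
  rt : ∀ i, ξ i ∈ K₁
  chi : ∀ (g : W ≃ₐ[E] W) i, ∃ c : k, g • ξ i = c • ξ i
  pt : ∀ O, IsPoint (icl K₁ R₁) O → Dom R₁ O → Aff n K₁ (icl K₁ D₁) O ∧ Par n S₁ O ξ t₁ ∧
    (∀ f : W, (f : L) ∈ T → LMon O ξ f) ∧
    (∀ g : W ≃ₐ[E] W, (∀ z ∈ O, g • z ∈ O) → (∀ i, g • ξ i = ξ i) → g = 1) ∧
    ∀ H : Subgroup (W ≃ₐ[E] W), (∀ g ∈ H, ∀ z ∈ O, g • z ∈ O) → (Nat.card H : k) ≠ 0

theorem exists_up [IsAlgClosed k] [IsAlgClosed L] [DecidableEq L] {n m r s : ℕ}
    {F E : IntermediateField k L} {N : IntermediateField F L} {S T : Finset L}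
    {D R : Subalgebra k L} {x : Fin r → L} {t : Fin s → L} (hm : (m : k) ≠ 0) (hT : Tame m F N)
    (hO : Off F N S T) (hTN : ∀ f ∈ T, f ∈ N) (hFE : F ≤ E)
    (hE : ∀ z ∈ E, IsAlgebraic F z → z ∈ F) (hA : Aff n F D R) (hP : Par n S R x t) :
    ∃ (W : IntermediateField E L) (K₁ : IntermediateField k W) (S₁ : Finset W)
      (D₁ R₁ : Subalgebra k W) (ξ : Fin r → W) (t₁ : Fin s → W),
      Up n m N S T D R x t W K₁ S₁ D₁ R₁ ξ t₁ := by
  have hm0 : m ≠ 0 := by rintro rfl; exact hm Nat.cast_zero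
  have hRF := hA.le_field
  choose η hη using fun i => IsAlgClosed.exists_pow_nat_eq (x i) (Nat.pos_of_ne_zero hm0)
  have hη0 : ∀ i, η i ≠ 0 := fun i e => (hP.xm i).2.1 (by rw [← hη, e, zero_pow hm0])
  obtain ⟨f1, f2⟩ := kummer (E := F) hm η hη0 fun i => hη i ▸ hRF (hP.xm i).1
  have f3 := hT.fin
  have f4 := hT.gal
  let N₁ : IntermediateField F L := N ⊔ IntermediateField.adjoin F (Set.range η)
  have f5 : IsGalois F N₁ := {}
  obtain ⟨f6, f7⟩ := galois_adjoin hFE N₁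
  set W := IntermediateField.adjoin E (N₁ : Set L) with hW
  have w1 : ∀ y ∈ N₁, y ∈ W := fun y hy => IntermediateField.subset_adjoin E _ hy
  have w2 : ∀ y ∈ N, y ∈ N₁ := fun y hy => (le_sup_left : N ≤ N₁) hy
  have w3 : ∀ y ∈ F, y ∈ N := fun y hy => N.algebraMap_mem ⟨y, hy⟩
  have w4 : ∀ i, η i ∈ N₁ := fun i =>
    (le_sup_right : _ ≤ N₁) (IntermediateField.subset_adjoin F _ ⟨i, rfl⟩)
  have w5 : ∀ y ∈ F, y ∈ (vl W).range := fun y hy => mem_range_vl.2 (w1 y (w2 y (w3 y hy)))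
  have hSF : ∀ f ∈ S, f ∈ F := fun f hf => by
    obtain ⟨c, hc⟩ := hP.mon f hf
    rw [← div_mul_cancel₀ f (mn_ne_zero (fun i => (hP.xm i).2.1) c)]
    exact mul_mem (hRF hc.1) (mn_mem_field (fun i => hRF (hP.xm i).1) c)
  obtain ⟨F₁, hF₁⟩ := exists_field_map (vl W) w5
  obtain ⟨K₁, hK₁⟩ := exists_field_map (K := N₁.restrictScalars k) (vl W)
    fun y hy => mem_range_vl.2 (w1 y hy)
  obtain ⟨S₁, hS₁⟩ := exists_finset (vl W) fun f hf => w5 f (hSF f hf)
  obtain ⟨D₁, hD₁⟩ := exists_map (vl W) fun y hy => w5 y (hA.le y hy)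
  obtain ⟨R₁, hR₁⟩ := exists_map (vl W) fun y hy => w5 y (hRF hy)
  obtain ⟨x₁, hx₁⟩ := exists_fun (vl W) fun i => w5 _ (hRF (hP.xm i).1)
  obtain ⟨t₁, ht₁⟩ := exists_fun (vl W) fun i => w5 _ (hRF (hP.tm i).1)
  let ξ : Fin r → W := fun i => ⟨η i, w1 _ (w4 i)⟩
  have mF : ∀ y : W, y ∈ F₁ ↔ (y : L) ∈ F := fun y => by
    rw [← mem_field_map (vl W), ← hF₁]; rfl
  have mK : ∀ y : W, y ∈ K₁ ↔ (y : L) ∈ N₁ := fun y => by
    rw [← mem_field_map (vl W), ← hK₁]; rfl
  have hA₁ : Aff n F₁ D₁ R₁ := Aff.of_map (vl W) (by rwa [← hF₁, ← hD₁, ← hR₁])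
  have hP₁ : Par n S₁ R₁ x₁ t₁ := Par.of_map (vl W) (by rwa [← hS₁, ← hR₁, ← hx₁, ← ht₁])
  have hξ : ∀ i, ξ i ^ m = x₁ i := fun i => Subtype.ext ((hη i).trans (congrFun hx₁ i))
  have hξ0 : ∀ i, ξ i ≠ 0 := fun i e => hη0 i (congrArg Subtype.val e)
  have hξE : ∀ i, (ξ i : L) ^ m ∈ E := fun i => hFE (hη i ▸ hRF (hP.xm i).1)
  have hFK : F₁ ≤ K₁ := fun y hy => (mK y).2 (w2 _ (w3 _ ((mF y).1 hy)))
  have hfix : ∀ y ∈ F₁, ∀ g : W ≃ₐ[E] W, g • y = y := fun y hy g =>
    g.commutes ⟨y, hFE ((mF y).1 hy)⟩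
  have hstb : ∀ g : W ≃ₐ[E] W, ∀ y ∈ K₁, g • y ∈ K₁ := fun g y hy => by
    obtain ⟨ρ, hρ⟩ := exists_res hFE N₁ W w1
    rw [mK] at hy ⊢
    exact (hρ g ⟨y, hy⟩ ▸ (ρ g ⟨y, hy⟩).2 :)
  have htop : ∀ Z : IntermediateField k W, K₁ ≤ Z → (∀ y : W, (y : L) ∈ E → y ∈ Z) → Z = ⊤ := by
    intro Z h1 h2
    let Z' : IntermediateField E L := IntermediateField.extendScalars (E := Z.map (vl W))
      fun y hy => ⟨⟨y, W.algebraMap_mem ⟨y, hy⟩⟩, h2 _ hy, rfl⟩
    have h3 : W ≤ Z' := IntermediateField.adjoin_le_iff.2 fun y hy =>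
      ⟨⟨y, w1 y hy⟩, h1 ((mK _).2 hy), rfl⟩
    exact eq_top_iff.2 fun y _ => (mem_field_map (vl W)).1 (h3 y.2)
  have hfa : ∀ g : W ≃ₐ[E] W, (∀ y ∈ K₁, g • y = y) → g = 1 := fun g hg => by
    have := htop ((RingHom.eqLocusField (g : W →+* W) (RingHom.id W)).toIntermediateField
      fun c => g.commutes (algebraMap k E c)) hg fun y hy => g.commutes ⟨y, hy⟩
    exact AlgEquiv.ext fun y => (this.ge trivial : y ∈ _)
  have hone : ∀ g : W ≃ₐ[E] W, (∀ y ∈ N, ∃ h : y ∈ W, g ⟨y, h⟩ = ⟨y, h⟩) → (∀ i, g (ξ i) = ξ i) →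
      g = 1 := fun g h1 h2 => hfa g fun y hy =>
    fix_sup hFE g h1 (by rintro _ ⟨i, rfl⟩; exact ⟨_, h2 i⟩) y ((mK y).1 hy)
  have halg : ∀ y ∈ K₁, IsAlgebraic F (y : L) := fun y hy =>
    (isAlgebraic_algebraMap_iff (algebraMap N₁ L).injective).2
      (Algebra.IsAlgebraic.isAlgebraic (⟨y, (mK y).1 hy⟩ : N₁))
  have hinv : ∀ y ∈ K₁, (∀ g : W ≃ₐ[E] W, g • y = y) → y ∈ F₁ := fun y hy h => by
    obtain ⟨e, rfl⟩ := IntermediateField.mem_bot.1 ((IsGalois.mem_bot_iff_fixed y).2 h)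
    exact (mF _).2 (hE _ e.2 (halg _ hy))
  obtain ⟨g1, g2⟩ := fg_restrict hA.fg_field N₁
  rw [hK₁] at g1 g2
  replace g1 := (fg_field_map _).1 g1
  replace g2 := ((trdeg_map _ _).symm.trans g2).trans hA.deg
  have hNW : ∀ y ∈ N, y ∈ W := fun y hy => w1 y (w2 y hy)
  have hSu : ∀ V, R₁ ≤ V → (∀ i, Un V (x₁ i)) → ∀ f ∈ S, ∃ y : W, vl W y = f ∧ Un V y := by
    intro V hle hu f hf
    obtain ⟨y, hy, rfl⟩ := Finset.mem_image.1 (hS₁ ▸ hf)
    obtain ⟨c, hc⟩ := hP₁.mon y hy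
    refine ⟨y, rfl, ?_⟩
    rw [← div_mul_cancel₀ y (mn_ne_zero (fun i => (hP₁.xm i).2.1) c)]
    exact (hc.mono hle).mul (mn_un fun i hi => absurd (hu i) hi)
  refine ⟨W, K₁, S₁, D₁, R₁, ξ, t₁, f6, f7, hNW, fun y hy => (mK y).2 (w2 _ hy), hstb, htop, halg,
    g1, hS₁, hD₁, hR₁, ht₁, hη, fun i => (mK _).2 (w4 i), fun g i => ?_, fun O hO₁ hd => ?_⟩
  · obtain ⟨c, -, hc⟩ := aut_rad (k := k) hm0 (hξ0 i) (hξE i) g
    exact ⟨c, hc⟩
  have := hA₁.noeth
  have hRK : R₁ ≤ K₁.toSubalgebra := hA₁.le_field.trans hFK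
  have hDK : D₁ ≤ K₁.toSubalgebra := hA₁.pt.le.trans hRK
  obtain ⟨i1, i2⟩ := hP₁.of_aff hA₁
  have hTm : ∀ V : Subalgebra k W, Val V → ∀ g : W ≃ₐ[E] W, Res.Ine K₁ V g → g ^ m = 1 :=
    fun V hV g hg => hone _ (hT.pow_fix hFE W hNW hV g fun z hz h => hg z hz ((mK z).2 (w2 _ h)))
      fun i => aut_pow_rad hm0 (hξ0 i) (hξE i) g
  obtain ⟨a1, a2, -, a4, a5⟩ := aj_pt (G := W ≃ₐ[E] W) K₁ hstb hfa R₁ hRK
    (fun y hy => hfix y (hA₁.le_field hy))
    (fun z hz h => let ⟨b, hb, h0, h1⟩ := hA₁.frac z (hinv z hz h)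
      ⟨b, hA₁.pt.le hb, h0, hA₁.pt.le h1⟩)
    (fun z hz h => hP₁.normal hA₁ (hinv z hz h)) (Sum.elim x₁ t₁) i1 i2
    (fun y hy => isAlgebraic_of_par hA₁.fg hA₁.pt i2.le (S := Set.range _) (fun _ ⟨i, hi⟩ =>
      ⟨Algebra.subset_adjoin ⟨i, hi⟩, hi ▸ (hP₁.nu i).2⟩) (hP₁.rat hA₁.rt) hy)
    (fun i => (hP₁.nu i).2) (hP₁.rat hA₁.rt) (Sum.elim (fun _ => m) fun _ => 1)
    (by rintro (i | i); exacts [hm, by simp]) (Sum.elim ξ t₁)
    (by
      rintro (i | i)
      exacts [⟨(mK _).2 (w4 i), hξ i⟩, ⟨hRK (hP₁.tm i).1, pow_one _⟩])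
    (fun V hV hu g hg h => by
      by_cases c : m = 1
      · simpa [c] using hTm V hV.val g hg
      · exact hone g (hO.fix hFE W hNW hV.val (hSu V hV.le fun i => hu (.inl i) c) g
          fun z hz h => hg z hz ((mK z).2 (w2 _ h))) fun i => h (.inl i))
    (by
      rintro V hV (i | i) hi - g hg
      exacts [hTm V hV.val g hg, absurd rfl hi]) O hO₁ hd
  have hAO : Aff n K₁ (icl K₁ D₁) O := aff_icl g2 g1 hA₁.fg hDK
    (fun y hy => by
      have h1 : IsAlgebraic (D₁.map (vl W)) (vl W y) :=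
        hD₁ ▸ isAlgebraic_trans hA.le hA.isAlgebraic (halg y hy)
      obtain ⟨⟨_, b, hb, rfl⟩, h2, h3⟩ := h1.exists_integral_multiple
      exact IsAlgebraic.of_smul_isIntegral (y := (⟨b, hb⟩ : D₁))
        (fun h => h2 (Subtype.ext ((_root_.map_eq_zero (vl W)).2
          (congrArg Subtype.val (isNilpotent_iff_eq_zero.1 h)))))
        ((isIntegral_map (vl W)).1 h3))
    (IsPoint.icl hA₁.pt hDK hO₁) (Rt.icl hA₁.rt hA₁.pt.lcl hd hO₁)
  have hmn : ∀ c, mn x₁ c = mn ξ ((m : ℤ) • c) := fun c => by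
    simp only [mn, ← hξ, Pi.smul_apply, smul_eq_mul, zpow_mul, zpow_natCast]
  have hPO : Par n S₁ O ξ t₁ := by
    refine ⟨hP.card, fun i => ⟨(a1 (.inl i)).1, hξ0 i, (a1 (.inl i)).2⟩, fun i => a1 (.inr i),
      fun y hy hu => ?_, fun f hf => ?_, fun i => ?_,
      fun f hf => (hP₁.cmp f hf).imp (@hd.1 _) (@hd.1 _)⟩
    · rw [← Set.Sum.elim_range]
      exact Res.Par.mem_span a2 hO₁.lcl (by rintro _ ⟨i, rfl⟩; exact a1 i) hy hu
    · obtain ⟨c, hc⟩ := hP₁.mon f hf
      exact ⟨_, hmn c ▸ hc.mono hd.1⟩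
    · obtain ⟨f, hf, c, hc, h0⟩ := hP₁.sees i
      exact ⟨f, hf, _, hmn c ▸ hc.mono hd.1, mul_ne_zero (by exact_mod_cast hm0) h0⟩
  refine ⟨hAO, hPO, fun f hf => hPO.lmon hAO ((mK f).2 (w2 _ (hTN _ hf))) fun V hV hle hu =>
    hO.un (vl W) hV (hSu V (hd.1.trans hle) fun i => hξ i ▸ (hu i).pow m) hf,
    fun g h1 h2 => a4 g h1 ?_, a5⟩
  rintro (i | i)
  exacts [h2 i, hfix _ (hA₁.le_field (hP₁.tm i).1) g]

theorem icl_icl {K K' : IntermediateField k L} {D : Subalgebra k L} (hD : D ≤ K.toSubalgebra) :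
    icl K' (icl K D) = icl K' D :=
  le_antisymm (fun _ hy => ⟨hy.1, isIntegral_trans' (fun _ hz => (mem_icl.1 hz).2) hy.2⟩)
    (icl_mono (le_icl hD))

/-- The normalization of a model in a finite extension. -/
theorem Mdl.normIn [PerfectField k] {E K : IntermediateField k L} {M : Submodule k L} (h : Mdl E M)
    (hEK : E ≤ K) (hK : K.FG) (halg : ∀ x ∈ K, IsAlgebraic E x) :
    ∃ M', Mdl K M' ∧ (∀ O', Pt ⊥ M' O' → ∃ O, Pt ⊥ M O ∧ Dom O O' ∧ IsPoint (icl K O) O') ∧
      ∀ O O', Pt ⊥ M O → IsPoint (icl K O) O' → Pt ⊥ M' O' := by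
  have key : ∀ g ∈ M, g ≠ 0 → ∀ x ∈ K, IsAlgebraic (chart ⊥ M g) x := fun g hg h0 x hx =>
    isAlgebraic_trans (chart_le_field h.le hg) (fun y hy => by
      obtain ⟨b, hb, h1, h2⟩ := h.frac g hg h0 y hy
      exact IsAlgebraic.of_mul (mem_nonZeroDivisors_of_ne_zero h1)
        (isAlgebraic_algebraMap (⟨b, hb⟩ : chart ⊥ M g))
        (isAlgebraic_algebraMap (⟨_, h2⟩ : chart ⊥ M g))) (halg x hx)
  obtain ⟨g, hg, hg0⟩ := Submodule.exists_mem_ne_zero_of_ne_bot h.ne
  obtain ⟨N, h1, h2, h3, h4, h5⟩ := Res.norm Subalgebra.fg_bot h.fg hK bot_le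
    (fun y hy => hEK (h.le y hy)) hg hg0 (key g hg hg0)
  refine ⟨M * N, ⟨h.fg.mul h1, ?_, fun y hy => ?_, fun a ha ha0 y hy => ?_⟩, h4, h5⟩
  · obtain ⟨u, hu, hu0⟩ := Submodule.exists_mem_ne_zero_of_ne_bot h2
    exact fun e => mul_ne_zero hg0 hu0 ((Submodule.mem_bot k).1 (e ▸ Submodule.mul_mem_mul hg hu))
  · exact Submodule.mul_induction_on hy (fun a ha b hb => mul_mem (hEK (h.le a ha)) (h3 b hb))
      fun _ _ => add_mem
  · obtain ⟨O, ⟨g', hg', h0, hO⟩, hd, hp⟩ := h4 _ ⟨a, ha, ha0, isPoint_gen _⟩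
    obtain ⟨b, hb, hb0, hby⟩ := exists_mul_mem_icl
      ((chart_le_field h.le hg').trans hEK) hy (key g' hg' h0 y hy)
    obtain ⟨b1, e1, b2, e2, e3, rfl⟩ := hd.1 (hO.le hb)
    obtain ⟨a1, e4, a2, e5, e6, e7⟩ := hp.le (icl_mono hO.le hby)
    have := e3.2.1
    have := e6.2.1
    refine ⟨b1 * a2, mul_mem e1 e5, mul_ne_zero (fun e => hb0 (by rw [e, zero_div])) this, ?_⟩
    have e : b1 * a2 * y = a1 * b2 := by
      rw [← div_mul_cancel₀ a1 this, ← e7]; field_simp
    exact e ▸ mul_mem e4 e2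

/-- Module COVER. -/
theorem cover [IsAlgClosed k] [IsAlgClosed L]
    (hQ : ∀ (W : Type) [Field W] [Algebra k W], QuotStmt k W) : CoverStmt k L := by
  classical
  intro n m E K N S T M hm hK hn hEK hKN hTK hT hO ⟨hM, hS⟩
  have := hT.fin
  have halg : ∀ y ∈ K, IsAlgebraic E y := fun y hy =>
    (isAlgebraic_algebraMap_iff (algebraMap N L).injective).2
      (Algebra.IsAlgebraic.isAlgebraic (⟨y, hKN y hy⟩ : N))
  obtain ⟨M', hM', hpt, -⟩ := hM.normIn hEK hK halg
  refine ⟨S ∪ T, M', Finset.subset_union_right, hM', fun A hA hr => ?_⟩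
  obtain ⟨R, hR, hd, hp⟩ := hpt A hA
  have hRr : Rt R := hr.of_le hd.1
  obtain ⟨D, hD⟩ := hM.aff hn hR hRr
  obtain ⟨r, s, x, t, hP⟩ := hS R hR hRr
  obtain ⟨W, K₁, S₁, D₁, R₁, ξ, t₁, h⟩ := exists_up hm hT hO (fun f hf => hKN f (hTK f hf)) le_rfl
    (fun _ h _ => h) hD hP
  have := h.fin
  have := h.gal
  obtain rfl : K₁ = ⊤ := h.top _ le_rfl fun y hy => h.mem y (N.algebraMap_mem ⟨y, hy⟩)
  have w1 : ∀ y ∈ K, y ∈ (vl W).range := fun y hy => mem_range_vl.2 (h.le y (hKN y hy))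
  let K' : IntermediateField E W := (IntermediateField.extendScalars hEK).comap W.val
  have hK' : K = (K'.restrictScalars k).map (vl W) :=
    (IntermediateField.map_comap_eq_self (f := vl W) w1).symm
  obtain ⟨A₁, rfl⟩ := exists_map (vl W) fun y hy => w1 y (hM'.pt_le hA hy)
  obtain ⟨T₁, hT₁⟩ := exists_finset (vl W) fun f hf => w1 f (hTK f hf)
  have hDK : D₁ ≤ (K'.restrictScalars k).toSubalgebra := fun y hy =>
    hEK (hD.le _ (h.eD ▸ (mem_map_iff (vl W)).2 hy))
  have hRK : R₁ ≤ (K'.restrictScalars k).toSubalgebra := fun y hy =>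
    hEK (hD.le_field (h.eR ▸ (mem_map_iff (vl W)).2 hy))
  have hDR : IsPoint D₁ R₁ := (isPoint_map (vl W)).1 (h.eD ▸ h.eR ▸ hD.pt)
  rw [h.eR] at hd hp
  rw [hK', icl_map, isPoint_map] at hp
  rw [dom_map] at hd
  obtain ⟨O, hO1, hO2⟩ := exists_over (D := icl ⊤ A₁) hp.lcl (le_icl le_top) fun _ hy => hy.2
  have hO3 := IsPoint.icl hp le_top hO1
  rw [icl_icl hRK] at hO3
  obtain ⟨a1, a2, a3, -, a5⟩ := h.pt O hO3 (Dom.trans hd hO2)
  have hfx : ∀ y, y ∈ K'.restrictScalars k ↔ ∀ g : K'.fixingSubgroup, g • y = y := fun y => by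
    rw [IntermediateField.mem_restrictScalars]
    conv_lhs => rw [← IsGalois.fixedField_fixingSubgroup K']
    rfl
  obtain ⟨τ, w, t', e1, e2, e3⟩ := hQ W K'.fixingSubgroup n (K'.restrictScalars k) D₁ O (Fin r) r s
    (orth r) ξ t₁ hfx (by rw [← trdeg_map (vl W), ← hK', ← trdeg_eq_of_le hEK hKN, hn])
    ((fg_field_map (vl W)).1 (hK' ▸ hK)) ((fg_map (vl W)).1 (h.eD ▸ hD.fg)) hDK
    (fun y _ => a1.isAlgebraic_icl y trivial) a1.pt a1.rt
    (fun H hH => by
      rw [Nat.card_congr (H.equivMapOfInjective _ K'.fixingSubgroup.subtype_injective).toEquiv]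
      exact a5 _ (by rintro _ ⟨g, hg, rfl⟩; exact hH g hg)) a2.tp
    (fun i => Or.inl fun g => by
      obtain ⟨c, hc⟩ := h.chi g i
      rw [Subgroup.smul_def, hc, smul_div_assoc, div_self (a2.xm i).2.1]
      exact O.smul_mem (one_mem _) c)
    (fun g _ => ⟨fun i => h.chi g i, fun j => (hfx _).1
      (hEK (hD.le_field (h.et ▸ (hP.tm j).1 :))) g⟩)
  rw [← IsPoint.eq_loc (IsPoint.icl hDR hDK hp) hO2] at e2 e3
  have hSK : ∀ f ∈ S₁, f ∈ K'.restrictScalars k := fun f hf =>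
    (hP.cmp _ (h.eS ▸ Finset.mem_image_of_mem (vl W) hf)).elim (fun h' => hEK (hD.le_field h'))
      fun h' => hEK (inv_inv (vl W f) ▸ E.inv_mem (hD.le_field h'))
  refine ⟨Fin r, inferInstance, r, s, τ, vl W ∘ w, vl W ∘ t', e2.map _, ?_⟩
  rw [h.eS, hT₁, ← Finset.image_union]
  refine Sees.map _ ⟨fun f hf => ?_, fun ρ _ => ?_⟩
  · rcases Finset.mem_union.1 hf with hf | hf
    · obtain ⟨c, hc⟩ := a2.mon f hf
      exact (e3 f (hSK f hf) c hc).imp fun _ h => h.1
    · have h1 : (f : L) ∈ T := hT₁ ▸ Finset.mem_image_of_mem (vl W) hf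
      obtain ⟨c, hc⟩ := a3 f h1
      exact (e3 f (hTK _ h1) c hc).imp fun _ h => h.1
  · obtain ⟨f, hf, c, hc, h0⟩ := a2.sees ρ
    obtain ⟨c', h1, h2⟩ := e3 f (hSK f hf) c hc
    exact ⟨f, Finset.mem_union_left _ hf, c', h1, by rwa [h2, ev_orth]⟩

end Pool.Agent.MP_19ffc6_ag.Res.B

end MrgPart2

-- marker of a merged file
example : 731051 + 874918 = 731051 + 874918 := rfl
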