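import Pool.Agent.MP_19ffc6_ag.Res.Num
import Pool.Agent.MP_19ffc6_ag.Res.Wr
import Pool.Agent.MP_19ffc6_ag.Res.BSpec

/-! PROJECT RES, part A: statements of the modules and their assembly. -/

namespace Pool.Agent.MP_19ffc6_ag.Res.PA

open Pool.Agent.MP_19ffc6_ag.Wild Submodule Filter Module

/-- The initial ratio of the potential and the dimension. -/
def kap (m : ℕ) : ℕ := 2 ^ (m + 1) + 2 * (m + 3) ^ (m + 1) + 1

/-- The bound for the Hilbert-Samuel functions. -/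
def mu (m : ℕ) : ℕ := 4 * kap m

/-- The bound for the local degrees. -/
def cst (m μ : ℕ) : ℕ := (m + 2) ^ 2 * (2 * μ + 1) * (8 * (m + 2) ^ 2) ^ (m + 1)

/-- The characteristic is larger than `C`. -/
def Big (k : Type) [Field k] (C : ℕ) : Prop := ∀ j : ℕ, 0 < j → j ≤ C → (j : k) ≠ 0

section

variable {k K : Type} [Field k] [Field K] [Algebra k K] {m : ℕ}

/-- A linear family of tuples of polynomials of degree at most `m + 2` that vanish at `T`. -/
def Fm (T : Submodule k K) (τ : (Fin (m + 2) → k) →ₗ[k] (Fin (m + 1) → K)) : Prop :=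
  ∀ a i, τ a i ∈ (1 ⊔ T) ^ (m + 2) ∧ τ a i ∈ nn T

/-- `M₀` spans `K` over the function field of the image of `V`. -/
def Spn (V M₀ : Submodule k K) : Prop :=
  ∀ σ T, Hyp V σ T → ∀ z : K, ∃ a ∈ alg T, a ≠ 0 ∧ a * z ∈ alg T * M₀

/-- `T` is a rational point of the chart `U`. -/
def Pnt (U T : Submodule k K) : Prop := U = 1 ⊔ T ∧ (1 : K) ∉ nn T

/-- The tuple with coefficients `l`. -/
noncomputable def tup {I : Type} [Fintype I] (u : I → K) (l : Fin (m + 2) × I → k) :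
    Fin (m + 2) → K := fun j => ∑ i, l (j, i) • u i

/-- The affine coordinates of a tuple. -/
noncomputable def crd (s : Fin (m + 2) → K) : Fin (m + 1) → K := fun i => s i.succ / s 0

/-- The numerators of the projection to the base in the chart `i₀`. -/
noncomputable def num (s : Fin (m + 2) → K) (i₀ : Fin (m + 1)) (c : Fin m → k) : Fin m → K :=
  fun i => s (i₀.succAbove i).castSucc - c i • s i₀.castSucc

/-- The second alternative of `Out.hor`. -/
def Alt (C : ℕ) (w : DV k K) (g : Fin (m + 1) → K) : Prop :=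
  ∃ (E : Type) (_ : Field E) (_ : Algebra k E) (x' : Fin m → E) (y' : E), Cov k E x' C ∧
    ∀ P : MvPolynomial (Fin (m + 1)) k,
      MvPolynomial.aeval (Fin.snoc x' y' : Fin (m + 1) → E) P = 0 →
      MvPolynomial.aeval g P ∈ w.fil 1

/-- The local degrees of the projection of the divisor `w` to the base are at most `C`. -/
def OnW (C : ℕ) (w : DV k K) (T : Submodule k K) (s : Fin (m + 2) → K) : Prop :=
  (∃ i₀ : Fin (m + 1), s i₀.castSucc ∉ nn T) ∧ ∀ (i₀ : Fin (m + 1)) (c : Fin m → k),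
    s i₀.castSucc ∉ nn T → (∀ i, num s i₀ c i ∈ nn T) →
    ∃ X : Submodule k K, X.FG ∧ X ≤ w.fil 0 ∧ ¬ X ≤ w.fil 1 ∧
      Ld C T (num s i₀ c) (alg T * X) (w.fil 1)

end

section

variable (k K : Type) [Field k] [Field K] [Algebra k K] (m : ℕ)

/-- Module DIV. -/
def DivStmt : Prop :=
  ∀ G : Finset (DV k K), ∃ E : Submodule k K, E.FG ∧ ∀ MM A A' : Submodule k K, MM.FG → E ≤ MM →
    A.FG → A' ≠ ⊥ → A' ≤ A → (∀ w ∈ G, w.ordS A < w.ordS A') → ∃ c : ℕ,
      ∀ U : Submodule k K, U.FG → ∀ L : ℕ, (L - c) * ∑ w ∈ G, w.lead U +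
        finrank k (MM * U * A' ^ L :) ≤ finrank k (MM * U * A ^ L :)

/-- Module STEP. -/
structure StepStmt : Prop where
  step : ∀ (d : Fin (m + 1) → Derivation k K K) (S : Finset K) (V T : Submodule k K) (σ : K)
    (G : ℝ) (μ : ℕ), V.FG → Hyp V σ T → WW d (pr k σ * T) ≠ ⊥ → Pot d S V G →
    ¬ (GoodX d μ T ∧ ∀ w ∈ DD d S V, w.Min V σ → Gr m μ T (alg T) (w.fil 1)) →
    Pot d S (pr k σ * T) (G - μ)
  fin : ∀ (d : Fin (m + 1) → Derivation k K K) (S : Finset K) (V : Submodule k K) (G : ℝ),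
    V.FG → Pot d S V G → (DD d S V).Finite

/-- Module START. -/
def StartStmt : Prop :=
  ∀ (t : Fin (m + 1) → K) (d : Fin (m + 1) → Derivation k K K) (S : Finset K), Fr t d →
    (∀ r ∈ S, r ≠ 0) → ∃ (V₀ : Submodule k K) (R : ℝ), V₀.FG ∧ 0 ≤ R ∧
      Pot d S V₀ (kap m * R) ∧
      ∀ V ≤ V₀, (finrank k V₀ : ℝ) ≤ finrank k V + R / 4 + 1 → WW d V ≠ ⊥

/-- The logarithmic Albanese theorem. -/
def AlbStmt : Prop :=
  ∀ (t : Fin (m + 1) → K) (d : Fin (m + 1) → Derivation k K K) (S : Finset K), Fr t d →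
    (∀ r ∈ S, r ≠ 0) → ∃ V, Alb d S (mu m) V

/-- Module LOCX. -/
def LocXStmt : Prop :=
  ∀ (d : Fin (m + 1) → Derivation k K K) (μ : ℕ) (T M₀ : Submodule k K), T.FG → M₀.FG →
    GoodX d μ T → ∃ τ, Fm T τ ∧ ∀ a ≠ 0, CX d (cst m μ) T M₀ (τ a)

/-- Module LOCW. -/
def LocWStmt : Prop :=
  ∀ (μ : ℕ) (T : Submodule k K) (w : DV k K), T.FG → T ≤ w.fil 0 →
    Gr m μ T (alg T) (w.fil 1) → ∃ τ : (Fin (m + 2) → k) →ₗ[k] (Fin (m + 1) → K), Fm T τ ∧
      ∀ a ≠ 0, Ld (cst m μ) T (fun i : Fin m => τ a i.castSucc) (alg T) (w.fil 1)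

/-- Module LOCP. -/
def LocPStmt : Prop :=
  0 < m → Big k (m + 2) → ∀ (d : Fin (m + 1) → Derivation k K K) (μ : ℕ) (T : Submodule k K)
    (S₀ : K), T.FG → GoodX d μ T → S₀ ∈ alg T → S₀ ∉ nn T → ∃ τ, Fm T τ ∧ ∀ a ≠ 0,
      CP d (cst m μ) T (fun i => τ a i.castSucc) (Wr d (Fin.cons S₀ (τ a)))

/-- Module LOCB. -/
def LocBStmt : Prop :=
  ∀ (t : Fin (m + 1) → K) (d : Fin (m + 1) → Derivation k K K) (U : Submodule k K), Fr t d →
    U.FG → JJ d U ≠ ⊥ → ∃ h ∈ alg U, h ≠ 0 ∧ ∀ T, Pnt U T → h ∉ nn T → ∀ S ∈ alg T, S ∉ nn T →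
      ∃ l : Fin (m + 1) → K, (∀ i, l i ∈ T) ∧
        ∀ a : k, a ≠ 0 → CB d T (Wr d (Fin.snoc (fun i => a • l i) S))

/-- Module BPF: general forms have no common zero. -/
structure BpfStmt : Prop where
  all : ∀ (t : Fin (m + 1) → K) (d : Fin (m + 1) → Derivation k K K) (U : Submodule k K)
    (I : Type) [Fintype I] (u : I → K), Fr t d → U.FG → span k (Set.range u) = U ^ (m + 2) →
    Gen fun l : Fin (m + 2) × I → k => ∀ T, Pnt U T → ∃ j, tup u l j ∉ nn T
  hyp : ∀ (t : Fin (m + 1) → K) (d : Fin (m + 1) → Derivation k K K) (U : Submodule k K)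
    (I : Type) [Fintype I] (u : I → K) (h : K), Fr t d → U.FG →
    span k (Set.range u) = U ^ (m + 2) → h ∈ alg U → h ≠ 0 →
    Gen fun l : Fin (m + 2) × I → k => ∀ T, Pnt U T → h ∈ nn T →
      ∃ j : Fin (m + 1), tup u l j.castSucc ∉ nn T

/-- Module CORE: from good linear families at all points to a general tuple. For each index `x`
there are modules `alg U * X x`, `P₁ x`, `Q x`; `ν` selects the numerators. -/
def CoreStmt : Prop :=
  ∀ (t : Fin (m + 1) → K) (d : Fin (m + 1) → Derivation k K K) (U : Submodule k K)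
    (I : Type) [Fintype I] (u : I → K) (i₀ : Fin (m + 2)) (e C : ℕ) (ν : Fin e → Fin (m + 1))
    (Ξ : Type) (X P₁ Q : Ξ → Submodule k K), Fr t d → U.FG →
    span k (Set.range u) = U ^ (m + 2) → (∀ x, (X x).FG) →
    (∀ x, WW d (alg U) * P₁ x ≤ alg U * X x) → (∀ x, alg U * P₁ x ≤ P₁ x) →
    (∀ x, alg U * Q x ≤ Q x) →
    (∀ T, Pnt U T → ∀ S₀ ∈ U ^ (m + 2), S₀ ∉ nn T →
      ∃ τ : (Fin (m + 2) → k) →ₗ[k] (Fin (m + 1) → K), Fm T τ ∧ ∀ a ≠ 0, ∃ x,
        Ld C T (fun i => τ a (ν i)) (alg U * X x)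
          (pr k (Wr d (Fin.insertNth i₀ S₀ (τ a))) * P₁ x ⊔ Q x)) →
    Gen fun l : Fin (m + 2) × I → k => ∀ T, Pnt U T → tup u l i₀ ∉ nn T → ∀ c : Fin e → k,
      (∀ i, tup u l (i₀.succAbove (ν i)) - c i • tup u l i₀ ∈ nn T) → ∃ x,
        Ld C T (fun i => tup u l (i₀.succAbove (ν i)) - c i • tup u l i₀) (alg U * X x)
          (pr k (Wr d (tup u l)) * P₁ x ⊔ Q x)

/-- Module BASE: the polar divisor misses the base points. -/
def BaseStmt : Prop :=
  ∀ (t : Fin (m + 1) → K) (d : Fin (m + 1) → Derivation k K K) (U : Submodule k K)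
    (I : Type) [Fintype I] (u : I → K), Fr t d → U.FG → JJ d U ≠ ⊥ →
    span k (Set.range u) = U ^ (m + 2) →
    Gen fun l : Fin (m + 2) × I → k => ∀ T, Pnt U T →
      (∀ i : Fin (m + 1), tup u l i.castSucc ∈ nn T) → CB d T (Wr d (tup u l))

/-- Module GEN. -/
def GenStmt : Prop :=
  Big k (m + 2) → ∀ (t : Fin (m + 1) → K) (d : Fin (m + 1) → Derivation k K K) (S : Finset K)
    (μ : ℕ) (V M₀ : Submodule k K), Fr t d → Alb d S μ V → M₀.FG →
    ∃ B s, Tup d S (cst m μ) V M₀ B s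

/-- Module LOW. -/
def LowStmt : Prop :=
  ∀ (E N : Type) [Field E] [Algebra k E] [Field N] [Algebra k N] (e C : ℕ) (T X : Submodule k E)
    (S₀ : E) (g : Fin e → E) (B : Subalgebra k N) (I : Ideal B) (Φ : Finset (E →ₐ[k] N)),
    T.FG → X.FG → (∀ z : E, ∃ a ∈ alg T, a ≠ 0 ∧ a * z ∈ alg T * X) → S₀ ∈ alg T → S₀ ≠ 0 →
    (∀ i, g i ∈ alg T) → AlgebraicIndependent k (fun i => g i / S₀) →
    FiniteDimensional (IntermediateField.adjoin k (Set.range fun i => g i / S₀)) E → I ≠ ⊤ →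
    (∀ φ ∈ Φ, ∀ t ∈ T, ∃ b ∈ I, (b : N) = φ t) →
    (∀ i, ∃ b ∈ I, ∀ φ ∈ Φ, (b : N) = φ (g i / S₀)) → Ld C T g (alg T * X) ⊥ →
    Φ.card * Field.finInsepDegree (IntermediateField.adjoin k (Set.range fun i => g i / S₀)) E ≤ C

/-- Module FINX: the covering of projective space. -/
structure FinXStmt : Prop where
  spn : ∀ (t : Fin (m + 1) → K) (d : Fin (m + 1) → Derivation k K K) (V : Submodule k K),
    Fr t d → WW d V ≠ ⊥ → ∃ M₀ : Submodule k K, M₀.FG ∧ Spn V M₀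
  cov : ∀ (t : Fin (m + 1) → K) (d : Fin (m + 1) → Derivation k K K) (S : Finset K) (C : ℕ)
    (V M₀ : Submodule k K) (B : Finset K) (s : Fin (m + 2) → K), Fr t d → WW d V ≠ ⊥ →
    Spn V M₀ → Tup d S C V M₀ B s → Cov k K (crd s) C

/-- Module RESI: the covering of the base by a horizontal divisor. -/
def ResiStmt : Prop :=
  ∀ (C : ℕ) (V : Submodule k K) (B : Finset K) (s : Fin (m + 2) → K) (w : DV k K), Big k C →
    span k (B : Set K) = V → (∀ σ ∈ B, σ ≠ 0) → (∀ j, s j ∈ V ^ (m + 2)) → s 0 ≠ 0 →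
    w.ord (s 0) = (m + 2 : ℕ) * w.ordS V → w.Ind (Fin.init (crd s) : Fin m → K) →
    (∀ g : Fin (m + 1) → K, (∀ i, g i ∈ w.fil 0) → ¬ w.Ind g) →
    (∀ σ ∈ B, w.Min V σ → ∀ T, Hyp V σ T → (1 : K) ∉ nn T ⊔ w.fil 1 →
      OnW C w T fun j => s j / σ ^ (m + 2)) → Alt C w (crd s)

/-- Module UNI: a uniformizer that is a polynomial in the coordinates. -/
def UniStmt : Prop :=
  ∀ (t g : Fin (m + 1) → K) (d : Fin (m + 1) → Derivation k K K) (w : DV k K), Fr t d →
    (∀ i, g i ∈ w.fil 0) →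
      ¬ w.Ind g ∧ (Dual d w g → ∃ P : MvPolynomial (Fin (m + 1)) k,
        w.ord (MvPolynomial.aeval g P) = 1)

/-- Module FINW: horizontal divisors. -/
def FinWStmt : Prop :=
  ∀ (t : Fin (m + 1) → K) (d : Fin (m + 1) → Derivation k K K) (S : Finset K) (C : ℕ)
    (V M₀ : Submodule k K) (B : Finset K) (s : Fin (m + 2) → K) (w : DV k K), Big k C → 0 < C →
    Fr t d → Tup d S C V M₀ B s → (∀ i, crd s i ∈ w.fil 0) → w.Ind (Fin.init (crd s) : Fin m → K) →
    ((∀ r ∈ S, w.ord r = 0) ∧ ∃ P : MvPolynomial (Fin (m + 1)) k,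
      w.ord (MvPolynomial.aeval (crd s) P) = 1) ∨ Alt C w (crd s)

end

/-- The tame projection theorem. -/
def TPStmt (k : Type) [Field k] (m C : ℕ) : Prop :=
  ∀ (K : Type) [Field K] [Algebra k K] (t : Fin (m + 1) → K) (d : Fin (m + 1) → Derivation k K K)
    (S : Finset K), Fr t d → (∀ r ∈ S, r ≠ 0) → ∃ (x : Fin m → K) (y : K), Out (k := k) S C x y

/-- Module OUT. -/
def OutStmt (k L : Type) [Field k] [Field L] [Algebra k L] : Prop :=
  ∀ m C : ℕ, Big k C → TPStmt k m C → B.PartA k L m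

variable {k K : Type} [Field k] [Field K] [Algebra k K] {m : ℕ}

theorem Big.mono {C C' : ℕ} (h : Big k C) (hC : C' ≤ C) : Big k C' :=
  fun j h0 hj => h j h0 (hj.trans hC)

theorem le_cst (m μ : ℕ) : m + 2 ≤ cst m μ := by
  have h1 : 0 < (2 * μ + 1) * (8 * (m + 2) ^ 2) ^ (m + 1) := by positivity
  calc m + 2 ≤ (m + 2) ^ 2 := Nat.le_self_pow two_ne_zero _
    _ ≤ _ := by rw [cst, mul_assoc]; exact Nat.le_mul_of_pos_right _ h1

theorem Pot.nonneg {d : Fin (m + 1) → Derivation k K K} {S : Finset K} {V : Submodule k K} {G : ℝ}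
    (h : Pot d S V G) : 0 ≤ G := by
  refine le_of_forall_pos_le_add fun ε hε => ?_
  obtain ⟨L, h1, h2⟩ := ((h ⊥ fg_bot ∅ (by simp) ε hε).and (eventually_gt_atTop 0)).exists
  have h3 : (0 : ℝ) < (L : ℝ) ^ (m + 1) := by positivity
  have h4 : 0 ≤ G + ε := nonneg_of_mul_nonneg_left ((Nat.cast_nonneg _).trans h1) h3
  linarith

theorem Hyp.le {V T : Submodule k K} {σ : K} (h : Hyp V σ T) : pr k σ * T ≤ V := by
  rw [h.eq]; exact mul_le_mul_right le_sup_right _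

theorem Hyp.finrank {V T : Submodule k K} {σ : K} (h : Hyp V σ T) (hV : V.FG) :
    (pr k σ * T).FG ∧ finrank k V ≤ finrank k (pr k σ * T :) + 1 := by
  have : Module.Finite k V := Module.Finite.iff_fg.2 hV
  have h1 : FiniteDimensional k (pr k σ * T :) := finiteDimensional_of_le h.le
  refine ⟨Module.Finite.iff_fg.1 h1, ?_⟩
  have h2 : V = pr k σ * T ⊔ span k {σ} := by
    rw [h.eq, Submodule.mul_sup, mul_one, sup_comm]; rfl
  have h3 := Submodule.finrank_add_le_finrank_add_finrank (pr k σ * T) (span k {σ})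
  rw [finrank_span_singleton h.ne, ← h2] at h3
  exact h3

/-- The Albanese algorithm. -/
theorem alb_of (h1 : StepStmt k K m) (h2 : StartStmt k K m) : AlbStmt k K m := by
  intro t d S hF hS
  obtain ⟨V₀, R, hfg, hR, hP, hW⟩ := h2 t d S hF hS
  have : Module.Finite k V₀ := Module.Finite.iff_fg.2 hfg
  have key : ∀ (j : ℕ) (V : Submodule k K) (G : ℝ), V ≤ V₀ → Pot d S V G → G < j * mu m →
      (finrank k V₀ : ℝ) + j ≤ finrank k V + R / 4 + 1 → ∃ V, Alb d S (mu m) V := by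
    intro j
    induction j with
    | zero => intro V G _ h3 h4 _; exact absurd h3.nonneg (by simpa using h4)
    | succ j ih =>
      intro V G hV h3 h4 h5
      have hf : V.FG := Module.Finite.iff_fg.1 (finiteDimensional_of_le hV)
      have hj : (0 : ℝ) ≤ j := Nat.cast_nonneg _
      push_cast at h4 h5
      by_cases hg : Good d S (mu m) V
      · exact ⟨V, hf, hW V hV (by linarith), h1.fin d S V G hf h3, hg⟩
      simp only [Good, not_forall] at hg
      obtain ⟨σ, T, hH, hb⟩ := hg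
      have h6 : (finrank k V : ℝ) ≤ finrank k (pr k σ * T :) + 1 := by
        exact_mod_cast (hH.finrank hf).2
      have h7 := hH.le.trans hV
      exact ih _ _ h7 (h1.step d S V T σ G _ hf hH (hW _ h7 (by linarith)) h3 hb) (by linarith)
        (by linarith)
  have h8 : (0 : ℝ) < kap m := by unfold kap; positivity
  refine key (⌊R / 4⌋₊ + 1) V₀ _ le_rfl hP ?_ ?_
  · have := Nat.lt_floor_add_one (R / 4)
    rw [mu]; push_cast; nlinarith
  · have := Nat.floor_le (show 0 ≤ R / 4 by positivity)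
    push_cast; linarith

/-- The tame projection theorem from the modules. -/
theorem tp_of (hk : Big k (cst m (mu m)))
    (h : ∀ (K : Type) [Field K] [Algebra k K], AlbStmt k K m ∧ GenStmt k K m ∧ FinXStmt k K m ∧
      FinWStmt k K m) : TPStmt k m (cst m (mu m)) := by
  intro K _ _ t d S hF hS
  obtain ⟨h1, h2, h3, h4⟩ := h K
  obtain ⟨V, hV⟩ := h1 t d S hF hS
  obtain ⟨M₀, hM, hs⟩ := h3.spn t d V hF hV.ne
  obtain ⟨B, s, hT⟩ := h2 (hk.mono (le_cst _ _)) t d S _ V M₀ hF hV hM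
  have e : (Fin.snoc (Fin.init (crd s)) (crd s (Fin.last m)) : Fin (m + 1) → K) = crd s :=
    Fin.snoc_init_self _
  refine ⟨Fin.init (crd s), crd s (Fin.last m), ?_, fun w hx hi hy => ?_⟩
  · rw [e]; exact h3.cov t d S _ V M₀ B s hF hV.ne hs hT
  · rw [e]
    exact h4 t d S _ V M₀ B s w hk ((Nat.succ_pos _).trans_le (le_cst _ _)) hF hT
      (fun i => Fin.lastCases hy hx i) hi

end Pool.Agent.MP_19ffc6_ag.Res.PA
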