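import Mathlib

/-! PROJECT RES, part A: semicontinuity of colengths in polynomial families. -/

namespace Pool.Agent.MP_19ffc6_ag.Res.Codim

open Algebra

section Closed

variable {k K : Type} (B : Type) [Field k] [CommRing K] [Algebra k K] [CommRing B] [Algebra k B]

/-- Polynomial families of elements of `M`, parametrised by the rational points of `B`. -/
def Fam (M : Submodule k K) : Submodule k ((B →ₐ[k] k) → K) :=
  Submodule.span k {F | ∃ b : B, ∃ m ∈ M, F = fun z => z b • m}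

variable {B}

lemma smul_mem_Fam {M : Submodule k K} (b : B) {m : K} (hm : m ∈ M) :
    (fun z => z b • m) ∈ Fam B M := Submodule.subset_span ⟨b, m, hm, rfl⟩

lemma const_mem_Fam {M : Submodule k K} {m : K} (hm : m ∈ M) : (fun _ => m) ∈ Fam B M := by
  simpa using smul_mem_Fam (1 : B) hm

lemma Fam_mono {M N : Submodule k K} (h : M ≤ N) : Fam B M ≤ Fam B N :=
  Submodule.span_mono fun _ ⟨b, m, hm, e⟩ => ⟨b, m, h hm, e⟩

lemma Fam_mul_le (M N : Submodule k K) : Fam B M * Fam B N ≤ Fam B (M * N) := by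
  rw [Fam, Fam, Submodule.span_mul_span, Submodule.span_le]
  rintro _ ⟨_, ⟨b, m, hm, rfl⟩, _, ⟨c, n, hn, rfl⟩, rfl⟩
  refine Submodule.subset_span ⟨b * c, m * n, Submodule.mul_mem_mul hm hn, funext fun z => ?_⟩
  simp [smul_smul, mul_comm]

lemma mul_mem_Fam {M N : Submodule k K} {F G : (B →ₐ[k] k) → K} (hF : F ∈ Fam B M)
    (hG : G ∈ Fam B N) : F * G ∈ Fam B (M * N) := Fam_mul_le M N (Submodule.mul_mem_mul hF hG)

lemma pow_mem_Fam {M : Submodule k K} {F : (B →ₐ[k] k) → K} (hF : F ∈ Fam B M) (n : ℕ) :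
    F ^ n ∈ Fam B (M ^ n) := by
  induction n with
  | zero => rw [pow_zero, pow_zero]; exact const_mem_Fam (Submodule.one_le.1 le_rfl)
  | succ n ih => rw [pow_succ, pow_succ]; exact mul_mem_Fam ih hF

lemma smul_fam {M : Submodule k K} {F : (B →ₐ[k] k) → K} (hF : F ∈ Fam B M) (b : B) :
    (fun z => z b • F z) ∈ Fam B M := by
  have := mul_mem_Fam (smul_mem_Fam b (Submodule.mem_one.2 ⟨1, map_one _⟩)) hF
  rw [one_mul] at this
  have e : (fun z : B →ₐ[k] k => z b • F z) = (fun z => z b • (1 : K)) * F := by ext z; simp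
  rwa [e]

lemma apply_mem_of_Fam {M : Submodule k K} {F : (B →ₐ[k] k) → K} (hF : F ∈ Fam B M)
    (z : B →ₐ[k] k) : F z ∈ M := by
  induction hF using Submodule.span_induction with
  | mem F h => obtain ⟨b, m, hm, rfl⟩ := h; exact M.smul_mem _ hm
  | zero => exact zero_mem _
  | add F G _ _ h1 h2 => exact add_mem h1 h2
  | smul c F _ h => exact M.smul_mem c h

variable (k K B) in
/-- Families as an algebra over the parameter ring. -/
@[reducible] noncomputable def algFam : Algebra B ((B →ₐ[k] k) → K) :=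
  (RingHom.pi fun z : B →ₐ[k] k => (algebraMap k K).comp z.toRingHom).toAlgebra

attribute [local instance] algFam

lemma smul_app (b : B) (F : (B →ₐ[k] k) → K) (z : B →ₐ[k] k) : (b • F) z = z b • F z :=
  (Algebra.smul_def (z b) (F z)).symm

lemma towerFam : IsScalarTower k B ((B →ₐ[k] k) → K) :=
  .of_algebraMap_eq fun a => funext fun z => (congrArg (algebraMap k K) (z.commutes a)).symm

attribute [local instance] towerFam

/-- `Fam` as a module over the parameter ring. -/
noncomputable def FamB (M : Submodule k K) : Submodule B ((B →ₐ[k] k) → K) where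
  carrier := Fam B M
  add_mem' := add_mem
  zero_mem' := zero_mem _
  smul_mem' b F hF := by
    have e : b • F = fun z => z b • F z := funext (smul_app b F)
    rw [e]; exact smul_fam hF b

/-- Families with prescribed values. -/
noncomputable def Ev (X : (B →ₐ[k] k) → Submodule k K) : Submodule B ((B →ₐ[k] k) → K) where
  carrier := {F | ∀ z, F z ∈ X z}
  add_mem' h1 h2 z := add_mem (h1 z) (h2 z)
  zero_mem' _ := zero_mem _
  smul_mem' b F hF z := by rw [smul_app]; exact Submodule.smul_mem _ _ (hF z)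

/-- The values at a point. -/
noncomputable def val (z : B →ₐ[k] k) (X : Submodule B ((B →ₐ[k] k) → K)) : Submodule k K :=
  (X.restrictScalars k).map (LinearMap.proj z)

lemma mem_val {z : B →ₐ[k] k} {X : Submodule B ((B →ₐ[k] k) → K)} {m : K} :
    m ∈ val z X ↔ ∃ F ∈ X, F z = m := Iff.rfl

lemma Ev_mono {M N : (B →ₐ[k] k) → Submodule k K} (h : ∀ z, M z ≤ N z) : Ev M ≤ Ev N :=
  fun _ hF z => h z (hF z)

lemma FamB_mul {M N P : Submodule k K} (h : M * N ≤ P) {X Y : Submodule B ((B →ₐ[k] k) → K)}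
    (hX : X ≤ FamB M) (hY : Y ≤ FamB N) : X * Y ≤ FamB P :=
  Submodule.mul_le.2 fun _ hF _ hG => Fam_mono h (mul_mem_Fam (hX hF) (hY hG))

lemma Ev_mul {M N : (B →ₐ[k] k) → Submodule k K} {X Y : Submodule B ((B →ₐ[k] k) → K)}
    (hX : X ≤ Ev M) (hY : Y ≤ Ev N) : X * Y ≤ Ev fun z => M z * N z :=
  Submodule.mul_le.2 fun _ hF _ hG z => Submodule.mul_mem_mul (hX hF z) (hY hG z)

lemma Ev_pow {M : (B →ₐ[k] k) → Submodule k K} {X : Submodule B ((B →ₐ[k] k) → K)}
    (hX : X ≤ Ev M) (n : ℕ) : X ^ n ≤ Ev fun z => M z ^ n := by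
  induction n with
  | zero =>
    rw [pow_zero, Submodule.one_le]
    intro z
    exact Submodule.one_le.1 (pow_zero (M z)).ge
  | succ n ih => simp only [pow_succ]; exact Ev_mul ih hX

lemma val_mul {z : B →ₐ[k] k} {M N : Submodule k K} {X Y : Submodule B ((B →ₐ[k] k) → K)}
    (hX : M ≤ val z X) (hY : N ≤ val z Y) : M * N ≤ val z (X * Y) :=
  Submodule.mul_le.2 fun _ ha _ hb => by
    obtain ⟨F, hF, rfl⟩ := mem_val.1 (hX ha)
    obtain ⟨G, hG, rfl⟩ := mem_val.1 (hY hb)
    exact mem_val.2 ⟨F * G, Submodule.mul_mem_mul hF hG, rfl⟩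

lemma val_pow {z : B →ₐ[k] k} {M : Submodule k K} {X : Submodule B ((B →ₐ[k] k) → K)}
    (hX : M ≤ val z X) (n : ℕ) : M ^ n ≤ val z (X ^ n) := by
  induction n with
  | zero =>
    rw [pow_zero, pow_zero, Submodule.one_le]
    exact mem_val.2 ⟨1, Submodule.one_le.1 le_rfl, rfl⟩
  | succ n ih => rw [pow_succ, pow_succ]; exact val_mul ih hX

lemma val_mono (z : B →ₐ[k] k) {X Y : Submodule B ((B →ₐ[k] k) → K)} (h : X ≤ Y) :
    val z X ≤ val z Y := fun _ hm => by
  obtain ⟨F, hF, rfl⟩ := mem_val.1 hm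
  exact mem_val.2 ⟨F, h hF, rfl⟩

lemma sub_const_mem (z : B →ₐ[k] k) {M : Submodule k K} {F : (B →ₐ[k] k) → K} (hF : F ∈ Fam B M) :
    F - (fun _ => F z) ∈ RingHom.ker z • (FamB M : Submodule B ((B →ₐ[k] k) → K)) := by
  induction hF using Submodule.span_induction with
  | mem F h =>
    obtain ⟨b, m, hm, rfl⟩ := h
    have e : ((fun y : B →ₐ[k] k => y b • m) - fun _ => z b • m) =
        (b - algebraMap k B (z b)) • fun _ => m := by
      ext y; simp [smul_app, sub_smul]
    rw [e]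
    exact Submodule.smul_mem_smul (by simp [RingHom.mem_ker]) (const_mem_Fam hm)
  | zero => exact (sub_self (0 : (B →ₐ[k] k) → K)).symm ▸ zero_mem _
  | add F G _ _ h1 h2 =>
    have e : (F + G - fun _ => (F + G) z) = (F - fun _ => F z) + (G - fun _ => G z) := by
      ext y; simp; ring
    rw [e]; exact add_mem h1 h2
  | smul c F _ h =>
    have e : (c • F - fun _ => (c • F) z) = c • (F - fun _ => F z) := by ext y; simp [smul_sub]
    rw [e]; exact Submodule.smul_of_tower_mem _ c h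

/-- The ideal of the point with coordinates `c`, up to multiplication by the coordinate ring. -/
def nn {ι : Type} (T : ι → K) (c : ι → k) : Submodule k K :=
  Submodule.span k (Set.range fun i => T i - algebraMap k K (c i))

/-- Semicontinuity: a complement of `U z₀` in `M` is a complement of `U z` for `z` near `z₀`. -/
theorem closed {ι : Type} [Finite ι] (T : ι → K) (ξ : ι → B) (M₀ : Submodule k K) (hM : M₀.FG)
    (L : ℕ) (G : Set ((B →ₐ[k] k) → K))
    (hG : ∀ g ∈ G, g ∈ Fam B ((adjoin k (Set.range T)).toSubmodule * M₀))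
    (E : Submodule k K) (hE : E ≤ (adjoin k (Set.range T)).toSubmodule * M₀) (z₀ : B →ₐ[k] k)
    (h₀ : (adjoin k (Set.range T)).toSubmodule * M₀ ≤
      (adjoin k (Set.range T)).toSubmodule * Submodule.span k ((· z₀) '' G) ⊔
        nn T (z₀ ∘ ξ) ^ L * ((adjoin k (Set.range T)).toSubmodule * M₀) ⊔ E) :
    ∃ f : B, z₀ f ≠ 0 ∧ ∀ z : B →ₐ[k] k, z f ≠ 0 →
      (adjoin k (Set.range T)).toSubmodule * M₀ ≤
        (adjoin k (Set.range T)).toSubmodule * Submodule.span k ((· z) '' G) ⊔
          nn T (z ∘ ξ) ^ L * ((adjoin k (Set.range T)).toSubmodule * M₀) ⊔ E := by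
  set A := (adjoin k (Set.range T)).toSubmodule with hA
  have hAA : A * A ≤ A := Submodule.mul_le.2 fun _ ha _ hb =>
    (adjoin k (Set.range T)).mul_mem ha hb
  have hAM : A * (A * M₀) ≤ A * M₀ := by rw [← mul_assoc]; exact mul_le_mul_left hAA _
  have h1A : (1 : K) ∈ A := one_mem (adjoin k (Set.range T))
  have hM0 : M₀ ≤ A * M₀ := fun m hm => one_mul m ▸ Submodule.mul_mem_mul h1A hm
  let t : ι → (B →ₐ[k] k) → K := fun i z => T i - algebraMap k K (z (ξ i))
  let 𝔱 : Submodule B ((B →ₐ[k] k) → K) := Submodule.span B (Set.range t)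
  let Q : Submodule B ((B →ₐ[k] k) → K) := Ev fun z =>
    A * Submodule.span k ((· z) '' G) ⊔ nn T (z ∘ ξ) ^ L * (A * M₀) ⊔ E
  have ht : ∀ i, t i = (fun _ => T i) - ξ i • 1 := fun i => funext fun z => by
    simp [t, smul_app, Algebra.algebraMap_eq_smul_one]
  have h𝔱A : 𝔱 ≤ FamB A := Submodule.span_le.2 (by
    rintro _ ⟨i, rfl⟩
    rw [ht]
    exact (FamB A).sub_mem (const_mem_Fam (subset_adjoin ⟨i, rfl⟩))
      ((FamB A).smul_mem _ (const_mem_Fam h1A)))
  have h𝔱p : ∀ j, 𝔱 ^ j ≤ FamB A := fun j => by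
    induction j with
    | zero => rw [pow_zero, Submodule.one_le]; exact const_mem_Fam h1A
    | succ j ih => rw [pow_succ]; exact FamB_mul hAA ih h𝔱A
  have hEvF : ∀ N : Submodule k K, (FamB N : Submodule B _) ≤ Ev fun _ => N :=
    fun N F hF z => apply_mem_of_Fam hF z
  have hvF : ∀ N : Submodule k K, N ≤ val z₀ (FamB N) := fun N m hm =>
    mem_val.2 ⟨fun _ => m, const_mem_Fam hm, rfl⟩
  have hLQ : 𝔱 ^ L * FamB (A * M₀) ≤ Q := by
    refine (Ev_mul (Ev_pow (M := fun z => nn T (z ∘ ξ)) (Submodule.span_le.2 ?_) L) (hEvF _)).trans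
      (Ev_mono fun z => le_sup_right.trans le_sup_left)
    rintro _ ⟨i, rfl⟩ z
    exact Submodule.subset_span ⟨i, rfl⟩
  -- every constant is the value of a family in `Q`
  have hGE : Submodule.span B G ≤ Ev fun z => Submodule.span k ((· z) '' G) :=
    Submodule.span_le.2 fun g hg z => Submodule.subset_span (Set.mem_image_of_mem (· z) hg)
  have hGQ : FamB A * Submodule.span B G ≤ Q :=
    (Ev_mul (hEvF A) hGE).trans (Ev_mono fun z => le_sup_of_le_left le_sup_left)
  have hGF : Submodule.span B G ≤ FamB (A * M₀) := Submodule.span_le.2 hG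
  have hGv : Submodule.span k ((· z₀) '' G) ≤ val z₀ (Submodule.span B G) :=
    Submodule.span_le.2 (by
      rintro _ ⟨g, hg, rfl⟩; exact mem_val.2 ⟨g, Submodule.subset_span hg, rfl⟩)
  have htv : nn T (z₀ ∘ ξ) ≤ val z₀ 𝔱 := Submodule.span_le.2 (by
    rintro _ ⟨i, rfl⟩; exact mem_val.2 ⟨t i, Submodule.subset_span ⟨i, rfl⟩, rfl⟩)
  have hEv : E ≤ val z₀ (FamB (A * M₀) ⊓ Q) := fun m hm => mem_val.2 ⟨fun _ => m,
    ⟨const_mem_Fam (hE hm), fun z => Submodule.mem_sup_right hm⟩, rfl⟩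
  have hval : A * M₀ ≤ val z₀ (FamB (A * M₀) ⊓ Q) :=
    h₀.trans (sup_le (sup_le
      ((val_mul (hvF A) hGv).trans (val_mono _ (le_inf (FamB_mul hAM le_rfl hGF) hGQ)))
      ((val_mul (val_pow htv L) (hvF _)).trans
        (val_mono _ (le_inf (FamB_mul hAM (h𝔱p L) le_rfl) hLQ)))) hEv)
  have hgen : ∀ {N : Submodule k K} {X : Submodule B ((B →ₐ[k] k) → K)},
      (∀ m ∈ N, (fun _ => m) ∈ X) → FamB N ≤ X := fun {N X} h F hF => by
    refine (Submodule.span_le (p := X.restrictScalars k)).2 ?_ hF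
    rintro _ ⟨b, m, hm, rfl⟩
    have e : (fun z : B →ₐ[k] k => z b • m) = b • fun _ => m := funext fun z => by rw [smul_app]
    rw [e]; exact X.smul_mem b (h m hm)
  have h2 : FamB (A * M₀) ≤ Q ⊔ RingHom.ker z₀ • FamB (A * M₀) := hgen fun m hm => by
    obtain ⟨F, ⟨hF, hFQ⟩, rfl⟩ := mem_val.1 (hval hm)
    have := (Q ⊔ RingHom.ker z₀ • FamB (A * M₀)).sub_mem (Submodule.mem_sup_left hFQ)
      (Submodule.mem_sup_right (sub_const_mem z₀ hF))
    rwa [sub_sub_cancel] at this
  -- Taylor expansion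
  have hS : (FamB A : Submodule B _) ≤ 1 ⊔ 𝔱 * FamB A := hgen fun a ha => by
    induction ha using adjoin_induction with
    | mem x hx =>
      obtain ⟨i, rfl⟩ := hx
      rw [eq_add_of_sub_eq (ht i).symm, add_comm]
      refine Submodule.add_mem_sup (Submodule.smul_mem _ _ (Submodule.one_le.1 le_rfl)) ?_
      rw [← mul_one (t i)]
      exact Submodule.mul_mem_mul (Submodule.subset_span ⟨i, rfl⟩) (const_mem_Fam h1A)
    | algebraMap c =>
      exact Submodule.mem_sup_left (Submodule.mem_one.2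
        ⟨algebraMap k B c, (IsScalarTower.algebraMap_apply k B _ c).symm⟩)
    | add x y _ _ hx hy => exact add_mem hx hy
    | mul x y hx' hy' hx hy =>
      have hle : (1 ⊔ 𝔱 * FamB A) * (1 ⊔ 𝔱 * FamB A) ≤ 1 ⊔ 𝔱 * FamB A := by
        rw [Submodule.sup_mul, one_mul, mul_assoc]
        refine sup_le le_rfl (le_sup_of_le_right (mul_le_mul_right (FamB_mul hAA le_rfl ?_) _))
        exact sup_le (pow_zero 𝔱 ▸ h𝔱p 0) (FamB_mul hAA h𝔱A le_rfl)
      exact hle (Submodule.mul_mem_mul hx hy)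
  have hP : FamB (A * M₀) ≤ (FamB A : Submodule B _) * FamB M₀ := hgen fun m hm => by
    refine Submodule.mul_induction_on hm (fun a ha b hb => ?_) fun _ _ => add_mem
    exact Submodule.mul_mem_mul (const_mem_Fam ha) (const_mem_Fam hb)
  have hT : ∀ j, ∃ N : Submodule B ((B →ₐ[k] k) → K), N.FG ∧ N ≤ FamB (A * M₀) ∧
      FamB (A * M₀) ≤ N ⊔ 𝔱 ^ j * FamB (A * M₀) := fun j => by
    induction j with
    | zero => exact ⟨⊥, Submodule.fg_bot, bot_le, by simp⟩
    | succ j ih =>
      obtain ⟨N, h1, h2, h3⟩ := ih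
      have hfg : (FamB M₀ : Submodule B _).FG := by
        obtain ⟨s, hs, rfl⟩ := Submodule.fg_def.1 hM
        refine Submodule.fg_def.2 ⟨_, hs.image fun m _ => m, le_antisymm
          (Submodule.span_le.2 ?_) (hgen fun m hm => ?_)⟩
        · rintro _ ⟨m, hm, rfl⟩; exact const_mem_Fam (Submodule.subset_span hm)
        · induction hm using Submodule.span_induction with
          | mem x hx => exact Submodule.subset_span ⟨x, hx, rfl⟩
          | zero => exact zero_mem _
          | add x y _ _ hx hy => exact add_mem hx hy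
          | smul c x _ hx => exact Submodule.smul_of_tower_mem _ c hx
      refine ⟨N ⊔ 𝔱 ^ j * FamB M₀, h1.sup
        (((Submodule.fg_span (Set.finite_range t)).pow j).mul hfg),
        sup_le h2 (FamB_mul le_rfl (h𝔱p j) le_rfl), h3.trans (sup_le (le_sup_of_le_left le_sup_left)
          ((mul_le_mul_right (hP.trans (mul_le_mul_left hS _)) _).trans ?_))⟩
      rw [Submodule.sup_mul, one_mul, Submodule.mul_sup, mul_assoc, ← mul_assoc, ← pow_succ]
      exact sup_le (le_sup_of_le_left le_sup_right) (le_sup_of_le_right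
        (mul_le_mul_right (FamB_mul le_rfl le_rfl le_rfl) _))
  obtain ⟨N, hN1, hN2, hN3⟩ := hT L
  obtain ⟨r, hr, hrP⟩ := Submodule.exists_sub_one_mem_and_smul_le_of_fg_of_le_sup
    (I := RingHom.ker z₀) (N := Q) hN1 hN2 (h2.trans (sup_le le_sup_left (by
      refine (smul_mono_right _ (hN3.trans (sup_le_sup_left hLQ N))).trans ?_
      rw [Submodule.smul_sup]
      exact sup_le le_sup_right (le_sup_of_le_left Submodule.smul_le_right))))
  refine ⟨r, ?_, fun z hz m hm => ?_⟩
  · rw [RingHom.mem_ker, map_sub, map_one, sub_eq_zero] at hr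
    rw [hr]; exact one_ne_zero
  · have := hrP (Submodule.smul_mem_pointwise_smul _ r _ (const_mem_Fam hm)) z
    rwa [smul_app, Submodule.smul_mem_iff _ hz] at this

end Closed

end Pool.Agent.MP_19ffc6_ag.Res.Codim
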