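import Mathlib
import Pool.Agent.MP_19ffc6_ag.Res.ASpec
import Pool.Agent.MP_19ffc6_ag.Res.Codim
import Pool.Agent.MP_19ffc6_ag.Res.Closed

/-! PROJECT RES, part A: rational points of a chart, general tuples, semicontinuity. -/

namespace Pool.Agent.MP_19ffc6_ag.Res.PA.Core

open Submodule MvPolynomial

variable {k K : Type} [Field k] [Field K] [Algebra k K] {m : ℕ} {U T : Submodule k K}

/-- The coordinate ring of a chart. -/
abbrev AU (U : Submodule k K) : Subalgebra k K := Algebra.adjoin k (U : Set K)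

/-- The maximal ideal of a rational point. -/
def Np (x : AU U →ₐ[k] k) : Submodule k K :=
  (LinearMap.ker x.toLinearMap).map (AU U).val.toLinearMap

/-- The hyperplane of a rational point. -/
def Tp (x : AU U →ₐ[k] k) : Submodule k K := U ⊓ Np x

theorem mem_Np {x : AU U →ₐ[k] k} {a : AU U} : (a : K) ∈ Np x ↔ x a = 0 :=
  ⟨fun ⟨_, hb, e⟩ => Subtype.ext e ▸ hb, fun h => ⟨a, h, rfl⟩⟩

theorem le_alg (U : Submodule k K) : U ≤ alg U := fun _ h => Algebra.subset_adjoin h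

theorem alg_mul_alg (U : Submodule k K) : alg U * alg U ≤ alg U :=
  mul_le.2 fun _ ha _ hb => (AU U).mul_mem ha hb

theorem pow_le_alg (U : Submodule k K) (j : ℕ) : U ^ j ≤ alg U := by
  induction j with
  | zero => rw [pow_zero]; exact one_le.2 (Num.one_mem_alg U)
  | succ j ih => rw [pow_succ]; exact (mul_le_mul' ih (le_alg U)).trans (alg_mul_alg U)

theorem alg_one_sup (T : Submodule k K) : alg (1 ⊔ T) = alg T := by
  refine le_antisymm (fun _ h => ?_) fun _ h => Algebra.adjoin_mono (fun _ h => mem_sup_right h) h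
  have h1 : 1 ⊔ T ≤ alg T := sup_le (one_le.2 (Num.one_mem_alg T)) (le_alg T)
  exact Algebra.adjoin_le (S := AU T) (fun _ h => h1 h) h

theorem pnt_alg (h : Pnt U T) : alg T = alg U := by rw [h.1, alg_one_sup]

theorem pnt_one (h : Pnt U T) : (1 : K) ∈ U := h.1 ▸ mem_sup_left (one_le.1 le_rfl)

theorem pnt_le (h : Pnt U T) : T ≤ U := h.1 ▸ le_sup_right

theorem pnt_JJ (h : Pnt U T) (d : Fin (m + 1) → Derivation k K K) : JJ d T = JJ d U := by
  rw [h.1, sup_comm, JJ_sup_one]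

theorem sub_mem_Tp (h1 : (1 : K) ∈ U) (x : AU U →ₐ[k] k) {a : AU U} (ha : (a : K) ∈ U) :
    (a : K) - algebraMap k K (x a) ∈ Tp x :=
  ⟨U.sub_mem ha (by rw [Algebra.algebraMap_eq_smul_one]; exact U.smul_mem _ h1),
    (mem_Np (a := a - algebraMap k _ (x a))).2 (by simp)⟩

theorem sup_Tp (h1 : (1 : K) ∈ U) (x : AU U →ₐ[k] k) : U = 1 ⊔ Tp x := by
  refine le_antisymm (fun a ha => ?_) (sup_le (one_le.2 h1) inf_le_left)
  have := add_mem_sup (mem_one.2 ⟨x ⟨a, le_alg U ha⟩, rfl⟩) (sub_mem_Tp h1 x (a := ⟨a, le_alg U ha⟩) ha)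
  rwa [add_sub_cancel] at this

theorem alg_Tp (h1 : (1 : K) ∈ U) (x : AU U →ₐ[k] k) : alg (Tp x) = alg U := by
  conv_rhs => rw [sup_Tp h1 x, alg_one_sup]

theorem nn_Tp (h1 : (1 : K) ∈ U) (x : AU U →ₐ[k] k) : nn (Tp x) = Np x := by
  have h : nn (Tp x) ≤ Np x := by
    rw [nn, alg_Tp h1]
    refine mul_le.2 fun a ha b hb => ?_
    obtain ⟨a, ha', rfl⟩ := ha.2
    exact (mem_Np (a := a * ⟨b, hb⟩)).2 (by rw [map_mul, show x a = 0 from ha', zero_mul])
  refine le_antisymm h ?_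
  rintro _ ⟨a, ha, rfl⟩
  obtain ⟨_, hc, n, hn, e⟩ := mem_sup.1 (Num.alg_le (Tp x) ((alg_Tp h1 x).ge a.2))
  obtain ⟨c, rfl⟩ := mem_one.1 hc
  obtain ⟨n, hn', rfl⟩ := h hn
  have e' : algebraMap k _ c + n = a := Subtype.ext e
  have h2 : x a = 0 := ha
  rw [← e', map_add, show x n = 0 from hn', add_zero, AlgHom.commutes] at h2
  rw [← e', show c = 0 from h2, map_zero, zero_add]
  exact hn

theorem mem_nn_Tp (h1 : (1 : K) ∈ U) (x : AU U →ₐ[k] k) (a : AU U) :
    (a : K) ∈ nn (Tp x) ↔ x a = 0 := by rw [nn_Tp h1, mem_Np]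

theorem pnt_Tp (h1 : (1 : K) ∈ U) (x : AU U →ₐ[k] k) : Pnt U (Tp x) :=
  ⟨sup_Tp h1 x, fun h => one_ne_zero ((map_one x).symm.trans ((mem_nn_Tp h1 x 1).1 h))⟩

theorem finiteType_AU (hU : U.FG) : Algebra.FiniteType k (AU U) := by
  obtain ⟨s, rfl⟩ := hU
  rw [AU, Algebra.adjoin_span]
  exact (Subalgebra.fg_iff_finiteType _).1 (Subalgebra.fg_adjoin_finset s)

theorem pnt_pt [IsAlgClosed k] (h : Pnt U T) (hU : U.FG) :
    ∃ x : AU U →ₐ[k] k, T = Tp x := by
  have := finiteType_AU hU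
  let I : Ideal (AU U) :=
    { carrier := {a | (a : K) ∈ nn T}
      add_mem' := fun ha hb => (nn T).add_mem ha hb
      zero_mem' := (nn T).zero_mem
      smul_mem' := fun c a ha => by
        have h2 : alg U * nn T ≤ nn T := by
          rw [nn, pnt_alg h, mul_left_comm]; exact mul_le_mul_right (alg_mul_alg U) _
        exact h2 (mul_mem_mul c.2 ha) }
  obtain ⟨x, hx⟩ := Codim.exists_pt (k := k) I ((Ideal.ne_top_iff_one _).2 h.2)
  have h3 : ∀ a (ha : a ∈ T), x ⟨a, le_alg U (pnt_le h ha)⟩ = 0 := fun a ha =>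
    hx _ (mul_one a ▸ mul_mem_mul ha (Num.one_mem_alg T) : a ∈ nn T)
  refine ⟨x, le_antisymm (fun a ha => ⟨pnt_le h ha, (mem_Np (a := ⟨a, _⟩)).2 (h3 a ha)⟩) ?_⟩
  rintro _ ⟨ha, a, ha', rfl⟩
  obtain ⟨_, hc, n, hn, e⟩ := mem_sup.1 (h.1.le ha)
  obtain ⟨c, rfl⟩ := mem_one.1 hc
  have e' : algebraMap k (AU U) c + ⟨n, le_alg U (pnt_le h hn)⟩ = a := Subtype.ext e
  have h2 : x a = 0 := ha'
  rw [← e', map_add, h3 n hn, add_zero, AlgHom.commutes] at h2
  rw [← e', show c = 0 from h2, map_zero, zero_add]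
  exact hn

theorem trdeg_quot {A : Type} [CommRing A] [IsDomain A] [Algebra k A] {n : ℕ}
    (h : Algebra.trdeg k A ≤ n) (σ : Type) [Fintype σ] (p : Ideal (MvPolynomial σ A)) :
    Algebra.trdeg k (MvPolynomial σ A ⧸ p) ≤ (n + Fintype.card σ : ℕ) := by
  refine (trdeg_le_of_surjective (Ideal.Quotient.mkₐ k p) (Ideal.Quotient.mkₐ_surjective k p)).trans ?_
  rw [← trdeg_add_eq k A (A := MvPolynomial σ A), MvPolynomial.trdeg_of_isDomain, Cardinal.lift_id,
    Cardinal.mk_fintype, Nat.cast_add]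
  exact add_le_add_left h _

theorem trdeg_AU {t : Fin (m + 1) → K} {d : Fin (m + 1) → Derivation k K K} (h : Fr t d)
    (U : Submodule k K) : Algebra.trdeg k (AU U) ≤ (m + 1 : ℕ) :=
  (trdeg_le_of_injective (AU U).val Subtype.val_injective).trans h.trdeg.le

theorem gen_and {J : Type} {P Q : (J → k) → Prop} (hP : Gen P) (hQ : Gen Q) :
    Gen fun l => P l ∧ Q l := by
  obtain ⟨D, h1, h2⟩ := hP
  obtain ⟨D', h3, h4⟩ := hQ
  refine ⟨D * D', mul_ne_zero h1 h3, fun l hl => ?_⟩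
  rw [map_mul, mul_ne_zero_iff] at hl
  exact ⟨h2 l hl.1, h4 l hl.2⟩

theorem gen_mono {J : Type} {P Q : (J → k) → Prop} (hP : Gen P) (h : ∀ l, P l → Q l) : Gen Q :=
  let ⟨D, h1, h2⟩ := hP
  ⟨D, h1, fun l hl => h l (h2 l hl)⟩

theorem gen_of_forall {J : Type} {P : (J → k) → Prop} (h : ∀ l, P l) : Gen P :=
  ⟨1, one_ne_zero, fun l _ => h l⟩


theorem tup_mem {I : Type} [Fintype I] {u : I → K} {N : Submodule k K} (hu : ∀ r, u r ∈ N)
    (l : Fin (m + 2) × I → k) (j : Fin (m + 2)) : tup u l j ∈ N :=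
  sum_mem fun r _ => N.smul_mem _ (hu r)

/-- The coefficients of a tuple with a distinguished entry. -/
def ins {I E : Type} (i₀ : Fin (m + 2)) (η : I → E) (lam : Fin (m + 1) × I → E) :
    Fin (m + 2) × I → E :=
  fun p => (Fin.insertNth i₀ (η p.2) fun i => lam (i, p.2) : Fin (m + 2) → E) p.1

theorem ins_self {I E : Type} (i₀ : Fin (m + 2)) (η : I → E) (lam : Fin (m + 1) × I → E) (r : I) :
    ins i₀ η lam (i₀, r) = η r := by simp [ins]

theorem ins_succ {I E : Type} (i₀ : Fin (m + 2)) (η : I → E) (lam : Fin (m + 1) × I → E)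
    (i : Fin (m + 1)) (r : I) : ins i₀ η lam (i₀.succAbove i, r) = lam (i, r) := by simp [ins]

theorem ins_ext {I E : Type} (i₀ : Fin (m + 2)) {f g : Fin (m + 2) × I → E}
    (h1 : ∀ r, f (i₀, r) = g (i₀, r)) (h2 : ∀ i r, f (i₀.succAbove i, r) = g (i₀.succAbove i, r)) :
    f = g := by
  funext ⟨j, r⟩
  induction j using Fin.succAboveCases i₀
  exacts [h1 r, h2 _ r]

theorem tup_ins {I : Type} [Fintype I] (u : I → K) (i₀ : Fin (m + 2)) (η : I → k)
    (lam : Fin (m + 1) × I → k) : tup u (ins i₀ η lam) =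
      Fin.insertNth i₀ (∑ r, η r • u r) fun i => ∑ r, lam (i, r) • u r := by
  rw [Fin.eq_insertNth_iff]
  exact ⟨by simp [tup, ins_self], funext fun i => by simp [Fin.removeNth, tup, ins_succ]⟩

theorem exists_lift {I ν E : Type} [Fintype I] [Fintype ν] [AddCommGroup E] [Module k E]
    [Module.Free k E] (u : I → K) (τ : E →ₗ[k] (ν → K))
    (hτ : ∀ a i, τ a i ∈ span k (Set.range u)) :
    ∃ τ' : E →ₗ[k] (ν × I → k), ∀ a i, ∑ r, τ' a (i, r) • u r = τ a i := by
  let Λ : (ν × I → k) →ₗ[k] (ν → K) :=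
    { toFun := fun l i => ∑ r, l (i, r) • u r
      map_add' := fun l l' => funext fun i => by simp [add_smul, Finset.sum_add_distrib]
      map_smul' := fun c l => funext fun i => by simp [Finset.smul_sum, smul_smul] }
  have h : ∀ a, τ a ∈ LinearMap.range Λ := fun a => by
    choose c hc using fun i => (mem_span_range_iff_exists_fun k).1 (hτ a i)
    exact ⟨fun p => c p.1 p.2, funext hc⟩
  obtain ⟨τ', e⟩ := Module.projective_lifting_property Λ.rangeRestrict (τ.codRestrict _ h)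
    Λ.surjective_rangeRestrict
  exact ⟨τ', fun a => congrFun (congrArg Subtype.val (LinearMap.congr_fun e a))⟩

/-- An open condition on points and tuples that holds on a large linear family over every point
holds everywhere for a general tuple. -/
theorem gen_of [IsAlgClosed k] {t : Fin (m + 1) → K} {d : Fin (m + 1) → Derivation k K K}
    (hF : Fr t d) (hU : U.FG) {I : Type} [Fintype I] {u : I → K} (hu : ∀ r, u r ∈ AU U)
    (i₀ : Fin (m + 2)) (h : AU U) (PP : Submodule k K → (Fin (m + 2) → K) → Prop)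
    (hcone : ∀ (x : AU U →ₐ[k] k) (S : K) (s : Fin (m + 1) → K) (c : k), c ≠ 0 →
      PP (Tp x) (Fin.insertNth i₀ S (c • s)) → PP (Tp x) (Fin.insertNth i₀ S s))
    (hopen : ∀ (x₀ : AU U →ₐ[k] k) (l₀ : Fin (m + 2) × I → k), (h : K) ∉ nn (Tp x₀) →
      tup u l₀ i₀ ∉ nn (Tp x₀) → PP (Tp x₀) (tup u l₀) →
      ∃ f : MvPolynomial (Fin (m + 2) × I) (AU U), aevalTower x₀ l₀ f ≠ 0 ∧
        ∀ x l, aevalTower x l f ≠ 0 → PP (Tp x) (tup u l))
    (hτ : ∀ x : AU U →ₐ[k] k, (h : K) ∉ nn (Tp x) → ∀ S ∈ span k (Set.range u), S ∉ nn (Tp x) →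
      ∃ τ : (Fin (m + 2) → k) →ₗ[k] (Fin (m + 1) → K), (∀ a i, τ a i ∈ span k (Set.range u)) ∧
        ∀ a ≠ 0, PP (Tp x) (Fin.insertNth i₀ S (τ a))) :
    Gen fun l : Fin (m + 2) × I → k => ∀ T, Pnt U T → (h : K) ∉ nn T → tup u l i₀ ∉ nn T →
      PP T (tup u l) := by
  by_cases h1 : (1 : K) ∈ U
  swap
  · exact gen_of_forall fun l T hT => absurd (pnt_one hT) h1
  have := finiteType_AU hU
  let j : AU U →ₐ[k] MvPolynomial I (AU U) := IsScalarTower.toAlgHom k _ _
  let S : MvPolynomial I (AU U) := ∑ r, X r * C ⟨u r, hu r⟩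
  let a : (I → k) → AU U := fun η => ∑ r, η r • ⟨u r, hu r⟩
  have ha : ∀ η, (a η : K) = ∑ r, η r • u r := fun η => by simp [a]
  have hS : ∀ y : MvPolynomial I (AU U) →ₐ[k] k, y (j h * S) ≠ 0 ↔
      (h : K) ∉ nn (Tp (y.comp j)) ∧ ∑ r, y (X r) • u r ∉ nn (Tp (y.comp j)) := fun y => by
    rw [← ha, mem_nn_Tp h1, mem_nn_Tp h1, map_mul, mul_ne_zero_iff]
    have e : y S = (y.comp j) (a fun r => y (X r)) := by
      simp only [a, S, map_sum, map_mul, map_smul, smul_eq_mul]; rfl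
    rw [e]; rfl
  let θ : MvPolynomial (Fin (m + 2) × I) (AU U) →ₐ[k]
      MvPolynomial (Fin (m + 1) × I) (MvPolynomial I (AU U)) :=
    aevalTower ((IsScalarTower.toAlgHom k _ _).comp j) (ins i₀ (fun r => C (X r)) X)
  have hθ : ∀ (y : MvPolynomial I (AU U) →ₐ[k] k) (lam : Fin (m + 1) × I → k) f,
      aevalTower y lam (θ f) = aevalTower (y.comp j) (ins i₀ (fun r => y (X r)) lam) f := by
    intro y lam f
    refine AlgHom.congr_fun (Codim.tower_ext (f := (aevalTower y lam).comp θ) (fun r => ?_)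
      fun p => ?_) f
    · simp [θ, j]
    · rw [AlgHom.comp_apply, aevalTower_X, aevalTower_X]
      exact congrFun (ins_ext i₀ (f := fun p => aevalTower y lam (ins i₀ (fun r => C (X r)) X p))
        (fun r => by simp [ins_self]) fun i r => by simp [ins_succ]) p
  obtain ⟨D, hD, hDZ⟩ := Codim.codim (k := k) (μ := Fin (m + 1) × I) (X : I → _) (j h * S) (m + 1)
    (fun y lam => y (j h * S) ≠ 0 ∧ ¬ PP (Tp (y.comp j)) (tup u (ins i₀ (fun r => y (X r)) lam)))
    (fun _ _ hZ => hZ.1)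
    (fun y lam c hc hZ => ⟨hZ.1, fun hP => hZ.2 (by
      rw [tup_ins] at hP ⊢
      refine hcone _ _ _ c hc ?_
      have e : (c • fun i => ∑ r, lam (i, r) • u r) = fun i => ∑ r, (c • lam) (i, r) • u r :=
        funext fun i => by simp [Finset.smul_sum, smul_smul]
      rwa [e])⟩)
    (fun y lam hy hZ => by
      obtain ⟨f, hf, hf'⟩ := hopen _ (ins i₀ (fun r => y (X r)) lam) ((hS y).1 hy).1
        (by rw [tup_ins, Fin.insertNth_apply_same]; exact ((hS y).1 hy).2)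
        (not_not.1 fun hP => hZ ⟨hy, hP⟩)
      refine ⟨θ f, by rwa [hθ], fun y' lam' hZ' => ?_⟩
      rw [hθ]
      exact not_not.1 fun h0 => hZ'.2 (hf' _ _ h0))
    (fun p _ _ _ => trdeg_quot (trdeg_AU hF U) I p)
    (fun y hy => by
      obtain ⟨τ, hτ1, hτ2⟩ := hτ _ ((hS y).1 hy).1 _
        (sum_mem fun r _ => smul_mem _ _ (subset_span ⟨r, rfl⟩)) ((hS y).1 hy).2
      obtain ⟨τ', e⟩ := exists_lift u τ hτ1
      refine ⟨τ', fun a ha hZ => hZ.2 ?_⟩
      rw [tup_ins, funext (e a)]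
      exact hτ2 a ha)
  let ε : I ⊕ Fin (m + 1) × I → Fin (m + 2) × I :=
    Sum.elim (fun r => (i₀, r)) fun p => (i₀.succAbove p.1, p.2)
  have hε : Function.Injective ε := by
    rintro (r | ⟨i, r⟩) (r' | ⟨i', r'⟩) e <;> simp [ε] at e ⊢ <;> exact e
  refine ⟨rename ε D, fun h0 => hD (rename_injective ε hε (h0.trans (map_zero _).symm)),
    fun l hl T hT hh hs => ?_⟩
  obtain ⟨x, rfl⟩ := pnt_pt hT hU
  let y : MvPolynomial I (AU U) →ₐ[k] k := aevalTower x fun r => l (i₀, r)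
  have hy : y.comp j = x := aevalTower_comp_toAlgHom _ _
  have hyX : (fun r => y (X r)) = fun r => l (i₀, r) := funext fun r => aevalTower_X _ _ _
  have hl' : ins i₀ (fun r => y (X r)) (fun p => l (i₀.succAbove p.1, p.2)) = l :=
    ins_ext i₀ (fun r => (ins_self _ _ _ _).trans (congrFun hyX r)) fun i r => ins_succ _ _ _ _ _
  by_contra hP
  refine hl ?_
  rw [eval_rename, ← hDZ y (fun p => l (i₀.succAbove p.1, p.2))
    ⟨(hS y).2 (by rw [hy]; simp only [congrFun hyX]; exact ⟨hh, hs⟩), by rwa [hy, hl']⟩]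
  congr 2
  ext (r | p)
  · exact (congrFun hyX r).symm
  · rfl

/-- A chain that stabilises at the first repetition and has small colength. -/
theorem stab {P E : Submodule k K} (Y : ℕ → Submodule k K) {ρ : ℕ} (e : Fin ρ → K)
    (h0 : Y 0 ≤ P) (hY : ∀ j, Y (j + 1) ≤ Y j)
    (hs : ∀ j, Y j ≤ Y (j + 1) ⊔ E → Y (j + 1) ≤ Y (j + 2) ⊔ E)
    (h : P ≤ span k (Set.range e) ⊔ (Y (ρ + 1) ⊔ E)) (L : ℕ) :
    P ≤ span k (Set.range e) ⊔ (Y L ⊔ E) := by
  have ha : Antitone Y := antitone_nat_of_succ_le hY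
  obtain ⟨j, hj, hjs⟩ : ∃ j ≤ ρ, Y j ≤ Y (j + 1) ⊔ E := by
    by_contra H
    push Not at H
    set q := (Y (ρ + 1) ⊔ E).mkQ
    have hP : P.map q ≤ (span k (Set.range e)).map q := by
      refine (map_mono h).trans ?_
      rw [Submodule.map_sup, mkQ_map_self, sup_bot_eq]
    have : Module.Finite k (span k (Set.range e)) :=
      Module.Finite.iff_fg.2 (fg_span (Set.finite_range e))
    have hfin : Module.Finite k ((span k (Set.range e)).map q) :=
      Module.Finite.iff_fg.2 ((fg_span (Set.finite_range e)).map _)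
    have hr : Module.finrank k ((span k (Set.range e)).map q) ≤ ρ :=
      (finrank_map_le _ _).trans ((finrank_range_le_card e).trans_eq (Fintype.card_fin ρ))
    have hle : ∀ j, (Y j).map q ≤ (span k (Set.range e)).map q := fun j =>
      (map_mono ((ha (Nat.zero_le j)).trans h0)).trans hP
    have key : ∀ j ≤ ρ + 1, Module.finrank k ((Y j).map q) + j ≤ ρ := fun j hj => by
      induction j with
      | zero => exact (finrank_mono (hle 0)).trans hr
      | succ j ih =>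
        have := finiteDimensional_of_le (hle j)
        have h1 : (Y (j + 1)).map q < (Y j).map q := by
          refine lt_of_le_of_ne (map_mono (hY j)) fun e' => H j (by omega) ?_
          have h2 := (map_le_iff_le_comap.1 e'.ge).trans_eq (comap_map_mkQ _ _)
          exact h2.trans (sup_le (sup_le_sup_right (ha hj) _) le_sup_left)
        have := finrank_lt_finrank_of_lt h1
        have := ih (by omega)
        omega
    have := key _ le_rfl
    omega
  have h1 : ∀ i, Y (j + i) ≤ Y (j + i + 1) ⊔ E := fun i => by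
    induction i with
    | zero => exact hjs
    | succ i ih => exact hs _ ih
  have h2 : ∀ i, Y j ≤ Y (j + i) ⊔ E := fun i => by
    induction i with
    | zero => exact le_sup_left
    | succ i ih => exact ih.trans (sup_le (h1 i) le_sup_right)
  refine h.trans (sup_le_sup_left (sup_le ?_ le_sup_right) _)
  exact (ha (by omega)).trans ((h2 L).trans (sup_le_sup_right (ha (by omega)) _))

open Codim in
/-- Semicontinuity in a family of points `z.comp j`. -/
theorem closed' (hU : U.FG) (h1 : (1 : K) ∈ U) {B : Type} [CommRing B] [Algebra k B]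
    (j : AU U →ₐ[k] B) {X : Submodule k K} (hX : X.FG) (L : ℕ) {Γ : Type}
    (F : Γ → (B →ₐ[k] k) → K) (N P : Γ → Submodule k K) (hF : ∀ γ, F γ ∈ Fam B (N γ))
    (hN : ∀ γ, N γ * P γ ≤ alg U * X) (hP : ∀ γ, alg U * P γ ≤ P γ) (E : Submodule k K)
    (z₀ : B →ₐ[k] k)
    (h₀ : alg U * X ≤ (⨆ γ, pr k (F γ z₀) * P γ) ⊔ Tp (z₀.comp j) ^ L * (alg U * X) ⊔ E) :
    ∃ f : B, z₀ f ≠ 0 ∧ ∀ z : B →ₐ[k] k, z f ≠ 0 →
      alg U * X ≤ (⨆ γ, pr k (F γ z) * P γ) ⊔ Tp (z.comp j) ^ L * (alg U * X) ⊔ E := by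
  obtain ⟨n, g, hg⟩ := fg_iff_exists_fin_generating_family.1 hU
  have hgU : ∀ i, g i ∈ U := fun i => hg ▸ subset_span ⟨i, rfl⟩
  have hA : (Algebra.adjoin k (Set.range g)).toSubmodule = alg U := by
    rw [alg, ← hg, Algebra.adjoin_span]
  let ξ : Fin n → B := fun i => j ⟨g i, le_alg U (hgU i)⟩
  have hT : ∀ z : B →ₐ[k] k, Codim.nn g (z ∘ ξ) = Tp (z.comp j) := fun z => by
    have h2 : Codim.nn g (z ∘ ξ) ≤ Tp (z.comp j) := span_le.2 (by
      rintro _ ⟨i, rfl⟩; exact sub_mem_Tp h1 (z.comp j) (a := ⟨g i, _⟩) (hgU i))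
    refine le_antisymm h2 fun a ha => ?_
    have h3 : U ≤ 1 ⊔ Codim.nn g (z ∘ ξ) := hg.ge.trans (span_le.2 (by
      rintro _ ⟨i, rfl⟩
      have := add_mem_sup (mem_one.2 ⟨z (ξ i), rfl⟩ : _ ∈ (1 : Submodule k K))
        (subset_span ⟨i, rfl⟩ : g i - algebraMap k K (z (ξ i)) ∈ Codim.nn g (z ∘ ξ))
      rwa [add_sub_cancel] at this))
    obtain ⟨_, hc, b, hb, rfl⟩ := mem_sup.1 (h3 ha.1)
    obtain ⟨c, rfl⟩ := mem_one.1 hc
    have h4 : algebraMap k K c ∈ Tp (z.comp j) := (add_mem_cancel_right (h2 hb)).1 ha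
    have h5 := (mem_Np (a := algebraMap k _ c)).1 h4.2
    rw [AlgHom.commutes] at h5
    rwa [show c = 0 from h5, map_zero, zero_add]
  let G : Set ((B →ₐ[k] k) → K) := {H | ∃ γ, ∃ p ∈ P γ, H = F γ * fun _ => p}
  have hAP : alg U * (alg U * X) ≤ alg U * X := by
    rw [← mul_assoc]; exact mul_le_mul_left (alg_mul_alg U) _
  have hG : ∀ z : B →ₐ[k] k, alg U * span k ((· z) '' G) = ⨆ γ, pr k (F γ z) * P γ := fun z => by
    refine le_antisymm ?_ (iSup_le fun γ => ?_)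
    · have h2 : span k ((· z) '' G) ≤ ⨆ γ, pr k (F γ z) * P γ := span_le.2 (by
        rintro _ ⟨_, ⟨γ, p, hp, rfl⟩, rfl⟩
        exact mem_iSup_of_mem γ (mul_mem_mul (mem_span_singleton_self _) hp))
      refine (mul_le_mul_right h2 _).trans ?_
      rw [Submodule.mul_iSup]
      refine iSup_mono fun γ => ?_
      rw [mul_left_comm]
      exact mul_le_mul_right (hP γ) _
    · intro y hy
      obtain ⟨p, hp, rfl⟩ := Num.mem_pr_mul.1 hy
      exact le_alg_mul _ (subset_span ⟨_, ⟨γ, p, hp, rfl⟩, rfl⟩)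
  have hle : ∀ z : B →ₐ[k] k, (⨆ γ, pr k (F γ z) * P γ) ⊔ Tp (z.comp j) ^ L * (alg U * X) ≤
      alg U * X := fun z => by
    refine sup_le (iSup_le fun γ => le_trans (mul_le_mul_left ?_ _) (hN γ))
      (le_trans (mul_le_mul_left ?_ _) hAP)
    · exact (span_singleton_le_iff_mem _ _).2 (apply_mem_of_Fam (hF γ) z)
    · exact (pow_le_alg _ L).trans (alg_Tp h1 _).le
  obtain ⟨f, hf, hf'⟩ := closed g ξ X hX L G (by
      rintro _ ⟨γ, p, hp, rfl⟩
      rw [hA]
      exact Fam_mono (hN γ) (mul_mem_Fam (hF γ) (const_mem_Fam hp)))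
    (E ⊓ (alg U * X)) (by rw [hA]; exact inf_le_right) z₀ (by
      rw [hA, hG, hT, ← sup_inf_assoc_of_le _ (hle z₀)]
      exact le_inf h₀ le_rfl)
  refine ⟨f, hf, fun z hz => ?_⟩
  have := hf' z hz
  rw [hA, hG, hT] at this
  exact this.trans (sup_le_sup_left inf_le_left _)

end Pool.Agent.MP_19ffc6_ag.Res.PA.Core
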