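import Mathlib
import Pool.Agent.MP_19ffc6_ag.Res.CoreB

/-! PROJECT RES, part A: modules CORE and BASE. -/

namespace Pool.Agent.MP_19ffc6_ag.Res.PA.Core

open Submodule MvPolynomial Codim

variable {k K : Type} [Field k] [Field K] [Algebra k K] {m : ℕ} {U T : Submodule k K}

theorem qq_mul {ι : Type} (g : ι → K) (a : ℕ) (P : Submodule k K) :
    qq k g a * P = ⨆ i, pr k (g i ^ a) * P := by
  rw [qq, span_range_eq_iSup, Submodule.iSup_mul]; rfl

theorem pr_smul {c : k} (hc : c ≠ 0) (W : K) : pr k (c • W) = pr k W :=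
  span_singleton_smul_eq hc.isUnit W

theorem ld_smul {C e : ℕ} {g : Fin e → K} {P Q : Submodule k K} {c : k} (hc : c ≠ 0) :
    Ld C T (fun i => c • g i) P Q ↔ Ld C T g P Q := by
  simp only [Ld, qq_mul, smul_pow, pr_smul (pow_ne_zero _ hc)]

theorem wr_smul (d : Fin (m + 1) → Derivation k K K) (i₀ : Fin (m + 2)) (S : K)
    (s : Fin (m + 1) → K) {c : k} (hc : c ≠ 0) :
    pr k (Wr d (Fin.insertNth i₀ S (c • s))) = pr k (Wr d (Fin.insertNth i₀ S s)) := by
  let b : Fin (m + 2) → k := Fin.insertNth i₀ 1 fun _ => c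
  have e : (Fin.insertNth i₀ S (c • s) : Fin (m + 2) → K) =
      fun j => b j • (Fin.insertNth i₀ S s : Fin (m + 2) → K) j := by
    funext j
    induction j using Fin.succAboveCases i₀ <;> simp [b]
  rw [e, ← wrA_apply, ← wrA_apply, AlternatingMap.map_smul_univ, pr_smul]
  refine Finset.prod_ne_zero_iff.2 fun j _ => ?_
  induction j using Fin.succAboveCases i₀ <;> simp [b, hc]

theorem alg_pow_le (U : Submodule k K) (a : ℕ) : alg U ^ a ≤ alg U := by
  induction a with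
  | zero => rw [pow_zero]; exact one_le.2 (Num.one_mem_alg U)
  | succ a ih => rw [pow_succ]; exact (mul_le_mul_left ih _).trans (alg_mul_alg U)

/-- A bound for the local degree is an open condition. -/
theorem ld_open (hU : U.FG) (h1 : (1 : K) ∈ U) {B : Type} [CommRing B] [Algebra k B]
    (j : AU U →ₐ[k] B) {X N P₁ Q : Submodule k K} (hX : X.FG) {C e : ℕ}
    (g : Fin e → (B →ₐ[k] k) → K) (W : (B →ₐ[k] k) → K) (hg : ∀ i, g i ∈ Fam B (alg U))
    (hW : W ∈ Fam B N) (hN : N * P₁ ≤ alg U * X) (hP : alg U * P₁ ≤ P₁) (hQ : alg U * Q ≤ Q)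
    (z₀ : B →ₐ[k] k)
    (h₀ : Ld C (Tp (z₀.comp j)) (fun i => g i z₀) (alg U * X) (pr k (W z₀) * P₁ ⊔ Q)) :
    ∃ f : B, z₀ f ≠ 0 ∧ ∀ z : B →ₐ[k] k, z f ≠ 0 →
      Ld C (Tp (z.comp j)) (fun i => g i z) (alg U * X) (pr k (W z) * P₁ ⊔ Q) := by
  obtain ⟨a, ha, h₀⟩ := h₀
  obtain ⟨v, hv, h₀⟩ := h₀ (C * a ^ e + 1)
  have hAP : alg U * (alg U * X) ≤ alg U * X := by
    rw [← mul_assoc]; exact mul_le_mul_left (alg_mul_alg U) _
  have hAa : alg U ^ a ≤ alg U := alg_pow_le U a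
  obtain ⟨f, hf, hf'⟩ := closed' hU h1 j hX (C * a ^ e + 1) (Γ := Option (Fin e))
    (fun γ => γ.elim W fun i => g i ^ a) (fun γ => γ.elim N fun _ => alg U)
    (fun γ => γ.elim P₁ fun _ => alg U * X)
    (by rintro (_ | i); exacts [hW, Fam_mono hAa (pow_mem_Fam (hg i) a)])
    (by rintro (_ | i); exacts [hN, hAP]) (by rintro (_ | i); exacts [hP, hAP])
    (span k (Set.range v) ⊔ Q) z₀ (by
      refine h₀.trans (sup_le (le_sup_of_le_right le_sup_left) (sup_le (sup_le ?_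
        (le_sup_of_le_left le_sup_right)) (sup_le ?_ (le_sup_of_le_right le_sup_right))))
      · rw [qq_mul]
        exact le_sup_of_le_left (le_sup_of_le_left (iSup_le fun i => le_iSup_of_le (some i) le_rfl))
      · exact le_sup_of_le_left (le_sup_of_le_left (le_iSup_of_le none le_rfl)))
  refine ⟨f, hf, fun z hz => ⟨a, ha, fun L => ⟨v, hv, ?_⟩⟩⟩
  have hT : Tp (z.comp j) ≤ alg U := inf_le_left.trans (le_alg U)
  set E := qq k (fun i => g i z) a * (alg U * X) ⊔ (pr k (W z) * P₁ ⊔ Q)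
  have hE : Tp (z.comp j) * E ≤ E := by
    refine (mul_le_mul_left hT _).trans ?_
    simp only [E, Submodule.mul_sup]
    rw [mul_left_comm, mul_left_comm _ (pr k _)]
    exact sup_le_sup (mul_le_mul_right hAP _) (sup_le_sup (mul_le_mul_right hP _) hQ)
  have := stab (P := alg U * X) (E := E) (fun i => Tp (z.comp j) ^ i * (alg U * X)) v
    (by rw [pow_zero, one_mul])
    (fun i => by
      rw [pow_succ, mul_assoc]
      exact mul_le_mul_right ((mul_le_mul_left hT _).trans hAP) _)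
    (fun i hi => by
      have h2 := mul_le_mul_right hi (Tp (z.comp j))
      rw [Submodule.mul_sup, ← mul_assoc, ← mul_assoc _ (_ ^ _), ← pow_succ', ← pow_succ'] at h2
      exact h2.trans (sup_le_sup_left hE _))
    ((hf' z hz).trans (sup_le (sup_le (iSup_le ?_) (le_sup_of_le_right le_sup_left))
      (sup_le_sup_left (le_sup_of_le_right (le_sup_of_le_right le_sup_right)) _))) L
  · refine this.trans (sup_le_sup_left ?_ _)
    rw [sup_left_comm, sup_assoc]
  · rintro (_ | i)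
    · exact le_sup_of_le_right (le_sup_of_le_right (le_sup_of_le_right le_sup_left))
    · refine le_sup_of_le_right (le_sup_of_le_right (le_sup_of_le_left ?_))
      rw [qq_mul]
      exact le_iSup_of_le i le_rfl

section

variable {I : Type} [Fintype I] {u : I → K}

/-- The universal tuple. -/
noncomputable def sF (U : Submodule k K) (u : I → K) (i : Fin (m + 2))
    (z : MvPolynomial (Fin (m + 2) × I) (AU U) →ₐ[k] k) : K := tup u (fun p => z (X p)) i

/-- The value of the universal tuple. -/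
noncomputable def vB (hu : ∀ r, u r ∈ AU U) (i : Fin (m + 2)) :
    MvPolynomial (Fin (m + 2) × I) (AU U) := ∑ r, X (i, r) * C ⟨u r, hu r⟩

theorem sF_mem (hu : ∀ r, u r ∈ AU U) (i : Fin (m + 2)) : sF U u i ∈ Fam _ (alg U) := by
  have e : sF U u i = ∑ r, fun z => z (X (i, r)) • u r := funext fun z => by simp [sF, tup]
  rw [e]
  exact sum_mem fun r _ => smul_mem_Fam _ (hu r)

theorem wF_mem (hu : ∀ r, u r ∈ AU U) (d : Fin (m + 1) → Derivation k K K) :
    (fun z => Wr d fun i => sF U u i z) ∈ Fam _ (WW d (alg U)) := by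
  classical
  have e : (fun z => Wr d fun i => sF U u i z) = ∑ f : Fin (m + 2) → I,
      fun z => z (∏ i, X (i, f i)) • Wr d fun i => u (f i) := funext fun z => by
    rw [Finset.sum_apply, ← wrA_apply]
    refine ((wrA d).toMultilinearMap.map_sum fun i r => z (X (i, r)) • u r).trans ?_
    refine Finset.sum_congr rfl fun f _ => ?_
    rw [MultilinearMap.map_smul_univ, map_prod, ← wrA_apply]; rfl
  rw [e]
  exact sum_mem fun f _ => smul_mem_Fam _ (wr_mem fun i => hu _)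

theorem sF_tower (x : AU U →ₐ[k] k) (l : Fin (m + 2) × I → k) (i : Fin (m + 2)) :
    sF U u i (aevalTower x l) = tup u l i := by simp [sF]

theorem vB_tower (hu : ∀ r, u r ∈ AU U) (x : AU U →ₐ[k] k) (l : Fin (m + 2) × I → k)
    (i : Fin (m + 2)) : aevalTower x l (vB hu i) = x ⟨tup u l i, tup_mem (N := alg U) hu l i⟩ := by
  have e : (⟨tup u l i, tup_mem (N := alg U) hu l i⟩ : AU U) = ∑ r, l (i, r) • ⟨u r, hu r⟩ :=
    Subtype.ext (by simp [tup])
  rw [e]
  simp only [vB, map_sum, map_mul, map_smul, aevalTower_X, aevalTower_C, smul_eq_mul]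

end

theorem _root_.Pool.Agent.MP_19ffc6_ag.Res.PA.core [IsAlgClosed k] : CoreStmt k K m := by
  intro t d U I _ u i₀ e C ν Ξ X P₁ Q hF hU hu hX hW hP hQ hτ
  by_cases h1 : (1 : K) ∈ U
  swap
  · exact gen_of_forall fun l T hT => absurd (pnt_one hT) h1
  have hu' : ∀ r, u r ∈ AU U := fun r => pow_le_alg U _ (hu.le (subset_span ⟨r, rfl⟩))
  refine gen_mono (gen_of hF hU hu' i₀ 1 (fun T s => ∀ c : Fin e → k,
      (∀ i, s (i₀.succAbove (ν i)) - c i • s i₀ ∈ nn T) → ∃ x,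
        Ld C T (fun i => s (i₀.succAbove (ν i)) - c i • s i₀) (alg U * X x)
          (pr k (Wr d s) * P₁ x ⊔ Q x)) (fun x S s c hc h c' hc' => ?_)
    (fun x₀ l₀ _ hs h => ?_) fun x _ S hS hS' => ?_) fun l h T hT => h T hT hT.2
  · simp only [Fin.insertNth_apply_same, Fin.insertNth_apply_succAbove] at h hc' ⊢
    have e : ∀ i, (c • s) (ν i) - (c * c' i) • S = c • (s (ν i) - c' i • S) := fun i => by
      simp [smul_sub, smul_smul]
    obtain ⟨ξ, hξ⟩ := h (fun i => c * c' i) fun i => e i ▸ smul_mem _ _ (hc' i)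
    simp only [e] at hξ
    rw [ld_smul hc, wr_smul d i₀ S s hc] at hξ
    exact ⟨ξ, hξ⟩
  · let j : AU U →ₐ[k] MvPolynomial (Fin (m + 2) × I) (AU U) := IsScalarTower.toAlgHom k _ _
    let g : Fin e → (MvPolynomial (Fin (m + 2) × I) (AU U) →ₐ[k] k) → K := fun i z =>
      z (vB hu' i₀) • sF U u (i₀.succAbove (ν i)) z - z (vB hu' (i₀.succAbove (ν i))) • sF U u i₀ z
    have hg : ∀ (x : AU U →ₐ[k] k) l (c : Fin e → k),
        (∀ i, tup u l (i₀.succAbove (ν i)) - c i • tup u l i₀ ∈ nn (Tp x)) →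
        (fun i => g i (aevalTower x l)) = fun i => aevalTower x l (vB hu' i₀) •
          (tup u l (i₀.succAbove (ν i)) - c i • tup u l i₀) := fun x l c hc => funext fun i => by
      have h2 := (mem_nn_Tp h1 x (⟨_, tup_mem (N := alg U) hu' l (i₀.succAbove (ν i))⟩ -
        c i • ⟨_, tup_mem (N := alg U) hu' l i₀⟩)).1 (hc i)
      rw [map_sub, map_smul, sub_eq_zero, smul_eq_mul] at h2
      simp only [g, sF_tower, vB_tower, h2, smul_sub, smul_smul, mul_comm]
    have h0 : aevalTower x₀ l₀ (vB hu' i₀) ≠ 0 := fun h0 =>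
      hs ((mem_nn_Tp h1 x₀ ⟨_, _⟩).2 ((vB_tower hu' x₀ l₀ i₀).symm.trans h0))
    let c₀ : Fin e → k := fun i =>
      aevalTower x₀ l₀ (vB hu' (i₀.succAbove (ν i))) / aevalTower x₀ l₀ (vB hu' i₀)
    have hc₀ : ∀ i, tup u l₀ (i₀.succAbove (ν i)) - c₀ i • tup u l₀ i₀ ∈ nn (Tp x₀) := fun i =>
      (mem_nn_Tp h1 x₀ (⟨_, tup_mem (N := alg U) hu' l₀ (i₀.succAbove (ν i))⟩ -
        c₀ i • ⟨_, tup_mem (N := alg U) hu' l₀ i₀⟩)).2 (by
          rw [map_sub, map_smul, ← vB_tower hu', ← vB_tower hu', smul_eq_mul,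
            div_mul_cancel₀ _ h0, sub_self])
    obtain ⟨ξ, hξ⟩ := h c₀ hc₀
    obtain ⟨f, hf, hf'⟩ := ld_open (C := C) hU h1 j (hX ξ) g (fun z => Wr d fun i => sF U u i z)
      (fun i => sub_mem (smul_fam (sF_mem hu' _) _) (smul_fam (sF_mem hu' _) _)) (wF_mem hu' d)
      (hW ξ) (hP ξ) (hQ ξ) (aevalTower x₀ l₀) (by
        rw [hg x₀ l₀ c₀ hc₀, ld_smul h0, aevalTower_comp_toAlgHom]
        simpa only [sF_tower] using hξ)
    refine ⟨f * vB hu' i₀, by rw [map_mul]; exact mul_ne_zero hf h0, fun x l hz c hc => ⟨ξ, ?_⟩⟩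
    rw [map_mul, mul_ne_zero_iff] at hz
    have := hf' _ hz.1
    rw [hg x l c hc, ld_smul hz.2, aevalTower_comp_toAlgHom] at this
    simpa only [sF_tower] using this
  · obtain ⟨τ, hτ1, hτ2⟩ := hτ _ (pnt_Tp h1 x) S (hu.le hS) hS'
    refine ⟨τ, fun a i => ?_, fun a ha c hc => ?_⟩
    · rw [hu, sup_Tp h1 x]; exact (hτ1 a i).1
    · simp only [Fin.insertNth_apply_same, Fin.insertNth_apply_succAbove] at hc ⊢
      have h2 : ∀ i, c i = 0 := fun i => not_not.1 fun h0 => hS'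
        ((smul_mem_iff _ h0).1 ((sub_mem_iff_right _ (hτ1 a _).2).1 (hc i)))
      simpa only [h2, zero_smul, sub_zero] using hτ2 a ha

end Pool.Agent.MP_19ffc6_ag.Res.PA.Core
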