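import Mathlib
import Pool.Agent.MP_19ffc6_ag.Res.Core

/-! PROJECT RES, part A: module BASE. -/

namespace Pool.Agent.MP_19ffc6_ag.Res.PA.Core

open Submodule MvPolynomial Codim

variable {k K : Type} [Field k] [Field K] [Algebra k K] {m : ℕ} {U T : Submodule k K}

theorem cb_iff (h : Pnt U T) (d : Fin (m + 1) → Derivation k K K) (W : K) :
    CB d T W ↔ ∃ MM : Submodule k K, MM.FG ∧ MM ≠ ⊥ ∧ alg U * (MM * JJ d U) ≤
      (⨆ _ : Unit, pr k W * (alg U * MM)) ⊔ T ^ 1 * (alg U * (MM * JJ d U)) ⊔ ⊥ := by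
  simp only [CB, Mb, pnt_alg h, pnt_JJ h, pow_zero, pow_one, mul_one, iSup_const, sup_bot_eq]

theorem le_pow_succ (h1 : (1 : K) ∈ U) (j : ℕ) : U ≤ U ^ (j + 1) := by
  induction j with
  | zero => rw [zero_add, pow_one]
  | succ j ih => rw [pow_succ]; exact fun a ha => mul_one a ▸ mul_mem_mul (ih ha) h1

theorem _root_.Pool.Agent.MP_19ffc6_ag.Res.PA.base_of2 [IsAlgClosed k] (hL : LocBStmt k K m)
    (hB : BpfStmt k K m) : BaseStmt k K m := by
  intro t d U I _ u hF hU hJ hu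
  by_cases h1 : (1 : K) ∈ U
  swap
  · exact gen_of_forall fun l T hT => absurd (pnt_one hT) h1
  have hu' : ∀ r, u r ∈ AU U := fun r => pow_le_alg U _ (hu.le (subset_span ⟨r, rfl⟩))
  obtain ⟨h, hh, h0, hl⟩ := hL t d U hF hU hJ
  refine gen_mono (gen_and (gen_of hF hU hu' (Fin.last _) ⟨h, hh⟩
    (fun T s => (∀ i : Fin (m + 1), s i.castSucc ∈ nn T) → CB d T (Wr d s))
    (fun x S s c hc H hs => ?_) (fun x₀ l₀ _ _ H => ?_) fun x hx S hS hS' => ?_)
    (gen_and (hB.all t d U I u hF hU hu) (hB.hyp t d U I u h hF hU hu hh h0)))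
    fun l H T hT hs => H.1 T hT (fun h2 => ?_) (fun h2 => ?_) hs
  · have H' := H fun i => by
      have := hs i
      rw [Fin.insertNth_last', Fin.snoc_castSucc] at this ⊢
      exact smul_mem _ c this
    simpa only [CB, wr_smul d _ S s hc] using H'
  · by_cases hs : ∀ i : Fin (m + 1), tup u l₀ i.castSucc ∈ nn (Tp x₀)
    · obtain ⟨MM, hM, hM0, hM1⟩ := (cb_iff (pnt_Tp h1 x₀) d _).1 (H hs)
      obtain ⟨f, hf, hf'⟩ := closed' hU h1 (IsScalarTower.toAlgHom k (AU U)
        (MvPolynomial (Fin (m + 2) × I) (AU U))) (hM.mul (JJ_fg (d := d) hU)) 1 (Γ := Unit)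
        (fun _ z => Wr d fun i => sF U u i z) (fun _ => WW d (alg U)) (fun _ => alg U * MM)
        (fun _ => wF_mem hu' d) (fun _ => by
          refine (mul_le_mul_left (WW_le_mul.trans (mul_le_mul_right (JJ_adjoin U) _)) _).trans ?_
          change alg U * (alg U * JJ d U) * (alg U * MM) ≤ _
          rw [← mul_assoc (alg U), mul_mul_mul_comm, mul_comm MM]
          exact mul_le_mul_left ((mul_le_mul_left (alg_mul_alg U) _).trans (alg_mul_alg U)) _)
        (fun _ => by rw [← mul_assoc]; exact mul_le_mul_left (alg_mul_alg U) _) ⊥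
        (aevalTower x₀ l₀) (by simpa only [sF_tower, aevalTower_comp_toAlgHom] using hM1)
      refine ⟨f, hf, fun x l hz _ => (cb_iff (pnt_Tp h1 x) d _).2 ⟨MM, hM, hM0, ?_⟩⟩
      simpa only [sF_tower, aevalTower_comp_toAlgHom] using hf' _ hz
    · obtain ⟨i, hi⟩ := not_forall.1 hs
      refine ⟨vB hu' i.castSucc, fun e => hi ((mem_nn_Tp h1 x₀ ⟨_, _⟩).2
        ((vB_tower hu' x₀ l₀ _).symm.trans e)), fun x l hz hs' => absurd ?_ hz⟩
      rw [vB_tower]
      exact (mem_nn_Tp h1 x ⟨_, _⟩).1 (hs' i)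
  · have hT := pnt_Tp h1 x
    obtain ⟨l, hl1, hl2⟩ := hl _ hT hx S ((pnt_alg hT).ge (pow_le_alg U _ (hu.le hS))) hS'
    refine ⟨LinearMap.pi fun i => (LinearMap.proj i.succ).smulRight (1 : K) +
      (LinearMap.proj 0).smulRight (l i), fun a i => ?_, fun a ha hs => ?_⟩
    · rw [hu]
      exact le_pow_succ h1 _ (add_mem (smul_mem _ _ h1) (smul_mem _ _ (pnt_le hT (hl1 i))))
    · have h2 : ∀ i : Fin (m + 1), a i.succ = 0 := fun i => not_not.1 fun h3 => by
        have h4 := hs i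
        rw [Fin.insertNth_last', Fin.snoc_castSucc] at h4
        have h5 : a 0 • l i ∈ nn (Tp x) :=
          smul_mem _ _ (mul_one (l i) ▸ mul_mem_mul (hl1 i) (Num.one_mem_alg _))
        exact hT.2 ((smul_mem_iff _ h3).1 ((add_mem_cancel_right h5).1 h4))
      have h3 : a 0 ≠ 0 := fun h3 => ha (funext fun i => Fin.cases h3 h2 i)
      have h4 := hl2 _ h3
      rw [Fin.insertNth_last']
      have e : (LinearMap.pi fun i => (LinearMap.proj i.succ).smulRight (1 : K) +
          (LinearMap.proj 0).smulRight (l i) : (Fin (m + 2) → k) →ₗ[k] _) a =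
          fun i => a 0 • l i := funext fun i => by simp [h2]
      rwa [e]
  · obtain ⟨j, hj⟩ := H.2.2 T hT h2
    exact hj (hs j)
  · obtain ⟨j, hj⟩ := H.2.1 T hT
    exact hj (Fin.lastCases h2 hs j)

end Pool.Agent.MP_19ffc6_ag.Res.PA.Core
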