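import Pool.Agent.MP_19ffc6_ag.Res.ASpec
import Pool.Agent.MP_19ffc6_ag.Res.Codim

/-! PROJECT RES, part A: general forms have no common zero. -/

namespace Pool.Agent.MP_19ffc6_ag.Res.PA

open Submodule

namespace Bpf

variable {k : Type} [Field k]

/-- A nonzero prime of a domain lowers the transcendence degree. -/
theorem trdeg_quot {R : Type} [CommRing R] [IsDomain R] [Algebra k R] (n : ℕ)
    (hR : Algebra.trdeg k R ≤ (n + 1 : ℕ)) (p : Ideal R) [p.IsPrime] {h : R} (hp : h ∈ p)
    (h0 : h ≠ 0) : Algebra.trdeg k (R ⧸ p) ≤ n := by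
  by_contra hc
  obtain ⟨s, hs⟩ := exists_isTranscendenceBasis k (R ⧸ p)
  rw [← hs.cardinalMk_eq_trdeg, not_le] at hc
  have h1 : Cardinal.mk (Fin (n + 1)) ≤ Cardinal.mk s := by
    rw [Cardinal.mk_fin, Nat.cast_succ]
    exact Cardinal.add_one_le_of_lt hc
  obtain ⟨e⟩ := Cardinal.le_def _ _ |>.1 h1
  have h2 : AlgebraicIndependent k fun i => (e i : R ⧸ p) := hs.1.comp e e.injective
  choose g hg using fun i => Ideal.Quotient.mk_surjective (I := p) (e i : R ⧸ p)
  have e1 : (Ideal.Quotient.mkₐ k p) ∘ g = fun i => (e i : R ⧸ p) := funext hg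
  rw [← e1] at h2
  have h3 : AlgebraicIndependent k g := AlgebraicIndependent.of_comp _ h2
  have h4 : IsAlgebraic (Algebra.adjoin k (Set.range g)) h := by
    by_contra ht
    have := ((h3.option_iff_transcendental h).2 ht).cardinalMk_le_trdeg.trans hR
    rw [Cardinal.mk_fintype, Fintype.card_option, Fintype.card_fin, Nat.cast_le] at this
    omega
  obtain ⟨⟨b, hb⟩, b0, hd⟩ := h4.exists_nonzero_dvd (mem_nonZeroDivisors_of_ne_zero h0)
  have hbp : b ∈ p := p.mem_of_dvd hd hp
  rw [Algebra.adjoin_range_eq_range_aeval] at hb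
  obtain ⟨Q, rfl⟩ := hb
  have h5 : MvPolynomial.aeval ((Ideal.Quotient.mkₐ k p) ∘ g) Q = 0 := by
    have := MvPolynomial.comp_aeval_apply g (Ideal.Quotient.mkₐ k p) Q
    exact this.symm.trans (Ideal.Quotient.eq_zero_iff_mem.2 hbp)
  have h6 := algebraicIndependent_iff.1 h2 Q h5
  exact b0 (Subtype.ext (by simp [h6]))

variable {K : Type} [Field K] [Algebra k K]

theorem adjoin_eq {U T : Submodule k K} (h : U = 1 ⊔ T) :
    Algebra.adjoin k (U : Set K) = Algebra.adjoin k (T : Set K) := by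
  refine le_antisymm (Algebra.adjoin_le ?_) (Algebra.adjoin_mono (h ▸ le_sup_right : T ≤ U))
  have : U ≤ (Algebra.adjoin k (T : Set K)).toSubmodule := by
    rw [h]
    exact sup_le (Submodule.one_le.2 (one_mem (Algebra.adjoin k (T : Set K))))
      fun x hx => Algebra.subset_adjoin hx
  exact this

theorem pow_le (U : Submodule k K) (n : ℕ) : U ^ n ≤ alg U := by
  induction n with
  | zero => rw [pow_zero]; exact Submodule.one_le.2 (one_mem (Algebra.adjoin k (U : Set K)))
  | succ n ih =>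
    rw [pow_succ]
    exact Submodule.mul_le.2 fun a ha b hb =>
      mul_mem (S := Subalgebra k K) (ih ha) (Algebra.subset_adjoin hb)

theorem ft {U : Submodule k K} (hU : U.FG) :
    Algebra.FiniteType k (Algebra.adjoin k (U : Set K)) := by
  obtain ⟨s, rfl⟩ := hU
  rw [Algebra.adjoin_span]
  exact (Subalgebra.fg_iff_finiteType _).1 (Subalgebra.fg_adjoin_finset s)

/-- A point gives a homomorphism. -/
theorem exists_hom [IsAlgClosed k] {U T : Submodule k K} (hU : U.FG) (h : Pnt U T) :
    ∃ x : Algebra.adjoin k (U : Set K) →ₐ[k] k,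
      ∀ r : Algebra.adjoin k (U : Set K), (r : K) ∈ nn T → x r = 0 := by
  have := ft hU
  let I : Ideal (Algebra.adjoin k (U : Set K)) :=
    { carrier := {r | (r : K) ∈ nn T}
      add_mem' := fun h1 h2 => (nn T).add_mem h1 h2
      zero_mem' := (nn T).zero_mem
      smul_mem' := fun c r hr => by
        have hc : (c : K) ∈ Algebra.adjoin k (T : Set K) := adjoin_eq h.1 ▸ c.2
        change (c : K) * r ∈ nn T
        refine Submodule.mul_induction_on (C := fun z => (c : K) * z ∈ nn T) hr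
          (fun a ha b hb => ?_) fun a b ha hb => by rw [mul_add]; exact add_mem ha hb
        rw [mul_left_comm]
        exact mul_mem_mul ha (mul_mem (S := Subalgebra k K) hc hb) }
  exact Codim.exists_pt I ((Ideal.ne_top_iff_one I).2 h.2)

theorem main [IsAlgClosed k] {m : ℕ} (U : Submodule k K) (I : Type) [Fintype I] (u : I → K)
    (h : K) (n : ℕ) (ν : Fin (n + 1) → Fin (m + 2)) (hν : Function.Injective ν) (hU : U.FG)
    (hu : span k (Set.range u) = U ^ (m + 2)) (hh : h ∈ alg U)
    (hdim : ∀ p : Ideal (Algebra.adjoin k (U : Set K)), p.IsPrime → ⟨h, hh⟩ ∈ p →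
      Algebra.trdeg k (Algebra.adjoin k (U : Set K) ⧸ p) ≤ n) :
    Gen fun l : Fin (m + 2) × I → k => ∀ T, Pnt U T → h ∈ nn T →
      ∃ j, tup u l (ν j) ∉ nn T := by
  classical
  by_cases h1 : (1 : K) ∈ U
  swap
  · refine ⟨1, one_ne_zero, fun l _ T hT => absurd ?_ h1⟩
    rw [hT.1]
    exact mem_sup_left (Submodule.one_le.1 le_rfl)
  have := ft hU
  have hm : ∀ i, u i ∈ Algebra.adjoin k (U : Set K) := fun i =>
    pow_le U (m + 2) (hu ▸ subset_span ⟨i, rfl⟩)
  let u' : I → Algebra.adjoin k (U : Set K) := fun i => ⟨u i, hm i⟩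
  have h2 : (1 : K) ∈ span k (Set.range u) := by
    rw [hu, ← one_pow (m + 2)]
    exact pow_mem_pow U h1 _
  obtain ⟨c, hc⟩ := (mem_span_range_iff_exists_fun k).1 h2
  have hc' : ∑ i, c i • u' i = 1 := Subtype.ext (by simpa [u'] using hc)
  obtain ⟨D, D0, hD⟩ := Codim.codim (k := k) (μ := Fin (m + 2) × I) (σ := Empty) Empty.elim 1 n
    (fun x l => x ⟨h, hh⟩ = 0 ∧ ∀ j, ∑ i, l (ν j, i) * x (u' i) = 0)
    (fun x _ _ => by simp) (fun x l t _ hZ => ⟨hZ.1, fun j => by
      simp only [Pi.smul_apply, smul_eq_mul, mul_assoc, ← Finset.mul_sum, hZ.2 j, mul_zero]⟩)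
    (fun x l _ hZ => by
      by_cases hx : x ⟨h, hh⟩ = 0
      · obtain ⟨j, hj⟩ := not_forall.1 fun z => hZ ⟨hx, z⟩
        exact ⟨∑ i, MvPolynomial.X (ν j, i) * MvPolynomial.C (u' i), by simpa using hj,
          fun x' l' z => by simpa using z.2 j⟩
      · exact ⟨MvPolynomial.C ⟨h, hh⟩, by simpa using hx, fun x' l' z => by simpa using z.1⟩)
    (fun p hp _ hr => by simpa using hdim p hp (hr _ fun x l z => z.1))
    (fun x _ => ⟨LinearMap.pi fun q : Fin (m + 2) × I =>
        c q.2 • ∑ j, if ν j = q.1 then LinearMap.proj j else 0, fun a ha hZ => ha (funext fun j => by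
      have h3 := hZ.2 j
      have h4 : ∑ i, c i * x (u' i) = 1 := by simpa using congrArg x hc'
      have h5 : ∀ i, (LinearMap.pi (fun q : Fin (m + 2) × I =>
          c q.2 • ∑ j, if ν j = q.1 then (LinearMap.proj j : (Fin (n + 1) → k) →ₗ[k] k) else 0) a)
          (ν j, i) = a j * c i := fun i => by
        simp [hν.eq_iff, mul_comm]
      simp only [h5, mul_assoc, ← Finset.mul_sum, h4, mul_one] at h3
      exact h3)⟩)
  refine ⟨MvPolynomial.rename (Sum.elim Empty.elim id) D, fun z => D0 ?_, fun l hl T hT hn => ?_⟩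
  · refine MvPolynomial.rename_injective _ ?_ (z.trans (map_zero _).symm)
    rintro (a | a) (b | b) e
    exacts [a.elim, a.elim, b.elim, congrArg _ e]
  · by_contra hc2
    push Not at hc2
    obtain ⟨x, hx⟩ := exists_hom hU hT
    apply hl
    have h6 := hD x l ⟨hx _ hn, fun j => by
      have := hx (∑ i, l (ν j, i) • u' i) (by simpa [u', tup] using hc2 j)
      simpa using this⟩
    rw [MvPolynomial.eval_rename, ← h6]
    congr 2
    funext z
    rcases z with z | z
    exacts [z.elim, rfl]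

end Bpf

theorem bpf {k K : Type} [Field k] [Field K] [Algebra k K] [IsAlgClosed k] {m : ℕ} :
    BpfStmt k K m := by
  have tr : ∀ {t : Fin (m + 1) → K} {d : Fin (m + 1) → Derivation k K K} (U : Submodule k K),
      Fr t d → Algebra.trdeg k (Algebra.adjoin k (U : Set K)) ≤ (m + 1 : ℕ) := fun U hF =>
    (trdeg_le_of_injective (Subalgebra.val _) Subtype.val_injective).trans hF.trdeg.le
  refine ⟨fun t d U I _ u hF hU hu => ?_, fun t d U I _ u h hF hU hu hh h0 => ?_⟩
  · obtain ⟨D, D0, hD⟩ := Bpf.main U I u 0 (m + 1) id Function.injective_id hU hu (zero_mem _)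
      fun p _ _ => (trdeg_le_of_surjective (Ideal.Quotient.mkₐ k p)
        (Ideal.Quotient.mkₐ_surjective k p)).trans (tr U hF)
    exact ⟨D, D0, fun l hl T hT => hD l hl T hT (zero_mem _)⟩
  · exact Bpf.main U I u h m Fin.castSucc (Fin.castSucc_injective _) hU hu hh
      fun p _ hp => Bpf.trdeg_quot m (tr U hF) p hp fun z => h0 (congrArg Subtype.val z)

end Pool.Agent.MP_19ffc6_ag.Res.PA
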