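import Pool.Agent.MP_19ffc6_ag.Res.ASpec

/-! PROJECT RES, part A, module GEN: one tuple of forms that is good at all points. -/

namespace Pool.Agent.MP_19ffc6_ag.Res.PA

open Pool.Agent.MP_19ffc6_ag.Wild Submodule Filter Module

variable {k K : Type} [Field k] [Field K] [Algebra k K] {m : ℕ}

namespace GenM

section

variable {J : Type} {P Q : (J → k) → Prop}

theorem g_mono (h : Gen P) (hPQ : ∀ l, P l → Q l) : Gen Q := by
  obtain ⟨D, h0, h1⟩ := h
  exact ⟨D, h0, fun l hl => hPQ l (h1 l hl)⟩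

theorem g_true (h : ∀ l, P l) : Gen P := ⟨1, one_ne_zero, fun l _ => h l⟩

theorem g_and (h1 : Gen P) (h2 : Gen Q) : Gen fun l => P l ∧ Q l := by
  obtain ⟨D, a, b⟩ := h1
  obtain ⟨E, c, e⟩ := h2
  refine ⟨D * E, mul_ne_zero a c, fun l hl => ?_⟩
  rw [map_mul] at hl
  exact ⟨b l (left_ne_zero_of_mul hl), e l (right_ne_zero_of_mul hl)⟩

theorem g_all {ι : Type} {s : Set ι} (hs : s.Finite) {R : ι → (J → k) → Prop}
    (h : ∀ i ∈ s, Gen (R i)) : Gen fun l => ∀ i ∈ s, R i l := by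
  choose! D h0 h1 using h
  refine ⟨∏ i ∈ hs.toFinset, D i,
    Finset.prod_ne_zero_iff.2 fun i hi => h0 i (hs.mem_toFinset.1 hi), fun l hl i hi => ?_⟩
  rw [map_prod, Finset.prod_ne_zero_iff] at hl
  exact h1 i hi l (hl i (hs.mem_toFinset.2 hi))

theorem g_fin {ι : Type} [Finite ι] {R : ι → (J → k) → Prop} (h : ∀ i, Gen (R i)) :
    Gen fun l => ∀ i, R i l :=
  g_mono (g_all Set.finite_univ fun i _ => h i) fun _ hl i => hl i trivial

theorem g_exists [Infinite k] (h : Gen P) : ∃ l, P l := by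
  obtain ⟨D, h0, h1⟩ := h
  by_contra hc
  refine h0 (MvPolynomial.funext fun l => ?_)
  rw [map_zero]
  by_contra hl
  exact hc ⟨l, h1 l hl⟩

end

variable {d : Fin (m + 1) → Derivation k K K} {T U V : Submodule k K} {σ : K}

theorem le_alg (T : Submodule k K) : T ≤ alg T := fun _ hx => Algebra.subset_adjoin hx

theorem alg_mul_alg (T : Submodule k K) : alg T * alg T ≤ alg T :=
  mul_le.2 fun _ hx _ hy => (Algebra.adjoin k (T : Set K)).mul_mem hx hy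

theorem pow_le_alg (T : Submodule k K) (n : ℕ) : T ^ n ≤ alg T := by
  induction n with
  | zero => rw [pow_zero]; exact one_le.2 (Num.one_mem_alg T)
  | succ n ih => rw [pow_succ]; exact (mul_le_mul' ih (le_alg T)).trans (alg_mul_alg T)

theorem le_nn (T : Submodule k K) : T ≤ nn T := fun x hx => by
  simpa [nn] using mul_mem_mul hx (Num.one_mem_alg T)

theorem alg_pnt (h : Pnt U T) : alg T = alg U := by
  rw [h.1]
  refine le_antisymm (Algebra.adjoin_mono (le_sup_right : T ≤ 1 ⊔ T)) ?_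
  exact Algebra.adjoin_le (S := Algebra.adjoin k (T : Set K))
    (sup_le (one_le.2 (Num.one_mem_alg T)) (le_alg T) : 1 ⊔ T ≤ alg T)

theorem JJ_pnt (h : Pnt U T) : JJ d T = JJ d U := by rw [h.1, sup_comm, JJ_sup_one]

theorem le_pnt (h : Pnt U T) : T ≤ U := h.1 ▸ le_sup_right

theorem fg_pnt (h : Pnt U T) (hU : U.FG) : T.FG := by
  have : Module.Finite k U := Module.Finite.iff_fg.2 hU
  exact Module.Finite.iff_fg.1 (finiteDimensional_of_le (le_pnt h))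

theorem alg_le_fil {w : DV k K} (h : U ≤ w.fil 0) : alg U ≤ w.fil 0 :=
  Algebra.adjoin_le (S := w.vr) h

theorem alg_mul_fil {w : DV k K} (h : U ≤ w.fil 0) : alg U * w.fil 1 ≤ w.fil 1 :=
  mul_le.2 fun _ hx _ hy => by simpa using DV.mul_fil (alg_le_fil h hx) hy

theorem pr_wr (i : Fin (m + 2)) (S : K) (g : Fin (m + 1) → K) :
    pr k (Wr d (Fin.insertNth i S g)) = pr k (Wr d (Fin.cons S g)) := by
  rw [← Fin.cons_comp_cycleRange, ← wrA_apply, AlternatingMap.map_perm, wrA_apply]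
  rcases Int.units_eq_one_or (Equiv.Perm.sign i.cycleRange) with e | e <;> rw [e]
  · rw [one_smul]
  · rw [Units.neg_smul, one_smul, pr, pr, ← Set.neg_singleton, span_neg]

theorem div_mem_fil {w : DV k K} (hV : V.FG) (h : w.Min V σ) {v : K} (hv : v ∈ V) :
    σ⁻¹ * v ∈ w.fil 0 := by
  obtain ⟨G, hG⟩ := hV
  obtain ⟨a, ha⟩ := (G.finite_toSet.image w.ord).bddBelow
  have h1 : V ≤ w.fil a := hG ▸ span_le.2 fun x hx => Or.inr (ha ⟨x, hx, rfl⟩)
  by_cases h0 : v = 0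
  · exact Or.inl (by rw [h0, mul_zero])
  have h2 : w.ordS V ≤ w.ord v :=
    csInf_le ⟨a, by rintro _ ⟨x, ⟨hx, hx0⟩, rfl⟩; exact (h1 hx).resolve_left hx0⟩ ⟨v, ⟨hv, h0⟩, rfl⟩
  have h3 := w.mul σ (σ⁻¹ * v) h.2.1 (mul_ne_zero (inv_ne_zero h.2.1) h0)
  rw [mul_inv_cancel_left₀ h.2.1, h.2.2] at h3
  exact Or.inr (by omega)

theorem pr_mul_pr (a b : K) : pr k a * pr k b = pr k (a * b) := by
  rw [pr, pr, pr, span_mul_span, Set.singleton_mul_singleton]

theorem pr_one : pr k (1 : K) = 1 := one_eq_span.symm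

theorem pnt_of_hyp (h : Hyp V σ T) (h1 : (1 : K) ∉ nn T) : Pnt (pr k σ⁻¹ * V) T :=
  ⟨by rw [h.eq, ← mul_assoc, pr_mul_pr, inv_mul_cancel₀ h.ne, pr_one, one_mul], h1⟩

theorem hyp_of_pnt (h0 : σ ≠ 0) (h : Pnt (pr k σ⁻¹ * V) T) : Hyp V σ T :=
  ⟨h0, by rw [← h.1, ← mul_assoc, pr_mul_pr, mul_inv_cancel₀ h0, pr_one, one_mul],
    fun h1 => h.2 (le_nn T h1)⟩

theorem span_div {I : Type} {u : I → K} {n : ℕ} (hu : span k (Set.range u) = V ^ n) :
    span k (Set.range fun i => u i / σ ^ n) = (pr k σ⁻¹ * V) ^ n := by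
  rw [mul_pow, ← hu, pr, span_pow, Set.singleton_pow, span_mul_span, Set.singleton_mul,
    ← Set.range_comp]
  congr 2
  funext i
  simp [div_eq_inv_mul]

theorem tup_div {I : Type} [Fintype I] (u : I → K) (l : Fin (m + 2) × I → k) (a : K) :
    (tup (fun i => u i / a) l : Fin (m + 2) → K) = fun j => tup u l j / a := by
  funext j
  simp [tup, Finset.sum_div, smul_div_assoc]

theorem JJ_ne (h0 : σ ≠ 0) (hW : WW d V ≠ ⊥) : JJ d (pr k σ⁻¹ * V) ≠ ⊥ := by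
  intro h
  refine hW (eq_bot_iff.2 fun x hx => ?_)
  have h1 := div_pow_mem (T := pr k σ⁻¹ * V) h0
    (fun v hv => Num.mem_pr_mul.2 ⟨v, hv, (div_eq_inv_mul v σ).symm⟩) hx
  rw [h, Submodule.mul_bot, Submodule.mem_bot, div_eq_zero_iff] at h1
  exact h1.resolve_right (pow_ne_zero _ h0)

/-- The Wronskian of a general tuple does not vanish. -/
theorem wr_gen {I : Type} [Fintype I] {u : I → K} (hu : span k (Set.range u) = V ^ (m + 2))
    (hW : WW d V ≠ ⊥) : Gen fun l : Fin (m + 2) × I → k => Wr d (tup u l) ≠ 0 := by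
  classical
  obtain ⟨v, hv, hv0⟩ : ∃ v : Fin (m + 2) → K, (∀ i, v i ∈ V) ∧ Wr d v ≠ 0 := by
    by_contra hc
    refine hW (eq_bot_iff.2 (WW_le fun v hv => ?_))
    by_contra h
    exact hc ⟨v, hv, h⟩
  have h0 : v 0 ≠ 0 := fun h => hv0 (by
    rw [← wrA_apply]; exact (wrA d).map_coord_zero 0 h)
  have h1 : ∀ j, ∃ c : I → k, ∑ i, c i • u i = v 0 ^ (m + 1) * v j := fun j =>
    (mem_span_range_iff_exists_fun k).1 (by
      rw [hu, pow_succ V]; exact mul_mem_mul (pow_mem_pow V (hv 0) _) (hv j))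
  choose c hc using h1
  have h2 : Wr d (tup u fun x => c x.1 x.2) ≠ 0 := by
    have : (tup u fun x => c x.1 x.2) = fun j => v 0 ^ (m + 1) * v j := funext hc
    rw [this, wr_mul]
    exact mul_ne_zero (pow_ne_zero _ (pow_ne_zero _ h0)) hv0
  obtain ⟨φ, hφ⟩ := Module.Projective.exists_dual_ne_zero k h2
  have key : ∀ l : Fin (m + 2) × I → k, MvPolynomial.eval l (∑ r : Fin (m + 2) → I,
      (∏ j, MvPolynomial.X (j, r j)) * MvPolynomial.C (φ (Wr d fun j => u (r j)))) =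
      φ (Wr d (tup u l)) := by
    intro l
    have e := (wrA d).toMultilinearMap.map_sum (g := fun j i => l (j, i) • u i)
    have e' : Wr d (tup u l) = ∑ r : Fin (m + 2) → I, (∏ j, l (j, r j)) • Wr d fun j => u (r j) := by
      rw [← wrA_apply]
      refine e.trans (Finset.sum_congr rfl fun r _ => ?_)
      rw [← wrA_apply]
      exact (wrA d).map_smul_univ (fun j => l (j, r j)) fun j => u (r j)
    rw [e', map_sum, map_sum]
    refine Finset.sum_congr rfl fun r _ => ?_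
    simp
  generalize (∑ r : Fin (m + 2) → I, (∏ j, MvPolynomial.X (j, r j)) *
    MvPolynomial.C (φ (Wr d fun j => u (r j))) : MvPolynomial (Fin (m + 2) × I) k) = D at key
  refine ⟨D, fun h => hφ ?_, fun l hl h => hl ?_⟩
  · rw [← key, h, map_zero]
  · rw [key, h, map_zero]

/-- A nonzero regular function that vanishes along `w`. -/
theorem exists_vanish (hU : UniStmt k K m) {t : Fin (m + 1) → K} (hF : Fr t d)
    (hJ : JJ d U ≠ ⊥) {w : DV k K} (hw : U ≤ w.fil 0) :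
    ∃ h ∈ alg U, h ≠ 0 ∧ h ∈ w.fil 1 := by
  obtain ⟨g, hg, hg0⟩ : ∃ g : Fin (m + 1) → K, (∀ i, g i ∈ U) ∧ Jac d g ≠ 0 := by
    by_contra hc
    refine hJ (eq_bot_iff.2 (JJ_le fun v hv => ?_))
    by_contra h
    exact hc ⟨v, hv, h⟩
  have h1 := (hU t g d w hF fun i => hw (hg i)).1
  simp only [DV.Ind, not_forall] at h1
  obtain ⟨P, hP, hP0⟩ := h1
  refine ⟨_, ?_, fun h => hP0 ((algebraicIndependent_iff.1 (hF.of_jac hg0).ind) P h), hP⟩
  have h2 : MvPolynomial.aeval g P ∈ Algebra.adjoin k (Set.range g) := by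
    rw [Algebra.adjoin_range_eq_range_aeval]; exact ⟨P, rfl⟩
  exact Algebra.adjoin_mono (by rintro _ ⟨i, rfl⟩; exact hg i) h2

theorem one_mem_sup {h : K} {Q : Submodule k K} (h1 : h ∈ alg T) (h2 : h ∉ nn T) (h3 : h ∈ Q) :
    (1 : K) ∈ nn T ⊔ Q := by
  obtain ⟨a, ha, n, hn, rfl⟩ := mem_sup.1 (Num.alg_le T h1)
  obtain ⟨c, rfl⟩ := mem_one.1 ha
  have hc : c ≠ 0 := by
    rintro rfl
    exact h2 (by simpa [nn] using hn)
  have e : (1 : K) = c⁻¹ • (-n) + c⁻¹ • (algebraMap k K c + n) := by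
    rw [← smul_add, Algebra.algebraMap_eq_smul_one]
    simp [hc]
  rw [e]
  exact add_mem_sup (smul_mem _ _ (neg_mem hn)) (smul_mem _ _ h3)

section chart

variable {t : Fin (m + 1) → K} {I : Type} [Fintype I] {u : I → K} {μ : ℕ} {M₀ : Submodule k K}

theorem cx_gen (hX : LocXStmt k K m) (hC : CoreStmt k K m) (hF : Fr t d) (hU : U.FG)
    (hu : span k (Set.range u) = U ^ (m + 2)) (hM : M₀.FG)
    (hg : ∀ T, Pnt U T → GoodX d μ T) (i₀ : Fin (m + 2)) :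
    Gen fun l : Fin (m + 2) × I → k => ∀ T, Pnt U T → ∀ c : Fin (m + 1) → k,
      tup u l i₀ ∉ nn T → (∀ i, tup u l (i₀.succAbove i) - c i • tup u l i₀ ∈ nn T) →
      CX d (cst m μ) T M₀ fun i => tup u l (i₀.succAbove i) - c i • tup u l i₀ := by
  refine g_mono (hC t d U I u i₀ (m + 1) (cst m μ) id
    {x : Submodule k K × ℕ // x.1.FG ∧ M₀ ≤ x.1} (fun x => x.1.1 * JJ d U ^ x.1.2)
    (fun _ => ⊥) (fun _ => ⊥) hF hU hu (fun x => x.2.1.mul ((JJ_fg hU).pow _))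
    (fun _ => by simp) (fun _ => by simp) (fun _ => by simp) fun T hT S₀ _ _ => ?_)
    fun l hl T hT c h1 h2 => ?_
  · obtain ⟨τ, h1, h2⟩ := hX d μ T M₀ (fg_pnt hT hU) hM (hg T hT)
    refine ⟨τ, h1, fun a ha => ?_⟩
    obtain ⟨MM, b, h3, h4, h5⟩ := h2 a ha
    refine ⟨⟨(MM, b), h3, h4⟩, ?_⟩
    rw [Mb, alg_pnt hT, JJ_pnt hT] at h5
    simpa using h5
  · obtain ⟨⟨⟨MM, b⟩, h3, h4⟩, h5⟩ := hl T hT h1 c h2
    refine ⟨MM, b, h3, h4, ?_⟩
    rw [Mb, alg_pnt hT, JJ_pnt hT]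
    simpa using h5

theorem cw_gen (hW : LocWStmt k K m) (hC : CoreStmt k K m) (hF : Fr t d) (hU : U.FG)
    (hu : span k (Set.range u) = U ^ (m + 2)) {w : DV k K} (hw : U ≤ w.fil 0)
    (hg : ∀ T, Pnt U T → Gr m μ T (alg T) (w.fil 1)) (i₀ : Fin (m + 1)) :
    Gen fun l : Fin (m + 2) × I → k => ∀ T, Pnt U T → ∀ c : Fin m → k,
      tup u l i₀.castSucc ∉ nn T →
      (∀ i, tup u l (i₀.succAbove i).castSucc - c i • tup u l i₀.castSucc ∈ nn T) →
      Ld (cst m μ) T (fun i => tup u l (i₀.succAbove i).castSucc - c i • tup u l i₀.castSucc)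
        (alg T) (w.fil 1) := by
  refine g_mono (hC t d U I u i₀.castSucc m (cst m μ) Fin.castSucc Unit (fun _ => 1)
    (fun _ => ⊥) (fun _ => w.fil 1) hF hU hu (fun _ => pr_one (k := k) (K := K) ▸ fg_span_singleton _)
    (fun _ => by simp) (fun _ => by simp) (fun _ => alg_mul_fil hw) fun T hT S₀ _ _ => ?_)
    fun l hl T hT c h1 h2 => ?_
  · obtain ⟨τ, h1, h2⟩ := hW μ T w (fg_pnt hT hU) ((le_pnt hT).trans hw) (hg T hT)
    refine ⟨τ, h1, fun a ha => ⟨(), ?_⟩⟩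
    have h5 := h2 a ha
    rw [alg_pnt hT] at h5
    simpa using h5
  · simp only [Fin.castSucc_succAbove_castSucc] at hl
    obtain ⟨-, h5⟩ := hl T hT h1 c h2
    rw [alg_pnt hT]
    simpa using h5

theorem cp_gen (hP : LocPStmt k K m) (hC : CoreStmt k K m) (hm : 0 < m) (hk : Big k (m + 2))
    (hF : Fr t d) (hU : U.FG) (hu : span k (Set.range u) = U ^ (m + 2))
    (hg : ∀ T, Pnt U T → GoodX d μ T) (i₀ : Fin (m + 1)) :
    Gen fun l : Fin (m + 2) × I → k => ∀ T, Pnt U T → ∀ c : Fin m → k,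
      tup u l i₀.castSucc ∉ nn T →
      (∀ i, tup u l (i₀.succAbove i).castSucc - c i • tup u l i₀.castSucc ∈ nn T) →
      CP d (cst m μ) T (fun i => tup u l (i₀.succAbove i).castSucc - c i • tup u l i₀.castSucc)
        (Wr d (tup u l)) := by
  refine g_mono (hC t d U I u i₀.castSucc m (cst m μ) Fin.castSucc
    {x : Submodule k K × ℕ // x.1.FG ∧ x.1 ≠ ⊥} (fun x => x.1.1 * JJ d U ^ (x.1.2 + 1))
    (fun x => alg U * (x.1.1 * JJ d U ^ x.1.2)) (fun _ => ⊥) hF hU hu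
    (fun x => x.2.1.mul ((JJ_fg hU).pow _)) (fun x => ?_) (fun x => ?_) (fun _ => by simp)
    fun T hT S₀ hS hS' => ?_) fun l hl T hT c h1 h2 => ?_
  · have h1 : WW d (alg U) ≤ alg U * JJ d U :=
      WW_le_mul.trans ((mul_le_mul_right (JJ_adjoin U) _).trans (by
        rw [← mul_assoc]; exact mul_le_mul_left (alg_mul_alg U) _))
    calc _ ≤ alg U * JJ d U * (alg U * (x.1.1 * JJ d U ^ x.1.2)) := mul_le_mul_left h1 _
      _ = alg U * alg U * (x.1.1 * JJ d U ^ (x.1.2 + 1)) := by ring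
      _ ≤ _ := mul_le_mul_left (alg_mul_alg U) _
  · rw [← mul_assoc]; exact mul_le_mul_left (alg_mul_alg U) _
  · obtain ⟨τ, h1, h2⟩ := hP hm hk d μ T S₀ (fg_pnt hT hU) (hg T hT)
      (alg_pnt hT ▸ pow_le_alg U _ hS) hS'
    refine ⟨τ, h1, fun a ha => ?_⟩
    obtain ⟨MM, b, h3, h4, h5⟩ := h2 a ha
    refine ⟨⟨(MM, b), h3, h4⟩, ?_⟩
    rw [Mb, Mb, alg_pnt hT, JJ_pnt hT] at h5
    rw [pr_wr, sup_bot_eq]
    exact h5
  · simp only [Fin.castSucc_succAbove_castSucc] at hl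
    obtain ⟨⟨⟨MM, b⟩, h3, h4⟩, h5⟩ := hl T hT h1 c h2
    refine ⟨MM, b, h3, h4, ?_⟩
    rw [Mb, Mb, alg_pnt hT, JJ_pnt hT]
    rw [sup_bot_eq] at h5
    exact h5

/-- A general tuple is good at all points of one chart. -/
theorem at_gen (hX : LocXStmt k K m) (hW : LocWStmt k K m) (hP : LocPStmt k K m)
    (hC : CoreStmt k K m) (hB : BpfStmt k K m) (hBa : BaseStmt k K m) (hUn : UniStmt k K m)
    (hk : Big k (m + 2)) (hF : Fr t d) (hU : U.FG) (hJ : JJ d U ≠ ⊥)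
    (hu : span k (Set.range u) = U ^ (m + 2)) (hM : M₀.FG) {D : Set (DV k K)} (hD : D.Finite)
    (hw : ∀ w ∈ D, U ≤ w.fil 0)
    (hg : ∀ T, Pnt U T → GoodX d μ T ∧ ∀ w ∈ D, Gr m μ T (alg T) (w.fil 1)) :
    Gen fun l : Fin (m + 2) × I → k => ∀ T, Pnt U T → At d (cst m μ) D M₀ T (tup u l) := by
  have g1 := hB.all t d U I u hF hU hu
  have g2 := g_fin (cx_gen hX hC hF hU hu hM fun T hT => (hg T hT).1)
  have g3 := g_all hD fun w hwD =>
    g_fin (cw_gen hW hC hF hU hu (hw w hwD) fun T hT => (hg T hT).2 w hwD)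
  have g4 := g_fin fun hm : PLift (0 < m) =>
    g_fin (cp_gen hP hC hm.down hk hF hU hu fun T hT => (hg T hT).1)
  have g5 := hBa t d U I u hF hU hJ hu
  have g6 : Gen fun l : Fin (m + 2) × I → k => ∀ w ∈ D, ∀ T, Pnt U T →
      (∀ i : Fin (m + 1), tup u l i.castSucc ∈ nn T) → (1 : K) ∈ nn T ⊔ w.fil 1 := by
    refine g_all hD fun w hwD => ?_
    obtain ⟨h, h1, h2, h3⟩ := exists_vanish hUn hF hJ (hw w hwD)
    refine g_mono (hB.hyp t d U I u h hF hU hu h1 h2) fun l hl T hT h4 => ?_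
    refine one_mem_sup (alg_pnt hT ▸ h1) (fun h5 => ?_) h3
    obtain ⟨j, hj⟩ := hl T hT h5
    exact hj (h4 j)
  refine g_mono (g_and (g_and (g_and g1 g2) (g_and g3 g4)) (g_and g5 g6)) ?_
  rintro l ⟨⟨⟨a1, a2⟩, a3, a4⟩, a5, a6⟩ T hT
  exact ⟨a1 T hT, fun i₀ c => a2 i₀ T hT c,
    fun i₀ c h1 h2 => ⟨fun w hwD => a3 w hwD i₀ T hT c h1 h2, fun hm => a4 ⟨hm⟩ i₀ T hT c h1 h2⟩,
    fun h => ⟨fun w hwD => a6 w hwD T hT h, a5 T hT h⟩⟩

end chart

end GenM

open GenM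

theorem gen_of [IsAlgClosed k] (hX : LocXStmt k K m) (hW : LocWStmt k K m) (hP : LocPStmt k K m)
    (hC : CoreStmt k K m) (hB : BpfStmt k K m) (hBa : BaseStmt k K m) (hUn : UniStmt k K m) :
    GenStmt k K m := by
  classical
  intro hk t d S μ V M₀ hF hA hM
  obtain ⟨G, hG⟩ := hA.fg
  obtain ⟨n, u, hu⟩ := fg_iff_exists_fin_generating_family.1 (hA.fg.pow (m + 2))
  have hne : ∀ σ ∈ G.erase 0, σ ≠ 0 := fun σ h => Finset.ne_of_mem_erase h
  have g1 : Gen fun l : Fin (m + 2) × Fin n → k => ∀ σ ∈ (G.erase 0 : Set K), ∀ T, Hyp V σ T →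
      (1 : K) ∉ nn T → At d (cst m μ) {w | w ∈ DD d S V ∧ w.Min V σ} M₀ T
        fun j => tup u l j / σ ^ (m + 2) := by
    refine g_all (Finset.finite_toSet _) fun σ hσ => ?_
    have h0 := hne σ hσ
    refine g_mono (at_gen (D := {w | w ∈ DD d S V ∧ w.Min V σ}) (μ := μ) hX hW hP hC hB hBa hUn hk
      hF ((fg_span_singleton σ⁻¹).mul hA.fg) (JJ_ne h0 hA.ne) (span_div hu) hM
      (hA.fin.subset fun w hw => hw.1) (fun w hw x hx => ?_) fun T hT => ?_)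
      fun l hl T hT h1 => ?_
    · obtain ⟨v, hv, rfl⟩ := Num.mem_pr_mul.1 hx
      exact div_mem_fil hA.fg hw.2 hv
    · have h1 := hA.good σ T (hyp_of_pnt h0 hT)
      exact ⟨h1.1, fun w hw => h1.2 w hw.1 hw.2⟩
    · rw [← tup_div]
      exact hl T (pnt_of_hyp hT h1)
  obtain ⟨l, a1, a2⟩ := g_exists (g_and g1 (wr_gen hu hA.ne))
  refine ⟨G.erase 0, tup u l, ?_, hne, fun j => ?_, a2, fun σ hσ => a1 σ hσ⟩
  · rw [Finset.coe_erase, span_sdiff_singleton_zero, hG]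
  · rw [← hu]
    exact sum_mem fun i _ => smul_mem _ _ (subset_span ⟨i, rfl⟩)

end Pool.Agent.MP_19ffc6_ag.Res.PA
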