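import Pool.Agent.MP_19ffc6_ag.Res.ASpec
import Pool.Agent.MP_19ffc6_ag.Res.LocK

/-! PROJECT RES, part A: module LOCB. Off a hypersurface the module of Jacobians is free of rank
one, and a general Jacobian generates it. -/

namespace Pool.Agent.MP_19ffc6_ag.Res.PA

open Submodule Polynomial Pool.Agent.MP_19ffc6_ag.Res.PA.Num Pool.Agent.MP_19ffc6_ag.Res.PA.LocK

variable {k K : Type} [Field k] [Field K] [Algebra k K] {m : ℕ}

namespace LocB

/-- A derivation that maps a separating set into a subfield preserves the subfield. -/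
theorem der_mem (F : IntermediateField k K) {S : Set K} (hS : S ⊆ F)
    [Algebra.IsSeparable (IntermediateField.adjoin k S) K] (D : Derivation k K K)
    (hD : ∀ x ∈ S, D x ∈ F) {a : K} (ha : a ∈ F) : D a ∈ F := by
  have h0 : IntermediateField.adjoin k S ≤ F := IntermediateField.adjoin_le_iff.2 hS
  have h1 : ∀ x ∈ IntermediateField.adjoin k S, D x ∈ F := fun x hx => by
    induction hx using IntermediateField.adjoin_induction with
    | mem x hx => exact hD x hx
    | algebraMap x => simp
    | add x y _ _ a b => rw [map_add]; exact add_mem a b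
    | inv x hx a =>
      rw [Derivation.leibniz_inv, smul_eq_mul]
      exact mul_mem (neg_mem (pow_mem (inv_mem (h0 hx)) _)) a
    | mul x y hx hy a b =>
      rw [Derivation.leibniz, smul_eq_mul, smul_eq_mul]
      exact add_mem (mul_mem (h0 hx) b) (mul_mem (h0 hy) a)
  have h2 : ∀ Q : (IntermediateField.adjoin k S)[X], aeval a Q ∈ F := fun Q => by
    induction Q using Polynomial.induction_on' with
    | add p q hp hq => rw [map_add]; exact add_mem hp hq
    | monomial n c => rw [aeval_monomial]; exact mul_mem (h0 c.2) (pow_mem ha _)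
  have h3 : ∀ Q : (IntermediateField.adjoin k S)[X],
      D (aeval a Q) - aeval a (derivative Q) * D a ∈ F := fun Q => by
    induction Q using Polynomial.induction_on' with
    | add p q hp hq =>
      have e : D (aeval a (p + q)) - aeval a (derivative (p + q)) * D a =
          (D (aeval a p) - aeval a (derivative p) * D a) +
            (D (aeval a q) - aeval a (derivative q) * D a) := by
        simp only [map_add]; ring
      rw [e]; exact add_mem hp hq
    | monomial n c =>
      have e : D (aeval a (monomial n c)) - aeval a (derivative (monomial n c)) * D a =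
          a ^ n * D (c : K) := by
        rw [derivative_monomial, aeval_monomial, aeval_monomial, Derivation.leibniz,
          Derivation.leibniz_pow, map_mul, map_natCast]
        simp only [smul_eq_mul, nsmul_eq_mul, IntermediateField.algebraMap_apply]
        ring
      rw [e]; exact mul_mem (pow_mem ha _) (h1 c c.2)
  have h4 := (Algebra.IsSeparable.isSeparable (IntermediateField.adjoin k S) a).aeval_derivative_ne_zero
    (minpoly.aeval _ a)
  have h5 := h3 (minpoly (IntermediateField.adjoin k S) a)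
  rw [minpoly.aeval, map_zero, zero_sub] at h5
  have h6 := mul_mem (inv_mem (h2 (derivative (minpoly (IntermediateField.adjoin k S) a))))
    (neg_mem h5)
  rwa [neg_neg, ← mul_assoc, inv_mul_cancel₀ h4, one_mul] at h6

/-- Ratios of Jacobians of elements of `U` have a common denominator in `alg U`. -/
theorem exists_den {t g : Fin (m + 1) → K} {d : Fin (m + 1) → Derivation k K K}
    {U : Submodule k K} (hF : Fr t d) (hU : U.FG) (hg : ∀ i, g i ∈ U) (h0 : Jac d g ≠ 0) :
    ∃ h ∈ alg U, h ≠ 0 ∧ ∀ x ∈ JJ d U, h * (x / Jac d g) ∈ alg U := by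
  classical
  have hG := hF.of_jac h0
  have := hG.sep
  let F := IntermediateField.adjoin k (U : Set K)
  have hUF : (U : Set K) ⊆ F := IntermediateField.subset_adjoin _ _
  have hP : Pres (dual d g) F.toSubalgebra := fun i x hx =>
    der_mem F (S := Set.range g) (by rintro _ ⟨j, rfl⟩; exact hUF (hg j)) _ (by
      rintro _ ⟨j, rfl⟩
      rw [hG.dual]
      split_ifs
      exacts [one_mem _, zero_mem _]) hx
  have h1 : ∀ x ∈ JJ d U, x / Jac d g ∈ F := fun x hx => by
    have := JJ_le (N := (Subalgebra.toSubmodule F.toSubalgebra).comap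
      (LinearMap.mulRight k (Jac d g)⁻¹)) (fun h a => by
        rw [Submodule.mem_comap, LinearMap.mulRight_apply, ← div_eq_mul_inv]
        exact hP.jac_div_mem fun i => hUF (a i)) hx
    rwa [Submodule.mem_comap, LinearMap.mulRight_apply, ← div_eq_mul_inv] at this
  have h2 : ∀ x ∈ JJ d U, ∃ s ∈ Algebra.adjoin k (U : Set K), s ≠ 0 ∧
      s * (x / Jac d g) ∈ Algebra.adjoin k (U : Set K) := fun x hx => by
    obtain ⟨r, hr, s, hs, e⟩ := IntermediateField.mem_adjoin_iff_div.1 (h1 x hx)
    by_cases h : s = 0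
    · exact ⟨1, one_mem _, one_ne_zero, by rw [e, h, div_zero, mul_zero]; exact zero_mem _⟩
    · exact ⟨s, hs, h, by rwa [e, mul_div_cancel₀ _ h]⟩
  obtain ⟨Z, hZ⟩ := JJ_fg (d := d) hU
  choose! s s1 s2 s3 using h2
  have h3 : ∀ x ∈ Z, x ∈ JJ d U := fun x hx => hZ ▸ subset_span hx
  refine ⟨∏ x ∈ Z, s x, (Algebra.adjoin k (U : Set K)).prod_mem fun x hx => s1 x (h3 x hx),
    Finset.prod_ne_zero_iff.2 fun x hx => s2 x (h3 x hx), fun x hx => ?_⟩
  have h4 : JJ d U ≤ (alg U).comap (LinearMap.mulLeft k ((∏ x ∈ Z, s x) / Jac d g)) := by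
    rw [← hZ, span_le]
    intro y hy
    have e : (∏ x ∈ Z, s x) / Jac d g * y = (∏ x ∈ Z.erase y, s x) * (s y * (y / Jac d g)) := by
      rw [← Finset.mul_prod_erase Z s hy]; ring
    rw [SetLike.mem_coe, Submodule.mem_comap, LinearMap.mulLeft_apply, e]
    exact (Algebra.adjoin k (U : Set K)).mul_mem ((Algebra.adjoin k (U : Set K)).prod_mem
      fun x hx => s1 x (h3 x (Finset.mem_of_mem_erase hx))) (s3 y (h3 y hy))
  have h5 := h4 hx
  rw [Submodule.mem_comap, LinearMap.mulLeft_apply] at h5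
  rwa [show (∏ x ∈ Z, s x) * (x / Jac d g) = (∏ x ∈ Z, s x) / Jac d g * x by ring]

theorem alg_sup (T : Submodule k K) : alg (1 ⊔ T) = alg T := by
  refine congrArg Subalgebra.toSubmodule (le_antisymm (Algebra.adjoin_le ?_)
    (Algebra.adjoin_mono (SetLike.coe_subset_coe.2 le_sup_right)))
  exact (sup_le (one_le.2 (one_mem_alg T)) (le_alg T) : 1 ⊔ T ≤ alg T)

/-- The value of a function at a rational point. -/
theorem exists_val {T : Submodule k K} {a : K} (ha : a ∈ alg T) :
    ∃ c : k, a - algebraMap k K c ∈ nn T := by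
  change a ∈ Algebra.adjoin k (T : Set K) at ha
  induction ha using Algebra.adjoin_induction with
  | mem x hx => exact ⟨0, by simpa [nn] using mul_mem_mul hx (one_mem_alg T)⟩
  | algebraMap c => exact ⟨c, by simp⟩
  | add x y _ _ a b =>
    obtain ⟨c, a⟩ := a
    obtain ⟨c', b⟩ := b
    exact ⟨c + c', by rw [map_add, add_sub_add_comm]; exact add_mem a b⟩
  | mul x y hx _ a b =>
    obtain ⟨c, a⟩ := a
    obtain ⟨c', b⟩ := b
    refine ⟨c * c', ?_⟩
    have e : x * y - algebraMap k K (c * c') =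
        x * (y - algebraMap k K c') + c' • (x - algebraMap k K c) := by
      rw [map_mul, Algebra.smul_def]; ring
    rw [e]
    exact add_mem ((md_nn T).mem hx b) (smul_mem _ _ a)

theorem exists_val_ne {T : Submodule k K} {a : K} (ha : a ∈ alg T) (h : a ∉ nn T) :
    ∃ c : k, c ≠ 0 ∧ a - algebraMap k K c ∈ nn T := by
  obtain ⟨c, hc⟩ := exists_val ha
  exact ⟨c, fun e => h (by simpa [e] using hc), hc⟩

/-- The Wronskian of a tuple that vanishes at the point and a unit. -/
theorem wr_snoc {d : Fin (m + 1) → Derivation k K K} {T : Submodule k K} {l : Fin (m + 1) → K}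
    (hl : ∀ i, l i ∈ T) {S : K} (hS : S ∈ alg T) {s : k} (hs : S - algebraMap k K s ∈ nn T) :
    Wr d (Fin.snoc l S) - ((-1) ^ (m + 1) * s) • Jac d l ∈ T * (alg T * JJ d T) := by
  have hv : ∀ i, (Fin.snoc l S : Fin (m + 2) → K) i ∈ alg T := fun i =>
    Fin.lastCases (by simpa using hS) (fun j => by simpa using le_alg T (hl j)) i
  rw [wr_expand, Fin.sum_univ_castSucc, add_sub_assoc]
  refine add_mem (sum_mem fun i _ => ?_) ?_
  · refine mul_mem_mul ?_ (JJ_adjoin T (jac_mem fun r => hv _))
    rcases neg_one_pow_eq_or K (i.castSucc : ℕ) with e | e <;> rw [e] <;> simp [hl i]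
  · have e : (-1 : K) ^ ((Fin.last (m + 1) : Fin (m + 2)) : ℕ) *
        (Fin.snoc l S : Fin (m + 2) → K) (Fin.last (m + 1)) *
        (Jac d fun r => (Fin.snoc l S : Fin (m + 2) → K) ((Fin.last (m + 1)).succAbove r)) -
        ((-1) ^ (m + 1) * s) • Jac d l =
        ((-1 : k) ^ (m + 1)) • ((S - algebraMap k K s) * Jac d l) := by
      simp only [Fin.succAbove_last, Fin.snoc_castSucc, Fin.snoc_last, Fin.val_last,
        Algebra.smul_def, map_mul, map_pow, map_neg, map_one]
      ring
    rw [e, ← mul_assoc]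
    exact smul_mem _ _ (mul_mem_mul hs (jac_mem hl))

end LocB

open LocB in
/-- Module LOCB. -/
theorem locB : LocBStmt k K m := by
  intro t d U hF hU hJ
  obtain ⟨g, hg, h0⟩ : ∃ g : Fin (m + 1) → K, (∀ i, g i ∈ U) ∧ Jac d g ≠ 0 := by
    by_contra hc
    push Not at hc
    exact hJ (le_bot_iff.1 (JJ_le fun g a => (mem_bot k).2 (hc g a)))
  obtain ⟨h, h1, h2, h3⟩ := exists_den hF hU hg h0
  refine ⟨h, h1, h2, fun T hT hh S hS hS' => ?_⟩
  have e1 : alg U = alg T := by rw [hT.1, alg_sup]
  have e2 : JJ d U = JJ d T := by rw [hT.1, sup_comm, JJ_sup_one]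
  have hW : Jac d g ∈ JJ d T := e2 ▸ jac_mem hg
  rw [e1] at h1
  rw [e1, e2] at h3
  obtain ⟨l, hl, hl'⟩ : ∃ l : Fin (m + 1) → K, (∀ i, l i ∈ T) ∧
      h * (Jac d l / Jac d g) ∉ nn T := by
    by_contra hc
    push Not at hc
    have := JJ_le (N := (nn T).comap (LinearMap.mulLeft k (h / Jac d g))) (fun l a => by
      rw [Submodule.mem_comap, LinearMap.mulLeft_apply,
        show h / Jac d g * Jac d l = h * (Jac d l / Jac d g) by ring]
      exact hc l a) hW
    rw [Submodule.mem_comap, LinearMap.mulLeft_apply, div_mul_cancel₀ _ h0] at this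
    exact hh this
  refine ⟨l, hl, fun a ha => ⟨1, ?_, ?_, ?_⟩⟩
  · rw [one_eq_span]; exact fg_span_singleton _
  · exact fun e => one_ne_zero ((mem_bot k).1 (e ▸ one_le.1 (le_refl (1 : Submodule k K))))
  obtain ⟨η, η0, hη⟩ := exists_val_ne h1 hh
  obtain ⟨b, b0, hb⟩ := exists_val_ne (h3 _ (jac_mem hl)) hl'
  obtain ⟨s, s0, hs⟩ := exists_val_ne hS hS'
  have hw := wr_snoc (d := d) (l := fun i => a • l i) (fun i => smul_mem _ _ (hl i)) hS hs
  have e3 : Jac d (fun i => a • l i) = a ^ (m + 1) • Jac d l := by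
    rw [← jacA_apply, ← jacA_apply, AlternatingMap.map_smul_univ]
    simp
  rw [e3, smul_smul] at hw
  simp only [Mb, pow_one, pow_zero, one_mul, mul_one]
  generalize Wr d (Fin.snoc (fun i => a • l i) S) = W at hw
  have hM : Md T (pr k W * alg T ⊔ T * (alg T * JJ d T)) :=
    ((md_alg T).mul _).sup (((md_alg T).mul' _).mul _)
  have hN : ∀ ν ∈ nn T, ∀ x ∈ JJ d T, ν * x ∈ pr k W * alg T ⊔ T * (alg T * JJ d T) :=
    fun ν a x b => mem_sup_right (by rw [← mul_assoc]; exact mul_mem_mul a b)
  have c0 : (-1) ^ (m + 1) * s * a ^ (m + 1) ≠ 0 :=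
    mul_ne_zero (mul_ne_zero (pow_ne_zero _ (neg_ne_zero.2 one_ne_zero)) s0) (pow_ne_zero _ ha)
  have f1 : Jac d l ∈ pr k W * alg T ⊔ T * (alg T * JJ d T) := by
    rw [← smul_mem_iff _ c0]
    have := sub_mem (mem_sup_left (mem_pr_mul.2 ⟨1, one_mem_alg T, mul_one W⟩))
      (mem_sup_right (S := pr k W * alg T) hw)
    rwa [sub_sub_cancel] at this
  have f2 : Jac d g ∈ pr k W * alg T ⊔ T * (alg T * JJ d T) := by
    rw [← smul_mem_iff _ b0]
    have := sub_mem (hM.mem h1 f1) (hN _ hb _ hW)
    rwa [show h * Jac d l - (h * (Jac d l / Jac d g) - algebraMap k K b) * Jac d g =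
      b • Jac d g by rw [Algebra.smul_def]; field_simp; ring] at this
  refine mul_le.2 fun y hy x hx => hM.mem hy ?_
  rw [← smul_mem_iff _ η0]
  have := sub_mem (hM.mem (h3 x hx) f2) (hN _ hη _ hx)
  rwa [show h * (x / Jac d g) * Jac d g - (h - algebraMap k K η) * x = η • x by
    rw [Algebra.smul_def]; field_simp; ring] at this

end Pool.Agent.MP_19ffc6_ag.Res.PA
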