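import Pool.Agent.MP_19ffc6_ag.Res.LocR
import Pool.Agent.MP_19ffc6_ag.Res.ASpec

/-! PROJECT RES, part A: the linear family for the polar divisor. -/

namespace Pool.Agent.MP_19ffc6_ag.Res.PA

open Submodule Finset Filter Pool.Agent.MP_19ffc6_ag.Res.PA.Num Polynomial

variable {k K : Type} [Field k] [Field K] [Algebra k K] {m : ℕ}

namespace LocK

theorem wr_row (d : Fin (m + 1) → Derivation k K K) (S₀ : K) (v : Fin (m + 1) → K)
    (c : Fin (m + 1) → k) (hc : c (Fin.last m) = 0) :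
    Wr d (Fin.cons S₀ fun i => v i - c i • v (Fin.last m)) = Wr d (Fin.cons S₀ v) := by
  refine Matrix.det_eq_of_forall_row_eq_smul_add_const
    (Fin.cons 0 fun i => -algebraMap k K (c i)) (Fin.last m).succ (by simp [hc]) fun i j => ?_
  refine Fin.cases ?_ (fun i => ?_) i <;> refine Fin.cases ?_ (fun j => ?_) j <;>
    simp [Algebra.smul_def, sub_eq_add_neg, -Fin.succ_last]

theorem exists_order {n : ℕ} {a : Fin n → k} (ha : a ≠ 0) : ∃ (j : Fin n) (f₀ : k[X]),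
    f₀.coeff 0 ≠ 0 ∧ ∀ x : K, ∑ r, a r • x ^ (r + 1 : ℕ) = aeval x (X ^ (j + 1 : ℕ) * f₀) := by
  classical
  obtain ⟨j, h1, h2⟩ := exists_min_image (univ.filter fun r => a r ≠ 0) id
    ((Function.ne_iff.1 ha).imp fun r h => by simpa using h)
  have h3 : ∀ r, r < j → a r = 0 := fun r hr => by
    by_contra c
    exact (h2 r (by simpa using c)).not_gt hr
  refine ⟨j, ∑ r : Fin n, monomial ((r : ℕ) - j) (a r), ?_, fun x => ?_⟩
  · rw [finsetSum_coeff, sum_eq_single j (fun r _ hr => ?_) (by simp)]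
    · simpa using h1
    · rcases lt_or_gt_of_ne hr with c | c
      · simp [h3 r c]
      · rw [coeff_monomial, if_neg (Nat.sub_pos_of_lt c).ne']
  · simp only [map_mul, map_pow, aeval_X, map_sum, aeval_monomial, mul_sum]
    refine sum_congr rfl fun r _ => ?_
    rcases lt_or_ge r j with c | c
    · simp [h3 r c]
    · rw [Algebra.smul_def, mul_left_comm, ← pow_add]
      congr 2
      have : (j : ℕ) ≤ r := c
      omega

theorem cst_bound (μ j : ℕ) (hj : j < m + 2) :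
    2 * μ * (2 * (j + 1 + 1) * (m + 1)) ^ m +
      j * (m + 1) * ((2 ^ (m + 1) * μ + 1) * (2 * (j + 1 + 1) * (m + 1)) ^ m) ≤ cst m μ := by
  have h1 : 2 ^ m * (2 * (j + 1 + 1) * (m + 1)) ^ m ≤ (8 * (m + 2) ^ 2) ^ (m + 1) := by
    rw [← mul_pow]
    exact (Nat.pow_le_pow_left (by nlinarith) _).trans
      (Nat.pow_le_pow_right (by positivity) (Nat.le_succ m))
  have h2 : 1 ≤ 2 ^ m := Nat.one_le_two_pow
  have h3 : 2 ^ (m + 1) * μ + 1 ≤ (2 * μ + 1) * 2 ^ m := by rw [pow_succ]; nlinarith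
  have h4 : 2 * μ ≤ (2 * μ + 1) * 2 ^ m := by nlinarith
  have h5 : 1 + j * (m + 1) ≤ (m + 2) ^ 2 := by nlinarith
  calc _ ≤ (2 * μ + 1) * 2 ^ m * (2 * (j + 1 + 1) * (m + 1)) ^ m + j * (m + 1) *
        ((2 * μ + 1) * 2 ^ m * (2 * (j + 1 + 1) * (m + 1)) ^ m) := by gcongr
    _ = (1 + j * (m + 1)) * (2 * μ + 1) * (2 ^ m * (2 * (j + 1 + 1) * (m + 1)) ^ m) := by ring
    _ ≤ _ := by unfold cst; gcongr

end LocK

open LocK

theorem locP [Infinite k] : LocPStmt k K m := by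
  rintro hm hk d μ T S₀ hT ⟨M₀, f0, hX⟩ hS hS'
  have f1 : (M₀ ⊔ 1).FG := f0.sup (one_eq_span (R := k) (A := K) ▸ fg_span_singleton 1)
  have hF := fam_Mb hT (JJ_fg (d := d) hT) f1
  obtain ⟨P, P', b₀, p1, p2, p3, p4, hG⟩ := sm_gr hT (JJ_fg (d := d) hT) f1
  obtain ⟨P₂, b₁, p5, p6, hW⟩ := hF.exists_supW
  obtain ⟨g1, g2, g3⟩ := hG (b₀ + b₁) (Nat.le_add_right _ _) μ m (hX _ f1 le_sup_left)
  set M := Mb T (JJ d T) (M₀ ⊔ 1) with hM
  set b := b₀ + b₁
  have md : ∀ b, Md T (M b) := md_Mb _ _ _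
  have fd : ∀ b Q L, Fd (M b) (T ^ L * M b ⊔ Q) := fun b Q L => hF.fd' le_rfl le_sup_left
  have hJ : ∀ p, ¬ JJ d T ≤ p → Op k fun l : Fin (m + 1) → T => Jac d (fun i => l i) ∉ p :=
    fun p hp => op_multi (jacA d).toMultilinearMap (by
      by_contra c
      exact hp (JJ_le fun g hg => not_not.1 fun c' => c ⟨fun i => ⟨g i, hg i⟩, c'⟩))
  obtain ⟨l', ⟨r1, r2⟩, r3, r4⟩ := (((op_rd hT (md b) md_bot (fd b ⊥) g1).and
    (op_forall p1 fun p hp => hJ p (p2 p hp))).and ((op_forall p5 fun p hp => hJ p (p6 p hp)).and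
      (op_forall p3 fun p hp => op_forall Set.finite_univ fun i _ => op_entry i (p4 p hp)))).1
  obtain ⟨l, hl, rfl⟩ : ∃ l : Fin (m + 1) → K, ∃ hl : ∀ i, l i ∈ T, l' = fun i => ⟨l i, hl i⟩ :=
    ⟨fun i => l' i, fun i => (l' i).2, rfl⟩
  dsimp only at r1 r2 r3 r4
  have r5 : Rd T 1 l (M (b + 1)) ⊥ := by
    rw [hF.succ]
    simpa using rd_mul r1 (JJ d T)
  have g4 := fun i => g3 _ (hl i) (fun p hp => r4 p hp i trivial) hm
  have g5 := g2 _ (jac_mem hl) r2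
  have sw := hW _ (jac_mem hl) r3
  obtain ⟨c', c1, c2⟩ := gen_exists (gen_and (gen_forall fun j : Fin (m + 2) =>
    elim_gen (md _) ((md b).mul _) (fd _ _) (g5 1 one_ne_zero (Jac d l) (by simp)) (Nat.succ_pos j)
      (fun i => pow_mem_alg (hl i) _) (rd_mono (rd_pow (md _) md_bot hl r5 _) bot_le))
    (gen_forall fun j : Fin (m + 2) => gen_forall fun i =>
      elim_gen (md _) ((md b).mul _) (fd _ _) (g4 i) (Nat.succ_pos j)
      (fun i => pow_mem_alg (hl i) _) (rd_mono (rd_pow (md _) md_bot hl r1 _) bot_le)))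
  let c : Fin (m + 1) → k := Fin.snoc (fun i => c' i.castSucc / c' (Fin.last m)) 0
  have ln : ∀ i, l i ∈ nn T := fun i => by simpa [nn] using pow_mem_alg (hl i) 1
  refine ⟨LinearMap.pi fun i => Fintype.linearCombination k fun r : Fin (m + 2) =>
    l i ^ (r + 1 : ℕ) - c i • l (Fin.last m) ^ (r + 1 : ℕ), fun a i => ?_, fun a ha => ?_⟩
  · have h1 : ∀ (r : Fin (m + 2)) i, l i ^ (r + 1 : ℕ) ∈ (1 ⊔ T) ^ (m + 2) ⊓ nn T := fun r i =>
      ⟨SetLike.le_def.1 (pow_le_pow_right' le_sup_left (Nat.succ_le_of_lt r.2))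
        (pow_mem_pow _ (mem_sup_right (hl i)) _),
        pow_succ (l i) r ▸ (md_nn T).mem (pow_le_alg (le_alg T) r (pow_mem_pow _ (hl i) _)) (ln i)⟩
    rw [LinearMap.pi_apply, Fintype.linearCombination_apply]
    exact Submodule.mem_inf.1 (sum_mem fun r _ => smul_mem _ (a r)
      (sub_mem (h1 r i) (smul_mem _ (c i) (h1 r (Fin.last m)))))
  obtain ⟨j, f₀, e1, e2⟩ := exists_order (K := K) ha
  obtain ⟨s₀, s1, s2⟩ : ∃ s₀ : k, s₀ ≠ 0 ∧ S₀ - algebraMap k K s₀ ∈ nn T := by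
    obtain ⟨_, ⟨s, rfl⟩, y, hy, rfl⟩ := mem_sup.1 (alg_le T hS)
    exact ⟨s, fun c => hS' (by simpa [c, nn] using hy), by
      simpa [nn, Algebra.algebraMap_eq_smul_one] using hy⟩
  have hN : ∀ a ∈ Algebra.adjoin k (T : Set K), ∀ x ∈ nn T, a * x ∈ nn T :=
    fun _ a _ x => (md_nn T).mem a x
  have la : ∀ i, l i ∈ Algebra.adjoin k (T : Set K) := fun i => le_alg T (hl i)
  obtain ⟨W, w1, w2⟩ := wr_poly (d := d) hN hS s2 la ln j f₀
  have hu : s₀ * (((j + 1 : ℕ) : k) * f₀.coeff 0) ^ (m + 1) ≠ 0 :=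
    mul_ne_zero s1 (pow_ne_zero _ (mul_ne_zero (hk _ (Nat.succ_pos _) j.2) e1))
  have w3 : ∀ b, ∀ x ∈ M b, (W - (s₀ * (((j + 1 : ℕ) : k) * f₀.coeff 0) ^ (m + 1)) • Jac d l) * x ∈
      T * M (b + 1) := fun b x hx => by
    refine (?_ : nn T * (alg T * JJ d T) * M b ≤ _)
      (mul_mem_mul (mul_le_mul_right (JJ_adjoin T) _ w2) hx)
    refine le_of_eq_of_le (b := T * (alg T * (alg T * (JJ d T * M b)))) (by unfold nn; ring) ?_
    rw [← hF.succ]
    exact mul_le_mul_right ((mul_le_mul_right (md _) _).trans (md _)) _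
  have e3 : ∀ i, ∑ r, a r • (l i ^ (r + 1 : ℕ) - c i • l (Fin.last m) ^ (r + 1 : ℕ)) =
      aeval (l i) (X ^ (j + 1 : ℕ) * f₀) - c i • aeval (l (Fin.last m)) (X ^ (j + 1 : ℕ) * f₀) :=
    fun i => by simp only [← e2, smul_sub, sum_sub_distrib, smul_sum, smul_comm (c i)]
  refine ⟨_, b, f1, fun c => one_ne_zero ((eq_bot_iff.1 c) (mem_sup_right
    (one_le.1 le_rfl)) : (1 : K) = 0), ?_⟩
  change Ld _ T (fun i : Fin m => ∑ r, a r • _) _ (pr k (Wr d (Fin.cons S₀ fun i => ∑ r, a r • _)) * _)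
  simp only [e3]
  rw [wr_row d S₀ _ c (by simp [c]), w1, mul_comm _ W, ← pr_mul_pr, mul_assoc]
  have e4 : ∀ i, aeval (l i) (X ^ (j + 1 : ℕ) * f₀) - f₀.coeff 0 • l i ^ (j + 1 : ℕ) ∈
      T ^ (j + 1 + 1 : ℕ) * alg T := fun i => by
    have := mul_mem_mul (pow_mem_pow T (hl i) (j + 1)) (aeval_sub_mem hN (la i) (ln i) f₀).2
    rw [nn, ← mul_assoc, ← pow_succ] at this
    simpa only [mul_sub, map_mul, map_pow, aeval_X, Algebra.smul_def,
      mul_comm (algebraMap k K _)] using this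
  have e5 : ∀ i : Fin m, aeval (l i.castSucc) (X ^ (j + 1 : ℕ) * f₀) - c i.castSucc •
      aeval (l (Fin.last m)) (X ^ (j + 1 : ℕ) * f₀) - f₀.coeff 0 • (l i.castSucc ^ (j + 1 : ℕ) -
        (c' i.castSucc / c' (Fin.last m)) • l (Fin.last m) ^ (j + 1 : ℕ)) ∈
      T ^ (j + 1 + 1 : ℕ) * alg T := fun i => by
    have := sub_mem (e4 i.castSucc) (smul_mem _ (c i.castSucc) (e4 (Fin.last m)))
    simp only [c, Fin.snoc_castSucc] at this ⊢
    convert this using 1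
    module
  have e6 : ∀ i : Fin m, aeval (l i.castSucc) (X ^ (j + 1 : ℕ) * f₀) - c i.castSucc •
      aeval (l (Fin.last m)) (X ^ (j + 1 : ℕ) * f₀) ∈ alg T := fun i =>
    sub_mem (aeval_sub_mem hN (la _) (ln _) _).1 (smul_mem _ _ (aeval_sub_mem hN (la _) (ln _) _).1)
  have k1 := ld_of_gr (md _) ((md b).mul _) e6 (fd _ _) (g5 _ hu W w3) (rd_congr e1 (md _) e5
    (rd_swap hF sw (Nat.le_add_left _ _) (md _) hu (w3 b) (fun i => sub_mem (pow_mem_alg (hl _) _)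
      (smul_mem _ _ (pow_mem_alg (hl _) _))) (c1 j)))
  have k2 := ld_prod (md b) e6 ((j : ℕ) • (univ : Finset (Fin (m + 1))).val) la fun i _ =>
    ld_of_gr (md _) ((md b).mul _) e6 (fd _ _) (g4 i) (rd_congr e1 (md _) e5 (c2 j i))
  rw [Multiset.map_nsmul, Multiset.prod_nsmul, Multiset.card_nsmul, card_val, card_fin,
    ← prod_eq_multiset_prod, ← prod_pow] at k2
  exact ld_mono (ld_chain (md _) (md b) ((md b).mul _) e6 (fun x hx => by
    obtain ⟨y, hy, rfl⟩ := mem_pr_mul.1 hx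
    exact (sw.congr hF hu w3).mem b y hy) k1 k2) (cst_bound μ j j.2) le_rfl

end Pool.Agent.MP_19ffc6_ag.Res.PA
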