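import Pool.Agent.MP_19ffc6_ag.Res.ASpec

/-! PROJECT RES, part A: modules LOCX and LOCW. At a good point there is a linear family of
tuples of bounded local degree. -/

namespace Pool.Agent.MP_19ffc6_ag.Res.PA

namespace Loc

open Submodule Filter Pool.Agent.MP_19ffc6_ag.Res.PA.Num Pool.Agent.MP_19ffc6_ag.Res.Sup

variable {k K : Type} [Field k] [Field K] [Algebra k K] {T P Q : Submodule k K}

theorem pow_mul_le (hP : T * P ≤ P) (c : ℕ) : T ^ c * P ≤ P := by
  induction c with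
  | zero => rw [pow_zero, one_mul]
  | succ c ih => rw [pow_succ', mul_assoc]; exact (mul_le_mul_right ih _).trans hP

theorem pow_anti (hP : T * P ≤ P) {a b : ℕ} (h : a ≤ b) : T ^ b * P ≤ T ^ a * P := by
  obtain ⟨c, rfl⟩ := Nat.exists_eq_add_of_le h
  rw [pow_add, mul_assoc]
  exact mul_le_mul_right (pow_mul_le hP c) _

theorem mul_pow_le {A : Submodule k K} (hA : A * P ≤ P) (c : ℕ) :
    A * (T ^ c * P) ≤ T ^ c * P := by
  rw [mul_left_comm]
  exact mul_le_mul_right hA _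

theorem alg_mul_le (hP : T * P ≤ P) : alg T * P ≤ P := by
  refine mul_le.2 fun a ha x hx => ?_
  change a ∈ Algebra.adjoin k (T : Set K) at ha
  induction ha using Algebra.adjoin_induction generalizing x with
  | mem a ha => exact hP (mul_mem_mul ha hx)
  | algebraMap c => rw [← Algebra.smul_def]; exact smul_mem _ _ hx
  | add a b _ _ h1 h2 => rw [add_mul]; exact add_mem (h1 x hx) (h2 x hx)
  | mul a b _ _ h1 h2 => rw [mul_assoc]; exact h1 _ (h2 x hx)

theorem mul_alg_le (T : Submodule k K) : T * alg T ≤ alg T :=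
  mul_le.2 fun _ ha _ hx => (Algebra.adjoin k (T : Set K)).mul_mem (Algebra.subset_adjoin ha) hx

theorem le_nn (T : Submodule k K) : T ≤ nn T := fun x hx => by
  have := mul_mem_mul hx (one_mem_alg T)
  rwa [mul_one] at this

/-! ### Reductions -/

section
variable {Λ : Submodule k K} {r : ℕ}

theorem red_shift (hQ : T * Q ≤ Q)
    (h : T ^ (r + 1) * P ≤ Λ * (T ^ r * P) ⊔ T ^ (r + 1 + 1) * P ⊔ Q) (s : ℕ) :
    T ^ (r + s + 1) * P ≤ Λ * (T ^ (r + s) * P) ⊔ T ^ (r + s + 1 + 1) * P ⊔ Q := by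
  have := mul_le_mul_right h (T ^ s)
  rw [Submodule.mul_sup, Submodule.mul_sup] at this
  refine le_trans (le_of_eq (by ring)) (this.trans (sup_le_sup (le_of_eq ?_) (pow_mul_le hQ s)))
  congr 1 <;> ring

theorem red_deep (hP : T * P ≤ P) (hQ : T * Q ≤ Q)
    (h : T ^ (r + 1) * P ≤ Λ * (T ^ r * P) ⊔ T ^ (r + 1 + 1) * P ⊔ Q) (s L : ℕ) :
    T ^ (r + s + 1) * P ≤ Λ * (T ^ (r + s) * P) ⊔ T ^ L * P ⊔ Q := by
  have key : ∀ i, T ^ (r + s + 1) * P ≤ Λ * (T ^ (r + s) * P) ⊔ T ^ (r + (s + i) + 1) * P ⊔ Q := by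
    intro i
    induction i with
    | zero => exact le_sup_right.trans le_sup_left
    | succ i ih =>
      refine ih.trans (sup_le (sup_le (le_sup_left.trans le_sup_left) ?_) le_sup_right)
      exact (red_shift hQ h (s + i)).trans (sup_le_sup_right (sup_le_sup
        (mul_le_mul_right (pow_anti hP (by omega)) _) (pow_anti hP (by omega))) _)
  exact (key L).trans (sup_le_sup_right (sup_le_sup_left (pow_anti hP (by omega)) _) _)

theorem red_pow (hP : T * P ≤ P) (hQ : T * Q ≤ Q) (hΛ : Λ ≤ T)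
    (h : T ^ (r + 1) * P ≤ Λ * (T ^ r * P) ⊔ T ^ (r + 1 + 1) * P ⊔ Q) (c L : ℕ) :
    T ^ (r + c) * P ≤ Λ ^ c * P ⊔ T ^ L * P ⊔ Q := by
  induction c with
  | zero =>
    rw [pow_zero, one_mul]
    exact (pow_mul_le hP _).trans (le_sup_left.trans le_sup_left)
  | succ c ih =>
    refine (red_deep hP hQ h c L).trans
      (sup_le (sup_le ?_ (le_sup_right.trans le_sup_left)) le_sup_right)
    refine (mul_le_mul_right ih Λ).trans ?_
    rw [Submodule.mul_sup, Submodule.mul_sup, pow_succ', mul_assoc]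
    exact sup_le_sup (sup_le_sup_left (mul_pow_le ((mul_le_mul_left hΛ _).trans hP) L) _)
      ((mul_le_mul_left hΛ _).trans hQ)

end

theorem sup_pow_le {A B : Submodule k K} (hA : A * P ≤ P) (hB : B * P ≤ P) :
    ∀ n a b : ℕ, a + b = n → (A ⊔ B) ^ n * P ≤ A ^ a * P ⊔ B ^ b * P := by
  have hS : (A ⊔ B) * P ≤ P := by rw [Submodule.sup_mul]; exact sup_le hA hB
  intro n
  induction n with
  | zero =>
    intro a b h
    obtain rfl : a = 0 := by omega
    simp only [pow_zero]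
    exact le_sup_left
  | succ n ih =>
    rintro (_ | a) b h
    · rw [pow_zero, one_mul]
      exact (pow_mul_le hS _).trans le_sup_left
    rcases b with _ | b
    · rw [pow_zero, one_mul]
      exact (pow_mul_le hS _).trans le_sup_right
    rw [pow_succ', mul_assoc, Submodule.sup_mul]
    refine sup_le ((mul_le_mul_right (ih a (b + 1) (by omega)) A).trans ?_)
      ((mul_le_mul_right (ih (a + 1) b (by omega)) B).trans ?_)
    · rw [Submodule.mul_sup, ← mul_assoc, ← pow_succ']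
      exact sup_le_sup_left (mul_pow_le hA _) _
    · rw [Submodule.mul_sup, ← mul_assoc B (B ^ b), ← pow_succ']
      exact sup_le_sup_right (mul_pow_le hB _) _

theorem pr_pow (x : K) (a : ℕ) : pr k x ^ a = pr k (x ^ a) := by
  rw [pr, pr, span_pow, Set.singleton_pow]

theorem pr_mul_pr (x y : K) : pr k x * pr k y = pr k (x * y) := by
  rw [pr, pr, pr, span_mul_span, Set.singleton_mul_singleton]

theorem pr_le {x : K} {A : Submodule k K} : pr k x ≤ A ↔ x ∈ A := span_singleton_le_iff_mem x A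

theorem span_pow_le {ι : Type} [Fintype ι] (hP : T * P ≤ P) {l : ι → K} (hl : ∀ i, l i ∈ T)
    (a : ℕ) : span k (Set.range l) ^ (Fintype.card ι * a + 1) * P ≤ ⨆ i, pr k (l i ^ a) * P := by
  classical
  have key : ∀ s : Finset ι, span k (l '' s) ^ (s.card * a + 1) * P ≤ ⨆ i, pr k (l i ^ a) * P := by
    intro s
    induction s using Finset.induction_on with
    | empty => simp
    | insert i s hi ih =>
      rw [Finset.coe_insert, Set.image_insert_eq, span_insert, Finset.card_insert_of_notMem hi]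
      refine (sup_pow_le (A := pr k (l i)) ((mul_le_mul_left (pr_le.2 (hl i)) _).trans hP)
        ((mul_le_mul_left (span_le.2 ?_) _).trans hP) _ a (s.card * a + 1) (by ring)).trans
        (sup_le ?_ ih)
      · rintro _ ⟨j, -, rfl⟩
        exact hl j
      · rw [pr_pow]
        exact le_iSup (fun i => pr k (l i ^ a) * P) i
  have := key Finset.univ
  rwa [Finset.coe_univ, Set.image_univ, Finset.card_univ] at this

theorem unit_le (hP : T * P ≤ P) {u : K} {c : k} (hc : c ≠ 0) (hu : u - algebraMap k K c ∈ nn T)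
    (L : ℕ) : P ≤ pr k u * P ⊔ T ^ L * P := by
  induction L with
  | zero => rw [pow_zero, one_mul]; exact le_sup_right
  | succ L ih =>
    refine ih.trans (sup_le le_sup_left fun x hx => ?_)
    have h1 : (u - algebraMap k K c) * x ∈ T ^ (L + 1) * P := by
      rw [pow_succ', mul_assoc]
      have := mul_mem_mul hu hx
      rw [nn, mul_assoc] at this
      exact mul_le_mul_right (mul_pow_le (alg_mul_le hP) L) T this
    have h2 : x = c⁻¹ • (u * x - (u - algebraMap k K c) * x) := by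
      rw [← sub_mul, sub_sub_cancel, ← Algebra.smul_def, smul_smul, inv_mul_cancel₀ hc, one_smul]
    rw [h2]
    exact smul_mem _ _ (sub_mem (mem_sup_left (mem_pr_mul.2 ⟨x, pow_mul_le hP L hx, rfl⟩))
      (mem_sup_right h1))

theorem unit_mul_le (hP : T * P ≤ P) {u : K} {c : k} (hu : u - algebraMap k K c ∈ nn T) :
    pr k u * P ≤ P := fun y hy => by
  obtain ⟨x, hx, rfl⟩ := mem_pr_mul.1 hy
  have h1 := alg_mul_le hP (mul_mem_mul (mul_alg_le T hu) hx)
  have h2 : u * x = (u - algebraMap k K c) * x + c • x := by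
    rw [Algebra.smul_def]; ring
  rw [h2]
  exact add_mem h1 (smul_mem _ _ hx)

theorem unit_pow_le (hP : T * P ≤ P) {u : K} {c : k} (hc : c ≠ 0)
    (hu : u - algebraMap k K c ∈ nn T) (L a : ℕ) : P ≤ pr k (u ^ a) * P ⊔ T ^ L * P := by
  induction a with
  | zero => rw [pow_zero, pr, ← one_eq_span, one_mul]; exact le_sup_left
  | succ a ih =>
    refine (unit_le hP hc hu L).trans (sup_le ((mul_le_mul_right ih _).trans ?_) le_sup_right)
    rw [Submodule.mul_sup, ← mul_assoc, pr_mul_pr, ← pow_succ']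
    exact sup_le_sup_left (mul_pow_le (unit_mul_le hP hu) L) _

theorem sp_of_cod {ρ : ℕ} (hf : Fd P Q) (h : cod P Q ≤ ρ) : Sp ρ P Q := by
  have : Module.Finite k (P.map Q.mkQ) := Module.Finite.iff_fg.2 hf
  let b := Module.finBasis k (P.map Q.mkQ)
  choose e he1 he2 using fun i => mem_map.1 (b i).2
  refine ⟨fun i => if hi : (i : ℕ) < cod P Q then e ⟨i, hi⟩ else 0, fun i => ?_, fun x hx => ?_⟩
  · dsimp only
    split_ifs
    exacts [he1 _, zero_mem _]
  · have h1 := congrArg Subtype.val (b.sum_repr ⟨Q.mkQ x, mem_map_of_mem hx⟩)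
    rw [AddSubmonoidClass.coe_finsetSum] at h1
    have h2 : x - ∑ i, b.repr ⟨Q.mkQ x, mem_map_of_mem hx⟩ i • e i ∈ Q := by
      rw [← Quotient.mk_eq_zero, ← mkQ_apply, map_sub, map_sum, sub_eq_zero]
      refine h1.symm.trans (Finset.sum_congr rfl fun i _ => ?_)
      rw [map_smul, he2, coe_smul]
    rw [← add_sub_cancel (∑ i, b.repr ⟨Q.mkQ x, mem_map_of_mem hx⟩ i • e i) x]
    refine add_mem (mem_sup_left (sum_mem fun i _ => smul_mem _ _ (subset_span
      ⟨⟨i, i.2.trans_le h⟩, ?_⟩))) (mem_sup_right h2)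
    exact dif_pos i.2

theorem Sp.mono {ρ : ℕ} {Q' : Submodule k K} (h : Sp ρ P Q) (hQ : Q ≤ Q') : Sp ρ P Q' := by
  obtain ⟨e, h1, h2⟩ := h
  exact ⟨e, h1, h2.trans (sup_le_sup_left hQ _)⟩

theorem fd_pow (hT : T.FG) {E : Submodule k K} (hE : E.FG) (h : P ≤ E ⊔ T * P) (L : ℕ) :
    ∃ E' : Submodule k K, E'.FG ∧ P ≤ E' ⊔ T ^ L * P := by
  induction L with
  | zero => exact ⟨⊥, fg_bot, by rw [pow_zero, one_mul]; exact le_sup_right⟩
  | succ L ih =>
    obtain ⟨E', h1, h2⟩ := ih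
    refine ⟨E ⊔ T * E', hE.sup (hT.mul h1), h.trans (sup_le (le_sup_left.trans le_sup_left) ?_)⟩
    refine (mul_le_mul_right h2 T).trans ?_
    rw [Submodule.mul_sup, pow_succ', mul_assoc]
    exact sup_le_sup_right le_sup_right _

/-- The local degree of a perturbed power of a reduction. -/
theorem ld_of_rd {e μ R C j : ℕ} (hT : T.FG) {E : Submodule k K} (hE : E.FG)
    (hEP : P ≤ E ⊔ T * P) (hP : T * P ≤ P) (hQ : T * Q ≤ Q) (hG : Gr e μ T P Q) {l g u : Fin e → K}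
    (hl : ∀ i, l i ∈ T) (hr : Rd T 1 l P Q) {c : k} (hc : c ≠ 0)
    (hu : ∀ i, u i - algebraMap k K c ∈ nn T) (hg : ∀ i, g i = l i ^ j * u i) (hR : e * j ≤ R)
    (hR0 : 0 < R) (hC : μ * (4 * R) ^ e ≤ C) : Ld C T g P Q := by
  obtain ⟨r, hr⟩ := hr
  obtain ⟨L₀, h1, h2⟩ := (hG.and_eventually (eventually_ge_atTop (2 * r + 2 + 2 * R))).exists
  have hR2 : 0 < 2 * R := by omega
  have ha : 0 < L₀ / (2 * R) := Nat.div_pos (by omega) hR2
  have h3 : 2 * R * (L₀ / (2 * R)) ≤ L₀ := Nat.mul_div_le _ _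
  have h4 : L₀ < 2 * R * (L₀ / (2 * R) + 1) := Nat.lt_mul_div_succ _ hR2
  generalize L₀ / (2 * R) = a at ha h3 h4
  obtain ⟨E', hE', hE''⟩ := fd_pow hT hE hEP L₀
  have h5 : cod P (T ^ L₀ * P ⊔ Q) ≤ C * a ^ e := by
    refine h1.trans ?_
    calc μ * L₀ ^ e ≤ μ * (4 * R * a) ^ e :=
          Nat.mul_le_mul_left _ (Nat.pow_le_pow_left (by nlinarith) _)
      _ = μ * (4 * R) ^ e * a ^ e := by rw [mul_pow (4 * R), mul_assoc]
      _ ≤ _ := Nat.mul_le_mul_right _ hC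
  refine ⟨a, ha, fun L => Sp.mono
    (sp_of_cod (fd_of_le hE' (hE''.trans (sup_le_sup_left le_sup_left _))) h5)
    (sup_le ?_ le_sup_right)⟩
  have h6 : r + (Fintype.card (Fin e) * (j * a) + 1) ≤ L₀ := by
    rw [Fintype.card_fin, ← mul_assoc]
    have := Nat.mul_le_mul_right a hR
    nlinarith
  refine (pow_anti hP h6).trans ((red_pow hP hQ (span_le.2 ?_) hr _ L).trans
    (sup_le_sup_right (sup_le ((span_pow_le hP hl _).trans (iSup_le fun i => ?_)) le_sup_right) _))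
  · rintro _ ⟨i, rfl⟩
    exact hl i
  · refine (mul_le_mul_right (unit_pow_le hP hc (hu i) L a) _).trans ?_
    rw [Submodule.mul_sup, ← mul_assoc, pr_mul_pr, pow_mul, ← mul_pow, ← hg]
    refine sup_le_sup (mul_le_mul_left
      (pr_le.2 (show g i ^ a ∈ qq k g a from subset_span ⟨i, rfl⟩)) _) (mul_pow_le ?_ L)
    rw [← pow_mul, ← pr_pow]
    exact pow_mul_le ((mul_le_mul_left (pr_le.2 (hl i)) _).trans hP) _

/-! ### Existence of reductions -/

/-- The filtration of `P / Q` by the powers of `T`. -/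
def fl (T P Q : Submodule k K) (c : ℕ) : Submodule k K := T ^ c * P ⊔ Q

theorem fl_mul (hQ : T * Q ≤ Q) (c : ℕ) : T * fl T P Q c ≤ fl T P Q (c + 1) := by
  rw [fl, fl, Submodule.mul_sup, pow_succ', mul_assoc]
  exact sup_le_sup_left hQ _

theorem fl_anti (hP : T * P ≤ P) : Antitone (fl T P Q) := fun _ _ h =>
  sup_le_sup_right (pow_anti hP h) _

theorem cod_sup (R : Submodule k K) : cod (P ⊔ Q) (R ⊔ Q) = cod P (R ⊔ Q) := by
  have h : Q.map (R ⊔ Q).mkQ = ⊥ := by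
    rw [← le_bot_iff, Submodule.map_le_iff_le_comap, Submodule.comap_bot, ker_mkQ]
    exact le_sup_right
  rw [cod, cod, Submodule.map_sup, h, sup_bot_eq]

section
variable {E : Submodule k K}

theorem fd_fl (hT : T.FG) (hE : E.FG) (hEP : P ≤ E ⊔ T * P) (hP : T * P ≤ P) (a c : ℕ) :
    Fd (fl T P Q a) (fl T P Q c) := by
  obtain ⟨E', h1, h2⟩ := fd_pow hT hE hEP c
  exact fd_of_le h1 (sup_le ((pow_mul_le hP a).trans (h2.trans (sup_le_sup_left le_sup_left _)))
    (le_sup_right.trans le_sup_right))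

theorem cod_fl (c : ℕ) : cod (fl T P Q 0) (fl T P Q c) = cod P (T ^ c * P ⊔ Q) := by
  rw [fl, fl, pow_zero, one_mul, cod_sup]

theorem exists_sup (hT : T.FG) [Infinite k] (hE : E.FG) (hE' : E ≤ P) (hEP : P ≤ E ⊔ T * P)
    (hP : T * P ≤ P) (hQ : T * Q ≤ Q) : ∃ l ∈ T, ∃ c₀, ∀ c, c₀ ≤ c → ∀ x ∈ fl T P Q c,
      l * x ∈ fl T P Q (c + 1 + 1) → x ∈ fl T P Q (c + 1) := by
  have h : Bi 1 T (fun _ c => fl T P Q c) fun _ c => fl T P Q (c + 1) :=
    { le := fun _ c => fl_anti hP (Nat.le_succ c)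
      tF := fun _ _ => (one_mul _).le
      jF := fun _ c => fl_mul hQ c
      tG := fun _ _ => (one_mul _).le
      jG := fun _ c => fl_mul hQ _
      tS := fun _ _ => (one_mul _).ge.trans le_sup_left
      jS := fun c => by
        refine sup_le (le_trans ?_ le_sup_left) (le_sup_right.trans le_sup_right)
        rw [pow_succ', mul_assoc]
        exact mul_le_mul_right le_sup_left _
      fin := ⟨E, hE, by
        rw [fl, pow_zero, one_mul]
        exact hE'.trans le_sup_left, by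
        rw [fl, fl, pow_zero, one_mul, zero_add, pow_one, ← sup_assoc]
        exact sup_le_sup_right hEP _⟩ }
  obtain ⟨S, c₀, h1, h2, h3⟩ := h.exists_inj (by rw [one_eq_span]; exact fg_span_singleton _) hT
  obtain ⟨l, hl, hl'⟩ := exists_avoid h1 h2
  exact ⟨l, hl, c₀, fun c hc => h3 l hl hl' 0 c hc⟩

theorem inj_deep (hP : T * P ≤ P) {l : K} {c₀ : ℕ} (h : ∀ c, c₀ ≤ c → ∀ x ∈ fl T P Q c,
    l * x ∈ fl T P Q (c + 1 + 1) → x ∈ fl T P Q (c + 1)) {x : K} (hx : x ∈ fl T P Q c₀) (i : ℕ)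
    (hx' : l * x ∈ fl T P Q (c₀ + i + 1)) : x ∈ fl T P Q (c₀ + i) := by
  induction i with
  | zero => exact hx
  | succ i ih =>
    exact h (c₀ + i) (Nat.le_add_right _ _) x (ih (fl_anti hP (by omega) hx')) hx'

theorem lam_succ (hT : T.FG) (hE : E.FG) (hEP : P ≤ E ⊔ T * P) (hP : T * P ≤ P) (c : ℕ) :
    cod (fl T P Q 0) (fl T P Q c) + cod (fl T P Q c) (fl T P Q (c + 1)) =
      cod (fl T P Q 0) (fl T P Q (c + 1)) := by
  have := cod_add (fl_anti (Q := Q) hP (Nat.zero_le c)) (fd_fl hT hE hEP hP 0 (c + 1))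
  rwa [sup_eq_right.2 (fl_anti hP (Nat.le_succ c))] at this

theorem gr_cut (hT : T.FG) (hE : E.FG) (hEP : P ≤ E ⊔ T * P) (hP : T * P ≤ P) (hQ : T * Q ≤ Q)
    {l : K} (hl : l ∈ T) {c₀ : ℕ} (h : ∀ c, c₀ ≤ c → ∀ x ∈ fl T P Q c,
      l * x ∈ fl T P Q (c + 1 + 1) → x ∈ fl T P Q (c + 1)) {e μ : ℕ} (hG : Gr (e + 1) μ T P Q) :
    ∃ μ', Gr e μ' T P (Q ⊔ pr k l * P) := by
  have hm : ∀ c, ∀ x ∈ fl T P Q c, l * x ∈ fl T P Q (c + 1) := fun c x hx =>
    fl_mul hQ c (mul_mem_mul hl hx)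
  have hfd := fd_fl (Q := Q) hT hE hEP hP
  have hs := lam_succ (Q := Q) hT hE hEP hP
  have b1 : ∀ c, c₀ ≤ c → ∀ i, cod (fl T P Q c) (fl T P Q (c + 1)) ≤
      cod (fl T P Q (c + i)) (fl T P Q (c + i + 1)) ∧
      i * cod (fl T P Q c) (fl T P Q (c + 1)) ≤ cod (fl T P Q 0) (fl T P Q (c + i)) := by
    intro c hc i
    induction i with
    | zero => simp
    | succ i ih =>
      have h1 := hs (c + i)
      have h2 := (cod_le_of_inj l (hm _) (h (c + i) (by omega)) (hfd _ _)).2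
      rw [← add_assoc, Nat.succ_mul]
      omega
  have b2 : ∀ c, c₀ ≤ c → cod P (T ^ (c + 1) * P ⊔ (Q ⊔ pr k l * P)) ≤
      cod (fl T P Q c) (fl T P Q (c + 1)) + cod (fl T P Q 0) (fl T P Q c₀) := by
    intro c hc
    obtain ⟨i, rfl⟩ := Nat.exists_eq_add_of_le hc
    have hle : pr k l * fl T P Q 0 ≤ fl T P Q 0 :=
      (mul_le_mul_left (pr_le.2 hl) _).trans ((fl_mul hQ 0).trans (fl_anti hP (Nat.zero_le _)))
    have e1 := cod_add hle (hfd 0 (c₀ + i + 1))
    have e2 : cod (fl T P Q c₀) (fl T P Q (c₀ + i)) ≤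
        cod (pr k l * fl T P Q 0) (fl T P Q (c₀ + i + 1)) :=
      (cod_le_of_inj l (fun x hx => mem_pr_mul.2 ⟨x, fl_anti hP (Nat.zero_le _) hx, rfl⟩)
        (fun x hx hx' => inj_deep hP h hx i hx')
        (cod_mono hle (fun _ _ h => h) (hfd 0 _)).1).2
    have e3 := cod_add (fl_anti (Q := Q) hP (Nat.zero_le c₀)) (hfd 0 (c₀ + i))
    rw [sup_eq_right.2 (fl_anti hP (Nat.le_add_right c₀ i))] at e3
    have e4 := hs (c₀ + i)
    have e5 : cod P (T ^ (c₀ + i + 1) * P ⊔ (Q ⊔ pr k l * P)) ≤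
        cod (fl T P Q 0) (fl T P Q (c₀ + i + 1) ⊔ pr k l * fl T P Q 0) := by
      refine (cod_mono (by rw [fl, pow_zero, one_mul]; exact le_sup_left) (fun x _ hx => ?_)
        (cod_mono le_rfl (fun _ _ h => mem_sup_left h) (hfd 0 _)).1).2
      refine SetLike.le_def.1 (sup_le (sup_le_sup_left le_sup_left _)
        (le_trans ?_ le_sup_right)) hx
      rw [fl, pow_zero, one_mul, Submodule.mul_sup, sup_comm]
      exact sup_le_sup_right ((mul_le_mul_left (pr_le.2 hl) _).trans hQ) _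
    omega
  refine ⟨2 * μ * 2 ^ e + cod (fl T P Q 0) (fl T P Q c₀), frequently_atTop.2 fun N => ?_⟩
  obtain ⟨L, h1, h2⟩ := frequently_atTop.1 hG (2 * (N + c₀) + 1)
  refine ⟨L / 2 + 1, by omega, (b2 _ (by omega)).trans ?_⟩
  have h3 := (b1 (L / 2) (by omega) (L - L / 2)).2
  rw [show L / 2 + (L - L / 2) = L by omega, cod_fl] at h3
  have h4 := half_bound (by omega) (by omega) (h3.trans h2)
  have h5 : L ^ e ≤ 2 ^ e * (L / 2 + 1) ^ e := by
    rw [← mul_pow]
    exact Nat.pow_le_pow_left (by omega) _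
  have h6 : 1 ≤ (L / 2 + 1) ^ e := Nat.one_le_pow _ _ (by omega)
  rw [add_mul, mul_assoc (2 * μ)]
  exact Nat.add_le_add (h4.trans (Nat.mul_le_mul_left _ h5)) (Nat.le_mul_of_pos_right _ h6)

theorem rd_zero (hT : T.FG) (hE : E.FG) (hEP : P ≤ E ⊔ T * P) (hP : T * P ≤ P) {μ : ℕ}
    (hG : Gr 0 μ T P Q) : ∃ r, T ^ (r + 1) * P ≤ T ^ (r + 1 + 1) * P ⊔ Q := by
  by_contra hn
  rw [not_exists] at hn
  have key : ∀ c, c ≤ cod (fl T P Q 0) (fl T P Q (c + 1)) := by
    intro c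
    induction c with
    | zero => exact Nat.zero_le _
    | succ c ih =>
      have h1 := lam_succ (Q := Q) hT hE hEP hP (c + 1)
      have h2 : cod (fl T P Q (c + 1)) (fl T P Q (c + 1 + 1)) ≠ 0 := fun h0 => hn c (by
        obtain ⟨e, -, he⟩ := sp_of_cod (fd_fl hT hE hEP hP _ _) h0.le
        rw [Set.range_eq_empty, span_empty, bot_sup_eq] at he
        exact le_sup_left.trans he)
      omega
  obtain ⟨L, h1, h2⟩ := frequently_atTop.1 hG (μ + 2)
  obtain ⟨c, rfl⟩ : ∃ c, L = c + 1 := ⟨L - 1, by omega⟩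
  have := key c
  rw [cod_fl] at this
  rw [pow_zero, mul_one] at h2
  omega

theorem exists_rd [Infinite k] (hT : T.FG) (hE : E.FG) (hE' : E ≤ P) (hEP : P ≤ E ⊔ T * P)
    (hP : T * P ≤ P) (e : ℕ) : ∀ (μ : ℕ) (Q : Submodule k K), T * Q ≤ Q → Gr e μ T P Q →
      ∃ l : Fin e → K, (∀ i, l i ∈ T) ∧ Rd T 1 l P Q := by
  induction e with
  | zero =>
    intro μ Q _ hG
    obtain ⟨r, hr⟩ := rd_zero hT hE hEP hP hG
    exact ⟨Fin.elim0, fun i => i.elim0, r, hr.trans (sup_le_sup_right le_sup_right _)⟩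
  | succ e ih =>
    intro μ Q hQ hG
    obtain ⟨l₀, hl₀, c₀, h⟩ := exists_sup hT hE hE' hEP hP hQ
    obtain ⟨μ', hG'⟩ := gr_cut hT hE hEP hP hQ hl₀ h hG
    obtain ⟨l, hl, r, hr⟩ := ih μ' _ (by
      rw [Submodule.mul_sup, mul_left_comm]
      exact sup_le_sup hQ (mul_le_mul_right hP _)) hG'
    refine ⟨Fin.cons l₀ l, fun i => Fin.cases hl₀ hl i, c₀ + r, fun x hx => ?_⟩
    have hΛ : span k (Set.range l) ≤ T := span_le.2 (by rintro _ ⟨i, rfl⟩; exact hl i)
    have h1 : T ^ (c₀ + r + 1) * P ≤ (span k (Set.range l) * (T ^ (c₀ + r) * P) ⊔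
        T ^ (c₀ + r + 1 + 1) * P ⊔ Q) ⊔ pr k l₀ * (T ^ c₀ * P) := by
      have := mul_le_mul_right hr (T ^ c₀)
      simp only [Submodule.mul_sup] at this
      rw [sup_assoc _ Q]
      refine le_trans (le_of_eq (by ring)) (this.trans (sup_le_sup (le_of_eq ?_)
        (sup_le_sup (pow_mul_le hQ _) (le_of_eq (by ring)))))
      congr 1 <;> ring
    obtain ⟨y, hy, z, hz, rfl⟩ := mem_sup.1 (h1 hx)
    obtain ⟨p, hp, rfl⟩ := mem_pr_mul.1 hz
    have hy' : y ∈ fl T P Q (c₀ + r + 1) := by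
      refine (sup_le_sup_right (sup_le ?_ (pow_anti hP (Nat.le_succ _))) Q :) hy
      rw [pow_succ', mul_assoc]
      exact mul_le_mul_left hΛ _
    have h2 : l₀ * p ∈ fl T P Q (c₀ + r + 1) := by
      have := sub_mem (mem_sup_left hx : _ ∈ fl T P Q (c₀ + r + 1)) hy'
      rwa [add_sub_cancel_left] at this
    obtain ⟨p₁, hp₁, p₂, hp₂, rfl⟩ := mem_sup.1 (inj_deep hP h (mem_sup_left hp) r h2)
    rw [mul_add]
    refine add_mem ((sup_le_sup_right (sup_le_sup_right (mul_le_mul_left (span_mono ?_) _) _) Q :)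
      hy) (add_mem (mem_sup_left (mem_sup_left (mul_mem_mul (subset_span ⟨0, rfl⟩) hp₁)))
        (mem_sup_right (hQ (mul_mem_mul hl₀ hp₂))))
    rintro _ ⟨i, rfl⟩
    exact ⟨i.succ, rfl⟩

end

/-! ### The linear family -/

/-- The polynomials without constant term evaluated at `l`. -/
noncomputable def fam {n e : ℕ} (l : Fin e → K) : (Fin n → k) →ₗ[k] (Fin e → K) where
  toFun a i := ∑ j : Fin n, a j • l i ^ ((j : ℕ) + 1)
  map_add' a b := by
    funext i
    simp only [Pi.add_apply, add_smul, Finset.sum_add_distrib]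
  map_smul' c a := by
    funext i
    simp only [Pi.smul_apply, smul_eq_mul, mul_smul, RingHom.id_apply, Finset.smul_sum]

theorem pow_mem_alg {x : K} (hx : x ∈ T) (j : ℕ) : x ^ j ∈ alg T :=
  (Algebra.adjoin k (T : Set K)).pow_mem (Algebra.subset_adjoin hx) j

theorem fam_fm {m : ℕ} {l : Fin (m + 1) → K} (hl : ∀ i, l i ∈ T) : Fm T (fam l) := by
  intro a i
  change ∑ j : Fin (m + 2), a j • l i ^ ((j : ℕ) + 1) ∈ _ ∧
    ∑ j : Fin (m + 2), a j • l i ^ ((j : ℕ) + 1) ∈ _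
  refine ⟨Submodule.sum_mem _ fun j _ => smul_mem _ _ ?_,
    Submodule.sum_mem _ fun j _ => smul_mem _ _ ?_⟩
  · have h1 : (1 : K) ∈ 1 ⊔ T := mem_sup_left (one_le.1 le_rfl)
    have := mul_mem_mul (pow_mem_pow _ (mem_sup_right (hl i) : l i ∈ 1 ⊔ T) ((j : ℕ) + 1))
      (pow_mem_pow _ h1 (m + 2 - ((j : ℕ) + 1)))
    rwa [one_pow, mul_one, ← pow_add, Nat.add_sub_cancel' j.2] at this
  · rw [pow_succ']
    exact mul_mem_mul (hl i) (pow_mem_alg (hl i) _)

theorem fam_eq {n : ℕ} {a : Fin n → k} (ha : a ≠ 0) : ∃ (j : ℕ) (c : k), j ≤ n ∧ c ≠ 0 ∧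
    ∀ x ∈ T, ∃ u : K, u - algebraMap k K c ∈ nn T ∧
      ∑ i : Fin n, a i • x ^ ((i : ℕ) + 1) = x ^ j * u := by
  classical
  obtain ⟨j, hj, hmin⟩ := (Finset.univ.filter fun i => a i ≠ 0).exists_min_image id (by
    obtain ⟨i, hi⟩ := Function.ne_iff.1 ha
    exact ⟨i, Finset.mem_filter.2 ⟨Finset.mem_univ _, hi⟩⟩)
  have h0 : ∀ i, i < j → a i = 0 := fun i hi => by
    by_contra h
    exact absurd (hmin i (Finset.mem_filter.2 ⟨Finset.mem_univ _, h⟩)) (not_le.2 hi)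
  refine ⟨j + 1, a j, j.2, (Finset.mem_filter.1 hj).2, fun x hx =>
    ⟨∑ i : Fin n, a i • x ^ ((i : ℕ) - j), ?_, ?_⟩⟩
  · rw [← Finset.add_sum_erase _ _ (Finset.mem_univ j), Nat.sub_self, pow_zero,
      ← Algebra.algebraMap_eq_smul_one, add_sub_cancel_left]
    refine sum_mem fun i hi => ?_
    rcases lt_or_gt_of_ne (Finset.ne_of_mem_erase hi) with h | h
    · rw [h0 i h, zero_smul]
      exact zero_mem _
    · have h' : (j : ℕ) < i := h
      rw [show (i : ℕ) - j = (i - j - 1) + 1 by omega, pow_succ']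
      exact smul_mem _ _ (mul_mem_mul hx (pow_mem_alg hx _))
  · rw [Finset.mul_sum]
    refine Finset.sum_congr rfl fun i _ => ?_
    rcases lt_or_ge i j with h | h
    · rw [h0 i h, zero_smul, zero_smul, mul_zero]
    · have h' : (j : ℕ) ≤ i := h
      rw [mul_smul_comm, ← pow_add]
      congr 2
      omega

theorem le_cst' (m μ : ℕ) {e : ℕ} (he : e ≤ m + 1) : μ * (4 * (m + 2) ^ 2) ^ e ≤ cst m μ := by
  have h1 : (4 * (m + 2) ^ 2) ^ e ≤ (8 * (m + 2) ^ 2) ^ (m + 1) :=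
    (Nat.pow_le_pow_left (by omega) _).trans (Nat.pow_le_pow_right (by positivity) he)
  refine Nat.mul_le_mul ?_ h1
  exact le_trans (by omega) (Nat.le_mul_of_pos_left _ (by positivity))

/-- A module of small growth has small local degree along a linear family. -/
theorem exists_fam [Infinite k] {m e μ : ℕ} (he : e ≤ m + 1) (hT : T.FG) {E : Submodule k K}
    (hE : E.FG) (hE' : E ≤ P) (hEP : P ≤ E ⊔ T * P) (hP : T * P ≤ P) (hQ : T * Q ≤ Q)
    (hG : Gr e μ T P Q) : ∃ l : Fin e → K, (∀ i, l i ∈ T) ∧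
      ∀ a : Fin (m + 2) → k, a ≠ 0 → Ld (cst m μ) T (fam l a) P Q := by
  obtain ⟨l, hl, hr⟩ := exists_rd hT hE hE' hEP hP e μ Q hQ hG
  refine ⟨l, hl, fun a ha => ?_⟩
  obtain ⟨j, c, hj, hc, h⟩ := fam_eq (T := T) ha
  choose u hu hu' using fun i => h (l i) (hl i)
  exact ld_of_rd (R := (m + 2) ^ 2) hT hE hEP hP hQ hG hl hr hc hu hu'
    (by rw [pow_two]; exact Nat.mul_le_mul (by omega) hj) (by positivity) (le_cst' m μ he)

end Loc

open Submodule Loc Pool.Agent.MP_19ffc6_ag.Res.PA.Num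

variable {k K : Type} [Field k] [Field K] [Algebra k K] {m : ℕ}

/-- Module LOCX. -/
theorem locX [Infinite k] : LocXStmt k K m := by
  rintro d μ T M₀ hT hM₀ ⟨M₁, hM₁, hG⟩
  have hM := hM₀.sup hM₁
  obtain ⟨P, P', b, -, -, -, -, h⟩ := sm_gr hT (JJ_fg (d := d) hT) hM
  have hF := fam_Mb hT (JJ_fg (d := d) hT) hM
  obtain ⟨E, hE, hE', hEP⟩ := hF.fin' b
  obtain ⟨l, hl, h1⟩ := exists_fam le_rfl hT hE hE' hEP (hF.le b) (mul_bot T).le
    (h b le_rfl μ m (hG _ hM le_sup_right)).1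
  exact ⟨fam l, fam_fm hl, fun a ha => ⟨_, b, hM, le_sup_left, h1 a ha⟩⟩

/-- Module LOCW. -/
theorem locW [Infinite k] : LocWStmt k K m := by
  intro μ T w hT hw hG
  obtain ⟨l, hl, h1⟩ := exists_fam (m := m) (Nat.le_succ m) hT (E := 1)
    (by rw [one_eq_span]; exact fg_span_singleton _) (one_le.2 (one_mem_alg T)) (alg_le T)
    (mul_alg_le T) (mul_le.2 fun x hx y hy => by
      simpa only [zero_add] using DV.mul_fil (hw hx) hy) hG
  refine ⟨fam (Fin.snoc l 0), fam_fm fun i => ?_, fun a ha => ?_⟩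
  · induction i using Fin.lastCases with
    | last => rw [Fin.snoc_last]; exact zero_mem _
    | cast i => rw [Fin.snoc_castSucc]; exact hl i
  · have e : (fun i : Fin m => fam (Fin.snoc l 0 : Fin (m + 1) → K) a i.castSucc) = fam l a := by
      funext i
      change ∑ j : Fin (m + 2), a j • (Fin.snoc l 0 : Fin (m + 1) → K) i.castSucc ^ ((j : ℕ) + 1) = _
      rw [Fin.snoc_castSucc]
      rfl
    rw [e]
    exact h1 a ha

end Pool.Agent.MP_19ffc6_ag.Res.PA
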