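import Pool.Agent.MP_19ffc6_ag.Res.LowA
import Pool.Agent.MP_19ffc6_ag.Res.ASpec

/-! Module LOW of PROJECT RES: the lower bound for the local degree and finite covers. -/

namespace Pool.Agent.MP_19ffc6_ag.Res.Low

open Module Set

variable {k E N σ ι : Type} [Field k] [Field E] [Field N] [Algebra k E] [Algebra k N]

section Global

open Wild PA Submodule

lemma nn_le (T : Submodule k E) : nn T ≤ alg T :=
  mul_le.2 fun _ ht _ ha => Subalgebra.mul_mem _ (Algebra.subset_adjoin ht) ha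

lemma le_nn (T : Submodule k E) : T ≤ nn T := fun t ht => by
  rw [← mul_one t]
  exact mul_mem_mul ht (Subalgebra.one_mem _)

lemma mul_mem_nn {T : Submodule k E} {a t : E} (ha : a ∈ alg T) (ht : t ∈ nn T) : a * t ∈ nn T := by
  refine Submodule.mul_induction_on ht (fun u hu v hv => ?_) fun u v hu hv => ?_
  · rw [mul_left_comm]
    exact mul_mem_mul hu (Subalgebra.mul_mem _ ha hv)
  · rw [mul_add]; exact add_mem hu hv

lemma mem_nn_iff {T : Submodule k E} (x : Algebra.adjoin k (T : Set E) →ₐ[k] k)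
    (hx : ∀ t : Algebra.adjoin k (T : Set E), t.1 ∈ T → x t = 0)
    (a : Algebra.adjoin k (T : Set E)) : a.1 ∈ nn T ↔ x a = 0 := by
  obtain ⟨a, ha⟩ := a
  constructor
  · intro h
    have h1 : nn T ≤ (LinearMap.ker x.toLinearMap).map (Subalgebra.val _).toLinearMap :=
      mul_le.2 fun t ht b hb => ⟨⟨t, Algebra.subset_adjoin ht⟩ * ⟨b, hb⟩,
        (map_mul x _ _).trans (by rw [hx _ ht, zero_mul]), rfl⟩
    obtain ⟨b, hb, rfl⟩ := h1 h
    exact hb
  · have h1 : a - algebraMap k E (x ⟨a, ha⟩) ∈ nn T := by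
      induction ha using Algebra.adjoin_induction with
      | mem t ht => rw [hx _ ht, map_zero, sub_zero]; exact le_nn T ht
      | algebraMap c =>
        rw [show x ⟨algebraMap k E c, _⟩ = c from x.commutes c, sub_self]
        exact zero_mem _
      | add u v hu hv h1 h2 =>
        rw [show x ⟨u + v, _⟩ = x ⟨u, hu⟩ + x ⟨v, hv⟩ from map_add x ⟨u, hu⟩ ⟨v, hv⟩, map_add,
          add_sub_add_comm]
        exact add_mem h1 h2
      | mul u v hu hv h1 h2 =>
        rw [show x ⟨u * v, _⟩ = x ⟨u, hu⟩ * x ⟨v, hv⟩ from map_mul x ⟨u, hu⟩ ⟨v, hv⟩, map_mul,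
          show ∀ a b : E, u * v - a * b = v * (u - a) + a * (v - b) from fun _ _ => by ring]
        exact add_mem (mul_mem_nn hv h1) (mul_mem_nn (Subalgebra.algebraMap_mem _ _) h2)
    intro h
    rwa [h, map_zero, sub_zero] at h1

lemma adjoin_fg {T : Submodule k E} (hT : T.FG) : (Algebra.adjoin k (T : Set E)).FG := by
  obtain ⟨G, rfl⟩ := hT
  exact ⟨G, (Algebra.adjoin_span _).symm⟩

/-- The lower bound at a point, in terms of the local degree. -/
theorem le_of_ld [Fintype ι] {e C : ℕ} {T M0 : Submodule k E} (hT : T.FG) (h0 : M0.FG)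
    (x : Algebra.adjoin k (T : Set E) →ₐ[k] k)
    (hx : ∀ t : Algebra.adjoin k (T : Set E), t.1 ∈ T → x t = 0)
    (hfr : ∀ z, ∃ a ∈ alg T, a ≠ 0 ∧ a * z ∈ alg T * M0) {s : E} {S g : Fin e → E} {c : Fin e → k}
    (hs : s ∈ alg T) (hSA : ∀ j, S j ∈ alg T) (hgS : ∀ j, g j * s = S j)
    (hg : AlgebraicIndependent k g) [FiniteDimensional (IntermediateField.adjoin k (range g)) E]
    (τ : ι → E →ₐ[k] N) (hτ : Function.Injective τ)
    {B : Subalgebra k N} (ψ : B →ₐ[k] k) (hB : ∀ i (t : Algebra.adjoin k (T : Set E)), τ i t ∈ B)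
    (hψ : ∀ i t, ψ ⟨_, hB i t⟩ = x t)
    (hc : ∀ j, ∃ u v : B, (∀ i, u * τ i (g j) = v) ∧ ψ u ≠ 0 ∧ ψ v = ψ u * c j)
    (h : Ld C T (fun j => S j - c j • s) (alg T * M0) ⊥) :
    Fintype.card ι * Field.finInsepDegree (IntermediateField.adjoin k (range g)) E ≤ C := by
  classical
  obtain ⟨a, ha, h⟩ := h
  obtain ⟨I, U, h1, ⟨L, h2⟩, h3, h4⟩ := low_pt (adjoin_fg hT) x h0 rfl hfr ⟨s, hs⟩
    (fun j => ⟨S j, hSA j⟩) hgS hg τ hτ ψ hB hψ ha.ne'
  obtain ⟨f, -, hf⟩ := h L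
  have h5 : qq k (fun j => S j - c j • s) a * (alg T * M0) ≤ U := by
    have h7 : qq k (fun j => S j - c j • s) a ≤ (I.restrictScalars k).map
        (Subalgebra.val _).toLinearMap := by
      rw [qq, span_le]
      rintro _ ⟨j, rfl⟩
      obtain ⟨u, v, huv, hx0, h8⟩ := hc j
      refine ⟨(⟨S j, hSA j⟩ - c j • ⟨s, hs⟩) ^ a, ?_, rfl⟩
      have h9 := h3 j u v huv
      rw [h8, mul_smul, ← smul_sub, smul_pow] at h9
      exact ((I.restrictScalars k).smul_mem_iff (pow_ne_zero a hx0)).1 h9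
    refine mul_le.2 fun u hu m hm => ?_
    obtain ⟨u, hu', rfl⟩ := h7 hu
    exact h1 u hu' m hm
  have h6 : T ^ L * (alg T * M0) ≤ U := by
    have h7 : ∀ n, T ^ n ≤ ((RingHom.ker x ^ n).restrictScalars k).map
        (Subalgebra.val _).toLinearMap := fun n => by
      induction n with
      | zero => rw [pow_zero, Submodule.one_le]; exact ⟨1, by simp, rfl⟩
      | succ n ih =>
        rw [pow_succ]
        refine mul_le.2 fun u hu t ht => ?_
        obtain ⟨u, hu', rfl⟩ := ih hu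
        refine ⟨u * ⟨t, Algebra.subset_adjoin ht⟩, ?_, rfl⟩
        rw [pow_succ]
        exact Ideal.mul_mem_mul hu' (hx _ ht)
    refine mul_le.2 fun u hu m hm => ?_
    obtain ⟨u, hu', rfl⟩ := h7 L hu
    exact h1 u (h2 hu') m hm
  have h8 := h4 (Finset.univ.image f) (hf.trans (sup_le_sup (by simp) (by simp [h5, h6])))
  rw [Fintype.card_fin, ← mul_assoc] at h8
  refine Nat.le_of_mul_le_mul_right (h8.trans (Finset.card_image_le.trans (by simp))) (pow_pos ha e)

lemma div_pow_mem {V T : Submodule k E} {σ s : E} (h : Hyp V σ T) {r : ℕ} (hs : s ∈ V ^ r) :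
    s / σ ^ r ∈ alg T := by
  have h1 : ∀ v ∈ V, v / σ ∈ alg T := fun v hv => by
    rw [h.eq] at hv
    obtain ⟨u, hu, rfl⟩ := mem_span_singleton_mul.1 hv
    rw [mul_div_cancel_left₀ _ h.ne]
    exact (sup_le (Submodule.one_le.2 (Subalgebra.one_mem _)) ((le_nn T).trans (nn_le T))) hu
  induction hs using Submodule.pow_induction_on_left' with
  | algebraMap c => rw [pow_zero, div_one]; exact Subalgebra.algebraMap_mem _ c
  | add u v n _ _ hu hv => rw [add_div]; exact add_mem hu hv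
  | mem_mul v hv n u _ hu =>
    rw [pow_succ', mul_div_mul_comm]
    exact Subalgebra.mul_mem _ (h1 v hv) hu

/-- The point of the model below a family of congruent embeddings. -/
lemma exists_hyp [IsAlgClosed k] [Finite ι] {V : Submodule k E} {G : Finset E}
    (hV : span k (G : Set E) = V) (hne : ∀ σ ∈ G, σ ≠ 0) (hG : G.Nonempty) {O : Subalgebra k N}
    (hO : Val O) (τ : ι → E →ₐ[k] N) (φ : E →ₐ[k] N)
    (hτ : ∀ i a, φ a ∈ O → τ i a ∈ O ∧ ¬ Un O (τ i a - φ a)) :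
    ∃ σ ∈ G, ∃ T, Hyp V σ T ∧ T.FG ∧ (∀ a ∈ alg T, φ a ∈ O) ∧
      ∃ (x : Algebra.adjoin k (T : Set E) →ₐ[k] k) (B : Subalgebra k N) (ψ : B →ₐ[k] k)
        (hB : ∀ i (t : Algebra.adjoin k (T : Set E)), τ i t ∈ B), (∀ i t, ψ ⟨_, hB i t⟩ = x t) ∧
        (∀ t : Algebra.adjoin k (T : Set E), t.1 ∈ T → x t = 0) ∧
        ∀ t : Algebra.adjoin k (T : Set E), x t ≠ 0 → Un O (φ t) := by
  have hO' : Val (O.comap φ) := fun a => (hO (φ a)).imp id fun h => by
    rwa [Subalgebra.mem_comap, map_inv₀]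
  obtain ⟨σ, hσ, hm⟩ := hO'.exists_min hG hne
  have hσ0 := hne σ hσ
  let τ' : Option ι → E →ₐ[k] N := fun o => o.elim φ τ
  let B := Algebra.adjoin k (range fun p : Option ι × G => τ' p.1 (p.2 / σ))
  have hBO : B ≤ O := Algebra.adjoin_le <| by
    rintro _ ⟨⟨_ | i, b⟩, rfl⟩
    exacts [hm b b.2, (hτ i _ (hm b b.2)).1]
  obtain ⟨ψ, hψ⟩ := exists_point (Subalgebra.fg_def.2 ⟨_, finite_range _, rfl⟩) hO hBO
  have hb : ∀ o (b : G), τ' o (b / σ) ∈ B := fun o b => Algebra.subset_adjoin ⟨(o, b), rfl⟩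
  let c : G → k := fun b => ψ ⟨_, hb none b⟩
  let T := span k (range fun b : G => b / σ - algebraMap k E (c b))
  have hB : ∀ o (t : Algebra.adjoin k (T : Set E)), τ' o t ∈ B := fun o t => by
    have h : Algebra.adjoin k (T : Set E) ≤ B.comap (τ' o) := by
      rw [Algebra.adjoin_span, Algebra.adjoin_le_iff]
      rintro _ ⟨b, rfl⟩
      exact sub_mem (hb o b) (Subalgebra.algebraMap_mem _ _)
    exact h t.2
  let x : Algebra.adjoin k (T : Set E) →ₐ[k] k :=
    ψ.comp ((φ.comp (Subalgebra.val _)).codRestrict B (hB none))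
  have hx : ∀ t : Algebra.adjoin k (T : Set E), t.1 ∈ T → x t = 0 := fun t ht => by
    have h : T ≤ ((LinearMap.ker ψ.toLinearMap).map B.val.toLinearMap).comap φ.toLinearMap := by
      rw [span_le]
      rintro _ ⟨b, rfl⟩
      exact ⟨⟨_, hb none b⟩ - algebraMap k B (c b), by simp [c], by simp [τ']⟩
    obtain ⟨u, hu, e⟩ := h ht
    exact (congrArg ψ (Subtype.ext e.symm)).trans hu
  refine ⟨σ, hσ, T, ⟨hσ0, le_antisymm ?_ ?_, fun h => ?_⟩, fg_span (finite_range _),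
    fun a ha => hBO (hB none ⟨a, ha⟩), x, B, ψ, fun i => hB (some i), fun i t => ?_, hx,
    fun t ht => by_contra fun h => ht (hψ _ h)⟩
  · rw [← hV, span_le]
    intro b hb
    refine mem_span_singleton_mul.2 ⟨b / σ, ?_, mul_div_cancel₀ _ hσ0⟩
    rw [← add_sub_cancel (algebraMap k E (c ⟨b, hb⟩)) (b / σ)]
    exact add_mem_sup (algebraMap_mem _) (subset_span ⟨⟨b, hb⟩, rfl⟩)
  · have h1 : σ ∈ V := hV ▸ subset_span hσ
    rw [pr, Submodule.mul_sup, sup_le_iff, mul_one, span_mul_span, span_le, span_le]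
    refine ⟨singleton_subset_iff.2 h1, ?_⟩
    rintro _ ⟨_, rfl, _, ⟨b, rfl⟩, rfl⟩
    simp only [mul_sub, mul_div_cancel₀ _ hσ0, mul_comm _ (algebraMap k E _), ← Algebra.smul_def]
    exact sub_mem (hV ▸ subset_span b.2) (V.smul_mem _ h1)
  · simpa using hx 1 h
  · rw [← sub_eq_zero]
    exact (map_sub ψ ⟨_, hB (some i) t⟩ ⟨_, hB none t⟩).symm.trans
      (hψ _ (hτ i t (hBO (hB none t))).2)

lemma div_mem_adjoin {e : ℕ} {s : Fin (e + 1) → E} {i : Fin (e + 1)} (hi : s i ≠ 0) (l) :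
    s l / s i ∈ IntermediateField.adjoin k (range fun l => s (i.succAbove l) / s i) := by
  refine Fin.succAboveCases i ?_ (fun l => IntermediateField.subset_adjoin _ _ ⟨l, rfl⟩) l
  rw [div_self hi]
  exact one_mem _

lemma adjoin_div {e : ℕ} {s : Fin (e + 1) → E} {i j : Fin (e + 1)} (hi : s i ≠ 0) (hj : s j ≠ 0) :
    IntermediateField.adjoin k (range fun l => s (i.succAbove l) / s i) =
      IntermediateField.adjoin k (range fun l => s (j.succAbove l) / s j) := by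
  have h : ∀ i j, s i ≠ 0 → IntermediateField.adjoin k (range fun l => s (j.succAbove l) / s j) ≤
      IntermediateField.adjoin k (range fun l => s (i.succAbove l) / s i) := fun i j hi => by
    rw [IntermediateField.adjoin_le_iff]
    rintro _ ⟨l, rfl⟩
    have h2 := div_mem (div_mem_adjoin (k := k) hi (j.succAbove l)) (div_mem_adjoin hi j)
    rwa [div_div_div_cancel_right₀ hi] at h2
  exact le_antisymm (h j i hj) (h i j hi)

/-- The conditions at the points of the model of `V`. -/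
def Pts (C r : ℕ) (V : Submodule k E) (G : Finset E) {e : ℕ} (s : Fin (e + 1) → E) : Prop :=
  ∀ σ ∈ G, ∀ T, Hyp V σ T → (1 : E) ∉ nn T → (∃ j, s j / σ ^ r ∉ nn T) ∧
    ∀ (i : Fin (e + 1)) (c : Fin e → k), s i / σ ^ r ∉ nn T →
      (∀ l, s (i.succAbove l) / σ ^ r - c l • (s i / σ ^ r) ∈ nn T) →
      ∃ M0 : Submodule k E, M0.FG ∧ (∀ z, ∃ a ∈ alg T, a ≠ 0 ∧ a * z ∈ alg T * M0) ∧
        Ld C T (fun l => s (i.succAbove l) / σ ^ r - c l • (s i / σ ^ r)) (alg T * M0) ⊥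

lemma exists_coef {T : Submodule k E} (x : Algebra.adjoin k (T : Set E) →ₐ[k] k)
    (hx : ∀ t : Algebra.adjoin k (T : Set E), t.1 ∈ T → x t = 0) {u : E} {v : σ → E}
    (hu : u ∈ alg T) (hu' : u ∉ nn T) (hv : ∀ l, v l ∈ alg T) :
    ∃ c : σ → k, ∀ l, v l - c l • u ∈ nn T := by
  have h : x ⟨u, hu⟩ ≠ 0 := fun h => hu' ((mem_nn_iff x hx ⟨u, hu⟩).2 h)
  refine ⟨fun l => x ⟨v l, hv l⟩ / x ⟨u, hu⟩, fun l =>
    (mem_nn_iff x hx (⟨v l, hv l⟩ - (x ⟨v l, hv l⟩ / x ⟨u, hu⟩) • ⟨u, hu⟩)).2 ?_⟩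
  rw [map_sub, map_smul, smul_eq_mul, div_mul_cancel₀ _ h, sub_self]

variable [IsAlgClosed k] {e C r : ℕ} {V : Submodule k E} {G : Finset E} {s : Fin (e + 1) → E}

/-- A base point free system defines a finite map. -/
lemma Pts.fin (H : Pts C r V G s) (hr : r ≠ 0) (hV : span k (G : Set E) = V)
    (hne : ∀ σ ∈ G, σ ≠ 0) (hG : G.Nonempty) (hs : ∀ j, s j ∈ V ^ r) {j : Fin (e + 1)}
    (hj : s j ≠ 0) :
    FiniteDimensional (IntermediateField.adjoin k (range fun l => s (j.succAbove l) / s j)) E := by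
  set F := IntermediateField.adjoin k (range fun l => s (j.succAbove l) / s j)
  have h1 : ∀ b ∈ G, IsIntegral F (b ^ r / s j) := fun b hb => by
    refine isIntegral_of_val (D := F.toSubalgebra) fun O hO hF => ?_
    obtain ⟨σ, hσ, T, hT, -, h2, x, -, -, -, -, hx, h3⟩ :=
      exists_hyp (ι := Empty) hV hne hG hO Empty.elim (AlgHom.id k E) fun i => i.elim
    obtain ⟨⟨i, hi⟩, -⟩ := H σ hσ T hT fun h => by simpa using (mem_nn_iff x hx 1).1 h
    have h4 : Un O (s i / σ ^ r) := h3 ⟨_, div_pow_mem hT (hs i)⟩ fun h =>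
      hi ((mem_nn_iff x hx ⟨_, div_pow_mem hT (hs i)⟩).2 h)
    have h5 : s i ≠ 0 := fun h => h4.2.1 (by rw [h, zero_div])
    have h6 := hT.ne
    rw [show b ^ r / s j = b ^ r / σ ^ r * (s i / σ ^ r)⁻¹ * (s i / s j) by field_simp]
    exact mul_mem (mul_mem (h2 _ (div_pow_mem hT (pow_mem_pow V (hV ▸ subset_span hb) r))) h4.2.2)
      (hF (div_mem_adjoin hj i))
  obtain ⟨σ, hσ, T, hT, -, -, x, -, -, -, -, hx, -⟩ :=
    exists_hyp (ι := Empty) hV hne hG val_top Empty.elim (AlgHom.id k E) fun i => i.elim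
  obtain ⟨⟨i, hi⟩, h2⟩ := H σ hσ T hT fun h => by simpa using (mem_nn_iff x hx 1).1 h
  obtain ⟨c, hc⟩ := exists_coef x hx (div_pow_mem hT (hs i)) hi
    fun l => div_pow_mem hT (hs (i.succAbove l))
  obtain ⟨_, ⟨G0, rfl⟩, h3, -⟩ := h2 i c hi hc
  have h6 := hT.ne
  let F1 := IntermediateField.adjoin F (range fun b : G => b / σ)
  have : FiniteDimensional F F1 := IntermediateField.finiteDimensional_adjoin <| by
    rintro _ ⟨b, rfl⟩
    refine IsIntegral.of_pow (Nat.pos_of_ne_zero hr) ?_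
    rw [show (b / σ) ^ r = b ^ r / s j * (σ ^ r / s j)⁻¹ by rw [div_pow]; field_simp]
    exact (h1 b b.2).mul (h1 σ hσ).inv
  have h4 : Algebra.adjoin k (T : Set E) ≤ (F1.restrictScalars k).toSubalgebra :=
    Algebra.adjoin_le fun t ht => by
      have h5 : σ * t ∈ span k (G : Set E) := by
        rw [hV, hT.eq]
        exact mul_mem_mul (mem_span_singleton_self σ) (mem_sup_right ht)
      have h7 := div_mem_of_span (O := (F1.restrictScalars k).toSubalgebra) (g := σ)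
        (fun b hb => IntermediateField.subset_adjoin F _ ⟨⟨b, hb⟩, rfl⟩) h5
      rwa [mul_div_cancel_left₀ _ h6] at h7
  have h8 : ∀ v ∈ span k (G0 : Set E), v ∈ span F1 (G0 : Set E) := fun v hv => by
    induction hv using span_induction with
    | mem v hv => exact subset_span hv
    | zero => exact zero_mem _
    | add u v _ _ hu hv => exact add_mem hu hv
    | smul c v _ hv =>
      rw [Algebra.smul_def]
      exact (span F1 (G0 : Set E)).smul_mem ⟨_, h4 (Subalgebra.algebraMap_mem _ c)⟩ hv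
  have : FiniteDimensional F1 E := ⟨G0, eq_top_iff.2 fun z _ => by
    obtain ⟨a, ha, ha0, hz⟩ := h3 z
    have h5 : a * z ∈ span F1 (G0 : Set E) :=
      Submodule.mul_induction_on hz (fun u hu v hv => (span F1 (G0 : Set E)).smul_mem ⟨u, h4 hu⟩
        (h8 v hv)) fun _ _ => add_mem
    have h7 := (span F1 (G0 : Set E)).smul_mem ⟨a⁻¹, inv_mem (h4 ha : a ∈ F1)⟩ h5
    rwa [IntermediateField.smul_def, smul_eq_mul, inv_mul_cancel_left₀ ha0] at h7⟩
  exact Module.Finite.trans F1 E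

omit [IsAlgClosed k] in
lemma ind_of_fin {g y : Fin e → E} [FiniteDimensional (IntermediateField.adjoin k (range g)) E]
    (hy : AlgebraicIndependent k y) : AlgebraicIndependent k g := by
  have : Algebra.IsAlgebraic (Algebra.adjoin k (range g)) E :=
    IntermediateField.isAlgebraic_adjoin_iff_top.1 inferInstance
  exact (Algebra.IsAlgebraic.isTranscendenceBasis_of_le_trdeg_of_finite k g
    hy.cardinalMk_le_trdeg).1

lemma Pts.bound (H : Pts C r V G s) (hr : r ≠ 0) (hV : span k (G : Set E) = V)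
    (hne : ∀ σ ∈ G, σ ≠ 0) (hG : G.Nonempty) (hs : ∀ j, s j ∈ V ^ r) {y : Fin e → E}
    (hy : AlgebraicIndependent k y) {j : Fin (e + 1)} (hj : s j ≠ 0) [Fintype ι]
    {O : Subalgebra k N} (hO : Val O) (τ : ι → E →ₐ[k] N) (hi : Function.Injective τ)
    (φ : E →ₐ[k] N) (hτ : ∀ i a, φ a ∈ O → τ i a ∈ O ∧ ¬ Un O (τ i a - φ a))
    (hg : ∀ i l, τ i (s (j.succAbove l) / s j) = φ (s (j.succAbove l) / s j)) :
    Fintype.card ι * Field.finInsepDegree
      (IntermediateField.adjoin k (range fun l => s (j.succAbove l) / s j)) E ≤ C := by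
  obtain ⟨σ, hσ, T, hT, hfg, -, x, B, ψ, hB, hψ, hx, -⟩ := exists_hyp hV hne hG hO τ φ hτ
  obtain ⟨⟨i, hi'⟩, h2⟩ := H σ hσ T hT fun h => by simpa using (mem_nn_iff x hx 1).1 h
  obtain ⟨c, hc⟩ := exists_coef x hx (div_pow_mem hT (hs i)) hi'
    fun l => div_pow_mem hT (hs (i.succAbove l))
  obtain ⟨M0, h0, h3, h4⟩ := h2 i c hi' hc
  have h5 : s i ≠ 0 := fun h => hi' (by rw [h, zero_div]; exact zero_mem _)
  have := H.fin hr hV hne hG hs h5
  have h6 : ∀ n l, τ n (s l / s j) = φ (s l / s j) := fun n l => by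
    refine Fin.succAboveCases j ?_ (hg n) l
    rw [div_self hj, map_one, map_one]
  have h7 : ∀ n l, τ n (s l / s i) = φ (s l / s i) := fun n l => by
    rw [← div_div_div_cancel_right₀ hj, map_div₀, map_div₀ φ, h6, h6]
  rw [adjoin_div hj h5]
  have h8 := fun l => div_pow_mem hT (hs l)
  have h9 : ∀ l, s l / s i * (s i / σ ^ r) = s l / σ ^ r := fun l => by
    rw [div_mul_div_cancel₀ h5]
  refine le_of_ld hfg h0 x hx h3 (h8 i) (fun l => h8 _) (fun l => h9 _) (ind_of_fin hy) τ hi ψ hB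
    hψ (fun l => ?_) h4
  rcases isEmpty_or_nonempty ι with hι | ⟨⟨n⟩⟩
  · exact ⟨1, algebraMap k B (c l), fun n => hι.elim n, by simp, by simp⟩
  refine ⟨⟨_, hB n ⟨_, h8 i⟩⟩, ⟨_, hB n ⟨_, h8 (i.succAbove l)⟩⟩, fun n' => ?_, ?_, ?_⟩
  · rw [h7, ← h7 n]
    exact (map_mul (τ n) _ _).symm.trans (congrArg (τ n) ((mul_comm _ _).trans (h9 _)))
  · rw [hψ]
    exact fun h => hi' ((mem_nn_iff x hx ⟨_, h8 i⟩).2 h)
  · have h := (mem_nn_iff x hx (⟨_, h8 (i.succAbove l)⟩ - c l • ⟨_, h8 i⟩)).1 (hc l)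
    rw [map_sub, map_smul, sub_eq_zero] at h
    rw [hψ, hψ, h, smul_eq_mul, mul_comm]

/-- The map defined by `s` is a finite separable cover of local degree at most `C`. -/
theorem Pts.cov (H : Pts C r V G s) (hp : Big k C) (hr : r ≠ 0)
    (hV : span k (G : Set E) = V) (hne : ∀ σ ∈ G, σ ≠ 0) (hG : G.Nonempty)
    (hs : ∀ j, s j ∈ V ^ r) {y : Fin e → E} (hy : AlgebraicIndependent k y) {j : Fin (e + 1)}
    (hj : s j ≠ 0) : Cov k E (fun l => s (j.succAbove l) / s j) C := by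
  have hf := H.fin hr hV hne hG hs hj
  refine ⟨ind_of_fin hy, hf, ?_, fun N _ _ O hO Φ φ h => ?_⟩
  · have h := H.bound hr hV hne hG hs hy hj val_top (fun _ : Unit => AlgHom.id k E)
      (Function.injective_of_subsingleton _) (AlgHom.id k E)
      (fun _ a _ => ⟨trivial, fun h => h.2.1 (sub_self _)⟩) fun _ _ => rfl
    obtain ⟨q, hq⟩ := ExpChar.exists k
    have := expChar_of_injective_algebraMap (algebraMap k (IntermediateField.adjoin k
      (range fun l => s (j.succAbove l) / s j))).injective q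
    obtain ⟨n, hn⟩ := finInsepDegree_eq_pow (IntermediateField.adjoin k
      (range fun l => s (j.succAbove l) / s j)) E q
    rw [isSeparable_iff_finInsepDegree_eq_one, hn]
    rw [hn, Fintype.card_unit, one_mul] at h
    rcases hq with _ | hq
    · exact one_pow n
    · rcases n with _ | n
      · rfl
      · exact (hp _ (pow_pos hq.pos _) h (by simp)).elim
  · have h1 := H.bound hr hV hne hG hs hy hj hO (fun i : Φ => i.1) Subtype.val_injective φ
      (fun i => (h i i.2).2) fun i l => (h i i.2).1 _ ⟨l, rfl⟩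
    rw [Fintype.card_coe] at h1
    exact (Nat.le_mul_of_pos_right _ (NeZero.pos _)).trans h1

theorem low : LowStmt k := by
  intro E N _ _ _ _ e C T X S₀ g B I Φ hT hX hfr hS hS0 hg hi hf hI h1 h2 h3
  rcases Φ.eq_empty_or_nonempty with rfl | ⟨φ, hφ⟩
  · simp
  obtain ⟨G, rfl⟩ := hT
  choose b hb hb' using h2
  let B' := Algebra.adjoin k (range (fun p : Φ × G => p.1.1 p.2) ∪ range fun i => (b i : N))
  have hB : B' ≤ B := Algebra.adjoin_le <| by
    rintro _ (⟨p, rfl⟩ | ⟨i, rfl⟩)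
    · obtain ⟨c, -, hc⟩ := h1 p.1 p.1.2 p.2 (subset_span p.2.2)
      exact (hc ▸ c.2 : p.1.1 p.2 ∈ B)
    · exact (b i).2
  obtain ⟨ψ, hψ⟩ := exists_hom (B := B') (Subalgebra.fg_def.2
    ⟨_, (finite_range _).union (finite_range _), rfl⟩)
    (I := I.comap (Subalgebra.inclusion hB)) (Ideal.comap_ne_top _ hI)
  have h4 : ∀ (n : Φ) (t : Algebra.adjoin k (span k (G : Set E) : Set E)), n.1 t ∈ B' :=
    fun n t => by
      have h : Algebra.adjoin k (span k (G : Set E) : Set E) ≤ B'.comap n.1 := by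
        rw [Algebra.adjoin_span, Algebra.adjoin_le_iff]
        exact fun t ht => Algebra.subset_adjoin (Or.inl ⟨(n, ⟨t, ht⟩), rfl⟩)
      exact h t.2
  let x : Φ → Algebra.adjoin k (span k (G : Set E) : Set E) →ₐ[k] k := fun n =>
    ψ.comp ((n.1.comp (Subalgebra.val _)).codRestrict B' (h4 n))
  have hx : ∀ n (t : Algebra.adjoin k (span k (G : Set E) : Set E)), t.1 ∈ span k (G : Set E) →
      x n t = 0 := fun n t ht => by
    obtain ⟨c, hc, hc'⟩ := h1 n n.2 t ht
    have h : Subalgebra.inclusion hB ⟨_, h4 n t⟩ = c := Subtype.ext hc'.symm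
    exact hψ ⟨_, h4 n t⟩ (Ideal.mem_comap.2 (h ▸ hc))
  have h5 : ∀ n, x n = x ⟨φ, hφ⟩ := fun n =>
    AlgHom.ext_of_eq_adjoin rfl fun t ht => (hx _ _ ht).trans (hx _ _ ht).symm
  rw [← Fintype.card_coe]
  exact le_of_ld (c := 0) ⟨G, rfl⟩ hX (x ⟨φ, hφ⟩) (hx _) hfr hS hg (fun j => div_mul_cancel₀ _ hS0)
    hi (fun n : Φ => n.1) Subtype.val_injective ψ h4 (fun n t => AlgHom.congr_fun (h5 n) t)
    (fun j => ⟨1, ⟨b j, Algebra.subset_adjoin (Or.inr ⟨j, rfl⟩)⟩, fun n => by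
      simp [hb' j n n.2], by simp, by simpa using hψ _ (hb j)⟩) (by simpa using h3)

end Global

end Pool.Agent.MP_19ffc6_ag.Res.Low
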