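import Pool.Agent.MP_19ffc6_ag.Res.Norm
import Pool.Agent.MP_19ffc6_ag.Res.Bridge
import Mathlib.RingTheory.Invariant.Basic
import Mathlib.Order.CompletePartialOrder
import Pool.Agent.MP_19ffc6_ag.WildKL
import Mathlib.RingTheory.PicardGroup
import Mathlib.GroupTheory.FiniteAbelian.Basic

-- ======== part 0: formerly Pool.Agent.MP_19ffc6_ag.Res.BSpec
section MrgPart0

/-! PROJECT RES, part B: definitions, statements of the modules and the induction. -/

namespace Pool.Agent.MP_19ffc6_ag.Res.B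

open Pool.Agent.MP_19ffc6_ag.Wild Pool.Agent.MP_19ffc6_ag.Lci Pool.Agent.MP_19ffc6_ag.Res.Tor

variable {k L : Type} [Field k] [Field L] [Algebra k L]

/-- The residue field of `O` is `k`. -/
def Rt (O : Subalgebra k L) : Prop := ∀ x ∈ O, ∃ c : k, ¬ Un O (x - algebraMap k L c)

/-- `M` defines a projective model of `K`. -/
structure Mdl (K : IntermediateField k L) (M : Submodule k L) : Prop where
  fg : M.FG
  ne : M ≠ ⊥
  le : ∀ m ∈ M, m ∈ K
  frac : ∀ g ∈ M, g ≠ 0 → ∀ x ∈ K, ∃ b ∈ chart ⊥ M g, b ≠ 0 ∧ b * x ∈ chart ⊥ M g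

/-- A toroidal point: the maximal ideal is generated by monomials and further parameters. -/
structure TP (n : ℕ) (O : Subalgebra k L) {ι : Type} {r s : ℕ} (τ : Typ ι r) (z : Fin r → L)
    (t : Fin s → L) : Prop where
  card : r + s = n
  ptd : τ.Pointed
  str : τ.Strict
  fac : ∀ ρ ∈ τ.R, ∃ c, τ.ev c ρ = 0 ∧ ∀ σ ∈ τ.R, σ ≠ ρ → 0 < τ.ev c σ
  ne : ∀ i, z i ≠ 0
  mem : ∀ c ∈ τ.Reg 0, mn z c ∈ O
  nu : ∀ c ∈ τ.Reg 0, c ≠ 0 → ¬ Un O (mn z c)
  tm : ∀ j, t j ∈ O ∧ ¬ Un O (t j)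
  gen : ∀ x ∈ O, ¬ Un O x → x ∈ Submodule.span O (mn z '' (τ.Reg 0 \ {0}) ∪ Set.range t)

/-- The elements of `S` are monomials and the boundary is the support of their divisors. -/
def Sees (S : Finset L) (O : Subalgebra k L) {ι : Type} {r : ℕ} (τ : Typ ι r) (z : Fin r → L) :
    Prop :=
  (∀ f ∈ S, LMon O z f) ∧ ∀ ρ ∈ τ.R, ∃ f ∈ S, ∃ c, Un O (f / mn z c) ∧ τ.ev c ρ ≠ 0

/-- A regular point with boundary parameters `x` and further parameters `t`. -/
structure Par (n : ℕ) (S : Finset L) (O : Subalgebra k L) {r s : ℕ} (x : Fin r → L)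
    (t : Fin s → L) : Prop where
  card : r + s = n
  xm : ∀ i, x i ∈ O ∧ x i ≠ 0 ∧ ¬ Un O (x i)
  tm : ∀ j, t j ∈ O ∧ ¬ Un O (t j)
  gen : ∀ y ∈ O, ¬ Un O y → y ∈ Submodule.span O (Set.range x ∪ Set.range t)
  mon : ∀ f ∈ S, LMon O x f
  sees : ∀ i, ∃ f ∈ S, ∃ c, Un O (f / mn x c) ∧ c i ≠ 0
  cmp : ∀ f ∈ S, f ∈ O ∨ f⁻¹ ∈ O

/-- All rational points are toroidal. -/
def TorForm (n : ℕ) (K : IntermediateField k L) (S : Finset L) (M : Submodule k L) : Prop :=
  Mdl K M ∧ ∀ O, Pt ⊥ M O → Rt O → ∃ (ι : Type) (_ : Fintype ι) (r s : ℕ) (τ : Typ ι r)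
    (z : Fin r → L) (t : Fin s → L), TP n O τ z t ∧ Sees S O τ z

/-- All rational points are regular and the boundary has normal crossings. -/
def SncForm (n : ℕ) (K : IntermediateField k L) (S : Finset L) (M : Submodule k L) : Prop :=
  Mdl K M ∧ ∀ O, Pt ⊥ M O → Rt O → ∃ (r s : ℕ) (x : Fin r → L) (t : Fin s → L), Par n S O x t

/-- `σ` lies in the inertia group of the valuation ring `V`. -/
def Ine {E : IntermediateField k L} {N : IntermediateField E L} (V : Subalgebra k L)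
    (σ : N ≃ₐ[E] N) : Prop :=
  ∀ x : N, (x : L) ∈ V → (σ x : L) ∈ V ∧ ¬ Un V ((σ x : L) - x)

/-- A finite Galois extension all of whose inertia groups are killed by `m`. -/
structure Tame (m : ℕ) (E : IntermediateField k L) (N : IntermediateField E L) : Prop where
  fin : FiniteDimensional E N
  gal : IsGalois E N
  pow : ∀ V : Subalgebra k L, Val V → ∀ σ : N ≃ₐ[E] N, Ine V σ → σ ^ m = 1

/-- Where `S` consists of units, `N / E` is unramified and `T` consists of units. -/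
def Off (E : IntermediateField k L) (N : IntermediateField E L) (S T : Finset L) : Prop :=
  ∀ V : Subalgebra k L, Val V → (∀ f ∈ S, Un V f) →
    (∀ σ : N ≃ₐ[E] N, Ine V σ → σ = 1) ∧ ∀ f ∈ T, Un V f

/-- A finite additive group of elements of `N` that contains `1` and is Galois stable. -/
structure Span {F : IntermediateField k L} (N : IntermediateField F L) (U : Finset L) : Prop where
  le : ∀ u ∈ U, u ∈ N
  one : 1 ∈ U
  sub : ∀ u ∈ U, ∀ v ∈ U, u - v ∈ U
  gal : ∀ (σ : N ≃ₐ[F] N) (u : N), (u : L) ∈ U → (σ u : L) ∈ U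

variable (k L)

/-- The inductive statement. -/
def RES (n : ℕ) : Prop :=
  ∀ K : IntermediateField k L, K.FG → Algebra.trdeg k K = n → ∀ S : Finset L,
    (∀ f ∈ S, f ∈ K ∧ f ≠ 0) → ∃ (S' : Finset L) (M : Submodule k L), S ⊆ S' ∧ SncForm n K S' M

/-- The output of part A: a fibration by curves that is tame at all valuations. -/
def PartA (n : ℕ) : Prop :=
  ∀ K : IntermediateField k L, K.FG → Algebra.trdeg k K = (n + 1 : ℕ) → ∀ T : Finset L,
    (∀ f ∈ T, f ∈ K ∧ f ≠ 0) →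
    ∃ (m : ℕ) (F : IntermediateField k L) (Y : L) (N₀ : IntermediateField F L)
      (N : IntermediateField (F ⊔ IntermediateField.adjoin k {Y} : IntermediateField k L) L)
      (Z : Finset L), (m : k) ≠ 0 ∧ F.FG ∧ Algebra.trdeg k F = n ∧ Transcendental F Y ∧ F ≤ K ∧
      Y ∈ K ∧ (∀ x ∈ K, x ∈ N) ∧ (∀ u ∈ Z, u ∈ N₀) ∧ Tame m F N₀ ∧ Tame m _ N ∧
      ∀ V : Subalgebra k L, Val V → F.toSubalgebra ≤ V → Y ∈ V → (∀ u ∈ Z, Un V (Y - u)) →
        (∀ σ : N ≃ₐ[_] N, Ine V σ → σ = 1) ∧ ∀ f ∈ T, Un V f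

/-- Module LABEL. -/
def LabelStmt : Prop :=
  ∀ (n : ℕ) (K : IntermediateField k L) (S : Finset L) (M : Submodule k L),
    Algebra.trdeg k K = n → TorForm n K S M →
    ∃ s : TS k L, s.M = M ∧ s.Good ∧ (∀ f ∈ S, ∃ a, s.HasExp f a) ∧
      ∀ O, s.P O → ∀ i, (s.ch O).z i ∈ K

/-- Module TORES. -/
def ToresStmt : Prop :=
  ∀ (n : ℕ) (K : IntermediateField k L) (S : Finset L) (M : Submodule k L),
    Algebra.trdeg k K = n → TorForm n K S M → ∃ M', SncForm n K S M'

/-- Module COVER: the normalization in a tame cover. -/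
def CoverStmt : Prop :=
  ∀ (n m : ℕ) (E K : IntermediateField k L) (N : IntermediateField E L) (S T : Finset L)
    (M : Submodule k L), (m : k) ≠ 0 → K.FG → Algebra.trdeg k E = n → E ≤ K → (∀ x ∈ K, x ∈ N) →
    (∀ f ∈ T, f ∈ K) → Tame m E N → Off E N S T → SncForm n E S M →
    ∃ (S' : Finset L) (M' : Submodule k L), T ⊆ S' ∧ TorForm n K S' M'

/-- Module TREE: the tree of discs. -/
def TreeStmt : Prop :=
  ∀ (n m : ℕ) (F : IntermediateField k L) (Y : L) (N : IntermediateField F L) (U S : Finset L),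
    RES k L n → (m : k) ≠ 0 → F.FG → Algebra.trdeg k F = n → Transcendental F Y → Tame m F N →
    Span N U → (∀ f ∈ S, f ∈ F ∧ f ≠ 0) →
    ∃ (S' : Finset L) (M : Submodule k L), S ⊆ S' ∧ Y ∈ S' ∧ ∏ u ∈ U, (Y - u) ∈ S' ∧
      TorForm (n + 1) (F ⊔ IntermediateField.adjoin k {Y}) S' M

/-- Module BEZ: spreading out of the unramified locus. -/
structure BezStmt : Prop where
  span : ∀ (F : IntermediateField k L) (N : IntermediateField F L) (Z : Finset L),
    FiniteDimensional F N → (∀ u ∈ Z, u ∈ N) → ∃ U, Z ⊆ U ∧ Span N U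
  base : ∀ (F : IntermediateField k L) (N : IntermediateField F L) (T : Finset L),
    FiniteDimensional F N → (∀ f ∈ T, f ∈ N ∧ f ≠ 0) →
    ∃ S : Finset L, (∀ f ∈ S, f ∈ F ∧ f ≠ 0) ∧ Off F N S T
  line : ∀ (m : ℕ) (F : IntermediateField k L) (Y : L) (N₀ : IntermediateField F L)
    (N : IntermediateField (F ⊔ IntermediateField.adjoin k {Y} : IntermediateField k L) L)
    (U T : Finset L), Transcendental F Y → FiniteDimensional F N₀ → IsGalois F N₀ → Span N₀ U →
    Tame m _ N →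
    (∀ V : Subalgebra k L, Val V → F.toSubalgebra ≤ V → Y ∈ V → (∀ u ∈ U, Un V (Y - u)) →
      (∀ σ : N ≃ₐ[_] N, Ine V σ → σ = 1) ∧ ∀ f ∈ T, Un V f) →
    ∃ S : Finset L, (∀ f ∈ S, f ∈ F ∧ f ≠ 0) ∧ ∀ S' : Finset L, S ⊆ S' → Y ∈ S' →
      ∏ u ∈ U, (Y - u) ∈ S' → Off _ N S' T

/-- Module BASE: dimension zero. -/
def ZeroStmt : Prop := RES k L 0

/-- Module FIN: from normal crossings models to smooth models. -/
def FinStmt (k : Type) [Field k] : Prop :=
  ∀ n : ℕ, (∀ (L : Type) [Field L] [Algebra k L] [IsAlgClosed L], ∀ m ≤ n, RES k L m) → ModelS k n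

variable {k L}

theorem trdeg_eq_of_le {E K : IntermediateField k L} {N : IntermediateField E L}
    [FiniteDimensional E N] (h : E ≤ K) (hK : ∀ x ∈ K, x ∈ N) :
    Algebra.trdeg k E = Algebra.trdeg k K := by
  let _ := (IntermediateField.inclusion h).toRingHom.toAlgebra
  have : IsScalarTower k E K := .of_algebraMap_eq fun _ => rfl
  have : IsScalarTower E K L := .of_algebraMap_eq fun _ => rfl
  have : Algebra.IsAlgebraic E K := ⟨fun x => by
    have h1 : IsAlgebraic E (⟨x, hK x x.2⟩ : N) := Algebra.IsAlgebraic.isAlgebraic _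
    exact (isAlgebraic_algebraMap_iff (algebraMap K L).injective).1
      ((isAlgebraic_algebraMap_iff (algebraMap N L).injective).2 h1)⟩
  rw [← trdeg_add_eq k E (A := K), trdeg_eq_zero (R := E) (A := K), add_zero]

/-- The induction step. -/
theorem res_succ {n : ℕ} (hA : PartA k L n) (hB : BezStmt k L) (hT : ToresStmt k L)
    (hC : CoverStmt k L) (hTr : TreeStmt k L) (ih : RES k L n) : RES k L (n + 1) := by
  intro K hK hn T hT0
  obtain ⟨m, F, Y, N₀, N, Z, hm, hF, hFn, hY, hFK, hYK, hKN, hZ, h0, h1, h2⟩ := hA K hK hn T hT0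
  obtain ⟨U, hZU, hU⟩ := hB.span F N₀ Z h0.fin hZ
  obtain ⟨S, hS, hoff⟩ := hB.line m F Y N₀ N U T hY h0.fin h0.gal hU h1
    fun V hV hFV hYV h => h2 V hV hFV hYV fun u hu => h u (hZU hu)
  obtain ⟨S1, M1, e1, e2, e3, e4⟩ := hTr n m F Y N₀ U S ih hm hF hFn hY h0 hU hS
  have hEK : F ⊔ IntermediateField.adjoin k {Y} ≤ K :=
    sup_le hFK (IntermediateField.adjoin_le_iff.2 (Set.singleton_subset_iff.2 hYK))
  have := h1.fin
  have hE := (trdeg_eq_of_le hEK hKN).trans hn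
  obtain ⟨M2, e5⟩ := hT _ _ _ _ hE e4
  obtain ⟨S3, M3, e6, e7⟩ := hC _ m _ K N S1 T M2 hm hK hE hEK hKN (fun f hf => (hT0 f hf).1) h1
    (hoff S1 e1 e2 e3) e5
  obtain ⟨M4, e8⟩ := hT _ _ _ _ hn e7
  exact ⟨S3, M4, e6, e8⟩

theorem res_all (n : ℕ) (hA : ∀ m < n, PartA k L m) (h0 : ZeroStmt k L) (hB : BezStmt k L)
    (hT : ToresStmt k L) (hC : CoverStmt k L) (hTr : TreeStmt k L) : ∀ m ≤ n, RES k L m := by
  intro m hm
  induction m with
  | zero => exact h0
  | succ m ih => exact res_succ (hA m hm) hB hT hC hTr (ih (by omega))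

end Pool.Agent.MP_19ffc6_ag.Res.B

end MrgPart0

-- ======== part 1: formerly Pool.Agent.MP_19ffc6_ag.WildFix
section MrgPart1

/-! Invariants of stable subalgebras. -/

namespace Pool.Agent.MP_19ffc6_ag.Wild

open Polynomial

variable {k Λ : Type} [Field k] [CommRing Λ] [Algebra k Λ] (G : Type) [Group G]
  [MulSemiringAction G Λ] [SMulCommClass G k Λ]

/-- Invariant elements of a subalgebra. -/
def fix (D : Subalgebra k Λ) : Subalgebra k Λ := D ⊓ FixedPoints.subalgebra k Λ G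

variable {G}

lemma mem_fix {D : Subalgebra k Λ} {x : Λ} : x ∈ fix G D ↔ x ∈ D ∧ ∀ g : G, g • x = x := Iff.rfl

lemma fix_le (D : Subalgebra k Λ) : fix G D ≤ D := inf_le_left

/-- The action on a stable subalgebra. -/
abbrev subAct {D : Subalgebra k Λ} (hD : ∀ g : G, ∀ x ∈ D, g • x ∈ D) :
    MulSemiringAction G D where
  smul g x := ⟨g • x.1, hD g x.1 x.2⟩
  one_smul x := Subtype.ext (one_smul G x.1)
  mul_smul g h x := Subtype.ext (mul_smul g h x.1)
  smul_zero g := Subtype.ext (smul_zero g)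
  smul_add g x y := Subtype.ext (smul_add g x.1 y.1)
  smul_one g := Subtype.ext (smul_one g)
  smul_mul g x y := Subtype.ext (smul_mul' g x.1 y.1)

/-- The inclusion of the invariants. -/
abbrev fixAlg (D : Subalgebra k Λ) : Algebra (fix G D) D :=
  (Subalgebra.inclusion (fix_le D)).toRingHom.toAlgebra

lemma fix_smulComm {D : Subalgebra k Λ} (hD : ∀ g : G, ∀ x ∈ D, g • x ∈ D) :
    letI := subAct hD
    letI := fixAlg (G := G) D
    SMulCommClass G (fix G D) D := by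
  let := subAct hD
  let := fixAlg (G := G) D
  refine ⟨fun g r x => Subtype.ext ?_⟩
  change g • (r.1 * x.1) = r.1 * g • x.1
  rw [smul_mul', r.2.2 g]

lemma fix_isInvariant {D : Subalgebra k Λ} (hD : ∀ g : G, ∀ x ∈ D, g • x ∈ D) :
    letI := subAct hD
    letI := fixAlg (G := G) D
    Algebra.IsInvariant (fix G D) D G := by
  let := subAct hD
  let := fixAlg (G := G) D
  exact ⟨fun b hb => ⟨⟨b.1, b.2, fun g => congrArg Subtype.val (hb g)⟩, rfl⟩⟩

lemma fix_finiteType [Finite G] {D : Subalgebra k Λ} (hD : ∀ g : G, ∀ x ∈ D, g • x ∈ D)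
    [Algebra.FiniteType k D] : Algebra.FiniteType k (fix G D) := by
  let := subAct hD
  let := fixAlg (G := G) D
  have := fix_smulComm hD
  have := fix_isInvariant hD
  have : IsScalarTower k (fix G D) D := .of_algebraMap_eq fun _ => rfl
  have := Algebra.IsInvariant.isIntegral (fix G D) D G
  have : Algebra.FiniteType (fix G D) D := .of_restrictScalars_finiteType k _ _
  have : Module.Finite (fix G D) D := Algebra.IsIntegral.finite
  exact ⟨fg_of_fg_of_fg k (fix G D) D Algebra.FiniteType.out Module.Finite.fg_top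
    (Subalgebra.inclusion_injective _)⟩

lemma exists_prime_over [Finite G] {D : Subalgebra k Λ} (hD : ∀ g : G, ∀ x ∈ D, g • x ∈ D)
    (J : Ideal (fix G D)) (hJ : J ≠ ⊤) :
    ∃ Q : Submodule k Λ, (∀ x ∈ Q, ∀ y ∈ D, x * y ∈ Q) ∧ 1 ∉ Q ∧
      (∀ x ∈ D, ∀ y ∈ D, x * y ∈ Q → x ∈ Q ∨ y ∈ Q) ∧ ∀ x ∈ J, x.1 ∈ Q := by
  let := subAct hD
  let := fixAlg (G := G) D
  have := fix_smulComm hD
  have := fix_isInvariant hD
  have := Algebra.IsInvariant.isIntegral (fix G D) D G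
  obtain ⟨𝔪, h𝔪, hJ𝔪⟩ := J.exists_le_maximal hJ
  obtain ⟨𝔔, h1, h2⟩ := Ideal.exists_ideal_over_maximal_of_isIntegral (S := D) 𝔪 (by
    rw [(RingHom.injective_iff_ker_eq_bot (algebraMap (fix G D) D)).1
      (Subalgebra.inclusion_injective (fix_le D))]
    exact bot_le)
  refine ⟨(𝔔.restrictScalars k).map D.val.toLinearMap, ?_, ?_, fun x hx y hy hxy => ?_,
    fun x hx => ⟨algebraMap _ D x, ?_, rfl⟩⟩
  · rintro _ ⟨x, hx, rfl⟩ y hy
    exact ⟨x * ⟨y, hy⟩, 𝔔.mul_mem_right _ hx, rfl⟩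
  · rintro ⟨x, hx, e⟩
    have : x = 1 := Subtype.ext e
    exact h1.ne_top ((Ideal.eq_top_iff_one _).2 (this ▸ hx))
  · obtain ⟨z, hz, e⟩ := hxy
    have : z = ⟨x, hx⟩ * ⟨y, hy⟩ := Subtype.ext e
    rcases h1.isPrime.mem_or_mem (this ▸ hz) with h | h
    exacts [Or.inl ⟨_, h, rfl⟩, Or.inr ⟨_, h, rfl⟩]
  · have := hJ𝔪 hx
    rwa [← h2] at this

lemma monogenic' [Fintype G] [IsDomain Λ] {D : Subalgebra k Λ} (hD : ∀ g : G, ∀ x ∈ D, g • x ∈ D)
    {f : Λ} (hfD : f ∈ D) (hf : Function.Injective fun g : G => g • f) (t : G → D)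
    (hu : ∀ h, ∃ e : D[X], (∀ g, ((e.eval (t g) * (t g - t h) : D) : Λ) = g • f - h • f) ∧
      ∀ g, g ≠ h → IsUnit (e.eval (t g)))
    (hβ : ∀ b ∈ D, ∃ β : D[X], ∀ g, ((β.eval (t g) : D) : Λ) = g • b) :
    (∀ b ∈ D, ∃ P : Λ[X], (∀ i, P.coeff i ∈ fix G D) ∧ P.eval f = b) ∧
    (Algebra.FormallySmooth k D → Algebra.FormallySmooth k (fix G D)) ∧
    ∀ r ∈ fix G D, (∃ b ∈ D, r = f * b) → ∃ r' ∈ fix G D, r = (∏ g : G, g • f) * r' := by
  classical
  let := subAct hD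
  let := fixAlg (G := G) D
  have := fix_smulComm hD
  have := fix_isInvariant hD
  have : IsScalarTower k (fix G D) D := .of_algebraMap_eq fun _ => rfl
  let f' : D := ⟨f, hfD⟩
  obtain ⟨h1, χ, h2, h3, h4, h5⟩ := monogenic (R := fix G D) (G := G)
    (Subalgebra.inclusion_injective _) f'
    (fun g h e => hf (congrArg Subtype.val e)) fun b => by
      obtain ⟨β, hβ⟩ := hβ b.1 b.2
      obtain ⟨P, hP, hP'⟩ := newton t (fun g => g • f') (fun h => by
        obtain ⟨e, he, he'⟩ := hu h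
        exact ⟨e, fun g => Subtype.ext (he g), he'⟩) Finset.univ β
      exact ⟨P, hP, fun g => (hP' g (Finset.mem_univ g)).trans (Subtype.ext (hβ g))⟩
  refine ⟨fun b hb => ?_, fun hs => ?_, ?_⟩
  · obtain ⟨P, hP⟩ := h1 ⟨b, hb⟩
    refine ⟨P.map (fix G D).val.toRingHom, fun i => by rw [coeff_map]; exact (P.coeff i).2, ?_⟩
    have := congrArg D.val.toRingHom hP
    rw [aeval_def, hom_eval₂] at this
    rw [eval_map]; exact this
  · let e : AdjoinRoot χ ≃ₐ[fix G D] D :=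
      (Ideal.quotientEquivAlgOfEq _ h5.symm).trans (Ideal.quotientKerAlgEquivOfSurjective h1)
    have : Algebra.FormallySmooth k (AdjoinRoot χ) := .of_equiv (e.symm.restrictScalars k)
    exact formallySmooth_of_adjoinRoot χ h2 h3
  · rintro r hr ⟨b, hb, e⟩
    obtain ⟨P, hP⟩ := h1 ⟨b, hb⟩
    have h6 : C (⟨r, hr⟩ : fix G D) - X * P ∈ RingHom.ker (aeval (R := fix G D) f') := by
      rw [RingHom.mem_ker, map_sub, map_mul, hP, aeval_C, aeval_X]
      exact Subtype.ext (sub_eq_zero.2 e)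
    rw [h5, Ideal.mem_span_singleton] at h6
    obtain ⟨c, hc⟩ := h6
    have h7 := congrArg (fun q => ((q.coeff 0 : fix G D) : Λ)) hc
    have h8 := congrArg (fun q => ((q.eval 0 : D) : Λ)) h4
    simp only [coeff_sub, coeff_C_zero, mul_coeff_zero, coeff_X_zero, zero_mul, sub_zero] at h7
    simp only [← coeff_zero_eq_eval_zero, coeff_map] at h8
    rw [coeff_zero_eq_eval_zero (∏ g : G, (X - C (g • f'))), eval_prod] at h8
    simp only [eval_sub, eval_X, eval_C, zero_sub, Finset.prod_neg] at h8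
    refine ⟨(-1) ^ Fintype.card G * (c.coeff 0).1, Subalgebra.mul_mem _
      (Subalgebra.pow_mem _ (Subalgebra.neg_mem _ (Subalgebra.one_mem _)) _) (c.coeff 0).2, ?_⟩
    have h9 : ((χ.coeff 0 : fix G D) : Λ) = (-1) ^ Fintype.card G * ∏ g : G, g • f := by
      refine h8.trans ?_
      push_cast
      rfl
    rw [h7, Subalgebra.coe_mul, h9]
    ring

lemma euler {Λ : Type} [CommRing Λ] [IsDomain Λ] [Algebra k Λ] {D : Subalgebra k Λ}
    {Q : Submodule k Λ} (hQ : ∀ x ∈ Q, ∀ y ∈ D, x * y ∈ Q)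
    (hQp : ∀ x ∈ D, ∀ y ∈ D, x * y ∈ Q → x ∈ Q ∨ y ∈ Q) (p : ℕ) [CharP k p]
    (s : Finset ℕ) (c : ℕ → Λ) (hc : ∀ i, c i ∈ D) {u v θ ε ε' : Λ} (hu : u ∈ D) (hv : v ∈ D)
    (hε : ε ∈ D) (hθ0 : θ ≠ 0) (huv : u - v = θ * ε)
    (hx : ∑ i ∈ s, c i * u ^ i - ∑ i ∈ s, c i * v ^ i = θ * ε') (hθ : θ ∈ Q) (hεQ : ε ∉ Q)
    (hε' : ε' ∈ Q) {m : ℕ} (hm : ¬ p ∣ m)
    (H : ∀ i ∈ s, c i ∈ Q ∨ (p : ℤ) ∣ m - i * (m - 1)) : ∑ i ∈ s, c i * v ^ i ∈ Q := by
  have huv' : u - v ∈ Q := huv ▸ hQ _ hθ _ hε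
  have h1 : ∀ i : ℕ, ∃ γ ∈ Q, v * (u ^ i - v ^ i) = (u - v) * (i * v ^ i + γ) := by
    intro i
    induction i with
    | zero => exact ⟨0, zero_mem _, by simp⟩
    | succ i ih =>
      obtain ⟨γ, hγ, e⟩ := ih
      refine ⟨(u - v) * (i * v ^ i) + γ * u, add_mem (hQ _ huv' _
        (D.mul_mem (natCast_mem D i) (D.pow_mem hv i))) (hQ _ hγ _ hu), ?_⟩
      push_cast
      linear_combination u * e
  choose γ hγ hγ' using h1
  have h2 : ε' * v = ε * (∑ i ∈ s, c i * (i * v ^ i) + ∑ i ∈ s, γ i * c i) := by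
    apply mul_left_cancel₀ hθ0
    rw [← mul_assoc, ← hx, ← mul_assoc, ← huv, ← Finset.sum_sub_distrib, ← Finset.sum_add_distrib,
      Finset.sum_mul, Finset.mul_sum]
    exact Finset.sum_congr rfl fun i _ => by linear_combination c i * hγ' i
  have h3 : ∑ i ∈ s, γ i * c i ∈ Q := Q.sum_mem fun i _ => hQ _ (hγ i) _ (hc i)
  have hγD : ∑ i ∈ s, c i * (i * v ^ i) ∈ D :=
    D.sum_mem fun i _ => D.mul_mem (hc i) (D.mul_mem (natCast_mem D i) (D.pow_mem hv i))
  have h4 : ∑ i ∈ s, c i * (i * v ^ i) ∈ Q := by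
    refine (hQp _ hε _ hγD ?_).resolve_left hεQ
    have h5 := hQ _ hε' _ hv
    rw [h2, mul_add] at h5
    have h6 := hQ _ h3 _ hε
    rw [mul_comm] at h6
    simpa using sub_mem h5 h6
  have h5 : (m : Λ) * ∑ i ∈ s, c i * v ^ i - ((m : Λ) - 1) * ∑ i ∈ s, c i * (i * v ^ i) ∈ Q := by
    rw [Finset.mul_sum, Finset.mul_sum, ← Finset.sum_sub_distrib]
    refine Q.sum_mem fun i hi => ?_
    have e : (m : Λ) * (c i * v ^ i) - ((m : Λ) - 1) * (c i * (i * v ^ i)) =
        c i * (((m - i * (m - 1) : ℤ) : Λ) * v ^ i) := by push_cast; ring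
    rw [e]
    rcases H i hi with h | h
    · exact hQ _ h _ (D.mul_mem (intCast_mem D _) (D.pow_mem hv i))
    · rw [← map_intCast (algebraMap k Λ), (CharP.intCast_eq_zero_iff k p _).2 h]; simp
  have h6 : (m : Λ) * ∑ i ∈ s, c i * v ^ i ∈ Q := by
    have h7 := hQ _ h4 _ (D.sub_mem (natCast_mem D m) D.one_mem)
    rw [mul_comm] at h7
    simpa using add_mem h5 h7
  have h7 : (m : k) ≠ 0 := fun h => hm ((CharP.cast_eq_zero_iff k p m).1 h)
  have := Q.smul_mem (m : k)⁻¹ h6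
  rwa [← map_natCast (algebraMap k Λ), ← Algebra.smul_def, smul_smul, inv_mul_cancel₀ h7,
    one_smul] at this

lemma adapted {L : Type} [AddCommGroup L] [Module k L] (F : ℕ → Submodule k L)
    (hF : ∀ m, F (m + 1) ≤ F m) (p : ℕ) (hp : F p = ⊥) (e : ℕ → L) (he : ∀ m, e m ∈ F m) :
    ∃ S : Set L, LinearIndepOn k id S ∧ S ⊆ F 0 ∧ (∀ m, Submodule.span k (S ∩ F m) = F m) ∧
      ∀ m, e m ∉ F (m + 1) → e m ∈ S := by
  have hanti : Antitone F := antitone_nat_of_succ_le hF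
  have : ∀ j ≤ p, ∃ S : Set L, LinearIndepOn k id S ∧ S ⊆ F j ∧
      (∀ m, j ≤ m → Submodule.span k (S ∩ F m) = F m) ∧
      ∀ m, j ≤ m → e m ∉ F (m + 1) → e m ∈ S := by
    intro j hj
    induction hj using Nat.decreasingInduction with
    | self =>
      refine ⟨∅, linearIndepOn_empty _ _, Set.empty_subset _, fun m hm => ?_, fun m hm h => ?_⟩
      · rw [Set.empty_inter, Submodule.span_empty, eq_comm, eq_bot_iff, ← hp]
        exact hanti hm
      · have := hanti hm (he m)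
        rw [hp, Submodule.mem_bot] at this
        exact h (this ▸ zero_mem _)
    | of_succ j hj ih =>
      obtain ⟨S, h1, h2, h3, h4⟩ := ih
      have hsp : Submodule.span k S = F (j + 1) := by
        rw [← h3 _ le_rfl, Set.inter_eq_left.2 h2]
      obtain ⟨S', h5, h6, h7, h8⟩ : ∃ S' : Set L, LinearIndepOn k id S' ∧ S' ⊆ F j ∧ S ⊆ S' ∧
          (e j ∉ F (j + 1) → e j ∈ S') := by
        by_cases h : e j ∈ F (j + 1)
        · exact ⟨S, h1, h2.trans (hF j), le_rfl, fun h' => absurd h h'⟩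
        · exact ⟨insert (e j) S, h1.id_insert (by rwa [hsp]),
            Set.insert_subset (he j) (h2.trans (hF j)), Set.subset_insert _ _,
            fun _ => Set.mem_insert _ _⟩
      obtain ⟨S'', h9, h10, h11, h12⟩ := exists_linearIndepOn_id_extension h5 h6
      refine ⟨S'', h12, h9, fun m hm => le_antisymm (Submodule.span_le.2 Set.inter_subset_right) ?_,
        fun m hm h => h10 ?_⟩
      · rcases hm.eq_or_lt with rfl | hm
        · rw [Set.inter_eq_left.2 h9]; exact h11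
        · conv_lhs => rw [← h3 m hm]
          exact Submodule.span_mono (Set.inter_subset_inter_left _ (h7.trans h10))
      · rcases hm.eq_or_lt with rfl | hm
        · exact h8 h
        · exact h7 (h4 m hm h)
  obtain ⟨S, h1, h2, h3, h4⟩ := this 0 (Nat.zero_le _)
  exact ⟨S, h1, h2, fun m => h3 m (Nat.zero_le _), fun m => h4 m (Nat.zero_le _)⟩

end Pool.Agent.MP_19ffc6_ag.Wild

end MrgPart1

-- ======== part 2: formerly Pool.Agent.MP_19ffc6_ag.Res.Pts
section MrgPart2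

/-! Module PTS of PROJECT RES: rational points, points over a point, conjugate points. -/

namespace Pool.Agent.MP_19ffc6_ag.Res

open Pool.Agent.MP_19ffc6_ag.Wild Pool.Agent.MP_19ffc6_ag.Lci B Polynomial

variable {k L : Type} [Field k] [Field L] [Algebra k L]

section Rt

variable {K : IntermediateField k L} {V W O O' D A : Subalgebra k L} {M : Submodule k L} {x t : L}

lemma un_alg (O : Subalgebra k L) {c : k} (hc : c ≠ 0) : Un O (algebraMap k L c) :=
  ⟨O.algebraMap_mem c, by simpa using hc, by rw [← map_inv₀]; exact O.algebraMap_mem _⟩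

lemma un_neg (h : Un O x) : Un O (-x) := ⟨neg_mem h.1, neg_ne_zero.2 h.2.1, by
  rw [inv_neg]; exact neg_mem h.2.2⟩

lemma B.Rt.of_le (h : Rt O') (hO : O ≤ O') : Rt O := fun x hx =>
  let ⟨c, hc⟩ := h x (hO hx); ⟨c, fun hu => hc (hu.mono hO)⟩

/-- A rational point dominates every local ring below it. -/
lemma B.Rt.dom (h : Rt O') (hl : Lcl O) (hO : O ≤ O') : Dom O O' := by
  refine ⟨hO, fun x hx hu => ?_⟩
  obtain ⟨c, hc⟩ := h x (hO hx)
  have hc0 : c ≠ 0 := fun e => hc (by simpa [e] using hu)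
  rcases hl x hx (algebraMap k L c - x) (sub_mem (O.algebraMap_mem c) hx)
    (by simpa using un_alg O hc0) with h1 | h1
  · exact h1
  · exact absurd (by simpa using un_neg (h1.mono hO)) hc

/-- The ideal of the elements of `D` that are not units of `O`. -/
def ctr (hO : Lcl O) (h : D ≤ O) : Ideal D where
  carrier := {x | ¬ Un O x}
  add_mem' := fun {x y} hx hy hxy => (hO _ (h x.2) _ (h y.2) hxy).elim hx hy
  zero_mem' := fun hu => hu.2.1 rfl
  smul_mem' := fun c x hx hu => hx (Un.of_mul (h x.2) (h c.2) (by rw [mul_comm]; exact hu))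

lemma mem_ctr {hO : Lcl O} {h : D ≤ O} {x : D} : x ∈ ctr hO h ↔ ¬ Un O x := Iff.rfl

instance ctr_isPrime (hO : Lcl O) (h : D ≤ O) : (ctr hO h).IsPrime :=
  ⟨fun e => (show (1 : D) ∈ ctr hO h from e ▸ trivial) (Un.one O), fun {x y} hxy => by
    by_contra H
    push Not at H
    exact hxy ((not_not.1 H.1).mul (not_not.1 H.2))⟩

/-- Points of `D` are ordered by their units. -/
lemma IsPoint.of_un (h : IsPoint D O) (h' : IsPoint D O') (hu : ∀ x ∈ D, Un O x → Un O' x) :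
    IsPoint O O' := by
  have h1 : O ≤ O' := h.le_loc.trans (by
    rintro _ ⟨a, ha, b, hb, hb', rfl⟩
    rw [div_eq_mul_inv]; exact mul_mem (h'.le ha) (hu b hb hb').2.2)
  exact h'.of_le_loc h1 (h.le.trans (le_loc _ _))

lemma IsPoint.ext (h : IsPoint D O) (h' : IsPoint D O') (hu : ∀ x ∈ D, Un O x ↔ Un O' x) :
    O = O' := le_antisymm (IsPoint.of_un h h' fun x hx => (hu x hx).1).le
      (IsPoint.of_un h' h fun x hx => (hu x hx).2).le

lemma IsPoint.rat_of (hO : IsPoint D O) (h : ∀ x ∈ D, ∃ c : k, ¬ Un O (x - algebraMap k L c)) :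
    Rt O := by
  intro x hx
  obtain ⟨a, ha, b, hb, hu, rfl⟩ := hO.le_loc hx
  obtain ⟨α, hα⟩ := h a ha
  obtain ⟨β, hβ⟩ := h b hb
  have hβ0 : β ≠ 0 := fun e => hβ (by simpa [e] using hu)
  refine ⟨α / β, fun H => ?_⟩
  have h1 : a - algebraMap k L α ∈ mx hO.lcl := ⟨sub_mem (hO.le ha) (O.algebraMap_mem _), hα⟩
  have h2 : b - algebraMap k L β ∈ mx hO.lcl := ⟨sub_mem (hO.le hb) (O.algebraMap_mem _), hβ⟩
  refine (sub_mem h1 (mul_mem_mx hO.lcl h2 (O.algebraMap_mem (α / β)))).2 ?_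
  have hβ' : algebraMap k L β ≠ 0 := by simpa using hβ0
  have := hu.2.1
  rw [show a - algebraMap k L α - (b - algebraMap k L β) * algebraMap k L (α / β) =
    (a / b - algebraMap k L (α / β)) * b by rw [map_div₀]; field_simp; ring]
  exact H.mul hu

/-- Nullstellensatz: every point is a generisation of a rational point. -/
theorem exists_rat [IsAlgClosed k] (hD : D.FG) (hO : IsPoint D O) :
    ∃ O₀, IsPoint D O₀ ∧ Rt O₀ ∧ IsPoint O₀ O := by
  obtain ⟨m, hm, hle⟩ := (ctr hO.lcl hO.le).exists_le_maximal (ctr_isPrime _ _).ne_top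
  obtain ⟨O₀, h0, hu⟩ := exists_point D m
  have := (Subalgebra.fg_iff_finiteType _).1 hD
  let _ := Ideal.Quotient.field m
  have : Module.Finite k (D ⧸ m) := finite_of_finite_type_of_isJacobsonRing k _
  refine ⟨O₀, h0, IsPoint.rat_of h0 fun x hx => ?_, IsPoint.of_un h0 hO fun x hx h => ?_⟩
  · obtain ⟨c, hc⟩ := (IsAlgClosed.algebraMap_bijective_of_isIntegral (k := k) (K := D ⧸ m)).2
      (Ideal.Quotient.mk m ⟨x, hx⟩)
    exact ⟨c, fun h => (hu (⟨x, hx⟩ - algebraMap k D c)).1 h (Ideal.Quotient.eq.1 hc.symm)⟩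
  · by_contra hn
    exact (hu ⟨x, hx⟩).1 h (hle hn)

lemma adj_fg (hD : D.FG) (x : L) : (adj D x).FG := hD.sup ⟨{x}, by simp⟩

lemma adj_inv_le_loc (ht : t ∈ D) (hu : Un O t) : adj D t⁻¹ ≤ loc D O :=
  adj_le (le_loc _ _) (un_loc ht hu).2.2

/-- The rational point may be chosen in a given principal open set. -/
theorem exists_rat_un [IsAlgClosed k] (hD : D.FG) (hO : IsPoint D O) (ht : t ∈ D) (hu : Un O t) :
    ∃ O₀, IsPoint D O₀ ∧ Rt O₀ ∧ Un O₀ t ∧ IsPoint O₀ O := by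
  obtain ⟨O₀, h1, h2, h3⟩ := exists_rat (adj_fg hD t⁻¹)
    (hO.of_le_loc (adj_le hO.le hu.2.2) ((le_adj _ _).trans (le_loc _ _)))
  have h4 : Un O₀ t := ⟨h1.le (le_adj _ _ ht), hu.2.1, h1.le (self_mem_adj _ _)⟩
  exact ⟨O₀, h1.of_le_loc ((le_adj _ _).trans h1.le) (adj_inv_le_loc ht h4), h2, h4, h3⟩

theorem Pt.exists_rat [IsAlgClosed k] (hA : A.FG) (hM : M.FG) (h : Pt A M O) :
    ∃ O₀, Pt A M O₀ ∧ Rt O₀ ∧ IsPoint O₀ O := by
  obtain ⟨g, hg, hg0, h⟩ := h
  obtain ⟨O₀, h1, h2, h3⟩ := Res.exists_rat (chart_fg hA hM g) h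
  exact ⟨O₀, ⟨g, hg, hg0, h1⟩, h2, h3⟩

/-- A power of `t` moves `x` into `J` if this holds locally at the rational points. -/
lemma exists_pow_mul_mem_rat [IsAlgClosed k] (hD : D.FG) (J : Submodule D L) (ht : t ∈ D)
    (h : ∀ O, IsPoint D O → Rt O → Un O t → ∃ h ∈ D, Un O h ∧ h * x ∈ J) :
    ∃ r : ℕ, t ^ r * x ∈ J :=
  exists_pow_mul_mem J ht fun O hO hu => by
    obtain ⟨O₀, h1, h2, h3, h4⟩ := exists_rat_un hD hO ht hu
    obtain ⟨c, hc, hc', hx⟩ := h O₀ h1 h2 h3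
    exact ⟨c, hc, hc'.mono h4.le, hx⟩

/-- The residue map of a rational point. -/
lemma B.Rt.exists_res (h : Rt O) (hl : Lcl O) :
    ∃ ρ : O →ₐ[k] k, (∀ x : O, ρ x ≠ 0 ↔ Un O x) ∧ ∀ x : O, ¬ Un O (x - algebraMap k L (ρ x)) := by
  have := hl.isLocalRing
  have hk : ∀ x : O, IsLocalRing.residue O x = 0 ↔ ¬ Un O x := fun x => by
    rw [IsLocalRing.residue_eq_zero_iff, IsLocalRing.mem_maximalIdeal, mem_nonunits_iff,
      isUnit_iff_un]
  have hb : Function.Bijective (Algebra.ofId k (IsLocalRing.ResidueField O)) := by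
    refine ⟨(algebraMap k _).injective, fun z => ?_⟩
    obtain ⟨x, rfl⟩ := IsLocalRing.residue_surjective z
    obtain ⟨c, hc⟩ := h x x.2
    have := (hk (x - algebraMap k O c)).2 hc
    rw [map_sub, sub_eq_zero] at this
    exact ⟨c, this.symm⟩
  let e := AlgEquiv.ofBijective _ hb
  let ρ : O →ₐ[k] k := e.symm.toAlgHom.comp (IsScalarTower.toAlgHom k O _)
  have h1 : ∀ x : O, ρ x = 0 ↔ ¬ Un O x := fun x => (map_eq_zero_iff e.symm e.symm.injective).trans
    (hk x)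
  refine ⟨ρ, fun x => by rw [Ne, h1, not_not], fun x => (h1 (x - algebraMap k O (ρ x))).1 ?_⟩
  rw [map_sub, AlgHom.commutes]; simp

/-- Rationality passes to points of integral extensions. -/
theorem B.Rt.of_integral [IsAlgClosed k] (h : Rt O) (hl : Lcl O) (hd : Dom O O')
    (hO' : IsPoint D O') (hD : ∀ x ∈ D, IsIntegral O x) : Rt O' := by
  obtain ⟨ρ, -, hρ⟩ := h.exists_res hl
  have := hO'.lcl.isLocalRing
  have hk : ∀ x : O', IsLocalRing.residue O' x = 0 ↔ ¬ Un O' x := fun x => by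
    rw [IsLocalRing.residue_eq_zero_iff, IsLocalRing.mem_maximalIdeal, mem_nonunits_iff,
      isUnit_iff_un]
  refine IsPoint.rat_of hO' fun x hx => ?_
  let _ := (Subalgebra.inclusion hd.1).toRingHom.toAlgebra
  have : IsScalarTower O O' L := .of_algebraMap_eq fun _ => rfl
  have h1 : IsIntegral O (⟨x, hO'.le hx⟩ : O') :=
    (isIntegral_algebraMap_iff (B := L) Subtype.val_injective).1 (hD x hx)
  have h2 : IsIntegral k (IsLocalRing.residue O' ⟨x, hO'.le hx⟩) := by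
    refine h1.map_of_comp_eq ρ.toRingHom (IsLocalRing.residue O') (RingHom.ext fun y => ?_)
    have := (hk (algebraMap O O' y - algebraMap k O' (ρ y))).2 fun hu =>
      hρ y (hd.2 _ (sub_mem y.2 (O.algebraMap_mem _)) hu)
    rw [map_sub, sub_eq_zero] at this
    exact this.symm
  obtain ⟨c, hc⟩ := minpoly.mem_range_of_degree_eq_one k _
    (IsAlgClosed.degree_eq_one_of_irreducible k (minpoly.irreducible h2))
  refine ⟨c, (hk (⟨x, hO'.le hx⟩ - algebraMap k O' c)).1 ?_⟩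
  rw [map_sub, ← hc, sub_eq_zero]; rfl

lemma B.Rt.icl [IsAlgClosed k] (h : Rt O) (hl : Lcl O) (hd : Dom O O')
    (hO' : IsPoint (icl K O) O') : Rt O' := h.of_integral hl hd hO' fun _ hx => hx.2

lemma dom_loc_of_dom (hd : Dom O W) (h : O ≤ D) (hD : D ≤ W) : Dom O (loc D W) :=
  ⟨h.trans (le_loc _ _), fun x hx hu => hd.2 x hx (hu.mono (loc_le hD))⟩

/-- Lying over. -/
theorem exists_over (hl : Lcl O) (h : O ≤ D) (hD : ∀ x ∈ D, IsIntegral O x) :
    ∃ O', IsPoint D O' ∧ Dom O O' := by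
  obtain ⟨V, hV, hd⟩ := exists_val_dom hl
  have h1 : D ≤ V := fun x hx => hV.mem_of_isIntegral hd.1 (hD x hx)
  exact ⟨_, isPoint_loc h1 hV.lcl, dom_loc_of_dom hd h h1⟩

/-- A valuation ring is dominated only by itself. -/
lemma Val.eq_of_dom (h : Val V) (hd : Dom V W) : W = V := by
  refine le_antisymm (fun x hx => ?_) hd.1
  rcases h x with h1 | h1
  · exact h1
  by_cases h0 : x = 0
  · rw [h0]; exact zero_mem _
  simpa using (hd.2 _ h1 ⟨hd.1 h1, inv_ne_zero h0, by simpa using hx⟩).2.2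

end Rt

section UU

variable {O D : Subalgebra k L} {u : L}

lemma isIntegral_lead {n : ℕ} {a : ℕ → L} (ha : ∀ i ≤ n, a i ∈ D)
    (h : ∑ i ∈ Finset.range (n + 1), a i * u ^ i = 0) (hn : 0 < n) : IsIntegral D (a n * u) := by
  refine isIntegral_of_val fun V hV hD => ?_
  rcases hV u with h1 | h1
  · exact mul_mem (hD (ha n le_rfl)) h1
  by_cases h0 : u = 0
  · simp [h0]
  rw [Finset.sum_range_succ, add_eq_zero_iff_neg_eq] at h
  obtain ⟨m, rfl⟩ : ∃ m, n = m + 1 := ⟨n - 1, by omega⟩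
  have : a (m + 1) * u = -∑ i ∈ Finset.range (m + 1), a i * u⁻¹ ^ (m - i) := by
    rw [show a (m + 1) * u = a (m + 1) * u ^ (m + 1) * u⁻¹ ^ m by
      rw [inv_pow, pow_succ]; field_simp, ← h, neg_mul,
      Finset.sum_mul]
    refine congrArg _ (Finset.sum_congr rfl fun i hi => ?_)
    obtain ⟨d, rfl⟩ := Nat.exists_eq_add_of_le (Nat.lt_succ_iff.1 (Finset.mem_range.1 hi))
    rw [Nat.add_sub_cancel_left, pow_add, inv_pow u i]; field_simp
  rw [this]
  exact neg_mem (sum_mem fun i hi => mul_mem (hD (ha i (Finset.mem_range.1 hi).le)) (pow_mem h1 _))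

lemma uu_aux (hl : Lcl O) (hn : ∀ c ∈ O, IsIntegral O (c * u) → c * u ∈ O) (n : ℕ) :
    ∀ a : ℕ → L, (∀ i ≤ n, a i ∈ O) → (∃ i ≤ n, Un O (a i)) →
      ∑ i ∈ Finset.range (n + 1), a i * u ^ i = 0 → u ∈ O ∨ u⁻¹ ∈ O := by
  induction n with
  | zero =>
    rintro a - ⟨i, hi, hu⟩ h
    obtain rfl : i = 0 := by omega
    exact absurd (by simpa using h) hu.2.1
  | succ n ih =>
    rintro a ha ⟨i, hi, hu⟩ h
    have h1 : a (n + 1) * u ∈ O := hn _ (ha _ le_rfl) (isIntegral_lead ha h n.succ_pos)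
    by_cases h2 : Un O (a (n + 1))
    · left
      rw [show u = (a (n + 1))⁻¹ * (a (n + 1) * u) by field_simp [h2.2.1]]
      exact mul_mem h2.2.2 h1
    by_cases h3 : Un O (a (n + 1) * u)
    · right
      have := right_ne_zero_of_mul h3.2.1
      rw [show u⁻¹ = a (n + 1) * (a (n + 1) * u)⁻¹ by field_simp [left_ne_zero_of_mul h3.2.1]]
      exact mul_mem (ha _ le_rfl) h3.2.2
    refine ih (fun j => if j = n then a n + a (n + 1) * u else a j) (fun j hj => ?_) ?_ ?_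
    · split_ifs
      exacts [add_mem (ha _ (by omega)) h1, ha _ (by omega)]
    · have hi' : i ≠ n + 1 := fun e => h2 (e ▸ hu)
      refine ⟨i, by omega, ?_⟩
      split_ifs with e
      · subst e
        exact (hl _ (add_mem (ha i hi) h1) _ (neg_mem h1) (by simpa using hu)).resolve_right
          fun h4 => h3 (by simpa using un_neg h4)
      · exact hu
    · rw [Finset.sum_range_succ, Finset.sum_range_succ] at h
      rw [Finset.sum_range_succ, Finset.sum_congr rfl fun j hj => by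
        rw [if_neg (Finset.mem_range.1 hj).ne]]
      simp only [if_true]
      linear_combination h

/-- The `u`, `u⁻¹` lemma. -/
theorem uu (hl : Lcl O) (hn : ∀ c ∈ O, IsIntegral O (c * u) → c * u ∈ O) {P : L[X]}
    (hP : ∀ i, P.coeff i ∈ O) (hu : ∃ i, Un O (P.coeff i)) (h : P.eval u = 0) :
    u ∈ O ∨ u⁻¹ ∈ O :=
  uu_aux hl hn P.natDegree P.coeff (fun i _ => hP i)
    (let ⟨i, hi⟩ := hu; ⟨i, le_natDegree_of_ne_zero hi.2.1, hi⟩) (by rwa [← eval_eq_sum_range])

/-- The `u`, `u⁻¹` lemma at a point of a normalisation. -/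
theorem IsPoint.uu {K : IntermediateField k L} {R : Subalgebra k L} (hO : IsPoint (Res.icl K R) O)
    (hK : u ∈ K) {P : L[X]} (hP : ∀ i, P.coeff i ∈ O) (hu : ∃ i, Un O (P.coeff i))
    (h : P.eval u = 0) : u ∈ O ∨ u⁻¹ ∈ O :=
  Res.uu hO.lcl (fun _ hc => IsPoint.mem_of_isIntegral hO
    (K.mul_mem (IsPoint.le_field hO (icl_le _ _) hc) hK)) hP hu h

end UU

section Conj

open scoped Pointwise

variable {G : Type} [Group G] [MulSemiringAction G L] [SMulCommClass G k L]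
  {V W O O' D A : Subalgebra k L} {M : Submodule k L} {x : L} {g : G}

/-- The action of a group of automorphisms on subalgebras. -/
scoped instance subalgAct : MulAction G (Subalgebra k L) where
  smul g O := O.comap (MulSemiringAction.toAlgHom k L g⁻¹)
  one_smul O := Subalgebra.ext fun x => by
    change (1 : G)⁻¹ • x ∈ O ↔ _
    rw [inv_one, one_smul]
  mul_smul g h O := Subalgebra.ext fun x => by
    change (g * h)⁻¹ • x ∈ O ↔ h⁻¹ • g⁻¹ • x ∈ O
    rw [mul_inv_rev, mul_smul]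

lemma mem_smul : x ∈ g • O ↔ g⁻¹ • x ∈ O := Iff.rfl

lemma smul_mem_smul : g • x ∈ g • O ↔ x ∈ O := by rw [mem_smul, inv_smul_smul]

lemma smul_le_smul : g • O ≤ g • O' ↔ O ≤ O' :=
  ⟨fun h _ hx => smul_mem_smul.1 (h (smul_mem_smul.2 hx)),
    fun h _ hx => mem_smul.2 (h (mem_smul.1 hx))⟩

lemma un_smul_smul : Un (g • O) (g • x) ↔ Un O x := by
  unfold Un
  rw [smul_mem_smul, ← smul_inv'', smul_mem_smul, Ne, smul_eq_zero_iff_eq]

lemma un_smul : Un (g • O) x ↔ Un O (g⁻¹ • x) := by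
  rw [← un_smul_smul (g := g) (O := O), smul_inv_smul]

lemma smul_eq_of_stable (hD : ∀ g : G, ∀ x ∈ D, g • x ∈ D) (g : G) : g • D = D :=
  le_antisymm (fun x hx => by simpa using hD g _ (mem_smul.1 hx))
    fun x hx => mem_smul.2 (hD _ x hx)

lemma smul_eq_of_fixed (hD : ∀ g : G, ∀ x ∈ D, g • x = x) (g : G) : g • D = D :=
  smul_eq_of_stable (fun g x hx => (hD g x hx).symm ▸ hx) g

lemma Lcl.smul (h : Lcl O) (g : G) : Lcl (g • O) := fun x hx y hy hxy => by
  rw [un_smul, un_smul]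
  exact h _ (mem_smul.1 hx) _ (mem_smul.1 hy) (by rwa [un_smul, smul_add] at hxy)

lemma Val.smul (h : Val V) (g : G) : Val (g • V) := fun x => by
  rw [mem_smul, mem_smul, smul_inv'']; exact h _

lemma Dom.smul (h : Dom O O') (g : G) : Dom (g • O) (g • O') :=
  ⟨smul_le_smul.2 h.1, fun _ hx hu => un_smul.2 (h.2 _ (mem_smul.1 hx) (un_smul.1 hu))⟩

lemma B.Rt.smul (h : Rt O) (g : G) : Rt (g • O) := fun x hx => by
  obtain ⟨c, hc⟩ := h _ (mem_smul.1 hx)
  exact ⟨c, by rwa [un_smul, smul_sub, smul_algebraMap]⟩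

lemma IsPoint.smul (h : IsPoint D O) (g : G) : IsPoint (g • D) (g • O) := by
  refine ⟨smul_le_smul.2 h.le, Lcl.smul h.lcl g, fun x hx => ?_⟩
  obtain ⟨a, ha, b, hb, hu, e⟩ := h.le_loc (mem_smul.1 hx)
  refine ⟨g • a, smul_mem_smul.2 ha, g • b, smul_mem_smul.2 hb, un_smul_smul.2 hu, ?_⟩
  rw [← smul_div₀', ← e, smul_inv_smul]

lemma IsPoint.smul_of_stable (hD : ∀ g : G, ∀ x ∈ D, g • x ∈ D) (h : IsPoint D O) (g : G) :
    IsPoint D (g • O) := by simpa only [smul_eq_of_stable hD] using IsPoint.smul h g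

lemma isIntegral_smul (g : G) (hx : IsIntegral D x) : IsIntegral ↥(g • D) (g • x) :=
  isIntegral_of_val fun V hV hD => by
    rw [← inv_inv g, ← mem_smul]
    refine (hV.smul g⁻¹).mem_of_isIntegral (fun y hy => ?_) hx
    rw [mem_smul, inv_inv]; exact hD (smul_mem_smul.2 hy)

lemma icl_stable {K : IntermediateField k L} (hK : ∀ g : G, ∀ x ∈ K, g • x ∈ K)
    (hD : ∀ g : G, ∀ x ∈ D, g • x ∈ D) (g : G) (x : L) (hx : x ∈ icl K D) : g • x ∈ icl K D :=
  ⟨hK g x hx.1, by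
    have := isIntegral_smul g (mem_icl.1 hx).2
    rwa [smul_eq_of_stable hD] at this⟩

lemma chart_smul_le (hA : ∀ g : G, ∀ x ∈ A, g • x ∈ A) (hM : ∀ g : G, ∀ x ∈ M, g • x ∈ M)
    (g : G) (m : L) : chart A M m ≤ g⁻¹ • chart A M (g • m) :=
  chart_le (fun x hx => by rw [mem_smul, inv_inv]; exact le_chart _ _ _ (hA g x hx))
    fun x hx => by rw [mem_smul, inv_inv, smul_div₀']; exact div_mem_chart _ _ (hM g x hx)

lemma Pt.smul (hA : ∀ g : G, ∀ x ∈ A, g • x ∈ A) (hM : ∀ g : G, ∀ x ∈ M, g • x ∈ M)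
    (h : Pt A M O) (g : G) : Pt A M (g • O) := by
  obtain ⟨m, hm, h0, h⟩ := h
  have e : g • chart A M m = chart A M (g • m) := le_antisymm
    (by simpa using (smul_le_smul (g := g)).2 (chart_smul_le hA hM g m))
    (by simpa using chart_smul_le hA hM g⁻¹ (g • m))
  exact ⟨g • m, hM g m hm, by rwa [Ne, smul_eq_zero_iff_eq], e ▸ IsPoint.smul h g⟩

variable [Finite G]

/-- Points of a stable algebra over the same point of the quotient are conjugate. -/
theorem exists_conj (hD : ∀ g : G, ∀ x ∈ D, g • x ∈ D) (h : IsPoint D O) (h' : IsPoint D O')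
    (hu : ∀ x ∈ fix G D, Un O x ↔ Un O' x) : ∃ g : G, O' = g • O := by
  let := subAct hD
  let := fixAlg (G := G) D
  have := fix_smulComm hD
  have := fix_isInvariant hD
  obtain ⟨g, hg⟩ := Algebra.IsInvariant.exists_smul_of_under_eq (fix G D) D G
    (ctr h.lcl h.le) (ctr h'.lcl h'.le) (Ideal.ext fun x => not_congr (hu x x.2))
  refine ⟨g, IsPoint.ext h' (IsPoint.smul_of_stable hD h g) fun x hx => ?_⟩
  have := Ideal.ext_iff.1 hg ⟨x, hx⟩
  rw [Ideal.mem_pointwise_smul_iff_inv_smul_mem] at this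
  rw [un_smul]
  exact not_iff_not.1 this

/-- Two points of the integral closure over a normal local ring of the fixed field are
conjugate. -/
theorem exists_conj_icl {R : Subalgebra k L} (hR : ∀ g : G, ∀ x ∈ R, g • x = x)
    (hn : ∀ x, (∀ g : G, g • x = x) → IsIntegral R x → x ∈ R) (h : IsPoint (icl ⊤ R) O)
    (h' : IsPoint (icl ⊤ R) O') (hd : Dom R O) (hd' : Dom R O') : ∃ g : G, O' = g • O :=
  exists_conj (icl_stable (K := ⊤) (fun _ _ _ => trivial) fun g x hx => (hR g x hx).symm ▸ hx) h h'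
    fun x hx => have := hn x hx.2 hx.1.2
      ⟨fun hu => (hd.2 x this hu).mono hd'.1, fun hu => (hd'.2 x this hu).mono hd.1⟩

omit [SMulCommClass G k L] in
lemma exists_fixed_poly (G : Type) [Group G] [MulSemiringAction G L] [Finite G] (x : L) :
    ∃ P : L[X], P.Monic ∧ (∀ (g : G) i, g • P.coeff i = P.coeff i) ∧ P.eval x = 0 ∧
      ∀ S : Subring L, (∀ g : G, g • x ∈ S) → ∀ i, P.coeff i ∈ S := by
  have := Fintype.ofFinite G
  refine ⟨MulSemiringAction.charpoly G x, MulSemiringAction.monic_charpoly G x,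
    fun g i => MulSemiringAction.smul_coeff_charpoly x i g, MulSemiringAction.eval_charpoly G x,
    fun S hS i => ?_⟩
  have : MulSemiringAction.charpoly G x = (∏ g : G, (X - C ⟨g • x, hS g⟩ : S[X])).map S.subtype := by
    simp [MulSemiringAction.charpoly_eq, Polynomial.map_prod]
  rw [this, coeff_map]; exact Subtype.prop _

/-- A stable algebra is integral over its invariants. -/
lemma isIntegral_fix (hD : ∀ g : G, ∀ x ∈ D, g • x ∈ D) (hx : x ∈ D) : IsIntegral (fix G D) x := by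
  let := subAct hD
  let := fixAlg (G := G) D
  have := fix_isInvariant hD
  have : IsScalarTower (fix G D) D L := .of_algebraMap_eq fun _ => rfl
  exact ((Algebra.IsInvariant.isIntegral (fix G D) D G).isIntegral ⟨x, hx⟩).algebraMap

/-- A valuation ring is a point of the integral closure of its invariants. -/
theorem Val.isPoint_icl (hV : Val V) : IsPoint (icl ⊤ (fix G V)) V := by
  have h1 : icl ⊤ (fix G V) ≤ V := hV.icl_le (fix_le V)
  have h2 := isPoint_loc h1 hV.lcl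
  have h3 : Val (loc (icl ⊤ (fix G V)) V) := fun u => by
    classical
    obtain ⟨P, hm, hP, h0, -⟩ := exists_fixed_poly G u
    obtain ⟨c, hc, H⟩ := hV.exists_min (T := P.coeffs) (by simpa using hm.ne_zero)
      fun t ht => by obtain ⟨n, hn, rfl⟩ := mem_coeffs_iff.1 ht; exact mem_support_iff.1 hn
    obtain ⟨n, hn, rfl⟩ := mem_coeffs_iff.1 hc
    have hn0 := mem_support_iff.1 hn
    refine IsPoint.uu h2 trivial (P := P * C (P.coeff n)⁻¹) (fun i => ?_) ⟨n, ?_⟩ (by simp [h0])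
    · rw [coeff_mul_C]
      refine h2.le (le_icl le_top ⟨?_, fun g => by rw [smul_mul', smul_inv'', hP, hP]⟩)
      by_cases hi : P.coeff i = 0
      · simp [hi]
      · exact div_eq_mul_inv (P.coeff i) _ ▸ H _ (coeff_mem_coeffs hi)
    · rw [coeff_mul_C, mul_inv_cancel₀ hn0]; exact Un.one _
  rwa [← h3.eq_of_dom (dom_loc h1)] at h2

/-- Valuation rings with the same invariants are conjugate. -/
theorem Val.exists_conj (hV : Val V) (hW : Val W) (h : fix G V = fix G W) : ∃ g : G, W = g • V := by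
  have hd : ∀ {V : Subalgebra k L}, Dom (fix G V) V := ⟨fix_le _, fun x hx hu =>
    ⟨hx, hu.2.1, hu.2.2, fun g => by rw [smul_inv'', hx.2 g]⟩⟩
  exact exists_conj_icl (R := fix G V) (fun g x hx => hx.2 g)
    (fun x hx hi => ⟨hV.mem_of_isIntegral (fix_le _) hi, hx⟩) hV.isPoint_icl (h ▸ hW.isPoint_icl)
    hd (h ▸ hd)

end Conj

section Glob

variable {O : Subalgebra k L} {M X : Submodule k L} {x g : L}

lemma mem_sp_iff : x ∈ sp O X ↔ x ∈ Submodule.span O (X : Set L) := by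
  refine ⟨fun h => Submodule.mul_induction_on h
    (fun a ha b hb => mul_mem_sub _ ha (Submodule.subset_span hb)) fun a b => add_mem, fun h => ?_⟩
  induction h using Submodule.span_induction with
  | mem x hx => exact le_sp _ _ hx
  | zero => exact zero_mem _
  | add a b _ _ ha hb => exact add_mem ha hb
  | smul c a _ ha => exact mul_mem_sp c.2 ha

lemma mem_sp_pr_mul (hg : g ≠ 0) : x ∈ sp O (Tor.pr k g * X) ↔ x / g ∈ sp O X := by
  rw [mul_comm, sp_mul_left, Tor.pr, Submodule.mem_mul_span_singleton]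
  exact ⟨fun ⟨z, hz, e⟩ => by rwa [← e, mul_div_cancel_right₀ _ hg],
    fun h => ⟨_, h, div_mul_cancel₀ _ hg⟩⟩

/-- Coherent families are global. -/
theorem glob_of (hM : M.FG) (I : Subalgebra k L → Submodule k L)
    (J : ∀ g, Submodule (chart ⊥ M g) L) (hJ : ∀ g ∈ M, g ≠ 0 → (J g).FG)
    (hI : ∀ g ∈ M, g ≠ 0 → ∀ O, IsPoint (chart ⊥ M g) O →
      ∀ x, x ∈ sp O (I O) ↔ ∃ h ∈ chart ⊥ M g, Un O h ∧ h * x ∈ J g) : Tor.Glob M I := by
  obtain ⟨N, r, hN, H⟩ := serre hM (fun O => Submodule.span O (I O : Set L)) J hJ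
    fun g hg h0 O hO x => mem_sp_iff.symm.trans (hI g hg h0 O hO x)
  refine ⟨N, M ^ r, hN, hM.pow r, fun O ⟨g, hg, h0, hO⟩ => ⟨g ^ r, pow_ne_zero _ h0, ?_, ?_⟩⟩
  · rw [Tor.pr, ← Set.singleton_pow, ← Submodule.span_pow]
    refine sp_pow_congr (le_antisymm (sp_le_sp le_rfl fun m hm => ?_) (sp_le_sp le_rfl
      ((Submodule.span_le.2 (Set.singleton_subset_iff.2 hg)).trans (le_sp _ _)))) r
    rw [← div_mul_cancel₀ m h0]
    exact Submodule.mul_mem_mul (hO.le (div_mem_chart _ _ hm)) (Submodule.mem_span_singleton_self _)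
  · ext x
    rw [mem_sp_pr_mul (pow_ne_zero _ h0), mem_sp_iff, mem_sp_iff, H g hg h0 O hO,
      div_mul_cancel₀ _ (pow_ne_zero _ h0)]

/-- Families given by valuation ideals are global. -/
theorem glob_vid {E : Type} [Finite E] {V : E → Subalgebra k L} {a : E → L} (hM : M.FG)
    (hV : ∀ e, ∀ h ∈ V e, ¬ Un (V e) h → ∃ n : ℕ, h ^ n / a e ∈ V e) {d : L} (hd : d ≠ 0)
    (I : Subalgebra k L → Submodule k L)
    (hI : ∀ O, Pt ⊥ M O → ∀ x, x ∈ sp O (I O) ↔ d * x ∈ vid V a O) : Tor.Glob M I := by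
  refine glob_of hM I (fun g => (vid V a _).comap (LinearMap.mulLeft _ d)) (fun g _ _ => ?_)
    fun g hg h0 O hO x => ?_
  · have := (Subalgebra.fg_iff_finiteType _).1 (chart_fg Subalgebra.fg_bot hM g)
    have := Algebra.FiniteType.isNoetherianRing k (chart ⊥ M g)
    refine (Submodule.fg_span_singleton (R := chart ⊥ M g) d⁻¹).of_le fun x hx => ?_
    rw [show x = d * x * d⁻¹ by field_simp]
    exact mul_mem_sub _ hx.1 (Submodule.mem_span_singleton_self _)
  · rw [hI O ⟨g, hg, h0, hO⟩, IsPoint.mem_vid_iff hV hO]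
    simp only [Submodule.mem_comap, LinearMap.mulLeft_apply, mul_left_comm d]

end Glob

end Pool.Agent.MP_19ffc6_ag.Res

end MrgPart2

-- ======== part 3: formerly Pool.Agent.MP_19ffc6_ag.Res.Bez
section MrgPart3

/-! Module BEZ of PROJECT RES: compactness of the space of valuation rings and spreading out of
the unramified locus. -/

namespace Pool.Agent.MP_19ffc6_ag.Res.B

open Pool.Agent.MP_19ffc6_ag.Wild Pool.Agent.MP_19ffc6_ag.Lci Filter

variable {k L : Type} [Field k] [Field L] [Algebra k L]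

/-- The limit of a family of subalgebras along an ultrafilter. -/
def ulim {ι : Type} (𝒰 : Ultrafilter ι) (V : ι → Subalgebra k L) : Subalgebra k L where
  carrier := {x | ∀ᶠ i in 𝒰, x ∈ V i}
  mul_mem' ha hb := (Eventually.and ha hb).mono fun _ h => mul_mem h.1 h.2
  add_mem' ha hb := (Eventually.and ha hb).mono fun _ h => add_mem h.1 h.2
  algebraMap_mem' c := Eventually.of_forall fun i => (V i).algebraMap_mem c

lemma mem_ulim {ι : Type} {𝒰 : Ultrafilter ι} {V : ι → Subalgebra k L} {x : L} :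
    x ∈ ulim 𝒰 V ↔ ∀ᶠ i in 𝒰, x ∈ V i := Iff.rfl

lemma un_ulim {ι : Type} {𝒰 : Ultrafilter ι} {V : ι → Subalgebra k L} {x : L} :
    Un (ulim 𝒰 V) x ↔ ∀ᶠ i in 𝒰, Un (V i) x :=
  ⟨fun h => (Eventually.and h.1 h.2.2).mono fun _ h' => ⟨h'.1, h.2.1, h'.2⟩,
    fun h => ⟨h.mono fun _ h' => h'.1, h.exists.elim fun _ h' => h'.2.1,
      h.mono fun _ h' => h'.2.2⟩⟩

/-- A property of subalgebras that is closed in the constructible topology. -/
def Cld (Q : Subalgebra k L → Prop) : Prop :=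
  ∀ (ι : Type) (𝒰 : Ultrafilter ι) (V : ι → Subalgebra k L), (∀ᶠ i in 𝒰, Q (V i)) → Q (ulim 𝒰 V)

namespace Cld

variable {Q Q' : Subalgebra k L → Prop}

lemma val : Cld (Val : Subalgebra k L → Prop) := fun _ _ _ h x =>
  Ultrafilter.eventually_or.1 (h.mono fun _ h' => h' x)

lemma mem (x : L) : Cld fun V : Subalgebra k L => x ∈ V := fun _ _ _ h => h

lemma notMem (x : L) : Cld fun V : Subalgebra k L => x ∉ V := fun _ _ _ h =>
  Ultrafilter.eventually_not.1 h

lemma un (x : L) : Cld fun V : Subalgebra k L => Un V x := fun _ _ _ h => un_ulim.2 h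

lemma not_un (x : L) : Cld fun V : Subalgebra k L => ¬ Un V x := fun _ _ _ h h' =>
  Ultrafilter.eventually_not.1 h (un_ulim.1 h')

lemma const (p : Prop) : Cld fun _ : Subalgebra k L => p := fun _ _ _ h =>
  h.exists.elim fun _ h' => h'

lemma and (h : Cld Q) (h' : Cld Q') : Cld fun V => Q V ∧ Q' V := fun ι 𝒰 V H =>
  ⟨h ι 𝒰 V (H.mono fun _ a => a.1), h' ι 𝒰 V (H.mono fun _ a => a.2)⟩

lemma or (h : Cld Q) (h' : Cld Q') : Cld fun V => Q V ∨ Q' V := fun ι 𝒰 V H =>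
  (Ultrafilter.eventually_or.1 H).imp (h ι 𝒰 V) (h' ι 𝒰 V)

lemma imp (h : Cld fun V => ¬ Q V) (h' : Cld Q') : Cld fun V => Q V → Q' V := by
  simpa only [imp_iff_not_or] using h.or h'

lemma all {α : Type} {R : α → Subalgebra k L → Prop} (h : ∀ a, Cld (R a)) :
    Cld fun V => ∀ a, R a V := fun ι 𝒰 V H a => h a ι 𝒰 V (H.mono fun _ b => b a)

lemma ex {α : Type} [Finite α] {R : α → Subalgebra k L → Prop} (h : ∀ a, Cld (R a)) :
    Cld fun V => ∃ a, R a V := fun ι 𝒰 V H =>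
  (Ultrafilter.eventually_exists_iff.1 H).imp fun a => h a ι 𝒰 V

lemma ex_mem {α : Type} (T : Finset α) {R : α → Subalgebra k L → Prop} (h : ∀ a, Cld (R a)) :
    Cld fun V => ∃ a ∈ T, R a V := by
  simpa only [Subtype.exists, exists_prop] using ex (α := T) fun a => h a

lemma ine {E : IntermediateField k L} {N : IntermediateField E L} (σ : N ≃ₐ[E] N) :
    Cld fun V => Ine V σ := all fun _ => imp (notMem _) ((mem _).and (not_un _))

/-- Compactness. -/
theorem compact (hQ : Cld Q) (F : Set L) (h : ∀ V : Subalgebra k L, F ⊆ V → ¬ Q V) :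
    ∃ S : Finset L, ↑S ⊆ F ∧ ∀ V : Subalgebra k L, ↑S ⊆ (V : Set L) → ¬ Q V := by
  classical
  by_contra H
  push Not at H
  choose V h1 h2 using fun S : Finset F => H (S.image Subtype.val) fun x hx => by
    obtain ⟨y, -, rfl⟩ := Finset.mem_image.1 (Finset.mem_coe.1 hx)
    exact y.2
  refine h (ulim (Ultrafilter.of atTop) V) (fun x hx => ?_) (hQ _ _ _ (.of_forall h2))
  refine Ultrafilter.of_le _ ((eventually_ge_atTop ({⟨x, hx⟩} : Finset F)).mono fun S hS => ?_)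
  exact h1 S (Finset.mem_coe.2 (Finset.mem_image.2 ⟨_, hS (Finset.mem_singleton_self _), rfl⟩))

/-- Compactness over a subfield. -/
theorem compact_field (hQ : Cld Q) (F : IntermediateField k L)
    (h : ∀ V : Subalgebra k L, F.toSubalgebra ≤ V → ¬ Q V) :
    ∃ S : Finset L, (∀ f ∈ S, f ∈ F ∧ f ≠ 0) ∧
      ∀ V : Subalgebra k L, (∀ f ∈ S, f ∈ V) → ¬ Q V := by
  obtain ⟨S, h1, h2⟩ := hQ.compact {f | f ∈ F ∧ f ≠ 0} fun V hV => h V fun x hx => by
    by_cases h0 : x = 0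
    · rw [h0]; exact zero_mem _
    · exact hV ⟨hx, h0⟩
  exact ⟨S, fun f hf => h1 hf, fun V hV => h2 V fun f hf => hV f hf⟩

end Cld

/-- The failure of the conclusion of `Off`. -/
lemma cld_bad {E : IntermediateField k L} (N : IntermediateField E L) [FiniteDimensional E N]
    (T : Finset L) : Cld fun V : Subalgebra k L =>
      ¬ ((∀ σ : N ≃ₐ[E] N, Ine V σ → σ = 1) ∧ ∀ f ∈ T, Un V f) := by
  simp only [not_and_or, not_forall, exists_prop]
  exact (Cld.ex fun σ => (Cld.ine σ).and (Cld.const _)).or (Cld.ex_mem T fun f => Cld.not_un f)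

lemma mem_of_le {F : IntermediateField k L} {N : IntermediateField F L} [FiniteDimensional F N]
    {V : Subalgebra k L} (hV : Val V) (hF : F.toSubalgebra ≤ V) {x : L} (hx : x ∈ N) : x ∈ V :=
  hV.mem_of_isIntegral hF
    ((IntermediateField.isIntegral_iff (x := (⟨x, hx⟩ : N))).1 (Algebra.IsIntegral.isIntegral _))

lemma un_of_prod {O : Subalgebra k L} {κ : Type} {s : Finset κ} {f : κ → L}
    (h : ∀ i ∈ s, f i ∈ O) (hu : Un O (∏ i ∈ s, f i)) {i : κ} (hi : i ∈ s) : Un O (f i) := by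
  classical
  rw [← Finset.mul_prod_erase s f hi] at hu
  exact Un.of_mul (h i hi) (prod_mem fun j hj => h j (Finset.mem_of_mem_erase hj)) hu

theorem bez_span (p : ℕ) [Fact p.Prime] [CharP k p] (F : IntermediateField k L)
    (N : IntermediateField F L) (Z : Finset L) [FiniteDimensional F N] (hZ : ∀ u ∈ Z, u ∈ N) :
    ∃ U, Z ⊆ U ∧ Span N U := by
  classical
  have : CharP L p := charP_of_injective_algebraMap (algebraMap k L).injective p
  let X : Set L := insert 1 (Set.range fun a : (N ≃ₐ[F] N) × Z => (a.1 ⟨a.2, hZ _ a.2.2⟩ : L))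
  have hX : X.Finite := (Set.finite_range _).insert _
  let A := AddSubgroup.closure X
  have hA : Finite A := by
    have : AddGroup.FG A := (AddGroup.fg_iff_addSubgroup_fg A).2 ⟨hX.toFinset, by simp [A]⟩
    refine AddCommGroup.finite_of_fg_isAddTorsion A fun a => ?_
    refine isOfFinAddOrder_iff_nsmul_eq_zero.2 ⟨p, (Fact.out : p.Prime).pos, Subtype.ext ?_⟩
    simp
  have key : ∀ x ∈ A, ∃ h : x ∈ N, ∀ σ : N ≃ₐ[F] N, (σ ⟨x, h⟩ : L) ∈ A := by
    intro x hx
    induction hx using AddSubgroup.closure_induction with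
    | mem x hx =>
      rcases hx with rfl | ⟨a, rfl⟩
      · refine ⟨one_mem _, fun σ => ?_⟩
        rw [show (⟨1, one_mem _⟩ : N) = 1 from rfl, map_one]
        exact AddSubgroup.subset_closure (Or.inl rfl)
      · exact ⟨(a.1 _).2, fun σ => AddSubgroup.subset_closure (Or.inr ⟨(σ * a.1, a.2), rfl⟩)⟩
    | zero =>
      refine ⟨zero_mem _, fun σ => ?_⟩
      rw [show (⟨0, zero_mem _⟩ : N) = 0 from rfl, map_zero]
      exact zero_mem A
    | add x y _ _ hx hy =>
      obtain ⟨h1, h2⟩ := hx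
      obtain ⟨h3, h4⟩ := hy
      refine ⟨add_mem h1 h3, fun σ => ?_⟩
      rw [show (⟨x + y, add_mem h1 h3⟩ : N) = ⟨x, h1⟩ + ⟨y, h3⟩ from rfl, map_add]
      exact add_mem (h2 σ) (h4 σ)
    | neg x _ hx =>
      obtain ⟨h1, h2⟩ := hx
      refine ⟨neg_mem h1, fun σ => ?_⟩
      rw [show (⟨-x, neg_mem h1⟩ : N) = -⟨x, h1⟩ from rfl, map_neg]
      exact neg_mem (h2 σ)
  have hfin : (A : Set L).Finite := Set.toFinite _
  have hm : ∀ x, x ∈ hfin.toFinset ↔ x ∈ A := fun x => hfin.mem_toFinset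
  refine ⟨hfin.toFinset, fun z hz => (hm _).2 ?_, fun u hu => (key u ((hm u).1 hu)).1,
    (hm _).2 (AddSubgroup.subset_closure (Or.inl rfl)),
    fun u hu v hv => (hm _).2 (sub_mem ((hm u).1 hu) ((hm v).1 hv)),
    fun σ u hu => (hm _).2 ((key u ((hm u).1 hu)).2 σ)⟩
  exact AddSubgroup.subset_closure (Or.inr ⟨(1, ⟨z, hz⟩), rfl⟩)

theorem bez_base (F : IntermediateField k L) (N : IntermediateField F L) (T : Finset L)
    [FiniteDimensional F N] (hT : ∀ f ∈ T, f ∈ N ∧ f ≠ 0) :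
    ∃ S : Finset L, (∀ f ∈ S, f ∈ F ∧ f ≠ 0) ∧ Off F N S T := by
  obtain ⟨S, h1, h2⟩ := (Cld.val.and (cld_bad N T)).compact_field F fun V hF h => by
    have hu : ∀ x ∈ N, x ≠ 0 → Un V x := fun x hx h0 =>
      ⟨mem_of_le h.1 hF hx, h0, mem_of_le h.1 hF (inv_mem hx)⟩
    refine h.2 ⟨fun σ hσ => AlgEquiv.ext fun x => Subtype.ext ?_,
      fun f hf => hu f (hT f hf).1 (hT f hf).2⟩
    by_contra h0
    exact (hσ x (mem_of_le h.1 hF x.2)).2 (hu _ (sub_mem (σ x).2 x.2) (sub_ne_zero.2 h0))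
  exact ⟨S, h1, fun V hV hS => not_not.1 fun h => h2 V (fun f hf => (hS f hf).1) ⟨hV, h⟩⟩

theorem bez_line (F : IntermediateField k L) (Y : L) (N₀ : IntermediateField F L)
    {E : IntermediateField k L} (N : IntermediateField E L) (U T : Finset L)
    [FiniteDimensional F N₀] [FiniteDimensional E N] (hU : ∀ u ∈ U, u ∈ N₀)
    (H : ∀ V : Subalgebra k L, Val V → F.toSubalgebra ≤ V → Y ∈ V → (∀ u ∈ U, Un V (Y - u)) →
      (∀ σ : N ≃ₐ[E] N, Ine V σ → σ = 1) ∧ ∀ f ∈ T, Un V f) :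
    ∃ S : Finset L, (∀ f ∈ S, f ∈ F ∧ f ≠ 0) ∧ ∀ S' : Finset L, S ⊆ S' → Y ∈ S' →
      ∏ u ∈ U, (Y - u) ∈ S' → Off E N S' T := by
  obtain ⟨S, h1, h2⟩ := (Cld.val.and ((Cld.mem Y).and ((Cld.un (∏ u ∈ U, (Y - u))).and
    (cld_bad N T)))).compact_field F fun V hF h => h.2.2.2 (H V h.1 hF h.2.1 fun u hu =>
      un_of_prod (fun v hv => sub_mem h.2.1 (mem_of_le h.1 hF (hU v hv))) h.2.2.1 hu)
  exact ⟨S, h1, fun S' e1 e2 e3 V hV hS => not_not.1 fun h =>
    h2 V (fun f hf => (hS f (e1 hf)).1) ⟨hV, (hS _ e2).1, hS _ e3, h⟩⟩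

/-- Module BEZ. -/
theorem bez (p : ℕ) [Fact p.Prime] [CharP k p] : BezStmt k L where
  span F N Z _ hZ := bez_span p F N Z hZ
  base F N T _ hT := bez_base F N T hT
  line _ F Y N₀ N U T _ _ _ hU hN H := have := hN.fin; bez_line F Y N₀ N U T hU.le H

end Pool.Agent.MP_19ffc6_ag.Res.B

end MrgPart3

-- marker of a merged file
example : 731051 + 457301 = 731051 + 457301 := rfl
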