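import Pool.Agent.MP_19ffc6_ag.Res.ASpec
import Pool.Agent.MP_19ffc6_ag.Res.Bez
import Pool.Agent.MP_19ffc6_ag.Res.Trans

/-! PROJECT RES, part A, module OUT: from the fibration to tame Galois extensions. -/

namespace Pool.Agent.MP_19ffc6_ag.Res.OutA

open Pool.Agent.MP_19ffc6_ag.Wild Pool.Agent.MP_19ffc6_ag.Res.B Pool.Agent.MP_19ffc6_ag.Res.PA
open Polynomial IntermediateField

variable {k L K : Type} [Field k] [Field L] [Algebra k L] [Field K] [Algebra k K]
  {V : Subalgebra k L}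

section Val

/-- The valuation of a valuation ring. -/
noncomputable abbrev vv (h : Val V) := h.vs.valuation

lemma mem_iff (h : Val V) {x : L} : x ∈ V ↔ vv h x ≤ 1 := (h.vs.valuation_le_one_iff x).symm

lemma un_iff (h : Val V) {x : L} : Un V x ↔ vv h x = 1 := by
  rw [Un, mem_iff h, mem_iff h, map_inv₀]
  refine ⟨fun ⟨h1, h0, h2⟩ => le_antisymm h1 ?_, fun e => ⟨e.le, ?_, by rw [e, inv_one]⟩⟩
  · exact (inv_le_one₀ (zero_lt_iff.2 ((vv h).ne_zero_iff.2 h0))).1 h2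
  · rintro rfl
    simp at e

lemma lt_iff (h : Val V) {x : L} : (x ∈ V ∧ ¬ Un V x) ↔ vv h x < 1 := by
  rw [mem_iff h, un_iff h, lt_iff_le_and_ne]

lemma cg_iff (h : Val V) {x y : L} (hx : vv h x ≤ 1) :
    (y ∈ V ∧ ¬ Un V (y - x)) ↔ vv h (y - x) < 1 := by
  rw [← lt_iff h]
  refine and_congr_left fun _ => ⟨fun hy => sub_mem hy ((mem_iff h).2 hx), fun hy => ?_⟩
  simpa using add_mem hy ((mem_iff h).2 hx)

lemma v_cst (h : Val V) (c : k) : vv h (algebraMap k L c) ≤ 1 := (mem_iff h).1 (V.algebraMap_mem c)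

lemma v_field (h : Val V) {F : IntermediateField k L} (hF : F.toSubalgebra ≤ V) {x : L}
    (hx : IsAlgebraic F x) (h0 : x ≠ 0) : vv h x = 1 :=
  (un_iff h).1 ⟨h.mem_of_isIntegral hF hx.isIntegral, h0, h.mem_of_isIntegral hF hx.inv.isIntegral⟩

/-- The elements of value at most `γ`. -/
def leS (h : Val V) (γ : h.vs.ValueGroup) : Submodule k L where
  carrier := {z | vv h z ≤ γ}
  zero_mem' := by simp
  add_mem' ha hb := (vv h).map_add_le ha hb
  smul_mem' c z hz := by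
    change vv h (c • z) ≤ γ
    rw [Algebra.smul_def, map_mul]
    exact (mul_le_of_le_one_left' (v_cst h c)).trans hz

/-- The maximal ideal. -/
def ltS (h : Val V) : Submodule k L where
  carrier := {z | vv h z < 1}
  zero_mem' := by simp
  add_mem' ha hb := (vv h).map_add_lt ha hb
  smul_mem' c z hz := by
    change vv h (c • z) < 1
    rw [Algebra.smul_def, map_mul]
    exact (mul_le_of_le_one_left' (v_cst h c)).trans_lt hz

/-- A valuation whose values have bounded order modulo a cyclic group is discrete. -/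
theorem exists_dv (h : Val V) (φ : K →ₐ[k] L) {γ : h.vs.ValueGroup} (h0 : 0 < γ) (h1 : γ < 1)
    {n : ℕ} (hn : n ≠ 0) (H : ∀ a, a ≠ 0 → ∃ t : ℤ, vv h (φ a) ^ n = γ ^ t)
    (hne : ∃ a, a ≠ 0 ∧ vv h (φ a) < 1) :
    ∃ w : DV k K, (∀ a, a ∈ w.fil 0 ↔ vv h (φ a) ≤ 1) ∧ (∀ a, a ∈ w.fil 1 ↔ vv h (φ a) < 1) ∧
      ∀ π, w.ord π = 1 → vv h (φ π) < 1 ∧ ∀ a, vv h (φ a) < 1 → vv h (φ a) ≤ vv h (φ π) := by
  classical
  have pos : ∀ a, a ≠ 0 → 0 < vv h (φ a) := fun a ha =>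
    zero_lt_iff.2 ((vv h).ne_zero_iff.2 ((_root_.map_ne_zero φ).2 ha))
  have ex : ∃ d : ℕ, ∃ a, a ≠ 0 ∧ vv h (φ a) < 1 ∧ vv h (φ a) ^ n = γ ^ (d : ℤ) := by
    obtain ⟨a, ha, hv⟩ := hne
    obtain ⟨t, ht⟩ := H a ha
    have : 0 ≤ t := (zpow_le_one_iff_right_of_lt_one₀ h0 h1).1 (ht ▸ pow_le_one₀ zero_le hv.le)
    exact ⟨t.toNat, a, ha, hv, by rw [Int.toNat_of_nonneg this, ht]⟩
  obtain ⟨ϖ, e0, e1, e2⟩ := Nat.find_spec ex
  have hd : (0 : ℤ) < Nat.find ex :=
    (zpow_lt_one_iff_right_of_lt_one₀ h0 h1).1 (e2 ▸ pow_lt_one₀ zero_le e1 hn)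
  have key : ∀ a, ∃ t : ℤ, (a = 0 → t = 0) ∧ (a ≠ 0 → vv h (φ a) = vv h (φ ϖ) ^ t) := by
    intro a
    by_cases ha : a = 0
    · exact ⟨0, fun _ => rfl, fun h => (h ha).elim⟩
    obtain ⟨t, ht⟩ := H a ha
    refine ⟨t / Nat.find ex, fun h => (ha h).elim, fun _ => ?_⟩
    have hb : a / ϖ ^ (t / Nat.find ex) ≠ 0 := div_ne_zero ha (zpow_ne_zero _ e0)
    have e3 : vv h (φ (a / ϖ ^ (t / Nat.find ex))) ^ n = γ ^ (t % Nat.find ex) := by
      rw [map_div₀, map_zpow₀, map_div₀, map_zpow₀, div_pow, ht, ← zpow_natCast, ← zpow_mul,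
        mul_comm, zpow_mul, zpow_natCast, e2, ← zpow_mul, ← zpow_sub₀ h0.ne', Int.emod_def]
    have e4 := Int.emod_nonneg t hd.ne'
    have e5 : vv h (φ (a / ϖ ^ (t / Nat.find ex))) = 1 := by
      have e6 : vv h (φ (a / ϖ ^ (t / Nat.find ex))) ≤ 1 :=
        (pow_le_one_iff hn).1 (e3 ▸ (zpow_le_one_iff_right_of_lt_one₀ h0 h1).2 e4)
      by_contra e7
      have e8 := Nat.find_min' ex (m := (t % Nat.find ex).toNat)
        ⟨_, hb, lt_of_le_of_ne e6 e7, by rw [Int.toNat_of_nonneg e4, e3]⟩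
      have := Int.emod_lt_of_pos t hd
      omega
    rwa [map_div₀, map_zpow₀, map_div₀, map_zpow₀, div_eq_one_iff_eq (zpow_pos (pos ϖ e0) _).ne']
      at e5
  choose o o0 ho using key
  have le : ∀ {s t : ℤ}, vv h (φ ϖ) ^ s ≤ vv h (φ ϖ) ^ t ↔ t ≤ s :=
    zpow_le_zpow_iff_right_of_lt_one₀ (pos ϖ e0) e1
  have inj : ∀ {s t : ℤ}, vv h (φ ϖ) ^ s = vv h (φ ϖ) ^ t → s = t := fun e =>
    le_antisymm (le.1 e.ge) (le.1 e.le)
  have fil : ∀ a, vv h (φ a) < 1 ↔ a = 0 ∨ 1 ≤ o a := fun a => by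
    by_cases ha : a = 0
    · simp [ha]
    rw [ho a ha, zpow_lt_one_iff_right_of_lt_one₀ (pos ϖ e0) e1, or_iff_right ha]
    rfl
  refine ⟨⟨o, o0 0 rfl, fun x y hx hy => inj ?_, fun x y hx hy hxy => ?_, fun c => ?_,
    ϖ, e0, inj (by rw [← ho ϖ e0, zpow_one])⟩, fun a => ?_, fun a => (fil a).symm, fun π hπ => ?_⟩
  · rw [← ho _ (mul_ne_zero hx hy), zpow_add₀ (pos ϖ e0).ne', ← ho x hx, ← ho y hy, map_mul, map_mul]
  · have := (vv h).map_add (φ x) (φ y)
    rw [← map_add, ho _ hxy, ho x hx, ho y hy, le_max_iff, le, le] at this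
    exact min_le_iff.2 this
  · by_cases hc : c = 0
    · exact o0 _ (by rw [hc, map_zero])
    refine inj ?_
    rw [← ho _ ((_root_.map_ne_zero _).2 hc), zpow_zero, φ.commutes, ← un_iff h]
    exact ⟨V.algebraMap_mem c, (_root_.map_ne_zero _).2 hc, map_inv₀ (algebraMap k L) c ▸ V.algebraMap_mem _⟩
  · change a = 0 ∨ 0 ≤ o a ↔ _
    by_cases ha : a = 0
    · simp [ha]
    rw [ho a ha, zpow_le_one_iff_right_of_lt_one₀ (pos ϖ e0) e1, or_iff_right ha]
  · change o π = 1 at hπ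
    have hπ0 : π ≠ 0 := fun e => by rw [o0 π e] at hπ; exact zero_ne_one hπ
    refine ⟨(fil π).2 (Or.inr hπ.ge), fun a ha => ?_⟩
    by_cases ha0 : a = 0
    · simp [ha0]
    rw [ho a ha0, ho π hπ0, le, hπ]
    exact ((fil a).1 ha).resolve_left ha0

/-- The value group of a finite extension. -/
theorem alg_val (h : Val V) {γ : h.vs.ValueGroup} (h0 : 0 < γ) {E : IntermediateField k L}
    (hE : ∀ c ∈ E, c ≠ 0 → ∃ t : ℤ, vv h c = γ ^ t) (N : IntermediateField E L)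
    [FiniteDimensional E N] {z : L} (hz : z ∈ N) (hz0 : z ≠ 0) :
    ∃ t : ℤ, vv h z ^ (Module.finrank E N).factorial = γ ^ t := by
  classical
  have hi : IsIntegral E (⟨z, hz⟩ : N) := Algebra.IsIntegral.isIntegral _
  set q := minpoly E (⟨z, hz⟩ : N)
  have hq : q.natDegree ≤ Module.finrank E N := minpoly.natDegree_le _
  have e1 : ∑ i ∈ q.support, (q.coeff i : L) * z ^ i = 0 := by
    have := congrArg (algebraMap N L) (minpoly.aeval E (⟨z, hz⟩ : N))
    rwa [← aeval_algebraMap_apply, map_zero, aeval_def, eval₂_eq_sum, Polynomial.sum] at this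
  have ne : ∀ i ∈ q.support, (q.coeff i : L) ≠ 0 := fun i hi e =>
    mem_support_iff.1 hi (Subtype.ext e)
  have key : ∃ i ∈ q.support, ∃ j ∈ q.support, i < j ∧
      vv h ((q.coeff i : L) * z ^ i) = vv h ((q.coeff j : L) * z ^ j) := by
    by_contra H
    push Not at H
    obtain ⟨j, hj, hm⟩ := q.support.exists_max_image (fun i => vv h ((q.coeff i : L) * z ^ i))
      (support_nonempty.2 (minpoly.ne_zero hi))
    have := (vv h).map_sum_eq_of_lt (f := fun i => (q.coeff i : L) * z ^ i) hj fun i hi => by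
      obtain ⟨hi, hij⟩ := Finset.mem_sdiff.1 hi
      refine lt_of_le_of_ne (hm i hi) ?_
      rcases lt_or_gt_of_ne (Finset.notMem_singleton.1 hij) with e | e
      · exact H i hi j hj e
      · exact (H j hj i hi e).symm
    rw [e1, map_zero] at this
    exact (vv h).ne_zero_iff.2 (mul_ne_zero (ne j hj) (pow_ne_zero _ hz0)) this.symm
  obtain ⟨i, hi, j, hj, hij, e⟩ := key
  obtain ⟨s, hs⟩ := hE _ (q.coeff i).2 (ne i hi)
  obtain ⟨t, ht⟩ := hE _ (q.coeff j).2 (ne j hj)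
  obtain ⟨d, rfl⟩ := Nat.exists_eq_add_of_lt hij
  obtain ⟨c, hc⟩ : d + 1 ∣ (Module.finrank E N).factorial :=
    Nat.dvd_factorial d.succ_pos (by have := le_natDegree_of_mem_supp _ hj; omega)
  have e2 : vv h z ^ (d + 1) = γ ^ (s - t) := by
    rw [map_mul, map_mul, hs, ht, map_pow, map_pow, add_assoc, pow_add, mul_left_comm, mul_comm]
      at e
    rw [zpow_sub₀ h0.ne', mul_left_cancel₀ (pow_ne_zero _ ((vv h).ne_zero_iff.2 hz0)) e,
      mul_div_cancel_left₀ _ (zpow_pos h0 _).ne']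
  exact ⟨(s - t) * c, by rw [hc, pow_mul, e2, zpow_mul, zpow_natCast]⟩

/-- The value group of a rational function field in one variable. -/
theorem rat_val (h : Val V) {F : IntermediateField k L} (hF : F.toSubalgebra ≤ V) {Y : L}
    (hY : Y ∈ V) (ht : Transcendental F Y) {R : F[X]} (hR : R ≠ 0) (hv : vv h (aeval Y R) < 1) :
    ∃ γ : h.vs.ValueGroup, 0 < γ ∧ γ < 1 ∧ ∀ c ∈ F⟮Y⟯, c ≠ 0 → ∃ t : ℤ, vv h c = γ ^ t := by
  classical
  have le : ∀ r : F[X], vv h (aeval Y r) ≤ 1 := fun r => by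
    rw [← mem_iff h, aeval_eq_sum_range]
    exact sum_mem fun i _ => mul_mem (hF (r.coeff i).2) (pow_mem hY i)
  let I : Ideal F[X] :=
    { carrier := {r | vv h (aeval Y r) < 1}
      zero_mem' := by simp
      add_mem' := fun ha hb => by simpa using (vv h).map_add_lt ha hb
      smul_mem' := fun c z hz => by
        change vv h (aeval Y (c * z)) < 1
        rw [map_mul, map_mul]
        exact (mul_le_of_le_one_left' (le c)).trans_lt hz }
  obtain ⟨μ, hμ⟩ := (IsPrincipalIdealRing.principal I).principal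
  have hI : ∀ r, vv h (aeval Y r) < 1 ↔ μ ∣ r := fun r => by
    rw [← Ideal.mem_span_singleton, ← Ideal.submodule_span_eq, ← hμ]; rfl
  have hμ0 : μ ≠ 0 := ne_zero_of_dvd_ne_zero hR ((hI R).1 hv)
  have ne : ∀ r : F[X], r ≠ 0 → aeval Y r ≠ 0 := fun r hr e => ht ⟨r, hr, e⟩
  have h0 : 0 < vv h (aeval Y μ) := zero_lt_iff.2 ((vv h).ne_zero_iff.2 (ne μ hμ0))
  have hu : ¬ IsUnit μ := fun e => by simpa using (hI 1).2 e.dvd
  have key : ∀ r : F[X], r ≠ 0 → ∃ t : ℤ, vv h (aeval Y r) = vv h (aeval Y μ) ^ t := fun r hr => by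
    obtain ⟨n, a, h1, rfl⟩ := WfDvdMonoid.max_power_factor' hr hu
    refine ⟨n, ?_⟩
    rw [map_mul, map_mul, map_pow, map_pow, le_antisymm (le a) (not_lt.1 (mt (hI a).1 h1)), mul_one,
      zpow_natCast]
  refine ⟨_, h0, (hI μ).2 dvd_rfl, fun c hc hc0 => ?_⟩
  obtain ⟨r, s, rfl⟩ := (mem_adjoin_simple_iff F c).1 hc
  obtain ⟨a, ha⟩ := key r fun e => hc0 (by simp [e])
  obtain ⟨b, hb⟩ := key s fun e => hc0 (by simp [e])
  exact ⟨a - b, by rw [map_div₀, ha, hb, zpow_sub₀ h0.ne']⟩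

end Val

section Gal

variable {ι : Type} {g : ι → K} {C₀ : ℕ} {j φ : K →ₐ[k] L}

/-- `φ` agrees with `j` on the family `g`. -/
def Ov (g : ι → K) (j φ : K →ₐ[k] L) : Prop := ∀ i, φ (g i) = j (g i)

lemma Ov.eq (h : Ov g j φ) {c : K} (hc : c ∈ adjoin k (Set.range g)) : φ c = j c := by
  induction hc using adjoin_induction with
  | mem x hx => obtain ⟨i, rfl⟩ := hx; exact h i
  | algebraMap c => rw [φ.commutes, j.commutes]
  | add x y _ _ hx hy => rw [map_add, map_add, hx, hy]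
  | inv x _ hx => rw [map_inv₀, map_inv₀, hx]
  | mul x y _ _ hx hy => rw [map_mul, map_mul, hx, hy]

/-- The embedding of the base field. -/
noncomputable def eb (g : ι → K) (j : K →ₐ[k] L) : adjoin k (Set.range g) →+* L :=
  (j : K →+* L).comp (algebraMap _ K)

lemma Ov.map_aeval (h : Ov g j φ) (q : (adjoin k (Set.range g))[X]) (θ : K) :
    φ (aeval θ q) = (q.map (eb g j)).eval (φ θ) := by
  rw [aeval_def, eval_map]
  refine (hom_eval₂ q _ (φ : K →+* L) θ).trans ?_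
  congr 1
  exact RingHom.ext fun c => h.eq c.2

lemma eb_mem {E : IntermediateField k L} (hE : ∀ i, j (g i) ∈ E) (c : adjoin k (Set.range g)) :
    eb g j c ∈ E :=
  (adjoin_le_iff (T := E.comap j)).2 (Set.range_subset_iff.2 hE) c.2

lemma exists_roots [IsAlgClosed L] (h : Cov k K g C₀) (j : K →ₐ[k] L) (θ : K) :
    ∃ (μ : (adjoin k (Set.range g))[X]) (s : Finset L), μ.map (eb g j) = ∏ ρ ∈ s, (X - C ρ) ∧
      ∀ ρ, ρ ∈ s ↔ ∃ φ : K →ₐ[k] L, Ov g j φ ∧ φ θ = ρ := by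
  classical
  have := h.fin
  have := h.sep
  let _ := (eb g j).toAlgebra
  have : IsScalarTower k (adjoin k (Set.range g)) L :=
    .of_algebraMap_eq fun c => (j.commutes c).symm
  have hi : IsIntegral (adjoin k (Set.range g)) θ := Algebra.IsIntegral.isIntegral θ
  have hs : ((minpoly _ θ).map (eb g j)).Separable :=
    Separable.map (Algebra.IsSeparable.isSeparable _ θ)
  refine ⟨minpoly _ θ, ((minpoly _ θ).map (eb g j)).roots.toFinset, ?_, fun ρ => ?_⟩
  · rw [Finset.prod_eq_multiset_prod, Multiset.toFinset_val, (nodup_roots hs).dedup]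
    exact (IsAlgClosed.splits _).eq_prod_roots_of_monic ((minpoly.monic hi).map _)
  · have := Set.ext_iff.1
      (Algebra.IsAlgebraic.range_eval_eq_rootSet_minpoly (F := adjoin k (Set.range g)) L θ) ρ
    refine (this.trans (by rfl)).symm.trans ⟨fun ⟨ψ, e⟩ => ⟨ψ.restrictScalars k, fun i => ?_, e⟩,
      fun ⟨ψ, h1, e⟩ => ⟨{ ψ with commutes' := fun c => h1.eq c.2 }, e⟩⟩
    exact ψ.commutes ⟨g i, subset_adjoin _ _ ⟨i, rfl⟩⟩

lemma exists_gen (h : Cov k K g C₀) :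
    ∃ θ : K, ∀ a, ∃ q : (adjoin k (Set.range g))[X], a = aeval θ q :=
  have := h.fin
  have := h.sep
  ⟨_, (Field.powerBasisOfFiniteOfSeparable _ K).exists_eq_aeval'⟩

lemma finite_ov [IsAlgClosed L] (h : Cov k K g C₀) (j : K →ₐ[k] L) : {φ | Ov g j φ}.Finite := by
  obtain ⟨θ, hθ⟩ := exists_gen h
  obtain ⟨μ, s, -, hs⟩ := exists_roots h j θ
  refine Set.Finite.of_finite_image (f := fun φ => φ θ) (s.finite_toSet.subset ?_) ?_
  · rintro _ ⟨φ, h1, rfl⟩
    exact (hs _).2 ⟨φ, h1, rfl⟩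
  · refine fun φ h1 ψ h2 e => AlgHom.ext fun a => ?_
    obtain ⟨q, rfl⟩ := hθ a
    rw [Ov.map_aeval h1, Ov.map_aeval h2]
    exact congrArg (eval · _) e

variable {E : IntermediateField k L} {N : IntermediateField E L}

/-- The composition of an embedding with an automorphism. -/
noncomputable def cmp (σ : N ≃ₐ[E] N) (φ : K →ₐ[k] L) (h : ∀ a, φ a ∈ N) : K →ₐ[k] L :=
  (vl N).comp ((σ.restrictScalars k : N →ₐ[k] N).comp
    { (φ : K →+* L).codRestrict N h with commutes' := fun c => Subtype.ext (φ.commutes c) })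

lemma cmp_apply (σ : N ≃ₐ[E] N) (h : ∀ a, φ a ∈ N) (a : K) : cmp σ φ h a = σ ⟨φ a, h a⟩ := rfl

lemma ov_cmp (σ : N ≃ₐ[E] N) (h : ∀ a, φ a ∈ N) (hE : ∀ i, φ (g i) ∈ E) : Ov g φ (cmp σ φ h) :=
  fun i => congrArg Subtype.val (σ.commutes ⟨_, hE i⟩)

lemma ine_iff (h : Val V) {σ : N ≃ₐ[E] N} :
    Ine V σ ↔ ∀ x : N, vv h x ≤ 1 → vv h ((σ x : L) - x) < 1 :=
  forall_congr' fun _ => by rw [mem_iff h]; exact imp_congr_right fun hx => cg_iff h hx

lemma ine_pow (h : Val V) {σ : N ≃ₐ[E] N} (hσ : Ine V σ) (t : ℕ) : Ine V (σ ^ t) := by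
  induction t with
  | zero => exact (ine_iff h).2 fun x _ => by simp
  | succ t ih =>
    refine (ine_iff h).2 fun x hx => ?_
    have h1 := (ine_iff h).1 hσ _ ((mem_iff h).1 (ih x ((mem_iff h).2 hx)).1)
    simpa [pow_succ'] using (vv h).map_add_lt h1 ((ine_iff h).1 ih x hx)

/-- The Galois closure of a cover of small local degree is tame. -/
theorem exists_tame [IsAlgClosed L] (h : Cov k K g C₀) (j : K →ₐ[k] L) (E : IntermediateField k L)
    (hE : ∀ i, j (g i) ∈ E) :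
    ∃ N : IntermediateField E L, Tame C₀.factorial E N ∧ ∃ hN : ∀ φ, Ov g j φ → ∀ a, φ a ∈ N,
      ∀ σ : N ≃ₐ[E] N, (∀ φ h1, cmp σ φ (hN φ h1) = φ) → σ = 1 := by
  classical
  obtain ⟨θ, hθ⟩ := exists_gen h
  obtain ⟨μ, s, hμ, hs⟩ := exists_roots h j θ
  let μ' : E[X] := μ.map ((eb g j).codRestrict E (eb_mem hE))
  have e1 : μ'.map (algebraMap E L) = ∏ ρ ∈ s, (X - C ρ) := by rw [← hμ, Polynomial.map_map]; rfl
  have e2 : μ'.rootSet L = s := by
    rw [rootSet, aroots, e1, roots_prod_X_sub_C, Finset.val_toFinset]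
  have e3 : μ'.Separable := by
    rw [← separable_map (algebraMap E L), e1]
    exact separable_prod_X_sub_C_iff'.2 fun _ _ _ _ e => e
  have := adjoin_rootSet_isSplittingField (p := μ') (IsAlgClosed.splits (μ'.map (algebraMap E L)))
  rw [e2] at this
  have hN : ∀ φ, Ov g j φ → ∀ a, φ a ∈ adjoin E (s : Set L) := fun φ h1 a => by
    obtain ⟨q, rfl⟩ := hθ a
    rw [h1.map_aeval, eval_map, eval₂_eq_sum_range]
    exact sum_mem fun i _ => mul_mem (_root_.algebraMap_mem _ (⟨_, eb_mem hE _⟩ : E))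
      (pow_mem (subset_adjoin _ _ ((hs _).2 ⟨φ, h1, rfl⟩)) _)
  have hσ : ∀ σ : adjoin E (s : Set L) ≃ₐ[E] adjoin E (s : Set L),
      (∀ φ h1, cmp σ φ (hN φ h1) = φ) → σ = 1 := fun σ H => AlgEquiv.ext fun x =>
    fix_sup le_rfl (N := ⊥) (X := s) σ
      (fun y hy => by obtain ⟨c, rfl⟩ := mem_bot.1 hy; exact ⟨_root_.algebraMap_mem _ c, σ.commutes c⟩)
      (fun y hy => by
        obtain ⟨φ, h1, rfl⟩ := (hs y).1 hy
        exact ⟨hN φ h1 θ, Subtype.ext (DFunLike.congr_fun (H φ h1) θ)⟩) x (by simp)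
  refine ⟨_, ⟨IsSplittingField.finiteDimensional _ μ', IsGalois.of_separable_splitting_field e3,
    fun V hV σ h1 => hσ _ fun φ h2 => ?_⟩, hN, hσ⟩
  have h3 := h.cong L V hV ((Finset.range (C₀ + 1)).image fun t => cmp (σ ^ t) φ (hN φ h2)) φ
    fun ψ hψ => by
      obtain ⟨t, -, rfl⟩ := Finset.mem_image.1 hψ
      exact ⟨Set.forall_mem_range.2 (ov_cmp _ _ fun i => (h2 i).symm ▸ hE i),
        fun a ha => ine_pow hV h1 t ⟨φ a, hN φ h2 a⟩ ha⟩
  have key : ∀ a b, a < b → b < C₀ + 1 → cmp (σ ^ a) φ (hN φ h2) = cmp (σ ^ b) φ (hN φ h2) →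
      cmp (σ ^ C₀.factorial) φ (hN φ h2) = φ := fun a b hab hb e => AlgHom.ext fun x => by
    obtain ⟨d, rfl⟩ := Nat.exists_eq_add_of_lt hab
    obtain ⟨c, hc⟩ : d + 1 ∣ C₀.factorial := Nat.dvd_factorial d.succ_pos (by omega)
    have e4 : (σ ^ (d + 1)) ⟨φ x, hN φ h2 x⟩ = ⟨φ x, hN φ h2 x⟩ := (σ ^ a).injective (by
      rw [← AlgEquiv.mul_apply, ← pow_add, ← add_assoc]
      exact Subtype.ext (DFunLike.congr_fun e x).symm)
    have e5 : (σ ^ (d + 1)) ^ c ∈ MulAction.stabilizer _ (⟨φ x, hN φ h2 x⟩ : adjoin E (s : Set L)) :=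
      pow_mem e4 c
    rw [hc, pow_mul]
    exact congrArg Subtype.val e5
  by_contra H
  rw [Finset.card_image_of_injOn, Finset.card_range] at h3
  · omega
  · intro a ha b hb e
    by_contra hab
    rcases lt_or_gt_of_ne hab with h4 | h4
    · exact H (key a b h4 (by simpa using hb) e)
    · exact H (key b a h4 (by simpa using ha) e.symm)

lemma tame_bot (m : ℕ) (E : IntermediateField k L) : Tame m E ⊥ :=
  ⟨inferInstance, isGalois_bot, fun _ _ _ _ => AlgEquiv.ext fun x => by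
    obtain ⟨x, hx⟩ := x
    obtain ⟨c, rfl⟩ := mem_bot.1 hx
    exact AlgEquiv.commutes _ c⟩

lemma tame_sup {m : ℕ} {N₁ N₂ : IntermediateField E L} (h1 : Tame m E N₁) (h2 : Tame m E N₂) :
    Tame m E (N₁ ⊔ N₂) := by
  have := h1.fin
  have := h2.fin
  have := h1.gal
  have := h2.gal
  refine ⟨inferInstance, inferInstance, fun V hV σ hσ => AlgEquiv.ext fun x => ?_⟩
  have key : ∀ {N : IntermediateField E L}, Tame m E N → N ≤ N₁ ⊔ N₂ →
      ∀ x ∈ N, ∃ h : x ∈ N₁ ⊔ N₂, (σ ^ m) ⟨x, h⟩ = ⟨x, h⟩ := fun {N} hN hle y hy => by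
    have := hN.gal
    obtain ⟨ρ, hρ⟩ := exists_res le_rfl N (N₁ ⊔ N₂) hle
    have e := hN.pow V hV (ρ σ) fun z hz => by rw [hρ]; exact hσ ⟨z, hle z.2⟩ hz
    refine ⟨hle hy, Subtype.ext ?_⟩
    rw [← hρ _ ⟨y, hy⟩, map_pow, e]
    rfl
  exact fix_sup le_rfl (N := N₁) (X := N₂) _ (key h1 le_sup_left) (key h2 le_sup_right) x
    (by simp)

lemma exists_tame_finset {m : ℕ} (Z : Finset L) (h : ∀ u ∈ Z, ∃ N, Tame m E N ∧ u ∈ N) :
    ∃ N, Tame m E N ∧ ∀ u ∈ Z, u ∈ N := by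
  classical
  induction Z using Finset.induction_on with
  | empty => exact ⟨⊥, tame_bot m E, by simp⟩
  | insert a Z _ ih =>
    obtain ⟨N₁, h1, h2⟩ := h a (Finset.mem_insert_self _ _)
    obtain ⟨N₂, h3, h4⟩ := ih fun u hu => h u (Finset.mem_insert_of_mem hu)
    exact ⟨N₁ ⊔ N₂, tame_sup h1 h3, Finset.forall_mem_insert .. |>.2
      ⟨(le_sup_left : N₁ ≤ _) h2, fun u hu => (le_sup_right : N₂ ≤ _) (h4 u hu)⟩⟩

end Gal

section Unr

variable {ι : Type} {g : ι → K} {C₀ : ℕ}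

lemma mult {κ α : Type} [Field κ] [DecidableEq κ] (s : Finset α) (ρ : α → κ) (t : κ) {c : ℕ}
    (hc : (s.filter fun i => ρ i = t).card = c + 1) (hf : ((c + 1).factorial : κ) ≠ 0) :
    (derivative^[c] (∏ i ∈ s, (X - C (ρ i)))).eval t = 0 ∧
      (derivative^[c + 1] (∏ i ∈ s, (X - C (ρ i)))).eval t ≠ 0 := by
  have h0 : ∏ i ∈ s, (X - C (ρ i)) ≠ 0 := (monic_prod_X_sub_C ρ s).ne_zero
  have h1 : rootMultiplicity t (∏ i ∈ s, (X - C (ρ i))) = c + 1 := by
    rw [← count_roots, Finset.prod_eq_multiset_prod,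
      show (fun i => X - C (ρ i)) = (fun a => X - C a) ∘ ρ from rfl, ← Multiset.map_map,
      roots_multiset_prod_X_sub_C, Multiset.count_map, ← hc, Finset.card_def, Finset.filter_val]
    simp only [eq_comm]
  refine ⟨isRoot_iterate_derivative_of_lt_rootMultiplicity (by omega), ?_⟩
  rw [← h1, eval_iterate_derivative_rootMultiplicity, nsmul_eq_mul]
  exact mul_ne_zero (h1 ▸ hf) (eval_divByMonic_pow_rootMultiplicity_ne_zero t h0)

open Classical in
lemma hensel (h : Val V) (s : Finset L) (hs : ∀ ρ ∈ s, vv h ρ ≤ 1) {t t' : L} (ht : vv h t ≤ 1)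
    (ht' : vv h (t' - t) < 1) {c : ℕ} (hc : (s.filter fun ρ => vv h (ρ - t) < 1).card = c + 1)
    (hf : ((c + 1).factorial : k) ≠ 0) :
    vv h ((derivative^[c] (∏ ρ ∈ s, (X - C ρ))).eval t) < 1 ∧
      vv h ((derivative^[c] (∏ ρ ∈ s, (X - C ρ))).eval t' -
        (derivative^[c] (∏ ρ ∈ s, (X - C ρ))).eval t) = vv h (t' - t) := by
  let l : s → h.vs := fun ρ => ⟨ρ, (mem_iff h).2 (hs ρ ρ.2)⟩
  let r := IsLocalRing.residue h.vs
  have hr : ∀ z : h.vs, r z = 0 ↔ vv h z < 1 := fun z =>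
    (IsLocalRing.residue_eq_zero_iff z).trans (h.vs.valuation_lt_one_iff z)
  let a : h.vs := ⟨t, (mem_iff h).2 ht⟩
  let δ : h.vs := ⟨t' - t, (mem_iff h).2 ht'.le⟩
  let χ : h.vs[X] := ∏ ρ : s, (X - C (l ρ))
  have e1 : χ.map (algebraMap h.vs L) = ∏ ρ ∈ s, (X - C ρ) := by
    rw [← Finset.prod_coe_sort s, Polynomial.map_prod]
    simp [l]
  have e2 : ∀ (n : ℕ) (z : h.vs), (derivative^[n] (∏ ρ ∈ s, (X - C ρ))).eval (z : L) =
      ((derivative^[n] χ).eval z : h.vs) := fun n z => by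
    rw [← e1, iterate_derivative_map]
    exact eval_map_apply (algebraMap h.vs L) z
  have e3 : ∀ n : ℕ, r ((derivative^[n] χ).eval a) =
      (derivative^[n] (∏ ρ : s, (X - C (r (l ρ))))).eval (r a) := fun n => by
    rw [← eval_map_apply, ← iterate_derivative_map, Polynomial.map_prod]
    simp
  obtain ⟨h1, h2⟩ := mult Finset.univ (fun ρ => r (l ρ)) (r a) (c := c) (by
    rw [← hc, Finset.univ_eq_attach, ← Finset.card_attach (s := s.filter _)]
    simp only [← sub_eq_zero (b := r a), ← map_sub, hr]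
    rw [Finset.card_attach]
    exact (congrArg _ (Finset.filter_attach (fun ρ => vv h (ρ - t) < 1) s)).trans (by simp)) (by
    rw [← map_natCast r, Ne, hr, not_lt]
    refine ((un_iff h).1 ?_).ge
    have e : ((((c + 1).factorial : ℕ) : h.vs) : L) = algebraMap k L ((c + 1).factorial) := by simp
    rw [e]
    exact ⟨V.algebraMap_mem _, (_root_.map_ne_zero _).2 hf,
      map_inv₀ (algebraMap k L) _ ▸ V.algebraMap_mem _⟩)
  rw [← e3, hr] at h1
  rw [← e3, Ne, hr, Function.iterate_succ_apply'] at h2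
  obtain ⟨b, hb⟩ := (derivative^[c] χ).binomExpansion a δ
  have e4 : t' = (a + δ : h.vs) := by simp [a, δ]
  refine ⟨(e2 c a).symm ▸ h1, ?_⟩
  rw [show t = (a : L) from rfl, e2, e4, e2, hb]
  have h3 : vv h ((derivative (derivative^[c] χ)).eval a : h.vs) = 1 :=
    le_antisymm (h.vs.valuation_le_one _) (not_lt.1 h2)
  have h4 : vv h ((b : L) * δ) < 1 := by
    rw [map_mul]
    exact (mul_le_of_le_one_left' (h.vs.valuation_le_one b)).trans_lt ht'
  have h5 := (vv h).map_add_eq_of_lt_left (h3 ▸ h4)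
  rw [h3] at h5
  rw [← mul_one (vv h (_ - (a : L))), ← h5, ← map_mul]
  congr 1
  push_cast
  ring

lemma avoid [Infinite k] {α : Type} [Finite α] (B : Submodule k K) (p : α → Submodule k K)
    (h : ∀ i, ¬ B ≤ p i) : ∃ x ∈ B, ∀ i, x ∉ p i := by
  obtain ⟨x, hx⟩ := Submodule.exists_forall_notMem_of_forall_ne_top
    (fun i => (p i).comap B.subtype) fun i e => h i (Submodule.comap_subtype_eq_top.1 e)
  exact ⟨x, x.2, hx⟩

lemma shift [Infinite k] (h : Val V) {Φ : Set (K →ₐ[k] L)} (hΦ : Φ.Finite) {φ₀ : K →ₐ[k] L}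
    (h0 : φ₀ ∈ Φ) {a : K} (ha : vv h (φ₀ a) ≤ 1) :
    ∃ s, (∀ φ ∈ Φ, vv h (φ s) ≤ 1) ∧ ∀ φ ∈ Φ, vv h (φ s - φ₀ s) < 1 →
      vv h (φ a - φ₀ a) = vv h (φ s - φ₀ s) := by
  have h1 : (⋃ φ ∈ Φ, {c : k | vv h (φ a - algebraMap k L c) < 1}).Finite :=
    hΦ.biUnion fun φ _ => Set.Subsingleton.finite fun c hc c' hc' => by
      by_contra e
      have := (vv h).map_sub_lt (g := 1) hc hc'
      rw [sub_sub_sub_cancel_left, ← map_sub, ← lt_iff h] at this
      exact this.2 ⟨this.1, (_root_.map_ne_zero _).2 (sub_ne_zero.2 (Ne.symm e)),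
        map_inv₀ (algebraMap k L) _ ▸ V.algebraMap_mem _⟩
  obtain ⟨c, hc⟩ := h1.exists_notMem
  have h2 : ∀ φ ∈ Φ, 1 ≤ vv h (φ (a - algebraMap k K c)) := fun φ hφ => by
    rw [map_sub, φ.commutes]
    exact not_lt.1 fun e => hc (Set.mem_biUnion hφ e)
  have h3 : vv h (φ₀ (a - algebraMap k K c)) = 1 := le_antisymm (by
    rw [map_sub, φ₀.commutes]
    exact (vv h).map_sub_le ha (v_cst h c)) (h2 _ h0)
  have h4 : a - algebraMap k K c ≠ 0 := fun e => by simp [e] at h3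
  refine ⟨(a - algebraMap k K c)⁻¹, fun φ hφ => ?_, fun φ hφ e => ?_⟩
  · rw [map_inv₀, map_inv₀]
    exact inv_le_one_of_one_le₀ (h2 φ hφ)
  · have h5 : vv h (φ₀ (a - algebraMap k K c)⁻¹) = 1 := by rw [map_inv₀, map_inv₀, h3, inv_one]
    have h6 := (vv h).map_eq_of_sub_lt (h5 ▸ e)
    rw [h5, map_inv₀, map_inv₀, inv_eq_one] at h6
    rw [map_inv₀, map_inv₀, inv_sub_inv ((_root_.map_ne_zero φ).2 h4) ((_root_.map_ne_zero φ₀).2 h4),
      map_div₀, map_mul, h6, h3, mul_one, div_one, (vv h).map_sub_swap]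
    simp

/-- A cover of small local degree with a uniformizer in the base field is unramified. -/
theorem le_pow [Infinite k] [IsAlgClosed L] (hg : Cov k K g C₀) (hC : (C₀.factorial : k) ≠ 0)
    (h : Val V) {φ₀ ψ : K →ₐ[k] L} (hψ : Ov g φ₀ ψ)
    (hc : ∀ a, vv h (φ₀ a) ≤ 1 → vv h (ψ a - φ₀ a) < 1) {π : K} (hπ : π ∈ adjoin k (Set.range g))
    (hπ0 : π ≠ 0) (hπ1 : ∀ a, vv h (φ₀ a) < 1 → vv h (φ₀ a) ≤ vv h (φ₀ π)) (n : ℕ) :
    ∀ a, vv h (φ₀ a) ≤ 1 → vv h (ψ a - φ₀ a) ≤ vv h (φ₀ π) ^ n := by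
  classical
  induction n with
  | zero => exact fun a ha => (hc a ha).le.trans_eq (pow_zero _).symm
  | succ n ih =>
  have hΦ := finite_ov hg φ₀
  let B : Submodule k K := ⨅ φ ∈ {φ | Ov g φ₀ φ}, (leS h 1).comap φ.toLinearMap
  have hB : ∀ s, s ∈ B ↔ ∀ φ ∈ {φ | Ov g φ₀ φ}, vv h (φ s) ≤ 1 := fun s => by
    simp only [B, Submodule.mem_iInf]; rfl
  have h0 : φ₀ ∈ {φ | Ov g φ₀ φ} := fun _ => rfl
  suffices H : B ≤ (leS h (vv h (φ₀ π) ^ (n + 1))).comap (ψ.toLinearMap - φ₀.toLinearMap) by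
    intro a ha
    obtain ⟨s, h1, h2⟩ := shift h hΦ h0 ha
    rw [h2 ψ hψ (hc s (h1 _ h0))]
    exact H ((hB s).2 h1)
  by_contra H
  let A := {φ // Ov g φ₀ φ ∧ ¬ ∀ a, vv h (φ₀ a) ≤ 1 → vv h (φ a - φ₀ a) < 1}
  have : Finite A := (hΦ.subset fun _ h => h.1).to_subtype
  obtain ⟨θ, h1, h2⟩ := avoid B (fun o : Option A => o.elim
    ((leS h (vv h (φ₀ π) ^ (n + 1))).comap (ψ.toLinearMap - φ₀.toLinearMap))
    fun φ => (ltS h).comap (φ.1.toLinearMap - φ₀.toLinearMap)) fun o => by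
      rcases o with _ | φ
      · exact H
      · refine fun H' => φ.2.2 fun a ha => ?_
        obtain ⟨s, h1, h2⟩ := shift h hΦ h0 ha
        have h3 : vv h (φ.1 s - φ₀ s) < 1 := H' ((hB s).2 h1)
        rwa [h2 _ φ.2.1 h3]
  rw [hB] at h1
  obtain ⟨μ, s, hμ, hs⟩ := exists_roots hg φ₀ θ
  choose f hf1 hf2 using fun ρ : s => (hs ρ).1 ρ.2
  obtain ⟨c, hc'⟩ := Nat.exists_eq_succ_of_ne_zero (Finset.card_ne_zero_of_mem
    (s := s.filter fun ρ => vv h (ρ - φ₀ θ) < 1)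
    (Finset.mem_filter.2 ⟨(hs _).2 ⟨φ₀, h0, rfl⟩, by simp⟩))
  have h3 : c + 1 ≤ C₀ := by
    have h4 := hg.cong L V h ((Finset.univ.filter fun ρ : s => vv h (ρ - φ₀ θ) < 1).image f) φ₀
      fun φ hφ => by
        obtain ⟨ρ, hρ, rfl⟩ := Finset.mem_image.1 hφ
        refine ⟨Set.forall_mem_range.2 (hf1 ρ), fun a ha => (cg_iff h ((mem_iff h).1 ha)).2 ?_⟩
        by_contra H'
        refine h2 (some ⟨f ρ, hf1 ρ, fun e => H' (e a ((mem_iff h).1 ha))⟩) ?_
        change vv h (f ρ θ - φ₀ θ) < 1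
        rw [hf2]
        exact (Finset.mem_filter.1 hρ).2
    rw [Finset.card_image_of_injective _ fun a b e => Subtype.ext (by rw [← hf2, e, hf2]),
      Finset.univ_eq_attach, Finset.filter_attach (fun ρ => vv h (ρ - φ₀ θ) < 1) s] at h4
    simpa [hc'] using h4
  obtain ⟨h4, h5⟩ := hensel h s (fun ρ hρ => by
    obtain ⟨φ, e1, rfl⟩ := (hs ρ).1 hρ
    exact h1 φ e1) (h1 _ h0) (hc θ (h1 _ h0)) hc' fun e => by
      obtain ⟨d, hd⟩ := Nat.factorial_dvd_factorial h3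
      exact hC (by rw [hd, Nat.cast_mul, e, zero_mul])
  rw [← hμ, iterate_derivative_map, ← Ov.map_aeval h0] at h4 h5
  rw [← hψ.map_aeval] at h5
  have h6 : φ₀ π ≠ 0 := (_root_.map_ne_zero φ₀).2 hπ0
  have h7 := ih (aeval θ (derivative^[c] μ) / π) (by
    rw [map_div₀, map_div₀]
    exact div_le_one_of_le₀ (hπ1 _ h4) zero_le)
  rw [map_div₀, map_div₀, hψ.eq hπ, ← sub_div, map_div₀, h5,
    div_le_iff₀ (zero_lt_iff.2 ((vv h).ne_zero_iff.2 h6)), ← pow_succ] at h7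
  exact h2 none h7

end Unr

section Main

variable {m C₀ : ℕ}

lemma trdeg_adjoin {z : Fin m → L} (hz : AlgebraicIndependent k z) :
    Algebra.trdeg k (adjoin k (Set.range z)) = m := by
  have := IsLocalization.isAlgebraic (FractionRing (MvPolynomial (Fin m) k))
    (nonZeroDivisors (MvPolynomial (Fin m) k))
  rw [← hz.aevalEquivField.trdeg_eq, ← trdeg_add_eq k (MvPolynomial (Fin m) k),
    trdeg_eq_zero (R := MvPolynomial (Fin m) k), MvPolynomial.trdeg_of_isDomain]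
  simp

lemma exists_emb [IsAlgClosed L] {ι : Type} {x : ι → K} (h : Cov k K x C₀) {z : ι → L}
    (hz : AlgebraicIndependent k z) : ∃ j : K →ₐ[k] L, ∀ i, j (x i) = z i := by
  let e : adjoin k (Set.range x) →ₐ[k] L :=
    ((adjoin k (Set.range z)).val.comp hz.aevalEquivField.toAlgHom).comp h.ind.reprField
  let _ := e.toRingHom.toAlgebra
  have : IsScalarTower k (adjoin k (Set.range x)) L :=
    .of_algebraMap_eq fun c => (e.commutes c).symm
  have := h.fin
  let j : K →ₐ[adjoin k (Set.range x)] L := IsAlgClosed.lift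
  refine ⟨j.restrictScalars k, fun i => ?_⟩
  have e1 : x i = algebraMap _ K (h.ind.aevalEquivField (algebraMap _ _ (MvPolynomial.X i :
      MvPolynomial ι k))) :=
    ((h.ind.aevalEquivField_algebraMap_apply_coe _).trans (MvPolynomial.aeval_X _ _)).symm
  rw [e1]
  refine (j.commutes _).trans ?_
  change ((hz.aevalEquivField (h.ind.aevalEquivField.symm _) : adjoin k (Set.range z)) : L) = _
  rw [AlgEquiv.symm_apply_apply, hz.aevalEquivField_algebraMap_apply_coe, MvPolynomial.aeval_X]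

lemma clear {ι α : Type} (z : ι → L) (s : Finset α) (c : α → adjoin k (Set.range z)) :
    ∃ (d : MvPolynomial ι k) (p : α → MvPolynomial ι k), MvPolynomial.aeval z d ≠ 0 ∧
      ∀ i ∈ s, MvPolynomial.aeval z (p i) = MvPolynomial.aeval z d * c i := by
  classical
  have H : ∀ i, ∃ r d : MvPolynomial ι k, MvPolynomial.aeval z d ≠ 0 ∧
      MvPolynomial.aeval z r = MvPolynomial.aeval z d * c i := fun i => by
    obtain ⟨r, d, e⟩ := (mem_adjoin_range_iff k z _).1 (c i).2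
    by_cases h : MvPolynomial.aeval z d = 0
    · exact ⟨0, 1, by simp, by simp [e, h]⟩
    · exact ⟨r, d, h, by rw [e, mul_div_cancel₀ _ h]⟩
  choose r d h1 h2 using H
  refine ⟨∏ i ∈ s, d i, fun i => (∏ j ∈ s.erase i, d j) * r i, ?_, fun i hi => ?_⟩
  · rw [map_prod]
    exact Finset.prod_ne_zero_iff.2 fun i _ => h1 i
  · rw [← Finset.prod_erase_mul s d hi, map_mul, map_mul, h2, mul_assoc]

lemma aeval_mem {ι : Type} (z : ι → L) (P : MvPolynomial ι k) :
    MvPolynomial.aeval z P ∈ adjoin k (Set.range z) :=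
  (mem_adjoin_range_iff k z _).2 ⟨P, 1, by rw [map_one, div_one]⟩

lemma aeval_le (h : Val V) {F : IntermediateField k L} (hF : F.toSubalgebra ≤ V) {Y : L}
    (hY : Y ∈ V) (r : F[X]) : vv h (aeval Y r) ≤ 1 := by
  rw [← mem_iff h, aeval_eq_sum_range]
  exact sum_mem fun i _ => mul_mem (hF (r.coeff i).2) (pow_mem hY i)

lemma exists_root [IsAlgClosed L] (h : Val V) {F : IntermediateField k L}
    (hF : F.toSubalgebra ≤ V) {Y : L} {q : F[X]} (hq : q ≠ 0)
    (hv : vv h (aeval Y q) < 1) : ∃ u ∈ q.aroots L, vv h (Y - u) < 1 := by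
  by_contra H
  push Not at H
  rw [(IsAlgClosed.splits _).aeval_eq_prod_aroots, map_mul, map_multiset_prod, Multiset.map_map,
    v_field h hF (isAlgebraic_algebraMap _)
      ((_root_.map_ne_zero _).2 (leadingCoeff_ne_zero.2 hq)), one_mul] at hv
  refine hv.not_ge (Multiset.one_le_prod_of_one_le fun a ha => ?_)
  obtain ⟨u, hu, rfl⟩ := Multiset.mem_map.1 ha
  exact H u hu

/-- The second alternative: the residue of `Y` lies in a tame extension of the base field. -/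
lemma tame_root [IsAlgClosed L] (h : Val V) {z : Fin m → L} (hz : AlgebraicIndependent k z)
    (hF : (adjoin k (Set.range z)).toSubalgebra ≤ V) {Y u : L}
    (hu : IsAlgebraic (adjoin k (Set.range z)) u) (hv : vv h (Y - u) < 1)
    {x : Fin m → K} {y : K} (hx : Cov k K x C₀)
    (H : ∀ P : MvPolynomial (Fin (m + 1)) k,
      MvPolynomial.aeval (Fin.snoc x y : Fin (m + 1) → K) P = 0 →
      vv h (MvPolynomial.aeval (Fin.snoc z Y : Fin (m + 1) → L) P) < 1) :
    ∃ N, Tame C₀.factorial (adjoin k (Set.range z)) N ∧ u ∈ N := by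
  obtain ⟨j, hj⟩ := exists_emb hx hz
  obtain ⟨N, h1, hN, -⟩ := exists_tame hx j (adjoin k (Set.range z)) fun i =>
    hj i ▸ subset_adjoin _ _ ⟨i, rfl⟩
  refine ⟨N, h1, ?_⟩
  have := h1.fin
  have := h1.gal
  let b : N := ⟨j y, hN j (fun _ => rfl) y⟩
  have hb : IsIntegral _ b := Algebra.IsIntegral.isIntegral (R := adjoin k (Set.range z)) b
  set μ := minpoly (adjoin k (Set.range z)) b
  obtain ⟨d, p, hd, hp⟩ := clear z (Finset.range (μ.natDegree + 1)) μ.coeff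
  let P : MvPolynomial (Fin (m + 1)) k := ∑ i ∈ Finset.range (μ.natDegree + 1),
    MvPolynomial.rename Fin.castSucc (p i) * MvPolynomial.X (Fin.last m) ^ i
  have key : ∀ t : L, MvPolynomial.aeval (Fin.snoc z t : Fin (m + 1) → L) P =
      MvPolynomial.aeval z d * aeval t μ := fun t => by
    rw [aeval_eq_sum_range, Finset.mul_sum, map_sum]
    refine Finset.sum_congr rfl fun i hi => ?_
    rw [map_mul, map_pow, MvPolynomial.aeval_rename, MvPolynomial.aeval_X, Fin.snoc_last,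
      Fin.snoc_comp_castSucc, hp i hi, mul_assoc]
    rfl
  have e1 : aeval (j y) μ = 0 := by
    rw [show j y = algebraMap N L b from rfl, aeval_algebraMap_apply, minpoly.aeval, map_zero]
  have e2 := H P (j.injective (by
    have : (fun i => j ((Fin.snoc x y : Fin (m + 1) → K) i)) = Fin.snoc z (j y) :=
      funext fun i => by refine Fin.lastCases ?_ (fun i => ?_) i <;> simp [hj]
    change j _ = j 0
    rw [MvPolynomial.comp_aeval_apply, this, key, e1, mul_zero, map_zero]))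
  rw [key, map_mul, v_field h hF (x := MvPolynomial.aeval z d)
    (isAlgebraic_algebraMap (⟨_, aeval_mem z d⟩ : adjoin k (Set.range z))) hd, one_mul] at e2
  obtain ⟨u', h2, h3⟩ := exists_root h hF (minpoly.ne_zero hb) e2
  have h4 : u = u' := by
    by_contra e
    have h5 := (vv h).map_sub_lt h3 hv
    rw [sub_sub_sub_cancel_left] at h5
    exact h5.ne (v_field h hF (hu.sub ⟨μ, (mem_aroots.1 h2).1, (mem_aroots.1 h2).2⟩)
      (sub_ne_zero.2 e))
  rw [aroots, IsScalarTower.algebraMap_eq _ N L, ← Polynomial.map_map,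
    (Normal.splits inferInstance b).roots_map, Multiset.mem_map] at h2
  obtain ⟨c, -, e⟩ := h2
  rw [h4, ← e]
  exact c.2

theorem core [Infinite k] [IsAlgClosed L] (hC : (C₀.factorial : k) ≠ 0) (j : K →ₐ[k] L)
    {S : Finset K} {x : Fin m → K} {y : K} (h : Out (k := k) S C₀ x y) (hS : ∀ r ∈ S, r ≠ 0)
    {z : Fin m → L} (hz : ∀ i, j (x i) = z i) :
    AlgebraicIndependent k z ∧ Transcendental (adjoin k (Set.range z)) (j y) ∧
    ∃ (N₀ : IntermediateField (adjoin k (Set.range z)) L)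
      (N : IntermediateField (adjoin k (Set.range z) ⊔ adjoin k {j y} : IntermediateField k L) L)
      (Z : Finset L), (∀ a, j a ∈ N) ∧ (∀ u ∈ Z, u ∈ N₀) ∧ Tame C₀.factorial _ N₀ ∧
      Tame C₀.factorial _ N ∧ ∀ V : Subalgebra k L, Val V →
        (adjoin k (Set.range z)).toSubalgebra ≤ V → j y ∈ V → (∀ u ∈ Z, Un V (j y - u)) →
        (∀ σ : N ≃ₐ[_] N, Ine V σ → σ = 1) ∧ ∀ r ∈ S, Un V (j r) := by
  classical
  set F := adjoin k (Set.range z) with hFz
  set g : Fin (m + 1) → K := Fin.snoc x y with hg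
  have hjg : (fun i => j (g i)) = Fin.snoc z (j y) :=
    funext fun i => by refine Fin.lastCases ?_ (fun i => ?_) i <;> simp [hg, hz]
  have i1 : AlgebraicIndependent k (Fin.snoc z (j y) : Fin (m + 1) → L) :=
    hjg ▸ h.cov.ind.map' j.injective
  have i2 : AlgebraicIndependent k z := by
    simpa using i1.comp _ (Fin.castSucc_injective m)
  have i3 : Transcendental F (j y) := by
    have := i1.transcendental_adjoin (s := Set.range Fin.castSucc) (i := Fin.last m)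
      fun ⟨i, hi⟩ => (Fin.castSucc_lt_last i).ne hi
    rw [← Set.range_comp, Fin.snoc_comp_castSucc, Fin.snoc_last] at this
    exact transcendental_adjoin_iff.2 this
  have hE : ∀ i, j (g i) ∈ F ⊔ adjoin k {j y} := fun i => by
    rw [congrFun hjg i]
    refine Fin.lastCases ?_ (fun i => ?_) i
    · exact (le_sup_right : adjoin k {j y} ≤ _) (by simpa using mem_adjoin_simple_self k _)
    · exact (le_sup_left : F ≤ _) (by simpa using subset_adjoin k _ (Set.mem_range_self (f := z) i))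
  have hE' : ∀ c ∈ F ⊔ adjoin k {j y}, c ∈ F⟮j y⟯ := fun c hc => by
    rwa [← restrictScalars_adjoin_eq_sup] at hc
  obtain ⟨N, hN, hK, hσ⟩ := exists_tame h.cov j _ hE
  have := hN.fin
  obtain ⟨S₀, h1, h2⟩ := bez_base _ N (S.image j) fun f hf => by
    obtain ⟨r, hr, rfl⟩ := Finset.mem_image.1 hf
    exact ⟨hK j (fun _ => rfl) r, (_root_.map_ne_zero j).2 (hS r hr)⟩
  choose r s hrs using fun f : S₀ => (mem_adjoin_simple_iff F _).1 (hE' f (h1 f f.2).1)
  have hR : ∏ f, r f * s f ≠ 0 := Finset.prod_ne_zero_iff.2 fun f _ =>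
    mul_ne_zero (fun e => (h1 f f.2).2 (by simp [hrs, e])) fun e => (h1 f f.2).2 (by simp [hrs, e])
  obtain ⟨N₀, h3, h4⟩ := exists_tame_finset (E := F) (m := C₀.factorial)
    (((∏ f, r f * s f).aroots L).toFinset.filter fun u => ∃ N, Tame C₀.factorial F N ∧ u ∈ N)
    fun u hu => (Finset.mem_filter.1 hu).2
  refine ⟨i2, i3, N₀, N, _, hK j fun _ => rfl, h4, h3, hN, fun V hV hF hY hZ => ?_⟩
  by_cases hv : vv hV (aeval (j y) (∏ f, r f * s f)) < 1
  swap
  · have h5 : ∀ q, q ∣ ∏ f, r f * s f → vv hV (aeval (j y) q) = 1 := fun q ⟨q', e⟩ => by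
      rw [e, map_mul, map_mul, not_lt] at hv
      exact le_antisymm (aeval_le hV hF hY q)
        (hv.trans (mul_le_of_le_one_right' (aeval_le hV hF hY q')))
    have h6 := h2 V hV fun f hf => by
      have := Finset.dvd_prod_of_mem (fun f => r f * s f) (Finset.mem_univ ⟨f, hf⟩)
      rw [un_iff hV, show f = _ from hrs ⟨f, hf⟩, map_div₀, h5 _ (dvd_of_mul_right_dvd this),
        h5 _ (dvd_of_mul_left_dvd this), div_one]
    exact ⟨h6.1, fun r hr => h6.2 _ (Finset.mem_image_of_mem j hr)⟩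
  obtain ⟨u, hu, hu'⟩ := exists_root hV hF hR hv
  obtain ⟨γ, g0, g1, g2⟩ := rat_val hV hF hY i3 hR hv
  have g3 := fun t ht => alg_val hV g0 (fun c hc => g2 c (hE' c hc)) N (z := t) ht
  have key : ∀ φ, Ov g j φ → (∀ r ∈ S, vv hV (φ r) = 1) ∧ ∃ π ∈ adjoin k (Set.range g), π ≠ 0 ∧
      vv hV (φ π) < 1 ∧ ∀ a, vv hV (φ a) < 1 → vv hV (φ a) ≤ vv hV (φ π) := fun φ hφ => by
    have e1 : ∀ i, φ (x i) = z i := fun i => by simpa [hg, hz] using hφ i.castSucc
    have e2 : φ y = j y := by simpa [hg] using hφ (Fin.last m)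
    have e3 : ∀ P, φ (MvPolynomial.aeval g P) =
        MvPolynomial.aeval (Fin.snoc z (j y) : Fin (m + 1) → L) P := fun P => by
      rw [MvPolynomial.comp_aeval_apply, ← hjg, funext hφ]
    obtain ⟨w, w0, w1, w2⟩ := exists_dv hV φ g0 g1 (Nat.factorial_ne_zero _)
      (fun a ha => g3 _ (hK φ hφ a) ((_root_.map_ne_zero φ).2 ha)) (by
        have e4 : aeval (j y) (∏ f, r f * s f) ∈ φ.fieldRange := by
          rw [aeval_eq_sum_range]
          have e5 : F ≤ φ.fieldRange :=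
            adjoin_le_iff.2 (Set.range_subset_iff.2 fun i => ⟨x i, e1 i⟩)
          exact sum_mem fun i _ => mul_mem (e5 (Subtype.prop _))
            (pow_mem (show j y ∈ φ.fieldRange from ⟨y, e2⟩) i)
        obtain ⟨a, ha⟩ := e4
        change φ a = _ at ha
        exact ⟨a, fun e => i3 ⟨_, hR, by rw [← ha, e, map_zero]⟩, ha ▸ hv⟩)
    rcases h.hor w (fun i => (w0 _).2 ((mem_iff hV).1 (hF (e1 i ▸ subset_adjoin k _ ⟨i, rfl⟩))))
      (fun P hP => by
        rw [w1, MvPolynomial.comp_aeval_apply, funext e1] at hP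
        by_contra e
        exact hP.ne (v_field hV hF (isAlgebraic_algebraMap (⟨_, aeval_mem z P⟩ : F))
          fun e' => e (algebraicIndependent_iff.1 i2 P e')))
      ((w0 _).2 ((mem_iff hV).1 (e2 ▸ hY))) with ⟨h5, P, h6⟩ | ⟨E', _, _, x', y', h5, h6⟩
    · refine ⟨fun r hr => le_antisymm ((w0 r).1 (Or.inr (h5 r hr).ge)) (not_lt.1 fun e => ?_),
        _, aeval_mem g P, fun e => ?_, w2 _ h6⟩
      · have := ((w1 r).2 e).resolve_left (hS r hr)
        rw [h5 r hr] at this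
        omega
      · rw [e, w.zero] at h6
        omega
    · refine (((un_iff hV).1 (hZ u (Finset.mem_filter.2 ⟨Multiset.mem_toFinset.2 hu, ?_⟩))).ge.not_gt
        hu').elim
      exact tame_root hV i2 hF ⟨_, hR, (mem_aroots.1 hu).2⟩ hu' h5 fun P hP =>
        e3 P ▸ (w1 _).1 (h6 P hP)
  refine ⟨fun σ h5 => hσ σ fun φ hφ => AlgHom.ext fun a => ?_,
    fun r hr => (un_iff hV).2 ((key j fun _ => rfl).1 r hr)⟩
  obtain ⟨-, π, p1, p2, p3, p4⟩ := key φ hφ
  have h6 : ∀ a, vv hV (φ a) ≤ 1 → cmp σ φ (hK φ hφ) a = φ a := fun a ha => by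
    by_contra e
    obtain ⟨t, ht⟩ := g3 _ (sub_mem (σ ⟨φ a, hK φ hφ a⟩).2 (hK φ hφ a)) (sub_ne_zero.2 e)
    obtain ⟨c, hc⟩ := g3 _ (hK φ hφ π) ((_root_.map_ne_zero φ).2 p2)
    have h7 : 0 < c := (zpow_lt_one_iff_right_of_lt_one₀ g0 g1).1
      (hc ▸ pow_lt_one₀ zero_le p3 (Nat.factorial_ne_zero _))
    have h8 := pow_le_pow_left₀ zero_le (le_pow h.cov hC hV
      (ov_cmp σ (hK φ hφ) fun i => (hφ i).symm ▸ hE i)
      (fun b hb => (ine_iff hV).1 h5 ⟨φ b, hK φ hφ b⟩ hb) p1 p2 p4 (t.toNat + 1) a ha)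
      (Module.finrank (F ⊔ adjoin k {j y} : IntermediateField k L) N).factorial
    rw [cmp_apply, ht, pow_right_comm, hc, ← zpow_natCast, ← zpow_mul,
      zpow_le_zpow_iff_right_of_lt_one₀ g0 g1] at h8
    have := Int.self_le_toNat t
    push_cast at h8
    nlinarith
  rcases hV (φ a) with e | e
  · exact h6 a ((mem_iff hV).1 e)
  · simpa using h6 a⁻¹ ((mem_iff hV).1 (by rwa [map_inv₀]))

/-- The statement of part A from the fibrations. -/
theorem partA_of [Infinite k] [IsAlgClosed L] (hC : (C₀.factorial : k) ≠ 0)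
    (H : ∀ K : IntermediateField k L, K.FG → Algebra.trdeg k K = (m + 1 : ℕ) → ∀ S : Finset K,
      (∀ r ∈ S, r ≠ 0) → ∃ (x : Fin m → K) (y : K), Out (k := k) S C₀ x y) : PartA k L m := by
  classical
  intro K hK hn T hT
  have hS : ∀ r ∈ T.subtype (· ∈ K), r ≠ 0 := fun r hr e =>
    (hT r (Finset.mem_subtype.1 hr)).2 (congrArg Subtype.val e)
  obtain ⟨x, y, h⟩ := H K hK hn _ hS
  obtain ⟨h1, h2, N₀, N, Z, h3, h4, h5, h6, h7⟩ := core hC K.val h hS fun _ => rfl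
  refine ⟨_, _, _, N₀, N, Z, hC, fg_adjoin_of_finite (Set.finite_range _), trdeg_adjoin h1, h2,
    adjoin_le_iff.2 (Set.range_subset_iff.2 fun i => (x i).2), y.2, fun a ha => h3 ⟨a, ha⟩, h4, h5,
    h6, fun V hV hF hY hZ => ⟨(h7 V hV hF hY hZ).1, fun f hf => ?_⟩⟩
  exact (h7 V hV hF hY hZ).2 ⟨f, (hT f hf).1⟩ (Finset.mem_subtype.2 hf)

end Main

/-- A finitely generated extension of a perfect field has a frame. -/
theorem exists_frame [PerfectField k] [Algebra.EssFiniteType k K] {m : ℕ}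
    (h : Algebra.trdeg k K = (m + 1 : ℕ)) :
    ∃ (t : Fin (m + 1) → K) (d : Fin (m + 1) → Derivation k K K), Fr t d := by
  obtain ⟨s, hs, H⟩ := exists_isTranscendenceBasis_and_isSeparable_of_perfectField k K
  have h1 : s.card = m + 1 := by
    have := hs.cardinalMk_eq_trdeg.trans h
    rw [Cardinal.mk_coe_finset] at this
    exact_mod_cast this
  let e := (s.equivFinOfCardEq h1).symm
  have h2 : Set.range (Subtype.val ∘ e) = (s : Set K) := by
    rw [e.surjective.range_comp, Subtype.range_coe_subtype]; rfl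
  rw [← h2] at H
  have := Algebra.EssFiniteType.of_comp k (adjoin k (Set.range (Subtype.val ∘ e))) K
  have : FiniteDimensional (adjoin k (Set.range (Subtype.val ∘ e))) K :=
    Algebra.finite_of_essFiniteType_of_isAlgebraic
  exact ⟨_, exists_fr (hs.1.comp e e.injective)⟩

end Pool.Agent.MP_19ffc6_ag.Res.OutA

namespace Pool.Agent.MP_19ffc6_ag.Res.PA

/-- Module OUT. -/
theorem out_of {k L : Type} [Field k] [Field L] [Algebra k L] [IsAlgClosed k] [IsAlgClosed L] :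
    OutStmt k L := fun m C hC H => by
  refine OutA.partA_of (C₀ := C) ?_ fun K hK hn S hS => ?_
  · rw [← Finset.prod_range_add_one_eq_factorial, Nat.cast_prod]
    exact Finset.prod_ne_zero_iff.2 fun i hi => hC _ i.succ_pos (Finset.mem_range.1 hi)
  · have := IntermediateField.essFiniteType_iff.2 hK
    obtain ⟨t, d, hF⟩ := OutA.exists_frame hn
    exact H K t d S hF hS

end Pool.Agent.MP_19ffc6_ag.Res.PA
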