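import Mathlib.RingTheory.Flat.TorsionFree
import Mathlib.Algebra.Module.Submodule.Union
import Mathlib.LinearAlgebra.Lagrange
import Mathlib.RingTheory.Invariant.Basic
import Mathlib.RingTheory.Valuation.LocalSubring
import Mathlib.RingTheory.SimpleRing.Principal
import Mathlib.RingTheory.AdicCompletion.Completeness
import Mathlib.RingTheory.TotallySplit
import Mathlib.RingTheory.Etale.Weakly
import Mathlib.RingTheory.Henselian
import Mathlib.RingTheory.RegularLocalRing.Defs
import Mathlib.Tactic.Polynomial.Basic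

/-! # Purity of the branch locus by Taylor maps

A finite group `G` acts on a field `L`. -/

set_option autoImplicit false

namespace Pool.Agent.MP_19ffc6_ag.Res

open Polynomial

variable {L : Type} [Field L] {G : Type} [Group G] [MulSemiringAction G L]

variable (G) in
/-- `z` is fixed by the group -/
def Fix (z : L) : Prop := ∀ g : G, g • z = z

/-- all coefficients lie in `A` -/
def Cf (A : Subring L) (f : L[X]) : Prop := ∀ i, f.coeff i ∈ A

lemma cf_iff {A : Subring L} {f : L[X]} : Cf A f ↔ f ∈ (mapRingHom A.subtype).range := by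
  rw [mem_map_range]; simp [Cf]

lemma cf_nodal {ι : Type} (s : Finset ι) (α : ι → L) {A : Subring L} (h : ∀ i, α i ∈ A) :
    Lagrange.nodal s α ∈ (mapRingHom A.subtype).range :=
  prod_mem fun i _ => ⟨X - C ⟨α i, h i⟩, by simp⟩

lemma Cf.eval {A : Subring L} {f : L[X]} (h : Cf A f) {a : L} (ha : a ∈ A) : f.eval a ∈ A := by
  rw [eval_eq_sum_range]
  exact sum_mem fun i _ => mul_mem (h i) (pow_mem ha i)

lemma Cf.derivative {A : Subring L} {f : L[X]} (h : Cf A f) : Cf A (derivative f) := fun i => by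
  rw [coeff_derivative]
  exact mul_mem (h _) (add_mem (natCast_mem _ _) (one_mem _))

lemma fix_coeff {f : L[X]} (h : ∀ g : G, g • f = f) (i : ℕ) : Fix G (f.coeff i) := fun g => by
  conv_rhs => rw [← h g]
  rfl

lemma smul_eval_fix {f : L[X]} (h : ∀ i, Fix G (f.coeff i)) (g : G) (a : L) :
    g • f.eval a = f.eval (g • a) := by
  have : g • f = f := Polynomial.ext fun i => h i g
  rw [← smul_eval_smul, this]

/-- conjugates of an element fixed by `H` -/
def ev (H : Subgroup G) (s : L) (hs : ∀ h ∈ H, h • s = s) : G ⧸ H → L :=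
  Quotient.lift (fun g => g • s) fun a b hab => by
    have := hs _ (QuotientGroup.leftRel_apply.1 hab)
    rw [mul_smul, inv_smul_eq_iff] at this
    exact this.symm

lemma ev_smul (H : Subgroup G) (s : L) (hs : ∀ h ∈ H, h • s = s) (g : G) (q : G ⧸ H) :
    ev H s hs (g • q) = g • ev H s hs q := by
  induction q using QuotientGroup.induction_on with
  | H z => exact mul_smul g z s

lemma smul_nodal {ι : Type} [MulAction G ι] [DecidableEq ι] (α : ι → L)
    (h : ∀ (g : G) i, α (g • i) = g • α i) (g : G) (s t : Finset ι) (hst : ∀ i, i ∈ s ↔ g • i ∈ t) :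
    g • Lagrange.nodal s α = Lagrange.nodal t α := by
  rw [Lagrange.nodal_eq, Lagrange.nodal_eq, Finset.smul_prod']
  refine Finset.prod_equiv (MulAction.toPerm g) hst fun i _ => ?_
  simp [smul_sub, smul_C, h]

/-- Lagrange interpolation over the cosets of `H` -/
theorem lag [Finite G] (H : Subgroup G) (a : L) (ha : ∀ h ∈ H, h • a = a) :
    ∃ f : L[X], f.Monic ∧ f.eval a = 0 ∧ (∀ i, Fix G (f.coeff i)) ∧
      (∀ A : Subring L, (∀ g : G, g • a ∈ A) → Cf A f) ∧
      (∀ M : Submonoid L, (∀ g ∉ H, a - g • a ∈ M) → f.derivative.eval a ∈ M) ∧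
      ∀ s, (∀ h ∈ H, h • s = s) → ∃ p : L[X], (∀ i, Fix G (p.coeff i)) ∧
        p.eval a = s * f.derivative.eval a ∧
        ∀ A : Subring L, (∀ g : G, g • a ∈ A) → (∀ g : G, g • s ∈ A) → Cf A p := by
  classical
  let _ : Fintype (G ⧸ H) := Fintype.ofFinite _
  let o : G ⧸ H := ((1 : G) : G ⧸ H)
  have ho : ∀ (s : L) hs, ev H s hs o = s := fun s hs => one_smul G s
  have hA : ∀ (s : L) hs (A : Subring L), (∀ g : G, g • s ∈ A) → ∀ q, ev H s hs q ∈ A := by
    intro s hs A h q
    induction q using QuotientGroup.induction_on with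
    | H z => exact h z
  have hd : (derivative (Lagrange.nodal Finset.univ (ev H a ha))).eval a =
      (Lagrange.nodal (Finset.univ.erase o) (ev H a ha)).eval a := by
    have := Lagrange.eval_nodal_derivative_eval_node_eq (v := ev H a ha) (Finset.mem_univ o)
    rwa [ho] at this
  refine ⟨Lagrange.nodal Finset.univ (ev H a ha), Lagrange.nodal_monic, ?_,
    fix_coeff fun g => smul_nodal _ (ev_smul H a ha) g _ _ (by simp),
    fun A h => cf_iff.2 (cf_nodal _ _ (hA a ha A h)), fun M h => ?_, fun s hs => ?_⟩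
  · have := Lagrange.eval_nodal_at_node (v := ev H a ha) (Finset.mem_univ o)
    rwa [ho] at this
  · rw [hd, Lagrange.eval_nodal]
    refine prod_mem fun q hq => ?_
    induction q using QuotientGroup.induction_on with
    | H z =>
      refine h z fun hz => (Finset.mem_erase.1 hq).1 ?_
      exact QuotientGroup.eq.2 (by simpa using hz)
  · refine ⟨∑ q, C (ev H s hs q) * Lagrange.nodal (Finset.univ.erase q) (ev H a ha),
      fix_coeff fun g => ?_, ?_, fun A h1 h2 => cf_iff.2 (sum_mem fun q _ =>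
        mul_mem ⟨C ⟨_, hA s hs A h2 q⟩, by simp⟩ (cf_nodal _ _ (hA a ha A h1)))⟩
    · rw [Finset.smul_sum]
      refine Finset.sum_equiv (MulAction.toPerm g) (by simp) fun q _ => ?_
      rw [smul_mul', smul_C, ← ev_smul,
        smul_nodal _ (ev_smul H a ha) g _ (Finset.univ.erase (g • q)) (by simp)]
      rfl
    · rw [eval_finsetSum, Finset.sum_eq_single o, eval_mul, eval_C, ho, hd]
      · intro q _ hq
        have := Lagrange.eval_nodal_at_node (v := ev H a ha)
          (Finset.mem_erase.2 ⟨hq.symm, Finset.mem_univ o⟩)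
        rw [ho] at this
        rw [eval_mul, this, mul_zero]
      · simp

/-! ### the Horner scheme in a valuation ring -/

/-- truncated Horner sums -/
noncomputable def hor (P : L[X]) (j : ℕ) (r : L) : L := (divX^[j] P).eval r

lemma coeff_iter (P : L[X]) (j i : ℕ) : (divX^[j] P).coeff i = P.coeff (i + j) := by
  induction j generalizing i with
  | zero => rfl
  | succ j ih => rw [Function.iterate_succ_apply', coeff_divX, ih]; congr 1; ring

lemma hor_succ (P : L[X]) (j : ℕ) (r : L) : hor P j r = P.coeff j + r * hor P (j + 1) r := by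
  unfold hor
  conv_lhs => rw [← divX_mul_X_add (divX^[j] P)]
  rw [Function.iterate_succ_apply', eval_add, eval_mul, eval_X, eval_C, coeff_iter, zero_add]
  ring

lemma hor_mem (W : ValuationSubring L) {P : L[X]} {d r : L} (h : ∀ i < P.natDegree, d * P.coeff i ∈ W)
    (hr : P.eval r = 0) (hW : r ∉ W) (j : ℕ) (hj : j ≤ P.natDegree) :
    d * hor P j r ∈ W ∧ d * (r * hor P j r) ∈ W := by
  have hi := (W.mem_or_inv_mem r).resolve_left hW
  have h0 : r ≠ 0 := fun e => hW (e ▸ W.zero_mem)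
  induction j with
  | zero =>
    have : hor P 0 r = 0 := hr
    simp [this]
  | succ j ih =>
    have e : d * (r * hor P (j + 1) r) = d * hor P j r - d * P.coeff j := by
      rw [hor_succ P j r]; ring
    have k : d * (r * hor P (j + 1) r) ∈ W := e ▸ sub_mem (ih (by omega)).1 (h j hj)
    refine ⟨?_, k⟩
    have := mul_mem hi k
    rwa [show r⁻¹ * (d * (r * hor P (j + 1) r)) = d * hor P (j + 1) r by field_simp] at this

/-- a root of a monic polynomial whose coefficients have the denominator `d` -/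
lemma root_mem (W : ValuationSubring L) {P : L[X]} (hm : P.Monic) {d r : L} (hd : d ∈ W)
    (h : ∀ i, d * P.coeff i ∈ W) (hr : P.eval r = 0) : d * r ∈ W := by
  by_cases hW : r ∈ W
  · exact mul_mem hd hW
  have := (hor_mem W (fun i _ => h i) hr hW _ le_rfl).2
  have e : hor P P.natDegree r = 1 := by
    have : divX^[P.natDegree] P = 1 := Polynomial.ext fun i => by
      rw [coeff_iter, coeff_one]
      split_ifs with hi
      · rw [hi, zero_add]; exact hm
      · exact coeff_eq_zero_of_natDegree_lt (by omega)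
    simp [hor, this]
  rwa [e, mul_one] at this

/-- every element of `W` is a quotient of elements all of whose conjugates lie in `W` -/
theorem exists_core [Finite G] (W : ValuationSubring L) {w : L} (hw : w ∈ W) :
    ∃ u, W.valuation u = 1 ∧ (∀ g : G, g • u ∈ W) ∧ (∀ g : G, g • (w * u) ∈ W) ∧
      ∀ g : G, g • w = w → g • u = u := by
  classical
  let _ : Fintype G := Fintype.ofFinite _
  set Q := MulSemiringAction.charpoly G w with hQ
  have hm : Q.Monic := MulSemiringAction.monic_charpoly G w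
  obtain ⟨i0, hi0, hmax⟩ := Finset.exists_max_image (Finset.range (Q.natDegree + 1))
    (fun i => W.valuation (Q.coeff i)) ⟨0, by simp⟩
  have h1 : (1 : W.ValueGroup) ≤ W.valuation (Q.coeff i0) := by
    have := hmax Q.natDegree (by simp)
    rwa [show Q.coeff Q.natDegree = 1 from hm, map_one] at this
  have hc : Q.coeff i0 ≠ 0 := fun e => by simp [e] at h1
  have hpos : 0 < W.valuation (Q.coeff i0) := lt_of_lt_of_le zero_lt_one h1
  set P := C (Q.coeff i0)⁻¹ * Q with hP
  have hf : ∀ i, Fix G (P.coeff i) := fun i g => by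
    rw [hP, coeff_C_mul, smul_mul', smul_inv'', MulSemiringAction.smul_coeff_charpoly,
      MulSemiringAction.smul_coeff_charpoly]
  have hW : Cf W.toSubring P := fun i => by
    change _ ∈ W
    rw [← W.valuation_le_one_iff, hP, coeff_C_mul, map_mul, map_inv₀, inv_mul_le_iff₀ hpos, mul_one]
    by_cases hi : i ≤ Q.natDegree
    · exact hmax i (by simpa [Nat.lt_succ_iff] using hi)
    · rw [coeff_eq_zero_of_natDegree_lt (by omega)]; simp
  have hr : ∀ g : G, P.eval (g • w) = 0 := fun g => by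
    rw [← smul_eval_fix hf, hP, eval_mul, MulSemiringAction.eval_charpoly]; simp
  have hin : ∀ j r, r ∈ W → hor P j r ∈ W := fun j r h =>
    Cf.eval (A := W.toSubring) (fun i => by rw [coeff_iter]; exact hW _) h
  have hsm : ∀ j (g : G), g • hor P j w = hor P j (g • w) := fun j g =>
    smul_eval_fix (fun i => by rw [coeff_iter]; exact hf _) g w
  have hdeg : P.natDegree = Q.natDegree := natDegree_C_mul (inv_ne_zero hc)
  have hall : ∀ j (g : G), j ≤ P.natDegree → hor P j (g • w) ∈ W ∧ g • w * hor P j (g • w) ∈ W := by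
    intro j g hj
    by_cases h : g • w ∈ W
    · exact ⟨hin _ _ h, mul_mem h (hin _ _ h)⟩
    · simpa using hor_mem W (d := 1) (fun i _ => by simpa using hW i) (hr g) h j hj
  have hu : ∃ j ≤ P.natDegree, W.valuation (hor P j w) = 1 := by
    by_contra hn
    push Not at hn
    have hlt : ∀ j, W.valuation (hor P j w) < 1 := fun j => by
      by_cases hj : j ≤ P.natDegree
      · exact lt_of_le_of_ne ((W.valuation_le_one_iff _).2 (hin j w hw)) (hn j hj)
      · have : divX^[j] P = 0 := Polynomial.ext fun i => by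
          rw [coeff_iter, coeff_zero]; exact coeff_eq_zero_of_natDegree_lt (by omega)
        simp [hor, this]
    have e : P.coeff i0 = hor P i0 w - w * hor P (i0 + 1) w := by rw [hor_succ P i0 w]; ring
    have : W.valuation (P.coeff i0) < 1 := by
      rw [e]
      refine W.valuation.map_sub_lt (hlt _) ?_
      rw [map_mul]
      exact mul_lt_one_of_nonneg_of_lt_one_right ((W.valuation_le_one_iff _).2 hw) zero_le (hlt _)
    rw [hP, coeff_C_mul, inv_mul_cancel₀ hc, map_one] at this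
    exact lt_irrefl _ this
  obtain ⟨j, hj, hu⟩ := hu
  refine ⟨hor P j w, hu, fun g => ?_, fun g => ?_, fun g h => by rw [hsm, h]⟩
  · rw [hsm]; exact (hall j g hj).1
  · rw [smul_mul', hsm]; exact (hall j g hj).2

/-! ### inertia and families of valuation rings -/

/-- `g` lies in the inertia group of `W` -/
def In (W : ValuationSubring L) (g : G) : Prop := ∀ z ∈ W, W.valuation (g • z - z) < 1

lemma val_eq_one (W : ValuationSubring L) {u w : L} (hu : W.valuation u = 1)
    (h : W.valuation (w - u) < 1) : W.valuation w = 1 := by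
  rw [← hu, ← W.valuation.map_add_eq_of_lt_left (hu ▸ h : W.valuation (w - u) < W.valuation u)]
  congr 1; ring

lemma ne_zero_of_val (W : ValuationSubring L) {u : L} (hu : W.valuation u = 1) : u ≠ 0 :=
  fun e => by simp [e] at hu

lemma inv_mem_of_val (W : ValuationSubring L) {u : L} (hu : W.valuation u = 1) : u⁻¹ ∈ W := by
  rw [← W.valuation_le_one_iff, map_inv₀, hu, inv_one]

/-- inertia can be tested on the elements all of whose conjugates lie in `W` -/
lemma in_of_core [Finite G] (W : ValuationSubring L) (g : G)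
    (h : ∀ s, (∀ g' : G, g' • s ∈ W) → W.valuation (g • s - s) < 1) : In W g := by
  intro w hw
  obtain ⟨u, h1, h2, h3, -⟩ := exists_core (G := G) W hw
  have a := h u h2
  have b := h _ h3
  have c := val_eq_one W h1 a
  have e : (g • w - w) * g • u = (g • (w * u) - w * u) - w * (g • u - u) := by
    rw [smul_mul']; ring
  have : W.valuation ((g • w - w) * g • u) < 1 := by
    rw [e]
    refine W.valuation.map_sub_lt b ?_
    rw [map_mul]
    exact mul_lt_one_of_nonneg_of_lt_one_right ((W.valuation_le_one_iff _).2 hw) zero_le a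
  rwa [map_mul, c, mul_one] at this

/-- a generic linear combination separates finitely many automorphisms -/
lemma exists_sep {k : Type} [Field k] [Infinite k] [Algebra k L] [Finite G] (A : Subring L)
    (W : ValuationSubring L) (hk : ∀ c : k, algebraMap k L c ∈ A ∧ algebraMap k L c ∈ W ∧
      Fix G (algebraMap k L c)) (T : Set G)
    (h : ∀ g ∈ T, ∃ s ∈ A, ¬ W.valuation (g • s - s) < 1) :
    ∃ a ∈ A, ∀ g ∈ T, ¬ W.valuation (g • a - a) < 1 := by
  let A' : Submodule k L :=
    { A.toAddSubmonoid with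
      smul_mem' := fun c x hx => by rw [Algebra.smul_def]; exact A.mul_mem (hk c).1 hx }
  let p : T → Submodule k A' := fun g =>
    { carrier := {s | W.valuation (g.1 • s.1 - s.1) < 1}
      zero_mem' := by simp
      add_mem' := fun {a b} ha hb => by
        have := W.valuation.map_add_lt ha hb
        change W.valuation (g.1 • (a.1 + b.1) - (a.1 + b.1)) < 1
        rwa [smul_add, add_sub_add_comm]
      smul_mem' := fun c x hx => by
        change W.valuation (g.1 • (c • x.1) - c • x.1) < 1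
        rw [Algebra.smul_def, smul_mul', (hk c).2.2, ← mul_sub, map_mul]
        exact mul_lt_one_of_nonneg_of_lt_one_right ((W.valuation_le_one_iff _).2 (hk c).2.1)
          zero_le hx }
  obtain ⟨a, ha⟩ := Submodule.exists_forall_notMem_of_forall_ne_top p fun g hg => by
    obtain ⟨s, hs, hs'⟩ := h g.1 g.2
    have : (⟨s, hs⟩ : A') ∈ p g := hg ▸ Submodule.mem_top
    exact hs' this
  exact ⟨a.1, a.2, fun g hg => ha ⟨g, hg⟩⟩

variable (G) in
/-- `R` is the intersection of the fixed parts of the valuation rings of a stable family, and these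
are localisations of `R` -/
structure Fam (R : Subring L) (𝒲 : Set (ValuationSubring L)) : Prop where
  fix : ∀ r ∈ R, Fix G r
  frac : ∀ z, Fix G z → ∃ u ∈ R, u ≠ 0 ∧ u * z ∈ R
  le : ∀ W ∈ 𝒲, ∀ r ∈ R, r ∈ W
  loc : ∀ W ∈ 𝒲, ∀ z ∈ W, Fix G z → ∃ u ∈ R, W.valuation u = 1 ∧ u * z ∈ R
  kr : ∀ z, Fix G z → (∀ W ∈ 𝒲, z ∈ W) → z ∈ R
  stab : ∀ W ∈ 𝒲, ∀ g : G, ∃ W' ∈ 𝒲, ∀ z, z ∈ W' ↔ g • z ∈ W

/-- the intersection of a family of valuation rings -/
def cl (𝒲 : Set (ValuationSubring L)) : Subring L := ⨅ W ∈ 𝒲, W.toSubring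

lemma mem_cl {𝒲 : Set (ValuationSubring L)} {z : L} : z ∈ cl 𝒲 ↔ ∀ W ∈ 𝒲, z ∈ W := by
  simp [cl, Subring.mem_iInf]

lemma mem_of_isIntegral {R : Subring L} (W : ValuationSubring L) (h : ∀ r ∈ R, r ∈ W) {z : L}
    (hz : IsIntegral R z) : z ∈ W := by
  obtain ⟨P, hm, hP⟩ := hz
  have := root_mem W (hm.map (algebraMap R L)) W.one_mem
    (fun i => by rw [one_mul, coeff_map]; exact h _ (P.coeff i).2) (by rwa [eval_map])
  rwa [one_mul] at this

lemma isIntegral_of_cf {R : Subring L} {P : L[X]} (hm : P.Monic) (h : Cf R P) {z : L}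
    (hz : P.eval z = 0) : IsIntegral R z := by
  obtain ⟨Q, h1, -, h2⟩ := lifts_and_degree_eq_and_monic (f := R.subtype) (cf_iff.1 h) hm
  exact ⟨Q, h2, by rw [← eval_map]; exact h1 ▸ hz⟩

namespace Fam
variable {R : Subring L} {𝒲 : Set (ValuationSubring L)} (F : Fam G R 𝒲)
include F

lemma smul_mem {z : L} (hz : z ∈ cl 𝒲) (g : G) : g • z ∈ cl 𝒲 :=
  mem_cl.2 fun W hW => by
    obtain ⟨W', h1, h2⟩ := F.stab W hW g
    exact (h2 z).1 (mem_cl.1 hz W' h1)

lemma le_cl {r : L} (hr : r ∈ R) : r ∈ cl 𝒲 := mem_cl.2 fun W hW => F.le W hW r hr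

lemma cf {P : L[X]} (h1 : ∀ i, Fix G (P.coeff i)) (h2 : Cf (cl 𝒲) P) : Cf R P :=
  fun i => F.kr _ (h1 i) (mem_cl.1 (h2 i))

/-- the intersection is the integral closure -/
lemma mem_cl_iff [Finite G] {z : L} : z ∈ cl 𝒲 ↔ IsIntegral R z := by
  refine ⟨fun hz => ?_, fun hz => mem_cl.2 fun W hW => mem_of_isIntegral W (F.le W hW) hz⟩
  obtain ⟨f, h1, h2, h3, h4, -⟩ := lag (⊥ : Subgroup G) z (by simp)
  exact isIntegral_of_cf h1 (F.cf h3 (h4 _ (F.smul_mem hz))) h2

lemma cl_le [Finite G] {O : ValuationSubring L} (hO : ∀ r ∈ R, r ∈ O) {z : L} (hz : z ∈ cl 𝒲) :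
    z ∈ O := mem_of_isIntegral O hO (F.mem_cl_iff.1 hz)

omit F in
/-- common denominators for finitely many coefficients -/
lemma denom (M : Submonoid L) {f : L[X]} (h : ∀ i, ∃ u ∈ R, u ∈ M ∧ u * f.coeff i ∈ R) :
    ∃ d ∈ R, d ∈ M ∧ ∀ i, d * f.coeff i ∈ R := by
  classical
  choose u h1 h2 h3 using h
  refine ⟨∏ i ∈ f.support, u i, prod_mem fun i _ => h1 i, prod_mem fun i _ => h2 i, fun i => ?_⟩
  by_cases hi : i ∈ f.support
  · rw [← Finset.prod_erase_mul _ _ hi, mul_assoc]
    exact mul_mem (prod_mem fun i _ => h1 i) (h3 i)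
  · rw [notMem_support_iff.1 hi, mul_zero]; exact R.zero_mem

/-- every element has a denominator in `R` -/
lemma exists_denom [Finite G] (z : L) : ∃ d ∈ R, d ≠ 0 ∧ d * z ∈ cl 𝒲 := by
  obtain ⟨f, h1, h2, h3, -⟩ := lag (⊥ : Subgroup G) z (by simp)
  obtain ⟨d, d1, d2, d3⟩ := denom (R := R) (nonZeroDivisors L) (f := f) fun i => by
    obtain ⟨u, a, b, c⟩ := F.frac _ (h3 i)
    exact ⟨u, a, mem_nonZeroDivisors_of_ne_zero b, c⟩
  exact ⟨d, d1, nonZeroDivisors.ne_zero d2, mem_cl.2 fun W hW =>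
    root_mem W h1 (F.le W hW d d1) (fun i => F.le W hW _ (d3 i)) h2⟩

/-- an element all of whose conjugates lie in `W` has a denominator that is a unit of `W` -/
lemma exists_denom_unit [Finite G] {W : ValuationSubring L} (hW : W ∈ 𝒲) {z : L}
    (hz : ∀ g : G, g • z ∈ W) : ∃ d ∈ R, W.valuation d = 1 ∧ d * z ∈ cl 𝒲 := by
  obtain ⟨f, h1, h2, h3, h4, -⟩ := lag (⊥ : Subgroup G) z (by simp)
  obtain ⟨d, d1, d2, d3⟩ := denom (R := R) (MonoidHom.mker W.valuation) (f := f) fun i =>
    F.loc W hW _ (h4 W.toSubring hz i) (h3 i)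
  exact ⟨d, d1, d2, mem_cl.2 fun W' hW' =>
    root_mem W' h1 (F.le W' hW' d d1) (fun i => F.le W' hW' _ (d3 i)) h2⟩

/-- passage to a subgroup -/
lemma sub [Finite G] (H : Subgroup G) (R' : Subring L)
    (h : ∀ z, z ∈ R' ↔ z ∈ cl 𝒲 ∧ ∀ g ∈ H, g • z = z) : Fam H R' 𝒲 where
  fix r hr g := ((h r).1 hr).2 g.1 g.2
  frac z hz := by
    obtain ⟨d, d1, d2, d3⟩ := F.exists_denom z
    refine ⟨d, (h d).2 ⟨F.le_cl d1, fun g _ => F.fix d d1 g⟩, d2, (h _).2 ⟨d3, fun g hg => ?_⟩⟩
    rw [smul_mul', F.fix d d1 g]; exact congrArg _ (hz ⟨g, hg⟩)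
  le W hW r hr := mem_cl.1 ((h r).1 hr).1 W hW
  loc W hW z hz hf := by
    obtain ⟨u, u1, u2, u3, u4⟩ := exists_core (G := G) W hz
    obtain ⟨d, d1, d2, d3⟩ := F.exists_denom_unit hW u2
    obtain ⟨e, e1, e2, e3⟩ := F.exists_denom_unit hW u3
    have hu : ∀ g ∈ H, g • u = u := fun g hg => u4 g (hf ⟨g, hg⟩)
    refine ⟨e * (d * u), (h _).2 ⟨mul_mem (F.le_cl e1) d3, fun g hg => ?_⟩, by simp [u1, d2, e2],
      (h _).2 ⟨?_, fun g hg => ?_⟩⟩
    · rw [smul_mul', smul_mul', F.fix d d1, F.fix e e1, hu g hg]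
    · rw [show e * (d * u) * z = d * (e * (z * u)) by ring]; exact mul_mem (F.le_cl d1) e3
    · rw [smul_mul', smul_mul', smul_mul', F.fix d d1, F.fix e e1, hu g hg]
      exact congrArg _ (hf ⟨g, hg⟩)
  kr z hz hW := (h z).2 ⟨mem_cl.2 hW, fun g hg => hz ⟨g, hg⟩⟩
  stab W hW g := F.stab W hW g.1

end Fam

/-! ### the divisorial valuation rings over a Noetherian normal ring -/

variable (G) in
/-- the fixed part of `W` is the localisation of `R` at a prime of height one -/
structure Dv (R : Subring L) (W : ValuationSubring L) : Prop where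
  le : ∀ r ∈ R, r ∈ W
  loc : ∀ z ∈ W, Fix G z → ∃ u ∈ R, W.valuation u = 1 ∧ u * z ∈ R
  unif : ∃ π ∈ R, π ≠ 0 ∧ W.valuation π < 1 ∧
    ∀ r ∈ R, r ≠ 0 → ∃ n : ℕ, W.valuation r = W.valuation π ^ n

lemma val_le_iff (W : ValuationSubring L) (a : L) {b : L} (hb : b ≠ 0) :
    W.valuation a ≤ W.valuation b ↔ a / b ∈ W := by
  rw [← W.valuation_le_one_iff, map_div₀, div_le_one₀ ((Valuation.pos_iff _).2 hb)]

lemma val_conj {W W' : ValuationSubring L} {g : G} (h : ∀ z, z ∈ W' ↔ g • z ∈ W) (a b : L) :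
    W'.valuation a ≤ W'.valuation b ↔ W.valuation (g • a) ≤ W.valuation (g • b) := by
  by_cases hb : b = 0
  · simp [hb, smul_eq_zero_iff_eq]
  · rw [val_le_iff _ _ hb, val_le_iff _ _ ((smul_ne_zero_iff_ne g).2 hb), h, smul_div₀']

lemma Dv.conj {R : Subring L} (hR : ∀ r ∈ R, Fix G r) {W : ValuationSubring L} (h : Dv G R W)
    (g : G) : ∃ W', Dv G R W' ∧ ∀ z, z ∈ W' ↔ g • z ∈ W := by
  have e : ∀ z, z ∈ W.comap (MulSemiringAction.toRingHom G L g) ↔ g • z ∈ W := fun _ => Iff.rfl
  set W' := W.comap (MulSemiringAction.toRingHom G L g)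
  have hle : ∀ a b, Fix G a → Fix G b →
      (W'.valuation a ≤ W'.valuation b ↔ W.valuation a ≤ W.valuation b) := fun a b ha hb => by
    rw [val_conj e, ha g, hb g]
  have h1 : Fix G (1 : L) := fun g => smul_one g
  have hlt : ∀ a, Fix G a → (W'.valuation a < 1 ↔ W.valuation a < 1) := fun a ha => by
    have := hle 1 a h1 ha
    rw [map_one, map_one] at this
    rw [← not_le, ← not_le, this]
  refine ⟨W', ⟨fun r hr => (e r).2 ((hR r hr g).symm ▸ h.le r hr), fun z hz hf => ?_, ?_⟩, e⟩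
  · obtain ⟨u, u1, u2, u3⟩ := h.loc z (hf g ▸ (e z).1 hz) hf
    refine ⟨u, u1, le_antisymm ?_ ?_, u3⟩
    · simpa using (hle u 1 (hR u u1) h1).2 (by simp [u2])
    · simpa using (hle 1 u h1 (hR u u1)).2 (by simp [u2])
  · obtain ⟨π, p1, p2, p3, p4⟩ := h.unif
    refine ⟨π, p1, p2, (hlt π (hR π p1)).2 p3, fun r hr h0 => (p4 r hr h0).imp fun n hn => ?_⟩
    rw [← map_pow] at hn ⊢
    exact le_antisymm ((hle _ _ (hR r hr) (hR _ (pow_mem p1 n))).2 hn.le)
      ((hle _ _ (hR _ (pow_mem p1 n)) (hR r hr)).2 hn.ge)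

/-- the ideal of denominators -/
def den (R A : Subring L) (h : R ≤ A) (z : L) : Ideal R where
  carrier := {r | r.1 * z ∈ A}
  zero_mem' := by simp
  add_mem' := fun {a b} ha hb => by
    change (a.1 + b.1) * z ∈ A
    rw [add_mul]; exact A.add_mem ha hb
  smul_mem' := fun c x hx => by
    change (c.1 * x.1) * z ∈ A
    rw [mul_assoc]; exact A.mul_mem (h c.2) hx

/-- the localisation at a prime, inside the field -/
def lc (R : Subring L) (P : Ideal R) [hP : P.IsPrime] : Subring L where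
  carrier := {z | ∃ u : R, u ∉ P ∧ u.1 * z ∈ R}
  zero_mem' := ⟨1, P.one_notMem, by simp⟩
  one_mem' := ⟨1, P.one_notMem, by simp⟩
  add_mem' := by
    rintro a b ⟨u, h1, h2⟩ ⟨w, k1, k2⟩
    refine ⟨u * w, fun h => (hP.mem_or_mem h).elim h1 k1, ?_⟩
    rw [Subring.coe_mul, show u.1 * w.1 * (a + b) = w.1 * (u.1 * a) + u.1 * (w.1 * b) by ring]
    exact R.add_mem (R.mul_mem w.2 h2) (R.mul_mem u.2 k2)
  mul_mem' := by
    rintro a b ⟨u, h1, h2⟩ ⟨w, k1, k2⟩
    refine ⟨u * w, fun h => (hP.mem_or_mem h).elim h1 k1, ?_⟩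
    rw [Subring.coe_mul, show u.1 * w.1 * (a * b) = (u.1 * a) * (w.1 * b) by ring]
    exact R.mul_mem h2 k2
  neg_mem' := by
    rintro a ⟨u, h1, h2⟩
    exact ⟨u, h1, by rw [mul_neg]; exact R.neg_mem h2⟩

/-- a prime that becomes principal in the localisation is the centre of a divisorial ring -/
lemma exists_dv {R : Subring L} [IsNoetherianRing R]
    (hfr : ∀ z, Fix G z → ∃ u ∈ R, u ≠ 0 ∧ u * z ∈ R) (P : Ideal R) [hP : P.IsPrime] (π : R)
    (hπ : π ∈ P) (h0 : π.1 ≠ 0) (hd : ∀ r ∈ P, r.1 / π.1 ∈ lc R P) :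
    ∃ W, Dv G R W ∧ ∀ r : R, W.valuation r.1 < 1 ↔ r ∈ P := by
  have hle : R ≤ lc R P := fun r hr => ⟨1, P.one_notMem, by simpa using hr⟩
  have hinv : ∀ u : R, u ∉ P → u.1 ≠ 0 ∧ u.1⁻¹ ∈ lc R P := fun u hu => by
    have : u.1 ≠ 0 := fun e => hu ((Subtype.ext e : u = 0) ▸ P.zero_mem)
    exact ⟨this, u, hu, by simp [this]⟩
  obtain ⟨W, hW, hn⟩ := Ideal.image_subset_nonunits_valuationSubring
    (Ideal.span {(⟨π.1, hle π.2⟩ : lc R P)}) (by
      rw [Ne, Ideal.span_singleton_eq_top, isUnit_iff_exists_inv]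
      rintro ⟨⟨c, u, u1, u2⟩, hc⟩
      have hc' : π.1 * c = 1 := congrArg Subtype.val hc
      refine u1 ((Subtype.ext ?_ : (⟨_, u2⟩ * π : R) = u) ▸ P.mul_mem_left _ hπ)
      change u.1 * c * π.1 = u.1
      rw [mul_assoc, mul_comm c, hc', mul_one])
  have hv : W.valuation π.1 < 1 := hn ⟨_, Ideal.mem_span_singleton_self _, rfl⟩
  have hu : ∀ u : R, u ∉ P → W.valuation u.1 = 1 := fun u h => by
    have a := (W.valuation_le_one_iff _).2 (hW (hinv u h).2)
    rw [map_inv₀, inv_le_one₀ ((Valuation.pos_iff _).2 (hinv u h).1)] at a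
    exact le_antisymm ((W.valuation_le_one_iff _).2 (hW (hle u.2))) a
  have hp : ∀ r ∈ P, W.valuation r.1 ≤ W.valuation π.1 := fun r h =>
    (val_le_iff W _ h0).2 (hW (hd r h))
  have hiff : ∀ r : R, W.valuation r.1 < 1 ↔ r ∈ P := fun r =>
    ⟨fun h => by_contra fun k => h.ne (hu r k), fun h => (hp r h).trans_lt hv⟩
  have hfac : ∀ r ∈ R, r ≠ 0 → ∃ n : ℕ, r / π.1 ^ n ∈ lc R P ∧ π.1 ^ n / r ∈ lc R P := by
    intro r hr hr0
    have hex : ∃ n : ℕ, r / π.1 ^ (n + 1) ∉ lc R P := by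
      by_contra hc
      push Not at hc
      obtain ⟨n, hn⟩ := monotone_stabilizes_iff_noetherian.2 (inferInstance : IsNoetherian R R)
        ⟨fun n => den R _ hle (π.1 ^ n / r), monotone_nat_of_le_succ fun n s hs => by
          have := mul_mem (hle π.2) hs
          change s.1 * (π.1 ^ (n + 1) / r) ∈ lc R P
          rwa [show s.1 * (π.1 ^ (n + 1) / r) = π.1 * (s.1 * (π.1 ^ n / r)) by ring]⟩
      obtain ⟨u, u1, u2⟩ := hc n
      have k : (⟨_, u2⟩ : R) ∈ den R _ hle (π.1 ^ (n + 1) / r) := by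
        change u.1 * (r / π.1 ^ (n + 1)) * (π.1 ^ (n + 1) / r) ∈ lc R P
        rw [show u.1 * (r / π.1 ^ (n + 1)) * (π.1 ^ (n + 1) / r) = u.1 by field_simp]
        exact hle u.2
      have k2 : (⟨_, u2⟩ : R) ∈ den R _ hle (π.1 ^ n / r) := (hn (n + 1) (by omega)).ge k
      change u.1 * (r / π.1 ^ (n + 1)) * (π.1 ^ n / r) ∈ lc R P at k2
      rw [show u.1 * (r / π.1 ^ (n + 1)) * (π.1 ^ n / r) = u.1 / π.1 by
        field_simp; ring] at k2
      have := (val_le_iff W _ h0).2 (hW k2)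
      rw [hu u u1] at this
      exact this.not_gt hv
    classical
    have h1 : r / π.1 ^ Nat.find hex ∈ lc R P := by
      rcases e : Nat.find hex with _ | n
      · simpa using hle hr
      · exact not_not.1 (Nat.find_min hex (by omega))
    refine ⟨_, h1, ?_⟩
    obtain ⟨u, u1, u2⟩ := h1
    have hs : (⟨_, u2⟩ : R) ∉ P := fun h => Nat.find_spec hex (by
      have := mul_mem (hinv u u1).2 (hd _ h)
      have hu0 := (hinv u u1).1
      rwa [show u.1⁻¹ * (u.1 * (r / π.1 ^ Nat.find hex) / π.1) = r / π.1 ^ (Nat.find hex + 1) by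
        field_simp; ring] at this)
    refine ⟨_, hs, ?_⟩
    change u.1 * (r / π.1 ^ Nat.find hex) * (π.1 ^ Nat.find hex / r) ∈ R
    rw [show u.1 * (r / π.1 ^ Nat.find hex) * (π.1 ^ Nat.find hex / r) = u.1 by field_simp]
    exact u.2
  refine ⟨W, ⟨fun r hr => hW (hle hr), fun z hz hf => ?_, π.1, π.2, h0, hv,
    fun r hr h => (hfac r hr h).imp fun n hn => by
      rw [← map_pow]
      exact le_antisymm ((val_le_iff W _ (pow_ne_zero _ h0)).2 (hW hn.1))
        ((val_le_iff W _ h).2 (hW hn.2))⟩, hiff⟩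
  suffices z ∈ lc R P by
    obtain ⟨u, u1, u2⟩ := this
    exact ⟨u.1, u.2, hu u u1, u2⟩
  by_cases hz0 : z = 0
  · exact hz0 ▸ zero_mem _
  obtain ⟨b, b1, b2, b3⟩ := hfr z hf
  obtain ⟨n, n1, n2⟩ := hfac _ b3 (mul_ne_zero b2 hz0)
  obtain ⟨m, m1, m2⟩ := hfac _ b1 b2
  rcases le_or_gt m n with h | h
  · obtain ⟨j, rfl⟩ := Nat.exists_eq_add_of_le h
    have := mul_mem (mul_mem n1 m2) (pow_mem (hle π.2) j)
    rwa [show b * z / π.1 ^ (m + j) * (π.1 ^ m / b) * π.1 ^ j = z by field_simp; ring] at this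
  · obtain ⟨j, rfl⟩ := Nat.exists_eq_add_of_lt h
    have : _ ∈ W := mul_mem (mul_mem (hW (mul_mem n2 m1)) (hW (pow_mem (hle π.2) j))) hz
    rw [show π.1 ^ n / (b * z) * (b / π.1 ^ (n + j + 1)) * π.1 ^ j * z = 1 / π.1 by
      field_simp; ring, ← val_le_iff W _ h0, map_one] at this
    exact absurd this hv.not_ge

/-- KRULL: a Noetherian normal ring is the intersection of its divisorial valuation rings -/
theorem fam_dv {R : Subring L} [IsNoetherianRing R] (hfix : ∀ r ∈ R, Fix G r)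
    (hfr : ∀ z, Fix G z → ∃ u ∈ R, u ≠ 0 ∧ u * z ∈ R)
    (hn : ∀ z, Fix G z → IsIntegral R z → z ∈ R) : Fam G R {W | Dv G R W} where
  fix := hfix
  frac := hfr
  le _ h := h.le
  loc _ h := h.loc
  stab _ h g := h.conj hfix g
  kr z hz hW := by
    by_contra hzR
    obtain ⟨_, ⟨w, hw, rfl⟩, hmax⟩ := set_has_maximal_iff_noetherian.2
      (inferInstance : IsNoetherian R R)
      ((fun w : R => den R R le_rfl (w.1 * z)) '' {w | w.1 * z ∉ R}) ⟨_, 1, by simpa using hzR, rfl⟩
    set P := den R R le_rfl (w.1 * z) with hPd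
    have hmem : ∀ r : R, r ∈ P ↔ r.1 * (w.1 * z) ∈ R := fun _ => Iff.rfl
    have hP : P.IsPrime := ⟨fun e => hw (by simpa using (hmem 1).1 (e ▸ Submodule.mem_top)),
      fun {a b} hab => or_iff_not_imp_right.2 fun hb => by
        have e : ∀ r : R, r.1 * ((b * w : R).1 * z) = (r * b : R).1 * (w.1 * z) := fun r => by
          push_cast; ring
        have hle : P ≤ den R R le_rfl ((b * w : R).1 * z) := fun r hr => by
          change r.1 * _ ∈ R
          rw [e]; exact (hmem _).1 (P.mul_mem_right b hr)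
        have := (lt_or_eq_of_le hle).resolve_left (hmax _ ⟨b * w, fun h => hb (by
          rw [hmem, ← mul_assoc]; exact h), rfl⟩)
        rw [this]
        change a.1 * _ ∈ R
        rw [e]; exact hab⟩
    have hf : Fix G (w.1 * z) := fun g => by rw [smul_mul', hfix _ w.2, hz]
    obtain ⟨π, hπ, hu⟩ : ∃ π, ∃ h : π ∈ P, (⟨_, (hmem π).1 h⟩ : R) ∉ P := by
      by_contra hc
      push Not at hc
      refine hw (hn _ hf (isIntegral_of_smul_mem_submodule (Submodule.map (Algebra.linearMap R L) P) ?_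
        ((IsNoetherian.noetherian P).map _) _ ?_))
      · obtain ⟨u, u1, u2, u3⟩ := hfr _ hf
        exact (Submodule.ne_bot_iff _).2 ⟨u, ⟨⟨u, u1⟩, u3, rfl⟩, u2⟩
      · rintro _ ⟨r, hr, rfl⟩
        exact ⟨_, hc r hr, mul_comm _ _⟩
    have h0 : π.1 ≠ 0 := fun e => hu (by
      have : (⟨_, (hmem π).1 hπ⟩ : R) = 0 := Subtype.ext (by simp [e])
      exact this ▸ P.zero_mem)
    obtain ⟨W, h1, h2⟩ := exists_dv hfr P π hπ h0 fun r hr => ⟨_, hu, by
      change π.1 * (w.1 * z) * (r.1 / π.1) ∈ R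
      rw [show π.1 * (w.1 * z) * (r.1 / π.1) = r.1 * (w.1 * z) by field_simp]
      exact hr⟩
    refine hu ((h2 _).1 ?_)
    change W.valuation (π.1 * (w.1 * z)) < 1
    rw [map_mul]
    exact mul_lt_one_of_nonneg_of_lt_one_left zero_le ((h2 π).2 hπ)
      ((W.valuation_le_one_iff _).2 (mul_mem (h1.le _ w.2) (hW W h1)))

/-! ### Taylor maps -/

section Taylor
open MvPowerSeries (constantCoeff)
variable {σ : Type}

lemma mem_span_X {A : Type} [CommRing A] (T : Finset σ) (f : MvPowerSeries σ A)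
    (h : ∀ α : σ →₀ ℕ, (∀ i ∈ T, α i = 0) → MvPowerSeries.coeff α f = 0) :
    f ∈ Ideal.span ((fun i => (MvPowerSeries.X i : MvPowerSeries σ A)) '' T) := by
  classical
  induction T using Finset.induction_on generalizing f with
  | empty =>
    have : f = 0 := MvPowerSeries.ext fun α => h α (by simp)
    simp [this]
  | insert s T hs ih =>
    let ψ : MvPowerSeries σ A := fun α => if α s = 0 then MvPowerSeries.coeff α f else 0
    have hψ : ∀ α, MvPowerSeries.coeff α ψ = if α s = 0 then MvPowerSeries.coeff α f else 0 :=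
      fun _ => rfl
    obtain ⟨c, hc⟩ : MvPowerSeries.X s ∣ f - ψ := MvPowerSeries.X_dvd_iff.2 fun α hα => by
      rw [map_sub, hψ, if_pos hα, sub_self]
    rw [show f = MvPowerSeries.X s * c + ψ by rw [← hc]; ring]
    refine Ideal.add_mem _ (Ideal.mul_mem_right _ _ (Ideal.subset_span ⟨s, by simp, rfl⟩))
      (Ideal.span_mono (Set.image_mono (by simp)) (ih ψ fun α hα => ?_))
    rw [hψ]
    split_ifs with h0
    · exact h α (by simpa [h0] using hα)
    · rfl

lemma mem_span_iff [Finite σ] {A : Type} [CommRing A] (f : MvPowerSeries σ A) :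
    f ∈ Ideal.span (Set.range (MvPowerSeries.X : σ → MvPowerSeries σ A)) ↔ constantCoeff f = 0 := by
  let _ := Fintype.ofFinite σ
  refine ⟨fun h => ?_, fun h => ?_⟩
  · exact (Ideal.span_le.2 (Set.range_subset_iff.2 fun i => by simp) :
      _ ≤ RingHom.ker (constantCoeff (σ := σ) (R := A))) h
  · have := mem_span_X Finset.univ f fun α hα => by
      rwa [show α = 0 from Finsupp.ext fun i => hα i (Finset.mem_univ _)]
    rwa [Finset.coe_univ, Set.image_univ] at this

/-- lifting of a point to a formal neighbourhood -/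
lemma exists_lift [Finite σ] {P A B : Type} [CommRing P] [CommRing A] [CommRing B] [Algebra P A]
    [Algebra.FormallySmooth P A] (ψ : P →+* MvPowerSeries σ B) (e : A →+* B)
    (h : ∀ p, constantCoeff (ψ p) = e (algebraMap P A p)) :
    ∃ τ : A →+* MvPowerSeries σ B, (∀ p, τ (algebraMap P A p) = ψ p) ∧
      ∀ a, constantCoeff (τ a) = e a := by
  let _ := ψ.toAlgebra
  obtain ⟨τ, hτ⟩ := Algebra.FormallySmooth.exists_mkₐ_comp_eq_of_isAdicComplete (R := P) (A := A)
    (I := Ideal.span (Set.range (MvPowerSeries.X : σ → MvPowerSeries σ B)))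
    ⟨(Ideal.Quotient.mk _).comp (MvPowerSeries.C.comp e), fun p =>
      Ideal.Quotient.eq.2 ((mem_span_iff _).2 (by
        change constantCoeff (MvPowerSeries.C (e (algebraMap P A p)) - ψ p) = 0
        simp [h]))⟩
  refine ⟨τ, τ.commutes, fun a => ?_⟩
  have := (mem_span_iff _).1 (Ideal.Quotient.eq.1 (AlgHom.congr_fun hτ a))
  change constantCoeff (τ a - MvPowerSeries.C (e a)) = 0 at this
  simpa [sub_eq_zero] using this

lemma hom_eval {A B : Type} [CommRing A] [CommRing B] (φ : A →+* B) (p : A[X]) (r : A) :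
    φ (p.eval r) = (p.map φ).eval (φ r) := by rw [eval_map, eval₂_at_apply]

/-- the field is formally smooth over a ring whose fraction field is the fixed field -/
lemma formallySmooth [Finite G] {R : Subring L} (hfix : ∀ r ∈ R, Fix G r)
    (hfr : ∀ z, Fix G z → ∃ u ∈ R, u ≠ 0 ∧ u * z ∈ R) : Algebra.FormallySmooth R L := by
  let K := FixedPoints.subfield G L
  have hle : R ≤ K.toSubring := hfix
  let _ : Algebra R K := (Subring.inclusion hle).toAlgebra
  have : IsScalarTower R K L := .of_algebraMap_eq fun _ => rfl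
  have : FaithfulSMul R K := (faithfulSMul_iff_algebraMap_injective _ _).2
    (Subring.inclusion_injective hle)
  have : IsFractionRing R K := IsFractionRing.of_field R K fun z => by
    obtain ⟨u, u1, u2, u3⟩ := hfr z.1 z.2
    exact ⟨⟨_, u3⟩, ⟨u, u1⟩, Subtype.ext (by
      change z.1 = u * z.1 / u
      field_simp)⟩
  have := Algebra.FormallyEtale.of_isLocalization (Rₘ := K) (nonZeroDivisors R)
  have := Algebra.FormallyEtale.of_isSeparable K L
  have := Algebra.FormallyEtale.comp R K L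
  infer_instance

/-- uniqueness of the extension of a Taylor map -/
lemma tay_ext [Finite G] {R : Subring L} (hfr : ∀ z, Fix G z → ∃ u ∈ R, u ≠ 0 ∧ u * z ∈ R)
    {τ τ' : L →+* MvPowerSeries σ L} (h : ∀ z, constantCoeff (τ z) = z)
    (h' : ∀ z, constantCoeff (τ' z) = z) (e : ∀ r ∈ R, τ r = τ' r) (z : L) : τ z = τ' z := by
  have hfix : ∀ z, Fix G z → τ z = τ' z := fun z hz => by
    obtain ⟨u, u1, u2, u3⟩ := hfr z hz
    have := e _ u3
    rw [map_mul, map_mul, ← e u u1] at this
    exact (u2.isUnit.map τ).mul_left_cancel this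
  obtain ⟨f, -, h2, h3, -, h5, -⟩ := lag (MulAction.stabilizer G z) z fun _ hg => hg
  have hd := nonZeroDivisors.ne_zero (h5 (nonZeroDivisors L) fun g hg =>
    mem_nonZeroDivisors_of_ne_zero (sub_ne_zero.2 fun e => hg e.symm))
  have hf : f.map τ = f.map τ' := Polynomial.ext fun i => by
    rw [coeff_map, coeff_map, hfix _ (h3 i)]
  refine IsLocalRing.eq_of_eval_eq_zero_of_not_isUnit_sub (f := f.map τ) ?_ ?_ ?_ ?_
  · rw [← hom_eval, h2, map_zero]
  · rw [hf, ← hom_eval, h2, map_zero]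
  · rw [MvPowerSeries.isUnit_iff_constantCoeff, map_sub, h, h', sub_self]; exact not_isUnit_zero
  · rw [derivative_map, ← hom_eval]; exact hd.isUnit.map τ

/-- series with coefficients in `A` -/
noncomputable def ov (A : Subring L) : Subring (MvPowerSeries σ L) := (MvPowerSeries.map A.subtype).range

lemma mem_ov {A : Subring L} {f : MvPowerSeries σ L} :
    f ∈ ov A ↔ ∀ α, MvPowerSeries.coeff α f ∈ A :=
  ⟨by rintro ⟨g, rfl⟩ α; exact (MvPowerSeries.coeff α g).2,
    fun h => ⟨f.toSubring A h, MvPowerSeries.map_toSubring ..⟩⟩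

lemma ov_mono {A B : Subring L} (h : A ≤ B) {f : MvPowerSeries σ L} (hf : f ∈ ov A) : f ∈ ov B :=
  mem_ov.2 fun α => h (mem_ov.1 hf α)

lemma ov_cancel {A : Subring L} {f g : MvPowerSeries σ L} (hf : f ∈ ov A) (hg : f * g ∈ ov A)
    (h0 : constantCoeff f ≠ 0) (hi : (constantCoeff f)⁻¹ ∈ A) : g ∈ ov A := by
  obtain ⟨f, rfl⟩ := hf
  rw [MvPowerSeries.constantCoeff_map] at h0 hi
  obtain ⟨e, he⟩ := (MvPowerSeries.isUnit_iff_constantCoeff.2 (IsUnit.of_mul_eq_one
    (⟨_, hi⟩ : A) (Subtype.ext (mul_inv_cancel₀ h0)) : IsUnit (constantCoeff f))).exists_left_inv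
  have := mul_mem (⟨e, rfl⟩ : _ ∈ ov A) hg
  rwa [← mul_assoc, ← map_mul, he, map_one, one_mul] at this

/-- Hensel's lemma: a simple root has its Taylor coefficients in `A` -/
lemma ov_root [Finite σ] {A : Subring L} {τ : L →+* MvPowerSeries σ L}
    (h : ∀ z, constantCoeff (τ z) = z) {f : L[X]} (hm : f.Monic) (hf : ∀ i, τ (f.coeff i) ∈ ov A)
    {a : L} (ha : a ∈ A) (h1 : f.eval a = 0) (h2 : f.derivative.eval a ≠ 0)
    (h3 : (f.derivative.eval a)⁻¹ ∈ A) : τ a ∈ ov A := by
  obtain ⟨Q, q1, -, q2⟩ := lifts_and_degree_eq_and_monic (f := MvPowerSeries.map (σ := σ) A.subtype)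
    (p := f.map τ) (lifts_iff_coeff_lifts _ |>.2 fun i => by rw [coeff_map]; exact hf i) (hm.map τ)
  have hc : (constantCoeff : MvPowerSeries σ L →+* L).comp τ = RingHom.id L := RingHom.ext h
  have key : ∀ (Q' : (MvPowerSeries σ A)[X]) (g : L[X]),
      Q'.map (MvPowerSeries.map A.subtype) = g.map τ →
      (constantCoeff (Q'.eval (MvPowerSeries.C ⟨a, ha⟩)) : A).1 = g.eval a := fun Q' g e => by
    change A.subtype _ = _
    rw [← MvPowerSeries.constantCoeff_map, hom_eval, e, hom_eval, Polynomial.map_map, hc,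
      Polynomial.map_id]
    simp
  have k2 := key (derivative Q) (derivative f) (by rw [← derivative_map, q1, derivative_map])
  obtain ⟨b, b1, b2⟩ := HenselianRing.is_henselian
    (I := Ideal.span (Set.range (MvPowerSeries.X : σ → MvPowerSeries σ A))) Q q2
    (MvPowerSeries.C ⟨a, ha⟩) ((mem_span_iff _).2 (Subtype.ext ((key Q f q1).trans h1)))
    (IsUnit.map _ (MvPowerSeries.isUnit_iff_constantCoeff.2 (IsUnit.of_mul_eq_one
      (⟨_, h3⟩ : A) (Subtype.ext (by rw [Subring.coe_mul, k2]; exact mul_inv_cancel₀ h2)))))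
  refine ⟨b, (IsLocalRing.eq_of_eval_eq_zero_of_not_isUnit_sub (f := f.map τ) ?_ ?_ ?_ ?_).symm⟩
  · rw [← hom_eval, h1, map_zero]
  · rw [← q1, ← hom_eval, b1.eq_zero, map_zero]
  · have := (mem_span_iff _).1 b2
    rw [map_sub, sub_eq_zero] at this
    rw [MvPowerSeries.isUnit_iff_constantCoeff, map_sub, h, MvPowerSeries.constantCoeff_map, this]
    simp
  · rw [derivative_map, ← hom_eval]; exact h2.isUnit.map τ

variable (G) in
/-- an equivariant Taylor map -/
structure Tay (τ : L →+* MvPowerSeries σ L) : Prop where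
  const : ∀ z, constantCoeff (τ z) = z
  equiv : ∀ (g : G) z α, MvPowerSeries.coeff α (τ (g • z)) = g • MvPowerSeries.coeff α (τ z)

/-- a Taylor map that preserves `R` is equivariant -/
lemma tay_of [Finite G] {R : Subring L} (hfix : ∀ r ∈ R, Fix G r)
    (hfr : ∀ z, Fix G z → ∃ u ∈ R, u ≠ 0 ∧ u * z ∈ R) {τ : L →+* MvPowerSeries σ L}
    (h : ∀ z, constantCoeff (τ z) = z) (hR : ∀ r ∈ R, τ r ∈ ov R) : Tay G τ where
  const := h
  equiv g z α := by
    have := tay_ext hfr h (τ' := (MvPowerSeries.map (MulSemiringAction.toRingHom G L g)).comp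
      (τ.comp (MulSemiringAction.toRingHom G L g⁻¹))) (fun z => by simp [h])
      (fun r hr => MvPowerSeries.ext fun α => by
        simp [hfix r hr g⁻¹, hfix _ (mem_ov.1 (hR r hr) α) g]) (g • z)
    simp [this]

variable {k : Type} [Field k] [Infinite k] [Algebra k L] [Finite G] [Finite σ]
  {R : Subring L} {𝒲 : Set (ValuationSubring L)} {τ : L →+* MvPowerSeries σ L}

/-- the Taylor map preserves the integral closure when there is no inertia in codimension one -/
theorem Fam.ov_cl (F : Fam G R 𝒲) (hk : ∀ c : k, algebraMap k L c ∈ R) (T : Tay G τ)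
    (hR : ∀ r ∈ R, τ r ∈ ov R) (hI : ∀ W ∈ 𝒲, ∀ g : G, In W g → g = 1) {s : L} (hs : s ∈ cl 𝒲) :
    τ s ∈ ov (cl 𝒲) := by
  suffices ∀ W ∈ 𝒲, τ s ∈ ov W.toSubring from
    mem_ov.2 fun α => mem_cl.2 fun W hW => mem_ov.1 (this W hW) α
  intro W hW
  have hV : ∀ z ∈ W, Fix G z → τ z ∈ ov W.toSubring := fun z hz hf => by
    obtain ⟨u, u1, u2, u3⟩ := F.loc W hW z hz hf
    refine ov_cancel (ov_mono (F.le W hW) (hR u u1)) (map_mul τ u z ▸ ov_mono (F.le W hW) (hR _ u3))
      ?_ ?_ <;> rw [T.const]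
    exacts [ne_zero_of_val W u2, inv_mem_of_val W u2]
  obtain ⟨a, ha, hsep⟩ := exists_sep (k := k) (cl 𝒲) W
    (fun c => ⟨F.le_cl (hk c), F.le W hW _ (hk c), F.fix _ (hk c)⟩) {g : G | g ≠ 1} fun g hg => by
      by_contra hc
      push Not at hc
      refine hg (hI W hW g (in_of_core W g fun s hs => ?_))
      obtain ⟨d, d1, d2, d3⟩ := F.exists_denom_unit hW hs
      have := hc _ d3
      rwa [smul_mul', F.fix d d1, ← mul_sub, map_mul, d2, one_mul] at this
  have haW : ∀ g : G, g • a ∈ W := fun g => mem_cl.1 (F.smul_mem ha g) W hW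
  obtain ⟨f, h1, h2, h3, h4, h5, h6⟩ := lag (⊥ : Subgroup G) a (by simp)
  have hd : W.valuation (f.derivative.eval a) = 1 :=
    h5 (MonoidHom.mker W.valuation) fun g hg => by
      refine le_antisymm ((W.valuation_le_one_iff _).2 (sub_mem (mem_cl.1 ha W hW) (haW g))) ?_
      rw [Valuation.map_sub_swap]
      exact not_lt.1 (hsep g hg)
  have hτa := ov_root T.const h1 (fun i => hV _ (h4 W.toSubring haW i) (h3 i)) (mem_cl.1 ha W hW) h2
    (ne_zero_of_val W hd) (inv_mem_of_val W hd)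
  have hev : ∀ s ∈ cl 𝒲, τ (f.derivative.eval a) * τ s ∈ ov W.toSubring := fun s hs => by
    obtain ⟨p, p1, p2, p3⟩ := h6 s (by simp)
    rw [← map_mul, mul_comm, ← p2, eval_eq_sum_range, map_sum]
    refine sum_mem fun i _ => ?_
    rw [map_mul, map_pow]
    exact mul_mem (hV _ (p3 W.toSubring haW (fun g => mem_cl.1 (F.smul_mem hs g) W hW) i) (p1 i))
      (pow_mem hτa i)
  refine ov_cancel (by simpa using hev 1 (one_mem _)) (hev s hs) ?_ ?_ <;> rw [T.const]
  exacts [ne_zero_of_val W hd, inv_mem_of_val W hd]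

/-- PURITY: no inertia in codimension one implies no inertia at a point `O` at which the Taylor
expansion is faithful -/
theorem Fam.purity [FaithfulSMul G L] (F : Fam G R 𝒲) (hk : ∀ c : k, algebraMap k L c ∈ R)
    (T : Tay G τ) (hR : ∀ r ∈ R, τ r ∈ ov R) (hI : ∀ W ∈ 𝒲, ∀ g : G, In W g → g = 1)
    (O : ValuationSubring L) (hO : ∀ r ∈ R, r ∈ O)
    (inj : ∀ r ∈ R, (∀ α, O.valuation (MvPowerSeries.coeff α (τ r)) < 1) → r = 0) (g : G)
    (hg : ∀ s ∈ cl 𝒲, O.valuation (g • s - s) < 1) : g = 1 := by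
  classical
  let _ : Fintype G := Fintype.ofFinite _
  have key : ∀ s ∈ cl 𝒲, g • s = s := fun s hs => by
    have hz : g • s - s ∈ cl 𝒲 := sub_mem (F.smul_mem hs g) hs
    have hrest : ∏ h ∈ Finset.univ.erase (1 : G), h • (g • s - s) ∈ cl 𝒲 :=
      prod_mem fun h _ => F.smul_mem hz h
    have hN : ∏ h : G, h • (g • s - s) =
        (g • s - s) * ∏ h ∈ Finset.univ.erase (1 : G), h • (g • s - s) := by
      rw [← Finset.mul_prod_erase _ _ (Finset.mem_univ (1 : G)), one_smul]
    have := inj _ (F.kr _ (fun h => Finset.smul_prod_perm _ h)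
      (mem_cl.1 (hN ▸ mul_mem hz hrest))) fun α => by
        rw [hN, map_mul, MvPowerSeries.coeff_mul]
        refine O.valuation.map_sum_lt one_ne_zero fun p _ => ?_
        rw [map_mul, map_sub, map_sub, T.equiv]
        exact mul_lt_one_of_nonneg_of_lt_one_left zero_le
          (hg _ (mem_ov.1 (F.ov_cl hk T hR hI hs) _))
          ((O.valuation_le_one_iff _).2 (F.cl_le hO (mem_ov.1 (F.ov_cl hk T hR hI hrest) _)))
    obtain ⟨h, -, hh⟩ := Finset.prod_eq_zero_iff.1 this
    exact sub_eq_zero.1 ((smul_eq_zero_iff_eq h).1 hh)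
  refine eq_of_smul_eq_smul (α := L) fun z => ?_
  obtain ⟨d, d1, d2, d3⟩ := F.exists_denom z
  have := key _ d3
  rw [smul_mul', F.fix d d1] at this
  rw [one_smul, mul_left_cancel₀ d2 this]

end Taylor

end Pool.Agent.MP_19ffc6_ag.Res
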