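import Pool.Agent.MP_19ffc6_ag.Res.ASpec
import Pool.Agent.MP_19ffc6_ag.Res.Pur

/-! PROJECT RES, part A, module START: the first linear system and its potential. -/

namespace Pool.Agent.MP_19ffc6_ag.Res.PA

open Pool.Agent.MP_19ffc6_ag.Wild Submodule Filter Module

variable {k K : Type} [Field k] [Field K] [Algebra k K] {m : ℕ}

namespace Sta

section val

open Polynomial

variable {w : DV k K} {x y : K}

theorem ord_one (w : DV k K) : w.ord 1 = 0 := by simpa using w.cst 1

theorem ord_inv (w : DV k K) (x : K) : w.ord x⁻¹ = - w.ord x := by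
  by_cases h : x = 0
  · simp [h, w.zero]
  have := w.mul x x⁻¹ h (inv_ne_zero h)
  rw [mul_inv_cancel₀ h, ord_one] at this
  omega

theorem mem_fil {a : ℤ} : x ∈ w.fil a ↔ x = 0 ∨ a ≤ w.ord x := Iff.rfl

theorem mem_fil0 : x ∈ w.fil 0 ↔ 0 ≤ w.ord x :=
  ⟨fun h => h.elim (fun e => by rw [e, w.zero]) id, Or.inr⟩

theorem val_vr (w : DV k K) : Val w.vr := fun x => by
  rw [DV.mem_vr, DV.mem_vr, mem_fil0, mem_fil0, ord_inv]
  omega

theorem inv_mem (h : x ∉ w.fil 1) : x⁻¹ ∈ w.fil 0 := by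
  rw [mem_fil, not_or] at h
  rw [mem_fil0, ord_inv]
  omega

theorem one_notMem (w : DV k K) : (1 : K) ∉ w.fil 1 := by
  rw [mem_fil, ord_one]
  simp

theorem mul_mem1 (hx : x ∈ w.fil 0) (hy : y ∈ w.fil 1) : x * y ∈ w.fil 1 := by
  simpa using DV.mul_fil hx hy

/-- The maximal ideal of the valuation ring. -/
def mx (w : DV k K) : Ideal w.vr where
  carrier := {x | x.1 ∈ w.fil 1}
  zero_mem' := zero_mem (w.fil 1)
  add_mem' := fun a b => (w.fil 1).add_mem a b
  smul_mem' := fun c _ h => mul_mem1 c.2 h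

theorem mx_prime (w : DV k K) : (mx w).IsPrime := by
  refine ⟨(Ideal.ne_top_iff_one _).2 (one_notMem w), fun {a b} h => ?_⟩
  by_contra hc
  rw [not_or] at hc
  have h1 := mul_mem1 (inv_mem hc.1) (show a.1 * b.1 ∈ w.fil 1 from h)
  rw [inv_mul_cancel_left₀ fun e => hc.1 (Or.inl e)] at h1
  exact hc.2 h1

/-- If the residues of `m` fractions of elements integral over `k[t]` are independent, then so are
the residues of `m` of the `t i`. -/
theorem exists_ind {t : Fin (m + 1) → K} (ht : ∀ i, t i ∈ w.fil 0) {σ : K} {g : Fin m → K}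
    (hσ : σ ∉ w.fil 1) (h1 : IsIntegral (Algebra.adjoin k (Set.range t)) σ)
    (h2 : ∀ i, IsIntegral (Algebra.adjoin k (Set.range t)) (σ * g i)) (hg : w.Ind g) :
    ∃ j : Fin (m + 1), w.Ind fun i => t (j.succAbove i) := by
  have := mx_prime w
  have hR : Algebra.adjoin k (Set.range t) ≤ w.vr :=
    Algebra.adjoin_le (by rintro _ ⟨i, rfl⟩; exact ht i)
  let φ : w.vr →ₐ[k] w.vr ⧸ mx w := Ideal.Quotient.mkₐ k _
  have hφ : ∀ x : w.vr, φ x = 0 ↔ x.1 ∈ w.fil 1 := fun x => Ideal.Quotient.eq_zero_iff_mem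
  have hind : ∀ {ι : Type} (g : ι → w.vr),
      (w.Ind fun i => (g i).1) ↔ AlgebraicIndependent k fun i => φ (g i) := fun g => by
    rw [algebraicIndependent_iff]
    refine forall_congr' fun P => ?_
    rw [← MvPolynomial.comp_aeval_apply, hφ]
    exact Iff.of_eq (by rw [show ((MvPolynomial.aeval g P : w.vr) : K) = _ from
      MvPolynomial.comp_aeval_apply g w.vr.val P]; rfl)
  let t' : Fin (m + 1) → w.vr ⧸ mx w := fun i => φ ⟨t i, ht i⟩
  have hm : ∀ x : Algebra.adjoin k (Set.range t),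
      φ (Subalgebra.inclusion hR x) ∈ Algebra.adjoin k (Set.range t') := by
    rintro ⟨x, hx⟩
    obtain ⟨P, rfl⟩ := (Algebra.adjoin_range_eq_range_aeval k t).le hx
    rw [Algebra.adjoin_range_eq_range_aeval]
    refine ⟨P, ?_⟩
    change MvPolynomial.aeval t' P = _
    rw [← MvPolynomial.comp_aeval_apply (fun i => (⟨t i, ht i⟩ : w.vr)) φ P]
    congr 1
    exact Subtype.ext (MvPolynomial.comp_aeval_apply _ w.vr.val P)
  have htr : ∀ x : w.vr, IsIntegral (Algebra.adjoin k (Set.range t)) x.1 →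
      IsIntegral (Algebra.adjoin k (Set.range t')) (φ x) := by
    rintro x ⟨p, hp, h0⟩
    let ψ := (φ.comp (Subalgebra.inclusion hR)).codRestrict _ hm
    refine ⟨p.map ψ.toRingHom, hp.map _, ?_⟩
    have e : eval₂ (Subalgebra.inclusion hR).toRingHom x p = 0 :=
      Subtype.ext ((hom_eval₂ p _ w.vr.val.toRingHom x).trans h0)
    rw [eval₂_map]
    exact (hom_eval₂ p _ φ.toRingHom x).symm.trans ((congrArg _ e).trans (map_zero _))
  have hσ0 : σ ∈ w.vr := (val_vr w).mem_of_isIntegral hR h1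
  have hg0 : ∀ i, g i ∈ w.vr := fun i => by
    have := mul_mem (show σ⁻¹ ∈ w.vr from inv_mem hσ) ((val_vr w).mem_of_isIntegral hR (h2 i))
    rwa [inv_mul_cancel_left₀ fun e => hσ (Or.inl e)] at this
  have hgi := (hind fun i => ⟨g i, hg0 i⟩).1 hg
  let M := AlgebraicIndependent.matroid k (w.vr ⧸ mx w)
  obtain ⟨I, hI⟩ := M.exists_isBasis (Set.range t') (Set.subset_univ _)
  have h3 : (Set.range fun i => φ ⟨g i, hg0 i⟩) ⊆ M.closure (Set.range t') := by
    rintro _ ⟨i, rfl⟩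
    rw [AlgebraicIndependent.matroid_closure_eq]
    refine IsAlgebraic.of_mul (y := φ ⟨σ, hσ0⟩) (mem_nonZeroDivisors_of_ne_zero ?_)
      (htr _ h1).isAlgebraic ?_
    · exact fun e => hσ ((hφ _).1 e)
    · rw [← map_mul]
      exact (htr _ (h2 i)).isAlgebraic
  have h4 := hgi.injective.encard_range.trans
    ((AlgebraicIndependent.matroid_indep_iff.2 hgi.to_subtype_range).encard_le_eRk_of_subset h3)
  rw [Matroid.eRk_closure_eq, ← hI.encard_eq_eRk] at h4
  obtain ⟨J, -, hJ⟩ := (show Set.SurjOn t' Set.univ I from by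
    simpa [Set.SurjOn] using hI.subset).exists_bijOn_subset
  rw [← hJ.image_eq, hJ.injOn.encard_image] at h4
  have h5 : Jᶜ.encard ≤ 1 := by
    have h6 := Set.encard_add_encard_compl J
    simp only [Set.encard_univ, ENat.card_eq_coe_fintype_card, Fintype.card_fin] at h4 h6
    have h7 : (m : ℕ∞) + Jᶜ.encard ≤ m + 1 := by
      calc (m : ℕ∞) + Jᶜ.encard ≤ J.encard + Jᶜ.encard := by gcongr
        _ = _ := by rw [h6]; norm_cast
    exact (ENat.add_le_add_iff_left (ENat.natCast_ne_top m)).1 h7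
  obtain ⟨j, hj⟩ : ∃ j, ∀ i, i ≠ j → i ∈ J := by
    rcases Set.encard_le_one_iff_eq.1 h5 with e | ⟨j, e⟩
    · exact ⟨0, fun i _ => by by_contra h; exact (e ▸ h : i ∈ (∅ : Set _))⟩
    · exact ⟨j, fun i hi => by by_contra h; exact hi (e ▸ h : i ∈ ({j} : Set _))⟩
  refine ⟨j, (hind fun i => ⟨t (j.succAbove i), ht _⟩).2 ?_⟩
  exact (AlgebraicIndependent.matroid_indep_iff.1 hI.indep).comp
    (fun i => ⟨t' (j.succAbove i), hJ.mapsTo (hj _ (j.succAbove_ne i))⟩) fun a b e =>
      Fin.succAbove_right_injective (hJ.injOn (hj _ (j.succAbove_ne a)) (hj _ (j.succAbove_ne b))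
        (congrArg Subtype.val e))

/-- Every element of the valuation ring is a quotient of elements integral over its trace on a
subfield over which it is algebraic. -/
theorem exists_den (F : IntermediateField k K) (hx : x ∈ w.vr) (ha : IsAlgebraic F x) :
    ∃ u, u ∉ w.fil 1 ∧ IsIntegral (w.vr ⊓ F.toSubalgebra : Subalgebra k K) u ∧
      IsIntegral (w.vr ⊓ F.toSubalgebra : Subalgebra k K) (x * u) := by
  classical
  obtain ⟨p, hp, h0⟩ := ha
  set Q := p.map (algebraMap F K) with hQ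
  have hQ0 : Q ≠ 0 := (Polynomial.map_ne_zero_iff (algebraMap F K).injective).2 hp
  obtain ⟨c, hc, hmin⟩ := (val_vr w).exists_min (T := Q.coeffs) (coeffs_nonempty_iff.2 hQ0)
    fun t ht e => by
      obtain ⟨i, hi, rfl⟩ := mem_coeffs_iff.1 ht
      exact mem_support_iff.1 hi e
  obtain ⟨i0, hi0, rfl⟩ := mem_coeffs_iff.1 hc
  have hc0 : Q.coeff i0 ≠ 0 := mem_support_iff.1 hi0
  have hF : ∀ i, Q.coeff i ∈ F := fun i => by rw [hQ, coeff_map]; exact (p.coeff i).2
  set P := C (Q.coeff i0)⁻¹ * Q with hP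
  have hR : ∀ i, P.coeff i ∈ w.vr ⊓ F.toSubalgebra := fun i => by
    rw [hP, coeff_C_mul, inv_mul_eq_div]
    refine ⟨?_, F.div_mem (hF _) (hF _)⟩
    by_cases e : Q.coeff i = 0
    · simp [e]
    · exact hmin _ (coeff_mem_coeffs e)
  have hr : P.eval x = 0 := by rw [hP, eval_mul, hQ, eval_map_algebraMap, h0, mul_zero]
  have hz : ∀ j, P.natDegree < j → hor P j x = 0 := fun j hj => by
    have : divX^[j] P = 0 := Polynomial.ext fun i => by
      rw [coeff_iter, coeff_zero]; exact coeff_eq_zero_of_natDegree_lt (by omega)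
    simp [hor, this]
  have hall : ∀ j (V : Subalgebra k K), Val V → w.vr ⊓ F.toSubalgebra ≤ V →
      hor P j x ∈ V ∧ x * hor P j x ∈ V := fun j V hV hle => by
    by_cases h : x ∈ V
    · have : hor P j x ∈ V :=
        Cf.eval (A := V.toSubring) (fun i => by rw [coeff_iter]; exact hle (hR _)) h
      exact ⟨this, mul_mem h this⟩
    by_cases hj : j ≤ P.natDegree
    · have := hor_mem hV.vs (d := 1) (fun i _ => by rw [one_mul]; exact hle (hR i)) hr h j hj
      rwa [one_mul, one_mul] at this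
    · simp [hz j (not_le.1 hj)]
  obtain ⟨j, hj⟩ : ∃ j, hor P j x ∉ w.fil 1 := by
    by_contra hn
    push Not at hn
    have e : P.coeff i0 = hor P i0 x - x * hor P (i0 + 1) x := by rw [hor_succ P i0 x]; ring
    rw [hP, coeff_C_mul, inv_mul_cancel₀ hc0] at e
    exact one_notMem w (e ▸ sub_mem (hn _) (mul_mem1 hx (hn _)))
  exact ⟨_, hj, isIntegral_of_val fun V a b => (hall j V a b).1,
    isIntegral_of_val fun V a b => (hall j V a b).2⟩

/-- The elements of the valuation ring whose derivative lies in the valuation ring. -/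
def gd (D : Derivation k K K) (w : DV k K) : Subalgebra k K where
  carrier := {x | x ∈ w.vr ∧ D x ∈ w.vr}
  mul_mem' := fun {a b} ha hb => ⟨mul_mem ha.1 hb.1, by
    rw [Derivation.leibniz]
    exact add_mem (mul_mem ha.1 hb.2) (mul_mem hb.1 ha.2)⟩
  add_mem' := fun {a b} ha hb => ⟨add_mem ha.1 hb.1, by rw [map_add]; exact add_mem ha.2 hb.2⟩
  algebraMap_mem' := fun c => ⟨algebraMap_mem _ c, by simp⟩

theorem div_mem_gd {D : Derivation k K K} (hx : x ∈ gd D w) (hy : y ∈ gd D w) (h : y ∉ w.fil 1) :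
    x / y ∈ gd D w := by
  have h1 : y⁻¹ ∈ w.vr := inv_mem h
  rw [div_eq_mul_inv]
  refine mul_mem hx ⟨h1, ?_⟩
  rw [Derivation.leibniz_inv]
  exact mul_mem (neg_mem (pow_mem h1 2)) hy.2

theorem rat_le_gd {D : Derivation k K K} {t : Fin (m + 1) → K} (ht : ∀ i, t i ∈ gd D w)
    {j : Fin (m + 1)} (hj : w.Ind fun i => t (j.succAbove i)) (hx : x ∈ w.vr)
    (hF : x ∈ IntermediateField.adjoin k (Set.range t)) : x ∈ gd D w := by
  set F' := IntermediateField.adjoin k (Set.range fun i => t (j.succAbove i)) with hF'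
  have h0 : Algebra.adjoin k (Set.range fun i => t (j.succAbove i)) ≤ gd D w :=
    Algebra.adjoin_le (by rintro _ ⟨i, rfl⟩; exact ht _)
  have h1 : ∀ y ∈ F', y ∈ gd D w := fun y hy => by
    obtain ⟨r, hr, s, hs, rfl⟩ := IntermediateField.mem_adjoin_iff_div.1 hy
    by_cases e : s = 0
    · simp [e]
    refine div_mem_gd (h0 hr) (h0 hs) fun h => e ?_
    obtain ⟨P, rfl⟩ := (Algebra.adjoin_range_eq_range_aeval k _).le hs
    rw [hj P h, map_zero]
  have h2 : ∀ p : F'[X], aeval (t j) p ∈ gd D w := fun p => by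
    rw [aeval_eq_sum_range]
    exact sum_mem fun i _ => mul_mem (h1 _ (p.coeff i).2) (pow_mem (ht j) i)
  have h3 : x ∈ IntermediateField.adjoin F' {t j} := by
    refine (show IntermediateField.adjoin k (Set.range t) ≤
      (IntermediateField.adjoin F' {t j}).restrictScalars k from
        IntermediateField.adjoin_le_iff.2 ?_) hF
    rintro _ ⟨i, rfl⟩
    rcases Fin.eq_self_or_eq_succAbove j i with rfl | ⟨i, rfl⟩
    · exact IntermediateField.mem_adjoin_simple_self F' _
    · exact (IntermediateField.adjoin F' {t j}).algebraMap_mem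
        ⟨_, IntermediateField.subset_adjoin k _ ⟨i, rfl⟩⟩
  obtain ⟨r, s, rfl⟩ := (IntermediateField.mem_adjoin_simple_iff F' x).1 h3
  by_cases e : aeval (t j) s = 0
  · simp [e]
  classical
  obtain ⟨r', s', e1, e2, a, b, hc⟩ : ∃ r' s', r = gcd r s * r' ∧ s = gcd r s * s' ∧ IsCoprime r' s' := by
    obtain ⟨r', s', e1, e2, h⟩ := extract_gcd r s
    exact ⟨r', s', e1, e2, (gcd_isUnit_iff _ _).1 h⟩
  have e3 := e
  rw [e2, map_mul, mul_eq_zero, not_or] at e3
  have e4 : aeval (t j) r / aeval (t j) s = aeval (t j) r' / aeval (t j) s' := by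
    conv_lhs => rw [e1]; rhs; rw [e2]
    rw [map_mul, map_mul, mul_div_mul_left _ _ e3.1]
  rw [e4] at hx ⊢
  refine div_mem_gd (h2 _) (h2 _) fun h => one_notMem w ?_
  have h4 := mul_mem1 hx h
  rw [div_mul_cancel₀ _ e3.2] at h4
  rw [← map_one (aeval (t j) : F'[X] →ₐ[F'] K), ← hc, map_add, map_mul, map_mul]
  exact add_mem (mul_mem1 (h2 a).1 h4) (mul_mem1 (h2 b).1 h)

/-- Off finitely many poles the derivations preserve the valuation rings of prime divisors. -/
theorem exists_pres {t : Fin (m + 1) → K} {d : Fin (m + 1) → Derivation k K K} (hF : Fr t d) :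
    ∃ X : Finset K, ∀ w : DV k K, (∀ x ∈ X, x ∈ w.fil 0) →
      (∃ j : Fin (m + 1), w.Ind fun i => t (j.succAbove i)) → Pres d w.vr := by
  classical
  set F := IntermediateField.adjoin k (Set.range t) with hFe
  have := hF.fin
  have := hF.sep
  let b := Module.finBasis F K
  let b' := (Algebra.traceForm F K).dualBasis (traceForm_nondegenerate F K) b
  refine ⟨Finset.univ.image t ∪ Finset.univ.image b' ∪
    (Finset.univ.image fun p : _ × _ => d p.1 (b' p.2)) ∪
    Finset.univ.biUnion fun l => ((minpoly F (b l)).map (algebraMap F K)).coeffs,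
    fun w hX ⟨j, hj⟩ i x hx => ?_⟩
  simp only [Finset.mem_union, Finset.mem_image, Finset.mem_univ, true_and, Finset.mem_biUnion,
    or_imp, forall_and, forall_exists_index, forall_apply_eq_imp_iff, Prod.forall] at hX
  obtain ⟨⟨⟨h1, h2⟩, h3⟩, h4⟩ := hX
  set R : Subalgebra k K := w.vr ⊓ F.toSubalgebra with hR
  have ht : ∀ l, t l ∈ gd (d i) w := fun l => ⟨h1 l, by
    rw [hF.dual]; split_ifs <;> simp⟩
  have hb : ∀ l, IsIntegral R (b l) := fun l => by
    refine isIntegral_of_cf (R := R.toSubring) (P := (minpoly F (b l)).map (algebraMap F K))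
      ((minpoly.monic (Algebra.IsIntegral.isIntegral _)).map _) (fun n => ⟨?_, ?_⟩)
      (by rw [eval_map_algebraMap, minpoly.aeval])
    · by_cases e : ((minpoly F (b l)).map (algebraMap F K)).coeff n = 0
      · simp [e]
      · exact h4 _ l (coeff_mem_coeffs e)
    · rw [coeff_map]; exact ((minpoly F (b l)).coeff n).2
  have hB : ∀ z, IsIntegral R z → z ∈ gd (d i) w := fun z hz => by
    let _ : Algebra R F := (Subalgebra.inclusion (inf_le_right : R ≤ F.toSubalgebra)).toRingHom.toAlgebra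
    have : IsScalarTower R F K := .of_algebraMap_eq fun _ => rfl
    rw [← b'.sum_repr z]
    refine sum_mem fun l _ => mul_mem (rat_le_gd ht hj ?_ (b'.repr z l).2) ⟨h2 l, h3 _ i l rfl⟩
    refine (val_vr w).mem_of_isIntegral (inf_le_left : R ≤ _) ?_
    rw [LinearMap.BilinForm.dualBasis_repr_apply]
    exact (Algebra.isIntegral_trace (L := F) (hz.mul (hb l))).algebraMap
  obtain ⟨u, hu, a1, a2⟩ := exists_den F hx (Algebra.IsAlgebraic.isAlgebraic x)
  have := div_mem_gd (hB _ a2) (hB _ a1) hu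
  rw [mul_div_cancel_right₀ _ fun e => hu (Or.inl e)] at this
  exact this.2

end val

section box

variable {n : ℕ} {ι : Type} {t : Fin n → K} {η : ι → K} {W W' M : Submodule k K} {a δ : K}
  {x y c C : ℕ}

theorem mem_pr (a : K) : a ∈ pr k a := mem_span_singleton_self a

theorem pr_le : pr k a ≤ W ↔ a ∈ W := span_singleton_le_iff_mem _ _

theorem pr_mul (a b : K) : pr k a * pr k b = pr k (a * b) := by
  rw [pr, pr, span_mul_span, Set.singleton_mul_singleton, pr]

theorem pr_mul_le : pr k a * W ≤ W' ↔ ∀ z ∈ W, a * z ∈ W' := by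
  refine ⟨fun h z hz => h (mul_mem_mul (mem_pr a) hz), fun h => mul_le.2 fun b hb z hz => ?_⟩
  obtain ⟨r, rfl⟩ := mem_span_singleton.1 hb
  rw [smul_mul_assoc]
  exact smul_mem _ _ (h z hz)

theorem finrank_le_of_mul (ha : a ≠ 0) (hW : W'.FG) (h : pr k a * W ≤ W') :
    finrank k W ≤ finrank k W' := by
  have : FiniteDimensional k W' := Module.Finite.iff_fg.2 hW
  let f : W →ₗ[k] W' := ((LinearMap.mulLeft k a).comp W.subtype).codRestrict W' fun z =>
    pr_mul_le.1 h z z.2
  refine LinearMap.finrank_le_finrank_of_injective (f := f) fun x y hxy => Subtype.ext ?_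
  exact mul_left_cancel₀ ha (congrArg Subtype.val hxy)

theorem prod_mem_pow {J : Type} (s : Finset J) {f : J → K} (h : ∀ i, f i ∈ W) :
    ∏ i ∈ s, f i ∈ W ^ s.card := by
  classical
  induction s using Finset.induction_on with
  | empty => simp
  | insert i s hi ih =>
    rw [Finset.prod_insert hi, Finset.card_insert_of_notMem hi, pow_succ']
    exact mul_mem_mul (h i) ih

theorem der_mul (D : Derivation k K K) (h : ∀ z ∈ W, D z ∈ W) (h' : ∀ z ∈ W', D z ∈ W') :
    ∀ z ∈ W * W', D z ∈ W * W' := fun z hz => by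
  refine Submodule.mul_induction_on hz (fun p hp q hq => ?_) fun p q hp hq => ?_
  · rw [Derivation.leibniz, smul_eq_mul, smul_eq_mul, mul_comm q]
    exact add_mem (mul_mem_mul hp (h' q hq)) (mul_mem_mul (h p hp) hq)
  · rw [map_add]; exact add_mem hp hq

theorem der_one (D : Derivation k K K) : ∀ z ∈ (1 : Submodule k K), D z = 0 := fun z hz => by
  obtain ⟨r, rfl⟩ := mem_one.1 hz
  simp

variable (k) in
/-- The polynomials of degree at most one in each variable. -/
def cube (t : Fin n → K) : Submodule k K := ∏ i, (1 ⊔ pr k (t i))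

variable (k) in
/-- The box of size `N`. -/
def bx (t : Fin n → K) (η : ι → K) (N : ℕ) : Submodule k K :=
  cube k t ^ N * span k (Set.range η)

theorem one_le_cube : 1 ≤ cube k t := Finset.one_le_prod' fun _ _ => le_sup_left

theorem mem_cube (i : Fin n) : t i ∈ cube k t :=
  Finset.single_le_prod' (f := fun i => 1 ⊔ pr k (t i)) (fun _ _ => le_sup_left) (Finset.mem_univ i)
    (mem_sup_right (mem_pr _))

theorem cube_mono (h : x ≤ y) : cube k t ^ x ≤ cube k t ^ y := pow_le_pow_right' one_le_cube h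

theorem bx_mono (h : x ≤ y) : bx k t η x ≤ bx k t η y := mul_le_mul_left (cube_mono h) _

theorem cube_mul_bx (x y : ℕ) : cube k t ^ x * bx k t η y = bx k t η (x + y) := by
  rw [bx, bx, pow_add, mul_assoc]

theorem mem_bx (l : ι) (x : ℕ) : η l ∈ bx k t η x :=
  bx_mono (Nat.zero_le x) (by rw [bx, pow_zero, one_mul]; exact subset_span ⟨l, rfl⟩)

theorem exists_mem_cube (h : a ∈ Algebra.adjoin k (Set.range t)) : ∃ C : ℕ, a ∈ cube k t ^ C := by
  induction h using Algebra.adjoin_induction with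
  | mem x hx => obtain ⟨i, rfl⟩ := hx; exact ⟨1, by simpa using mem_cube i⟩
  | algebraMap r => exact ⟨0, by simp⟩
  | add x y _ _ hx hy =>
    obtain ⟨C, hC⟩ := hx
    obtain ⟨D, hD⟩ := hy
    exact ⟨C + D, add_mem (cube_mono (Nat.le_add_right _ _) hC)
      (cube_mono (Nat.le_add_left _ _) hD)⟩
  | mul x y _ _ hx hy =>
    obtain ⟨C, hC⟩ := hx
    obtain ⟨D, hD⟩ := hy
    exact ⟨C + D, pow_add (cube k t) C D ▸ mul_mem_mul hC hD⟩

theorem der_cube (D : Derivation k K K) (h : ∀ i, D (t i) ∈ (1 : Submodule k K)) (N : ℕ) :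
    ∀ z ∈ cube k t ^ N, D z ∈ cube k t ^ N := by
  have h0 : ∀ z ∈ (1 : Submodule k K), D z ∈ (1 : Submodule k K) := fun z hz => by
    rw [der_one D z hz]; exact zero_mem _
  have h1 : ∀ z ∈ cube k t, D z ∈ cube k t := by
    refine Finset.prod_induction _ (fun W : Submodule k K => ∀ z ∈ W, D z ∈ W)
      (fun _ _ => der_mul D) h0 fun i _ z hz => ?_
    obtain ⟨p, hp, q, hq, rfl⟩ := mem_sup.1 hz
    obtain ⟨r, rfl⟩ := mem_span_singleton.1 hq
    rw [map_add, Derivation.map_smul]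
    exact mem_sup_left (add_mem (h0 p hp) (smul_mem _ _ (h i)))
  induction N with
  | zero => simpa only [pow_zero] using h0
  | succ N ih => rw [pow_succ]; exact der_mul D ih h1

theorem line_pow (a : K) (N : ℕ) :
    (1 ⊔ pr k a) ^ N = span k (Set.range fun i : Fin (N + 1) => a ^ (i : ℕ)) := by
  refine le_antisymm ?_ (span_le.2 ?_)
  · induction N with
    | zero => simp [one_eq_span]
    | succ N ih =>
      rw [pow_succ', Submodule.sup_mul, one_mul]
      refine sup_le (ih.trans (span_mono ?_)) ((mul_le_mul_right ih _).trans ?_)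
      · rintro _ ⟨i, rfl⟩; exact ⟨i.castSucc, rfl⟩
      · rw [pr, span_mul_span]
        refine span_mono ?_
        rintro _ ⟨_, rfl, _, ⟨i, rfl⟩, rfl⟩
        exact ⟨i.succ, by simp [pow_succ']⟩
  · rintro _ ⟨i, rfl⟩
    exact pow_le_pow_right' (le_sup_left : 1 ≤ 1 ⊔ pr k a) (Nat.le_of_lt_succ i.2)
      (pow_mem_pow _ (mem_sup_right (mem_pr a)) _)

theorem bx_eq (N : ℕ) : bx k t η N =
    span k (Set.range fun p : (Fin n → Fin (N + 1)) × ι => (∏ i, t i ^ (p.1 i : ℕ)) * η p.2) := by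
  rw [bx, cube, ← Finset.prod_pow]
  simp only [line_pow]
  rw [prod_span, span_mul_span]
  congr 1
  ext z
  constructor
  · rintro ⟨p, hp, _, ⟨l, rfl⟩, rfl⟩
    obtain ⟨g, hg, rfl⟩ := (Set.mem_fintype_prod _ _).1 hp
    choose I hI using hg
    exact ⟨(I, l), by simp only [← hI]⟩
  · rintro ⟨⟨I, l⟩, rfl⟩
    exact ⟨_, (Set.mem_fintype_prod _ _).2 ⟨_, fun i => ⟨I i, rfl⟩, rfl⟩, _, ⟨l, rfl⟩, rfl⟩

theorem bx_fg [Finite ι] (N : ℕ) : (bx k t η N).FG := by
  rw [bx_eq]; exact fg_span (Set.finite_range _)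

theorem finrank_bx [Fintype ι] (ht : AlgebraicIndependent k t)
    (hη : LinearIndependent (IntermediateField.adjoin k (Set.range t)) η) (N : ℕ) :
    finrank k (bx k t η N) = Fintype.card ι * (N + 1) ^ n := by
  have h1 : LinearIndependent k fun I : Fin n → Fin (N + 1) => ∏ i, t i ^ (I i : ℕ) := by
    have h2 := ((MvPolynomial.basisMonomials (Fin n) k).linearIndependent.map'
      (MvPolynomial.aeval t).toLinearMap (LinearMap.ker_eq_bot.2 ht)).comp
      (fun I : Fin n → Fin (N + 1) => Finsupp.equivFunOnFinite.symm fun i => (I i : ℕ))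
      fun I J h => funext fun i => Fin.ext (congrFun (Finsupp.equivFunOnFinite.symm.injective h) i)
    have h3 : (fun I : Fin n → Fin (N + 1) => ∏ i, t i ^ (I i : ℕ)) =
        ((MvPolynomial.aeval t).toLinearMap ∘ MvPolynomial.basisMonomials (Fin n) k) ∘
          fun I : Fin n → Fin (N + 1) => Finsupp.equivFunOnFinite.symm fun i => (I i : ℕ) := by
      funext I
      simp [MvPolynomial.aeval_monomial, Finsupp.prod_fintype]
    rw [h3]; exact h2
  have h4 := finrank_span_eq_card (linearIndependent_smul (b := fun I : Fin n → Fin (N + 1) =>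
    (⟨∏ i, t i ^ (I i : ℕ), prod_mem fun i _ => pow_mem
      (IntermediateField.subset_adjoin k (Set.range t) ⟨i, rfl⟩) _⟩ :
        IntermediateField.adjoin k (Set.range t)))
    (LinearIndependent.of_comp (IntermediateField.val _).toLinearMap h1) hη)
  rw [bx_eq]
  refine h4.trans ?_
  simp [mul_comm]

theorem pow_bx (l : ι) (N L : ℕ) :
    pr k (η l ^ L) * bx k t η (N * (L + 1)) ≤ bx k t η N ^ (L + 1) := by
  induction L with
  | zero => rw [pow_zero, pr, ← one_eq_span]; simp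
  | succ L ih =>
    rw [pow_succ (bx k t η N), pow_succ, ← pr_mul, Nat.mul_succ, add_comm _ N, ← cube_mul_bx]
    refine le_trans (le_of_eq ?_) (mul_le_mul' ih (mul_le_mul_right
      (pr_le.2 (subset_span ⟨l, rfl⟩) : pr k (η l) ≤ span k (Set.range η)) (cube k t ^ N)))
    ring

/-- A denominator moves `W` into the box of size `x`. -/
def Bd (t : Fin n → K) (η : ι → K) (W : Submodule k K) (x : ℕ) : Prop :=
  ∃ δ ∈ Algebra.adjoin k (Set.range t), δ ≠ 0 ∧ pr k δ * W ≤ bx k t η x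

theorem Bd.of_mul (h : Bd t η W' x) (h1 : δ ∈ Algebra.adjoin k (Set.range t)) (h2 : δ ≠ 0)
    (h3 : pr k δ * W ≤ W') : Bd t η W x := by
  obtain ⟨δ', a, b, c⟩ := h
  refine ⟨δ' * δ, mul_mem a h1, mul_ne_zero b h2, ?_⟩
  rw [← pr_mul, mul_assoc]
  exact (mul_le_mul_right h3 _).trans c

theorem Bd.mono (h : Bd t η W' x) (h1 : W ≤ W') (h2 : x ≤ y) : Bd t η W y :=
  let ⟨δ, a, b, c⟩ := h
  ⟨δ, a, b, (mul_le_mul_right h1 _).trans (c.trans (bx_mono h2))⟩

theorem bd_bx (x : ℕ) : Bd t η (bx k t η x) x :=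
  ⟨1, one_mem _, one_ne_zero, by rw [pr, ← one_eq_span, one_mul]⟩

theorem Bd.sup (h : Bd t η W x) (h' : Bd t η W' y) : ∃ z, Bd t η (W ⊔ W') z := by
  obtain ⟨δ, h1, h2, h3⟩ := h
  obtain ⟨δ', h1', h2', h3'⟩ := h'
  obtain ⟨D, hD⟩ := exists_mem_cube h1
  obtain ⟨D', hD'⟩ := exists_mem_cube h1'
  refine ⟨D' + x + (D + y), δ' * δ, mul_mem h1' h1, mul_ne_zero h2' h2, ?_⟩
  rw [Submodule.mul_sup, ← pr_mul]
  refine sup_le ?_ ?_
  · rw [mul_assoc]
    exact (mul_le_mul' (pr_le.2 hD') h3).trans ((cube_mul_bx _ _).le.trans (bx_mono (by omega)))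
  · rw [mul_comm (pr k δ'), mul_assoc]
    exact (mul_le_mul' (pr_le.2 hD) h3').trans ((cube_mul_bx _ _).le.trans (bx_mono (by omega)))

theorem bd_pr (h : a ∈ span (IntermediateField.adjoin k (Set.range t)) (Set.range η)) :
    ∃ x, Bd t η (pr k a) x := by
  induction h using span_induction with
  | mem z hz => obtain ⟨l, rfl⟩ := hz; exact ⟨0, (bd_bx 0).mono (pr_le.2 (mem_bx l 0)) le_rfl⟩
  | zero => exact ⟨0, (bd_bx 0).mono (pr_le.2 (zero_mem _)) le_rfl⟩
  | add p q _ _ hp hq =>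
    obtain ⟨x, hx⟩ := hp
    obtain ⟨y, hy⟩ := hq
    obtain ⟨z, hz⟩ := hx.sup hy
    exact ⟨z, hz.mono (pr_le.2 (add_mem (mem_sup_left (mem_pr p)) (mem_sup_right (mem_pr q))))
      le_rfl⟩
  | smul c p _ hp =>
    obtain ⟨r, hr, s, hs, hc⟩ := IntermediateField.mem_adjoin_iff_div.1 c.2
    have h0 : c • p = r / s * p := by rw [← hc]; rfl
    by_cases hs0 : s = 0
    · exact ⟨0, (bd_bx 0).mono (pr_le.2 (by simp [h0, hs0])) le_rfl⟩
    obtain ⟨x, δ, h1, h2, h3⟩ := hp
    obtain ⟨D, hD⟩ := exists_mem_cube hr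
    refine ⟨D + x, δ * s, mul_mem h1 hs, mul_ne_zero h2 hs0, ?_⟩
    rw [pr_mul, pr_le, h0, show δ * s * (r / s * p) = r * (δ * p) by field_simp, ← cube_mul_bx]
    exact mul_mem_mul hD (pr_mul_le.1 h3 p (mem_pr p))

theorem bd_fg (h : span (IntermediateField.adjoin k (Set.range t)) (Set.range η) = ⊤)
    (hW : W.FG) : ∃ x, Bd t η W x := by
  induction W, hW using fg_induction with
  | singleton z => exact bd_pr (h ▸ mem_top)
  | sup W W' _ _ h1 h2 => exact h1.elim fun _ a => h2.elim fun _ b => a.sup b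

theorem Bd.mul (h0 : Bd t η (bx k t η 0 * bx k t η 0) C) (h : Bd t η W x) (h' : Bd t η W' y) :
    Bd t η (W * W') (x + y + C) := by
  obtain ⟨δ₀, a1, a2, a3⟩ := h0
  obtain ⟨δ, h1, h2, h3⟩ := h
  obtain ⟨δ', h1', h2', h3'⟩ := h'
  refine ⟨δ₀ * (δ * δ'), mul_mem a1 (mul_mem h1 h1'), mul_ne_zero a2 (mul_ne_zero h2 h2'), ?_⟩
  calc pr k (δ₀ * (δ * δ')) * (W * W') = pr k δ₀ * ((pr k δ * W) * (pr k δ' * W')) := by
        rw [← pr_mul, ← pr_mul]; ring
    _ ≤ pr k δ₀ * (bx k t η x * bx k t η y) := mul_le_mul_right (mul_le_mul' h3 h3') _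
    _ = cube k t ^ (x + y) * (pr k δ₀ * (bx k t η 0 * bx k t η 0)) := by
        simp only [bx]; ring
    _ ≤ _ := (mul_le_mul_right a3 _).trans (cube_mul_bx _ _).le

theorem Bd.pow (h0 : Bd t η (bx k t η 0 * bx k t η 0) C) (hM : Bd t η M c) (h : Bd t η W x)
    (L : ℕ) : Bd t η (M * W ^ L) ((x + C) * L + c) := by
  induction L with
  | zero => simpa using hM
  | succ L ih =>
    rw [pow_succ, ← mul_assoc]
    exact (h0.mul ih h).mono le_rfl (le_of_eq (by ring))

theorem Bd.finrank_le [Fintype ι] (ht : AlgebraicIndependent k t)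
    (hη : LinearIndependent (IntermediateField.adjoin k (Set.range t)) η) (h : Bd t η W x) :
    finrank k W ≤ Fintype.card ι * (x + 1) ^ n :=
  let ⟨_, _, b, c⟩ := h
  (finrank_le_of_mul b (bx_fg x) c).trans (finrank_bx ht hη x).le

end box

section pot

variable {ι : Type} {t : Fin (m + 1) → K} {η : ι → K} {d : Fin (m + 1) → Derivation k K K}

/-- The Wronskians of a box have a denominator. -/
theorem exists_wr [Finite ι] (hd : ∀ i j, d j (t i) = if i = j then 1 else 0)
    (h : span (IntermediateField.adjoin k (Set.range t)) (Set.range η) = ⊤) :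
    ∃ δ ∈ Algebra.adjoin k (Set.range t), δ ≠ 0 ∧ ∃ C : ℕ, ∀ N,
      pr k δ * WW d (bx k t η N) ≤ bx k t η (N + C) ^ (m + 2) := by
  have hfg : (bx k t η 0 ⊔ ⨆ j, (bx k t η 0).map (d j).toLinearMap).FG :=
    (bx_fg 0).sup (fg_iSup _ fun j => (bx_fg 0).map _)
  obtain ⟨C, δ, h1, h2, h3⟩ := bd_fg h hfg
  rw [pr_mul_le] at h3
  refine ⟨δ ^ (m + 2), pow_mem h1 _, pow_ne_zero _ h2, C, fun N => pr_mul_le.2 fun z hz => ?_⟩
  have key : ∀ v ∈ bx k t η N, δ * v ∈ bx k t η (N + C) ∧ ∀ j, δ * d j v ∈ bx k t η (N + C) := by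
    intro v hv
    rw [← add_zero N, ← cube_mul_bx] at hv
    rw [← cube_mul_bx]
    refine Submodule.mul_induction_on hv (fun p hp q hq => ⟨?_, fun j => ?_⟩)
      fun p q hp hq => ⟨?_, fun j => ?_⟩
    · rw [mul_left_comm]; exact mul_mem_mul hp (h3 q (mem_sup_left hq))
    · rw [Derivation.leibniz, smul_eq_mul, smul_eq_mul, mul_add, mul_left_comm, ← mul_assoc δ q,
        mul_comm (δ * q)]
      refine add_mem (mul_mem_mul hp (h3 _ (mem_sup_right (mem_iSup_of_mem j ⟨q, hq, rfl⟩))))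
        (mul_mem_mul (der_cube _ (fun i => ?_) N p hp) (h3 q (mem_sup_left hq)))
      rw [hd]; split_ifs <;> simp
    · rw [mul_add]; exact add_mem hp.1 hq.1
    · rw [map_add, mul_add]; exact add_mem (hp.2 j) (hq.2 j)
  refine WW_le (N := (bx k t η (N + C) ^ (m + 2)).comap (LinearMap.mulLeft k (δ ^ (m + 2))))
    (fun v hv => ?_) hz
  rw [Submodule.mem_comap, LinearMap.mulLeft_apply, Wr]
  have e := Matrix.det_smul
    (Matrix.of fun i => (Fin.cons (v i) fun j => d j (v i) : Fin (m + 2) → K)) δ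
  rw [Fintype.card_fin] at e
  rw [← e, Matrix.det_apply]
  refine sum_mem fun s _ => ?_
  rw [Units.smul_def]
  refine zsmul_mem ?_ _
  have := prod_mem_pow (W := bx k t η (N + C)) Finset.univ (f := fun i => (δ • Matrix.of fun i =>
    (Fin.cons (v i) fun j => d j (v i) : Fin (m + 2) → K)) (s i) i) fun i =>
      Fin.cases (key _ (hv _)).1 (fun j => (key _ (hv _)).2 j) i
  rwa [Finset.card_univ, Fintype.card_fin] at this

theorem ordS_eq {w : DV k K} {V : Submodule k K} {σ : K} (hV : V ≤ w.fil (w.ord σ)) (hσ : σ ∈ V)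
    (h0 : σ ≠ 0) : w.ordS V = w.ord σ :=
  IsLeast.csInf_eq ⟨⟨σ, ⟨hσ, h0⟩, rfl⟩, by
    rintro _ ⟨x, ⟨h1, h2⟩, rfl⟩; exact (hV h1).resolve_left h2⟩

theorem isIntegral_bx (hη : ∀ l, IsIntegral (Algebra.adjoin k (Set.range t)) (η l)) {N : ℕ} {x : K}
    (hx : x ∈ bx k t η N) : IsIntegral (Algebra.adjoin k (Set.range t)) x := by
  rw [bx_eq] at hx
  refine (span_le (p := ((integralClosure (Algebra.adjoin k (Set.range t)) K).restrictScalars
    k).toSubmodule)).2 ?_ hx
  rintro _ ⟨p, rfl⟩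
  exact IsIntegral.mul (isIntegral_of_mem (prod_mem fun i _ =>
    pow_mem (Algebra.subset_adjoin (Set.mem_range_self i)) _)) (hη _)

/-- The divisors of the first system are poles of finitely many functions. -/
theorem exists_cover (hF : Fr t d) (S : Finset K) (l : ι) (h0 : η l ≠ 0)
    (hη : ∀ l, IsIntegral (Algebra.adjoin k (Set.range t)) (η l)) :
    ∃ X : Finset K, ∀ N, ∀ w ∈ DD d S (bx k t η (N + 1)), ∃ x ∈ X, w.ord x < 0 := by
  classical
  obtain ⟨X, hX⟩ := exists_pres hF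
  refine ⟨X ∪ Finset.univ.image t ∪ {(η l)⁻¹} ∪ S ∪ S.image (·⁻¹), fun N w ⟨h1, h2⟩ => ?_⟩
  by_contra hc
  simp only [Finset.mem_union, Finset.mem_image, Finset.mem_univ, true_and, Finset.mem_singleton,
    not_exists, not_and, not_lt, or_imp, forall_and, forall_exists_index, forall_apply_eq_imp_iff,
    forall_eq, and_imp, forall_apply_eq_imp_iff₂, ord_inv] at hc
  obtain ⟨⟨⟨⟨a1, a2⟩, a3⟩, a4⟩, a5⟩ := hc
  have hR : Algebra.adjoin k (Set.range t) ≤ w.vr :=
    Algebra.adjoin_le (by rintro _ ⟨i, rfl⟩; exact mem_fil0.2 (a2 i))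
  have hV : bx k t η (N + 1) ≤ w.fil 0 := fun x hx =>
    (val_vr w).mem_of_isIntegral hR (isIntegral_bx hη hx)
  have e0 : w.ord (η l) = 0 := le_antisymm (by omega) (mem_fil0.1 (hV (mem_bx l _)))
  have e1 := ordS_eq (e0.symm ▸ hV) (mem_bx l (N + 1)) h0
  obtain ⟨σ, ⟨b1, b2, b3⟩, g, b4, b5⟩ := h1
  have hP := hX w (fun x hx => mem_fil0.2 (a1 x hx)) (exists_ind (fun i => mem_fil0.2 (a2 i))
    (fun h => by have := h.resolve_left b2; omega) (isIntegral_bx hη b1)
    (fun i => isIntegral_bx hη (b4 i)) b5)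
  rcases h2 with ⟨r, hr, h2⟩ | h2
  · have := a4 r hr
    have := a5 r hr
    omega
  refine h2 ⟨η l, ⟨mem_bx l _, h0, e1.symm⟩, t, fun i => ?_, dual_iff.2 ?_⟩
  · rw [add_comm N, ← cube_mul_bx, mul_comm (η l), pow_one]
    exact mul_mem_mul (mem_cube i) (mem_bx l N)
  · rw [(dual_self hF.dual).1, (dual_self hF.dual).2]
    exact ⟨one_ne_zero, hP⟩

theorem lim (a c : ℝ) (n : ℕ) :
    Tendsto (fun L : ℕ => (a * L + c) ^ n / (L : ℝ) ^ n) atTop (nhds (a ^ n)) := by
  have h := ((tendsto_const_div_atTop_nhds_zero_nat c).const_add a).pow n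
  rw [add_zero] at h
  refine h.congr' ((eventually_gt_atTop 0).mono fun L hL => ?_)
  have : (L : ℝ) ≠ 0 := by positivity
  simp only [← div_pow]
  congr 1
  field_simp

theorem one_fg : (1 : Submodule k K).FG := one_eq_span (R := k) (A := K) ▸ fg_span_singleton _

/-- The potential of a box. -/
theorem pot_bx (hdiv : DivStmt k K) [Fintype ι] (hF : Fr t d) (S : Finset K) (l : ι)
    (hη : ∀ l, IsIntegral (Algebra.adjoin k (Set.range t)) (η l))
    (hi : LinearIndependent (IntermediateField.adjoin k (Set.range t)) η)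
    (hs : span (IntermediateField.adjoin k (Set.range t)) (Set.range η) = ⊤) :
    ∃ C a : ℕ, ∀ N : ℕ, Pot d S (bx k t η (N + 1)) (Fintype.card ι * ((2 * (N + C)) ^ (m + 1) +
      2 * ((m + 3) * (N + C)) ^ (m + 1) + a * ((N + C) ^ (m + 1) - (N + 1) ^ (m + 1)))) := by
  classical
  obtain ⟨X, hX⟩ := exists_cover hF S l (hi.ne_zero l) hη
  obtain ⟨C₀, h0⟩ := bd_fg hs ((bx_fg (t := t) (η := η) 0).mul (bx_fg (t := t) (η := η) 0))
  obtain ⟨δ, d1, d2, C₁, hW⟩ := exists_wr hF.dual hs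
  obtain ⟨c₁, h1⟩ := bd_fg hs one_fg
  obtain ⟨c₂, h2⟩ := bd_fg hs (one_fg.sup (fg_span X.finite_toSet))
  refine ⟨1 + c₁ + c₂ + C₁ + 3 * C₀, X.card, fun N MM hMM D hD ε hε => ?_⟩
  set C := 1 + c₁ + c₂ + C₁ + 3 * C₀ with hC
  set V := bx k t η (N + 1) with hV
  have hVfg : V.FG := bx_fg _
  obtain ⟨c, hc⟩ := bd_fg hs hMM
  have g1 : ∀ L, finrank k (MM * V ^ (2 * L) :) ≤
      Fintype.card ι * (2 * (N + C) * L + (c + 1)) ^ (m + 1) := fun L =>
    ((h0.pow hc (bd_bx (N + 1)) (2 * L)).mono (y := 2 * (N + C) * L + c) le_rfl (by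
      rw [← mul_assoc, mul_comm _ 2]
      exact Nat.add_le_add_right (Nat.mul_le_mul_right _ (by omega)) _)).finrank_le hF.ind hi
  have g2 : ∀ L, finrank k (MM * (V * WW d V) ^ L :) ≤
      Fintype.card ι * ((m + 3) * (N + C) * L + (c + 1)) ^ (m + 1) := fun L => by
    have := (h0.pow h1 (bd_bx (N + 1 + C₁)) (m + 2)).of_mul d1 d2 (by rw [one_mul]; exact hW _)
    refine ((h0.pow hc (h0.mul (bd_bx (N + 1)) this) L).mono (y := (m + 3) * (N + C) * L + c)
      le_rfl ?_).finrank_le hF.ind hi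
    gcongr
    nlinarith [Nat.zero_le (m * c₁), Nat.zero_le (m * c₂), Nat.zero_le (m * C₀)]
  have g3 : ∀ x ∈ X, ∃ e : ℕ, ∀ L, 0 < L →
      Fintype.card ι * ((N + 1) * L + 1) ^ (m + 1) +
        L * ∑ w ∈ D with w.ord x < 0, w.lead (V ^ L) ≤
      Fintype.card ι * ((N + C) * L + (e + 1)) ^ (m + 1) := fun x hx => by
    obtain ⟨M₀, b1, b2⟩ := hdiv (D.filter fun w => w.ord x < 0)
    obtain ⟨c', b3⟩ := b2 (M₀ ⊔ 1) (1 ⊔ pr k x) 1 (b1.sup one_fg) le_sup_left
      (one_fg.sup (fg_span_singleton x))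
      (fun e => one_ne_zero ((Submodule.eq_bot_iff _).1 e 1 (one_le.1 le_rfl))) le_sup_left
      fun w hw => by
        have hw := (Finset.mem_filter.1 hw).2
        have e1 : ∀ a ≤ 0, (1 : Submodule k K) ≤ w.fil a := fun a ha =>
          one_le.2 (Or.inr (by rwa [ord_one]))
        rw [ordS_eq (σ := x) (sup_le (e1 _ hw.le) (pr_le.2 (Or.inr le_rfl)))
          (mem_sup_right (mem_pr x)) (fun e => by simp [e, w.zero] at hw),
          ordS_eq (σ := 1) (e1 _ (ord_one w).le) (one_le.1 le_rfl) one_ne_zero, ord_one]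
        exact hw
    obtain ⟨e, b4⟩ := bd_fg hs ((b1.sup one_fg).mul ((one_fg.sup (fg_span_singleton x)).pow c'))
    refine ⟨e, fun L hL => ?_⟩
    have b5 := b3 (V ^ L) (hVfg.pow L) (L + c')
    rw [Nat.add_sub_cancel, one_pow, mul_one, add_comm] at b5
    refine le_trans (Nat.add_le_add_right ?_ _) (b5.trans ?_)
    · obtain ⟨L, rfl⟩ := Nat.exists_eq_add_one_of_ne_zero hL.ne'
      rw [← finrank_bx hF.ind hi]
      refine finrank_le_of_mul (pow_ne_zero L (hi.ne_zero l)) ((b1.sup one_fg).mul (hVfg.pow _))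
        ((pow_bx l _ L).trans ?_)
      exact (one_mul _).ge.trans (mul_le_mul_left le_sup_right _)
    · have b6 : (1 ⊔ pr k x) ≤ 1 ⊔ span k (X : Set K) :=
        sup_le_sup_left (pr_le.2 (subset_span hx)) _
      refine ((h0.pow b4 (h0.mul (bd_bx (N + 1)) (h2.mono b6 le_rfl)) L).mono
        (y := (N + C) * L + e) (le_of_eq ?_) ?_).finrank_le hF.ind hi
      · rw [mul_pow, pow_add, pr]; ring
      · exact Nat.add_le_add_right (Nat.mul_le_mul_right _ (by omega)) _
  choose! e he using g3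
  have hl := ((((lim (2 * (N + C)) (c + 1) (m + 1)).add
    ((lim ((m + 3) * (N + C)) (c + 1) (m + 1)).const_mul 2)).add (tendsto_finsetSum X fun x _ =>
      (lim (N + C) (e x + 1) (m + 1)).sub (lim (N + 1) 1 (m + 1)))).const_mul
        (Fintype.card ι : ℝ)).eventually (gt_mem_nhds (lt_add_of_pos_right _ hε))
  filter_upwards [hl, eventually_gt_atTop 0] with L hL hL0
  have hp : (0 : ℝ) < (L : ℝ) ^ (m + 1) := by positivity
  simp only [← sub_div, ← Finset.sum_div, ← mul_div_assoc, ← add_div, div_lt_iff₀ hp,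
    Finset.sum_const, nsmul_eq_mul] at hL
  refine le_trans ?_ hL.le
  have g4 : ∑ w ∈ D, w.lead (V ^ L) ≤ ∑ x ∈ X, ∑ w ∈ D with w.ord x < 0, w.lead (V ^ L) := by
    simp only [Finset.sum_filter]
    rw [Finset.sum_comm]
    refine Finset.sum_le_sum fun w hw => ?_
    obtain ⟨x, hx, h⟩ := hX N w (hD hw)
    exact (if_pos h).ge.trans (Finset.single_le_sum
      (f := fun x => if w.ord x < 0 then w.lead (V ^ L) else 0) (fun _ _ => Nat.zero_le _) hx)
  have g5 : ((L * ∑ w ∈ D, w.lead (V ^ L) : ℕ) : ℝ) ≤ Fintype.card ι * ∑ x ∈ X,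
      (((N + C : ℝ) * L + (e x + 1)) ^ (m + 1) - ((N + 1) * L + 1) ^ (m + 1)) := by
    refine (Nat.cast_le.2 (Nat.mul_le_mul_left L g4)).trans ?_
    rw [Finset.mul_sum, Nat.cast_sum, Finset.mul_sum]
    refine Finset.sum_le_sum fun x hx => ?_
    rw [mul_sub, le_sub_iff_add_le']
    exact_mod_cast he x hx L hL0
  have g6 := (Nat.cast_le (α := ℝ)).2 (g1 L)
  have g7 := (Nat.cast_le (α := ℝ)).2 (g2 L)
  rw [Phi, Nat.cast_add, Nat.cast_add]
  push_cast at g6 g7 ⊢
  push_cast at g5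
  linarith

/-- A subspace of a box without Wronskians has at most half the dimension of the next box. -/
theorem two_mul_le [Fintype ι] (hF : Fr t d)
    (hi : LinearIndependent (IntermediateField.adjoin k (Set.range t)) η) {N : ℕ}
    {V : Submodule k K} (hV : V ≤ bx k t η N) (h : WW d V = ⊥) :
    2 * finrank k V ≤ Fintype.card ι * (N + 2) ^ (m + 1) := by
  obtain ⟨i, h1⟩ := big hF.dual h
  have : FiniteDimensional k (bx k t η (N + 1)) := Module.Finite.iff_fg.2 (bx_fg _)
  have a1 : V ≤ bx k t η (N + 1) := hV.trans (bx_mono (Nat.le_succ N))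
  have a2 : V.map (LinearMap.mulLeft k (t i)) ≤ bx k t η (N + 1) := by
    rintro _ ⟨x, hx, rfl⟩
    rw [add_comm N, ← cube_mul_bx, pow_one]
    exact mul_mem_mul (mem_cube i) (hV hx)
  have := finiteDimensional_of_le a1
  have := finiteDimensional_of_le a2
  have a3 := finrank_sup_add_finrank_inf_eq V (V.map (LinearMap.mulLeft k (t i)))
  have a4 : V ⊓ V.map (LinearMap.mulLeft k (t i)) = ⊥ := by
    rw [eq_bot_iff]
    rintro _ ⟨hy, x, hx, rfl⟩
    simp [h1 x hx hy]
  rw [a4, finrank_bot, add_zero, ← (equivMapOfInjective (LinearMap.mulLeft k (t i))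
    (mul_right_injective₀ (hF.ind.ne_zero i)) V).finrank_eq] at a3
  rw [two_mul, ← a3, ← finrank_bx hF.ind hi (N + 1)]
  exact Submodule.finrank_mono (sup_le a1 a2)

end pot

end Sta

open Sta in
/-- The first linear system. -/
theorem start_of (hdiv : DivStmt k K) : StartStmt k K m := by
  intro t d S hF _
  set F := IntermediateField.adjoin k (Set.range t) with hFe
  have := hF.fin
  have : Algebra.IsAlgebraic (Algebra.adjoin k (Set.range t)) K :=
    IntermediateField.isAlgebraic_adjoin_iff_top.1 inferInstance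
  let b := Module.finBasis F K
  choose y hy hb using fun l => (Algebra.IsAlgebraic.isAlgebraic
    (R := Algebra.adjoin k (Set.range t)) (b l)).exists_integral_multiple
  let b' := b.isUnitSMul
    (w := fun l => ⟨y l, IntermediateField.algebra_adjoin_le_adjoin k _ (y l).2⟩)
    fun l => Ne.isUnit fun e => hy l (Subtype.ext (congrArg (fun z : F => z.1) e))
  obtain ⟨C, a, hP⟩ := pot_bx hdiv hF S (η := b') ⟨0, finrank_pos⟩
    (fun l => by rw [Basis.isUnitSMul_apply]; exact hb l) b'.linearIndependent b'.span_eq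
  set D := Fintype.card (Fin (finrank F K)) with hD
  have hD0 : (0 : ℝ) < D := by
    rw [hD, Fintype.card_fin]; exact Nat.cast_pos.2 finrank_pos
  have hk : (kap m : ℝ) = 2 ^ (m + 1) + 2 * (m + 3) ^ (m + 1) + 1 := by simp [kap]
  have hk0 : (0 : ℝ) < kap m := by rw [hk]; positivity
  have l1 := (((lim 2 (2 * C) (m + 1)).add ((lim (m + 3) ((m + 3) * C) (m + 1)).const_mul 2)).add
    (((lim 1 C (m + 1)).sub (lim 1 1 (m + 1))).const_mul (a : ℝ))).const_mul (D : ℝ)
  have l2 := ((((lim 1 2 (m + 1)).const_mul 2).sub (lim 1 3 (m + 1))).const_mul (D : ℝ)).sub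
    ((lim 0 1 (m + 1)).const_mul 2)
  have l3 := l1.eventually_lt (l2.const_mul (kap m : ℝ)) (by
    simp only [one_pow, sub_self, mul_zero, add_zero, zero_pow (Nat.succ_ne_zero m), sub_zero, hk]
    linarith)
  have l4 := l1.eventually (lt_mem_nhds (show (0 : ℝ) < _ by
    simp only [sub_self, mul_zero, add_zero]
    positivity))
  obtain ⟨N, a1, a2, a3⟩ := (l3.and (l4.and (eventually_gt_atTop 0))).exists
  have hp : (0 : ℝ) < (N : ℝ) ^ (m + 1) := by positivity
  simp only [← sub_div, ← mul_div_assoc, ← add_div, one_mul, zero_mul, zero_add, one_pow,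
    mul_one, ← mul_add (2 : ℝ) N, ← mul_add ((m : ℝ) + 3) N] at a1 a2
  rw [div_lt_div_iff_of_pos_right hp, ← div_lt_iff₀' hk0] at a1
  rw [div_pos_iff_of_pos_right hp] at a2
  have a4 := div_pos a2 hk0
  refine ⟨_, _, bx_fg _, a4.le, by rw [mul_div_cancel₀ _ hk0.ne']; exact hP N,
    fun V hV h1 h2 => ?_⟩
  have h3 := (Nat.cast_le (α := ℝ)).2 (two_mul_le hF b'.linearIndependent hV h2)
  rw [finrank_bx hF.ind b'.linearIndependent] at h1
  rw [← hD] at h1 h3
  push_cast at h1 h3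
  rw [add_assoc (N : ℝ), one_add_one_eq_two] at h1
  rw [add_assoc (N : ℝ), show (1 + 2 : ℝ) = 3 by norm_num] at h3
  linarith

end Pool.Agent.MP_19ffc6_ag.Res.PA
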