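import Pool.Agent.MP_19ffc6_ag.Res.Step
import Pool.Agent.MP_19ffc6_ag.Res.Start
import Pool.Agent.MP_19ffc6_ag.Res.LocX
import Pool.Agent.MP_19ffc6_ag.Res.LocB
import Pool.Agent.MP_19ffc6_ag.Res.LocP
import Pool.Agent.MP_19ffc6_ag.Res.Base2
import Pool.Agent.MP_19ffc6_ag.Res.Bpf
import Pool.Agent.MP_19ffc6_ag.Res.Gen
import Pool.Agent.MP_19ffc6_ag.Res.Low
import Pool.Agent.MP_19ffc6_ag.Res.AFin
import Pool.Agent.MP_19ffc6_ag.Res.Out

/-! PROJECT RES, part A: the assembly. -/

namespace Pool.Agent.MP_19ffc6_ag.Res.PA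

/-- The bound for the characteristic in dimension `n`. -/
def bnd (n : ℕ) : ℕ := cst n (mu n)

theorem bnd_mono : Monotone bnd := fun a b h => by
  unfold bnd cst mu kap
  gcongr <;> first | omega | exact Nat.succ_le_of_lt (by positivity)

theorem big_of_char {k : Type} [Field k] (p : ℕ) [CharP k p] {C : ℕ} (h : C < p) : Big k C :=
  fun j h0 hj e => absurd (Nat.le_of_dvd h0 ((CharP.cast_eq_zero_iff k p j).1 e)) (by omega)

variable {k L : Type} [Field k] [IsAlgClosed k] [Field L] [IsAlgClosed L] [Algebra k L]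

/-- The tame projection theorem. -/
theorem tp (p : ℕ) [Fact p.Prime] [CharP k p] (m : ℕ) (hp : bnd m < p) : TPStmt k m (bnd m) :=
  tp_of (big_of_char p hp) fun _ _ _ => ⟨alb_of step_stmt (start_of div_stmt),
    gen_of locX locW locP core bpf (base_of2 locB bpf) (Fl.uni p), Fl.finX Low.low,
    Fl.finW Low.low p⟩

/-- Part A. -/
theorem partA (p : ℕ) [Fact p.Prime] [CharP k p] (m : ℕ) (hp : bnd m < p) :
    B.PartA k L m :=
  out_of m _ (big_of_char p hp) (tp p m hp)

/-- Part A in all smaller dimensions. -/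
theorem partA_all (p : ℕ) [Fact p.Prime] [CharP k p] (n : ℕ) (hp : bnd n < p) :
    ∀ m < n, B.PartA k L m := fun m hm => partA p m ((bnd_mono hm.le).trans_lt hp)

end Pool.Agent.MP_19ffc6_ag.Res.PA
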