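import Mathlib
import Pool.Agent.MP_19ffc6_ag.Res.Spread

/-! PROJECT RESAD, module GEN: fields of definition, Gauss extensions of valuations and generic
linear combinations. -/

namespace Pool.Agent.MP_19ffc6_ag.Res.Gen

open TensorProduct Module AlgebraicIndependent

section Rank

variable (F : Type) {K : Type} [Field F] [Field K] [Algebra F K]

/-- The elements that are algebraic over `F(t)`. -/
noncomputable def Ov (t : Set K) : IntermediateField F K :=
  (algebraicClosure (IntermediateField.adjoin F t) K).restrictScalars F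

/-- At most `n` elements of `X` are algebraically independent over `F`. -/
def Rk (X : Set K) (n : ℕ) : Prop :=
  ∀ (ι : Type) [Fintype ι] (g : ι → K), (∀ i, g i ∈ X) → AlgebraicIndependent F g →
    Fintype.card ι ≤ n

variable {F} {t X Y : Set K} {x : K} {n : ℕ}

theorem mem_Ov : x ∈ Ov F t ↔ IsAlgebraic (Algebra.adjoin F t) x :=
  mem_algebraicClosure_iff.trans IntermediateField.isAlgebraic_adjoin_iff

theorem subset_Ov : t ⊆ Ov F t := fun _ h =>
  mem_Ov.2 (isAlgebraic_algebraMap (⟨_, Algebra.subset_adjoin h⟩ : Algebra.adjoin F t))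

theorem coe_Ov : (Ov F t : Set K) = (matroid F K).closure t := by
  rw [matroid_closure_eq]
  exact Set.ext fun _ => mem_Ov

/-- `Ov F t` is algebraically closed in `K`. -/
theorem Ov_closed {R : Type} [CommRing R] [Algebra R K] (hi : Function.Injective (algebraMap R K))
    (h : ∀ r, algebraMap R K r ∈ Ov F t) (hx : IsAlgebraic R x) : x ∈ Ov F t := by
  let E := algebraicClosure (IntermediateField.adjoin F t) K
  let f : R →+* E := (algebraMap R K).codRestrict E h
  have : IsAlgebraic E x := hx.ringHom_of_comp_eq f (RingHom.id K)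
    (fun a b e => hi (congrArg Subtype.val e)) rfl
  exact mem_algebraicClosure_iff.2 (this.restrictScalars _)

theorem Ov_le {F' : Type} [Field F'] [Algebra F' K] {t' : Set K}
    (h : ∀ c, algebraMap F K c ∈ Ov F' t') (ht : t ⊆ Ov F' t') (hx : x ∈ Ov F t) :
    x ∈ Ov F' t' := by
  refine Ov_closed (R := Algebra.adjoin F t) Subtype.val_injective (fun r => ?_) (mem_Ov.1 hx)
  obtain ⟨r, hr⟩ := r
  change r ∈ _
  induction hr using Algebra.adjoin_induction with
  | mem y hy => exact ht hy
  | algebraMap c => exact h c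
  | add _ _ _ _ a b => exact add_mem a b
  | mul _ _ _ _ a b => exact mul_mem a b

theorem Ov_mono {t' : Set K} (ht : t ⊆ Ov F t') : Ov F t ≤ Ov F t' := fun _ =>
  Ov_le (fun c => (Ov F t').algebraMap_mem c) ht

/-- Extension of the field of constants. -/
theorem Ov_tower {F' : Type} [Field F'] [Algebra F' K] [Algebra F F'] [IsScalarTower F F' K]
    (hx : x ∈ Ov F t) : x ∈ Ov F' t :=
  Ov_le (fun c => by
    rw [IsScalarTower.algebraMap_apply F F' K]; exact (Ov F' t).algebraMap_mem _) subset_Ov hx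

theorem rk_iff : Rk F X n ↔ (matroid F K).eRk X ≤ n := by
  constructor
  · intro h
    by_contra hc
    obtain ⟨I, a, b, c⟩ := Matroid.le_eRk_iff.1
      (show ((n + 1 : ℕ) : ℕ∞) ≤ _ from Order.add_one_le_of_lt (not_le.1 hc))
    have := (Set.finite_of_encard_eq_coe c).fintype
    have h1 := h I Subtype.val (fun i => a i.2) (matroid_indep_iff.1 b)
    rw [Set.encard_eq_coe_toFinset_card, Set.toFinset_card, Nat.cast_inj] at c
    omega
  · intro h ι _ g hg hi
    have h1 : (matroid F K).Indep (Set.range g) := matroid_indep_iff.2 hi.to_subtype_range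
    have h2 := (h1.encard_le_eRk_of_subset (Set.range_subset_iff.2 hg)).trans h
    have h3 := hi.injective.encard_range.trans h2
    rw [ENat.card_eq_coe_fintype_card] at h3
    exact_mod_cast h3

theorem Rk.mono (h : Rk F Y n) (hX : X ⊆ Y) : Rk F X n :=
  fun ι _ g a b => h ι g (fun i => hX (a i)) b

theorem Rk.le {n' : ℕ} (h : Rk F X n) (hn : n ≤ n') : Rk F X n' :=
  fun ι _ g a b => (h ι g a b).trans hn

theorem Rk.ov (h : Rk F t n) : Rk F (Ov F t : Set K) n := by
  rwa [rk_iff, coe_Ov, Matroid.eRk_closure_eq, ← rk_iff]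

theorem Rk.union {n' : ℕ} (h : Rk F X n) (h' : Rk F Y n') : Rk F (X ∪ Y) (n + n') := by
  rw [rk_iff] at *
  exact (Matroid.eRk_union_le_eRk_add_eRk _ _ _).trans (by push_cast; exact add_le_add h h')

theorem rk_finset (s : Finset K) : Rk F (s : Set K) s.card :=
  rk_iff.2 ((Matroid.eRk_le_encard _ _).trans (Set.encard_coe_eq_coe_finsetCard s).le)

theorem rk_range {ι : Type} [Fintype ι] (g : ι → K) : Rk F (Set.range g) (Fintype.card ι) := by
  classical
  have := (rk_finset (F := F) (Finset.univ.image g)).le Finset.card_image_le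
  simpa using this

theorem rk_of_trdeg (E : IntermediateField F K) (h : Algebra.trdeg F E ≤ n) :
    Rk F (E : Set K) n := fun ι _ g hg hi => by
  have h1 : AlgebraicIndependent F fun i => (⟨g i, hg i⟩ : E) :=
    AlgebraicIndependent.of_comp E.val hi
  have h2 := h1.cardinalMk_le_trdeg.trans h
  rw [Cardinal.mk_fintype] at h2
  exact_mod_cast h2

/-- A maximal independent family spans. -/
theorem Rk.mem_Ov {ι : Type} [Fintype ι] {u : ι → K} (h : Rk F X (Fintype.card ι))
    (hu : ∀ i, u i ∈ X) (hi : AlgebraicIndependent F u) (hx : x ∈ X) :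
    x ∈ Ov F (Set.range u) := by
  rw [Gen.mem_Ov]
  by_contra hc
  have := h (Option ι) _ (fun o => by cases o <;> simp [hx, hu])
    ((hi.option_iff_transcendental x).2 hc)
  simp at this

theorem Rk.exists_basis (h : Rk F X n) :
    ∃ s : Finset K, ↑s ⊆ X ∧ s.card ≤ n ∧ X ⊆ Ov F (s : Set K) := by
  obtain ⟨B, hB⟩ := (matroid F K).exists_isBasis X
  have h1 : B.encard ≤ n := hB.encard_eq_eRk ▸ rk_iff.1 h
  obtain ⟨s, rfl⟩ := (Set.finite_of_encard_le_coe h1).exists_finset_coe
  rw [Set.encard_coe_eq_coe_finsetCard] at h1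
  exact ⟨s, hB.subset, by exact_mod_cast h1, by rw [coe_Ov]; exact hB.subset_closure⟩

/-- The rank does not grow when the constants are extended. -/
theorem Rk.tower {F' : Type} [Field F'] [Algebra F' K] [Algebra F F'] [IsScalarTower F F' K]
    (h : Rk F X n) : Rk F' X n := by
  obtain ⟨s, -, a, b⟩ := h.exists_basis
  exact ((rk_finset s).ov.mono fun x hx => Ov_tower (b hx)).le a

/-- A finite set is defined over a finitely generated field of constants. -/
theorem exists_fin {Z : Set K} (hZ : Z.Finite) (h : Z ⊆ Ov F t) :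
    ∃ C : Set F, C.Finite ∧ ∀ E : Subfield F, C ⊆ E → Z ⊆ Ov E t := by
  have h1 : ∀ a ∈ Algebra.adjoin F t, ∃ C : Set F, C.Finite ∧
      ∀ E : Subfield F, C ⊆ E → a ∈ Ov E t := fun a ha => by
    induction ha using Algebra.adjoin_induction with
    | mem y hy => exact ⟨∅, Set.finite_empty, fun E _ => subset_Ov hy⟩
    | algebraMap c => exact ⟨{c}, Set.finite_singleton c, fun E hE =>
        (Ov E t).algebraMap_mem ⟨c, hE rfl⟩⟩
    | add _ _ _ _ a b =>
      obtain ⟨C, a1, a2⟩ := a
      obtain ⟨C', b1, b2⟩ := b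
      exact ⟨C ∪ C', a1.union b1, fun E hE => add_mem (a2 E (Set.union_subset_iff.1 hE).1)
        (b2 E (Set.union_subset_iff.1 hE).2)⟩
    | mul _ _ _ _ a b =>
      obtain ⟨C, a1, a2⟩ := a
      obtain ⟨C', b1, b2⟩ := b
      exact ⟨C ∪ C', a1.union b1, fun E hE => mul_mem (a2 E (Set.union_subset_iff.1 hE).1)
        (b2 E (Set.union_subset_iff.1 hE).2)⟩
  have h2 : ∀ z ∈ Z, ∃ C : Set F, C.Finite ∧ ∀ E : Subfield F, C ⊆ E → z ∈ Ov E t := fun z hz => by
    obtain ⟨p, p0, pz⟩ := mem_Ov.1 (h hz)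
    choose C c1 c2 using fun i => h1 _ (p.coeff i).2
    refine ⟨⋃ i ∈ p.support, C i, p.support.finite_toSet.biUnion fun i _ => c1 i, fun E hE => ?_⟩
    let q := p.map (algebraMap (Algebra.adjoin F t) K)
    have hq : q ∈ Polynomial.lifts (algebraMap (Ov E t) K) := by
      rw [Polynomial.lifts_iff_coeff_lifts]
      intro i
      rw [Polynomial.coeff_map]
      by_cases e : i ∈ p.support
      · exact ⟨⟨_, c2 i E fun y hy => hE (Set.mem_biUnion e hy)⟩, rfl⟩
      · rw [Polynomial.notMem_support_iff.1 e, map_zero]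
        exact ⟨0, map_zero _⟩
    obtain ⟨q', e⟩ := hq
    have e : q'.map (algebraMap (Ov E t) K) = q := e
    refine Ov_closed (R := Ov E t) Subtype.val_injective (fun r => r.2) ⟨q', ?_, ?_⟩
    · rintro rfl
      rw [Polynomial.map_zero] at e
      exact p0 ((Polynomial.map_eq_zero_iff Subtype.val_injective).1 e.symm)
    · rw [← Polynomial.eval_map_algebraMap, e, Polynomial.eval_map_algebraMap, pz]
  choose! C c1 c2 using h2
  exact ⟨⋃ z ∈ Z, C z, hZ.biUnion c1, fun E hE z hz =>
    c2 z hz E fun y hy => hE (Set.mem_biUnion hz hy)⟩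

end Rank

section Const

variable {k : Type} [Field k] (k₀ : Subfield k) (X : Set k)

/-- The algebraic closure of `k₀(X)` in `k`. -/
noncomputable def ext : Subfield k := (Ov k₀ X).toSubfield

instance [IsAlgClosed k] : IsAlgClosed (ext k₀ X) :=
  IsAlgClosure.isAlgClosed (IntermediateField.adjoin k₀ X)
    (K := algebraicClosure (IntermediateField.adjoin k₀ X) k)

variable {k₀ X}

theorem mem_ext {c : k} : c ∈ ext k₀ X ↔ c ∈ Ov k₀ X := Iff.rfl

theorem le_ext : k₀ ≤ ext k₀ X := fun c h => (Ov k₀ X).algebraMap_mem ⟨c, h⟩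

theorem subset_ext : X ⊆ ext k₀ X := subset_Ov

theorem Ov_ext {B : Set k} {c : k} (h : c ∈ Ov (ext k₀ X) B) : c ∈ Ov k₀ (X ∪ B) :=
  Ov_le (fun c => Ov_mono (Set.subset_union_left.trans subset_Ov) c.2)
    (Set.subset_union_right.trans subset_Ov) h

/-- Larger subfields of constants. -/
theorem Ov_sub {K : Type} [Field K] [Algebra k K] {k₁ : Subfield k} (h : k₀ ≤ k₁) {t : Set K}
    {x : K} (hx : x ∈ Ov k₀ t) : x ∈ Ov k₁ t :=
  Ov_le (fun c : k₀ => (Ov k₁ t).algebraMap_mem ⟨c.1, h c.2⟩) subset_Ov hx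

/-- `k` has infinite transcendence degree over `k₀`. -/
def Inf (k₀ : Subfield k) : Prop := ∀ n, ¬ Rk k₀ (Set.univ : Set k) n

theorem Inf.ext (h : Inf k₀) {n : ℕ} (hX : Rk k₀ X n) : Inf (ext k₀ X) := fun m hm => by
  obtain ⟨s, -, a, b⟩ := hm.exists_basis
  exact h _ ((hX.union ((rk_finset s).le a)).ov.mono fun x hx => Ov_ext (b hx))

theorem Inf.exists_ind (h : Inf k₀) (ι : Type) [Fintype ι] :
    ∃ l : ι → k, AlgebraicIndependent k₀ l := by
  have := h (Fintype.card ι)
  simp only [Rk, not_forall, not_le] at this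
  obtain ⟨κ, _, g, -, a, b⟩ := this
  obtain ⟨f⟩ := Function.Embedding.nonempty_of_card_le b.le
  exact ⟨g ∘ f, a.comp f f.injective⟩

/-- DEF: the defect of generic elements over the field generated by a point. -/
theorem defect {ι : Type} {l : ι → k} (hl : AlgebraicIndependent k₀ l) {n : ℕ} (hX : Rk k₀ X n)
    {I J : Finset ι} (d : Disjoint I J) :
    J.card ≤ finrank (ext k₀ (X ∪ l '' I)) (Submodule.span (ext k₀ (X ∪ l '' I)) (l '' J)) + n := by
  classical
  set E := ext k₀ (X ∪ l '' I)
  set N := Submodule.span E (l '' J)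
  have : Module.Finite E N := .span_of_finite _ (J.finite_toSet.image l)
  let b := finBasis E N
  have h1 : Rk k₀ (X ∪ l '' I ∪ Set.range fun i => (b i : k)) (n + I.card + finrank E N) := by
    refine (hX.union ?_).union (by simpa using rk_range (F := k₀) fun i => (b i : k))
    simpa using (rk_finset (F := k₀) (I.image l)).le Finset.card_image_le
  have h2 := h1.ov (I ∪ J : Finset ι) (fun i => l i) (fun ⟨i, hi⟩ => by
    rcases Finset.mem_union.1 hi with hi | hi
    · exact subset_Ov (Or.inl (Or.inr ⟨i, hi, rfl⟩))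
    · refine Ov_ext ?_
      have m : l i ∈ N := Submodule.subset_span ⟨i, hi, rfl⟩
      have e := congrArg Subtype.val (b.sum_repr ⟨_, m⟩)
      simp only [AddSubmonoidClass.coe_finsetSum, SetLike.val_smul] at e
      change l i ∈ _
      rw [← e]
      exact sum_mem fun j _ => IntermediateField.smul_mem _
        (subset_Ov (Set.mem_range_self (f := fun i => (b i : k)) j)))
    (hl.comp _ Subtype.val_injective)
  rw [Fintype.card_coe, Finset.card_union_of_disjoint d] at h2
  omega

/-- The form for the rows of a generic matrix. -/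
theorem defect_row {ι A : Type} [Fintype A] {l : ι → A → k}
    (hl : AlgebraicIndependent k₀ fun p : ι × A => l p.1 p.2) {n : ℕ} (hX : Rk k₀ X n)
    (I : Finset ι) {j : ι} (hj : j ∉ I) :
    Fintype.card A ≤ finrank (ext k₀ (X ∪ ⋃ i ∈ I, Set.range (l i)))
      (Submodule.span (ext k₀ (X ∪ ⋃ i ∈ I, Set.range (l i))) (Set.range (l j))) + n := by
  have := defect hl hX (I := I ×ˢ Finset.univ) (J := {j} ×ˢ Finset.univ)
    (Finset.disjoint_product.2 (Or.inl (by simpa using hj)))
  have e1 : (fun p : ι × A => l p.1 p.2) '' (I ×ˢ Finset.univ : Finset (ι × A)) =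
      ⋃ i ∈ I, Set.range (l i) := by ext; simp
  have e2 : (fun p : ι × A => l p.1 p.2) '' ({j} ×ˢ Finset.univ : Finset (ι × A)) =
      Set.range (l j) := by ext; simp
  rw [e1, e2] at this
  simpa using this

theorem finrank_lt {F : Type} [Field F] [Algebra F k] {A : Type} [Fintype A] {l : A → k}
    {c : A → F} (hc : c ≠ 0) (h : ∑ a, c a • l a = 0) :
    finrank F (Submodule.span F (Set.range l)) < Fintype.card A := by
  refine (finrank_range_le_card l).lt_of_ne fun e => hc ?_
  exact funext (Fintype.linearIndependent_iff.1 (linearIndependent_iff_card_eq_finrank_span.2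
    e.symm) c h)

/-- BPF: `n + 1` generic linear forms have no common zero on a variety of dimension `n`. -/
theorem bpf {A : Type} [Fintype A] {n : ℕ} {l : Fin (n + 1) → A → k}
    (hl : AlgebraicIndependent k₀ fun p : Fin (n + 1) × A => l p.1 p.2) {c : A → k}
    (hX : Rk k₀ (Set.range c) n) (hc : c ≠ 0) : ∃ i, ∑ a, l i a * c a ≠ 0 := by
  by_contra hcon
  push Not at hcon
  have := defect hl hX (I := ∅) (J := Finset.univ) (by simp)
  set E := ext k₀ (Set.range c ∪ (fun p : Fin (n + 1) × A => l p.1 p.2) ''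
    ((∅ : Finset (Fin (n + 1) × A)) : Set (Fin (n + 1) × A)))
  let c' : A → E := fun a => ⟨c a, subset_ext (Or.inl ⟨a, rfl⟩)⟩
  have h1 : ∀ i, finrank E (Submodule.span E (Set.range (l i))) + 1 ≤ Fintype.card A := fun i =>
    finrank_lt (c := c') (fun e => hc (funext fun a => congrArg Subtype.val (congrFun e a))) (by
      rw [← hcon i]
      exact Finset.sum_congr rfl fun a _ => mul_comm _ _)
  have e : Submodule.span E ((fun p : Fin (n + 1) × A => l p.1 p.2) ''
      ((Finset.univ : Finset (Fin (n + 1) × A)) : Set (Fin (n + 1) × A))) =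
      Finset.univ.sup fun i => Submodule.span E (Set.range (l i)) := by
    rw [Finset.sup_univ_eq_iSup, ← Submodule.span_iUnion]
    congr 1
    ext; simp
  have : ∀ i, Module.Finite E (Submodule.span E (Set.range (l i))) := fun i =>
    .span_of_finite _ (Set.finite_range _)
  have h2 : ∀ s : Finset (Fin (n + 1)), finrank E
      (s.sup fun i => Submodule.span E (Set.range (l i)) :) + s.card ≤ s.card * Fintype.card A := by
    intro s
    induction s using Finset.induction_on with
    | empty => simp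
    | insert i s hi ih =>
      rw [Finset.sup_insert, Finset.card_insert_of_notMem hi, Nat.succ_mul]
      have h3 := Submodule.finrank_add_le_finrank_add_finrank
        (Submodule.span E (Set.range (l i))) (s.sup fun i => Submodule.span E (Set.range (l i)))
      have := h1 i
      omega
  have h3 := h2 Finset.univ
  rw [← e] at h3
  simp only [Finset.card_univ, Fintype.card_prod, Fintype.card_fin] at *
  omega

end Const

section Val

/-- Linear disjointness from an algebraically closed field of definition. -/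
theorem ld {F k κ : Type} [Field F] [IsAlgClosed F] [Field k] [Field κ] [Algebra F k] [Algebra k κ]
    [Algebra F κ] [IsScalarTower F k κ] {ι β : Type} [Fintype β] {u : ι → κ}
    (hu : AlgebraicIndependent k u) {ε : β → k} (hε : LinearIndependent F ε) {s : β → κ}
    (hs : ∀ b, s b ∈ Ov F (Set.range u)) (h : ∑ b, ε b • s b = 0) (b : β) : s b = 0 := by
  have := SpreadM.tensor_domain (k := F) (k2 := κ) (K := k)
  have hF : AlgebraicIndependent F u := hu.restrictScalars (algebraMap F k).injective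
  let ψ : MvPolynomial ι k →+* κ ⊗[F] k := MvPolynomial.eval₂Hom
    (Algebra.TensorProduct.includeRight : k →ₐ[F] κ ⊗[F] k) fun i => u i ⊗ₜ 1
  let _ := ψ.toAlgebra
  let φ : κ ⊗[F] k →ₐ[F] κ :=
    Algebra.TensorProduct.productMap (AlgHom.id F κ) (IsScalarTower.toAlgHom F k κ)
  have hφ : ∀ P, φ (ψ P) = MvPolynomial.aeval u P := fun P => by
    induction P using MvPolynomial.induction_on with
    | C c => simp [φ, ψ]
    | add P Q a b => rw [map_add, map_add, map_add, a, b]
    | mul_X P i a => rw [map_mul, map_mul, map_mul, a]; simp [φ, ψ]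
  have hψ : Function.Injective ψ := fun P Q e => hu (by rw [← hφ, ← hφ, e])
  have : FaithfulSMul (MvPolynomial ι k) (κ ⊗[F] k) :=
    (faithfulSMul_iff_algebraMap_injective _ _).2 hψ
  have ha : ∀ b, IsAlgebraic (MvPolynomial ι k) (s b ⊗ₜ[F] (1 : k)) := fun b => by
    refine (mem_Ov.1 (hs b)).ringHom_of_comp_eq
      ((MvPolynomial.map (algebraMap F k)).comp hF.aevalEquiv.symm.toRingEquiv.toRingHom)
      (Algebra.TensorProduct.includeLeftRingHom : κ →+* κ ⊗[F] k)
      ((MvPolynomial.map_injective _ (algebraMap F k).injective).comp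
        hF.aevalEquiv.symm.injective) (RingHom.ext fun a => ?_)
    obtain ⟨P, rfl⟩ := hF.aevalEquiv.surjective a
    change ψ (MvPolynomial.map _ (hF.aevalEquiv.symm (hF.aevalEquiv P))) =
      (hF.aevalEquiv P : κ) ⊗ₜ[F] (1 : k)
    rw [AlgEquiv.symm_apply_apply, hF.aevalEquiv_apply_coe]
    induction P using MvPolynomial.induction_on with
    | C c => simp [ψ, Algebra.algebraMap_eq_smul_one, TensorProduct.smul_tmul]
    | add P Q a b => rw [map_add, map_add, map_add, a, b, TensorProduct.add_tmul]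
    | mul_X P i a => rw [map_mul, map_mul, map_mul, a]; simp [ψ]
  have hz : IsAlgebraic (MvPolynomial ι k) (∑ b, s b • ((1 : κ) ⊗ₜ[F] ε b)) := by
    refine Finset.sum_induction _ _ (fun _ _ => IsAlgebraic.add) isAlgebraic_zero fun b _ => ?_
    have e : s b • ((1 : κ) ⊗ₜ[F] ε b) =
        (s b ⊗ₜ[F] (1 : k)) * algebraMap (MvPolynomial ι k) _ (MvPolynomial.C (ε b)) := by
      change _ = _ * ψ _
      simp [ψ, TensorProduct.smul_tmul']
    rw [e]
    exact (ha b).mul (isAlgebraic_algebraMap _)
  refine Fintype.linearIndependent_iff.1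
    (Module.Flat.linearIndependent_one_tmul (S := κ) hε) s ?_ b
  by_contra h0
  obtain ⟨P, P0, y, e⟩ := hz.exists_nonzero_dvd (mem_nonZeroDivisors_of_ne_zero h0)
  have e1 : φ (∑ b, s b • ((1 : κ) ⊗ₜ[F] ε b)) = 0 := by
    rw [← h, map_sum]
    refine Finset.sum_congr rfl fun b _ => ?_
    simp [φ, Algebra.smul_def, mul_comm]
  refine P0 (hu ?_)
  rw [← hφ, map_zero]
  change φ (algebraMap _ _ P) = 0
  rw [e, map_mul, e1, zero_mul]

variable (k : Type) {K κ Γ : Type} [Field k] [Field K] [Field κ] [Algebra k K] [Algebra k κ]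
  [LinearOrderedCommGroupWithZero Γ]

/-- `r` is a residue map of the valuation `v`, which is trivial on `k`. -/
structure Rs (v : Valuation K Γ) (r : K → κ) : Prop where
  triv : ∀ c : k, v (algebraMap k K c) ≤ 1
  add : ∀ x y, v x ≤ 1 → v y ≤ 1 → r (x + y) = r x + r y
  mul : ∀ x y, v x ≤ 1 → v y ≤ 1 → r (x * y) = r x * r y
  cst : ∀ c : k, r (algebraMap k K c) = algebraMap k κ c
  zero : ∀ x, v x ≤ 1 → (r x = 0 ↔ v x < 1)

variable {k} {v : Valuation K Γ} {r : K → κ}

theorem exists_rs (h : ∀ c : k, v (algebraMap k K c) ≤ 1) :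
    ∃ (κ : Type) (_ : Field κ) (_ : Algebra k κ) (r : K → κ), Rs k v r := by
  classical
  let ρ := IsLocalRing.residue v.valuationSubring
  let _ := (ρ.comp ((algebraMap k K).codRestrict v.valuationSubring h)).toAlgebra
  let r : K → _ := fun x => if h : v x ≤ 1 then ρ ⟨x, h⟩ else 0
  have e : ∀ x (hx : v x ≤ 1), r x = ρ ⟨x, hx⟩ := fun x hx => dif_pos hx
  refine ⟨_, inferInstance, inferInstance, r, h, fun x y a b => ?_, fun x y a b => ?_,
    fun c => e _ (h c), fun x a => ?_⟩
  · rw [e x a, e y b, e _ (v.map_add_le a b), ← map_add]; rfl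
  · rw [e x a, e y b, e _ ((map_mul v x y).trans_le (mul_le_one' a b)), ← map_mul ρ]; rfl
  · rw [e x a]
    exact (IsLocalRing.residue_eq_zero_iff _).trans (Valuation.mem_maximalIdeal_iff K v)

namespace Rs

theorem res (F : Type) [Field F] [Algebra F k] [Algebra F K] [Algebra F κ] [IsScalarTower F k K]
    [IsScalarTower F k κ] (h : Rs k v r) : Rs F v r :=
  ⟨fun c => by rw [IsScalarTower.algebraMap_apply F k K]; exact h.triv _, h.add, h.mul,
    fun c => by rw [IsScalarTower.algebraMap_apply F k K, h.cst, ← IsScalarTower.algebraMap_apply],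
    h.zero⟩

variable (h : Rs k v r) {ι : Type} {g : ι → K}
include h

theorem aeval (hg : ∀ i, v (g i) ≤ 1) (P : MvPolynomial ι k) :
    v (MvPolynomial.aeval g P) ≤ 1 ∧
      r (MvPolynomial.aeval g P) = MvPolynomial.aeval (fun i => r (g i)) P := by
  induction P using MvPolynomial.induction_on with
  | C c => simpa using ⟨h.triv c, h.cst c⟩
  | add P Q a b =>
    rw [map_add, map_add (MvPolynomial.aeval _), h.add _ _ a.1 b.1, a.2, b.2]
    exact ⟨v.map_add_le a.1 b.1, rfl⟩
  | mul_X P i a =>
    rw [map_mul, map_mul (MvPolynomial.aeval _), MvPolynomial.aeval_X, MvPolynomial.aeval_X,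
      h.mul _ _ a.1 (hg i), a.2, map_mul]
    exact ⟨mul_le_one' a.1 (hg i), rfl⟩

theorem ind (hg : ∀ i, v (g i) ≤ 1) : AlgebraicIndependent k (fun i => r (g i)) ↔
    ∀ P : MvPolynomial ι k, v (MvPolynomial.aeval g P) < 1 → P = 0 := by
  rw [algebraicIndependent_iff]
  refine forall_congr' fun P => ?_
  rw [← (h.aeval hg P).2, h.zero _ (h.aeval hg P).1]

theorem smul (c : k) {x : K} (hx : v x ≤ 1) : v (c • x) ≤ 1 ∧ r (c • x) = c • r x := by
  rw [Algebra.smul_def, Algebra.smul_def, h.mul _ _ (h.triv c) hx, h.cst, map_mul]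
  exact ⟨mul_le_one' (h.triv c) hx, rfl⟩

theorem sum (s : Finset ι) (hg : ∀ i ∈ s, v (g i) ≤ 1) : r (∑ i ∈ s, g i) = ∑ i ∈ s, r (g i) := by
  classical
  induction s using Finset.induction_on with
  | empty => simpa using h.cst 0
  | insert a s ha ih =>
    have h' : ∀ i ∈ s, v (g i) ≤ 1 := fun i hi => hg i (Finset.mem_insert_of_mem hi)
    rw [Finset.sum_insert ha, Finset.sum_insert ha,
      h.add _ _ (hg a (Finset.mem_insert_self _ _)) (v.map_sum_le h'), ih h']

theorem lift0 (hg : ∀ i, v (g i) ≤ 1) (hi : AlgebraicIndependent k fun i => r (g i)) :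
    AlgebraicIndependent k g :=
  algebraicIndependent_iff.2 fun P e => (h.ind hg).1 hi P (by rw [e, map_zero]; exact zero_lt_one)

theorem lift (hg : ∀ i, v (g i) ≤ 1) (hi : AlgebraicIndependent k fun i => r (g i)) {π : K}
    (h0 : π ≠ 0) (h1 : v π < 1) : AlgebraicIndependent k fun o : Option ι => o.elim π g := by
  refine ((h.lift0 hg hi).option_iff_transcendental π).2 fun a => ?_
  obtain ⟨q, q0, hq⟩ := a.exists_nonzero_coeff_and_aeval_eq_zero
    (mem_nonZeroDivisors_of_ne_zero h0)
  have h2 : ∀ a : Algebra.adjoin k (Set.range g), ∃ P, MvPolynomial.aeval g P = (a : K) :=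
    fun ⟨a, ha⟩ => by rwa [Algebra.adjoin_range_eq_range_aeval] at ha
  have h3 : v (Polynomial.aeval π q.divX) ≤ 1 := by
    rw [Polynomial.aeval_eq_sum_range]
    refine v.map_sum_le fun i _ => ?_
    obtain ⟨P, e⟩ := h2 (q.divX.coeff i)
    rw [Algebra.smul_def, map_mul, map_pow]
    exact mul_le_one' (show v (q.divX.coeff i : K) ≤ 1 from e ▸ (h.aeval hg P).1)
      (pow_le_one' h1.le i)
  obtain ⟨P, e⟩ := h2 (q.coeff 0)
  rw [← q.divX_mul_X_add, map_add, map_mul, Polynomial.aeval_X, Polynomial.aeval_C,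
    add_eq_zero_iff_neg_eq] at hq
  have h4 : P = 0 := (h.ind hg).1 hi P (by
    rw [e, show (q.coeff 0 : K) = _ from hq.symm, Valuation.map_neg, map_mul]
    exact (mul_le_of_le_one_left' h3).trans_lt h1)
  exact q0 (Subtype.ext (by rw [← e, h4, map_zero]; rfl))

/-- Specialization does not increase the rank. -/
theorem rk0 {X : Set K} {n : ℕ} (hX : Rk k X n) : Rk k (r '' {x | x ∈ X ∧ v x ≤ 1}) n := by
  intro ι _ g hg hi
  choose f a b using hg
  exact hX ι f (fun i => (a i).1) (h.lift0 (fun i => (a i).2) (by simpa only [b] using hi))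

/-- The inequality of Abhyankar. -/
theorem rk {X : Set K} {n : ℕ} (hX : Rk k X (n + 1)) {π : K} (hπ : π ∈ X) (h0 : π ≠ 0)
    (h1 : v π < 1) : Rk k (r '' {x | x ∈ X ∧ v x ≤ 1}) n := by
  intro ι _ g hg hi
  choose f a b using hg
  have := hX (Option ι) _ (fun o => by cases o <;> simp [hπ, (a _).1])
    (h.lift (fun i => (a i).2) (by simpa only [b] using hi) h0 h1)
  simpa using this

/-- Residues are defined over the field of definition. -/
theorem mem_Ov [Fintype ι] {X : Set K} (hX : Rk k X (Fintype.card ι + 1)) {π : K} (hπ : π ∈ X)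
    (h0 : π ≠ 0) (h1 : v π < 1) (hg : ∀ i, g i ∈ X ∧ v (g i) ≤ 1)
    (hi : AlgebraicIndependent k fun i => r (g i)) {x : K} (hx : x ∈ X) (hv : v x ≤ 1) :
    r x ∈ Ov k (Set.range fun i => r (g i)) :=
  (h.rk hX hπ h0 h1).mem_Ov (fun i => ⟨g i, hg i, rfl⟩) hi ⟨x, ⟨hx, hv⟩, rfl⟩

end Rs

variable {F : Type} [Field F] [Algebra F k] [Algebra F K] [IsScalarTower F k K]

variable (k v) in
/-- The valuation `v` is the Gauss extension of its restriction to `E`. -/
def Gauss (E : IntermediateField F K) : Prop :=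
  ∀ (β : Type) [Fintype β] (ε : β → k), LinearIndependent F ε → ∀ s : β → K, (∀ b, s b ∈ E) →
    ∀ b, v (s b) ≤ v (∑ b, ε b • s b)

/-- GAUSS. -/
theorem gauss [IsAlgClosed F] (h : ∀ c : k, v (algebraMap k K c) ≤ 1) {E : IntermediateField F K}
    {ι : Type} [Fintype ι] (hE : Rk F (E : Set K) (Fintype.card ι + 1)) {π : K} (hπ : π ∈ E)
    (h0 : π ≠ 0) (h1 : v π < 1) {u : ι → K} (hu : ∀ i, u i ∈ E ∧ v (u i) ≤ 1)
    (hi : ∀ P : MvPolynomial ι k, v (MvPolynomial.aeval u P) < 1 → P = 0) : Gauss k v E := by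
  intro β _ ε hε s hs b
  obtain ⟨κ, _, _, r, hr⟩ := exists_rs h
  let _ : Algebra F κ := ((algebraMap k κ).comp (algebraMap F k)).toAlgebra
  have : IsScalarTower F k κ := .of_algebraMap_eq fun _ => rfl
  have hk := (hr.ind fun i => (hu i).2).2 hi
  obtain ⟨b₀, -, hb⟩ := Finset.exists_max_image Finset.univ (fun b => v (s b)) ⟨b, by simp⟩
  refine (hb b (by simp)).trans ?_
  by_cases e : s b₀ = 0
  · simp [e]
  have p : 0 < v (s b₀) := zero_lt_iff.2 ((Valuation.ne_zero_iff _).2 e)
  have h2 : ∀ b, v (s b / s b₀) ≤ 1 := fun b => by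
    rw [map_div₀, div_le_one₀ p]; exact hb b (by simp)
  by_contra hc
  have h3 : ∑ b, ε b • r (s b / s b₀) = 0 := by
    rw [← Finset.sum_congr rfl fun b _ => (hr.smul (ε b) (h2 b)).2,
      ← hr.sum _ fun b _ => (hr.smul (ε b) (h2 b)).1,
      hr.zero _ (v.map_sum_le fun b _ => (hr.smul (ε b) (h2 b)).1)]
    simp only [← smul_div_assoc, ← Finset.sum_div]
    rw [map_div₀, div_lt_one₀ p]
    exact not_le.1 hc
  have h4 := ld hk hε (fun b => (hr.res F).mem_Ov hE hπ h0 h1 hu
    (hk.restrictScalars (algebraMap F k).injective) (div_mem (hs b) (hs b₀)) (h2 b)) h3 b₀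
  rw [div_self e, hr.zero _ (by simp)] at h4
  simp at h4

/-- Elements of distinct values are independent modulo smaller elements. -/
theorem ind_of_distinct (h : ∀ c : k, v (algebraMap k K c) ≤ 1) {β : Type} [Fintype β]
    {w : β → K} {ρ : Γ} (h0 : ρ ≠ 0) (hw : ∀ i, ρ ≤ v (w i))
    (hd : Function.Injective fun i => v (w i)) (c : β → k) (hc : v (∑ i, c i • w i) < ρ) :
    c = 0 := by
  classical
  have h1 : ∀ c : k, c ≠ 0 → ∀ x, v (c • x) = v x := fun c c0 x => by
    have a := h c⁻¹
    have p : 0 < v (algebraMap k K c) :=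
      zero_lt_iff.2 ((Valuation.ne_zero_iff _).2 ((map_ne_zero _).2 c0))
    rw [map_inv₀, map_inv₀, inv_le_one₀ p] at a
    rw [Algebra.smul_def, map_mul, (h c).antisymm a, one_mul]
  by_contra hn
  obtain ⟨i, hi⟩ := Function.ne_iff.1 hn
  obtain ⟨j, hj, hm⟩ := Finset.exists_max_image (Finset.univ.filter fun i => c i ≠ 0)
    (fun i => v (w i)) ⟨i, by simpa using hi⟩
  have hj : c j ≠ 0 := by simpa using hj
  have p : 0 < v (w j) := (zero_lt_iff.2 h0).trans_le (hw j)
  rw [v.map_sum_eq_of_lt (Finset.mem_univ j) (fun i hi => by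
    rw [h1 _ hj]
    by_cases e : c i = 0
    · simpa [e] using p
    · rw [h1 _ e]
      exact (hm i (by simpa using e)).lt_of_ne fun t => by simp [hd t] at hi), h1 _ hj] at hc
  exact absurd (hw j) (not_le.2 hc)

/-- AVOID, general form: the test vectors are independent modulo elements of value `< ρ`. -/
theorem avoid' (h : ∀ c : k, v (algebraMap k K c) ≤ 1) {E : IntermediateField F K}
    (hG : Gauss k v E) {A β : Type} [Fintype A] [Fintype β] {e : A → K} (he : ∀ a, e a ∈ E)
    {w : β → A → F} {ρ : Γ} (h0 : ρ ≠ 0)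
    (hw : ∀ c : β → F, v (∑ i, c i • ∑ a, w i a • e a) < ρ → c = 0) {l : A → k}
    (hl : Fintype.card A < finrank F (Submodule.span F (Set.range l)) + Fintype.card β) :
    ρ ≤ v (∑ a, l a • e a) := by
  by_contra hc
  rw [not_le] at hc
  set N := Submodule.span F (Set.range l)
  have : Module.Finite F N := .span_of_finite _ (Set.finite_range l)
  let b := finBasis F N
  let l' : A → N := fun a => ⟨l a, Submodule.subset_span ⟨a, rfl⟩⟩
  let μ : Fin (finrank F N) → A → F := fun j a => b.repr (l' a) j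
  have e1 : ∑ a, l a • e a = ∑ j, (b j : k) • ∑ a, μ j a • e a := by
    simp only [Finset.smul_sum]
    rw [Finset.sum_comm]
    refine Finset.sum_congr rfl fun a _ => ?_
    have := congrArg Subtype.val (b.sum_repr (l' a))
    simp only [AddSubmonoidClass.coe_finsetSum, SetLike.val_smul] at this
    rw [show l a = _ from this.symm, Finset.sum_smul]
    exact Finset.sum_congr rfl fun j _ => by rw [smul_assoc, smul_comm]
  have e2 : ∀ j, v (∑ a, μ j a • e a) < ρ := fun j =>
    (hG _ (fun j => (b j : k)) (b.linearIndependent.map' N.subtype N.ker_subtype) _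
      (fun j => sum_mem fun a _ => E.smul_mem (he a)) j).trans_lt (e1 ▸ hc)
  have hF : ∀ (c : F) (x : K), v (c • x) ≤ v x := fun c x => by
    rw [Algebra.smul_def, map_mul, IsScalarTower.algebraMap_apply F k K]
    exact mul_le_of_le_one_left' (h _)
  have li : LinearIndependent F (Sum.elim μ w) := by
    rw [Fintype.linearIndependent_iff]
    intro c hc
    rw [Fintype.sum_sum_type] at hc
    simp only [Sum.elim_inl, Sum.elim_inr] at hc
    let φ := Fintype.linearCombination F e
    have h1 := congrArg φ hc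
    simp only [map_add, map_sum, map_smul, map_zero, φ, Fintype.linearCombination_apply] at h1
    have h2 := hw (fun i => c (Sum.inr i)) (by
      rw [← neg_eq_iff_add_eq_zero.2 h1, Valuation.map_neg]
      exact v.map_sum_lt h0 fun j _ => (hF _ _).trans_lt (e2 j))
    have h3 : ∀ i, c (Sum.inr i) = 0 := congrFun h2
    simp only [h3, zero_smul, Finset.sum_const_zero, add_zero] at hc
    let f : N →ₗ[F] F := ∑ j, c (Sum.inl j) • b.coord j
    have h4 : f = 0 := by
      refine LinearMap.ext fun ⟨x, hx⟩ => ?_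
      induction hx using Submodule.span_induction with
      | mem x hx =>
        obtain ⟨a, rfl⟩ := hx
        simpa [f, μ, l'] using congrFun hc a
      | zero => exact f.map_zero
      | add x y hx hy a b => exact (f.map_add ⟨x, hx⟩ ⟨y, hy⟩).trans (by rw [a, b]; simp)
      | smul t x hx a => exact (f.map_smul t ⟨x, hx⟩).trans (by rw [a]; simp)
    rintro (j | i)
    · simpa [f, Finsupp.single_apply] using LinearMap.congr_fun h4 (b j)
    · exact h3 i
  have := li.fintype_card_le_finrank
  simp only [Fintype.card_sum, Fintype.card_fin, finrank_fintype_fun_eq_card] at this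
  omega

/-- AVOID. -/
theorem avoid (h : ∀ c : k, v (algebraMap k K c) ≤ 1) {E : IntermediateField F K}
    (hG : Gauss k v E) {A β : Type} [Fintype A] [Fintype β] {e : A → K} (he : ∀ a, e a ∈ E)
    {w : β → A → F} {ρ : Γ} (h0 : ρ ≠ 0) (hw : ∀ i, ρ ≤ v (∑ a, w i a • e a))
    (hd : Function.Injective fun i => v (∑ a, w i a • e a)) {l : A → k}
    (hl : Fintype.card A < finrank F (Submodule.span F (Set.range l)) + Fintype.card β) :
    ρ ≤ v (∑ a, l a • e a) :=
  avoid' h hG he h0 (ind_of_distinct (k := F) (fun c => by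
    rw [IsScalarTower.algebraMap_apply F k K]; exact h _) h0 hw hd) hl

end Val

end Pool.Agent.MP_19ffc6_ag.Res.Gen
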