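import Pool.Agent.MP_19ffc6_ag.Res.ABasic
import Pool.Agent.MP_19ffc6_ag.Res.Closed

/-! PROJECT RES, part A: the polar divisor of a general tuple misses the base points. -/

namespace Pool.Agent.MP_19ffc6_ag.Res.PA

open Submodule Pool.Agent.MP_19ffc6_ag.Res.PA.Num Pool.Agent.MP_19ffc6_ag.Res.PA.LocK

namespace Bas

variable {k K : Type} [Field k] [Field K] [Algebra k K] {m : ℕ}

/-- The Wronskian of a polynomial family of tuples is a polynomial family. -/
theorem fam_wr {B : Type} [CommRing B] [Algebra k B] (d : Fin (m + 1) → Derivation k K K)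
    {I : Type} [Fintype I] (u : I → K) (b : Fin (m + 2) → I → B) {N : Submodule k K}
    (hN : ∀ r : Fin (m + 2) → I, Wr d (fun j => u (r j)) ∈ N) :
    (fun z : B →ₐ[k] k => Wr d fun j => ∑ i, z (b j i) • u i) ∈ Codim.Fam B N := by
  classical
  have e : (fun z : B →ₐ[k] k => Wr d fun j => ∑ i, z (b j i) • u i) =
      ∑ r : Fin (m + 2) → I, fun z : B →ₐ[k] k =>
        z (∏ j, b j (r j)) • Wr d fun j => u (r j) := by
    funext z
    rw [Finset.sum_apply, ← wrA_apply]
    refine ((wrA d).toMultilinearMap.map_sum fun j i => z (b j i) • u i).trans ?_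
    refine Finset.sum_congr rfl fun r _ => ?_
    rw [map_prod, ← wrA_apply]
    exact (wrA d).toMultilinearMap.map_smul_univ _ _
  rw [e]
  exact Submodule.sum_mem _ fun r _ => Codim.smul_mem_Fam _ (hN r)

theorem span_image {B : Type} [CommRing B] [Algebra k B] (W : (B →ₐ[k] k) → K)
    (X : Submodule k K) (z : B →ₐ[k] k) :
    span k ((· z) '' ((fun y => W * fun _ => y) '' (X : Set K))) = pr k (W z) * X := by
  refine le_antisymm (span_le.2 ?_) fun x hx => ?_
  · rintro _ ⟨_, ⟨y, hy, rfl⟩, rfl⟩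
    exact mem_pr_mul.2 ⟨y, hy, rfl⟩
  · obtain ⟨y, hy, rfl⟩ := mem_pr_mul.1 hx
    exact subset_span ⟨_, ⟨y, hy, rfl⟩, rfl⟩

/-- The point of a homomorphism in terms of generators. -/
theorem nn_eq {U : Submodule k K} (h1 : (1 : K) ∈ U) {ι : Type} (g : ι → K)
    (hg : span k (Set.range g) = U) (hm : ∀ i, g i ∈ Algebra.adjoin k (U : Set K))
    (y : Algebra.adjoin k (U : Set K) →ₐ[k] k) :
    Codim.nn g (fun i => y ⟨g i, hm i⟩) = ptOf U y := by
  have hU : ∀ i, g i ∈ U := fun i => hg ▸ subset_span ⟨i, rfl⟩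
  have hle : Codim.nn g (fun i => y ⟨g i, hm i⟩) ≤ ptOf U y := by
    refine span_le.2 ?_
    rintro _ ⟨i, rfl⟩
    refine mem_ptOf.2 ⟨U.sub_mem (hU i) (one_le.2 h1 (mem_one.2 ⟨_, rfl⟩)), ?_⟩
    have := map_sub y ⟨g i, hm i⟩ (algebraMap k _ (y ⟨g i, hm i⟩))
    rw [y.commutes, Algebra.algebraMap_self_apply, sub_self] at this
    exact this
  refine le_antisymm hle fun x hx => ?_
  have h2 : U ≤ 1 ⊔ Codim.nn g fun i => y ⟨g i, hm i⟩ := by
    refine hg.ge.trans (span_le.2 ?_)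
    rintro _ ⟨i, rfl⟩
    exact mem_sup.2 ⟨_, mem_one.2 ⟨y ⟨g i, hm i⟩, rfl⟩, _, subset_span ⟨i, rfl⟩, add_sub_cancel _ _⟩
  obtain ⟨_, h3, t, ht, rfl⟩ := mem_sup.1 (h2 hx.1)
  obtain ⟨c, rfl⟩ := mem_one.1 h3
  have h4 := sub_mem hx (hle ht)
  rw [add_sub_cancel_right] at h4
  rw [cst_eq_zero (pnt_ptOf h1 y).2 (le_nn _ h4), map_zero, zero_add]
  exact ht

/-- The condition `CB` is open in families. -/
theorem cb_open {B : Type} [CommRing B] [Algebra k B] (d : Fin (m + 1) → Derivation k K K)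
    {U : Submodule k K} (hU : U.FG) (h1 : (1 : K) ∈ U)
    (ρ : Algebra.adjoin k (U : Set K) →ₐ[k] B) (W : (B →ₐ[k] k) → K)
    (hW : W ∈ Codim.Fam B (alg U * JJ d U)) (z₀ : B →ₐ[k] k)
    (h₀ : CB d (ptOf U (z₀.comp ρ)) (W z₀)) :
    ∃ f : B, z₀ f ≠ 0 ∧ ∀ z : B →ₐ[k] k, z f ≠ 0 → CB d (ptOf U (z.comp ρ)) (W z) := by
  obtain ⟨MM, hM, hM0, h₀⟩ := h₀
  obtain ⟨s, hs⟩ := id hU
  let g : s → K := Subtype.val
  have hg : span k (Set.range g) = U := by rw [Subtype.range_coe]; exact hs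
  have hm : ∀ i, g i ∈ Algebra.adjoin k (U : Set K) := fun i =>
    Algebra.subset_adjoin (hg ▸ subset_span ⟨i, rfl⟩ : g i ∈ U)
  have hA : (Algebra.adjoin k (Set.range g)).toSubmodule = alg U := by
    rw [alg, ← hg, Algebra.adjoin_span]
  have hb : ∀ (y : Algebra.adjoin k (U : Set K) →ₐ[k] k) (b : ℕ),
      Mb (ptOf U y) (JJ d (ptOf U y)) MM b = alg U * (MM * JJ d U ^ b) := fun y b => by
    rw [Mb, ← (pnt_ptOf h1 y).alg, ← (pnt_ptOf h1 y).JJ]
  have hn : ∀ z : B →ₐ[k] k, Codim.nn g (z ∘ fun i => ρ ⟨g i, hm i⟩) = ptOf U (z.comp ρ) :=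
    fun z => nn_eq h1 g hg hm (z.comp ρ)
  obtain ⟨f, hf, H⟩ := Codim.closed g (fun i => ρ ⟨g i, hm i⟩) (MM * JJ d U ^ 1)
    (hM.mul ((JJ_fg hU).pow 1)) 1 ((fun y => W * fun _ : B →ₐ[k] k => y) '' (MM * JJ d U ^ 0 :)) (by
      rintro _ ⟨y, hy, rfl⟩
      refine Codim.Fam_mono (le_of_eq ?_) (Codim.mul_mem_Fam hW (Codim.const_mem_Fam hy))
      rw [hA, pow_zero, mul_one, pow_one, mul_assoc, mul_comm MM]) ⊥ bot_le z₀ (by
      rw [hA, span_image, hn, pow_one (ptOf _ _), sup_bot_eq, mul_left_comm _ (pr k _)]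
      rwa [hb, hb] at h₀)
  refine ⟨f, hf, fun z hz => ⟨MM, hM, hM0, ?_⟩⟩
  have := H z hz
  rw [hA, span_image, hn, pow_one (ptOf _ _), sup_bot_eq, mul_left_comm _ (pr k _)] at this
  rwa [hb, hb]

theorem cb_smul {d : Fin (m + 1) → Derivation k K K} {T : Submodule k K} {W : K} {c : k}
    (hc : c ≠ 0) : CB d T (c • W) ↔ CB d T W := by
  simp only [CB, pr, span_singleton_smul_eq hc.isUnit]

theorem wr_snoc_smul (d : Fin (m + 1) → Derivation k K K) (c : k) (v : Fin (m + 1) → K) (S : K) :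
    Wr d (Fin.snoc (fun j => c • v j) S) = c ^ (m + 1) • Wr d (Fin.snoc v S) := by
  have h := (wrA d).toMultilinearMap.map_smul_univ
    (Fin.snoc (fun _ : Fin (m + 1) => c) 1 : Fin (m + 2) → k) (Fin.snoc v S)
  rw [Fin.prod_snoc, mul_one, Finset.prod_const, Finset.card_fin] at h
  rw [← wrA_apply, ← wrA_apply]
  refine Eq.trans (congrArg (wrA d) ?_) h
  funext j
  refine Fin.lastCases ?_ (fun j => ?_) j <;> simp

theorem trdeg_le {A : Type} [CommRing A] [IsDomain A] [Algebra k A] {n : ℕ}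
    (hA : Algebra.trdeg k A ≤ n) (I : Type) [Fintype I] (p : Ideal (MvPolynomial I A)) :
    Algebra.trdeg k (MvPolynomial I A ⧸ p) ≤ (n + Fintype.card I : ℕ) := by
  refine (trdeg_le_of_surjective (Ideal.Quotient.mkₐ k p)
    (Ideal.Quotient.mkₐ_surjective k p)).trans ?_
  rw [← trdeg_add_eq k A, MvPolynomial.trdeg_of_isDomain, Cardinal.lift_id, Cardinal.mk_fintype,
    Nat.cast_add]
  exact add_le_add hA le_rfl

open MvPolynomial in
theorem main [IsAlgClosed k] {t : Fin (m + 1) → K} {d : Fin (m + 1) → Derivation k K K}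
    {U : Submodule k K} {I : Type} [Fintype I] {u : I → K} (hF : Fr t d) (hU : U.FG)
    (hu : span k (Set.range u) = U ^ (m + 2)) {h : K} (hh : h ∈ alg U)
    (hloc : ∀ T, Pnt U T → h ∉ nn T → ∀ S ∈ alg T, S ∉ nn T →
      ∃ l : Fin (m + 1) → K, (∀ i, l i ∈ T) ∧
        ∀ a : k, a ≠ 0 → CB d T (Wr d (Fin.snoc (fun i => a • l i) S))) :
    Gen fun l : Fin (m + 2) × I → k => ∀ T, Pnt U T → h ∉ nn T → tup u l (Fin.last _) ∉ nn T →
      (∀ i : Fin (m + 1), tup u l i.castSucc ∈ nn T) → CB d T (Wr d (tup u l)) := by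
  classical
  by_cases h1 : (1 : K) ∈ U
  swap
  · exact .of_forall fun l T hT => absurd hT.one h1
  have := finiteType_alg hU
  set A := Algebra.adjoin k (U : Set K) with hA
  have hm : ∀ i, u i ∈ alg U := fun i =>
    pow_le_alg (le_alg U) (m + 2) (hu ▸ subset_span ⟨i, rfl⟩)
  let u' : I → A := fun i => ⟨u i, hm i⟩
  have hUp : U ≤ span k (Set.range u) := fun x hx => by
    rw [hu, pow_succ]
    simpa using mul_mem_mul (pow_mem_pow U h1 (m + 1)) hx
  -- values of forms
  have hval : ∀ (y : A →ₐ[k] k) (c : I → k),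
      ∑ i, c i • u i ∈ nn (ptOf U y) ↔ ∑ i, c i * y (u' i) = 0 := fun y c => by
    have := mem_nn_ptOf (y := y) h1 (∑ i, c i • u' i)
    simpa [u'] using this
  let ρ : A →ₐ[k] MvPolynomial I A := IsScalarTower.toAlgHom k A _
  let Z : (MvPolynomial I A →ₐ[k] k) → (Fin (m + 1) × I → k) → Prop := fun x l =>
    x (C ⟨h, hh⟩ * ∑ i, X i * C (u' i)) ≠ 0 ∧ (∀ j, ∑ i, l (j, i) * x (C (u' i)) = 0) ∧
      ¬ CB d (ptOf U (x.comp ρ))
        (Wr d (Fin.snoc (fun j => ∑ i, l (j, i) • u i) (∑ i, x (X i) • u i)))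
  obtain ⟨D, D0, hD⟩ := Codim.codim (k := k) (μ := Fin (m + 1) × I) (σ := I) X
    (C ⟨h, hh⟩ * ∑ i, X i * C (u' i)) (m + 1) Z (fun x l hZ => hZ.1)
    (fun x l c hc hZ => ⟨hZ.1, fun j => by
      simp only [Pi.smul_apply, smul_eq_mul, mul_assoc, ← Finset.mul_sum, hZ.2.1 j, mul_zero],
      fun hcb => hZ.2.2 (by
        simp only [Pi.smul_apply, smul_eq_mul, mul_smul, ← Finset.smul_sum] at hcb
        rwa [wr_snoc_smul, cb_smul (pow_ne_zero _ hc)] at hcb)⟩)
    (fun x l hs hZ => by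
      by_cases hx : ∀ j, ∑ i, l (j, i) * x (C (u' i)) = 0
      · have hcb := not_not.1 fun z => hZ ⟨hs, hx, z⟩
        let b : Fin (m + 2) → I → MvPolynomial (Fin (m + 1) × I) (MvPolynomial I A) :=
          Fin.snoc (fun j i => X (j, i)) fun i => C (X i)
        let ρ' := (IsScalarTower.toAlgHom k (MvPolynomial I A)
          (MvPolynomial (Fin (m + 1) × I) (MvPolynomial I A))).comp ρ
        have e1 : ∀ (x : MvPolynomial I A →ₐ[k] k) (l : Fin (m + 1) × I → k),
            (aevalTower x l).comp ρ' = x.comp ρ := fun x l => by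
          rw [← AlgHom.comp_assoc, aevalTower_comp_toAlgHom]
        have e2 : ∀ (x : MvPolynomial I A →ₐ[k] k) (l : Fin (m + 1) × I → k),
            (fun j => ∑ i, aevalTower x l (b j i) • u i) =
              Fin.snoc (fun j => ∑ i, l (j, i) • u i) (∑ i, x (X i) • u i) := fun x l => by
          funext j
          refine Fin.lastCases ?_ (fun j => ?_) j <;> simp [b]
        obtain ⟨f, hf, H⟩ := cb_open d hU h1 ρ' _ (fam_wr d u b fun r => by
          refine (WW_le_mul.trans ((mul_le_mul_right (JJ_adjoin U) _).trans ?_))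
            (wr_mem (V := alg U) fun j => hm (r j))
          exact le_of_eq (by rw [← mul_assoc]; exact congrArg (· * _) (alg_mul_alg U)))
          (aevalTower x l) (by rw [e1, e2]; exact hcb)
        refine ⟨f, hf, fun x' l' z => not_not.1 fun hz => z.2.2 ?_⟩
        have := H _ hz
        rwa [e1, e2] at this
      · obtain ⟨j, hj⟩ := not_forall.1 hx
        exact ⟨∑ i, X (j, i) * C (C (u' i)), by simpa using hj,
          fun x' l' z => by simpa using z.2.1 j⟩)
    (fun p _ _ _ => trdeg_le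
      ((trdeg_le_of_injective (Subalgebra.val _) Subtype.val_injective).trans hF.trdeg.le) I p)
    (fun x hs => by
      rw [map_mul] at hs
      have hT := pnt_ptOf h1 (x.comp ρ)
      obtain ⟨l, hl, H⟩ := hloc _ hT
        (fun z => left_ne_zero_of_mul hs ((mem_nn_ptOf h1 ⟨h, hh⟩).1 z)) (∑ i, x (X i) • u i)
        (hT.alg ▸ Submodule.sum_mem _ fun i _ => smul_mem _ _ (hm i))
        (fun z => right_ne_zero_of_mul hs (by simpa [ρ] using (hval _ _).1 z))
      obtain ⟨c₁, hc₁⟩ := (mem_span_range_iff_exists_fun k).1 (hUp h1)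
      choose c hc using fun j => (mem_span_range_iff_exists_fun k).1 (hUp (hT.le (hl j)))
      refine ⟨LinearMap.pi fun q : Fin (m + 1) × I => c₁ q.2 • LinearMap.proj q.1.castSucc +
        c q.1 q.2 • LinearMap.proj (Fin.last _), fun a ha hZ => ?_⟩
      have e : ∀ j, ∑ i, (LinearMap.pi (fun q : Fin (m + 1) × I =>
          c₁ q.2 • (LinearMap.proj q.1.castSucc : (Fin (m + 1 + 1) → k) →ₗ[k] k) +
            c q.1 q.2 • LinearMap.proj (Fin.last _)) a) (j, i) • u i =
          algebraMap k K (a j.castSucc) + a (Fin.last _) • l j := fun j => by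
        rw [Algebra.algebraMap_eq_smul_one, ← hc₁, ← hc j, Finset.smul_sum, Finset.smul_sum,
          ← Finset.sum_add_distrib]
        exact Finset.sum_congr rfl fun i _ => by simp [add_smul, smul_smul, mul_comm]
      have h0 : ∀ j : Fin (m + 1), a j.castSucc = 0 := fun j => by
        have h3 := (hval (x.comp ρ) _).2 (hZ.2.1 j)
        rw [e] at h3
        exact cst_eq_zero hT.2 (by
          simpa using sub_mem h3 (smul_mem _ (a (Fin.last _)) (le_nn _ (hl j))))
      refine hZ.2.2 ?_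
      simp only [e, h0, map_zero, zero_add]
      exact H _ fun z => ha (funext fun j => Fin.lastCases z h0 j))
  let r : I ⊕ Fin (m + 1) × I → Fin (m + 2) × I :=
    Sum.elim (fun i => (Fin.last _, i)) fun q => (q.1.castSucc, q.2)
  refine ⟨rename r D, fun z => D0 (rename_injective r ?_ (z.trans (map_zero _).symm)),
    fun l hl T hT hn hS hi => ?_⟩
  · rintro (a | a) (b | b) e <;> simp only [r, Sum.elim_inl, Sum.elim_inr, Prod.mk.injEq] at e
    · rw [e.2]
    · exact absurd e.1.symm (Fin.castSucc_lt_last _).ne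
    · exact absurd e.1 (Fin.castSucc_lt_last _).ne
    · rw [Prod.ext (Fin.castSucc_injective _ e.1) e.2]
  · obtain ⟨y, -, -, rfl⟩ := hT.exists_ev
    by_contra hc
    let x : MvPolynomial I A →ₐ[k] k := aevalTower y fun i => l (Fin.last _, i)
    have e1 : x.comp ρ = y := aevalTower_comp_toAlgHom _ _
    refine hl ?_
    rw [eval_rename]
    refine Eq.trans ?_ (hD x (fun q => l (q.1.castSucc, q.2)) ⟨?_, fun j => ?_, ?_⟩)
    · congr 2
      funext q
      rcases q with q | q <;> simp [r, x]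
    · rw [map_mul]
      refine mul_ne_zero (fun z => hn ((mem_nn_ptOf h1 ⟨h, hh⟩).2 (by simpa [x] using z)))
        fun z => hS ((hval _ _).2 (by simpa [x] using z))
    · simpa [x] using (hval _ _).1 (hi j)
    · rw [e1]
      refine fun z => hc ?_
      have e2 : tup u l = Fin.snoc (fun j : Fin (m + 1) => ∑ i, l (j.castSucc, i) • u i)
          (∑ i, x (X i) • u i) := by
        funext j
        refine Fin.lastCases ?_ (fun j => ?_) j <;> simp [tup, x]
      rwa [e2]

end Bas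

variable {k K : Type} [Field k] [Field K] [Algebra k K] {m : ℕ}

/-- Module BASE. -/
theorem base_of [IsAlgClosed k] (h1 : LocBStmt k K m) (h2 : BpfStmt k K m) : BaseStmt k K m := by
  intro t d U I _ u hF hU hJ hu
  obtain ⟨h, hh, h0, hloc⟩ := h1 t d U hF hU hJ
  refine (((h2.all t d U I u hF hU hu).and (h2.hyp t d U I u h hF hU hu hh h0)).and
    (Bas.main hF hU hu hh hloc)).mono fun l hl T hT hi => ?_
  refine hl.2 T hT (fun z => ?_) (fun z => ?_) hi
  · obtain ⟨j, hj⟩ := hl.1.2 T hT z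
    exact hj (hi j)
  · obtain ⟨j, hj⟩ := hl.1.1 T hT
    exact hj (Fin.lastCases z hi j)

end Pool.Agent.MP_19ffc6_ag.Res.PA
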