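import Mathlib
import Pool.Agent.MP_19ffc6_ag.WildSub

/-! Spreading out, first part: specialisation maps along an extension of an algebraically closed
ground field, and finite certificates of smoothness. -/

namespace Pool.Agent.MP_19ffc6_ag.Res.Descent

open Pool.Agent.MP_19ffc6_ag.Wild Polynomial Filter TensorProduct Algebra

section Hom

variable (k k' : Type) [Field k] [Field k'] [Algebra k k'] [IsAlgClosed k]

lemma exists_hom (C : Finset k') : Nonempty (adjoin k (C : Set k') →ₐ[k] k) := by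
  have : FiniteType k (adjoin k (C : Set k')) :=
    (Subalgebra.fg_iff_finiteType _).1 (Subalgebra.fg_adjoin_finset C)
  obtain ⟨m, hm⟩ := Ideal.exists_maximal (adjoin k (C : Set k'))
  let := Ideal.Quotient.field m
  have := finite_of_finite_type_of_isJacobsonRing k (adjoin k (C : Set k') ⧸ m)
  have hb := IsAlgClosed.algebraMap_bijective_of_isIntegral (k := k)
    (K := adjoin k (C : Set k') ⧸ m)
  exact ⟨(AlgEquiv.ofBijective (Algebra.ofId k _) hb).symm.toAlgHom.comp (Ideal.Quotient.mkₐ k m)⟩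

open Classical in
/-- The value of `c` at a chosen rational point of `k[C]`. -/
noncomputable def val (c : k') (C : Finset k') : k :=
  if h : c ∈ adjoin k (C : Set k') then (exists_hom k k' C).some ⟨c, h⟩ else 0

lemma ev_mem (c : k') : ∀ᶠ C : Finset k' in atTop, c ∈ adjoin k (C : Set k') :=
  (eventually_ge_atTop {c}).mono fun _ h => subset_adjoin (h (Finset.mem_singleton_self c))

lemma val_add (a b : k') : ∀ᶠ C in atTop, val k k' (a + b) C = val k k' a C + val k k' b C := by
  filter_upwards [ev_mem k k' a, ev_mem k k' b] with C ha hb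
  simp only [val, dif_pos ha, dif_pos hb, dif_pos (add_mem ha hb), ← map_add]
  rfl

lemma val_mul (a b : k') : ∀ᶠ C in atTop, val k k' (a * b) C = val k k' a C * val k k' b C := by
  filter_upwards [ev_mem k k' a, ev_mem k k' b] with C ha hb
  simp only [val, dif_pos ha, dif_pos hb, dif_pos (mul_mem ha hb), ← map_mul]
  rfl

lemma val_map (a : k) (C : Finset k') : val k k' (algebraMap k k' a) C = a := by
  simp only [val, dif_pos (Subalgebra.algebraMap_mem (adjoin k (C : Set k')) a)]
  exact (exists_hom k k' C).some.commutes a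

/-- An ultrafilter on the finite subsets of `k'` that refines the cofinal filter. -/
noncomputable def ult : Ultrafilter (Finset k') := Ultrafilter.of atTop

lemma ult_le : (ult k' : Filter (Finset k')) ≤ atTop := Ultrafilter.of_le _

variable (K : Type) [Field K] [Algebra k K]

/-- The ultrapower of `K`. -/
def Up : Type := Germ (ult k' : Filter (Finset k')) K

noncomputable instance : Field (Up k' K) :=
  inferInstanceAs (Field (Germ (ult k' : Filter (Finset k')) K))

/-- The class of a family in the ultrapower. -/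
noncomputable def cl : (Finset k' → K) →+* Up k' K := Germ.coeRingHom _

lemma cl_eq {f g : Finset k' → K} :
    cl k' K f = cl k' K g ↔ ∀ᶠ C in (ult k' : Filter (Finset k')), f C = g C := Germ.coe_eq

lemma cl_surj : Function.Surjective (cl k' K) := fun z =>
  Germ.inductionOn z fun f => ⟨f, rfl⟩

noncomputable instance : Algebra k (Up k' K) :=
  ((cl k' K).comp ((Pi.constRingHom _ K).comp (algebraMap k K))).toAlgebra

/-- Constant families. -/
noncomputable def cstK : K →ₐ[k] Up k' K :=
  { (cl k' K).comp (Pi.constRingHom _ K) with commutes' := fun _ => rfl }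

/-- The embedding of `k'` into the ultrapower. -/
noncomputable def valK : k' →ₐ[k] Up k' K where
  toFun c := cl k' K fun C => algebraMap k K (val k k' c C)
  map_one' := by
    rw [← map_one (cl k' K), ← map_one (algebraMap k k')]
    congr 1; ext C; rw [val_map]; simp
  map_zero' := by
    rw [← map_zero (cl k' K), ← map_zero (algebraMap k k')]
    congr 1; ext C; rw [val_map]; simp
  map_add' a b := by
    rw [← map_add, cl_eq]
    filter_upwards [ult_le k' (val_add k k' a b)] with C h
    rw [h, map_add]; rfl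
  map_mul' a b := by
    rw [← map_mul, cl_eq]
    filter_upwards [ult_le k' (val_mul k k' a b)] with C h
    rw [h, map_mul]; rfl
  commutes' a := by
    change _ = cl k' K _
    congr 1; ext C; rw [val_map]; rfl

/-- The embedding of the tensor product into the ultrapower. -/
noncomputable def tau : k' ⊗[k] K →ₐ[k] Up k' K :=
  Algebra.TensorProduct.lift (valK k k' K) (cstK k k' K) fun _ _ => .all _ _

lemma tau_tmul (c : k') (x : K) :
    tau k k' K (c ⊗ₜ x) = cl k' K fun C => algebraMap k K (val k k' c C) * x := by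
  rw [tau, Algebra.TensorProduct.lift_tmul]
  exact (map_mul (cl k' K) _ _).symm

lemma tau_injective : Function.Injective (tau k k' K) := by
  classical
  rw [injective_iff_map_eq_zero]
  intro z hz
  let b := Module.Basis.ofVectorSpace k K
  let B := Algebra.TensorProduct.basis k' b
  have h1 : z = ∑ l ∈ (B.repr z).support, B.repr z l ⊗ₜ b l := by
    conv_lhs => rw [← B.linearCombination_repr z, Finsupp.linearCombination_apply, Finsupp.sum]
    refine Finset.sum_congr rfl fun l _ => ?_
    rw [Algebra.TensorProduct.basis_apply, TensorProduct.smul_tmul', smul_eq_mul, mul_one]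
  have h2 : cl k' K (fun C => ∑ l ∈ (B.repr z).support, val k k' (B.repr z l) C • b l) =
      cl k' K 0 := by
    rw [map_zero, ← hz]
    conv_rhs => rw [h1, map_sum]
    simp only [tau_tmul, ← map_sum]
    congr 1; ext C
    simp [Algebra.smul_def]
  rw [cl_eq] at h2
  refine B.repr.injective (Finsupp.ext fun l => ?_)
  rw [map_zero, Finsupp.zero_apply]
  by_contra hl
  refine hl ((valK k k' K).injective ?_)
  rw [map_zero, ← map_zero (cl k' K)]
  refine (cl_eq k' K).2 (h2.mono fun C hC => ?_)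
  rw [linearIndependent_iff'.1 b.linearIndependent _ _ hC l (Finsupp.mem_support_iff.2 hl)]
  simp

/-- The base change of a field over an algebraically closed field is a domain. -/
theorem isDomain_tensor : IsDomain (k' ⊗[k] K) :=
  (tau_injective k k' K).isDomain (tau k k' K).toRingHom

end Hom

section Spz

variable {k K L : Type} (k' : Type) [Field k] [Field k'] [Field K] [Field L] [Algebra k k']
  [Algebra k K] [Algebra k L] [Algebra k' L] [IsScalarTower k k' L]

/-- A family of specialisation maps from `L` to `K` that are homomorphisms in the limit. -/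
structure Spz (j : K →ₐ[k] L) where
  I : Type
  F : Filter I
  ne : F.NeBot
  π : I → L → K
  add : ∀ a b, ∀ᶠ i in F, π i (a + b) = π i a + π i b
  mul : ∀ a b, ∀ᶠ i in F, π i (a * b) = π i a * π i b
  map : ∀ x, ∀ᶠ i in F, π i (j x) = x
  cst : ∀ c : k', ∀ᶠ i in F, π i (algebraMap k' L c) ∈ (⊥ : Subalgebra k K)

/-- The multiplication map of the compositum. -/
noncomputable def mu (j : K →ₐ[k] L) : k' ⊗[k] K →ₐ[k'] L :=
  Algebra.TensorProduct.lift (Algebra.ofId k' L) j fun _ _ => .all _ _

lemma mu_tmul (j : K →ₐ[k] L) (c : k') (x : K) : mu k' j (c ⊗ₜ x) = algebraMap k' L c * j x := rfl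

lemma isAlg_range {ι : Type} {t : ι → K} (ht : IsTranscendenceBasis k t) (x : K) :
    letI := (MvPolynomial.aeval (R := k) t).toRingHom.toAlgebra
    IsAlgebraic (MvPolynomial ι k) x := by
  let _ := (MvPolynomial.aeval (R := k) t).toRingHom.toAlgebra
  refine (ht.isAlgebraic.isAlgebraic x).ringHom_of_comp_eq ht.1.aevalEquiv.symm (RingHom.id K)
    ht.1.aevalEquiv.symm.injective (RingHom.ext fun y => ?_)
  obtain ⟨y, rfl⟩ := ht.1.aevalEquiv.surjective y
  simp only [RingHom.coe_comp, RingHom.coe_coe, Function.comp_apply, AlgEquiv.symm_apply_apply,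
    RingHom.id_apply, AlgebraicIndependent.algebraMap_aevalEquiv]
  rfl

lemma mu_injective [IsAlgClosed k] (j : K →ₐ[k] L) {ι : Type} {t : ι → K}
    (ht : IsTranscendenceBasis k t) (ht' : AlgebraicIndependent k' (j ∘ t)) :
    Function.Injective (mu k' j) := by
  have := isDomain_tensor k k' K
  let _ := (MvPolynomial.aeval (R := k) t).toRingHom.toAlgebra
  let e : MvPolynomial ι k' →ₐ[k'] k' ⊗[k] K := MvPolynomial.aeval fun i => 1 ⊗ₜ t i
  let _ := e.toRingHom.toAlgebra
  have halg : ∀ z : k' ⊗[k] K, IsAlgebraic (MvPolynomial ι k') z := by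
    intro z
    induction z with
    | zero => exact isAlgebraic_zero
    | add x y hx hy => exact hx.add hy
    | tmul c x =>
      have h1 : IsAlgebraic (MvPolynomial ι k') (1 ⊗ₜ x : k' ⊗[k] K) := by
        refine (isAlg_range ht x).ringHom_of_comp_eq (MvPolynomial.map (algebraMap k k'))
          (Algebra.TensorProduct.includeRight (R := k) (A := k') (B := K))
          (MvPolynomial.map_injective _ (algebraMap k k').injective) ?_
        refine MvPolynomial.ringHom_ext (fun a => ?_) (fun i => ?_)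
        · simp [RingHom.algebraMap_toAlgebra, e, Algebra.algebraMap_eq_smul_one,
            Algebra.TensorProduct.one_def]
        · simp [RingHom.algebraMap_toAlgebra, e]
      have h2 : c ⊗ₜ x = algebraMap (MvPolynomial ι k') (k' ⊗[k] K) (MvPolynomial.C c) * 1 ⊗ₜ x := by
        simp [RingHom.algebraMap_toAlgebra, e]
      rw [h2]
      exact (isAlgebraic_algebraMap _).mul h1
  rw [injective_iff_map_eq_zero]
  intro z hz
  by_contra h0
  obtain ⟨r, hr, w, hw⟩ := (halg z).exists_nonzero_dvd (mem_nonZeroDivisors_of_ne_zero h0)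
  have h3 : (mu k' j).comp e = MvPolynomial.aeval (j ∘ t) := by
    ext i; simp [e, mu_tmul]
  refine hr (ht' ?_)
  rw [map_zero, ← h3]
  change mu k' j (algebraMap (MvPolynomial ι k') (k' ⊗[k] K) r) = 0
  rw [hw, map_mul, hz, zero_mul]

lemma exists_frac (j : K →ₐ[k] L) (htop : IntermediateField.adjoin k' (Set.range j) = ⊤) (z : L) :
    ∃ a b, z = mu k' j a / mu k' j b := by
  have hz : z ∈ IntermediateField.adjoin k' (Set.range j) := htop ▸ IntermediateField.mem_top
  rw [IntermediateField.mem_adjoin_iff_div] at hz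
  obtain ⟨a, ha, b, hb, rfl⟩ := hz
  have hle : adjoin k' (Set.range j) ≤ (mu k' j).range := by
    refine adjoin_le ?_
    rintro _ ⟨x, rfl⟩
    exact ⟨1 ⊗ₜ x, by simp [mu_tmul]⟩
  obtain ⟨a, rfl⟩ := hle ha
  obtain ⟨b, rfl⟩ := hle hb
  exact ⟨a, b, rfl⟩

theorem exists_spz [IsAlgClosed k] (j : K →ₐ[k] L) (hj : Function.Injective (mu k' j))
    (htop : IntermediateField.adjoin k' (Set.range j) = ⊤) : Nonempty (Spz k' j) := by
  let _ := (mu k' j).toRingHom.toAlgebra
  have : FaithfulSMul (k' ⊗[k] K) L := (faithfulSMul_iff_algebraMap_injective _ _).2 hj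
  have : IsFractionRing (k' ⊗[k] K) L := IsFractionRing.of_field _ _ (exists_frac k' j htop)
  let φ : L →+* Up k' K :=
    IsFractionRing.lift (g := (tau k k' K).toRingHom) (tau_injective k k' K)
  have hφ : ∀ z, φ (mu k' j z) = tau k k' K z := fun z =>
    IsFractionRing.lift_algebraMap (g := (tau k k' K).toRingHom) (tau_injective k k' K) z
  choose f hf using fun z => cl_surj k' K (φ z)
  refine ⟨⟨Finset k', ult k', inferInstance, fun C z => f z C, fun a b => ?_, fun a b => ?_,
    fun x => ?_, fun c => ?_⟩⟩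
  · exact (cl_eq k' K).1 (show cl k' K (f (a + b)) = cl k' K (f a + f b) by
      rw [map_add, hf, hf, hf, map_add])
  · exact (cl_eq k' K).1 (show cl k' K (f (a * b)) = cl k' K (f a * f b) by
      rw [map_mul, hf, hf, hf, map_mul])
  · have := hφ (1 ⊗ₜ x)
    rw [mu_tmul, map_one, one_mul, ← hf, tau_tmul, cl_eq, ← map_one (algebraMap k k')] at this
    exact this.mono fun C h => by rw [h, val_map]; simp
  · have := hφ (c ⊗ₜ 1)
    rw [mu_tmul, map_one, mul_one, ← hf, tau_tmul, cl_eq] at this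
    exact this.mono fun C h => by rw [h, mul_one]; exact Subalgebra.algebraMap_mem _ _

namespace Spz

variable {k'} {j : K →ₐ[k] L} (s : Spz k' j)

lemma zero : ∀ᶠ i in s.F, s.π i 0 = 0 := by simpa using s.map 0

lemma one : ∀ᶠ i in s.F, s.π i 1 = 1 := by simpa using s.map 1

lemma nat (n : ℕ) : ∀ᶠ i in s.F, s.π i n = n := by simpa using s.map n

lemma ne_zero {a : L} (ha : a ≠ 0) : ∀ᶠ i in s.F, s.π i a ≠ 0 := by
  filter_upwards [s.mul a a⁻¹, s.one] with i h h1 h0
  rw [mul_inv_cancel₀ ha, h1, h0, zero_mul] at h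
  exact one_ne_zero h

lemma inv (a : L) : ∀ᶠ i in s.F, s.π i a⁻¹ = (s.π i a)⁻¹ := by
  by_cases ha : a = 0
  · filter_upwards [s.zero] with i h
    rw [ha, inv_zero, h, inv_zero]
  · filter_upwards [s.mul a a⁻¹, s.one] with i h h1
    rw [mul_inv_cancel₀ ha, h1] at h
    exact eq_inv_of_mul_eq_one_right h.symm

lemma div (a b : L) : ∀ᶠ i in s.F, s.π i (a / b) = s.π i a / s.π i b := by
  filter_upwards [s.mul a b⁻¹, s.inv b] with i h h1
  rw [div_eq_mul_inv, h, h1, div_eq_mul_inv]

lemma pow (a : L) (n : ℕ) : ∀ᶠ i in s.F, s.π i (a ^ n) = s.π i a ^ n := by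
  induction n with
  | zero => simpa using s.one
  | succ n ih =>
    filter_upwards [s.mul (a ^ n) a, ih] with i h h1
    rw [pow_succ, h, h1, pow_succ]

lemma sum {κ : Type} (T : Finset κ) (f : κ → L) :
    ∀ᶠ i in s.F, s.π i (∑ l ∈ T, f l) = ∑ l ∈ T, s.π i (f l) := by
  classical
  induction T using Finset.induction_on with
  | empty => simpa using s.zero
  | insert a T ha ih =>
    filter_upwards [s.add (f a) (∑ l ∈ T, f l), ih] with i h h1
    rw [Finset.sum_insert ha, Finset.sum_insert ha, h, h1]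

lemma adj {Z : Set L} {y : L} (hy : y ∈ adjoin k' Z) :
    ∀ᶠ i in s.F, s.π i y ∈ adjoin k (s.π i '' Z) := by
  induction hy using adjoin_induction with
  | mem x hx => exact .of_forall fun i => subset_adjoin ⟨x, hx, rfl⟩
  | algebraMap c => exact (s.cst c).mono fun i h => (bot_le : ⊥ ≤ adjoin k _) h
  | add a b _ _ ha hb =>
    filter_upwards [s.add a b, ha, hb] with i h h1 h2
    rw [h]; exact add_mem h1 h2
  | mul a b _ _ ha hb =>
    filter_upwards [s.mul a b, ha, hb] with i h h1 h2
    rw [h]; exact mul_mem h1 h2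

end Spz

end Spz

section Cert

variable {k L : Type} [Field k] [Field L] [Algebra k L]

/-- The local ring at a prime, as a subalgebra of the field. -/
lemma exists_point (D : Subalgebra k L) (q : Ideal D) [hq : q.IsPrime] :
    ∃ O, IsPoint D O ∧ (∀ x : D, Un O x ↔ x ∉ q) ∧
      (FormallySmooth k O → IsSmoothAt k q) := by
  let ℓ : Localization.AtPrime q →ₐ[k] L :=
    IsLocalization.liftAlgHom (M := q.primeCompl) (f := D.val) fun y =>
      Ne.isUnit fun e => y.2 (by
        have : (y : D) = 0 := Subtype.ext e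
        rw [this]; exact zero_mem _)
  have hℓ : ∀ a : D, ℓ (algebraMap D _ a) = a := fun a => by simp [ℓ]
  have hinj : Function.Injective ℓ := by
    rw [injective_iff_map_eq_zero]
    intro z hz
    obtain ⟨a, b, rfl⟩ := IsLocalization.exists_mk'_eq q.primeCompl z
    have h1 := congrArg ℓ (IsLocalization.mk'_spec (Localization.AtPrime q) a b)
    rw [map_mul, hz, zero_mul, hℓ] at h1
    have : a = 0 := Subtype.ext h1.symm
    rw [this, IsLocalization.mk'_zero]
  let e := AlgEquiv.ofInjective ℓ hinj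
  have : IsLocalRing ℓ.range := e.toRingEquiv.isLocalRing
  have hun : ∀ x : D, Un ℓ.range x ↔ x ∉ q := fun x => by
    have h1 : ((e (algebraMap D _ x) : ℓ.range) : L) = x := hℓ _
    rw [← h1, ← isUnit_iff_un, MulEquiv.isUnit_map]
    exact IsLocalization.AtPrime.isUnit_to_map_iff _ q x
  refine ⟨ℓ.range, ⟨fun a ha => ⟨algebraMap D _ ⟨a, ha⟩, hℓ _⟩, lcl_of_isLocalRing, ?_⟩, hun,
    fun _ => FormallySmooth.of_equiv e.symm⟩
  rintro _ ⟨z, rfl⟩
  obtain ⟨a, b, rfl⟩ := IsLocalization.exists_mk'_eq q.primeCompl z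
  have h1 := congrArg ℓ (IsLocalization.mk'_spec (Localization.AtPrime q) a b)
  rw [map_mul, hℓ, hℓ] at h1
  have hb := (hun b).2 b.2
  exact ⟨a, a.2, (b : D), (b : D).2, hb, by rw [eq_div_iff hb.2.1]; exact h1⟩

/-- A property that holds for some unit at every point holds on a finite open cover. -/
lemma exists_cover (D : Subalgebra k L) (p : L → Prop)
    (h : ∀ q : Ideal D, q.IsPrime → ∃ x : D, x ∉ q ∧ p x) :
    ∃ (T : Finset L) (c : L → L), (∀ x ∈ T, x ∈ D ∧ c x ∈ D ∧ p x) ∧ ∑ x ∈ T, c x * x = 1 := by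
  classical
  have h1 : Ideal.span {x : D | p x} = ⊤ := by
    by_contra hne
    obtain ⟨m, hm, hle⟩ := Ideal.exists_le_maximal _ hne
    obtain ⟨x, hx, hp⟩ := h m hm.isPrime
    exact hx (hle (Ideal.subset_span hp))
  have h2 : (1 : D) ∈ Submodule.span D {x : D | p x} := by
    change (1 : D) ∈ Ideal.span _
    rw [h1]; trivial
  obtain ⟨f, T, hT, -, hs⟩ := (Submodule.mem_span_iff_exists_finset_subset).1 h2
  refine ⟨T.image Subtype.val, fun x => if hx : x ∈ D then f ⟨x, hx⟩ else 0, ?_, ?_⟩
  · intro x hx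
    obtain ⟨y, hy, rfl⟩ := Finset.mem_image.1 hx
    refine ⟨y.2, ?_, hT hy⟩
    simp only [dif_pos y.2]
    exact (f _).2
  · rw [Finset.sum_image fun _ _ _ _ h => Subtype.val_injective h]
    have := congrArg D.val hs
    rw [map_sum, map_one] at this
    rw [← this]
    refine Finset.sum_congr rfl fun y _ => ?_
    simp only [dif_pos y.2]
    rfl

lemma un_of_sum {O : Subalgebra k L} (hO : Lcl O) {κ : Type} {T : Finset κ} {c x : κ → L}
    (h : ∀ l ∈ T, x l ∈ O ∧ c l ∈ O) (h1 : ∑ l ∈ T, c l * x l = 1) : ∃ l ∈ T, Un O (x l) := by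
  by_contra H
  push Not at H
  have : ∑ l ∈ T, c l * x l ∈ mx hO := Submodule.sum_mem _ fun l hl => by
    rw [mul_comm]; exact mul_mem_mx hO ⟨(h l hl).1, H l hl⟩ (h l hl).2
  rw [h1] at this
  exact this.2 (Un.one _)

variable (k) in
/-- Etale coordinates on the open set where `h` is a unit of the chart generated by `G`. -/
structure Cert (G : Set L) (h : L) (n m : ℕ) (x : Fin n → L) (η g : L) (a : ℕ → L) : Prop where
  hx : ∀ i, x i ∈ adjoin k (insert h⁻¹ G)
  hη : η ∈ adjoin k (insert h⁻¹ G)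
  g0 : g ≠ 0
  gi : g⁻¹ ∈ adjoin k (insert h⁻¹ G)
  d0 : ∑ l ∈ Finset.range (m + 1), a l * l * η ^ (l - 1) ≠ 0
  di : (∑ l ∈ Finset.range (m + 1), a l * l * η ^ (l - 1))⁻¹ ∈ adjoin k (insert h⁻¹ G)
  hg : g ∈ adjoin k (insert η (Set.range x))
  gen : ∀ z ∈ G, ∃ N : ℕ, z * g ^ N ∈ adjoin k (insert η (Set.range x))
  top : a m = 1
  ha : ∀ l ∈ Finset.range (m + 1), a l ∈ adjoin k (Set.range x)
  root : ∑ l ∈ Finset.range (m + 1), a l * η ^ l = 0

lemma range_le_adjoin {G : Set L} (f : adjoin k G)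
    (ℓ : Localization.Away f →ₐ[k] L) (hℓ : ∀ a : adjoin k G, ℓ (algebraMap _ _ a) = a)
    (hf : (f : L) ≠ 0)
    (z : Localization.Away f) : ℓ z ∈ adjoin k (insert (f : L)⁻¹ G) := by
  obtain ⟨⟨a, _, n, rfl⟩, e⟩ := IsLocalization.surj (.powers f) z
  have h1 := congrArg ℓ e
  simp only [map_mul, map_pow, hℓ] at h1
  have h2 : ℓ z = a * ((f : L)⁻¹) ^ n := by
    rw [← h1, inv_pow, mul_inv_cancel_right₀ (pow_ne_zero _ hf)]
  rw [h2]
  exact mul_mem (adjoin_mono (Set.subset_insert _ _) a.2)
    (pow_mem (subset_adjoin (Set.mem_insert _ _)) _)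

lemma cert_abs {G : Set L} {h : L} {n : ℕ} {B : Type} [CommRing B] [Algebra k B]
    [Algebra (MvPolynomial (Fin n) k) B] [IsScalarTower k (MvPolynomial (Fin n) k) B]
    (hst : IsStandardEtale (MvPolynomial (Fin n) k) B) (ℓ : B →ₐ[k] L)
    (hinj : Function.Injective ℓ) (hr : ∀ z, ℓ z ∈ adjoin k (insert h⁻¹ G))
    (hG : ∀ z ∈ G, ∃ w, ℓ w = z) :
    ∃ m x η g a, AlgebraicIndependent k x ∧ Cert k G h n m x η g a := by
  have hri : ∀ z, IsUnit z → ℓ z ≠ 0 ∧ (ℓ z)⁻¹ ∈ adjoin k (insert h⁻¹ G) := by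
    rintro _ ⟨u, rfl⟩
    have h1 : ℓ u * ℓ (u⁻¹ : Bˣ) = 1 := by rw [← map_mul, u.mul_inv, map_one]
    exact ⟨left_ne_zero_of_mul_eq_one h1, eq_inv_of_mul_eq_one_right h1 ▸ hr _⟩
  obtain ⟨P⟩ := hst.nonempty_standardEtalePresentation
  let x : Fin n → L := fun i => ℓ (algebraMap (MvPolynomial (Fin n) k) _ (MvPolynomial.X i))
  have hev : ∀ r : MvPolynomial (Fin n) k, ℓ (algebraMap (MvPolynomial (Fin n) k) _ r) = MvPolynomial.aeval x r := fun r => by
    have : ℓ.comp (IsScalarTower.toAlgHom k (MvPolynomial (Fin n) k) _) = MvPolynomial.aeval x := by ext i; simp [x]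
    rw [← this]; rfl
  have hR : ∀ r : MvPolynomial (Fin n) k, ℓ (algebraMap (MvPolynomial (Fin n) k) _ r) ∈ adjoin k (Set.range x) := fun r => by
    rw [hev, adjoin_range_eq_range_aeval]; exact ⟨r, rfl⟩
  have hp : ∀ p : (MvPolynomial (Fin n) k)[X],
      ℓ (aeval P.x p) ∈ adjoin k (insert (ℓ P.x) (Set.range x)) := fun p => by
    rw [aeval_eq_sum_range, map_sum]
    refine Subalgebra.sum_mem _ fun l _ => ?_
    rw [Algebra.smul_def, map_mul, map_pow]
    exact mul_mem (adjoin_mono (Set.subset_insert _ _) (hR _))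
      (pow_mem (subset_adjoin (Set.mem_insert _ _)) _)
  have hd : ℓ (aeval P.x (derivative P.f)) = ∑ l ∈ Finset.range (P.f.natDegree + 1),
      ℓ (algebraMap (MvPolynomial (Fin n) k) _ (P.f.coeff l)) * l * ℓ P.x ^ (l - 1) := by
    conv_lhs => rw [P.f.as_sum_range]
    simp [derivative_monomial, aeval_monomial]
  refine ⟨P.f.natDegree, x, ℓ P.x, ℓ (aeval P.x P.g),
    fun l => ℓ (algebraMap (MvPolynomial (Fin n) k) _ (P.f.coeff l)), ?_, fun i => hr _, hr _, (hri _ P.hasMap.2).1,
    (hri _ P.hasMap.2).2, hd ▸ (hri _ P.hasMap.isUnit_derivative_f).1,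
    hd ▸ (hri _ P.hasMap.isUnit_derivative_f).2, hp _, fun z hz => ?_, ?_, fun l _ => hR _, ?_⟩
  · rw [algebraicIndependent_iff]
    intro r hr0
    by_contra h0
    have : Nontrivial B := ℓ.toRingHom.domain_nontrivial
    have h2 : algebraMap (MvPolynomial (Fin n) k) B r = 0 := hinj (by rw [hev, hr0, map_zero])
    have h3 : IsSMulRegular B r :=
      Module.Flat.isSMulRegular_of_nonZeroDivisors (mem_nonZeroDivisors_of_ne_zero h0)
    have h4 : (1 : B) = 0 := h3 (by simp [Algebra.smul_def, h2])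
    exact one_ne_zero h4
  · obtain ⟨w, rfl⟩ := hG z hz
    obtain ⟨p, N, e⟩ := P.exists_mul_aeval_x_g_pow_eq_aeval_x w
    have h1 := congrArg ℓ e
    rw [map_mul, map_pow] at h1
    exact ⟨N, h1 ▸ hp p⟩
  · simp [P.monic_f.coeff_natDegree]
  · have h1 := congrArg ℓ P.hasMap.1
    rw [aeval_eq_sum_range, map_sum, map_zero] at h1
    simpa [Algebra.smul_def] using h1

lemma cert_of_smooth {G : Set L} (hG : G.Finite) (q : Ideal (adjoin k G)) [q.IsPrime]
    [IsSmoothAt k q] : ∃ h : adjoin k G, h ∉ q ∧ ∃ n m x η g a, AlgebraicIndependent k x ∧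
      Cert k G (h : L) n m x η g a := by
  have : FiniteType k (adjoin k G) :=
    (Subalgebra.fg_iff_finiteType _).1 (Subalgebra.fg_def.2 ⟨G, hG, rfl⟩)
  have : FinitePresentation k (adjoin k G) := FinitePresentation.of_finiteType.1 inferInstance
  obtain ⟨f, hf, n, _, _, hst⟩ := IsSmoothAt.exists_isStandardEtale_mvPolynomial (R := k) (p := q)
  have hf0 : (f : L) ≠ 0 := fun e => hf (by rw [show f = 0 from Subtype.ext e]; exact zero_mem _)
  let ℓ : Localization.Away f →ₐ[k] L :=
    IsLocalization.liftAlgHom (M := .powers f) (f := (adjoin k G).val) <| by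
      rintro ⟨_, n, rfl⟩
      exact Ne.isUnit (pow_ne_zero n hf0)
  have hℓ : ∀ a : adjoin k G, ℓ (algebraMap _ _ a) = a := fun a => by simp [ℓ]
  have hinj : Function.Injective ℓ := by
    rw [injective_iff_map_eq_zero]
    intro z hz
    obtain ⟨a, b, rfl⟩ := IsLocalization.exists_mk'_eq (.powers f) z
    have h1 := congrArg ℓ (IsLocalization.mk'_spec (Localization.Away f) a b)
    rw [map_mul, hz, zero_mul, hℓ] at h1
    have : a = 0 := Subtype.ext h1.symm
    rw [this, IsLocalization.mk'_zero]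
  exact ⟨f, hf, n, cert_abs hst ℓ hinj (range_le_adjoin f ℓ hℓ hf0)
    fun z hz => ⟨_, hℓ ⟨z, subset_adjoin hz⟩⟩⟩

/-- A simple root of its minimal polynomial generates a smooth algebra. -/
lemma smooth_root (A : Subalgebra k L) [FormallySmooth k A] [IsIntegrallyClosed A] {η : L}
    (hη : IsIntegral A η) (hd : aeval η (derivative (minpoly A η)) ≠ 0) :
    ∃ B : Subalgebra k L, FormallySmooth k B ∧ A ≤ B ∧ η ∈ B ∧ ∀ z ∈ B, ∃ (p : A[X]) (n : ℕ),
      z = aeval η p / aeval η (derivative (minpoly A η)) ^ n := by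
  let E : StandardEtalePair A :=
    ⟨minpoly A η, minpoly.monic hη, derivative (minpoly A η), 1, 0, 1, by ring⟩
  have hmap : E.HasMap η := ⟨minpoly.aeval _ _, hd.isUnit⟩
  let φ := E.lift η hmap
  let T : StandardEtalePresentation A E.Ring :=
    ⟨E, E.X, E.hasMap_X, by simpa [StandardEtalePair.lift_X_left] using Function.bijective_id⟩
  have hφ : ∀ q : A[X], φ (aeval E.X q) = aeval η q := fun q => by
    rw [← aeval_algHom_apply, StandardEtalePair.lift_X]
  have hsurj : ∀ z : E.Ring, ∃ (q : A[X]) (n : ℕ),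
      z * aeval E.X E.g ^ n = aeval E.X q := T.exists_mul_aeval_x_g_pow_eq_aeval_x
  have hφinj : Function.Injective φ := by
    rw [injective_iff_map_eq_zero]
    intro z hz
    obtain ⟨q, n, hq⟩ := hsurj z
    have h1 : aeval η q = 0 := by
      rw [← hφ, ← hq, map_mul, hz, zero_mul]
    obtain ⟨r, rfl⟩ := minpoly.isIntegrallyClosed_dvd hη h1
    rw [map_mul, show aeval E.X (minpoly A η) = 0 from E.hasMap_X.1, zero_mul] at hq
    exact (IsUnit.mul_left_eq_zero (E.hasMap_X.2.pow n)).1 hq
  let _ : Algebra k E.Ring := ((algebraMap A E.Ring).comp (algebraMap k A)).toAlgebra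
  have : IsScalarTower k A E.Ring := IsScalarTower.of_algebraMap_eq fun r => rfl
  let ψ : E.Ring →ₐ[k] L := φ.restrictScalars k
  have : FormallySmooth k E.Ring := FormallySmooth.comp k A _
  refine ⟨ψ.range, FormallySmooth.of_equiv (AlgEquiv.ofInjective ψ hφinj),
    fun y hy => ⟨algebraMap A _ ⟨y, hy⟩, φ.commutes _⟩, ⟨E.X, E.lift_X η hmap⟩, ?_⟩
  rintro _ ⟨z, rfl⟩
  obtain ⟨q, n, hq⟩ := hsurj z
  refine ⟨q, n, ?_⟩
  rw [eq_div_iff (pow_ne_zero _ hd), ← hφ q, ← hq, map_mul, map_pow, hφ]
  rfl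

lemma Cert.integral {G : Set L} {h : L} {n m : ℕ} {x : Fin n → L} {η g : L} {a : ℕ → L}
    (c : Cert k G h n m x η g a) : ∃ P : (adjoin k (Set.range x))[X], P.Monic ∧ aeval η P = 0 ∧
      aeval η (derivative P) = ∑ l ∈ Finset.range (m + 1), a l * l * η ^ (l - 1) := by
  classical
  let b : ℕ → adjoin k (Set.range x) := fun l =>
    if hl : l ∈ Finset.range (m + 1) then ⟨a l, c.ha l hl⟩ else 0
  have hb : ∀ l ∈ Finset.range (m + 1), algebraMap _ L (b l) = a l := fun l hl => by
    simp only [b, dif_pos hl]; rfl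
  refine ⟨∑ l ∈ Finset.range (m + 1), monomial l (b l), ?_, ?_, ?_⟩
  · refine monic_of_natDegree_le_of_coeff_eq_one m ?_ ?_
    · refine natDegree_sum_le_of_forall_le _ _ fun l hl => (natDegree_monomial_le _).trans ?_
      exact Nat.lt_succ_iff.1 (Finset.mem_range.1 hl)
    · simp only [finsetSum_coeff, coeff_monomial, Finset.sum_ite_eq', Finset.self_mem_range_succ,
        if_true]
      exact Subtype.ext ((hb m (Finset.self_mem_range_succ m)).trans c.top)
  · rw [map_sum, ← c.root]
    exact Finset.sum_congr rfl fun l hl => by rw [aeval_monomial, hb l hl]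
  · rw [map_sum, map_sum]
    exact Finset.sum_congr rfl fun l hl => by
      rw [derivative_monomial, aeval_monomial, map_mul, hb l hl, map_natCast]

lemma Cert.algebraic {G : Set L} {h : L} {n m : ℕ} {x : Fin n → L} {η g : L} {a : ℕ → L}
    (c : Cert k G h n m x η g a) {z : L} (hz : z ∈ adjoin k G) :
    IsAlgebraic (adjoin k (Set.range x)) z := by
  obtain ⟨P, hP, h0, -⟩ := c.integral
  have hη : IsAlgebraic (adjoin k (Set.range x)) η := ⟨P, hP.ne_zero, h0⟩
  let C := (Subalgebra.algebraicClosure (adjoin k (Set.range x)) L).restrictScalars k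
  have h1 : adjoin k (insert η (Set.range x)) ≤ C := by
    refine adjoin_le ?_
    rintro y (rfl | hy)
    · exact hη
    · exact isAlgebraic_algebraMap (⟨y, subset_adjoin hy⟩ : adjoin k (Set.range x))
  have h2 : adjoin k G ≤ C := by
    refine adjoin_le fun y hy => ?_
    obtain ⟨N, hN⟩ := c.gen y hy
    have h3 : y = y * g ^ N * (g ^ N)⁻¹ := (mul_inv_cancel_right₀ (pow_ne_zero _ c.g0) _).symm
    rw [h3]
    exact mul_mem (h1 hN) (IsAlgebraic.inv (pow_mem (h1 c.hg) N))
  exact h2 hz

lemma Cert.smooth {G : Set L} {h : L} {n m : ℕ} {x : Fin n → L} {η g : L} {a : ℕ → L}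
    (c : Cert k G h n m x η g a) (hx : AlgebraicIndependent k x) {O : Subalgebra k L}
    (hO : IsPoint (adjoin k G) O) (hh : Un O h) : FormallySmooth k O := by
  set A := adjoin k (Set.range x)
  have : FormallySmooth k A := FormallySmooth.of_equiv hx.aevalEquiv
  have : IsIntegrallyClosed A := IsIntegrallyClosed.of_equiv hx.aevalEquiv.toRingEquiv
  obtain ⟨P, hP, h0, hd⟩ := c.integral
  have hη : IsIntegral A η := ⟨P, hP, h0⟩
  have hle : adjoin k (insert h⁻¹ G) ≤ O := by
    refine adjoin_le ?_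
    rintro y (rfl | hy)
    exacts [hh.2.2, hO.le (subset_adjoin hy)]
  have hA : A ≤ O := adjoin_le (by rintro _ ⟨i, rfl⟩; exact hle (c.hx i))
  have hev : ∀ (B : Subalgebra k L), A ≤ B → η ∈ B → ∀ p : A[X], aeval η p ∈ B := by
    intro B h1 h2 p
    rw [aeval_eq_sum_range]
    refine Subalgebra.sum_mem _ fun l _ => ?_
    rw [Algebra.smul_def]
    exact mul_mem (h1 (p.coeff l).2) (pow_mem h2 _)
  have hηO := hle c.hη
  obtain ⟨r, hr⟩ := minpoly.isIntegrallyClosed_dvd hη h0
  have hu : Un O (aeval η (derivative (minpoly A η))) := by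
    refine Un.of_mul (hev O hA hηO _) (hev O hA hηO r) ?_
    have h1 : aeval η (derivative P) = aeval η (derivative (minpoly A η)) * aeval η r := by
      rw [hr, derivative_mul, map_add, map_mul, map_mul, minpoly.aeval, zero_mul, add_zero]
    rw [← h1]
    exact ⟨hev O hA hηO _, hd ▸ c.d0, hd ▸ hle c.di⟩
  obtain ⟨B, hB, hAB, hηB, hgen⟩ := smooth_root A hη hu.2.1
  have hBO : B ≤ O := fun z hz => by
    obtain ⟨p, N, rfl⟩ := hgen z hz
    rw [div_eq_mul_inv]
    exact mul_mem (hev O hA hηO p) (hu.pow N).2.2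
  have h1 : adjoin k (insert η (Set.range x)) ≤ B := by
    refine adjoin_le ?_
    rintro y (rfl | hy)
    exacts [hηB, hAB (subset_adjoin hy)]
  have hg : Un O g := ⟨hBO (h1 c.hg), c.g0, hle c.gi⟩
  refine (hO.of_le_loc hBO (adjoin_le fun z hz => ?_)).sf.formallySmooth
  obtain ⟨N, hN⟩ := c.gen z hz
  exact ⟨_, h1 hN, _, pow_mem (h1 c.hg) N, hg.pow N,
    (mul_div_cancel_right₀ _ (pow_ne_zero _ c.g0)).symm⟩

end Cert

end Pool.Agent.MP_19ffc6_ag.Res.Descent
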