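import Pool.Agent.MP_19ffc6_ag.Res.DescA
import Pool.Agent.MP_19ffc6_ag.Res.Bridge

/-! Spreading out: a smooth projective model over an extension of an algebraically closed ground
field specialises to a smooth projective model over the ground field. -/

namespace Pool.Agent.MP_19ffc6_ag.Res.Descent

open Pool.Agent.MP_19ffc6_ag.Wild Polynomial Filter TensorProduct Algebra

section Main

variable {k k' K L : Type} [Field k] [Field k'] [Field K] [Field L] [Algebra k k']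
  [Algebra k K] [Algebra k L] [Algebra k' L] [IsScalarTower k k' L]

lemma chart_span (Γ : Set K) (g : K) :
    chart ⊥ (Submodule.span k Γ) g = adjoin k ((· / g) '' Γ) := by
  refine le_antisymm (chart_le bot_le fun m hm => ?_) (adjoin_le ?_)
  · induction hm using Submodule.span_induction with
    | mem x hx => exact subset_adjoin ⟨x, hx, rfl⟩
    | zero => simp
    | add a b _ _ ha hb => rw [add_div]; exact add_mem ha hb
    | smul c a _ ha => rw [smul_div_assoc]; exact Subalgebra.smul_mem _ ha _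
  · rintro _ ⟨x, hx, rfl⟩
    exact div_mem_chart _ _ (Submodule.subset_span hx)

lemma pt_span {Γ : Set K} {O : Subalgebra k K} (h : Pt ⊥ (Submodule.span k Γ) O) :
    ∃ m ∈ Γ, m ≠ 0 ∧ IsPoint (adjoin k ((· / m) '' Γ)) O := by
  obtain ⟨g, hg, hg0, hP⟩ := h
  have hmem : ∀ x ∈ Γ, x / g ∈ O := fun x hx =>
    hP.le (div_mem_chart _ _ (Submodule.subset_span hx))
  obtain ⟨m, hm, hu⟩ := exists_un_of_span hP.lcl hg0 hmem
    (by rw [← one_mul g]; exact Submodule.mul_mem_mul (one_mem O) hg)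
  have hm0 : m ≠ 0 := fun e => hu.2.1 (by simp [e])
  refine ⟨m, hm, hm0, hP.of_le_loc (adjoin_le ?_) ?_⟩
  · rintro _ ⟨x, hx, rfl⟩
    have : x / m = (x / g) * (m / g)⁻¹ := by field_simp
    simp only [this]
    exact mul_mem (hmem x hx) hu.2.2
  · rw [← chart_span]
    exact chart_le bot_le fun x hx => ⟨x / m, div_mem_chart _ _ hx, g / m, div_mem_chart _ _ hg,
      by simpa using hu.inv, by field_simp⟩

variable {j : K →ₐ[k] L} (s : Spz k' j)

lemma Cert.spz {G : Set L} (hG : G.Finite) {h : L} {n m : ℕ} {x : Fin n → L} {η g : L}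
    {a : ℕ → L} (c : Cert k' G h n m x η g a) : ∀ᶠ i in s.F, Cert k (s.π i '' G) (s.π i h) n m
      (s.π i ∘ x) (s.π i η) (s.π i g) (s.π i ∘ a) := by
  have h1 : ∀ {y}, y ∈ adjoin k' (insert h⁻¹ G) →
      ∀ᶠ i in s.F, s.π i y ∈ adjoin k (insert (s.π i h)⁻¹ (s.π i '' G)) := fun hy => by
    filter_upwards [s.adj hy, s.inv h] with i h1 h2
    rwa [Set.image_insert_eq, h2] at h1
  have h2 : ∀ {y}, y ∈ adjoin k' (insert η (Set.range x)) →
      ∀ᶠ i in s.F, s.π i y ∈ adjoin k (insert (s.π i η) (Set.range (s.π i ∘ x))) := fun hy => by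
    filter_upwards [s.adj hy] with i h1
    rwa [Set.image_insert_eq, ← Set.range_comp] at h1
  have h3 : ∀ᶠ i in s.F, s.π i (∑ l ∈ Finset.range (m + 1), a l * l * η ^ (l - 1)) =
      ∑ l ∈ Finset.range (m + 1), (s.π i ∘ a) l * l * s.π i η ^ (l - 1) := by
    have : ∀ l ∈ Finset.range (m + 1), ∀ᶠ i in s.F, s.π i (a l * l * η ^ (l - 1)) =
        (s.π i ∘ a) l * l * s.π i η ^ (l - 1) := fun l _ => by
      filter_upwards [s.mul (a l * l) (η ^ (l - 1)), s.mul (a l) l, s.nat l, s.pow η (l - 1)]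
        with i e1 e2 e3 e4
      rw [e1, e2, e3, e4]; rfl
    filter_upwards [s.sum _ _, (eventually_all_finset _).2 this] with i e1 e2
    rw [e1]; exact Finset.sum_congr rfl e2
  have h4 : ∀ᶠ i in s.F, s.π i (∑ l ∈ Finset.range (m + 1), a l * η ^ l) =
      ∑ l ∈ Finset.range (m + 1), (s.π i ∘ a) l * s.π i η ^ l := by
    have : ∀ l ∈ Finset.range (m + 1), ∀ᶠ i in s.F, s.π i (a l * η ^ l) =
        (s.π i ∘ a) l * s.π i η ^ l := fun l _ => by
      filter_upwards [s.mul (a l) (η ^ l), s.pow η l] with i e1 e2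
      rw [e1, e2]; rfl
    filter_upwards [s.sum _ _, (eventually_all_finset _).2 this] with i e1 e2
    rw [e1]; exact Finset.sum_congr rfl e2
  have h5 : ∀ z ∈ G, ∀ᶠ i in s.F, ∃ N : ℕ, s.π i z * s.π i g ^ N ∈
      adjoin k (insert (s.π i η) (Set.range (s.π i ∘ x))) := fun z hz => by
    obtain ⟨N, hN⟩ := c.gen z hz
    filter_upwards [h2 hN, s.mul z (g ^ N), s.pow g N] with i e1 e2 e3
    exact ⟨N, by rwa [e2, e3] at e1⟩
  have h6 : ∀ l ∈ Finset.range (m + 1), ∀ᶠ i in s.F,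
      (s.π i ∘ a) l ∈ adjoin k (Set.range (s.π i ∘ x)) := fun l hl => by
    filter_upwards [s.adj (c.ha l hl)] with i e1
    rwa [← Set.range_comp] at e1
  filter_upwards [eventually_all.2 fun l => h1 (c.hx l), h1 c.hη, s.ne_zero c.g0, h1 c.gi,
    s.inv g, s.ne_zero c.d0, h1 c.di,
    s.inv (∑ l ∈ Finset.range (m + 1), a l * l * η ^ (l - 1)), h3, h4, h2 c.hg, (eventually_all_finite hG).2 h5,
    (eventually_all_finset _).2 h6, s.one, s.zero] with i e1 e2 e3 e4 e5 e6 e7 e8 e9 e10 e11 e12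
    e13 e14 e15
  refine ⟨e1, e2, e3, e5 ▸ e4, e9 ▸ e6, ?_, e11, ?_, ?_, e13, ?_⟩
  · rw [← e9, ← e8]; exact e7
  · rintro _ ⟨z, hz, rfl⟩; exact e12 z hz
  · rw [Function.comp_apply, c.top, e14]
  · rw [← e10, c.root, e15]

lemma cover_spz (G : Set L) (p : L → Prop) (p' : s.I → K → Prop)
    (hp : ∀ x, p x → ∀ᶠ i in s.F, p' i (s.π i x))
    (h : ∀ q : Ideal (adjoin k' G), q.IsPrime → ∃ x : adjoin k' G, x ∉ q ∧ p x) :
    ∀ᶠ i in s.F, ∀ O : Subalgebra k K, Lcl O → adjoin k (s.π i '' G) ≤ O →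
      ∃ y ∈ adjoin k (s.π i '' G), Un O y ∧ p' i y := by
  obtain ⟨T, c, hT, h1⟩ := exists_cover _ p h
  have h2 : ∀ x ∈ T, ∀ᶠ i in s.F, (s.π i x ∈ adjoin k (s.π i '' G) ∧
      s.π i (c x) ∈ adjoin k (s.π i '' G) ∧ p' i (s.π i x)) ∧
      s.π i (c x * x) = s.π i (c x) * s.π i x := fun x hx =>
    ((s.adj (hT x hx).1).and ((s.adj (hT x hx).2.1).and (hp x (hT x hx).2.2))).and (s.mul _ _)
  filter_upwards [(eventually_all_finset _).2 h2, s.sum T fun x => c x * x, s.one]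
    with i e1 e2 e3 O hO hle
  obtain ⟨x, hx, hu⟩ := un_of_sum hO (T := T) (c := fun x => s.π i (c x)) (x := s.π i)
    (fun x hx => ⟨hle (e1 x hx).1.1, hle (e1 x hx).1.2.1⟩) (by
      rw [← e3, ← h1, e2]; exact Finset.sum_congr rfl fun x hx => (e1 x hx).2.symm)
  exact ⟨_, (e1 x hx).1.1, hu, (e1 x hx).1.2.2⟩

lemma chart_spz (hd : trdeg k' L ≤ trdeg k K) {S : Set K} (hS : S.Finite)
    (htop : IntermediateField.adjoin k S = ⊤) {G : Set L} (hG : G.Finite)
    (h : ∀ O, IsPoint (adjoin k' G) O →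
      (∀ r ∈ S, j r ∈ O ∨ (j r)⁻¹ ∈ O) ∧ FormallySmooth k' O) :
    ∀ᶠ i in s.F, ∀ O, IsPoint (adjoin k (s.π i '' G)) O →
      (∀ r ∈ S, r ∈ O ∨ r⁻¹ ∈ O) ∧ FormallySmooth k O := by
  have h1 : ∀ r ∈ S, ∀ᶠ i in s.F, ∀ O : Subalgebra k K, Lcl O → adjoin k (s.π i '' G) ≤ O →
      ∃ y ∈ adjoin k (s.π i '' G), Un O y ∧
        (y * r ∈ adjoin k (s.π i '' G) ∨ y * r⁻¹ ∈ adjoin k (s.π i '' G)) := fun r hr => by
    refine cover_spz s G (fun x => x * j r ∈ adjoin k' G ∨ x * j r⁻¹ ∈ adjoin k' G) _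
      (fun x hx => ?_) (fun q hq => ?_)
    · rcases hx with hx | hx
      · filter_upwards [s.adj hx, s.mul x (j r), s.map r] with i e1 e2 e3
        rw [e2, e3] at e1; exact Or.inl e1
      · filter_upwards [s.adj hx, s.mul x (j r⁻¹), s.map r⁻¹] with i e1 e2 e3
        rw [e2, e3] at e1; exact Or.inr e1
    · obtain ⟨O, hO, hu, -⟩ := exists_point _ q
      rcases (h O hO).1 r hr with e | e
      · obtain ⟨a, ha, b, hb, hbu, e1⟩ := hO.le_loc e
        refine ⟨⟨b, hb⟩, (hu _).1 hbu, Or.inl ?_⟩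
        rw [e1, mul_div_cancel₀ _ hbu.2.1]; exact ha
      · obtain ⟨a, ha, b, hb, hbu, e1⟩ := hO.le_loc e
        refine ⟨⟨b, hb⟩, (hu _).1 hbu, Or.inr ?_⟩
        rw [map_inv₀, e1, mul_div_cancel₀ _ hbu.2.1]; exact ha
  have h2 := cover_spz s G
    (fun y => ∃ (n m : ℕ), ∃ x η g a, (n : Cardinal) ≤ trdeg k K ∧ Cert k' G y n m x η g a)
    (fun i y => ∃ (n m : ℕ), ∃ x η g a, (n : Cardinal) ≤ trdeg k K ∧
      Cert k (s.π i '' G) y n m x η g a)
    (by
      rintro y ⟨n, m, x, η, g, a, hn, c⟩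
      exact (c.spz s hG).mono fun i e => ⟨_, _, _, _, _, _, hn, e⟩)
    (fun q hq => by
      obtain ⟨O, hO, -, hs⟩ := exists_point _ q
      have := hs (h O hO).2
      obtain ⟨y, hy, n, m, x, η, g, a, hx, c⟩ := cert_of_smooth hG q
      exact ⟨y, hy, n, m, x, η, g, a, by simpa using hx.cardinalMk_le_trdeg.trans hd, c⟩)
  filter_upwards [(eventually_all_finite hS).2 h1, h2] with i e1 e2 O hO
  constructor
  · intro r hr
    obtain ⟨y, -, hu, e | e⟩ := e1 r hr O hO.lcl hO.le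
    · left
      rw [← inv_mul_cancel_left₀ hu.2.1 r]; exact mul_mem hu.2.2 (hO.le e)
    · right
      rw [← inv_mul_cancel_left₀ hu.2.1 r⁻¹]; exact mul_mem hu.2.2 (hO.le e)
  · obtain ⟨y, -, hu, n, m, x, η, g, a, hn, c⟩ := e2 O hO.lcl hO.le
    refine c.smooth ?_ hO hu
    have hS' : ∀ r ∈ S, IsAlgebraic (adjoin k (Set.range x)) r := fun r hr => by
      obtain ⟨z, hz, hzu, e | e⟩ := e1 r hr ⊤ (fun u _ v _ huv => by
        by_cases hu0 : u = 0
        · right; simpa [hu0] using huv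
        · left; exact ⟨trivial, hu0, trivial⟩) le_top
      · rw [← inv_mul_cancel_left₀ hzu.2.1 r]
        exact (c.algebraic hz).inv.mul (c.algebraic e)
      · rw [← IsAlgebraic.inv_iff, ← inv_mul_cancel_left₀ hzu.2.1 r⁻¹]
        exact (c.algebraic hz).inv.mul (c.algebraic e)
    have : Algebra.IsAlgebraic (adjoin k (Set.range x)) K := ⟨fun z => by
      have hz : z ∈ IntermediateField.adjoin k S := htop ▸ IntermediateField.mem_top
      obtain ⟨u, hu, v, hv, rfl⟩ := IntermediateField.mem_adjoin_iff_div.1 hz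
      have hle : adjoin k S ≤
          (Subalgebra.algebraicClosure (adjoin k (Set.range x)) K).restrictScalars k :=
        adjoin_le hS'
      rw [div_eq_mul_inv]
      exact IsAlgebraic.mul (hle hu) (IsAlgebraic.inv (hle hv))⟩
    exact (IsAlgebraic.isTranscendenceBasis_of_le_trdeg_of_finite k x (by simpa using hn)).1

include s in
theorem descend_spz (hd : trdeg k' L ≤ trdeg k K) {S : Set K} (hS : S.Finite)
    (htop : IntermediateField.adjoin k S = ⊤) {M' : Submodule k' L} (hfg : M'.FG) (h0 : M' ≠ ⊥)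
    (h : ∀ O, Pt ⊥ M' O → (∀ r ∈ S, j r ∈ O ∨ (j r)⁻¹ ∈ O) ∧ FormallySmooth k' O) :
    ∃ M : Submodule k K, M.FG ∧ M ≠ ⊥ ∧
      ∀ O, Pt ⊥ M O → (∀ r ∈ S, r ∈ O ∨ r⁻¹ ∈ O) ∧ FormallySmooth k O := by
  obtain ⟨Γ, hΓ, rfl⟩ := Submodule.fg_def.1 hfg
  obtain ⟨m0, hm0, hm00⟩ : ∃ m ∈ Γ, m ≠ 0 := by
    by_contra H
    push Not at H
    exact h0 (Submodule.span_eq_bot.2 H)
  have h1 : ∀ m ∈ Γ, ∀ᶠ i in s.F, s.π i m ≠ 0 →
      ∀ O, IsPoint (adjoin k ((· / s.π i m) '' (s.π i '' Γ))) O →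
        (∀ r ∈ S, r ∈ O ∨ r⁻¹ ∈ O) ∧ FormallySmooth k O := fun m hm => by
    by_cases e : m = 0
    · exact s.zero.mono fun i e1 e2 => (e2 (e ▸ e1)).elim
    filter_upwards [chart_spz s hd hS htop (hΓ.image (· / m)) fun O hO =>
      h O ⟨m, Submodule.subset_span hm, e, by rwa [chart_span]⟩,
      (eventually_all_finite hΓ).2 fun x _ => s.div x m] with i e1 e2 _ O hO
    refine e1 O ?_
    rwa [Set.image_image, Set.image_congr e2, ← Set.image_image (· / s.π i m) (s.π i)]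
  have := s.ne
  obtain ⟨i, e1, e2⟩ := (((eventually_all_finite hΓ).2 h1).and (s.ne_zero hm00)).exists
  refine ⟨Submodule.span k (s.π i '' Γ), Submodule.fg_def.2 ⟨_, hΓ.image _, rfl⟩,
    fun e => e2 (Submodule.span_eq_bot.1 e _ ⟨m0, hm0, rfl⟩), fun O hO => ?_⟩
  obtain ⟨_, ⟨m, hm, rfl⟩, hm1, hP⟩ := pt_span hO
  exact e1 m hm hm1 O hP

lemma trdeg_le (j : K →ₐ[k] L) (hL : IntermediateField.adjoin k' (Set.range j) = ⊤) :
    trdeg k' L ≤ trdeg k K := by
  obtain ⟨ι, t, ht⟩ := exists_isTranscendenceBasis' k K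
  let A := adjoin k' (Set.range (j ∘ t))
  have h1 : ∀ y ∈ adjoin k (Set.range t), j y ∈ A := fun y hy => by
    have : (adjoin k (Set.range t)).map j ≤ A.restrictScalars k := by
      rw [AlgHom.map_adjoin, ← Set.range_comp]
      exact adjoin_le fun _ h => subset_adjoin (R := k') h
    exact this ⟨y, hy, rfl⟩
  let f : adjoin k (Set.range t) →+* A :=
    (j.toRingHom.comp (adjoin k (Set.range t)).val.toRingHom).codRestrict A fun y => h1 y y.2
  have : Algebra.IsAlgebraic A L := ⟨fun z => by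
    have hz : z ∈ IntermediateField.adjoin k' (Set.range j) := hL ▸ IntermediateField.mem_top
    obtain ⟨u, hu, v, hv, rfl⟩ := IntermediateField.mem_adjoin_iff_div.1 hz
    have hle : adjoin k' (Set.range j) ≤ (Subalgebra.algebraicClosure A L).restrictScalars k' := by
      refine adjoin_le ?_
      rintro _ ⟨x, rfl⟩
      exact (ht.isAlgebraic.isAlgebraic x).ringHom_of_comp_eq f j
        (fun a b e => Subtype.ext (j.injective (congrArg Subtype.val e))) rfl
    rw [div_eq_mul_inv]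
    exact IsAlgebraic.mul (hle hu) (IsAlgebraic.inv (hle hv))⟩
  rw [← ht.cardinalMk_eq_trdeg]
  exact (IsAlgebraic.trdeg_le_cardinalMk k' (Set.range (j ∘ t))).trans Cardinal.mk_range_le

/-- Spreading out, for a compositum `L` of `K` and `k'` that are algebraically disjoint. -/
theorem descend [IsAlgClosed k] (j : K →ₐ[k] L)
    (hL : IntermediateField.adjoin k' (Set.range j) = ⊤) {ι : Type} {t : ι → K}
    (ht : IsTranscendenceBasis k t) (ht' : AlgebraicIndependent k' (j ∘ t)) {S : Set K}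
    (hS : S.Finite) (htop : IntermediateField.adjoin k S = ⊤) {M' : Submodule k' L} (hfg : M'.FG)
    (h0 : M' ≠ ⊥)
    (h : ∀ O, Pt ⊥ M' O → (∀ r ∈ S, j r ∈ O ∨ (j r)⁻¹ ∈ O) ∧ FormallySmooth k' O) :
    ∃ M : Submodule k K, M.FG ∧ M ≠ ⊥ ∧
      ∀ O, Pt ⊥ M O → (∀ r ∈ S, r ∈ O ∨ r⁻¹ ∈ O) ∧ FormallySmooth k O :=
  let ⟨s⟩ := exists_spz k' j (mu_injective k' j ht ht') hL
  descend_spz s (trdeg_le j hL) hS htop hfg h0 h

lemma mem_map_iff (j : K →ₐ[k] L) {O : Subalgebra k K} {x : K} : j x ∈ O.map j ↔ x ∈ O :=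
  ⟨fun ⟨_, hy, e⟩ => j.injective e ▸ hy, fun h => ⟨x, h, rfl⟩⟩

/-- A model inside the image of a field embedding is a model of the source. -/
lemma pull (j : K →ₐ[k] L) {M : Submodule k L} (hfg : M.FG) (h0 : M ≠ ⊥)
    (hM : ∀ x ∈ M, x ∈ j.range) : ∃ M0 : Submodule k K, M0.FG ∧ M0 ≠ ⊥ ∧
      M0.map j.toLinearMap = M ∧ ∀ O, Pt ⊥ M0 O → Pt ⊥ M (O.map j) := by
  have hmap : (M.comap j.toLinearMap).map j.toLinearMap = M :=
    Submodule.map_comap_eq_of_le fun x hx => hM x hx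
  have hun : ∀ {O : Subalgebra k K} {x : K}, Un (O.map j) (j x) ↔ Un O x := fun {O x} => by
    simp only [Un, ← map_inv₀, mem_map_iff, _root_.map_ne_zero]
  refine ⟨M.comap j.toLinearMap, Submodule.fg_of_fg_map_injective _ j.injective (hmap ▸ hfg),
    fun e => h0 (by rw [← hmap, e, Submodule.map_bot]), hmap, ?_⟩
  rintro O ⟨g, hg, hg0, hP⟩
  have hc : chart ⊥ M (j g) = (chart ⊥ (M.comap j.toLinearMap) g).map j := by
    refine le_antisymm (chart_le bot_le fun m hm => ?_) ?_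
    · obtain ⟨m, rfl⟩ := hM m hm
      exact ⟨m / g, div_mem_chart _ _ hm, map_div₀ j _ _⟩
    · rw [Subalgebra.map_le]
      exact chart_le bot_le fun m hm => by
        rw [Subalgebra.mem_comap, map_div₀]; exact div_mem_chart _ _ hm
  refine ⟨j g, hg, (_root_.map_ne_zero j).2 hg0, ?_⟩
  rw [hc]
  refine ⟨Subalgebra.map_mono hP.le, ?_, ?_⟩
  · rintro _ ⟨x, hx, rfl⟩ _ ⟨y, hy, rfl⟩ hxy
    change Un _ (j x + j y) at hxy
    change Un _ (j x) ∨ Un _ (j y)
    rw [← map_add, hun] at hxy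
    rw [hun, hun]
    exact hP.lcl x hx y hy hxy
  · rintro _ ⟨x, hx, rfl⟩
    obtain ⟨a, ha, b, hb, hu, rfl⟩ := hP.le_loc hx
    exact ⟨j a, ⟨a, ha, rfl⟩, j b, ⟨b, hb, rfl⟩, hun.2 hu, map_div₀ j _ _⟩

variable (k k' K) in
/-- The base change of a field extension of an algebraically closed field. -/
theorem exists_baseChange [IsAlgClosed k] :
    ∃ (L : Type) (_ : Field L) (_ : Algebra k L) (_ : Algebra k' L) (_ : IsScalarTower k k' L)
      (j : K →ₐ[k] L), Function.Injective (mu k' j) ∧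
        IntermediateField.adjoin k' (Set.range j) = ⊤ := by
  have := isDomain_tensor k k' K
  let L := FractionRing (k' ⊗[k] K)
  let j : K →ₐ[k] L := (IsScalarTower.toAlgHom k (k' ⊗[k] K) L).comp
    Algebra.TensorProduct.includeRight
  have hmu : ∀ z, mu k' j z = algebraMap _ L z := fun z => by
    induction z with
    | zero => simp
    | add x y hx hy => rw [map_add, map_add, hx, hy]
    | tmul c x =>
      rw [mu_tmul, IsScalarTower.algebraMap_apply k' (k' ⊗[k] K) L]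
      simp [j, ← map_mul]
  refine ⟨L, inferInstance, inferInstance, inferInstance, inferInstance, j, fun a b e =>
    IsFractionRing.injective (k' ⊗[k] K) L (by rw [← hmu, ← hmu, e]), eq_top_iff.2 fun z _ => ?_⟩
  obtain ⟨a, b, -, rfl⟩ := IsFractionRing.div_surjective (A := k' ⊗[k] K) z
  have : ∀ z, algebraMap (k' ⊗[k] K) L z ∈ IntermediateField.adjoin k' (Set.range j) := fun z => by
    rw [← hmu]
    induction z with
    | zero => simp
    | add x y hx hy => rw [map_add]; exact add_mem hx hy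
    | tmul c x =>
      rw [mu_tmul]
      exact mul_mem (IntermediateField.algebraMap_mem _ _)
        (IntermediateField.subset_adjoin _ _ ⟨x, rfl⟩)
  exact div_mem (this a) (this b)

lemma adjoin_image (j : K →ₐ[k] L) (hL : IntermediateField.adjoin k' (Set.range j) = ⊤)
    {S : Set K} (htop : IntermediateField.adjoin k S = ⊤) :
    IntermediateField.adjoin k' (j '' S) = ⊤ := by
  rw [_root_.eq_top_iff, ← hL, IntermediateField.adjoin_le_iff]
  rintro _ ⟨x, rfl⟩
  have h1 : (IntermediateField.adjoin k S).map j ≤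
      (IntermediateField.adjoin k' (j '' S)).restrictScalars k := by
    rw [IntermediateField.adjoin_map, IntermediateField.adjoin_le_iff]
    exact fun _ h => IntermediateField.subset_adjoin k' _ h
  exact h1 ⟨x, htop ▸ IntermediateField.mem_top, rfl⟩

end Main

end Pool.Agent.MP_19ffc6_ag.Res.Descent

namespace Pool.Agent.MP_19ffc6_ag.Res

open Descent

/-- Smooth models descend from any extension of an algebraically closed ground field. -/
theorem ModelS.descend {k : Type} (k' : Type) [Field k] [Field k'] [Algebra k k'] [IsAlgClosed k]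
    {n : ℕ} (h : ModelS k' n) : ModelS k n := by
  intro K _ _ S hS htop hn
  obtain ⟨L, _, _, _, _, j, hj, hL⟩ := exists_baseChange k k' K
  obtain ⟨L', _, _, j', M', hfg, h0, hM, hP⟩ := h L (j '' S) (hS.image _) (adjoin_image j hL htop)
    ((trdeg_le j hL).trans hn)
  obtain ⟨M0, hfg0, h00, -, hP0⟩ := pull j' hfg h0 hM
  obtain ⟨s⟩ := exists_spz k' j hj hL
  obtain ⟨M, h1, h2, h3⟩ := descend_spz s (trdeg_le j hL) hS htop hfg0 h00 fun O hO => by
    obtain ⟨e1, e2⟩ := hP _ (hP0 O hO)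
    refine ⟨fun r hr => ?_, .of_equiv (O.equivMapOfInjective j' j'.injective).symm⟩
    have := e1 _ ⟨r, hr, rfl⟩
    rwa [← map_inv₀, mem_map_iff, mem_map_iff] at this
  exact ⟨K, inferInstance, inferInstance, AlgHom.id k K, M, h1, h2, fun x _ => ⟨x, rfl⟩, h3⟩

end Pool.Agent.MP_19ffc6_ag.Res
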