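import Mathlib.Algebra.AffineMonoid.Basic
import Mathlib.Algebra.BigOperators.Field
import Pool.Agent.MP_19ffc6_ag.Res.Bez

/-! PROJECT RES, part B: the quotient of a toroidal point by a tame group is toroidal. -/

namespace Pool.Agent.MP_19ffc6_ag.Res

open Pool.Agent.MP_19ffc6_ag.Wild Pool.Agent.MP_19ffc6_ag.Lci Tor B

variable {k L : Type} [Field k] [Field L] [Algebra k L]
  (G : Type) [Group G] [MulSemiringAction G L] [SMulCommClass G k L]

/-- `u` generates at `O` the quotient of two stable modules with generators `a`, `b`. -/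
def Str (O : Subalgebra k L) (u : L) : Prop :=
  ∃ a b, Un O (a / b / u) ∧ (∀ g : G, g • a / a ∈ O) ∧ ∀ g : G, g • b / b ∈ O

/-- The cone in the coordinates of the sublattice with basis `b`. -/
def Tor.Typ.sub {ι : Type} {r : ℕ} (τ : Typ ι r) (b : Matrix (Fin r) (Fin r) ℤ) : Typ ι r :=
  ⟨τ.R, fun ρ => b.mulVec (τ.row ρ)⟩

/-- The setting: `O` is a rational point of a stable algebra with a tame stabiliser. -/
structure Qt (D O : Subalgebra k L) : Prop where
  st : ∀ g : G, ∀ x ∈ D, g • x ∈ D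
  pt : IsPoint D O
  rt : Rt O
  pow : ∃ m : ℕ, (m : k) ≠ 0 ∧ ∀ g : G, g • O = O → g ^ m = 1

variable {G} {D O : Subalgebra k L} {u v x y : L} {g : G}

section Lat

variable {ι : Type} {r : ℕ}

theorem ev_lat (τ : Typ ι r) (b : Matrix (Fin r) (Fin r) ℤ) (e : Fin r → ℤ)
    (ρ : ι) : (τ.sub b).ev e ρ = τ.ev (Matrix.vecMul e b) ρ := by
  change b.mulVec (τ.row ρ) ⬝ᵥ e = τ.row ρ ⬝ᵥ Matrix.vecMul e b
  rw [dotProduct_comm, Matrix.dotProduct_mulVec, dotProduct_comm]

lemma mem_reg_lat {τ : Typ ι r} {b : Matrix (Fin r) (Fin r) ℤ} {e : Fin r → ℤ} {a : ι → ℤ} :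
    e ∈ (τ.sub b).Reg a ↔ Matrix.vecMul e b ∈ τ.Reg a :=
  forall₂_congr fun ρ _ => by rw [ev_lat]

/-- A lattice of finite exponent has a basis. -/
lemma exists_bas (Λ : Submodule ℤ (Fin r → ℤ)) {m : ℕ} (hm : m ≠ 0) (hΛ : ∀ c, m • c ∈ Λ) :
    ∃ b : Matrix (Fin r) (Fin r) ℤ, (∀ e, Matrix.vecMul e b = 0 → e = 0) ∧
      ∀ c, c ∈ Λ ↔ ∃ e, Matrix.vecMul e b = c := by
  have h1 : Module.finrank ℤ Λ = r := by
    refine le_antisymm (by simpa using Λ.finrank_le) ?_
    have := LinearMap.finrank_le_finrank_of_injective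
      (f := (m • LinearMap.id : (Fin r → ℤ) →ₗ[ℤ] _).codRestrict Λ hΛ)
      fun c c' h => nsmul_right_injective hm (congrArg Subtype.val h)
    simpa using this
  let β := Module.finBasisOfFinrankEq ℤ Λ h1
  have h2 : ∀ e, Matrix.vecMul e (Matrix.of fun i => (β i : Fin r → ℤ)) = β.equivFun.symm e :=
    fun e => by
      rw [Matrix.vecMul_eq_sum, β.equivFun_symm_apply, Submodule.coe_sum]; rfl
  refine ⟨Matrix.of fun i => (β i : Fin r → ℤ), fun e he => ?_, fun c => ⟨fun hc => ?_, ?_⟩⟩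
  · rw [h2, Submodule.coe_eq_zero] at he
    exact β.equivFun.symm.map_eq_zero_iff.1 he
  · exact ⟨β.equivFun ⟨c, hc⟩, by rw [h2, LinearEquiv.symm_apply_apply]⟩
  · rintro ⟨e, rfl⟩; rw [h2]; exact Subtype.coe_prop _

lemma add_ne_zero_reg {τ : Typ ι r} (hp : τ.Pointed) {c d : Fin r → ℤ} (hc : c ∈ τ.Reg 0)
    (hd : d ∈ τ.Reg 0) (h0 : d ≠ 0) : c + d ≠ 0 := fun e => h0 <| hp d fun ρ hρ => by
  have h1 : (0 : ℤ) ≤ _ := hc ρ hρ
  have h2 : (0 : ℤ) ≤ _ := hd ρ hρ
  have h3 := Typ.ev_add (τ := τ) c d ρ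
  rw [e, Typ.ev_zero] at h3
  omega

/-- A bounded length function on the monomials that are not divisible by a monomial of `Λ`. -/
lemma exists_len {τ : Typ ι r} (hp : τ.Pointed) (Λ : Submodule ℤ (Fin r → ℤ)) {m : ℕ} (hm : m ≠ 0)
    (hΛ : ∀ c, m • c ∈ Λ) : ∃ (μ : (Fin r → ℤ) → ℕ) (Q : ℕ), (∀ c, μ c < Q) ∧
      ∀ c ∈ τ.Reg 0, ∀ d ∈ τ.Reg 0, d ≠ 0 → μ c < μ (c + d) ∨
        ∃ e ∈ τ.Reg 0, e ≠ 0 ∧ e ∈ Λ ∧ c + d - e ∈ τ.Reg 0 := by
  have : NeZero m := ⟨hm⟩
  let φ : (Fin r → ℤ) → Fin r → ZMod m := fun c i => c i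
  let S : (Fin r → ℤ) → Set (Fin r → ZMod m) := fun c => φ '' {e | e ∈ τ.Reg 0 ∧ c - e ∈ τ.Reg 0}
  refine ⟨fun c => (S c).ncard, Nat.card (Fin r → ZMod m) + 1,
    fun c => Nat.lt_succ_of_le (Set.ncard_le_card _), fun c hc d hd h0 => ?_⟩
  by_cases h : φ (c + d) ∈ S c
  · obtain ⟨e, ⟨he, he'⟩, h⟩ := h
    refine Or.inr ⟨c - e + d, Typ.add_mem_reg0 he' hd, add_ne_zero_reg hp he' hd h0, ?_, ?_⟩
    · have : ∀ i, ∃ n : ℤ, (c + d) i - e i = m * n := fun i =>
        (ZMod.intCast_eq_intCast_iff_dvd_sub _ _ _).1 (congrFun h i)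
      choose n hn using this
      have h2 : c - e + d = m • n := funext fun i => by
        have := hn i
        simp only [Pi.add_apply, Pi.sub_apply, Pi.smul_apply, nsmul_eq_mul] at this ⊢
        omega
      exact h2 ▸ hΛ n
    · rwa [show c + d - (c - e + d) = e by abel]
  · refine Or.inl (Set.ncard_lt_ncard ⟨?_, fun H => h (H ⟨c + d, ⟨Typ.add_mem_reg0 hc hd, ?_⟩, rfl⟩)⟩)
    · rintro _ ⟨e, ⟨he, he'⟩, rfl⟩
      refine ⟨e, ⟨he, ?_⟩, rfl⟩
      rw [show c + d - e = c - e + d by abel]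
      exact Typ.add_mem_reg0 he' hd
    · rw [sub_self]; exact Typ.zero_mem_reg

lemma mn_vecMul {z : Fin r → L} (hz : ∀ i, z i ≠ 0) (b : Matrix (Fin r) (Fin r) ℤ)
    (e : Fin r → ℤ) : mn z (Matrix.vecMul e b) = mn (fun i => mn z (b i)) e := by
  have : ∀ (s : Finset (Fin r)) (c : Fin r → Fin r → ℤ),
      mn z (∑ i ∈ s, c i) = ∏ i ∈ s, mn z (c i) := fun s c => by
    induction s using Finset.induction_on with
    | empty => simp [mn_zero]
    | insert a s ha ih => rw [Finset.sum_insert ha, Finset.prod_insert ha, mn_add hz, ih]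
  rw [Matrix.vecMul_eq_sum, this]
  exact Finset.prod_congr rfl fun i _ => mn_smul _ _ _

lemma un_mn_of_un {κ : Type} [Fintype κ] {w z : κ → L} (hw : ∀ i, Un O (w i / z i)) (c : κ → ℤ) :
    Un O (mn w c / mn z c) := by
  have := mn_un (O := O) (u := fun i => w i / z i) (c := c) fun i hi => absurd (hw i) hi
  simpa only [mn, div_zpow, Finset.prod_div_distrib] using this

omit [SMulCommClass G k L] in
lemma smul_mn {κ : Type} [Fintype κ] (g : G) (z : κ → L) (c : κ → ℤ) :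
    g • mn z c = mn (fun i => g • z i) c := by
  simp only [mn, Finset.smul_prod', smul_zpow₀']

end Lat

section Str

omit [SMulCommClass G k L]

lemma st_mul (hu : g • u / u ∈ O) (hv : g • v / v ∈ O) : g • (u * v) / (u * v) ∈ O := by
  rw [smul_mul', mul_div_mul_comm]; exact mul_mem hu hv

lemma st_pow (hu : g • u / u ∈ O) (n : ℕ) : g • (u ^ n) / u ^ n ∈ O := by
  rw [smul_pow', ← div_pow]; exact pow_mem hu n

lemma st_one : g • (1 : L) / 1 ∈ O := by simp

theorem Str.of_smul_div (hu : u ≠ 0) (H : ∀ g : G, g • u / u ∈ O) : Str G O u :=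
  ⟨u, 1, by simpa [hu] using Un.one O, H, fun _ => st_one⟩

theorem Str.of_un (hu : Str G O u) (H : Un O (v / u)) : Str G O v := by
  obtain ⟨a, b, h, ha, hb⟩ := hu
  refine ⟨a, b, ?_, ha, hb⟩
  have h0 : u ≠ 0 := fun e => H.2.1 (by rw [e, div_zero])
  have := un_div h H
  rwa [div_div_div_cancel_right₀ h0] at this

theorem Str.mul (hu : Str G O u) (hv : Str G O v) : Str G O (u * v) := by
  obtain ⟨a, b, h, ha, hb⟩ := hu
  obtain ⟨a', b', h', ha', hb'⟩ := hv
  refine ⟨a * a', b * b', ?_, fun g => st_mul (ha g) (ha' g), fun g => st_mul (hb g) (hb' g)⟩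
  rw [mul_div_mul_comm, mul_div_mul_comm]; exact h.mul h'

theorem Str.inv (hu : Str G O u) : Str G O u⁻¹ := by
  obtain ⟨a, b, h, ha, hb⟩ := hu
  refine ⟨b, a, ?_, hb, ha⟩
  rw [show b / a / u⁻¹ = (a / b / u)⁻¹ by simp only [div_eq_mul_inv, mul_inv, inv_inv]; ring]
  exact h.inv

theorem Str.div (hu : Str G O u) (hv : Str G O v) : Str G O (u / v) := by
  rw [div_eq_mul_inv]; exact hu.mul hv.inv

theorem Str.of_div_smul (hu : u ≠ 0) (H : ∀ g : G, u / g • u ∈ O) : Str G O u := by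
  simpa using (Str.of_smul_div (G := G) (O := O) (inv_ne_zero hu) fun g => by
    rw [smul_inv'', inv_div_inv]; exact H g).inv

/-- roots of invariant elements -/
theorem Str.of_semi (hu : u ≠ 0) (H : ∀ g : G, ∃ c : k, g • u = c • u) : Str G O u :=
  .of_smul_div hu fun g => by
    obtain ⟨c, hc⟩ := H g
    rw [hc, Algebra.smul_def, mul_div_cancel_right₀ _ hu]
    exact O.algebraMap_mem c

theorem Str.one : Str G O 1 := .of_smul_div one_ne_zero fun _ => st_one

theorem Str.of_fixed (hu : u ≠ 0) (H : ∀ g : G, g • u = u) : Str G O u :=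
  .of_smul_div hu fun g => by rw [H, div_self hu]; exact one_mem _

theorem Str.zpow (hu : Str G O u) (n : ℤ) : Str G O (u ^ n) := by
  have : ∀ n : ℕ, Str G O (u ^ n) := fun n => by
    induction n with
    | zero => simpa using Str.one
    | succ n ih => rw [pow_succ]; exact ih.mul hu
  cases n with
  | ofNat n => simpa using this n
  | negSucc n => rw [zpow_negSucc]; exact (this _).inv

theorem Str.prod {κ : Type} (s : Finset κ) {z : κ → L} (hz : ∀ i ∈ s, Str G O (z i)) :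
    Str G O (∏ i ∈ s, z i) :=
  Finset.prod_induction z (Str G O) (fun _ _ ha hb => ha.mul hb) Str.one hz

theorem Str.mn {κ : Type} [Fintype κ] {z : κ → L} (hz : ∀ i, Str G O (z i)) (c : κ → ℤ) :
    Str G O (mn z c) := Str.prod _ fun i _ => (hz i).zpow _

end Str

section Stab

lemma sm_mem (hg : g • O = O) : g • x ∈ O ↔ x ∈ O := by
  conv_lhs => rw [← hg]
  exact smul_mem_smul

lemma sm_un (hg : g • O = O) : Un O (g • x) ↔ Un O x := by
  conv_lhs => rw [← hg]
  exact un_smul_smul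

lemma sm_mx (hl : Lcl O) (hg : g • O = O) (hx : x ∈ mx hl) : g • x ∈ mx hl :=
  ⟨(sm_mem hg).2 hx.1, fun h => hx.2 ((sm_un hg).1 h)⟩

lemma mx_mul (hl : Lcl O) (hy : y ∈ O) (hx : x ∈ mx hl) : y * x ∈ mx hl :=
  mul_comm x y ▸ mul_mem_mx hl hx hy

lemma B.Rt.mx (hr : Rt O) (hl : Lcl O) (hx : x ∈ O) : ∃ c : k, x - algebraMap k L c ∈ mx hl :=
  let ⟨c, hc⟩ := hr x hx; ⟨c, sub_mem hx (O.algebraMap_mem c), hc⟩

lemma un_of_sub (hl : Lcl O) (hu : Un O u) (h : x - u ∈ mx hl) : Un O x := by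
  have hx : x ∈ O := by simpa using add_mem h.1 hu.1
  by_contra H
  exact (sub_mem (show x ∈ mx hl from ⟨hx, H⟩) h).2 (by simpa using hu)

/-- The stabiliser acts trivially on the residue field. -/
lemma sm_sub (hr : Rt O) (hl : Lcl O) (hg : g • O = O) (hx : x ∈ O) : g • x - x ∈ mx hl := by
  obtain ⟨c, hc⟩ := hr.mx hl hx
  have := sub_mem (sm_mx hl hg hc) hc
  rwa [smul_sub, smul_algebraMap, sub_sub_sub_cancel_right] at this

lemma sm_span (hg : g • O = O) {S : Set L} (hS : ∀ s ∈ S, g • s ∈ Submodule.span O S)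
    (hx : x ∈ Submodule.span O S) : g • x ∈ Submodule.span O S := by
  induction hx using Submodule.span_induction with
  | mem x hx => exact hS x hx
  | zero => simp
  | add a b _ _ ha hb => rw [smul_add]; exact add_mem ha hb
  | smul c a _ ha =>
    rw [show c • a = (c : L) * a from rfl, smul_mul']
    exact mul_mem_sub _ ((sm_mem hg).2 c.2) ha

lemma Str.un (hu : Str G O u) (hg : g • O = O) : Un O (g • u / u) := by
  have key : ∀ {a : L}, a ≠ 0 → (∀ g : G, g • a / a ∈ O) → Un O (g • a / a) := fun {a} h0 ha => by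
    refine ⟨ha g, div_ne_zero (by rwa [Ne, smul_eq_zero_iff_eq]) h0, ?_⟩
    have := (sm_mem hg).2 (ha g⁻¹)
    rwa [smul_div₀', smul_inv_smul, ← inv_div] at this
  obtain ⟨a, b, h, ha, hb⟩ := hu
  have h0 := h.2.1
  simp only [ne_eq, div_eq_zero_iff, not_or] at h0
  obtain ⟨⟨h1, h2⟩, h3⟩ := h0
  have := un_div ((un_div (key h1 ha) (key h2 hb)).mul h) ((sm_un hg).2 h)
  have h4 : g • a ≠ 0 := by rwa [Ne, smul_eq_zero_iff_eq]
  have h5 : g • b ≠ 0 := by rwa [Ne, smul_eq_zero_iff_eq]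
  have h6 : g • u ≠ 0 := by rwa [Ne, smul_eq_zero_iff_eq]
  rw [smul_div₀', smul_div₀'] at this
  convert this using 1
  field_simp

variable (G) in
/-- The stabiliser acts trivially on the line spanned by `u` modulo the maximal ideal. -/
def Triv (hl : Lcl O) (u : L) : Prop := ∀ g : G, g • O = O → g • u / u - 1 ∈ mx hl

lemma Triv.one (hl : Lcl O) : Triv G hl 1 := fun g _ => by simp

lemma Triv.mul {hl : Lcl O} (hu : Triv G hl u) (hv : Triv G hl v) : Triv G hl (u * v) :=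
  fun g hg => by
    have := add_mem (mul_mem_mx hl (hu g hg) (add_mem (hv g hg).1 (one_mem O))) (hv g hg)
    rw [smul_mul', mul_div_mul_comm]
    convert this using 1
    ring

lemma Triv.inv {hl : Lcl O} (hu : Triv G hl u) : Triv G hl u⁻¹ := fun g hg => by
  have h1 := un_of_sub hl (Un.one O) (hu g hg)
  have := neg_mem (mul_mem_mx hl (hu g hg) h1.2.2)
  rw [sub_mul, mul_inv_cancel₀ h1.2.1, one_mul, neg_sub, inv_div] at this
  rwa [smul_inv'', inv_div_inv]

lemma Triv.of_un (hr : Rt O) (hl : Lcl O) (hu : Un O u) : Triv G hl u := fun g hg => by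
  have := mul_mem_mx hl (sm_sub hr hl hg hu.1) hu.2.2
  rwa [sub_mul, mul_inv_cancel₀ hu.2.1, ← div_eq_mul_inv] at this

lemma Triv.of_fixed (hl : Lcl O) (hu : u ≠ 0) (H : ∀ g : G, g • u = u) : Triv G hl u :=
  fun g _ => by rw [H, div_self hu, sub_self]; exact zero_mem _

lemma Triv.pow (hr : Rt O) (hl : Lcl O) {m : ℕ} (hm : ∀ g : G, g • O = O → g ^ m = 1) (h0 : u ≠ 0)
    (hu : ∀ g : G, g • O = O → g • u / u ∈ O) : Triv G hl (u ^ m) := fun g hg => by
  have h1 : g • u ≠ 0 := by rwa [Ne, smul_eq_zero_iff_eq]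
  have h2 : ∀ j : ℕ, (g • u / u) ^ j - g ^ j • u / u ∈ mx hl := fun j => by
    induction j with
    | zero => simp [h0]
    | succ j ih =>
      have h3 : g ^ j • u / u ∈ O := by
        simpa using sub_mem (pow_mem (hu g hg) j) ih.1
      have := mul_mem_mx hl (sub_mem ih (sm_sub hr hl hg h3)) (hu g hg)
      rw [smul_div₀', ← mul_smul, ← pow_succ'] at this
      convert this using 1
      rw [pow_succ (g • u / u)]
      generalize (g • u / u) ^ j = P
      field_simp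
      ring
  have := h2 m
  rwa [hm g hg, one_smul, div_self h0, div_pow, ← smul_pow'] at this

end Stab

section Tr

variable [Finite G]

lemma Qt.card (h : Qt G D O) : (Nat.card (MulAction.stabilizer G O) : k) ≠ 0 := by
  obtain ⟨m, hm, H⟩ := h.pow
  intro h0
  have h1 : ringChar k ∣ _ := (ringChar.spec k _).1 h0
  rcases CharP.char_is_prime_or_zero k (ringChar k) with hp | hp
  · have := Fact.mk hp
    obtain ⟨g, hg⟩ := exists_prime_orderOf_dvd_card' _ h1
    refine hm ((ringChar.spec k _).2 (hg ▸ orderOf_dvd_of_pow_eq_one (Subtype.ext ?_)))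
    exact H g g.2
  · rw [hp, zero_dvd_iff] at h1
    exact Nat.card_pos.ne' h1

omit [Finite G] in
/-- A sum over the group in which only the stabiliser matters. -/
lemma sum_sub_mem [Fintype G] (N : Submodule k L) {F : G → L} {a : L}
    (h1 : ∀ g, g • O = O → F g - a ∈ N) (h2 : ∀ g, g • O ≠ O → F g ∈ N) :
    ∑ g, F g - (Nat.card (MulAction.stabilizer G O) : k) • a ∈ N := by
  classical
  have e : (Nat.card (MulAction.stabilizer G O) : k) • a = ∑ g : G, if g • O = O then a else 0 := by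
    rw [← Finset.sum_filter, Finset.sum_const, Nat.cast_smul_eq_nsmul, Nat.card_eq_fintype_card,
      Fintype.card_subtype]
    rfl
  rw [e, ← Finset.sum_sub_distrib]
  refine sum_mem fun g _ => ?_
  split_ifs with hg
  exacts [h1 g hg, by simpa using h2 g hg]

lemma Qt.un_sum [Fintype G] (h : Qt G D O) {F : G → L} {a : L} (ha : Un O a)
    (h1 : ∀ g, g • O = O → F g - a ∈ mx h.pt.lcl) (h2 : ∀ g, g • O ≠ O → F g ∈ mx h.pt.lcl) :
    Un O (∑ g, F g) :=
  un_of_sub h.pt.lcl (by rw [Algebra.smul_def]; exact (un_alg O h.card).mul ha)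
    (sum_sub_mem _ h1 h2)

/-- A unit that vanishes at the other points of the orbit. -/
lemma Qt.exists_sep (h : Qt G D O) :
    ∃ θ ∈ D, Un O θ ∧ ∀ g : G, g • O ≠ O → g • θ ∈ mx h.pt.lcl := by
  classical
  have := Fintype.ofFinite G
  have H : ∀ g : G, ∃ θ ∈ D, Un O θ ∧ (g • O ≠ O → ¬ Un O (g • θ)) := fun g => by
    by_contra H
    push Not at H
    have h1 := IsPoint.smul_of_stable h.st h.pt g⁻¹
    have h2 : ∀ x ∈ D, Un O x → Un (g⁻¹ • O) x := fun x hx hu => by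
      rw [un_smul, inv_inv]; exact (H x hx hu).2
    have h3 := (h.rt.smul g⁻¹).dom h.pt.lcl (IsPoint.of_un h.pt h1 h2).le
    have h4 := IsPoint.ext h.pt h1 fun x hx => ⟨h2 x hx, h3.2 x (h.pt.le hx)⟩
    exact (H 1 (one_mem _) (Un.one _)).1 (by rw [← inv_smul_eq_iff.1 h4.symm])
  choose θ h1 h2 h3 using H
  refine ⟨∏ g, θ g, prod_mem fun g _ => h1 g, un_prod _ _ fun g _ => h2 g, fun g hg => ?_⟩
  rw [← Finset.mul_prod_erase _ _ (Finset.mem_univ g), smul_mul']
  exact mul_mem_mx _ ⟨h.pt.le (h.st _ _ (h1 g)), h3 g hg⟩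
    (h.pt.le (h.st _ _ (prod_mem fun g _ => h1 g)))

omit [SMulCommClass G k L] [Finite G] in
lemma smul_trace [Fintype G] (g : G) (y : L) : g • ∑ g' : G, g' • y = ∑ g' : G, g' • y := by
  rw [Finset.smul_sum]
  simp only [← mul_smul]
  exact Equiv.sum_comp (Equiv.mulLeft g) fun g' => g' • y

/-- The twisted trace. -/
lemma Qt.exists_tr (h : Qt G D O) : ∃ T : L →+ L, (∀ y ∈ D, T y ∈ fix G D) ∧
    (∀ y ∈ D, Un O y → Un O (T y)) ∧ ∀ x y, (∀ g : G, g • x = x) → T (y * x) = T y * x := by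
  have := Fintype.ofFinite G
  obtain ⟨θ, h1, h2, h3⟩ := h.exists_sep
  refine ⟨⟨⟨fun y => ∑ g : G, g • (θ * y), by simp⟩, fun x y => ?_⟩, fun y hy => ⟨?_, fun g => ?_⟩,
    fun y hy hu => ?_, fun x y hx => ?_⟩
  · simp only [mul_add, smul_add, Finset.sum_add_distrib]
  · exact sum_mem fun g _ => h.st _ _ (mul_mem h1 hy)
  · exact smul_trace g _
  · refine h.un_sum (h2.mul hu) (fun g hg => sm_sub h.rt _ hg (h2.mul hu).1) fun g hg => ?_
    rw [smul_mul']
    exact mul_mem_mx _ (h3 g hg) (h.pt.le (h.st _ _ hy))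
  · change ∑ g : G, g • (θ * (y * x)) = (∑ g : G, g • (θ * y)) * x
    simp only [← mul_assoc, Finset.sum_mul, smul_mul' _ _ x, hx]

omit [Finite G] in
lemma Qt.le (h : Qt G D O) : loc (fix G D) O ≤ O := loc_le ((fix_le D).trans h.pt.le)

omit [Finite G] in
theorem Qt.isPoint (h : Qt G D O) : IsPoint (fix G D) (loc (fix G D) O) :=
  isPoint_loc ((fix_le D).trans h.pt.le) h.pt.lcl

omit [Finite G] in
theorem Qt.rt_fix (h : Qt G D O) : Rt (loc (fix G D) O) := h.rt.of_le h.le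

omit [Finite G] in
theorem Qt.dom (h : Qt G D O) : Dom (loc (fix G D) O) O := h.rt.dom h.isPoint.lcl h.le

/-- purity of the invariants -/
theorem Qt.mem_span (h : Qt G D O) {S : Set L} (hS : ∀ s ∈ S, ∀ g : G, g • s = s) {x : L}
    (hx : x ∈ Submodule.span O S) (hx' : ∀ g : G, g • x = x) :
    x ∈ Submodule.span (loc (fix G D) O) S := by
  obtain ⟨T, h1, h2, h3⟩ := h.exists_tr
  obtain ⟨s, hs, hu, hx⟩ := (IsPoint.mem_span_iff h.pt).1 hx
  have key : ∀ y ∈ Submodule.span D S, ∀ d ∈ D,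
      T (d * y) ∈ Submodule.span (loc (fix G D) O) S := fun y hy => by
    induction hy using Submodule.span_induction with
    | mem y hy =>
      intro d hd
      rw [h3 _ _ (hS y hy)]
      exact mul_mem_sub _ (le_loc _ _ (h1 d hd)) (Submodule.subset_span hy)
    | zero => simp
    | add a b _ _ ha hb =>
      intro d hd
      rw [mul_add, map_add]; exact add_mem (ha d hd) (hb d hd)
    | smul c a _ ha =>
      intro d hd
      rw [show c • a = (c : L) * a from rfl, ← mul_assoc]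
      exact ha _ (mul_mem hd c.2)
  have h4 := un_loc (h1 s hs) (h2 s hs hu)
  have := mul_mem_sub _ h4.2.2 (key _ hx 1 (one_mem _))
  rwa [one_mul, h3 _ _ hx', inv_mul_cancel_left₀ h4.2.1] at this

theorem Qt.mem_iff (h : Qt G D O) {x : L} :
    x ∈ loc (fix G D) O ↔ x ∈ O ∧ ∀ g : G, g • x = x := by
  refine ⟨fun hx => ⟨h.le hx, fun g => ?_⟩, fun ⟨h1, h2⟩ => ?_⟩
  · obtain ⟨a, ha, b, hb, -, rfl⟩ := hx
    rw [smul_div₀', ha.2 g, hb.2 g]
  · have := h.mem_span (S := {1}) (by simp) (x := x)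
      (Submodule.mem_span_singleton.2 ⟨⟨x, h1⟩, mul_one x⟩) h2
    obtain ⟨c, hc⟩ := Submodule.mem_span_singleton.1 this
    rw [← hc, show c • (1 : L) = (c : L) * 1 from rfl, mul_one]
    exact c.2

theorem Qt.un_iff (h : Qt G D O) (hx : ∀ g : G, g • x = x) : Un (loc (fix G D) O) x ↔ Un O x :=
  ⟨fun hu => hu.mono h.le, fun hu => h.dom.2 x (h.mem_iff.2 ⟨hu.1, hx⟩) hu⟩

lemma Qt.exists_fixed_aux (h : Qt G D O) (hu : ∀ g : G, g • u / u ∈ O)
    (H : Triv G h.pt.lcl u) : ∃ f, Un O (f / u) ∧ ∀ g : G, g • f = f := by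
  have := Fintype.ofFinite G
  obtain ⟨θ, h1, h2, h3⟩ := h.exists_sep
  refine ⟨∑ g : G, g • (θ * u), ?_, fun g => smul_trace g _⟩
  rw [Finset.sum_div]
  refine h.un_sum h2 (fun g hg => ?_) fun g hg => ?_
  · have := add_mem (mul_mem_mx _ (sm_sub h.rt h.pt.lcl hg h2.1) (hu g)) (mx_mul _ h2.1 (H g hg))
    rw [smul_mul', mul_div_assoc]
    convert this using 1
    ring
  · rw [smul_mul', mul_div_assoc]
    exact mul_mem_mx _ (h3 g hg) (hu g)

lemma Qt.exists_fixed' (h : Qt G D O) (hu : Str G O u) (H : Triv G h.pt.lcl u) :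
    ∃ f, Un O (f / u) ∧ ∀ g : G, g • f = f := by
  obtain ⟨m, hm, hp⟩ := h.pow
  obtain ⟨m, rfl⟩ := Nat.exists_eq_succ_of_ne_zero (n := m) fun e => hm (by simp [e])
  obtain ⟨a, b, h1, ha, hb⟩ := hu
  have h0 := h1.2.1
  simp only [ne_eq, div_eq_zero_iff, not_or] at h0
  obtain ⟨⟨h2, h3⟩, h4⟩ := h0
  have h5 := Triv.pow h.rt h.pt.lcl hp h3 fun g _ => hb g
  obtain ⟨f, hf, hf'⟩ := h.exists_fixed_aux (fun g => st_pow (hb g) _) h5
  obtain ⟨e, he, he'⟩ := h.exists_fixed_aux (u := a * b ^ m)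
    (fun g => st_mul (ha g) (st_pow (hb g) _)) (by
      have := ((Triv.of_un h.rt h.pt.lcl h1).mul H).mul h5
      rwa [div_mul_cancel₀ _ h4, pow_succ', ← mul_assoc, div_mul_cancel₀ _ h3] at this)
  refine ⟨e / f, ?_, fun g => by rw [smul_div₀', he', hf']⟩
  have h6 : f ≠ 0 := fun e => hf.2.1 (by rw [e, zero_div])
  convert (un_div he hf).mul h1 using 1
  rw [pow_succ]
  field_simp

/-- an invariant generator -/
theorem Qt.exists_fixed (h : Qt G D O) (hu : Str G O u)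
    (H : ∀ g : G, g • O = O → ¬ Un O (g • u / u - 1)) :
    ∃ f, Un O (f / u) ∧ ∀ g : G, g • f = f :=
  h.exists_fixed' hu fun g hg => ⟨sub_mem (hu.un hg).1 (one_mem _), H g hg⟩

end Tr

section Main

variable {n r s : ℕ} {ι : Type} {τ : Typ ι r} {z : Fin r → L} {t t' : Fin s → L}

/-- The further parameters may be changed modulo the square of the maximal ideal. -/
lemma B.TP.of_param (hT : TP n O τ z t) (hl : Lcl O)
    (H : ∀ j, ∃ c : k, c ≠ 0 ∧ t' j - c • t j ∈ mx hl * mx hl) : TP n O τ z t' := by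
  have := hl.isLocalRing
  have h1 : mx hl * mx hl ≤ mx hl := Submodule.mul_le.2 fun a ha b hb => mul_mem_mx hl ha hb.1
  have h2 : Submodule.span O (Set.range t) ≤
      Submodule.span O (mn z '' (τ.Reg 0 \ {0}) ∪ Set.range t') := by
    refine Submodule.le_of_le_smul_of_le_jacobson_bot (I := IsLocalRing.maximalIdeal O)
      (Submodule.fg_span (Set.finite_range t)) (IsLocalRing.maximalIdeal_le_jacobson _)
      (Submodule.span_le.2 ?_)
    rintro _ ⟨j, rfl⟩
    obtain ⟨c, hc, h⟩ := H j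
    have h3 : t' j - c • t j ∈ Submodule.span O (mn z '' (τ.Reg 0 \ {0}) ∪ Set.range t') ⊔
        IsLocalRing.maximalIdeal O • Submodule.span O (Set.range t) := by
      refine Submodule.mul_induction_on h (fun a ha b hb => ?_) fun a b => add_mem
      have h4 := hT.gen b hb.1 hb.2
      rw [Submodule.span_union] at h4
      obtain ⟨b1, hb1, b2, hb2, rfl⟩ := Submodule.mem_sup.1 h4
      rw [mul_add]
      refine Submodule.add_mem_sup
        (mul_mem_sub _ ha.1 (Submodule.span_mono Set.subset_union_left hb1))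
        (Submodule.smul_mem_smul (r := (⟨a, ha.1⟩ : O)) ?_ hb2)
      rw [IsLocalRing.mem_maximalIdeal, mem_nonunits_iff, isUnit_iff_un]
      exact ha.2
    have h4 : t' j ∈ Submodule.span O (mn z '' (τ.Reg 0 \ {0}) ∪ Set.range t') :=
      Submodule.subset_span (Or.inr ⟨j, rfl⟩)
    have h5 := Submodule.smul_of_tower_mem _ c⁻¹ (sub_mem (Submodule.mem_sup_left h4) h3)
    rwa [sub_sub_cancel, inv_smul_smul₀ hc] at h5
  refine ⟨hT.card, hT.ptd, hT.str, hT.fac, hT.ne, hT.mem, hT.nu, fun j => ?_, fun x hx hu => ?_⟩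
  · obtain ⟨c, -, h⟩ := H j
    have := add_mem (h1 h) ((mx hl).smul_mem c (hT.tm j))
    rwa [sub_add_cancel] at this
  · have := hT.gen x hx hu
    rw [Submodule.span_union] at this
    exact sup_le (Submodule.span_mono Set.subset_union_left) h2 this

variable [Finite G]

/-- Invariant parameters. -/
lemma Qt.param (h : Qt G D O) (hT : TP n O τ z t) (ht : ∀ g : G, g • O = O → ∀ j, g • t j = t j) :
    ∃ t' : Fin s → L, TP n O τ z t' ∧ ∀ (g : G) j, g • t' j = t' j := by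
  have := Fintype.ofFinite G
  obtain ⟨θ, h1, h2, h3⟩ := h.exists_sep
  have H : ∀ j, ∃ y, (∃ c : k, c ≠ 0 ∧ y - c • t j ∈ mx h.pt.lcl * mx h.pt.lcl) ∧
      ∀ g : G, g • y = y := fun j => by
    obtain ⟨a, ha, b, hb, hu, e⟩ := h.pt.le_loc (hT.tm j).1
    have h4 := (hu.mul h2).mul h2
    obtain ⟨c, hc⟩ := h.rt.mx h.pt.lcl h4.1
    have hc0 : c ≠ 0 := fun e => hc.2 (by simpa [e] using h4)
    refine ⟨∑ g : G, g • (a * θ * θ), ⟨_, mul_ne_zero h.card hc0, ?_⟩, fun g => smul_trace g _⟩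
    rw [mul_smul]
    refine sum_sub_mem _ (fun g hg => ?_) fun g hg => ?_
    · have := Submodule.mul_mem_mul (show t j ∈ mx h.pt.lcl from hT.tm j) (sm_mx _ hg hc)
      rw [smul_sub, smul_algebraMap, mul_sub, mul_comm _ (algebraMap k L c), ← Algebra.smul_def] at this
      convert this using 2
      rw [← ht g hg j, ← smul_mul', e]
      congr 1
      have := hu.2.1
      field_simp
    · rw [smul_mul', smul_mul']
      exact Submodule.mul_mem_mul (mx_mul _ (h.pt.le (h.st _ _ ha)) (h3 g hg)) (h3 g hg)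
  choose t' h4 h5 using H
  exact ⟨t', hT.of_param _ h4, fun g j => h5 j g⟩

/-- Invariant elements of the maximal ideal are generated by invariant monomials. -/
lemma Qt.fixed_mem (h : Qt G D O) (hT : TP n O τ z t) (hz : ∀ c, Str G O (mn z c))
    (ht : ∀ (g : G) j, g • t j = t j) (Λ : Submodule ℤ (Fin r → ℤ)) {m : ℕ} (hm : m ≠ 0)
    (hΛ : ∀ c, m • c ∈ Λ) (hΛ' : ∀ c, Triv G h.pt.lcl (mn z c) → c ∈ Λ) (hx : x ∈ O)
    (hu : ¬ Un O x) (hx' : ∀ g : G, g • x = x) :
    x ∈ Submodule.span O (mn z '' {c | c ∈ τ.Reg 0 \ {0} ∧ c ∈ Λ} ∪ Set.range t) := by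
  obtain ⟨μ, Q, hQ, hμ⟩ := exists_len hT.ptd Λ hm hΛ
  have := Fintype.ofFinite (MulAction.stabilizer G O)
  let J : ℕ → Submodule O L := fun N =>
    Submodule.span O (mn z '' {c | c ∈ τ.Reg 0 \ {0} ∧ (N ≤ μ c ∨ c ∈ Λ)} ∪ Set.range t)
  let A : L → L := fun y => ∑ g : MulAction.stabilizer G O, (g : G) • y
  have hA : ∀ N, ∀ y ∈ J N, A y ∈ J N := fun N y hy => sum_mem fun g _ =>
    sm_span g.2 (by
      rintro _ (⟨c, hc, rfl⟩ | ⟨j, rfl⟩)
      · rw [← div_mul_cancel₀ ((g : G) • mn z c) (mn_ne_zero hT.ne c)]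
        exact mul_mem_sub _ ((hz c).un g.2).1 (Submodule.subset_span (Or.inl ⟨c, hc, rfl⟩))
      · rw [ht]; exact Submodule.subset_span (Or.inr ⟨j, rfl⟩)) hy
  have hA1 : ∀ a b, A (a + b) = A a + A b := fun a b => by
    simp only [A, smul_add, Finset.sum_add_distrib]
  have hA2 : ∀ g : G, g • O = O → ∀ (c : k) y, A (c • (g • y - y)) = 0 := fun g hg c y => by
    simp only [A, smul_comm _ c, smul_sub, Finset.sum_sub_distrib, ← mul_smul]
    exact sub_eq_zero.2 (Equiv.sum_comp (Equiv.mulRight (⟨g, hg⟩ : MulAction.stabilizer G O))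
      fun g' => c • (g' : G) • y)
  have hmul : ∀ N, ∀ c ∈ τ.Reg 0, N ≤ μ c → ∀ y ∈ mx h.pt.lcl, y * mn z c ∈ J (N + 1) :=
    fun N c hc hN y hy => by
      have h1 := hT.gen y hy.1 hy.2
      clear hy
      induction h1 using Submodule.span_induction with
      | mem y hy =>
        obtain ⟨d, hd, rfl⟩ | ⟨j, rfl⟩ := hy
        · rw [mul_comm, ← mn_add hT.ne]
          obtain h2 | ⟨e, he, he0, he1, he2⟩ := hμ c hc d hd.1 hd.2
          · exact Submodule.subset_span (Or.inl ⟨c + d, ⟨⟨Typ.add_mem_reg0 hc hd.1,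
              add_ne_zero_reg hT.ptd hc hd.1 hd.2⟩, Or.inl (by omega)⟩, rfl⟩)
          · rw [← sub_add_cancel (c + d) e, mn_add hT.ne]
            exact mul_mem_sub _ (hT.mem _ he2)
              (Submodule.subset_span (Or.inl ⟨e, ⟨⟨he, he0⟩, Or.inr he1⟩, rfl⟩))
        · rw [mul_comm]
          exact mul_mem_sub _ (hT.mem c hc) (Submodule.subset_span (Or.inr ⟨j, rfl⟩))
      | zero => simp
      | add a b _ _ ha hb => rw [add_mul]; exact add_mem ha hb
      | smul a b _ hb => rw [smul_mul_assoc]; exact Submodule.smul_mem _ _ hb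
  have step : ∀ N, ∀ y ∈ J N, ∀ a ∈ O, A (a * y) ∈ J (N + 1) := fun N y hy => by
    induction hy using Submodule.span_induction with
    | mem y hy =>
      intro a ha
      obtain ⟨c, hc, rfl⟩ | ⟨j, rfl⟩ := hy
      · by_cases h1 : c ∈ Λ
        · exact hA _ _ (mul_mem_sub _ ha
            (Submodule.subset_span (Or.inl ⟨c, ⟨hc.1, Or.inr h1⟩, rfl⟩)))
        obtain ⟨g, hg⟩ := not_forall.1 fun H => h1 (hΛ' c H)
        obtain ⟨hg, h2⟩ := Classical.not_imp.1 hg
        have h3 : Un O (g • mn z c / mn z c - 1) :=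
          by_contra fun H => h2 ⟨sub_mem ((hz c).un hg).1 (one_mem _), H⟩
        obtain ⟨γ, h4⟩ := h.rt.mx h.pt.lcl (mul_mem ha h3.2.2)
        have h5 := hA _ _ (hmul N c hc.1.1 (hc.2.resolve_right h1) _ (mul_mem_mx _ h4 h3.1))
        rw [← zero_add (A _), ← hA2 g hg γ (mn z c), ← hA1] at h5
        convert h5 using 2
        rw [sub_mul, inv_mul_cancel_right₀ h3.2.1, Algebra.smul_def]
        have := mn_ne_zero hT.ne c
        field_simp
        ring
      · exact hA _ _ (mul_mem_sub _ ha (Submodule.subset_span (Or.inr ⟨j, rfl⟩)))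
    | zero => intro a _; simp [A]
    | add a b _ _ ha hb => intro d hd; rw [mul_add, hA1]; exact add_mem (ha d hd) (hb d hd)
    | smul c a _ ha =>
      intro d hd
      rw [show c • a = (c : L) * a from rfl, ← mul_assoc]
      exact ha _ (mul_mem hd c.2)
  have all : ∀ N, x ∈ J N := fun N => by
    induction N with
    | zero =>
      refine Submodule.span_mono (Set.union_subset_union_left _
        (Set.image_mono fun c hc => ?_)) (hT.gen x hx hu)
      exact ⟨hc, Or.inl (Nat.zero_le _)⟩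
    | succ N ih =>
      have h1 := Submodule.smul_of_tower_mem _ (Nat.card (MulAction.stabilizer G O) : k)⁻¹
        (step N x ih 1 (one_mem _))
      simp only [A, one_mul, hx', Finset.sum_const, Finset.card_univ] at h1
      rwa [← Nat.card_eq_fintype_card, ← Nat.cast_smul_eq_nsmul k, inv_smul_smul₀ h.card] at h1
  refine Submodule.span_mono (Set.union_subset_union_left _ (Set.image_mono fun c hc => ?_)) (all Q)
  exact ⟨hc.1, hc.2.resolve_left (hQ c).not_ge⟩

/-- TAME QUOTIENT of a toroidal point. -/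
theorem Qt.tp (h : Qt G D O) {n r s : ℕ} {ι : Type} {τ : Typ ι r} {z : Fin r → L} {t : Fin s → L}
    (hT : TP n O τ z t) (hz : ∀ i, Str G O (z i)) (ht : ∀ g : G, g • O = O → ∀ j, g • t j = t j) :
    ∃ (b : Matrix (Fin r) (Fin r) ℤ) (w : Fin r → L) (t' : Fin s → L),
      TP n (loc (fix G D) O) (τ.sub b) w t' ∧ (∀ (g : G) i, g • w i = w i) ∧
      (∀ (g : G) j, g • t' j = t' j) ∧ (∀ e, Un O (mn w e / mn z (Matrix.vecMul e b))) ∧
      ∀ f c, (∀ g : G, g • f = f) → Un O (f / mn z c) →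
        ∃ e, Matrix.vecMul e b = c ∧ Un (loc (fix G D) O) (f / mn w e) := by
  obtain ⟨t', hT, ht⟩ := h.param hT ht
  obtain ⟨m, hm, hp⟩ := h.pow
  have hm0 : m ≠ 0 := fun e => hm (by simp [e])
  let Λ : Submodule ℤ (Fin r → ℤ) := AddSubgroup.toIntSubmodule
    { carrier := {c | Triv G h.pt.lcl (mn z c)}
      add_mem' := fun {c d} hc hd => by
        change Triv G _ _; rw [mn_add hT.ne]; exact Triv.mul hc hd
      zero_mem' := by change Triv G _ _; rw [mn_zero]; exact Triv.one _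
      neg_mem' := fun {c} hc => by change Triv G _ _; rw [mn_neg]; exact Triv.inv hc }
  have hΛ : ∀ c, m • c ∈ Λ := fun c => by
    change Triv G _ _
    rw [← natCast_zsmul, mn_smul, zpow_natCast]
    exact Triv.pow h.rt _ hp (mn_ne_zero hT.ne c) fun g hg => ((Str.mn hz c).un hg).1
  obtain ⟨b, hb, hb'⟩ := exists_bas Λ hm0 hΛ
  have H : ∀ i, ∃ f, Un O (f / mn z (b i)) ∧ ∀ g : G, g • f = f := fun i =>
    h.exists_fixed' (Str.mn hz _) ((hb' _).2 ⟨Pi.single i 1, Matrix.single_one_vecMul i b⟩)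
  choose w hw hw' using H
  have h1 : ∀ e, Un O (mn w e / mn z (Matrix.vecMul e b)) := fun e => by
    rw [mn_vecMul hT.ne]; exact un_mn_of_un hw e
  have h2 : ∀ e (g : G), g • mn w e = mn w e := fun e g => by simp only [smul_mn, hw']
  have h3 : ∀ e, mn w e = mn w e / mn z (Matrix.vecMul e b) * mn z (Matrix.vecMul e b) :=
    fun e => (div_mul_cancel₀ _ (mn_ne_zero hT.ne _)).symm
  have h4 : ∀ c, ∃ e, ∀ ρ, (τ.sub b).ev e ρ = m * τ.ev c ρ := fun c =>
    let ⟨e, he⟩ := (hb' _).1 (hΛ c); ⟨e, fun ρ => by rw [ev_lat, he, Typ.ev_nsmul]⟩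
  have h5 : (0 : ℤ) < m := by omega
  have h6 : ∀ i, w i ≠ 0 := fun i e => (hw i).2.1 (by rw [e, zero_div])
  refine ⟨b, w, t', ⟨hT.card, fun e he => hb e (hT.ptd _ fun ρ hρ => ev_lat τ b e ρ ▸ he ρ hρ),
    ?_, fun ρ hρ => ?_, h6, fun e he => h.mem_iff.2 ⟨?_, h2 e⟩, fun e he he0 hu => ?_,
    fun j => ⟨h.mem_iff.2 ⟨(hT.tm j).1, fun g => ht g j⟩, fun hu => (hT.tm j).2 (hu.mono h.le)⟩,
    fun x hx hu => ?_⟩, fun g i => hw' i g, ht, h1, fun f c hf hu => ?_⟩
  · obtain ⟨c, hc⟩ := hT.str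
    obtain ⟨e, he⟩ := h4 c
    exact ⟨e, fun ρ hρ => he ρ ▸ mul_pos h5 (hc ρ hρ)⟩
  · obtain ⟨c, hc, hc'⟩ := hT.fac ρ hρ
    obtain ⟨e, he⟩ := h4 c
    exact ⟨e, by rw [he, hc, mul_zero], fun σ hσ hne => he σ ▸ mul_pos h5 (hc' σ hσ hne)⟩
  · rw [h3]; exact mul_mem (h1 e).1 (hT.mem _ (mem_reg_lat.1 he))
  · refine hT.nu _ (mem_reg_lat.1 he) (fun e0 => he0 (hb e e0)) ?_
    have := un_div (hu.mono h.le) (h1 e)
    rwa [div_div_cancel₀ hu.2.1] at this
  · obtain ⟨hx, hx'⟩ := h.mem_iff.1 hx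
    refine h.mem_span ?_ (Submodule.span_le.2 ?_ (h.fixed_mem hT (Str.mn hz) ht Λ hm0 hΛ
      (fun c hc => hc) hx (fun H => hu ((h.un_iff hx').2 H)) hx')) hx'
    · rintro _ (⟨e, -, rfl⟩ | ⟨j, rfl⟩) g
      exacts [h2 e g, ht g j]
    · rintro _ (⟨c, ⟨hc, hc'⟩, rfl⟩ | ⟨j, rfl⟩)
      · obtain ⟨e, rfl⟩ := (hb' c).1 hc'
        have := mul_mem_sub (Submodule.span O (mn w '' ((τ.sub b).Reg 0 \ {0}) ∪ Set.range t'))
          (h1 e).2.2 (Submodule.subset_span (Or.inl ⟨e, ⟨mem_reg_lat.2 hc.1,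
            fun e0 => hc.2 (by rw [show e = 0 from e0, Matrix.zero_vecMul]; rfl)⟩, rfl⟩))
        rwa [inv_div, div_mul_cancel₀ _ (mn_ne_zero h6 e)] at this
      · exact Submodule.subset_span (Or.inr ⟨j, rfl⟩)
  · have h0 : f ≠ 0 := fun e => hu.2.1 (by rw [e, zero_div])
    obtain ⟨e, rfl⟩ := (hb' c).1 (by
      have := (Triv.of_un (G := G) h.rt h.pt.lcl hu.inv).mul (Triv.of_fixed _ h0 hf)
      rwa [inv_div, div_mul_cancel₀ _ h0] at this)
    refine ⟨e, rfl, (h.un_iff fun g => by rw [smul_div₀', hf, h2]).2 ?_⟩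
    have := un_div hu (h1 e)
    rwa [div_div_div_cancel_right₀ (mn_ne_zero hT.ne _)] at this

/-- The form used by `TorForm`. -/
theorem Qt.tp_sees (h : Qt G D O) {n r s : ℕ} {ι : Type} {τ : Typ ι r} {z : Fin r → L}
    {t : Fin s → L} (hT : TP n O τ z t) (hz : ∀ i, Str G O (z i))
    (ht : ∀ g : G, g • O = O → ∀ j, g • t j = t j) {S : Finset L}
    (hS : ∀ f ∈ S, ∀ g : G, g • f = f) (hs : Sees S O τ z) :
    ∃ (τ' : Typ ι r) (w : Fin r → L) (t' : Fin s → L), TP n (loc (fix G D) O) τ' w t' ∧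
      Sees S (loc (fix G D) O) τ' w := by
  obtain ⟨b, w, t', h1, -, -, -, h2⟩ := h.tp hT hz ht
  refine ⟨_, w, t', h1, fun f hf => ?_, fun ρ hρ => ?_⟩
  · obtain ⟨c, hc⟩ := hs.1 f hf
    obtain ⟨e, -, he⟩ := h2 f c (hS f hf) hc
    exact ⟨e, he⟩
  · obtain ⟨f, hf, c, hc, h0⟩ := hs.2 ρ hρ
    obtain ⟨e, rfl, he⟩ := h2 f c (hS f hf) hc
    exact ⟨f, hf, e, he, by rwa [ev_lat]⟩

end Main

end Pool.Agent.MP_19ffc6_ag.Res
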