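import Pool.Agent.MP_19ffc6_ag.Res.Tpk

-- ======== part 0: formerly Pool.Agent.MP_19ffc6_ag.Res.TSpec
section MrgPart0

/-! PROJECT RES, part B, module TREE: definitions and statements of the pieces. -/

namespace Pool.Agent.MP_19ffc6_ag.Res.B

open Pool.Agent.MP_19ffc6_ag.Wild Pool.Agent.MP_19ffc6_ag.Lci Pool.Agent.MP_19ffc6_ag.Res.Tor
open Polynomial

variable {k L : Type} [Field k] [Field L] [Algebra k L]

/-- The polynomial whose roots are all `(Y - u) / v` (the value `v = 0` gives the root `0`). -/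
noncomputable def Pol (U : Finset L) (Y : L) : L[X] := ∏ u ∈ U, ∏ v ∈ U, (X - C ((Y - u) / v))

variable (k) in
/-- The span of the coefficients of `Pol U Y`. -/
noncomputable def Cf (U : Finset L) (Y : L) : Submodule k L :=
  Submodule.span k (Set.range (Pol U Y).coeff)

variable (k) in
/-- The centre of the blow-up of the product of the base and the point. -/
noncomputable def Jm (U : Finset L) (Y : L) : Submodule k L :=
  Submodule.span k {1, Y} * Cf k U Y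

/-- `O` is toroidal and the boundary is the support of the divisors of `S`. -/
def Tro (n : ℕ) (S : Finset L) (O : Subalgebra k L) : Prop :=
  ∃ (ι : Type) (_ : Fintype ι) (r s : ℕ) (τ : Typ ι r) (z : Fin r → L) (t : Fin s → L),
    TP n O τ z t ∧ Sees S O τ z

/-- `O` is a rational point of the normalized tree of discs above the point `R` of `D`. -/
structure Over (F : IntermediateField k L) (Y : L) (U S S' : Finset L)
    (D R O : Subalgebra k L) : Prop where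
  iff : ∀ f, f ∈ S' ↔ f ∈ S ∨ f = Y ∨ f = ∏ u ∈ U, (Y - u)
  cmp : ∃ b, Gen R (Cf k U 0) b
  pt : ∃ g ∈ Jm k U Y, g ≠ 0 ∧
    IsPoint (icl (F ⊔ IntermediateField.adjoin k {Y}) (chart D (Jm k U Y) g)) O
  dom : Dom R O
  rt : Rt O

/-- The ambient field is `K(Y)`, where `K / F` is Galois with group `G` and contains the sections
and the roots `ξ` of the boundary parameters `x` of `R`. -/
structure TUp (G : Type) [Group G] [MulSemiringAction G L] (n m : ℕ) (F K : IntermediateField k L)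
    (Y : L) (U S : Finset L) (D R : Subalgebra k L) {r s : ℕ} (x ξ : Fin r → L)
    (t : Fin s → L) : Prop where
  m0 : m ≠ 0
  aff : Aff n F D R
  par : Par n S R x t
  sF : ∀ f ∈ S, f ∈ F
  fg : K.FG
  le : F ≤ K
  alg : ∀ z ∈ K, IsAlgebraic F z
  st : ∀ g : G, ∀ z ∈ K, g • z ∈ K
  tr : Transcendental F Y
  top : K ⊔ IntermediateField.adjoin k {Y} = ⊤
  fix : ∀ z, z ∈ F ⊔ IntermediateField.adjoin k {Y} ↔ ∀ g : G, g • z = z
  root : ∀ i, ξ i ∈ K ∧ ξ i ^ m = x i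
  chi : ∀ (g : G) i, ∃ c : k, g • ξ i = c • ξ i
  uK : ∀ u ∈ U, u ∈ K
  one : 1 ∈ U
  sub : ∀ u ∈ U, ∀ v ∈ U, u - v ∈ U
  gal : ∀ g : G, ∀ u ∈ U, g • u ∈ U
  off : ∀ V : Subalgebra k L, Val V → (∀ f ∈ S, Un V f) → ∀ u ∈ U, u ≠ 0 → Un V u
  aj : ∀ R₁, IsPoint (icl K R) R₁ → Dom R R₁ → Res.Par R₁ (Set.range ξ ∪ Set.range t) ∧
    ∀ H : Subgroup G, (∀ g ∈ H, ∀ z ∈ R₁, g • z ∈ R₁) → (Nat.card H : k) ≠ 0

variable (k L)

/-- The local statement in the given ambient field. GLUE: `tree_of : BezStmt → LocStmt →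
TreeStmt`. -/
def LocStmt : Prop :=
  ∀ (n m : ℕ) (F : IntermediateField k L) (Y : L) (N : IntermediateField F L)
    (U S S' T : Finset L) (D R O : Subalgebra k L) (r s : ℕ) (x : Fin r → L) (t : Fin s → L),
    (m : k) ≠ 0 → F.FG → Transcendental F Y → Tame m F N → Span N U → Off F N S T →
    (∀ u ∈ U, u ≠ 0 → u ∈ T) → (∀ f ∈ S, f ∈ F) → Aff n F D R → Par n S R x t →
    Over F Y U S S' D R O → Tro (n + 1) S' O

/-- The local statement in the Galois closure. TRANS: `loc_of : (∀ W, AbsStmt k W) → LocStmt`. -/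
def AbsStmt : Prop :=
  ∀ (G : Type) [Group G] [Finite G] [MulSemiringAction G L] [SMulCommClass G k L] (n m : ℕ)
    (F K : IntermediateField k L) (Y : L) (U S S' : Finset L) (D R O : Subalgebra k L) (r s : ℕ)
    (x ξ : Fin r → L) (t : Fin s → L), TUp G n m F K Y U S D R x ξ t → Over F Y U S S' D R O →
    Tro (n + 1) S' O

/-- MON: the base upstairs is regular, the sections are comparable monomials. -/
def MonStmt : Prop :=
  ∀ (G : Type) [Group G] [MulSemiringAction G L] (n m : ℕ) (F K : IntermediateField k L) (Y : L)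
    (U S : Finset L) (D R R₁ : Subalgebra k L) (r s : ℕ) (x ξ : Fin r → L) (t : Fin s → L),
    TUp G n m F K Y U S D R x ξ t → (∃ b, Gen R (Cf k U 0) b) → IsPoint (icl K R) R₁ → Dom R R₁ →
    Aff n K (icl K D) R₁ ∧ Par n S R₁ ξ t ∧ (∀ u ∈ U, u ≠ 0 → LMon R₁ ξ u) ∧
      (∀ u ∈ U, ∀ v ∈ U, u ≠ 0 → v ≠ 0 → u / v ∈ R₁ ∨ v / u ∈ R₁) ∧ ∀ c, mn ξ c ∈ R₁ → 0 ≤ c

end Pool.Agent.MP_19ffc6_ag.Res.B

end MrgPart0

-- ======== part 1: formerly Pool.Agent.MP_19ffc6_ag.Res.TreeM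
section MrgPart1

/-! PROJECT RES, module TREE, part GLUE: the projective model of the tree of discs. -/

set_option autoImplicit false

namespace Pool.Agent.MP_19ffc6_ag.Res.B

open Pool.Agent.MP_19ffc6_ag.Wild Pool.Agent.MP_19ffc6_ag.Lci Polynomial

variable {k L : Type} [Field k] [Field L] [Algebra k L]

section Prm

variable {O O' A : Subalgebra k L} {P Q : L[X]} {M M' : Submodule k L} {a b g v : L}

/-- A primitive polynomial. -/
def Prv (O : Subalgebra k L) (P : L[X]) : Prop := (∀ i, P.coeff i ∈ O) ∧ ∃ i, Un O (P.coeff i)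

lemma Prv.mono (h : Prv O P) (hO : O ≤ O') : Prv O' P :=
  ⟨fun i => hO (h.1 i), h.2.imp fun _ hi => hi.mono hO⟩

lemma Prv.one (O : Subalgebra k L) : Prv O 1 :=
  ⟨fun i => coeff_C_mem (one_mem O) i, 0, by simpa using Un.one O⟩

/-- The lemma of Gauss. -/
lemma Prv.mul (hl : Lcl O) (hP : Prv O P) (hQ : Prv O Q) : Prv O (P * Q) := by
  refine ⟨coeff_mul_mem hP.1 hQ.1, ?_⟩
  have := hl.isLocalRing
  have lift : ∀ R : L[X], (∀ i, R.coeff i ∈ O) → ∃ R' : O[X], R'.map O.val.toRingHom = R :=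
    fun R h => (mem_lifts _).1 ((lifts_iff_coeff_lifts _).2 fun i => ⟨⟨_, h i⟩, rfl⟩)
  have key : ∀ R : O[X], R.map (IsLocalRing.residue O) ≠ 0 ↔
      ∃ i, Un O ((R.map O.val.toRingHom).coeff i) := fun R => by
    simp only [Ne, Polynomial.ext_iff, not_forall, coeff_map, coeff_zero,
      IsLocalRing.residue_eq_zero_iff, IsLocalRing.notMem_maximalIdeal, isUnit_iff_un]
    rfl
  obtain ⟨P', rfl⟩ := lift P hP.1
  obtain ⟨Q', rfl⟩ := lift Q hQ.1
  rw [← Polynomial.map_mul, ← key, Polynomial.map_mul]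
  exact mul_ne_zero ((key _).2 hP.2) ((key _).2 hQ.2)

lemma exists_prv_lin (h : v ∈ O ∨ v⁻¹ ∈ O) : ∃ a, a ≠ 0 ∧ Prv O (C a⁻¹ * (X - C v)) := by
  by_cases hv : v ∈ O
  · refine ⟨1, one_ne_zero, fun i => ?_, 1, by simpa using Un.one O⟩
    rw [inv_one, C_1, one_mul, coeff_sub]
    exact sub_mem (coeff_X_mem O i) (coeff_C_mem hv i)
  · have h0 : v ≠ 0 := fun e => hv (e ▸ zero_mem O)
    refine ⟨v, h0, fun i => ?_, 0, ?_⟩
    · rw [mul_sub, ← C_mul, inv_mul_cancel₀ h0, coeff_sub]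
      exact sub_mem (coeff_mul_mem (coeff_C_mem (h.resolve_left hv)) (coeff_X_mem O) i)
        (coeff_C_mem (one_mem O) i)
    · simpa [inv_mul_cancel₀ h0] using un_neg (Un.one O)

lemma exists_prv_prod (hl : Lcl O) {ι : Type} (s : Finset ι) (v : ι → L)
    (h : ∀ i ∈ s, v i ∈ O ∨ (v i)⁻¹ ∈ O) :
    ∃ a, a ≠ 0 ∧ Prv O (C a⁻¹ * ∏ i ∈ s, (X - C (v i))) := by
  classical
  induction s using Finset.induction_on with
  | empty => exact ⟨1, one_ne_zero, by simpa using Prv.one O⟩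
  | insert i s hi ih =>
    obtain ⟨a, ha, h1⟩ := exists_prv_lin (h i (Finset.mem_insert_self _ _))
    obtain ⟨b, hb, h2⟩ := ih fun j hj => h j (Finset.mem_insert_of_mem hj)
    refine ⟨a * b, mul_ne_zero ha hb, ?_⟩
    have := h1.mul hl h2
    rwa [mul_mul_mul_comm, ← C_mul, ← mul_inv, ← Finset.prod_insert hi (f := fun i => X - C (v i))]
      at this

variable (k) in
/-- The span of the coefficients. -/
noncomputable def cs (P : L[X]) : Submodule k L := Submodule.span k (Set.range P.coeff)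

lemma cs_fg (P : L[X]) : (cs k P).FG := by
  refine Submodule.fg_span ((P.coeffs.finite_toSet.insert 0).subset ?_)
  rintro _ ⟨i, rfl⟩
  by_cases h : P.coeff i = 0
  exacts [Or.inl h, Or.inr (coeff_mem_coeffs h)]

lemma coeff_mem_cs (P : L[X]) (i : ℕ) : P.coeff i ∈ cs k P := Submodule.subset_span ⟨i, rfl⟩

lemma cs_le (h : ∀ i, P.coeff i ∈ M) : cs k P ≤ M :=
  Submodule.span_le.2 (by rintro _ ⟨i, rfl⟩; exact h i)

lemma gen_cs_iff (hl : Lcl O) : Gen O (cs k P) a ↔ a ≠ 0 ∧ Prv O (C a⁻¹ * P) := by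
  have e : ∀ i, (C a⁻¹ * P).coeff i = P.coeff i / a := fun i => by
    rw [coeff_C_mul, div_eq_inv_mul]
  simp only [Prv, e]
  refine and_congr_right fun h0 => ⟨fun ⟨h1, x, hx, hu⟩ => ⟨fun i => h1 _ (coeff_mem_cs P i), ?_⟩,
    fun ⟨h1, i, hi⟩ => ⟨fun x hx => div_mem_of_span (by rintro _ ⟨i, rfl⟩; exact h1 i) hx, _,
      coeff_mem_cs P i, hi⟩⟩
  have hx0 : x ≠ 0 := fun e => hu.2.1 (by simp [e])
  obtain ⟨_, ⟨i, rfl⟩, hyu⟩ := exists_un_of_span hl (S := Set.range P.coeff) hx0 (fun y hy => by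
    rw [show y / x = y / a * (x / a)⁻¹ by field_simp]
    exact mul_mem (h1 y (Submodule.subset_span hy)) hu.2.2)
    (by rw [← one_mul x]; exact Submodule.mul_mem_mul (one_mem O) hx)
  exact ⟨i, by simpa only [div_mul_div_cancel₀ hx0] using hyu.mul hu⟩

lemma Gen.un_div (h : Gen O M a) (h' : Gen O M b) : Un O (a / b) := by
  obtain ⟨x, hx, hu⟩ := h.2.2
  obtain ⟨y, hy, hv⟩ := h'.2.2
  have hx0 : x ≠ 0 := fun e => hu.2.1 (by simp [e])
  have hy0 : y ≠ 0 := fun e => hv.2.1 (by simp [e])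
  have ha := h.1
  have hb := h'.1
  refine ⟨?_, div_ne_zero ha hb, ?_⟩
  · rw [show a / b = x / b * (x / a)⁻¹ by field_simp]
    exact mul_mem (h'.2.1 x hx) hu.2.2
  · rw [show (a / b)⁻¹ = y / a * (y / b)⁻¹ by field_simp]
    exact mul_mem (h.2.1 y hy) hv.2.2

lemma gen_of_chart (h : chart A M g ≤ O) (hg : g ∈ M) (h0 : g ≠ 0) : Gen O M g :=
  ⟨h0, fun _ hx => h (div_mem_chart _ _ hx), g, hg, by rw [div_self h0]; exact Un.one O⟩

lemma Gen.of_mul (hl : Lcl O) (h : Gen O (M * M') g) : (∃ a, Gen O M a) ∧ ∃ b, Gen O M' b := by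
  obtain ⟨x, hx, hu⟩ := h.2.2
  have hx0 : x ≠ 0 := fun e => hu.2.1 (by simp [e])
  have hg := h.1
  have hmem : ∀ y ∈ M * M', y / x ∈ O := fun y hy => by
    rw [show y / x = y / g * (x / g)⁻¹ by field_simp]
    exact mul_mem (h.2.1 y hy) hu.2.2
  obtain ⟨_, ⟨m, hm, n, hn, rfl⟩, hv⟩ := exists_un_of_span hl
    (S := {x | ∃ m ∈ M, ∃ n ∈ M', x = m * n}) hx0
    (by rintro _ ⟨m, hm, n, hn, rfl⟩; exact hmem _ (Submodule.mul_mem_mul hm hn)) (by
      rw [← one_mul x]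
      refine Submodule.mul_mem_mul (one_mem O) ?_
      refine Submodule.mul_induction_on hx (fun m hm n hn => ?_) (fun a b ha hb => add_mem ha hb)
      exact Submodule.subset_span ⟨m, hm, n, hn, rfl⟩)
  have hmn : m * n ≠ 0 := fun e => hv.2.1 (by simp [e])
  have hm0 : m ≠ 0 := left_ne_zero_of_mul hmn
  have hn0 : n ≠ 0 := right_ne_zero_of_mul hmn
  refine ⟨⟨m, hm0, fun y hy => ?_, m, hm, by rw [div_self hm0]; exact Un.one O⟩,
    n, hn0, fun y hy => ?_, n, hn, by rw [div_self hn0]; exact Un.one O⟩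
  · rw [show y / m = y * n / x * (m * n / x)⁻¹ by field_simp]
    exact mul_mem (hmem _ (Submodule.mul_mem_mul hy hn)) hv.2.2
  · rw [show y / n = m * y / x * (m * n / x)⁻¹ by field_simp]
    exact mul_mem (hmem _ (Submodule.mul_mem_mul hm hy)) hv.2.2

/-- Pairwise comparable coefficients make a polynomial primitive after scaling. -/
lemma exists_prv_of_cmp (h0 : P ≠ 0)
    (h : ∀ a ∈ P.coeffs, ∀ b ∈ P.coeffs, a / b ∈ O ∨ (a / b)⁻¹ ∈ O) :
    ∃ a, a ≠ 0 ∧ Prv O (C a⁻¹ * P) := by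
  classical
  have hne : ∀ a ∈ P.coeffs, a ≠ 0 := fun a ha => by
    obtain ⟨i, hi, rfl⟩ := mem_coeffs_iff.1 ha
    exact mem_support_iff.1 hi
  have key : ∀ T : Finset L, T.Nonempty → T ⊆ P.coeffs → ∃ g ∈ T, ∀ t ∈ T, t / g ∈ O := by
    intro T hT
    induction hT using Finset.Nonempty.cons_induction with
    | singleton a => exact fun hs => ⟨a, by simp, by simp [div_self (hne a (hs (by simp)))]⟩
    | cons a s ha hs ih =>
      intro hsub
      obtain ⟨g, hg, H⟩ := ih fun t ht => hsub (by simp [ht])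
      have ha' := hsub (Finset.mem_cons_self a s)
      have hg' := hsub (Finset.mem_cons_of_mem hg)
      have ha0 := hne a ha'
      have hg0 := hne g hg'
      rcases h a ha' g hg' with h1 | h1
      · refine ⟨g, by simp [hg], fun t ht => ?_⟩
        rcases Finset.mem_cons.1 ht with rfl | ht
        exacts [h1, H t ht]
      · refine ⟨a, by simp, fun t ht => ?_⟩
        rcases Finset.mem_cons.1 ht with rfl | ht
        · rw [div_self ha0]; exact one_mem _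
        · rw [show t / a = t / g * (a / g)⁻¹ by field_simp]; exact mul_mem (H t ht) h1
  obtain ⟨g, hg, H⟩ := key _ ⟨_, coeff_mem_coeffs (leadingCoeff_ne_zero.2 h0)⟩ le_rfl
  have hg0 := hne g hg
  obtain ⟨i, -, rfl⟩ := mem_coeffs_iff.1 hg
  refine ⟨_, hg0, fun j => ?_, i, ?_⟩
  · rw [coeff_C_mul, ← div_eq_inv_mul]
    by_cases hj : P.coeff j = 0
    · rw [hj, zero_div]; exact zero_mem _
    · exact H _ (coeff_mem_coeffs hj)
  · rw [coeff_C_mul, inv_mul_cancel₀ hg0]; exact Un.one O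

end Prm

section Cp

variable {F E : IntermediateField k L} {N : IntermediateField F L} {U : Finset L} {Y g : L}
  {D O O₁ O₂ : Subalgebra k L}

lemma pol_monic (U : Finset L) (Y : L) : (Pol U Y).Monic :=
  monic_prod_of_monic _ _ fun _ _ => monic_prod_of_monic _ _ fun _ _ => monic_X_sub_C _

lemma eval_pol {u v : L} (hu : u ∈ U) (hv : v ∈ U) : (Pol U Y).eval ((Y - u) / v) = 0 := by
  rw [Pol, eval_prod]
  refine Finset.prod_eq_zero hu ?_
  rw [eval_prod]
  exact Finset.prod_eq_zero hv (by simp)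

lemma coeff_pol_mem [FiniteDimensional F N] [IsGalois F N] (hU : Span N U) (hFE : F ≤ E)
    (hY : Y ∈ E) (i : ℕ) : (Pol U Y).coeff i ∈ E := by
  classical
  let U' : Finset N := U.subtype (· ∈ N)
  let P : N[X][X] := ∏ u ∈ U', ∏ v ∈ U', (X - C ((X - C u) * C v⁻¹))
  have hp : ∀ f : L → L[X], ∏ u ∈ U', f u = ∏ u ∈ U, f u := fun f =>
    Finset.prod_subtype_of_mem f hU.le
  have h1 : Pol U Y = P.map (eval₂RingHom (algebraMap N L) Y) := by
    rw [Pol, ← hp, Polynomial.map_prod]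
    refine Finset.prod_congr rfl fun u _ => ?_
    rw [← hp, Polynomial.map_prod]
    refine Finset.prod_congr rfl fun v _ => ?_
    simp [div_eq_mul_inv]
  have hq : ∀ (σ : N ≃ₐ[F] N) (f : N → N[X][X]), ∏ u ∈ U', f (σ u) = ∏ u ∈ U', f u := fun σ f =>
    Finset.prod_equiv σ.toEquiv (fun u => by
      simp only [U', Finset.mem_subtype]
      exact ⟨hU.gal σ u, fun h => by simpa using hU.gal σ⁻¹ (σ u) h⟩) fun _ _ => rfl
  have h2 : ∀ σ : N ≃ₐ[F] N, σ • P = P := fun σ => by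
    simp only [P, Finset.smul_prod', smul_sub, smul_X, smul_C, smul_mul', AlgEquiv.smul_def,
      map_inv₀]
    rw [hq σ fun u => ∏ v ∈ U', (X - C ((X - C u) * C (σ v)⁻¹))]
    exact Finset.prod_congr rfl fun u _ => hq σ fun v => X - C ((X - C u) * C v⁻¹)
  rw [h1, coeff_map, coe_eval₂RingHom, eval₂_eq_sum_range]
  refine sum_mem fun j _ => mul_mem (hFE ?_) (pow_mem hY j)
  obtain ⟨c, hc⟩ := (IsGalois.mem_bot_iff_fixed ((P.coeff i).coeff j)).2 fun σ => by
    conv_rhs => rw [← h2 σ]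
    rfl
  rw [← hc]
  exact c.2

lemma gen_Cf_iff (hl : Lcl O) : Gen O (Cf k U Y) g ↔ g ≠ 0 ∧ Prv O (C g⁻¹ * Pol U Y) :=
  gen_cs_iff hl

/-- If all roots are comparable, then the coefficients generate a principal ideal. -/
lemma gen_Cf (hl : Lcl O) (h : ∀ u ∈ U, ∀ v ∈ U, (Y - u) / v ∈ O ∨ ((Y - u) / v)⁻¹ ∈ O) :
    ∃ b, Gen O (Cf k U Y) b := by
  obtain ⟨b, hb⟩ := exists_prv_prod hl (U ×ˢ U) (fun p => (Y - p.1) / p.2) fun p hp =>
    h _ (Finset.mem_product.1 hp).1 _ (Finset.mem_product.1 hp).2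
  rw [Finset.prod_product] at hb
  exact ⟨b, (gen_Cf_iff hl).2 hb⟩

lemma gen_line (h : Y ∈ O ∨ Y⁻¹ ∈ O) : ∃ b, Gen O (Submodule.span k {1, Y}) b := by
  by_cases hY : Y ∈ O
  · refine ⟨1, one_ne_zero, fun x hx => div_mem_of_span ?_ hx, 1, Submodule.subset_span (by simp),
      by simpa using Un.one O⟩
    rintro _ (rfl | rfl)
    exacts [by simp, by simpa using hY]
  · have h0 : Y ≠ 0 := fun e => hY (e ▸ zero_mem O)
    refine ⟨Y, h0, fun x hx => div_mem_of_span ?_ hx, Y, Submodule.subset_span (by simp),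
      by simpa [h0] using Un.one O⟩
    rintro _ (rfl | rfl)
    exacts [by simpa using h.resolve_left hY, by simp [h0]]

/-- At a point of the blow-up all `(Y - u) / v` are roots of a primitive polynomial. -/
lemma exists_prv_of_chart (hl : Lcl O) (hg : g ∈ Jm k U Y) (hg0 : g ≠ 0)
    (h : chart D (Jm k U Y) g ≤ O) :
    ∃ P, Prv O P ∧ ∀ u ∈ U, ∀ v ∈ U, P.eval ((Y - u) / v) = 0 := by
  obtain ⟨-, b, hb⟩ := Gen.of_mul hl (gen_of_chart h hg hg0)
  exact ⟨_, ((gen_Cf_iff hl).1 hb).2, fun u hu v hv => by rw [eval_mul, eval_pol hu hv, mul_zero]⟩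

/-- A local ring below `O₁` in which all ratios are comparable contains the chart. -/
lemma chart_le_of_cmp (h0 : 0 ∈ U) (h1 : 1 ∈ U) (hg : g ∈ Jm k U Y) (hg0 : g ≠ 0)
    (h : chart D (Jm k U Y) g ≤ O₁) (hl : Lcl O₂) (hd : Dom O₂ O₁) (hD : D ≤ O₂)
    (hc : ∀ u ∈ U, ∀ v ∈ U, (Y - u) / v ∈ O₂ ∨ ((Y - u) / v)⁻¹ ∈ O₂) :
    chart D (Jm k U Y) g ≤ O₂ := by
  obtain ⟨b, hb⟩ := gen_line (k := k) (O := O₂) (Y := Y) (by simpa using hc 0 h0 1 h1)
  obtain ⟨c, hc⟩ := gen_Cf (k := k) hl hc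
  have h2 := hb.mul hc
  have h3 := hd.2 _ (h2.2.1 g hg) (Gen.un_div (gen_of_chart h hg hg0) (h2.mono hd.1))
  refine chart_le hD fun y hy => ?_
  rw [show y / g = y / (b * c) * (g / (b * c))⁻¹ by field_simp [hb.1, hc.1]]
  exact mul_mem (h2.2.1 y hy) h3.2.2

end Cp

section Mdl

variable {K : IntermediateField k L} {M J : Submodule k L} {g : L}

/-- The field of fractions of a subalgebra. -/
def frc (D : Subalgebra k L) : IntermediateField k L :=
  (loc D ⊤).toIntermediateField fun x hx => by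
    obtain ⟨a, ha, b, hb, hu, rfl⟩ := hx
    by_cases h0 : a = 0
    · rw [h0, zero_div, inv_zero]; exact zero_mem _
    · exact ⟨b, hb, a, ha, ⟨trivial, h0, trivial⟩, inv_div _ _⟩

lemma le_frc {D : Subalgebra k L} {x : L} (hx : x ∈ D) : x ∈ frc D := le_loc D ⊤ hx

lemma frac_of_mem {D : Subalgebra k L} {x : L} (hx : x ∈ frc D) : ∃ b ∈ D, b ≠ 0 ∧ b * x ∈ D := by
  obtain ⟨a, ha, b, hb, hu, rfl⟩ := hx
  exact ⟨b, hb, hu.2.1, by rwa [mul_div_cancel₀ _ hu.2.1]⟩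

lemma mem_frc_of {D : Subalgebra k L} {x : L} (h : ∃ b ∈ D, b ≠ 0 ∧ b * x ∈ D) : x ∈ frc D :=
  let ⟨b, hb, h0, hx⟩ := h
  ⟨_, hx, b, hb, ⟨trivial, h0, trivial⟩, (mul_div_cancel_left₀ x h0).symm⟩

lemma div_mem_frc (hg : g ≠ 0) {a b : L} (ha : a ∈ M) (hb : b ∈ M) :
    a / b ∈ frc (chart ⊥ M g) := by
  rw [← div_div_div_cancel_right₀ hg]
  exact div_mem (le_frc (div_mem_chart _ _ ha)) (le_frc (div_mem_chart _ _ hb))

/-- The function field of a product of linear systems contains that of each factor. -/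
lemma Mdl.le_frc (h : Mdl K M) (hJ : J ≠ ⊥) (hg : g ≠ 0) : K ≤ frc (chart ⊥ (M * J) g) := by
  obtain ⟨m, hm, hm0⟩ := Submodule.exists_mem_ne_zero_of_ne_bot h.ne
  obtain ⟨j, hj, hj0⟩ := Submodule.exists_mem_ne_zero_of_ne_bot hJ
  have h1 : chart ⊥ M m ≤ (frc (chart ⊥ (M * J) g)).toSubalgebra := chart_le bot_le fun a ha => by
    rw [← mul_div_mul_right a m hj0]
    exact div_mem_frc hg (Submodule.mul_mem_mul ha hj) (Submodule.mul_mem_mul hm hj)
  intro x hx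
  obtain ⟨b, hb, h0, hbx⟩ := h.frac m hm hm0 x hx
  rw [← mul_div_cancel_left₀ x h0]
  exact div_mem (h1 hbx) (h1 hb)

lemma mul_le_field (h : ∀ m ∈ M, m ∈ K) (h' : ∀ m ∈ J, m ∈ K) : ∀ m ∈ M * J, m ∈ K :=
  fun _ hm => Submodule.mul_induction_on hm (fun a ha b hb => mul_mem (h a ha) (h' b hb))
    fun _ _ => add_mem

lemma Mdl.mul (h : Mdl K M) (hJ : J.FG) (h0 : J ≠ ⊥) (hK : ∀ m ∈ J, m ∈ K) : Mdl K (M * J) :=
  ⟨h.fg.mul hJ, fun e => (Submodule.mul_eq_bot.1 e).elim h.ne h0, mul_le_field h.le hK,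
    fun _ _ hg _ hx => frac_of_mem (h.le_frc h0 hg hx)⟩

lemma Mdl.line (h : Mdl K M) (Y : L) :
    Mdl (K ⊔ IntermediateField.adjoin k {Y}) (M * Submodule.span k {1, Y}) := by
  have h1 : (1 : L) ∈ Submodule.span k {1, Y} := Submodule.subset_span (by simp)
  have h2 : Y ∈ Submodule.span k {1, Y} := Submodule.subset_span (by simp)
  have h0 : Submodule.span k {1, Y} ≠ ⊥ := fun e => one_ne_zero ((Submodule.mem_bot k).1 (e ▸ h1))
  have hY : Y ∈ K ⊔ IntermediateField.adjoin k {Y} :=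
    (le_sup_right : _ ≤ K ⊔ _) (IntermediateField.mem_adjoin_simple_self k Y)
  refine ⟨h.fg.mul (Submodule.fg_span (Set.toFinite _)),
    fun e => (Submodule.mul_eq_bot.1 e).elim h.ne h0,
    mul_le_field (fun m hm => (le_sup_left : K ≤ _) (h.le m hm))
      (Submodule.span_le (p := (K ⊔ IntermediateField.adjoin k {Y}).toSubalgebra.toSubmodule).2 ?_),
    fun g _ hg x hx => frac_of_mem ((sup_le (h.le_frc h0 hg) ?_ : _ ≤ frc _) hx)⟩
  · rintro _ (rfl | rfl)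
    exacts [one_mem (K ⊔ IntermediateField.adjoin k {Y}), hY]
  · obtain ⟨m, hm, hm0⟩ := Submodule.exists_mem_ne_zero_of_ne_bot h.ne
    have := div_mem_frc hg (Submodule.mul_mem_mul hm h2) (Submodule.mul_mem_mul hm h1)
    rw [mul_div_mul_left Y 1 hm0, div_one] at this
    exact IntermediateField.adjoin_simple_le_iff.2 this

/-- The normalisation of a model. -/
lemma Mdl.norm [PerfectField k] (h : Mdl K M) (hK : K.FG) : ∃ M', Mdl K M' ∧
    ∀ O', Pt ⊥ M' O' → ∃ O, Pt ⊥ M O ∧ Dom O O' ∧ IsPoint (icl K O) O' := by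
  obtain ⟨m, hm, hm0⟩ := Submodule.exists_mem_ne_zero_of_ne_bot h.ne
  obtain ⟨J, h1, h2, h3, h4, -⟩ := Res.norm Subalgebra.fg_bot h.fg hK bot_le h.le hm hm0
    fun x hx => by
      obtain ⟨b, hb, h0, hbx⟩ := h.frac m hm hm0 x hx
      exact IsAlgebraic.of_smul_isIntegral (y := (⟨b, hb⟩ : chart ⊥ M m))
        (fun e => h0 (congrArg Subtype.val e.eq_zero)) (isIntegral_of_mem hbx)
  exact ⟨_, h.mul h1 h2 h3, h4⟩

end Mdl

/-- Part GLUE of the module TREE. -/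
theorem tree_of [IsAlgClosed k] (bez : BezStmt k L) (h : LocStmt k L) : TreeStmt k L := by
  classical
  intro n m F Y N U S hR hm hF hn hY hT hU hS
  have := hT.fin
  have := hT.gal
  set E := F ⊔ IntermediateField.adjoin k {Y} with hE
  have hYE : Y ∈ E := (le_sup_right : _ ≤ F ⊔ _) (IntermediateField.mem_adjoin_simple_self k Y)
  obtain ⟨S₁, hS₁, hoff⟩ := bez.base F N (U.erase 0) inferInstance fun f hf =>
    ⟨hU.le f (Finset.mem_of_mem_erase hf), Finset.ne_of_mem_erase hf⟩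
  let S₂ : Finset L := ((Pol U 0).coeffs ×ˢ (Pol U 0).coeffs).image fun q => q.1 / q.2
  have hS₂ : ∀ f ∈ S₂, f ∈ F ∧ f ≠ 0 := fun f hf => by
    obtain ⟨q, hq, rfl⟩ := Finset.mem_image.1 hf
    obtain ⟨i, hi, e1⟩ := mem_coeffs_iff.1 (Finset.mem_product.1 hq).1
    obtain ⟨j, hj, e2⟩ := mem_coeffs_iff.1 (Finset.mem_product.1 hq).2
    rw [e1, e2]
    exact ⟨div_mem (coeff_pol_mem hU le_rfl (zero_mem F) i) (coeff_pol_mem hU le_rfl (zero_mem F) j),
      div_ne_zero (mem_support_iff.1 hi) (mem_support_iff.1 hj)⟩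
  obtain ⟨S₀, M₁, hsub, hM₁, hpar⟩ := hR F hF hn (S ∪ S₁ ∪ S₂) fun f hf => by
    rcases Finset.mem_union.1 hf with hf | hf
    · exact (Finset.mem_union.1 hf).elim (hS f) (hS₁ f)
    · exact hS₂ f hf
  have hM₀ : Mdl E (M₁ * Jm k U Y) := by
    rw [Jm, ← mul_assoc]
    refine (hM₁.line Y).mul (cs_fg _) (fun e => ?_)
      (cs_le (M := E.toSubalgebra.toSubmodule) (coeff_pol_mem hU le_sup_left hYE))
    have : (Pol U Y).coeff (Pol U Y).natDegree ∈ Cf k U Y := coeff_mem_cs _ _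
    rw [e, (pol_monic U Y).coeff_natDegree] at this
    exact one_ne_zero ((Submodule.mem_bot k).1 this)
  obtain ⟨M, hM, hpt⟩ := hM₀.norm
    (IntermediateField.fg_sup hF (IntermediateField.fg_adjoin_of_finite (Set.finite_singleton Y)))
  refine ⟨insert Y (insert (∏ u ∈ U, (Y - u)) S₀), M, fun f hf => ?_, by simp, by simp, hM,
    fun O hO hr => ?_⟩
  · exact Finset.mem_insert_of_mem (Finset.mem_insert_of_mem (hsub (by simp [hf])))
  obtain ⟨O₀, hO₀, hd, hP⟩ := hpt O hO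
  obtain ⟨R, g, hg, ⟨g₁, hg₁, hg₁0, hR1⟩, hd₁, hg0, hP₁⟩ := Lci.Pt.of_mul_dom hO₀
  have hRt : Rt R := hr.of_le (hd₁.1.trans hd.1)
  obtain ⟨r, s, x, t, hx⟩ := hpar _ ⟨g₁, hg₁, hg₁0, hR1⟩ hRt
  have hA : Aff n F (chart ⊥ M₁ g₁) R := ⟨hn, chart_fg Subalgebra.fg_bot hM₁.fg g₁,
    chart_le_field hM₁.le hg₁, hM₁.frac g₁ hg₁ hg₁0, hR1, hRt⟩
  have hP₂ : IsPoint (chart (chart ⊥ M₁ g₁) (Jm k U Y) g) O₀ :=
    hP₁.of_le_loc ((chart_le (hR1.le.trans (le_chart _ _ _)) fun y hy =>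
      div_mem_chart _ _ hy).trans hP₁.le) (chart_le (hR1.le_loc.trans
        (loc_mono (le_chart _ _ _) hd₁.1)) fun y hy => le_loc _ _ (div_mem_chart _ _ hy))
  have hJ : ∀ y ∈ Jm k U Y, y / g ∈ E := fun y hy => by
    rw [← mul_div_mul_left y g hg₁0]
    exact div_mem (hM₀.le _ (Submodule.mul_mem_mul hg₁ hy)) (hM₀.le _ (Submodule.mul_mem_mul hg₁ hg))
  refine h n m F Y N U S₀ _ (U.erase 0) _ R O r s x t hm hF hY hT hU
    (fun V hV H => hoff V hV fun f hf => H f (hsub (by simp [hf])))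
    (fun u hu h0 => Finset.mem_erase.2 ⟨h0, hu⟩) (fun f hf => ?_) hA hx
    ⟨fun f => by simp only [Finset.mem_insert]; tauto, ?_, ⟨g, hg, hg0, IsPoint.icl hP₂
      (chart_le (fun y hy => (le_sup_left : F ≤ E) (hA.le y hy)) hJ) hP⟩, Dom.trans hd₁ hd, hr⟩
  · obtain ⟨c, hc⟩ := hx.mon f hf
    rw [← div_mul_cancel₀ f (mn_ne_zero (fun i => (hx.xm i).2.1) c)]
    exact mul_mem (hA.le_field hc.1) (mn_mem_field (fun i => hA.le_field (hx.xm i).1) c)
  · obtain ⟨b, hb⟩ := exists_prv_of_cmp (pol_monic U 0).ne_zero fun a ha b hb =>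
      hx.cmp _ (hsub (Finset.mem_union_right _
        (Finset.mem_image.2 ⟨(a, b), Finset.mem_product.2 ⟨ha, hb⟩, rfl⟩)))
    exact ⟨b, (gen_Cf_iff hR1.lcl).2 hb⟩

end Pool.Agent.MP_19ffc6_ag.Res.B

end MrgPart1

-- marker of a merged file
example : 731051 + 732547 = 731051 + 732547 := rfl
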