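import Pool.Agent.MP_19ffc6_ag.Res.Tpk
import Pool.Agent.MP_19ffc6_ag.Res.TreeM
import Pool.Agent.MP_19ffc6_ag.Lci.Basic
import Pool.Agent.MP_19ffc6_ag.Res.Quot

-- ======== part 0: formerly Pool.Agent.MP_19ffc6_ag.Res.TreeA
section MrgPart0

-- ======== part 0: formerly Pool.Agent.MP_19ffc6_ag.Res.Disc
section MrgPart0

/-! PROJECT RES, part B: the points of the tree of discs over a regular point are toroidal. -/

set_option autoImplicit false

namespace Pool.Agent.MP_19ffc6_ag.Res.B.Disc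

open Pool.Agent.MP_19ffc6_ag.Wild Pool.Agent.MP_19ffc6_ag.Lci Pool.Agent.MP_19ffc6_ag.Res.Tor
open Polynomial

variable {k L : Type} [Field k] [Field L] [Algebra k L]

section Cones

variable {r : ℕ}

lemma orth_ptd : (orth r).Pointed := fun c h => funext fun i => by
  simpa [ev_orth] using h i trivial

lemma orth_str : (orth r).Strict := ⟨1, fun i _ => by simp [ev_orth]⟩

lemma orth_fac : ∀ ρ ∈ (orth r).R, ∃ c, (orth r).ev c ρ = 0 ∧
    ∀ σ ∈ (orth r).R, σ ≠ ρ → 0 < (orth r).ev c σ := fun ρ _ =>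
  ⟨fun i => if i = ρ then 0 else 1, by simp [ev_orth], fun σ _ h => by simp [ev_orth, h]⟩

lemma mem_of_nonneg {X : Type} [AddCommGroup X] (φ : (Fin r → ℤ) →+ X) (A : AddSubmonoid X)
    (h : ∀ i, φ (Pi.single i 1) ∈ A) {a : Fin r → ℤ} (ha : 0 ≤ a) : φ a ∈ A := by
  have e : a = ∑ i, (a i).toNat • (Pi.single i 1 : Fin r → ℤ) := by
    funext j
    simpa [Finset.sum_apply, Pi.single_apply] using ha j
  rw [e, map_sum]
  exact sum_mem fun i _ => by rw [map_nsmul]; exact nsmul_mem (h i) _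

/-- The cone of the node `u v = ξ ^ c`. -/
def node (c : Fin r → ℤ) : Typ (Fin r ⊕ Fin r) (r + 1) :=
  ⟨{ρ | ∀ i, ρ = .inr i → c i ≠ 0}, Sum.elim (fun i => Fin.cons 0 (Pi.single i 1))
    fun i => Fin.cons (c i) (Pi.single i 1)⟩

variable {c : Fin r → ℤ}

lemma ev_inl (e : Fin (r + 1) → ℤ) (i : Fin r) : (node c).ev e (.inl i) = e i.succ := by
  simp [Typ.ev, node, dotProduct, Fin.sum_univ_succ, Pi.single_apply]

lemma ev_inr (e : Fin (r + 1) → ℤ) (i : Fin r) :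
    (node c).ev e (.inr i) = c i * e 0 + e i.succ := by
  simp [Typ.ev, node, dotProduct, Fin.sum_univ_succ, Pi.single_apply]

lemma inl_mem (i : Fin r) : Sum.inl i ∈ (node c).R := fun _ h => nomatch h

lemma inr_mem {i : Fin r} : Sum.inr i ∈ (node c).R ↔ c i ≠ 0 :=
  ⟨fun h => h i rfl, fun h _ e => Sum.inr_injective e ▸ h⟩

lemma reg_node {e : Fin (r + 1) → ℤ} :
    e ∈ (node c).Reg 0 ↔ ∀ i, 0 ≤ e i.succ ∧ 0 ≤ c i * e 0 + e i.succ := by
  refine ⟨fun h i => ?_, fun h ρ _ => ?_⟩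
  · have h1 : 0 ≤ e i.succ := by simpa [ev_inl] using h _ (inl_mem i)
    refine ⟨h1, ?_⟩
    by_cases h2 : c i = 0
    · simpa [h2] using h1
    · simpa [ev_inr] using h _ (inr_mem.2 h2)
  · rcases ρ with i | i
    · simpa [ev_inl] using (h i).1
    · simpa [ev_inr] using (h i).2

lemma node_ptd (hc : c ≠ 0) : (node c).Pointed := fun e h => by
  have h1 : ∀ i : Fin r, e i.succ = 0 := fun i => by simpa [ev_inl] using h _ (inl_mem i)
  obtain ⟨i, hi⟩ := Function.ne_iff.1 hc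
  have h2 := h _ (inr_mem.2 hi)
  rw [ev_inr, h1, add_zero, mul_eq_zero] at h2
  exact funext (Fin.cases (h2.resolve_left hi) h1)

lemma node_str : (node c).Strict := ⟨Fin.cons 0 1, by rintro (i | i) - <;> simp [ev_inl, ev_inr]⟩

lemma node_fac (hc : 0 ≤ c) : ∀ ρ ∈ (node c).R, ∃ e, (node c).ev e ρ = 0 ∧
    ∀ σ ∈ (node c).R, σ ≠ ρ → 0 < (node c).ev e σ := by
  rintro (i | i) hi
  · refine ⟨Fin.cons 1 fun j => if j = i then 0 else 1, by simp [ev_inl], ?_⟩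
    rintro (j | j) hj hne
    · simp [ev_inl, show j ≠ i from fun e => hne (e ▸ rfl)]
    · have h1 : (0 : ℤ) < c j := lt_of_le_of_ne (hc j) (inr_mem.1 hj).symm
      simp only [ev_inr, Fin.cons_zero, Fin.cons_succ]
      split_ifs <;> omega
  · refine ⟨Fin.cons (-1) fun j => if j = i then c j else c j + 1, by simp [ev_inr], ?_⟩
    have h0 : (0 : ℤ) < c i := lt_of_le_of_ne (hc i) (inr_mem.1 hi).symm
    rintro (j | j) hj hne
    · have h1 : (0 : ℤ) ≤ c j := hc j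
      simp only [ev_inl, Fin.cons_succ]
      split_ifs with e
      · rwa [e]
      · omega
    · simp [ev_inr, show j ≠ i from fun e => hne (e ▸ rfl)]

/-- The exponents of the monomials that do not involve the new coordinate. -/
def emb (r : ℕ) : (Fin r → ℤ) →+ (Fin (r + 1) → ℤ) where
  toFun a := Fin.cons 0 a
  map_zero' := funext (Fin.cases rfl fun _ => rfl)
  map_add' _ _ := funext (Fin.cases rfl fun _ => rfl)

lemma node_closure {e : Fin (r + 1) → ℤ} (he : e ∈ (node c).Reg 0) (A : AddSubmonoid _)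
    (h1 : ∀ i, emb r (Pi.single i 1) ∈ A) (h2 : Fin.cons 1 0 ∈ A) (h3 : Fin.cons (-1) c ∈ A) :
    e ∈ A := by
  rw [reg_node] at he
  rcases le_total 0 (e 0) with h | h
  · have : e = (e 0).toNat • Fin.cons 1 0 + emb r fun i => e i.succ :=
      funext (Fin.cases (by simp [emb, max_eq_left h]) fun i => by simp [emb])
    rw [this]
    exact add_mem (nsmul_mem h2 _) (mem_of_nonneg _ _ h1 fun i => (he i).1)
  · have : e = (-e 0).toNat • Fin.cons (-1) c + emb r fun i => c i * e 0 + e i.succ :=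
      funext (Fin.cases (by simp [emb, max_eq_left (neg_nonneg.2 h)]) fun i => by
        simp [emb, max_eq_left (neg_nonneg.2 h)]; ring)
    rw [this]
    exact add_mem (nsmul_mem h3 _) (mem_of_nonneg _ _ h1 fun i => (he i).2)

lemma mn_cons (u : L) (ξ : Fin r → L) (b : ℤ) (a : Fin r → ℤ) :
    mn (Fin.cons u ξ : Fin (r + 1) → L) (Fin.cons b a) = u ^ b * mn ξ a := by
  simp [mn, Fin.prod_univ_succ]

lemma mn_emb (u : L) (ξ : Fin r → L) (a : Fin r → ℤ) :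
    mn (Fin.cons u ξ : Fin (r + 1) → L) (emb r a) = mn ξ a := by
  simpa [emb] using mn_cons u ξ 0 a

end Cones

section Core

variable {n r s : ℕ} {K : IntermediateField k L} {D D₀ D₁ R O O' : Subalgebra k L} {ι : Type}

lemma tp_of_gens {τ : Typ ι r} {z : Fin r → L} {t : Fin s → L} (hc : r + s = n) (hp : τ.Pointed)
    (hs : τ.Strict) (hf : ∀ ρ ∈ τ.R, ∃ c, τ.ev c ρ = 0 ∧ ∀ σ ∈ τ.R, σ ≠ ρ → 0 < τ.ev c σ)
    (hz : ∀ i, z i ≠ 0) {Γ : Set (Fin r → ℤ)}
    (hΓ : ∀ c ∈ Γ, c ∈ τ.Reg 0 ∧ mn z c ∈ O ∧ ¬ Un O (mn z c))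
    (hcl : ∀ c ∈ τ.Reg 0, c ∈ AddSubmonoid.closure Γ) (ht : ∀ j, t j ∈ O ∧ ¬ Un O (t j))
    (hg : ∀ x ∈ O, ¬ Un O x → x ∈ Submodule.span O (mn z '' Γ ∪ Set.range t)) : TP n O τ z t := by
  have H : ∀ c ∈ AddSubmonoid.closure Γ, mn z c ∈ O ∧ (Un O (mn z c) → c = 0) := by
    intro c hc
    induction hc using AddSubmonoid.closure_induction with
    | mem c hc => exact ⟨(hΓ c hc).2.1, fun h => absurd h (hΓ c hc).2.2⟩
    | zero => exact ⟨by rw [mn_zero]; exact one_mem _, fun _ => rfl⟩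
    | add a b _ _ ha hb =>
      rw [mn_add hz]
      refine ⟨mul_mem ha.1 hb.1, fun h => ?_⟩
      rw [ha.2 (.of_mul ha.1 hb.1 h), hb.2 (.of_mul hb.1 ha.1 (by rwa [mul_comm])), add_zero]
  refine ⟨hc, hp, hs, hf, hz, fun c hc => (H c (hcl c hc)).1,
    fun c hc h0 hu => h0 ((H c (hcl c hc)).2 hu), ht, fun x hx hu => ?_⟩
  refine Submodule.span_mono (Set.union_subset_union_left _ (Set.image_mono fun c hc =>
    Set.mem_sdiff_singleton.2 ⟨(hΓ c hc).1, fun e => (hΓ c hc).2.2 ?_⟩)) (hg x hx hu)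
  rw [e, mn_zero]
  exact Un.one _

/-- A normal point that is dominated by a point of a normalisation is equal to it. -/
lemma eq_of_normal [IsIntegrallyClosed O] (ha : Aff n K D O) (hd : Dom O O') (h0 : D₀ ≤ O)
    (hp : IsPoint (icl K D₀) O') : O' = O := by
  have h1 : icl K D₀ ≤ O := fun x hx => by
    obtain ⟨b, hb, hb0, hbx⟩ := ha.frac x hx.1
    exact mem_of_integral (ha.pt.le hb) hb0 (ha.pt.le hbx) (isIntegral_mono h0 hx.2)
  exact hd.eq_of_isPoint (hp.of_le_loc hd.1 (h1.trans (le_loc _ _)))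

/-- A point `O` of a normalisation that lies over a regular point `R` of codimension one less. -/
structure Base (n : ℕ) (K : IntermediateField k L) (D₀ D₁ R O : Subalgebra k L) {r s : ℕ}
    (ξ : Fin r → L) (t : Fin s → L) : Prop where
  deg : Algebra.trdeg k K = (n + 1 : ℕ)
  card : r + s = n
  fg : D₁.FG
  le : D₁ ≤ K.toSubalgebra
  pt : IsPoint D₁ R
  par : Res.Par R (Set.range ξ ∪ Set.range t)
  dom : Dom R O
  xm : ∀ i, ξ i ∈ R ∧ ξ i ≠ 0 ∧ ¬ Un O (ξ i)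
  tm : ∀ j, t j ∈ R ∧ ¬ Un O (t j)
  top : IsPoint (icl K D₀) O
  rt : Rt O

variable {ξ : Fin r → L} {t : Fin s → L}

theorem Base.core (h : Base n K D₀ D₁ R O ξ t) {T : Set L} (hT : T.Finite) (hTO : ∀ x ∈ T, x ∈ O)
    (hfr : K ≤ IntermediateField.adjoin k (R ∪ T)) {r' s' : ℕ} {τ : Typ ι r'} {z : Fin r' → L}
    {t' : Fin s' → L} (hc : r' + s' = n + 1) (hp : τ.Pointed) (hs : τ.Strict)
    (hf : ∀ ρ ∈ τ.R, ∃ c, τ.ev c ρ = 0 ∧ ∀ σ ∈ τ.R, σ ≠ ρ → 0 < τ.ev c σ) (hz : ∀ i, z i ≠ 0)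
    {Γ : Set (Fin r' → ℤ)} (hΓ : ∀ c ∈ Γ, c ∈ τ.Reg 0 ∧ mn z c ∈ (R : Set L) ∪ T ∧ ¬ Un O (mn z c))
    (hcl : ∀ c ∈ τ.Reg 0, c ∈ AddSubmonoid.closure Γ)
    (ht : ∀ j, t' j ∈ (R : Set L) ∪ T ∧ ¬ Un O (t' j))
    (h1 : Set.range ξ ∪ Set.range t ∪ T ⊆ mn z '' Γ ∪ Set.range t')
    (h0 : ∀ O₂, R ≤ O₂ → (∀ x ∈ T, x ∈ O₂) → Lcl O₂ → Dom O₂ O → D₀ ≤ O₂) :
    TP (n + 1) O τ z t' := by
  let D := D₁ ⊔ Algebra.adjoin k T
  have hOK : O ≤ K.toSubalgebra := Res.IsPoint.le_field h.top (icl_le _ _)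
  have hDO : D ≤ O := sup_le (h.pt.le.trans h.dom.1) (Algebra.adjoin_le hTO)
  have hP := isPoint_loc hDO h.top.lcl
  have hd : Dom (loc D O) O := dom_loc hDO
  have hR : R ≤ loc D O := h.pt.le_loc.trans (loc_mono le_sup_left h.dom.1)
  have hT2 : ∀ x ∈ T, x ∈ D := fun x hx =>
    (le_sup_right : Algebra.adjoin k T ≤ D) (Algebra.subset_adjoin hx)
  have hm : ∀ x ∈ (R : Set L) ∪ T, x ∈ loc D O := fun x hx =>
    hx.elim (@hR x) fun hx => hP.le (hT2 x hx)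
  have hS : ∀ x ∈ mn z '' Γ ∪ Set.range t', x ∈ loc D O ∧ ¬ Un (loc D O) x := by
    rintro _ (⟨c, hc, rfl⟩ | ⟨j, rfl⟩)
    · exact ⟨hm _ (hΓ c hc).2.1, fun hu => (hΓ c hc).2.2 (hu.mono hd.1)⟩
    · exact ⟨hm _ (ht j).1, fun hu => (ht j).2 (hu.mono hd.1)⟩
  have hD : D ≤ cst (loc D O) (mn z '' Γ ∪ Set.range t') := by
    refine sup_le (fun x hx => ⟨hR (h.pt.le hx), (h.par x (h.pt.le hx)).imp fun c hc => ?_⟩)
      (Algebra.adjoin_le fun x hx => ⟨hP.le (hT2 x hx), 0, ?_⟩)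
    · exact span_mono' hR (Set.subset_union_left.trans h1) hc
    · rw [map_zero, sub_zero]
      exact Submodule.subset_span (h1 (Or.inr hx))
  have htp : TP (n + 1) (loc D O) τ z t' := by
    refine tp_of_gens hc hp hs hf hz (fun c hc => ⟨(hΓ c hc).1, hS _ (Or.inl ⟨c, hc, rfl⟩)⟩) hcl
      (fun j => hS _ (Or.inr ⟨j, rfl⟩)) ?_
    rintro _ ⟨a, ha, b, hb, hu, rfl⟩ hx
    have hb' := un_loc hb hu
    obtain ⟨c, hc⟩ := (hD ha).2
    rw [div_eq_mul_inv]
    refine mul_mem_span' ?_ hb'.2.2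
    by_cases hc0 : c = 0
    · simpa [hc0] using hc
    · refine absurd (un_div ?_ hb') hx
      have h2 := hP.lcl _ (hP.le ha) _ (neg_mem (sub_mem (hP.le ha) (Subalgebra.algebraMap_mem _ c)))
        (by simpa using un_alg _ hc0)
      exact h2.resolve_right (not_un_of_mem_span hP.lcl hS (neg_mem hc))
  have ha : Aff (n + 1) K D (loc D O) := by
    refine ⟨h.deg, h.fg.sup (Subalgebra.fg_def.2 ⟨T, hT, rfl⟩), fun x hx => hOK (hDO hx),
      fun x hx => ?_, hP, h.rt.of_le hd.1⟩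
    have h2 : IntermediateField.adjoin k (R ∪ T) ≤ IntermediateField.adjoin k (D : Set L) := by
      refine IntermediateField.adjoin_le_iff.2 fun y hy => ?_
      obtain ⟨a, ha, b, hb, -, rfl⟩ := hm y hy
      exact div_mem (IntermediateField.subset_adjoin _ _ ha) (IntermediateField.subset_adjoin _ _ hb)
    obtain ⟨a, ha, b, hb, rfl⟩ := IntermediateField.mem_adjoin_iff_div.1 (h2 (hfr hx))
    rw [Algebra.adjoin_eq] at ha hb
    by_cases hb0 : b = 0
    · exact ⟨1, one_mem _, one_ne_zero, by simp [hb0]⟩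
    · exact ⟨b, hb, hb0, by rwa [mul_div_cancel₀ _ hb0]⟩
  have := (htp.kit ha).2.2.2
  rwa [eq_of_normal ha hd (h0 _ hR (fun x hx => hP.le (hT2 x hx)) hP.lcl hd) h.top]

variable {u : L}

lemma orth_closure {c : Fin r → ℤ} (hc : c ∈ (orth r).Reg 0) :
    c ∈ AddSubmonoid.closure (Set.range fun i : Fin r => (Pi.single i 1 : Fin r → ℤ)) :=
  mem_of_nonneg (AddMonoidHom.id _) _
    (fun i => AddSubmonoid.subset_closure (Set.mem_range_self i)) (mem_reg_orth.1 hc)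

lemma single_mem (i : Fin r) : Pi.single i 1 ∈ (orth r).Reg 0 :=
  mem_reg_orth.2 (Pi.single_nonneg.2 zero_le_one)

/-- The new parameter is not part of the boundary. -/
theorem Base.free (h : Base n K D₀ D₁ R O ξ t) (hu : u ∈ O ∧ ¬ Un O u)
    (hfr : K ≤ IntermediateField.adjoin k (R ∪ {u}))
    (h0 : ∀ O₂, R ≤ O₂ → u ∈ O₂ → Lcl O₂ → Dom O₂ O → D₀ ≤ O₂) :
    TP (n + 1) O (orth r) ξ (Fin.cons u t : Fin (s + 1) → L) := by
  refine h.core (Set.finite_singleton u) (by simpa using hu.1) hfr (by have := h.card; omega)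
    orth_ptd orth_str orth_fac (fun i => (h.xm i).2.1) ?_ (fun c => orth_closure)
    (Fin.cases ⟨Or.inr rfl, hu.2⟩ fun j => ⟨Or.inl (h.tm j).1, (h.tm j).2⟩) ?_
    fun O₂ h1 h2 => h0 O₂ h1 (h2 u rfl)
  · rintro _ ⟨i, rfl⟩
    rw [mn_single, zpow_one]
    exact ⟨single_mem i, Or.inl (h.xm i).1, (h.xm i).2.2⟩
  · rintro _ ((⟨i, rfl⟩ | ⟨j, rfl⟩) | rfl)
    · exact Or.inl ⟨_, ⟨i, rfl⟩, by rw [mn_single, zpow_one]⟩
    · exact Or.inr ⟨j.succ, rfl⟩
    · exact Or.inr ⟨0, rfl⟩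

/-- The new parameter is part of the boundary. -/
theorem Base.sect (h : Base n K D₀ D₁ R O ξ t) (hu : u ∈ O ∧ ¬ Un O u) (hu0 : u ≠ 0)
    (hfr : K ≤ IntermediateField.adjoin k (R ∪ {u}))
    (h0 : ∀ O₂, R ≤ O₂ → u ∈ O₂ → Lcl O₂ → Dom O₂ O → D₀ ≤ O₂) :
    TP (n + 1) O (orth (r + 1)) (Fin.cons u ξ) t := by
  refine h.core (Set.finite_singleton u) (by simpa using hu.1) hfr (by have := h.card; omega)
    orth_ptd orth_str orth_fac (Fin.cases hu0 fun i => (h.xm i).2.1) ?_ (fun c => orth_closure)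
    (fun j => ⟨Or.inl (h.tm j).1, (h.tm j).2⟩) ?_ fun O₂ h1 h2 => h0 O₂ h1 (h2 u rfl)
  · rintro _ ⟨i, rfl⟩
    rw [mn_single, zpow_one]
    exact ⟨single_mem i, i.cases ⟨Or.inr rfl, hu.2⟩ fun i => ⟨Or.inl (h.xm i).1, (h.xm i).2.2⟩⟩
  · rintro _ ((⟨i, rfl⟩ | ⟨j, rfl⟩) | rfl)
    · exact Or.inl ⟨_, ⟨i.succ, rfl⟩, by rw [mn_single, zpow_one]; rfl⟩
    · exact Or.inr ⟨j, rfl⟩
    · exact Or.inl ⟨_, ⟨0, rfl⟩, by rw [mn_single, zpow_one]; rfl⟩

/-- A node. -/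
theorem Base.nod (h : Base n K D₀ D₁ R O ξ t) {c : Fin r → ℤ} (hc : 0 ≤ c) (hc0 : c ≠ 0)
    (hu : u ∈ O ∧ ¬ Un O u) (hu0 : u ≠ 0) (hv : mn ξ c / u ∈ O ∧ ¬ Un O (mn ξ c / u))
    (hfr : K ≤ IntermediateField.adjoin k (R ∪ {u}))
    (h0 : ∀ O₂, R ≤ O₂ → u ∈ O₂ → mn ξ c / u ∈ O₂ → Lcl O₂ → Dom O₂ O → D₀ ≤ O₂) :
    TP (n + 1) O (node c) (Fin.cons u ξ) t := by
  have e1 : ∀ i, mn (Fin.cons u ξ : Fin (r + 1) → L) (emb r (Pi.single i 1)) = ξ i := fun i => by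
    rw [mn_emb, mn_single, zpow_one]
  have e2 : mn (Fin.cons u ξ : Fin (r + 1) → L) (Fin.cons 1 0) = u := by
    rw [mn_cons, mn_zero, zpow_one, mul_one]
  have e3 : mn (Fin.cons u ξ : Fin (r + 1) → L) (Fin.cons (-1) c) = mn ξ c / u := by
    rw [mn_cons, zpow_neg_one, div_eq_inv_mul]
  refine h.core (T := {u, mn ξ c / u}) (Set.toFinite _) (by rintro _ (rfl | rfl); exacts [hu.1, hv.1])
    (hfr.trans (IntermediateField.adjoin.mono _ _ _ (Set.union_subset_union_right _ (by simp))))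
    (by have := h.card; omega) (node_ptd hc0) node_str (node_fac hc)
    (Fin.cases hu0 fun i => (h.xm i).2.1)
    (Γ := Set.range (fun i => emb r (Pi.single i 1)) ∪ {Fin.cons 1 0, Fin.cons (-1) c}) ?_
    (fun e he => node_closure (c := c) he _ (fun i => AddSubmonoid.subset_closure (Or.inl ⟨i, rfl⟩))
      (AddSubmonoid.subset_closure (Or.inr (Or.inl rfl)))
      (AddSubmonoid.subset_closure (Or.inr (Or.inr (Set.mem_singleton _)))))
    (fun j => ⟨Or.inl (h.tm j).1, (h.tm j).2⟩) ?_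
    fun O₂ h1 h2 => h0 O₂ h1 (h2 _ (Or.inl rfl)) (h2 _ (Or.inr rfl))
  · rintro _ (⟨i, rfl⟩ | rfl | rfl)
    · rw [e1]
      exact ⟨reg_node.2 fun j => by simp [emb, Pi.single_apply]; split_ifs <;> simp,
        Or.inl (h.xm i).1, (h.xm i).2.2⟩
    · rw [e2]
      exact ⟨reg_node.2 fun j => by simpa using hc j, Or.inr (Or.inl rfl), hu.2⟩
    · rw [e3]
      exact ⟨reg_node.2 fun j => by simpa using hc j, Or.inr (Or.inr rfl), hv.2⟩
  · rintro _ ((⟨i, rfl⟩ | ⟨j, rfl⟩) | rfl | rfl)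
    · exact Or.inl ⟨_, Or.inl ⟨i, rfl⟩, e1 i⟩
    · exact Or.inr ⟨j, rfl⟩
    · exact Or.inl ⟨_, Or.inr (Or.inl rfl), e2⟩
    · exact Or.inl ⟨_, Or.inr (Or.inr rfl), e3⟩

end Core

section Gen

variable {O O' : Subalgebra k L}

/-- The coefficients of a polynomial whose roots are comparable with `1` generate a principal
module. -/
lemma exists_gen_prod (hO : Lcl O) (s : Multiset L) (hs : ∀ v ∈ s, v ∈ O ∨ v⁻¹ ∈ O) :
    ∃ a, Gen O (Submodule.span k (Set.range (s.map fun v => X - C v).prod.coeff)) a := by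
  have := hO.isLocalRing
  have H : ∃ a : L, a ≠ 0 ∧ ∃ Q : O[X], Q.map (IsLocalRing.residue O) ≠ 0 ∧
      (s.map fun v => X - C v).prod = C a * Q.map (algebraMap O L) := by
    induction s using Multiset.induction_on with
    | empty => exact ⟨1, one_ne_zero, 1, by simp, by simp⟩
    | cons v s ih =>
      obtain ⟨a, ha, Q, hQ, e⟩ := ih fun w hw => hs w (Multiset.mem_cons_of_mem hw)
      rw [Multiset.map_cons, Multiset.prod_cons, e]
      by_cases hv : v ∈ O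
      · refine ⟨a, ha, (X - C ⟨v, hv⟩) * Q, ?_, ?_⟩
        · rw [Polynomial.map_mul]
          exact mul_ne_zero ((monic_X_sub_C _).map _).ne_zero hQ
        · simp only [Polynomial.map_mul, Polynomial.map_sub, map_X, map_C]
          exact mul_left_comm _ _ _
      · have hv0 : v ≠ 0 := by rintro rfl; exact hv (zero_mem _)
        refine ⟨a * v, mul_ne_zero ha hv0,
          (C ⟨v⁻¹, (hs v (Multiset.mem_cons_self _ _)).resolve_left hv⟩ * X - 1) * Q, ?_, ?_⟩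
        · rw [Polynomial.map_mul]
          refine mul_ne_zero (fun e => ?_) hQ
          simpa using congrArg (coeff · 0) e
        · simp only [Polynomial.map_mul, Polynomial.map_sub, map_X, map_C, Polynomial.map_one]
          have e1 : (C v : L[X]) * C v⁻¹ = 1 := by rw [← C_mul, mul_inv_cancel₀ hv0, C_1]
          change _ = C (a * v) * ((C v⁻¹ * X - 1) * _)
          rw [C_mul]
          linear_combination (-C a * X * Q.map (algebraMap O L)) * e1
  obtain ⟨a, ha, Q, hQ, e⟩ := H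
  have h1 : ∀ i, (s.map fun v => X - C v).prod.coeff i / a = Q.coeff i := fun i => by
    rw [e, coeff_C_mul, coeff_map, mul_div_cancel_left₀ _ ha]; rfl
  refine ⟨a, ha, fun x hx => div_mem_of_mem_span ?_ hx, ?_⟩
  · rintro _ ⟨i, rfl⟩
    rw [h1]; exact (Q.coeff i).2
  · obtain ⟨i, hi⟩ : ∃ i, (Q.map (IsLocalRing.residue O)).coeff i ≠ 0 := by
      by_contra hn
      push Not at hn
      exact hQ (Polynomial.ext hn)
    rw [coeff_map, IsLocalRing.residue_ne_zero_iff_isUnit, isUnit_iff_un, ← h1] at hi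
    exact ⟨_, Submodule.subset_span ⟨i, rfl⟩, hi⟩

/-- A dominated ring in which `M` is principal contains the chart. -/
lemma chart_le_of_gen {A : Subalgebra k L} {M : Submodule k L} {a g : L} (hA : A ≤ O)
    (h : Gen O M a) (hd : Dom O O') (hg : g ∈ M) (hg0 : g ≠ 0) (hc : chart A M g ≤ O') :
    chart A M g ≤ O := by
  obtain ⟨ha, h1, x, hx, hu⟩ := h
  have h2 : Un O (g / a) := hd.2 _ (h1 g hg) ⟨hd.1 (h1 g hg), div_ne_zero hg0 ha, by
    rw [show (g / a)⁻¹ = x / g * (x / a)⁻¹ by field_simp [(div_ne_zero_iff.1 hu.2.1).1]]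
    exact mul_mem (hc (div_mem_chart _ _ hx)) (hd.1 hu.2.2)⟩
  refine chart_le hA fun y hy => ?_
  rw [show y / g = y / a * (g / a)⁻¹ by field_simp]
  exact mul_mem (h1 y hy) h2.2.2

variable {U : Finset L} {Y : L}

lemma pol_eq (U : Finset L) (Y : L) : Pol U Y =
    (((U ×ˢ U).val.map fun p => (Y - p.1) / p.2).map fun v => X - C v).prod := by
  rw [Pol, ← Finset.prod_product', Multiset.map_map]; rfl

lemma gen_Cf (hO : Lcl O) (h : ∀ u ∈ U, ∀ v ∈ U, v ≠ 0 → (Y - u) / v ∈ O ∨ v / (Y - u) ∈ O) :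
    ∃ a, Gen O (Cf k U Y) a := by
  rw [Cf, pol_eq]
  refine exists_gen_prod hO _ fun w hw => ?_
  obtain ⟨p, hp, rfl⟩ := Multiset.mem_map.1 hw
  obtain ⟨h1, h2⟩ := Finset.mem_product.1 hp
  by_cases h0 : p.2 = 0
  · rw [h0, div_zero]; exact Or.inl (zero_mem _)
  · rw [inv_div]; exact h _ h1 _ h2 h0

lemma gen_pair (h0 : Y ≠ 0) (h : Y ∈ O ∨ Y⁻¹ ∈ O) : ∃ a, Gen O (Submodule.span k {1, Y}) a := by
  rcases h with h | h
  · refine ⟨1, one_ne_zero, fun x hx => div_mem_of_mem_span ?_ hx, 1,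
      Submodule.subset_span (Or.inl rfl), by simpa using Un.one O⟩
    rintro _ (rfl | rfl)
    exacts [by simp, by simpa using h]
  · refine ⟨Y, h0, fun x hx => div_mem_of_mem_span ?_ hx, Y,
      Submodule.subset_span (Or.inr rfl), by simpa [h0] using Un.one O⟩
    rintro _ (rfl | rfl)
    exacts [by simpa using h, by simp [h0]]

/-- A dominated ring in which all ratios are comparable contains the chart of the tree. -/
theorem chart_Jm_le {A : Subalgebra k L} {g : L} (hO : Lcl O) (hA : A ≤ O) (hd : Dom O O')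
    (h0 : 0 ∈ U) (h1 : 1 ∈ U) (hY : Y ≠ 0)
    (h : ∀ u ∈ U, ∀ v ∈ U, v ≠ 0 → (Y - u) / v ∈ O ∨ v / (Y - u) ∈ O) (hg : g ∈ Jm k U Y)
    (hg0 : g ≠ 0) (hc : chart A (Jm k U Y) g ≤ O') : chart A (Jm k U Y) g ≤ O := by
  obtain ⟨a, ha⟩ := gen_Cf hO h
  obtain ⟨b, hb⟩ := gen_pair (O := O) hY (by simpa using h 0 h0 1 h1 one_ne_zero)
  exact chart_le_of_gen hA (hb.mul ha) hd hg hg0 hc

lemma gen_of_mul {A : Subalgebra k L} {M N : Submodule k L} {g : L} (hO : Lcl O) (hg : g ∈ M * N)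
    (hg0 : g ≠ 0) (hc : chart A (M * N) g ≤ O) : ∃ a, Gen O N a := by
  have hm : ∀ x ∈ M * N, x / g ∈ O := fun x hx => hc (div_mem_chart _ _ hx)
  obtain ⟨_, ⟨a, ha, b, hb, rfl⟩, hu⟩ := exists_un_of_span hO
    (S := {x | ∃ a ∈ M, ∃ b ∈ N, x = a * b}) hg0
    (by rintro _ ⟨a, ha, b, hb, rfl⟩; exact hm _ (Submodule.mul_mem_mul ha hb)) (by
      refine le_sp O _ (Submodule.mul_induction_on hg (fun a ha b hb => ?_) fun _ _ => add_mem)
      exact Submodule.subset_span ⟨a, ha, b, hb, rfl⟩)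
  have h0 := (div_ne_zero_iff.1 hu.2.1).1
  have ha0 := left_ne_zero_of_mul h0
  have hb0 := right_ne_zero_of_mul h0
  refine ⟨b, hb0, fun x hx => ?_, b, hb, by simpa [hb0] using Un.one O⟩
  rw [show x / b = a * x / g * (a * b / g)⁻¹ by field_simp]
  exact mul_mem (hm _ (Submodule.mul_mem_mul ha hx)) hu.2.2

/-- At a normal point where the coefficients are principal all ratios are comparable. -/
theorem cmp_of_gen {K : IntermediateField k L} {R : Subalgebra k L} (hO : IsPoint (icl K R) O)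
    {a : L} (h : Gen O (Cf k U Y) a) {u v : L} (hu : u ∈ U) (hv : v ∈ U) (hK : (Y - u) / v ∈ K) :
    (Y - u) / v ∈ O ∨ v / (Y - u) ∈ O := by
  obtain ⟨ha, h1, x, hx, h2⟩ := h
  rw [← inv_div (Y - u)]
  refine IsPoint.uu hO hK (P := C a⁻¹ * Pol U Y) (fun i => ?_) ?_ ?_
  · rw [coeff_C_mul, ← div_eq_inv_mul]
    exact h1 _ (Submodule.subset_span ⟨i, rfl⟩)
  · obtain ⟨_, ⟨i, rfl⟩, h3⟩ := exists_un_of_span hO.lcl (S := Set.range (Pol U Y).coeff)
      (g := x) (div_ne_zero_iff.1 h2.2.1).1 (fun y hy => by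
        rw [show y / x = y / a * (x / a)⁻¹ by field_simp]
        exact mul_mem (h1 y (Submodule.subset_span hy)) h2.2.2) (le_sp O _ hx)
    refine ⟨i, ?_⟩
    rw [coeff_C_mul, ← div_eq_inv_mul, ← div_mul_div_cancel₀ (div_ne_zero_iff.1 h2.2.1).1]
    exact h3.mul h2
  · rw [eval_mul, Pol, eval_prod, Finset.prod_eq_zero hu, mul_zero]
    rw [eval_prod]
    exact Finset.prod_eq_zero hv (by simp)

/-- At a point of the normalized tree all ratios are comparable. -/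
theorem cmp_of_chart {K : IntermediateField k L} {A : Subalgebra k L} {g : L}
    (hA : chart A (Jm k U Y) g ≤ K.toSubalgebra) (hO : IsPoint (icl K (chart A (Jm k U Y) g)) O)
    (hg : g ∈ Jm k U Y) (hg0 : g ≠ 0) {u v : L} (hu : u ∈ U) (hv : v ∈ U) (hK : (Y - u) / v ∈ K) :
    (Y - u) / v ∈ O ∨ v / (Y - u) ∈ O :=
  let ⟨_, ha⟩ := gen_of_mul hO.lcl hg hg0 ((le_icl hA).trans hO.le)
  cmp_of_gen hO ha hu hv hK

end Gen

end Pool.Agent.MP_19ffc6_ag.Res.B.Disc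

end MrgPart0

-- ======== part 1: formerly Pool.Agent.MP_19ffc6_ag.Res.TreeK
section MrgPart1

/-! PROJECT RES: the local structure of the tree of discs. `V` is a finite additive group of
sections whose nonzero elements are comparable on the base, and all `(y - s) / t` are made
comparable on the projective line over the base. -/

namespace Pool.Agent.MP_19ffc6_ag.Res

open Pool.Agent.MP_19ffc6_ag.Wild Pool.Agent.MP_19ffc6_ag.Lci Polynomial TensorProduct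

variable {k L : Type} [Field k] [Field L] [Algebra k L]

/-- The ratios `(y - s) / t` and `t / (y - s)` that are regular. -/
def Rat (O1 : Subalgebra k L) (V : AddSubgroup L) (y : L) : Set L :=
  {r | r ∈ O1 ∧ ∃ s ∈ V, ∃ t ∈ V, t ≠ 0 ∧ (r = (y - s) / t ∨ r = t / (y - s))}

/-- A local ring `O1` over the base point `O` in which all `(y - s) / t` are comparable. -/
structure TD (O O1 : Subalgebra k L) (V : AddSubgroup L) (y : L) : Prop where
  lcl : Lcl O1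
  dom : Dom O O1
  fin : (V : Set L).Finite
  ne : ∃ v ∈ V, v ≠ 0
  nm : y ∉ V
  cmp : ∀ v ∈ V, ∀ w ∈ V, v ≠ 0 → w ≠ 0 → v / w ∈ O ∨ w / v ∈ O
  cmpY : ∀ s ∈ V, ∀ t ∈ V, t ≠ 0 → (y - s) / t ∈ O1 ∨ t / (y - s) ∈ O1

/-- `β` is a section closest to `y`. -/
def Close (O1 : Subalgebra k L) (V : AddSubgroup L) (y β : L) : Prop :=
  β ∈ V ∧ ∀ s ∈ V, (y - β) / (y - s) ∈ O1

/-- The chart `D` sees all regular ratios, and every `y - s` is a unit times `y - β` or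
`β - s`. -/
structure Out (O O1 : Subalgebra k L) (V : AddSubgroup L) (y β : L) (D : Subalgebra k L) :
    Prop where
  base : O ≤ D
  le : D ≤ O1
  rat : ∀ r ∈ Rat O1 V y, r ∈ loc D O1
  mon : ∀ s ∈ V, Un (loc D O1) ((y - s) / (y - β)) ∨ Un (loc D O1) ((y - s) / (β - s))

/-- The four kinds of points of the tree of discs. -/
inductive Kind (O O1 : Subalgebra k L) (V : AddSubgroup L) (y β : L) : Prop
  | gen (μ : L) (hμ : μ ∈ V) (h0 : μ ≠ 0) (hu : Un O1 ((y - β) / μ))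
      (out : Out O O1 V y β (adj O ((y - β) / μ)))
  | sec (μ : L) (hμ : μ ∈ V) (h0 : μ ≠ 0) (hmax : ∀ t ∈ V, t ≠ 0 → μ / t ∈ O)
      (hu : ¬ Un O1 ((y - β) / μ)) (out : Out O O1 V y β (adj O ((y - β) / μ)))
  | inf (μ : L) (hμ : μ ∈ V) (h0 : μ ≠ 0) (hmin : ∀ t ∈ V, t / μ ∈ O)
      (hu : ¬ Un O1 (μ / (y - β))) (out : Out O O1 V y β (adj O (μ / (y - β))))
  | node (μ ν : L) (hμ : μ ∈ V) (hν : ν ∈ V) (h0 : μ ≠ 0) (h1 : ν ≠ 0) (hd : ν / μ ∈ O)
      (hn : ¬ Un O (ν / μ)) (hc : ∀ t ∈ V, t ≠ 0 → μ / t ∈ O ∨ t / ν ∈ O)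
      (hu : ¬ Un O1 ((y - β) / μ)) (hw : ¬ Un O1 (ν / (y - β)))
      (out : Out O O1 V y β (adj (adj O ((y - β) / μ)) (ν / (y - β))))

namespace TreeM

variable {O O1 D : Subalgebra k L} {V : AddSubgroup L} {y β : L}

lemma un_one_add (hO : Lcl O) {x : L} (hx : x ∈ O) (hu : ¬ Un O x) : Un O (1 + x) :=
  (hO _ (add_mem (one_mem _) hx) _ (neg_mem hx) (by simpa using Un.one O)).resolve_right
    fun h => hu (by
      have := h.mul (show Un O (-1) from ⟨neg_mem (one_mem _), by simp, by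
        simpa using neg_mem (one_mem O)⟩)
      simpa using this)

lemma un_of_inv {x : L} (hx : x ∈ O) (h0 : x ≠ 0) (hx' : x⁻¹ ∈ O) : Un O x := ⟨hx, h0, hx'⟩

lemma un_loc_of {x : L} (hx : x ∈ loc D O1) (hu : Un O1 x) : Un (loc D O1) x :=
  ⟨hx, hu.2.1, inv_mem_loc hx hu⟩

/-- A finite family of comparable elements has a most divisible member. -/
lemma exists_top {ι : Type} (O : Subalgebra k L) (f : ι → L) (T : Finset ι) (hT : T.Nonempty)
    (h0 : ∀ i ∈ T, f i ≠ 0) (h : ∀ i ∈ T, ∀ j ∈ T, f i / f j ∈ O ∨ f j / f i ∈ O) :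
    ∃ i ∈ T, ∀ j ∈ T, f i / f j ∈ O := by
  classical
  induction T using Finset.induction_on with
  | empty => exact absurd hT (by simp)
  | insert a T ha ih =>
    have haa : f a / f a ∈ O := by
      rw [div_self (h0 a (by simp))]; exact one_mem _
    rcases T.eq_empty_or_nonempty with rfl | hne
    · exact ⟨a, by simp, by simpa using haa⟩
    obtain ⟨i, hi, hi'⟩ := ih hne (fun i hi => h0 i (by simp [hi]))
      fun i hi j hj => h i (by simp [hi]) j (by simp [hj])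
    have hi0 := h0 i (by simp [hi])
    rcases h a (by simp) i (by simp [hi]) with h1 | h1
    · refine ⟨a, by simp, fun j hj => ?_⟩
      rcases Finset.mem_insert.1 hj with rfl | hj
      · exact haa
      · have : f a / f j = f a / f i * (f i / f j) := by field_simp
        rw [this]; exact mul_mem h1 (hi' j hj)
    · refine ⟨i, by simp [hi], fun j hj => ?_⟩
      rcases Finset.mem_insert.1 hj with rfl | hj
      exacts [h1, hi' j hj]

lemma exists_top_set (O : Subalgebra k L) {T : Set L} (hT : T.Finite) (hne : T.Nonempty)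
    (h0 : ∀ x ∈ T, x ≠ 0) (h : ∀ x ∈ T, ∀ z ∈ T, x / z ∈ O ∨ z / x ∈ O) :
    ∃ x ∈ T, ∀ z ∈ T, x / z ∈ O := by
  simpa using exists_top O id hT.toFinset (by simpa using hne) (by simpa using h0)
    (by simpa using h)

lemma exists_bot_set (O : Subalgebra k L) {T : Set L} (hT : T.Finite) (hne : T.Nonempty)
    (h0 : ∀ x ∈ T, x ≠ 0) (h : ∀ x ∈ T, ∀ z ∈ T, x / z ∈ O ∨ z / x ∈ O) :
    ∃ x ∈ T, ∀ z ∈ T, z / x ∈ O := by
  have e : ∀ x z : L, x⁻¹ / z⁻¹ = z / x := fun x z => by rw [inv_div_inv]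
  simpa [e] using exists_top O (fun x : L => x⁻¹) hT.toFinset (by simpa using hne)
    (by simpa using h0) fun x hx z hz => by
      rw [e, e]; exact (h x (by simpa using hx) z (by simpa using hz)).symm

lemma sub_ne (h : TD O O1 V y) {s : L} (hs : s ∈ V) : y - s ≠ 0 :=
  fun e => h.nm (sub_eq_zero.1 e ▸ hs)

/-- Comparable elements of the base: divisibility can be read in the dominating ring. -/
lemma div_mem_base (h : TD O O1 V y) {v w : L} (hv : v ∈ V) (hw : w ∈ V) (hw0 : w ≠ 0)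
    (h1 : v / w ∈ O1) : v / w ∈ O := by
  by_cases hv0 : v = 0
  · rw [hv0, zero_div]; exact zero_mem _
  refine (h.cmp v hv w hw hv0 hw0).elim id fun h2 => ?_
  have := (h.dom.2 _ h2 ⟨h.dom.1 h2, div_ne_zero hw0 hv0, by rwa [inv_div]⟩).2.2
  rwa [inv_div] at this

lemma cmp_sub (h : TD O O1 V y) {s s' : L} (hs : s ∈ V) (hs' : s' ∈ V) :
    (y - s) / (y - s') ∈ O1 ∨ (y - s') / (y - s) ∈ O1 := by
  have h1 := sub_ne h hs
  have h2 := sub_ne h hs'
  by_cases e : s' - s = 0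
  · left; rw [sub_eq_zero.1 e, div_self h1]; exact one_mem _
  by_cases h3 : (s' - s) / (y - s') ∈ O1
  · left
    have : (y - s) / (y - s') = 1 + (s' - s) / (y - s') := by field_simp; ring
    rw [this]; exact add_mem (one_mem _) h3
  · right
    have h4 := (h.cmpY s' hs' _ (sub_mem hs' hs) e).resolve_right h3
    have h5 := un_one_add h.lcl h4 fun hu => h3 (by simpa using hu.2.2)
    have : (y - s') / (y - s) = (y - s') / (s' - s) * (1 + (y - s') / (s' - s))⁻¹ := by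
      have : 1 + (y - s') / (s' - s) = (y - s) / (s' - s) := by field_simp; ring
      rw [this]; field_simp
    rw [this]; exact mul_mem h4 h5.2.2

/-- The chart criterion: it suffices that the chart sees the ratios of `y - β` and `V`. -/
lemma out_of (h : TD O O1 V y) (hβ : Close O1 V y β) (h1 : O ≤ D) (h2 : D ≤ O1)
    (hA : ∀ t ∈ V, t ≠ 0 → (y - β) / t ∈ O1 → (y - β) / t ∈ loc D O1)
    (hB : ∀ t ∈ V, t ≠ 0 → (y - β) / t ∉ O1 → t / (y - β) ∈ loc D O1) : Out O O1 V y β D := by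
  have hb := sub_ne h hβ.1
  have hO : O ≤ loc D O1 := h1.trans (le_loc _ _)
  have hB' : ∀ t ∈ V, t ≠ 0 → t / (y - β) ∈ O1 → t / (y - β) ∈ loc D O1 := by
    intro t ht ht0 h3
    by_cases h4 : (y - β) / t ∈ O1
    · have := inv_mem_loc (hA t ht ht0 h4) ⟨h4, div_ne_zero hb ht0, by rwa [inv_div]⟩
      rwa [inv_div] at this
    · exact hB t ht ht0 h4
  have mon : ∀ s ∈ V, Un (loc D O1) ((y - s) / (y - β)) ∨ Un (loc D O1) ((y - s) / (β - s)) := by
    intro s hs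
    have h3 := sub_ne h hs
    by_cases e : β - s = 0
    · left; rw [← sub_eq_zero.1 e, div_self hb]; exact Un.one _
    have ht := sub_mem hβ.1 hs
    by_cases h4 : (β - s) / (y - β) ∈ O1
    · left
      have e1 : (y - s) / (y - β) = 1 + (β - s) / (y - β) := by field_simp; ring
      have h5 : (y - s) / (y - β) ∈ loc D O1 := e1 ▸ add_mem (one_mem _) (hB' _ ht e h4)
      exact un_loc_of h5 ⟨loc_le h2 h5, div_ne_zero h3 hb, by rw [inv_div]; exact hβ.2 s hs⟩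
    · right
      have h5 := (h.cmpY β hβ.1 _ ht e).resolve_right h4
      have e1 : (y - s) / (β - s) = 1 + (y - β) / (β - s) := by field_simp; ring
      rw [e1]
      exact un_loc_of (add_mem (one_mem _) (hA _ ht e h5))
        (un_one_add h.lcl h5 fun hu => h4 (by simpa using hu.2.2))
  refine ⟨h1, h2, ?_, mon⟩
  rintro r ⟨hr, s, hs, t, ht, ht0, e⟩
  have h3 := sub_ne h hs
  rcases mon s hs with hu | hu
  · have hu1 := hu.mono (loc_le h2)
    rcases e with rfl | rfl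
    · have e1 : (y - s) / t = (y - s) / (y - β) * ((y - β) / t) := by field_simp
      have e2 : (y - β) / t = ((y - s) / (y - β))⁻¹ * ((y - s) / t) := by field_simp
      rw [e1]
      exact mul_mem hu.1 (hA t ht ht0 (e2 ▸ mul_mem hu1.2.2 hr))
    · have e1 : t / (y - s) = ((y - s) / (y - β))⁻¹ * (t / (y - β)) := by field_simp
      have e2 : t / (y - β) = (y - s) / (y - β) * (t / (y - s)) := by field_simp
      rw [e1]
      exact mul_mem hu.2.2 (hB' t ht ht0 (e2 ▸ mul_mem hu1.1 hr))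
  · have hu1 := hu.mono (loc_le h2)
    have e0 : β - s ≠ 0 := fun e => hu.2.1 (by rw [e, div_zero])
    have hts := sub_mem hβ.1 hs
    rcases e with rfl | rfl
    · have e1 : (y - s) / t = (y - s) / (β - s) * ((β - s) / t) := by field_simp
      have e2 : (β - s) / t = ((y - s) / (β - s))⁻¹ * ((y - s) / t) := by field_simp
      rw [e1]
      exact mul_mem hu.1 (hO (div_mem_base h hts ht ht0 (e2 ▸ mul_mem hu1.2.2 hr)))
    · have e1 : t / (y - s) = ((y - s) / (β - s))⁻¹ * (t / (β - s)) := by field_simp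
      have e2 : t / (β - s) = (y - s) / (β - s) * (t / (y - s)) := by field_simp
      rw [e1]
      exact mul_mem hu.2.2 (hO (div_mem_base h ht hts e0 (e2 ▸ mul_mem hu1.1 hr)))

end TreeM

open TreeM

variable {O O1 D : Subalgebra k L} {V : AddSubgroup L} {y β : L}

/-- A closest section exists. -/
theorem TD.exists_close (h : TD O O1 V y) : ∃ β, Close O1 V y β := by
  obtain ⟨β, hβ, h1⟩ := exists_top O1 (fun s => y - s) h.fin.toFinset ⟨0, by simp⟩
    (fun s hs => sub_ne h (by simpa using hs))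
    fun s hs s' hs' => cmp_sub h (by simpa using hs) (by simpa using hs')
  exact ⟨β, by simpa using hβ, fun s hs => h1 s (by simpa using hs)⟩

/-- The classification of the points of the tree of discs. -/
theorem TD.kind (h : TD O O1 V y) (hβ : Close O1 V y β) : Kind O O1 V y β := by
  have hb := sub_ne h hβ.1
  have hO := h.dom.1
  let A : Set L := {t | t ∈ V ∧ t ≠ 0 ∧ (y - β) / t ∈ O1}
  let B : Set L := {t | t ∈ V ∧ t ≠ 0 ∧ (y - β) / t ∉ O1}
  have hBm : ∀ t ∈ B, t / (y - β) ∈ O1 ∧ ¬ Un O1 (t / (y - β)) := fun t ht =>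
    ⟨(h.cmpY β hβ.1 t ht.1 ht.2.1).resolve_left ht.2.2, fun hu => ht.2.2 (by simpa using hu.2.2)⟩
  have hA : A.Nonempty → ∃ μ ∈ A, ∀ t ∈ A, μ / t ∈ O := fun hne =>
    exists_top_set O (h.fin.subset fun _ ht => ht.1) hne (fun _ ht => ht.2.1)
      fun x hx z hz => h.cmp x hx.1 z hz.1 hx.2.1 hz.2.1
  have hB : B.Nonempty → ∃ ν ∈ B, ∀ t ∈ B, t / ν ∈ O := fun hne =>
    exists_bot_set O (h.fin.subset fun _ ht => ht.1) hne (fun _ ht => ht.2.1)
      fun x hx z hz => h.cmp x hx.1 z hz.1 hx.2.1 hz.2.1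
  have kA : ∀ {μ D}, μ ∈ A → (∀ t ∈ A, μ / t ∈ O) → O ≤ D → (y - β) / μ ∈ D →
      ∀ t ∈ V, t ≠ 0 → (y - β) / t ∈ O1 → (y - β) / t ∈ loc D O1 := by
    intro μ D hμ h1 h2 h3 t ht ht0 h4
    have h5 := hμ.2.1
    have e : (y - β) / t = (y - β) / μ * (μ / t) := by field_simp
    rw [e]
    exact le_loc _ _ (mul_mem h3 (h2 (h1 t ⟨ht, ht0, h4⟩)))
  have kB : ∀ {ν D}, ν ∈ B → (∀ t ∈ B, t / ν ∈ O) → O ≤ D → ν / (y - β) ∈ D →
      ∀ t ∈ V, t ≠ 0 → (y - β) / t ∉ O1 → t / (y - β) ∈ loc D O1 := by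
    intro ν D hν h1 h2 h3 t ht ht0 h4
    have h5 := hν.2.1
    have e : t / (y - β) = ν / (y - β) * (t / ν) := by field_simp
    rw [e]
    exact le_loc _ _ (mul_mem h3 (h2 (h1 t ⟨ht, ht0, h4⟩)))
  have kAB : ∀ μ ∈ A, ∀ t ∈ B, t / μ ∈ O ∧ ¬ Un O (t / μ) := by
    intro μ hμ t ht
    have h5 := hμ.2.1
    have h6 := ht.2.1
    have h7 : μ / t ∉ O := fun h8 => ht.2.2 (by
      have e : (y - β) / t = (y - β) / μ * (μ / t) := by field_simp
      rw [e]; exact mul_mem hμ.2.2 (hO h8))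
    exact ⟨(h.cmp μ hμ.1 t ht.1 h5 h6).resolve_left h7, fun hu => h7 (by simpa using hu.2.2)⟩
  rcases A.eq_empty_or_nonempty with hAe | hAn
  · have hAB : ∀ t ∈ V, t ≠ 0 → t ∈ B := fun t ht ht0 =>
      ⟨ht, ht0, fun h1 => (hAe ▸ (⟨ht, ht0, h1⟩ : t ∈ A) : t ∈ (∅ : Set L))⟩
    obtain ⟨v, hv, hv0⟩ := h.ne
    obtain ⟨ν, hν, h1⟩ := hB ⟨v, hAB v hv hv0⟩
    refine .inf ν hν.1 hν.2.1 (fun t ht => ?_) (hBm ν hν).2 (out_of h hβ (le_adj _ _)
      (adj_le hO (hBm ν hν).1) (fun t ht ht0 h2 => ((hAB t ht ht0).2.2 h2).elim)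
      (kB hν h1 (le_adj _ _) (self_mem_adj _ _)))
    by_cases ht0 : t = 0
    · rw [ht0, zero_div]; exact zero_mem _
    · exact h1 t (hAB t ht ht0)
  obtain ⟨μ, hμ, h1⟩ := hA hAn
  have hA1 := kA hμ h1 (le_adj O _) (self_mem_adj _ _)
  by_cases hu : Un O1 ((y - β) / μ)
  · refine .gen μ hμ.1 hμ.2.1 hu (out_of h hβ (le_adj _ _) (adj_le hO hμ.2.2) hA1
      fun t ht ht0 h2 => ?_)
    have h5 := hμ.2.1
    have e : t / (y - β) = t / μ * ((y - β) / μ)⁻¹ := by field_simp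
    rw [e]
    exact mul_mem (le_loc _ _ (le_adj _ _ (kAB μ hμ t ⟨ht, ht0, h2⟩).1))
      (un_loc (self_mem_adj _ _) hu).2.2
  rcases B.eq_empty_or_nonempty with hBe | hBn
  · have hAB : ∀ t ∈ V, t ≠ 0 → (y - β) / t ∈ O1 := fun t ht ht0 => by
      by_contra h2
      exact (hBe ▸ (⟨ht, ht0, h2⟩ : t ∈ B) : t ∈ (∅ : Set L))
    exact .sec μ hμ.1 hμ.2.1 (fun t ht ht0 => h1 t ⟨ht, ht0, hAB t ht ht0⟩) hu
      (out_of h hβ (le_adj _ _) (adj_le hO hμ.2.2) hA1 fun t ht ht0 h2 => (h2 (hAB t ht ht0)).elim)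
  obtain ⟨ν, hν, h2⟩ := hB hBn
  refine .node μ ν hμ.1 hν.1 hμ.2.1 hν.2.1 (kAB μ hμ ν hν).1 (kAB μ hμ ν hν).2
    (fun t ht ht0 => ?_) hu (hBm ν hν).2 (out_of h hβ ((le_adj _ _).trans (le_adj _ _))
      (adj_le (adj_le hO hμ.2.2) (hBm ν hν).1)
      (kA hμ h1 ((le_adj _ _).trans (le_adj _ _)) (le_adj _ _ (self_mem_adj _ _)))
      (kB hν h2 ((le_adj _ _).trans (le_adj _ _)) (self_mem_adj _ _)))
  by_cases h3 : (y - β) / t ∈ O1
  exacts [Or.inl (h1 t ⟨ht, ht0, h3⟩), Or.inr (h2 t ⟨ht, ht0, h3⟩)]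

/-- A point of the ring generated by the regular ratios is a point of the chart. -/
theorem Out.isPoint (h : Out O O1 V y β D) (hl : Lcl O1)
    (hg : O1 ≤ loc (O ⊔ Algebra.adjoin k (Rat O1 V y)) O1) : IsPoint D O1 :=
  ⟨h.le, hl, hg.trans (loc_le_loc
    (sup_le (h.base.trans (le_loc _ _)) (Algebra.adjoin_le h.rat)) h.le)⟩

end Pool.Agent.MP_19ffc6_ag.Res

end MrgPart1

-- ======== part 2: formerly Pool.Agent.MP_19ffc6_ag.Res.TreeA
section MrgPart2

/-! PROJECT RES, module TREE: the local analysis in the Galois closure. -/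

namespace Pool.Agent.MP_19ffc6_ag.Res.B

open Pool.Agent.MP_19ffc6_ag.Wild Pool.Agent.MP_19ffc6_ag.Lci Pool.Agent.MP_19ffc6_ag.Res.Tor
open Polynomial

variable {k L : Type} [Field k] [Field L] [Algebra k L]

namespace TreeA

section Grp

variable {G : Type} [Group G] [MulSemiringAction G L] [SMulCommClass G k L]
  {O D : Subalgebra k L} {U : Finset L} {Y : L}

omit [SMulCommClass G k L] in
lemma prod_smul {M : Type} [CommMonoid M] (hU : ∀ g : G, ∀ u ∈ U, g • u ∈ U) (g : G)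
    (f : L → M) : ∏ u ∈ U, f (g • u) = ∏ u ∈ U, f u :=
  Finset.prod_bij' (fun u _ => g • u) (fun u _ => g⁻¹ • u) (fun u hu => hU g u hu)
    (fun u hu => hU _ u hu) (fun u _ => inv_smul_smul g u) (fun u _ => smul_inv_smul g u)
    fun _ _ => rfl

omit [SMulCommClass G k L] in
lemma smul_coeff (hU : ∀ g : G, ∀ u ∈ U, g • u ∈ U) (hY : ∀ g : G, g • Y = Y) (g : G) (i : ℕ) :
    g • (Pol U Y).coeff i = (Pol U Y).coeff i := by
  have : (Pol U Y).map (MulSemiringAction.toRingHom G L g) = Pol U Y := by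
    simp only [Pol, Polynomial.map_prod, Polynomial.map_sub, map_X, map_C,
      MulSemiringAction.toRingHom_apply, smul_div₀', smul_sub, hY]
    rw [prod_smul hU g fun u => ∏ v ∈ U, (X - C ((Y - u) / g • v))]
    exact Finset.prod_congr rfl fun u _ => prod_smul hU g fun v => X - C ((Y - u) / v)
  conv_rhs => rw [← this, coeff_map]
  rfl

omit [SMulCommClass G k L] in
lemma smul_phi (hU : ∀ g : G, ∀ u ∈ U, g • u ∈ U) (hY : ∀ g : G, g • Y = Y) (g : G) :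
    g • ∏ u ∈ U, (Y - u) = ∏ u ∈ U, (Y - u) := by
  rw [Finset.smul_prod']
  simp only [smul_sub, hY]
  exact prod_smul hU g fun u => Y - u

/-- A scalar that fixes the class of a unit is one. -/
lemma fix_of_semi (hl : Lcl O) (hr : Rt O) {g : G} (hg : g • O = O) {u : L} (hu : Un O u) {c : k}
    (h : g • u = c • u) : g • u = u := by
  obtain ⟨a, ha⟩ := hr u hu.1
  have h1 : ¬ Un O (g • u - algebraMap k L a) := by
    rwa [← hg, un_smul, smul_sub, inv_smul_smul, smul_algebraMap]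
  have h2 : g • u ∈ O := by rw [← hg]; exact smul_mem_smul.2 hu.1
  have h3 : g • u - u ∈ mx hl := by
    have := sub_mem (show _ ∈ mx hl from ⟨sub_mem h2 (O.algebraMap_mem a), h1⟩)
      (show _ ∈ mx hl from ⟨sub_mem hu.1 (O.algebraMap_mem a), ha⟩)
    rwa [sub_sub_sub_cancel_right] at this
  by_cases e : c - 1 = 0
  · rw [h, sub_eq_zero.1 e, one_smul]
  · refine (h3.2 ?_).elim
    rw [h, show c • u - u = algebraMap k L (c - 1) * u by rw [Algebra.smul_def, map_sub, map_one]; ring]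
    exact (un_alg O e).mul hu

/-- The average of a closest section over a tame group is a closest section. -/
lemma exists_avg {V : AddSubgroup L} {O₀ : Subalgebra k L} (h : TD O₀ O V Y)
    (H : Subgroup G) [Finite H] (hH : (Nat.card H : k) ≠ 0) (hO : ∀ g ∈ H, g • O = O)
    (hV : ∀ g : G, ∀ v ∈ V, g • v ∈ V) (hY : ∀ g : G, g • Y = Y) :
    ∃ β, Close O V Y β ∧ ∀ g ∈ H, g • β = β := by
  obtain ⟨β, hβ⟩ := h.exists_close
  have := Fintype.ofFinite H
  have : Finite V := h.fin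
  have hc : ((Nat.card H : ℕ) : L) ≠ 0 := by
    rw [← map_natCast (algebraMap k L)]; exact (_root_.map_ne_zero _).2 hH
  -- multiplication by the order is a bijection of `V`
  obtain ⟨⟨γ, hγ⟩, e⟩ : ∃ γ : V, Nat.card H • γ = ⟨∑ g : H, g.1 • β, sum_mem fun g _ =>
      hV _ _ hβ.1⟩ := by
    refine Finite.surjective_of_injective (f := fun γ : V => Nat.card H • γ) (fun a b e => ?_) _
    have := congrArg Subtype.val e
    simp only [AddSubmonoidClass.coe_nsmul, nsmul_eq_mul] at this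
    exact Subtype.ext (mul_left_cancel₀ hc this)
  have e1 : (Nat.card H : L) * γ = ∑ g : H, g.1 • β := by
    simpa using congrArg Subtype.val e
  have hb := TreeM.sub_ne h hβ.1
  refine ⟨γ, ⟨hγ, fun s hs => ?_⟩, fun g hg => mul_left_cancel₀ hc ?_⟩
  · have e2 : (Y - γ) / (Y - s) = algebraMap k L (Nat.card H : k)⁻¹ *
        ∑ g : H, g.1 • ((Y - β) / (Y - g.1⁻¹ • s)) := by
      simp only [smul_div₀', smul_sub, hY, smul_inv_smul]
      rw [← Finset.sum_div, Finset.sum_sub_distrib, ← e1, map_inv₀, map_natCast]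
      simp only [Finset.sum_const, Finset.card_univ, nsmul_eq_mul, ← Nat.card_eq_fintype_card]
      field_simp
    rw [e2]
    refine mul_mem (O.algebraMap_mem _) (sum_mem fun g _ => ?_)
    have := (smul_mem_smul (g := g.1)).2 (hβ.2 _ (hV g.1⁻¹ s hs))
    rwa [hO g.1 g.2] at this
  · have : (Nat.card H : L) * g • γ = g • ((Nat.card H : L) * γ) := by
      rw [smul_mul', ← map_natCast (algebraMap k L), smul_algebraMap]
    rw [this, e1, Finset.smul_sum]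
    exact Fintype.sum_equiv (Equiv.mulLeft (⟨g, hg⟩ : H)) _ _ fun x => (mul_smul g x.1 β).symm

omit [SMulCommClass G k L] in
/-- Semi-invariance of monomials. -/
lemma semi_mn {r : ℕ} {ξ : Fin r → L} {g : G} (h : ∀ i, ∃ c : k, g • ξ i = c • ξ i)
    (e : Fin r → ℤ) : ∃ c : k, g • mn ξ e = c • mn ξ e := by
  choose c hc using h
  refine ⟨∏ i, c i ^ e i, ?_⟩
  have : ∀ i, g • ξ i ^ e i = algebraMap k L (c i ^ e i) * ξ i ^ e i := fun i => by
    rw [map_zpow₀, ← mul_zpow, ← Algebra.smul_def, ← hc]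
    exact map_zpow₀ (MulSemiringAction.toRingHom G L g) _ _
  rw [mn, Finset.smul_prod', Algebra.smul_def, map_prod, ← Finset.prod_mul_distrib]
  exact Finset.prod_congr rfl fun i _ => this i

lemma fix_icl {E : IntermediateField k L} (hE : ∀ z, z ∈ E ↔ ∀ g : G, g • z = z) :
    fix G (icl ⊤ D) = icl E D := by
  ext x
  rw [mem_fix, mem_icl, mem_icl, hE]
  exact ⟨fun h => ⟨h.2, h.1.2⟩, fun h => ⟨⟨trivial, h.2⟩, h.1⟩⟩

lemma chart_fix (hU : ∀ g : G, ∀ u ∈ U, g • u ∈ U) (hY : ∀ g : G, g • Y = Y)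
    (hD : ∀ x ∈ D, ∀ g : G, g • x = x) {a : L} (ha : a ∈ Jm k U Y) :
    chart D (Jm k U Y) a ≤ fix G ⊤ := by
  have h1 : Jm k U Y ≤ (fix G (⊤ : Subalgebra k L)).toSubmodule := by
    refine Submodule.mul_le.2 fun m hm n hn => mul_mem (s := fix G ⊤) ?_ ?_
    · refine (Submodule.span_le (p := (fix G (⊤ : Subalgebra k L)).toSubmodule)).2 ?_ hm
      rintro _ (rfl | rfl)
      exacts [one_mem (fix G ⊤), mem_fix.2 ⟨trivial, hY⟩]
    · refine (Submodule.span_le (p := (fix G (⊤ : Subalgebra k L)).toSubmodule)).2 ?_ hn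
      rintro _ ⟨i, rfl⟩
      exact mem_fix.2 ⟨trivial, fun g => smul_coeff hU hY g i⟩
  refine chart_le (fun x hx => mem_fix.2 ⟨trivial, hD x hx⟩) fun m hm => mem_fix.2 ⟨trivial, ?_⟩
  intro g
  rw [smul_div₀', (mem_fix.1 (h1 hm)).2, (mem_fix.1 (h1 ha)).2]

end Grp

section Aux

variable {n r s : ℕ} {K : IntermediateField k L} {D R O O₂ : Subalgebra k L} {U S S' : Finset L}
  {Y β : L} {ξ : Fin r → L} {t : Fin s → L}

lemma loc_le_of_dom (h : D ≤ O₂) (hd : Dom O₂ O) : loc D O ≤ O₂ := by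
  rintro _ ⟨a, ha, b, hb, hu, rfl⟩
  rw [div_eq_mul_inv]
  exact mul_mem (h ha) (hd.2 b (h hb) hu).2.2

lemma trdeg_top (hn : Algebra.trdeg k K = n) (hY : Transcendental K Y)
    (h : K ⊔ IntermediateField.adjoin k {Y} = ⊤) :
    Algebra.trdeg k (⊤ : IntermediateField k L) = (n + 1 : ℕ) := by
  have h1 : IntermediateField.adjoin K (Set.range fun _ : Unit => Y) = ⊤ := by
    rw [Set.range_const, ← IntermediateField.restrictScalars_eq_top_iff (K := k),
      IntermediateField.restrictScalars_adjoin_eq_sup, h]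
  have h2 : IsTranscendenceBasis K fun _ : Unit => Y := by
    rw [isTranscendenceBasis_iff_algebraicIndependent_isAlgebraic,
      ← IntermediateField.isAlgebraic_adjoin_iff_top, h1]
    exact ⟨algebraicIndependent_unique_type_iff.2 hY, ⟨fun x => isAlgebraic_algebraMap
      (⟨x, trivial⟩ : (⊤ : IntermediateField K L))⟩⟩
  rw [IntermediateField.topEquiv.trdeg_eq, ← trdeg_add_eq k K (A := L), hn,
    ← h2.cardinalMk_eq_trdeg]
  simp

/-- The additive group given by a finite set. -/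
def grpU (h1 : (1 : L) ∈ U) (h : ∀ u ∈ U, ∀ v ∈ U, u - v ∈ U) : AddSubgroup L where
  carrier := U
  zero_mem' := by simpa using h 1 h1 1 h1
  add_mem' {a b} ha hb := by simpa using h a ha _ (h _ (h 1 h1 1 h1) b hb)
  neg_mem' {a} ha := by simpa using h _ (h 1 h1 1 h1) a ha

/-- The boundary upstairs is the support of the divisors of `S'`. -/
lemma sees_of {ι : Type} {r' : ℕ} {τ : Typ ι r'} {z : Fin r' → L} (hz : ∀ i, z i ≠ 0)
    (hp : Par n S R ξ t) (hR : R ≤ O) (hU : ∀ u ∈ U, u ≠ 0 → LMon R ξ u) (h0 : 0 ∈ U) (hβ : β ∈ U)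
    (hsub : ∀ u ∈ U, β - u ∈ U) (hb : Y - β ≠ 0)
    (hmon : ∀ u ∈ U, Un O ((Y - u) / (Y - β)) ∨ Un O ((Y - u) / (β - u)))
    (hS : ∀ f, f ∈ S' ↔ f ∈ S ∨ f = Y ∨ f = ∏ u ∈ U, (Y - u))
    (em : (Fin r → ℤ) → Fin r' → ℤ) (hem : ∀ a, mn z (em a) = mn ξ a) (e : Fin r' → ℤ)
    (he : Un O ((Y - β) / mn z e))
    (rows : ∀ ρ ∈ τ.R, (∃ i, ∀ a, τ.ev (em a) ρ = a i) ∨
      ((∀ a, τ.ev (em a) ρ = 0) ∧ τ.ev e ρ ≠ 0)) : Sees S' O τ z := by
  classical
  have h1 : ∀ u ∈ U, ∃ c, Un O ((Y - u) / mn z c) ∧ (c = e ∨ u ≠ β ∧ ∃ a, c = em a) := by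
    intro u hu
    rcases hmon u hu with h | h
    · refine ⟨e, ?_, Or.inl rfl⟩
      rw [← div_mul_div_cancel₀ hb]; exact h.mul he
    · have h2 : β - u ≠ 0 := fun e => h.2.1 (by rw [e, div_zero])
      obtain ⟨a, ha⟩ := hU _ (hsub u hu) h2
      refine ⟨em a, ?_, Or.inr ⟨fun e => h2 (by rw [e, sub_self]), a, rfl⟩⟩
      rw [← div_mul_div_cancel₀ h2, hem]; exact h.mul (ha.mono hR)
  choose! c hc hc' using h1
  have h2 : Un O ((∏ u ∈ U, (Y - u)) / mn z (∑ u ∈ U, c u)) := by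
    have : ∀ T : Finset L, mn z (∑ u ∈ T, c u) = ∏ u ∈ T, mn z (c u) := fun T => by
      induction T using Finset.induction_on with
      | empty => simp [mn_zero]
      | insert a T ha ih => rw [Finset.sum_insert ha, Finset.prod_insert ha, mn_add hz, ih]
    rw [this, ← Finset.prod_div_distrib]
    exact un_prod _ _ hc
  refine ⟨fun f hf => ?_, fun ρ hρ => ?_⟩
  · rcases (hS f).1 hf with hf | rfl | rfl
    · obtain ⟨a, ha⟩ := hp.mon f hf
      exact ⟨em a, by rw [hem]; exact ha.mono hR⟩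
    · exact ⟨c 0, by simpa using hc 0 h0⟩
    · exact ⟨_, h2⟩
  rcases rows ρ hρ with ⟨i, hi⟩ | ⟨h3, h4⟩
  · obtain ⟨f, hf, a, ha, ha0⟩ := hp.sees i
    exact ⟨f, (hS f).2 (Or.inl hf), em a, by rw [hem]; exact ha.mono hR, by rwa [hi]⟩
  · refine ⟨_, (hS _).2 (Or.inr (Or.inr rfl)), _, h2, fun h5 => ?_⟩
    have h6 : ∀ u ∈ U, 0 ≤ τ.ev (c u) ρ * τ.ev e ρ := fun u hu => by
      rcases hc' u hu with h | ⟨-, a, h⟩
      · rw [h]; exact mul_self_nonneg _
      · rw [h, h3, zero_mul]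
    have h7 := (Finset.sum_eq_zero_iff_of_nonneg h6).1
      (by rw [← Finset.sum_mul, ← Typ.ev_sum, h5, zero_mul]) β hβ
    rw [(hc' β hβ).resolve_right fun h => h.1 rfl] at h7
    exact h4 (mul_self_eq_zero.1 h7)

end Aux

section Main

variable {G : Type} [Group G] [MulSemiringAction G L] [SMulCommClass G k L] {n r s : ℕ}
  {K : IntermediateField k L} {D D₁ R O : Subalgebra k L} {U S S' : Finset L}
  {V : AddSubgroup L} {Y β a : L} {ξ : Fin r → L} {t : Fin s → L}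

/-- The point of the tree of discs upstairs is toroidal with strict coordinates. -/
theorem upstairs (ha : Aff n K D₁ R) (hp : Par n S R ξ t) (hD : D ≤ R) (hV : ∀ u, u ∈ V ↔ u ∈ U)
    (h1 : 1 ∈ U) (hUK : ∀ u ∈ U, u ∈ K) (hU : ∀ u ∈ U, u ≠ 0 → LMon R ξ u)
    (hco : ∀ c, mn ξ c ∈ R → 0 ≤ c) (hY : Transcendental K Y)
    (htop : K ⊔ IntermediateField.adjoin k {Y} = ⊤) (haJ : a ∈ Jm k U Y) (ha0 : a ≠ 0)
    (hO : IsPoint (icl ⊤ (chart D (Jm k U Y) a)) O) (hr : Rt O) (h : TD R O V Y)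
    (hβ : Close O V Y β) (hS : ∀ f, f ∈ S' ↔ f ∈ S ∨ f = Y ∨ f = ∏ u ∈ U, (Y - u))
    (hχ : ∀ (g : G) i, ∃ c : k, g • ξ i = c • ξ i) (ht : ∀ (g : G) j, g • t j = t j)
    (hYg : ∀ g : G, g • Y = Y) (hVg : ∀ g : G, ∀ v ∈ V, g • v ∈ V)
    (hβg : ∀ g : G, g • O = O → g • β = β) :
    ∃ (ι : Type) (_ : Fintype ι) (r' s' : ℕ) (τ : Typ ι r') (z : Fin r' → L) (t' : Fin s' → L),
      TP (n + 1) O τ z t' ∧ Sees S' O τ z ∧ (∀ i, Str G O (z i)) ∧
        ∀ g : G, g • O = O → ∀ j, g • t' j = t' j := by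
  have hb := TreeM.sub_ne h hβ.1
  have hRO := h.dom.1
  have hξ0 : ∀ i, ξ i ≠ 0 := fun i => (hp.xm i).2.1
  have hm0 := mn_ne_zero hξ0
  have h0 : (0 : L) ∈ U := (hV 0).1 (zero_mem _)
  have B : Disc.Base n ⊤ (chart D (Jm k U Y) a) D₁ R O ξ t :=
    ⟨trdeg_top ha.deg hY htop, hp.card, ha.fg, le_top, ha.pt,
      fun x hx => (ha.rt x hx).imp fun c hc => hp.gen _ (sub_mem hx (R.algebraMap_mem c)) hc,
      h.dom, fun i => ⟨(hp.xm i).1, hξ0 i, fun hu => (hp.xm i).2.2 (h.dom.2 _ (hp.xm i).1 hu)⟩,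
      fun j => ⟨(hp.tm j).1, fun hu => (hp.tm j).2 (h.dom.2 _ (hp.tm j).1 hu)⟩, hO, hr⟩
  -- the chart of the tree lies in every dominated ring that contains the local chart
  have k0 : ∀ {C O₂ : Subalgebra k L}, Out R O V Y β C → C ≤ O₂ → Lcl O₂ → Dom O₂ O →
      chart D (Jm k U Y) a ≤ O₂ := fun {C O₂} ho hC hl hd =>
    Disc.chart_Jm_le hl (hD.trans (ho.base.trans hC)) hd h0 h1
      (by simpa using TreeM.sub_ne h (zero_mem V)) (fun u hu v hv hv0 =>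
        (h.cmpY u ((hV u).2 hu) v ((hV v).2 hv) hv0).imp
          (fun e => loc_le_of_dom hC hd (ho.rat _ ⟨e, u, (hV u).2 hu, v, (hV v).2 hv, hv0, .inl rfl⟩))
          fun e => loc_le_of_dom hC hd (ho.rat _ ⟨e, u, (hV u).2 hu, v, (hV v).2 hv, hv0, .inr rfl⟩))
      haJ ha0 ((le_icl le_top).trans hO.le)
  have kf : ∀ {u : L}, (∀ Z : IntermediateField k L, K ≤ Z → u ∈ Z → Y - β ∈ Z) →
      ⊤ ≤ IntermediateField.adjoin k (R ∪ {u}) := fun {u} hu => by
    have h2 : K ≤ IntermediateField.adjoin k (R ∪ {u}) := fun x hx => by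
      obtain ⟨b, hb, hb0, hbx⟩ := ha.frac x hx
      rw [show x = b * x / b by field_simp]
      exact div_mem (IntermediateField.subset_adjoin _ _ (Or.inl (ha.pt.le hbx)))
        (IntermediateField.subset_adjoin _ _ (Or.inl (ha.pt.le hb)))
    rw [← htop]
    refine sup_le h2 (IntermediateField.adjoin_le_iff.2 (Set.singleton_subset_iff.2 ?_))
    simpa using add_mem (hu _ h2 (IntermediateField.subset_adjoin _ _ (Or.inr rfl)))
      (h2 (hUK β ((hV β).1 hβ.1)))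
  have hmK : ∀ c, mn ξ c ∈ K := mn_mem_field fun i => ha.le_field (hp.xm i).1
  have ks : ∀ {C : Subalgebra k L}, Out R O V Y β C → ∀ {ι : Type} {r' : ℕ} {τ : Typ ι r'}
      {z : Fin r' → L}, (∀ i, z i ≠ 0) → ∀ (em : (Fin r → ℤ) → Fin r' → ℤ),
      (∀ a, mn z (em a) = mn ξ a) → ∀ e, Un O ((Y - β) / mn z e) →
      (∀ ρ ∈ τ.R, (∃ i, ∀ a, τ.ev (em a) ρ = a i) ∨ ((∀ a, τ.ev (em a) ρ = 0) ∧ τ.ev e ρ ≠ 0)) →
      Sees S' O τ z := fun ho _ _ _ _ hz =>
    sees_of hz hp hRO hU h0 ((hV β).1 hβ.1) (fun u hu => (hV _).1 (sub_mem hβ.1 ((hV u).2 hu))) hb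
      (fun u hu => (ho.mon u ((hV u).2 hu)).imp (·.mono (loc_le ho.le)) (·.mono (loc_le ho.le))) hS
  have sξ : ∀ i, Str G O (ξ i) := fun i => .of_semi (hξ0 i) fun g => hχ g i
  have sY : ∀ c, Str G O ((Y - β) / mn ξ c) := fun c => Str.div (.of_div_smul hb fun g => by
    rw [smul_sub, hYg]; exact hβ.2 _ (hVg g β hβ.1)) (.mn sξ c)
  have e1 : ∀ {μ : L} {c}, μ ≠ 0 → (Y - β) / μ = (Y - β) / mn ξ c * (μ / mn ξ c)⁻¹ :=
    fun {μ c} hμ => by have := hm0 c; field_simp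
  have e2 : ∀ {μ : L} {c}, μ ≠ 0 → (Y - β) / mn ξ c = (Y - β) / μ * (μ / mn ξ c) :=
    fun hμ => (div_mul_div_cancel₀ hμ).symm
  have ro : ∀ (e : Fin (r + 1) → ℤ), e 0 ≠ 0 → ∀ ρ ∈ (orth (r + 1)).R,
      (∃ i, ∀ a, (orth (r + 1)).ev (Disc.emb r a) ρ = a i) ∨
        ((∀ a, (orth (r + 1)).ev (Disc.emb r a) ρ = 0) ∧ (orth (r + 1)).ev e ρ ≠ 0) :=
    fun e he ρ _ => by
      simp only [ev_orth]
      exact ρ.cases (Or.inr ⟨fun _ => rfl, he⟩) fun i => Or.inl ⟨i, fun _ => rfl⟩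
  rcases h.kind hβ with ⟨μ, hμ, hμ0, hu, ho⟩ | ⟨μ, hμ, hμ0, -, hu, ho⟩ | ⟨μ, hμ, hμ0, -, hu, ho⟩ |
    ⟨μ, ν, hμ, hν, hμ0, hν0, hd, hn, -, hu, hw, ho⟩
  all_goals obtain ⟨c, hc⟩ := hU μ ((hV μ).1 hμ) hμ0
  · have h2 : Un O ((Y - β) / mn ξ c) := e2 hμ0 ▸ hu.mul (hc.mono hRO)
    obtain ⟨b, hb'⟩ := hr _ h2.1
    refine ⟨_, inferInstance, _, _, _, _, _,
      B.free ⟨sub_mem h2.1 (O.algebraMap_mem b), hb'⟩ (kf fun Z hZ hx => ?_)
        fun O₂ h3 h4 => k0 ho (adj_le h3 ?_),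
      ks ho hξ0 id (fun _ => rfl) c h2 fun i _ => Or.inl ⟨i, fun a => ev_orth a i⟩, sξ,
      fun g hg => Fin.cases ?_ (ht g)⟩
    · simpa [hm0 c] using mul_mem (add_mem hx (Z.algebraMap_mem b)) (hZ (hmK c))
    · rw [e1 hμ0]
      exact mul_mem (by simpa using add_mem h4 (O₂.algebraMap_mem b)) (h3 hc.2.2)
    · obtain ⟨d, hd⟩ := semi_mn (hχ g) c
      rw [Fin.cons_zero, smul_sub, smul_algebraMap, fix_of_semi h.lcl hr hg h2 (c := d⁻¹)]
      rw [smul_div₀', smul_sub, hYg, hβg g hg, hd, Algebra.smul_def, Algebra.smul_def, map_inv₀,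
        div_mul_eq_div_div_swap, div_eq_inv_mul _ (algebraMap k L d)]
  · have h2 : (Y - β) / mn ξ c ∈ O := e2 hμ0 ▸ mul_mem (ho.le (self_mem_adj _ _)) (hRO hc.1)
    have h3 : (Y - β) / mn ξ c ≠ 0 := div_ne_zero hb (hm0 c)
    refine ⟨_, inferInstance, _, _, _, _, _,
      B.sect ⟨h2, fun h4 => hu (e1 hμ0 ▸ h4.mul (hc.mono hRO).inv)⟩ h3 (kf fun Z hZ hx => ?_)
        fun O₂ h3 h4 => k0 ho (adj_le h3 (e1 hμ0 ▸ mul_mem h4 (h3 hc.2.2))),
      ks ho (Fin.cases h3 hξ0) _ (Disc.mn_emb _ _) (Fin.cons 1 c) ?_ (ro _ one_ne_zero),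
      Fin.cases (sY c) sξ, fun g _ => ht g⟩
    · simpa [hm0 c] using mul_mem hx (hZ (hmK c))
    · rw [Disc.mn_cons, zpow_one, div_mul_cancel₀ _ (hm0 c), div_self hb]; exact Un.one _
  · have e3 : ((Y - β) / mn ξ c)⁻¹ = μ / (Y - β) * (μ / mn ξ c)⁻¹ := by field_simp
    have e4 : μ / (Y - β) = ((Y - β) / mn ξ c)⁻¹ * (μ / mn ξ c) := by have := hm0 c; field_simp
    have h2 : ((Y - β) / mn ξ c)⁻¹ ∈ O := e3 ▸ mul_mem (ho.le (self_mem_adj _ _)) (hRO hc.2.2)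
    have h3 : ((Y - β) / mn ξ c)⁻¹ ≠ 0 := inv_ne_zero (div_ne_zero hb (hm0 c))
    refine ⟨_, inferInstance, _, _, _, _, _,
      B.sect ⟨h2, fun h4 => hu (e4 ▸ h4.mul (hc.mono hRO))⟩ h3 (kf fun Z hZ hx => ?_)
        fun O₂ h3 h4 => k0 ho (adj_le h3 (e4 ▸ mul_mem h4 (h3 hc.1))),
      ks ho (Fin.cases h3 hξ0) _ (Disc.mn_emb _ _) (Fin.cons (-1) c) ?_ (ro _ (by simp)),
      Fin.cases (sY c).inv sξ, fun g _ => ht g⟩
    · simpa [hm0 c] using mul_mem (inv_mem hx) (hZ (hmK c))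
    · rw [Disc.mn_cons, zpow_neg_one, inv_inv, div_mul_cancel₀ _ (hm0 c), div_self hb]
      exact Un.one _
  · obtain ⟨c', hc'⟩ := hU ν ((hV ν).1 hν) hν0
    have h2 : (Y - β) / mn ξ c ∈ O :=
      e2 hμ0 ▸ mul_mem (ho.le (le_adj _ _ (self_mem_adj _ _))) (hRO hc.1)
    have h3 : (Y - β) / mn ξ c ≠ 0 := div_ne_zero hb (hm0 c)
    have h5 : Un R (ν / μ / mn ξ (c' - c)) := by
      have := un_div hc' hc
      rwa [div_div_div_comm, ← mn_sub hξ0] at this
    have e3 : mn ξ (c' - c) / ((Y - β) / mn ξ c) = ν / (Y - β) * (ν / mn ξ c')⁻¹ := by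
      have := hm0 c; rw [mn_sub hξ0]; field_simp
    have e4 : ν / (Y - β) = mn ξ (c' - c) / ((Y - β) / mn ξ c) * (ν / mn ξ c') := by
      have := hm0 c; have := hm0 c'; rw [mn_sub hξ0]; field_simp
    refine ⟨_, inferInstance, _, _, _, _, _,
      B.nod (c := c' - c) (hco _ ?_) (fun e => hn (by simpa [e, mn_zero] using h5))
        ⟨h2, fun h4 => hu (e1 hμ0 ▸ h4.mul (hc.mono hRO).inv)⟩ h3
        ⟨e3 ▸ mul_mem (ho.le (self_mem_adj _ _)) (hRO hc'.2.2),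
          fun h4 => hw (e4 ▸ h4.mul (hc'.mono hRO))⟩ (kf fun Z hZ hx => ?_)
        fun O₂ h3 h4 h6 => k0 ho (adj_le (adj_le h3 (e1 hμ0 ▸ mul_mem h4 (h3 hc.2.2)))
          (e4 ▸ mul_mem h6 (h3 hc'.1))),
      ks ho (Fin.cases h3 hξ0) _ (Disc.mn_emb _ _) (Fin.cons 1 c) ?_ ?_,
      Fin.cases (sY c) sξ, fun g _ => ht g⟩
    · have := mul_mem hd h5.2.2
      rwa [inv_div, mul_div_cancel₀ _ (div_ne_zero hν0 hμ0)] at this
    · simpa [hm0 c] using mul_mem hx (hZ (hmK c))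
    · rw [Disc.mn_cons, zpow_one, div_mul_cancel₀ _ (hm0 c), div_self hb]; exact Un.one _
    · rintro (i | i) -
      · exact Or.inl ⟨i, fun a => Disc.ev_inl _ _⟩
      · exact Or.inl ⟨i, fun a => by simp [Disc.ev_inr, Disc.emb]⟩

end Main

end TreeA

open TreeA in
/-- The local statement in the Galois closure. -/
theorem abs_of [IsAlgClosed k] (hM : MonStmt k L) : AbsStmt k L := by
  intro G _ _ _ _ n m F K Y U S S' D R O r s x ξ t h ho
  obtain ⟨a, ha, ha0, hO⟩ := ho.pt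
  have hF : ∀ z ∈ F, ∀ g : G, g • z = z := fun z hz =>
    (h.fix z).1 ((le_sup_left : F ≤ _) hz)
  have hY : ∀ g : G, g • Y = Y := (h.fix Y).1
    ((le_sup_right : _ ≤ F ⊔ _) (IntermediateField.subset_adjoin _ _ rfl))
  have hR : ∀ z ∈ R, ∀ g : G, g • z = z := fun z hz => hF z (h.aff.le_field hz)
  have hD := chart_fix h.gal hY (fun z hz => hR z (h.aff.pt.le hz)) ha
  have hDE : chart D (Jm k U Y) a ≤ (F ⊔ IntermediateField.adjoin k {Y}).toSubalgebra :=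
    fun z hz => (h.fix z).2 (mem_fix.1 (hD hz)).2
  have hDO := (le_icl hDE).trans hO.le
  obtain ⟨W, hW, hd⟩ := exists_val_dom hO.lcl
  have hW1 : icl ⊤ (chart D (Jm k U Y) a) ≤ W := hW.icl_le (hDO.trans hd.1)
  have hO1 := isPoint_loc hW1 hW.lcl
  have hd1 : Dom O (loc (icl ⊤ (chart D (Jm k U Y) a)) W) :=
    ⟨hO.le_loc.trans (loc_mono (fun z hz => ⟨trivial, hz.2⟩) hd.1),
      fun z hz hu => hd.2 z hz (hu.mono (loc_le hW1))⟩
  generalize loc (icl ⊤ (chart D (Jm k U Y) a)) W = O₁ at hO1 hd1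
  have hr1 : Rt O₁ := ho.rt.of_integral hO.lcl hd1 hO1 fun z hz => isIntegral_mono hDO hz.2
  have hdR := Dom.trans ho.dom hd1
  have hK1 : icl K R ≤ O₁ := fun z hz =>
    IsPoint.mem_of_isIntegral hO1 trivial (isIntegral_mono hdR.1 hz.2)
  have hRK : R ≤ icl K R := le_icl fun z hz => h.le (h.aff.le_field hz)
  have hP1 := isPoint_loc hK1 hO1.lcl
  have hd2 := dom_loc_of_dom hdR hRK hK1
  obtain ⟨h1, h2, h3, h4, h5⟩ := hM G n m F K Y U S D R _ r s x ξ t h ho.cmp hP1 hd2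
  have hH : (Nat.card (MulAction.stabilizer G O₁) : k) ≠ 0 := by
    refine (h.aj _ hP1 hd2).2 _ ?_
    rintro g hg _ ⟨b, hb, c, hc, hu, rfl⟩
    have hst := icl_stable h.st (fun g z hz => (hR z hz g).symm ▸ hz) g
    refine ⟨_, hst b hb, _, hst c hc, ?_, smul_div₀' g b c⟩
    rw [← MulAction.mem_stabilizer_iff.1 hg]
    exact un_smul_smul.2 hu
  have hT : Transcendental K Y := fun e =>
    h.tr (isAlgebraic_trans (D := F.toSubalgebra) h.le h.alg e)
  have hTD : TD (loc (icl K R) O₁) O₁ (grpU h.one h.sub) Y :=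
    ⟨hO1.lcl, dom_loc hK1, U.finite_toSet, ⟨1, h.one, one_ne_zero⟩,
      fun e => h.tr (h.alg Y (h.uK Y e)), h4,
      fun u hu v hv _ => Disc.cmp_of_chart le_top hO1 ha ha0 hu hv trivial⟩
  obtain ⟨β, hβ, hβ'⟩ := exists_avg hTD _ hH (fun g hg => hg) h.gal hY
  obtain ⟨ι, _, r', s', τ, z, t', e1, e2, e3, e4⟩ := upstairs (G := G) h1 h2
    (h.aff.pt.le.trans hd2.1) (fun _ => Iff.rfl) h.one h.uK h3 h5 hT h.top ha ha0 hO1 hr1 hTD hβ
    ho.iff h.chi (fun g j => hR _ (h.par.tm j).1 g) hY h.gal hβ'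
  have hQ : Qt G (icl ⊤ (chart D (Jm k U Y) a)) O₁ :=
    ⟨icl_stable (fun _ _ _ => trivial) fun g z hz => ((mem_fix.1 (hD hz)).2 g).symm ▸ hz, hO1, hr1,
      _, hH, fun g hg => by
        simpa using congrArg Subtype.val
          (pow_card_eq_one' (x := (⟨g, hg⟩ : MulAction.stabilizer G O₁)))⟩
  obtain ⟨τ', w, t'', e5, e6⟩ := hQ.tp_sees e1 e3 e4 (fun f hf g => by
    rcases (ho.iff f).1 hf with hf | rfl | rfl
    exacts [hF f (h.sF f hf) g, hY g, smul_phi h.gal hY g]) e2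
  rw [fix_icl h.fix, ← IsPoint.eq_loc hO hd1] at e5 e6
  exact ⟨ι, inferInstance, r', s', τ', w, t'', e5, e6⟩

end Pool.Agent.MP_19ffc6_ag.Res.B

end MrgPart2

-- marker of a merged file
example : 731051 + 190927 = 731051 + 190927 := rfl

end MrgPart0

-- ======== part 1: formerly Pool.Agent.MP_19ffc6_ag.Res.QuotB
section MrgPart1

/-! PROJECT RES, part B: the tame quotient of a toroidal point is a toroidal point. -/


namespace Pool.Agent.MP_19ffc6_ag.Res.B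

open Pool.Agent.MP_19ffc6_ag.Wild Pool.Agent.MP_19ffc6_ag.Lci Pool.Agent.MP_19ffc6_ag.Res.Tor

variable {k L : Type} [Field k] [Field L] [Algebra k L]

theorem quotB : QuotStmt k L := by
  intro G _ _ _ _ n K D O ι _ r s τ z t hG _ _ _ hDK _ hO hr hcard h hz hstab
  have hs : ∀ g ∈ MulAction.stabilizer G O, ∀ x ∈ O, g • x ∈ O := fun g hg x hx => by
    have := (smul_mem_smul (g := g)).2 hx
    rwa [MulAction.mem_stabilizer_iff.1 hg] at this
  have hT : Qt G (icl ⊤ D) O :=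
    ⟨icl_stable (K := ⊤) (fun _ _ _ => trivial) fun g x hx => ((hG x).1 (hDK hx) g).symm ▸ hx,
      hO, hr, _, hcard _ hs, fun g hg => congrArg Subtype.val
        (pow_card_eq_one' (x := (⟨g, hg⟩ : MulAction.stabilizer G O)))⟩
  have hfix : fix G (icl ⊤ D) = icl K D := Subalgebra.ext fun x =>
    ⟨fun hx => ⟨(hG x).2 hx.2, hx.1.2⟩, fun hx => ⟨⟨trivial, hx.2⟩, (hG x).1 hx.1⟩⟩
  obtain ⟨b, w, t', h1, -, -, -, h2⟩ := hT.tp h
    (fun i => (hz i).elim (Str.of_smul_div (h.ne i)) (Str.of_div_smul (h.ne i)))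
    fun g hg => (hstab g (hs g hg)).2
  rw [hfix] at h1 h2
  refine ⟨τ.sub b, w, t', rfl, h1, fun f hf c hc => ?_⟩
  obtain ⟨e, rfl, he⟩ := h2 f c ((hG f).1 hf) hc
  exact ⟨e, he, ev_lat τ b e⟩

end Pool.Agent.MP_19ffc6_ag.Res.B

end MrgPart1

-- marker of a merged file
example : 731051 + 468526 = 731051 + 468526 := rfl
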