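import Mathlib
import Pool.Agent.MP_19ffc6_ag.Res.ASpec

/-! PROJECT RES, stage F (finite ground fields): definitions and statements of the modules. -/

namespace Pool.Agent.MP_19ffc6_ag.Res.PF

open Pool.Agent.MP_19ffc6_ag.Wild Pool.Agent.MP_19ffc6_ag.Res.PA Submodule Filter Module
  MvPolynomial

section Pure

variable {k : Type} [Field k] {ι : Type}

/-- The dimension of the space of polynomials of degree at most `c` modulo `I`. -/
noncomputable def hf (I : Ideal (MvPolynomial ι k)) (c : ℕ) : ℕ :=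
  finrank k ((restrictTotalDegree ι k c).map (Ideal.Quotient.mkₐ k I).toLinearMap)

/-- The dimension of the variety of `p`. -/
noncomputable def dm (p : Ideal (MvPolynomial ι k)) : Cardinal :=
  Algebra.trdeg k (MvPolynomial ι k ⧸ p)

/-- A finite family of primes of dimension `e` and total growth at most `ν`. -/
structure Pm (e ν : ℕ) (s : Finset (Ideal (MvPolynomial ι k))) : Prop where
  prime : ∀ p ∈ s, p.IsPrime
  dim : ∀ p ∈ s, dm p = e
  gr : ∃ᶠ c : ℕ in atTop, ∑ p ∈ s, hf p c ≤ ν * c ^ e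

/-- The point `x` lies on the variety of `p`. -/
def On (x : ι → k) (p : Ideal (MvPolynomial ι k)) : Prop := ∀ f ∈ p, eval x f = 0

/-- The first nonzero coordinate is one. -/
def Nrm {κ : Type} [Field κ] {r : ℕ} (ξ : Fin r → κ) : Prop := ∃ i, ξ i = 1 ∧ ∀ j < i, ξ j = 0

/-- The set `Z` has dimension less than the dimension of the second factor. -/
def Thin {I J : Type} [Fintype J] (Z : (I → k) → (J → k) → Prop) : Prop :=
  ∃ s : Finset (Ideal (MvPolynomial (I ⊕ J) k)),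
    (∀ p ∈ s, p.IsPrime ∧ dm p < Fintype.card J) ∧
    ∀ ξ l, Z ξ l → ∃ p ∈ s, On (Sum.elim ξ l) p

/-- The linear form with coefficients `c`. -/
noncomputable def lf {I : Type} [Fintype I] (e : I → ι) (c : I → k) : MvPolynomial ι k :=
  ∑ i, c i • X (e i)

/-- `P` holds for every sequence of `r` vectors each of which avoids at most `c` proper subspaces
that depend on the earlier vectors. -/
def Game {E : Type} [AddCommGroup E] [Module k E] (c : ℕ) :
    (r : ℕ) → ((Fin r → E) → Prop) → Prop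
  | 0, P => P Fin.elim0
  | r + 1, P => ∃ s : Finset (Submodule k E), s.card ≤ c ∧ (∀ p ∈ s, p ≠ ⊤) ∧
      ∀ x, (∀ p ∈ s, x ∉ p) → Game c r fun y => P (Fin.cons x y)

/-- The number of subspaces in a chain of hyperplane sections. -/
def gc (d ν : ℕ) : ℕ := 4 ^ (d * d) * ν * (2 * d) ^ d

variable (k)

/-- Module KRULL. -/
def KrullStmt : Prop :=
  ∀ (D : Type) [CommRing D] [IsDomain D] [Algebra k D] [Algebra.FiniteType k D] (e : ℕ) (u : D)
    (q : Ideal D), Algebra.trdeg k D = (e + 1 : ℕ) → u ≠ 0 →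
    q ∈ (Ideal.span {u}).minimalPrimes → Algebra.trdeg k (D ⧸ q) = e

/-- Module CUT: a crude theorem of Bezout. -/
structure CutStmt : Prop where
  card : ∀ (ι : Type) [Finite ι] (e ν : ℕ) (s : Finset (Ideal (MvPolynomial ι k))), Pm e ν s →
    s.card ≤ ν * (2 * e) ^ e
  inf : ∀ (ι : Type) [Finite ι] (e ν : ℕ) (s : Finset (Ideal (MvPolynomial ι k))),
    (∀ p ∈ s, p.IsPrime) → (∀ p ∈ s, dm p = e) →
    (∃ᶠ c : ℕ in atTop, hf (s.inf id) c ≤ ν * c ^ e) → Pm e (2 ^ e * ν) s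
  grow : ∀ (ι : Type) [Finite ι] (p : Ideal (MvPolynomial ι k)), p.IsPrime →
    ∃ e ν : ℕ, Pm e ν {p}
  cut : ∀ (ι : Type) [Finite ι] (e ν N : ℕ) (s : Finset (Ideal (MvPolynomial ι k)))
    (u : Ideal (MvPolynomial ι k) → MvPolynomial ι k), Pm (e + 1) ν s → 0 < N →
    (∀ p ∈ s, u p ∉ p ∧ (u p).totalDegree ≤ N) →
    ∃ s', Pm e (4 ^ (e + 1) * N * ν) s' ∧ (∀ p' ∈ s', ∃ p ∈ s, p ≤ p') ∧
      ∀ p ∈ s, ∀ q : Ideal (MvPolynomial ι k), q.IsPrime → p ≤ q → u p ∈ q → ∃ p' ∈ s', p' ≤ q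
  zero : ∀ (ι : Type) (p q : Ideal (MvPolynomial ι k)), p.IsPrime → q.IsPrime → dm p = 0 → p ≤ q →
    q = p

/-- Module COUNT: points with coordinates in a finite set. -/
def CountStmt : Prop :=
  ∀ (ι : Type) [Fintype ι] (p : Ideal (MvPolynomial ι k)) (e : ℕ), p.IsPrime → dm p ≤ e →
    ∃ D : ℕ, ∀ (κ : Finset k) (Y : Finset (ι → k)), κ.Nonempty →
      (∀ x ∈ Y, (∀ i, x i ∈ κ) ∧ On x p) → Y.card ≤ D * κ.card ^ e

/-- Module INTERP: prescribed values at the points with coordinates in a fixed finite field. -/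
def InterpStmt (p : ℕ) : Prop :=
  ∀ (F : Type) [Field F] [Fintype F] [Algebra F k] (r e R : ℕ) (J : Type) [Fintype J]
    (Fine : (Fin r → k) → (J → k) → Prop), 0 < R →
    (∀ (κ : Type) [Field κ] [Fintype κ] [Algebra F κ] (ξ : Fin r → κ), Nrm ξ →
      ∃ l : J → κ, ∀ φ : κ →ₐ[F] k, Fine (φ ∘ ξ) (φ ∘ l)) →
    ∃ a₁ : ℕ, ∀ a, a₁ ≤ a → ∃ P : J → MvPolynomial (Fin r) F, (∀ j, (P j).IsHomogeneous a) ∧
      ∀ ξ, Nrm ξ → (∀ i, ξ i ^ Fintype.card F ^ R = ξ i) → Fine ξ fun j => aeval ξ (P j) ^ p ^ e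

/-- Module HIGH: points at which the space `G` takes many values. -/
def HighStmt (p : ℕ) : Prop :=
  ∀ (F : Type) [Field F] [Fintype F] [Algebra F k] (r e : ℕ) (J : Type) [Fintype J]
    (π : Ideal (MvPolynomial (Fin r ⊕ J) k)), π.IsPrime → dm π < Fintype.card J →
    ∃ C : ℕ, ∀ (a b : ℕ) (G : Submodule F (MvPolynomial (Fin r) F))
      (P : J → MvPolynomial (Fin r) F) (Y : Finset (J → G)), Finite G →
      (∀ g ∈ G, g.totalDegree ≤ a) → (∀ j, (P j).totalDegree ≤ a) →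
      (∀ g ∈ Y, ∃ ξ : Fin r → k, b ≤ finrank F (G.map (aeval ξ).toLinearMap) ∧
        On (Sum.elim ξ fun j => aeval ξ (P j + (g j).1) ^ p ^ e) π) →
      Y.card * Fintype.card F ^ b ≤ C * (a + 1) ^ Fintype.card J * Nat.card G ^ Fintype.card J

/-- Module MED: points of degree `δ` at which the space `G` takes all values. -/
def MedStmt (p : ℕ) : Prop :=
  ∀ (F : Type) [Field F] [Fintype F] [Algebra F k] (r e : ℕ) (J : Type) [Fintype J]
    (π : Ideal (MvPolynomial (Fin r ⊕ J) k)), π.IsPrime → dm π < Fintype.card J →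
    ∃ D : ℕ, ∀ (δ : ℕ) (G : Submodule F (MvPolynomial (Fin r) F))
      (P : J → MvPolynomial (Fin r) F) (Y : Finset (J → G)), Finite G →
      (∀ g ∈ Y, ∃ ξ : Fin r → k, finrank F (G.map (aeval ξ).toLinearMap) = δ ∧
        (∀ i, ξ i ^ Fintype.card F ^ δ = ξ i) ∧
        On (Sum.elim ξ fun j => aeval ξ (P j + (g j).1) ^ p ^ e) π) →
      Y.card * Fintype.card F ^ δ ≤ D * Nat.card G ^ Fintype.card J

/-- Module SIEVE. -/
def SieveStmt (p : ℕ) : Prop :=
  ∀ (F : Type) [Field F] [Fintype F] [Algebra F k] [Algebra.IsAlgebraic F k] (r e : ℕ) (J : Type)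
    [Fintype J] (Bad Fine : (Fin r → k) → (J → k) → Prop) (ξ₀ : Fin r → k),
    Thin (fun ξ l => Nrm ξ ∧ Bad ξ l) → (∀ ξ l, Fine ξ l → ¬ Bad ξ l) → Nrm ξ₀ →
    (∀ (κ : Type) [Field κ] [Fintype κ] [Algebra F κ] (ξ : Fin r → κ), Nrm ξ →
      ∃ l : J → κ, ∀ φ : κ →ₐ[F] k, Fine (φ ∘ ξ) (φ ∘ l)) →
    ∃ (a : ℕ) (P : J → MvPolynomial (Fin r) F), (∀ j, (P j).IsHomogeneous a) ∧
      (∀ ξ, Nrm ξ → ¬ Bad ξ fun j => aeval ξ (P j) ^ p ^ e) ∧
      Fine ξ₀ fun j => aeval ξ₀ (P j) ^ p ^ e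

/-- Module GAME. -/
structure GameStmt : Prop where
  mono : ∀ (E : Type) [AddCommGroup E] [Module k E] (c c' r : ℕ) (P Q : (Fin r → E) → Prop),
    c ≤ c' → (∀ x, P x → Q x) → Game (k := k) c r P → Game (k := k) c' r Q
  and : ∀ (E : Type) [AddCommGroup E] [Module k E] (c c' r : ℕ) (P Q : (Fin r → E) → Prop),
    Game (k := k) c r P → Game (k := k) c' r Q → Game (k := k) (c + c') r fun x => P x ∧ Q x
  init : ∀ (E : Type) [AddCommGroup E] [Module k E] (c r : ℕ) (P : (Fin r → E) → Prop),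
    Game (k := k) c r P → Game (k := k) c (r + 1) fun x => P (Fin.init x)
  multi : ∀ (E N : Type) [AddCommGroup E] [Module k E] [AddCommGroup N] [Module k N] (r : ℕ)
    (ω : MultilinearMap k (fun _ : Fin r => E) N) (s : Finset (Submodule k N)),
    (∀ p ∈ s, ∃ x, ω x ∉ p) → Game (k := k) s.card r fun x => ∀ p ∈ s, ω x ∉ p
  cut : ∀ (E ι : Type) [AddCommGroup E] [Module k E] [Finite ι] (e r ν : ℕ)
    (s : Finset (Ideal (MvPolynomial ι k))) (l : E →ₗ[k] MvPolynomial ι k), Pm (e + r) ν s →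
    (∀ x, (l x).totalDegree ≤ 1) → Game (k := k) (gc (e + r) ν) r fun x =>
      ∀ q : Ideal (MvPolynomial ι k), q.IsPrime → (∃ p ∈ s, p ≤ q) → (∃ y, l y ∉ q) →
        (∀ i, l (x i) ∈ q) → dm q ≤ e
  play : ∀ (κ I A : Type) [Field κ] [Fintype κ] [Fintype I] [Fintype A] (φ : A → κ →+* k)
    (c r : ℕ) (P : A → (Fin r → I → k) → Prop), Fintype.card A * c < Fintype.card κ →
    (∀ a, Game (k := k) c r (P a)) → ∃ x : Fin r → I → κ, ∀ a, P a fun i j => φ a (x i j)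

end Pure

section Defs

variable {k K : Type} [Field k] [Field K] [Algebra k K] {m : ℕ}

/-- The valuation ring `O` is centred at the point `T`. -/
def Cen (T : Submodule k K) (O : Subalgebra k K) : Prop := Val O ∧ ∀ t ∈ T, t ∈ O ∧ ¬ Un O t

/-- `x` generates the `O`-module spanned by `X`. -/
def Gn (O : Subalgebra k K) (X : Submodule k K) (x : K) : Prop :=
  x ∈ X ∧ x ≠ 0 ∧ ∀ y ∈ X, y / x ∈ O

/-- The integral closure of `T ^ c J ^ b`. -/
def FF (T J : Submodule k K) (c b : ℕ) : Submodule k K where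
  carrier := {f | ∀ O : Subalgebra k K, Val O → (∀ t ∈ T, t ∈ O) → ∀ t j, Gn O T t → Gn O J j →
    f / (t ^ c * j ^ b) ∈ O}
  zero_mem' := fun O _ _ _ _ _ _ => by rw [zero_div]; exact O.zero_mem
  add_mem' := fun h1 h2 O a b t j c d => by
    rw [add_div]; exact O.add_mem (h1 O a b t j c d) (h2 O a b t j c d)
  smul_mem' := fun _ _ h O a b t j c d => by
    rw [smul_div_assoc]; exact O.smul_mem (h O a b t j c d) _

/-- `W` is exactly superficial for the filtration `FF`. -/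
def SS (T J : Submodule k K) (W : K) : Prop :=
  ∀ c b f, f ∈ FF T J c b → W * f ∈ FF T J (c + 1) (b + 1) → f ∈ FF T J (c + 1) b

/-- General elements of `J` are exactly superficial. -/
def SSG (T J : Submodule k K) : Prop :=
  ∀ P : Set (Submodule k K), P.Finite → (∀ p ∈ P, ¬ J ≤ p) →
    ∃ W ∈ J, (∀ p ∈ P, W ∉ p) ∧ SS T J W

/-- The field is finitely generated of dimension `n` and algebraic over `alg T`. -/
structure Fld (n : ℕ) (T : Submodule k K) : Prop where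
  fg : T.FG
  ne : T ≠ ⊥
  eft : Algebra.EssFiniteType k K
  dim : Algebra.trdeg k K = n
  alg : Algebra.IsAlgebraic (Algebra.adjoin k (T : Set K)) K

/-- The total growth of the divisors in `D` at the point `T` is at most `μ`. -/
def GrS (e μ : ℕ) (T : Submodule k K) (D : Set (DV k K)) : Prop :=
  ∀ s : Finset (DV k K), ↑s ⊆ D →
    ∃ᶠ L : ℕ in atTop, ∑ w ∈ s, cod (alg T) (T ^ L * alg T ⊔ w.fil 1) ≤ μ * L ^ e

/-- The output of the Albanese algorithm with the total growth of the boundary. -/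
structure Alb2 (d : Fin (m + 1) → Derivation k K K) (S : Finset K) (μ : ℕ) (V : Submodule k K) :
    Prop where
  alb : Alb d S μ V
  sum : ∀ σ T, Hyp V σ T → GrS m μ T {w | w ∈ DD d S V ∧ w.Min V σ}

variable (m) in
/-- `w` is a prime divisor of the chart `alg T`. -/
structure PrT (T : Submodule k K) (w : DV k K) : Prop where
  le : T ≤ w.fil 0
  ind : ∃ g : Fin m → K, (∀ i, g i ∈ alg T) ∧ w.Ind g
  dep : ∀ g : Fin (m + 1) → K, (∀ i, g i ∈ w.fil 0) → ¬ w.Ind g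

/-- The valuative conditions on local parameters. -/
structure Par (d : Fin (m + 1) → Derivation k K K) (D : Set (DV k K)) (T : Submodule k K)
    (l : Fin (m + 1) → K) : Prop where
  mem : ∀ i, l i ∈ T
  v1 : ∀ O, Cen T O → ∃ i, Gn O T (l i)
  v2 : ∀ w ∈ D, ∀ O, Cen T O → O ≤ w.vr → ¬ T ≤ w.fil 1 → ∃ i : Fin m, Gn O T (l i.castSucc)
  v3 : ∀ O, Cen T O → (∃ i : Fin m, Gn O T (l i.castSucc)) ∨ Gn O (JJ d T) (Jac d l)
  ss : SS T (JJ d T) (Jac d l)

/-- The bound for the local degrees. -/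
def cstF (m μ : ℕ) : ℕ := cst m μ + 2 ^ (m + 1) * μ * (8 * (m + 1) ^ 2) ^ (m + 1)

/-- The number of subspaces that local parameters have to avoid. -/
def gm (m μ : ℕ) : ℕ := 2 * gc (m + 2) (8 ^ (m + 2) * μ) + 1

/-- The tuple is good at `T` and its Wronskian does not vanish to high order. -/
def Fin1 (d : Fin (m + 1) → Derivation k K K) (C : ℕ) (D : Set (DV k K)) (M₀ T : Submodule k K)
    (s : Fin (m + 2) → K) : Prop :=
  At d C D M₀ T s ∧ Wr d s ∉ T * (alg T * JJ d T)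

/-- A tuple of forms of degree `N` that is good at all points. -/
structure TupN (d : Fin (m + 1) → Derivation k K K) (S : Finset K) (C : ℕ) (V M₀ : Submodule k K)
    (B : Finset K) (N : ℕ) (s : Fin (m + 2) → K) : Prop where
  span : span k (B : Set K) = V
  ne : ∀ σ ∈ B, σ ≠ 0
  mem : ∀ j, s j ∈ V ^ N
  wr : Wr d s ≠ 0
  pt : ∀ σ ∈ B, ∀ T, Hyp V σ T → (1 : K) ∉ nn T →
    At d C {w | w ∈ DD d S V ∧ w.Min V σ} M₀ T fun j => s j / σ ^ N

end Defs

section

variable (k K : Type) [Field k] [Field K] [Algebra k K] (m : ℕ)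

/-- Module REES: the components of the exceptional divisor of the blow-up of `T J`. -/
def ReesStmt : Prop :=
  ∀ (n μ : ℕ) (I I' : Type) [Fintype I] [Fintype I'] (t : I → K) (j : I' → K)
    (T J MM : Submodule k K), span k (Set.range t) = T → span k (Set.range j) = J → Fld n T →
    J ≠ ⊥ → MM.FG → MM ≠ ⊥ → Sm n μ T J MM →
    ∃ s : Finset (Ideal (MvPolynomial (I ⊕ I') k)), Pm (n + 1) (8 ^ (n + 1) * μ) s ∧
      (∀ p ∈ s, ∃ i, X (Sum.inr i) ∉ p) ∧
      (∀ c : I' → k, (∀ p ∈ s, lf Sum.inr c ∉ p) → SS T J (∑ i, c i • j i)) ∧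
      ∀ O, Cen T O → ∃ q : Ideal (MvPolynomial (I ⊕ I') k), q.IsPrime ∧ (∃ p ∈ s, p ≤ q) ∧
        2 ≤ dm q ∧ (∀ c : I → k, lf Sum.inl c ∈ q ↔ ¬ Gn O T (∑ i, c i • t i)) ∧
        ∀ c : I' → k, lf Sum.inr c ∈ q ↔ ¬ Gn O J (∑ i, c i • j i)

/-- Module CONE: the components of the tangent cones of the boundary divisors. -/
def ConeStmt : Prop :=
  ∀ (μ : ℕ) (I : Type) [Fintype I] (t : I → K) (T : Submodule k K) (D : Set (DV k K)),
    span k (Set.range t) = T → D.Finite → (∀ w ∈ D, PrT m T w) → GrS m μ T D →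
    ∃ s : Finset (Ideal (MvPolynomial I k)), Pm m (4 ^ m * μ) s ∧
      ∀ w ∈ D, ∀ O, Cen T O → O ≤ w.vr → ¬ T ≤ w.fil 1 →
        ∃ q : Ideal (MvPolynomial I k), q.IsPrime ∧ (∃ p ∈ s, p ≤ q) ∧ 1 ≤ dm q ∧
          ∀ c : I → k, lf id c ∈ q ↔ ¬ Gn O T (∑ i, c i • t i)

/-- Module FIL: the filtration by integral closures is finitely generated. -/
def FilStmt : Prop :=
  ∀ (n : ℕ) (T J : Submodule k K), Fld n T → J.FG → J ≠ ⊥ →
    ∃ (β e : ℕ) (MM : Submodule k K), MM.FG ∧ (∀ b, FF T J 0 (β + b) = Mb T J MM b) ∧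
      ∀ L b, FF T J (L + e) b ≤ T ^ L * FF T J 0 b

/-- Module NUMW: the growth of the polar modules of an exactly superficial element. -/
def NumwStmt : Prop :=
  ∀ (e μ : ℕ) (T J M₀ : Submodule k K) (W : K), Fld (e + 1) T → J.FG → J ≠ ⊥ → M₀.FG →
    (∀ MM : Submodule k K, MM.FG → M₀ ≤ MM → Sm (e + 1) μ T J MM) → SSG T J → W ∈ J → SS T J W →
    ∃ MM : Submodule k K, MM.FG ∧ MM ≠ ⊥ ∧ ∀ᶠ b : ℕ in atTop,
      Gr e (2 ^ (e + 1) * μ) T (Mb T J MM (b + 1)) (pr k W * Mb T J MM b)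

/-- Module NULL: from valuation rings to reductions. `R` is a valuation ring with maximal ideal
`Q`. -/
def NullStmt : Prop :=
  ∀ (e : ℕ) (T J Q : Submodule k K) (R : Subalgebra k K) (y : Fin e → K) (W : K), T.FG → J.FG →
    Val R → (∀ x, x ∈ Q ↔ x ∈ R ∧ ¬ Un R x) → (∀ t ∈ T, t ∈ R) → (∀ j ∈ J, j ∈ R) →
    (∀ i, y i ∈ T) → W ∈ J →
    (∀ O, Cen T O → O ≤ R → ¬ T ≤ Q → ¬ J ≤ Q → (∃ i, Gn O T (y i)) ∨ Gn O J W) →
    ∃ N : ℕ, T ^ (N + 1) * J ^ (N + 1) ≤
      span k (Set.range y) * (T ^ N * (alg T * J ^ (N + 1))) ⊔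
      T ^ (N + 2) * (alg T * J ^ (N + 1)) ⊔ (pr k W * (alg T * J ^ N) ⊔ Q)

/-- Module LIN: local parameters give a good tuple. -/
def LinStmt : Prop :=
  ∀ (d : Fin (m + 1) → Derivation k K K) (μ : ℕ) (D : Set (DV k K)) (M₀ T : Submodule k K)
    (l : Fin (m + 1) → K), Fld (m + 1) T → (1 : K) ∉ nn T → JJ d T ≠ ⊥ → M₀.FG → GoodX d μ T →
    (∀ w ∈ D, T ≤ w.fil 0 ∧ Gr m μ T (alg T) (w.fil 1)) → SSG T (JJ d T) → Par d D T l →
    Fin1 d (cstF m μ) D M₀ T (Fin.cons 1 l)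

/-- Module RAT: good local parameters avoid a bounded number of subspaces. -/
def RatStmt : Prop :=
  ∀ (t₀ : Fin (m + 1) → K) (d : Fin (m + 1) → Derivation k K K) (μ : ℕ) (D : Set (DV k K))
    (M₀ T : Submodule k K) (I : Type) [Fintype I] (t : I → K), Fr t₀ d →
    span k (Set.range t) = T → (1 : K) ∉ nn T → JJ d T ≠ ⊥ → M₀.FG → GoodX d μ T → D.Finite →
    (∀ w ∈ D, PrT m T w) → GrS m μ T D →
    Game (k := k) (gm m μ) (m + 1) fun x : Fin (m + 1) → I → k =>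
      Game (k := k) (gm m μ) (m + 1) fun a : Fin (m + 1) → Fin (m + 1) → k =>
        Fin1 d (cstF m μ) D M₀ T (Fin.cons 1 fun i => ∑ j, a i j • ∑ c, x j c • t c)

/-- Module THIN: the set of bad pairs is small. -/
def ThinStmt : Prop :=
  Big k (m + 2) → ∀ (t : Fin (m + 1) → K) (d : Fin (m + 1) → Derivation k K K) (μ : ℕ)
    (U M₀ : Submodule k K) (I₀ I : Type) [Fintype I₀] [Fintype I] (e : I₀ → K) (u : I → K)
    (D : Set (DV k K)), Fr t d → span k (Set.range e) = U → JJ d U ≠ ⊥ →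
    span k (Set.range u) = U ^ (m + 2) → M₀.FG → D.Finite → (∀ w ∈ D, U ≤ w.fil 0) →
    (∀ T, Pnt U T → GoodX d μ T ∧ ∀ w ∈ D, Gr m μ T (alg T) (w.fil 1)) →
    Thin fun (ξ : I₀ → k) (l : Fin (m + 2) × I → k) => ∃ T, Pnt U T ∧
      (∀ i, e i - algebraMap k K (ξ i) ∈ T) ∧ ¬ At d (cst m μ) D M₀ T (tup u l)

/-- Module DET: goodness depends on a jet of bounded order. -/
def DetStmt : Prop :=
  ∀ (d : Fin (m + 1) → Derivation k K K) (C : ℕ) (U M₀ : Submodule k K) (I : Type) [Fintype I]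
    (u : I → K) (D : Set (DV k K)), U.FG → (∀ i, u i ∈ alg U) → D.Finite →
    (∀ w ∈ D, U ≤ w.fil 0) → ∃ β : ℕ, ∀ T, Pnt U T → ∀ (l : Fin (m + 2) × I → k)
      (c : Fin (m + 2) × I → K), (∀ x, c x - algebraMap k K (l x) ∈ T ^ β * alg T) →
      (∀ x j, d j (c x) = 0) →
      (At d C D M₀ T (tup u l) → At d C D M₀ T fun j => ∑ i, c (j, i) * u i) ∧
      (Wr d (fun j => ∑ i, c (j, i) * u i) - Wr d (tup u l) ∈ T * (alg T * JJ d T))

/-- Module CHG: goodness does not depend on the chart. -/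
def ChgStmt : Prop :=
  ∀ (d : Fin (m + 1) → Derivation k K K) (S : Finset K) (C N : ℕ) (V M₀ T T' : Submodule k K)
    (σ σ' : K) (s : Fin (m + 2) → K), V.FG → Hyp V σ T → Hyp V σ' T' →
    pr k σ * T = pr k σ' * T' → (1 : K) ∉ nn T' → (∀ j, s j ∈ V ^ N) → (1 : K) ∉ nn T ∧
      (At d C {w | w ∈ DD d S V ∧ w.Min V σ} M₀ T (fun j => s j / σ ^ N) →
        At d C {w | w ∈ DD d S V ∧ w.Min V σ'} M₀ T' fun j => s j / σ' ^ N)

/-- Module FINN: from a good tuple of any degree to the fibration. -/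
def FinNStmt : Prop :=
  ∀ (t : Fin (m + 1) → K) (d : Fin (m + 1) → Derivation k K K) (S : Finset K) (C N : ℕ)
    (V M₀ : Submodule k K) (B : Finset K) (s : Fin (m + 2) → K), Big k C → 0 < C → 0 < N →
    Fr t d → WW d V ≠ ⊥ → Spn V M₀ → TupN d S C V M₀ B N s →
    Out (k := k) S C (Fin.init (crd s)) (crd s (Fin.last m))

/-- Module GENF: a good tuple with coefficients in the finite field `F`. -/
def GenFStmt : Prop :=
  ∀ (F : Type) [Field F] [Fintype F] [Algebra F k] [Algebra.IsAlgebraic F k]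
    (t : Fin (m + 1) → K) (d : Fin (m + 1) → Derivation k K K) (S : Finset K) (μ r : ℕ)
    (V M₀ : Submodule k K) (v : Fin r → K), Big k (m + 2) → gm m μ < Fintype.card F → Fr t d →
    Alb2 d S μ V → span k (Set.range v) = V → (∀ i, v i ≠ 0) → M₀.FG →
    ∃ (B : Finset K) (N : ℕ) (P : Fin (m + 2) → MvPolynomial (Fin r) F), 0 < N ∧
      TupN d S (cstF m μ) V M₀ B N fun j => aeval v (map (algebraMap F k) (P j))

/-- The tame projection theorem over a finite field. -/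
def TPFStmt : Prop :=
  ∀ (F : Type) [Field F] [Fintype F] [Algebra F k] [Algebra.IsAlgebraic F k]
    (t : Fin (m + 1) → K) (d : Fin (m + 1) → Derivation k K K) (S : Finset K) (μ r : ℕ)
    (V : Submodule k K) (v : Fin r → K), Big k (cstF m μ) → gm m μ < Fintype.card F → Fr t d →
    Alb2 d S μ V → span k (Set.range v) = V → (∀ i, v i ≠ 0) →
    ∃ P : Fin (m + 2) → MvPolynomial (Fin r) F,
      Out (k := k) S (cstF m μ)
        (Fin.init (crd fun j => aeval v (map (algebraMap F k) (P j))))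
        (crd (fun j => aeval v (map (algebraMap F k) (P j))) (Fin.last m))

end

variable {k K : Type} [Field k] [Field K] [Algebra k K] {m : ℕ}

theorem cst_le_cstF (m μ : ℕ) : cst m μ ≤ cstF m μ := Nat.le_add_right _ _

theorem tpF_of (h1 : FinXStmt k K m) (h2 : GenFStmt k K m) (h3 : FinNStmt k K m) :
    TPFStmt k K m := by
  intro F _ _ _ _ t d S μ r V v hk hq hF hV hv h0
  have hm := (le_cst m μ).trans (cst_le_cstF m μ)
  obtain ⟨M₀, hM, hs⟩ := h1.spn t d V hF hV.alb.ne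
  obtain ⟨B, N, P, hN, hT⟩ := h2 F t d S μ r V M₀ v (hk.mono hm) hq hF hV hv h0 hM
  exact ⟨P, h3 t d S _ N V M₀ B _ hk ((Nat.succ_pos _).trans_le hm) hN hF hV.alb.ne hs hT⟩

end Pool.Agent.MP_19ffc6_ag.Res.PF
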