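import Mathlib
import Pool.Agent.MP_19ffc6_ag.Res.FSpec
import Pool.Agent.MP_19ffc6_ag.Res.ABasic

/-! PROJECT RES, stage F, module CHG: goodness does not depend on the chart. -/

namespace Pool.Agent.MP_19ffc6_ag.Res.PF

open Pool.Agent.MP_19ffc6_ag.Wild Pool.Agent.MP_19ffc6_ag.Res.PA Submodule
  Pool.Agent.MP_19ffc6_ag.Res.PA.Num Pool.Agent.MP_19ffc6_ag.Res.PA.LocK

namespace Chg

variable {k K : Type} [Field k] [Field K] [Algebra k K] {m : ℕ}
  {R T T' X X' Y Y' Z P P' Q Q' E : Submodule k K}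

/-- `R` is a ring between `alg T` and its local ring at the point `T`. -/
structure Lc (R T : Submodule k K) : Prop where
  mul : R * R ≤ R
  le : alg T ≤ R
  den : ∀ x ∈ R, ∃ u ∈ alg T, u ∉ nn T ∧ u * x ∈ alg T

theorem Lc.one (h : Lc R T) : (1 : K) ∈ R := h.le (one_mem_alg T)

theorem Lc.refl (h : Lc R T) (X : Submodule k K) : X ≤ R * X := fun x hx => by
  simpa using mul_mem_mul h.one hx

theorem Lc.idem (h : Lc R T) (X : Submodule k K) : R * (R * X) ≤ R * X := by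
  rw [← mul_assoc]; exact mul_le_mul_left h.mul _

theorem Lc.up (h : Lc R T) (h1 : X ≤ R * Y) : R * X ≤ R * Y :=
  (mul_le_mul_right h1 _).trans (h.idem _)

theorem Lc.prod (h : Lc R T) (h1 : X ≤ R * Y) (h2 : X' ≤ R * Y') : X * X' ≤ R * (Y * Y') := by
  refine (mul_le_mul' h1 h2).trans ?_
  rw [mul_mul_mul_comm]
  exact mul_le_mul_left h.mul _

theorem Lc.pow (h : Lc R T) (h1 : X ≤ R * Y) (n : ℕ) : X ^ n ≤ R * Y ^ n := by
  induction n with
  | zero => rw [pow_zero, pow_zero]; exact h.refl _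
  | succ n ih => rw [pow_succ, pow_succ]; exact h.prod ih h1

theorem sup (h1 : X ≤ R * Y) (h2 : X' ≤ R * Y') : X ⊔ X' ≤ R * (Y ⊔ Y') := by
  rw [Submodule.mul_sup]; exact sup_le_sup h1 h2

theorem le_alg' (h : X ≤ R) : X ≤ R * alg T' := fun x hx => by
  simpa using mul_mem_mul (h hx) (one_mem_alg T')

theorem pr_le {r x y : K} (hr : r ∈ R) (e : x = r * y) : pr k x ≤ R * pr k y := by
  rw [pr, span_le, Set.singleton_subset_iff, e]
  exact mul_mem_mul hr (mem_span_singleton_self y)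

theorem Lc.pow_mem (h : Lc R T) {r : K} (hr : r ∈ R) (n : ℕ) : r ^ n ∈ R := by
  induction n with
  | zero => simpa using h.one
  | succ n ih => rw [pow_succ]; exact h.mul (mul_mem_mul ih hr)

theorem Lc.qq (h : Lc R T) {e : ℕ} {g g' : Fin e → K} {r : K} (hr : r ∈ R)
    (hg : ∀ i, g i = r * g' i) (a : ℕ) : qq k g a ≤ R * qq k g' a := by
  refine span_le.2 ?_
  rintro _ ⟨i, rfl⟩
  change g i ^ a ∈ _
  rw [hg, mul_pow]
  exact mul_mem_mul (h.pow_mem hr a) (subset_span ⟨i, rfl⟩)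

/-- Clearing denominators. -/
theorem Lc.clear (h : Lc R T) (hE : Md T E) {z : K} (hz : z ∈ R * E) :
    ∃ u ∈ alg T, u ∉ nn T ∧ u * z ∈ E := by
  refine Submodule.mul_induction_on hz (fun x hx y hy => ?_) ?_
  · obtain ⟨u, h1, h2, h3⟩ := h.den x hx
    exact ⟨u, h1, h2, by rw [← mul_assoc]; exact hE.mem h3 hy⟩
  · rintro x y ⟨u, h1, h2, h3⟩ ⟨v, g1, g2, g3⟩
    refine ⟨u * v, alg_mul h1 g1, mul_notMem_nn h1 g1 h2 g2, ?_⟩
    rw [show u * v * (x + y) = v * (u * x) + u * (v * y) by ring]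
    exact add_mem (hE.mem g1 h3) (hE.mem h1 g3)

/-- Contraction of an extended module. -/
theorem Lc.down (h : Lc R T) (hP : Md T P) (hE : Md T E) {L : ℕ} (hL : T ^ L * P ≤ E) {z : K}
    (hz : z ∈ P) (hz' : z ∈ R * E) : z ∈ E := by
  obtain ⟨u, h1, h2, h3⟩ := h.clear hE hz'
  obtain ⟨b, hb, h4⟩ := exists_inv h1 h2 L
  rw [show z = b * (u * z) - (u * b - 1) * z by ring]
  refine sub_mem (hE.mem hb h3) (hL ((?_ : T ^ L * alg T * P ≤ _) (mul_mem_mul h4 hz)))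
  rw [mul_assoc]; exact mul_le_mul_right hP _

/-- The extension of a module is generated by the module modulo every power of `T`. -/
theorem Lc.ext (h : Lc R T) (hP : Md T P) (L : ℕ) : R * P ≤ P ⊔ R * (T ^ L * P) := by
  refine mul_le.2 fun x hx y hy => ?_
  obtain ⟨u, h1, h2, h3⟩ := h.den x hx
  obtain ⟨b, hb, h4⟩ := exists_inv h1 h2 L
  rw [show x * y = b * (u * x) * y - x * ((u * b - 1) * y) by ring]
  refine sub_mem (mem_sup_left (hP.mem (alg_mul hb h3) hy)) (mem_sup_right (mul_mem_mul hx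
    ((?_ : T ^ L * alg T * P ≤ _) (mul_mem_mul h4 hy))))
  rw [mul_assoc]; exact mul_le_mul_right hP _

theorem sp_of (h : Lc R T) (h' : Lc R T') {n L L' : ℕ} {E' : Submodule k K} (hP : Md T P)
    (hP' : Md T' P') (hE' : Md T' E') (hL : T ^ L * P ≤ E) (hL' : T' ^ L' * P' ≤ E')
    (h1 : P' ≤ R * P) (h2 : E ≤ R * E') (hs : Sp n P E) : Sp n P' E' := by
  have h3 : Sp n (R * P) (R * E') := by
    obtain ⟨v, v1, v2⟩ := hs
    refine ⟨v, fun i => h.refl P (v1 i), (h.ext hP L).trans (sup_le (v2.trans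
      (sup_le_sup_left h2 _)) (le_sup_of_le_right (h.up (hL.trans h2))))⟩
  obtain ⟨h4, h5⟩ := h3.fd
  obtain ⟨h6, h7⟩ := cod_mono (P := P') (Q := E') h1
    (fun x hx hx' => h'.down hP' hE' hL' hx hx') h4
  exact sp_of_cod h6 (h7.trans h5)

theorem md_qq {e : ℕ} (g : Fin e → K) (a L : ℕ) (hP : Md T P) (hQ : Md T Q) :
    Md T (qq k g a * P ⊔ T ^ L * P ⊔ Q) := ((hP.mul _).sup (hP.mul _)).sup hQ

theorem ld_of (h : Lc R T) (h' : Lc R T') (hT : T ≤ R * T') {C e : ℕ} {g g' : Fin e → K} {r : K}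
    (hr : r ∈ R) (hg : ∀ i, g i = r * g' i) (hP : Md T P) (hP' : Md T' P') (hQ' : Md T' Q')
    (h1 : P' ≤ R * P) (h2 : P ≤ R * P') (h3 : Q ≤ R * Q') (H : Ld C T g P Q) :
    Ld C T' g' P' Q' := by
  obtain ⟨a, a0, H⟩ := H
  refine ⟨a, a0, fun L => sp_of h h' (L := L) (L' := L) hP hP' (md_qq g' a L hP' hQ')
    (le_sup_of_le_left le_sup_right) (le_sup_of_le_left le_sup_right) h1
    (sup (sup (h.prod (h.qq hr hg a) h2) (h.prod (h.pow hT L) h2)) h3) (H L)⟩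

theorem mb_le (h : Lc R T) {J J' : Submodule k K} (hJ : J ≤ R * J') (MM : Submodule k K) (b : ℕ) :
    Mb T J MM b ≤ R * Mb T' J' MM b :=
  h.prod (le_alg' h.le) (h.prod (h.refl MM) (h.pow hJ b))

theorem nn_le' (h : Lc R T) (hT : T ≤ R * T') : nn T ≤ R * nn T' := h.prod hT (le_alg' h.le)

theorem pow_one_le : T ^ 1 * alg T ≤ nn T := by rw [pow_one]; exact le_rfl

theorem nn_of (h : Lc R T) (h' : Lc R T') (hT : T ≤ R * T') {x x' r : K} (hr : r ∈ R)
    (e : x' = r * x) (hx' : x' ∈ alg T') (hx : x ∈ nn T) : x' ∈ nn T' :=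
  h'.down (md_alg T') (md_nn T') pow_one_le hx'
    (e ▸ h.idem _ (mul_mem_mul hr (nn_le' h hT hx)))

/-- A divisor that does not pass through the point. -/
theorem ld_far {C e : ℕ} {g : Fin e → K} {u : K} (hQ : Md T Q) (h1 : u ∈ alg T) (h2 : u ∉ nn T)
    (h3 : u ∈ Q) : Ld C T g (alg T) Q := by
  refine ⟨1, one_pos, fun L => sp_of_fintype (ι := Empty) Empty.elim (fun i => i.elim)
    (le_sup_of_le_right ((le_unit_mul (md_alg T) h1 h2 L).trans (sup_le (le_sup_of_le_right ?_)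
      (le_sup_of_le_left le_sup_right)))) (by simp)⟩
  intro x hx
  obtain ⟨y, hy, rfl⟩ := mem_pr_mul.1 hx
  rw [mul_comm]; exact hQ.mem hy h3

theorem one_far {u : K} (h1 : u ∈ alg T) (h2 : u ∉ nn T) (h3 : u ∈ Q) : (1 : K) ∈ nn T ⊔ Q := by
  obtain ⟨c, h0, hc⟩ := exists_cst_ne h1 h2
  have h4 := (nn T ⊔ Q).smul_mem c⁻¹ (sub_mem (mem_sup_right h3) (mem_sup_left hc))
  rwa [sub_sub_cancel, Algebra.algebraMap_eq_smul_one, inv_smul_smul₀ h0] at h4

variable {d : Fin (m + 1) → Derivation k K K}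

/-- Transfer of the conditions between two charts with the same local ring. -/
theorem at_of (h : Lc R T) (h' : Lc R T') (hT : T ≤ R * T') (hT' : T' ≤ R * T)
    (hJ : JJ d T ≤ R * JJ d T') (hJ' : JJ d T' ≤ R * JJ d T) {r r' : K} (hr : r ∈ R) (hr' : r' ∈ R)
    {s s' : Fin (m + 2) → K} (hs : ∀ j, s j ∈ alg T) (hs' : ∀ j, s' j ∈ alg T')
    (e : ∀ j, s j = r * s' j) (e' : ∀ j, s' j = r' * s j) {D D' : Set (DV k K)}
    (hD : ∀ w ∈ D', T' ≤ w.fil 0 ∧ (w ∈ D ∨ ∃ u ∈ alg T', u ∉ nn T' ∧ u ∈ w.fil 1)) {C : ℕ}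
    {M₀ : Submodule k K} (H : At d C D M₀ T s) : At d C D' M₀ T' s' := by
  have n1 : ∀ j, s' j ∉ nn T' → s j ∉ nn T := fun j a b => a (nn_of h h' hT hr' (e' j) (hs' j) b)
  have n2 : ∀ j, s' j ∈ nn T' → s j ∈ nn T := fun j a => nn_of h' h hT' hr (e j) (hs j) a
  have e2 : ∀ i j (c : k), s i - c • s j = r * (s' i - c • s' j) := fun i j c => by
    rw [e i, e j, mul_sub, mul_smul_comm]
  have n3 : ∀ i j (c : k), s' i - c • s' j ∈ nn T' → s i - c • s j ∈ nn T := fun i j c a =>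
    nn_of h' h hT' hr (e2 i j c) (sub_mem (hs i) (smul_mem _ c (hs j))) a
  have hW : pr k (Wr d s) ≤ R * pr k (Wr d s') := by
    refine pr_le (h.pow_mem hr (m + 2)) ?_
    rw [← wr_mul]; congr 1; funext j; exact e j
  refine ⟨?_, fun i₀ c a b => ?_, fun i₀ c a b => ?_, fun a => ?_⟩
  · obtain ⟨j, hj⟩ := H.bpf
    exact ⟨j, fun a => hj (n2 j a)⟩
  · obtain ⟨MM, β, g1, g2, g3⟩ := H.cx i₀ c (n1 _ a) fun i => n3 _ _ _ (b i)
    exact ⟨MM, β, g1, g2, ld_of h h' hT hr (fun i => e2 _ _ _) (md_Mb _ _ _ _) (md_Mb _ _ _ _)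
      md_bot (mb_le h' hJ' _ _) (mb_le h hJ _ _) bot_le g3⟩
  · obtain ⟨g1, g2⟩ := H.cw i₀ c (n1 _ a) fun i => n3 _ _ _ (b i)
    refine ⟨fun w hw => ?_, fun hm => ?_⟩
    · obtain ⟨w1, w2 | ⟨u, u1, u2, u3⟩⟩ := hD w hw
      · exact ld_of h h' hT hr (fun i => e2 _ _ _) (md_alg _) (md_alg _) (md_fil w1 1)
          (le_alg' h'.le) (le_alg' h.le) (h.refl _) (g1 w w2)
      · exact ld_far (md_fil w1 1) u1 u2 u3
    · obtain ⟨MM, β, g3, g4, g5⟩ := g2 hm
      exact ⟨MM, β, g3, g4, ld_of h h' hT hr (fun i => e2 _ _ _) (md_Mb _ _ _ _) (md_Mb _ _ _ _)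
        ((md_Mb _ _ _ _).mul _) (mb_le h' hJ' _ _) (mb_le h hJ _ _)
        (h.prod hW (mb_le h hJ _ _)) g5⟩
  · obtain ⟨g1, MM, g2, g3, g4⟩ := H.base fun i => n2 _ (a i)
    refine ⟨fun w hw => ?_, MM, g2, g3, fun x hx => ?_⟩
    · obtain ⟨w1, w2 | ⟨u, u1, u2, u3⟩⟩ := hD w hw
      · exact h'.down (md_alg T') ((md_nn T').sup (md_fil w1 1))
          (pow_one_le.trans le_sup_left) (one_mem_alg T')
          (sup (nn_le' h hT) (h.refl _) (g1 w w2))
      · exact one_far u1 u2 u3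
    · refine h'.down (L := 1) (md_Mb _ _ _ _) (((md_Mb _ _ _ _).mul _).sup ((md_Mb _ _ _ _).mul _))
        (by rw [pow_one]; exact le_sup_right) hx ?_
      exact h.up (g4.trans (sup (h.prod hW (mb_le h hJ _ _)) (h.prod hT (mb_le h hJ _ _))))
        (mb_le h' hJ' _ _ hx)

variable {V : Submodule k K} {σ σ' : K}

theorem sup_one_le_alg (T : Submodule k K) : 1 ⊔ T ≤ alg T := sup_le (one_le_alg T) (le_alg T)

theorem ratio_mem (h : Hyp V σ T) (h' : Hyp V σ' T') : σ' / σ ∈ alg T :=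
  sup_one_le_alg T (h.div_mem h'.mem)

theorem ratio_mul (h' : Hyp V σ' T') (e : pr k σ * T = pr k σ' * T') {t : K} (ht : t ∈ T) :
    σ / σ' * t ∈ T' := by
  obtain ⟨x, hx, e1⟩ := mem_pr_mul.1 (e.le (mem_pr_mul.2 ⟨t, ht, rfl⟩))
  have := h'.ne
  rwa [show σ / σ' * t = x by field_simp; exact e1.symm]

theorem ratio_notMem (h : Hyp V σ T) (h' : Hyp V σ' T') (e : pr k σ * T = pr k σ' * T')
    (h1 : (1 : K) ∉ nn T') : σ / σ' ∉ nn T' := by
  intro h2
  obtain ⟨a, ha, t, ht, e1⟩ := mem_sup.1 (h'.div_mem h.mem)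
  obtain ⟨c, rfl⟩ := mem_one.1 ha
  have h3 := sub_mem h2 (le_nn T' ht)
  rw [← e1, add_sub_cancel_right] at h3
  rw [cst_eq_zero h1 h3, map_zero, zero_add] at e1
  have h4 := ratio_mul h e.symm ht
  have := h.ne
  have := h'.ne
  rw [e1, show σ' / σ * (σ / σ') = 1 by field_simp] at h4
  exact h.one h4

theorem lc_of (h : Hyp V σ T) (h' : Hyp V σ' T') (e : pr k σ * T = pr k σ' * T')
    (h1 : (1 : K) ∉ nn T') : Lc (alg (T ⊔ T')) T' := by
  refine ⟨md_alg _, alg_mono le_sup_right, fun x hx => ?_⟩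
  induction hx using Algebra.adjoin_induction with
  | mem x hx =>
    obtain ⟨a, ha, b, hb, rfl⟩ := mem_sup.1 hx
    refine ⟨_, ratio_mem h' h, ratio_notMem h h' e h1, ?_⟩
    rw [mul_add]
    exact add_mem (le_alg _ (ratio_mul h' e ha)) (alg_mul (ratio_mem h' h) (le_alg _ hb))
  | algebraMap c => exact ⟨1, one_mem_alg _, h1, by rw [one_mul]; exact cst_mem_alg _ c⟩
  | add x y _ _ hx hy =>
    obtain ⟨u, u1, u2, u3⟩ := hx
    obtain ⟨v, v1, v2, v3⟩ := hy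
    refine ⟨u * v, alg_mul u1 v1, mul_notMem_nn u1 v1 u2 v2, ?_⟩
    rw [show u * v * (x + y) = v * (u * x) + u * (v * y) by ring]
    exact add_mem (alg_mul v1 u3) (alg_mul u1 v3)
  | mul x y _ _ hx hy =>
    obtain ⟨u, u1, u2, u3⟩ := hx
    obtain ⟨v, v1, v2, v3⟩ := hy
    refine ⟨u * v, alg_mul u1 v1, mul_notMem_nn u1 v1 u2 v2, ?_⟩
    rw [mul_mul_mul_comm]
    exact alg_mul u3 v3

theorem le_of (h : Hyp V σ T) (h' : Hyp V σ' T') (e : pr k σ * T = pr k σ' * T')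
    (hR : alg T ≤ R) : T ≤ R * T' := fun t ht => by
  have := h.ne
  have := h'.ne
  rw [show t = σ' / σ * (σ / σ' * t) by field_simp]
  exact mul_mem_mul (hR (ratio_mem h h')) (ratio_mul h' e ht)

theorem jj_le (h : Hyp V σ T) (h' : Hyp V σ' T') (hR : Lc R T) (hR' : alg T' ≤ R) :
    JJ d T ≤ R * JJ d T' := fun x hx => by
  have h1 := pow_mul_mem_WW (d := d) h.mem (fun t ht => h.mul_mem ht) hx
  have h2 := div_pow_mem' (d := d) (T := T') h'.ne (fun v hv => sup_comm 1 T' ▸ h'.div_mem hv) h1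
  have := h.ne
  have := h'.ne
  rw [show x = (σ' / σ) ^ (m + 2) * (σ ^ (m + 2) * x / σ' ^ (m + 2)) by
    rw [div_pow]; field_simp]
  refine hR.idem _ (mul_mem_mul (hR.pow_mem (hR.le (ratio_mem h h')) _) ?_)
  exact mul_le_mul_left ((sup_comm T' 1).le.trans ((sup_one_le_alg T').trans hR')) _ h2

end Chg

open Chg in
theorem chg {k K : Type} [Field k] [Field K] [Algebra k K] {m : ℕ} : ChgStmt k K m := by
  intro d S C N V M₀ T T' σ σ' s hV h h' e h1 hs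
  have l' := lc_of h h' e h1
  have a : alg T ≤ alg (T ⊔ T') := alg_mono le_sup_left
  have t1 := le_of h h' e a
  have t2 := le_of h' h e.symm l'.le
  have h0 : (1 : K) ∉ nn T := fun h2 => h1 (l'.down (md_alg T') (md_nn T') pow_one_le
    (one_mem_alg T') (l'.prod t1 (le_alg' a) h2))
  have l : Lc (alg (T ⊔ T')) T := sup_comm T' T ▸ lc_of h' h e.symm h0
  have := h.ne
  have := h'.ne
  refine ⟨h0, at_of l l' t1 t2 (jj_le h h' l l'.le) (jj_le h' h l' a)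
    (l.pow_mem (a (ratio_mem h h')) N) (l.pow_mem (l'.le (ratio_mem h' h)) N)
    (fun j => h.div_pow_mem N (hs j)) (fun j => h'.div_pow_mem N (hs j))
    (fun j => by rw [div_pow]; field_simp) (fun j => by rw [div_pow]; field_simp)
    fun w hw => ⟨h'.le_fil hV hw.2, ?_⟩⟩
  by_cases h2 : w.ord σ = w.ordS V
  · exact Or.inl ⟨hw.1, h.mem, h.ne, h2⟩
  refine Or.inr ⟨_, ratio_mem h' h, ratio_notMem h h' e h1, Or.inr ?_⟩
  have h3 := (St.le_fil_ordS w hV h.mem).resolve_left h.ne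
  rw [St.ord_div w h.ne h'.ne, hw.2.2.2]
  omega

end Pool.Agent.MP_19ffc6_ag.Res.PF
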