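import Pool.Agent.MP_19ffc6_ag.Res.ASpec
import Pool.Agent.MP_19ffc6_ag.Res.Codim

/-! PROJECT RES, part A, module FINW: horizontal divisors. -/

namespace Pool.Agent.MP_19ffc6_ag.Res.PA

open Submodule

namespace FW

variable {k K : Type} [Field k] [Field K] [Algebra k K] {m : ℕ} {w : DV k K} {x y σ : K}
  {a b : ℤ} {P Q T U V : Submodule k K}

theorem mem_fil : x ∈ w.fil a ↔ x = 0 ∨ a ≤ w.ord x := Iff.rfl

theorem ord_one (w : DV k K) : w.ord 1 = 0 := by simpa using w.cst 1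

theorem ord_inv (w : DV k K) (x : K) : w.ord x⁻¹ = - w.ord x := by
  by_cases h : x = 0
  · simp [h, w.zero]
  have := w.mul x x⁻¹ h (inv_ne_zero h)
  rw [mul_inv_cancel₀ h, ord_one] at this
  omega

theorem ord_div (hx : x ≠ 0) (hy : y ≠ 0) : w.ord (x / y) = w.ord x - w.ord y := by
  rw [div_eq_mul_inv, w.mul _ _ hx (inv_ne_zero hy), ord_inv]; ring

theorem ord_pow (hx : x ≠ 0) (n : ℕ) : w.ord (x ^ n) = n * w.ord x := by
  induction n with
  | zero => simp [ord_one]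
  | succ n ih => rw [pow_succ, w.mul _ _ (pow_ne_zero _ hx) hx, ih]; push_cast; ring

theorem self_mem (x : K) : x ∈ w.fil (w.ord x) := Or.inr le_rfl

theorem fil_anti (h : a ≤ b) : w.fil b ≤ w.fil a := fun _ hx => hx.imp_right h.trans

theorem one_mem : (1 : K) ∈ w.fil 0 := Or.inr (ord_one w).ge

theorem not_mem (hx : x ≠ 0) (h : w.ord x = 0) : x ∉ w.fil 1 := by
  rintro (h1 | h1)
  · exact hx h1
  · omega

theorem one_not_mem : (1 : K) ∉ w.fil 1 := not_mem one_ne_zero (ord_one w)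

theorem unit (h0 : x ∈ w.fil 0) (h1 : x ∉ w.fil 1) : x ≠ 0 ∧ w.ord x = 0 := by
  rw [mem_fil, not_or] at h1
  have := h0.resolve_left h1.1
  exact ⟨h1.1, by omega⟩

theorem cancel (hx : x ≠ 0) (h0 : w.ord x = 0) (h : x * y ∈ w.fil a) : y ∈ w.fil a := by
  have := DV.mul_fil (self_mem (w := w) x⁻¹) h
  rwa [inv_mul_cancel_left₀ hx, ord_inv, h0, neg_zero, zero_add] at this

theorem mul01 (hx : x ∈ w.fil 0) (hy : y ∈ w.fil a) : x * y ∈ w.fil a := by
  simpa using DV.mul_fil hx hy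

theorem mul_le (hP : P ≤ w.fil a) (hQ : Q ≤ w.fil b) : P * Q ≤ w.fil (a + b) :=
  Submodule.mul_le.2 fun _ hx _ hy => DV.mul_fil (hP hx) (hQ hy)

theorem mul_le0 (hP : P ≤ w.fil 0) (hQ : Q ≤ w.fil b) : P * Q ≤ w.fil b := by
  simpa using mul_le hP hQ

theorem pow_le (hP : P ≤ w.fil a) (n : ℕ) : P ^ n ≤ w.fil (n * a) := by
  induction n with
  | zero => simpa [Submodule.one_le] using one_mem
  | succ n ih =>
    rw [pow_succ]
    refine (mul_le ih hP).trans (le_of_eq ?_)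
    push_cast; ring_nf

theorem pr_le (h : x ∈ P) : pr k x ≤ P := span_le.2 (Set.singleton_subset_iff.2 h)

theorem mem_pr (x : K) : x ∈ pr k x := mem_span_singleton_self x

theorem le_alg (T : Submodule k K) : T ≤ alg T := fun _ h => Algebra.subset_adjoin h

theorem alg_le (h : T ≤ w.fil 0) : alg T ≤ w.fil 0 :=
  fun _ hx => (Algebra.adjoin_le (S := w.vr) h) hx

theorem alg_mul (T : Submodule k K) : alg T * alg T ≤ alg T :=
  Submodule.mul_le.2 fun _ hx _ hy => Subalgebra.mul_mem _ hx hy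

theorem nn_le (T : Submodule k K) : nn T ≤ alg T :=
  (mul_le_mul_left (le_alg T) _).trans (alg_mul T)

theorem mul_mem_nn (hx : x ∈ alg T) (hy : y ∈ nn T) : x * y ∈ nn T := by
  have h : alg T * nn T ≤ nn T := by
    rw [nn, mul_left_comm]; exact mul_le_mul_right (alg_mul T) _
  exact h (mul_mem_mul hx hy)

theorem exists_min {B : Finset K} (hB : ∀ σ ∈ B, σ ≠ 0) (h : span k (B : Set K) ≠ ⊥) :
    ∃ σ ∈ B, w.Min (span k (B : Set K)) σ ∧ span k (B : Set K) ≤ w.fil (w.ord σ) := by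
  have hne : B.Nonempty := by
    rw [Finset.nonempty_iff_ne_empty]; rintro rfl; simp at h
  obtain ⟨σ, h1, h2⟩ := B.exists_min_image w.ord hne
  have h3 : span k (B : Set K) ≤ w.fil (w.ord σ) := span_le.2 fun x hx => Or.inr (h2 x hx)
  refine ⟨σ, h1, ⟨subset_span h1, hB σ h1, (IsLeast.csInf_eq ?_).symm⟩, h3⟩
  refine ⟨⟨σ, ⟨subset_span h1, hB σ h1⟩, rfl⟩, ?_⟩
  rintro _ ⟨x, hx, rfl⟩
  exact (h3 hx.1).resolve_left hx.2

theorem exists_min' (hV : V.FG) (h : V ≠ ⊥) : ∃ σ, w.Min V σ ∧ V ≤ w.fil (w.ord σ) := by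
  classical
  obtain ⟨B, rfl⟩ := hV
  have e : span k ((B.erase 0 : Finset K) : Set K) = span k (B : Set K) := by
    rw [Finset.coe_erase, span_sdiff_singleton_zero]
  rw [← e] at h ⊢
  obtain ⟨σ, -, h1⟩ := exists_min (w := w) (fun _ hx => Finset.ne_of_mem_erase hx) h
  exact ⟨σ, h1⟩

theorem min_le (hV : V.FG) (h : w.Min V σ) : V ≤ w.fil (w.ord σ) := by
  obtain ⟨σ', h1, h2⟩ := exists_min' (w := w) hV fun e => h.2.1 (by simpa [e] using h.1)
  rwa [h.2.2, ← h1.2.2]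

theorem div_mem0 (h : x ∈ w.fil (w.ord σ)) : x / σ ∈ w.fil 0 := by
  have := DV.mul_fil h (self_mem (w := w) σ⁻¹)
  rwa [ord_inv, add_neg_cancel, ← div_eq_mul_inv] at this

theorem div_pow_mem {A : Subalgebra k K} (h : ∀ v ∈ V, v / σ ∈ A) (n : ℕ) :
    ∀ x ∈ V ^ n, x / σ ^ n ∈ A := by
  induction n with
  | zero =>
    intro x hx
    rw [pow_zero, mem_one] at hx
    obtain ⟨c, rfl⟩ := hx
    simp
  | succ n ih =>
    intro x hx
    rw [pow_succ] at hx
    refine Submodule.mul_induction_on hx (fun a ha b hb => ?_) fun a b ha hb => ?_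
    · rw [pow_succ, ← div_mul_div_comm]; exact A.mul_mem (ih a ha) (h b hb)
    · rw [add_div]; exact A.add_mem ha hb

theorem hyp_div (h : Hyp V σ T) (hx : x ∈ V) : x / σ ∈ T ⊔ 1 := by
  rw [h.eq, Num.mem_pr_mul] at hx
  obtain ⟨y, hy, rfl⟩ := hx
  rwa [mul_div_cancel_left₀ _ h.ne, sup_comm]

theorem sup_le_alg (T : Submodule k K) : T ⊔ 1 ≤ alg T :=
  sup_le (le_alg T) (Submodule.one_le.2 (Num.one_mem_alg T))

theorem hyp_pow (h : Hyp V σ T) {n : ℕ} (hx : x ∈ V ^ n) : x / σ ^ n ∈ alg T :=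
  div_pow_mem (A := Algebra.adjoin k (T : Set K)) (fun _ hv => sup_le_alg T (hyp_div h hv)) n x hx

theorem hyp_le (hV : V.FG) (h : Hyp V σ T) (hm : w.Min V σ) : T ≤ w.fil 0 := fun t ht => by
  have h1 : σ * t ∈ V := h.le (mul_mem_mul (mem_pr σ) ht)
  simpa [h.ne] using div_mem0 (min_le hV hm h1)

/-- A rational point on the centre of `w`. -/
theorem exists_hyp [IsAlgClosed k] (hV : V.FG) (hm : w.Min V σ) :
    ∃ T, Hyp V σ T ∧ (1 : K) ∉ nn T ∧ ∀ x ∈ alg T, x ∈ w.fil 1 → x ∈ nn T := by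
  obtain ⟨U, hU⟩ : ∃ U, U = pr k σ⁻¹ * V := ⟨_, rfl⟩
  have hσ := hm.2.1
  have h1 : U.FG := hU ▸ (fg_span_singleton _).mul hV
  have h2 : U ≤ w.fil 0 := by
    have := mul_le (pr_le (self_mem (w := w) σ⁻¹)) (min_le hV hm)
    rwa [ord_inv, neg_add_cancel, ← hU] at this
  have h3 : (1 : K) ∈ U := by
    rw [hU, ← inv_mul_cancel₀ hσ]; exact mul_mem_mul (mem_pr _) hm.1
  let A := Algebra.adjoin k (U : Set K)
  have hA : ∀ a : A, (a : K) ∈ w.fil 0 := fun a => alg_le h2 a.2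
  have : Algebra.FiniteType k A := by
    obtain ⟨B, hB⟩ := h1
    refine (Subalgebra.fg_iff_finiteType _).1 ⟨B, ?_⟩
    simp only [A, ← hB, Algebra.adjoin_span]
  let I : Ideal A :=
    { carrier := {a | (a : K) ∈ w.fil 1}
      zero_mem' := zero_mem (w.fil 1)
      add_mem' := fun ha hb => (w.fil 1).add_mem ha hb
      smul_mem' := fun c _ ha => mul01 (hA c) ha }
  obtain ⟨y, hy⟩ := Codim.exists_pt (k := k) I ((Ideal.ne_top_iff_one I).2 one_not_mem)
  let N : Submodule k K := (LinearMap.ker y.toLinearMap).map A.val.toLinearMap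
  have hN : ∀ a : A, (a : K) ∈ N ↔ y a = 0 := fun a =>
    ⟨fun ⟨b, hb, e⟩ => (Subtype.ext e : b = a) ▸ hb, fun h => ⟨a, h, rfl⟩⟩
  have h4 : U = 1 ⊔ (U ⊓ N) := by
    refine le_antisymm (fun u hu => ?_) (sup_le (Submodule.one_le.2 h3) inf_le_left)
    let u' : A := ⟨u, Algebra.subset_adjoin hu⟩
    have h5 : u - algebraMap k K (y u') ∈ U ⊓ N :=
      ⟨sub_mem hu (Submodule.one_le.2 h3 (algebraMap_mem _)),
        (hN (u' - algebraMap k A (y u'))).2 (by simp)⟩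
    simpa using add_mem (mem_sup_left (algebraMap_mem (y u'))) (mem_sup_right h5)
  have h5 : alg (U ⊓ N) ≤ alg U := fun _ hx => Algebra.adjoin_mono (fun _ h => h.1) hx
  have h6 : nn (U ⊓ N) ≤ N := Submodule.mul_le.2 fun a ha b hb =>
    (hN (⟨a, le_alg U ha.1⟩ * ⟨b, h5 hb⟩)).2 (by rw [map_mul, (hN ⟨a, le_alg U ha.1⟩).1 ha.2, zero_mul])
  have h7 : (1 : K) ∉ N := fun h => one_ne_zero ((map_one y).symm.trans ((hN 1).1 h))
  refine ⟨U ⊓ N, ⟨hσ, ?_, fun h => h7 h.2⟩, fun h => h7 (h6 h), fun x hx hx1 => ?_⟩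
  · rw [← h4, hU, ← mul_assoc, pr, pr, span_mul_span, Set.singleton_mul_singleton,
      mul_inv_cancel₀ hσ, ← one_eq_span, one_mul]
  · obtain ⟨_, hc, n, hn, rfl⟩ := mem_sup.1 (Num.alg_le _ hx)
    obtain ⟨c, rfl⟩ := mem_one.1 hc
    have h8 : y (algebraMap k A c + ⟨n, h5 (nn_le _ hn)⟩) = 0 := hy _ hx1
    rw [map_add, (hN ⟨n, h5 (nn_le _ hn)⟩).1 (h6 hn), add_zero, AlgHom.commutes] at h8
    have h9 : c = 0 := h8
    rw [h9, map_zero, zero_add]
    exact hn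

/-- The residue field. -/
theorem exists_res (w : DV k K) : ∃ (κ : Type) (_ : Field κ) (_ : Algebra k κ)
    (r : w.vr →ₐ[k] κ), ∀ a, r a = 0 ↔ (a : K) ∈ w.fil 1 := by
  let I : Ideal w.vr :=
    { carrier := {a | (a : K) ∈ w.fil 1}
      zero_mem' := zero_mem (w.fil 1)
      add_mem' := fun ha hb => (w.fil 1).add_mem ha hb
      smul_mem' := fun c _ ha => mul01 c.2 ha }
  have : I.IsPrime := ⟨(Ideal.ne_top_iff_one I).2 one_not_mem, fun {a b} h => by
    by_cases ha : (a : K) ∈ w.fil 1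
    · exact Or.inl ha
    · exact Or.inr (cancel (unit a.2 ha).1 (unit a.2 ha).2 h)⟩
  refine ⟨FractionRing (w.vr ⧸ I), inferInstance, inferInstance,
    (IsScalarTower.toAlgHom k (w.vr ⧸ I) _).comp (Ideal.Quotient.mkₐ k I), fun a => ?_⟩
  rw [AlgHom.comp_apply, IsScalarTower.toAlgHom_apply,
    map_eq_zero_iff _ (IsFractionRing.injective _ _)]
  exact Ideal.Quotient.eq_zero_iff_mem

theorem ind_iff {κ : Type} [Field κ] [Algebra k κ] {r : w.vr →ₐ[k] κ}
    (hr : ∀ a, r a = 0 ↔ (a : K) ∈ w.fil 1) {ι : Type} (g : ι → w.vr) :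
    w.Ind (fun i => (g i : K)) ↔ AlgebraicIndependent k fun i => r (g i) := by
  rw [algebraicIndependent_iff]
  refine forall_congr' fun P => imp_congr_left ?_
  have h1 := MvPolynomial.comp_aeval_apply (f := g) w.vr.val P
  have h2 := MvPolynomial.comp_aeval_apply (f := g) r P
  rw [← h2, hr]
  exact Iff.of_eq (congrArg (· ∈ w.fil 1) h1.symm)

open AlgebraicIndependent in
/-- Independent residues can be chosen among the generators. -/
theorem exists_ind (hU : U ≤ w.fil 0) {g : Fin m → K} (hg : ∀ i, g i ∈ w.fil 0) (hi : w.Ind g)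
    (hx : x ∈ alg U) (h1 : x ∉ w.fil 1) (h2 : ∀ i, x * g i ∈ alg U) :
    ∃ u : Fin m → K, (∀ i, u i ∈ U) ∧ w.Ind u := by
  obtain ⟨κ, _, _, r, hr⟩ := exists_res w
  have h3 := (ind_iff hr fun i => ⟨g i, hg i⟩).1 hi
  let X : Set κ := r '' {a | (a : K) ∈ U}
  have h4 : ∀ a : w.vr, (a : K) ∈ alg U → r a ∈ Algebra.adjoin k X := by
    rintro ⟨a, ha⟩ h
    change a ∈ Algebra.adjoin k (U : Set K) at h
    induction h using Algebra.adjoin_induction with
    | mem a h => exact Algebra.subset_adjoin ⟨_, h, rfl⟩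
    | algebraMap c => exact (r.commutes c).symm ▸ Subalgebra.algebraMap_mem _ c
    | add a b h h' ih ih' =>
      exact (map_add r ⟨a, alg_le hU h⟩ ⟨b, alg_le hU h'⟩).symm ▸ add_mem (ih _) (ih' _)
    | mul a b h h' ih ih' =>
      exact (map_mul r ⟨a, alg_le hU h⟩ ⟨b, alg_le hU h'⟩).symm ▸ mul_mem (ih _) (ih' _)
  have h5 : (Set.range fun i => r ⟨g i, hg i⟩) ⊆ (matroid k κ).closure X := by
    rintro _ ⟨i, rfl⟩
    rw [matroid_closure_eq, SetLike.mem_coe, Subalgebra.mem_algebraicClosure]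
    let x' : w.vr := ⟨x, alg_le hU hx⟩
    refine IsAlgebraic.of_smul (y := ⟨r x', h4 x' hx⟩) (mem_nonZeroDivisors_of_ne_zero fun e =>
      h1 ((hr x').1 (congrArg Subtype.val e))) ?_
    have h := isAlgebraic_algebraMap (R := Algebra.adjoin k X) (A := κ)
      ⟨r (x' * ⟨g i, hg i⟩), h4 _ (h2 i)⟩
    change IsAlgebraic _ (r (x' * ⟨g i, hg i⟩)) at h
    rw [map_mul] at h
    exact h
  have h6 := h3.injective.encard_range.trans (Matroid.Indep.encard_le_eRk_of_subset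
    (M := matroid k κ) (matroid_indep_iff.2 h3.to_subtype_range) h5)
  rw [Matroid.eRk_closure_eq, Matroid.le_eRk_iff] at h6
  obtain ⟨J, h7, h8, h9⟩ := h6
  have h10 : J.Finite := Set.finite_of_encard_eq_coe (k := m) (by simpa using h9)
  have := h10.fintype
  have h11 : Fintype.card J = m := by
    rw [Set.encard, ENat.card_eq_coe_fintype_card, ENat.card_eq_coe_fintype_card,
      Fintype.card_fin] at h9
    exact_mod_cast h9
  let e := (Fintype.equivFinOfCardEq h11).symm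
  choose u hu hu' using fun i => h7 (e i).2
  refine ⟨fun i => u i, hu, (ind_iff hr u).2 ?_⟩
  simp only [hu']
  exact (matroid_indep_iff.1 h8).comp e e.injective

theorem pr_mul_pr (x y : K) : pr k x * pr k y = pr k (x * y) := by
  rw [pr, pr, span_mul_span, Set.singleton_mul_singleton, pr]

theorem sp_scale {ρ : ℕ} (h : Sp ρ P Q) (x : K) : Sp ρ (pr k x * P) (pr k x * Q) := by
  obtain ⟨e, h1, h2⟩ := h
  refine ⟨fun i => x * e i, fun i => mul_mem_mul (mem_pr x) (h1 i), ?_⟩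
  refine (mul_le_mul_right h2 _).trans ?_
  rw [Submodule.mul_sup, pr, span_mul_span]
  refine sup_le_sup_right (span_mono ?_) _
  rintro _ ⟨_, rfl, _, ⟨i, rfl⟩, rfl⟩
  exact ⟨i, rfl⟩

theorem ld_scale {C e : ℕ} {g : Fin e → K} (h : Ld C T g P Q) (x : K) (hQ : pr k x * Q ≤ U) :
    Ld C T g (pr k x * P) U := by
  obtain ⟨a, h1, h2⟩ := h
  refine ⟨a, h1, fun L => ?_⟩
  obtain ⟨e, h3, h4⟩ := sp_scale (h2 L) x
  refine ⟨e, h3, h4.trans (sup_le_sup_left ?_ _)⟩
  rw [Submodule.mul_sup, Submodule.mul_sup, mul_left_comm, mul_left_comm _ (T ^ L)]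
  exact sup_le_sup_left hQ _

/-- Nakayama's lemma in the residue field. -/
theorem nak {X : Submodule k K} (hT : T ≤ w.fil 0) (hX : X.FG) (h0 : X ≤ w.fil 0)
    (h1 : ¬ X ≤ w.fil 1) (h : alg T * X ≤ w.fil 1 ⊔ T * (alg T * X)) :
    (1 : K) ∈ nn T ⊔ w.fil 1 := by
  let A := Algebra.adjoin k (T : Set K)
  let I : Ideal A :=
    { carrier := {a | (a : K) ∈ nn T}
      zero_mem' := zero_mem (nn T)
      add_mem' := fun ha hb => (nn T).add_mem ha hb
      smul_mem' := fun c _ ha => mul_mem_nn c.2 ha }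
  let F : Submodule A K :=
    { carrier := w.fil 1
      zero_mem' := zero_mem (w.fil 1)
      add_mem' := fun ha hb => (w.fil 1).add_mem ha hb
      smul_mem' := fun c _ ha => mul01 (alg_le hT c.2) ha }
  let Y : Submodule A K :=
    { carrier := (alg T * X : Submodule k K)
      zero_mem' := zero_mem (alg T * X)
      add_mem' := fun ha hb => (alg T * X).add_mem ha hb
      smul_mem' := fun c _ ha => mul_mem_alg (A := A) c.2 ha }
  have hm : ∀ x, x ∈ Y ↔ x ∈ alg T * X := fun _ => Iff.rfl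
  have hX' : ∀ x ∈ X, x ∈ Y := fun x hx =>
    (hm x).2 (by simpa using mul_mem_mul (Num.one_mem_alg T) hx)
  have hY : Y = span A (X : Set K) := by
    refine le_antisymm (fun y hy => ?_) (span_le.2 hX')
    exact Submodule.mul_induction_on ((hm y).1 hy)
      (fun a ha x hx => smul_mem (span A (X : Set K)) (⟨a, ha⟩ : A) (subset_span hx))
      fun _ _ => add_mem
  have hfg : Y.FG := by
    obtain ⟨B, rfl⟩ := hX
    exact ⟨B, by rw [hY, span_span_of_tower]⟩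
  have hle : Y ≤ F ⊔ I • Y := fun y hy => by
    obtain ⟨f, hf, z, hz, rfl⟩ := mem_sup.1 (h ((hm y).1 hy))
    refine add_mem (mem_sup_left hf) (mem_sup_right ?_)
    refine Submodule.mul_induction_on hz (fun t ht x hx => ?_) fun _ _ => add_mem
    exact smul_mem_smul (r := (⟨t, le_alg T ht⟩ : A))
      (show t ∈ nn T by simpa [nn] using mul_mem_mul ht (Num.one_mem_alg T)) ((hm x).2 hx)
  obtain ⟨r, hr, hr'⟩ := exists_sub_one_mem_and_smul_le_of_fg_of_le_sup hfg le_rfl hle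
  obtain ⟨x, hx, hx1⟩ := SetLike.not_le_iff_exists.1 h1
  have h2 : x * (r : K) ∈ w.fil 1 := by
    rw [mul_comm]
    exact hr' (smul_mem_pointwise_smul x r Y (hX' x hx))
  have h3 := cancel (unit (h0 hx) hx1).1 (unit (h0 hx) hx1).2 h2
  have h4 : (r : K) - 1 ∈ nn T := hr
  simpa using sub_mem (mem_sup_right h3) (mem_sup_left h4)

/-- Normalization of the polar modules along `w`. -/
theorem polar {J MM : Submodule k K} (hT : T ≤ w.fil 0) (hJ : J.FG) (hM : MM.FG) (h0 : MM ≠ ⊥)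
    (h1 : J ≤ w.fil (w.ord y)) (h2 : ¬ J ≤ w.fil (w.ord y + 1))
    (hx : x ∈ w.fil (w.ord y + 1)) (b : ℕ) :
    ∃ (c : K) (X : Submodule k K), X.FG ∧ X ≤ w.fil 0 ∧ ¬ X ≤ w.fil 1 ∧
      pr k c * Mb T J MM (b + 1) = alg T * X ∧ pr k c * (pr k x * Mb T J MM b) ≤ w.fil 1 := by
  obtain ⟨h, h3, h4⟩ := exists_min' (w := w) hM h0
  obtain ⟨j, h5, h6⟩ := SetLike.not_le_iff_exists.1 h2
  rw [mem_fil, not_or] at h6
  have h7 : w.ord j = w.ord y := by have := (h1 h5).resolve_left h6.1; omega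
  have h8 : h * j ^ (b + 1) ≠ 0 := mul_ne_zero h3.2.1 (pow_ne_zero _ h6.1)
  have h9 : w.ord (h * j ^ (b + 1))⁻¹ = -(w.ord h + (b + 1 : ℕ) * w.ord y) := by
    rw [ord_inv, w.mul _ _ h3.2.1 (pow_ne_zero _ h6.1), ord_pow h6.1, h7]
  have h10 := pr_le (self_mem (w := w) (h * j ^ (b + 1))⁻¹)
  rw [h9] at h10
  refine ⟨(h * j ^ (b + 1))⁻¹, pr k (h * j ^ (b + 1))⁻¹ * (MM * J ^ (b + 1)),
    (fg_span_singleton _).mul (hM.mul (hJ.pow _)), ?_, fun e => one_not_mem (w := w) (e ?_),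
    mul_left_comm _ _ _, ?_⟩
  · simpa using mul_le h10 (mul_le h4 (pow_le h1 (b + 1)))
  · rw [← inv_mul_cancel₀ h8]
    exact mul_mem_mul (mem_pr _) (mul_mem_mul h3.1 (pow_mem_pow _ h5 _))
  · refine (mul_le h10 (mul_le (pr_le hx) (mul_le0 (alg_le hT)
      (mul_le h4 (pow_le h1 b))))).trans (fil_anti (le_of_eq ?_))
    push_cast; ring

theorem wr_crd {d : Fin (m + 1) → Derivation k K K} {s : Fin (m + 2) → K} (h : s 0 ≠ 0) :
    Wr d s = s 0 ^ (m + 2) * Jac d (crd s) := by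
  conv_lhs => rw [← Fin.cons_self_tail s]
  exact wr_cons_div h _

theorem ne_zero {d : Fin (m + 1) → Derivation k K K} {s : Fin (m + 2) → K} (h : Wr d s ≠ 0) :
    s 0 ≠ 0 := fun e => h ((wrA_apply s).symm.trans ((wrA d).map_coord_zero 0 e))

/-- Dimension one. -/
theorem alt_zero [IsAlgClosed k] {C : ℕ} (hC : 0 < C) {g : Fin (0 + 1) → K}
    (hg : ∀ i, g i ∈ w.fil 0) (h : ¬ w.Ind g) : Alt C w g := by
  obtain ⟨κ, _, _, r, hr⟩ := exists_res w
  have h1 := (ind_iff hr fun i => ⟨g i, hg i⟩).not.1 h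
  let _ : Unique (Fin (0 + 1)) := ⟨⟨0⟩, fun i => Fin.ext (by omega)⟩
  rw [algebraicIndependent_unique_type_iff, Transcendental, not_not] at h1
  obtain ⟨c, hc⟩ := minpoly.mem_range_of_degree_eq_one k _
    (IsAlgClosed.degree_eq_one_of_irreducible k (minpoly.irreducible h1.isIntegral))
  refine ⟨k, inferInstance, inferInstance, Fin.elim0, c, ⟨algebraicIndependent_empty_type, ?_, ?_,
    fun N _ _ O _ Φ _ _ => (Finset.card_le_one.2 fun a _ b _ => Subsingleton.elim a b).trans hC⟩,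
    fun P hP => ?_⟩
  · exact Module.Finite.right k _ k
  · exact Algebra.isSeparable_tower_top_of_isSeparable k _ k
  · have h2 := MvPolynomial.comp_aeval_apply (f := fun i => (⟨g i, hg i⟩ : w.vr)) w.vr.val P
    have h3 := MvPolynomial.comp_aeval_apply (f := fun i => (⟨g i, hg i⟩ : w.vr)) r P
    have h4 := MvPolynomial.comp_aeval_apply
      (f := (Fin.snoc (Fin.elim0 : Fin 0 → k) c : Fin (0 + 1) → k)) (Algebra.ofId k κ) P
    rw [hP, map_zero] at h4
    have h5 : (fun i => r ⟨g i, hg i⟩) =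
        fun i => Algebra.ofId k κ ((Fin.snoc (Fin.elim0 : Fin 0 → k) c : Fin (0 + 1) → k) i) := by
      funext i
      obtain rfl : i = 0 := Fin.ext (by omega)
      exact hc.symm
    rw [h5, ← h4, hr] at h3
    exact h2 ▸ h3

end FW

open FW in
theorem finW_of {k K : Type} [Field k] [Field K] [Algebra k K] {m : ℕ} [IsAlgClosed k]
    (h1 : ResiStmt k K m) (h2 : UniStmt k K m) : FinWStmt k K m := by
  intro t d S C V M₀ B s w hk hC hF hT hs hi
  rcases Nat.eq_zero_or_pos m with rfl | hm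
  · exact Or.inr (alt_zero hC hs (h2 t _ d w hF hs).1)
  have hs0 := ne_zero hT.wr
  have hV : V.FG := ⟨B, hT.span⟩
  obtain ⟨σ₁, hB, hσ₁, -⟩ := exists_min (w := w) hT.ne fun e => hs0 (by
    have := hT.mem 0
    rwa [← hT.span, e, ← Submodule.zero_eq_bot, zero_pow (Nat.succ_ne_zero _),
      Submodule.zero_eq_bot, mem_bot] at this)
  rw [hT.span] at hσ₁
  have hsucc : ∀ (i : Fin (m + 1)) (x : K), s i.succ / x = s 0 / x * crd s i := fun i x => by
    rw [crd]; field_simp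
  obtain ⟨T₁, hH, hn, hc⟩ := exists_hyp hV hσ₁
  have hu : s 0 / σ₁ ^ (m + 2) ∉ w.fil 1 := fun e => by
    obtain ⟨j, hj⟩ := (hT.pt σ₁ hB T₁ hH hn).bpf
    refine hj (hc _ (hyp_pow hH (hT.mem j)) ?_)
    refine Fin.cases e (fun i => ?_) j
    rw [hsucc, mul_comm]
    exact mul01 (hs i) e
  have hT₁ := hyp_le hV hH hσ₁
  have hord : w.ord (s 0) = (m + 2 : ℕ) * w.ordS V := by
    have := (unit (alg_le hT₁ (hyp_pow hH (hT.mem 0))) hu).2
    rw [ord_div hs0 (pow_ne_zero _ hH.ne), ord_pow hH.ne, hσ₁.2.2] at this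
    omega
  have hP : Prm m V w := by
    obtain ⟨u, h3, h4⟩ := exists_ind hT₁ (fun i => hs i.castSucc) hi (hyp_pow hH (hT.mem 0)) hu
      fun i => hsucc i.castSucc _ ▸ hyp_pow hH (hT.mem _)
    exact ⟨σ₁, hσ₁, u, fun i => hH.le (mul_mem_mul (mem_pr _) (h3 i)), h4⟩
  have key := h1 C V B s w hk hT.span hT.ne hT.mem hs0 hord hi fun g hg => (h2 t g d w hF hg).1
  by_cases hD : w ∈ DD d S V
  · refine Or.inr (key fun σ hσ hmin T hH hn => ?_)
    have hA := hT.pt σ hσ T hH fun e => hn (mem_sup_left e)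
    refine ⟨by_contra fun e => hn ((hA.base (by simpa using e)).1 w ⟨hD, hmin⟩),
      fun i₀ c h3 h4 => ⟨1, ?_, Submodule.one_le.2 one_mem,
        fun e => one_not_mem (Submodule.one_le.1 e), ?_⟩⟩
    · rw [one_eq_span]; exact fg_span_singleton _
    · rw [mul_one]; exact (hA.cw i₀ c h3 h4).1 w ⟨hD, hmin⟩
  simp only [DD, Set.mem_ofPred_eq, hP, true_and, not_or, not_exists, not_and, not_not] at hD
  obtain ⟨hS, σ₀, hσ₀, g, hg, hd⟩ := hD
  have hJ : Jac d (crd s) ≠ 0 := fun e => hT.wr (by rw [wr_crd hs0, e, mul_zero])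
  by_cases hq : Jac d g / Jac d (crd s) ∈ w.fil 0
  · exact Or.inl ⟨hS, (h2 t _ d w hF hs).2 (hd.of hs hJ hq)⟩
  rw [mem_fil, not_or, ord_div hd.jac_ne hJ] at hq
  refine Or.inr (key fun σ hσ hmin T hH hn => ?_)
  have hA := hT.pt σ hσ T hH fun e => hn (mem_sup_left e)
  have hT0 := hyp_le hV hH hmin
  have hfg : T.FG := by
    have := (fg_span_singleton (R := k) σ⁻¹).mul (hH.finrank hV).1
    rwa [← mul_assoc, ← pr, pr_mul_pr, inv_mul_cancel₀ hH.ne, pr, ← one_eq_span, one_mul] at this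
  have h3 : JJ d T ≤ w.fil (w.ord (Jac d g)) := fun x hx => by
    simpa [hd.jac_ne] using DV.mul_fil (hd.JJ_div hT0 hx) (self_mem (w := w) (Jac d g))
  have h4 : ¬ JJ d T ≤ w.fil (w.ord (Jac d g) + 1) := fun e => by
    have h5 := mul_le0 (sup_le hT0 (Submodule.one_le.2 one_mem)) e (div_pow_mem' hH.ne
      (fun _ => hyp_div hH) (wr_mem (d := d) (v := Fin.cons σ₀ fun i => σ₀ * g i)
        fun i => Fin.cases hσ₀.1 hg i))
    have h6 := mul_ne_zero (pow_ne_zero (m + 2) hσ₀.2.1) hd.jac_ne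
    rw [wr_cons_mul, mem_fil, ord_div h6 (pow_ne_zero _ hH.ne),
      w.mul _ _ (pow_ne_zero _ hσ₀.2.1) hd.jac_ne, ord_pow hσ₀.2.1, ord_pow hH.ne, hσ₀.2.2,
      hmin.2.2] at h5
    rcases h5 with h5 | h5
    · exact div_ne_zero h6 (pow_ne_zero _ hH.ne) h5
    · omega
  have h5 : Wr d (fun j => s j / σ ^ (m + 2)) ∈ w.fil (w.ord (Jac d g) + 1) := by
    have h6 : crd (fun j => s j / σ ^ (m + 2)) = crd s :=
      funext fun i => div_div_div_cancel_right₀ (pow_ne_zero _ hH.ne) _ _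
    rw [wr_crd (div_ne_zero hs0 (pow_ne_zero _ hH.ne)), h6]
    exact mul01 (w.vr.pow_mem (alg_le hT0 (hyp_pow hH (hT.mem 0))) _) (Or.inr (by omega))
  refine ⟨by_contra fun e => ?_, fun i₀ c h6 h7 => ?_⟩
  · obtain ⟨MM, h6, h7, h8⟩ := (hA.base (by simpa using e)).2
    obtain ⟨c, X, e1, e2, e3, e4, e5⟩ := polar hT0 (JJ_fg hfg) h6 h7 h3 h4 h5 0
    refine hn (nak hT0 e1 e2 e3 ?_)
    rw [← e4]
    refine (mul_le_mul_right h8 _).trans ?_
    rw [Submodule.mul_sup, mul_left_comm _ T]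
    exact sup_le_sup_right e5 _
  · obtain ⟨MM, b, h8, h9, h10⟩ := (hA.cw i₀ c h6 h7).2 hm
    obtain ⟨c', X, e1, e2, e3, e4, e5⟩ := polar hT0 (JJ_fg hfg) h8 h9 h3 h4 h5 b
    exact ⟨X, e1, e2, e3, e4 ▸ ld_scale h10 c' e5⟩

end Pool.Agent.MP_19ffc6_ag.Res.PA
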