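import Pool.Agent.MP_19ffc6_ag.Res.FSpec
import Pool.Agent.MP_19ffc6_ag.Res.FinW

/-! PROJECT RES, stage F, module CONE: the tangent cones of the boundary divisors. -/

namespace Pool.Agent.MP_19ffc6_ag.Res.PF

open Pool.Agent.MP_19ffc6_ag.Wild Pool.Agent.MP_19ffc6_ag.Res.PA Submodule Filter Module
  MvPolynomial

namespace Cone

section Hf

variable {k σ : Type} [Field k] [Finite σ]

theorem rk {A B : Type} [AddCommGroup A] [Module k A] [AddCommGroup B] [Module k B]
    (W : Submodule k A) [Module.Finite k W] (φ : A →ₗ[k] B) :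
    finrank k (W.map φ) + finrank k (W ⊓ LinearMap.ker φ :) = finrank k W := by
  rw [← (φ.domRestrict W).finrank_range_add_finrank_ker, LinearMap.range_domRestrict,
    LinearMap.ker_domRestrict, ← Submodule.finrank_map_subtype_eq, Submodule.map_comap_subtype]

theorem hf_add (I : Ideal (MvPolynomial σ k)) (L : ℕ) :
    hf I L + finrank k (restrictTotalDegree σ k L ⊓ I.restrictScalars k :) =
      finrank k (restrictTotalDegree σ k L) := by
  have : LinearMap.ker (Ideal.Quotient.mkₐ k I).toLinearMap = I.restrictScalars k :=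
    Submodule.ext fun _ => Ideal.Quotient.eq_zero_iff_mem
  rw [← this, hf, rk]

theorem hf_anti {I J : Ideal (MvPolynomial σ k)} (h : I ≤ J) (L : ℕ) : hf J L ≤ hf I L := by
  have h1 := hf_add I L
  have h2 := hf_add J L
  have h3 : finrank k (restrictTotalDegree σ k L ⊓ I.restrictScalars k :) ≤
      finrank k (restrictTotalDegree σ k L ⊓ J.restrictScalars k :) := by
    have : Module.Finite k (restrictTotalDegree σ k L ⊓ J.restrictScalars k :) :=
      Submodule.finiteDimensional_of_le inf_le_left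
    exact Submodule.finrank_mono (inf_le_inf_left _ h)
  omega

theorem hf_inf (I J : Ideal (MvPolynomial σ k)) (L : ℕ) : hf (I ⊓ J) L ≤ hf I L + hf J L := by
  have h1 := hf_add I L
  have h2 := hf_add J L
  have h3 := hf_add (I ⊓ J) L
  set W := restrictTotalDegree σ k L
  have : Module.Finite k (W ⊓ I.restrictScalars k :) :=
    Submodule.finiteDimensional_of_le inf_le_left
  have : Module.Finite k (W ⊓ J.restrictScalars k :) :=
    Submodule.finiteDimensional_of_le inf_le_left
  have h4 := Submodule.finrank_sup_add_finrank_inf_eq (W ⊓ I.restrictScalars k)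
    (W ⊓ J.restrictScalars k)
  have h5 : finrank k (W ⊓ I.restrictScalars k ⊔ W ⊓ J.restrictScalars k :) ≤ finrank k W :=
    Submodule.finrank_mono (sup_le inf_le_left inf_le_left)
  have h6 : W ⊓ I.restrictScalars k ⊓ (W ⊓ J.restrictScalars k) =
      W ⊓ (I ⊓ J).restrictScalars k := by
    ext x
    simp only [mem_inf, restrictScalars_mem]
    tauto
  rw [h6] at h4
  omega

theorem hf_top (L : ℕ) : hf (⊤ : Ideal (MvPolynomial σ k)) L = 0 := by
  have := hf_add (⊤ : Ideal (MvPolynomial σ k)) L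
  rw [restrictScalars_top, inf_top_eq] at this
  omega

theorem hf_finset {α : Type} (s : Finset α) (J : α → Ideal (MvPolynomial σ k)) (L : ℕ) :
    hf (s.inf J) L ≤ ∑ a ∈ s, hf (J a) L := by
  classical
  induction s using Finset.induction_on with
  | empty => simp [hf_top]
  | insert a s ha ih =>
    rw [Finset.inf_insert, Finset.sum_insert ha]
    exact (hf_inf _ _ L).trans (Nat.add_le_add_left ih _)

variable {K : Type} [Field K] [Algebra k K]

omit [Finite σ] in
theorem aeval_mem (t : σ → K) {a : ℕ} {φ : MvPolynomial σ k} (h : φ.IsHomogeneous a) :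
    aeval t φ ∈ span k (Set.range t) ^ a := by
  have h1 : (homogeneousSubmodule σ k a).map (aeval t : MvPolynomial σ k →ₐ[k] K).toLinearMap =
      span k (Set.range t) ^ a := by
    rw [← homogeneousSubmodule_one_pow, Submodule.map_pow, homogeneousSubmodule_one_eq_span_X,
      Submodule.map_span, ← Set.range_comp]
    congr 3
    funext i
    simp
  rw [← h1]
  exact mem_map_of_mem h

/-- The Hilbert function of an ideal that contains the initial forms. -/
theorem hf_le_cod (t : σ → K) (T F : Submodule k K) (hT : span k (Set.range t) = T)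
    (J : Ideal (MvPolynomial σ k))
    (H : ∀ a φ, φ.IsHomogeneous a → aeval t φ ∈ T ^ (a + 1) * alg T ⊔ F → φ ∈ J) (L : ℕ) :
    hf J L ≤ cod (alg T) (T ^ (L + 1) * alg T ⊔ F) := by
  have hfg : T.FG := hT ▸ fg_span (Set.finite_range t)
  have h1 : (1 : Submodule k K).FG := by rw [one_eq_span]; exact fg_span_singleton _
  have fam := Num.fam_Mb hfg h1 h1
  have e0 : Mb T 1 1 0 = alg T := by simp [Mb]
  have fd : ∀ (a : ℕ) (P : Submodule k K), P ≤ alg T → Fd P (T ^ a * alg T ⊔ F) := fun a P hP =>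
    fam.fd' (b := 0) (L := a) (e0 ▸ hP) (e0 ▸ le_sup_left)
  have ple : ∀ a : ℕ, T ^ a * alg T ≤ alg T := fun a => e0 ▸ fam.pow_le a 0
  have psl : ∀ a : ℕ, T ^ (a + 1) * alg T ≤ T ^ a * alg T := fun a => e0 ▸ fam.pow_succ_le a 0
  let mk := (Ideal.Quotient.mkₐ k J).toLinearMap
  have hH : ∀ a, Module.Finite k (homogeneousSubmodule σ k a) := fun a =>
    Module.Finite.iff_fg.2 (homogeneousSubmodule_fg σ k a)
  have step : ∀ a, finrank k ((homogeneousSubmodule σ k a).map mk) ≤
      cod (T ^ a * alg T) (T ^ (a + 1) * alg T ⊔ F) := by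
    intro a
    let Q := T ^ (a + 1) * alg T ⊔ F
    let φ : homogeneousSubmodule σ k a →ₗ[k] K ⧸ Q :=
      Q.mkQ.comp ((aeval t : MvPolynomial σ k →ₐ[k] K).toLinearMap.comp (Submodule.subtype _))
    let ψ : homogeneousSubmodule σ k a →ₗ[k] _ := mk.comp (Submodule.subtype _)
    have e : LinearMap.range ψ = (homogeneousSubmodule σ k a).map mk := by
      rw [LinearMap.range_comp, range_subtype]
    have hle : LinearMap.range φ ≤ (T ^ a * alg T).map Q.mkQ := by
      rintro _ ⟨x, rfl⟩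
      refine mem_map_of_mem (f := Q.mkQ) ?_
      have := mul_mem_mul (hT ▸ aeval_mem t x.2) (Num.one_mem_alg T)
      rwa [mul_one] at this
    have : Module.Finite k ((T ^ a * alg T).map Q.mkQ) :=
      Module.Finite.iff_fg.2 (fd (a + 1) _ (ple a))
    have h := Num.rank_le_of_ker φ ψ (fun x hx => by
      rw [LinearMap.mem_ker] at hx ⊢
      exact Ideal.Quotient.eq_zero_iff_mem.2 (H a x x.2 ((Quotient.mk_eq_zero _).1 hx)))
      (Module.Finite.iff_fg.1 (finiteDimensional_of_le hle))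
    rw [e] at h
    exact h.2.trans (finrank_mono hle)
  let U : ℕ → Submodule k (MvPolynomial σ k) := fun n =>
    (Finset.range n).sup (homogeneousSubmodule σ k)
  have hU : ∀ n, Module.Finite k (U n) := fun n => Module.Finite.iff_fg.2
    (fg_finset_sup _ _ fun a _ => homogeneousSubmodule_fg σ k a)
  have main : ∀ n, finrank k ((U n).map mk) ≤ cod (alg T) (T ^ n * alg T ⊔ F) := by
    intro n
    induction n with
    | zero =>
      have e : U 0 = ⊥ := Finset.sup_empty
      rw [e, Submodule.map_bot, finrank_bot]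
      exact Nat.zero_le _
    | succ n ih =>
      have e : U (n + 1) = homogeneousSubmodule σ k n ⊔ U n := by
        simp only [U, Finset.range_add_one, Finset.sup_insert]
      have h2 := Num.cod_add (ple n) (fd (n + 1) _ le_rfl)
      have h3 : T ^ (n + 1) * alg T ⊔ F ⊔ T ^ n * alg T = T ^ n * alg T ⊔ F := by
        rw [sup_right_comm, sup_eq_right.2 (psl n)]
      rw [h3] at h2
      have := hH n
      have := hU n
      have h4 := Submodule.finrank_add_le_finrank_add_finrank
        ((homogeneousSubmodule σ k n).map mk) ((U n).map mk)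
      have h5 := step n
      rw [e, Submodule.map_sup]
      omega
  refine le_trans ?_ (main (L + 1))
  have := hU (L + 1)
  refine finrank_mono (map_mono fun φ hφ => ?_)
  rw [← sum_homogeneousComponent φ]
  refine sum_mem fun i hi => ?_
  have h6 := (mem_restrictTotalDegree _ _ _).1 hφ
  have h7 := Finset.mem_range.1 hi
  exact Finset.le_sup (f := homogeneousSubmodule σ k) (Finset.mem_range.2 (by omega))
    (homogeneousComponent_mem i φ)

end Hf

section Laurent

variable {k : Type} [Field k]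

/-- Laurent polynomials. -/
abbrev Lp (B : Type) [CommRing B] : Type := LaurentPolynomial B

/-- Monomials. -/
noncomputable def mo {B : Type} [CommRing B] (n : ℤ) (a : B) : Lp B := AddMonoidAlgebra.single n a

variable {A B : Type} [CommRing A] [CommRing B]

theorem mo_mul (m n : ℤ) (a b : B) : mo m a * mo n b = mo (m + n) (a * b) :=
  AddMonoidAlgebra.single_mul_single _ _ _ _

theorem mo_add (n : ℤ) (a b : B) : mo n (a + b) = mo n a + mo n b :=
  AddMonoidAlgebra.single_add _ _ _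

theorem mo_zero (n : ℤ) : mo n (0 : B) = 0 := AddMonoidAlgebra.single_zero _

theorem mo_one : mo 0 (1 : B) = 1 := rfl

theorem mo_eq_zero {n : ℤ} {a : B} : mo n a = 0 ↔ a = 0 := AddMonoidAlgebra.single_eq_zero

theorem mo_pow (n : ℤ) (a : B) (c : ℕ) : mo n a ^ c = mo (c * n) (a ^ c) := by
  induction c with
  | zero => simp [mo_one]
  | succ c ih => rw [pow_succ, ih, mo_mul, pow_succ]; congr 1; push_cast; ring

theorem mo_eq (n : ℤ) (a : B) : mo n a = LaurentPolynomial.C a * LaurentPolynomial.T n :=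
  LaurentPolynomial.single_eq_C_mul_T a n

variable [Algebra k A] [Algebra k B]

theorem mo_smul (n : ℤ) (c : k) (a : B) : mo n (c • a) = c • mo n a :=
  (AddMonoidAlgebra.smul_single _ _ _).symm

theorem mo_alg (c : k) : mo 0 (algebraMap k B c) = algebraMap k (Lp B) c := rfl

/-- The map on coefficients. -/
noncomputable def mp (f : A →ₐ[k] B) : Lp A →ₐ[k] Lp B := AddMonoidAlgebra.mapAlgHom ℤ f

theorem mp_mo (f : A →ₐ[k] B) (n : ℤ) (a : A) : mp f (mo n a) = mo n (f a) :=
  AddMonoidAlgebra.mapAlgHom_single _ _ _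

theorem mp_ker {B' : Type} [CommRing B'] [Algebra k B'] (f : A →ₐ[k] B) (g : A →ₐ[k] B')
    (h : ∀ a, f a = 0 → g a = 0) {x : Lp A} (hx : mp f x = 0) : mp g x = 0 := by
  refine LaurentPolynomial.ext fun n => ?_
  have h1 : (mp f x).coeff n = f (x.coeff n) := AddMonoidAlgebra.coeff_mapAlgHom _ _ _
  have h2 : (mp g x).coeff n = g (x.coeff n) := AddMonoidAlgebra.coeff_mapAlgHom _ _ _
  rw [h2, h _ (by rw [← h1, hx]; rfl)]
  rfl

theorem aeval_hom {σ Λ : Type} [CommRing Λ] [Algebra k Λ] (c : σ → Λ) (x : Λ) {a : ℕ}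
    {φ : MvPolynomial σ k} (h : φ.IsHomogeneous a) :
    aeval (fun i => c i * x) φ = aeval c φ * x ^ a := by
  rw [φ.as_sum, map_sum, map_sum, Finset.sum_mul]
  refine Finset.sum_congr rfl fun d hd => ?_
  rw [aeval_monomial, aeval_monomial, mul_assoc, h.degree_eq_sum_deg_support hd]
  congr 1
  simp only [Finsupp.prod, mul_pow, Finset.prod_mul_distrib, Finset.prod_pow_eq_pow_sum]

theorem aeval_mo {σ : Type} (c : σ → B) {a : ℕ} {φ : MvPolynomial σ k} (h : φ.IsHomogeneous a) :
    aeval (fun i => mo (-1) (c i)) φ = mo (-a) (aeval c φ) := by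
  have e : (fun i => mo (-1) (c i)) = fun i => mo 0 (c i) * mo (-1) 1 := by
    funext i; rw [mo_mul, zero_add, mul_one]
  have e2 : aeval (fun i => mo 0 (c i)) φ = mo 0 (aeval c φ) :=
    (comp_aeval_apply (f := c) (IsScalarTower.toAlgHom k B (Lp B)) φ).symm
  rw [e, aeval_hom _ _ h, e2, mo_pow, mo_mul]
  simp

/-- Polynomials as Laurent polynomials. -/
noncomputable def emb (f : A →ₐ[k] B) : Polynomial A →ₐ[k] Lp B :=
  (Polynomial.toLaurentAlg.restrictScalars k).comp (Polynomial.mapAlgHom f)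

theorem emb_inj (f : A →ₐ[k] B) (hf : Function.Injective f) : Function.Injective (emb f) :=
  Polynomial.toLaurent_injective.comp (Polynomial.map_injective _ hf)

theorem emb_mono (f : A →ₐ[k] B) (n : ℕ) (a : A) :
    emb f (Polynomial.monomial n a) = mo n (f a) := by
  rw [mo_eq]
  change Polynomial.toLaurent (Polynomial.map (f : A →+* B) (Polynomial.monomial n a)) = _
  rw [Polynomial.map_monomial, Polynomial.toLaurent_C_mul_T]
  rfl

theorem trdeg_Lp [IsDomain B] : Algebra.trdeg k (Lp B) = Algebra.trdeg k B + 1 := by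
  have : IsScalarTower B (Polynomial B) (Lp B) :=
    IsScalarTower.of_algebraMap_eq fun b => (Polynomial.toLaurent_C b).symm
  have : FaithfulSMul (Polynomial B) (Lp B) :=
    (faithfulSMul_iff_algebraMap_injective _ _).2 Polynomial.toLaurent_injective
  have : Algebra.IsAlgebraic (Polynomial B) (Lp B) :=
    IsLocalization.isAlgebraic _ (Submonoid.powers (Polynomial.X : Polynomial B))
  have : FaithfulSMul B (Lp B) := FaithfulSMul.trans B (Polynomial B) (Lp B)
  rw [← trdeg_add_eq k B (A := Lp B), ← trdeg_add_eq B (Polynomial B) (A := Lp B),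
    Polynomial.trdeg_of_isDomain, trdeg_eq_zero (R := Polynomial B), add_zero]

/-- Rescaling of the variable. -/
theorem exists_scale (u v : B) (h : u * v = 1) : ∃ s : Lp B →+* Lp B,
    (∀ a, s (mo 0 a) = mo 0 a) ∧ (∀ a, s (mo 1 a) = mo 1 (a * u)) ∧
      ∀ a, s (mo (-1) a) = mo (-1) (a * v) := by
  let x : (Lp B)ˣ := ⟨mo 1 u, mo (-1) v, by rw [mo_mul, h]; rfl, by rw [mo_mul, mul_comm, h]; rfl⟩
  have e : ∀ n a, LaurentPolynomial.eval₂ LaurentPolynomial.C x (mo n a) =
      mo 0 a * (x ^ n).val := fun n a => by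
    rw [mo_eq, LaurentPolynomial.eval₂_C_mul_T]; rfl
  refine ⟨LaurentPolynomial.eval₂ LaurentPolynomial.C x, fun a => ?_, fun a => ?_, fun a => ?_⟩
  · rw [e, zpow_zero, Units.val_one, mul_one]
  · rw [e, zpow_one]
    exact (mo_mul _ _ _ _).trans (by rw [zero_add])
  · rw [e, zpow_neg_one]
    exact (mo_mul _ _ _ _).trans (by rw [zero_add])

theorem one_le_dm [IsDomain B] {σ : Type} (χ : MvPolynomial σ k →ₐ[k] Lp B)
    (f : MvPolynomial σ k) (hf : χ f = mo (-1) 1) : 1 ≤ dm (RingHom.ker χ) := by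
  let Ψ : Polynomial k →ₐ[k] Lp B :=
    ((LaurentPolynomial.invert (R := B)).toAlgHom.restrictScalars k).comp (emb (Algebra.ofId k B))
  have h1 : Function.Injective Ψ :=
    (LaurentPolynomial.invert (R := B)).injective.comp (emb_inj _ (algebraMap k B).injective)
  let g : Polynomial k →ₐ[k] MvPolynomial σ k ⧸ RingHom.ker χ :=
    Polynomial.aeval (Ideal.Quotient.mk _ f)
  have h2 : (Ideal.kerLiftAlg χ).comp g = Ψ := by
    refine Polynomial.algHom_ext ?_
    have e1 : Ψ Polynomial.X = mo (-1) 1 := by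
      change LaurentPolynomial.invert (emb (Algebra.ofId k B) (Polynomial.monomial 1 1)) = _
      rw [emb_mono, map_one, mo_eq, mo_eq, map_one, one_mul, one_mul, LaurentPolynomial.invert_T]
      rfl
    rw [e1, AlgHom.comp_apply, Polynomial.aeval_X, ← hf]
    rfl
  have h3 : Function.Injective g := Function.Injective.of_comp (f := Ideal.kerLiftAlg χ) (by
    rw [← AlgHom.coe_comp, h2]; exact h1)
  have := trdeg_le_of_injective g h3
  rwa [Polynomial.trdeg_of_isDomain] at this

end Laurent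

section Main

variable {k K : Type} [Field k] [Field K] [Algebra k K] {m : ℕ}

theorem exists_res (w : DV k K) : ∃ (B : Type) (_ : CommRing B) (_ : IsDomain B) (_ : Algebra k B)
    (r : w.vr →ₐ[k] B), Function.Surjective r ∧ ∀ a, r a = 0 ↔ (a : K) ∈ w.fil 1 := by
  obtain ⟨κ, _, _, r, hr⟩ := FW.exists_res w
  exact ⟨r.range, inferInstance, inferInstance, inferInstance, r.rangeRestrict,
    r.rangeRestrict_surjective, fun a => Subtype.ext_iff.trans (hr a)⟩

theorem exists_resO {O : Subalgebra k K} (h : Val O) : ∃ (B : Type) (_ : CommRing B)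
    (_ : IsDomain B) (_ : Algebra k B) (ρ : O →ₐ[k] B), ∀ a, ρ a = 0 ↔ ¬ Un O a := by
  have := h.lcl.isLocalRing
  refine ⟨IsLocalRing.ResidueField O, inferInstance, inferInstance, inferInstance,
    IsScalarTower.toAlgHom k O _, fun a => ?_⟩
  rw [← isUnit_iff_un]
  exact IsLocalRing.residue_eq_zero_iff a

variable {w : DV k K} {B : Type} [CommRing B] [Algebra k B] {r : w.vr →ₐ[k] B}

theorem ind_iff (hr : ∀ a, r a = 0 ↔ (a : K) ∈ w.fil 1) {ι : Type} (g : ι → w.vr) :
    w.Ind (fun i => (g i : K)) ↔ AlgebraicIndependent k fun i => r (g i) := by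
  rw [algebraicIndependent_iff]
  refine forall_congr' fun P => imp_congr_left ?_
  have h1 := MvPolynomial.comp_aeval_apply (f := g) w.vr.val P
  have h2 := MvPolynomial.comp_aeval_apply (f := g) r P
  rw [← h2, hr]
  exact Iff.of_eq (congrArg (· ∈ w.fil 1) h1.symm)

theorem trdeg_le [IsDomain B] (hs : Function.Surjective r)
    (hr : ∀ a, r a = 0 ↔ (a : K) ∈ w.fil 1)
    (dep : ∀ g : Fin (m + 1) → K, (∀ i, g i ∈ w.fil 0) → ¬ w.Ind g) : Algebra.trdeg k B ≤ m := by
  by_contra hc
  obtain ⟨s, hb⟩ := exists_isTranscendenceBasis k B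
  rw [← hb.cardinalMk_eq_trdeg, not_le] at hc
  have h1 : Cardinal.mk (Fin (m + 1)) ≤ Cardinal.mk s := by
    rw [Cardinal.mk_fin, Nat.cast_succ]
    exact Cardinal.add_one_le_of_lt hc
  obtain ⟨e⟩ := h1
  choose g hg using fun i => hs (e i : B)
  refine dep (fun i => g i) (fun i => (g i).2) ((ind_iff hr g).2 ?_)
  simp only [hg]
  exact hb.1.comp e e.injective

variable (r) in
/-- The graded pieces of a subalgebra, pulled back to the function field. -/
def pc (D : Subalgebra k (Lp B)) (n : ℕ) : Submodule k K where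
  carrier := {y | ∃ h : y ∈ w.vr, mo (-n) (r ⟨y, h⟩) ∈ D}
  zero_mem' := ⟨zero_mem _, by
    have : r ⟨0, zero_mem _⟩ = 0 := map_zero r
    rw [this, mo_zero]; exact zero_mem _⟩
  add_mem' := by
    rintro a b ⟨ha, h1⟩ ⟨hb, h2⟩
    refine ⟨add_mem ha hb, ?_⟩
    have : r ⟨a + b, add_mem ha hb⟩ = r ⟨a, ha⟩ + r ⟨b, hb⟩ := map_add r ⟨a, ha⟩ ⟨b, hb⟩
    rw [this, mo_add]; exact add_mem h1 h2
  smul_mem' := by
    rintro c a ⟨ha, h1⟩
    refine ⟨w.vr.smul_mem ha c, ?_⟩
    have : r ⟨c • a, w.vr.smul_mem ha c⟩ = c • r ⟨a, ha⟩ := map_smul r c ⟨a, ha⟩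
    rw [this, mo_smul]; exact D.smul_mem h1 c

variable {D : Subalgebra k (Lp B)}

theorem pc_mul (a b : ℕ) : pc r D a * pc r D b ≤ pc r D (a + b) := by
  refine mul_le.2 ?_
  rintro x ⟨hx, h1⟩ y ⟨hy, h2⟩
  refine ⟨mul_mem hx hy, ?_⟩
  have : r ⟨x * y, mul_mem hx hy⟩ = r ⟨x, hx⟩ * r ⟨y, hy⟩ := map_mul r ⟨x, hx⟩ ⟨y, hy⟩
  have h3 := mul_mem h1 h2
  rw [mo_mul, ← this, ← neg_add, ← Nat.cast_add] at h3
  exact h3

theorem pc_cst (c : k) : algebraMap k K c ∈ pc r D 0 := by
  refine ⟨w.vr.algebraMap_mem c, ?_⟩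
  have : r ⟨algebraMap k K c, w.vr.algebraMap_mem c⟩ = algebraMap k B c := r.commutes c
  rw [this]
  exact D.algebraMap_mem c

theorem pc_succ (hZ : mo 1 1 ∈ D) (n : ℕ) : pc r D (n + 1) ≤ pc r D n := by
  rintro x ⟨hx, h1⟩
  refine ⟨hx, ?_⟩
  have h3 := mul_mem hZ h1
  rw [mo_mul, one_mul] at h3
  have e : (1 : ℤ) + -((n + 1 : ℕ) : ℤ) = -n := by push_cast; ring
  rwa [e] at h3

theorem pc_pow {T : Submodule k K} (h : T ≤ pc r D 1) (n : ℕ) : T ^ n ≤ pc r D n := by
  induction n with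
  | zero =>
    rw [pow_zero, Submodule.one_le]
    simpa using pc_cst (r := r) (D := D) 1
  | succ n ih => rw [pow_succ]; exact (mul_le_mul' ih h).trans (pc_mul n 1)

theorem pc_alg {T : Submodule k K} (hZ : mo 1 1 ∈ D) (h : T ≤ pc r D 1) : alg T ≤ pc r D 0 := by
  intro x hx
  induction hx using Algebra.adjoin_induction with
  | mem x hx => exact pc_succ hZ 0 (h hx)
  | algebraMap c => exact pc_cst c
  | add x y _ _ hx hy => exact add_mem hx hy
  | mul x y _ _ hx hy => exact pc_mul 0 0 (mul_mem_mul hx hy)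

theorem pc_fil (hr : ∀ a, r a = 0 ↔ (a : K) ∈ w.fil 1) (n : ℕ) : w.fil 1 ≤ pc r D n :=
  fun x hx => ⟨FW.fil_anti zero_le_one hx, by rw [(hr _).2 hx, mo_zero]; exact zero_mem _⟩

theorem gn_iff {O : Subalgebra k K} {T : Submodule k K} {t₀ y : K} (h : Gn O T t₀) (hy : y ∈ T) :
    Gn O T y ↔ Un O (y / t₀) := by
  constructor
  · intro h'
    exact ⟨h.2.2 y hy, div_ne_zero h'.2.1 h.2.1, by rw [inv_div]; exact h'.2.2 t₀ h.1⟩
  · intro h'
    have h0 : y ≠ 0 := fun e => h'.2.1 (by rw [e, zero_div])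
    refine ⟨hy, h0, fun z hz => ?_⟩
    have h1 := h.2.1
    rw [show z / y = z / t₀ * (y / t₀)⁻¹ by field_simp]
    exact mul_mem (h.2.2 z hz) h'.2.2

/-- The kernel of the presentation of the extended Rees algebra dies at the centre of `O`. -/
theorem cover [IsDomain B] (hr : ∀ a, r a = 0 ↔ (a : K) ∈ w.fil 1) {I : Type} [Fintype I]
    (t : I → w.vr) {T : Submodule k K} (hT : span k (Set.range fun i => (t i : K)) = T)
    {O : Subalgebra k K} (hO : Cen T O) (hle : O ≤ w.vr) (hn : ¬ T ≤ w.fil 1) :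
    ∃ (B' : Type) (_ : CommRing B') (_ : IsDomain B') (_ : Algebra k B')
      (χ : MvPolynomial (Option I) k →ₐ[k] Lp B'), χ (X none) = 0 ∧
      (∀ ψ : MvPolynomial (Option I) k,
        aeval (fun o : Option I => o.elim (mo 1 1) fun i => mo (-1) (r (t i))) ψ = 0 → χ ψ = 0) ∧
      (∃ f, χ (rename some f) = mo (-1) 1) ∧
      ∀ c : I → k, χ (rename some (lf id c)) = 0 ↔ ¬ Gn O T (∑ i, c i • (t i : K)) := by
  have hfg : T.FG := hT ▸ fg_span (Set.finite_range _)
  obtain ⟨t₀, g1, g2, g3⟩ := hO.1.exists_gen hfg fun e => hn (e ▸ bot_le)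
  have hG : Gn O T t₀ := ⟨g1, g2, g3⟩
  have hti : ∀ i, (t i : K) ∈ T := fun i => hT ▸ subset_span ⟨i, rfl⟩
  have h1 : t₀ ∉ w.fil 1 := fun h => hn fun y hy => by
    rw [← div_mul_cancel₀ y g2]
    exact FW.mul01 (hle (g3 y hy)) h
  have h2 := FW.unit (hle (hO.2 t₀ g1).1) h1
  have h3 : t₀⁻¹ ∈ w.vr := Or.inr (by rw [FW.ord_inv, h2.2, neg_zero])
  obtain ⟨B', _, _, _, ρ, hρ⟩ := exists_resO hO.1
  let a₀ : O := ⟨t₀, (hO.2 t₀ g1).1⟩
  let a : I → O := fun i => ⟨t i / t₀, g3 _ (hti i)⟩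
  let θ : MvPolynomial (Option I) k →ₐ[k] Lp O :=
    aeval fun o : Option I => o.elim (mo 1 a₀) fun i => mo (-1) (a i)
  let r' : O →ₐ[k] B := r.comp (Subalgebra.inclusion hle)
  obtain ⟨s, s0, s1, s2⟩ := exists_scale (r' a₀) (r ⟨t₀⁻¹, h3⟩) (by
    rw [← map_one r]
    exact (map_mul r _ _).symm.trans (congrArg r (Subtype.ext (mul_inv_cancel₀ g2))))
  have key : s.comp (aeval (R := k) fun o : Option I =>
      o.elim (mo 1 1) fun i => mo (-1) (r (t i))).toRingHom = ((mp r').comp θ).toRingHom := by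
    refine MvPolynomial.ringHom_ext (fun c => ?_) fun o => ?_
    · change s (aeval _ (algebraMap k _ c)) = ((mp r').comp θ) (algebraMap k _ c)
      rw [AlgHom.commutes, AlgHom.commutes, ← mo_alg, s0]
    · change s (aeval _ (X o)) = mp r' (aeval _ (X o))
      rw [aeval_X, aeval_X]
      cases o with
      | none => exact (s1 1).trans (by rw [one_mul]; exact (mp_mo r' 1 a₀).symm)
      | some i =>
        refine (s2 _).trans (Eq.trans ?_ (mp_mo r' (-1) (a i)).symm)
        congr 1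
        exact (map_mul r _ _).symm.trans (congrArg r (Subtype.ext (div_eq_mul_inv _ _).symm))
  have lin : ∀ c : I → k, ((mp ρ).comp θ) (rename some (lf id c)) =
      mo (-1) (ρ ⟨(∑ i, c i • (t i : K)) / t₀,
        g3 _ (sum_mem fun i _ => smul_mem _ _ (hti i))⟩) := by
    intro c
    have e1 : (⟨(∑ i, c i • (t i : K)) / t₀, g3 _ (sum_mem fun i _ => smul_mem _ _ (hti i))⟩ : O) =
        ∑ i, c i • a i := by
      refine Subtype.ext ?_
      simp only [a, AddSubmonoidClass.coe_finsetSum, SetLike.val_smul, Finset.sum_div,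
        smul_div_assoc]
    have e2 : ∀ x : I → B', mo (-1) (∑ i, x i) = ∑ i, mo (-1) (x i) := fun x =>
      map_sum (AddMonoidAlgebra.singleAddHom (-1 : ℤ)) x _
    rw [e1, map_sum, e2, lf, map_sum, map_sum]
    refine Finset.sum_congr rfl fun i _ => ?_
    rw [map_smul, map_smul, map_smul, mo_smul, rename_X, AlgHom.comp_apply, aeval_X]
    exact congrArg _ (mp_mo ρ (-1) (a i))
  refine ⟨B', inferInstance, inferInstance, inferInstance, (mp ρ).comp θ, ?_, fun ψ hψ => ?_,
    ?_, fun c => ?_⟩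
  · rw [AlgHom.comp_apply, aeval_X]
    refine (mp_mo ρ 1 a₀).trans ?_
    rw [(hρ a₀).2 (hO.2 t₀ g1).2, mo_zero]
  · refine mp_ker r' ρ (fun x hx => (hρ x).2 fun hu => ?_) ?_
    · have h4 : (x : K) ∈ w.fil 1 := (hr _).1 hx
      have h5 := FW.mul01 (hle hu.2.2) h4
      rw [inv_mul_cancel₀ hu.2.1] at h5
      exact FW.one_not_mem h5
    · have h4 := RingHom.congr_fun key ψ
      change s (aeval _ ψ) = mp r' (θ ψ) at h4
      rw [hψ, map_zero] at h4
      exact h4.symm
  · obtain ⟨c, hc⟩ := (mem_span_range_iff_exists_fun k).1 (hT ▸ g1)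
    refine ⟨lf id c, ?_⟩
    rw [lin, ← map_one ρ]
    congr 2
    exact Subtype.ext ((congrArg (· / t₀) hc).trans (div_self g2))
  · rw [lin, mo_eq_zero, hρ, gn_iff hG (sum_mem fun i _ => smul_mem _ _ (hti i))]

theorem one (hk : KrullStmt k) {I : Type} [Fintype I] (t : I → K) {T : Submodule k K}
    (hT : span k (Set.range t) = T) (hw : PrT m T w) :
    ∃ (J : Ideal (MvPolynomial I k)) (s : Finset (Ideal (MvPolynomial I k))),
      (∀ p ∈ s, p.IsPrime ∧ dm p = m ∧ J ≤ p) ∧
      (∀ a φ, φ.IsHomogeneous a → aeval t φ ∈ T ^ (a + 1) * alg T ⊔ w.fil 1 → φ ∈ J) ∧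
      ∀ O, Cen T O → O ≤ w.vr → ¬ T ≤ w.fil 1 →
        ∃ q : Ideal (MvPolynomial I k), q.IsPrime ∧ (∃ p ∈ s, p ≤ q) ∧ 1 ≤ dm q ∧
          ∀ c : I → k, lf id c ∈ q ↔ ¬ Gn O T (∑ i, c i • t i) := by
  classical
  obtain ⟨B, _, _, _, r, hs, hr⟩ := exists_res w
  let t' : I → w.vr := fun i => ⟨t i, hw.le (hT ▸ subset_span ⟨i, rfl⟩)⟩
  let θ : MvPolynomial (Option I) k →ₐ[k] Lp B :=
    aeval fun o : Option I => o.elim (mo 1 1) fun i => mo (-1) (r (t' i))
  have hZ : mo 1 1 ∈ θ.range := ⟨X none, aeval_X _ _⟩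
  let Z : θ.range := ⟨mo 1 1, hZ⟩
  have hXZ : θ.rangeRestrict (X none) = Z := Subtype.ext (aeval_X _ _)
  let π : MvPolynomial I k →ₐ[k] θ.range := θ.rangeRestrict.comp (rename some)
  have hπ : ∀ φ, (π φ : Lp B) = aeval (fun i => mo (-1) (r (t' i))) φ := fun φ =>
    aeval_rename _ _ _
  have hT1 : T ≤ pc r θ.range 1 := by
    rw [← hT, span_le]
    rintro _ ⟨i, rfl⟩
    exact ⟨(t' i).2, X (some i), aeval_X _ _⟩
  have hA := pc_alg hZ hT1
  have hft : Algebra.FiniteType k θ.range :=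
    Algebra.FiniteType.of_surjective θ.rangeRestrict θ.rangeRestrict_surjective
  have hno : IsNoetherianRing θ.range := Algebra.FiniteType.isNoetherianRing k _
  have hdim : Algebra.trdeg k θ.range = (m + 1 : ℕ) := by
    refine le_antisymm ?_ ?_
    · refine (trdeg_le_of_injective θ.range.val Subtype.val_injective).trans ?_
      rw [trdeg_Lp, Nat.cast_succ]
      exact add_le_add_left (trdeg_le hs hr hw.dep) _
    · obtain ⟨g, g1, g2⟩ := hw.ind
      let g' : Fin m → w.vr := fun i => ⟨g i, FW.alg_le hw.le (g1 i)⟩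
      have hi : AlgebraicIndependent k fun i => r (g' i) := (ind_iff hr g').1 g2
      let f : MvPolynomial (Fin m) k →ₐ[k] B := aeval fun i => r (g' i)
      have hm : ∀ x, emb f x ∈ θ.range := by
        intro x
        induction x using Polynomial.induction_on' with
        | add p q hp hq => rw [map_add]; exact add_mem hp hq
        | monomial n a =>
          have e1 : mo 0 (f a) ∈ θ.range := by
            have e2 : mo 0 (f a) = aeval (fun i => mo 0 (r (g' i))) a :=
              comp_aeval_apply (f := fun i => r (g' i)) (IsScalarTower.toAlgHom k B (Lp B)) a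
            rw [e2]
            refine (show (aeval fun i => mo 0 (r (g' i))).range ≤ θ.range from ?_) ⟨a, rfl⟩
            rw [← Algebra.adjoin_range_eq_range_aeval, Algebra.adjoin_le_iff]
            rintro _ ⟨i, rfl⟩
            exact (hA (g1 i)).2
          have e3 := mul_mem e1 (pow_mem hZ n)
          rw [mo_pow, mo_mul, one_pow, mul_one, mul_one, zero_add] at e3
          rw [emb_mono]
          exact e3
      have h1 := trdeg_le_of_injective
        (((emb f).codRestrict _ hm).comp (finSuccEquiv k m).toAlgHom)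
        (((AlgHom.injective_codRestrict _ _ hm).2 (emb_inj f hi)).comp (finSuccEquiv k m).injective)
      rwa [MvPolynomial.trdeg_of_isDomain, Cardinal.lift_id, Cardinal.mk_fin] at h1
  have hZ0 : Z ≠ 0 := fun e => one_ne_zero (mo_eq_zero.1 (congrArg Subtype.val e))
  have hfin := Ideal.finite_minimalPrimes_of_isNoetherianRing _ (Ideal.span {Z})
  refine ⟨(Ideal.span {Z}).comap π, hfin.toFinset.image (Ideal.comap π), fun p hp => ?_,
    fun a φ h1 h2 => ?_, fun O hO hle hn => ?_⟩
  · obtain ⟨q, hq, rfl⟩ := Finset.mem_image.1 hp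
    rw [Set.Finite.mem_toFinset] at hq
    have hq1 : q.IsPrime := hq.1.1
    refine ⟨Ideal.comap_isPrime π q, ?_, Ideal.comap_mono hq.1.2⟩
    have e : (Ideal.Quotient.mkₐ k q).comp θ.rangeRestrict = ((Ideal.Quotient.mkₐ k q).comp π).comp
        (aeval fun o : Option I => o.elim 0 X) := by
      refine MvPolynomial.algHom_ext fun o => ?_
      rw [AlgHom.comp_apply, AlgHom.comp_apply, aeval_X]
      cases o with
      | none =>
        rw [hXZ]
        exact (Ideal.Quotient.eq_zero_iff_mem.2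
          (hq.1.2 (Ideal.mem_span_singleton_self Z))).trans (map_zero _).symm
      | some i =>
        change _ = Ideal.Quotient.mkₐ k q (θ.rangeRestrict (rename some (X i)))
        rw [rename_X]
    have hsurj : Function.Surjective ((Ideal.Quotient.mkₐ k q).comp π) := by
      refine Function.Surjective.of_comp
        (g := aeval (R := k) fun o : Option I => o.elim (0 : MvPolynomial I k) X) ?_
      rw [← AlgHom.coe_comp, ← e, AlgHom.coe_comp]
      exact (Ideal.Quotient.mkₐ_surjective k q).comp θ.rangeRestrict_surjective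
    have hker : RingHom.ker ((Ideal.Quotient.mkₐ k q).comp π) = q.comap π :=
      Ideal.ext fun x => Ideal.Quotient.eq_zero_iff_mem
    have e' : (MvPolynomial I k ⧸ RingHom.ker ((Ideal.Quotient.mkₐ k q).comp π)) ≃ₐ[k]
        (θ.range ⧸ q) := Ideal.quotientKerAlgEquivOfSurjective hsurj
    rw [← hker]
    exact e'.trdeg_eq.trans (hk _ m Z q hdim hZ0 hq)
  · have h3 : T ^ (a + 1) * alg T ⊔ w.fil 1 ≤ pc r θ.range (a + 1) :=
      sup_le ((mul_le_mul' (pc_pow hT1 _) hA).trans (pc_mul _ 0)) (pc_fil hr _)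
    obtain ⟨h4, h5⟩ := h3 h2
    refine Ideal.mem_span_singleton'.2 ⟨⟨_, h5⟩, Subtype.ext ?_⟩
    have e1 : (⟨aeval t φ, h4⟩ : w.vr) = aeval t' φ :=
      Subtype.ext (comp_aeval_apply (f := t') w.vr.val φ).symm
    change mo _ _ * mo 1 1 = (π φ : Lp B)
    rw [hπ, aeval_mo _ h1, mo_mul, mul_one, e1, comp_aeval_apply]
    congr 1
    push_cast; ring
  · obtain ⟨B', _, _, _, χ, c1, c2, ⟨f, c3⟩, c4⟩ := cover hr t' hT hO hle hn
    let χ' := AlgHom.liftOfSurjective θ.rangeRestrict θ.rangeRestrict_surjective χ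
      fun ψ hψ => c2 ψ (congrArg Subtype.val hψ)
    have hχ : ∀ ψ, χ' (θ.rangeRestrict ψ) = χ ψ := fun ψ => AlgHom.liftOfSurjective_apply _ _ _ _ ψ
    have hQ : (RingHom.ker χ').IsPrime := RingHom.ker_isPrime _
    obtain ⟨q, q1, q2⟩ := Ideal.exists_minimalPrimes_le (I := Ideal.span {Z})
      (J := RingHom.ker χ') (by
        rw [Ideal.span_singleton_le_iff_mem, RingHom.mem_ker, ← hXZ, hχ, c1])
    refine ⟨RingHom.ker (χ.comp (rename some)), RingHom.ker_isPrime _,
      ⟨q.comap π, Finset.mem_image_of_mem _ (hfin.mem_toFinset.2 q1), fun x hx => ?_⟩,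
      one_le_dm _ f c3, c4⟩
    exact (hχ _).symm.trans (q2 hx)

end Main

end Cone

theorem cone_of {k K : Type} [Field k] [Field K] [Algebra k K] {m : ℕ} (h1 : KrullStmt k)
    (h2 : CutStmt k) : ConeStmt k K m := by
  classical
  intro μ I _ t T D hT hD hw hG
  choose! J s a1 a2 a3 using fun w (h : w ∈ D) => Cone.one h1 t hT (hw w h)
  have hm : ∀ p ∈ hD.toFinset.biUnion s, ∃ w ∈ D, p ∈ s w := fun p hp => by
    simpa using hp
  have e : 4 ^ m * μ = 2 ^ m * (2 ^ m * μ) := by rw [← mul_assoc, ← mul_pow]; rfl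
  refine ⟨hD.toFinset.biUnion s, e ▸ h2.inf I m _ _ (fun p hp => ?_) (fun p hp => ?_) ?_,
    fun w h O b1 b2 b3 => ?_⟩
  · obtain ⟨w, h, h'⟩ := hm p hp
    exact (a1 w h p h').1
  · obtain ⟨w, h, h'⟩ := hm p hp
    exact (a1 w h p h').2.1
  · have h3 := hG hD.toFinset (by simp)
    rw [frequently_atTop] at h3 ⊢
    intro n
    obtain ⟨L, l1, l2⟩ := h3 (n + 2)
    obtain ⟨c, rfl⟩ : ∃ c, L = c + 1 := ⟨L - 1, by omega⟩
    refine ⟨c, by omega, ?_⟩
    have h4 : hD.toFinset.inf J ≤ (hD.toFinset.biUnion s).inf id :=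
      Finset.le_inf fun p hp => by
        obtain ⟨w, h, h'⟩ := hm p hp
        exact (Finset.inf_le (hD.mem_toFinset.2 h)).trans (a1 w h p h').2.2
    refine (Cone.hf_anti h4 c).trans ((Cone.hf_finset _ _ c).trans ((Finset.sum_le_sum
      fun w h => Cone.hf_le_cod t T _ hT _ (a2 w (hD.mem_toFinset.1 h)) c).trans (l2.trans ?_)))
    rw [mul_comm (2 ^ m), mul_assoc, ← mul_pow]
    exact Nat.mul_le_mul_left _ (Nat.pow_le_pow_left (by omega) _)
  · obtain ⟨q, q1, ⟨p, p1, p2⟩, q3⟩ := a3 w h O b1 b2 b3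
    exact ⟨q, q1, ⟨p, Finset.mem_biUnion.2 ⟨w, hD.mem_toFinset.2 h, p1⟩, p2⟩, q3⟩

end Pool.Agent.MP_19ffc6_ag.Res.PF
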