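import Pool.Agent.MP_19ffc6_ag.Res.FKrull

/-! PROJECT RESP, finite fields: families of primes of a polynomial ring with bounded growth,
their hypersurface sections, and the number of their points in a finite field. -/

namespace Pool.Agent.MP_19ffc6_ag.Res.PF.Cut

open MvPolynomial Algebra Module Filter

variable {k σ : Type} [Field k] [Finite σ]

/-- The dimension of the polynomials of degree at most `L` modulo `I`. -/
noncomputable def hf (I : Ideal (MvPolynomial σ k)) (L : ℕ) : ℕ :=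
  finrank k ((restrictTotalDegree σ k L).map (Ideal.Quotient.mkₐ k I).toLinearMap)

theorem rk {A B : Type} [AddCommGroup A] [Module k A] [AddCommGroup B] [Module k B]
    (W : Submodule k A) [Module.Finite k W] (φ : A →ₗ[k] B) :
    finrank k (W.map φ) + finrank k (W ⊓ LinearMap.ker φ :) = finrank k W := by
  rw [← (φ.domRestrict W).finrank_range_add_finrank_ker, LinearMap.range_domRestrict,
    LinearMap.ker_domRestrict, ← Submodule.finrank_map_subtype_eq, Submodule.map_comap_subtype]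

omit [Finite σ] in
theorem ker_mk (I : Ideal (MvPolynomial σ k)) :
    LinearMap.ker (Ideal.Quotient.mkₐ k I).toLinearMap = I.restrictScalars k :=
  Submodule.ext fun _ => Ideal.Quotient.eq_zero_iff_mem

theorem hf_add (I : Ideal (MvPolynomial σ k)) (L : ℕ) :
    hf I L + finrank k (restrictTotalDegree σ k L ⊓ I.restrictScalars k :) =
      finrank k (restrictTotalDegree σ k L) := by
  rw [← ker_mk, hf, rk]

omit [Finite σ] in
theorem deg_mono {L L' : ℕ} (h : L ≤ L') :
    restrictTotalDegree σ k L ≤ restrictTotalDegree σ k L' := fun _ hx =>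
  (mem_restrictTotalDegree _ _ _).2 (((mem_restrictTotalDegree _ _ _).1 hx).trans h)

theorem hf_mono (I : Ideal (MvPolynomial σ k)) {L L' : ℕ} (h : L ≤ L') : hf I L ≤ hf I L' :=
  Submodule.finrank_mono (Submodule.map_mono (deg_mono h))

theorem hf_anti {I J : Ideal (MvPolynomial σ k)} (h : I ≤ J) (L : ℕ) : hf J L ≤ hf I L := by
  have h1 := hf_add I L
  have h2 := hf_add J L
  have h3 : finrank k (restrictTotalDegree σ k L ⊓ I.restrictScalars k :) ≤
      finrank k (restrictTotalDegree σ k L ⊓ J.restrictScalars k :) := by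
    have : Module.Finite k (restrictTotalDegree σ k L ⊓ J.restrictScalars k :) :=
      Submodule.finiteDimensional_of_le inf_le_left
    exact Submodule.finrank_mono (inf_le_inf_left _ h)
  omega

/-- The basic inequality. -/
theorem hf_gen {I J p : Ideal (MvPolynomial σ k)} [p.IsPrime] (hJ : I ≤ J) (hp : I ≤ p)
    {g : MvPolynomial σ k} (hg : g ∈ J) (hg' : g ∉ p) {N : ℕ} (hN : g.totalDegree ≤ N) (L : ℕ) :
    hf J (L + N) + hf p L ≤ hf I (L + N) := by
  have h1 := hf_add I (L + N)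
  have h2 := hf_add J (L + N)
  set W := restrictTotalDegree σ k (L + N) ⊓ J.restrictScalars k with hW
  have : Module.Finite k W := Submodule.finiteDimensional_of_le inf_le_left
  have h3 := rk W (Ideal.Quotient.mkₐ k p).toLinearMap
  have h4 : finrank k (restrictTotalDegree σ k (L + N) ⊓ I.restrictScalars k :) ≤
      finrank k (W ⊓ LinearMap.ker (Ideal.Quotient.mkₐ k p).toLinearMap :) := by
    have : Module.Finite k (W ⊓ LinearMap.ker (Ideal.Quotient.mkₐ k p).toLinearMap :) :=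
      Submodule.finiteDimensional_of_le inf_le_left
    rw [ker_mk]
    exact Submodule.finrank_mono (le_inf (inf_le_inf_left _ hJ) (inf_le_right.trans hp))
  have h5 : hf p L ≤ finrank k (W.map (Ideal.Quotient.mkₐ k p).toLinearMap) := by
    have h6 : Function.Injective (LinearMap.mulLeft k (Ideal.Quotient.mkₐ k p g)) :=
      mul_right_injective₀ fun e => hg' (Ideal.Quotient.eq_zero_iff_mem.1 e)
    rw [hf, (Submodule.equivMapOfInjective _ h6 _).finrank_eq]
    refine Submodule.finrank_mono ?_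
    rintro _ ⟨_, ⟨a, ha, rfl⟩, rfl⟩
    refine ⟨g * a, ⟨(mem_restrictTotalDegree _ _ _).2 ((totalDegree_mul _ _).trans ?_),
      J.mul_mem_right _ hg⟩, map_mul (Ideal.Quotient.mkₐ k p) _ _⟩
    have := (mem_restrictTotalDegree _ _ _).1 ha
    omega
  omega

theorem hf_tel {q : Ideal (MvPolynomial σ k)} [q.IsPrime] {f : MvPolynomial σ k} (hf' : f ∉ q)
    {N : ℕ} (hN : f.totalDegree ≤ N) (L J : ℕ) :
    J * hf (q ⊔ Ideal.span {f}) L ≤ hf q (L + J * N) := by
  induction J with
  | zero => simp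
  | succ J ih =>
    have h1 := hf_gen (I := q) (J := q ⊔ Ideal.span {f}) le_sup_left le_rfl
      (Ideal.mem_sup_right (Ideal.mem_span_singleton_self f)) hf' hN (L + J * N)
    have h2 := hf_mono (q ⊔ Ideal.span {f}) (show L ≤ L + J * N + N by omega)
    rw [add_mul, add_mul, one_mul, one_mul, ← add_assoc]
    omega

/-- Pairwise incomparable primes over `I`. -/
theorem hf_sum (s : Finset (Ideal (MvPolynomial σ k))) (hs : ∀ p ∈ s, p.IsPrime)
    (ha : ∀ p ∈ s, ∀ q ∈ s, p ≤ q → p = q) :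
    ∃ c, ∀ I : Ideal (MvPolynomial σ k), (∀ p ∈ s, I ≤ p) → ∀ L, ∑ p ∈ s, hf p L ≤ hf I (L + c) := by
  classical
  induction s using Finset.induction_on with
  | empty => exact ⟨0, fun _ _ _ => by simp⟩
  | insert p s hp ih =>
    obtain ⟨c, hc⟩ := ih (fun q hq => hs q (Finset.mem_insert_of_mem hq)) fun q hq q' hq' =>
      ha q (Finset.mem_insert_of_mem hq) q' (Finset.mem_insert_of_mem hq')
    have := hs p (Finset.mem_insert_self _ _)
    obtain ⟨g, hg, hg'⟩ : ∃ g ∈ s.inf id, g ∉ p := by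
      by_contra h
      push Not at h
      obtain ⟨q, hq, hqp⟩ := (Ideal.IsPrime.inf_le' this).1 (show s.inf id ≤ p from h)
      exact hp (ha q (Finset.mem_insert_of_mem hq) p (Finset.mem_insert_self _ _) hqp ▸ hq)
    refine ⟨c + g.totalDegree, fun I hI L => ?_⟩
    have h1 := hf_gen (I := I) (J := s.inf id)
      (Finset.le_inf fun q hq => hI q (Finset.mem_insert_of_mem hq)) (hI p (Finset.mem_insert_self _ _)) hg hg' le_rfl (L + c)
    have h2 := hc (s.inf id) (fun q hq => Finset.inf_le (f := id) hq) L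
    have h3 := hf_mono (s.inf id) (show L + c ≤ L + c + g.totalDegree by omega)
    have h4 := hf_mono p (show L ≤ L + c by omega)
    rw [Finset.sum_insert hp, ← add_assoc]
    omega

omit [Finite σ] in
theorem exists_ind (p : Ideal (MvPolynomial σ k)) [p.IsPrime] {d : ℕ}
    (hd : trdeg k (MvPolynomial σ k ⧸ p) = d) :
    ∃ e : Fin d → σ, AlgebraicIndependent k fun i => Ideal.Quotient.mkₐ k p (X (e i)) := by
  have h1 : adjoin k (Set.range fun i => Ideal.Quotient.mkₐ k p (X i)) = ⊤ := by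
    rw [adjoin_range_eq_range_aeval, AlgHom.range_eq_top]
    intro x
    obtain ⟨a, rfl⟩ := Ideal.Quotient.mkₐ_surjective k p x
    exact ⟨a, AlgHom.congr_fun (algHom_ext (g := Ideal.Quotient.mkₐ k p) fun j => by simp) a⟩
  have : Algebra.IsAlgebraic (adjoin k (Set.range fun i => Ideal.Quotient.mkₐ k p (X i)))
      (MvPolynomial σ k ⧸ p) :=
    ⟨fun x => isAlgebraic_algebraMap (⟨x, h1 ▸ trivial⟩ : adjoin k (Set.range fun i =>
      Ideal.Quotient.mkₐ k p (X i)))⟩
  obtain ⟨t, ht, hb⟩ := exists_isTranscendenceBasis_subset (R := k)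
    (Set.range fun i => Ideal.Quotient.mkₐ k p (X i))
  obtain ⟨ε⟩ : Nonempty (Fin d ≃ t) := by
    rw [← Cardinal.eq, hb.cardinalMk_eq_trdeg, hd, Cardinal.mk_fin]
  choose e he using fun i => ht (ε i).2
  refine ⟨e, ?_⟩
  simp only [he]
  exact hb.1.comp ε ε.injective

/-- The lower bound for the growth. -/
theorem hf_low (p : Ideal (MvPolynomial σ k)) [p.IsPrime] {d : ℕ}
    (hd : trdeg k (MvPolynomial σ k ⧸ p) = d) (L : ℕ) : (L / d + 1) ^ d ≤ hf p L := by
  obtain ⟨e, he⟩ := exists_ind p hd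
  let u : (Fin d → Fin (L / d + 1)) → (Fin d →₀ ℕ) :=
    fun a => Finsupp.equivFunOnFinite.symm fun i => a i
  have hu : Function.Injective u := fun a b h =>
    funext fun i => Fin.ext (congrFun (Finsupp.equivFunOnFinite.symm.injective h) i)
  have h1 := ((basisMonomials (Fin d) k).linearIndependent.comp u hu).map'
    (aeval fun i => Ideal.Quotient.mkₐ k p (X (e i))).toLinearMap
    (LinearMap.ker_eq_bot.2 he)
  have h2 := finrank_span_eq_card h1
  rw [Fintype.card_fun, Fintype.card_fin, Fintype.card_fin] at h2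
  rw [← h2]
  refine Submodule.finrank_mono (Submodule.span_le.2 ?_)
  rintro _ ⟨a, rfl⟩
  refine ⟨rename e (monomial (u a) 1), (mem_restrictTotalDegree _ _ _).2
    ((totalDegree_rename_le _ _).trans ((totalDegree_monomial_le _ _).trans ?_)), ?_⟩
  · rw [Finsupp.sum_fintype _ _ fun _ => rfl]
    calc _ ≤ ∑ _i : Fin d, L / d := Finset.sum_le_sum fun i _ => Nat.lt_succ_iff.1 (a i).2
      _ ≤ L := by simpa using Nat.mul_div_le L d
  · exact AlgHom.congr_fun (algHom_ext (f := (Ideal.Quotient.mkₐ k p).comp (rename e))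
      (g := aeval fun i => Ideal.Quotient.mkₐ k p (X (e i))) fun j => by simp) (monomial (u a) 1)

theorem hf_low' (p : Ideal (MvPolynomial σ k)) [p.IsPrime] {d : ℕ}
    (hd : trdeg k (MvPolynomial σ k ⧸ p) = d) (L : ℕ) : L ^ d ≤ d ^ d * hf p L := by
  rcases Nat.eq_zero_or_pos d with rfl | h0
  · simpa using hf_low p hd L
  calc L ^ d ≤ (d * (L / d + 1)) ^ d := Nat.pow_le_pow_left (Nat.lt_mul_div_succ L h0).le _
    _ ≤ _ := by rw [mul_pow]; exact Nat.mul_le_mul_left _ (hf_low p hd L)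

/-- All members of `s` are primes of dimension `d`. -/
def Pd (d : ℕ) (s : Finset (Ideal (MvPolynomial σ k))) : Prop :=
  ∀ q ∈ s, q.IsPrime ∧ trdeg k (MvPolynomial σ k ⧸ q) = d

/-- The number of primes. -/
theorem card_le {d D : ℕ} {s : Finset (Ideal (MvPolynomial σ k))} (hs : Pd d s)
    (h : ∃ᶠ L : ℕ in atTop, ∑ q ∈ s, hf q L ≤ D * L ^ d) : s.card ≤ D * d ^ d := by
  obtain ⟨L, h1, h2⟩ := (h.and_eventually (eventually_gt_atTop 0)).exists
  refine Nat.le_of_mul_le_mul_right ?_ (pow_pos h2 d)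
  calc s.card * L ^ d ≤ ∑ q ∈ s, d ^ d * hf q L :=
        Finset.card_nsmul_le_sum s _ _ fun q hq => have := (hs q hq).1; hf_low' q (hs q hq).2 L
    _ ≤ d ^ d * (D * L ^ d) := by rw [← Finset.mul_sum]; exact Nat.mul_le_mul_left _ h1
    _ = _ := by ring

theorem sum_union_le {α β : Type} [DecidableEq β] (s : Finset α) (t : α → Finset β) (g : β → ℕ) :
    ∑ b ∈ s.biUnion t, g b ≤ ∑ a ∈ s, ∑ b ∈ t a, g b := by
  classical
  induction s using Finset.induction_on with
  | empty => simp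
  | insert a s ha ih =>
    rw [Finset.biUnion_insert, Finset.sum_insert ha]
    have := Finset.sum_union_inter (s₁ := t a) (s₂ := s.biUnion t) (f := g)
    omega

/-- The hypersurface sections of a family of primes. -/
theorem cut_core {d N : ℕ} {s : Finset (Ideal (MvPolynomial σ k))} (hs : Pd (d + 1) s)
    (f : Ideal (MvPolynomial σ k) → MvPolynomial σ k)
    (hf' : ∀ q ∈ s, f q ∉ q ∧ (f q).totalDegree ≤ N) :
    ∃ s' : Finset (Ideal (MvPolynomial σ k)),
      (∀ p, p ∈ s' ↔ ∃ q ∈ s, p ∈ (q ⊔ Ideal.span {f q}).minimalPrimes) ∧ Pd d s' ∧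
      ∃ c, ∀ L J, J * ∑ p ∈ s', hf p L ≤ ∑ q ∈ s, hf q (L + c + J * N) := by
  classical
  have hfin : ∀ q : Ideal (MvPolynomial σ k), (q ⊔ Ideal.span {f q}).minimalPrimes.Finite :=
    fun q => Ideal.finite_minimalPrimes_of_isNoetherianRing _ _
  choose c hc using fun q => hf_sum (hfin q).toFinset
    (fun p hp => ((hfin q).mem_toFinset.1 hp).isPrime) fun p hp p' hp' h =>
      le_antisymm h (((hfin q).mem_toFinset.1 hp').2 ((hfin q).mem_toFinset.1 hp).1 h)
  refine ⟨s.biUnion fun q => (hfin q).toFinset, fun p => by simp, fun p hp => ?_, s.sup c,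
    fun L J => ?_⟩
  · obtain ⟨q, hq, hp⟩ := Finset.mem_biUnion.1 hp
    rw [Set.Finite.mem_toFinset] at hp
    have := (hs q hq).1
    have h1 := Kr.krull' (k := k) (hf' q hq).1 hp
    rw [(hs q hq).2, Nat.cast_succ] at h1
    exact ⟨hp.isPrime, Cardinal.add_one_inj.1 h1⟩
  calc _ ≤ J * ∑ q ∈ s, ∑ p ∈ (hfin q).toFinset, hf p L :=
        Nat.mul_le_mul_left _ (sum_union_le _ _ _)
    _ ≤ _ := by
      rw [Finset.mul_sum]
      refine Finset.sum_le_sum fun q hq => ?_
      have := (hs q hq).1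
      refine (Nat.mul_le_mul_left _ ((hc q _ (fun p hp => ((hfin q).mem_toFinset.1 hp).le) L).trans
        (hf_mono _ (Nat.add_le_add_left (Finset.le_sup (f := c) hq) L)))).trans
        (hf_tel (hf' q hq).1 (hf' q hq).2 _ J)

theorem arith {d D N c L L₀ a : ℕ} {b : ℕ → ℕ} (hb : Monotone b) (hN : 0 < N) (hL : 0 < L)
    (h : ∀ J, J * a ≤ b (L + c + J * N)) (h1 : 2 * L + c + N ≤ L₀) (h2 : L₀ ≤ 3 * L)
    (h3 : b L₀ ≤ D * L₀ ^ (d + 1)) : a ≤ D * N * 3 ^ (d + 1) * L ^ d := by
  have h4 := Nat.lt_mul_div_succ L hN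
  have h5 := Nat.mul_div_le L N
  refine Nat.le_of_mul_le_mul_right ?_ hL
  calc a * L ≤ N * ((L / N + 1) * a) := by rw [← mul_assoc, mul_comm a]; gcongr
    _ ≤ N * (D * (3 * L) ^ (d + 1)) := by
      refine Nat.mul_le_mul_left _ ((h _).trans ((hb ?_).trans (h3.trans (by gcongr))))
      rw [mul_comm, mul_add, mul_one]
      omega
    _ = _ := by ring

omit [Finite σ] in
theorem deg_pos {N : ℕ} {q : Ideal (MvPolynomial σ k)} {f : MvPolynomial σ k} (h : f ∉ q)
    (hN : f.totalDegree ≤ N) (h0 : N = 0) {p : Ideal (MvPolynomial σ k)} :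
    p ∉ (q ⊔ Ideal.span {f}).minimalPrimes := fun hp => by
  have e := totalDegree_eq_zero_iff_eq_C.1 (Nat.eq_zero_of_le_zero (h0 ▸ hN))
  refine hp.isPrime.ne_top (p.eq_top_of_isUnit_mem
    (hp.le (Ideal.mem_sup_right (Ideal.mem_span_singleton_self f))) ?_)
  rw [e]
  exact (IsUnit.mk0 _ fun h1 => h (by rw [e, h1, map_zero]; exact q.zero_mem)).map C

/-- CUT, for bounds that hold often and for bounds that hold eventually. -/
theorem cut {d N : ℕ} {s : Finset (Ideal (MvPolynomial σ k))} (hs : Pd (d + 1) s)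
    (f : Ideal (MvPolynomial σ k) → MvPolynomial σ k)
    (hf' : ∀ q ∈ s, f q ∉ q ∧ (f q).totalDegree ≤ N) :
    ∃ s' : Finset (Ideal (MvPolynomial σ k)),
      (∀ p, p ∈ s' ↔ ∃ q ∈ s, p ∈ (q ⊔ Ideal.span {f q}).minimalPrimes) ∧ Pd d s' ∧ ∀ D,
      ((∃ᶠ L : ℕ in atTop, ∑ q ∈ s, hf q L ≤ D * L ^ (d + 1)) →
        ∃ᶠ L : ℕ in atTop, ∑ p ∈ s', hf p L ≤ D * N * 3 ^ (d + 1) * L ^ d) ∧
      ((∀ᶠ L : ℕ in atTop, ∑ q ∈ s, hf q L ≤ D * L ^ (d + 1)) →
        ∀ᶠ L : ℕ in atTop, ∑ p ∈ s', hf p L ≤ D * N * 3 ^ (d + 1) * L ^ d) := by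
  obtain ⟨s', h1, h2, c, hc⟩ := cut_core hs f hf'
  refine ⟨s', h1, h2, fun D => ?_⟩
  rcases Nat.eq_zero_or_pos N with h0 | h0
  · have : s' = ∅ := Finset.eq_empty_of_forall_notMem fun p hp => by
      obtain ⟨q, hq, hp⟩ := (h1 p).1 hp
      exact deg_pos (hf' q hq).1 (hf' q hq).2 h0 hp
    subst this
    exact ⟨fun _ => .of_forall fun _ => by simp, fun _ => .of_forall fun _ => by simp⟩
  have hb : Monotone fun L => ∑ q ∈ s, hf q L := fun _ _ h =>
    Finset.sum_le_sum fun q _ => hf_mono q h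
  refine ⟨fun h => frequently_atTop.2 fun a => ?_, fun h => ?_⟩
  · obtain ⟨L₀, h3, h4⟩ := frequently_atTop.1 h (3 * (a + c + N + 6))
    exact ⟨L₀ / 3 + 1, by omega, arith hb h0 (by omega) (hc _) (by omega) (by omega) h4⟩
  · obtain ⟨a, ha⟩ := eventually_atTop.1 h
    exact eventually_atTop.2 ⟨a + c + N + 1, fun L hL =>
      arith hb h0 (by omega) (hc _) (by omega) le_rfl (ha _ (by omega))⟩

theorem hf_le (I : Ideal (MvPolynomial σ k)) (L : ℕ) : hf I L ≤ (L + 1) ^ Nat.card σ := by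
  classical
  have := Fintype.ofFinite σ
  refine (Nat.le_add_right _ _).trans ((hf_add I L).le.trans ?_)
  have h1 := finrank_range_le_card (R := k) fun a : σ → Fin (L + 1) =>
    (monomial (Finsupp.equivFunOnFinite.symm fun i => (a i : ℕ)) 1 : MvPolynomial σ k)
  rw [Fintype.card_fun, Fintype.card_fin, ← Nat.card_eq_fintype_card] at h1
  have := Module.Finite.span_of_finite k (Set.finite_range fun a : σ → Fin (L + 1) =>
    (monomial (Finsupp.equivFunOnFinite.symm fun i => (a i : ℕ)) 1 : MvPolynomial σ k))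
  refine le_trans (Submodule.finrank_mono ((restrictTotalDegree_le_restrictDegree σ k L).trans
    ((restrictSupport_eq_span k _).le.trans (Submodule.span_mono ?_)))) h1
  rintro _ ⟨a, ha, rfl⟩
  exact ⟨fun i => ⟨a i, Nat.lt_succ_of_le (ha i)⟩, by simp⟩

/-- Every prime has the expected growth. -/
theorem start (p : Ideal (MvPolynomial σ k)) [p.IsPrime] {d : ℕ}
    (hd : trdeg k (MvPolynomial σ k ⧸ p) = d) :
    ∃ D, ∀ᶠ L : ℕ in atTop, hf p L ≤ D * L ^ d := by
  have key : ∀ (e : ℕ) (q : Ideal (MvPolynomial σ k)), q.IsPrime → q ≤ p →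
      trdeg k (MvPolynomial σ k ⧸ q) = e → (∃ D, ∀ᶠ L : ℕ in atTop, hf q L ≤ D * L ^ e) →
      ∃ D, ∀ᶠ L : ℕ in atTop, hf p L ≤ D * L ^ d := by
    intro e
    induction e using Nat.strong_induction_on with
    | _ e ih =>
      rintro q hq hqp he ⟨D, hD⟩
      rcases hqp.eq_or_lt with rfl | h
      · obtain rfl : e = d := by exact_mod_cast he.symm.trans hd
        exact ⟨D, hD⟩
      obtain ⟨f, h1, h2⟩ := SetLike.exists_of_lt h
      obtain ⟨q', h3, h4⟩ := Ideal.exists_minimalPrimes_le (I := q ⊔ Ideal.span {f})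
        (sup_le hqp ((Ideal.span_singleton_le_iff_mem _).2 h1))
      obtain ⟨e, rfl⟩ : ∃ e', e = e' + 1 := by
        refine Nat.exists_eq_succ_of_ne_zero fun h0 => ?_
        have := Kr.krull' (k := k) h2 h3
        rw [he, h0] at this
        simp at this
      obtain ⟨s', h5, h6, h7⟩ := cut (s := {q}) (d := e) (N := f.totalDegree)
        (fun _ h => Finset.mem_singleton.1 h ▸ ⟨hq, he⟩) (fun _ => f) (by simpa using h2)
      have h8 : q' ∈ s' := (h5 _).2 ⟨q, Finset.mem_singleton_self _, h3⟩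
      refine ih e e.lt_succ_self q' h3.isPrime h4 (h6 _ h8).2 ⟨_, ((h7 D).2 (by simpa using hD)).mono
        fun L hL => le_trans ?_ hL⟩
      exact Finset.single_le_sum (f := fun p => hf p L) (fun _ _ => Nat.zero_le _) h8
  refine key (Nat.card σ) ⊥ Ideal.isPrime_bot bot_le ?_ ⟨2 ^ Nat.card σ,
    (eventually_gt_atTop 0).mono fun L hL => (hf_le _ L).trans ?_⟩
  · rw [(AlgEquiv.quotientBot k _).trdeg_eq, MvPolynomial.trdeg_of_isDomain, Cardinal.lift_id,
      Nat.cast_card]
  · rw [← mul_pow]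
    exact Nat.pow_le_pow_left (by omega) _

theorem start' {d : ℕ} {s : Finset (Ideal (MvPolynomial σ k))} (hs : Pd d s) :
    ∃ D, ∀ᶠ L : ℕ in atTop, ∑ q ∈ s, hf q L ≤ D * L ^ d := by
  choose! D hD using fun q (hq : q ∈ s) => have := (hs q hq).1; start q (hs q hq).2
  refine ⟨∑ q ∈ s, D q, ((eventually_all_finset s).2 hD).mono fun L hL => ?_⟩
  rw [Finset.sum_mul]
  exact Finset.sum_le_sum hL

variable {E : Type} [Field E] [Algebra k E]

/-- The points of a prime of dimension zero. -/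
theorem count_zero (q : Ideal (MvPolynomial σ k)) [q.IsPrime]
    (hq : trdeg k (MvPolynomial σ k ⧸ q) = (0 : ℕ)) : ∀ᶠ L : ℕ in atTop,
    ∀ Z : Finset (σ → E), (∀ x ∈ Z, ∀ g ∈ q, aeval x g = 0) → Z.card ≤ hf q L := by
  have : Algebra.IsAlgebraic k (MvPolynomial σ k ⧸ q) := trdeg_eq_zero_iff.1 hq
  have : Module.Finite k (MvPolynomial σ k ⧸ q) := Algebra.IsIntegral.finite
  obtain ⟨G, hG⟩ := Module.Finite.fg_top (R := k) (M := MvPolynomial σ k ⧸ q)
  choose r hr using Ideal.Quotient.mkₐ_surjective k q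
  refine (eventually_ge_atTop (G.sup fun y => (r y).totalDegree)).mono fun L hL Z hZ => ?_
  have h1 : (restrictTotalDegree σ k L).map (Ideal.Quotient.mkₐ k q).toLinearMap = ⊤ :=
    top_unique (hG ▸ Submodule.span_le.2 fun y hy => ⟨r y, (mem_restrictTotalDegree _ _ _).2
      ((Finset.le_sup (f := fun y => (r y).totalDegree) hy).trans hL), hr y⟩)
  rw [hf, h1, finrank_top, ← Nat.card_eq_finsetCard]
  refine le_trans (Nat.card_le_card_of_injective
    (fun x : Z => Ideal.Quotient.liftₐ q (aeval x.1) (hZ x.1 x.2)) fun x y h => ?_)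
    (card_algHom_le_finrank k _ E)
  refine Subtype.ext (funext fun i => ?_)
  simpa using AlgHom.congr_fun h (Ideal.Quotient.mk q (X i))

omit [Finite σ] in
theorem exists_frob (q : Ideal (MvPolynomial σ k)) [q.IsPrime] {d : ℕ}
    (hq : trdeg k (MvPolynomial σ k ⧸ q) = (d + 1 : ℕ)) {Q : ℕ} (hQ : 1 < Q) :
    ∃ i, X i ^ Q - X i ∉ q := by
  obtain ⟨e, he⟩ := exists_ind q hq
  refine ⟨e 0, fun h => ?_⟩
  have h1 := algebraicIndependent_iff.1 he (X 0 ^ Q - X 0)
    (by simpa using Ideal.Quotient.eq_zero_iff_mem.2 h)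
  have h2 := congrArg totalDegree (sub_eq_zero.1 h1)
  rw [totalDegree_X_pow, totalDegree_X] at h2
  omega

/-- COUNT: the points whose coordinates satisfy `x ^ Q = x`. -/
theorem count {Q : ℕ} (hQ : 1 < Q) (d D : ℕ) (s : Finset (Ideal (MvPolynomial σ k))) (hs : Pd d s)
    (h : ∃ᶠ L : ℕ in atTop, ∑ q ∈ s, hf q L ≤ D * L ^ d) (Z : Finset (σ → E))
    (h1 : ∀ x ∈ Z, ∀ i, x i ^ Q = x i) (h2 : ∀ x ∈ Z, ∃ q ∈ s, ∀ g ∈ q, aeval x g = 0) :
    Z.card ≤ D * (3 ^ d * Q) ^ d := by
  classical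
  induction d generalizing D s with
  | zero =>
    obtain ⟨L, h3, h4⟩ := (h.and_eventually ((eventually_all_finset s).2 fun q hq =>
      have := (hs q hq).1; count_zero (E := E) q (hs q hq).2)).exists
    calc Z.card ≤ (s.biUnion fun q => Z.filter fun x => ∀ g ∈ q, aeval x g = 0).card :=
          Finset.card_le_card fun x hx => by simpa [hx] using h2 x hx
      _ ≤ ∑ q ∈ s, hf q L := Finset.card_biUnion_le.trans (Finset.sum_le_sum fun q hq =>
          h4 q hq _ fun x hx => (Finset.mem_filter.1 hx).2)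
      _ ≤ _ := by simpa using h3
  | succ d ih =>
    have h3 : ∀ q : Ideal (MvPolynomial σ k), ∃ f : MvPolynomial σ k, q ∈ s →
        (f ∉ q ∧ f.totalDegree ≤ Q) ∧ ∀ x ∈ Z, aeval x f = 0 := fun q => by
      by_cases hq : q ∈ s
      · have := (hs q hq).1
        obtain ⟨i, hi⟩ := exists_frob q (hs q hq).2 hQ
        refine ⟨_, fun _ => ⟨⟨hi, (totalDegree_sub _ _).trans ?_⟩, fun x hx => by simp [h1 x hx]⟩⟩
        rw [totalDegree_X_pow, totalDegree_X]
        omega
      · exact ⟨0, fun h => absurd h hq⟩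
    choose f hf' using h3
    obtain ⟨s', h4, h5, h6⟩ := cut hs f fun q hq => (hf' q hq).1
    refine (ih _ s' h5 ((h6 D).1 h) fun x hx => ?_).trans ?_
    · obtain ⟨q, hq, h7⟩ := h2 x hx
      have := RingHom.ker_isPrime (aeval x : MvPolynomial σ k →ₐ[k] E)
      obtain ⟨p, h8, h9⟩ := Ideal.exists_minimalPrimes_le (I := q ⊔ Ideal.span {f q})
        (J := RingHom.ker (aeval x : MvPolynomial σ k →ₐ[k] E))
        (sup_le h7 ((Ideal.span_singleton_le_iff_mem _).2 ((hf' q hq).2 x hx)))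
      exact ⟨p, (h4 p).2 ⟨q, hq, h8⟩, h9⟩
    · calc _ = D * (3 ^ (d + 1) * Q * (3 ^ d * Q) ^ d) := by ring
        _ ≤ D * (3 ^ (d + 1) * Q * (3 ^ (d + 1) * Q) ^ d) := by
          gcongr
          · norm_num
          · omega
        _ = _ := by ring

end Pool.Agent.MP_19ffc6_ag.Res.PF.Cut
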