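import Pool.Agent.MP_19ffc6_ag.Res.FSpec
import Pool.Agent.MP_19ffc6_ag.Res.FCut

/-! PROJECT RES, stage F: the modules KRULL, CUT and COUNT. -/

namespace Pool.Agent.MP_19ffc6_ag.Res.PF

open MvPolynomial Algebra Module Filter

variable {k : Type} [Field k]

namespace Cut

variable {σ : Type}

theorem dm_anti {p q : Ideal (MvPolynomial σ k)} (h : p ≤ q) : dm q ≤ dm p :=
  trdeg_le_of_surjective (Ideal.Quotient.factorₐ k h) (Ideal.Quotient.factor_surjective h)

variable [Finite σ]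

theorem dm_nat (p : Ideal (MvPolynomial σ k)) : ∃ e : ℕ, dm p = e :=
  Cardinal.lt_aleph0.1 trdeg_lt_aleph0_of_finiteType

theorem dm_lt {p q : Ideal (MvPolynomial σ k)} [p.IsPrime] [q.IsPrime] (h : p < q) :
    dm q + 1 ≤ dm p := by
  obtain ⟨f, h1, h2⟩ := SetLike.exists_of_lt h
  obtain ⟨q', h3, h4⟩ := Ideal.exists_minimalPrimes_le (I := p ⊔ Ideal.span {f})
    (sup_le h.le ((Ideal.span_singleton_le_iff_mem _).2 h1))
  exact (add_le_add_left (dm_anti h4) 1).trans (Kr.krull' (k := k) h2 h3).le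

theorem eq_of_dm {p q : Ideal (MvPolynomial σ k)} [p.IsPrime] [q.IsPrime] (h : p ≤ q)
    (hd : dm p ≤ dm q) : p = q := by
  by_contra hne
  obtain ⟨e, he⟩ := dm_nat q
  have h1 := (dm_lt (h.lt_of_ne hne)).trans hd
  rw [he] at h1
  exact absurd (by exact_mod_cast h1 : e + 1 ≤ e) (by omega)

theorem count' (κ : Finset k) (d D : ℕ) (s : Finset (Ideal (MvPolynomial σ k))) (hs : Pd d s)
    (h : ∃ᶠ L : ℕ in atTop, ∑ q ∈ s, hf q L ≤ D * L ^ d) (Z : Finset (σ → k))
    (h1 : ∀ x ∈ Z, ∀ i, x i ∈ κ) (h2 : ∀ x ∈ Z, ∃ q ∈ s, ∀ g ∈ q, aeval x g = 0) :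
    Z.card ≤ D * (3 ^ d * κ.card) ^ d := by
  classical
  induction d generalizing D s with
  | zero =>
    obtain ⟨L, h3, h4⟩ := (h.and_eventually ((eventually_all_finset s).2 fun q hq =>
      have := (hs q hq).1; count_zero (E := k) q (hs q hq).2)).exists
    calc Z.card ≤ (s.biUnion fun q => Z.filter fun x => ∀ g ∈ q, aeval x g = 0).card :=
          Finset.card_le_card fun x hx => by simpa [hx] using h2 x hx
      _ ≤ ∑ q ∈ s, hf q L := Finset.card_biUnion_le.trans (Finset.sum_le_sum fun q hq =>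
          h4 q hq _ fun x hx => (Finset.mem_filter.1 hx).2)
      _ ≤ _ := by simpa using h3
  | succ d ih =>
    have h3 : ∀ q : Ideal (MvPolynomial σ k), ∃ f : MvPolynomial σ k, q ∈ s →
        (f ∉ q ∧ f.totalDegree ≤ κ.card) ∧ ∀ x ∈ Z, aeval x f = 0 := fun q => by
      by_cases hq : q ∈ s
      · have := (hs q hq).1
        obtain ⟨e, he⟩ := exists_ind q (hs q hq).2
        refine ⟨∏ c ∈ κ, (X (e 0) - C c), fun _ => ⟨⟨fun h4 => ?_,
          (totalDegree_finsetProd _ _).trans ?_⟩, fun x hx => ?_⟩⟩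
        · obtain ⟨c, -, h5⟩ := Ideal.IsPrime.prod_mem_iff.1 h4
          have h6 := algebraicIndependent_iff.1 he (X 0 - C c)
            (by rw [map_sub, aeval_X, aeval_C]; exact Ideal.Quotient.eq_zero_iff_mem.2 h5)
          have h7 := congrArg totalDegree (sub_eq_zero.1 h6)
          simp at h7
        · refine (Finset.sum_le_card_nsmul _ _ 1 fun c _ => (totalDegree_sub _ _).trans ?_).trans
            (by simp)
          simp
        · rw [map_prod]
          exact Finset.prod_eq_zero (h1 x hx (e 0)) (by simp)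
      · exact ⟨0, fun h => absurd h hq⟩
    choose f hf' using h3
    obtain ⟨s', h4, h5, h6⟩ := cut hs f fun q hq => (hf' q hq).1
    refine (ih _ s' h5 ((h6 D).1 h) fun x hx => ?_).trans ?_
    · obtain ⟨q, hq, h7⟩ := h2 x hx
      have := RingHom.ker_isPrime (aeval x : MvPolynomial σ k →ₐ[k] k)
      obtain ⟨p, h8, h9⟩ := Ideal.exists_minimalPrimes_le (I := q ⊔ Ideal.span {f q})
        (J := RingHom.ker (aeval x : MvPolynomial σ k →ₐ[k] k))
        (sup_le h7 ((Ideal.span_singleton_le_iff_mem _).2 ((hf' q hq).2 x hx)))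
      exact ⟨p, (h4 p).2 ⟨q, hq, h8⟩, h9⟩
    · calc _ = D * (3 ^ (d + 1) * κ.card * (3 ^ d * κ.card) ^ d) := by ring
        _ ≤ D * (3 ^ (d + 1) * κ.card * (3 ^ (d + 1) * κ.card) ^ d) := by
          gcongr
          · norm_num
          · omega
        _ = _ := by ring

end Cut

open Cut

theorem krull : KrullStmt k := fun D _ _ _ _ e u q h1 h2 h3 => by
  have h4 := Kr.krull (k := k) h2 h3
  rw [h1, Nat.cast_succ] at h4
  exact Cardinal.add_one_inj.1 h4

theorem cutS : CutStmt k where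
  card ι _ e ν s h := (card_le (fun q hq => ⟨h.prime q hq, h.dim q hq⟩) h.gr).trans
    (Nat.mul_le_mul_left _ (Nat.pow_le_pow_left (by omega) _))
  inf ι _ e ν s h1 h2 h3 := by
    obtain ⟨c, hc⟩ := hf_sum s h1 fun p hp q hq h =>
      have := h1 p hp; have := h1 q hq; eq_of_dm h ((h2 p hp).trans (h2 q hq).symm).le
    refine ⟨h1, h2, frequently_atTop.2 fun a => ?_⟩
    obtain ⟨L, h4, h5⟩ := frequently_atTop.1 h3 (a + 2 * c)
    refine ⟨L - c, by omega, (hc (s.inf id) (fun q hq => Finset.inf_le (f := id) hq) _).trans ?_⟩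
    rw [show L - c + c = L by omega]
    calc _ ≤ ν * L ^ e := h5
      _ ≤ ν * (2 * (L - c)) ^ e := by gcongr; omega
      _ = _ := by ring
  grow ι _ p hp := by
    obtain ⟨e, he⟩ := dm_nat p
    obtain ⟨D, hD⟩ := start p he
    exact ⟨e, D, by simpa, by simpa,
      hD.frequently.mono fun c hc => by rw [Finset.sum_singleton]; exact hc⟩
  cut ι _ e ν N s u h _ hu := by
    obtain ⟨s', h1, h2, h3⟩ := cut (fun q hq => ⟨h.prime q hq, h.dim q hq⟩) u hu
    refine ⟨s', ⟨fun q hq => (h2 q hq).1, fun q hq => (h2 q hq).2,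
      ((h3 ν).1 h.gr).mono fun L hL => hL.trans ?_⟩, fun p' hp' => ?_, fun p hp q hq h4 h5 => ?_⟩
    · calc _ = 3 ^ (e + 1) * N * ν * L ^ e := by ring
        _ ≤ _ := by gcongr; norm_num
    · obtain ⟨p, hp, h4⟩ := (h1 p').1 hp'
      exact ⟨p, hp, le_sup_left.trans h4.le⟩
    · obtain ⟨p', h6, h7⟩ := Ideal.exists_minimalPrimes_le (I := p ⊔ Ideal.span {u p})
        (sup_le h4 ((Ideal.span_singleton_le_iff_mem _).2 h5))
      exact ⟨p', (h1 p').2 ⟨p, hp, h6⟩, h7⟩
  zero ι p q hp hq h0 h := by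
    have : Algebra.IsAlgebraic k (MvPolynomial ι k ⧸ p) := trdeg_eq_zero_iff.1 h0
    exact ((Ideal.Quotient.maximal_of_isField p (isField_of_isIntegral_of_isField'
      (R := k) (Field.toIsField k))).eq_of_le hq.ne_top h).symm

theorem cut_of (_ : KrullStmt k) : CutStmt k := cutS

theorem countS : CountStmt k := fun ι _ p e hp he => by
  obtain ⟨d, hd⟩ := dm_nat p
  obtain ⟨D, hD⟩ := start p hd
  have hde : d ≤ e := by exact_mod_cast hd ▸ he
  refine ⟨D * (3 ^ d) ^ d, fun κ Y hκ hY => (count' κ d D {p}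
    (fun _ h => Finset.mem_singleton.1 h ▸ ⟨hp, hd⟩) (by simpa using hD.frequently) Y
    (fun x hx => (hY x hx).1) fun x hx => ⟨p, Finset.mem_singleton_self _, (hY x hx).2⟩).trans ?_⟩
  rw [mul_pow, mul_assoc]
  gcongr
  exact hκ.card_pos

theorem count_of (_ : CutStmt k) : CountStmt k := countS

end Pool.Agent.MP_19ffc6_ag.Res.PF
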