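import Mathlib
import Pool.Agent.MP_19ffc6_ag.Res.FSpec

/-! PROJECT RES, stage F, modules FIL and NUMW: the filtration by integral closures. -/

namespace Pool.Agent.MP_19ffc6_ag.Res.PF

open Pool.Agent.MP_19ffc6_ag.Wild Pool.Agent.MP_19ffc6_ag.Res.PA Submodule Filter
  Pool.Agent.MP_19ffc6_ag.Res.Sup Pool.Agent.MP_19ffc6_ag.Res.PA.Num

variable {k K : Type} [Field k] [Field K] [Algebra k K]

namespace Fil

variable {T J : Submodule k K} {c b c' b' : ℕ} {x y : K}

theorem mul_FF (hx : x ∈ FF T J c b) (hy : y ∈ FF T J c' b') :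
    x * y ∈ FF T J (c + c') (b + b') := fun O h1 h2 t j ht hj => by
  rw [pow_add, pow_add, mul_mul_mul_comm, ← div_mul_div_comm]
  exact O.mul_mem (hx O h1 h2 t j ht hj) (hy O h1 h2 t j ht hj)

theorem t_FF (hx : x ∈ T) : x ∈ FF T J 1 0 := fun _ _ _ _ _ ht _ => by simpa using ht.2.2 x hx

theorem j_FF (hx : x ∈ J) : x ∈ FF T J 0 1 := fun _ _ _ _ _ _ hj => by simpa using hj.2.2 x hx

theorem alg_FF (hx : x ∈ alg T) : x ∈ FF T J 0 0 := fun O _ h _ _ _ _ => by
  simpa using Algebra.adjoin_le (S := O) h hx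

theorem int_FF (hx : IsIntegral (Algebra.adjoin k (T : Set K)) x) : x ∈ FF T J 0 0 :=
  fun O hO h _ _ _ _ => by simpa using hO.mem_of_isIntegral (Algebra.adjoin_le h) hx

theorem FF_succ (T J : Submodule k K) (c b : ℕ) : FF T J (c + 1) b ≤ FF T J c b :=
  fun x hx O h1 h2 t j ht hj => by
    have := O.mul_mem (hx O h1 h2 t j ht hj) (h2 t ht.1)
    have h0 := ht.2.1
    rwa [show x / (t ^ (c + 1) * j ^ b) * t = x / (t ^ c * j ^ b) by
      rw [pow_succ, mul_right_comm, div_mul_eq_mul_div, mul_div_mul_right _ _ h0]] at this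

theorem FF_anti (T J : Submodule k K) (b : ℕ) : Antitone fun c => FF T J c b :=
  antitone_nat_of_succ_le fun c => FF_succ T J c b

theorem mul_le_FF {X Y : Submodule k K} (hX : X ≤ FF T J c b) (hY : Y ≤ FF T J c' b') :
    X * Y ≤ FF T J (c + c') (b + b') := mul_le.2 fun _ hx _ hy => mul_FF (hX hx) (hY hy)

theorem tpow_le (T J : Submodule k K) (c : ℕ) : T ^ c ≤ FF T J c 0 := by
  induction c with
  | zero => rw [pow_zero]; exact one_le.2 (alg_FF (one_mem_alg T))
  | succ c ih => rw [pow_succ]; exact mul_le_FF ih fun _ => t_FF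

theorem jpow_le (T J : Submodule k K) (b : ℕ) : J ^ b ≤ FF T J 0 b := by
  induction b with
  | zero => rw [pow_zero]; exact one_le.2 (alg_FF (one_mem_alg T))
  | succ b ih => rw [pow_succ]; exact mul_le_FF ih fun _ => j_FF

theorem tpow_mul_le (T J : Submodule k K) (c b : ℕ) : T ^ c * FF T J 0 b ≤ FF T J c b := by
  simpa using mul_le_FF (tpow_le T J c) (le_refl (FF T J 0 b))

theorem t_mul_le (T J : Submodule k K) (b : ℕ) : T * FF T J 0 b ≤ FF T J 0 b := by
  simpa using (tpow_mul_le T J 1 b).trans (FF_succ T J 0 b)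

theorem j_mul_le (T J : Submodule k K) (c b : ℕ) : J * FF T J c b ≤ FF T J c (b + 1) := by
  simpa [add_comm] using mul_le_FF (fun _ => j_FF : J ≤ FF T J 0 1) (le_refl (FF T J c b))

/-- The bigraded Rees algebra. -/
noncomputable def Rp (T J : Submodule k K) : Subalgebra k (Polynomial (Polynomial K)) :=
  Algebra.adjoin k (mo 0 0 '' (T : Set K) ∪ (mo 1 0 '' (T : Set K) ∪ mo 0 1 '' (J : Set K)))

/-- Bigraded families that are modules over the Rees algebra. -/
structure Cl (T J : Submodule k K) (X : ℕ → ℕ → Submodule k K) : Prop where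
  a : ∀ c b, T * X c b ≤ X c b
  t : ∀ c b, T * X c b ≤ X (c + 1) b
  j : ∀ c b, J * X c b ≤ X c (b + 1)

/-- The module of bigraded sequences with values in `X`. -/
def Cl.md {X : ℕ → ℕ → Submodule k K} (h : Cl T J X) :
    Submodule (Rp T J) (Polynomial (Polynomial K)) where
  carrier := {f | ∀ c b, cf f c b ∈ X c b}
  add_mem' hf hg c b := by rw [cf_add]; exact add_mem (hf c b) (hg c b)
  zero_mem' c b := by rw [cf_zero]; exact zero_mem _
  smul_mem' := by
    rintro ⟨r, hr⟩ f hf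
    change ∀ c b, cf (r * f) c b ∈ X c b
    induction hr using Algebra.adjoin_induction generalizing f with
    | mem r hr =>
      rcases hr with ⟨t, ht, rfl⟩ | ⟨t, ht, rfl⟩ | ⟨j, hj, rfl⟩
      · intro c b
        rw [cf_c_mul]; exact h.a _ _ (mul_mem_mul ht (hf c b))
      · rintro (_ | c) b
        · rw [cf_t_mul_zero]; exact zero_mem _
        · rw [cf_t_mul_succ]; exact h.t _ _ (mul_mem_mul ht (hf c b))
      · rintro c (_ | b)
        · rw [cf_j_mul_zero]; exact zero_mem _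
        · rw [cf_j_mul_succ]; exact h.j _ _ (mul_mem_mul hj (hf c b))
    | algebraMap a =>
      intro c b
      have : algebraMap k (Polynomial (Polynomial K)) a = mo 0 0 (algebraMap k K a) := by
        simp [mo, Polynomial.algebraMap_apply]
      rw [this, cf_c_mul, ← Algebra.smul_def]
      exact smul_mem _ _ (hf c b)
    | add r s _ _ ihr ihs =>
      intro c b
      rw [add_mul, cf_add]
      exact add_mem (ihr hf c b) (ihs hf c b)
    | mul r s _ _ ihr ihs =>
      rw [mul_assoc]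
      exact ihr (ihs hf)

theorem Cl.mo_mem {X : ℕ → ℕ → Submodule k K} (h : Cl T J X) : mo c b x ∈ h.md ↔ x ∈ X c b := by
  constructor
  · intro h
    simpa [cf_mo] using h c b
  · intro h c' b'
    rw [cf_mo]
    split_ifs with e
    · exact e.1 ▸ e.2 ▸ h
    · exact zero_mem _

theorem Rp_fg (hT : T.FG) (hJ : J.FG) : (Rp T J).FG := by
  classical
  obtain ⟨s, hs⟩ := (hT.map (moL k 0 0)).sup ((hT.map (moL k 1 0)).sup (hJ.map (moL k 0 1)))
  refine ⟨s, ?_⟩
  rw [← Algebra.adjoin_span k (s := (s : Set (Polynomial (Polynomial K)))), hs]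
  refine le_antisymm (Algebra.adjoin_le ?_) (Algebra.adjoin_mono ?_)
  · exact sup_le (a := T.map (moL k 0 0)) (c := (Rp T J).toSubmodule)
      (fun _ h => Algebra.subset_adjoin (.inl h)) (sup_le
        (fun _ h => Algebra.subset_adjoin (.inr (.inl h)))
        fun _ h => Algebra.subset_adjoin (.inr (.inr h)))
  · rintro _ (h | h | h)
    · exact mem_sup_left h
    · exact mem_sup_right (mem_sup_left h)
    · exact mem_sup_right (mem_sup_right h)

theorem mo_zero_zero (x : K) : mo 0 0 x = algebraMap K (Polynomial (Polynomial K)) x := by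
  simp [mo, Polynomial.algebraMap_apply]

theorem mo_pow (c b : ℕ) (x : K) (n : ℕ) : mo c b x ^ n = mo (c * n) (b * n) (x ^ n) := by
  simp [mo, Polynomial.monomial_pow]

theorem Rp_alg (hT : T ≠ ⊥) (hJ : J ≠ ⊥)
    (h : Algebra.IsAlgebraic (Algebra.adjoin k (T : Set K)) K) :
    Algebra.IsAlgebraic (Rp T J) (Polynomial (Polynomial K)) := by
  let φ := IsScalarTower.toAlgHom k K (Polynomial (Polynomial K))
  have hφ : ∀ a : Algebra.adjoin k (T : Set K), φ a ∈ Rp T J := fun a =>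
    Algebra.adjoin_le (S := (Rp T J).comap φ)
      (fun t ht => Algebra.subset_adjoin (.inl ⟨t, ht, mo_zero_zero t⟩)) a.2
  have h0 : ∀ x : K, IsAlgebraic (Rp T J) (mo 0 0 x) := fun x => by
    rw [mo_zero_zero]
    exact (h.isAlgebraic x).ringHom_of_comp_eq
      ((φ.comp (Algebra.adjoin k (T : Set K)).val).codRestrict _ hφ).toRingHom φ.toRingHom
      (fun a b e => Subtype.ext (φ.toRingHom.injective (congrArg Subtype.val e))) rfl
  have h1 : ∀ c b (x : K), x ≠ 0 → mo c b x ∈ Rp T J → IsAlgebraic (Rp T J) (mo c b (1 : K)) := by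
    intro c b x hx hm
    refine IsAlgebraic.of_mul (mem_nonZeroDivisors_of_ne_zero ?_) (h0 x) ?_
    · rw [mo_zero_zero]; simpa using hx
    · rw [mo_mul_mo, zero_add, zero_add, mul_one]
      exact isAlgebraic_algebraMap (⟨_, hm⟩ : Rp T J)
  obtain ⟨t, ht, ht0⟩ := (Submodule.ne_bot_iff _).1 hT
  obtain ⟨j, hj, hj0⟩ := (Submodule.ne_bot_iff _).1 hJ
  have h2 := h1 1 0 t ht0 (Algebra.subset_adjoin (.inr (.inl ⟨t, ht, rfl⟩)))
  have h3 := h1 0 1 j hj0 (Algebra.subset_adjoin (.inr (.inr ⟨j, hj, rfl⟩)))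
  refine ⟨fun f => mem_of_mo (S := (Subalgebra.algebraicClosure (Rp T J)
    (Polynomial (Polynomial K))).toSubsemiring.toAddSubmonoid) fun c b => ?_⟩
  have := ((h0 (cf f c b)).mul (h2.pow c)).mul (h3.pow b)
  simp only [mo_pow, mo_mul_mo] at this
  change IsAlgebraic _ _
  simpa using this

theorem integral (hT : T.FG) (hT0 : T ≠ ⊥) (hJ : J.FG) (hJ0 : J ≠ ⊥) (hx : x ∈ FF T J c b) :
    IsIntegral (Rp T J) (algebraMap _ (FractionRing (Polynomial (Polynomial K))) (mo c b x)) := by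
  let ι := IsScalarTower.toAlgHom k (Polynomial (Polynomial K))
    (FractionRing (Polynomial (Polynomial K)))
  have hι : Function.Injective ι := IsFractionRing.injective _ _
  let φ := ι.comp (IsScalarTower.toAlgHom k K (Polynomial (Polynomial K)))
  have h : IsIntegral ((Rp T J).map ι) (ι (mo c b x)) := by
    refine isIntegral_of_val fun V hV hD => ?_
    have hO : Val (V.comap φ) := fun y => (hV (φ y)).imp id fun h => by
      rwa [Subalgebra.mem_comap, map_inv₀]
    obtain ⟨t, ht⟩ := hO.exists_gen hT hT0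
    obtain ⟨j, hj⟩ := hO.exists_gen hJ hJ0
    have h1 : φ (x / (t ^ c * j ^ b)) ∈ V := hx _ hO (fun t ht =>
      hD ⟨_, Algebra.subset_adjoin (.inl ⟨t, ht, mo_zero_zero t⟩), rfl⟩) t j ht hj
    have h2 : ι (mo 1 0 t) ∈ V := hD ⟨_, Algebra.subset_adjoin (.inr (.inl ⟨t, ht.1, rfl⟩)), rfl⟩
    have h3 : ι (mo 0 1 j) ∈ V := hD ⟨_, Algebra.subset_adjoin (.inr (.inr ⟨j, hj.1, rfl⟩)), rfl⟩
    have e : mo c b x = mo 0 0 (x / (t ^ c * j ^ b)) * (mo 1 0 t ^ c * mo 0 1 j ^ b) := by
      simp only [mo_pow, mo_mul_mo]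
      rw [div_mul_cancel₀ _ (mul_ne_zero (pow_ne_zero _ ht.2.1) (pow_ne_zero _ hj.2.1))]
      simp
    rw [e, map_mul, map_mul, map_pow, map_pow, mo_zero_zero]
    exact V.mul_mem h1 (V.mul_mem (V.pow_mem h2 c) (V.pow_mem h3 b))
  refine h.map_of_comp_eq ((Rp T J).equivMapOfInjective ι hι).symm.toRingEquiv.toRingHom
    (RingHom.id _) (RingHom.ext fun r => ?_)
  obtain ⟨r, rfl⟩ := ((Rp T J).equivMapOfInjective ι hι).surjective r
  simp
  rfl

/-- Finitely many elements generate the filtration. -/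
theorem gen [PerfectField k] {n : ℕ} (h : Fld n T) (hJ : J.FG) (hJ0 : J ≠ ⊥) :
    ∃ (ι : Type) (_ : Fintype ι) (c b : ι → ℕ) (g : ι → K), (∀ i, g i ∈ FF T J (c i) (b i)) ∧
      ∀ X, Cl T J X → (∀ i, g i ∈ X (c i) (b i)) → ∀ c b, FF T J c b ≤ X c b := by
  have hfg := Rp_fg h.fg hJ
  have : Algebra.FiniteType k (Rp T J) := (Subalgebra.fg_iff_finiteType _).1 hfg
  have : IsNoetherianRing (Rp T J) := isNoetherianRing_of_fg hfg
  have := h.eft
  have := Rp_alg h.ne hJ0 h.alg
  have : Algebra.FiniteType K (Polynomial (Polynomial K)) :=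
    .trans (S := Polynomial K) inferInstance inferInstance
  have : Algebra.EssFiniteType k (Polynomial (Polynomial K)) := .comp k K _
  have : Algebra.EssFiniteType (Polynomial (Polynomial K))
    (FractionRing (Polynomial (Polynomial K))) := .of_isLocalization _ (nonZeroDivisors _)
  have : Algebra.EssFiniteType k (FractionRing (Polynomial (Polynomial K))) :=
    .comp k (Polynomial (Polynomial K)) _
  have : Algebra.IsAlgebraic (Polynomial (Polynomial K))
    (FractionRing (Polynomial (Polynomial K))) := IsLocalization.isAlgebraic _ (nonZeroDivisors _)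
  have : Algebra.IsAlgebraic (Rp T J) (FractionRing (Polynomial (Polynomial K))) :=
    .trans _ (Polynomial (Polynomial K)) _
  have : FaithfulSMul (Rp T J) (FractionRing (Polynomial (Polynomial K))) :=
    (faithfulSMul_iff_algebraMap_injective (Rp T J) (FractionRing (Polynomial (Polynomial K)))).2
      fun _ _ e => Subtype.ext (IsFractionRing.injective (Polynomial (Polynomial K))
        (FractionRing (Polynomial (Polynomial K))) e)
  have h1 : (integralClosure (Rp T J) (FractionRing (Polynomial (Polynomial K)))).toSubmodule.FG :=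
    Module.Finite.iff_fg.1 (finite_icl k _ _)
  let Γ : Set (Polynomial (Polynomial K)) := {f | ∃ c b x, x ∈ FF T J c b ∧ f = mo c b x}
  have h2 : (span (Rp T J) Γ).FG := by
    refine fg_of_fg_map_injective (IsScalarTower.toAlgHom (Rp T J) _
      (FractionRing (Polynomial (Polynomial K)))).toLinearMap (IsFractionRing.injective _ _)
      (h1.of_le ?_)
    rw [Submodule.map_le_iff_le_comap, span_le]
    rintro _ ⟨c, b, x, hx, rfl⟩
    exact integral h.fg h.ne hJ hJ0 hx
  obtain ⟨s, hs, e⟩ := (fg_span_iff_fg_span_finset_subset _).1 h2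
  choose c b g hg hg' using fun i : s => hs i.2
  refine ⟨s, inferInstance, c, b, g, hg, fun X hX hi c' b' x hx => hX.mo_mem.1 ?_⟩
  have h3 : span (Rp T J) Γ ≤ hX.md := by
    rw [e, span_le]
    intro f hf
    rw [show f = _ from hg' ⟨f, hf⟩]
    exact hX.mo_mem.2 (hi _)
  exact h3 (subset_span ⟨c', b', x, hx, rfl⟩)

/-- The spaces generated by `G` under multiplication by `J`. -/
def Ee (J : Submodule k K) (G : ℕ → Submodule k K) : ℕ → Submodule k K
  | 0 => G 0
  | b + 1 => J * Ee J G b ⊔ G (b + 1)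

theorem le_Ee (J : Submodule k K) (G : ℕ → Submodule k K) : ∀ b, G b ≤ Ee J G b
  | 0 => le_rfl
  | _ + 1 => le_sup_right

theorem sm_of_mb {n μ : ℕ} {M N : Submodule k K} (h : ∀ b, Mb T J M b = Mb T J N b)
    (hs : Sm n μ T J M) : Sm n μ T J N := by
  unfold Sm at hs ⊢
  simpa only [h] using hs

theorem sm_pr {n μ : ℕ} {M : Submodule k K} (hT : T.FG) (hJ : J.FG) (hM : M.FG) (hx : x ≠ 0)
    (hs : Sm n μ T J M) : Sm n μ T J (pr k x * M) := hs.mono fun L hL => by
  have e : Mb T J (pr k x * M) L = pr k x * Mb T J M L := by unfold Mb; ring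
  rw [e, mul_left_comm, cod_pr_mul x (fun y hy => mem_pr_mul.2 ⟨y, hy, rfl⟩) (fun y _ hy => ?_)
    ((fam_Mb hT hJ hM).fd L L)]
  · exact hL
  · obtain ⟨z, hz, e⟩ := mem_pr_mul.1 hy
    exact mul_left_cancel₀ hx e ▸ hz

theorem ss_inj {W : K} (hW : SS T J W) (L : ℕ) (hx : x ∈ FF T J 0 b)
    (h : W * x ∈ FF T J L (b + 1)) : x ∈ FF T J L b := by
  induction L with
  | zero => exact hx
  | succ L ih => exact hW L b x (ih (FF_succ T J L _ h)) h

theorem cod_ss {W : K} (hJ : W ∈ J) (hW : SS T J W) (L : ℕ)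
    (h1 : Fd (FF T J 0 b) (FF T J L b)) (h2 : Fd (FF T J 0 (b + 1)) (FF T J L (b + 1))) :
    cod (FF T J 0 (b + 1)) (FF T J L (b + 1) ⊔ pr k W * FF T J 0 b) +
      cod (FF T J 0 b) (FF T J L b) = cod (FF T J 0 (b + 1)) (FF T J L (b + 1)) := by
  rw [← cod_pr_mul W (fun x hx => j_mul_le T J L b (mul_mem_mul hJ hx))
    (fun x hx => ss_inj hW L hx) h1]
  refine cod_add (fun y hy => ?_) h2
  obtain ⟨x, hx, rfl⟩ := mem_pr_mul.1 hy
  exact j_mul_le T J 0 b (mul_mem_mul hJ hx)

end Fil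

open Fil

theorem fil [PerfectField k] : FilStmt k K := by
  intro n T J h hJ hJ0
  obtain ⟨ι, _, c, b, g, hg, H⟩ := gen h hJ hJ0
  let G : ℕ → Submodule k K := fun b' => span k (g '' {i | c i = 0 ∧ b i = b'})
  have e1 : ∀ b', (Ee J G b').FG := fun b' => by
    induction b' with
    | zero => exact fg_span (Set.toFinite _)
    | succ b' ih => exact (hJ.mul ih).sup (fg_span (Set.toFinite _))
  have g1 : ∀ b', G b' ≤ FF T J 0 b' := fun b' => span_le.2 (by
    rintro _ ⟨i, ⟨h1, h2⟩, rfl⟩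
    exact h1 ▸ h2 ▸ hg i)
  have e2 : ∀ b', Ee J G b' ≤ FF T J 0 b' := fun b' => by
    induction b' with
    | zero => exact g1 0
    | succ b' ih => exact sup_le ((mul_le_mul_right ih _).trans (j_mul_le T J 0 b')) (g1 _)
  have e3 : ∀ b', Ee J G (Finset.univ.sup b + b') = Ee J G (Finset.univ.sup b) * J ^ b' := by
    intro b'
    induction b' with
    | zero => simp
    | succ b' ih =>
      have : G (Finset.univ.sup b + b' + 1) = ⊥ := by
        refine span_eq_bot.2 ?_
        rintro _ ⟨i, ⟨-, h2⟩, rfl⟩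
        have := Finset.le_sup (f := b) (Finset.mem_univ i)
        omega
      rw [← add_assoc, Ee, this, sup_bot_eq, ih]
      ring
  have hA : T * alg T ≤ alg T := mul_le.2 fun _ hx _ hy =>
    (Algebra.adjoin k (T : Set K)).mul_mem (Algebra.subset_adjoin hx) hy
  refine ⟨Finset.univ.sup b, Finset.univ.sup c, _, e1 (Finset.univ.sup b), fun b' => ?_, fun L b' => ?_⟩
  · rw [Mb, ← e3]
    refine le_antisymm ?_ (by simpa using mul_le_FF (fun _ => alg_FF) (e2 _))
    refine H (fun c' b' => if c' = 0 then alg T * Ee J G b' else ⊤) ⟨fun c' b' => ?_,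
      fun c' b' => by simp, fun c' b' => ?_⟩ (fun i => ?_) 0 _
    · split_ifs
      · rw [← mul_assoc]; exact mul_le_mul_left hA _
      · exact le_top
    · split_ifs
      · rw [mul_left_comm]; exact mul_le_mul_right le_sup_left _
      · exact le_top
    · split_ifs with h0
      · simpa using mul_mem_mul (one_mem_alg T) (le_Ee J G _ (subset_span ⟨i, ⟨h0, rfl⟩, rfl⟩))
      · trivial
  · have := H (fun c' b' => T ^ (c' - Finset.univ.sup c) * FF T J 0 b') ⟨fun c' b' => ?_,
      fun c' b' => ?_, fun c' b' => ?_⟩ (fun i => ?_) (L + Finset.univ.sup c) b'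
    · simpa using this
    · rw [mul_left_comm]; exact mul_le_mul_right (t_mul_le T J b') _
    · rcases le_or_gt (Finset.univ.sup c) c' with h1 | h1
      · rw [Nat.sub_add_comm h1, pow_succ', mul_assoc]
      · rw [Nat.sub_eq_zero_of_le h1, Nat.sub_eq_zero_of_le h1.le, pow_zero, one_mul]
        exact t_mul_le T J b'
    · rw [mul_left_comm]; exact mul_le_mul_right (j_mul_le T J 0 b') _
    · rw [Nat.sub_eq_zero_of_le (Finset.le_sup (Finset.mem_univ i)), pow_zero, one_mul]
      exact FF_anti T J _ (Nat.zero_le _) (hg i)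

theorem numw_of [Infinite k] (h : FilStmt k K) : NumwStmt k K := by
  intro e μ T J M₀ W hF hJ hJ0 hM hS hG hW hs
  obtain ⟨β, e₀, MM, h1, h2, h3⟩ := h _ T J hF hJ hJ0
  obtain ⟨j, hj, hj0⟩ := (Submodule.ne_bot_iff _).1 hJ0
  have hjb : j ^ β ∈ FF T J 0 β := jpow_le T J β (pow_mem_pow J hj β)
  have hS' : Sm (e + 1) μ T J MM := by
    obtain ⟨s, rfl⟩ := id hM
    have := hF.alg
    obtain ⟨a, ha0, ha⟩ :=
      Algebra.IsAlgebraic.exists_integral_multiples (Algebra.adjoin k (T : Set K)) s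
    have hδ : j ^ β * a.1 ≠ 0 := mul_ne_zero (pow_ne_zero _ hj0) fun e => ha0 (Subtype.ext e)
    have hN := ((fg_span_singleton (R := k) (j ^ β * a.1)⁻¹).mul h1).sup hM
    refine sm_of_mb (fun b => ?_) (sm_pr hF.fg hJ hN hδ (hS _ hN le_sup_right))
    have e1 : pr k (j ^ β * a.1) * (span k {(j ^ β * a.1)⁻¹} * MM) = MM := by
      rw [← mul_assoc, pr, span_mul_span, Set.singleton_mul_singleton, mul_inv_cancel₀ hδ,
        ← one_eq_span, one_mul]
    have e2 : pr k (j ^ β * a.1) * span k (s : Set K) ≤ FF T J 0 β := by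
      rw [pr, span_mul_span, span_le]
      rintro _ ⟨_, rfl, z, hz, rfl⟩
      simp only [SetLike.mem_coe, mul_assoc]
      exact mul_FF hjb (int_FF (ha z hz))
    rw [Submodule.mul_sup, e1, Mb, Submodule.sup_mul, Submodule.mul_sup]
    refine sup_eq_left.2 (le_of_le_of_eq ?_ (h2 b))
    simpa using mul_le_FF (fun _ => alg_FF) (mul_le_FF e2 (jpow_le T J b))
  obtain ⟨P, _, b₀, p1, p2, -, -, H⟩ := sm_gr hF.fg hJ h1
  obtain ⟨W₁, hW₁, p3, hs₁⟩ := hG P p1 p2
  refine ⟨MM, h1, fun e0 => pow_ne_zero β hj0 ?_, eventually_atTop.2 ⟨b₀, fun b hb => ?_⟩⟩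
  · have := (h2 0).le hjb
    simpa [Mb, e0] using this
  have hg := (H b hb μ e hS').2.1 W₁ hW₁ p3 1 one_ne_zero W₁ (by simp)
  have fam := fam_Mb hF.fg hJ h1
  have fd : ∀ b L (Q : Submodule k K), T ^ L * FF T J 0 (β + b) ≤ Q → Fd (FF T J 0 (β + b)) Q :=
    fun b L Q hQ => by
      rw [h2] at hQ ⊢
      exact fam.fd' le_rfl hQ
  unfold Gr at hg ⊢
  rw [← h2, ← h2, ← add_assoc] at hg ⊢
  refine frequently_atTop.2 fun a => ?_
  obtain ⟨L', hL, hc⟩ := frequently_atTop.1 hg (a + e₀ + e₀)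
  obtain ⟨L, rfl⟩ : ∃ L, L' = L + e₀ := ⟨L' - e₀, by omega⟩
  have f1 := fd b _ _ (tpow_mul_le T J (L + e₀) _)
  have f2 := fd (b + 1) _ _ (tpow_mul_le T J (L + e₀) _)
  have c1 := cod_ss hW hs _ f1 f2
  have c2 := cod_ss hW₁ hs₁ _ f1 f2
  have c3 := (cod_mono (Q := T ^ L * FF T J 0 (β + b + 1) ⊔ pr k W * FF T J 0 (β + b)) le_rfl
    (fun x _ hx => sup_le_sup_right (h3 L _) _ hx)
    (fd (b + 1) _ _ (le_sup_of_le_left (tpow_mul_le T J (L + e₀) _)))).2
  have c4 := (cod_mono (Q := FF T J (L + e₀) (β + b + 1) ⊔ pr k W₁ * FF T J 0 (β + b)) le_rfl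
    (fun x _ hx => sup_le_sup_right (tpow_mul_le T J (L + e₀) _) _ hx)
    (fd (b + 1) (L + e₀) _ le_sup_left)).2
  have c5 : (L + e₀) ^ e ≤ 2 ^ e * L ^ e := by
    rw [← mul_pow]
    exact Nat.pow_le_pow_left (by omega) _
  refine ⟨L, by omega, ?_⟩
  simp only [← add_assoc] at c3 c4
  calc _ ≤ 2 * μ * (L + e₀) ^ e := by omega
    _ ≤ 2 * μ * (2 ^ e * L ^ e) := Nat.mul_le_mul_left _ c5
    _ = _ := by ring

end Pool.Agent.MP_19ffc6_ag.Res.PF
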