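import Pool.Agent.MP_19ffc6_ag.Res.FSpec
import Pool.Agent.MP_19ffc6_ag.Res.AFin

/-! PROJECT RES, stage F, module FINN: from a good tuple of any degree to the fibration. -/

namespace Pool.Agent.MP_19ffc6_ag.Res.PF

open Pool.Agent.MP_19ffc6_ag.Wild Submodule Pool.Agent.MP_19ffc6_ag.Res.PA
open Pool.Agent.MP_19ffc6_ag.Res.PA.Num Pool.Agent.MP_19ffc6_ag.Res.PA.Fl

variable {k K : Type} [Field k] [Field K] [Algebra k K] {m : ℕ}

namespace FinN

theorem nonempty_pos {B : Finset K} {N : ℕ} {x : K} (hN : 0 < N)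
    (hx : x ∈ span k (B : Set K) ^ N) (h0 : x ≠ 0) : B.Nonempty := by
  obtain ⟨n, rfl⟩ := Nat.exists_eq_succ_of_ne_zero hN.ne'
  exact nonempty_of hx h0

theorem resi [IsAlgClosed k] (low : LowStmt k) (p : ℕ) [Fact p.Prime] [CharP k p] {C N : ℕ}
    {B : Finset K} {s : Fin (m + 2) → K} {w : DV k K} (hC : Big k C) (hN : 0 < N)
    (hB : ∀ σ ∈ B, σ ≠ 0) (hs : ∀ j, s j ∈ span k (B : Set K) ^ N) (h0 : s 0 ≠ 0)
    (hord : w.ord (s 0) = N * w.ordS (span k (B : Set K)))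
    (hi : w.Ind (Fin.init (crd s) : Fin m → K))
    (hn : ∀ g : Fin (m + 1) → K, (∀ i, g i ∈ w.fil 0) → ¬ w.Ind g)
    (H : ∀ σ ∈ B, w.Min (span k (B : Set K)) σ → ∀ T, Hyp (span k (B : Set K)) σ T →
      (1 : K) ∉ nn T ⊔ w.fil 1 → OnW C w T fun j => s j / σ ^ N) : Alt C w (crd s) := by
  classical
  obtain ⟨σ₀, h1, h2⟩ := exists_min w hB (nonempty_pos hN (hs 0) h0)
  have hσ₀ := hB _ h1
  have hU : (span k (B : Set K)).comap (LinearMap.mulLeft k σ₀) ≤ w.fil 0 := fun x hx => by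
    simpa [hσ₀] using h2 _ hx
  obtain ⟨E, _, _, r, A, h⟩ := exists_rs w hU
  set U := (span k (B : Set K)).comap (LinearMap.mulLeft k σ₀) with hUd
  have hp := h.map_pow h.le N
  have hsA : ∀ j, s j / σ₀ ^ N ∈ A := fun j => hp.1 _ (div_pow_mem_comap hσ₀ _ (hs j))
  have h3 : r (s 0 / σ₀ ^ N) ≠ 0 := fun e => by
    have h3 := (h.ker _ (hsA 0) e).resolve_left (div_ne_zero h0 (pow_ne_zero _ hσ₀))
    rw [ord_div h0 (pow_ne_zero _ hσ₀), ord_pow hσ₀, hord, (min_of (subset_span h1) hσ₀ h2).2.2] at h3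
    omega
  have h4 : ∀ j, s j / s 0 ∈ A ∧
      r (s j / s 0) = r (s j / σ₀ ^ N) / r (s 0 / σ₀ ^ N) := fun j => by
    simpa only [div_div_div_cancel_right₀ (pow_ne_zero _ hσ₀)] using h.div (hsA j) (hsA 0) h3
  let B' : Finset E := (B.image fun σ => r (σ / σ₀)).erase 0
  have h5 : span k (B' : Set E) = U.map r := by
    refine le_antisymm (span_le.2 fun z hz => ?_) ?_
    · obtain ⟨σ, hσ, rfl⟩ := Finset.mem_image.1 (Finset.mem_of_mem_erase hz)
      refine mem_map_of_mem (?_ : σ₀ * _ ∈ span k (B : Set K))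
      rw [mul_div_cancel₀ _ hσ₀]
      exact subset_span hσ
    · rintro _ ⟨x, hx, rfl⟩
      have : ∀ v ∈ span k (B : Set K), r (v / σ₀) ∈ span k (B' : Set E) := fun v hv => by
        induction hv using span_induction with
        | mem b hb =>
          by_cases c : r (b / σ₀) = 0
          · rw [c]; exact zero_mem _
          · exact subset_span (Finset.mem_erase.2 ⟨c, Finset.mem_image_of_mem _ hb⟩)
        | zero => simp
        | add a b _ _ ha hb => rw [add_div, map_add]; exact add_mem ha hb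
        | smul c a _ ha => rw [smul_div_assoc, map_smul]; exact smul_mem _ _ ha
      simpa [hσ₀] using this _ hx
  have h6 : (1 : E) ∈ U.map r := ⟨1, by simpa [hUd] using subset_span h1, h.one⟩
  have hx : (fun i : Fin m => r (s i.succ.castSucc / σ₀ ^ N) / r (s 0 / σ₀ ^ N)) =
      fun i => r ((Fin.init (crd s) : Fin m → K) i) := funext fun i => (h4 _).2.symm
  have hxA : ∀ i, (Fin.init (crd s) : Fin m → K) i ∈ A := fun i => (h4 _).1
  have hind := (h.ind_iff hxA).2 hi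
  have hfin : FiniteDimensional (IntermediateField.adjoin k
      (Set.range fun i => r ((Fin.init (crd s) : Fin m → K) i))) E := by
    set F := IntermediateField.adjoin k (Set.range fun i => r ((Fin.init (crd s) : Fin m → K) i))
    have h7 : FiniteDimensional F (IntermediateField.adjoin F (B' : Set E)) := by
      refine IntermediateField.finiteDimensional_adjoin fun z hz => ?_
      obtain ⟨a, ha, rfl⟩ : z ∈ U.map r := h5 ▸ subset_span hz
      refine (IntermediateField.isAlgebraic_adjoin_iff.2 (not_not.1 fun c => ?_)).isIntegral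
      have hg : ∀ i, (Fin.cons a (Fin.init (crd s)) : Fin (m + 1) → K) i ∈ A :=
        Fin.cases (h.le a ha) hxA
      refine hn _ (fun i => h.vr _ (hg i)) ((h.ind_iff hg).1 ?_)
      have := ((hind.option_iff_transcendental _).2 c).comp _ (finSuccEquiv m).injective
      refine (congrArg (fun f : Fin (m + 1) → E => AlgebraicIndependent k f)
        (funext fun i => ?_)).mp this
      induction i using Fin.cases <;> simp
    have h8 : IntermediateField.adjoin F (B' : Set E) = ⊤ := by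
      refine eq_top_iff.2 fun z _ => ?_
      have : IntermediateField.adjoin k (U.map r : Set E) ≤
          (IntermediateField.adjoin F (B' : Set E)).restrictScalars k :=
        IntermediateField.adjoin_le_iff.2 (h5 ▸ (span_le (p := ((IntermediateField.adjoin F
          (B' : Set E)).restrictScalars k).toSubalgebra.toSubmodule)).2
          (IntermediateField.subset_adjoin F _))
      exact this (h.top.ge IntermediateField.mem_top)
    rw [h8] at h7
    exact IntermediateField.topEquiv.toLinearEquiv.finiteDimensional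
  refine ⟨E, inferInstance, inferInstance, fun i => r ((Fin.init (crd s) : Fin m → K) i),
    r (crd s (Fin.last m)), ?_, fun P hP => ?_⟩
  · have := ExpChar.prime (R := k) (Fact.out : p.Prime)
    rw [← hx] at hind hfin ⊢
    refine cov_of (low_of low) p (r := N) (lt_of_big p hC) B'
      (fun σ hσ => Finset.ne_of_mem_erase hσ) ⟨1, Finset.mem_erase.2 ⟨one_ne_zero,
        Finset.mem_image.2 ⟨σ₀, h1, by rw [div_self hσ₀, h.one]⟩⟩⟩
      (fun j : Fin (m + 1) => r (s j.castSucc / σ₀ ^ N)) h3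
      (fun j => by rw [h5, ← hp.2]; exact mem_map_of_mem (div_pow_mem_comap hσ₀ _ (hs _)))
      hind hfin fun σ' hσ' T' hT' h7 => ?_
    obtain ⟨σ, hσ, rfl⟩ := Finset.mem_image.1 (Finset.mem_of_mem_erase hσ')
    rw [h5] at hT'
    obtain ⟨T, hT, rfl, hA, hmin⟩ := h.pull hσ₀ (fun _ => Iff.rfl) (subset_span hσ) hT'
    have h8 : ∀ j, r (s j / σ₀ ^ N) / r (σ / σ₀) ^ N = r (s j / σ ^ N) :=
      fun j => by
        have h9 : σ / σ₀ ∈ A := h.le _ (by simpa [hUd, mul_div_cancel₀ _ hσ₀] using subset_span hσ)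
        have := (h.div (hsA j) (A.pow_mem h9 N)
          (by rw [h.pow h9]; exact pow_ne_zero _ hT'.ne)).2
        rw [h.pow h9, div_pow, div_div_div_cancel_right₀ (pow_ne_zero _ hσ₀)] at this
        exact this.symm
    have h9 : ∀ j, s j / σ ^ N ∈ alg T := fun j => Hyp.div_pow_mem hT _ (hs j)
    obtain ⟨⟨i₀, h10⟩, h11⟩ := H σ hσ hmin T hT fun e => h7 (by
      obtain ⟨a, ha, b, hb, e⟩ := mem_sup.1 e
      have := congrArg r e
      rw [map_add, h.zero b hb, add_zero, h.one] at this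
      exact this ▸ h.map_nn hA ▸ mem_map_of_mem ha)
    simp only [h8]
    refine ⟨i₀, fun e => h10 ((h.mem_nn hA h7 (h9 _)).2 e), fun c hc => ?_⟩
    have h12 : ∀ i, num (fun j => s j / σ ^ N) i₀ c i ∈ alg T := fun i =>
      sub_mem (h9 _) (smul_mem _ _ (h9 _))
    obtain ⟨X, h13, h14, h15, h16⟩ := h11 i₀ c h10 fun i =>
      (h.mem_nn hA h7 (h12 i)).2 (by simpa only [num, map_sub, map_smul] using hc i)
    obtain ⟨z, h17, h18⟩ := SetLike.not_le_iff_exists.1 h15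
    let l := r ∘ₗ LinearMap.mulRight k z⁻¹
    have h19 : ∀ a ∈ A, ∀ x ∈ w.fil 0, l (a * x) = r a * l x := fun a ha x hx =>
      (congrArg r (mul_assoc _ _ _)).trans (h.mul a ha _ (DV.mul_fil hx (inv_mem_fil h18)))
    have h20 := h.ld hA (l := l) (fun i => Rs.alg_le hA (h12 i)) (fun a ha x hx => h19 a ha x
      (mul_le.2 (fun a ha x hx => DV.mul_fil (h.vr a (Rs.alg_le hA ha)) (h14 hx)) hx))
      (fun x hx => h.zero _ (DV.mul_fil hx (inv_mem_fil h18))) h16
    rw [Rs.map_mul fun a ha x hx => h19 a (Rs.alg_le hA ha) x (h14 hx), h.map_alg hA] at h20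
    refine ⟨X.map l, h13.map _, spn_of_top (eq_top_iff.2 (h.top.ge.trans
      (IntermediateField.adjoin_le_iff.2 fun u hu => ?_))) ((Submodule.ne_bot_iff _).2
        ⟨1, ⟨z, h17, ?_⟩, one_ne_zero⟩), by simpa only [num, map_sub, map_smul] using h20⟩
    · simpa using Hyp.div_mem_adjoin hT' hu h6
    · exact (congrArg r (mul_inv_cancel₀ fun e => h18 (Or.inl e))).trans h.one
  · have hA : ∀ i, crd s i ∈ A := fun i => (h4 _).1
    refine h.ker _ (h.aeval hA P).1 ((h.aeval hA P).2.trans (Eq.trans ?_ hP))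
    congr 2
    funext i
    induction i using Fin.lastCases <;> simp [Fin.init]

theorem cov [IsAlgClosed k] (low : LowStmt k) {t : Fin (m + 1) → K}
    {d : Fin (m + 1) → Derivation k K K} {S B : Finset K} {C N : ℕ} {V M₀ : Submodule k K}
    {s : Fin (m + 2) → K} (hN : 0 < N) (hF : Fr t d) (hM : Spn V M₀)
    (h : TupN d S C V M₀ B N s) : Cov k K (crd s) C := by
  obtain ⟨h0, h1⟩ := wr_crd h.wr
  have hG := hF.of_jac (right_ne_zero_of_mul (h1 ▸ h.wr))
  obtain rfl := h.span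
  refine ⟨hG.ind, hG.fin, hG.sep, fun N' _ _ O hO Φ φ₀ hΦ => ?_⟩
  have key := cong_of (low_of low) (C := C) B h.ne (nonempty_pos hN (h.mem 0) h0) s h0 h.mem hG.ind
    hG.fin (fun σ hσ T hT h2 => ?_) N' O hO Φ φ₀ hΦ
  · exact (mul_one _).ge.trans ((Nat.mul_le_mul_left _
      ((isSeparable_iff_finInsepDegree_eq_one _ _).1 hG.sep).ge).trans key)
  obtain ⟨i₀, h3⟩ := (h.pt σ hσ T hT h2).bpf
  refine ⟨i₀, h3, fun c hc => ?_⟩
  obtain ⟨MM, b, h4, h5, h6⟩ := (h.pt σ hσ T hT h2).cx i₀ c h3 hc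
  refine ⟨_, h4.mul ((JJ_fg (Hyp.fg hT ⟨B, rfl⟩)).pow b), fun z => ?_, h6⟩
  obtain ⟨W, h7, h8⟩ : ∃ W ∈ JJ d T, W ≠ 0 := (Submodule.ne_bot_iff _).1 fun e => by
    have h7 : Wr d (fun j => s j / σ ^ N) ∈ alg T * JJ d (alg T) :=
      WW_le_mul (wr_mem fun j => Hyp.div_pow_mem hT _ (h.mem j))
    have h8 := mul_le_mul_right (JJ_adjoin (d := d) T) (alg T) h7
    rw [e, mul_bot, mul_bot, mem_bot] at h8
    exact h.wr (by rw [wr_div (pow_ne_zero N hT.ne), h8, mul_zero])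
  obtain ⟨a, h9, h10, h11⟩ := hM σ T hT (z / W ^ b)
  refine ⟨a, h9, h10, ?_⟩
  rw [← mul_assoc, show a * z = a * (z / W ^ b) * W ^ b by field_simp]
  exact mul_mem_mul (mul_le_mul_right h5 _ h11) (pow_mem_pow _ h7 b)

open scoped IntermediateField.algebraAdjoinAdjoin in
theorem prm_of {w : DV k K} {N : ℕ} {V : Submodule k K} {σ : K} (hσ : σ ∈ V) (h0 : σ ≠ 0)
    (h2 : ∀ v ∈ V, v / σ ∈ w.fil 0) {s : Fin (m + 2) → K} (hs : ∀ j, s j ∈ V ^ N)
    (h3 : s 0 / σ ^ N ∉ w.fil 1) (hi : w.Ind (Fin.init (crd s) : Fin m → K)) :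
    Prm m V w := by
  obtain ⟨E, _, _, r, A, h⟩ := exists_rs w (U := V.comap (LinearMap.mulLeft k σ)) fun x hx => by
    simpa [h0] using h2 _ hx
  have hA : ∀ j, s j / σ ^ N ∈ A := fun j =>
    (h.map_pow h.le N).1 _ (div_pow_mem_comap h0 _ (hs j))
  have h4 : ∀ j, s j / s 0 ∈ A := fun j => by
    simpa only [div_div_div_cancel_right₀ (pow_ne_zero _ h0)] using
      (h.div (hA j) (hA 0) fun e => h3 (h.ker _ (hA 0) e)).1
  have h5 := ((h.ind_iff (g := (Fin.init (crd s) : Fin m → K)) fun i => h4 _).2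
    hi).lift_cardinalMk_le_trdeg
  have : Algebra.IsAlgebraic
      (Algebra.adjoin k ((V.comap (LinearMap.mulLeft k σ)).map r : Set E)) E := by
    rw [← IntermediateField.isAlgebraic_adjoin_iff_top, h.top, Algebra.isAlgebraic_iff_isIntegral]
    exact Algebra.isIntegral_of_surjective IntermediateField.topEquiv.surjective
  obtain ⟨Y, h6, h7⟩ := exists_isTranscendenceBasis_subset (R := k)
    ((V.comap (LinearMap.mulLeft k σ)).map r : Set E)
  rw [← h7.cardinalMk_eq_trdeg, Cardinal.lift_id, Cardinal.lift_id] at h5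
  obtain ⟨f⟩ := (Cardinal.le_def _ _).1 h5
  choose g hg e using fun i => h6 (f i).2
  refine ⟨σ, min_of hσ h0 h2, g, hg, (h.ind_iff fun i => h.le _ (hg i)).1 ?_⟩
  simp only [e]
  exact h7.1.comp f f.injective

theorem hor [IsAlgClosed k] (low : LowStmt k) (p : ℕ) [Fact p.Prime] [CharP k p]
    {t : Fin (m + 1) → K} {d : Fin (m + 1) → Derivation k K K} {S B : Finset K} {C N : ℕ}
    {V M₀ : Submodule k K} {s : Fin (m + 2) → K} {w : DV k K} (hC : Big k C) (hC0 : 0 < C)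
    (hN : 0 < N) (hF : Fr t d) (h : TupN d S C V M₀ B N s) (hg : ∀ i, crd s i ∈ w.fil 0)
    (hi : w.Ind (Fin.init (crd s) : Fin m → K)) :
    ((∀ r ∈ S, w.ord r = 0) ∧ ∃ P : MvPolynomial (Fin (m + 1)) k,
      w.ord (MvPolynomial.aeval (crd s) P) = 1) ∨ Alt C w (crd s) := by
  obtain ⟨h0, h1⟩ := wr_crd h.wr
  obtain rfl := h.span
  have hn : ∀ g : Fin (m + 1) → K, (∀ i, g i ∈ w.fil 0) → ¬ w.Ind g :=
    fun g => not_ind hF.trdeg (Fintype.card_fin _)
  obtain ⟨σ₀, h2, T₀, hT₀, h3, R, ψ, h4, h5, h6⟩ := Fl.exists_point B h.ne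
    (nonempty_pos hN (h.mem 0) h0) (val_vr w) {AlgHom.id k K} (AlgHom.id k K) (by simp [Un])
  have h7 : T₀ ≤ kerS R ψ := h4 _ (Finset.mem_singleton_self _)
  have h8 : ∀ x ∈ alg T₀, x ∈ R := fun x => Rs.alg_le fun t ht => (mem_kerS.1 (h7 ht)).1
  have h9 : ∀ v ∈ span k (B : Set K), v / σ₀ ∈ w.fil 0 := fun v hv =>
    h5 (h8 _ (one_sup_le _ (Hyp.div_mem hT₀ hv)))
  have hm₀ := min_of (subset_span h2) hT₀.ne h9
  have h10 : s 0 / σ₀ ^ N ∉ w.fil 1 := fun c => by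
    obtain ⟨j, hj⟩ := (h.pt σ₀ h2 T₀ hT₀ h3).bpf
    have h10 : s j / σ₀ ^ N ∈ w.fil 1 := by
      rw [show s j / σ₀ ^ N = s j / s 0 * (s 0 / σ₀ ^ N) by field_simp]
      refine mul_fil_one (Fin.cases ?_ hg j) c
      rw [div_self h0]
      exact w.vr.one_mem
    have h11 := Hyp.div_pow_mem hT₀ _ (h.mem j)
    obtain ⟨a, ha⟩ := exists_val h11
    obtain ⟨h12, h13⟩ := mem_kerS.1 (nn_le_kerS h7 ha)
    have e : (⟨_, h12⟩ : R) = ⟨_, h8 _ h11⟩ - algebraMap k R a := rfl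
    rw [e, map_sub, AlgHom.commutes, h6 _ fun u => one_notMem_fil
      (inv_mul_cancel₀ u.2.1 ▸ mul_fil_one u.2.2 h10), zero_sub, neg_eq_zero] at h13
    exact hj (by simpa [show a = 0 from h13] using ha)
  have hord : w.ord (s 0) = N * w.ordS (span k (B : Set K)) := by
    have h11 := (h5 (h8 _ (Hyp.div_pow_mem hT₀ _ (h.mem 0)))).resolve_left
      (div_ne_zero h0 (pow_ne_zero _ hT₀.ne))
    rw [mem_fil, not_or] at h10
    rw [ord_div h0 (pow_ne_zero _ hT₀.ne), ord_pow hT₀.ne, hm₀.2.2] at h10 h11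
    omega
  have hmin : ∀ σ, w.Min (span k (B : Set K)) σ → ∀ v ∈ span k (B : Set K), v / σ ∈ w.fil 0 :=
    fun σ hσ v hv => by
      rw [show v / σ = v / σ₀ * (σ₀ / σ) by have := hT₀.ne; field_simp]
      exact w.vr.mul_mem (h9 v hv) (Or.inr (by rw [ord_div hT₀.ne hσ.2.1, hσ.2.2, hm₀.2.2]; omega))
  by_cases hD : w ∈ DD d S (span k (B : Set K))
  · refine Or.inr (resi low p hC hN h.ne h.mem h0 hord hi hn fun σ hσ hm T hT h11 => ?_)
    have hA := h.pt σ hσ T hT fun e => h11 (mem_sup_left e)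
    refine ⟨by_contra fun c => h11 ((hA.base fun i => not_not.1 fun e => c ⟨i, e⟩).1 w ⟨hD, hm⟩),
      fun i₀ c h12 h13 => ⟨1, ⟨{1}, by simp [one_eq_span]⟩, one_le.2 w.vr.one_mem,
        fun e => one_notMem_fil (one_le.1 e), ?_⟩⟩
    rw [mul_one]
    exact (hA.cw i₀ c h12 h13).1 w ⟨hD, hm⟩
  rw [DD, Set.mem_ofPred_eq, not_and, not_or, not_not] at hD
  obtain ⟨h11, σ₁, hm₁, g, h12, h13⟩ := hD (prm_of (subset_span h2) hT₀.ne h9 h.mem h10 hi)
  by_cases hJ : Jac d (crd s) / Jac d g ∉ w.fil 1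
  · exact Or.inl ⟨fun r hr => not_not.1 fun c => h11 ⟨r, hr, c⟩, exists_unif p hF hg
      (h13.of hg (right_ne_zero_of_mul (h1 ▸ h.wr)) (inv_div (Jac d (crd s)) _ ▸ inv_mem_fil hJ))⟩
  refine Or.inr (resi low p hC hN h.ne h.mem h0 hord hi hn fun σ hσ hm T hT h14 => ?_)
  have hA := h.pt σ hσ T hT fun e => h14 (mem_sup_left e)
  have h15 : T ≤ w.fil 0 := fun x hx => by
    simpa [hT.ne] using hmin σ hm _ ((Hyp.mem hT).2 (mem_sup_right hx))
  have h16 : σ₁ ^ (m + 2) * Jac d g / σ ^ (m + 2) ∈ alg T * JJ d T := by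
    have e : (T ⊔ 1) * JJ d T ≤ alg T * JJ d T := mul_le_mul_left (sup_comm T 1 ▸ one_sup_le T) _
    refine e (div_pow_mem' hT.ne (fun v hv => sup_comm 1 T ▸ Hyp.div_mem hT hv) ?_)
    rw [← wr_cons_mul]
    exact wr_mem (Fin.cases hm₁.1 h12)
  have h17 : σ₁ ^ (m + 2) * Jac d g / σ ^ (m + 2) ≠ 0 := div_ne_zero
    (mul_ne_zero (pow_ne_zero _ hm₁.2.1) h13.jac_ne) (pow_ne_zero _ hT.ne)
  have h18 : Wr d (fun j => s j / σ ^ N) / (σ₁ ^ (m + 2) * Jac d g / σ ^ (m + 2)) ∈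
      w.fil 1 := by
    have e := (wr_div (d := d) (pow_ne_zero N hT.ne) s).symm.trans h1
    rw [eq_div_of_mul_eq (pow_ne_zero _ (pow_ne_zero _ hT.ne)) ((mul_comm _ _).trans e),
      show s 0 ^ (m + 2) * Jac d (crd s) / (σ ^ N) ^ (m + 2) /
        (σ₁ ^ (m + 2) * Jac d g / σ ^ (m + 2)) = (s 0 / σ ^ N * (σ / σ₁)) ^ (m + 2) *
        (Jac d (crd s) / Jac d g) by rw [mul_pow, div_pow, div_pow]; field_simp]
    exact mul_fil_one (w.vr.pow_mem (w.vr.mul_mem (Rs.alg_le (A := w.vr) h15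
      (Hyp.div_pow_mem hT _ (h.mem 0))) (hmin σ₁ hm₁ σ hm.1)) _) (not_not.1 hJ)
  have hJT := JJ_fg (d := d) (Hyp.fg hT ⟨B, rfl⟩)
  refine ⟨by_contra fun c => ?_, fun i₀ c h19 h20 => ?_⟩
  · obtain ⟨MM, h19, h20, h21⟩ := (hA.base fun i => not_not.1 fun e => c ⟨i, e⟩).2
    obtain ⟨z, h22, h23, h24, h25⟩ := polar h15 hJT h19 h20 h16 h17 h18 0
    refine h14 (nak_fil h15 ((h19.mul (hJT.pow _)).map _) h24 ⟨z, h22, mul_inv_cancel₀ h23⟩ ?_)
    refine (map_mono ((le_alg_mul _).trans h21)).trans ?_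
    rw [Submodule.map_sup, Mb, Mb, ← mul_assoc T, map_mulRight _ (T * alg T)]
    exact sup_le_sup (map_le_iff_le_comap.2 h25) le_rfl
  · rcases Nat.eq_zero_or_pos m with rfl | hm0
    · exact ⟨1, ⟨{1}, by simp [one_eq_span]⟩, one_le.2 w.vr.one_mem,
        fun e => one_notMem_fil (one_le.1 e), ld_zero hC0 h15 hn _⟩
    obtain ⟨MM, b, h21, h22, h23⟩ := (hA.cw i₀ c h19 h20).2 hm0
    obtain ⟨z, h24, h25, h26, h27⟩ := polar h15 hJT h21 h22 h16 h17 h18 b
    exact ⟨_, (h21.mul (hJT.pow _)).map _, h26,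
      fun e => one_notMem_fil (e ⟨z, h24, mul_inv_cancel₀ h25⟩),
      map_mulRight z⁻¹ (alg T) _ ▸ ld_scale z⁻¹ h27 h23⟩

end FinN

theorem finN [IsAlgClosed k] (low : LowStmt k) (p : ℕ) [Fact p.Prime] [CharP k p] :
    FinNStmt k K m := by
  intro t d S C N V M₀ B s hC hC0 hN hF _ hM h
  have e : (Fin.snoc (Fin.init (crd s)) (crd s (Fin.last m)) : Fin (m + 1) → K) = crd s :=
    Fin.snoc_init_self _
  refine ⟨?_, fun w hx hi hy => ?_⟩
  · rw [e]; exact FinN.cov low hN hF hM h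
  · rw [e]; exact FinN.hor low p hC hC0 hN hF h (fun i => Fin.lastCases hy hx i) hi

end Pool.Agent.MP_19ffc6_ag.Res.PF
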