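import Mathlib
import Pool.Agent.MP_19ffc6_ag.Res.FSpec

/-! PROJECT RES, stage F: module GAME. -/

namespace Pool.Agent.MP_19ffc6_ag.Res.PF

open Submodule Filter Module MvPolynomial

variable {k : Type} [Field k]

namespace Gme

section
variable {E : Type} [AddCommGroup E] [Module k E]

theorem mono {c c' : ℕ} (hc : c ≤ c') : ∀ (r : ℕ) (P Q : (Fin r → E) → Prop),
    (∀ x, P x → Q x) → Game (k := k) c r P → Game (k := k) c' r Q
  | 0, _, _, h, hP => h _ hP
  | r + 1, _, _, h, ⟨s, h1, h2, h3⟩ =>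
    ⟨s, h1.trans hc, h2, fun x hx => mono hc r _ _ (fun _ => h _) (h3 x hx)⟩

theorem and {c c' : ℕ} : ∀ (r : ℕ) (P Q : (Fin r → E) → Prop),
    Game (k := k) c r P → Game (k := k) c' r Q → Game (k := k) (c + c') r fun x => P x ∧ Q x
  | 0, _, _, hP, hQ => ⟨hP, hQ⟩
  | r + 1, _, _, ⟨s, h1, h2, h3⟩, ⟨s', h1', h2', h3'⟩ => by
    classical
    refine ⟨s ∪ s', (Finset.card_union_le _ _).trans (add_le_add h1 h1'), fun p hp => ?_,
      fun x hx => and r _ _ (h3 x fun p hp => hx p (Finset.mem_union_left _ hp))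
        (h3' x fun p hp => hx p (Finset.mem_union_right _ hp))⟩
    rcases Finset.mem_union.1 hp with h | h
    exacts [h2 p h, h2' p h]

omit [AddCommGroup E] in
theorem init_cons {r : ℕ} (x : E) (y : Fin (r + 1) → E) :
    Fin.init (Fin.cons x y : Fin (r + 2) → E) = (Fin.cons x (Fin.init y) : Fin (r + 1) → E) := by
  funext i
  refine Fin.cases rfl (fun j => ?_) i
  simp only [Fin.init, Fin.cons_succ, Fin.castSucc_succ]

theorem init {c : ℕ} : ∀ (r : ℕ) (P : (Fin r → E) → Prop),
    Game (k := k) c r P → Game (k := k) c (r + 1) fun x => P (Fin.init x)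
  | 0, P, hP => ⟨∅, Nat.zero_le _, by simp, fun x _ => by
      have h : P Fin.elim0 := hP
      exact (congrArg P (Subsingleton.elim _ _)).mp h⟩
  | r + 1, P, ⟨s, h1, h2, h3⟩ => ⟨s, h1, h2, fun x hx =>
      mono le_rfl (r + 1) _ _ (fun y hy => by beta_reduce; rw [init_cons]; exact hy) (init r _ (h3 x hx))⟩

theorem multi {N : Type} [AddCommGroup N] [Module k N] (s : Finset (Submodule k N)) :
    ∀ (r : ℕ) (ω : MultilinearMap k (fun _ : Fin r => E) N),
    (∀ p ∈ s, ∃ x, ω x ∉ p) → Game (k := k) s.card r fun x => ∀ p ∈ s, ω x ∉ p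
  | 0, ω, h => fun p hp => by
      obtain ⟨x, hx⟩ := h p hp
      exact Subsingleton.elim x Fin.elim0 ▸ hx
  | r + 1, ω, h => by
      classical
      choose! x hx using h
      let f : Submodule k N → E →ₗ[k] N := fun p =>
        { toFun := fun z => ω.curryLeft z (Fin.tail (x p))
          map_add' := fun a b => by rw [map_add]; rfl
          map_smul' := fun a b => by rw [map_smul]; rfl }
      refine ⟨s.image fun p => p.comap (f p), Finset.card_image_le, fun q hq => ?_,
        fun z hz => ?_⟩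
      · obtain ⟨p, hp, rfl⟩ := Finset.mem_image.1 hq
        intro ht
        have : x p 0 ∈ p.comap (f p) := ht ▸ mem_top
        apply hx p hp
        have e : f p (x p 0) = ω (x p) := by
          show ω.curryLeft (x p 0) (Fin.tail (x p)) = _
          rw [MultilinearMap.curryLeft_apply, Fin.cons_self_tail]
        rw [← e]; exact this
      · exact multi s r (ω.curryLeft z) fun p hp =>
          ⟨Fin.tail (x p), hz _ (Finset.mem_image_of_mem _ hp)⟩

theorem triv (c : ℕ) : ∀ r : ℕ, Game (k := k) (E := E) c r fun _ => True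
  | 0 => trivial
  | r + 1 => ⟨∅, Nat.zero_le _, by simp, fun _ _ => triv c r⟩

end

theorem dm_anti {ι : Type} {p q : Ideal (MvPolynomial ι k)} (h : p ≤ q) : dm q ≤ dm p :=
  trdeg_le_of_surjective (Ideal.Quotient.factorₐ k h) (Ideal.Quotient.factor_surjective h)

theorem pm_sub {ι : Type} {e ν : ℕ} {s s' : Finset (Ideal (MvPolynomial ι k))} (h : Pm e ν s)
    (hs : s' ⊆ s) : Pm e ν s' :=
  ⟨fun p hp => h.prime p (hs hp), fun p hp => h.dim p (hs hp),
    h.gr.mono fun _ hc => (Finset.sum_le_sum_of_subset hs).trans hc⟩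

theorem le_gc (d ν : ℕ) : ν * (2 * d) ^ d ≤ gc d ν := by
  unfold gc
  exact Nat.mul_le_mul_right _ (Nat.le_mul_of_pos_left _ (by positivity))

theorem pw_mono {d d' : ℕ} (h : d ≤ d') : (2 * d) ^ d ≤ (2 * d') ^ d' := by
  rcases Nat.eq_zero_or_pos d' with rfl | h0
  · obtain rfl : d = 0 := by omega
    exact le_rfl
  · exact (Nat.pow_le_pow_left (by omega) _).trans (Nat.pow_le_pow_right (by omega) h)

theorem gc_step (d ν : ℕ) : gc d (4 ^ (d + 1) * 1 * ν) ≤ gc (d + 1) ν := by
  unfold gc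
  refine Nat.mul_le_mul ?_ (pw_mono (Nat.le_succ d))
  rw [mul_one, ← mul_assoc, ← pow_add]
  exact Nat.mul_le_mul_right _ (Nat.pow_le_pow_right (by norm_num) (by nlinarith))

theorem cut (h : CutStmt k) {E ι : Type} [AddCommGroup E] [Module k E] [Finite ι] (e : ℕ)
    (l : E →ₗ[k] MvPolynomial ι k) (hl : ∀ x, (l x).totalDegree ≤ 1) :
    ∀ (r ν : ℕ) (s : Finset (Ideal (MvPolynomial ι k))), Pm (e + r) ν s →
      Game (k := k) (gc (e + r) ν) r fun x =>
      ∀ q : Ideal (MvPolynomial ι k), q.IsPrime → (∃ p ∈ s, p ≤ q) → (∃ y, l y ∉ q) →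
        (∀ i, l (x i) ∈ q) → dm q ≤ e
  | 0, ν, s, hs => fun q _ ⟨p, hp, hpq⟩ _ _ => (dm_anti hpq).trans (hs.dim p hp).le
  | r + 1, ν, s, hs => by
      classical
      have h0 : Pm (e + r + 1) ν (s.filter fun p => ∃ y, l y ∉ p) :=
        pm_sub hs (Finset.filter_subset _ _)
      refine ⟨(s.filter fun p => ∃ y, l y ∉ p).image fun p => (p.restrictScalars k).comap l,
        Finset.card_image_le.trans ((h.card ι _ _ _ h0).trans (le_gc _ _)), fun q hq => ?_,
        fun x hx => ?_⟩
      · obtain ⟨p, hp, rfl⟩ := Finset.mem_image.1 hq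
        obtain ⟨y, hy⟩ := (Finset.mem_filter.1 hp).2
        intro ht
        have : y ∈ (p.restrictScalars k).comap l := ht ▸ mem_top
        exact hy this
      · obtain ⟨s', h1, -, h3⟩ := h.cut ι (e + r) ν 1 _ (fun _ => l x) h0 one_pos fun p hp =>
          ⟨hx _ (Finset.mem_image_of_mem _ hp), hl x⟩
        refine mono (gc_step (e + r) ν) r _ _ ?_ (cut h e l hl r _ s' h1)
        rintro y hy q hq ⟨p, hp, hpq⟩ ⟨z, hz⟩ hi
        exact hy q hq (h3 p (Finset.mem_filter.2 ⟨hp, z, fun hh => hz (hpq hh)⟩) q hq hpq (hi 0))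
          ⟨z, hz⟩ fun i => hi i.succ

/-- The vectors whose image under `φ` lies in `p`. -/
def pull {κ I : Type} [Field κ] (φ : κ →+* k) (p : Submodule k (I → k)) :
    Submodule κ (I → κ) where
  carrier := {x | (fun j => φ (x j)) ∈ p}
  zero_mem' := by
    show (fun j => φ ((0 : I → κ) j)) ∈ p
    convert p.zero_mem using 1
    funext j; simp
  add_mem' := fun {a b} ha hb => by
    show (fun j => φ ((a + b) j)) ∈ p
    convert p.add_mem ha hb using 1
    funext j; simp
  smul_mem' := fun t a ha => by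
    show (fun j => φ ((t • a) j)) ∈ p
    convert p.smul_mem (φ t) ha using 1
    funext j; simp

theorem pull_ne {κ I : Type} [Field κ] [Fintype I] (φ : κ →+* k) {p : Submodule k (I → k)}
    (hp : p ≠ ⊤) : pull φ p ≠ ⊤ := by
  classical
  intro ht
  apply hp
  rw [eq_top_iff, ← (Pi.basisFun k I).span_eq, span_le]
  rintro _ ⟨i, rfl⟩
  have h : (Pi.single i 1 : I → κ) ∈ pull φ p := ht ▸ mem_top
  have h' : (fun j => φ ((Pi.single i 1 : I → κ) j)) ∈ p := h
  show Pi.basisFun k I i ∈ p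
  convert h' using 1
  funext j
  rw [Pi.basisFun_apply]
  by_cases hj : j = i
  · subst hj; simp
  · simp [hj]

theorem avoid {κ V : Type} [Field κ] [Fintype κ] [AddCommGroup V] [Module κ V]
    (s : Finset (Submodule κ V)) (h1 : ∀ p ∈ s, p ≠ ⊤) (h2 : s.card < Fintype.card κ) :
    ∃ x, ∀ p ∈ s, x ∉ p := by
  have h := Submodule.iUnion_ssubset_of_forall_ne_top_of_card_lt (K := κ)
    (Finset.univ : Finset s) (fun p => p.1) (fun p => h1 p.1 p.2) (by
      rw [ENat.card_eq_coe_fintype_card, Finset.card_univ, Fintype.card_coe]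
      exact_mod_cast h2)
  obtain ⟨x, -, hx⟩ := Set.exists_of_ssubset h
  refine ⟨x, fun p hp hxp => hx ?_⟩
  simp only [Set.mem_iUnion]
  exact ⟨⟨p, hp⟩, Finset.mem_univ _, hxp⟩

theorem play {κ I A : Type} [Field κ] [Fintype κ] [Fintype I] [Fintype A] (φ : A → κ →+* k)
    {c : ℕ} (hc : Fintype.card A * c < Fintype.card κ) :
    ∀ (r : ℕ) (P : A → (Fin r → I → k) → Prop),
    (∀ a, Game (k := k) c r (P a)) → ∃ x : Fin r → I → κ, ∀ a, P a fun i j => φ a (x i j)
  | 0, P, h => ⟨Fin.elim0, fun a => by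
      have h' : P a Fin.elim0 := h a
      exact (congrArg (P a) (Subsingleton.elim _ _)).mp h'⟩
  | r + 1, P, h => by
      classical
      choose s h1 h2 h3 using h
      obtain ⟨x, hx⟩ := avoid (Finset.univ.biUnion fun a => (s a).image (pull (φ a)))
        (fun q hq => by
          obtain ⟨a, -, hq⟩ := Finset.mem_biUnion.1 hq
          obtain ⟨p, hp, rfl⟩ := Finset.mem_image.1 hq
          exact pull_ne _ (h2 a p hp))
        (lt_of_le_of_lt (Finset.card_biUnion_le.trans ((Finset.sum_le_card_nsmul _ _ c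
          fun a _ => Finset.card_image_le.trans (h1 a)).trans (by simp))) hc)
      obtain ⟨y, hy⟩ := play φ hc r (fun a y => P a (Fin.cons (fun j => φ a (x j)) y)) fun a =>
        h3 a _ fun p hp hh => hx _ (Finset.mem_biUnion.2
          ⟨a, Finset.mem_univ _, Finset.mem_image_of_mem _ hp⟩) hh
      refine ⟨Fin.cons x y, fun a => ?_⟩
      refine (congrArg (P a) ?_).mpr (hy a)
      funext i
      exact Fin.cases rfl (fun _ => rfl) i

end Gme

theorem game_true {E : Type} [AddCommGroup E] [Module k E] (c r : ℕ) :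
    Game (k := k) (E := E) c r fun _ => True := Gme.triv c r

theorem gc_mono {d d' ν ν' : ℕ} (hd : d ≤ d') (hν : ν ≤ ν') : gc d ν ≤ gc d' ν' :=
  Nat.mul_le_mul (Nat.mul_le_mul (Nat.pow_le_pow_right (by norm_num) (Nat.mul_le_mul hd hd)) hν)
    (Gme.pw_mono hd)

theorem game_of (h : CutStmt k) : GameStmt k where
  mono _ _ _ _ _ r P Q hc hPQ := Gme.mono hc r P Q hPQ
  and _ _ _ _ _ r P Q := Gme.and r P Q
  init _ _ _ _ r P := Gme.init r P
  multi _ _ _ _ _ _ r ω s := Gme.multi s r ω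
  cut _ _ _ _ _ e r ν s l hs hl := Gme.cut h e l hl r ν s hs
  play _ _ _ _ _ _ _ φ _ r P hc := Gme.play φ hc r P

end Pool.Agent.MP_19ffc6_ag.Res.PF
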