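import Pool.Agent.MP_19ffc6_ag.Res.Num

/-! PROJECT RES, part A: reductions of the powers of the maximal ideal of a point. -/

namespace Pool.Agent.MP_19ffc6_ag.Res.PA.Red

open Submodule Filter MvPolynomial Pool.Agent.MP_19ffc6_ag.Res.PA.Num

variable {k K : Type} [Field k] [Field K] [Algebra k K]

section Forms

variable {σ : Type} {d : ℕ} {φ : MvPolynomial σ k} {U N : Submodule k K}

theorem hom_ind {M : ℕ → MvPolynomial σ k → Prop} (hz : ∀ d, M d 0) (h0 : ∀ r, M 0 (C r))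
    (add : ∀ d φ ψ, M d φ → M d ψ → M d (φ + ψ)) (mul : ∀ i d φ, M d φ → M (d + 1) (φ * X i))
    (h : φ.IsHomogeneous d) : M d φ := by
  have hm : ∀ (s : σ →₀ ℕ) (a : k),
      ∃ e, (monomial s a).IsHomogeneous e ∧ M e (monomial s a) :=
    induction_on_monomial (motive := fun p => ∃ e, p.IsHomogeneous e ∧ M e p)
      (fun a => ⟨0, isHomogeneous_C _ _, h0 a⟩)
      fun p i ⟨e, h1, h2⟩ => ⟨e + 1, h1.mul (isHomogeneous_X _ _), mul i e p h2⟩
  rw [φ.as_sum]
  refine Finset.sum_induction _ (M d) (add d) (hz d) fun s hs => ?_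
  obtain ⟨e, h1, h2⟩ := hm s (coeff s φ)
  have h3 := mem_support_iff.1 hs
  have h4 : coeff s (monomial s (coeff s φ)) ≠ 0 := by classical simpa using h3
  rwa [← h1 h4, h h3] at h2

theorem aeval_mem (h : φ.IsHomogeneous d) {u : σ → K} (hu : ∀ i, u i ∈ U) : aeval u φ ∈ U ^ d := by
  refine hom_ind (M := fun d φ => aeval u φ ∈ U ^ d) (fun _ => by simp)
    (fun r => by simp) (fun _ _ _ a b => by simpa using add_mem a b)
    (fun i d φ a => ?_) h
  rw [map_mul, aeval_X, pow_succ]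
  exact mul_mem_mul a (hu i)

theorem aeval_sub_mem (h : φ.IsHomogeneous (d + 1)) {x y : σ → K} (hx : ∀ i, x i ∈ U)
    (hy : ∀ i, y i ∈ U) (hN : ∀ i, x i - y i ∈ N) : aeval x φ - aeval y φ ∈ N * U ^ d := by
  have := hom_ind (M := fun d φ => aeval y φ ∈ U ^ d ∧ (d = 0 → aeval x φ = aeval y φ) ∧
      ∀ e, d = e + 1 → aeval x φ - aeval y φ ∈ N * U ^ e) (fun _ => by simp)
    (fun r => ⟨by simp, fun _ => by simp, fun _ h => by simp at h⟩)
    (fun _ _ _ a b => ⟨by simpa using add_mem a.1 b.1, fun h => by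
      rw [map_add, map_add, a.2.1 h, b.2.1 h], fun e h => by
      rw [map_add, map_add, add_sub_add_comm]; exact add_mem (a.2.2 e h) (b.2.2 e h)⟩)
    (fun i d φ a => ⟨?_, fun h => by simp at h, fun e he => ?_⟩) h
  · exact this.2.2 d rfl
  · rw [map_mul, aeval_X, pow_succ]
    exact mul_mem_mul a.1 (hy i)
  · obtain rfl : d = e := by omega
    have e1 : aeval x (φ * X i) - aeval y (φ * X i) =
        (aeval x φ - aeval y φ) * x i + (x i - y i) * aeval y φ := by
      simp only [map_mul, aeval_X]; ring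
    rw [e1]
    refine add_mem ?_ (mul_mem_mul (hN i) a.1)
    cases d with
    | zero => simp [a.2.1 rfl]
    | succ d =>
      rw [pow_succ, ← mul_assoc]
      exact mul_mem_mul (a.2.2 d rfl) (hx i)

theorem aeval_smul (h : φ.IsHomogeneous d) (c : σ → k) (s : K) :
    aeval (fun i => c i • s) φ = eval c φ • s ^ d := by
  refine hom_ind (M := fun d φ => aeval (fun i => c i • s) φ = eval c φ • s ^ d) (fun _ => by simp)
    (fun r => by simp [Algebra.smul_def]) (fun _ _ _ a b => by rw [map_add, map_add, a, b, add_smul])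
    (fun i d φ a => ?_) h
  rw [map_mul, map_mul, a, aeval_X, eval_X, smul_mul_smul_comm, pow_succ]

theorem eval_smul (h : φ.IsHomogeneous d) (a : k) (c : σ → k) :
    eval (fun i => c i * a) φ = eval c φ * a ^ d := by
  simpa [aeval_eq_eval] using aeval_smul (K := k) h c a

theorem exists_form {g : σ → K} {x : K} (hx : x ∈ span k (Set.range g) ^ d) :
    ∃ φ : MvPolynomial σ k, φ.IsHomogeneous d ∧ aeval g φ = x := by
  have e : span k (Set.range g) = (homogeneousSubmodule σ k 1).map (aeval g).toLinearMap := by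
    rw [homogeneousSubmodule_one_eq_span_X, map_span, ← Set.range_comp]
    congr 2
    ext i
    simp
  rw [e, ← Submodule.map_pow, homogeneousSubmodule_one_pow] at hx
  exact hx

/-- The pigeonhole principle for products of elements of a family. -/
theorem span_pow_le [Fintype σ] (g : σ → K) {a r : ℕ} (h : Fintype.card σ * a < r + (a + 1)) :
    span k (Set.range g) ^ (r + (a + 1)) ≤ qq k g (a + 1) * span k (Set.range g) ^ r := by
  classical
  intro x hx
  obtain ⟨φ, h1, rfl⟩ := exists_form hx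
  rw [φ.as_sum, map_sum]
  refine sum_mem fun s hs => ?_
  have h2 : s.degree = r + (a + 1) := by
    by_contra h3
    exact mem_support_iff.1 hs (h1.coeff_eq_zero h3)
  obtain ⟨i, hi⟩ : ∃ i, a + 1 ≤ s i := by
    by_contra! h3
    have : s.degree ≤ Fintype.card σ * a := by
      rw [Finsupp.degree_eq_sum, ← Finset.card_univ, ← smul_eq_mul]
      exact Finset.sum_le_card_nsmul _ _ _ fun i _ => Nat.lt_succ_iff.1 (h3 i)
    omega
  obtain ⟨s', rfl⟩ : ∃ s', s = Finsupp.single i (a + 1) + s' :=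
    exists_add_of_le (Finsupp.single_le_iff.2 hi)
  rw [map_add, Finsupp.degree_single] at h2
  rw [monomial_single_add, map_mul, map_pow, aeval_X]
  exact mul_mem_mul (subset_span ⟨i, rfl⟩)
    (aeval_mem (isHomogeneous_monomial _ (by omega)) fun i => subset_span ⟨i, rfl⟩)

/-- Finitely many nonzero polynomials have a common non-root. -/
theorem exists_eval [Infinite k] {Φ : Set (MvPolynomial σ k)} (hΦ : Φ.Finite)
    (h : ∀ φ ∈ Φ, φ ≠ 0) : ∃ c : σ → k, ∀ φ ∈ Φ, eval c φ ≠ 0 := by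
  have h1 : ∏ φ ∈ hΦ.toFinset, φ ≠ 0 :=
    Finset.prod_ne_zero_iff.2 fun φ hφ => h φ (hΦ.mem_toFinset.1 hφ)
  by_contra! h2
  refine h1 (MvPolynomial.funext fun c => ?_)
  obtain ⟨φ, h3, h4⟩ := h2 c
  rw [map_prod, map_zero]
  exact Finset.prod_eq_zero (hΦ.mem_toFinset.2 h3) h4

/-- The same for forms, with one coordinate normalized. -/
theorem exists_eval_one [Infinite k] {Φ : Set (MvPolynomial σ k)} (hΦ : Φ.Finite)
    (h : ∀ φ ∈ Φ, φ ≠ 0 ∧ ∃ d, φ.IsHomogeneous d) (i : σ) :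
    ∃ c : σ → k, c i = 1 ∧ ∀ φ ∈ Φ, eval c φ ≠ 0 := by
  obtain ⟨c, hc⟩ := exists_eval (hΦ.insert (X i)) (by
    rintro φ (rfl | hφ)
    · exact X_ne_zero i
    · exact (h φ hφ).1)
  have h1 : c i ≠ 0 := by simpa using hc _ (Set.mem_insert _ _)
  refine ⟨fun j => c j * (c i)⁻¹, mul_inv_cancel₀ h1, fun φ hφ => ?_⟩
  obtain ⟨d, hd⟩ := (h φ hφ).2
  rw [eval_smul hd]
  exact mul_ne_zero (hc φ (Set.mem_insert_of_mem _ hφ)) (pow_ne_zero _ (inv_ne_zero h1))

end Forms

section Ideal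

variable {T P Q U U' : Submodule k K} {a b c j : ℕ}

/-- The `c`-th power of the ideal generated by `T`. -/
def np (T : Submodule k K) (c : ℕ) : Submodule k K := T ^ c * alg T

theorem le_alg (T : Submodule k K) : T ≤ alg T := fun _ hx => Algebra.subset_adjoin hx

theorem alg_mul_alg (T : Submodule k K) : alg T * alg T ≤ alg T :=
  mul_le.2 fun _ hx _ hy => (Algebra.adjoin k (T : Set K)).mul_mem hx hy

theorem alg_mul_le (h : T * P ≤ P) : alg T * P ≤ P := by
  refine mul_le.2 fun x hx => ?_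
  induction hx using Algebra.adjoin_induction with
  | mem x hx => exact fun y hy => h (mul_mem_mul hx hy)
  | algebraMap a => exact fun y hy => by rw [← Algebra.smul_def]; exact smul_mem _ _ hy
  | add x y _ _ hx hy => exact fun z hz => by rw [add_mul]; exact add_mem (hx z hz) (hy z hz)
  | mul x y _ _ hx hy => exact fun z hz => by rw [mul_assoc]; exact hx _ (hy z hz)

theorem mul_alg_le (T : Submodule k K) : T * alg T ≤ alg T :=
  (mul_le_mul_left (le_alg T) _).trans (alg_mul_alg T)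

theorem pow_anti (h : T * P ≤ P) (hab : a ≤ b) : T ^ b * P ≤ T ^ a * P :=
  antitone_nat_of_succ_le (f := fun c => T ^ c * P) (fun c => by
    rw [pow_succ, mul_assoc]; exact mul_le_mul_right h _) hab

theorem pow_mul_le (h : T * P ≤ P) (c : ℕ) : T ^ c * P ≤ P := by
  simpa using pow_anti h (Nat.zero_le c)

theorem np_one (T : Submodule k K) : np T 1 = nn T := by rw [np, pow_one, nn]

theorem np_anti (h : a ≤ b) : np T b ≤ np T a := pow_anti (mul_alg_le T) h

theorem np_le_alg (T : Submodule k K) (c : ℕ) : np T c ≤ alg T := pow_mul_le (mul_alg_le T) c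

theorem pow_le_np (T : Submodule k K) (c : ℕ) : T ^ c ≤ np T c := fun x hx => by
  simpa [np] using mul_mem_mul hx (one_mem_alg T)

theorem le_np (T : Submodule k K) : T ≤ np T 1 := by simpa using pow_le_np T 1

theorem np_mul_np (T : Submodule k K) (a b : ℕ) : np T a * np T b ≤ np T (a + b) := by
  rw [np, np, np, mul_mul_mul_comm, ← pow_add]
  exact mul_le_mul_right (alg_mul_alg T) _

theorem np_pow (h : U ≤ np T j) (c : ℕ) : U ^ c ≤ np T (j * c) := by
  induction c with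
  | zero => simpa using pow_le_np T 0
  | succ c ih =>
    rw [pow_succ, mul_add, mul_one]
    exact (mul_le_mul' ih h).trans (np_mul_np T _ _)

theorem pow_mem_np {x : K} (h : x ∈ np T j) (c : ℕ) : x ^ c ∈ np T (j * c) :=
  np_pow le_rfl c (pow_mem_pow _ h c)

theorem nn_pow_le (T : Submodule k K) (c : ℕ) : nn T ^ c ≤ np T c := by
  simpa using np_pow (np_one T).ge c

theorem np_mul_pow (h : T * P ≤ P) (hU : U ≤ np T a) (b : ℕ) : U * (T ^ b * P) ≤ T ^ (a + b) * P := by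
  refine (mul_le_mul_left hU _).trans ?_
  rw [np, mul_mul_mul_comm, ← pow_add]
  exact mul_le_mul_right (alg_mul_le h) _

theorem np_mul_le (h : T * P ≤ P) (hU : U ≤ np T a) : U * P ≤ P :=
  (mul_le_mul_left (hU.trans (np_le_alg T a)) _).trans (alg_mul_le h)

/-- `P / Q` is a `k[T]`-module that is finitely generated modulo `T`. -/
structure Md (T P Q : Submodule k K) : Prop where
  tfg : T.FG
  lp : T * P ≤ P
  lq : T * Q ≤ Q
  fin : ∃ E : Submodule k K, E.FG ∧ E ≤ P ∧ P ≤ E ⊔ T * P ⊔ Q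

theorem Md.of_fam {J : Submodule k K} {M : ℕ → Submodule k K} (h : Fam T J M) (b : ℕ)
    (hQ : T * Q ≤ Q) : Md T (M b) Q :=
  ⟨h.tfg, h.le b, hQ, let ⟨E, h1, h2, h3⟩ := h.fin' b; ⟨E, h1, h2, h3.trans le_sup_left⟩⟩

theorem Md.mb {J MM : Submodule k K} (hT : T.FG) (hJ : J.FG) (hM : MM.FG) (b : ℕ)
    (hQ : T * Q ≤ Q) : Md T (Mb T J MM b) Q := .of_fam (fam_Mb hT hJ hM) b hQ

theorem Md.alg (hT : T.FG) (hQ : T * Q ≤ Q) : Md T (alg T) Q :=
  ⟨hT, mul_alg_le T, hQ, 1, ⟨{1}, by simp [one_eq_span]⟩,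
    one_le.2 (one_mem_alg T), (alg_le T).trans le_sup_left⟩

theorem Md.of {X : Submodule k K} (hT : T.FG) (hX : X.FG) (hQ : PA.alg T * Q ≤ Q) :
    Md T (PA.alg T * X) Q := by
  refine ⟨hT, ?_, (mul_le_mul_left (le_alg T) _).trans hQ, X, hX, fun x hx => ?_, ?_⟩
  · rw [← mul_assoc]; exact mul_le_mul_left (mul_alg_le T) _
  · simpa using mul_mem_mul (one_mem_alg T) hx
  · refine le_sup_of_le_left ((mul_le_mul_left (alg_le T) _).trans ?_)
    rw [Submodule.sup_mul, one_mul, mul_assoc]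

theorem Md.right {Q' : Submodule k K} (h : Md T P Q) (hQ : Q ≤ Q') (h' : T * Q' ≤ Q') : Md T P Q' :=
  ⟨h.tfg, h.lp, h', let ⟨E, a, b, c⟩ := h.fin; ⟨E, a, b, c.trans (sup_le_sup_left hQ _)⟩⟩

theorem mul_pr_mul_le (h : T * P ≤ P) (x : K) : T * (pr k x * P) ≤ pr k x * P := by
  rw [mul_left_comm]; exact mul_le_mul_right h _

theorem Md.fd (h : Md T P Q) (L : ℕ) : Fd P (T ^ L * P ⊔ Q) := by
  obtain ⟨E, h1, -, h3⟩ := h.fin
  suffices ∃ E' : Submodule k K, E'.FG ∧ P ≤ E' ⊔ (T ^ L * P ⊔ Q) by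
    obtain ⟨E', e1, e2⟩ := this
    exact fd_of_le e1 e2
  induction L with
  | zero => exact ⟨⊥, fg_bot, by simp⟩
  | succ L ih =>
    obtain ⟨E', e1, e2⟩ := ih
    refine ⟨E' ⊔ T ^ L * E, e1.sup ((h.tfg.pow L).mul h1), e2.trans ?_⟩
    rw [sup_assoc]
    refine sup_le_sup_left (sup_le ((mul_le_mul_right h3 _).trans ?_)
      (le_sup_of_le_right le_sup_right)) _
    rw [Submodule.mul_sup, Submodule.mul_sup, pow_succ, mul_assoc, sup_assoc]
    exact sup_le_sup_left (sup_le_sup_left (pow_mul_le h.lq L) _) _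

/-- The element `x` raises the order by more than `c` on `P / Q`. -/
def Rel (T : Submodule k K) (c : ℕ) (x : K) (P Q : Submodule k K) : Prop :=
  pr k x * P ≤ T ^ (c + 1) * P ⊔ Q

theorem mul_step (h : Md T P Q) (hU : U ≤ np T a) (b : ℕ) :
    U * (T ^ b * P ⊔ Q) ≤ T ^ (a + b) * P ⊔ Q := by
  rw [Submodule.mul_sup]
  exact sup_le_sup (np_mul_pow h.lp hU b) (np_mul_le h.lq hU)

theorem pr_le {x : K} : pr k x ≤ U ↔ x ∈ U := span_singleton_le_iff_mem _ _

theorem count_lt {s μ e n j L : ℕ} (hn : e < n) (hj : 0 < j)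
    (hL : (s * μ * (2 * (j * n)) ^ e + 1) * (j * n) ≤ L) :
    s * (μ * L ^ e) < (L / (j * n)) ^ n ∧ 0 < L / (j * n) := by
  have h0 : 0 < j * n := Nat.mul_pos hj (by omega)
  have h1 : s * μ * (2 * (j * n)) ^ e + 1 ≤ L / (j * n) := (Nat.le_div_iff_mul_le h0).2 hL
  have h2 : L < (L / (j * n) + 1) * (j * n) := by
    rw [mul_comm]; exact Nat.lt_mul_div_succ L h0
  generalize L / (j * n) = D at h1 h2 ⊢
  have h3 : 0 < D := by omega
  have h4 : L ≤ 2 * (j * n) * D := by nlinarith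
  refine ⟨?_, h3⟩
  calc s * (μ * L ^ e) ≤ s * (μ * (2 * (j * n) * D) ^ e) := by gcongr
    _ = s * μ * (2 * (j * n)) ^ e * D ^ e := by rw [mul_pow (2 * (j * n))]; ring
    _ < D * D ^ e := Nat.mul_lt_mul_of_pos_right (by omega) (pow_pos h3 e)
    _ = D ^ (e + 1) := (pow_succ' D e).symm
    _ ≤ D ^ n := Nat.pow_le_pow_right h3 hn

/-- More than `e` elements satisfy a homogeneous relation on a module of growth `L ^ e`. -/
theorem exists_rel {σ : Type} [Fintype σ] {e μ : ℕ} (h : Md T P Q) (hg : Gr e μ T P Q)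
    (he : e < Fintype.card σ) (hj : 0 < j) {u : σ → K} (hu : ∀ i, u i ∈ np T j) :
    ∃ (d : ℕ) (φ : MvPolynomial σ k), φ ≠ 0 ∧ φ.IsHomogeneous (d + 1) ∧
      Rel T (j * (d + 1)) (aeval u φ) P Q := by
  classical
  obtain ⟨E, hE, hEP, hP⟩ := h.fin
  obtain ⟨s, p, rfl⟩ := fg_iff_exists_fin_generating_family.1 hE
  have hp : ∀ a, p a ∈ P := fun a => hEP (subset_span ⟨a, rfl⟩)
  set n := Fintype.card σ with hn
  obtain ⟨L, hL, hL'⟩ := (hg.and_eventually
    (eventually_ge_atTop ((s * μ * (2 * (j * n)) ^ e + 1) * (j * n)))).exists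
  obtain ⟨hD, hD0⟩ := count_lt he hj hL'
  have hDL : L / (j * n) * (j * n) ≤ L := Nat.div_mul_le_self _ _
  generalize L / (j * n) = D at hD hD0 hDL
  have hA : ∀ ψ : MvPolynomial σ k, aeval u ψ ∈ alg T := fun ψ =>
    (Algebra.adjoin_le (S := Algebra.adjoin k (T : Set K)) (s := Set.range u)
      (by rintro _ ⟨i, rfl⟩; exact np_le_alg T j (hu i)))
      (by rw [Algebra.adjoin_range_eq_range_aeval]; exact ⟨ψ, rfl⟩)
  have : Module.Finite k (P.map (T ^ L * P ⊔ Q).mkQ) := Module.Finite.iff_fg.2 (h.fd L)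
  let Φ : MvPolynomial σ k →ₗ[k] Fin s → P.map (T ^ L * P ⊔ Q).mkQ :=
    LinearMap.pi fun a => LinearMap.codRestrict _ ((T ^ L * P ⊔ Q).mkQ.comp
      ((LinearMap.mulRight k (p a)).comp (aeval u).toLinearMap)) fun ψ =>
        mem_map_of_mem (alg_mul_le h.lp (mul_mem_mul (hA ψ) (hp a)))
  let ex : (σ → Fin D) → σ →₀ ℕ := fun α => Finsupp.equivFunOnFinite.symm fun i => (α i : ℕ)
  have hex : Function.Injective ex := fun α β hαβ =>
    funext fun i => Fin.ext (congrFun (Finsupp.equivFunOnFinite.symm.injective hαβ) i)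
  have hli := (basisMonomials σ k).linearIndependent.comp ex hex
  have hnl : ¬ LinearIndependent k fun α => Φ (basisMonomials σ k (ex α)) := fun hl => by
    have h1 := hl.fintype_card_le_finrank
    rw [Module.finrank_pi_fintype, Finset.sum_const, Finset.card_univ, Fintype.card_fin,
      Fintype.card_fun, Fintype.card_fin, smul_eq_mul] at h1
    exact absurd (h1.trans (Nat.mul_le_mul_left s hL)) (not_le.2 hD)
  obtain ⟨g, hg0, α₀, hα₀⟩ := Fintype.not_linearIndependent_iff.1 hnl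
  set ψ := ∑ α, g α • basisMonomials σ k (ex α) with hψ
  have hψ0 : ψ ≠ 0 := fun h0 => hα₀ (Fintype.linearIndependent_iff.1 hli g h0 α₀)
  have hψ1 : ∀ a, aeval u ψ * p a ∈ T ^ L * P ⊔ Q := fun a => by
    have h1 : Φ ψ = 0 := by simpa only [hψ, map_sum, map_smul] using hg0
    exact (Quotient.mk_eq_zero _).1 (congrArg Subtype.val (congrFun h1 a))
  have hdeg : ψ.totalDegree ≤ n * (D - 1) := by
    refine totalDegree_finsetSum_le fun α _ => (totalDegree_smul_le _ _).trans ?_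
    rw [coe_basisMonomials]
    refine (totalDegree_monomial_le _ _).trans ?_
    rw [Finsupp.sum_fintype _ _ fun _ => rfl, hn, ← Finset.card_univ, ← smul_eq_mul]
    exact Finset.sum_le_card_nsmul _ _ _ fun i _ => Nat.le_sub_one_of_lt (α i).2
  clear_value ψ
  have hc : ∃ d, homogeneousComponent d ψ ≠ 0 := by
    by_contra! h1
    exact hψ0 (by rw [← sum_homogeneousComponent ψ]; exact Finset.sum_eq_zero fun i _ => h1 i)
  set d := Nat.find hc
  have hd : d ≤ ψ.totalDegree := not_lt.1 fun h1 =>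
    Nat.find_spec hc (homogeneousComponent_eq_zero _ _ h1)
  have hmem : ∀ i, aeval u (homogeneousComponent i ψ) ∈ np T (j * i) := fun i =>
    np_pow le_rfl i (aeval_mem (homogeneousComponent_isHomogeneous _ _) hu)
  have hdL : j * d + 1 ≤ L := by
    obtain ⟨D, rfl⟩ : ∃ D', D = D' + 1 := ⟨D - 1, by omega⟩
    have h1 : j * d ≤ j * (n * D) := Nat.mul_le_mul_left j (hd.trans hdeg)
    have h2 : 0 < j * n := Nat.mul_pos hj (by omega)
    nlinarith
  have h1 : ∀ a, aeval u (homogeneousComponent d ψ) * p a ∈ T ^ (j * d + 1) * P ⊔ Q := fun a => by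
    have e1 := sum_homogeneousComponent ψ
    rw [← Finset.add_sum_erase _ _ (Finset.mem_range.2 (Nat.lt_succ_of_le hd))] at e1
    rw [eq_sub_of_add_eq e1, map_sub, sub_mul, map_sum, Finset.sum_mul]
    refine sub_mem (sup_le_sup_right (pow_anti h.lp hdL) _ (hψ1 a)) (sum_mem fun i hi => ?_)
    rcases lt_or_gt_of_ne (Finset.ne_of_mem_erase hi) with h2 | h2
    · simp [not_not.1 (Nat.find_min hc h2)]
    · refine mem_sup_left ?_
      have h3 : j * d + 1 ≤ j * i := (Nat.mul_lt_mul_left hj).2 h2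
      have := np_mul_pow h.lp (le_refl (np T (j * d + 1))) 0
      rw [pow_zero, one_mul] at this
      exact this (mul_mem_mul (np_anti h3 (hmem i)) (hp a))
  have h2 : Rel T (j * d) (aeval u (homogeneousComponent d ψ)) P Q := by
    refine (mul_le_mul_right hP _).trans ?_
    rw [sup_assoc, Submodule.mul_sup]
    refine sup_le ?_ (by simpa using mul_step h (pr_le.2 (hmem d)) 1)
    rw [pr, span_mul_span, span_le]
    rintro _ ⟨_, rfl, _, ⟨a, rfl⟩, rfl⟩
    exact h1 a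
  obtain ⟨i⟩ : Nonempty σ := Fintype.card_pos_iff.1 (by omega)
  refine ⟨d, homogeneousComponent d ψ * X i, mul_ne_zero (Nat.find_spec hc) (X_ne_zero i),
    (homogeneousComponent_isHomogeneous _ _).mul (isHomogeneous_X _ _), ?_⟩
  have h3 := (mul_le_mul_right h2 (pr k (u i))).trans (mul_step h (pr_le.2 (hu i)) _)
  rw [← mul_assoc, pr, pr, span_mul_span, Set.singleton_mul_singleton, mul_comm (u i)] at h3
  rw [Rel, map_mul, aeval_X, show j * (d + 1) + 1 = j + (j * d + 1) by ring]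
  exact h3

/-- `U` is a reduction of the `j`-th power of the ideal of `T` on `P / Q`. -/
def Rs (T : Submodule k K) (j : ℕ) (U P Q : Submodule k K) : Prop :=
  ∃ e : ℕ, T ^ (e + j) * P ≤ U * (T ^ e * P) ⊔ T ^ (e + j + 1) * P ⊔ Q

theorem rd_iff {σ : Type} {y : σ → K} : Rd T j y P Q ↔ Rs T j (span k (Set.range y)) P Q := Iff.rfl

theorem Rs.ge (h : Md T P Q) (hr : Rs T j U P Q) :
    ∃ e₀, ∀ e, e₀ ≤ e → T ^ (e + j) * P ≤ U * (T ^ e * P) ⊔ (T ^ (e + j + 1) * P ⊔ Q) := by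
  obtain ⟨e₀, h0⟩ := hr
  refine ⟨e₀, fun e he => ?_⟩
  obtain ⟨r, rfl⟩ := Nat.exists_eq_add_of_le' he
  have := mul_le_mul_right h0 (T ^ r)
  rw [sup_assoc, Submodule.mul_sup, mul_left_comm _ U, ← mul_assoc, ← mul_assoc (T ^ r),
    ← pow_add, ← pow_add, ← add_assoc] at this
  rw [show r + e₀ + j + 1 = r + (e₀ + j + 1) by ring]
  exact this.trans (sup_le_sup_left (mul_step h (pow_le_np T r) _) _)

theorem Rs.pow (h : Md T P Q) (hr : Rs T j U P Q) (hU : U ≤ np T j) : ∃ e₀, ∀ e, e₀ ≤ e → ∀ c,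
    T ^ (e + j * c) * P ≤ U ^ c * (T ^ e * P) ⊔ (T ^ (e + j * c + 1) * P ⊔ Q) := by
  obtain ⟨e₀, h0⟩ := hr.ge h
  refine ⟨e₀, fun e he c => ?_⟩
  induction c with
  | zero => simp
  | succ c ih =>
    rw [mul_add, mul_one, ← add_assoc]
    refine (h0 _ (by omega)).trans (sup_le ((mul_le_mul_right ih U).trans ?_) le_sup_right)
    rw [Submodule.mul_sup, pow_succ' U, mul_assoc U,
      show e + j * c + j + 1 = j + (e + j * c + 1) by ring]
    exact sup_le_sup_left (mul_step h hU _) _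

/-- The powers of a reduction are cofinal up to a constant shift. -/
theorem Rs.le (h : Md T P Q) (hr : Rs T j U P Q) (hU : U ≤ np T j) :
    ∃ e, ∀ c L, T ^ (e + j * c) * P ≤ U ^ c * P ⊔ T ^ L * P ⊔ Q := by
  obtain ⟨e, h0⟩ := hr.pow h hU
  refine ⟨e, fun c L => ?_⟩
  have h1 : ∀ r, T ^ (e + j * c) * P ≤ U ^ c * P ⊔ (T ^ (e + r + j * c) * P ⊔ Q) := fun r => by
    induction r with
    | zero => exact le_sup_of_le_right le_sup_left
    | succ r ih =>
      refine ih.trans (sup_le le_sup_left (sup_le ((h0 _ (by omega) c).trans ?_)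
        (le_sup_of_le_right le_sup_right)))
      rw [show e + (r + 1) + j * c = e + r + j * c + 1 by ring]
      exact sup_le_sup_right (mul_le_mul_right (pow_mul_le h.lp _) _) _
  rw [sup_assoc]
  exact (h1 L).trans (sup_le_sup_left (sup_le_sup_right (pow_anti h.lp (by omega)) _) _)

theorem Rs.of_le (h : Md T P Q) (hr : Rs T j U P Q) (hU : U ≤ U' ⊔ np T (j + 1)) :
    Rs T j U' P Q := by
  obtain ⟨e, h0⟩ := hr
  refine ⟨e, h0.trans (sup_le_sup_right (sup_le ((mul_le_mul_left hU _).trans ?_) le_sup_right) _)⟩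
  rw [Submodule.sup_mul, show e + j + 1 = j + 1 + e by ring]
  exact sup_le_sup_left (np_mul_pow h.lp le_rfl e) _

theorem Rs.mono_right {Q' : Submodule k K} (hr : Rs T j U P Q) (hQ : Q ≤ Q') : Rs T j U P Q' :=
  let ⟨e, h0⟩ := hr; ⟨e, h0.trans (sup_le_sup_left hQ _)⟩

/-- A reduction on the ring is a reduction on every module. -/
theorem Rs.of_alg (hr : Rs T j U (alg T) ⊥) (h : T * P ≤ P) : Rs T j U P Q := by
  obtain ⟨e, h0⟩ := hr
  have e1 : alg T * P = P := le_antisymm (alg_mul_le h) fun x hx => by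
    simpa using mul_mem_mul (one_mem_alg T) hx
  have := mul_le_mul_left h0 P
  rw [sup_bot_eq, Submodule.sup_mul] at this
  simp only [mul_assoc, e1] at this
  exact ⟨e, this.trans le_sup_left⟩

theorem Rs.of_pow (h : Md T P Q) (hr : Rs T j U P Q) (hU : U ≤ np T j) {i : ℕ} (hi : i + a = j * c)
    (h1 : ∀ e, U ^ c * (T ^ e * P) ≤ U' * (T ^ (a + e) * P) ⊔ (T ^ (j * c + 1 + e) * P ⊔ Q)) :
    Rs T i U' P Q := by
  obtain ⟨e, h0⟩ := hr.pow h hU
  refine ⟨a + e, ?_⟩
  rw [sup_assoc, show a + e + i = e + j * c by omega]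
  refine (h0 e le_rfl c).trans (sup_le ((h1 e).trans ?_) le_sup_right)
  rw [show j * c + 1 + e = e + j * c + 1 by ring]

theorem sup_pr_pow (s : K) (d : ℕ) :
    (U ⊔ pr k s) ^ (d + 1) ≤ U * (U ⊔ pr k s) ^ d ⊔ pr k (s ^ (d + 1)) := by
  induction d with
  | zero => simp
  | succ d ih =>
    rw [pow_succ']
    nth_rewrite 1 [Submodule.sup_mul]
    refine sup_le le_sup_left ((mul_le_mul_right ih _).trans ?_)
    rw [Submodule.mul_sup, mul_left_comm]
    refine sup_le_sup (mul_le_mul_right ?_ U) (le_of_eq ?_)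
    · rw [pow_succ']
      exact mul_le_mul_left le_sup_right _
    · rw [pr, pr, pr, span_mul_span, Set.singleton_mul_singleton, ← _root_.pow_succ']

/-- The exchange lemma: a relation allows to drop one generator of a reduction. -/
theorem Rs.exch {σ : Type} {d : ℕ} {φ : MvPolynomial σ k} {u : σ → K} {c : σ → k} {s : K}
    (h : Md T P Q) (hr : Rs T j (span k (Set.range u)) P Q) (hφ : φ.IsHomogeneous (d + 1))
    (hrel : Rel T (j * (d + 1)) (aeval u φ) P Q) (hc : eval c φ ≠ 0) (hs : s ∈ np T j)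
    (hU : U ≤ np T j) (hu : ∀ i, u i - c i • s ∈ U ⊔ np T (j + 1)) : Rs T j U P Q := by
  have hN : U ⊔ np T (j + 1) ≤ np T j := sup_le hU (np_anti (by omega))
  refine Rs.of_le h ?_ le_rfl
  generalize U ⊔ np T (j + 1) = N at hN hu
  have hV : N ⊔ pr k s ≤ np T j := sup_le hN (pr_le.2 hs)
  have hs' : ∀ i, c i • s ∈ N ⊔ pr k s := fun i =>
    mem_sup_right (smul_mem _ _ (mem_span_singleton_self s))
  have hu' : ∀ i, u i ∈ N ⊔ pr k s := fun i => by
    simpa using add_mem (mem_sup_left (hu i)) (hs' i)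
  have h1 : Rs T j (N ⊔ pr k s) P Q :=
    hr.of_le h (le_sup_of_le_left (span_le.2 (by rintro _ ⟨i, rfl⟩; exact hu' i)))
  have h2 : pr k (s ^ (d + 1)) ≤ N * (N ⊔ pr k s) ^ d ⊔ pr k (aeval u φ) := by
    have h3 := aeval_sub_mem hφ hu' hs' hu
    rw [aeval_smul hφ] at h3
    rw [pr_le, ← smul_mem_iff _ hc, ← sub_sub_cancel (aeval u φ) (eval c φ • _)]
    exact sub_mem (mem_sup_right (mem_span_singleton_self _)) (mem_sup_left h3)
  refine h1.of_pow h hV (a := j * d) (c := d + 1) (by ring) fun e => ?_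
  refine (mul_le_mul_left ((sup_pr_pow s d).trans (sup_le le_sup_left h2)) _).trans ?_
  rw [Submodule.sup_mul, mul_assoc, mul_left_comm (pr k _), add_comm (j * (d + 1) + 1) e]
  exact sup_le_sup (mul_le_mul_right (np_mul_pow h.lp (np_pow hV d) e) _)
    ((mul_le_mul_right hrel _).trans (mul_step h (pow_le_np T e) _))

variable {σ : Type} {l : σ → K}

theorem span_le_np (hl : ∀ i, l i ∈ U) : span k (Set.range l) ≤ U :=
  span_le.2 (by rintro _ ⟨i, rfl⟩; exact hl i)

/-- The powers of the elements of a reduction. -/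
theorem Rs.qq [Finite σ] (h : Md T P Q) (hr : Rs T j (span k (Set.range l)) P Q)
    (hl : ∀ i, l i ∈ np T j) (a : ℕ) : Rs T (j * (a + 1)) (qq k l (a + 1)) P Q := by
  have := Fintype.ofFinite σ
  refine hr.of_pow h (span_le_np hl) (a := j * (Fintype.card σ * a))
    (c := Fintype.card σ * a + (a + 1)) (by ring) fun e => le_sup_of_le_left ?_
  refine (mul_le_mul_left (span_pow_le l (by omega)) _).trans ?_
  rw [mul_assoc]
  exact mul_le_mul_right (np_mul_pow h.lp (np_pow (span_le_np hl) _) e) _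

theorem span_pow_mul_le [Fintype σ] (h : T * P ≤ P) (hl : ∀ i, l i ∈ alg T) (ha : 0 < a)
    (hc : Fintype.card σ * (a - 1) < c) (hac : a ≤ c) :
    span k (Set.range l) ^ c * P ≤ PA.qq k l a * P := by
  obtain ⟨a, rfl⟩ : ∃ a', a = a' + 1 := ⟨a - 1, by omega⟩
  obtain ⟨r, rfl⟩ := Nat.exists_eq_add_of_le' hac
  refine (mul_le_mul_left (span_pow_le l hc) _).trans ?_
  rw [mul_assoc]
  refine mul_le_mul_right (np_mul_le h (np_pow (j := 0) (span_le_np fun i => ?_) r)) _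
  simpa [np] using hl i

theorem rd_pow [Finite σ] (h : Md T P Q) (hr : Rd T 1 l P Q) (hl : ∀ i, l i ∈ np T 1)
    (hj : 0 < j) : Rd T j (fun i => l i ^ j) P Q := by
  obtain ⟨j, rfl⟩ : ∃ j', j = j' + 1 := ⟨j - 1, by omega⟩
  have := Rs.qq h hr hl j
  rwa [one_mul] at this

theorem rd_pert {y : σ → K} {u : k} (h : Md T P Q) (hr : Rd T j l P Q) (hu : u ≠ 0)
    (hy : ∀ i, y i - u • l i ∈ T ^ (j + 1) * alg T) : Rd T j y P Q := by
  refine Rs.of_le h hr (span_le_np fun i => ?_)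
  rw [← smul_mem_iff _ hu, ← sub_sub_cancel (y i) (u • l i)]
  exact sub_mem (mem_sup_left (subset_span ⟨i, rfl⟩)) (mem_sup_right (hy i))

theorem rd_of_alg (hr : Rd T j l (alg T) ⊥) (h : T * P ≤ P) : Rd T j l P Q := Rs.of_alg hr h

theorem rd_mono {Q' : Submodule k K} (hr : Rd T j l P Q) (hQ : Q ≤ Q') : Rd T j l P Q' :=
  Rs.mono_right hr hQ

theorem rel {e μ : ℕ} (h : Md T P Q) (hg : Gr e μ T P Q) (hj : 0 < j) {y : Fin (e + 1) → K}
    (hy : ∀ i, y i ∈ T ^ j * alg T) : ∃ (D : ℕ) (φ : MvPolynomial (Fin (e + 1)) k), φ ≠ 0 ∧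
      φ.IsHomogeneous (D + 1) ∧ pr k (aeval y φ) * P ≤ T ^ (j * (D + 1) + 1) * P ⊔ Q :=
  exists_rel h hg (by simp) hj hy

/-- A relation survives a perturbation of higher order. -/
theorem rel_pert {D : ℕ} {φ : MvPolynomial σ k} {y : σ → K} {u : k} (h : Md T P Q)
    (hφ : φ.IsHomogeneous (D + 1)) (hr : pr k (aeval l φ) * P ≤ T ^ (j * (D + 1) + 1) * P ⊔ Q)
    (hl : ∀ i, l i ∈ T ^ j * alg T) (hy : ∀ i, y i - u • l i ∈ T ^ (j + 1) * alg T) :
    pr k (aeval y φ) * P ≤ T ^ (j * (D + 1) + 1) * P ⊔ Q := by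
  have h1 : ∀ i, u • l i ∈ np T j := fun i => smul_mem _ _ (hl i)
  have h2 := aeval_sub_mem (U := np T j) hφ
    (fun i => by simpa using add_mem (np_anti (Nat.le_succ j) (hy i)) (h1 i)) h1 hy
  have h3 : aeval (fun i => u • l i) φ = u ^ (D + 1) • aeval l φ := by
    refine hom_ind (M := fun d φ => aeval (fun i => u • l i) φ = u ^ d • aeval l φ)
      (fun _ => by simp) (fun r => by simp) (fun _ _ _ a b => by
        rw [map_add, map_add, a, b, smul_add]) (fun i d φ a => ?_) hφ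
    rw [map_mul, map_mul, a, aeval_X, aeval_X, smul_mul_smul_comm, _root_.pow_succ]
  have h4 : pr k (aeval y φ) ≤ np T (j * (D + 1) + 1) ⊔ pr k (aeval l φ) := by
    rw [pr_le, ← sub_add_cancel (aeval y φ) (aeval (fun i => u • l i) φ)]
    refine add_mem (mem_sup_left ?_) (mem_sup_right ?_)
    · rw [show j * (D + 1) + 1 = j + 1 + j * D by ring]
      exact (mul_le_mul_right (np_pow le_rfl D) _).trans (np_mul_np T _ _) h2
    · rw [h3]; exact smul_mem _ _ (mem_span_singleton_self _)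
  refine (mul_le_mul_left h4 _).trans ?_
  rw [Submodule.sup_mul]
  exact sup_le (le_sup_of_le_left (by simpa using np_mul_pow h.lp le_rfl 0)) hr

/-- Elimination of the last generator. -/
theorem elim {e D : ℕ} {φ : MvPolynomial (Fin (e + 1)) k} {y : Fin (e + 1) → K}
    {c : Fin (e + 1) → k} (h : Md T P Q) (hr : Rd T j y P Q) (hy : ∀ i, y i ∈ T ^ j * alg T)
    (hφ : φ.IsHomogeneous (D + 1)) (hrel : pr k (aeval y φ) * P ≤ T ^ (j * (D + 1) + 1) * P ⊔ Q)
    (h1 : c (Fin.last e) = 1) (hc : eval c φ ≠ 0) :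
    Rd T j (fun i : Fin e => y i.castSucc - c i.castSucc • y (Fin.last e)) P Q := by
  refine Rs.exch h hr hφ hrel hc (hy (Fin.last e))
    (span_le_np fun i => sub_mem (hy _) (smul_mem _ _ (hy _))) fun i => mem_sup_left ?_
  refine Fin.lastCases ?_ (fun i => subset_span ⟨i, rfl⟩) i
  simp [h1]

theorem rd_le {e r : ℕ} {y : Fin e → K} (h : Md T P Q) (hr : Rd T j y P Q)
    (hy : ∀ i, y i ∈ T ^ j * alg T) (he : e ≤ r) (h0 : 0 < r) :
    ∃ e₀, ∀ a, 0 < a → ∀ L, T ^ (e₀ + j * (r * a)) * P ≤ PA.qq k y a * P ⊔ T ^ L * P ⊔ Q := by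
  obtain ⟨e₀, h1⟩ := Rs.le h hr (span_le_np hy)
  refine ⟨e₀, fun a ha L => (h1 _ L).trans (sup_le_sup_right (sup_le_sup_right
    (span_pow_mul_le h.lp (fun i => np_le_alg T j (hy i)) ha ?_ (by nlinarith)) _) _)⟩
  obtain ⟨a, rfl⟩ : ∃ a', a = a' + 1 := ⟨a - 1, by omega⟩
  rw [Fintype.card_fin, Nat.add_sub_cancel]
  nlinarith

/-- The form in which reductions are used. -/
theorem rd_qq {e r : ℕ} {y : Fin e → K} (h : Md T P Q) (hr : Rd T j y P Q)
    (hy : ∀ i, y i ∈ T ^ j * alg T) (hj : j ≤ r) (he : e ≤ r) (h0 : 0 < r) :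
    ∀ᶠ L : ℕ in atTop, ∀ L₁,
      T ^ (L / 2) * P ≤ PA.qq k y (L / (4 * r ^ 2)) * P ⊔ T ^ L₁ * P ⊔ Q := by
  obtain ⟨e₀, h1⟩ := rd_le h hr hy he h0
  filter_upwards [eventually_ge_atTop (4 * e₀ + 4), eventually_ge_atTop (4 * r ^ 2)] with L h2 h3 L₁
  refine (pow_anti h.lp ?_).trans (h1 _ (Nat.div_pos h3 (by positivity)) L₁)
  have h4 := Nat.div_mul_le_self L (4 * r ^ 2)
  generalize L / (4 * r ^ 2) = a at h4
  have h5 : j * (r * a) ≤ r * (r * a) := Nat.mul_le_mul_right _ hj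
  have h6 : 4 * (r * (r * a)) ≤ L := le_of_eq_of_le (by ring) h4
  omega

theorem le_mul_div {r L : ℕ} (h0 : 0 < r) (h : 4 * r ^ 2 ≤ L) :
    0 < L / (4 * r ^ 2) ∧ L ≤ 8 * r ^ 2 * (L / (4 * r ^ 2)) := by
  have h1 : 0 < 4 * r ^ 2 := by positivity
  have h2 := Nat.div_pos h h1
  have h3 := Nat.lt_mul_div_succ L h1
  exact ⟨h2, by nlinarith⟩

theorem sp_of_cod {ρ : ℕ} (hf : Fd P Q) (h : cod P Q ≤ ρ) : Sp ρ P Q := by
  have : Module.Finite k (P.map Q.mkQ) := Module.Finite.iff_fg.2 hf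
  let b := Module.finBasis k (P.map Q.mkQ)
  choose v hv hv' using fun i => (b i).2
  refine ⟨fun i => if hi : (i : ℕ) < cod P Q then v ⟨i, hi⟩ else 0, fun i => ?_, ?_⟩
  · dsimp only
    split_ifs
    exacts [hv _, zero_mem _]
  · rw [sup_comm, ← comap_map_mkQ]
    refine Submodule.map_le_iff_le_comap.1 fun x hx => ?_
    rw [show x = ∑ i, b.repr ⟨x, hx⟩ i • (b i : K ⧸ Q) by
      simpa only [Submodule.coe_sum, Submodule.coe_smul] using congrArg Subtype.val (b.sum_repr ⟨x, hx⟩).symm]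
    refine sum_mem fun i _ => smul_mem _ _ ⟨v i, subset_span ⟨⟨i, i.2.trans_le h⟩, ?_⟩, hv' i⟩
    exact dif_pos i.2

theorem sp_mono {ρ ρ' : ℕ} {Q' : Submodule k K} (h : Sp ρ P Q) (hρ : ρ ≤ ρ') (hQ : Q ≤ Q') :
    Sp ρ' P Q' := by
  obtain ⟨v, h1, h2⟩ := h
  refine ⟨fun i => if hi : (i : ℕ) < ρ then v ⟨i, hi⟩ else 0, fun i => ?_,
    h2.trans (sup_le_sup (span_mono ?_) hQ)⟩
  · dsimp only
    split_ifs
    exacts [h1 _, zero_mem _]
  · rintro _ ⟨i, rfl⟩
    exact ⟨⟨i, i.2.trans_le hρ⟩, dif_pos i.2⟩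

theorem ld_mono {e C C' : ℕ} {y : Fin e → K} {Q' : Submodule k K} (h : Ld C T y P Q) (hC : C ≤ C')
    (hQ : Q ≤ Q') : Ld C' T y P Q' :=
  let ⟨a, h1, h2⟩ := h
  ⟨a, h1, fun L => sp_mono (h2 L) (Nat.mul_le_mul_right _ hC) (sup_le_sup_left hQ _)⟩

/-- The local degree is bounded by the growth. -/
theorem ld_of {e r μ : ℕ} {y : Fin e → K} (h : Md T P Q) (hr : Rd T j y P Q)
    (hy : ∀ i, y i ∈ T ^ j * alg T) (hg : Gr e μ T P Q) (hj : j ≤ r) (he : e ≤ r) (h0 : 0 < r) :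
    Ld (μ * (8 * r ^ 2) ^ e) T y P Q := by
  obtain ⟨L, h1, h2, h3⟩ := (hg.and_eventually ((rd_qq h hr hy hj he h0).and
    (eventually_ge_atTop (4 * r ^ 2)))).exists
  obtain ⟨h4, h5⟩ := le_mul_div h0 h3
  refine ⟨_, h4, fun L₁ => sp_mono (sp_of_cod (h.fd L) (h1.trans ?_)) le_rfl
    (sup_le ((pow_anti h.lp (Nat.div_le_self L 2)).trans (h2 L₁)) le_sup_right)⟩
  rw [mul_assoc, ← mul_pow]
  gcongr

/-- The chain inequality. -/
theorem sp_chain {ρ ρ' : ℕ} {P' Q' : Submodule k K} {x : K} (h : Sp ρ P (pr k x * P' ⊔ Q))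
    (h' : Sp ρ' P' Q') (hP : pr k x * P' ≤ P) (hQ : pr k x * Q' ≤ Q) : Sp (ρ + ρ') P Q := by
  obtain ⟨v, h1, h2⟩ := h
  obtain ⟨w, h3, h4⟩ := h'
  refine ⟨Fin.append v fun i => x * w i, fun i => ?_, h2.trans (sup_le (le_sup_of_le_left
    (span_mono ?_)) (sup_le ((mul_le_mul_right h4 _).trans ?_) le_sup_right))⟩
  · refine Fin.addCases (fun i => ?_) (fun i => ?_) i
    · rw [Fin.append_left]; exact h1 i
    · rw [Fin.append_right]; exact hP (mul_mem_mul (mem_span_singleton_self x) (h3 i))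
  · rintro _ ⟨i, rfl⟩
    exact ⟨Fin.castAdd _ i, Fin.append_left _ _ _⟩
  · rw [Submodule.mul_sup, pr, span_mul_span]
    refine sup_le_sup (span_mono ?_) hQ
    rintro _ ⟨_, rfl, _, ⟨i, rfl⟩, rfl⟩
    exact ⟨Fin.natAdd _ i, Fin.append_right _ _ _⟩

theorem pr_mul_pr (x y : K) : pr k x * pr k y = pr k (x * y) := by
  rw [pr, pr, pr, span_mul_span, Set.singleton_mul_singleton]

theorem sp_mul {ρ ρ' : ℕ} {P' P'' Q' : Submodule k K} {x y : K} (h : Sp ρ P (pr k x * P' ⊔ Q))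
    (h' : Sp ρ' P' (pr k y * P'' ⊔ Q')) (hP : pr k x * P' ≤ P) (hP' : pr k y * P'' ≤ P')
    (hQ : pr k x * Q' ≤ Q) : Sp (ρ + ρ') P (pr k (x * y) * P'' ⊔ Q) := by
  refine sp_chain (sp_mono h le_rfl (sup_le_sup_left le_sup_right _)) h' hP ?_
  rw [Submodule.mul_sup, ← mul_assoc, pr_mul_pr]
  exact sup_le_sup_left hQ _

theorem sp_prod {ι : Type} (s : Finset ι) {ρ : ι → ℕ} {x : ι → K} (hP : ∀ i ∈ s, pr k (x i) * P ≤ P)
    (hQ : ∀ i ∈ s, pr k (x i) * Q ≤ Q) (h : ∀ i ∈ s, Sp (ρ i) P (pr k (x i) * P ⊔ Q)) :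
    pr k (∏ i ∈ s, x i) * P ≤ P ∧ Sp (∑ i ∈ s, ρ i) P (pr k (∏ i ∈ s, x i) * P ⊔ Q) := by
  induction s using Finset.cons_induction with
  | empty =>
    have e : pr k (1 : K) * P = P := by rw [pr, ← one_eq_span, one_mul]
    rw [Finset.prod_empty, Finset.sum_empty, e]
    exact ⟨le_rfl, Fin.elim0, fun i => i.elim0, le_sup_of_le_right le_sup_left⟩
  | cons i s hi ih =>
    rw [Finset.forall_mem_cons] at hP hQ h
    obtain ⟨h1, h2⟩ := ih hP.2 hQ.2 h.2
    rw [Finset.prod_cons, Finset.sum_cons]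
    refine ⟨?_, sp_mul h.1 h2 hP.1 h1 hQ.1⟩
    rw [← pr_mul_pr, mul_assoc]
    exact (mul_le_mul_right h1 _).trans hP.1

theorem sp_pow {ρ : ℕ} {x : K} (hP : pr k x * P ≤ P) (hQ : pr k x * Q ≤ Q)
    (h : Sp ρ P (pr k x * P ⊔ Q)) (n : ℕ) : Sp (n * ρ) P (pr k (x ^ n) * P ⊔ Q) := by
  simpa using (sp_prod (Finset.range n) (ρ := fun _ => ρ) (x := fun _ => x) (fun _ _ => hP)
    (fun _ _ => hQ) fun _ _ => h).2

theorem exists_red_aux [Infinite k] {e μ : ℕ} (h : Md T P Q) (hg : Gr e μ T P Q) (r : ℕ)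
    (u : Fin (e + r) → K) (hu : ∀ i, u i ∈ T) (hr : Rd T 1 u P Q) :
    ∃ l : Fin e → K, (∀ i, l i ∈ T) ∧ Rd T 1 l P Q := by
  induction r with
  | zero => exact ⟨u, hu, hr⟩
  | succ r ih =>
    obtain ⟨d, φ, h0, h1, h2⟩ := exists_rel h hg (by simp) one_pos fun i => le_np T (hu i)
    obtain ⟨c, c1, c2⟩ := exists_eval_one (Set.finite_singleton φ)
      (by rintro _ rfl; exact ⟨h0, _, h1⟩) (Fin.last (e + r))
    have h3 : ∀ i : Fin (e + r), u i.castSucc - c i.castSucc • u (Fin.last _) ∈ T := fun i =>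
      sub_mem (hu _) (smul_mem _ _ (hu _))
    refine ih _ h3 (Rs.exch h hr h1 h2 (c2 φ rfl) (le_np T (hu (Fin.last _)))
      (span_le_np fun i => le_np T (h3 i)) fun i => mem_sup_left ?_)
    refine Fin.lastCases (n := e + r) ?_ (fun i => subset_span ⟨i, rfl⟩) i
    simp [c1]

/-- Existence of a reduction with `e` elements. -/
theorem exists_red [Infinite k] {e μ : ℕ} (h : Md T P Q) (hg : Gr e μ T P Q) :
    ∃ l : Fin e → K, (∀ i, l i ∈ T) ∧ Rd T 1 l P Q := by
  obtain ⟨r, t, ht⟩ := fg_iff_exists_fin_generating_family.1 h.tfg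
  refine exists_red_aux h hg r (Fin.append 0 t) (fun i => ?_) ⟨0, ?_⟩
  · refine Fin.addCases (fun i => by simp) (fun i => ?_) i
    rw [Fin.append_right, ← ht]
    exact subset_span ⟨i, rfl⟩
  · refine le_sup_of_le_left (le_sup_of_le_left ?_)
    rw [zero_add, pow_one, pow_zero, one_mul]
    refine mul_le_mul_left (ht.ge.trans (span_mono ?_)) _
    rintro _ ⟨i, rfl⟩
    exact ⟨Fin.natAdd e i, Fin.append_right _ _ _⟩

end Ideal

section Generic

variable {J : Type} {A B : (J → k) → Prop}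

theorem gen_mono (h : Gen A) (hAB : ∀ c, A c → B c) : Gen B :=
  let ⟨D, h1, h2⟩ := h; ⟨D, h1, fun c hc => hAB c (h2 c hc)⟩

theorem gen_of_forall (h : ∀ c, A c) : Gen A := ⟨1, one_ne_zero, fun c _ => h c⟩

theorem gen_and (hA : Gen A) (hB : Gen B) : Gen fun c => A c ∧ B c := by
  obtain ⟨D, h1, h2⟩ := hA
  obtain ⟨D', h3, h4⟩ := hB
  refine ⟨D * D', mul_ne_zero h1 h3, fun c hc => ?_⟩
  rw [map_mul] at hc
  exact ⟨h2 c (left_ne_zero_of_mul hc), h4 c (right_ne_zero_of_mul hc)⟩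

theorem gen_forall {ι : Type*} {s : Set ι} (hs : s.Finite) {A : ι → (J → k) → Prop}
    (h : ∀ i ∈ s, Gen (A i)) : Gen fun c => ∀ i ∈ s, A i c := by
  induction s, hs using Set.Finite.induction_on with
  | empty => exact gen_of_forall (by simp)
  | insert _ _ ih =>
    exact gen_mono (gen_and (h _ (Set.mem_insert _ _))
      (ih fun i hi => h i (Set.mem_insert_of_mem _ hi))) fun c hc => Set.forall_mem_insert.2 hc

theorem gen_exists [Infinite k] (h : Gen A) : ∃ c, A c := by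
  obtain ⟨D, h1, h2⟩ := h
  obtain ⟨c, hc⟩ := exists_eval (Set.finite_singleton D) (by rintro _ rfl; exact h1)
  exact ⟨c, h2 c (hc D rfl)⟩

/-- Surjectivity is an open condition. -/
theorem gen_surj [Fintype J] {E H : Type*} [AddCommGroup E] [Module k E] [AddCommGroup H]
    [Module k H] [Module.Finite k H] (f : J → E →ₗ[k] H) (c₀ : J → k)
    (h : Function.Surjective (∑ a, c₀ a • f a :)) :
    Gen fun c : J → k => Function.Surjective (∑ a, c a • f a :) := by
  classical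
  obtain ⟨s, hs⟩ := LinearMap.exists_rightInverse_of_surjective _ (LinearMap.range_eq_top.2 h)
  let b := Module.finBasis k H
  let M := Matrix.of fun i j => ∑ a, X a * C (LinearMap.toMatrix b b ((f a).comp s) i j)
  have hM : ∀ c : J → k, eval c M.det = LinearMap.det ((∑ a, c a • f a).comp s) := fun c => by
    rw [RingHom.map_det, ← LinearMap.det_toMatrix b]
    congr 1
    ext i j
    simp [M, LinearMap.toMatrix_apply, Finsupp.finsetSum_apply]
  refine ⟨M.det, fun h0 => ?_, fun c hc => ?_⟩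
  · have := hM c₀
    rw [h0, hs, map_zero, LinearMap.det_id] at this
    exact zero_ne_one this
  · rw [hM] at hc
    exact Function.Surjective.of_comp (g := s)
      ((Module.End.isUnit_iff _).1 ((LinearMap.isUnit_iff_isUnit_det _).2 hc.isUnit)).2

variable {σ τ : Type} [Fintype τ] {T P Q : Submodule k K}

/-- The family of linear combinations of `t` with coefficients `c`. -/
def lc (t : τ → K) (c : σ × τ → k) (i : σ) : K := ∑ a, c (i, a) • t a

theorem lc_mem {t : τ → K} (ht : ∀ a, t a ∈ T) (c : σ × τ → k) (i : σ) : lc t c i ∈ T :=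
  sum_mem fun a _ => smul_mem _ _ (ht a)

theorem exists_lc {t : τ → K} (ht : span k (Set.range t) = T) {l : σ → K} (hl : ∀ i, l i ∈ T) :
    ∃ c : σ × τ → k, lc t c = l := by
  choose c hc using fun i => (mem_span_range_iff_exists_fun k).1 (ht ▸ hl i)
  exact ⟨fun x => c x.1 x.2, funext hc⟩

/-- Being a reduction is an open condition. -/
theorem gen_rd_of [Fintype σ] {j : ℕ} (h : Md T P Q) {t : τ → K} (ht : ∀ a, t a ∈ np T j)
    (c₀ : σ × τ → k) (hr : Rd T j (lc t c₀) P Q) : Gen fun c : σ × τ → k => Rd T j (lc t c) P Q := by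
  obtain ⟨e, he⟩ := hr
  let W := T ^ (e + j + 1) * P ⊔ Q
  have : Module.Finite k ((T ^ (e + j) * P).map W.mkQ) := Module.Finite.iff_fg.2
    (cod_mono (pow_mul_le h.lp _) (fun _ _ hx => hx) (h.fd _)).1
  let f : σ × τ → (σ → (T ^ e * P :)) →ₗ[k] (T ^ (e + j) * P).map W.mkQ := fun x =>
    LinearMap.codRestrict _ (W.mkQ.comp ((LinearMap.mulLeft k (t x.2)).comp
      ((T ^ e * P).subtype.comp (LinearMap.proj x.1)))) fun y => mem_map_of_mem (by
        rw [add_comm e]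
        exact np_mul_pow h.lp le_rfl e (mul_mem_mul (ht x.2) (y x.1).2))
  have hf : ∀ (c : σ × τ → k) y, ((∑ x, c x • f x) y : K ⧸ W) = W.mkQ (∑ i, lc t c i * y i) := by
    intro c y
    simp [f, lc, Fintype.sum_prod_type, Finset.sum_mul]
  have key : ∀ c : σ × τ → k, Function.Surjective (∑ x, c x • f x :) ↔
      T ^ (e + j) * P ≤ span k (Set.range (lc t c)) * (T ^ e * P) ⊔ W := fun c => by
    constructor
    · intro hs x hx
      obtain ⟨y, hy⟩ := hs ⟨_, mem_map_of_mem hx⟩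
      have h1 := (hf c y).symm.trans (congrArg Subtype.val hy)
      rw [← sub_sub_cancel (∑ i, lc t c i * y i) x]
      exact sub_mem (mem_sup_left (sum_mem fun i _ => mul_mem_mul (subset_span ⟨i, rfl⟩) (y i).2))
        (mem_sup_right ((Submodule.Quotient.eq _).1 h1))
    · rintro hs ⟨_, x, hx, rfl⟩
      obtain ⟨z, hz, w, hw, rfl⟩ := mem_sup.1 (hs hx)
      obtain ⟨y, rfl⟩ : ∃ y : σ → (T ^ e * P :), ∑ i, lc t c i * y i = z := by
        classical
        let g : (σ → (T ^ e * P :)) →ₗ[k] K := ∑ i, (LinearMap.mulLeft k (lc t c i)).comp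
          ((T ^ e * P).subtype.comp (LinearMap.proj i))
        have hg : ∀ y, g y = ∑ i, lc t c i * y i := fun y => by simp [g]
        suffices span k (Set.range (lc t c)) * (T ^ e * P) ≤ LinearMap.range g by
          obtain ⟨y, hy⟩ := this hz
          exact ⟨y, (hg y).symm.trans hy⟩
        refine mul_le.2 fun x hx v hv => (span_le (p := (LinearMap.range g).comap
          (LinearMap.mulRight k v))).2 ?_ hx
        rintro _ ⟨i, rfl⟩
        refine ⟨Pi.single i ⟨v, hv⟩, ?_⟩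
        rw [hg, Finset.sum_eq_single i (fun i' _ hi => by simp [Pi.single_eq_of_ne hi]) (by simp)]
        simp
      refine ⟨y, Subtype.ext ((hf c y).trans ((Submodule.Quotient.eq _).2 ?_))⟩
      simpa using neg_mem hw
  refine gen_mono (gen_surj f c₀ ((key c₀).2 (by rwa [sup_assoc] at he))) fun c hc => ⟨e, ?_⟩
  rw [sup_assoc]
  exact (key c).1 hc

/-- A general family of `e` linear forms is a reduction. -/
theorem rd_gen [Infinite k] {e μ : ℕ} (h : Md T P Q) (hg : Gr e μ T P Q) {t : τ → K}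
    (ht : span k (Set.range t) = T) : Gen fun c : Fin e × τ → k => Rd T 1 (lc t c) P Q := by
  obtain ⟨l, h1, h2⟩ := exists_red h hg
  obtain ⟨c, rfl⟩ := exists_lc ht h1
  exact gen_rd_of h (fun a => le_np T (ht ▸ subset_span ⟨a, rfl⟩)) c h2

/-- The value of a multilinear map at a general point avoids a subspace. -/
theorem gen_multi [Fintype σ] (f : MultilinearMap k (fun _ : σ => K) K) {t : τ → K}
    (c₀ : σ × τ → k) (h : f (lc t c₀) ∉ P) : Gen fun c : σ × τ → k => f (lc t c) ∉ P := by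
  classical
  obtain ⟨φ, h1, h2⟩ := Submodule.exists_dual_map_eq_bot_of_notMem h inferInstance
  have e : ∀ c : σ × τ → k, eval c (∑ r : σ → τ, (∏ i, X (i, r i)) * C (φ (f fun i => t (r i)))) =
      φ (f (lc t c)) := fun c => by
    rw [show f (lc t c) = _ from f.map_sum fun i a => c (i, a) • t a]
    simp [f.map_smul_univ]
  refine ⟨_, fun h0 => h1 ((e c₀).symm.trans ?_), fun c hc hP => hc ((e c).trans ?_)⟩
  · rw [h0, map_zero]
  · rw [← mem_bot k, ← h2]
    exact mem_map_of_mem hP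

theorem gen_notMem {t : τ → K} (ht : span k (Set.range t) = T) (h : ¬ T ≤ P) (i : σ) :
    Gen fun c : σ × τ → k => lc t c i ∉ P := by
  obtain ⟨x, hx, hx'⟩ := SetLike.not_le_iff_exists.1 h
  obtain ⟨φ, h1, h2⟩ := Submodule.exists_dual_map_eq_bot_of_notMem hx' inferInstance
  obtain ⟨c₀, h3⟩ := exists_lc ht (l := fun _ : σ => x) fun _ => hx
  have e : ∀ c : σ × τ → k, eval c (∑ a, X (i, a) * C (φ (t a))) = φ (lc t c i) := fun c => by
    simp [lc]
  refine ⟨∑ a, X (i, a) * C (φ (t a)), fun h0 => h1 ?_, fun c hc hP => hc ((e c).trans ?_)⟩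
  · rw [← congrFun h3 i, ← e, h0, map_zero]
  · rw [← mem_bot k, ← h2]
    exact mem_map_of_mem hP

end Generic

end Pool.Agent.MP_19ffc6_ag.Res.PA.Red
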