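import Mathlib
import Pool.Agent.MP_19ffc6_ag.Res.FSpec
import Pool.Agent.MP_19ffc6_ag.Res.ABasic
import Pool.Agent.MP_19ffc6_ag.Res.FinW
import Pool.Agent.MP_19ffc6_ag.Res.Gen
import Pool.Agent.MP_19ffc6_ag.Res.Red

/-! PROJECT RES, stage F, module GENF: a good tuple with coefficients in a finite field. -/

namespace Pool.Agent.MP_19ffc6_ag.Res.PF

open Pool.Agent.MP_19ffc6_ag.Res.PA Submodule Module MvPolynomial

namespace GF

variable {k K : Type} [Field k] [Field K] [Algebra k K] {m r : ℕ}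

theorem thin_mono {I J : Type} [Fintype J] {Z Z' : (I → k) → (J → k) → Prop} (h : Thin Z)
    (hZ : ∀ ξ l, Z' ξ l → Z ξ l) : Thin Z' :=
  let ⟨s, h1, h2⟩ := h
  ⟨s, h1, fun ξ l hz => h2 ξ l (hZ ξ l hz)⟩

theorem thin_fin {I J ι : Type} [Fintype J] [Fintype ι] {Z : ι → (I → k) → (J → k) → Prop}
    (h : ∀ i, Thin (Z i)) : Thin fun ξ l => ∃ i, Z i ξ l := by
  classical
  choose s h1 h2 using h
  refine ⟨Finset.univ.biUnion s, fun p hp => ?_, fun ξ l ⟨i, hi⟩ => ?_⟩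
  · obtain ⟨i, -, hi⟩ := Finset.mem_biUnion.1 hp
    exact h1 i p hi
  · obtain ⟨p, hp, h3⟩ := h2 i ξ l hi
    exact ⟨p, Finset.mem_biUnion.2 ⟨i, Finset.mem_univ _, hp⟩, h3⟩

theorem at_mono {d : Fin (m + 1) → Derivation k K K} {C C' : ℕ} {D : Set (DV k K)}
    {M₀ T : Submodule k K} {s : Fin (m + 2) → K} (h : At d C D M₀ T s) (hC : C ≤ C') :
    At d C' D M₀ T s := by
  refine ⟨h.bpf, fun i c h1 h2 => ?_, fun i c h1 h2 => ⟨fun w hw => ?_, fun hm => ?_⟩, h.base⟩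
  · obtain ⟨MM, b, h3, h4, h5⟩ := h.cx i c h1 h2
    exact ⟨MM, b, h3, h4, Red.ld_mono h5 hC le_rfl⟩
  · exact Red.ld_mono ((h.cw i c h1 h2).1 w hw) hC le_rfl
  · obtain ⟨MM, b, h3, h4, h5⟩ := (h.cw i c h1 h2).2 hm
    exact ⟨MM, b, h3, h4, Red.ld_mono h5 hC le_rfl⟩

theorem game_of_forall {E : Type} [AddCommGroup E] [Module k E] (c : ℕ) :
    ∀ (n : ℕ) (P : (Fin n → E) → Prop), (∀ x, P x) → Game (k := k) c n P
  | 0, _, h => h _
  | n + 1, _, h => ⟨∅, Nat.zero_le _, by simp, fun _ _ => game_of_forall c n _ fun _ => h _⟩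

/-- A game that depends on an object that is unique if it exists. -/
theorem game_uniq (hG : GameStmt k) {E A : Type} [AddCommGroup E] [Module k E] {c n : ℕ}
    {R : A → Prop} {P : A → (Fin n → E) → Prop} (hu : ∀ a b, R a → R b → a = b)
    (h : ∀ a, R a → Game (k := k) c n (P a)) : Game (k := k) c n fun x => ∀ a, R a → P a x := by
  by_cases h1 : ∃ a, R a
  · obtain ⟨a, ha⟩ := h1
    exact hG.mono E c c n _ _ le_rfl (fun x hx b hb => hu a b ha hb ▸ hx) (h a ha)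
  · exact game_of_forall c n _ fun _ a ha => (h1 ⟨a, ha⟩).elim

theorem span_mono' (v : Fin r → K) (n : ℕ) :
    span k (Set.range fun f : Fin n → Fin r => ∏ i, v (f i)) = span k (Set.range v) ^ n := by
  rw [span_pow]
  congr 1
  ext x
  rw [Set.mem_pow_iff_prod]
  refine ⟨fun ⟨f, hf⟩ => ⟨fun i => v (f i), fun i => ⟨_, rfl⟩, hf⟩, fun ⟨g, hg, e⟩ => ?_⟩
  choose f hf using hg
  exact ⟨f, by simp only [hf, e]⟩

theorem aeval_div {a : ℕ} {φ : MvPolynomial (Fin r) k} (h : φ.IsHomogeneous a) (v : Fin r → K)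
    (σ : K) : aeval (fun i => v i / σ) φ = aeval v φ / σ ^ a := by
  refine Red.hom_ind (M := fun a φ => aeval (fun i => v i / σ) φ = aeval v φ / σ ^ a)
    (fun _ => by simp) (fun _ => by simp) (fun _ _ _ a b => by rw [map_add, map_add, a, b, add_div])
    (fun i _ φ a => ?_) h
  rw [map_mul, map_mul, a, aeval_X, aeval_X, pow_succ, mul_div_mul_comm]

theorem aeval_sub {T : Submodule k K} {e : Fin r → K} {ξ : Fin r → k}
    (h : ∀ i, e i - algebraMap k K (ξ i) ∈ T) (φ : MvPolynomial (Fin r) k) :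
    aeval e φ - algebraMap k K (eval ξ φ) ∈ nn T := by
  induction φ using MvPolynomial.induction_on with
  | C c => simp
  | add φ ψ a b =>
    have := add_mem a b
    rwa [sub_add_sub_comm, ← map_add, ← map_add, ← map_add] at this
  | mul_X φ i a =>
    have h1 : e i ∈ alg T := by
      simpa using add_mem (LocK.le_alg T (h i)) (cst_mem_alg T (ξ i))
    have := add_mem (mul_mem_nn h1 a) (mul_mem_nn (cst_mem_alg T (eval ξ φ)) (le_nn T (h i)))
    convert this using 1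
    simp only [map_mul, aeval_X, eval_X]
    ring

/-- `i` is the first nonzero coordinate of the normalised vector `ξ`. -/
def Fst {κ : Type} [Field κ] (i : Fin r) (ξ : Fin r → κ) : Prop := ξ i = 1 ∧ ∀ j < i, ξ j = 0

theorem Fst.eq {κ : Type} [Field κ] {i j : Fin r} {ξ : Fin r → κ} (h : Fst i ξ) (h' : Fst j ξ) :
    i = j := by
  rcases lt_trichotomy i j with c | c | c
  · exact absurd (h.1.symm.trans (h'.2 i c)) one_ne_zero
  · exact c
  · exact absurd (h'.1.symm.trans (h.2 j c)) one_ne_zero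

/-- `T` is the point of the chart `U` with coordinates `ξ`. -/
def Crd (U : Submodule k K) (e : Fin r → K) (ξ : Fin r → k) (T : Submodule k K) : Prop :=
  Pnt U T ∧ ∀ i, e i - algebraMap k K (ξ i) ∈ T

theorem Crd.span {U T : Submodule k K} {e : Fin r → K} {ξ : Fin r → k} (h : Crd U e ξ T)
    (he : span k (Set.range e) = U) :
    span k (Set.range fun i => e i - algebraMap k K (ξ i)) = T := by
  have h1 : Submodule.span k (Set.range fun i => e i - algebraMap k K (ξ i)) ≤ T :=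
    span_le.2 (by rintro _ ⟨i, rfl⟩; exact h.2 i)
  refine le_antisymm h1 fun x hx => ?_
  obtain ⟨c, rfl⟩ := (mem_span_range_iff_exists_fun k).1 (he.ge (h.1.le hx))
  have h2 : ∑ i, c i • (e i - algebraMap k K (ξ i)) ∈
      Submodule.span k (Set.range fun i => e i - algebraMap k K (ξ i)) :=
    sum_mem fun i _ => smul_mem _ _ (subset_span ⟨i, rfl⟩)
  have h3 : ∑ i, c i • (e i - algebraMap k K (ξ i)) =
      ∑ i, c i • e i - algebraMap k K (∑ i, c i * ξ i) := by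
    simp [Algebra.smul_def, Finset.sum_sub_distrib, mul_sub]
  rw [h3] at h2
  have h4 := sub_mem hx (h1 h2)
  rw [sub_sub_cancel] at h4
  rwa [cst_eq_zero h.1.2 (le_nn T h4), map_zero, sub_zero] at h2

theorem exists_crd {U T : Submodule k K} {e : Fin r → K} (h : Pnt U T) (he : ∀ i, e i ∈ U) :
    ∃ ξ, Crd U e ξ T := by
  have h1 : ∀ i, ∃ c : k, e i - algebraMap k K c ∈ T := fun i => by
    obtain ⟨_, h2, t, ht, e'⟩ := mem_sup.1 (h.1.le (he i))
    obtain ⟨c, rfl⟩ := mem_one.1 h2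
    exact ⟨c, by rwa [← e', add_sub_cancel_left]⟩
  choose ξ hξ using h1
  exact ⟨ξ, h, hξ⟩

theorem Crd.eq {U T : Submodule k K} {e : Fin r → K} {ξ : Fin r → k} (h : Crd U e ξ T) {i : Fin r}
    {c : k} (hc : e i - algebraMap k K c ∈ T) : ξ i = c := by
  have h1 := sub_mem hc (h.2 i)
  rw [sub_sub_sub_cancel_left, ← map_sub] at h1
  exact sub_eq_zero.1 (cst_eq_zero h.1.2 (le_nn T h1))

/-- The first chart that contains a point. -/
theorem exists_first {V T' : Submodule k K} {v : Fin r → K} (hv : span k (Set.range v) = V)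
    (h0 : ∀ i, v i ≠ 0) {i' : Fin r} (h : Hyp V (v i') T') :
    ∃ i T, Hyp V (v i) T ∧ pr k (v i) * T = pr k (v i') * T' ∧ ∀ j < i, v j / v i ∈ T := by
  classical
  have h1 : v i' ∉ pr k (v i') * T' := fun c => by
    obtain ⟨x, hx, e⟩ := Num.mem_pr_mul.1 c
    rw [mul_eq_left₀ (h0 i')] at e
    exact h.one (e ▸ hx)
  obtain ⟨i, hi, hmin⟩ := exists_minimal_of_wellFoundedLT (fun i => v i ∉ pr k (v i') * T') ⟨i', h1⟩
  have h2 : V = pr k (v i') ⊔ pr k (v i') * T' := by rw [h.eq, Submodule.mul_sup, mul_one]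
  refine ⟨i, pr k (v i)⁻¹ * (pr k (v i') * T'), ⟨h0 i, ?_, fun c => hi ?_⟩, pr_mul_inv (h0 i) _,
    fun j hj => ?_⟩
  · rw [Submodule.mul_sup, mul_one, pr_mul_inv (h0 i)]
    have h3 : v i ∈ V := hv ▸ subset_span ⟨i, rfl⟩
    refine le_antisymm (h2.le.trans (sup_le ?_ le_sup_right))
      (sup_le ((span_singleton_le_iff_mem _ _).2 h3) h.le)
    obtain ⟨_, h4, y, hy, e⟩ := mem_sup.1 (h2.le h3)
    obtain ⟨c, rfl⟩ := mem_span_singleton.1 h4
    have hc : c ≠ 0 := fun z => hi (by rw [← e, z, zero_smul, zero_add]; exact hy)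
    rw [pr, span_singleton_le_iff_mem, ← smul_mem_iff _ hc, eq_sub_of_add_eq e]
    exact sub_mem (mem_sup_left (mem_span_singleton_self _)) (mem_sup_right hy)
  · simpa using (mem_pr_inv_mul (h0 i)).1 c
  · rw [mem_pr_inv_mul (h0 i), mul_div_cancel₀ _ (h0 i)]
    exact not_not.1 fun c => absurd (hmin c hj.le) hj.not_ge

theorem prt (hU : UniStmt k K m) {t : Fin (m + 1) → K} {d : Fin (m + 1) → Derivation k K K}
    (hF : Fr t d) {V T : Submodule k K} {σ : K} {w : DV k K} (hV : V.FG) (h : Hyp V σ T)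
    (hw : w.Min V σ) (hP : Prm m V w) : PrT m T w := by
  obtain ⟨σ', h1, g, h2, h3⟩ := hP
  have h4 := h.le_fil hV hw
  refine ⟨h4, ?_, fun g hg => (hU t g d w hF hg).1⟩
  have h5 : ∀ x ∈ V, x / σ ∈ alg T := fun x hx => by simpa using h.div_pow_mem 1 (by simpa using hx)
  obtain ⟨u, h6, h7⟩ := FW.exists_ind h4 (x := σ' / σ) (fun i => by
      simpa [h1.2.1] using GenM.div_mem_fil hV h1 (h2 i)) h3 (h5 _ h1.1)
    (FW.not_mem (div_ne_zero h1.2.1 h.ne) (by
      rw [FW.ord_div h1.2.1 h.ne, h1.2.2, hw.2.2, sub_self]))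
    fun i => by rw [div_mul_eq_mul_div]; exact h5 _ (h2 i)
  exact ⟨u, fun i => LocK.le_alg T (h6 i), h7⟩

theorem card_lt {F κ : Type} [Field F] [Fintype F] [Field κ] [Fintype κ] [Algebra F κ]
    [Algebra F k] [Fintype (κ →ₐ[F] k)] {c : ℕ} (h : c < Fintype.card F) :
    Fintype.card (κ →ₐ[F] k) * c < Fintype.card κ := by
  have h1 := card_algHom_le_finrank F κ k
  rw [Nat.card_eq_fintype_card] at h1
  rw [Module.card_eq_pow_finrank (K := F) (V := κ)]
  have h2 := one_add_mul_le_pow (show (-2 : ℤ) ≤ c by omega) (finrank F κ)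
  have h3 : 1 + finrank F κ * c ≤ (1 + c) ^ finrank F κ := by exact_mod_cast h2
  have h4 : (1 + c) ^ finrank F κ ≤ Fintype.card F ^ finrank F κ := Nat.pow_le_pow_left (by omega) _
  have h5 := Nat.mul_le_mul_right c h1
  omega

/-- The coefficients of a tuple of local parameters. -/
theorem exists_coef {κ I : Type} [Field κ] [Fintype I] (u : I → K) (e : Fin r → K) (a₀ : I)
    (b : Fin r → I) (h0 : u a₀ = 1) (hb : ∀ i, u (b i) = e i) (ξ : Fin r → κ)
    (x : Fin (m + 1) → Fin r → κ) (a : Fin (m + 1) → Fin (m + 1) → κ) :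
    ∃ l : Fin (m + 2) × I → κ, ∀ φ : κ →+* k, tup u (φ ∘ l) = Fin.cons 1 fun i =>
      ∑ j, φ (a i j) • ∑ c, φ (x j c) • (e c - algebraMap k K (φ (ξ c))) := by
  classical
  let δ : I → I → κ := fun f g => if g = f then 1 else 0
  have hδ : ∀ (φ : κ →+* k) f, ∑ g, φ (δ f g) • u g = u f := fun φ f => by
    simp [δ, apply_ite φ]
  refine ⟨fun p => (Fin.cons (δ a₀ p.2) fun i => ∑ j, a i j * ∑ c, x j c *
    (δ (b c) p.2 - ξ c * δ a₀ p.2) : Fin (m + 2) → κ) p.1, fun φ => funext fun i => ?_⟩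
  refine Fin.cases ?_ (fun i => ?_) i
  · simpa [tup, h0] using hδ φ a₀
  · simp only [tup, Function.comp, Fin.cons_succ, map_sum, map_mul, map_sub, Finset.sum_smul,
      mul_smul]
    rw [Finset.sum_comm]
    refine Finset.sum_congr rfl fun j _ => ?_
    rw [← Finset.smul_sum, Finset.sum_comm]
    congr 1
    refine Finset.sum_congr rfl fun c _ => ?_
    rw [← Finset.smul_sum]
    congr 1
    simp only [sub_smul, mul_smul, Finset.sum_sub_distrib, ← Finset.smul_sum, hδ, h0, hb,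
      Algebra.algebraMap_eq_smul_one]

end GF

open GF

theorem genF_of {k K : Type} [Field k] [Field K] [Algebra k K] {m : ℕ} [IsAlgClosed k] (p : ℕ)
    [Fact p.Prime] [CharP k p] (hS : SieveStmt k p) (hG : GameStmt k) (hR : RatStmt k K m)
    (hT : ThinStmt k K m) (hD : DetStmt k K m) (hC : ChgStmt k K m) (hU : UniStmt k K m) :
    GenFStmt k K m := by
  classical
  intro F _ _ _ _ t d S μ r V M₀ v hk hq hF hA hv h0 hM
  have hV := hA.alb.fg
  have hvV : ∀ i, v i ∈ V := fun i => hv ▸ subset_span ⟨i, rfl⟩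
  let I := Fin (m + 2) → Fin r
  let U : Fin r → Submodule k K := fun i => pr k (v i)⁻¹ * V
  let e : Fin r → Fin r → K := fun i j => v j / v i
  let u : Fin r → I → K := fun i f => (∏ j, v (f j)) / v i ^ (m + 2)
  let D : Fin r → Set (DV k K) := fun i => {w | w ∈ DD d S V ∧ w.Min V (v i)}
  have he : ∀ i, span k (Set.range (e i)) = U i := fun i => by
    simpa using GenM.span_div (σ := v i) (n := 1) (hv.trans (pow_one V).symm)
  have hu : ∀ i, span k (Set.range (u i)) = U i ^ (m + 2) := fun i =>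
    GenM.span_div (hv ▸ span_mono' v (m + 2))
  have hUf : ∀ i, (U i).FG := fun i => (pr_fg _).mul hV
  have heU : ∀ i j, e i j ∈ U i := fun i j => he i ▸ subset_span ⟨j, rfl⟩
  have hDf : ∀ i, (D i).Finite := fun i => hA.alb.fin.subset fun w hw => hw.1
  have hDw : ∀ i, ∀ w ∈ D i, U i ≤ w.fil 0 := fun i w hw => chart_le_fil hV hw.2
  have hJ : ∀ i, JJ d (U i) ≠ ⊥ := fun i => GenM.JJ_ne (h0 i) hA.alb.ne
  have hg : ∀ i T, Pnt (U i) T → GoodX d μ T ∧ ∀ w ∈ D i, Gr m μ T (alg T) (w.fil 1) :=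
    fun i T h => by
      have h1 := hA.alb.good _ T (h.hyp (h0 i))
      exact ⟨h1.1, fun w hw => h1.2 w hw.1 hw.2⟩
  choose β hβ using fun i => hD d (cstF m μ) (U i) M₀ I (u i) (D i) (hUf i)
    (fun f => LocK.pow_le_alg (LocK.le_alg _) _ ((hu i).le (subset_span ⟨f, rfl⟩))) (hDf i) (hDw i)
  obtain ⟨i₀, hi₀⟩ : ∃ i₀ : Fin r, ∀ j, ¬ j < i₀ := by
    rcases r with _ | r
    · refine absurd (eq_bot_iff.2 (WW_le fun x hx => ?_)) hA.alb.ne
      have h1 : x 0 = 0 := by simpa [← hv] using hx 0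
      rw [← wrA_apply, (wrA d).map_coord_zero 0 h1]
      exact zero_mem _
    · exact ⟨0, fun j => Fin.not_lt_zero j⟩
  have hee : ∀ i, e i i = 1 := fun i => div_self (h0 i)
  obtain ⟨T₀, hT₀, -⟩ := exists_pnt (hUf i₀) (hee i₀ ▸ heU i₀ i₀) LocK.md_bot (by simp)
  obtain ⟨ξ₀, hξ₀⟩ := exists_crd hT₀ (heU i₀)
  have hf₀ : Fst i₀ ξ₀ := ⟨hξ₀.eq (by simp [hee]), fun j hj => (hi₀ j hj).elim⟩
  obtain ⟨a, P, hP, h1, h2⟩ := hS F r (Finset.univ.sup β + 1) (Fin (m + 2) × I)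
    (fun ξ l => ∃ i T, Fst i ξ ∧ Crd (U i) (e i) ξ T ∧ ¬ At d (cstF m μ) (D i) M₀ T (tup (u i) l))
    (fun ξ l => ∀ i T, Fst i ξ → Crd (U i) (e i) ξ T → Fin1 d (cstF m μ) (D i) M₀ T (tup (u i) l))
    ξ₀ (thin_mono (thin_fin fun i => hT hk t d μ (U i) M₀ (Fin r) I (e i) (u i) (D i) hF (he i)
      (hJ i) (hu i) hM (hDf i) (hDw i) (hg i)) fun ξ l ⟨_, i, T, _, h3, h4⟩ =>
        ⟨i, T, h3.1, h3.2, fun c => h4 (at_mono c (cst_le_cstF m μ))⟩)
    (fun ξ l h ⟨i, T, h3, h4, h5⟩ => h5 (h i T h3 h4).1) ⟨i₀, hf₀⟩ (by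
      rintro κ _ _ _ ξ ⟨i, hi⟩
      have hu' : ∀ (φ : κ →ₐ[F] k) T T', Crd (U i) (e i) (φ ∘ ξ) T → Crd (U i) (e i) (φ ∘ ξ) T' →
          T = T' := fun φ T T' h h' => (h.span (he i)).symm.trans (h'.span (he i))
      obtain ⟨x, hx⟩ := hG.play κ (Fin r) (κ →ₐ[F] k) (fun φ => φ.toRingHom) _ _ _ (card_lt hq)
        fun φ => game_uniq hG (hu' φ) fun T h => hR t d μ (D i) M₀ T (Fin r) _ hF (h.span (he i))
          h.1.2 (h.1.JJ d ▸ hJ i) hM (hg i T h.1).1 (hDf i)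
          (fun w hw => prt hU hF hV (h.1.hyp (h0 i)) hw.2 hw.1.1) (hA.sum _ T (h.1.hyp (h0 i)))
      obtain ⟨y, hy⟩ := hG.play κ (Fin (m + 1)) (κ →ₐ[F] k) (fun φ => φ.toRingHom) _ _ _
        (card_lt hq) fun φ => game_uniq hG (hu' φ) (hx φ)
      obtain ⟨l, hl⟩ := exists_coef (k := k) (u i) (e i) (fun _ => i)
        (fun c => Fin.cons c fun _ => i) (by simp [u, h0])
        (fun c => by simp [u, e, Fin.prod_univ_succ, pow_succ', h0, mul_div_mul_right]) ξ x y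
      refine ⟨l, fun φ j T hj h => ?_⟩
      obtain rfl : j = i := hj.eq ⟨by simp [hi.1], fun j hj => by simp [hi.2 j hj]⟩
      exact (hl φ.toRingHom).symm ▸ hy φ T h)
  set Q := p ^ (Finset.univ.sup β + 1) with hQ
  have : CharP K p := charP_of_injective_algebraMap (algebraMap k K).injective p
  let s : Fin (m + 2) → K := fun j => aeval v (map (algebraMap F k)
    (∑ f : I, P (j, f) ^ Q * ∏ i, X (f i)))
  have hs : ∀ j, s j = ∑ f : I, aeval v (map (algebraMap F k) (P (j, f))) ^ Q * ∏ i, v (f i) :=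
    fun j => by simp [s]
  have hsV : ∀ j, s j ∈ V ^ (a * Q + (m + 2)) := fun j => by
    rw [hs, pow_add, pow_mul]
    exact sum_mem fun f _ => mul_mem_mul (pow_mem_pow _ (Red.aeval_mem ((hP _).map _) hvV) _)
      (hv ▸ span_mono' (k := k) v (m + 2) ▸ subset_span ⟨f, rfl⟩)
  have key : ∀ i ξ T, Crd (U i) (e i) ξ T →
      (At d (cstF m μ) (D i) M₀ T (tup (u i) fun j => aeval ξ (P j) ^ Q) →
        At d (cstF m μ) (D i) M₀ T fun j => s j / v i ^ (a * Q + (m + 2))) ∧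
      Wr d (fun j => s j / v i ^ (a * Q + (m + 2))) - Wr d (tup (u i) fun j => aeval ξ (P j) ^ Q) ∈
        T * (alg T * JJ d T) := fun i ξ T h => by
    have e1 : (fun j => s j / v i ^ (a * Q + (m + 2))) =
        fun j => ∑ f, aeval (e i) (map (algebraMap F k) (P (j, f))) ^ Q * u i f := funext fun j => by
      rw [hs, Finset.sum_div]
      refine Finset.sum_congr rfl fun f _ => ?_
      rw [aeval_div ((hP _).map _), div_pow, ← pow_mul, pow_add, mul_div_mul_comm]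
    rw [e1]
    refine hβ i T h.1 _ (fun x => aeval (e i) (map (algebraMap F k) (P x)) ^ Q) (fun x => ?_)
      fun x j => ?_
    · have h3 := aeval_sub h.2 (map (algebraMap F k) (P x))
      rw [eval_map, ← aeval_def] at h3
      rw [map_pow, hQ, ← sub_pow_char_pow]
      refine Red.np_anti ?_ (Red.nn_pow_le T _ (pow_mem_pow _ h3 _))
      exact (Finset.le_sup (Finset.mem_univ i)).trans
        ((Nat.le_succ _).trans (Nat.lt_pow_self (Fact.out : p.Prime).one_lt).le)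
    · rw [Derivation.leibniz_pow, nsmul_eq_mul, hQ]
      simp
  refine ⟨Finset.univ.image v, a * Q + (m + 2), fun j => ∑ f : I, P (j, f) ^ Q * ∏ i, X (f i),
    by omega, by simpa using hv, fun σ hσ => ?_, hsV, fun c => ?_, fun σ hσ T' hH hn => ?_⟩
  · obtain ⟨i, -, rfl⟩ := Finset.mem_image.1 hσ
    exact h0 i
  · have h3 := (key i₀ ξ₀ T₀ hξ₀).2
    rw [wr_div (pow_ne_zero (a * Q + (m + 2)) (h0 i₀)), mul_eq_zero,
      or_iff_right (pow_ne_zero _ (pow_ne_zero _ (h0 i₀)))] at c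
    rw [c, zero_sub, neg_mem_iff] at h3
    exact (h2 i₀ T₀ hf₀ hξ₀).2 h3
  · obtain ⟨i', -, rfl⟩ := Finset.mem_image.1 hσ
    obtain ⟨i, T, h3, h4, h5⟩ := exists_first hv h0 hH
    obtain ⟨h6, h7⟩ := hC d S (cstF m μ) _ V M₀ T T' _ _ s hV h3 hH h4 hn hsV
    obtain ⟨ξ, hξ⟩ := exists_crd (h3.pnt h6) (heU i)
    have hf : Fst i ξ := ⟨hξ.eq (by simp [hee]), fun j hj => hξ.eq (by simpa using h5 j hj)⟩
    exact h7 ((key i ξ T hξ).1 (not_not.1 fun c => h1 ξ ⟨i, hf⟩ ⟨i, T, hf, hξ, c⟩))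

end Pool.Agent.MP_19ffc6_ag.Res.PF
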