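import Pool.Agent.MP_19ffc6_ag.Res.FSpec

/-! PROJECT RES, stage F, module HIGH: points at which the space `G` takes many values. -/

namespace Pool.Agent.MP_19ffc6_ag.Res.PF

open MvPolynomial Module Finset

namespace High

variable {k F : Type} [Field k] [Field F] [Algebra F k] {r : ℕ} {J : Type}

variable (k J) in
/-- polynomials in the first group of variables -/
noncomputable def emb : MvPolynomial (Fin r) F →+* MvPolynomial (Fin r ⊕ J) k :=
  (rename Sum.inl : MvPolynomial (Fin r) k →ₐ[k] _).toRingHom.comp (map (algebraMap F k))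

theorem eval_emb (ξ : Fin r → k) (l : J → k) (g : MvPolynomial (Fin r) F) :
    eval (Sum.elim ξ l) (emb k J g) = aeval ξ g := by
  change eval _ (rename Sum.inl (map (algebraMap F k) g)) = _
  rw [eval_rename, eval_map, aeval_def]; rfl

theorem deg_emb (g : MvPolynomial (Fin r) F) : (emb k J g).totalDegree ≤ g.totalDegree := by
  refine (totalDegree_rename_le _ _).trans ?_
  exact Finset.sup_mono (support_map_subset _ _)

theorem Pm_sub {ι : Type} {e ν : ℕ} {s s' : Finset (Ideal (MvPolynomial ι k))} (h : Pm e ν s)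
    (hs : s' ⊆ s) : Pm e ν s' :=
  ⟨fun p hp => h.prime p (hs hp), fun p hp => h.dim p (hs hp),
    h.gr.mono fun _ hc => (sum_le_sum_of_subset hs).trans hc⟩

theorem ker_card [Fintype F] (G : Submodule F (MvPolynomial (Fin r) F)) [Fintype G]
    (ξ : Fin r → k) {b : ℕ} (hb : b ≤ finrank F (G.map (aeval ξ).toLinearMap)) (Z : Finset G)
    (hZ : ∀ g ∈ Z, aeval ξ g.1 = 0) : Z.card * Fintype.card F ^ b ≤ Fintype.card G := by
  classical
  set φ := (aeval ξ : MvPolynomial (Fin r) F →ₐ[F] k).toLinearMap.domRestrict G with hφ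
  have h1 := φ.finrank_range_add_finrank_ker
  rw [hφ, LinearMap.range_domRestrict, ← hφ] at h1
  have h2 : Z.card ≤ Fintype.card (LinearMap.ker φ) := by
    rw [Fintype.card_subtype]
    exact card_le_card fun g hg => mem_filter.2 ⟨mem_univ _, hZ g hg⟩
  rw [Module.card_eq_pow_finrank (K := F)] at h2
  rw [Module.card_eq_pow_finrank (K := F) (V := G), ← h1, pow_add, mul_comm]
  exact Nat.mul_le_mul (Nat.pow_le_pow_right Fintype.card_pos hb) h2

theorem main (p : ℕ) [Fact p.Prime] [CharP k p] (h : CutStmt k) [Fintype F] [Finite J] (e n : ℕ) :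
    ∃ c : ℕ, ∀ (a b d ν : ℕ) (G : Submodule F (MvPolynomial (Fin r) F)) [Fintype G]
      (s : Finset (Ideal (MvPolynomial (Fin r ⊕ J) k))) (σ : Fin n → J)
      (P : Fin n → MvPolynomial (Fin r) F) (Y : Finset (Fin n → G)), Pm d ν s → d < n →
      (∀ g ∈ G, g.totalDegree ≤ a) → (∀ j, (P j).totalDegree ≤ a) →
      (∀ g ∈ Y, ∃ (ξ : Fin r → k) (l : J → k), b ≤ finrank F (G.map (aeval ξ).toLinearMap) ∧
        (∃ π ∈ s, On (Sum.elim ξ l) π) ∧ ∀ i, l (σ i) = aeval ξ (P i + (g i).1) ^ p ^ e) →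
      Y.card * Fintype.card F ^ b ≤ c * ν * ((a + 1) * p ^ e) ^ n * Fintype.card G ^ n := by
  classical
  induction n with
  | zero => exact ⟨0, fun a b d ν G _ s σ P Y _ hd => absurd hd (Nat.not_lt_zero _)⟩
  | succ n ih =>
    obtain ⟨c, ih⟩ := ih
    refine ⟨(2 * n + 1) ^ n + c * 4 ^ n, fun a b d ν G _ s σ P Y hs hd hG hP hY => ?_⟩
    set N := (a + 1) * p ^ e with hN
    have hp : 0 < p ^ e := pow_pos (Fact.out : p.Prime).pos e
    have hN0 : 0 < N := Nat.mul_pos (Nat.succ_pos a) hp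
    set q := Fintype.card F ^ b with hq
    set s₁ := s.filter fun π => (univ.filter fun g : G => emb k J g.1 ∈ π).card * q ≤ Fintype.card G
      with hs₁
    have h₁ : Pm d ν s₁ := Pm_sub hs (filter_subset _ _)
    set u : G → MvPolynomial (Fin r ⊕ J) k :=
      fun g => X (Sum.inr (σ 0)) - emb k J (P 0 + g.1) ^ p ^ e with hu
    have hdeg : ∀ g, (u g).totalDegree ≤ N := by
      intro g
      refine (totalDegree_sub _ _).trans (max_le ?_ ?_)
      · rw [totalDegree_X]; exact hN0
      · refine (totalDegree_pow _ _).trans ?_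
        rw [hN, mul_comm]
        refine Nat.mul_le_mul_right _ ((deg_emb _).trans ((totalDegree_add _ _).trans ?_))
        exact (max_le (hP 0) (hG _ g.2)).trans (Nat.le_succ a)
    set B := univ.filter fun g : G => ∃ π ∈ s₁, u g ∈ π with hB
    have hB1 : B.card * q ≤ ν * (2 * n + 1) ^ n * Fintype.card G := by
      have h1 : ∀ π ∈ s₁, (univ.filter fun g : G => u g ∈ π).card * q ≤ Fintype.card G := by
        intro π hπ
        refine le_trans (Nat.mul_le_mul_right _ ?_) (mem_filter.1 hπ).2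
        rcases (univ.filter fun g : G => u g ∈ π).eq_empty_or_nonempty with h0 | ⟨g₀, h0⟩
        · rw [h0]; exact Nat.zero_le _
        refine card_le_card_of_injOn (fun g => g - g₀) (fun g hg => ?_)
          fun g _ g' _ hg => sub_left_injective hg
        refine mem_coe.2 (mem_filter.2 ⟨mem_univ _, (h₁.prime π hπ).mem_of_pow_mem (p ^ e) ?_⟩)
        have h2 := π.sub_mem (mem_filter.1 h0).2 (mem_filter.1 (mem_coe.1 hg)).2
        have h3 : emb k J (g - g₀ : G).1 = emb k J (P 0 + g.1) - emb k J (P 0 + g₀.1) := by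
          rw [← map_sub]; congr 1; simp
        rw [h3, sub_pow_char_pow]
        simpa [hu] using h2
      have h2 : B ⊆ s₁.biUnion fun π => univ.filter fun g : G => u g ∈ π := by
        intro g hg
        obtain ⟨π, h3, h4⟩ := (mem_filter.1 hg).2
        exact mem_biUnion.2 ⟨π, h3, mem_filter.2 ⟨mem_univ _, h4⟩⟩
      have h3 : s₁.card ≤ ν * (2 * n + 1) ^ n := (h.card _ d ν s₁ h₁).trans
        (Nat.mul_le_mul_left _ ((Nat.pow_le_pow_left (by omega) _).trans
          (Nat.pow_le_pow_right (by omega) (by omega))))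
      calc B.card * q ≤ (∑ π ∈ s₁, (univ.filter fun g : G => u g ∈ π).card) * q :=
            Nat.mul_le_mul_right _ ((card_le_card h2).trans card_biUnion_le)
        _ ≤ s₁.card * Fintype.card G := by
            rw [sum_mul]; exact sum_le_card_nsmul _ _ _ h1
        _ ≤ _ := Nat.mul_le_mul_right _ h3
    have hinj : ∀ g₀ : G, ((Y.filter fun g => g 0 = g₀).image Fin.tail).card =
        (Y.filter fun g => g 0 = g₀).card := by
      intro g₀
      refine card_image_of_injOn fun g hg g' hg' e1 => ?_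
      rw [← Fin.cons_self_tail g, ← Fin.cons_self_tail g', e1, (mem_filter.1 (mem_coe.1 hg)).2,
        (mem_filter.1 (mem_coe.1 hg')).2]
    have hgood : ∀ g₀ : G, g₀ ∉ B → (Y.filter fun g => g 0 = g₀).card * q ≤
        c * (4 ^ n * N * ν) * N ^ n * Fintype.card G ^ n := by
      intro g₀ h0
      have h1 : ∀ π ∈ s₁, u g₀ ∉ π := fun π hπ hm => h0 (mem_filter.2 ⟨mem_univ _, π, hπ, hm⟩)
      have h2 : ∀ g ∈ Y.filter fun g => g 0 = g₀, ∃ (ξ : Fin r → k) (l : J → k),
          b ≤ finrank F (G.map (aeval ξ).toLinearMap) ∧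
          (∃ π ∈ s₁, π ≤ RingHom.ker (eval (Sum.elim ξ l))) ∧
          u g₀ ∈ RingHom.ker (eval (Sum.elim ξ l)) ∧
          ∀ i, l (σ i) = aeval ξ (P i + (g i).1) ^ p ^ e := by
        intro g hg
        obtain ⟨ξ, l, h3, ⟨π, h4, h5⟩, h6⟩ := hY g (mem_filter.1 hg).1
        refine ⟨ξ, l, h3, ⟨π, mem_filter.2 ⟨h4, ker_card G ξ h3 _ fun z hz => ?_⟩, h5⟩, ?_, h6⟩
        · rw [← eval_emb ξ l]; exact h5 _ (mem_filter.1 hz).2
        · rw [RingHom.mem_ker, hu]
          simp only [map_sub, map_pow, eval_emb, eval_X, Sum.elim_inr]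
          rw [h6 0, (mem_filter.1 hg).2, sub_self]
      rcases d with _ | d
      · have h3 : (Y.filter fun g => g 0 = g₀) = ∅ := by
          refine eq_empty_of_forall_notMem fun g hg => ?_
          obtain ⟨ξ, l, -, ⟨π, h4, h5⟩, h6, -⟩ := h2 g hg
          have h7 := h.zero _ π _ (h₁.prime π h4) (RingHom.ker_isPrime _)
            (by simpa using h₁.dim π h4) h5
          exact h1 π h4 (h7 ▸ h6)
        rw [h3]; simp
      · obtain ⟨s', h3, -, h4⟩ := h.cut _ d ν N s₁ (fun _ => u g₀) h₁ hN0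
          fun π hπ => ⟨h1 π hπ, hdeg g₀⟩
        rw [← hinj]
        refine (ih a b d _ G s' (Fin.tail σ) (Fin.tail P) _ h3 (by omega) hG (fun j => hP _)
          fun g hg => ?_).trans ?_
        · obtain ⟨g', h5, rfl⟩ := mem_image.1 hg
          obtain ⟨ξ, l, h6, ⟨π, h7, h8⟩, h9, h10⟩ := h2 g' h5
          obtain ⟨π', h11, h12⟩ := h4 π h7 _ (RingHom.ker_isPrime _) h8 h9
          exact ⟨ξ, l, h6, ⟨π', h11, h12⟩, fun i => h10 i.succ⟩
        · have : 4 ^ (d + 1) ≤ 4 ^ n := Nat.pow_le_pow_right (by norm_num) (by omega)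
          gcongr
    have hall : ∀ g₀ : G, (Y.filter fun g => g 0 = g₀).card ≤ Fintype.card G ^ n := by
      intro g₀
      rw [← hinj]
      exact (card_le_univ _).trans (by simp)
    have hN1 : 1 ≤ N ^ (n + 1) := Nat.one_le_pow _ _ hN0
    calc Y.card * q = ∑ g₀ : G, (Y.filter fun g => g 0 = g₀).card * q := by
          rw [← sum_mul, ← card_eq_sum_card_fiberwise (f := fun g : Fin (n + 1) → G => g 0)
            fun g _ => mem_coe.2 (mem_univ _)]
      _ = ∑ g₀ ∈ B, (Y.filter fun g => g 0 = g₀).card * q +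
            ∑ g₀ ∈ Bᶜ, (Y.filter fun g => g 0 = g₀).card * q := (sum_add_sum_compl _ _).symm
      _ ≤ B.card * (Fintype.card G ^ n * q) +
            Bᶜ.card * (c * (4 ^ n * N * ν) * N ^ n * Fintype.card G ^ n) :=
          add_le_add (sum_le_card_nsmul _ _ _ fun g _ => Nat.mul_le_mul_right _ (hall g))
            (sum_le_card_nsmul _ _ _ fun g hg => hgood g (mem_compl.1 hg))
      _ ≤ ν * (2 * n + 1) ^ n * Fintype.card G * N ^ (n + 1) * Fintype.card G ^ n +
            Fintype.card G * (c * (4 ^ n * N * ν) * N ^ n * Fintype.card G ^ n) := by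
          refine add_le_add ?_ (Nat.mul_le_mul_right _ (card_le_univ _))
          rw [mul_comm (Fintype.card G ^ n), ← mul_assoc]
          exact Nat.mul_le_mul_right _ (hB1.trans (Nat.le_mul_of_pos_right _ hN1))
      _ = _ := by ring

end High

theorem high_of {k : Type} [Field k] (p : ℕ) [Fact p.Prime] [CharP k p] (h : CutStmt k) :
    HighStmt k p := by
  intro F _ _ _ r e J _ π hπ hd
  classical
  obtain ⟨c, hc⟩ := High.main (F := F) (r := r) (J := J) p h e (Fintype.card J)
  obtain ⟨d, ν, hs⟩ := h.grow _ π hπ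
  rw [hs.dim π (mem_singleton_self _)] at hd
  refine ⟨c * ν * (p ^ e) ^ Fintype.card J, fun a b G P Y _ hG hP hY => ?_⟩
  have := Fintype.ofFinite G
  set σ := (Fintype.equivFin J).symm
  have h1 := hc a b d ν G {π} σ (fun i => P (σ i)) (Y.image fun g i => g (σ i)) hs
    (by exact_mod_cast hd) hG (fun i => hP _) fun g hg => by
      obtain ⟨g', h2, rfl⟩ := mem_image.1 hg
      obtain ⟨ξ, h3, h4⟩ := hY g' h2
      exact ⟨ξ, _, h3, ⟨π, mem_singleton_self _, h4⟩, fun i => rfl⟩
  rw [card_image_of_injective _ fun g g' e1 => _root_.funext fun j => by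
    simpa using congrFun e1 (σ.symm j)] at h1
  rw [Nat.card_eq_fintype_card]
  exact h1.trans (le_of_eq (by rw [mul_pow]; ring))

end Pool.Agent.MP_19ffc6_ag.Res.PF
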