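import Mathlib
import Pool.Agent.MP_19ffc6_ag.Res.FSpec

/-! PROJECT RES, stage F, module INTERP. -/

namespace Pool.Agent.MP_19ffc6_ag.Res.PF

open MvPolynomial

namespace Interp

variable {k F : Type} [Field k] [Field F] [Algebra F k] {r : ℕ}

/-- A form with value one at all normalised points whose nonzero coordinates are roots of
unity of order dividing `t`. -/
noncomputable def eta (F : Type) [Field F] (r t g : ℕ) : MvPolynomial (Fin r) F :=
  ∑ i : Fin r, X i ^ (g - i * t) * ∏ j ∈ Finset.Iio i, (X i ^ t - X j ^ t)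

theorem eta_hom (t g : ℕ) (hg : r * t < g) : (eta F r t g).IsHomogeneous g := by
  refine IsHomogeneous.sum _ _ _ fun i _ => ?_
  have h1 : (∏ j ∈ Finset.Iio i, (X i ^ t - X j ^ t : MvPolynomial (Fin r) F)).IsHomogeneous
      (∑ _j ∈ Finset.Iio i, t) :=
    IsHomogeneous.prod _ _ _ fun j _ =>
      (isHomogeneous_X_pow i t).sub (isHomogeneous_X_pow j t)
  have h2 := (isHomogeneous_X_pow (R := F) i (g - i * t)).mul h1
  have h3 : (i : ℕ) * t ≤ r * t := Nat.mul_le_mul_right _ i.2.le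
  have h4 : g - i * t + ∑ _j ∈ Finset.Iio i, t = g := by
    rw [Finset.sum_const, Fin.card_Iio, smul_eq_mul]; omega
  rwa [h4] at h2

theorem eta_val {t g : ℕ} (ht : 0 < t) (hg : r * t < g) {ξ : Fin r → k} (hξ : Nrm ξ)
    (h : ∀ i, ξ i ^ (t + 1) = ξ i) : aeval ξ (eta F r t g) = 1 := by
  obtain ⟨i₀, h1, h0⟩ := hξ
  have hp : ∀ i : Fin r, g - i * t ≠ 0 := fun i => by
    have h3 : (i : ℕ) * t ≤ r * t := Nat.mul_le_mul_right _ i.2.le
    omega
  simp only [eta, map_sum, map_mul, map_pow, map_prod, map_sub, aeval_X]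
  rw [Finset.sum_eq_single i₀]
  · rw [h1, one_pow, one_mul, one_pow]
    refine Finset.prod_eq_one fun j hj => ?_
    rw [h0 j (Finset.mem_Iio.1 hj), zero_pow ht.ne', sub_zero]
  · intro i _ hi
    by_cases hz : ξ i = 0
    · rw [hz, zero_pow (hp i), zero_mul]
    · have hlt : i₀ < i := lt_of_le_of_ne (not_lt.1 fun hl => hz (h0 i hl)) hi.symm
      have h2 : ξ i ^ t = 1 := by
        apply mul_right_cancel₀ hz
        rw [← pow_succ, h i, one_mul]
      rw [Finset.prod_eq_zero (Finset.mem_Iio.2 hlt), mul_zero]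
      rw [h1, h2, one_pow, sub_self]
  · intro h; exact absurd (Finset.mem_univ _) h

theorem fin_fix {Q : ℕ} (hQ : 1 < Q) : {x : k | x ^ Q = x}.Finite := by
  have hne : (Polynomial.X ^ Q - Polynomial.X : Polynomial k) ≠ 0 :=
    FiniteField.X_pow_card_sub_X_ne_zero k hQ
  refine (Polynomial.rootSet_finite (Polynomial.X ^ Q - Polynomial.X : Polynomial k) k).subset ?_
  intro x hx
  rw [Polynomial.mem_rootSet_of_ne hne]
  have hx' : x ^ Q = x := hx
  simp [hx']

theorem aeval_fix [Fintype F] (p : ℕ) [Fact p.Prime] [CharP k p] {R : ℕ} {ξ : Fin r → k}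
    (h : ∀ i, ξ i ^ Fintype.card F ^ R = ξ i) (f : MvPolynomial (Fin r) F) :
    aeval ξ f ^ Fintype.card F ^ R = aeval ξ f := by
  have : CharP F p := (algebraMap F k).charP (algebraMap F k).injective p
  obtain ⟨n, -, hn⟩ := FiniteField.card F p
  induction f using MvPolynomial.induction_on with
  | C a => rw [aeval_C, ← map_pow, FiniteField.pow_card_pow]
  | add f g hf hg =>
    rw [map_add]
    rw [hn, ← pow_mul] at hf hg ⊢
    rw [add_pow_char_pow, hf, hg]
  | mul_X f i hf => rw [map_mul, aeval_X, mul_pow, hf, h]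

/-- values at one small point -/
theorem one_pt [Fintype F] (p : ℕ) [Fact p.Prime] [CharP k p] (e : ℕ) {R : ℕ} (hR : 0 < R)
    {J : Type} (Fine : (Fin r → k) → (J → k) → Prop)
    (hF : ∀ (κ : Type) [Field κ] [Fintype κ] [Algebra F κ] (ξ : Fin r → κ), Nrm ξ →
      ∃ l : J → κ, ∀ φ : κ →ₐ[F] k, Fine (φ ∘ ξ) (φ ∘ l))
    {ξ : Fin r → k} (hξ : Nrm ξ) (h : ∀ i, ξ i ^ Fintype.card F ^ R = ξ i)
    (m : Ideal (MvPolynomial (Fin r) F)) (hm : ∀ f, f ∈ m ↔ aeval ξ f = 0) :
    m.IsMaximal ∧ ∃ γ : J → MvPolynomial (Fin r) F, ∀ ζ : Fin r → k,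
      (∀ f ∈ m, aeval ζ f = 0) → Fine ζ fun j => aeval ζ (γ j) ^ p ^ e := by
  have hQ : 1 < Fintype.card F ^ R := Nat.one_lt_pow hR.ne' Fintype.one_lt_card
  have hpr : m.IsPrime := by
    refine ⟨fun h1 => ?_, fun {a b} hab => ?_⟩
    · have : (1 : MvPolynomial (Fin r) F) ∈ m := h1 ▸ Submodule.mem_top
      rw [hm, map_one] at this
      exact one_ne_zero this
    · rw [hm, map_mul, mul_eq_zero] at hab
      rwa [hm, hm]
  let ψ : (MvPolynomial (Fin r) F ⧸ m) →ₐ[F] k :=
    Ideal.Quotient.liftₐ m (aeval ξ) fun a ha => (hm a).1 ha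
  have hψ : ∀ f, ψ (Ideal.Quotient.mk m f) = aeval ξ f := fun f => rfl
  have hi : Function.Injective ψ := by
    rw [injective_iff_map_eq_zero]
    intro z hz
    obtain ⟨f, rfl⟩ := Ideal.Quotient.mk_surjective z
    rw [hψ] at hz
    exact Ideal.Quotient.eq_zero_iff_mem.2 ((hm f).2 hz)
  have hfin : Finite (MvPolynomial (Fin r) F ⧸ m) := by
    have : Finite {x : k | x ^ Fintype.card F ^ R = x} := (fin_fix hQ).to_subtype
    have h1 : ∀ z, ψ z ^ Fintype.card F ^ R = ψ z := fun z => by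
      obtain ⟨f, rfl⟩ := Ideal.Quotient.mk_surjective z
      rw [hψ]; exact aeval_fix p h f
    exact Finite.of_injective (β := {x : k | x ^ Fintype.card F ^ R = x})
      (fun z => ⟨ψ z, h1 z⟩) fun a b hab => hi (congrArg Subtype.val hab)
  have hmax : m.IsMaximal := Ideal.Quotient.maximal_of_isField _ (Finite.isField_of_domain _)
  refine ⟨hmax, ?_⟩
  let _ : Field (MvPolynomial (Fin r) F ⧸ m) := Ideal.Quotient.field m
  let _ : Fintype (MvPolynomial (Fin r) F ⧸ m) := Fintype.ofFinite _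
  have hN : Nrm fun i => Ideal.Quotient.mk m (X i) := by
    obtain ⟨i, h1, h0⟩ := hξ
    refine ⟨i, ?_, fun j hj => ?_⟩
    · rw [← map_one (Ideal.Quotient.mk m), Ideal.Quotient.eq, hm]
      simp [h1]
    · rw [Ideal.Quotient.eq_zero_iff_mem, hm]
      simp [h0 j hj]
  obtain ⟨l, hl⟩ := hF (MvPolynomial (Fin r) F ⧸ m) _ hN
  have : CharP (MvPolynomial (Fin r) F ⧸ m) p :=
    ψ.toRingHom.charP hi p
  have hs : Function.Surjective (iterateFrobenius (MvPolynomial (Fin r) F ⧸ m) p e) :=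
    Finite.surjective_of_injective (RingHom.injective _)
  choose γ hγ using fun j => hs (l j)
  choose g hg using fun j => Ideal.Quotient.mk_surjective (γ j)
  refine ⟨g, fun ζ hζ => ?_⟩
  let φ : (MvPolynomial (Fin r) F ⧸ m) →ₐ[F] k :=
    Ideal.Quotient.liftₐ m (aeval ζ) hζ
  have hφ : ∀ f, φ (Ideal.Quotient.mk m f) = aeval ζ f := fun f => rfl
  have h1 : φ ∘ (fun i => Ideal.Quotient.mk m (X i)) = ζ := by
    funext i; simp only [Function.comp_apply, hφ, aeval_X]
  have h2 : φ ∘ l = fun j => aeval ζ (g j) ^ p ^ e := by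
    funext j
    rw [Function.comp_apply, ← hγ, ← hg, iterateFrobenius_def, map_pow, hφ]
  have := hl φ
  rwa [h1, h2] at this

end Interp

open Interp in
theorem interp {k : Type} [Field k] (p : ℕ) [Fact p.Prime] [CharP k p] : InterpStmt k p := by
  intro F _ _ _ r e R J _ Fine hR hF
  have hQ : 1 < Fintype.card F ^ R := Nat.one_lt_pow hR.ne' Fintype.one_lt_card
  let S : Set (Fin r → k) := {ξ | Nrm ξ ∧ ∀ i, ξ i ^ Fintype.card F ^ R = ξ i}
  have hS : S.Finite := (Set.Finite.pi' fun _ => fin_fix hQ).subset fun ξ h => h.2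
  let kr : (Fin r → k) → Ideal (MvPolynomial (Fin r) F) := fun ξ =>
    RingHom.ker (aeval ξ : MvPolynomial (Fin r) F →ₐ[F] k)
  have : Finite (kr '' S) := (hS.image kr).to_subtype
  have h1 : ∀ m : kr '' S, m.1.IsMaximal ∧ ∃ γ : J → MvPolynomial (Fin r) F,
      ∀ ζ : Fin r → k, (∀ f ∈ m.1, aeval ζ f = 0) → Fine ζ fun j => aeval ζ (γ j) ^ p ^ e := by
    rintro ⟨_, ξ, hξ, rfl⟩
    exact one_pt p e hR Fine hF hξ.1 hξ.2 _ fun f => RingHom.mem_ker
  choose hmax γ hγ using h1
  have hco : Pairwise (Function.onFun IsCoprime fun m : kr '' S => m.1) := fun a b hab => by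
    have := hmax a
    have := hmax b
    exact Ideal.isCoprime_of_isMaximal fun h => hab (Subtype.ext h)
  choose E hE using fun j => Ideal.exists_forall_sub_mem_ideal hco fun m => γ m j
  obtain ⟨t, ht⟩ : ∃ t, Fintype.card F ^ R = t + 1 := ⟨Fintype.card F ^ R - 1, by omega⟩
  refine ⟨r * t + 1 + ∑ j, (E j).totalDegree, fun a ha => ?_⟩
  refine ⟨fun j => ∑ c ∈ Finset.range ((E j).totalDegree + 1),
    homogeneousComponent c (E j) * eta F r t (a - c), fun j => ?_, fun ξ hξ h => ?_⟩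
  · refine IsHomogeneous.sum _ _ _ fun c hc => ?_
    have h2 : (E j).totalDegree ≤ ∑ j, (E j).totalDegree :=
      Finset.single_le_sum (f := fun j => (E j).totalDegree) (fun _ _ => Nat.zero_le _)
        (Finset.mem_univ j)
    have h3 := Finset.mem_range.1 hc
    have h4 := (homogeneousComponent_isHomogeneous c (E j)).mul
      (eta_hom (F := F) (r := r) t (a - c) (by omega))
    rwa [show c + (a - c) = a by omega] at h4
  · have h5 := hγ ⟨kr ξ, ξ, ⟨hξ, h⟩, rfl⟩ ξ fun f hf => RingHom.mem_ker.1 hf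
    have h6 : ∀ j, aeval ξ (∑ c ∈ Finset.range ((E j).totalDegree + 1),
        homogeneousComponent c (E j) * eta F r t (a - c)) =
        aeval ξ (γ ⟨kr ξ, ξ, ⟨hξ, h⟩, rfl⟩ j) := by
      intro j
      have h2 : (E j).totalDegree ≤ ∑ j, (E j).totalDegree :=
        Finset.single_le_sum (f := fun j => (E j).totalDegree) (fun _ _ => Nat.zero_le _)
          (Finset.mem_univ j)
      have h7 : aeval ξ (E j - γ ⟨kr ξ, ξ, ⟨hξ, h⟩, rfl⟩ j) = 0 := hE j ⟨kr ξ, ξ, ⟨hξ, h⟩, rfl⟩
      rw [map_sub, sub_eq_zero] at h7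
      rw [← h7]
      conv_rhs => rw [← sum_homogeneousComponent (E j)]
      rw [map_sum, map_sum]
      refine Finset.sum_congr rfl fun c hc => ?_
      have h3 := Finset.mem_range.1 hc
      rw [map_mul, eta_val (by omega) (by omega) hξ (by rw [← ht]; exact h), mul_one]
    simp only [h6]
    exact h5

end Pool.Agent.MP_19ffc6_ag.Res.PF
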