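import Mathlib
import Pool.Agent.MP_19ffc6_ag.Res.FSpec
import Pool.Agent.MP_19ffc6_ag.Res.ABasic
import Pool.Agent.MP_19ffc6_ag.Res.Red

/-! PROJECT RES, stage F: modules NULL and LIN. -/

namespace Pool.Agent.MP_19ffc6_ag.Res.PF

open Pool.Agent.MP_19ffc6_ag.Wild Pool.Agent.MP_19ffc6_ag.Res.PA Submodule Filter Module
  Pool.Agent.MP_19ffc6_ag.Res.PA.Num Pool.Agent.MP_19ffc6_ag.Res.PA.LocK

variable {k K : Type} [Field k] [Field K] [Algebra k K] {m : ℕ}

namespace Nul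

/-- A proper ideal consists of nonunits of a valuation ring. -/
theorem exists_val (B : Subalgebra k K) (I : K → Prop) (h0 : I 0)
    (hadd : ∀ x y, I x → I y → I (x + y)) (hmul : ∀ b ∈ B, ∀ x, I x → I (b * x)) (h1 : ¬ I 1) :
    ∃ O : Subalgebra k K, Val O ∧ B ≤ O ∧ ∀ x ∈ B, I x → ¬ Un O x := by
  let I' : Ideal B.toSubring :=
    { carrier := {x | I x}
      add_mem' := fun {x y} hx hy => hadd _ _ hx hy
      zero_mem' := h0
      smul_mem' := fun c x hx => hmul c c.2 x hx }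
  obtain ⟨V, h2, h3⟩ := Ideal.image_subset_nonunits_valuationSubring I'
    ((Ideal.ne_top_iff_one _).2 h1)
  refine ⟨ofVs V fun c => h2 (B.algebraMap_mem c), val_ofVs _ _, fun x hx => h2 hx,
    fun x hx hI hu => ?_⟩
  rcases V.mem_nonunits_iff_or.1 (h3 ⟨⟨x, hx⟩, hI, rfl⟩) with e | e
  · exact hu.2.1 e
  · exact e hu.2.2

section Null

variable (T J Q Y : Submodule k K) (W : K)

/-- The graded ring. -/
def gS (n : ℕ) : Submodule k K := alg T * (T ^ n * J ^ n) ⊔ Q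

/-- The graded ideal. -/
def gG (n : ℕ) : Submodule k K :=
  Y * (T ^ n * (alg T * J ^ (n + 1))) ⊔ T ^ (n + 2) * (alg T * J ^ (n + 1)) ⊔
    (pr k W * (alg T * J ^ n) ⊔ Q)

variable {T J Q Y W} {R : Subalgebra k K}

theorem mul_le_R {X Z : Submodule k K} (hX : X ≤ R.toSubmodule) (hZ : Z ≤ R.toSubmodule) :
    X * Z ≤ R.toSubmodule := mul_le.2 fun _ hx _ hz => R.mul_mem (hX hx) (hZ hz)

theorem pow_le_R {X : Submodule k K} (hX : X ≤ R.toSubmodule) (n : ℕ) :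
    X ^ n ≤ R.toSubmodule := by
  induction n with
  | zero => rw [pow_zero]; exact one_le.2 R.one_mem
  | succ n ih => rw [pow_succ]; exact mul_le_R ih hX

/-- The data of module NULL. -/
structure Dat (T J Q Y : Submodule k K) (W : K) (R : Subalgebra k K) : Prop where
  val : Val R
  q : ∀ x, x ∈ Q ↔ x ∈ R ∧ ¬ Un R x
  t : T ≤ R.toSubmodule
  j : J ≤ R.toSubmodule
  y : Y ≤ T
  w : W ∈ J

namespace Dat

variable (h : Dat T J Q Y W R)
include h

theorem a : alg T ≤ R.toSubmodule := fun _ hx => Algebra.adjoin_le (S := R) h.t hx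

theorem qle : Q ≤ R.toSubmodule := fun x hx => ((h.q x).1 hx).1

theorem mulq {X : Submodule k K} (hX : X ≤ R.toSubmodule) : X * Q ≤ Q :=
  mul_le.2 fun x hx z hz => (h.q _).2 ⟨R.mul_mem (hX hx) (h.qle hz), fun hu =>
    ((h.q z).1 hz).2 (Un.of_mul (h.qle hz) (hX hx) (by rwa [mul_comm]))⟩

theorem prw : pr k W ≤ R.toSubmodule := (span_singleton_le_iff_mem _ _).2 (h.j h.w)

theorem s0 (n : ℕ) : alg T * (T ^ n * J ^ n) ≤ R.toSubmodule :=
  mul_le_R h.a (mul_le_R (pow_le_R h.t n) (pow_le_R h.j n))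

theorem sle (n : ℕ) : gS T J Q n ≤ R.toSubmodule := sup_le (h.s0 n) h.qle

theorem gle (n : ℕ) : gG T J Q Y W n ≤ R.toSubmodule :=
  sup_le (sup_le
    (mul_le_R (h.y.trans h.t) (mul_le_R (pow_le_R h.t _) (mul_le_R h.a (pow_le_R h.j _))))
    (mul_le_R (pow_le_R h.t _) (mul_le_R h.a (pow_le_R h.j _))))
    (sup_le (mul_le_R h.prw (mul_le_R h.a (pow_le_R h.j _))) h.qle)

theorem ss (n l : ℕ) : gS T J Q n * gS T J Q l ≤ gS T J Q (n + l) := by
  rw [gS, gS, Submodule.mul_sup, Submodule.sup_mul]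
  refine sup_le (sup_le (le_sup_of_le_left (le_of_eq ?_)) (le_sup_of_le_right ?_))
    (le_sup_of_le_right (h.mulq (h.sle n)))
  · conv_rhs => rw [← alg_mul_alg]
    ring
  · rw [mul_comm]; exact h.mulq (h.s0 l)

theorem gs (n l : ℕ) : gG T J Q Y W n * gS T J Q l ≤ gG T J Q Y W (n + l) := by
  rw [gS, Submodule.mul_sup]
  refine sup_le ?_ (le_sup_of_le_right (le_sup_of_le_right (h.mulq (h.gle n))))
  rw [gG, gG, Submodule.sup_mul, Submodule.sup_mul, Submodule.sup_mul]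
  refine sup_le_sup (sup_le_sup (le_of_eq ?_) (le_of_eq ?_)) (sup_le_sup ?_ ?_)
  · conv_rhs => rw [← alg_mul_alg]
    ring
  · conv_rhs => rw [← alg_mul_alg]
    ring
  · have e : pr k W * (alg T * J ^ n) * (alg T * (T ^ l * J ^ l)) =
        pr k W * ((T ^ l * (alg T * alg T)) * J ^ (n + l)) := by ring
    rw [e, alg_mul_alg]
    exact mul_le_mul_right (mul_le_mul_left ((md_alg T).le (pow_le_alg (le_alg T) l)) _) _
  · rw [mul_comm]; exact h.mulq (h.s0 l)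

end Dat

theorem pow_mem_gS {t j : K} (ht : t ∈ T) (hj : j ∈ J) (n : ℕ) : (t * j) ^ n ∈ gS T J Q n := by
  refine mem_sup_left ?_
  rw [mul_pow, ← one_mul (t ^ n * j ^ n)]
  exact mul_mem_mul (one_mem_alg T) (mul_mem_mul (pow_mem_pow _ ht n) (pow_mem_pow _ hj n))

theorem Dat.up (h : Dat T J Q Y W R) {t j x : K} (ht : t ∈ T) (hj : j ∈ J) {n : ℕ}
    (hx : x * (t * j) ^ (n + 1) ∈ gG T J Q Y W n) {n' : ℕ} (hn : n ≤ n') :
    x * (t * j) ^ (n' + 1) ∈ gG T J Q Y W n' := by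
  obtain ⟨l, rfl⟩ := Nat.exists_eq_add_of_le hn
  have := h.gs n l (mul_mem_mul hx (pow_mem_gS ht hj l))
  rwa [show x * (t * j) ^ (n + 1) * (t * j) ^ l = x * (t * j) ^ (n + l + 1) by ring] at this

/-- The ring of a chart. -/
def Dat.ch (h : Dat T J Q Y W R) {t j : K} (ht : t ∈ T) (hj : j ∈ J) : Subalgebra k K where
  carrier := {x | ∃ n, x * (t * j) ^ n ∈ gS T J Q n}
  mul_mem' := by
    rintro x y ⟨n, hx⟩ ⟨l, hy⟩
    refine ⟨n + l, ?_⟩
    rw [show x * y * (t * j) ^ (n + l) = x * (t * j) ^ n * (y * (t * j) ^ l) by ring]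
    exact h.ss n l (mul_mem_mul hx hy)
  add_mem' := by
    rintro x y ⟨n, hx⟩ ⟨l, hy⟩
    refine ⟨n + l, ?_⟩
    rw [show (x + y) * (t * j) ^ (n + l) =
      x * (t * j) ^ n * (t * j) ^ l + (t * j) ^ n * (y * (t * j) ^ l) by ring]
    exact add_mem (h.ss n l (mul_mem_mul hx (pow_mem_gS ht hj l)))
      (h.ss n l (mul_mem_mul (pow_mem_gS ht hj n) hy))
  algebraMap_mem' c := ⟨0, mem_sup_left (by simpa using cst_mem_alg T c)⟩

theorem Dat.key {e : ℕ} {y : Fin e → K} (h : Dat T J Q (span k (Set.range y)) W R)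
    (H : ∀ O, Cen T O → O ≤ R → ¬ T ≤ Q → ¬ J ≤ Q → (∃ i, Gn O T (y i)) ∨ Gn O J W)
    {t j : K} (ht : t ∈ T) (hj : j ∈ J) :
    ∃ n, 1 * (t * j) ^ (n + 1) ∈ gG T J Q (span k (Set.range y)) W n := by
  have hq : ∀ x ∈ Q, ∀ z ∈ R, ∀ n, x * z ∈ gG T J Q (span k (Set.range y)) W n :=
    fun x hx z hz n => mem_sup_right (mem_sup_right (by
      rw [mul_comm]; exact h.mulq le_rfl (mul_mem_mul hz hx)))
  by_cases htq : t ∈ Q
  · exact ⟨0, by simpa using hq t htq j (h.j hj) 0⟩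
  by_cases hjq : j ∈ Q
  · exact ⟨0, by simpa [mul_comm] using hq j hjq t (h.t ht) 0⟩
  have t0 : t ≠ 0 := fun e => htq (e ▸ Q.zero_mem)
  have j0 : j ≠ 0 := fun e => hjq (e ▸ Q.zero_mem)
  by_contra h1
  obtain ⟨O, hO, hB, hI⟩ := exists_val (h.ch ht hj)
    (fun x => ∃ n, x * (t * j) ^ (n + 1) ∈ gG T J Q (span k (Set.range y)) W n)
    ⟨0, by simp⟩
    (by
      rintro x z ⟨n, hx⟩ ⟨l, hz⟩
      exact ⟨n + l, by
        rw [add_mul]
        exact add_mem (h.up ht hj hx (Nat.le_add_right _ _)) (h.up ht hj hz (Nat.le_add_left _ _))⟩)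
    (by
      rintro b ⟨l, hb⟩ x ⟨n, hx⟩
      refine ⟨n + l, ?_⟩
      rw [show b * x * (t * j) ^ (n + l + 1) = x * (t * j) ^ (n + 1) * (b * (t * j) ^ l) by ring]
      exact h.gs n l (mul_mem_mul hx hb)) h1
  have a1 := one_mem_alg T
  have bT : ∀ x ∈ T, x ∈ h.ch ht hj := fun x hx =>
    ⟨0, mem_sup_left (by simpa using le_alg T hx)⟩
  have hc : Cen T O := ⟨hO, fun x hx => ⟨hB (bT x hx), hI x (bT x hx) ⟨0, by
    refine mem_sup_left (mem_sup_right ?_)
    rw [show x * (t * j) ^ (0 + 1) = x * t * (1 * j) by ring, zero_add, zero_add, pow_two, pow_one]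
    exact mul_mem_mul (mul_mem_mul hx ht) (mul_mem_mul a1 hj)⟩⟩⟩
  have hR : O ≤ R := fun x hx => by
    by_contra hn
    have x0 : x ≠ 0 := fun e => hn (e ▸ R.zero_mem)
    have hx' : x⁻¹ ∈ Q := (h.q _).2 ⟨(h.val x).resolve_left hn, fun hu => hn (by
      simpa using hu.2.2)⟩
    have hb : x⁻¹ ∈ h.ch ht hj := ⟨0, mem_sup_right (by simpa using hx')⟩
    exact hI _ hb ⟨0, hq _ hx' _ (R.pow_mem (R.mul_mem (h.t ht) (h.j hj)) _) 0⟩
      ⟨hB hb, inv_ne_zero x0, by simpa using hx⟩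
  rcases H O hc hR (fun e => htq (e ht)) (fun e => hjq (e hj)) with ⟨i, g1, g2, g3⟩ | ⟨g1, g2, g3⟩
  · have hb : y i / t ∈ h.ch ht hj := ⟨1, mem_sup_left (by
      rw [show y i / t * (t * j) ^ 1 = 1 * (y i * j) by field_simp, pow_one, pow_one]
      exact mul_mem_mul a1 (mul_mem_mul g1 hj))⟩
    refine hI _ hb ⟨0, mem_sup_left (mem_sup_left ?_)⟩
      ⟨hB hb, div_ne_zero g2 t0, by rw [inv_div]; exact g3 t ht⟩
    rw [show y i / t * (t * j) ^ (0 + 1) = y i * (1 * j) by rw [zero_add]; field_simp, pow_zero, one_mul (_ * _),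
      zero_add, pow_one]
    exact mul_mem_mul (subset_span ⟨i, rfl⟩) (mul_mem_mul a1 hj)
  · have hb : W / j ∈ h.ch ht hj := ⟨1, mem_sup_left (by
      rw [show W / j * (t * j) ^ 1 = 1 * (t * W) by field_simp, pow_one, pow_one]
      exact mul_mem_mul a1 (mul_mem_mul ht g1))⟩
    refine hI _ hb ⟨0, mem_sup_right (mem_sup_left ?_)⟩
      ⟨hB hb, div_ne_zero g2 j0, by rw [inv_div]; exact g3 j hj⟩
    rw [show W / j * (t * j) ^ (0 + 1) = W * t by rw [zero_add]; field_simp, pow_zero, mul_one]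
    exact mul_mem_mul (mem_span_singleton_self W) (le_alg T ht)

end Null

end Nul

open Nul in
/-- Module NULL. -/
theorem null : NullStmt k K := by
  intro e T J Q R y W hT hJ hR hQ ht hj hy hW H
  have h : Dat T J Q (span k (Set.range y)) W R :=
    ⟨hR, hQ, ht, hj, span_le.2 fun _ ⟨i, e⟩ => e ▸ hy i, hW⟩
  obtain ⟨a, t, hT⟩ := fg_iff_exists_fin_generating_family.1 hT
  obtain ⟨b, j, hJ⟩ := fg_iff_exists_fin_generating_family.1 hJ
  have mt : ∀ i, t i ∈ T := fun i => hT ▸ subset_span ⟨i, rfl⟩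
  have mj : ∀ i, j i ∈ J := fun i => hJ ▸ subset_span ⟨i, rfl⟩
  choose f hf using fun x : Fin a × Fin b => h.key H (mt x.1) (mj x.2)
  obtain ⟨n, hn⟩ := (Set.finite_range f).bddAbove
  have h1 : qq k t (n + 1) * qq k j (n + 1) ≤ gG T J Q (span k (Set.range y)) W n := by
    rw [qq, qq, span_mul_span, span_le]
    rintro _ ⟨_, ⟨i, rfl⟩, _, ⟨l, rfl⟩, rfl⟩
    have := h.up (mt i) (mj l) (hf (i, l)) (hn ⟨(i, l), rfl⟩)
    rwa [one_mul, mul_pow] at this
  have h2 := Red.span_pow_le (k := k) t (a := n) (r := (a + b) * n)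
    (by rw [Fintype.card_fin, add_mul]; omega)
  have h3 := Red.span_pow_le (k := k) j (a := n) (r := (a + b) * n)
    (by rw [Fintype.card_fin, add_mul]; omega)
  rw [hT] at h2
  rw [hJ] at h3
  refine ⟨n + (a + b) * n, ?_⟩
  rw [show n + (a + b) * n + 1 = (a + b) * n + (n + 1) by ring]
  refine (mul_le_mul' h2 h3).trans ?_
  rw [mul_mul_mul_comm, show (a + b) * n + (n + 1) = n + (a + b) * n + 1 by ring]
  refine le_trans (mul_le_mul' h1 (le_sup_of_le_left ?_)) (h.gs n _)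
  conv_lhs => rw [← one_mul (T ^ _ * J ^ _)]
  exact mul_le_mul_left (one_le_alg T) _

namespace Nul

/-- From the conclusion of module NULL to reductions. -/
theorem rd_of {e N : ℕ} {T J Q : Submodule k K} {y : Fin e → K} {W : K}
    (h : T ^ (N + 1) * J ^ (N + 1) ≤
      span k (Set.range y) * (T ^ N * (alg T * J ^ (N + 1))) ⊔
      T ^ (N + 2) * (alg T * J ^ (N + 1)) ⊔ (pr k W * (alg T * J ^ N) ⊔ Q)) (Z : Submodule k K) :
    Rd T 1 y (alg T * (J ^ (N + 1) * Z)) (pr k W * (alg T * (J ^ N * Z)) ⊔ Q * (alg T * Z)) := by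
  refine ⟨N, ?_⟩
  have h1 := mul_le_mul_left h (alg T * Z)
  rw [Submodule.sup_mul, Submodule.sup_mul, Submodule.sup_mul] at h1
  refine le_trans (le_of_eq (by ring)) (h1.trans (le_of_eq ?_))
  congr 1
  · congr 1
    · conv_rhs => rw [← alg_mul_alg]
      ring
    · conv_rhs => rw [← alg_mul_alg]
      ring
  · congr 1
    conv_rhs => rw [← alg_mul_alg]
    ring

theorem top_max (x : K) :
    x ∈ (⊥ : Submodule k K) ↔ x ∈ (⊤ : Subalgebra k K) ∧ ¬ Un (⊤ : Subalgebra k K) x := by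
  simp [Un]

theorem vr_max (w : DV k K) (x : K) : x ∈ w.fil 1 ↔ x ∈ w.vr ∧ ¬ Un w.vr x := by
  by_cases h : x = 0
  · simp [h, Un]
  simp only [Un, DV.mem_vr, St.mem_fil h, St.mem_fil (inv_ne_zero h), St.ord_inv, ne_eq, h,
    not_false_eq_true, true_and]
  omega

theorem val_vr (w : DV k K) : Val w.vr := fun x => by
  by_cases h : x = 0
  · exact Or.inl (h ▸ w.vr.zero_mem)
  simp only [DV.mem_vr, St.mem_fil h, St.mem_fil (inv_ne_zero h), St.ord_inv]
  omega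

theorem one_fg : (1 : Submodule k K).FG := pr_one (k := k) (K := K) ▸ pr_fg 1

theorem b1 (m μ e : ℕ) (he : e ≤ m + 1) : μ * (2 * (1 + 1) * (e + 1)) ^ e ≤ cstF m μ := by
  refine le_trans ?_ (cst_le_cstF m μ)
  rw [cst]
  refine Nat.mul_le_mul ?_ ?_
  · calc μ ≤ 1 * (2 * μ + 1) := by omega
      _ ≤ _ := Nat.mul_le_mul_right _ (Nat.one_le_pow _ _ (by omega))
  · exact (Nat.pow_le_pow_left (by nlinarith) _).trans (Nat.pow_le_pow_right (by positivity) he)

theorem b2 (m μ : ℕ) : 2 ^ (m + 1) * μ * (2 * (1 + 1) * (m + 1)) ^ m ≤ cstF m μ := by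
  refine le_trans (Nat.mul_le_mul_left _ ?_) (Nat.le_add_left _ _)
  exact (Nat.pow_le_pow_left (by nlinarith) _).trans
    (Nat.pow_le_pow_right (by positivity) (Nat.le_succ m))

theorem not_deep {n : ℕ} {T J : Submodule k K} {W : K} (hF : Fld n T) (h1 : (1 : K) ∉ nn T)
    (hJ : J.FG) (hJ0 : J ≠ ⊥) (hs : SS T J W) : W ∉ T * (alg T * J) := fun hW => by
  have h2 : W * 1 ∈ FF T J (0 + 1) (0 + 1) := fun O hO hT t j ht hj => by
    rw [mul_one, zero_add, pow_one, pow_one]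
    refine Submodule.mul_induction_on hW (fun x hx z hz => ?_) fun x z a b => by
      rw [add_div]; exact O.add_mem a b
    rw [← div_mul_div_comm]
    refine O.mul_mem (ht.2.2 x hx) ?_
    refine Submodule.mul_induction_on hz (fun a ha b hb => ?_) fun x z a b => by
      rw [add_div]; exact O.add_mem a b
    rw [mul_div_assoc]
    exact O.mul_mem (Algebra.adjoin_le (S := O) hT ha) (hj.2.2 b hb)
  have h3 := hs 0 0 1 (fun O _ _ _ _ _ _ => by simp) h2
  obtain ⟨O, hO, hB, hI⟩ := exists_val (Algebra.adjoin k (T : Set K)) (· ∈ nn T) (zero_mem _)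
    (fun _ _ => add_mem) (fun b hb x hx => mul_mem_nn hb hx) h1
  obtain ⟨t, ht⟩ := hO.exists_gen hF.fg hF.ne
  obtain ⟨j, hj⟩ := hO.exists_gen hJ hJ0
  have hT : ∀ x ∈ T, x ∈ O := fun x hx => hB (le_alg T hx)
  exact hI t (le_alg T ht.1) (le_nn T ht.1) ⟨hT t ht.1, ht.2.1, by simpa using h3 O hO hT t j ht hj⟩

end Nul

open Nul in
/-- Module LIN. -/
theorem lin_of [Infinite k] (h1 : NullStmt k K) (h2 : NumwStmt k K) : LinStmt k K m := by
  rintro d μ D M₀ T l hF hn hJ0 hM₀ ⟨M₁, hM₁, hG⟩ hD hS hP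
  have hT := hF.fg
  have hJ := JJ_fg (d := d) hT
  have hl : ∀ i, l i ∈ alg T := fun i => le_alg T (hP.mem i)
  have hc : ∀ (i : Fin (m + 1)) (c : k), l i - c • (1 : K) ∈ nn T → c = 0 := fun i c h => by
    refine cst_eq_zero hn ?_
    rw [Algebra.algebraMap_eq_smul_one, ← sub_sub_cancel (l i) (c • (1 : K))]
    exact sub_mem (le_nn T (hP.mem i)) h
  refine ⟨⟨⟨0, hn⟩, fun i₀ c h0 h => ?_, fun i₀ c h0 h => ?_, fun h => absurd (h 0) hn⟩, ?_⟩
  · obtain rfl : i₀ = 0 := by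
      induction i₀ using Fin.cases with
      | zero => rfl
      | succ i => exact absurd (le_nn T (hP.mem i)) h0
    simp only [Fin.succAbove_zero, Fin.cons_succ, Fin.cons_zero] at h ⊢
    simp only [fun i => hc i _ (h i), zero_smul, sub_zero]
    have hM := hM₀.sup hM₁
    obtain ⟨P, P', b, -, -, -, -, h3⟩ := sm_gr hT hJ hM
    obtain ⟨N, h4⟩ := h1 _ T 1 ⊥ ⊤ l 0 hT one_fg val_top top_max (fun _ _ => trivial)
      (fun _ _ => trivial) hP.mem (zero_mem _) fun O hO _ _ _ => .inl (hP.v1 O hO)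
    have h5 := rd_of h4 ((M₀ ⊔ M₁) * JJ d T ^ b)
    simp only [one_pow, one_mul, pr, span_zero_singleton, Submodule.bot_mul, sup_idem] at h5
    exact ⟨_, b, hM, le_sup_left, ld_mono (ld_of_gr (md_Mb ..) md_bot hl
      (fun L => (fam_Mb hT hJ hM).fd' le_rfl le_sup_left)
      (h3 b le_rfl μ m (hG _ hM le_sup_right)).1 h5) (b1 m μ _ le_rfl) le_rfl⟩
  · obtain rfl : i₀ = 0 := by
      induction i₀ using Fin.cases with
      | zero => rfl
      | succ i => exact absurd (le_nn T (hP.mem i.castSucc)) h0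
    simp only [Fin.succAbove_zero, Fin.castSucc_zero, Fin.castSucc_succ, Fin.cons_succ,
      Fin.cons_zero] at h ⊢
    simp only [fun i => hc _ _ (h i), zero_smul, sub_zero]
    refine ⟨fun w hw => ?_, fun _ => ?_⟩
    · obtain ⟨N, h4⟩ := h1 _ T 1 (w.fil 1) w.vr (fun i : Fin m => l i.castSucc) 0 hT one_fg
        (val_vr w) (vr_max w) (hD w hw).1 St.one_le_fil (fun i => hP.mem _) (zero_mem _)
        fun O hO hR hq _ => .inl (hP.v2 w hw O hO hR hq)
      have h5 := rd_of h4 1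
      simp only [one_pow, mul_one, pr, span_zero_singleton, Submodule.bot_mul, bot_sup_eq] at h5
      have h6 : w.fil 1 * alg T ≤ w.fil 1 := by rw [mul_comm]; exact md_fil (hD w hw).1 1
      have h7 := fun L => (fam_Mb hT one_fg one_fg).fd' (b := 0) (L := L) (P := alg T)
        (Q := T ^ L * alg T ⊔ w.fil 1) (by simp [Mb]) (by simp [Mb])
      exact ld_mono (ld_of_gr (md_alg T) (md_fil (hD w hw).1 1) (fun i => hl _) h7 (hD w hw).2
        (Red.rd_mono h5 h6)) (b1 m μ _ (Nat.le_succ m)) le_rfl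
    · have hW : Jac d l ∈ JJ d T := subset_span ⟨l, hP.mem, rfl⟩
      obtain ⟨MM, hM, hM0, h3⟩ := h2 m μ T _ M₁ _ hF hJ hJ0 hM₁ hG hS hW hP.ss
      obtain ⟨N, h4⟩ := h1 _ T _ ⊥ ⊤ (fun i : Fin m => l i.castSucc) _ hT hJ val_top top_max
        (fun _ _ => trivial) (fun _ _ => trivial) (fun i => hP.mem _) hW
        fun O hO _ _ _ => hP.v3 O hO
      obtain ⟨b, h5, h6⟩ := (h3.and (eventually_ge_atTop N)).exists
      obtain ⟨r, rfl⟩ := Nat.exists_eq_add_of_le h6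
      have h7 := rd_of h4 (MM * JJ d T ^ r)
      rw [Submodule.bot_mul, sup_bot_eq,
        show JJ d T ^ (N + 1) * (MM * JJ d T ^ r) = MM * JJ d T ^ (N + r + 1) by ring,
        show JJ d T ^ N * (MM * JJ d T ^ r) = MM * JJ d T ^ (N + r) by ring] at h7
      rw [wr_cons_one]
      exact ⟨MM, N + r, hM, hM0, ld_mono (ld_of_gr (md_Mb ..) ((md_Mb ..).mul _) (fun i => hl _)
        (fun L => (fam_Mb hT hJ hM).fd' le_rfl le_sup_left) h5 h7) (b2 m μ) le_rfl⟩
  · rw [wr_cons_one]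
    exact not_deep hF hn hJ hJ0 hP.ss

end Pool.Agent.MP_19ffc6_ag.Res.PF
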