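import Mathlib
import Pool.Agent.MP_19ffc6_ag.Res.FGame

/-! PROJECT RES, stage F: module RAT. -/

namespace Pool.Agent.MP_19ffc6_ag.Res.PF

open Pool.Agent.MP_19ffc6_ag.Wild Pool.Agent.MP_19ffc6_ag.Res.PA Submodule Filter Module
  MvPolynomial

variable {k K : Type} [Field k] [Field K] [Algebra k K] {m : ℕ}

namespace RatM

/-- The linear form as a linear map. -/
noncomputable def lfL {ι I : Type} [Fintype I] (e : I → ι) : (I → k) →ₗ[k] MvPolynomial ι k :=
  Fintype.linearCombination k fun i => X (e i)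

theorem lfL_apply {ι I : Type} [Fintype I] (e : I → ι) (c : I → k) : lfL e c = lf e c :=
  Fintype.linearCombination_apply _ _ _

theorem lfL_deg {ι I : Type} [Fintype I] (e : I → ι) (c : I → k) : (lfL e c).totalDegree ≤ 1 := by
  rw [lfL_apply]
  exact totalDegree_finsetSum_le fun i _ => (totalDegree_smul_le _ _).trans (totalDegree_X _).le

theorem lfL_single {ι I : Type} [Fintype I] [DecidableEq I] (e : I → ι) (i : I) :
    lfL (k := k) e (Pi.single i 1) = X (e i) := by
  rw [lfL, Fintype.linearCombination_apply_single, one_smul]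

/-- The products of coordinates. -/
noncomputable def prd (I : Type) (r : ℕ) :
    MultilinearMap k (fun _ : Fin r => I → k) ((Fin r → I) → k) :=
  MultilinearMap.pi fun f =>
    (MultilinearMap.mkPiAlgebra k (Fin r) k).compLinearMap fun i => LinearMap.proj (f i)

theorem prd_apply {I : Type} {r : ℕ} (x : Fin r → I → k) (f : Fin r → I) :
    prd I r x f = ∏ i, x i (f i) := by
  simp [prd]

theorem prd_single {I : Type} [DecidableEq I] {r : ℕ} (f : Fin r → I) :
    prd (k := k) I r (fun i => Pi.single (f i) 1) = Pi.single f 1 := by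
  funext g
  rw [prd_apply]
  by_cases h : g = f
  · subst h; simp
  · obtain ⟨i, hi⟩ := Function.ne_iff.1 h
    rw [Pi.single_eq_of_ne h]
    exact Finset.prod_eq_zero (Finset.mem_univ i) (Pi.single_eq_of_ne hi _)

theorem jac_sum (d : Fin (m + 1) → Derivation k K K) {I : Type} [Fintype I] (t : I → K)
    (x : Fin (m + 1) → I → k) :
    Jac d (fun i => ∑ c, x i c • t c) = ∑ f, prd I (m + 1) x f • Jac d (t ∘ f) := by
  classical
  have := (jacA d).toMultilinearMap.map_sum (fun i c => x i c • t c)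
  simp only [AlternatingMap.coe_multilinearMap, jacA_apply] at this
  rw [this]
  refine Finset.sum_congr rfl fun f _ => ?_
  rw [prd_apply]
  exact (jacA d).toMultilinearMap.map_smul_univ (fun i => x i (f i)) (t ∘ f)

theorem span_jac (d : Fin (m + 1) → Derivation k K K) {I : Type} [Fintype I] (t : I → K) :
    span k (Set.range fun f : Fin (m + 1) → I => Jac d (t ∘ f)) = JJ d (span k (Set.range t)) := by
  refine le_antisymm (span_le.2 ?_) (JJ_le fun g hg => ?_)
  · rintro _ ⟨f, rfl⟩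
    exact jac_mem fun i => subset_span ⟨f i, rfl⟩
  · choose c hc using fun i => (mem_span_range_iff_exists_fun k).1 (hg i)
    rw [show g = fun i => ∑ a, c i a • t a from funext fun i => (hc i).symm, jac_sum]
    exact sum_mem fun f _ => smul_mem _ _ (subset_span ⟨f, rfl⟩)

theorem fld {t₀ : Fin (m + 1) → K} {d : Fin (m + 1) → Derivation k K K} (hF : Fr t₀ d)
    {T : Submodule k K} (hT : T.FG) (hJ : JJ d T ≠ ⊥) : Fld (m + 1) T := by
  obtain ⟨g, hg, h0⟩ : ∃ g : Fin (m + 1) → K, (∀ i, g i ∈ T) ∧ Jac d g ≠ 0 := by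
    by_contra h
    push Not at h
    exact hJ (le_bot_iff.1 (JJ_le fun g hg => h g hg))
  have h1 := hF.of_jac h0
  refine ⟨hT, fun e => ?_, hF.essFiniteType, hF.trdeg, ?_⟩
  · refine h0 (jac_const g 0 0 ?_)
    have := hg 0
    rw [e] at this
    rw [map_zero]; exact this
  · have := h1.fin
    have h2 : Algebra.IsAlgebraic (Algebra.adjoin k (Set.range g)) K :=
      IntermediateField.isAlgebraic_adjoin_iff_top.1 inferInstance
    have h3 : Algebra.adjoin k (Set.range g) ≤ Algebra.adjoin k (T : Set K) :=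
      Algebra.adjoin_mono (by rintro _ ⟨i, rfl⟩; exact hg i)
    exact ⟨fun z => (h2.isAlgebraic z).tower_top_of_subalgebra_le h3⟩

theorem exists_gn {O : Subalgebra k K} (hO : Val O) {I : Type} [Fintype I] (t : I → K)
    (h : span k (Set.range t) ≠ ⊥) : ∃ c, Gn O (span k (Set.range t)) (t c) := by
  classical
  obtain ⟨c₀, h0⟩ : ∃ c, t c ≠ 0 := by
    by_contra hh
    push Not at hh
    exact h (span_eq_bot.2 (by rintro _ ⟨c, rfl⟩; exact hh c))
  have key : ∀ s : Finset I, ∃ c, t c ≠ 0 ∧ ∀ a ∈ s, t a / t c ∈ O := by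
    intro s
    induction s using Finset.induction_on with
    | empty => exact ⟨c₀, h0, by simp⟩
    | insert b s _ ih =>
      obtain ⟨c, hc, h1⟩ := ih
      by_cases h2 : t b / t c ∈ O
      · exact ⟨c, hc, fun a ha => by
          rcases Finset.mem_insert.1 ha with rfl | ha
          exacts [h2, h1 a ha]⟩
      · have hb : t b ≠ 0 := fun e => h2 (by rw [e, zero_div]; exact O.zero_mem)
        have h3 := (hO _).resolve_left h2
        rw [inv_div] at h3
        refine ⟨b, hb, fun a ha => ?_⟩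
        rcases Finset.mem_insert.1 ha with rfl | ha
        · rw [div_self hb]; exact O.one_mem
        · rw [show t a / t b = t a / t c * (t c / t b) by field_simp]
          exact O.mul_mem (h1 a ha) h3
  obtain ⟨c, hc, h1⟩ := key Finset.univ
  refine ⟨c, subset_span ⟨c, rfl⟩, hc, fun y hy => ?_⟩
  obtain ⟨a, rfl⟩ := (mem_span_range_iff_exists_fun k).1 hy
  rw [Finset.sum_div]
  exact O.sum_mem fun i _ => by
    rw [smul_div_assoc]; exact O.smul_mem (h1 i (Finset.mem_univ _)) _

theorem gn_smul {O : Subalgebra k K} {X : Submodule k K} {x : K} {c : k} (hc : c ≠ 0)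
    (h : Gn O X x) : Gn O X (c • x) :=
  ⟨X.smul_mem c h.1, smul_ne_zero hc h.2.1, fun y hy => by
    have := O.smul_mem (h.2.2 y hy) c⁻¹
    have h1 : algebraMap k K c ≠ 0 := (map_ne_zero _).2 hc
    rwa [Algebra.smul_def, map_inv₀, show (algebraMap k K c)⁻¹ * (y / x) = y / (c • x) by
      rw [Algebra.smul_def]; field_simp] at this⟩

theorem ss_smul {T J : Submodule k K} {W : K} {c : k} (hc : c ≠ 0) (h : SS T J W) :
    SS T J (c • W) := fun a b f h1 h2 =>
  h a b f h1 (by rwa [smul_mul_assoc, smul_mem_iff _ hc] at h2)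

theorem ssg [Infinite k] {ι I' : Type} [Fintype I'] (e : I' → ι) (j : I' → K)
    {T J : Submodule k K} (hJ : span k (Set.range j) = J)
    (s : Finset (Ideal (MvPolynomial ι k))) (hY : ∀ p ∈ s, ∃ i, X (e i) ∉ p)
    (hS : ∀ c : I' → k, (∀ p ∈ s, lf e c ∉ p) → SS T J (∑ i, c i • j i)) : SSG T J := by
  classical
  intro P hP hJP
  let u : Finset (Submodule k (I' → k)) :=
    s.image (fun p => (p.restrictScalars k).comap (lfL e)) ∪
      hP.toFinset.image fun p => p.comap (Fintype.linearCombination k j)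
  have hu : ⊤ ∉ u := by
    intro h
    rcases Finset.mem_union.1 h with h | h
    · obtain ⟨p, hp, e1⟩ := Finset.mem_image.1 h
      obtain ⟨i, hi⟩ := hY p hp
      have : Pi.single i 1 ∈ (p.restrictScalars k).comap (lfL e) := e1 ▸ mem_top
      rw [Submodule.mem_comap, lfL_single] at this
      exact hi this
    · obtain ⟨p, hp, e1⟩ := Finset.mem_image.1 h
      refine hJP p (hP.mem_toFinset.1 hp) (hJ ▸ span_le.2 ?_)
      rintro _ ⟨i, rfl⟩
      have : Pi.single i 1 ∈ p.comap (Fintype.linearCombination k j) := e1 ▸ mem_top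
      rwa [Submodule.mem_comap, Fintype.linearCombination_apply_single, one_smul] at this
  obtain ⟨c, hc⟩ := (Set.ne_univ_iff_exists_notMem _).1
    (Subspace.biUnion_ne_univ_of_top_notMem hu)
  simp only [Set.mem_iUnion, not_exists] at hc
  refine ⟨∑ i, c i • j i, hJ ▸ sum_mem fun i _ => smul_mem _ _ (subset_span ⟨i, rfl⟩),
    fun p hp h => ?_, hS c fun p hp h => ?_⟩
  · refine hc _ (Finset.mem_union_right _ (Finset.mem_image_of_mem _ (hP.mem_toFinset.2 hp))) ?_
    rwa [SetLike.mem_coe, Submodule.mem_comap, Fintype.linearCombination_apply]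
  · refine hc _ (Finset.mem_union_left _ (Finset.mem_image_of_mem _ hp)) ?_
    rwa [SetLike.mem_coe, Submodule.mem_comap, lfL_apply]

theorem rows_span {N : Type} [AddCommGroup N] [Module k N] {r : ℕ} (l : (Fin r → k) →ₗ[k] N)
    (q : Submodule k N) (a : Fin r → Fin r → k) (ha : (Matrix.of a).det ≠ 0)
    (h : ∀ i, l (a i) ∈ q) (y : Fin r → k) : l y ∈ q := by
  have e : y = ∑ i, Matrix.vecMul y (Matrix.of a)⁻¹ i • a i := by
    have := Matrix.vecMul_vecMul y (Matrix.of a)⁻¹ (Matrix.of a)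
    rw [Matrix.nonsing_inv_mul _ (isUnit_iff_ne_zero.2 ha), Matrix.vecMul_one] at this
    conv_lhs => rw [← this]
    rw [Matrix.vecMul_eq_sum]
    rfl
  rw [e, map_sum]
  exact sum_mem fun i _ => by rw [map_smul]; exact q.smul_mem _ (h i)

theorem mix {I : Type} [Fintype I] {r : ℕ} (t : I → K) (x : Fin r → I → k) (y : Fin r → k) :
    ∑ c, Fintype.linearCombination k x y c • t c = ∑ j, y j • ∑ c, x j c • t c := by
  simp only [Fintype.linearCombination_apply, Finset.sum_apply, Pi.smul_apply, smul_eq_mul,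
    Finset.sum_smul, Finset.smul_sum, mul_smul]
  exact Finset.sum_comm

end RatM

open RatM in
theorem rat_of [IsAlgClosed k] (cut : CutStmt k) (game : GameStmt k) (rees : ReesStmt k K)
    (cone : ConeStmt k K m) (lin : LinStmt k K m) (_uni : UniStmt k K m) : RatStmt k K m := by
  classical
  intro t₀ d μ D M₀ T I _ t hF hT h1 hJ hM hG hD hP hS
  have hTf : T.FG := hT ▸ fg_span (Set.finite_range t)
  have hfld := fld hF hTf hJ
  have hj : span k (Set.range fun f : Fin (m + 1) → I => Jac d (t ∘ f)) = JJ d T :=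
    hT ▸ span_jac d t
  obtain ⟨M₁, hM₁, hSm⟩ := id hG
  have h1fg : (M₁ ⊔ 1 : Submodule k K).FG := hM₁.sup (by
    rw [Submodule.one_eq_span]; exact fg_span_singleton _)
  obtain ⟨s, hs, hY, hSS, hcov⟩ := rees (m + 1) μ I (Fin (m + 1) → I) t _ T (JJ d T) (M₁ ⊔ 1) hT hj
    hfld hJ h1fg (fun e => by
      have : (1 : K) ∈ (M₁ ⊔ 1 : Submodule k K) := mem_sup_right (mem_one.2 ⟨1, map_one _⟩)
      rw [e] at this
      exact one_ne_zero this) (hSm _ h1fg le_sup_left)
  obtain ⟨sc, hsc, hcone⟩ := cone μ I t T D hT hD hP hS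
  have hssg := ssg Sum.inr _ hj s hY hSS
  have hGr : ∀ w ∈ D, T ≤ w.fil 0 ∧ Gr m μ T (alg T) (w.fil 1) := fun w hw =>
    ⟨(hP w hw).le, by simpa [Gr] using hS {w} (by simpa using hw)⟩
  set ν := 8 ^ (m + 1 + 1) * μ with hν
  have hs1 : Pm (1 + (m + 1)) ν s := by rw [add_comm 1]; exact hs
  have G1 := game.cut (I → k) (I ⊕ (Fin (m + 1) → I)) 1 (m + 1) ν s (lfL Sum.inl) hs1 (lfL_deg _)
  have G2 := game.multi (I → k) (MvPolynomial (I ⊕ (Fin (m + 1) → I)) k) (m + 1)
    ((lfL Sum.inr).compMultilinearMap (prd I (m + 1))) (s.image fun p => p.restrictScalars k) (by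
      intro p' hp'
      obtain ⟨p, hp, rfl⟩ := Finset.mem_image.1 hp'
      obtain ⟨f, hf⟩ := hY p hp
      refine ⟨fun i => Pi.single (f i) 1, ?_⟩
      rw [LinearMap.compMultilinearMap_apply, prd_single, lfL_single]
      exact hf)
  have c1 : (s.image fun p => p.restrictScalars k).card ≤ gc (m + 2) ν :=
    Finset.card_image_le.trans ((cut.card _ _ _ _ hs).trans (Gme.le_gc _ _))
  refine game.mono _ _ _ _ _ _ ?_ ?_ (game.and _ _ _ _ _ _ G1 G2)
  · rw [add_comm 1 (m + 1), gm]
    change gc (m + 2) ν + _ ≤ 2 * gc (m + 2) ν + 1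
    omega
  rintro x ⟨hx1, hx2⟩
  have hω : ∀ p ∈ s, lfL Sum.inr (prd I (m + 1) x) ∉ p := fun p hp =>
    hx2 _ (Finset.mem_image_of_mem _ hp)
  have V1 : ∀ O, Cen T O → ∃ i, Gn O T (∑ c, x i c • t c) := by
    intro O hO
    obtain ⟨q, q1, q2, q3, q4, -⟩ := hcov O hO
    by_contra hn
    push Not at hn
    obtain ⟨c, hc⟩ := exists_gn hO.1 t (hT ▸ hfld.ne)
    have := hx1 q q1 q2 ⟨Pi.single c 1, by
      rw [lfL_apply, q4, not_not]
      simpa [Pi.single_apply, hT] using hc⟩ fun i => by rw [lfL_apply, q4]; exact hn i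
    exact absurd (q3.trans this) (by norm_num)
  obtain ⟨s', hs', -, hc'⟩ := cut.cut _ (m + 1) ν 1 s (fun _ => lfL Sum.inr (prd I (m + 1) x)) hs
    one_pos fun p hp => ⟨hω p hp, lfL_deg _ _⟩
  have hs2 : Pm (1 + m) (4 ^ (m + 1 + 1) * 1 * ν) s' := by rw [add_comm 1]; exact hs'
  have hs3 : Pm (0 + m) (4 ^ m * μ) sc := by rw [zero_add]; exact hsc
  have H1 := game.init _ _ _ _ (game.cut (Fin (m + 1) → k) _ 1 m _ s'
    (lfL Sum.inl ∘ₗ Fintype.linearCombination k x) hs2 fun _ => lfL_deg _ _)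
  have H2 := game.init _ _ _ _ (game.cut (Fin (m + 1) → k) _ 0 m _ sc
    (lfL id ∘ₗ Fintype.linearCombination k x) hs3 fun _ => lfL_deg _ _)
  have H3 := game.multi (Fin (m + 1) → k) k (m + 1)
    (Matrix.detRowAlternating (n := Fin (m + 1)) (R := k)).toMultilinearMap {⊥} (by
      intro p hp
      rw [Finset.mem_singleton.1 hp]
      refine ⟨(1 : Matrix (Fin (m + 1)) (Fin (m + 1)) k), fun h => ?_⟩
      have : (1 : Matrix (Fin (m + 1)) (Fin (m + 1)) k).det = 0 := h
      simp at this)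
  refine game.mono _ _ _ _ _ _ ?_ ?_ (game.and _ _ _ _ _ _ (game.and _ _ _ _ _ _ H1 H2) H3)
  · have a1 : gc (1 + m) (4 ^ (m + 1 + 1) * 1 * ν) ≤ gc (m + 2) ν := by
      rw [add_comm 1 m]; exact Gme.gc_step _ _
    have a2 : gc (0 + m) (4 ^ m * μ) ≤ gc (m + 2) ν := gc_mono (by omega)
      (Nat.mul_le_mul_right _ ((Nat.pow_le_pow_left (by norm_num) _).trans
        (Nat.pow_le_pow_right (by norm_num) (by omega))))
    rw [Finset.card_singleton, gm]
    change _ ≤ 2 * gc (m + 2) ν + 1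
    omega
  rintro a ⟨⟨ha1, ha2⟩, ha3⟩
  have hdet : (Matrix.of a).det ≠ 0 := ha3 ⊥ (Finset.mem_singleton_self _)
  have hjac : Jac d (fun i => ∑ j, a i j • ∑ c, x j c • t c) =
      (Matrix.of a).det • ∑ f, prd I (m + 1) x f • Jac d (t ∘ f) := by
    rw [← jac_sum]; exact jac_mix (Matrix.of a) _
  have one : ∀ i, ∑ j, (Pi.single i 1 : Fin (m + 1) → k) j • ∑ c, x j c • t c =
      ∑ c, x i c • t c := fun i => by simp [Pi.single_apply]
  refine lin d μ D M₀ T _ hfld h1 hJ hM hG hGr hssg ⟨fun i => ?_, fun O hO => ?_,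
    fun w hw O hO h2 h3 => ?_, fun O hO => ?_, ?_⟩
  · exact hT ▸ sum_mem fun j _ => smul_mem _ _
      (sum_mem fun c _ => smul_mem _ _ (subset_span ⟨c, rfl⟩))
  · obtain ⟨q, -, -, -, q4, -⟩ := hcov O hO
    obtain ⟨i, hi⟩ := V1 O hO
    by_contra hn
    push Not at hn
    have := rows_span (lfL Sum.inl ∘ₗ Fintype.linearCombination k x) (q.restrictScalars k) a hdet
      (fun i => by
        rw [restrictScalars_mem, LinearMap.comp_apply, lfL_apply, q4, mix]; exact hn i)
      (Pi.single i 1)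
    rw [restrictScalars_mem, LinearMap.comp_apply, lfL_apply, q4, mix, one] at this
    exact this hi
  · obtain ⟨q, q1, q2, q3, q4⟩ := hcone w hw O hO h2 h3
    obtain ⟨i, hi⟩ := V1 O hO
    by_contra hn
    push Not at hn
    have := ha2 q q1 q2 ⟨Pi.single i 1, by
      rw [LinearMap.comp_apply, lfL_apply, q4, mix, one, not_not]; exact hi⟩ fun i => by
      rw [LinearMap.comp_apply, lfL_apply, q4, mix]; exact hn i
    exact absurd (q3.trans this) (by norm_num)
  · obtain ⟨q, q1, ⟨p, hp, hpq⟩, q3, q4, q5⟩ := hcov O hO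
    obtain ⟨i, hi⟩ := V1 O hO
    by_contra hn
    push Not at hn
    have h4 : lfL Sum.inr (prd I (m + 1) x) ∈ q := by
      rw [lfL_apply, q5]
      exact fun h => hn.2 (hjac ▸ gn_smul hdet h)
    have := ha1 q q1 (hc' p hp q q1 hpq h4) ⟨Pi.single i 1, by
      rw [LinearMap.comp_apply, lfL_apply, q4, mix, one, not_not]; exact hi⟩ fun i => by
      rw [LinearMap.comp_apply, lfL_apply, q4, mix]; exact hn.1 i
    exact absurd (q3.trans this) (by norm_num)
  · rw [hjac]
    exact ss_smul hdet (hSS _ fun p hp => by rw [← lfL_apply]; exact hω p hp)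

end Pool.Agent.MP_19ffc6_ag.Res.PF
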