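import Mathlib
import Pool.Agent.MP_19ffc6_ag.Res.FSpec

/-! PROJECT RES, stage F: points of medium degree and the sieve. -/

namespace Pool.Agent.MP_19ffc6_ag.Res.PF

open Module MvPolynomial

namespace Sv

variable {k F : Type} [Field k] [Field F] [Fintype F] [Algebra F k] {r : ℕ}

lemma fix_aeval {δ : ℕ} {ξ : Fin r → k} (h : ∀ i, ξ i ^ Fintype.card F ^ δ = ξ i)
    (f : MvPolynomial (Fin r) F) : aeval ξ f ^ Fintype.card F ^ δ = aeval ξ f := by
  have e : ∀ x : k, (FiniteField.frobeniusAlgHom F k ^ δ) x = x ^ Fintype.card F ^ δ := fun x => by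
    rw [AlgHom.coe_pow, FiniteField.coe_frobeniusAlgHom, pow_iterate]
  have : (FiniteField.frobeniusAlgHom F k ^ δ).comp (aeval ξ) = aeval ξ :=
    algHom_ext fun i => by rw [AlgHom.comp_apply, aeval_X, e, h]
  rw [← e]
  exact DFunLike.congr_fun this f

lemma fix_dvd {q δ R : ℕ} {x : k} (h : x ^ q ^ δ = x) (hd : δ ∣ R) : x ^ q ^ R = x := by
  obtain ⟨n, rfl⟩ := hd
  induction n with
  | zero => simp
  | succ n ih => rw [Nat.mul_succ, pow_add, pow_mul x, ih, h]

lemma fix_sub (A : Subalgebra F k) [Module.Finite F A] {x : k} (hx : x ∈ A) :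
    x ^ Fintype.card F ^ finrank F A = x := by
  classical
  have : Finite A := Module.finite_of_finite F
  let _ : Fintype A := Fintype.ofFinite A
  let _ : Field A := Fintype.fieldOfDomain A
  have h := FiniteField.pow_card (⟨x, hx⟩ : A)
  rw [Module.card_eq_pow_finrank (K := F)] at h
  exact congrArg Subtype.val h

lemma card_ker (G : Submodule F (MvPolynomial (Fin r) F)) [Fintype G] (ξ : Fin r → k)
    [DecidablePred fun x : G => aeval ξ x.1 = 0] :
    (Finset.univ.filter fun x : G => aeval ξ x.1 = 0).card *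
      Fintype.card F ^ finrank F (G.map (aeval ξ).toLinearMap) = Nat.card G := by
  let φ : G →ₗ[F] k := (aeval ξ).toLinearMap.comp G.subtype
  have h1 : LinearMap.range φ = G.map (aeval ξ).toLinearMap := by
    rw [LinearMap.range_comp, Submodule.range_subtype]
  have h2 : Nat.card (G ⧸ LinearMap.ker φ) = Fintype.card F ^ finrank F (LinearMap.range φ) := by
    rw [Nat.card_congr φ.quotKerEquivRange.toEquiv, Module.natCard_eq_pow_finrank (K := F),
      Nat.card_eq_fintype_card]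
  rw [← h1, ← h2, Submodule.card_eq_card_quotient_mul_card (LinearMap.ker φ)]
  congr 1
  rw [← Fintype.card_subtype, ← Nat.card_eq_fintype_card]
  rfl

/-- The values at `ξ` of the forms of degree `c`. -/
noncomputable def Hv (F : Type) [Field F] [Algebra F k] (ξ : Fin r → k) (c : ℕ) : Submodule F k :=
  (homogeneousSubmodule (Fin r) F c).map (aeval ξ).toLinearMap

omit [Fintype F] in
lemma Hv_mul {ξ : Fin r → k} {c : ℕ} {x : k} (hx : x ∈ Hv F ξ c) (v : Fin r) :
    x * ξ v ∈ Hv F ξ (c + 1) := by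
  obtain ⟨f, hf, rfl⟩ := hx
  exact ⟨f * X v, IsHomogeneous.mul hf (isHomogeneous_X F v), by simp⟩

omit [Fintype F] in
lemma Hv_mono {ξ : Fin r → k} (h : Nrm ξ) : Monotone (Hv F ξ) := by
  obtain ⟨i, hi, -⟩ := h
  exact monotone_nat_of_le_succ fun c x hx => by simpa [hi] using Hv_mul hx i

omit [Fintype F] in
/-- If the forms of degree `b` take few values they take all values. -/
lemma Hv_all {ξ : Fin r → k} (h : Nrm ξ) {b : ℕ} [FiniteDimensional F (Hv F ξ b)]
    (hb : finrank F (Hv F ξ b) ≤ b) (f : MvPolynomial (Fin r) F) : aeval ξ f ∈ Hv F ξ b := by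
  have h1 : (1 : k) ∈ Hv F ξ 0 := ⟨1, isHomogeneous_one _ _, map_one (aeval ξ)⟩
  obtain ⟨c, hc, hs⟩ : ∃ c < b, Hv F ξ (c + 1) ≤ Hv F ξ c := by
    by_contra! hn
    have key : ∀ c ≤ b, c + 1 ≤ finrank F (Hv F ξ c) := by
      intro c hc
      induction c with
      | zero =>
        have := Submodule.finiteDimensional_of_le (Hv_mono (F := F) h hc)
        refine Nat.succ_le_of_lt (Nat.pos_of_ne_zero fun h0 => ?_)
        rw [Submodule.finrank_eq_zero] at h0
        rw [h0] at h1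
        exact one_ne_zero ((Submodule.mem_bot F).mp h1)
      | succ c ih =>
        have := Submodule.finiteDimensional_of_le (Hv_mono (F := F) h hc)
        exact (Nat.succ_le_succ (ih (by omega))).trans (Submodule.finrank_lt_finrank_of_lt
          (lt_of_le_not_ge (Hv_mono h c.le_succ) (hn c hc)))
    have := key b le_rfl
    omega
  refine Hv_mono h hc.le ?_
  induction f using MvPolynomial.induction_on with
  | C a =>
    rw [aeval_C, Algebra.algebraMap_eq_smul_one]
    exact Submodule.smul_mem _ _ (Hv_mono h c.zero_le h1)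
  | add f g hf hg => rw [map_add]; exact add_mem hf hg
  | mul_X f v hf => rw [map_mul, aeval_X]; exact hs (Hv_mul hf v)

/-- The forms of degree `a` that vanish at all small points. -/
noncomputable def Gs (k F : Type) [Field k] [Field F] [Fintype F] [Algebra F k] (r R a : ℕ) :
    Submodule F (MvPolynomial (Fin r) F) :=
  homogeneousSubmodule (Fin r) F a ⊓
    ⨅ ξ : {ξ : Fin r → k // ∀ i, ξ i ^ Fintype.card F ^ R = ξ i},
      LinearMap.ker (aeval ξ.1).toLinearMap

lemma mem_Gs {R a : ℕ} {f : MvPolynomial (Fin r) F} : f ∈ Gs k F r R a ↔ f.IsHomogeneous a ∧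
    ∀ ξ : Fin r → k, (∀ i, ξ i ^ Fintype.card F ^ R = ξ i) → aeval ξ f = 0 := by
  simp [Gs, Submodule.mem_iInf]

lemma fd_Gs (R a : ℕ) : FiniteDimensional F (Gs k F r R a) :=
  Submodule.finiteDimensional_of_le (S₂ := restrictTotalDegree (Fin r) F a) fun _ hf =>
    (mem_restrictTotalDegree _ _ _).mpr (mem_Gs.mp hf).1.totalDegree_le

/-- A point that is not small and at which few values are taken has medium degree. -/
lemma medium {R b δ : ℕ} {ξ : Fin r → k} (h : Nrm ξ)
    (hs : ¬ ∀ i, ξ i ^ Fintype.card F ^ R = ξ i)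
    (hδ : finrank F ((Gs k F r R (b + (Fintype.card F ^ R + 1))).map (aeval ξ).toLinearMap) = δ)
    (hb : δ ≤ b) : 0 < δ ∧ ∀ i, ξ i ^ Fintype.card F ^ δ = ξ i := by
  obtain ⟨v, hv⟩ := not_forall.mp hs
  obtain ⟨i, hi, -⟩ := id h
  have := fd_Gs (k := k) (F := F) (r := r) R (b + (Fintype.card F ^ R + 1))
  set W := (Gs k F r R (b + (Fintype.card F ^ R + 1))).map (aeval ξ).toLinearMap with hW
  let θ : MvPolynomial (Fin r) F :=
    X v ^ Fintype.card F ^ R * X i - X i ^ Fintype.card F ^ R * X v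
  have hθ : θ.IsHomogeneous (Fintype.card F ^ R + 1) :=
    ((isHomogeneous_X_pow _ _).mul (isHomogeneous_X F _)).sub
      ((isHomogeneous_X_pow _ _).mul (isHomogeneous_X F _))
  have h0 : aeval ξ θ ≠ 0 := by simpa [θ, hi, sub_eq_zero] using hv
  let m : Hv F ξ b →ₗ[F] W := ((LinearMap.mulRight F (aeval ξ θ)).comp (Hv F ξ b).subtype).codRestrict
    W (by
      rintro ⟨_, f, hf, rfl⟩
      refine ⟨f * θ, mem_Gs.mpr ⟨IsHomogeneous.mul hf hθ, fun η hη => ?_⟩, by simp⟩
      simp [θ, hη, mul_comm])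
  have hm : Function.Injective m := fun x y e =>
    Subtype.ext (mul_right_cancel₀ h0 (congrArg Subtype.val e))
  have := FiniteDimensional.of_injective m hm
  have h1 : finrank F (Hv F ξ b) ≤ δ := hδ ▸ LinearMap.finrank_le_finrank_of_injective hm
  let A : Subalgebra F k := (aeval ξ).range
  have h2 : Subalgebra.toSubmodule A = Hv F ξ b := by
    refine le_antisymm ?_ ?_
    · rintro _ ⟨f, rfl⟩
      exact Hv_all h (h1.trans hb) f
    · rintro _ ⟨f, -, rfl⟩
      exact ⟨f, rfl⟩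
  have h3 : FiniteDimensional F (Subalgebra.toSubmodule A) := by rw [h2]; infer_instance
  have h4 : Module.Finite F A := h3
  have h5 : finrank F A = δ := by
    refine le_antisymm ?_ ?_
    · rw [← Subalgebra.finrank_toSubmodule, h2]; exact h1
    · rw [← Subalgebra.finrank_toSubmodule, ← hδ]
      refine Submodule.finrank_mono ?_
      rintro _ ⟨f, -, rfl⟩
      exact ⟨f, rfl⟩
  exact ⟨h5 ▸ finrank_pos, fun j => h5 ▸ fix_sub A ⟨X j, aeval_X _ _⟩⟩

lemma exists_fix [Algebra.IsAlgebraic F k] (ξ : Fin r → k) :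
    ∃ δ, 0 < δ ∧ ∀ i, ξ i ^ Fintype.card F ^ δ = ξ i := by
  have := Algebra.finite_adjoin_of_finite_of_isIntegral (R := F) (Set.finite_range ξ)
    fun x _ => Algebra.IsIntegral.isIntegral x
  exact ⟨_, finrank_pos, fun i =>
    fix_sub (Algebra.adjoin F (Set.range ξ)) (Algebra.subset_adjoin ⟨i, rfl⟩)⟩

lemma exists_big (C c M a₁ : ℕ) : ∃ b, a₁ ≤ b ∧ C * (b + c) ^ M < 2 ^ b := by
  have h := (tendsto_pow_const_div_const_pow_of_one_lt M (one_lt_two (α := ℝ))).comp
    (Filter.tendsto_add_atTop_nat c)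
  have h0 : (0 : ℝ) < 1 / ((C + 1) * 2 ^ c) := by positivity
  obtain ⟨b, hb, hb'⟩ := ((h.eventually (gt_mem_nhds h0)).and (Filter.eventually_ge_atTop a₁)).exists
  refine ⟨b, hb', ?_⟩
  simp only [Function.comp] at hb
  rw [div_lt_div_iff₀ (by positivity) (by positivity), one_mul, pow_add, ← mul_assoc] at hb
  have h1 := lt_of_mul_lt_mul_right hb (by positivity)
  have h2 : (C : ℝ) * ((b + c : ℕ) : ℝ) ^ M < 2 ^ b := by
    refine lt_of_le_of_lt ?_ h1
    rw [mul_comm]
    gcongr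
    linarith
  exact_mod_cast h2

lemma geo (m : ℕ → ℕ) (E r₀ b : ℕ) (h : ∀ δ, m δ * 2 ^ δ ≤ E) :
    (∑ δ ∈ Finset.Ico (r₀ + 1) b, m δ) * 2 ^ r₀ ≤ E := by
  have h1 : ∀ δ, (m δ : ℝ) ≤ E * (1 / 2) ^ δ := fun δ => by
    rw [one_div, inv_pow, ← div_eq_mul_inv, le_div_iff₀ (by positivity)]
    exact_mod_cast h δ
  have h2 := geom_sum_Ico_le_of_lt_one (x := (1 / 2 : ℝ)) (m := r₀ + 1) (n := b) (by norm_num)
    (by norm_num)
  have h3 : ((∑ δ ∈ Finset.Ico (r₀ + 1) b, m δ : ℕ) : ℝ) * 2 ^ r₀ ≤ E := by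
    push_cast
    calc _ ≤ (E * ((1 / 2) ^ (r₀ + 1) / (1 - 1 / 2))) * (2 : ℝ) ^ r₀ := by
          gcongr
          refine (Finset.sum_le_sum fun δ _ => h1 δ).trans ?_
          rw [← Finset.mul_sum]
          gcongr
      _ = E := by
          rw [one_div, inv_pow, pow_succ]
          field_simp
          norm_num
  exact_mod_cast h3

end Sv

open Sv

variable {k : Type} [Field k]

theorem med_of (p : ℕ) [Fact p.Prime] [CharP k p] (h : CountStmt k) : MedStmt k p := by
  classical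
  intro F _ _ _ r e J _ π hπ hd
  obtain ⟨M, hM⟩ : ∃ M, Fintype.card J = M + 1 :=
    Nat.exists_eq_succ_of_ne_zero fun h0 => by simp [h0] at hd
  obtain ⟨D, hD⟩ := h _ π M hπ (by
    rw [hM, Nat.cast_succ, ← Cardinal.succ_natCast, Order.lt_succ_iff] at hd
    exact hd)
  refine ⟨D + 1, fun δ G P Y hG hY => ?_⟩
  let _ : Fintype G := Fintype.ofFinite G
  rcases Nat.eq_zero_or_pos δ with rfl | hδ
  · refine le_trans ?_ (Nat.le_mul_of_pos_left _ D.succ_pos)
    rw [pow_zero, mul_one, Nat.card_eq_fintype_card, ← Fintype.card_fun]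
    exact Y.card_le_univ
  choose! ξ h1 h2 h3 using hY
  have hq : 1 < Fintype.card F := Fintype.one_lt_card
  have hf := FiniteField.X_pow_card_pow_sub_X_ne_zero k hδ.ne' hq
  let κ := (Polynomial.X ^ Fintype.card F ^ δ - Polynomial.X : Polynomial k).roots.toFinset
  have hκ : ∀ x : k, x ^ Fintype.card F ^ δ = x → x ∈ κ := fun x hx => by
    rw [Multiset.mem_toFinset, Polynomial.mem_roots hf]
    simp [hx]
  have hc : κ.card ≤ Fintype.card F ^ δ :=
    (Multiset.toFinset_card_le _).trans ((Polynomial.card_roots' _).trans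
      (FiniteField.X_pow_card_pow_sub_X_natDegree_eq k hδ.ne' hq).le)
  let w : (J → G) → Fin r ⊕ J → k := fun g =>
    Sum.elim (ξ g) fun j => aeval (ξ g) (P j + (g j).1) ^ p ^ e
  have h4 : (Y.image w).card ≤ D * (Fintype.card F ^ δ) ^ M := by
    refine (hD κ _ ⟨0, hκ 0 (zero_pow (by positivity))⟩ fun x hx => ?_).trans (by gcongr)
    obtain ⟨g, hg, rfl⟩ := Finset.mem_image.mp hx
    refine ⟨fun i => hκ _ ?_, h3 g hg⟩
    rcases i with i | j
    · exact h2 g hg i
    · show (_ ^ p ^ e) ^ _ = _ ^ p ^ e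
      rw [← pow_mul, mul_comm, pow_mul, fix_aeval (h2 g hg)]
  have h5 : Y.card ≤ (Nat.card G / Fintype.card F ^ δ) ^ (M + 1) * (Y.image w).card := by
    refine Finset.card_le_mul_card_image Y _ fun x hx => ?_
    obtain ⟨g, hg, rfl⟩ := Finset.mem_image.mp hx
    have h6 := card_ker G (ξ g)
    rw [h1 g hg] at h6
    rw [← h6, Nat.mul_div_cancel _ (by positivity), ← hM, ← Finset.card_univ, ← Finset.prod_const,
      ← Fintype.card_piFinset]
    refine Finset.card_le_card_of_injOn (fun g' => g' - g) (fun g' hg' => ?_)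
      fun a _ b _ hab => sub_left_injective hab
    obtain ⟨-, hw⟩ := Finset.mem_filter.mp hg'
    have e1 : ξ g' = ξ g := funext fun i => congrFun hw (Sum.inl i)
    refine Fintype.mem_piFinset.mpr fun j => Finset.mem_filter.mpr ⟨Finset.mem_univ _, ?_⟩
    have e2 : aeval (ξ g') (P j + (g' j).1) ^ p ^ e = aeval (ξ g) (P j + (g j).1) ^ p ^ e :=
      congrFun hw (Sum.inr j)
    rw [e1] at e2
    have e3 := iterateFrobenius_inj k p e e2
    rw [map_add, map_add, add_right_inj] at e3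
    show aeval (ξ g) ((g' j).1 - (g j).1) = 0
    rw [map_sub, e3, sub_self]
  calc _ ≤ (Nat.card G / Fintype.card F ^ δ) ^ (M + 1) * (D * (Fintype.card F ^ δ) ^ M) *
        Fintype.card F ^ δ := by gcongr; exact h5.trans (by gcongr)
    _ = D * (Nat.card G / Fintype.card F ^ δ * Fintype.card F ^ δ) ^ (M + 1) := by ring
    _ ≤ _ := by
      rw [hM]
      gcongr
      · exact D.le_succ
      · exact Nat.div_mul_le_self _ _

theorem sieve_of (p : ℕ) (h1 : InterpStmt k p) (h2 : HighStmt k p) (h3 : MedStmt k p) :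
    SieveStmt k p := by
  classical
  intro F _ _ _ _ r e J _ Bad Fine ξ₀ ⟨s, hs, hZ⟩ hFB h0 hrat
  choose! C hC using fun π (h : π ∈ s) => h2 F r e J π (hs π h).1 (hs π h).2
  choose! D hD using fun π (h : π ∈ s) => h3 F r e J π (hs π h).1 (hs π h).2
  obtain ⟨δ₀, hδ₀, hξ₀⟩ := exists_fix (F := F) ξ₀
  have hq : 2 ≤ Fintype.card F := Fintype.one_lt_card
  set r₀ := 2 * ∑ π ∈ s, D π with hr₀
  set R := r₀.factorial * δ₀ with hR
  obtain ⟨a₁, ha₁⟩ := h1 F r e R J Fine (Nat.mul_pos r₀.factorial_pos hδ₀) hrat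
  obtain ⟨b, hb, hbig⟩ := exists_big (2 * ∑ π ∈ s, C π) (Fintype.card F ^ R + 1 + 1)
    (Fintype.card J) a₁
  set a := b + (Fintype.card F ^ R + 1) with ha
  obtain ⟨P, hP, hF⟩ := ha₁ a (hb.trans (Nat.le_add_right _ _))
  let G := Gs k F r R a
  have := fd_Gs (k := k) (F := F) (r := r) R a
  have hG : Finite G := Module.finite_of_finite F
  let _ : Fintype G := Fintype.ofFinite G
  have hsm : ∀ (g : J → G) ξ, Nrm ξ → (∀ i, ξ i ^ Fintype.card F ^ R = ξ i) →
      Fine ξ fun j => aeval ξ (P j + (g j).1) ^ p ^ e := fun g ξ hn hξ => by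
    simpa only [map_add, (mem_Gs.mp (g _).2).2 ξ hξ, add_zero] using hF ξ hn hξ
  suffices ∃ g : J → G, ∀ ξ, Nrm ξ → ¬ Bad ξ fun j => aeval ξ (P j + (g j).1) ^ p ^ e by
    obtain ⟨g, hg⟩ := this
    exact ⟨a, fun j => P j + g j, fun j => (hP j).add (mem_Gs.mp (g j).2).1, hg,
      hsm g ξ₀ h0 fun i => fix_dvd (hξ₀ i) (dvd_mul_left _ _)⟩
  by_contra! hn
  let Yh : Ideal (MvPolynomial (Fin r ⊕ J) k) → Finset (J → G) := fun π =>
    Finset.univ.filter fun g => ∃ ξ : Fin r → k, b + 1 ≤ finrank F (G.map (aeval ξ).toLinearMap) ∧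
      On (Sum.elim ξ fun j => aeval ξ (P j + (g j).1) ^ p ^ e) π
  let Ym : ℕ → Ideal (MvPolynomial (Fin r ⊕ J) k) → Finset (J → G) := fun δ π =>
    Finset.univ.filter fun g => ∃ ξ : Fin r → k, finrank F (G.map (aeval ξ).toLinearMap) = δ ∧
      (∀ i, ξ i ^ Fintype.card F ^ δ = ξ i) ∧
      On (Sum.elim ξ fun j => aeval ξ (P j + (g j).1) ^ p ^ e) π
  have cover : (Finset.univ : Finset (J → G)) ⊆
      s.biUnion Yh ∪ (Finset.Ico (r₀ + 1) (b + 1)).biUnion fun δ => s.biUnion (Ym δ) := by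
    intro g _
    obtain ⟨ξ, hξ, hB⟩ := hn g
    obtain ⟨π, hπ, hO⟩ := hZ _ _ ⟨hξ, hB⟩
    rw [Finset.mem_union]
    rcases lt_or_ge b (finrank F (G.map (aeval ξ).toLinearMap)) with hl | hl
    · exact Or.inl (Finset.mem_biUnion.mpr
        ⟨π, hπ, Finset.mem_filter.mpr ⟨Finset.mem_univ _, ξ, hl, hO⟩⟩)
    · have hns : ¬ ∀ i, ξ i ^ Fintype.card F ^ R = ξ i := fun h => hFB _ _ (hsm g ξ hξ h) hB
      obtain ⟨e1, e2⟩ := medium hξ hns rfl hl
      refine Or.inr (Finset.mem_biUnion.mpr ⟨_, Finset.mem_Ico.mpr ⟨?_, Nat.lt_succ_of_le hl⟩,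
        Finset.mem_biUnion.mpr ⟨π, hπ, Finset.mem_filter.mpr ⟨Finset.mem_univ _, ξ, rfl, e2, hO⟩⟩⟩)
      by_contra hlt
      exact hns fun i => fix_dvd (e2 i)
        ((Nat.dvd_factorial e1 (Nat.le_of_lt_succ (not_le.mp hlt))).mul_right _)
  set N := Nat.card G ^ Fintype.card J with hN
  have hN0 : 0 < N := pow_pos Nat.card_pos _
  have c1 : N ≤ ∑ π ∈ s, (Yh π).card +
      ∑ δ ∈ Finset.Ico (r₀ + 1) (b + 1), ∑ π ∈ s, (Ym δ π).card := by
    have := Finset.card_le_card cover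
    rw [Finset.card_univ, Fintype.card_fun, ← Nat.card_eq_fintype_card] at this
    exact this.trans ((Finset.card_union_le _ _).trans (add_le_add Finset.card_biUnion_le
      (Finset.card_biUnion_le.trans (Finset.sum_le_sum fun δ _ => Finset.card_biUnion_le))))
  have c2 : (∑ π ∈ s, (Yh π).card) * 2 ^ b ≤ (∑ π ∈ s, C π) * (a + 1) ^ Fintype.card J * N := by
    rw [Finset.sum_mul, Finset.sum_mul, Finset.sum_mul]
    refine Finset.sum_le_sum fun π hπ => le_trans ?_ (hC π hπ a (b + 1) G P (Yh π) hG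
      (fun g hg => (mem_Gs.mp hg).1.totalDegree_le) (fun j => (hP j).totalDegree_le)
      fun g hg => (Finset.mem_filter.mp hg).2)
    exact Nat.mul_le_mul_left _ ((Nat.pow_le_pow_left hq b).trans
      (Nat.pow_le_pow_right (by omega) b.le_succ))
  have c3 := geo (fun δ => ∑ π ∈ s, (Ym δ π).card) ((∑ π ∈ s, D π) * N) r₀ (b + 1) fun δ => by
    rw [Finset.sum_mul, Finset.sum_mul]
    exact Finset.sum_le_sum fun π hπ => (Nat.mul_le_mul_left _ (Nat.pow_le_pow_left hq δ)).trans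
      (hD π hπ δ G P (Ym δ π) hG fun g hg => (Finset.mem_filter.mp hg).2)
  have c4 : 2 * ∑ π ∈ s, (Yh π).card < N := by
    refine lt_of_mul_lt_mul_right (a := 2 ^ b) ?_ (by positivity)
    calc _ ≤ (2 * ∑ π ∈ s, C π) * (a + 1) ^ Fintype.card J * N := by linarith
      _ < 2 ^ b * N := Nat.mul_lt_mul_of_pos_right hbig hN0
      _ = _ := mul_comm _ _
  have c5 : 2 * ∑ δ ∈ Finset.Ico (r₀ + 1) (b + 1), ∑ π ∈ s, (Ym δ π).card < N := by
    refine lt_of_mul_lt_mul_right (a := 2 ^ r₀) ?_ (by positivity)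
    calc _ ≤ r₀ * N := by rw [hr₀]; linarith
      _ < 2 ^ r₀ * N := Nat.mul_lt_mul_of_pos_right Nat.lt_two_pow_self hN0
      _ = _ := mul_comm _ _
  omega

end Pool.Agent.MP_19ffc6_ag.Res.PF
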