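import Mathlib
import Pool.Agent.MP_19ffc6_ag.Res.FSpec
import Pool.Agent.MP_19ffc6_ag.Res.Core
import Pool.Agent.MP_19ffc6_ag.Res.Gen
import Pool.Agent.MP_19ffc6_ag.Res.Bpf
import Pool.Agent.MP_19ffc6_ag.Res.LocX
import Pool.Agent.MP_19ffc6_ag.Res.LocP
import Pool.Agent.MP_19ffc6_ag.Res.LocB

/-! PROJECT RES, stage F, module THIN: the set of bad pairs of a point and a tuple is small. -/

namespace Pool.Agent.MP_19ffc6_ag.Res.PF

namespace Th

open MvPolynomial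

section Small

open Algebra Codim

variable {k : Type} [Field k] {B B' : Type} [CommRing B] [Algebra k B] [CommRing B'] [Algebra k B']
  {N : ℕ} {Z Z' : (B →ₐ[k] k) → Prop}

/-- A set of rational points of dimension less than `N`. -/
def Sml (N : ℕ) (Z : (B →ₐ[k] k) → Prop) : Prop :=
  ∃ s : Set (Ideal B), s.Finite ∧ (∀ p ∈ s, p.IsPrime ∧ trdeg k (B ⧸ p) < N) ∧
    ∀ z, Z z → ∃ p ∈ s, ∀ f ∈ p, z f = 0

theorem Sml.mono (h : Sml N Z) (H : ∀ z, Z' z → Z z) : Sml N Z' :=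
  let ⟨s, h1, h2, h3⟩ := h
  ⟨s, h1, h2, fun z hz => h3 z (H z hz)⟩

theorem Sml.biUnion {ι : Type} {S : Set ι} (hS : S.Finite) {R : ι → (B →ₐ[k] k) → Prop}
    (h : ∀ i ∈ S, Sml N (R i)) : Sml N fun z => ∃ i ∈ S, R i z := by
  choose! s h1 h2 h3 using h
  refine ⟨⋃ i ∈ S, s i, hS.biUnion h1, fun p hp => ?_, fun z ⟨i, hi, hz⟩ => ?_⟩
  · obtain ⟨i, hi, hp⟩ := Set.mem_iUnion₂.1 hp
    exact h2 i hi p hp
  · obtain ⟨p, hp, h⟩ := h3 i hi z hz
    exact ⟨p, Set.mem_biUnion hi hp, h⟩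

theorem Sml.or (h : Sml N Z) (h' : Sml N Z') : Sml N fun z => Z z ∨ Z' z :=
  let ⟨s, h1, h2, h3⟩ := h
  let ⟨s', h4, h5, h6⟩ := h'
  ⟨s ∪ s', h1.union h4, fun p hp => hp.elim (h2 p) (h5 p), fun z hz => hz.elim
    (fun h => (h3 z h).imp fun _ h => ⟨.inl h.1, h.2⟩)
    fun h => (h6 z h).imp fun _ h => ⟨.inr h.1, h.2⟩⟩

theorem Sml.comap (h : Sml N Z) (θ : B' →ₐ[k] B) :
    Sml N fun z' : B' →ₐ[k] k => ∃ z, Z z ∧ z' = z.comp θ := by
  obtain ⟨s, h1, h2, h3⟩ := h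
  refine ⟨(fun p => p.comap θ) '' s, h1.image _, ?_, ?_⟩
  · rintro _ ⟨p, hp, rfl⟩
    have := (h2 p hp).1
    exact ⟨Ideal.comap_isPrime θ p, (trdeg_le_of_injective (Ideal.quotientMapₐ p θ le_rfl)
      Ideal.quotientMap_injective).trans_lt (h2 p hp).2⟩
  · rintro _ ⟨z, hz, rfl⟩
    obtain ⟨p, hp, h⟩ := h3 z hz
    exact ⟨_, ⟨p, hp, rfl⟩, fun f hf => h _ hf⟩

variable {R Ω : Type} [CommRing R] [Algebra k R] [Field Ω] [Algebra k Ω] {μ : Type} [Fintype μ]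

lemma exists_transc {κ ν σ : Type} [Fintype κ] [Fintype ν]
    (v : Module.Basis (ν ⊕ κ) k (μ → k)) (φ : R →ₐ[k] Ω) (lam : μ → Ω) (y : σ → Ω) {N : ℕ}
    (hind : AlgebraicIndependent k y) (hy : ∀ i, ∃ P, aevalTower φ lam P = y i)
    (hN : trdeg k φ.range ≤ N) (hlt : (N + Fintype.card κ : ℕ) < Cardinal.mk σ) :
    ∃ i, Transcendental (adjoin k (Set.range φ ∪ Set.range fun j => cf v lam (.inr j)))
      (cf v lam (.inl i)) := by
  by_contra H
  simp only [Transcendental, not_exists, not_not] at H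
  set S := Set.range φ ∪ Set.range fun j => cf v lam (.inr j)
  let M := AlgebraicIndependent.matroid k Ω
  have hS : ∀ z ∈ S, IsAlgebraic (adjoin k S) z := fun z hz =>
    isAlgebraic_algebraMap (⟨z, subset_adjoin hz⟩ : adjoin k S)
  have h1 : Set.range y ⊆ M.closure S := by
    rw [AlgebraicIndependent.matroid_closure_eq]
    rintro _ ⟨i, rfl⟩
    obtain ⟨P, hP⟩ := hy i
    rw [← hP]
    change _ ∈ (Subalgebra.algebraicClosure (adjoin k S) Ω).restrictScalars k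
    clear hP
    induction P using MvPolynomial.induction_on with
    | C r => rw [aevalTower_C]; exact hS _ (Or.inl ⟨_, rfl⟩)
    | add p q hp hq => rw [map_add]; exact add_mem hp hq
    | mul_X p i hp =>
      rw [map_mul, aevalTower_X, ← sum_cf v lam i]
      refine mul_mem hp (sum_mem fun l _ => Subalgebra.smul_mem _ ?_ _)
      rcases l with l | l
      exacts [H l, hS _ (Or.inr ⟨_, rfl⟩)]
  have h2 := Matroid.Indep.cardinalMk_le_cRk_of_subset (M := M) hind.to_subtype_range h1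
  have h3 : M.cRk (Set.range φ) ≤ N := by
    refine Matroid.cRk_le_iff.2 fun I hI => le_trans ?_ hN
    exact AlgebraicIndependent.cardinalMk_le_trdeg (x := fun z : I => (⟨z, hI.subset z.2⟩ : φ.range))
      (AlgebraicIndependent.of_comp φ.range.val hI.indep)
  have h4 : M.cRk (Set.range fun j => cf v lam (.inr j)) ≤ Fintype.card κ :=
    (M.cRk_le_cardinalMk _).trans (Cardinal.mk_range_le.trans_eq (Cardinal.mk_fintype κ))
  rw [Matroid.cRk_closure, Cardinal.mk_range_eq _ hind.injective] at h2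
  have h5 := (h2.trans (le_add_self.trans (M.cRk_inter_add_cRk_union_le _ _))).trans
    (add_le_add h3 h4)
  exact absurd (h5.trans_eq (Nat.cast_add _ _).symm) hlt.not_ge

/-- The codimension lemma. -/
theorem codim [IsAlgClosed k] [FiniteType k R] (s : R) (n N M : ℕ)
    (hM : N + Fintype.card μ ≤ M + n)
    (Z : (R →ₐ[k] k) → (μ → k) → Prop) (hs : ∀ x l, Z x l → x s ≠ 0)
    (hcone : ∀ x l (t : k), t ≠ 0 → Z x l → Z x (t • l))
    (hcl : ∀ x l, x s ≠ 0 → ¬ Z x l → ∃ P : MvPolynomial μ R, aevalTower x l P ≠ 0 ∧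
      ∀ x' l', Z x' l' → aevalTower x' l' P = 0)
    (hdim : ∀ p : Ideal R, p.IsPrime → (∀ r, (∀ x l, Z x l → x r = 0) → r ∈ p) →
      trdeg k (R ⧸ p) ≤ N)
    (hτ : ∀ x : R →ₐ[k] k, x s ≠ 0 → ∃ τ : (Fin (n + 1) → k) →ₗ[k] (μ → k),
      ∀ a, a ≠ 0 → ¬ Z x (τ a)) :
    Sml M fun z : MvPolynomial μ R →ₐ[k] k => ∃ x l, Z x l ∧ z = aevalTower x l := by
  let I : Ideal (MvPolynomial μ R) :=
    { carrier := {P | ∀ x l, Z x l → aevalTower x l P = 0}
      add_mem' := fun h1 h2 x l h => by rw [map_add, h1 x l h, h2 x l h, add_zero]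
      zero_mem' := fun x l _ => map_zero _
      smul_mem' := fun c P h1 x l h => by rw [smul_eq_mul, map_mul, h1 x l h, mul_zero] }
  have : IsNoetherianRing R := FiniteType.isNoetherianRing k R
  refine ⟨{q | q ∈ I.minimalPrimes ∧ C s ∉ q},
    (Ideal.finite_minimalPrimes_of_isNoetherianRing _ I).subset fun _ h => h.1, ?_, ?_⟩
  swap
  · rintro _ ⟨x, l, hZ, rfl⟩
    have := RingHom.ker_isPrime (aevalTower x l : MvPolynomial μ R →ₐ[k] k)
    obtain ⟨q, hq, h⟩ := Ideal.exists_minimalPrimes_le (I := I)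
      (J := RingHom.ker (aevalTower x l : MvPolynomial μ R →ₐ[k] k)) fun P hP => hP x l hZ
    exact ⟨q, ⟨hq, fun h1 => hs x l hZ ((aevalTower_C x l s).symm.trans (h h1))⟩, h⟩
  rintro q ⟨⟨⟨hq, hIq⟩, -⟩, hs'⟩
  refine ⟨hq, lt_of_not_ge fun hge => ?_⟩
  let Ω := FractionRing (MvPolynomial μ R ⧸ q)
  let ι := IsScalarTower.toAlgHom k (MvPolynomial μ R ⧸ q) Ω
  have hι : Function.Injective ι := IsFractionRing.injective (MvPolynomial μ R ⧸ q) Ω
  let χ : MvPolynomial μ R →ₐ[k] Ω := ι.comp (Ideal.Quotient.mkₐ k q)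
  have hχ : ∀ P, χ P = 0 ↔ P ∈ q := fun P =>
    (map_eq_zero_iff _ hι).trans Ideal.Quotient.eq_zero_iff_mem
  let φ : R →ₐ[k] Ω := χ.comp (IsScalarTower.toAlgHom k R _)
  have hsq : s ∉ RingHom.ker φ := fun h => hs' ((hχ _).1 h)
  have hp : (RingHom.ker φ).IsPrime := RingHom.ker_isPrime _
  have hN : trdeg k φ.range ≤ N := by
    rw [← (Ideal.quotientKerEquivRange φ).trdeg_eq]
    exact hdim _ hp fun r hr => (hχ (C r)).2 (hIq fun x l h => by simpa using hr x l h)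
  obtain ⟨x, hxs, hx⟩ := exists_pt_ne (k := k) (RingHom.ker φ) hsq
  obtain ⟨τ, hτ⟩ := hτ x hxs
  have hsc := scale Z hcone χ fun P hP => (hχ P).2 (hIq hP)
  have hinj : Function.Injective τ := by
    rw [injective_iff_map_eq_zero]
    intro a ha
    by_contra h0
    obtain ⟨P, hP, hPZ⟩ := hcl x _ hxs (hτ a h0)
    have h1 := hsc P hPZ 0
    have h2 : ∀ {E : Type} [CommRing E] [Algebra k E] (f : R →ₐ[k] E),
        aevalTower f (fun _ : μ => 0) P = f (constantCoeff P) := fun f =>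
      RingHom.congr_fun (f := (aevalTower f (fun _ : μ => 0) : MvPolynomial μ R →+* _))
        (g := f.toRingHom.comp constantCoeff)
        (MvPolynomial.ringHom_ext (fun r => by simp) (fun j => by simp)) P
    simp only [zero_mul] at h1
    rw [h2] at h1
    rw [ha] at hP
    exact hP ((h2 x).trans (hx _ h1))
  obtain ⟨m, v, hm, hv⟩ := exists_basis τ hinj
  obtain ⟨b, hb⟩ := exists_isTranscendenceBasis k (MvPolynomial μ R ⧸ q)
  have e : aevalTower φ (fun i => χ (X i)) = χ :=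
    tower_ext (fun r => aevalTower_C _ _ _) fun i => aevalTower_X _ _ _
  obtain ⟨i0, hi0⟩ := exists_transc v φ (fun i => χ (X i)) _ (hb.1.map' hι)
    (fun i => let ⟨P, hP⟩ := Ideal.Quotient.mk_surjective i.1; ⟨P, by rw [e]; exact congrArg ι hP⟩)
    hN (by
      rw [hb.cardinalMk_eq_trdeg]
      exact lt_of_lt_of_le (Nat.cast_lt.2 (by simp; omega)) hge)
  obtain ⟨a, ha, h⟩ := core v φ _ x hx i0 hi0
  obtain ⟨P, hP, hPZ⟩ := hcl x _ hxs (hτ a ha)
  exact hP (hv a ▸ h P (hsc P hPZ))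

end Small

open Pool.Agent.MP_19ffc6_ag.Res.PA Submodule Core

variable {k K : Type} [Field k] [Field K] [Algebra k K] {m : ℕ} {U T : Submodule k K}

section

variable {J : Type} [Fintype J] {P Q : (J → k) → Submodule k K → Prop}

variable (U) in
/-- `P` holds off a small set of pairs of a tuple and a point. -/
def GT (P : (J → k) → Submodule k K → Prop) : Prop :=
  Sml (Fintype.card J) fun z : MvPolynomial J (AU U) →ₐ[k] k =>
    ∃ x l, z = aevalTower x l ∧ Pnt U (Tp x) ∧ ¬ P l (Tp x)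

theorem GT.mono (h : GT U P) (H : ∀ l T, Pnt U T → P l T → Q l T) : GT U Q :=
  Sml.mono h fun _ ⟨x, l, e, h1, h2⟩ => ⟨x, l, e, h1, fun h3 => h2 (H _ _ h1 h3)⟩

theorem GT.and (h : GT U P) (h' : GT U Q) : GT U fun l T => P l T ∧ Q l T :=
  (Sml.or h h').mono fun _ ⟨x, l, e, h1, h2⟩ => (not_and_or.1 h2).imp
    (fun h => ⟨x, l, e, h1, h⟩) fun h => ⟨x, l, e, h1, h⟩

theorem GT.all {ι : Type} {s : Set ι} (hs : s.Finite) {R : ι → (J → k) → Submodule k K → Prop}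
    (h : ∀ i ∈ s, GT U (R i)) : GT U fun l T => ∀ i ∈ s, R i l T :=
  (Sml.biUnion hs h).mono fun _ ⟨x, l, e, h1, h2⟩ => by
    push Not at h2
    obtain ⟨i, hi, h2⟩ := h2
    exact ⟨i, hi, x, l, e, h1, h2⟩

theorem GT.fin {ι : Type} [Finite ι] {R : ι → (J → k) → Submodule k K → Prop}
    (h : ∀ i, GT U (R i)) : GT U fun l T => ∀ i, R i l T :=
  (GT.all Set.finite_univ fun i _ => h i).mono fun _ _ _ hl i => hl i trivial

end

/-- An open condition on points and tuples that holds on a large linear family over every point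
holds everywhere for a general tuple. -/
theorem gen_of [IsAlgClosed k] {t : Fin (m + 1) → K} {d : Fin (m + 1) → Derivation k K K}
    (hF : Fr t d) (hU : U.FG) (h1 : (1 : K) ∈ U) {I : Type} [Fintype I] {u : I → K} (hu : ∀ r, u r ∈ AU U)
    (i₀ : Fin (m + 2)) (h : AU U) (PP : Submodule k K → (Fin (m + 2) → K) → Prop)
    (hcone : ∀ (x : AU U →ₐ[k] k) (S : K) (s : Fin (m + 1) → K) (c : k), c ≠ 0 →
      PP (Tp x) (Fin.insertNth i₀ S (c • s)) → PP (Tp x) (Fin.insertNth i₀ S s))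
    (hopen : ∀ (x₀ : AU U →ₐ[k] k) (l₀ : Fin (m + 2) × I → k), (h : K) ∉ nn (Tp x₀) →
      tup u l₀ i₀ ∉ nn (Tp x₀) → PP (Tp x₀) (tup u l₀) →
      ∃ f : MvPolynomial (Fin (m + 2) × I) (AU U), aevalTower x₀ l₀ f ≠ 0 ∧
        ∀ x l, aevalTower x l f ≠ 0 → PP (Tp x) (tup u l))
    (hτ : ∀ x : AU U →ₐ[k] k, (h : K) ∉ nn (Tp x) → ∀ S ∈ span k (Set.range u), S ∉ nn (Tp x) →
      ∃ τ : (Fin (m + 2) → k) →ₗ[k] (Fin (m + 1) → K), (∀ a i, τ a i ∈ span k (Set.range u)) ∧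
        ∀ a ≠ 0, PP (Tp x) (Fin.insertNth i₀ S (τ a))) :
    GT U fun (l : Fin (m + 2) × I → k) T => (h : K) ∉ nn T → tup u l i₀ ∉ nn T →
      PP T (tup u l) := by
  have := finiteType_AU hU
  let j : AU U →ₐ[k] MvPolynomial I (AU U) := IsScalarTower.toAlgHom k _ _
  let S : MvPolynomial I (AU U) := ∑ r, X r * C ⟨u r, hu r⟩
  let a : (I → k) → AU U := fun η => ∑ r, η r • ⟨u r, hu r⟩
  have ha : ∀ η, (a η : K) = ∑ r, η r • u r := fun η => by simp [a]
  have hS : ∀ y : MvPolynomial I (AU U) →ₐ[k] k, y (j h * S) ≠ 0 ↔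
      (h : K) ∉ nn (Tp (y.comp j)) ∧ ∑ r, y (X r) • u r ∉ nn (Tp (y.comp j)) := fun y => by
    rw [← ha, mem_nn_Tp h1, mem_nn_Tp h1, map_mul, mul_ne_zero_iff]
    have e : y S = (y.comp j) (a fun r => y (X r)) := by
      simp only [a, S, map_sum, map_mul, map_smul, smul_eq_mul]; rfl
    rw [e]; rfl
  let θ : MvPolynomial (Fin (m + 2) × I) (AU U) →ₐ[k]
      MvPolynomial (Fin (m + 1) × I) (MvPolynomial I (AU U)) :=
    aevalTower ((IsScalarTower.toAlgHom k _ _).comp j) (ins i₀ (fun r => C (X r)) X)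
  have hθ : ∀ (y : MvPolynomial I (AU U) →ₐ[k] k) (lam : Fin (m + 1) × I → k) f,
      aevalTower y lam (θ f) = aevalTower (y.comp j) (ins i₀ (fun r => y (X r)) lam) f := by
    intro y lam f
    refine AlgHom.congr_fun (Codim.tower_ext (f := (aevalTower y lam).comp θ) (fun r => ?_)
      fun p => ?_) f
    · simp [θ, j]
    · rw [AlgHom.comp_apply, aevalTower_X, aevalTower_X]
      exact congrFun (ins_ext i₀ (f := fun p => aevalTower y lam (ins i₀ (fun r => C (X r)) X p))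
        (fun r => by simp [ins_self]) fun i r => by simp [ins_succ]) p
  refine ((codim (k := k) (μ := Fin (m + 1) × I) (j h * S) (m + 1) (m + 1 + Fintype.card I) _
    (by simp only [Fintype.card_prod, Fintype.card_fin]; exact le_of_eq (by ring))
    (fun y lam => y (j h * S) ≠ 0 ∧ ¬ PP (Tp (y.comp j)) (tup u (ins i₀ (fun r => y (X r)) lam)))
    (fun _ _ hZ => hZ.1)
    (fun y lam c hc hZ => ⟨hZ.1, fun hP => hZ.2 (by
      rw [tup_ins] at hP ⊢
      refine hcone _ _ _ c hc ?_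
      have e : (c • fun i => ∑ r, lam (i, r) • u r) = fun i => ∑ r, (c • lam) (i, r) • u r :=
        funext fun i => by simp [Finset.smul_sum, smul_smul]
      rwa [e])⟩)
    (fun y lam hy hZ => by
      obtain ⟨f, hf, hf'⟩ := hopen _ (ins i₀ (fun r => y (X r)) lam) ((hS y).1 hy).1
        (by rw [tup_ins, Fin.insertNth_apply_same]; exact ((hS y).1 hy).2)
        (not_not.1 fun hP => hZ ⟨hy, hP⟩)
      refine ⟨θ f, by rwa [hθ], fun y' lam' hZ' => ?_⟩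
      rw [hθ]
      exact not_not.1 fun h0 => hZ'.2 (hf' _ _ h0))
    (fun p _ _ => trdeg_quot (trdeg_AU hF U) I p)
    (fun y hy => by
      obtain ⟨τ, hτ1, hτ2⟩ := hτ _ ((hS y).1 hy).1 _
        (sum_mem fun r _ => smul_mem _ _ (subset_span ⟨r, rfl⟩)) ((hS y).1 hy).2
      obtain ⟨τ', e⟩ := exists_lift u τ hτ1
      refine ⟨τ', fun a ha hZ => hZ.2 ?_⟩
      rw [tup_ins, funext (e a)]
      exact hτ2 a ha)).comap θ).mono ?_
  rintro _ ⟨x, l, rfl, -, hP⟩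
  rw [Classical.not_imp, Classical.not_imp] at hP
  let y : MvPolynomial I (AU U) →ₐ[k] k := aevalTower x fun r => l (i₀, r)
  have hy : y.comp j = x := aevalTower_comp_toAlgHom _ _
  have hyX : (fun r => y (X r)) = fun r => l (i₀, r) := funext fun r => aevalTower_X _ _ _
  have hl' : ins i₀ (fun r => y (X r)) (fun p => l (i₀.succAbove p.1, p.2)) = l :=
    ins_ext i₀ (fun r => (ins_self _ _ _ _).trans (congrFun hyX r)) fun i r => ins_succ _ _ _ _ _
  refine ⟨_, ⟨y, fun p => l (i₀.succAbove p.1, p.2), ⟨(hS y).2 (by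
    rw [hy]; simp only [congrFun hyX]; exact ⟨hP.1, hP.2.1⟩), by rw [hy, hl']; exact hP.2.2⟩, rfl⟩,
    AlgHom.ext fun f => ?_⟩
  rw [AlgHom.comp_apply, hθ, hy, hl']

section chart

variable [IsAlgClosed k] {t : Fin (m + 1) → K} {d : Fin (m + 1) → Derivation k K K} {I : Type}
  [Fintype I] {u : I → K} {μ : ℕ} {M₀ : Submodule k K}

open Codim in
theorem core (i₀ : Fin (m + 2)) (e C : ℕ) (ν : Fin e → Fin (m + 1)) (Ξ : Type)
    (X P₁ Q : Ξ → Submodule k K) (hF : Fr t d) (hU : U.FG) (h1 : (1 : K) ∈ U)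
    (hu : span k (Set.range u) = U ^ (m + 2)) (hX : ∀ x, (X x).FG)
    (hW : ∀ x, WW d (alg U) * P₁ x ≤ alg U * X x) (hP : ∀ x, alg U * P₁ x ≤ P₁ x)
    (hQ : ∀ x, alg U * Q x ≤ Q x)
    (hτ : ∀ T, Pnt U T → ∀ S₀ ∈ U ^ (m + 2), S₀ ∉ nn T →
      ∃ τ : (Fin (m + 2) → k) →ₗ[k] (Fin (m + 1) → K), Fm T τ ∧ ∀ a ≠ 0, ∃ x,
        Ld C T (fun i => τ a (ν i)) (alg U * X x)
          (pr k (Wr d (Fin.insertNth i₀ S₀ (τ a))) * P₁ x ⊔ Q x)) :
    GT U fun (l : Fin (m + 2) × I → k) T => tup u l i₀ ∉ nn T → ∀ c : Fin e → k,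
      (∀ i, tup u l (i₀.succAbove (ν i)) - c i • tup u l i₀ ∈ nn T) → ∃ x,
        Ld C T (fun i => tup u l (i₀.succAbove (ν i)) - c i • tup u l i₀) (alg U * X x)
          (pr k (Wr d (tup u l)) * P₁ x ⊔ Q x) := by
  have hu' : ∀ r, u r ∈ AU U := fun r => pow_le_alg U _ (hu.le (subset_span ⟨r, rfl⟩))
  refine GT.mono (gen_of hF hU h1 hu' i₀ 1 (fun T s => ∀ c : Fin e → k,
      (∀ i, s (i₀.succAbove (ν i)) - c i • s i₀ ∈ nn T) → ∃ x,
        Ld C T (fun i => s (i₀.succAbove (ν i)) - c i • s i₀) (alg U * X x)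
          (pr k (Wr d s) * P₁ x ⊔ Q x)) (fun x S s c hc h c' hc' => ?_)
    (fun x₀ l₀ _ hs h => ?_) fun x _ S hS hS' => ?_) fun l T hT h => h hT.2
  · simp only [Fin.insertNth_apply_same, Fin.insertNth_apply_succAbove] at h hc' ⊢
    have e : ∀ i, (c • s) (ν i) - (c * c' i) • S = c • (s (ν i) - c' i • S) := fun i => by
      simp [smul_sub, smul_smul]
    obtain ⟨ξ, hξ⟩ := h (fun i => c * c' i) fun i => e i ▸ smul_mem _ _ (hc' i)
    simp only [e] at hξ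
    rw [ld_smul hc, wr_smul d i₀ S s hc] at hξ
    exact ⟨ξ, hξ⟩
  · let j : AU U →ₐ[k] MvPolynomial (Fin (m + 2) × I) (AU U) := IsScalarTower.toAlgHom k _ _
    let g : Fin e → (MvPolynomial (Fin (m + 2) × I) (AU U) →ₐ[k] k) → K := fun i z =>
      z (vB hu' i₀) • sF U u (i₀.succAbove (ν i)) z - z (vB hu' (i₀.succAbove (ν i))) • sF U u i₀ z
    have hg : ∀ (x : AU U →ₐ[k] k) l (c : Fin e → k),
        (∀ i, tup u l (i₀.succAbove (ν i)) - c i • tup u l i₀ ∈ nn (Tp x)) →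
        (fun i => g i (aevalTower x l)) = fun i => aevalTower x l (vB hu' i₀) •
          (tup u l (i₀.succAbove (ν i)) - c i • tup u l i₀) := fun x l c hc => funext fun i => by
      have h2 := (mem_nn_Tp h1 x (⟨_, tup_mem (N := alg U) hu' l (i₀.succAbove (ν i))⟩ -
        c i • ⟨_, tup_mem (N := alg U) hu' l i₀⟩)).1 (hc i)
      rw [map_sub, map_smul, sub_eq_zero, smul_eq_mul] at h2
      simp only [g, sF_tower, vB_tower, h2, smul_sub, smul_smul, mul_comm]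
    have h0 : aevalTower x₀ l₀ (vB hu' i₀) ≠ 0 := fun h0 =>
      hs ((mem_nn_Tp h1 x₀ ⟨_, _⟩).2 ((vB_tower hu' x₀ l₀ i₀).symm.trans h0))
    let c₀ : Fin e → k := fun i =>
      aevalTower x₀ l₀ (vB hu' (i₀.succAbove (ν i))) / aevalTower x₀ l₀ (vB hu' i₀)
    have hc₀ : ∀ i, tup u l₀ (i₀.succAbove (ν i)) - c₀ i • tup u l₀ i₀ ∈ nn (Tp x₀) := fun i =>
      (mem_nn_Tp h1 x₀ (⟨_, tup_mem (N := alg U) hu' l₀ (i₀.succAbove (ν i))⟩ -
        c₀ i • ⟨_, tup_mem (N := alg U) hu' l₀ i₀⟩)).2 (by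
          rw [map_sub, map_smul, ← vB_tower hu', ← vB_tower hu', smul_eq_mul,
            div_mul_cancel₀ _ h0, sub_self])
    obtain ⟨ξ, hξ⟩ := h c₀ hc₀
    obtain ⟨f, hf, hf'⟩ := ld_open (C := C) hU h1 j (hX ξ) g (fun z => Wr d fun i => sF U u i z)
      (fun i => sub_mem (smul_fam (sF_mem hu' _) _) (smul_fam (sF_mem hu' _) _)) (wF_mem hu' d)
      (hW ξ) (hP ξ) (hQ ξ) (aevalTower x₀ l₀) (by
        rw [hg x₀ l₀ c₀ hc₀, ld_smul h0, aevalTower_comp_toAlgHom]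
        simpa only [sF_tower] using hξ)
    refine ⟨f * vB hu' i₀, by rw [map_mul]; exact mul_ne_zero hf h0, fun x l hz c hc => ⟨ξ, ?_⟩⟩
    rw [map_mul, mul_ne_zero_iff] at hz
    have := hf' _ hz.1
    rw [hg x l c hc, ld_smul hz.2, aevalTower_comp_toAlgHom] at this
    simpa only [sF_tower] using this
  · obtain ⟨τ, hτ1, hτ2⟩ := hτ _ (pnt_Tp h1 x) S (hu.le hS) hS'
    refine ⟨τ, fun a i => ?_, fun a ha c hc => ?_⟩
    · rw [hu, sup_Tp h1 x]; exact (hτ1 a i).1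
    · simp only [Fin.insertNth_apply_same, Fin.insertNth_apply_succAbove] at hc ⊢
      have h2 : ∀ i, c i = 0 := fun i => not_not.1 fun h0 => hS'
        ((smul_mem_iff _ h0).1 ((sub_mem_iff_right _ (hτ1 a _).2).1 (hc i)))
      simpa only [h2, zero_smul, sub_zero] using hτ2 a ha

theorem bpf (h : K) (n : ℕ) (ν : Fin (n + 1) → Fin (m + 2)) (hν : Function.Injective ν)
    (hU : U.FG) (h1 : (1 : K) ∈ U) (hu : span k (Set.range u) = U ^ (m + 2)) (hh : h ∈ alg U)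
    (hdim : ∀ p : Ideal (AU U), p.IsPrime → ⟨h, hh⟩ ∈ p → Algebra.trdeg k (AU U ⧸ p) ≤ n) :
    GT U fun (l : Fin (m + 2) × I → k) T => h ∈ nn T → ∃ j, tup u l (ν j) ∉ nn T := by
  classical
  have := finiteType_AU hU
  have hm : ∀ i, u i ∈ AU U := fun i =>
    pow_le_alg U (m + 2) (hu ▸ subset_span ⟨i, rfl⟩)
  let u' : I → AU U := fun i => ⟨u i, hm i⟩
  have h2 : (1 : K) ∈ span k (Set.range u) := by
    rw [hu, ← one_pow (m + 2)]
    exact pow_mem_pow U h1 _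
  obtain ⟨c, hc⟩ := (mem_span_range_iff_exists_fun k).1 h2
  have hc' : ∑ i, c i • u' i = 1 := Subtype.ext (by simpa [u'] using hc)
  refine (codim (k := k) (μ := Fin (m + 2) × I) 1 n n _ (add_comm _ _).le
    (fun x l => x ⟨h, hh⟩ = 0 ∧ ∀ j, ∑ i, l (ν j, i) * x (u' i) = 0)
    (fun x _ _ => by simp) (fun x l t _ hZ => ⟨hZ.1, fun j => by
      simp only [Pi.smul_apply, smul_eq_mul, mul_assoc, ← Finset.mul_sum, hZ.2 j, mul_zero]⟩)
    (fun x l _ hZ => by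
      by_cases hx : x ⟨h, hh⟩ = 0
      · obtain ⟨j, hj⟩ := not_forall.1 fun z => hZ ⟨hx, z⟩
        exact ⟨∑ i, X (ν j, i) * C (u' i), by simpa using hj,
          fun x' l' z => by simpa using z.2 j⟩
      · exact ⟨C ⟨h, hh⟩, by simpa using hx, fun x' l' z => by simpa using z.1⟩)
    (fun p hp hr => hdim p hp (hr _ fun x l z => z.1))
    (fun x _ => ⟨LinearMap.pi fun q : Fin (m + 2) × I =>
        c q.2 • ∑ j, if ν j = q.1 then LinearMap.proj j else 0, fun a ha hZ => ha (funext fun j => by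
      have h3 := hZ.2 j
      have h4 : ∑ i, c i * x (u' i) = 1 := by simpa using congrArg x hc'
      have h5 : ∀ i, (LinearMap.pi (fun q : Fin (m + 2) × I =>
          c q.2 • ∑ j, if ν j = q.1 then (LinearMap.proj j : (Fin (n + 1) → k) →ₗ[k] k) else 0) a)
          (ν j, i) = a j * c i := fun i => by
        simp [hν.eq_iff, mul_comm]
      simp only [h5, mul_assoc, ← Finset.mul_sum, h4, mul_one] at h3
      exact h3)⟩)).mono ?_
  rintro _ ⟨x, l, rfl, -, hP⟩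
  push Not at hP
  refine ⟨x, l, ⟨(mem_nn_Tp h1 x ⟨h, hh⟩).1 hP.1, fun j => ?_⟩, rfl⟩
  simpa using (mem_nn_Tp h1 x (∑ i, l (ν j, i) • u' i)).1 (by simpa [u', tup] using hP.2 j)

theorem bpf_all (hF : Fr t d) (hU : U.FG) (h1 : (1 : K) ∈ U)
    (hu : span k (Set.range u) = U ^ (m + 2)) :
    GT U fun (l : Fin (m + 2) × I → k) T => ∃ j, tup u l j ∉ nn T :=
  (bpf 0 (m + 1) id Function.injective_id hU h1 hu (zero_mem _) fun p _ _ =>
    (trdeg_le_of_surjective (Ideal.Quotient.mkₐ k p) (Ideal.Quotient.mkₐ_surjective k p)).trans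
      (trdeg_AU hF U)).mono fun _ _ _ h => h (zero_mem _)

theorem bpf_hyp {h : K} (hF : Fr t d) (hU : U.FG) (h1 : (1 : K) ∈ U)
    (hu : span k (Set.range u) = U ^ (m + 2)) (hh : h ∈ alg U) (h0 : h ≠ 0) :
    GT U fun (l : Fin (m + 2) × I → k) T => h ∈ nn T →
      ∃ j : Fin (m + 1), tup u l j.castSucc ∉ nn T :=
  bpf h m Fin.castSucc (Fin.castSucc_injective _) hU h1 hu hh
    fun p _ hp => Bpf.trdeg_quot m (trdeg_AU hF U) p hp fun z => h0 (congrArg Subtype.val z)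

omit [IsAlgClosed k] in
theorem cb_iff (h : Pnt U T) (d : Fin (m + 1) → Derivation k K K) (W : K) :
    CB d T W ↔ ∃ MM : Submodule k K, MM.FG ∧ MM ≠ ⊥ ∧ alg U * (MM * JJ d U) ≤
      (⨆ _ : Unit, pr k W * (alg U * MM)) ⊔ T ^ 1 * (alg U * (MM * JJ d U)) ⊔ ⊥ := by
  simp only [CB, Mb, pnt_alg h, pnt_JJ h, pow_zero, pow_one, mul_one, iSup_const, sup_bot_eq]

omit [IsAlgClosed k] in
theorem le_pow_succ (h1 : (1 : K) ∈ U) (j : ℕ) : U ≤ U ^ (j + 1) := by
  induction j with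
  | zero => rw [zero_add, pow_one]
  | succ j ih => rw [pow_succ]; exact fun a ha => mul_one a ▸ mul_mem_mul (ih ha) h1

theorem base (hF : Fr t d) (hU : U.FG) (h1 : (1 : K) ∈ U) (hJ : JJ d U ≠ ⊥)
    (hu : span k (Set.range u) = U ^ (m + 2)) :
    GT U fun (l : Fin (m + 2) × I → k) T =>
      (∀ i : Fin (m + 1), tup u l i.castSucc ∈ nn T) → CB d T (Wr d (tup u l)) := by
  have hu' : ∀ r, u r ∈ AU U := fun r => pow_le_alg U _ (hu.le (subset_span ⟨r, rfl⟩))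
  obtain ⟨h, hh, h0, hl⟩ := locB t d U hF hU hJ
  refine GT.mono (GT.and (gen_of hF hU h1 hu' (Fin.last _) ⟨h, hh⟩
    (fun T s => (∀ i : Fin (m + 1), s i.castSucc ∈ nn T) → CB d T (Wr d s))
    (fun x S s c hc H hs => ?_) (fun x₀ l₀ _ _ H => ?_) fun x hx S hS hS' => ?_)
    ((bpf_all hF hU h1 hu).and (bpf_hyp hF hU h1 hu hh h0)))
    fun l T hT H hs => H.1 (fun h2 => ?_) (fun h2 => ?_) hs
  · have H' := H fun i => by
      have := hs i
      rw [Fin.insertNth_last', Fin.snoc_castSucc] at this ⊢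
      exact smul_mem _ c this
    simpa only [CB, wr_smul d _ S s hc] using H'
  · by_cases hs : ∀ i : Fin (m + 1), tup u l₀ i.castSucc ∈ nn (Tp x₀)
    · obtain ⟨MM, hM, hM0, hM1⟩ := (cb_iff (pnt_Tp h1 x₀) d _).1 (H hs)
      obtain ⟨f, hf, hf'⟩ := closed' hU h1 (IsScalarTower.toAlgHom k (AU U)
        (MvPolynomial (Fin (m + 2) × I) (AU U))) (hM.mul (JJ_fg (d := d) hU)) 1 (Γ := Unit)
        (fun _ z => Wr d fun i => sF U u i z) (fun _ => WW d (alg U)) (fun _ => alg U * MM)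
        (fun _ => wF_mem hu' d) (fun _ => by
          refine (mul_le_mul_left (WW_le_mul.trans (mul_le_mul_right (JJ_adjoin U) _)) _).trans ?_
          change alg U * (alg U * JJ d U) * (alg U * MM) ≤ _
          rw [← mul_assoc (alg U), mul_mul_mul_comm, mul_comm MM]
          exact mul_le_mul_left ((mul_le_mul_left (alg_mul_alg U) _).trans (alg_mul_alg U)) _)
        (fun _ => by rw [← mul_assoc]; exact mul_le_mul_left (alg_mul_alg U) _) ⊥
        (aevalTower x₀ l₀) (by simpa only [sF_tower, aevalTower_comp_toAlgHom] using hM1)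
      refine ⟨f, hf, fun x l hz _ => (cb_iff (pnt_Tp h1 x) d _).2 ⟨MM, hM, hM0, ?_⟩⟩
      simpa only [sF_tower, aevalTower_comp_toAlgHom] using hf' _ hz
    · obtain ⟨i, hi⟩ := not_forall.1 hs
      refine ⟨vB hu' i.castSucc, fun e => hi ((mem_nn_Tp h1 x₀ ⟨_, _⟩).2
        ((vB_tower hu' x₀ l₀ _).symm.trans e)), fun x l hz hs' => absurd ?_ hz⟩
      rw [vB_tower]
      exact (mem_nn_Tp h1 x ⟨_, _⟩).1 (hs' i)
  · have hT := pnt_Tp h1 x
    obtain ⟨l, hl1, hl2⟩ := hl _ hT hx S ((pnt_alg hT).ge (pow_le_alg U _ (hu.le hS))) hS'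
    refine ⟨LinearMap.pi fun i => (LinearMap.proj i.succ).smulRight (1 : K) +
      (LinearMap.proj 0).smulRight (l i), fun a i => ?_, fun a ha hs => ?_⟩
    · rw [hu]
      exact le_pow_succ h1 _ (add_mem (smul_mem _ _ h1) (smul_mem _ _ (pnt_le hT (hl1 i))))
    · have h2 : ∀ i : Fin (m + 1), a i.succ = 0 := fun i => not_not.1 fun h3 => by
        have h4 := hs i
        rw [Fin.insertNth_last', Fin.snoc_castSucc] at h4
        have h5 : a 0 • l i ∈ nn (Tp x) :=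
          smul_mem _ _ (mul_one (l i) ▸ mul_mem_mul (hl1 i) (Num.one_mem_alg _))
        exact hT.2 ((smul_mem_iff _ h3).1 ((add_mem_cancel_right h5).1 h4))
      have h3 : a 0 ≠ 0 := fun h3 => ha (funext fun i => Fin.cases h3 h2 i)
      have h4 := hl2 _ h3
      rw [Fin.insertNth_last']
      have e : (LinearMap.pi fun i => (LinearMap.proj i.succ).smulRight (1 : K) +
          (LinearMap.proj 0).smulRight (l i) : (Fin (m + 2) → k) →ₗ[k] _) a =
          fun i => a 0 • l i := funext fun i => by simp [h2]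
      rwa [e]
  · obtain ⟨j, hj⟩ := H.2.2 h2
    exact hj (hs j)
  · obtain ⟨j, hj⟩ := H.2.1
    exact hj (Fin.lastCases h2 hs j)

open GenM hiding le_alg alg_mul_alg pow_le_alg cx_gen cw_gen cp_gen at_gen

theorem cx_gen (hF : Fr t d) (hU : U.FG) (h0 : (1 : K) ∈ U)
    (hu : span k (Set.range u) = U ^ (m + 2)) (hM : M₀.FG)
    (hg : ∀ T, Pnt U T → GoodX d μ T) (i₀ : Fin (m + 2)) :
    GT U fun (l : Fin (m + 2) × I → k) T => ∀ c : Fin (m + 1) → k,
      tup u l i₀ ∉ nn T → (∀ i, tup u l (i₀.succAbove i) - c i • tup u l i₀ ∈ nn T) →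
      CX d (cst m μ) T M₀ fun i => tup u l (i₀.succAbove i) - c i • tup u l i₀ := by
  refine GT.mono (core i₀ (m + 1) (cst m μ) id
    {x : Submodule k K × ℕ // x.1.FG ∧ M₀ ≤ x.1} (fun x => x.1.1 * JJ d U ^ x.1.2)
    (fun _ => ⊥) (fun _ => ⊥) hF hU h0 hu (fun x => x.2.1.mul ((JJ_fg hU).pow _))
    (fun _ => by simp) (fun _ => by simp) (fun _ => by simp) fun T hT S₀ _ _ => ?_)
    fun l T hT hl c h1 h2 => ?_
  · obtain ⟨τ, h1, h2⟩ := locX d μ T M₀ (fg_pnt hT hU) hM (hg T hT)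
    refine ⟨τ, h1, fun a ha => ?_⟩
    obtain ⟨MM, b, h3, h4, h5⟩ := h2 a ha
    refine ⟨⟨(MM, b), h3, h4⟩, ?_⟩
    rw [Mb, alg_pnt hT, JJ_pnt hT] at h5
    simpa using h5
  · obtain ⟨⟨⟨MM, b⟩, h3, h4⟩, h5⟩ := hl h1 c h2
    refine ⟨MM, b, h3, h4, ?_⟩
    rw [Mb, alg_pnt hT, JJ_pnt hT]
    simpa using h5

theorem cw_gen (hF : Fr t d) (hU : U.FG) (h0 : (1 : K) ∈ U)
    (hu : span k (Set.range u) = U ^ (m + 2)) {w : DV k K} (hw : U ≤ w.fil 0)
    (hg : ∀ T, Pnt U T → Gr m μ T (alg T) (w.fil 1)) (i₀ : Fin (m + 1)) :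
    GT U fun (l : Fin (m + 2) × I → k) T => ∀ c : Fin m → k,
      tup u l i₀.castSucc ∉ nn T →
      (∀ i, tup u l (i₀.succAbove i).castSucc - c i • tup u l i₀.castSucc ∈ nn T) →
      Ld (cst m μ) T (fun i => tup u l (i₀.succAbove i).castSucc - c i • tup u l i₀.castSucc)
        (alg T) (w.fil 1) := by
  refine GT.mono (core i₀.castSucc m (cst m μ) Fin.castSucc Unit (fun _ => 1)
    (fun _ => ⊥) (fun _ => w.fil 1) hF hU h0 hu (fun _ => pr_one (k := k) (K := K) ▸ fg_span_singleton _)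
    (fun _ => by simp) (fun _ => by simp) (fun _ => alg_mul_fil hw) fun T hT S₀ _ _ => ?_)
    fun l T hT hl c h1 h2 => ?_
  · obtain ⟨τ, h1, h2⟩ := locW μ T w (fg_pnt hT hU) ((le_pnt hT).trans hw) (hg T hT)
    refine ⟨τ, h1, fun a ha => ⟨(), ?_⟩⟩
    have h5 := h2 a ha
    rw [alg_pnt hT] at h5
    simpa using h5
  · simp only [Fin.castSucc_succAbove_castSucc] at hl
    obtain ⟨-, h5⟩ := hl h1 c h2
    rw [alg_pnt hT]
    simpa using h5

theorem cp_gen (hm : 0 < m) (hk : Big k (m + 2))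
    (hF : Fr t d) (hU : U.FG) (h0 : (1 : K) ∈ U) (hu : span k (Set.range u) = U ^ (m + 2))
    (hg : ∀ T, Pnt U T → GoodX d μ T) (i₀ : Fin (m + 1)) :
    GT U fun (l : Fin (m + 2) × I → k) T => ∀ c : Fin m → k,
      tup u l i₀.castSucc ∉ nn T →
      (∀ i, tup u l (i₀.succAbove i).castSucc - c i • tup u l i₀.castSucc ∈ nn T) →
      CP d (cst m μ) T (fun i => tup u l (i₀.succAbove i).castSucc - c i • tup u l i₀.castSucc)
        (Wr d (tup u l)) := by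
  refine GT.mono (core i₀.castSucc m (cst m μ) Fin.castSucc
    {x : Submodule k K × ℕ // x.1.FG ∧ x.1 ≠ ⊥} (fun x => x.1.1 * JJ d U ^ (x.1.2 + 1))
    (fun x => alg U * (x.1.1 * JJ d U ^ x.1.2)) (fun _ => ⊥) hF hU h0 hu
    (fun x => x.2.1.mul ((JJ_fg hU).pow _)) (fun x => ?_) (fun x => ?_) (fun _ => by simp)
    fun T hT S₀ hS hS' => ?_) fun l T hT hl c h1 h2 => ?_
  · have h1 : WW d (alg U) ≤ alg U * JJ d U :=
      WW_le_mul.trans ((mul_le_mul_right (JJ_adjoin U) _).trans (by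
        rw [← mul_assoc]; exact mul_le_mul_left (alg_mul_alg U) _))
    calc _ ≤ alg U * JJ d U * (alg U * (x.1.1 * JJ d U ^ x.1.2)) := mul_le_mul_left h1 _
      _ = alg U * alg U * (x.1.1 * JJ d U ^ (x.1.2 + 1)) := by ring
      _ ≤ _ := mul_le_mul_left (alg_mul_alg U) _
  · rw [← mul_assoc]; exact mul_le_mul_left (alg_mul_alg U) _
  · obtain ⟨τ, h1, h2⟩ := locP hm hk d μ T S₀ (fg_pnt hT hU) (hg T hT)
      (alg_pnt hT ▸ pow_le_alg U _ hS) hS'
    refine ⟨τ, h1, fun a ha => ?_⟩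
    obtain ⟨MM, b, h3, h4, h5⟩ := h2 a ha
    refine ⟨⟨(MM, b), h3, h4⟩, ?_⟩
    rw [Mb, Mb, alg_pnt hT, JJ_pnt hT] at h5
    rw [pr_wr, sup_bot_eq]
    exact h5
  · simp only [Fin.castSucc_succAbove_castSucc] at hl
    obtain ⟨⟨⟨MM, b⟩, h3, h4⟩, h5⟩ := hl h1 c h2
    refine ⟨MM, b, h3, h4, ?_⟩
    rw [Mb, Mb, alg_pnt hT, JJ_pnt hT]
    rw [sup_bot_eq] at h5
    exact h5

/-- A general tuple is good at all points of one chart. -/
theorem at_gen (hUn : UniStmt k K m)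
    (hk : Big k (m + 2)) (hF : Fr t d) (hU : U.FG) (h0 : (1 : K) ∈ U) (hJ : JJ d U ≠ ⊥)
    (hu : span k (Set.range u) = U ^ (m + 2)) (hM : M₀.FG) {D : Set (DV k K)} (hD : D.Finite)
    (hw : ∀ w ∈ D, U ≤ w.fil 0)
    (hg : ∀ T, Pnt U T → GoodX d μ T ∧ ∀ w ∈ D, Gr m μ T (alg T) (w.fil 1)) :
    GT U fun (l : Fin (m + 2) × I → k) T => At d (cst m μ) D M₀ T (tup u l) := by
  have g1 := bpf_all hF hU h0 hu
  have g2 := GT.fin (cx_gen hF hU h0 hu hM fun T hT => (hg T hT).1)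
  have g3 := GT.all hD fun w hwD =>
    GT.fin (cw_gen hF hU h0 hu (hw w hwD) fun T hT => (hg T hT).2 w hwD)
  have g4 := GT.fin fun hm : PLift (0 < m) =>
    GT.fin (cp_gen hm.down hk hF hU h0 hu fun T hT => (hg T hT).1)
  have g5 := base hF hU h0 hJ hu
  have g6 : GT U fun (l : Fin (m + 2) × I → k) T => ∀ w ∈ D,
      (∀ i : Fin (m + 1), tup u l i.castSucc ∈ nn T) → (1 : K) ∈ nn T ⊔ w.fil 1 := by
    refine GT.all hD fun w hwD => ?_
    obtain ⟨h, h1, h2, h3⟩ := exists_vanish hUn hF hJ (hw w hwD)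
    refine GT.mono (bpf_hyp hF hU h0 hu h1 h2) fun l T hT hl h4 => ?_
    refine one_mem_sup (alg_pnt hT ▸ h1) (fun h5 => ?_) h3
    obtain ⟨j, hj⟩ := hl h5
    exact hj (h4 j)
  refine GT.mono (GT.and (GT.and (GT.and g1 g2) (GT.and g3 g4)) (GT.and g5 g6)) ?_
  rintro l T hT ⟨⟨⟨a1, a2⟩, a3, a4⟩, a5, a6⟩
  exact ⟨a1, a2, fun i₀ c h1 h2 => ⟨fun w hwD => a3 w hwD i₀ c h1 h2,
    fun hm => a4 ⟨hm⟩ i₀ c h1 h2⟩, fun h => ⟨fun w hwD => a6 w hwD h, a5 h⟩⟩

end chart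

end Th

open Pool.Agent.MP_19ffc6_ag.Res.PA Submodule MvPolynomial Core Th in
/-- Module THIN. -/
theorem thin {k K : Type} [Field k] [Field K] [Algebra k K] [IsAlgClosed k] {m : ℕ}
    (uni : UniStmt k K m) : ThinStmt k K m := by
  intro hk t d μ U M₀ I₀ I _ _ e u D hF he hJ hu hM hD hw hg
  have hU : U.FG := he ▸ fg_span (Set.finite_range e)
  by_cases h1 : (1 : K) ∈ U
  swap
  · exact ⟨∅, by simp, fun ξ l ⟨T, hT, _⟩ => absurd (pnt_one hT) h1⟩
  have he' : ∀ i, e i ∈ AU U := fun i => le_alg U (he ▸ subset_span ⟨i, rfl⟩)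
  obtain ⟨s, a1, a2, a3⟩ := Sml.comap (at_gen uni hk hF hU h1 hJ hu hM hD hw hg)
    (aeval (Sum.elim (fun i => C ⟨e i, he' i⟩) X) :
      MvPolynomial (I₀ ⊕ Fin (m + 2) × I) k →ₐ[k] MvPolynomial (Fin (m + 2) × I) (AU U))
  refine ⟨a1.toFinset, fun p hp => a2 p (a1.mem_toFinset.1 hp), fun ξ l ⟨T, hT, h2, h3⟩ => ?_⟩
  obtain ⟨x, rfl⟩ := pnt_pt hT hU
  obtain ⟨p, hp, h⟩ := a3 (aeval (Sum.elim ξ l)) ⟨_, ⟨x, l, rfl, hT, h3⟩, by
    ext (i | i)
    · have := (mem_Np (a := (⟨e i, he' i⟩ : AU U) - algebraMap k _ (ξ i))).1 (h2 i).2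
      rw [map_sub, AlgHom.commutes, sub_eq_zero] at this
      simp [this]
    · simp⟩
  exact ⟨p, a1.mem_toFinset.2 hp, h⟩

end Pool.Agent.MP_19ffc6_ag.Res.PF
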