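import Mathlib
import Pool.Agent.MP_19ffc6_ag.Res.FGen
import Pool.Agent.MP_19ffc6_ag.Res.FCut2
import Pool.Agent.MP_19ffc6_ag.Res.FGame
import Pool.Agent.MP_19ffc6_ag.Res.FHigh
import Pool.Agent.MP_19ffc6_ag.Res.FInterp
import Pool.Agent.MP_19ffc6_ag.Res.FSieve
import Pool.Agent.MP_19ffc6_ag.Res.FCone
import Pool.Agent.MP_19ffc6_ag.Res.FFil
import Pool.Agent.MP_19ffc6_ag.Res.FLin
import Pool.Agent.MP_19ffc6_ag.Res.FRat
import Pool.Agent.MP_19ffc6_ag.Res.FThin
import Pool.Agent.MP_19ffc6_ag.Res.FDet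
import Pool.Agent.MP_19ffc6_ag.Res.FChg
import Pool.Agent.MP_19ffc6_ag.Res.FFin
import Pool.Agent.MP_19ffc6_ag.Res.Low

/-! PROJECT RES, stage F: the tame projection theorem over a finite field. -/

namespace Pool.Agent.MP_19ffc6_ag.Res.PF

open Pool.Agent.MP_19ffc6_ag.Res.PA

variable {k K : Type} [Field k] [Field K] [Algebra k K] {m : ℕ} [IsAlgClosed k]

theorem tpF_of_rees (p : ℕ) [Fact p.Prime] [CharP k p] (h : ReesStmt k K) : TPFStmt k K m :=
  tpF_of (Fl.finX Low.low)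
    (genF_of p (sieve_of p (interp p) (high_of p cutS) (med_of p countS)) (game_of cutS)
      (rat_of cutS (game_of cutS) h (cone_of krull cutS) (lin_of null (numw_of fil)) (Fl.uni p))
      (thin (Fl.uni p)) det chg (Fl.uni p))
    (finN Low.low p)

end Pool.Agent.MP_19ffc6_ag.Res.PF
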