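import Pool.Agent.MP_19ffc6_ag.Res.PDefs
import Pool.Agent.MP_19ffc6_ag.Res.BSpec
import Pool.Agent.MP_19ffc6_ag.Res.TorS

/-! PROJECT RESP: transport along semilinear automorphisms, orbits and stable spaces. -/

namespace Pool.Agent.MP_19ffc6_ag.Res.P

open Pool.Agent.MP_19ffc6_ag.Wild Pool.Agent.MP_19ffc6_ag.Lci Pool.Agent.MP_19ffc6_ag.Res.Tor
open Pool.Agent.MP_19ffc6_ag.Res.B

variable {k L : Type} [Field k] [Field L] [Algebra k L] {g : SA k L} {x y : L}
  {O O' D : Subalgebra k L} {A B M : Submodule k L}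

section Sub

lemma sm_ne_zero : g • x ≠ 0 ↔ x ≠ 0 := smul_ne_zero_iff_ne g

lemma sm_zpow (g : SA k L) (x : L) (n : ℤ) : g • x ^ n = (g • x) ^ n := map_zpow₀ g.e x n

lemma sm_prod (g : SA k L) {ι : Type} (s : Finset ι) (f : ι → L) :
    g • ∏ i ∈ s, f i = ∏ i ∈ s, g • f i := map_prod g.e f s

lemma fa_smul (g : SA k L) {p : L → Prop} : (∀ x, p x) ↔ ∀ x, p (g • x) :=
  (MulAction.surjective g).forall

lemma sA_le : g • O ≤ g • O' ↔ O ≤ O' :=
  ⟨fun h _ hx => smul_mem_sA.1 (h (smul_mem_sA.2 hx)), fun h _ hx => h hx⟩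

lemma sM_le : g • A ≤ g • B ↔ A ≤ B :=
  ⟨fun h _ hx => smul_mem_sM.1 (h (smul_mem_sM.2 hx)), fun h _ hx => h hx⟩

lemma sM_le_iff : g • A ≤ B ↔ ∀ x ∈ A, g • x ∈ B :=
  ⟨fun h _ hx => h (smul_mem_sM.2 hx), fun h x hx => smul_inv_smul g x ▸ h _ hx⟩

lemma sA_le_iff : g • O ≤ O' ↔ ∀ x ∈ O, g • x ∈ O' :=
  ⟨fun h _ hx => h (smul_mem_sA.2 hx), fun h x hx => smul_inv_smul g x ▸ h _ hx⟩

lemma sM_eq_of {α : Type} [MulAction (SA k L) α] {F : α → Submodule k L}
    (h : ∀ (g : SA k L) a, g • F a ≤ F (g • a)) (g : SA k L) (a : α) : F (g • a) = g • F a :=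
  le_antisymm (fun _ hx => mem_sM.2 (by simpa using h g⁻¹ (g • a) (smul_mem_sM.2 hx))) (h g a)

lemma sA_eq_of {α : Type} [MulAction (SA k L) α] {F : α → Subalgebra k L}
    (h : ∀ (g : SA k L) a, g • F a ≤ F (g • a)) (g : SA k L) (a : α) : F (g • a) = g • F a :=
  le_antisymm (fun _ hx => mem_sA.2 (by simpa using h g⁻¹ (g • a) (smul_mem_sA.2 hx))) (h g a)

lemma un_smul : Un (g • O) (g • x) ↔ Un O x := by
  rw [Un, Un, ← smul_inv'', smul_mem_sA, smul_mem_sA, sm_ne_zero]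

lemma un_smul' : Un (g • O) x ↔ Un O (g⁻¹ • x) := by
  rw [← un_smul (g := g) (O := O), smul_inv_smul]

lemma lcl_smul : Lcl (g • O) ↔ Lcl O := by
  rw [Lcl, Lcl, fa_smul g]
  refine forall_congr' fun x => imp_congr smul_mem_sA ?_
  rw [fa_smul g]
  simp only [← smul_add, smul_mem_sA, un_smul]

lemma val_smul : Val (g • O) ↔ Val O := by
  rw [Val, Val, fa_smul g]
  simp only [← smul_inv'', smul_mem_sA]

lemma dom_smul : Dom (g • O) (g • O') ↔ Dom O O' := by
  refine and_congr sA_le ?_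
  rw [fa_smul g]
  simp only [smul_mem_sA, un_smul]

lemma rt_smul : Rt (g • O) ↔ Rt O := by
  rw [Rt, Rt, fa_smul g]
  refine forall_congr' fun x => imp_congr smul_mem_sA ?_
  rw [g.σ.surjective.exists]
  simp only [← SA.smul_alg, ← smul_sub, un_smul]

lemma loc_smul : loc (g • D) (g • O) = g • loc D O := by
  ext x
  constructor
  · rintro ⟨a, ha, b, hb, hu, rfl⟩
    exact ⟨_, ha, _, hb, un_smul'.1 hu, smul_div₀' _ _ _⟩
  · rintro ⟨a, ha, b, hb, hu, e⟩
    exact ⟨_, smul_mem_sA.2 ha, _, smul_mem_sA.2 hb, un_smul.2 hu, by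
      rw [← smul_div₀', ← e, smul_inv_smul]⟩

lemma isPoint_smul : IsPoint (g • D) (g • O) ↔ IsPoint D O :=
  ⟨fun h => ⟨sA_le.1 h.le, lcl_smul.1 h.lcl, sA_le.1 (loc_smul (g := g) ▸ h.le_loc)⟩,
    fun h => ⟨sA_le.2 h.le, lcl_smul.2 h.lcl, loc_smul (g := g) ▸ sA_le.2 h.le_loc⟩⟩

lemma sA_bot : g • (⊥ : Subalgebra k L) = ⊥ :=
  le_bot_iff.1 (sA_le_iff.2 fun _ ⟨c, hc⟩ => ⟨g.σ c, hc ▸ (g.map c).symm⟩)

lemma sA_top : g • (⊤ : Subalgebra k L) = ⊤ := eq_top_iff.2 fun _ _ => trivial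

lemma adjoin_smul (S : Set L) : Algebra.adjoin k ((g • ·) '' S) = g • Algebra.adjoin k S := by
  refine le_antisymm (Algebra.adjoin_le ?_) fun x hx => ?_
  · rintro _ ⟨x, hx, rfl⟩
    exact smul_mem_sA.2 (Algebra.subset_adjoin hx)
  · have : Algebra.adjoin k S ≤ g⁻¹ • Algebra.adjoin k ((g • ·) '' S) :=
      Algebra.adjoin_le fun y hy => by
        rw [SetLike.mem_coe, mem_sA, inv_inv]; exact Algebra.subset_adjoin ⟨y, hy, rfl⟩
    exact smul_mem_sA.1 (this hx)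

lemma span_smul (S : Set L) : Submodule.span k ((g • ·) '' S) = g • Submodule.span k S := by
  refine le_antisymm (Submodule.span_le.2 ?_) fun x hx => ?_
  · rintro _ ⟨x, hx, rfl⟩
    exact smul_mem_sM.2 (Submodule.subset_span hx)
  · have : Submodule.span k S ≤ g⁻¹ • Submodule.span k ((g • ·) '' S) :=
      Submodule.span_le.2 fun y hy => by
        rw [SetLike.mem_coe, mem_sM, inv_inv]; exact Submodule.subset_span ⟨y, hy, rfl⟩
    exact smul_mem_sM.1 (this hx)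

lemma pr_smul (x : L) : pr k (g • x) = g • pr k x := by
  rw [pr, pr, ← span_smul, Set.image_singleton]

lemma coe_sM : ((g • A : Submodule k L) : Set L) = (g • ·) '' A := by
  ext x
  exact ⟨fun h => ⟨_, h, smul_inv_smul g x⟩, fun ⟨_, h, e⟩ => e ▸ smul_mem_sM.2 h⟩

lemma coe_sA : ((g • O : Subalgebra k L) : Set L) = (g • ·) '' O := by
  ext x
  exact ⟨fun h => ⟨_, h, smul_inv_smul g x⟩, fun ⟨_, h, e⟩ => e ▸ smul_mem_sA.2 h⟩

lemma sA_sup : g • (O ⊔ O') = g • O ⊔ g • O' := by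
  rw [← Algebra.adjoin_eq O, ← Algebra.adjoin_eq O', ← Algebra.adjoin_union, ← adjoin_smul,
    ← adjoin_smul, ← adjoin_smul, Set.image_union, Algebra.adjoin_union]

lemma sM_sup : g • (A ⊔ B) = g • A ⊔ g • B := by
  rw [← Submodule.span_eq A, ← Submodule.span_eq B, ← Submodule.span_union, ← span_smul,
    ← span_smul, ← span_smul, Set.image_union, Submodule.span_union]

lemma sM_inf : g • (A ⊓ B) = g • A ⊓ g • B := rfl

lemma sM_bot : g • (⊥ : Submodule k L) = ⊥ :=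
  le_bot_iff.1 (sM_le_iff.2 fun x hx => by rw [(Submodule.mem_bot k).1 hx, smul_zero]; rfl)

lemma sM_eq_bot : g • A = ⊥ ↔ A = ⊥ := by
  rw [← sM_bot (g := g), smul_left_cancel_iff, sM_bot]

lemma sM_mul : g • (A * B) = g • A * g • B :=
  (sM_eq_of (F := fun p : Submodule k L × Submodule k L => p.1 * p.2) (fun g p =>
    sM_le_iff.2 fun _ hx => Submodule.mul_induction_on hx (fun a ha b hb => by
      rw [smul_mul']; exact Submodule.mul_mem_mul (smul_mem_sM.2 ha) (smul_mem_sM.2 hb))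
      fun a b ha hb => by rw [smul_add]; exact add_mem ha hb) g (A, B)).symm

lemma sM_one : g • (1 : Submodule k L) = 1 := by rw [← pr_one, ← pr_smul, smul_one]

lemma sM_pow (n : ℕ) : g • A ^ n = (g • A) ^ n := by
  induction n with
  | zero => rw [pow_zero, pow_zero, sM_one]
  | succ n ih => rw [pow_succ, pow_succ, sM_mul, ih]

lemma sM_prod {ι : Type} (s : Finset ι) (f : ι → Submodule k L) :
    g • ∏ i ∈ s, f i = ∏ i ∈ s, g • f i := by
  classical
  induction s using Finset.induction_on with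
  | empty => simpa using sM_one
  | insert i s hi ih => rw [Finset.prod_insert hi, Finset.prod_insert hi, sM_mul, ih]

lemma sM_iSup {ι : Sort*} (f : ι → Submodule k L) : g • ⨆ i, f i = ⨆ i, g • f i :=
  le_antisymm (by
    rw [← sM_le (g := g⁻¹), inv_smul_smul]
    exact iSup_le fun i => by rw [← sM_le (g := g), smul_inv_smul]; exact le_iSup (g • f ·) i)
    (iSup_le fun i => sM_le.2 (le_iSup f i))

lemma toSubmodule_smul : (g • O).toSubmodule = g • O.toSubmodule := rfl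

lemma sp_smul : sp (g • O) (g • A) = g • sp O A := by rw [sp, sp, sM_mul, toSubmodule_smul]

lemma chart_smul : chart (g • D) (g • M) (g • x) = g • chart D M x := by
  rw [chart, chart, ← adjoin_smul, Set.image_union, coe_sA]
  congr 2
  ext y
  constructor
  · rintro ⟨m, hm, rfl⟩
    exact ⟨_, ⟨_, hm, rfl⟩, by simp only [smul_div₀', smul_inv_smul]⟩
  · rintro ⟨_, ⟨m, hm, rfl⟩, rfl⟩
    exact ⟨_, smul_mem_sM.2 hm, smul_div₀' _ _ _⟩

lemma chart_bot_smul : chart ⊥ (g • M) (g • x) = g • chart ⊥ M x := by rw [← chart_smul, sA_bot]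

lemma pt_smul : Pt ⊥ (g • M) (g • O) ↔ Pt ⊥ M O := by
  rw [Pt, Pt, (MulAction.surjective g).exists]
  simp only [smul_mem_sM, sm_ne_zero, chart_bot_smul, isPoint_smul]

lemma fg_smul : (g • A).FG ↔ A.FG := by
  have h : ∀ (g : SA k L) (A : Submodule k L), A.FG → (g • A).FG := fun g A h => by
    obtain ⟨S, hS, rfl⟩ := Submodule.fg_def.1 h
    exact Submodule.fg_def.2 ⟨_, hS.image _, span_smul S⟩
  exact ⟨fun e => inv_smul_smul g A ▸ h _ _ e, h g A⟩

lemma fgA_smul : (g • O).FG ↔ O.FG := by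
  have h : ∀ (g : SA k L) (A : Subalgebra k L), A.FG → (g • A).FG := fun g A h => by
    obtain ⟨S, hS, rfl⟩ := Subalgebra.fg_def.1 h
    exact Subalgebra.fg_def.2 ⟨_, hS.image _, adjoin_smul S⟩
  exact ⟨fun e => inv_smul_smul g O ▸ h _ _ e, h g O⟩

lemma finrank_smul : Module.finrank k (g • A :) = Module.finrank k A := by
  refine congrArg Cardinal.toNat (rank_eq_of_equiv_equiv g.σ
    (⟨⟨fun x => ⟨g • x.1, smul_mem_sM.2 x.2⟩, fun x => ⟨g⁻¹ • x.1, x.2⟩,
      fun x => Subtype.ext (inv_smul_smul _ _), fun x => Subtype.ext (smul_inv_smul _ _)⟩,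
      fun x y => Subtype.ext (smul_add _ _ _)⟩ : A ≃+ (g • A :)) g.σ.bijective
    fun c x => Subtype.ext (SA.smul_smul' g c x)).symm

lemma mn_smul {ι : Type} [Fintype ι] (z : ι → L) (c : ι → ℤ) : mn (g • z) c = g • mn z c := by
  simp only [mn, sm_prod, sm_zpow, Pi.smul_apply]

lemma lmon_smul {ι : Type} [Fintype ι] {z : ι → L} : LMon (g • O) (g • z) (g • x) ↔ LMon O z x :=
  exists_congr fun c => by rw [mn_smul, ← smul_div₀', un_smul]

lemma ms_smul {r : ℕ} (z : Fin r → L) (T : Set (Fin r → ℤ)) : ms k (g • z) T = g • ms k z T := by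
  rw [ms, ms, ← span_smul, Set.image_image, funext (mn_smul z)]

lemma TA_smul {ι : Type} {r : ℕ} (z : Fin r → L) (τ : Typ ι r) :
    TA k (g • z) τ = g • TA k z τ := by
  rw [TA, TA, ← adjoin_smul, Set.image_image, funext (mn_smul z)]

/-- The isomorphism of a subalgebra with its image. -/
def sEq (g : SA k L) (O : Subalgebra k L) : O ≃+* (g • O :) where
  toFun x := ⟨g • x.1, smul_mem_sA.2 x.2⟩
  invFun x := ⟨g⁻¹ • x.1, x.2⟩
  left_inv _ := Subtype.ext (inv_smul_smul _ _)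
  right_inv _ := Subtype.ext (smul_inv_smul _ _)
  map_mul' _ _ := Subtype.ext (smul_mul' _ _ _)
  map_add' _ _ := Subtype.ext (smul_add _ _ _)

lemma mem_span_smul {S : Set L} :
    g • x ∈ Submodule.span (g • O :) ((g • ·) '' S) ↔ x ∈ Submodule.span O S := by
  have h : ∀ (g : SA k L) (O : Subalgebra k L) (S : Set L) (x : L), x ∈ Submodule.span O S →
      g • x ∈ Submodule.span (g • O :) ((g • ·) '' S) := fun g O S x hx => by
    induction hx using Submodule.span_induction with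
    | mem y hy => exact Submodule.subset_span ⟨y, hy, rfl⟩
    | zero => rw [smul_zero]; exact zero_mem _
    | add a b _ _ ha hb => rw [smul_add]; exact add_mem ha hb
    | smul c a _ ha =>
      change g • (c.1 * a) ∈ _
      rw [smul_mul']
      exact Submodule.smul_mem _ (sEq g O c) ha
  refine ⟨fun e => ?_, h g O S x⟩
  have := h g⁻¹ _ _ _ e
  rw [inv_smul_smul, Set.image_image] at this
  simp only [inv_smul_smul, Set.image_id'] at this
  exact this

lemma integral_smul : IsIntegral (g • O :) (g • x) ↔ IsIntegral O x :=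
  ⟨fun h => inv_smul_smul g x ▸
    h.map_of_comp_eq ((sEq g O).symm : (g • O :) →+* O) (g⁻¹.e : L →+* L) rfl,
   fun h => h.map_of_comp_eq (sEq g O : O →+* (g • O :)) (g.e : L →+* L) rfl⟩

lemma icl_smul {K : IntermediateField k L} (hK : ∀ x, g • x ∈ K ↔ x ∈ K) :
    icl K (g • O) = g • icl K O := by
  refine Subalgebra.ext ((fa_smul g).2 fun x => ?_)
  rw [smul_mem_sA, mem_icl, mem_icl, hK, integral_smul]

lemma sf_smul : SF (g • D) (g • O) ↔ SF D O := by
  have h : ∀ (g : SA k L) (D O : Subalgebra k L), SF D O → SF (g • D) (g • O) := by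
    rintro g D O ⟨h, h1, h2⟩
    have e : (Subalgebra.inclusion (sA_le (g := g).2 h)).toRingHom = ((sEq g O).toRingHom.comp
        (Subalgebra.inclusion h).toRingHom).comp (sEq g D).symm.toRingHom :=
      RingHom.ext fun x => Subtype.ext (smul_inv_smul _ _).symm
    refine ⟨sA_le.2 h, ?_, ?_⟩ <;> rw [e]
    · exact RingHom.FormallySmooth.respectsIso.2 _ _
        (RingHom.FormallySmooth.respectsIso.1 _ _ h1)
    · exact RingHom.Flat.respectsIso.2 _ _ (RingHom.Flat.respectsIso.1 _ _ h2)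
  exact ⟨fun e => by simpa using h g⁻¹ _ _ e, h g D O⟩

lemma aeval_smul {ι : Type} (z : ι → L) (P : MvPolynomial ι k) :
    MvPolynomial.aeval (g • z) (P.map (g.σ : k →+* k)) = g • MvPolynomial.aeval z P := by
  induction P using MvPolynomial.induction_on with
  | C c => simp [SA.smul_alg]
  | add p q hp hq => simp only [map_add, hp, hq, smul_add]
  | mul_X p i hp => simp [hp, smul_mul']

lemma ind_smul {ι : Type} {z : ι → L} :
    AlgebraicIndependent k (g • z) ↔ AlgebraicIndependent k z := by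
  have h : ∀ (g : SA k L) (z : ι → L), AlgebraicIndependent k (g • z) →
      AlgebraicIndependent k z := fun g z h => algebraicIndependent_iff.2 fun P hP =>
    MvPolynomial.map_injective _ g.σ.injective (by
      rw [map_zero]; exact algebraicIndependent_iff.1 h _ (by rw [aeval_smul, hP, smul_zero]))
  exact ⟨h g z, fun e => h g⁻¹ _ (by rwa [inv_smul_smul])⟩

end Sub

section Stb

variable {K₀ : Subfield L} {K : IntermediateField k L}

lemma field_smul {S : Set L} (h : ∀ y ∈ S, g • y ∈ K) (hx : x ∈ IntermediateField.adjoin k S) :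
    g • x ∈ K := by
  induction hx using IntermediateField.adjoin_induction with
  | mem y hy => exact h y hy
  | algebraMap c => rw [SA.smul_alg]; exact K.algebraMap_mem _
  | add a b _ _ ha hb => rw [smul_add]; exact add_mem ha hb
  | inv a _ ha => rw [smul_inv'']; exact inv_mem ha
  | mul a b _ _ ha hb => rw [smul_mul']; exact mul_mem ha hb

lemma Gl.mem (h : Gl K₀ K) (hx : x ∈ K₀) : x ∈ K := h.eq ▸ IntermediateField.subset_adjoin k _ hx

lemma Gl.smul_mem (h : Gl K₀ K) (hg : Fx K₀ g) (hx : x ∈ K) : g • x ∈ K :=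
  field_smul (fun y hy => (hg y hy).symm ▸ h.mem hy) (h.eq ▸ hx)

lemma Gl.smul_mem_iff (h : Gl K₀ K) (hg : Fx K₀ g) (x : L) : g • x ∈ K ↔ x ∈ K :=
  ⟨fun e => inv_smul_smul g x ▸ h.smul_mem hg.inv e, h.smul_mem hg⟩

lemma mdl_smul (hK : ∀ x, g • x ∈ K ↔ x ∈ K) (h : Mdl K M) : Mdl K (g • M) := by
  refine ⟨fg_smul.2 h.fg, fun e => h.ne (sM_eq_bot.1 e), (fa_smul g).2 fun m hm =>
    (hK m).2 (h.le m (smul_mem_sM.1 hm)), (fa_smul g).2 fun m hm h0 => (fa_smul g).2 fun x hx => ?_⟩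
  obtain ⟨b, hb, h1, h2⟩ := h.frac m (smul_mem_sM.1 hm) (sm_ne_zero.1 h0) x ((hK x).1 hx)
  rw [chart_bot_smul]
  exact ⟨_, smul_mem_sA.2 hb, sm_ne_zero.2 h1, smul_mul' g b x ▸ smul_mem_sA.2 h2⟩

lemma stb_iff : Stb K₀ M ↔ ∀ g : SA k L, Fx K₀ g → g • M = M :=
  ⟨fun h _ => h.eq, fun h g hg _ hx => h g hg ▸ smul_mem_sM.2 hx⟩

lemma Stb.mul (h : Stb K₀ A) (h' : Stb K₀ B) : Stb K₀ (A * B) :=
  stb_iff.2 fun _ hg => by rw [sM_mul, h.eq hg, h'.eq hg]

lemma Stb.sup (h : Stb K₀ A) (h' : Stb K₀ B) : Stb K₀ (A ⊔ B) :=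
  stb_iff.2 fun _ hg => by rw [sM_sup, h.eq hg, h'.eq hg]

lemma Stb.inf (h : Stb K₀ A) (h' : Stb K₀ B) : Stb K₀ (A ⊓ B) :=
  stb_iff.2 fun _ hg => by rw [sM_inf, h.eq hg, h'.eq hg]

lemma Stb.pow (h : Stb K₀ A) (n : ℕ) : Stb K₀ (A ^ n) :=
  stb_iff.2 fun _ hg => by rw [sM_pow, h.eq hg]

lemma Stb.one : Stb K₀ (1 : Submodule k L) := stb_iff.2 fun _ _ => sM_one

lemma Stb.bot : Stb K₀ (⊥ : Submodule k L) := stb_iff.2 fun _ _ => sM_bot

lemma Stb.span' {S : Set L} (h : ∀ g : SA k L, Fx K₀ g → ∀ x ∈ S, g • x ∈ Submodule.span k S) :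
    Stb K₀ (Submodule.span k S) := fun g hg => sM_le_iff.1 (by
  rw [← span_smul, Submodule.span_le]
  rintro _ ⟨x, hx, rfl⟩
  exact h g hg x hx)

lemma Stb.span {S : Set L} (h : ∀ x ∈ S, x ∈ K₀) : Stb K₀ (Submodule.span k S) :=
  .span' fun _ hg x hx => (hg x (h x hx)).symm ▸ Submodule.subset_span hx

lemma Stb.pt (h : Stb K₀ M) (hg : Fx K₀ g) : Pt ⊥ M (g • O) ↔ Pt ⊥ M O := by
  rw [← pt_smul (g := g) (O := O), h.eq hg]

lemma Cl.cls (K₀ : Subfield L) (K : IntermediateField k L) : Cls (Cl K₀ K) where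
  fg _ h := h.1
  bot := ⟨Submodule.fg_bot, .bot, fun _ hx => (Submodule.mem_bot k).1 hx ▸ zero_mem K⟩
  one := ⟨pr_one (k := k) (L := L) ▸ pr_fg 1, .one, fun _ hx =>
    let ⟨c, hc⟩ := Submodule.mem_one.1 hx; hc ▸ K.algebraMap_mem c⟩
  mul _ _ h h' := ⟨h.1.mul h'.1, h.2.1.mul h'.2.1, fun _ hx => Submodule.mul_induction_on hx
    (fun a ha b hb => mul_mem (h.2.2 a ha) (h'.2.2 b hb)) fun _ _ => add_mem⟩
  sup _ _ h h' := ⟨h.1.sup h'.1, h.2.1.sup h'.2.1, fun _ hx =>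
    let ⟨a, ha, b, hb, e⟩ := Submodule.mem_sup.1 hx; e ▸ add_mem (h.2.2 a ha) (h'.2.2 b hb)⟩

lemma Fx.aeval (hg : Fx K₀ g) (P : Polynomial K₀) (x : L) :
    g • Polynomial.aeval x P = Polynomial.aeval (g • x) P := by
  induction P using Polynomial.induction_on' with
  | add p q hp hq => simp only [map_add, smul_add, hp, hq]
  | monomial n c =>
    rw [Polynomial.aeval_monomial, Polynomial.aeval_monomial, smul_mul', smul_pow']
    exact congrArg (· * _) (hg _ c.2)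

variable (k) in
lemma orb_fin (h : IsAlgebraic K₀ x) : {y | ∃ g : SA k L, Fx K₀ g ∧ y = g • x}.Finite := by
  obtain ⟨P, hP, h0⟩ := h
  refine (P.rootSet_finite L).subset ?_
  rintro _ ⟨g, hg, rfl⟩
  exact Polynomial.mem_rootSet.2 ⟨hP, by rw [← hg.aeval, h0, smul_zero]⟩

variable (k) in
lemma orbS_fin {S : Set L} (hS : S.Finite) (h : ∀ x ∈ S, IsAlgebraic K₀ x) :
    {T | ∃ g : SA k L, Fx K₀ g ∧ T = (g • ·) '' S}.Finite := by
  refine (hS.biUnion fun x hx => orb_fin k (h x hx)).finite_subsets.subset ?_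
  rintro _ ⟨g, hg, rfl⟩ _ ⟨x, hx, rfl⟩
  exact Set.mem_biUnion hx ⟨g, hg, rfl⟩

lemma orbM_fin (hM : M.FG) (h : ∀ x ∈ M, IsAlgebraic K₀ x) :
    {N | ∃ g : SA k L, Fx K₀ g ∧ N = g • M}.Finite := by
  obtain ⟨S, hS, rfl⟩ := Submodule.fg_def.1 hM
  refine ((orbS_fin k hS fun x hx => h x (Submodule.subset_span hx)).image
    (Submodule.span k)).subset ?_
  rintro _ ⟨g, hg, rfl⟩
  exact ⟨_, ⟨g, hg, rfl⟩, span_smul S⟩

/-- A stable finite dimensional space has a finite spanning family in `K₀`. -/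
lemma Gl.exists_gen (h : Gl K₀ K) (hM : Cl K₀ K M) :
    ∃ T : Finset L, (∀ x ∈ T, x ∈ K₀) ∧ Submodule.span k (T : Set L) = M := by
  have e : Submodule.span k {x | x ∈ M ∧ x ∈ K₀} = M :=
    le_antisymm (Submodule.span_le.2 fun _ hx => hx.1) (h.desc M hM.2.2 hM.2.1)
  obtain ⟨T, h1, h2⟩ := (Submodule.fg_span_iff_fg_span_finset_subset _).1 (e.symm ▸ hM.1)
  exact ⟨T, fun x hx => (h1 hx).2, h2.symm.trans e⟩

end Stb

lemma ne_of_lmon {ι : Type} [Fintype ι] {z : ι → L} (h : LMon O z x) : x ≠ 0 :=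
  let ⟨_, hc⟩ := h; fun e => hc.2.1 (by rw [e, zero_div])

end Pool.Agent.MP_19ffc6_ag.Res.P
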