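import Pool.Agent.MP_19ffc6_ag.Res.PSpec
import Pool.Agent.MP_19ffc6_ag.Res.Out

/-! PROJECT RESP, module FRAME: a rational frame, whose derivations commute with the semilinear
automorphisms that fix it. -/

namespace Pool.Agent.MP_19ffc6_ag.Res.P

open PA Finset Matrix

variable {k K : Type} [Field k] [Field K] [Algebra k K] {m : ℕ}
  {d : Fin (m + 1) → Derivation k K K}

namespace Frame

/-- If all Jacobians of members of `S` vanish then a nonzero combination of the derivations
kills `S`. -/
theorem exists_der {S : Set K} (hS : ∀ g : Fin (m + 1) → K, (∀ i, g i ∈ S) → Jac d g = 0) :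
    ∃ c : Fin (m + 1) → K, c ≠ 0 ∧ ∀ x ∈ S, ∑ j, c j * d j x = 0 := by
  have : Submodule.span K (Set.range fun (x : S) j => d j x) < ⊤ := by
    rw [lt_top_iff_ne_top]
    intro e
    have := MultilinearMap.ext_of_span_eq_top (g := fun {_ : Fin (m + 1)} (x : S) j => d j x)
      (fun _ => e) (φ := (detRowAlternating (n := Fin (m + 1)) (R := K)).toMultilinearMap)
      (φ' := 0) fun x => hS (fun i => x i) fun i => (x i).2
    have := DFunLike.congr_fun this (1 : Matrix (Fin (m + 1)) (Fin (m + 1)) K)
    exact one_ne_zero (det_one.symm.trans this)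
  obtain ⟨f, f0, f1⟩ := Submodule.exists_le_ker_of_lt_top _ this
  refine ⟨fun j => f (Pi.single j 1), fun e => f0 ?_, fun x hx => ?_⟩
  · ext j
    simpa using congrFun e j
  · have := f1 (Submodule.subset_span ⟨⟨x, hx⟩, rfl⟩)
    rw [LinearMap.mem_ker, LinearMap.pi_apply_eq_sum_univ] at this
    rw [← this]
    refine sum_congr rfl fun j _ => ?_
    rw [mul_comm, smul_eq_mul]
    congr 1
    refine congrArg f (funext fun i => ?_)
    simp [Pi.single_apply, eq_comm]

/-- A derivation that kills a set kills the field it generates. -/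
theorem der_adjoin {S : Set K} (D : Derivation k K K) (hD : ∀ x ∈ S, D x = 0) :
    ∀ x ∈ IntermediateField.adjoin k S, D x = 0 := fun x hx => by
  induction hx using IntermediateField.adjoin_induction with
  | mem x hx => exact hD x hx
  | algebraMap x => simp
  | add x y _ _ a b => simp [a, b]
  | inv x _ a => simp [Derivation.leibniz_inv, a]
  | mul x y _ _ a b => simp [a, b]

/-- A generating set contains a tuple with nonzero Jacobian. -/
theorem exists_jac {t : Fin (m + 1) → K} (hF : Fr t d) {S : Set K}
    (hS : ⊤ = IntermediateField.adjoin k S) :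
    ∃ g : Fin (m + 1) → K, (∀ i, g i ∈ S) ∧ Jac d g ≠ 0 := by
  by_contra h
  push Not at h
  obtain ⟨c, c0, c1⟩ := exists_der h
  refine c0 (funext fun i => ?_)
  have := der_adjoin (S := S) (∑ j, c j • d j) (fun x hx => by rw [der_sum]; exact c1 x hx) (t i)
    (hS ▸ IntermediateField.mem_top)
  simpa [der_sum, hF.dual] using this

/-- The conjugate of a derivation by a semilinear automorphism. -/
def conj (g : SA k K) (D : Derivation k K K) : Derivation k K K := Derivation.mk'
  { toFun := fun x => g⁻¹ • D (g • x)
    map_add' := fun a b => by rw [smul_add, map_add, smul_add]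
    map_smul' := fun c a => by
      rw [SA.smul_smul', Derivation.map_smul, RingHom.id_apply, inv_smul_eq_iff, SA.smul_smul',
        smul_inv_smul] }
  fun a b => by
    change g⁻¹ • D (g • (a * b)) = a • g⁻¹ • D (g • b) + b • g⁻¹ • D (g • a)
    rw [smul_mul', Derivation.leibniz]
    simp only [smul_eq_mul, smul_add, smul_mul', inv_smul_smul]

theorem conj_apply (g : SA k K) (D : Derivation k K K) (x : K) :
    conj g D x = g⁻¹ • D (g • x) := rfl

theorem com {t : Fin (m + 1) → K} {g : SA k K} (hF : Fr t d) (ht : ∀ i, g • t i = t i)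
    (j : Fin (m + 1)) (x : K) : d j (g • x) = g • d j x := by
  have := hF.sep
  have h := der_eq_zero (S := Set.range t) (conj g (d j) - d j) (by
    rintro _ ⟨i, rfl⟩
    rw [Derivation.sub_apply, conj_apply, ht, hF.dual]
    split_ifs <;> simp)
  have h2 : g⁻¹ • d j (g • x) = d j x := sub_eq_zero.1 (DFunLike.congr_fun h x)
  rw [← h2, smul_inv_smul]

end Frame

/-- Module FRAME. -/
theorem frameP [PerfectField k] : FrameP k K m where
  ex K₀ hG hK hn := by
    have := IntermediateField.essFiniteType_iff.2 hK
    have : Algebra.EssFiniteType k K :=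
      .of_surjective IntermediateField.topEquiv.toAlgHom IntermediateField.topEquiv.surjective
    obtain ⟨t, d, hF⟩ := OutA.exists_frame hn
    obtain ⟨g, h1, h2⟩ := Frame.exists_jac hF hG.eq
    exact ⟨g, _, hF.of_jac h2, h1⟩
  com _ _ _ hF ht := Frame.com hF ht

end Pool.Agent.MP_19ffc6_ag.Res.P
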