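import Pool.Agent.MP_19ffc6_ag.Res.PStep

/-! PROJECT RESP: semilinear automorphisms and the Albanese theorem over a subfield. -/

namespace Pool.Agent.MP_19ffc6_ag.Res.PA

open Submodule Module Filter

variable {k K : Type} [Field k] [Field K] [Algebra k K] {m : ℕ}

variable (k K) in
/-- An automorphism of `K` that preserves the ground field. -/
structure Tw where
  τ : k ≃+* k
  g : K ≃+* K
  alg : ∀ c, g (algebraMap k K c) = algebraMap k K (τ c)

namespace Tw

variable (γ : Tw k K) {P Q T V : Submodule k K} {x σ : K} {w : DV k K}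
  {d : Fin (m + 1) → Derivation k K K} {S : Finset K} {μ : ℕ}

/-- The inverse. -/
def symm : Tw k K :=
  ⟨γ.τ.symm, γ.g.symm, fun c => by rw [RingEquiv.symm_apply_eq, γ.alg, RingEquiv.apply_symm_apply]⟩

theorem smul (c : k) (x : K) : γ.g (c • x) = γ.τ c • γ.g x := by
  rw [Algebra.smul_def, Algebra.smul_def, map_mul, γ.alg]

/-- The semilinear map. -/
def lin : K →ₛₗ[(γ.τ : k →+* k)] K where
  toFun := γ.g
  map_add' := map_add _
  map_smul' := γ.smul

/-- The preimage of a subspace. -/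
def cm (V : Submodule k K) : Submodule k K := V.comap γ.lin

theorem mem_cm : x ∈ γ.cm V ↔ γ.g x ∈ V := Iff.rfl

theorem cm_symm (V : Submodule k K) : γ.cm (γ.symm.cm V) = V := by
  ext x; simp [mem_cm, symm]

theorem symm_cm (V : Submodule k K) : γ.symm.cm (γ.cm V) = V := γ.symm.cm_symm V

theorem cm_mono (h : P ≤ Q) : γ.cm P ≤ γ.cm Q := fun _ hx => h hx

theorem cm_span (s : Set K) : γ.cm (span k s) = span k (γ.g ⁻¹' s) := by
  have h : ∀ (γ : Tw k K) (s : Set K), span k (γ.g ⁻¹' s) ≤ γ.cm (span k s) :=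
    fun γ s => span_le.2 fun _ hx => subset_span hx
  refine le_antisymm ?_ (h γ s)
  have := γ.cm_mono (h γ.symm (γ.g ⁻¹' s))
  rwa [cm_symm, show γ.symm.g ⁻¹' (γ.g ⁻¹' s) = s by ext; simp [symm]] at this

theorem cm_fg (h : V.FG) : (γ.cm V).FG := by
  obtain ⟨s, hs, rfl⟩ := fg_def.1 h
  rw [cm_span]
  exact fg_span (hs.preimage γ.g.injective.injOn)

theorem cm_sup (P Q : Submodule k K) : γ.cm (P ⊔ Q) = γ.cm P ⊔ γ.cm Q := by
  have h : ∀ (γ : Tw k K) (P Q : Submodule k K), γ.cm P ⊔ γ.cm Q ≤ γ.cm (P ⊔ Q) :=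
    fun γ P Q => sup_le (γ.cm_mono le_sup_left) (γ.cm_mono le_sup_right)
  refine le_antisymm ?_ (h γ P Q)
  have := γ.cm_mono (h γ.symm (γ.cm P) (γ.cm Q))
  rwa [cm_symm, symm_cm, symm_cm] at this

theorem cm_mul (P Q : Submodule k K) : γ.cm (P * Q) = γ.cm P * γ.cm Q := by
  have h : ∀ (γ : Tw k K) (P Q : Submodule k K), γ.cm P * γ.cm Q ≤ γ.cm (P * Q) :=
    fun γ P Q => mul_le.2 fun x hx y hy => by
      rw [mem_cm, map_mul]; exact mul_mem_mul hx hy
  refine le_antisymm ?_ (h γ P Q)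
  have := γ.cm_mono (h γ.symm (γ.cm P) (γ.cm Q))
  rwa [cm_symm, symm_cm, symm_cm] at this

theorem cm_pr (σ : K) : γ.cm (pr k (γ.g σ)) = pr k σ := by
  rw [pr, cm_span, show γ.g ⁻¹' {γ.g σ} = {σ} by ext; simp, pr]

theorem cm_one : γ.cm 1 = 1 := by
  have := γ.cm_pr 1
  rwa [map_one, pr, ← one_eq_span] at this

theorem cm_pow (P : Submodule k K) (n : ℕ) : γ.cm (P ^ n) = γ.cm P ^ n := by
  induction n with
  | zero => simpa using γ.cm_one
  | succ n ih => rw [pow_succ, cm_mul, ih, pow_succ]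

theorem cm_alg (T : Submodule k K) : γ.cm (PA.alg T) = PA.alg (γ.cm T) := by
  have h : ∀ (γ : Tw k K) (T : Submodule k K), PA.alg (γ.cm T) ≤ γ.cm (PA.alg T) := by
    intro γ T x hx
    change γ.g x ∈ Algebra.adjoin k (T : Set K)
    induction hx using Algebra.adjoin_induction with
    | mem x hx => exact Algebra.subset_adjoin hx
    | algebraMap c => rw [γ.alg]; exact Subalgebra.algebraMap_mem _ _
    | add x y _ _ hx hy => rw [map_add]; exact add_mem hx hy
    | mul x y _ _ hx hy => rw [map_mul]; exact mul_mem hx hy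
  refine le_antisymm ?_ (h γ T)
  have := γ.cm_mono (h γ.symm (γ.cm T))
  rwa [cm_symm, symm_cm] at this

theorem cod_cm (P Q : Submodule k K) : cod (γ.cm P) (γ.cm Q) = cod P Q := by
  have h : ∀ (γ : Tw k K) (P Q : Submodule k K),
      Module.rank k ((γ.cm P).map (γ.cm Q).mkQ) ≤ Module.rank k (P.map Q.mkQ) := by
    intro γ P Q
    let φ : (K ⧸ γ.cm Q) →ₛₗ[(γ.τ : k →+* k)] K ⧸ Q := mapQ (γ.cm Q) Q γ.lin le_rfl
    have h1 : Function.Injective φ := by
      rw [injective_iff_map_eq_zero]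
      rintro ⟨x⟩ hx
      exact (Quotient.mk_eq_zero _).2 ((Quotient.mk_eq_zero Q).1 hx)
    let ψ : (γ.cm P).map (γ.cm Q).mkQ →ₛₗ[(γ.τ : k →+* k)] P.map Q.mkQ :=
      φ.restrict (by rintro _ ⟨x, hx, rfl⟩; exact ⟨γ.g x, hx, rfl⟩)
    exact rank_le_of_surjective_injective γ.τ ψ.toAddMonoidHom γ.τ.surjective
      (fun a b e => Subtype.ext (h1 (congrArg Subtype.val e))) fun r a => ψ.map_smulₛₗ r a
  have h2 := h γ.symm (γ.cm P) (γ.cm Q)
  rw [symm_cm, symm_cm] at h2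
  exact congrArg Cardinal.toNat (le_antisymm (h γ P Q) h2)

/-- The automorphism commutes with the derivations. -/
def Com (d : Fin (m + 1) → Derivation k K K) : Prop := ∀ j x, d j (γ.g x) = γ.g (d j x)

variable {γ}

theorem Com.symm (h : γ.Com d) : γ.symm.Com d := fun j x => by
  rw [eq_comm]
  exact γ.g.symm_apply_eq.2 (by rw [← h]; simp [Tw.symm])

theorem com_of_fr {t : Fin (m + 1) → K} (hF : Fr t d) (ht : ∀ i, γ.g (t i) = t i) : γ.Com d := by
  intro j x
  let D : Derivation k K K := Derivation.mk'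
    { toFun := fun x => γ.g.symm (d j (γ.g x))
      map_add' := fun a b => by simp
      map_smul' := fun c a => by
        rw [γ.smul, Derivation.map_smul, show γ.g.symm _ = _ from γ.symm.smul _ _]
        simp [Tw.symm] } fun a b => by simp
  have := hF.sep
  have h := der_eq_zero (S := Set.range t) (D - d j) (by
    rintro _ ⟨i, rfl⟩
    have : D (t i) = γ.g.symm (d j (γ.g (t i))) := rfl
    rw [Derivation.sub_apply, this, ht, hF.dual]
    split_ifs <;> simp)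
  have h2 : γ.g.symm (d j (γ.g x)) = d j x := sub_eq_zero.1 (DFunLike.congr_fun h x)
  rw [← h2, RingEquiv.apply_symm_apply]

theorem Com.jac (h : γ.Com d) (g : Fin (m + 1) → K) :
    γ.g (Jac d g) = Jac d fun i => γ.g (g i) := by
  rw [Jac, Jac, RingEquiv.map_det]
  congr 1
  ext i j
  simp [h j]

theorem Com.wr (h : γ.Com d) (v : Fin (m + 2) → K) :
    γ.g (Wr d v) = Wr d fun i => γ.g (v i) := by
  simp only [wr_expand, map_sum, map_mul, map_pow, map_neg, map_one, h.jac]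

theorem Com.cm_JJ (h : γ.Com d) (T : Submodule k K) : γ.cm (JJ d T) = JJ d (γ.cm T) := by
  have h1 : ∀ γ : Tw k K, γ.Com d → ∀ T : Submodule k K, JJ d (γ.cm T) ≤ γ.cm (JJ d T) :=
    fun γ h T => JJ_le fun g hg => by rw [mem_cm, h.jac]; exact jac_mem hg
  refine le_antisymm ?_ (h1 γ h T)
  have := γ.cm_mono (h1 γ.symm h.symm (γ.cm T))
  rwa [cm_symm, symm_cm] at this

theorem Com.cm_WW (h : γ.Com d) (T : Submodule k K) : γ.cm (WW d T) = WW d (γ.cm T) := by
  have h1 : ∀ γ : Tw k K, γ.Com d → ∀ T : Submodule k K, WW d (γ.cm T) ≤ γ.cm (WW d T) :=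
    fun γ h T => WW_le fun g hg => by rw [mem_cm, h.wr]; exact wr_mem hg
  refine le_antisymm ?_ (h1 γ h T)
  have := γ.cm_mono (h1 γ.symm h.symm (γ.cm T))
  rwa [cm_symm, symm_cm] at this

variable (γ)

theorem cm_Mb (T J MM : Submodule k K) (b : ℕ) :
    γ.cm (Mb T J MM b) = Mb (γ.cm T) (γ.cm J) (γ.cm MM) b := by
  rw [Mb, Mb, cm_mul, cm_mul, cm_pow, cm_alg]

theorem sm_cm {n : ℕ} {J MM : Submodule k K} :
    Sm n μ (γ.cm T) (γ.cm J) (γ.cm MM) ↔ Sm n μ T J MM := by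
  simp only [Sm, ← cm_Mb, ← cm_pow, ← cm_mul, cod_cm]

theorem gr_cm {n : ℕ} : Gr n μ (γ.cm T) (γ.cm P) (γ.cm Q) ↔ Gr n μ T P Q := by
  simp only [Gr, ← cm_pow, ← cm_mul, ← cm_sup, cod_cm]

/-- The pull back of a valuation. -/
def dv (w : DV k K) : DV k K where
  ord := fun x => w.ord (γ.g x)
  zero := by rw [map_zero, w.zero]
  mul := fun x y hx hy => by rw [map_mul]; exact w.mul _ _ (by simpa) (by simpa)
  add := fun x y hx hy h => by
    rw [map_add]; exact w.add _ _ (by simpa) (by simpa) (by rw [← map_add]; exact (map_ne_zero γ.g).2 h)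
  cst := fun c => by rw [γ.alg, w.cst]
  unif := let ⟨π, h1, h2⟩ := w.unif; ⟨γ.g.symm π, by simpa, by simpa⟩

theorem symm_dv (w : DV k K) : γ.symm.dv (γ.dv w) = w := by
  ext x; simp [dv, symm]

theorem dv_fil (w : DV k K) (a : ℤ) : (γ.dv w).fil a = γ.cm (w.fil a) := by
  ext x
  exact or_congr (by simp [lin]) Iff.rfl

theorem dv_ordS (w : DV k K) (V : Submodule k K) : (γ.dv w).ordS (γ.cm V) = w.ordS V := by
  refine congrArg sInf (Set.ext fun a => ⟨?_, ?_⟩)
  · rintro ⟨x, ⟨h1, h2⟩, rfl⟩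
    exact ⟨γ.g x, ⟨h1, by simpa⟩, rfl⟩
  · rintro ⟨x, ⟨h1, h2⟩, rfl⟩
    exact ⟨γ.g.symm x, ⟨by simpa [mem_cm], by simpa⟩, by simp [dv]⟩

theorem dv_min : (γ.dv w).Min (γ.cm V) σ ↔ w.Min V (γ.g σ) := by
  rw [DV.Min, DV.Min, dv_ordS]
  exact and_congr Iff.rfl (and_congr (by simp) Iff.rfl)

theorem aeval_g {ι : Type} (g : ι → K) (P : MvPolynomial ι k) :
    γ.g (MvPolynomial.aeval g P) =
      MvPolynomial.aeval (fun i => γ.g (g i)) (MvPolynomial.map (γ.τ : k →+* k) P) := by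
  induction P using MvPolynomial.induction_on with
  | C c => simp [γ.alg]
  | add p q hp hq => simp [hp, hq]
  | mul_X p i hp => simp [hp]

theorem dv_ind {ι : Type} {g : ι → K} (h : w.Ind fun i => γ.g (g i)) : (γ.dv w).Ind g :=
  fun P hP => MvPolynomial.map_injective (γ.τ : k →+* k) γ.τ.injective (by
    rw [map_zero]
    refine h _ ?_
    rwa [dv_fil, mem_cm, aeval_g] at hP)

theorem prm_cm (h : Prm m V w) : Prm m (γ.cm V) (γ.dv w) := by
  obtain ⟨σ, h1, g, h2, h3⟩ := h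
  exact ⟨γ.g.symm σ, γ.dv_min.2 (by simpa), fun i => γ.g.symm (g i),
    fun i => by simpa [mem_cm] using h2 i, γ.dv_ind (by simpa)⟩

variable {γ}

theorem Com.unr (hc : γ.Com d) (h : Unr d V w) : Unr d (γ.cm V) (γ.dv w) := by
  obtain ⟨σ, h1, g, h2, c, h3, h4⟩ := h
  refine ⟨γ.g.symm σ, γ.dv_min.2 (by simpa), fun i => γ.g.symm (g i),
    fun i => by simpa [mem_cm] using h2 i, fun i j => γ.g.symm (c i j), fun i x hx => ?_,
    fun i l => γ.g.injective ?_⟩
  · rw [dv_fil, mem_cm] at hx ⊢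
    simpa [map_sum, ← hc _ _] using h3 i _ hx
  · simp only [map_sum, map_mul, ← hc _ _, RingEquiv.apply_symm_apply, h4]
    split_ifs <;> simp

theorem Com.dd (hc : γ.Com d) (hS : ∀ r ∈ S, γ.g r = r) (h : w ∈ DD d S V) :
    γ.dv w ∈ DD d S (γ.cm V) := by
  refine ⟨γ.prm_cm h.1, h.2.imp (fun ⟨r, h1, h2⟩ => ⟨r, h1, ?_⟩) fun h1 h2 => h1 ?_⟩
  · change w.ord (γ.g r) ≠ 0
    rwa [hS r h1]
  · simpa only [symm_cm, symm_dv] using hc.symm.unr h2

theorem Com.goodX (hc : γ.Com d) (h : GoodX d μ (γ.cm T)) : GoodX d μ T := by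
  obtain ⟨M₀, h1, h2⟩ := h
  refine ⟨γ.symm.cm M₀, γ.symm.cm_fg h1, fun MM h3 h4 => γ.sm_cm.1 ?_⟩
  rw [hc.cm_JJ]
  exact h2 _ (γ.cm_fg h3) (γ.cm_symm M₀ ▸ γ.cm_mono h4)

theorem hyp_cm (h : Hyp V (γ.g σ) T) : Hyp (γ.cm V) σ (γ.cm T) :=
  ⟨by simpa using h.ne, by rw [h.eq, cm_mul, cm_pr, cm_sup, cm_one],
    fun e => h.one (by simpa [mem_cm] using e)⟩

theorem Com.bad (hc : γ.Com d) (hS : ∀ r ∈ S, γ.g r = r) (h : Orb.Bad d S μ V (γ.g σ) T) :
    Orb.Bad d S μ (γ.cm V) σ (γ.cm T) := by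
  refine ⟨hyp_cm h.1, fun e => h.2 ⟨hc.goodX e.1, fun w h1 h2 => γ.gr_cm.1 ?_⟩⟩
  rw [cm_alg, ← dv_fil]
  exact e.2 _ (hc.dd hS h1) (γ.dv_min.2 h2)

theorem Com.cut (hc : γ.Com d) (hS : ∀ r ∈ S, γ.g r = r) (V : Submodule k K) :
    γ.cm (Orb.cut d S μ V) = Orb.cut d S μ (γ.cm V) := by
  have h : ∀ γ : Tw k K, γ.Com d → (∀ r ∈ S, γ.g r = r) → ∀ V : Submodule k K,
      Orb.cut d S μ (γ.cm V) ≤ γ.cm (Orb.cut d S μ V) := by
    intro γ hc hS V x hx
    refine Orb.mem_cut.2 ⟨hx.1, fun σ T hb => ?_⟩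
    obtain ⟨σ, rfl⟩ := γ.g.surjective σ
    have := Orb.cut_le (hc.bad hS hb) hx
    rwa [← γ.cm_pr σ, ← cm_mul] at this
  refine le_antisymm ?_ (h γ hc hS V)
  have := γ.cm_mono (h γ.symm hc.symm (fun r hr => γ.g.symm_apply_eq.2 (hS r hr).symm) (γ.cm V))
  rwa [cm_symm, symm_cm] at this

/-- The elements fixed by a set of automorphisms. -/
def Fix (Γ : Set (Tw k K)) : Set K := {x | ∀ γ ∈ Γ, γ.g x = x}

/-- A stable subspace is spanned by its fixed elements. -/
theorem speiser {Γ : Set (Tw k K)} (hV : ∀ γ ∈ Γ, V ≤ γ.cm V) (h : V ≤ span k (Fix Γ)) :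
    span k (↑V ∩ Fix Γ) = V := by
  classical
  refine le_antisymm (span_le.2 Set.inter_subset_left) fun v hv => ?_
  obtain ⟨s, hs, h1⟩ := mem_span_finite_of_mem_span (h hv)
  induction s using Finset.strongInduction generalizing v with
  | H s ih =>
  have key : ∀ e ∈ s, ∀ c : K → k, c e = 0 → ∑ x ∈ s, c x • x ∈ V →
      ∑ x ∈ s, c x • x ∈ span k (↑V ∩ Fix Γ) := fun e he c h2 h3 =>
    ih _ (Finset.erase_ssubset he) _ h3 (fun x hx => hs (Finset.mem_of_mem_erase hx)) (by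
      rw [← Finset.add_sum_erase _ _ he, h2, zero_smul, zero_add]
      exact sum_mem fun x hx => smul_mem _ _ (subset_span hx))
  obtain ⟨c, -, rfl⟩ := mem_span_finset.1 h1
  by_cases hA : ∃ a : K → k, ∑ x ∈ s, a x • x ∈ span k (↑V ∩ Fix Γ) ∧ ∃ e ∈ s, a e ≠ 0
  · obtain ⟨a, h2, e, h3, h4⟩ := hA
    have h5 : ∑ x ∈ s, (c x - c e / a e * a x) • x =
        ∑ x ∈ s, c x • x - (c e / a e) • ∑ x ∈ s, a x • x := by
      simp only [sub_smul, mul_smul, Finset.sum_sub_distrib, Finset.smul_sum]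
    have h6 := key e h3 (fun x => c x - c e / a e * a x) (by simp [h4]) (by
      rw [h5]; exact sub_mem hv (smul_mem _ _ (span_le.2 Set.inter_subset_left h2)))
    rw [h5] at h6
    simpa using add_mem h6 (smul_mem _ (c e / a e) h2)
  push Not at hA
  by_cases h0 : ∀ e ∈ s, c e = 0
  · rw [Finset.sum_eq_zero fun x hx => by rw [h0 x hx, zero_smul]]; exact zero_mem _
  push Not at h0
  obtain ⟨e, h3, h4⟩ := h0
  have h5 : (c e)⁻¹ • ∑ x ∈ s, c x • x ∈ V := smul_mem _ _ hv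
  refine (smul_mem_iff _ (inv_ne_zero h4)).1 (subset_span ⟨h5, fun γ hγ => ?_⟩)
  have h6 : ∑ x ∈ s, (γ.τ ((c e)⁻¹ * c x) - (c e)⁻¹ * c x) • x =
      γ.g ((c e)⁻¹ • ∑ x ∈ s, c x • x) - (c e)⁻¹ • ∑ x ∈ s, c x • x := by
    simp only [Finset.smul_sum, ← mul_smul, map_sum, γ.smul, sub_smul, Finset.sum_sub_distrib]
    exact congrArg (· - _) (Finset.sum_congr rfl fun x hx => by rw [hs hx γ hγ])
  have h7 := hA _ (key e h3 (fun x => γ.τ ((c e)⁻¹ * c x) - (c e)⁻¹ * c x) (by simp [h4])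
    (h6 ▸ sub_mem (hV γ hγ h5) h5))
  rw [← sub_eq_zero, ← h6]
  exact Finset.sum_eq_zero fun x hx => by rw [h7 x hx, zero_smul]

theorem exists_basis {Γ : Set (Tw k K)} {t : Fin (m + 1) → K} (hF : Fr t d)
    (ht : ∀ i, t i ∈ Fix Γ) (hsp : span k (Fix Γ) = ⊤) :
    ∃ (n : ℕ) (η : Fin (n + 1) → K), (∀ l, η l ∈ Fix Γ) ∧
      (∀ l, IsIntegral (Algebra.adjoin k (Set.range t)) (η l)) ∧
      LinearIndependent (IntermediateField.adjoin k (Set.range t)) η ∧
      span (IntermediateField.adjoin k (Set.range t)) (Set.range η) = ⊤ := by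
  set F := IntermediateField.adjoin k (Set.range t)
  set A := Algebra.adjoin k (Set.range t)
  have := hF.fin
  have : Algebra.IsAlgebraic A K := IntermediateField.isAlgebraic_adjoin_iff_top.1 inferInstance
  have hA : ∀ γ ∈ Γ, ∀ x ∈ A, γ.g x ∈ A := fun γ hγ x hx => by
    induction hx using Algebra.adjoin_induction with
    | mem x hx => obtain ⟨i, rfl⟩ := hx; rw [ht i γ hγ]; exact Algebra.subset_adjoin ⟨i, rfl⟩
    | algebraMap c => rw [γ.alg]; exact Subalgebra.algebraMap_mem _ _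
    | add x y _ _ hx hy => rw [map_add]; exact add_mem hx hy
    | mul x y _ _ hx hy => rw [map_mul]; exact mul_mem hx hy
  have h1 : ∀ x ∈ Fix Γ, ∃ y ∈ A, y ≠ 0 ∧ y ∈ Fix Γ ∧ IsIntegral A (y * x) := fun x hx => by
    let I : Submodule k K := A.toSubmodule ⊓
      ((integralClosure A K).toSubmodule.restrictScalars k).comap (LinearMap.mulRight k x)
    have h2 := speiser (Γ := Γ) (V := I) (fun γ hγ y hy => ⟨hA γ hγ y hy.1, by
      have h3 : IsIntegral A (y * x) := hy.2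
      have h4 := h3.map_of_comp_eq ((γ.g : K →+* K).restrict A A (hA γ hγ)) (γ.g : K →+* K) rfl
      change IsIntegral A (γ.g y * x)
      rwa [RingHom.coe_coe, map_mul, hx γ hγ] at h4⟩) (hsp ▸ le_top)
    by_contra hc
    push Not at hc
    obtain ⟨y, h5, h6⟩ := (Algebra.IsAlgebraic.isAlgebraic (R := A) x).exists_integral_multiple
    have h7 : span k (↑I ∩ Fix Γ) ≤ ⊥ := span_le.2 fun z hz => by
      by_contra h8
      exact hc z hz.1.1 h8 hz.2 hz.1.2
    exact h5 (Subtype.ext ((mem_bot k).1 (h7 (h2.ge (show (y : K) ∈ I from ⟨y.2, h6⟩)))))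
  obtain ⟨b, hb, h2, h3⟩ := exists_linearIndependent F (Fix Γ)
  let B : Basis b F K := Basis.mk h3 (by
    rw [Subtype.range_coe, h2]
    exact fun x _ => span_le_restrictScalars k F _ (hsp.ge mem_top))
  obtain ⟨n, hn⟩ := Nat.exists_eq_succ_of_ne_zero (finrank_pos (R := F) (M := K)).ne'
  let B' := B.reindex (B.indexEquiv (Module.finBasisOfFinrankEq F K hn))
  have h4 : ∀ l, B' l ∈ Fix Γ := fun l => by
    simp only [B', B, Basis.reindex_apply, Basis.mk_apply]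
    exact hb (Subtype.prop _)
  choose y y1 y2 y3 y4 using fun l => h1 _ (h4 l)
  let B₂ := B'.isUnitSMul (w := fun l => ⟨y l, IntermediateField.algebra_adjoin_le_adjoin k _ (y1 l)⟩)
    fun l => Ne.isUnit fun e => y2 l (congrArg (fun z : F => z.1) e)
  have h5 : ∀ l, B₂ l = y l * B' l := fun l => by rw [Basis.isUnitSMul_apply]; rfl
  exact ⟨n, B₂, fun l γ hγ => by rw [h5, map_mul, y3 l γ hγ, h4 l γ hγ],
    fun l => h5 l ▸ y4 l, B₂.linearIndependent, B₂.span_eq⟩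

end Tw

/-- The Albanese theorem with a linear system that is spanned by fixed elements. -/
theorem alb_fix {Γ : Set (Tw k K)} {t : Fin (m + 1) → K} {d : Fin (m + 1) → Derivation k K K}
    {S : Finset K} (hF : Fr t d) (ht : ∀ i, t i ∈ Tw.Fix Γ) (hS : ∀ r ∈ S, r ∈ Tw.Fix Γ)
    (hsp : span k (Tw.Fix Γ) = ⊤) :
    ∃ V : Submodule k K, (∀ γ ∈ Γ, γ.cm V = V) ∧ span k (↑V ∩ Tw.Fix Γ) = V ∧
      Alb d S (2 ^ (m + 1) * mu m) V := by
  obtain ⟨n, η, h1, h2, h3, h4⟩ := Tw.exists_basis hF ht hsp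
  obtain ⟨V, h5, h6⟩ := Orb.alb_stable hF S 0 h2 h3 h4 (fun V => ∀ γ ∈ Γ, γ.cm V = V)
    (fun N γ hγ => by
      have a1 : γ.cm (Sta.cube k t) = Sta.cube k t := by
        refine Finset.prod_induction _ (fun P => γ.cm P = P) (fun a b ha hb => ?_) γ.cm_one
          fun i _ => ?_
        · rw [Tw.cm_mul, ha, hb]
        · rw [Tw.cm_sup, Tw.cm_one, ← ht i γ hγ, Tw.cm_pr, ht i γ hγ]
      rw [Sta.bx, Tw.cm_mul, Tw.cm_pow, a1, Tw.cm_span]
      congr 2
      ext x
      exact exists_congr fun l => ⟨fun e => γ.g.injective ((h1 l γ hγ).trans e),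
        fun e => by rw [← e, h1 l γ hγ]⟩)
    fun V _ h γ hγ => by
      rw [(Tw.com_of_fr hF fun i => ht i γ hγ).cut fun r hr => hS r hr γ hγ, h γ hγ]
  exact ⟨V, h5, Tw.speiser (fun γ hγ => (h5 γ hγ).ge) (hsp ▸ le_top), h6⟩

section Gal

variable {kk : Type} [Field kk] [Algebra kk k] [Algebra kk K] [IsScalarTower kk k K]

variable (k) in
/-- The twist defined by an automorphism over the small ground field. -/
noncomputable def Tw.ofAut [Normal kk k] (σ : K ≃ₐ[kk] K) : Tw k K :=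
  ⟨σ.restrictNormal k, σ, fun c => (σ.restrictNormal_commutes k c).symm⟩

variable (k) in
/-- The twists that fix `K₀`. -/
def Tw.gal [Normal kk k] (K₀ : IntermediateField kk K) : Set (Tw k K) :=
  Set.range fun σ : K ≃ₐ[K₀] K => Tw.ofAut k (σ.restrictScalars kk)

theorem isGalois_of_span [IsGalois kk k] {K₀ : IntermediateField kk K}
    (h : span k (K₀ : Set K) = ⊤) : IsGalois K₀ K := by
  have h1 : ∀ x : K, x ∈ IntermediateField.adjoin K₀ (Set.range (algebraMap k K)) := fun x => by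
    have hx : x ∈ span k (K₀ : Set K) := h ▸ mem_top
    induction hx using span_induction with
    | mem x hx => exact IntermediateField.algebraMap_mem _ (⟨x, hx⟩ : K₀)
    | zero => exact zero_mem _
    | add x y _ _ hx hy => exact add_mem hx hy
    | smul c x _ hx =>
      rw [Algebra.smul_def]
      exact mul_mem (IntermediateField.subset_adjoin _ _ ⟨c, rfl⟩) hx
  have h2 : ∀ x ∈ Set.range (algebraMap k K), IsSeparable K₀ x := by
    rintro _ ⟨c, rfl⟩
    exact IsSeparable.tower_top K₀ ((Algebra.IsSeparable.isSeparable kk c).map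
      (IsScalarTower.toAlgHom kk k K) (algebraMap k K).injective)
  have h3 : Algebra.IsSeparable K₀ K := ⟨fun x =>
    (IntermediateField.adjoin_le_iff (T := separableClosure K₀ K)).2 h2 (h1 x)⟩
  refine { to_isSeparable := h3, to_normal := normal_iff.2 fun x =>
    ⟨Algebra.IsSeparable.isIntegral K₀ x, IntermediateField.splits_of_mem_adjoin K₀ K ?_ (h1 x)⟩ }
  rintro _ ⟨c, rfl⟩
  refine ⟨(h2 _ ⟨c, rfl⟩).isIntegral, IsIntegral.minpoly_splits_tower_top (R := kk)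
    (Algebra.IsSeparable.isIntegral kk c).algebraMap ?_⟩
  rw [minpoly.algebraMap_eq (algebraMap k K).injective, IsScalarTower.algebraMap_eq kk k K,
    ← Polynomial.map_map]
  exact (Normal.splits inferInstance c).map _

theorem Tw.fix_gal [IsGalois kk k] {K₀ : IntermediateField kk K} (h : span k (K₀ : Set K) = ⊤) :
    Tw.Fix (Tw.gal k K₀) = K₀ := by
  have := isGalois_of_span h
  ext x
  refine ⟨fun hx => ?_, ?_⟩
  · obtain ⟨y, rfl⟩ := (InfiniteGalois.mem_range_algebraMap_iff_fixed (k := K₀) x).2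
      fun σ => hx _ ⟨σ, rfl⟩
    exact y.2
  · rintro hx _ ⟨σ, rfl⟩
    exact σ.commutes ⟨x, hx⟩

/-- The Albanese theorem with a linear system that is defined over the small ground field. -/
theorem alb_rat [IsGalois kk k] {K₀ : IntermediateField kk K} (h : span k (K₀ : Set K) = ⊤)
    {t : Fin (m + 1) → K} {d : Fin (m + 1) → Derivation k K K} {S : Finset K} (hF : Fr t d)
    (ht : ∀ i, t i ∈ K₀) (hS : ∀ r ∈ S, r ∈ K₀) :
    ∃ V : Submodule k K, (∀ γ ∈ Tw.gal k K₀, γ.cm V = V) ∧ span k (↑V ∩ (K₀ : Set K)) = V ∧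
      Alb d S (2 ^ (m + 1) * mu m) V := by
  have := alb_fix (Γ := Tw.gal k K₀) (S := S) hF
  rw [Tw.fix_gal h] at this
  exact this ht hS h

end Gal

end Pool.Agent.MP_19ffc6_ag.Res.PA
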