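import Pool.Agent.MP_19ffc6_ag.Res.PSpec
import Pool.Agent.MP_19ffc6_ag.Res.PTw

/-! PROJECT RESP, module GAL: Galois descent and extension of automorphisms. -/

namespace Pool.Agent.MP_19ffc6_ag.Res.P

open Pool.Agent.MP_19ffc6_ag.Res.PA Submodule

variable {k L : Type} [Field k] [Field L] [Algebra k L]

namespace Gal

/-- An automorphism of a subfield extends to an algebraically closed field. -/
theorem exists_ext [IsAlgClosed L] {N : Type} [Field N] [Algebra N L] (σ : N ≃+* N) :
    ∃ e : L ≃+* L, ∀ x, e (algebraMap N L x) = algebraMap N L (σ x) := by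
  obtain ⟨s, hs⟩ := exists_isTranscendenceBasis N L
  have := IsAlgClosed.isAlgClosure_of_transcendence_basis _ hs
  let a := hs.1.aevalEquiv
  let τ := (a.symm.toRingEquiv.trans (MvPolynomial.mapEquiv s σ)).trans a.toRingEquiv
  refine ⟨IsAlgClosure.equivOfEquiv L L τ, fun x => ?_⟩
  rw [IsScalarTower.algebraMap_apply N (Algebra.adjoin N (Set.range (Subtype.val : s → L))) L,
    IsAlgClosure.equivOfEquiv_algebraMap, IsScalarTower.algebraMap_apply N
      (Algebra.adjoin N (Set.range (Subtype.val : s → L))) L]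
  congr 1
  change a (MvPolynomial.mapEquiv s σ (a.symm (algebraMap N _ x))) = _
  rw [a.symm.commutes, ← a.commutes]
  congr 1
  simp

/-- An automorphism that fixes the small ground field is semilinear. -/
theorem exists_sa [IsAlgClosed k] {k₀ : Subfield k} (h0 : Gd k₀) (e : L ≃+* L)
    (he : ∀ c ∈ k₀, e (algebraMap k L c) = algebraMap k L c) : ∃ g : SA k L, g.e = e := by
  have := h0.alg
  have : IsAlgClosure k₀ k := ⟨‹_›, this⟩
  let _ : Algebra k₀ L := ((algebraMap k L).comp k₀.subtype).toAlgebra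
  have := IsScalarTower.of_algebraMap_eq (R := k₀) (S := k) (A := L) fun _ => rfl
  let e' : L ≃ₐ[k₀] L := { e with commutes' := fun c => he c c.2 }
  exact ⟨⟨e, e'.restrictNormal k, fun c => (e'.restrictNormal_commutes k c).symm⟩, rfl⟩

end Gal

/-- Module GAL, second part. -/
theorem extStmt [IsAlgClosed L] : ExtStmt k L := by
  intro F N σ
  obtain ⟨e, he⟩ := Gal.exists_ext (L := L) σ.toRingEquiv
  refine ⟨⟨e, 1, fun c => ?_⟩, he⟩
  exact (he ⟨_, N.algebraMap_mem ⟨_, F.algebraMap_mem c⟩⟩).trans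
    (congrArg Subtype.val (σ.commutes ⟨_, F.algebraMap_mem c⟩))

/-- Module GAL, first part. -/
theorem galStmt [IsAlgClosed k] : GalStmt k L := by
  intro k₀ K₀ K h0 hf hL
  have := h0.alg
  have := h0.perf
  have : IsAlgClosure k₀ k := ⟨‹_›, ‹_›⟩
  have : IsGalois k₀ k := {}
  let _ : Algebra k₀ K₀ :=
    (((algebraMap k L).comp k₀.subtype).codRestrict K₀ fun c => hf.cst c c.2).toAlgebra
  let _ : Algebra k₀ L := ((algebraMap k L).comp k₀.subtype).toAlgebra
  have := IsScalarTower.of_algebraMap_eq (R := k₀) (S := k) (A := L) fun _ => rfl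
  have := IsScalarTower.of_algebraMap_eq (R := k₀) (S := K₀) (A := L) fun _ => rfl
  let K' : IntermediateField K₀ L := IntermediateField.adjoin K₀ (Set.range (algebraMap k L))
  have h1 : ∀ x, x ∈ K ↔ x ∈ K' := fun x => by
    rw [hf.eq]
    change x ∈ Subfield.closure _ ↔ x ∈ Subfield.closure _
    rw [Set.union_comm]
    congr! 3
    exact Subtype.range_coe.symm
  have h2 : ∀ x ∈ Set.range (algebraMap k L), IsSeparable K₀ x := by
    rintro _ ⟨c, rfl⟩
    exact IsSeparable.tower_top K₀ ((Algebra.IsSeparable.isSeparable k₀ c).map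
      (IsScalarTower.toAlgHom k₀ k L) (algebraMap k L).injective)
  have h3 : ∀ x ∈ K', IsSeparable K₀ x := fun x hx =>
    (IntermediateField.adjoin_le_iff (T := separableClosure K₀ L)).2 h2 hx
  have h4 : Algebra.IsSeparable K₀ K' := 
    (IntermediateField.isSeparable_adjoin_iff_isSeparable K₀ L).2 h2
  have h5 : Normal K₀ K' := normal_iff.2 fun x => ⟨Algebra.IsSeparable.isIntegral K₀ x, by
    rw [IntermediateField.minpoly_eq]
    refine IntermediateField.splits_of_mem_adjoin K₀ L (fun y hy => ⟨(h2 y hy).isIntegral, ?_⟩) x.2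
    obtain ⟨c, rfl⟩ := hy
    let φ : k →+* K' := (algebraMap k L).codRestrict K' fun c =>
      IntermediateField.subset_adjoin _ _ ⟨c, rfl⟩
    have a1 := (Normal.splits (inferInstance : Normal k₀ k) c).map φ
    have a2 : minpoly K₀ (algebraMap k L c) ∣ (minpoly k₀ c).map (algebraMap k₀ K₀) :=
      minpoly.dvd _ _ (by
        rw [Polynomial.aeval_map_algebraMap, Polynomial.aeval_algebraMap_apply, minpoly.aeval,
          map_zero])
    refine a1.of_dvd (Polynomial.map_ne_zero (Polynomial.map_ne_zero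
      (minpoly.ne_zero (Algebra.IsSeparable.isIntegral k₀ c)))) ?_
    have a3 := Polynomial.map_dvd (algebraMap K₀ K') a2
    rw [Polynomial.map_map] at a3 ⊢
    exact a3⟩
  have : IsGalois K₀ K' := {}
  have h6 : ∀ σ : K' ≃ₐ[K₀] K', ∃ g : SA k L, ∀ x : K', g • (x : L) = σ x := fun σ => by
    obtain ⟨e, he⟩ : ∃ e : L ≃+* L, ∀ x : K', e x = σ x := by
      rcases hL with hL | hL
      · exact Gal.exists_ext (L := L) σ.toRingEquiv
      · have h7 : ∀ x, x ∈ K' := fun x => (h1 x).1 (hL ▸ IntermediateField.mem_top)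
        let a : K' ≃+* L := RingEquiv.ofBijective K'.val
          ⟨Subtype.val_injective, fun x => ⟨⟨x, h7 x⟩, rfl⟩⟩
        exact ⟨(a.symm.trans σ.toRingEquiv).trans a, fun x =>
          congrArg (fun y => a (σ y)) (a.symm_apply_apply x)⟩
    obtain ⟨g, rfl⟩ := Gal.exists_sa h0 e fun c hc =>
      (he (algebraMap K₀ K' ⟨_, hf.cst c hc⟩)).trans (congrArg Subtype.val (σ.commutes _))
    exact ⟨g, he⟩
  have h8 : ∀ x ∈ K, (∀ g : SA k L, Fx K₀ g → g • x = x) → x ∈ K₀ := fun x hx h => by
    obtain ⟨y, hy⟩ := (InfiniteGalois.mem_range_algebraMap_iff_fixed (k := K₀)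
      (⟨x, (h1 x).1 hx⟩ : K')).2 fun σ => by
        obtain ⟨g, hg⟩ := h6 σ
        refine Subtype.ext ((hg _).symm.trans (h g fun y hy => ?_))
        exact (hg (algebraMap K₀ K' ⟨y, hy⟩)).trans (congrArg Subtype.val (σ.commutes _))
    have e : (y : L) = x := congrArg Subtype.val hy
    exact e ▸ y.2
  have h9 : ∀ x ∈ K, x ∈ span k (K₀ : Set L) := fun x hx => by
    have h : x ∈ K'.toSubalgebra := (h1 x).1 hx
    rw [IntermediateField.adjoin_toSubalgebra_of_isAlgebraic
      fun y hy => (h2 y hy).isIntegral.isAlgebraic] at h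
    clear hx
    induction h using Algebra.adjoin_induction with
    | mem y hy =>
      obtain ⟨c, rfl⟩ := hy
      rw [Algebra.algebraMap_eq_smul_one]
      exact smul_mem _ _ (subset_span K₀.one_mem)
    | algebraMap y => exact subset_span y.2
    | add y z _ _ hy hz => exact add_mem hy hz
    | mul y z _ _ hy hz =>
      have a1 := mul_mem_mul hy hz
      rw [span_mul_span] at a1
      refine span_mono ?_ a1
      rintro _ ⟨a, ha, b, hb, rfl⟩
      exact K₀.mul_mem ha hb
  refine ⟨hf.eq, fun x hx => (h3 x ((h1 x).1 hx)).isIntegral.isAlgebraic, h8, fun V hV hs => ?_⟩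
  have e := Tw.speiser (Γ := {γ : Tw k L | ∀ x ∈ K₀, γ.g x = x}) (V := V)
    (fun γ hγ x hx => hs ⟨γ.g, γ.τ, γ.alg⟩ hγ x hx)
    fun x hx => span_mono (fun y hy γ hγ => hγ y hy) (h9 x (hV x hx))
  refine e.ge.trans (span_mono fun x hx => ⟨hx.1, h8 x (hV x hx.1) fun g hg => ?_⟩)
  exact hx.2 ⟨g.σ, g.e, g.map⟩ hg

end Pool.Agent.MP_19ffc6_ag.Res.P
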