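import Pool.Agent.MP_19ffc6_ag.Res.PStep2
import Pool.Agent.MP_19ffc6_ag.Res.PAct
import Pool.Agent.MP_19ffc6_ag.Res.PGal
import Pool.Agent.MP_19ffc6_ag.Res.PFrame

/-! PROJECT RESP: the rational tame projection theorem over a finite field from stage F. -/

namespace Pool.Agent.MP_19ffc6_ag.Res.P

open PA PF MvPolynomial

variable {k : Type} [Field k] {m C : ℕ}

theorem lt_card_of_big (k₀ : Subfield k) [Fintype k₀] (h : Big k C) : C < Fintype.card k₀ :=
  not_le.1 fun hc => h _ Fintype.card_pos hc (by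
    rw [← map_natCast k₀.subtype, FiniteField.cast_card_eq_zero, map_zero])

theorem aeval_map_mem {K ι : Type} [Field K] [Algebra k K] {k₀ : Subfield k} {K₀ : Subfield K}
    (h : ∀ c ∈ k₀, algebraMap k K c ∈ K₀) {v : ι → K} (hv : ∀ i, v i ∈ K₀)
    (P : MvPolynomial ι k₀) : aeval v (map (algebraMap k₀ k) P) ∈ K₀ := by
  induction P using MvPolynomial.induction_on with
  | C c => rw [map_C, aeval_C]; exact h _ c.2
  | add p q hp hq => simpa using add_mem hp hq
  | mul_X p i hp => simpa using mul_mem hp (hv i)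

/-- The rational tame projection theorem over a finite field. -/
theorem tpp_fin [IsAlgClosed k] {k₀ : Subfield k} [Finite k₀] (h0 : Gd k₀)
    (hk : Big k (cstF m (2 ^ (m + 1) * mu m))) (hq : Big k (gm m (2 ^ (m + 1) * mu m)))
    (h : ∀ (K : Type) [Field K] [Algebra k K], TPFStmt k K m) :
    TPP k₀ m (cstF m (2 ^ (m + 1) * mu m)) := by
  classical
  intro K _ _ K₀ hf hK hn S hS
  have := Fintype.ofFinite k₀
  have := h0.alg
  have hg := galStmt k₀ K₀ ⊤ h0 hf (Or.inr rfl)
  obtain ⟨t, d, hF, ht⟩ := (frameP (k := k) (K := K) (m := m)).ex K₀ hg hK hn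
  obtain ⟨V, hs, hV⟩ := albP2 (S := S) hg hF ht fun r hr => (hS r hr).1
  obtain ⟨B, h1, h2⟩ := hg.exists_gen ⟨hV.alb.fg, hs, fun _ _ => trivial⟩
  let v : Fin (B.erase 0).card → K := fun i => (B.erase 0).equivFin.symm i
  have h3 : ∀ i, v i ∈ B.erase 0 := fun i => Subtype.prop _
  obtain ⟨P, hP⟩ := h K k₀ t d S _ _ V v hk (lt_card_of_big k₀ hq) hF hV (by
    rw [← h2, ← Submodule.span_sdiff_singleton_zero (s := (B : Set K)), ← Finset.coe_erase]
    congr 1
    exact ((B.erase 0).equivFin.symm.surjective.range_comp Subtype.val).trans Subtype.range_coe)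
    fun i => Finset.ne_of_mem_erase (h3 i)
  have h4 := fun j => aeval_map_mem hf.cst (fun i => h1 _ (Finset.mem_of_mem_erase (h3 i))) (P j)
  exact ⟨_, _, fun i => div_mem (h4 _) (h4 _), div_mem (h4 _) (h4 _), hP⟩

end Pool.Agent.MP_19ffc6_ag.Res.P
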