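import Pool.Agent.MP_19ffc6_ag.Res.PCover
import Pool.Agent.MP_19ffc6_ag.Res.TreeA

/-! PROJECT RESP, module ABSF: the local analysis in the Galois closure, with strict boundary. -/

namespace Pool.Agent.MP_19ffc6_ag.Res.P

open Pool.Agent.MP_19ffc6_ag.Wild Pool.Agent.MP_19ffc6_ag.Lci Pool.Agent.MP_19ffc6_ag.Res.Tor
open Pool.Agent.MP_19ffc6_ag.Res.B Pool.Agent.MP_19ffc6_ag.Res.B.TreeA

variable {k L : Type} [Field k] [Field L] [Algebra k L]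

namespace Abs

/-- A power of the distance to the closest section is a monomial in the boundary. -/
lemma pw_sub {r : ℕ} {R O : Subalgebra k L} {U S : Finset L} {Y β : L} {ξ : Fin r → L}
    (hF : Ful S O ξ) (hR : R ≤ O) (hU : ∀ u ∈ U, u ≠ 0 → LMon R ξ u) (hβ : β ∈ U)
    (hsub : ∀ u ∈ U, β - u ∈ U)
    (hmon : ∀ u ∈ U, Un O ((Y - u) / (Y - β)) ∨ Un O ((Y - u) / (β - u)))
    (hS : ∏ u ∈ U, (Y - u) ∈ S) : Pw S O (Y - β) := by
  classical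
  have h0 : ∏ u ∈ U, (Y - u) ≠ 0 := Finset.prod_ne_zero_iff.2 fun u hu e => by
    rcases hmon u hu with h | h <;> exact h.2.1 (by rw [e, zero_div])
  have h1 : Pw S O (∏ u ∈ U with ¬ Un O ((Y - u) / (Y - β)), (Y - u)) := Pw.prod _ fun u hu => by
    obtain ⟨hu, h⟩ := Finset.mem_filter.1 hu
    have h2 := (hmon u hu).resolve_left h
    obtain ⟨a, ha⟩ := hU _ (hsub u hu) fun e => h2.2.1 (by rw [e, div_zero])
    exact ((hF.mn a).of_div (ha.mono hR)).of_div h2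
  have h2 := (Pw.of_mem (O := O) hS h0).div h1
  rw [← Finset.prod_filter_mul_prod_filter_not U fun u => Un O ((Y - u) / (Y - β)),
    mul_div_cancel_right₀ _ h1.ne] at h2
  refine Pw.of_pow (n := (U.filter fun u => Un O ((Y - u) / (Y - β))).card)
    (Finset.card_ne_zero.2 ⟨β, Finset.mem_filter.2 ⟨hβ, ?_⟩⟩) (h2.of_div' ?_)
  · exact (hmon β hβ).resolve_right fun h => h.2.1 (by rw [sub_self, div_zero])
  · rw [← Finset.prod_const, ← Finset.prod_div_distrib]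
    exact un_prod _ _ fun u hu => (Finset.mem_filter.1 hu).2

variable {G : Type} [Group G] [MulSemiringAction G L] [SMulCommClass G k L] {n r s : ℕ}
  {K : IntermediateField k L} {D D₁ R O : Subalgebra k L} {U S S' : Finset L}
  {V : AddSubgroup L} {Y β a : L} {ξ : Fin r → L} {t : Fin s → L}

/-- The point of the tree of discs upstairs is toroidal with strict coordinates. -/
theorem upF (ha : Aff n K D₁ R) (hp : B.Par n S R ξ t) (hD : D ≤ R) (hV : ∀ u, u ∈ V ↔ u ∈ U)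
    (h1 : 1 ∈ U) (hUK : ∀ u ∈ U, u ∈ K) (hU : ∀ u ∈ U, u ≠ 0 → LMon R ξ u)
    (hco : ∀ c, mn ξ c ∈ R → 0 ≤ c) (hY : Transcendental K Y)
    (htop : K ⊔ IntermediateField.adjoin k {Y} = ⊤) (haJ : a ∈ Jm k U Y) (ha0 : a ≠ 0)
    (hO : IsPoint (icl ⊤ (chart D (Jm k U Y) a)) O) (hr : Rt O) (h : TD R O V Y)
    (hβ : Close O V Y β) (hS : ∀ f, f ∈ S' ↔ f ∈ S ∨ f = Y ∨ f = ∏ u ∈ U, (Y - u))
    (hχ : ∀ (g : G) i, ∃ c : k, g • ξ i = c • ξ i) (ht : ∀ (g : G) j, g • t j = t j)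
    (hYg : ∀ g : G, g • Y = Y) (hVg : ∀ g : G, ∀ v ∈ V, g • v ∈ V)
    (hβg : ∀ g : G, g • O = O → g • β = β) (hF : Ful S' O ξ) :
    ∃ (ι : Type) (_ : Fintype ι) (r' s' : ℕ) (τ : Typ ι r') (z : Fin r' → L) (t' : Fin s' → L),
      TP (n + 1) O τ z t' ∧ Sees S' O τ z ∧ Ful S' O z ∧ (∀ i, Str G O (z i)) ∧
        ∀ g : G, g • O = O → ∀ j, g • t' j = t' j := by
  have hb := TreeM.sub_ne h hβ.1
  have hRO := h.dom.1
  have hξ0 : ∀ i, ξ i ≠ 0 := fun i => (hp.xm i).2.1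
  have hm0 := mn_ne_zero hξ0
  have h0 : (0 : L) ∈ U := (hV 0).1 (zero_mem _)
  have B : Disc.Base n ⊤ (chart D (Jm k U Y) a) D₁ R O ξ t :=
    ⟨trdeg_top ha.deg hY htop, hp.card, ha.fg, le_top, ha.pt,
      fun x hx => (ha.rt x hx).imp fun c hc => hp.gen _ (sub_mem hx (R.algebraMap_mem c)) hc,
      h.dom, fun i => ⟨(hp.xm i).1, hξ0 i, fun hu => (hp.xm i).2.2 (h.dom.2 _ (hp.xm i).1 hu)⟩,
      fun j => ⟨(hp.tm j).1, fun hu => (hp.tm j).2 (h.dom.2 _ (hp.tm j).1 hu)⟩, hO, hr⟩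
  -- the chart of the tree lies in every dominated ring that contains the local chart
  have k0 : ∀ {C O₂ : Subalgebra k L}, Out R O V Y β C → C ≤ O₂ → Lcl O₂ → Dom O₂ O →
      chart D (Jm k U Y) a ≤ O₂ := fun {C O₂} ho hC hl hd =>
    Disc.chart_Jm_le hl (hD.trans (ho.base.trans hC)) hd h0 h1
      (by simpa using TreeM.sub_ne h (zero_mem V)) (fun u hu v hv hv0 =>
        (h.cmpY u ((hV u).2 hu) v ((hV v).2 hv) hv0).imp
          (fun e => loc_le_of_dom hC hd (ho.rat _ ⟨e, u, (hV u).2 hu, v, (hV v).2 hv, hv0, .inl rfl⟩))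
          fun e => loc_le_of_dom hC hd (ho.rat _ ⟨e, u, (hV u).2 hu, v, (hV v).2 hv, hv0, .inr rfl⟩))
      haJ ha0 ((le_icl le_top).trans hO.le)
  have kf : ∀ {u : L}, (∀ Z : IntermediateField k L, K ≤ Z → u ∈ Z → Y - β ∈ Z) →
      ⊤ ≤ IntermediateField.adjoin k (R ∪ {u}) := fun {u} hu => by
    have h2 : K ≤ IntermediateField.adjoin k (R ∪ {u}) := fun x hx => by
      obtain ⟨b, hb, hb0, hbx⟩ := ha.frac x hx
      rw [show x = b * x / b by field_simp]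
      exact div_mem (IntermediateField.subset_adjoin _ _ (Or.inl (ha.pt.le hbx)))
        (IntermediateField.subset_adjoin _ _ (Or.inl (ha.pt.le hb)))
    rw [← htop]
    refine sup_le h2 (IntermediateField.adjoin_le_iff.2 (Set.singleton_subset_iff.2 ?_))
    simpa using add_mem (hu _ h2 (IntermediateField.subset_adjoin _ _ (Or.inr rfl)))
      (h2 (hUK β ((hV β).1 hβ.1)))
  have hmK : ∀ c, mn ξ c ∈ K := mn_mem_field fun i => ha.le_field (hp.xm i).1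
  have ks : ∀ {C : Subalgebra k L}, Out R O V Y β C → ∀ {ι : Type} {r' : ℕ} {τ : Typ ι r'}
      {z : Fin r' → L}, (∀ i, z i ≠ 0) → ∀ (em : (Fin r → ℤ) → Fin r' → ℤ),
      (∀ a, mn z (em a) = mn ξ a) → ∀ e, Un O ((Y - β) / mn z e) →
      (∀ ρ ∈ τ.R, (∃ i, ∀ a, τ.ev (em a) ρ = a i) ∨ ((∀ a, τ.ev (em a) ρ = 0) ∧ τ.ev e ρ ≠ 0)) →
      Sees S' O τ z := fun ho _ _ _ _ hz =>
    sees_of hz hp hRO hU h0 ((hV β).1 hβ.1) (fun u hu => (hV _).1 (sub_mem hβ.1 ((hV u).2 hu))) hb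
      (fun u hu => (ho.mon u ((hV u).2 hu)).imp (·.mono (loc_le ho.le)) (·.mono (loc_le ho.le))) hS
  have pY : ∀ {C : Subalgebra k L}, Out R O V Y β C → ∀ c, Pw S' O ((Y - β) / mn ξ c) :=
    fun ho c => (pw_sub hF hRO hU ((hV β).1 hβ.1)
      (fun u hu => (hV _).1 (sub_mem hβ.1 ((hV u).2 hu)))
      (fun u hu => (ho.mon u ((hV u).2 hu)).imp (·.mono (loc_le ho.le)) (·.mono (loc_le ho.le)))
      ((hS _).2 (Or.inr (Or.inr rfl)))).div (hF.mn c)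
  have sξ : ∀ i, Str G O (ξ i) := fun i => .of_semi (hξ0 i) fun g => hχ g i
  have sY : ∀ c, Str G O ((Y - β) / mn ξ c) := fun c => Str.div (.of_div_smul hb fun g => by
    rw [smul_sub, hYg]; exact hβ.2 _ (hVg g β hβ.1)) (.mn sξ c)
  have e1 : ∀ {μ : L} {c}, μ ≠ 0 → (Y - β) / μ = (Y - β) / mn ξ c * (μ / mn ξ c)⁻¹ :=
    fun {μ c} hμ => by have := hm0 c; field_simp
  have e2 : ∀ {μ : L} {c}, μ ≠ 0 → (Y - β) / mn ξ c = (Y - β) / μ * (μ / mn ξ c) :=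
    fun hμ => (div_mul_div_cancel₀ hμ).symm
  have ro : ∀ (e : Fin (r + 1) → ℤ), e 0 ≠ 0 → ∀ ρ ∈ (orth (r + 1)).R,
      (∃ i, ∀ a, (orth (r + 1)).ev (Disc.emb r a) ρ = a i) ∨
        ((∀ a, (orth (r + 1)).ev (Disc.emb r a) ρ = 0) ∧ (orth (r + 1)).ev e ρ ≠ 0) :=
    fun e he ρ _ => by
      simp only [ev_orth]
      exact ρ.cases (Or.inr ⟨fun _ => rfl, he⟩) fun i => Or.inl ⟨i, fun _ => rfl⟩
  rcases h.kind hβ with ⟨μ, hμ, hμ0, hu, ho⟩ | ⟨μ, hμ, hμ0, -, hu, ho⟩ | ⟨μ, hμ, hμ0, -, hu, ho⟩ |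
    ⟨μ, ν, hμ, hν, hμ0, hν0, hd, hn, -, hu, hw, ho⟩
  all_goals obtain ⟨c, hc⟩ := hU μ ((hV μ).1 hμ) hμ0
  · have h2 : Un O ((Y - β) / mn ξ c) := e2 hμ0 ▸ hu.mul (hc.mono hRO)
    obtain ⟨b, hb'⟩ := hr _ h2.1
    refine ⟨_, inferInstance, _, _, _, _, _,
      B.free ⟨sub_mem h2.1 (O.algebraMap_mem b), hb'⟩ (kf fun Z hZ hx => ?_)
        fun O₂ h3 h4 => k0 ho (adj_le h3 ?_),
      ks ho hξ0 id (fun _ => rfl) c h2 fun i _ => Or.inl ⟨i, fun a => ev_orth a i⟩, hF, sξ,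
      fun g hg => Fin.cases ?_ (ht g)⟩
    · simpa [hm0 c] using mul_mem (add_mem hx (Z.algebraMap_mem b)) (hZ (hmK c))
    · rw [e1 hμ0]
      exact mul_mem (by simpa using add_mem h4 (O₂.algebraMap_mem b)) (h3 hc.2.2)
    · obtain ⟨d, hd⟩ := semi_mn (hχ g) c
      rw [Fin.cons_zero, smul_sub, smul_algebraMap, fix_of_semi h.lcl hr hg h2 (c := d⁻¹)]
      rw [smul_div₀', smul_sub, hYg, hβg g hg, hd, Algebra.smul_def, Algebra.smul_def, map_inv₀,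
        div_mul_eq_div_div_swap, div_eq_inv_mul _ (algebraMap k L d)]
  · have h2 : (Y - β) / mn ξ c ∈ O := e2 hμ0 ▸ mul_mem (ho.le (self_mem_adj _ _)) (hRO hc.1)
    have h3 : (Y - β) / mn ξ c ≠ 0 := div_ne_zero hb (hm0 c)
    refine ⟨_, inferInstance, _, _, _, _, _,
      B.sect ⟨h2, fun h4 => hu (e1 hμ0 ▸ h4.mul (hc.mono hRO).inv)⟩ h3 (kf fun Z hZ hx => ?_)
        fun O₂ h3 h4 => k0 ho (adj_le h3 (e1 hμ0 ▸ mul_mem h4 (h3 hc.2.2))),
      ks ho (Fin.cases h3 hξ0) _ (Disc.mn_emb _ _) (Fin.cons 1 c) ?_ (ro _ one_ne_zero),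
      Fin.cases (pY ho c) hF, Fin.cases (sY c) sξ, fun g _ => ht g⟩
    · simpa [hm0 c] using mul_mem hx (hZ (hmK c))
    · rw [Disc.mn_cons, zpow_one, div_mul_cancel₀ _ (hm0 c), div_self hb]; exact Un.one _
  · have e3 : ((Y - β) / mn ξ c)⁻¹ = μ / (Y - β) * (μ / mn ξ c)⁻¹ := by field_simp
    have e4 : μ / (Y - β) = ((Y - β) / mn ξ c)⁻¹ * (μ / mn ξ c) := by have := hm0 c; field_simp
    have h2 : ((Y - β) / mn ξ c)⁻¹ ∈ O := e3 ▸ mul_mem (ho.le (self_mem_adj _ _)) (hRO hc.2.2)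
    have h3 : ((Y - β) / mn ξ c)⁻¹ ≠ 0 := inv_ne_zero (div_ne_zero hb (hm0 c))
    refine ⟨_, inferInstance, _, _, _, _, _,
      B.sect ⟨h2, fun h4 => hu (e4 ▸ h4.mul (hc.mono hRO))⟩ h3 (kf fun Z hZ hx => ?_)
        fun O₂ h3 h4 => k0 ho (adj_le h3 (e4 ▸ mul_mem h4 (h3 hc.1))),
      ks ho (Fin.cases h3 hξ0) _ (Disc.mn_emb _ _) (Fin.cons (-1) c) ?_ (ro _ (by simp)),
      Fin.cases (pY ho c).inv hF, Fin.cases (sY c).inv sξ, fun g _ => ht g⟩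
    · simpa [hm0 c] using mul_mem (inv_mem hx) (hZ (hmK c))
    · rw [Disc.mn_cons, zpow_neg_one, inv_inv, div_mul_cancel₀ _ (hm0 c), div_self hb]
      exact Un.one _
  · obtain ⟨c', hc'⟩ := hU ν ((hV ν).1 hν) hν0
    have h2 : (Y - β) / mn ξ c ∈ O :=
      e2 hμ0 ▸ mul_mem (ho.le (le_adj _ _ (self_mem_adj _ _))) (hRO hc.1)
    have h3 : (Y - β) / mn ξ c ≠ 0 := div_ne_zero hb (hm0 c)
    have h5 : Un R (ν / μ / mn ξ (c' - c)) := by
      have := un_div hc' hc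
      rwa [div_div_div_comm, ← mn_sub hξ0] at this
    have e3 : mn ξ (c' - c) / ((Y - β) / mn ξ c) = ν / (Y - β) * (ν / mn ξ c')⁻¹ := by
      have := hm0 c; rw [mn_sub hξ0]; field_simp
    have e4 : ν / (Y - β) = mn ξ (c' - c) / ((Y - β) / mn ξ c) * (ν / mn ξ c') := by
      have := hm0 c; have := hm0 c'; rw [mn_sub hξ0]; field_simp
    refine ⟨_, inferInstance, _, _, _, _, _,
      B.nod (c := c' - c) (hco _ ?_) (fun e => hn (by simpa [e, mn_zero] using h5))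
        ⟨h2, fun h4 => hu (e1 hμ0 ▸ h4.mul (hc.mono hRO).inv)⟩ h3
        ⟨e3 ▸ mul_mem (ho.le (self_mem_adj _ _)) (hRO hc'.2.2),
          fun h4 => hw (e4 ▸ h4.mul (hc'.mono hRO))⟩ (kf fun Z hZ hx => ?_)
        fun O₂ h3 h4 h6 => k0 ho (adj_le (adj_le h3 (e1 hμ0 ▸ mul_mem h4 (h3 hc.2.2)))
          (e4 ▸ mul_mem h6 (h3 hc'.1))),
      ks ho (Fin.cases h3 hξ0) _ (Disc.mn_emb _ _) (Fin.cons 1 c) ?_ ?_,
      Fin.cases (pY ho c) hF, Fin.cases (sY c) sξ, fun g _ => ht g⟩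
    · have := mul_mem hd h5.2.2
      rwa [inv_div, mul_div_cancel₀ _ (div_ne_zero hν0 hμ0)] at this
    · simpa [hm0 c] using mul_mem hx (hZ (hmK c))
    · rw [Disc.mn_cons, zpow_one, div_mul_cancel₀ _ (hm0 c), div_self hb]; exact Un.one _
    · rintro (i | i) -
      · exact Or.inl ⟨i, fun a => Disc.ev_inl _ _⟩
      · exact Or.inl ⟨i, fun a => by simp [Disc.ev_inr, Disc.emb]⟩

end Abs

open Abs in
/-- The local statement in the Galois closure. -/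
theorem absF [IsAlgClosed k] (hM : MonStmt k L) : AbsF k L := by
  intro G _ _ _ _ n m F K Y U S S' D R O r s x ξ t h hx ho
  obtain ⟨a, ha, ha0, hO⟩ := ho.pt
  have hF : ∀ z ∈ F, ∀ g : G, g • z = z := fun z hz =>
    (h.fix z).1 ((le_sup_left : F ≤ _) hz)
  have hY : ∀ g : G, g • Y = Y := (h.fix Y).1
    ((le_sup_right : _ ≤ F ⊔ _) (IntermediateField.subset_adjoin _ _ rfl))
  have hR : ∀ z ∈ R, ∀ g : G, g • z = z := fun z hz => hF z (h.aff.le_field hz)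
  have hD := chart_fix h.gal hY (fun z hz => hR z (h.aff.pt.le hz)) ha
  have hDE : chart D (Jm k U Y) a ≤ (F ⊔ IntermediateField.adjoin k {Y}).toSubalgebra :=
    fun z hz => (h.fix z).2 (mem_fix.1 (hD hz)).2
  have hDO := (le_icl hDE).trans hO.le
  obtain ⟨W, hW, hd⟩ := exists_val_dom hO.lcl
  have hW1 : icl ⊤ (chart D (Jm k U Y) a) ≤ W := hW.icl_le (hDO.trans hd.1)
  have hO1 := isPoint_loc hW1 hW.lcl
  have hd1 : Dom O (loc (icl ⊤ (chart D (Jm k U Y) a)) W) :=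
    ⟨hO.le_loc.trans (loc_mono (fun z hz => ⟨trivial, hz.2⟩) hd.1),
      fun z hz hu => hd.2 z hz (hu.mono (loc_le hW1))⟩
  generalize loc (icl ⊤ (chart D (Jm k U Y) a)) W = O₁ at hO1 hd1
  have hr1 : Rt O₁ := ho.rt.of_integral hO.lcl hd1 hO1 fun z hz => isIntegral_mono hDO hz.2
  have hdR := Dom.trans ho.dom hd1
  have hK1 : icl K R ≤ O₁ := fun z hz =>
    IsPoint.mem_of_isIntegral hO1 trivial (isIntegral_mono hdR.1 hz.2)
  have hRK : R ≤ icl K R := le_icl fun z hz => h.le (h.aff.le_field hz)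
  have hP1 := isPoint_loc hK1 hO1.lcl
  have hd2 := dom_loc_of_dom hdR hRK hK1
  obtain ⟨h1, h2, h3, h4, h5⟩ := hM G n m F K Y U S D R _ r s x ξ t h ho.cmp hP1 hd2
  have hH : (Nat.card (MulAction.stabilizer G O₁) : k) ≠ 0 := by
    refine (h.aj _ hP1 hd2).2 _ ?_
    rintro g hg _ ⟨b, hb, c, hc, hu, rfl⟩
    have hst := icl_stable h.st (fun g z hz => (hR z hz g).symm ▸ hz) g
    refine ⟨_, hst b hb, _, hst c hc, ?_, smul_div₀' g b c⟩
    rw [← MulAction.mem_stabilizer_iff.1 hg]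
    exact un_smul_smul.2 hu
  have hT : Transcendental K Y := fun e =>
    h.tr (isAlgebraic_trans (D := F.toSubalgebra) h.le h.alg e)
  have hTD : TD (loc (icl K R) O₁) O₁ (grpU h.one h.sub) Y :=
    ⟨hO1.lcl, dom_loc hK1, U.finite_toSet, ⟨1, h.one, one_ne_zero⟩,
      fun e => h.tr (h.alg Y (h.uK Y e)), h4,
      fun u hu v hv _ => Disc.cmp_of_chart le_top hO1 ha ha0 hu hv trivial⟩
  obtain ⟨β, hβ, hβ'⟩ := exists_avg hTD _ hH (fun g hg => hg) h.gal hY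
  obtain ⟨ι, _, r', s', τ, z, t', e1, e2, e0, e3, e4⟩ := upF (G := G) h1 h2
    (h.aff.pt.le.trans hd2.1) (fun _ => Iff.rfl) h.one h.uK h3 h5 hT h.top ha ha0 hO1 hr1 hTD hβ
    ho.iff h.chi (fun g j => hR _ (h.par.tm j).1 g) hY h.gal hβ'
    fun i => .of_pow h.m0 ((h.root i).2 ▸ ((hx i).mono hdR.1).subset fun f hf =>
      (ho.iff f).2 (Or.inl hf))
  have hQ : Qt G (icl ⊤ (chart D (Jm k U Y) a)) O₁ :=
    ⟨icl_stable (fun _ _ _ => trivial) fun g z hz => ((mem_fix.1 (hD hz)).2 g).symm ▸ hz, hO1, hr1,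
      _, hH, fun g hg => by
        simpa using congrArg Subtype.val
          (pow_card_eq_one' (x := (⟨g, hg⟩ : MulAction.stabilizer G O₁)))⟩
  have hS : ∀ f ∈ S', ∀ g : G, g • f = f := fun f hf g => by
    rcases (ho.iff f).1 hf with hf | rfl | rfl
    exacts [hF f (h.sF f hf) g, hY g, smul_phi h.gal hY g]
  obtain ⟨b, w, t'', e5, -, -, -, e6⟩ := hQ.tp e1 e3 e4
  rw [fix_icl h.fix, ← IsPoint.eq_loc hO hd1] at e5 e6
  refine ⟨ι, inferInstance, r', s', _, w, t'', e5, ⟨fun f hf => ?_, fun ρ hρ => ?_⟩,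
    e0.quot (τ' := τ.sub b) e1.ptd (fun f hf => (h.fix f).2 (hS f hf)) e5.ne fun f hf c hc => ?_⟩
  · obtain ⟨c, hc⟩ := e2.1 f hf
    exact (e6 f c (hS f hf) hc).imp fun _ h => h.2
  · obtain ⟨f, hf, c, hc, h0⟩ := e2.2 ρ hρ
    obtain ⟨e, rfl, he⟩ := e6 f c (hS f hf) hc
    exact ⟨f, hf, e, he, by rwa [ev_lat]⟩
  · obtain ⟨e, rfl, he⟩ := e6 f c ((h.fix f).1 hf) hc
    exact ⟨e, he, fun ρ => ev_lat _ _ _ _⟩

end Pool.Agent.MP_19ffc6_ag.Res.P
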