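import Pool.Agent.MP_19ffc6_ag.Res.PSpec
import Pool.Agent.MP_19ffc6_ag.Res.PTw

/-! PROJECT RESP, module ALBP: the Albanese theorem with a stable linear system. -/

namespace Pool.Agent.MP_19ffc6_ag.Res.P

open PA Submodule

variable {k K : Type} [Field k] [Field K] [Algebra k K] {m : ℕ}

variable (k) in
/-- The twists that fix `K₀`. -/
def tws (K₀ : Subfield K) : Set (Tw k K) := {γ | ∀ x ∈ K₀, γ.g x = x}

theorem mem_fix_tws {K₀ : Subfield K} {x : K} (hx : x ∈ K₀) : x ∈ Tw.Fix (tws k K₀) :=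
  fun _ hγ => hγ x hx

theorem span_fix_tws {K₀ : Subfield K} (hG : Gl (k := k) K₀ ⊤) :
    span k (Tw.Fix (tws k K₀)) = ⊤ :=
  eq_top_iff.2 ((hG.desc ⊤ (fun _ _ => trivial) fun _ _ _ _ => trivial).trans
    (span_mono fun _ hx => mem_fix_tws hx.2))

theorem stb_of_tws {K₀ : Subfield K} {V : Submodule k K} (h : ∀ γ ∈ tws k K₀, γ.cm V = V) :
    Stb K₀ V := fun g hg _ hx => (h ⟨g.σ, g.e, g.map⟩ hg).ge hx

theorem albP (_ : FrameP k K m) : AlbP k K m (2 ^ (m + 1) * mu m) := by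
  intro K₀ t d S hG hF ht hS
  obtain ⟨V, h1, -, h2⟩ := alb_fix (Γ := tws k K₀) (S := S) hF (fun i => mem_fix_tws (ht i))
    (fun r hr => mem_fix_tws (hS r hr).1) (span_fix_tws hG)
  exact ⟨V, stb_of_tws h1, h2⟩

/-- The second half of the module FRAME. -/
theorem frame_com (t : Fin (m + 1) → K) (d : Fin (m + 1) → Derivation k K K) (g : SA k K)
    (hF : Fr t d) (ht : ∀ i, g • t i = t i) (j : Fin (m + 1)) (x : K) :
    d j (g • x) = g • d j x := Tw.com_of_fr (γ := ⟨g.σ, g.e, g.map⟩) hF ht j x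

end Pool.Agent.MP_19ffc6_ag.Res.P
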