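import Pool.Agent.MP_19ffc6_ag.Res.PSpec
import Pool.Agent.MP_19ffc6_ag.Res.Cover
import Pool.Agent.MP_19ffc6_ag.Res.QuotB

/-! PROJECT RESP: spanning sets of monomials and the normalization in a tame cover. -/

namespace Pool.Agent.MP_19ffc6_ag.Res.P

open Pool.Agent.MP_19ffc6_ag.Wild Pool.Agent.MP_19ffc6_ag.Lci Pool.Agent.MP_19ffc6_ag.Res.Tor
open Pool.Agent.MP_19ffc6_ag.Res.B

variable {k W L : Type} [Field k] [Field W] [Field L] [Algebra k W] [Algebra k L]
variable {S S' : Finset L} {O O' : Subalgebra k L} {u v : L}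

namespace Pw

theorem ne (h : Pw S O u) : u ≠ 0 := by
  obtain ⟨N, hN, e, h⟩ := h
  rintro rfl
  exact h.2.1 (by rw [zero_pow hN.ne', zero_div])

theorem of_un (h : Un O u) : Pw S O u := ⟨1, one_pos, 0, by simpa using h⟩

theorem of_mem (h : u ∈ S) (h0 : u ≠ 0) : Pw S O u := by
  classical
  refine ⟨1, one_pos, Pi.single u 1, ?_⟩
  rw [Finset.prod_eq_single u (fun f _ hf => by simp [Pi.single_eq_of_ne hf]) (fun h' => (h' h).elim)]
  simpa [div_self h0] using Un.one O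

theorem of_pow {n : ℕ} (hn : n ≠ 0) (h : Pw S O (u ^ n)) : Pw S O u := by
  obtain ⟨N, hN, e, h⟩ := h
  exact ⟨n * N, Nat.mul_pos (Nat.pos_of_ne_zero hn) hN, e, by rwa [pow_mul]⟩

theorem zpow (h : Pw S O u) (n : ℤ) : Pw S O (u ^ n) := by
  obtain ⟨N, hN, e, h⟩ := h
  refine ⟨N, hN, n • e, ?_⟩
  have := un_zpow h n
  rw [div_zpow, ← Finset.prod_zpow] at this
  simp only [Pi.smul_apply, smul_eq_mul, mul_comm n, zpow_mul]
  rwa [← zpow_natCast, ← zpow_mul, mul_comm, zpow_mul, zpow_natCast]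

theorem pow (h : Pw S O u) (n : ℕ) : Pw S O (u ^ n) := zpow_natCast u n ▸ h.zpow n

theorem inv (h : Pw S O u) : Pw S O u⁻¹ := zpow_neg_one u ▸ h.zpow (-1)

theorem mul (h : Pw S O u) (h' : Pw S O v) : Pw S O (u * v) := by
  obtain ⟨N, hN, e, h⟩ := h
  obtain ⟨N', hN', e', h'⟩ := h'
  have h1 := Finset.prod_ne_zero_iff.1 (div_ne_zero_iff.1 h.2.1).2
  have h2 := Finset.prod_ne_zero_iff.1 (div_ne_zero_iff.1 h'.2.1).2
  refine ⟨N * N', Nat.mul_pos hN hN', fun f => e f * N' + e' f * N, ?_⟩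
  have h3 : ∏ f ∈ S, f ^ (e f * N' + e' f * N) =
      (∏ f ∈ S, f ^ e f) ^ N' * (∏ f ∈ S, f ^ e' f) ^ N := by
    rw [← Finset.prod_pow, ← Finset.prod_pow, ← Finset.prod_mul_distrib]
    refine Finset.prod_congr rfl fun f hf => ?_
    by_cases h0 : f = 0
    · have a1 : e f = 0 := by_contra fun a => h1 f hf (by rw [h0] at a ⊢; exact zero_zpow _ a)
      have a2 : e' f = 0 := by_contra fun a => h2 f hf (by rw [h0] at a ⊢; exact zero_zpow _ a)
      simp [a1, a2]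
    · rw [zpow_add₀ h0, zpow_mul, zpow_mul, zpow_natCast, zpow_natCast]
  have := (h.pow N').mul (h'.pow N)
  rwa [div_pow, div_pow, div_mul_div_comm, ← h3, ← pow_mul, ← pow_mul, mul_comm N' N,
    ← mul_pow] at this

theorem div (h : Pw S O u) (h' : Pw S O v) : Pw S O (u / v) :=
  div_eq_mul_inv u v ▸ h.mul h'.inv

theorem prod {ι : Type*} (s : Finset ι) {f : ι → L} (h : ∀ i ∈ s, Pw S O (f i)) :
    Pw S O (∏ i ∈ s, f i) :=
  Finset.prod_induction f _ (fun _ _ => mul) (of_un (Un.one O)) h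

/-- A unit multiple. -/
theorem of_div (h : Pw S O u) (h' : Un O (v / u)) : Pw S O v :=
  div_mul_cancel₀ v h.ne ▸ (of_un h').mul h

theorem of_div' (h : Pw S O u) (h' : Un O (u / v)) : Pw S O v :=
  h.of_div (inv_div u v ▸ h'.inv)

theorem mono (h : Pw S O u) (hO : O ≤ O') : Pw S O' u :=
  let ⟨N, hN, e, h⟩ := h; ⟨N, hN, e, h.mono hO⟩

theorem prod_zpow {e : L → ℤ} (h : ∏ f ∈ S, f ^ e f ≠ 0) (H : ∀ f ∈ S, f ≠ 0 → Pw S' O f) :
    Pw S' O (∏ f ∈ S, f ^ e f) :=
  prod _ fun f hf => by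
    by_cases h0 : f = 0
    · have a1 : e f = 0 := by_contra fun a =>
        Finset.prod_ne_zero_iff.1 h f hf (by rw [h0] at a ⊢; exact zero_zpow _ a)
      rw [a1, zpow_zero]; exact of_un (Un.one O)
    · exact (H f hf h0).zpow _

theorem trans (h : Pw S O u) (H : ∀ f ∈ S, f ≠ 0 → Pw S' O f) : Pw S' O u := by
  obtain ⟨N, hN, e, h⟩ := h
  exact of_pow hN.ne' ((prod_zpow (div_ne_zero_iff.1 h.2.1).2 H).of_div h)

theorem subset (h : Pw S O u) (H : S ⊆ S') : Pw S' O u :=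
  h.trans fun _ hf h0 => of_mem (H hf) h0

end Pw

theorem pw_map [DecidableEq L] (j : W →ₐ[k] L) {S : Finset W} {O : Subalgebra k W} {u : W} :
    Pw (S.image j) (O.map j) (j u) ↔ Pw S O u := by
  have hj : Function.Injective j := j.injective
  have e1 : ∀ (N : ℕ) (e : L → ℤ), j u ^ N / ∏ f ∈ S.image j, f ^ e f =
      j (u ^ N / ∏ f ∈ S, f ^ e (j f)) := fun N e => by
    rw [Finset.prod_image hj.injOn]
    simp only [map_div₀, map_pow, map_prod, map_zpow₀]
  refine ⟨fun ⟨N, hN, e, h⟩ => ⟨N, hN, _, (un_map j).1 (e1 N e ▸ h)⟩, fun ⟨N, hN, e, h⟩ =>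
    ⟨N, hN, Function.extend j e 0, ?_⟩⟩
  rw [e1, un_map]
  simpa only [hj.extend_apply] using h

section Ful

variable {ι : Type} {z : ι → L}

theorem Ful.mono (h : Ful S O z) (hO : O ≤ O') : Ful S O' z := fun i => (h i).mono hO

theorem Ful.subset (h : Ful S O z) (H : S ⊆ S') : Ful S' O z := fun i => (h i).subset H

theorem Ful.mn [Fintype ι] (h : Ful S O z) (c : ι → ℤ) : Pw S O (mn z c) :=
  Pw.prod _ fun i _ => (h i).zpow _

theorem Ful.lmon [Fintype ι] (h : Ful S O z) (hu : LMon O z u) : Pw S O u :=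
  let ⟨c, hc⟩ := hu; (h.mn c).of_div hc

theorem ful_map [DecidableEq L] (j : W →ₐ[k] L) {S : Finset W} {O : Subalgebra k W} {z : ι → W} :
    Ful (S.image j) (O.map j) (j ∘ z) ↔ Ful S O z := forall_congr' fun _ => pw_map j

/-- It is enough to span a sublattice of full rank. -/
theorem ful_of_indep {r : ℕ} {w : Fin r → L} (h0 : ∀ i, w i ≠ 0) (c : Fin r → Fin r → ℤ)
    (hc : ∀ a : Fin r → ℤ, ∑ i, a i • c i = 0 → a = 0) (h : ∀ i, Pw S O (mn w (c i))) :
    Ful S O w := by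
  classical
  have hd : (Matrix.of c).det ≠ 0 := fun e => by
    obtain ⟨a, ha, e'⟩ := Matrix.exists_vecMul_eq_zero_iff.2 e
    exact ha (hc a (by rw [← e', Matrix.vecMul_eq_sum]; rfl))
  have key : ∀ (s : Finset (Fin r)) (a : Fin r → ℤ), Pw S O (mn w (∑ i ∈ s, a i • c i)) :=
    fun s a => by
      induction s using Finset.induction_on with
      | empty => rw [Finset.sum_empty, mn_zero]; exact .of_un (Un.one O)
      | insert i s hi ih =>
        rw [Finset.sum_insert hi, mn_add h0, mn_smul]; exact ((h i).zpow _).mul ih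
  intro j
  have e : ∑ i, (Matrix.of c).adjugate j i • c i = Pi.single j (Matrix.of c).det := by
    ext l
    have := congrFun (congrFun (Matrix.adjugate_mul (Matrix.of c)) j) l
    rw [Matrix.mul_apply] at this
    simpa [Matrix.one_apply, Pi.single_apply, eq_comm] using this
  have h1 := key Finset.univ ((Matrix.of c).adjugate j)
  rw [e, mn_single] at h1
  refine Pw.of_pow (Int.natAbs_ne_zero.2 hd) ?_
  rcases Int.natAbs_eq (Matrix.of c).det with h2 | h2
  · rwa [h2, zpow_natCast] at h1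
  · rw [h2, zpow_neg, zpow_natCast] at h1
    exact inv_inv (w j ^ _) ▸ h1.inv

/-- Spanning sets descend to quotients (the conclusion of `QuotStmt`). -/
theorem Ful.quot {r : ℕ} {τ τ' : Typ ι r} {z w : Fin r → L} {K : IntermediateField k L}
    {A : Subalgebra k L} (h : Ful S O z) (hp : τ.Pointed) (hS : ∀ f ∈ S, f ∈ K)
    (h0 : ∀ i, w i ≠ 0)
    (H : ∀ f ∈ K, ∀ c, Un O (f / Lci.mn z c) →
      ∃ c', Un A (f / Lci.mn w c') ∧ ∀ ρ, τ'.ev c' ρ = τ.ev c ρ) : Ful S A w := by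
  classical
  choose N hN e he using h
  choose c h1 h2 using fun i => H (∏ f ∈ S, f ^ e i f) (prod_mem fun f hf => zpow_mem (hS f hf) _)
    (Pi.single i (N i)) (by rw [mn_single, zpow_natCast, ← inv_div]; exact (he i).inv)
  refine ful_of_indep h0 c (fun a ha => ?_) fun i => (Pw.prod_zpow
    (div_ne_zero_iff.1 (he i).2.1).2 fun f hf h => .of_mem hf h).of_div' (h1 i)
  have h3 := hp (∑ i, a i • Pi.single i (N i : ℤ)) fun ρ _ => by
    have := congrArg (τ'.ev · ρ) ha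
    simp only [Typ.ev_sum, Typ.ev_smul, Typ.ev_zero, h2] at this ⊢
    exact this
  ext i
  have := congrFun h3 i
  simp only [Finset.sum_apply, Pi.smul_apply, Pi.single_apply, smul_eq_mul, mul_ite, mul_zero,
    Finset.sum_ite_eq, Finset.mem_univ, if_true, Pi.zero_apply] at this
  exact (mul_eq_zero.1 this).resolve_right (by exact_mod_cast (hN i).ne')

end Ful

/-- Spanning sets lift to the Kummer cover. -/
theorem ful_up [DecidableEq L] {n m r s : ℕ} {F E : IntermediateField k L}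
    {N : IntermediateField F L} {S T : Finset L} {D R : Subalgebra k L} {x : Fin r → L}
    {t : Fin s → L} {W : IntermediateField E L} {K₁ : IntermediateField k W} {S₁ : Finset W}
    {D₁ R₁ : Subalgebra k W} {ξ : Fin r → W} {t₁ : Fin s → W}
    (h : Up n m N S T D R x t W K₁ S₁ D₁ R₁ ξ t₁) (hm : m ≠ 0) (hf : Ful S R x) :
    Ful S₁ R₁ ξ := fun i => by
  refine Pw.of_pow hm ((pw_map (vl W)).1 ?_)
  rw [← h.eS, ← h.eR, map_pow, vl_apply, h.pow]
  exact hf i

/-- Module COVERP. -/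
theorem coverP [IsAlgClosed k] [IsAlgClosed L] (hN : NormP k L) : CoverP k L := by
  classical
  intro n m K₀ E K N S T S' M hG hm hK hn hEK hKN hTK hT hO hS' hst ⟨hM, hS⟩
  obtain rfl : S' = S ∪ T := Finset.ext fun f => (hS' f).trans Finset.mem_union.symm
  have := hT.fin
  have halg : ∀ y ∈ K, IsAlgebraic E y := fun y hy =>
    (isAlgebraic_algebraMap_iff (algebraMap N L).injective).2
      (Algebra.IsAlgebraic.isAlgebraic (⟨y, hKN y hy⟩ : N))
  obtain ⟨M', hst', hM', hpt⟩ := hN K₀ E K M hG hM hst hEK hK halg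
  refine ⟨M', hst', hM', fun A hA hr => ?_⟩
  obtain ⟨R, hR, hd, hp⟩ := hpt A hA
  have hRr : Rt R := hr.of_le hd.1
  obtain ⟨D, hD⟩ := hM.aff hn hR hRr
  obtain ⟨r, s, x, t, hP, hF⟩ := hS R hR hRr
  obtain ⟨W, K₁, S₁, D₁, R₁, ξ, t₁, h⟩ := exists_up hm hT hO (fun f hf => hKN f (hTK f hf)) le_rfl
    (fun _ h _ => h) hD hP
  have := h.fin
  have := h.gal
  have hF₁ := ful_up h (by rintro rfl; exact hm Nat.cast_zero) hF
  obtain rfl : K₁ = ⊤ := h.top _ le_rfl fun y hy => h.mem y (N.algebraMap_mem ⟨y, hy⟩)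
  have w1 : ∀ y ∈ K, y ∈ (vl W).range := fun y hy => mem_range_vl.2 (h.le y (hKN y hy))
  let K' : IntermediateField E W := (IntermediateField.extendScalars hEK).comap W.val
  have hK' : K = (K'.restrictScalars k).map (vl W) :=
    (IntermediateField.map_comap_eq_self (f := vl W) w1).symm
  obtain ⟨A₁, rfl⟩ := exists_map (vl W) fun y hy => w1 y (hM'.pt_le hA hy)
  obtain ⟨T₁, hT₁⟩ := exists_finset (vl W) fun f hf => w1 f (hTK f hf)
  have hDK : D₁ ≤ (K'.restrictScalars k).toSubalgebra := fun y hy =>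
    hEK (hD.le _ (h.eD ▸ (mem_map_iff (vl W)).2 hy))
  have hRK : R₁ ≤ (K'.restrictScalars k).toSubalgebra := fun y hy =>
    hEK (hD.le_field (h.eR ▸ (mem_map_iff (vl W)).2 hy))
  have hDR : IsPoint D₁ R₁ := (isPoint_map (vl W)).1 (h.eD ▸ h.eR ▸ hD.pt)
  rw [h.eR] at hd hp
  rw [hK', icl_map, isPoint_map] at hp
  rw [dom_map] at hd
  obtain ⟨O, hO1, hO2⟩ := exists_over (D := icl ⊤ A₁) hp.lcl (le_icl le_top) fun _ hy => hy.2
  have hO3 := IsPoint.icl hp le_top hO1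
  rw [icl_icl hRK] at hO3
  obtain ⟨a1, a2, a3, -, a5⟩ := h.pt O hO3 (Dom.trans hd hO2)
  have hfx : ∀ y, y ∈ K'.restrictScalars k ↔ ∀ g : K'.fixingSubgroup, g • y = y := fun y => by
    rw [IntermediateField.mem_restrictScalars]
    conv_lhs => rw [← IsGalois.fixedField_fixingSubgroup K']
    rfl
  obtain ⟨τ, w, t', e1, e2, e3⟩ := quotB K'.fixingSubgroup n (K'.restrictScalars k) D₁ O (Fin r) r s
    (orth r) ξ t₁ hfx (by rw [← trdeg_map (vl W), ← hK', ← trdeg_eq_of_le hEK hKN, hn])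
    ((fg_field_map (vl W)).1 (hK' ▸ hK)) ((fg_map (vl W)).1 (h.eD ▸ hD.fg)) hDK
    (fun y _ => a1.isAlgebraic_icl y trivial) a1.pt a1.rt
    (fun H hH => by
      rw [Nat.card_congr (H.equivMapOfInjective _ K'.fixingSubgroup.subtype_injective).toEquiv]
      exact a5 _ (by rintro _ ⟨g, hg, rfl⟩; exact hH g hg)) a2.tp
    (fun i => Or.inl fun g => by
      obtain ⟨c, hc⟩ := h.chi g i
      rw [Subgroup.smul_def, hc, smul_div_assoc, div_self (a2.xm i).2.1]
      exact O.smul_mem (one_mem _) c)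
    (fun g _ => ⟨fun i => h.chi g i, fun j => (hfx _).1
      (hEK (hD.le_field (h.et ▸ (hP.tm j).1 :))) g⟩)
  rw [← IsPoint.eq_loc (IsPoint.icl hDR hDK hp) hO2] at e2 e3
  have hSK : ∀ f ∈ S₁, f ∈ K'.restrictScalars k := fun f hf =>
    (hP.cmp _ (h.eS ▸ Finset.mem_image_of_mem (vl W) hf)).elim (fun h' => hEK (hD.le_field h'))
      fun h' => hEK (inv_inv (vl W f) ▸ E.inv_mem (hD.le_field h'))
  refine ⟨Fin r, inferInstance, r, s, τ, vl W ∘ w, vl W ∘ t', e2.map _, ?_⟩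
  rw [h.eS, hT₁, ← Finset.image_union]
  refine ⟨Sees.map _ ⟨fun f hf => ?_, fun ρ _ => ?_⟩, (ful_map _).2 (((hF₁.mono
    (hd.1.trans hO2.1)).quot a2.tp.ptd hSK e2.ne e3).subset Finset.subset_union_left)⟩
  · rcases Finset.mem_union.1 hf with hf | hf
    · obtain ⟨c, hc⟩ := a2.mon f hf
      exact (e3 f (hSK f hf) c hc).imp fun _ h => h.1
    · have h1 : (f : L) ∈ T := hT₁ ▸ Finset.mem_image_of_mem (vl W) hf
      obtain ⟨c, hc⟩ := a3 f h1
      exact (e3 f (hTK _ h1) c hc).imp fun _ h => h.1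
  · obtain ⟨f, hf, c, hc, h0⟩ := a2.sees ρ
    obtain ⟨c', h1, h2⟩ := e3 f (hSK f hf) c hc
    exact ⟨f, Finset.mem_union_left _ hf, c', h1, by rwa [h2, ev_orth]⟩

end Pool.Agent.MP_19ffc6_ag.Res.P
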