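import Pool.Agent.MP_19ffc6_ag.Res.PSpec
import Pool.Agent.MP_19ffc6_ag.Res.Gen
import Pool.Agent.MP_19ffc6_ag.Res.Out

/-! PROJECT RESP, modules GENP and OUTP: a rational good tuple, and the rational output of
part A. -/

namespace Pool.Agent.MP_19ffc6_ag.Res.P

open Pool.Agent.MP_19ffc6_ag.Wild Pool.Agent.MP_19ffc6_ag.Res.PA Submodule

variable {k K : Type} [Field k] [Field K] [Algebra k K] {m : ℕ}

namespace GenQ

theorem stb_pow {K₀ : Subfield K} {V : Submodule k K} (h : Stb K₀ V) (n : ℕ) :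
    Stb K₀ (V ^ n) := by
  intro g hg
  induction n with
  | zero =>
    intro x hx
    rw [pow_zero] at hx ⊢
    obtain ⟨c, rfl⟩ := mem_one.1 hx
    exact mem_one.2 ⟨_, (g.smul_alg c).symm⟩
  | succ n ih =>
    intro x hx
    rw [pow_succ] at hx ⊢
    refine Submodule.mul_induction_on hx (fun a ha b hb => ?_) fun a b ha hb => ?_
    · rw [smul_mul']
      exact mul_mem_mul (ih a ha) (h g hg b hb)
    · rw [smul_add]
      exact add_mem ha hb

theorem g_exists {J : Type} {P : (J → k) → Prop} (k₀ : Subfield k) [Infinite k₀] (h : Gen P) :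
    ∃ l, (∀ i, l i ∈ k₀) ∧ P l := by
  obtain ⟨D, h0, h1⟩ := h
  by_contra hc
  refine h0 (MvPolynomial.funext_set (fun _ => (k₀ : Set k))
    (fun _ => Set.infinite_coe_iff.1 ‹_›) fun l hl => ?_)
  rw [map_zero]
  by_contra h2
  exact hc ⟨l, fun i => hl i trivial, h1 l h2⟩

end GenQ

open GenM in
/-- Module GENP. -/
theorem genP [IsAlgClosed k] (k₀ : Subfield k) [Infinite k₀] (hX : LocXStmt k K m)
    (hW : LocWStmt k K m) (hP : LocPStmt k K m) (hC : CoreStmt k K m) (hB : BpfStmt k K m)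
    (hBa : BaseStmt k K m) (hUn : UniStmt k K m) : GenP K m k₀ := by
  classical
  intro hk K₀ t d S μ V M₀ hf hG₀ hF hA hs hM
  obtain ⟨G, hG⟩ := hA.fg
  have e0 : span k {x | x ∈ V ^ (m + 2) ∧ x ∈ K₀} = V ^ (m + 2) :=
    le_antisymm (span_le.2 fun x hx => hx.1)
      (hG₀.desc _ (fun _ _ => IntermediateField.mem_top) (GenQ.stb_pow hs _))
  obtain ⟨A, hA1, hA2⟩ := (Submodule.fg_span_iff_fg_span_finset_subset _).1
    (e0.symm ▸ hA.fg.pow (m + 2))
  let u : A → K := Subtype.val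
  have hu : span k (Set.range u) = V ^ (m + 2) := by
    rw [← e0, hA2, Subtype.range_coe_subtype]; rfl
  have hne : ∀ σ ∈ G.erase 0, σ ≠ 0 := fun σ h => Finset.ne_of_mem_erase h
  have g1 : Gen fun l : Fin (m + 2) × A → k => ∀ σ ∈ (G.erase 0 : Set K), ∀ T, Hyp V σ T →
      (1 : K) ∉ nn T → At d (cst m μ) {w | w ∈ DD d S V ∧ w.Min V σ} M₀ T
        fun j => tup u l j / σ ^ (m + 2) := by
    refine g_all (Finset.finite_toSet _) fun σ hσ => ?_
    have h0 := hne σ hσ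
    refine g_mono (at_gen (D := {w | w ∈ DD d S V ∧ w.Min V σ}) (μ := μ) hX hW hP hC hB hBa hUn hk
      hF ((fg_span_singleton σ⁻¹).mul hA.fg) (JJ_ne h0 hA.ne) (span_div hu) hM
      (hA.fin.subset fun w hw => hw.1) (fun w hw x hx => ?_) fun T hT => ?_)
      fun l hl T hT h1 => ?_
    · obtain ⟨v, hv, rfl⟩ := Num.mem_pr_mul.1 hx
      exact div_mem_fil hA.fg hw.2 hv
    · have h1 := hA.good σ T (hyp_of_pnt h0 hT)
      exact ⟨h1.1, fun w hw => h1.2 w hw.1 hw.2⟩
    · rw [← tup_div]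
      exact hl T (pnt_of_hyp hT h1)
  obtain ⟨l, a0, a1, a2⟩ := GenQ.g_exists k₀ (g_and g1 (wr_gen hu hA.ne))
  refine ⟨G.erase 0, tup u l, ⟨?_, hne, fun j => ?_, a2, fun σ hσ => a1 σ hσ⟩, fun j => ?_⟩
  · rw [Finset.coe_erase, span_sdiff_singleton_zero, hG]
  · rw [← hu]
    exact sum_mem fun i _ => smul_mem _ _ (subset_span ⟨i, rfl⟩)
  · refine sum_mem fun i _ => ?_
    rw [Algebra.smul_def]
    exact mul_mem (hf.cst _ (a0 _)) (hA1 i.2).2

/-- Module OUTP. -/
theorem outP {k L : Type} [Field k] [Field L] [Algebra k L] [IsAlgClosed k] [IsAlgClosed L] :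
    OutP k L := by
  classical
  intro k₀ m C hC₀ H K₀ K hf hK hn T hT
  have hC : (C.factorial : k) ≠ 0 := by
    rw [← Finset.prod_range_add_one_eq_factorial, Nat.cast_prod]
    exact Finset.prod_ne_zero_iff.2 fun i hi => hC₀ _ i.succ_pos (Finset.mem_range.1 hi)
  have hf' : Form k₀ (K₀.comap (K.val : K →+* L)) (⊤ : IntermediateField k K) := by
    refine ⟨fun c hc => hf.cst c hc, IntermediateField.lift_injective K ?_⟩
    rw [IntermediateField.lift_top, IntermediateField.lift_adjoin]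
    refine hf.eq.trans (congrArg _ (Set.ext fun x => ⟨fun hx => ⟨⟨x, hf.mem hx⟩, hx, rfl⟩, ?_⟩))
    rintro ⟨y, hy, rfl⟩
    exact hy
  have hS : ∀ r ∈ T.subtype (· ∈ K), r ∈ K₀.comap (K.val : K →+* L) ∧ r ≠ 0 := fun r hr =>
    ⟨(hT r (Finset.mem_subtype.1 hr)).1, fun e =>
      (hT r (Finset.mem_subtype.1 hr)).2 (congrArg Subtype.val e)⟩
  obtain ⟨x, y, hx, hy, h⟩ := H K _ hf'
    (IntermediateField.fg_top_iff.2 (IntermediateField.essFiniteType_iff.2 hK)) hn _ hS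
  obtain ⟨h1, h2, N₀, N, Z, h3, h4, h5, h6, h7⟩ :=
    OutA.core hC K.val h (fun r hr => (hS r hr).2) fun _ => rfl
  refine ⟨_, Subfield.closure (algebraMap k L '' k₀ ∪ Set.range fun i => K.val (x i)), _, _, N₀, N,
    Z, ⟨fun c hc => Subfield.subset_closure (Or.inl ⟨c, hc, rfl⟩), le_antisymm ?_ ?_⟩, ?_, hy, hC,
    IntermediateField.fg_adjoin_of_finite (Set.finite_range _), OutA.trdeg_adjoin h1, h2,
    fun a ha => h3 ⟨a, ha⟩, h4, h5, h6,
    fun V hV hF hY hZ => ⟨(h7 V hV hF hY hZ).1, fun f hf' => ?_⟩⟩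
  · exact IntermediateField.adjoin.mono _ _ _ fun a ha => Subfield.subset_closure (Or.inr ha)
  · refine IntermediateField.adjoin_le_iff.2 ((Subfield.closure_le
      (t := (IntermediateField.adjoin k (Set.range fun i => K.val (x i))).toSubfield)).2 ?_)
    rintro a (⟨c, -, rfl⟩ | ha)
    · exact IntermediateField.algebraMap_mem _ c
    · exact IntermediateField.subset_adjoin k _ ha
  · refine Subfield.closure_le.2 ?_
    rintro a (⟨c, hc, rfl⟩ | ⟨i, rfl⟩)
    · exact hf.cst c hc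
    · exact hx i
  · exact (h7 V hV hF hY hZ).2 ⟨f, hf.mem (hT f hf').1⟩ (Finset.mem_subtype.2 hf')

end Pool.Agent.MP_19ffc6_ag.Res.P
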