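import Pool.Agent.MP_19ffc6_ag.Res.Bez
import Pool.Agent.MP_19ffc6_ag.Res.Etale
import Pool.Agent.MP_19ffc6_ag.Res.Tpk

-- ======== part 0: formerly Pool.Agent.MP_19ffc6_ag.Res.LabelA
section MrgPart0

/-! Module LABEL of PROJECT RES, first part: neighbourhoods of points, compactness, monomial
modules over flat extensions, discrete valuation rings. -/

namespace Pool.Agent.MP_19ffc6_ag.Res.Lab

open Pool.Agent.MP_19ffc6_ag.Wild Pool.Agent.MP_19ffc6_ag.Lci B Tor Filter Submodule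

variable {k L : Type} [Field k] [Field L] [Algebra k L]

section Nb

variable {D O O₀ W A : Subalgebra k L} {M : Submodule k L} {x g : L} {T : Set L}

/-- The Zariski neighbourhoods of `O₀` among the points of `D`. -/
def nb (D O₀ : Subalgebra k L) : Filter (Subalgebra k L) where
  sets := {s | ∃ h ∈ D, Un O₀ h ∧ ∀ O, IsPoint D O → Un O h → O ∈ s}
  univ_sets := ⟨1, one_mem _, Un.one _, fun _ _ _ => trivial⟩
  sets_of_superset := fun ⟨h, h1, h2, h3⟩ hs => ⟨h, h1, h2, fun O a b => hs (h3 O a b)⟩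
  inter_sets := fun ⟨h, h1, h2, h3⟩ ⟨h', h1', h2', h3'⟩ =>
    ⟨h * h', mul_mem h1 h1', h2.mul h2', fun O a b =>
      ⟨h3 O a (Un.of_mul (a.le h1) (a.le h1') b),
        h3' O a (Un.of_mul (a.le h1') (a.le h1) (mul_comm h h' ▸ b))⟩⟩

lemma ev_iff {p : Subalgebra k L → Prop} :
    (∀ᶠ O in nb D O₀, p O) ↔ ∃ h ∈ D, Un O₀ h ∧ ∀ O, IsPoint D O → Un O h → p O := Iff.rfl

lemma ev_pt (D O₀ : Subalgebra k L) : ∀ᶠ O in nb D O₀, IsPoint D O :=
  ⟨1, one_mem _, Un.one _, fun _ h _ => h⟩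

lemma ev_span (h : IsPoint D O₀) (hx : x ∈ span O₀ T) :
    ∀ᶠ O : Subalgebra k L in nb D O₀, x ∈ span O T := by
  obtain ⟨c, hc, hu, hx⟩ := (IsPoint.mem_span_iff h).1 hx
  exact ⟨c, hc, hu, fun O hO hu => (IsPoint.mem_span_iff hO).2 ⟨c, hc, hu, hx⟩⟩

lemma ev_mem (h : IsPoint D O₀) (hx : x ∈ O₀) : ∀ᶠ O in nb D O₀, x ∈ O := by
  obtain ⟨a, ha, b, hb, hu, rfl⟩ := h.le_loc hx
  exact ⟨b, hb, hu, fun O hO hu => by
    change a / b ∈ O
    rw [div_eq_mul_inv]; exact mul_mem (hO.le ha) hu.2.2⟩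

lemma ev_un (h : IsPoint D O₀) (hx : Un O₀ x) : ∀ᶠ O in nb D O₀, Un O x :=
  ((ev_mem h hx.1).and (ev_mem h hx.2.2)).mono fun _ h => ⟨h.1, hx.2.1, h.2⟩

lemma ev_le (h : IsPoint D O₀) (hA : A.FG) (hle : A ≤ O₀) : ∀ᶠ O in nb D O₀, A ≤ O := by
  obtain ⟨S, rfl⟩ := hA
  exact ((eventually_all_finset S).2 fun x hx => ev_mem h (hle (Algebra.subset_adjoin hx))).mono
    fun O h => Algebra.adjoin_le h

lemma ev_chart {g' : L} (h : IsPoint (chart A M g) O₀) (h' : IsPoint (chart A M g') O₀)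
    (hg : g ∈ M) (h0 : g ≠ 0) (hg' : g' ∈ M) (h0' : g' ≠ 0) :
    ∀ᶠ O in nb (chart A M g) O₀, IsPoint (chart A M g') O :=
  ((ev_pt _ _).and (ev_mem h (h'.le (div_mem_chart A g' hg)))).mono fun _ h =>
    IsPoint.chart_of h.1 hg h0 hg' h0' h.2

lemma IsPoint.sup (h : IsPoint D O) (hA : A ≤ O) : IsPoint (D ⊔ A) O :=
  h.of_le_loc (sup_le h.le hA) (le_sup_left.trans (le_loc _ _))

/-- Smoothness spreads out. -/
lemma ev_sf (h : IsPoint D O₀) (hD : D.FG) (hA : A.FG) (hs : SF A O₀) :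
    ∀ᶠ O in nb D O₀, SF A O := by
  obtain ⟨hle, h1, -⟩ := hs
  have h' := IsPoint.sup h hle
  let _ := (Subalgebra.inclusion (le_sup_right : A ≤ D ⊔ A)).toRingHom.toAlgebra
  have : IsScalarTower k A ↥(D ⊔ A) := .of_algebraMap_eq fun _ => rfl
  have := (Subalgebra.fg_iff_finiteType _).1 hA
  have := (Subalgebra.fg_iff_finiteType _).1 (hD.sup hA)
  have := Algebra.FiniteType.isNoetherianRing k A
  have : Algebra.FiniteType A ↥(D ⊔ A) := .of_restrictScalars_finiteType k _ _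
  have : Algebra.FinitePresentation A ↥(D ⊔ A) := Algebra.FinitePresentation.of_finiteType.1 this
  obtain ⟨f, hf, h2⟩ : ∃ f ∉ ctr h'.lcl h'.le, Algebra.Smooth A (Localization.Away f) := by
    let _ := (Subalgebra.inclusion h'.le).toRingHom.toAlgebra
    let _ := (Subalgebra.inclusion hle).toRingHom.toAlgebra
    have : IsScalarTower A ↥(D ⊔ A) O₀ := .of_algebraMap_eq fun _ => rfl
    have e : unMonoid (D ⊔ A) O₀ = (ctr h'.lcl h'.le).primeCompl :=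
      Submonoid.ext fun x => not_not.symm
    have : IsLocalization (ctr h'.lcl h'.le).primeCompl O₀ :=
      e ▸ isLocalization_of_le_loc h'.le h'.le_loc
    have : Algebra.FormallySmooth A O₀ := h1
    have : Algebra.IsSmoothAt A (ctr h'.lcl h'.le) := .of_equiv
      ((IsLocalization.algEquiv (ctr h'.lcl h'.le).primeCompl O₀ _).restrictScalars A)
    exact Algebra.IsSmoothAt.exists_notMem_smooth A _
  filter_upwards [ev_pt D O₀, ev_le h hA hle, ev_un h (not_not.1 hf)] with O a b c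
  have a' := IsPoint.sup a b
  let _ := (Subalgebra.inclusion a'.le).toRingHom.toAlgebra
  let _ := (Subalgebra.inclusion b).toRingHom.toAlgebra
  have := isLocalization_of_le_loc a'.le a'.le_loc
  have hM : Submonoid.powers f ≤ unMonoid (D ⊔ A) O := (Submonoid.powers_le).2 c
  let _ := IsLocalization.localizationAlgebraOfSubmonoidLe (Localization.Away f) O _ _ hM
  have := IsLocalization.localization_isScalarTower_of_submonoid_le (Localization.Away f) O _ _ hM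
  have := IsLocalization.isLocalization_of_submonoid_le (Localization.Away f) O _ _ hM
  have : IsScalarTower A ↥(D ⊔ A) O := .of_algebraMap_eq fun _ => rfl
  have : IsScalarTower A (Localization.Away f) O := .to₁₃₄ A ↥(D ⊔ A) _ _
  have := Algebra.FormallySmooth.of_isLocalization (R := Localization.Away f) (Rₘ := O)
    ((unMonoid (D ⊔ A) O).map (algebraMap _ _))
  have := IsLocalization.flat (R := Localization.Away f) O
    ((unMonoid (D ⊔ A) O).map (algebraMap _ _))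
  exact ⟨b, Algebra.FormallySmooth.comp A (Localization.Away f) O,
    Module.Flat.trans A (Localization.Away f) O⟩

/-- Generators of a prime ideal spread out. -/
lemma ev_prime (h : IsPoint D O₀) (hD : D.FG) (hW : IsPoint O₀ W)
    (hT : ∀ x ∈ O₀, ¬ Un W x → x ∈ span O₀ T) : ∀ᶠ O : Subalgebra k L in nb D O₀,
      1 ∈ span O T ∨ IsPoint O W ∧ ∀ x ∈ O, ¬ Un W x → x ∈ span O T := by
  have := (Subalgebra.fg_iff_finiteType _).1 hD
  have := Algebra.FiniteType.isNoetherianRing k D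
  have hW' := IsPoint.trans h hW
  obtain ⟨S, hS⟩ := IsNoetherian.noetherian (ctr hW'.lcl hW'.le)
  have h1 : ∀ᶠ O : Subalgebra k L in nb D O₀, ∀ s ∈ S, (s : L) ∈ span O T :=
    (eventually_all_finset S).2
    fun s hs => ev_span h (hT s (h.le s.2) (mem_ctr.1 (hS ▸ subset_span hs)))
  filter_upwards [ev_pt D O₀, h1] with O a b
  have key : ∀ (X : Set L), (∀ s ∈ S, (s : L) ∈ span O X) → ∀ y : D, ¬ Un W y → y.1 ∈ span O X := by
    intro X hX y hy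
    have hy' : y ∈ span D (S : Set D) := hS ▸ mem_ctr.2 hy
    clear hy
    induction hy' using span_induction with
    | mem y hy => exact hX y hy
    | zero => exact zero_mem _
    | add u v _ _ hu hv => exact add_mem hu hv
    | smul c u _ hu => exact mul_mem_sub _ (a.le c.2) hu
  by_cases hu : ∃ s ∈ S, Un O s
  · obtain ⟨s, hs, hu⟩ := hu
    exact Or.inl (mem_span_of_un (b s hs) hu (one_mem _))
  push Not at hu
  have h2 : ∀ y ∈ D, Un O y → Un W y := fun y hy h3 => by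
    by_contra h4
    refine not_un_of_mem_span a.lcl (S := Subtype.val '' (S : Set D)) ?_
      (key _ (fun s hs => subset_span (Set.mem_image_of_mem _ hs)) ⟨y, hy⟩ h4) h3
    rintro _ ⟨s, hs, rfl⟩
    exact ⟨a.le s.2, hu s hs⟩
  refine Or.inr ⟨IsPoint.of_un a hW' h2, fun x hx h3 => ?_⟩
  obtain ⟨u, hu, v, hv, hv', rfl⟩ := a.le_loc hx
  rw [div_eq_inv_mul]
  exact mul_mem_sub _ hv'.2.2 (key T b ⟨u, hu⟩ fun h4 => h3 (un_div h4 (h2 v hv hv')))

/-- Compactness. -/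
lemma exists_cover {X : Type} (h : X → L) (hD : ∀ i, h i ∈ D)
    (hc : ∀ O, IsPoint D O → ∃ i, Un O (h i)) :
    ∃ F : Set X, F.Finite ∧ ∀ O, IsPoint D O → ∃ i ∈ F, Un O (h i) := by
  have h1 : (1 : L) ∈ span D (Set.range h) := mem_of_local _ fun O hO => by
    obtain ⟨i, hi⟩ := hc O hO
    exact ⟨h i, hD i, hi, by rw [mul_one]; exact subset_span ⟨i, rfl⟩⟩
  obtain ⟨S, hS, h2⟩ := mem_span_finite_of_mem_span h1
  obtain ⟨F, -, hF, e⟩ := Set.Finite.exists_subset_finite_image_eq (f := h) (s := Set.univ)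
    S.finite_toSet (by simpa using hS)
  refine ⟨F, hF, fun O hO => ?_⟩
  by_contra H
  push Not at H
  refine not_un_of_mem_span hO.lcl (fun s hs => ?_) (span_mono' hO.le Set.Subset.rfl h2) (Un.one O)
  obtain ⟨i, hi, rfl⟩ : s ∈ h '' F := e.symm ▸ hs
  exact ⟨hO.le (hD i), H i hi⟩

/-- A locally finitely generated family of modules is global. -/
theorem glob_local (hM : M.FG) (I : Subalgebra k L → Submodule k L)
    (hI : ∀ g ∈ M, g ≠ 0 → ∀ O₀, IsPoint (chart ⊥ M g) O₀ → ∃ F : Set L, F.Finite ∧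
      ∀ᶠ O in nb (chart ⊥ M g) O₀, ∀ x, x ∈ sp O (I O) ↔ x ∈ span O F) : Glob M I := by
  have key : ∀ g, ∃ J : Submodule (chart ⊥ M g) L, g ∈ M → g ≠ 0 → J.FG ∧
      ∀ O, IsPoint (chart ⊥ M g) O →
        ∀ x, x ∈ sp O (I O) ↔ ∃ h ∈ chart ⊥ M g, Un O h ∧ h * x ∈ J := fun g => by
    by_cases hg : g ∈ M ∧ g ≠ 0
    swap
    · exact ⟨⊥, fun a b => absurd ⟨a, b⟩ hg⟩
    have hI := hI g hg.1 hg.2
    generalize chart ⊥ M g = D at hI
    choose F hF h hh hu H using fun O : {O // IsPoint D O} => hI O.1 O.2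
    obtain ⟨C, hC, hc⟩ := exists_cover h hh fun O hO => ⟨⟨O, hO⟩, hu ⟨O, hO⟩⟩
    have h1 : ∀ i ∈ C, ∀ f ∈ F i, ∃ n : ℕ, ∀ O, IsPoint D O → h i ^ n * f ∈ sp O (I O) := by
      intro i _ f hf
      have h2 : ∀ j ∈ C, ∀ᶠ n : ℕ in atTop, ∀ O, IsPoint D O → Un O (h j) →
          h i ^ n * f ∈ sp O (I O) := fun j _ => by
        obtain ⟨n, hn⟩ := exists_pow_mul_mem (x := f) (span D (F j)) (mul_mem (hh i) (hh j))
          fun O hO hu => (IsPoint.mem_span_iff hO).1 ((H j O hO (Un.of_mul (hO.le (hh j))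
            (hO.le (hh i)) (mul_comm (h i) _ ▸ hu)) f).1 ((H i O hO (Un.of_mul (hO.le (hh i))
              (hO.le (hh j)) hu) f).2 (subset_span hf)))
        refine eventually_atTop.2 ⟨n, fun m hm O hO hu => ?_⟩
        obtain ⟨d, rfl⟩ := Nat.exists_eq_add_of_le' hm
        rw [H j O hO hu, pow_add, mul_assoc]
        refine mul_mem_sub _ (pow_mem (hO.le (hh i)) _) ((IsPoint.mem_span_iff hO).2
          ⟨h j ^ n, pow_mem (hh j) _, hu.pow _, ?_⟩)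
        rwa [← mul_assoc, ← mul_pow, mul_comm (h j)]
      obtain ⟨n, hn⟩ := ((eventually_all_finite hC).2 h2).exists
      exact ⟨n, fun O hO => let ⟨j, hj, hu⟩ := hc O hO; hn j hj O hO hu⟩
    choose! n hn using h1
    refine ⟨span D (⋃ i ∈ C, (fun f => h i ^ n i f * f) '' F i), fun _ _ =>
      ⟨fg_span (hC.biUnion fun i _ => (hF i).image _), fun O hO x => ?_⟩⟩
    rw [← IsPoint.mem_span_iff hO]
    constructor
    · obtain ⟨i, hi, hu⟩ := hc O hO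
      rw [H i O hO hu]
      refine span_le_span le_rfl fun f hf => ?_
      rw [show f = (h i ^ n i f)⁻¹ * (h i ^ n i f * f) by field_simp [hu.2.1]]
      exact mul_mem_sub _ (hu.pow _).2.2 (subset_span (Set.mem_biUnion hi ⟨f, hf, rfl⟩))
    · rw [mem_sp_iff]
      refine span_le_span le_rfl fun y hy => ?_
      obtain ⟨i, hi, f, hf, rfl⟩ := Set.mem_iUnion₂.1 hy
      exact mem_sp_iff.1 (hn i hi f hf O hO)
  choose J hJ using key
  exact glob_of hM I J (fun g a b => (hJ g a b).1) fun g a b => (hJ g a b).2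

end Nb

section Mon

variable {A O : Subalgebra k L} {x : L}

/-- Flat extension commutes with intersections. -/
lemma flat_inf (hs : SF A O) {X Y : Set L} (hd : ∀ x ∈ X ∪ Y, ∃ d ∈ A, d ≠ 0 ∧ d * x ∈ A)
    (hx : x ∈ span O X) (hy : x ∈ span O Y) :
    x ∈ span O {y | y ∈ span A X ∧ y ∈ span A Y} := by
  obtain ⟨hle, -, h2⟩ := hs
  let _ := (Subalgebra.inclusion hle).toRingHom.toAlgebra
  have : Module.Flat A O := h2
  obtain ⟨n, f, u, rfl⟩ := mem_span_set'.1 hx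
  obtain ⟨m, f', v, e⟩ := mem_span_set'.1 hy
  let w : Fin n ⊕ Fin m → L := Sum.elim (fun i => u i) fun j => -v j
  obtain ⟨d, hd0, hdw⟩ : ∃ d : L, d ≠ 0 ∧ ∀ i, d * w i ∈ A := by
    classical
    have : ∀ i, ∃ d ∈ A, d ≠ 0 ∧ d * w i ∈ A := by
      rintro (i | i)
      · exact hd _ (Or.inl (u i).2)
      · obtain ⟨d, a, b, c⟩ := hd _ (Or.inr (v i).2)
        exact ⟨d, a, b, by simpa [w] using c⟩
    choose d a b c using this
    refine ⟨∏ i, d i, Finset.prod_ne_zero_iff.2 fun i _ => b i, fun i => ?_⟩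
    rw [← Finset.prod_erase_mul _ _ (Finset.mem_univ i), mul_assoc]
    exact mul_mem (prod_mem fun j _ => a j) (c i)
  obtain ⟨K, a, y, h3, h4⟩ := Module.Flat.isTrivialRelation_of_sum_smul_eq_zero (R := A) (M := O)
    (f := fun i => ⟨_, hdw i⟩) (x := Sum.elim f f') (Subtype.ext (by
      have : ∑ i, d * w i * (Sum.elim f f' i : O) =
          d * (∑ i, f i • (u i : L) - ∑ i, f' i • (v i : L)) := by
        simp [w, mul_add, Finset.mul_sum, Subalgebra.smul_def, sub_eq_add_neg, mul_comm,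
          mul_left_comm]
      rw [e, sub_self, mul_zero] at this
      rw [AddSubmonoidClass.coe_finsetSum]
      exact this))
  have h5 : ∑ i, f i • (u i : L) = ∑ l, y l • ∑ i, a (.inl i) l • (u i : L) := by
    simp only [Finset.smul_sum]
    rw [Finset.sum_comm]
    refine Finset.sum_congr rfl fun i _ => ?_
    rw [show f i = _ from h3 (.inl i), Finset.sum_smul]
    refine Finset.sum_congr rfl fun l _ => ?_
    change (a (.inl i) l : L) * y l * u i = y l * (a (.inl i) l * u i)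
    ring
  rw [h5]
  refine sum_mem fun l _ => smul_mem _ _ (subset_span ⟨sum_mem fun i _ =>
    smul_mem _ _ (subset_span (u i).2), ?_⟩)
  have h6 : ∑ i, a (.inl i) l • (u i : L) = ∑ j, a (.inr j) l • (v j : L) := by
    have := congrArg Subtype.val (h4 l)
    rw [AddSubmonoidClass.coe_finsetSum, Fintype.sum_sum_type] at this
    refine mul_left_cancel₀ hd0 (sub_eq_zero.1 (Eq.trans ?_ this))
    simp [w, Finset.mul_sum, Subalgebra.smul_def, sub_eq_add_neg, mul_comm, mul_assoc]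
  rw [h6]
  exact sum_mem fun i _ => smul_mem _ _ (subset_span (v i).2)

variable {ι : Type} {r : ℕ} {τ : Typ ι r} {z : Fin r → L} {T T' : Set (Fin r → ℤ)} {c : Fin r → ℤ}

/-- The module generated by monomials. -/
abbrev Mon (O : Subalgebra k L) (z : Fin r → L) (T : Set (Fin r → ℤ)) : Submodule O L :=
  span O (mn z '' T)

lemma mn_mem_Mon (h : c ∈ T) : mn z c ∈ Mon O z T := subset_span ⟨c, h, rfl⟩

lemma Mon_le {O' : Subalgebra k L} (h : O ≤ O') {J : Submodule O' L} (hT : ∀ c ∈ T, mn z c ∈ J)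
    (hx : x ∈ Mon O z T) : x ∈ J := by
  rw [← span_eq J]
  refine span_le_span h ?_ hx
  rintro _ ⟨c, hc, rfl⟩
  exact subset_span (hT c hc)

lemma mem_sp_ms : x ∈ sp O (ms k z T) ↔ x ∈ Mon O z T := by
  rw [mem_sp_iff, ms, span_span_of_tower]

lemma mul_mem_Mon (hz : ∀ i, z i ≠ 0) (h : ∀ e ∈ T, e + c ∈ T') (hx : x ∈ Mon O z T) :
    x * mn z c ∈ Mon O z T' := by
  induction hx using span_induction with
  | mem x hx => obtain ⟨e, he, rfl⟩ := hx; rw [← mn_add hz]; exact mn_mem_Mon (h e he)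
  | zero => simp
  | add a b _ _ ha hb => rw [add_mul]; exact add_mem ha hb
  | smul c a _ ha => rw [smul_mul_assoc]; exact smul_mem _ _ ha

lemma Mon_TA_le (hz : ∀ i, z i ≠ 0) (h : ∀ e ∈ T, ∀ c ∈ τ.Reg 0, c + e ∈ T)
    (hx : x ∈ Mon (TA k z τ) z T) : x ∈ ms k z T := by
  have h1 : ∀ a ∈ TA k z τ, ∀ y ∈ ms k z T, a * y ∈ ms k z T := fun a ha => by
    induction ha using Algebra.adjoin_induction with
    | mem a ha =>
      obtain ⟨c, hc, rfl⟩ := ha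
      exact fun y hy => ms_mul_le hz (fun c hc e he => h e he c hc) (mul_mem_mul (mn_mem_ms hc) hy)
    | algebraMap c => exact fun y hy => Algebra.smul_def c y ▸ smul_mem _ c hy
    | add a b _ _ ha hb => exact fun y hy => add_mul a b y ▸ add_mem (ha y hy) (hb y hy)
    | mul a b _ _ ha hb => exact fun y hy => mul_assoc a b y ▸ ha _ (hb y hy)
  induction hx using span_induction with
  | mem x hx => exact subset_span hx
  | zero => exact zero_mem _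
  | add a b _ _ ha hb => exact add_mem ha hb
  | smul c a _ ha => exact h1 c c.2 a ha

lemma exists_add_reg [Finite ι] (hs : τ.Strict) (a : ι → ℤ) (c : Fin r → ℤ) :
    ∃ e ∈ τ.Reg 0, c + e ∈ τ.Reg a := by
  obtain ⟨g, hg⟩ := hs
  have h1 : g ∈ τ.Reg 0 := fun ρ hρ => (hg ρ hρ).le
  obtain ⟨n, hn⟩ := (Typ.ev_add_reg (a := a) (f := c) h1 fun ρ hρ e =>
    absurd e (hg ρ hρ).ne').exists
  exact ⟨_, Typ.nsmul_mem_reg h1 n, hn⟩

lemma Mon_inter [Finite ι] (hi : AlgebraicIndependent k z) (hs : τ.Strict) (hf : SF (TA k z τ) O)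
    (h : ∀ e ∈ T, ∀ c ∈ τ.Reg 0, c + e ∈ T) (h' : ∀ e ∈ T', ∀ c ∈ τ.Reg 0, c + e ∈ T')
    (hx : x ∈ Mon O z T) (hx' : x ∈ Mon O z T') : x ∈ Mon O z (T ∩ T') := by
  have hz := hi.ne_zero
  refine mem_sp_ms.1 (mem_sp_iff.2 (span_mono ?_ (flat_inf hf ?_ hx hx')))
  · rintro y ⟨h1, h2⟩
    obtain ⟨l, hl, e⟩ := (Finsupp.mem_span_image_iff_linearCombination k).1 (Mon_TA_le hz h h1)
    obtain ⟨l', hl', e'⟩ := (Finsupp.mem_span_image_iff_linearCombination k).1 (Mon_TA_le hz h' h2)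
    obtain rfl : l = l' := linearIndependent_mn hi (e.trans e'.symm)
    exact (Finsupp.mem_span_image_iff_linearCombination k).2
      ⟨l, Set.subset_inter hl hl', e⟩
  · rintro _ (⟨c, -, rfl⟩ | ⟨c, -, rfl⟩) <;>
    · obtain ⟨e, he, h1⟩ := exists_add_reg hs 0 c
      exact ⟨_, mn_mem_TA he, mn_ne_zero hz _, by rw [mul_comm, ← mn_add hz]; exact mn_mem_TA h1⟩

lemma Mon_reg [Finite ι] (hi : AlgebraicIndependent k z) (hs : τ.Strict) (hf : SF (TA k z τ) O)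
    {a : ι → ℤ} (hx : x ∈ Mon O z Set.univ) (h : ∀ ρ ∈ τ.R, x ∈ Mon O z {c | a ρ ≤ τ.ev c ρ}) :
    x ∈ Mon O z (τ.Reg a) := by
  have key : ∀ s : Set ι, s ⊆ τ.R → x ∈ Mon O z {c | ∀ ρ ∈ s, a ρ ≤ τ.ev c ρ} := fun s => by
    induction s, s.toFinite using Set.Finite.induction_on with
    | empty => exact fun _ => by simpa using hx
    | @insert ρ s _ _ ih =>
      intro hs'
      have h1 := hs' (Set.mem_insert _ _)
      have h2 := (Set.subset_insert _ _).trans hs'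
      refine span_mono (Set.image_mono fun c hc => Set.forall_mem_insert.2 hc)
        (Mon_inter hi hs hf (T := {c | a ρ ≤ τ.ev c ρ}) (T' := {c | ∀ ρ ∈ s, a ρ ≤ τ.ev c ρ})
          (fun e he c hc => ?_) (fun e he c hc σ hσ => ?_) (h ρ h1) (ih h2))
      · rw [Set.mem_ofPred_eq, Typ.ev_add]; exact le_add_of_nonneg_of_le (hc ρ h1) he
      · rw [Typ.ev_add]; exact le_add_of_nonneg_of_le (hc σ (h2 hσ)) (he σ hσ)
  exact key τ.R le_rfl

lemma TA_fg [Fintype ι] (hp : τ.Pointed) (hz : ∀ i, z i ≠ 0) : (TA k z τ).FG := by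
  obtain ⟨F, h1, h2, h3⟩ := Typ.gordan hp
  refine Subalgebra.fg_def.2 ⟨mn z '' F, h1.image _, le_antisymm
    (Algebra.adjoin_mono (Set.image_mono h2)) (TA_le fun c hc => ?_)⟩
  exact mn_mem_of_closure hz (fun c hc => Algebra.subset_adjoin ⟨c, hc, rfl⟩) (h3 c hc)

end Mon

section Dvr

variable {K : IntermediateField k L} {W W' : Subalgebra k L} {π x y : L} {n m a : ℤ}

/-- `W` is a discrete valuation ring of `K` with uniformizer `π`. -/
structure Dvr (K : IntermediateField k L) (W : Subalgebra k L) (π : L) : Prop where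
  le : W ≤ K.toSubalgebra
  mem : π ∈ W
  ne : π ≠ 0
  nu : ¬ Un W π
  ex : ∀ x ∈ K, x ≠ 0 → ∃ n : ℤ, Un W (x / π ^ n)

lemma zpow_mem_of {W : Subalgebra k L} (h : π ∈ W) (hn : 0 ≤ n) : π ^ n ∈ W := by
  obtain ⟨n, rfl⟩ := Int.eq_ofNat_of_zero_le hn
  rw [zpow_natCast]; exact pow_mem h _

lemma Dvr.zpow_mem (h : Dvr K W π) : π ^ n ∈ W ↔ 0 ≤ n := by
  refine ⟨fun hn => not_lt.1 fun h0 => h.nu ⟨h.mem, h.ne, ?_⟩, zpow_mem_of h.mem⟩
  rw [show π⁻¹ = π ^ n * π ^ (-n - 1) by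
    rw [← zpow_add₀ h.ne, ← zpow_neg_one]; congr 1; ring]
  exact mul_mem hn (zpow_mem_of h.mem (by omega))

lemma Dvr.mem_iff (h : Dvr K W π) (hx : Un W (x / π ^ n)) : x / π ^ a ∈ W ↔ a ≤ n := by
  have h0 := h.ne
  have e : x / π ^ a = x / π ^ n * π ^ (n - a) := by rw [zpow_sub₀ h0]; field_simp
  rw [← sub_nonneg, ← h.zpow_mem, e]
  refine ⟨fun h1 => ?_, mul_mem hx.1⟩
  simpa [← mul_assoc, inv_mul_cancel₀ hx.2.1, -inv_div] using mul_mem hx.2.2 h1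

lemma Dvr.uniq (h : Dvr K W π) (hx : Un W (x / π ^ n)) (hx' : Un W (x / π ^ m)) : n = m :=
  le_antisymm ((h.mem_iff hx').1 hx.1) ((h.mem_iff hx).1 hx'.1)

/-- A discrete valuation ring is a maximal proper subring. -/
lemma Dvr.eq_of_le (h : Dvr K W π) (hW : W ≤ W') (hK : W' ≤ K.toSubalgebra) (hy : y ∈ K)
    (h0 : y ≠ 0) (hu : ¬ Un W' y) : W' = W := by
  refine le_antisymm (fun x hx => ?_) hW
  by_cases hx0 : x = 0
  · rw [hx0]; exact zero_mem _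
  obtain ⟨n, hn⟩ := h.ex x (hK hx) hx0
  by_contra h1
  have h2 : n < 0 := not_le.1 fun h2 => h1 (by simpa using (h.mem_iff (a := 0) hn).2 h2)
  have h3 : Un W' π := ⟨hW h.mem, h.ne, by
    rw [show π⁻¹ = (x / π ^ n)⁻¹ * x * π ^ (-n - 1) by
      rw [inv_div, div_mul_cancel₀ _ hx0, ← zpow_add₀ h.ne, ← zpow_neg_one]; congr 1; ring]
    exact mul_mem (mul_mem (hW hn.2.2) hx) (hW (zpow_mem_of h.mem (by omega)))⟩
  obtain ⟨m, hm⟩ := h.ex y hy h0
  exact hu (by simpa [zpow_ne_zero m h.ne] using (hm.mono hW).mul (un_zpow h3 m))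

/-- A chosen uniformizer. -/
noncomputable def pi (K : IntermediateField k L) (W : Subalgebra k L) : L :=
  Classical.epsilon (Dvr K W)

/-- The normalised valuation. -/
noncomputable def od (K : IntermediateField k L) (W : Subalgebra k L) (x : L) : ℤ :=
  Classical.epsilon fun n : ℤ => Un W (x / pi K W ^ n)

lemma Dvr.pi (h : Dvr K W π) : Dvr K W (pi K W) := Classical.epsilon_spec ⟨π, h⟩

lemma Dvr.od_spec (h : Dvr K W π) (hx : x ∈ K) (h0 : x ≠ 0) :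
    Un W (x / Lab.pi K W ^ od K W x) :=
  Classical.epsilon_spec (p := fun n : ℤ => Un W (x / Lab.pi K W ^ n)) (h.pi.ex x hx h0)

lemma Dvr.un_div {π' : L} (h : Dvr K W π) (h' : Dvr K W π') : Un W (π / π' ^ (1 : ℤ)) := by
  obtain ⟨n, hn⟩ := h'.ex π (h.le h.mem) h.ne
  obtain ⟨m, hm⟩ := h.ex π' (h'.le h'.mem) h'.ne
  have h1 : Un W (π / π ^ (m * n)) := by
    have := hn.mul (un_zpow hm n)
    rwa [div_zpow, ← zpow_mul, div_mul_div_cancel₀ (zpow_ne_zero _ h'.ne)] at this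
  have h2 := h.uniq h1 (m := 1) (by rw [zpow_one, div_self h.ne]; exact Un.one _)
  have h3 : 0 ≤ n := (h'.mem_iff hn).1 (by simpa using h.mem)
  rwa [← Int.eq_one_of_mul_eq_one_left h3 h2]

lemma Dvr.un_mn {r : ℕ} {z : Fin r → L} (h : Dvr K W π) (hz : ∀ i, z i ∈ K ∧ z i ≠ 0)
    (c : Fin r → ℤ) : Un W (mn z c / Lab.pi K W ^ ((fun i => od K W (z i)) ⬝ᵥ c)) := by
  have := un_prod Finset.univ _ fun i _ => un_zpow (h.od_spec (hz i).1 (hz i).2) (c i)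
  simp only [div_zpow, Finset.prod_div_distrib, ← zpow_mul] at this
  have e : ∀ (s : Finset (Fin r)) (f : Fin r → ℤ),
      ∏ i ∈ s, Lab.pi K W ^ f i = Lab.pi K W ^ ∑ i ∈ s, f i := fun s f => by
    induction s using Finset.induction_on with
    | empty => simp
    | insert i s hi ih => rw [Finset.prod_insert hi, Finset.sum_insert hi, ih, zpow_add₀ h.pi.ne]
  rwa [e] at this

/-- A noetherian local ring with principal maximal ideal. -/
lemma dvr_of [IsNoetherianRing W] (hK : W ≤ K.toSubalgebra) (hπ : π ∈ W) (h0 : π ≠ 0)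
    (hu : ¬ Un W π) (hm : ∀ x ∈ W, ¬ Un W x → x / π ∈ W)
    (hf : ∀ x ∈ K, ∃ b ∈ W, b ≠ 0 ∧ b * x ∈ W) : Dvr K W π := by
  have key : ∀ x ∈ W, x ≠ 0 → ∃ n : ℤ, Un W (x / π ^ n) := fun x hx hx0 => by
    by_contra H
    push Not at H
    have h1 : ∀ n : ℕ, x / π ^ n ∈ W := fun n => by
      induction n with
      | zero => simpa using hx
      | succ n ih => rw [pow_succ, ← div_div]; exact hm _ ih (by simpa using H n)
    let f : ℕ →o Ideal W := ⟨fun n => Ideal.span {⟨_, h1 n⟩}, monotone_nat_of_le_succ fun n =>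
      Ideal.span_singleton_le_span_singleton.2 ⟨⟨π, hπ⟩, Subtype.ext (by
        change x / π ^ n = x / π ^ (n + 1) * π
        rw [pow_succ]; field_simp)⟩⟩
    obtain ⟨n, hn⟩ := monotone_stabilizes_iff_noetherian.2 inferInstance f
    obtain ⟨w, hw⟩ := Ideal.span_singleton_le_span_singleton.1 (hn (n + 1) n.le_succ).ge
    have hw' : x / π ^ (n + 1) = x / π ^ n * w := congrArg Subtype.val hw
    refine hu ⟨hπ, h0, (show (w : L) = π⁻¹ from ?_) ▸ w.2⟩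
    rw [pow_succ, ← div_div, div_eq_mul_inv _ π] at hw'
    exact (mul_left_cancel₀ (div_ne_zero hx0 (pow_ne_zero _ h0)) hw').symm
  refine ⟨hK, hπ, h0, hu, fun x hx hx0 => ?_⟩
  obtain ⟨b, hb, hb0, hbx⟩ := hf x hx
  obtain ⟨n, hn⟩ := key _ hbx (mul_ne_zero hb0 hx0)
  obtain ⟨m, hm⟩ := key _ hb hb0
  refine ⟨n - m, ?_⟩
  have := un_div hn hm
  rwa [show b * x / π ^ n / (b / π ^ m) = x / π ^ (n - m) by
    rw [zpow_sub₀ h0]; field_simp] at this

end Dvr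

end Pool.Agent.MP_19ffc6_ag.Res.Lab

end MrgPart0

-- ======== part 1: formerly Pool.Agent.MP_19ffc6_ag.Res.Prime
section MrgPart1

/-! PROJECT RES, part B: the boundary divisors are locally irreducible at a toroidal point. -/

namespace Pool.Agent.MP_19ffc6_ag.Res.B

open Pool.Agent.MP_19ffc6_ag.Wild Pool.Agent.MP_19ffc6_ag.Lci Pool.Agent.MP_19ffc6_ag.Res.Tor
open Submodule

variable {k L : Type} [Field k] [Field L] [Algebra k L]

namespace Pr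

variable {κ η : Type} [Fintype κ] [Fintype η] {φ : (κ → ℤ) →+ η → ℤ} {y : κ → L}
  {O : Subalgebra k L} {i : η} {N M : ℤ} {x : L}

lemma mul_span {R : Type} [CommRing R] [Algebra R L] (hy : ∀ j, y j ≠ 0) {S T U : Set (κ → ℤ)}
    (h : ∀ c ∈ S, ∀ e ∈ T, c + e ∈ U) {a b : L} (ha : a ∈ span R (mn y '' S))
    (hb : b ∈ span R (mn y '' T)) : a * b ∈ span R (mn y '' U) := by
  have := mul_mem_mul ha hb
  rw [span_mul_span] at this
  refine span_mono ?_ this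
  rintro _ ⟨_, ⟨c, hc, rfl⟩, _, ⟨e, he, rfl⟩, rfl⟩
  exact ⟨c + e, h c hc e he, mn_add hy c e⟩

lemma span_up {S : Set L} (h : x ∈ span k S) : x ∈ span O S := span_subset_span k O S h

variable (φ) in
/-- The total degree. -/
def dg (c : κ → ℤ) : ℤ := ∑ j, φ c j

lemma dg_add (c e : κ → ℤ) : dg φ (c + e) = dg φ c + dg φ e := by
  simp [dg, Finset.sum_add_distrib]

lemma dg_nonneg {c : κ → ℤ} (h : 0 ≤ φ c) : 0 ≤ dg φ c := Finset.sum_nonneg fun j _ => h j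

variable (φ i) in
/-- Exponents that are divisible by the divisor or of large degree. -/
def T (N : ℤ) : Set (κ → ℤ) := {c | 0 ≤ φ c ∧ (0 < φ c i ∨ N ≤ dg φ c)}

variable (φ i) in
/-- Exponents of degree `N` on the face. -/
def H (N : ℤ) : Set (κ → ℤ) := {c | 0 ≤ φ c ∧ φ c i = 0 ∧ dg φ c = N}

lemma add_T {c e : κ → ℤ} (hc : c ∈ T φ i N) (he : e ∈ T φ i M) : c + e ∈ T φ i (N + M) := by
  have h1 : 0 ≤ φ c i := hc.1 i
  have h2 : 0 ≤ φ e i := he.1 i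
  have h3 := hc.2
  have h4 := he.2
  refine ⟨by rw [map_add]; exact add_nonneg hc.1 he.1, ?_⟩
  rw [map_add, dg_add, Pi.add_apply]
  omega

lemma H_sub : H φ i N ⊆ T φ i N := fun _ hc => ⟨hc.1, Or.inr hc.2.2.ge⟩

variable (φ y O) in
/-- A centred chart without further parameters. -/
structure Ce : Prop where
  inj : ∀ c, φ c = 0 → c = 0
  ind : AlgebraicIndependent k y
  sf : SF (Algebra.adjoin k (mn y '' {c | 0 ≤ φ c})) O
  lcl : Lcl O
  nu : ∀ c, 0 ≤ φ c → c ≠ 0 → ¬ Un O (mn y c)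
  par : Res.Par O (mn y '' {c | 0 ≤ φ c ∧ c ≠ 0})

lemma Ce.mem (h : Ce φ y O) {c : κ → ℤ} (hc : 0 ≤ φ c) : mn y c ∈ O :=
  h.sf.le (Algebra.subset_adjoin ⟨c, hc, rfl⟩)

lemma Ce.pos (h : Ce φ y O) {c : κ → ℤ} (hc : 0 ≤ φ c) (h0 : c ≠ 0) : 1 ≤ dg φ c := by
  by_contra H
  have h1 : dg φ c = 0 := by have := dg_nonneg hc; omega
  exact h0 (h.inj c (funext fun j =>
    (Finset.sum_eq_zero_iff_of_nonneg fun j _ => hc j).1 h1 j (Finset.mem_univ j)))

lemma Ce.step (h : Ce φ y O) (hx : x ∈ span O (mn y '' T φ i N)) :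
    ∃ a ∈ span k (mn y '' H φ i N), x - a ∈ span O (mn y '' T φ i (N + 1)) := by
  suffices H : ∀ o ∈ O, ∃ a ∈ span k (mn y '' H φ i N),
      o * x - a ∈ span O (mn y '' T φ i (N + 1)) by simpa using H 1 (one_mem _)
  induction hx using span_induction with
  | mem _ hx =>
    obtain ⟨c, hc, rfl⟩ := hx
    intro o ho
    by_cases e : c ∈ T φ i (N + 1)
    · exact ⟨0, zero_mem _, by rw [sub_zero]; exact mul_mem_span ho (subset_span ⟨c, e, rfl⟩)⟩
    obtain ⟨u, hu⟩ := h.par o ho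
    have h1 : 0 ≤ φ c i := hc.1 i
    have h2 := hc.2
    have h3 : ¬ (0 < φ c i ∨ N + 1 ≤ dg φ c) := fun h => e ⟨hc.1, h⟩
    refine ⟨u • mn y c, smul_mem _ _ (subset_span ⟨c, ⟨hc.1, by omega, by omega⟩, rfl⟩), ?_⟩
    rw [Algebra.smul_def, ← sub_mul, add_comm]
    exact mul_span h.ind.ne_zero (fun c hc e he => add_T ⟨hc.1, Or.inr (h.pos hc.1 hc.2)⟩ he) hu
      (subset_span ⟨c, hc, rfl⟩)
  | zero => exact fun o _ => ⟨0, zero_mem _, by simp⟩
  | add a b _ _ ha hb =>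
    intro o ho
    obtain ⟨a', h1, h2⟩ := ha o ho
    obtain ⟨b', h3, h4⟩ := hb o ho
    exact ⟨a' + b', add_mem h1 h3, by convert add_mem h2 h4 using 1; ring⟩
  | smul c a _ ha =>
    intro o ho
    obtain ⟨a', h1, h2⟩ := ha (o * c) (mul_mem ho c.2)
    exact ⟨a', h1, by rwa [mul_assoc] at h2⟩

lemma Ce.pow (h : Ce φ y O) [IsLocalRing O] (j : ℕ) : ∃ N : ℕ, ∀ c (hc : 0 ≤ φ c), N ≤ dg φ c →
    (⟨_, h.mem hc⟩ : O) ∈ IsLocalRing.maximalIdeal O ^ j := by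
  induction j with
  | zero => exact ⟨0, by simp⟩
  | succ j ih =>
    obtain ⟨N, hN⟩ := ih
    obtain ⟨F, f1, f2, f3⟩ := dickson φ 0 {c | 0 ≤ φ c ∧ c ≠ 0} fun _ hc => hc.1
    obtain ⟨C, hC⟩ := (f1.image fun c => (dg φ c).toNat).bddAbove
    refine ⟨N + C + 1, fun c hc hd => ?_⟩
    obtain ⟨g, hg, hle⟩ := f3 c ⟨hc, by rintro rfl; simp [dg] at hd; omega⟩
    have h1 : 0 ≤ φ (c - g) := by rw [map_sub]; exact sub_nonneg.2 hle
    have h2 : (dg φ g).toNat ≤ C := hC ⟨g, hg, rfl⟩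
    have h3 := dg_add (φ := φ) (c - g) g
    rw [sub_add_cancel] at h3
    have e : (⟨_, h.mem hc⟩ : O) = ⟨_, h.mem h1⟩ * ⟨_, h.mem (f2 hg).1⟩ :=
      Subtype.ext ((congrArg (mn y) (sub_add_cancel c g).symm).trans (mn_add h.ind.ne_zero _ _))
    rw [e, pow_succ]
    exact Ideal.mul_mem_mul (hN _ h1 (by push_cast at hd; omega))
      fun hu => h.nu g (f2 hg).1 (f2 hg).2 ((isUnit_iff_un _).1 hu)

lemma Ce.krull (h : Ce φ y O) [IsNoetherianRing O] (hO : x ∈ O)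
    (hx : ∀ N : ℕ, x ∈ span O (mn y '' T φ i N)) :
    x ∈ span O (mn y '' {c | 0 ≤ φ c ∧ 0 < φ c i}) := by
  have := h.lcl.isLocalRing
  let I : Ideal O := (span O (mn y '' {c | 0 ≤ φ c ∧ 0 < φ c i})).comap (Algebra.linearMap O L)
  change (⟨x, hO⟩ : O) ∈ I
  rw [← Ideal.Quotient.eq_zero_iff_mem, ← mem_bot (R := O),
    ← (IsLocalRing.maximalIdeal O).iInf_pow_smul_eq_bot_of_isLocalRing (M := O ⧸ I)
      (IsLocalRing.maximalIdeal.isMaximal O).ne_top, mem_iInf]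
  intro j
  obtain ⟨N, hN⟩ := h.pow j
  have h1 : span O (mn y '' T φ i N) ≤
      Submodule.map (Algebra.linearMap O L) (I ⊔ IsLocalRing.maximalIdeal O ^ j) := span_le.2 (by
    rintro _ ⟨c, hc, rfl⟩
    exact ⟨⟨_, h.mem hc.1⟩, hc.2.elim (fun e => mem_sup_left (subset_span ⟨c, ⟨hc.1, e⟩, rfl⟩))
      fun e => mem_sup_right (hN c hc.1 e), rfl⟩)
  obtain ⟨v, hv, e⟩ := h1 (hx N)
  obtain rfl : v = ⟨x, hO⟩ := Subtype.ext e
  obtain ⟨u, hu, w, hw, e⟩ := mem_sup.1 hv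
  rw [← e, map_add, Ideal.Quotient.eq_zero_iff_mem.2 hu, zero_add, ← mul_one w]
  exact Submodule.smul_mem_smul hw (mem_top (x := Ideal.Quotient.mk _ 1))

lemma Ce.lead (h : Ce φ y O) [IsNoetherianRing O] (hO : x ∈ O)
    (hx : x ∉ span O (mn y '' {c | 0 ≤ φ c ∧ 0 < φ c i})) :
    ∃ N : ℤ, ∃ a ∈ span k (mn y '' H φ i N), a ≠ 0 ∧ x - a ∈ span O (mn y '' T φ i (N + 1)) := by
  by_contra H
  push Not at H
  refine hx (h.krull hO fun N => ?_)
  induction N with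
  | zero =>
    rw [← mul_one x, ← mn_zero y]
    exact mul_mem_span hO (subset_span ⟨0, ⟨by simp, Or.inr (by simp [dg])⟩, rfl⟩)
  | succ N ih =>
    obtain ⟨a, h1, h2⟩ := h.step ih
    by_cases e : a = 0
    · simpa [e] using h2
    · exact absurd h2 (H _ a h1 e)

lemma Ce.adj (h : Ce φ y O) (hx : x ∈ Algebra.adjoin k (mn y '' {c | 0 ≤ φ c})) :
    ∃ u : k, x - algebraMap k L u ∈ span k (mn y '' {c | 0 ≤ φ c ∧ c ≠ 0}) := by
  induction hx using Algebra.adjoin_induction with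
  | mem _ hx =>
    obtain ⟨c, hc, rfl⟩ := hx
    by_cases e : c = 0
    · exact ⟨1, by simp [e, mn_zero]⟩
    · exact ⟨0, by rw [map_zero, sub_zero]; exact subset_span ⟨c, ⟨hc, e⟩, rfl⟩⟩
  | algebraMap u => exact ⟨u, by simp⟩
  | add a b _ _ ha hb =>
    obtain ⟨u, hu⟩ := ha
    obtain ⟨v, hv⟩ := hb
    exact ⟨u + v, by convert add_mem hu hv using 1; rw [map_add]; ring⟩
  | mul a b _ _ ha hb =>
    obtain ⟨u, hu⟩ := ha
    obtain ⟨v, hv⟩ := hb
    refine ⟨u * v, ?_⟩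
    convert add_mem (add_mem (smul_mem _ u hv) (smul_mem _ v hu)) (mul_span h.ind.ne_zero
      (U := {c | 0 ≤ φ c ∧ c ≠ 0}) (fun c hc e he => ?_) hu hv) using 1
    · simp only [map_mul, Algebra.smul_def]; ring
    · refine ⟨by rw [map_add]; exact add_nonneg hc.1 he.1, fun e0 => ?_⟩
      have h1 := h.pos hc.1 hc.2
      have h2 := h.pos he.1 he.2
      have h3 := dg_add (φ := φ) c e
      rw [e0] at h3
      simp only [dg, map_zero, Pi.zero_apply, Finset.sum_const_zero] at h1 h2 h3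
      omega

lemma Ce.eq_zero (h : Ce φ y O) (h1 : x ∈ span k (mn y '' H φ i N))
    (h2 : x ∈ span O (mn y '' T φ i (N + 1))) : x = 0 := by
  have hy := h.ind.ne_zero
  set A := Algebra.adjoin k (mn y '' {c | 0 ≤ φ c})
  have hA : ∀ S ⊆ {c | 0 ≤ φ c}, ∀ w ∈ span k (mn y '' S), w ∈ A := fun S hS w hw =>
    (span_le (p := A.toSubmodule)).2 (fun _ hv => Algebra.subset_adjoin (Set.image_mono hS hv)) hw
  have key : ∀ w ∈ span A (mn y '' T φ i (N + 1)), w ∈ span k (mn y '' T φ i (N + 1)) := by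
    intro w hw
    induction hw using span_induction with
    | mem _ hw => exact subset_span hw
    | zero => exact zero_mem _
    | add a b _ _ ha hb => exact add_mem ha hb
    | smul c a _ ha =>
      obtain ⟨u, hu⟩ := h.adj c.2
      have := mul_span hy (U := T φ i (N + 1)) (fun c hc e he => zero_add (N + 1) ▸
        add_T ⟨hc.1, Or.inr (dg_nonneg hc.1)⟩ he) hu ha
      convert add_mem this (smul_mem _ u ha) using 1
      rw [Algebra.smul_def u, sub_mul, sub_add_cancel]; rfl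
  have h3 := Lab.flat_inf h.sf (X := mn y '' T φ i (N + 1)) (Y := {x}) (by
    rintro w (hw | rfl)
    · exact ⟨1, one_mem _, one_ne_zero, by
        rw [one_mul]; exact hA _ (fun _ hc => hc.1) w (subset_span hw)⟩
    · exact ⟨1, one_mem _, one_ne_zero, by rw [one_mul]; exact hA _ (fun _ hc => hc.1) _ h1⟩)
    h2 (subset_span rfl)
  by_contra h0
  have h4 : ∀ w ∈ span O {w | w ∈ span A (mn y '' T φ i (N + 1)) ∧ w ∈ span A {x}},
      w / x ∈ span O (mn y '' {c | 0 ≤ φ c ∧ c ≠ 0}) := by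
    intro w hw
    induction hw using span_induction with
    | mem w hw =>
      obtain ⟨a, ha, rfl⟩ := mem_span_one.1 hw.2
      obtain ⟨u, hu⟩ := h.adj ha
      have h5 := mul_span hy (U := T φ i (N + 1))
        (fun c hc e he => add_T (H_sub hc) ⟨he.1, Or.inr (h.pos he.1 he.2)⟩) h1 hu
      have h6 : u • x ∈ span k (mn y '' T φ i (N + 1)) := by
        convert sub_mem (key _ hw.1) h5 using 1
        rw [Algebra.smul_def]; ring
      have h7 := (li_mn h.ind).disjoint_span_image (s := H φ i N) (t := T φ i (N + 1))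
        (Set.disjoint_left.2 fun c hc hc' => by
          have := hc.2.1
          have := hc.2.2
          have := hc'.2
          omega)
      obtain rfl : u = 0 :=
        (smul_eq_zero.1 (disjoint_def.1 h7 _ (smul_mem _ u h1) h6)).resolve_right h0
      rw [mul_div_cancel_left₀ _ h0]
      exact span_up (by simpa using hu)
    | zero => simp
    | add a b _ _ ha hb => rw [add_div]; exact add_mem ha hb
    | smul c a _ ha => rw [smul_div_assoc]; exact smul_mem _ _ ha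
  refine not_un_of_mem_span h.lcl ?_ (h4 x h3) (by rw [div_self h0]; exact Un.one O)
  rintro _ ⟨c, hc, rfl⟩
  exact ⟨h.mem hc.1, h.nu c hc.1 hc.2⟩

theorem Ce.prime (h : Ce φ y O) [IsNoetherianRing O] {a b : L} (ha : a ∈ O) (hb : b ∈ O)
    (H : a * b ∈ span O (mn y '' {c | 0 ≤ φ c ∧ 0 < φ c i})) :
    a ∈ span O (mn y '' {c | 0 ≤ φ c ∧ 0 < φ c i}) ∨
      b ∈ span O (mn y '' {c | 0 ≤ φ c ∧ 0 < φ c i}) := by
  have hy := h.ind.ne_zero
  by_contra hn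
  obtain ⟨N, u, u1, u2, u3⟩ := h.lead ha fun e => hn (Or.inl e)
  obtain ⟨M, v, v1, v2, v3⟩ := h.lead hb fun e => hn (Or.inr e)
  have u4 : u ∈ span O (mn y '' T φ i N) := span_up (span_mono (Set.image_mono H_sub) u1)
  have v4 : b ∈ span O (mn y '' T φ i M) := by
    rw [← sub_add_cancel b v]
    exact add_mem (span_mono (Set.image_mono fun c (hc : c ∈ T φ i (M + 1)) =>
      (⟨hc.1, hc.2.imp_right (by omega)⟩ : c ∈ T φ i M)) v3)
      (span_up (span_mono (Set.image_mono H_sub) v1))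
  refine mul_ne_zero u2 v2
    (h.eq_zero (i := i) (N := N + M) (mul_span hy (fun c hc e he => ?_) u1 v1) ?_)
  · exact ⟨by rw [map_add]; exact add_nonneg hc.1 he.1,
      by rw [map_add, Pi.add_apply, hc.2.1, he.2.1, add_zero], by rw [dg_add, hc.2.2, he.2.2]⟩
  · have h1 := mul_span hy (fun _ hc _ he => add_T hc he) u3 v4
    have h2 := mul_span hy (fun _ hc _ he => add_T hc he) u4 v3
    rw [add_right_comm] at h1
    rw [← add_assoc] at h2
    have h3 : a * b ∈ span O (mn y '' T φ i (N + M + 1)) :=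
      span_mono (Set.image_mono fun c hc => And.intro hc.1 (Or.inl hc.2)) H
    have e : u * v = a * b - (a - u) * b - u * (b - v) := by ring
    exact e ▸ sub_mem (sub_mem h3 h1) h2

end Pr

open Classical in
/-- The boundary divisors are irreducible at a toroidal point. -/
theorem TP.prime2 {n : ℕ} {K : IntermediateField k L} {D O : Subalgebra k L} {ι : Type}
    [Fintype ι] {r s : ℕ} {τ : Typ ι r} {z : Fin r → L} {t : Fin s → L} (h : TP n O τ z t)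
    (hA : Aff n K D O) {ρ : ι} (hρ : ρ ∈ τ.R) {a b : L} (ha : a ∈ O) (hb : b ∈ O)
    (H : a * b ∈ span O (mn z '' {c | c ∈ τ.Reg 0 ∧ 0 < τ.ev c ρ})) :
    a ∈ span O (mn z '' {c | c ∈ τ.Reg 0 ∧ 0 < τ.ev c ρ}) ∨
      b ∈ span O (mn z '' {c | c ∈ τ.Reg 0 ∧ 0 < τ.ev c ρ}) := by
  have := hA.noeth
  obtain ⟨h1, h2, -, -⟩ := h.kit hA
  let φ : (Fin r ⊕ Fin s → ℤ) →+ ι ⊕ Fin s → ℤ := AddMonoidHom.mk'
    (fun c => Sum.elim (fun σ => if σ ∈ τ.R then τ.ev (c ∘ .inl) σ else 0) (c ∘ .inr))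
    fun c e => by
      ext (σ | j)
      · have := τ.ev_add (c ∘ .inl) (e ∘ .inl) σ
        by_cases hσ : σ ∈ τ.R <;> simp [hσ]
        exact this
      · rfl
  have p1 : ∀ c, ∀ σ ∈ τ.R, φ c (.inl σ) = τ.ev (c ∘ .inl) σ := fun c σ hσ => if_pos hσ
  have p2 : ∀ c, 0 ≤ φ c ↔ c ∘ .inl ∈ τ.Reg 0 ∧ 0 ≤ c ∘ .inr := fun c => by
    refine ⟨fun hc => ⟨fun σ hσ => p1 c σ hσ ▸ hc (.inl σ), fun j => hc (.inr j)⟩, ?_⟩
    rintro hc (σ | j)
    · by_cases hσ : σ ∈ τ.R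
      · rw [p1 c σ hσ]; exact hc.1 σ hσ
      · exact (if_neg hσ).ge
    · exact hc.2 j
  have p3 : ∀ c, mn (Sum.elim z t) c = mn z (c ∘ .inl) * mn t (c ∘ .inr) := fun c =>
    Fintype.prod_sum_type _
  have p4 : ∀ c, mn (Sum.elim z t) (Sum.elim c 0) = mn z c := fun c => by
    rw [p3]; exact (congrArg _ (mn_zero t)).trans (mul_one _)
  have p5 : ∀ j, mn (Sum.elim z t) (Sum.elim 0 (Pi.single j 1)) = t j := fun j => by
    rw [p3, Sum.elim_comp_inl, Sum.elim_comp_inr, mn_zero, mn_single, one_mul, zpow_one]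
  have p6 : ∀ c, 0 ≤ c → mn t c ∈ O := fun c hc =>
    h.sup_le ((le_sup_right : _ ≤ TA k z τ ⊔ _) (mn_mem_adjoin t hc))
  have p7 : ∀ j, 0 ≤ φ (Sum.elim 0 (Pi.single j 1)) := fun j =>
    (p2 _).2 ⟨fun σ _ => (τ.ev_zero σ).ge, Pi.single_nonneg.2 zero_le_one⟩
  have e1 : span O (mn (Sum.elim z t) '' {c | 0 ≤ φ c ∧ 0 < φ c (.inl ρ)}) =
      span O (mn z '' {c | c ∈ τ.Reg 0 ∧ 0 < τ.ev c ρ}) := by
    refine le_antisymm (span_le.2 ?_) (span_mono ?_)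
    · rintro _ ⟨c, hc, rfl⟩
      rw [p3]
      exact mul_mem_span' (subset_span ⟨_, ⟨((p2 c).1 hc.1).1, p1 c ρ hρ ▸ hc.2⟩, rfl⟩)
        (p6 _ ((p2 c).1 hc.1).2)
    · rintro _ ⟨c, hc, rfl⟩
      exact ⟨Sum.elim c 0, ⟨(p2 _).2 ⟨hc.1, le_rfl⟩, by rw [p1 _ ρ hρ]; exact hc.2⟩, p4 c⟩
  have e2 : Algebra.adjoin k (mn (Sum.elim z t) '' {c | 0 ≤ φ c}) =
      TA k z τ ⊔ Algebra.adjoin k (Set.range t) := by
    refine le_antisymm (Algebra.adjoin_le ?_)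
      (_root_.sup_le (Algebra.adjoin_mono ?_) (Algebra.adjoin_mono ?_))
    · rintro _ ⟨c, hc, rfl⟩
      rw [p3]
      exact mul_mem ((le_sup_left : TA k z τ ≤ _) (mn_mem_TA ((p2 c).1 hc).1))
        ((le_sup_right : _ ≤ TA k z τ ⊔ _) (mn_mem_adjoin t ((p2 c).1 hc).2))
    · rintro _ ⟨c, hc, rfl⟩
      exact ⟨Sum.elim c 0, (p2 _).2 ⟨hc, le_rfl⟩, p4 c⟩
    · rintro _ ⟨j, rfl⟩
      exact ⟨_, p7 j, p5 j⟩
  rw [← e1] at H ⊢
  refine Pr.Ce.prime ⟨fun c hc => ?_, h1, e2 ▸ h2, hA.pt.lcl, fun c hc h0 hu => h0 ?_,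
    (h.par hA.rt).mono ?_⟩ ha hb H
  · ext (j | j)
    · exact congrFun (h.ptd (c ∘ .inl) fun σ hσ => p1 c σ hσ ▸ congrFun hc (.inl σ)) j
    · exact congrFun hc (.inr j)
  · obtain ⟨c1, c2⟩ := (p2 c).1 hc
    rw [p3] at hu
    have u1 := Un.of_mul (h.mem _ c1) (p6 _ c2) hu
    have u2 := Un.of_mul (p6 _ c2) (h.mem _ c1) (mul_comm (mn z _) _ ▸ hu)
    ext (j | j)
    · exact congrFun (not_not.1 fun e => h.nu _ c1 e u1) j
    · by_contra e
      exact not_un_of_mem_span hA.pt.lcl (by rintro _ rfl; exact h.tm j)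
        (mn_mem_span (fun j => ⟨(h.tm j).1, h1.ne_zero (.inr j)⟩) (fun j _ => c2 j)
          (lt_of_le_of_ne (c2 j) (Ne.symm e))) u2
  · rintro _ (⟨c, hc, rfl⟩ | ⟨j, rfl⟩)
    · exact subset_span ⟨Sum.elim c 0, ⟨(p2 _).2 ⟨hc.1, le_rfl⟩,
        fun e => hc.2 (congrArg (· ∘ Sum.inl) e)⟩, p4 c⟩
    · exact subset_span ⟨_, ⟨p7 j, fun e => by simpa using congrFun e (.inr j)⟩, p5 j⟩

end Pool.Agent.MP_19ffc6_ag.Res.B

end MrgPart1

-- ======== part 2: formerly Pool.Agent.MP_19ffc6_ag.Res.Label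
section MrgPart2

/-! Module LABEL of PROJECT RES: the boundary divisors label the toroidal charts. -/

namespace Pool.Agent.MP_19ffc6_ag.Res.Lab

open Pool.Agent.MP_19ffc6_ag.Wild Pool.Agent.MP_19ffc6_ag.Lci B Tor Filter Submodule

variable {k L : Type} [Field k] [Field L] [Algebra k L] {K : IntermediateField k L} {S : Finset L}

/-- The cone defined by a family of discrete valuations. -/
noncomputable def ty (K : IntermediateField k L) {ι : Type} {r : ℕ} (z : Fin r → L)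
    (w : ι → Subalgebra k L) (R : Set ι) : Typ ι r := ⟨R, fun ρ i => od K (w ρ) (z i)⟩

/-- The exponents of the monomials that vanish along `ρ`. -/
def Pos {ι : Type} {r : ℕ} (τ : Typ ι r) (ρ : ι) : Set (Fin r → ℤ) :=
  {c | c ∈ τ.Reg 0 ∧ 0 < τ.ev c ρ}

variable (k L) in
/-- Monomial coordinates and a finite family of valuation rings. -/
structure Dat where
  ι : Type
  [fin : Fintype ι]
  r : ℕ
  z : Fin r → L
  w : ι → Subalgebra k L
  R : Set ι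

attribute [instance] Dat.fin

/-- The cone of a datum. -/
noncomputable abbrev Dat.τ (d : Dat k L) (K : IntermediateField k L) : Typ d.ι d.r :=
  ty K d.z d.w d.R

/-- The datum describes the boundary near `O`. -/
structure Pk (K : IntermediateField k L) (S : Finset L) (d : Dat k L) (O : Subalgebra k L) :
    Prop where
  ptd : (d.τ K).Pointed
  str : (d.τ K).Strict
  fac : ∀ ρ ∈ d.R, ∃ c, (d.τ K).ev c ρ = 0 ∧ ∀ σ ∈ d.R, σ ≠ ρ → 0 < (d.τ K).ev c σ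
  ind : AlgebraicIndependent k d.z
  zK : ∀ i, d.z i ∈ K
  dvr : ∀ ρ ∈ d.R, Dvr K (d.w ρ) (pi K (d.w ρ))
  one : ∀ ρ ∈ d.R, ∃ c, (d.τ K).ev c ρ = 1
  see : ∀ ρ ∈ d.R, ∃ f ∈ S, ¬ Un (d.w ρ) f
  sf : SF (TA k d.z (d.τ K)) O
  mon : ∀ f ∈ S, ∃ c, Un O (f / mn d.z c) ∧ ∀ ρ ∈ d.R, Un (d.w ρ) (f / mn d.z c)
  act : ∀ ρ ∈ d.R, 1 ∈ Mon O d.z (Pos (d.τ K) ρ) ∨
    IsPoint O (d.w ρ) ∧ ∀ x ∈ O, ¬ Un (d.w ρ) x → x ∈ Mon O d.z (Pos (d.τ K) ρ)

lemma Mon_ev {X : Type} {l : Filter X} {O : Subalgebra k L} {r : ℕ} {z : Fin r → L}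
    {T : Set (Fin r → ℤ)} {J : X → Submodule O L} {y : X → L} {x : L}
    (h : ∀ c ∈ T, ∀ᶠ n in l, mn z c * y n ∈ J n) (hx : x ∈ Mon O z T) :
    ∀ᶠ n in l, x * y n ∈ J n := by
  induction hx using span_induction with
  | mem x hx => obtain ⟨c, hc, rfl⟩ := hx; exact h c hc
  | zero => simp
  | add a b _ _ ha hb => filter_upwards [ha, hb] with n h1 h2 using add_mul a b _ ▸ add_mem h1 h2
  | smul c a _ ha => exact ha.mono fun n h1 => smul_mul_assoc c a (y n) ▸ smul_mem _ c h1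

namespace Pk

variable {d d' : Dat k L} {O W : Subalgebra k L} {ρ : d.ι} {c : Fin d.r → ℤ} {x π : L} {n : ℤ}

lemma ne (h : Pk K S d O) (i : Fin d.r) : d.z i ≠ 0 := h.ind.ne_zero i

lemma mem (h : Pk K S d O) (hc : c ∈ (d.τ K).Reg 0) : mn d.z c ∈ O := h.sf.le (mn_mem_TA hc)

lemma le (h : Pk K S d O) (hx : x ∈ Mon O d.z ((d.τ K).Reg 0)) : x ∈ O :=
  mem_of_mem_span (by rintro _ ⟨c, hc, rfl⟩; exact h.mem hc) hx

lemma un (h : Pk K S d O) (hρ : ρ ∈ d.R) (c : Fin d.r → ℤ) :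
    Un (d.w ρ) (mn d.z c / pi K (d.w ρ) ^ (d.τ K).ev c ρ) :=
  (h.dvr ρ hρ).un_mn (fun i => ⟨h.zK i, h.ne i⟩) c

lemma iff (h : Pk K S d O) (hρ : ρ ∈ d.R) :
    mn d.z c / pi K (d.w ρ) ^ n ∈ d.w ρ ↔ n ≤ (d.τ K).ev c ρ := (h.dvr ρ hρ).mem_iff (h.un hρ c)

lemma pt (h : Pk K S d O) (hρ : ρ ∈ d.R) (hO : O ≤ d.w ρ) :
    IsPoint O (d.w ρ) ∧ ∀ x ∈ O, ¬ Un (d.w ρ) x → x ∈ Mon O d.z (Pos (d.τ K) ρ) := by
  refine (h.act ρ hρ).resolve_left fun h1 => ?_
  have h2 := h.dvr ρ hρ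
  obtain ⟨y, hy, e⟩ := mem_span_one.1 (Mon_le hO (J := span (d.w ρ) {pi K (d.w ρ)})
    (fun c hc => mem_span_one.2 ⟨_, (h.iff (n := 1) hρ).2 hc.2, by
      rw [zpow_one, mul_div_cancel₀ _ h2.ne]⟩) h1)
  exact h2.nu (Un.of_mul h2.mem hy (e ▸ Un.one _))

lemma step (h : Pk K S d O) (hρ : ρ ∈ d.R) (hx : x ∈ Mon O d.z {c | n ≤ (d.τ K).ev c ρ})
    (hw : O ≤ d.w ρ → x / pi K (d.w ρ) ^ (n + 1) ∈ d.w ρ) :
    x ∈ Mon O d.z {c | n + 1 ≤ (d.τ K).ev c ρ} := by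
  rcases h.act ρ hρ with h1 | ⟨h1, h2⟩
  · refine Mon_le le_rfl (fun c hc => ?_) hx
    rw [← one_mul (mn d.z c)]
    refine mul_mem_Mon h.ne (fun e he => ?_) h1
    have h2 : n ≤ _ := hc
    have := he.2
    rw [Set.mem_ofPred_eq, Typ.ev_add]
    omega
  obtain ⟨c, hc⟩ := h.one ρ hρ
  obtain ⟨e, he, he'⟩ := h.fac ρ hρ
  have h3 : e ∈ (d.τ K).Reg 0 := fun σ hσ => by
    by_cases a : σ = ρ
    · rw [a, he]; exact le_rfl
    · exact (he' σ hσ a).le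
  have h4 : ∀ N : ℕ, (d.τ K).ev (-n • c + N • e) ρ = -n := fun N => by
    rw [Typ.ev_add, Typ.ev_smul, Typ.ev_nsmul, hc, he]; ring
  obtain ⟨N, hN⟩ := (Mon_ev (l := atTop) (J := fun _ => Mon O d.z ((d.τ K).Reg 0))
    (y := fun N : ℕ => mn d.z (-n • c + N • e)) (fun f hf => (Typ.ev_add_reg (a := 0)
      (f := f + -n • c) h3 fun σ hσ a => by
        obtain rfl : σ = ρ := by_contra fun b => (he' σ hσ b).ne' a
        have h2 : n ≤ _ := hf
        rw [Typ.ev_add, Typ.ev_smul, hc, Pi.zero_apply]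
        omega).mono fun N hN => by
          rw [← mn_add h.ne, ← add_assoc]; exact mn_mem_Mon hN) hx).exists
  have h5 := h2 _ (h.le hN) fun hu => by
    have h6 := h.dvr ρ hρ
    have h7 := un_div hu (h.un hρ (-n • c + N • e))
    rw [h4, show x * mn d.z (-n • c + N • e) / (mn d.z (-n • c + N • e) / pi K (d.w ρ) ^ (-n)) =
      x / pi K (d.w ρ) ^ n by rw [zpow_neg]; field_simp [mn_ne_zero h.ne]] at h7
    have := (h6.mem_iff h7).1 (hw h1.le)
    omega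
  have h6 := mul_mem_Mon (c := -(-n • c + N • e)) (T' := {c | n + 1 ≤ (d.τ K).ev c ρ}) h.ne
    (fun f hf => by
      have := hf.2
      rw [Set.mem_ofPred_eq, Typ.ev_add, Typ.ev_neg, h4]
      omega) h5
  rwa [mn_neg, mul_inv_cancel_right₀ (mn_ne_zero h.ne _)] at h6

/-- The monomial modules are defined by the valuations. -/
lemma mem_reg (h : Pk K S d O) {a : d.ι → ℤ} (hx : x ∈ Mon O d.z Set.univ)
    (hw : ∀ ρ ∈ d.R, O ≤ d.w ρ → x / pi K (d.w ρ) ^ a ρ ∈ d.w ρ) :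
    x ∈ Mon O d.z ((d.τ K).Reg a) := by
  refine Mon_reg h.ind h.str h.sf hx fun ρ hρ => ?_
  obtain ⟨n, hn, h1⟩ := ((Mon_ev (l := atBot) (y := fun _ => 1)
    (J := fun n : ℤ => Mon O d.z {c | n ≤ (d.τ K).ev c ρ}) (fun c _ =>
      (eventually_le_atBot ((d.τ K).ev c ρ)).mono fun n hn => by
        rw [mul_one]; exact mn_mem_Mon hn) hx).and (eventually_le_atBot (a ρ))).exists
  rw [mul_one] at hn
  have key : ∀ m, n ≤ m → m ≤ a ρ → x ∈ Mon O d.z {c | m ≤ (d.τ K).ev c ρ} := fun m hm => by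
    induction m, hm using Int.leInduction with
    | base => exact fun _ => hn
    | succ m _ ih =>
      refine fun h2 => h.step hρ (ih (by omega)) fun hO => ?_
      have h3 := h.dvr ρ hρ
      rw [show x / pi K (d.w ρ) ^ (m + 1) = x / pi K (d.w ρ) ^ a ρ *
        pi K (d.w ρ) ^ (a ρ - (m + 1)) by rw [zpow_sub₀ h3.ne]; field_simp [h3.ne]]
      exact mul_mem (hw ρ hρ hO) (h3.zpow_mem.2 (by omega))
  exact key _ h1 le_rfl

lemma mem_reg_iff (h : Pk K S d O) {a : d.ι → ℤ} : x ∈ Mon O d.z ((d.τ K).Reg a) ↔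
    x ∈ Mon O d.z Set.univ ∧ ∀ ρ ∈ d.R, O ≤ d.w ρ → x / pi K (d.w ρ) ^ a ρ ∈ d.w ρ := by
  refine ⟨fun hx => ⟨span_mono (Set.image_mono (Set.subset_univ _)) hx, fun ρ hρ hO => ?_⟩,
    fun hx => h.mem_reg hx.1 hx.2⟩
  have h0 := zpow_ne_zero (a ρ) (h.dvr ρ hρ).ne
  obtain ⟨y, hy, rfl⟩ := mem_span_one.1 (Mon_le hO (J := span (d.w ρ) {pi K (d.w ρ) ^ a ρ})
    (T := (d.τ K).Reg a)
    (fun c hc => mem_span_one.2 ⟨_, (h.iff hρ).2 (hc ρ hρ), (mul_div_cancel₀ _ h0).symm⟩) hx)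
  rwa [mul_div_cancel_left₀ _ h0]

/-- Every boundary divisor through the point is one of the labels. -/
lemma lab (h : Pk K S d O) (hW : Dvr K W π) (hO : IsPoint O W) {f : L} (hf : f ∈ S)
    (hu : ¬ Un W f) : W ∈ d.w '' d.R := by
  have h1 : ∀ g ∈ (d.τ K).Reg 0, Un W (mn d.z g) → ¬ ∀ ρ ∈ d.R, 0 < (d.τ K).ev g ρ := by
    intro g hg hg' h0
    have h2 : ∀ c, mn d.z c ∈ W := fun c => by
      obtain ⟨N, hN⟩ := (Typ.ev_add_reg (a := 0) (f := c) hg fun ρ hρ e =>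
        absurd e (h0 ρ hρ).ne').exists
      rw [← add_sub_cancel_right c (N • g), mn_sub h.ne, mn_nsmul, div_eq_mul_inv]
      exact mul_mem (hO.le (h.mem hN)) (hg'.pow N).2.2
    obtain ⟨c, hc, -⟩ := h.mon f hf
    refine hu ?_
    have := (hc.mono hO.le).mul ⟨h2 c, mn_ne_zero h.ne c, mn_neg d.z c ▸ h2 _⟩
    rwa [div_mul_cancel₀ _ (mn_ne_zero h.ne c)] at this
  obtain ⟨ρ, hρ, h2⟩ : ∃ ρ ∈ d.R, ∀ c ∈ Pos (d.τ K) ρ, ¬ Un W (mn d.z c) := by
    by_contra H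
    push Not at H
    have key : ∀ s : Finset d.ι, ∃ g ∈ (d.τ K).Reg 0, Un W (mn d.z g) ∧
        ∀ ρ ∈ s, ρ ∈ d.R → 0 < (d.τ K).ev g ρ := fun s => by
      induction s using Finset.cons_induction with
      | empty => exact ⟨0, Typ.zero_mem_reg, by rw [mn_zero]; exact Un.one _, by simp⟩
      | cons ρ s _ ih =>
        obtain ⟨g, a, b, c⟩ := ih
        by_cases hρ : ρ ∈ d.R
        · obtain ⟨e, he, hu⟩ := H ρ hρ
          refine ⟨g + e, Typ.add_mem_reg0 a he.1, mn_add h.ne g e ▸ b.mul hu, fun σ hσ hσ' => ?_⟩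
          rw [Typ.ev_add]
          rcases Finset.mem_cons.1 hσ with rfl | hσ
          · exact add_pos_of_nonneg_of_pos (a _ hρ) he.2
          · exact add_pos_of_pos_of_nonneg (c σ hσ hσ') (he.1 σ hσ')
        · exact ⟨g, a, b, fun σ hσ hσ' => c σ ((Finset.mem_cons.1 hσ).resolve_left
            fun e => hρ (e ▸ hσ')) hσ'⟩
    obtain ⟨g, a, b, c⟩ := key Finset.univ
    exact h1 g a b fun ρ => c ρ (Finset.mem_univ _)
  have h3 : ∀ x ∈ Mon O d.z (Pos (d.τ K) ρ), ¬ Un W x := fun x hx =>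
    not_un_of_mem_span hO.lcl (by rintro _ ⟨c, hc, rfl⟩; exact ⟨hO.le (h.mem hc.1), h2 c hc⟩)
      (span_mono' hO.le le_rfl hx)
  obtain ⟨h4, h5⟩ := (h.act ρ hρ).resolve_left fun a => h3 _ a (Un.one _)
  have h6 := h.dvr ρ hρ
  exact ⟨ρ, hρ, hW.eq_of_le (IsPoint.of_un hO h4 fun x hx a => by_contra fun b =>
    h3 x (h5 x hx b) a).le h6.le (h6.le h6.mem) h6.ne h6.nu⟩

lemma lab' (h : Pk K S d O) (h' : Pk K S d' O) (hρ : ρ ∈ d.R) (hO : O ≤ d.w ρ) :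
    d.w ρ ∈ d'.w '' d'.R :=
  let ⟨_, hf, hu⟩ := h.see ρ hρ
  h'.lab (h.dvr ρ hρ) (h.pt hρ hO).1 hf hu

/-- Two data define the same monomial modules. -/
lemma compat (h : Pk K S d O) (h' : Pk K S d' O) (a : Subalgebra k L → ℤ)
    (hx : x ∈ Mon O d.z ((d.τ K).Reg (a ∘ d.w))) : x ∈ Mon O d'.z ((d'.τ K).Reg (a ∘ d'.w)) := by
  refine Mon_le le_rfl (fun c hc => h'.mem_reg ?_ fun σ hσ hO => ?_) hx
  · obtain ⟨g, hg⟩ := h'.str
    have hg' : g ∈ (d'.τ K).Reg 0 := fun σ hσ => (hg σ hσ).le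
    have h1 : ∀ ρ, ∀ᶠ N : ℕ in atTop, ρ ∈ d.R → O ≤ d.w ρ →
        mn d.z c * mn d'.z (N • g) ∈ d.w ρ := fun ρ => by
      filter_upwards [eventually_ge_atTop (-(d.τ K).ev c ρ).toNat] with N hN hρ hO
      obtain ⟨σ, hσ, e⟩ := h.lab' h' hρ hO
      have h2 := (h'.iff (c := N • g) (n := -(d.τ K).ev c ρ) hσ).2 (by
        have := hg σ hσ
        rw [Typ.ev_nsmul]
        nlinarith [Int.self_le_toNat (-(d.τ K).ev c ρ), Int.ofNat_le.2 hN])
      rw [e] at h2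
      have h3 := mul_mem (h.un hρ c).1 h2
      rwa [zpow_neg, div_inv_eq_mul, mul_comm (mn d'.z _), ← mul_assoc,
        div_mul_cancel₀ _ (zpow_ne_zero _ (h.dvr ρ hρ).ne)] at h3
    obtain ⟨N, hN⟩ := (eventually_all.2 h1).exists
    have h2 := h.le (h.mem_reg (a := 0) (mul_mem_span' (mn_mem_Mon (Set.mem_univ c))
      (h'.mem (Typ.nsmul_mem_reg hg' N))) fun ρ hρ hO => by simpa using hN ρ hρ hO)
    have h3 := mul_mem_span h2 (mn_mem_Mon (O := O) (z := d'.z) (Set.mem_univ (-(N • g))))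
    rwa [mn_neg, mul_inv_cancel_right₀ (mn_ne_zero h'.ne _)] at h3
  · obtain ⟨ρ, hρ, e⟩ := h'.lab' h hσ hO
    rw [Function.comp_apply, ← e]
    exact (h.iff hρ).2 (hc ρ hρ)

end Pk

section Loc

variable {n r s : ℕ} {D O : Subalgebra k L} {ι : Type} [Fintype ι] {τ : Typ ι r} {z : Fin r → L}
  {t : Fin s → L} {ρ : ι}

/-- The valuation ring of a boundary divisor. -/
lemma exists_dvr (h : TP n O τ z t) (ha : Aff n K D O) (hρ : ρ ∈ τ.R) :
    ∃ W, IsPoint O W ∧ (∀ x ∈ O, ¬ Un W x → x ∈ Mon O z (Pos τ ρ)) ∧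
      (∀ c, mn z c ∈ W ↔ 0 ≤ τ.ev c ρ) ∧ ∃ c, Dvr K W (mn z c) := by
  have h1 : 1 ∉ Mon O z (Pos τ ρ) := fun h1 => not_un_of_mem_span ha.pt.lcl (by
    rintro _ ⟨c, hc, rfl⟩
    exact ⟨h.mem c hc.1, h.nu c hc.1 fun e => hc.2.ne' (by rw [e, Typ.ev_zero])⟩) h1 (Un.one _)
  let P : Ideal O := (Mon O z (Pos τ ρ)).comap (Algebra.linearMap O L)
  have : P.IsPrime := ⟨fun e => h1 (show (1 : O) ∈ P from e ▸ trivial),
    fun {a b} hab => h.prime2 ha hρ a.2 b.2 hab⟩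
  obtain ⟨W, hW, hu⟩ := exists_point O P
  have h2 : ∀ x ∈ O, ¬ Un W x ↔ x ∈ Mon O z (Pos τ ρ) := fun x hx =>
    (hu ⟨x, hx⟩).not.trans not_not
  obtain ⟨e, he, he'⟩ := h.fac ρ hρ
  have h3 : e ∈ τ.Reg 0 := fun σ hσ => by
    by_cases a : σ = ρ
    · rw [a, he]; exact le_rfl
    · exact (he' σ hσ a).le
  have h4 : Un W (mn z e) := by_contra fun a => h1 (by
    have := mul_mem_Mon (c := -e) (T' := Pos τ ρ) h.ne (fun f hf => ⟨hf.2, by
      rw [Typ.ev_add, Typ.ev_neg, he]; simpa using hf.1.2⟩)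
      (Mon_inter (T := Pos τ ρ) (T' := {f | f + -e ∈ τ.Reg 0}) (h.at ha).ind h.str (h.at ha).sf
        (fun f hf c hc => ⟨Typ.add_mem_reg0 hc hf.1, by
          rw [Typ.ev_add]; exact add_pos_of_nonneg_of_pos (hc ρ hρ) hf.2⟩)
        (fun f hf c hc => by rw [Set.mem_ofPred_eq, add_assoc]; exact Typ.add_mem_reg0 hc hf)
        ((h2 _ (h.mem e h3)).1 a) (mn_mem_Mon (by simpa using Typ.zero_mem_reg)))
    rwa [mn_neg, mul_inv_cancel₀ (mn_ne_zero h.ne _)] at this)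
  have h5 : ∀ c, 0 ≤ τ.ev c ρ → ∃ N : ℕ, c + N • e ∈ τ.Reg 0 := fun c hc =>
    (Typ.ev_add_reg h3 fun σ hσ a => by
      obtain rfl : σ = ρ := by_contra fun b => (he' σ hσ b).ne' a
      exact hc).exists
  have h6 : ∀ c, mn z c ∈ W ↔ 0 ≤ τ.ev c ρ := fun c => by
    refine ⟨fun a => not_lt.1 fun b => ?_, fun a => ?_⟩
    · have b' : 0 < τ.ev (-c) ρ := by rw [Typ.ev_neg]; omega
      obtain ⟨N, hN⟩ := h5 _ b'.le
      refine (h2 _ (h.mem _ hN)).2 (mn_mem_Mon ⟨hN, by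
        rwa [Typ.ev_add, Typ.ev_nsmul, he, mul_zero, add_zero]⟩)
        ⟨hW.le (h.mem _ hN), mn_ne_zero h.ne _, ?_⟩
      rw [mn_add h.ne, mn_neg, mn_nsmul, mul_inv, inv_inv]
      exact mul_mem a (h4.pow N).2.2
    · obtain ⟨N, hN⟩ := h5 _ a
      rw [← add_sub_cancel_right c (N • e), mn_sub h.ne, mn_nsmul, div_eq_mul_inv]
      exact mul_mem (hW.le (h.mem _ hN)) (h4.pow N).2.2
  obtain ⟨m, ⟨c, rfl, hc⟩, hm⟩ := Int.exists_least_of_bdd (P := fun m => ∃ c, τ.ev c ρ = m ∧ 0 < m)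
    ⟨0, fun m ⟨_, _, a⟩ => a.le⟩ (let ⟨g, hg⟩ := h.str; ⟨_, g, rfl, hg ρ hρ⟩)
  have := ha.noeth
  have := hW.isNoetherianRing
  refine ⟨W, hW, fun x hx => (h2 x hx).1, h6, c, dvr_of (IsPoint.le_field hW ha.le_field)
    ((h6 c).2 hc.le) (mn_ne_zero h.ne c) (fun a => ?_) (fun x hx a => ?_) fun x hx => ?_⟩
  · have := (h6 (-c)).1 (mn_neg z c ▸ a.2.2)
    rw [Typ.ev_neg] at this
    omega
  · obtain ⟨u, hu, v, hv, hv', rfl⟩ := hW.le_loc hx
    obtain ⟨y, hy, rfl⟩ := mem_span_one.1 (Mon_le hW.le (J := span W {mn z c}) (fun f hf =>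
      mem_span_one.2 ⟨_, (h6 (f - c)).2 (by
        rw [Typ.ev_sub]; exact sub_nonneg.2 (hm _ ⟨f, rfl, hf.2⟩)), by
        rw [← mn_add h.ne, add_sub_cancel]⟩) ((h2 u hu).1 fun b => a (un_div b hv')))
    rw [show mn z c * y / v / mn z c = y * v⁻¹ by field_simp [mn_ne_zero h.ne c]]
    exact mul_mem hy hv'.2.2
  · obtain ⟨b, hb, hb0, hbx⟩ := ha.frac x hx
    exact ⟨b, hW.le (ha.pt.le hb), hb0, hW.le (ha.pt.le hbx)⟩

/-- A toroidal point has a neighbourhood that is described by one datum. -/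
lemma exists_dat (h : TP n O τ z t) (ha : Aff n K D O) (hs : Sees S O τ z) :
    ∃ w : ι → Subalgebra k L, (∀ ρ ∈ τ.R, IsPoint O (w ρ)) ∧
      ∀ᶠ O' in nb D O, Pk K S ⟨ι, r, z, w, τ.R⟩ O' := by
  choose! w h1 h2 h3 c h4 using fun ρ (hρ : ρ ∈ τ.R) => exists_dvr h ha hρ
  let τ' := ty K z w τ.R
  have hu : ∀ ρ ∈ τ.R, ∀ c, Un (w ρ) (mn z c / pi K (w ρ) ^ τ'.ev c ρ) := fun ρ hρ =>
    (h4 ρ hρ).un_mn fun i => ⟨h.mem_field ha i, h.ne i⟩
  have e0 : ∀ ρ ∈ τ.R, ∀ c, 0 ≤ τ'.ev c ρ ↔ 0 ≤ τ.ev c ρ := fun ρ hρ c => by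
    rw [← h3 ρ hρ, ← (h4 ρ hρ).pi.mem_iff (hu ρ hρ c), zpow_zero, div_one]
  have e1 : ∀ ρ ∈ τ.R, ∀ c, 0 < τ'.ev c ρ ↔ 0 < τ.ev c ρ := fun ρ hρ c => by
    have := e0 ρ hρ (-c)
    rw [Typ.ev_neg, Typ.ev_neg] at this
    omega
  have e2 : ∀ ρ ∈ τ.R, ∀ c, τ'.ev c ρ = 0 ↔ τ.ev c ρ = 0 := fun ρ hρ c => by
    have := e0 ρ hρ c
    have := e1 ρ hρ c
    omega
  have e3 : τ'.Reg 0 = τ.Reg 0 := Set.ext fun c => forall₂_congr fun ρ hρ => e0 ρ hρ c
  have e4 : ∀ ρ ∈ τ.R, Pos τ' ρ = Pos τ ρ := fun ρ hρ => Set.ext fun c =>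
    and_congr (by rw [e3]) (e1 ρ hρ c)
  have e5 : TA k z τ' = TA k z τ := by rw [TA, TA, e3]
  choose! q hq using hs.1
  refine ⟨w, h1, ?_⟩
  filter_upwards [ev_sf ha.pt ha.fg (TA_fg h.ptd h.ne) (h.at ha).sf,
    (eventually_all_finset S).2 fun f hf => ev_un ha.pt (hq f hf),
    (eventually_all_finite τ.R.toFinite).2 fun ρ hρ => ev_prime ha.pt ha.fg (h1 ρ hρ) (h2 ρ hρ)]
    with O' a b c'
  refine ⟨fun c hc => h.ptd c fun ρ hρ => (e2 ρ hρ c).1 (hc ρ hρ),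
    h.str.imp fun g hg ρ hρ => (e1 ρ hρ g).2 (hg ρ hρ),
    fun ρ hρ => (h.fac ρ hρ).imp fun c hc =>
      ⟨(e2 ρ hρ c).2 hc.1, fun σ hσ b => (e1 σ hσ c).2 (hc.2 σ hσ b)⟩,
    (h.at ha).ind, h.mem_field ha, fun ρ hρ => (h4 ρ hρ).pi,
    fun ρ hρ => ⟨c ρ, (h4 ρ hρ).pi.uniq (hu ρ hρ _) ((h4 ρ hρ).un_div (h4 ρ hρ).pi)⟩,
    fun ρ hρ => ?_, e5.symm ▸ a, fun f hf => ⟨_, b f hf, fun ρ hρ =>
      (hq f hf).mono (h1 ρ hρ).le⟩, fun ρ hρ => (e4 ρ hρ).symm ▸ c' ρ hρ⟩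
  obtain ⟨f, hf, e, he, he'⟩ := hs.2 ρ hρ
  refine ⟨f, hf, fun hu => he' ?_⟩
  have h5 := un_div hu (he.mono (h1 ρ hρ).le)
  rw [div_div_cancel₀ hu.2.1] at h5
  have h6 := (h3 ρ hρ e).1 h5.1
  have h7 := (h3 ρ hρ (-e)).1 (mn_neg z e ▸ h5.2.2)
  rw [Typ.ev_neg] at h7
  omega

end Loc

lemma fa {ι ι' X : Type} {w : ι → X} {w' : ι' → X} {R : Set ι} {R' : Set ι'}
    (h : w '' R = w' '' R') (p : X → Prop) : (∀ ρ ∈ R, p (w ρ)) ↔ ∀ ρ ∈ R', p (w' ρ) := by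
  rw [← Set.forall_mem_image, h, Set.forall_mem_image]

/-- The chart of a datum, labelled by the members of `V`. -/
noncomputable def Dat.ch (d : Dat k L) (K : IntermediateField k L) (V : Set (Subalgebra k L)) :
    Ch L V := ⟨d.r, ty K d.z Subtype.val {W | W.1 ∈ d.w '' d.R}, d.z⟩

instance : Nonempty (Dat k L) := ⟨⟨Empty, 0, 0, fun _ => ⊥, ∅⟩⟩

variable {n : ℕ} {M : Submodule k L}

/-- Every point has a neighbourhood that is described by one datum. -/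
lemma exists_near [IsAlgClosed k] (hn : Algebra.trdeg k K = n) (h : TorForm n K S M) :
    ∀ g ∈ M, g ≠ 0 → ∀ O₀, IsPoint (chart ⊥ M g) O₀ →
      ∃ d : Dat k L, ∀ᶠ O in nb (chart ⊥ M g) O₀, Pk K S d O := fun g hg h0 O₀ hO => by
  have hD := chart_fg Subalgebra.fg_bot h.1.fg g
  obtain ⟨O₁, h1, h2, h3⟩ := exists_rat hD hO
  obtain ⟨ι, _, r, s, τ, z, t, h4, h5⟩ := h.2 O₁ ⟨g, hg, h0, h1⟩ h2
  obtain ⟨w, -, h, a, b, c⟩ := exists_dat h4
    ⟨hn, hD, B.chart_le_field h.1.le hg, h.1.frac g hg h0, h1, h2⟩ h5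
  exact ⟨_, h, a, b.mono h3.le, c⟩

/-- Finitely many data describe all points. -/
lemma exists_fin (hM : M.FG) (hA : ∀ g ∈ M, g ≠ 0 → ∀ O₀, IsPoint (chart ⊥ M g) O₀ →
      ∃ d : Dat k L, ∀ᶠ O in nb (chart ⊥ M g) O₀, Pk K S d O) :
    ∃ F : Set (Dat k L), F.Finite ∧ ∀ O, Pt ⊥ M O → ∃ d ∈ F, Pk K S d O := by
  obtain ⟨T, hT0, rfl⟩ := exists_span hM
  have key : ∀ t ∈ T, ∃ F : Set (Dat k L), F.Finite ∧
      ∀ O, IsPoint (chart ⊥ (span k (T : Set L)) t) O → ∃ d ∈ F, Pk K S d O := fun t ht => by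
    choose d h a b c using fun O : {O // IsPoint (chart ⊥ (span k (T : Set L)) t) O} =>
      hA t (subset_span ht) (hT0 t ht) O.1 O.2
    obtain ⟨C, hC, H⟩ := exists_cover h a fun O hO => ⟨⟨O, hO⟩, b ⟨O, hO⟩⟩
    exact ⟨d '' C, hC.image _, fun O hO =>
      let ⟨i, hi, hu⟩ := H O hO; ⟨_, ⟨i, hi, rfl⟩, c i O hO hu⟩⟩
  choose! F h1 h2 using key
  refine ⟨⋃ t ∈ T, F t, T.finite_toSet.biUnion h1, fun O ⟨g, hg, h0, hO⟩ => ?_⟩
  obtain ⟨t, ht, -, h3⟩ := IsPoint.exists_chart hO hg h0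
  obtain ⟨d, hd, h4⟩ := h2 t ht O h3
  exact ⟨d, Set.mem_biUnion ht hd, h4⟩

lemma Dat.reg_ch {d : Dat k L} {V : Set (Subalgebra k L)} (h : d.w '' d.R ⊆ V)
    (a : Subalgebra k L → ℤ) : (d.ch K V).τ.Reg (a ∘ Subtype.val) = (d.τ K).Reg (a ∘ d.w) :=
  Set.ext fun c => fa (Subtype.coe_image_of_subset h) fun W => a W ≤ (fun i => od K W (d.z i)) ⬝ᵥ c

/-- The toroidal system defined by a choice of data. -/
theorem good (hM : M.FG) (hM0 : M ≠ ⊥) (hA : ∀ g ∈ M, g ≠ 0 → ∀ O₀, IsPoint (chart ⊥ M g) O₀ →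
      ∃ d : Dat k L, ∀ᶠ O in nb (chart ⊥ M g) O₀, Pk K S d O) {V : Set (Subalgebra k L)}
    [Fintype V] {d : Subalgebra k L → Dat k L} (hF : (d '' {O | Pt ⊥ M O}).Finite)
    (hp : ∀ O, Pt ⊥ M O → Pk K S (d O) O) (hV : ∀ O, Pt ⊥ M O → (d O).w '' (d O).R ⊆ V) :
    TS.Good ⟨V, M, fun O => (d O).ch K V⟩ ∧
      ∀ f ∈ S, TS.HasExp ⟨V, M, fun O => (d O).ch K V⟩ f fun W => od K W.1 f := by
  have e : ∀ O, Pt ⊥ M O → Subtype.val '' ((d O).ch K V).τ.R = (d O).w '' (d O).R := fun O hO =>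
    Subtype.coe_image_of_subset (hV O hO)
  refine ⟨⟨hM, hM0, (hF.image fun d => (d.ch K V).ty).subset ?_, fun O hO => ⟨fun c hc =>
      (hp O hO).ptd c ((fa (e O hO) fun W => (fun i => od K W ((d O).z i)) ⬝ᵥ c = 0).1 hc),
      (hp O hO).str.imp fun c hc =>
        (fa (e O hO) fun W => 0 < (fun i => od K W ((d O).z i)) ⬝ᵥ c).2 hc, (hp O hO).ind, ?_⟩,
    fun a => glob_local hM _ fun g hg h0 O₀ hO => ?_⟩, fun f hf O hO => ?_⟩
  · rintro _ ⟨O, hO, rfl⟩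
    exact ⟨_, ⟨O, hO, rfl⟩, rfl⟩
  · have := (hp O hO).sf
    rwa [TA, ← show _ = ((d O).τ K).Reg 0 from Dat.reg_ch (hV O hO) 0] at this
  · obtain ⟨a, rfl⟩ : ∃ b : Subalgebra k L → ℤ, a = b ∘ Subtype.val :=
      ⟨_, (Function.extend_comp Subtype.val_injective a 0).symm⟩
    obtain ⟨d', hd'⟩ := hA g hg h0 O₀ hO
    obtain ⟨G, h1, h2, h3⟩ := Typ.reg_fg (τ := d'.τ K) (a ∘ d'.w) _ le_rfl
    refine ⟨mn d'.z '' G, h1.image _, ?_⟩
    filter_upwards [hd', ev_pt _ _] with O h4 h5 x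
    have h6 : Pt ⊥ M O := ⟨g, hg, h0, h5⟩
    change x ∈ sp O (ms k (d O).z (((d O).ch K V).τ.Reg (a ∘ Subtype.val))) ↔ _
    rw [Dat.reg_ch (hV O h6), mem_sp_ms]
    refine ⟨fun hx => Mon_le le_rfl (fun c hc => ?_) ((hp O h6).compat h4 a hx),
      fun hx => h4.compat (hp O h6) a (span_mono (Set.image_mono h2) hx)⟩
    obtain ⟨f, hf, h7⟩ := h3 c hc
    rw [← sub_add_cancel c f, mn_add h4.ne]
    exact mul_mem_span (h4.mem h7) (mn_mem_Mon hf)
  · obtain ⟨c, h1, h2⟩ := (hp O hO).mon f hf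
    refine ⟨c, (fa (e O hO) fun W => (fun i => od K W ((d O).z i)) ⬝ᵥ c = od K W f).2
      fun ρ hρ => ?_, h1⟩
    have h3 := (hp O hO).dvr ρ hρ
    have h4 := (h2 ρ hρ).mul ((hp O hO).un hρ c)
    have h5 := mn_ne_zero (hp O hO).ne c
    rw [div_mul_div_cancel₀ h5] at h4
    refine h3.uniq h4 (h3.od_spec ?_ fun b => h1.2.1 (by rw [b, zero_div]))
    rw [← div_mul_cancel₀ f h5]
    exact K.mul_mem (h3.le (h2 ρ hρ).1) (mn_mem_field (hp O hO).zK c)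

/-- Module LABEL. -/
theorem label [IsAlgClosed k] : LabelStmt k L := by
  intro n K S M hn h
  have hA := exists_near hn h
  obtain ⟨F, hF, hc⟩ := exists_fin h.1.fg hA
  choose! d hd hp using hc
  let _ := (hF.biUnion fun d _ => d.R.toFinite.image d.w).fintype
  obtain ⟨h1, h2⟩ := good h.1.fg h.1.ne hA (V := ⋃ d ∈ F, d.w '' d.R)
    (hF.subset (by rintro _ ⟨O, hO, rfl⟩; exact hd O hO)) hp
    fun O hO W hW => Set.mem_biUnion (hd O hO) hW
  exact ⟨_, rfl, h1, fun f hf => ⟨_, h2 f hf⟩, fun O hO => (hp O hO).zK⟩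

end Pool.Agent.MP_19ffc6_ag.Res.Lab

end MrgPart2

-- marker of a merged file
example : 731051 + 612596 = 731051 + 612596 := rfl
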