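import Pool.Agent.MP_19ffc6_ag.Res.PSpec
import Pool.Agent.MP_19ffc6_ag.Res.Label

/-! Module LABELP of PROJECT RESP: the boundary divisors are labelled by invariant vectors. -/

namespace Pool.Agent.MP_19ffc6_ag.Res.P

open Pool.Agent.MP_19ffc6_ag.Wild Pool.Agent.MP_19ffc6_ag.Lci B Tor Lab Filter Submodule

variable {k L : Type} [Field k] [Field L] [Algebra k L]

namespace Lb

section Act

variable {g : SA k L} {A D O W : Subalgebra k L} {x π : L} {K₀ : Subfield L}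
  {K : IntermediateField k L} {M : Submodule k L}

lemma div_s (g : SA k L) (x y : L) : g • (x / y) = g • x / g • y := map_div₀ g.e x y

lemma zpow_s (g : SA k L) (x : L) (n : ℤ) : g • x ^ n = (g • x) ^ n := map_zpow₀ g.e x n

lemma ne_s (h : x ≠ 0) : g • x ≠ 0 := (map_ne_zero g.e).2 h

lemma mn_s {r : ℕ} (z : Fin r → L) (c : Fin r → ℤ) : g • mn z c = mn (fun i => g • z i) c :=
  (map_prod g.e _ _).trans (Finset.prod_congr rfl fun _ _ => zpow_s g _ _)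

lemma un_s : Un (g • O) (g • x) ↔ Un O x := by
  rw [Un, Un, ← smul_inv'', smul_mem_sA, smul_mem_sA, smul_ne_zero_iff_ne]

lemma eq_s (h : A ≤ g⁻¹ • D) (h' : D ≤ g • A) : g • A = D :=
  le_antisymm (fun x hx => by simpa only [mem_sA, smul_inv_smul, inv_inv] using h hx) h'

lemma pt_s (h : IsPoint D O) : IsPoint (g • D) (g • O) := by
  refine ⟨fun _ hx => h.le hx, fun x hx y hy hu => ?_, fun x hx => ?_⟩
  · obtain ⟨x, rfl⟩ := MulAction.surjective g x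
    obtain ⟨y, rfl⟩ := MulAction.surjective g y
    rw [← smul_add, un_s] at hu
    rw [un_s, un_s]
    exact h.lcl x (smul_mem_sA.1 hx) y (smul_mem_sA.1 hy) hu
  · obtain ⟨x, rfl⟩ := MulAction.surjective g x
    obtain ⟨a, ha, b, hb, hu, rfl⟩ := h.le_loc (smul_mem_sA.1 hx)
    exact ⟨_, smul_mem_sA.2 ha, _, smul_mem_sA.2 hb, un_s.2 hu, div_s g a b⟩

lemma Pt_s (hM : Stb K₀ M) (hg : Fx K₀ g) (h : Pt ⊥ M O) : Pt ⊥ M (g • O) := by
  obtain ⟨m, hm, h0, h⟩ := h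
  refine ⟨g • m, hM g hg m hm, ne_s h0, eq_s (g := g) (A := chart ⊥ M m)
    (chart_le bot_le fun y hy => ?_) (chart_le bot_le fun y hy => ?_) ▸ pt_s h⟩
  · rw [mem_sA, inv_inv, div_s]; exact div_mem_chart _ _ (hM g hg y hy)
  · rw [mem_sA, div_s, inv_smul_smul]; exact div_mem_chart _ _ (hM _ hg.inv y hy)

lemma mem_s (h : Gl K₀ K) (hg : Fx K₀ g) (hx : x ∈ K) : g • x ∈ K := by
  rw [h.eq] at hx ⊢
  induction hx using IntermediateField.adjoin_induction with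
  | mem x hx => rw [hg x hx]; exact IntermediateField.subset_adjoin _ _ hx
  | algebraMap c => rw [SA.smul_alg]; exact IntermediateField.algebraMap_mem _ _
  | add a b _ _ ha hb => rw [smul_add]; exact add_mem ha hb
  | inv a _ ha => rw [smul_inv'']; exact inv_mem ha
  | mul a b _ _ ha hb => rw [smul_mul']; exact mul_mem ha hb

/-- The isomorphism of `A` with its conjugate. -/
def eqv (g : SA k L) (A : Subalgebra k L) : A ≃+* ↥(g • A) where
  toFun x := ⟨g • x.1, smul_mem_sA.2 x.2⟩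
  invFun x := ⟨g⁻¹ • x.1, x.2⟩
  left_inv x := Subtype.ext (inv_smul_smul g x.1)
  right_inv x := Subtype.ext (smul_inv_smul g x.1)
  map_mul' x y := Subtype.ext (smul_mul' g x.1 y.1)
  map_add' x y := Subtype.ext (smul_add g x.1 y.1)

lemma sf_s (h : SF A O) : SF (g • A) (g • O) := by
  obtain ⟨hle, h1, h2⟩ := h
  have hle' : g • A ≤ g • O := fun _ hx => hle hx
  have e : (Subalgebra.inclusion hle').toRingHom = (eqv g O).toRingHom.comp
      ((Subalgebra.inclusion hle).toRingHom.comp (eqv g A).symm.toRingHom) :=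
    RingHom.ext fun x => Subtype.ext (smul_inv_smul g x.1).symm
  refine ⟨hle', ?_, ?_⟩ <;> rw [e]
  · exact ((RingHom.FormallySmooth.of_bijective (eqv g A).symm.bijective).comp h1).comp
      (.of_bijective (eqv g O).bijective)
  · exact ((RingHom.Flat.of_bijective (eqv g A).symm.bijective).comp h2).comp
      (.of_bijective (eqv g O).bijective)

variable {ι : Type} {r : ℕ} {z : Fin r → L} {T : Set (Fin r → ℤ)}

lemma ind_s (h : AlgebraicIndependent k z) : AlgebraicIndependent k fun i => g • z i :=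
  h.ringHom_of_comp_eq (f := g.σ.toRingHom) (g := g.e.toRingHom) g.σ.surjective g.e.injective
    (RingHom.ext fun c => (g.map c).symm)

lemma TA_s (τ : Typ ι r) : g • TA k z τ = TA k (fun i => g • z i) τ :=
  eq_s (TA_le fun c hc => by rw [mem_sA, inv_inv, mn_s]; exact mn_mem_TA hc)
    (TA_le fun c hc => by rw [← mn_s, smul_mem_sA]; exact mn_mem_TA hc)

lemma Mon_s (hx : x ∈ Mon O z T) : g • x ∈ Mon (g • O) (fun i => g • z i) T := by
  induction hx using span_induction with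
  | mem x hx => obtain ⟨c, hc, rfl⟩ := hx; rw [mn_s]; exact mn_mem_Mon hc
  | zero => rw [smul_zero]; exact zero_mem _
  | add a b _ _ ha hb => rw [smul_add]; exact add_mem ha hb
  | smul c a _ ha =>
    rw [Subalgebra.smul_def, smul_eq_mul, smul_mul']
    exact mul_mem_sub _ (smul_mem_sA.2 c.2) ha

lemma dvr_s (h : Gl K₀ K) (hg : Fx K₀ g) (hW : Dvr K W π) : Dvr K (g • W) (g • π) := by
  refine ⟨fun x hx => smul_inv_smul g x ▸ mem_s h hg (hW.le hx), smul_mem_sA.2 hW.mem,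
    ne_s hW.ne, mt un_s.1 hW.nu, fun x hx h0 => ?_⟩
  obtain ⟨n, hn⟩ := hW.ex _ (mem_s h hg.inv hx) (ne_s h0)
  exact ⟨n, by simpa only [div_s, zpow_s, smul_inv_smul] using (un_s (g := g)).2 hn⟩

lemma od_s (h : Gl K₀ K) (hg : Fx K₀ g) (hW : Dvr K W π) (hx : x ∈ K) (h0 : x ≠ 0) :
    od K (g • W) (g • x) = od K W x := by
  have h1 := dvr_s h hg hW.pi
  have h2 := ((un_s (g := g)).2 (hW.od_spec hx h0)).mul (un_zpow (h1.un_div h1.pi) (od K W x))
  rw [div_s, zpow_s, zpow_one, div_zpow, div_mul_div_cancel₀ (zpow_ne_zero _ h1.ne)] at h2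
  exact h1.pi.uniq (h1.od_spec (mem_s h hg hx) (ne_s h0)) h2

/-- The conjugate of a datum. -/
abbrev cj (g : SA k L) (d : Dat k L) : Dat k L :=
  ⟨d.ι, d.r, fun i => g • d.z i, fun ρ => g • d.w ρ, d.R⟩

variable {S : Finset L} {d : Dat k L}

lemma ev_s (h : Gl K₀ K) (hg : Fx K₀ g) (hp : Pk K S d O) {ρ : d.ι} (hρ : ρ ∈ d.R)
    (c : Fin d.r → ℤ) : ((cj g d).τ K).ev c ρ = (d.τ K).ev c ρ :=
  congrArg (· ⬝ᵥ c) (funext fun i => od_s h hg (hp.dvr ρ hρ) (hp.zK i) (hp.ne i))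

lemma pk_s (h : Gl K₀ K) (hg : Fx K₀ g) (hS : ∀ f ∈ S, f ∈ K₀) (hp : Pk K S d O) :
    Pk K S (cj g d) (g • O) := by
  have e := fun ρ hρ => ev_s h hg hp (ρ := ρ) hρ
  have e1 : ((cj g d).τ K).Reg 0 = (d.τ K).Reg 0 :=
    Set.ext fun c => forall₂_congr fun ρ hρ => by rw [e ρ hρ]
  have e2 : ∀ ρ ∈ d.R, Pos ((cj g d).τ K) ρ = Pos (d.τ K) ρ := fun ρ hρ =>
    Set.ext fun c => and_congr (by rw [e1]) (by rw [e ρ hρ])
  refine ⟨fun c hc => hp.ptd c fun ρ hρ => e ρ hρ c ▸ hc ρ hρ,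
    hp.str.imp fun c hc ρ hρ => (e ρ hρ c).symm ▸ hc ρ hρ, fun ρ hρ => (hp.fac ρ hρ).imp
      fun c hc => ⟨(e ρ hρ c).trans hc.1, fun σ hσ b => (e σ hσ c).symm ▸ hc.2 σ hσ b⟩,
    ind_s hp.ind, fun i => mem_s h hg (hp.zK i), fun ρ hρ => (dvr_s h hg (hp.dvr ρ hρ)).pi,
    fun ρ hρ => (hp.one ρ hρ).imp fun c hc => (e ρ hρ c).trans hc, fun ρ hρ => (hp.see ρ hρ).imp
      fun f hf => ⟨hf.1, fun hu => hf.2 (un_s.1 ((hg f (hS f hf.1)).symm ▸ hu))⟩, ?_,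
    fun f hf => (hp.mon f hf).imp fun c hc => ?_, fun ρ hρ => ?_⟩
  · have := sf_s (g := g) hp.sf
    rwa [TA_s, TA, ← e1] at this
  · have e3 : f / mn (fun i => g • d.z i) c = g • (f / mn d.z c) := by
      rw [div_s, mn_s, hg f (hS f hf)]
    rw [e3]
    exact ⟨un_s.2 hc.1, fun ρ hρ => un_s.2 (hc.2 ρ hρ)⟩
  · rw [e2 ρ hρ]
    refine (hp.act ρ hρ).imp (fun a => smul_one g (N := L) ▸ Mon_s a) fun a =>
      ⟨pt_s a.1, fun x hx hu => ?_⟩
    obtain ⟨x, rfl⟩ := MulAction.surjective g x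
    exact Mon_s (a.2 x (smul_mem_sA.1 hx) (mt un_s.2 hu))

end Act

section Push

variable {ι ι' : Type} {r : ℕ}

open Classical in
/-- The cone with new labels. -/
noncomputable def push (τ : Typ ι r) (v : ι → ι') : Typ ι' r :=
  ⟨v '' τ.R, fun x => if h : ∃ ρ ∈ τ.R, v ρ = x then τ.row h.choose else 0⟩

/-- Forms with the same label are equal. -/
def Wd (τ : Typ ι r) (v : ι → ι') : Prop :=
  ∀ ρ ∈ τ.R, ∀ σ ∈ τ.R, v ρ = v σ → τ.row ρ = τ.row σ

variable {τ : Typ ι r} {v : ι → ι'}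

lemma Wd.fa (h : Wd τ v) (c : Fin r → ℤ) (p : ι' → ℤ → Prop) :
    (∀ x ∈ (push τ v).R, p x ((push τ v).ev c x)) ↔ ∀ ρ ∈ τ.R, p (v ρ) (τ.ev c ρ) := by
  refine Set.forall_mem_image.trans (forall₂_congr fun ρ hρ => ?_)
  have h1 : ∃ σ ∈ τ.R, v σ = v ρ := ⟨ρ, hρ, rfl⟩
  rw [Typ.ev, Typ.ev, show (push τ v).row (v ρ) = τ.row ρ from
    (dif_pos h1).trans (h _ h1.choose_spec.1 _ hρ h1.choose_spec.2)]

lemma Wd.reg (h : Wd τ v) (a : ι' → ℤ) : (push τ v).Reg a = τ.Reg (a ∘ v) :=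
  Set.ext fun c => h.fa c fun x m => a x ≤ m

/-- The system with new labels. -/
noncomputable def rel (s : TS k L) {X : Type} [Fintype X] (v : s.ι → X) : TS k L :=
  ⟨X, s.M, fun O => ⟨(s.ch O).r, push (s.ch O).τ v, (s.ch O).z⟩⟩

variable {s : TS k L} {X : Type} [Fintype X] {u : s.ι → X} {O : Subalgebra k L}

lemma rel_J (h : Wd (s.ch O).τ u) (a : X → ℤ) : (rel s u).J a O = s.J (a ∘ u) O :=
  congrArg (ms k (s.ch O).z) (h.reg a)

lemma rel_good (hs : s.Good) (h : ∀ O, s.P O → Wd (s.ch O).τ u) : (rel s u).Good := by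
  refine ⟨hs.fg, hs.ne, (hs.fin.image fun x => (⟨x.1, push x.2 u⟩ : Σ r, Typ X r)).subset ?_,
    fun O hO => ⟨fun c hc => (hs.cht O hO).ptd c (((h O hO).fa c fun _ m => m = 0).1 hc),
      (hs.cht O hO).str.imp fun c hc => ((h O hO).fa c fun _ m => 0 < m).2 hc,
      (hs.cht O hO).ind, ?_⟩,
    fun a => (hs.glob (a ∘ u)).congr fun O hO => congrArg (sp O) (rel_J (h O hO) a).symm⟩
  · rintro _ ⟨O, hO, rfl⟩
    exact ⟨_, ⟨O, hO, rfl⟩, rfl⟩
  · have := (hs.cht O hO).sf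
    rwa [TA, ← show _ = (s.ch O).τ.Reg 0 from (h O hO).reg 0] at this

lemma rel_exp (h : ∀ O, s.P O → Wd (s.ch O).τ u) {f : L} {a : X → ℤ} (hf : s.HasExp f (a ∘ u)) :
    (rel s u).HasExp f a := fun O hO =>
  (hf O hO).imp fun c hc => ⟨((h O hO).fa c fun x m => m = a x).2 hc.1, hc.2⟩

end Push

variable {K : IntermediateField k L} {S : Finset L} {d : Dat k L} {O W : Subalgebra k L}
  {M : Submodule k L} {n : ℕ}

/-- The orders of the members of `S` along `W`. -/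
noncomputable def vec (K : IntermediateField k L) (S : Finset L) (W : Subalgebra k L) : S → ℤ :=
  fun f => od K W f

/-- The members of `S` span the monomials at `O` and along the boundary divisors. -/
def Fl (S : Finset L) (d : Dat k L) (O : Subalgebra k L) : Prop :=
  ∀ i, ∃ N : ℕ, 0 < N ∧ ∃ e : L → ℤ, Un O (d.z i ^ N / ∏ f ∈ S, f ^ e f) ∧
    ∀ ρ ∈ d.R, Un (d.w ρ) (d.z i ^ N / ∏ f ∈ S, f ^ e f)

lemma ne_of (hp : Pk K S d O) {f : L} (hf : f ∈ S) : f ≠ 0 :=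
  let ⟨_, h, _⟩ := hp.mon f hf; fun e => h.2.1 (by rw [e, zero_div])

lemma od_eq {π x : L} (hW : Dvr K W π) (hS : ∀ f ∈ S, f ∈ K ∧ f ≠ 0) (hx : x ∈ K) (h0 : x ≠ 0)
    {N : ℕ} {e : L → ℤ} (h : Un W (x ^ N / ∏ f ∈ S, f ^ e f)) :
    od K W x * N = ∑ f : S, vec K S W f * e f := by
  have h1 := (hW.od_spec hx h0).pow N
  rw [div_pow, ← zpow_natCast (_ ^ od K W x), ← zpow_mul] at h1
  have h2 : ∀ T : Finset S, Un W ((∏ f ∈ T, f.1 ^ e f) / pi K W ^ ∑ f ∈ T, vec K S W f * e f) :=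
    fun T => by
      induction T using Finset.cons_induction with
      | empty => simpa using Un.one W
      | cons f T _ ih =>
        rw [Finset.prod_cons, Finset.sum_cons, zpow_add₀ hW.pi.ne, ← div_mul_div_comm, zpow_mul,
          ← div_zpow]
        exact (un_zpow (hW.od_spec (hS f f.2).1 (hS f f.2).2) _).mul ih
  have h3 := h.mul (h2 Finset.univ)
  rw [Finset.prod_coe_sort S fun f => f ^ e f, div_mul_div_cancel₀
    (Finset.prod_ne_zero_iff.2 fun f hf => zpow_ne_zero _ (hS f hf).2)] at h3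
  exact hW.pi.uniq h1 h3

lemma row_eq (hp : Pk K S d O) (hf : Fl S d O) (hS : ∀ f ∈ S, f ∈ K) {ρ σ : d.ι} (hρ : ρ ∈ d.R)
    (hσ : σ ∈ d.R) (e : vec K S (d.w ρ) = vec K S (d.w σ)) (i : Fin d.r) :
    od K (d.w ρ) (d.z i) = od K (d.w σ) (d.z i) := by
  obtain ⟨N, hN, c, -, h⟩ := hf i
  have h1 := fun ρ hρ => od_eq (hp.dvr ρ hρ) (fun f hf => ⟨hS f hf, ne_of hp hf⟩) (hp.zK i)
    (hp.ne i) (h ρ hρ)
  exact mul_right_cancel₀ (Nat.cast_ne_zero.2 hN.ne') ((h1 ρ hρ).trans (e ▸ (h1 σ hσ).symm))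

lemma near [IsAlgClosed k] (hn : Algebra.trdeg k K = n) (h : TorF n K S M) :
    ∀ g ∈ M, g ≠ 0 → ∀ O₀, IsPoint (chart ⊥ M g) O₀ →
      ∃ d : Dat k L, ∀ᶠ O in nb (chart ⊥ M g) O₀, Pk K S d O ∧ Fl S d O := fun g hg h0 O₀ hO => by
  have hD := chart_fg Subalgebra.fg_bot h.1.fg g
  obtain ⟨O₁, h1, h2, h3⟩ := exists_rat hD hO
  obtain ⟨ι, _, r, s, τ, z, t, h4, h5, h6⟩ := h.2 O₁ ⟨g, hg, h0, h1⟩ h2
  obtain ⟨w, h7, h8⟩ := exists_dat h4
    ⟨hn, hD, B.chart_le_field h.1.le hg, h.1.frac g hg h0, h1, h2⟩ h5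
  choose N hN e he using h6
  obtain ⟨h, a, b, c⟩ := h8.and (eventually_all.2 fun i => ev_un h1 (he i))
  exact ⟨_, h, a, b.mono h3.le, fun O x y => ⟨(c O x y).1, fun i =>
    ⟨N i, hN i, e i, (c O x y).2 i, fun ρ hρ => (he i).mono (h7 ρ hρ).le⟩⟩⟩

lemma fin {Q : Dat k L → Subalgebra k L → Prop} (hM : M.FG) (hA : ∀ g ∈ M, g ≠ 0 → ∀ O₀,
      IsPoint (chart ⊥ M g) O₀ → ∃ d : Dat k L, ∀ᶠ O in nb (chart ⊥ M g) O₀, Q d O) :
    ∃ F : Set (Dat k L), F.Finite ∧ ∀ O, Pt ⊥ M O → ∃ d ∈ F, Q d O := by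
  obtain ⟨T, hT0, rfl⟩ := exists_span hM
  have key : ∀ t ∈ T, ∃ F : Set (Dat k L), F.Finite ∧
      ∀ O, IsPoint (chart ⊥ (span k (T : Set L)) t) O → ∃ d ∈ F, Q d O := fun t ht => by
    choose d h a b c using fun O : {O // IsPoint (chart ⊥ (span k (T : Set L)) t) O} =>
      hA t (subset_span ht) (hT0 t ht) O.1 O.2
    obtain ⟨C, hC, H⟩ := exists_cover h a fun O hO => ⟨⟨O, hO⟩, b ⟨O, hO⟩⟩
    exact ⟨d '' C, hC.image _, fun O hO =>
      let ⟨i, hi, hu⟩ := H O hO; ⟨_, ⟨i, hi, rfl⟩, c i O hO hu⟩⟩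
  choose! F h1 h2 using key
  refine ⟨⋃ t ∈ T, F t, T.finite_toSet.biUnion h1, fun O ⟨g, hg, h0, hO⟩ => ?_⟩
  obtain ⟨t, ht, -, h3⟩ := IsPoint.exists_chart hO hg h0
  obtain ⟨d, hd, h4⟩ := h2 t ht O h3
  exact ⟨d, Set.mem_biUnion ht hd, h4⟩

/-- Monomial modules with invariant exponents are permuted. -/
lemma equi {K₀ : Subfield L} {g : SA k L} {d' : Dat k L} (h : Gl K₀ K) (hg : Fx K₀ g)
    (hS : ∀ f ∈ S, f ∈ K₀) (hp : Pk K S d O) (hp' : Pk K S d' (g • O)) (b : (S → ℤ) → ℤ) {x : L}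
    (hx : x ∈ Mon O d.z ((d.τ K).Reg ((b ∘ vec K S) ∘ d.w))) :
    g • x ∈ Mon (g • O) d'.z ((d'.τ K).Reg ((b ∘ vec K S) ∘ d'.w)) := by
  refine (pk_s h hg hS hp).compat hp' _ (span_mono (Set.image_mono fun c hc ρ hρ => ?_) (Mon_s hx))
  have e : vec K S (g • d.w ρ) = vec K S (d.w ρ) := funext fun f => by
    have := od_s h hg (hp.dvr ρ hρ) (x := f.1)
      (h.eq ▸ IntermediateField.subset_adjoin k _ (hS f f.2)) (ne_of hp f.2)
    rwa [hg f (hS f f.2)] at this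
  rw [ev_s h hg hp hρ]
  exact (congrArg b e).trans_le (hc ρ hρ)

end Lb

open Lb in
/-- Module LABELP. -/
theorem labelP [IsAlgClosed k] (h : GlobP k L) : LabelP k L := by
  intro n K₀ K S M hG hn hS hM hT
  have hK : ∀ f ∈ S, f ∈ K := fun f hf => hG.eq ▸ IntermediateField.subset_adjoin k _ (hS f hf)
  have hA := near hn hT
  obtain ⟨F, hF, hc⟩ := fin hT.1.fg hA
  choose! d hd hp hf using hc
  have hV : ∀ O, Pt ⊥ M O → (d O).w '' (d O).R ⊆ ⋃ d ∈ F, d.w '' d.R :=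
    fun O hO W hW => Set.mem_biUnion (hd O hO) hW
  have hV' := hF.biUnion fun d _ => d.R.toFinite.image d.w
  generalize ⋃ d ∈ F, d.w '' d.R = V at hV hV'
  let _ := hV'.fintype
  obtain ⟨h1, h2⟩ := good hT.1.fg hT.1.ne (fun g a b O c => (hA g a b O c).imp fun _ e =>
    e.mono fun _ => And.left) (hF.subset (by rintro _ ⟨O, hO, rfl⟩; exact hd O hO)) hp hV
  let s : TS k L := ⟨V, M, fun O => (d O).ch K V⟩
  let v : V → S → ℤ := fun W => vec K S W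
  let _ := (Set.finite_range v).fintype
  have hw : ∀ O, s.P O → Wd (s.ch O).τ (Set.rangeFactorization v) := by
    rintro O hO ⟨_, _⟩ ⟨ρ, hρ, rfl⟩ ⟨_, _⟩ ⟨σ, hσ, rfl⟩ e
    exact funext (row_eq (hp O hO) (hf O hO) hK hρ hσ (congrArg Subtype.val e))
  have h3 := rel_good (s := s) h1 hw
  refine ⟨rel s (Set.rangeFactorization v), rfl, ⟨⟨hT.1.fg, hM, hT.1.le⟩, h3.ne, h3.fin, h3.cht,
    fun a => h K₀ K M _ hG hT.1 hM (h3.glob a) (fun O hO x hx => ?_) fun g hg O hO x hx => ?_⟩,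
    fun f hf => ⟨fun x => x.1 ⟨f, hf⟩, rel_exp hw (h2 f hf)⟩,
    fun O hO i => (hf O hO i).imp fun _ a => ⟨a.1, a.2.imp fun _ => And.left⟩⟩
  · exact ms_le (Z := K.toSubalgebra.toSubmodule) (fun c _ => mn_mem_field (hp O hO).zK c) hx
  · obtain ⟨b, rfl⟩ : ∃ b : (S → ℤ) → ℤ, a = b ∘ Subtype.val :=
      ⟨_, (Function.extend_comp Subtype.val_injective a 0).symm⟩
    have e : ∀ O, Pt ⊥ M O → (rel s (Set.rangeFactorization v)).J (b ∘ Subtype.val) O =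
        ms k (d O).z (((d O).τ K).Reg ((b ∘ vec K S) ∘ (d O).w)) := fun O hO =>
      (rel_J (hw O hO) _).trans (congrArg (ms k (d O).z) (Dat.reg_ch (hV O hO) (b ∘ vec K S)))
    have hO' := Pt_s hM hg hO
    exact (congrArg (sp _) (e _ hO')).ge (mem_sp_ms.2 (equi hG hg hS (hp O hO) (hp _ hO') b
      (mem_sp_ms.1 (le_sp _ _ ((e O hO).le hx)))))

end Pool.Agent.MP_19ffc6_ag.Res.P
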