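import Pool.Agent.MP_19ffc6_ag.Res.TreeM
import Pool.Agent.MP_19ffc6_ag.Res.Cover

-- ======== part 0: formerly Pool.Agent.MP_19ffc6_ag.Res.TreeMon
section MrgPart0

/-! PROJECT RES, part B, module TREE: the base upstairs is regular and the sections are
comparable monomials. -/

set_option autoImplicit false

namespace Pool.Agent.MP_19ffc6_ag.Res.B

open Pool.Agent.MP_19ffc6_ag.Wild Pool.Agent.MP_19ffc6_ag.Lci Pool.Agent.MP_19ffc6_ag.Res.Tor
open Polynomial

variable {k L : Type} [Field k] [Field L] [Algebra k L]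

section Reg

variable {n r s : ℕ} {K : IntermediateField k L} {D O : Subalgebra k L} {S : Finset L}
  {x : Fin r → L} {t : Fin s → L}

/-- The boundary parameters of a regular point are prime. -/
theorem Par.prime' (h : Par n S O x t) (ha : Aff n K D O) (i : Fin r) :
    ∀ a ∈ O, ∀ b ∈ O, a * b / x i ∈ O → a / x i ∈ O ∨ b / x i ∈ O := by
  have := ha.noeth
  obtain ⟨h1, h2⟩ := h.of_aff ha
  refine prime_par ha.pt.lcl h1 h2 ?_ (fun y hy => ?_) (Sum.inl i)
  · rintro (j | j)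
    exacts [(h.xm j).2.2, (h.tm j).2]
  · obtain ⟨c, hc⟩ := ha.rt y hy
    refine ⟨c, ?_⟩
    rw [Set.Sum.elim_range]
    exact h.gen _ (sub_mem hy (O.algebraMap_mem c)) hc

/-- Different boundary parameters do not divide each other. -/
theorem Par.not_div (h : Par n S O x t) (ha : Aff n K D O) {i j : Fin r} (hij : j ≠ i) :
    x j / x i ∉ O := by
  classical
  intro hd
  obtain ⟨y, y1, y2⟩ : ∃ y : Fin r → L, y j = x i ∧ ∀ l, l ≠ j → y l = x l :=
    ⟨Function.update x j (x i), Function.update_self _ _ _, fun l e => Function.update_of_ne e _ _⟩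
  have hv : AlgebraicIndependent k (Sum.elim y t) := by
    refine (ha.of_gen (v := Sum.elim y t) (by simp [h.card]) ?_ fun z hz hu => ?_).1
    · rintro (l | l)
      · by_cases e : l = j
        · rw [Sum.elim_inl, e, y1]
          exact ⟨(h.xm i).1, (h.xm i).2.2⟩
        · rw [Sum.elim_inl, y2 l e]
          exact ⟨(h.xm l).1, (h.xm l).2.2⟩
      · exact h.tm l
    · refine span_le_span le_rfl ?_ (h.gen z hz hu)
      rintro _ (⟨l, rfl⟩ | ⟨l, rfl⟩)
      · by_cases e : l = j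
        · rw [e, ← div_mul_cancel₀ (x j) (h.xm i).2.1]
          exact mul_mem_span hd (Submodule.subset_span ⟨Sum.inl j, y1⟩)
        · exact Submodule.subset_span ⟨Sum.inl l, y2 l e⟩
      · exact Submodule.subset_span ⟨Sum.inr l, rfl⟩
  have : Sum.inl j = (Sum.inl i : Fin r ⊕ Fin s) :=
    hv.injective (y1.trans (y2 i hij.symm).symm)
  exact hij (Sum.inl_injective this)

/-- A divisor of a product of boundary parameters is a monomial. -/
theorem Par.lmon_of_mul (h : Par n S O x t) (ha : Aff n K D O) {p : L}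
    (hp : p ∈ Submonoid.closure (Set.range x)) :
    ∀ a ∈ O, ∀ b ∈ O, a * b = p → LMon O x a := by
  classical
  have h0 : ∀ i, x i ≠ 0 := fun i => (h.xm i).2.1
  have hm : ∀ y ∈ Submonoid.closure (Set.range x), y ∈ O := fun y hy =>
    (Submonoid.closure_le (S := O.toSubmonoid)).2 (by rintro _ ⟨i, rfl⟩; exact (h.xm i).1) hy
  induction hp using Submonoid.closure_induction_left with
  | one => exact fun a ha' b hb e => .of_un (Un.of_mul ha' hb (e ▸ Un.one O))
  | mul_left y hy p hp ih =>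
    obtain ⟨i, rfl⟩ := hy
    intro a ha' b hb e
    have e1 : a * b / x i = p := by rw [e, mul_div_cancel_left₀ _ (h0 i)]
    rcases h.prime' ha i a ha' b hb (e1 ▸ hm p hp) with h1 | h1
    · have h2 := ih _ h1 b hb (by rw [← e1]; ring)
      have h3 : LMon O x (x i) := ⟨Pi.single i 1, by
        rw [mn_single, zpow_one, div_self (h0 i)]; exact Un.one O⟩
      have := h2.mul h0 h3
      rwa [div_mul_cancel₀ _ (h0 i)] at this
    · exact ih a ha' _ h1 (by rw [← e1]; ring)

/-- A monomial that is regular has nonnegative exponents. -/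
theorem Par.nonneg (h : Par n S O x t) (ha : Aff n K D O) {c : Fin r → ℤ} (hc : mn x c ∈ O) :
    0 ≤ c := by
  classical
  have hx : ∀ i, x i ∈ O ∧ x i ≠ 0 := fun i => ⟨(h.xm i).1, (h.xm i).2.1⟩
  have h0 : ∀ i, x i ≠ 0 := fun i => (hx i).2
  intro i
  by_contra hi
  have hi' : c i < 0 := not_le.1 hi
  have key : ∀ (T : Finset (Fin r)) (e : Fin r → ℕ), i ∉ T → (∏ j ∈ T, x j ^ e j) / x i ∉ O := by
    intro T e
    induction T using Finset.induction_on with
    | empty =>
      intro _ hd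
      exact (h.xm i).2.2 ⟨(hx i).1, h0 i, by simpa using hd⟩
    | insert j T hj ih =>
      intro hT hd
      rw [Finset.prod_insert hj] at hd
      rcases h.prime' ha i _ (pow_mem (hx j).1 _) _
        (prod_mem fun l _ => pow_mem (hx l).1 _) hd with h1 | h1
      · have hji : j ≠ i := fun e => hT (e ▸ Finset.mem_insert_self _ _)
        generalize e j = N at h1
        induction N with
        | zero => exact (h.xm i).2.2 ⟨(hx i).1, h0 i, by simpa using h1⟩
        | succ N ihN =>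
          rw [pow_succ] at h1
          exact (h.prime' ha i _ (pow_mem (hx j).1 _) _ (hx j).1 h1).elim ihN (h.not_div ha hji)
      · exact ih (fun m => hT (Finset.mem_insert_of_mem m)) h1
  refine key (Finset.univ.erase i) (fun j => (c j).toNat) (Finset.notMem_erase _ _) ?_
  have e1 : ∏ j ∈ Finset.univ.erase i, x j ^ (c j).toNat = mn x (c ⊔ 0) := by
    rw [mn, ← Finset.mul_prod_erase _ _ (Finset.mem_univ i)]
    have : (c ⊔ 0) i = 0 := by simp [hi'.le]
    rw [this, zpow_zero, one_mul]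
    refine Finset.prod_congr rfl fun j _ => ?_
    rw [← zpow_natCast]
    congr 1
    simp only [Pi.sup_apply, Pi.zero_apply]
    omega
  have e2 : mn x (c ⊔ 0) / x i = mn x c * mn x (c ⊔ 0 - Pi.single i 1 - c) := by
    rw [← mn_add h0, add_sub_cancel, mn_sub h0, mn_single, zpow_one]
  rw [e1, e2]
  refine mul_mem hc (mn_mem hx fun j _ => ?_)
  by_cases e : j = i
  · subst e
    simp only [Pi.sub_apply, Pi.sup_apply, Pi.zero_apply, Pi.single_eq_same]
    omega
  · simp only [Pi.sub_apply, Pi.sup_apply, Pi.zero_apply, Pi.single_eq_of_ne e]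
    omega

/-- An element that is regular wherever `S` consists of units has poles on the boundary only. -/
theorem Par.exists_pow_mul (h : Par n S O x t) {u : L}
    (hn : ∀ c ∈ O, IsIntegral O (c * u) → c * u ∈ O)
    (hu : ∀ V : Subalgebra k L, Val V → (∀ f ∈ S, Un V f) → u ∈ V) :
    ∃ N : ℕ, (∏ i, x i) ^ N * u ∈ O := by
  have hx : ∀ i, x i ∈ O ∧ x i ≠ 0 := fun i => ⟨(h.xm i).1, (h.xm i).2.1⟩
  have hP : ∏ i, x i ∈ O := prod_mem fun i _ => (hx i).1
  obtain ⟨N, hN⟩ := exists_pow_mul_mem (x := u) (integralClosure O L).toSubmodule hP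
    fun O' hO' hun => by
      refine (IsPoint.isIntegral_iff hO').1 (isIntegral_of_val fun V hV hle => hu V hV fun f hf => ?_)
      refine ((h.mon f hf).un_tor hx).mono (tor_le (hO'.le.trans hle) fun i => ?_)
      have := hun.mono hle
      rw [← Finset.mul_prod_erase _ _ (Finset.mem_univ i)] at this
      exact (Un.of_mul (hle (hO'.le (hx i).1))
        (prod_mem fun j _ => hle (hO'.le (hx j).1)) this).2.2
  exact ⟨N, hn _ (pow_mem hP N) hN⟩

/-- An element that is a unit wherever `S` consists of units is a monomial. -/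
theorem Par.lmon_of_off (h : Par n S O x t) (ha : Aff n K D O)
    (hn : ∀ y ∈ K, IsIntegral O y → y ∈ O) {u : L} (hK : u ∈ K) (h0 : u ≠ 0)
    (hu : ∀ V : Subalgebra k L, Val V → (∀ f ∈ S, Un V f) → Un V u) : LMon O x u := by
  have hx0 : ∀ i, x i ≠ 0 := fun i => (h.xm i).2.1
  obtain ⟨N, hN⟩ := h.exists_pow_mul (u := u)
    (fun c hc => hn _ (K.mul_mem (ha.le_field hc) hK)) fun V hV hS => (hu V hV hS).1
  obtain ⟨M, hM⟩ := h.exists_pow_mul (u := u⁻¹)
    (fun c hc => hn _ (K.mul_mem (ha.le_field hc) (K.inv_mem hK))) fun V hV hS => (hu V hV hS).2.2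
  have hP : ∏ i, x i ∈ Submonoid.closure (Set.range x) :=
    prod_mem fun i _ => Submonoid.subset_closure ⟨i, rfl⟩
  have h1 := h.lmon_of_mul ha (pow_mem hP (N + M)) _ hN _ hM (by rw [pow_add]; field_simp)
  have h2 : LMon O x (∏ i, x i) := ⟨1, by
    rw [show mn x 1 = ∏ i, x i by simp [mn], div_self (Finset.prod_ne_zero_iff.2 fun i _ => hx0 i)]
    exact Un.one O⟩
  have h3 := (h2.zpow (-(N : ℤ))).mul hx0 h1
  rwa [zpow_neg, zpow_natCast, inv_mul_cancel_left₀ (pow_ne_zero _ h2.ne_zero)] at h3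

end Reg

theorem trdeg_eq_of_isAlg {F K : IntermediateField k L} (h : F ≤ K)
    (ha : ∀ z ∈ K, IsAlgebraic F z) : Algebra.trdeg k F = Algebra.trdeg k K := by
  let _ := (IntermediateField.inclusion h).toRingHom.toAlgebra
  have : IsScalarTower k F K := .of_algebraMap_eq fun _ => rfl
  have : IsScalarTower F K L := .of_algebraMap_eq fun _ => rfl
  have : Algebra.IsAlgebraic F K := ⟨fun x =>
    (isAlgebraic_algebraMap_iff (algebraMap K L).injective).1 (ha x x.2)⟩
  rw [← trdeg_add_eq k F (A := K), trdeg_eq_zero (R := F) (A := K), add_zero]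

theorem eval_Pol_root {U : Finset L} {Y u v : L} (hu : u ∈ U) (hv : v ∈ U) :
    (Pol U Y).eval ((Y - u) / v) = 0 := by
  rw [Pol, eval_prod]
  refine Finset.prod_eq_zero hu ?_
  rw [eval_prod]
  exact Finset.prod_eq_zero hv (by simp)

/-- The `u`, `u⁻¹` lemma for the roots of `Pol`. -/
theorem cmp_of_cf {K : IntermediateField k L} {R R' O : Subalgebra k L} {U : Finset L}
    {Y b u v : L} (hO : IsPoint (icl K R') O) (hR : Lcl R) (hle : R ≤ O) (hb : Gen R (Cf k U Y) b)
    (hu : u ∈ U) (hv : v ∈ U) (hK : (Y - u) / v ∈ K) :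
    (Y - u) / v ∈ O ∨ v / (Y - u) ∈ O := by
  obtain ⟨b0, b1, y, hy, b2⟩ := hb
  have c1 : ∀ i, (Pol U Y).coeff i / b ∈ R := fun i => b1 _ (Submodule.subset_span ⟨i, rfl⟩)
  have c2 : ∃ i, Un R ((Pol U Y).coeff i / b) := by
    obtain ⟨_, ⟨i, rfl⟩, hi⟩ := exists_un_of_span hR (S := Set.range (Pol U Y).coeff) b0
      (by rintro _ ⟨i, rfl⟩; exact c1 i) (by
        have := Submodule.mul_mem_mul (show (y / b)⁻¹ ∈ R.toSubmodule from b2.2.2) hy
        rwa [inv_div, div_mul_cancel₀ _ (left_ne_zero_of_mul (div_eq_mul_inv y b ▸ b2.2.1))] at this)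
    exact ⟨i, hi⟩
  have := IsPoint.uu hO hK (P := Pol U Y * C b⁻¹)
    (fun i => by rw [coeff_mul_C, ← div_eq_mul_inv]; exact hle (c1 i))
    (c2.imp fun i hi => by rw [coeff_mul_C, ← div_eq_mul_inv]; exact hi.mono hle)
    (by rw [eval_mul, eval_Pol_root hu hv, zero_mul])
  rwa [inv_div] at this

theorem mon [IsAlgClosed k] : MonStmt k L := by
  intro G _ _ n m F K Y U S D R R₁ r s x ξ t h ⟨b, hb⟩ hp hd
  have hDF : D ≤ F.toSubalgebra := h.aff.le
  have hDK : D ≤ K.toSubalgebra := fun y hy => h.le (hDF hy)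
  have halgF : ∀ y ∈ F, IsAlgebraic D y := fun y hy => by
    obtain ⟨c, hc, hc0, hcy⟩ := h.aff.frac y hy
    exact IsAlgebraic.of_smul (y := (⟨c, hc⟩ : D))
      (mem_nonZeroDivisors_of_ne_zero fun e => hc0 (congrArg Subtype.val e))
      (isAlgebraic_algebraMap (A := L) (⟨_, hcy⟩ : D))
  have ha : Aff n K (icl K D) R₁ :=
    aff_icl ((trdeg_eq_of_isAlg h.le h.alg).symm.trans h.aff.deg) h.fg h.aff.fg hDK
      (fun y hy => isAlgebraic_trans hDF halgF (h.alg y hy)) (IsPoint.icl h.aff.pt hDK hp)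
      (h.aff.rt.icl h.aff.pt.lcl hd hp)
  have hξ : ∀ i, ξ i ∈ R₁ ∧ ξ i ≠ 0 ∧ ¬ Un R₁ (ξ i) := fun i =>
    ⟨hp.le ⟨(h.root i).1, IsIntegral.of_pow (Nat.pos_of_ne_zero h.m0)
      ((h.root i).2 ▸ isIntegral_of_mem (h.par.xm i).1)⟩,
      fun e => (h.par.xm i).2.1 (by rw [← (h.root i).2, e, zero_pow h.m0]),
      fun hu => (h.par.xm i).2.2 (hd.2 _ (h.par.xm i).1 ((h.root i).2 ▸ hu.pow m))⟩
  have ht : ∀ j, t j ∈ R₁ ∧ ¬ Un R₁ (t j) := fun j =>
    ⟨hd.1 (h.par.tm j).1, fun hu => (h.par.tm j).2 (hd.2 _ (h.par.tm j).1 hu)⟩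
  have hmn : ∀ c, mn x c = mn ξ ((m : ℤ) • c) := fun c => by
    refine Finset.prod_congr rfl fun i _ => ?_
    rw [← (h.root i).2, Pi.smul_apply, smul_eq_mul, zpow_mul, zpow_natCast]
  have hP : Par n S R₁ ξ t := by
    refine ⟨h.par.card, hξ, ht, fun y hy hu => (h.aj R₁ hp hd).1.mem_span hp.lcl ?_ hy hu,
      fun f hf => ?_, fun i => ?_, fun f hf => (h.par.cmp f hf).imp (@hd.1 _) (@hd.1 _)⟩
    · rintro _ (⟨i, rfl⟩ | ⟨j, rfl⟩)
      exacts [⟨(hξ i).1, (hξ i).2.2⟩, ht j]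
    · obtain ⟨c, hc⟩ := h.par.mon f hf
      exact ⟨_, hmn c ▸ hc.mono hd.1⟩
    · obtain ⟨f, hf, c, hc, h0⟩ := h.par.sees i
      exact ⟨f, hf, _, hmn c ▸ hc.mono hd.1, mul_ne_zero (Int.natCast_ne_zero.2 h.m0) h0⟩
  refine ⟨ha, hP, fun u hu h0 => hP.lmon_of_off ha (fun y => IsPoint.mem_of_isIntegral hp)
    (h.uK u hu) h0 fun V hV hS => h.off V hV hS u hu h0, fun u hu v hv _ _ => ?_,
    fun c hc => hP.nonneg ha hc⟩
  have hz : (0 : L) ∈ U := by simpa using h.sub 1 h.one 1 h.one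
  have := cmp_of_cf hp h.aff.pt.lcl hd.1 hb (h.sub 0 hz u hu) hv
    (by simpa using K.div_mem (h.uK u hu) (h.uK v hv))
  simpa using this

end Pool.Agent.MP_19ffc6_ag.Res.B

end MrgPart0

-- ======== part 1: formerly Pool.Agent.MP_19ffc6_ag.Res.TreeT
section MrgPart1

/-! PROJECT RES, part B, module TREE: passage to the Galois closure. -/

namespace Pool.Agent.MP_19ffc6_ag.Res.B

open Pool.Agent.MP_19ffc6_ag.Wild Pool.Agent.MP_19ffc6_ag.Lci Pool.Agent.MP_19ffc6_ag.Res.Tor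
open Polynomial

variable {k W L : Type} [Field k] [Field W] [Field L] [Algebra k W] [Algebra k L]

namespace TreeT

section Map

variable (j : W →ₐ[k] L) {K : IntermediateField k W} {D R O : Subalgebra k W} {x Y : W}
  {U S S' : Finset W} {M : Submodule k W}

theorem alg_map : IsAlgebraic (K.map j) (j x) ↔ IsAlgebraic K x :=
  isAlgebraic_ringHom_iff_of_comp_eq (K.equivMap j).toRingEquiv (j : W →+* L) j.injective rfl

theorem sup_map : (K ⊔ IntermediateField.adjoin k {Y}).map j =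
    K.map j ⊔ IntermediateField.adjoin k {j Y} := by
  rw [IntermediateField.map_sup, IntermediateField.adjoin_map, Set.image_singleton]

theorem chart_map (g : W) : chart (D.map j) (M.map j.toLinearMap) (j g) = (chart D M g).map j := by
  rw [chart, chart, AlgHom.map_adjoin, Set.image_union]
  congr 2
  ext y
  constructor
  · rintro ⟨_, ⟨m, hm, rfl⟩, rfl⟩
    exact ⟨m / g, ⟨m, hm, rfl⟩, map_div₀ j m g⟩
  · rintro ⟨_, ⟨m, hm, rfl⟩, rfl⟩
    exact ⟨j m, ⟨m, hm, rfl⟩, map_div₀ j m g⟩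

theorem gen_of_map {b : L} (h : Gen (O.map j) (M.map j.toLinearMap) b) : ∃ a, Gen O M a := by
  obtain ⟨h0, h1, _, ⟨x, hx, rfl⟩, h2⟩ := h
  obtain ⟨c, -, hc⟩ := h2.1
  have hc' : j c = j x / b := hc
  have e : b = j (x / c) := by
    have h3 : j x ≠ 0 := fun e => h2.2.1 (by simp [e])
    rw [map_div₀, hc', div_div_cancel₀ h3]
  subst e
  refine ⟨x / c, (_root_.map_ne_zero j).1 h0, fun y hy => (mem_map_iff j).1 ?_, x, hx,
    (un_map j).1 ?_⟩
  · rw [map_div₀]; exact h1 _ ⟨y, hy, rfl⟩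
  · rw [map_div₀]; exact h2

theorem inj : Function.Injective j := j.injective

variable [DecidableEq L]

theorem pol_map : Pol (U.image j) (j Y) = (Pol U Y).map (j : W →+* L) := by
  simp only [Pol, Finset.prod_image (inj j).injOn, Polynomial.map_prod, Polynomial.map_sub,
    map_X, map_C, RingHom.coe_coe, map_div₀, map_sub]

theorem cf_map : Cf k (U.image j) (j Y) = (Cf k U Y).map j.toLinearMap := by
  rw [Cf, Cf, pol_map, Submodule.map_span, ← Set.range_comp]
  congr 2
  funext i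
  exact coeff_map _ _

theorem jm_map : Jm k (U.image j) (j Y) = (Jm k U Y).map j.toLinearMap := by
  rw [Jm, Jm, cf_map, Submodule.map_mul, Submodule.map_span, Set.image_pair]
  simp

theorem mem_img : j x ∈ S.image j ↔ x ∈ S := j.injective.mem_finset_image

theorem over_of_map (h : Over (K.map j) (j Y) (U.image j) (S.image j) (S'.image j) (D.map j)
    (R.map j) (O.map j)) : Over K Y U S S' D R O where
  iff f := by
    have := h.iff (j f)
    rw [Finset.prod_image (inj j).injOn, mem_img, mem_img] at this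
    simp only [← map_sub, ← map_prod] at this
    rwa [(inj j).eq_iff, (inj j).eq_iff] at this
  cmp := by
    obtain ⟨b, hb⟩ := h.cmp
    rw [← map_zero j, cf_map] at hb
    exact gen_of_map j hb
  pt := by
    obtain ⟨g, hg, h0, h1⟩ := h.pt
    rw [jm_map] at hg h1
    obtain ⟨g, hg, rfl⟩ := hg
    refine ⟨g, hg, (_root_.map_ne_zero j).1 h0, (isPoint_map j).1 ?_⟩
    rwa [← icl_map, sup_map, ← chart_map]
  dom := (dom_map j).1 h.dom
  rt := (rt_map j).1 h.rt

theorem tro_map {n : ℕ} (h : Tro n S O) : Tro n (S.image j) (O.map j) :=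
  let ⟨ι, i, r, s, τ, z, t, h1, h2⟩ := h
  ⟨ι, i, r, s, τ, j ∘ z, j ∘ t, h1.map j, h2.map j⟩

end Map

/-- A field is algebraically closed in a purely transcendental extension. -/
theorem mem_of_alg {F : IntermediateField k L} {Y : L} (hY : Transcendental F Y) {z : L}
    (hz : z ∈ F ⊔ IntermediateField.adjoin k {Y}) (ha : IsAlgebraic F z) : z ∈ F := by
  rw [← IntermediateField.restrictScalars_adjoin_eq_sup] at hz
  obtain ⟨f, hf⟩ := (RatFunc.algEquivOfTranscendental Y hY).surjective ⟨z, hz⟩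
  have h1 : IsAlgebraic F f := by
    rw [← isAlgebraic_algHom_iff (RatFunc.algEquivOfTranscendental Y hY).toAlgHom
      (RatFunc.algEquivOfTranscendental Y hY).injective]
    change IsAlgebraic F (RatFunc.algEquivOfTranscendental Y hY f)
    rw [hf]
    exact IntermediateField.isAlgebraic_iff.2 ha
  obtain ⟨c, rfl⟩ := not_not.1 fun h => RatFunc.transcendental_of_ne_C f h h1
  have h2 := (RatFunc.algEquivOfTranscendental Y hY).commutes c
  rw [RatFunc.algebraMap_eq_C, hf] at h2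
  have h3 : z = c := congrArg Subtype.val h2
  exact h3 ▸ c.2

end TreeT

open TreeT

theorem loc_of [IsAlgClosed k] [IsAlgClosed L]
    (h : ∀ (W : Type) [Field W] [Algebra k W], AbsStmt k W) : LocStmt k L := by
  intro n m F Y N U S S' T D R O r s x t hm hF hY hT hU hO hUT hS hA hP hV
  classical
  have hFE : F ≤ F ⊔ IntermediateField.adjoin k {Y} := le_sup_left
  have hYE : Y ∈ F ⊔ IntermediateField.adjoin k {Y} :=
    (le_sup_right : _ ≤ F ⊔ _) (IntermediateField.mem_adjoin_simple_self k Y)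
  have hO' : Off F N S (U.erase 0) := fun V hV hs => ⟨(hO V hV hs).1, fun f hf =>
    (hO V hV hs).2 f (hUT f (Finset.mem_of_mem_erase hf) (Finset.ne_of_mem_erase hf))⟩
  obtain ⟨W, K₁, S₁, D₁, R₁, ξ, t₁, H⟩ := exists_up hm hT hO'
    (fun f hf => hU.le f (Finset.mem_of_mem_erase hf)) hFE (fun z hz => mem_of_alg hY hz) hA hP
  have := H.fin
  have := H.gal
  have := hT.gal
  have hEW : ∀ y ∈ F ⊔ IntermediateField.adjoin k {Y}, y ∈ W := fun y hy =>
    W.algebraMap_mem ⟨y, hy⟩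
  have hFN : ∀ y ∈ F, y ∈ N := fun y hy => N.algebraMap_mem ⟨y, hy⟩
  obtain ⟨F₁, eF⟩ : ∃ F₁ : IntermediateField k W, F = F₁.map (vl W) :=
    ⟨F.comap (vl W), (IntermediateField.map_comap_eq_self fun y hy =>
      ⟨⟨y, hEW y (hFE hy)⟩, rfl⟩).symm⟩
  obtain ⟨Y₁, eY⟩ : ∃ Y₁ : W, Y = vl W Y₁ := ⟨⟨Y, hEW Y hYE⟩, rfl⟩
  obtain ⟨U₁, eU⟩ := exists_finset (vl W) (S := U) fun u hu =>
    mem_range_vl.2 (H.le u (hU.le u hu))
  obtain ⟨S₂, eS⟩ := exists_finset (vl W) (S := S') fun f hf => mem_range_vl.2 (by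
    rcases (hV.iff f).1 hf with e | rfl | rfl
    · exact hEW f (hFE (hS f e))
    · exact hEW _ hYE
    · exact prod_mem fun u hu => sub_mem (hEW Y hYE) (H.le u (hU.le u hu)))
  obtain ⟨O₁, eO⟩ := exists_map (vl W) (O := O) fun y hy => mem_range_vl.2 (hEW y (by
    obtain ⟨g, -, -, h1⟩ := hV.pt
    exact IsPoint.le_field h1 (icl_le _ _) hy))
  obtain ⟨x₁, ex⟩ := exists_fun (vl W) (f := x) fun i =>
    mem_range_vl.2 (hEW _ (hFE (hA.le_field (hP.xm i).1)))
  have mF : ∀ y : W, y ∈ F₁ ↔ (y : L) ∈ F := fun y => by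
    rw [← mem_field_map (vl W), ← eF]; rfl
  have mU : ∀ y : W, y ∈ U₁ ↔ (y : L) ∈ U := fun y => by
    rw [← mem_img (vl W), ← eU]; rfl
  have mE : ∀ y : W, y ∈ F₁ ⊔ IntermediateField.adjoin k {Y₁} ↔
      (y : L) ∈ F ⊔ IntermediateField.adjoin k {Y} := fun y => by
    rw [← mem_field_map (vl W), sup_map, ← eF, ← eY]; rfl
  have aF : ∀ y : W, IsAlgebraic F₁ y ↔ IsAlgebraic F (y : L) := fun y => by
    rw [← alg_map (vl W), ← eF]; rfl
  have hA₁ : Aff n F₁ D₁ R₁ := Aff.of_map (vl W) (by rwa [← eF, ← H.eD, ← H.eR])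
  have hle : F₁ ≤ K₁ := fun y hy => H.mem y (hFN _ ((mF y).1 hy))
  obtain ⟨ρ, hρ⟩ := exists_res hFE N W H.le
  have key : TUp (W ≃ₐ[_] W) n m F₁ K₁ Y₁ U₁ S₁ D₁ R₁ x₁ ξ t₁ :=
    { m0 := by rintro rfl; exact hm Nat.cast_zero
      aff := hA₁
      par := Par.of_map (vl W) (by rwa [← H.eS, ← H.eR, ← ex, ← H.et])
      sF := fun f hf => (mF f).2 (hS _ (H.eS ▸ (mem_img _).2 hf))
      fg := H.fg
      le := hle
      alg := fun z hz => (aF z).2 (H.alg z hz)
      st := H.stb
      tr := fun e => hY (eY ▸ (aF Y₁).1 e)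
      top := H.top _ le_sup_left fun y hy => sup_le_sup_right hle _ ((mE y).2 hy)
      fix := fun z => by
        rw [mE]
        refine Iff.trans ?_ (IsGalois.mem_bot_iff_fixed z)
        rw [IntermediateField.mem_bot]
        exact ⟨fun hz => ⟨⟨z, hz⟩, rfl⟩, fun ⟨c, hc⟩ => hc ▸ c.2⟩
      root := fun i => ⟨H.rt i, Subtype.ext ((H.pow i).trans (congrFun ex i))⟩
      chi := H.chi
      uK := fun u hu => H.mem u (hU.le _ ((mU u).1 hu))
      one := (mU 1).2 hU.one
      sub := fun u hu v hv => (mU _).2 (hU.sub _ ((mU u).1 hu) _ ((mU v).1 hv))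
      gal := fun g u hu => (mU _).2 (by
        have := hU.gal (ρ g) ⟨u, hU.le _ ((mU u).1 hu)⟩ ((mU u).1 hu)
        rwa [hρ] at this)
      off := fun V hV hs u hu h0 => hO.un (vl W) hV (fun f hf => by
          rw [H.eS] at hf
          obtain ⟨y, hy, e⟩ := Finset.mem_image.1 hf
          exact ⟨y, e, hs y hy⟩) (hUT _ ((mU u).1 hu) ((_root_.map_ne_zero (vl W)).2 h0))
      aj := fun R₂ h1 h2 => by
        obtain ⟨h3, h4, -, -, h5⟩ := H.pt R₂ h1 h2
        exact ⟨fun y hy => (h3.rt y hy).imp fun c hc =>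
          h4.gen _ (sub_mem hy (R₂.algebraMap_mem c)) hc, h5⟩ }
  rw [eS, eO]
  exact tro_map _ (h W (W ≃ₐ[_] W) n m F₁ K₁ Y₁ U₁ S₁ S₂ D₁ R₁ O₁ r s x₁ ξ t₁ key
    (over_of_map (vl W) (by rwa [← eF, ← eY, ← eU, ← H.eS, ← eS, ← H.eD, ← H.eR, ← eO])))

end Pool.Agent.MP_19ffc6_ag.Res.B

end MrgPart1

-- marker of a merged file
example : 731051 + 629452 = 731051 + 629452 := rfl
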