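import Pool.Agent.MP_19ffc6_ag.Res.PSpec
import Pool.Agent.MP_19ffc6_ag.Res.TreeT

/-! PROJECT RESP, module LOCF: passage to the Galois closure, with spanning sets of monomials. -/

namespace Pool.Agent.MP_19ffc6_ag.Res.P

open Pool.Agent.MP_19ffc6_ag.Wild Pool.Agent.MP_19ffc6_ag.Lci Pool.Agent.MP_19ffc6_ag.Res.Tor
open Pool.Agent.MP_19ffc6_ag.Res.B Pool.Agent.MP_19ffc6_ag.Res.B.TreeT

variable {k W L : Type} [Field k] [Field W] [Field L] [Algebra k W] [Algebra k L]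

namespace Loc

variable [DecidableEq L] (j : W →ₐ[k] L) {S : Finset W} {O : Subalgebra k W}

theorem pw_map {u : W} : Pw (S.image j) (O.map j) (j u) ↔ Pw S O u := by
  have key : ∀ (N : ℕ) (e : L → ℤ), j u ^ N / ∏ f ∈ S.image j, f ^ e f =
      j (u ^ N / ∏ f ∈ S, f ^ e (j f)) := fun N e => by
    simp only [Finset.prod_image (inj j).injOn, map_div₀, map_pow, map_prod, map_zpow₀]
  constructor
  · rintro ⟨N, hN, e, h⟩
    exact ⟨N, hN, fun f => e (j f), (un_map j).1 (key N e ▸ h)⟩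
  · rintro ⟨N, hN, e, h⟩
    refine ⟨N, hN, Function.extend j e 0, ?_⟩
    rw [key, un_map]
    simpa only [(inj j).extend_apply] using h

theorem ful_map {ι : Type} {z : ι → W} : Ful (S.image j) (O.map j) (j ∘ z) ↔ Ful S O z :=
  forall_congr' fun _ => pw_map j

theorem troF_map {n : ℕ} (h : TroF n S O) : TroF n (S.image j) (O.map j) :=
  let ⟨ι, i, r, s, τ, z, t, h1, h2, h3⟩ := h
  ⟨ι, i, r, s, τ, j ∘ z, j ∘ t, h1.map j, h2.map j, (ful_map j).2 h3⟩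

end Loc

theorem locF [IsAlgClosed k] [IsAlgClosed L]
    (h : ∀ (W : Type) [Field W] [Algebra k W], AbsF k W) : LocF k L := by
  intro n m F Y N U S S' T D R O r s x t hm hF hY hT hU hO hUT hS hA hP hf hV
  classical
  have hFE : F ≤ F ⊔ IntermediateField.adjoin k {Y} := le_sup_left
  have hYE : Y ∈ F ⊔ IntermediateField.adjoin k {Y} :=
    (le_sup_right : _ ≤ F ⊔ _) (IntermediateField.mem_adjoin_simple_self k Y)
  have hO' : Off F N S (U.erase 0) := fun V hV hs => ⟨(hO V hV hs).1, fun f hf =>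
    (hO V hV hs).2 f (hUT f (Finset.mem_of_mem_erase hf) (Finset.ne_of_mem_erase hf))⟩
  obtain ⟨W, K₁, S₁, D₁, R₁, ξ, t₁, H⟩ := exists_up hm hT hO'
    (fun f h1 => hU.le f (Finset.mem_of_mem_erase h1)) hFE (fun z hz => mem_of_alg hY hz) hA hP
  have := H.fin
  have := H.gal
  have := hT.gal
  have hEW : ∀ y ∈ F ⊔ IntermediateField.adjoin k {Y}, y ∈ W := fun y hy =>
    W.algebraMap_mem ⟨y, hy⟩
  have hFN : ∀ y ∈ F, y ∈ N := fun y hy => N.algebraMap_mem ⟨y, hy⟩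
  obtain ⟨F₁, eF⟩ : ∃ F₁ : IntermediateField k W, F = F₁.map (vl W) :=
    ⟨F.comap (vl W), (IntermediateField.map_comap_eq_self fun y hy =>
      ⟨⟨y, hEW y (hFE hy)⟩, rfl⟩).symm⟩
  obtain ⟨Y₁, eY⟩ : ∃ Y₁ : W, Y = vl W Y₁ := ⟨⟨Y, hEW Y hYE⟩, rfl⟩
  obtain ⟨U₁, eU⟩ := exists_finset (vl W) (S := U) fun u hu =>
    mem_range_vl.2 (H.le u (hU.le u hu))
  obtain ⟨S₂, eS⟩ := exists_finset (vl W) (S := S') fun f hf => mem_range_vl.2 (by
    rcases (hV.iff f).1 hf with e | rfl | rfl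
    · exact hEW f (hFE (hS f e))
    · exact hEW _ hYE
    · exact prod_mem fun u hu => sub_mem (hEW Y hYE) (H.le u (hU.le u hu)))
  obtain ⟨O₁, eO⟩ := exists_map (vl W) (O := O) fun y hy => mem_range_vl.2 (hEW y (by
    obtain ⟨g, -, -, h1⟩ := hV.pt
    exact IsPoint.le_field h1 (icl_le _ _) hy))
  obtain ⟨x₁, ex⟩ := exists_fun (vl W) (f := x) fun i =>
    mem_range_vl.2 (hEW _ (hFE (hA.le_field (hP.xm i).1)))
  have mF : ∀ y : W, y ∈ F₁ ↔ (y : L) ∈ F := fun y => by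
    rw [← mem_field_map (vl W), ← eF]; rfl
  have mU : ∀ y : W, y ∈ U₁ ↔ (y : L) ∈ U := fun y => by
    rw [← mem_img (vl W), ← eU]; rfl
  have mE : ∀ y : W, y ∈ F₁ ⊔ IntermediateField.adjoin k {Y₁} ↔
      (y : L) ∈ F ⊔ IntermediateField.adjoin k {Y} := fun y => by
    rw [← mem_field_map (vl W), sup_map, ← eF, ← eY]; rfl
  have aF : ∀ y : W, IsAlgebraic F₁ y ↔ IsAlgebraic F (y : L) := fun y => by
    rw [← alg_map (vl W), ← eF]; rfl
  have hA₁ : Aff n F₁ D₁ R₁ := Aff.of_map (vl W) (by rwa [← eF, ← H.eD, ← H.eR])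
  have hle : F₁ ≤ K₁ := fun y hy => H.mem y (hFN _ ((mF y).1 hy))
  obtain ⟨ρ, hρ⟩ := exists_res hFE N W H.le
  have key : TUp (W ≃ₐ[_] W) n m F₁ K₁ Y₁ U₁ S₁ D₁ R₁ x₁ ξ t₁ :=
    { m0 := by rintro rfl; exact hm Nat.cast_zero
      aff := hA₁
      par := Par.of_map (vl W) (by rwa [← H.eS, ← H.eR, ← ex, ← H.et])
      sF := fun f hf => (mF f).2 (hS _ (H.eS ▸ (mem_img _).2 hf))
      fg := H.fg
      le := hle
      alg := fun z hz => (aF z).2 (H.alg z hz)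
      st := H.stb
      tr := fun e => hY (eY ▸ (aF Y₁).1 e)
      top := H.top _ le_sup_left fun y hy => sup_le_sup_right hle _ ((mE y).2 hy)
      fix := fun z => by
        rw [mE]
        refine Iff.trans ?_ (IsGalois.mem_bot_iff_fixed z)
        rw [IntermediateField.mem_bot]
        exact ⟨fun hz => ⟨⟨z, hz⟩, rfl⟩, fun ⟨c, hc⟩ => hc ▸ c.2⟩
      root := fun i => ⟨H.rt i, Subtype.ext ((H.pow i).trans (congrFun ex i))⟩
      chi := H.chi
      uK := fun u hu => H.mem u (hU.le _ ((mU u).1 hu))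
      one := (mU 1).2 hU.one
      sub := fun u hu v hv => (mU _).2 (hU.sub _ ((mU u).1 hu) _ ((mU v).1 hv))
      gal := fun g u hu => (mU _).2 (by
        have := hU.gal (ρ g) ⟨u, hU.le _ ((mU u).1 hu)⟩ ((mU u).1 hu)
        rwa [hρ] at this)
      off := fun V hV hs u hu h0 => hO.un (vl W) hV (fun f hf => by
          rw [H.eS] at hf
          obtain ⟨y, hy, e⟩ := Finset.mem_image.1 hf
          exact ⟨y, e, hs y hy⟩) (hUT _ ((mU u).1 hu) ((_root_.map_ne_zero (vl W)).2 h0))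
      aj := fun R₂ h1 h2 => by
        obtain ⟨h3, h4, -, -, h5⟩ := H.pt R₂ h1 h2
        exact ⟨fun y hy => (h3.rt y hy).imp fun c hc =>
          h4.gen _ (sub_mem hy (R₂.algebraMap_mem c)) hc, h5⟩ }
  rw [eS, eO]
  exact Loc.troF_map _ (h W (W ≃ₐ[_] W) n m F₁ K₁ Y₁ U₁ S₁ S₂ D₁ R₁ O₁ r s x₁ ξ t₁ key
    ((Loc.ful_map (vl W)).1 (by rwa [← H.eS, ← H.eR, ← ex]))
    (over_of_map (vl W) (by rwa [← eF, ← eY, ← eU, ← H.eS, ← eS, ← H.eD, ← H.eR, ← eO])))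

end Pool.Agent.MP_19ffc6_ag.Res.P
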