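import Pool.Agent.MP_19ffc6_ag.Res.PSpec
import Pool.Agent.MP_19ffc6_ag.Res.PAct
import Pool.Agent.MP_19ffc6_ag.Res.Cover
import Pool.Agent.MP_19ffc6_ag.Res.TreeM

/-! PROJECT RESP: stable linear systems for models and for global modules. -/

namespace Pool.Agent.MP_19ffc6_ag.Res.P

open Pool.Agent.MP_19ffc6_ag.Wild Pool.Agent.MP_19ffc6_ag.Lci Pool.Agent.MP_19ffc6_ag.Res.Tor
open Pool.Agent.MP_19ffc6_ag.Res.B

variable {k L : Type} [Field k] [Field L] [Algebra k L] {K₀ : Subfield L}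
  {K : IntermediateField k L} {M N : Submodule k L} {O : Subalgebra k L}

namespace Rtn

/-- The product of the conjugates. -/
theorem exists_norm (hG : Gl K₀ K) (hM : M.FG) (hK : ∀ x ∈ M, x ∈ K) :
    ∃ C, Stb K₀ (M * C) ∧ ∀ p : Submodule k L → Prop, p 1 → (∀ A B, p A → p B → p (A * B)) →
      (∀ g : SA k L, Fx K₀ g → p (g • M)) → p C := by
  classical
  have hf := orbM_fin hM fun x hx => hG.alg x (hK x hx)
  refine ⟨∏ N ∈ hf.toFinset.erase M, N, stb_iff.2 fun g hg => ?_, fun p h1 h2 h3 =>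
    Finset.prod_induction _ p h2 h1 fun N hN => ?_⟩
  · rw [Finset.mul_prod_erase _ (fun N => N) (hf.mem_toFinset.2 ⟨1, .one _, (one_smul _ _).symm⟩),
      sM_prod]
    refine Finset.prod_nbij' (g • ·) (g⁻¹ • ·) ?_ ?_ (fun _ _ => inv_smul_smul _ _)
      (fun _ _ => smul_inv_smul _ _) fun _ _ => rfl
    all_goals
      intro N hN
      obtain ⟨g', hg', rfl⟩ := hf.mem_toFinset.1 hN
    exacts [hf.mem_toFinset.2 ⟨_, hg.mul hg', (mul_smul _ _ _).symm⟩,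
      hf.mem_toFinset.2 ⟨_, hg.inv.mul hg', (mul_smul _ _ _).symm⟩]
  · obtain ⟨g, hg, rfl⟩ := hf.mem_toFinset.1 (Finset.mem_of_mem_erase hN)
    exact h3 g hg

theorem cl_smul (hG : Gl K₀ K) (hM : M.FG) (hK : ∀ x ∈ M, x ∈ K) {g : SA k L} (hg : Fx K₀ g) :
    (g • M).FG ∧ ∀ x ∈ g • M, x ∈ K :=
  ⟨fg_smul.2 hM, fun x hx => (hG.smul_mem_iff hg.inv x).1 (hK _ hx)⟩

theorem cl_norm (hG : Gl K₀ K) (hM : M.FG) (hK : ∀ x ∈ M, x ∈ K) {C : Submodule k L}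
    (h : ∀ p : Submodule k L → Prop, p 1 → (∀ A B, p A → p B → p (A * B)) →
      (∀ g : SA k L, Fx K₀ g → p (g • M)) → p C) : C.FG ∧ ∀ x ∈ C, x ∈ K :=
  h (fun C => C.FG ∧ ∀ x ∈ C, x ∈ K) ⟨(Cl.cls K₀ K).one.1, (Cl.cls K₀ K).one.2.2⟩
    (fun _ _ ha hb => ⟨ha.1.mul hb.1, mul_le_field ha.2 hb.2⟩) fun _ => cl_smul hG hM hK

/-- A linear system without base points does not change the model. -/
theorem pt_mul_iff (h : ∀ O, Pt ⊥ M O → ∃ c ∈ N, c ≠ 0 ∧ ∀ x ∈ N, x / c ∈ O) :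
    Pt ⊥ (M * N) O ↔ Pt ⊥ M O := by
  refine ⟨fun hO => ?_, fun hO => ?_⟩
  · obtain ⟨O', a, ha, h1, hD, ha0, hP⟩ := Lci.Pt.of_mul_dom hO
    obtain ⟨c, hc, hc0, h2⟩ := h O' h1
    have h3 : Un O' (a / c) := hD.2 _ (h2 a ha) ⟨hD.1 (h2 a ha), div_ne_zero ha0 hc0, by
      rw [inv_div]; exact hP.le (div_mem_chart _ _ hc)⟩
    have h4 : O = O' := hD.eq_of_isPoint (hP.of_le_loc hD.1 ((chart_le le_rfl fun x hx => by
      have : x / a = x / c * (a / c)⁻¹ := by field_simp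
      rw [this]; exact mul_mem (h2 x hx) h3.2.2).trans (le_loc _ _)))
    exact h4 ▸ h1
  · obtain ⟨c, hc, hc0, h2⟩ := h O hO
    have h3 : Lcl O := let ⟨_, _, _, h⟩ := hO; h.lcl
    exact Pt.mul hO hc hc0 ⟨chart_le le_rfl h2, h3, (le_chart _ _ _).trans (le_loc _ _)⟩

end Rtn

open Rtn

/-- Module RAT, first part. -/
theorem ratStmt : RatStmt k L := by
  intro K₀ K M hG hM hst
  obtain ⟨C, h1, h2⟩ := exists_norm hG hM.fg hM.le
  obtain ⟨h3, h4⟩ := cl_norm hG hM.fg hM.le h2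
  have h5 := h2 (fun N => ∀ O, Pt ⊥ M O → ∃ c ∈ N, c ≠ 0 ∧ ∀ x ∈ N, x / c ∈ O)
    (fun O _ => ⟨1, Submodule.one_le.1 le_rfl, one_ne_zero, fun x hx => by
      obtain ⟨c, rfl⟩ := Submodule.mem_one.1 hx
      rw [div_one]; exact O.algebraMap_mem c⟩)
    (fun A B hA hB O hO => by
      obtain ⟨a, a1, a2, a3⟩ := hA O hO
      obtain ⟨b, b1, b2, b3⟩ := hB O hO
      refine ⟨a * b, Submodule.mul_mem_mul a1 b1, mul_ne_zero a2 b2, fun x hx => ?_⟩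
      refine Submodule.mul_induction_on hx (fun x hx y hy => ?_) fun x y hx hy => ?_
      · rw [← div_mul_div_comm]; exact mul_mem (a3 x hx) (b3 y hy)
      · rw [add_div]; exact add_mem hx hy)
    fun g hg O hO => by
      have := (pt_smul (g := g)).2 (hst _ hg.inv O hO)
      rw [smul_inv_smul] at this
      obtain ⟨c, hc, hc0, hP⟩ := this
      exact ⟨c, hc, hc0, fun x hx => hP.le (div_mem_chart _ _ hx)⟩
  obtain ⟨O, hO⟩ := exists_pt hM.ne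
  obtain ⟨c, hc, hc0, -⟩ := h5 O hO
  exact ⟨M * C, h1, hM.mul h3 (fun e => hc0 ((Submodule.mem_bot k).1 (e ▸ hc))) h4,
    fun O => pt_mul_iff h5⟩

/-- Module RAT, second part. -/
theorem normP [PerfectField k] : NormP k L := by
  intro K₀ E K M hG hM hst hEK hK halg
  obtain ⟨M', h1, h2, h3⟩ := hM.normIn hEK hK halg
  obtain ⟨M'', h4, h5, h6⟩ := ratStmt K₀ K M' hG h1 fun g hg O' hO' => by
    obtain ⟨O, a1, -, a2⟩ := h2 O' hO'
    exact h3 (g • O) _ ((hst.pt hg).2 a1)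
      (by rw [icl_smul (hG.smul_mem_iff hg)]; exact isPoint_smul.2 a2)
  exact ⟨M'', h4, h5, fun O' hO' => h2 O' ((h6 O').1 hO')⟩

/-- Module RAT, third part. -/
theorem globP : GlobP k L := by
  intro K₀ K M J hG hM hst hJ hJK heq
  obtain ⟨A, B, hA, hB, hAK, hBK, h⟩ : ∃ A B : Submodule k L, A.FG ∧ B.FG ∧ (∀ x ∈ A, x ∈ K) ∧
      (∀ x ∈ B, x ∈ K) ∧ ∀ O, Pt ⊥ M O →
        (∃ c, c ≠ 0 ∧ sp O B = sp O (pr k c)) ∧ sp O A = sp O (B * J O) := by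
    obtain ⟨A, B, hA, hB, h⟩ := hJ
    obtain ⟨O, hO⟩ := exists_pt hM.ne
    obtain ⟨c, h0, h1, h2⟩ := h O hO
    have hs : ∀ X : Submodule k L, (∀ x ∈ X, x ∈ K) → ∀ x ∈ sp O X, x ∈ K := fun X hX =>
      mul_le_field (fun x hx => hM.pt_le hO hx) hX
    have hp : pr k c⁻¹ * pr k c = 1 := by rw [pr_mul, inv_mul_cancel₀ h0, pr_one]
    refine ⟨pr k c⁻¹ * A, pr k c⁻¹ * B, (pr_fg _).mul hA, (pr_fg _).mul hB, fun x hx =>
      hs _ (hJK O hO) x ?_, fun x hx => hs _ (Cl.cls K₀ K).one.2.2 x ?_, fun O hO => ?_⟩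
    · have := le_sp O _ hx
      rwa [sp_mul_congr rfl h2, ← mul_assoc, hp, one_mul] at this
    · have := le_sp O _ hx
      rwa [sp_mul_congr rfl h1, hp] at this
    · obtain ⟨d, d0, d1, d2⟩ := h O hO
      refine ⟨⟨c⁻¹ * d, mul_ne_zero (inv_ne_zero h0) d0, by rw [sp_mul_congr rfl d1, pr_mul]⟩, ?_⟩
      rw [mul_assoc]
      exact sp_mul_congr rfl (d2.trans (sp_mul_congr d1.symm rfl))
  obtain ⟨C, h1, h2⟩ := exists_norm hG hB hBK
  obtain ⟨h3, h4⟩ := cl_norm hG hB hBK h2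
  have h5 := h2 (fun N => ∀ O, Pt ⊥ M O → ∃ c, c ≠ 0 ∧ sp O N = sp O (pr k c))
    (fun O _ => ⟨1, one_ne_zero, by rw [pr_one]⟩)
    (fun A B hA hB O hO => by
      obtain ⟨a, a1, a2⟩ := hA O hO
      obtain ⟨b, b1, b2⟩ := hB O hO
      exact ⟨a * b, mul_ne_zero a1 b1, by rw [sp_mul_congr a2 b2, pr_mul]⟩)
    fun g hg O hO => by
      obtain ⟨c, c0, c1⟩ := (h _ ((hst.pt hg.inv).2 hO)).1
      refine ⟨g • c, sm_ne_zero.2 c0, ?_⟩
      rw [← smul_inv_smul g O, pr_smul, sp_smul, sp_smul, c1]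
  have hAC : (A * C).FG := hA.mul h3
  have hACK := mul_le_field hAK h4
  have hf := orbM_fin hAC fun x hx => hG.alg x (hACK x hx)
  have h6 : ∀ g : SA k L, Fx K₀ g → ∀ O, Pt ⊥ M O →
      sp O (g • (A * C)) = sp O (B * C * J O) := fun g hg O hO => by
    have h7 := (hst.pt hg.inv).2 hO
    have h8 : sp O (g • J (g⁻¹ • O)) = sp O (J O) := by
      refine sp_eq_of_le (sM_le_iff.2 fun x hx => ?_) fun x hx => ?_
      · simpa only [smul_inv_smul] using heq g hg _ h7 x hx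
      · have := (smul_mem_sM (g := g)).2 (heq _ hg.inv O hO x hx)
        rwa [← sp_smul, smul_inv_smul, smul_inv_smul] at this
    rw [← sp_mul_congr rfl h8, ← h1.eq hg, ← sM_mul]
    conv => enter [1, 1]; rw [← smul_inv_smul g O]
    conv => enter [2, 1]; rw [← smul_inv_smul g O]
    rw [sp_smul, sp_smul, sp_mul_congr (h _ h7).2 rfl, mul_right_comm]
  have h7 : ∀ Z : Submodule k L, ⨆ N ∈ hf.toFinset, N ≤ Z ↔
      ∀ g : SA k L, Fx K₀ g → g • (A * C) ≤ Z := fun Z => by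
    simp only [iSup_le_iff, Set.Finite.mem_toFinset]
    exact ⟨fun h g hg => h _ ⟨g, hg, rfl⟩, by rintro h _ ⟨g, hg, rfl⟩; exact h g hg⟩
  have h8 := (h7 _).1 le_rfl
  refine ⟨⨆ N ∈ hf.toFinset, N, B * C, ⟨Submodule.fg_biSup _ _ fun N hN => ?_, fun g hg => ?_,
    (h7 K.toSubalgebra.toSubmodule).2 fun g hg => (cl_smul hG hAC hACK hg).2⟩,
    ⟨hB.mul h3, h1, mul_le_field hBK h4⟩, fun O hO => ?_⟩
  · obtain ⟨g, -, rfl⟩ := hf.mem_toFinset.1 hN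
    exact fg_smul.2 hAC
  · exact (h7 (g⁻¹ • _)).2 fun g' hg' => by
      rw [← sM_le (g := g), smul_inv_smul, ← mul_smul]; exact h8 _ (hg.mul hg')
  · obtain ⟨b, b0, b1⟩ := (h O hO).1
    obtain ⟨c, c0, c1⟩ := h5 O hO
    have e : sp O (B * C) = sp O (pr k (b * c)) := by rw [sp_mul_congr b1 c1, pr_mul]
    refine ⟨b * c, mul_ne_zero b0 c0, e, ?_⟩
    rw [← sp_mul_congr e rfl]
    refine sp_eq_of_le ((h7 _).2 fun g hg => (le_sp O _).trans (h6 g hg O hO).le) ?_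
    exact (le_sp O _).trans ((h6 1 (.one _) O hO).ge.trans
      (sp_le_sp le_rfl ((h8 1 (.one _)).trans (le_sp O _))))

end Pool.Agent.MP_19ffc6_ag.Res.P
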