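import Pool.Agent.MP_19ffc6_ag.Res.PSpec
import Pool.Agent.MP_19ffc6_ag.Res.PAct
import Pool.Agent.MP_19ffc6_ag.Res.Out

/-! PROJECT RESP, module SYM: rational equations for supports and a stable group of sections. -/

namespace Pool.Agent.MP_19ffc6_ag.Res.P

open Pool.Agent.MP_19ffc6_ag.Wild Pool.Agent.MP_19ffc6_ag.Lci Pool.Agent.MP_19ffc6_ag.Res.B
open Polynomial

variable {k L : Type} [Field k] [Field L] [Algebra k L]

namespace SymA

lemma exists_coeffs {K₀ : Subfield L} {x : L} (hx : IsAlgebraic K₀ x) :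
    ∃ S : Finset L, (∀ f ∈ S, f ∈ K₀ ∧ f ≠ 0) ∧
      ∀ V : Subalgebra k L, Val V → (∀ f ∈ S, f ∈ V) → x ∈ V := by
  have hi := hx.isIntegral
  refine ⟨((minpoly K₀ x).map (algebraMap K₀ L)).coeffs, fun f hf => ?_, fun V hV h => ?_⟩
  · obtain ⟨n, hn, rfl⟩ := mem_coeffs_iff.1 hf
    exact ⟨by rw [coeff_map]; exact SetLike.coe_mem _, mem_support_iff.1 hn⟩
  · obtain ⟨q, hq, -, hm⟩ := lifts_and_natDegree_eq_and_monic
      (f := algebraMap V L) (p := (minpoly K₀ x).map (algebraMap K₀ L))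
      ((lifts_iff_coeffs_subset_range _).2 fun f hf => ⟨⟨f, h f hf⟩, rfl⟩)
      ((minpoly.monic hi).map _)
    refine hV.mem_of_isIntegral le_rfl ⟨q, hm, ?_⟩
    rw [← eval_map, hq, eval_map, ← aeval_def, minpoly.aeval]

variable {F₀ : Subfield L} {F : IntermediateField k L} {g : SA k L}

lemma alg (h : Gl F₀ F) {x : L} (hx : IsAlgebraic F x) : IsAlgebraic F₀ x := by
  let _ : Algebra F₀ F :=
    (Subfield.inclusion (S := F₀) (T := F.toSubfield) fun _ hy => h.mem hy).toAlgebra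
  have : IsScalarTower F₀ F L := .of_algebraMap_eq fun _ => rfl
  have : Algebra.IsAlgebraic F₀ F := ⟨fun y =>
    (isAlgebraic_algebraMap_iff (algebraMap F L).injective).1 (h.alg y y.2)⟩
  exact (isIntegral_trans x hx.isIntegral).isAlgebraic

/-- The conjugate of an extension of `F`. -/
def cj (h : Gl F₀ F) (hg : Fx F₀ g) (N : IntermediateField F L) : IntermediateField F L where
  carrier := {x | g⁻¹ • x ∈ N}
  add_mem' ha hb := by simpa only [Set.mem_ofPred_eq, smul_add] using add_mem ha hb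
  mul_mem' ha hb := by simpa only [Set.mem_ofPred_eq, smul_mul'] using mul_mem ha hb
  algebraMap_mem' c := N.algebraMap_mem ⟨_, h.smul_mem hg.inv c.2⟩
  inv_mem' x hx := by simpa only [Set.mem_ofPred_eq, smul_inv''] using inv_mem hx

/-- The automorphism of `F`. -/
def eF (h : Gl F₀ F) (hg : Fx F₀ g) : F ≃+* F where
  toFun x := ⟨g • x.1, h.smul_mem hg x.2⟩
  invFun x := ⟨g⁻¹ • x.1, h.smul_mem hg.inv x.2⟩
  left_inv _ := Subtype.ext (inv_smul_smul _ _)
  right_inv _ := Subtype.ext (smul_inv_smul _ _)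
  map_mul' _ _ := Subtype.ext (smul_mul' _ _ _)
  map_add' _ _ := Subtype.ext (smul_add _ _ _)

/-- The isomorphism of an extension with its conjugate. -/
def eN (h : Gl F₀ F) (hg : Fx F₀ g) (N : IntermediateField F L) : N ≃+* cj h hg N where
  toFun x := ⟨g • x.1, show g⁻¹ • g • x.1 ∈ N by rw [inv_smul_smul]; exact x.2⟩
  invFun x := ⟨g⁻¹ • x.1, x.2⟩
  left_inv _ := Subtype.ext (inv_smul_smul _ _)
  right_inv _ := Subtype.ext (smul_inv_smul _ _)
  map_mul' _ _ := Subtype.ext (smul_mul' _ _ _)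
  map_add' _ _ := Subtype.ext (smul_add _ _ _)

/-- Conjugation of automorphisms. -/
def bk (h : Gl F₀ F) (hg : Fx F₀ g) (N : IntermediateField F L) :
    (cj h hg N ≃ₐ[F] cj h hg N) →* (N ≃ₐ[F] N) :=
  MonoidHom.mk' (fun σ => AlgEquiv.ofRingEquiv
    (f := ((eN h hg N).trans σ.toRingEquiv).trans (eN h hg N).symm) fun c => by
      have e : eN h hg N (algebraMap F N c) = algebraMap F _ (eF h hg c) := rfl
      change (eN h hg N).symm (σ (eN h hg N (algebraMap F N c))) = _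
      rw [e, σ.commutes, ← e, RingEquiv.symm_apply_apply])
    fun σ τ => AlgEquiv.ext fun x => by
      change (eN h hg N).symm (σ (τ (eN h hg N x))) =
        (eN h hg N).symm (σ (eN h hg N ((eN h hg N).symm (τ (eN h hg N x)))))
      rw [RingEquiv.apply_symm_apply]

lemma tame_cj {m : ℕ} (h : Gl F₀ F) (hg : Fx F₀ g) {N : IntermediateField F L}
    (hN : Tame m F N) : Tame m F (cj h hg N) := by
  have := hN.fin
  have := hN.gal
  refine ⟨Module.Finite.of_equiv_equiv (eF h hg) (eN h hg N) rfl,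
    IsGalois.of_equiv_equiv (f := eF h hg) (g := eN h hg N) rfl, fun V hV σ hσ => ?_⟩
  have e := hN.pow (g⁻¹ • V) (val_smul.2 hV) (bk h hg N σ) fun x hx => by
    obtain ⟨h1, h2⟩ := hσ (eN h hg N x) (by rwa [mem_sA, inv_inv] at hx)
    refine ⟨smul_mem_sA.2 h1, fun h3 => h2 ?_⟩
    rw [un_smul', inv_inv, smul_sub] at h3
    change Un V (g • g⁻¹ • _ - _) at h3
    rwa [smul_inv_smul] at h3
  rw [← map_pow] at e
  refine AlgEquiv.ext fun y => ?_
  obtain ⟨x, rfl⟩ := (eN h hg N).surjective y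
  exact (eN h hg N).symm_apply_eq.1 (DFunLike.congr_fun e x)

end SymA

open SymA

theorem minStmt : MinStmt k L := by
  classical
  intro K₀ K T h hT
  choose! A hA hA' using fun x (hx : x ∈ K) => exists_coeffs (k := k) (h.alg x hx)
  refine ⟨T.biUnion fun x => A x ∪ A x⁻¹, fun f hf => ?_, fun V hV hS f hf => ?_⟩
  · obtain ⟨x, hx, hf⟩ := Finset.mem_biUnion.1 hf
    exact (Finset.mem_union.1 hf).elim (hA x (hT x hx).1 f) (hA _ (inv_mem (hT x hx).1) f)
  · exact ⟨hA' f (hT f hf).1 V hV fun c hc =>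
        (hS c (Finset.mem_biUnion.2 ⟨f, hf, Finset.mem_union_left _ hc⟩)).1, (hT f hf).2,
      hA' _ (inv_mem (hT f hf).1) V hV fun c hc =>
        (hS c (Finset.mem_biUnion.2 ⟨f, hf, Finset.mem_union_right _ hc⟩)).1⟩

theorem symStmt (hB : BezStmt k L) (hE : ExtStmt k L) : SymStmt k L := by
  classical
  intro m F₀ F N₀ Z h h0 hZ
  have := h0.fin
  have h1 : (⋃ u ∈ (Z : Set L), {y | ∃ g : SA k L, Fx F₀ g ∧ y = g • u}).Finite :=
    Z.finite_toSet.biUnion fun u hu => orb_fin k (alg h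
      ((isAlgebraic_algebraMap_iff (algebraMap N₀ L).injective).2
        (Algebra.IsAlgebraic.isAlgebraic (⟨u, hZ u hu⟩ : N₀))))
  obtain ⟨N, hN, h2⟩ := OutA.exists_tame_finset (E := F) (m := m) h1.toFinset fun y hy => by
    obtain ⟨u, hu, g, hg, rfl⟩ := Set.mem_iUnion₂.1 (h1.mem_toFinset.1 hy)
    exact ⟨_, tame_cj h hg h0, (eN h hg N₀ ⟨u, hZ u hu⟩).2⟩
  obtain ⟨U, h3, hU⟩ := hB.span F N _ hN.fin h2
  have hm : ∀ {u}, u ∈ U.filter (fun u => ∀ g : SA k L, Fx F₀ g → g • u ∈ U) ↔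
      ∀ g : SA k L, Fx F₀ g → g • u ∈ U := fun {u} => by
    rw [Finset.mem_filter]
    exact and_iff_right_of_imp fun e => one_smul (SA k L) u ▸ e 1 (Fx.one _)
  have hs : ∀ g : SA k L, Fx F₀ g → ∀ u ∈ U.filter fun u => ∀ g : SA k L, Fx F₀ g → g • u ∈ U,
      g • u ∈ U.filter fun u => ∀ g : SA k L, Fx F₀ g → g • u ∈ U := fun g hg u hu =>
    hm.2 fun g' hg' => mul_smul g' g u ▸ hm.1 hu _ (hg'.mul hg)
  refine ⟨N, _, hN, fun u hu => hm.2 fun g hg =>
    h3 (h1.mem_toFinset.2 (Set.mem_iUnion₂.2 ⟨u, hu, g, hg, rfl⟩)),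
    ⟨fun u hu => hU.le u (Finset.mem_filter.1 hu).1,
      hm.2 fun g _ => by rw [smul_one]; exact hU.one,
      fun u hu v hv => hm.2 fun g hg => ?_, fun σ u hu => ?_⟩, hs⟩
  · rw [smul_sub]
    exact hU.sub _ (hm.1 hu g hg) _ (hm.1 hv g hg)
  · obtain ⟨g, hg⟩ := hE F N σ
    rw [← hg]
    exact hs g (fun x hx => (hg (algebraMap F N ⟨x, h.mem hx⟩)).trans
      (congrArg Subtype.val (σ.commutes _))) _ hu

end Pool.Agent.MP_19ffc6_ag.Res.P
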