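import Pool.Agent.MP_19ffc6_ag.Res.PDefs
import Pool.Agent.MP_19ffc6_ag.Res.Tor

/-! PROJECT RESP, module PTOR: toroidal resolution and principalization inside a class of linear
systems that is closed under sums and products. -/

namespace Pool.Agent.MP_19ffc6_ag.Res.P

open Pool.Agent.MP_19ffc6_ag.Wild Pool.Agent.MP_19ffc6_ag.Lci Pool.Agent.MP_19ffc6_ag.Res.Tor
  Pool.Agent.MP_19ffc6_ag.Res.Tor.TS Submodule Filter

variable {k L : Type} [Field k] [Field L] [Algebra k L] {C : Submodule k L → Prop}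

section Glob

variable {M X : Submodule k L} {J J' : Subalgebra k L → Submodule k L}

lemma GlobC.congr (h : GlobC C M J) (e : ∀ O, Pt ⊥ M O → sp O (J O) = sp O (J' O)) :
    GlobC C M J' := by
  obtain ⟨A, B, hA, hB, h⟩ := h
  refine ⟨A, B, hA, hB, fun O hO => ?_⟩
  obtain ⟨g, h0, h1, h2⟩ := h O hO
  exact ⟨g, h0, h1, h2.trans (sp_mul_congr rfl (e O hO))⟩

lemma GlobC.const (hC : Cls C) (M : Submodule k L) (h : C X) : GlobC C M fun _ => X :=
  ⟨X, 1, h, hC.one, fun _ _ => ⟨1, one_ne_zero, by rw [pr_one], by rw [pr_one, one_mul]⟩⟩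

lemma GlobC.mul (hC : Cls C) (h : GlobC C M J) (h' : GlobC C M J') :
    GlobC C M fun O => J O * J' O := by
  obtain ⟨A, B, hA, hB, h⟩ := h
  obtain ⟨A', B', hA', hB', h'⟩ := h'
  refine ⟨A * A', B * B', hC.mul _ _ hA hA', hC.mul _ _ hB hB', fun O hO => ?_⟩
  obtain ⟨g, h0, h1, h2⟩ := h O hO
  obtain ⟨g', h0', h1', h2'⟩ := h' O hO
  refine ⟨g * g', mul_ne_zero h0 h0', by rw [sp_mul_congr h1 h1', pr_mul], ?_⟩
  rw [sp_mul_congr h2 h2', ← pr_mul]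
  congr 1; ring

lemma GlobC.sup (hC : Cls C) (h : GlobC C M J) (h' : GlobC C M J') :
    GlobC C M fun O => J O ⊔ J' O := by
  obtain ⟨A, B, hA, hB, h⟩ := h
  obtain ⟨A', B', hA', hB', h'⟩ := h'
  refine ⟨A * B' ⊔ B * A', B * B', hC.sup _ _ (hC.mul _ _ hA hB') (hC.mul _ _ hB hA'),
    hC.mul _ _ hB hB', fun O hO => ?_⟩
  obtain ⟨g, h0, h1, h2⟩ := h O hO
  obtain ⟨g', h0', h1', h2'⟩ := h' O hO
  refine ⟨g * g', mul_ne_zero h0 h0', by rw [sp_mul_congr h1 h1', pr_mul], ?_⟩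
  rw [sp_sup, sp_mul_congr h2 h1', sp_mul_congr h1 h2', ← sp_sup, ← pr_mul, Submodule.mul_sup]
  congr 2 <;> ring

lemma GlobC.pow (hC : Cls C) (h : GlobC C M J) (n : ℕ) : GlobC C M fun O => J O ^ n := by
  induction n with
  | zero => simpa using GlobC.const hC M hC.one
  | succ n ih => simpa [pow_succ] using ih.mul hC h

lemma GlobC.biSup (hC : Cls C) {κ : Type} {S : Set κ} (hS : S.Finite)
    {F : κ → Subalgebra k L → Submodule k L} (h : ∀ i ∈ S, GlobC C M (F i)) :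
    GlobC C M fun O => ⨆ i ∈ S, F i O := by
  induction S, hS using Set.Finite.induction_on with
  | empty => simpa using GlobC.const hC M hC.bot
  | @insert i S _ _ ih =>
    simpa only [iSup_insert] using (h i (Set.mem_insert _ _)).sup hC
      (ih fun j hj => h j (Set.mem_insert_of_mem _ hj))

lemma GlobC.pull (h : GlobC C M J) {M' : Submodule k L} (c : Subalgebra k L → Subalgebra k L)
    (hc : ∀ O', Pt ⊥ M' O' → Pt ⊥ M (c O') ∧ c O' ≤ O') : GlobC C M' fun O' => J (c O') := by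
  obtain ⟨A, B, hA, hB, h⟩ := h
  refine ⟨A, B, hA, hB, fun O' hO' => ?_⟩
  obtain ⟨g, h0, h1, h2⟩ := h _ (hc O' hO').1
  exact ⟨g, h0, sp_congr (hc O' hO').2 h1, sp_congr (hc O' hO').2 h2⟩

lemma GlobC.inv {u : Subalgebra k L → L} (h : GlobC C M fun O => pr k (u O))
    (hu : ∀ O, Pt ⊥ M O → u O ≠ 0) : GlobC C M fun O => pr k (u O)⁻¹ := by
  obtain ⟨A, B, hA, hB, h⟩ := h
  refine ⟨B, A, hB, hA, fun O hO => ?_⟩
  obtain ⟨g, h0, h1, h2⟩ := h O hO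
  refine ⟨g * u O, mul_ne_zero h0 (hu O hO), by rw [h2, pr_mul], ?_⟩
  rw [h1, pr_mul, mul_inv_cancel_right₀ (hu O hO)]

lemma GlobC.glob (hC : Cls C) (h : GlobC C M J) : Glob M J :=
  let ⟨A, B, hA, hB, h⟩ := h; ⟨A, B, hC.fg _ hA, hC.fg _ hB, h⟩

end Glob

lemma GoodC.good {s : TS k L} (hC : Cls C) (hs : GoodC C s) : s.Good :=
  ⟨hC.fg _ hs.cl, hs.ne, hs.fin, hs.cht, fun a => (hs.glob a).glob hC⟩

section Sys

variable {s : TS k L} {v : s.ι → ℚ}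

lemma GoodC.glob_X (hC : Cls C) (hs : GoodC C s) (hv : 0 ≤ v) (a : s.ι → ℤ) (n : ℚ) :
    GlobC C s.M (s.X v a n) := by
  classical
  obtain ⟨𝒜, a1, a2, a3⟩ := dickson id a {b | a ≤ b ∧ n ≤ vp v b} fun b hb => hb.1
  have hB : ∀ t : Σ r, Typ s.ι r, ∃ b : s.ι → ℤ, (¬ ∀ c, ∃ m : ℤ, vp v (t.2.ev c) = m) →
      (∀ m : ℤ, vp v b ≠ m) ∧ ∃ c, b = t.2.ev c := fun t => by
    by_cases h : ∀ c, ∃ m : ℤ, vp v (t.2.ev c) = m
    · exact ⟨0, fun h' => absurd h h'⟩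
    · push Not at h
      obtain ⟨c, hc⟩ := h
      exact ⟨_, fun _ => ⟨hc, c, rfl⟩⟩
  choose b hb using hB
  let ℬ : Set (s.ι → ℤ) := b '' ((fun O => (s.ch O).ty) '' {O | s.P O}) ∩ {x | ∀ m : ℤ, vp v x ≠ m}
  have hℬ : ℬ.Finite := (hs.fin.image b).inter_of_left _
  obtain ⟨t, ht⟩ := exists_nat_ge (n - vp v a)
  refine ((GlobC.biSup hC a1 fun x _ => hs.glob x).sup hC (((GlobC.biSup hC hℬ fun x _ =>
    (hs.glob x).mul hC (hs.glob (-x))).pow hC t).mul hC (hs.glob a))).congr fun O hO => ?_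
  congr 1
  have hz := (hs.cht O hO).ne
  set K := ⨆ x ∈ ℬ, s.J x O * s.J (-x) O with hK
  have h1 : ⨆ x ∈ 𝒜, s.J x O ≤ s.J a O := iSup₂_le fun x hx => ms_mono (Typ.reg_mono (a2 hx).1)
  have h2 : K ≤ s.J 0 O := iSup₂_le fun x _ => ms_mul_le hz fun c hc c' hc' => by
    simpa using Typ.add_mem_reg hc hc'
  have h3 : ∀ t : ℕ, K ^ t * s.J a O ≤ s.J a O := fun t => by
    induction t with
    | zero => simp
    | succ t ih =>
      rw [pow_succ', mul_assoc]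
      exact (mul_le_mul' h2 ih).trans (ms_mul_le hz fun c hc c' hc' => by
        rw [add_comm]; exact Typ.add_mem_reg0 hc' hc)
  have h4 : ∀ c x, a ≤ x → n ≤ vp v x → (∀ ρ ∈ (s.ch O).τ.R, x ρ = (s.ch O).τ.ev c ρ) →
      mn (s.ch O).z c ∈ ⨆ x ∈ 𝒜, s.J x O := fun c x e1 e2 e3 => by
    obtain ⟨y, hy, hy'⟩ := a3 x ⟨e1, e2⟩
    exact mem_iSup_of_mem y (mem_iSup_of_mem hy (mn_mem_ms fun ρ hρ => e3 ρ hρ ▸ hy' ρ))
  have h5 : ∀ c ∈ (s.ch O).τ.Reg a,
      a ≤ fun ρ => if ρ ∈ (s.ch O).τ.R then (s.ch O).τ.ev c ρ else a ρ := fun c hc ρ => by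
    by_cases h : ρ ∈ (s.ch O).τ.R
    · simpa [h] using hc ρ h
    · simp [h]
  by_cases h : (s.ch O).τ.App v
  · rw [X_pos h]
    refine le_antisymm (sup_le (iSup₂_le fun x hx => ms_mono fun c hc =>
      ⟨Typ.reg_mono (a2 hx).1 hc, (a2 hx).2.trans (h.le hv hc)⟩) ?_)
      (le_sup_of_le_left (ms_le fun c hc => h4 c _ (h5 c hc.1) ?_ fun ρ hρ => if_pos hρ))
    · have h6 : K ≤ ms k (s.ch O).z ((s.ch O).τ.Ex v 0 1) := by
        refine iSup₂_le fun x hx => ms_mul_le hz fun c hc c' hc' =>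
          ⟨by simpa using Typ.add_mem_reg hc hc', ?_⟩
        obtain ⟨m, hm⟩ := h.2 c
        obtain ⟨m', hm'⟩ := h.2 (c + c')
        have e1 := lt_of_le_of_ne (h.le hv hc) (hm ▸ hx.2 m)
        have e2 := h.le hv hc'
        have e3 : (0 : ℚ) < m' := by rw [← hm', Typ.vp_ev_add]; rw [vp_neg] at e2; linarith
        rw [hm']
        have : 0 < m' := by exact_mod_cast e3
        exact_mod_cast this
      have h7 : ∀ t : ℕ, K ^ t * s.J a O ≤
          ms k (s.ch O).z ((s.ch O).τ.Ex v a (t + vp v a)) := fun t => by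
        induction t with
        | zero =>
          rw [pow_zero, one_mul]
          exact ms_mono fun c hc => ⟨hc, by simpa using h.le hv hc⟩
        | succ t ih =>
          rw [pow_succ', mul_assoc]
          refine (mul_le_mul' h6 ih).trans (ms_mul_le hz fun c hc c' hc' =>
            ⟨by rw [add_comm]; exact Typ.add_mem_reg0 hc'.1 hc.1, ?_⟩)
          rw [Typ.vp_ev_add]; push_cast; linarith [hc.2, hc'.2]
      exact (h7 t).trans (ms_mono fun c hc => ⟨hc.1, by linarith [hc.2]⟩)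
    · exact hc.2.trans (vp_congr fun ρ hρ => (if_pos (h.1 ρ hρ)).symm).le
  · rw [X_neg h]
    refine le_antisymm (sup_le h1 (h3 t)) ?_
    by_cases h' : ∀ ρ, v ρ ≠ 0 → ρ ∈ (s.ch O).τ.R
    · obtain ⟨e1, c, e2⟩ : (∀ m : ℤ, vp v (b (s.ch O).ty) ≠ m) ∧ ∃ c : Fin (s.ch O).r → ℤ,
          b (s.ch O).ty = (s.ch O).τ.ev c := hb (s.ch O).ty fun H => h ⟨h', H⟩
      have h6 : (1 : L) ∈ K := by
        refine mem_iSup_of_mem (b (s.ch O).ty) (mem_iSup_of_mem ⟨⟨_, ⟨O, hO, rfl⟩, rfl⟩, e1⟩ ?_)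
        rw [← mul_inv_cancel₀ (mn_ne_zero hz c), ← mn_neg, e2]
        exact mul_mem_mul (mn_mem_ms fun ρ _ => le_rfl) (mn_mem_ms fun ρ _ => (Typ.ev_neg c ρ).ge)
      refine le_sup_of_le_right fun x hx => ?_
      simpa using mul_mem_mul (pow_mem_pow K h6 t) hx
    · push Not at h'
      obtain ⟨ρ, h0, hρ⟩ := h'
      have h0' : 0 < v ρ := lt_of_le_of_ne (hv ρ) (Ne.symm h0)
      refine le_sup_of_le_left (ms_le fun c hc => ?_)
      set x : s.ι → ℤ := fun ρ => if ρ ∈ (s.ch O).τ.R then (s.ch O).τ.ev c ρ else a ρ with hx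
      obtain ⟨m, hm⟩ := exists_nat_ge ((n - vp v x) / v ρ)
      refine h4 c (x + Pi.single ρ (m : ℤ)) ((h5 c hc).trans (le_add_of_nonneg_right
        (Pi.single_nonneg.2 (Nat.cast_nonneg m)))) ?_ fun σ hσ => ?_
      · rw [vp_add, vp_single, div_le_iff₀ h0'] at *
        push_cast; linarith
      · have : σ ≠ ρ := fun e => hρ (e ▸ hσ)
        simp [hx, hσ, Pi.single_eq_of_ne this]

/-- The star subdivision of a toroidal system at the weight `v`. -/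
theorem GoodC.star (hC : Cls C) (hs : GoodC C s) (hv : 0 ≤ v) (hv0 : v ≠ 0) :
    ∃ (M : Submodule k L) (ch : Subalgebra k L → Ch L (Option s.ι)),
      GoodC C (TS.mk (Option s.ι) M ch) ∧ s.Ref (TS.mk (Option s.ι) M ch) ∧
      (∀ f a, s.HasExp f a →
        (TS.mk (Option s.ι) M ch).HasExp f fun o => o.elim ⌊vp v a⌋ a) ∧
      ∀ O', Pt ⊥ M O' → ∃ O, s.P O ∧ ((¬ (s.ch O).τ.App v ∧ ch O' = (s.ch O).keep) ∨
        ((s.ch O).τ.App v ∧ ∃ g, 0 < vp v ((s.ch O).τ.ev g) ∧ ch O' = (s.ch O).star v g)) := by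
  classical
  choose! G G1 G2 G3 using fun (t : Σ r, Typ s.ι r) (h : t.2.Pointed) => Typ.edges h
  set 𝒯 := (fun O => (s.ch O).ty) '' {O | s.P O} with h𝒯
  have hT : ∀ t ∈ 𝒯, t.2.Pointed := by rintro _ ⟨O, hO, rfl⟩; exact (hs.cht O hO).ptd
  obtain ⟨n, hn⟩ : ∃ n : ℕ, ∀ t ∈ 𝒯, ∀ g ∈ G t, t.2.App v → 0 < vp v (t.2.ev g) →
      t.2.Vert v g n.factorial := by
    refine Eventually.exists (f := atTop) ((eventually_all_finite hs.fin).2 fun t ht =>
      (eventually_all_finite (G1 t (hT t ht))).2 fun g hg => ?_)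
    by_cases h : t.2.App v ∧ 0 < vp v (t.2.ev g)
    · filter_upwards [(G2 t (hT t ht) g hg).vert h.1 h.2] with n hn _ _ using hn
    · exact Eventually.of_forall fun _ h1 h2 => absurd ⟨h1, h2⟩ h
  set N := n.factorial with hN
  have hN0 : 0 < N := n.factorial_pos
  obtain ⟨A, B, hA, hB, hAB⟩ := hs.glob_X hC hv 0 N
  have key : ∀ O', ∃ (O : Subalgebra k L) (c : Ch L (Option s.ι)) (u : L), Pt ⊥ (s.M * A) O' →
      s.P O ∧ Dom O O' ∧ IsPoint (O ⊔ TA k c.z c.τ) O' ∧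
      ((¬ (s.ch O).τ.App v ∧ c = (s.ch O).keep ∧ u = 1) ∨
        ((s.ch O).τ.App v ∧ ∃ g : Fin (s.ch O).r → ℤ, g ∈ G (s.ch O).ty ∧
          0 < vp v ((s.ch O).τ.ev g) ∧
          c = (s.ch O).star v g ∧ ∃ q : ℕ, q * vp v ((s.ch O).τ.ev g) = N ∧
            u = mn (s.ch O).z (q • g))) := by
    intro O'
    by_cases hO' : Pt ⊥ (s.M * A) O'
    swap
    · exact ⟨O', (s.ch O').keep, 1, fun h => absurd h hO'⟩
    obtain ⟨O, a, ha, hO, hD, ha0, hP⟩ := Pt.of_mul_dom hO'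
    obtain ⟨b, hb, -, e⟩ := hAB O hO
    have hc := hs.cht O hO
    by_cases h : (s.ch O).τ.App v
    · rw [X_pos h] at e
      obtain ⟨g, hg, h0, q, hq, hP'⟩ := star_chart hc.ne h hv
        (fun g hg => (G2 (s.ch O).ty hc.ptd g hg).1) (G3 (s.ch O).ty hc.ptd) hN0
        (fun g hg => hn _ ⟨O, hO, rfl⟩ g hg h) hc.sf.le hb e ha ha0 hP
      exact ⟨O, (s.ch O).star v g, _, fun _ => ⟨hO, hD, hP', Or.inr ⟨h, g, hg, h0, rfl, q, hq, rfl⟩⟩⟩
    · rw [X_neg h, TS.J, sp_mul_congr rfl hc.sp_zero, pr_mul, mul_one] at e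
      have h1 : ∀ x ∈ A, x / b ∈ O := fun x hx => (mem_sp_pr_iff hb).1 (e ▸ le_sp _ _ hx)
      have h2 : b / a ∈ O' := div_mem_of_mem_sp hD.1 (fun x hx => hP.le (div_mem_chart _ _ hx))
        (e ▸ le_sp _ _ (mem_pr b))
      have h3 : Un O (a / b) := hD.2 _ (h1 a ha) ⟨hD.1 (h1 a ha), div_ne_zero ha0 hb, by
        rwa [inv_div]⟩
      have h4 : O' = O := hD.eq_of_isPoint (hP.of_le_loc hD.1 ((chart_le le_rfl fun x hx => by
        have : x / a = x / b * (a / b)⁻¹ := by field_simp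
        rw [this]; exact mul_mem (h1 x hx) h3.2.2).trans (le_loc _ _)))
      subst h4
      refine ⟨O', (s.ch O').keep, 1, fun _ => ⟨hO, hD, isPoint_self hP.lcl (TA_le fun c hc' =>
        hc.mem ?_), Or.inl ⟨h, rfl, rfl⟩⟩⟩
      exact Typ.reg_keep (τ := (s.ch O').τ) 0 ▸ hc'
  choose ctr ch u H using key
  have hreg : ∀ O', Pt ⊥ (s.M * A) O' → (ch O').At O' ∧
      Set.range (mn (ch O').z) = Set.range (mn (s.ch (ctr O')).z) ∧
      TA k (s.ch (ctr O')).z (s.ch (ctr O')).τ ≤ TA k (ch O').z (ch O').τ := by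
    intro O' hO'
    obtain ⟨hO, -, hP, h⟩ := H O' hO'
    have hc := hs.cht _ hO
    rcases h with ⟨-, e, -⟩ | ⟨h, g, hg, h0, e, -⟩
    · rw [e] at hP ⊢
      have hle : (s.ch (ctr O')).τ.Reg 0 ⊆ (s.ch (ctr O')).τ.keep.Reg 0 :=
        (Typ.reg_keep (τ := (s.ch (ctr O')).τ) 0).ge
      exact ⟨⟨hc.ptd.keep, hc.str.keep, hc.ind, sf_of_isPoint hc.ne hc.str hc.sf hle hP⟩, rfl,
        TA_le fun c hc => mn_mem_TA (hle hc)⟩
    · rw [e] at hP ⊢
      have hle : (s.ch (ctr O')).τ.Reg 0 ⊆ ((s.ch (ctr O')).τ.star v g).Reg 0 := fun c hc =>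
        (Typ.mem_reg_star h).2 ⟨fun ρ hρ _ => hc ρ hρ, by simpa using h.nonneg hv hc⟩
      exact ⟨⟨(G2 (s.ch (ctr O')).ty hc.ptd g hg).pointed_star h h0, hc.str.star h hv hv0, hc.ind,
        sf_of_isPoint hc.ne hc.str hc.sf hle hP⟩, rfl, TA_le fun c hc => mn_mem_TA (hle hc)⟩
  have hexp : ∀ f a, s.HasExp f a →
      (TS.mk (Option s.ι) (s.M * A) ch).HasExp f fun o => o.elim ⌊vp v a⌋ a := by
    intro f a hf O' hO'
    obtain ⟨hO, hD, -, h⟩ := H O' hO'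
    obtain ⟨c, h1, h2⟩ := hf _ hO
    change ∃ c, (∀ ρ ∈ (ch O').τ.R, (ch O').τ.ev c ρ = _) ∧ Un O' (f / mn (ch O').z c)
    rcases h with ⟨-, e, -⟩ | ⟨h, g, -, -, e, -⟩
    · rw [e]
      refine ⟨c, ?_, h2.mono hD.1⟩
      rintro _ ⟨ρ, hρ, rfl⟩
      exact h1 ρ hρ
    · rw [e]
      refine ⟨c, ?_, h2.mono hD.1⟩
      rintro (_ | ρ) hρ
      · change ((s.ch (ctr O')).τ.star v g).ev c none = ⌊vp v a⌋
        rw [← vp_congr fun ρ hρ => h1 ρ (h.1 ρ hρ), ← Typ.ev_star_none (g := g) h,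
          Int.floor_intCast]
      · exact h1 ρ (Typ.some_mem_star.1 hρ).1
  have hu0 : ∀ O', Pt ⊥ (s.M * A) O' → u O' ≠ 0 := fun O' hO' => by
    obtain ⟨hO, -, -, ⟨-, -, e⟩ | ⟨-, g, -, -, -, q, -, e⟩⟩ := H O' hO'
    · rw [e]; exact one_ne_zero
    · rw [e]; exact mn_ne_zero (hs.cht _ hO).ne _
  have hpull : ∀ a n, GlobC C (s.M * A) fun O' => s.X v a n (ctr O') := fun a n =>
    (hs.glob_X hC hv a n).pull ctr fun O' hO' => ⟨(H O' hO').1, (H O' hO').2.1.1⟩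
  -- the new modules in terms of the old ones
  have hnew : ∀ (a : Option s.ι → ℤ) (t : ℕ), (∀ τ ∈ 𝒯, ∀ g ∈ G τ, τ.2.App v →
      ∀ c ∈ (τ.2.star v g).Reg a, ∃ f, c - f ∈ (τ.2.star v g).Reg 0 ∧
        f ∈ (τ.2.star v g).Reg a ∧ f + t • g ∈ τ.2.Reg fun ρ => a (some ρ)) →
      ∀ O', Pt ⊥ (s.M * A) O' →
        sp O' (pr k (u O')⁻¹ ^ t * s.X v (fun ρ => a (some ρ)) (a none + t * N) (ctr O')) =
          sp O' (ms k (ch O').z ((ch O').τ.Reg a)) := by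
    intro a t ht O' hO'
    have hAt := (hreg O' hO').1
    obtain ⟨hO, -, -, ⟨h, e, e'⟩ | ⟨h, g, hg, h0, e, q, hq, e'⟩⟩ := H O' hO'
    · rw [X_neg h, e, e', inv_one, pr_one, one_pow, one_mul]
      exact congrArg (fun S => sp O' (ms k _ S)) (Typ.reg_keep (τ := (s.ch (ctr O')).τ) a).symm
    · have hz := (hs.cht _ hO).ne
      have hg0 : g ∈ (s.ch (ctr O')).τ.Reg 0 := (G2 (s.ch (ctr O')).ty (hs.cht _ hO).ptd g hg).1
      have hw : vp v ((s.ch (ctr O')).τ.ev (t • q • g)) = t * N := by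
        rw [Typ.vp_ev_nsmul, Typ.vp_ev_nsmul, hq]
      rw [e] at hAt
      rw [X_pos h, e, e', pr_pow, inv_pow, ← mn_nsmul, ← mn_neg]
      change _ = sp O' (ms k (s.ch (ctr O')).z (((s.ch (ctr O')).τ.star v g).Reg a))
      refine sp_eq_of_le ((pr_mul_ms_le fun c hc => ?_).trans (le_sp _ _)) (ms_le fun c hc => ?_)
      · rw [← mn_add hz, neg_add_eq_sub]
        refine mn_mem_ms ((Typ.mem_reg_star h).2 ⟨fun ρ hρ e0 => ?_, ?_⟩)
        · rw [Typ.ev_sub, Typ.ev_nsmul, Typ.ev_nsmul, e0]; simpa using hc.1 ρ hρ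
        · rw [Typ.vp_ev_sub, hw]; linarith [hc.2]
      · obtain ⟨f, f1, f2, f3⟩ : ∃ f : Fin (s.ch (ctr O')).r → ℤ,
            c - f ∈ ((s.ch (ctr O')).τ.star v g).Reg 0 ∧ f ∈ ((s.ch (ctr O')).τ.star v g).Reg a ∧
            f + t • g ∈ (s.ch (ctr O')).τ.Reg fun ρ => a (some ρ) := ht _ ⟨_, hO, rfl⟩ g hg h c hc
        have hq0 : q ≠ 0 := by
          rintro rfl
          have : (N : ℚ) = 0 := by simpa using hq.symm
          exact hN0.ne' (by exact_mod_cast this)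
        obtain ⟨q, rfl⟩ := Nat.exists_eq_succ_of_ne_zero hq0
        have e1 : mn (s.ch (ctr O')).z c = mn (s.ch (ctr O')).z (c - f) *
            (mn (s.ch (ctr O')).z (-(t • q.succ • g)) *
              mn (s.ch (ctr O')).z (f + t • q.succ • g)) := by
          rw [← mn_add hz, ← mn_add hz]; congr 1; abel
        refine e1 ▸ mul_mem_sp (hAt.mem f1) (le_sp _ _ (mul_mem_mul (mem_pr _)
          (mn_mem_ms ⟨?_, ?_⟩)))
        · have : f + t • q.succ • g = (f + t • g) + (t * q) • g := by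
            rw [Nat.succ_eq_add_one]; module
          rw [this]
          exact Typ.add_mem_reg0 f3 (Typ.nsmul_mem_reg hg0 _)
        · rw [Typ.vp_ev_add, hw]
          linarith [((Typ.mem_reg_star h).1 f2).2]
  have hinv : GlobC C (s.M * A) fun O' => pr k (u O')⁻¹ := by
    refine GlobC.inv ((hpull 0 N).congr fun O' hO' => ?_) hu0
    have hAt := (hreg O' hO').1
    obtain ⟨hO, hD, -, ⟨h, -, e'⟩ | ⟨h, g, hg, h0, e, q, hq, e'⟩⟩ := H O' hO'
    · rw [X_neg h, e']; exact sp_congr hD.1 (hs.cht _ hO).sp_zero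
    · have hz := (hs.cht _ hO).ne
      have hg0 : g ∈ (s.ch (ctr O')).τ.Reg 0 := (G2 (s.ch (ctr O')).ty (hs.cht _ hO).ptd g hg).1
      have hw : vp v ((s.ch (ctr O')).τ.ev (q • g)) = N := by rw [Typ.vp_ev_nsmul, hq]
      rw [e] at hAt
      rw [X_pos h, e']
      refine sp_eq_of_le (ms_le fun c hc => ?_) ((pr_le (mn_mem_ms
        (And.intro (Typ.nsmul_mem_reg hg0 q) hw.ge))).trans (le_sp _ _))
      rw [mem_sp_pr_iff (mn_ne_zero hz _), ← mn_sub hz]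
      refine hAt.mem ((Typ.mem_reg_star h).2 ⟨fun ρ hρ e0 => ?_, ?_⟩)
      · rw [Typ.ev_sub, Typ.ev_nsmul, e0]; simpa using hc.1 ρ hρ
      · rw [Typ.vp_ev_sub, hw]; simpa using hc.2
  refine ⟨s.M * A, ch, ⟨hC.mul _ _ hs.cl hA, ?_, ?_, fun O' hO' => (hreg O' hO').1,
    fun a => ?_⟩,
    ⟨⟨A, hC.fg _ hA, rfl⟩, fun O' hO' => ⟨ctr O', (H O' hO').1, (H O' hO').2.1,
      (hreg O' hO').2.1,
      (hreg O' hO').2.2, (H O' hO').2.2.1⟩, fun f a h => ⟨_, hexp f a h⟩⟩, hexp, fun O' hO' => ?_⟩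
  · rw [Ne, Submodule.mul_eq_bot, not_or]
    refine ⟨hs.ne, fun e => ?_⟩
    obtain ⟨O, hO⟩ := exists_pt hs.ne
    obtain ⟨b, hb, -, e'⟩ := hAB O hO
    have hc := hs.cht O hO
    obtain ⟨c, hc'⟩ : ∃ c, mn (s.ch O).z c ∈ s.X v 0 N O := by
      by_cases h : (s.ch O).τ.App v
      · obtain ⟨g, hg⟩ := (hc.str.star (g := 0) h hv hv0)
        have h1 := hg none Typ.none_mem_star
        have h2 : (1 : ℚ) ≤ vp v ((s.ch O).τ.ev g) := by
          rw [← Typ.ev_star_none (g := 0) h]; exact_mod_cast h1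
        refine ⟨N • g, X_pos (s := s) h ▸ mn_mem_ms ⟨Typ.nsmul_mem_reg (fun ρ hρ =>
          (hg (some ρ) (Typ.some_mem_star.2 ⟨hρ, Typ.ev_zero ρ⟩)).le) N, ?_⟩⟩
        rw [Typ.vp_ev_nsmul]
        exact le_mul_of_one_le_right (Nat.cast_nonneg N) h2
      · exact ⟨0, X_neg (s := s) h ▸ mn_mem_ms Typ.zero_mem_reg⟩
    have := e' ▸ le_sp O _ (mul_mem_mul (mem_pr b) hc')
    rw [e, sp, Submodule.mul_bot, Submodule.mem_bot] at this
    exact mul_ne_zero hb (mn_ne_zero hc.ne c) this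
  · refine ((hs.fin.image fun t => (⟨t.1, t.2.keep⟩ : Σ r, Typ (Option s.ι) r)).union
      (hs.fin.biUnion fun t ht => (G1 t (hT t ht)).image
        fun g => (⟨t.1, t.2.star v g⟩ : Σ r, Typ (Option s.ι) r))).subset ?_
    rintro _ ⟨O', hO', rfl⟩
    obtain ⟨hO, -, -, ⟨-, e, -⟩ | ⟨-, g, hg, -, e, -⟩⟩ := H O' hO'
    · exact Or.inl ⟨_, ⟨_, hO, rfl⟩, (congrArg Ch.ty e).symm⟩
    · exact Or.inr (Set.mem_biUnion ⟨_, hO, rfl⟩ ⟨g, hg, (congrArg Ch.ty e).symm⟩)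
  · obtain ⟨t, ht⟩ : ∃ t : ℕ, ∀ τ ∈ 𝒯, ∀ g ∈ G τ, τ.2.App v →
        ∀ c ∈ (τ.2.star v g).Reg a, ∃ f, c - f ∈ (τ.2.star v g).Reg 0 ∧
          f ∈ (τ.2.star v g).Reg a ∧ f + t • g ∈ τ.2.Reg fun ρ => a (some ρ) := by
      refine Eventually.exists (f := atTop) ((eventually_all_finite hs.fin).2 fun τ hτ =>
        (eventually_all_finite (G1 τ (hT τ hτ))).2 fun g hg => ?_)
      by_cases h : τ.2.App v
      · obtain ⟨F, F1, F2, F3⟩ := Typ.reg_fg (τ := τ.2.star v g) a _ subset_rfl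
        have : ∀ᶠ t : ℕ in atTop, ∀ f ∈ F, f + t • g ∈ τ.2.Reg fun ρ => a (some ρ) :=
          (eventually_all_finite F1).2 fun f hf => Typ.ev_add_reg (G2 τ (hT τ hτ) g hg).1
            ((Typ.mem_reg_star h).1 (F2 hf)).1
        filter_upwards [this] with t ht _ c hc
        obtain ⟨f, hf, hf'⟩ := F3 c hc
        exact ⟨f, hf', F2 hf, ht f hf⟩
      · exact Eventually.of_forall fun _ h1 => absurd h1 h
    exact ((hinv.pow hC t).mul hC (hpull _ _)).congr (hnew a t ht)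
  · obtain ⟨hO, -, -, ⟨h, e, -⟩ | ⟨h, g, -, h0, e, -⟩⟩ := H O' hO'
    · exact ⟨_, hO, Or.inl ⟨h, e⟩⟩
    · exact ⟨_, hO, Or.inr ⟨h, g, h0, e⟩⟩

/-- Principalization of one monomial function. -/
lemma cmp_oneC (hC : Cls C) (f : L) (n : ℕ) : ∀ (s : TS k L) (a : s.ι → ℤ), GoodC C s →
    s.HasExp f a →
    {p : s.ι × s.ι | 0 < a p.1 ∧ a p.2 < 0 ∧ ∃ O, s.P O ∧ p.1 ∈ (s.ch O).τ.R ∧
      p.2 ∈ (s.ch O).τ.R}.ncard ≤ n → ∃ s' : TS k L, GoodC C s' ∧ s.Ref s' ∧ s'.Cmp f := by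
  classical
  induction n using Nat.strong_induction_on with
  | _ n ih =>
    intro s a hs hf hn
    by_cases hB : ∃ p : s.ι × s.ι, 0 < a p.1 ∧ a p.2 < 0 ∧ ∃ O, s.P O ∧ p.1 ∈ (s.ch O).τ.R ∧
      p.2 ∈ (s.ch O).τ.R
    swap
    · refine ⟨s, hs, Ref.refl s (hs.good hC), fun O hO => ?_⟩
      obtain ⟨c, h1, h2⟩ := hf O hO
      have hc := hs.cht O hO
      by_cases h : c ∈ (s.ch O).τ.Reg 0
      · left
        rw [← div_mul_cancel₀ f (mn_ne_zero hc.ne c)]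
        exact mul_mem h2.1 (hc.mem h)
      · right
        simp only [Typ.Reg, Set.mem_ofPred_eq, not_forall, not_le] at h
        obtain ⟨σ, hσ, h⟩ := h
        have h3 : -c ∈ (s.ch O).τ.Reg 0 := fun ρ hρ => by
          rw [Typ.ev_neg, h1 ρ hρ]
          by_contra H
          exact hB ⟨(ρ, σ), by simpa using H, by simpa [h1 σ hσ] using h, O, hO, hρ, hσ⟩
        have : f⁻¹ = (f / mn (s.ch O).z c)⁻¹ * mn (s.ch O).z (-c) := by
          have := mn_ne_zero hc.ne c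
          rw [mn_neg]; field_simp
        rw [this]; exact mul_mem h2.2.2 (hc.mem h3)
    obtain ⟨⟨α, β⟩, hα, hβ, hαβ⟩ := hB
    have hne : α ≠ β := fun e => by subst e; simp only at hα hβ; omega
    let v : s.ι → ℚ := Pi.single α (-a β : ℤ) + Pi.single β (a α : ℤ)
    have hvp : ∀ b, vp v b = (-a β * b α + a α * b β : ℤ) := fun b => by
      simp only [vp, v, Pi.add_apply, add_mul, Finset.sum_add_distrib, Pi.single_apply, ite_mul,
        zero_mul, Finset.sum_ite_eq', Finset.mem_univ, if_true]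
      push_cast; ring
    have hsup : ∀ ρ, v ρ ≠ 0 → ρ = α ∨ ρ = β := fun ρ hρ => by
      by_contra H
      push Not at H
      simp [v, Pi.single_eq_of_ne H.1, Pi.single_eq_of_ne H.2] at hρ
    have hv : 0 ≤ v := add_nonneg (Pi.single_nonneg.2 (by simp only at hβ; exact_mod_cast by omega))
      (Pi.single_nonneg.2 (by simp only at hα; exact_mod_cast hα.le))
    have hv0 : v ≠ 0 := fun e => by
      have := congrFun e β
      simp [v, Pi.single_eq_of_ne hne.symm] at this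
      simp only at hα; omega
    obtain ⟨M, ch, h1, h2, h3, h4⟩ := hs.star hC hv hv0
    have h0 : ⌊vp v a⌋ = 0 := by rw [hvp, Int.floor_intCast]; ring
    have h5 := h3 f a hf
    rw [h0] at h5
    set B := {p : s.ι × s.ι | 0 < a p.1 ∧ a p.2 < 0 ∧ ∃ O, s.P O ∧ p.1 ∈ (s.ch O).τ.R ∧
      p.2 ∈ (s.ch O).τ.R} with hB
    have hmem : (α, β) ∈ B := ⟨hα, hβ, hαβ⟩
    obtain ⟨s', a1, a2, a3⟩ := ih _ (lt_of_lt_of_le (lt_of_le_of_lt (Set.ncard_image_le
      (f := Prod.map some some) (Set.toFinite _)) (Set.ncard_sdiff_singleton_lt_of_mem hmem)) hn)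
      _ _ h1 h5 (Set.ncard_le_ncard (by
        rintro ⟨_ | ρ, _ | σ⟩ ⟨b1, b2, O', hO', b3, b4⟩ <;> try simp at b1 b2
        obtain ⟨O, hO, ⟨h, e⟩ | ⟨h, g, hg, e⟩⟩ := h4 O' hO'
        · change some ρ ∈ (ch O').τ.R at b3
          change some σ ∈ (ch O').τ.R at b4
          rw [e] at b3 b4
          have c3 : ρ ∈ (s.ch O).τ.R := by simpa [Ch.keep, Typ.keep] using b3
          have c4 : σ ∈ (s.ch O).τ.R := by simpa [Ch.keep, Typ.keep] using b4
          refine ⟨(ρ, σ), ⟨⟨b1, b2, O, hO, c3, c4⟩, fun e' => h ⟨fun τ hτ => ?_,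
            fun c => ⟨_, hvp _⟩⟩⟩, rfl⟩
          cases e'
          rcases hsup τ hτ with rfl | rfl <;> assumption
        · change some ρ ∈ (ch O').τ.R at b3
          change some σ ∈ (ch O').τ.R at b4
          rw [e] at b3 b4
          have c3 := (Typ.some_mem_star (τ := (s.ch O).τ) (g := g)).1 b3
          have c4 := (Typ.some_mem_star (τ := (s.ch O).τ) (g := g)).1 b4
          refine ⟨(ρ, σ), ⟨⟨b1, b2, O, hO, c3.1, c4.1⟩, fun e' => ?_⟩, rfl⟩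
          cases e'
          rw [hvp, c3.2, c4.2] at hg
          simp at hg) (Set.toFinite _))
    exact ⟨s', a1, h2.trans a2, a3⟩

/-- Triangulation. -/
lemma free_allC (hC : Cls C) (n : ℕ) : ∀ s : TS k L, GoodC C s →
    {ρ : s.ι | ∃ O, s.P O ∧ ρ ∈ (s.ch O).τ.R ∧ ¬ (s.ch O).τ.Free ρ}.ncard ≤ n →
    ∃ s' : TS k L, GoodC C s' ∧ s.Ref s' ∧
      ∀ O, s'.P O → ∀ ρ ∈ (s'.ch O).τ.R, (s'.ch O).τ.Free ρ := by
  classical
  induction n using Nat.strong_induction_on with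
  | _ n ih =>
    intro s hs hn
    by_cases hB : ∃ ρ, ∃ O, s.P O ∧ ρ ∈ (s.ch O).τ.R ∧ ¬ (s.ch O).τ.Free ρ
    swap
    · refine ⟨s, hs, Ref.refl s (hs.good hC), fun O hO ρ hρ => ?_⟩
      by_contra H
      exact hB ⟨ρ, O, hO, hρ, H⟩
    obtain ⟨α, hα⟩ := hB
    let v : s.ι → ℚ := Pi.single α 1
    have hvp : ∀ b, vp v b = b α := fun b => by simp [vp, v, Pi.single_apply]
    have hv0 : v ≠ 0 := fun e => by simpa [v] using congrFun e α
    obtain ⟨M, ch, h1, h2, -, h4⟩ := hs.star (v := v) hC (Pi.single_nonneg.2 zero_le_one) hv0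
    set B := {ρ : s.ι | ∃ O, s.P O ∧ ρ ∈ (s.ch O).τ.R ∧ ¬ (s.ch O).τ.Free ρ} with hB
    have hmem : α ∈ B := hα
    obtain ⟨s', a1, a2, a3⟩ := ih _ (lt_of_lt_of_le (lt_of_le_of_lt (Set.ncard_image_le
      (f := some) (Set.toFinite _)) (Set.ncard_sdiff_singleton_lt_of_mem hmem)) hn)
      _ h1 (Set.ncard_le_ncard (by
        rintro o ⟨O', hO', b1, b2⟩
        change o ∈ (ch O').τ.R at b1
        change ¬ (ch O').τ.Free o at b2
        obtain ⟨O, hO, ⟨h, e⟩ | ⟨h, g, hg, e⟩⟩ := h4 O' hO'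
        · rw [e] at b1 b2
          obtain ⟨ρ, hρ, rfl⟩ := b1
          refine ⟨ρ, ⟨⟨O, hO, hρ, fun H => b2 H.keep⟩, fun e' => h ⟨fun τ hτ => ?_,
            fun c => ⟨_, hvp _⟩⟩⟩, rfl⟩
          cases e'
          by_contra H
          exact hτ (Pi.single_eq_of_ne (fun e : τ = α => H (e ▸ hρ)) _)
        · rw [e] at b1 b2
          cases o with
          | none => exact absurd (Typ.free_star_none h hg) b2
          | some ρ =>
            have c1 := (Typ.some_mem_star (τ := (s.ch O).τ) (g := g)).1 b1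
            refine ⟨ρ, ⟨⟨O, hO, c1.1, fun H => b2 (H.star h hg c1.2)⟩, fun e' => ?_⟩, rfl⟩
            cases e'
            rw [hvp, c1.2] at hg
            simp at hg) (Set.toFinite _))
    exact ⟨s', a1, h2.trans a2, a3⟩

/-- Reduction of the multiplicity of simplicial cones. -/
lemma uni_allC (hC : Cls C) (W : ℕ) : ∀ (n : ℕ) (s : TS k L), GoodC C s →
    (∀ O, s.P O → ∀ ρ ∈ (s.ch O).τ.R, (s.ch O).τ.Free ρ) →
    (∀ O, s.P O → (s.ch O).τ.Par.ncard ≤ W) →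
    {t | t ∈ (fun O => (s.ch O).ty) '' {O | s.P O} ∧ t.2.Par.ncard = W}.ncard ≤ n →
    ∃ s' : TS k L, GoodC C s' ∧ s.Ref s' ∧ s'.Uni := by
  induction W using Nat.strong_induction_on with
  | _ W ihW =>
  intro n
  induction n using Nat.strong_induction_on with
  | _ n ih =>
    intro s hs hF hW hn
    by_cases hU : s.Uni
    · exact ⟨s, hs, Ref.refl s (hs.good hC), hU⟩
    have hfin : ∀ O, s.P O → (s.ch O).τ.Par.Finite := fun O hO => Typ.par_finite (hF O hO)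
    have hzero : ∀ O, (0 : s.ι → ℚ) ∈ (s.ch O).τ.Par := fun O =>
      ⟨fun _ => ⟨le_rfl, zero_lt_one⟩, fun _ h => absurd rfl h, fun _ => ⟨0, by simp [vp]⟩⟩
    have hW2 : 1 < W := by
      by_contra H
      refine hU fun O hO => Typ.uni_of_par fun w hw => ?_
      exact (Set.ncard_le_one (hfin O hO)).1 ((hW O hO).trans (by omega)) w hw 0 (hzero O)
    by_cases hB : ∃ O, s.P O ∧ (s.ch O).τ.Par.ncard = W
    swap
    · refine ihW (W - 1) (by omega) _ s hs hF (fun O hO => ?_) le_rfl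
      have := hW O hO
      have : (s.ch O).τ.Par.ncard ≠ W := fun e => hB ⟨O, hO, e⟩
      omega
    obtain ⟨O₀, hO₀, e₀⟩ := hB
    obtain ⟨v, hv, hv0⟩ := Set.exists_ne_of_one_lt_ncard (e₀ ▸ hW2) 0
    obtain ⟨M, ch, h1, h2, -, h4⟩ := hs.star (v := v) hC (fun ρ => (hv.1 ρ).1) hv0
    set B := {t | t ∈ (fun O => (s.ch O).ty) '' {O | s.P O} ∧ t.2.Par.ncard = W} with hB
    have hmem : (s.ch O₀).ty ∈ B := ⟨⟨O₀, hO₀, rfl⟩, e₀⟩
    have hBf : B.Finite := hs.fin.subset fun t ht => ht.1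
    refine (ih _ (lt_of_lt_of_le (lt_of_le_of_lt (Set.ncard_image_le
      (f := fun t => (⟨t.1, t.2.keep⟩ : Σ r, Typ (Option s.ι) r)) (hBf.subset Set.sdiff_subset))
      (Set.ncard_sdiff_singleton_lt_of_mem hmem hBf)) hn) _ h1 (fun O' hO' o ho => ?_)
      (fun O' hO' => ?_) (Set.ncard_le_ncard ?_ ((hBf.subset Set.sdiff_subset).image _))).imp
      fun s' a => ⟨a.1, h2.trans a.2.1, a.2.2⟩
    · change o ∈ (ch O').τ.R at ho
      change (ch O').τ.Free o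
      obtain ⟨O, hO, ⟨h, e⟩ | ⟨h, g, hg, e⟩⟩ := h4 O' hO'
      · rw [e] at ho ⊢
        obtain ⟨ρ, hρ, rfl⟩ := ho
        exact (hF O hO ρ hρ).keep
      · rw [e] at ho ⊢
        cases o with
        | none => exact Typ.free_star_none h hg
        | some ρ =>
          have c1 := Typ.some_mem_star.1 ho
          exact (hF O hO ρ c1.1).star h hg c1.2
    · change (ch O').τ.Par.ncard ≤ W
      obtain ⟨O, hO, ⟨h, e⟩ | ⟨h, g, hg, e⟩⟩ := h4 O' hO'
      · rw [e]; exact (Typ.ncard_par_keep (hfin O hO)).trans (hW O hO)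
      · rw [e]; exact (Typ.ncard_par_star (hfin O hO) ⟨hv.1, h⟩ hg).le.trans (hW O hO)
    · rintro _ ⟨⟨O', hO', rfl⟩, b⟩
      change (ch O').τ.Par.ncard = W at b
      obtain ⟨O, hO, ⟨h, e⟩ | ⟨h, g, hg, e⟩⟩ := h4 O' hO'
      · rw [e] at b
        refine ⟨(s.ch O).ty, ⟨⟨⟨O, hO, rfl⟩, le_antisymm (hW O hO)
          (b ▸ Typ.ncard_par_keep (hfin O hO))⟩, fun e' => h ?_⟩, (congrArg Ch.ty e).symm⟩
        have : ∀ t t' : Σ r, Typ s.ι r, t = t' → t'.2.App v → t.2.App v := by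
          rintro _ _ rfl h; exact h
        exact this _ _ e' hv.2
      · rw [e] at b
        have := (Typ.ncard_par_star (hfin O hO) ⟨hv.1, h⟩ hg).trans_le (hW O hO)
        exact absurd b this.ne

end Sys

/-- Module PTOR. -/
theorem resolveP : ResolveP k L := by
  intro C s S hC hs hS hm
  obtain ⟨s1, a1, a2, a3⟩ : ∃ s' : TS k L, GoodC C s' ∧ s.Ref s' ∧ ∀ f ∈ S, s'.Cmp f := by
    induction S, hS using Set.Finite.induction_on with
    | empty => exact ⟨s, hs, TS.Ref.refl s (hs.good hC), fun _ h => h.elim⟩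
    | @insert f S _ _ ih =>
      obtain ⟨s1, a1, a2, a3⟩ := ih fun g hg => hm g (Set.mem_insert_of_mem _ hg)
      obtain ⟨a, ha⟩ := hm f (Set.mem_insert _ _)
      obtain ⟨a', ha'⟩ := a2.exp f a ha
      obtain ⟨s2, b1, b2, b3⟩ := cmp_oneC hC f _ s1 a' a1 ha' le_rfl
      refine ⟨s2, b1, a2.trans b2, ?_⟩
      rintro g (rfl | hg)
      exacts [b3, b2.cmp (a3 g hg)]
  obtain ⟨s2, b1, b2, b3⟩ := free_allC hC _ s1 a1 le_rfl
  obtain ⟨W, hW⟩ := (b1.fin.image fun t => t.2.Par.ncard).bddAbove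
  obtain ⟨s3, c1, c2, c3⟩ := uni_allC hC W _ s2 b1 b3
    (fun O hO => hW ⟨_, ⟨O, hO, rfl⟩, rfl⟩) le_rfl
  exact ⟨s3, c1, (a2.trans b2).trans c2, c3, fun f hf => c2.cmp (b2.cmp (a3 f hf))⟩

end Pool.Agent.MP_19ffc6_ag.Res.P
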