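import Pool.Agent.MP_19ffc6_ag.Res.PAct
import Pool.Agent.MP_19ffc6_ag.Res.PCover
import Pool.Agent.MP_19ffc6_ag.Res.Tores

/-! PROJECT RESP, module TORESP: from strictly toroidal stable models to stable models with a
strict normal crossings boundary, and dimension zero. -/

namespace Pool.Agent.MP_19ffc6_ag.Res.P

open Pool.Agent.MP_19ffc6_ag.Wild Pool.Agent.MP_19ffc6_ag.Lci Pool.Agent.MP_19ffc6_ag.Res.Tor
open Pool.Agent.MP_19ffc6_ag.Res.B

variable {k L : Type} [Field k] [Field L] [Algebra k L]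

namespace Trs

/-- A linear system in `K` whose points dominate points of a model of `K` is a model of `K`. -/
lemma mdl_of_dom {K : IntermediateField k L} {M M' : Submodule k L} (h : Mdl K M) (hfg : M'.FG)
    (h0 : M' ≠ ⊥) (hK : ∀ m ∈ M', m ∈ K) (hd : ∀ O', Pt ⊥ M' O' → ∃ O, Pt ⊥ M O ∧ O ≤ O') :
    Mdl K M' := by
  refine ⟨hfg, h0, hK, fun m hm hm0 x hx => ?_⟩
  obtain ⟨O, ⟨g1, hg1, hg10, hO⟩, hle⟩ := hd _ ⟨m, hm, hm0, isPoint_gen _⟩
  obtain ⟨b, hb, hb0, hbx⟩ := h.frac g1 hg1 hg10 x hx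
  obtain ⟨p, hp, q, hq, hq', e⟩ := hle (hO.le hb)
  obtain ⟨p', hp', q', hq1, hq1', e'⟩ := hle (hO.le hbx)
  have hp0 : p ≠ 0 := fun c => hb0 (by rw [e, c, zero_div])
  refine ⟨p * q', mul_mem hp hq1, mul_ne_zero hp0 hq1'.2.1, ?_⟩
  have h1 : p * q' * x = p' * q := by
    have h2 := hq'.2.1
    have h3 := hq1'.2.1
    rw [e, div_mul_eq_mul_div, div_eq_div_iff h2 h3] at e'
    rw [← e']; ring
  rw [h1]
  exact mul_mem hp' hq

/-- The boundary consists of the coordinates that vanish at the point and occur in `S`. -/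
lemma par_of {O : Subalgebra k L} {n s : ℕ} {S : Finset L} {ι : Type} [Fintype ι] {y : ι → L}
    {t : Fin s → L} (hy : ∀ i, y i ∈ O ∧ y i ≠ 0) (hc : Nat.card {i // ¬ Un O (y i)} + s = n)
    (ht : ∀ j, t j ∈ O ∧ ¬ Un O (t j))
    (hg : ∀ x ∈ O, ¬ Un O x → x ∈ Submodule.span O (y '' {i | ¬ Un O (y i)} ∪ Set.range t))
    (hm : ∀ f ∈ S, LMon O y f) (hS : ∀ f ∈ S, f ∈ O ∨ f⁻¹ ∈ O) (hf : Ful S O y) :
    ∃ (r s' : ℕ) (x : Fin r → L) (t' : Fin s' → L), B.Par n S O x t' ∧ Ful S O x := by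
  classical
  choose! a ha using hm
  let p : ι → Prop := fun i => ∃ f ∈ S, a f i ≠ 0
  let I := {i // ¬ Un O (y i) ∧ p i}
  let J := {i // ¬ Un O (y i) ∧ ¬ p i}
  let e : Fin (Fintype.card I) → ι := fun i => ((Fintype.equivFin I).symm i).1
  let e' : Fin (Fintype.card (J ⊕ Fin s)) ≃ J ⊕ Fin s := (Fintype.equivFin _).symm
  let u : J ⊕ Fin s → L := Sum.elim (fun j => y j.1) t
  have he : Function.Injective e := Subtype.val_injective.comp (Fintype.equivFin I).symm.injective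
  have hr : ∀ i, i ∈ Set.range e ↔ ¬ Un O (y i) ∧ p i := fun i =>
    ⟨by rintro ⟨j, rfl⟩; exact ((Fintype.equivFin I).symm j).2,
      fun h => ⟨Fintype.equivFin I ⟨i, h⟩, by simp [e]⟩⟩
  have hmon : ∀ f ∈ S, Un O (f / mn (y ∘ e) (a f ∘ e)) := fun f hf => by
    have h1 := (ha f hf).mul (un_mn_div (fun i => (hy i).2) e he (a f) fun i hi hu =>
      by_contra fun c => hi ((hr i).2 ⟨hu, f, hf, c⟩))
    rwa [div_mul_div_cancel₀ (mn_ne_zero (fun i => (hy i).2) _)] at h1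
  refine ⟨_, _, y ∘ e, u ∘ e', ⟨?_, fun i => ⟨(hy _).1, (hy _).2, ((hr _).1 ⟨i, rfl⟩).1⟩,
    fun j => ?_, fun x hx hu => ?_, fun f hf => ⟨_, hmon f hf⟩, fun i => ?_, hS⟩, fun i => hf _⟩
  · rw [← hc, Fintype.card_sum, Fintype.card_fin, ← add_assoc, Nat.card_eq_fintype_card,
      Fintype.card_subtype, Fintype.card_subtype, Fintype.card_subtype,
      ← Finset.filter_filter, ← Finset.filter_filter, Finset.card_filter_add_card_filter_not]
  · simp only [Function.comp]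
    rcases e' j with j | j
    exacts [⟨(hy _).1, j.2.1⟩, ht j]
  · refine Submodule.span_mono ?_ (hg x hx hu)
    rw [e'.surjective.range_comp]
    rintro _ (⟨i, hi, rfl⟩ | ⟨j, rfl⟩)
    · by_cases c : p i
      · obtain ⟨j, rfl⟩ := (hr i).2 ⟨hi, c⟩
        exact Or.inl ⟨j, rfl⟩
      · exact Or.inr ⟨Sum.inl ⟨i, hi, c⟩, rfl⟩
    · exact Or.inr ⟨Sum.inr j, rfl⟩
  · obtain ⟨-, f, hf, c⟩ := (hr _).1 ⟨i, rfl⟩
    exact ⟨f, hf, _, hmon f hf, c⟩

end Trs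

/-- Module TORESP. -/
theorem toresP (hP : ParStmt k L) (hR : ResolveP k L) (hL : LabelP k L) : ToresP k L := by
  classical
  intro n K₀ K S M hG hn hS hst hT
  obtain ⟨s, rfl, hs, hexp, hful⟩ := hL n K₀ K S M hG hn hS hst hT
  obtain ⟨s', hs', href, huni, hcmp⟩ := hR _ s (S : Set L) (Cl.cls K₀ K) hs S.finite_toSet hexp
  have hM' : Mdl K s'.M := Trs.mdl_of_dom hT.1 hs'.cl.1 hs'.ne hs'.cl.2.2 fun O' hO' =>
    let ⟨O, hO, hd, _⟩ := href.dom O' hO'; ⟨O, hO, hd.1⟩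
  refine ⟨s'.M, hs'.cl.2.1, hM', fun O hO hr => ?_⟩
  have hc := hs'.cht O hO
  let _ : Fintype (s'.ch O).τ.R := Fintype.ofFinite _
  obtain ⟨-, y, hy, hTA, hmn, -⟩ := Tor.snc s'.ι (s'.ch O) O hc (huni O hO)
  have hsf : SF (Algebra.adjoin k (Set.range y)) O := hTA ▸ hc.sf
  obtain ⟨D, hD⟩ := hM'.aff hn hO hr
  obtain ⟨r, t, h1, h2, h3⟩ := hP n K D O _ y hD hy hsf
  refine Trs.par_of (fun i => ⟨hsf.le (Algebra.subset_adjoin ⟨i, rfl⟩), hy.ne_zero i⟩) h1 h2 h3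
    (fun f hf => ?_) (fun f hf => hcmp f hf O hO) fun ρ => ?_
  · obtain ⟨a, ha⟩ := hexp f hf
    obtain ⟨a', ha'⟩ := href.exp f a ha
    obtain ⟨c, -, hu⟩ := ha' O hO
    exact ⟨_, hmn c ▸ hu⟩
  · obtain ⟨O₀, hO₀, hd, hrg, -⟩ := href.dom O hO
    obtain ⟨c, hc'⟩ := huni O hO (Pi.single ρ.1 1)
    obtain ⟨c', e⟩ : mn (s'.ch O).z c ∈ Set.range (mn (s.ch O₀).z) := hrg ▸ ⟨c, rfl⟩
    have e1 : (fun σ : (s'.ch O).τ.R => (s'.ch O).τ.ev c σ) = Pi.single ρ 1 := funext fun σ => by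
      rw [hc' σ σ.2, Pi.single_apply, Pi.single_apply]
      exact if_congr Subtype.val_inj rfl rfl
    have h4 := ((hful O₀ hO₀).mn c').mono hd.1
    rwa [e, hmn c, e1, mn_single, zpow_one] at h4

/-- Dimension zero. -/
theorem zeroP [IsAlgClosed k] (k₀ : Subfield k) : RESP L k₀ 0 := by
  intro K₀ K hf _ hn S hS
  have hK : ∀ x ∈ K, x ∈ (⊥ : Subalgebra k L) := fun x hx => by
    have : Algebra.IsAlgebraic k K := trdeg_eq_zero_iff.1 (by simpa using hn)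
    obtain ⟨c, hc⟩ := (IsAlgClosed.algebraMap_bijective_of_isIntegral (k := k) (K := K)).2 ⟨x, hx⟩
    exact Algebra.mem_bot.2 ⟨c, congrArg Subtype.val hc⟩
  have hM : Mdl K (pr k 1) := by
    refine ⟨pr_fg _, fun e => ?_, fun m hm => ?_, fun g _ _ x hx =>
      ⟨1, one_mem _, one_ne_zero, le_chart _ _ _ (by rw [one_mul]; exact hK x hx)⟩⟩
    · have := mem_pr (k := k) (1 : L)
      rw [e] at this
      exact one_ne_zero this
    · obtain ⟨c, rfl⟩ := Submodule.mem_span_singleton.1 hm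
      exact K.smul_mem (one_mem K)
  refine ⟨S, pr k 1, subset_rfl, fun f h => (hS f h).1,
    Stb.span fun x hx => (Set.mem_singleton_iff.1 hx).symm ▸ one_mem K₀, hM, fun O hO _ => ?_⟩
  have hu : ∀ x ∈ K, x ≠ 0 → Un O x := fun x hx h0 =>
    ⟨(bot_le : ⊥ ≤ O) (hK x hx), h0, (bot_le : ⊥ ≤ O) (hK _ (inv_mem hx))⟩
  refine ⟨0, 0, Fin.elim0, Fin.elim0, ⟨rfl, fun i => i.elim0, fun i => i.elim0, fun y hy h => ?_,
    fun f h => .of_un (hu f (hf.mem (hS f h).1) (hS f h).2), fun i => i.elim0,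
    fun f h => Or.inl (hu f (hf.mem (hS f h).1) (hS f h).2).1⟩, fun i => i.elim0⟩
  obtain rfl : y = 0 := by_contra fun c => h (hu y (hM.pt_le hO hy) c)
  exact zero_mem _

end Pool.Agent.MP_19ffc6_ag.Res.P
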