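import Pool.Agent.MP_19ffc6_ag.Res.PSpec
import Pool.Agent.MP_19ffc6_ag.Res.PAct
import Pool.Agent.MP_19ffc6_ag.Res.TreeM

/-! PROJECT RESP, module TREEP: the rational projective model of the tree of discs. -/

namespace Pool.Agent.MP_19ffc6_ag.Res.P

open Pool.Agent.MP_19ffc6_ag.Wild Pool.Agent.MP_19ffc6_ag.Lci Pool.Agent.MP_19ffc6_ag.Res.B
open Polynomial

variable {k L : Type} [Field k] [Field L] [Algebra k L]

namespace Tr

variable {K₀ : Subfield L} {U : Finset L} {Y : L} {g : SA k L}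

lemma prod_smul {M : Type} [CommMonoid M] (h : ∀ g : SA k L, Fx K₀ g → ∀ u ∈ U, g • u ∈ U)
    (hg : Fx K₀ g) (f : L → M) : ∏ u ∈ U, f (g • u) = ∏ u ∈ U, f u :=
  Finset.prod_equiv (MulAction.toPerm g) (fun u =>
    ⟨h g hg u, fun e => inv_smul_smul g u ▸ h _ hg.inv _ e⟩) fun _ _ => rfl

lemma fix_pol (h : ∀ g : SA k L, Fx K₀ g → ∀ u ∈ U, g • u ∈ U) (hg : Fx K₀ g) (hY : g • Y = Y)
    (i : ℕ) : g • (Pol U Y).coeff i = (Pol U Y).coeff i := by
  have e : g • Pol U Y = Pol U Y := by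
    simp only [Pol, Finset.smul_prod', smul_sub, smul_X, smul_C, smul_div₀', hY]
    rw [prod_smul h hg fun u => ∏ v ∈ U, (X - C ((Y - u) / g • v))]
    exact Finset.prod_congr rfl fun u _ => prod_smul h hg fun v => X - C ((Y - u) / v)
  conv_rhs => rw [← e]
  rfl

lemma prod_mem {F E : IntermediateField k L} {N : IntermediateField F L} [FiniteDimensional F N]
    [IsGalois F N] (hU : Span N U) (hFE : F ≤ E) (hY : Y ∈ E) : ∏ u ∈ U, (Y - u) ∈ E := by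
  classical
  let U' : Finset N := U.subtype (· ∈ N)
  let P : N[X] := ∏ u ∈ U', (X - C u)
  have h1 : ∏ u ∈ U, (Y - u) = eval₂RingHom (algebraMap N L) Y P := by
    rw [← Finset.prod_subtype_of_mem (fun u => Y - u) hU.le, map_prod]
    exact Finset.prod_congr rfl fun u _ => by simp
  have h2 : ∀ σ : N ≃ₐ[F] N, σ • P = P := fun σ => by
    simp only [P, Finset.smul_prod', smul_sub, smul_X, smul_C, AlgEquiv.smul_def]
    exact Finset.prod_equiv σ.toEquiv (fun u => by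
      simp only [U', Finset.mem_subtype]
      exact ⟨hU.gal σ u, fun h => by simpa using hU.gal σ⁻¹ (σ u) h⟩) fun _ _ => rfl
  rw [h1, coe_eval₂RingHom, eval₂_eq_sum_range]
  refine sum_mem fun j _ => mul_mem (hFE ?_) (pow_mem hY j)
  obtain ⟨c, hc⟩ := (IsGalois.mem_bot_iff_fixed (P.coeff j)).2 fun σ => by
    conv_rhs => rw [← h2 σ]
    rfl
  rw [← hc]
  exact c.2

end Tr

/-- Module TREEP. -/
theorem treeP [IsAlgClosed k] (bez : BezStmt k L) (hM : MinStmt k L) (hN : NormP k L)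
    (h : LocF k L) : TreeP k L := by
  classical
  intro k₀ n m F₀ E₀ F Y N U S hR hf hG hGE hFE hYE₀ hm hF hn hY hT hU hUg hS
  have := hT.fin
  have := hT.gal
  set E := F ⊔ IntermediateField.adjoin k {Y} with hE
  have hYE : Y ∈ E := hGE.mem hYE₀
  obtain ⟨T₁, hT₁, hoff⟩ := bez.base F N (U.erase 0) inferInstance fun f hf =>
    ⟨hU.le f (Finset.mem_of_mem_erase hf), Finset.ne_of_mem_erase hf⟩
  obtain ⟨S₁, hS₁, hun⟩ := hM F₀ F T₁ hG hT₁
  have c0 : ∀ i, (Pol U 0).coeff i ∈ F₀ := fun i =>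
    hG.fix _ (coeff_pol_mem hU le_rfl (zero_mem F) i) fun g hg =>
      Tr.fix_pol hUg hg (smul_zero g) i
  have cY : ∀ i, (Pol U Y).coeff i ∈ E₀ := fun i =>
    hGE.fix _ (coeff_pol_mem hU le_sup_left hYE i) fun g hg =>
      Tr.fix_pol hUg (hg.mono hFE) (hg Y hYE₀) i
  have cφ : ∏ u ∈ U, (Y - u) ∈ E₀ := hGE.fix _ (Tr.prod_mem hU le_sup_left hYE) fun g hg => by
    simp only [sm_prod, smul_sub, hg Y hYE₀]
    exact Tr.prod_smul hUg (hg.mono hFE) fun u => Y - u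
  let S₂ : Finset L := ((Pol U 0).coeffs ×ˢ (Pol U 0).coeffs).image fun q => q.1 / q.2
  have hS₂ : ∀ f ∈ S₂, f ∈ F₀ ∧ f ≠ 0 := fun f hf => by
    obtain ⟨q, hq, rfl⟩ := Finset.mem_image.1 hf
    obtain ⟨i, hi, e1⟩ := mem_coeffs_iff.1 (Finset.mem_product.1 hq).1
    obtain ⟨j, hj, e2⟩ := mem_coeffs_iff.1 (Finset.mem_product.1 hq).2
    rw [e1, e2]
    exact ⟨div_mem (c0 i) (c0 j), div_ne_zero (mem_support_iff.1 hi) (mem_support_iff.1 hj)⟩
  obtain ⟨S₀, M₁, hsub, hS₀, hst, hM₁, hpar⟩ := hR F₀ F hf hF hn (S ∪ S₁ ∪ S₂) fun f hf => by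
    rcases Finset.mem_union.1 hf with hf | hf
    · exact (Finset.mem_union.1 hf).elim (hS f) (hS₁ f)
    · exact hS₂ f hf
  have hM₀ : Mdl E (M₁ * Jm k U Y) := by
    rw [Jm, ← mul_assoc]
    refine (hM₁.line Y).mul (cs_fg _) (fun e => ?_)
      (cs_le (M := E.toSubalgebra.toSubmodule) (coeff_pol_mem hU le_sup_left hYE))
    have : (Pol U Y).coeff (Pol U Y).natDegree ∈ Cf k U Y := coeff_mem_cs _ _
    rw [e, (pol_monic U Y).coeff_natDegree] at this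
    exact one_ne_zero ((Submodule.mem_bot k).1 this)
  have hs₀ : Stb E₀ (M₁ * Jm k U Y) := (hst.mono hFE).mul (Stb.mul
    (.span (by rintro _ (rfl | rfl); exacts [one_mem _, hYE₀]))
    (.span (by rintro _ ⟨i, rfl⟩; exact cY i)))
  obtain ⟨M, hs, hM', hpt⟩ := hN E₀ E E _ hGE hM₀ hs₀ le_rfl
    (IntermediateField.fg_sup hF (IntermediateField.fg_adjoin_of_finite (Set.finite_singleton Y)))
    fun x hx => isAlgebraic_algebraMap (⟨x, hx⟩ : E)
  refine ⟨insert Y (insert (∏ u ∈ U, (Y - u)) S₀), M, fun f hf => ?_, by simp, by simp,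
    fun f hf => ?_, hs, hM', fun O hO hr => ?_⟩
  · exact Finset.mem_insert_of_mem (Finset.mem_insert_of_mem (hsub (by simp [hf])))
  · rcases Finset.mem_insert.1 hf with rfl | hf
    · exact hYE₀
    rcases Finset.mem_insert.1 hf with rfl | hf
    exacts [cφ, hFE (hS₀ f hf)]
  obtain ⟨O₀, hO₀, hd, hP⟩ := hpt O hO
  obtain ⟨R, g, hg, ⟨g₁, hg₁, hg₁0, hR1⟩, hd₁, hg0, hP₁⟩ := Lci.Pt.of_mul_dom hO₀
  have hRt : Rt R := hr.of_le (hd₁.1.trans hd.1)
  obtain ⟨r, s, x, t, hx, hful⟩ := hpar _ ⟨g₁, hg₁, hg₁0, hR1⟩ hRt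
  have hA : Aff n F (chart ⊥ M₁ g₁) R := ⟨hn, chart_fg Subalgebra.fg_bot hM₁.fg g₁,
    B.chart_le_field hM₁.le hg₁, hM₁.frac g₁ hg₁ hg₁0, hR1, hRt⟩
  have hP₂ : IsPoint (chart (chart ⊥ M₁ g₁) (Jm k U Y) g) O₀ :=
    hP₁.of_le_loc ((chart_le (hR1.le.trans (le_chart _ _ _)) fun y hy =>
      div_mem_chart _ _ hy).trans hP₁.le) (chart_le (hR1.le_loc.trans
        (loc_mono (le_chart _ _ _) hd₁.1)) fun y hy => le_loc _ _ (div_mem_chart _ _ hy))
  have hJ : ∀ y ∈ Jm k U Y, y / g ∈ E := fun y hy => by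
    rw [← mul_div_mul_left y g hg₁0]
    exact div_mem (hM₀.le _ (Submodule.mul_mem_mul hg₁ hy)) (hM₀.le _ (Submodule.mul_mem_mul hg₁ hg))
  refine h n m F Y N U S₀ _ (U.erase 0) _ R O r s x t hm hF hY hT hU
    (fun V hV H => hoff V hV (hun V hV fun f hf => H f (hsub (by simp [hf]))))
    (fun u hu h0 => Finset.mem_erase.2 ⟨h0, hu⟩) (fun f hf => hG.mem (hS₀ f hf)) hA hx hful
    ⟨fun f => by simp only [Finset.mem_insert]; tauto, ?_, ⟨g, hg, hg0, IsPoint.icl hP₂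
      (chart_le (fun y hy => (le_sup_left : F ≤ E) (hA.le y hy)) hJ) hP⟩, Dom.trans hd₁ hd, hr⟩
  obtain ⟨b, hb⟩ := exists_prv_of_cmp (pol_monic U 0).ne_zero fun a ha b hb =>
    hx.cmp _ (hsub (Finset.mem_union_right _
      (Finset.mem_image.2 ⟨(a, b), Finset.mem_product.2 ⟨ha, hb⟩, rfl⟩)))
  exact ⟨b, (gen_Cf_iff hR1.lcl).2 hb⟩

end Pool.Agent.MP_19ffc6_ag.Res.P
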