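import Pool.Agent.MP_19ffc6_ag.Res.Final
import Pool.Agent.MP_19ffc6_ag.Res.PGal
import Pool.Agent.MP_19ffc6_ag.Res.PSym
import Pool.Agent.MP_19ffc6_ag.Res.PRat
import Pool.Agent.MP_19ffc6_ag.Res.PTor
import Pool.Agent.MP_19ffc6_ag.Res.PLabel
import Pool.Agent.MP_19ffc6_ag.Res.PTores
import Pool.Agent.MP_19ffc6_ag.Res.PCover
import Pool.Agent.MP_19ffc6_ag.Res.PAbs
import Pool.Agent.MP_19ffc6_ag.Res.PLoc
import Pool.Agent.MP_19ffc6_ag.Res.PTree
import Pool.Agent.MP_19ffc6_ag.Res.PFin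
import Pool.Agent.MP_19ffc6_ag.Res.PFrame
import Pool.Agent.MP_19ffc6_ag.Res.PAlb
import Pool.Agent.MP_19ffc6_ag.Res.PGen

/-! PROJECT RESP: the assembly. -/

namespace Pool.Agent.MP_19ffc6_ag.Res.P

open PA B

/-- Part B over a perfect field. -/
theorem resP_all {k L : Type} [Field k] [Field L] [Algebra k L] [IsAlgClosed k] [IsAlgClosed L]
    (p : ℕ) [Fact p.Prime] [CharP k p] {k₀ : Subfield k} (h0 : Gd k₀) (n : ℕ)
    (hA : ∀ m < n, PartAP L k₀ m) : ∀ m ≤ n, RESP L k₀ m := by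
  intro m hm
  induction m with
  | zero => exact zeroP k₀
  | succ m ih =>
    exact resP_succ (fun K₀ K h => galStmt k₀ K₀ K h0 h (Or.inl inferInstance)) (hA m hm) (bez p)
      minStmt (symStmt (bez p) extStmt) (toresP par resolveP (labelP globP)) (coverP normP)
      (treeP (bez p) minStmt normP (locF fun _ _ _ => absF mon)) (ih (by omega))

theorem gd_range (κ k : Type) [Field κ] [Field k] [Algebra κ k] [PerfectField κ]
    [Algebra.IsAlgebraic κ k] : Gd (algebraMap κ k).fieldRange := by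
  let _ : Algebra κ (algebraMap κ k).fieldRange := (algebraMap κ k).rangeRestrictField.toAlgebra
  have : IsScalarTower κ (algebraMap κ k).fieldRange k := .of_algebraMap_eq fun _ => rfl
  have : Algebra.IsAlgebraic κ (algebraMap κ k).fieldRange :=
    .of_injective (IsScalarTower.toAlgHom κ _ k) Subtype.val_injective
  exact ⟨Algebra.IsAlgebraic.perfectField κ, .tower_top _ (K := κ)⟩

/-- Resolution over a perfect field from the rational tame projection theorem. -/
theorem resDim_of_tpp (κ : Type) [Field κ] [PerfectField κ] (p : ℕ) [Fact p.Prime] [CharP κ p]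
    (n : ℕ) (C : ℕ → ℕ) (hC : ∀ m < n, C m < p)
    (h : ∀ (k : Type) [Field k] [Algebra κ k] [IsAlgClosed k] [Algebra.IsAlgebraic κ k]
      [CharP k p], ∀ m < n, TPP (algebraMap κ k).fieldRange m (C m)) : ResDim κ n :=
  main_of (finP (fun _ _ _ _ _ _ => galStmt) n fun k L _ _ _ _ _ _ _ =>
    have := charP_of_injective_algebraMap (algebraMap κ k).injective p
    resP_all p (gd_range κ k) n fun m hm =>
      outP _ m _ (big_of_lt k p (hC m hm)) (h k m hm))

/-- The rational tame projection theorem over an infinite perfect field. -/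
theorem tpp_inf {k : Type} [Field k] [IsAlgClosed k] (p : ℕ) [Fact p.Prime] [CharP k p]
    {k₀ : Subfield k} [Infinite k₀] (h0 : Gd k₀) (m : ℕ)
    (hk : Big k (cst m (2 ^ (m + 1) * mu m))) : TPP k₀ m (cst m (2 ^ (m + 1) * mu m)) :=
  tpP_of h0 hk fun _ _ _ => ⟨galStmt, frameP, albP frameP,
    genP k₀ locX locW locP PA.core bpf (base_of locB bpf) (Fl.uni p), Fl.finX Low.low,
    Fl.finW Low.low p⟩

theorem cstP_le {m n : ℕ} (h : m < n) : cst m (2 ^ (m + 1) * mu m) ≤
    (n + 1) ^ 2 * (2 ^ (n + 3) * (2 ^ n + 2 * (n + 2) ^ n + 1) + 1) * (8 * (n + 1) ^ 2) ^ n := by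
  have h1 : m + 1 ≤ n := h
  have h2 : m + 2 ≤ n + 1 := by omega
  have h3 : m + 3 ≤ n + 2 := by omega
  have h4 : m + 1 + 3 ≤ n + 3 := by omega
  rw [PA.cst, PA.mu, PA.kap, show ∀ a, 2 * (2 ^ (m + 1) * (4 * a)) = 2 ^ (m + 1 + 3) * a from
    fun a => by ring]
  gcongr
  all_goals first | omega | exact Nat.succ_le_of_lt (by positivity)

/-- Resolution of singularities over infinite perfect fields of large characteristic. -/
theorem resDim_inf (κ : Type) [Field κ] [PerfectField κ] [Infinite κ] (p : ℕ) [Fact p.Prime]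
    [CharP κ p] (n : ℕ) (hp : (n + 1) ^ 2 * (2 ^ (n + 3) * (2 ^ n + 2 * (n + 2) ^ n + 1) + 1) *
      (8 * (n + 1) ^ 2) ^ n < p) : ResDim κ n :=
  resDim_of_tpp κ p n _ (fun _ hm => (cstP_le hm).trans_lt hp) fun k _ _ _ _ _ m hm =>
    have : Infinite (algebraMap κ k).fieldRange :=
      .of_injective _ (algebraMap κ k).rangeRestrictField.injective
    tpp_inf p (gd_range κ k) m (big_of_lt k p ((cstP_le hm).trans_lt hp))

end Pool.Agent.MP_19ffc6_ag.Res.P
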