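import Mathlib
import Pool.Agent.MP_19ffc6_ag.Res.PMain
import Pool.Agent.MP_19ffc6_ag.Res.FTpp

/-! PROJECT RES, stage F: the numerical bound and resolution over all perfect fields from the tame
projection theorem over finite fields. -/

namespace Pool.Agent.MP_19ffc6_ag.Res.P

open PA PF

theorem sq_le_two_pow (j : ℕ) : (j + 4) ^ 2 ≤ 2 ^ (j + 4) := by
  induction j with
  | zero => norm_num
  | succ j ih => rw [show j + 1 + 4 = j + 4 + 1 from rfl, pow_succ 2 (j + 4)]; nlinarith [Nat.zero_le j]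

theorem mu_le (m : ℕ) : 2 ^ (m + 1) * mu m ≤ 2 ^ (m + 5) * (m + 3) ^ (m + 1) := by
  have h1 : 2 ^ (m + 1) ≤ (m + 3) ^ (m + 1) := Nat.pow_le_pow_left (by omega) _
  have h2 : 1 ≤ (m + 3) ^ (m + 1) := Nat.one_le_pow _ _ (by omega)
  calc _ ≤ 2 ^ (m + 1) * (4 * (4 * (m + 3) ^ (m + 1))) := by
        rw [PA.mu, PA.kap]; gcongr; omega
    _ = _ := by ring

theorem gm_le (m : ℕ) : gm m (2 ^ (m + 1) * mu m) ≤ 8 ^ (m + 3) ^ 2 := by
  rcases m with _ | j
  · decide +kernel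
  have h1 := sq_le_two_pow j
  have h2 : 4 * ((j + 4) ^ (j + 2) * (j + 3) ^ (j + 3)) ≤ 2 ^ ((j + 4) * (j + 3)) :=
    calc _ ≤ (j + 4) * ((j + 4) ^ (j + 2) * (j + 4) ^ (j + 3)) := by gcongr <;> omega
      _ = ((j + 4) ^ 2) ^ (j + 3) := by
        rw [← pow_add, ← pow_succ', ← pow_mul]; congr 1; ring
      _ ≤ _ := by rw [pow_mul]; gcongr
  have h3 : 2 * gc (j + 3) (8 ^ (j + 3) * (2 ^ (j + 2) * mu (j + 1))) * 2 ≤ 8 ^ (j + 4) ^ 2 :=
    calc _ ≤ 2 * (4 ^ ((j + 3) * (j + 3)) * (8 ^ (j + 3) * (2 ^ (j + 6) * (j + 4) ^ (j + 2))) *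
          (2 * (j + 3)) ^ (j + 3)) * 2 :=
        Nat.mul_le_mul_right _ (Nat.mul_le_mul_left _ (Nat.mul_le_mul_right _
          (Nat.mul_le_mul_left _ (Nat.mul_le_mul_left _ (mu_le (j + 1))))))
      _ = 2 ^ (2 * ((j + 3) * (j + 3)) + 3 * (j + 3) + (j + 6) + (j + 3)) *
          (4 * ((j + 4) ^ (j + 2) * (j + 3) ^ (j + 3))) := by
        rw [pow_add 2 _ (j + 3), pow_add 2 _ (j + 6), pow_add 2 _ (3 * _), pow_mul 2 2, pow_mul 2 3,
          mul_pow]
        generalize (j + 4) ^ (j + 2) = a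
        generalize (j + 3) ^ (j + 3) = b
        generalize (j + 3) * (j + 3) = c
        ring
      _ ≤ _ * 2 ^ ((j + 4) * (j + 3)) := Nat.mul_le_mul_left _ h2
      _ = _ := by rw [← pow_add, show 8 = 2 ^ 3 from rfl, ← pow_mul]; congr 1; ring
  have h4 : 2 ≤ 8 ^ (j + 4) ^ 2 := le_trans (by norm_num) (Nat.le_self_pow (by positivity) 8)
  change 2 * gc (j + 3) (8 ^ (j + 3) * (2 ^ (j + 2) * mu (j + 1))) + 1 ≤ 8 ^ (j + 4) ^ 2
  omega

theorem cstF_le (m : ℕ) : cstF m (2 ^ (m + 1) * mu m) ≤ 8 ^ (m + 3) ^ 2 := by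
  have h1 : m + 3 ≤ 2 ^ (m + 2) := Nat.lt_two_pow_self
  have h2 : (m + 2) ^ 2 ≤ 2 ^ (m + 3) := by
    rcases m with _ | _ | j
    · norm_num
    · norm_num
    · exact (sq_le_two_pow j).trans (Nat.pow_le_pow_right two_pos (by omega))
  have h3 : 2 ^ (m + 1) * mu m ≤ 2 ^ (m + 5) * (2 ^ (m + 2)) ^ (m + 1) :=
    (mu_le m).trans (by gcongr)
  have h4 : 2 * (2 ^ (m + 1) * mu m) + 1 ≤ 4 * (2 ^ (m + 5) * (2 ^ (m + 2)) ^ (m + 1)) := by
    have : 0 < 2 ^ (m + 5) * (2 ^ (m + 2)) ^ (m + 1) := by positivity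
    omega
  have h5 : (m + 1) ^ 2 ≤ 2 ^ (m + 3) := le_trans (by gcongr; omega) h2
  calc _ ≤ 2 ^ (m + 3) * (4 * (2 ^ (m + 5) * (2 ^ (m + 2)) ^ (m + 1))) *
          (8 * 2 ^ (m + 3)) ^ (m + 1) + 2 ^ (m + 3) *
          (4 * (2 ^ (m + 5) * (2 ^ (m + 2)) ^ (m + 1))) * (8 * 2 ^ (m + 3)) ^ (m + 1) := by
        have h6 : 2 ^ (m + 1) ≤ 2 ^ (m + 3) := Nat.pow_le_pow_right two_pos (by omega)
        rw [cstF, PA.cst]
        generalize 2 ^ (m + 1) * mu m = a at h4 ⊢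
        have h7 : a ≤ 2 * a + 1 := by omega
        exact Nat.add_le_add (by gcongr) (Nat.mul_le_mul (Nat.mul_le_mul h6 (h7.trans h4))
          (by gcongr))
    _ = 2 ^ (2 * m + 11 + (m + 2) * (m + 1) + (m + 6) * (m + 1)) := by
        rw [show 8 * 2 ^ (m + 3) = 2 ^ (m + 6) by ring, ← pow_mul, ← pow_mul]; ring
    _ ≤ _ := by
        rw [show 8 = 2 ^ 3 from rfl, ← pow_mul]
        exact Nat.pow_le_pow_right two_pos (by nlinarith)

/-- Resolution over all perfect fields of large characteristic from stage F. -/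
theorem resDim_perf_of (κ : Type) [Field κ] [PerfectField κ] (p : ℕ) [Fact p.Prime] [CharP κ p]
    (n : ℕ) (hp : 8 ^ (n + 2) ^ 2 < p)
    (h : ∀ (k K : Type) [Field k] [Field K] [Algebra k K] [IsAlgClosed k] [CharP k p] (m : ℕ),
      TPFStmt k K m) : ResDim κ n := by
  have h1 : ∀ m < n, 8 ^ (m + 3) ^ 2 < p := fun m hm => 
    (Nat.pow_le_pow_right (by norm_num) (Nat.pow_le_pow_left (by omega) 2)).trans_lt hp
  cases finite_or_infinite κ
  · exact resDim_of_tpp κ p n _ (fun m hm => (cstF_le m).trans_lt (h1 m hm))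
      fun k _ _ _ _ _ m hm =>
        have : Finite (algebraMap κ k).fieldRange :=
          .of_surjective _ (algebraMap κ k).rangeRestrictField_bijective.2
        tpp_fin (gd_range κ k) (big_of_lt k p ((cstF_le m).trans_lt (h1 m hm)))
          (big_of_lt k p ((gm_le m).trans_lt (h1 m hm))) fun K _ _ => h k K m
  · have h2 := fun m hm => ((cst_le_cstF m _).trans (cstF_le m)).trans_lt (h1 m hm)
    exact resDim_of_tpp κ p n _ h2 fun k _ _ _ _ _ m hm =>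
      have : Infinite (algebraMap κ k).fieldRange :=
        .of_injective _ (algebraMap κ k).rangeRestrictField.injective
      tpp_inf p (gd_range κ k) m (big_of_lt k p (h2 m hm))

end Pool.Agent.MP_19ffc6_ag.Res.P
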