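import Mathlib
import Pool.Agent.MP_19ffc6_ag.Res.FSpec
import Pool.Agent.MP_19ffc6_ag.Res.Core

/-! PROJECT RES, stage F, module DET: goodness depends on a jet of bounded order. -/

namespace Pool.Agent.MP_19ffc6_ag.Res.PF

open Pool.Agent.MP_19ffc6_ag.Res.PA Submodule Filter MvPolynomial

namespace Det

open Core Codim

variable {k K : Type} [Field k] [Field K] [Algebra k K] {m : ℕ} {U T : Submodule k K}

/-- Local bounds on the rational points of a Noetherian ring are uniform. -/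
theorem unif {B : Type} [CommRing B] [Algebra k B] [IsNoetherianRing B]
    (G : (B →ₐ[k] k) → Prop) (Q : ℕ → (B →ₐ[k] k) → Prop)
    (hQ : ∀ a b z, a ≤ b → Q a z → Q b z)
    (h : ∀ z₀, G z₀ → ∃ β f, z₀ f ≠ 0 ∧ ∀ z, z f ≠ 0 → Q β z) :
    ∀ᶠ β in atTop, ∀ z, G z → Q β z := by
  let I : ℕ →o Ideal B := ⟨fun β => ⨅ z : {z // ¬ Q β z}, RingHom.ker z.1, fun a b hab =>
    le_iInf fun z => iInf_le_of_le ⟨z.1, fun h => z.2 (hQ _ _ _ hab h)⟩ le_rfl⟩
  obtain ⟨n, hn⟩ := monotone_stabilizes_iff_noetherian.2 inferInstance I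
  refine eventually_atTop.2 ⟨n, fun b hb z hz => ?_⟩
  obtain ⟨β, f, hf, hf'⟩ := h z hz
  by_contra hc
  have h1 : f ∈ I (max β n) := Ideal.mem_iInf.2 fun y =>
    by_contra fun h => y.2 (hQ _ _ _ (le_max_left _ _) (hf' _ h))
  rw [← hn _ (le_max_right _ _), hn _ hb] at h1
  exact hf (Ideal.mem_iInf.1 h1 ⟨z, hc⟩)

theorem md_mul (U X : Submodule k K) : alg U * (alg U * X) ≤ alg U * X := by
  rw [← mul_assoc]; exact mul_le_mul_left (alg_mul_alg U) _

theorem md_left {N : Submodule k K} (hN : alg U * N ≤ N) (X : Submodule k K) :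
    alg U * (X * N) ≤ X * N := by
  rw [mul_left_comm]; exact mul_le_mul_right hN _

theorem pow_mul_le {N : Submodule k K} (hT : T ≤ alg U) (hN : alg U * N ≤ N) (a : ℕ) :
    T ^ a * N ≤ N :=
  (mul_le_mul_left ((pow_le_pow_left' hT a).trans (alg_pow_le U a)) _).trans hN

theorem pow_anti {N : Submodule k K} (hT : T ≤ alg U) (hN : alg U * N ≤ N) {a b : ℕ}
    (h : a ≤ b) : T ^ b * N ≤ T ^ a * N := by
  obtain ⟨c, rfl⟩ := Nat.exists_eq_add_of_le h
  rw [pow_add, mul_assoc]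
  exact mul_le_mul_right (pow_mul_le hT hN c) _

theorem pr_le {R : Submodule k K} {y y' : K} (h : y' - y ∈ R) (P : Submodule k K) :
    pr k y * P ≤ pr k y' * P ⊔ R * P := fun x hx => by
  obtain ⟨p, hp, rfl⟩ := Num.mem_pr_mul.1 hx
  have e : y * p = y' * p + -((y' - y) * p) := by ring
  rw [e]
  exact add_mem_sup (Num.mem_pr_mul.2 ⟨p, hp, rfl⟩) (neg_mem (mul_mem_mul h hp))

theorem pow_sub {R : Submodule k K} (hR : alg U * R ≤ R) {y y' : K} (hy : y ∈ alg U)
    (hy' : y' ∈ alg U) (h : y' - y ∈ R) (a : ℕ) : y' ^ a - y ^ a ∈ R := by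
  induction a with
  | zero => simp
  | succ a ih =>
    have e : y' ^ (a + 1) - y ^ (a + 1) = y' * (y' ^ a - y ^ a) + y ^ a * (y' - y) := by ring
    rw [e]
    exact add_mem (hR (mul_mem_mul hy' ih)) (hR (mul_mem_mul ((AU U).pow_mem hy a) h))

/-- A bound for the local degree is an open condition that depends on a jet. -/
theorem ld_open (hU : U.FG) (h1 : (1 : K) ∈ U) {B : Type} [CommRing B] [Algebra k B]
    (j : AU U →ₐ[k] B) {X N P₁ Q : Submodule k K} (hX : X.FG) {C e : ℕ}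
    (g : Fin e → (B →ₐ[k] k) → K) (W : (B →ₐ[k] k) → K) (hg : ∀ i, g i ∈ Fam B (alg U))
    (hW : W ∈ Fam B N) (hN : N * P₁ ≤ alg U * X) (hP : alg U * P₁ ≤ P₁) (hQ : alg U * Q ≤ Q)
    (z₀ : B →ₐ[k] k)
    (h₀ : Ld C (Tp (z₀.comp j)) (fun i => g i z₀) (alg U * X) (pr k (W z₀) * P₁ ⊔ Q)) :
    ∃ (β : ℕ) (f : B), z₀ f ≠ 0 ∧ ∀ z : B →ₐ[k] k, z f ≠ 0 → ∀ (g' : Fin e → K) (W' : K),
      (∀ i, g' i - g i z ∈ Tp (z.comp j) ^ β * alg U) → W' - W z ∈ Tp (z.comp j) ^ β * N →
      Ld C (Tp (z.comp j)) g' (alg U * X) (pr k W' * P₁ ⊔ Q) := by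
  obtain ⟨a, ha, h₀⟩ := h₀
  obtain ⟨v, hv, h₀⟩ := h₀ (C * a ^ e + 1)
  have hAP := md_mul U X
  have hAa : alg U ^ a ≤ alg U := alg_pow_le U a
  obtain ⟨f, hf, hf'⟩ := closed' hU h1 j hX (C * a ^ e + 1) (Γ := Option (Fin e))
    (fun γ => γ.elim W fun i => g i ^ a) (fun γ => γ.elim N fun _ => alg U)
    (fun γ => γ.elim P₁ fun _ => alg U * X)
    (by rintro (_ | i); exacts [hW, Fam_mono hAa (pow_mem_Fam (hg i) a)])
    (by rintro (_ | i); exacts [hN, hAP]) (by rintro (_ | i); exacts [hP, hAP])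
    (span k (Set.range v) ⊔ Q) z₀ (by
      refine h₀.trans (sup_le (le_sup_of_le_right le_sup_left) (sup_le (sup_le ?_
        (le_sup_of_le_left le_sup_right)) (sup_le ?_ (le_sup_of_le_right le_sup_right))))
      · rw [qq_mul]
        exact le_sup_of_le_left (le_sup_of_le_left (iSup_le fun i => le_iSup_of_le (some i) le_rfl))
      · exact le_sup_of_le_left (le_sup_of_le_left (le_iSup_of_le none le_rfl)))
  refine ⟨C * a ^ e + 1, f, hf, fun z hz g' W' hg' hW' => ⟨a, ha, fun L => ⟨v, hv, ?_⟩⟩⟩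
  have hT : Tp (z.comp j) ≤ alg U := inf_le_left.trans (le_alg U)
  set E := qq k g' a * (alg U * X) ⊔ (pr k W' * P₁ ⊔ Q)
  have hE : Tp (z.comp j) * E ≤ E := by
    refine (mul_le_mul_left hT _).trans ?_
    simp only [E, Submodule.mul_sup]
    rw [mul_left_comm, mul_left_comm _ (pr k _)]
    exact sup_le_sup (mul_le_mul_right hAP _) (sup_le_sup (mul_le_mul_right hP _) hQ)
  have := stab (P := alg U * X) (E := E) (fun i => Tp (z.comp j) ^ i * (alg U * X)) v
    (by rw [pow_zero, one_mul])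
    (fun i => pow_anti hT hAP (Nat.le_succ i))
    (fun i hi => by
      have h2 := mul_le_mul_right hi (Tp (z.comp j))
      rw [Submodule.mul_sup, ← mul_assoc, ← mul_assoc _ (_ ^ _), ← pow_succ', ← pow_succ'] at h2
      exact h2.trans (sup_le_sup_left hE _))
    ((hf' z hz).trans (sup_le (sup_le (iSup_le ?_) (le_sup_of_le_right le_sup_left))
      (sup_le_sup_left (le_sup_of_le_right (le_sup_of_le_right le_sup_right)) _))) L
  · refine this.trans (sup_le_sup_left ?_ _)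
    rw [sup_left_comm, sup_assoc]
  · rintro (_ | i)
    · refine (pr_le hW' P₁).trans (le_sup_of_le_right (sup_le
        (le_sup_of_le_right (le_sup_of_le_right le_sup_left)) (le_sup_of_le_left ?_)))
      rw [mul_assoc]
      exact mul_le_mul_right hN _
    · have h2 : g i z ∈ alg U := apply_mem_of_Fam (hg i) z
      have h3 : g' i ∈ alg U := by
        simpa using add_mem (pow_mul_le hT (alg_mul_alg U) _ (hg' i)) h2
      refine (pr_le (pow_sub (md_left (alg_mul_alg U) _) h2 h3 (hg' i) a) (alg U * X)).trans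
        (le_sup_of_le_right (sup_le (le_sup_of_le_right (le_sup_of_le_left ?_))
          (le_sup_of_le_left ?_)))
      · rw [qq_mul]
        exact le_iSup_of_le i le_rfl
      · rw [mul_assoc]
        exact mul_le_mul_right hAP _

section

variable {I : Type} [Fintype I] {u : I → K} {d : Fin (m + 1) → Derivation k K K}

theorem wr_sum (c : Fin (m + 2) × I → K) (hc : ∀ x j, d j (c x) = 0) :
    Wr d (fun j => ∑ i, c (j, i) * u i) =
      ∑ f : Fin (m + 2) → I, (∏ j, c (j, f j)) * Wr d fun j => u (f j) := by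
  classical
  let row : K → Fin (m + 2) → K := fun x => Fin.cons x fun l => d l x
  have e : ∀ j, row (∑ i, c (j, i) * u i) = ∑ i, c (j, i) • row (u i) := fun j => by
    funext l
    refine Fin.cases ?_ (fun l => ?_) l <;> simp [row, hc]
  have e2 : ∀ v, Wr d v = (Matrix.detRowAlternating (n := Fin (m + 2)) (R := K)).toMultilinearMap
    fun j => row (v j) := fun _ => rfl
  simp only [e2, e]
  rw [MultilinearMap.map_sum]
  exact Finset.sum_congr rfl fun f _ => MultilinearMap.map_smul_univ _ _ _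

theorem ww_le (U : Submodule k K) : WW d (alg U) ≤ alg U * JJ d U :=
  WW_le_mul.trans ((mul_le_mul_right (JJ_adjoin U) _).trans (md_mul U _))

theorem tup_eq (l : Fin (m + 2) × I → k) :
    tup u l = fun j => ∑ i, algebraMap k K (l (j, i)) * u i :=
  funext fun j => by simp only [tup, Algebra.smul_def]

/-- The perturbed tuple is close to the constant tuple. -/
theorem close (hu : ∀ i, u i ∈ alg U) {R : Submodule k K} (hR : R ≤ alg U)
    (l : Fin (m + 2) × I → k) (c : Fin (m + 2) × I → K)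
    (h : ∀ x, c x - algebraMap k K (l x) ∈ R * alg U) (hc : ∀ x j, d j (c x) = 0) :
    (∀ j, ∑ i, c (j, i) * u i - tup u l j ∈ R * alg U) ∧
      Wr d (fun j => ∑ i, c (j, i) * u i) - Wr d (tup u l) ∈ R * (alg U * JJ d U) := by
  have hA := md_left (alg_mul_alg U) R
  constructor
  · intro j
    rw [tup_eq, ← Finset.sum_sub_distrib]
    refine sum_mem fun i _ => ?_
    rw [← sub_mul, mul_comm _ (u i)]
    exact hA (mul_mem_mul (hu i) (h _))
  · rw [tup_eq, wr_sum c hc, wr_sum (fun x => algebraMap k K (l x)) (fun x j => by simp),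
      ← Finset.sum_sub_distrib]
    refine sum_mem fun f _ => ?_
    rw [← sub_mul, ← map_prod]
    have h2 := prod_sub_mem (A := AU U) (N := R * alg U) (fun a ha x hx => hA (mul_mem_mul ha hx))
      Finset.univ (q := fun j => c (j, f j)) (c := fun j => l (j, f j)) (fun j => by
        have h3 : R * alg U ≤ alg U := (mul_le_mul_left hR _).trans (alg_mul_alg U)
        simpa using (AU U).add_mem (h3 (h (j, f j))) ((AU U).algebraMap_mem (l (j, f j))))
      fun j => h _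
    have h3 := mul_mem_mul h2 (ww_le U (wr_mem (d := d) fun j => hu (f j)))
    rw [mul_assoc] at h3
    exact mul_le_mul_right (md_mul U _) _ h3

/-- The uniform order of the jet for one family of modules. -/
theorem ldu [IsAlgClosed k] (hU : U.FG) (hu : ∀ i, u i ∈ alg U) (C : ℕ) {e : ℕ}
    (p : Fin e → Fin (m + 2)) (q : Fin (m + 2)) {Ξ : Type} (X P₁ Q : Ξ → Submodule k K)
    (hX : ∀ x, (X x).FG) (hN : ∀ x, alg U * JJ d U * P₁ x ≤ alg U * X x)
    (hP : ∀ x, alg U * P₁ x ≤ P₁ x) (hQ : ∀ x, alg U * Q x ≤ Q x) :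
    ∀ᶠ β : ℕ in atTop, ∀ T, Pnt U T → ∀ (l : Fin (m + 2) × I → k) (s : Fin (m + 2) → K),
      (∀ j, s j - tup u l j ∈ T ^ β * alg U) →
      Wr d s - Wr d (tup u l) ∈ T ^ β * (alg U * JJ d U) → ∀ c : Fin e → k,
      (∃ x, Ld C T (fun i => tup u l (p i) - c i • tup u l q) (alg U * X x)
        (pr k (Wr d (tup u l)) * P₁ x ⊔ Q x)) →
      ∃ x, Ld C T (fun i => s (p i) - c i • s q) (alg U * X x) (pr k (Wr d s) * P₁ x ⊔ Q x) := by
  classical
  by_cases h1 : (1 : K) ∈ U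
  swap
  · exact Eventually.of_forall fun _ T hT => absurd (pnt_one hT) h1
  have := finiteType_AU hU
  have : IsNoetherianRing (AU U) := Algebra.FiniteType.isNoetherianRing k _
  let B := MvPolynomial ((Fin (m + 2) × I) ⊕ Fin e) (AU U)
  let j : AU U →ₐ[k] B := IsScalarTower.toAlgHom k _ _
  let sF : Fin (m + 2) → (B →ₐ[k] k) → K := fun i z => tup u (fun x => z (MvPolynomial.X (.inl x))) i
  have hs : ∀ i, sF i ∈ Fam B (alg U) := fun i => by
    have e : sF i = ∑ r, fun z : B →ₐ[k] k => z (MvPolynomial.X (.inl (i, r))) • u r :=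
      funext fun z => by simp [sF, tup]
    rw [e]
    exact sum_mem fun r _ => smul_mem_Fam _ (hu r)
  let g : Fin e → (B →ₐ[k] k) → K := fun i z =>
    sF (p i) z - z (MvPolynomial.X (.inr i)) • sF q z
  let W : (B →ₐ[k] k) → K := fun z => Wr d fun i => sF i z
  have hW : W ∈ Fam B (alg U * JJ d U) := by
    have e : W = ∑ f : Fin (m + 2) → I, fun z : B →ₐ[k] k =>
        z (∏ i, MvPolynomial.X (.inl (i, f i))) • Wr d fun i => u (f i) := funext fun z => by
      rw [Finset.sum_apply]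
      change Wr d (tup u fun x => z (MvPolynomial.X (.inl x))) = _
      rw [tup_eq, wr_sum (fun x => algebraMap k K (z (MvPolynomial.X (.inl x)))) fun x j => by simp]
      refine Finset.sum_congr rfl fun f _ => ?_
      rw [← map_prod, ← map_prod, Algebra.smul_def]
    rw [e]
    exact sum_mem fun f _ => smul_mem_Fam _ (ww_le U (wr_mem fun i => hu _))
  have hT : ∀ z : B →ₐ[k] k, Tp (z.comp j) ≤ alg U := fun z => inf_le_left.trans (le_alg U)
  refine (unif (fun z => ∃ x, Ld C (Tp (z.comp j)) (fun i => g i z) (alg U * X x)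
      (pr k (W z) * P₁ x ⊔ Q x))
    (fun β z => ∀ (g' : Fin e → K) (W' : K), (∀ i, g' i - g i z ∈ Tp (z.comp j) ^ β * alg U) →
      W' - W z ∈ Tp (z.comp j) ^ β * (alg U * JJ d U) →
      ∃ x, Ld C (Tp (z.comp j)) g' (alg U * X x) (pr k W' * P₁ x ⊔ Q x))
    (fun a b z hab h g' W' h2 h3 => h g' W' (fun i => pow_anti (hT z) (alg_mul_alg U) hab (h2 i))
      (pow_anti (hT z) (md_mul U _) hab h3)) fun z₀ ⟨x, hx⟩ => ?_).mono
    fun β h T hT' l s h2 h3 c h4 => ?_
  · obtain ⟨β, f, hf, hf'⟩ := ld_open hU h1 j (hX x) g W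
      (fun i => sub_mem (hs _) (smul_fam (hs _) _)) hW (hN x) (hP x) (hQ x) z₀ hx
    exact ⟨β, f, hf, fun z hz g' W' a b => ⟨x, hf' z hz g' W' a b⟩⟩
  · obtain ⟨x, rfl⟩ := pnt_pt hT' hU
    let z : B →ₐ[k] k := aevalTower x (Sum.elim l c)
    have e1 : z.comp j = x := aevalTower_comp_toAlgHom _ _
    have e2 : ∀ i, sF i z = tup u l i := fun i => by simp [sF, z, B]
    have e3 : ∀ i, g i z = tup u l (p i) - c i • tup u l q := fun i => by
      simp only [g, e2]; simp [z, B]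
    have e4 : W z = Wr d (tup u l) := by simp only [W, e2]
    have h5 := h z
    simp only [e1, e3, e4] at h5
    refine h5 h4 _ _ (fun i => ?_) h3
    have e : s (p i) - c i • s q - (tup u l (p i) - c i • tup u l q) =
        s (p i) - tup u l (p i) - c i • (s q - tup u l q) := by rw [smul_sub]; ring
    rw [e]
    exact sub_mem (h2 _) (smul_mem _ _ (h2 _))

end

theorem cb_of {d : Fin (m + 1) → Derivation k K K} {W W' : K}
    (h : W' - W ∈ T * (alg T * JJ d T)) (hc : CB d T W) : CB d T W' := by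
  obtain ⟨MM, h1, h2, h3⟩ := hc
  refine ⟨MM, h1, h2, h3.trans (sup_le ((pr_le h _).trans (sup_le_sup_left ?_ _)) le_sup_right)⟩
  calc _ = T * (alg T * (alg T * (MM * JJ d T ^ 1))) := by rw [Mb]; ring
    _ ≤ _ := mul_le_mul_right (md_mul T _) _

end Det

open Det Core

variable {k K : Type} [Field k] [Field K] [Algebra k K] {m : ℕ}

theorem det [IsAlgClosed k] : DetStmt k K m := by
  intro d C U M₀ I _ u D hU hu hD hw
  have g1 := eventually_all.2 fun i₀ : Fin (m + 2) => ldu (d := d) hU hu C i₀.succAbove i₀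
    (Ξ := {x : Submodule k K × ℕ // x.1.FG ∧ M₀ ≤ x.1}) (fun x => x.1.1 * JJ d U ^ x.1.2)
    (fun _ => ⊥) (fun _ => ⊥) (fun x => x.2.1.mul ((JJ_fg hU).pow _))
    (fun _ => by simp) (fun _ => by simp) fun _ => by simp
  have g2 := (eventually_all_finite hD).2 fun w hwD => eventually_all.2 fun i₀ : Fin (m + 1) =>
    ldu (d := d) hU hu C (fun i => (i₀.succAbove i).castSucc) i₀.castSucc (Ξ := Unit) (fun _ => 1)
    (fun _ => ⊥) (fun _ => w.fil 1) (fun _ => one_eq_span (R := k) (A := K) ▸ fg_span_singleton _)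
    (fun _ => by simp) (fun _ => by simp) fun _ => mul_le.2 fun _ hx _ hy => by
      simpa using DV.mul_fil (Algebra.adjoin_le (S := w.vr) (hw w hwD) hx) hy
  have g3 := eventually_all.2 fun i₀ : Fin (m + 1) =>
    ldu (d := d) hU hu C (fun i => (i₀.succAbove i).castSucc) i₀.castSucc
    (Ξ := {x : Submodule k K × ℕ // x.1.FG ∧ x.1 ≠ ⊥}) (fun x => x.1.1 * JJ d U ^ (x.1.2 + 1))
    (fun x => alg U * (x.1.1 * JJ d U ^ x.1.2)) (fun _ => ⊥)
    (fun x => x.2.1.mul ((JJ_fg hU).pow _))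
    (fun x => (le_of_eq (by ring)).trans (md_mul U _)) (fun x => md_mul U _) fun _ => by simp
  obtain ⟨β, ⟨a1, a2⟩, a3, hβ⟩ := ((g1.and g2).and (g3.and (eventually_ge_atTop 1))).exists
  refine ⟨β, fun T hT l c hc hd => ?_⟩
  have eA := pnt_alg hT
  have eJ := pnt_JJ hT d
  have hTA : T ≤ alg U := (pnt_le hT).trans (le_alg U)
  rw [eA] at hc
  obtain ⟨s, hs, b1, b2⟩ : ∃ s : Fin (m + 2) → K, s = (fun j => ∑ i, c (j, i) * u i) ∧
      (∀ j, s j - tup u l j ∈ T ^ β * alg U) ∧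
      Wr d s - Wr d (tup u l) ∈ T ^ β * (alg U * JJ d U) :=
    ⟨_, rfl, close hu ((pow_le_alg T β).trans eA.le) l c hc hd⟩
  rw [← hs]
  have b3 : ∀ j, s j - tup u l j ∈ nn T := fun j => by
    have := pow_anti hTA (alg_mul_alg U) hβ (b1 j)
    rwa [pow_one, ← eA] at this
  have b4 : Wr d s - Wr d (tup u l) ∈ T * (alg T * JJ d T) := by
    have := pow_anti hTA (md_mul U _) hβ b2
    rwa [pow_one, ← eA, ← eJ] at this
  have b5 : ∀ j, s j ∈ nn T ↔ tup u l j ∈ nn T := fun j =>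
    ⟨fun h => (sub_mem_iff_right _ h).1 (b3 j), fun h => (sub_mem_iff_left _ h).1 (b3 j)⟩
  have b6 : ∀ p q (a : k), s p - a • s q ∈ nn T → tup u l p - a • tup u l q ∈ nn T :=
    fun p q a h => by
      have e : tup u l p - a • tup u l q =
        s p - a • s q - (s p - tup u l p) + a • (s q - tup u l q) := by rw [smul_sub]; ring
      rw [e]
      exact add_mem (sub_mem h (b3 p)) (smul_mem _ _ (b3 q))
  refine ⟨fun h => ⟨?_, fun i₀ a h1 h2 => ?_, fun i₀ a h1 h2 => ?_, fun h1 => ?_⟩, b4⟩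
  · obtain ⟨j, hj⟩ := h.bpf
    exact ⟨j, fun h2 => hj ((b5 j).1 h2)⟩
  · obtain ⟨MM, b, h3, h4, h5⟩ := h.cx i₀ a (fun h2 => h1 ((b5 _).2 h2)) fun i => b6 _ _ _ (h2 i)
    rw [Mb, eA, eJ] at h5
    obtain ⟨⟨⟨MM, b⟩, h3, h4⟩, h6⟩ := a1 i₀ T hT l s b1 b2 a ⟨⟨(MM, b), h3, h4⟩, by simpa using h5⟩
    refine ⟨MM, b, h3, h4, ?_⟩
    rw [Mb, eA, eJ]
    simpa using h6
  · obtain ⟨h3, h4⟩ := h.cw i₀ a (fun h2 => h1 ((b5 _).2 h2)) fun i => b6 _ _ _ (h2 i)
    refine ⟨fun w hwD => ?_, fun hm => ?_⟩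
    · have h5 := h3 w hwD
      rw [eA] at h5 ⊢
      obtain ⟨-, h6⟩ := a2 w hwD i₀ T hT l s b1 b2 a ⟨(), by simpa using h5⟩
      simpa using h6
    · obtain ⟨MM, b, h5, h6, h7⟩ := h4 hm
      rw [Mb, Mb, eA, eJ] at h7
      obtain ⟨⟨⟨MM, b⟩, h5, h6⟩, h8⟩ := a3 i₀ T hT l s b1 b2 a
        ⟨⟨(MM, b), h5, h6⟩, by rwa [sup_bot_eq]⟩
      refine ⟨MM, b, h5, h6, ?_⟩
      rw [Mb, Mb, eA, eJ]
      rwa [sup_bot_eq] at h8
  · obtain ⟨h2, h3⟩ := h.base fun i => (b5 _).1 (h1 i)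
    exact ⟨h2, cb_of b4 h3⟩

end Pool.Agent.MP_19ffc6_ag.Res.PF
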