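import Pool.Agent.MP_19ffc6_ag.Res.Bpf

/-! PROJECT RESP, finite fields: a prime of height one lowers the transcendence degree by one. -/

namespace Pool.Agent.MP_19ffc6_ag.Res.PF.Kr

open MvPolynomial Algebra

variable {k : Type} [Field k]

theorem height_one {A : Type} [CommRing A] [IsDomain A] [Algebra k A] [FiniteType k A]
    (p : Ideal A) [p.IsPrime] (hp : p.height = 1) : trdeg k (A ⧸ p) + 1 = trdeg k A := by
  obtain ⟨s, g, hg, hi⟩ := exists_integral_inj_algHom_of_fg k A
  let _ := g.toRingHom.toAlgebra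
  have : IsScalarTower k (MvPolynomial (Fin s) k) A := .of_algebraMap_eq fun c => (g.commutes c).symm
  have : Algebra.IsIntegral (MvPolynomial (Fin s) k) A := ⟨hi⟩
  have : FaithfulSMul (MvPolynomial (Fin s) k) A := (faithfulSMul_iff_algebraMap_injective _ _).2 hg
  have : IsNoetherianRing A := Algebra.FiniteType.isNoetherianRing k A
  have hA : trdeg k A = s := by
    rw [← trdeg_add_eq k (MvPolynomial (Fin s) k) (A := A), trdeg_eq_zero (A := A), add_zero,
      MvPolynomial.trdeg_of_isDomain, Cardinal.lift_id, Cardinal.mk_fin]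
  obtain ⟨f, hf, f0⟩ := Submodule.exists_mem_ne_zero_of_ne_bot (p.ne_bot_of_height_eq_one hp)
  let q := p.under (MvPolynomial (Fin s) k)
  have q0 : q ≠ ⊥ := Ideal.comap_ne_bot_of_integral_mem f0 hf (hi f)
  have q1 : q.height = 1 := le_antisymm
    (hp ▸ (Ideal.height_eq_height_add_of_liesOver_of_hasGoingDown q p).ge.trans' le_self_add)
    (by simpa [Order.one_le_iff_ne_zero])
  obtain ⟨π, hπ, hp'⟩ := Ideal.IsPrime.exists_mem_prime_of_ne_bot (I := q) inferInstance q0
  have e := q.eq_span_singleton_of_height_eq_one q1 hπ hp'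
  obtain ⟨i, hi0⟩ : ∃ i, π.degreeOf i ≠ 0 := by
    by_contra hc
    push Not at hc
    have h1 : π = C (π.coeff 0) := by
      refine totalDegree_eq_zero_iff_eq_C.1 ((totalDegree_eq_zero_iff _ _).2 fun m hm j => ?_)
      exact Nat.eq_zero_of_le_zero (hc j ▸ monomial_le_degreeOf j hm)
    refine hp'.not_isUnit (h1 ▸ (IsUnit.mk0 _ fun h0 => hp'.ne_zero ?_).map C)
    rw [h1, h0, map_zero]
  obtain ⟨n, rfl⟩ : ∃ n, s = n + 1 := ⟨s - 1, by have := i.pos; omega⟩
  have h2 : AlgebraicIndependent k fun j : Fin n =>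
      Ideal.Quotient.mkₐ k p (g (X (i.succAbove j))) := by
    rw [algebraicIndependent_iff]
    intro Q hQ
    by_contra h0
    have h3 : rename i.succAbove Q ∈ q := by
      rw [Ideal.mem_comap, ← Ideal.Quotient.eq_zero_iff_mem, ← hQ]
      exact AlgHom.congr_fun (algHom_ext (f := ((Ideal.Quotient.mkₐ k p).comp g).comp
        (rename i.succAbove)) fun j => by simp) Q
    obtain ⟨r, hr⟩ := Ideal.mem_span_singleton.1 (e ▸ h3)
    have h4 : rename i.succAbove Q ≠ 0 := fun h =>
      h0 (rename_injective _ Fin.succAbove_right_injective (h.trans (map_zero _).symm))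
    have h5 : (rename i.succAbove Q).degreeOf i = 0 := by
      by_contra h6
      obtain ⟨j, -, hj⟩ := mem_vars_rename _ _ (mem_vars_iff_degreeOf_ne_zero.2 h6)
      exact Fin.succAbove_ne i j hj
    rw [hr, degreeOf_mul_eq hp'.ne_zero (right_ne_zero_of_mul (hr ▸ h4))] at h5
    omega
  have h6 := h2.cardinalMk_le_trdeg
  rw [Cardinal.mk_fin] at h6
  rw [hA, le_antisymm (PA.Bpf.trdeg_quot n hA.le p hf f0) h6, Nat.cast_succ]

theorem krull {A : Type} [CommRing A] [IsDomain A] [Algebra k A] [FiniteType k A] {f : A}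
    (hf : f ≠ 0) {p : Ideal A} (hp : p ∈ (Ideal.span {f}).minimalPrimes) :
    trdeg k (A ⧸ p) + 1 = trdeg k A := by
  have : IsNoetherianRing A := Algebra.FiniteType.isNoetherianRing k A
  have := hp.isPrime
  have h0 : p ≠ ⊥ := fun e => hf (Ideal.span_singleton_eq_bot.1 (bot_unique (hp.le.trans_eq e)))
  exact height_one p (le_antisymm (Ideal.height_le_one_of_isPrincipal_of_mem_minimalPrimes _ p hp)
    (by simpa [Order.one_le_iff_ne_zero]))

/-- A prime that is minimal over `q + (f)`. -/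
theorem krull' {R : Type} [CommRing R] [Algebra k R] [FiniteType k R] {q p : Ideal R} [q.IsPrime]
    {f : R} (hf : f ∉ q) (hp : p ∈ (q ⊔ Ideal.span {f}).minimalPrimes) :
    trdeg k (R ⧸ p) + 1 = trdeg k (R ⧸ q) := by
  have hq : q ≤ p := le_sup_left.trans hp.le
  have h1 : p.map (Ideal.Quotient.mk q) ∈ (Ideal.span {Ideal.Quotient.mk q f}).minimalPrimes := by
    have := Ideal.minimalPrimes_map_of_surjective (Ideal.Quotient.mk_surjective (I := q))
      (Ideal.span {f})
    rw [Ideal.map_span, Set.image_singleton, Ideal.mk_ker, sup_comm] at this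
    rw [this]
    exact ⟨p, hp, rfl⟩
  rw [← krull (k := k) (fun e => hf (Ideal.Quotient.eq_zero_iff_mem.1 e)) h1,
    ← (DoubleQuot.quotQuotEquivQuotOfLEₐ k hq).trdeg_eq]
  rfl

end Pool.Agent.MP_19ffc6_ag.Res.PF.Kr
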