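import Pool.Agent.MP_19ffc6_ag.Res.FSS

/-! PROJECT RES, stage F: the components of the exceptional divisor of the blow-up of `T J`. -/

namespace Pool.Agent.MP_19ffc6_ag.Res.PF

open Pool.Agent.MP_19ffc6_ag.Wild Pool.Agent.MP_19ffc6_ag.Res.PA Algebra AddMonoidAlgebra

namespace Ss

theorem tr_le (K : Type) [Field K] {G : Type} [AddCommGroup G] [IsDomain K[G]] (s : Set G)
    (hs : AddSubgroup.closure s = ⊤) : trdeg K K[G] ≤ Cardinal.mk s := by
  let A := adjoin K ((fun g => (single g 1 : K[G])) '' s)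
  have h1 : ∀ g, IsAlgebraic A (single g 1 : K[G]) := fun g => by
    induction (hs.ge (AddSubgroup.mem_top g)) using AddSubgroup.closure_induction with
    | mem g hg => exact isAlgebraic_algebraMap (⟨_, subset_adjoin ⟨g, hg, rfl⟩⟩ : A)
    | zero => exact isAlgebraic_one
    | add a b _ _ ha hb => simpa [single_mul_single] using ha.mul hb
    | neg a _ ha =>
      refine IsAlgebraic.of_mul (mem_nonZeroDivisors_of_ne_zero (single_ne_zero.2 one_ne_zero)) ha ?_
      rw [single_mul_single, add_neg_cancel, mul_one]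
      exact isAlgebraic_one
  have : Algebra.IsAlgebraic A K[G] := ⟨fun x => by
    induction x using induction_linear with
    | zero => exact isAlgebraic_zero
    | add a b ha hb => exact ha.add hb
    | single g x =>
      have := (isAlgebraic_algebraMap (⟨_, A.algebraMap_mem x⟩ : A)).mul (h1 g)
      change IsAlgebraic A (single 0 x * _) at this
      simpa [single_mul_single] using this⟩
  exact (IsAlgebraic.trdeg_le_cardinalMk K _ (alg := this)).trans Cardinal.mk_image_le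

theorem ind (K : Type) [Field K] :
    AlgebraicIndependent K ![(single (1, 0) 1 : K[ℤ × ℤ]), single (0, 1) 1] := by
  let e : (Fin 2 →₀ ℕ) →+ ℤ × ℤ :=
    { toFun := fun u => (u 0, u 1), map_zero' := by simp, map_add' := by simp }
  have h1 : MvPolynomial.aeval ![(single (1, 0) 1 : K[ℤ × ℤ]), single (0, 1) 1] =
      mapDomainAlgHom K K e := MvPolynomial.algHom_ext fun i => by
    rw [MvPolynomial.aeval_X]
    refine Eq.trans ?_ (mapDomain_single (f := e) (a := Finsupp.single i 1) (r := (1 : K))).symm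
    fin_cases i <;> simp [e]
  rw [algebraicIndependent_iff_injective_aeval, h1]
  refine mapDomain_injective fun u v h => Finsupp.ext fun i => ?_
  simp only [e, AddMonoidHom.coe_mk, ZeroHom.coe_mk, Prod.mk.injEq, Nat.cast_inj] at h
  fin_cases i
  exacts [h.1, h.2]

variable {k K : Type} [Field k] [Field K] [Algebra k K] {T J : Submodule k K}
  {R : Subalgebra k K[ℤ × ℤ]} {n : ℕ}

theorem Ext.trdeg_eq (h : Ext T J R) (hF : Fld n T) (hJ0 : J ≠ ⊥) :
    trdeg k R = (n + 2 : ℕ) := by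
  let Ω := FractionRing K[ℤ × ℤ]
  have := h.isAlgebraic hF hJ0
  have h1 : trdeg K K[ℤ × ℤ] = 2 := by
    refine le_antisymm ((tr_le K {(1, 0), (0, 1)} (top_le_iff.1 fun g _ => ?_)).trans ?_) ?_
    · have : g = g.1 • ((1, 0) : ℤ × ℤ) + g.2 • (0, 1) := by simp
      rw [this]
      exact add_mem (zsmul_mem (AddSubgroup.subset_closure (by simp)) _)
        (zsmul_mem (AddSubgroup.subset_closure (by simp)) _)
    · exact Cardinal.mk_insert_le.trans (by rw [Cardinal.mk_singleton, one_add_one_eq_two])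
    · simpa using (ind K).cardinalMk_le_trdeg
  have h2 : trdeg k K[ℤ × ℤ] = (n + 2 : ℕ) := by
    rw [← trdeg_add_eq k K (A := K[ℤ × ℤ]), h1, hF.dim]; norm_cast
  refine le_antisymm (h2 ▸ trdeg_le_of_injective R.val Subtype.val_injective) ?_
  have h3 := trdeg_add_eq k R (A := Ω)
  rw [trdeg_eq_zero (R := R) (A := Ω), add_zero] at h3
  rw [h3, ← h2]
  exact trdeg_le_of_injective (IsScalarTower.toAlgHom k K[ℤ × ℤ] Ω) (IsFractionRing.injective _ _)

theorem Ext.trdeg_quot (h : Ext T J R) (hR : R.FG) (hF : Fld n T) (hJ0 : J ≠ ⊥) {P : Ideal R}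
    (hP : P ∈ (Ideal.span {(⟨_, h.z⟩ : R)}).minimalPrimes) : trdeg k (R ⧸ P) = (n + 1 : ℕ) := by
  have : FiniteType k R := (Subalgebra.fg_iff_finiteType _).1 hR
  have h1 := Kr.krull (k := k)
    (fun e => single_ne_zero.2 one_ne_zero (congrArg Subtype.val e)) hP
  rw [h.trdeg_eq hF hJ0] at h1
  refine Cardinal.add_one_inj.1 ?_
  rw [h1]; norm_cast

/-- No component lies in the locus where `J` vanishes. -/
theorem Ext.not_le (h : Ext T J R) (hR : R.FG) (hF : Fld n T) (hJ0 : J ≠ ⊥) {P : Ideal R}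
    (hP : P ∈ (Ideal.span {(⟨_, h.z⟩ : R)}).minimalPrimes) :
    ¬ ∀ x (hx : x ∈ J), (⟨_, h.j x hx⟩ : R) ∈ P := fun H => by
  have := hP.1.1
  let ε := mapDomainAlgHom k K (AddMonoidHom.inl ℤ ℤ)
  have h0 : ∀ a x, ε (single a x) = single (a, 0) x := fun a x => mapDomain_single
  let A := R.comap ε
  let g : A →ₐ[k] R := (ε.comp A.val).codRestrict R fun x => x.2
  let f := (Ideal.Quotient.mkₐ k P).comp g
  have h1 : R ≤ (f.range.comap (Ideal.Quotient.mkₐ k P)).map R.val := h.le _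
    ⟨⟨_, h.z⟩, ⟨⟨single (-1) 1, by change ε _ ∈ R; rw [h0]; exact h.z⟩,
      congrArg (Ideal.Quotient.mk P) (Subtype.ext (h0 _ _))⟩, rfl⟩
    (fun x hx => ⟨⟨_, h.t x hx⟩, ⟨⟨single 1 x, by change ε _ ∈ R; rw [h0]; exact h.t x hx⟩,
      congrArg (Ideal.Quotient.mk P) (Subtype.ext (h0 _ _))⟩, rfl⟩)
    fun x hx => ⟨⟨_, h.j x hx⟩,
      ⟨0, (map_zero f).trans (Ideal.Quotient.eq_zero_iff_mem.2 (H x hx)).symm⟩, rfl⟩
  have h2 : Function.Surjective f := fun y => by
    obtain ⟨y, rfl⟩ := Ideal.Quotient.mk_surjective y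
    obtain ⟨y', hy, e⟩ := h1 y.2
    rwa [← show y' = y from Subtype.ext e]
  have h3 : trdeg k A ≤ (n + 1 : ℕ) := by
    refine (trdeg_le_of_injective A.val Subtype.val_injective).trans ?_
    rw [← trdeg_add_eq k K (A := K[ℤ]), hF.dim, Nat.cast_add_one]
    simpa using add_le_add_right (tr_le K {(1 : ℤ)} Int.addSubgroupClosure_one) (n : Cardinal)
  have := RingHom.ker_isPrime f
  have h4 := Bpf.trdeg_quot n h3 (RingHom.ker f)
    (h := ⟨single (-1) 1, by change ε _ ∈ R; rw [h0]; exact h.z⟩)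
    ((congrArg (Ideal.Quotient.mk P) (Subtype.ext (h0 _ _))).trans
      (Ideal.Quotient.eq_zero_iff_mem.2 (hP.1.2 (Ideal.mem_span_singleton_self _))))
    fun e => single_ne_zero.2 one_ne_zero (congrArg Subtype.val e)
  rw [AlgEquiv.trdeg_eq (A' := R ⧸ P) (Ideal.quotientKerAlgEquivOfSurjective h2),
    h.trdeg_quot hR hF hJ0 hP] at h4
  exact absurd (Nat.cast_le.1 h4) (by omega)

/-- The elements `x` with `ι x * u ∈ V`. -/
def sl {Ω : Type} [Field Ω] [Algebra k Ω] (ι : K →ₐ[k] Ω) (V : Subalgebra k Ω) (u : Ω) :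
    Submodule k K :=
  V.toSubmodule.comap ((LinearMap.mulRight k u).comp ι.toLinearMap)

theorem mem_sl {Ω : Type} [Field Ω] [Algebra k Ω] {ι : K →ₐ[k] Ω} {V : Subalgebra k Ω} {u : Ω}
    {x : K} : x ∈ sl ι V u ↔ ι x * u ∈ V := Iff.rfl

theorem sl_mul {Ω : Type} [Field Ω] [Algebra k Ω] {ι : K →ₐ[k] Ω} {V : Subalgebra k Ω} {u v : Ω}
    {A B : Submodule k K} (hA : A ≤ sl ι V u) (hB : B ≤ sl ι V v) : A * B ≤ sl ι V (u * v) :=
  Submodule.mul_le.2 fun x hx y hy => by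
    change ι (x * y) * (u * v) ∈ V
    rw [map_mul, mul_mul_mul_comm]
    exact mul_mem (hA hx) (hB hy)

theorem sl_pow {Ω : Type} [Field Ω] [Algebra k Ω] {ι : K →ₐ[k] Ω} {V : Subalgebra k Ω} {u : Ω}
    {A : Submodule k K} (hA : A ≤ sl ι V u) (a : ℕ) : A ^ a ≤ sl ι V (u ^ a) := by
  induction a with
  | zero =>
    rw [pow_zero, pow_zero, Submodule.one_le, mem_sl, map_one, mul_one]
    exact one_mem V
  | succ a ih => rw [pow_succ, pow_succ]; exact sl_mul ih hA

/-- The module `MM` has a generator at the prime `P`. -/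
theorem Ext.exists_gen (h : Ext T J R) {MM : Submodule k K} (hM : MM.FG) (hM0 : MM ≠ ⊥)
    (P : Ideal R) [P.IsPrime] (hP : (⟨_, h.z⟩ : R) ∈ P) : ∃ p : Submodule k K, ¬ MM ≤ p ∧
      ∀ m ∈ MM, m ∉ p → ∀ W (hW : W ∈ J), (⟨_, h.j W hW⟩ : R) ∉ P → ∀ (a b c : ℕ) (x : K) (r : R),
        r.1 = single ((a : ℤ), (b : ℤ)) x → x * (m * W ^ c) ∈ T ^ (a + 1) * Mb T J MM (b + c) →
        r ∈ P := by
  let Ω := FractionRing K[ℤ × ℤ]
  let φ := IsScalarTower.toAlgHom k K[ℤ × ℤ] Ω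
  have hφ : Function.Injective φ := IsFractionRing.injective K[ℤ × ℤ] Ω
  let ι := IsScalarTower.toAlgHom k K Ω
  have h0 : ∀ x g y, ι x * φ (single g y) = φ (single g (x * y)) := fun x g y => by
    change φ (single 0 x) * _ = _
    rw [← map_mul, single_mul_single, zero_add]
  let e := R.equivMapOfInjective φ hφ
  obtain ⟨O, hO, h1⟩ := exists_point (R.map φ) (P.comap e.symm)
  obtain ⟨V, hV, hd⟩ := exists_val_dom hO.lcl
  have h2 : ∀ x ∈ R, φ x ∈ V := fun x hx => hd.1 (hO.le ⟨x, hx, rfl⟩)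
  have h3 : ∀ r : R, Un V (φ r) ↔ r ∉ P := fun r => by
    have := h1 (e r)
    rw [Ideal.mem_comap, e.symm_apply_apply] at this
    exact ⟨fun hu => this.1 (hd.2 _ (hO.le (e r).2) hu), fun hu => (this.2 hu).mono hd.1⟩
  have h4 : Val (V.comap ι) := fun x => (hV (ι x)).imp id fun h => by
    rwa [Subalgebra.mem_comap, map_inv₀]
  obtain ⟨g, g1, g2, g3⟩ := h4.exists_gen hM hM0
  refine ⟨{ carrier := {m | m / g ∈ V.comap ι ∧ ¬ Un (V.comap ι) (m / g)}
            add_mem' := fun ha hb => ?_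
            zero_mem' := ⟨by rw [zero_div]; exact zero_mem _, fun hu => hu.2.1 (zero_div _)⟩
            smul_mem' := fun c x hx => ?_ }, fun H => (H g1).2 ?_,
    fun m hm hp W hW hWP a b c x r hr hx => ?_⟩
  · rw [Set.mem_setOf_eq, add_div]
    exact ⟨add_mem ha.1 hb.1, fun hu => (h4.lcl _ ha.1 _ hb.1 hu).elim ha.2 hb.2⟩
  · rw [Set.mem_setOf_eq, smul_div_assoc, Algebra.smul_def, mul_comm]
    exact ⟨mul_mem hx.1 (algebraMap_mem _ c),
      fun hu => hx.2 (Un.of_mul hx.1 (algebraMap_mem _ c) hu)⟩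
  · rw [div_self g2]; exact Un.one _
  have hu : Un (V.comap ι) (m / g) := by_contra fun hc => hp ⟨g3 m hm, hc⟩
  have m0 : m ≠ 0 := (div_ne_zero_iff.1 hu.2.1).1
  have hw := (h3 _).2 hWP
  have W0 : W ≠ 0 := fun e => hw.2.1 (by simp [e])
  have a1 : T ≤ sl ι V (φ (single (1, 0) 1)) := fun y hy => by
    rw [mem_sl, h0, mul_one]; exact h2 _ (h.t y hy)
  have a2 : alg T ≤ sl ι V 1 := fun y hy => by
    rw [mem_sl, mul_one]
    refine adjoin_le (S := V.comap ι) (fun z hz => ?_) hy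
    have := mul_mem (h2 _ (h.t z hz)) (h2 _ h.z)
    rwa [← map_mul, single_mul_single, mul_one] at this
  have a3 : MM ≤ sl ι V (ι m⁻¹) := fun y hy => by
    rw [mem_sl]
    have : ι _ ∈ V := mul_mem (g3 y hy) hu.2.2
    rwa [inv_div, div_mul_div_cancel₀ g2, div_eq_mul_inv, map_mul] at this
  have a4 : J ≤ sl ι V (ι W⁻¹) := fun y hy => by
    rw [mem_sl]
    have := mul_mem (h2 _ (h.j y hy)) hw.2.2
    change _ * (φ (single _ W))⁻¹ ∈ V at this
    rwa [← mul_one y, ← mul_one W, ← h0, ← h0, ← div_eq_mul_inv, mul_div_mul_right _ _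
      ((_root_.map_ne_zero_iff _ hφ).2 (single_ne_zero.2 one_ne_zero)), div_eq_mul_inv,
      ← map_inv₀] at this
  have a5 := mem_sl.1 (sl_mul (sl_pow a1 (a + 1)) (sl_mul a2 (sl_mul a3 (sl_pow a4 (b + c)))) hx)
  have a6 := mul_mem a5 (pow_mem hw.1 b)
  by_contra hc
  refine (h3 _).1 (Un.of_mul (h2 _ h.z) a6 ?_) hP
  convert (h3 r).2 hc using 1
  change φ (single _ 1) * (_ * φ (single _ W) ^ b) = _
  rw [hr, one_mul, ← map_pow, ← map_pow, ← map_pow, ← map_mul, single_pow, single_pow,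
    mul_comm (φ _) (ι _), h0, h0, ← map_mul, ← map_mul, single_mul_single, single_mul_single]
  congr 2
  · simp
  · rw [pow_add, inv_pow, inv_pow, one_pow]
    field_simp

theorem gn_iff {O : Subalgebra k K} {t x : K} (ht : Gn O T t) (hx : x ∈ T) :
    Gn O T x ↔ Un O (x / t) :=
  ⟨fun h => ⟨ht.2.2 x hx, div_ne_zero h.2.1 ht.2.1, by rw [inv_div]; exact h.2.2 t ht.1⟩,
    fun h => ⟨hx, (div_ne_zero_iff.1 h.2.1).1, fun y hy => by
      have := mul_mem (ht.2.2 y hy) h.2.2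
      rwa [inv_div, div_mul_div_cancel₀ ht.2.1] at this⟩⟩

/-- The point of the exceptional divisor defined by a valuation ring. -/
theorem Ext.res (h : Ext T J R) {O : Subalgebra k K} (hO : Cen T O) {t j : K} (ht : Gn O T t)
    (hj : Gn O J j) : ∃ (κ : Type) (_ : Field κ) (_ : Algebra k κ) (Ψ : R →ₐ[k] κ[ℤ × ℤ]),
      Ψ ⟨_, h.z⟩ = 0 ∧ Ψ ⟨_, h.t t ht.1⟩ = single (1, 0) 1 ∧ Ψ ⟨_, h.j j hj.1⟩ = single (0, 1) 1 ∧
      (∀ x (hx : x ∈ T), Ψ ⟨_, h.t x hx⟩ = 0 ↔ ¬ Gn O T x) ∧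
      ∀ x (hx : x ∈ J), Ψ ⟨_, h.j x hx⟩ = 0 ↔ ¬ Gn O J x := by
  have := hO.1.lcl.isLocalRing
  let σ : K[ℤ × ℤ] →ₐ[K] K[ℤ × ℤ] := lift K K[ℤ × ℤ] (ℤ × ℤ)
    { toFun := fun x => single x.toAdd (t ^ (-x.toAdd.1) * j ^ (-x.toAdd.2))
      map_one' := by simp [one_def]
      map_mul' := fun x y => by
        simp only [toAdd_mul, Prod.fst_add, Prod.snd_add, neg_add, zpow_add₀ ht.2.1,
          zpow_add₀ hj.2.1, single_mul_single]
        congr 1
        ring }
  have h1 : ∀ a b x, σ (single (a, b) x) = single (a, b) (x * (t ^ (-a) * j ^ (-b))) :=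
    fun a b x => (lift_single _ _ _).trans (smul_single _ _ _)
  let μ := mapAlgHom (ℤ × ℤ) O.val
  have hμ : Function.Injective μ := map_injective (O.val : O →+ K) Subtype.val_injective
  have h2 : ∀ g x (hx : x ∈ O), μ (single g ⟨x, hx⟩) = single g x := fun g x hx =>
    mapAlgHom_single _ _ _
  have a1 : μ (single (-1, 0) ⟨t, (hO.2 t ht.1).1⟩) = σ (single (-1, 0) 1) := by simp [h1, h2]
  have a2 : ∀ x (hx : x ∈ T), μ (single (1, 0) ⟨_, ht.2.2 x hx⟩) = σ (single (1, 0) x) :=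
    fun x hx => by simp [h1, h2, div_eq_mul_inv]
  have a3 : ∀ x (hx : x ∈ J), μ (single (0, 1) ⟨_, hj.2.2 x hx⟩) = σ (single (0, 1) x) :=
    fun x hx => by simp [h1, h2, div_eq_mul_inv]
  have h3 : R ≤ μ.range.comap (σ.restrictScalars k) :=
    h.le _ ⟨_, a1⟩ (fun x hx => ⟨_, a2 x hx⟩) fun x hx => ⟨_, a3 x hx⟩
  let ρ := IsScalarTower.toAlgHom k O (IsLocalRing.ResidueField O)
  obtain ⟨Ψ, h4⟩ : ∃ Ψ : R →ₐ[k] (IsLocalRing.ResidueField O)[ℤ × ℤ],
      ∀ (r : R) g y, μ (single g y) = σ r → Ψ r = single g (ρ y) := by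
    let ε := AlgEquiv.ofInjective μ hμ
    let η := ((σ.restrictScalars k).comp R.val).codRestrict μ.range fun x => h3 x.2
    refine ⟨(mapAlgHom (ℤ × ℤ) ρ).comp (ε.symm.toAlgHom.comp η), fun r g y e => ?_⟩
    have e1 : η r = ε (single g y) := Subtype.ext e.symm
    rw [AlgHom.comp_apply, AlgHom.comp_apply, e1]
    simp
  have h5 : ∀ (g : ℤ × ℤ) (y : O), single g (ρ y) = 0 ↔ ¬ Un O y := fun g y => by
    rw [single_eq_zero, ← isUnit_iff_un]
    exact IsLocalRing.residue_eq_zero_iff y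
  have h6 : ∀ x : K, x ≠ 0 → ∀ hx, ρ ⟨x / x, hx⟩ = 1 := fun x h0 hx => by
    rw [← map_one ρ]; exact congrArg ρ (Subtype.ext (div_self h0))
  refine ⟨IsLocalRing.ResidueField O, inferInstance, inferInstance, Ψ, ?_, ?_, ?_, fun x hx => ?_,
    fun x hx => ?_⟩
  · rw [h4 ⟨_, h.z⟩ _ _ a1, h5]; exact (hO.2 t ht.1).2
  · rw [h4 ⟨_, h.t t ht.1⟩ _ _ (a2 t ht.1), h6 t ht.2.1]
  · rw [h4 ⟨_, h.j j hj.1⟩ _ _ (a3 j hj.1), h6 j hj.2.1]
  · rw [h4 ⟨_, h.t x hx⟩ _ _ (a2 x hx), h5, gn_iff ht hx]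
  · rw [h4 ⟨_, h.j x hx⟩ _ _ (a3 x hx), h5, gn_iff hj hx]

theorem rank_sup_le {V α : Type} [AddCommGroup V] [Module k V] (s : Finset α)
    (f : α → Submodule k V) (h : ∀ a ∈ s, (f a).FG) :
    (s.sup f).FG ∧ Module.finrank k (s.sup f : Submodule k V) ≤ ∑ a ∈ s, Module.finrank k (f a) := by
  classical
  refine ⟨Submodule.fg_finset_sup s f h, ?_⟩
  induction s using Finset.induction_on with
  | empty => rw [Finset.sup_empty, finrank_bot]; exact Nat.zero_le _
  | insert a s ha ih =>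
    have h1 := fun b hb => h b (Finset.mem_insert_of_mem hb)
    have := Module.Finite.iff_fg.2 (Submodule.fg_finset_sup s f h1)
    have := Module.Finite.iff_fg.2 (h a (Finset.mem_insert_self _ _))
    rw [Finset.sup_insert, Finset.sum_insert ha]
    exact (Submodule.finrank_add_le_finrank_add_finrank _ _).trans (by gcongr; exact ih h1)

open MvPolynomial in
theorem hf_le {ι : Type} (θ : MvPolynomial ι k →ₐ[k] K[ℤ × ℤ])
    (hθ : ∀ i, (∃ x ∈ T, θ (X i) = single (1, 0) x) ∨ ∃ x ∈ J, θ (X i) = single (0, 1) x)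
    (I : Ideal (MvPolynomial ι k)) {MM : Submodule k K} (hT : T.FG) (hJ : J.FG) (hM : MM.FG)
    {m W : K} (hm : m ∈ MM) (hW : W ∈ J) (L : ℕ)
    (H : ∀ (a b c : ℕ) x F, θ F = single ((a : ℤ), (b : ℤ)) x →
      x * (m * W ^ c) ∈ T ^ (a + 1) * Mb T J MM (b + c) → F ∈ I) :
    hf I L ≤ (L + 1) * cod (Mb T J MM (L + 1)) (T ^ (L + 1) * Mb T J MM (L + 1)) := by
  let G : ℕ → ℕ → Submodule k (MvPolynomial ι k) := fun a b =>
    ((T ^ a * J ^ b).map (lsingle ((a : ℤ), (b : ℤ)))).comap θ.toLinearMap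
  have hG : ∀ a b F, F ∈ G a b ↔ ∃ x ∈ T ^ a * J ^ b, single ((a : ℤ), (b : ℤ)) x = θ F :=
    fun _ _ _ => Iff.rfl
  have h1 : ∀ u : ι →₀ ℕ, ∃ a b, a + b = u.degree ∧ monomial u 1 ∈ G a b := fun u => by
    induction u using Finsupp.induction_linear with
    | zero => exact ⟨0, 0, rfl, 1, by simp [Submodule.one_le.1 le_rfl], (map_one θ).symm⟩
    | add u v hu hv =>
      obtain ⟨a, b, e, x, hx, e1⟩ := hu
      obtain ⟨c, d, f, y, hy, e2⟩ := hv
      refine ⟨a + c, b + d, by rw [map_add]; omega, (hG _ _ _).2 ⟨x * y, ?_, ?_⟩⟩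
      · rw [pow_add, pow_add, mul_mul_mul_comm]; exact Submodule.mul_mem_mul hx hy
      · rw [← mul_one (1 : k), ← monomial_mul, map_mul]
        refine Eq.trans ?_ (congrArg₂ _ e1 e2)
        simp [single_mul_single]
    | single i e =>
      rw [← X_pow_eq_monomial, Finsupp.degree_single]
      obtain ⟨x, hx, e1⟩ | ⟨x, hx, e1⟩ := hθ i
      · exact ⟨e, 0, rfl, (hG _ _ _).2 ⟨x ^ e, by simpa using Submodule.pow_mem_pow _ hx e,
          by simp [e1, single_pow]⟩⟩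
      · exact ⟨0, e, zero_add _, (hG _ _ _).2 ⟨x ^ e, by simpa using Submodule.pow_mem_pow _ hx e,
          by simp [e1, single_pow]⟩⟩
  let π := (Ideal.Quotient.mkₐ k I).toLinearMap
  let s := Finset.range (L + 1) ×ˢ Finset.range (L + 1)
  have h2 : (restrictTotalDegree ι k L).map π ≤ s.sup fun x => (G x.1 x.2).map π := by
    rintro _ ⟨F, hF, rfl⟩
    rw [F.as_sum, map_sum]
    refine Submodule.sum_mem _ fun u hu => ?_
    obtain ⟨a, b, e, h⟩ := h1 u
    have : u.degree ≤ L := (le_totalDegree hu).trans ((mem_restrictTotalDegree _ _ _).1 hF)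
    refine Finset.le_sup (f := fun x : ℕ × ℕ => (G x.1 x.2).map π) (b := (a, b))
      (by simp only [s, Finset.mem_product, Finset.mem_range]; omega) ⟨_, ?_, rfl⟩
    simpa [smul_monomial] using (G a b).smul_mem (coeff u F) h
  have hF := Num.fam_Mb hT hJ hM
  let M := Mb T J MM (L + 1)
  let ψ : K[ℤ × ℤ] →ₐ[K] K := lift K K (ℤ × ℤ) 1
  have h3 : ∀ x ∈ s, ((G x.1 x.2).map π).FG ∧
      Module.finrank k ((G x.1 x.2).map π) ≤ cod (T ^ x.1 * M) (T ^ (x.1 + 1) * M) := by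
    rintro ⟨a, b⟩ hx
    obtain ⟨c, hc⟩ := Nat.exists_eq_add_of_le (Finset.mem_range.1 (Finset.mem_product.1 hx).2).le
    let φ := (T ^ (a + 1) * M).mkQ ∘ₗ LinearMap.mulRight k (m * W ^ c) ∘ₗ
      ((ψ.restrictScalars k).comp θ).toLinearMap ∘ₗ (G a b).subtype
    have e1 : ∀ (F : G a b) x, single ((a : ℤ), (b : ℤ)) x = θ F →
        φ F = (T ^ (a + 1) * M).mkQ (x * (m * W ^ c)) := fun F x e => by
      change (T ^ (a + 1) * M).mkQ (ψ (θ F) * _) = _
      rw [← e, lift_single]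
      simp
    have e2 : LinearMap.range φ ≤ (T ^ a * M).map (T ^ (a + 1) * M).mkQ := by
      rintro _ ⟨F, rfl⟩
      obtain ⟨x, hx, e⟩ := (hG _ _ _).1 F.2
      refine ⟨_, ?_, (e1 F x e).symm⟩
      have : T ^ a * M = T ^ a * J ^ b * (MM * J ^ c * alg T) := by
        simp only [M, Mb]
        rw [show L + 1 = b + c from hc, pow_add]
        ring
      rw [this, ← mul_one (m * W ^ c)]
      exact Submodule.mul_mem_mul hx (Submodule.mul_mem_mul
        (Submodule.mul_mem_mul hm (Submodule.pow_mem_pow _ hW c)) (Num.one_mem_alg T))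
    have e3 : Fd (T ^ a * M) (T ^ (a + 1) * M) := hF.fd' (hF.pow_le _ _) le_rfl
    have := Module.Finite.iff_fg.2 e3
    have e4 := Num.rank_le_of_ker φ (π ∘ₗ (G a b).subtype) (fun F hF => by
      obtain ⟨x, hx, e⟩ := (hG _ _ _).1 F.2
      rw [LinearMap.mem_ker, e1 F x e, Submodule.mkQ_apply, Submodule.Quotient.mk_eq_zero] at hF
      exact Ideal.Quotient.eq_zero_iff_mem.2 (H a b c x F e.symm
        (by rwa [← show L + 1 = b + c from hc]))) (e3.of_le e2)
    rw [LinearMap.range_comp, Submodule.range_subtype] at e4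
    exact ⟨e4.1, e4.2.trans (Submodule.finrank_mono e2)⟩
  have h4 := rank_sup_le s _ fun x hx => (h3 x hx).1
  have := Module.Finite.iff_fg.2 h4.1
  have h5 : ∀ c, ∑ a ∈ Finset.range c, cod (T ^ a * M) (T ^ (a + 1) * M) ≤ cod M (T ^ c * M) :=
    fun c => by
      induction c with
      | zero => simp
      | succ c ih =>
        rw [Finset.sum_range_succ]
        exact (Nat.add_le_add_right ih _).trans (hF.lam_succ (L + 1) c).le
  refine (Submodule.finrank_mono h2).trans (h4.2.trans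
    ((Finset.sum_le_sum fun x hx => (h3 x hx).2).trans ?_))
  rw [Finset.sum_product_right]
  simpa using h5 (L + 1)

end Ss

open Ss MvPolynomial Filter

/-- Module REES. -/
theorem rees_of {k K : Type} [Field k] [Field K] [Algebra k K] [Infinite k] [PerfectField k]
    (cut : CutStmt k) : ReesStmt k K := by
  classical
  intro n μ I I' _ _ t j T J MM ht hj hF hJ0 hM hM0 hS
  have hJ : J.FG := hj ▸ Submodule.fg_span (Set.finite_range _)
  have mt : ∀ i, t i ∈ T := fun i => ht ▸ Submodule.subset_span ⟨i, rfl⟩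
  have mj : ∀ i, j i ∈ J := fun i => hj ▸ Submodule.subset_span ⟨i, rfl⟩
  let v : I ⊕ I' → K[ℤ × ℤ] := Sum.elim (fun i => single (1, 0) (t i)) fun i => single (0, 1) (j i)
  let R := adjoin k (insert (single (-1, 0) 1) (Set.range v))
  have hv : ∀ i, v i ∈ R := fun i => subset_adjoin (Or.inr ⟨i, rfl⟩)
  have h : Ext T J R :=
    { z := subset_adjoin (Or.inl rfl)
      t := fun x hx => (ht.ge.trans (Submodule.span_le (p := R.toSubmodule.comap
        (lsingle (1, 0))) |>.2 (by rintro _ ⟨i, rfl⟩; exact hv (.inl i)))) hx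
      j := fun x hx => (hj.ge.trans (Submodule.span_le (p := R.toSubmodule.comap
        (lsingle (0, 1))) |>.2 (by rintro _ ⟨i, rfl⟩; exact hv (.inr i)))) hx
      le := fun D a b c => adjoin_le (by
        rintro _ (rfl | ⟨i | i, rfl⟩)
        exacts [a, b _ (mt i), c _ (mj i)]) }
  have hR : R.FG := Subalgebra.fg_def.2 ⟨_, (Set.finite_range v).insert _, rfl⟩
  have : FiniteType k R := (Subalgebra.fg_iff_finiteType _).1 hR
  have : IsNoetherianRing R := FiniteType.isNoetherianRing k R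
  let θ : MvPolynomial (I ⊕ I') k →ₐ[k] R := aeval fun i => ⟨v i, hv i⟩
  have θ0 : ∀ i, θ (X i) = ⟨v i, hv i⟩ := aeval_X _
  have θ1 : ∀ (c : I → k) hc, θ (lf Sum.inl c) = ⟨_, h.t (∑ i, c i • t i) hc⟩ := fun c hc =>
    Subtype.ext (by
      change _ = lsingle (R := k) (1, 0) _
      rw [map_sum]
      simp only [map_smul]
      simp [lf, θ0, v, -smul_single])
  have θ2 : ∀ (c : I' → k) hc, θ (lf Sum.inr c) = ⟨_, h.j (∑ i, c i • j i) hc⟩ := fun c hc =>
    Subtype.ext (by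
      change _ = lsingle (R := k) (0, 1) _
      rw [map_sum]
      simp only [map_smul]
      simp [lf, θ0, v, -smul_single])
  have st : ∀ c : I → k, ∑ i, c i • t i ∈ T := fun c =>
    T.sum_mem fun i _ => T.smul_mem _ (mt i)
  have sj : ∀ c : I' → k, ∑ i, c i • j i ∈ J := fun c =>
    J.sum_mem fun i _ => J.smul_mem _ (mj i)
  have hfin := (Ideal.span {(⟨_, h.z⟩ : R)}).finite_minimalPrimes_of_isNoetherianRing
  let s := hfin.toFinset.image fun P => P.comap θ
  have hs : ∀ p, p ∈ s ↔ ∃ P ∈ (Ideal.span {(⟨_, h.z⟩ : R)}).minimalPrimes, P.comap θ = p :=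
    fun p => by simp [s]
  let N : Ideal R → Submodule k K := fun P =>
    ((P.restrictScalars k).map R.val.toLinearMap).comap (lsingle (0, 1))
  have hN : ∀ P x (hx : x ∈ J), x ∈ N P ↔ (⟨_, h.j x hx⟩ : R) ∈ P := fun P x hx =>
    ⟨fun ⟨y, hy, e⟩ => by rwa [← show y = ⟨_, h.j x hx⟩ from Subtype.ext e],
      fun hy => ⟨_, hy, rfl⟩⟩
  refine ⟨s, ?_, fun p hp => ?_, fun c hc => ?_, fun O hO => ?_⟩
  · rw [show 8 ^ (n + 1) * μ = 2 ^ (n + 1) * (4 ^ (n + 1) * μ) by
      rw [← mul_assoc, ← mul_pow]; rfl]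
    refine cut.inf _ _ _ s (fun p hp => ?_) (fun p hp => ?_) ?_
    · obtain ⟨P, hP, rfl⟩ := (hs p).1 hp
      exact hP.1.1.comap _
    · obtain ⟨P, hP, rfl⟩ := (hs p).1 hp
      let f := (Ideal.Quotient.mkₐ k P).comp θ
      have h1 : R ≤ (f.range.comap (Ideal.Quotient.mkₐ k P)).map R.val := adjoin_le (by
        rintro _ (rfl | ⟨i, rfl⟩)
        · exact ⟨⟨_, h.z⟩, ⟨0, (map_zero f).trans (Ideal.Quotient.eq_zero_iff_mem.2
            (hP.1.2 (Ideal.mem_span_singleton_self _))).symm⟩, rfl⟩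
        · exact ⟨⟨_, hv i⟩, ⟨X i, congrArg (Ideal.Quotient.mk P) (θ0 i)⟩, rfl⟩)
      have h2 : Function.Surjective f := fun y => by
        obtain ⟨y, rfl⟩ := Ideal.Quotient.mk_surjective y
        obtain ⟨y', hy, e⟩ := h1 y.2
        rwa [← show y' = y from Subtype.ext e]
      rw [show P.comap θ = RingHom.ker f from Ideal.ext fun _ =>
        (Ideal.Quotient.eq_zero_iff_mem (I := P)).symm, dm,
        AlgEquiv.trdeg_eq (A' := R ⧸ P) (Ideal.quotientKerAlgEquivOfSurjective h2),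
        h.trdeg_quot hR hF hJ0 hP]
    · choose! p hp H using fun P (hP : P ∈ (Ideal.span {(⟨_, h.z⟩ : R)}).minimalPrimes) =>
        have := hP.1.1
        h.exists_gen hM hM0 P (hP.1.2 (Ideal.mem_span_singleton_self _))
      obtain ⟨m, m1, m2⟩ := Num.exists_avoid (J := MM) (hfin.image p)
        (by rintro _ ⟨P, hP, rfl⟩; exact hp P hP)
      obtain ⟨W, W1, W2⟩ := Num.exists_avoid (J := J) (hfin.image N) (by
        rintro _ ⟨P, hP, rfl⟩ hc
        exact h.not_le hR hF hJ0 hP fun x hx => (hN P x hx).1 (hc hx))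
      refine frequently_atTop.2 fun a => ?_
      obtain ⟨L, hL, h1⟩ := frequently_atTop.1 hS (a + 2)
      obtain ⟨L, rfl⟩ : ∃ c, L = c + 1 := ⟨L - 1, by omega⟩
      refine ⟨L, by omega, (hf_le (R.val.comp θ) (fun i => ?_) _ hF.fg hJ hM m1 W1 L
        fun a b c x F e hx => ?_).trans ?_⟩
      · rcases i with i | i
        exacts [.inl ⟨_, mt i, congrArg Subtype.val (θ0 _)⟩,
          .inr ⟨_, mj i, congrArg Subtype.val (θ0 _)⟩]
      · refine Submodule.mem_finsetInf.2 fun q hq => ?_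
        obtain ⟨P, hP, rfl⟩ := (hs q).1 hq
        exact H P hP m m1 (m2 _ ⟨P, hP, rfl⟩) W W1
          (fun hc => W2 _ ⟨P, hP, rfl⟩ ((hN P W W1).2 hc)) a b c x _ e hx
      · calc _ ≤ (L + 1) * (μ * (L + 1) ^ n) := by gcongr
          _ = μ * (L + 1) ^ (n + 1) := by ring
          _ ≤ μ * (4 * L) ^ (n + 1) := by gcongr; omega
          _ = _ := by rw [mul_pow]; ring
  · obtain ⟨P, hP, rfl⟩ := (hs p).1 hp
    by_contra hc
    push Not at hc
    refine h.not_le hR hF hJ0 hP fun x hx => (hN P x hx).1 ((hj.ge.trans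
      (Submodule.span_le.2 ?_)) hx)
    rintro _ ⟨i, rfl⟩
    exact (hN P _ (mj i)).2 (θ0 _ ▸ Ideal.mem_comap.1 (hc i) :)
  · refine h.ss hR hF hJ hJ0 (sj c) fun P hP hW => hc _ ((hs _).2 ⟨P, hP, rfl⟩) ?_
    rwa [Ideal.mem_comap, θ2 c (sj c)]
  · obtain ⟨t₀, a1⟩ : ∃ x, Gn O T x := hO.1.exists_gen hF.fg hF.ne
    obtain ⟨j₀, a2⟩ : ∃ x, Gn O J x := hO.1.exists_gen hJ hJ0
    obtain ⟨κ, _, _, Ψ, b1, b2, b3, b4, b5⟩ := h.res hO a1 a2
    have := RingHom.ker_isPrime Ψ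
    obtain ⟨P, hP, hP'⟩ := Ideal.exists_minimalPrimes_le (J := RingHom.ker Ψ)
      ((Ideal.span_singleton_le_iff_mem _).2 b1)
    refine ⟨RingHom.ker (Ψ.comp θ), RingHom.ker_isPrime _,
      ⟨_, (hs _).2 ⟨P, hP, rfl⟩, fun x hx => hP' hx⟩, ?_, fun c => ?_, fun c => ?_⟩
    · obtain ⟨c, hc⟩ := (Submodule.mem_span_range_iff_exists_fun k).1 (ht.ge a1.1)
      obtain ⟨d, hd⟩ := (Submodule.mem_span_range_iff_exists_fun k).1 (hj.ge a2.1)
      subst hc hd
      have h1 : AlgebraicIndependent k ![Ideal.Quotient.mk (RingHom.ker (Ψ.comp θ)) (lf Sum.inl c),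
          Ideal.Quotient.mk _ (lf Sum.inr d)] := by
        refine .of_comp (Ideal.kerLiftAlg (Ψ.comp θ)) ?_
        convert (ind κ).restrictScalars (algebraMap k κ).injective using 1
        ext1 i
        fin_cases i
        exacts [(congrArg Ψ (θ1 c (st c))).trans b2, (congrArg Ψ (θ2 d (sj d))).trans b3]
      simpa [dm] using h1.cardinalMk_le_trdeg
    · rw [← b4 _ (st c), ← θ1 c (st c)]; rfl
    · rw [← b5 _ (sj c), ← θ2 c (sj c)]; rfl

end Pool.Agent.MP_19ffc6_ag.Res.PF
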