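import Mathlib
import Pool.Agent.MP_19ffc6_ag.Res.FBound
import Pool.Agent.MP_19ffc6_ag.Res.FAll
import Pool.Agent.MP_19ffc6_ag.Res.FRees

/-! PROJECT RES, stage F: the assembly. -/

namespace Pool.Agent.MP_19ffc6_ag.Res.PF

/-- Resolution of singularities over perfect fields of large characteristic. -/
theorem resDim_perf (κ : Type) [Field κ] [PerfectField κ] (p : ℕ) [Fact p.Prime] [CharP κ p]
    (n : ℕ) (hp : 8 ^ (n + 2) ^ 2 < p) : ResDim κ n :=
  P.resDim_perf_of κ p n hp fun _ _ _ _ _ _ _ _ => tpF_of_rees p (rees_of cutS)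

end Pool.Agent.MP_19ffc6_ag.Res.PF
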