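import Pool.Agent.MP_19ffc6_ag.Res.FSpec
import Pool.Agent.MP_19ffc6_ag.Res.FKrull

/-! PROJECT RES, stage F: an element outside the components of the exceptional divisor is exactly
superficial for the filtration by integral closures. -/

namespace Pool.Agent.MP_19ffc6_ag.Res.PF.Ss

open Pool.Agent.MP_19ffc6_ag.Wild Pool.Agent.MP_19ffc6_ag.Res.PA Algebra AddMonoidAlgebra

/-- A principal ideal of a normal Noetherian domain has no embedded primes. -/
theorem exists_minimal {D Ω : Type} [CommRing D] [IsNoetherianRing D] [Field Ω] [Algebra D Ω]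
    [FaithfulSMul D Ω] (hD : ∀ z : Ω, IsIntegral D z → z ∈ (algebraMap D Ω).range) {u w x : D}
    (hu : u ≠ 0) (h : u ∣ w * x) (hx : ¬ u ∣ x) :
    ∃ Q ∈ (Ideal.span {u}).minimalPrimes, w ∈ Q := by
  have hi := FaithfulSMul.algebraMap_injective D Ω
  have := hi.isDomain
  have h0 : algebraMap D Ω u ≠ 0 := (_root_.map_ne_zero_iff _ hi).2 hu
  obtain ⟨Q, h1, h2⟩ := exists_le_isAssociatedPrime_of_isNoetherianRing D
    (Ideal.Quotient.mk (Ideal.span {u}) x)
    fun e => hx (Ideal.mem_span_singleton.1 (Ideal.Quotient.eq_zero_iff_mem.1 e))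
  have h3 : ∀ a y : D, a ∈ (⊥ : Submodule D (D ⧸ Ideal.span {u})).colon
      {Ideal.Quotient.mk (Ideal.span {u}) y} ↔ u ∣ a * y := fun a y => by
    rw [Submodule.mem_colon_singleton, Submodule.mem_bot, ← Ideal.mem_span_singleton,
      ← Ideal.Quotient.eq_zero_iff_mem]
    rfl
  obtain ⟨hQ, y, hy⟩ := isAssociatedPrime_iff.1 h1
  obtain ⟨y, rfl⟩ := Ideal.Quotient.mk_surjective y
  have h4 : ∀ a, a ∈ Q ↔ u ∣ a * y := fun a => hy ▸ h3 a y
  refine ⟨Q, ⟨⟨hQ, (Ideal.span_singleton_le_iff_mem _).2 ((h4 u).2 (dvd_mul_right _ _))⟩,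
    fun Q' ⟨hQ', h5⟩ h6 c hc => ?_⟩, h2 ((h3 _ _).2 h)⟩
  have h7 : u ∈ Q' := (Ideal.span_singleton_le_iff_mem _).1 h5
  obtain ⟨a, ha, b, hb, e⟩ : ∃ a ∈ Q', ∃ b, b ∉ Q' ∧ a * y = u * b := by
    by_contra H
    push Not at H
    obtain ⟨z, hz⟩ := hD (algebraMap D Ω y / algebraMap D Ω u) (isIntegral_of_smul_mem_submodule
      (Submodule.map (Algebra.linearMap D Ω) Q')
      (fun e => h0 ((Submodule.mem_bot D).1 (e.le ⟨u, h7, rfl⟩)))
      ((IsNoetherian.noetherian Q').map _) _ (by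
        rintro _ ⟨a, ha, rfl⟩
        obtain ⟨b, e⟩ := (h4 a).1 (h6 ha)
        refine ⟨b, by_contra fun hb => H a ha b hb e, ?_⟩
        have := congrArg (algebraMap D Ω) e
        simp only [map_mul, Algebra.linearMap_apply, smul_eq_mul] at this ⊢
        field_simp
        rw [mul_comm, ← this, mul_comm]))
    refine hQ.ne_top ((Ideal.eq_top_iff_one _).2 ((h4 1).2 ⟨z, hi ?_⟩))
    rw [one_mul, map_mul, hz, mul_div_cancel₀ _ h0]
  obtain ⟨d, e'⟩ := (h4 c).1 hc
  have : c * b = a * d := mul_left_cancel₀ hu (by linear_combination a * e' - c * e)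
  exact (hQ'.mem_or_mem (this ▸ Q'.mul_mem_right d ha)).resolve_right hb

/-- An element outside the minimal primes over `u` is regular modulo `u` on the normalization. -/
theorem integral_div {k R Ω : Type} [Field k] [PerfectField k] [CommRing R] [Algebra k R]
    [FiniteType k R] [Field Ω] [Algebra k Ω] [Algebra R Ω] [IsScalarTower k R Ω]
    [FaithfulSMul R Ω] [EssFiniteType k Ω] [Algebra.IsAlgebraic R Ω] {u w : R} (hu : u ≠ 0)
    (h : ∀ P ∈ (Ideal.span {u}).minimalPrimes, w ∉ P) {x : Ω} (hx : IsIntegral R x)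
    (hw : IsIntegral R (algebraMap R Ω w * x / algebraMap R Ω u)) :
    IsIntegral R (x / algebraMap R Ω u) := by
  have hi := FaithfulSMul.algebraMap_injective R Ω
  have := hi.isDomain
  have h0 : algebraMap R Ω u ≠ 0 := (_root_.map_ne_zero_iff _ hi).2 hu
  let D := integralClosure R Ω
  have : Module.Finite R D := finite_icl k R Ω
  have : FiniteType k D := .trans (S := R) inferInstance inferInstance
  have : IsNoetherianRing D := FiniteType.isNoetherianRing k D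
  have hi' : Function.Injective (algebraMap R D) := fun a b e => hi (congrArg Subtype.val e)
  have : FaithfulSMul R D := (faithfulSMul_iff_algebraMap_injective _ _).2 hi'
  have h1 : algebraMap R D u ≠ 0 := (_root_.map_ne_zero_iff _ hi').2 hu
  by_contra hc
  obtain ⟨Q, hQ, hwQ⟩ := exists_minimal (D := D) (Ω := Ω)
    (fun z hz => ⟨⟨z, isIntegral_trans z hz⟩, rfl⟩) (u := algebraMap R D u)
    (w := algebraMap R D w) (x := ⟨x, hx⟩) h1
    ⟨⟨_, hw⟩, Subtype.ext (mul_div_cancel₀ _ h0).symm⟩ fun ⟨y, e⟩ => hc (by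
      have e' : x = algebraMap R Ω u * y := congrArg Subtype.val e
      rw [e', mul_div_cancel_left₀ _ h0]; exact y.2)
  have := hQ.1.1
  obtain ⟨P, hP, hPQ⟩ := Ideal.exists_minimalPrimes_le (I := Ideal.span {u}) (J := Q.under R)
    ((Ideal.span_singleton_le_iff_mem _).2 (hQ.1.2 (Ideal.mem_span_singleton_self _)))
  have := hP.1.1
  obtain ⟨P', hP', hPQ'⟩ := Ideal.exists_minimalPrimes_le (I := P ⊔ Ideal.span {w})
    (J := Q.under R) (sup_le hPQ ((Ideal.span_singleton_le_iff_mem _).2 hwQ))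
  have e1 := Kr.krull (k := k) h1 hQ
  have e2 := Kr.krull (k := k) hu hP
  have e3 := Kr.krull' (k := k) (h P hP) hP'
  have e4 : trdeg k D = trdeg k R := by
    rw [← trdeg_add_eq k R (A := D), trdeg_eq_zero (R := R) (A := D), add_zero]
  have e5 : trdeg k (D ⧸ Q) = trdeg k (R ⧸ Q.under R) := by
    rw [← trdeg_add_eq k (R ⧸ Q.under R) (A := D ⧸ Q), trdeg_eq_zero (R := R ⧸ Q.under R)
      (A := D ⧸ Q), add_zero]
  have e6 : trdeg k (R ⧸ Q.under R) ≤ trdeg k (R ⧸ P') :=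
    trdeg_le_of_surjective (Ideal.Quotient.factorₐ k hPQ') (Ideal.Quotient.factor_surjective hPQ')
  have := hP'.1.1
  obtain ⟨a, ha⟩ := Cardinal.lt_aleph0.1 (trdeg_lt_aleph0_of_finiteType (R := k) (S := R ⧸ P'))
  obtain ⟨b, hb⟩ := Cardinal.lt_aleph0.1
    (trdeg_lt_aleph0_of_finiteType (R := k) (S := R ⧸ Q.under R))
  rw [e4, e5, ← e2, ← e3, ha, hb] at e1
  rw [ha, hb] at e6
  have e7 : b + 1 = a + 1 + 1 := by exact_mod_cast e1
  have e8 : b ≤ a := by exact_mod_cast e6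
  omega

variable {k K : Type} [Field k] [Field K] [Algebra k K] {T J : Submodule k K}
  {R : Subalgebra k K[ℤ × ℤ]}

/-- `R` is the extended Rees algebra of `T` and `J`. -/
structure Ext (T J : Submodule k K) (R : Subalgebra k K[ℤ × ℤ]) : Prop where
  z : single (-1, 0) 1 ∈ R
  t : ∀ x ∈ T, single (1, 0) x ∈ R
  j : ∀ x ∈ J, single (0, 1) x ∈ R
  le : ∀ D : Subalgebra k K[ℤ × ℤ], single (-1, 0) 1 ∈ D → (∀ x ∈ T, single (1, 0) x ∈ D) →
    (∀ x ∈ J, single (0, 1) x ∈ D) → R ≤ D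

theorem Ext.mem_FF (h : Ext T J R) {f : K} {c b : ℕ}
    (hf : IsIntegral R (single ((c : ℤ), (b : ℤ)) f : K[ℤ × ℤ])) : f ∈ FF T J c b := by
  intro O hO hT t j ht hj
  let ψ : K[ℤ × ℤ] →ₐ[K] K := lift K K (ℤ × ℤ)
    { toFun := fun x => t ^ (-x.toAdd.1) * j ^ (-x.toAdd.2)
      map_one' := by simp
      map_mul' := fun x y => by
        simp only [toAdd_mul, Prod.fst_add, Prod.snd_add, neg_add, zpow_add₀ ht.2.1,
          zpow_add₀ hj.2.1]
        ring }
  have h1 : ∀ a b x, ψ (single (a, b) x) = x * (t ^ (-a) * j ^ (-b)) := fun a b x =>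
    lift_single _ _ _
  have h2 : R ≤ O.comap (ψ.restrictScalars k) := h.le _
    (by change ψ _ ∈ O; simpa [h1] using hT t ht.1)
    (fun x hx => by change ψ _ ∈ O; simpa [h1, div_eq_mul_inv] using ht.2.2 x hx)
    fun x hx => by change ψ _ ∈ O; simpa [h1, div_eq_mul_inv] using hj.2.2 x hx
  have h3 := hO.mem_of_isIntegral le_rfl
    (hf.map_of_comp_eq ((ψ : K[ℤ × ℤ] →+* K).restrict R O h2) (ψ : K[ℤ × ℤ] →+* K) rfl)
  simpa [h1, div_eq_mul_inv, mul_comm] using h3

theorem Ext.integral (h : Ext T J R) (hT : T.FG) (hT0 : T ≠ ⊥) (hJ : J.FG) (hJ0 : J ≠ ⊥) {f : K}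
    {c b : ℕ} (hf : f ∈ FF T J c b) :
    IsIntegral R (single ((c : ℤ), (b : ℤ)) f : K[ℤ × ℤ]) := by
  let Ω := FractionRing K[ℤ × ℤ]
  let φ := IsScalarTower.toAlgHom k K[ℤ × ℤ] Ω
  have hφ : Function.Injective φ := IsFractionRing.injective K[ℤ × ℤ] Ω
  let ι := IsScalarTower.toAlgHom k K Ω
  have h0 : ∀ x, ι x = φ (single 0 x) := fun _ => rfl
  rw [← isIntegral_algebraMap_iff hφ]
  refine IsIntegral.map_of_comp_eq (R := R.map φ) (R.equivMapOfInjective φ hφ).symm.toRingHom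
    (RingHom.id Ω) (RingHom.ext fun x => ?_) (isIntegral_of_val fun V hV hR => ?_)
  · obtain ⟨y, rfl⟩ := (R.equivMapOfInjective φ hφ).surjective x
    simp only [RingHom.comp_apply, RingEquiv.toRingHom_eq_coe, RingHom.coe_coe,
      AlgEquiv.symm_toRingEquiv, RingHom.id_apply]
    exact congrArg (algebraMap R Ω) ((R.equivMapOfInjective φ hφ).symm_apply_apply y)
  have h1 : ∀ x ∈ R, φ x ∈ V := fun x hx => hR ⟨x, hx, rfl⟩
  have h2 : Val (V.comap ι) := fun x => (hV (ι x)).imp id fun h => by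
    rwa [Subalgebra.mem_comap, map_inv₀]
  obtain ⟨t, t1, t2, t3⟩ := h2.exists_gen hT hT0
  obtain ⟨j, j1, j2, j3⟩ := h2.exists_gen hJ hJ0
  have h3 : ι _ ∈ V := hf _ h2 (fun x hx => by
    have := mul_mem (h1 _ (h.t x hx)) (h1 _ h.z)
    rwa [← map_mul, single_mul_single, mul_one] at this) t j ⟨t1, t2, t3⟩ ⟨j1, j2, j3⟩
  have h4 := mul_mem h3 (mul_mem (pow_mem (h1 _ (h.t t t1)) c) (pow_mem (h1 _ (h.j j j1)) b))
  rw [h0, ← map_pow, ← map_pow, ← map_mul, ← map_mul, single_pow, single_pow, single_mul_single,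
    single_mul_single, div_mul_cancel₀ _ (mul_ne_zero (pow_ne_zero _ t2) (pow_ne_zero _ j2))] at h4
  change φ _ ∈ V
  simpa using h4

theorem Ext.isAlgebraic {n : ℕ} (h : Ext T J R) (hF : Fld n T) (hJ0 : J ≠ ⊥) :
    Algebra.IsAlgebraic R (FractionRing K[ℤ × ℤ]) := by
  let Ω := FractionRing K[ℤ × ℤ]
  let φ := algebraMap K[ℤ × ℤ] Ω
  let ι := IsScalarTower.toAlgHom k K K[ℤ × ℤ]
  have h1 : adjoin k (T : Set K) ≤ R.comap ι := adjoin_le fun x hx => by
    have := mul_mem (h.t x hx) h.z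
    rwa [single_mul_single, mul_one] at this
  have h2 : ∀ x : K, IsAlgebraic R (φ (single 0 x)) := fun x =>
    (hF.alg.isAlgebraic x).ringHom_of_comp_eq ((ι : K →+* K[ℤ × ℤ]).restrict _ R h1)
      (algebraMap K Ω)
      (fun _ _ e => Subtype.ext (ι.injective (congrArg Subtype.val e))) rfl
  have h3 : ∀ x ∈ R, IsAlgebraic R (φ x) := fun x hx => isAlgebraic_algebraMap (⟨x, hx⟩ : R)
  have h4 : ∀ (x : Ω) (a : ℤ), IsAlgebraic R x → IsAlgebraic R (x ^ a) := fun x a hx => by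
    obtain ⟨a, rfl | rfl⟩ := a.eq_nat_or_neg
    · rw [zpow_natCast]; exact hx.pow a
    · rw [zpow_neg, zpow_natCast]; exact (hx.pow a).inv
  let χ : Multiplicative (ℤ × ℤ) →* Ω := φ.toMonoidHom.comp (of K (ℤ × ℤ))
  obtain ⟨j, j1, j2⟩ := Submodule.exists_mem_ne_zero_of_ne_bot hJ0
  have h5 : IsAlgebraic R (χ (.ofAdd (0, 1))) := by
    have := (h3 _ (h.j j j1)).mul (h2 j⁻¹)
    rwa [← map_mul, single_mul_single, mul_inv_cancel₀ j2, add_zero] at this
  have h6 : ∀ x, IsAlgebraic R (φ x) := fun x => by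
    induction x using induction_linear with
    | zero => rw [map_zero]; exact isAlgebraic_zero
    | add a b ha hb => rw [map_add]; exact ha.add hb
    | single g x =>
      have := (h2 x).mul ((h4 (χ (.ofAdd (-1, 0))) (-g.1) (h3 _ h.z)).mul (h4 _ g.2 h5))
      rw [← map_zpow χ, ← map_zpow χ, ← map_mul, ← ofAdd_zsmul, ← ofAdd_zsmul, ← ofAdd_add] at this
      change IsAlgebraic R (_ * φ (single _ 1)) at this
      rw [← map_mul, single_mul_single] at this
      simpa using this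
  refine ⟨fun x => ?_⟩
  obtain ⟨a, b, -, rfl⟩ := IsFractionRing.div_surjective K[ℤ × ℤ] x
  rw [div_eq_mul_inv]
  exact (h6 a).mul (h6 b).inv

/-- The clause `SS` of the module REES. -/
theorem Ext.ss [PerfectField k] {n : ℕ} (h : Ext T J R) (hR : R.FG) (hF : Fld n T) (hJ : J.FG)
    (hJ0 : J ≠ ⊥) {W : K} (hW : W ∈ J)
    (H : ∀ P ∈ (Ideal.span {(⟨_, h.z⟩ : R)}).minimalPrimes, (⟨_, h.j W hW⟩ : R) ∉ P) :
    SS T J W := by
  intro c b f h1 h2
  let Ω := FractionRing K[ℤ × ℤ]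
  have hφ : Function.Injective (algebraMap K[ℤ × ℤ] Ω) := IsFractionRing.injective K[ℤ × ℤ] Ω
  have := h.isAlgebraic hF hJ0
  have := hF.eft
  have : EssFiniteType k Ω := .comp k K Ω
  have : FiniteType k R := (Subalgebra.fg_iff_finiteType _).1 hR
  have h3 : ∀ (a b : ℤ) (x : K), algebraMap K[ℤ × ℤ] Ω (single (a, b) x) /
      algebraMap R Ω ⟨_, h.z⟩ = algebraMap K[ℤ × ℤ] Ω (single (a + 1, b) x) := fun a b x => by
    refine div_eq_of_eq_mul ((_root_.map_ne_zero_iff _ hφ).2 (single_ne_zero.2 one_ne_zero)) ?_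
    change _ = _ * algebraMap K[ℤ × ℤ] Ω (single _ _)
    rw [← map_mul, single_mul_single]
    simp
  have h4 := integral_div (k := k) (Ω := Ω)
    (fun e => single_ne_zero.2 one_ne_zero (congrArg Subtype.val e)) H
    (h.integral hF.fg hF.ne hJ hJ0 h1).algebraMap (by
      change IsIntegral R (algebraMap K[ℤ × ℤ] Ω (single _ _) * _ / _)
      rw [← map_mul, single_mul_single, Prod.mk_add_mk, h3]
      simpa [add_comm] using (h.integral hF.fg hF.ne hJ hJ0 h2).algebraMap (B := Ω))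
  rw [h3, isIntegral_algebraMap_iff hφ] at h4
  exact h.mem_FF (by simpa using h4)

end Pool.Agent.MP_19ffc6_ag.Res.PF.Ss
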