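import Pool.Agent.MP_19ffc6_ag.Res.ASpec
import Pool.Agent.MP_19ffc6_ag.Res.Codim

/-! PROJECT RES, part A, module FINX: a good tuple defines a covering of projective space of
bounded local degree. -/

namespace Pool.Agent.MP_19ffc6_ag.Res.PA

open Pool.Agent.MP_19ffc6_ag.Wild Submodule Pool.Agent.MP_19ffc6_ag.Res.PA.Num

variable {k K : Type} [Field k] [Field K] [Algebra k K] {m : ℕ}

namespace FinX

variable {d : Fin (m + 1) → Derivation k K K} {V T : Submodule k K} {σ : K}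

/-- A tuple with nonzero Wronskian has coordinates with nonzero Jacobian in every chart. -/
lemma jac_ne {s : Fin (m + 2) → K} (h : Wr d s ≠ 0) (j : Fin (m + 2)) (c : Fin (m + 1) → k) :
    s j ≠ 0 ∧ Jac d (fun i => (s (j.succAbove i) - c i • s j) / s j) ≠ 0 := by
  have h0 : s j ≠ 0 := fun e => h (Matrix.det_eq_zero_of_row_eq_zero j fun l => by
    refine Fin.cases ?_ (fun l => ?_) l <;> simp [e])
  refine ⟨h0, fun e => h ?_⟩
  have h1 : Jac d (fun i => s (j.succAbove i) / s j) = 0 := by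
    rw [← e, Jac, Jac]
    congr 1
    ext i l
    simp only [Matrix.of_apply]
    rw [sub_div, smul_div_assoc, div_self h0, map_sub, Derivation.map_smul, Derivation.map_one_eq_zero,
      smul_zero, sub_zero]
  have h2 := (wrA d).map_perm s (Fin.cycleRange j).symm
  have h3 : s ∘ (Fin.cycleRange j).symm = Fin.cons (s j) fun i => s (j.succAbove i) := by
    funext i
    refine Fin.cases ?_ (fun i => ?_) i <;> simp
  rw [h3, wrA_apply, wrA_apply, wr_cons_div h0, h1, mul_zero] at h2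
  rcases Int.units_eq_one_or (Equiv.Perm.sign (Fin.cycleRange j).symm) with e | e <;>
    simpa [e] using h2.symm

lemma div_mem (h : Hyp V σ T) {v : K} (hv : v ∈ V) : v / σ ∈ 1 ⊔ T := by
  rw [h.eq] at hv
  obtain ⟨x, hx, rfl⟩ := mem_pr_mul.1 hv
  rwa [mul_div_cancel_left₀ _ h.ne]

lemma sup_le_alg (T : Submodule k K) : 1 ⊔ T ≤ alg T :=
  sup_le (Submodule.one_le.2 (one_mem_alg T)) fun _ hx => Algebra.subset_adjoin hx

lemma mul_alg {a b : K} (ha : a ∈ alg T) (hb : b ∈ alg T) : a * b ∈ alg T :=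
  (Algebra.adjoin k (T : Set K)).mul_mem ha hb

lemma div_pow_alg (h : Hyp V σ T) (n : ℕ) {x : K} (hx : x ∈ V ^ n) : x / σ ^ n ∈ alg T := by
  induction hx using Submodule.pow_induction_on_left' with
  | algebraMap c =>
    rw [pow_zero, div_one]
    exact (Algebra.adjoin k (T : Set K)).algebraMap_mem c
  | add x y n _ _ h1 h2 => rw [add_div]; exact add_mem h1 h2
  | mem_mul v hv n x _ h1 =>
    rw [pow_succ', mul_div_mul_comm]
    exact mul_alg (sup_le_alg T (div_mem h hv)) h1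

lemma jj_ne (h : Hyp V σ T) (hW : WW d V ≠ ⊥) : JJ d T ≠ ⊥ := by
  intro e
  refine hW (eq_bot_iff.2 fun x hx => ?_)
  have := div_pow_mem' (d := d) (T := T) h.ne (fun v hv => sup_comm (1 : Submodule k K) T ▸
    div_mem h hv) hx
  rw [e, mul_bot, mem_bot, div_eq_zero_iff] at this
  exact this.resolve_right (pow_ne_zero _ h.ne)

/-- A finite dimensional space that spans `K` over the function field of the image of `V`. -/
lemma spn {t : Fin (m + 1) → K} (hF : Fr t d) (hW : WW d V ≠ ⊥) :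
    ∃ M₀ : Submodule k K, M₀.FG ∧ Spn V M₀ := by
  obtain ⟨v, hv, h0⟩ : ∃ v : Fin (m + 2) → K, (∀ i, v i ∈ V) ∧ Wr d v ≠ 0 := by
    by_contra hc
    push Not at hc
    exact hW (eq_bot_iff.2 (WW_le fun v hv => hc v hv))
  obtain ⟨h1, h2⟩ := jac_ne h0 0 0
  have h3 := (hF.of_jac h2).fin
  set F := IntermediateField.adjoin k
    (Set.range fun i : Fin (m + 1) => (v ((0 : Fin (m + 2)).succAbove i) - (0 : Fin (m + 1) → k) i
      • v 0) / v 0) with hFd
  let b := Module.finBasis F K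
  refine ⟨span k (Set.range b), fg_span (Set.finite_range b), fun σ T hH z => ?_⟩
  have h4 : F ≤ IntermediateField.adjoin k (T : Set K) := by
    have h5 : ∀ i, v i / σ ∈ IntermediateField.adjoin k (T : Set K) := fun i =>
      IntermediateField.algebra_adjoin_le_adjoin k _ (sup_le_alg T (div_mem hH (hv i)))
    rw [hFd, IntermediateField.adjoin_le_iff]
    rintro _ ⟨i, rfl⟩
    have := _root_.div_mem (h5 ((0 : Fin (m + 2)).succAbove i)) (h5 0)
    rw [div_div_div_cancel_right₀ hH.ne] at this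
    simpa using this
  have h6 : z ∈ span F (Set.range b) := b.span_eq ▸ mem_top
  induction h6 using span_induction with
  | mem x hx =>
    exact ⟨1, one_mem_alg T, one_ne_zero, mul_mem_mul (one_mem_alg T) (subset_span hx)⟩
  | zero => exact ⟨1, one_mem_alg T, one_ne_zero, by simp⟩
  | add x y _ _ hx hy =>
    obtain ⟨a, ha, ha0, hx⟩ := hx
    obtain ⟨a', ha', ha0', hy⟩ := hy
    refine ⟨a * a', mul_alg ha ha', mul_ne_zero ha0 ha0', ?_⟩
    rw [show a * a' * (x + y) = a' * (a * x) + a * (a' * y) by ring]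
    exact add_mem (mul_mem_alg ha' hx) (mul_mem_alg ha hy)
  | smul c x _ hx =>
    obtain ⟨a, ha, ha0, hx⟩ := hx
    obtain ⟨p, hp, q, hq, e⟩ := IntermediateField.mem_adjoin_iff_div.1 (h4 c.2)
    by_cases hq0 : q = 0
    · refine ⟨1, one_mem_alg T, one_ne_zero, ?_⟩
      rw [IntermediateField.smul_def, e, hq0]
      simp
    refine ⟨a * q, mul_alg ha hq, mul_ne_zero ha0 hq0, ?_⟩
    rw [IntermediateField.smul_def, e, smul_eq_mul,
      show a * q * (p / q * x) = p * (a * x) by field_simp]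
    exact mul_mem_alg hp hx

/-- A specialization of a valuation that is rational on finitely many given elements. -/
lemma exists_spec [IsAlgClosed k] {N : Type} [Field N] [Algebra k N] {O : Subalgebra k N}
    (hO : Val O) {G : Set N} (hG : G.Finite) (h : ∀ g ∈ G, g ∈ O) :
    ∃ W : ValuationSubring N, ∀ x ∈ Algebra.adjoin k G, x ∈ W ∧
      (∃ c : k, W.valuation (x - algebraMap k N c) < 1) ∧ (¬ Un O x → W.valuation x < 1) := by
  have : Algebra.FiniteType k (Algebra.adjoin k G) :=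
    (Subalgebra.fg_iff_finiteType _).1 (Subalgebra.fg_def.2 ⟨G, hG, rfl⟩)
  have h1 : Algebra.adjoin k G ≤ O := Algebra.adjoin_le h
  obtain ⟨y, hy⟩ := Codim.exists_pt_val hO.vs (Algebra.adjoin k G).val fun x => h1 x.2
  obtain ⟨W, h2, h3⟩ := Codim.exists_val (Algebra.adjoin k G).val y fun x hx => hy x (by
    rw [hx, map_zero]; exact zero_lt_one)
  refine ⟨W, fun x hx => ⟨h2 ⟨x, hx⟩, ⟨y ⟨x, hx⟩, ?_⟩, fun hu => h3 ⟨x, hx⟩ (hy _ ?_)⟩⟩
  · exact h3 (⟨x, hx⟩ - algebraMap k _ (y ⟨x, hx⟩)) (by simp)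
  · by_contra hc
    have h4 : hO.vs.valuation x = 1 :=
      le_antisymm (hO.vs.valuation_le_one ⟨x, h1 hx⟩) (not_lt.1 hc)
    refine hu ⟨h1 hx, fun e => by simp [e] at h4, ?_⟩
    rw [← hO.mem_vs, ← ValuationSubring.valuation_le_one_iff, map_inv₀, h4, inv_one]

/-- The elements of positive value. -/
def pos {N : Type} [Field N] [Algebra k N] (W : ValuationSubring N)
    (h : ∀ c, algebraMap k N c ∈ W) : Ideal (ofVs W h) where
  carrier := {x | W.valuation (x : N) < 1}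
  zero_mem' := by simp
  add_mem' := fun ha hb => W.valuation.map_add_lt ha hb
  smul_mem' := fun c x hx => by
    have h1 : W.valuation (c : N) ≤ 1 := (W.valuation_le_one_iff _).2 c.2
    change W.valuation ((c : N) * x) < 1
    rw [map_mul]
    exact mul_lt_one_of_nonneg_of_lt_one_right h1 zero_le hx

/-- The local degrees are bounded. -/
lemma cong [IsAlgClosed k] (hL : LowStmt k) {t : Fin (m + 1) → K} {S B : Finset K} {C : ℕ}
    {M₀ : Submodule k K} {s : Fin (m + 2) → K} (hF : Fr t d) (hW : WW d V ≠ ⊥) (hM : Spn V M₀)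
    (hT : Tup d S C V M₀ B s) : Cong k K (Set.range (crd s)) C := by
  classical
  intro N _ _ O hO Φ φ₀ hΦ
  have hB : B.Nonempty := Finset.nonempty_iff_ne_empty.2 fun e => hW (by
    rw [← hT.span, e]
    exact eq_bot_iff.2 (WW_le fun v hv => by_contra fun h0 => (jac_ne h0 0 0).1 (by
      simpa using hv 0)))
  have hO' : Val (O.comap φ₀) := fun x => by
    simpa only [Subalgebra.mem_comap, map_inv₀] using hO (φ₀ x)
  obtain ⟨σ, hσ, hmin⟩ := hO'.exists_min hB hT.ne
  have hσ0 := hT.ne σ hσ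
  let G : Set N := ⋃ φ ∈ insert φ₀ Φ, (fun b => φ (b / σ)) '' B
  have hG : G.Finite := (insert φ₀ Φ).finite_toSet.biUnion fun φ _ => B.finite_toSet.image _
  obtain ⟨W, hW'⟩ := exists_spec hO hG (by
    intro g hg
    simp only [G, Set.mem_iUnion] at hg
    obtain ⟨φ, hφ, b, hb, rfl⟩ := hg
    rcases Finset.mem_insert.1 hφ with rfl | hφ
    exacts [hmin b hb, ((hΦ φ hφ).2 _ (hmin b hb)).1])
  have hk : ∀ c, algebraMap k N c ∈ W := fun c => (hW' _ (Subalgebra.algebraMap_mem _ c)).1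
  have hGV : ∀ φ ∈ insert φ₀ Φ, ∀ v ∈ V, φ (v / σ) ∈ Algebra.adjoin k G := fun φ hφ v hv =>
    div_mem_of_span (O := (Algebra.adjoin k G).comap φ) (T := B) (fun b hb =>
      Algebra.subset_adjoin (Set.mem_biUnion hφ ⟨b, hb, rfl⟩)) (hT.span ▸ hv)
  have hOV : ∀ v ∈ V, φ₀ (v / σ) ∈ O := fun v hv =>
    div_mem_of_span (O := O.comap φ₀) (T := B) hmin (hT.span ▸ hv)
  let P : Submodule k K := (((pos W hk).restrictScalars k).map (ofVs W hk).val.toLinearMap).comap
    φ₀.toLinearMap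
  have hP : ∀ x, x ∈ P ↔ W.valuation (φ₀ x) < 1 := fun x =>
    ⟨fun ⟨b, hb, e⟩ => by
      have e' : (b : N) = φ₀ x := e
      rw [← e']; exact hb, fun hx => ⟨⟨φ₀ x, (W.valuation_le_one_iff _).1 hx.le⟩, hx, rfl⟩⟩
  let U : Submodule k K := V.map (LinearMap.mulRight k σ⁻¹)
  have hU : ∀ u, u ∈ U ↔ ∃ v ∈ V, v / σ = u := fun u => by
    simp only [U, mem_map, LinearMap.mulRight_apply, div_eq_mul_inv]
  have hVfg : V.FG := ⟨B, hT.span⟩
  have hσV : σ ∈ V := hT.span ▸ subset_span hσ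
  let T := U ⊓ P
  have hTfg : T.FG := by
    have : Module.Finite k U := Module.Finite.iff_fg.2 (hVfg.map _)
    exact Module.Finite.iff_fg.1 (finiteDimensional_of_le (S₂ := U) inf_le_left)
  have hU1 : (1 : K) ∈ U := (hU 1).2 ⟨σ, hσV, div_self hσ0⟩
  have hUT : U = 1 ⊔ T := by
    refine le_antisymm (fun u hu => ?_) (sup_le (Submodule.one_le.2 hU1) inf_le_left)
    obtain ⟨v, hv, rfl⟩ := (hU u).1 hu
    obtain ⟨c, hc⟩ := (hW' _ (hGV φ₀ (Finset.mem_insert_self _ _) v hv)).2.1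
    have h1 : algebraMap k K c ∈ (1 : Submodule k K) := mem_one.2 ⟨c, rfl⟩
    refine mem_sup.2 ⟨_, h1, v / σ - algebraMap k K c, ⟨sub_mem hu (Submodule.one_le.2 hU1 h1), ?_⟩,
      add_sub_cancel _ _⟩
    rw [SetLike.mem_coe, hP, map_sub, AlgHom.commutes]
    exact hc
  have hP1 : (1 : K) ∉ P := by simp [hP]
  have hH : Hyp V σ T := by
    refine ⟨hσ0, ?_, fun h => hP1 h.2⟩
    rw [← hUT]
    ext x
    rw [mem_pr_mul]
    refine ⟨fun hx => ⟨_, (hU _).2 ⟨x, hx, rfl⟩, mul_div_cancel₀ _ hσ0⟩, ?_⟩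
    rintro ⟨u, hu, rfl⟩
    obtain ⟨v, hv, rfl⟩ := (hU u).1 hu
    rwa [mul_div_cancel₀ _ hσ0]
  have hA : ∀ a ∈ alg T, W.valuation (φ₀ a) ≤ 1 := fun a ha =>
    (W.valuation_le_one_iff _).2 (Algebra.adjoin_le (S := (ofVs W hk).comap φ₀) (fun x hx =>
      (W.valuation_le_one_iff _).1 ((hP x).1 hx.2).le) ha)
  have hn : nn T ≤ P := mul_le.2 fun x hx a ha => by
    rw [hP, map_mul, map_mul]
    exact mul_lt_one_of_nonneg_of_lt_one_left zero_le ((hP x).1 hx.2) (hA a ha)
  have hAt := hT.pt σ hσ T hH fun h => hP1 (hn h)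
  have hS : ∀ j, s j / σ ^ (m + 2) ∈ alg T := fun j => div_pow_alg hH _ (hT.mem j)
  have hc : ∀ j, ∃ c : k, s j / σ ^ (m + 2) - algebraMap k K c ∈ nn T := fun j => by
    obtain ⟨x, hx, y, hy, e⟩ := mem_sup.1 (alg_le T (hS j))
    obtain ⟨c, rfl⟩ := mem_one.1 hx
    exact ⟨c, by rw [← e, add_sub_cancel_left]; exact hy⟩
  choose c hc using hc
  obtain ⟨j, hj⟩ := hAt.bpf
  have hc0 : c j ≠ 0 := fun e => hj (by simpa [e] using hc j)
  have hg : ∀ i, s (j.succAbove i) / σ ^ (m + 2) - (c (j.succAbove i) / c j) •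
      (s j / σ ^ (m + 2)) ∈ nn T := fun i => by
    have := sub_mem (hc (j.succAbove i)) (smul_mem _ (c (j.succAbove i) / c j) (hc j))
    rwa [smul_sub, Algebra.algebraMap_eq_smul_one (c j), smul_smul, div_mul_cancel₀ _ hc0,
      ← Algebra.algebraMap_eq_smul_one, sub_sub_sub_cancel_right] at this
  obtain ⟨MM, b, hMM, hle, hLd⟩ := hAt.cx j (fun i => c (j.succAbove i) / c j) hj hg
  have hWr : Wr d (fun j => s j / σ ^ (m + 2)) ≠ 0 := fun e =>
    hT.wr (by rw [wr_div (pow_ne_zero (m + 2) hσ0), e, mul_zero])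
  obtain ⟨h1, h2⟩ := jac_ne hWr j fun i => c (j.succAbove i) / c j
  have h3 := hF.of_jac h2
  have h4 := h3.fin
  have hv1 : W.valuation (φ₀ (s j / σ ^ (m + 2))) = 1 := by
    have h5 := (hP _).1 (hn (hc j))
    have h6 : W.valuation (algebraMap k N (c j)) = 1 := by
      refine le_antisymm ((W.valuation_le_one_iff _).2 (hk _)) ?_
      have := (W.valuation_le_one_iff _).2 (hk (c j)⁻¹)
      rw [map_inv₀, map_inv₀] at this
      exact (inv_le_one₀ (zero_lt_iff.2 (by simpa using hc0))).1 this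
    rw [map_sub, AlgHom.commutes, ← h6] at h5
    rw [← h6]
    exact W.valuation.map_eq_of_sub_lt h5
  have hs0 := (jac_ne hT.wr 0 0).1
  have key := hL K N (m + 1) C T (MM * JJ d T ^ b) _ _ (ofVs W hk) (pos W hk) Φ hTfg
    (hMM.mul ((JJ_fg hTfg).pow b)) (fun z => ?_) (hS j) h1
    (fun i => sub_mem (hS _) (smul_mem _ _ (hS j))) h3.ind h4
    (fun e => ?_) (fun φ hφ x hx => ?_) (fun i => ?_) hLd
  · exact (Nat.le_mul_of_pos_right _ (Nat.pos_of_ne_zero (NeZero.ne _))).trans key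
  · obtain ⟨w, hw, hw0⟩ := exists_mem_ne_zero_of_ne_bot (jj_ne hH hW)
    obtain ⟨a, ha, ha0, hz⟩ := hM σ T hH (z / w ^ b)
    refine ⟨a, ha, ha0, ?_⟩
    have := mul_mem_mul (mul_le_mul_right hle _ hz) (pow_mem_pow _ hw b)
    rwa [mul_assoc a, div_mul_cancel₀ _ (pow_ne_zero _ hw0), mul_assoc] at this
  · have : (1 : ofVs W hk) ∈ pos W hk := e ▸ mem_top
    exact absurd this (by change ¬ W.valuation 1 < 1; simp)
  · obtain ⟨v, hv, rfl⟩ := (hU x).1 hx.1
    have h5 := hGV φ (Finset.mem_insert_of_mem hφ) v hv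
    have h6 := (hW' _ (sub_mem h5 (hGV φ₀ (Finset.mem_insert_self _ _) v hv))).2.2
      ((hΦ φ hφ).2 _ (hOV v hv)).2
    refine ⟨⟨_, (hW' _ h5).1⟩, ?_, rfl⟩
    have := W.valuation.map_add_lt h6 ((hP _).1 hx.2)
    rwa [sub_add_cancel] at this
  · have h5 := (hP _).1 (hn (hg i))
    have h6 : W.valuation (φ₀ ((s (j.succAbove i) / σ ^ (m + 2) - (c (j.succAbove i) / c j) •
        (s j / σ ^ (m + 2))) / (s j / σ ^ (m + 2)))) < 1 := by
      rwa [map_div₀, map_div₀, hv1, div_one]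
    refine ⟨⟨_, (W.valuation_le_one_iff _).1 h6.le⟩, h6, fun φ hφ => ?_⟩
    have h7 : ∀ a, φ (s a / s 0) = φ₀ (s a / s 0) := fun a => by
      refine Fin.cases ?_ (fun a => (hΦ φ hφ).1 _ ⟨a, rfl⟩) a
      rw [div_self hs0, map_one, map_one]
    have h8 : (s (j.succAbove i) / σ ^ (m + 2) - (c (j.succAbove i) / c j) •
        (s j / σ ^ (m + 2))) / (s j / σ ^ (m + 2)) = s (j.succAbove i) / s 0 / (s j / s 0) -
          algebraMap k K (c (j.succAbove i) / c j) := by
      rw [sub_div, smul_div_assoc, div_self h1, div_div_div_cancel_right₀ (pow_ne_zero _ hσ0),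
        div_div_div_cancel_right₀ hs0, Algebra.algebraMap_eq_smul_one]
    change φ₀ _ = _
    rw [h8, map_sub, map_sub, map_div₀ φ, map_div₀ φ₀, h7, h7, AlgHom.commutes, AlgHom.commutes]

end FinX

/-- Module FINX. -/
theorem finX_of [IsAlgClosed k] (h : LowStmt k) : FinXStmt k K m where
  spn _ _ _ hF hW := FinX.spn hF hW
  cov t d S C V M₀ B s hF hW hM hT := by
    have h1 := (FinX.jac_ne hT.wr 0 0).2
    simp only [Pi.zero_apply, zero_smul, sub_zero, Fin.zero_succAbove] at h1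
    have h2 := hF.of_jac h1
    exact ⟨h2.ind, h2.fin, h2.sep, FinX.cong h hF hW hM hT⟩

end Pool.Agent.MP_19ffc6_ag.Res.PA
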