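import Pool.Agent.MP_19ffc6_ag.Res.ASpec
import Pool.Agent.MP_19ffc6_ag.Res.Div

/-! PROJECT RES, part A: the potential drops at a bad point. -/

namespace Pool.Agent.MP_19ffc6_ag.Res.PA

open Submodule Module Filter Pool.Agent.MP_19ffc6_ag.Res.PA.Num St

variable {k K : Type} [Field k] [Field K] [Algebra k K] {m : ℕ}

theorem div_stmt : DivStmt k K := fun G => by
  obtain ⟨E, h1, h2⟩ := St.div' G
  refine ⟨E, h1, fun MM A A' a b c d e f => ?_⟩
  obtain ⟨c, hc⟩ := h2 MM A A' a b c d e f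
  exact ⟨c, fun U hU L => by rw [mul_assoc, mul_assoc, add_comm]; exact hc U hU L⟩

namespace St

variable {d : Fin (m + 1) → Derivation k K K} {S : Finset K} {V V' T MM : Submodule k K} {σ : K}
  {w : DV k K}

theorem pow_le_alg (T : Submodule k K) (L : ℕ) : T ^ L ≤ alg T := by
  induction L with
  | zero => exact one_le.2 (one_mem_alg T)
  | succ L ih =>
    rw [pow_succ]
    exact mul_le.2 fun _ hx _ hy =>
      (Algebra.adjoin k (T : Set K)).mul_mem (ih hx) (Algebra.subset_adjoin hy)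

theorem alg_pow_le (T : Submodule k K) (L : ℕ) : alg T ^ L ≤ alg T := by
  induction L with
  | zero => exact one_le.2 (one_mem_alg T)
  | succ L ih =>
    rw [pow_succ]
    exact mul_le.2 fun _ hx _ hy => (Algebra.adjoin k (T : Set K)).mul_mem (ih hx) hy

theorem alg_le_pow (T : Submodule k K) (L : ℕ) : alg T ≤ (1 ⊔ T) ^ L ⊔ T ^ L * alg T := by
  induction L with
  | zero => rw [pow_zero T, one_mul]; exact le_sup_right
  | succ L ih =>
    have h1 : (1 ⊔ T) ^ L ≤ (1 ⊔ T) ^ (L + 1) := by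
      conv_lhs => rw [← mul_one ((1 ⊔ T) ^ L)]
      rw [pow_succ]
      exact mul_le_mul_right le_sup_left _
    refine ih.trans (sup_le (h1.trans le_sup_left) ((mul_le_mul_right (alg_le T) _).trans ?_))
    rw [Submodule.mul_sup, mul_one, ← mul_assoc, ← pow_succ]
    exact sup_le_sup_right (le_trans (by gcongr; exact le_sup_right) h1) _

theorem pr_pow (σ : K) (n : ℕ) : pr k σ ^ n = pr k (σ ^ n) := by
  rw [pr, pr, span_pow, Set.singleton_pow]

theorem mul_mem_pr {x : K} (hx : x ∈ T) : σ * x ∈ pr k σ * T := mem_pr_mul.2 ⟨x, hx, rfl⟩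

theorem div_mem_of_pr (hσ : σ ≠ 0) {x : K} (hx : x ∈ pr k σ * T) : x / σ ∈ T := by
  obtain ⟨y, hy, rfl⟩ := mem_pr_mul.1 hx
  rwa [mul_div_cancel_left₀ _ hσ]

theorem hyp_fg (h : Hyp V σ T) (hV : V.FG) : T.FG :=
  fg_of_le (hV.map (LinearMap.mulRight k σ⁻¹)) fun x hx =>
    ⟨σ * x, h.le (mul_mem_pr hx), (div_eq_mul_inv _ _).symm.trans (mul_div_cancel_left₀ x h.ne)⟩

theorem hyp_mem (h : Hyp V σ T) : σ ∈ V := by
  simpa [← h.eq] using mul_mem_pr (σ := σ) (mem_sup_left (T := T) (one_le.1 le_rfl))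

/-- A divisor that becomes ramified is a fixed divisor of the Wronskians. -/
theorem new_lt (hV : V.FG) (hle : V' ≤ V) (hW : WW d V' ≠ ⊥) (he : w.ordS V' = w.ordS V)
    (h1 : w ∈ DD d S V') (h2 : w ∉ DD d S V) : w.ordS (WW d V) < w.ordS (WW d V') := by
  have hV' := fg_of_le hV hle
  obtain ⟨⟨τ, hτ, g₀, h3, h4⟩, h5⟩ := h1
  have h6 : Prm m V w := ⟨τ, ⟨hle hτ.1, hτ.2.1, hτ.2.2.trans he⟩, g₀, fun i => hle (h3 i), h4⟩
  obtain ⟨h7, h8⟩ := not_or.1 fun h => h2 ⟨h6, h⟩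
  obtain ⟨ρ, hρ, g, h9, hD⟩ := not_not.1 h8
  let T' := V'.comap (LinearMap.mulLeft k τ)
  have a1 : T' ≤ w.fil 0 := fun x hx => (mul_mem_fil hτ.2.1).1 (by
    rw [add_zero, hτ.2.2]; exact le_fil_ordS w hV' hx)
  have a2 : JJ d T' ≤ w.fil (w.ord (Jac d g) + 1) := fun x hx => by
    by_contra hc
    obtain ⟨h, b1, b2⟩ := exists_jac_unit hD a1 hx fun e => hc (by
      rw [← mul_div_cancel₀ x hD.jac_ne]; exact (mul_mem_fil hD.jac_ne).2 e)
    exact h5.resolve_left h7 ⟨τ, hτ, h, b1, b2⟩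
  have a3 : WW d V' ≤ w.fil (w.ord (τ ^ (m + 2)) + (0 + (w.ord (Jac d g) + 1))) := fun x hx => by
    rw [← mul_div_cancel₀ x (pow_ne_zero (m + 2) hτ.2.1)]
    exact (mul_mem_fil (pow_ne_zero _ hτ.2.1)).2 (mul_le_fil a1 a2 (div_pow_mem hτ.2.1
      (fun v hv => by simpa [T', mul_div_cancel₀ _ hτ.2.1] using hv) hx))
  have a4 := le_ordS (WW_fg hV') hW a3
  have a5 := ordS_le (w := w) (WW_fg (d := d) hV) (pow_mul_mem_WW hρ.1
    (T := V.comap (LinearMap.mulLeft k ρ)) (fun _ h => h) (jac_mem h9))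
    (mul_ne_zero (pow_ne_zero _ hρ.2.1) hD.jac_ne)
  rw [w.mul _ _ (pow_ne_zero _ hρ.2.1) hD.jac_ne, ord_pow, hρ.2.2] at a5
  rw [ord_pow, hτ.2.2, he] at a4
  omega

theorem lead_mono (hV : V.FG) (hle : V' ≤ V) (h0 : V' ≠ ⊥) (he : w.ordS V' = w.ordS V) (L : ℕ) :
    w.lead (V' ^ L) ≤ w.lead (V ^ L) := by
  rw [DV.lead, DV.lead, ordS_pow (fg_of_le hV hle) h0,
    ordS_pow hV (fun h => h0 (le_bot_iff.1 (h ▸ hle))), he]
  exact cod_le_of_le_sup (fd_of_fg (hV.pow L) _) (le_trans (by gcongr) le_sup_left)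

/-- The drop on a boundary divisor. -/
theorem drop_w (hV : V.FG) (h : Hyp V σ T) (hw : w.Min V σ) (L : ℕ) :
    cod (alg T) (T ^ L * alg T ⊔ w.fil 1) + cod ((pr k σ * T) ^ L) (w.fil (w.ordS (V ^ L) + 1)) ≤
      w.lead (V ^ L) := by
  have hU : ((1 ⊔ T) ^ L).FG := ((fg_span_singleton 1).sup (hyp_fg h hV) |>.pow L |>
    fun e => by rwa [← one_eq_span] at e)
  rw [DV.lead, ← cod_add (R := (pr k σ * T) ^ L) (by have := h.le; gcongr) (fd_of_fg (hV.pow L) _)]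
  refine add_le_add_left ((cod_le_of_le_sup (fd_of_fg hU _) ((alg_le_pow T L).trans
    (sup_le_sup_left le_sup_left _))).trans (cod_le_of_inj (σ ^ L) (fun x hx => ?_)
      (fun x _ hx => ?_) (fd_of_fg (hV.pow L) _)).2) _
  · rw [h.eq, mul_pow, pr_pow]; exact mul_mem_pr hx
  · obtain ⟨y, hy, z, hz, e⟩ := mem_sup.1 hx
    rw [mul_pow, pr_pow] at hz
    obtain ⟨z, hz', rfl⟩ := mem_pr_mul.1 hz
    have h0 := pow_ne_zero L h.ne
    rw [← (min_pow hV hw L).2.2, ← mul_div_cancel₀ y h0, mul_mem_fil h0] at hy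
    rw [show x = z + y / σ ^ L by field_simp; linear_combination -e]
    exact add_mem (mem_sup_left (by simpa using mul_mem_mul hz' (one_mem_alg T))) (mem_sup_right hy)

/-- The drop at a point of the variety. -/
theorem drop_x (hV : V.FG) (h : Hyp V σ T) (hM : MM.FG) (L : ℕ) :
    finrank k (MM * (pr k σ * T * WW d (pr k σ * T)) ^ L :) +
      cod (Mb T (JJ d T) MM L) (T ^ L * Mb T (JJ d T) MM L) ≤
        finrank k (MM * (V * WW d V) ^ L :) := by
  have hX : (MM * (V * WW d V) ^ L).FG := hM.mul ((hV.mul (WW_fg hV)).pow L)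
  have h0 := pow_ne_zero L (pow_ne_zero (m + 3) h.ne)
  have hp : pr k ((σ ^ (m + 3)) ^ L) = (pr k σ * pr k (σ ^ (m + 2))) ^ L := by
    rw [← pr_pow, ← pr_pow, ← pr_pow, ← pow_succ']
  have a1 : pr k (σ ^ (m + 2)) * JJ d T ≤ WW d V := fun x hx => by
    obtain ⟨y, hy, rfl⟩ := mem_pr_mul.1 hx
    exact pow_mul_mem_WW (hyp_mem h) (fun _ ht => h.le (mul_mem_pr ht)) hy
  have a2 : WW d (pr k σ * T) ≤ pr k (σ ^ (m + 2)) * (alg T * JJ d T) := fun x hx => by
    rw [← mul_div_cancel₀ x (pow_ne_zero (m + 2) h.ne)]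
    have : T * JJ d T ≤ alg T * JJ d T := mul_le_mul_left (by simpa using pow_le_alg T 1) _
    exact mul_mem_pr (this (div_pow_mem h.ne (fun _ => div_mem_of_pr h.ne) hx))
  have a3 := alg_pow_le T L
  have a4 : pr k ((σ ^ (m + 3)) ^ L) * Mb T (JJ d T) MM L ≤ MM * (V * WW d V) ^ L ⊔
      pr k ((σ ^ (m + 3)) ^ L) * (T ^ L * Mb T (JJ d T) MM L) := by
    refine (mul_le_mul_right (mul_le_mul_left (alg_le_pow T L) _) _).trans ?_
    rw [Submodule.sup_mul, Submodule.mul_sup, mul_assoc (T ^ L)]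
    refine sup_le_sup_right ?_ _
    calc _ = MM * (pr k σ * (1 ⊔ T) * (pr k (σ ^ (m + 2)) * JJ d T)) ^ L := by
          rw [hp]; simp only [mul_pow]; ring
      _ ≤ _ := by rw [← h.eq]; gcongr
  refine le_trans (add_le_add le_rfl (cod_le_of_inj ((σ ^ (m + 3)) ^ L)
    (fun x hx => mul_mem_pr hx) (fun x _ hx => ?_) (fd_of_le hX a4)).2) (drop hX ?_ ?_ a4)
  · simpa [h0] using div_mem_of_pr h0 hx
  · have := h.le
    have := WW_mono (d := d) h.le
    gcongr
  · calc _ ≤ MM * (pr k σ * T * (pr k (σ ^ (m + 2)) * (alg T * JJ d T))) ^ L := by gcongr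
      _ = pr k ((σ ^ (m + 3)) ^ L) * (T ^ L * (alg T ^ L * (MM * JJ d T ^ L))) := by
          rw [hp]; simp only [mul_pow]; ring
      _ ≤ _ := by unfold Mb; gcongr

/-- The exceptional and the new divisors are paid by the first two terms. -/
theorem key (hV : V.FG) (hle : V' ≤ V) (hW : WW d V' ≠ ⊥) (D : Finset (DV k K))
    (hD : ↑D ⊆ DD d S V') : ∃ (M₀ : Submodule k K) (O : Finset (DV k K)), M₀.FG ∧
      (∀ w ∈ O, w ∈ DD d S V ∧ w.ordS V' = w.ordS V) ∧ ∀ MM : Submodule k K, MM.FG → M₀ ≤ MM →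
      ∃ c : ℕ, ∀ L : ℕ, finrank k (MM * V' ^ (2 * L) :) + finrank k (MM * (V' * WW d V') ^ L :) +
        (L - c) * ∑ w ∈ D, w.lead (V' ^ L) ≤ finrank k (MM * V ^ (2 * L) :) +
        finrank k (MM * (V * WW d V) ^ L :) + L * ∑ w ∈ O, w.lead (V' ^ L) := by
  classical
  have hV' := fg_of_le hV hle
  have h0 : V' ≠ ⊥ := fun e => hW (le_bot_iff.1 (WW_le fun v hv => by
    have : v = 0 := funext fun i => by simpa [e] using hv i
    rw [this, ← wrA_apply, AlternatingMap.map_zero]; exact zero_mem _))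
  have hWW := WW_mono (d := d) hle
  let D₁ := D.filter fun w => w.ordS V' = w.ordS V
  obtain ⟨M₁, f1, g1⟩ := div hV hle h0 (D.filter fun w => ¬ w.ordS V' = w.ordS V) fun w hw =>
    lt_of_le_of_ne (le_ordS hV' h0 (hle.trans (le_fil_ordS w hV)))
      (Ne.symm (Finset.mem_filter.1 hw).2)
  obtain ⟨M₂, f2, g2⟩ := div (WW_fg hV) hWW hW (D₁.filter fun w => w ∉ DD d S V) fun w hw => by
    simp only [D₁, Finset.mem_filter] at hw
    exact new_lt hV hle hW hw.1.2 (hD hw.1.1) hw.2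
  refine ⟨M₁ ⊔ M₂, D₁.filter fun w => w ∈ DD d S V, f1.sup f2, fun w hw => ?_, fun MM hM h => ?_⟩
  · simp only [D₁, Finset.mem_filter] at hw
    exact ⟨hw.2, hw.1.2⟩
  obtain ⟨c₁, e1⟩ := g1 MM hM (le_sup_left.trans h)
  obtain ⟨c₂, e2⟩ := g2 MM hM (le_sup_right.trans h)
  refine ⟨c₁ + c₂, fun L => ?_⟩
  have a1 := e1 _ (hV'.pow L) L
  have a2 := e2 _ (hV'.pow L) L
  have a3 : finrank k (MM * (V' ^ L * V ^ L) :) ≤ finrank k (MM * V ^ (2 * L) :) :=
    finrank_le (hM.mul (hV.pow _)) (by rw [two_mul, pow_add]; gcongr)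
  have a4 : finrank k (MM * (V' ^ L * WW d V ^ L) :) ≤ finrank k (MM * (V * WW d V) ^ L :) :=
    finrank_le (hM.mul ((hV.mul (WW_fg hV)).pow _)) (by rw [mul_pow]; gcongr)
  rw [← pow_add, ← two_mul] at a1
  rw [← mul_pow] at a2
  rw [← Finset.sum_filter_add_sum_filter_not D (fun w => w.ordS V' = w.ordS V),
    ← Finset.sum_filter_add_sum_filter_not D₁ (fun w => w ∈ DD d S V), mul_add, mul_add]
  have b : ∀ x i j : ℕ, i ≤ j → i * x ≤ j * x := fun x i j h => Nat.mul_le_mul_right x h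
  have b1 := b (∑ w ∈ D.filter fun w => ¬ w.ordS V' = w.ordS V, w.lead (V' ^ L))
    (L - (c₁ + c₂)) (L - c₁) (by omega)
  have b2 := b (∑ w ∈ D₁.filter fun w => w ∉ DD d S V, w.lead (V' ^ L))
    (L - (c₁ + c₂)) (L - c₂) (by omega)
  have b3 := b (∑ w ∈ D₁.filter fun w => w ∈ DD d S V, w.lead (V' ^ L))
    (L - (c₁ + c₂)) L (by omega)
  omega

theorem step {G : ℝ} {μ : ℕ} (hV : V.FG) (h : Hyp V σ T) (hW : WW d (pr k σ * T) ≠ ⊥)
    (hP : Pot d S V G)
    (hb : ¬ (GoodX d μ T ∧ ∀ w ∈ DD d S V, w.Min V σ → Gr m μ T (alg T) (w.fil 1))) :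
    Pot d S (pr k σ * T) (G - μ) := by
  classical
  intro M' hM' D' hD' ε hε
  have hV' := fg_of_le hV h.le
  have h0 : pr k σ * T ≠ ⊥ := fun e => hW (le_bot_iff.1 (WW_le fun v hv => by
    have : v = 0 := funext fun i => by simpa [e] using hv i
    rw [this, ← wrA_apply, AlternatingMap.map_zero]; exact zero_mem _))
  obtain ⟨M₀, O, f0, hO, g0⟩ := key hV h.le hW D' hD'
  have old : ∀ L, ∀ s ⊆ O, ∑ w ∈ s, w.lead ((pr k σ * T) ^ L) ≤ ∑ w ∈ s, w.lead (V ^ L) :=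
    fun L s hs => Finset.sum_le_sum fun w hw => lead_mono hV h.le h0 (hO w (hs hw)).2 L
  obtain ⟨MM, D, hM, hle, hD, hg⟩ : ∃ (MM : Submodule k K) (D : Finset (DV k K)), MM.FG ∧
      M' ⊔ M₀ ≤ MM ∧ ↑D ⊆ DD d S V ∧ ∀ᶠ L : ℕ in atTop,
      finrank k (MM * (pr k σ * T * WW d (pr k σ * T)) ^ L :) +
        L * ∑ w ∈ O, w.lead ((pr k σ * T) ^ L) + μ * L ^ (m + 1) ≤
      finrank k (MM * (V * WW d V) ^ L :) + L * ∑ w ∈ D, w.lead (V ^ L) := by
    by_cases hX : GoodX d μ T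
    · obtain ⟨w, h1, h2, h3⟩ : ∃ w ∈ DD d S V, w.Min V σ ∧ ¬ Gr m μ T (alg T) (w.fil 1) := by
        by_contra hc
        exact hb ⟨hX, fun w a b => not_not.1 fun c => hc ⟨w, a, b, c⟩⟩
      refine ⟨_, insert w O, hM'.sup f0, le_rfl, fun v hv => ?_, ?_⟩
      · rcases Finset.mem_insert.1 hv with rfl | hv
        exacts [h1, (hO v hv).1]
      filter_upwards [not_frequently.1 h3] with L hL
      have a1 := drop_x (d := d) hV h (hM'.sup f0) L
      have a2 := drop_w hV h h2 L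
      have a3 : ∑ w ∈ O, w.lead ((pr k σ * T) ^ L) + μ * L ^ m ≤
          ∑ w ∈ insert w O, w.lead (V ^ L) := by
        by_cases hw : w ∈ O
        · have a4 := old L _ (Finset.erase_subset w O)
          rw [ordS_pow hV fun e => h0 (le_bot_iff.1 (e ▸ h.le)), ← (hO w hw).2, ← ordS_pow hV' h0, ← DV.lead] at a2
          rw [Finset.insert_eq_of_mem hw, ← Finset.add_sum_erase _ _ hw,
            ← Finset.add_sum_erase _ _ hw]
          omega
        · have a4 := old L _ le_rfl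
          rw [Finset.sum_insert hw]
          omega
      have a5 := Nat.mul_le_mul_left L a3
      rw [mul_add, mul_left_comm, ← pow_succ'] at a5
      omega
    · simp only [GoodX, not_exists, not_and, not_forall] at hX
      obtain ⟨MM, h1, h2, h3⟩ := hX _ (hM'.sup f0)
      refine ⟨MM, O, h1, h2, fun v hv => (hO v hv).1, ?_⟩
      filter_upwards [not_frequently.1 h3] with L hL
      have a1 := drop_x (d := d) hV h h1 L
      have a2 := Nat.mul_le_mul_left L (old L _ le_rfl)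
      omega
  obtain ⟨c, hc⟩ := g0 MM hM (le_sup_right.trans hle)
  obtain ⟨N, hN⟩ := exists_nat_ge (c * (G + ε / 2) / (ε / 2))
  filter_upwards [hg, hP MM hM D hD (ε / 2) (half_pos hε), eventually_gt_atTop (c + N)]
    with L a1 a2 a3
  have a4 := hc L
  have a5 : finrank k (M' * (pr k σ * T) ^ (2 * L) :) ≤ finrank k (MM * (pr k σ * T) ^ (2 * L) :) :=
    finrank_le (hM.mul (hV'.pow _)) (mul_le_mul_left (le_sup_left.trans hle) _)
  have a6 : finrank k (M' * (pr k σ * T * WW d (pr k σ * T)) ^ L :) ≤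
      finrank k (MM * (pr k σ * T * WW d (pr k σ * T)) ^ L :) :=
    finrank_le (hM.mul ((hV'.mul (WW_fg hV')).pow _)) (mul_le_mul_left (le_sup_left.trans hle) _)
  obtain ⟨l, rfl⟩ := Nat.exists_eq_add_of_le (show c ≤ L by omega)
  rw [Nat.add_sub_cancel_left] at a4
  generalize hx : ∑ w ∈ D', w.lead ((pr k σ * T) ^ (c + l)) = x at a4
  have a7 : Phi d (pr k σ * T) M' D' (c + l) + μ * (c + l) ^ (m + 1) ≤
      Phi d V MM D (c + l) + c * x := by
    rw [Phi, Phi, hx, add_mul c l x]; omega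
  have a8 : l * x ≤ Phi d V MM D (c + l) := by rw [Phi]; omega
  have b7 : (Phi d (pr k σ * T) M' D' (c + l) : ℝ) + μ * ((c + l : ℕ) : ℝ) ^ (m + 1) ≤
      Phi d V MM D (c + l) + c * x := by exact_mod_cast a7
  have b8 : (l : ℝ) * x ≤ Phi d V MM D (c + l) := by exact_mod_cast a8
  have b1 : (N : ℝ) < l := by exact_mod_cast (show N < l by omega)
  have b2 : (0 : ℝ) < l := (Nat.cast_nonneg N).trans_lt b1
  have b3 : c * (G + ε / 2) ≤ ε / 2 * l := by
    rw [div_le_iff₀ (half_pos hε)] at hN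
    nlinarith
  have b4 : (0 : ℝ) ≤ ((c + l : ℕ) : ℝ) ^ (m + 1) := by positivity
  generalize ((c + l : ℕ) : ℝ) ^ (m + 1) = y at *
  have b5 : (c : ℝ) * x ≤ ε / 2 * y := by
    refine le_of_mul_le_mul_left ?_ b2
    have b6 := mul_le_mul_of_nonneg_left (b8.trans a2) (Nat.cast_nonneg (α := ℝ) c)
    have b9 := mul_le_mul_of_nonneg_right b3 b4
    nlinarith
  nlinarith

theorem le_lead (hV : V.FG) (h : Prm m V w) (l : ℕ) : l ^ m ≤ w.lead (V ^ ((m + 1) * l)) := by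
  classical
  obtain ⟨σ, hσ, g, h1, h2⟩ := h
  have h0 := pow_ne_zero ((m + 1) * l) hσ.2.1
  let Q := w.fil (w.ordS (V ^ ((m + 1) * l)) + 1)
  let ψ : MvPolynomial (Fin m) k →ₗ[k] K ⧸ Q := Q.mkQ.comp
    ((LinearMap.mulLeft k (σ ^ ((m + 1) * l))).comp (MvPolynomial.aeval g).toLinearMap)
  have hψ : LinearMap.ker ψ = ⊥ := eq_bot_iff.2 fun P hP => h2 P ((mul_mem_fil h0).1 (by
    rw [(min_pow hV hσ _).2.2]; exact (Quotient.mk_eq_zero _).1 hP))
  let f : (Fin m → Fin l) → Fin m →₀ ℕ := fun a => Finsupp.equivFunOnFinite.symm fun i => a i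
  have hf : Function.Injective f := fun a b e => funext fun i => Fin.ext (DFunLike.congr_fun e i)
  have hi := (((MvPolynomial.basisMonomials (Fin m) k).linearIndependent.comp f hf).map' ψ hψ)
  have : Module.Finite k ((V ^ ((m + 1) * l)).map Q.mkQ) :=
    Module.Finite.iff_fg.2 ((hV.pow _).map _)
  have h3 := finrank_span_eq_card hi
  rw [Fintype.card_fun, Fintype.card_fin, Fintype.card_fin] at h3
  rw [← h3]
  refine finrank_mono (span_le.2 ?_)
  rintro _ ⟨a, rfl⟩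
  refine mem_map_of_mem ?_
  have h4 : ∀ s : Finset (Fin m), ∏ i ∈ s, (σ * g i) ^ (a i : ℕ) ∈ V ^ ∑ i ∈ s, (a i : ℕ) := by
    intro s
    induction s using Finset.induction_on with
    | empty => simp
    | insert i s hi ih =>
      rw [Finset.prod_insert hi, Finset.sum_insert hi, pow_add]
      exact mul_mem_mul (pow_mem_pow _ (h1 i) _) ih
  have h5 : ∑ i, (a i : ℕ) ≤ (m + 1) * l :=
    (Finset.sum_le_card_nsmul _ _ l fun i _ => (a i).2.le).trans (by simp [add_mul])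
  obtain ⟨j, hj⟩ := Nat.exists_eq_add_of_le h5
  have h6 := mul_mem_mul (h4 Finset.univ) (pow_mem_pow _ hσ.1 j)
  rw [← pow_add, ← hj] at h6
  convert h6 using 1
  simp [f, MvPolynomial.aeval_monomial, Finsupp.prod_fintype, mul_pow, Finset.prod_mul_distrib,
    Finset.prod_pow_eq_pow_sum, hj, pow_add]
  ring

theorem fin {G : ℝ} (hV : V.FG) (hP : Pot d S V G) : (DD d S V).Finite := by
  by_contra hc
  obtain ⟨N, hN⟩ := exists_nat_gt ((G + 1) * (m + 1) ^ m)
  obtain ⟨D, h1, h2⟩ := Set.Infinite.exists_subset_card_eq hc N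
  obtain ⟨L, hL⟩ := eventually_atTop.1 (hP ⊥ fg_bot D h1 1 one_pos)
  have h3 := hL ((m + 1) * (L + 1)) (by nlinarith)
  have h4 : (m + 1) * (L + 1) * (N * (L + 1) ^ m) ≤ Phi d V ⊥ D ((m + 1) * (L + 1)) := by
    refine le_trans (Nat.mul_le_mul_left _ ?_) (Nat.le_add_left _ _)
    rw [← h2, ← smul_eq_mul]
    exact Finset.card_nsmul_le_sum _ _ _ fun w hw => le_lead hV (h1 hw).1 _
  have h5 : ((m : ℝ) + 1) * (L + 1) * (N * (L + 1) ^ m) ≤ Phi d V ⊥ D ((m + 1) * (L + 1)) := by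
    exact_mod_cast h4
  have h6 : (0 : ℝ) < (m + 1) * (L + 1) * (L + 1) ^ m := by positivity
  have h7 := mul_lt_mul_of_pos_left hN h6
  push_cast at h3
  rw [pow_succ, mul_pow] at h3
  nlinarith

end St

theorem step_stmt : StepStmt k K m :=
  ⟨fun _ _ _ _ _ _ _ => St.step, fun _ _ _ _ => St.fin⟩

theorem step_of (_ : DivStmt k K) : StepStmt k K m := step_stmt

end Pool.Agent.MP_19ffc6_ag.Res.PA
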