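import Mathlib
import Pool.Agent.MP_19ffc6_ag.Res.TreeA
import Pool.Agent.MP_19ffc6_ag.Res.TreeM
import Pool.Agent.MP_19ffc6_ag.Res.TreeMon
import Pool.Agent.MP_19ffc6_ag.Res.TreeT

/-! PROJECT RES, part B, module TREE: the normalized tree of discs is toroidal. -/

namespace Pool.Agent.MP_19ffc6_ag.Res.B

variable {k L : Type} [Field k] [Field L] [Algebra k L]

theorem tree [IsAlgClosed k] [IsAlgClosed L] (bez : BezStmt k L) : TreeStmt k L :=
  tree_of bez (loc_of fun _ _ _ => abs_of mon)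

end Pool.Agent.MP_19ffc6_ag.Res.B
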