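import Mathlib
import Pool.Agent.MP_19ffc6_ag.Res.Label
import Pool.Agent.MP_19ffc6_ag.Res.Tree
import Pool.Agent.MP_19ffc6_ag.Res.Cover
import Pool.Agent.MP_19ffc6_ag.Res.QuotB
import Pool.Agent.MP_19ffc6_ag.Res.Bez
import Pool.Agent.MP_19ffc6_ag.Res.Out
import Pool.Agent.MP_19ffc6_ag.Res.Step
import Pool.Agent.MP_19ffc6_ag.Res.Start
import Pool.Agent.MP_19ffc6_ag.Res.Base
import Pool.Agent.MP_19ffc6_ag.Res.Core
import Pool.Agent.MP_19ffc6_ag.Res.Gen
import Pool.Agent.MP_19ffc6_ag.Res.Bpf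
import Pool.Agent.MP_19ffc6_ag.Res.LocB
import Pool.Agent.MP_19ffc6_ag.Res.LocP
import Pool.Agent.MP_19ffc6_ag.Res.LocX
import Pool.Agent.MP_19ffc6_ag.Res.Low
import Pool.Agent.MP_19ffc6_ag.Res.AFin

/-! PROJECT RES: the assembly. -/

namespace Pool.Agent.MP_19ffc6_ag.Res

open PA

/-- The tame projection theorem in large characteristic. -/
theorem tp (k : Type) [Field k] [IsAlgClosed k] (p : ℕ) [Fact p.Prime] [CharP k p] (m : ℕ)
    (hk : Big k (cst m (mu m))) : TPStmt k m (cst m (mu m)) :=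
  tp_of hk fun _ _ _ => ⟨alb_of step_stmt (start_of div_stmt),
    gen_of locX locW locP PA.core bpf (base_of locB bpf) (Fl.uni p), Fl.finX Low.low,
    Fl.finW Low.low p⟩

theorem big_of_lt (k : Type) [Field k] (p : ℕ) [CharP k p] {C : ℕ} (h : C < p) : Big k C :=
  fun j h0 hj e => absurd (Nat.le_of_dvd h0 ((CharP.cast_eq_zero_iff k p j).1 e)) (by omega)

theorem cst_le {m n : ℕ} (h : m < n) : cst m (mu m) ≤
    (n + 1) ^ 2 * (8 * (2 ^ n + 2 * (n + 2) ^ n + 1) + 1) * (8 * (n + 1) ^ 2) ^ n := by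
  have h1 : m + 1 ≤ n := h
  have h2 : m + 2 ≤ n + 1 := by omega
  have h3 : m + 3 ≤ n + 2 := by omega
  rw [cst, mu, kap, ← mul_assoc 2 4]
  gcongr
  all_goals first | omega | exact Nat.succ_le_of_lt (by positivity)

/-- Resolution of singularities in dimension at most `n` in large characteristic. -/
theorem resDim_large (k : Type) [Field k] [IsAlgClosed k] (p : ℕ) [Fact p.Prime] [CharP k p]
    (n : ℕ)
    (hp : (n + 1) ^ 2 * (8 * (2 ^ n + 2 * (n + 2) ^ n + 1) + 1) * (8 * (n + 1) ^ 2) ^ n < p) :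
    ResDim k n :=
  B.resDim k fun _ _ _ _ => ⟨Lab.label, B.bez p, B.cover fun _ _ _ => B.quotB, B.tree (B.bez p),
    fun m hm =>
      have h := big_of_lt k p ((cst_le hm).trans_lt hp)
      out_of m _ h (tp k p m h)⟩

end Pool.Agent.MP_19ffc6_ag.Res
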