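import Pool.Agent.MP_19ffc6_ag.Res.LocK

/-! PROJECT RES, part A: existence, genericity, powers and elimination of reductions. -/

namespace Pool.Agent.MP_19ffc6_ag.Res.PA.LocK

open Submodule Finset Filter Pool.Agent.MP_19ffc6_ag.Res.PA.Num

variable {k K : Type} [Field k] [Field K] [Algebra k K] {T P P' Q Q' Y Z : Submodule k K}

theorem ypow_le {j : ℕ} (hP : Md T P) (hY : Y ≤ T ^ j * alg T) (c : ℕ) :
    Y ^ c * P ≤ T ^ (j * c) * P := by
  induction c with
  | zero => simp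
  | succ c ih =>
    calc Y ^ (c + 1) * P = Y * (Y ^ c * P) := by ring
      _ ≤ T ^ j * alg T * (T ^ (j * c) * P) := mul_le_mul' hY ih
      _ = T ^ (j * (c + 1)) * (alg T * P) := by ring
      _ ≤ _ := mul_le_mul_right hP _

theorem pow_alg_le (j : ℕ) : T ^ j * alg T ≤ alg T := (md_alg T).le (pow_le_alg (le_alg T) j)

theorem pow_mem_alg {x : K} (hx : x ∈ T) (j : ℕ) : x ^ j ∈ T ^ j * alg T := by
  simpa using mul_mem_mul (pow_mem_pow T hx j) (one_mem_alg T)

theorem rd_mono {ι : Type} {j : ℕ} {y : ι → K} (h : Rd T j y P Q) (hQ : Q ≤ Q') :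
    Rd T j y P Q' := h.imp fun _ h => h.trans (sup_le_sup_left hQ _)

theorem rd_mul {ι : Type} {j : ℕ} {y : ι → K} (h : Rd T j y P Q) (J : Submodule k K) :
    Rd T j y (J * P) (J * Q) := h.imp fun e h => by
  have := mul_le_mul_right h J
  rw [Submodule.mul_sup, Submodule.mul_sup] at this
  exact le_of_eq_of_le (by ring) (this.trans (sup_le_sup_right (sup_le_sup (le_of_eq (by ring))
    (le_of_eq (by ring))) _))

/-- Transitivity of reductions. -/
theorem rd_trans {ι ι' : Type} {j j' c s : ℕ} {y : ι → K} {z : ι' → K} (hP : Md T P)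
    (hQ : Md T Q) (hy : ∀ i, y i ∈ T ^ j * alg T) (h : Rd T j y P Q) (hc : j * c = s + j')
    (H : ∀ e, span k (Set.range y) ^ c * (T ^ e * P) ≤
      span k (Set.range z) * (T ^ (e + s) * P) ⊔ T ^ (e + j * c + 1) * P ⊔ Q) :
    Rd T j' z P Q := by
  obtain ⟨e₀, h⟩ := h
  set Y := span k (Set.range y)
  have hY : Y ≤ T ^ j * alg T := span_le.2 fun _ ⟨i, e⟩ => e ▸ hy i
  have h1 : ∀ c, T ^ (e₀ + j * c) * P ≤
      Y ^ c * (T ^ e₀ * P) ⊔ T ^ (e₀ + j * c + 1) * P ⊔ Q := by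
    intro c
    induction c with
    | zero => exact le_sup_of_le_left (le_sup_of_le_left (by simp))
    | succ c ih =>
      have h2 := mul_le_mul_right h (T ^ (j * c))
      have h3 := mul_le_mul_right ih Y
      rw [Submodule.mul_sup, Submodule.mul_sup] at h2 h3
      refine le_of_eq_of_le (by ring) (h2.trans (sup_le (sup_le (le_of_eq_of_le (by ring)
        (h3.trans (sup_le_sup (sup_le_sup (le_of_eq (by ring)) ?_)
          (hQ.le (hY.trans (pow_alg_le j)))))) (le_sup_of_le_left (le_sup_of_le_right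
            (le_of_eq (by ring))))) (le_sup_of_le_right (hQ.le (pow_le_alg (le_alg T) _)))))
      have := ypow_le (hP.mul (T ^ (e₀ + j * c + 1))) hY 1
      exact le_of_eq_of_le (by ring) (this.trans (le_of_eq (by ring)))
  refine ⟨e₀ + s, ?_⟩
  have e1 : e₀ + s + j' = e₀ + j * c := by omega
  rw [e1]
  exact (h1 c).trans (sup_le (sup_le (H e₀) (le_sup_of_le_left le_sup_right)) le_sup_right)

/-- Congruence of elements of degree `n` modulo `Z`. -/
def Cg (Y Z : Submodule k K) (n : ℕ) (a b : K) : Prop :=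
  a ∈ Y ^ n ∧ b ∈ Y ^ n ∧ ∀ x ∈ Y, x * (a - b) ∈ Z * Y ^ n

theorem cg_one : Cg Y Z 0 1 1 := ⟨by simp [one_le.1], by simp [one_le.1], by simp⟩

theorem Cg.mul {n n' : ℕ} {a b a' b' : K} (h : Cg Y Z n a b) (h' : Cg Y Z n' a' b') :
    Cg Y Z (n + n') (a * a') (b * b') := by
  refine ⟨pow_add Y n n' ▸ mul_mem_mul h.1 h'.1, pow_add Y n n' ▸ mul_mem_mul h.2.1 h'.2.1,
    fun x hx => ?_⟩
  have e : x * (a * a' - b * b') = x * (a - b) * a' + x * (a' - b') * b := by ring
  rw [e]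
  refine add_mem ?_ ?_
  · rw [pow_add, ← mul_assoc Z]
    exact mul_mem_mul (h.2.2 x hx) h'.1
  · rw [add_comm, pow_add, ← mul_assoc Z]
    exact mul_mem_mul (h'.2.2 x hx) h.2.1

theorem cg_mon {ι : Type} (s : Finset ι) {y v : ι → K} (hy : ∀ i, y i ∈ Y) (hv : ∀ i, v i ∈ Y)
    (h : ∀ i, y i - v i ∈ Z) (α : ι → ℕ) :
    Cg Y Z (∑ i ∈ s, α i) (∏ i ∈ s, y i ^ α i) (∏ i ∈ s, v i ^ α i) := by
  classical
  have h1 : ∀ i n, Cg Y Z n (y i ^ n) (v i ^ n) := fun i n => by
    induction n with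
    | zero => simpa using cg_one
    | succ n ih =>
      rw [pow_succ, pow_succ]
      exact ih.mul ⟨by simpa using hy i, by simpa using hv i, fun x hx => by
        rw [mul_comm x, pow_one]; exact mul_mem_mul (h i) hx⟩
  induction s using Finset.induction_on with
  | empty => simpa using cg_one
  | insert i s hi ih =>
    rw [sum_insert hi, prod_insert hi, prod_insert hi]
    exact (h1 i _).mul ih

section
variable {e : ℕ} {h : Fin e → K}

theorem mon_mem_pow (hh : ∀ i, h i ∈ Y) (α : Fin e → ℕ) : ∏ i, h i ^ α i ∈ Y ^ ∑ i, α i :=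
  (cg_mon (Z := ⊥) univ hh hh (by simp) α).1

theorem pow_le_of_mon {G : Submodule k K} {N : ℕ}
    (H : ∀ α : Fin e → ℕ, ∑ i, α i = N → ∏ i, h i ^ α i ∈ G) : span k (Set.range h) ^ N ≤ G := by
  suffices H : ∀ n (α : Fin e → ℕ), ∑ i, α i + n = N → ∀ x ∈ span k (Set.range h) ^ n,
      (∏ i, h i ^ α i) * x ∈ G by
    intro x hx
    simpa using H _ 0 (by simp) x hx
  intro n
  induction n with
  | zero =>
    intro α hα x hx
    obtain ⟨c, rfl⟩ := mem_one.1 (by simpa using hx)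
    rw [mul_comm, ← Algebra.smul_def]
    exact smul_mem _ _ (H α hα)
  | succ n ih =>
    intro α hα x hx
    rw [pow_succ'] at hx
    refine span_mul_ind (C := fun z => (∏ i, h i ^ α i) * z ∈ G) hx (by simp)
      (fun i y hy => ?_) fun x y a b => by simpa only [mul_add] using add_mem a b
    rw [← mul_assoc, ← mon_succ]
    refine ih _ ?_ y hy
    simp only [Pi.add_apply, sum_add_distrib, sum_pi_single', mem_univ, if_true]
    omega

/-- Powers of a reduction. -/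
theorem rd_pow (hP : Md T P) (hQ : Md T Q) (hh : ∀ i, h i ∈ T) (H : Rd T 1 h P Q) (a : ℕ) :
    Rd T a (fun i => h i ^ a) P Q := by
  have h1 : span k (Set.range h) ^ (e * a + 1 + a) ≤ qq k h a * T ^ (e * a + 1) := by
    refine pow_le_of_mon fun α hα => ?_
    obtain ⟨i, -, hi⟩ := exists_lt_of_sum_lt (s := univ) (f := fun _ => a) (g := α)
      (by simp only [sum_const, card_fin, smul_eq_mul]; omega)
    obtain ⟨β, rfl⟩ : ∃ β : Fin e → ℕ, α = β + Pi.single i a := ⟨α - Pi.single i a, by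
      funext l
      by_cases c : l = i
      · subst c; simp; omega
      · simp [c]⟩
    have e1 : ∑ i, β i = e * a + 1 := by
      simp only [Pi.add_apply, sum_add_distrib, sum_pi_single', mem_univ, if_true] at hα
      omega
    have e2 : ∏ l, h l ^ (β + Pi.single i a : Fin e → ℕ) l = h i ^ a * ∏ l, h l ^ β l := by
      simp only [Pi.add_apply, pow_add, prod_mul_distrib]
      simp [Pi.single_apply, apply_ite, mul_comm]
    rw [e2, ← e1]
    exact mul_mem_mul (subset_span ⟨i, rfl⟩) (mon_mem_pow hh β)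
  refine rd_trans (c := e * a + 1 + a) (s := e * a + 1) hP hQ
    (fun i => by simpa using pow_mem_alg (hh i) 1) H (one_mul _) fun s =>
      le_sup_of_le_left (le_sup_of_le_left ((mul_le_mul_left h1 _).trans (le_of_eq ?_)))
  unfold qq
  ring

end

theorem gen_forall {J ι : Type} [Finite ι] {Φ : ι → (J → k) → Prop} (h : ∀ i, Gen (Φ i)) :
    Gen fun l => ∀ i, Φ i l := by
  have := Fintype.ofFinite ι
  choose D h1 h2 using h
  refine ⟨∏ i, D i, prod_ne_zero_iff.2 fun i _ => h1 i, fun l hl i => h2 i l ?_⟩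
  rw [map_prod] at hl
  exact prod_ne_zero_iff.1 hl i (mem_univ i)

theorem gen_and {J : Type} {Φ Ψ : (J → k) → Prop} (h : Gen Φ) (h' : Gen Ψ) :
    Gen fun l => Φ l ∧ Ψ l := by
  obtain ⟨D, h1, h2⟩ := h
  obtain ⟨D', h3, h4⟩ := h'
  refine ⟨D * D', mul_ne_zero h1 h3, fun l hl => ?_⟩
  rw [map_mul, mul_ne_zero_iff] at hl
  exact ⟨h2 l hl.1, h4 l hl.2⟩

theorem gen_exists [Infinite k] {J : Type} {Φ : (J → k) → Prop} (h : Gen Φ) : ∃ l, Φ l := by
  obtain ⟨D, h1, h2⟩ := h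
  by_contra c
  exact h1 (MvPolynomial.funext fun l => by
    by_contra c'
    exact c ⟨l, h2 l (by simpa using c')⟩)

/-- Slow growth forces a homogeneous relation. -/
theorem rel {e μ j : ℕ} (hP : Md T P) (hQ : Md T Q) (hf : ∀ L, Fd P (T ^ L * P ⊔ Q))
    (hG : Gr e μ T P Q) (hj : 0 < j) {y : Fin (e + 1) → K} (hy : ∀ i, y i ∈ T ^ j * alg T) :
    ∃ (a D : ℕ) (g : (Fin (e + 1) → Fin a) → k), (∃ α, ∑ i, (α i : ℕ) = D ∧ g α ≠ 0) ∧
      ∀ x ∈ P, (∑ α with ∑ i, (α i : ℕ) = D, g α • ∏ i, y i ^ (α i : ℕ)) * x ∈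
        T ^ (j * D + 1) * P ⊔ Q := by
  classical
  obtain ⟨r, x, x1, x2⟩ : ∃ r, Sp r P (T ^ 1 * P ⊔ Q) := ⟨_, sp_of_cod (hf 1) le_rfl⟩
  set q := j * (e + 1) with hq
  have q0 : 0 < q := by positivity
  obtain ⟨L, h2, h3⟩ := (hG.and_eventually (eventually_ge_atTop
    (q * (r * μ * (2 * q) ^ e + 1)))).exists
  set a := L / q with ha
  have a1 : r * μ * (2 * q) ^ e + 1 ≤ a := (Nat.le_div_iff_mul_le q0).2 (by rwa [mul_comm])
  have a2 : q * a ≤ L := Nat.mul_div_le _ _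
  have a3 : L < q * (a + 1) := Nat.lt_mul_div_succ _ q0
  have a4 : L ≤ 2 * q * a := by nlinarith [Nat.zero_le (r * μ * (2 * q) ^ e)]
  have hm : ∀ (α : Fin (e + 1) → ℕ) n, ∀ z ∈ T ^ n * P,
      (∏ i, y i ^ α i) * z ∈ T ^ (j * ∑ i, α i + n) * P := fun α n z hz => by
    have := ypow_le (hP.mul (T ^ n)) le_rfl (∑ i, α i) (mul_mem_mul (mon_mem_pow hy α) hz)
    rwa [← mul_assoc, ← pow_add] at this
  have hm0 : ∀ (α : Fin (e + 1) → ℕ) s, (∏ i, y i ^ α i) * x s ∈ T ^ (j * ∑ i, α i) * P :=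
    fun α s => hm α 0 _ (by simpa using x1 s)
  have : Module.Finite k (P.map (T ^ L * P ⊔ Q).mkQ) := Module.Finite.iff_fg.2 (hf L)
  let v : (Fin (e + 1) → Fin a) → Fin r → P.map (T ^ L * P ⊔ Q).mkQ := fun α s =>
    ⟨_, mem_map_of_mem (by simpa using hP.anti (Nat.zero_le _) (hm0 (fun i => α i) s))⟩
  have hv : ¬ LinearIndependent k v := fun c => by
    have h4 := c.fintype_card_le_finrank
    rw [Module.finrank_pi_fintype] at h4
    simp only [Fintype.card_pi, Fintype.card_fin, prod_const, card_fin, sum_const,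
      smul_eq_mul] at h4
    have h5 : r * (μ * L ^ e) ≤ r * μ * (2 * q) ^ e * a ^ e := by
      rw [← mul_assoc, mul_assoc (r * μ), ← mul_pow]
      exact Nat.mul_le_mul_left _ (Nat.pow_le_pow_left a4 _)
    have h6 := Nat.mul_le_mul_left r h2
    have h7 : 0 < a ^ e := pow_pos (by omega) _
    have h8 := Nat.mul_le_mul_right (a ^ e) a1
    unfold cod at h6
    rw [pow_succ'] at h4
    nlinarith
  obtain ⟨g, g1, g2⟩ := Fintype.not_linearIndependent_iff.1 hv
  obtain ⟨α₀, b1, b2⟩ := exists_min_image (univ.filter fun α => g α ≠ 0)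
    (fun α => ∑ i, (α i : ℕ)) (g2.imp fun α h => by simpa using h)
  refine ⟨a, ∑ i, (α₀ i : ℕ), g, ⟨α₀, rfl, by simpa using b1⟩, fun z hz => ?_⟩
  set D := ∑ i, (α₀ i : ℕ) with hD
  have hL : j * D + 1 ≤ L := by
    have : D < ∑ _i : Fin (e + 1), a := sum_lt_sum_of_nonempty univ_nonempty fun i _ => (α₀ i).2
    simp only [sum_const, card_fin, smul_eq_mul] at this
    rw [hq] at a2
    nlinarith
  have hs : ∀ s, (∑ α with ∑ i, (α i : ℕ) = D, g α • ∏ i, y i ^ (α i : ℕ)) * x s ∈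
      T ^ (j * D + 1) * P ⊔ Q := fun s => by
    have h4 := congrArg Subtype.val (congrFun g1 s)
    simp only [Finset.sum_apply, Pi.smul_apply, AddSubmonoidClass.coe_finsetSum,
      SetLike.val_smul, v, ← map_smul, ← map_sum, Pi.zero_apply, ZeroMemClass.coe_zero] at h4
    rw [mkQ_apply, Quotient.mk_eq_zero,
      ← sum_filter_add_sum_filter_not univ fun α => ∑ i, (α i : ℕ) = D] at h4
    simp only [sum_mul, smul_mul_assoc]
    refine (add_mem_cancel_right (sum_mem fun α hα => ?_)).1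
      (sup_le_sup_right (hP.anti hL) _ h4)
    by_cases c : g α = 0
    · simp [c]
    have h5 : D ≤ ∑ i, (α i : ℕ) := b2 α (by simpa using c)
    have h6 : ∑ i, (α i : ℕ) ≠ D := by simpa using hα
    refine smul_mem _ _ (mem_sup_left (hP.anti ?_ (hm0 (fun i => α i) s)))
    have := Nat.mul_le_mul_left j (show D + 1 ≤ ∑ i, (α i : ℕ) by omega)
    nlinarith
  have hΦ : ∀ n, ∀ z ∈ T ^ n * P, (∑ α with ∑ i, (α i : ℕ) = D, g α • ∏ i, y i ^ (α i : ℕ)) * z ∈
      T ^ (j * D + n) * P := fun n z hz => by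
    simp only [sum_mul, smul_mul_assoc]
    refine sum_mem fun α hα => smul_mem _ _ ?_
    have := hm (fun i => α i) n z hz
    rwa [(mem_filter.1 hα).2] at this
  obtain ⟨z₁, c1, z₂, c2, rfl⟩ := mem_sup.1 (x2 hz)
  obtain ⟨z₃, c3, z₄, c4, rfl⟩ := mem_sup.1 c2
  obtain ⟨c, rfl⟩ := (mem_span_range_iff_exists_fun k).1 c1
  rw [mul_add, mul_add, mul_sum univ fun s => c s • x s]
  refine add_mem (sum_mem fun s _ => ?_) (add_mem (mem_sup_left (hΦ 1 _ c3)) (mem_sup_right ?_))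
  · rw [mul_smul_comm]
    exact smul_mem _ _ (hs s)
  · refine hQ.mem (sum_mem fun α _ => smul_mem _ _ (mon_mem (fun i => pow_alg_le j (hy i)) _)) c4

/-- Elimination of one element of a reduction. -/
theorem elim_gen {e μ j : ℕ} (hP : Md T P) (hQ : Md T Q) (hf : ∀ L, Fd P (T ^ L * P ⊔ Q))
    (hG : Gr e μ T P Q) (hj : 0 < j) {y : Fin (e + 1) → K} (hy : ∀ i, y i ∈ T ^ j * alg T)
    (hR : Rd T j y P Q) : Gen fun l : Fin (e + 1) → k => Rd T j (fun i : Fin e =>
      y i.castSucc - (l i.castSucc / l (Fin.last e)) • y (Fin.last e)) P Q := by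
  classical
  obtain ⟨a, D, g, ⟨α₀, g0, g1⟩, g2⟩ := rel hP hQ hf hG hj hy
  let ex : (Fin (e + 1) → Fin a) → Fin (e + 1) →₀ ℕ := fun α =>
    Finsupp.equivFunOnFinite.symm fun i => α i
  have hex : Function.Injective ex := fun α β h => funext fun i => Fin.ext (by
    simpa [ex] using DFunLike.congr_fun h i)
  refine ⟨MvPolynomial.X (Fin.last e) * ∑ α with ∑ i, (α i : ℕ) = D,
    MvPolynomial.monomial (ex α) (g α), mul_ne_zero (MvPolynomial.X_ne_zero _) fun c => g1 ?_,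
    fun l hl => ?_⟩
  · have := congrArg (MvPolynomial.coeff (ex α₀)) c
    simpa [MvPolynomial.coeff_sum, MvPolynomial.coeff_monomial, hex.eq_iff, g0] using this
  simp only [map_mul, MvPolynomial.eval_X, map_sum, MvPolynomial.eval_monomial, mul_ne_zero_iff,
    Finsupp.prod_pow, ex, Finsupp.equivFunOnFinite_symm_apply_apply] at hl
  set w := (l (Fin.last e))⁻¹ • y (Fin.last e) with hw
  set Y := span k (Set.range y)
  set Z := span k (Set.range fun i : Fin e =>
      y i.castSucc - (l i.castSucc / l (Fin.last e)) • y (Fin.last e))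
  have hY : Y ≤ T ^ j * alg T := span_le.2 fun _ ⟨i, e⟩ => e ▸ hy i
  have y1 : ∀ i, y i ∈ Y := fun i => subset_span ⟨i, rfl⟩
  have w1 : w ∈ Y := smul_mem _ _ (y1 _)
  have z1 : ∀ i, y i - l i • w ∈ Z := fun i => by
    refine Fin.lastCases ?_ (fun i => subset_span ⟨i, ?_⟩) i
    · simp [hw, smul_smul, hl.1]
    · simp only [hw, smul_smul, div_eq_mul_inv]
  have hc := fun α : Fin (e + 1) → ℕ => (cg_mon univ y1 (fun i => smul_mem _ (l i) w1) z1 α).2.2
  simp only [smul_pow, prod_smul, prod_pow_eq_pow_sum] at hc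
  set Φ := ∑ α with ∑ i, (α i : ℕ) = D, g α • ∏ i, y i ^ (α i : ℕ) with hΦ
  have h1 : ∀ x ∈ Y, x * w ^ D ∈ Z * Y ^ D ⊔ Y * pr k Φ := fun x hx => by
    refine (smul_mem_iff _ hl.2).1 ?_
    rw [← sub_sub_cancel (x * Φ) (_ • (x * w ^ D))]
    refine sub_mem (mem_sup_right (mul_mem_mul hx (mem_span_singleton_self _))) (mem_sup_left ?_)
    rw [hΦ, mul_sum, sum_smul, ← sum_sub_distrib]
    refine sum_mem fun α hα => ?_
    have := smul_mem _ (g α) (hc (fun i => α i) x hx)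
    rw [(mem_filter.1 hα).2] at this
    simpa only [mul_sub, smul_sub, mul_smul_comm, smul_smul] using this
  have h2 : Y ^ (D + 1) ≤ Z * Y ^ D ⊔ Y * pr k Φ := by
    rw [pow_succ', mul_le]
    intro x hx
    refine pow_le_of_mon (G := comap (LinearMap.mulLeft k x) (Z * Y ^ D ⊔ Y * pr k Φ))
      fun α hα => ?_
    have := add_mem (mem_sup_left (hα ▸ hc α x hx)) (smul_mem _ (∏ i, l i ^ α i) (h1 x hx))
    change x * _ ∈ Z * Y ^ D ⊔ Y * pr k Φ
    simpa only [mul_sub, mul_smul_comm, sub_add_cancel, hα] using this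
  refine rd_trans (c := D + 1) (s := j * D) hP hQ hy hR (Nat.mul_succ _ _) fun n =>
    (mul_le_mul_left h2 _).trans ?_
  rw [Submodule.sup_mul, sup_assoc, mul_assoc, mul_assoc]
  refine sup_le_sup (mul_le_mul_right ((ypow_le (hP.mul _) hY D).trans (le_of_eq (by ring))) _) ?_
  have h3 : pr k Φ * P ≤ T ^ (j * D + 1) * P ⊔ Q := fun x hx => by
    obtain ⟨z, hz, rfl⟩ := mem_pr_mul.1 hx
    exact g2 z hz
  have h4 := mul_le_mul_right h3 (Y * T ^ n)
  rw [Submodule.mul_sup] at h4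
  refine le_of_eq_of_le (by ring) (h4.trans (sup_le_sup ?_ (hQ.le ((mul_le_mul'
    (hY.trans (pow_alg_le j)) (pow_le_alg (le_alg T) n)).trans (md_alg T)))))
  have := ypow_le (hP.mul (T ^ (n + (j * D + 1)))) hY 1
  exact le_of_eq_of_le (by ring) (this.trans (le_of_eq (by ring)))

/-- Existence of reductions. -/
theorem exists_rd [Infinite k] {e μ : ℕ} (hT : T.FG) (hP : Md T P) (hQ : Md T Q)
    (hf : ∀ L, Fd P (T ^ L * P ⊔ Q)) (hG : Gr e μ T P Q) :
    ∃ l : Fin e → K, (∀ i, l i ∈ T) ∧ Rd T 1 l P Q := by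
  obtain ⟨N, u, hu⟩ := fg_iff_exists_fin_generating_family.1 hT
  have u1 : ∀ i, u i ∈ T := fun i => hu ▸ subset_span ⟨i, rfl⟩
  suffices H : ∀ N, (∃ l : Fin (e + N) → K, (∀ i, l i ∈ T) ∧ Rd T 1 l P Q) →
      ∃ l : Fin e → K, (∀ i, l i ∈ T) ∧ Rd T 1 l P Q by
    refine H N ⟨Fin.append 0 u, fun i => ?_, 0, le_sup_of_le_left (le_sup_of_le_left ?_)⟩
    · refine Fin.addCases (fun i => ?_) (fun i => ?_) i <;> simp [u1]
    · rw [pow_zero, one_mul, zero_add, pow_one]
      refine mul_le_mul_left (hu.ge.trans (span_mono ?_)) _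
      rintro _ ⟨i, rfl⟩
      exact ⟨Fin.natAdd e i, by simp⟩
  intro N
  induction N with
  | zero => exact id
  | succ N ih =>
    rintro ⟨l, h1, h2⟩
    have hG' : Gr (e + N) μ T P Q := (hG.and_eventually (eventually_gt_atTop 0)).mono fun L h =>
      h.1.trans (Nat.mul_le_mul_left _ (Nat.pow_le_pow_right h.2 (by omega)))
    obtain ⟨c, hc⟩ := gen_exists (elim_gen hP hQ hf hG' one_pos (y := l)
      (fun i => by simpa using pow_mem_alg (h1 i) 1) h2)
    exact ih ⟨_, fun i => sub_mem (h1 _) (smul_mem _ _ (h1 _)), hc⟩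

/-- A satisfiable property that is cofinite on every line that meets it. -/
def Op (k : Type) [Field k] {U : Type} [AddCommGroup U] [Module k U] (Φ : U → Prop) : Prop :=
  (∃ a, Φ a) ∧ ∀ a b, Φ a → {t : k | ¬ Φ (a + t • b)}.Finite

section
variable {U : Type} [AddCommGroup U] [Module k U]

theorem Op.and [Infinite k] {Φ Ψ : U → Prop} (h : Op k Φ) (h' : Op k Ψ) :
    Op k fun a => Φ a ∧ Ψ a := by
  refine ⟨?_, fun a b c => ((h.2 a b c.1).union (h'.2 a b c.2)).subset fun t ht =>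
    not_and_or.1 ht⟩
  obtain ⟨a, ha⟩ := h.1
  obtain ⟨b, hb⟩ := h'.1
  obtain ⟨t, ht⟩ := ((h.2 a (b - a) ha).union ((h'.2 b (a - b) hb).image
    fun t => 1 - t)).exists_notMem
  refine ⟨a + t • (b - a), not_not.1 fun c => ht (Or.inl c), not_not.1 fun c =>
    ht (Or.inr ⟨1 - t, ?_, by ring⟩)⟩
  rwa [Set.mem_ofPred_eq, show b + (1 - t) • (a - b) = a + t • (b - a) by module]

theorem op_forall [Infinite k] {ι : Type} {s : Set ι} (hs : s.Finite) {Φ : ι → U → Prop}
    (h : ∀ i ∈ s, Op k (Φ i)) : Op k fun a => ∀ i ∈ s, Φ i a := by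
  induction s, hs using Set.Finite.induction_on with
  | empty => exact ⟨⟨0, by simp⟩, by simp⟩
  | insert _ _ ih =>
    simpa only [Set.forall_mem_insert] using (h _ (Set.mem_insert _ _)).and
      (ih fun i hi => h i (Set.mem_insert_of_mem _ hi))

theorem op_notMem {F : U → K} (hF : ∀ (φ : K →ₗ[k] k) a b, ∃ q : Polynomial k, ∀ t : k,
    φ (F (a + t • b)) = q.eval t) (h : ∃ a, F a ∉ P) : Op k fun a => F a ∉ P := by
  refine ⟨h, fun a b ha => ?_⟩
  obtain ⟨φ, h1, h2⟩ := P.exists_dual_map_eq_bot_of_notMem ha inferInstance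
  obtain ⟨q, hq⟩ := hF φ a b
  refine (q.finite_setOfPred_isRoot fun c => h1 ?_).subset fun t ht => ?_
  · simpa [c] using hq 0
  · exact (hq t).symm.trans ((mem_bot k).1 (h2 ▸ mem_map_of_mem (not_not.1 ht)))

theorem open_range (A B : U →ₗ[k] K) (hf : Fd P Q) (hA : ∀ z, A z ∈ P) (hB : ∀ z, B z ∈ P)
    (h : P ≤ LinearMap.range A ⊔ Q) : {t : k | ¬ P ≤ LinearMap.range (A + t • B) ⊔ Q}.Finite := by
  have : Module.Finite k (P.map Q.mkQ) := Module.Finite.iff_fg.2 hf
  let A' := (Q.mkQ ∘ₗ A).codRestrict (P.map Q.mkQ) fun z => mem_map_of_mem (hA z)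
  let B' := (Q.mkQ ∘ₗ B).codRestrict (P.map Q.mkQ) fun z => mem_map_of_mem (hB z)
  obtain ⟨R, hR⟩ := A'.exists_rightInverse_of_surjective (LinearMap.range_eq_top.2 (by
    rintro ⟨_, x, hx, rfl⟩
    obtain ⟨_, ⟨z, rfl⟩, y, hy, rfl⟩ := mem_sup.1 (h hx)
    exact ⟨z, Subtype.ext (by simp [A', (Quotient.mk_eq_zero _).2 hy])⟩))
  refine ((Module.End.finite_hasEigenvalue (B' ∘ₗ R)).image fun c => -c⁻¹).subset
    fun t ht => ?_
  have h1 : ¬ Function.Injective (LinearMap.id + t • (B' ∘ₗ R) : Module.End k _) := fun c => by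
    refine ht fun x hx => ?_
    obtain ⟨v, hv⟩ := LinearMap.surjective_of_injective c ⟨_, mem_map_of_mem hx⟩
    rw [← hR] at hv
    have h2 : Q.mkQ ((A + t • B) (R v)) = Q.mkQ x := by
      simpa [A', B'] using congrArg Subtype.val hv
    rw [← add_sub_cancel ((A + t • B) (R v)) x]
    exact add_mem_sup ⟨_, rfl⟩ ((Submodule.Quotient.eq _).1 h2.symm)
  obtain ⟨v, h2, h3⟩ := exists_mem_ne_zero_of_ne_bot (mt LinearMap.ker_eq_bot.1 h1)
  have h4 : v + t • (B' ∘ₗ R) v = 0 := h2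
  have h5 : t ≠ 0 := fun c => h3 (by simpa [c] using h4)
  refine ⟨-t⁻¹, Module.End.hasEigenvalue_of_hasEigenvector
    ⟨Module.End.mem_eigenspace_iff.2 ?_, h3⟩, by simp⟩
  rw [neg_smul, ← smul_neg, neg_eq_of_add_eq_zero_right h4, inv_smul_smul₀ h5]

end

/-- Reductions form an open set. -/
theorem op_rd [Infinite k] {e μ : ℕ} (hT : T.FG) (hP : Md T P) (hQ : Md T Q)
    (hf : ∀ L, Fd P (T ^ L * P ⊔ Q)) (hG : Gr e μ T P Q) :
    Op k fun l : Fin e → T => Rd T 1 (fun i => (l i : K)) P Q := by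
  obtain ⟨l, l1, l2⟩ := exists_rd hT hP hQ hf hG
  refine ⟨⟨fun i => ⟨l i, l1 i⟩, l2⟩, fun a b ⟨n, ha⟩ => ?_⟩
  let A : (Fin e → T) → (Fin e → (T ^ n * P :)) →ₗ[k] K := fun a =>
    ∑ i, LinearMap.mulLeft k (a i : K) ∘ₗ Submodule.subtype _ ∘ₗ LinearMap.proj i
  have h1 : ∀ a, LinearMap.range (A a) = span k (Set.range fun i => (a i : K)) * (T ^ n * P) := by
    refine fun a => le_antisymm ?_ fun x hx => span_mul_ind (C := (· ∈ LinearMap.range (A a))) hx
      (zero_mem _) (fun i y hy => ⟨Pi.single i ⟨y, hy⟩, ?_⟩) fun _ _ => add_mem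
    · rintro _ ⟨z, rfl⟩
      simp only [A, LinearMap.sum_apply]
      exact sum_mem fun i _ => mul_mem_mul (subset_span ⟨i, rfl⟩) (z i).2
    · simp [A, Pi.single_apply, apply_ite]
  have h2 : ∀ a z, A a z ∈ T ^ (n + 1) * P := fun a z => by
    rw [pow_succ', mul_assoc]
    exact mul_le_mul_left (span_le.2 (Set.range_subset_iff.2 fun i => (a i).2)) _
      ((h1 a).le ⟨z, rfl⟩)
  refine (open_range (Q := T ^ (n + 1 + 1) * P ⊔ Q) (A a) (A b) (cod_mono
    (by simpa using hP.anti (Nat.zero_le (n + 1))) (fun _ _ c => c) (hf _)).1 (h2 a) (h2 b)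
    (by rwa [h1, ← sup_assoc])).subset fun t ht c => ht ⟨n, ?_⟩
  rwa [sup_assoc, ← h1, show A (a + t • b) = A a + t • A b from LinearMap.ext fun z => by
    simp [A, add_mul, sum_add_distrib, smul_sum]]

theorem op_multi {e : ℕ} (f : MultilinearMap k (fun _ : Fin e => K) K)
    (h : ∃ l : Fin e → T, f (fun i => l i) ∉ P) : Op k fun l : Fin e → T => f (fun i => l i) ∉ P := by
  refine op_notMem (fun φ a b => ⟨∑ s : Finset (Fin e), Polynomial.monomial s.card
    (φ (f (s.piecewise (fun i => (b i : K)) fun i => (a i : K)))), fun t => ?_⟩) h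
  have e1 : (fun i => ((a + t • b) i : K)) = (fun i => t • (b i : K)) + fun i => (a i : K) := by
    funext i
    simp [add_comm]
  rw [e1, f.map_add_univ, map_sum, Polynomial.eval_finsetSum]
  refine sum_congr rfl fun s _ => ?_
  have := f.map_piecewise_smul (fun _ => t) (s.piecewise (fun i => (b i : K)) fun i => (a i : K)) s
  rw [Polynomial.eval_monomial, mul_comm, ← smul_eq_mul, ← map_smul, ← prod_const, ← this]
  congr 2
  funext i
  by_cases c : i ∈ s <;> simp [c]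

theorem op_entry {e : ℕ} (i : Fin e) (h : ¬ T ≤ P) : Op k fun l : Fin e → T => (l i : K) ∉ P := by
  obtain ⟨x, h1, h2⟩ := SetLike.not_le_iff_exists.1 h
  exact op_notMem (fun φ a b => ⟨Polynomial.C (φ (a i)) + Polynomial.X * Polynomial.C (φ (b i)),
    fun t => by simp; ring⟩) ⟨fun _ => ⟨x, h1⟩, h2⟩

/-- Only the class of a superficial element matters. -/
theorem rd_swap {J : Submodule k K} {M : ℕ → Submodule k K} (h : Fam T J M) {W W' : K}
    {b₀ b j : ℕ} (hW : SupW T M W b₀) (hb : b₀ ≤ b) (hM : Md T (M (b + 1))) {u : k} (hu : u ≠ 0)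
    (hW' : ∀ x ∈ M b, (W' - u • W) * x ∈ T * M (b + 1)) {ι : Type} {y : ι → K}
    (hy : ∀ i, y i ∈ T ^ j * alg T) (H : Rd T j y (M (b + 1)) (pr k W * M b)) :
    Rd T j y (M (b + 1)) (pr k W' * M b) := by
  obtain ⟨e, H⟩ := H
  refine ⟨e, fun x hx => ?_⟩
  obtain ⟨z, c1, _, c2, rfl⟩ := mem_sup.1 (H hx)
  obtain ⟨w, c3, rfl⟩ := mem_pr_mul.1 c2
  refine add_mem (mem_sup_left c1) ?_
  have h1 : z ∈ T ^ (e + j) * M (b + 1) := by
    refine sup_le ?_ (hM.anti (Nat.le_succ _)) c1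
    have := ypow_le (hM.mul (T ^ e)) (span_le.2 fun _ ⟨i, c⟩ => c ▸ hy i :
      span k (Set.range y) ≤ T ^ j * alg T) 1
    exact le_of_eq_of_le (by ring) (this.trans (le_of_eq (by ring)))
  have h2 := mul_mem_pow_mul hW' (hW.inj' h hb _ w c3 ((add_mem_cancel_left h1).1 hx))
  rw [← mul_assoc, ← pow_succ] at h2
  refine (smul_mem_iff _ hu).1 ?_
  rw [show u • (W * w) = W' * w - (W' - u • W) * w by rw [sub_mul, smul_mul_assoc, sub_sub_cancel]]
  exact sub_mem (mem_sup_right (mem_pr_mul.2 ⟨w, c3, rfl⟩)) (mem_sup_left (mem_sup_right h2))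

end Pool.Agent.MP_19ffc6_ag.Res.PA.LocK
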