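import Mathlib
import Pool.Agent.MP_19ffc6_ag.Res.Norm

/-! Module LOW of PROJECT RES, first part: jets of embeddings and the Nakayama lower bound. -/

namespace Pool.Agent.MP_19ffc6_ag.Res.Low

open Module Set

variable {k E N σ ι : Type} [Field k] [Field E] [Field N] [Algebra k E] [Algebra k N]

section Jet

open MvPolynomial

/-- The truncated polynomial ring. -/
abbrev Jet (N σ : Type) [Field N] (a : ℕ) : Type :=
  MvPolynomial σ N ⧸ Ideal.span (range fun j : σ => (X j : MvPolynomial σ N) ^ a)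

/-- The truncated variables. -/
noncomputable def eps (N : Type) [Field N] (a : ℕ) (j : σ) : Jet N σ a := Ideal.Quotient.mk _ (X j)

lemma eps_pow (a : ℕ) (j : σ) : eps N a j ^ a = 0 := by
  rw [eps, ← map_pow, Ideal.Quotient.eq_zero_iff_mem]
  exact Ideal.subset_span ⟨j, rfl⟩

/-- The augmentation. -/
noncomputable def aug (N σ : Type) [Field N] {a : ℕ} (ha : a ≠ 0) : Jet N σ a →ₐ[N] N :=
  Ideal.Quotient.liftₐ _ (aeval fun _ => 0) fun P hP => by
    refine (Ideal.span_le (I := RingHom.ker (aeval (R := N) fun _ : σ => (0 : N)))).2 ?_ hP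
    rintro _ ⟨j, rfl⟩
    simp [ha]

lemma aug_eps {a : ℕ} (ha : a ≠ 0) (j : σ) : aug N σ ha (eps N a j) = 0 := by
  simp [aug, eps]

lemma jet_adjoin (a : ℕ) : Algebra.adjoin N (range (eps N a : σ → Jet N σ a)) = ⊤ := by
  have h := Algebra.map_top (Ideal.Quotient.mkₐ N
    (Ideal.span (range fun j : σ => (X j : MvPolynomial σ N) ^ a)))
  rw [← adjoin_range_X, AlgHom.map_adjoin, ← range_comp,
    (AlgHom.range_eq_top _).2 (Ideal.Quotient.mkₐ_surjective _ _)] at h
  exact h

lemma jet_nil {a : ℕ} (ha : a ≠ 0) (d : Jet N σ a) :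
    IsNilpotent (d - algebraMap N _ (aug N σ ha d)) := by
  have hd : d ∈ Algebra.adjoin N (range (eps N a : σ → Jet N σ a)) := by
    rw [jet_adjoin]; trivial
  induction hd using Algebra.adjoin_induction with
  | mem d hd =>
    obtain ⟨j, rfl⟩ := hd
    rw [aug_eps, map_zero, sub_zero]
    exact ⟨a, eps_pow a j⟩
  | algebraMap c => simp
  | add d e _ _ hd he =>
    rw [map_add, map_add, add_sub_add_comm]
    exact (Commute.all _ _).isNilpotent_add hd he
  | mul d e _ _ hd he =>
    rw [map_mul, map_mul, show d * e - algebraMap N _ (aug N σ ha d) * algebraMap N _ (aug N σ ha e)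
      = (d - algebraMap N _ (aug N σ ha d)) * e + algebraMap N _ (aug N σ ha d) *
        (e - algebraMap N _ (aug N σ ha e)) by ring]
    exact (Commute.all _ _).isNilpotent_add ((Commute.all _ _).isNilpotent_mul_right hd)
      ((Commute.all _ _).isNilpotent_mul_left he)

instance jet_finite [Finite σ] (a : ℕ) [NeZero a] : Module.Finite N (Jet N σ a) := by
  have : Algebra.IsIntegral N (Jet N σ a) := ⟨fun d => by
    obtain ⟨n, hn⟩ := jet_nil (NeZero.ne a) d
    have h : IsIntegral N (d - algebraMap N _ (aug N σ (NeZero.ne a) d)) :=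
      IsIntegral.of_pow (n := n + 1) (Nat.succ_pos n) (by
        rw [pow_succ, hn, zero_mul]; exact isIntegral_zero)
    simpa using h.add (isIntegral_algebraMap (x := aug N σ (NeZero.ne a) d))⟩
  exact Algebra.IsIntegral.finite

lemma jet_dim [Fintype σ] (a : ℕ) [NeZero a] : a ^ Fintype.card σ ≤ finrank N (Jet N σ a) := by
  classical
  let ex : (σ → Fin a) → σ →₀ ℕ := fun f => Finsupp.equivFunOnFinite.symm fun j => (f j : ℕ)
  have hex : Function.Injective ex := fun f f' h => funext fun j =>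
    Fin.ext (congrFun (Finsupp.equivFunOnFinite.symm.injective h) j)
  have h : LinearIndependent N fun f : σ → Fin a =>
      (Ideal.Quotient.mk _ (monomial (ex f) 1) : Jet N σ a) := by
    rw [Fintype.linearIndependent_iff]
    intro c hc f
    have h1 : ∑ f, c f • monomial (ex f) (1 : N) ∈
        Ideal.span (range fun j : σ => (X j : MvPolynomial σ N) ^ a) := by
      rw [← Ideal.Quotient.eq_zero_iff_mem, map_sum, ← hc]
      rfl
    have h2 : (range fun j : σ => (X j : MvPolynomial σ N) ^ a) =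
        (fun s => monomial s (1 : N)) '' range fun j : σ => Finsupp.single j a := by
      rw [← range_comp]
      exact congrArg range (funext fun j => X_pow_eq_monomial)
    rw [h2, mem_ideal_span_monomial_image] at h1
    by_contra hf
    obtain ⟨_, ⟨j, rfl⟩, hj⟩ := h1 (ex f) (by
      rw [MvPolynomial.mem_support_iff, coeff_sum]
      simpa [coeff_monomial, hex.eq_iff] using hf)
    have h3 := hj j
    simp only [Finsupp.single_eq_same, ex, Finsupp.coe_equivFunOnFinite_symm] at h3
    exact absurd (f j).2 (not_lt.2 h3)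
  simpa using h.fintype_card_le_finrank

lemma jet_ker [Finite σ] {a : ℕ} (ha : a ≠ 0) :
    IsNilpotent (RingHom.ker (aug N σ ha : Jet N σ a →+* N)) := by
  obtain ⟨n, hn⟩ := IsNoetherianRing.isNilpotent_nilradical (Jet N σ a)
  refine ⟨n, le_bot_iff.1 ((Ideal.pow_right_mono (fun d hd => ?_) n).trans hn.le)⟩
  have h := jet_nil ha d
  rw [show aug N σ ha d = 0 from hd, map_zero, sub_zero] at h
  exact h

end Jet

section Fat

open TensorProduct

/-- `ρ` is a thickening of the embedding `τ` of order `a` in the directions `g`. -/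
structure Fat (g : σ → E) (τ : E →ₐ[k] N) (a q : ℕ) (W : Type) [CommRing W] [Algebra N W]
    (ρ : E →+* W) : Prop where
  fin : Module.Finite N W
  dim : q ≤ finrank N W
  const : ∀ c, ρ (algebraMap k E c) = algebraMap N W (algebraMap k N c)
  nil : ∀ e, IsNilpotent (ρ e - algebraMap N W (τ e))
  gen : Algebra.adjoin N (range ρ) = ⊤
  pow : ∀ j, (ρ (g j) - algebraMap N W (τ (g j))) ^ a = 0

/-- The jet of the embedding on the purely transcendental part. -/
lemma exists_jet_base [Finite σ] {g : σ → E} (hg : AlgebraicIndependent k g) (τ : E →ₐ[k] N)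
    {a : ℕ} (ha : a ≠ 0) : ∃ φ : IntermediateField.adjoin k (range g) →ₐ[k] Jet N σ a,
      (∀ y, aug N σ ha (φ y) = τ y) ∧ ∀ j, φ ⟨g j, IntermediateField.subset_adjoin _ _ ⟨j, rfl⟩⟩ =
        algebraMap N _ (τ (g j)) + eps N a j := by
  let f : MvPolynomial σ k →ₐ[k] Jet N σ a :=
    MvPolynomial.aeval fun j => algebraMap N _ (τ (g j)) + eps N a j
  have hf : ∀ P, aug N σ ha (f P) = τ (MvPolynomial.aeval g P) := fun P => by
    have h : ((aug N σ ha).restrictScalars k).comp f = τ.comp (MvPolynomial.aeval g) := by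
      ext j
      simp [f, aug_eps]
    exact AlgHom.congr_fun h P
  have hu : ∀ P : nonZeroDivisors (MvPolynomial σ k), IsUnit (f P) := fun P => by
    have h1 : τ (MvPolynomial.aeval g P.1) ≠ 0 := by
      rw [map_ne_zero, map_ne_zero_iff _ (algebraicIndependent_iff_injective_aeval.1 hg)]
      exact nonZeroDivisors.ne_zero P.2
    have h2 := (jet_nil ha (f P)).isUnit_add_right_of_commute
      (((isUnit_iff_ne_zero.2 h1).map (algebraMap N (Jet N σ a)))) (Commute.all _ _)
    rwa [hf, sub_add_cancel] at h2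
  let f' : FractionRing (MvPolynomial σ k) →ₐ[k] Jet N σ a := IsLocalization.liftAlgHom hu
  have hf' : ∀ P, f' (algebraMap _ _ P) = f P := fun P => by simp [f']
  refine ⟨f'.comp hg.aevalEquivField.symm.toAlgHom, fun y => ?_, fun j => ?_⟩
  · obtain ⟨z, rfl⟩ := hg.aevalEquivField.surjective y
    have h : ((aug N σ ha).restrictScalars k).comp f' = (τ.comp (IntermediateField.val _)).comp
        hg.aevalEquivField.toAlgHom := by
      refine IsLocalization.algHom_ext (nonZeroDivisors (MvPolynomial σ k)) (AlgHom.ext fun P => ?_)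
      have h1 := hg.aevalEquivField_algebraMap_apply_coe P
      have h2 := hf P
      rw [← hf', ← h1] at h2
      exact h2
    simpa using AlgHom.congr_fun h z
  · have h : hg.aevalEquivField.symm ⟨g j, IntermediateField.subset_adjoin _ _ ⟨j, rfl⟩⟩ =
        algebraMap _ _ (MvPolynomial.X j : MvPolynomial σ k) := by
      rw [AlgEquiv.symm_apply_eq]
      exact Subtype.ext (by rw [hg.aevalEquivField_algebraMap_apply_coe]; simp)
    simp [h, hf', f]

/-- The jet of the embedding on the separable closure. -/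
lemma exists_jet_sep [Finite σ] {g : σ → E} (hg : AlgebraicIndependent k g) (τ : E →ₐ[k] N)
    {a : ℕ} (ha : a ≠ 0) :
    ∃ φ : separableClosure (IntermediateField.adjoin k (range g)) E →+* Jet N σ a,
      (∀ y, aug N σ ha (φ y) = τ y) ∧
      (∀ c y, y.1 = algebraMap k E c → φ y = algebraMap N _ (algebraMap k N c)) ∧
      ∀ j y, y.1 = g j → φ y = algebraMap N _ (τ (g j)) + eps N a j := by
  obtain ⟨φ, h1, h2⟩ := exists_jet_base hg τ ha
  let F := IntermediateField.adjoin k (range g)
  let _ : Algebra F (Jet N σ a) := φ.toRingHom.toAlgebra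
  let _ : Algebra F N := (τ.comp F.val).toRingHom.toAlgebra
  have : Algebra.FormallyEtale F (separableClosure F E) := Algebra.FormallyEtale.of_isSeparable _ _
  let t : separableClosure F E →ₐ[F] N :=
    { τ.toRingHom.comp (separableClosure F E).val.toRingHom with commutes' := fun _ => rfl }
  let u : Jet N σ a →ₐ[F] N := { (aug N σ ha).toRingHom with commutes' := h1 }
  have hu : Function.Surjective u := fun c => ⟨algebraMap N _ c, (aug N σ ha).commutes c⟩
  let ψ := Algebra.FormallySmooth.liftOfSurjective t u hu (jet_ker ha)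
  refine ⟨ψ.toRingHom, fun y => Algebra.FormallySmooth.liftOfSurjective_apply t u hu _ y,
    fun c y hy => ?_, fun j y hy => ?_⟩
  · rw [show y = algebraMap F _ (algebraMap k F c) from Subtype.ext hy]
    exact (ψ.commutes _).trans ((φ.commutes c).trans (IsScalarTower.algebraMap_apply k N _ c))
  · rw [show y = algebraMap F _ ⟨g j, IntermediateField.subset_adjoin _ _ ⟨j, rfl⟩⟩ from
      Subtype.ext hy]
    exact (ψ.commutes _).trans (h2 j)

lemma fat_of {P D : Type} [Field P] [Algebra P E] [IsPurelyInseparable P E] [FiniteDimensional P E]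
    [CommRing D] [Algebra N D] [Algebra P D] [Module.Finite N D] {g : σ → E} {τ : E →ₐ[k] N}
    {a : ℕ} (ε : σ → D) (u : D →ₐ[N] N) (nil : ∀ d, IsNilpotent (d - algebraMap N D (u d)))
    (gen : Algebra.adjoin N (range ε) = ⊤) (pow : ∀ j, ε j ^ a = 0)
    (h1 : ∀ y, u (algebraMap P D y) = τ (algebraMap P E y))
    (h2 : ∀ c, ∃ y, algebraMap P E y = algebraMap k E c ∧
      algebraMap P D y = algebraMap N D (algebraMap k N c))
    (h3 : ∀ j, ∃ y, algebraMap P E y = g j ∧ algebraMap P D y = algebraMap N D (τ (g j)) + ε j) :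
    ∃ (W : Type) (_ : CommRing W) (_ : Algebra N W) (ρ : E →+* W),
      Fat g τ a (finrank P E * finrank N D) W ρ := by
  have : Nontrivial D := u.domain_nontrivial
  let ρ : E →+* D ⊗[P] E := (Algebra.TensorProduct.includeRight (R := P)).toRingHom
  have hρ : ∀ y : P, ρ (algebraMap P E y) = algebraMap D _ (algebraMap P D y) := fun y =>
    (Algebra.TensorProduct.includeRight.commutes y).trans
      (IsScalarTower.algebraMap_apply P D (D ⊗[P] E) y)
  have hW := IsScalarTower.algebraMap_apply N D (D ⊗[P] E)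
  have he : ∀ j, ρ (g j) - algebraMap N _ (τ (g j)) = algebraMap D _ (ε j) := fun j => by
    obtain ⟨y, e1, e2⟩ := h3 j
    rw [← e1, hρ, e1, e2, map_add, hW, add_sub_cancel_left]
  refine ⟨D ⊗[P] E, inferInstance, inferInstance, ρ, Module.Finite.trans D _, ?_, fun c => ?_,
    fun e => ?_, ?_, fun j => by rw [he, ← map_pow, pow, map_zero]⟩
  · rw [← finrank_mul_finrank N D (D ⊗[P] E), Module.finrank_baseChange, mul_comm]
  · obtain ⟨y, e1, e2⟩ := h2 c
    rw [← e1, hρ, e2, hW]
  · rcases subsingleton_or_nontrivial (D ⊗[P] E) with hs | hs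
    · exact ⟨0, Subsingleton.elim _ _⟩
    obtain ⟨q, hq⟩ := ExpChar.exists P
    have : ExpChar (D ⊗[P] E) q := expChar_of_injective_algebraMap (algebraMap P _).injective q
    obtain ⟨n, y, hy⟩ := IsPurelyInseparable.pow_mem P q e
    refine IsNilpotent.of_pow (m := q ^ n) ?_
    rw [sub_pow_expChar_pow, ← map_pow, ← map_pow, ← map_pow, ← hy, hρ, hW, ← map_sub, ← h1]
    exact (nil _).map _
  · rw [eq_top_iff]
    rintro w -
    induction w using TensorProduct.induction_on with
    | zero => exact zero_mem _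
    | add v w hv hw => exact add_mem hv hw
    | tmul d e =>
      rw [show d ⊗ₜ[P] e = algebraMap D _ d * ρ e by
        simp [ρ, Algebra.TensorProduct.algebraMap_apply]]
      refine mul_mem ?_ (Algebra.subset_adjoin ⟨e, rfl⟩)
      have hd : d ∈ Algebra.adjoin N (range ε) := by rw [gen]; trivial
      induction hd using Algebra.adjoin_induction with
      | mem d hd =>
        obtain ⟨j, rfl⟩ := hd
        rw [← he]
        exact sub_mem (Algebra.subset_adjoin ⟨_, rfl⟩) (Subalgebra.algebraMap_mem _ _)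
      | algebraMap c => rw [← hW]; exact Subalgebra.algebraMap_mem _ c
      | add d e _ _ hd he => rw [map_add]; exact add_mem hd he
      | mul d e _ _ hd he => rw [map_mul]; exact mul_mem hd he

lemma exists_fat [Fintype σ] {g : σ → E} (hg : AlgebraicIndependent k g)
    [FiniteDimensional (IntermediateField.adjoin k (range g)) E] (τ : E →ₐ[k] N) {a : ℕ}
    (ha : a ≠ 0) : ∃ (W : Type) (_ : CommRing W) (_ : Algebra N W) (ρ : E →+* W), Fat g τ a
      (Field.finInsepDegree (IntermediateField.adjoin k (range g)) E * a ^ Fintype.card σ) W ρ := by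
  obtain ⟨φ, h1, h2, h3⟩ := exists_jet_sep hg τ ha
  have : NeZero a := ⟨ha⟩
  let _ := φ.toAlgebra
  obtain ⟨W, _, _, ρ, h⟩ := fat_of (P := separableClosure (IntermediateField.adjoin k (range g)) E)
    (g := g) (τ := τ) (eps N a) (aug N σ ha) (jet_nil ha) (jet_adjoin a) (eps_pow a) h1
    (fun c => ⟨algebraMap _ _ (algebraMap k (IntermediateField.adjoin k (range g)) c), rfl,
      h2 c _ rfl⟩)
    (fun j => ⟨algebraMap (IntermediateField.adjoin k (range g)) _
      ⟨g j, IntermediateField.subset_adjoin _ _ ⟨j, rfl⟩⟩, rfl, h3 j _ rfl⟩)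
  exact ⟨W, _, _, ρ, { h with dim := (Nat.mul_le_mul_left _ (jet_dim a)).trans h.dim }⟩

end Fat

section Core

variable {W : Type} [CommRing W] [Algebra N W]

/-- Distinct embeddings: the thickenings are jointly generated. -/
lemma pi_gen [Fintype ι] {W : ι → Type} [∀ i, CommRing (W i)] [∀ i, Algebra N (W i)]
    (τ : ι → E →ₐ[k] N) (hτ : Function.Injective τ) (ρ : ∀ i, E →+* W i)
    (nil : ∀ i e, IsNilpotent (ρ i e - algebraMap N _ (τ i e)))
    (gen : ∀ i, Algebra.adjoin N (range (ρ i)) = ⊤) :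
    Algebra.adjoin N (range (RingHom.pi ρ)) = ⊤ := by
  classical
  set Y := Algebra.adjoin N (range (RingHom.pi ρ))
  have h1 : ∀ i (w : W i), ∃ y ∈ Y, y i = w := fun i w => by
    have h : Y.map (Pi.evalAlgHom N W i) = ⊤ := by
      rw [AlgHom.map_adjoin, ← range_comp]
      exact gen i
    obtain ⟨y, hy, e⟩ := (h.ge trivial : w ∈ Y.map (Pi.evalAlgHom N W i))
    exact ⟨y, hy, e⟩
  have h2 : ∀ i j, j ≠ i → ∃ y ∈ Y, IsUnit (y i) ∧ y j = 0 := fun i j hij => by
    obtain ⟨e, he⟩ := DFunLike.ne_iff.1 (hτ.ne hij)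
    obtain ⟨n, hn⟩ := nil j e
    refine ⟨(RingHom.pi ρ e - algebraMap N _ (τ j e)) ^ n, pow_mem (sub_mem (Algebra.subset_adjoin
      (mem_range_self e)) (Subalgebra.algebraMap_mem _ _)) _, IsUnit.pow n ?_, hn⟩
    have h := (nil i e).isUnit_add_right_of_commute
      ((isUnit_iff_ne_zero.2 (sub_ne_zero.2 he.symm)).map (algebraMap N (W i))) (Commute.all _ _)
    rw [map_sub, sub_add_sub_cancel] at h
    exact h
  choose! u hu h3 h4 using h2
  rw [eq_top_iff]
  rintro w -
  rw [← Finset.univ_sum_single w]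
  refine sum_mem fun i _ => ?_
  have h5 : IsUnit ((∏ j ∈ Finset.univ.erase i, u i j) i) := by
    rw [Finset.prod_apply]
    exact IsUnit.prod_iff.2 fun j hj => h3 i j (Finset.ne_of_mem_erase hj)
  obtain ⟨v, hv⟩ := h5.exists_left_inv
  obtain ⟨y, hy, e⟩ := h1 i (w i * v)
  have h6 : Pi.single i (w i) = y * ∏ j ∈ Finset.univ.erase i, u i j := by
    funext j
    by_cases hj : j = i
    · subst hj
      rw [Pi.single_eq_same, Pi.mul_apply, e, mul_assoc, hv, mul_one]
    · rw [Pi.single_eq_of_ne hj, Pi.mul_apply, Finset.prod_apply,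
        Finset.prod_eq_zero (Finset.mem_erase.2 ⟨hj, Finset.mem_univ j⟩) (h4 i j hj), mul_zero]
  rw [h6]
  exact mul_mem hy (prod_mem fun j hj => hu i j (Finset.ne_of_mem_erase hj))

/-- The image of a lattice spans. -/
lemma span_top [Module.Finite N W] (ρ : E →+* W) (gen : Algebra.adjoin N (range ρ) = ⊤)
    {A M : Set E} (hAM : ∀ a ∈ A, ∀ m ∈ M, a * m ∈ M)
    (hfr : ∀ e, ∃ a ∈ A, a ≠ 0 ∧ a * e ∈ M) : Submodule.span N (ρ '' M) = ⊤ := by
  set Y := Submodule.span N (ρ '' M)
  have h1 : ∀ e, ρ e ∈ Y := fun e => by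
    obtain ⟨a, ha, h0, he⟩ := hfr e
    have hs : ∀ y ∈ Y, LinearMap.mulLeft N (ρ a) y ∈ Y := fun y hy => by
      induction hy using Submodule.span_induction with
      | mem y hy =>
        obtain ⟨m, hm, rfl⟩ := hy
        exact Submodule.subset_span ⟨a * m, hAM a ha m hm, map_mul ρ a m⟩
      | zero => simp
      | add y z _ _ hy hz => rw [map_add]; exact add_mem hy hz
      | smul c y _ hy => rw [map_smul]; exact Y.smul_mem c hy
    have hu : IsUnit (ρ a) := (isUnit_iff_ne_zero.2 h0).map ρ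
    have hi : Function.Injective ((LinearMap.mulLeft N (ρ a)).restrict hs) := fun y z h =>
      Subtype.ext (hu.mul_left_cancel (congrArg Subtype.val h))
    obtain ⟨y, hy⟩ := LinearMap.surjective_of_injective hi
      ⟨ρ (a * e), Submodule.subset_span ⟨_, he, rfl⟩⟩
    have h : ρ a * y = ρ a * ρ e := (congrArg Subtype.val hy).trans (map_mul ρ a e)
    rw [← hu.mul_left_cancel h]
    exact y.2
  rw [eq_top_iff, ← Algebra.top_toSubmodule, ← gen, Algebra.adjoin_eq_span, Submodule.span_le]
  intro w hw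
  obtain ⟨e, rfl⟩ : w ∈ MonoidHom.mrange ρ := Submonoid.closure_le.2 (fun _ h => h) hw
  exact h1 e

/-- The Nakayama step. -/
lemma nak [Fintype ι] [Module.Finite N W] (ρ : E →+* W)
    (hc : ∀ c, ρ (algebraMap k E c) = algebraMap N W (algebraMap k N c))
    (gen : Algebra.adjoin N (range ρ) = ⊤) {A : Subalgebra k E} (hA : A.FG) (x : A →ₐ[k] k)
    {M M0 : Submodule k E} (h0 : M0.FG) (hM : M = Subalgebra.toSubmodule A * M0)
    (hfr : ∀ e, ∃ a ∈ A, a ≠ 0 ∧ a * e ∈ M) {B : Type} [CommRing B] [Algebra k B] [Algebra B N]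
    [Algebra B W] [IsScalarTower k B N] [IsScalarTower B N W]
    (hB : Function.Injective (algebraMap B N)) (ψ : B →ₐ[k] k) (b : ι → A → B)
    (hb : ∀ i t, ψ (b i t) = x t) (hn : ∀ t : A, IsNilpotent (∏ i, (ρ t - algebraMap B W (b i t)))) :
    ∃ (I : Ideal A) (U : Submodule k E), (∀ t ∈ I, ∀ m ∈ M, (t : E) * m ∈ U) ∧
      (∃ L, RingHom.ker x ^ L ≤ I) ∧
      (∀ (s s' : B) (t t' : A) (a : ℕ), (algebraMap B W s * ρ t - algebraMap B W s' * ρ t') ^ a = 0 →
        (ψ s • t - ψ s' • t') ^ a ∈ I) ∧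
      ∀ T : Finset E, M ≤ Submodule.span k (T : Set E) ⊔ U → finrank N W ≤ T.card := by
  classical
  have hN : IsNoetherianRing A := isNoetherianRing_of_fg hA
  obtain ⟨G, hG⟩ := hA
  obtain ⟨G0, rfl⟩ := h0
  have hck : ∀ c, ρ (algebraMap k E c) = algebraMap B W (algebraMap k B c) := fun c => by
    rw [hc, IsScalarTower.algebraMap_apply B N W, ← IsScalarTower.algebraMap_apply k B N]
  have hsm : ∀ (c : k) e, ρ (c • e) = algebraMap k B c • ρ e := fun c e => by
    rw [Algebra.smul_def, Algebra.smul_def, map_mul, hck]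
  let C := Algebra.adjoin B (ρ '' G)
  have hC : ∀ t ∈ A, ρ t ∈ C := fun t ht => by
    rw [← hG] at ht
    induction ht using Algebra.adjoin_induction with
    | mem t ht => exact Algebra.subset_adjoin ⟨t, ht, rfl⟩
    | algebraMap c => rw [hck]; exact C.algebraMap_mem _
    | add s t _ _ hs ht => rw [map_add]; exact add_mem hs ht
    | mul s t _ _ hs ht => rw [map_mul]; exact mul_mem hs ht
  have hCfg : (Subalgebra.toSubmodule C).FG := by
    refine fg_adjoin_of_finite (G.finite_toSet.image ρ) ?_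
    rintro _ ⟨t, ht, rfl⟩
    have ht' : t ∈ A := hG ▸ Algebra.subset_adjoin ht
    obtain ⟨n, hn⟩ := hn ⟨t, ht'⟩
    refine ⟨(∏ i, (Polynomial.X - Polynomial.C (b i ⟨t, ht'⟩))) ^ n,
      (Polynomial.monic_prod_of_monic _ _ fun i _ => Polynomial.monic_X_sub_C _).pow n, ?_⟩
    rw [← Polynomial.aeval_def, map_pow, map_prod]
    simpa using hn
  let Λ : Submodule B W := Subalgebra.toSubmodule C * Submodule.span B (ρ '' G0)
  have hΛ : Λ.FG := hCfg.mul (Submodule.fg_span (G0.finite_toSet.image ρ))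
  have hCΛ : ∀ w ∈ C, ∀ v ∈ Λ, w * v ∈ Λ := fun w hw v hv => by
    refine Submodule.mul_induction_on hv (fun c hc u hu => ?_) fun u u' hu hu' => ?_
    · rw [← mul_assoc]
      exact Submodule.mul_mem_mul (C.mul_mem hw hc) hu
    · rw [mul_add]; exact add_mem hu hu'
  have hsp : ∀ (S : Set E) (Y : Submodule B W), (∀ e ∈ S, ρ e ∈ Y) →
      ∀ e ∈ Submodule.span k S, ρ e ∈ Y := fun S Y h e he => by
    induction he using Submodule.span_induction with
    | mem e he => exact h e he
    | zero => simp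
    | add e e' _ _ he he' => rw [map_add]; exact add_mem he he'
    | smul c e _ he => rw [hsm]; exact Y.smul_mem _ he
  have hMΛ : ∀ m ∈ M, ρ m ∈ Λ := fun m hm => by
    rw [hM] at hm
    refine Submodule.mul_induction_on hm (fun t ht u hu => ?_) fun u u' hu hu' => ?_
    · rw [map_mul]
      exact Submodule.mul_mem_mul (hC t ht)
        (hsp _ _ (fun e he => Submodule.subset_span (mem_image_of_mem ρ he)) u hu)
    · rw [map_add]; exact add_mem hu hu'
  have hAM : ∀ t ∈ A, ∀ m ∈ M, t * m ∈ M := fun t ht m hm => by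
    rw [hM] at hm ⊢
    refine Submodule.mul_induction_on hm (fun c hc u hu => ?_) fun u u' hu hu' => ?_
    · rw [← mul_assoc]
      exact Submodule.mul_mem_mul (A.mul_mem ht hc) hu
    · rw [mul_add]; exact add_mem hu hu'
  have hΛM : Λ ≤ Submodule.span B (ρ '' M) := by
    have h1 : Subalgebra.toSubmodule C ≤ Submodule.span B (ρ '' A) := by
      rw [Algebra.adjoin_eq_span]
      refine Submodule.span_mono fun w hw => ?_
      have h : Submonoid.closure (ρ '' G) ≤ A.toSubmonoid.map ρ :=
        Submonoid.closure_le.2 (image_mono fun t ht => hG ▸ Algebra.subset_adjoin ht)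
      exact h hw
    refine (mul_le_mul_left h1 _).trans ?_
    rw [Submodule.span_mul_span]
    refine Submodule.span_mono ?_
    rintro _ ⟨_, ⟨t, ht, rfl⟩, _, ⟨u, hu, rfl⟩, rfl⟩
    exact ⟨t * u, hM ▸ Submodule.mul_mem_mul ht (Submodule.subset_span hu), map_mul ρ t u⟩
  let p : Ideal B := RingHom.ker ψ
  let J : Ideal C := p.map (algebraMap B C)
  have hJ : ∀ w ∈ J, ∀ v ∈ Λ, (w : W) * v ∈ p • Λ := fun w hw => by
    induction hw using Submodule.span_induction with
    | mem w hw =>
      obtain ⟨c, hc, rfl⟩ := hw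
      intro v hv
      rw [show ((algebraMap B C c : C) : W) * v = c • v from (Algebra.smul_def c v).symm]
      exact Submodule.smul_mem_smul hc hv
    | zero => simp
    | add w w' _ _ hw hw' =>
      intro v hv
      rw [Subalgebra.coe_add, add_mul]
      exact add_mem (hw v hv) (hw' v hv)
    | smul c w _ hw =>
      intro v hv
      rw [smul_eq_mul, Subalgebra.coe_mul, mul_comm (c : W), mul_assoc]
      exact hw _ (hCΛ c c.2 v hv)
  let ρ' : A →+* C := (ρ.comp A.val.toRingHom).codRestrict C fun t => hC t t.2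
  obtain ⟨Q, _, π, hπ⟩ : ∃ (Q : Type) (_ : CommRing Q) (π : C →+* Q), ∀ w, π w = 0 ↔ w ∈ J :=
    ⟨_, _, Ideal.Quotient.mk J, fun _ => Ideal.Quotient.eq_zero_iff_mem⟩
  let φ : A →+* Q := π.comp ρ'
  have hβ : ∀ s : B, π (algebraMap B C s) = φ (algebraMap k A (ψ s)) := fun s => by
    have h : ρ' (algebraMap k A (ψ s)) = algebraMap B C (algebraMap k B (ψ s)) :=
      Subtype.ext (hck _)
    refine Eq.trans ?_ (congrArg π h.symm)
    rw [← sub_eq_zero, ← map_sub, hπ, ← map_sub]
    exact Ideal.mem_map_of_mem _ (by simp [p, RingHom.mem_ker])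
  let U : Submodule k E :=
    { carrier := {e | ρ e ∈ p • Λ}
      add_mem' := fun h h' => by rw [mem_ofPred, map_add]; exact add_mem h h'
      zero_mem' := by simp
      smul_mem' := fun c e h => by rw [mem_ofPred, hsm]; exact Submodule.smul_mem _ _ h }
  refine ⟨RingHom.ker φ, U, fun t ht m hm => ?_, ?_, fun s s' t t' a h => ?_, fun T hT => ?_⟩
  · change ρ (t * m) ∈ p • Λ
    rw [map_mul]
    exact hJ (ρ' t) ((hπ _).1 ht) _ (hMΛ m hm)
  · refine Ideal.exists_pow_le_of_le_radical_of_fg (fun t ht => ?_) (IsNoetherian.noetherian _)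
    obtain ⟨n, hn⟩ := hn t
    have h1 : (∏ i, (ρ' t - algebraMap B C (b i t))) ^ n = 0 := Subtype.ext (by simpa [ρ'] using hn)
    have h2 := congrArg π h1
    have h3 : x t = 0 := ht
    simp only [map_pow, map_prod, map_sub, hβ, hb, h3, map_zero, sub_zero, Finset.prod_const,
      ← pow_mul] at h2
    exact ⟨_, by rw [RingHom.mem_ker, map_pow]; exact h2⟩
  · have h1 : (algebraMap B C s * ρ' t - algebraMap B C s' * ρ' t') ^ a = 0 :=
      Subtype.ext (by simpa [ρ'] using h)
    have h2 := congrArg π h1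
    simp only [map_pow, map_mul, map_sub, hβ, map_zero] at h2
    rw [RingHom.mem_ker, Algebra.smul_def, Algebra.smul_def, map_pow, map_sub, map_mul, map_mul]
    exact h2
  · have h1 : Λ ≤ Submodule.span B (ρ '' T) ⊔ p • Λ := by
      refine hΛM.trans (Submodule.span_le.2 ?_)
      rintro _ ⟨m, hm, rfl⟩
      obtain ⟨u, hu, v, hv, rfl⟩ := Submodule.mem_sup.1 (hT hm)
      rw [map_add]
      exact Submodule.add_mem_sup
        (hsp _ _ (fun e he => Submodule.subset_span (mem_image_of_mem ρ he)) u hu) hv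
    obtain ⟨r, hr, h2⟩ := Submodule.exists_sub_one_mem_and_smul_le_of_fg_of_le_sup hΛ le_rfl h1
    have hr0 : algebraMap B N r ≠ 0 := fun h => by
      have h3 : ψ (r - 1) = 0 := hr
      simp [(map_eq_zero_iff _ hB).1 h] at h3
    have h3 : Submodule.span N (ρ '' M) ≤ Submodule.span N (T.image ρ : Set W) := by
      rw [Submodule.span_le, Finset.coe_image]
      rintro _ ⟨m, hm, rfl⟩
      have h4 : r • ρ m ∈ Submodule.span N (ρ '' T) :=
        Submodule.span_le_restrictScalars B N _ (h2 (Submodule.smul_mem_pointwise_smul _ r _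
          (hMΛ m hm)))
      rw [← algebraMap_smul N] at h4
      exact (Submodule.smul_mem_iff _ hr0).1 h4
    rw [span_top ρ gen hAM hfr, top_le_iff] at h3
    rw [← finrank_top, ← h3]
    exact (finrank_span_finset_le_card _).trans Finset.card_image_le

end Core

/-- The lower bound at a point. -/
theorem low_pt [Fintype ι] [Fintype σ] {A : Subalgebra k E} (hA : A.FG) (x : A →ₐ[k] k)
    {M M0 : Submodule k E} (h0 : M0.FG) (hM : M = Subalgebra.toSubmodule A * M0)
    (hfr : ∀ e, ∃ a ∈ A, a ≠ 0 ∧ a * e ∈ M) (s : A) (S : σ → A) {g : σ → E}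
    (hgS : ∀ j, g j * s = S j) (hg : AlgebraicIndependent k g)
    [FiniteDimensional (IntermediateField.adjoin k (range g)) E] (τ : ι → E →ₐ[k] N)
    (hτ : Function.Injective τ) {B : Subalgebra k N}
    (ψ : B →ₐ[k] k) (hB : ∀ i (t : A), τ i t ∈ B) (hψ : ∀ i t, ψ ⟨_, hB i t⟩ = x t) {a : ℕ}
    (ha : a ≠ 0) : ∃ (I : Ideal A) (U : Submodule k E), (∀ t ∈ I, ∀ m ∈ M, (t : E) * m ∈ U) ∧
      (∃ L, RingHom.ker x ^ L ≤ I) ∧ (∀ j (u v : B), (∀ i, u * τ i (g j) = v) →
        (ψ u • S j - ψ v • s) ^ a ∈ I) ∧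
      ∀ T : Finset E, M ≤ Submodule.span k (T : Set E) ⊔ U → Fintype.card ι *
        (Field.finInsepDegree (IntermediateField.adjoin k (range g)) E * a ^ Fintype.card σ) ≤
          T.card := by
  choose W _ _ ρ h using fun i => exists_fat hg (τ i) ha
  have := fun i => (h i).fin
  obtain ⟨I, U, h1, h2, h3, h4⟩ := nak (N := N) (RingHom.pi ρ)
    (fun c => funext fun i => (h i).const c)
    (pi_gen τ hτ ρ (fun i => (h i).nil) fun i => (h i).gen) hA x h0 hM hfr
    (B := B) Subtype.val_injective ψ (fun i t => ⟨_, hB i t⟩) hψ fun t => by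
      choose n hn using fun i => (h i).nil t
      refine ⟨∑ i, n i, funext fun i => ?_⟩
      rw [Pi.pow_apply, Finset.prod_apply]
      classical
      rw [← Finset.mul_prod_erase _ _ (Finset.mem_univ i), mul_pow]
      exact mul_eq_zero_of_left (pow_eq_zero_of_le (Finset.single_le_sum
        (fun _ _ => Nat.zero_le _) (Finset.mem_univ i)) (hn i)) _
  refine ⟨I, U, h1, h2, fun j u v huv => h3 _ _ _ _ a (funext fun i => ?_),
    fun T hT => le_trans ?_ (h4 T hT)⟩
  · change (algebraMap N (W i) u * ρ i (S j) - algebraMap N (W i) v * ρ i s) ^ a = 0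
    rw [← hgS, ← huv i, map_mul, map_mul, show ∀ u v w z : W i,
      u * (v * w) - u * z * w = u * w * (v - z) from fun _ _ _ _ => by ring, mul_pow, (h i).pow,
      mul_zero]
  · rw [Module.finrank_pi_fintype, ← smul_eq_mul, ← Finset.card_univ]
    exact Finset.card_nsmul_le_sum _ _ _ fun i _ => (h i).dim

/-- A rational point on a proper ideal. -/
lemma exists_hom [IsAlgClosed k] {B : Subalgebra k N} (hB : B.FG) {I : Ideal B} (hI : I ≠ ⊤) :
    ∃ ψ : B →ₐ[k] k, ∀ b ∈ I, ψ b = 0 := by
  obtain ⟨P, hP, hI⟩ := Ideal.exists_le_maximal I hI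
  have : Algebra.FiniteType k B := (Subalgebra.fg_iff_finiteType _).1 hB
  let _ := Ideal.Quotient.field P
  have : Module.Finite k (B ⧸ P) := finite_of_finite_type_of_isJacobsonRing _ _
  let e : k ≃ₐ[k] B ⧸ P :=
    AlgEquiv.ofBijective (Algebra.ofId _ _) IsAlgClosed.algebraMap_bijective_of_isIntegral
  refine ⟨e.symm.toAlgHom.comp (Ideal.Quotient.mkₐ k P), fun b hb => ?_⟩
  have h1 : Ideal.Quotient.mkₐ k P b = 0 := Ideal.Quotient.eq_zero_iff_mem.2 (hI hb)
  rw [AlgHom.comp_apply, h1, map_zero]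

open Wild in
/-- A rational point below the centre of a valuation. -/
lemma exists_point [IsAlgClosed k] {B O : Subalgebra k N} (hB : B.FG) (hO : Val O) (h : B ≤ O) :
    ∃ ψ : B →ₐ[k] k, ∀ b : B, ¬ Un O b → ψ b = 0 := by
  let I : Ideal B :=
    { carrier := {b | (b : N) ∈ mx hO.lcl}
      add_mem' := fun h1 h2 => (mx hO.lcl).add_mem h1 h2
      zero_mem' := (mx hO.lcl).zero_mem
      smul_mem' := fun c b hb => by
        change (c : N) * b ∈ mx hO.lcl
        rw [mul_comm]
        exact mul_mem_mx hO.lcl hb (h c.2) }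
  obtain ⟨ψ, hψ⟩ := exists_hom hB (I := I) ((Ideal.ne_top_iff_one I).2 fun h1 => h1.2 (Un.one O))
  exact ⟨ψ, fun b hb => hψ b ⟨h b.2, hb⟩⟩

end Pool.Agent.MP_19ffc6_ag.Res.Low
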