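import Mathlib
import Pool.Agent.MP_19ffc6_ag.Res.TorD

/-! PROJECT RESP (perfect ground fields): semilinear automorphisms, stable linear systems,
spanning sets of monomials and toroidal systems with a prescribed class of linear systems. -/

namespace Pool.Agent.MP_19ffc6_ag.Res.P

open Pool.Agent.MP_19ffc6_ag.Wild Pool.Agent.MP_19ffc6_ag.Lci Pool.Agent.MP_19ffc6_ag.Res.Tor

variable {k L : Type} [Field k] [Field L] [Algebra k L]

variable (k L) in
/-- An automorphism of `L` that induces an automorphism of `k`. -/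
@[ext] structure SA where
  e : L ≃+* L
  σ : k ≃+* k
  map : ∀ c, e (algebraMap k L c) = algebraMap k L (σ c)

namespace SA

instance : Group (SA k L) where
  mul g h := ⟨g.e * h.e, g.σ * h.σ, fun c => (congrArg g.e (h.map c)).trans (g.map _)⟩
  one := ⟨1, 1, fun _ => rfl⟩
  inv g := ⟨g.e⁻¹, g.σ⁻¹, fun c => g.e.injective ((g.e.apply_symm_apply _).trans
    ((g.map _).trans (congrArg _ (g.σ.apply_symm_apply c))).symm)⟩
  mul_assoc _ _ _ := rfl
  one_mul _ := rfl
  mul_one _ := rfl
  inv_mul_cancel g := SA.ext (inv_mul_cancel g.e) (inv_mul_cancel g.σ)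

instance : MulSemiringAction (SA k L) L where
  smul g x := g.e x
  one_smul _ := rfl
  mul_smul _ _ _ := rfl
  smul_zero g := map_zero g.e
  smul_add g := map_add g.e
  smul_one g := map_one g.e
  smul_mul g := map_mul g.e

lemma smul_def (g : SA k L) (x : L) : g • x = g.e x := rfl

lemma smul_alg (g : SA k L) (c : k) : g • algebraMap k L c = algebraMap k L (g.σ c) := g.map c

lemma smul_smul' (g : SA k L) (c : k) (x : L) : g • c • x = g.σ c • g • x := by
  rw [Algebra.smul_def, Algebra.smul_def, smul_mul', smul_alg]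

instance : MulAction (SA k L) (Submodule k L) where
  smul g M :=
    { carrier := {x | g⁻¹ • x ∈ M}
      zero_mem' := by simp
      add_mem' := fun ha hb => by simpa only [Set.mem_ofPred_eq, smul_add] using add_mem ha hb
      smul_mem' := fun c x hx => by
        simpa only [Set.mem_ofPred_eq, smul_smul'] using M.smul_mem _ hx }
  one_smul M := Submodule.ext fun _ => Iff.rfl
  mul_smul _ _ _ := Submodule.ext fun _ => Iff.rfl

instance : MulAction (SA k L) (Subalgebra k L) where
  smul g O :=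
    { carrier := {x | g⁻¹ • x ∈ O}
      add_mem' := fun ha hb => by simpa only [Set.mem_ofPred_eq, smul_add] using add_mem ha hb
      mul_mem' := fun ha hb => by simpa only [Set.mem_ofPred_eq, smul_mul'] using mul_mem ha hb
      algebraMap_mem' := fun c => by
        simpa only [Set.mem_ofPred_eq, smul_alg] using O.algebraMap_mem _ }
  one_smul O := Subalgebra.ext fun _ => Iff.rfl
  mul_smul _ _ _ := Subalgebra.ext fun _ => Iff.rfl

end SA

variable {g : SA k L} {x : L}

lemma mem_sM {M : Submodule k L} : x ∈ g • M ↔ g⁻¹ • x ∈ M := Iff.rfl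

lemma mem_sA {O : Subalgebra k L} : x ∈ g • O ↔ g⁻¹ • x ∈ O := Iff.rfl

lemma smul_mem_sM {M : Submodule k L} : g • x ∈ g • M ↔ x ∈ M := by rw [mem_sM, inv_smul_smul]

lemma smul_mem_sA {O : Subalgebra k L} : g • x ∈ g • O ↔ x ∈ O := by rw [mem_sA, inv_smul_smul]

/-- `g` fixes the subfield `K₀` pointwise. -/
def Fx (K₀ : Subfield L) (g : SA k L) : Prop := ∀ x ∈ K₀, g • x = x

lemma Fx.inv {K₀ : Subfield L} (h : Fx K₀ g) : Fx K₀ g⁻¹ := fun x hx =>
  inv_smul_eq_iff.2 (h x hx).symm

lemma Fx.mul {K₀ : Subfield L} {g' : SA k L} (h : Fx K₀ g) (h' : Fx K₀ g') : Fx K₀ (g * g') :=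
  fun x hx => by rw [mul_smul, h' x hx, h x hx]

lemma Fx.one (K₀ : Subfield L) : Fx K₀ (1 : SA k L) := fun x _ => one_smul _ x

lemma Fx.mono {K₀ K₁ : Subfield L} (h : Fx K₁ g) (hK : K₀ ≤ K₁) : Fx K₀ g :=
  fun x hx => h x (hK hx)

/-- `M` is stable under the automorphisms over `K₀`. -/
def Stb (K₀ : Subfield L) (M : Submodule k L) : Prop :=
  ∀ g : SA k L, Fx K₀ g → ∀ x ∈ M, g • x ∈ M

lemma Stb.eq {K₀ : Subfield L} {M : Submodule k L} (h : Stb K₀ M) (hg : Fx K₀ g) : g • M = M :=
  Submodule.ext fun x => ⟨fun hx => smul_inv_smul g x ▸ h g hg _ hx, h _ hg.inv x⟩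

lemma Stb.mono {K₀ K₁ : Subfield L} {M : Submodule k L} (h : Stb K₀ M) (hK : K₀ ≤ K₁) :
    Stb K₁ M := fun g hg => h g (hg.mono hK)

/-- `K` is obtained from `K₀` by extending the constants from `k₀` to `k`. -/
structure Form (k₀ : Subfield k) (K₀ : Subfield L) (K : IntermediateField k L) : Prop where
  cst : ∀ c ∈ k₀, algebraMap k L c ∈ K₀
  eq : K = IntermediateField.adjoin k (K₀ : Set L)

/-- Galois descent from `K` to `K₀`. -/
structure Gl (K₀ : Subfield L) (K : IntermediateField k L) : Prop where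
  eq : K = IntermediateField.adjoin k (K₀ : Set L)
  alg : ∀ x ∈ K, IsAlgebraic K₀ x
  fix : ∀ x ∈ K, (∀ g : SA k L, Fx K₀ g → g • x = x) → x ∈ K₀
  desc : ∀ V : Submodule k L, (∀ x ∈ V, x ∈ K) → Stb K₀ V →
    V ≤ Submodule.span k {x | x ∈ V ∧ x ∈ K₀}

/-- A power of `u` is a unit times a monomial in the members of `S`. -/
def Pw (S : Finset L) (O : Subalgebra k L) (u : L) : Prop :=
  ∃ N : ℕ, 0 < N ∧ ∃ e : L → ℤ, Un O (u ^ N / ∏ f ∈ S, f ^ e f)

/-- The members of `S` span the monomials in `z` rationally. -/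
def Ful (S : Finset L) (O : Subalgebra k L) {ι : Type} (z : ι → L) : Prop := ∀ i, Pw S O (z i)

/-- A class of finite dimensional spaces that is closed under sums and products. -/
structure Cls (C : Submodule k L → Prop) : Prop where
  fg : ∀ A, C A → A.FG
  bot : C ⊥
  one : C 1
  mul : ∀ A B, C A → C B → C (A * B)
  sup : ∀ A B, C A → C B → C (A ⊔ B)

/-- The stable finite dimensional subspaces of `K`. -/
def Cl (K₀ : Subfield L) (K : IntermediateField k L) (A : Submodule k L) : Prop :=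
  A.FG ∧ Stb K₀ A ∧ ∀ x ∈ A, x ∈ K

/-- `Glob` with both spaces in the class `C`. -/
def GlobC (C : Submodule k L → Prop) (M : Submodule k L) (J : Subalgebra k L → Submodule k L) :
    Prop :=
  ∃ A B : Submodule k L, C A ∧ C B ∧ ∀ O, Pt ⊥ M O →
    ∃ g, g ≠ 0 ∧ sp O B = sp O (pr k g) ∧ sp O A = sp O (pr k g * J O)

/-- `TS.Good` with all global spaces in the class `C`. -/
structure GoodC (C : Submodule k L → Prop) (s : TS k L) : Prop where
  cl : C s.M
  ne : s.M ≠ ⊥
  fin : ((fun O => (s.ch O).ty) '' {O | s.P O}).Finite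
  cht : ∀ O, s.P O → (s.ch O).At O
  glob : ∀ a, GlobC C s.M (s.J a)

variable (k L) in
/-- Module PTOR: toroidal resolution inside a class of linear systems. -/
def ResolveP : Prop :=
  ∀ (C : Submodule k L → Prop) (s : TS k L) (S : Set L), Cls C → GoodC C s → S.Finite →
    (∀ f ∈ S, ∃ a, s.HasExp f a) →
    ∃ s' : TS k L, GoodC C s' ∧ s.Ref s' ∧ s'.Uni ∧ ∀ f ∈ S, s'.Cmp f

end Pool.Agent.MP_19ffc6_ag.Res.P
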