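import Pool.Agent.MP_19ffc6_ag.Res.PSpec
import Pool.Agent.MP_19ffc6_ag.Res.ParA
import Pool.Agent.MP_19ffc6_ag.Res.Descent

/-! PROJECT RESP: Galois descent of a smooth projective model to a perfect ground field. -/

namespace Pool.Agent.MP_19ffc6_ag.Res.P

open Pool.Agent.MP_19ffc6_ag.Wild Pool.Agent.MP_19ffc6_ag.Lci Pool.Agent.MP_19ffc6_ag.Res.B
open Pool.Agent.MP_19ffc6_ag.Res.Descent TensorProduct Algebra

namespace Dsc

open scoped IntermediateField.algebraAdjoinAdjoin in
/-- The constants of a finitely generated extension form a finite extension. -/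
theorem finite_const {κ K : Type} [Field κ] [Field K] [Algebra κ K]
    (h : (⊤ : IntermediateField κ K).FG) : FiniteDimensional κ (algebraicClosure κ K) := by
  classical
  obtain ⟨s, ht⟩ := exists_isTranscendenceBasis κ K
  have := IntermediateField.fg_top_iff.1 h
  let F := IntermediateField.adjoin κ (Set.range ((↑) : s → K))
  have : Algebra.IsAlgebraic F K := ht.isAlgebraic_field
  have : Algebra.EssFiniteType F K := .of_comp κ F K
  have : Module.Finite F K := Algebra.finite_of_essFiniteType_of_isAlgebraic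
  refine Module.rank_lt_aleph0_iff.1 ((rank_le (n := Module.finrank F K) fun c hc => ?_).trans_lt
    Cardinal.natCast_lt_aleph0)
  have h1 : LinearIndependent F fun i : c => ((i : algebraicClosure κ K) : K) := by
    rw [← LinearIndependent.iff_fractionRing (adjoin κ (Set.range ((↑) : s → K))) F,
      Fintype.linearIndependent_iff]
    intro a ha i
    choose P hP using fun i => ht.1.aevalEquiv.surjective (a i)
    have h2 : ∑ i : c, MvPolynomial.C (i : algebraicClosure κ K) *
        MvPolynomial.map (algebraMap κ _) (P i) = 0 := by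
      refine algebraicIndependent_iff.1 ht.1.algebraicClosure _ ?_
      rw [← ha, map_sum]
      refine Finset.sum_congr rfl fun i _ => ?_
      rw [map_mul, MvPolynomial.aeval_C, MvPolynomial.aeval_map_algebraMap, ← hP, mul_comm]
      exact congrArg (· * _) (ht.1.algebraMap_aevalEquiv (P i)).symm
    have h3 : P i = 0 := MvPolynomial.ext _ _ fun d => by
      refine Fintype.linearIndependent_iff.1 hc (fun i => (P i).coeff d) ?_ i
      have := congrArg (MvPolynomial.coeff d) h2
      simp only [MvPolynomial.coeff_sum, MvPolynomial.coeff_C_mul, MvPolynomial.coeff_map,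
        MvPolynomial.coeff_zero] at this
      simpa only [Algebra.smul_def, mul_comm] using this
    rw [← hP, h3, map_zero]
  simpa using h1.fintype_card_le_finrank

variable {κ k K L : Type} [Field κ] [Field k] [Field K] [Field L] [Algebra κ k] [Algebra κ K]
  [Algebra κ L] [Algebra k L] [IsScalarTower κ k L]

/-- Linear disjointness from Galois descent. -/
theorem indep {K₀ : Subfield L} {K' : IntermediateField k L} (hG : Gl K₀ K')
    (h : ∀ c : k, algebraMap k L c ∈ K₀ → c ∈ (algebraMap κ k).range) {s : Set L}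
    (hs : ∀ x ∈ s, x ∈ K₀) (hi : LinearIndepOn κ id s) : LinearIndepOn k id s := by
  classical
  refine linearIndepOn_of_finite s fun t ht hf => ?_
  replace hi := hi.mono ht
  replace hs := fun x (hx : x ∈ t) => hs x (ht hx)
  clear ht
  induction t, hf using Set.Finite.induction_on with
  | empty => exact linearIndepOn_empty _ _
  | @insert a t ha hf ih =>
    rw [linearIndepOn_id_insert ha] at hi ⊢
    replace ih := ih hi.1 fun x hx => hs x (Or.inr hx)
    refine ⟨ih, fun hm => hi.2 ?_⟩
    lift t to Finset L using hf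
    obtain ⟨l, rfl⟩ := (Submodule.mem_span_finset' ..).1 hm
    refine sum_mem fun i _ => ?_
    obtain ⟨c, hc⟩ := h (l i) (hG.fix _ (K'.algebraMap_mem _) fun g hg => by
      have h1 := hg _ (hs _ (Or.inl rfl))
      rw [Finset.smul_sum, ← sub_eq_zero, ← Finset.sum_sub_distrib] at h1
      have h2 := Fintype.linearIndependent_iff.1 ih (fun i => g.σ (l i) - l i) (by
        rw [← h1]
        refine Finset.sum_congr rfl fun i _ => ?_
        rw [SA.smul_smul', hg _ (hs _ (Or.inr i.2)), sub_smul]; rfl) i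
      rw [SA.smul_alg, sub_eq_zero.1 h2])
    rw [← hc, algebraMap_smul]
    exact Submodule.smul_mem _ _ (Submodule.subset_span i.2)

theorem mu_inj (j : K →ₐ[κ] L) {K₀ : Subfield L} {K' : IntermediateField k L} (hG : Gl K₀ K')
    (h : ∀ c : k, algebraMap k L c ∈ K₀ → c ∈ (algebraMap κ k).range) (hj : ∀ x, j x ∈ K₀) :
    Function.Injective (mu k j) := by
  let b := Module.Free.chooseBasis κ K
  have h0 : Function.Injective j := j.injective
  have h1 : LinearIndependent κ (j ∘ b) :=
    b.linearIndependent.map' j.toLinearMap (LinearMap.ker_eq_bot.2 h0)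
  have h2 : LinearIndependent k (j ∘ b) := (linearIndepOn_id_range_iff h1.injective).1
    (indep hG h (by rintro _ ⟨i, rfl⟩; exact hj _) h1.linearIndepOn_id)
  refine LinearMap.injective_of_linearIndependent (f := (mu k j).toLinearMap)
    (Algebra.TensorProduct.basis k b).span_eq ?_
  rwa [show _ ∘ _ = j ∘ b from funext fun i => by simp [mu_tmul]]

/-- Smoothness and comparability descend along a linearly disjoint extension of constants. -/
theorem chart_desc (j : K →ₐ[κ] L) (hj : Function.Injective (mu k j)) {G : Set K} (hG : G.Finite)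
    {S : Set K} (h : ∀ O, IsPoint (adjoin k (j '' G)) O →
      (∀ r ∈ S, j r ∈ O ∨ (j r)⁻¹ ∈ O) ∧ FormallySmooth k O) :
    Smooth κ (adjoin κ G) ∧ ∀ O, IsPoint (adjoin κ G) O → ∀ r ∈ S, r ∈ O ∨ r⁻¹ ∈ O := by
  classical
  let i : k ⊗[κ] adjoin κ G →ₐ[k] k ⊗[κ] K :=
    Algebra.TensorProduct.map (AlgHom.id k k) (adjoin κ G).val
  have hi : Function.Injective i := Module.Flat.lTensor_preserves_injective_linearMap
    (M := k) (adjoin κ G).val.toLinearMap Subtype.val_injective
  have hr : ((mu k j).comp i).range = adjoin k (j '' G) := by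
    refine le_antisymm ?_ (adjoin_le ?_)
    · rintro _ ⟨z, rfl⟩
      induction z with
      | zero => rw [map_zero]; exact zero_mem _
      | add a b ha hb => rw [map_add]; exact add_mem ha hb
      | tmul c a =>
        refine mul_mem (Subalgebra.algebraMap_mem _ c) ?_
        have : (adjoin κ G).map j ≤ (adjoin k (j '' G)).restrictScalars κ := by
          rw [AlgHom.map_adjoin]; exact adjoin_le subset_adjoin
        exact this ⟨a, a.2, rfl⟩
    · rintro _ ⟨x, hx, rfl⟩
      exact ⟨1 ⊗ₜ ⟨x, subset_adjoin hx⟩, by simp [i, mu_tmul]⟩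
  have : FiniteType k (adjoin k (j '' G)) := (Subalgebra.fg_iff_finiteType _).1
    (Subalgebra.fg_def.2 ⟨_, hG.image _, rfl⟩)
  have := smooth_of_points _ fun O hO => (h O hO).2
  have : Smooth k (k ⊗[κ] adjoin κ G) := .of_equiv
    ((AlgEquiv.ofInjective ((mu k j).comp i) (hj.comp hi)).trans (Subalgebra.equivOfEq _ _ hr)).symm
  refine ⟨.of_smooth_tensorProduct_of_faithfullyFlat k, fun O hO r hr' => ?_⟩
  obtain ⟨lam, hl⟩ := LinearMap.exists_leftInverse_of_injective (Algebra.linearMap κ k)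
    (LinearMap.ker_eq_bot.2 (algebraMap κ k).injective)
  let ρ : k ⊗[κ] K →ₗ[κ] K := (TensorProduct.lid κ K).toLinearMap ∘ₗ lam.rTensor K
  have r1 : ρ 1 = 1 := by
    have := LinearMap.congr_fun hl 1
    simp only [LinearMap.comp_apply, Algebra.linearMap_apply, map_one, LinearMap.id_apply] at this
    simp [ρ, Algebra.TensorProduct.one_def, this]
  have r2 : ∀ z (x : K), ρ (z * 1 ⊗ₜ x) = ρ z * x := fun z x => by
    induction z with
    | zero => simp
    | add a b ha hb => rw [add_mul, map_add, map_add, ha, hb, add_mul]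
    | tmul c a => simp [ρ]
  have r3 : ∀ z, mu k j z ∈ adjoin k (j '' G) → ρ z ∈ adjoin κ G := fun z hz => by
    obtain ⟨w, hw⟩ := hr.ge hz
    obtain rfl : i w = z := hj hw
    clear hw hz
    induction w with
    | zero => simp
    | add a b ha hb => rw [map_add, map_add]; exact add_mem ha hb
    | tmul c a => exact Subalgebra.smul_mem _ a.2 (lam c)
  obtain ⟨T, c, h1, h2⟩ := exists_cover (adjoin k (j '' G))
    (fun x => x * j r ∈ adjoin k (j '' G) ∨ x * j r⁻¹ ∈ adjoin k (j '' G)) fun q hq => by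
      obtain ⟨O', hO', hu, -⟩ := Descent.exists_point _ q
      rcases (h O' hO').1 r hr' with h' | h'
      · obtain ⟨a, ha, b, hb, h1, e⟩ := hO'.le_loc h'
        exact ⟨⟨b, hb⟩, (hu _).1 h1, Or.inl (by rwa [e, mul_div_cancel₀ _ h1.2.1])⟩
      · obtain ⟨a, ha, b, hb, h1, e⟩ := hO'.le_loc h'
        exact ⟨⟨b, hb⟩, (hu _).1 h1, Or.inr (by rwa [map_inv₀, e, mul_div_cancel₀ _ h1.2.1])⟩
  have h3 : ∀ x, ∃ z, x ∈ T → mu k j z = c x * x := fun x => by
    by_cases hx : x ∈ T
    · obtain ⟨w, hw⟩ := hr.ge (mul_mem (h1 x hx).2.1 (h1 x hx).1)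
      exact ⟨i w, fun _ => hw⟩
    · exact ⟨0, fun h => absurd h hx⟩
  choose z hz using h3
  have h4 : ∑ x ∈ T, z x = 1 := hj (by rw [map_sum, map_one, ← h2]; exact Finset.sum_congr rfl hz)
  obtain ⟨x, hx, hu⟩ := un_of_sum hO.lcl (T := T) (c := fun _ => 1) (x := fun x => ρ (z x))
    (fun x hx => ⟨hO.le (r3 _ (hz x hx ▸ mul_mem (h1 x hx).2.1 (h1 x hx).1)), one_mem _⟩)
    (by simp only [one_mul]; rw [← map_sum, h4, r1])
  have h5 : ∀ y, x * j y ∈ adjoin k (j '' G) → y ∈ O := fun y hy => by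
    have := r3 (z x * 1 ⊗ₜ y) (by
      rw [map_mul, hz x hx, mu_tmul, map_one, one_mul, mul_assoc]; exact mul_mem (h1 x hx).2.1 hy)
    rw [r2] at this
    rw [← inv_mul_cancel_left₀ hu.2.1 y]
    exact mul_mem hu.2.2 (hO.le this)
  exact (h1 x hx).2.2.imp (h5 _) (h5 _)

end Dsc

open Dsc in
/-- Module FINP. -/
theorem finP {κ : Type} [Field κ] [PerfectField κ]
    (hG : ∀ (k L : Type) [Field k] [Field L] [Algebra k L] [IsAlgClosed k], GalStmt k L) :
    FinP κ := by
  classical
  intro n hR K _ _ S hS htop hn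
  let L := AlgebraicClosure K
  let k₁ := algebraicClosure κ K
  let k := algebraicClosure κ L
  have : IsAlgClosed k := IsAlgClosure.isAlgClosed κ
  have : FiniteDimensional κ k₁ := finite_const (IntermediateField.fg_def.2 ⟨S, hS, htop⟩)
  let _ : Algebra k₁ k := (((algebraMap K L).comp (algebraMap k₁ K)).codRestrict k fun x =>
    (map_mem_algebraicClosure_iff (IsScalarTower.toAlgHom κ K L)).2 x.2).toAlgebra
  have : IsScalarTower k₁ k L := .of_algebraMap_eq fun _ => rfl
  let j : K →ₐ[k₁] L := IsScalarTower.toAlgHom k₁ K L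
  let K₀ : Subfield L := (algebraMap K L).fieldRange
  let K' := IntermediateField.adjoin k (K₀ : Set L)
  have hf : Form (algebraMap κ k).fieldRange K₀ K' :=
    ⟨by rintro _ ⟨c, rfl⟩; exact ⟨algebraMap κ K c, rfl⟩, rfl⟩
  have hg : Gl K₀ K' := hG k L _ _ _
    ⟨.of_ringEquiv (algebraMap κ k).rangeRestrictFieldEquiv, .ringHom_of_comp_eq
      (algebraMap κ k).rangeRestrictField (RingHom.id k) (RingHom.injective _)
      Function.surjective_id rfl⟩ hf (Or.inl inferInstance)
  obtain ⟨m, hm⟩ : ∃ m : ℕ, trdeg κ K = m :=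
    Cardinal.lt_aleph0.1 (hn.trans_lt (Cardinal.natCast_lt_aleph0))
  have hmn : m ≤ n := by exact_mod_cast hm ▸ hn
  have hdeg : trdeg k K' = m := by
    let _ : Algebra K K' := ((algebraMap K L).codRestrict K' fun x => hf.mem ⟨x, rfl⟩).toAlgebra
    have : IsScalarTower K K' L := .of_algebraMap_eq fun _ => rfl
    have : IsScalarTower κ K K' := .of_algebraMap_eq fun _ => rfl
    have : Algebra.IsAlgebraic K K' := .of_injective (IsScalarTower.toAlgHom K K' L)
      (algebraMap K' L).injective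
    have h1 := trdeg_add_eq κ k (A := K')
    rw [← trdeg_add_eq κ K (A := K'), trdeg_eq_zero (R := κ) (A := k),
      trdeg_eq_zero (R := K) (A := K'), zero_add, add_zero] at h1
    exact h1.trans hm
  have hfg : K'.FG := by
    refine IntermediateField.fg_def.2 ⟨j '' S, hS.image _, le_antisymm
      (IntermediateField.adjoin.mono _ _ _ (by rintro _ ⟨x, -, rfl⟩; exact ⟨x, rfl⟩))
      (IntermediateField.adjoin_le_iff.2 ?_)⟩
    rintro _ ⟨x, rfl⟩
    have : (IntermediateField.adjoin κ S).map (IsScalarTower.toAlgHom κ K L) ≤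
        (IntermediateField.adjoin k (j '' S)).restrictScalars κ := by
      rw [IntermediateField.adjoin_map]
      exact IntermediateField.adjoin_le_iff.2 (IntermediateField.subset_adjoin k _)
    exact this ⟨x, htop ▸ trivial, rfl⟩
  obtain ⟨S', M, hsub, -, hst, hM, hP⟩ := hR k L m hmn K₀ K' hf hfg hdeg
    ((hS.toFinset.image j).erase 0) fun f hf => by
      obtain ⟨h0, hf⟩ := Finset.mem_erase.1 hf
      obtain ⟨r, -, rfl⟩ := Finset.mem_image.1 hf
      exact ⟨⟨r, rfl⟩, h0⟩
  have key : ∀ O, Pt ⊥ M O → (∀ r ∈ S, j r ∈ O ∨ (j r)⁻¹ ∈ O) ∧ FormallySmooth k O := by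
    intro O hO
    obtain ⟨O₀, h1, h2, h3⟩ := Pt.exists_rat Subalgebra.fg_bot hM.fg hO
    obtain ⟨r, s, x, t, hpar, -⟩ := hP O₀ h1 h2
    obtain ⟨D, hD⟩ := hM.aff hdeg h1 h2
    have := kit m _ D O₀ S' r s x t hD hpar
    refine ⟨fun a ha => ?_, h3.sf.formallySmooth⟩
    by_cases h0 : j a = 0
    · exact Or.inl (h0 ▸ zero_mem O)
    · exact (hpar.cmp _ (hsub (Finset.mem_erase.2 ⟨h0, Finset.mem_image_of_mem _
        (hS.mem_toFinset.2 ha)⟩))).imp (fun c => h3.le c) fun c => h3.le c
  have hj := mu_inj j hg (fun c ⟨x, hx⟩ => ⟨⟨x, (map_mem_algebraicClosure_iff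
    (IsScalarTower.toAlgHom κ K L)).1 (by
      change algebraMap K L x ∈ _; rw [hx]; exact c.2)⟩, Subtype.ext hx⟩) fun x => ⟨x, rfl⟩
  obtain ⟨Γ, hΓ, rfl⟩ : ∃ Γ : Set K, Γ.Finite ∧ M = Submodule.span k (j '' Γ) := by
    have e : Submodule.span k {x | x ∈ M ∧ x ∈ K₀} = M :=
      le_antisymm (Submodule.span_le.2 fun _ h => h.1) (hg.desc M hM.le hst)
    obtain ⟨T, h1, h2⟩ := (Submodule.fg_span_iff_fg_span_finset_subset _).1 (e ▸ hM.fg)
    refine ⟨j ⁻¹' T, T.finite_toSet.preimage (j.injective.injOn), ?_⟩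
    rw [Set.image_preimage_eq_of_subset (f := j) fun x hx => (h1 hx).2, ← h2, e]
  refine ⟨K, inferInstance, inferInstance, AlgHom.id κ K,
    (Submodule.span k₁ Γ).restrictScalars κ,
    (Submodule.fg_span hΓ).restrictScalars, fun e => hM.ne ?_,
    fun x _ => ⟨x, rfl⟩, fun O ⟨g, hg1, hg0, hO⟩ => ?_⟩
  · rw [Submodule.span_eq_bot]
    rintro _ ⟨x, hx, rfl⟩
    rw [(Submodule.mem_bot κ).1 (e.le (Submodule.subset_span (R := k₁) hx)), map_zero]
  have hjg : j g ∈ Submodule.span k (j '' Γ) := by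
    refine Submodule.span_le_restrictScalars k₁ k _ ?_
    exact Submodule.span_image j.toLinearMap ▸ Submodule.mem_map_of_mem hg1
  obtain ⟨a1, a2⟩ := chart_desc (S := S) j hj (hΓ.image (· / g)) fun O hO =>
    key O ⟨j g, hjg, (_root_.map_ne_zero j).2 hg0, by
      rw [chart_span]
      simpa only [Set.image_image, map_div₀] using hO⟩
  rw [← chart_span] at a1 a2
  have c1 : ∀ c : k₁, algebraMap k₁ K c ∈
      chart ⊥ ((Submodule.span k₁ Γ).restrictScalars κ) g := fun c => by
    have := div_mem_chart (⊥ : Subalgebra κ K) (M := (Submodule.span k₁ Γ).restrictScalars κ) g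
      ((Submodule.span k₁ Γ).smul_mem c hg1)
    rwa [Algebra.smul_def, mul_div_cancel_right₀ _ hg0] at this
  have e : chart ⊥ ((Submodule.span k₁ Γ).restrictScalars κ) g =
      (chart ⊥ (Submodule.span k₁ Γ) g).restrictScalars κ :=
    le_antisymm (chart_le bot_le fun x hx => div_mem_chart (⊥ : Subalgebra k₁ K) g hx)
      (chart_le (D := ⟨(chart ⊥ ((Submodule.span k₁ Γ).restrictScalars κ) g).toSubsemiring, c1⟩)
        bot_le fun x hx => div_mem_chart (⊥ : Subalgebra κ K) g hx)
  have : FormallySmooth κ (chart ⊥ (Submodule.span k₁ Γ) g) := .comp κ k₁ _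
  have : FormallySmooth κ (chart ⊥ ((Submodule.span k₁ Γ).restrictScalars κ) g) := by
    rw [e]; exact this
  refine ⟨a2 ⟨O.toSubsemiring, fun c => hO.le (c1 c)⟩ ?_, hO.sf.formallySmooth⟩
  rw [e] at hO
  exact ⟨hO.le, hO.lcl, hO.le_loc⟩

end Pool.Agent.MP_19ffc6_ag.Res.P
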