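import Pool.Agent.MP_19ffc6_ag.Res.PDefs
import Pool.Agent.MP_19ffc6_ag.Res.ASpec
import Pool.Agent.MP_19ffc6_ag.Res.TSpec

/-! PROJECT RESP (perfect ground fields): statements of the modules and their assembly. The field
`k` is an algebraic closure of the perfect field `k₀`. -/

namespace Pool.Agent.MP_19ffc6_ag.Res.P

open Pool.Agent.MP_19ffc6_ag.Wild Pool.Agent.MP_19ffc6_ag.Lci Pool.Agent.MP_19ffc6_ag.Res.B

/-- `k` is algebraic over the perfect field `k₀`. -/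
structure Gd {k : Type} [Field k] (k₀ : Subfield k) : Prop where
  perf : PerfectField k₀
  alg : Algebra.IsAlgebraic k₀ k

/-! ### Part B -/

section B

open Pool.Agent.MP_19ffc6_ag.Res.Tor

variable {k L : Type} [Field k] [Field L] [Algebra k L]

/-- A toroidal point whose monomials are spanned by `S`. -/
def TroF (n : ℕ) (S : Finset L) (O : Subalgebra k L) : Prop :=
  ∃ (ι : Type) (_ : Fintype ι) (r s : ℕ) (τ : Typ ι r) (z : Fin r → L) (t : Fin s → L),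
    TP n O τ z t ∧ Sees S O τ z ∧ Ful S O z

/-- All rational points are toroidal, strictly. -/
def TorF (n : ℕ) (K : IntermediateField k L) (S : Finset L) (M : Submodule k L) : Prop :=
  Mdl K M ∧ ∀ O, Pt ⊥ M O → Rt O → TroF n S O

/-- All rational points are regular and the boundary has strict normal crossings. -/
def SncF (n : ℕ) (K : IntermediateField k L) (S : Finset L) (M : Submodule k L) : Prop :=
  Mdl K M ∧ ∀ O, Pt ⊥ M O → Rt O →
    ∃ (r s : ℕ) (x : Fin r → L) (t : Fin s → L), B.Par n S O x t ∧ Ful S O x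

variable (L) in
/-- The inductive statement. -/
def RESP (k₀ : Subfield k) (n : ℕ) : Prop :=
  ∀ (K₀ : Subfield L) (K : IntermediateField k L), Form k₀ K₀ K → K.FG → Algebra.trdeg k K = n →
    ∀ S : Finset L, (∀ f ∈ S, f ∈ K₀ ∧ f ≠ 0) → ∃ (S' : Finset L) (M : Submodule k L),
      S ⊆ S' ∧ (∀ f ∈ S', f ∈ K₀) ∧ Stb K₀ M ∧ SncF n K S' M

variable (L) in
/-- The output of part A: a rational fibration by curves that is tame at all valuations. -/
def PartAP (k₀ : Subfield k) (n : ℕ) : Prop :=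
  ∀ (K₀ : Subfield L) (K : IntermediateField k L), Form k₀ K₀ K → K.FG →
    Algebra.trdeg k K = (n + 1 : ℕ) → ∀ T : Finset L, (∀ f ∈ T, f ∈ K₀ ∧ f ≠ 0) →
    ∃ (m : ℕ) (F₀ : Subfield L) (F : IntermediateField k L) (Y : L) (N₀ : IntermediateField F L)
      (N : IntermediateField (F ⊔ IntermediateField.adjoin k {Y} : IntermediateField k L) L)
      (Z : Finset L), Form k₀ F₀ F ∧ F₀ ≤ K₀ ∧ Y ∈ K₀ ∧ (m : k) ≠ 0 ∧ F.FG ∧
      Algebra.trdeg k F = n ∧ Transcendental F Y ∧ (∀ x ∈ K, x ∈ N) ∧ (∀ u ∈ Z, u ∈ N₀) ∧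
      Tame m F N₀ ∧ Tame m _ N ∧
      ∀ V : Subalgebra k L, Val V → F.toSubalgebra ≤ V → Y ∈ V → (∀ u ∈ Z, Un V (Y - u)) →
        (∀ σ : N ≃ₐ[_] N, B.Ine V σ → σ = 1) ∧ ∀ f ∈ T, Un V f

variable (k L)

/-- Module GAL, first part: Galois descent. -/
def GalStmt : Prop :=
  ∀ (k₀ : Subfield k) (K₀ : Subfield L) (K : IntermediateField k L), Gd k₀ → Form k₀ K₀ K →
    IsAlgClosed L ∨ K = ⊤ → Gl K₀ K

/-- Module GAL, second part: automorphisms extend to the algebraically closed field `L`. -/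
def ExtStmt : Prop :=
  ∀ (F : IntermediateField k L) (N : IntermediateField F L) (σ : N ≃ₐ[F] N),
    ∃ g : SA k L, ∀ x : N, g • (x : L) = σ x

/-- Module SYM, first part: rational equations for the support of divisors. -/
def MinStmt : Prop :=
  ∀ (K₀ : Subfield L) (K : IntermediateField k L) (T : Finset L), Gl K₀ K →
    (∀ f ∈ T, f ∈ K ∧ f ≠ 0) → ∃ S : Finset L, (∀ f ∈ S, f ∈ K₀ ∧ f ≠ 0) ∧
      ∀ V : Subalgebra k L, Val V → (∀ f ∈ S, Un V f) → ∀ f ∈ T, Un V f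

/-- Module SYM, second part: a stable group of sections. -/
def SymStmt : Prop :=
  ∀ (m : ℕ) (F₀ : Subfield L) (F : IntermediateField k L) (N₀ : IntermediateField F L)
    (Z : Finset L), Gl F₀ F → Tame m F N₀ → (∀ u ∈ Z, u ∈ N₀) →
    ∃ (N : IntermediateField F L) (U : Finset L), Tame m F N ∧ Z ⊆ U ∧ Span N U ∧
      ∀ g : SA k L, Fx F₀ g → ∀ u ∈ U, g • u ∈ U

/-- Module RAT, first part: a model with a stable set of points has a stable linear system. -/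
def RatStmt : Prop :=
  ∀ (K₀ : Subfield L) (K : IntermediateField k L) (M : Submodule k L), Gl K₀ K → Mdl K M →
    (∀ g : SA k L, Fx K₀ g → ∀ O, Pt ⊥ M O → Pt ⊥ M (g • O)) →
    ∃ M', Stb K₀ M' ∧ Mdl K M' ∧ ∀ O, Pt ⊥ M' O ↔ Pt ⊥ M O

/-- Module RAT, second part: the normalization. -/
def NormP : Prop :=
  ∀ (K₀ : Subfield L) (E K : IntermediateField k L) (M : Submodule k L), Gl K₀ K → Mdl E M →
    Stb K₀ M → E ≤ K → K.FG → (∀ x ∈ K, IsAlgebraic E x) → ∃ M', Stb K₀ M' ∧ Mdl K M' ∧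
      ∀ O', Pt ⊥ M' O' → ∃ O, Pt ⊥ M O ∧ Dom O O' ∧ IsPoint (icl K O) O'

/-- Module RAT, third part: an equivariant family of modules is given by stable spaces. -/
def GlobP : Prop :=
  ∀ (K₀ : Subfield L) (K : IntermediateField k L) (M : Submodule k L)
    (J : Subalgebra k L → Submodule k L), Gl K₀ K → Mdl K M → Stb K₀ M → Glob M J →
    (∀ O, Pt ⊥ M O → ∀ x ∈ J O, x ∈ K) →
    (∀ g : SA k L, Fx K₀ g → ∀ O, Pt ⊥ M O → ∀ x ∈ J O, g • x ∈ sp (g • O) (J (g • O))) →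
    GlobC (Cl K₀ K) M J

/-- Module LABELP. -/
def LabelP : Prop :=
  ∀ (n : ℕ) (K₀ : Subfield L) (K : IntermediateField k L) (S : Finset L) (M : Submodule k L),
    Gl K₀ K → Algebra.trdeg k K = n → (∀ f ∈ S, f ∈ K₀) → Stb K₀ M → TorF n K S M →
    ∃ s : TS k L, s.M = M ∧ GoodC (Cl K₀ K) s ∧ (∀ f ∈ S, ∃ a, s.HasExp f a) ∧
      ∀ O, s.P O → Ful S O (s.ch O).z

/-- Module TORESP. -/
def ToresP : Prop :=
  ∀ (n : ℕ) (K₀ : Subfield L) (K : IntermediateField k L) (S : Finset L) (M : Submodule k L),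
    Gl K₀ K → Algebra.trdeg k K = n → (∀ f ∈ S, f ∈ K₀) → Stb K₀ M → TorF n K S M →
    ∃ M', Stb K₀ M' ∧ SncF n K S M'

/-- Module COVERP. -/
def CoverP : Prop :=
  ∀ (n m : ℕ) (K₀ : Subfield L) (E K : IntermediateField k L) (N : IntermediateField E L)
    (S T S' : Finset L) (M : Submodule k L), Gl K₀ K → (m : k) ≠ 0 → K.FG →
    Algebra.trdeg k E = n → E ≤ K → (∀ x ∈ K, x ∈ N) → (∀ f ∈ T, f ∈ K) → Tame m E N →
    Off E N S T → (∀ f, f ∈ S' ↔ f ∈ S ∨ f ∈ T) → Stb K₀ M → SncF n E S M →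
    ∃ M', Stb K₀ M' ∧ TorF n K S' M'

/-- Module LOCF: `locF_of : (∀ W, AbsF k W) → LocF k L`. -/
def LocF : Prop :=
  ∀ (n m : ℕ) (F : IntermediateField k L) (Y : L) (N : IntermediateField F L)
    (U S S' T : Finset L) (D R O : Subalgebra k L) (r s : ℕ) (x : Fin r → L) (t : Fin s → L),
    (m : k) ≠ 0 → F.FG → Transcendental F Y → Tame m F N → Span N U → Off F N S T →
    (∀ u ∈ U, u ≠ 0 → u ∈ T) → (∀ f ∈ S, f ∈ F) → Aff n F D R → B.Par n S R x t → Ful S R x →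
    Over F Y U S S' D R O → TroF (n + 1) S' O

/-- Module ABSF. -/
def AbsF : Prop :=
  ∀ (G : Type) [Group G] [Finite G] [MulSemiringAction G L] [SMulCommClass G k L] (n m : ℕ)
    (F K : IntermediateField k L) (Y : L) (U S S' : Finset L) (D R O : Subalgebra k L) (r s : ℕ)
    (x ξ : Fin r → L) (t : Fin s → L), TUp G n m F K Y U S D R x ξ t → Ful S R x →
    Over F Y U S S' D R O → TroF (n + 1) S' O

/-- Module TREEP. -/
def TreeP : Prop :=
  ∀ (k₀ : Subfield k) (n m : ℕ) (F₀ E₀ : Subfield L) (F : IntermediateField k L) (Y : L)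
    (N : IntermediateField F L) (U S : Finset L), RESP L k₀ n → Form k₀ F₀ F → Gl F₀ F →
    Gl E₀ (F ⊔ IntermediateField.adjoin k {Y}) → F₀ ≤ E₀ → Y ∈ E₀ → (m : k) ≠ 0 → F.FG →
    Algebra.trdeg k F = n → Transcendental F Y → Tame m F N → Span N U →
    (∀ g : SA k L, Fx F₀ g → ∀ u ∈ U, g • u ∈ U) → (∀ f ∈ S, f ∈ F₀ ∧ f ≠ 0) →
    ∃ (S' : Finset L) (M : Submodule k L), S ⊆ S' ∧ Y ∈ S' ∧ ∏ u ∈ U, (Y - u) ∈ S' ∧
      (∀ f ∈ S', f ∈ E₀) ∧ Stb E₀ M ∧ TorF (n + 1) (F ⊔ IntermediateField.adjoin k {Y}) S' M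

/-- Module FINP: descent of a smooth model to the perfect field `κ`. -/
def FinP (κ : Type) [Field κ] : Prop :=
  ∀ n : ℕ, (∀ (k L : Type) [Field k] [Field L] [Algebra κ k] [Algebra k L] [IsAlgClosed k]
    [IsAlgClosed L] [Algebra.IsAlgebraic κ k], ∀ m ≤ n, RESP L (algebraMap κ k).fieldRange m) →
    ModelS κ n

variable {k L}

theorem Form.mem {k₀ : Subfield k} {K₀ : Subfield L} {K : IntermediateField k L}
    (h : Form k₀ K₀ K) {x : L} (hx : x ∈ K₀) : x ∈ K :=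
  h.eq ▸ IntermediateField.subset_adjoin k _ hx

theorem Form.adj {k₀ : Subfield k} {F₀ : Subfield L} {F : IntermediateField k L}
    (h : Form k₀ F₀ F) (Y : L) :
    Form k₀ (Subfield.closure (F₀ ∪ {Y})) (F ⊔ IntermediateField.adjoin k {Y}) := by
  refine ⟨fun c hc => Subfield.subset_closure (Or.inl (h.cst c hc)), le_antisymm (sup_le ?_ ?_) ?_⟩
  · rw [h.eq]
    exact IntermediateField.adjoin.mono _ _ _ fun x hx => Subfield.subset_closure (Or.inl hx)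
  · exact IntermediateField.adjoin.mono _ _ _ fun x hx => Subfield.subset_closure (Or.inr hx)
  · refine IntermediateField.adjoin_le_iff.2 ((Subfield.closure_le
      (t := (F ⊔ IntermediateField.adjoin k {Y}).toSubfield)).2 ?_)
    rintro x (hx | hx)
    · exact (le_sup_left : F ≤ _) (h.mem hx)
    · exact (le_sup_right : _ ≤ F ⊔ _) (IntermediateField.subset_adjoin k _ hx)

/-- The induction step. -/
theorem resP_succ {k₀ : Subfield k} {n : ℕ} (hG : ∀ K₀ K, Form k₀ K₀ K → Gl (L := L) K₀ K)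
    (hA : PartAP L k₀ n) (hB : BezStmt k L) (hM : MinStmt k L) (hS : SymStmt k L)
    (hT : ToresP k L) (hC : CoverP k L) (hTr : TreeP k L) (ih : RESP L k₀ n) :
    RESP L k₀ (n + 1) := by
  classical
  intro K₀ K hf hK hn T hT0
  obtain ⟨m, F₀, F, Y, N₀, N, Z, f1, f2, f3, hm, hF, hFn, hY, hKN, hZ, h0, h1, h2⟩ :=
    hA K₀ K hf hK hn T hT0
  obtain ⟨N₁, U, h3, hZU, hU, hUg⟩ := hS m F₀ F N₀ Z (hG _ _ f1) h0 hZ
  obtain ⟨S, hS1, hoff⟩ := hB.line m F Y N₁ N U T hY h3.fin h3.gal hU h1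
    fun V hV hFV hYV h => h2 V hV hFV hYV fun u hu => h u (hZU hu)
  obtain ⟨S₀, hS0, hun⟩ := hM F₀ F S (hG _ _ f1) hS1
  have f4 := f1.adj Y
  have f5 : Subfield.closure (F₀ ∪ {Y}) ≤ K₀ :=
    Subfield.closure_le.2 (Set.union_subset f2 (Set.singleton_subset_iff.2 f3))
  obtain ⟨S1, M1, e1, e2, e3, e4, e5, e6⟩ := hTr k₀ n m F₀ _ F Y N₁ U S₀ ih f1 (hG _ _ f1)
    (hG _ _ f4) (fun x hx => Subfield.subset_closure (Or.inl hx))
    (Subfield.subset_closure (Or.inr rfl)) hm hF hFn hY h3 hU hUg hS0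
  have hEK : F ⊔ IntermediateField.adjoin k {Y} ≤ K := by
    rw [f4.eq, hf.eq]; exact IntermediateField.adjoin.mono _ _ _ f5
  have := h1.fin
  have hE := (trdeg_eq_of_le hEK hKN).trans hn
  obtain ⟨M2, e7, e8⟩ := hT _ _ _ _ _ (hG _ _ f4) hE e4 e5 e6
  have hO : Off _ N S1 T := fun V hV h => hoff (S1 ∪ S) Finset.subset_union_right
    (Finset.mem_union_left _ e2) (Finset.mem_union_left _ e3) V hV fun f hf =>
      (Finset.mem_union.1 hf).elim (h f) (hun V hV (fun f hf => h f (e1 hf)) f)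
  obtain ⟨M3, e9, e10⟩ := hC _ m K₀ _ K N S1 T (S1 ∪ T) M2 (hG _ _ hf) hm hK hE hEK hKN
    (fun f h => hf.mem (hT0 f h).1) h1 hO (fun _ => Finset.mem_union) (e7.mono f5) e8
  have e11 : ∀ f ∈ S1 ∪ T, f ∈ K₀ := fun f h =>
    (Finset.mem_union.1 h).elim (fun h => f5 (e4 f h)) fun h => (hT0 f h).1
  obtain ⟨M4, e12, e13⟩ := hT _ _ _ _ _ (hG _ _ hf) hn e11 e9 e10
  exact ⟨_, M4, Finset.subset_union_right, e11, e12, e13⟩

end B

/-! ### Part A -/

section A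

open PA Submodule

variable (k K : Type) [Field k] [Field K] [Algebra k K] (m : ℕ)

/-- Module FRAME: a rational frame, whose derivations commute with the automorphisms. -/
structure FrameP : Prop where
  ex : ∀ K₀ : Subfield K, Gl (k := k) K₀ ⊤ → (⊤ : IntermediateField k K).FG →
    Algebra.trdeg k K = (m + 1 : ℕ) → ∃ (t : Fin (m + 1) → K)
      (d : Fin (m + 1) → Derivation k K K), Fr t d ∧ ∀ i, t i ∈ K₀
  com : ∀ (t : Fin (m + 1) → K) (d : Fin (m + 1) → Derivation k K K) (g : SA k K), Fr t d →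
    (∀ i, g • t i = t i) → ∀ j x, d j (g • x) = g • d j x

/-- Module STARTP: a stable first linear system. -/
def StartP : Prop :=
  ∀ (K₀ : Subfield K) (t : Fin (m + 1) → K) (d : Fin (m + 1) → Derivation k K K) (S : Finset K),
    Gl (k := k) K₀ ⊤ → Fr t d → (∀ i, t i ∈ K₀) → ∃ (V₀ : Submodule k K) (R : ℝ), Stb K₀ V₀ ∧
      V₀.FG ∧ 0 ≤ R ∧ Pot d S V₀ (kap m * R) ∧
      ∀ V ≤ V₀, (Module.finrank k V₀ : ℝ) ≤ Module.finrank k V + R / 4 + 1 → WW d V ≠ ⊥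

/-- Module TRA: good points are permuted by the automorphisms. -/
def TraStmt : Prop :=
  ∀ (d : Fin (m + 1) → Derivation k K K) (S : Finset K) (μ : ℕ) (V T : Submodule k K) (σ : K)
    (g : SA k K), (∀ j x, d j (g • x) = g • d j x) → (∀ r ∈ S, g • r = r) → g • V = V →
    Hyp V σ T → Hyp V (g • σ) (g • T) ∧
      ((GoodX d μ (g • T) ∧ ∀ w ∈ DD d S V, w.Min V (g • σ) →
        Gr m μ (g • T) (alg (g • T)) (w.fil 1)) →
      GoodX d μ T ∧ ∀ w ∈ DD d S V, w.Min V σ → Gr m μ T (alg T) (w.fil 1))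

/-- Module ALBP: the logarithmic Albanese theorem over `K₀`. -/
def AlbP (μ : ℕ) : Prop :=
  ∀ (K₀ : Subfield K) (t : Fin (m + 1) → K) (d : Fin (m + 1) → Derivation k K K) (S : Finset K),
    Gl (k := k) K₀ ⊤ → Fr t d → (∀ i, t i ∈ K₀) → (∀ r ∈ S, r ∈ K₀ ∧ r ≠ 0) →
    ∃ V, Stb K₀ V ∧ Alb d S μ V

variable {k} in
/-- Module GENP: a rational good tuple (for an infinite field `k₀`). -/
def GenP (k₀ : Subfield k) : Prop :=
  Big k (m + 2) → ∀ (K₀ : Subfield K) (t : Fin (m + 1) → K) (d : Fin (m + 1) → Derivation k K K)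
    (S : Finset K) (μ : ℕ) (V M₀ : Submodule k K), Form k₀ K₀ ⊤ → Gl (k := k) K₀ ⊤ → Fr t d →
    Alb d S μ V → Stb K₀ V → M₀.FG → ∃ B s, Tup d S (cst m μ) V M₀ B s ∧ ∀ j, s j ∈ K₀

variable {k K m}

/-- The rational tame projection theorem. -/
def TPP (k₀ : Subfield k) (m C : ℕ) : Prop :=
  ∀ (K : Type) [Field K] [Algebra k K] (K₀ : Subfield K), Form k₀ K₀ ⊤ →
    (⊤ : IntermediateField k K).FG → Algebra.trdeg k K = (m + 1 : ℕ) → ∀ S : Finset K,
    (∀ r ∈ S, r ∈ K₀ ∧ r ≠ 0) → ∃ (x : Fin m → K) (y : K), (∀ i, x i ∈ K₀) ∧ y ∈ K₀ ∧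
      PA.Out (k := k) S C x y

/-- Module OUTP. -/
def OutP (k L : Type) [Field k] [Field L] [Algebra k L] : Prop :=
  ∀ (k₀ : Subfield k) (m C : ℕ), Big k C → TPP k₀ m C → PartAP L k₀ m

/-- The rational tame projection theorem from the modules. -/
theorem tpP_of {k₀ : Subfield k} {μ : ℕ} (h0 : Gd k₀) (hk : Big k (cst m μ))
    (h : ∀ (K : Type) [Field K] [Algebra k K], GalStmt k K ∧ FrameP k K m ∧ AlbP k K m μ ∧
      GenP K m k₀ ∧ FinXStmt k K m ∧ FinWStmt k K m) : TPP k₀ m (cst m μ) := by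
  intro K _ _ K₀ hf hK hn S hS
  obtain ⟨hG, hFr, h1, h2, h3, h4⟩ := h K
  have hg := hG k₀ K₀ ⊤ h0 hf (Or.inr rfl)
  obtain ⟨t, d, hF, ht⟩ := hFr.ex K₀ hg hK hn
  obtain ⟨V, hs, hV⟩ := h1 K₀ t d S hg hF ht hS
  obtain ⟨M₀, hM, hsp⟩ := h3.spn t d V hF hV.ne
  obtain ⟨B, s, hT, h5⟩ := h2 (hk.mono (le_cst _ _)) K₀ t d S _ V M₀ hf hg hF hV hs hM
  have e : (Fin.snoc (Fin.init (crd s)) (crd s (Fin.last m)) : Fin (m + 1) → K) = crd s :=
    Fin.snoc_init_self _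
  refine ⟨Fin.init (crd s), crd s (Fin.last m), fun i => div_mem (h5 _) (h5 _),
    div_mem (h5 _) (h5 _), ?_, fun w hx hi hy => ?_⟩
  · rw [e]; exact h3.cov t d S _ V M₀ B s hF hV.ne hsp hT
  · rw [e]
    exact h4 t d S _ V M₀ B s w hk ((Nat.succ_pos _).trans_le (le_cst _ _)) hF hT
      (fun i => Fin.lastCases hy hx i) hi

end A

end Pool.Agent.MP_19ffc6_ag.Res.P
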