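import Pool.Agent.MP_19ffc6_ag.Res.Step
import Pool.Agent.MP_19ffc6_ag.Res.Start

/-! PROJECT RESP: the Albanese algorithm for families of bad points. -/

namespace Pool.Agent.MP_19ffc6_ag.Res.PA.Orb

open Submodule Module Filter Pool.Agent.MP_19ffc6_ag.Res.PA.Num St

variable {k K : Type} [Field k] [Field K] [Algebra k K] {m : ℕ}

/-- The second potential. -/
noncomputable def Phi2 (d : Fin (m + 1) → Derivation k K K) (V MM : Submodule k K)
    (D : Finset (DV k K)) (L : ℕ) : ℕ :=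
  finrank k (MM * V ^ (3 * L) :) + 2 * finrank k (MM * (V ^ (2 * L) * WW d V ^ L) :) +
    L * ∑ w ∈ D, w.lead (V ^ (2 * L))

/-- The second potential has growth at most `G`. -/
def Pot2 (d : Fin (m + 1) → Derivation k K K) (S : Finset K) (V : Submodule k K) (G : ℝ) : Prop :=
  ∀ MM : Submodule k K, MM.FG → ∀ D : Finset (DV k K), ↑D ⊆ DD d S V → ∀ ε : ℝ, 0 < ε →
    ∀ᶠ L : ℕ in atTop, (Phi2 d V MM D L : ℝ) ≤ (G + ε) * (L : ℝ) ^ (m + 1)

/-- The relative potential of a subspace `W`. -/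
noncomputable def Psi (d : Fin (m + 1) → Derivation k K K) (V W MM : Submodule k K)
    (D : Finset (DV k K)) (L : ℕ) : ℕ :=
  finrank k (MM * (V ^ L * W ^ L * WW d V ^ L) :) +
    L * ∑ w ∈ D, cod (V ^ L * W ^ L) (w.fil (w.ordS (V ^ (2 * L)) + 1))

/-- The relative potential of `W` has dropped by `g`. -/
def Gain (d : Fin (m + 1) → Derivation k K K) (S : Finset K) (V W : Submodule k K) (g : ℕ) : Prop :=
  ∀ M' : Submodule k K, M'.FG → ∀ D' : Finset (DV k K), ↑D' ⊆ DD d S V →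
    ∃ (MM : Submodule k K) (D : Finset (DV k K)), MM.FG ∧ M' ≤ MM ∧ ↑D ⊆ DD d S V ∧
      ∀ᶠ L : ℕ in atTop, Psi d V W M' D' L + g * L ^ (m + 1) ≤ Psi d V V MM D L

/-- The chart `(σ, T)` is a bad point of `V`. -/
def Bad (d : Fin (m + 1) → Derivation k K K) (S : Finset K) (μ : ℕ) (V : Submodule k K) (σ : K)
    (T : Submodule k K) : Prop :=
  Hyp V σ T ∧ ¬ (GoodX d μ T ∧ ∀ w ∈ DD d S V, w.Min V σ → Gr m μ T (alg T) (w.fil 1))

variable {d : Fin (m + 1) → Derivation k K K} {S : Finset K} {V V' W T MM M' : Submodule k K}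
  {σ ρ u : K} {w : DV k K} {G : ℝ} {μ g : ℕ}

theorem finrank_le_mul {X Y : Submodule k K} (h : (X * Y).FG) (hY : Y ≠ ⊥) :
    finrank k X ≤ finrank k (X * Y :) := by
  obtain ⟨y, h1, h2⟩ := exists_mem_ne_zero_of_ne_bot hY
  rw [(equivMapOfInjective (LinearMap.mulRight k y) (mul_left_injective₀ h2) X).finrank_eq]
  exact finrank_le h (by rintro _ ⟨x, hx, rfl⟩; exact mul_mem_mul hx h1)

theorem ne_bot_of_WW (hW : WW d V ≠ ⊥) : V ≠ ⊥ := fun e => hW (le_bot_iff.1 (WW_le fun v hv => by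
  have : v = 0 := funext fun i => by simpa [e] using hv i
  rw [this, ← wrA_apply, AlternatingMap.map_zero]; exact zero_mem _))

theorem pow_ne_bot (h : V ≠ ⊥) (n : ℕ) : V ^ n ≠ ⊥ := by
  obtain ⟨y, h1, h2⟩ := exists_mem_ne_zero_of_ne_bot h
  exact fun e => pow_ne_zero n h2 ((mem_bot k).1 (e ▸ pow_mem_pow _ h1 n))

theorem pot2_of_pot (hV : V.FG) (hW : WW d V ≠ ⊥) (h : Pot d S V G) :
    Pot2 d S V (2 ^ (m + 1) * G) := by
  intro MM hM D hD ε hε
  have h2 : Tendsto (fun L : ℕ => 2 * L) atTop atTop := tendsto_id.const_mul_atTop' two_pos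
  filter_upwards [h2.eventually (h MM hM D hD (ε / 2 ^ (m + 1)) (by positivity))] with L hL
  have a1 : finrank k (MM * V ^ (3 * L) :) ≤ finrank k (MM * V ^ (2 * (2 * L)) :) := by
    rw [show 2 * (2 * L) = 3 * L + L by ring, pow_add, ← mul_assoc]
    exact finrank_le_mul ((hM.mul (hV.pow _)).mul (hV.pow _)) (pow_ne_bot (ne_bot_of_WW hW) _)
  have a2 : finrank k (MM * (V ^ (2 * L) * WW d V ^ L) :) ≤
      finrank k (MM * (V * WW d V) ^ (2 * L) :) := by
    rw [show MM * (V * WW d V) ^ (2 * L) = MM * (V ^ (2 * L) * WW d V ^ L) * WW d V ^ L by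
      rw [mul_pow]; ring]
    exact finrank_le_mul ((hM.mul ((hV.pow _).mul ((WW_fg hV).pow _))).mul ((WW_fg hV).pow _))
      (pow_ne_bot hW _)
  have a3 : Phi2 d V MM D L ≤ Phi d V MM D (2 * L) := by
    rw [Phi, Phi2, mul_assoc 2 L]; omega
  refine ((Nat.cast_le (α := ℝ)).2 a3).trans (hL.trans (le_of_eq ?_))
  push_cast
  rw [mul_pow]
  field_simp

theorem Pot2.nonneg (h : Pot2 d S V G) : 0 ≤ G := by
  refine le_of_forall_pos_le_add fun ε hε => ?_
  obtain ⟨L, h1, h2⟩ := ((h ⊥ fg_bot ∅ (by simp) ε hε).and (eventually_gt_atTop 0)).exists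
  have h3 : (0 : ℝ) < (L : ℝ) ^ (m + 1) := by positivity
  have h4 : 0 ≤ G + ε := nonneg_of_mul_nonneg_left ((Nat.cast_nonneg _).trans h1) h3
  linarith

theorem Pot2.fin (hV : V.FG) (hP : Pot2 d S V G) : (DD d S V).Finite := by
  by_contra hc
  obtain ⟨N, hN⟩ := exists_nat_gt ((G + 1) * (m + 1) ^ m)
  obtain ⟨D, h1, h2⟩ := Set.Infinite.exists_subset_card_eq hc N
  obtain ⟨L, hL⟩ := eventually_atTop.1 (hP ⊥ fg_bot D h1 1 one_pos)
  have h3 := hL ((m + 1) * (L + 1)) (by nlinarith)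
  have h4 : (m + 1) * (L + 1) * (N * (L + 1) ^ m) ≤ Phi2 d V ⊥ D ((m + 1) * (L + 1)) := by
    refine le_trans (Nat.mul_le_mul_left _ ?_) (Nat.le_add_left _ _)
    rw [← h2, ← smul_eq_mul, mul_left_comm]
    exact Finset.card_nsmul_le_sum _ _ _ fun w hw =>
      (Nat.pow_le_pow_left (by omega) _).trans (le_lead hV (h1 hw).1 _)
  have h5 : ((m : ℝ) + 1) * (L + 1) * (N * (L + 1) ^ m) ≤ Phi2 d V ⊥ D ((m + 1) * (L + 1)) := by
    exact_mod_cast h4
  have h6 : (0 : ℝ) < (m + 1) * (L + 1) * (L + 1) ^ m := by positivity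
  have h7 := mul_lt_mul_of_pos_left hN h6
  push_cast at h3
  rw [pow_succ, mul_pow] at h3
  nlinarith

theorem alg_mul_alg (T : Submodule k K) : alg T * alg T ≤ alg T := by
  simpa [pow_two] using alg_pow_le T 2

theorem alg_le_unit (h1 : u ∈ 1 ⊔ T) (h2 : u ∉ T) (L : ℕ) :
    alg T ≤ pr k (u ^ L) * (1 ⊔ T) ^ L ⊔ T ^ L * alg T := by
  obtain ⟨a, ha, t, ht, e⟩ := mem_sup.1 h1
  obtain ⟨c, rfl⟩ := mem_one.1 ha
  have hc : c ≠ 0 := fun h => h2 (by simpa [← e, h] using ht)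
  have a1 : alg T ≤ pr k u * alg T ⊔ T * alg T := fun x hx => by
    have : x = c⁻¹ • (u * x) - c⁻¹ • (t * x) := by
      rw [← e, ← smul_sub, add_mul, add_sub_cancel_right, ← Algebra.smul_def, inv_smul_smul₀ hc]
    rw [this]
    exact sub_mem (mem_sup_left (smul_mem _ _ (mul_mem_pr hx)))
      (mem_sup_right (smul_mem _ _ (mul_mem_mul ht hx)))
  have hu : pr k u ≤ alg T := (span_singleton_le_iff_mem _ _).2
    ((sup_le (one_le.2 (one_mem_alg T)) (by simpa using pow_le_alg T 1) : 1 ⊔ T ≤ alg T) h1)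
  have a0 : ∀ n, pr k u ^ n * (T ^ L * alg T) ≤ T ^ L * alg T := fun n => by
    rw [mul_left_comm]
    exact mul_le_mul_right ((mul_le_mul_left (le_trans (by gcongr) (alg_pow_le T n)) _).trans
      (alg_mul_alg T)) _
  have a2 : ∀ n, alg T ≤ pr k u * alg T ⊔ T ^ n * alg T := fun n => by
    induction n with
    | zero => rw [pow_zero, one_mul]; exact le_sup_right
    | succ n ih =>
      refine ih.trans (sup_le le_sup_left ((mul_le_mul_right a1 _).trans ?_))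
      rw [Submodule.mul_sup, ← mul_assoc _ T, ← pow_succ, mul_left_comm]
      exact sup_le_sup_right (mul_le_mul_right ((mul_le_mul_left (pow_le_alg T n) _).trans
        (alg_mul_alg T)) _) _
  have a3 : ∀ n, alg T ≤ pr k u ^ n * alg T ⊔ T ^ L * alg T := fun n => by
    induction n with
    | zero => rw [pow_zero, one_mul]; exact le_sup_left
    | succ n ih =>
      refine ih.trans (sup_le ((mul_le_mul_right (a2 L) _).trans ?_) le_sup_right)
      rw [Submodule.mul_sup, ← mul_assoc, ← pow_succ]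
      exact sup_le_sup_left (a0 n) _
  refine (a3 L).trans (sup_le ((mul_le_mul_right (alg_le_pow T L) _).trans ?_) le_sup_right)
  rw [Submodule.mul_sup, ← pr_pow]
  exact sup_le_sup_left (a0 L) _

theorem unit_of (h : Hyp V σ T) (h1 : ρ ∈ V) (h2 : ρ ∉ pr k σ * T) :
    ρ / σ ∈ 1 ⊔ T ∧ ρ / σ ∉ T :=
  ⟨div_mem_of_pr h.ne (h.eq ▸ h1), fun e => h2 (mul_div_cancel₀ ρ h.ne ▸ mul_mem_pr e)⟩

theorem drop_w (hV : V.FG) (h : Hyp V σ T) (hw : w.Min V σ) (hW : W ≤ V) (h1 : ρ ∈ W)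
    (h2 : ρ ∉ pr k σ * T) (L : ℕ) :
    cod (alg T) (T ^ L * alg T ⊔ w.fil 1) +
      cod (V ^ L * (W ⊓ pr k σ * T) ^ L) (w.fil (w.ordS (V ^ (2 * L)) + 1)) ≤
      cod (V ^ L * W ^ L) (w.fil (w.ordS (V ^ (2 * L)) + 1)) := by
  obtain ⟨u1, u2⟩ := unit_of h (hW h1) h2
  have hX : (V ^ L * W ^ L).FG := (hV.pow L).mul ((fg_of_le hV hW).pow L)
  have hU : (pr k ((ρ / σ) ^ L) * (1 ⊔ T) ^ L).FG := (fg_span_singleton _).mul
    ((fg_span_singleton 1).sup (hyp_fg h hV) |>.pow L |> fun e => by rwa [← one_eq_span] at e)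
  have h0 := pow_ne_zero (2 * L) h.ne
  rw [← cod_add (P := V ^ L * W ^ L) (R := V ^ L * (W ⊓ pr k σ * T) ^ L)
    (by gcongr; exact inf_le_left) (fd_of_fg hX _)]
  refine add_le_add_left ((cod_le_of_le_sup (fd_of_fg hU _) ((alg_le_unit u1 u2 L).trans
    (sup_le_sup_left le_sup_left _))).trans (cod_le_of_inj (σ ^ (2 * L)) (fun x hx => ?_)
      (fun x _ hx => ?_) (fd_of_fg hX _)).2) _
  · obtain ⟨y, hy, rfl⟩ := mem_pr_mul.1 hx
    have := h.ne
    rw [show σ ^ (2 * L) * ((ρ / σ) ^ L * y) = σ ^ L * y * ρ ^ L by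
      rw [div_pow, two_mul, pow_add]; field_simp]
    refine mul_mem_mul ?_ (pow_mem_pow _ h1 L)
    rw [h.eq, mul_pow, pr_pow]; exact mul_mem_pr hy
  · obtain ⟨y, hy, z, hz, e⟩ := mem_sup.1 hx
    have a : V ^ L * (W ⊓ pr k σ * T) ^ L ≤ pr k (σ ^ (2 * L)) * (T ^ L * alg T) := by
      calc _ ≤ (pr k σ * alg T) ^ L * (pr k σ * T) ^ L := by
            gcongr
            · rw [h.eq]
              exact mul_le_mul_right (sup_le (one_le.2 (one_mem_alg T))
                (by simpa using pow_le_alg T 1)) _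
            · exact inf_le_right
        _ = pr k σ ^ (2 * L) * (T ^ L * alg T ^ L) := by simp only [mul_pow]; ring
        _ ≤ _ := by rw [pr_pow]; gcongr; exact alg_pow_le T L
    obtain ⟨z, hz', rfl⟩ := mem_pr_mul.1 (a hz)
    rw [← (min_pow hV hw _).2.2, ← mul_div_cancel₀ y h0, mul_mem_fil h0] at hy
    rw [show x = z + y / σ ^ (2 * L) by field_simp; linear_combination -e]
    exact add_mem (mem_sup_left hz') (mem_sup_right hy)

theorem drop_x (hV : V.FG) (h : Hyp V σ T) (hW : W ≤ V) (h1 : ρ ∈ W) (h2 : ρ ∉ pr k σ * T)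
    (hM : MM.FG) (hle : M' ≤ MM) (L : ℕ) :
    finrank k (M' * (V ^ L * (W ⊓ pr k σ * T) ^ L * WW d V ^ L) :) +
      cod (Mb T (JJ d T) MM L) (T ^ L * Mb T (JJ d T) MM L) ≤
        finrank k (MM * (V ^ L * W ^ L * WW d V ^ L) :) := by
  obtain ⟨u1, u2⟩ := unit_of h (hW h1) h2
  have hX : (MM * (V ^ L * W ^ L * WW d V ^ L)).FG :=
    hM.mul (((hV.pow L).mul ((fg_of_le hV hW).pow L)).mul ((WW_fg hV).pow L))
  have h0 := pow_ne_zero L (pow_ne_zero (m + 4) h.ne)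
  have hp : pr k ((σ ^ (m + 4)) ^ L) = (pr k σ * pr k σ * pr k (σ ^ (m + 2))) ^ L := by
    rw [← pr_pow, ← pr_pow, ← pr_pow]; ring
  have b0 : 1 ⊔ T ≤ alg T := sup_le (one_le.2 (one_mem_alg T)) (by simpa using pow_le_alg T 1)
  have a1 : pr k (σ ^ (m + 2)) * JJ d T ≤ WW d V := fun x hx => by
    obtain ⟨y, hy, rfl⟩ := mem_pr_mul.1 hx
    exact pow_mul_mem_WW (hyp_mem h) (fun _ ht => h.le (mul_mem_pr ht)) hy
  have a2 : WW d V ≤ pr k (σ ^ (m + 2)) * (alg T * JJ d T) := fun x hx => by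
    rw [← mul_div_cancel₀ x (pow_ne_zero (m + 2) h.ne)]
    have : (T ⊔ 1) * JJ d T ≤ alg T * JJ d T := mul_le_mul_left (sup_comm T 1 ▸ b0) _
    exact mul_mem_pr (this (div_pow_mem' h.ne
      (fun v hv => sup_comm 1 T ▸ div_mem_of_pr h.ne (h.eq ▸ hv)) hx))
  have a3 : pr k σ * pr k (ρ / σ) ≤ W := mul_le.2 fun x hx y hy => by
    obtain ⟨a, rfl⟩ := mem_span_singleton.1 hx
    obtain ⟨b, rfl⟩ := mem_span_singleton.1 hy
    rw [smul_mul_smul_comm, mul_div_cancel₀ _ h.ne]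
    exact smul_mem _ _ h1
  have a4 : pr k ((σ ^ (m + 4)) ^ L) * Mb T (JJ d T) MM L ≤ MM * (V ^ L * W ^ L * WW d V ^ L) ⊔
      pr k ((σ ^ (m + 4)) ^ L) * (T ^ L * Mb T (JJ d T) MM L) := by
    refine (mul_le_mul_right (mul_le_mul_left (alg_le_unit u1 u2 L) _) _).trans ?_
    rw [Submodule.sup_mul, Submodule.mul_sup, mul_assoc (T ^ L)]
    refine sup_le_sup_right ?_ _
    calc _ = MM * ((pr k σ * (1 ⊔ T)) ^ L * (pr k σ * pr k (ρ / σ)) ^ L *
          (pr k (σ ^ (m + 2)) * JJ d T) ^ L) := by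
          rw [hp, ← pr_pow (ρ / σ)]; simp only [mul_pow]; ring
      _ ≤ _ := by rw [← h.eq]; gcongr
  refine le_trans (add_le_add le_rfl (cod_le_of_inj ((σ ^ (m + 4)) ^ L)
    (fun x hx => mul_mem_pr hx) (fun x _ hx => ?_) (fd_of_le hX a4)).2) (drop hX ?_ ?_ a4)
  · simpa [h0] using div_mem_of_pr h0 hx
  · gcongr; exact inf_le_left
  · calc _ ≤ MM * ((pr k σ * alg T) ^ L * (pr k σ * T) ^ L *
          (pr k (σ ^ (m + 2)) * (alg T * JJ d T)) ^ L) := by
          gcongr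
          · rw [h.eq]; exact mul_le_mul_right b0 _
          · exact inf_le_right
      _ = pr k ((σ ^ (m + 4)) ^ L) * (T ^ L * (alg T ^ (2 * L) * (MM * JJ d T ^ L))) := by
          rw [hp]; simp only [mul_pow]; ring
      _ ≤ _ := by unfold Mb; gcongr; exact alg_pow_le T _

theorem gain_zero : Gain d S V V 0 := fun M' h D' h' =>
  ⟨M', D', h, le_rfl, h', Eventually.of_forall fun L => by simp⟩

/-- One more bad point. -/
theorem Gain.step (hV : V.FG) (hb : Bad d S μ V σ T) (hW : W ≤ V) (h1 : ρ ∈ W)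
    (h2 : ρ ∉ pr k σ * T) (hg : Gain d S V W g) : Gain d S V (W ⊓ pr k σ * T) (g + μ) := by
  classical
  intro M' hM' D' hD'
  have old : ∀ L, ∀ s : Finset (DV k K),
      ∑ w ∈ s, cod (V ^ L * (W ⊓ pr k σ * T) ^ L) (w.fil (w.ordS (V ^ (2 * L)) + 1)) ≤
      ∑ w ∈ s, cod (V ^ L * W ^ L) (w.fil (w.ordS (V ^ (2 * L)) + 1)) := fun L s =>
    Finset.sum_le_sum fun w _ => cod_le_of_le_sup
      (fd_of_fg ((hV.pow L).mul ((fg_of_le hV hW).pow L)) _)
      (le_trans (by gcongr; exact inf_le_left) le_sup_left)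
  obtain ⟨M₁, D₁, f1, f2, f3, f4⟩ : ∃ (M₁ : Submodule k K) (D₁ : Finset (DV k K)), M₁.FG ∧
      M' ≤ M₁ ∧ ↑D₁ ⊆ DD d S V ∧ ∀ᶠ L : ℕ in atTop,
      Psi d V (W ⊓ pr k σ * T) M' D' L + μ * L ^ (m + 1) ≤ Psi d V W M₁ D₁ L := by
    by_cases hX : GoodX d μ T
    · obtain ⟨w, w1, w2, w3⟩ : ∃ w ∈ DD d S V, w.Min V σ ∧ ¬ Gr m μ T (alg T) (w.fil 1) := by
        by_contra hc
        exact hb.2 ⟨hX, fun w a b => not_not.1 fun c => hc ⟨w, a, b, c⟩⟩
      refine ⟨_, insert w D', hM', le_rfl, fun v hv => ?_, ?_⟩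
      · rcases Finset.mem_insert.1 hv with rfl | hv
        exacts [w1, hD' hv]
      filter_upwards [not_frequently.1 w3] with L hL
      have a1 := drop_x (d := d) hV hb.1 hW h1 h2 hM' le_rfl L
      have a2 := drop_w hV hb.1 w2 hW h1 h2 L
      have a3 : ∑ w ∈ D', cod (V ^ L * (W ⊓ pr k σ * T) ^ L) (w.fil (w.ordS (V ^ (2 * L)) + 1)) +
          μ * L ^ m ≤
          ∑ w ∈ insert w D', cod (V ^ L * W ^ L) (w.fil (w.ordS (V ^ (2 * L)) + 1)) := by
        by_cases hw : w ∈ D'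
        · have a4 := old L (D'.erase w)
          rw [Finset.insert_eq_of_mem hw, ← Finset.add_sum_erase _ _ hw,
            ← Finset.add_sum_erase _ _ hw]
          omega
        · have a4 := old L D'
          rw [Finset.sum_insert hw]
          omega
      have a5 := Nat.mul_le_mul_left L a3
      rw [mul_add, mul_left_comm, ← pow_succ'] at a5
      rw [Psi, Psi]
      omega
    · simp only [GoodX, not_exists, not_and, not_forall] at hX
      obtain ⟨MM, f1, f2, f3⟩ := hX _ hM'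
      refine ⟨MM, D', f1, f2, hD', ?_⟩
      filter_upwards [not_frequently.1 f3] with L hL
      have a1 := drop_x (d := d) hV hb.1 hW h1 h2 f1 f2 L
      have a2 := Nat.mul_le_mul_left L (old L D')
      rw [Psi, Psi]
      omega
  obtain ⟨MM, D, g1, g2, g3, g4⟩ := hg M₁ f1 D₁ f3
  refine ⟨MM, D, g1, f2.trans g2, g3, ?_⟩
  filter_upwards [f4, g4] with L a1 a2
  rw [add_mul]
  omega

theorem key (hV : V.FG) (hle : V' ≤ V) (hW : WW d V' ≠ ⊥) (D : Finset (DV k K))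
    (hD : ↑D ⊆ DD d S V') : ∃ (M₀ : Submodule k K) (O : Finset (DV k K)), M₀.FG ∧
      (∀ w ∈ O, w ∈ DD d S V ∧ w.ordS V' = w.ordS V) ∧ ∀ MM : Submodule k K, MM.FG → M₀ ≤ MM →
      ∃ c : ℕ, ∀ L : ℕ, finrank k (MM * V' ^ (3 * L) :) +
        finrank k (MM * (V' ^ (2 * L) * WW d V' ^ L) :) +
        (L - c) * ∑ w ∈ D, w.lead (V' ^ (2 * L)) ≤ finrank k (MM * V ^ (3 * L) :) +
        finrank k (MM * (V ^ (2 * L) * WW d V ^ L) :) + L * ∑ w ∈ O, w.lead (V' ^ (2 * L)) := by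
  classical
  have hV' := fg_of_le hV hle
  have h0 := ne_bot_of_WW hW
  have hWW := WW_mono (d := d) hle
  let D₁ := D.filter fun w => w.ordS V' = w.ordS V
  obtain ⟨M₁, f1, g1⟩ := div hV hle h0 (D.filter fun w => ¬ w.ordS V' = w.ordS V) fun w hw =>
    lt_of_le_of_ne (le_ordS hV' h0 (hle.trans (le_fil_ordS w hV)))
      (Ne.symm (Finset.mem_filter.1 hw).2)
  obtain ⟨M₂, f2, g2⟩ := div (WW_fg hV) hWW hW (D₁.filter fun w => w ∉ DD d S V) fun w hw => by
    simp only [D₁, Finset.mem_filter] at hw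
    exact new_lt hV hle hW hw.1.2 (hD hw.1.1) hw.2
  refine ⟨M₁ ⊔ M₂, D₁.filter fun w => w ∈ DD d S V, f1.sup f2, fun w hw => ?_, fun MM hM h => ?_⟩
  · simp only [D₁, Finset.mem_filter] at hw
    exact ⟨hw.2, hw.1.2⟩
  obtain ⟨c₁, e1⟩ := g1 MM hM (le_sup_left.trans h)
  obtain ⟨c₂, e2⟩ := g2 MM hM (le_sup_right.trans h)
  refine ⟨c₁ + c₂, fun L => ?_⟩
  have a1 := e1 _ (hV'.pow (2 * L)) L
  have a2 := e2 _ (hV'.pow (2 * L)) L
  have e3 : 3 * L = 2 * L + L := by ring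
  have a3 : finrank k (MM * (V' ^ (2 * L) * V ^ L) :) ≤ finrank k (MM * V ^ (3 * L) :) :=
    finrank_le (hM.mul (hV.pow _)) (by rw [e3, pow_add]; gcongr)
  have a4 : finrank k (MM * (V' ^ (2 * L) * WW d V ^ L) :) ≤
      finrank k (MM * (V ^ (2 * L) * WW d V ^ L) :) :=
    finrank_le (hM.mul ((hV.pow _).mul ((WW_fg hV).pow _))) (by gcongr)
  rw [← pow_add, ← e3] at a1
  rw [← Finset.sum_filter_add_sum_filter_not D (fun w => w.ordS V' = w.ordS V),
    ← Finset.sum_filter_add_sum_filter_not D₁ (fun w => w ∈ DD d S V), mul_add, mul_add]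
  have b : ∀ x i j : ℕ, i ≤ j → i * x ≤ j * x := fun x i j h => Nat.mul_le_mul_right x h
  have b1 := b (∑ w ∈ D.filter fun w => ¬ w.ordS V' = w.ordS V, w.lead (V' ^ (2 * L)))
    (L - (c₁ + c₂)) (L - c₁) (by omega)
  have b2 := b (∑ w ∈ D₁.filter fun w => w ∉ DD d S V, w.lead (V' ^ (2 * L)))
    (L - (c₁ + c₂)) (L - c₂) (by omega)
  have b3 := b (∑ w ∈ D₁.filter fun w => w ∈ DD d S V, w.lead (V' ^ (2 * L)))
    (L - (c₁ + c₂)) L (by omega)
  omega

/-- The second potential drops by the gain. -/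
theorem Gain.pot (hV : V.FG) (hle : V' ≤ V) (hW : WW d V' ≠ ⊥) (hg : Gain d S V V' g)
    (hP : Pot2 d S V G) : Pot2 d S V' (G - g) := by
  classical
  intro M' hM' D' hD' ε hε
  have hV' := fg_of_le hV hle
  have h0 := ne_bot_of_WW hW
  obtain ⟨M₀, O, f0, hO, g0⟩ := key hV hle hW D' hD'
  obtain ⟨MM, D, hM, hl, hD, hg⟩ := hg _ (hM'.sup f0) O fun w hw => (hO w hw).1
  obtain ⟨c, hc⟩ := g0 MM hM (le_sup_right.trans hl)
  obtain ⟨N, hN⟩ := exists_nat_ge (c * (G + ε / 2) / (ε / 2))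
  filter_upwards [hg, hP MM hM D hD (ε / 2) (half_pos hε), eventually_gt_atTop (c + N)]
    with L a1 a2 a3
  have a4 := hc L
  have a5 : finrank k (M' * V' ^ (3 * L) :) ≤ finrank k (MM * V' ^ (3 * L) :) :=
    finrank_le (hM.mul (hV'.pow _)) (mul_le_mul_left (le_sup_left.trans hl) _)
  have a6 : finrank k (M' * (V' ^ (2 * L) * WW d V' ^ L) :) ≤
      finrank k (MM * (V' ^ (2 * L) * WW d V' ^ L) :) :=
    finrank_le (hM.mul ((hV'.pow _).mul ((WW_fg hV').pow _)))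
      (mul_le_mul_left (le_sup_left.trans hl) _)
  have a9 : finrank k (M' * (V' ^ (2 * L) * WW d V' ^ L) :) ≤
      finrank k ((M' ⊔ M₀) * (V ^ L * V' ^ L * WW d V ^ L) :) :=
    finrank_le ((hM'.sup f0).mul (((hV.pow _).mul (hV'.pow _)).mul ((WW_fg hV).pow _))) (by
      have := WW_mono (d := d) hle
      rw [two_mul, pow_add]; gcongr; exact le_sup_left)
  have a10 : ∑ w ∈ O, w.lead (V' ^ (2 * L)) ≤
      ∑ w ∈ O, cod (V ^ L * V' ^ L) (w.fil (w.ordS (V ^ (2 * L)) + 1)) :=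
    Finset.sum_le_sum fun w hw => by
      rw [DV.lead, ordS_pow hV' h0, (hO w hw).2,
        ← ordS_pow hV fun h => h0 (le_bot_iff.1 (h ▸ hle))]
      exact cod_le_of_le_sup (fd_of_fg ((hV.pow _).mul (hV'.pow _)) _)
        (le_trans (by rw [two_mul, pow_add]; gcongr) le_sup_left)
  have a11 := Nat.mul_le_mul_left L a10
  have a12 : Psi d V V MM D L = finrank k (MM * (V ^ (2 * L) * WW d V ^ L) :) +
      L * ∑ w ∈ D, w.lead (V ^ (2 * L)) := by
    rw [Psi, ← pow_add, ← two_mul]; rfl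
  rw [a12, Psi] at a1
  obtain ⟨l, rfl⟩ := Nat.exists_eq_add_of_le (show c ≤ L by omega)
  rw [Nat.add_sub_cancel_left] at a4
  generalize hx : ∑ w ∈ D', w.lead (V' ^ (2 * (c + l))) = x at a4
  have a7 : Phi2 d V' M' D' (c + l) + g * (c + l) ^ (m + 1) ≤
      Phi2 d V MM D (c + l) + c * x := by
    rw [Phi2, Phi2, hx, add_mul c l x]; omega
  have a8 : l * x ≤ Phi2 d V MM D (c + l) := by rw [Phi2]; omega
  have b7 : (Phi2 d V' M' D' (c + l) : ℝ) + g * ((c + l : ℕ) : ℝ) ^ (m + 1) ≤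
      Phi2 d V MM D (c + l) + c * x := by exact_mod_cast a7
  have b8 : (l : ℝ) * x ≤ Phi2 d V MM D (c + l) := by exact_mod_cast a8
  have b1 : (N : ℝ) < l := by exact_mod_cast (show N < l by omega)
  have b2 : (0 : ℝ) < l := (Nat.cast_nonneg N).trans_lt b1
  have b3 : c * (G + ε / 2) ≤ ε / 2 * l := by
    rw [div_le_iff₀ (half_pos hε)] at hN
    nlinarith
  have b4 : (0 : ℝ) ≤ ((c + l : ℕ) : ℝ) ^ (m + 1) := by positivity
  generalize ((c + l : ℕ) : ℝ) ^ (m + 1) = y at *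
  have b5 : (c : ℝ) * x ≤ ε / 2 * y := by
    refine le_of_mul_le_mul_left ?_ b2
    have b6 := mul_le_mul_of_nonneg_left (b8.trans a2) (Nat.cast_nonneg (α := ℝ) c)
    have b9 := mul_le_mul_of_nonneg_right b3 b4
    nlinarith
  nlinarith

/-- The intersection of `V` with all its bad hyperplanes. -/
def cut (d : Fin (m + 1) → Derivation k K K) (S : Finset K) (μ : ℕ) (V : Submodule k K) :
    Submodule k K :=
  V ⊓ ⨅ z : {z : K × Submodule k K // Bad d S μ V z.1 z.2}, pr k z.1.1 * z.1.2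

theorem cut_le (hb : Bad d S μ V σ T) : cut d S μ V ≤ pr k σ * T :=
  inf_le_right.trans (iInf_le (fun z : {z : K × Submodule k K // Bad d S μ V z.1 z.2} =>
    pr k z.1.1 * z.1.2) ⟨(σ, T), hb⟩)

theorem mem_cut {x : K} : x ∈ cut d S μ V ↔ x ∈ V ∧ ∀ σ T, Bad d S μ V σ T → x ∈ pr k σ * T :=
  ⟨fun h => ⟨h.1, fun _ _ hb => cut_le hb h⟩, fun h => ⟨h.1, (mem_iInf _).2 fun z => h.2 _ _ z.2⟩⟩

theorem finrank_inf_hyp (hV : V.FG) (h : Hyp V σ T) (hW : W ≤ V) :
    finrank k W ≤ finrank k (W ⊓ pr k σ * T :) + 1 := by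
  have : Module.Finite k V := Module.Finite.iff_fg.2 hV
  have := finiteDimensional_of_le hW
  have := finiteDimensional_of_le h.le
  have h1 := finrank_sup_add_finrank_inf_eq W (pr k σ * T)
  have h2 := finrank_le hV (sup_le hW h.le)
  have h3 := (h.finrank hV).2
  omega

/-- The Albanese algorithm, removing all bad points at each step. -/
theorem alb_cut (St : Submodule k K → Prop) {V₀ : Submodule k K} {R : ℝ} (hμ : 0 < μ) (hV₀ : V₀.FG)
    (hP : Pot2 d S V₀ (μ * R))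
    (hW : ∀ V ≤ V₀, (finrank k V₀ : ℝ) ≤ finrank k V + R + 1 → WW d V ≠ ⊥) (h0 : St V₀)
    (hSt : ∀ V ≤ V₀, St V → St (cut d S μ V)) : ∃ V ≤ V₀, St V ∧ Alb d S μ V := by
  have hμ' : (0 : ℝ) < μ := Nat.cast_pos.2 hμ
  have bd : ∀ {V : Submodule k K} {c : ℕ}, Pot2 d S V (μ * R - c * μ) → (c : ℝ) ≤ R :=
    fun h => le_of_mul_le_mul_left (by linarith [h.nonneg]) hμ'
  have inner : ∀ V ≤ V₀, ∀ c : ℕ, Pot2 d S V (μ * R - c * μ) → ∀ (n : ℕ) (W : Submodule k K) (j : ℕ),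
      finrank k W = n → cut d S μ V ≤ W → W ≤ V → Gain d S V W (j * μ) →
      finrank k V₀ ≤ finrank k W + (c + j) → Pot2 d S W (μ * R - (c + j : ℕ) * μ) →
      ∃ c' : ℕ, finrank k V₀ ≤ finrank k (cut d S μ V) + c' ∧
        Pot2 d S (cut d S μ V) (μ * R - c' * μ) := by
    intro V hV c hc n
    induction n using Nat.strong_induction_on with
    | _ n ih =>
    intro W j e h1 h2 h3 h4 h5
    by_cases hW1 : W ≤ cut d S μ V
    · rw [le_antisymm h1 hW1]; exact ⟨_, h4, h5⟩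
    obtain ⟨σ, T, hb, h6⟩ : ∃ σ T, Bad d S μ V σ T ∧ ¬ W ≤ pr k σ * T := by
      by_contra hn
      exact hW1 (le_inf h2 (le_iInf fun z => not_not.1 fun h => hn ⟨_, _, z.2, h⟩))
    obtain ⟨ρ, r1, r2⟩ := SetLike.not_le_iff_exists.1 h6
    have hf := fg_of_le hV₀ hV
    have a1 := finrank_inf_hyp hf hb.1 h2
    have a2 := Gain.step hf hb h2 r1 r2 h3
    have a3 : W ⊓ pr k σ * T ≤ V := inf_le_left.trans h2
    have a4 : finrank k V₀ ≤ finrank k (W ⊓ pr k σ * T :) + (c + (j + 1)) := by omega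
    have a5 := Gain.pot hf a3 (hW _ (a3.trans hV) (by
      have b1 : (finrank k V₀ : ℝ) ≤ finrank k (W ⊓ pr k σ * T :) + (c + (j + 1)) := by
        exact_mod_cast a4
      have b2 := bd h5
      push_cast at b2
      linarith)) a2 hc
    have : Module.Finite k W := Module.Finite.iff_fg.2 (fg_of_le hf h2)
    refine ih _ (e ▸ finrank_lt_finrank_of_lt (inf_lt_left.2 h6)) _ (j + 1) rfl
      (le_inf h1 (cut_le hb)) a3 (by rwa [add_mul, one_mul]) a4 ?_
    convert a5 using 1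
    push_cast; ring
  suffices H : ∀ (n : ℕ) (V : Submodule k K) (c : ℕ), finrank k V = n → V ≤ V₀ → St V →
      finrank k V₀ ≤ finrank k V + c → Pot2 d S V (μ * R - c * μ) →
      ∃ V ≤ V₀, St V ∧ Alb d S μ V from H _ V₀ 0 rfl le_rfl h0 le_rfl (by simpa using hP)
  intro n
  induction n using Nat.strong_induction_on with
  | _ n ih =>
  intro V c e h1 h2 h3 h4
  have hf := fg_of_le hV₀ h1
  by_cases hg : Good d S μ V
  · refine ⟨V, h1, h2, hf, hW V h1 ?_, h4.fin hf, hg⟩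
    have b1 : (finrank k V₀ : ℝ) ≤ finrank k V + c := by exact_mod_cast h3
    linarith [bd h4]
  simp only [Good, not_forall] at hg
  obtain ⟨σ, T, hH, hb⟩ := hg
  obtain ⟨c', a1, a2⟩ := inner V h1 c h4 _ V 0 rfl inf_le_left le_rfl
    (by simpa using gain_zero) h3 h4
  have : Module.Finite k V := Module.Finite.iff_fg.2 hf
  refine ih _ (e ▸ finrank_lt_finrank_of_lt (lt_of_le_of_ne inf_le_left fun h => ?_)) _ c' rfl
    (inf_le_left.trans h1) (hSt V h1 h2) a1 a2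
  have a3 : cut d S μ V ≤ pr k σ * T := cut_le ⟨hH, hb⟩
  exact hH.one (div_self hH.ne ▸ div_mem_of_pr hH.ne (a3 (h.ge (hyp_mem hH))))

open Sta in
/-- The first linear system for a given basis. -/
theorem start_bx {ι : Type} [Fintype ι] {t : Fin (m + 1) → K} {η : ι → K} (hF : Fr t d)
    (S : Finset K) (l : ι) (hη : ∀ l, IsIntegral (Algebra.adjoin k (Set.range t)) (η l))
    (hi : LinearIndependent (IntermediateField.adjoin k (Set.range t)) η)
    (hs : span (IntermediateField.adjoin k (Set.range t)) (Set.range η) = ⊤) :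
    ∃ (N : ℕ) (R : ℝ), 0 ≤ R ∧ Pot d S (bx k t η N) (kap m * R) ∧ ∀ V ≤ bx k t η N,
      (finrank k (bx k t η N) : ℝ) ≤ finrank k V + R / 4 + 1 → WW d V ≠ ⊥ := by
  obtain ⟨C, a, hP⟩ := pot_bx div_stmt hF S l hη hi hs
  set D := Fintype.card ι with hD
  have hD0 : (0 : ℝ) < D := Nat.cast_pos.2 (Fintype.card_pos_iff.2 ⟨l⟩)
  have hk : (kap m : ℝ) = 2 ^ (m + 1) + 2 * (m + 3) ^ (m + 1) + 1 := by simp [kap]
  have hk0 : (0 : ℝ) < kap m := by rw [hk]; positivity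
  have l1 := (((lim 2 (2 * C) (m + 1)).add ((lim (m + 3) ((m + 3) * C) (m + 1)).const_mul 2)).add
    (((lim 1 C (m + 1)).sub (lim 1 1 (m + 1))).const_mul (a : ℝ))).const_mul (D : ℝ)
  have l2 := ((((lim 1 2 (m + 1)).const_mul 2).sub (lim 1 3 (m + 1))).const_mul (D : ℝ)).sub
    ((lim 0 1 (m + 1)).const_mul 2)
  have l3 := l1.eventually_lt (l2.const_mul (kap m : ℝ)) (by
    simp only [one_pow, sub_self, mul_zero, add_zero, zero_pow (Nat.succ_ne_zero m), sub_zero, hk]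
    linarith)
  have l4 := l1.eventually (lt_mem_nhds (show (0 : ℝ) < _ by
    simp only [sub_self, mul_zero, add_zero]
    positivity))
  obtain ⟨N, a1, a2, a3⟩ := (l3.and (l4.and (eventually_gt_atTop 0))).exists
  have hp : (0 : ℝ) < (N : ℝ) ^ (m + 1) := by positivity
  simp only [← sub_div, ← mul_div_assoc, ← add_div, one_mul, zero_mul, zero_add, one_pow,
    mul_one, ← mul_add (2 : ℝ) N, ← mul_add ((m : ℝ) + 3) N] at a1 a2
  rw [div_lt_div_iff_of_pos_right hp, ← div_lt_iff₀' hk0] at a1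
  rw [div_pos_iff_of_pos_right hp] at a2
  have a4 := div_pos a2 hk0
  refine ⟨_, _, a4.le, by rw [mul_div_cancel₀ _ hk0.ne']; exact hP N, fun V hV h1 h2 => ?_⟩
  have h3 := (Nat.cast_le (α := ℝ)).2 (two_mul_le hF hi hV h2)
  rw [finrank_bx hF.ind hi] at h1
  rw [← hD] at h1 h3
  push_cast at h1 h3
  rw [add_assoc (N : ℝ), one_add_one_eq_two] at h1
  rw [add_assoc (N : ℝ), show (1 + 2 : ℝ) = 3 by norm_num] at h3
  linarith

/-- The Albanese theorem for a class of subspaces that contains the boxes and is closed under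
removal of the bad points. -/
theorem alb_stable {ι : Type} [Fintype ι] {t : Fin (m + 1) → K} {η : ι → K} (hF : Fr t d)
    (S : Finset K) (l : ι) (hη : ∀ l, IsIntegral (Algebra.adjoin k (Set.range t)) (η l))
    (hi : LinearIndependent (IntermediateField.adjoin k (Set.range t)) η)
    (hs : span (IntermediateField.adjoin k (Set.range t)) (Set.range η) = ⊤)
    (St : Submodule k K → Prop) (h0 : ∀ N, St (Sta.bx k t η N))
    (hSt : ∀ V, V.FG → St V → St (cut d S (2 ^ (m + 1) * mu m) V)) :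
    ∃ V, St V ∧ Alb d S (2 ^ (m + 1) * mu m) V := by
  obtain ⟨N, R, h1, h2, h3⟩ := start_bx hF S l hη hi hs
  have h4 := pot2_of_pot (Sta.bx_fg N) (h3 _ le_rfl (by linarith)) h2
  obtain ⟨V, -, h5⟩ := alb_cut St (μ := 2 ^ (m + 1) * mu m) (R := R / 4)
    (by unfold mu kap; positivity) (Sta.bx_fg N) (by convert h4 using 1; simp [mu]; ring) h3 (h0 N)
    fun V hV => hSt V (fg_of_le (Sta.bx_fg N) hV)
  exact ⟨V, h5⟩

end Pool.Agent.MP_19ffc6_ag.Res.PA.Orb
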