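import Pool.Agent.MP_19ffc6_ag.Res.PAlb
import Pool.Agent.MP_19ffc6_ag.Res.FSpec

/-! PROJECT RESP: the Albanese theorem with a bound for the sum of the multiplicities of the
boundary divisors. -/

namespace Pool.Agent.MP_19ffc6_ag.Res.PA

open Submodule Module Filter Pool.Agent.MP_19ffc6_ag.Res.PA.Num St

variable {k K : Type} [Field k] [Field K] [Algebra k K] {m : ℕ}

variable {d : Fin (m + 1) → Derivation k K K} {S : Finset K} {V V' W T MM M' : Submodule k K}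
  {σ ρ u : K} {w : DV k K} {G : ℝ} {μ g : ℕ}

theorem grS_gr {D : Set (DV k K)} (h : PF.GrS m μ T D) (h1 : w ∈ D) :
    Gr m μ T (alg T) (w.fil 1) := by
  simpa [Gr] using h {w} (by simpa)

namespace Orb

/-- The chart `(σ, T)` is a bad point of `V`. -/
def Bad2 (d : Fin (m + 1) → Derivation k K K) (S : Finset K) (μ : ℕ) (V : Submodule k K) (σ : K)
    (T : Submodule k K) : Prop :=
  Hyp V σ T ∧ ¬ (GoodX d μ T ∧ PF.GrS m μ T {w | w ∈ DD d S V ∧ w.Min V σ})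

/-- One more bad point. -/
theorem Gain.step2 (hV : V.FG) (hb : Bad2 d S μ V σ T) (hW : W ≤ V) (h1 : ρ ∈ W)
    (h2 : ρ ∉ pr k σ * T) (hg : Gain d S V W g) : Gain d S V (W ⊓ pr k σ * T) (g + μ) := by
  classical
  by_cases hX : GoodX d μ T
  swap
  · exact Gain.step hV ⟨hb.1, fun e => hX e.1⟩ hW h1 h2 hg
  intro M' hM' D' hD'
  obtain ⟨s, w1, w3⟩ : ∃ s : Finset (DV k K), (∀ w ∈ s, w ∈ DD d S V ∧ w.Min V σ) ∧
      ¬ ∃ᶠ L : ℕ in atTop, ∑ w ∈ s, cod (alg T) (T ^ L * alg T ⊔ w.fil 1) ≤ μ * L ^ m := by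
    by_contra hc
    exact hb.2 ⟨hX, fun s a => not_not.1 fun c => hc ⟨s, a, c⟩⟩
  obtain ⟨MM, D, g1, g2, g3, g4⟩ := hg M' hM' (D' \ s ∪ s) fun v hv =>
    (Finset.mem_union.1 hv).elim (fun h => hD' (Finset.mem_sdiff.1 h).1) fun h => (w1 v h).1
  refine ⟨MM, D, g1, g2, g3, ?_⟩
  filter_upwards [not_frequently.1 w3, g4] with L hL a0
  have a1 := drop_x (d := d) hV hb.1 hW h1 h2 hM' le_rfl L
  have a2 := Finset.sum_le_sum fun w (hw : w ∈ s) => drop_w hV hb.1 (w1 w hw).2 hW h1 h2 L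
  have a3 : ∑ w ∈ D' \ s, cod (V ^ L * (W ⊓ pr k σ * T) ^ L) (w.fil (w.ordS (V ^ (2 * L)) + 1)) ≤
      ∑ w ∈ D' \ s, cod (V ^ L * W ^ L) (w.fil (w.ordS (V ^ (2 * L)) + 1)) :=
    Finset.sum_le_sum fun w _ => cod_le_of_le_sup
      (fd_of_fg ((hV.pow L).mul ((fg_of_le hV hW).pow L)) _)
      (le_trans (by gcongr; exact inf_le_left) le_sup_left)
  have a4 := Finset.sum_le_sum_of_subset (f := fun w : DV k K =>
    cod (V ^ L * (W ⊓ pr k σ * T) ^ L) (w.fil (w.ordS (V ^ (2 * L)) + 1)))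
    (show D' ⊆ D' \ s ∪ s by
      rw [Finset.sdiff_union_self_eq_union]; exact Finset.subset_union_left)
  rw [Finset.sum_add_distrib] at a2
  rw [Finset.sum_union Finset.sdiff_disjoint] at a4
  have a5 : ∑ w ∈ D', cod (V ^ L * (W ⊓ pr k σ * T) ^ L) (w.fil (w.ordS (V ^ (2 * L)) + 1)) +
      μ * L ^ m ≤
      ∑ w ∈ D' \ s ∪ s, cod (V ^ L * W ^ L) (w.fil (w.ordS (V ^ (2 * L)) + 1)) := by
    rw [Finset.sum_union Finset.sdiff_disjoint]
    omega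
  have a6 := Nat.mul_le_mul_left L a5
  rw [mul_add, mul_left_comm, ← pow_succ'] at a6
  rw [Psi] at a0
  rw [Psi, add_mul]
  omega

/-- The intersection of `V` with all its bad hyperplanes. -/
def cut2 (d : Fin (m + 1) → Derivation k K K) (S : Finset K) (μ : ℕ) (V : Submodule k K) :
    Submodule k K :=
  V ⊓ ⨅ z : {z : K × Submodule k K // Bad2 d S μ V z.1 z.2}, pr k z.1.1 * z.1.2

theorem cut2_le (hb : Bad2 d S μ V σ T) : cut2 d S μ V ≤ pr k σ * T :=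
  inf_le_right.trans (iInf_le (fun z : {z : K × Submodule k K // Bad2 d S μ V z.1 z.2} =>
    pr k z.1.1 * z.1.2) ⟨(σ, T), hb⟩)

theorem mem_cut2 {x : K} : x ∈ cut2 d S μ V ↔ x ∈ V ∧ ∀ σ T, Bad2 d S μ V σ T → x ∈ pr k σ * T :=
  ⟨fun h => ⟨h.1, fun _ _ hb => cut2_le hb h⟩, fun h => ⟨h.1, (mem_iInf _).2 fun z => h.2 _ _ z.2⟩⟩

/-- The Albanese algorithm, removing all bad points at each step. -/
theorem alb_cut2 (St : Submodule k K → Prop) {V₀ : Submodule k K} {R : ℝ} (hμ : 0 < μ)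
    (hV₀ : V₀.FG) (hP : Pot2 d S V₀ (μ * R))
    (hW : ∀ V ≤ V₀, (finrank k V₀ : ℝ) ≤ finrank k V + R + 1 → WW d V ≠ ⊥) (h0 : St V₀)
    (hSt : ∀ V ≤ V₀, St V → St (cut2 d S μ V)) : ∃ V ≤ V₀, St V ∧ PF.Alb2 d S μ V := by
  have hμ' : (0 : ℝ) < μ := Nat.cast_pos.2 hμ
  have bd : ∀ {V : Submodule k K} {c : ℕ}, Pot2 d S V (μ * R - c * μ) → (c : ℝ) ≤ R :=
    fun h => le_of_mul_le_mul_left (by linarith [h.nonneg]) hμ'
  have inner : ∀ V ≤ V₀, ∀ c : ℕ, Pot2 d S V (μ * R - c * μ) → ∀ (n : ℕ) (W : Submodule k K) (j : ℕ),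
      finrank k W = n → cut2 d S μ V ≤ W → W ≤ V → Gain d S V W (j * μ) →
      finrank k V₀ ≤ finrank k W + (c + j) → Pot2 d S W (μ * R - (c + j : ℕ) * μ) →
      ∃ c' : ℕ, finrank k V₀ ≤ finrank k (cut2 d S μ V) + c' ∧
        Pot2 d S (cut2 d S μ V) (μ * R - c' * μ) := by
    intro V hV c hc n
    induction n using Nat.strong_induction_on with
    | _ n ih =>
    intro W j e h1 h2 h3 h4 h5
    by_cases hW1 : W ≤ cut2 d S μ V
    · rw [le_antisymm h1 hW1]; exact ⟨_, h4, h5⟩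
    obtain ⟨σ, T, hb, h6⟩ : ∃ σ T, Bad2 d S μ V σ T ∧ ¬ W ≤ pr k σ * T := by
      by_contra hn
      exact hW1 (le_inf h2 (le_iInf fun z => not_not.1 fun h => hn ⟨_, _, z.2, h⟩))
    obtain ⟨ρ, r1, r2⟩ := SetLike.not_le_iff_exists.1 h6
    have hf := fg_of_le hV₀ hV
    have a1 := finrank_inf_hyp hf hb.1 h2
    have a2 := Gain.step2 hf hb h2 r1 r2 h3
    have a3 : W ⊓ pr k σ * T ≤ V := inf_le_left.trans h2
    have a4 : finrank k V₀ ≤ finrank k (W ⊓ pr k σ * T :) + (c + (j + 1)) := by omega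
    have a5 := Gain.pot hf a3 (hW _ (a3.trans hV) (by
      have b1 : (finrank k V₀ : ℝ) ≤ finrank k (W ⊓ pr k σ * T :) + (c + (j + 1)) := by
        exact_mod_cast a4
      have b2 := bd h5
      push_cast at b2
      linarith)) a2 hc
    have : Module.Finite k W := Module.Finite.iff_fg.2 (fg_of_le hf h2)
    refine ih _ (e ▸ finrank_lt_finrank_of_lt (inf_lt_left.2 h6)) _ (j + 1) rfl
      (le_inf h1 (cut2_le hb)) a3 (by rwa [add_mul, one_mul]) a4 ?_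
    convert a5 using 1
    push_cast; ring
  suffices H : ∀ (n : ℕ) (V : Submodule k K) (c : ℕ), finrank k V = n → V ≤ V₀ → St V →
      finrank k V₀ ≤ finrank k V + c → Pot2 d S V (μ * R - c * μ) →
      ∃ V ≤ V₀, St V ∧ PF.Alb2 d S μ V from H _ V₀ 0 rfl le_rfl h0 le_rfl (by simpa using hP)
  intro n
  induction n using Nat.strong_induction_on with
  | _ n ih =>
  intro V c e h1 h2 h3 h4
  have hf := fg_of_le hV₀ h1
  by_cases hg : ∀ σ T, Hyp V σ T → GoodX d μ T ∧ PF.GrS m μ T {w | w ∈ DD d S V ∧ w.Min V σ}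
  · refine ⟨V, h1, h2, ⟨hf, hW V h1 ?_, h4.fin hf, fun σ T h =>
      ⟨(hg σ T h).1, fun w a b => grS_gr (hg σ T h).2 ⟨a, b⟩⟩⟩, fun σ T h => (hg σ T h).2⟩
    have b1 : (finrank k V₀ : ℝ) ≤ finrank k V + c := by exact_mod_cast h3
    linarith [bd h4]
  simp only [not_forall] at hg
  obtain ⟨σ, T, hH, hb⟩ := hg
  obtain ⟨c', a1, a2⟩ := inner V h1 c h4 _ V 0 rfl inf_le_left le_rfl
    (by simpa using gain_zero) h3 h4
  have : Module.Finite k V := Module.Finite.iff_fg.2 hf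
  refine ih _ (e ▸ finrank_lt_finrank_of_lt (lt_of_le_of_ne inf_le_left fun h => ?_)) _ c' rfl
    (inf_le_left.trans h1) (hSt V h1 h2) a1 a2
  have a3 : cut2 d S μ V ≤ pr k σ * T := cut2_le ⟨hH, hb⟩
  exact hH.one (div_self hH.ne ▸ div_mem_of_pr hH.ne (a3 (h.ge (hyp_mem hH))))

theorem alb_stable2 {ι : Type} [Fintype ι] {t : Fin (m + 1) → K} {η : ι → K} (hF : Fr t d)
    (S : Finset K) (l : ι) (hη : ∀ l, IsIntegral (Algebra.adjoin k (Set.range t)) (η l))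
    (hi : LinearIndependent (IntermediateField.adjoin k (Set.range t)) η)
    (hs : span (IntermediateField.adjoin k (Set.range t)) (Set.range η) = ⊤)
    (St : Submodule k K → Prop) (h0 : ∀ N, St (Sta.bx k t η N))
    (hSt : ∀ V, V.FG → St V → St (cut2 d S (2 ^ (m + 1) * mu m) V)) :
    ∃ V, St V ∧ PF.Alb2 d S (2 ^ (m + 1) * mu m) V := by
  obtain ⟨N, R, h1, h2, h3⟩ := start_bx hF S l hη hi hs
  have h4 := pot2_of_pot (Sta.bx_fg N) (h3 _ le_rfl (by linarith)) h2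
  obtain ⟨V, -, h5⟩ := alb_cut2 St (μ := 2 ^ (m + 1) * mu m) (R := R / 4)
    (by unfold mu kap; positivity) (Sta.bx_fg N) (by convert h4 using 1; simp [mu]; ring) h3 (h0 N)
    fun V hV => hSt V (fg_of_le (Sta.bx_fg N) hV)
  exact ⟨V, h5⟩

end Orb

namespace Tw

variable {γ : Tw k K}

theorem Com.bad2 (hc : γ.Com d) (hS : ∀ r ∈ S, γ.g r = r) (h : Orb.Bad2 d S μ V (γ.g σ) T) :
    Orb.Bad2 d S μ (γ.cm V) σ (γ.cm T) := by
  classical
  refine ⟨hyp_cm h.1, fun e => h.2 ⟨hc.goodX e.1, fun s hs => ?_⟩⟩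
  have := e.2 (s.image γ.dv) fun w hw => by
    obtain ⟨v, hv, rfl⟩ := Finset.mem_image.1 hw
    exact ⟨hc.dd hS (hs hv).1, γ.dv_min.2 (hs hv).2⟩
  simpa only [Finset.sum_image (Function.LeftInverse.injective γ.symm_dv).injOn, dv_fil, ← cm_alg,
    ← cm_pow, ← cm_mul, ← cm_sup, cod_cm] using this

theorem Com.cut2 (hc : γ.Com d) (hS : ∀ r ∈ S, γ.g r = r) (V : Submodule k K) :
    γ.cm (Orb.cut2 d S μ V) = Orb.cut2 d S μ (γ.cm V) := by
  have h : ∀ γ : Tw k K, γ.Com d → (∀ r ∈ S, γ.g r = r) → ∀ V : Submodule k K,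
      Orb.cut2 d S μ (γ.cm V) ≤ γ.cm (Orb.cut2 d S μ V) := by
    intro γ hc hS V x hx
    refine Orb.mem_cut2.2 ⟨hx.1, fun σ T hb => ?_⟩
    obtain ⟨σ, rfl⟩ := γ.g.surjective σ
    have := Orb.cut2_le (hc.bad2 hS hb) hx
    rwa [← γ.cm_pr σ, ← cm_mul] at this
  refine le_antisymm ?_ (h γ hc hS V)
  have := γ.cm_mono (h γ.symm hc.symm (fun r hr => γ.g.symm_apply_eq.2 (hS r hr).symm) (γ.cm V))
  rwa [cm_symm, symm_cm] at this

end Tw

theorem alb_fix2 {Γ : Set (Tw k K)} {t : Fin (m + 1) → K} (hF : Fr t d)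
    (ht : ∀ i, t i ∈ Tw.Fix Γ) (hS : ∀ r ∈ S, r ∈ Tw.Fix Γ) (hsp : span k (Tw.Fix Γ) = ⊤) :
    ∃ V : Submodule k K, (∀ γ ∈ Γ, γ.cm V = V) ∧ span k (↑V ∩ Tw.Fix Γ) = V ∧
      PF.Alb2 d S (2 ^ (m + 1) * mu m) V := by
  obtain ⟨n, η, h1, h2, h3, h4⟩ := Tw.exists_basis hF ht hsp
  obtain ⟨V, h5, h6⟩ := Orb.alb_stable2 hF S 0 h2 h3 h4 (fun V => ∀ γ ∈ Γ, γ.cm V = V)
    (fun N γ hγ => by
      have a1 : γ.cm (Sta.cube k t) = Sta.cube k t := by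
        refine Finset.prod_induction _ (fun P => γ.cm P = P) (fun a b ha hb => ?_) γ.cm_one
          fun i _ => ?_
        · rw [Tw.cm_mul, ha, hb]
        · rw [Tw.cm_sup, Tw.cm_one, ← ht i γ hγ, Tw.cm_pr, ht i γ hγ]
      rw [Sta.bx, Tw.cm_mul, Tw.cm_pow, a1, Tw.cm_span]
      congr 2
      ext x
      exact exists_congr fun l => ⟨fun e => γ.g.injective ((h1 l γ hγ).trans e),
        fun e => by rw [← e, h1 l γ hγ]⟩)
    fun V _ h γ hγ => by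
      rw [(Tw.com_of_fr hF fun i => ht i γ hγ).cut2 fun r hr => hS r hr γ hγ, h γ hγ]
  exact ⟨V, h5, Tw.speiser (fun γ hγ => (h5 γ hγ).ge) (hsp ▸ le_top), h6⟩

end Pool.Agent.MP_19ffc6_ag.Res.PA

namespace Pool.Agent.MP_19ffc6_ag.Res.P

open PA

variable {k K : Type} [Field k] [Field K] [Algebra k K] {m : ℕ}

theorem albP2 {K₀ : Subfield K} {t : Fin (m + 1) → K} {d : Fin (m + 1) → Derivation k K K}
    {S : Finset K} (hG : Gl (k := k) K₀ ⊤) (hF : Fr t d) (ht : ∀ i, t i ∈ K₀)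
    (hS : ∀ r ∈ S, r ∈ K₀) : ∃ V, Stb K₀ V ∧ PF.Alb2 d S (2 ^ (m + 1) * mu m) V := by
  obtain ⟨V, h1, -, h2⟩ := alb_fix2 (Γ := tws k K₀) (S := S) hF (fun i => mem_fix_tws (ht i))
    (fun r hr => mem_fix_tws (hS r hr)) (span_fix_tws hG)
  exact ⟨V, stb_of_tws h1, h2⟩

end Pool.Agent.MP_19ffc6_ag.Res.P
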