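import Pool.Agent.MP_19ffc6_ag.Res.SSpec
import Pool.Agent.Lib.helper72.RM.M23

/-! PROJECT SHARP, module ALB: the Albanese algorithm with a stable linear system. -/

namespace Pool.Agent.R72.Res.SH

open Pool.Agent.R72.Res.PA Pool.Agent.R72.Res.PA.Num Pool.Agent.R72.Res.PA.St
  Pool.Agent.R72.Res.PA.Orb Submodule Filter Module

variable {k K : Type} [Field k] [Field K] [Algebra k K] {m : ℕ}

namespace alb

variable {d : Fin (m + 1) → Derivation k K K} {S : Finset K} {V T : Submodule k K} {σ : K}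
  {A : ℕ} {R : ℝ}

/-- The intersection of `V` with all its bad hyperplanes. -/
def cut (d : Fin (m + 1) → Derivation k K K) (S : Finset K) (A : ℕ) (R : ℝ) (V : Submodule k K) :
    Submodule k K :=
  V ⊓ ⨅ z : {z : K × Submodule k K // BaS d S A R V z.1 z.2}, pr k z.1.1 * z.1.2

theorem cut_le (hb : BaS d S A R V σ T) : cut d S A R V ≤ pr k σ * T :=
  inf_le_right.trans (iInf_le (fun z : {z : K × Submodule k K // BaS d S A R V z.1 z.2} =>
    pr k z.1.1 * z.1.2) ⟨(σ, T), hb⟩)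

theorem mem_cut {x : K} : x ∈ cut d S A R V ↔ x ∈ V ∧ ∀ σ T, BaS d S A R V σ T → x ∈ pr k σ * T :=
  ⟨fun h => ⟨h.1, fun _ _ hb => cut_le hb h⟩, fun h => ⟨h.1, (mem_iInf _).2 fun z => h.2 _ _ z.2⟩⟩

theorem gas_zero : GaS d S A V V 0 :=
  ⟨1, one_eq_span (R := k) (A := K) ▸ fg_span_singleton 1, one_le.1 le_rfl, fun _ _ _ =>
    ⟨∅, by simp, Eventually.of_forall fun L => by simp⟩⟩

/-- The Albanese algorithm, removing all bad points at each step. -/
theorem alb_cut (hs : StepS k K m) (hp : PotS k K m) (St : Submodule k K → Prop)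
    {V₀ : Submodule k K} {ρ : ℝ} (hA : 0 < A) (hR : 0 < R) (hV₀ : V₀.FG)
    (hP : PoS d S A V₀ (R * ρ))
    (hW : ∀ V ≤ V₀, (finrank k V₀ : ℝ) ≤ finrank k V + ρ + 1 → WW d V ≠ ⊥) (h0 : St V₀)
    (hSt : ∀ V, St V → St (cut d S A R V)) : ∃ V, St V ∧ AlbS d S A R V := by
  have bd : ∀ {V : Submodule k K} {c : ℕ}, PoS d S A V (R * ρ - c * R) → (c : ℝ) ≤ ρ :=
    fun h => le_of_mul_le_mul_left (by linarith [hp.nonneg _ _ _ _ _ h]) hR
  have inner : ∀ V ≤ V₀, ∀ c : ℕ, PoS d S A V (R * ρ - c * R) →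
      ∀ (n : ℕ) (W : Submodule k K) (j : ℕ),
      finrank k W = n → cut d S A R V ≤ W → W ≤ V → GaS d S A V W (j * R) →
      finrank k V₀ ≤ finrank k W + (c + j) → PoS d S A W (R * ρ - (c + j : ℕ) * R) →
      ∃ c' : ℕ, finrank k V₀ ≤ finrank k (cut d S A R V) + c' ∧
        PoS d S A (cut d S A R V) (R * ρ - c' * R) := by
    intro V hV c hc n
    induction n using Nat.strong_induction_on with
    | _ n ih =>
    intro W j e h1 h2 h3 h4 h5
    by_cases hW1 : W ≤ cut d S A R V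
    · rw [le_antisymm h1 hW1]; exact ⟨_, h4, h5⟩
    obtain ⟨σ, T, hb, h6⟩ : ∃ σ T, BaS d S A R V σ T ∧ ¬ W ≤ pr k σ * T := by
      by_contra hn
      exact hW1 (le_inf h2 (le_iInf fun z => not_not.1 fun h => hn ⟨_, _, z.2, h⟩))
    have hf := fg_of_le hV₀ hV
    have a1 := finrank_inf_hyp hf hb.1 h2
    have a2 := hs d S A R _ V W T σ hf hb h2 h6 h3
    have a3 : W ⊓ pr k σ * T ≤ V := inf_le_left.trans h2
    have a4 : finrank k V₀ ≤ finrank k (W ⊓ pr k σ * T :) + (c + (j + 1)) := by omega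
    have a5 := hp.drop d S A _ _ V _ hA hf a3 (hW _ (a3.trans hV) (by
      have b1 : (finrank k V₀ : ℝ) ≤ finrank k (W ⊓ pr k σ * T :) + (c + (j + 1)) := by
        exact_mod_cast a4
      have b2 := bd h5
      push_cast at b2
      linarith)) a2 hc
    have : Module.Finite k W := Module.Finite.iff_fg.2 (fg_of_le hf h2)
    refine ih _ (e ▸ finrank_lt_finrank_of_lt (inf_lt_left.2 h6)) _ (j + 1) rfl
      (le_inf h1 (cut_le hb)) a3 (by rwa [Nat.cast_succ, add_mul, one_mul]) a4 ?_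
    convert a5 using 1
    push_cast; ring
  suffices H : ∀ (n : ℕ) (V : Submodule k K) (c : ℕ), finrank k V = n → V ≤ V₀ → St V →
      finrank k V₀ ≤ finrank k V + c → PoS d S A V (R * ρ - c * R) →
      ∃ V, St V ∧ AlbS d S A R V from H _ V₀ 0 rfl le_rfl h0 le_rfl (by simpa using hP)
  intro n
  induction n using Nat.strong_induction_on with
  | _ n ih =>
  intro V c e h1 h2 h3 h4
  have hf := fg_of_le hV₀ h1
  by_cases hg : ∀ σ T, Hyp V σ T → Gs d A R {w | w ∈ DD d S V ∧ w.Min V σ} T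
  · refine ⟨V, h2, hf, hW V h1 ?_, hp.fin _ _ _ _ _ hA hf h4, hg⟩
    have b1 : (finrank k V₀ : ℝ) ≤ finrank k V + c := by exact_mod_cast h3
    linarith [bd h4]
  simp only [not_forall] at hg
  obtain ⟨σ, T, hH, hb⟩ := hg
  obtain ⟨c', a1, a2⟩ := inner V h1 c h4 _ V 0 rfl inf_le_left le_rfl
    (by simpa using gas_zero) h3 h4
  have : Module.Finite k V := Module.Finite.iff_fg.2 hf
  refine ih _ (e ▸ finrank_lt_finrank_of_lt (lt_of_le_of_ne inf_le_left fun h => ?_)) _ c' rfl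
    (inf_le_left.trans h1) (hSt V h2) a1 a2
  have a3 : cut d S A R V ≤ pr k σ * T := cut_le ⟨hH, hb⟩
  exact hH.one (div_self hH.ne ▸ div_mem_of_pr hH.ne (a3 (h.ge (hyp_mem hH))))

variable {γ : Tw k K}

open Classical in
theorem fs_cm (hc : γ.Com d) (T MM : Submodule k K) (s : Finset (DV k K)) (L : ℕ) :
    FS d A (γ.cm T) (γ.cm MM) (s.image γ.dv) L = FS d A T MM s L := by
  simp only [FS, bd, lam, Finset.sum_image (Function.LeftInverse.injective γ.symm_dv).injOn,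
    Tw.dv_fil, ← hc.cm_JJ, ← Tw.cm_Mb, ← Tw.cm_alg, ← Tw.cm_pow, ← Tw.cm_mul, ← Tw.cm_sup,
    Tw.cod_cm]

theorem bad_cm (hc : γ.Com d) (hS : ∀ r ∈ S, γ.g r = r) (h : BaS d S A R V (γ.g σ) T) :
    BaS d S A R (γ.cm V) σ (γ.cm T) := by
  classical
  refine ⟨Tw.hyp_cm h.1, fun e => h.2 fun E h1 h2 => ?_⟩
  obtain ⟨M, h3, h4, h5⟩ := e (γ.cm E) (γ.cm_fg h1) (by rwa [Tw.mem_cm, map_one])
  refine ⟨γ.symm.cm M, γ.symm.cm_fg h3, by rwa [Tw.mem_cm, map_one], fun s hs ε hε => ?_⟩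
  have := h5 (s.image γ.dv) (fun w hw => by
    obtain ⟨v, hv, rfl⟩ := Finset.mem_image.1 hw
    exact ⟨hc.dd hS (hs hv).1, γ.dv_min.2 (hs hv).2⟩) ε hε
  rw [← γ.cm_symm M, ← Tw.cm_mul] at this
  simpa only [fs_cm hc] using this

theorem cut_cm (hc : γ.Com d) (hS : ∀ r ∈ S, γ.g r = r) (V : Submodule k K) :
    γ.cm (cut d S A R V) = cut d S A R (γ.cm V) := by
  have h : ∀ γ : Tw k K, γ.Com d → (∀ r ∈ S, γ.g r = r) → ∀ V : Submodule k K,
      cut d S A R (γ.cm V) ≤ γ.cm (cut d S A R V) := by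
    intro γ hc hS V x hx
    refine mem_cut.2 ⟨hx.1, fun σ T hb => ?_⟩
    obtain ⟨σ, rfl⟩ := γ.g.surjective σ
    have := cut_le (bad_cm hc hS hb) hx
    rwa [← γ.cm_pr σ, ← Tw.cm_mul] at this
  refine le_antisymm ?_ (h γ hc hS V)
  have := γ.cm_mono (h γ.symm hc.symm (fun r hr => γ.g.symm_apply_eq.2 (hS r hr).symm) (γ.cm V))
  rwa [Tw.cm_symm, Tw.symm_cm] at this

theorem bx_cm {ι : Type} {t : Fin (m + 1) → K} {η : ι → K} (ht : ∀ i, γ.g (t i) = t i)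
    (hη : ∀ l, γ.g (η l) = η l) (N : ℕ) : γ.cm (Sta.bx k t η N) = Sta.bx k t η N := by
  have a1 : γ.cm (Sta.cube k t) = Sta.cube k t := by
    refine Finset.prod_induction _ (fun P => γ.cm P = P) (fun a b ha hb => ?_) γ.cm_one
      fun i _ => ?_
    · rw [Tw.cm_mul, ha, hb]
    · rw [Tw.cm_sup, Tw.cm_one, ← ht i, Tw.cm_pr, ht i]
  rw [Sta.bx, Tw.cm_mul, Tw.cm_pow, a1, Tw.cm_span]
  congr 2
  ext x
  exact exists_congr fun l => ⟨fun e => γ.g.injective ((hη l).trans e), fun e => by rw [← e, hη l]⟩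

end alb

/-- Module ALB. -/
theorem albPS (h1 : StartS k K m) (h2 : StepS k K m) (h3 : PotS k K m) : AlbPS k K m := by
  intro K₀ t d S A r R hG hF ht hS hA hr hR
  obtain ⟨n, η, a1, a2, a3, a4⟩ := Tw.exists_basis (Γ := P.tws k K₀) hF
    (fun i => P.mem_fix_tws (ht i)) (P.span_fix_tws hG)
  obtain ⟨N, ρ, b1, b2⟩ := h1 _ t d η S A r R hF inferInstance a2 a3 a4 hA hr hR
  obtain ⟨V, c1, c2⟩ := alb.alb_cut h2 h3 (fun V => ∀ γ ∈ P.tws k K₀, γ.cm V = V) hA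
    (pos_of_mul_pos_left (lt_trans (by positivity) hR) r.cast_nonneg) (Sta.bx_fg N) b1 b2
    (fun γ hγ => alb.bx_cm (fun i => hγ _ (ht i)) (fun l => a1 l γ hγ) N) fun V h γ hγ => by
      rw [alb.cut_cm (Tw.com_of_fr hF fun i => hγ _ (ht i)) fun r hr => hγ _ (hS r hr), h γ hγ]
  exact ⟨V, P.stb_of_tws c1, c2⟩

end Pool.Agent.R72.Res.SH
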