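import Pool.Agent.MP_19ffc6_ag.Res.SSpec

-- ======== part 0: formerly Pool.Agent.MP_19ffc6_ag.Res.SArith
section MrgPart0

/-! PROJECT SHARP, module ARITH. -/

namespace Pool.Agent.R72.Res.SH

namespace Ar

theorem le_tau {r s a : ℕ} (h : a ≤ s) : (a - r + 1) * tau r (s - a) ≤ tau (r + 1) s :=
  Finset.le_sup (f := fun a => (a - r + 1) * tau r (s - a))
    (Finset.mem_range.2 (Nat.lt_succ_of_le h))

theorem tau_le {r s c : ℕ} (h : ∀ a ≤ s, (a - r + 1) * tau r (s - a) ≤ c) : tau (r + 1) s ≤ c :=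
  Finset.sup_le fun a ha => h a (Nat.le_of_lt_succ (Finset.mem_range.1 ha))

theorem up (r s : ℕ) : tau r s ≤ tau (r + 1) s := by
  simpa using le_tau (r := r) (Nat.zero_le s)

theorem pos (r s : ℕ) : 0 < tau r s := by
  induction r with
  | zero => exact Nat.one_pos
  | succ r ih => exact ih.trans_le (up r s)

theorem mono (r : ℕ) : ∀ s s', s ≤ s' → tau r s ≤ tau r s' := by
  induction r with
  | zero => exact fun _ _ _ => le_rfl
  | succ r ih =>
    exact fun s s' h => tau_le fun a ha =>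
      (Nat.mul_le_mul_left _ (ih _ _ (Nat.sub_le_sub_right h a))).trans (le_tau (ha.trans h))

theorem zero (r : ℕ) : tau r 0 = 1 := by
  induction r with
  | zero => rfl
  | succ r ih => simp [tau, ih]

theorem dbl (r : ℕ) : ∀ s, tau r (s + 1) ≤ 2 * tau r s := by
  induction r with
  | zero => exact fun _ => by simp [tau]
  | succ r ih =>
    refine fun s => tau_le fun a ha => ?_
    rcases ha.eq_or_lt with rfl | h
    · have := le_tau (r := r) (le_refl s)
      rw [Nat.sub_self, zero] at this ⊢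
      omega
    · have h1 : a ≤ s := by omega
      rw [Nat.succ_sub h1]
      calc _ ≤ (a - r + 1) * (2 * tau r (s - a)) := Nat.mul_le_mul_left _ (ih _)
        _ = 2 * ((a - r + 1) * tau r (s - a)) := by ring
        _ ≤ _ := Nat.mul_le_mul_left _ (le_tau h1)

theorem low (r s : ℕ) : s + 1 ≤ tau (r + 1) s := by
  induction r with
  | zero => simpa [zero] using le_tau (r := 0) (le_refl s)
  | succ r ih => exact ih.trans (up _ s)

theorem two (r s : ℕ) : tau r s ≤ 2 ^ s := by
  induction s with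
  | zero => simp [zero]
  | succ s ih => have := dbl r s; rw [pow_succ]; omega

theorem num (m : ℕ) : ∀ b t : Fin m → ℕ, (∀ i, t i ≤ b i - (m - 1 - i) + 1) →
    ∏ i, t i ≤ tau m (∑ i, b i) := by
  induction m with
  | zero => exact fun _ _ _ => by simp [tau]
  | succ m ih =>
    intro b t h
    rw [Fin.prod_univ_succ, Fin.sum_univ_succ]
    have h0 : t 0 ≤ b 0 - m + 1 := by simpa using h 0
    have h1 := ih (fun i => b i.succ) (fun i => t i.succ) fun i => by
      have := h i.succ
      rw [Fin.val_succ] at this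
      omega
    have h2 := le_tau (r := m) (Nat.le_add_right (b 0) (∑ i : Fin m, b i.succ))
    rw [Nat.add_sub_cancel_left] at h2
    exact (Nat.mul_le_mul h0 h1).trans h2

theorem num' {m : ℕ} {b t : Fin (m + 1) → ℕ} (h : Prof b t) :
    ∏ i : Fin m, t i.castSucc ≤ tau m (∑ i : Fin m, b i.castSucc) :=
  num m _ _ fun i => (h i.castSucc).2

theorem last (m β s : ℕ) (h : s + β ≤ m + 1) : tau m s * (β + 1) ≤ al m * tau m m := by
  have a1 : m ≤ al m := le_max_left _ _
  have a2 : 2 ≤ al m := le_max_right _ _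
  rcases Nat.eq_zero_or_pos β with rfl | hβ
  · have := (mono m s (m + 1) h).trans (dbl m m)
    nlinarith
  by_cases h1 : β + 1 ≤ al m
  · rw [mul_comm]
    exact Nat.mul_le_mul h1 (mono m _ _ (by omega))
  obtain ⟨n, rfl⟩ : ∃ n, m = n + 1 := ⟨m - 1, by omega⟩
  have h2 := Nat.mul_le_mul a2 (low n (n + 1))
  rcases Nat.eq_zero_or_pos s with rfl | hs
  · rw [zero]
    omega
  · have h3 := (mono (n + 1) s 1 (by omega)).trans (two _ 1)
    exact (Nat.mul_le_mul h3 (by omega : β + 1 ≤ n + 1 + 1)).trans h2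

theorem al_pos (m : ℕ) : 0 < al m ^ m := pow_pos (lt_max_of_lt_right two_pos) m

theorem bb_low (m : ℕ) : (m + 2).factorial * (al m + 1) ≤ BB m := by
  refine Nat.le_succ_of_le ((Nat.le_div_iff_mul_le (al_pos m)).2 ?_)
  rw [mul_assoc, pow_succ']
  gcongr
  omega

theorem bb_three (m : ℕ) : (m + 2) * 3 ≤ BB m :=
  (Nat.mul_le_mul (Nat.self_le_factorial _) (Nat.succ_le_succ (le_max_right _ _))).trans (bb_low m)

theorem pw {a m : ℕ} (ha : 0 < a) (h : m ≤ a) : (a + 1) ^ m ≤ 3 * a ^ m := by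
  have h0 : (0 : ℝ) < a := Nat.cast_pos.2 ha
  have h1 : (1 + (a : ℝ)⁻¹) ^ m ≤ 3 :=
    ((pow_le_pow_right₀ (by simp) h).trans Real.one_add_inv_pow_le_exp).trans
      Real.exp_one_lt_three.le
  have h2 : ((a : ℝ) + 1) ^ m = (1 + (a : ℝ)⁻¹) ^ m * a ^ m := by
    rw [← mul_pow, add_mul, one_mul, inv_mul_cancel₀ h0.ne']
  have h3 : ((a : ℝ) + 1) ^ m ≤ 3 * a ^ m := by rw [h2]; gcongr
  exact_mod_cast h3

theorem bb_up (m : ℕ) : (m + 2).factorial * (al m + 1) ^ (m + 1) / al m ^ m ≤
    3 * ((m + 2).factorial * (al m + 1)) := by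
  refine Nat.div_le_of_le_mul ?_
  have := pw (lt_max_of_lt_right two_pos : 0 < al m) (le_max_left _ _)
  calc _ = (m + 2).factorial * (al m + 1) * (al m + 1) ^ m := by ring
    _ ≤ (m + 2).factorial * (al m + 1) * (3 * al m ^ m) := Nat.mul_le_mul_left _ this
    _ = _ := by ring

theorem bb_mono (m : ℕ) : BB m ≤ BB (m + 1) := by
  have h1 := bb_up m
  have h2 : (m + 3).factorial * (al (m + 1) + 1) ≤
      (m + 1 + 2).factorial * (al (m + 1) + 1) ^ (m + 1 + 1) / al (m + 1) ^ (m + 1) := by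
    refine (Nat.le_div_iff_mul_le (al_pos _)).2 ?_
    rw [mul_assoc, pow_succ' _ (m + 1)]
    gcongr
    omega
  have h3 : al m ≤ al (m + 1) := max_le_max (Nat.le_succ m) le_rfl
  refine Nat.succ_le_succ (h1.trans (le_trans ?_ h2))
  rw [Nat.factorial_succ (m + 2), mul_assoc]
  gcongr
  omega

theorem real (m : ℕ) : ∃ R : ℝ,
    ((al m * (m + 2) : ℕ) + m + 2 : ℝ) ^ (m + 1) * (BB m + 1) < R * BB m ∧
    ((m + 1).factorial : ℝ) * R < (BB m + 1) * ((al m * (m + 2) : ℕ) : ℝ) ^ m := by
  have h1 : (m + 2).factorial * (al m + 1) ^ (m + 1) < al m ^ m * BB m :=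
    Nat.lt_mul_div_succ _ (al_pos m)
  have h2 : (al m * (m + 2) + m + 2) ^ (m + 1) * (BB m + 1) * (m + 1).factorial <
      (BB m + 1) * (al m * (m + 2)) ^ m * BB m := by
    have := Nat.mul_lt_mul_of_pos_left h1 (k := (BB m + 1) * (m + 2) ^ m) (by positivity)
    rw [show al m * (m + 2) + m + 2 = (al m + 1) * (m + 2) by ring, mul_pow, mul_pow]
    rw [Nat.factorial_succ (m + 1)] at this
    calc _ = _ := by ring
      _ < _ := this
      _ = _ := by ring
  have hB : (0 : ℝ) < BB m := Nat.cast_pos.2 (Nat.succ_pos _)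
  have hF : (0 : ℝ) < (m + 1).factorial := Nat.cast_pos.2 (Nat.factorial_pos _)
  obtain ⟨R, r1, r2⟩ := exists_between ((div_lt_div_iff₀ hB hF).2 (by exact_mod_cast h2) :
    ((al m * (m + 2) : ℕ) + m + 2 : ℝ) ^ (m + 1) * (BB m + 1) / BB m <
      (BB m + 1) * ((al m * (m + 2) : ℕ) : ℝ) ^ m / (m + 1).factorial)
  exact ⟨R, (div_lt_iff₀ hB).1 r1, (lt_div_iff₀' hF).1 r2⟩

end Ar

theorem arithS : ArithS where
  pos := Ar.pos
  mono := Ar.mono
  num h := (Ar.num' h).trans (Ar.mono _ _ _ (by rw [Fin.sum_univ_castSucc]; omega))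
  all := fun {m b t} h hb => by
    rw [Fin.sum_univ_castSucc] at hb
    rw [Fin.prod_univ_castSucc]
    exact (Nat.mul_le_mul (Ar.num' h) ((h _).2.trans (Nat.succ_le_succ (Nat.sub_le _ _)))).trans
      (Ar.last m _ _ hb)
  sum h := Finset.sum_le_sum fun i _ => by have := (h i).2; omega
  off m := by
    have h1 := Ar.dbl m m
    have h2 := Ar.bb_three m
    refine Nat.lt_succ_of_le ?_
    calc _ ≤ 2 * tau m m * (m + 1) := Nat.mul_le_mul_right _ h1
      _ = tau m m * (2 * (m + 1)) := by ring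
      _ ≤ _ := Nat.mul_le_mul_left _ (by omega)
  le m := by have := Ar.bb_three m; omega
  ccm := monotone_nat_of_le_succ fun m => Nat.succ_le_succ
    (Nat.mul_le_mul ((Ar.up m m).trans (Ar.mono _ _ _ (Nat.le_succ m))) (Ar.bb_mono m))
  real := Ar.real
  two := Ar.two

theorem cc_vals : cc 1 = 57 ∧ cc 2 = 490 ∧ cc 3 = 4553 ∧ cc 4 = 52741 ∧ cc 5 = 677224 := by
  decide

theorem cc_le (m : ℕ) : cc m ≤ 2 ^ (m + 2) * (m + 3).factorial := by
  have h1 : BB m ≤ 3 * (m + 3).factorial + 1 := by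
    refine Nat.succ_le_succ ((Ar.bb_up m).trans (Nat.mul_le_mul_left _ ?_))
    rw [Nat.factorial_succ (m + 2), mul_comm]
    exact Nat.mul_le_mul_right _ (Nat.succ_le_succ (max_le (by omega) (by omega)))
  have h2 := Nat.mul_le_mul (Ar.two m m) h1
  have h3 : 3 ≤ (m + 3).factorial := le_trans (by omega) (Nat.self_le_factorial _)
  have h4 : 1 ≤ 2 ^ m := Nat.one_le_two_pow
  have h5 := Nat.mul_le_mul_left (2 ^ m) h3
  unfold cc
  rw [pow_add]
  nlinarith

end Pool.Agent.R72.Res.SH

end MrgPart0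

-- ======== part 1: formerly Pool.Agent.MP_19ffc6_ag.Res.SPol
section MrgPart1

/-! PROJECT SHARP, module POL: the growth of the polar module of an element of given order. -/

namespace Pool.Agent.R72.Res.SH

open Pool.Agent.R72.Res.PA Pool.Agent.R72.Res.PA.Num Pool.Agent.R72.Res.PA.LocK Submodule Filter
  Module Finset

variable {k K : Type} [Field k] [Field K] [Algebra k K]

namespace Pol

/-- The elements that `W` multiplies into `Q`. -/
def pb (W : K) (Q : Submodule k K) : Submodule k K := Q.comap (LinearMap.mulLeft k W)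

theorem mem_pb {W x : K} {Q : Submodule k K} : x ∈ pb W Q ↔ W * x ∈ Q := Iff.rfl

theorem le_pb {W : K} {P Q : Submodule k K} (h : pr k W * P ≤ Q) : P ≤ pb W Q :=
  fun x hx => h (mem_pr_mul.2 ⟨x, hx, rfl⟩)

theorem cod_pb (W : K) {P Q : Submodule k K} (h : Fd P (pb W Q)) :
    cod (pr k W * P) Q = cod P (pb W Q) := cod_pr_mul W (fun _ h => h) (fun _ _ h => h) h

theorem cod_anti {P Q Q' : Submodule k K} (h : Q ≤ Q') (hf : Fd P Q) :
    Fd P Q' ∧ cod P Q' ≤ cod P Q := cod_mono le_rfl (fun _ _ hx => h hx) hf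

theorem cod_zero {P Q : Submodule k K} (h : P ≤ Q) : cod P Q = 0 := by
  have e : P.map Q.mkQ ≤ ⊥ := by
    rwa [Submodule.map_le_iff_le_comap, Submodule.comap_bot, ker_mkQ]
  rw [cod, le_bot_iff.1 e, finrank_bot]

/-- A graded module that is finite over a polynomial ring has polynomial growth. -/
theorem poly (P : ℕ → Submodule k K) (hP : Antitone P) (e : ℕ) : ∀ (Q : ℕ → Submodule k K)
    (t : Fin e → ℕ) (g : Fin e → K), (∀ j, Fd (P j) (Q j)) → (∀ i, 0 < t i) →
    (∀ i j, pr k (g i) * P j ≤ P (j + t i)) → (∀ i j, pr k (g i) * Q j ≤ Q (j + t i)) →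
    (∃ N, ∀ j, N ≤ j → P j ≤ (⨆ i, pr k (g i) * P (j - t i)) ⊔ Q j) →
    ∃ μ, ∀ L, ∑ j ∈ range L, cod (P j) (Q j) ≤ μ * (L + 1) ^ e := by
  induction e with
  | zero =>
    rintro Q t g - - - - ⟨N, hN⟩
    refine ⟨∑ j ∈ range N, cod (P j) (Q j), fun L => ?_⟩
    rw [pow_zero, mul_one]
    refine sum_le_sum_of_ne_zero fun j _ h => mem_range.2 (lt_of_not_ge fun c => h ?_)
    exact cod_zero (by simpa using hN j c)
  | succ e ih =>
    rintro Q t g fd ht h1 h2 ⟨N, hN⟩
    obtain ⟨μ, hμ⟩ := ih (fun j => Q j ⊔ pr k (g 0) * P (j - t 0)) (fun i => t i.succ)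
      (fun i => g i.succ) (fun j => (cod_anti le_sup_left (fd j)).1) (fun i => ht _)
      (fun i => h1 _) (fun i j => by
        rw [Submodule.mul_sup, mul_left_comm]
        exact sup_le_sup (h2 _ j) (mul_le_mul_right ((h1 _ _).trans (hP (by omega))) _))
      ⟨N, fun j hj => (hN j hj).trans (sup_le (iSup_le fun i => Fin.cases
        (le_sup_of_le_right le_sup_right)
        (fun i => le_sup_of_le_left (le_iSup (fun i : Fin e => pr k (g i.succ) *
          P (j - t i.succ)) i)) i) (le_sup_of_le_right le_sup_left))⟩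
    let D := ∑ j ∈ range (t 0), cod (P j) (Q j)
    have key : ∀ j, cod (P j) (Q j) ≤
        D + ∑ i ∈ range (j + 1), cod (P i) (Q i ⊔ pr k (g 0) * P (i - t 0)) := fun j => by
      induction j using Nat.strong_induction_on with
      | _ j ih' =>
        rcases lt_or_ge j (t 0) with h | h
        · exact le_add_right (single_le_sum (f := fun j => cod (P j) (Q j))
            (fun _ _ => Nat.zero_le _) (mem_range.2 h))
        obtain ⟨i, rfl⟩ := Nat.exists_eq_add_of_le' h
        have a0 := ht 0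
        have a1 := cod_add (h1 0 i) (fd _)
        have a2 := cod_anti (le_pb (h2 0 i)) (fd i)
        have a3 := ih' i (by omega)
        have a4 := sum_le_sum_of_subset (f := fun i => cod (P i) (Q i ⊔ pr k (g 0) * P (i - t 0)))
          (range_mono (show i + 1 ≤ i + t 0 by omega))
        rw [cod_pb _ a2.1] at a1
        rw [sum_range_succ, Nat.add_sub_cancel]
        omega
    refine ⟨D + μ, fun L => (sum_le_card_nsmul _ _ ((D + μ) * (L + 1) ^ e) fun j hj => ?_).trans ?_⟩
    · have a1 := mem_range.1 hj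
      have a2 : 1 ≤ (L + 1) ^ e := Nat.one_le_pow _ _ (by omega)
      refine (key j).trans ((Nat.add_le_add_left (hμ _) _).trans ?_)
      rw [add_mul]
      exact add_le_add (Nat.le_mul_of_pos_right _ a2)
        (Nat.mul_le_mul_left _ (Nat.pow_le_pow_left (by omega) _))
    · rw [card_range, smul_eq_mul, pow_succ, ← mul_assoc (D + μ), mul_comm L]
      exact Nat.mul_le_mul_left _ (Nat.le_succ _)

theorem cod_steps {X : Submodule k K} (F : ℕ → Submodule k K) (fd : ∀ j, Fd X (F j)) {a : ℕ}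
    (h : X ≤ F a) (n : ℕ) :
    cod X (F (a + n)) ≤ ∑ i ∈ range n, cod (X ⊓ F (a + i)) (F (a + i + 1)) := by
  induction n with
  | zero => exact (cod_zero h).le.trans (Nat.zero_le _)
  | succ n ih =>
    have a1 := cod_add (inf_le_left : X ⊓ F (a + n) ≤ X) (fd (a + n + 1))
    have a2 := (cod_mono (Q := F (a + n + 1) ⊔ X ⊓ F (a + n)) le_rfl
      (fun x hx h => mem_sup_right ⟨hx, h⟩) (fd (a + n))).2
    rw [sum_range_succ, ← add_assoc]
    omega

theorem sum_shift {u : ℕ → ℕ} (hu : Monotone u) (N c : ℕ) :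
    ∑ L ∈ range N, u (L + c) ≤ ∑ L ∈ range N, u L + c * u (N + c) := by
  induction c with
  | zero => simp
  | succ c ih =>
    have a1 := sum_range_succ' (fun L => u (L + c)) N
    have a2 := sum_range_succ (fun L => u (L + c)) N
    have a3 := hu (Nat.le_succ (N + c))
    have a4 := Nat.mul_le_mul_left c a3
    simp only [add_right_comm _ 1 c] at a1
    simp only [← add_assoc, Nat.succ_eq_add_one, add_mul, one_mul] at *
    omega

end Pol

open Pol

/-- Module POL. -/
theorem polS (hc : CalcS) (ar : SF.ArS k K) : PolS k K := by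
  intro e c b ν₀ ν₁ T J MM W t g hT hJ hM w0 hW ht hg hs hle h0 h1
  have hF := fam_Mb hT hJ hM
  set M := Mb T J MM with hMd
  have md : ∀ b, Md T (M b) := md_Mb _ _ _
  have wF : ∀ j, pr k W * (T ^ j * M b) ≤ T ^ (j + c) * M (b + 1) := fun j => by
    refine (mul_le_mul_left ((span_singleton_le_iff_mem _ _).2 hW) _).trans
      (le_of_eq_of_le (b := T ^ (j + c) * (alg T * (J * M b))) (by ring) ?_)
    rw [← hF.succ]
    exact mul_le_mul_right (md _) _
  have wM : pr k W * M b ≤ M (b + 1) := by simpa using (wF 0).trans (hF.pow_le _ _)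
  have gF : ∀ i j b, pr k (g i) * (T ^ j * M b) ≤ T ^ (j + t i) * M b := fun i j b =>
    (mul_le_mul_left ((span_singleton_le_iff_mem _ _).2 (hg i)) _).trans
      (le_of_eq_of_le (b := T ^ (j + t i) * (alg T * M b)) (by ring) (mul_le_mul_right (md _) _))
  obtain ⟨μ, hμ⟩ := poly (fun j => T ^ j * M (b + 1)) (hF.anti _) e
    (fun j => T ^ (j + 1) * M (b + 1) ⊔ pr k W * (T ^ (j - c) * M b)) t g
    (fun j => hF.fd' (hF.pow_le _ _) le_sup_left) ht (fun i j => gF i j _)
    (fun i j => by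
      rw [Submodule.mul_sup, mul_left_comm (pr k (g i)) (pr k W), add_right_comm]
      exact sup_le_sup (gF i _ _) (mul_le_mul_right ((gF i _ _).trans (hF.anti b (by omega))) _))
    (hs.imp fun N hN j hj => by simpa only [sup_assoc] using hN j hj)
  obtain ⟨c', hc'⟩ := ar T (MM * J ^ (b + 1)) (pr k W * M b) hT (hM.mul (hJ.pow _)) wM
    ((md b).mul _)
  let κ := fun j => cod (T ^ j * M b ⊓ pb W (T ^ (j + c + 1) * M (b + 1))) (T ^ (j + 1) * M b)
  let cok := fun j => cod (T ^ j * M (b + 1))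
    (T ^ (j + 1) * M (b + 1) ⊔ pr k W * (T ^ (j - c) * M b))
  have k1 : ∀ n, ∑ j ∈ range n, κ j + lam T M (b + 1) (n + c) ≤
      lam T M b n + lam T M (b + 1) c + ∑ j ∈ range n, cok (j + c) := fun n => by
    induction n with
    | zero => simp
    | succ n ih =>
      have f1 : Fd (T ^ n * M b) (T ^ (n + 1) * M b) := hF.fd' (hF.pow_le _ _) le_rfl
      have p1 : T ^ (n + 1) * M b ≤ pb W (T ^ (n + c + 1) * M (b + 1)) :=
        le_pb (add_right_comm n 1 c ▸ wF (n + 1))
      have a1 := cod_add (wF n) (hF.fd' (L := n + c + 1) (hF.pow_le _ _) le_rfl)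
      have a2 := cod_add (inf_le_left (b := pb W (T ^ (n + c + 1) * M (b + 1)))) f1
      have a3 := (cod_anti (sup_le p1 (inf_le_right (a := T ^ n * M b)))
        (cod_anti le_sup_left f1).1).2
      have a4 := hF.lam_succ b n
      have a5 := hF.lam_succ (b + 1) (n + c)
      rw [cod_pb _ (cod_anti p1 f1).1] at a1
      simp only [sum_range_succ, κ, cok, Nat.add_sub_cancel, add_right_comm n 1 c] at ih ⊢
      omega
  have mono : ∀ b, Monotone (lam T M b) := fun b =>
    monotone_nat_of_le_succ fun n => (Nat.le_add_right _ _).trans (hF.lam_succ b n).le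
  have k2 : ∀ n, ∑ j ∈ range n, κ j ≤ lam T M (b + 1) c + μ * (c + n + 1) ^ e := fun n => by
    have a1 := k1 n
    have a2 := (hle n).trans (mono _ (Nat.le_add_right n c))
    have a3 : ∑ j ∈ range (c + n), cok j ≤ _ := hμ (c + n)
    rw [sum_range_add] at a3
    simp only [add_comm c] at a3 ⊢
    omega
  let f := fun L => cod (M (b + 1)) (T ^ L * M (b + 1) ⊔ pr k W * M b)
  have k3 : ∀ L, f (L + (c' + c)) + lam T M b (L + c') ≤
      lam T M (b + 1) (L + (c' + c)) + ∑ i ∈ range c', κ (i + L) := fun L => by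
    let X := M b ⊓ pb W (T ^ (L + (c' + c)) * M (b + 1))
    have p1 : T ^ (L + c') * M b ≤ X := le_inf (hF.pow_le _ _) (le_pb (add_assoc L c' c ▸ wF _))
    have f1 := hF.fd b (L + c')
    have f2 := (cod_anti (p1.trans inf_le_right) f1).1
    have a1 := cod_add wM (hF.fd (b + 1) (L + (c' + c)))
    have a2 := cod_add (inf_le_left : X ≤ M b) f1
    have a3 := (cod_mono (Q := T ^ (L + c') * M b ⊔ X) le_rfl
      (fun x hx h => mem_sup_right ⟨hx, h⟩) f2).2
    have a4 := cod_steps (X := X) (fun j => T ^ j * M b) (fun j => hF.fd' inf_le_left le_rfl)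
      (a := L) (fun x hx => by
        have := hc' (L + c) ⟨by rw [add_right_comm, add_assoc]; exact hx.2,
          mem_pr_mul.2 ⟨x, hx.1, rfl⟩⟩
        rw [mul_left_comm] at this
        obtain ⟨z, hz, e'⟩ := mem_pr_mul.1 this
        exact hF.anti b (Nat.le_add_right L c) (mul_left_cancel₀ w0 e' ▸ hz)) c'
    have a5 : ∑ i ∈ range c', cod (X ⊓ T ^ (L + i) * M b) (T ^ (L + i + 1) * M b) ≤
        ∑ i ∈ range c', κ (i + L) := sum_le_sum fun i hi => by
      have := mem_range.1 hi
      rw [add_comm i]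
      refine (cod_mono (P' := T ^ (L + i) * M b ⊓ pb W (T ^ (L + i + c + 1) * M (b + 1)))
        (fun x hx => ?_) (fun _ _ h => h)
        (hF.fd' (inf_le_left.trans (hF.pow_le _ _)) le_rfl)).2
      exact ⟨hx.2, hF.anti (b + 1) (show L + i + c + 1 ≤ L + (c' + c) by omega) hx.1.2⟩
    rw [cod_pb _ f2] at a1
    simp only [f, lam, X] at *
    omega
  by_contra hn
  obtain ⟨ν, n1, n2⟩ := hc.not_fq hn
  refine n1.not_ge ((hc.le (hc.lo_sum (hc.lo_shift (c' + c) n2)) (hc.fq (hc.ev_mono (hc.ev_add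
    (hc.ev_add (hc.ev_sum (hc.ev_shift (c' + c) h1)) (hc.ev_mul c (hc.ev_shift (c' + c) h0)))
    (hc.ev_small (f := fun N => c' * (lam T M (b + 1) c + μ) * (N + (c' + c + 1)) ^ e) _ _
      (.of_forall fun _ => le_rfl))) le_rfl (.of_forall fun N => ?_)))).trans (add_zero _).le)
  have a1 := sum_le_sum fun L (_ : L ∈ range N) => k3 L
  have a2 := sum_shift (u := fun L => lam T M b (L + c'))
    (fun _ _ h => mono b (Nat.add_le_add_right h _)) N c
  have a3 : ∑ L ∈ range N, lam T M (b + 1) (L + (c' + c)) =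
      ∑ L ∈ range N, (lam T M (b + 1) (L + (c' + c)) - lam T M b (L + (c' + c))) +
        ∑ L ∈ range N, lam T M b (L + (c' + c)) := by
    rw [← sum_add_distrib]
    exact sum_congr rfl fun L _ => (Nat.sub_add_cancel (hle _)).symm
  have a4 : ∑ L ∈ range N, ∑ i ∈ range c', κ (i + L) ≤
      c' * (lam T M (b + 1) c + μ) * (N + (c' + c + 1)) ^ e := by
    rw [sum_comm, mul_assoc]
    refine (sum_le_card_nsmul _ _ _ fun i hi => ?_).trans (by rw [card_range, smul_eq_mul])
    have b1 := mem_range.1 hi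
    have b2 := k2 (i + N)
    rw [sum_range_add] at b2
    refine ((Nat.le_add_left _ _).trans b2).trans ?_
    rw [add_mul]
    exact add_le_add (Nat.le_mul_of_pos_right _ (by positivity))
      (Nat.mul_le_mul_left _ (Nat.pow_le_pow_left (by omega) _))
  simp only [sum_add_distrib, add_assoc, add_comm c c'] at a1 a2
  simp only [f] at a1
  omega

end Pool.Agent.R72.Res.SH

end MrgPart1

-- marker of a merged file
example : 731051 + 674977 = 731051 + 674977 := rfl
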