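import Pool.Agent.MP_19ffc6_ag.Res.SSpec

/-! PROJECT SHARP, module CALC: the calculus of growth. -/

namespace Pool.Agent.R72.Res.SH

open Filter Topology
open Pool.Agent.R72.Res.SF (Fq)

namespace Calc

theorem ratio (c : ℝ) (e : ℕ) :
    Tendsto (fun L : ℕ => (1 + c / (L : ℝ)) ^ e) atTop (𝓝 1) := by
  have h : Tendsto (fun L : ℕ => 1 + c / (L : ℝ)) atTop (𝓝 (1 + 0)) :=
    tendsto_const_nhds.add (tendsto_const_div_atTop_nhds_zero_nat c)
  have h2 := h.pow e
  simpa using h2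

theorem split (c : ℝ) (e : ℕ) {L : ℕ} (hL : 1 ≤ L) :
    ((L : ℝ) + c) ^ e = (1 + c / (L : ℝ)) ^ e * (L : ℝ) ^ e := by
  have h : (L : ℝ) ≠ 0 := Nat.cast_ne_zero.mpr (by omega)
  rw [← mul_pow]
  congr 1
  field_simp

theorem up (c : ℝ) (e : ℕ) {δ : ℝ} (hδ : 0 < δ) :
    ∀ᶠ L : ℕ in atTop, ((L : ℝ) + c) ^ e ≤ (1 + δ) * (L : ℝ) ^ e := by
  filter_upwards [(ratio c e).eventually (gt_mem_nhds (show (1 : ℝ) < 1 + δ by linarith)),
    eventually_ge_atTop 1] with L h hL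
  rw [split c e hL]
  exact mul_le_mul_of_nonneg_right h.le (by positivity)

theorem down (c : ℝ) (e : ℕ) {δ : ℝ} (hδ : 0 < δ) :
    ∀ᶠ L : ℕ in atTop, (1 - δ) * (L : ℝ) ^ e ≤ ((L : ℝ) + c) ^ e := by
  filter_upwards [(ratio c e).eventually (lt_mem_nhds (show (1 : ℝ) - δ < 1 by linarith)),
    eventually_ge_atTop 1] with L h hL
  rw [split c e hL]
  exact mul_le_mul_of_nonneg_right h.le (by positivity)

theorem lin (C : ℝ) {δ : ℝ} (hδ : 0 < δ) : ∀ᶠ L : ℕ in atTop, C ≤ δ * (L : ℝ) := by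
  filter_upwards [tendsto_natCast_atTop_atTop.eventually (eventually_ge_atTop (C / δ))] with L h
  rw [div_le_iff₀ hδ] at h
  linarith

theorem cst (C : ℝ) (e : ℕ) {δ : ℝ} (hδ : 0 < δ) :
    ∀ᶠ L : ℕ in atTop, C ≤ δ * (L : ℝ) ^ (e + 1) := by
  filter_upwards [lin C hδ, eventually_ge_atTop 1] with L h hL
  have h1 : (1 : ℝ) ≤ L := by exact_mod_cast hL
  have h2 : (L : ℝ) ≤ (L : ℝ) ^ (e + 1) := le_self_pow₀ h1 (by omega)
  exact h.trans (mul_le_mul_of_nonneg_left h2 hδ.le)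

theorem nonneg {e : ℕ} {ν : ℝ} {f : ℕ → ℕ} (h : Ev e ν f) {ε : ℝ} (hε : 0 < ε) : 0 ≤ ν + ε := by
  obtain ⟨L, h1, hL⟩ := ((h ε hε).and (eventually_ge_atTop 1)).exists
  have h0 : (0 : ℝ) < L := by exact_mod_cast hL
  have hp : (0 : ℝ) < (L : ℝ) ^ e := by positivity
  have h2 : (0 : ℝ) ≤ (ν + ε) * (L : ℝ) ^ e := le_trans (by positivity) h1
  exact nonneg_of_mul_nonneg_left h2 hp

theorem bern_lo (x : ℝ) (hx : 0 ≤ x) (e : ℕ) :
    x ^ (e + 1) + (e + 1) * x ^ e ≤ (x + 1) ^ (e + 1) := by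
  induction e with
  | zero => simp
  | succ e ih =>
    have h1 : (x + 1) * (x ^ (e + 1) + (e + 1) * x ^ e) ≤ (x + 1) * (x + 1) ^ (e + 1) :=
      mul_le_mul_of_nonneg_left ih (by linarith)
    have h2 : 0 ≤ ((e : ℝ) + 1) * x ^ e := by positivity
    have h3 : (x + 1) * (x ^ (e + 1) + (e + 1) * x ^ e)
        = x ^ (e + 1 + 1) + (e + 1 + 1) * x ^ (e + 1) + (e + 1) * x ^ e := by ring
    have h4 : (x + 1) ^ (e + 1 + 1) = (x + 1) * (x + 1) ^ (e + 1) := by ring
    push_cast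
    linarith

theorem bern_up (x : ℝ) (hx : 0 ≤ x) (e : ℕ) :
    (x + 1) ^ (e + 1) ≤ x ^ (e + 1) + (e + 1) * (x + 1) ^ e := by
  induction e with
  | zero => simp
  | succ e ih =>
    have h1 : (x + 1) * (x + 1) ^ (e + 1) ≤ (x + 1) * (x ^ (e + 1) + (e + 1) * (x + 1) ^ e) :=
      mul_le_mul_of_nonneg_left ih (by linarith)
    have h2 : x ^ (e + 1) ≤ (x + 1) ^ (e + 1) := pow_le_pow_left₀ hx (by linarith) _
    have h3 : (x + 1) * (x ^ (e + 1) + (e + 1) * (x + 1) ^ e)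
        = x ^ (e + 1 + 1) + x ^ (e + 1) + (e + 1) * (x + 1) ^ (e + 1) := by ring
    have h4 : (x + 1) ^ (e + 1 + 1) = (x + 1) * (x + 1) ^ (e + 1) := by ring
    push_cast
    linarith

theorem sum_up (e N : ℕ) :
    ((e : ℝ) + 1) * ∑ L ∈ Finset.range N, (L : ℝ) ^ e ≤ (N : ℝ) ^ (e + 1) := by
  induction N with
  | zero => simp
  | succ N ih =>
    rw [Finset.sum_range_succ, mul_add]
    have := bern_lo (N : ℝ) (by positivity) e
    push_cast
    linarith

theorem sum_lo (e N : ℕ) :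
    (N : ℝ) ^ (e + 1) ≤ ((e : ℝ) + 1) * ∑ L ∈ Finset.range (N + 1), (L : ℝ) ^ e := by
  induction N with
  | zero =>
    have : (0 : ℝ) ≤ ((e : ℝ) + 1) * ∑ L ∈ Finset.range (0 + 1), (L : ℝ) ^ e := by positivity
    simpa using this
  | succ N ih =>
    rw [Finset.sum_range_succ, mul_add]
    have := bern_up (N : ℝ) (by positivity) e
    push_cast
    linarith

theorem sum_ev {u v : ℕ → ℝ} (h : ∀ᶠ L in atTop, u L ≤ v L) :
    ∃ C : ℝ, ∀ N, ∑ L ∈ Finset.range N, u L ≤ ∑ L ∈ Finset.range N, v L + C := by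
  obtain ⟨M, hM⟩ := eventually_atTop.mp h
  refine ⟨∑ L ∈ Finset.range M, |u L - v L|, fun N => ?_⟩
  have h1 : ∑ L ∈ Finset.range N, u L
      ≤ ∑ L ∈ Finset.range N, (v L + if L < M then |u L - v L| else 0) := by
    refine Finset.sum_le_sum fun L _ => ?_
    split_ifs with hL
    · linarith [le_abs_self (u L - v L)]
    · simpa using hM L (by omega)
  rw [Finset.sum_add_distrib, ← Finset.sum_filter] at h1
  have h2 : ∑ L ∈ (Finset.range N).filter (fun L => L < M), |u L - v L|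
      ≤ ∑ L ∈ Finset.range M, |u L - v L| :=
    Finset.sum_le_sum_of_subset_of_nonneg
      (fun L hL => Finset.mem_range.mpr (Finset.mem_filter.mp hL).2) fun _ _ _ => abs_nonneg _
  linarith

theorem small {a ε : ℝ} (ha : 0 ≤ a) (hε : 0 < ε) : a * (ε / (a + 1)) ≤ ε := by
  have h : 0 < a + 1 := by linarith
  rw [← mul_div_assoc, div_le_iff₀ h]
  nlinarith

theorem mul_aux {e L : ℕ} {ν ε : ℝ} (hε : 0 < ε) (c x : ℕ)
    (h : (e.factorial : ℝ) * x ≤ (ν + ε / (c + 1)) * (L : ℝ) ^ e) :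
    (e.factorial : ℝ) * ((c * x : ℕ) : ℝ) ≤ (c * ν + ε) * (L : ℝ) ^ e := by
  have hc : (0 : ℝ) ≤ c := by positivity
  have h1 := mul_le_mul_of_nonneg_left h hc
  have h2 := small hc hε
  have h3 : (0 : ℝ) ≤ (L : ℝ) ^ e := by positivity
  have h4 := mul_le_mul_of_nonneg_right h2 h3
  push_cast
  nlinarith

theorem triv {e e' L x : ℕ} {a : ℝ} (ha : a ≤ 0) :
    a * (L : ℝ) ^ e ≤ (e'.factorial : ℝ) * (x : ℝ) :=
  le_trans (mul_nonpos_of_nonpos_of_nonneg ha (by positivity)) (by positivity)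

theorem lo_scale {e : ℕ} {ν : ℝ} {f : ℕ → ℕ} (A c : ℕ) (hA : 0 < A) (h : Lo e ν f) :
    Lo e (ν * A ^ e) fun L => f (A * L + c) := by
  intro ε hε
  have hA' : (0 : ℝ) < (A : ℝ) ^ e := by positivity
  have ht : Tendsto (fun L : ℕ => A * L + c) atTop atTop :=
    tendsto_atTop_mono (fun L => (Nat.le_mul_of_pos_left L hA).trans (Nat.le_add_right _ _))
      tendsto_id
  have he : ν * (A : ℝ) ^ e - ε = (ν - ε / (A : ℝ) ^ e) * (A : ℝ) ^ e := by
    field_simp
  filter_upwards [ht.eventually (h (ε / (A : ℝ) ^ e) (by positivity))] with L hL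
  rcases le_total (ν - ε / (A : ℝ) ^ e) 0 with h0 | h0
  · exact triv (he ▸ mul_nonpos_of_nonpos_of_nonneg h0 hA'.le)
  · refine le_trans ?_ hL
    rw [he, mul_assoc, ← mul_pow]
    refine mul_le_mul_of_nonneg_left (pow_le_pow_left₀ (by positivity) ?_ _) h0
    push_cast
    have : (0 : ℝ) ≤ c := by positivity
    linarith

theorem ev_shift {e : ℕ} {ν : ℝ} {f : ℕ → ℕ} (c : ℕ) (h : Ev e ν f) :
    Ev e ν fun L => f (L + c) := by
  intro ε hε
  have h2 : 0 < ε / 2 := by linarith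
  have ha := nonneg h h2
  have hδ : 0 < ε / 2 / (ν + ε / 2 + 1) := by positivity
  filter_upwards [(tendsto_add_atTop_nat c).eventually (h _ h2), up c e hδ] with L h3 h4
  have h5 := mul_le_mul_of_nonneg_left h4 ha
  have h6 := mul_le_mul_of_nonneg_right (small ha h2) (show (0 : ℝ) ≤ (L : ℝ) ^ e by positivity)
  push_cast at h3
  nlinarith

theorem ev_sum {e : ℕ} {ν : ℝ} {f : ℕ → ℕ} (h : Ev e ν f) :
    Ev (e + 1) ν fun N => ∑ L ∈ Finset.range N, f L := by
  intro ε hε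
  have h2 : 0 < ε / 2 := by linarith
  have ha := nonneg h h2
  obtain ⟨C, hC⟩ := sum_ev (h _ h2)
  filter_upwards [cst ((e + 1) * C) e h2] with N hN
  have h3 := hC N
  rw [← Finset.mul_sum, ← Finset.mul_sum] at h3
  have h4 := mul_le_mul_of_nonneg_left h3 (show (0 : ℝ) ≤ (e : ℝ) + 1 by positivity)
  have h5 := mul_le_mul_of_nonneg_left (sum_up e N) ha
  rw [Nat.factorial_succ]
  push_cast
  nlinarith

theorem lo_sum {e : ℕ} {ν : ℝ} {f : ℕ → ℕ} (h : Lo e ν f) :
    Lo (e + 1) ν fun N => ∑ L ∈ Finset.range N, f L := by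
  intro ε hε
  rcases le_total (ν - ε) 0 with h0 | h0
  · exact Eventually.of_forall fun _ => triv h0
  have h2 : 0 < ε / 2 := by linarith
  have h4 : 0 < ε / 4 := by linarith
  have ha : 0 ≤ ν - ε / 2 := by linarith
  have hδ : 0 < ε / 4 / (ν - ε / 2 + 1) := by positivity
  obtain ⟨C, hC⟩ := sum_ev (h _ h2)
  filter_upwards [cst ((e + 1) * C) e h4, down (-1) (e + 1) hδ, eventually_ge_atTop 1]
    with N hN hd h1
  obtain ⟨M, rfl⟩ : ∃ M, N = M + 1 := ⟨N - 1, by omega⟩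
  have h3 := hC (M + 1)
  rw [← Finset.mul_sum, ← Finset.mul_sum] at h3
  have h5 := mul_le_mul_of_nonneg_left h3 (show (0 : ℝ) ≤ (e : ℝ) + 1 by positivity)
  have h6 := mul_le_mul_of_nonneg_left (sum_lo e M) ha
  have h7 : ((M + 1 : ℕ) : ℝ) + -1 = M := by push_cast; ring
  rw [h7] at hd
  have h8 := mul_le_mul_of_nonneg_left hd ha
  have h9 := mul_le_mul_of_nonneg_right (small ha h4)
    (show (0 : ℝ) ≤ ((M + 1 : ℕ) : ℝ) ^ (e + 1) by positivity)
  rw [Nat.factorial_succ, Nat.cast_sum, Nat.cast_mul, Nat.cast_succ e]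
  nlinarith

theorem ev_small {e : ℕ} {f : ℕ → ℕ} (μ c : ℕ) (h : ∀ᶠ L in atTop, f L ≤ μ * (L + c) ^ e) :
    Ev (e + 1) 0 f := by
  intro ε hε
  filter_upwards [h, up c e one_pos, lin (((e + 1).factorial : ℝ) * μ * 2) hε] with L h1 h2 h3
  have h4 : (f L : ℝ) ≤ μ * ((L : ℝ) + c) ^ e := by exact_mod_cast h1
  have h5 := mul_le_mul_of_nonneg_left h2 (show (0 : ℝ) ≤ μ by positivity)
  have h6 := mul_le_mul_of_nonneg_left (h4.trans h5)
    (show (0 : ℝ) ≤ ((e + 1).factorial : ℝ) by positivity)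
  have h7 := mul_le_mul_of_nonneg_right h3 (show (0 : ℝ) ≤ (L : ℝ) ^ e by positivity)
  rw [pow_succ]
  nlinarith

theorem lo_lin {e : ℕ} {ν : ℝ} {f : ℕ → ℕ} (b : ℕ) (h : Lo e ν f) :
    Lo (e + 1) ((e + 1) * ν) fun L => (L - b) * f L := by
  intro ε hε
  have he : (0 : ℝ) < (e : ℝ) + 1 := by positivity
  have h2 : 0 < ε / 2 := by linarith
  filter_upwards [h (ε / 2 / (e + 1)) (by positivity), lin ((((e : ℝ) + 1) * ν - ε / 2) * b) h2,
    eventually_ge_atTop b] with L h3 h4 h5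
  have h6 : (0 : ℝ) ≤ (L : ℝ) - b := by
    have : (b : ℝ) ≤ L := by exact_mod_cast h5
    linarith
  have h7 := mul_le_mul_of_nonneg_left h3 (mul_nonneg he.le h6)
  have h8 : ((e : ℝ) + 1) * ((L : ℝ) - b) * ((ν - ε / 2 / (e + 1)) * (L : ℝ) ^ e)
      = (((e : ℝ) + 1) * ν - ε / 2) * ((L : ℝ) - b) * (L : ℝ) ^ e := by
    field_simp
  have h9 := mul_le_mul_of_nonneg_right h4 (show (0 : ℝ) ≤ (L : ℝ) ^ e by positivity)
  rw [h8] at h7
  rw [Nat.factorial_succ, Nat.cast_mul, Nat.cast_mul, Nat.cast_sub h5, Nat.cast_succ e, pow_succ]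
  nlinarith

end Calc

open Calc in
theorem calcS : CalcS where
  fq := fun h ε hε => (h ε hε).frequently
  le := by
    intro e x y f h1 h2
    by_contra hc
    have hε : 0 < (x - y) / 3 := by linarith
    obtain ⟨L, h3, h4, hL⟩ :=
      ((h2 _ hε).and_eventually ((h1 _ hε).and (eventually_ge_atTop 1))).exists
    have h0 : (0 : ℝ) < L := by exact_mod_cast hL
    have hp : (0 : ℝ) < (L : ℝ) ^ e := by positivity
    have := le_of_mul_le_mul_right (h4.trans h3) hp
    linarith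
  not_fq := by
    intro e ν f h
    obtain ⟨ε, h1⟩ := not_forall.mp h
    obtain ⟨hε, h2⟩ := Classical.not_imp.mp h1
    refine ⟨ν + ε, by linarith, fun δ hδ => ?_⟩
    filter_upwards [not_frequently.mp h2] with L hL
    have h3 : (ν + ε - δ) * (L : ℝ) ^ e ≤ (ν + ε) * (L : ℝ) ^ e :=
      mul_le_mul_of_nonneg_right (by linarith) (by positivity)
    exact h3.trans (not_le.mp hL).le
  gr := by
    intro e ν f h
    refine ⟨⌈ν + 1⌉₊, (h 1 one_pos).mono fun L hL => ?_⟩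
    have h1 : (1 : ℝ) ≤ e.factorial := by exact_mod_cast e.factorial_pos
    have h2 : (f L : ℝ) ≤ (e.factorial : ℝ) * f L := le_mul_of_one_le_left (by positivity) h1
    have h3 : (ν + 1) * (L : ℝ) ^ e ≤ (⌈ν + 1⌉₊ : ℝ) * (L : ℝ) ^ e :=
      mul_le_mul_of_nonneg_right (Nat.le_ceil _) (by positivity)
    exact_mod_cast h2.trans (hL.trans h3)
  fq_mono := by
    intro e ν ν' f g h hν hg ε hε
    refine ((h ε hε).and_eventually hg).mono fun L hL => ?_
    have h1 : (g L : ℝ) ≤ f L := by exact_mod_cast hL.2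
    exact (mul_le_mul_of_nonneg_left h1 (by positivity)).trans
      (hL.1.trans (mul_le_mul_of_nonneg_right (by linarith) (by positivity)))
  fq_mul := fun c h ε hε =>
    (h (ε / (c + 1)) (by positivity)).mono fun L hL => mul_aux hε c _ hL
  ev_mono := by
    intro e ν ν' f g h hν hg ε hε
    filter_upwards [h ε hε, hg] with L h0 h2
    have h1 : (g L : ℝ) ≤ f L := by exact_mod_cast h2
    exact (mul_le_mul_of_nonneg_left h1 (by positivity)).trans
      (h0.trans (mul_le_mul_of_nonneg_right (by linarith) (by positivity)))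
  lo_mono := by
    intro e ν ν' f g h hν hg ε hε
    filter_upwards [h ε hε, hg] with L h0 h2
    have h1 : (f L : ℝ) ≤ g L := by exact_mod_cast h2
    exact (mul_le_mul_of_nonneg_right (by linarith) (by positivity)).trans
      (h0.trans (mul_le_mul_of_nonneg_left h1 (by positivity)))
  ev_zero := by
    intro e ε hε
    refine Eventually.of_forall fun L => ?_
    have : (0 : ℝ) ≤ ε * (L : ℝ) ^ e := by positivity
    simpa using this
  lo_zero := fun e f ε hε => Eventually.of_forall fun _ => triv (by linarith)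
  ev_add := by
    intro e x y f g h1 h2 ε hε
    filter_upwards [h1 (ε / 2) (by linarith), h2 (ε / 2) (by linarith)] with L h3 h4
    push_cast
    linarith
  lo_add := by
    intro e x y f g h1 h2 ε hε
    filter_upwards [h1 (ε / 2) (by linarith), h2 (ε / 2) (by linarith)] with L h3 h4
    push_cast
    linarith
  ev_mul := fun c h ε hε =>
    (h (ε / (c + 1)) (by positivity)).mono fun L hL => mul_aux hε c _ hL
  ev_shift := ev_shift
  lo_shift := by
    intro e ν f c h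
    simpa using lo_scale 1 c one_pos h
  ev_sum := ev_sum
  lo_sum := lo_sum
  ev_small := ev_small
  lo_scale := lo_scale
  lo_lin := lo_lin
  ev_choose := by
    intro e ε hε
    filter_upwards [up e e hε] with L hL
    have h1 : e.factorial * (L + e).choose e ≤ (L + e) ^ e := by
      rw [← Nat.descFactorial_eq_factorial_mul_choose]
      exact Nat.descFactorial_le_pow _ _
    have h2 : (e.factorial : ℝ) * ((L + e).choose e : ℕ) ≤ ((L : ℝ) + e) ^ e := by
      exact_mod_cast h1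
    exact h2.trans hL

end Pool.Agent.R72.Res.SH
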