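import Pool.Agent.Lib.helper72.RM.M04

/-! PROJECT SHARP, finite ground fields: definitions and statements of the modules. -/

namespace Pool.Agent.R72.Res.SF

open Pool.Agent.R72.Wild Pool.Agent.R72.Res.PA Pool.Agent.R72.Res.PF Submodule Filter Module
  MvPolynomial

/-- The function `f` often has growth at most `ν L ^ e / e!`. -/
def Fq (e : ℕ) (ν : ℝ) (f : ℕ → ℕ) : Prop :=
  ∀ ε : ℝ, 0 < ε → ∃ᶠ L : ℕ in atTop, (e.factorial : ℝ) * f L ≤ (ν + ε) * (L : ℝ) ^ e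

section Pure

variable {k : Type} [Field k] {ι : Type}

/-- A finite family of primes of dimension `e` and total degree at most `ν`. -/
structure Pq (e : ℕ) (ν : ℝ) (s : Finset (Ideal (MvPolynomial ι k))) : Prop where
  prime : ∀ p ∈ s, p.IsPrime
  dim : ∀ p ∈ s, dm p = e
  gr : Fq e ν fun c => ∑ p ∈ s, hf p c

variable (k)

/-- Module CARD: the number of primes is at most the total degree. -/
def CardS : Prop :=
  ∀ (ι α : Type) [Finite ι] (e : ℕ) (ν : ℝ) (s : Finset α) (p : α → Ideal (MvPolynomial ι k)),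
    (∀ a ∈ s, (p a).IsPrime ∧ dm (p a) = e) → (Fq e ν fun c => ∑ a ∈ s, hf (p a) c) →
    s.card ≤ ⌊ν⌋₊

/-- Module GAMEQ: chains of hyperplane sections. -/
def GameS : Prop :=
  ∀ (E ι : Type) [AddCommGroup E] [Module k E] [Finite ι] (e r : ℕ) (ν : ℝ)
    (s : Finset (Ideal (MvPolynomial ι k))) (l : E →ₗ[k] MvPolynomial ι k), Pq (e + r) ν s →
    (∀ x, (l x).totalDegree ≤ 1) → Game (k := k) ⌊ν⌋₊ r fun x =>
      ∀ q : Ideal (MvPolynomial ι k), q.IsPrime → (∃ p ∈ s, p ≤ q) → (∃ y, l y ∉ q) →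
        (∀ i, l (x i) ∈ q) → dm q ≤ e

end Pure

section Defs

variable {k K : Type} [Field k] [Field K] [Algebra k K] {m : ℕ}

/-- The normalization of the algebra generated by `U`. -/
def Nor (U : Submodule k K) : Subalgebra k K where
  carrier := {x | ∀ O : Subalgebra k K, Val O → (∀ u ∈ U, u ∈ O) → x ∈ O}
  mul_mem' h1 h2 O a b := O.mul_mem (h1 O a b) (h2 O a b)
  add_mem' h1 h2 O a b := O.add_mem (h1 O a b) (h2 O a b)
  algebraMap_mem' c O _ _ := O.algebraMap_mem c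

variable (k K m) in
/-- Residue fields of discrete valuations have dimension at most `m`. -/
def Dep : Prop := ∀ (w : DV k K) (g : Fin (m + 1) → K), (∀ i, g i ∈ w.fil 0) → ¬ w.Ind g

variable (m) in
/-- `G` is a complete set of Rees valuations of `T`. -/
structure RV (T : Submodule k K) (G : Finset (DV k K)) : Prop where
  fg : T.FG
  ne : T ≠ ⊥
  pos : ∀ v ∈ G, T ≤ v.fil 1
  prm : ∀ v ∈ G, Prm m T v
  cpl : ∀ X : Submodule k K, X.FG → ∃ e : ℕ, ∀ L : ℕ,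
    alg T * X ⊓ G.inf (fun v => v.fil ((L + e : ℕ) * v.ordS T + v.ordS X)) ≤ T ^ L * (alg T * X)
  cov : ∀ O t, Cen T O → Gn O T t → ∃ v ∈ G, ∀ (a : ℕ), ∀ x ∈ T ^ a,
    x ∈ v.fil (a * v.ordS T + 1) → ¬ Un O (x / t ^ a)

/-- The total multiplicity of the divisors in `D` at the point `T` is at most `ν`. -/
def GrQ (e : ℕ) (ν : ℝ) (T : Submodule k K) (D : Set (DV k K)) : Prop :=
  ∀ s : Finset (DV k K), ↑s ⊆ D →
    Fq e ν fun L => ∑ w ∈ s, cod (alg T) (T ^ L * alg T ⊔ w.fil 1)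

/-- The multiplicity, the polar multiplicity and the multiplicity of the boundary are at most
`ν₀`, `ν₁`, `ν₂`. -/
structure GdF (d : Fin (m + 1) → Derivation k K K) (ν₀ ν₁ ν₂ : ℝ) (D : Set (DV k K))
    (T : Submodule k K) : Prop where
  x : ∀ E : Submodule k K, E.FG → (1 : K) ∈ E → ∃ M : Submodule k K, M.FG ∧ (1 : K) ∈ M ∧
    (∃ b : ℕ, Fq (m + 1) ν₀ fun L =>
      cod (Mb T (JJ d T) (E * M) b) (T ^ L * Mb T (JJ d T) (E * M) b)) ∧
    ∃ P : Set (Submodule k K), P.Finite ∧ (∀ p ∈ P, ¬ JJ d T ≤ p) ∧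
      ∀ W ∈ JJ d T, (∀ p ∈ P, W ∉ p) → ∃ b : ℕ, Fq m ν₁ fun L =>
        cod (Mb T (JJ d T) (E * M) (b + 1))
          (T ^ L * Mb T (JJ d T) (E * M) (b + 1) ⊔ pr k W * Mb T (JJ d T) (E * M) b)
  bd : GrQ m ν₂ T D

/-- The point `T` is good: local degrees at most `C`, at most `g` subspaces to avoid. -/
def GdC (d : Fin (m + 1) → Derivation k K K) (C g : ℕ) (D : Set (DV k K)) (T : Submodule k K) :
    Prop :=
  ∃ ν₀ ν₁ ν₂ : ℝ, GdF d ν₀ ν₁ ν₂ D T ∧ ν₀ < C ∧ ν₁ < C ∧ ν₂ < C ∧ 2 * ⌊ν₀⌋₊ ≤ g ∧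
    ⌊ν₁⌋₊ + ⌊ν₂⌋₊ + 1 ≤ g

/-- The set of bad pairs of a point of the chart `U` and a tuple is small. -/
def ThA (d : Fin (m + 1) → Derivation k K K) (C : ℕ) (D : Set (DV k K)) (M₀ U : Submodule k K) :
    Prop :=
  ∀ (I₀ I : Type) [Fintype I₀] [Fintype I] (e : I₀ → K) (u : I → K), span k (Set.range e) = U →
    span k (Set.range u) = U ^ (m + 2) →
    Thin fun (ξ : I₀ → k) (l : Fin (m + 2) × I → k) => ∃ T, Pnt U T ∧
      (∀ i, e i - algebraMap k K (ξ i) ∈ T) ∧ ¬ At d C D M₀ T (tup u l)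

/-- The output of the Albanese algorithm and of the dimension count. -/
structure AlbF (d : Fin (m + 1) → Derivation k K K) (S : Finset K) (C g : ℕ) (V : Submodule k K) :
    Prop where
  fg : V.FG
  ne : WW d V ≠ ⊥
  fin : (DD d S V).Finite
  thin : ∀ M₀ : Submodule k K, M₀.FG → ∀ σ ∈ V, σ ≠ 0 →
    ThA d C {w | w ∈ DD d S V ∧ w.Min V σ} M₀ (pr k σ⁻¹ * V)
  good : ∀ σ T, Hyp V σ T → (1 : K) ∉ nn T → GdC d C g {w | w ∈ DD d S V ∧ w.Min V σ} T

end Defs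

section

variable (k K : Type) [Field k] [Field K] [Algebra k K] (m : ℕ)

/-- Module AR: the lemma of Artin and Rees. -/
def ArS : Prop :=
  ∀ T X N : Submodule k K, T.FG → X.FG → N ≤ alg T * X → alg T * N ≤ N →
    ∃ c : ℕ, ∀ L : ℕ, T ^ (L + c) * (alg T * X) ⊓ N ≤ T ^ L * N

/-- Module DVK: the normalization is a Krull domain. -/
def DvkS : Prop :=
  ∀ (U : Submodule k K) (u : K), Fld (m + 1) U → u ∈ Nor U → u ≠ 0 →
    ∃ G : Finset (DV k K), (∀ w ∈ G, U ≤ w.fil 0 ∧ u ∈ w.fil 1 ∧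
        ∃ g : Fin m → K, (∀ i, g i ∈ U) ∧ w.Ind g) ∧
      ∀ (x : K) (N : ℕ), u ^ N * x ∈ Nor U → (∀ w ∈ G, x ∈ w.fil 0) → x ∈ Nor U

/-- Module REESV: Rees valuations exist. -/
def ReesS : Prop := ∀ T : Submodule k K, Fld (m + 1) T → ∃ G, RV m T G

/-- Module POLAR: the polar multiplicity is the same for all elements of least order. -/
def PolarS : Prop :=
  ∀ (T J MM : Submodule k K) (G : Finset (DV k K)) (W W₁ : K) (b : ℕ), RV m T G → J.FG → J ≠ ⊥ →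
    MM.FG → MM ≠ ⊥ → W ∈ J → W₁ ∈ J → (∀ v ∈ G, v.Min J W) → (∀ v ∈ G, v.Min J W₁) → ∃ e : ℕ, ∀ L : ℕ,
      cod (Mb T J MM (b + 1)) (T ^ L * Mb T J MM (b + 1) ⊔ pr k W * Mb T J MM b) ≤
      cod (Mb T J MM (b + 1)) (T ^ (L + e) * Mb T J MM (b + 1) ⊔ pr k W₁ * Mb T J MM b)

/-- Module CNT0: the exceptional divisors are counted by the multiplicity. -/
def CntS : Prop :=
  ∀ (T : Submodule k K) (G : Finset (DV k K)), T.FG → T ≠ ⊥ → (∀ v ∈ G, T ≤ v.fil 1) →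
    ∃ E : Submodule k K, E.FG ∧ (1 : K) ∈ E ∧ ∀ X : Submodule k K, X.FG → X ≠ ⊥ → ∀ L : ℕ,
      ∑ v ∈ G, ∑ a ∈ Finset.range L, v.lead (T ^ a) ≤
        cod (alg T * (E * X)) (T ^ L * (alg T * (E * X)))

/-- Module XCONE: the components of the tangent cone of the variety. -/
def XconeS : Prop :=
  ∀ (I : Type) [Fintype I] (t : I → K) (T : Submodule k K) (G : Finset (DV k K)),
    span k (Set.range t) = T → RV m T G → Dep k K m →
    ∃ p : DV k K → Ideal (MvPolynomial I k),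
      (∀ v ∈ G, (p v).IsPrime ∧ dm (p v) = (m + 1 : ℕ) ∧
        ∀ L : ℕ, hf (p v) L ≤ ∑ a ∈ Finset.range (L + 1), v.lead (T ^ a)) ∧
      ∀ O, Cen T O → ∃ q : Ideal (MvPolynomial I k), q.IsPrime ∧ (∃ v ∈ G, p v ≤ q) ∧ 1 ≤ dm q ∧
        ∀ c : I → k, lf id c ∈ q ↔ ¬ Gn O T (∑ i, c i • t i)

/-- Module DW: the components of the polar divisor of `W`. -/
def DwS : Prop :=
  ∀ (T J : Submodule k K) (W : K), Fld (m + 1) T → Dep k K m → J.FG → W ∈ J → W ≠ 0 →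
    ∃ (D : Finset (DV k K)) (E : Submodule k K), E.FG ∧ (1 : K) ∈ E ∧ (∀ w ∈ D, PrT m T w) ∧
      ∀ (X : Submodule k K) (b : ℕ), X.FG → X ≠ ⊥ →
        (∃ c : ℕ, ∀ L : ℕ, ∑ w ∈ D, cod (alg T) (T ^ L * alg T ⊔ w.fil 1) ≤
          cod (Mb T J (E * X) (b + 1))
            (T ^ (L + c) * Mb T J (E * X) (b + 1) ⊔ pr k W * Mb T J (E * X) b)) ∧
        ∀ (e : ℕ) (y : Fin e → K), (∀ i, y i ∈ T) → (∀ w ∈ D, Rd T 1 y (alg T) (w.fil 1)) →
          Rd T 1 y (Mb T J (E * X) (b + 1)) (pr k W * Mb T J (E * X) b)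

/-- Module CONEQ: the components of the tangent cones of prime divisors. -/
def ConeS : Prop :=
  ∀ (ν : ℝ) (I : Type) [Fintype I] (t : I → K) (T : Submodule k K) (D : Finset (DV k K)),
    span k (Set.range t) = T → (∀ w ∈ D, PrT m T w) →
    (Fq m ν fun L => ∑ w ∈ D, cod (alg T) (T ^ L * alg T ⊔ w.fil 1)) →
    ∃ s : Finset (Ideal (MvPolynomial I k)), Pq m ν s ∧
      ∀ w ∈ D, ∀ O, Cen T O → O ≤ w.vr → ¬ T ≤ w.fil 1 →
        ∃ q : Ideal (MvPolynomial I k), q.IsPrime ∧ (∃ p ∈ s, p ≤ q) ∧ 1 ≤ dm q ∧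
          ∀ c : I → k, lf id c ∈ q ↔ ¬ Gn O T (∑ i, c i • t i)

/-- Module RANK for linear parameters: the local degree of a reduction is the multiplicity. -/
def RankS : Prop :=
  ∀ (e C : ℕ) (ν : ℝ) (T X Q : Submodule k K) (y : Fin e → K), T.FG → X.FG → alg T * Q ≤ Q →
    (∀ i, y i ∈ T) → Rd T 1 y (alg T * X) Q →
    (Fq e ν fun L => cod (alg T * X) (T ^ L * (alg T * X) ⊔ Q)) → ν < C →
    Ld C T y (alg T * X) Q

/-- Module RATQ: good local parameters avoid a bounded number of subspaces. -/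
def RatS : Prop :=
  ∀ (t₀ : Fin (m + 1) → K) (d : Fin (m + 1) → Derivation k K K) (C g : ℕ) (D : Set (DV k K))
    (M₀ T : Submodule k K) (I : Type) [Fintype I] (t : I → K), Fr t₀ d →
    span k (Set.range t) = T → (1 : K) ∉ nn T → JJ d T ≠ ⊥ → M₀.FG → D.Finite →
    (∀ w ∈ D, PrT m T w) → GdC d C g D T →
    Game (k := k) g (m + 1) fun x : Fin (m + 1) → I → k =>
      Game (k := k) g (m + 1) fun a : Fin (m + 1) → Fin (m + 1) → k =>
        Fin1 d C D M₀ T (Fin.cons 1 fun i => ∑ j, a i j • ∑ c, x j c • t c)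

/-- Module GENQ: a good tuple with coefficients in the finite field `F`. -/
def GenS : Prop :=
  ∀ (F : Type) [Field F] [Fintype F] [Algebra F k] [Algebra.IsAlgebraic F k]
    (t : Fin (m + 1) → K) (d : Fin (m + 1) → Derivation k K K) (S : Finset K) (C g r : ℕ)
    (V M₀ : Submodule k K) (v : Fin r → K), g < Fintype.card F → Fr t d →
    AlbF d S C g V → span k (Set.range v) = V → (∀ i, v i ≠ 0) → M₀.FG →
    ∃ (B : Finset K) (N : ℕ) (P : Fin (m + 2) → MvPolynomial (Fin r) F), 0 < N ∧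
      TupN d S C V M₀ B N fun j => aeval v (map (algebraMap F k) (P j))

end

end Pool.Agent.R72.Res.SF
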