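import Mathlib.RingTheory.MvPolynomial
import Pool.Agent.Lib.helper72.RM.M14
import Pool.Agent.Lib.helper72.RM.M22
import Pool.Agent.Lib.helper72.RM.M18
import Pool.Agent.MP_19ffc6_ag.Res.SFSpec

-- ======== part 0: formerly Pool.Agent.MP_19ffc6_ag.Res.SCodim
section MrgPart0

/-! PROJECT SHARP: the adaptive codimension lemma. A closed set of parameters that is a cone in
each slot and that can be avoided slot by slot with linear families does not dominate. -/

namespace Pool.Agent.R72.Res.SC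

open MvPolynomial Algebra Codim

/-- In slot `i` a linear family with `b i + 1` parameters in `M` is chosen (it may depend on the
earlier slots) and the opponent picks a nonzero parameter; the final tuple satisfies `G`. -/
def Win {k V : Type} [Field k] [AddCommGroup V] [Module k V] (M : Submodule k V) :
    (n : ℕ) → (Fin n → ℕ) → ((Fin n → V) → Prop) → Prop
  | 0, _, G => G Fin.elim0
  | n + 1, b, G => ∃ τ : (Fin (b 0 + 1) → k) →ₗ[k] V, (∀ a, τ a ∈ M) ∧
      ∀ a, a ≠ 0 → Win M n (Fin.tail b) fun g => G (Fin.cons (τ a) g)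

section Game

variable {k V V' : Type} [Field k] [AddCommGroup V] [Module k V] [AddCommGroup V'] [Module k V']

theorem Win.mono {M M' : Submodule k V} (hM : M ≤ M') {n : ℕ} {b : Fin n → ℕ}
    {G G' : (Fin n → V) → Prop} (h : Win M n b G) (hG : ∀ g, (∀ i, g i ∈ M) → G g → G' g) :
    Win M' n b G' := by
  induction n with
  | zero => exact hG _ (fun i => i.elim0) h
  | succ n ih =>
    obtain ⟨τ, h1, h2⟩ := h
    exact ⟨τ, fun a => hM (h1 a), fun a ha => ih (h2 a ha) fun g hg =>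
      hG _ fun i => Fin.cases (h1 a) hg i⟩

theorem Win.lift (Λ : V' →ₗ[k] V) {n : ℕ} {b : Fin n → ℕ} {G : (Fin n → V) → Prop}
    (h : Win (LinearMap.range Λ) n b G) :
    Win (⊤ : Submodule k V') n b fun l => G fun i => Λ (l i) := by
  induction n with
  | zero =>
    have e : (fun i => Λ (Fin.elim0 i)) = (Fin.elim0 : Fin 0 → V) := funext fun i => i.elim0
    change G fun i => Λ (Fin.elim0 i)
    rw [e]
    exact h
  | succ n ih =>
    obtain ⟨τ, h1, h2⟩ := h
    obtain ⟨τ', e⟩ := Module.projective_lifting_property Λ.rangeRestrict (τ.codRestrict _ h1)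
      Λ.surjective_rangeRestrict
    have e' : ∀ a, Λ (τ' a) = τ a := fun a => congrArg Subtype.val (LinearMap.congr_fun e a)
    refine ⟨τ', fun _ => trivial, fun a ha => (ih (h2 a ha)).mono le_rfl fun g _ hg => ?_⟩
    have e2 : (fun i => Λ ((Fin.cons (τ' a) g : Fin (n + 1) → V') i)) =
        Fin.cons (τ a) fun i => Λ (g i) := funext fun i => Fin.cases (e' a) (fun _ => rfl) i
    change G fun i => Λ ((Fin.cons (τ' a) g : Fin (n + 1) → V') i)
    rw [e2]
    exact hg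

end Game

variable {k Ω : Type} [Field k] [Field Ω] [Algebra k Ω] {μ : Type} [Fintype μ]

variable (k) in
/-- The transcendence degree of the field generated by a set. -/
noncomputable def rk (S : Set Ω) : Cardinal := (AlgebraicIndependent.matroid k Ω).cRk S

theorem rk_union_le (S S' : Set Ω) : rk k (S ∪ S') ≤ rk k S + rk k S' :=
  le_add_self.trans (Matroid.cRk_inter_add_cRk_union_le _ _ _)

theorem rk_range_le {ι : Type} [Fintype ι] (f : ι → Ω) : rk k (Set.range f) ≤ Fintype.card ι :=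
  (Matroid.cRk_le_cardinalMk _ _).trans (Cardinal.mk_range_le.trans_eq (Cardinal.mk_fintype ι))

theorem rk_le {S S' : Set Ω} (h : ∀ z ∈ S, IsAlgebraic (adjoin k S') z) : rk k S ≤ rk k S' := by
  have h1 : S ⊆ (AlgebraicIndependent.matroid k Ω).closure S' := by
    rw [AlgebraicIndependent.matroid_closure_eq]
    exact h
  exact (Matroid.cRk_mono _ h1).trans_eq (Matroid.cRk_closure _ _)

theorem alg_of_mem {S : Set Ω} {z : Ω} (h : z ∈ adjoin k S) : IsAlgebraic (adjoin k S) z :=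
  isAlgebraic_algebraMap (⟨z, h⟩ : adjoin k S)

section Step

variable {R : Type} [CommRing R] [Algebra k R]

theorem tower_mem {ν : Type} (φ : R →ₐ[k] Ω) (z : ν → Ω) (P : MvPolynomial ν R) :
    aevalTower φ z P ∈ adjoin k (Set.range φ ∪ Set.range z) := by
  induction P using MvPolynomial.induction_on with
  | C r => rw [aevalTower_C]; exact subset_adjoin (Or.inl ⟨r, rfl⟩)
  | add p q hp hq => rw [map_add]; exact add_mem hp hq
  | mul_X p i hp => rw [map_mul, aevalTower_X]; exact mul_mem hp (subset_adjoin (Or.inr ⟨i, rfl⟩))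

theorem tower_zero {ν E : Type} [CommRing E] [Algebra k E] (f : R →ₐ[k] E) (P : MvPolynomial ν R) :
    aevalTower f (fun _ : ν => 0) P = f (constantCoeff P) :=
  RingHom.congr_fun (f := (aevalTower f (fun _ : ν => 0) : MvPolynomial ν R →+* _))
    (g := f.toRingHom.comp constantCoeff)
    (MvPolynomial.ringHom_ext (fun r => by simp) (fun j => by simp)) P

/-- One slot. -/
theorem step [IsAlgClosed k] [FiniteType k R] (φ : R →ₐ[k] Ω) (lam : μ → Ω) (x : R →ₐ[k] k)
    (hx : ∀ r, φ r = 0 → x r = 0) {r r' s : ℕ} (h0 : rk k (Set.range φ) ≤ r)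
    (h1 : r' ≤ rk k (Set.range φ ∪ Set.range lam)) (hs : r + Fintype.card μ ≤ r' + s)
    (τ : (Fin (s + 1) → k) →ₗ[k] (μ → k)) :
    ∃ a, a ≠ 0 ∧ ∀ P : MvPolynomial μ R,
      (∀ c : Ω, aevalTower φ (fun i => c * lam i) P = 0) → aevalTower x (τ a) P = 0 := by
  by_cases hinj : Function.Injective τ
  swap
  · rw [injective_iff_map_eq_zero] at hinj
    push Not at hinj
    obtain ⟨a, ha, h⟩ := hinj
    refine ⟨a, h, fun P hP => ?_⟩
    have h2 := hP 0
    simp only [zero_mul] at h2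
    rw [ha]
    exact (tower_zero x P).trans (hx _ ((tower_zero φ P).symm.trans h2))
  obtain ⟨m, v, hm, hv⟩ := exists_basis τ hinj
  obtain ⟨i0, hi0⟩ : ∃ i, Transcendental
      (adjoin k (Set.range φ ∪ Set.range fun j => cf v lam (.inr j))) (cf v lam (.inl i)) := by
    by_contra H
    simp only [Transcendental, not_exists, not_not] at H
    have h2 : rk k (Set.range φ ∪ Set.range lam) ≤
        rk k (Set.range φ ∪ Set.range fun j => cf v lam (.inr j)) := by
      refine rk_le ?_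
      rintro _ (⟨i, rfl⟩ | ⟨i, rfl⟩)
      · exact alg_of_mem (subset_adjoin (Or.inl ⟨_, rfl⟩))
      · change lam i ∈ (Subalgebra.algebraicClosure (adjoin k _) Ω).restrictScalars k
        rw [← sum_cf v lam i]
        refine sum_mem fun l _ => Subalgebra.smul_mem _ ?_ _
        rcases l with l | l
        exacts [H l, alg_of_mem (subset_adjoin (Or.inr ⟨_, rfl⟩))]
    have h3 := (h1.trans h2).trans ((rk_union_le _ _).trans (add_le_add h0 (rk_range_le _)))
    rw [Fintype.card_fin] at h3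
    have h4 : r' ≤ r + m := by exact_mod_cast h3
    omega
  obtain ⟨a, ha, h⟩ := Codim.core v φ lam x hx i0 hi0
  exact ⟨a, ha, fun P hP => hv a ▸ h P hP⟩

/-- Relations are preserved by scaling the slots. -/
def Hom {n : ℕ} (φ : R →ₐ[k] Ω) (lam : Fin n × μ → Ω) : Prop :=
  ∀ (c : Fin n → Ω) (P : MvPolynomial (Fin n × μ) R), aevalTower φ lam P = 0 →
    aevalTower φ (fun p => c p.1 * lam p) P = 0

omit [Fintype μ] in
theorem exists_up {n : ℕ} (Q : MvPolynomial (Fin n × μ) (MvPolynomial μ R)) :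
    ∃ P : MvPolynomial (Fin (n + 1) × μ) R, ∀ (f : R →ₐ[k] Ω) (z : Fin (n + 1) × μ → Ω),
      aevalTower f z P =
        aevalTower (aevalTower f fun j => z (0, j)) (fun p => z (p.1.succ, p.2)) Q := by
  let up : MvPolynomial (Fin n × μ) (MvPolynomial μ R) →ₐ[k] MvPolynomial (Fin (n + 1) × μ) R :=
    aevalTower (aevalTower (IsScalarTower.toAlgHom k R _) fun j => X (0, j))
      fun p => X (p.1.succ, p.2)
  refine ⟨up Q, fun f z => AlgHom.congr_fun (tower_ext (f := (aevalTower f z).comp up)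
    (fun r => ?_) fun p => by simp [up]) Q⟩
  rw [AlgHom.comp_apply, aevalTower_C, aevalTower_C]
  exact AlgHom.congr_fun (tower_ext (f := (aevalTower f z).comp
    (aevalTower (IsScalarTower.toAlgHom k R _) fun j => X (0, j))) (fun r => by simp)
    fun j => by simp) r

/-- The inverse identification. -/
noncomputable def dn (n : ℕ) : MvPolynomial (Fin (n + 1) × μ) R →ₐ[k]
    MvPolynomial (Fin n × μ) (MvPolynomial μ R) :=
  aevalTower ((IsScalarTower.toAlgHom k (MvPolynomial μ R) _).comp (IsScalarTower.toAlgHom k R _))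
    fun p => Fin.cases (motive := fun _ => MvPolynomial (Fin n × μ) (MvPolynomial μ R))
      (C (X p.2)) (fun i => X (i, p.2)) p.1

omit [Fintype μ] in
theorem tower_dn {n : ℕ} {E : Type} [CommRing E] [Algebra k E] (f : R →ₐ[k] E)
    (z : Fin (n + 1) × μ → E) (P : MvPolynomial (Fin (n + 1) × μ) R) :
    aevalTower (aevalTower f fun j => z (0, j)) (fun p => z (p.1.succ, p.2)) (dn (k := k) n P) =
      aevalTower f z P := by
  refine AlgHom.congr_fun (tower_ext (f := (aevalTower (aevalTower f fun j => z (0, j))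
    (fun p => z (p.1.succ, p.2))).comp (dn (k := k) n)) (g := aevalTower f z)
    (fun r => by simp [dn]) ?_) P
  rintro ⟨i, j⟩
  induction i using Fin.cases <;> simp [dn]

end Step

/-- The opponent wins with the budgets of the generic point. -/
theorem game [IsAlgClosed k] (n : ℕ) : ∀ {R : Type} [CommRing R] [Algebra k R] [FiniteType k R]
    (φ : R →ₐ[k] Ω) (lam : Fin n × μ → Ω) (r : ℕ), rk k (Set.range φ) ≤ r → Hom φ lam →
    ∃ b : Fin n → ℕ,
      rk k (Set.range φ ∪ Set.range lam) + (∑ i, b i : ℕ) ≤ (r + n * Fintype.card μ : ℕ) ∧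
      ∀ x : R →ₐ[k] k, (∀ r, φ r = 0 → x r = 0) → ∀ G, Win (⊤ : Submodule k (μ → k)) n b G →
        ∃ l, G l ∧ ∀ P, aevalTower φ lam P = 0 → aevalTower x (fun p => l p.1 p.2) P = 0 := by
  induction n with
  | zero =>
    intro R _ _ _ φ lam r hr _
    refine ⟨Fin.elim0, ?_, fun x hx G hG => ⟨Fin.elim0, hG, fun P hP => ?_⟩⟩
    · simpa [Set.range_eq_empty lam] using hr
    · have e1 : lam = fun _ => 0 := funext fun p => p.1.elim0
      have e2 : (fun p : Fin 0 × μ => (Fin.elim0 p.1 : μ → k) p.2) = fun _ => 0 :=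
        funext fun p => p.1.elim0
      rw [e1, tower_zero] at hP
      rw [e2, tower_zero]
      exact hx _ hP
  | succ n ih =>
    intro R _ _ _ φ lam r hr hH
    have hle : rk k (Set.range φ ∪ Set.range fun j => lam (0, j)) ≤ (r + Fintype.card μ : ℕ) := by
      rw [Nat.cast_add]
      exact (rk_union_le _ _).trans (add_le_add hr (rk_range_le _))
    obtain ⟨r', hr'⟩ := Cardinal.lt_aleph0.1 (hle.trans_lt (Cardinal.natCast_lt_aleph0))
    have hle' : r' ≤ r + Fintype.card μ := by rw [hr'] at hle; exact_mod_cast hle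
    obtain ⟨b, hb, h⟩ := ih (aevalTower φ fun j => lam (0, j)) (fun p => lam (p.1.succ, p.2)) r'
      ((rk_le (by rintro _ ⟨P, rfl⟩; exact alg_of_mem (tower_mem _ _ P))).trans hr'.le)
      (fun c Q hQ => by
        obtain ⟨P, hP⟩ := exists_up (k := k) (Ω := Ω) Q
        have h1 := hH (Fin.cons 1 c) P ((hP φ lam).trans hQ)
        rw [hP] at h1
        simpa using h1)
    refine ⟨Fin.cons (r + Fintype.card μ - r') b, ?_, fun x hx G hG => ?_⟩
    · have h1 : rk k (Set.range φ ∪ Set.range lam) ≤ rk k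
          (Set.range (aevalTower φ fun j => lam (0, j)) ∪
            Set.range fun p : Fin n × μ => lam (p.1.succ, p.2)) := by
        refine rk_le ?_
        rintro _ (⟨a, rfl⟩ | ⟨⟨i, j⟩, rfl⟩) <;> refine alg_of_mem (subset_adjoin ?_)
        · exact Or.inl ⟨C a, aevalTower_C _ _ _⟩
        · induction i using Fin.cases with
          | zero => exact Or.inl ⟨X j, aevalTower_X _ _ _⟩
          | succ i => exact Or.inr ⟨(i, j), rfl⟩
      rw [Fin.sum_univ_succ, Fin.cons_zero, Nat.cast_add, add_left_comm]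
      simp only [Fin.cons_succ]
      refine (add_le_add le_rfl ((add_le_add h1 le_rfl).trans hb)).trans ?_
      rw [← Nat.cast_add, Nat.cast_le, Nat.succ_mul]
      omega
    · obtain ⟨τ, -, hτ⟩ := hG
      obtain ⟨a, ha, h1⟩ := step φ (fun j => lam (0, j)) x hx hr hr'.ge (s := r + Fintype.card μ - r')
        (by omega) τ
      obtain ⟨l, hl, h2⟩ := h (aevalTower x (τ a)) (fun Q hQ => h1 Q fun c => by
        obtain ⟨P, hP⟩ := exists_up (k := k) (Ω := Ω) (n := n) (C Q)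
        have h3 := hH (fun _ => c) P ((hP φ lam).trans ((aevalTower_C _ _ _).trans hQ))
        rwa [hP, aevalTower_C] at h3) _ (hτ a ha)
      refine ⟨Fin.cons (τ a) l, hl, fun P hP => ?_⟩
      rw [← tower_dn]
      exact h2 _ ((tower_dn φ lam P).trans hP)

/-- The adaptive codimension lemma. -/
theorem codim [IsAlgClosed k] {R : Type} [CommRing R] [Algebra k R] [FiniteType k R]
    (s : R) (n M : ℕ) (Z : (R →ₐ[k] k) → (Fin n × μ → k) → Prop) (hs : ∀ x l, Z x l → x s ≠ 0)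
    (hcone : ∀ x l (t : Fin n → k), (∀ i, t i ≠ 0) → Z x l → Z x fun p => t p.1 * l p)
    (hcl : ∀ x l, x s ≠ 0 → ¬ Z x l → ∃ P : MvPolynomial (Fin n × μ) R, aevalTower x l P ≠ 0 ∧
      ∀ x' l', Z x' l' → aevalTower x' l' P = 0)
    (hτ : ∀ p : Ideal R, p.IsPrime → s ∉ p → (∀ r, (∀ x l, Z x l → x r = 0) → r ∈ p) →
      ∃ (N : ℕ) (x : R →ₐ[k] k), trdeg k (R ⧸ p) ≤ N ∧ x s ≠ 0 ∧ (∀ r ∈ p, x r = 0) ∧
      ∀ b : Fin n → ℕ, M + ∑ i, b i ≤ N + n * Fintype.card μ →
        Win (⊤ : Submodule k (μ → k)) n b fun l => ¬ Z x fun p => l p.1 p.2) :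
    PF.Th.Sml M fun z : MvPolynomial (Fin n × μ) R →ₐ[k] k =>
      ∃ x l, Z x l ∧ z = aevalTower x l := by
  let A := MvPolynomial (Fin n × μ) R
  let I : Ideal A :=
    { carrier := {P | ∀ x l, Z x l → aevalTower x l P = 0}
      add_mem' := fun h1 h2 x l h => by rw [map_add, h1 x l h, h2 x l h, add_zero]
      zero_mem' := fun x l _ => map_zero _
      smul_mem' := fun c P h1 x l h => by rw [smul_eq_mul, map_mul, h1 x l h, mul_zero] }
  have : IsNoetherianRing R := FiniteType.isNoetherianRing k R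
  refine ⟨{q | q ∈ I.minimalPrimes ∧ C s ∉ q},
    (Ideal.finite_minimalPrimes_of_isNoetherianRing _ I).subset fun _ h => h.1, ?_, ?_⟩
  swap
  · rintro _ ⟨x, l, hZ, rfl⟩
    have := RingHom.ker_isPrime (aevalTower x l : A →ₐ[k] k)
    obtain ⟨q, hq, h⟩ := Ideal.exists_minimalPrimes_le (I := I)
      (J := RingHom.ker (aevalTower x l : A →ₐ[k] k)) fun P hP => hP x l hZ
    exact ⟨q, ⟨hq, fun h1 => hs x l hZ ((aevalTower_C x l s).symm.trans (h h1))⟩, h⟩
  rintro q ⟨⟨⟨hq, hIq⟩, hmin⟩, hs'⟩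
  refine ⟨hq, lt_of_not_ge fun hge => ?_⟩
  let Ω := FractionRing (A ⧸ q)
  let ι := IsScalarTower.toAlgHom k (A ⧸ q) Ω
  have hι : Function.Injective ι := IsFractionRing.injective (A ⧸ q) Ω
  let χ : A →ₐ[k] Ω := ι.comp (Ideal.Quotient.mkₐ k q)
  have hχ : ∀ P, χ P = 0 ↔ P ∈ q := fun P =>
    (map_eq_zero_iff _ hι).trans Ideal.Quotient.eq_zero_iff_mem
  let φ : R →ₐ[k] Ω := χ.comp (IsScalarTower.toAlgHom k R _)
  have e : aevalTower φ (fun i => χ (X i)) = χ :=
    tower_ext (fun r => aevalTower_C _ _ _) fun i => aevalTower_X _ _ _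
  let sc : A →ₐ[k] MvPolynomial (Fin n) A :=
    aevalTower ((IsScalarTower.toAlgHom k A _).comp (IsScalarTower.toAlgHom k R _))
      fun p => X p.1 * C (X p)
  have key : ∀ {E : Type} [CommRing E] [Algebra k E] (f : A →ₐ[k] E) (t : Fin n → E) (P : A),
      aevalTower (f.comp (IsScalarTower.toAlgHom k R _)) (fun p => t p.1 * f (X p)) P =
        eval t (map f.toRingHom (sc P)) := fun {E} _ _ f t P => by
    rw [eval_map]
    exact AlgHom.congr_fun (tower_ext (g := (aevalTower f t).comp sc) (fun r => by simp [sc, A])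
      fun p => by simp [sc, A]) P
  let ψ : A →+* MvPolynomial (Fin n) Ω := (map χ.toRingHom).comp sc.toRingHom
  have hI : I ≤ RingHom.ker ψ := fun P hP => by
    refine MvPolynomial.ext _ _ fun d => (coeff_map _ _ _).trans ((hχ _).2 (hIq fun x l hZ => ?_))
    have h1 : map (aevalTower x l).toRingHom (sc P) = 0 := by
      refine funext_set (fun _ => {0}ᶜ) (fun _ => (Set.finite_singleton (0 : k)).infinite_compl)
        fun t ht => ?_
      have h2 := key (aevalTower x l) t P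
      rw [aevalTower_comp_toAlgHom] at h2
      simp only [A, aevalTower_X] at h2
      rw [map_zero]
      exact h2.symm.trans (hP x _ (hcone x l t (fun i => ht i trivial) hZ))
    simpa [coeff_map] using congrArg (coeff d) h1
  have hq' : q ≤ RingHom.ker ψ := hmin ⟨RingHom.ker_isPrime ψ, hI⟩ fun P hP => by
    have h1 := key χ (fun _ => 1) P
    rw [show map χ.toRingHom (sc P) = 0 from hP, map_zero] at h1
    simp only [one_mul] at h1
    exact (hχ P).1 (e ▸ h1)
  obtain ⟨N, x, hN, hxs, hx, hW⟩ := hτ _ (RingHom.ker_isPrime φ) (fun h => hs' ((hχ _).1 h))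
    fun r hr => (hχ (C r)).2 (hIq fun x l h => by simpa using hr x l h)
  rw [(Ideal.quotientKerEquivRange φ).trdeg_eq] at hN
  obtain ⟨b, hb, h⟩ := game n φ (fun i => χ (X i)) N
    (Matroid.cRk_le_iff.2 fun J hJ => le_trans (AlgebraicIndependent.cardinalMk_le_trdeg
      (x := fun z : J => (⟨z, hJ.subset z.2⟩ : φ.range))
      (AlgebraicIndependent.of_comp φ.range.val hJ.indep)) hN)
    (fun c P hP => by
      rw [e] at hP
      rw [key χ c P, show map χ.toRingHom (sc P) = 0 from hq' ((hχ P).1 hP), map_zero])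
  obtain ⟨y, hy⟩ := exists_isTranscendenceBasis k (A ⧸ q)
  have hind := hy.1.map' hι
  have h2 := (Matroid.Indep.cardinalMk_le_cRk_of_subset (M := AlgebraicIndependent.matroid k Ω)
    hind.to_subtype_range subset_rfl).trans (rk_le (S' := Set.range φ ∪ Set.range fun i => χ (X i))
      (by
        rintro _ ⟨i, rfl⟩
        obtain ⟨P, hP⟩ := Ideal.Quotient.mk_surjective i.1
        have h1 := tower_mem φ (fun i => χ (X i)) P
        rw [e] at h1
        exact alg_of_mem ((congrArg ι hP : χ P = ι i.1) ▸ h1 :)))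
  rw [Cardinal.mk_range_eq _ hind.injective, hy.cardinalMk_eq_trdeg] at h2
  have h3 := (add_le_add (hge.trans h2) le_rfl).trans hb
  rw [← Nat.cast_add, Nat.cast_le] at h3
  obtain ⟨l, hl, h4⟩ := h x hx _ (hW b h3)
  obtain ⟨P, hP, hPZ⟩ := hcl x _ hxs hl
  exact hP (h4 P (by rw [e]; exact (hχ P).2 (hIq hPZ)))

end Pool.Agent.R72.Res.SC

end MrgPart0

-- ======== part 1: formerly Pool.Agent.MP_19ffc6_ag.Res.SSpec
section MrgPart1

/-! PROJECT SHARP: definitions and statements of the modules (Albanese algorithm with sharp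
constants, local degrees of adaptive families). -/

namespace Pool.Agent.R72.Res.SH

open Pool.Agent.R72.Wild Pool.Agent.R72.Res.PA Pool.Agent.R72.Res.PA.Num
  Pool.Agent.R72.Res.PA.LocK Pool.Agent.R72.Res.SC Submodule Filter Module MvPolynomial
open Pool.Agent.R72.Res.SF (Fq)

/-! ### Growth and numbers -/

/-- The function `f` has growth at most `ν L ^ e / e!`. -/
def Ev (e : ℕ) (ν : ℝ) (f : ℕ → ℕ) : Prop :=
  ∀ ε : ℝ, 0 < ε → ∀ᶠ L : ℕ in atTop, (e.factorial : ℝ) * f L ≤ (ν + ε) * (L : ℝ) ^ e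

/-- The function `f` has growth at least `ν L ^ e / e!`. -/
def Lo (e : ℕ) (ν : ℝ) (f : ℕ → ℕ) : Prop :=
  ∀ ε : ℝ, 0 < ε → ∀ᶠ L : ℕ in atTop, (ν - ε) * (L : ℝ) ^ e ≤ (e.factorial : ℝ) * f L

/-- Module CALC: the calculus of growth. -/
structure CalcS : Prop where
  fq : ∀ {e ν f}, Ev e ν f → Fq e ν f
  le : ∀ {e x y f}, Lo e x f → Fq e y f → x ≤ y
  not_fq : ∀ {e ν f}, ¬ Fq e ν f → ∃ ν', ν < ν' ∧ Lo e ν' f
  gr : ∀ {e ν f}, Fq e ν f → ∃ μ : ℕ, ∃ᶠ L : ℕ in atTop, f L ≤ μ * L ^ e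
  fq_mono : ∀ {e ν ν' f g}, Fq e ν f → ν ≤ ν' → (∀ᶠ L in atTop, g L ≤ f L) → Fq e ν' g
  fq_mul : ∀ {e ν f} (c : ℕ), Fq e ν f → Fq e (c * ν) fun L => c * f L
  ev_mono : ∀ {e ν ν' f g}, Ev e ν f → ν ≤ ν' → (∀ᶠ L in atTop, g L ≤ f L) → Ev e ν' g
  lo_mono : ∀ {e ν ν' f g}, Lo e ν f → ν' ≤ ν → (∀ᶠ L in atTop, f L ≤ g L) → Lo e ν' g
  ev_zero : ∀ e, Ev e 0 fun _ => 0
  lo_zero : ∀ e f, Lo e 0 f
  ev_add : ∀ {e x y f g}, Ev e x f → Ev e y g → Ev e (x + y) fun L => f L + g L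
  lo_add : ∀ {e x y f g}, Lo e x f → Lo e y g → Lo e (x + y) fun L => f L + g L
  ev_mul : ∀ {e ν f} (c : ℕ), Ev e ν f → Ev e (c * ν) fun L => c * f L
  ev_shift : ∀ {e ν f} (c : ℕ), Ev e ν f → Ev e ν fun L => f (L + c)
  lo_shift : ∀ {e ν f} (c : ℕ), Lo e ν f → Lo e ν fun L => f (L + c)
  ev_sum : ∀ {e ν f}, Ev e ν f → Ev (e + 1) ν fun N => ∑ L ∈ Finset.range N, f L
  lo_sum : ∀ {e ν f}, Lo e ν f → Lo (e + 1) ν fun N => ∑ L ∈ Finset.range N, f L
  ev_small : ∀ {e : ℕ} {f : ℕ → ℕ} (μ c : ℕ), (∀ᶠ L in atTop, f L ≤ μ * (L + c) ^ e) →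
    Ev (e + 1) 0 f
  lo_scale : ∀ {e ν f} (A c : ℕ), 0 < A → Lo e ν f → Lo e (ν * A ^ e) fun L => f (A * L + c)
  lo_lin : ∀ {e ν f} (b : ℕ), Lo e ν f → Lo (e + 1) ((e + 1) * ν) fun L => (L - b) * f L
  ev_choose : ∀ e, Ev e 1 fun L => (L + e).choose e

/-- The largest product of orders: `r` slots with `r, r - 1, .., 1` free linear forms and total
budget `s`. -/
def tau : ℕ → ℕ → ℕ
  | 0, _ => 1
  | r + 1, s => (Finset.range (s + 1)).sup fun a => (a - r + 1) * tau r (s - a)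

/-- The weight of the multiplicity. -/
def al (m : ℕ) : ℕ := max m 2

/-- The bound for the multiplicities. -/
def BB (m : ℕ) : ℕ := (m + 2).factorial * (al m + 1) ^ (m + 1) / al m ^ m + 1

/-- The bound for the local degrees in dimension `m + 1`. -/
def cc (m : ℕ) : ℕ := tau m m * BB m + 1

/-- The orders `t` that can be forced with the budgets `b`. -/
def Prof {m : ℕ} (b t : Fin (m + 1) → ℕ) : Prop :=
  ∀ i, 0 < t i ∧ t i ≤ b i - (m - 1 - i) + 1

/-- Module ARITH. -/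
structure ArithS : Prop where
  pos : ∀ r s, 0 < tau r s
  mono : ∀ r s s', s ≤ s' → tau r s ≤ tau r s'
  num : ∀ {m} {b t : Fin (m + 1) → ℕ}, Prof b t → ∏ i : Fin m, t i.castSucc ≤ tau m (∑ i, b i)
  all : ∀ {m} {b t : Fin (m + 1) → ℕ}, Prof b t → ∑ i, b i ≤ m + 1 → ∏ i, t i ≤ al m * tau m m
  sum : ∀ {m} {b t : Fin (m + 1) → ℕ}, Prof b t → ∑ i, (t i - 1) ≤ ∑ i, b i
  off : ∀ m, tau m (m + 1) * (m + 1) < cc m
  le : ∀ m, m + 2 ≤ BB m
  ccm : Monotone cc
  real : ∀ m, ∃ R : ℝ, ((al m * (m + 2) : ℕ) + m + 2 : ℝ) ^ (m + 1) * (BB m + 1) < R * BB m ∧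
    ((m + 1).factorial : ℝ) * R < (BB m + 1) * ((al m * (m + 2) : ℕ) : ℝ) ^ m
  two : ∀ r s, tau r s ≤ 2 ^ s

section Defs

variable {k K : Type} [Field k] [Field K] [Algebra k K] {m : ℕ}

/-! ### Local definitions -/

/-- The leading forms of the elements `g i` of order `t i` generate the graded module of `P`
modulo `Q` in large degrees. -/
def Hs {ι : Type} (T : Submodule k K) (t : ι → ℕ) (g : ι → K) (P : Submodule k K)
    (Q : ℕ → Submodule k K) : Prop :=
  ∃ N : ℕ, ∀ c, N ≤ c →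
    T ^ c * P ≤ (⨆ i, pr k (g i) * (T ^ (c - t i) * P)) ⊔ T ^ (c + 1) * P ⊔ Q c

/-- Multiplicity at most `e₀` and polar multiplicity at most `e₁`. -/
structure Nm (d : Fin (m + 1) → Derivation k K K) (T MM : Submodule k K) (b e₀ e₁ : ℕ) : Prop where
  le : ∀ L, lam T (Mb T (JJ d T) MM) b L ≤ lam T (Mb T (JJ d T) MM) (b + 1) L
  x : Ev (m + 1) e₀ (lam T (Mb T (JJ d T) MM) b)
  p : Ev m e₁ fun L => lam T (Mb T (JJ d T) MM) (b + 1) L - lam T (Mb T (JJ d T) MM) b L

/-- The Hilbert-Samuel function of a set of divisors. -/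
noncomputable def bd (T : Submodule k K) (s : Finset (DV k K)) (L : ℕ) : ℕ :=
  ∑ w ∈ s, cod (alg T) (T ^ L * alg T ⊔ w.fil 1)

/-- A good point, in terms of multiplicities. -/
def GN (d : Fin (m + 1) → Derivation k K K) (α B : ℕ) (D : Set (DV k K)) (T : Submodule k K) :
    Prop :=
  ∀ E : Submodule k K, E.FG → (1 : K) ∈ E → ∃ M : Submodule k K, M.FG ∧ (1 : K) ∈ M ∧
    ∀ s : Finset (DV k K), ↑s ⊆ D → ∀ᶠ b : ℕ in atTop, ∃ e₀ e₁ μ : ℕ, α * e₀ + e₁ + μ ≤ B ∧
      Nm d T (E * M) b e₀ e₁ ∧ Ev m μ (bd T s) ∧ Lo m μ (bd T s)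

variable (k m) in
/-- Polynomials of degree at most `m + 2` without constant term. -/
noncomputable def PM : Submodule k (MvPolynomial (Fin (m + 1)) k) :=
  restrictTotalDegree (Fin (m + 1)) k (m + 2) ⊓ LinearMap.ker (lcoeff k 0)

/-- The polynomials `g i` have order `t i`, and at the common zeros of the first `m` leading forms
neither `F`, nor the last leading form, nor the Jacobian of the leading forms vanishes. -/
structure Lf (b : Fin (m + 1) → ℕ) (F : MvPolynomial (Fin (m + 1)) k)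
    (g : Fin (m + 1) → MvPolynomial (Fin (m + 1)) k) (t : Fin (m + 1) → ℕ) : Prop where
  prof : Prof b t
  ord : ∀ i j, j < t i → homogeneousComponent j (g i) = 0
  zero : ∀ x : Fin (m + 1) → k, x ≠ 0 →
    (∀ i : Fin m, eval x (homogeneousComponent (t i.castSucc) (g i.castSucc)) = 0) →
    eval x F ≠ 0 ∧ eval x (homogeneousComponent (t (Fin.last m)) (g (Fin.last m))) ≠ 0 ∧
      eval x (Matrix.of fun i j => pderiv j (homogeneousComponent (t i) (g i))).det ≠ 0

/-! ### The Albanese algorithm -/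

/-- The summed Hilbert-Samuel function of a point. -/
noncomputable def FS (d : Fin (m + 1) → Derivation k K K) (A : ℕ) (T MM : Submodule k K)
    (s : Finset (DV k K)) (L : ℕ) : ℕ :=
  ∑ j ∈ Finset.range (A * L + 1), (lam T (Mb T (JJ d T) MM) L j + L * bd T s j)

/-- A good point, in terms of the summed function. -/
def Gs (d : Fin (m + 1) → Derivation k K K) (A : ℕ) (R : ℝ) (D : Set (DV k K))
    (T : Submodule k K) : Prop :=
  ∀ E : Submodule k K, E.FG → (1 : K) ∈ E → ∃ M : Submodule k K, M.FG ∧ (1 : K) ∈ M ∧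
    ∀ s : Finset (DV k K), ↑s ⊆ D → ∀ ε : ℝ, 0 < ε → ∃ᶠ L : ℕ in atTop,
      (FS d A T (E * M) s L : ℝ) ≤ (A * R + ε) * (L : ℝ) ^ (m + 2)

/-- The output of the Albanese algorithm. -/
structure AlbS (d : Fin (m + 1) → Derivation k K K) (S : Finset K) (A : ℕ) (R : ℝ)
    (V : Submodule k K) : Prop where
  fg : V.FG
  ne : WW d V ≠ ⊥
  fin : (DD d S V).Finite
  good : ∀ σ T, Hyp V σ T → Gs d A R {w | w ∈ DD d S V ∧ w.Min V σ} T

/-- The potential. -/
noncomputable def Ph (d : Fin (m + 1) → Derivation k K K) (A : ℕ) (V MM : Submodule k K)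
    (D : Finset (DV k K)) (L : ℕ) : ℕ :=
  finrank k (MM * WW d V ^ L * V ^ (A * L) :) + L * ∑ w ∈ D, w.lead (V ^ (A * L))

/-- The potential has growth at most `G`. -/
def PoS (d : Fin (m + 1) → Derivation k K K) (S : Finset K) (A : ℕ) (V : Submodule k K) (G : ℝ) :
    Prop :=
  ∀ MM : Submodule k K, MM.FG → ∀ D : Finset (DV k K), ↑D ⊆ DD d S V → ∀ ε : ℝ, 0 < ε →
    ∀ᶠ L : ℕ in atTop, (Ph d A V MM D L : ℝ) ≤ (G + ε) * (L : ℝ) ^ (m + 1)

/-- The deficiency of a subspace `W` of `V`. -/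
noncomputable def Df (N Q V W : Submodule k K) (a : ℕ) : ℕ :=
  ∑ j ∈ Finset.range (a + 1), cod (N * V ^ a) (N * (V ^ (a - j) * W ^ j) ⊔ Q)

/-- The total deficiency. -/
noncomputable def DT (d : Fin (m + 1) → Derivation k K K) (A : ℕ) (V W MM : Submodule k K)
    (D : Finset (DV k K)) (L : ℕ) : ℕ :=
  Df (MM * WW d V ^ L) ⊥ V W (A * L) +
    L * ∑ w ∈ D, Df 1 (w.fil (w.ordS (V ^ (A * L)) + 1)) V W (A * L)

/-- The deficiency of `W` has growth at least `g A`. -/
def GaS (d : Fin (m + 1) → Derivation k K K) (S : Finset K) (A : ℕ) (V W : Submodule k K) (g : ℝ) :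
    Prop :=
  ∃ E : Submodule k K, E.FG ∧ (1 : K) ∈ E ∧ ∀ M : Submodule k K, M.FG → (1 : K) ∈ M →
    ∃ s : Finset (DV k K), ↑s ⊆ DD d S V ∧ ∀ᶠ L : ℕ in atTop,
      g * A * (L : ℝ) ^ (m + 2) ≤ DT d A V W (E * M) s L

/-- The chart `(σ, T)` is a bad point of `V`. -/
def BaS (d : Fin (m + 1) → Derivation k K K) (S : Finset K) (A : ℕ) (R : ℝ) (V : Submodule k K)
    (σ : K) (T : Submodule k K) : Prop :=
  Hyp V σ T ∧ ¬ Gs d A R {w | w ∈ DD d S V ∧ w.Min V σ} T

end Defs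

section

variable (k K : Type) [Field k] [Field K] [Algebra k K] (m : ℕ)

/-! ### Local modules -/

/-- Module RANK. -/
def RankS : Prop :=
  ∀ (e : ℕ) (T P Q : Submodule k K) (t : Fin e → ℕ) (g : Fin e → K), Md T P → Md T Q →
    (∀ L, Fd P (T ^ L * P ⊔ Q)) → (∀ i, 0 < t i) → (∀ i, g i ∈ T ^ t i * alg T) →
    Hs T t g P (fun _ => Q) → ∃ ρ : ℕ,
      Lo e ρ (fun L => (∏ i, t i) * cod P (T ^ L * P ⊔ Q)) ∧
      ((∀ i, t i = 1) → Ev e ρ fun L => cod P (T ^ L * P ⊔ Q)) ∧ Ld (ρ + 1) T g P Q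

/-- Module POL: the growth of the polar module of an element of order `c`. -/
def PolS : Prop :=
  ∀ (e c b : ℕ) (ν₀ ν₁ : ℝ) (T J MM : Submodule k K) (W : K) (t : Fin e → ℕ) (g : Fin e → K),
    T.FG → J.FG → MM.FG → W ≠ 0 → W ∈ T ^ c * (alg T * J) → (∀ i, 0 < t i) →
    (∀ i, g i ∈ T ^ t i * alg T) →
    Hs T t g (Mb T J MM (b + 1)) (fun j => pr k W * (T ^ (j - c) * Mb T J MM b)) →
    (∀ L, lam T (Mb T J MM) b L ≤ lam T (Mb T J MM) (b + 1) L) →
    Ev (e + 1) ν₀ (lam T (Mb T J MM) b) →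
    Ev e ν₁ (fun L => lam T (Mb T J MM) (b + 1) L - lam T (Mb T J MM) b L) →
    Fq e (ν₁ + c * ν₀) fun L =>
      cod (Mb T J MM (b + 1)) (T ^ L * Mb T J MM (b + 1) ⊔ pr k W * Mb T J MM b)

/-- Module DIM: `m` elements do not cut out a point of a variety of dimension `m + 1`. -/
def DimS : Prop :=
  ∀ (t : Fin (m + 1) → K) (d : Fin (m + 1) → Derivation k K K) (T X : Submodule k K)
    (g : Fin m → K) (N : ℕ), Fr t d → T.FG → JJ d T ≠ ⊥ → (1 : K) ∉ nn T → X.FG → X ≠ ⊥ →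
    (∀ i, g i ∈ nn T) →
    ¬ T ^ N * (alg T * X) ≤ span k (Set.range g) * (alg T * X) ⊔ T ^ (N + 1) * (alg T * X)

/-- Module PG: the game in the polynomial ring. -/
def PgS : Prop :=
  Big k (m + 2) → ∀ (F : MvPolynomial (Fin (m + 1)) k) (δ : ℕ) (b : Fin (m + 1) → ℕ), F ≠ 0 →
    F.IsHomogeneous δ → ∑ i, b i ≤ m + 1 → Win (PM k m) (m + 1) b fun g => ∃ t, Lf b F g t

/-- Module TR: from polynomials to modules. -/
structure TrS : Prop where
  hsl : ∀ (n : ℕ) (ι : Type) [Finite ι] (T P Q : Submodule k K) (l : Fin n → K) (δ : ι → ℕ)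
    (H : ι → MvPolynomial (Fin n) k), Md T P → Md T Q → (∀ i, l i ∈ T) → Rd T 1 l P Q →
    (∀ i, (H i).IsHomogeneous (δ i)) → (∀ x : Fin n → k, (∀ i, eval x (H i) = 0) → x = 0) →
    Hs T δ (fun i => aeval l (H i)) P fun _ => Q
  win : ∀ (T : Submodule k K) (l : Fin (m + 1) → K) (r : ℕ) (b : Fin r → ℕ)
    (G : (Fin r → MvPolynomial (Fin (m + 1)) k) → Prop), (∀ i, l i ∈ T) → Win (PM k m) r b G →
    Win ((1 ⊔ T) ^ (m + 2) ⊓ nn T) r b fun g' => ∃ g, G g ∧ g' = fun i => aeval l (g i)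
  hom : ∀ (n : ℕ) (T : Submodule k K) (l : Fin n → K) (δ : ℕ) (H : MvPolynomial (Fin n) k),
    (∀ i, l i ∈ T) → H.IsHomogeneous δ → aeval l H ∈ T ^ δ
  lead : ∀ (n : ℕ) (T : Submodule k K) (l : Fin n → K) (t : ℕ) (g : MvPolynomial (Fin n) k),
    (∀ i, l i ∈ T) → (∀ j, j < t → homogeneousComponent j g = 0) →
    aeval l g ∈ T ^ t * alg T ∧ aeval l g - aeval l (homogeneousComponent t g) ∈ T ^ (t + 1) * alg T
  kill : ∀ (e μ : ℕ) (T P Q : Submodule k K) (l : Fin (e + 1) → K), Md T P → Md T Q →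
    (∀ L, Fd P (T ^ L * P ⊔ Q)) → Gr e μ T P Q → (∀ i, l i ∈ T) →
    ∃ (F : MvPolynomial (Fin (e + 1)) k) (δ : ℕ), F ≠ 0 ∧ F.IsHomogeneous δ ∧
      ∀ j, pr k (aeval l F) * (T ^ j * P) ≤ T ^ (j + δ + 1) * P ⊔ Q
  congr : ∀ (ι : Type) (T P : Submodule k K) (Q : ℕ → Submodule k K) (t : ι → ℕ) (g g' : ι → K),
    Finite ι → Md T P → (∀ i, g' i - g i ∈ T ^ (t i + 1) * alg T) → Hs T t g P Q → Hs T t g' P Q
  rd : ∀ (n : ℕ) (T P Q : Submodule k K) (l : Fin n → K), Md T Q → Rd T 1 l P Q →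
    Hs T (fun _ => 1) l P fun _ => Q

/-- Module WRL: the leading term of the Wronskian. -/
def WrlS : Prop :=
  ∀ (d : Fin (m + 1) → Derivation k K K) (T : Submodule k K) (S₀ : K) (s₀ : k)
    (l : Fin (m + 1) → K) (g : Fin (m + 1) → MvPolynomial (Fin (m + 1)) k) (t : Fin (m + 1) → ℕ),
    S₀ - algebraMap k K s₀ ∈ nn T → (∀ i, l i ∈ T) → (∀ i, 0 < t i) →
    (∀ i j, j < t i → homogeneousComponent j (g i) = 0) →
    (Matrix.of fun i j => pderiv j (homogeneousComponent (t i) (g i))).det.IsHomogeneous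
      (∑ i, (t i - 1)) ∧
    Wr d (Fin.cons S₀ fun i => aeval l (g i)) - s₀ • (aeval l (Matrix.of fun i j =>
        pderiv j (homogeneousComponent (t i) (g i))).det * Jac d l) ∈
      T ^ (∑ i, (t i - 1) + 1) * (alg T * JJ d T)

/-- Module LOCX: the local degree on a module of dimension `m + 1`. -/
def LocXS : Prop :=
  Big k (m + 2) → ∀ (T P Q : Submodule k K) (ν C : ℕ) (b : Fin (m + 1) → ℕ), T.FG → Md T P →
    Md T Q → (∀ L, Fd P (T ^ L * P ⊔ Q)) → (Fq (m + 1) ν fun L => cod P (T ^ L * P ⊔ Q)) →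
    ∑ i, b i ≤ m + 1 → al m * tau m m * ν < C →
    Win ((1 ⊔ T) ^ (m + 2) ⊓ nn T) (m + 1) b fun g => Ld C T g P Q

/-- Module LOCW: the local degree on a module of dimension `m`. -/
def LocWS : Prop :=
  Big k (m + 2) → ∀ (T P Q : Submodule k K) (ν C : ℕ) (b : Fin (m + 1) → ℕ), T.FG → Md T P →
    Md T Q → (∀ L, Fd P (T ^ L * P ⊔ Q)) → (Fq m ν fun L => cod P (T ^ L * P ⊔ Q)) →
    ∑ i, b i ≤ m + 1 → tau m (∑ i, b i) * ν < C →
    Win ((1 ⊔ T) ^ (m + 2) ⊓ nn T) (m + 1) b fun g => Ld C T (fun i : Fin m => g i.castSucc) P Q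

/-- Module LOCP: the local degree on the polar divisor. -/
def LocPS : Prop :=
  Big k (m + 2) → ∀ (t : Fin (m + 1) → K) (d : Fin (m + 1) → Derivation k K K)
    (T MM : Submodule k K) (S₀ : K) (C : ℕ) (b : Fin (m + 1) → ℕ), Fr t d → T.FG → JJ d T ≠ ⊥ →
    MM.FG → MM ≠ ⊥ → S₀ ∈ alg T → S₀ ∉ nn T → ∑ i, b i ≤ m + 1 →
    (∃ᶠ β : ℕ in atTop, ∃ e₀ e₁ : ℕ, Nm d T MM β e₀ e₁ ∧
      tau m (∑ i, b i) * (e₁ + (∑ i, b i) * e₀) < C) →
    Win ((1 ⊔ T) ^ (m + 2) ⊓ nn T) (m + 1) b fun g =>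
      CP d C T (fun i => g i.castSucc) (Wr d (Fin.cons S₀ g))

/-- Module SMO: off a hypersurface the image is smooth. -/
def SmoS : Prop :=
  ∀ (t : Fin (m + 1) → K) (d : Fin (m + 1) → Derivation k K K) (U : Submodule k K), Fr t d →
    U.FG → JJ d U ≠ ⊥ → ∃ h ∈ alg U, h ≠ 0 ∧ ∀ T, Pnt U T → h ∉ nn T →
      ∀ᶠ b : ℕ in atTop, Nm d T 1 b 1 0

/-- Module GT: the set of bad pairs of a point and a tuple is small. -/
def GtS : Prop :=
  Big k (m + 2) → ∀ (t : Fin (m + 1) → K) (d : Fin (m + 1) → Derivation k K K)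
    (U M₀ : Submodule k K) (I : Type) [Fintype I] (u : I → K) (D : Set (DV k K)), Fr t d → U.FG →
    (1 : K) ∈ U → JJ d U ≠ ⊥ → span k (Set.range u) = U ^ (m + 2) → M₀.FG → D.Finite →
    (∀ w ∈ D, U ≤ w.fil 0) → (∀ T, Pnt U T → GN d (al m) (BB m) D T) →
    PF.Th.GT U fun (l : Fin (m + 2) × I → k) T => At d (cc m) D M₀ T (tup u l)

/-! ### Global modules -/

/-- Module DEF: the deficiency is superadditive. -/
def DefS : Prop :=
  ∀ (N Q V W H : Submodule k K) (a : ℕ), N.FG → V.FG → W ⊔ H = V →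
    Df N Q V W a + Df N Q V H a ≤ Df N Q V (W ⊓ H) a

/-- Module STEP: one more bad point. -/
def StepS : Prop :=
  ∀ (d : Fin (m + 1) → Derivation k K K) (S : Finset K) (A : ℕ) (R g : ℝ) (V W T : Submodule k K)
    (σ : K), V.FG → BaS d S A R V σ T → W ≤ V → ¬ W ≤ pr k σ * T → GaS d S A V W g →
    GaS d S A V (W ⊓ pr k σ * T) (g + R)

/-- Module POT: the potential drops by the gain. -/
structure PotS : Prop where
  drop : ∀ (d : Fin (m + 1) → Derivation k K K) (S : Finset K) (A : ℕ) (G g : ℝ)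
    (V V' : Submodule k K), 0 < A → V.FG → V' ≤ V → WW d V' ≠ ⊥ → GaS d S A V V' g →
    PoS d S A V G → PoS d S A V' (G - g)
  nonneg : ∀ (d : Fin (m + 1) → Derivation k K K) (S : Finset K) (A : ℕ) (G : ℝ)
    (V : Submodule k K), PoS d S A V G → 0 ≤ G
  fin : ∀ (d : Fin (m + 1) → Derivation k K K) (S : Finset K) (A : ℕ) (G : ℝ) (V : Submodule k K),
    0 < A → V.FG → PoS d S A V G → (DD d S V).Finite

/-- Module START: the first linear system. -/
def StartS : Prop :=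
  ∀ (ι : Type) [Fintype ι] (t : Fin (m + 1) → K) (d : Fin (m + 1) → Derivation k K K) (η : ι → K)
    (S : Finset K) (A r : ℕ) (R : ℝ), Fr t d → Nonempty ι →
    (∀ l, IsIntegral (Algebra.adjoin k (Set.range t)) (η l)) →
    LinearIndependent (IntermediateField.adjoin k (Set.range t)) η →
    span (IntermediateField.adjoin k (Set.range t)) (Set.range η) = ⊤ → 0 < A → Big k r →
    ((A : ℝ) + m + 2) ^ (m + 1) * (r + 1) < R * r →
    ∃ (N : ℕ) (ρ : ℝ), PoS d S A (Sta.bx k t η N) (R * ρ) ∧ ∀ V ≤ Sta.bx k t η N,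
      (finrank k (Sta.bx k t η N) : ℝ) ≤ finrank k V + ρ + 1 → WW d V ≠ ⊥

/-- Module ALB: the Albanese theorem over `K₀`. -/
def AlbPS : Prop :=
  ∀ (K₀ : Subfield K) (t : Fin (m + 1) → K) (d : Fin (m + 1) → Derivation k K K) (S : Finset K)
    (A r : ℕ) (R : ℝ), P.Gl (k := k) K₀ ⊤ → Fr t d → (∀ i, t i ∈ K₀) → (∀ x ∈ S, x ∈ K₀) → 0 < A →
    Big k r → ((A : ℝ) + m + 2) ^ (m + 1) * (r + 1) < R * r → ∃ V, P.Stb K₀ V ∧ AlbS d S A R V

/-- Module NUM: from the summed function to multiplicities. -/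
def NumS : Prop :=
  ∀ (d : Fin (m + 1) → Derivation k K K) (α B : ℕ) (R : ℝ) (D : Set (DV k K)) (T : Submodule k K),
    T.FG → (∀ w ∈ D, T ≤ w.fil 0) → 0 < α →
    ((m + 1).factorial : ℝ) * R < (B + 1) * ((α * (m + 2) : ℕ) : ℝ) ^ m →
    Gs d (α * (m + 2)) R D T → GN d α B D T

end

end Pool.Agent.R72.Res.SH

end MrgPart1

-- marker of a merged file
example : 731051 + 126597 = 731051 + 126597 := rfl
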