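import Pool.Agent.MP_19ffc6_ag.Res.SSpec

/-! PROJECT SHARP: module CORE with adaptive families. -/

namespace Pool.Agent.R72.Res.SC

open MvPolynomial Pool.Agent.R72.Res.PA Pool.Agent.R72.Res.PF.Th Submodule Core

variable {k K : Type} [Field k] [Field K] [Algebra k K] {m : ℕ} {U T : Submodule k K}

theorem trdeg_quot' {A : Type} [CommRing A] [Algebra k A] {n : ℕ} (σ : Type) [Fintype σ]
    (p : Ideal (MvPolynomial σ A)) [p.IsPrime]
    (h : Algebra.trdeg k (A ⧸ p.comap (IsScalarTower.toAlgHom k A (MvPolynomial σ A))) ≤ n) :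
    Algebra.trdeg k (MvPolynomial σ A ⧸ p) ≤ (n + Fintype.card σ : ℕ) := by
  let j := IsScalarTower.toAlgHom k A (MvPolynomial σ A)
  have : (p.comap j).IsPrime := Ideal.comap_isPrime j p
  let F : MvPolynomial σ (A ⧸ p.comap j) →ₐ[k] MvPolynomial σ A ⧸ p :=
    aevalTower (Ideal.quotientMapₐ p j le_rfl) fun i => Ideal.Quotient.mk p (X i)
  have hF : Function.Surjective F := fun z => by
    obtain ⟨P, rfl⟩ := Ideal.Quotient.mk_surjective z
    refine ⟨map (Ideal.Quotient.mk _) P, ?_⟩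
    exact RingHom.congr_fun (f := F.toRingHom.comp (map (Ideal.Quotient.mk _)))
      (g := Ideal.Quotient.mk p) (MvPolynomial.ringHom_ext (fun r => by simp [F, j])
        fun i => by simp [F]) P
  refine (trdeg_le_of_surjective F hF).trans ?_
  rw [← trdeg_add_eq k (A ⧸ p.comap j) (A := MvPolynomial σ (A ⧸ p.comap j)),
    MvPolynomial.trdeg_of_isDomain, Cardinal.lift_id, Cardinal.mk_fintype, Nat.cast_add]
  exact add_le_add_left h _

/-- A property that holds off a small set of pairs holds at all points for a general tuple. -/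
theorem gt_gen [IsAlgClosed k] (hU : U.FG) {J : Type} [Fintype J]
    {P : (J → k) → Submodule k K → Prop} (h : GT U P) : Gen fun l => ∀ T, Pnt U T → P l T := by
  classical
  obtain ⟨s, h1, h2, h3⟩ := h
  have h4 : ∀ p ∈ s, ∃ D : MvPolynomial J k, D ≠ 0 ∧ aeval X D ∈ p := fun p hp => by
    by_contra H
    push Not at H
    have := (h2 p hp).1
    have h5 : AlgebraicIndependent k fun i : J => Ideal.Quotient.mkₐ k p (X i) := by
      rw [algebraicIndependent_iff]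
      intro D hD
      by_contra h0
      exact H D h0 (Ideal.Quotient.eq_zero_iff_mem.1
        ((comp_aeval_apply X (Ideal.Quotient.mkₐ k p) D).trans hD))
    have h6 := h5.cardinalMk_le_trdeg.trans_lt (h2 p hp).2
    rw [Cardinal.mk_fintype] at h6
    exact lt_irrefl _ h6
  choose! D hD hDp using h4
  refine ⟨∏ p ∈ h1.toFinset, D p, Finset.prod_ne_zero_iff.2 fun p hp => hD p (h1.mem_toFinset.1 hp),
    fun l hl T hT => ?_⟩
  obtain ⟨x, rfl⟩ := pnt_pt hT hU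
  by_contra hP
  obtain ⟨p, hp, h5⟩ := h3 _ ⟨x, l, rfl, hT, hP⟩
  rw [map_prod] at hl
  refine Finset.prod_ne_zero_iff.1 hl p (h1.mem_toFinset.2 hp) ?_
  have h6 := h5 _ (hDp p hp)
  rw [comp_aeval_apply] at h6
  simpa only [aevalTower_X, aeval_eq_eval] using h6

/-- An open condition on points and tuples that can be forced slot by slot over a general point of
every subvariety holds off a small set. -/
theorem gen_of [IsAlgClosed k] (hU : U.FG) (h1 : (1 : K) ∈ U) {I : Type} [Fintype I] {u : I → K}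
    (hu : ∀ r, u r ∈ AU U)
    (i₀ : Fin (m + 2)) (h : AU U) (PP : Submodule k K → (Fin (m + 2) → K) → Prop)
    (hcone : ∀ (x : AU U →ₐ[k] k) (S : K) (s : Fin (m + 1) → K) (c : Fin (m + 1) → k),
      (∀ i, c i ≠ 0) → PP (Tp x) (Fin.insertNth i₀ S fun i => c i • s i) →
      PP (Tp x) (Fin.insertNth i₀ S s))
    (hopen : ∀ (x₀ : AU U →ₐ[k] k) (l₀ : Fin (m + 2) × I → k), (h : K) ∉ nn (Tp x₀) →
      tup u l₀ i₀ ∉ nn (Tp x₀) → PP (Tp x₀) (tup u l₀) →
      ∃ f : MvPolynomial (Fin (m + 2) × I) (AU U), aevalTower x₀ l₀ f ≠ 0 ∧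
        ∀ x l, aevalTower x l f ≠ 0 → PP (Tp x) (tup u l))
    (hτ : ∀ p : Ideal (AU U), p.IsPrime → h ∉ p → ∃ (N : ℕ) (f : AU U), f ∉ p ∧
      Algebra.trdeg k (AU U ⧸ p) ≤ N ∧ ∀ x : AU U →ₐ[k] k, (∀ r ∈ p, x r = 0) → x f ≠ 0 →
        (h : K) ∉ nn (Tp x) → ∀ S ∈ span k (Set.range u), S ∉ nn (Tp x) →
        ∀ b : Fin (m + 1) → ℕ, ∑ i, b i ≤ N →
          Win (span k (Set.range u)) (m + 1) b fun g => PP (Tp x) (Fin.insertNth i₀ S g)) :
    GT U fun (l : Fin (m + 2) × I → k) T => (h : K) ∉ nn T → tup u l i₀ ∉ nn T →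
      PP T (tup u l) := by
  have := finiteType_AU hU
  let j : AU U →ₐ[k] MvPolynomial I (AU U) := IsScalarTower.toAlgHom k _ _
  let S : MvPolynomial I (AU U) := ∑ r, X r * C ⟨u r, hu r⟩
  let a : (I → k) → AU U := fun η => ∑ r, η r • ⟨u r, hu r⟩
  have ha : ∀ η, (a η : K) = ∑ r, η r • u r := fun η => by simp [a]
  have hS : ∀ y : MvPolynomial I (AU U) →ₐ[k] k, y (j h * S) ≠ 0 ↔
      (h : K) ∉ nn (Tp (y.comp j)) ∧ ∑ r, y (X r) • u r ∉ nn (Tp (y.comp j)) := fun y => by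
    rw [← ha, mem_nn_Tp h1, mem_nn_Tp h1, map_mul, mul_ne_zero_iff]
    have e : y S = (y.comp j) (a fun r => y (X r)) := by
      simp only [a, S, map_sum, map_mul, map_smul, smul_eq_mul]; rfl
    rw [e]; rfl
  let θ : MvPolynomial (Fin (m + 2) × I) (AU U) →ₐ[k]
      MvPolynomial (Fin (m + 1) × I) (MvPolynomial I (AU U)) :=
    aevalTower ((IsScalarTower.toAlgHom k _ _).comp j) (ins i₀ (fun r => C (X r)) X)
  have hθ : ∀ (y : MvPolynomial I (AU U) →ₐ[k] k) (lam : Fin (m + 1) × I → k) f,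
      aevalTower y lam (θ f) = aevalTower (y.comp j) (ins i₀ (fun r => y (X r)) lam) f := by
    intro y lam f
    refine AlgHom.congr_fun (Codim.tower_ext (f := (aevalTower y lam).comp θ) (fun r => ?_)
      fun p => ?_) f
    · simp [θ, j]
    · rw [AlgHom.comp_apply, aevalTower_X, aevalTower_X]
      exact congrFun (ins_ext i₀ (f := fun p => aevalTower y lam (ins i₀ (fun r => C (X r)) X p))
        (fun r => by simp [ins_self]) fun i r => by simp [ins_succ]) p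
  refine ((codim (k := k) (μ := I) (j h * S) (m + 1) _
    (fun y lam => y (j h * S) ≠ 0 ∧ ¬ PP (Tp (y.comp j)) (tup u (ins i₀ (fun r => y (X r)) lam)))
    (fun _ _ hZ => hZ.1)
    (fun y lam c hc hZ => ⟨hZ.1, fun hP => hZ.2 (by
      rw [tup_ins] at hP ⊢
      refine hcone _ _ _ c hc ?_
      simpa only [Finset.smul_sum, smul_smul] using hP)⟩)
    (fun y lam hy hZ => by
      obtain ⟨f, hf, hf'⟩ := hopen _ (ins i₀ (fun r => y (X r)) lam) ((hS y).1 hy).1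
        (by rw [tup_ins, Fin.insertNth_apply_same]; exact ((hS y).1 hy).2)
        (not_not.1 fun hP => hZ ⟨hy, hP⟩)
      refine ⟨θ f, by rwa [hθ], fun y' lam' hZ' => ?_⟩
      rw [hθ]
      exact not_not.1 fun h0 => hZ'.2 (hf' _ _ h0))
    (fun p hp hs _ => by
      obtain ⟨N, f, hf, hN, H⟩ := hτ (p.comap j) (Ideal.comap_isPrime j p)
        fun h2 => hs (p.mul_mem_right _ h2)
      obtain ⟨y, hy, hyp⟩ := Codim.exists_pt_ne (k := k) p (s := j f * (j h * S))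
        fun h2 => (hp.mem_or_mem h2).elim hf hs
      rw [map_mul, mul_ne_zero_iff] at hy
      refine ⟨N + Fintype.card I, y, trdeg_quot' I p hN, hy.2, hyp, fun b hb => ?_⟩
      have h2 := H (y.comp j) (fun r hr => hyp _ hr) hy.1 ((hS y).1 hy.2).1 _
        (sum_mem fun r _ => smul_mem _ _ (subset_span ⟨r, rfl⟩)) ((hS y).1 hy.2).2 b (by
          rw [Fintype.card_prod, Fintype.card_fin, Nat.succ_mul (m + 1)] at hb
          omega)
      rw [← Fintype.range_linearCombination] at h2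
      refine (h2.lift _).mono le_rfl fun g _ hg hZ => hZ.2 ?_
      rw [tup_ins]
      exact hg)).comap θ).mono ?_
  rintro _ ⟨x, l, rfl, -, hP⟩
  rw [Classical.not_imp, Classical.not_imp] at hP
  let y : MvPolynomial I (AU U) →ₐ[k] k := aevalTower x fun r => l (i₀, r)
  have hy : y.comp j = x := aevalTower_comp_toAlgHom _ _
  have hyX : (fun r => y (X r)) = fun r => l (i₀, r) := funext fun r => aevalTower_X _ _ _
  have hl' : ins i₀ (fun r => y (X r)) (fun p => l (i₀.succAbove p.1, p.2)) = l :=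
    ins_ext i₀ (fun r => (ins_self _ _ _ _).trans (congrFun hyX r)) fun i r => ins_succ _ _ _ _ _
  refine ⟨_, ⟨y, fun p => l (i₀.succAbove p.1, p.2), ⟨(hS y).2 (by
    rw [hy]; simp only [congrFun hyX]; exact ⟨hP.1, hP.2.1⟩), by rw [hy, hl']; exact hP.2.2⟩, rfl⟩,
    AlgHom.ext fun f => ?_⟩
  rw [AlgHom.comp_apply, hθ, hy, hl']

theorem ld_smul' {C e : ℕ} {g : Fin e → K} {P Q : Submodule k K} {c : Fin e → k}
    (hc : ∀ i, c i ≠ 0) : Ld C T (fun i => c i • g i) P Q ↔ Ld C T g P Q := by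
  simp only [Ld, qq_mul, smul_pow, pr_smul (pow_ne_zero _ (hc _))]

theorem wr_smul' (d : Fin (m + 1) → Derivation k K K) (i₀ : Fin (m + 2)) (S : K)
    (s : Fin (m + 1) → K) {c : Fin (m + 1) → k} (hc : ∀ i, c i ≠ 0) :
    pr k (Wr d (Fin.insertNth i₀ S fun i => c i • s i)) = pr k (Wr d (Fin.insertNth i₀ S s)) := by
  let b : Fin (m + 2) → k := Fin.insertNth i₀ 1 c
  have e : (Fin.insertNth i₀ S fun i => c i • s i : Fin (m + 2) → K) =
      fun j => b j • (Fin.insertNth i₀ S s : Fin (m + 2) → K) j := by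
    funext j
    induction j using Fin.succAboveCases i₀ <;> simp [b]
  rw [e, ← wrA_apply, ← wrA_apply, AlternatingMap.map_smul_univ, pr_smul]
  refine Finset.prod_ne_zero_iff.2 fun j _ => ?_
  induction j using Fin.succAboveCases i₀ <;> simp [b, hc]

section chart

variable [IsAlgClosed k] {t : Fin (m + 1) → K} {d : Fin (m + 1) → Derivation k K K} {I : Type}
  [Fintype I] {u : I → K}

open Codim in
/-- Module CORE: over a general point of a subvariety the budget is its dimension. -/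
theorem core (D : ℕ) (i₀ : Fin (m + 2)) (e C : ℕ) (ν : Fin e → Fin (m + 1)) (Ξ : Type)
    (X P₁ Q : Ξ → Submodule k K) (hU : U.FG) (h1 : (1 : K) ∈ U)
    (hu : span k (Set.range u) = U ^ D) (hX : ∀ x, (X x).FG)
    (hW : ∀ x, WW d (alg U) * P₁ x ≤ alg U * X x) (hP : ∀ x, alg U * P₁ x ≤ P₁ x)
    (hQ : ∀ x, alg U * Q x ≤ Q x)
    (hτ : ∀ p : Ideal (AU U), p.IsPrime → ∃ (N : ℕ) (f : AU U), f ∉ p ∧
      Algebra.trdeg k (AU U ⧸ p) ≤ N ∧ ∀ T, Pnt U T → (∀ r ∈ p, (r : K) ∈ nn T) → (f : K) ∉ nn T →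
        ∀ S₀ ∈ U ^ D, S₀ ∉ nn T → ∀ b : Fin (m + 1) → ℕ, ∑ i, b i ≤ N →
          Win ((1 ⊔ T) ^ D ⊓ nn T) (m + 1) b fun g => ∃ x,
            Ld C T (fun i => g (ν i)) (alg U * X x)
              (pr k (Wr d (Fin.insertNth i₀ S₀ g)) * P₁ x ⊔ Q x)) :
    GT U fun (l : Fin (m + 2) × I → k) T => tup u l i₀ ∉ nn T → ∀ c : Fin e → k,
      (∀ i, tup u l (i₀.succAbove (ν i)) - c i • tup u l i₀ ∈ nn T) → ∃ x,
        Ld C T (fun i => tup u l (i₀.succAbove (ν i)) - c i • tup u l i₀) (alg U * X x)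
          (pr k (Wr d (tup u l)) * P₁ x ⊔ Q x) := by
  have hu' : ∀ r, u r ∈ AU U := fun r => pow_le_alg U _ (hu.le (subset_span ⟨r, rfl⟩))
  refine GT.mono (gen_of hU h1 hu' i₀ 1 (fun T s => ∀ c : Fin e → k,
      (∀ i, s (i₀.succAbove (ν i)) - c i • s i₀ ∈ nn T) → ∃ x,
        Ld C T (fun i => s (i₀.succAbove (ν i)) - c i • s i₀) (alg U * X x)
          (pr k (Wr d s) * P₁ x ⊔ Q x)) (fun x S s c hc h c' hc' => ?_)
    (fun x₀ l₀ _ hs h => ?_) fun p hp _ => ?_) fun l T hT h => h hT.2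
  · simp only [Fin.insertNth_apply_same, Fin.insertNth_apply_succAbove] at h hc' ⊢
    have e : ∀ i, c (ν i) • s (ν i) - (c (ν i) * c' i) • S = c (ν i) • (s (ν i) - c' i • S) :=
      fun i => by simp [smul_sub, smul_smul]
    obtain ⟨ξ, hξ⟩ := h (fun i => c (ν i) * c' i) fun i => e i ▸ smul_mem _ _ (hc' i)
    simp only [e] at hξ
    rw [ld_smul' fun i => hc (ν i), wr_smul' d i₀ S s hc] at hξ
    exact ⟨ξ, hξ⟩
  · let j : AU U →ₐ[k] MvPolynomial (Fin (m + 2) × I) (AU U) := IsScalarTower.toAlgHom k _ _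
    let g : Fin e → (MvPolynomial (Fin (m + 2) × I) (AU U) →ₐ[k] k) → K := fun i z =>
      z (vB hu' i₀) • sF U u (i₀.succAbove (ν i)) z - z (vB hu' (i₀.succAbove (ν i))) • sF U u i₀ z
    have hg : ∀ (x : AU U →ₐ[k] k) l (c : Fin e → k),
        (∀ i, tup u l (i₀.succAbove (ν i)) - c i • tup u l i₀ ∈ nn (Tp x)) →
        (fun i => g i (aevalTower x l)) = fun i => aevalTower x l (vB hu' i₀) •
          (tup u l (i₀.succAbove (ν i)) - c i • tup u l i₀) := fun x l c hc => funext fun i => by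
      have h2 := (mem_nn_Tp h1 x (⟨_, tup_mem (N := alg U) hu' l (i₀.succAbove (ν i))⟩ -
        c i • ⟨_, tup_mem (N := alg U) hu' l i₀⟩)).1 (hc i)
      rw [map_sub, map_smul, sub_eq_zero, smul_eq_mul] at h2
      simp only [g, sF_tower, vB_tower, h2, smul_sub, smul_smul, mul_comm]
    have h0 : aevalTower x₀ l₀ (vB hu' i₀) ≠ 0 := fun h0 =>
      hs ((mem_nn_Tp h1 x₀ ⟨_, _⟩).2 ((vB_tower hu' x₀ l₀ i₀).symm.trans h0))
    let c₀ : Fin e → k := fun i =>
      aevalTower x₀ l₀ (vB hu' (i₀.succAbove (ν i))) / aevalTower x₀ l₀ (vB hu' i₀)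
    have hc₀ : ∀ i, tup u l₀ (i₀.succAbove (ν i)) - c₀ i • tup u l₀ i₀ ∈ nn (Tp x₀) := fun i =>
      (mem_nn_Tp h1 x₀ (⟨_, tup_mem (N := alg U) hu' l₀ (i₀.succAbove (ν i))⟩ -
        c₀ i • ⟨_, tup_mem (N := alg U) hu' l₀ i₀⟩)).2 (by
          rw [map_sub, map_smul, ← vB_tower hu', ← vB_tower hu', smul_eq_mul,
            div_mul_cancel₀ _ h0, sub_self])
    obtain ⟨ξ, hξ⟩ := h c₀ hc₀
    obtain ⟨f, hf, hf'⟩ := ld_open (C := C) hU h1 j (hX ξ) g (fun z => Wr d fun i => sF U u i z)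
      (fun i => sub_mem (smul_fam (sF_mem hu' _) _) (smul_fam (sF_mem hu' _) _)) (wF_mem hu' d)
      (hW ξ) (hP ξ) (hQ ξ) (aevalTower x₀ l₀) (by
        rw [hg x₀ l₀ c₀ hc₀, ld_smul h0, aevalTower_comp_toAlgHom]
        simpa only [sF_tower] using hξ)
    refine ⟨f * vB hu' i₀, by rw [map_mul]; exact mul_ne_zero hf h0, fun x l hz c hc => ⟨ξ, ?_⟩⟩
    rw [map_mul, mul_ne_zero_iff] at hz
    have := hf' _ hz.1
    rw [hg x l c hc, ld_smul hz.2, aevalTower_comp_toAlgHom] at this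
    simpa only [sF_tower] using this
  · obtain ⟨N, f, hf, hN, H⟩ := hτ p hp
    refine ⟨N, f, hf, hN, fun x hx hxf _ S hS hS' b hb => ?_⟩
    refine (H _ (pnt_Tp h1 x) (fun r hr => (mem_nn_Tp h1 x r).2 (hx r hr))
      (fun h2 => hxf ((mem_nn_Tp h1 x f).1 h2)) S (hu.le hS) hS' b hb).mono ?_ fun g hg h2 c hc => ?_
    · rw [hu, ← sup_Tp h1 x]; exact inf_le_left
    · simp only [Fin.insertNth_apply_same, Fin.insertNth_apply_succAbove] at hc ⊢
      have h3 : ∀ i, c i = 0 := fun i => not_not.1 fun h0 => hS'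
        ((smul_mem_iff _ h0).1 ((sub_mem_iff_right _ (hg _).2).1 (hc i)))
      simpa only [h3, zero_smul, sub_zero] using h2

/-- Module CORE with the budget `m + 1` at all points. -/
theorem core_all (D : ℕ) (i₀ : Fin (m + 2)) (e C : ℕ) (ν : Fin e → Fin (m + 1)) (Ξ : Type)
    (X P₁ Q : Ξ → Submodule k K) (hF : Fr t d) (hU : U.FG) (h1 : (1 : K) ∈ U)
    (hu : span k (Set.range u) = U ^ D) (hX : ∀ x, (X x).FG)
    (hW : ∀ x, WW d (alg U) * P₁ x ≤ alg U * X x) (hP : ∀ x, alg U * P₁ x ≤ P₁ x)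
    (hQ : ∀ x, alg U * Q x ≤ Q x)
    (hτ : ∀ T, Pnt U T → ∀ S₀ ∈ U ^ D, S₀ ∉ nn T → ∀ b : Fin (m + 1) → ℕ, ∑ i, b i ≤ m + 1 →
      Win ((1 ⊔ T) ^ D ⊓ nn T) (m + 1) b fun g => ∃ x,
        Ld C T (fun i => g (ν i)) (alg U * X x)
          (pr k (Wr d (Fin.insertNth i₀ S₀ g)) * P₁ x ⊔ Q x)) :
    GT U fun (l : Fin (m + 2) × I → k) T => tup u l i₀ ∉ nn T → ∀ c : Fin e → k,
      (∀ i, tup u l (i₀.succAbove (ν i)) - c i • tup u l i₀ ∈ nn T) → ∃ x,
        Ld C T (fun i => tup u l (i₀.succAbove (ν i)) - c i • tup u l i₀) (alg U * X x)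
          (pr k (Wr d (tup u l)) * P₁ x ⊔ Q x) :=
  core D i₀ e C ν Ξ X P₁ Q hU h1 hu hX hW hP hQ fun p hp =>
    ⟨m + 1, 1, (Ideal.ne_top_iff_one p).1 hp.ne_top, (trdeg_le_of_surjective
      (Ideal.Quotient.mkₐ k p) (Ideal.Quotient.mkₐ_surjective k p)).trans (trdeg_AU hF U),
      fun T hT _ _ => hτ T hT⟩

/-- Module CORE with the budget `m` on a hypersurface and `m + 1` off it. -/
theorem core_hyp (D : ℕ) (i₀ : Fin (m + 2)) (e C : ℕ) (ν : Fin e → Fin (m + 1)) (Ξ : Type)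
    (X P₁ Q : Ξ → Submodule k K) (hF : Fr t d) (hU : U.FG) (h1 : (1 : K) ∈ U)
    (hu : span k (Set.range u) = U ^ D) (hX : ∀ x, (X x).FG)
    (hW : ∀ x, WW d (alg U) * P₁ x ≤ alg U * X x) (hP : ∀ x, alg U * P₁ x ≤ P₁ x)
    (hQ : ∀ x, alg U * Q x ≤ Q x) {h : K} (hh : h ∈ alg U) (h0 : h ≠ 0)
    (hτ : ∀ T, Pnt U T → ∀ S₀ ∈ U ^ D, S₀ ∉ nn T → ∀ b : Fin (m + 1) → ℕ, ∑ i, b i ≤ m + 1 →
      (h ∈ nn T → ∑ i, b i ≤ m) → Win ((1 ⊔ T) ^ D ⊓ nn T) (m + 1) b fun g => ∃ x,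
        Ld C T (fun i => g (ν i)) (alg U * X x)
          (pr k (Wr d (Fin.insertNth i₀ S₀ g)) * P₁ x ⊔ Q x)) :
    GT U fun (l : Fin (m + 2) × I → k) T => tup u l i₀ ∉ nn T → ∀ c : Fin e → k,
      (∀ i, tup u l (i₀.succAbove (ν i)) - c i • tup u l i₀ ∈ nn T) → ∃ x,
        Ld C T (fun i => tup u l (i₀.succAbove (ν i)) - c i • tup u l i₀) (alg U * X x)
          (pr k (Wr d (tup u l)) * P₁ x ⊔ Q x) := by
  refine core D i₀ e C ν Ξ X P₁ Q hU h1 hu hX hW hP hQ fun p hp => ?_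
  by_cases hp' : (⟨h, hh⟩ : AU U) ∈ p
  · exact ⟨m, 1, (Ideal.ne_top_iff_one p).1 hp.ne_top,
      Bpf.trdeg_quot m (trdeg_AU hF U) p hp' fun z => h0 (congrArg Subtype.val z),
      fun T hT _ _ S hS hS' b hb => hτ T hT S hS hS' b (hb.trans m.le_succ) fun _ => hb⟩
  · exact ⟨m + 1, ⟨h, hh⟩, hp', (trdeg_le_of_surjective
      (Ideal.Quotient.mkₐ k p) (Ideal.Quotient.mkₐ_surjective k p)).trans (trdeg_AU hF U),
      fun T hT _ h2 S hS hS' b hb => hτ T hT S hS hS' b hb fun h3 => absurd h3 h2⟩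

end chart

end Pool.Agent.R72.Res.SC
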