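import Pool.Agent.MP_19ffc6_ag.Res.SSpec

/-! PROJECT SHARP, module DEF: the deficiency is superadditive. -/

namespace Pool.Agent.R72.Res.SH

open Pool.Agent.R72.Wild Pool.Agent.R72.Res.PA Pool.Agent.R72.Res.PA.Num Submodule Module

variable {k K : Type} [Field k] [Field K] [Algebra k K]

namespace Def

/-- The rank modulo `Q` is submodular. -/
theorem sub_mod {A B C D : Submodule k K} (Q : Submodule k K) (hA : A.FG) (hB : B.FG)
    (h1 : C ≤ A) (h2 : C ≤ B) (h3 : D ≤ A ⊔ B) : cod D Q + cod C Q ≤ cod A Q + cod B Q := by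
  have := Module.Finite.iff_fg.2 (hA.map Q.mkQ)
  have := Module.Finite.iff_fg.2 (hB.map Q.mkQ)
  unfold cod
  rw [← finrank_sup_add_finrank_inf_eq (A.map Q.mkQ) (B.map Q.mkQ)]
  exact add_le_add (finrank_mono ((map_mono h3).trans (Submodule.map_sup _ _ _).le))
    (finrank_mono (le_inf (map_mono h1) (map_mono h2)))

theorem fg_of_le {A B : Submodule k K} (hB : B.FG) (h : A ≤ B) : A.FG :=
  have := Module.Finite.iff_fg.2 hB
  Module.Finite.iff_fg.1 (finiteDimensional_of_le h)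

theorem sup_pow_le (W H : Submodule k K) (p q : ℕ) :
    (W ⊔ H) ^ (p + q + 1) ≤ (W ⊔ H) ^ q * W ^ (p + 1) ⊔ (W ⊔ H) ^ p * H ^ (q + 1) := by
  conv_lhs => rw [← Submodule.add_eq_sup, add_pow]
  refine Finset.sum_induction _ (· ≤ _) (fun _ _ => sup_le) bot_le fun i hi => ?_
  have hi := Finset.mem_range.1 hi
  rw [natCast_eq_one (Nat.choose_pos (Nat.lt_succ_iff.1 hi)).ne', mul_one]
  rcases le_or_gt i p with c | c
  · obtain ⟨s, rfl⟩ := Nat.exists_eq_add_of_le c
    rw [show i + s + q + 1 - i = s + (q + 1) by omega, pow_add H, ← mul_assoc, pow_add _ i]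
    refine le_sup_of_le_right ?_
    gcongr
    exacts [le_sup_left, le_sup_right]
  · obtain ⟨s, rfl⟩ := Nat.exists_eq_add_of_lt c
    obtain ⟨u, rfl⟩ := Nat.exists_eq_add_of_le (show s ≤ q by omega)
    rw [show p + (s + u) + 1 - (p + s + 1) = u by omega, show p + s + 1 = s + (p + 1) by omega,
      pow_add W, mul_right_comm, pow_add _ s]
    refine le_sup_of_le_left ?_
    gcongr
    exacts [le_sup_left, le_sup_right]

theorem le_pow {V W : Submodule k K} (h : W ≤ V) {a j : ℕ} (hj : j ≤ a) :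
    V ^ (a - j) * W ^ j ≤ V ^ a := by
  conv_rhs => rw [← Nat.sub_add_cancel hj, pow_add]
  gcongr

theorem key (Q : Submodule k K) {U V W H : Submodule k K} (hV : V.FG) (h : W ⊔ H = V) (hW : U ≤ W)
    (hH : U ≤ H) (a : ℕ) : ∀ N : Submodule k K, N.FG →
    (a + 1) * cod (N * V ^ a) Q + ∑ j ∈ Finset.range (a + 1), cod (N * (V ^ (a - j) * U ^ j)) Q ≤
      ∑ j ∈ Finset.range (a + 1), cod (N * (V ^ (a - j) * W ^ j)) Q +
        ∑ j ∈ Finset.range (a + 1), cod (N * (V ^ (a - j) * H ^ j)) Q := by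
  have w1 : W ≤ V := h ▸ le_sup_left
  have w2 : H ≤ V := h ▸ le_sup_right
  have w3 : U.FG := fg_of_le hV (hW.trans w1)
  induction a with
  | zero => simp
  | succ a ih =>
    intro N hN
    have i1 := ih (N * U) (hN.mul w3)
    have f1 : (N * U * V ^ a).FG := (hN.mul w3).mul (hV.pow a)
    have f2 : ∀ Y ≤ V, ∀ i j, (N * (V ^ i * Y ^ j)).FG := fun Y hY i j =>
      hN.mul ((hV.pow i).mul ((fg_of_le hV hY).pow j))
    have s1 : ∀ Y ≤ V, U ≤ Y → ∑ j ∈ Finset.range (a + 1),
        (cod (N * (V ^ (a - j) * Y ^ (j + 1)) ⊔ N * U * V ^ a) Q +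
          cod (N * U * (V ^ (a - j) * Y ^ j)) Q) ≤ ∑ j ∈ Finset.range (a + 1),
        (cod (N * (V ^ (a - j) * Y ^ (j + 1))) Q + cod (N * U * V ^ a) Q) := fun Y h1 h2 =>
      Finset.sum_le_sum fun j hj => sub_mod Q (f2 Y h1 _ _) f1 (by
        rw [pow_succ, mul_assoc, mul_comm U, mul_assoc]
        gcongr) (mul_le_mul' le_rfl (le_pow h1 (Nat.lt_succ_iff.1 (Finset.mem_range.1 hj)))) le_rfl
    have s2 : ∑ j ∈ Finset.range (a + 1), (cod (N * V ^ (a + 1)) Q + cod (N * U * V ^ a) Q) ≤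
        ∑ j ∈ Finset.range (a + 1), (cod (N * (V ^ (a - j) * W ^ (j + 1)) ⊔ N * U * V ^ a) Q +
          cod (N * (V ^ (a - (a - j)) * H ^ (a - j + 1)) ⊔ N * U * V ^ a) Q) :=
      Finset.sum_le_sum fun j hj => sub_mod Q ((f2 W w1 _ _).sup f1) ((f2 H w2 _ _).sup f1)
        le_sup_right le_sup_right (by
          have hj := Nat.lt_succ_iff.1 (Finset.mem_range.1 hj)
          have := sup_pow_le W H j (a - j)
          rw [h, Nat.add_sub_cancel' hj] at this
          rw [Nat.sub_sub_self hj]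
          exact ((mul_le_mul' le_rfl this).trans (Submodule.mul_sup _ _ _).le).trans
            (sup_le_sup le_sup_left le_sup_left))
    have s3 := Finset.sum_flip (n := a)
      fun j => cod (N * (V ^ (a - j) * H ^ (j + 1)) ⊔ N * U * V ^ a) Q
    have s4 : ∀ j, N * U * (V ^ (a - j) * U ^ j) = N * (V ^ (a - j) * U ^ (j + 1)) := fun j => by
      ring
    have s5 := s1 W w1 hW
    have s6 := s1 H w2 hH
    simp only [Finset.sum_add_distrib, Finset.sum_const, Finset.card_range, smul_eq_mul, s3,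
      s4] at s2 s5 s6 i1
    simp only [Finset.sum_range_succ' _ (a + 1), Nat.add_sub_add_right, Nat.sub_zero, pow_zero,
      mul_one, add_mul (a + 1), one_mul]
    omega

end Def

theorem defS : DefS k K := by
  intro N Q V W H a hN hV h
  have e : ∀ Y ≤ V, Df N Q V Y a + ∑ j ∈ Finset.range (a + 1), cod (N * (V ^ (a - j) * Y ^ j)) Q =
      (a + 1) * cod (N * V ^ a) Q := fun Y hY => by
    rw [Df, ← Finset.sum_add_distrib, Finset.sum_congr rfl fun j hj => ?_, Finset.sum_const,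
      Finset.card_range, smul_eq_mul]
    rw [sup_comm]
    exact cod_add (mul_le_mul' le_rfl (Def.le_pow hY (Nat.lt_succ_iff.1 (Finset.mem_range.1 hj))))
      ((hN.mul (hV.pow a)).map _)
  have w1 : W ≤ V := h ▸ le_sup_left
  have w2 : H ≤ V := h ▸ le_sup_right
  have e1 := e W w1
  have e2 := e H w2
  have e3 := e (W ⊓ H) (inf_le_left.trans w1)
  have e4 := Def.key Q hV h inf_le_left inf_le_right a N hN
  omega

end Pool.Agent.R72.Res.SH
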