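import Pool.Agent.MP_19ffc6_ag.Res.SSpec

/-! PROJECT SHARP, module DIM: `m` elements do not cut out a point of a variety of dimension
`m + 1`. -/

namespace Pool.Agent.R72.Res.SH

open Pool.Agent.R72.Wild Pool.Agent.R72.Res.PA Pool.Agent.R72.Res.PA.LocK Submodule

namespace Dim

/-- The determinant trick for a faithful module. -/
theorem mem_of_smul {R K : Type} [CommRing R] [Field K] [Algebra R K]
    (hinj : Function.Injective (algebraMap R K)) {P : Submodule R K} (hP : P.FG) (h0 : P ≠ ⊥)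
    (q : Ideal R) [hq : q.IsPrime] {z : R} (hz : ∀ x ∈ P, z • x ∈ q • P) : z ∈ q := by
  have : Module.Finite R P := Module.Finite.iff_fg.2 hP
  have h1 : (⟨q, hq⟩ : PrimeSpectrum R) ∈ Module.support R (P ⧸ (q • ⊤ : Submodule R P)) := by
    rw [Module.support_quotient]
    refine ⟨Module.mem_support_iff_of_finite.2 fun r hr => ?_, fun r hr => hr⟩
    obtain ⟨x, hx, x0⟩ := Submodule.exists_mem_ne_zero_of_ne_bot h0
    have h2 : r • x = 0 := congrArg Subtype.val (Module.mem_annihilator.1 hr ⟨x, hx⟩)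
    rw [Algebra.smul_def, mul_eq_zero, or_iff_left x0, ← map_zero (algebraMap R K)] at h2
    rw [hinj h2]
    exact zero_mem _
  refine Module.mem_support_iff_of_finite.1 h1 (Module.mem_annihilator.2 fun y => ?_)
  obtain ⟨x, rfl⟩ := Submodule.Quotient.mk_surjective _ y
  rw [← Submodule.Quotient.mk_smul, Submodule.Quotient.mk_eq_zero, Submodule.mem_smul_top_iff]
  exact hz x x.2

theorem core {R K : Type} [CommRing R] [IsNoetherianRing R] [Field K] [Algebra R K]
    (hinj : Function.Injective (algebraMap R K)) {P : Submodule R K} (hP : P.FG) (h0 : P ≠ ⊥)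
    {I q p : Ideal R} [hq : q.IsPrime] (hqp : q ≤ p) (hIp : I ≤ p) (hp : p ≠ ⊤) (N : ℕ)
    (h : I ^ N • P ≤ q • P ⊔ I • (I ^ N • P)) : I ≤ q := by
  obtain ⟨r, hr, h1⟩ := exists_sub_one_mem_and_smul_le_of_fg_of_le_sup
    (Submodule.FG.smul (IsNoetherian.noetherian (I ^ N)) hP) le_rfl h
  intro y hy
  have h2 : r * y ^ N ∈ q := mem_of_smul hinj hP h0 q fun x hx => by
    rw [mul_smul]
    exact h1 (Submodule.smul_mem_pointwise_smul _ _ _
      (Submodule.smul_mem_smul (Ideal.pow_mem_pow hy N) hx))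
  rcases hq.mem_or_mem h2 with h3 | h3
  · exact absurd ((Ideal.eq_top_iff_one p).2 (by simpa using p.sub_mem (hqp h3) (hIp hr))) hp
  · exact hq.mem_of_pow_mem _ h3

/-- A prime below `p` that contains `n` given elements, with a loss of at most `n` dimensions. -/
theorem chain {k R : Type} [Field k] [CommRing R] [IsDomain R] [Algebra k R]
    [Algebra.FiniteType k R] (p : Ideal R) [p.IsPrime] (n : ℕ) (g : Fin n → R)
    (hg : ∀ i, g i ∈ p) : ∃ q : Ideal R, q.IsPrime ∧ q ≤ p ∧ (∀ i, g i ∈ q) ∧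
      Algebra.trdeg k R ≤ Algebra.trdeg k (R ⧸ q) + n := by
  induction n with
  | zero =>
    refine ⟨⊥, Ideal.isPrime_bot, bot_le, fun i => i.elim0, ?_⟩
    rw [(AlgEquiv.quotientBot k R).trdeg_eq]
    simp
  | succ n ih =>
    obtain ⟨q, hq, h1, h2, h3⟩ := ih (fun i => g i.succ) fun i => hg _
    by_cases h : g 0 ∈ q
    · exact ⟨q, hq, h1, fun i => Fin.cases h h2 i,
        h3.trans (add_le_add_right (by exact_mod_cast n.le_succ) _)⟩
    · obtain ⟨q', h4, h5⟩ := Ideal.exists_minimalPrimes_le (I := q ⊔ Ideal.span {g 0}) (J := p)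
        (sup_le h1 ((Ideal.span_singleton_le_iff_mem _).2 (hg 0)))
      refine ⟨q', h4.isPrime, h5, fun i => Fin.cases
        (h4.le (Ideal.mem_sup_right (Ideal.mem_span_singleton_self _)))
        (fun i => h4.le (Ideal.mem_sup_left (h2 i))) i, ?_⟩
      rw [← PF.Kr.krull' (k := k) h h4, add_assoc, add_comm 1] at h3
      exact_mod_cast h3

variable {k K : Type} [Field k] [Field K] [Algebra k K]

/-- The ideal of `k[T]` generated by `Y`. -/
def idl (T Y : Submodule k K) : Ideal (Algebra.adjoin k (T : Set K)) :=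
  Ideal.span {r | (r : K) ∈ Y}

theorem idl_smul {T Y : Submodule k K} (hY : Y ≤ alg T)
    (Q : Submodule (Algebra.adjoin k (T : Set K)) K) :
    (idl T Y • Q).restrictScalars k = Y * Q.restrictScalars k := by
  have key : ∀ r ∈ idl T Y, ∀ x ∈ Q, r • x ∈ Y * Q.restrictScalars k := fun r hr => by
    induction hr using Submodule.span_induction with
    | mem r hr => exact fun x hx => mul_mem_mul (m := (r : K)) (n := x) hr hx
    | zero => exact fun x _ => by rw [zero_smul]; exact zero_mem _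
    | add a b _ _ ha hb => exact fun x hx => by rw [add_smul]; exact add_mem (ha x hx) (hb x hx)
    | smul a r _ hr =>
      exact fun x hx => by rw [smul_eq_mul, mul_comm a r, mul_smul]; exact hr _ (Q.smul_mem a hx)
  refine le_antisymm (fun x hx => ?_) (mul_le.2 fun y hy x hx => ?_)
  · rw [restrictScalars_mem] at hx
    exact Submodule.smul_induction_on (p := fun x => x ∈ Y * Q.restrictScalars k) hx key
      fun _ _ h1 h2 => add_mem h1 h2
  · rw [restrictScalars_mem] at hx ⊢
    exact Submodule.smul_mem_smul (r := (⟨y, hY hy⟩ : Algebra.adjoin k (T : Set K)))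
      (Ideal.subset_span hy) hx

theorem idl_pow (T : Submodule k K) (Q : Submodule (Algebra.adjoin k (T : Set K)) K) (N : ℕ) :
    (idl T T ^ N • Q).restrictScalars k = T ^ N * Q.restrictScalars k := by
  induction N with
  | zero => simp
  | succ N ih => rw [pow_succ', Submodule.mul_smul, idl_smul (le_alg T), ih, pow_succ', mul_assoc]

theorem span_eq (T X : Submodule k K) :
    (span (Algebra.adjoin k (T : Set K)) (X : Set K)).restrictScalars k = alg T * X := by
  refine le_antisymm (fun x hx => ?_) (mul_le.2 fun y hy x hx => ?_)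
  · induction hx using Submodule.span_induction with
    | mem x hx => simpa using mul_mem_mul (Num.one_mem_alg T) hx
    | zero => exact zero_mem _
    | add a b _ _ ha hb => exact add_mem ha hb
    | smul a x _ hx => exact ((md_alg T).mul' X).mem a.2 hx
  · exact Submodule.smul_mem _ (⟨y, hy⟩ : Algebra.adjoin k (T : Set K)) (subset_span hx)

theorem mem_idl {T : Submodule k K} {r : Algebra.adjoin k (T : Set K)} :
    r ∈ idl T T ↔ (r : K) ∈ nn T := by
  constructor
  · intro hr
    induction hr using Submodule.span_induction with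
    | mem r hr => exact GenM.le_nn T hr
    | zero => exact zero_mem _
    | add a b _ _ ha hb => exact add_mem ha hb
    | smul a r _ hr => exact (md_nn T).mem a.2 hr
  · intro hr
    have : nn T ≤ ((idl T T).restrictScalars k).map (Subalgebra.val _).toLinearMap :=
      mul_le.2 fun y hy x hx => ⟨⟨y, le_alg T hy⟩ * ⟨x, hx⟩,
        Ideal.mul_mem_right _ _ (Ideal.subset_span hy), rfl⟩
    obtain ⟨s, hs, e⟩ := this hr
    rwa [← Subtype.ext e]

theorem trdeg_zero {T : Submodule k K} {q : Ideal (Algebra.adjoin k (T : Set K))}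
    (h : idl T T ≤ q) : Algebra.trdeg k (Algebra.adjoin k (T : Set K) ⧸ q) = 0 := by
  have : Algebra.IsIntegral k (Algebra.adjoin k (T : Set K) ⧸ q) := ⟨fun y => by
    obtain ⟨⟨x, hx⟩, rfl⟩ := Ideal.Quotient.mkₐ_surjective k q y
    induction hx using Algebra.adjoin_induction with
    | mem x hx =>
      rw [Ideal.Quotient.mkₐ_eq_mk, Ideal.Quotient.eq_zero_iff_mem.2 (h (Ideal.subset_span hx))]
      exact isIntegral_zero
    | algebraMap c =>
      exact ((Ideal.Quotient.mkₐ k q).commutes c).symm ▸ isIntegral_algebraMap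
    | add a b ha hb h1 h2 =>
      exact (map_add (Ideal.Quotient.mkₐ k q) ⟨a, ha⟩ ⟨b, hb⟩).symm ▸ h1.add h2
    | mul a b ha hb h1 h2 =>
      exact (map_mul (Ideal.Quotient.mkₐ k q) ⟨a, ha⟩ ⟨b, hb⟩).symm ▸ h1.mul h2⟩
  exact trdeg_eq_zero

end Dim

variable {k K : Type} [Field k] [Field K] [Algebra k K] {m : ℕ}

theorem dimS : DimS k K m := by
  intro t d T X g N hF hT hJ h1 hX hX0 hg h
  have := Bpf.ft hT
  have := Algebra.FiniteType.isNoetherianRing k (Algebra.adjoin k (T : Set K))
  obtain ⟨p, hp, hIp⟩ := Ideal.exists_le_maximal (Dim.idl T T)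
    ((Ideal.ne_top_iff_one _).2 fun e => h1 (Dim.mem_idl.1 e))
  have hga : ∀ i, g i ∈ alg T := fun i => (md_alg T).le (le_alg T) (hg i)
  obtain ⟨q, hq, hqp, hgq, h3⟩ := Dim.chain (k := k) p m (fun i => ⟨g i, hga i⟩)
    fun i => hIp (Dim.mem_idl.2 (hg i))
  have hG : span k (Set.range g) ≤ alg T := span_le.2 (Set.range_subset_iff.2 hga)
  have hGq : Dim.idl T (span k (Set.range g)) ≤ q := Ideal.span_le.2 fun r hr => by
    have : span k (Set.range g) ≤ (q.restrictScalars k).map (Subalgebra.val _).toLinearMap :=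
      span_le.2 (Set.range_subset_iff.2 fun i => ⟨_, hgq i, rfl⟩)
    obtain ⟨s, hs, e⟩ := this hr
    rwa [← Subtype.ext e]
  have hP : (span (Algebra.adjoin k (T : Set K)) (X : Set K)).FG := by
    obtain ⟨s, rfl⟩ := hX
    rw [span_span_of_tower]
    exact ⟨s, rfl⟩
  have hP0 : span (Algebra.adjoin k (T : Set K)) (X : Set K) ≠ ⊥ := fun e =>
    hX0 (eq_bot_iff.2 fun x hx => (eq_bot_iff.1 e (subset_span hx) :))
  have h4 : Dim.idl T T ≤ q := Dim.core Subtype.val_injective hP hP0 hqp hIp hp.ne_top N <| by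
    refine le_trans (fun x hx => ?_) (sup_le_sup_right (smul_mono_left hGq) _)
    rw [← restrictScalars_mem k, Dim.idl_pow, Dim.span_eq] at hx
    obtain ⟨a, ha, b, hb, rfl⟩ := mem_sup.1 (h hx)
    refine add_mem (mem_sup_left ?_) (mem_sup_right ?_)
    · rwa [← restrictScalars_mem k, Dim.idl_smul hG, Dim.span_eq]
    · rwa [← restrictScalars_mem k, ← Submodule.mul_smul, ← pow_succ', Dim.idl_pow, Dim.span_eq]
  obtain ⟨u, hu, u0⟩ : ∃ u : Fin (m + 1) → K, (∀ i, u i ∈ T) ∧ Jac d u ≠ 0 := by
    by_contra hc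
    refine hJ (span_eq_bot.2 ?_)
    rintro _ ⟨u, hu, rfl⟩
    exact not_not.1 fun e => hc ⟨u, hu, e⟩
  have h5 : AlgebraicIndependent k fun i => (⟨u i, le_alg T (hu i)⟩ : Algebra.adjoin k (T : Set K)) :=
    .of_comp (Subalgebra.val _) (hF.of_jac u0).ind
  have h6 := h5.cardinalMk_le_trdeg.trans h3
  rw [Dim.trdeg_zero h4, zero_add, Cardinal.mk_fin, Nat.cast_le] at h6
  omega

end Pool.Agent.R72.Res.SH
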