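import Pool.Agent.MP_19ffc6_ag.Res.SFSpec

/-! PROJECT SHARP, module AR: the lemma of Artin and Rees. -/

namespace Pool.Agent.R72.Res.SF

open Pool.Agent.R72.Wild Pool.Agent.R72.Res.PA Pool.Agent.R72.Res.PF Submodule

variable {k K : Type} [Field k] [Field K] [Algebra k K]

namespace Ar

/-- a subspace stable under a subalgebra, as a module over it -/
def md (R : Subalgebra k K) (N : Submodule k K) (h : R.toSubmodule * N ≤ N) : Submodule R K where
  carrier := N
  add_mem' := N.add_mem
  zero_mem' := N.zero_mem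
  smul_mem' r _ hx := h (mul_mem_mul r.2 hx)

lemma mem_md {R : Subalgebra k K} {N : Submodule k K} (h : R.toSubmodule * N ≤ N) {x : K} :
    x ∈ md R N h ↔ x ∈ N := Iff.rfl

lemma rs_md {R : Subalgebra k K} {N : Submodule k K} (h : R.toSubmodule * N ≤ N) :
    (md R N h).restrictScalars k = N := by
  ext; rw [restrictScalars_mem, mem_md]

lemma st (R : Subalgebra k K) (P : Submodule R K) :
    R.toSubmodule * P.restrictScalars k ≤ P.restrictScalars k :=
  mul_le.2 fun r hr _ hx => P.smul_mem (⟨r, hr⟩ : R) hx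

lemma sm (R : Subalgebra k K) (T : Submodule k K) (hT : T ≤ R.toSubmodule) (P : Submodule R K) :
    (Ideal.span {r : R | r.1 ∈ T} • P).restrictScalars k = T * P.restrictScalars k := by
  refine le_antisymm ?_ (mul_le.2 fun t ht x hx => ?_)
  swap
  · have h1 : (⟨t, hT ht⟩ : R) ∈ Ideal.span {r : R | r.1 ∈ T} := Ideal.subset_span ht
    have h2 : (⟨t, hT ht⟩ : R) • x ∈ Ideal.span {r : R | r.1 ∈ T} • P := smul_mem_smul h1 hx
    exact (restrictScalars_mem _ _ _).2 h2
  have h : R.toSubmodule * (T * P.restrictScalars k) ≤ T * P.restrictScalars k := by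
    rw [mul_left_comm]; exact mul_le_mul_right (st R P) _
  have h' : Ideal.span {r : R | r.1 ∈ T} • P ≤ md R _ h := by
    rw [span_smul_eq]
    refine set_smul_le _ _ _ fun r x hr hx => (mem_md h).2 ?_
    have : r.1 * x ∈ T * P.restrictScalars k := mul_mem_mul hr ((restrictScalars_mem _ _ _).2 hx)
    exact this
  exact fun x hx => (mem_md h).1 (h' ((restrictScalars_mem _ _ _).1 hx))

lemma pw (R : Subalgebra k K) (T : Submodule k K) (hT : T ≤ R.toSubmodule) (P : Submodule R K)
    (n : ℕ) :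
    (Ideal.span {r : R | r.1 ∈ T} ^ n • P).restrictScalars k = T ^ n * P.restrictScalars k := by
  induction n with
  | zero => simp
  | succ n ih => rw [pow_succ', Submodule.mul_smul, sm R T hT, ih, pow_succ', mul_assoc]

end Ar

theorem ar : ArS k K := by
  intro T X N hT hX h1 h2
  set R := Algebra.adjoin k (T : Set K) with hR
  have hTR : T ≤ R.toSubmodule := fun t ht => Algebra.subset_adjoin ht
  have : IsNoetherianRing R := by
    obtain ⟨s, rfl⟩ := hT
    exact isNoetherianRing_of_fg ⟨s, by rw [hR, Algebra.adjoin_span]⟩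
  have h3 : R.toSubmodule * (alg T * X) ≤ alg T * X := by
    rw [← mul_assoc]
    exact mul_le_mul_left (mul_le.2 fun a ha b hb => R.mul_mem ha hb) _
  set M := Ar.md R _ h3 with hM
  have : Module.Finite R M := by
    obtain ⟨s, rfl⟩ := hX
    refine Module.Finite.iff_fg.2 ⟨s, le_antisymm (span_le.2 fun x hx => ?_) ?_⟩
    · have := mul_mem_mul (M := alg T) R.one_mem (subset_span (R := k) hx)
      rw [one_mul] at this
      exact (Ar.mem_md h3).2 this
    · have : alg T * span k (s : Set K) ≤ (span R (s : Set K)).restrictScalars k :=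
        (mul_le_mul_right (span_le_restrictScalars k R _) _).trans (Ar.st R _)
      exact fun x hx => (restrictScalars_mem _ _ _).1 (this ((Ar.mem_md h3).1 hx))
  obtain ⟨c, hc⟩ := (Ideal.span {r : R | r.1 ∈ T}).exists_pow_inf_eq_pow_smul
    ((Ar.md R N h2).comap M.subtype)
  refine ⟨c, fun L x hx => ?_⟩
  have e1 : x ∈ (Ideal.span {r : R | r.1 ∈ T} ^ (L + c) • M).restrictScalars k := by
    rw [Ar.pw R T hTR, Ar.rs_md]; exact (mem_inf.1 hx).1
  have e0 : Ideal.span {r : R | r.1 ∈ T} ^ (L + c) • M =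
      map M.subtype (Ideal.span {r : R | r.1 ∈ T} ^ (L + c) • ⊤) := by
    rw [map_smul'', map_subtype_top]
  rw [restrictScalars_mem, e0] at e1
  obtain ⟨y, hy, rfl⟩ := e1
  have hy' : y ∈ (Ar.md R N h2).comap M.subtype := mem_comap.2 ((Ar.mem_md h2).2 (mem_inf.1 hx).2)
  have e2 := mem_map_of_mem (f := M.subtype) ((hc (L + c) (by omega)).le (mem_inf.2 ⟨hy, hy'⟩))
  rw [map_smul'', Nat.add_sub_cancel] at e2
  have e3 : M.subtype y ∈ Ideal.span {r : R | r.1 ∈ T} ^ L • Ar.md R N h2 :=
    Submodule.smul_mono le_rfl ((map_mono inf_le_right).trans (map_comap_le _ _)) e2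
  rw [← restrictScalars_mem k, Ar.pw R T hTR, Ar.rs_md] at e3
  exact e3

end Pool.Agent.R72.Res.SF
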