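import Mathlib.RingTheory.PicardGroup
import Pool.Agent.Lib.helper72.RM.M05
import Pool.Agent.MP_19ffc6_ag.Res.SFSpec

/-! PROJECT SHARP, module DW: the components of the polar divisor. -/

namespace Pool.Agent.R72.Res.SF

open Pool.Agent.R72.Wild Pool.Agent.R72.Res.PA Pool.Agent.R72.Res.PF Submodule Filter Module
  Pool.Agent.R72.Res.PA.Num Pool.Agent.R72.Res.PA.St

variable {k K : Type} [Field k] [Field K] [Algebra k K] {m : ℕ}

namespace Dw

theorem val_vr (w : DV k K) : Val w.vr := fun x => by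
  rcases le_total 0 (w.ord x) with h | h
  · exact Or.inl (mem_fil_of_le h)
  · exact Or.inr (mem_fil_of_le (by rw [ord_inv]; omega))

theorem alg_mul (T : Submodule k K) : alg T * alg T = alg T :=
  le_antisymm (mul_le.2 fun _ hx _ hy => (Algebra.adjoin k (T : Set K)).mul_mem hx hy)
    fun x hx => by simpa using mul_mem_mul (one_mem_alg T) hx

theorem le_alg (T : Submodule k K) : T ≤ alg T := fun _ hx => Algebra.subset_adjoin hx

theorem pow_alg (T : Submodule k K) (n : ℕ) : T ^ n * alg T ≤ alg T := by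
  induction n with
  | zero => simp
  | succ n ih =>
    rw [pow_succ', mul_assoc]
    exact (mul_le_mul' (le_alg T) ih).trans (alg_mul T).le

theorem alg_le_nor (T : Submodule k K) : alg T ≤ (Nor T).toSubmodule := fun _ hx O _ h =>
  (Algebra.adjoin_le (S := O) h) hx

theorem nor_le {T : Submodule k K} {w : DV k K} (h : T ≤ w.fil 0) :
    (Nor T).toSubmodule ≤ w.fil 0 := fun _ hx => hx w.vr (val_vr w) h

theorem nor_of_int {T : Submodule k K} {x : K}
    (h : IsIntegral (Algebra.adjoin k (T : Set K)) x) : x ∈ Nor T := fun O hO hT =>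
  hO.mem_of_isIntegral (Algebra.adjoin_le (S := O) hT) h

theorem fg_one : (1 : Submodule k K).FG := one_eq_span (R := k) (A := K) ▸ fg_span_singleton 1

theorem nor_fin [PerfectField k] {n : ℕ} {T : Submodule k K} (h : Fld n T) :
    ∃ A : Submodule k K, A.FG ∧ (1 : K) ∈ A ∧ alg T * A = (Nor T).toSubmodule := by
  have := h.eft
  have := h.alg
  have : Algebra.FiniteType k (Algebra.adjoin k (T : Set K)) := by
    obtain ⟨s, rfl⟩ := h.fg
    rw [Algebra.adjoin_span]
    exact (Subalgebra.fg_iff_finiteType _).1 (Subalgebra.fg_adjoin_finset s)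
  obtain ⟨s, hs⟩ : (integralClosure (Algebra.adjoin k (T : Set K)) K).toSubmodule.FG :=
    Module.Finite.iff_fg.1 (finite_icl k _ K)
  refine ⟨1 ⊔ span k s, fg_one.sup (fg_span s.finite_toSet), mem_sup_left (one_le.1 le_rfl),
    le_antisymm (mul_le.2 fun x hx y hy => (Nor T).mul_mem (alg_le_nor T hx) ?_) fun x hx => ?_⟩
  · refine (sup_le (one_le.2 (Nor T).one_mem) (span_le.2 fun z hz => ?_) :
      _ ≤ (Nor T).toSubmodule) hy
    exact nor_of_int (show z ∈ (integralClosure _ K).toSubmodule from hs ▸ subset_span hz)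
  · have hi : x ∈ (integralClosure (Algebra.adjoin k (T : Set K)) K).toSubmodule :=
      isIntegral_of_val fun V hV hD => hx V hV fun u hu => hD (Algebra.subset_adjoin hu)
    rw [← hs] at hi
    clear hx
    induction hi using span_induction with
    | mem z hz => simpa using mul_mem_mul (one_mem_alg T) (mem_sup_right (subset_span hz))
    | zero => exact zero_mem _
    | add _ _ _ _ a b => exact add_mem a b
    | smul c z _ a =>
      have := mul_mem_mul (show (c : K) ∈ alg T from c.2) a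
      rwa [← mul_assoc, alg_mul] at this

theorem denom {n : ℕ} {T J : Submodule k K} (h : Fld n T) (hJ : J.FG) :
    ∃ δ : K, δ ≠ 0 ∧ ∀ j ∈ J, δ * j ∈ Nor T := by
  have := h.alg
  obtain ⟨s, rfl⟩ := hJ
  obtain ⟨y, hy, H⟩ := Algebra.IsAlgebraic.exists_integral_multiples
    (Algebra.adjoin k (T : Set K)) s
  refine ⟨y, by simpa using hy, fun j hj => ?_⟩
  induction hj using span_induction with
  | mem z hz => exact nor_of_int (H z hz)
  | zero => simp
  | add _ _ _ _ a b => rw [mul_add]; exact add_mem a b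
  | smul c z _ a => rw [mul_smul_comm]; exact (Nor T).smul_mem a c

theorem cod_sum {ι : Type} (D : Finset ι) (Q : Submodule k K) (R S : ι → Submodule k K) :
    ∀ P : Submodule k K, Fd P Q → (∀ w ∈ D, R w ≤ P) → (∀ w ∈ D, P ⊓ Q ≤ S w) →
      (∀ w ∈ D, ∀ w' ∈ D, w' ≠ w → R w ≤ S w') → ∑ w ∈ D, cod (R w) (S w) ≤ cod P Q := by
  classical
  induction D using Finset.induction_on with
  | empty => simp
  | insert v D hv ih =>
    intro P hf h1 h2 h3
    have a := Finset.mem_insert_self v D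
    have i := ih (P ⊓ S v) (cod_mono inf_le_left (fun _ _ h => h) hf).1
      (fun w h => le_inf (h1 w (Finset.mem_insert_of_mem h))
        (h3 w (Finset.mem_insert_of_mem h) v a fun e => hv (e ▸ h)))
      (fun w h => (inf_le_inf_right _ inf_le_left).trans (h2 w (Finset.mem_insert_of_mem h)))
      fun w h w' h' => h3 w (Finset.mem_insert_of_mem h) w' (Finset.mem_insert_of_mem h')
    have b := (cod_mono (Q := S v) (Q' := Q ⊔ P ⊓ S v) (h1 v a) (fun x hx hq => by
      obtain ⟨q, hq', p, hp, rfl⟩ := mem_sup.1 hq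
      exact add_mem (h2 v a ⟨(add_mem_cancel_right hp.1).1 (h1 v a hx), hq'⟩) hp.2)
      (cod_mono le_rfl (fun _ _ h => mem_sup_left h) hf).1).2
    rw [Finset.sum_insert hv, ← cod_add (R := P ⊓ S v) inf_le_left hf]
    omega

/-- A power of `T` is reduced by `Y` modulo `I`. -/
def Gd (T Y I : Submodule k K) : Prop :=
  ∃ n : ℕ, T ^ (n + 1) * alg T ≤ Y * (T ^ n * alg T) ⊔ T ^ (n + 2) * alg T ⊔ T ^ (n + 1) * alg T ⊓ I

variable {T Y I I' I'' : Submodule k K}

theorem red_le (hY : Y ≤ T) (n : ℕ) :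
    Y * (T ^ n * alg T) ⊔ T ^ (n + 2) * alg T ≤ T ^ (n + 1) * alg T := by
  refine sup_le ?_ ?_
  · rw [pow_succ', mul_assoc]; exact mul_le_mul_left hY _
  · rw [pow_succ _ (n + 1), mul_assoc]
    exact mul_le_mul_right (by simpa using pow_alg T 1) _

theorem Gd.of_le (h : alg T ≤ I) : Gd T Y I :=
  ⟨0, le_sup_of_le_right (le_inf le_rfl ((pow_alg T _).trans h))⟩

theorem Gd.mul (h : Gd T Y I) (h' : Gd T Y I')
    (H : (alg T ⊓ I) * (alg T ⊓ I') ≤ I'') : Gd T Y I'' := by
  obtain ⟨n, h⟩ := h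
  obtain ⟨n', h'⟩ := h'
  have e : ∀ a b : ℕ, T ^ a * alg T * (T ^ b * alg T) = T ^ (a + b) * alg T := fun a b => by
    rw [mul_mul_mul_comm, alg_mul, pow_add]
  refine ⟨n + n' + 1, ?_⟩
  rw [show n + n' + 1 + 1 = (n + 1) + (n' + 1) by ring, ← e]
  refine (mul_le_mul_left h _).trans ?_
  rw [Submodule.sup_mul, Submodule.sup_mul]
  have r1 : ∀ a b : ℕ, a + b = n + n' + 1 → Y * (T ^ a * alg T) * (T ^ b * alg T) ≤
      Y * (T ^ (n + n' + 1) * alg T) := fun a b hab => by rw [mul_assoc, e, hab]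
  have r2 : ∀ a b : ℕ, a + b = n + n' + 1 + 2 → T ^ a * alg T * (T ^ b * alg T) ≤
      T ^ (n + n' + 1 + 2) * alg T := fun a b hab => by rw [e, hab]
  refine sup_le (le_sup_of_le_left (sup_le_sup (r1 _ _ (by ring)) (r2 _ _ (by ring))))
    ((mul_le_mul_right h' _).trans ?_)
  rw [Submodule.mul_sup, Submodule.mul_sup]
  refine sup_le_sup (sup_le_sup ?_ ?_) (le_inf (mul_le_mul' inf_le_left inf_le_left) ?_)
  · rw [mul_comm]
    exact (mul_le_mul_right inf_le_left _).trans (r1 _ _ (by ring))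
  · exact (mul_le_mul_left inf_le_left _).trans (r2 _ _ (by ring))
  · exact (mul_le_mul' (inf_le_inf_right _ (pow_alg T _))
      (inf_le_inf_right _ (pow_alg T _))).trans H

theorem Gd.of_rd {ι : Type} {y : ι → K} (hy : ∀ i, y i ∈ T) (h : Rd T 1 y (alg T) I) :
    Gd T (span k (Set.range y)) I := by
  obtain ⟨n, h⟩ := h
  refine ⟨n, (le_inf h le_rfl).trans ?_⟩
  rw [sup_inf_assoc_of_le _ (red_le (span_le.2 (Set.range_subset_iff.2 hy)) n), inf_comm]

theorem Gd.inf (a : DV k K → ℕ) (D : Finset (DV k K))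
    (h0 : ∀ w ∈ D, alg T ≤ w.fil 0) (h : ∀ w ∈ D, Gd T Y (w.fil 1)) :
    Gd T Y (D.inf fun w => w.fil (a w)) := by
  classical
  induction D using Finset.induction_on with
  | empty => exact Gd.of_le (by simp)
  | insert v D hv ih =>
    have hv0 := h0 v (Finset.mem_insert_self v D)
    have h1 : ∀ c : ℕ, Gd T Y (v.fil c) := fun c => by
      induction c with
      | zero => exact Gd.of_le hv0
      | succ c ic =>
        exact ic.mul (h v (Finset.mem_insert_self v D))
          (by push_cast; exact mul_le_fil inf_le_right inf_le_right)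
    refine (h1 (a v)).mul (ih (fun w hw => h0 w (Finset.mem_insert_of_mem hw))
      fun w hw => h w (Finset.mem_insert_of_mem hw)) ?_
    rw [Finset.inf_insert]
    refine le_inf ?_ (Finset.le_inf fun w hw => ?_)
    · simpa using mul_le_fil (w := v) inf_le_right (inf_le_left.trans hv0)
    · have := Finset.inf_le (f := fun w : DV k K => w.fil (a w)) hw
      simpa using mul_le_fil (w := w) (inf_le_left.trans (h0 w (Finset.mem_insert_of_mem hw)))
        (inf_le_right.trans this)

end Dw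

open Dw

theorem dw_of [PerfectField k] (h1 : DvkS k K m) (h2 : ArS k K) : DwS k K m := by
  classical
  intro T J W hT hdep hJ hWJ hW
  obtain ⟨A₀, fA, oA, eA⟩ := nor_fin hT
  obtain ⟨δ, hδ, hδJ⟩ := denom hT hJ
  obtain ⟨G, hG, hK⟩ := h1 T (δ * W) hT (hδJ W hWJ) (mul_ne_zero hδ hW)
  set D := G.filter fun w => w.ordS J < w.ord W with hD
  have hDG : ∀ w ∈ D, w ∈ G := fun w h => (Finset.mem_filter.1 h).1
  obtain ⟨e, he⟩ := exists_approx D
  have hN : ∀ w ∈ G, (Nor T).toSubmodule ≤ w.fil 0 := fun w h => nor_le (hG w h).1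
  have hA : ∀ w ∈ G, alg T ≤ w.fil 0 := fun w h => (alg_le_nor T).trans (hN w h)
  have hA₀ : A₀ ≤ (Nor T).toSubmodule := fun x hx => by
    simpa [eA] using mul_mem_mul (one_mem_alg T) hx
  set E := (1 ⊔ span k (e '' D)) * A₀ with hE
  have fE : E.FG := (fg_one.sup (fg_span (D.finite_toSet.image e))).mul fA
  have eE : ∀ w ∈ D, e w ∈ E := fun w h => by
    simpa using mul_mem_mul (mem_sup_right (S := 1)
      (Submodule.subset_span (s := e '' D) ⟨w, h, rfl⟩)) oA
  have hEf : ∀ w ∈ D, E ≤ w.fil 0 := fun w h => by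
    have : 1 ⊔ span k (e '' D) ≤ w.fil 0 := sup_le one_le_fil (span_le.2 (by
      rintro _ ⟨v, -, rfl⟩
      by_cases hv : w = v
      · subst hv; exact mem_fil_of_le (he w).2.1.ge
      · exact fil_anti zero_le_one ((he v).2.2 w h hv)))
    simpa using mul_le_fil this (hA₀.trans (hN w (hDG w h)))
  refine ⟨D, E, fE, by simpa using mul_mem_mul (mem_sup_left (one_le.1 le_rfl)) oA,
    fun w h => ⟨(hG w (hDG w h)).1, ?_, hdep w⟩, fun X b fX hX => ?_⟩
  · obtain ⟨g, g1, g2⟩ := (hG w (hDG w h)).2.2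
    exact ⟨g, fun i => le_alg T (g1 i), g2⟩
  have hJ0 : J ≠ ⊥ := fun h => hW (by simpa [h] using hWJ)
  have fam := fam_Mb hT.fg hJ (fE.mul fX)
  have aM : ∀ c, alg T * Mb T J (E * X) c = Mb T J (E * X) c := fun c => by
    rw [Mb, ← mul_assoc, alg_mul]
  have nM : (Nor T).toSubmodule * Mb T J (E * X) b ≤ Mb T J (E * X) b := by
    have e1 : Mb T J (E * X) b = (Nor T).toSubmodule * ((1 ⊔ span k (e '' D)) * (X * J ^ b)) := by
      rw [← eA, Mb, hE]; ring
    rw [e1, ← mul_assoc]
    exact mul_le_mul_left (mul_le.2 fun _ hx _ hy => (Nor T).mul_mem hx hy) _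
  refine ⟨?_, fun n y hy hr => ?_⟩
  · have fZ : (X * J ^ (b + 1)).FG := fX.mul (hJ.pow _)
    have hm : ∀ w : DV k K, ∃ x, w.Min (X * J ^ (b + 1)) x ∧
        pr k W * (X * J ^ b) ≤ w.fil (w.ord x + (w.ord W - w.ordS J)) := fun w => by
      obtain ⟨x, hx⟩ := exists_min w fX hX
      obtain ⟨j, hj⟩ := exists_min w hJ hJ0
      have p := min_pow hJ hj (b + 1)
      have o : w.ord (x * j ^ (b + 1)) = w.ordS X + (b + 1 : ℕ) * w.ordS J := by
        rw [w.mul _ _ hx.2.1 p.2.1, ord_pow, hx.2.2, hj.2.2]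
      refine ⟨x * j ^ (b + 1), min_of_le (mul_mem_mul hx.1 p.1) (mul_ne_zero hx.2.1 p.2.1)
        (o ▸ mul_le_fil (le_fil_ordS w fX) (pow_le_fil (le_fil_ordS w hJ) _)), ?_⟩
      refine (mul_le_fil ((span_singleton_le_iff_mem _ _).2 (mem_fil_of_le le_rfl))
        (mul_le_fil (le_fil_ordS w fX) (pow_le_fil (le_fil_ordS w hJ) b))).trans (fil_anti ?_)
      rw [o]; push_cast; ring_nf; exact le_rfl
    choose x hx hx' using hm
    have oε : ∀ w : DV k K, w.ord (e w * x w) = w.ordS (X * J ^ (b + 1)) := fun w => by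
      rw [w.mul _ _ (he w).1 (hx w).2.1, (he w).2.1, (hx w).2.2, zero_add]
    set P := Mb T J (E * X) (b + 1) with hP
    set P₁ := span k ((fun w => e w * x w) '' D) * alg T with hP₁
    set Q₀ := P ⊓ D.inf fun w => w.fil (w.ordS (X * J ^ (b + 1)) + 1) with hQ₀
    have l1 : P₁ ≤ P := by
      rw [hP₁, mul_comm]
      refine mul_le_mul_right (span_le.2 ?_) _
      rintro _ ⟨w, hw, rfl⟩
      rw [mul_assoc]
      exact mul_mem_mul (eE w hw) (hx w).1
    have qw : ∀ w ∈ D, Q₀ ≤ w.fil (w.ordS (X * J ^ (b + 1)) + 1) := fun w hw =>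
      inf_le_right.trans (Finset.inf_le
        (f := fun w : DV k K => w.fil (w.ordS (X * J ^ (b + 1)) + 1)) hw)
    have aQ : alg T * Q₀ ≤ Q₀ :=
      le_inf ((mul_le_mul_right inf_le_left _).trans (aM _).le) (Finset.le_inf fun w hw => by
        simpa using mul_le_fil (hA w (hDG w hw)) (qw w hw))
    have l2 : pr k W * Mb T J (E * X) b ≤ Q₀ := by
      refine le_inf ?_ (Finset.le_inf fun w hw => ?_)
      · rw [hP, fam.succ]
        exact mul_le_mul_left ((span_singleton_le_iff_mem _ _).2 hWJ) _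
      · have e1 : pr k W * Mb T J (E * X) b = alg T * E * (pr k W * (X * J ^ b)) := by
          rw [Mb]; ring
        rw [e1]
        refine (mul_le_fil (mul_le_fil (hA w (hDG w hw)) (hEf w hw)) (hx' w)).trans (fil_anti ?_)
        have := (Finset.mem_filter.1 hw).2
        rw [(hx w).2.2]
        omega
    obtain ⟨c, hc⟩ := h2 T (E * X * J ^ (b + 1)) (P₁ ⊔ Q₀) hT.fg ((fE.mul fX).mul (hJ.pow _))
      (sup_le l1 inf_le_left) (by
        rw [Submodule.mul_sup]
        exact sup_le_sup (by rw [hP₁, mul_left_comm, alg_mul]) aQ)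
    refine ⟨c, fun L => ?_⟩
    have fd : Fd P (T ^ (L + c) * P ⊔ pr k W * Mb T J (E * X) b) := fam.fd' le_rfl le_sup_left
    obtain ⟨fd1, c1⟩ := cod_mono l1 (fun _ _ h => h) fd
    let S : DV k K → Submodule k K := fun w =>
      pr k (e w * x w) * (T ^ L * alg T) ⊔ w.fil (w.ordS (X * J ^ (b + 1)) + 1)
    have s1 : ∀ w ∈ D, pr k (e w * x w) * alg T ≤ P₁ := fun w hw =>
      mul_le_mul_left ((span_singleton_le_iff_mem _ _).2
        (Submodule.subset_span (s := (fun w => e w * x w) '' D) ⟨w, hw, rfl⟩)) _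
    have s3 : ∀ w ∈ D, ∀ w' ∈ D, w' ≠ w →
        pr k (e w * x w) * alg T ≤ w'.fil (w'.ordS (X * J ^ (b + 1)) + 1) := fun w _ w' hw' h => by
      have := mul_le_fil ((span_singleton_le_iff_mem _ _).2 (DV.mul_fil ((he w).2.2 w' hw' h)
        (le_fil_ordS w' fZ (hx w).1))) (hA w' (hDG w' hw'))
      rwa [add_zero, add_comm] at this
    have s2 : ∀ w ∈ D, P₁ ⊓ (T ^ (L + c) * P ⊔ pr k W * Mb T J (E * X) b) ≤ S w := by
      intro w hw z ⟨z1, z2⟩
      obtain ⟨p, hp, q, hq, rfl⟩ := mem_sup.1 z2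
      have hq' := l2 hq
      have q1 : Q₀ ≤ S w := le_sup_of_le_right (qw w hw)
      refine add_mem ?_ (q1 hq')
      have hp' := hc L ⟨hp, (add_mem_cancel_right (mem_sup_right hq')).1 (mem_sup_left z1)⟩
      rw [Submodule.mul_sup] at hp'
      refine (sup_le ?_ ?_ : _ ≤ S w) hp'
      · rw [hP₁, mul_left_comm, ← Submodule.le_div_iff_mul_le, span_le]
        rintro _ ⟨v, hv, rfl⟩
        refine mem_div_iff_forall_mul_mem.2 fun t ht => ?_
        have := mul_mem_mul (mem_span_singleton_self (R := k) (e v * x v)) ht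
        by_cases hvw : w = v
        · subst hvw; exact mem_sup_left this
        · exact mem_sup_right (s3 v hv w hw hvw (mul_le_mul_right (pow_alg T L) _ this))
      · refine le_trans ?_ (aQ.trans q1)
        exact mul_le_mul_left (fun t ht => pow_alg T L
          (by simpa using mul_mem_mul ht (one_mem_alg T))) _
    refine le_trans (Finset.sum_le_sum fun w hw => ?_) ((cod_sum D _
      (fun w => pr k (e w * x w) * alg T) S P₁ fd1 s1 s2
      fun w hw w' hw' h => le_sup_of_le_right (s3 w hw w' hw' h)).trans c1)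
    refine (cod_le_of_inj (e w * x w) (fun a ha => mem_pr_mul.2 ⟨a, ha, rfl⟩) (fun a _ h => ?_)
      (cod_mono (s1 w hw) (fun z hz h => s2 w hw ⟨s1 w hw hz, h⟩) fd1).1).2
    obtain ⟨p, hp, f, hf, h⟩ := mem_sup.1 h
    obtain ⟨t, ht, rfl⟩ := mem_pr_mul.1 hp
    have : e w * x w * (a - t) ∈ w.fil (w.ord (e w * x w) + 1) := by
      rw [mul_sub, ← h, add_sub_cancel_left, oε]; exact hf
    simpa using add_mem (mem_sup_left ht)
      (mem_sup_right ((mul_mem_fil (mul_ne_zero (he w).1 (hx w).2.1)).1 this))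
  · obtain ⟨c, hc⟩ := Gd.inf (fun w => (w.ord W - w.ordS J).toNat) D
      (fun w h => hA w (hDG w h)) fun w h => Gd.of_rd hy (hr w h)
    have key : (alg T ⊓ D.inf fun w => w.fil ((w.ord W - w.ordS J).toNat : ℕ)) * J ≤
        pr k W * (Nor T).toSubmodule := by
      refine mul_le.2 fun q hq j hj => mem_pr_mul.2 ⟨q * j / W, hK _ 1 ?_ fun w hw => ?_,
        mul_div_cancel₀ _ hW⟩
      · rw [show (δ * W) ^ 1 * (q * j / W) = q * (δ * j) by field_simp]
        exact (Nor T).mul_mem (alg_le_nor T hq.1) (hδJ j hj)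
      · rw [← mul_mem_fil (w := w) hW, mul_div_cancel₀ _ hW]
        by_cases h : w ∈ D
        · refine fil_anti ?_ (DV.mul_fil (Finset.inf_le
            (f := fun w : DV k K => w.fil ((w.ord W - w.ordS J).toNat : ℕ)) h hq.2)
            (le_fil_ordS w hJ hj))
          omega
        · refine fil_anti ?_ (DV.mul_fil (hA w hw hq.1) (le_fil_ordS w hJ hj))
          have : ¬ w.ordS J < w.ord W := fun h' => h (Finset.mem_filter.2 ⟨hw, h'⟩)
          omega
    refine ⟨c, ?_⟩
    rw [← aM (b + 1), ← mul_assoc]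
    refine (mul_le_mul_left hc _).trans ?_
    rw [Submodule.sup_mul, Submodule.sup_mul]
    refine sup_le_sup (sup_le_sup (le_of_eq (by ring)) (le_of_eq (by ring))) ?_
    rw [fam.succ, ← mul_assoc]
    refine (mul_le_mul_left ((mul_le_mul_left (inf_le_inf_right _ (pow_alg T _)) _).trans key)
      _).trans ?_
    rw [mul_assoc]
    exact mul_le_mul_right nM _

end Pool.Agent.R72.Res.SF
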