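import Pool.Agent.MP_19ffc6_ag.Res.SFSpec
import Pool.Agent.Lib.helper72.RM.M05

/-! PROJECT SHARP, finite ground fields: modules POLAR and CNT0. -/

namespace Pool.Agent.R72.Res.SF

open Pool.Agent.R72.Res.PA Pool.Agent.R72.Res.PA.Num Pool.Agent.R72.Res.PA.St Submodule

namespace Polar

variable {k K : Type} [Field k] [Field K] [Algebra k K] {T : Submodule k K} {G : Finset (DV k K)}

theorem alg_le_fil {v : DV k K} (h : T ≤ v.fil 1) : alg T ≤ v.fil 0 := fun _ hx =>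
  Algebra.adjoin_le (S := v.vr) (fun _ hy => fil_anti zero_le_one (h hy)) hx

theorem ordS_mul (v : DV k K) {U V : Submodule k K} (hU : U.FG) (hV : V.FG) (h1 : U ≠ ⊥)
    (h2 : V ≠ ⊥) : v.ordS (U * V) = v.ordS U + v.ordS V := by
  obtain ⟨σ, a1, a2, a3⟩ := exists_min v hU h1
  obtain ⟨τ, b1, b2, b3⟩ := exists_min v hV h2
  have e : v.ord (σ * τ) = v.ordS U + v.ordS V := by rw [v.mul _ _ a2 b2, a3, b3]
  rw [← e]
  exact (min_of_le (mul_mem_mul a1 b1) (mul_ne_zero a2 b2)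
    (e ▸ mul_le_fil (le_fil_ordS v hU) (le_fil_ordS v hV))).2.2.symm

theorem mul_ne_bot {U V : Submodule k K} (h1 : U ≠ ⊥) (h2 : V ≠ ⊥) : U * V ≠ ⊥ := by
  obtain ⟨x, hx, x0⟩ := exists_mem_ne_zero_of_ne_bot h1
  obtain ⟨y, hy, y0⟩ := exists_mem_ne_zero_of_ne_bot h2
  exact (Submodule.ne_bot_iff _).2 ⟨_, mul_mem_mul hx hy, mul_ne_zero x0 y0⟩

theorem pow_ne_bot {U : Submodule k K} (h : U ≠ ⊥) (n : ℕ) : U ^ n ≠ ⊥ := by
  obtain ⟨x, hx, x0⟩ := exists_mem_ne_zero_of_ne_bot h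
  exact (Submodule.ne_bot_iff _).2 ⟨_, pow_mem_pow _ hx n, pow_ne_zero _ x0⟩

/-- The valuative filtration of the module generated by `Y`. -/
noncomputable def FF (T Y : Submodule k K) (G : Finset (DV k K)) (c : DV k K → ℤ) (L : ℕ) :
    Submodule k K :=
  alg T * Y ⊓ G.inf fun v => v.fil (L * v.ordS T + c v)

theorem mem_FF {Y : Submodule k K} {c : DV k K → ℤ} {L : ℕ} {x : K} :
    x ∈ FF T Y G c L ↔ x ∈ alg T * Y ∧ ∀ v ∈ G, x ∈ v.fil (L * v.ordS T + c v) := by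
  simp only [FF, mem_inf, mem_finsetInf]

theorem fam0 (hT : T.FG) {Y : Submodule k K} (hY : Y.FG) (L : ℕ) :
    T ^ L * (alg T * Y) ≤ alg T * Y ∧ Fd (alg T * Y) (T ^ L * (alg T * Y)) := by
  have h := fam_Mb hT hT hY
  exact ⟨by simpa [Mb] using h.pow_le L 0, by simpa [Mb] using h.fd 0 L⟩

theorem pow_le_FF (hT : T.FG) (hG : ∀ v ∈ G, T ≤ v.fil 1) {Y : Submodule k K} (hY : Y.FG)
    {c : DV k K → ℤ} (hc : ∀ v ∈ G, Y ≤ v.fil (c v)) (L : ℕ) :
    T ^ L * (alg T * Y) ≤ FF T Y G c L :=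
  le_inf (fam0 hT hY L).1 (Finset.le_inf fun v hv => by
    simpa only [zero_add] using mul_le_fil (pow_le_fil (le_fil_ordS v hT) L)
      (mul_le_fil (alg_le_fil (hG v hv)) (hc v hv)))

theorem fd_FF (hT : T.FG) (hG : ∀ v ∈ G, T ≤ v.fil 1) {Y : Submodule k K} (hY : Y.FG)
    {c : DV k K → ℤ} (hc : ∀ v ∈ G, Y ≤ v.fil (c v)) (L : ℕ) {P Q : Submodule k K}
    (hP : P ≤ alg T * Y) (hQ : FF T Y G c L ≤ Q) : Fd P Q :=
  (cod_mono hP (fun _ _ hx => hQ (pow_le_FF hT hG hY hc L hx)) (fam0 hT hY L).2).1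

theorem cod_sum_le {ι : Type} (D : Finset ι) (Q R : ι → Submodule k K) {Z Z' : Submodule k K}
    (hZ : Fd Z Z') (h2 : ∀ w ∈ D, Z' ≤ Q w) (h3 : ∀ w ∈ D, R w ≤ Z)
    (h4 : ∀ w ∈ D, ∀ w' ∈ D, w' ≠ w → R w ≤ Q w') : ∑ w ∈ D, cod (R w) (Q w) ≤ cod Z Z' := by
  classical
  induction D using Finset.induction_on generalizing Z with
  | empty => simp
  | insert v D hv ih =>
    have a := Finset.mem_insert_self v D
    have := ih (Z := Z ⊓ Q v) (cod_mono inf_le_left (fun _ _ h => h) hZ).1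
      (fun w h => h2 w (Finset.mem_insert_of_mem h))
      (fun w h => le_inf (h3 w (Finset.mem_insert_of_mem h))
        (h4 w (Finset.mem_insert_of_mem h) v a fun e => hv (e ▸ h)))
      fun w h w' h' => h4 w (Finset.mem_insert_of_mem h) w' (Finset.mem_insert_of_mem h')
    have b := (cod_mono (Q := Q v) (Q' := Z' ⊔ Z ⊓ Q v) (h3 v a)
      (fun _ _ h => sup_le (h2 v a) inf_le_right h)
      (cod_mono le_rfl (fun _ _ h => mem_sup_left h) hZ).1).2
    rw [Finset.sum_insert hv, ← cod_add (R := Z ⊓ Q v) inf_le_left hZ]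
    omega

/-- Multiplication by an element of least order shifts the valuative filtration. -/
theorem shift (hT : T.FG) (hG : ∀ v ∈ G, T ≤ v.fil 1) {Y J : Submodule k K} (hY : Y.FG)
    (hJ : J.FG) (h1 : Y ≠ ⊥) (h2 : J ≠ ⊥) {W : K} (hW : W ∈ J) (hm : ∀ v ∈ G, v.Min J W) (L : ℕ) :
    cod (alg T * (Y * J)) (FF T (Y * J) G (fun v => v.ordS (Y * J)) L ⊔ pr k W * (alg T * Y)) +
      cod (alg T * Y) (FF T Y G (fun v => v.ordS Y) L) =
      cod (alg T * (Y * J)) (FF T (Y * J) G (fun v => v.ordS (Y * J)) L) := by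
  have a1 : ∀ x ∈ alg T * Y, W * x ∈ alg T * (Y * J) := fun x hx => by
    rw [← mul_assoc, mul_comm W]
    exact mul_mem_mul hx hW
  have a2 : ∀ v ∈ G, ∀ x, W * x ∈ v.fil (L * v.ordS T + v.ordS (Y * J)) ↔
      x ∈ v.fil (L * v.ordS T + v.ordS Y) := fun v hv x => by
    rw [← mul_mem_fil (x := x) (hm v hv).2.1, (hm v hv).2.2, ordS_mul v hY hJ h1 h2, ← add_assoc,
      add_comm (v.ordS J)]
  rw [← cod_pr_mul (Q' := FF T (Y * J) G (fun v => v.ordS (Y * J)) L) W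
    (fun x hx => mem_FF.2 ⟨a1 x (mem_FF.1 hx).1, fun v hv => (a2 v hv x).2 ((mem_FF.1 hx).2 v hv)⟩)
    (fun x hx h => mem_FF.2 ⟨hx, fun v hv => (a2 v hv x).1 ((mem_FF.1 h).2 v hv)⟩)
    (fd_FF hT hG hY (fun v _ => le_fil_ordS v hY) L le_rfl le_rfl)]
  refine cod_add (fun y hy => ?_)
    (fd_FF hT hG (hY.mul hJ) (fun v _ => le_fil_ordS v (hY.mul hJ)) L le_rfl le_rfl)
  obtain ⟨x, hx, rfl⟩ := mem_pr_mul.1 hy
  exact a1 x hx

end Polar

open Polar

variable (k K : Type) [Field k] [Field K] [Algebra k K] (m : ℕ)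

theorem polar : PolarS k K m := by
  intro T J MM G W W₁ b h hJ hJ0 hM hM0 hW hW₁ h1 h2
  have hY := hM.mul (hJ.pow b)
  have hY0 := mul_ne_bot hM0 (pow_ne_bot hJ0 b)
  have hc : ∀ v ∈ G, MM * J ^ b * J ≤ v.fil (v.ordS (MM * J ^ b * J)) := fun v _ =>
    le_fil_ordS v (hY.mul hJ)
  obtain ⟨e, he⟩ := h.cpl _ (hY.mul hJ)
  refine ⟨e, fun L => ?_⟩
  have e1 := shift h.fg h.pos hY hJ hY0 hJ0 hW h1 (L + e)
  have e2 := shift h.fg h.pos hY hJ hY0 hJ0 hW₁ h2 (L + e)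
  simp only [Mb, pow_succ, ← mul_assoc MM]
  refine ((cod_mono le_rfl (fun x _ hx => sup_le_sup_right (he L) _ hx)
    (fd_FF h.fg h.pos (hY.mul hJ) hc (L + e) le_rfl le_sup_left)).2.trans
      (le_of_eq (Nat.add_right_cancel (e1.trans e2.symm)))).trans ?_
  exact (cod_mono le_rfl (fun x _ hx =>
    sup_le_sup_right (pow_le_FF h.fg h.pos (hY.mul hJ) hc (L + e)) _ hx)
    (cod_mono le_rfl (fun _ _ hx => mem_sup_left hx) (fam0 h.fg (hY.mul hJ) _).2).1).2

theorem cnt : CntS k K := by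
  classical
  intro T G hT hT0 hG
  obtain ⟨e, he⟩ := exists_approx G
  have hE : (1 ⊔ span k (G.image e : Set K)).FG :=
    FG.sup (one_eq_span (R := k) (A := K) ▸ fg_span_singleton _) (fg_span (Finset.finite_toSet _))
  refine ⟨_, hE, mem_sup_left (one_le.1 le_rfl), fun X hX hX0 L => ?_⟩
  have hE1 : ∀ v ∈ G, e v ∈ 1 ⊔ span k (G.image e : Set K) := fun v hv =>
    mem_sup_right (subset_span (by simpa using ⟨v, hv, rfl⟩))
  have hE0 : ∀ v ∈ G, 1 ⊔ span k (G.image e : Set K) ≤ v.fil 0 := fun v hv => by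
    refine sup_le one_le_fil (span_le.2 fun x hx => ?_)
    obtain ⟨w, -, rfl⟩ := Finset.mem_image.1 (Finset.mem_coe.1 hx)
    by_cases hne : v = w
    · exact mem_fil_of_le (hne ▸ (he v).2.1.ge)
    · exact fil_anti zero_le_one ((he w).2.2 v hv hne)
  generalize 1 ⊔ span k (G.image e : Set K) = E at hE hE1 hE0
  have hY := hE.mul hX
  have hc : ∀ v ∈ G, E * X ≤ v.fil (v.ordS X) := fun v hv => by
    simpa only [zero_add] using mul_le_fil (hE0 v hv) (le_fil_ordS v hX)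
  choose x hx using fun v : DV k K => exists_min v hX hX0
  have stp : ∀ a : ℕ, ∑ v ∈ G, v.lead (T ^ a) ≤
      cod (FF T (E * X) G (fun v => v.ordS X) a) (FF T (E * X) G (fun v => v.ordS X) (a + 1)) := by
    intro a
    refine le_trans (Finset.sum_le_sum fun v hv => ?_) (cod_sum_le G
      (fun v => v.fil (a * v.ordS T + v.ordS X + 1)) (fun v => pr k (e v * x v) * T ^ a)
      (fd_FF hT hG hY hc (a + 1) inf_le_left le_rfl) (fun v hv y hy => ?_) (fun v hv y hy => ?_)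
      fun v hv w hw hne y hy => ?_)
    · refine (cod_le_of_inj (e v * x v) (fun y hy => mem_pr_mul.2 ⟨y, hy, rfl⟩) (fun y _ hy => ?_)
        (fd_of_fg ((fg_span_singleton _).mul (hT.pow a)) _)).2
      rw [← mul_mem_fil (mul_ne_zero (he v).1 (hx v).2.1), v.mul _ _ (he v).1 (hx v).2.1,
        (he v).2.1, (hx v).2.2, ordS_pow hT hT0, zero_add, ← add_assoc, add_comm (v.ordS X)]
      exact hy
    · refine fil_anti ?_ ((mem_FF.1 hy).2 v hv)
      have := le_ordS hT hT0 (hG v hv)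
      push_cast
      linarith
    · obtain ⟨t, ht, rfl⟩ := mem_pr_mul.1 hy
      refine pow_le_FF hT hG hY hc a ?_
      rw [mul_comm _ t, ← one_mul (e v * x v)]
      exact mul_mem_mul ht (mul_mem_mul (one_mem_alg T) (mul_mem_mul (hE1 v hv) (hx v).1))
    · obtain ⟨t, ht, rfl⟩ := mem_pr_mul.1 hy
      rw [mul_comm _ t, mul_comm (e v), add_assoc]
      exact DV.mul_fil (pow_le_fil (le_fil_ordS w hT) a ht)
        (DV.mul_fil (le_fil_ordS w hX (hx v).1) ((he v).2.2 w hw hne))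
  have key : ∀ L : ℕ, ∑ a ∈ Finset.range L, ∑ v ∈ G, v.lead (T ^ a) ≤
      cod (alg T * (E * X)) (FF T (E * X) G (fun v => v.ordS X) L) := by
    intro L
    induction L with
    | zero => simp
    | succ a ih =>
      have h1 : FF T (E * X) G (fun v => v.ordS X) (a + 1) ≤
          FF T (E * X) G (fun v => v.ordS X) a := fun y hy =>
        mem_FF.2 ⟨(mem_FF.1 hy).1, fun v hv => fil_anti (by
          have := le_ordS hT hT0 (hG v hv)
          push_cast
          linarith) ((mem_FF.1 hy).2 v hv)⟩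
      have h2 := cod_add (R := FF T (E * X) G (fun v => v.ordS X) a) inf_le_left
        (fd_FF hT hG hY hc (a + 1) le_rfl le_rfl)
      rw [sup_eq_right.2 h1] at h2
      rw [Finset.sum_range_succ, ← h2]
      exact add_le_add ih (stp a)
  rw [Finset.sum_comm]
  exact (key L).trans (cod_mono le_rfl (fun _ _ hy => pow_le_FF hT hG hY hc L hy)
    (fam0 hT hY L).2).2

end Pool.Agent.R72.Res.SF
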