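import Mathlib.Analysis.SpecificLimits.Basic
import Mathlib.Analysis.RCLike.Basic
import Mathlib.Algebra.Order.Antidiag.FinsuppEquiv
import Mathlib.Algebra.Order.Star.Real
import Mathlib.Algebra.Order.Sub.Prod
import Pool.Agent.Lib.helper72.RM.M10
import Pool.Agent.MP_19ffc6_ag.Res.SFSpec

-- ======== part 0: formerly Pool.Agent.MP_19ffc6_ag.Res.SRank
section MrgPart0

/-! PROJECT SHARP: the rank lemma. Elements whose leading forms are a system of parameters have
local degree at most the multiplicity times the product of the orders. -/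

namespace Pool.Agent.R72.Res.SC

open Submodule Finset Filter Pool.Agent.R72.Res.PA Pool.Agent.R72.Res.PA.LocK
  Pool.Agent.R72.Res.PA.Num

namespace Rank

variable {k K : Type} [Field k] [Field K] [Algebra k K] {T P Q : Submodule k K} {e : ℕ}

/-- Many points in a weighted simplex. -/
theorem simplex {t : Fin e → ℕ} (ht : ∀ i, 0 < t i) (M : ℕ) : ∃ D : Finset (Fin e → ℕ),
    (∀ α ∈ D, ∑ i, t i * α i ≤ M) ∧ M ^ e ≤ e.factorial * (∏ i, t i) * D.card := by
  classical
  let S := finsuppAntidiag (univ : Finset (Fin (e + 1))) M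
  have hS : ∀ β ∈ S, β 0 + ∑ i : Fin e, β i.succ = M := fun β hβ => by
    rw [← Fin.sum_univ_succ]; exact (mem_finsuppAntidiag.1 hβ).1
  refine ⟨S.image fun β i => β i.succ / t i, fun α hα => ?_, ?_⟩
  · obtain ⟨β, hβ, rfl⟩ := mem_image.1 hα
    exact (sum_le_sum fun i _ => Nat.mul_div_le _ _).trans (Nat.le_add_left _ _ |>.trans_eq (hS β hβ))
  have h1 : S.card ≤ ((Fintype.piFinset fun i => range (t i)) ×ˢ
      S.image fun β i => β i.succ / t i).card := by
    refine card_le_card_of_injOn (fun β => (fun i => β i.succ % t i, fun i => β i.succ / t i))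
      (fun β hβ => ?_) fun β hβ β' hβ' h => ?_
    · exact mem_coe.2 (mem_product.2 ⟨Fintype.mem_piFinset.2 fun i =>
        mem_range.2 (Nat.mod_lt _ (ht i)), mem_image_of_mem _ hβ⟩)
    · have h2 : ∀ i : Fin e, β i.succ = β' i.succ := fun i => by
        have a1 : β i.succ % t i = β' i.succ % t i := congrFun (Prod.ext_iff.1 h).1 i
        have a2 : β i.succ / t i = β' i.succ / t i := congrFun (Prod.ext_iff.1 h).2 i
        rw [← Nat.mod_add_div (β i.succ) (t i), a1, a2, Nat.mod_add_div]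
      have h3 := (hS β hβ).trans (hS β' hβ').symm
      simp only [h2, Nat.add_right_cancel_iff] at h3
      exact Finsupp.ext fun i => Fin.cases h3 h2 i
  rw [card_product, Fintype.card_piFinset, card_finsuppAntidiag_nat_eq_choose] at h1
  simp only [card_range, card_univ, Fintype.card_fin] at h1
  calc M ^ e ≤ (M + 1) ^ e := Nat.pow_le_pow_left M.le_succ _
    _ ≤ e.factorial * (M + e).choose e :=
      (Nat.pow_succ_le_ascFactorial _ _).trans_eq (Nat.ascFactorial_eq_factorial_mul_choose _ _)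
    _ ≤ _ := by
      rw [mul_assoc, ← Nat.choose_symm_add, show M + e = e + 1 + M - 1 by omega]
      exact Nat.mul_le_mul_left _ h1

/-- Few points of a box have a small coordinate. -/
theorem shell (a B : ℕ) : ∃ D : Finset (Fin e → ℕ),
    (∀ α : Fin e → ℕ, (∀ i, α i < a) → (∃ i, α i < B) → α ∈ D) ∧ D.card * a ≤ e * B * a ^ e := by
  classical
  refine ⟨univ.biUnion fun i => Fintype.piFinset (Function.update (fun _ => range a) i (range B)),
    fun α h1 ⟨i, h2⟩ => mem_biUnion.2 ⟨i, mem_univ i, Fintype.mem_piFinset.2 fun j => ?_⟩, ?_⟩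
  · by_cases h : j = i
    · rw [h, Function.update_self]; exact mem_range.2 h2
    · rw [Function.update_of_ne h]; exact mem_range.2 (h1 j)
  · refine (Nat.mul_le_mul_right _ card_biUnion_le).trans ?_
    rw [sum_mul, mul_assoc]
    refine (sum_le_card_nsmul _ _ (B * a ^ e) fun i _ => le_of_eq ?_).trans_eq (by simp)
    rw [Fintype.card_piFinset, ← mul_prod_erase univ _ (mem_univ i), Function.update_self,
      prod_congr rfl fun j hj => by rw [Function.update_of_ne (ne_of_mem_erase hj)], card_range,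
      card_range, mul_assoc, ← card_range a, prod_erase_mul univ (fun _ => #(range a)) (mem_univ i)]
    simp

section Greedy

variable {J : Type} [LinearOrder J] {F : ℕ → Submodule k K} {v : J → K} {dg : J → ℕ}

variable (F v dg) in
/-- The leading form of `v i` is a combination of earlier ones. -/
def Red (i : J) : Prop := v i ∈ span k (v '' {j | j < i ∧ dg j = dg i}) ⊔ F (dg i + 1)

theorem span_red [WellFoundedLT J] (i : J) :
    v i ∈ span k (v '' {j | dg j = dg i ∧ ¬ Red F v dg j}) ⊔ F (dg i + 1) := by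
  induction i using WellFoundedLT.induction with
  | ind i ih =>
    by_cases h : Red F v dg i
    · refine (sup_le (span_le.2 ?_) le_sup_right : _ ⊔ F (dg i + 1) ≤ _) h
      rintro _ ⟨j, ⟨h1, h2⟩, rfl⟩
      exact h2 ▸ ih j h1
    · exact mem_sup_left (subset_span ⟨i, ⟨rfl, h⟩, rfl⟩)

theorem card_le (hF : Antitone F) (hv : ∀ i, v i ∈ F (dg i)) (hP : ∀ i, v i ∈ P) {L : ℕ}
    (hf : Fd P (F L)) (D : Finset J) (hD : ∀ i ∈ D, ¬ Red F v dg i ∧ dg i < L) :
    D.card ≤ cod P (F L) := by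
  classical
  have : Module.Finite k (P.map (F L).mkQ) := Module.Finite.iff_fg.2 hf
  let w : D → P.map (F L).mkQ := fun i => ⟨_, mem_map_of_mem (hP i)⟩
  have hw : LinearIndependent k w := by
    by_contra H
    obtain ⟨c, h1, h2⟩ := Fintype.not_linearIndependent_iff.1 H
    obtain ⟨i, h3, h4⟩ := exists_max_image (univ.filter fun i => c i ≠ 0)
      (fun i => toLex (OrderDual.toDual (dg i), (i : J))) (h2.imp fun α h => by simpa using h)
    have h5 := congrArg Subtype.val h1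
    simp only [AddSubmonoidClass.coe_finsetSum, SetLike.val_smul, w, ← map_smul, ← map_sum,
      ZeroMemClass.coe_zero] at h5
    rw [mkQ_apply, Quotient.mk_eq_zero, ← add_sum_erase _ _ (mem_univ i)] at h5
    refine (hD i i.2).1 ((smul_mem_iff _ (mem_filter.1 h3).2).1 ((add_mem_cancel_right
      (sum_mem fun j hj => ?_)).1 (mem_sup_right (hF (hD i i.2).2 h5))))
    by_cases h6 : c j = 0
    · rw [h6, zero_smul]; exact zero_mem _
    refine smul_mem _ _ ?_
    rcases Prod.Lex.toLex_le_toLex.1 (h4 j (by simpa using h6)) with h7 | ⟨h7, h8⟩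
    · exact mem_sup_right (hF h7 (hv j))
    · exact mem_sup_left (subset_span ⟨j, ⟨lt_of_le_of_ne h8 fun h =>
        ne_of_mem_erase hj (Subtype.ext h), h7⟩, rfl⟩)
  simpa [cod] using hw.fintype_card_le_finrank

end Greedy

theorem mul_ord {a b : K} {m n : ℕ} (ha : a ∈ T ^ m * alg T) (hb : b ∈ T ^ n * alg T) :
    a * b ∈ T ^ (m + n) * alg T := by
  have := mul_mem_mul ha hb
  rw [mul_mul_mul_comm, ← pow_add] at this
  exact mul_le_mul_right (md_alg T) _ this

theorem mon_ord {g : Fin e → K} {t : Fin e → ℕ} (hg : ∀ i, g i ∈ T ^ t i * alg T)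
    (α : Fin e → ℕ) : ∏ i, g i ^ α i ∈ T ^ (∑ i, t i * α i) * alg T := by
  have h1 : ∀ i n, g i ^ n ∈ T ^ (t i * n) * alg T := fun i n => by
    induction n with
    | zero => simpa using one_mem_alg T
    | succ n ih => rw [pow_succ, mul_add, mul_one]; exact mul_ord ih (hg i)
  classical
  induction (univ : Finset (Fin e)) using Finset.induction_on with
  | empty => simpa using one_mem_alg T
  | insert i s hi ih => rw [prod_insert hi, sum_insert hi]; exact mul_ord (h1 i _) ih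

theorem mul_fil (hP : Md T P) {a z : K} {m n : ℕ} (ha : a ∈ T ^ m * alg T) (hz : z ∈ T ^ n * P) :
    a * z ∈ T ^ (m + n) * P := by
  have := mul_mem_mul ha hz
  rw [mul_mul_mul_comm, ← pow_add] at this
  exact mul_le_mul_right hP _ this

theorem mul_fil' (hP : Md T P) (hQ : Md T Q) {a z : K} {m n : ℕ} (ha : a ∈ T ^ m * alg T)
    (hz : z ∈ T ^ n * P ⊔ Q) : a * z ∈ T ^ (m + n) * P ⊔ Q := by
  obtain ⟨x, hx, y, hy, rfl⟩ := mem_sup.1 hz
  rw [mul_add]
  exact add_mem_sup (mul_fil hP ha hx) (hQ.mem (pow_alg_le m ha) hy)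

theorem gens (hP : Md T P) (hf : ∀ L, Fd P (T ^ L * P ⊔ Q)) (N : ℕ) :
    ∃ (R : ℕ) (x : Fin R → K) (d : Fin R → ℕ), (∀ s, x s ∈ T ^ d s * P) ∧ (∀ s, d s < N) ∧
      ∀ j < N, T ^ j * P ≤ span k (x '' {s | d s = j}) ⊔ (T ^ (j + 1) * P ⊔ Q) := by
  have h1 : ∀ j, ∃ r, Sp r (T ^ j * P) (T ^ (j + 1) * P ⊔ Q) := fun j =>
    ⟨_, sp_of_cod (cod_mono (by simpa using hP.anti (Nat.zero_le j)) (fun _ _ h => h)
      (hf (j + 1))).1 le_rfl⟩
  choose r x h2 h3 using h1
  let ε := Fintype.equivFin (Σ j : Fin N, Fin (r j))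
  refine ⟨_, fun s => x _ (ε.symm s).2, fun s => (ε.symm s).1, fun s => h2 _ _,
    fun s => (ε.symm s).1.2, fun j hj => (h3 j).trans (sup_le_sup_right (span_mono ?_) _)⟩
  rintro _ ⟨i, rfl⟩
  exact ⟨ε ⟨⟨j, hj⟩, i⟩, by simp, by simp only; rw [ε.symm_apply_apply]⟩

theorem ev_low (ρ c e : ℕ) {ε : ℝ} (hε : 0 < ε) :
    ∀ᶠ L : ℕ in atTop, (ρ - ε) * (L : ℝ) ^ e ≤ ρ * ((L - c : ℕ) : ℝ) ^ e := by
  have h1 : Tendsto (fun L : ℕ => (ρ : ℝ) * (1 - (c : ℝ) / L) ^ e) atTop (nhds (ρ * (1 - 0) ^ e)) :=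
    ((tendsto_const_nhds.sub (tendsto_const_div_atTop_nhds_zero_nat (c : ℝ))).pow e).const_mul _
  filter_upwards [h1.eventually (lt_mem_nhds (show ρ - ε < ρ * (1 - 0) ^ e by simpa using hε)),
    eventually_gt_atTop c] with L h3 h4
  have h5 : (0 : ℝ) < L := Nat.cast_pos.2 (by omega)
  rw [Nat.cast_sub h4.le, show (L : ℝ) - c = (1 - c / L) * L by field_simp, mul_pow, ← mul_assoc]
  exact mul_le_mul_of_nonneg_right h3.le (pow_pos h5 e).le

theorem ev_up (ρ c c' e : ℕ) {ε : ℝ} (hε : 0 < ε) : ∀ᶠ L : ℕ in atTop, ∀ n : ℕ,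
    n * L ≤ ρ * (L + c) ^ e * L + c' * L ^ e → (n : ℝ) ≤ (ρ + ε) * (L : ℝ) ^ e := by
  have h1 : Tendsto (fun L : ℕ => (ρ : ℝ) * (1 + (c : ℝ) / L) ^ e + (c' : ℝ) / L) atTop
      (nhds (ρ * (1 + 0) ^ e + 0)) :=
    (((tendsto_const_nhds.add (tendsto_const_div_atTop_nhds_zero_nat (c : ℝ))).pow e).const_mul
      _).add (tendsto_const_div_atTop_nhds_zero_nat (c' : ℝ))
  filter_upwards [h1.eventually (gt_mem_nhds (show ρ * (1 + 0) ^ e + 0 < ρ + ε by simpa using hε)),
    eventually_gt_atTop 0] with L h3 h4 n hn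
  have h5 : (0 : ℝ) < L := Nat.cast_pos.2 h4
  have h6 := (Nat.cast_le (α := ℝ)).2 hn
  push_cast at h6
  refine le_trans (le_of_mul_le_mul_right (h6.trans_eq ?_) h5)
    (mul_le_mul_of_nonneg_right h3.le (pow_pos h5 e).le)
  rw [show (L : ℝ) + c = (1 + c / L) * L by field_simp, mul_pow]
  field_simp

/-- Few points in a simplex. -/
theorem simplex' (e M : ℕ) : ∃ D : Finset (Fin e → ℕ),
    (∀ α : Fin e → ℕ, ∑ i, α i ≤ M → α ∈ D) ∧ e.factorial * D.card ≤ (M + e) ^ e := by
  classical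
  refine ⟨(finsuppAntidiag (univ : Finset (Fin (e + 1))) M).image fun β i => β i.succ,
    fun α hα => mem_image.2 ⟨Finsupp.equivFunOnFinite.symm (Fin.cons (M - ∑ i, α i) α),
      mem_finsuppAntidiag.2 ⟨?_, subset_univ _⟩, rfl⟩, ?_⟩
  · rw [Fin.sum_univ_succ]
    exact Nat.sub_add_cancel hα
  · refine (Nat.mul_le_mul_left _ card_image_le).trans ?_
    rw [card_finsuppAntidiag_nat_eq_choose, card_univ, Fintype.card_fin,
      show e + 1 + M - 1 = M + e by omega, Nat.choose_symm_add,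
      ← Nat.ascFactorial_eq_factorial_mul_choose]
    exact Nat.ascFactorial_le_pow_add _ _

theorem cod_le_of_sp {ρ : ℕ} (h : Sp ρ P Q) : cod P Q ≤ ρ := by
  obtain ⟨x, -, h⟩ := h
  have h1 : P.map Q.mkQ ≤ (span k (Set.range x)).map Q.mkQ := by
    refine (Submodule.map_mono h).trans ?_
    rw [Submodule.map_sup, mkQ_map_self, sup_bot_eq]
  have : Module.Finite k (span k (Set.range x)) :=
    Module.Finite.iff_fg.2 (fg_span (Set.finite_range x))
  have : Module.Finite k ((span k (Set.range x)).map Q.mkQ) :=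
    Module.Finite.iff_fg.2 ((fg_span (Set.finite_range x)).map _)
  exact (finrank_mono h1).trans
    ((finrank_map_le _ _).trans ((finrank_range_le_card x).trans_eq (Fintype.card_fin ρ)))

end Rank

open Rank

variable {k K : Type} [Field k] [Field K] [Algebra k K] {T P Q : Submodule k K} {e : ℕ}

/-- The rank lemma: the rank `ρ` of the graded module over the ring of the leading forms. -/
theorem rank_rho (hP : Md T P) (hQ : Md T Q) (hf : ∀ L, Fd P (T ^ L * P ⊔ Q)) {g : Fin e → K}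
    {t : Fin e → ℕ} (ht : ∀ i, 0 < t i) (hg : ∀ i, g i ∈ T ^ t i * alg T) {N : ℕ}
    (hN : T ^ N * P ≤ (⨆ i, pr k (g i) * (T ^ (N - t i) * P)) ⊔ T ^ (N + 1) * P ⊔ Q) :
    ∃ ρ : ℕ, (∀ ε : ℝ, 0 < ε → ∀ᶠ L : ℕ in atTop, (ρ - ε) * (L : ℝ) ^ e ≤
        (∏ i, (t i : ℝ)) * (e.factorial * cod P (T ^ L * P ⊔ Q))) ∧
      ((∀ i, t i = 1) → ∀ ε : ℝ, 0 < ε → ∀ᶠ L : ℕ in atTop,
        (e.factorial : ℝ) * cod P (T ^ L * P ⊔ Q) ≤ (ρ + ε) * (L : ℝ) ^ e) ∧
      Ld (ρ + 1) T g P Q := by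
  classical
  obtain ⟨R, x, d, hx, hd, hxd⟩ := gens hP hf N
  let F : ℕ → Submodule k K := fun j => T ^ j * P ⊔ Q
  have hF : Antitone F := fun a b h => sup_le_sup_right (hP.anti h) _
  let J := Fin R ×ₗ Lex (Fin e → ℕ)
  let mk : Fin R → (Fin e → ℕ) → J := fun s α => toLex (s, toLex α)
  let v : J → K := fun p => (∏ i, g i ^ ofLex (ofLex p).2 i) * x (ofLex p).1
  let dg : J → ℕ := fun p => ∑ i, t i * ofLex (ofLex p).2 i + d (ofLex p).1
  have hv : ∀ p, v p ∈ T ^ dg p * P := fun p => mul_fil hP (mon_ord hg _) (hx _)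
  have hv0 : ∀ p, v p ∈ P := fun p => by simpa using hP.anti (Nat.zero_le _) (hv p)
  have hga : ∀ i, g i ∈ alg T := fun i => pow_alg_le _ (hg i)
  have hsh : ∀ s α γ, v (mk s (γ + α)) = (∏ i, g i ^ γ i) * v (mk s α) ∧
      dg (mk s (γ + α)) = ∑ i, t i * γ i + dg (mk s α) := fun s α γ => by
    simp only [v, dg, mk, ofLex_toLex, Pi.add_apply, pow_add, prod_mul_distrib, mul_add,
      sum_add_distrib, mul_assoc, add_assoc, and_self]
  have hmul : ∀ (γ : Fin e → ℕ) (j : ℕ) (A B : Set J),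
      (∀ s α, mk s α ∈ A → mk s (γ + α) ∈ B) → ∀ z ∈ span k (v '' A) ⊔ F j,
      (∏ i, g i ^ γ i) * z ∈ span k (v '' B) ⊔ F (∑ i, t i * γ i + j) := fun γ j A B h z hz => by
    obtain ⟨y, hy, w, hw, rfl⟩ := mem_sup.1 hz
    rw [mul_add]
    refine add_mem_sup ?_ (mul_fil' hP hQ (mon_ord hg γ) hw)
    refine span_induction (p := fun y _ => (∏ i, g i ^ γ i) * y ∈ span k (v '' B)) ?_ (by simp)
      (fun a b _ _ ha hb => by rw [mul_add]; exact add_mem ha hb)
      (fun c a _ ha => by rw [mul_smul_comm]; exact smul_mem _ _ ha) hy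
    rintro _ ⟨p, hp, rfl⟩
    exact subset_span ⟨_, h (ofLex p).1 (ofLex (ofLex p).2) hp, (hsh _ _ _).1⟩
  have hsp : ∀ j, T ^ j * P ≤ span k (v '' {p | dg p = j}) ⊔ F (j + 1) := fun j => by
    induction j using Nat.strong_induction_on with
    | h j ih =>
      rcases lt_or_ge j N with h | h
      · refine (hxd j h).trans (sup_le_sup_right (span_mono ?_) _)
        rintro _ ⟨s, hs, rfl⟩
        refine ⟨mk s 0, ?_, ?_⟩
        · change ∑ i, t i * 0 + d s = j
          simpa using hs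
        · change (∏ i, g i ^ 0) * x s = x s
          simp
      obtain ⟨c, rfl⟩ := Nat.exists_eq_add_of_le' h
      have h1 := mul_le_mul_right hN (T ^ c)
      rw [Submodule.mul_sup, Submodule.mul_sup, Submodule.mul_iSup, ← mul_assoc, ← mul_assoc,
        ← pow_add, ← pow_add] at h1
      refine h1.trans (sup_le (sup_le (iSup_le fun i => ?_) (le_sup_of_le_right le_sup_left))
        (le_sup_of_le_right (le_sup_of_le_right (hQ.le (pow_le_alg (le_alg T) c)))))
      rw [mul_left_comm, ← mul_assoc (T ^ c), ← pow_add]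
      intro z hz
      obtain ⟨y, hy, rfl⟩ := mem_pr_mul.1 hz
      rcases lt_or_ge (c + N) (t i) with h2 | h2
      · exact mem_sup_right (mem_sup_left (hP.anti (by omega) (mul_fil hP (hg i) hy)))
      have h3 : ∑ l, t l * (Pi.single i 1 : Fin e → ℕ) l = t i := by simp [Pi.single_apply]
      have h4 := hmul (Pi.single i 1) _ _ {p | dg p = c + N} (fun s α h => by
        change dg _ = _
        rw [(hsh s α _).2, h3, show dg (mk s α) = c + N - t i from h]
        omega) y (ih (c + N - t i) (by have := ht i; omega) (hP.anti (by omega) hy))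
      rw [h3, show t i + (c + N - t i + 1) = c + N + 1 by omega] at h4
      simpa [Pi.single_apply, apply_ite] using h4
  have hred : ∀ s α γ, Red F v dg (mk s α) → Red F v dg (mk s (γ + α)) := fun s α γ h => by
    rw [Red, (hsh s α γ).1, (hsh s α γ).2, add_assoc]
    refine hmul γ _ _ _ (fun s' α' h' => ?_) _ h
    refine ⟨?_, by rw [(hsh s' α' γ).2, h'.2]⟩
    rcases Prod.Lex.toLex_lt_toLex.1 h'.1 with h1 | ⟨h1, h2⟩
    · exact Prod.Lex.toLex_lt_toLex.2 (Or.inl h1)
    · exact Prod.Lex.toLex_lt_toLex.2 (Or.inr ⟨h1, add_lt_add_right h2 (toLex γ)⟩)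
  let Z := univ.filter fun s => ∀ α, ¬ Red F v dg (mk s α)
  obtain ⟨B, hB⟩ : ∃ B, ∀ s, s ∉ Z → ∀ α : Fin e → ℕ, (∀ i, B ≤ α i) → Red F v dg (mk s α) := by
    have h1 : ∀ s, ∃ β : Fin e → ℕ, s ∉ Z → Red F v dg (mk s β) := fun s => by
      by_cases h : s ∈ Z
      · exact ⟨0, fun h' => absurd h h'⟩
      · simp only [Z, mem_filter, mem_univ, true_and, not_forall, not_not] at h
        exact h.imp fun _ h _ => h
    choose β hβ using h1
    refine ⟨univ.sup fun p : Fin R × Fin e => β p.1 p.2, fun s hs α hα => ?_⟩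
    have := hred s _ (α - β s) (hβ s hs)
    rwa [tsub_add_cancel_of_le fun i => (le_sup (f := fun p : Fin R × Fin e => β p.1 p.2)
      (mem_univ (s, i))).trans (hα i)] at this
  have hall : ∀ L, P ≤ span k (v '' {q | dg q < L ∧ ¬ Red F v dg q}) ⊔ F L := fun L => by
    induction L with
    | zero => exact le_sup_of_le_right (le_sup_of_le_left (by simp))
    | succ L ih =>
      refine ih.trans (sup_le (le_sup_of_le_left (span_mono (Set.image_mono fun q hq =>
        ⟨hq.1.trans L.lt_succ_self, hq.2⟩))) (sup_le ((hsp L).trans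
          (sup_le (span_le.2 ?_) le_sup_right)) (le_sup_of_le_right le_sup_right)))
      rintro _ ⟨p, rfl, rfl⟩
      refine (sup_le_sup_right (span_mono (Set.image_mono fun q hq => ?_)) _ :
        _ ⊔ F (dg p + 1) ≤ _) (span_red (F := F) (v := v) (dg := dg) p)
      exact ⟨hq.1.trans_lt (dg p).lt_succ_self, hq.2⟩
  have hW : ∀ (D D' : Finset (Fin e → ℕ)) (q : J), ¬ Red F v dg q → ofLex (ofLex q).2 ∈ D →
      ((∃ i, ofLex (ofLex q).2 i < B) → ofLex (ofLex q).2 ∈ D') →
      v q ∈ span k (Set.range fun p : (Z ×ˢ D ∪ univ ×ˢ D' : Finset _) => v (mk p.1.1 p.1.2)) :=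
    fun D D' q hq h1 h2 => by
      refine subset_span ⟨⟨((ofLex q).1, ofLex (ofLex q).2), ?_⟩, rfl⟩
      by_cases h3 : (ofLex q).1 ∈ Z
      · exact mem_union_left _ (mem_product.2 ⟨h3, h1⟩)
      · refine mem_union_right _ (mem_product.2 ⟨mem_univ _, h2 ?_⟩)
        by_contra h2
        push Not at h2
        exact hq (hB _ h3 _ h2)
  have hc : ∀ D D' : Finset (Fin e → ℕ), Fintype.card (Z ×ˢ D ∪ univ ×ˢ D' : Finset _) ≤
      Z.card * D.card + R * D'.card := fun D D' => by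
    rw [Fintype.card_coe]
    refine (card_union_le _ _).trans_eq ?_
    rw [card_product, card_product, card_univ, Fintype.card_fin]
  refine ⟨Z.card, fun ε hε => ?_, fun h1 ε hε => ?_, ?_⟩
  · filter_upwards [ev_low Z.card N e hε, eventually_ge_atTop N] with L hL hNL
    obtain ⟨D, h3, h4⟩ := simplex ht (L - N)
    have h5 := card_le hF (fun p => mem_sup_left (hv p)) hv0 (hf L)
      ((Z ×ˢ D).map ⟨fun p => mk p.1 p.2, fun _ _ h => toLex.injective h⟩) fun p hp => by
        obtain ⟨⟨s, α⟩, h6, rfl⟩ := mem_map.1 hp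
        refine ⟨(mem_filter.1 (mem_product.1 h6).1).2 α, ?_⟩
        have := h3 α (mem_product.1 h6).2
        have := hd s
        change ∑ i, t i * α i + d s < L
        omega
    rw [card_map, card_product] at h5
    have h6 : Z.card * (L - N) ^ e ≤ (∏ i, t i) * (e.factorial * cod P (F L)) :=
      calc _ ≤ Z.card * (e.factorial * (∏ i, t i) * D.card) := Nat.mul_le_mul_left _ h4
        _ = (∏ i, t i) * (e.factorial * (Z.card * D.card)) := by ring
        _ ≤ _ := Nat.mul_le_mul_left _ (Nat.mul_le_mul_left _ h5)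
    exact hL.trans (by exact_mod_cast h6)
  · filter_upwards [ev_up Z.card e (e.factorial * R * (e * B)) e hε] with L hL
    obtain ⟨D, h3, h4⟩ := simplex' e L
    obtain ⟨D', h5, h6⟩ := shell (e := e) L B
    have h7 : cod P (F L) ≤ Z.card * D.card + R * D'.card := by
      refine cod_le_of_sp (sp_of_fintype (fun p => v (mk p.1.1 p.1.2)) (fun p => hv0 _)
        ((hall L).trans (sup_le_sup_right (span_le.2 ?_) _)) (hc D D'))
      rintro _ ⟨q, hq, rfl⟩
      have h8 : ∑ i, ofLex (ofLex q).2 i < L := by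
        have := hq.1
        simp only [dg, h1, one_mul] at this
        omega
      exact hW D D' q hq.2 (h3 _ h8.le) (h5 _ fun i =>
        (single_le_sum (fun _ _ => Nat.zero_le _) (mem_univ i)).trans_lt h8)
    rw [← Nat.cast_mul]
    refine hL _ ?_
    calc _ ≤ e.factorial * (Z.card * D.card + R * D'.card) * L :=
          Nat.mul_le_mul_right _ (Nat.mul_le_mul_left _ h7)
      _ = Z.card * (e.factorial * D.card) * L + e.factorial * R * (D'.card * L) := by ring
      _ ≤ Z.card * (L + e) ^ e * L + e.factorial * R * (e * B * L ^ e) := by gcongr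
      _ = _ := by ring
  set a := R * (e * B) + 1
  obtain ⟨D, hD, hDa⟩ := shell (e := e) a B
  have h1 : R * D.card ≤ a ^ e := Nat.le_of_mul_le_mul_right (c := a) (by
    calc R * D.card * a = R * (D.card * a) := mul_assoc _ _ _
      _ ≤ R * (e * B * a ^ e) := Nat.mul_le_mul_left _ hDa
      _ = a ^ e * (R * (e * B)) := by ring
      _ ≤ _ := Nat.mul_le_mul_left _ (by omega)) (by omega)
  refine ⟨a, by omega, fun L => sp_of_fintype (fun p => v (mk p.1.1 p.1.2)) (fun p => hv0 _)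
    ((hall L).trans ?_)
    ((hc (Fintype.piFinset fun _ : Fin e => range a) D).trans ?_)⟩
  · rw [sup_assoc (qq k g a * P), ← sup_assoc _ (qq k g a * P)]
    refine sup_le_sup_right (span_le.2 ?_) _
    rintro _ ⟨q, hq, rfl⟩
    by_cases h : ∀ i, ofLex (ofLex q).2 i < a
    · exact mem_sup_left (hW _ D q hq.2
        (Fintype.mem_piFinset.2 fun i => mem_range.2 (h i)) (hD _ h))
    · obtain ⟨i, hi⟩ := not_forall.1 h
      exact mem_sup_right (mon_mem_qq hP hga (not_lt.1 hi)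
        (by simpa using hP.anti (Nat.zero_le _) (hx _)))
  · rw [Fintype.card_piFinset, prod_const, card_range, card_univ, Fintype.card_fin, Nat.succ_mul]
    exact Nat.add_le_add_left h1 _

/-- The rank lemma. -/
theorem rank (hP : Md T P) (hQ : Md T Q) (hf : ∀ L, Fd P (T ^ L * P ⊔ Q)) {g : Fin e → K}
    {t : Fin e → ℕ} (ht : ∀ i, 0 < t i) (hg : ∀ i, g i ∈ T ^ t i * alg T) {N : ℕ}
    (hN : T ^ N * P ≤ (⨆ i, pr k (g i) * (T ^ (N - t i) * P)) ⊔ T ^ (N + 1) * P ⊔ Q) {ν : ℝ}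
    (hν : ∀ ε : ℝ, 0 < ε → ∃ᶠ L : ℕ in atTop,
      (e.factorial : ℝ) * cod P (T ^ L * P ⊔ Q) ≤ (ν + ε) * (L : ℝ) ^ e)
    {C : ℕ} (hC : ν * ∏ i, (t i : ℝ) < C) : Ld C T g P Q := by
  obtain ⟨ρ, h1, -, h2⟩ := rank_rho hP hQ hf ht hg hN
  refine ld_mono h2 (Nat.succ_le_of_lt (Nat.cast_lt.1 (lt_of_le_of_lt ?_ hC))) le_rfl
  have h0 : (0 : ℝ) < ∏ i, (t i : ℝ) := prod_pos fun i _ => Nat.cast_pos.2 (ht i)
  refine le_of_forall_pos_le_add fun ε hε => ?_
  obtain ⟨L, h3, h4, h5⟩ := ((hν (ε / 2 / ∏ i, (t i : ℝ)) (by positivity)).and_eventually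
    ((h1 (ε / 2) (by positivity)).and (eventually_gt_atTop 0))).exists
  have h6 := h4.trans (mul_le_mul_of_nonneg_left h3 h0.le)
  rw [← mul_assoc, mul_add, mul_div_cancel₀ _ h0.ne'] at h6
  have h7 := le_of_mul_le_mul_right h6 (pow_pos (Nat.cast_pos.2 h5) e)
  linarith

/-- The rank lemma for a reduction by powers. -/
theorem rank_rd (hP : Md T P) (hQ : Md T Q) (hf : ∀ L, Fd P (T ^ L * P ⊔ Q)) {g : Fin e → K}
    {t c : Fin e → ℕ} {j : ℕ} (hj : 0 < j) (ht : ∀ i, t i * c i = j)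
    (hg : ∀ i, g i ∈ T ^ t i * alg T) (hR : Rd T j (fun i => g i ^ c i) P Q) {ν : ℝ}
    (hν : ∀ ε : ℝ, 0 < ε → ∃ᶠ L : ℕ in atTop,
      (e.factorial : ℝ) * cod P (T ^ L * P ⊔ Q) ≤ (ν + ε) * (L : ℝ) ^ e)
    {C : ℕ} (hC : ν * ∏ i, (t i : ℝ) < C) : Ld C T g P Q := by
  obtain ⟨n, h⟩ := hR
  have h0 : ∀ i, 0 < t i ∧ 0 < c i := fun i => CanonicallyOrderedAdd.mul_pos.1 (ht i ▸ hj)
  refine rank hP hQ hf (fun i => (h0 i).1) hg (N := n + j)
    (h.trans (sup_le_sup_right (sup_le_sup_right ?_ _) _)) hν hC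
  rw [span_range_eq_iSup, Submodule.iSup_mul]
  refine iSup_mono fun i z hz => ?_
  obtain ⟨y, hy, rfl⟩ := mem_pr_mul.1 hz
  obtain ⟨b, hb⟩ := Nat.exists_eq_add_one_of_ne_zero (h0 i).2.ne'
  have h1 := mul_fil hP (mon_ord (e := 1) (t := fun _ => t i) (fun _ => hg i) fun _ => b) hy
  rw [Fin.prod_univ_one, Fin.sum_univ_one] at h1
  have h2 := ht i
  rw [hb, mul_add, mul_one] at h2
  exact mem_pr_mul.2 ⟨_, hP.anti (by omega) h1, by rw [hb, pow_succ', mul_assoc]⟩

/-- Finitely generated modules have finite colength. -/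
theorem fd_alg {X : Submodule k K} (hT : T.FG) (hX : X.FG) (Q : Submodule k K) (L : ℕ) :
    Fd (alg T * X) (T ^ L * (alg T * X) ⊔ Q) := by
  have h1 : alg T * X ≤ X ⊔ T * (alg T * X) := (mul_le_mul_left (alg_le T) X).trans (by
    rw [Submodule.sup_mul, one_mul, mul_assoc])
  suffices ∃ E : Submodule k K, E.FG ∧ alg T * X ≤ E ⊔ T ^ L * (alg T * X) from
    let ⟨E, h2, h3⟩ := this
    fd_of_le h2 (h3.trans (sup_le_sup_left le_sup_left _))
  induction L with
  | zero => exact ⟨⊥, fg_bot, by simp⟩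
  | succ L ih =>
    obtain ⟨E, h2, h3⟩ := ih
    refine ⟨E ⊔ T ^ L * X, h2.sup ((hT.pow L).mul hX), h3.trans ?_⟩
    have h4 := mul_le_mul_right h1 (T ^ L)
    rw [Submodule.mul_sup, ← mul_assoc (T ^ L) T, ← pow_succ] at h4
    rw [sup_assoc]
    exact sup_le_sup_left h4 _

end Pool.Agent.R72.Res.SC

end MrgPart0

-- ======== part 1: formerly Pool.Agent.MP_19ffc6_ag.Res.SFRank
section MrgPart1

/-! PROJECT SHARP: the rank lemma for linear parameters. -/

namespace Pool.Agent.R72.Res.SF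

open Pool.Agent.R72.Res.PA Pool.Agent.R72.Res.PA.LocK

theorem rank1 {k K : Type} [Field k] [Field K] [Algebra k K] : RankS k K :=
  fun _ _ _ T _ _ _ hT hX hQ hy hR hν hC =>
    SC.rank_rd (t := fun _ => 1) (c := fun _ => 1) ((md_alg T).mul' _) hQ (SC.fd_alg hT hX _)
      one_pos (fun _ => rfl) (fun i => by simpa using pow_mem_alg (hy i) 1)
      (by simpa only [pow_one] using hR) hν (by simpa using hC)

end Pool.Agent.R72.Res.SF

end MrgPart1

-- marker of a merged file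
example : 731051 + 787734 = 731051 + 787734 := rfl
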