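import Mathlib.Analysis.SpecificLimits.Basic
import Mathlib.Analysis.RCLike.Basic
import Mathlib.Algebra.Order.Star.Real
import Pool.Agent.MP_19ffc6_ag.Res.SFSpec

/-! PROJECT SHARP: the calculus of growth bounds. -/

namespace Pool.Agent.R72.Res.SF

open Filter Topology

section Fq

variable {e : ℕ} {ν ν' : ℝ} {f g : ℕ → ℕ}

theorem Fq.nonneg (h : Fq e ν f) : 0 ≤ ν := by
  refine le_of_forall_pos_le_add fun ε hε => ?_
  obtain ⟨L, h1, h2⟩ := ((h ε hε).and_eventually (eventually_gt_atTop 0)).exists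
  have h3 : (0 : ℝ) < (L : ℝ) ^ e := by positivity
  have h4 : 0 ≤ ν + ε := nonneg_of_mul_nonneg_left (le_trans (by positivity) h1) h3
  linarith

theorem Fq.mono (h : Fq e ν f) (hν : ν ≤ ν') : Fq e ν' f := fun ε hε =>
  (h ε hε).mono fun L hL => hL.trans (by gcongr)

theorem Fq.of_forall (h : ∀ ε : ℝ, 0 < ε → Fq e (ν + ε) f) : Fq e ν f := fun ε hε =>
  (h (ε / 2) (by positivity) (ε / 2) (by positivity)).mono fun L hL => by
    rwa [add_assoc, add_halves] at hL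

theorem not_fq (h : ¬ Fq e ν f) :
    ∃ ε : ℝ, 0 < ε ∧ ∀ᶠ L : ℕ in atTop, (ν + ε) * (L : ℝ) ^ e < (e.factorial : ℝ) * f L := by
  simpa only [Fq, not_forall, not_frequently, not_le, exists_prop] using h

theorem shift_pow (e c : ℕ) {δ : ℝ} (hδ : 0 < δ) :
    ∀ᶠ L : ℕ in atTop, ((L + c : ℕ) : ℝ) ^ e ≤ (1 + δ) * (L : ℝ) ^ e := by
  have h1 : Tendsto (fun L : ℕ => (1 + (c : ℝ) / L) ^ e) atTop (𝓝 ((1 + 0) ^ e)) :=
    ((tendsto_const_div_atTop_nhds_zero_nat (c : ℝ)).const_add 1).pow e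
  rw [add_zero, one_pow] at h1
  filter_upwards [h1.eventually (gt_mem_nhds (show (1 : ℝ) < 1 + δ by linarith)),
    eventually_gt_atTop 0] with L h2 h3
  have h4 : (0 : ℝ) < L := by exact_mod_cast h3
  have e1 : ((L + c : ℕ) : ℝ) = (1 + (c : ℝ) / L) * L := by push_cast; field_simp
  rw [e1, mul_pow]
  gcongr

/-- Growth bounds are invariant under shifts. -/
theorem Fq.shift' (h : Fq e ν f) (c : ℕ) (H : ∀ᶠ L in atTop, g L ≤ f (L + c)) : Fq e ν g := by
  intro ε hε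
  have h0 := h.nonneg
  have h1 : 0 < ν + ε / 2 := by positivity
  obtain ⟨a, ha⟩ := eventually_atTop.1 (H.and (shift_pow e c (δ := ε / 2 / (ν + ε / 2))
    (by positivity)))
  refine frequently_atTop.2 fun b => ?_
  obtain ⟨L, h2, h3⟩ := frequently_atTop.1 (h (ε / 2) (by positivity)) (a + b + c)
  obtain ⟨L, rfl⟩ : ∃ L', L = L' + c := ⟨L - c, by omega⟩
  obtain ⟨h4, h5⟩ := ha L (by omega)
  refine ⟨L, by omega, ?_⟩
  calc (e.factorial : ℝ) * g L ≤ e.factorial * f (L + c) := by gcongr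
    _ ≤ (ν + ε / 2) * ((1 + ε / 2 / (ν + ε / 2)) * (L : ℝ) ^ e) := h3.trans (by gcongr)
    _ = _ := by field_simp; ring

theorem Fq.shift (h : Fq e ν f) (c : ℕ) (H : ∀ L, g L ≤ f (L + c)) : Fq e ν g :=
  h.shift' c (.of_forall H)

theorem Fq.le (h : Fq e ν f) (H : ∀ L, g L ≤ f L) : Fq e ν g := h.shift 0 H

theorem Fq.low (h : Fq e ν f) {N : ℕ} (H : ∀ L, N * L ^ e ≤ e.factorial * f L) : N ≤ ⌊ν⌋₊ := by
  refine Nat.le_floor (le_of_forall_pos_le_add fun ε hε => ?_)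
  obtain ⟨L, h1, h2⟩ := ((h ε hε).and_eventually (eventually_gt_atTop 0)).exists
  have h3 : (0 : ℝ) < (L : ℝ) ^ e := by positivity
  have h4 : (N : ℝ) * (L : ℝ) ^ e ≤ e.factorial * f L := by exact_mod_cast H L
  exact le_of_mul_le_mul_right (h4.trans h1) h3

theorem pow_step (e : ℕ) (x : ℝ) (hx : 0 ≤ x) :
    (x + 1) ^ (e + 1) ≤ x ^ (e + 1) + (e + 1) * (x + 1) ^ e := by
  induction e with
  | zero => simp
  | succ e ih =>
    have h1 : x ^ (e + 1) ≤ (x + 1) ^ (e + 1) := by gcongr; linarith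
    calc (x + 1) ^ (e + 1 + 1) = (x + 1) * (x + 1) ^ (e + 1) := by ring
      _ ≤ (x + 1) * (x ^ (e + 1) + (e + 1) * (x + 1) ^ e) := by gcongr
      _ = x ^ (e + 1 + 1) + x ^ (e + 1) + (e + 1) * (x + 1) ^ (e + 1) := by ring
      _ ≤ _ := by push_cast; linarith

/-- The growth of a difference. -/
theorem Fq.diff' (h : Fq (e + 1) ν f) (H : ∀ᶠ L in atTop, g (L + 1) + f L ≤ f (L + 1)) :
    Fq e ν g := by
  by_contra hc
  obtain ⟨ε, hε, h1⟩ := not_fq hc
  have h0 := h.nonneg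
  obtain ⟨a, ha⟩ := eventually_atTop.1 (H.and h1)
  have key : ∀ i : ℕ, (ν + ε) * (((a + i : ℕ) : ℝ) ^ (e + 1) - (a : ℝ) ^ (e + 1)) ≤
      ((e + 1).factorial : ℝ) * f (a + i) := by
    intro i
    induction i with
    | zero => simp; positivity
    | succ i ih =>
      have h2 : (g (a + i + 1) : ℝ) + f (a + i) ≤ f (a + i + 1) := by
        exact_mod_cast (ha (a + i) (by omega)).1
      have h3 := (ha (a + i + 1) (by omega)).2
      have h4 := pow_step e ((a + i : ℕ) : ℝ) (by positivity)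
      have h5 : (0 : ℝ) < e.factorial := by positivity
      rw [← add_assoc, Nat.factorial_succ] at *
      push_cast at *
      have h6 : (ν + ε) * ((a + i + 1 : ℝ) ^ (e + 1) - (a + i : ℝ) ^ (e + 1)) ≤
          (ν + ε) * ((e + 1) * (a + i + 1 : ℝ) ^ e) := by gcongr; linarith
      have h7 : ((e : ℝ) + 1) * ((ν + ε) * (a + i + 1 : ℝ) ^ e) ≤
          (e + 1) * (e.factorial * g (a + i + 1)) := by gcongr
      have h8 : ((e : ℝ) + 1) * e.factorial * (g (a + i + 1) + f (a + i)) ≤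
          (e + 1) * e.factorial * f (a + i + 1) := by gcongr
      nlinarith
  have h2 : Tendsto (fun L : ℕ => ε / 2 * (L : ℝ) ^ (e + 1)) atTop atTop :=
    ((tendsto_pow_atTop e.succ_ne_zero).comp tendsto_natCast_atTop_atTop).const_mul_atTop
      (by positivity)
  obtain ⟨L, h3, h4, h5⟩ := ((h (ε / 2) (by positivity)).and_eventually
    ((h2.eventually_gt_atTop ((ν + ε) * (a : ℝ) ^ (e + 1))).and (eventually_ge_atTop a))).exists
  obtain ⟨i, rfl⟩ := Nat.exists_eq_add_of_le h5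
  have := key i
  nlinarith

theorem Fq.diff (h : Fq (e + 1) ν f) (H : ∀ L, g (L + 1) + f L ≤ f (L + 1)) : Fq e ν g :=
  h.diff' (.of_forall H)

/-- The least growth bound. -/
noncomputable def lw (e : ℕ) (f : ℕ → ℕ) : ℝ := sInf {ν | Fq e ν f}

theorem Fq.lw_le (h : Fq e ν f) : lw e f ≤ ν := csInf_le ⟨0, fun _ h => h.nonneg⟩ h

theorem Fq.at_lw (h : Fq e ν f) : Fq e (lw e f) f := Fq.of_forall fun ε hε => by
  obtain ⟨x, h1, h2⟩ := exists_lt_of_csInf_lt (s := {ν | Fq e ν f}) ⟨ν, h⟩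
    (lt_add_of_pos_right _ hε)
  exact Fq.mono h1 h2.le

theorem lt_lw {x : ℝ} (h : x < lw e f) :
    ∀ᶠ L : ℕ in atTop, x * (L : ℝ) ^ e ≤ (e.factorial : ℝ) * f L := by
  obtain ⟨ε, hε, h1⟩ := not_fq fun c : Fq e x f => h.not_ge c.lw_le
  exact h1.mono fun L hL => le_trans (by gcongr; linarith) hL.le

/-- A bound for a sum splits. -/
theorem Fq.split (h : Fq e ν fun L => f L + g L) : Fq e (ν - lw e g) f := fun ε hε =>
  ((h (ε / 2) (by positivity)).and_eventually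
    (lt_lw (show lw e g - ε / 2 < lw e g by linarith))).mono fun L ⟨h1, h2⟩ => by
      push_cast at h1
      nlinarith

end Fq

end Pool.Agent.R72.Res.SF
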