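import Mathlib.Algebra.Order.Antidiag.FinsuppEquiv
import Pool.Agent.Lib.helper72.RM.M13
import Pool.Agent.Lib.helper72.RM.M15
import Pool.Agent.Lib.helper72.RM.M25
import Pool.Agent.MP_19ffc6_ag.Res.SFNum

-- ======== part 0: formerly Pool.Agent.MP_19ffc6_ag.Res.SFCut
section MrgPart0

/-! PROJECT SHARP: the modules CARD, GAMEQ, CONEQ. -/

namespace Pool.Agent.R72.Res.SF

open Pool.Agent.R72.Wild Pool.Agent.R72.Res.PA Pool.Agent.R72.Res.PF Submodule Filter Module
  MvPolynomial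

section Pure

variable {k σ : Type} [Field k] [Finite σ]

/-- The sharp lower bound for the Hilbert function of a prime. -/
theorem hf_low (p : Ideal (MvPolynomial σ k)) [p.IsPrime] {d : ℕ} (hd : dm p = d) (L : ℕ) :
    L ^ d ≤ d.factorial * hf p L := by
  classical
  obtain ⟨e, he⟩ := Cut.exists_ind p hd
  let s := Finset.finsuppAntidiag (Finset.univ : Finset (Fin (d + 1))) L
  have hs : ∀ a ∈ s, a 0 + ∑ i : Fin d, a i.succ = L := fun a ha => by
    rw [← Fin.sum_univ_succ]; exact (Finset.mem_finsuppAntidiag.1 ha).1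
  let u : s → (Fin d →₀ ℕ) := fun a => a.1.tail
  have hu : Function.Injective u := fun a b h => by
    have h1 : ∀ i : Fin d, a.1 i.succ = b.1 i.succ := fun i => DFunLike.congr_fun h i
    have h2 := hs a a.2
    have h3 := hs b b.2
    simp only [h1] at h2
    exact Subtype.ext (Finsupp.ext fun i => Fin.cases (by omega) h1 i)
  have h1 := ((basisMonomials (Fin d) k).linearIndependent.comp u hu).map'
    (aeval fun i => Ideal.Quotient.mkₐ k p (X (e i))).toLinearMap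
    (LinearMap.ker_eq_bot.2 he)
  have h2 := finrank_span_eq_card h1
  rw [Fintype.card_coe, Finset.card_finsuppAntidiag_nat_eq_choose, Finset.card_univ,
    Fintype.card_fin, show d + 1 + L - 1 = L + d by omega, Nat.choose_symm_add] at h2
  have h3 : (L + d).choose d ≤ hf p L := by
    rw [← h2]
    refine Submodule.finrank_mono (Submodule.span_le.2 ?_)
    rintro _ ⟨a, rfl⟩
    refine ⟨rename e (monomial (u a) 1), (mem_restrictTotalDegree _ _ _).2
      ((totalDegree_rename_le _ _).trans ((totalDegree_monomial_le _ _).trans ?_)), ?_⟩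
    · rw [Finsupp.sum_fintype _ _ fun _ => rfl]
      exact Nat.le.intro ((add_comm _ _).trans (hs a a.2))
    · exact AlgHom.congr_fun (algHom_ext (f := (Ideal.Quotient.mkₐ k p).comp (rename e))
        (g := aeval fun i => Ideal.Quotient.mkₐ k p (X (e i))) fun j => by simp) (monomial (u a) 1)
  calc L ^ d ≤ (L + 1) ^ d := Nat.pow_le_pow_left (Nat.le_succ L) d
    _ ≤ (L + 1).ascFactorial d := Nat.pow_succ_le_ascFactorial _ _
    _ = d.factorial * (L + d).choose d := Nat.ascFactorial_eq_factorial_mul_choose _ _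
    _ ≤ _ := Nat.mul_le_mul_left _ h3

variable (k) in
/-- Module CARD. -/
theorem card : CardS k := fun ι α _ e ν s p hp h => h.low fun L => by
  rw [Finset.mul_sum]
  exact Finset.card_nsmul_le_sum s _ _ fun a ha => have := (hp a ha).1; hf_low _ (hp a ha).2 L

omit [Finite σ] in
theorem Pq.sub {e : ℕ} {ν : ℝ} {s s' : Finset (Ideal (MvPolynomial σ k))} (h : Pq e ν s)
    (hs : s' ⊆ s) : Pq e ν s' :=
  ⟨fun p hp => h.prime p (hs hp), fun p hp => h.dim p (hs hp),
    h.gr.le fun _ => Finset.sum_le_sum_of_subset hs⟩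

theorem Pq.card {e : ℕ} {ν : ℝ} {s : Finset (Ideal (MvPolynomial σ k))} (h : Pq e ν s) :
    s.card ≤ ⌊ν⌋₊ := SF.card k σ _ e ν s id (fun p hp => ⟨h.prime p hp, h.dim p hp⟩) h.gr

/-- Primes of the same dimension over an ideal. -/
theorem pq_of_le {e : ℕ} {ν : ℝ} {s : Finset (Ideal (MvPolynomial σ k))}
    (h1 : ∀ p ∈ s, p.IsPrime) (h2 : ∀ p ∈ s, dm p = e) {I : Ideal (MvPolynomial σ k)}
    (h3 : ∀ p ∈ s, I ≤ p) (h : Fq e ν (hf I)) : Pq e ν s := by
  obtain ⟨c, hc⟩ := Cut.hf_sum s h1 fun p hp q hq h =>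
    have := h1 p hp; have := h1 q hq; Cut.eq_of_dm h ((h2 p hp).trans (h2 q hq).symm).le
  exact ⟨h1, h2, h.shift c (hc I h3)⟩

/-- A hyperplane section does not increase the degree. -/
theorem Pq.cut {e : ℕ} {ν : ℝ} {s : Finset (Ideal (MvPolynomial σ k))} (hs : Pq (e + 1) ν s)
    {u : MvPolynomial σ k} (hu : ∀ p ∈ s, u ∉ p) (h1 : u.totalDegree ≤ 1) :
    ∃ s', Pq e ν s' ∧
      ∀ p ∈ s, ∀ q : Ideal (MvPolynomial σ k), q.IsPrime → p ≤ q → u ∈ q → ∃ p' ∈ s', p' ≤ q := by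
  classical
  have hfin : ∀ q : Ideal (MvPolynomial σ k), (q ⊔ Ideal.span {u}).minimalPrimes.Finite :=
    fun q => Ideal.finite_minimalPrimes_of_isNoetherianRing _ _
  choose c hc using fun q => Cut.hf_sum (hfin q).toFinset
    (fun p hp => ((hfin q).mem_toFinset.1 hp).isPrime) fun p hp p' hp' h =>
      le_antisymm h (((hfin q).mem_toFinset.1 hp').2 ((hfin q).mem_toFinset.1 hp).1 h)
  have hd : Fq e ν fun L => ∑ q ∈ s, hf (q ⊔ Ideal.span {u}) L := hs.gr.diff fun L => by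
    rw [← Finset.sum_add_distrib]
    refine Finset.sum_le_sum fun q hq => ?_
    have := hs.prime q hq
    exact Cut.hf_gen (I := q) (J := q ⊔ Ideal.span {u}) le_sup_left le_rfl
      (Ideal.mem_sup_right (Ideal.mem_span_singleton_self u)) (hu q hq) h1 L
  refine ⟨s.biUnion fun q => (hfin q).toFinset, ⟨fun p hp => ?_, fun p hp => ?_,
    hd.shift (s.sup c) fun L => (Cut.sum_union_le _ _ _).trans (Finset.sum_le_sum fun q hq => ?_)⟩,
    fun p hp q hq h4 h5 => ?_⟩
  · obtain ⟨q, -, hp⟩ := Finset.mem_biUnion.1 hp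
    exact ((hfin q).mem_toFinset.1 hp).isPrime
  · obtain ⟨q, hq, hp⟩ := Finset.mem_biUnion.1 hp
    have := hs.prime q hq
    have h2 := Kr.krull' (k := k) (hu q hq) ((hfin q).mem_toFinset.1 hp)
    rw [show Algebra.trdeg k (MvPolynomial σ k ⧸ q) = _ from hs.dim q hq, Nat.cast_succ] at h2
    exact Cardinal.add_one_inj.1 h2
  · exact (hc q _ (fun p hp => ((hfin q).mem_toFinset.1 hp).le) L).trans
      (Cut.hf_mono _ (Nat.add_le_add_left (Finset.le_sup (f := c) hq) L))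
  · obtain ⟨p', h6, h7⟩ := Ideal.exists_minimalPrimes_le (I := p ⊔ Ideal.span {u})
      (sup_le h4 ((Ideal.span_singleton_le_iff_mem _).2 h5))
    exact ⟨p', Finset.mem_biUnion.2 ⟨p, hp, (hfin p).mem_toFinset.2 h6⟩, h7⟩

theorem game_cut {E : Type} [AddCommGroup E] [Module k E] (e : ℕ) (ν : ℝ)
    (l : E →ₗ[k] MvPolynomial σ k) (hl : ∀ x, (l x).totalDegree ≤ 1) :
    ∀ (r : ℕ) (s : Finset (Ideal (MvPolynomial σ k))), Pq (e + r) ν s →
      Game (k := k) ⌊ν⌋₊ r fun x =>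
      ∀ q : Ideal (MvPolynomial σ k), q.IsPrime → (∃ p ∈ s, p ≤ q) → (∃ y, l y ∉ q) →
        (∀ i, l (x i) ∈ q) → dm q ≤ e
  | 0, s, hs => fun q _ ⟨p, hp, hpq⟩ _ _ => (Gme.dm_anti hpq).trans (hs.dim p hp).le
  | r + 1, s, hs => by
      classical
      have h0 : Pq (e + r + 1) ν (s.filter fun p => ∃ y, l y ∉ p) :=
        hs.sub (Finset.filter_subset _ _)
      refine ⟨(s.filter fun p => ∃ y, l y ∉ p).image fun p => (p.restrictScalars k).comap l,
        Finset.card_image_le.trans h0.card, fun q hq => ?_, fun x hx => ?_⟩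
      · obtain ⟨p, hp, rfl⟩ := Finset.mem_image.1 hq
        obtain ⟨y, hy⟩ := (Finset.mem_filter.1 hp).2
        intro ht
        have : y ∈ (p.restrictScalars k).comap l := ht ▸ mem_top
        exact hy this
      · obtain ⟨s', h1, h3⟩ := h0.cut (u := l x)
          (fun p hp => hx _ (Finset.mem_image_of_mem _ hp)) (hl x)
        refine Gme.mono le_rfl r _ _ ?_ (game_cut e ν l hl r s' h1)
        rintro y hy q hq ⟨p, hp, hpq⟩ ⟨z, hz⟩ hi
        exact hy q hq (h3 p (Finset.mem_filter.2 ⟨hp, z, fun hh => hz (hpq hh)⟩) q hq hpq (hi 0))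
          ⟨z, hz⟩ fun i => hi i.succ

variable (k) in
/-- Module GAMEQ. -/
theorem game : GameS k := fun _ _ _ _ _ e r ν s l hs hl => game_cut e ν l hl r s hs

end Pure

/-- Module CONEQ. -/
theorem cone {k K : Type} [Field k] [Field K] [Algebra k K] {m : ℕ} : ConeS k K m := by
  classical
  intro ν I _ t T D hT hw hG
  choose! J s a1 a2 a3 using fun w (h : w ∈ D) => Cone.one krull t hT (hw w h)
  have hm : ∀ p ∈ D.biUnion s, ∃ w ∈ D, p ∈ s w := fun p hp => by simpa using hp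
  refine ⟨D.biUnion s, pq_of_le (I := D.inf J) (fun p hp => ?_) (fun p hp => ?_) (fun p hp => ?_)
    (hG.shift 1 fun L => (Cone.hf_finset _ _ L).trans (Finset.sum_le_sum fun w h =>
      Cone.hf_le_cod t T _ hT _ (a2 w h) L)), fun w h O b1 b2 b3 => ?_⟩
  · obtain ⟨w, h, h'⟩ := hm p hp
    exact (a1 w h p h').1
  · obtain ⟨w, h, h'⟩ := hm p hp
    exact (a1 w h p h').2.1
  · obtain ⟨w, h, h'⟩ := hm p hp
    exact (Finset.inf_le h).trans (a1 w h p h').2.2
  · obtain ⟨q, q1, ⟨p, p1, p2⟩, q3⟩ := a3 w h O b1 b2 b3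
    exact ⟨q, q1, ⟨p, Finset.mem_biUnion.2 ⟨w, h, p1⟩, p2⟩, q3⟩

end Pool.Agent.R72.Res.SF

end MrgPart0

-- ======== part 1: formerly Pool.Agent.MP_19ffc6_ag.Res.SFRat
section MrgPart1

/-! PROJECT SHARP, module RATQ: good local parameters avoid a bounded number of subspaces. -/

namespace Pool.Agent.R72.Res.SF

open Pool.Agent.R72.Wild Pool.Agent.R72.Res.PA Pool.Agent.R72.Res.PF Submodule Filter Module
  MvPolynomial Pool.Agent.R72.Res.PA.LocK

variable {k K : Type} [Field k] [Field K] [Algebra k K] {m : ℕ}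

namespace RatQ

open Nul

theorem rd_top {e : ℕ} {T : Submodule k K} (hT : T.FG) {y : Fin e → K} (hy : ∀ i, y i ∈ T)
    (h : ∀ O, Cen T O → ∃ i, Gn O T (y i)) (X : Submodule k K) : Rd T 1 y (alg T * X) ⊥ := by
  obtain ⟨N, h4⟩ := null _ T 1 ⊥ ⊤ y 0 hT one_fg val_top top_max (fun _ _ => trivial)
    (fun _ _ => trivial) hy (zero_mem _) fun O hO _ _ _ => .inl (h O hO)
  have h5 := rd_of h4 X
  simpa only [one_pow, one_mul, pr, span_zero_singleton, Submodule.bot_mul, sup_idem] using h5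

theorem rd_div {e : ℕ} {T : Submodule k K} (hT : T.FG) {y : Fin e → K} (hy : ∀ i, y i ∈ T)
    {w : DV k K} (hw : T ≤ w.fil 0)
    (h : ∀ O, Cen T O → O ≤ w.vr → ¬ T ≤ w.fil 1 → ∃ i, Gn O T (y i)) :
    Rd T 1 y (alg T) (w.fil 1) := by
  obtain ⟨N, h4⟩ := null _ T 1 (w.fil 1) w.vr y 0 hT one_fg
    (val_vr w) (vr_max w) hw St.one_le_fil hy (zero_mem _)
    fun O hO hR hq _ => .inl (h O hO hR hq)
  have h5 := rd_of h4 1
  simp only [one_pow, mul_one, pr, span_zero_singleton, Submodule.bot_mul, bot_sup_eq] at h5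
  exact Red.rd_mono h5 (by rw [mul_comm]; exact md_fil hw 1)

theorem exists_cen {T : Submodule k K} (h1 : (1 : K) ∉ nn T) : ∃ O, Cen T O := by
  obtain ⟨O, hO, hB, hI⟩ := exists_val (Algebra.adjoin k (T : Set K)) (· ∈ nn T) (zero_mem _)
    (fun _ _ => add_mem) (fun b hb x hx => mul_mem_nn hb hx) h1
  exact ⟨O, hO, fun t ht => ⟨hB (le_alg T ht), hI t (le_alg T ht) (le_nn T ht)⟩⟩

theorem min_of_not {v : DV k K} {J : Submodule k K} (hJ : J.FG) {W : K} (hW : W ∈ J)
    (h : W ∉ v.fil (v.ordS J + 1)) : v.Min J W := by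
  have h0 : W ≠ 0 := fun e => h (e ▸ zero_mem _)
  rw [St.mem_fil h0] at h
  have := St.ordS_le (w := v) hJ hW h0
  exact ⟨hW, h0, by omega⟩

theorem not_le_fil (v : DV k K) {J : Submodule k K} (hJ : J.FG) (h0 : J ≠ ⊥) :
    ¬ J ≤ v.fil (v.ordS J + 1) := fun h => by
  have := St.le_ordS hJ h0 h
  omega

theorem le_mul {E X : Submodule k K} (h : (1 : K) ∈ X) : E ≤ E * X := fun x hx => by
  simpa using mul_mem_mul hx h

theorem ne_bot {X : Submodule k K} (h : (1 : K) ∈ X) : X ≠ ⊥ := fun e =>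
  one_ne_zero ((mem_bot k).1 (e ▸ h))

/-- A tuple of local parameters with bounded local degrees is good. -/
theorem fin1 {d : Fin (m + 1) → Derivation k K K} {C : ℕ} {D : Set (DV k K)} {M₀ T : Submodule k K}
    {l : Fin (m + 1) → K} (hn : (1 : K) ∉ nn T) (hl : ∀ i, l i ∈ T) (h1 : CX d C T M₀ l)
    (h2 : ∀ w ∈ D, Ld C T (fun i : Fin m => l i.castSucc) (alg T) (w.fil 1))
    (h3 : CP d C T (fun i : Fin m => l i.castSucc) (Jac d l))
    (h4 : Jac d l ∉ T * (alg T * JJ d T)) : Fin1 d C D M₀ T (Fin.cons 1 l) := by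
  have hc : ∀ (i : Fin (m + 1)) (c : k), l i - c • (1 : K) ∈ nn T → c = 0 := fun i c h => by
    refine cst_eq_zero hn ?_
    rw [Algebra.algebraMap_eq_smul_one, ← sub_sub_cancel (l i) (c • (1 : K))]
    exact sub_mem (le_nn T (hl i)) h
  refine ⟨⟨⟨0, hn⟩, fun i₀ c h0 h => ?_, fun i₀ c h0 h => ?_, fun h => absurd (h 0) hn⟩, ?_⟩
  · obtain rfl : i₀ = 0 := by
      induction i₀ using Fin.cases with
      | zero => rfl
      | succ i => exact absurd (le_nn T (hl i)) h0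
    simp only [Fin.succAbove_zero, Fin.cons_succ, Fin.cons_zero] at h ⊢
    simp only [fun i => hc i _ (h i), zero_smul, sub_zero]
    exact h1
  · obtain rfl : i₀ = 0 := by
      induction i₀ using Fin.cases with
      | zero => rfl
      | succ i => exact absurd (le_nn T (hl i.castSucc)) h0
    simp only [Fin.succAbove_zero, Fin.castSucc_zero, Fin.castSucc_succ, Fin.cons_succ,
      Fin.cons_zero] at h ⊢
    simp only [fun i => hc _ _ (h i), zero_smul, sub_zero]
    rw [wr_cons_one]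
    exact ⟨h2, fun _ => h3⟩
  · rwa [wr_cons_one]

end RatQ

open RatM RatQ in
theorem rat_of [IsAlgClosed k] (uni : UniStmt k K m) (rees : ReesS k K m) (polar : PolarS k K m)
    (cnt : CntS k K) (xcone : XconeS k K m) (dw : DwS k K m) (rank : RankS k K) :
    RatS k K m := by
  classical
  rintro t₀ d C g D M₀ T I _ t hF hT h1 hJ hM hD hP ⟨ν₀, ν₁, ν₂, hG, c0, c1, c2, g0, g1⟩
  have hTf : T.FG := hT ▸ fg_span (Set.finite_range t)
  have hfld := fld hF hTf hJ
  have hJf := JJ_fg (d := d) hTf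
  have hdep : Dep k K m := fun w g hg => (uni t₀ g d w hF hg).1
  have hj : span k (Set.range fun f : Fin (m + 1) → I => Jac d (t ∘ f)) = JJ d T :=
    hT ▸ span_jac d t
  have hmem : ∀ c : I → k, ∑ i, c i • t i ∈ T := fun c =>
    hT ▸ sum_mem fun c _ => smul_mem _ _ (subset_span ⟨c, rfl⟩)
  obtain ⟨G, hR⟩ := rees T hfld
  obtain ⟨E₀, e1, e2, e3⟩ := cnt T G hTf hfld.ne hR.pos
  obtain ⟨p, hp, hcov⟩ := xcone I t T G hT hR hdep
  have o1 : (1 : K) ∈ (M₀ ⊔ 1 : Submodule k K) := mem_sup_right (mem_one.2 ⟨1, map_one _⟩)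
  obtain ⟨M, m1, m2, ⟨b₀, m3⟩, -⟩ := hG.x (E₀ * (M₀ ⊔ 1)) (e1.mul (hM.sup Nul.one_fg))
    (by simpa using mul_mem_mul e2 o1)
  have hMM : (E₀ * (M₀ ⊔ 1) * M).FG := (e1.mul (hM.sup Nul.one_fg)).mul m1
  have hM0 : M₀ ≤ E₀ * (M₀ ⊔ 1) * M := by
    rw [mul_comm E₀]
    exact le_sup_left.trans ((le_mul e2).trans (le_mul m2))
  have hX : Fq (m + 1) ν₀ fun L => ∑ v ∈ G, hf (p v) L := m3.shift 1 fun L => by
    obtain ⟨j, j1, j2⟩ := exists_mem_ne_zero_of_ne_bot hJ
    have := e3 ((M₀ ⊔ 1) * M * JJ d T ^ b₀) (((hM.sup Nul.one_fg).mul m1).mul (hJf.pow _))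
      (fun e => pow_ne_zero b₀ j2 ((mem_bot k).1 (e ▸ (by
        simpa using mul_mem_mul (mul_mem_mul o1 m2) (pow_mem_pow _ j1 b₀))))) (L + 1)
    rw [← mul_assoc E₀, ← mul_assoc E₀] at this
    exact (Finset.sum_le_sum fun v hv => (hp v hv).2.2 L).trans this
  have cG : G.card ≤ ⌊ν₀⌋₊ := card k I _ _ ν₀ G p (fun v hv => ⟨(hp v hv).1, (hp v hv).2.1⟩) hX
  have hs : Pq (0 + (m + 1)) ν₀ (G.image p) := by
    rw [zero_add]
    refine ⟨fun q hq => ?_, fun q hq => ?_, hX.le fun L => Finset.sum_image_le_of_nonneg ?_⟩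
    · obtain ⟨v, hv, rfl⟩ := Finset.mem_image.1 hq
      exact (hp v hv).1
    · obtain ⟨v, hv, rfl⟩ := Finset.mem_image.1 hq
      exact (hp v hv).2.1
    · exact fun _ _ => Nat.zero_le _
  obtain ⟨sc, hsc, hcone⟩ := cone ν₂ I t T hD.toFinset hT (fun w hw => hP w (by simpa using hw))
    (hG.bd _ (by simp))
  have G1 := game k (I → k) I 0 (m + 1) ν₀ _ (lfL id) hs (lfL_deg _)
  have G2 := Gme.multi (G.image fun v => v.fil (v.ordS (JJ d T) + 1)) (m + 1)
    ((Fintype.linearCombination k fun f : Fin (m + 1) → I => Jac d (t ∘ f)).compMultilinearMap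
      (prd I (m + 1))) (by
      intro p' hp'
      obtain ⟨v, -, rfl⟩ := Finset.mem_image.1 hp'
      by_contra hc
      push Not at hc
      refine not_le_fil v hJf hJ (hj.ge.trans (span_le.2 ?_))
      rintro _ ⟨f, rfl⟩
      have := hc fun i => Pi.single (f i) 1
      rwa [LinearMap.compMultilinearMap_apply, prd_single,
        Fintype.linearCombination_apply_single, one_smul] at this)
  refine Gme.mono ?_ _ _ _ ?_ (Gme.and _ _ _ G1 G2)
  · have := (Finset.card_image_le (s := G) (f := fun v => v.fil (v.ordS (JJ d T) + 1))).trans cG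
    omega
  rintro x ⟨hx1, hx2⟩
  set W := Jac d fun i => ∑ c, x i c • t c with hWe
  have hW : W ∈ JJ d T := jac_mem fun i => hmem _
  have hWv : ∀ v ∈ G, W ∉ v.fil (v.ordS (JJ d T) + 1) := fun v hv => by
    have := hx2 _ (Finset.mem_image_of_mem _ hv)
    rwa [LinearMap.compMultilinearMap_apply, Fintype.linearCombination_apply, ← jac_sum] at this
  have V1 : ∀ O, Cen T O → ∃ i, Gn O T (∑ c, x i c • t c) := by
    intro O hO
    obtain ⟨q, q1, ⟨v, hv, q2⟩, q3, q4⟩ := hcov O hO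
    by_contra hn
    push Not at hn
    obtain ⟨c, hc⟩ := exists_gn hO.1 t (hT ▸ hfld.ne)
    have := hx1 q q1 ⟨_, Finset.mem_image_of_mem _ hv, q2⟩ ⟨Pi.single c 1, by
      rw [lfL_apply, q4, not_not]
      simpa [Pi.single_apply, hT] using hc⟩ fun i => by rw [lfL_apply, q4]; exact hn i
    exact absurd (q3.trans this) (by norm_num)
  obtain ⟨O₀, hO₀⟩ := exists_cen h1
  obtain ⟨-, -, ⟨v₀, hv₀, -⟩, -⟩ := hcov O₀ hO₀
  have hW0 : W ≠ 0 := fun e => hWv v₀ hv₀ (e ▸ zero_mem _)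
  obtain ⟨DW, E, f1, f2, f3, f4⟩ := dw T _ W hfld hdep hJf hW hW0
  obtain ⟨M', n1, n2, -, P, p1, p2, p3⟩ := hG.x E f1 f2
  obtain ⟨W₁, w1, w2⟩ := Num.exists_avoid (J := JJ d T)
    (p1.union (G.finite_toSet.image fun v => v.fil (v.ordS (JJ d T) + 1))) (by
      rintro q (hq | ⟨v, -, rfl⟩)
      exacts [p2 q hq, not_le_fil v hJf hJ])
  obtain ⟨b, hb⟩ := p3 W₁ w1 fun q hq => w2 q (.inl hq)
  have hE0 : E * M' ≠ ⊥ := ne_bot (by simpa using mul_mem_mul f2 n2)
  obtain ⟨e, he⟩ := polar T _ (E * M') G W W₁ b hR hJf hJ (f1.mul n1) hE0 hW w1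
    (fun v hv => min_of_not hJf hW (hWv v hv))
    fun v hv => min_of_not hJf w1 (w2 _ (.inr ⟨v, hv, rfl⟩))
  have hpol := hb.shift e he
  obtain ⟨⟨c, hc⟩, hrd⟩ := f4 M' b n1 (ne_bot n2)
  obtain ⟨sw, hsw, hcw⟩ := cone ν₁ I t T DW hT f3 (hpol.shift c hc)
  have H1 := Gme.init _ _ (game k (Fin (m + 1) → k) _ 0 m _ sw
    (lfL id ∘ₗ Fintype.linearCombination k x) (by rwa [zero_add]) fun _ => lfL_deg _ _)
  have H2 := Gme.init _ _ (game k (Fin (m + 1) → k) _ 0 m _ sc
    (lfL id ∘ₗ Fintype.linearCombination k x) (by rwa [zero_add]) fun _ => lfL_deg _ _)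
  have H3 := Gme.multi {⊥} (m + 1)
    (Matrix.detRowAlternating (n := Fin (m + 1)) (R := k)).toMultilinearMap (by
      intro p hp
      rw [Finset.mem_singleton.1 hp]
      refine ⟨(1 : Matrix (Fin (m + 1)) (Fin (m + 1)) k), fun h => ?_⟩
      have : (1 : Matrix (Fin (m + 1)) (Fin (m + 1)) k).det = 0 := h
      simp at this)
  refine Gme.mono ?_ _ _ _ ?_ (Gme.and _ _ _ (Gme.and _ _ _ H1 H2) H3)
  · rwa [Finset.card_singleton]
  rintro a ⟨⟨ha1, ha2⟩, ha3⟩
  have hdet : (Matrix.of a).det ≠ 0 := ha3 ⊥ (Finset.mem_singleton_self _)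
  have hjac : Jac d (fun i => ∑ j, a i j • ∑ c, x j c • t c) = (Matrix.of a).det • W :=
    jac_mix (Matrix.of a) _
  have one : ∀ i, ∑ j, (Pi.single i 1 : Fin (m + 1) → k) j • ∑ c, x j c • t c =
      ∑ c, x i c • t c := fun i => by simp [Pi.single_apply]
  have hl : ∀ i, ∑ j, a i j • ∑ c, x j c • t c ∈ T := fun i =>
    sum_mem fun j _ => smul_mem _ _ (hmem _)
  have V2 : ∀ {s : Finset (Ideal (MvPolynomial I k))} {O : Subalgebra k K}, Cen T O →
      (∀ q : Ideal (MvPolynomial I k), q.IsPrime → (∃ p ∈ s, p ≤ q) →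
        (∃ y, (lfL id ∘ₗ Fintype.linearCombination k x) y ∉ q) →
        (∀ i, (lfL id ∘ₗ Fintype.linearCombination k x) (Fin.init a i) ∈ q) → dm q ≤ (0 : ℕ)) →
      (∃ q : Ideal (MvPolynomial I k), q.IsPrime ∧ (∃ p ∈ s, p ≤ q) ∧ 1 ≤ dm q ∧
        ∀ c : I → k, lf id c ∈ q ↔ ¬ Gn O T (∑ i, c i • t i)) →
      ∃ i : Fin m, Gn O T (∑ j, a i.castSucc j • ∑ c, x j c • t c) := by
    rintro s O hO h ⟨q, q1, q2, q3, q4⟩
    obtain ⟨i, hi⟩ := V1 O hO
    by_contra hn
    push Not at hn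
    have := h q q1 q2 ⟨Pi.single i 1, by
      rw [LinearMap.comp_apply, lfL_apply, q4, mix, one, not_not]; exact hi⟩ fun i => by
      rw [LinearMap.comp_apply, lfL_apply, q4, mix]; exact hn i
    exact absurd (q3.trans this) (by norm_num)
  refine fin1 h1 hl ⟨_, b₀, hMM, hM0, ?_⟩ (fun w hw => ?_) ⟨_, b, f1.mul n1, hE0, ?_⟩ fun hc => ?_
  · refine rank _ C ν₀ T _ ⊥ _ hTf (hMM.mul (hJf.pow _)) (by simp) hl
      (rd_top hTf hl (fun O hO => ?_) _) (by simp only [sup_bot_eq]; exact m3) c0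
    obtain ⟨q, -, -, -, q4⟩ := hcov O hO
    obtain ⟨i, hi⟩ := V1 O hO
    by_contra hn
    push Not at hn
    have := rows_span (lfL id ∘ₗ Fintype.linearCombination k x) (q.restrictScalars k) a hdet
      (fun i => by
        rw [restrictScalars_mem, LinearMap.comp_apply, lfL_apply, q4, mix]; exact hn i)
      (Pi.single i 1)
    rw [restrictScalars_mem, LinearMap.comp_apply, lfL_apply, q4, mix, one] at this
    exact this hi
  · have := rank _ C ν₂ T 1 (w.fil 1) _ hTf Nul.one_fg (md_fil (hP w hw).le 1)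
      (fun i : Fin m => hl i.castSucc) (by
        rw [mul_one]
        exact rd_div hTf (fun i => hl _) (hP w hw).le fun O hO h2 h3 =>
          V2 hO ha2 (hcone w (by simpa using hw) O hO h2 h3))
      (by simpa using hG.bd {w} (by simpa using hw)) c2
    rwa [mul_one] at this
  · rw [hjac, Core.pr_smul hdet]
    exact rank _ C ν₁ T _ _ _ hTf ((f1.mul n1).mul (hJf.pow _)) ((md_Mb ..).mul _)
      (fun i : Fin m => hl i.castSucc) (hrd _ _ (fun i => hl _) fun w hw =>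
        rd_div hTf (fun i => hl _) (f3 w hw).le fun O hO h2 h3 =>
          V2 hO ha1 (hcw w hw O hO h2 h3)) hpol c1
  · rw [hjac, smul_mem_iff _ hdet] at hc
    have := St.mul_le_fil (hR.pos v₀ hv₀) (St.mul_le_fil
      (FW.alg_le ((hR.pos v₀ hv₀).trans (St.fil_anti zero_le_one))) (St.le_fil_ordS v₀ hJf)) hc
    rw [zero_add, add_comm] at this
    exact hWv v₀ hv₀ this

end Pool.Agent.R72.Res.SF

end MrgPart1

-- marker of a merged file
example : 731051 + 406708 = 731051 + 406708 := rfl
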