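import Mathlib.RingTheory.Valuation.Discrete.IsDiscreteValuationRing
import Pool.Agent.Lib.helper72.RM.M05
import Pool.Agent.Lib.helper72.RM.M13
import Pool.Agent.Lib.helper72.RM.M15
import Pool.Agent.MP_19ffc6_ag.Res.SFSpec

/-! PROJECT SHARP, finite ground fields, modules DVK and REESV: prime divisors of normal affine
rings and Rees valuations. -/

namespace Pool.Agent.R72.Res.SF

open Pool.Agent.R72.Wild Pool.Agent.R72.Res.PA Pool.Agent.R72.Res.PF Submodule Filter Module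

variable {k K : Type} [Field k] [Field K] [Algebra k K] {m : ℕ}

namespace Vl

/-- The valuation of a prime of height one of a normal Noetherian ring. -/
theorem dv_one (B : Subalgebra k K) [IsNoetherianRing B] [IsIntegrallyClosed B]
    [IsFractionRing B K] {u : B} (h0 : u ≠ 0) {P : Ideal B}
    (hP : P ∈ (Ideal.span {u}).minimalPrimes) :
    ∃ w : DV k K, (∀ x, x ∈ w.fil 0 ↔ ∃ s : B, s ∉ P ∧ s * x ∈ B) ∧
      ∀ b : B, (b : K) ∈ w.fil 1 ↔ b ∈ P := by
  have := hP.isPrime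
  have hle := P.primeCompl_le_nonZeroDivisors
  let R := Localization.subalgebra.ofField K P.primeCompl hle
  have : IsNoetherianRing R := IsLocalization.isNoetherianRing P.primeCompl R inferInstance
  have : IsLocalRing R := IsLocalization.AtPrime.isLocalRing R P
  have hu : u ∈ P := hP.le (Ideal.mem_span_singleton_self u)
  have hm : ∀ b : B, algebraMap B R b ∈ IsLocalRing.maximalIdeal R ↔ b ∈ P := fun b =>
    IsLocalization.AtPrime.to_map_mem_maximal_iff R P b
  have hi := IsLocalization.injective R hle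
  have h1 : IsIntegrallyClosed R ∧ ∀ Q : Ideal R, Q ≠ ⊥ → Q.IsPrime →
      Q = IsLocalRing.maximalIdeal R := by
    refine ⟨isIntegrallyClosed_of_isLocalization R P.primeCompl hle, fun Q q0 q1 => ?_⟩
    have e := IsLocalization.map_under P.primeCompl R Q
    have a1 : Q.under B ≤ P := fun b hb => (hm b).1 (IsLocalRing.le_maximalIdeal q1.ne_top hb)
    have a2 : Q.under B ≠ ⊥ := fun h => q0 (by rw [← e, h, Ideal.map_bot])
    rw [← e, ← IsLocalization.AtPrime.map_eq_maximalIdeal P R]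
    congr 1
    by_contra hne
    have a3 := (Ideal.height_strict_mono_of_isPrime (a1.lt_of_ne hne)).trans_le
      (Ideal.height_le_one_of_isPrincipal_of_mem_minimalPrimes _ P hP)
    exact a2 (Ideal.height_eq_zero_iff_eq_bot.1 (Order.lt_one_iff.1 a3))
  have : IsPrincipalIdealRing R :=
    ((tfae_of_isNoetherianRing_of_isLocalRing_of_isDomain R).out 3 0).1 h1
  have : IsDiscreteValuationRing R :=
    { not_a_field' := fun e => h0 (hi (((hm u).2 hu |> e.le).trans (map_zero _).symm)) }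
  let v := (IsDiscreteValuationRing.maximalIdeal R).valuation K
  have v0 : ∀ {x : K}, x ≠ 0 → v x ≠ 0 := fun hx => v.ne_zero_iff.2 hx
  have v1 : ∀ b : B, v b ≤ 1 := fun b =>
    (IsDiscreteValuationRing.maximalIdeal R).valuation_le_one (algebraMap B R b)
  have v2 : ∀ b : B, v b < 1 ↔ b ∈ P := fun b =>
    ((IsDiscreteValuationRing.maximalIdeal R).valuation_lt_one_iff_mem (algebraMap B R b)).trans
      (hm b)
  let w : DV k K :=
    { ord := fun x => -WithZero.log (v x)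
      zero := by simp
      mul := fun x y hx hy => by rw [map_mul, WithZero.log_mul (v0 hx) (v0 hy), neg_add]
      add := fun x y hx hy h => by
        have := v.map_add x y
        rw [le_max_iff, ← WithZero.log_le_log (v0 h) (v0 hx),
          ← WithZero.log_le_log (v0 h) (v0 hy)] at this
        omega
      cst := fun c => by
        by_cases hc : c = 0
        · simp [hc]
        have : v (algebraMap k B c) = 1 := (v1 _).eq_of_not_lt fun h => ‹P.IsPrime›.ne_top
          (P.eq_top_of_isUnit_mem ((v2 _).1 h) ((IsUnit.mk0 c hc).map _))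
        exact (congrArg (fun z => -WithZero.log z) this).trans (by simp)
      unif := by
        obtain ⟨π, hπ⟩ := (IsDiscreteValuationRing.maximalIdeal R).valuation_exists_uniformizer K
        exact ⟨π, fun e => WithZero.exp_ne_zero (hπ.symm.trans (by simp [e])), by simp [v, hπ]⟩ }
  have f0 : ∀ x, x ∈ w.fil 0 ↔ v x ≤ 1 := fun x => by
    by_cases hx : x = 0
    · simp [hx]
    rw [St.mem_fil hx, ← WithZero.log_le_log (v0 hx) one_ne_zero]
    simp [w]
  refine ⟨w, fun x => (f0 x).trans ⟨fun h => ?_, fun ⟨s, s1, s2⟩ => ?_⟩, fun b => ?_⟩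
  · obtain ⟨⟨_, a, s, hs, rfl⟩, rfl⟩ := IsDiscreteValuationRing.exists_lift_of_le_one h
    refine ⟨s, hs, ?_⟩
    have : (s : K) ≠ 0 := fun e => nonZeroDivisors.ne_zero (hle hs) (Subtype.ext e)
    change (s : K) * (a * (s : K)⁻¹) ∈ B
    rw [mul_left_comm, mul_inv_cancel₀ this, mul_one]
    exact a.2
  · have a1 := v1 ⟨_, s2⟩
    rwa [map_mul, (v1 s).eq_of_not_lt fun h => s1 ((v2 s).1 h), one_mul] at a1
  · rw [← v2]
    by_cases hx : (b : K) = 0
    · simp [hx]
    rw [St.mem_fil hx, ← WithZero.log_lt_log (v0 hx) one_ne_zero]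
    simp only [w, WithZero.log_one]
    omega

/-- Independent residues among the generators. -/
theorem ind_of (w : DV k K) (B : Subalgebra k K) (P : Ideal B) [P.IsPrime]
    (hP : ∀ b : B, (b : K) ∈ w.fil 1 ↔ b ∈ P) (hd : Algebra.trdeg k (B ⧸ P) = m) {S : Set K}
    (hS : S ⊆ B) (hi : ∀ b ∈ B, IsIntegral (Algebra.adjoin k S) b) :
    ∃ g : Fin m → K, (∀ i, g i ∈ S) ∧ w.Ind g := by
  let π := Ideal.Quotient.mkₐ k P
  let S' : Set (B ⧸ P) := Set.range fun s : S => π ⟨s, hS s.2⟩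
  let ι := Subalgebra.inclusion (Algebra.adjoin_le hS : Algebra.adjoin k S ≤ B)
  have h1 : ∀ a, (π.comp ι) a ∈ Algebra.adjoin k S' := by
    rintro ⟨a, ha⟩
    induction ha using Algebra.adjoin_induction with
    | mem x hx => exact Algebra.subset_adjoin ⟨⟨x, hx⟩, rfl⟩
    | algebraMap c => exact ((π.comp ι).commutes c).symm ▸ Subalgebra.algebraMap_mem _ c
    | add x y hx hy a b => exact (map_add (π.comp ι) ⟨x, hx⟩ ⟨y, hy⟩).symm ▸ add_mem a b
    | mul x y hx hy a b => exact (map_mul (π.comp ι) ⟨x, hx⟩ ⟨y, hy⟩).symm ▸ mul_mem a b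
  have : Algebra.IsAlgebraic (Algebra.adjoin k S') (B ⧸ P) := ⟨fun x => by
    obtain ⟨b, rfl⟩ := Ideal.Quotient.mkₐ_surjective k P x
    have h2 : (ι : Algebra.adjoin k S →+* B).IsIntegralElem b :=
      .of_map (g := (B.val : B →+* K)) Subtype.val_injective (hi b b.2)
    have e : (π : B →+* B ⧸ P).comp (ι : Algebra.adjoin k S →+* B) =
        (algebraMap (Algebra.adjoin k S') (B ⧸ P)).comp
          ((π.comp ι).codRestrict _ h1).toRingHom := RingHom.ext fun _ => rfl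
    exact IsIntegral.isAlgebraic (e ▸ h2.map (π : B →+* B ⧸ P)).of_comp⟩
  obtain ⟨t, ht, hb⟩ := exists_isTranscendenceBasis_subset (R := k) S'
  obtain ⟨ε⟩ : Nonempty (Fin m ≃ t) := by
    rw [← Cardinal.eq, hb.cardinalMk_eq_trdeg, hd, Cardinal.mk_fin]
  choose e he using fun i => ht (ε i).2
  refine ⟨fun i => e i, fun i => (e i).2, fun F hF => ?_⟩
  refine algebraicIndependent_iff.1 (hb.1.comp ε ε.injective) F ?_
  have e1 := MvPolynomial.comp_aeval_apply (f := fun i => (⟨e i, hS (e i).2⟩ : B)) π F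
  have e2 := MvPolynomial.comp_aeval_apply (f := fun i => (⟨e i, hS (e i).2⟩ : B)) B.val F
  simp only [he] at e1
  exact e1.symm.trans (Ideal.Quotient.eq_zero_iff_mem.2 ((hP _).1 (e2.symm ▸ hF :)))

/-- The prime divisors of an element of a normal affine ring. -/
theorem dvk0 (B : Subalgebra k K) (hB : B.FG) (hn : ∀ x, IsIntegral B x → x ∈ B)
    (ha : Algebra.IsAlgebraic B K) (hd : Algebra.trdeg k K = (m + 1 : ℕ)) {u : K} (hu : u ∈ B)
    (h0 : u ≠ 0) {S : Set K} (hS : S ⊆ B) (hi : ∀ b ∈ B, IsIntegral (Algebra.adjoin k S) b) :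
    ∃ G : Finset (DV k K),
      (∀ w ∈ G, B ≤ w.vr ∧ u ∈ w.fil 1 ∧ ∃ g : Fin m → K, (∀ i, g i ∈ S) ∧ w.Ind g) ∧
      (∀ (x : K) (N : ℕ), u ^ N * x ∈ B → (∀ w ∈ G, x ∈ w.fil 0) → x ∈ B) ∧
      ∀ O, Val O → B ≤ O → ¬ Un O u → ∃ w ∈ G, ∀ b ∈ B, b ∈ w.fil 1 → ¬ Un O b := by
  classical
  have : Algebra.FiniteType k B := (Subalgebra.fg_iff_finiteType _).1 hB
  have : IsNoetherianRing B := Algebra.FiniteType.isNoetherianRing k B
  have : IsFractionRing B K := .of_field B K fun z => by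
    obtain ⟨y, y0, hy⟩ := (ha.isAlgebraic z).exists_integral_multiple
    exact ⟨⟨_, hn _ hy⟩, y, (mul_div_cancel_left₀ z fun e => y0 (Subtype.ext e)).symm⟩
  have : IsIntegrallyClosed B := (isIntegrallyClosed_iff K).2 fun {x} hx => ⟨⟨x, hn x hx⟩, rfl⟩
  let u' : B := ⟨u, hu⟩
  have u0 : u' ≠ 0 := fun e => h0 (congrArg Subtype.val e)
  have hfin := (Ideal.span {u'}).finite_minimalPrimes_of_isNoetherianRing
  choose w w0 w1 using fun P : (Ideal.span {u'}).minimalPrimes => dv_one B u0 P.2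
  have := hfin.fintype
  refine ⟨Finset.univ.image w, fun v hv => ?_, fun x N hx hG => ?_, fun O hO hle hn' => ?_⟩
  · obtain ⟨P, -, rfl⟩ := Finset.mem_image.1 hv
    have := P.2.isPrime
    refine ⟨fun b hb => (w0 P b).2 ⟨1, P.1.one_notMem, by simpa using hb⟩,
      (w1 P u').2 (P.2.le (Ideal.mem_span_singleton_self _)), ind_of _ B P (w1 P) ?_ hS hi⟩
    have e := Kr.krull (k := k) u0 P.2
    rw [← add_zero (Algebra.trdeg k B), ← trdeg_eq_zero (R := B) (A := K), trdeg_add_eq, hd,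
      Nat.cast_succ] at e
    exact Cardinal.add_one_inj.1 e
  · have hG' : ∀ P, x ∈ (w P).fil 0 := fun P =>
      hG _ (Finset.mem_image_of_mem _ (Finset.mem_univ P))
    clear hG
    induction N generalizing x with
    | zero => simpa using hx
    | succ N ih =>
      have h1 : u * x ∈ B := ih _ (by rwa [← mul_assoc, ← pow_succ]) fun P =>
        St.fil_anti zero_le_one (by
          simpa using DV.mul_fil ((w1 P u').2 (P.2.le (Ideal.mem_span_singleton_self _))) (hG' P))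
      let I : Ideal B :=
        { carrier := {s | s * x ∈ B}
          zero_mem' := by simp
          add_mem' := fun {a b} ha hb => by
            change (a.1 + b.1) * x ∈ B
            rw [add_mul]; exact add_mem ha hb
          smul_mem' := fun c a ha => by
            change c.1 * a.1 * x ∈ B
            rw [mul_assoc]; exact mul_mem c.2 ha }
      by_contra hc
      obtain ⟨P, hP, h2⟩ := (Ideal.subset_union_prime_finite hfin (f := id) ⊤ ⊤
        (fun P hP _ _ => hP.isPrime) (I := I)).1 fun s hs => by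
          obtain ⟨Q, q1, q2⟩ := Ss.exists_minimal (D := B) (Ω := K)
            (fun z hz => ⟨⟨z, hn z hz⟩, rfl⟩) (w := s) (x := ⟨_, h1⟩) u0
            ⟨⟨_, hs⟩, Subtype.ext (mul_left_comm _ _ _)⟩
            fun ⟨y, e⟩ => hc (mul_left_cancel₀ h0 (congrArg Subtype.val e) ▸ y.2)
          exact Set.mem_biUnion q1 q2
      obtain ⟨s, s1, s2⟩ := (w0 ⟨P, hP⟩ x).1 (hG' _)
      exact s1 (h2 s2)
  · have := hO.lcl.isLocalRing
    obtain ⟨P, hP, h1⟩ := Ideal.exists_minimalPrimes_le (I := Ideal.span {u'})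
      (J := (IsLocalRing.maximalIdeal O).comap (Subalgebra.inclusion hle))
      ((Ideal.span_singleton_le_iff_mem _).2 fun h => hn' ((isUnit_iff_un _).1 h))
    exact ⟨w ⟨P, hP⟩, Finset.mem_image_of_mem _ (Finset.mem_univ _), fun b hb h2 h3 =>
      h1 ((w1 ⟨P, hP⟩ ⟨b, hb⟩).1 h2) ((isUnit_iff_un _).2 h3)⟩

/-- The prime divisors of an element of the normalization of an affine ring. -/
theorem dvk1 [PerfectField k] [Algebra.EssFiniteType k K] {S : Set K} (hS : S.Finite)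
    (ha : Algebra.IsAlgebraic (Algebra.adjoin k S) K) (hd : Algebra.trdeg k K = (m + 1 : ℕ))
    {u : K} (hu : IsIntegral (Algebra.adjoin k S) u) (h0 : u ≠ 0) :
    ∃ G : Finset (DV k K),
      (∀ w ∈ G, Algebra.adjoin k S ≤ w.vr ∧ u ∈ w.fil 1 ∧
        ∃ g : Fin m → K, (∀ i, g i ∈ S) ∧ w.Ind g) ∧
      (∀ (x : K) (N : ℕ), IsIntegral (Algebra.adjoin k S) (u ^ N * x) → (∀ w ∈ G, x ∈ w.fil 0) →
        IsIntegral (Algebra.adjoin k S) x) ∧
      ∀ O, Val O → Algebra.adjoin k S ≤ O → ¬ Un O u →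
        ∃ w ∈ G, ∀ b, IsIntegral (Algebra.adjoin k S) b → b ∈ w.fil 1 → ¬ Un O b := by
  let A := Algebra.adjoin k S
  let B := (integralClosure A K).restrictScalars k
  have hA : A ≤ B := fun x hx => isIntegral_of_mem hx
  have : Algebra.FiniteType k A :=
    (Subalgebra.fg_iff_finiteType _).1 (Subalgebra.fg_def.2 ⟨S, hS, rfl⟩)
  have : Module.Finite A (integralClosure A K) := finite_icl k A K
  have : Algebra.FiniteType k (integralClosure A K) := .trans (S := A) inferInstance inferInstance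
  obtain ⟨G, h1, h2, h3⟩ := dvk0 B ((Subalgebra.fg_iff_finiteType _).2 this)
    (fun x hx => isIntegral_trans (A := integralClosure A K) x hx)
    ⟨fun z => (ha.isAlgebraic z).tower_top_of_subalgebra_le hA⟩ hd hu h0
    (Algebra.subset_adjoin.trans hA) fun b hb => hb
  exact ⟨G, fun w hw => ⟨hA.trans (h1 w hw).1, (h1 w hw).2⟩, h2,
    fun O hO hle => h3 O hO fun b hb => hO.mem_of_isIntegral hle hb⟩

theorem mem_Nor {U : Submodule k K} {x : K} :
    x ∈ Nor U ↔ IsIntegral (Algebra.adjoin k (U : Set K)) x :=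
  ⟨fun h => isIntegral_of_val fun V hV hD => h V hV fun _ hu => hD (Algebra.subset_adjoin hu),
    fun h _ hO hU => hO.mem_of_isIntegral (Algebra.adjoin_le hU) h⟩

theorem ff_one {T : Submodule k K} {c b : ℕ} {x : K} :
    x ∈ FF T 1 c b ↔ ∀ O, Val O → (∀ t ∈ T, t ∈ O) → ∀ t, Gn O T t → x / t ^ c ∈ O := by
  have h1 : ∀ O : Subalgebra k K, ∀ y ∈ (1 : Submodule k K), y ∈ O := fun O y hy => by
    obtain ⟨a, rfl⟩ := mem_one.1 hy
    exact O.algebraMap_mem a
  have h2 : (1 : K) ∈ (1 : Submodule k K) := one_le.1 le_rfl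
  refine ⟨fun h O a b t c => by
    simpa using h O a b t 1 c ⟨h2, one_ne_zero, fun y hy => (div_one y).symm ▸ h1 O y hy⟩, fun h O a a' t j c d => ?_⟩
  rw [← div_div, div_eq_mul_inv (_ / _), ← inv_pow, ← one_div]
  exact mul_mem (h O a a' t c) (pow_mem (d.2.2 1 h2) b)

/-- The Rees valuations in the chart of a generator. -/
theorem chart [PerfectField k] {T : Submodule k K} (hF : Fld (m + 1) T) {σ : K} (h1 : σ ∈ T)
    (h0 : σ ≠ 0) : ∃ G : Finset (DV k K), (∀ v ∈ G, v.Min T σ ∧ T ≤ v.fil 1 ∧ Prm m T v) ∧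
      ∀ O, Val O → (∀ t ∈ T, t ∈ O) → Gn O T σ →
        (∀ (L : ℕ), ∀ x ∈ Nor T, (∀ v ∈ G, x ∈ v.fil (L * v.ordS T)) → x / σ ^ L ∈ O) ∧
        (¬ Un O σ → ∃ v ∈ G, ∀ (a : ℕ), ∀ x ∈ T ^ a, x ∈ v.fil (a * v.ordS T + 1) →
          ¬ Un O (x / σ ^ a)) := by
  obtain ⟨S, hS⟩ := hF.fg
  let S' : Set K := insert σ ((· / σ) '' S)
  let A := Algebra.adjoin k S'
  have a0 : σ ∈ A := Algebra.subset_adjoin (.inl rfl)
  have a1 : ∀ t ∈ T, t / σ ∈ A := fun t ht =>
    div_mem_of_span (fun s hs => Algebra.subset_adjoin (.inr ⟨s, hs, rfl⟩)) (hS ▸ ht)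
  have a2 : Algebra.adjoin k (T : Set K) ≤ A := Algebra.adjoin_le fun t ht =>
    div_mul_cancel₀ t h0 ▸ mul_mem (a1 t ht) a0
  have a3 : ∀ (a : ℕ), ∀ x ∈ T ^ a, x / σ ^ a ∈ A := fun a x hx => by
    induction hx using Submodule.pow_induction_on_left' with
    | algebraMap c => simp
    | add x y i _ _ hx hy => rw [add_div]; exact add_mem hx hy
    | mem_mul t ht i x _ hx =>
      rw [pow_succ', ← div_mul_div_comm]; exact mul_mem (a1 t ht) hx
  have := hF.eft
  obtain ⟨G, g1, g2, g3⟩ := dvk1 (k := k) (S := S') ((S.finite_toSet.image _).insert _)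
    ⟨fun z => (hF.alg.isAlgebraic z).tower_top_of_subalgebra_le a2⟩ hF.dim
    (isIntegral_of_mem a0) h0
  have g4 : ∀ v ∈ G, v.Min T σ := fun v hv => St.min_of_le h1 h0 fun t ht => by
    rw [← mul_div_cancel₀ t h0, ← add_zero (v.ord σ), St.mul_mem_fil h0]
    exact (g1 v hv).1 (a1 t ht)
  have g5 : ∀ v ∈ G, ∀ (a : ℕ) (c : ℤ) (x : K), x ∈ v.fil (a * v.ordS T + c) →
      x / σ ^ a ∈ v.fil c := fun v hv a c x hx => by
    rwa [← St.mul_mem_fil (pow_ne_zero a h0), mul_div_cancel₀ _ (pow_ne_zero a h0), St.ord_pow,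
      (g4 v hv).2.2]
  refine ⟨G, fun v hv => ⟨g4 v hv, (St.le_fil_ordS v hF.fg).trans (St.fil_anti ?_), σ, g4 v hv,
    ?_⟩, fun O hO hT hG => ?_⟩
  · exact (g4 v hv).2.2 ▸ (St.mem_fil h0).1 (g1 v hv).2.1
  · obtain ⟨g, b1, b2⟩ := (g1 v hv).2.2
    refine ⟨g, fun i => ?_, b2⟩
    rcases b1 i with e | ⟨s, hs, e⟩
    · exact absurd (b2 (MvPolynomial.X i) (by simpa [e] using (g1 v hv).2.1))
        (MvPolynomial.X_ne_zero i)
    · rw [← e, mul_div_cancel₀ _ h0]
      exact hS ▸ subset_span hs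
  have hA : A ≤ O := Algebra.adjoin_le (by
    rintro _ (rfl | ⟨s, hs, rfl⟩)
    exacts [hT _ h1, hG.2.2 s (hS ▸ subset_span hs)])
  refine ⟨fun L x hx h => hO.mem_of_isIntegral hA (g2 _ L ?_ fun v hv =>
    g5 v hv L 0 x (by simpa using h v hv)), fun hn => ?_⟩
  · rw [mul_div_cancel₀ _ (pow_ne_zero L h0)]
    exact isIntegral_mono a2 (mem_Nor.1 hx)
  · obtain ⟨v, hv, h⟩ := g3 O hO hA hn
    exact ⟨v, hv, fun a x hx hx' => h _ (isIntegral_of_mem (a3 a x hx)) (g5 v hv a 1 x hx')⟩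

end Vl

open Vl

/-- Module DVK. -/
theorem dvk [PerfectField k] : DvkS k K m := by
  intro U u hF hu h0
  obtain ⟨S, rfl⟩ := hF.fg
  have := hF.eft
  have e := Algebra.adjoin_span k (s := (S : Set K))
  obtain ⟨G, g1, g2, -⟩ := dvk1 (k := k) S.finite_toSet (e ▸ hF.alg) hF.dim (e ▸ mem_Nor.1 hu) h0
  refine ⟨G, fun w hw => ⟨span_le.2 fun s hs => (g1 w hw).1 (Algebra.subset_adjoin hs),
    (g1 w hw).2.1, (g1 w hw).2.2.imp fun g hg => ⟨fun i => subset_span (hg.1 i), hg.2⟩⟩,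
    fun x N hx h => mem_Nor.2 (e.symm ▸ g2 x N (e ▸ mem_Nor.1 hx) h)⟩

/-- Module REESV. -/
theorem rees_of [PerfectField k] (_h1 : DvkS k K m) (h2 : ArS k K) : ReesS k K m := by
  classical
  intro T hF
  obtain ⟨S, s0, hS⟩ := exists_span hF.fg
  have s1 : ∀ σ ∈ S, σ ∈ T := fun σ h => hS ▸ subset_span h
  choose! G g1 g2 using fun σ (h : σ ∈ S) => chart hF (s1 σ h) (s0 σ h)
  have hm : ∀ v ∈ S.biUnion G, ∃ σ ∈ S, v ∈ G σ := fun v => Finset.mem_biUnion.1
  have gn : ∀ O : Subalgebra k K, Val O → ∃ σ ∈ S, Gn O T σ := fun O hO => by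
    obtain ⟨σ, h, h'⟩ := hO.exists_min (T := S)
      (Finset.nonempty_iff_ne_empty.2 fun e => hF.ne (by simp [← hS, e])) s0
    exact ⟨σ, h, s1 σ h, s0 σ h, fun y hy => div_mem_of_span h' (hS ▸ hy)⟩
  have sw : ∀ σ ∈ S, ∀ (t x : K) (a : ℕ), x / t ^ a = x / σ ^ a * (σ / t) ^ a := fun σ h t x a => by
    rw [div_pow, div_mul_div_cancel₀ (pow_ne_zero a (s0 σ h))]
  refine ⟨S.biUnion G, hF.fg, hF.ne, fun v hv => ?_, fun v hv => ?_, fun X hX => ?_,
    fun O t hO ht => ?_⟩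
  · obtain ⟨σ, h, h'⟩ := hm v hv
    exact (g1 σ h v h').2.1
  · obtain ⟨σ, h, h'⟩ := hm v hv
    exact (g1 σ h v h').2.2
  · by_cases x0 : X = ⊥
    · exact ⟨0, fun L => by simp [x0]⟩
    obtain ⟨β, e, MM, m1, m2, m3⟩ := fil (m + 1) T 1 hF
      (by rw [one_eq_span]; exact fg_span_singleton _) one_ne_zero
    have m4 : FF T 1 0 β = alg T * MM := by simpa [Mb] using m2 0
    obtain ⟨s, rfl⟩ := id hX
    have := hF.alg
    obtain ⟨δ, d0, d1⟩ :=
      Algebra.IsAlgebraic.exists_integral_multiples (Algebra.adjoin k (T : Set K)) s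
    have d2 : (δ : K) ≠ 0 := fun e => d0 (Subtype.ext e)
    have d3 : pr k (δ : K) * span k (s : Set K) ≤ (Nor T).toSubmodule := by
      rw [pr, span_mul_span, span_le]
      rintro _ ⟨_, rfl, z, hz, rfl⟩
      exact mem_Nor.2 (d1 z hz)
    have d4 : pr k (δ : K) * (alg T * span k (s : Set K)) ≤ (Nor T).toSubmodule := by
      rw [mul_left_comm]
      exact mul_le.2 fun a ha b hb => (Nor T).mul_mem (mem_Nor.2 (isIntegral_of_mem ha)) (d3 hb)
    obtain ⟨c, hc⟩ := h2 T MM (pr k (δ : K) * (alg T * span k (s : Set K))) hF.fg m1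
      (m4 ▸ fun x hx => ff_one.2 fun O a b _ _ => by simpa using d4 hx O a b)
      (by rw [mul_left_comm, ← mul_assoc (alg T)]
          exact mul_le_mul_right (mul_le_mul_left (LocK.md_alg T) _) _)
    refine ⟨c + e, fun L x hx => ?_⟩
    have x1 := Num.mem_pr_mul.2 ⟨x, hx.1, (rfl : (δ : K) * x = _)⟩
    have x2 : (δ : K) * x ∈ FF T 1 (L + c + e) β := ff_one.2 fun O a b t ht => by
      obtain ⟨σ, h, h'⟩ := gn O a
      rw [sw σ h]
      refine mul_mem ((g2 σ h O a b h').1 _ _ (d4 x1) fun v hv => ?_)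
        (pow_mem (ht.2.2 σ (s1 σ h)) _)
      obtain ⟨y, y1, y2, y3⟩ := St.exists_min v hX x0
      have y4 := (St.mem_fil (mul_ne_zero d2 y2)).1 (d3 (Num.mem_pr_mul.2 ⟨y, y1, rfl⟩) v.vr
        (fun z => by
          by_cases h : z = 0
          · exact Or.inl (h ▸ v.vr.zero_mem)
          simp only [DV.mem_vr, St.mem_fil h, St.mem_fil (inv_ne_zero h), St.ord_inv]
          omega) fun u hu => St.fil_anti zero_le_one ((g1 σ h v hv).2.1 hu))
      rw [v.mul _ _ d2 y2, y3] at y4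
      refine St.fil_anti ?_ (DV.mul_fil (St.mem_fil_of_le le_rfl) (Finset.inf_le
        (f := fun v : DV k K => v.fil ((L + (c + e) : ℕ) * v.ordS T + v.ordS (span k (s : Set K))))
        (Finset.mem_biUnion.2 ⟨σ, h, hv⟩) hx.2))
      rw [add_assoc L]
      omega
    have x3 := hc L ⟨m4 ▸ m3 (L + c) β x2, x1⟩
    rw [mul_left_comm] at x3
    obtain ⟨z, hz, e'⟩ := Num.mem_pr_mul.1 x3
    exact mul_left_cancel₀ d2 e' ▸ hz
  · obtain ⟨σ, h, h'⟩ := gn O hO.1
    obtain ⟨v, hv, H⟩ := (g2 σ h O hO.1 (fun t ht => (hO.2 t ht).1) h').2 (hO.2 σ h'.1).2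
    refine ⟨v, Finset.mem_biUnion.2 ⟨σ, h, hv⟩, fun a x hx hx' hu => H a x hx hx' ?_⟩
    rw [sw σ h] at hu
    refine hu.of_mul ?_ (pow_mem (ht.2.2 σ h'.1) _)
    have := Ss.sl_pow (ι := AlgHom.id k K) (V := O) (u := σ⁻¹) (A := T)
      (fun y hy => by simpa [Ss.mem_sl, div_eq_mul_inv] using h'.2.2 y hy) a hx
    simpa [Ss.mem_sl, div_eq_mul_inv] using this

end Pool.Agent.R72.Res.SF
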