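import Pool.Agent.Lib.helper72.RM.M25
import Pool.Agent.MP_19ffc6_ag.Res.SFSpec

/-! PROJECT SHARP, module XCONE: the components of the tangent cone. -/

namespace Pool.Agent.R72.Res.SF

open Pool.Agent.R72.Wild Pool.Agent.R72.Res.PA Pool.Agent.R72.Res.PF Submodule Filter Module
  MvPolynomial

namespace Xc

open Cone

section Chi

variable {k I B : Type} [Field k] [CommRing B] [Algebra k B]

variable (k) in
/-- The graded evaluation. -/
noncomputable def chi (c : I → B) : MvPolynomial I k →ₐ[k] Lp B := aeval fun i => mo (-1) (c i)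

theorem chi_hom (c : I → B) {a : ℕ} {φ : MvPolynomial I k} (h : φ.IsHomogeneous a) :
    chi k c φ = mo (-a) (aeval c φ) := aeval_mo c h

theorem chi_eq_zero (c : I → B) (φ : MvPolynomial I k) :
    chi k c φ = 0 ↔ ∀ a, aeval c (homogeneousComponent a φ) = 0 := by
  have e : chi k c φ = ∑ a ∈ Finset.range (φ.totalDegree + 1),
      mo (-(a : ℤ)) (aeval c (homogeneousComponent a φ)) := by
    conv_lhs => rw [← sum_homogeneousComponent φ, map_sum]
    exact Finset.sum_congr rfl fun a _ => chi_hom c (homogeneousComponent_isHomogeneous a φ)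
  refine ⟨fun h a => ?_, fun h => ?_⟩
  · by_cases ha : a ∈ Finset.range (φ.totalDegree + 1)
    · have h1 := congrArg (fun x : Lp B => x.coeff (-(a : ℤ))) (e.symm.trans h)
      simp only [mo, AddMonoidAlgebra.coeff_sum, AddMonoidAlgebra.coeff_single,
        AddMonoidAlgebra.coeff_zero, Finsupp.coe_zero, Pi.zero_apply, Finsupp.finsetSum_apply] at h1
      rw [Finset.sum_eq_single_of_mem a ha fun b _ hb =>
        Finsupp.single_eq_of_ne fun e => hb (by omega), Finsupp.single_eq_same] at h1
      exact h1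
    · rw [homogeneousComponent_eq_zero a φ (by rw [Finset.mem_range] at ha; omega), map_zero]
  · rw [e]
    exact Finset.sum_eq_zero fun a _ => by rw [h, mo_zero]

theorem chi_lf [Fintype I] (c : I → B) (x : I → k) :
    chi k c (lf id x) = mo (-1) (∑ i, x i • c i) := by
  have e2 : ∀ y : I → B, mo (-1) (∑ i, y i) = ∑ i, mo (-1) (y i) := fun y =>
    map_sum (AddMonoidAlgebra.singleAddHom (-1 : ℤ)) y _
  rw [e2, lf, map_sum]
  refine Finset.sum_congr rfl fun i _ => ?_
  rw [map_smul, mo_smul, chi, aeval_X]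
  rfl

/-- A form is determined by its values on an affine chart. -/
theorem dehom {ι : Type} {a : ℕ} {φ : MvPolynomial (Option ι) k} (h : φ.IsHomogeneous a)
    (h0 : aeval (fun o : Option ι => o.elim (1 : MvPolynomial ι k) X) φ = 0) : φ = 0 := by
  let F := FractionRing (MvPolynomial (Option ι) k)
  let x : Option ι → F := fun o => algebraMap (MvPolynomial (Option ι) k) F (X o)
  have hx : x none ≠ 0 := (map_ne_zero_iff _ (IsFractionRing.injective _ _)).2 (X_ne_zero _)
  have e1 : aeval (fun o => x o / x none) φ = 0 := by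
    have := comp_aeval_apply (f := fun o : Option ι => o.elim (1 : MvPolynomial ι k) X)
      (aeval fun i => x (some i) / x none : MvPolynomial ι k →ₐ[k] F) φ
    rw [h0, map_zero] at this
    refine Eq.trans (congrArg (fun f => aeval f φ) (funext fun o => ?_)) this.symm
    cases o with
    | none => simp [div_self hx]
    | some i => simp
  have e2 := aeval_hom (fun o => x o / x none) (x none) h
  simp only [div_mul_cancel₀ _ hx, e1, zero_mul] at e2
  have e3 := comp_aeval_apply (f := (X : Option ι → MvPolynomial (Option ι) k))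
    (IsScalarTower.toAlgHom k (MvPolynomial (Option ι) k) F) φ
  rw [aeval_X_left_apply] at e3
  exact (map_eq_zero_iff _ (IsFractionRing.injective _ F)).1 (e3.trans e2)

theorem chi_inj {ι : Type} {g : ι → B} (h : AlgebraicIndependent k g) :
    Function.Injective (chi k fun o : Option ι => o.elim 1 g) := by
  rw [injective_iff_map_eq_zero]
  intro φ hφ
  rw [chi_eq_zero] at hφ
  rw [← sum_homogeneousComponent φ]
  refine Finset.sum_eq_zero fun a _ => dehom (homogeneousComponent_isHomogeneous a φ) ?_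
  refine algebraicIndependent_iff.1 h _ ?_
  rw [comp_aeval_apply, ← hφ a]
  refine congrArg (fun f => aeval f (homogeneousComponent a φ)) (funext fun o => ?_)
  cases o <;> simp

theorem le_dm [IsDomain B] (χ : MvPolynomial I k →ₐ[k] Lp B) {m : ℕ} {g : Fin m → B}
    (h : AlgebraicIndependent k g) (f : Option (Fin m) → MvPolynomial I k)
    (hf : ∀ o, χ (f o) = mo (-1) (o.elim 1 g)) : ((m + 1 : ℕ) : Cardinal) ≤ dm (RingHom.ker χ) := by
  let ψ : MvPolynomial (Option (Fin m)) k →ₐ[k] MvPolynomial I k ⧸ RingHom.ker χ :=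
    aeval fun o => Ideal.Quotient.mk _ (f o)
  have h2 : (Ideal.kerLiftAlg χ).comp ψ = chi k fun o : Option (Fin m) => o.elim 1 g := by
    refine algHom_ext fun o => ?_
    rw [AlgHom.comp_apply, aeval_X, chi, aeval_X, ← hf]
    rfl
  have h3 : Function.Injective ψ := Function.Injective.of_comp (f := Ideal.kerLiftAlg χ) (by
    rw [← AlgHom.coe_comp, h2]; exact chi_inj h)
  have := trdeg_le_of_injective ψ h3
  rw [MvPolynomial.trdeg_of_isDomain, Cardinal.lift_id, Cardinal.mk_option, Cardinal.mk_fin] at this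
  rw [Nat.cast_succ]
  exact this

theorem dm_le [IsDomain B] (χ : MvPolynomial I k →ₐ[k] Lp B) :
    dm (RingHom.ker χ) ≤ Algebra.trdeg k B + 1 :=
  (trdeg_le_of_injective (Ideal.kerLiftAlg χ) (Ideal.kerLiftAlg_injective χ)).trans trdeg_Lp.le

theorem hf_le_sum [Finite I] (J : Ideal (MvPolynomial I k)) (L : ℕ) :
    hf J L ≤ ∑ a ∈ Finset.range (L + 1),
      finrank k ((homogeneousSubmodule I k a).map (Ideal.Quotient.mkₐ k J).toLinearMap) := by
  let mk := (Ideal.Quotient.mkₐ k J).toLinearMap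
  have hH : ∀ a, Module.Finite k (homogeneousSubmodule I k a) := fun a =>
    Module.Finite.iff_fg.2 (homogeneousSubmodule_fg I k a)
  let U : ℕ → Submodule k (MvPolynomial I k) := fun n =>
    (Finset.range n).sup (homogeneousSubmodule I k)
  have hU : ∀ n, Module.Finite k (U n) := fun n => Module.Finite.iff_fg.2
    (fg_finset_sup _ _ fun a _ => homogeneousSubmodule_fg I k a)
  have main : ∀ n, finrank k ((U n).map mk) ≤
      ∑ a ∈ Finset.range n, finrank k ((homogeneousSubmodule I k a).map mk) := by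
    intro n
    induction n with
    | zero =>
      have e : U 0 = ⊥ := Finset.sup_empty
      rw [e, Submodule.map_bot, finrank_bot]
      exact Nat.zero_le _
    | succ n ih =>
      have e : U (n + 1) = homogeneousSubmodule I k n ⊔ U n := by
        simp only [U, Finset.range_add_one, Finset.sup_insert]
      have := hH n
      have := hU n
      have h4 := Submodule.finrank_add_le_finrank_add_finrank
        ((homogeneousSubmodule I k n).map mk) ((U n).map mk)
      rw [e, Submodule.map_sup, Finset.sum_range_succ]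
      omega
  refine le_trans ?_ (main (L + 1))
  have := hU (L + 1)
  refine finrank_mono (map_mono fun φ hφ => ?_)
  rw [← sum_homogeneousComponent φ]
  refine sum_mem fun i hi => ?_
  have h6 := (mem_restrictTotalDegree _ _ _).1 hφ
  have h7 := Finset.mem_range.1 hi
  exact Finset.le_sup (f := homogeneousSubmodule I k) (Finset.mem_range.2 (by omega))
    (homogeneousComponent_mem i φ)

end Chi

section Main

variable {k K I B : Type} [Field k] [Field K] [Algebra k K] [CommRing B] [Algebra k B] {m : ℕ}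

theorem step [Finite I] (t : I → K) (Q : Submodule k K) (J : Ideal (MvPolynomial I k)) (a : ℕ)
    (H : ∀ φ, φ.IsHomogeneous a → aeval t φ ∈ Q → φ ∈ J) :
    finrank k ((homogeneousSubmodule I k a).map (Ideal.Quotient.mkₐ k J).toLinearMap) ≤
      cod (span k (Set.range t) ^ a) Q := by
  let mk := (Ideal.Quotient.mkₐ k J).toLinearMap
  let φ : homogeneousSubmodule I k a →ₗ[k] K ⧸ Q :=
    Q.mkQ.comp ((aeval t : MvPolynomial I k →ₐ[k] K).toLinearMap.comp (Submodule.subtype _))
  let ψ : homogeneousSubmodule I k a →ₗ[k] _ := mk.comp (Submodule.subtype _)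
  have e : LinearMap.range ψ = (homogeneousSubmodule I k a).map mk := by
    rw [LinearMap.range_comp, range_subtype]
  have hle : LinearMap.range φ ≤ (span k (Set.range t) ^ a).map Q.mkQ := by
    rintro _ ⟨x, rfl⟩
    exact mem_map_of_mem (f := Q.mkQ) (aeval_mem t x.2)
  have : Module.Finite k ((span k (Set.range t) ^ a).map Q.mkQ) :=
    Module.Finite.iff_fg.2 (((fg_span (Set.finite_range t)).pow a).map _)
  have h := Num.rank_le_of_ker φ ψ (fun x hx => by
    rw [LinearMap.mem_ker] at hx ⊢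
    exact Ideal.Quotient.eq_zero_iff_mem.2 (H x x.2 ((Quotient.mk_eq_zero _).1 hx)))
    (Module.Finite.iff_fg.1 (finiteDimensional_of_le hle))
  rw [e] at h
  exact h.2.trans (finrank_mono hle)

theorem val_hom {O : Subalgebra k K} {t : I → K} {s : K} {c : I → O}
    (hc : ∀ i, (c i : K) = t i / s) {a : ℕ} {φ : MvPolynomial I k} (h : φ.IsHomogeneous a) :
    ((aeval c φ : O) : K) = aeval t φ / s ^ a := by
  refine (comp_aeval_apply (f := c) O.val φ).trans ?_
  rw [div_eq_mul_inv, ← inv_pow, ← aeval_hom t s⁻¹ h]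
  exact congrArg (fun f => aeval f φ) (funext fun i => (hc i).trans (div_eq_mul_inv _ _))

theorem val_lf [Fintype I] {O : Subalgebra k K} (ρ : O →ₐ[k] B) {t : I → K} {s : K} {c : I → O}
    (hc : ∀ i, (c i : K) = t i / s) (x : I → k) (y : O) (hy : (y : K) = (∑ i, x i • t i) / s) :
    chi k (fun i => ρ (c i)) (lf id x) = mo (-1) (ρ y) := by
  have e1 : y = ∑ i, x i • c i := by
    refine Subtype.ext ?_
    simp only [hy, hc, AddSubmonoidClass.coe_finsetSum, SetLike.val_smul, Finset.sum_div,
      smul_div_assoc]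
  rw [chi_lf, e1, map_sum]
  simp only [map_smul]

theorem one [Fintype I] (t : I → K) {T : Submodule k K} (hT : span k (Set.range t) = T)
    (hd : Dep k K m) {w : DV k K} (hw : Prm m T w) :
    ∃ p : Ideal (MvPolynomial I k), (p.IsPrime ∧ dm p = (m + 1 : ℕ) ∧
      ∀ L : ℕ, hf p L ≤ ∑ a ∈ Finset.range (L + 1), w.lead (T ^ a)) ∧
      ∀ φ ∈ p, ∀ a : ℕ, aeval t (homogeneousComponent a φ) ∈ w.fil (a * w.ordS T + 1) := by
  obtain ⟨σ, hσ, g, g1, g2⟩ := hw
  obtain ⟨B, _, _, _, r, hs, hr⟩ := exists_res w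
  have hfg : T.FG := hT ▸ fg_span (Set.finite_range t)
  have h0 : T ≠ ⊥ := fun e => hσ.2.1 (by simpa [e] using hσ.1)
  have hdiv : ∀ y ∈ T, y / σ ∈ w.vr := fun y hy => by
    refine (St.mul_mem_fil (w := w) (a := 0) hσ.2.1).1 ?_
    rw [mul_div_cancel₀ _ hσ.2.1, add_zero, hσ.2.2]
    exact St.le_fil_ordS w hfg hy
  let c : I → w.vr := fun i => ⟨t i / σ, hdiv _ (hT ▸ subset_span ⟨i, rfl⟩)⟩
  have hc : ∀ i, (c i : K) = t i / σ := fun _ => rfl
  have key : ∀ (a : ℕ) (φ : MvPolynomial I k), φ.IsHomogeneous a →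
      (aeval (fun i => r (c i)) φ = 0 ↔ aeval t φ ∈ w.fil (a * w.ordS T + 1)) := fun a φ h => by
    have hp := pow_ne_zero a hσ.2.1
    rw [← comp_aeval_apply, hr, val_hom hc h, ← St.mul_mem_fil (w := w) hp, mul_div_cancel₀ _ hp,
      St.ord_pow, hσ.2.2]
  refine ⟨RingHom.ker (chi k fun i => r (c i)), ⟨RingHom.ker_isPrime _, le_antisymm ?_ ?_,
    fun L => ?_⟩, fun φ hφ a => ?_⟩
  · refine (dm_le _).trans ?_
    rw [Nat.cast_succ]
    exact add_le_add_left (trdeg_le hs hr (hd w)) _
  · let g' : Fin m → w.vr := fun i => ⟨g i, by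
      have := hdiv _ (g1 i)
      rwa [mul_div_cancel_left₀ _ hσ.2.1] at this⟩
    have hi : AlgebraicIndependent k fun i => r (g' i) := (ind_iff hr g').1 g2
    have hx : ∀ o : Option (Fin m), ∃ x : I → k,
        ∑ i, x i • t i = σ * ((o.elim 1 g' : w.vr) : K) := fun o => by
      refine (mem_span_range_iff_exists_fun k).1 (hT ▸ ?_)
      cases o with
      | none => simpa using hσ.1
      | some i => exact g1 i
    choose x hx using hx
    refine le_dm _ hi (fun o => lf id (x o)) fun o => ?_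
    rw [val_lf r hc (x o) (o.elim 1 g') (by rw [hx, mul_div_cancel_left₀ _ hσ.2.1])]
    cases o with
    | none => exact congrArg _ (map_one r)
    | some i => rfl
  · refine (hf_le_sum _ L).trans (Finset.sum_le_sum fun a _ => ?_)
    rw [DV.lead, St.ordS_pow hfg h0]
    refine (step t _ _ a fun φ h1 h2 => ?_).trans (by rw [hT])
    rw [RingHom.mem_ker, chi_hom _ h1, (key a φ h1).2 h2, mo_zero]
  · exact (key a _ (homogeneousComponent_isHomogeneous a φ)).1 ((chi_eq_zero _ φ).1 hφ a)

end Main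

end Xc

open Cone in
theorem xcone {k K : Type} [Field k] [Field K] [Algebra k K] {m : ℕ} : XconeS k K m := by
  intro I _ t T G hT hG hd
  choose! p p1 p2 using fun v (h : v ∈ G) => Xc.one t hT hd (hG.prm v h)
  refine ⟨p, p1, fun O hO => ?_⟩
  obtain ⟨t₀, g1, g2, g3⟩ := hO.1.exists_gen hG.fg hG.ne
  have hN : Gn O T t₀ := ⟨g1, g2, g3⟩
  have hti : ∀ i, t i ∈ T := fun i => hT ▸ subset_span ⟨i, rfl⟩
  have hs : ∀ x : I → k, ∑ i, x i • t i ∈ T := fun x => sum_mem fun i _ => smul_mem _ _ (hti i)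
  obtain ⟨B, _, _, _, ρ, hρ⟩ := exists_resO hO.1
  let c : I → O := fun i => ⟨t i / t₀, g3 _ (hti i)⟩
  have hc : ∀ i, (c i : K) = t i / t₀ := fun _ => rfl
  obtain ⟨v, hv, H⟩ := hG.cov O t₀ hO hN
  refine ⟨RingHom.ker (Xc.chi k fun i => ρ (c i)), RingHom.ker_isPrime _,
    ⟨v, hv, fun φ hφ => ?_⟩, ?_, fun x => ?_⟩
  · refine (Xc.chi_eq_zero _ φ).2 fun a => ?_
    have h := homogeneousComponent_isHomogeneous a φ
    rw [← comp_aeval_apply, hρ, Xc.val_hom hc h]
    exact H a _ (hT ▸ aeval_mem t h) (p2 v hv φ hφ a)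
  · obtain ⟨x, hx⟩ := (mem_span_range_iff_exists_fun k).1 (hT ▸ g1)
    refine one_le_dm _ (lf id x) ?_
    rw [Xc.val_lf ρ hc x 1 (by rw [hx, div_self g2]; rfl), map_one]
  · rw [RingHom.mem_ker, Xc.val_lf ρ hc x ⟨_, g3 _ (hs x)⟩ rfl, mo_eq_zero, hρ, gn_iff hN (hs x)]

end Pool.Agent.R72.Res.SF
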