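import Pool.Agent.Lib.helper72.RM.M08
import Pool.Agent.MP_19ffc6_ag.Res.SFRat
import Pool.Agent.MP_19ffc6_ag.Res.SFVal
import Pool.Agent.MP_19ffc6_ag.Res.SFAr
import Pool.Agent.MP_19ffc6_ag.Res.SFPolar
import Pool.Agent.MP_19ffc6_ag.Res.SFXcone
import Pool.Agent.MP_19ffc6_ag.Res.SFDw
import Pool.Agent.MP_19ffc6_ag.Res.SFRank

/-! PROJECT SHARP, finite ground fields: good local parameters. -/

namespace Pool.Agent.R72.Res.SF

theorem ratS (k K : Type) [Field k] [Field K] [Algebra k K] [IsAlgClosed k] (p : ℕ) [Fact p.Prime]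
    [CharP k p] (m : ℕ) : RatS k K m :=
  rat_of (PA.Fl.uni p) (rees_of dvk ar) (polar k K m) (cnt k K) xcone (dw_of dvk ar) rank1

end Pool.Agent.R72.Res.SF
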