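import Pool.Agent.Lib.helper72.RM.M27
import Pool.Agent.MP_19ffc6_ag.Res.SFSpec
import Pool.Agent.MP_19ffc6_ag.Res.SSpec

-- ======== part 0: formerly Pool.Agent.MP_19ffc6_ag.Res.SFGen
section MrgPart0

/-! PROJECT SHARP: module GENQ and the assembly for all perfect ground fields. -/

namespace Pool.Agent.R72.Res.SF

open Pool.Agent.R72.Res.PA Pool.Agent.R72.Res.PF Submodule Module MvPolynomial

variable {k K : Type} [Field k] [Field K] [Algebra k K] {m : ℕ}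

open GF in
/-- Module GENQ. -/
theorem gen_of [IsAlgClosed k] (p : ℕ) [Fact p.Prime] [CharP k p] (hR : RatS k K m) :
    GenS k K m := by
  classical
  have hS : SieveStmt k p := sieve_of p (interp p) (high_of p cutS) (med_of p countS)
  have hG : GameStmt k := game_of cutS
  have hD : DetStmt k K m := det
  have hC : ChgStmt k K m := chg
  have hU : UniStmt k K m := Fl.uni p
  intro F _ _ _ _ t d S C g r V M₀ v hq hF hA hv h0 hM
  have hV := hA.fg
  have hvV : ∀ i, v i ∈ V := fun i => hv ▸ subset_span ⟨i, rfl⟩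
  let I := Fin (m + 2) → Fin r
  let U : Fin r → Submodule k K := fun i => pr k (v i)⁻¹ * V
  let e : Fin r → Fin r → K := fun i j => v j / v i
  let u : Fin r → I → K := fun i f => (∏ j, v (f j)) / v i ^ (m + 2)
  let D : Fin r → Set (DV k K) := fun i => {w | w ∈ DD d S V ∧ w.Min V (v i)}
  have he : ∀ i, span k (Set.range (e i)) = U i := fun i => by
    simpa using GenM.span_div (σ := v i) (n := 1) (hv.trans (pow_one V).symm)
  have hu : ∀ i, span k (Set.range (u i)) = U i ^ (m + 2) := fun i =>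
    GenM.span_div (hv ▸ span_mono' v (m + 2))
  have hUf : ∀ i, (U i).FG := fun i => (pr_fg _).mul hV
  have heU : ∀ i j, e i j ∈ U i := fun i j => he i ▸ subset_span ⟨j, rfl⟩
  have hDf : ∀ i, (D i).Finite := fun i => hA.fin.subset fun w hw => hw.1
  have hDw : ∀ i, ∀ w ∈ D i, U i ≤ w.fil 0 := fun i w hw => chart_le_fil hV hw.2
  have hJ : ∀ i, JJ d (U i) ≠ ⊥ := fun i => GenM.JJ_ne (h0 i) hA.ne
  choose β hβ using fun i => hD d C (U i) M₀ I (u i) (D i) (hUf i)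
    (fun f => LocK.pow_le_alg (LocK.le_alg _) _ ((hu i).le (subset_span ⟨f, rfl⟩))) (hDf i) (hDw i)
  obtain ⟨i₀, hi₀⟩ : ∃ i₀ : Fin r, ∀ j, ¬ j < i₀ := by
    rcases r with _ | r
    · refine absurd (eq_bot_iff.2 (WW_le fun x hx => ?_)) hA.ne
      have h1 : x 0 = 0 := by simpa [← hv] using hx 0
      rw [← wrA_apply, (wrA d).map_coord_zero 0 h1]
      exact zero_mem _
    · exact ⟨0, fun j => Fin.not_lt_zero j⟩
  have hee : ∀ i, e i i = 1 := fun i => div_self (h0 i)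
  obtain ⟨T₀, hT₀, -⟩ := exists_pnt (hUf i₀) (hee i₀ ▸ heU i₀ i₀) LocK.md_bot (by simp)
  obtain ⟨ξ₀, hξ₀⟩ := exists_crd hT₀ (heU i₀)
  have hf₀ : Fst i₀ ξ₀ := ⟨hξ₀.eq (by simp [hee]), fun j hj => (hi₀ j hj).elim⟩
  obtain ⟨a, P, hP, h1, h2⟩ := hS F r (Finset.univ.sup β + 1) (Fin (m + 2) × I)
    (fun ξ l => ∃ i T, Fst i ξ ∧ Crd (U i) (e i) ξ T ∧ ¬ At d C (D i) M₀ T (tup (u i) l))
    (fun ξ l => ∀ i T, Fst i ξ → Crd (U i) (e i) ξ T → Fin1 d C (D i) M₀ T (tup (u i) l))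
    ξ₀ (thin_mono (thin_fin fun i => hA.thin M₀ hM _ (hvV i) (h0 i) (Fin r) I (e i) (u i) (he i)
      (hu i)) fun ξ l ⟨_, i, T, _, h3, h4⟩ => ⟨i, T, h3.1, h3.2, h4⟩)
    (fun ξ l h ⟨i, T, h3, h4, h5⟩ => h5 (h i T h3 h4).1) ⟨i₀, hf₀⟩ (by
      rintro κ _ _ _ ξ ⟨i, hi⟩
      have hu' : ∀ (φ : κ →ₐ[F] k) T T', Crd (U i) (e i) (φ ∘ ξ) T → Crd (U i) (e i) (φ ∘ ξ) T' →
          T = T' := fun φ T T' h h' => (h.span (he i)).symm.trans (h'.span (he i))
      obtain ⟨x, hx⟩ := hG.play κ (Fin r) (κ →ₐ[F] k) (fun φ => φ.toRingHom) _ _ _ (card_lt hq)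
        fun φ => game_uniq hG (hu' φ) fun T h => hR t d C g (D i) M₀ T (Fin r) _ hF (h.span (he i))
          h.1.2 (h.1.JJ d ▸ hJ i) hM (hDf i)
          (fun w hw => prt hU hF hV (h.1.hyp (h0 i)) hw.2 hw.1.1)
          (hA.good _ T (h.1.hyp (h0 i)) h.1.2)
      obtain ⟨y, hy⟩ := hG.play κ (Fin (m + 1)) (κ →ₐ[F] k) (fun φ => φ.toRingHom) _ _ _
        (card_lt hq) fun φ => game_uniq hG (hu' φ) (hx φ)
      obtain ⟨l, hl⟩ := exists_coef (k := k) (u i) (e i) (fun _ => i)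
        (fun c => Fin.cons c fun _ => i) (by simp [u, h0])
        (fun c => by simp [u, e, Fin.prod_univ_succ, pow_succ', h0, mul_div_mul_right]) ξ x y
      refine ⟨l, fun φ j T hj h => ?_⟩
      obtain rfl : j = i := hj.eq ⟨by simp [hi.1], fun j hj => by simp [hi.2 j hj]⟩
      exact (hl φ.toRingHom).symm ▸ hy φ T h)
  set Q := p ^ (Finset.univ.sup β + 1) with hQ
  have : CharP K p := charP_of_injective_algebraMap (algebraMap k K).injective p
  let s : Fin (m + 2) → K := fun j => aeval v (map (algebraMap F k)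
    (∑ f : I, P (j, f) ^ Q * ∏ i, X (f i)))
  have hs : ∀ j, s j = ∑ f : I, aeval v (map (algebraMap F k) (P (j, f))) ^ Q * ∏ i, v (f i) :=
    fun j => by simp [s]
  have hsV : ∀ j, s j ∈ V ^ (a * Q + (m + 2)) := fun j => by
    rw [hs, pow_add, pow_mul]
    exact sum_mem fun f _ => mul_mem_mul (pow_mem_pow _ (Red.aeval_mem ((hP _).map _) hvV) _)
      (hv ▸ span_mono' (k := k) v (m + 2) ▸ subset_span ⟨f, rfl⟩)
  have key : ∀ i ξ T, Crd (U i) (e i) ξ T →
      (At d C (D i) M₀ T (tup (u i) fun j => aeval ξ (P j) ^ Q) →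
        At d C (D i) M₀ T fun j => s j / v i ^ (a * Q + (m + 2))) ∧
      Wr d (fun j => s j / v i ^ (a * Q + (m + 2))) - Wr d (tup (u i) fun j => aeval ξ (P j) ^ Q) ∈
        T * (alg T * JJ d T) := fun i ξ T h => by
    have e1 : (fun j => s j / v i ^ (a * Q + (m + 2))) =
        fun j => ∑ f, aeval (e i) (map (algebraMap F k) (P (j, f))) ^ Q * u i f := funext fun j => by
      rw [hs, Finset.sum_div]
      refine Finset.sum_congr rfl fun f _ => ?_
      rw [aeval_div ((hP _).map _), div_pow, ← pow_mul, pow_add, mul_div_mul_comm]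
    rw [e1]
    refine hβ i T h.1 _ (fun x => aeval (e i) (map (algebraMap F k) (P x)) ^ Q) (fun x => ?_)
      fun x j => ?_
    · have h3 := aeval_sub h.2 (map (algebraMap F k) (P x))
      rw [eval_map, ← aeval_def] at h3
      rw [map_pow, hQ, ← sub_pow_char_pow]
      refine Red.np_anti ?_ (Red.nn_pow_le T _ (pow_mem_pow _ h3 _))
      exact (Finset.le_sup (Finset.mem_univ i)).trans
        ((Nat.le_succ _).trans (Nat.lt_pow_self (Fact.out : p.Prime).one_lt).le)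
    · rw [Derivation.leibniz_pow, nsmul_eq_mul, hQ]
      simp
  refine ⟨Finset.univ.image v, a * Q + (m + 2), fun j => ∑ f : I, P (j, f) ^ Q * ∏ i, X (f i),
    by omega, by simpa using hv, fun σ hσ => ?_, hsV, fun c => ?_, fun σ hσ T' hH hn => ?_⟩
  · obtain ⟨i, -, rfl⟩ := Finset.mem_image.1 hσ
    exact h0 i
  · have h3 := (key i₀ ξ₀ T₀ hξ₀).2
    rw [wr_div (pow_ne_zero (a * Q + (m + 2)) (h0 i₀)), mul_eq_zero,
      or_iff_right (pow_ne_zero _ (pow_ne_zero _ (h0 i₀)))] at c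
    rw [c, zero_sub, neg_mem_iff] at h3
    exact (h2 i₀ T₀ hf₀ hξ₀).2 h3
  · obtain ⟨i', -, rfl⟩ := Finset.mem_image.1 hσ
    obtain ⟨i, T, h3, h4, h5⟩ := exists_first hv h0 hH
    obtain ⟨h6, h7⟩ := hC d S C _ V M₀ T T' _ _ s hV h3 hH h4 hn hsV
    obtain ⟨ξ, hξ⟩ := exists_crd (h3.pnt h6) (heU i)
    have hf : Fst i ξ := ⟨hξ.eq (by simp [hee]), fun j hj => hξ.eq (by simpa using h5 j hj)⟩
    exact h7 ((key i ξ T hξ).1 (not_not.1 fun c => h1 ξ ⟨i, hf⟩ ⟨i, T, hf, hξ, c⟩))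

open Core Th in
/-- From the dimension count in a chart to the thin set of bad pairs. -/
theorem tha_of_gt [IsAlgClosed k] {d : Fin (m + 1) → Derivation k K K} {C : ℕ} {D : Set (DV k K)}
    {M₀ U : Submodule k K} (h : U.FG → (1 : K) ∈ U → ∀ (I : Type) [Fintype I] (u : I → K),
      span k (Set.range u) = U ^ (m + 2) →
      GT U fun (l : Fin (m + 2) × I → k) T => At d C D M₀ T (tup u l)) : ThA d C D M₀ U := by
  intro I₀ I _ _ e u he hu
  have hU : U.FG := he ▸ fg_span (Set.finite_range e)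
  by_cases h1 : (1 : K) ∈ U
  swap
  · exact ⟨∅, by simp, fun ξ l ⟨T, hT, _⟩ => absurd (pnt_one hT) h1⟩
  have he' : ∀ i, e i ∈ AU U := fun i => le_alg U (he ▸ subset_span ⟨i, rfl⟩)
  obtain ⟨s, a1, a2, a3⟩ := Sml.comap (h hU h1 I u hu)
    (aeval (Sum.elim (fun i => MvPolynomial.C ⟨e i, he' i⟩) X) :
      MvPolynomial (I₀ ⊕ Fin (m + 2) × I) k →ₐ[k] MvPolynomial (Fin (m + 2) × I) (AU U))
  refine ⟨a1.toFinset, fun p hp => a2 p (a1.mem_toFinset.1 hp), fun ξ l ⟨T, hT, h2, h3⟩ => ?_⟩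
  obtain ⟨x, rfl⟩ := pnt_pt hT hU
  obtain ⟨p, hp, h⟩ := a3 (aeval (Sum.elim ξ l)) ⟨_, ⟨x, l, rfl, hT, h3⟩, by
    ext (i | i)
    · have := (mem_Np (a := (⟨e i, he' i⟩ : AU U) - algebraMap k _ (ξ i))).1 (h2 i).2
      rw [map_sub, AlgHom.commutes, sub_eq_zero] at this
      simp [this]
    · simp⟩
  exact ⟨p, a1.mem_toFinset.2 hp, h⟩

/-- A thin set does not dominate the second factor. -/
theorem thin_gen {I J : Type} [Fintype J] {Z : (I → k) → (J → k) → Prop} (h : Thin Z) :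
    Gen fun l => ∀ ξ, ¬ Z ξ l := by
  obtain ⟨s, h1, h2⟩ := h
  have h3 : ∀ p ∈ s, ∃ D : MvPolynomial J k, D ≠ 0 ∧ rename Sum.inr D ∈ p := fun p hp => by
    by_contra H
    push Not at H
    have := (h1 p hp).1
    have h4 := trdeg_le_of_injective ((Ideal.Quotient.mkₐ k p).comp (rename Sum.inr))
      ((injective_iff_map_eq_zero _).2 fun D hD => not_not.1 fun c =>
        H D c (Ideal.Quotient.eq_zero_iff_mem.1 hD))
    rw [MvPolynomial.trdeg_of_isDomain, Cardinal.lift_id, Cardinal.mk_fintype] at h4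
    exact h4.not_gt (h1 p hp).2
  choose! D h4 h5 using h3
  refine ⟨∏ p ∈ s, D p, Finset.prod_ne_zero_iff.2 h4, fun l hl ξ hz => ?_⟩
  obtain ⟨p, hp, h6⟩ := h2 ξ l hz
  rw [map_prod, Finset.prod_ne_zero_iff] at hl
  have h7 := h6 _ (h5 p hp)
  rw [eval_rename] at h7
  exact hl p hp h7

open P

variable (k K m) in
/-- The Albanese theorem over `K₀` together with the dimension count. -/
def AlbFP (C g : ℕ) : Prop :=
  ∀ (K₀ : Subfield K) (t : Fin (m + 1) → K) (d : Fin (m + 1) → Derivation k K K) (S : Finset K),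
    Gl (k := k) K₀ ⊤ → Fr t d → (∀ i, t i ∈ K₀) → (∀ r ∈ S, r ∈ K₀ ∧ r ≠ 0) →
    ∃ V, Stb K₀ V ∧ AlbF d S C g V

open GenM in
/-- A rational good tuple over an infinite field. -/
theorem gen_inf (k₀ : Subfield k) [Infinite k₀] {K₀ : Subfield K}
    {d : Fin (m + 1) → Derivation k K K} {S : Finset K} {C g : ℕ} {V M₀ : Submodule k K}
    (hf : Form k₀ K₀ ⊤) (hG₀ : Gl (k := k) K₀ ⊤) (hA : AlbF d S C g V) (hs : Stb K₀ V)
    (hM : M₀.FG) : ∃ B s, TupN d S C V M₀ B (m + 2) s ∧ ∀ j, s j ∈ K₀ := by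
  classical
  obtain ⟨G, hG⟩ := hA.fg
  have e0 : span k {x | x ∈ V ^ (m + 2) ∧ x ∈ K₀} = V ^ (m + 2) :=
    le_antisymm (span_le.2 fun x hx => hx.1)
      (hG₀.desc _ (fun _ _ => IntermediateField.mem_top) (GenQ.stb_pow hs _))
  obtain ⟨A, hA1, hA2⟩ := (Submodule.fg_span_iff_fg_span_finset_subset _).1
    (e0.symm ▸ hA.fg.pow (m + 2))
  let u : A → K := Subtype.val
  have hu : span k (Set.range u) = V ^ (m + 2) := by
    rw [← e0, hA2, Subtype.range_coe_subtype]; rfl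
  have hne : ∀ σ ∈ G.erase 0, σ ≠ 0 := fun σ h => Finset.ne_of_mem_erase h
  have g1 : Gen fun l : Fin (m + 2) × A → k => ∀ σ ∈ (G.erase 0 : Set K), ∀ T, Hyp V σ T →
      (1 : K) ∉ nn T → At d C {w | w ∈ DD d S V ∧ w.Min V σ} M₀ T
        fun j => tup u l j / σ ^ (m + 2) := by
    refine g_all (Finset.finite_toSet _) fun σ hσ => ?_
    have h0 := hne σ hσ
    obtain ⟨r, e, he⟩ := fg_iff_exists_fin_generating_family.1
      ((fg_span_singleton σ⁻¹).mul hA.fg)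
    refine g_mono (thin_gen (hA.thin M₀ hM σ (hG ▸ subset_span (Finset.mem_of_mem_erase hσ)) h0
      _ A e _ he (span_div hu))) fun l hl T hT h1 => ?_
    obtain ⟨ξ, hξ⟩ := GF.exists_crd (pnt_of_hyp hT h1) fun i => he.le (subset_span ⟨i, rfl⟩)
    rw [← tup_div]
    exact not_not.1 fun c => hl ξ ⟨T, hξ.1, hξ.2, c⟩
  obtain ⟨l, a0, a1, a2⟩ := GenQ.g_exists k₀ (g_and g1 (wr_gen hu hA.ne))
  refine ⟨G.erase 0, tup u l, ⟨?_, hne, fun j => ?_, a2, fun σ hσ => a1 σ hσ⟩, fun j => ?_⟩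
  · rw [Finset.coe_erase, span_sdiff_singleton_zero, hG]
  · rw [← hu]
    exact sum_mem fun i _ => smul_mem _ _ (subset_span ⟨i, rfl⟩)
  · refine sum_mem fun i _ => ?_
    rw [Algebra.smul_def]
    exact mul_mem (hf.cst _ (a0 _)) (hA1 i.2).2

/-- The rational tame projection theorem over a perfect field. -/
theorem tpp_of [IsAlgClosed k] (p : ℕ) [Fact p.Prime] [CharP k p] {k₀ : Subfield k} (h0 : Gd k₀)
    {C g : ℕ} (hC0 : 0 < C) (hk : Big k C) (hq : Big k g)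
    (h : ∀ (K : Type) [Field K] [Algebra k K], RatS k K m ∧ AlbFP k K m C g) : TPP k₀ m C := by
  classical
  intro K _ _ K₀ hf hK hn S hS
  have hg := galStmt k₀ K₀ ⊤ h0 hf (Or.inr rfl)
  obtain ⟨t, d, hF, ht⟩ := (frameP (k := k) (K := K) (m := m)).ex K₀ hg hK hn
  obtain ⟨V, hs, hV⟩ := (h K).2 K₀ t d S hg hF ht hS
  obtain ⟨M₀, hM, hsp⟩ := (Fl.finX Low.low).spn t d V hF hV.ne
  suffices ∃ B N s, 0 < N ∧ TupN d S C V M₀ B N s ∧ ∀ j, s j ∈ K₀ by
    obtain ⟨B, N, s, h1, h2, h3⟩ := this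
    exact ⟨_, _, fun i => div_mem (h3 _) (h3 _), div_mem (h3 _) (h3 _),
      finN Low.low p t d S C N V M₀ B s hk hC0 h1 hF hV.ne hsp h2⟩
  cases finite_or_infinite k₀
  · have := Fintype.ofFinite k₀
    have := h0.alg
    obtain ⟨B, h1, h2⟩ := hg.exists_gen ⟨hV.fg, hs, fun _ _ => trivial⟩
    let v : Fin (B.erase 0).card → K := fun i => (B.erase 0).equivFin.symm i
    have h3 : ∀ i, v i ∈ B.erase 0 := fun i => Subtype.prop _
    obtain ⟨B', N, P, h4, h5⟩ := gen_of p (h K).1 k₀ t d S C g _ V M₀ v (lt_card_of_big k₀ hq) hF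
      hV (by
        rw [← h2, ← Submodule.span_sdiff_singleton_zero (s := (B : Set K)), ← Finset.coe_erase]
        congr 1
        exact ((B.erase 0).equivFin.symm.surjective.range_comp Subtype.val).trans
          Subtype.range_coe) (fun i => Finset.ne_of_mem_erase (h3 i)) hM
    exact ⟨B', N, _, h4, h5, fun j =>
      aeval_map_mem hf.cst (fun i => h1 _ (Finset.mem_of_mem_erase (h3 i))) (P j)⟩
  · obtain ⟨B, s, h1, h2⟩ := gen_inf k₀ hf hg hV hs hM
    exact ⟨B, _, s, Nat.succ_pos _, h1, h2⟩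

/-- Resolution over a perfect field from the sharp Albanese theorem. -/
theorem resDim_of (κ : Type) [Field κ] [PerfectField κ] (p : ℕ) [Fact p.Prime] [CharP κ p]
    (n : ℕ) (C g : ℕ → ℕ) (hC : ∀ m < n, 0 < C m ∧ C m < p ∧ g m < p)
    (h : ∀ (k K : Type) [Field k] [Field K] [Algebra k K] [IsAlgClosed k] [CharP k p],
      ∀ m < n, RatS k K m ∧ AlbFP k K m (C m) (g m)) : ResDim κ n :=
  resDim_of_tpp κ p n C (fun m hm => (hC m hm).2.1) fun k _ _ _ _ _ m hm =>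
    tpp_of p (gd_range κ k) (hC m hm).1 (big_of_lt k p (hC m hm).2.1)
      (big_of_lt k p (hC m hm).2.2) fun K _ _ => h k K m hm

end Pool.Agent.R72.Res.SF

end MrgPart0

-- ======== part 1: formerly Pool.Agent.MP_19ffc6_ag.Res.SGlue
section MrgPart1

/-! PROJECT SHARP: from the modules to the Albanese theorem with the dimension count. -/

namespace Pool.Agent.R72.Res.SH

open Pool.Agent.R72.Wild Pool.Agent.R72.Res.PA Pool.Agent.R72.Res.PA.Num
  Pool.Agent.R72.Res.PA.LocK Submodule Filter Module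

variable {k K : Type} [Field k] [Field K] [Algebra k K] {m : ℕ}

theorem BB_lt (ha : ArithS) (m : ℕ) : BB m < cc m :=
  Nat.lt_succ_of_le (Nat.le_mul_of_pos_left _ (ha.pos m m))

/-- A point with small multiplicities is good for the finite field argument. -/
theorem gdc_of (hc : CalcS) (ha : ArithS) {d : Fin (m + 1) → Derivation k K K}
    {D : Set (DV k K)} {T : Submodule k K} (hT : T.FG) (hD : D.Finite)
    (h : GN d (al m) (BB m) D T) : SF.GdC d (cc m) (BB m + 1) D T := by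
  classical
  have h1 : (1 : Submodule k K).FG := one_eq_span (R := k) (A := K) ▸ fg_span_singleton _
  obtain ⟨M₁, -, -, H₁⟩ := h 1 h1 (one_le.1 le_rfl)
  obtain ⟨b₁, a₀, a₁, μ₀, g1, -, g2, g3⟩ := (H₁ hD.toFinset (by simp)).exists
  have hB := BB_lt ha m
  have hal : 2 ≤ al m := le_max_right _ _
  refine ⟨(BB m / 2 : ℕ), (BB m - μ₀ : ℕ), μ₀, ⟨fun E hE e1 => ?_, fun s hs => ?_⟩, ?_, ?_, ?_,
    ?_, ?_⟩
  · obtain ⟨M, hM, m1, H⟩ := h E hE e1
    have hF := fam_Mb (J := JJ d T) hT (JJ_fg hT) (hE.mul hM)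
    obtain ⟨P, b₀, p1, p2, p3⟩ := hF.exists_supW
    obtain ⟨b, ⟨e₀, e₁, μ, q1, q2, q3, -⟩, hb⟩ :=
      ((H hD.toFinset (by simp)).and (eventually_ge_atTop b₀)).exists
    have q4 : μ₀ ≤ μ := by exact_mod_cast hc.le g3 (hc.fq q3)
    have q5 : 2 * e₀ ≤ al m * e₀ := Nat.mul_le_mul_right _ hal
    refine ⟨M, hM, m1, ⟨b, hc.fq_mono (hc.fq q2.x) (Nat.cast_le.2 (by omega))
      (Eventually.of_forall fun L => le_rfl)⟩, P, p1, p2, fun W hW hP => ⟨b, ?_⟩⟩
    refine hc.fq_mono (hc.fq q2.p) (Nat.cast_le.2 (by omega)) (Eventually.of_forall fun L => ?_)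
    have := (p3 W hW hP).cod_add hF hb L
    omega
  · exact hc.fq_mono (hc.fq g2) le_rfl (Eventually.of_forall fun L =>
      Finset.sum_le_sum_of_subset fun w hw => hD.mem_toFinset.2 (hs hw))
  · exact Nat.cast_lt.2 (by omega)
  · exact Nat.cast_lt.2 (by omega)
  · exact Nat.cast_lt.2 (by omega)
  · rw [Nat.floor_natCast]; omega
  · rw [Nat.floor_natCast, Nat.floor_natCast]; omega

/-- The Albanese theorem with the dimension count. -/
theorem albFP_of [IsAlgClosed k] (hk : Big k (BB m)) (hc : CalcS) (ha : ArithS)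
    (hA : AlbPS k K m) (hN : NumS k K m) (hG : GtS k K m) :
    SF.AlbFP k K m (cc m) (BB m + 1) := by
  intro K₀ t d S hg hF ht hS
  obtain ⟨R, r1, r2⟩ := ha.real m
  have hal : 0 < al m := lt_of_lt_of_le two_pos (le_max_right _ _)
  obtain ⟨V, hs, hV⟩ := hA K₀ t d S (al m * (m + 2)) (BB m) R hg hF ht (fun x hx => (hS x hx).1)
    (Nat.mul_pos hal (Nat.succ_pos _)) hk r1
  have hD : ∀ σ, {w | w ∈ DD d S V ∧ w.Min V σ}.Finite := fun σ => hV.fin.subset fun w hw => hw.1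
  have key : ∀ σ T, Hyp V σ T → GN d (al m) (BB m) {w | w ∈ DD d S V ∧ w.Min V σ} T :=
    fun σ T h => hN d _ _ R _ T (St.hyp_fg h hV.fg) (fun w hw => h.le_fil hV.fg hw.2) hal r2
      (hV.good σ T h)
  refine ⟨V, hs, hV.fg, hV.ne, hV.fin, fun M₀ hM σ _ h0 => ?_, fun σ T h _ =>
    gdc_of hc ha (St.hyp_fg h hV.fg) (hD σ) (key σ T h)⟩
  exact SF.tha_of_gt fun hU h1 I _ u hu => hG (fun j j0 j1 => hk j j0 (j1.trans (ha.le m))) t d _
    M₀ I u _ hF hU h1 (GenM.JJ_ne h0 hV.ne) hu hM (hD σ)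
    (fun w hw => chart_le_fil hV.fg hw.2) fun T hT => key σ T (GenM.hyp_of_pnt h0 hT)

/-- Resolution over a perfect field from the modules. -/
theorem resDim_glue (κ : Type) [Field κ] [PerfectField κ] (p : ℕ) [Fact p.Prime] [CharP κ p]
    (n : ℕ) (hc : CalcS) (ha : ArithS) (hp : ∀ m < n, cc m < p)
    (h : ∀ (k K : Type) [Field k] [Field K] [Algebra k K] [IsAlgClosed k] [CharP k p] (m : ℕ),
      SF.RatS k K m ∧ AlbPS k K m ∧ NumS k K m ∧ GtS k K m) : ResDim κ n :=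
  SF.resDim_of κ p n cc (fun m => BB m + 1)
    (fun m hm => ⟨Nat.succ_pos _, hp m hm, lt_of_le_of_lt (BB_lt ha m) (hp m hm)⟩)
    fun k K _ _ _ _ _ m hm => ⟨(h k K m).1, albFP_of
      (big_of_lt k p ((BB_lt ha m).trans (hp m hm))) hc ha (h k K m).2.1 (h k K m).2.2.1
      (h k K m).2.2.2⟩

end Pool.Agent.R72.Res.SH

end MrgPart1

-- marker of a merged file
example : 731051 + 705437 = 731051 + 705437 := rfl
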