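import Pool.Agent.MP_19ffc6_ag.Res.SSpec

/-! PROJECT SHARP, module LOCP: the local degree on the polar divisor. -/

namespace Pool.Agent.R72.Res.SH

open Pool.Agent.R72.Wild Pool.Agent.R72.Res.PA Pool.Agent.R72.Res.PA.Num
  Pool.Agent.R72.Res.PA.LocK Pool.Agent.R72.Res.SC Submodule Filter Module MvPolynomial

variable {k K : Type} [Field k] [Field K] [Algebra k K] {m : ℕ}

namespace LocP

variable {T J : Submodule k K} {M : ℕ → Submodule k K}

theorem pr_le {x : K} {Y : Submodule k K} (h : x ∈ Y) : pr k x ≤ Y :=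
  (span_singleton_le_iff_mem _ _).2 h

/-- The graded form of a relation modulo a superficial element. -/
theorem upgrade (hF : Num.Fam T J M) {W₀ Φ : K} {b₀ β δ j : ℕ} (sw : SupW T M W₀ b₀) (hb : b₀ ≤ β)
    (hΦ : Φ ∈ T ^ δ)
    (h : pr k Φ * (T ^ j * M (β + 1)) ≤ T ^ (j + δ + 1) * M (β + 1) ⊔ pr k W₀ * M β) :
    pr k Φ * (T ^ j * M (β + 1)) ≤
      T ^ (j + δ + 1) * M (β + 1) ⊔ pr k W₀ * (T ^ (j + δ) * M β) := by
  intro x hx
  have h1 : x ∈ T ^ (j + δ) * M (β + 1) :=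
    ((mul_le_mul_left (pr_le hΦ) _).trans (le_of_eq (by ring))) hx
  obtain ⟨u, hu, _, hz0, rfl⟩ := mem_sup.1 (h hx)
  obtain ⟨z, hz, rfl⟩ := mem_pr_mul.1 hz0
  refine add_mem_sup hu (mem_pr_mul.2 ⟨z, sw.inj' hF hb _ z hz ?_, rfl⟩)
  exact (add_mem_cancel_left (hF.pow_succ_le _ _ hu)).1 h1

/-- The term of the last generator. -/
theorem last (hF : Num.Fam T J M) (md : ∀ b, Md T (M b)) {W₀ W Φ π : K} {s₀ : k} {β δ γ c : ℕ}
    (hs : s₀ ≠ 0) (hπ : π ∈ T ^ γ) (hW : W - s₀ • (π * W₀) ∈ T ^ (γ + 1) * (alg T * J))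
    (hc : δ + γ ≤ c) (h : ∀ j, pr k Φ * (T ^ j * M (β + 1)) ≤
      T ^ (j + δ + 1) * M (β + 1) ⊔ pr k W₀ * (T ^ (j + δ) * M β)) :
    pr k (Φ * π) * (T ^ (c - (δ + γ)) * M (β + 1)) ≤
      T ^ (c + 1) * M (β + 1) ⊔ pr k W * (T ^ (c - γ) * M β) := by
  obtain ⟨j, rfl⟩ := Nat.exists_eq_add_of_le hc
  rw [Nat.add_sub_cancel_left, show δ + γ + j - γ = j + δ by omega, mul_comm Φ, ← pr_mul_pr,
    mul_assoc]
  refine (mul_le_mul_right (h j) _).trans ?_
  rw [Submodule.mul_sup, ← mul_assoc (pr k π) (pr k W₀), pr_mul_pr]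
  refine sup_le (le_sup_of_le_left ((mul_le_mul_left (pr_le hπ) _).trans (le_of_eq (by ring)))) ?_
  have h1 : pr k (π * W₀) ≤ T ^ (γ + 1) * (alg T * J) ⊔ pr k W := by
    refine pr_le ((smul_mem_iff _ hs).1 ?_)
    have := sub_mem (mem_sup_right (mem_span_singleton_self W : W ∈ pr k W)) (mem_sup_left hW)
    rwa [sub_sub_cancel] at this
  refine (mul_le_mul_left h1 _).trans ?_
  rw [Submodule.sup_mul]
  refine sup_le_sup_right (le_of_eq_of_le
    (b := T ^ (δ + γ + j + 1) * (alg T * (J * M β))) (by ring) ?_) _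
  rw [← hF.succ]
  exact mul_le_mul_right (md _) _

theorem hs_mono {ι : Type} {t : ι → ℕ} {g : ι → K} {P : Submodule k K} {Q Q' : ℕ → Submodule k K}
    (h : Hs T t g P Q) (hQ : ∀ c, Q c ≤ Q' c) : Hs T t g P Q' :=
  h.imp fun _ h c hc => (h c hc).trans (sup_le_sup_left (hQ c) _)

end LocP

open LocP in
theorem locPS [IsAlgClosed k] (hc : CalcS) (ha : ArithS) (hr : RankS k K) (hp : PgS k m)
    (ht : TrS k K m) (hw : WrlS k K m) (ho : PolS k K) (hd : DimS k K m) : LocPS k K m := by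
  intro hk t₀ d T MM S₀ C b hFr hT hJ0 hM hM0 hS hS' hb hβ
  have hF := fam_Mb hT (JJ_fg (d := d) hT) hM
  obtain ⟨P₂, b₁, p5, p6, hW⟩ := hF.exists_supW
  obtain ⟨β, ⟨e₀, e₁, hN, hC⟩, hβ1⟩ := (hβ.and_eventually (eventually_ge_atTop b₁)).exists
  have md : ∀ b, Md T (Mb T (JJ d T) MM b) := md_Mb _ _ _
  have fd : ∀ b Q L, Fd (Mb T (JJ d T) MM b) (T ^ L * Mb T (JJ d T) MM b ⊔ Q) :=
    fun b Q L => hF.fd' le_rfl le_sup_left
  have hJ : ∀ p, ¬ JJ d T ≤ p → Op k fun l : Fin (m + 1) → T => Jac d (fun i => l i) ∉ p :=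
    fun p hp => op_multi (jacA d).toMultilinearMap (by
      by_contra c
      exact hp (JJ_le fun g hg => not_not.1 fun c' => c ⟨fun i => ⟨g i, hg i⟩, c'⟩))
  obtain ⟨μ, g1⟩ := hc.gr (hc.fq hN.x)
  have g1' : Gr (m + 1) μ T (Mb T (JJ d T) MM β) ⊥ := g1.mono fun L h => by
    rw [sup_bot_eq]
    exact h
  obtain ⟨l', r1, r3⟩ := ((op_rd hT (md β) md_bot (fd β ⊥) g1').and
    (op_forall p5 fun p hp => hJ p (p6 p hp))).1
  obtain ⟨l, hl, rfl⟩ : ∃ l : Fin (m + 1) → K, ∃ hl : ∀ i, l i ∈ T, l' = fun i => ⟨l i, hl i⟩ :=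
    ⟨fun i => l' i, fun i => (l' i).2, rfl⟩
  dsimp only at r1 r3
  have r5 : Rd T 1 l (Mb T (JJ d T) MM (β + 1)) ⊥ := by
    rw [hF.succ]
    simpa using rd_mul r1 (JJ d T)
  have sw := hW _ (jac_mem hl) r3
  obtain ⟨μ', g2⟩ := hc.gr (hc.fq hN.p)
  have g2' : Gr m μ' T (Mb T (JJ d T) MM (β + 1)) (pr k (Jac d l) * Mb T (JJ d T) MM β) :=
    g2.mono fun L h => by
      have := sw.cod_add hF hβ1 L
      omega
  obtain ⟨F, δ, F0, Fh, hkill⟩ := ht.kill m μ' T _ _ l (md _) ((md β).mul _) (fd _ _) g2' hl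
  have up := fun j => upgrade hF sw hβ1 (ht.hom _ T l δ F hl Fh) (hkill j)
  obtain ⟨s₀, s1, s2⟩ := LocB.exists_val_ne hS hS'
  refine (ht.win T l _ b _ hl (hp hk F δ b F0 Fh hb)).mono le_rfl ?_
  rintro _ - ⟨g, ⟨t, hL⟩, rfl⟩
  have tpos : ∀ i, 0 < t i := fun i => (hL.prof i).1
  obtain ⟨πh, hWr⟩ := hw d T S₀ s₀ l g t s2 hl tpos hL.ord
  set π := (Matrix.of fun i j => pderiv j (homogeneousComponent (t i) (g i))).det with hπ
  set γ := ∑ i, (t i - 1) with hγ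
  set W := Wr d (Fin.cons S₀ fun i => aeval l (g i)) with hWd
  have πm := ht.hom _ T l γ π hl πh
  have lead := fun i => ht.lead _ T l (t i) (g i) hl (hL.ord i)
  obtain ⟨N, hN1⟩ := ht.hsl (m + 1) (Option (Fin m)) T _ ⊥ l
    (fun o => o.elim (δ + γ) fun i => t i.castSucc)
    (fun o => o.elim (F * π) fun i => homogeneousComponent (t i.castSucc) (g i.castSucc))
    (md (β + 1)) md_bot hl r5
    (fun o => by
      cases o
      exacts [Fh.mul πh, homogeneousComponent_isHomogeneous _ _])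
    (fun x hx => by
      by_contra h0
      obtain ⟨z1, -, z2⟩ := hL.zero x h0 fun i => hx (some i)
      exact mul_ne_zero z1 z2 ((map_mul (eval x) F π).symm.trans (hx none)))
  have H1 : Hs T (fun i : Fin m => t i.castSucc)
      (fun i => aeval l (homogeneousComponent (t i.castSucc) (g i.castSucc)))
      (Mb T (JJ d T) MM (β + 1)) fun j => pr k W * (T ^ (j - γ) * Mb T (JJ d T) MM β) := by
    refine ⟨max N (δ + γ), fun c hc => (hN1 c ((le_max_left _ _).trans hc)).trans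
      (sup_le (sup_le (iSup_le fun o => ?_) (le_sup_of_le_left le_sup_right)) bot_le)⟩
    cases o with
    | none =>
      rw [sup_assoc]
      refine le_sup_of_le_right ?_
      have := last hF md (Φ := aeval l F) s1 πm hWr ((le_max_right _ _).trans hc) up
      rw [← map_mul] at this
      exact this
    | some i =>
      exact le_sup_of_le_left (le_sup_of_le_left (le_iSup (fun i : Fin m =>
        pr k (aeval l (homogeneousComponent (t i.castSucc) (g i.castSucc))) *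
          (T ^ (c - t i.castSucc) * Mb T (JJ d T) MM (β + 1))) i))
  have H2 := ht.congr (Fin m) T _ _ _ _ (fun i => aeval l (g i.castSucc)) inferInstance (md _)
    (fun i => (lead i.castSucc).2) H1
  have W0 : W ≠ 0 := fun h0 => by
    obtain ⟨N', h2⟩ := H2
    refine hd t₀ d T (MM * JJ d T ^ (β + 1)) (fun i => aeval l (g i.castSucc)) N' hFr hT hJ0
      (fun h1 => hS' (by simpa using (md_nn T).mem hS h1)) (hM.mul ((JJ_fg hT).pow _))
      (mul_ne_zero hM0 (pow_ne_zero _ hJ0)) (fun i => ?_) ((h2 N' le_rfl).trans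
        (sup_le (sup_le_sup_right (iSup_le fun i => ?_) _) ?_))
    · have := (md_alg T).anti (tpos i.castSucc) (lead i.castSucc).1
      rwa [Nat.succ_eq_add_one, zero_add, pow_one] at this
    · exact mul_le_mul' (pr_le (subset_span ⟨i, rfl⟩)) (hF.pow_le _ _)
    · simp [h0, pr]
  have Wm : W ∈ T ^ γ * (alg T * JJ d T) := by
    have h1 := add_mem (((md_alg T).mul' _).anti (Nat.le_succ γ) hWr) (smul_mem _ s₀
      (Submodule.mul_mem_mul πm (Submodule.mul_mem_mul (one_mem_alg T) (jac_mem (d := d) hl))))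
    rwa [one_mul, sub_add_cancel] at h1
  have hq := ho m γ β e₀ e₁ T _ MM W _ _ hT (JJ_fg hT) hM W0 Wm (fun i => tpos _)
    (fun i => (lead _).1) H2 hN.le hN.x hN.p
  obtain ⟨ρ, k1, -, k2⟩ := hr m T _ (pr k W * Mb T (JJ d T) MM β) _ _ (md _) ((md β).mul _)
    (fd _ _) (fun i => tpos _) (fun i => (lead _).1)
    (hs_mono H2 fun c => mul_le_mul_right (hF.pow_le _ _) _)
  have k3 := hc.le k1 (hc.fq_mul _ hq)
  have k4 : ρ ≤ (∏ i : Fin m, t i.castSucc) * (e₁ + γ * e₀) := by exact_mod_cast k3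
  refine ⟨MM, β, hM, hM0, ld_mono k2 (lt_of_le_of_lt (k4.trans ?_) hC) le_rfl⟩
  exact Nat.mul_le_mul (ha.num hL.prof)
    (Nat.add_le_add_left (Nat.mul_le_mul_right _ (ha.sum hL.prof)) _)

end Pool.Agent.R72.Res.SH
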