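import Pool.Agent.MP_19ffc6_ag.Res.SSpec
import Pool.Agent.MP_19ffc6_ag.Res.SFRank

-- ======== part 0: formerly Pool.Agent.MP_19ffc6_ag.Res.SRankS
section MrgPart0

/-! PROJECT SHARP: module RANK. -/

namespace Pool.Agent.R72.Res.SH

theorem rankS {k K : Type} [Field k] [Field K] [Algebra k K] : RankS k K := by
  rintro e T P Q t g hP hQ hf ht hg ⟨N, hN⟩
  obtain ⟨ρ, h1, h2, h3⟩ := SC.rank_rho hP hQ hf ht hg (hN N le_rfl)
  refine ⟨ρ, fun ε hε => (h1 ε hε).mono fun L hL => hL.trans_eq ?_, h2, h3⟩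
  push_cast
  ring

end Pool.Agent.R72.Res.SH

end MrgPart0

-- ======== part 1: formerly Pool.Agent.MP_19ffc6_ag.Res.SLocX
section MrgPart1

/-! PROJECT SHARP, row LOCXW: local degrees on modules of dimension `m + 1` and `m`. -/

namespace Pool.Agent.R72.Res.SH

open Pool.Agent.R72.Wild Pool.Agent.R72.Res.PA Pool.Agent.R72.Res.PA.Num
  Pool.Agent.R72.Res.PA.LocK Pool.Agent.R72.Res.SC Submodule Filter Module MvPolynomial
open Pool.Agent.R72.Res.SF (Fq)

variable {k K : Type} [Field k] [Field K] [Algebra k K] {m : ℕ}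

namespace LocX

theorem fin (hc : CalcS) (hr : RankS k K) (ht : TrS k K m) {e n ν C B : ℕ}
    {T P Q : Submodule k K} (hP : Md T P) (hQ : Md T Q) (hf : ∀ L, Fd P (T ^ L * P ⊔ Q))
    (hν : Fq e ν fun L => cod P (T ^ L * P ⊔ Q)) {l : Fin n → K} (hl : ∀ i, l i ∈ T)
    {g : Fin e → MvPolynomial (Fin n) k} {t : Fin e → ℕ} (h0 : ∀ i, 0 < t i)
    (ho : ∀ i j, j < t i → homogeneousComponent j (g i) = 0)
    (hs : Hs T t (fun i => aeval l (homogeneousComponent (t i) (g i))) P fun _ => Q)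
    (hB : ∏ i, t i ≤ B) (hC : B * ν < C) : Ld C T (fun i => aeval l (g i)) P Q := by
  have h1 := fun i => ht.lead n T l (t i) (g i) hl (ho i)
  obtain ⟨ρ, h2, -, h3⟩ := hr e T P Q t (fun i => aeval l (g i)) hP hQ hf h0 (fun i => (h1 i).1)
    (ht.congr _ T P _ t _ _ inferInstance hP (fun i => (h1 i).2) hs)
  have h4 := hc.le h2 (hc.fq_mul (∏ i, t i) hν)
  have h5 : ρ ≤ (∏ i, t i) * ν := by exact_mod_cast h4
  exact ld_mono h3 (lt_of_le_of_lt (h5.trans (Nat.mul_le_mul_right _ hB)) hC) le_rfl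

end LocX

theorem locXS [IsAlgClosed k] (hc : CalcS) (ha : ArithS) (hr : RankS k K) (hp : PgS k m)
    (ht : TrS k K m) : LocXS k K m := by
  intro hB T P Q ν C b hT hP hQ hf hν hb hC
  obtain ⟨μ, hμ⟩ := hc.gr hν
  obtain ⟨l, hl, hR⟩ := LocK.exists_rd hT hP hQ hf (show Gr (m + 1) μ T P Q from hμ)
  refine (ht.win T l (m + 1) b _ hl
    (hp hB 1 0 b one_ne_zero (isHomogeneous_one _ _) hb)).mono le_rfl ?_
  rintro _ - ⟨g, ⟨t, hL⟩, rfl⟩
  refine LocX.fin hc hr ht hP hQ hf hν hl (fun i => (hL.prof i).1) hL.ord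
    (ht.hsl (m + 1) _ T P Q l t _ hP hQ hl hR (fun i => homogeneousComponent_isHomogeneous _ _)
      fun x hx => ?_) (ha.all hL.prof hb) hC
  by_contra h0
  exact (hL.zero x h0 fun i => hx _).2.1 (hx _)

theorem locWS [IsAlgClosed k] (hc : CalcS) (ha : ArithS) (hr : RankS k K) (hp : PgS k m)
    (ht : TrS k K m) : LocWS k K m := by
  intro hB T P Q ν C b hT hP hQ hf hν hb hC
  obtain ⟨μ, hμ⟩ := hc.gr hν
  have hG : Gr (m + 1) μ T P Q := (hμ.and_eventually (eventually_ge_atTop 1)).mono fun L h =>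
    h.1.trans (Nat.mul_le_mul_left _ (Nat.pow_le_pow_right h.2 (Nat.le_succ m)))
  obtain ⟨l, hl, hR⟩ := LocK.exists_rd hT hP hQ hf hG
  obtain ⟨F, δ, hF, hδ, hk⟩ := ht.kill m μ T P Q l hP hQ hf hμ hl
  refine (ht.win T l (m + 1) b _ hl (hp hB F δ b hF hδ hb)).mono le_rfl ?_
  rintro _ - ⟨g, ⟨t, hL⟩, rfl⟩
  refine LocX.fin hc hr ht hP hQ hf hν hl (g := fun i => g i.castSucc) (t := fun i => t i.castSucc)
    (fun i => (hL.prof _).1) (fun i => hL.ord _) ?_ (ha.num hL.prof) hC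
  obtain ⟨N, hN⟩ := ht.hsl (m + 1) (Option (Fin m)) T P Q l
    (fun o => o.elim δ fun i => t i.castSucc)
    (fun o => o.elim F fun i => homogeneousComponent (t i.castSucc) (g i.castSucc)) hP hQ hl hR
    (fun o => by
      cases o with
      | none => exact hδ
      | some i => exact homogeneousComponent_isHomogeneous _ _)
    fun x hx => by
      by_contra h0
      exact (hL.zero x h0 fun i => hx (some i)).1 (hx none)
  refine ⟨max N δ, fun c hcN => (hN c (le_of_max_le_left hcN)).trans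
    (sup_le (sup_le (iSup_le fun o => ?_) (le_sup_of_le_left le_sup_right)) le_sup_right)⟩
  cases o with
  | none =>
    have := hk (c - δ)
    rw [Nat.sub_add_cancel (le_of_max_le_right hcN)] at this
    exact this.trans (sup_le_sup_right le_sup_right _)
  | some i =>
    exact le_sup_of_le_left (le_sup_of_le_left (le_iSup (fun i : Fin m =>
      pr k (aeval l (homogeneousComponent (t i.castSucc) (g i.castSucc))) *
        (T ^ (c - t i.castSucc) * P)) i))

end Pool.Agent.R72.Res.SH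

end MrgPart1

-- marker of a merged file
example : 731051 + 421574 = 731051 + 421574 := rfl
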