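import Pool.Agent.MP_19ffc6_ag.Res.SSpec

/-! PROJECT SHARP, module NUM: from the summed Hilbert-Samuel function to multiplicities. -/

namespace Pool.Agent.R72.Res.SH

open Pool.Agent.R72.Wild Pool.Agent.R72.Res.PA Pool.Agent.R72.Res.PA.Num
  Pool.Agent.R72.Res.PA.LocK Submodule Filter
open Pool.Agent.R72.Res.SF (Fq)

variable {k K : Type} [Field k] [Field K] [Algebra k K] {m : ℕ}

namespace NumM

/-- A Hilbert-Samuel function that often has growth of exponent `e` has a multiplicity. -/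
theorem lim [Infinite k] (hc : CalcS) (hr : RankS k K) (ht : TrS k K m) {e : ℕ} {ν : ℝ}
    {T P Q : Submodule k K} (hT : T.FG) (hP : Md T P) (hQ : Md T Q)
    (hf : ∀ L, Fd P (T ^ L * P ⊔ Q)) (h : Fq e ν fun L => cod P (T ^ L * P ⊔ Q)) :
    ∃ ρ : ℕ, Lo e ρ (fun L => cod P (T ^ L * P ⊔ Q)) ∧
      Ev e ρ fun L => cod P (T ^ L * P ⊔ Q) := by
  obtain ⟨μ, hμ⟩ := hc.gr h
  obtain ⟨l, h1, h2⟩ := exists_rd (e := e) (μ := μ) hT hP hQ hf hμ
  obtain ⟨ρ, h3, h4, -⟩ := hr e T P Q (fun _ => 1) l hP hQ hf (fun _ => one_pos)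
    (fun i => by simpa using pow_mem_alg (h1 i) 1) (ht.rd e T P Q l hQ h2)
  exact ⟨ρ, by simpa using h3, h4 fun _ => rfl⟩

theorem sum_lim (hc : CalcS) {ι : Type} {e : ℕ} (f : ι → ℕ → ℕ) (s : Finset ι)
    (h : ∀ w ∈ s, ∃ ρ : ℕ, Lo e ρ (f w) ∧ Ev e ρ (f w)) :
    ∃ ρ : ℕ, Lo e ρ (fun L => ∑ w ∈ s, f w L) ∧ Ev e ρ fun L => ∑ w ∈ s, f w L := by
  induction s using Finset.cons_induction with
  | empty => exact ⟨0, by simpa using hc.lo_zero e _, by simpa using hc.ev_zero e⟩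
  | cons a s ha ih =>
    obtain ⟨x, h1, h2⟩ := h a (by simp)
    obtain ⟨y, h3, h4⟩ := ih fun w hw => h w (by simp [hw])
    refine ⟨x + y, ?_, ?_⟩
    · simpa only [Finset.sum_cons, Nat.cast_add] using hc.lo_add h1 h3
    · simpa only [Finset.sum_cons, Nat.cast_add] using hc.ev_add h2 h4

theorem fd_alg {T Q : Submodule k K} (hT : T.FG) (L : ℕ) : Fd (alg T) (T ^ L * alg T ⊔ Q) := by
  have ea : Mb T T (span k {1}) 0 = alg T := by
    rw [Mb, pow_zero, mul_one, ← one_eq_span, mul_one]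
  have h := (fam_Mb hT hT (fg_span_singleton (1 : K))).fd 0 L
  rw [ea] at h
  exact (cod_mono le_rfl (fun _ _ hx => mem_sup_left hx) h).1

theorem bd_lim [Infinite k] (hc : CalcS) (hr : RankS k K) (ht : TrS k K m) {e : ℕ} {ν : ℝ}
    {T : Submodule k K} (hT : T.FG) {s : Finset (DV k K)} (hs : ∀ w ∈ s, T ≤ w.fil 0)
    (hz : Fq e ν (bd T s)) : ∃ ρ : ℕ, Lo e ρ (bd T s) ∧ Ev e ρ (bd T s) := by
  refine sum_lim hc (fun (w : DV k K) L => cod (alg T) (T ^ L * alg T ⊔ w.fil 1)) s fun w hw => ?_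
  refine lim (ν := ν) hc hr ht hT (md_alg T) (md_fil (hs w hw) 1) (fd_alg hT) ?_
  refine hc.fq_mono hz le_rfl (Eventually.of_forall fun L => ?_)
  exact Finset.single_le_sum (f := fun w : DV k K => cod (alg T) (T ^ L * alg T ⊔ w.fil 1))
    (fun _ _ => Nat.zero_le _) hw

/-- Lower bounds for the three parts add up. -/
theorem key (hc : CalcS) {A b : ℕ} (hA : 0 < A) {G : ℝ} {F u v z : ℕ → ℕ} (hF : Fq (m + 2) G F)
    (hle : ∀ᶠ L in atTop, ∑ j ∈ Finset.range (A * L + 1), (u j + (L - b) * v j + L * z j) ≤ F L)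
    {x y w : ℝ} (hu : Lo (m + 1) x u) (hv : Lo m y v) (hz : Lo m w z) :
    x * A ^ (m + 2) + (m + 2) * (y + w) * A ^ (m + 1) ≤ G := by
  have h1 := hc.lo_scale A 1 hA (hc.lo_sum hu)
  have h2 := hc.lo_lin b (hc.lo_scale A 1 hA (hc.lo_sum hv))
  have h3 := hc.lo_lin 0 (hc.lo_scale A 1 hA (hc.lo_sum hz))
  refine hc.le (hc.lo_mono (hc.lo_add (hc.lo_add h1 h2) h3) (le_of_eq ?_)
    (hle.mono fun L hL => le_of_eq_of_le ?_ hL)) hF
  · push_cast; ring
  · simp only [Finset.sum_add_distrib, Finset.mul_sum, Nat.sub_zero]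

theorem fq_of (hc : CalcS) {e : ℕ} {f : ℕ → ℕ} {c G : ℝ} (h0 : 0 < c)
    (h : ∀ x, Lo e x f → x * c ≤ G) : Fq e (G / c) f := by
  by_contra H
  obtain ⟨x, h1, h2⟩ := hc.not_fq H
  exact absurd (h x h2) (not_le.2 ((div_lt_iff₀ h0).1 h1))

/-- The numerical conclusion for a family of modules. -/
theorem fam [Infinite k] (hc : CalcS) (hr : RankS k K) (ht : TrS k K m) {T J : Submodule k K}
    {N : ℕ → Submodule k K} (hfam : Num.Fam T J N) (hN : ∀ b, Md T (N b)) {A : ℕ} (hA : 0 < A) {G : ℝ}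
    {s : Finset (DV k K)} (hs : ∀ w ∈ s, T ≤ w.fil 0)
    (hF : Fq (m + 2) G fun L => ∑ j ∈ Finset.range (A * L + 1), (lam T N L j + L * bd T s j)) :
    ∀ᶠ b : ℕ in atTop, ∃ e₀ e₁ μ : ℕ,
      (e₀ : ℝ) * A ^ (m + 2) + (m + 2) * (e₁ + μ) * A ^ (m + 1) ≤ G ∧
      (∀ L, lam T N b L ≤ lam T N (b + 1) L) ∧ Ev (m + 1) e₀ (lam T N b) ∧
      Ev m e₁ (fun L => lam T N (b + 1) L - lam T N b L) ∧ Ev m μ (bd T s) ∧ Lo m μ (bd T s) := by
  have hT := hfam.tfg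
  obtain ⟨b₁, hb₁⟩ := hfam.convex
  obtain ⟨P, b₀, p1, p2, p3⟩ := hfam.exists_supW
  obtain ⟨W, hW, hP⟩ := exists_avoid p1 p2
  have hsup := p3 W hW hP
  have hA' : (0 : ℝ) < A := by exact_mod_cast hA
  filter_upwards [eventually_ge_atTop (b₀ + b₁)] with b hb
  have hk : ∀ x y w : ℝ, Lo (m + 1) x (lam T N b) →
      Lo m y (fun j => lam T N (b + 1) j - lam T N b j) → Lo m w (bd T s) →
      x * A ^ (m + 2) + (m + 2) * (y + w) * A ^ (m + 1) ≤ G := fun x y w hx hy hw => by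
    refine key (b := b) hc hA hF ?_ hx hy hw
    filter_upwards [eventually_ge_atTop b] with L hL
    refine Finset.sum_le_sum fun j _ => Nat.add_le_add_right ?_ _
    obtain ⟨i, rfl⟩ := Nat.exists_eq_add_of_le hL
    rw [Nat.add_sub_cancel_left]
    exact (convex_bound (f := fun a => lam T N a j) (b := b)
      (fun a ha => hb₁ a ((le_of_add_le_right hb).trans ha) j) i).2
  have c1 : (0 : ℝ) < (A : ℝ) ^ (m + 2) := by positivity
  have c2 : (0 : ℝ) < (m + 2) * (A : ℝ) ^ (m + 1) := by positivity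
  have hu := fq_of (G := G) hc c1 fun x hx => le_of_eq_of_le (by ring)
    (hk x 0 0 hx (hc.lo_zero _ _) (hc.lo_zero _ _))
  have hv := fq_of (G := G) hc c2 fun x hx => le_of_eq_of_le (by ring)
    (hk 0 x 0 (hc.lo_zero _ _) hx (hc.lo_zero _ _))
  have hz := fq_of (G := G) hc c2 fun x hx => le_of_eq_of_le (by ring)
    (hk 0 0 x (hc.lo_zero _ _) (hc.lo_zero _ _) hx)
  have eu : lam T N b = fun L => cod (N b) (T ^ L * N b ⊔ ⊥) := by
    funext L; rw [sup_bot_eq, lam]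
  have ev : (fun L => lam T N (b + 1) L - lam T N b L) =
      fun L => cod (N (b + 1)) (T ^ L * N (b + 1) ⊔ pr k W * N b) := by
    funext L
    exact (Nat.eq_sub_of_add_eq (hsup.cod_add hfam (b := b) (le_of_add_le_left hb) L)).symm
  rw [ev] at hk hv ⊢
  rw [eu] at hk hu
  obtain ⟨e₀, u1, u2⟩ := lim hc hr ht hT (hN b) md_bot (fun L => hfam.fd' le_rfl le_sup_left) hu
  obtain ⟨e₁, v1, v2⟩ := lim hc hr ht hT (hN (b + 1)) ((hN b).mul (pr k W))
    (fun L => hfam.fd' le_rfl le_sup_left) hv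
  obtain ⟨μ, z1, z2⟩ := bd_lim hc hr ht hT hs hz
  exact ⟨e₀, e₁, μ, hk _ _ _ u1 v1 z1, fun L => (hb₁ b (le_of_add_le_right hb) L).1,
    by rw [eu]; exact u2, v2, z2, z1⟩

theorem arith {α B e₀ e₁ μ : ℕ} {R : ℝ} (hα : 0 < α)
    (hR : ((m + 1).factorial : ℝ) * R < (B + 1) * ((α * (m + 2) : ℕ) : ℝ) ^ m)
    (h : (e₀ : ℝ) * ((α * (m + 2) : ℕ) : ℝ) ^ (m + 2) +
      (m + 2) * (e₁ + μ) * ((α * (m + 2) : ℕ) : ℝ) ^ (m + 1) ≤
        (m + 2).factorial * (((α * (m + 2) : ℕ) : ℝ) * R)) : α * e₀ + e₁ + μ ≤ B := by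
  have e1 : ((α * (m + 2) : ℕ) : ℝ) = α * (m + 2) := by push_cast; ring
  have hA : (0 : ℝ) < ((α * (m + 2) : ℕ) : ℝ) := by positivity
  generalize ((α * (m + 2) : ℕ) : ℝ) = A at *
  have c2 : (0 : ℝ) < (m + 2) * A ^ (m + 1) := by positivity
  have h3 : ((α * e₀ + e₁ + μ : ℕ) : ℝ) < ((B + 1 : ℕ) : ℝ) := by
    refine lt_of_mul_lt_mul_left ?_ c2.le
    have h4 := mul_lt_mul_of_pos_left hR (show (0 : ℝ) < (m + 2) * A by positivity)
    calc _ = e₀ * A ^ (m + 2) + (m + 2) * (e₁ + μ) * A ^ (m + 1) := by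
          rw [pow_succ A (m + 1)]
          generalize A ^ (m + 1) = X
          rw [e1]; push_cast; ring
      _ ≤ _ := h
      _ = (m + 2) * A * (((m + 1).factorial : ℝ) * R) := by
          rw [Nat.factorial_succ (m + 1)]; push_cast; ring
      _ < _ := h4
      _ = _ := by push_cast; ring
  exact Nat.lt_succ_iff.1 (by exact_mod_cast h3)

end NumM

theorem numS [Infinite k] (hc : CalcS) (hr : RankS k K) (ht : TrS k K m) : NumS k K m := by
  intro d α B R D T hT hD hα hR hG E hE h1E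
  obtain ⟨M, hM, h1M, H⟩ := hG E hE h1E
  refine ⟨M, hM, h1M, fun s hs => ?_⟩
  have hF : Fq (m + 2) ((m + 2).factorial * (((α * (m + 2) : ℕ) : ℝ) * R))
      (FS d (α * (m + 2)) T (E * M) s) := by
    intro ε hε
    have h0 : (0 : ℝ) < (m + 2).factorial := by exact_mod_cast (m + 2).factorial_pos
    refine (H s hs (ε / (m + 2).factorial) (by positivity)).mono fun L hL => ?_
    refine (mul_le_mul_of_nonneg_left hL h0.le).trans (le_of_eq ?_)
    rw [← mul_assoc, mul_add, mul_div_cancel₀ _ h0.ne']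
  refine (NumM.fam hc hr ht (fam_Mb hT (JJ_fg (d := d) hT) (hE.mul hM)) (md_Mb _ _ _)
    (by positivity) (fun w hw => hD w (hs hw)) hF).mono ?_
  rintro b ⟨e₀, e₁, μ, h1, h2, h3, h4, h5, h6⟩
  exact ⟨e₀, e₁, μ, NumM.arith hα hR h1, ⟨h2, h3, h4⟩, h5, h6⟩

end Pool.Agent.R72.Res.SH
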