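import Pool.Agent.MP_19ffc6_ag.Res.SSpec

/-! PROJECT SHARP, module PG: the game in the polynomial ring. -/

namespace Pool.Agent.R72.Res.SH

open Pool.Agent.R72.Res.PA Pool.Agent.R72.Res.SC MvPolynomial Finset

namespace Pg

variable {k : Type} [Field k] {n m D : ℕ}

theorem win_map {V V' : Type} [AddCommGroup V] [Module k V] [AddCommGroup V'] [Module k V']
    (f : V →ₗ[k] V') {M : Submodule k V} {M' : Submodule k V'} (hf : ∀ x ∈ M, f x ∈ M') {r : ℕ}
    {b : Fin r → ℕ} {G : (Fin r → V) → Prop} (h : Win M r b G) :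
    Win M' r b fun g' => ∃ g, G g ∧ g' = fun i => f (g i) := by
  induction r with
  | zero => exact ⟨_, h, funext fun i => i.elim0⟩
  | succ r ih =>
    obtain ⟨τ, h1, h2⟩ := h
    refine ⟨f ∘ₗ τ, fun a => hf _ (h1 a), fun a ha => (ih (h2 a ha)).mono le_rfl ?_⟩
    rintro _ - ⟨g, hg, rfl⟩
    exact ⟨_, hg, funext fun i => Fin.cases rfl (fun _ => rfl) i⟩

/-- An open cone. -/
structure Nice (Φ : (Fin n → k) → Prop) : Prop where
  cone : ∀ v (c : k), c ≠ 0 → Φ v → Φ (c • v)
  line : ∀ v w, Φ v → {η : k | ¬ Φ (v + η • w)}.Finite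

theorem Nice.comap {Φ : (Fin n → k) → Prop} (h : Nice Φ)
    {Λ : Set ((Fin m → k) →ₗ[k] (Fin n → k))} (hΛ : Λ.Finite) :
    Nice fun v => ∀ ι ∈ Λ, Φ (ι v) where
  cone v c hc H ι hι := by rw [map_smul]; exact h.cone _ c hc (H ι hι)
  line v w H := (hΛ.biUnion fun ι hι => h.line _ (ι w) (H ι hι)).subset fun η hη => by
    simp only [Set.mem_ofPred_eq, not_forall, map_add, map_smul] at hη
    obtain ⟨ι, h1, h2⟩ := hη
    exact Set.mem_biUnion h1 h2

theorem nice_eval {F : MvPolynomial (Fin n) k} {δ : ℕ} (hF : F.IsHomogeneous δ) :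
    Nice fun v => eval v F ≠ 0 where
  cone v c hc H := by
    have e : eval (c • v) F = c ^ δ * eval v F := by
      rw [eval_eq', eval_eq', mul_sum]
      refine sum_congr rfl fun d hd => ?_
      have h1 : ∑ i, d i = δ := by
        rw [← Finsupp.degree_eq_sum]
        exact not_not.1 fun h => mem_support_iff.1 hd (hF.coeff_eq_zero h)
      simp only [Pi.smul_apply, smul_eq_mul, mul_pow, prod_mul_distrib, prod_pow_eq_pow_sum, h1]
      ring
    rw [e]
    exact mul_ne_zero (pow_ne_zero _ hc) H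
  line v w H := by
    let q : Polynomial k := aeval (fun i => Polynomial.C (v i) + Polynomial.X * Polynomial.C (w i)) F
    have hq : ∀ η : k, q.eval η = eval (v + η • w) F := fun η => by
      rw [← Polynomial.coe_aeval_eq_eval, comp_aeval_apply, aeval_eq_eval]
      congr 2
      funext i
      simp [mul_comm η]
    refine (q.finite_setOfPred_isRoot fun c => H ?_).subset fun η hη => ?_
    · simpa [c] using (hq 0).symm
    · exact (hq η).trans (not_not.1 hη)

variable (k D n) in
/-- Polynomials of degree at most `D` without constant term. -/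
noncomputable def PD : Submodule k (MvPolynomial (Fin n) k) :=
  restrictTotalDegree (Fin n) k D ⊓ LinearMap.ker (lcoeff k 0)

theorem mem_PD {f : MvPolynomial (Fin n) k} {d : ℕ} (hf : f.IsHomogeneous d) (h0 : 0 < d)
    (hd : d ≤ D) : f ∈ PD k n D :=
  ⟨(mem_restrictTotalDegree _ _ _).2 (hf.totalDegree_le.trans hd),
    hf.coeff_eq_zero (by simpa using h0.ne)⟩

/-- The leading form of an element of a family of forms. -/
theorem fam {s : ℕ} (f : Fin s → MvPolynomial (Fin n) k) (dg : Fin s → ℕ)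
    (hf : ∀ r, (f r).IsHomogeneous (dg r)) {a : Fin s → k} (ha : a ≠ 0) : ∃ r₀, a r₀ ≠ 0 ∧
      (∀ j, j < dg r₀ → homogeneousComponent j (Fintype.linearCombination k f a) = 0) ∧
      homogeneousComponent (dg r₀) (Fintype.linearCombination k f a) =
        ∑ r with dg r = dg r₀, a r • f r := by
  classical
  obtain ⟨r₀, h1, h2⟩ := exists_min_image (univ.filter fun r => a r ≠ 0) dg
    ((Function.ne_iff.1 ha).imp fun r h => by simpa using h)
  have h3 : ∀ j, homogeneousComponent j (Fintype.linearCombination k f a) =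
      ∑ r with dg r = j, a r • f r := fun j => by
    rw [Fintype.linearCombination_apply, map_sum, sum_filter]
    refine sum_congr rfl fun r _ => ?_
    rw [map_smul, homogeneousComponent_of_mem (hf r), smul_ite, smul_zero]
    exact if_congr eq_comm rfl rfl
  refine ⟨r₀, (mem_filter.1 h1).2, fun j hj => (h3 j).trans (sum_eq_zero fun r hr => ?_), h3 _⟩
  by_cases h : a r = 0
  · rw [h, zero_smul]
  · exact absurd ((mem_filter.1 hr).2 ▸ h2 r (by simpa using h)) hj.not_ge

/-- The winning condition. -/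
def Out (b : Fin (m + 1) → ℕ) (Φ : (Fin (m + 1) → k) → Prop)
    (g : Fin (m + 1) → MvPolynomial (Fin (m + 1)) k) : Prop :=
  ∃ t, Prof b t ∧ (∀ i j, j < t i → homogeneousComponent j (g i) = 0) ∧
    ∀ x : Fin (m + 1) → k, x ≠ 0 →
      (∀ i : Fin m, eval x (homogeneousComponent (t i.castSucc) (g i.castSucc)) = 0) →
      x 0 ≠ 0 ∧ Φ x ∧ eval x (homogeneousComponent (t (Fin.last m)) (g (Fin.last m))) ≠ 0 ∧
        eval x (Matrix.of fun i j => pderiv j (homogeneousComponent (t i) (g i))).det ≠ 0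

/-- The graph of a linear form. -/
def ins (j : Fin (n + 1)) (l : (Fin n → k) →ₗ[k] k) : (Fin n → k) →ₗ[k] (Fin (n + 1) → k) :=
  LinearMap.pi (Fin.insertNth j l LinearMap.proj)

theorem ins_apply (j : Fin (n + 1)) (l : (Fin n → k) →ₗ[k] k) (v : Fin (n + 1) → k) :
    ins j l (j.removeNth v) = Function.update v j (l (j.removeNth v)) := by
  rw [← Fin.insertNth_removeNth]
  funext i
  induction i using Fin.succAboveCases j <;> simp [ins]

theorem cut {b : Fin (m + 2) → ℕ} {Φ : (Fin (m + 2) → k) → Prop} {g₀ : MvPolynomial (Fin (m + 2)) k}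
    {t₀ : ℕ} (h0 : 0 < t₀) (h1 : t₀ ≤ b 0 - m + 1)
    (h2 : ∀ j, j < t₀ → homogeneousComponent j g₀ = 0) (j : Fin (m + 1))
    {Λ : Set ((Fin (m + 1) → k) →ₗ[k] k)}
    (ha : ∀ v, eval v (homogeneousComponent t₀ g₀) = 0 → ∃ l ∈ Λ, l (j.succ.removeNth v) = v j.succ)
    (hb : ∀ v, v 0 ≠ 0 → eval v (homogeneousComponent t₀ g₀) = 0 →
      eval v (pderiv j.succ (homogeneousComponent t₀ g₀)) ≠ 0)
    {g : Fin (m + 1) → MvPolynomial (Fin (m + 1)) k}
    (hg : Out (Fin.tail b) (fun v => ∀ ι ∈ ins j.succ '' Λ, Φ (ι v)) g) :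
    Out b Φ (Fin.cons g₀ fun i => rename j.succ.succAbove (g i)) := by
  obtain ⟨t, a1, a2, a3⟩ := hg
  refine ⟨Fin.cons t₀ t, fun i => ?_, fun i => ?_, fun x hx H => ?_⟩
  · refine Fin.cases ⟨h0, h1⟩ (fun i => ⟨(a1 i).1, (a1 i).2.trans_eq ?_⟩) i
    rw [Fin.val_succ, show m + 1 - 1 - (i + 1) = m - 1 - i by omega]
    rfl
  · refine Fin.cases h2 (fun i l hl => ?_) i
    rw [Fin.cons_succ, ← rename_homogeneousComponent, a2 i l hl, map_zero]
  obtain ⟨l, hl, e⟩ := ha x (H 0)
  have e1 : ins j.succ l (j.succ.removeNth x) = x := by rw [ins_apply, e, Function.update_eq_self]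
  obtain ⟨b1, b2, b3, b4⟩ := a3 (j.succ.removeNth x)
    (fun h => hx (by rw [← e1, h, map_zero])) fun i => by
      have := H i.succ
      rwa [← Fin.succ_castSucc, Fin.cons_succ, Fin.cons_succ, ← rename_homogeneousComponent,
        eval_rename] at this
  have b0 : x 0 ≠ 0 := by simpa [Fin.removeNth] using b1
  refine ⟨b0, e1 ▸ b2 _ ⟨l, hl, rfl⟩, ?_, ?_⟩
  · rwa [← Fin.succ_last, Fin.cons_succ, Fin.cons_succ, ← rename_homogeneousComponent, eval_rename]
  rw [Matrix.det_succ_column _ j.succ, Fin.sum_univ_succ, sum_eq_zero fun i _ => ?_, add_zero,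
    map_mul, map_mul]
  · refine mul_ne_zero (mul_ne_zero (by simp) (hb x b0 (H 0))) ?_
    have e2 : (Matrix.of fun (i j' : Fin (m + 2)) => pderiv j' (homogeneousComponent
        ((Fin.cons t₀ t : Fin (m + 2) → ℕ) i) ((Fin.cons g₀ fun i : Fin (m + 1) =>
          rename j.succ.succAbove (g i) :
            Fin (m + 2) → MvPolynomial (Fin (m + 2)) k) i))).submatrix
          (Fin.succAbove 0) j.succ.succAbove = (rename (R := k) j.succ.succAbove).mapMatrix
        (Matrix.of fun i j => pderiv j (homogeneousComponent (t i) (g i))) := by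
      refine Matrix.ext fun i l => ?_
      simp only [Matrix.submatrix_apply, Matrix.of_apply, Fin.zero_succAbove, Fin.cons_succ,
        AlgHom.mapMatrix_apply, Matrix.map_apply, ← rename_homogeneousComponent]
      exact pderiv_rename Fin.succAbove_right_injective _ _
    rwa [e2, ← AlgHom.map_det, eval_rename]
  · rw [Matrix.of_apply, Fin.cons_succ, Fin.cons_succ, ← rename_homogeneousComponent,
      pderiv_eq_zero_of_notMem_vars fun h => ?_, mul_zero, zero_mul]
    obtain ⟨l, -, h⟩ := mem_vars_rename _ _ h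
    exact Fin.succAbove_ne _ _ h

theorem main [IsAlgClosed k] (hD : Big k D) (m : ℕ) : ∀ (Φ : (Fin (m + 1) → k) → Prop)
    (p : Fin (m + 1) → k) (b : Fin (m + 1) → ℕ), Nice Φ → p 0 = 1 → Φ p → (∀ i, b i + 1 ≤ D) →
    Win (PD k (m + 1) D) (m + 1) b (Out b Φ) := by
  classical
  induction m with
  | zero =>
    intro Φ p b hΦ hp hp' hb
    have hf : ∀ r : Fin (b 0 + 1),
        (X 0 ^ (r + 1 : ℕ) : MvPolynomial (Fin 1) k).IsHomogeneous (r + 1) := fun r =>
      isHomogeneous_X_pow _ _
    refine ⟨Fintype.linearCombination k fun r : Fin (b 0 + 1) => X 0 ^ (r + 1 : ℕ), fun a =>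
      sum_mem fun r _ => Submodule.smul_mem _ _
        (mem_PD (hf r) r.1.succ_pos (r.2.trans_le (hb 0))), fun a ha => ?_⟩
    obtain ⟨r, h1, h2, h3⟩ := fam _ _ hf ha
    rw [sum_eq_single_of_mem r (by simp) fun l hl h =>
      absurd (Fin.ext (Nat.succ_injective (mem_filter.1 hl).2)) h] at h3
    refine ⟨fun _ => r + 1, Fin.forall_fin_one.2 ⟨r.1.succ_pos, r.2⟩, Fin.forall_fin_one.2 h2,
      fun x hx _ => ?_⟩
    have h4 : x 0 ≠ 0 := fun h => hx (funext (Fin.forall_fin_one.2 h))
    refine ⟨h4, ?_, ?_, ?_⟩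
    · have e : x = x 0 • p := funext (Fin.forall_fin_one.2 (by simp [hp]))
      exact e ▸ hΦ.cone p _ h4 hp'
    · exact (congrArg (eval x) h3).trans_ne (by simp [h1, h4])
    · rw [Matrix.det_fin_one]
      have h5 := hD _ r.1.succ_pos (r.2.trans_le (hb 0))
      refine (congrArg (fun q => eval x (pderiv 0 q)) h3).trans_ne ?_
      simpa [h1, h4] using h5
  | succ m ih =>
    intro Φ p b hΦ hp hp' hb
    let σ : ℕ → Fin (m + 1) := fun r => ⟨min r m, by omega⟩
    have hc : ∀ r : ℕ, ∃ c : k, (r ≤ m → c = 0) ∧ (m < r → c ≠ 0 ∧ ∀ η : k, η ^ (r - m + 1) = c →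
        Φ (p + η • Pi.single (σ r).succ 1)) := fun r => by
      rcases le_or_gt r m with h | h
      · exact ⟨0, fun _ => rfl, fun h' => absurd h h'.not_ge⟩
      obtain ⟨c, hc⟩ := (((hΦ.line p (Pi.single (σ r).succ 1) hp').image
        (· ^ (r - m + 1))).insert 0).exists_notMem
      exact ⟨c, fun h' => absurd h h'.not_gt, fun _ => ⟨fun e => hc (Or.inl e),
        fun η e => not_not.1 fun h' => hc (Or.inr ⟨η, h', e⟩)⟩⟩
    choose c hc1 hc2 using hc
    let f : Fin (b 0 + 1) → MvPolynomial (Fin (m + 2)) k := fun r =>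
      (X (σ r).succ - C (p (σ r).succ) * X 0) ^ (r - m + 1) - C (c r) * X 0 ^ (r - m + 1)
    have hf : ∀ r, (f r).IsHomogeneous (r - m + 1) := fun r => by
      refine IsHomogeneous.sub ?_ ((isHomogeneous_X_pow _ _).C_mul _)
      simpa using ((isHomogeneous_X k _).sub ((isHomogeneous_X k 0).C_mul _)).pow (r - m + 1)
    have hd : ∀ r : Fin (b 0 + 1), r - m + 1 ≤ D := fun r => by
      have := r.2
      have := hb 0
      omega
    refine ⟨Fintype.linearCombination k f, fun a => sum_mem fun r _ => Submodule.smul_mem _ _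
      (mem_PD (hf r) (Nat.succ_pos _) (hd r)), fun a ha => ?_⟩
    obtain ⟨r, h1, h2, h3⟩ := fam _ _ hf ha
    set S := univ.filter fun l : Fin (b 0 + 1) => l.1 - m + 1 = r.1 - m + 1
    have hS : ∀ l, l ∈ S ↔ l.1 - m = r.1 - m := fun l => by simp [S]
    suffices ∃ Λ : Set ((Fin (m + 1) → k) →ₗ[k] k), Λ.Finite ∧
        (∀ v, eval v (∑ l ∈ S, a l • f l) = 0 →
          ∃ l ∈ Λ, l ((σ r).succ.removeNth v) = v (σ r).succ) ∧
        (∀ v, v 0 ≠ 0 → eval v (∑ l ∈ S, a l • f l) = 0 →
          eval v (pderiv (σ r).succ (∑ l ∈ S, a l • f l)) ≠ 0) ∧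
        ∀ l ∈ Λ, Φ (Function.update p (σ r).succ (l ((σ r).succ.removeNth p))) by
      obtain ⟨Λ, a1, a2, a3, a4⟩ := this
      rw [← h3] at a2 a3
      refine (win_map (rename (σ r).succ.succAbove).toLinearMap (fun x hx => ?_)
        (ih _ ((σ r).succ.removeNth p) (Fin.tail b) (hΦ.comap (a1.image (ins (σ r).succ)))
          (by simpa [Fin.removeNth] using hp) ?_ fun i => hb _)).mono le_rfl ?_
      · exact ⟨(mem_restrictTotalDegree _ _ _).2 ((totalDegree_rename_le _ _).trans
          ((mem_restrictTotalDegree _ _ _).1 hx.1)), (constantCoeff_rename _ x).trans hx.2⟩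
      · rintro _ ⟨l, hl, rfl⟩
        rw [ins_apply]
        exact a4 l hl
      · rintro _ - ⟨g, hg, rfl⟩
        exact cut (Nat.succ_pos _) (by have := r.2; omega) h2 (σ r) a2 a3 hg
    rcases le_or_gt (r : ℕ) m with h | h
    · let w : Fin (m + 2) → k := ∑ l ∈ S,
        a l • (Pi.single (σ l).succ 1 - p (σ l).succ • Pi.single 0 1)
      have hl : ∀ l ∈ S, (l : ℕ) ≤ m := fun l hl => by
        have := (hS l).1 hl
        omega
      have e1 : ∑ l ∈ S, a l • f l =
          Fintype.linearCombination k X w := by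
        rw [map_sum]
        refine sum_congr rfl fun l h' => ?_
        simp [f, hc1 l (hl l h'), Nat.sub_eq_zero_of_le (hl l h'), smul_eq_C_mul]
      have e2 : w (σ r).succ = a r := by
        rw [show w _ = _ from Finset.sum_apply _ _ _,
          sum_eq_single_of_mem r ((hS r).2 rfl) fun l h' h'' => ?_]
        · simp
        · have : σ r ≠ σ l := fun e => h'' (Fin.ext (by
            have := congrArg Fin.val e
            have := hl l h'
            simp only [σ] at *
            omega))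
          simp [this]
      have e3 : ∀ v : Fin (m + 2) → k, eval v (Fintype.linearCombination k X w) = 0 →
          (-(a r)⁻¹ • Fintype.linearCombination k ((σ r).succ.removeNth w))
            ((σ r).succ.removeNth v) = v (σ r).succ := fun v hv => by
        simp only [Fintype.linearCombination_apply, map_sum, smul_eval, eval_X] at hv
        rw [Fin.sum_univ_succAbove _ (σ r).succ, e2, add_eq_zero_iff_neg_eq] at hv
        simp only [LinearMap.smul_apply, Fintype.linearCombination_apply, Fin.removeNth,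
          smul_eq_mul, mul_comm (v _), ← hv]
        field_simp
      refine ⟨{_}, Set.finite_singleton _, fun v hv => ⟨_, rfl, e3 v (e1 ▸ hv)⟩, fun v _ _ => ?_,
        ?_⟩
      · rw [e1]
        simpa [Fintype.linearCombination_apply, Pi.single_apply, e2] using h1
      · rintro _ rfl
        rwa [e3 p, Function.update_eq_self]
        rw [← e1, map_sum]
        refine sum_eq_zero fun l h' => ?_
        simp [f, hc1 l (hl l h'), hp]
    · rw [sum_eq_single_of_mem r ((hS r).2 rfl) fun l hl h' => absurd (Fin.ext (by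
        have := (hS l).1 hl
        omega)) h']
      have e1 : ∀ v : Fin (m + 2) → k, eval v (a r • f r) = 0 →
          (v (σ r).succ - p (σ r).succ * v 0) ^ (r - m + 1) = c r * v 0 ^ (r - m + 1) :=
        fun v hv => by simpa [f, h1, sub_eq_zero] using hv
      refine ⟨(fun η => (p (σ r).succ + η) • LinearMap.proj 0) '' {η | η ^ (r - m + 1) = c r},
        ((Polynomial.nthRoots (r - m + 1) (c r)).finite_toSet.subset fun η hη =>
          (Polynomial.mem_nthRoots (Nat.succ_pos _)).2 hη).image _, fun v hv => ?_,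
        fun v hv hv' => ?_, ?_⟩
      · have e2 := e1 v hv
        obtain ⟨η, e3, e4⟩ : ∃ η : k, η ^ (r - m + 1) = c r ∧
            η * v 0 = v (σ r).succ - p (σ r).succ * v 0 := by
          by_cases h0 : v 0 = 0
          · obtain ⟨η, e3⟩ := IsAlgClosed.exists_pow_nat_eq (c r) (Nat.succ_pos (r - m))
            rw [h0, zero_pow (Nat.succ_ne_zero _), mul_zero (c r)] at e2
            exact ⟨η, e3, by rw [h0, mul_zero η, pow_eq_zero_iff (Nat.succ_ne_zero _) |>.1 e2]⟩
          · exact ⟨_ / v 0, by rw [div_pow, e2, mul_div_cancel_right₀ _ (pow_ne_zero _ h0)],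
              div_mul_cancel₀ _ h0⟩
        exact ⟨_, ⟨η, e3, rfl⟩, by simp [Fin.removeNth, add_mul, e4]⟩
      · have e2 := e1 v hv'
        have e3 : v (σ r).succ - p (σ r).succ * v 0 ≠ 0 := fun e => by
          rw [e, zero_pow (Nat.succ_ne_zero _)] at e2
          exact mul_ne_zero (hc2 r h).1 (pow_ne_zero _ hv) e2.symm
        have e4 := hD _ (Nat.succ_pos _) (hd r)
        simpa [f, h1, e3, (Fin.succ_ne_zero _).symm] using e4
      · rintro _ ⟨η, hη, rfl⟩
        have e : Function.update p (σ r).succ (((p (σ r).succ + η) • LinearMap.proj 0 :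
            (Fin (m + 1) → k) →ₗ[k] k) ((σ r).succ.removeNth p)) =
            p + η • Pi.single (σ r).succ 1 := by
          funext i
          by_cases hi : i = (σ r).succ
          · simp [hi, Fin.removeNth, hp]
          · simp [hi]
        exact e ▸ (hc2 r h).2 η hη

end Pg

theorem pgS {k : Type} [Field k] [IsAlgClosed k] {m : ℕ} : PgS k m := by
  intro hk F δ b h0 hF hb
  have hΦ := Pg.nice_eval hF
  obtain ⟨v, hv⟩ : ∃ v, eval v F ≠ 0 := not_forall.1 fun h => h0 (hF.eq_zero_of_forall_eval_eq_zero h)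
  obtain ⟨η, hη⟩ := ((hΦ.line v (Pi.single 0 1) hv).insert (-v 0)).exists_notMem
  have h1 : v 0 + η ≠ 0 := fun e => hη (Or.inl (eq_neg_of_add_eq_zero_right e))
  refine (Pg.main hk m _ _ b hΦ ?_ (hΦ.cone _ _ (inv_ne_zero h1) (not_not.1 fun h => hη (Or.inr h)))
    fun i => ?_).mono le_rfl ?_
  · simp [h1]
  · exact Nat.succ_le_succ ((single_le_sum (fun _ _ => Nat.zero_le _) (mem_univ i)).trans hb)
  · rintro g - ⟨t, a1, a2, a3⟩
    exact ⟨t, a1, a2, fun x hx H => (a3 x hx H).2⟩

end Pool.Agent.R72.Res.SH
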