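import Pool.Agent.MP_19ffc6_ag.Res.SSpec

/-! PROJECT SHARP, module POT: the potential drops by the gain. -/

namespace Pool.Agent.R72.Res.SH

open Pool.Agent.R72.Wild Pool.Agent.R72.Res.PA Pool.Agent.R72.Res.PA.Num Submodule Filter Module
open Pool.Agent.R72.Res.PA.St Pool.Agent.R72.Res.PA.Orb

variable {k K : Type} [Field k] [Field K] [Algebra k K] {m : ℕ}

namespace Pot27

variable {d : Fin (m + 1) → Derivation k K K} {S : Finset K} {V V' : Submodule k K} {w : DV k K}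

theorem wr_rel (u : Fin (m + 3) → K) :
    ∑ i : Fin (m + 3), (-1) ^ (i : ℕ) * u i * Wr d (fun r => u (i.succAbove r)) = 0 := by
  have h := Matrix.det_zero_of_column_eq (M := Matrix.of fun i : Fin (m + 3) =>
    (Fin.cons (u i) (Fin.cons (u i) fun j => d j (u i) : Fin (m + 2) → K) : Fin (m + 3) → K))
    (i := 0) (j := Fin.succ 0) (Fin.succ_ne_zero _).symm fun _ => rfl
  rw [Matrix.det_succ_column_zero] at h
  exact h

theorem newlt (hV : V.FG) (hle : V' ≤ V) (hW : WW d V' ≠ ⊥) (h1 : w ∈ DD d S V')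
    (h2 : ¬ (w ∈ DD d S V ∧ w.ordS V' = w.ordS V)) : w.ordS (WW d V) < w.ordS (WW d V') := by
  by_cases he : w.ordS V' = w.ordS V
  · exact new_lt hV hle hW he h1 fun h => h2 ⟨h, he⟩
  have hV' := fg_of_le hV hle
  have h0 := ne_bot_of_WW hW
  have h3 := lt_of_le_of_ne (le_ordS hV' h0 (hle.trans (le_fil_ordS w hV))) (Ne.symm he)
  obtain ⟨σ, s1, s2, s3⟩ := exists_min w hV fun h => h0 (le_bot_iff.1 (h ▸ hle))
  refine le_ordS (a := w.ordS (WW d V) + 1) (WW_fg hV') hW (WW_le fun v hv => ?_)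
  have h4 := wr_rel (d := d) (Fin.cons σ v)
  rw [Fin.sum_univ_succ, add_eq_zero_iff_eq_neg] at h4
  simp only [Fin.val_zero, pow_zero, one_mul, Fin.cons_zero, Fin.succAbove_zero, Fin.cons_succ]
    at h4
  refine (mul_mem_fil s2).1 (h4 ▸ neg_mem (sum_mem fun i _ => ?_))
  have h5 : v i * Wr d (fun r => (Fin.cons σ v : Fin (m + 3) → K) (i.succ.succAbove r)) ∈
      w.fil (w.ord σ + (w.ordS (WW d V) + 1)) := by
    refine fil_anti (by omega) (DV.mul_fil (le_fil_ordS w hV' (hv i))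
      (le_fil_ordS w (WW_fg hV) (wr_mem fun r => ?_)))
    generalize i.succ.succAbove r = j
    refine Fin.cases ?_ (fun j => ?_) j
    · exact s1
    · exact hle (hv j)
  rw [mul_assoc]
  rcases neg_one_pow_eq_or K (i.succ : ℕ) with e | e <;> rw [e]
  · rwa [one_mul]
  · rw [neg_one_mul]; exact neg_mem h5

theorem df_le {N Q W : Submodule k K} (hN : N.FG) (hV : V.FG) (hW : W ≤ V) (a : ℕ) :
    Df N Q V W a ≤ a * cod (N * V ^ a) (Q ⊔ N * W ^ a) := by
  have hX : (N * V ^ a).FG := hN.mul (hV.pow a)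
  rw [Df, Finset.sum_range_succ']
  have h0 : cod (N * V ^ a) (N * (V ^ (a - 0) * W ^ 0) ⊔ Q) = 0 := by
    have := cod_le_of_le_sup (P := N * V ^ a) (X := ⊥) (Q := N * (V ^ (a - 0) * W ^ 0) ⊔ Q)
      (fd_of_fg fg_bot _) (by simp)
    rw [cod, cod, Submodule.map_bot, finrank_bot] at this
    exact Nat.le_zero.1 this
  rw [h0, add_zero]
  refine (Finset.sum_le_card_nsmul _ _ (cod (N * V ^ a) (Q ⊔ N * W ^ a)) fun j hj => ?_).trans
    (by simp)
  refine (cod_mono le_rfl (fun x _ hx => ?_) (fd_of_fg hX _)).2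
  have hj' : j + 1 ≤ a := Finset.mem_range.1 hj
  have : Q ⊔ N * W ^ a ≤ N * (V ^ (a - (j + 1)) * W ^ (j + 1)) ⊔ Q := by
    rw [sup_comm]
    refine sup_le_sup_right ?_ _
    conv_lhs => rw [← Nat.sub_add_cancel hj', pow_add]
    gcongr
  exact this hx

theorem drop {A : ℕ} {G g : ℝ} (hA : 0 < A) (hV : V.FG) (hle : V' ≤ V) (hW : WW d V' ≠ ⊥)
    (hg : GaS d S A V V' g) (hP : PoS d S A V G) : PoS d S A V' (G - g) := by
  classical
  intro M' hM' D' hD' ε hε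
  have hV' := fg_of_le hV hle
  have h0 := ne_bot_of_WW hW
  have h1 : (1 : Submodule k K).FG := one_eq_span (R := k) (A := K) ▸ fg_span_singleton 1
  let p : DV k K → Prop := fun w => w ∈ DD d S V ∧ w.ordS V' = w.ordS V
  obtain ⟨M₀, f0, g0⟩ := div (WW_fg hV) (WW_mono (d := d) hle) hW (D'.filter fun w => ¬ p w)
    fun w hw => newlt hV hle hW (hD' (Finset.mem_filter.1 hw).1) (Finset.mem_filter.1 hw).2
  obtain ⟨E, e1, e2, e3⟩ := hg
  have hM1 := (hM'.sup f0).sup h1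
  obtain ⟨s, s1, s2⟩ := e3 _ hM1 (mem_sup_right (one_le.1 le_rfl))
  have hM := e1.mul hM1
  have hl : M' ⊔ M₀ ⊔ 1 ≤ E * (M' ⊔ M₀ ⊔ 1) :=
    (one_mul _).ge.trans (mul_le_mul_left (one_le.2 e2) _)
  generalize E * (M' ⊔ M₀ ⊔ 1) = MM at s2 hM hl
  obtain ⟨c, hc⟩ := g0 MM hM ((le_sup_right.trans le_sup_left).trans hl)
  have hD : ↑(D'.filter p ∪ s) ⊆ DD d S V := fun w hw => by
    rcases Finset.mem_union.1 hw with h | h
    exacts [(Finset.mem_filter.1 h).2.1, s1 h]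
  obtain ⟨N, hN⟩ := exists_nat_ge (c * (G + ε / 2) / (ε / 2))
  filter_upwards [s2, hP MM hM _ hD (ε / 2) (half_pos hε), eventually_gt_atTop (c + N)]
    with L a1 a2 a3
  have a4 := hc _ (hV'.pow (A * L)) L
  have hN0 : (MM * WW d V ^ L).FG := hM.mul ((WW_fg hV).pow L)
  have a5 : finrank k (M' * WW d V' ^ L * V' ^ (A * L) :) ≤
      finrank k (MM * (V' ^ (A * L) * WW d V' ^ L) :) :=
    finrank_le (hM.mul ((hV'.pow _).mul ((WW_fg hV').pow _))) (by
      rw [mul_assoc, mul_comm (WW d V' ^ L)]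
      exact mul_le_mul_left ((le_sup_left.trans le_sup_left).trans hl) _)
  have a6 := finrank_inf_add (hN0.mul (hV.pow (A * L))) (⊥ ⊔ MM * WW d V ^ L * V' ^ (A * L))
  rw [inf_eq_right.2 (by rw [bot_sup_eq]; gcongr), bot_sup_eq, mul_assoc MM _ (V' ^ (A * L)),
    mul_comm (WW d V ^ L) (V' ^ (A * L))] at a6
  have a7 := df_le (Q := ⊥) hN0 hV hle (A * L)
  rw [bot_sup_eq, mul_assoc MM _ (V' ^ (A * L)), mul_comm (WW d V ^ L) (V' ^ (A * L))] at a7
  let δ : DV k K → ℕ := fun w =>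
    cod (V ^ (A * L)) (w.fil (w.ordS (V ^ (A * L)) + 1) ⊔ V' ^ (A * L))
  let y : DV k K → ℕ := fun w => cod (V' ^ (A * L)) (w.fil (w.ordS (V ^ (A * L)) + 1))
  have a8 : ∑ w ∈ s, Df 1 (w.fil (w.ordS (V ^ (A * L)) + 1)) V V' (A * L) ≤
      A * L * ∑ w ∈ s, δ w := by
    rw [Finset.mul_sum]
    exact Finset.sum_le_sum fun w _ => by simpa only [one_mul] using df_le h1 hV hle (A * L)
  have a9 : ∑ w ∈ s, δ w + ∑ w ∈ D'.filter p, w.lead (V' ^ (A * L)) ≤
      ∑ w ∈ D'.filter p ∪ s, w.lead (V ^ (A * L)) := by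
    have b1 : ∑ w ∈ D'.filter p ∪ s, w.lead (V ^ (A * L)) =
        ∑ w ∈ D'.filter p ∪ s, δ w + ∑ w ∈ D'.filter p ∪ s, y w := by
      rw [← Finset.sum_add_distrib]
      exact Finset.sum_congr rfl fun w _ =>
        (cod_add (by gcongr) (fd_of_fg (hV.pow _) _)).symm
    rw [b1]
    refine add_le_add (Finset.sum_le_sum_of_subset Finset.subset_union_right)
      (le_trans (le_of_eq (Finset.sum_congr rfl fun w hw => ?_))
        (Finset.sum_le_sum_of_subset Finset.subset_union_left))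
    rw [DV.lead, ordS_pow hV' h0, (Finset.mem_filter.1 hw).2.2,
      ← ordS_pow hV fun h => h0 (le_bot_iff.1 (h ▸ hle))]
  have a10 := Nat.mul_le_mul_left L a9
  have a11 := Nat.mul_le_mul_left L a8
  generalize hz : cod (MM * WW d V ^ L * V ^ (A * L)) (MM * (V' ^ (A * L) * WW d V ^ L)) = z
    at a6 a7
  have a12 : DT d A V V' MM s L ≤ A * L * (z + L * ∑ w ∈ s, δ w) := by
    rw [DT, mul_add, mul_left_comm (A * L) L]
    exact add_le_add a7 a11
  have hL0 : (0 : ℝ) < L := by exact_mod_cast (show 0 < L by omega)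
  have hA0 : (0 : ℝ) < A := by exact_mod_cast hA
  have a13 : g * (L : ℝ) ^ (m + 1) ≤ (z + L * ∑ w ∈ s, δ w : ℕ) := by
    have b := a1.trans ((Nat.cast_le (α := ℝ)).2 a12)
    rw [Nat.cast_mul, Nat.cast_mul] at b
    refine le_of_mul_le_mul_left (le_trans (le_of_eq ?_) b) (mul_pos hA0 hL0)
    ring
  obtain ⟨l, rfl⟩ := Nat.exists_eq_add_of_le (show c ≤ L by omega)
  rw [Nat.add_sub_cancel_left] at a4
  have a14 : ∑ w ∈ D'.filter p, w.lead (V' ^ (A * (c + l))) +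
      ∑ w ∈ D'.filter (fun w => ¬ p w), w.lead (V' ^ (A * (c + l))) =
      ∑ w ∈ D', w.lead (V' ^ (A * (c + l))) := Finset.sum_filter_add_sum_filter_not D' p _
  generalize hx : ∑ w ∈ D'.filter (fun w => ¬ p w), w.lead (V' ^ (A * (c + l))) = x at a4 a14
  have a15 : Ph d A V' M' D' (c + l) + (z + (c + l) * ∑ w ∈ s, δ w) ≤
      Ph d A V MM (D'.filter p ∪ s) (c + l) + c * x := by
    rw [mul_add (c + l)] at a10
    rw [Ph, Ph, ← a14, mul_add (c + l), add_mul c l x]; omega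
  have a16 : l * x ≤ Ph d A V MM (D'.filter p ∪ s) (c + l) := by rw [Ph]; omega
  generalize z + (c + l) * ∑ w ∈ s, δ w = Δ at a13 a15
  have b7 : (Ph d A V' M' D' (c + l) : ℝ) + Δ ≤
      Ph d A V MM (D'.filter p ∪ s) (c + l) + c * x := by exact_mod_cast a15
  have b8 : (l : ℝ) * x ≤ Ph d A V MM (D'.filter p ∪ s) (c + l) := by exact_mod_cast a16
  have b1 : (N : ℝ) < l := by exact_mod_cast (show N < l by omega)
  have b2 : (0 : ℝ) < l := (Nat.cast_nonneg N).trans_lt b1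
  have b3 : c * (G + ε / 2) ≤ ε / 2 * l := by
    rw [div_le_iff₀ (half_pos hε)] at hN
    nlinarith
  have b4 : (0 : ℝ) ≤ ((c + l : ℕ) : ℝ) ^ (m + 1) := by positivity
  generalize ((c + l : ℕ) : ℝ) ^ (m + 1) = Y at *
  have b5 : (c : ℝ) * x ≤ ε / 2 * Y := by
    refine le_of_mul_le_mul_left ?_ b2
    have b6 := mul_le_mul_of_nonneg_left (b8.trans a2) (Nat.cast_nonneg (α := ℝ) c)
    have b9 := mul_le_mul_of_nonneg_right b3 b4
    nlinarith
  nlinarith

theorem nonneg {A : ℕ} {G : ℝ} (h : PoS d S A V G) : 0 ≤ G := by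
  refine le_of_forall_pos_le_add fun ε hε => ?_
  obtain ⟨L, h1, h2⟩ := ((h ⊥ fg_bot ∅ (by simp) ε hε).and (eventually_gt_atTop 0)).exists
  have h3 : (0 : ℝ) < (L : ℝ) ^ (m + 1) := by positivity
  have h4 : 0 ≤ G + ε := nonneg_of_mul_nonneg_left ((Nat.cast_nonneg _).trans h1) h3
  linarith

theorem fin {A : ℕ} {G : ℝ} (hA : 0 < A) (hV : V.FG) (hP : PoS d S A V G) :
    (DD d S V).Finite := by
  by_contra hc
  obtain ⟨N, hN⟩ := exists_nat_gt ((G + 1) * (m + 1) ^ m)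
  obtain ⟨D, h1, h2⟩ := Set.Infinite.exists_subset_card_eq hc N
  obtain ⟨L, hL⟩ := eventually_atTop.1 (hP ⊥ fg_bot D h1 1 one_pos)
  have h3 := hL ((m + 1) * (L + 1)) (by nlinarith)
  have h4 : (m + 1) * (L + 1) * (N * (L + 1) ^ m) ≤ Ph d A V ⊥ D ((m + 1) * (L + 1)) := by
    refine le_trans (Nat.mul_le_mul_left _ ?_) (Nat.le_add_left _ _)
    rw [← h2, ← smul_eq_mul, mul_left_comm]
    exact Finset.card_nsmul_le_sum _ _ _ fun w hw =>
      (Nat.pow_le_pow_left (Nat.le_mul_of_pos_left _ hA) _).trans (le_lead hV (h1 hw).1 _)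
  have h5 : ((m : ℝ) + 1) * (L + 1) * (N * (L + 1) ^ m) ≤ Ph d A V ⊥ D ((m + 1) * (L + 1)) := by
    exact_mod_cast h4
  have h6 : (0 : ℝ) < (m + 1) * (L + 1) * (L + 1) ^ m := by positivity
  have h7 := mul_lt_mul_of_pos_left hN h6
  push_cast at h3
  rw [pow_succ, mul_pow] at h3
  nlinarith

end Pot27

theorem potS : PotS k K m :=
  ⟨fun _ _ _ _ _ _ _ a b c d e f => Pot27.drop a b c d e f, fun _ _ _ _ _ h => Pot27.nonneg h,
    fun _ _ _ _ _ a b c => Pot27.fin a b c⟩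

end Pool.Agent.R72.Res.SH
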