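import Pool.Agent.MP_19ffc6_ag.Res.SSpec
import Pool.Agent.Lib.helper72.RM.M14

/-! PROJECT SHARP, module SMO: off a hypersurface the image is smooth. -/

namespace Pool.Agent.R72.Res.SH

open Pool.Agent.R72.Wild Pool.Agent.R72.Res.PA Pool.Agent.R72.Res.PA.Num
  Pool.Agent.R72.Res.PA.LocK Submodule Filter Module

variable {k K : Type} [Field k] [Field K] [Algebra k K] {m : ℕ}

namespace Smo

open Polynomial

/-- Stars and bars. -/
theorem finrank_pow_le {ι : Type} [Fintype ι] (v : ι → K) (L : ℕ) :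
    finrank k (span k (Set.range v) ^ L :) ≤ (Fintype.card ι + L - 1).choose L := by
  classical
  have h : ∀ L : ℕ, span k (Set.range v) ^ L ≤
      span k (Set.range fun σ : Sym ι L => (σ.1.map v).prod) := fun L => by
    induction L with
    | zero =>
      rw [pow_zero, Submodule.one_le]
      exact subset_span ⟨Sym.nil, by simp⟩
    | succ L ih =>
      rw [pow_succ']
      refine (mul_le_mul_right ih _).trans ?_
      rw [span_mul_span]
      refine span_mono ?_
      rintro _ ⟨_, ⟨i, rfl⟩, _, ⟨σ, rfl⟩, rfl⟩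
      exact ⟨Sym.cons i σ, (congrArg Multiset.prod (Multiset.map_cons v i σ.1)).trans
        (Multiset.prod_cons _ _)⟩
  rw [← Sym.card_sym_eq_choose]
  exact (St.finrank_le (fg_span (Set.finite_range _)) (h L)).trans (finrank_range_le_card _)

open scoped IntermediateField.algebraAdjoinAdjoin in
/-- A separable equation with polynomial coefficients. -/
theorem exists_eq (S : Set K) [Algebra.IsSeparable (IntermediateField.adjoin k S) K] (u : K) :
    ∃ f : (Algebra.adjoin k S)[X], aeval u f = 0 ∧ aeval u (derivative f) ≠ 0 := by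
  have h4 := (Algebra.IsSeparable.isSeparable (IntermediateField.adjoin k S)
    u).aeval_derivative_ne_zero (minpoly.aeval _ u)
  obtain ⟨b, hb, e⟩ := IsLocalization.integerNormalization_spec
    (nonZeroDivisors (Algebra.adjoin k S)) (minpoly (IntermediateField.adjoin k S) u)
  refine ⟨_, IsLocalization.integerNormalization_aeval_eq_zero
    (nonZeroDivisors (Algebra.adjoin k S)) _ (minpoly.aeval (IntermediateField.adjoin k S) u), ?_⟩
  rw [← aeval_map_algebraMap (IntermediateField.adjoin k S), ← derivative_map, e,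
    ← IsScalarTower.algebraMap_smul (IntermediateField.adjoin k S) b, derivative_smul, map_smul]
  refine smul_ne_zero (fun h => nonZeroDivisors.ne_zero hb ?_) h4
  exact IsFractionRing.injective (Algebra.adjoin k S) (IntermediateField.adjoin k S)
    (h.trans (map_zero _).symm)

variable {T S : Submodule k K}

theorem nn_mul {x y : K} (hx : x ∈ nn T) (hy : y ∈ nn T) : x * y ∈ T ^ 2 * alg T := by
  have : nn T * nn T ≤ T ^ 2 * alg T := by
    rw [nn, mul_mul_mul_comm, ← pow_two]
    exact mul_le_mul_right (md_alg T) _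
  exact this (mul_mem_mul hx hy)

theorem le_nn (T : Submodule k K) : T ≤ nn T := fun x hx => by
  simpa [nn] using mul_mem_mul hx (one_mem_alg T)

theorem cst_mem (Q : Submodule k K) (c : k) : algebraMap k K c ∈ 1 ⊔ S ⊔ Q :=
  mem_sup_left (mem_sup_left (algebraMap_mem c))

/-- Polynomials in elements that are linear to first order are linear to first order. -/
theorem adj_mem {G : Set K} (h1 : ∀ x ∈ G, x ∈ alg T) (h2 : ∀ x ∈ G, x ∈ 1 ⊔ S ⊔ T ^ 2 * alg T)
    {x : K} (hx : x ∈ Algebra.adjoin k G) : x ∈ 1 ⊔ S ⊔ T ^ 2 * alg T := by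
  have hA : Algebra.adjoin k G ≤ Algebra.adjoin k (T : Set K) := Algebra.adjoin_le h1
  induction hx using Algebra.adjoin_induction with
  | mem x hx => exact h2 x hx
  | algebraMap c => exact cst_mem _ c
  | add x y _ _ a b => exact add_mem a b
  | mul x y hx hy a b =>
    obtain ⟨c, hc⟩ := LocB.exists_val (T := T) (hA hx)
    obtain ⟨c', hc'⟩ := LocB.exists_val (T := T) (hA hy)
    have e : x * y = (x - algebraMap k K c) * (y - algebraMap k K c') + c' • x + c • y -
        algebraMap k K (c * c') := by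
      rw [map_mul, Algebra.smul_def, Algebra.smul_def]; ring
    rw [e]
    exact sub_mem (add_mem (add_mem (mem_sup_right (nn_mul hc hc')) (smul_mem _ _ a))
      (smul_mem _ _ b)) (cst_mem _ _)

theorem aev_mem {G : Set K} (h1 : ∀ x ∈ G, x ∈ alg T) {u : K} (hu : u ∈ alg T)
    (f : (Algebra.adjoin k G)[X]) : aeval u f ∈ alg T := by
  have hA : Algebra.adjoin k G ≤ Algebra.adjoin k (T : Set K) := Algebra.adjoin_le h1
  induction f using Polynomial.induction_on' with
  | add p q hp hq => rw [map_add]; exact add_mem hp hq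
  | monomial n c =>
    rw [aeval_monomial]
    exact (Algebra.adjoin k (T : Set K)).mul_mem (hA c.2)
      ((Algebra.adjoin k (T : Set K)).pow_mem hu _)

/-- The expansion to first order. -/
theorem taylor {G : Set K} (h1 : ∀ x ∈ G, x ∈ alg T) (h2 : ∀ x ∈ G, x ∈ 1 ⊔ S ⊔ T ^ 2 * alg T)
    {u : K} (hu : u ∈ alg T) (f : (Algebra.adjoin k G)[X]) :
    ∃ γ : k, aeval u (derivative f) - algebraMap k K γ ∈ nn T ∧
      aeval u f - γ • u ∈ 1 ⊔ S ⊔ T ^ 2 * alg T := by
  induction f using Polynomial.induction_on with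
  | C a => exact ⟨0, by simp, by simpa using adj_mem h1 h2 a.2⟩
  | add p q hp hq =>
    obtain ⟨a, a1, a2⟩ := hp
    obtain ⟨b, b1, b2⟩ := hq
    refine ⟨a + b, ?_, ?_⟩
    · rw [map_add, map_add, map_add, add_sub_add_comm]; exact add_mem a1 b1
    · rw [map_add, add_smul, add_sub_add_comm]; exact add_mem a2 b2
  | monomial n a ih =>
    obtain ⟨γ, a1, a2⟩ := ih
    rw [pow_succ X n, ← mul_assoc]
    generalize C a * X ^ n = p at a1 a2
    obtain ⟨c, hc⟩ := LocB.exists_val hu
    obtain ⟨e, he⟩ := LocB.exists_val (aev_mem h1 hu p)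
    refine ⟨γ * c + e, ?_, ?_⟩
    · have e1 : aeval u (derivative (p * X)) - algebraMap k K (γ * c + e) =
          u * (aeval u (derivative p) - algebraMap k K γ) + γ • (u - algebraMap k K c) +
            (aeval u p - algebraMap k K e) := by
        simp only [derivative_mul, derivative_X, map_add, map_mul, aeval_X, map_one,
          Algebra.smul_def]
        ring
      rw [e1]
      exact add_mem (add_mem ((md_nn T).mem hu a1) (smul_mem _ _ hc)) he
    · have e1 : aeval u (p * X) - (γ * c + e) • u =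
          (aeval u p - algebraMap k K e) * (u - algebraMap k K c) + c • (aeval u p - γ • u) -
            algebraMap k K (e * c) := by
        simp only [map_add, map_mul, aeval_X, Algebra.smul_def]
        ring
      rw [e1]
      exact sub_mem (add_mem (mem_sup_right (nn_mul he hc)) (smul_mem _ _ a2)) (cst_mem _ _)

theorem le_of_one (h1 : (1 : K) ∉ nn T) (hS : S ≤ T) (h : T ≤ 1 ⊔ S ⊔ T ^ 2 * alg T) :
    T ≤ S ⊔ T ^ 2 * alg T := fun x hx => by
  have h2 : S ⊔ T ^ 2 * alg T ≤ nn T := sup_le (hS.trans (le_nn T)) (by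
    simpa [nn] using (md_alg T).anti (show 1 ≤ 2 by norm_num))
  have h3 := h hx
  rw [sup_assoc] at h3
  obtain ⟨a, ha, y, hy, rfl⟩ := mem_sup.1 h3
  obtain ⟨c, rfl⟩ := mem_one.1 ha
  have h4 : algebraMap k K c ∈ nn T := by simpa using sub_mem (le_nn T hx) (h2 hy)
  by_cases hc : c = 0
  · simpa [hc] using hy
  · rw [Algebra.algebraMap_eq_smul_one, smul_mem_iff _ hc] at h4
    exact absurd h4 h1

theorem alg_le_pow (hS : S ≤ T) (h : T ≤ S ⊔ T ^ 2 * alg T) (L : ℕ) :
    alg T ≤ (1 ⊔ S) ^ L ⊔ T ^ (L + 1) * alg T := by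
  have h1 : ∀ L : ℕ, T ^ L * alg T ≤ S ^ L ⊔ T ^ (L + 1) * alg T := fun L => by
    induction L with
    | zero => simpa using alg_le T
    | succ L ih =>
      rw [pow_succ' T L, mul_assoc]
      refine (mul_le_mul_right ih _).trans ?_
      rw [Submodule.mul_sup]
      refine sup_le ((mul_le_mul_left h _).trans ?_) (le_sup_of_le_right (le_of_eq (by ring)))
      rw [Submodule.sup_mul, ← pow_succ']
      refine sup_le_sup_left ((mul_le_mul_right (pow_le_pow_left' hS L) _).trans
        (le_of_eq (by ring))) _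
  induction L with
  | zero => simpa using alg_le T
  | succ L ih =>
    refine ih.trans (sup_le (le_sup_of_le_left ?_) ((h1 _).trans
      (sup_le_sup_right (pow_le_pow_left' le_sup_right _) _)))
    rw [pow_succ]
    simpa using mul_le_mul_right (le_sup_left : (1 : Submodule k K) ≤ 1 ⊔ S) ((1 ⊔ S) ^ L)

theorem cod_alg_le {n : ℕ} {l : Fin n → K} (hl : ∀ i, l i ∈ T)
    (h : T ≤ span k (Set.range l) ⊔ T ^ 2 * alg T) (L : ℕ) :
    cod (alg T) (T ^ L * alg T) ≤ (L + n).choose n := by
  have hS : span k (Set.range l) ≤ T := span_le.2 (Set.range_subset_iff.2 hl)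
  have e : (1 : Submodule k K) ⊔ span k (Set.range l) =
      span k (Set.range (Fin.cons 1 l : Fin (n + 1) → K)) := by
    rw [Fin.range_cons, span_insert, one_eq_span]
  have h1 := alg_le_pow hS h L
  rw [e] at h1
  have hf := (fg_span (R := k) (Set.finite_range (Fin.cons 1 l : Fin (n + 1) → K))).pow L
  have h2 := St.cod_le_of_le_sup (St.fd_of_fg hf _)
    (h1.trans (sup_le_sup_left ((md_alg T).anti (Nat.le_succ L)) _))
  have h3 := St.finrank_inf_add hf (T ^ L * alg T)
  have h4 := finrank_pow_le (k := k) (Fin.cons 1 l : Fin (n + 1) → K) L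
  rw [Fintype.card_fin, show n + 1 + L - 1 = L + n by omega, Nat.choose_symm_add] at h4
  omega

/-- If one element generates `J` to first order, the Hilbert-Samuel function does not grow. -/
theorem lam_anti {J MM : Submodule k K} {W : K} (hT : T.FG) (hJ : J.FG) (hM : MM.FG) (hW : W ∈ J)
    (h : J ≤ pr k W * alg T ⊔ T * (alg T * J)) (b L : ℕ) :
    lam T (Mb T J MM) (b + 1) L ≤ lam T (Mb T J MM) b L := by
  have hF := fam_Mb hT hJ hM
  have h1 : Mb T J MM (b + 1) ≤ pr k W * Mb T J MM b ⊔ T * Mb T J MM (b + 1) := by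
    conv_lhs => rw [hF.succ]
    refine (mul_le_mul_left h _).trans ?_
    rw [Submodule.sup_mul, mul_assoc, mul_assoc, mul_assoc, ← hF.succ]
    exact sup_le_sup (mul_le_mul_right (md_Mb _ _ _ _) _) (mul_le_mul_right (md_Mb _ _ _ _) _)
  have h2 : ∀ L : ℕ, Mb T J MM (b + 1) ≤ pr k W * Mb T J MM b ⊔ T ^ L * Mb T J MM (b + 1) :=
    fun L => by
    induction L with
    | zero => simp
    | succ L ih =>
      refine ih.trans (sup_le le_sup_left ((mul_le_mul_right h1 _).trans ?_))
      rw [Submodule.mul_sup, mul_left_comm, ← mul_assoc (T ^ L), ← pow_succ]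
      exact sup_le_sup_right (mul_le_mul_right (hF.pow_le L b) _) _
  have hm : ∀ x ∈ Mb T J MM b, W * x ∈ Mb T J MM (b + 1) := fun x hx => by
    rw [hF.succ]; exact mul_mem_mul hW hx
  have h3 : pr k W * Mb T J MM b ≤ Mb T J MM (b + 1) := fun y hy => by
    obtain ⟨x, hx, rfl⟩ := mem_pr_mul.1 hy
    exact hm x hx
  have h4 : T ^ L * Mb T J MM b ≤ (T ^ L * Mb T J MM (b + 1)).comap (LinearMap.mulLeft k W) :=
    fun x hx => mul_mem_pow_mul hm hx
  refine (St.cod_le_of_le_sup (hF.fd' h3 le_rfl) (h2 L)).trans ?_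
  rw [cod_pr_mul (Q := (T ^ L * Mb T J MM (b + 1)).comap (LinearMap.mulLeft k W)) W
    (fun _ hx => hx) (fun _ _ hx => hx) (hF.fd' le_rfl h4)]
  exact (cod_mono le_rfl (fun _ _ hx => h4 hx) (hF.fd b L)).2

end Smo

open Smo Polynomial in
/-- Module SMO. -/
theorem smoS [Infinite k] (hc : CalcS) : SmoS k K m := by
  classical
  intro t d U hF hU hJ
  obtain ⟨g, hg, h0⟩ : ∃ g : Fin (m + 1) → K, (∀ i, g i ∈ U) ∧ Jac d g ≠ 0 := by
    by_contra hc
    push Not at hc
    exact hJ (le_bot_iff.1 (JJ_le fun g a => (mem_bot k).2 (hc g a)))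
  obtain ⟨h, h1, h2, h3⟩ := LocB.exists_den hF hU hg h0
  have := (hF.of_jac h0).sep
  choose f f1 f2 using exists_eq (k := k) (Set.range g)
  obtain ⟨Z, hZ⟩ := hU
  have hZU : ∀ u ∈ Z, u ∈ U := fun u hu => hZ ▸ subset_span hu
  have hgU : ∀ x ∈ Set.range g, x ∈ alg U := by
    rintro _ ⟨i, rfl⟩
    exact LocK.le_alg U (hg i)
  have hf : ∀ u ∈ Z, aeval u (derivative (f u)) ∈ alg U := fun u hu =>
    aev_mem hgU (LocK.le_alg U (hZU u hu)) _
  have hp : ∀ s ⊆ Z, ∏ u ∈ s, aeval u (derivative (f u)) ∈ alg U := fun s hs =>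
    (Algebra.adjoin k (U : Set K)).prod_mem fun u hu => hf u (hs hu)
  refine ⟨h * ∏ u ∈ Z, aeval u (derivative (f u)), (md_alg U).mem h1 (hp Z le_rfl),
    mul_ne_zero h2 (Finset.prod_ne_zero_iff.2 fun u _ => f2 u), fun T hT hh => ?_⟩
  have e1 : alg U = alg T := by rw [hT.1, LocB.alg_sup]
  have e2 : JJ d U = JJ d T := by rw [hT.1, sup_comm, JJ_sup_one]
  have hTU : T ≤ U := hT.1 ▸ le_sup_right
  have hTf : T.FG := St.fg_of_le ⟨Z, hZ⟩ hTU
  have hW : Jac d g ∈ JJ d T := e2 ▸ jac_mem hg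
  rw [e1] at h1 hgU hf hp
  rw [e1, e2] at h3
  have hh1 : h ∉ nn T := fun a => hh (mul_comm h _ ▸ (md_nn T).mem (hp Z le_rfl) a)
  have hh2 : ∀ u ∈ Z, aeval u (derivative (f u)) ∉ nn T := fun u hu a => hh (by
    rw [← Finset.prod_erase_mul Z _ hu]
    exact (md_nn T).mem h1 ((md_nn T).mem (hp _ (Finset.erase_subset _ _)) a))
  have hl : ∀ i, ∃ l ∈ T, g i - l ∈ (1 : Submodule k K) := fun i => by
    have := hg i
    rw [hT.1] at this
    obtain ⟨a, ha, y, hy, e⟩ := mem_sup.1 this
    exact ⟨y, hy, by rwa [← e, add_sub_cancel_right]⟩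
  choose l l1 l2 using hl
  have hgN : ∀ x ∈ Set.range g, x ∈ 1 ⊔ span k (Set.range l) ⊔ T ^ 2 * alg T := by
    rintro _ ⟨i, rfl⟩
    rw [← sub_add_cancel (g i) (l i)]
    exact mem_sup_left (add_mem (mem_sup_left (l2 i)) (mem_sup_right (subset_span ⟨i, rfl⟩)))
  have hUN : U ≤ 1 ⊔ span k (Set.range l) ⊔ T ^ 2 * alg T := by
    rw [← hZ, span_le]
    intro u hu
    obtain ⟨γ, a1, a2⟩ := taylor hgU hgN (e1 ▸ LocK.le_alg U (hZU u hu)) (f u)
    have hγ : γ ≠ 0 := fun e => hh2 u hu (by simpa [e] using a1)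
    rwa [f1, zero_sub, neg_mem_iff, smul_mem_iff _ hγ] at a2
  have hx := cod_alg_le l1
    (le_of_one hT.2 (span_le.2 (Set.range_subset_iff.2 l1)) (hTU.trans hUN))
  have hJle : JJ d T ≤ pr k (Jac d g) * alg T ⊔ T * (alg T * JJ d T) := fun x hx => by
    obtain ⟨η, η0, hη⟩ := LocB.exists_val_ne h1 hh1
    have e : η • x = Jac d g * (h * (x / Jac d g)) - (h - algebraMap k K η) * x := by
      rw [Algebra.smul_def]; field_simp; ring
    rw [← smul_mem_iff _ η0, e, ← mul_assoc T]
    exact sub_mem (mem_sup_left (mem_pr_mul.2 ⟨_, h3 x hx, rfl⟩))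
      (mem_sup_right (mul_mem_mul hη hx))
  have h1f : (1 : Submodule k K).FG := by rw [one_eq_span]; exact fg_span_singleton _
  have ha := lam_anti hTf (JJ_fg hTf) h1f hW hJle
  have hb : ∀ b L, lam T (Mb T (JJ d T) 1) b L ≤ (L + (m + 1)).choose (m + 1) := fun b L => by
    induction b with
    | zero => simpa [lam, Mb] using hx L
    | succ b ih => exact (ha b L).trans ih
  obtain ⟨b₁, hb₁⟩ := (fam_Mb hTf (JJ_fg (d := d) hTf) h1f).convex
  filter_upwards [eventually_ge_atTop b₁] with b hb'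
  exact ⟨fun L => (hb₁ b hb' L).1,
    hc.ev_mono (hc.ev_choose (m + 1)) (by simp) (Eventually.of_forall (hb b)),
    hc.ev_mono (hc.ev_zero m) (by simp) (Eventually.of_forall fun L => by
      have := ha b L
      omega)⟩

end Pool.Agent.R72.Res.SH
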