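import Pool.Agent.MP_19ffc6_ag.Res.SSpec

/-! PROJECT SHARP, module START: the first linear system. -/

namespace Pool.Agent.R72.Res.SH

open Pool.Agent.R72.Wild Pool.Agent.R72.Res.PA Pool.Agent.R72.Res.PA.Sta Submodule Filter Module

variable {k K : Type} [Field k] [Field K] [Algebra k K] {m : ℕ}

namespace Start

variable {ι : Type} {t : Fin (m + 1) → K} {η : ι → K} {d : Fin (m + 1) → Derivation k K K}

/-- The powers of an element with nonzero derivative are independent over the constants. -/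
theorem indep (D : Derivation k K K) {x : K} (hx : D x ≠ 0) (r : ℕ) (hr : Big k r) (y : ℕ → K)
    (hy : ∀ j, D (y j) = 0) (h : ∑ j ∈ Finset.range (r + 1), x ^ j * y j = 0) :
    ∀ j ≤ r, y j = 0 := by
  induction r generalizing y with
  | zero => simpa using h
  | succ r ih =>
    have h1 := congrArg D h
    rw [Finset.sum_range_succ'] at h h1
    simp only [map_add, map_sum, Derivation.leibniz, Derivation.leibniz_pow, hy, smul_eq_mul,
      mul_zero, zero_add, pow_zero, map_zero, nsmul_eq_mul, Nat.add_sub_cancel,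
      Derivation.map_one_eq_zero, add_zero] at h1
    have h2 : ∑ j ∈ Finset.range (r + 1), x ^ j * (((j + 1 : ℕ) : K) * y (j + 1)) = 0 := by
      refine mul_right_cancel₀ hx ?_
      rw [zero_mul, ← h1, Finset.sum_mul]
      exact Finset.sum_congr rfl fun j _ => by ring
    have h3 : ∀ j ≤ r, y (j + 1) = 0 := fun j hj => by
      refine (mul_eq_zero.1 (ih (fun a b c => hr a b (by omega)) _ (fun j => ?_) h2 j
        hj)).resolve_left ?_
      · rw [Derivation.leibniz, hy, Derivation.map_natCast, smul_zero, smul_zero, add_zero]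
      · rw [← map_natCast (algebraMap k K)]
        exact (map_ne_zero _).2 (hr _ (Nat.succ_pos j) (by omega))
    rw [Finset.sum_eq_zero fun j hj => by
      rw [h3 j (Nat.lt_succ_iff.1 (Finset.mem_range.1 hj)), mul_zero]] at h
    intro j hj
    cases j with
    | zero => simpa using h
    | succ j => exact h3 j (by omega)

/-- A subspace of a box without Wronskians is small. -/
theorem guard [Fintype ι] (hF : Fr t d)
    (hi : LinearIndependent (IntermediateField.adjoin k (Set.range t)) η) {N r : ℕ} (hr : Big k r)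
    {V : Submodule k K} (hV : V ≤ bx k t η N) (h : WW d V = ⊥) :
    (r + 1) * finrank k V ≤ Fintype.card ι * (N + r + 1) ^ (m + 1) := by
  by_cases h0 : V = ⊥
  · subst h0
    simp
  obtain ⟨σ, s1, s2⟩ := (Submodule.ne_bot_iff V).1 h0
  obtain ⟨c, c0, c1⟩ := exists_der_of_JJ (d := d) (T := V.comap (LinearMap.mulLeft k σ)) (by
    rw [eq_bot_iff]
    intro x hx
    have := pow_mul_mem_WW s1 (fun _ a => a) hx
    rw [h, Submodule.mem_bot] at this
    exact (mul_eq_zero.1 this).resolve_left (pow_ne_zero _ s2))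
  obtain ⟨i, hc⟩ := Function.ne_iff.1 c0
  have hD : ∀ x, (∑ j, c j • d j) x = ∑ j, c j * d j x := fun x => by simp [der_sum]
  have : FiniteDimensional k (bx k t η (N + r)) := Module.Finite.iff_fg.2 (bx_fg _)
  have : FiniteDimensional k (bx k t η N) := Module.Finite.iff_fg.2 (bx_fg _)
  have := finiteDimensional_of_le hV
  let φ : (Fin (r + 1) → V) →ₗ[k] K :=
    ∑ j : Fin (r + 1), (LinearMap.mulLeft k (t i ^ (j : ℕ))).comp
      (V.subtype.comp (LinearMap.proj j))
  have hφ : ∀ v, φ v = ∑ j : Fin (r + 1), t i ^ (j : ℕ) * v j := fun v => by simp [φ]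
  have h1 : Function.Injective φ := by
    refine (injective_iff_map_eq_zero φ).2 fun v hv => ?_
    let y : ℕ → K := fun j => if h : j < r + 1 then v ⟨j, h⟩ / σ else 0
    have h2 := indep (∑ j, c j • d j) (x := t i) (by simpa [hD, hF.dual] using hc) r hr y
      (fun j => by
        simp only [y]
        split_ifs with hj
        · rw [hD]
          exact c1 _ (by simp [mul_div_cancel₀ _ s2])
        · exact map_zero _)
      (by
        rw [Finset.sum_range, ← zero_div σ, ← hv, hφ, Finset.sum_div]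
        exact Finset.sum_congr rfl fun j _ => by simp only [y, dif_pos j.2, mul_div_assoc])
    funext j
    have h3 := h2 j (Nat.lt_succ_iff.1 j.2)
    simp only [y, dif_pos j.2] at h3
    simpa [s2] using h3
  have h3 : LinearMap.range φ ≤ bx k t η (N + r) := by
    rintro _ ⟨v, rfl⟩
    rw [hφ]
    refine sum_mem fun j _ => bx_mono (x := j + N) (by have := j.2; omega) ?_
    rw [← cube_mul_bx]
    exact mul_mem_mul (pow_mem_pow _ (mem_cube i) _) (hV (v j).2)
  have h4 := Submodule.finrank_mono h3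
  rwa [LinearMap.finrank_range_of_inj h1, finrank_bx hF.ind hi, Module.finrank_pi_fintype,
    Finset.sum_const, Finset.card_univ, Fintype.card_fin, smul_eq_mul] at h4

/-- The potential of a box. -/
theorem pot [Fintype ι] (hF : Fr t d) (S : Finset K) (l : ι) {A : ℕ} (hA : 0 < A)
    (hη : ∀ l, IsIntegral (Algebra.adjoin k (Set.range t)) (η l))
    (hi : LinearIndependent (IntermediateField.adjoin k (Set.range t)) η)
    (hs : span (IntermediateField.adjoin k (Set.range t)) (Set.range η) = ⊤) :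
    ∃ C a : ℕ, ∀ N : ℕ, PoS d S A (bx k t η (N + 1)) (Fintype.card ι *
      (((A + m + 2) * (N + C)) ^ (m + 1) +
        a * (((N + C) * A) ^ (m + 1) - ((N + 1) * A) ^ (m + 1)))) := by
  classical
  obtain ⟨X, hX⟩ := exists_cover hF S l (hi.ne_zero l) hη
  obtain ⟨C₀, h0⟩ := bd_fg hs ((bx_fg (t := t) (η := η) 0).mul (bx_fg (t := t) (η := η) 0))
  obtain ⟨δ, d1, d2, C₁, hW⟩ := exists_wr hF.dual hs
  obtain ⟨c₁, h1⟩ := bd_fg hs one_fg
  obtain ⟨c₂, h2⟩ := bd_fg hs (one_fg.sup (fg_span X.finite_toSet))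
  refine ⟨1 + c₁ + c₂ + C₁ + 3 * C₀, X.card, fun N MM hMM D hD ε hε => ?_⟩
  set C := 1 + c₁ + c₂ + C₁ + 3 * C₀ with hC
  set V := bx k t η (N + 1) with hV
  have hVfg : V.FG := bx_fg _
  obtain ⟨c, hc⟩ := bd_fg hs hMM
  have g2 : ∀ L, finrank k (MM * WW d V ^ L * V ^ (A * L) :) ≤
      Fintype.card ι * ((A + m + 2) * (N + C) * L + (c + 1)) ^ (m + 1) := fun L => by
    have := (h0.pow h1 (bd_bx (N + 1 + C₁)) (m + 2)).of_mul d1 d2 (by rw [one_mul]; exact hW _)
    refine ((h0.pow (h0.pow hc this L) (bd_bx (N + 1)) (A * L)).mono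
      (y := (A + m + 2) * (N + C) * L + c) le_rfl ?_).finrank_le hF.ind hi
    rw [← add_assoc, ← mul_assoc, ← add_mul]
    gcongr
    nlinarith [Nat.zero_le (m * c₁), Nat.zero_le (m * c₂), Nat.zero_le (m * C₀),
      Nat.zero_le (A * c₁), Nat.zero_le (A * c₂), Nat.zero_le (A * C₀), Nat.zero_le (A * C₁)]
  have g3 : ∀ x ∈ X, ∃ e : ℕ, ∀ L, 0 < L →
      Fintype.card ι * ((N + 1) * L + 1) ^ (m + 1) +
        L * ∑ w ∈ D with w.ord x < 0, w.lead (V ^ L) ≤
      Fintype.card ι * ((N + C) * L + (e + 1)) ^ (m + 1) := fun x hx => by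
    obtain ⟨M₀, b1, b2⟩ := div_stmt (D.filter fun w => w.ord x < 0)
    obtain ⟨c', b3⟩ := b2 (M₀ ⊔ 1) (1 ⊔ pr k x) 1 (b1.sup one_fg) le_sup_left
      (one_fg.sup (fg_span_singleton x))
      (fun e => one_ne_zero ((Submodule.eq_bot_iff _).1 e 1 (one_le.1 le_rfl))) le_sup_left
      fun w hw => by
        have hw := (Finset.mem_filter.1 hw).2
        have e1 : ∀ a ≤ 0, (1 : Submodule k K) ≤ w.fil a := fun a ha =>
          one_le.2 (Or.inr (by rwa [ord_one]))
        rw [ordS_eq (σ := x) (sup_le (e1 _ hw.le) (pr_le.2 (Or.inr le_rfl)))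
          (mem_sup_right (mem_pr x)) (fun e => by simp [e, w.zero] at hw),
          ordS_eq (σ := 1) (e1 _ (ord_one w).le) (one_le.1 le_rfl) one_ne_zero, ord_one]
        exact hw
    obtain ⟨e, b4⟩ := bd_fg hs ((b1.sup one_fg).mul ((one_fg.sup (fg_span_singleton x)).pow c'))
    refine ⟨e, fun L hL => ?_⟩
    have b5 := b3 (V ^ L) (hVfg.pow L) (L + c')
    rw [Nat.add_sub_cancel, one_pow, mul_one, add_comm] at b5
    refine le_trans (Nat.add_le_add_right ?_ _) (b5.trans ?_)
    · obtain ⟨L, rfl⟩ := Nat.exists_eq_add_one_of_ne_zero hL.ne'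
      rw [← finrank_bx hF.ind hi]
      refine finrank_le_of_mul (pow_ne_zero L (hi.ne_zero l)) ((b1.sup one_fg).mul (hVfg.pow _))
        ((pow_bx l _ L).trans ?_)
      exact (one_mul _).ge.trans (mul_le_mul_left le_sup_right _)
    · have b6 : (1 ⊔ pr k x) ≤ 1 ⊔ span k (X : Set K) :=
        sup_le_sup_left (pr_le.2 (subset_span hx)) _
      refine ((h0.pow b4 (h0.mul (bd_bx (N + 1)) (h2.mono b6 le_rfl)) L).mono
        (y := (N + C) * L + e) (le_of_eq ?_) ?_).finrank_le hF.ind hi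
      · rw [mul_pow, pow_add, pr]; ring
      · exact Nat.add_le_add_right (Nat.mul_le_mul_right _ (by omega)) _
  choose! e he using g3
  have hl := (((lim ((A + m + 2) * (N + C)) (c + 1) (m + 1)).add (tendsto_finsetSum X fun x _ =>
      (lim ((N + C) * A) (e x + 1) (m + 1)).sub (lim ((N + 1) * A) 1 (m + 1)))).const_mul
        (Fintype.card ι : ℝ)).eventually (gt_mem_nhds (lt_add_of_pos_right _ hε))
  filter_upwards [hl, eventually_gt_atTop 0] with L hL hL0
  have hp : (0 : ℝ) < (L : ℝ) ^ (m + 1) := by positivity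
  simp only [← sub_div, ← Finset.sum_div, ← mul_div_assoc, ← add_div, div_lt_iff₀ hp,
    Finset.sum_const, nsmul_eq_mul] at hL
  refine le_trans ?_ hL.le
  have g4 : ∑ w ∈ D, w.lead (V ^ (A * L)) ≤
      ∑ x ∈ X, ∑ w ∈ D with w.ord x < 0, w.lead (V ^ (A * L)) := by
    simp only [Finset.sum_filter]
    rw [Finset.sum_comm]
    refine Finset.sum_le_sum fun w hw => ?_
    obtain ⟨x, hx, h⟩ := hX N w (hD hw)
    exact (if_pos h).ge.trans (Finset.single_le_sum (f := fun x =>
      if w.ord x < 0 then w.lead (V ^ (A * L)) else 0) (fun _ _ => Nat.zero_le _) hx)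
  have g5 : ((L * ∑ w ∈ D, w.lead (V ^ (A * L)) : ℕ) : ℝ) ≤ Fintype.card ι * ∑ x ∈ X,
      (((N + C : ℝ) * A * L + (e x + 1)) ^ (m + 1) - ((N + 1) * A * L + 1) ^ (m + 1)) := by
    refine (Nat.cast_le.2 (Nat.mul_le_mul (Nat.le_mul_of_pos_left L hA) g4)).trans ?_
    rw [Finset.mul_sum, Nat.cast_sum, Finset.mul_sum]
    refine Finset.sum_le_sum fun x hx => ?_
    rw [mul_sub, le_sub_iff_add_le', mul_assoc (N + C : ℝ), mul_assoc (N + 1 : ℝ)]
    exact_mod_cast he x hx (A * L) (Nat.mul_pos hA hL0)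
  have g7 := (Nat.cast_le (α := ℝ)).2 (g2 L)
  rw [Ph, Nat.cast_add]
  push_cast at g7 ⊢
  push_cast at g5
  linarith

end Start

theorem startS : StartS k K m := by
  intro ι _ t d η S A r R hF ⟨l⟩ hη hi hs hA hr hR
  obtain ⟨C, a, hP⟩ := Start.pot hF S l hA hη hi hs
  set D := Fintype.card ι with hD
  have hD0 : (0 : ℝ) < D := Nat.cast_pos.2 (Fintype.card_pos_iff.2 ⟨l⟩)
  have hR0 : 0 < R := pos_of_mul_pos_left (lt_trans (by positivity) hR) (Nat.cast_nonneg r)
  have l1 := ((lim (A + m + 2) ((A + m + 2) * C) (m + 1)).add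
    (((lim A (C * A) (m + 1)).sub (lim A A (m + 1))).const_mul (a : ℝ))).const_mul (D : ℝ)
  have l2 := ((((lim 1 2 (m + 1)).const_mul ((r : ℝ) + 1)).sub
    (lim 1 (r + 2) (m + 1))).const_mul (D : ℝ)).sub ((lim 0 1 (m + 1)).const_mul ((r : ℝ) + 1))
  have l3 := (l1.const_mul ((r : ℝ) + 1)).eventually_lt (l2.const_mul R) (by
    simp only [one_pow, sub_self, mul_zero, add_zero, zero_pow (Nat.succ_ne_zero m), sub_zero]
    nlinarith)
  obtain ⟨N, a1, a3⟩ := (l3.and (eventually_gt_atTop 0)).exists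
  have hp : (0 : ℝ) < (N : ℝ) ^ (m + 1) := by positivity
  simp only [← sub_div, ← mul_div_assoc, ← add_div, one_mul, zero_mul, zero_add, one_pow,
    mul_one] at a1
  rw [div_lt_div_iff_of_pos_right hp] at a1
  refine ⟨N + 1, _ / R, by rw [mul_div_cancel₀ _ hR0.ne']; exact hP N, fun V hV h1 h2 => ?_⟩
  have h3 := (Nat.cast_le (α := ℝ)).2 (Start.guard hF hi hr hV h2)
  rw [finrank_bx hF.ind hi] at h1
  rw [← hD] at h1 h3
  push_cast at h1 h3
  rw [add_assoc (N : ℝ), one_add_one_eq_two] at h1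
  rw [show (N : ℝ) + 1 + r + 1 = N + (r + 2) by ring] at h3
  rw [← mul_add, show (A : ℝ) * N + C * A = (N + C) * A by ring,
    show (A : ℝ) * N + A = (N + 1) * A by ring, ← div_lt_iff₀' hR0, mul_div_assoc] at a1
  have h4 := mul_le_mul_of_nonneg_left h1 (show (0 : ℝ) ≤ r + 1 by positivity)
  linarith

end Pool.Agent.R72.Res.SH
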