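import Pool.Agent.MP_19ffc6_ag.Res.SSpec

/-! PROJECT SHARP, module STEP: one more bad point. -/

namespace Pool.Agent.R72.Res.SH

open Pool.Agent.R72.Res.PA Pool.Agent.R72.Res.PA.Num Submodule Filter Module

variable {k K : Type} [Field k] [Field K] [Algebra k K] {m : ℕ}

namespace Step

variable {d : Fin (m + 1) → Derivation k K K} {V W T MM : Submodule k K} {σ : K} {w : DV k K}

theorem cmp {P Q X Y : Submodule k K} {τ : K} (hX : X.FG) (h0 : τ ≠ 0)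
    (h1 : pr k τ * P ≤ X ⊔ pr k τ * Q) (h2 : Y ≤ pr k τ * Q) : cod P Q ≤ cod X Y :=
  (cod_le_of_inj τ (fun _ hx => St.mul_mem_pr hx)
    (fun x _ hx => by simpa [h0] using St.div_mem_of_pr h0 hx) (fd_of_le hX h1)).2.trans
    ((St.cod_le_of_le_sup (St.fd_of_fg hX _) h1).trans
      (cod_mono le_rfl (fun _ _ h => h2 h) (St.fd_of_fg hX _)).2)

theorem one_sup_le (T : Submodule k K) : 1 ⊔ T ≤ alg T :=
  sup_le (one_le.2 (one_mem_alg T)) (by simpa using St.pow_le_alg T 1)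

theorem alg_le {j a : ℕ} (h : j ≤ a) (T : Submodule k K) :
    alg T ≤ (1 ⊔ T) ^ a ⊔ T ^ j * alg T := by
  obtain ⟨i, rfl⟩ := Nat.exists_eq_add_of_le h
  refine (St.alg_le_pow T (j + i)).trans (sup_le_sup_left ?_ _)
  rw [pow_add, mul_assoc]
  exact mul_le_mul_right ((mul_le_mul_left (St.pow_le_alg T i) _).trans (Orb.alg_mul_alg T)) _

theorem pow_le (h : Hyp V σ T) {j a : ℕ} (hj : j ≤ a) :
    V ^ (a - j) * (pr k σ * T) ^ j ≤ pr k σ ^ a * (T ^ j * alg T) := by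
  obtain ⟨i, rfl⟩ := Nat.exists_eq_add_of_le hj
  rw [Nat.add_sub_cancel_left]
  calc _ ≤ (pr k σ * alg T) ^ i * (pr k σ * T) ^ j := by
        gcongr
        rw [h.eq]
        exact mul_le_mul_right (one_sup_le T) _
    _ = pr k σ ^ (j + i) * (T ^ j * alg T ^ i) := by simp only [mul_pow]; ring
    _ ≤ _ := by gcongr; exact St.alg_pow_le T i

theorem term_x (hV : V.FG) (h : Hyp V σ T) (hM : MM.FG) (L : ℕ) {j a : ℕ} (hj : j ≤ a) :
    lam T (Mb T (JJ d T) MM) L j ≤ cod (MM * WW d V ^ L * V ^ a)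
      (MM * WW d V ^ L * (V ^ (a - j) * (pr k σ * T) ^ j) ⊔ ⊥) := by
  have a1 : pr k (σ ^ (m + 2)) * JJ d T ≤ WW d V := fun x hx => by
    obtain ⟨y, hy, rfl⟩ := mem_pr_mul.1 hx
    exact pow_mul_mem_WW (St.hyp_mem h) (fun _ ht => h.le (St.mul_mem_pr ht)) hy
  have a2 : WW d V ≤ pr k (σ ^ (m + 2)) * (alg T * JJ d T) := fun x hx => by
    rw [← mul_div_cancel₀ x (pow_ne_zero (m + 2) h.ne)]
    have : (T ⊔ 1) * JJ d T ≤ alg T * JJ d T := mul_le_mul_left (sup_comm T 1 ▸ one_sup_le T) _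
    exact St.mul_mem_pr (this (div_pow_mem' h.ne
      (fun v hv => sup_comm 1 T ▸ St.div_mem_of_pr h.ne (h.eq ▸ hv)) hx))
  have hp : pr k (σ ^ ((m + 2) * L + a)) = pr k (σ ^ (m + 2)) ^ L * pr k σ ^ a := by
    rw [← St.pr_pow, ← St.pr_pow]; ring
  refine cmp (τ := σ ^ ((m + 2) * L + a)) ((hM.mul ((WW_fg hV).pow L)).mul (hV.pow a))
    (pow_ne_zero _ h.ne) ?_ (sup_le ?_ bot_le)
  · refine (mul_le_mul_right (mul_le_mul_left (alg_le hj T) _) _).trans ?_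
    rw [Submodule.sup_mul, Submodule.mul_sup, mul_assoc (T ^ j)]
    refine sup_le_sup_right ?_ _
    calc _ = MM * (pr k (σ ^ (m + 2)) * JJ d T) ^ L * (pr k σ * (1 ⊔ T)) ^ a := by
          rw [hp]; simp only [mul_pow]; ring
      _ ≤ _ := by rw [← h.eq]; gcongr
  · calc _ ≤ MM * (pr k (σ ^ (m + 2)) * (alg T * JJ d T)) ^ L *
          (pr k σ ^ a * (T ^ j * alg T)) := mul_le_mul' (by gcongr) (pow_le h hj)
      _ = pr k (σ ^ ((m + 2) * L + a)) * (T ^ j * (alg T ^ (L + 1) * (MM * JJ d T ^ L))) := by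
          rw [hp]; simp only [mul_pow]; ring
      _ ≤ _ := by unfold Mb; gcongr; exact St.alg_pow_le T _

theorem term_w (hV : V.FG) (h : Hyp V σ T) (hw : w.Min V σ) {j a : ℕ} (hj : j ≤ a) :
    cod (alg T) (T ^ j * alg T ⊔ w.fil 1) ≤ cod (1 * V ^ a)
      (1 * (V ^ (a - j) * (pr k σ * T) ^ j) ⊔ w.fil (w.ordS (V ^ a) + 1)) := by
  have h0 := pow_ne_zero a h.ne
  rw [one_mul, one_mul]
  refine cmp (τ := σ ^ a) (hV.pow a) h0 ?_ (sup_le ?_ fun y hy => ?_)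
  · refine (mul_le_mul_right (alg_le hj T) _).trans ?_
    rw [Submodule.mul_sup]
    refine sup_le_sup ?_ (mul_le_mul_right le_sup_left _)
    rw [← St.pr_pow, ← mul_pow, ← h.eq]
  · refine (pow_le h hj).trans ?_
    rw [St.pr_pow]
    exact mul_le_mul_right le_sup_left _
  · rw [← (St.min_pow hV hw _).2.2, ← mul_div_cancel₀ y h0, St.mul_mem_fil h0] at hy
    rw [← mul_div_cancel₀ y h0]
    exact St.mul_mem_pr (mem_sup_right hy)

theorem fs_le (hV : V.FG) (h : Hyp V σ T) (hM : MM.FG) (A : ℕ) (s : Finset (DV k K))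
    (hs : ∀ w ∈ s, w.Min V σ) (L : ℕ) : FS d A T MM s L ≤ DT d A V (pr k σ * T) MM s L := by
  rw [FS, DT, Finset.sum_add_distrib, ← Finset.mul_sum]
  refine add_le_add (Finset.sum_le_sum fun j hj =>
    term_x hV h hM L (Nat.lt_succ_iff.1 (Finset.mem_range.1 hj))) (Nat.mul_le_mul_left _ ?_)
  unfold bd
  rw [Finset.sum_comm]
  exact Finset.sum_le_sum fun w hw => Finset.sum_le_sum fun j hj =>
    term_w hV h (hs w hw) (Nat.lt_succ_iff.1 (Finset.mem_range.1 hj))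

theorem sup_eq (h : Hyp V σ T) (hW : W ≤ V) (hn : ¬ W ≤ pr k σ * T) : W ⊔ pr k σ * T = V := by
  obtain ⟨ρ, h1, h2⟩ := SetLike.not_le_iff_exists.1 hn
  obtain ⟨u1, u2⟩ := Orb.unit_of h (hW h1) h2
  obtain ⟨a, ha, t, ht, e⟩ := mem_sup.1 u1
  obtain ⟨c, rfl⟩ := mem_one.1 ha
  have hc : c ≠ 0 := fun h => u2 (by simpa [← e, h] using ht)
  refine le_antisymm (sup_le hW h.le) ?_
  conv_lhs => rw [h.eq, Submodule.mul_sup, mul_one]
  refine sup_le ((span_singleton_le_iff_mem _ _).2 ?_) le_sup_right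
  have : σ = c⁻¹ • (ρ - σ * t) := by
    rw [← mul_div_cancel₀ ρ h.ne, ← e, mul_add, add_sub_cancel_right, mul_comm,
      ← Algebra.smul_def, inv_smul_smul₀ hc]
  have h3 : c⁻¹ • (ρ - σ * t) ∈ W ⊔ pr k σ * T :=
    smul_mem _ _ (sub_mem (mem_sup_left h1) (mem_sup_right (St.mul_mem_pr ht)))
  rwa [← this] at h3

theorem dt_mono (A : ℕ) {s s' : Finset (DV k K)} (h : s ⊆ s') (L : ℕ) :
    DT d A V W MM s L ≤ DT d A V W MM s' L :=
  add_le_add le_rfl (Nat.mul_le_mul_left _ (Finset.sum_le_sum_of_subset h))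

theorem dt_add (hd : DefS k K) {H : Submodule k K} (hV : V.FG) (hM : MM.FG) (e : W ⊔ H = V)
    (A : ℕ) (s : Finset (DV k K)) (L : ℕ) :
    DT d A V W MM s L + DT d A V H MM s L ≤ DT d A V (W ⊓ H) MM s L := by
  have h1 := hd (MM * WW d V ^ L) ⊥ V W H (A * L) (hM.mul ((WW_fg hV).pow L)) hV e
  have h2 := Finset.sum_le_sum fun (w : DV k K) (_ : w ∈ s) =>
    hd 1 (w.fil (w.ordS (V ^ (A * L)) + 1)) V W H (A * L)
      (by rw [one_eq_span]; exact fg_span_singleton 1) hV e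
  have h3 := Nat.mul_le_mul_left L h2
  rw [Finset.sum_add_distrib, mul_add] at h3
  unfold DT
  omega

end Step

theorem stepS (hd : DefS k K) : StepS k K m := by
  classical
  intro d S A R g V W T σ hV hb hW hn hg
  obtain ⟨E₁, f1, o1, hg⟩ := hg
  have hb2 := hb.2
  simp only [Gs, not_forall, not_exists, not_and, not_frequently, not_le] at hb2
  obtain ⟨E₂, f2, o2, hb2⟩ := hb2
  refine ⟨E₁ * E₂, f1.mul f2, by simpa using mul_mem_mul o1 o2, fun M hM oM => ?_⟩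
  obtain ⟨s₁, a1, b1⟩ := hg (E₂ * M) (f2.mul hM) (by simpa using mul_mem_mul o2 oM)
  obtain ⟨s₂, a2, ε, hε, b2⟩ := hb2 (E₁ * M) (f1.mul hM) (by simpa using mul_mem_mul o1 oM)
  rw [← mul_assoc] at b1
  rw [← mul_assoc, mul_comm E₂] at b2
  have hMM : (E₁ * E₂ * M).FG := (f1.mul f2).mul hM
  refine ⟨s₁ ∪ s₂, fun w hw => ?_, ?_⟩
  · rcases Finset.mem_union.1 hw with h | h
    exacts [a1 h, (a2 h).1]
  filter_upwards [b1, b2] with L c1 c2
  have c3 : DT d A V W (E₁ * E₂ * M) s₁ L + FS d A T (E₁ * E₂ * M) s₂ L ≤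
      DT d A V (W ⊓ pr k σ * T) (E₁ * E₂ * M) (s₁ ∪ s₂) L :=
    (add_le_add (Step.dt_mono A Finset.subset_union_left L)
      ((Step.fs_le hV hb.1 hMM A s₂ (fun w hw => (a2 hw).2) L).trans
        (Step.dt_mono A Finset.subset_union_right L))).trans
      (Step.dt_add hd hV hMM (Step.sup_eq hb.1 hW hn) A _ L)
  have c4 := (Nat.cast_le (α := ℝ)).2 c3
  have c5 : 0 ≤ ε * (L : ℝ) ^ (m + 2) := by positivity
  push_cast at c4
  nlinarith

end Pool.Agent.R72.Res.SH
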