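import Pool.Agent.MP_19ffc6_ag.Res.SSpec

/-! PROJECT SHARP, module TR: from polynomials to modules. -/

namespace Pool.Agent.R72.Res.SH

open Pool.Agent.R72.Wild Pool.Agent.R72.Res.PA Pool.Agent.R72.Res.PA.Num
  Pool.Agent.R72.Res.PA.LocK Pool.Agent.R72.Res.SC Submodule Filter Module MvPolynomial

variable {k K : Type} [Field k] [Field K] [Algebra k K] {m : ℕ}

namespace Tr

variable {σ : Type} {T P Q : Submodule k K} {l : σ → K}

theorem prod_mem_pow (hl : ∀ i, l i ∈ T) (μ : σ → ℕ) (s : Finset σ) :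
    ∏ i ∈ s, l i ^ μ i ∈ T ^ ∑ i ∈ s, μ i := by
  classical
  induction s using Finset.induction_on with
  | empty => simp
  | insert a s ha ih =>
    rw [Finset.prod_insert ha, Finset.sum_insert ha, pow_add]
    exact mul_mem_mul (pow_mem_pow _ (hl a) _) ih

theorem hom (hl : ∀ i, l i ∈ T) {δ : ℕ} {H : MvPolynomial σ k} (hH : H.IsHomogeneous δ) :
    aeval l H ∈ T ^ δ := by
  rw [aeval_def, eval₂_eq]
  refine sum_mem fun μ hμ => ?_
  have h1 : μ.degree = δ := by
    by_contra h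
    exact mem_support_iff.1 hμ (hH.coeff_eq_zero h)
  rw [← Algebra.smul_def, ← h1]
  exact smul_mem _ _ (prod_mem_pow hl μ μ.support)

theorem pow_le (T : Submodule k K) {t j : ℕ} (h : t ≤ j) : T ^ j ≤ T ^ t * alg T := by
  obtain ⟨c, rfl⟩ := Nat.exists_eq_add_of_le h
  rw [pow_add]
  exact mul_le_mul_right (pow_le_alg (le_alg T) c) _

theorem ord (hl : ∀ i, l i ∈ T) {t : ℕ} {g : MvPolynomial σ k}
    (hg : ∀ j, j < t → homogeneousComponent j g = 0) : aeval l g ∈ T ^ t * alg T := by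
  rw [← sum_homogeneousComponent g, map_sum]
  refine sum_mem fun j _ => ?_
  rcases lt_or_ge j t with h | h
  · rw [hg j h, map_zero]
    exact zero_mem _
  · exact pow_le T h (hom hl (homogeneousComponent_isHomogeneous j g))

theorem lead (hl : ∀ i, l i ∈ T) {t : ℕ} {g : MvPolynomial σ k}
    (hg : ∀ j, j < t → homogeneousComponent j g = 0) :
    aeval l g - aeval l (homogeneousComponent t g) ∈ T ^ (t + 1) * alg T := by
  rw [← map_sub]
  refine ord hl fun j hj => ?_
  rw [map_sub, homogeneousComponent_of_mem (homogeneousComponent_mem t g)]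
  split_ifs with h
  · rw [h, sub_self]
  · rw [hg j (by omega), sub_zero]

theorem win_map {V V' : Type} [AddCommGroup V] [Module k V] [AddCommGroup V'] [Module k V']
    (Λ : V →ₗ[k] V') {M : Submodule k V} {M' : Submodule k V'} (hM : ∀ p ∈ M, Λ p ∈ M') {r : ℕ}
    {b : Fin r → ℕ} {G : (Fin r → V) → Prop} (h : Win M r b G) :
    Win M' r b fun g' => ∃ g, G g ∧ g' = fun i => Λ (g i) := by
  induction r with
  | zero => exact ⟨Fin.elim0, h, funext fun i => i.elim0⟩
  | succ r ih =>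
    obtain ⟨τ, h1, h2⟩ := h
    refine ⟨Λ ∘ₗ τ, fun a => hM _ (h1 a), fun a ha => (ih (h2 a ha)).mono le_rfl ?_⟩
    rintro _ - ⟨g, hg, rfl⟩
    exact ⟨Fin.cons (τ a) g, hg, funext fun i => Fin.cases rfl (fun _ => rfl) i⟩

theorem pm_mem {l : Fin (m + 1) → K} (hl : ∀ i, l i ∈ T) {p : MvPolynomial (Fin (m + 1)) k}
    (hp : p ∈ PM k m) : aeval l p ∈ (1 ⊔ T) ^ (m + 2) ⊓ nn T := by
  refine ⟨?_, ?_⟩
  · have hd : p.totalDegree ≤ m + 2 := (mem_restrictTotalDegree _ _ _).1 hp.1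
    rw [← sum_homogeneousComponent p, map_sum]
    refine sum_mem fun j hj => ?_
    have : (1 ⊔ T) ^ j ≤ (1 ⊔ T) ^ (m + 2) :=
      pow_le_pow_right' le_sup_left (by have := Finset.mem_range.1 hj; omega)
    exact this (hom (fun i => mem_sup_right (hl i)) (homogeneousComponent_isHomogeneous j p))
  · have := ord hl (t := 1) (g := p) fun j hj => by
      have h0 : coeff 0 p = 0 := hp.2
      rw [Nat.lt_one_iff.1 hj, homogeneousComponent_zero, h0, map_zero]
    rwa [pow_one] at this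

theorem rd_step {ι : Type} {y : ι → K} (hQ : Md T Q) (h : Rd T 1 y P Q) : ∃ e, ∀ c, e < c →
    T ^ c * P ≤ span k (Set.range y) * (T ^ (c - 1) * P) ⊔ T ^ (c + 1) * P ⊔ Q := by
  obtain ⟨e, h⟩ := h
  refine ⟨e, fun c hc => ?_⟩
  obtain ⟨s, rfl⟩ := Nat.exists_eq_add_of_lt hc
  have := mul_le_mul_right h (T ^ s)
  rw [Submodule.mul_sup, Submodule.mul_sup] at this
  rw [Nat.add_sub_cancel]
  exact le_of_eq_of_le (by ring) (this.trans (sup_le_sup (sup_le_sup (le_of_eq (by ring))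
    (le_of_eq (by ring))) (hQ.le (pow_le_alg (le_alg T) s))))

theorem rd_pow (hQ : Md T Q) (hl : ∀ i, l i ∈ T) (h : Rd T 1 l P Q) : ∃ e, ∀ r c, e + r ≤ c →
    T ^ c * P ≤ span k (Set.range l) ^ r * (T ^ (c - r) * P) ⊔ T ^ (c + 1) * P ⊔ Q := by
  obtain ⟨e, h⟩ := rd_step hQ h
  have hY : span k (Set.range l) ≤ T := span_le.2 fun _ ⟨i, e⟩ => e ▸ hl i
  refine ⟨e, fun r c hc => ?_⟩
  induction r with
  | zero => exact le_sup_of_le_left (le_sup_of_le_left (by simp))
  | succ r ih =>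
    refine (ih (by omega)).trans (sup_le (sup_le ?_ (le_sup_of_le_left le_sup_right)) le_sup_right)
    refine (mul_le_mul_right (h (c - r) (by omega)) _).trans ?_
    rw [Submodule.mul_sup, Submodule.mul_sup]
    refine sup_le_sup (sup_le_sup (le_of_eq ?_) ?_) (hQ.le (pow_le_alg (hY.trans (le_alg T)) r))
    · rw [pow_succ, mul_assoc, Nat.sub_sub]
    · refine (mul_le_mul_left (pow_le_pow_left' hY r) _).trans (le_of_eq ?_)
      rw [← mul_assoc, ← pow_add]
      congr 2
      omega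

theorem span_pow (l : σ → K) (r : ℕ) : ∀ x ∈ span k (Set.range l) ^ r,
    ∃ p : MvPolynomial σ k, p.IsHomogeneous r ∧ p ∈ Ideal.span (Set.range X) ^ r ∧
      aeval l p = x := by
  have h1 : ∀ y ∈ span k (Set.range l), ∃ q : MvPolynomial σ k, q.IsHomogeneous 1 ∧
      q ∈ Ideal.span (Set.range X) ∧ aeval l q = y := by
    intro y hy
    induction hy using span_induction with
    | mem _ h =>
      obtain ⟨i, rfl⟩ := h
      exact ⟨X i, isHomogeneous_X _ _, Ideal.subset_span ⟨i, rfl⟩, aeval_X _ _⟩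
    | zero => exact ⟨0, isHomogeneous_zero _ _ _, zero_mem _, map_zero _⟩
    | add _ _ _ _ h h' =>
      obtain ⟨p, a, b, rfl⟩ := h
      obtain ⟨q, a', b', rfl⟩ := h'
      exact ⟨p + q, a.add a', add_mem b b', map_add _ _ _⟩
    | smul c _ _ h =>
      obtain ⟨p, a, b, rfl⟩ := h
      exact ⟨c • p, (homogeneousSubmodule σ k 1).smul_mem c a, Submodule.smul_of_tower_mem _ c b,
        map_smul _ _ _⟩
  induction r with
  | zero =>
    intro x hx
    rw [pow_zero, Submodule.mem_one] at hx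
    obtain ⟨c, rfl⟩ := hx
    exact ⟨C c, isHomogeneous_C _ _, by simp, aeval_C _ _⟩
  | succ r ih =>
    intro x hx
    rw [pow_succ] at hx
    refine Submodule.mul_induction_on hx (fun a ha b hb => ?_) ?_
    · obtain ⟨p, a1, a2, rfl⟩ := ih a ha
      obtain ⟨q, b1, b2, rfl⟩ := h1 b hb
      exact ⟨p * q, a1.mul b1, by rw [pow_succ]; exact Ideal.mul_mem_mul a2 b2, map_mul _ _ _⟩
    · rintro _ _ ⟨p, a, b, rfl⟩ ⟨q, a', b', rfl⟩
      exact ⟨p + q, a.add a', add_mem b b', map_add _ _ _⟩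

theorem comp_mul (hl : ∀ i, l i ∈ T) {δ : ℕ} {H : MvPolynomial σ k} (hH : H.IsHomogeneous δ)
    (r : ℕ) (a : MvPolynomial σ k) :
    aeval l (homogeneousComponent r (a * H)) ∈ pr k (aeval l H) * T ^ (r - δ) := by
  rw [← sum_homogeneousComponent a, Finset.sum_mul, map_sum, map_sum]
  refine sum_mem fun j _ => ?_
  rw [homogeneousComponent_of_mem ((homogeneousComponent_isHomogeneous j a).mul hH)]
  split_ifs with h
  · rw [map_mul, h, Nat.add_sub_cancel, mul_comm (pr k _)]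
    exact Submodule.mul_mem_mul (hom hl (homogeneousComponent_isHomogeneous j a))
      (mem_span_singleton_self _)
  · rw [map_zero]
    exact zero_mem _

theorem null [IsAlgClosed k] [Finite σ] {ι : Type} [Finite ι] (hl : ∀ i, l i ∈ T) {δ : ι → ℕ}
    {H : ι → MvPolynomial σ k} (hH : ∀ i, (H i).IsHomogeneous (δ i))
    (h0 : ∀ x : σ → k, (∀ i, eval x (H i) = 0) → x = 0) :
    ∃ r, span k (Set.range l) ^ r ≤ ⨆ i, pr k (aeval l (H i)) * T ^ (r - δ i) := by
  have := Fintype.ofFinite ι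
  have h1 : Ideal.span (Set.range X) ≤ (Ideal.span (Set.range H)).radical := by
    rw [← vanishingIdeal_zeroLocus_eq_radical (K := k), Ideal.span_le]
    rintro _ ⟨j, rfl⟩ x hx
    rw [aeval_X, h0 x fun i => hx _ (Ideal.subset_span ⟨i, rfl⟩)]
    rfl
  obtain ⟨r, hr⟩ := Ideal.exists_pow_le_of_le_radical_of_fg h1 (IsNoetherian.noetherian _)
  refine ⟨r, fun x hx => ?_⟩
  obtain ⟨p, p1, p2, rfl⟩ := span_pow l r x hx
  obtain ⟨a, ha⟩ := Ideal.mem_span_range_iff_exists_fun.1 (hr p2)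
  have e : p = ∑ i, homogeneousComponent r (a i * H i) := by
    rw [← map_sum, ha, homogeneousComponent_of_mem p1, if_pos rfl]
  rw [e, map_sum]
  exact sum_mem fun i _ => mem_iSup_of_mem i (comp_mul hl (hH i) r (a i))

theorem kill {e μ : ℕ} {l : Fin (e + 1) → K} (hP : Md T P) (hQ : Md T Q)
    (hf : ∀ L, Fd P (T ^ L * P ⊔ Q)) (hG : Gr e μ T P Q) (hl : ∀ i, l i ∈ T) :
    ∃ (F : MvPolynomial (Fin (e + 1)) k) (δ : ℕ), F ≠ 0 ∧ F.IsHomogeneous δ ∧
      ∀ j, pr k (aeval l F) * (T ^ j * P) ≤ T ^ (j + δ + 1) * P ⊔ Q := by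
  obtain ⟨a, D, g, ⟨α₀, h1, h2⟩, h3⟩ := rel hP hQ hf hG one_pos (y := l) fun i =>
    pow_le T le_rfl (by rw [pow_one]; exact hl i)
  let f : (Fin (e + 1) → Fin a) → (Fin (e + 1) →₀ ℕ) := fun α =>
    Finsupp.equivFunOnFinite.symm fun i => (α i : ℕ)
  have hf' : Function.Injective f := fun α β h => funext fun i =>
    Fin.ext (congrFun (Finsupp.equivFunOnFinite.symm.injective h) i)
  refine ⟨∑ α with ∑ i, (α i : ℕ) = D, monomial (f α) (g α), D, fun h => h2 ?_,
    IsHomogeneous.sum _ _ _ fun α hα => isHomogeneous_monomial _ ?_, fun j => ?_⟩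
  · have := congrArg (coeff (f α₀)) h
    simpa [coeff_sum, coeff_monomial, hf'.eq_iff, h1] using this
  · rw [Finsupp.degree_eq_sum]
    exact (Finset.mem_filter.1 hα).2
  · have e1 : aeval l (∑ α with ∑ i, (α i : ℕ) = D, monomial (f α) (g α)) =
        ∑ α with ∑ i, (α i : ℕ) = D, g α • ∏ i, l i ^ (α i : ℕ) := by
      rw [map_sum]
      refine Finset.sum_congr rfl fun α _ => ?_
      rw [aeval_monomial, Finsupp.prod_fintype _ _ (by simp), Algebra.smul_def]
      rfl
    have e2 : pr k (aeval l (∑ α with ∑ i, (α i : ℕ) = D, monomial (f α) (g α))) * P ≤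
        T ^ (D + 1) * P ⊔ Q := fun z hz => by
      obtain ⟨x, hx, rfl⟩ := mem_pr_mul.1 hz
      rw [e1]
      simpa only [one_mul] using h3 x hx
    rw [mul_left_comm]
    refine (mul_le_mul_right e2 _).trans ?_
    rw [Submodule.mul_sup]
    exact sup_le_sup (le_of_eq (by ring)) (hQ.le (pow_le_alg (le_alg T) j))

end Tr

theorem trS [IsAlgClosed k] : TrS k K m where
  hsl n ι _ T P Q l δ H hP hQ hl hR hH h0 := by
    obtain ⟨e, he⟩ := Tr.rd_pow hQ hl hR
    obtain ⟨r, hr⟩ := Tr.null hl hH h0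
    refine ⟨e + r, fun c hc => (he r c hc).trans (sup_le_sup_right (sup_le_sup_right ?_ _) _)⟩
    refine (mul_le_mul_left hr _).trans ?_
    rw [Submodule.iSup_mul]
    refine iSup_mono fun i => ?_
    rw [mul_assoc, ← mul_assoc (T ^ _), ← pow_add]
    exact mul_le_mul_right (hP.anti (by omega)) _
  win T l r b G hl h := Tr.win_map (aeval l).toLinearMap (fun _ hp => Tr.pm_mem hl hp) h
  hom n T l δ H hl hH := Tr.hom hl hH
  lead n T l t g hl hg := ⟨Tr.ord hl hg, Tr.lead hl hg⟩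
  kill e μ T P Q l hP hQ hf hG hl := Tr.kill hP hQ hf hG hl
  congr ι T P Q t g g' _ hP hg := by
    rintro ⟨N, hN⟩
    refine ⟨N, fun c hc => (hN c hc).trans (sup_le_sup_right (sup_le (iSup_le fun i => ?_)
      le_sup_right) _)⟩
    have h1 : pr k (g i) ≤ pr k (g' i) ⊔ T ^ (t i + 1) * alg T := by
      refine (span_singleton_le_iff_mem _ _).2 ?_
      have := sub_mem (mem_sup_left (mem_span_singleton_self (g' i) : g' i ∈ pr k (g' i)))
        (mem_sup_right (hg i))
      rwa [sub_sub_cancel] at this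
    refine (mul_le_mul_left h1 _).trans ?_
    rw [Submodule.sup_mul]
    refine sup_le_sup (le_iSup (fun i => pr k (g' i) * (T ^ (c - t i) * P)) i) ?_
    refine le_of_eq_of_le (b := T ^ (t i + 1 + (c - t i)) * (alg T * P)) (by ring) ?_
    exact (mul_le_mul_right hP _).trans (hP.anti (by omega))
  rd n T P Q l hQ hR := by
    obtain ⟨e, he⟩ := Tr.rd_step hQ hR
    refine ⟨e + 1, fun c hc => (he c hc).trans (le_of_eq ?_)⟩
    rw [span_range_eq_iSup, Submodule.iSup_mul]
    rfl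

end Pool.Agent.R72.Res.SH
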