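import Pool.Agent.MP_19ffc6_ag.Res.SSpec

/-! PROJECT SHARP, row WRL: the leading term of the Wronskian. -/

namespace Pool.Agent.R72.Res.SH

open Pool.Agent.R72.Wild Pool.Agent.R72.Res.PA Pool.Agent.R72.Res.PA.Num
  Pool.Agent.R72.Res.PA.LocK Pool.Agent.R72.Res.SC Submodule Filter Module MvPolynomial

variable {k K : Type} [Field k] [Field K] [Algebra k K] {m : ℕ}

namespace Wrl

variable {T : Submodule k K}

theorem one_mem : (1 : K) ∈ alg T := (Algebra.adjoin k (T : Set K)).one_mem

theorem fmul {a b : ℕ} {x y : K} (hx : x ∈ T ^ a * alg T) (hy : y ∈ T ^ b * alg T) :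
    x * y ∈ T ^ (a + b) * alg T := by
  have h : (T ^ a * alg T) * (T ^ b * alg T) ≤ T ^ (a + b) * alg T := by
    rw [mul_mul_mul_comm, ← pow_add]
    exact mul_le_mul_right (md_alg T) _
  exact h (mul_mem_mul hx hy)

theorem fzero {x : K} (hx : x ∈ alg T) : x ∈ T ^ 0 * alg T := by simpa using hx

theorem fanti {a b : ℕ} (h : a ≤ b) {x : K} (hx : x ∈ T ^ b * alg T) : x ∈ T ^ a * alg T :=
  (md_alg T).anti h hx

theorem fprod {ι : Type} (s : Finset ι) (n : ι → ℕ) (a : ι → K)
    (h : ∀ i, a i ∈ T ^ n i * alg T) : ∏ i ∈ s, a i ∈ T ^ (∑ i ∈ s, n i) * alg T := by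
  classical
  induction s using Finset.induction_on with
  | empty => simpa using one_mem
  | insert i s hi ih =>
    rw [Finset.prod_insert hi, Finset.sum_insert hi]
    exact fmul (h i) ih

theorem fprod_sub {ι : Type} (s : Finset ι) (n : ι → ℕ) (a b : ι → K)
    (ha : ∀ i, a i ∈ T ^ n i * alg T) (hb : ∀ i, b i ∈ T ^ n i * alg T)
    (h : ∀ i, a i - b i ∈ T ^ (n i + 1) * alg T) :
    ∏ i ∈ s, a i - ∏ i ∈ s, b i ∈ T ^ (∑ i ∈ s, n i + 1) * alg T := by
  classical
  induction s using Finset.induction_on with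
  | empty => simp
  | insert i s hi ih =>
    rw [Finset.prod_insert hi, Finset.prod_insert hi, Finset.sum_insert hi]
    have e : a i * ∏ i ∈ s, a i - b i * ∏ i ∈ s, b i =
        a i * (∏ i ∈ s, a i - ∏ i ∈ s, b i) + (a i - b i) * ∏ i ∈ s, b i := by ring
    rw [e]
    refine add_mem ?_ ?_
    · exact fanti (by omega) (fmul (ha i) ih)
    · exact fanti (by omega) (fmul (h i) (fprod s n b hb))

theorem fsign {N : Submodule k K} {r : ℕ} (σ : Equiv.Perm (Fin r)) {x : K} (hx : x ∈ N) :
    Equiv.Perm.sign σ • x ∈ N := by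
  rcases Int.units_eq_one_or (Equiv.Perm.sign σ) with e | e <;> simp [e, hx]

theorem fdet {r : ℕ} (n : Fin r → ℕ) (a : Matrix (Fin r) (Fin r) K)
    (ha : ∀ i j, a i j ∈ T ^ n i * alg T) : a.det ∈ T ^ (∑ i, n i) * alg T := by
  rw [Matrix.det_apply]
  refine sum_mem fun σ _ => fsign σ ?_
  rw [← Equiv.sum_comp σ n]
  exact fprod _ _ _ fun i => ha _ _

theorem fdet_sub {r : ℕ} (n : Fin r → ℕ) (a b : Matrix (Fin r) (Fin r) K)
    (ha : ∀ i j, a i j ∈ T ^ n i * alg T) (hb : ∀ i j, b i j ∈ T ^ n i * alg T)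
    (h : ∀ i j, a i j - b i j ∈ T ^ (n i + 1) * alg T) :
    a.det - b.det ∈ T ^ (∑ i, n i + 1) * alg T := by
  rw [Matrix.det_apply, Matrix.det_apply, ← Finset.sum_sub_distrib]
  refine sum_mem fun σ _ => ?_
  rw [← smul_sub, ← Equiv.sum_comp σ n]
  exact fsign σ (fprod_sub _ _ _ _ (fun i => ha _ _) (fun i => hb _ _) fun i => h _ _)

variable {ι : Type} {l : ι → K}

theorem ord_aeval (hl : ∀ i, l i ∈ T) {c : ℕ} {p : MvPolynomial ι k}
    (hp : ∀ α ∈ p.support, c ≤ α.degree) : aeval l p ∈ T ^ c * alg T := by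
  rw [p.as_sum, map_sum]
  refine sum_mem fun α hα => fanti (hp α hα) ?_
  rw [aeval_monomial, ← Algebra.smul_def, Finsupp.prod, Finsupp.degree_apply]
  refine smul_mem _ _ (fprod _ _ _ fun i => ?_)
  simpa using mul_mem_mul (pow_mem_pow T (hl i) (α i)) (one_mem (T := T))

theorem ord_pderiv {c : ℕ} {p : MvPolynomial ι k} (hp : ∀ α ∈ p.support, c ≤ α.degree) (j : ι) :
    ∀ α ∈ (pderiv j p).support, c - 1 ≤ α.degree := by
  intro α hα
  rw [MvPolynomial.mem_support_iff, coeff_pderiv] at hα
  have := hp _ (MvPolynomial.mem_support_iff.2 (left_ne_zero_of_mul hα))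
  rw [map_add, Finsupp.degree_single] at this
  omega

theorem ord_of {c : ℕ} {p : MvPolynomial ι k} (hp : ∀ j, j < c → homogeneousComponent j p = 0) :
    ∀ α ∈ p.support, c ≤ α.degree := by
  intro α hα
  by_contra h
  have := coeff_homogeneousComponent α.degree p α
  rw [hp _ (not_le.1 h), if_pos rfl] at this
  exact MvPolynomial.mem_support_iff.1 hα (by simpa using this.symm)

theorem ord_lead (c : ℕ) (p : MvPolynomial ι k) :
    ∀ α ∈ (homogeneousComponent c p).support, c ≤ α.degree := by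
  intro α hα
  rw [MvPolynomial.mem_support_iff, coeff_homogeneousComponent] at hα
  by_contra h
  exact hα (if_neg (by omega))

theorem ord_sub {c : ℕ} {p : MvPolynomial ι k} (hp : ∀ α ∈ p.support, c ≤ α.degree) :
    ∀ α ∈ (p - homogeneousComponent c p).support, c + 1 ≤ α.degree := by
  intro α hα
  rw [MvPolynomial.mem_support_iff, coeff_sub, coeff_homogeneousComponent] at hα
  by_cases e : α.degree = c
  · simp [e] at hα
  · rw [if_neg e, sub_zero] at hα
    have := hp α (MvPolynomial.mem_support_iff.2 hα)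
    omega

theorem chain_rule [Fintype ι] (D : Derivation k K K) (l : ι → K) (p : MvPolynomial ι k) :
    D (aeval l p) = ∑ s, aeval l (pderiv s p) * D (l s) := by
  classical
  induction p using MvPolynomial.induction_on with
  | C c => simp
  | add p q hp hq => simp [hp, hq, add_mul, Finset.sum_add_distrib]
  | mul_X p i hp =>
    simp only [map_mul, aeval_X, Derivation.leibniz, hp, smul_eq_mul, map_add, add_mul,
      Finset.sum_add_distrib, pderiv_X, Finset.mul_sum, mul_assoc]
    congr 1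
    rw [Finset.sum_eq_single i]
    · simp
    · intro s _ hs
      simp [hs.symm]
    · simp

theorem jac_comb [Fintype ι] (d : Fin (m + 1) → Derivation k K K) (x : ι → K)
    (hx : ∀ s, x s ∈ alg T) (u : Fin (m + 1) → K) (B : Fin (m + 1) → ι → K) (n : Fin (m + 1) → ℕ)
    (hB : ∀ r s, B r s ∈ T ^ n r * alg T) (hu : ∀ r j, d j (u r) = ∑ s, B r s * d j (x s)) :
    Jac d u ∈ (T ^ (∑ r, n r) * alg T) * (alg T * JJ d T) := by
  classical
  have e : Jac d u = (Matrix.detRowAlternating (n := Fin (m + 1)) (R := K)).toMultilinearMap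
      fun r => ∑ s, B r s • fun j => d j (x s) := by
    change Matrix.det _ = Matrix.det _
    congr 1
    ext r j
    simp [hu, Finset.sum_apply]
  rw [e, MultilinearMap.map_sum]
  refine sum_mem fun φ _ => ?_
  rw [MultilinearMap.map_smul_univ, smul_eq_mul]
  exact mul_mem_mul (fprod _ _ _ fun r => hB r _)
    (JJ_adjoin T (jac_mem (d := d) (g := fun r => x (φ r)) fun r => hx _))

theorem fJ {J : Submodule k K} {a b : ℕ} {x y : K} (hx : x ∈ T ^ a * alg T)
    (hy : y ∈ (T ^ b * alg T) * (alg T * J)) : x * y ∈ T ^ (a + b) * (alg T * J) := by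
  have h : (T ^ a * alg T) * ((T ^ b * alg T) * (alg T * J)) ≤ T ^ (a + b) * (alg T * J) := by
    have e : (T ^ a * alg T) * ((T ^ b * alg T) * (alg T * J)) =
        T ^ (a + b) * (alg T * (alg T * (alg T * J))) := by
      rw [pow_add]
      ring
    rw [e]
    exact mul_le_mul_right ((mul_le_mul_right ((md_alg T).mul' J) _).trans ((md_alg T).mul' J)) _
  exact h (mul_mem_mul hx hy)

end Wrl

open Wrl in
theorem wrlS : WrlS k K m := by
  intro d T S₀ s₀ l g t hS hl ht hg
  refine ⟨?_, ?_⟩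
  · rw [Matrix.det_apply']
    refine IsHomogeneous.sum _ _ _ fun σ _ => ?_
    rw [← Equiv.sum_comp σ fun i => t i - 1, ← zero_add (∑ i, (t (σ i) - 1))]
    refine IsHomogeneous.mul ?_ (IsHomogeneous.prod _ _ _ fun i _ =>
      (homogeneousComponent_isHomogeneous _ _).pderiv)
    rw [← map_intCast (C : k →+* MvPolynomial (Fin (m + 1)) k)]
    exact isHomogeneous_C _ _
  have ho := fun i => ord_of (hg i)
  let a : Matrix (Fin (m + 1)) (Fin (m + 1)) K := Matrix.of fun i j => aeval l (pderiv j (g i))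
  let b : Matrix (Fin (m + 1)) (Fin (m + 1)) K :=
    Matrix.of fun i j => aeval l (pderiv j (homogeneousComponent (t i) (g i)))
  have ha : ∀ i j, a i j ∈ T ^ (t i - 1) * alg T := fun i j => ord_aeval hl (ord_pderiv (ho i) j)
  have hb : ∀ i j, b i j ∈ T ^ (t i - 1) * alg T := fun i j =>
    ord_aeval hl (ord_pderiv (ord_lead _ _) j)
  have hab : ∀ i j, a i j - b i j ∈ T ^ (t i - 1 + 1) * alg T := fun i j => by
    have := ord_aeval hl (ord_pderiv (ord_sub (ho i)) j)
    rw [map_sub, map_sub] at this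
    exact fanti (by have := ht i; omega) this
  have eb : aeval l (Matrix.of fun i j =>
      pderiv j (homogeneousComponent (t i) (g i))).det = b.det := by
    rw [AlgHom.map_det]
    rfl
  have ea : Jac d (fun i => aeval l (g i)) = a.det * Jac d l := by
    rw [Jac, Jac, ← Matrix.det_mul]
    congr 1
    ext i j
    simp [a, Matrix.mul_apply, chain_rule]
  have hS1 : S₀ - algebraMap k K s₀ ∈ T ^ 1 * alg T := by rwa [pow_one]
  have hSa : S₀ ∈ alg T := by
    have h1 : S₀ - algebraMap k K s₀ ∈ alg T := by simpa using fanti (Nat.zero_le 1) hS1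
    simpa using add_mem h1 ((Algebra.adjoin k (T : Set K)).algebraMap_mem s₀)
  rw [wr_expand, Fin.sum_univ_succ (n := m + 1), eb]
  have e0 : (Jac d fun r => (Fin.cons S₀ fun i => aeval l (g i) : Fin (m + 2) → K)
      ((0 : Fin (m + 2)).succAbove r)) = a.det * Jac d l := by
    rw [← ea]
    rfl
  rw [e0, add_sub_right_comm]
  refine add_mem ?_ (sum_mem fun i _ => ?_)
  · have e : (-1) ^ ((0 : Fin (m + 2)) : ℕ) * (Fin.cons S₀ fun i => aeval l (g i) :
        Fin (m + 2) → K) 0 * (a.det * Jac d l) - s₀ • (b.det * Jac d l) =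
        ((S₀ - algebraMap k K s₀) * a.det + s₀ • (a.det - b.det)) * Jac d l := by
      simp only [Fin.val_zero, pow_zero, Fin.cons_zero, Algebra.smul_def]
      ring
    rw [e, ← mul_assoc]
    refine mul_mem_mul (add_mem ?_ (smul_mem _ _ (fdet_sub _ a b ha hb hab))) (jac_mem hl)
    rw [add_comm]
    exact fmul hS1 (fdet _ a ha)
  · let n : Fin (m + 2) → ℕ := Fin.cons 0 fun i => t i - 1
    let B : Fin (m + 2) → Fin (m + 2) → K := Fin.cons (Fin.cons 1 0) fun i => Fin.cons 0 (a i)
    have hB : ∀ r s, B r s ∈ T ^ n r * alg T := fun r s => by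
      refine Fin.cases ?_ (fun r => ?_) r <;> refine Fin.cases ?_ (fun s => ?_) s
      · exact fzero one_mem
      · exact zero_mem _
      · exact zero_mem _
      · exact ha r s
    have hu : ∀ r j, d j ((Fin.cons S₀ fun i => aeval l (g i) : Fin (m + 2) → K) r) =
        ∑ s, B r s * d j ((Fin.cons S₀ l : Fin (m + 2) → K) s) := fun r j => by
      refine Fin.cases ?_ (fun r => ?_) r
      · simp [B, Fin.sum_univ_succ]
      · rw [Fin.sum_univ_succ]
        simp [B, a, chain_rule]
    have hJ := jac_comb d (Fin.cons S₀ l : Fin (m + 2) → K)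
      (fun s => Fin.cases hSa (fun s => le_alg T (hl s)) s) _ (fun r => B (i.succ.succAbove r))
      (fun r => n (i.succ.succAbove r)) (fun r s => hB _ s) fun r j => hu _ j
    have hn : t i + ∑ r, n (i.succ.succAbove r) = ∑ i, (t i - 1) + 1 := by
      have h1 := Fin.sum_univ_succAbove n i.succ
      rw [Fin.sum_univ_succ (n := m + 1)] at h1
      simp only [n, Fin.cons_zero, Fin.cons_succ] at h1 ⊢
      have := ht i
      omega
    have hi : (-1) ^ (i.succ : ℕ) * (Fin.cons S₀ fun i => aeval l (g i) : Fin (m + 2) → K) i.succ ∈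
        T ^ t i * alg T := by
      have := ord_aeval hl (ho i)
      rcases neg_one_pow_eq_or K i.succ with e | e <;> rw [e] <;> simpa using this
    rw [← hn]
    exact fJ hi hJ

end Pool.Agent.R72.Res.SH
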