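import Pool.Agent.MP_19ffc6_ag.Res.SGlue
import Pool.Agent.MP_19ffc6_ag.Res.SFAll
import Pool.Agent.MP_19ffc6_ag.Res.SCalc
import Pool.Agent.MP_19ffc6_ag.Res.SPol
import Pool.Agent.MP_19ffc6_ag.Res.SLocX
import Pool.Agent.MP_19ffc6_ag.Res.SPg
import Pool.Agent.MP_19ffc6_ag.Res.SDim
import Pool.Agent.MP_19ffc6_ag.Res.STr
import Pool.Agent.MP_19ffc6_ag.Res.SWrl
import Pool.Agent.MP_19ffc6_ag.Res.SLocP
import Pool.Agent.MP_19ffc6_ag.Res.SSmo
import Pool.Agent.MP_19ffc6_ag.Res.SGt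
import Pool.Agent.MP_19ffc6_ag.Res.SDef
import Pool.Agent.MP_19ffc6_ag.Res.SStep
import Pool.Agent.MP_19ffc6_ag.Res.SPot
import Pool.Agent.MP_19ffc6_ag.Res.SStart
import Pool.Agent.MP_19ffc6_ag.Res.SAlb
import Pool.Agent.MP_19ffc6_ag.Res.SNum

/-! PROJECT SHARP: resolution in dimension `n` over perfect fields of characteristic
`p > cc (n - 1)`. -/

namespace Pool.Agent.R72.Res.SH

theorem resDim_sharp (κ : Type) [Field κ] [PerfectField κ] (p : ℕ) [Fact p.Prime] [CharP κ p]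
    (n : ℕ) (hp : ∀ m < n, cc m < p) : ResDim κ n :=
  resDim_glue κ p n calcS arithS hp fun k K _ _ _ _ _ m =>
    ⟨SF.ratS k K p m, albPS startS (stepS defS) potS, numS calcS rankS trS,
      gtS calcS arithS (PA.Fl.uni p) (locXS calcS arithS rankS pgS trS)
        (locWS calcS arithS rankS pgS trS)
        (locPS calcS arithS rankS pgS trS wrlS (polS calcS SF.ar) dimS) (smoS calcS)⟩

end Pool.Agent.R72.Res.SH
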