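import Pool.Agent.MP_19ffc6_ag.Res.SSpec
import Pool.Agent.MP_19ffc6_ag.Res.SCore

/-! PROJECT SHARP, module GT: the set of bad pairs of a point and a tuple is small. -/

namespace Pool.Agent.R72.Res.SH

open Pool.Agent.R72.Wild Pool.Agent.R72.Res.PA Pool.Agent.R72.Res.PA.Num
  Pool.Agent.R72.Res.PA.LocK Pool.Agent.R72.Res.SC Submodule Filter
open Pool.Agent.R72.Res.PF.Th (GT)
open GenM hiding le_alg alg_mul_alg pow_le_alg cx_gen cw_gen cp_gen at_gen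

variable {k K : Type} [Field k] [Field K] [Algebra k K] {m : ℕ}

namespace Gt

theorem fg_one : (1 : Submodule k K).FG := by
  rw [one_eq_span]
  exact fg_span_singleton _

theorem lt_cc {x : ℕ} (h : x ≤ BB m) : tau m m * x < cc m :=
  Nat.lt_succ_of_le (Nat.mul_le_mul_left _ h)

variable [IsAlgClosed k] {t : Fin (m + 1) → K} {d : Fin (m + 1) → Derivation k K K} {I : Type}
  [Fintype I] {u : I → K} {U M₀ : Submodule k K} {D : Set (DV k K)}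

theorem cx_gen (hc : CalcS) (hX : LocXS k K m) (hk : Big k (m + 2)) (hF : Fr t d) (hU : U.FG)
    (h0 : (1 : K) ∈ U) (hu : span k (Set.range u) = U ^ (m + 2)) (hM : M₀.FG)
    (hg : ∀ T, Pnt U T → GN d (al m) (BB m) D T) (i₀ : Fin (m + 2)) :
    GT U fun (l : Fin (m + 2) × I → k) T => ∀ c : Fin (m + 1) → k,
      tup u l i₀ ∉ nn T → (∀ i, tup u l (i₀.succAbove i) - c i • tup u l i₀ ∈ nn T) →
      CX d (cc m) T M₀ fun i => tup u l (i₀.succAbove i) - c i • tup u l i₀ := by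
  refine GT.mono (core_all (m + 2) i₀ (m + 1) (cc m) id
    {x : Submodule k K × ℕ // x.1.FG ∧ M₀ ≤ x.1} (fun x => x.1.1 * JJ d U ^ x.1.2)
    (fun _ => ⊥) (fun _ => ⊥) hF hU h0 hu (fun x => x.2.1.mul ((JJ_fg hU).pow _))
    (fun _ => by simp) (fun _ => by simp) (fun _ => by simp) fun T hT S₀ _ _ b hb => ?_)
    fun l T hT hl c h1 h2 => ?_
  · have hT' := fg_pnt hT hU
    obtain ⟨M, m1, m2, m3⟩ := hg T hT (M₀ ⊔ 1) (hM.sup fg_one)
      (mem_sup_right (one_le.1 le_rfl))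
    obtain ⟨β, e₀, e₁, μ, n1, n2, -⟩ := (m3 ∅ (by simp)).exists
    have hMM := (hM.sup fg_one).mul m1
    refine (hX hk T (Mb T (JJ d T) ((M₀ ⊔ 1) * M) β) ⊥ e₀ (cc m) b hT' (md_Mb _ _ _ _) md_bot
      (fun L => (fam_Mb hT' (JJ_fg hT') hMM).fd' le_rfl le_sup_left)
      (by simp only [sup_bot_eq]; exact hc.fq n2.x) hb ?_).mono le_rfl fun g _ h5 =>
        ⟨⟨((M₀ ⊔ 1) * M, β), hMM, fun x hx => mul_one x ▸ mul_mem_mul (mem_sup_left hx) m2⟩, ?_⟩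
    · rw [mul_comm (al m), mul_assoc]
      exact lt_cc (by omega)
    · rw [Mb, alg_pnt hT, JJ_pnt hT] at h5
      simpa using h5
  · obtain ⟨⟨⟨MM, b⟩, h3, h4⟩, h5⟩ := hl h1 c h2
    refine ⟨MM, b, h3, h4, ?_⟩
    rw [Mb, alg_pnt hT, JJ_pnt hT]
    simpa using h5

theorem cw_gen (hc : CalcS) (ha : ArithS) (hUn : UniStmt k K m) (hW : LocWS k K m)
    (hk : Big k (m + 2)) (hF : Fr t d) (hU : U.FG) (h0 : (1 : K) ∈ U) (hJ : JJ d U ≠ ⊥)
    (hu : span k (Set.range u) = U ^ (m + 2)) {w : DV k K} (hD : w ∈ D) (hw : U ≤ w.fil 0)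
    (hg : ∀ T, Pnt U T → GN d (al m) (BB m) D T) (i₀ : Fin (m + 1)) :
    GT U fun (l : Fin (m + 2) × I → k) T => ∀ c : Fin m → k,
      tup u l i₀.castSucc ∉ nn T →
      (∀ i, tup u l (i₀.succAbove i).castSucc - c i • tup u l i₀.castSucc ∈ nn T) →
      Ld (cc m) T (fun i => tup u l (i₀.succAbove i).castSucc - c i • tup u l i₀.castSucc)
        (alg T) (w.fil 1) := by
  obtain ⟨h, a1, a2, a3⟩ := exists_vanish hUn hF hJ hw
  refine GT.mono (core_hyp (m + 2) i₀.castSucc m (cc m) Fin.castSucc Unit (fun _ => 1)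
    (fun _ => ⊥) (fun _ => w.fil 1) hF hU h0 hu (fun _ => fg_one)
    (fun _ => by simp) (fun _ => by simp) (fun _ => alg_mul_fil hw) a1 a2
    fun T hT S₀ _ _ b hb hb' => ?_) fun l T hT hl c h1 h2 => ?_
  · have hT' := fg_pnt hT hU
    have hw' := (le_pnt hT).trans hw
    obtain ⟨ν, n1, n2⟩ : ∃ ν : ℕ, (SF.Fq m ν fun L => cod (alg T) (T ^ L * alg T ⊔ w.fil 1)) ∧
        tau m (∑ i, b i) * ν < cc m := by
      by_cases h5 : h ∈ nn T
      · obtain ⟨M, -, -, m3⟩ := hg T hT 1 fg_one (one_le.1 le_rfl)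
        obtain ⟨β, e₀, e₁, μ, n1, -, n2, -⟩ := (m3 {w} (by simpa using hD)).exists
        exact ⟨μ, hc.fq_mono (hc.fq n2) le_rfl (.of_forall fun L => by simp [bd]),
          (Nat.mul_le_mul_right _ (ha.mono _ _ _ (hb' h5))).trans_lt (lt_cc (by omega))⟩
      · obtain ⟨c, c1, c2⟩ := LocB.exists_val_ne (alg_pnt hT ▸ a1) h5
        refine ⟨0, hc.fq_mono (hc.fq (hc.ev_zero m)) (by simp) (.of_forall fun L => ?_),
          Nat.succ_pos _⟩
        refine (St.cod_le_of_le_sup (St.fd_of_fg fg_bot _) ?_).trans (by simp [cod])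
        rw [bot_sup_eq, sup_comm]
        refine (Loc.unit_le (Loc.mul_alg_le T) c1 c2 L).trans (sup_le_sup_right ?_ _)
        rw [mul_comm]
        exact (mul_le_mul_right (Loc.pr_le.2 a3) _).trans (md_fil hw' 1)
    refine (hW hk T (alg T) (w.fil 1) ν (cc m) b hT' (md_alg T) (md_fil hw' 1)
      (fun L => (fam_Mb hT' hT' fg_one).fd' (b := 0) (L := L) (by simp [Mb]) (by simp [Mb]))
      n1 hb n2).mono le_rfl fun g _ h5 => ⟨(), ?_⟩
    rw [alg_pnt hT] at h5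
    simpa using h5
  · simp only [Fin.castSucc_succAbove_castSucc] at hl
    obtain ⟨-, h5⟩ := hl h1 c h2
    rw [alg_pnt hT]
    simpa using h5

theorem cp_gen (ha : ArithS) (hP : LocPS k K m) (hS : SmoS k K m) (hk : Big k (m + 2))
    (hF : Fr t d) (hU : U.FG) (h0 : (1 : K) ∈ U) (hJ : JJ d U ≠ ⊥)
    (hu : span k (Set.range u) = U ^ (m + 2))
    (hg : ∀ T, Pnt U T → GN d (al m) (BB m) D T) (i₀ : Fin (m + 1)) :
    GT U fun (l : Fin (m + 2) × I → k) T => ∀ c : Fin m → k,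
      tup u l i₀.castSucc ∉ nn T →
      (∀ i, tup u l (i₀.succAbove i).castSucc - c i • tup u l i₀.castSucc ∈ nn T) →
      CP d (cc m) T (fun i => tup u l (i₀.succAbove i).castSucc - c i • tup u l i₀.castSucc)
        (Wr d (tup u l)) := by
  obtain ⟨h, a1, a2, a3⟩ := hS t d U hF hU hJ
  refine GT.mono (core_hyp (m + 2) i₀.castSucc m (cc m) Fin.castSucc
    {x : Submodule k K × ℕ // x.1.FG ∧ x.1 ≠ ⊥} (fun x => x.1.1 * JJ d U ^ (x.1.2 + 1))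
    (fun x => alg U * (x.1.1 * JJ d U ^ x.1.2)) (fun _ => ⊥) hF hU h0 hu
    (fun x => x.2.1.mul ((JJ_fg hU).pow _)) (fun x => ?_) (fun x => ?_) (fun _ => by simp) a1 a2
    fun T hT S₀ hS hS' b hb hb' => ?_) fun l T hT hl c h1 h2 => ?_
  · have h1 : WW d (alg U) ≤ alg U * JJ d U :=
      WW_le_mul.trans ((mul_le_mul_right (JJ_adjoin U) _).trans (by
        rw [← mul_assoc]; exact mul_le_mul_left (md_alg U) _))
    calc _ ≤ alg U * JJ d U * (alg U * (x.1.1 * JJ d U ^ x.1.2)) := mul_le_mul_left h1 _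
      _ = alg U * alg U * (x.1.1 * JJ d U ^ (x.1.2 + 1)) := by ring
      _ ≤ _ := mul_le_mul_left (md_alg U) _
  · rw [← mul_assoc]; exact mul_le_mul_left (md_alg U) _
  · obtain ⟨MM, n1, n2, n3⟩ : ∃ MM : Submodule k K, MM.FG ∧ (1 : K) ∈ MM ∧
        ∀ᶠ β : ℕ in atTop, ∃ e₀ e₁ : ℕ, Nm d T MM β e₀ e₁ ∧
          tau m (∑ i, b i) * (e₁ + (∑ i, b i) * e₀) < cc m := by
      by_cases h5 : h ∈ nn T
      · obtain ⟨M, m1, m2, m3⟩ := hg T hT 1 fg_one (one_le.1 le_rfl)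
        rw [one_mul] at m3
        refine ⟨M, m1, m2, (m3 ∅ (by simp)).mono fun β ⟨e₀, e₁, μ, n1, n2, _⟩ => ⟨e₀, e₁, n2, ?_⟩⟩
        have : (∑ i, b i) * e₀ ≤ al m * e₀ :=
          Nat.mul_le_mul_right e₀ ((hb' h5).trans (le_max_left m 2))
        exact (Nat.mul_le_mul_right _ (ha.mono _ _ _ (hb' h5))).trans_lt (lt_cc (by omega))
      · refine ⟨1, fg_one, one_le.1 le_rfl, (a3 T hT h5).mono fun β n => ⟨1, 0, n, ?_⟩⟩
        rw [zero_add, mul_one]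
        exact (Nat.mul_le_mul (ha.mono _ _ _ hb) hb).trans_lt (ha.off m)
    refine (hP hk t d T MM S₀ (cc m) b hF (fg_pnt hT hU) (JJ_pnt (d := d) hT ▸ hJ) n1
      (fun e => one_ne_zero ((mem_bot k).1 (e ▸ n2))) (alg_pnt hT ▸ pow_le_alg (le_alg U) _ hS) hS'
      hb n3.frequently).mono le_rfl fun g _ ⟨MM, b, h3, h4, h5⟩ => ⟨⟨(MM, b), h3, h4⟩, ?_⟩
    rw [Mb, Mb, alg_pnt hT, JJ_pnt hT] at h5
    rw [pr_wr, sup_bot_eq]
    exact h5
  · simp only [Fin.castSucc_succAbove_castSucc] at hl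
    obtain ⟨⟨⟨MM, b⟩, h3, h4⟩, h5⟩ := hl h1 c h2
    refine ⟨MM, b, h3, h4, ?_⟩
    rw [Mb, Mb, alg_pnt hT, JJ_pnt hT]
    rw [sup_bot_eq] at h5
    exact h5

end Gt

theorem gtS [IsAlgClosed k] (hc : CalcS) (ha : ArithS) (hU : UniStmt k K m) (hX : LocXS k K m)
    (hW : LocWS k K m) (hP : LocPS k K m) (hS : SmoS k K m) : GtS k K m := by
  intro hk t d U M₀ I _ u D hF hU' h0 hJ hu hM hD hw hg
  have g1 := PF.Th.bpf_all hF hU' h0 hu
  have g2 := GT.fin (Gt.cx_gen hc hX hk hF hU' h0 hu hM hg)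
  have g3 := GT.all hD fun w hwD =>
    GT.fin (Gt.cw_gen hc ha hU hW hk hF hU' h0 hJ hu hwD (hw w hwD) hg)
  have g4 := GT.fin (Gt.cp_gen ha hP hS hk hF hU' h0 hJ hu hg)
  have g5 := PF.Th.base hF hU' h0 hJ hu
  have g6 : GT U fun (l : Fin (m + 2) × I → k) T => ∀ w ∈ D,
      (∀ i : Fin (m + 1), tup u l i.castSucc ∈ nn T) → (1 : K) ∈ nn T ⊔ w.fil 1 := by
    refine GT.all hD fun w hwD => ?_
    obtain ⟨h, h1, h2, h3⟩ := exists_vanish hU hF hJ (hw w hwD)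
    refine GT.mono (PF.Th.bpf_hyp hF hU' h0 hu h1 h2) fun l T hT hl h4 => ?_
    refine one_mem_sup (alg_pnt hT ▸ h1) (fun h5 => ?_) h3
    obtain ⟨j, hj⟩ := hl h5
    exact hj (h4 j)
  refine GT.mono (GT.and (GT.and (GT.and g1 g2) (GT.and g3 g4)) (GT.and g5 g6)) ?_
  rintro l T hT ⟨⟨⟨a1, a2⟩, a3, a4⟩, a5, a6⟩
  exact ⟨a1, a2, fun i₀ c h1 h2 => ⟨fun w hwD => a3 w hwD i₀ c h1 h2,
    fun _ => a4 i₀ c h1 h2⟩, fun h => ⟨fun w hwD => a6 w hwD h, a5 h⟩⟩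

end Pool.Agent.R72.Res.SH
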